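import Pool.Agent.Helper38_TET.GridY
import Pool.Agent.Helper38_TET.TM_M
import Pool.Agent.Helper38_TET.TM_L
import Pool.Agent.Helper38_TET.TM_0
import Pool.Agent.Helper38_TET.TM_1
import Pool.Agent.Helper38_TET.TM_2
import Pool.Agent.Helper38_TET.TM_3
import Pool.Agent.Helper38_TET.TM_4
import Pool.Agent.Helper38_TET.TM_5
import Pool.Agent.Helper38_TET.TM_6

/-!
# MP_c7c9bf_co: certificates, family TM
-/

set_option autoImplicit false
set_option maxRecDepth 100000

namespace Pool.Agent.TET

theorem TM_u0 : CovZ TM_M (toL (selN TM_LN 6191332795998207)) [0, 7, 4, 3] (2496, 2880) (2464, 2912) (2432, 2880) :=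
    (CovZ.subM 469253485287299 (by decide +kernel)
         (CovZ.n2 (2464, 2880) (by decide +kernel)
          (CovZ.subM 142973052421120 (by decide +kernel)
           (CovZ.n2 (2448, 2896) (by decide +kernel)
            (CovZ.n2 (2464, 2896) (by decide +kernel)
             (CovZ.subM 34393326592 (by decide +kernel)
              (CovZ.n2 (2456, 2888) (by decide +kernel)
               (CovZ.n2 (2456, 2896) (by decide +kernel)
                (CovZ.n2 (2460, 2892) (by decide +kernel)
                 (CovZ.n2 (2456, 2892) (by decide +kernel)
                  (CovZ.n2 (2458, 2894) (by decide +kernel)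
                   (CovZ.leaf K2_ok TM_l33 _)
                   (CovZ.leaf K2_ok TM_l34 _))
                  (CovZ.leaf K2_ok TM_l35 _))
                 (CovZ.n1 (2460, 2896) (by decide +kernel)
                  (CovZ.leaf K2_ok TM_l36 _)
                  (CovZ.n1 (2458, 2894) (by decide +kernel)
                   (CovZ.leaf K2_ok TM_l37 _)
                   (CovZ.leaf K2_ok TM_l38 _))))
                (CovZ.n1 (2452, 2892) (by decide +kernel)
                 (CovZ.n2 (2452, 2896) (by decide +kernel)
                  (CovZ.n2 (2454, 2894) (by decide +kernel)
                   (CovZ.n2 (2452, 2894) (by decide +kernel)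
                    (CovZ.leaf K2_ok TM_l39 _)
                    (CovZ.leaf K2_ok TM_l40 _))
                   (CovZ.leaf K2_ok TM_l41 _))
                  (CovZ.n1 (2450, 2894) (by decide +kernel)
                   (CovZ.badM (by decide +kernel))
                   (CovZ.leaf K2_ok TM_l42 _)))
                 (CovZ.n1 (2456, 2892) (by decide +kernel)
                  (CovZ.n2 (2454, 2890) (by decide +kernel)
                   (CovZ.leaf K2_ok TM_l43 _)
                   (CovZ.leaf K2_ok TM_l44 _))
                  (CovZ.leaf K2_ok TM_l45 _))))
               (CovZ.n1 (2464, 2888) (by decide +kernel)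
                (CovZ.n2 (2460, 2884) (by decide +kernel)
                 (CovZ.leaf K2_ok TM_l46 _)
                 (CovZ.leaf K2_ok TM_l47 _))
                (CovZ.leaf K2_ok TM_l48 _))))
             (CovZ.subM 34393292800 (by decide +kernel)
              (CovZ.n1 (2456, 2904) (by decide +kernel)
               (CovZ.n2 (2464, 2904) (by decide +kernel)
                (CovZ.n2 (2460, 2900) (by decide +kernel)
                 (CovZ.badM (by decide +kernel))
                 (CovZ.n1 (2464, 2900) (by decide +kernel)
                  (CovZ.n2 (2462, 2898) (by decide +kernel)
                   (CovZ.n2 (2462, 2900) (by decide +kernel)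
                    (CovZ.leaf K2_ok TM_l49 _)
                    (CovZ.leaf K2_ok TM_l50 _))
                   (CovZ.leaf K2_ok TM_l51 _))
                  (CovZ.leaf K2_ok TM_l52 _)))
                (CovZ.badM (by decide +kernel)))
               (CovZ.n1 (2456, 2896) (by decide +kernel)
                (CovZ.badM (by decide +kernel))
                (CovZ.n1 (2460, 2900) (by decide +kernel)
                 (CovZ.n2 (2460, 2896) (by decide +kernel)
                  (CovZ.n2 (2458, 2898) (by decide +kernel)
                   (CovZ.leaf K2_ok TM_l53 _)
                   (CovZ.leaf K2_ok TM_l54 _))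
                  (CovZ.n1 (2462, 2898) (by decide +kernel)
                   (CovZ.leaf K2_ok TM_l55 _)
                   (CovZ.n1 (2460, 2898) (by decide +kernel)
                    (CovZ.leaf K2_ok TM_l56 _)
                    (CovZ.leaf K2_ok TM_l57 _))))
                 (CovZ.badM (by decide +kernel)))))))
            (CovZ.subM 34393326592 (by decide +kernel)
             (CovZ.n1 (2448, 2880) (by decide +kernel)
              (CovZ.n2 (2440, 2888) (by decide +kernel)
               (CovZ.n2 (2448, 2888) (by decide +kernel)
                (CovZ.n2 (2444, 2884) (by decide +kernel)
                 (CovZ.n2 (2444, 2888) (by decide +kernel)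
                  (CovZ.n2 (2446, 2886) (by decide +kernel)
                   (CovZ.n2 (2444, 2886) (by decide +kernel)
                    (CovZ.leaf K2_ok TM_l58 _)
                    (CovZ.leaf K2_ok TM_l59 _))
                   (CovZ.leaf K2_ok TM_l60 _))
                  (CovZ.n1 (2442, 2886) (by decide +kernel)
                   (CovZ.leaf K2_ok TM_l61 _)
                   (CovZ.leaf K2_ok TM_l62 _)))
                 (CovZ.n1 (2448, 2884) (by decide +kernel)
                  (CovZ.leaf K2_ok TM_l63 _)
                  (CovZ.leaf K2_ok TM_l64 _)))
                (CovZ.n1 (2444, 2892) (by decide +kernel)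
                 (CovZ.n2 (2448, 2892) (by decide +kernel)
                  (CovZ.n2 (2446, 2890) (by decide +kernel)
                   (CovZ.n2 (2446, 2892) (by decide +kernel)
                    (CovZ.leaf K2_ok TM_l65 _)
                    (CovZ.leaf K2_ok TM_l66 _))
                   (CovZ.leaf K2_ok TM_l67 _))
                  (CovZ.badM (by decide +kernel)))
                 (CovZ.n1 (2444, 2888) (by decide +kernel)
                  (CovZ.leaf K2_ok TM_l68 _)
                  (CovZ.n1 (2446, 2890) (by decide +kernel)
                   (CovZ.leaf K2_ok TM_l69 _)
                   (CovZ.n1 (2444, 2890) (by decide +kernel)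
                    (CovZ.n2 (2445, 2891) (by decide +kernel)
                     (CovZ.leaf K2_ok TM_l70 _)
                     (CovZ.badM (by decide +kernel)))
                    (CovZ.leaf K2_ok TM_l71 _))))))
               (CovZ.n1 (2440, 2880) (by decide +kernel)
                (CovZ.n2 (2436, 2884) (by decide +kernel)
                 (CovZ.n2 (2440, 2884) (by decide +kernel)
                  (CovZ.leaf K2_ok TM_l72 _)
                  (CovZ.leaf K2_ok TM_l73 _))
                 (CovZ.leaf K2_ok TM_l74 _))
                (CovZ.n1 (2444, 2884) (by decide +kernel)
                 (CovZ.leaf K2_ok TM_l75 _)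
                 (CovZ.n1 (2440, 2884) (by decide +kernel)
                  (CovZ.n2 (2442, 2886) (by decide +kernel)
                   (CovZ.leaf K2_ok TM_l76 _)
                   (CovZ.leaf K2_ok TM_l77 _))
                  (CovZ.leaf K2_ok TM_l78 _)))))
              (CovZ.n1 (2456, 2888) (by decide +kernel)
               (CovZ.n2 (2456, 2880) (by decide +kernel)
                (CovZ.leaf K2_ok TM_l79 _)
                (CovZ.n1 (2460, 2884) (by decide +kernel)
                 (CovZ.leaf K2_ok TM_l80 _)
                 (CovZ.leaf K2_ok TM_l81 _)))
               (CovZ.n1 (2448, 2888) (by decide +kernel)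
                (CovZ.n2 (2452, 2892) (by decide +kernel)
                 (CovZ.leaf K2_ok TM_l82 _)
                 (CovZ.n1 (2448, 2892) (by decide +kernel)
                  (CovZ.n2 (2450, 2894) (by decide +kernel)
                   (CovZ.leaf K2_ok TM_l83 _)
                   (CovZ.badM (by decide +kernel)))
                  (CovZ.n1 (2450, 2890) (by decide +kernel)
                   (CovZ.n2 (2448, 2890) (by decide +kernel)
                    (CovZ.leaf K2_ok TM_l84 _)
                    (CovZ.leaf K2_ok TM_l85 _))
                   (CovZ.leaf K2_ok TM_l86 _))))
                (CovZ.n1 (2452, 2884) (by decide +kernel)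
                 (CovZ.n2 (2448, 2884) (by decide +kernel)
                  (CovZ.leaf K2_ok TM_l87 _)
                  (CovZ.leaf K2_ok TM_l88 _))
                 (CovZ.n1 (2452, 2888) (by decide +kernel)
                  (CovZ.leaf K2_ok TM_l89 _)
                  (CovZ.leaf K2_ok TM_l90 _)))))))))
          (CovZ.n1 (2480, 2896) (by decide +kernel)
           (CovZ.n2 (2480, 2880) (by decide +kernel)
            (CovZ.n2 (2472, 2888) (by decide +kernel)
             (CovZ.n2 (2480, 2888) (by decide +kernel)
              (CovZ.n2 (2476, 2884) (by decide +kernel)
               (CovZ.leaf K2_ok TM_l91 _)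
               (CovZ.leaf K2_ok TM_l92 _))
              (CovZ.leaf K2_ok TM_l93 _))
             (CovZ.n1 (2472, 2880) (by decide +kernel)
              (CovZ.leaf K2_ok TM_l94 _)
              (CovZ.n1 (2476, 2884) (by decide +kernel)
               (CovZ.leaf K2_ok TM_l95 _)
               (CovZ.leaf K2_ok TM_l96 _))))
            (CovZ.n1 (2488, 2888) (by decide +kernel)
             (CovZ.subM 283983544620418 (by decide +kernel)
              (CovZ.n2 (2488, 2880) (by decide +kernel)
               (CovZ.n2 (2484, 2884) (by decide +kernel)
                (CovZ.n2 (2488, 2884) (by decide +kernel)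
                 (CovZ.leaf K2_ok TM_l97 _)
                 (CovZ.leaf K2_ok TM_l98 _))
                (CovZ.n1 (2484, 2880) (by decide +kernel)
                 (CovZ.leaf K2_ok TM_l99 _)
                 (CovZ.leaf K2_ok TM_l100 _)))
               (CovZ.n1 (2492, 2884) (by decide +kernel)
                (CovZ.n2 (2492, 2880) (by decide +kernel)
                 (CovZ.leaf K2_ok TM_l101 _)
                 (CovZ.n1 (2494, 2882) (by decide +kernel)
                  (CovZ.leaf K2_ok TM_l102 _)
                  (CovZ.leaf K2_ok TM_l103 _)))
                (CovZ.n1 (2488, 2884) (by decide +kernel)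
                 (CovZ.leaf K2_ok TM_l104 _)
                 (CovZ.leaf K2_ok TM_l105 _)))))
             (CovZ.n1 (2480, 2888) (by decide +kernel)
              (CovZ.leaf K2_ok TM_l106 _)
              (CovZ.leaf K2_ok TM_l107 _))))
           (CovZ.subM 424448050103424 (by decide +kernel)
            (CovZ.n1 (2464, 2896) (by decide +kernel)
             (CovZ.n2 (2472, 2904) (by decide +kernel)
              (CovZ.n2 (2472, 2896) (by decide +kernel)
               (CovZ.n2 (2468, 2900) (by decide +kernel)
                (CovZ.n2 (2472, 2900) (by decide +kernel)
                 (CovZ.leaf K2_ok TM_l108 _)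
                 (CovZ.leaf K2_ok TM_l109 _))
                (CovZ.leaf K2_ok TM_l110 _))
               (CovZ.n1 (2476, 2900) (by decide +kernel)
                (CovZ.leaf K2_ok TM_l111 _)
                (CovZ.n1 (2472, 2900) (by decide +kernel)
                 (CovZ.n2 (2474, 2902) (by decide +kernel)
                  (CovZ.leaf K2_ok TM_l112 _)
                  (CovZ.leaf K2_ok TM_l113 _))
                 (CovZ.leaf K2_ok TM_l114 _))))
              (CovZ.subM 34397487104 (by decide +kernel)
               (CovZ.n1 (2464, 2904) (by decide +kernel)
                (CovZ.n2 (2468, 2908) (by decide +kernel)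
                 (CovZ.n2 (2468, 2904) (by decide +kernel)
                  (CovZ.badM (by decide +kernel))
                  (CovZ.n1 (2470, 2906) (by decide +kernel)
                   (CovZ.leaf K2_ok TM_l115 _)
                   (CovZ.n1 (2468, 2906) (by decide +kernel)
                    (CovZ.badM (by decide +kernel))
                    (CovZ.leaf K2_ok TM_l116 _))))
                 (CovZ.badM (by decide +kernel)))
                (CovZ.n1 (2468, 2900) (by decide +kernel)
                 (CovZ.n2 (2464, 2900) (by decide +kernel)
                  (CovZ.n2 (2466, 2902) (by decide +kernel)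
                   (CovZ.leaf K2_ok TM_l117 _)
                   (CovZ.n1 (2464, 2902) (by decide +kernel)
                    (CovZ.badM (by decide +kernel))
                    (CovZ.leaf K2_ok TM_l118 _)))
                  (CovZ.leaf K2_ok TM_l119 _))
                 (CovZ.n1 (2468, 2904) (by decide +kernel)
                  (CovZ.leaf K2_ok TM_l120 _)
                  (CovZ.n1 (2466, 2902) (by decide +kernel)
                   (CovZ.badM (by decide +kernel))
                   (CovZ.leaf K2_ok TM_l121 _)))))))
             (CovZ.n1 (2472, 2888) (by decide +kernel)
              (CovZ.subM 34410103936 (by decide +kernel)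
               (CovZ.n2 (2464, 2888) (by decide +kernel)
                (CovZ.n2 (2468, 2892) (by decide +kernel)
                 (CovZ.leaf K2_ok TM_l122 _)
                 (CovZ.n1 (2464, 2892) (by decide +kernel)
                  (CovZ.leaf K2_ok TM_l123 _)
                  (CovZ.leaf K2_ok TM_l124 _)))
                (CovZ.leaf K2_ok TM_l125 _)))
              (CovZ.n1 (2472, 2896) (by decide +kernel)
               (CovZ.leaf K2_ok TM_l126 _)
               (CovZ.n1 (2468, 2892) (by decide +kernel)
                (CovZ.n2 (2468, 2896) (by decide +kernel)
                 (CovZ.leaf K2_ok TM_l127 _)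
                 (CovZ.leaf K2_ok TM_l128 _))
                (CovZ.leaf K2_ok TM_l129 _)))))))))

theorem TM_u1 : CovZ TM_M (toL (selN TM_LN 6191332795998207)) [0, 7, 4, 3] (2432, 2880) (2432, 2816) (2496, 2880) :=
    (CovZ.subM 11854445318403 (by decide +kernel)
        (CovZ.n1 (2464, 2848) (by decide +kernel)
         (CovZ.subM 584182694145 (by decide +kernel)
          (CovZ.n2 (2432, 2848) (by decide +kernel)
           (CovZ.n2 (2448, 2864) (by decide +kernel)
            (CovZ.badM (by decide +kernel))
            (CovZ.subM 34359771392 (by decide +kernel)
             (CovZ.n1 (2432, 2864) (by decide +kernel)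
              (CovZ.n2 (2440, 2872) (by decide +kernel)
               (CovZ.n2 (2440, 2864) (by decide +kernel)
                (CovZ.leaf K2_ok TM_l133 _)
                (CovZ.n1 (2444, 2868) (by decide +kernel)
                 (CovZ.n2 (2444, 2864) (by decide +kernel)
                  (CovZ.leaf K2_ok TM_l134 _)
                  (CovZ.n1 (2446, 2866) (by decide +kernel)
                   (CovZ.leaf K2_ok TM_l135 _)
                   (CovZ.leaf K2_ok TM_l136 _)))
                 (CovZ.leaf K2_ok TM_l137 _)))
               (CovZ.n1 (2432, 2872) (by decide +kernel)
                (CovZ.n2 (2436, 2876) (by decide +kernel)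
                 (CovZ.leaf K2_ok TM_l138 _)
                 (CovZ.n1 (2432, 2876) (by decide +kernel)
                  (CovZ.leaf K2_ok TM_l139 _)
                  (CovZ.leaf K2_ok TM_l140 _)))
                (CovZ.n1 (2436, 2868) (by decide +kernel)
                 (CovZ.leaf K2_ok TM_l141 _)
                 (CovZ.leaf K2_ok TM_l142 _))))
              (CovZ.n1 (2440, 2856) (by decide +kernel)
               (CovZ.n2 (2432, 2856) (by decide +kernel)
                (CovZ.n2 (2436, 2860) (by decide +kernel)
                 (CovZ.badM (by decide +kernel))
                 (CovZ.n1 (2432, 2860) (by decide +kernel)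
                  (CovZ.leaf K2_ok TM_l143 _)
                  (CovZ.leaf K2_ok TM_l144 _)))
                (CovZ.badM (by decide +kernel)))
               (CovZ.n1 (2440, 2864) (by decide +kernel)
                (CovZ.n2 (2444, 2860) (by decide +kernel)
                 (CovZ.n2 (2440, 2860) (by decide +kernel)
                  (CovZ.n2 (2442, 2862) (by decide +kernel)
                   (CovZ.badM (by decide +kernel))
                   (CovZ.n1 (2440, 2862) (by decide +kernel)
                    (CovZ.leaf K2_ok TM_l145 _)
                    (CovZ.badM (by decide +kernel))))
                  (CovZ.badM (by decide +kernel)))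
                 (CovZ.n1 (2444, 2864) (by decide +kernel)
                  (CovZ.n2 (2446, 2862) (by decide +kernel)
                   (CovZ.n2 (2444, 2862) (by decide +kernel)
                    (CovZ.leaf K2_ok TM_l146 _)
                    (CovZ.badM (by decide +kernel)))
                   (CovZ.leaf K2_ok TM_l147 _))
                  (CovZ.n1 (2442, 2862) (by decide +kernel)
                   (CovZ.leaf K2_ok TM_l148 _)
                   (CovZ.leaf K2_ok TM_l149 _))))
                (CovZ.n1 (2436, 2860) (by decide +kernel)
                 (CovZ.n2 (2436, 2864) (by decide +kernel)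
                  (CovZ.leaf K2_ok TM_l150 _)
                  (CovZ.n1 (2434, 2862) (by decide +kernel)
                   (CovZ.leaf K2_ok TM_l151 _)
                   (CovZ.leaf K2_ok TM_l152 _)))
                 (CovZ.n1 (2440, 2860) (by decide +kernel)
                  (CovZ.badM (by decide +kernel))
                  (CovZ.n1 (2438, 2862) (by decide +kernel)
                   (CovZ.leaf K2_ok TM_l153 _)
                   (CovZ.leaf K2_ok TM_l154 _)))))))))
           (CovZ.badM (by decide +kernel))))
         (CovZ.n1 (2464, 2880) (by decide +kernel)
          (CovZ.subM 2508529373186 (by decide +kernel)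
           (CovZ.n2 (2480, 2864) (by decide +kernel)
            (CovZ.subM 34359771136 (by decide +kernel)
             (CovZ.n2 (2464, 2864) (by decide +kernel)
              (CovZ.n2 (2472, 2872) (by decide +kernel)
               (CovZ.badM (by decide +kernel))
               (CovZ.n1 (2464, 2872) (by decide +kernel)
                (CovZ.n2 (2468, 2876) (by decide +kernel)
                 (CovZ.n2 (2468, 2872) (by decide +kernel)
                  (CovZ.leaf K2_ok TM_l155 _)
                  (CovZ.n1 (2470, 2874) (by decide +kernel)
                   (CovZ.leaf K2_ok TM_l156 _)
                   (CovZ.leaf K2_ok TM_l157 _)))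
                 (CovZ.n1 (2464, 2876) (by decide +kernel)
                  (CovZ.leaf K2_ok TM_l158 _)
                  (CovZ.leaf K2_ok TM_l159 _)))
                (CovZ.n1 (2468, 2868) (by decide +kernel)
                 (CovZ.n2 (2464, 2868) (by decide +kernel)
                  (CovZ.n2 (2466, 2870) (by decide +kernel)
                   (CovZ.badM (by decide +kernel))
                   (CovZ.n1 (2464, 2870) (by decide +kernel)
                    (CovZ.leaf K2_ok TM_l160 _)
                    (CovZ.badM (by decide +kernel))))
                  (CovZ.badM (by decide +kernel)))
                 (CovZ.n1 (2468, 2872) (by decide +kernel)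
                  (CovZ.badM (by decide +kernel))
                  (CovZ.n1 (2466, 2870) (by decide +kernel)
                   (CovZ.n2 (2466, 2872) (by decide +kernel)
                    (CovZ.badM (by decide +kernel))
                    (CovZ.leaf K2_ok TM_l161 _))
                   (CovZ.badM (by decide +kernel)))))))
              (CovZ.badM (by decide +kernel))))
            (CovZ.n1 (2480, 2880) (by decide +kernel)
             (CovZ.n2 (2488, 2872) (by decide +kernel)
              (CovZ.subM 309237682176 (by decide +kernel)
               (CovZ.n2 (2480, 2872) (by decide +kernel)
                (CovZ.n2 (2484, 2876) (by decide +kernel)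
                 (CovZ.badM (by decide +kernel))
                 (CovZ.n1 (2480, 2876) (by decide +kernel)
                  (CovZ.n2 (2482, 2878) (by decide +kernel)
                   (CovZ.badM (by decide +kernel))
                   (CovZ.leaf K2_ok TM_l162 _))
                  (CovZ.badM (by decide +kernel))))
                (CovZ.badM (by decide +kernel))))
              (CovZ.n1 (2488, 2880) (by decide +kernel)
               (CovZ.subM 2199291695106 (by decide +kernel)
                (CovZ.n2 (2492, 2876) (by decide +kernel)
                 (CovZ.n2 (2488, 2876) (by decide +kernel)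
                  (CovZ.n2 (2490, 2878) (by decide +kernel)
                   (CovZ.badM (by decide +kernel))
                   (CovZ.n1 (2488, 2878) (by decide +kernel)
                    (CovZ.leaf K2_ok TM_l163 _)
                    (CovZ.badM (by decide +kernel))))
                  (CovZ.badM (by decide +kernel)))
                 (CovZ.n1 (2492, 2880) (by decide +kernel)
                  (CovZ.n2 (2494, 2878) (by decide +kernel)
                   (CovZ.badM (by decide +kernel))
                   (CovZ.n1 (2494, 2880) (by decide +kernel)
                    (CovZ.badM (by decide +kernel))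
                    (CovZ.n1 (2493, 2879) (by decide +kernel)
                     (CovZ.leaf K2_ok TM_l164 _)
                     (CovZ.badM (by decide +kernel)))))
                  (CovZ.n1 (2490, 2878) (by decide +kernel)
                   (CovZ.leaf K2_ok TM_l165 _)
                   (CovZ.badM (by decide +kernel))))))
               (CovZ.subM 309237682176 (by decide +kernel)
                (CovZ.n1 (2484, 2876) (by decide +kernel)
                 (CovZ.n2 (2484, 2880) (by decide +kernel)
                  (CovZ.leaf K2_ok TM_l166 _)
                  (CovZ.n1 (2482, 2878) (by decide +kernel)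
                   (CovZ.leaf K2_ok TM_l167 _)
                   (CovZ.leaf K2_ok TM_l168 _)))
                 (CovZ.n1 (2488, 2876) (by decide +kernel)
                  (CovZ.badM (by decide +kernel))
                  (CovZ.n1 (2486, 2878) (by decide +kernel)
                   (CovZ.n2 (2488, 2878) (by decide +kernel)
                    (CovZ.badM (by decide +kernel))
                    (CovZ.badM (by decide +kernel)))
                   (CovZ.badM (by decide +kernel))))))))
             (CovZ.subM 34359771136 (by decide +kernel)
              (CovZ.n1 (2472, 2872) (by decide +kernel)
               (CovZ.n2 (2472, 2880) (by decide +kernel)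
                (CovZ.n2 (2476, 2876) (by decide +kernel)
                 (CovZ.n2 (2472, 2876) (by decide +kernel)
                  (CovZ.leaf K2_ok TM_l169 _)
                  (CovZ.leaf K2_ok TM_l170 _))
                 (CovZ.leaf K2_ok TM_l171 _))
                (CovZ.n1 (2468, 2876) (by decide +kernel)
                 (CovZ.leaf K2_ok TM_l172 _)
                 (CovZ.n1 (2472, 2876) (by decide +kernel)
                  (CovZ.n2 (2470, 2874) (by decide +kernel)
                   (CovZ.leaf K2_ok TM_l173 _)
                   (CovZ.leaf K2_ok TM_l174 _))
                  (CovZ.leaf K2_ok TM_l175 _))))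
               (CovZ.n1 (2480, 2872) (by decide +kernel)
                (CovZ.badM (by decide +kernel))
                (CovZ.n1 (2476, 2876) (by decide +kernel)
                 (CovZ.n2 (2480, 2876) (by decide +kernel)
                  (CovZ.n2 (2478, 2874) (by decide +kernel)
                   (CovZ.leaf K2_ok TM_l176 _)
                   (CovZ.badM (by decide +kernel)))
                  (CovZ.leaf K2_ok TM_l177 _))
                 (CovZ.n1 (2476, 2872) (by decide +kernel)
                  (CovZ.leaf K2_ok TM_l178 _)
                  (CovZ.n1 (2478, 2874) (by decide +kernel)
                   (CovZ.badM (by decide +kernel))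
                   (CovZ.leaf K2_ok TM_l179 _))))))))))
          (CovZ.subM 584182694145 (by decide +kernel)
           (CovZ.n1 (2448, 2864) (by decide +kernel)
            (CovZ.subM 34359771392 (by decide +kernel)
             (CovZ.n2 (2448, 2880) (by decide +kernel)
              (CovZ.n2 (2456, 2872) (by decide +kernel)
               (CovZ.n2 (2448, 2872) (by decide +kernel)
                (CovZ.n2 (2452, 2876) (by decide +kernel)
                 (CovZ.leaf K2_ok TM_l180 _)
                 (CovZ.leaf K2_ok TM_l181 _))
                (CovZ.n1 (2452, 2868) (by decide +kernel)
                 (CovZ.n2 (2448, 2868) (by decide +kernel)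
                  (CovZ.leaf K2_ok TM_l182 _)
                  (CovZ.n1 (2450, 2866) (by decide +kernel)
                   (CovZ.leaf K2_ok TM_l183 _)
                   (CovZ.leaf K2_ok TM_l184 _)))
                 (CovZ.leaf K2_ok TM_l185 _)))
               (CovZ.n1 (2456, 2880) (by decide +kernel)
                (CovZ.leaf K2_ok TM_l186 _)
                (CovZ.n1 (2452, 2876) (by decide +kernel)
                 (CovZ.leaf K2_ok TM_l187 _)
                 (CovZ.leaf K2_ok TM_l188 _))))
              (CovZ.n1 (2440, 2872) (by decide +kernel)
               (CovZ.n2 (2440, 2880) (by decide +kernel)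
                (CovZ.n2 (2444, 2876) (by decide +kernel)
                 (CovZ.leaf K2_ok TM_l189 _)
                 (CovZ.leaf K2_ok TM_l190 _))
                (CovZ.n1 (2436, 2876) (by decide +kernel)
                 (CovZ.n2 (2436, 2880) (by decide +kernel)
                  (CovZ.leaf K2_ok TM_l191 _)
                  (CovZ.leaf K2_ok TM_l192 _))
                 (CovZ.leaf K2_ok TM_l193 _)))
               (CovZ.n1 (2448, 2872) (by decide +kernel)
                (CovZ.n2 (2444, 2868) (by decide +kernel)
                 (CovZ.leaf K2_ok TM_l194 _)
                 (CovZ.n1 (2448, 2868) (by decide +kernel)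
                  (CovZ.n2 (2446, 2866) (by decide +kernel)
                   (CovZ.leaf K2_ok TM_l195 _)
                   (CovZ.leaf K2_ok TM_l196 _))
                  (CovZ.leaf K2_ok TM_l197 _)))
                (CovZ.leaf K2_ok TM_l198 _)))))
            (CovZ.subM 34359771136 (by decide +kernel)
             (CovZ.n1 (2464, 2864) (by decide +kernel)
              (CovZ.badM (by decide +kernel))
              (CovZ.n1 (2456, 2872) (by decide +kernel)
               (CovZ.n2 (2464, 2872) (by decide +kernel)
                (CovZ.n2 (2460, 2868) (by decide +kernel)
                 (CovZ.leaf K2_ok TM_l199 _)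
                 (CovZ.n1 (2464, 2868) (by decide +kernel)
                  (CovZ.badM (by decide +kernel))
                  (CovZ.n1 (2462, 2870) (by decide +kernel)
                   (CovZ.leaf K2_ok TM_l200 _)
                   (CovZ.badM (by decide +kernel)))))
                (CovZ.n1 (2460, 2876) (by decide +kernel)
                 (CovZ.leaf K2_ok TM_l201 _)
                 (CovZ.leaf K2_ok TM_l202 _)))
               (CovZ.n1 (2456, 2864) (by decide +kernel)
                (CovZ.n2 (2452, 2868) (by decide +kernel)
                 (CovZ.n2 (2456, 2868) (by decide +kernel)
                  (CovZ.n2 (2454, 2866) (by decide +kernel)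
                   (CovZ.leaf K2_ok TM_l203 _)
                   (CovZ.badM (by decide +kernel)))
                  (CovZ.leaf K2_ok TM_l204 _))
                 (CovZ.n1 (2452, 2864) (by decide +kernel)
                  (CovZ.leaf K2_ok TM_l205 _)
                  (CovZ.n1 (2454, 2866) (by decide +kernel)
                   (CovZ.badM (by decide +kernel))
                   (CovZ.leaf K2_ok TM_l206 _))))
                (CovZ.n1 (2460, 2868) (by decide +kernel)
                 (CovZ.badM (by decide +kernel))
                 (CovZ.n1 (2456, 2868) (by decide +kernel)
                  (CovZ.leaf K2_ok TM_l207 _)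
                  (CovZ.badM (by decide +kernel)))))))))))))

theorem TM_u2 : CovZ TM_M (toL (selN TM_LN 6191332795998207)) [0, 7, 4, 3] (2304, 2816) (2432, 2816) (2432, 2944) :=
    (CovZ.subM 547602013931392 (by decide +kernel)
      (CovZ.n2 (2368, 2880) (by decide +kernel)
       (CovZ.n2 (2432, 2880) (by decide +kernel)
        (CovZ.subM 35218815746944 (by decide +kernel)
         (CovZ.n2 (2400, 2848) (by decide +kernel)
          (CovZ.subM 34359738368 (by decide +kernel)
           (CovZ.n2 (2400, 2880) (by decide +kernel)
            (CovZ.n2 (2416, 2864) (by decide +kernel)
             (CovZ.n2 (2400, 2864) (by decide +kernel)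
              (CovZ.n2 (2408, 2872) (by decide +kernel)
               (CovZ.n2 (2408, 2864) (by decide +kernel)
                (CovZ.n2 (2404, 2868) (by decide +kernel)
                 (CovZ.n2 (2408, 2868) (by decide +kernel)
                  (CovZ.badM (by decide +kernel))
                  (CovZ.badM (by decide +kernel)))
                 (CovZ.badM (by decide +kernel)))
                (CovZ.n1 (2412, 2868) (by decide +kernel)
                 (CovZ.badM (by decide +kernel))
                 (CovZ.n1 (2408, 2868) (by decide +kernel)
                  (CovZ.n2 (2410, 2870) (by decide +kernel)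
                   (CovZ.leaf K2_ok TM_l0 _)
                   (CovZ.badM (by decide +kernel)))
                  (CovZ.badM (by decide +kernel)))))
               (CovZ.badM (by decide +kernel)))
              (CovZ.badM (by decide +kernel)))
             (CovZ.n1 (2416, 2880) (by decide +kernel)
              (CovZ.n2 (2424, 2872) (by decide +kernel)
               (CovZ.n2 (2416, 2872) (by decide +kernel)
                (CovZ.n2 (2420, 2876) (by decide +kernel)
                 (CovZ.n2 (2420, 2872) (by decide +kernel)
                  (CovZ.leaf K2_ok TM_l1 _)
                  (CovZ.leaf K2_ok TM_l2 _))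
                 (CovZ.badM (by decide +kernel)))
                (CovZ.n1 (2420, 2868) (by decide +kernel)
                 (CovZ.n2 (2416, 2868) (by decide +kernel)
                  (CovZ.leaf K2_ok TM_l3 _)
                  (CovZ.badM (by decide +kernel)))
                 (CovZ.n1 (2420, 2872) (by decide +kernel)
                  (CovZ.leaf K2_ok TM_l4 _)
                  (CovZ.leaf K2_ok TM_l5 _))))
               (CovZ.n1 (2424, 2880) (by decide +kernel)
                (CovZ.n2 (2428, 2876) (by decide +kernel)
                 (CovZ.n2 (2424, 2876) (by decide +kernel)
                  (CovZ.n2 (2426, 2878) (by decide +kernel)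
                   (CovZ.leaf K2_ok TM_l6 _)
                   (CovZ.badM (by decide +kernel)))
                  (CovZ.leaf K2_ok TM_l7 _))
                 (CovZ.n1 (2428, 2880) (by decide +kernel)
                  (CovZ.leaf K2_ok TM_l8 _)
                  (CovZ.n1 (2426, 2878) (by decide +kernel)
                   (CovZ.badM (by decide +kernel))
                   (CovZ.leaf K2_ok TM_l9 _))))
                (CovZ.n1 (2420, 2876) (by decide +kernel)
                 (CovZ.badM (by decide +kernel))
                 (CovZ.n1 (2424, 2876) (by decide +kernel)
                  (CovZ.leaf K2_ok TM_l10 _)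
                  (CovZ.badM (by decide +kernel))))))
              (CovZ.n1 (2408, 2872) (by decide +kernel)
               (CovZ.badM (by decide +kernel))
               (CovZ.n1 (2416, 2872) (by decide +kernel)
                (CovZ.n2 (2412, 2868) (by decide +kernel)
                 (CovZ.n2 (2412, 2872) (by decide +kernel)
                  (CovZ.n2 (2414, 2870) (by decide +kernel)
                   (CovZ.n2 (2412, 2870) (by decide +kernel)
                    (CovZ.badM (by decide +kernel))
                    (CovZ.leaf K2_ok TM_l11 _))
                   (CovZ.badM (by decide +kernel)))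
                  (CovZ.n1 (2410, 2870) (by decide +kernel)
                   (CovZ.badM (by decide +kernel))
                   (CovZ.n1 (2412, 2870) (by decide +kernel)
                    (CovZ.leaf K2_ok TM_l12 _)
                    (CovZ.badM (by decide +kernel)))))
                 (CovZ.n1 (2416, 2868) (by decide +kernel)
                  (CovZ.badM (by decide +kernel))
                  (CovZ.leaf K2_ok TM_l13 _)))
                (CovZ.badM (by decide +kernel))))))
            (CovZ.n1 (2384, 2864) (by decide +kernel)
             (CovZ.badM (by decide +kernel))
             (CovZ.n1 (2400, 2864) (by decide +kernel)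
              (CovZ.badM (by decide +kernel))
              (CovZ.badM (by decide +kernel))))))
          (CovZ.subM 34426880256 (by decide +kernel)
           (CovZ.n1 (2432, 2848) (by decide +kernel)
            (CovZ.n2 (2416, 2832) (by decide +kernel)
             (CovZ.n2 (2416, 2848) (by decide +kernel)
              (CovZ.badM (by decide +kernel))
              (CovZ.n1 (2408, 2840) (by decide +kernel)
               (CovZ.n2 (2408, 2848) (by decide +kernel)
                (CovZ.badM (by decide +kernel))
                (CovZ.n1 (2404, 2844) (by decide +kernel)
                 (CovZ.badM (by decide +kernel))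
                 (CovZ.badM (by decide +kernel))))
               (CovZ.badM (by decide +kernel))))
             (CovZ.badM (by decide +kernel)))
            (CovZ.n1 (2416, 2864) (by decide +kernel)
             (CovZ.n2 (2432, 2864) (by decide +kernel)
              (CovZ.n2 (2424, 2856) (by decide +kernel)
               (CovZ.n2 (2424, 2864) (by decide +kernel)
                (CovZ.n2 (2428, 2860) (by decide +kernel)
                 (CovZ.n2 (2424, 2860) (by decide +kernel)
                  (CovZ.leaf K2_ok TM_l14 _)
                  (CovZ.leaf K2_ok TM_l15 _))
                 (CovZ.leaf K2_ok TM_l16 _))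
                (CovZ.n1 (2420, 2860) (by decide +kernel)
                 (CovZ.badM (by decide +kernel))
                 (CovZ.n1 (2424, 2860) (by decide +kernel)
                  (CovZ.leaf K2_ok TM_l17 _)
                  (CovZ.badM (by decide +kernel)))))
               (CovZ.n1 (2432, 2856) (by decide +kernel)
                (CovZ.badM (by decide +kernel))
                (CovZ.n1 (2428, 2860) (by decide +kernel)
                 (CovZ.n2 (2432, 2860) (by decide +kernel)
                  (CovZ.n2 (2430, 2858) (by decide +kernel)
                   (CovZ.leaf K2_ok TM_l18 _)
                   (CovZ.n1 (2432, 2858) (by decide +kernel)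
                    (CovZ.badM (by decide +kernel))
                    (CovZ.leaf K2_ok TM_l19 _)))
                  (CovZ.leaf K2_ok TM_l20 _))
                 (CovZ.n1 (2428, 2856) (by decide +kernel)
                  (CovZ.leaf K2_ok TM_l21 _)
                  (CovZ.n1 (2430, 2858) (by decide +kernel)
                   (CovZ.badM (by decide +kernel))
                   (CovZ.leaf K2_ok TM_l22 _))))))
              (CovZ.n1 (2424, 2872) (by decide +kernel)
               (CovZ.n2 (2432, 2872) (by decide +kernel)
                (CovZ.n2 (2428, 2868) (by decide +kernel)
                 (CovZ.leaf K2_ok TM_l23 _)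
                 (CovZ.leaf K2_ok TM_l24 _))
                (CovZ.leaf K2_ok TM_l25 _))
               (CovZ.n1 (2424, 2864) (by decide +kernel)
                (CovZ.leaf K2_ok TM_l26 _)
                (CovZ.n1 (2428, 2868) (by decide +kernel)
                 (CovZ.badM (by decide +kernel))
                 (CovZ.leaf K2_ok TM_l27 _)))))
             (CovZ.n1 (2416, 2848) (by decide +kernel)
              (CovZ.n2 (2408, 2856) (by decide +kernel)
               (CovZ.n2 (2416, 2856) (by decide +kernel)
                (CovZ.n2 (2412, 2852) (by decide +kernel)
                 (CovZ.badM (by decide +kernel))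
                 (CovZ.n1 (2416, 2852) (by decide +kernel)
                  (CovZ.n2 (2414, 2850) (by decide +kernel)
                   (CovZ.badM (by decide +kernel))
                   (CovZ.badM (by decide +kernel)))
                  (CovZ.badM (by decide +kernel))))
                (CovZ.badM (by decide +kernel)))
               (CovZ.n1 (2408, 2848) (by decide +kernel)
                (CovZ.badM (by decide +kernel))
                (CovZ.n1 (2412, 2852) (by decide +kernel)
                 (CovZ.n2 (2412, 2848) (by decide +kernel)
                  (CovZ.badM (by decide +kernel))
                  (CovZ.n1 (2414, 2850) (by decide +kernel)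
                   (CovZ.badM (by decide +kernel))
                   (CovZ.badM (by decide +kernel))))
                 (CovZ.badM (by decide +kernel)))))
              (CovZ.n1 (2424, 2856) (by decide +kernel)
               (CovZ.badM (by decide +kernel))
               (CovZ.n1 (2416, 2856) (by decide +kernel)
                (CovZ.n2 (2420, 2860) (by decide +kernel)
                 (CovZ.leaf K2_ok TM_l28 _)
                 (CovZ.badM (by decide +kernel)))
                (CovZ.n1 (2420, 2852) (by decide +kernel)
                 (CovZ.n2 (2416, 2852) (by decide +kernel)
                  (CovZ.n2 (2418, 2854) (by decide +kernel)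
                   (CovZ.leaf K2_ok TM_l29 _)
                   (CovZ.badM (by decide +kernel)))
                  (CovZ.badM (by decide +kernel)))
                 (CovZ.leaf K2_ok TM_l30 _))))))))))
        (CovZ.subM 34393292800 (by decide +kernel)
         (CovZ.n1 (2400, 2912) (by decide +kernel)
          (CovZ.n2 (2432, 2912) (by decide +kernel)
           (CovZ.n2 (2416, 2896) (by decide +kernel)
            (CovZ.badM (by decide +kernel))
            (CovZ.n1 (2432, 2896) (by decide +kernel)
             (CovZ.n2 (2424, 2888) (by decide +kernel)
              (CovZ.badM (by decide +kernel))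
              (CovZ.n1 (2432, 2888) (by decide +kernel)
               (CovZ.n2 (2428, 2884) (by decide +kernel)
                (CovZ.badM (by decide +kernel))
                (CovZ.n1 (2432, 2884) (by decide +kernel)
                 (CovZ.n2 (2430, 2882) (by decide +kernel)
                  (CovZ.badM (by decide +kernel))
                  (CovZ.leaf K2_ok TM_l31 _))
                 (CovZ.badM (by decide +kernel))))
               (CovZ.badM (by decide +kernel))))
             (CovZ.badM (by decide +kernel))))
           (CovZ.badM (by decide +kernel)))
          (CovZ.n1 (2400, 2880) (by decide +kernel)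
           (CovZ.badM (by decide +kernel))
           (CovZ.n1 (2416, 2896) (by decide +kernel)
            (CovZ.n2 (2416, 2880) (by decide +kernel)
             (CovZ.badM (by decide +kernel))
             (CovZ.n1 (2424, 2888) (by decide +kernel)
              (CovZ.n2 (2424, 2880) (by decide +kernel)
               (CovZ.badM (by decide +kernel))
               (CovZ.n1 (2428, 2884) (by decide +kernel)
                (CovZ.n2 (2428, 2880) (by decide +kernel)
                 (CovZ.badM (by decide +kernel))
                 (CovZ.n1 (2430, 2882) (by decide +kernel)
                  (CovZ.leaf K2_ok TM_l32 _)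
                  (CovZ.badM (by decide +kernel))))
                (CovZ.badM (by decide +kernel))))
              (CovZ.badM (by decide +kernel))))
            (CovZ.badM (by decide +kernel)))))))
       (CovZ.subM 35218815746944 (by decide +kernel)
        (CovZ.n1 (2368, 2816) (by decide +kernel)
         (CovZ.n2 (2336, 2848) (by decide +kernel)
          (CovZ.n2 (2368, 2848) (by decide +kernel)
           (CovZ.badM (by decide +kernel))
           (CovZ.badM (by decide +kernel)))
          (CovZ.badM (by decide +kernel)))
         (CovZ.n1 (2400, 2848) (by decide +kernel)
          (CovZ.subM 32768 (by decide +kernel)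
           (CovZ.n2 (2400, 2816) (by decide +kernel)
            (CovZ.n2 (2384, 2832) (by decide +kernel)
             (CovZ.n2 (2400, 2832) (by decide +kernel)
              (CovZ.badM (by decide +kernel))
              (CovZ.n1 (2392, 2840) (by decide +kernel)
               (CovZ.n2 (2400, 2840) (by decide +kernel)
                (CovZ.badM (by decide +kernel))
                (CovZ.badM (by decide +kernel)))
               (CovZ.badM (by decide +kernel))))
             (CovZ.badM (by decide +kernel)))
            (CovZ.n1 (2416, 2832) (by decide +kernel)
             (CovZ.badM (by decide +kernel))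
             (CovZ.n1 (2400, 2832) (by decide +kernel)
              (CovZ.n2 (2408, 2840) (by decide +kernel)
               (CovZ.badM (by decide +kernel))
               (CovZ.n1 (2400, 2840) (by decide +kernel)
                (CovZ.n2 (2404, 2844) (by decide +kernel)
                 (CovZ.badM (by decide +kernel))
                 (CovZ.badM (by decide +kernel)))
                (CovZ.badM (by decide +kernel))))
              (CovZ.badM (by decide +kernel))))))
          (CovZ.n1 (2368, 2848) (by decide +kernel)
           (CovZ.n2 (2384, 2864) (by decide +kernel)
            (CovZ.badM (by decide +kernel))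
            (CovZ.badM (by decide +kernel)))
           (CovZ.badM (by decide +kernel))))))))

theorem TM_u3 : CovZ TM_M (toL (selN TM_LN 6191332795998207)) [0, 7, 4, 3] (2432, 2816) (2560, 2816) (2432, 2944) :=
    (CovZ.n1 (2496, 2880) (by decide +kernel)
      (CovZ.subM 4430233616 (by decide +kernel)
       (CovZ.n2 (2496, 2816) (by decide +kernel)
        (CovZ.n2 (2464, 2848) (by decide +kernel)
         (CovZ.n2 (2496, 2848) (by decide +kernel)
          (CovZ.badM (by decide +kernel))
          (CovZ.badM (by decide +kernel)))
         (CovZ.badM (by decide +kernel)))
        (CovZ.n1 (2528, 2848) (by decide +kernel)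
         (CovZ.badM (by decide +kernel))
         (CovZ.n1 (2496, 2848) (by decide +kernel)
          (CovZ.n2 (2512, 2864) (by decide +kernel)
           (CovZ.badM (by decide +kernel))
           (CovZ.n1 (2496, 2864) (by decide +kernel)
            (CovZ.n2 (2504, 2872) (by decide +kernel)
             (CovZ.badM (by decide +kernel))
             (CovZ.n1 (2496, 2872) (by decide +kernel)
              (CovZ.n2 (2500, 2876) (by decide +kernel)
               (CovZ.badM (by decide +kernel))
               (CovZ.badM (by decide +kernel)))
              (CovZ.badM (by decide +kernel))))
            (CovZ.badM (by decide +kernel))))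
          (CovZ.badM (by decide +kernel))))))
      (CovZ.n1 (2432, 2880) (by decide +kernel)
       (CovZ.n2 (2464, 2912) (by decide +kernel)
        TM_u0
        (CovZ.subM 34393292800 (by decide +kernel)
         (CovZ.n1 (2432, 2912) (by decide +kernel)
          (CovZ.badM (by decide +kernel))
          (CovZ.n1 (2448, 2896) (by decide +kernel)
           (CovZ.n2 (2432, 2896) (by decide +kernel)
            (CovZ.badM (by decide +kernel))
            (CovZ.n1 (2440, 2888) (by decide +kernel)
             (CovZ.n2 (2432, 2888) (by decide +kernel)
              (CovZ.badM (by decide +kernel))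
              (CovZ.n1 (2436, 2884) (by decide +kernel)
               (CovZ.n2 (2432, 2884) (by decide +kernel)
                (CovZ.n2 (2434, 2886) (by decide +kernel)
                 (CovZ.badM (by decide +kernel))
                 (CovZ.badM (by decide +kernel)))
                (CovZ.leaf K2_ok TM_l130 _))
               (CovZ.n1 (2436, 2888) (by decide +kernel)
                (CovZ.n2 (2438, 2886) (by decide +kernel)
                 (CovZ.leaf K2_ok TM_l131 _)
                 (CovZ.badM (by decide +kernel)))
                (CovZ.n1 (2434, 2886) (by decide +kernel)
                 (CovZ.badM (by decide +kernel))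
                 (CovZ.leaf K2_ok TM_l132 _)))))
             (CovZ.badM (by decide +kernel))))
           (CovZ.badM (by decide +kernel))))))
       TM_u1))

theorem TM_u4 : CovZ TM_M (toL (selN TM_LN 9007199254740991)) [0, 7, 4, 3] (2560, 2944) (2528, 2944) (2528, 2912) :=
    (CovZ.n2 (2544, 2928) (by decide +kernel)
          (CovZ.n2 (2528, 2928) (by decide +kernel)
           (CovZ.n2 (2536, 2936) (by decide +kernel)
            (CovZ.n2 (2536, 2928) (by decide +kernel)
             (CovZ.n2 (2532, 2932) (by decide +kernel)
              (CovZ.n2 (2536, 2932) (by decide +kernel)
               (CovZ.leaf K2_ok TM_l274 _)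
               (CovZ.leaf K2_ok TM_l275 _))
              (CovZ.n1 (2532, 2928) (by decide +kernel)
               (CovZ.leaf K2_ok TM_l276 _)
               (CovZ.n1 (2534, 2930) (by decide +kernel)
                (CovZ.leaf K2_ok TM_l277 _)
                (CovZ.leaf K2_ok TM_l278 _))))
             (CovZ.n1 (2540, 2932) (by decide +kernel)
              (CovZ.leaf K2_ok TM_l279 _)
              (CovZ.n1 (2536, 2932) (by decide +kernel)
               (CovZ.n2 (2538, 2934) (by decide +kernel)
                (CovZ.leaf K2_ok TM_l280 _)
                (CovZ.leaf K2_ok TM_l281 _))
               (CovZ.leaf K2_ok TM_l282 _))))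
            (CovZ.n1 (2528, 2936) (by decide +kernel)
             (CovZ.subM 2 (by decide +kernel)
              (CovZ.n2 (2532, 2940) (by decide +kernel)
               (CovZ.n2 (2532, 2936) (by decide +kernel)
                (CovZ.badM (by decide +kernel))
                (CovZ.n1 (2534, 2938) (by decide +kernel)
                 (CovZ.leaf K2_ok TM_l283 _)
                 (CovZ.badM (by decide +kernel))))
               (CovZ.badM (by decide +kernel))))
             (CovZ.n1 (2532, 2932) (by decide +kernel)
              (CovZ.n2 (2528, 2932) (by decide +kernel)
               (CovZ.n2 (2530, 2934) (by decide +kernel)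
                (CovZ.leaf K2_ok TM_l284 _)
                (CovZ.n1 (2528, 2934) (by decide +kernel)
                 (CovZ.badM (by decide +kernel))
                 (CovZ.leaf K2_ok TM_l285 _)))
               (CovZ.n1 (2530, 2930) (by decide +kernel)
                (CovZ.leaf K2_ok TM_l286 _)
                (CovZ.leaf K2_ok TM_l287 _)))
              (CovZ.subM 8683686995509515 (by decide +kernel)
               (CovZ.n1 (2532, 2936) (by decide +kernel)
                (CovZ.n2 (2534, 2934) (by decide +kernel)
                 (CovZ.leaf K2_ok TM_l288 _)
                 (CovZ.n1 (2534, 2936) (by decide +kernel)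
                  (CovZ.leaf K2_ok TM_l289 _)
                  (CovZ.leaf K2_ok TM_l290 _)))
                (CovZ.n1 (2530, 2934) (by decide +kernel)
                 (CovZ.badM (by decide +kernel))
                 (CovZ.leaf K2_ok TM_l291 _)))))))
           (CovZ.n1 (2536, 2920) (by decide +kernel)
            (CovZ.n2 (2528, 2920) (by decide +kernel)
             (CovZ.n2 (2532, 2924) (by decide +kernel)
              (CovZ.leaf K2_ok TM_l292 _)
              (CovZ.leaf K2_ok TM_l293 _))
             (CovZ.leaf K2_ok TM_l294 _))
            (CovZ.n1 (2536, 2928) (by decide +kernel)
             (CovZ.n2 (2540, 2924) (by decide +kernel)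
              (CovZ.leaf K2_ok TM_l295 _)
              (CovZ.leaf K2_ok TM_l296 _))
             (CovZ.n1 (2532, 2924) (by decide +kernel)
              (CovZ.n2 (2532, 2928) (by decide +kernel)
               (CovZ.leaf K2_ok TM_l297 _)
               (CovZ.leaf K2_ok TM_l298 _))
              (CovZ.leaf K2_ok TM_l299 _)))))
          (CovZ.n1 (2544, 2944) (by decide +kernel)
           (CovZ.n2 (2552, 2936) (by decide +kernel)
            (CovZ.n2 (2544, 2936) (by decide +kernel)
             (CovZ.subM 7390369287503937 (by decide +kernel)
              (CovZ.n2 (2548, 2940) (by decide +kernel)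
               (CovZ.n2 (2548, 2936) (by decide +kernel)
                (CovZ.leaf K2_ok TM_l300 _)
                (CovZ.n1 (2550, 2938) (by decide +kernel)
                 (CovZ.leaf K2_ok TM_l301 _)
                 (CovZ.leaf K2_ok TM_l302 _)))
               (CovZ.subM 564600028528640 (by decide +kernel)
                (CovZ.n1 (2544, 2940) (by decide +kernel)
                 (CovZ.badM (by decide +kernel))
                 (CovZ.n1 (2546, 2938) (by decide +kernel)
                  (CovZ.n2 (2544, 2938) (by decide +kernel)
                   (CovZ.badM (by decide +kernel))
                   (CovZ.leaf K2_ok TM_l303 _))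
                  (CovZ.badM (by decide +kernel)))))))
             (CovZ.n1 (2548, 2932) (by decide +kernel)
              (CovZ.n2 (2544, 2932) (by decide +kernel)
               (CovZ.leaf K2_ok TM_l304 _)
               (CovZ.leaf K2_ok TM_l305 _))
              (CovZ.n1 (2548, 2936) (by decide +kernel)
               (CovZ.leaf K2_ok TM_l306 _)
               (CovZ.leaf K2_ok TM_l307 _))))
            (CovZ.subM 7390369287503937 (by decide +kernel)
             (CovZ.n1 (2552, 2944) (by decide +kernel)
              (CovZ.n2 (2556, 2940) (by decide +kernel)
               (CovZ.n2 (2552, 2940) (by decide +kernel)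
                (CovZ.n2 (2554, 2942) (by decide +kernel)
                 (CovZ.leaf K2_ok TM_l308 _)
                 (CovZ.badM (by decide +kernel)))
                (CovZ.n1 (2554, 2938) (by decide +kernel)
                 (CovZ.leaf K2_ok TM_l309 _)
                 (CovZ.n1 (2554, 2940) (by decide +kernel)
                  (CovZ.leaf K2_ok TM_l310 _)
                  (CovZ.leaf K2_ok TM_l311 _))))
               (CovZ.subM 550024249344 (by decide +kernel)
                (CovZ.n1 (2556, 2944) (by decide +kernel)
                 (CovZ.n2 (2558, 2942) (by decide +kernel)
                  (CovZ.leaf K2_ok TM_l312 _)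
                  (CovZ.leaf K2_ok TM_l313 _))
                 (CovZ.n1 (2554, 2942) (by decide +kernel)
                  (CovZ.badM (by decide +kernel))
                  (CovZ.leaf K2_ok TM_l314 _)))))
              (CovZ.n1 (2548, 2940) (by decide +kernel)
               (CovZ.badM (by decide +kernel))
               (CovZ.n1 (2552, 2940) (by decide +kernel)
                (CovZ.n2 (2550, 2938) (by decide +kernel)
                 (CovZ.leaf K2_ok TM_l315 _)
                 (CovZ.leaf K2_ok TM_l316 _))
                (CovZ.badM (by decide +kernel)))))))
           (CovZ.n1 (2536, 2936) (by decide +kernel)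
            (CovZ.subM 2 (by decide +kernel)
             (CovZ.n2 (2536, 2944) (by decide +kernel)
              (CovZ.n2 (2540, 2940) (by decide +kernel)
               (CovZ.n2 (2536, 2940) (by decide +kernel)
                (CovZ.badM (by decide +kernel))
                (CovZ.n1 (2538, 2938) (by decide +kernel)
                 (CovZ.n2 (2536, 2938) (by decide +kernel)
                  (CovZ.badM (by decide +kernel))
                  (CovZ.leaf K2_ok TM_l317 _))
                 (CovZ.badM (by decide +kernel))))
               (CovZ.badM (by decide +kernel)))
              (CovZ.n1 (2532, 2940) (by decide +kernel)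
               (CovZ.badM (by decide +kernel))
               (CovZ.n1 (2536, 2940) (by decide +kernel)
                (CovZ.n2 (2534, 2938) (by decide +kernel)
                 (CovZ.badM (by decide +kernel))
                 (CovZ.n1 (2536, 2938) (by decide +kernel)
                  (CovZ.leaf K2_ok TM_l318 _)
                  (CovZ.badM (by decide +kernel))))
                (CovZ.badM (by decide +kernel))))))
            (CovZ.n1 (2544, 2936) (by decide +kernel)
             (CovZ.n2 (2540, 2932) (by decide +kernel)
              (CovZ.n2 (2540, 2936) (by decide +kernel)
               (CovZ.leaf K2_ok TM_l319 _)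
               (CovZ.n1 (2538, 2934) (by decide +kernel)
                (CovZ.leaf K2_ok TM_l320 _)
                (CovZ.leaf K2_ok TM_l321 _)))
              (CovZ.n1 (2544, 2932) (by decide +kernel)
               (CovZ.leaf K2_ok TM_l322 _)
               (CovZ.leaf K2_ok TM_l323 _)))
             (CovZ.subM 1708092121415682 (by decide +kernel)
              (CovZ.n1 (2540, 2940) (by decide +kernel)
               (CovZ.n2 (2544, 2940) (by decide +kernel)
                (CovZ.n2 (2542, 2938) (by decide +kernel)
                 (CovZ.badM (by decide +kernel))
                 (CovZ.n1 (2544, 2938) (by decide +kernel)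
                  (CovZ.leaf K2_ok TM_l324 _)
                  (CovZ.badM (by decide +kernel))))
                (CovZ.badM (by decide +kernel)))
               (CovZ.n1 (2540, 2936) (by decide +kernel)
                (CovZ.leaf K2_ok TM_l325 _)
                (CovZ.n1 (2542, 2938) (by decide +kernel)
                 (CovZ.leaf K2_ok TM_l326 _)
                 (CovZ.badM (by decide +kernel))))))))))

theorem TM_u5 : CovZ TM_M (toL (selN TM_LN 9007199254740991)) [0, 7, 4, 3] (2528, 2944) (2496, 2944) (2528, 2912) :=
    (CovZ.n1 (2512, 2928) (by decide +kernel)
          (CovZ.subM 7367966686924857 (by decide +kernel)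
           (CovZ.n2 (2512, 2944) (by decide +kernel)
            (CovZ.n2 (2520, 2936) (by decide +kernel)
             (CovZ.n2 (2512, 2936) (by decide +kernel)
              (CovZ.badM (by decide +kernel))
              (CovZ.n1 (2516, 2932) (by decide +kernel)
               (CovZ.n2 (2512, 2932) (by decide +kernel)
                (CovZ.badM (by decide +kernel))
                (CovZ.n1 (2514, 2930) (by decide +kernel)
                 (CovZ.n2 (2512, 2930) (by decide +kernel)
                  (CovZ.leaf K2_ok TM_l327 _)
                  (CovZ.leaf K2_ok TM_l328 _))
                 (CovZ.leaf K2_ok TM_l329 _)))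
               (CovZ.n1 (2516, 2936) (by decide +kernel)
                (CovZ.n2 (2518, 2934) (by decide +kernel)
                 (CovZ.badM (by decide +kernel))
                 (CovZ.badM (by decide +kernel)))
                (CovZ.badM (by decide +kernel)))))
             (CovZ.badM (by decide +kernel)))
            (CovZ.n1 (2504, 2936) (by decide +kernel)
             (CovZ.badM (by decide +kernel))
             (CovZ.n1 (2512, 2936) (by decide +kernel)
              (CovZ.subM 6796081926389793 (by decide +kernel)
               (CovZ.n2 (2508, 2932) (by decide +kernel)
                (CovZ.badM (by decide +kernel))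
                (CovZ.n1 (2512, 2932) (by decide +kernel)
                 (CovZ.n2 (2510, 2930) (by decide +kernel)
                  (CovZ.n2 (2510, 2932) (by decide +kernel)
                   (CovZ.leaf K2_ok TM_l330 _)
                   (CovZ.leaf K2_ok TM_l800 _))
                  (CovZ.leaf K2_ok TM_l331 _))
                 (CovZ.badM (by decide +kernel)))))
              (CovZ.badM (by decide +kernel))))))
          (CovZ.n1 (2528, 2928) (by decide +kernel)
           (CovZ.n2 (2520, 2920) (by decide +kernel)
            (CovZ.n2 (2520, 2928) (by decide +kernel)
             (CovZ.n2 (2524, 2924) (by decide +kernel)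
              (CovZ.n2 (2520, 2924) (by decide +kernel)
               (CovZ.leaf K2_ok TM_l332 _)
               (CovZ.leaf K2_ok TM_l333 _))
              (CovZ.n1 (2524, 2928) (by decide +kernel)
               (CovZ.leaf K2_ok TM_l334 _)
               (CovZ.leaf K2_ok TM_l335 _)))
             (CovZ.n1 (2516, 2924) (by decide +kernel)
              (CovZ.n2 (2516, 2928) (by decide +kernel)
               (CovZ.leaf K2_ok TM_l336 _)
               (CovZ.leaf K2_ok TM_l337 _))
              (CovZ.leaf K2_ok TM_l338 _)))
            (CovZ.n1 (2528, 2920) (by decide +kernel)
             (CovZ.n2 (2524, 2916) (by decide +kernel)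
              (CovZ.leaf K2_ok TM_l339 _)
              (CovZ.leaf K2_ok TM_l340 _))
             (CovZ.n1 (2524, 2924) (by decide +kernel)
              (CovZ.leaf K2_ok TM_l341 _)
              (CovZ.leaf K2_ok TM_l342 _))))
           (CovZ.n1 (2520, 2936) (by decide +kernel)
            (CovZ.n2 (2528, 2936) (by decide +kernel)
             (CovZ.n2 (2524, 2932) (by decide +kernel)
              (CovZ.subM 5077829419081752 (by decide +kernel)
               (CovZ.n2 (2524, 2936) (by decide +kernel)
                (CovZ.n2 (2526, 2934) (by decide +kernel)
                 (CovZ.n2 (2524, 2934) (by decide +kernel)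
                  (CovZ.n2 (2525, 2935) (by decide +kernel)
                   (CovZ.leaf K2_ok TM_l801 _)
                   (CovZ.leaf K2_ok TM_l802 _))
                  (CovZ.leaf K2_ok TM_l343 _))
                 (CovZ.badM (by decide +kernel)))
                (CovZ.n1 (2522, 2934) (by decide +kernel)
                 (CovZ.n2 (2522, 2936) (by decide +kernel)
                  (CovZ.n2 (2523, 2935) (by decide +kernel)
                   (CovZ.leaf K2_ok TM_l803 _)
                   (CovZ.badM (by decide +kernel)))
                  (CovZ.leaf K2_ok TM_l804 _))
                 (CovZ.n1 (2524, 2934) (by decide +kernel)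
                  (CovZ.leaf K2_ok TM_l344 _)
                  (CovZ.leaf K2_ok TM_l805 _)))))
              (CovZ.n1 (2528, 2932) (by decide +kernel)
               (CovZ.n2 (2526, 2930) (by decide +kernel)
                (CovZ.leaf K2_ok TM_l345 _)
                (CovZ.leaf K2_ok TM_l346 _))
               (CovZ.n1 (2526, 2934) (by decide +kernel)
                (CovZ.leaf K2_ok TM_l347 _)
                (CovZ.leaf K2_ok TM_l348 _))))
             (CovZ.badM (by decide +kernel)))
            (CovZ.n1 (2520, 2928) (by decide +kernel)
             (CovZ.n2 (2516, 2932) (by decide +kernel)
              (CovZ.n2 (2520, 2932) (by decide +kernel)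
               (CovZ.n2 (2518, 2930) (by decide +kernel)
                (CovZ.leaf K2_ok TM_l349 _)
                (CovZ.leaf K2_ok TM_l350 _))
               (CovZ.n1 (2518, 2934) (by decide +kernel)
                (CovZ.leaf K2_ok TM_l351 _)
                (CovZ.leaf K2_ok TM_l352 _)))
              (CovZ.n1 (2516, 2928) (by decide +kernel)
               (CovZ.leaf K2_ok TM_l353 _)
               (CovZ.n1 (2518, 2930) (by decide +kernel)
                (CovZ.leaf K2_ok TM_l354 _)
                (CovZ.leaf K2_ok TM_l355 _))))
             (CovZ.n1 (2524, 2932) (by decide +kernel)
              (CovZ.n2 (2524, 2928) (by decide +kernel)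
               (CovZ.leaf K2_ok TM_l356 _)
               (CovZ.n1 (2526, 2930) (by decide +kernel)
                (CovZ.leaf K2_ok TM_l357 _)
                (CovZ.leaf K2_ok TM_l358 _)))
              (CovZ.n1 (2520, 2932) (by decide +kernel)
               (CovZ.n2 (2522, 2934) (by decide +kernel)
                (CovZ.leaf K2_ok TM_l359 _)
                (CovZ.n1 (2520, 2934) (by decide +kernel)
                 (CovZ.leaf K2_ok TM_l360 _)
                 (CovZ.leaf K2_ok TM_l361 _)))
               (CovZ.leaf K2_ok TM_l362 _)))))))

theorem TM_u6 : CovZ TM_M (toL (selN TM_LN 9007199254740991)) [0, 7, 4, 3] (2560, 2944) (2496, 2944) (2496, 2880) :=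
    (CovZ.n2 (2528, 2912) (by decide +kernel)
        (CovZ.n2 (2496, 2912) (by decide +kernel)
         (CovZ.n2 (2512, 2928) (by decide +kernel)
          (CovZ.n2 (2512, 2912) (by decide +kernel)
           (CovZ.n2 (2504, 2920) (by decide +kernel)
            (CovZ.n2 (2512, 2920) (by decide +kernel)
             (CovZ.n2 (2508, 2916) (by decide +kernel)
              (CovZ.leaf K2_ok TM_l208 _)
              (CovZ.leaf K2_ok TM_l209 _))
             (CovZ.n1 (2508, 2924) (by decide +kernel)
              (CovZ.n2 (2512, 2924) (by decide +kernel)
               (CovZ.leaf K2_ok TM_l210 _)
               (CovZ.leaf K2_ok TM_l211 _))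
              (CovZ.leaf K2_ok TM_l212 _)))
            (CovZ.n1 (2504, 2912) (by decide +kernel)
             (CovZ.leaf K2_ok TM_l213 _)
             (CovZ.n1 (2508, 2916) (by decide +kernel)
              (CovZ.leaf K2_ok TM_l214 _)
              (CovZ.leaf K2_ok TM_l215 _))))
           (CovZ.n1 (2520, 2920) (by decide +kernel)
            (CovZ.n2 (2520, 2912) (by decide +kernel)
             (CovZ.leaf K2_ok TM_l216 _)
             (CovZ.n1 (2524, 2916) (by decide +kernel)
              (CovZ.leaf K2_ok TM_l217 _)
              (CovZ.leaf K2_ok TM_l218 _)))
            (CovZ.n1 (2512, 2920) (by decide +kernel)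
             (CovZ.n2 (2516, 2924) (by decide +kernel)
              (CovZ.leaf K2_ok TM_l219 _)
              (CovZ.n1 (2512, 2924) (by decide +kernel)
               (CovZ.leaf K2_ok TM_l220 _)
               (CovZ.leaf K2_ok TM_l221 _)))
             (CovZ.n1 (2516, 2916) (by decide +kernel)
              (CovZ.leaf K2_ok TM_l222 _)
              (CovZ.leaf K2_ok TM_l223 _)))))
          (CovZ.n1 (2496, 2928) (by decide +kernel)
           (CovZ.subM 6794984562245665 (by decide +kernel)
            (CovZ.n2 (2504, 2936) (by decide +kernel)
             (CovZ.n2 (2504, 2928) (by decide +kernel)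
              (CovZ.badM (by decide +kernel))
              (CovZ.n1 (2508, 2932) (by decide +kernel)
               (CovZ.n2 (2508, 2928) (by decide +kernel)
                (CovZ.subM 39582418599937 (by decide +kernel)
                 (CovZ.n2 (2506, 2930) (by decide +kernel)
                  (CovZ.n2 (2508, 2930) (by decide +kernel)
                   (CovZ.n2 (2507, 2929) (by decide +kernel)
                    (CovZ.badM (by decide +kernel))
                    (CovZ.leaf K2_ok TM_l224 _))
                   (CovZ.badM (by decide +kernel)))
                  (CovZ.n1 (2506, 2928) (by decide +kernel)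
                   (CovZ.badM (by decide +kernel))
                   (CovZ.n1 (2507, 2929) (by decide +kernel)
                    (CovZ.leaf K2_ok TM_l225 _)
                    (CovZ.badM (by decide +kernel))))))
                (CovZ.n1 (2510, 2930) (by decide +kernel)
                 (CovZ.leaf K2_ok TM_l226 _)
                 (CovZ.n1 (2508, 2930) (by decide +kernel)
                  (CovZ.n2 (2509, 2931) (by decide +kernel)
                   (CovZ.leaf K2_ok TM_l799 _)
                   (CovZ.badM (by decide +kernel)))
                  (CovZ.leaf K2_ok TM_l227 _))))
               (CovZ.badM (by decide +kernel))))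
             (CovZ.badM (by decide +kernel))))
           (CovZ.n1 (2504, 2920) (by decide +kernel)
            (CovZ.subM 2716453330142919 (by decide +kernel)
             (CovZ.n2 (2496, 2920) (by decide +kernel)
              (CovZ.n2 (2500, 2924) (by decide +kernel)
               (CovZ.n2 (2500, 2920) (by decide +kernel)
                (CovZ.leaf K2_ok TM_l228 _)
                (CovZ.n1 (2502, 2922) (by decide +kernel)
                 (CovZ.leaf K2_ok TM_l229 _)
                 (CovZ.leaf K2_ok TM_l230 _)))
               (CovZ.badM (by decide +kernel)))
              (CovZ.n1 (2500, 2916) (by decide +kernel)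
               (CovZ.n2 (2496, 2916) (by decide +kernel)
                (CovZ.n2 (2498, 2918) (by decide +kernel)
                 (CovZ.leaf K2_ok TM_l231 _)
                 (CovZ.leaf K2_ok TM_l232 _))
                (CovZ.leaf K2_ok TM_l233 _))
               (CovZ.n1 (2500, 2920) (by decide +kernel)
                (CovZ.leaf K2_ok TM_l234 _)
                (CovZ.n1 (2498, 2918) (by decide +kernel)
                 (CovZ.leaf K2_ok TM_l235 _)
                 (CovZ.leaf K2_ok TM_l236 _))))))
            (CovZ.subM 8345901596557991 (by decide +kernel)
             (CovZ.n1 (2504, 2928) (by decide +kernel)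
              (CovZ.n2 (2508, 2924) (by decide +kernel)
               (CovZ.n2 (2504, 2924) (by decide +kernel)
                (CovZ.n2 (2506, 2926) (by decide +kernel)
                 (CovZ.leaf K2_ok TM_l237 _)
                 (CovZ.n1 (2504, 2926) (by decide +kernel)
                  (CovZ.leaf K2_ok TM_l238 _)
                  (CovZ.leaf K2_ok TM_l239 _)))
                (CovZ.leaf K2_ok TM_l240 _))
               (CovZ.n1 (2508, 2928) (by decide +kernel)
                (CovZ.n2 (2510, 2926) (by decide +kernel)
                 (CovZ.n2 (2508, 2926) (by decide +kernel)
                  (CovZ.leaf K2_ok TM_l241 _)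
                  (CovZ.leaf K2_ok TM_l242 _))
                 (CovZ.n1 (2510, 2928) (by decide +kernel)
                  (CovZ.leaf K2_ok TM_l243 _)
                  (CovZ.leaf K2_ok TM_l244 _)))
                (CovZ.n1 (2506, 2926) (by decide +kernel)
                 (CovZ.n2 (2506, 2928) (by decide +kernel)
                  (CovZ.leaf K2_ok TM_l245 _)
                  (CovZ.n1 (2505, 2927) (by decide +kernel)
                   (CovZ.badM (by decide +kernel))
                   (CovZ.leaf K2_ok TM_l246 _)))
                 (CovZ.leaf K2_ok TM_l247 _))))
              (CovZ.n1 (2500, 2924) (by decide +kernel)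
               (CovZ.badM (by decide +kernel))
               (CovZ.n1 (2504, 2924) (by decide +kernel)
                (CovZ.n2 (2502, 2922) (by decide +kernel)
                 (CovZ.leaf K2_ok TM_l248 _)
                 (CovZ.leaf K2_ok TM_l249 _))
                (CovZ.n1 (2502, 2926) (by decide +kernel)
                 (CovZ.n2 (2504, 2926) (by decide +kernel)
                  (CovZ.leaf K2_ok TM_l250 _)
                  (CovZ.badM (by decide +kernel)))
                 (CovZ.leaf K2_ok TM_l251 _)))))))))
         (CovZ.n1 (2512, 2896) (by decide +kernel)
          (CovZ.n2 (2496, 2896) (by decide +kernel)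
           (CovZ.n2 (2504, 2904) (by decide +kernel)
            (CovZ.n2 (2504, 2896) (by decide +kernel)
             (CovZ.leaf K2_ok TM_l252 _)
             (CovZ.leaf K2_ok TM_l253 _))
            (CovZ.n1 (2496, 2904) (by decide +kernel)
             (CovZ.n2 (2500, 2908) (by decide +kernel)
              (CovZ.leaf K2_ok TM_l254 _)
              (CovZ.leaf K2_ok TM_l255 _))
             (CovZ.leaf K2_ok TM_l256 _)))
           (CovZ.subM 2580388826093511 (by decide +kernel)
            (CovZ.n1 (2504, 2888) (by decide +kernel)
             (CovZ.n2 (2496, 2888) (by decide +kernel)
              (CovZ.n2 (2500, 2892) (by decide +kernel)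
               (CovZ.leaf K2_ok TM_l257 _)
               (CovZ.leaf K2_ok TM_l258 _))
              (CovZ.n1 (2500, 2884) (by decide +kernel)
               (CovZ.n2 (2496, 2884) (by decide +kernel)
                (CovZ.leaf K2_ok TM_l259 _)
                (CovZ.leaf K2_ok TM_l260 _))
               (CovZ.leaf K2_ok TM_l261 _)))
             (CovZ.n1 (2504, 2896) (by decide +kernel)
              (CovZ.leaf K2_ok TM_l262 _)
              (CovZ.n1 (2500, 2892) (by decide +kernel)
               (CovZ.leaf K2_ok TM_l263 _)
               (CovZ.leaf K2_ok TM_l264 _))))))
          (CovZ.n1 (2512, 2912) (by decide +kernel)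
           (CovZ.n2 (2520, 2904) (by decide +kernel)
            (CovZ.n2 (2512, 2904) (by decide +kernel)
             (CovZ.leaf K2_ok TM_l265 _)
             (CovZ.leaf K2_ok TM_l266 _))
            (CovZ.n1 (2520, 2912) (by decide +kernel)
             (CovZ.leaf K2_ok TM_l267 _)
             (CovZ.leaf K2_ok TM_l268 _)))
           (CovZ.n1 (2504, 2904) (by decide +kernel)
            (CovZ.n2 (2504, 2912) (by decide +kernel)
             (CovZ.leaf K2_ok TM_l269 _)
             (CovZ.n1 (2500, 2908) (by decide +kernel)
              (CovZ.leaf K2_ok TM_l270 _)
              (CovZ.leaf K2_ok TM_l271 _)))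
            (CovZ.n1 (2512, 2904) (by decide +kernel)
             (CovZ.leaf K2_ok TM_l272 _)
             (CovZ.leaf K2_ok TM_l273 _))))))
        (CovZ.n1 (2528, 2944) (by decide +kernel)
         TM_u4
         TM_u5))

theorem TM_u7 : CovZ TM_M (toL (selN TM_LN 9007199254740991)) [0, 7, 4, 3] (2496, 2944) (2432, 2944) (2496, 2880) :=
    (CovZ.n1 (2464, 2912) (by decide +kernel)
        (CovZ.badM (by decide +kernel))
        (CovZ.n1 (2496, 2912) (by decide +kernel)
         (CovZ.subM 2721134903351175 (by decide +kernel)
          (CovZ.n2 (2480, 2896) (by decide +kernel)
           (CovZ.n2 (2480, 2912) (by decide +kernel)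
            (CovZ.n2 (2488, 2904) (by decide +kernel)
             (CovZ.subM 459632690627714 (by decide +kernel)
              (CovZ.n2 (2480, 2904) (by decide +kernel)
               (CovZ.n2 (2484, 2908) (by decide +kernel)
                (CovZ.leaf K2_ok TM_l363 _)
                (CovZ.subM 140772154310658 (by decide +kernel)
                 (CovZ.n1 (2480, 2908) (by decide +kernel)
                  (CovZ.n2 (2482, 2910) (by decide +kernel)
                   (CovZ.leaf K2_ok TM_l364 _)
                   (CovZ.n1 (2480, 2910) (by decide +kernel)
                    (CovZ.leaf K2_ok TM_l365 _)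
                    (CovZ.leaf K2_ok TM_l366 _)))
                  (CovZ.leaf K2_ok TM_l367 _))))
               (CovZ.n1 (2484, 2900) (by decide +kernel)
                (CovZ.leaf K2_ok TM_l368 _)
                (CovZ.n1 (2484, 2904) (by decide +kernel)
                 (CovZ.leaf K2_ok TM_l369 _)
                 (CovZ.leaf K2_ok TM_l370 _)))))
             (CovZ.n1 (2488, 2912) (by decide +kernel)
              (CovZ.n2 (2492, 2908) (by decide +kernel)
               (CovZ.n2 (2488, 2908) (by decide +kernel)
                (CovZ.leaf K2_ok TM_l371 _)
                (CovZ.leaf K2_ok TM_l372 _))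
               (CovZ.n1 (2492, 2912) (by decide +kernel)
                (CovZ.leaf K2_ok TM_l373 _)
                (CovZ.leaf K2_ok TM_l374 _)))
              (CovZ.subM 459632690627718 (by decide +kernel)
               (CovZ.n1 (2484, 2908) (by decide +kernel)
                (CovZ.subM 140772154311682 (by decide +kernel)
                 (CovZ.n2 (2484, 2912) (by decide +kernel)
                  (CovZ.n2 (2486, 2910) (by decide +kernel)
                   (CovZ.leaf K2_ok TM_l375 _)
                   (CovZ.leaf K2_ok TM_l376 _))
                  (CovZ.n1 (2482, 2910) (by decide +kernel)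
                   (CovZ.leaf K2_ok TM_l377 _)
                   (CovZ.leaf K2_ok TM_l378 _))))
                (CovZ.leaf K2_ok TM_l379 _)))))
            (CovZ.subM 424448318538882 (by decide +kernel)
             (CovZ.n1 (2472, 2904) (by decide +kernel)
              (CovZ.subM 306184194 (by decide +kernel)
               (CovZ.n2 (2472, 2912) (by decide +kernel)
                (CovZ.n2 (2476, 2908) (by decide +kernel)
                 (CovZ.n2 (2472, 2908) (by decide +kernel)
                  (CovZ.n2 (2474, 2910) (by decide +kernel)
                   (CovZ.leaf K2_ok TM_l380 _)
                   (CovZ.badM (by decide +kernel)))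
                  (CovZ.n1 (2474, 2906) (by decide +kernel)
                   (CovZ.n2 (2472, 2906) (by decide +kernel)
                    (CovZ.leaf K2_ok TM_l381 _)
                    (CovZ.leaf K2_ok TM_l382 _))
                   (CovZ.n1 (2474, 2908) (by decide +kernel)
                    (CovZ.leaf K2_ok TM_l383 _)
                    (CovZ.n1 (2473, 2907) (by decide +kernel)
                     (CovZ.badM (by decide +kernel))
                     (CovZ.leaf K2_ok TM_l384 _)))))
                 (CovZ.n1 (2476, 2912) (by decide +kernel)
                  (CovZ.n2 (2478, 2910) (by decide +kernel)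
                   (CovZ.n2 (2476, 2910) (by decide +kernel)
                    (CovZ.badM (by decide +kernel))
                    (CovZ.leaf K2_ok TM_l385 _))
                   (CovZ.badM (by decide +kernel)))
                  (CovZ.n1 (2474, 2910) (by decide +kernel)
                   (CovZ.badM (by decide +kernel))
                   (CovZ.n1 (2476, 2910) (by decide +kernel)
                    (CovZ.leaf K2_ok TM_l386 _)
                    (CovZ.badM (by decide +kernel))))))
                (CovZ.n1 (2468, 2908) (by decide +kernel)
                 (CovZ.badM (by decide +kernel))
                 (CovZ.n1 (2472, 2908) (by decide +kernel)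
                  (CovZ.n2 (2470, 2906) (by decide +kernel)
                   (CovZ.badM (by decide +kernel))
                   (CovZ.leaf K2_ok TM_l387 _))
                  (CovZ.badM (by decide +kernel))))))
              (CovZ.n1 (2480, 2904) (by decide +kernel)
               (CovZ.n2 (2476, 2900) (by decide +kernel)
                (CovZ.n2 (2476, 2904) (by decide +kernel)
                 (CovZ.leaf K2_ok TM_l388 _)
                 (CovZ.n1 (2474, 2902) (by decide +kernel)
                  (CovZ.leaf K2_ok TM_l389 _)
                  (CovZ.leaf K2_ok TM_l390 _)))
                (CovZ.leaf K2_ok TM_l391 _))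
               (CovZ.subM 140772154310658 (by decide +kernel)
                (CovZ.n1 (2476, 2908) (by decide +kernel)
                 (CovZ.n2 (2480, 2908) (by decide +kernel)
                  (CovZ.n2 (2478, 2906) (by decide +kernel)
                   (CovZ.n2 (2478, 2908) (by decide +kernel)
                    (CovZ.leaf K2_ok TM_l392 _)
                    (CovZ.leaf K2_ok TM_l393 _))
                   (CovZ.leaf K2_ok TM_l394 _))
                  (CovZ.leaf K2_ok TM_l395 _))
                 (CovZ.n1 (2476, 2904) (by decide +kernel)
                  (CovZ.n2 (2474, 2906) (by decide +kernel)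
                   (CovZ.leaf K2_ok TM_l396 _)
                   (CovZ.leaf K2_ok TM_l397 _))
                  (CovZ.n1 (2478, 2906) (by decide +kernel)
                   (CovZ.leaf K2_ok TM_l398 _)
                   (CovZ.n1 (2476, 2906) (by decide +kernel)
                    (CovZ.leaf K2_ok TM_l399 _)
                    (CovZ.leaf K2_ok TM_l400 _))))))))))
           (CovZ.n1 (2496, 2896) (by decide +kernel)
            (CovZ.n2 (2488, 2888) (by decide +kernel)
             (CovZ.n2 (2488, 2896) (by decide +kernel)
              (CovZ.leaf K2_ok TM_l401 _)
              (CovZ.leaf K2_ok TM_l402 _))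
             (CovZ.n1 (2496, 2888) (by decide +kernel)
              (CovZ.subM 283983544620418 (by decide +kernel)
               (CovZ.n2 (2492, 2884) (by decide +kernel)
                (CovZ.leaf K2_ok TM_l403 _)
                (CovZ.n1 (2496, 2884) (by decide +kernel)
                 (CovZ.n2 (2494, 2882) (by decide +kernel)
                  (CovZ.leaf K2_ok TM_l404 _)
                  (CovZ.leaf K2_ok TM_l405 _))
                 (CovZ.leaf K2_ok TM_l406 _))))
              (CovZ.leaf K2_ok TM_l407 _)))
            (CovZ.n1 (2488, 2904) (by decide +kernel)
             (CovZ.n2 (2496, 2904) (by decide +kernel)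
              (CovZ.leaf K2_ok TM_l408 _)
              (CovZ.leaf K2_ok TM_l409 _))
             (CovZ.n1 (2488, 2896) (by decide +kernel)
              (CovZ.leaf K2_ok TM_l410 _)
              (CovZ.n1 (2492, 2900) (by decide +kernel)
               (CovZ.leaf K2_ok TM_l411 _)
               (CovZ.leaf K2_ok TM_l412 _)))))))
         (CovZ.subM 3842370416314054 (by decide +kernel)
          (CovZ.n1 (2480, 2928) (by decide +kernel)
           (CovZ.n2 (2496, 2928) (by decide +kernel)
            (CovZ.n2 (2488, 2920) (by decide +kernel)
             (CovZ.badM (by decide +kernel))
             (CovZ.n1 (2496, 2920) (by decide +kernel)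
              (CovZ.n2 (2492, 2916) (by decide +kernel)
               (CovZ.subM 37782528 (by decide +kernel)
                (CovZ.n2 (2492, 2920) (by decide +kernel)
                 (CovZ.n2 (2494, 2918) (by decide +kernel)
                  (CovZ.n2 (2492, 2918) (by decide +kernel)
                   (CovZ.n2 (2493, 2919) (by decide +kernel)
                    (CovZ.leaf K2_ok TM_l413 _)
                    (CovZ.badM (by decide +kernel)))
                   (CovZ.leaf K2_ok TM_l414 _))
                  (CovZ.n1 (2494, 2920) (by decide +kernel)
                   (CovZ.n2 (2495, 2919) (by decide +kernel)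
                    (CovZ.leaf K2_ok TM_l415 _)
                    (CovZ.badM (by decide +kernel)))
                   (CovZ.n1 (2493, 2919) (by decide +kernel)
                    (CovZ.badM (by decide +kernel))
                    (CovZ.leaf K2_ok TM_l416 _))))
                 (CovZ.n1 (2490, 2918) (by decide +kernel)
                  (CovZ.badM (by decide +kernel))
                  (CovZ.n1 (2492, 2918) (by decide +kernel)
                   (CovZ.leaf K2_ok TM_l417 _)
                   (CovZ.badM (by decide +kernel))))))
               (CovZ.n1 (2496, 2916) (by decide +kernel)
                (CovZ.leaf K2_ok TM_l418 _)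
                (CovZ.leaf K2_ok TM_l419 _)))
              (CovZ.badM (by decide +kernel))))
            (CovZ.badM (by decide +kernel)))
           (CovZ.n1 (2480, 2912) (by decide +kernel)
            (CovZ.badM (by decide +kernel))
            (CovZ.n1 (2488, 2920) (by decide +kernel)
             (CovZ.n2 (2488, 2912) (by decide +kernel)
              (CovZ.subM 34665956354 (by decide +kernel)
               (CovZ.n2 (2484, 2916) (by decide +kernel)
                (CovZ.n2 (2488, 2916) (by decide +kernel)
                 (CovZ.n2 (2486, 2914) (by decide +kernel)
                  (CovZ.badM (by decide +kernel))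
                  (CovZ.leaf K2_ok TM_l420 _))
                 (CovZ.badM (by decide +kernel)))
                (CovZ.n1 (2484, 2912) (by decide +kernel)
                 (CovZ.n2 (2482, 2914) (by decide +kernel)
                  (CovZ.n2 (2484, 2914) (by decide +kernel)
                   (CovZ.leaf K2_ok TM_l421 _)
                   (CovZ.badM (by decide +kernel)))
                  (CovZ.leaf K2_ok TM_l422 _))
                 (CovZ.n1 (2486, 2914) (by decide +kernel)
                  (CovZ.leaf K2_ok TM_l423 _)
                  (CovZ.n1 (2484, 2914) (by decide +kernel)
                   (CovZ.badM (by decide +kernel))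
                   (CovZ.leaf K2_ok TM_l424 _))))))
              (CovZ.n1 (2492, 2916) (by decide +kernel)
               (CovZ.n2 (2492, 2912) (by decide +kernel)
                (CovZ.leaf K2_ok TM_l425 _)
                (CovZ.n1 (2494, 2914) (by decide +kernel)
                 (CovZ.leaf K2_ok TM_l426 _)
                 (CovZ.n1 (2492, 2914) (by decide +kernel)
                  (CovZ.leaf K2_ok TM_l427 _)
                  (CovZ.leaf K2_ok TM_l428 _))))
               (CovZ.n1 (2488, 2916) (by decide +kernel)
                (CovZ.n2 (2490, 2918) (by decide +kernel)
                 (CovZ.leaf K2_ok TM_l429 _)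
                 (CovZ.badM (by decide +kernel)))
                (CovZ.leaf K2_ok TM_l430 _))))
             (CovZ.badM (by decide +kernel))))))))

theorem TM_u8 : CovZ TM_M (toL (selN TM_LN 9007199254740991)) [0, 7, 4, 3] (2560, 2944) (2528, 2912) (2560, 2880) :=
    (CovZ.n2 (2560, 2912) (by decide +kernel)
         (CovZ.n2 (2544, 2896) (by decide +kernel)
          (CovZ.n2 (2544, 2912) (by decide +kernel)
           (CovZ.subM 1860313888340349 (by decide +kernel)
            (CovZ.n2 (2552, 2904) (by decide +kernel)
             (CovZ.n2 (2544, 2904) (by decide +kernel)
              (CovZ.n2 (2548, 2908) (by decide +kernel)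
               (CovZ.subM 3779907828088 (by decide +kernel)
                (CovZ.n2 (2548, 2904) (by decide +kernel)
                 (CovZ.leaf K2_ok TM_l431 _)
                 (CovZ.n1 (2550, 2906) (by decide +kernel)
                  (CovZ.n2 (2550, 2904) (by decide +kernel)
                   (CovZ.leaf K2_ok TM_l432 _)
                   (CovZ.leaf K2_ok TM_l433 _))
                  (CovZ.leaf K2_ok TM_l434 _))))
               (CovZ.n1 (2544, 2908) (by decide +kernel)
                (CovZ.leaf K2_ok TM_l435 _)
                (CovZ.leaf K2_ok TM_l436 _)))
              (CovZ.subM 2611407231272 (by decide +kernel)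
               (CovZ.n1 (2548, 2900) (by decide +kernel)
                (CovZ.n2 (2544, 2900) (by decide +kernel)
                 (CovZ.n2 (2546, 2902) (by decide +kernel)
                  (CovZ.badM (by decide +kernel))
                  (CovZ.n1 (2544, 2902) (by decide +kernel)
                   (CovZ.leaf K2_ok TM_l437 _)
                   (CovZ.badM (by decide +kernel))))
                 (CovZ.badM (by decide +kernel)))
                (CovZ.n1 (2548, 2904) (by decide +kernel)
                 (CovZ.badM (by decide +kernel))
                 (CovZ.n1 (2546, 2902) (by decide +kernel)
                  (CovZ.n2 (2546, 2904) (by decide +kernel)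
                   (CovZ.leaf K2_ok TM_l438 _)
                   (CovZ.n1 (2545, 2903) (by decide +kernel)
                    (CovZ.leaf K2_ok TM_l439 _)
                    (CovZ.leaf K2_ok TM_l440 _)))
                  (CovZ.badM (by decide +kernel)))))))
             (CovZ.n1 (2552, 2912) (by decide +kernel)
              (CovZ.subM 2130640910448 (by decide +kernel)
               (CovZ.n2 (2556, 2908) (by decide +kernel)
                (CovZ.n2 (2552, 2908) (by decide +kernel)
                 (CovZ.n2 (2554, 2910) (by decide +kernel)
                  (CovZ.leaf K2_ok TM_l441 _)
                  (CovZ.leaf K2_ok TM_l442 _))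
                 (CovZ.leaf K2_ok TM_l443 _))
                (CovZ.n1 (2556, 2912) (by decide +kernel)
                 (CovZ.leaf K2_ok TM_l444 _)
                 (CovZ.n1 (2554, 2910) (by decide +kernel)
                  (CovZ.leaf K2_ok TM_l445 _)
                  (CovZ.n1 (2556, 2910) (by decide +kernel)
                   (CovZ.leaf K2_ok TM_l446 _)
                   (CovZ.leaf K2_ok TM_l447 _))))))
              (CovZ.n1 (2548, 2908) (by decide +kernel)
               (CovZ.leaf K2_ok TM_l448 _)
               (CovZ.n1 (2552, 2908) (by decide +kernel)
                (CovZ.subM 566729861249400 (by decide +kernel)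
                 (CovZ.n2 (2550, 2906) (by decide +kernel)
                  (CovZ.leaf K2_ok TM_l449 _)
                  (CovZ.n1 (2552, 2906) (by decide +kernel)
                   (CovZ.n2 (2551, 2905) (by decide +kernel)
                    (CovZ.leaf K2_ok TM_l450 _)
                    (CovZ.leaf K2_ok TM_l451 _))
                   (CovZ.leaf K2_ok TM_l452 _))))
                (CovZ.leaf K2_ok TM_l453 _))))))
           (CovZ.n1 (2536, 2904) (by decide +kernel)
            (CovZ.n2 (2536, 2912) (by decide +kernel)
             (CovZ.leaf K2_ok TM_l454 _)
             (CovZ.n1 (2532, 2908) (by decide +kernel)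
              (CovZ.leaf K2_ok TM_l455 _)
              (CovZ.leaf K2_ok TM_l456 _)))
            (CovZ.n1 (2544, 2904) (by decide +kernel)
             (CovZ.subM 1270425893813082 (by decide +kernel)
              (CovZ.n2 (2540, 2900) (by decide +kernel)
               (CovZ.n2 (2540, 2904) (by decide +kernel)
                (CovZ.n2 (2542, 2902) (by decide +kernel)
                 (CovZ.leaf K2_ok TM_l457 _)
                 (CovZ.leaf K2_ok TM_l458 _))
                (CovZ.n1 (2538, 2902) (by decide +kernel)
                 (CovZ.leaf K2_ok TM_l459 _)
                 (CovZ.leaf K2_ok TM_l460 _)))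
               (CovZ.subM 2611407231240 (by decide +kernel)
                (CovZ.n1 (2544, 2900) (by decide +kernel)
                 (CovZ.badM (by decide +kernel))
                 (CovZ.n1 (2542, 2902) (by decide +kernel)
                  (CovZ.n2 (2544, 2902) (by decide +kernel)
                   (CovZ.leaf K2_ok TM_l461 _)
                   (CovZ.leaf K2_ok TM_l462 _))
                  (CovZ.leaf K2_ok TM_l463 _))))))
             (CovZ.n1 (2540, 2908) (by decide +kernel)
              (CovZ.n2 (2544, 2908) (by decide +kernel)
               (CovZ.leaf K2_ok TM_l464 _)
               (CovZ.leaf K2_ok TM_l465 _))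
              (CovZ.n1 (2540, 2904) (by decide +kernel)
               (CovZ.leaf K2_ok TM_l466 _)
               (CovZ.leaf K2_ok TM_l467 _))))))
          (CovZ.subM 583153546694952 (by decide +kernel)
           (CovZ.n1 (2560, 2896) (by decide +kernel)
            (CovZ.badM (by decide +kernel))
            (CovZ.n1 (2552, 2904) (by decide +kernel)
             (CovZ.subM 137438957600 (by decide +kernel)
              (CovZ.n2 (2560, 2904) (by decide +kernel)
               (CovZ.badM (by decide +kernel))
               (CovZ.n1 (2556, 2908) (by decide +kernel)
                (CovZ.n2 (2560, 2908) (by decide +kernel)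
                 (CovZ.badM (by decide +kernel))
                 (CovZ.n1 (2558, 2910) (by decide +kernel)
                  (CovZ.n2 (2560, 2910) (by decide +kernel)
                   (CovZ.badM (by decide +kernel))
                   (CovZ.leaf K2_ok TM_l468 _))
                  (CovZ.badM (by decide +kernel))))
                (CovZ.badM (by decide +kernel)))))
             (CovZ.badM (by decide +kernel))))))
         (CovZ.n1 (2544, 2928) (by decide +kernel)
          (CovZ.n2 (2560, 2928) (by decide +kernel)
           (CovZ.n2 (2552, 2920) (by decide +kernel)
            (CovZ.n2 (2552, 2928) (by decide +kernel)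
             (CovZ.leaf K2_ok TM_l469 _)
             (CovZ.n1 (2548, 2924) (by decide +kernel)
              (CovZ.leaf K2_ok TM_l470 _)
              (CovZ.leaf K2_ok TM_l471 _)))
            (CovZ.subM 10953042966645 (by decide +kernel)
             (CovZ.n1 (2560, 2920) (by decide +kernel)
              (CovZ.n2 (2556, 2916) (by decide +kernel)
               (CovZ.leaf K2_ok TM_l472 _)
               (CovZ.n1 (2560, 2916) (by decide +kernel)
                (CovZ.leaf K2_ok TM_l473 _)
                (CovZ.leaf K2_ok TM_l474 _)))
              (CovZ.leaf K2_ok TM_l475 _))))
           (CovZ.subM 7417255985768797 (by decide +kernel)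
            (CovZ.n1 (2552, 2936) (by decide +kernel)
             (CovZ.n2 (2560, 2936) (by decide +kernel)
              (CovZ.n2 (2556, 2932) (by decide +kernel)
               (CovZ.n2 (2556, 2936) (by decide +kernel)
                (CovZ.leaf K2_ok TM_l476 _)
                (CovZ.leaf K2_ok TM_l477 _))
               (CovZ.leaf K2_ok TM_l478 _))
              (CovZ.subM 6757325669664833 (by decide +kernel)
               (CovZ.n1 (2556, 2940) (by decide +kernel)
                (CovZ.n2 (2560, 2940) (by decide +kernel)
                 (CovZ.n2 (2558, 2938) (by decide +kernel)
                  (CovZ.leaf K2_ok TM_l479 _)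
                  (CovZ.leaf K2_ok TM_l480 _))
                 (CovZ.leaf K2_ok TM_l481 _))
                (CovZ.leaf K2_ok TM_l482 _))))
             (CovZ.n1 (2552, 2928) (by decide +kernel)
              (CovZ.n2 (2548, 2932) (by decide +kernel)
               (CovZ.leaf K2_ok TM_l483 _)
               (CovZ.leaf K2_ok TM_l484 _))
              (CovZ.n1 (2556, 2932) (by decide +kernel)
               (CovZ.leaf K2_ok TM_l485 _)
               (CovZ.n1 (2552, 2932) (by decide +kernel)
                (CovZ.leaf K2_ok TM_l486 _)
                (CovZ.leaf K2_ok TM_l487 _)))))))
          (CovZ.n1 (2544, 2912) (by decide +kernel)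
           (CovZ.n2 (2536, 2920) (by decide +kernel)
            (CovZ.n2 (2544, 2920) (by decide +kernel)
             (CovZ.n2 (2540, 2916) (by decide +kernel)
              (CovZ.leaf K2_ok TM_l488 _)
              (CovZ.leaf K2_ok TM_l489 _))
             (CovZ.leaf K2_ok TM_l490 _))
            (CovZ.n1 (2536, 2912) (by decide +kernel)
             (CovZ.leaf K2_ok TM_l491 _)
             (CovZ.leaf K2_ok TM_l492 _)))
           (CovZ.n1 (2552, 2920) (by decide +kernel)
            (CovZ.n2 (2552, 2912) (by decide +kernel)
             (CovZ.leaf K2_ok TM_l493 _)
             (CovZ.subM 10953047160949 (by decide +kernel)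
              (CovZ.n1 (2556, 2916) (by decide +kernel)
               (CovZ.n2 (2556, 2912) (by decide +kernel)
                (CovZ.leaf K2_ok TM_l494 _)
                (CovZ.n1 (2558, 2914) (by decide +kernel)
                 (CovZ.leaf K2_ok TM_l495 _)
                 (CovZ.leaf K2_ok TM_l496 _)))
               (CovZ.n1 (2552, 2916) (by decide +kernel)
                (CovZ.leaf K2_ok TM_l497 _)
                (CovZ.leaf K2_ok TM_l498 _)))))
            (CovZ.n1 (2544, 2920) (by decide +kernel)
             (CovZ.n2 (2548, 2924) (by decide +kernel)
              (CovZ.leaf K2_ok TM_l499 _)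
              (CovZ.leaf K2_ok TM_l500 _))
             (CovZ.leaf K2_ok TM_l501 _))))))

theorem TM_u9 : CovZ TM_M (toL (selN TM_LN 9007199254740991)) [0, 7, 4, 3] (2528, 2912) (2496, 2880) (2560, 2880) :=
    (CovZ.n1 (2528, 2880) (by decide +kernel)
         (CovZ.n2 (2512, 2896) (by decide +kernel)
          (CovZ.n2 (2528, 2896) (by decide +kernel)
           (CovZ.subM 2681014658724318 (by decide +kernel)
            (CovZ.n2 (2520, 2888) (by decide +kernel)
             (CovZ.n2 (2520, 2896) (by decide +kernel)
              (CovZ.n2 (2524, 2892) (by decide +kernel)
               (CovZ.n2 (2520, 2892) (by decide +kernel)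
                (CovZ.leaf K2_ok TM_l502 _)
                (CovZ.leaf K2_ok TM_l503 _))
               (CovZ.n1 (2524, 2896) (by decide +kernel)
                (CovZ.n2 (2526, 2894) (by decide +kernel)
                 (CovZ.leaf K2_ok TM_l504 _)
                 (CovZ.leaf K2_ok TM_l505 _))
                (CovZ.n1 (2522, 2894) (by decide +kernel)
                 (CovZ.leaf K2_ok TM_l506 _)
                 (CovZ.leaf K2_ok TM_l507 _))))
              (CovZ.n1 (2516, 2892) (by decide +kernel)
               (CovZ.leaf K2_ok TM_l508 _)
               (CovZ.n1 (2520, 2892) (by decide +kernel)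
                (CovZ.n2 (2518, 2890) (by decide +kernel)
                 (CovZ.leaf K2_ok TM_l509 _)
                 (CovZ.leaf K2_ok TM_l510 _))
                (CovZ.leaf K2_ok TM_l511 _))))
             (CovZ.subM 283742755020930 (by decide +kernel)
              (CovZ.n1 (2528, 2888) (by decide +kernel)
               (CovZ.subM 281475010396160 (by decide +kernel)
                (CovZ.n2 (2524, 2884) (by decide +kernel)
                 (CovZ.n2 (2524, 2888) (by decide +kernel)
                  (CovZ.badM (by decide +kernel))
                  (CovZ.n1 (2522, 2886) (by decide +kernel)
                   (CovZ.leaf K2_ok TM_l512 _)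
                   (CovZ.badM (by decide +kernel))))
                 (CovZ.badM (by decide +kernel))))
               (CovZ.n1 (2524, 2892) (by decide +kernel)
                (CovZ.n2 (2528, 2892) (by decide +kernel)
                 (CovZ.n2 (2526, 2890) (by decide +kernel)
                  (CovZ.leaf K2_ok TM_l513 _)
                  (CovZ.badM (by decide +kernel)))
                 (CovZ.n1 (2526, 2894) (by decide +kernel)
                  (CovZ.leaf K2_ok TM_l514 _)
                  (CovZ.leaf K2_ok TM_l515 _)))
                (CovZ.n1 (2524, 2888) (by decide +kernel)
                 (CovZ.leaf K2_ok TM_l516 _)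
                 (CovZ.n1 (2526, 2890) (by decide +kernel)
                  (CovZ.badM (by decide +kernel))
                  (CovZ.leaf K2_ok TM_l517 _))))))))
           (CovZ.n1 (2520, 2904) (by decide +kernel)
            (CovZ.n2 (2528, 2904) (by decide +kernel)
             (CovZ.n2 (2524, 2900) (by decide +kernel)
              (CovZ.leaf K2_ok TM_l518 _)
              (CovZ.leaf K2_ok TM_l519 _))
             (CovZ.leaf K2_ok TM_l520 _))
            (CovZ.n1 (2520, 2896) (by decide +kernel)
             (CovZ.leaf K2_ok TM_l521 _)
             (CovZ.n1 (2524, 2900) (by decide +kernel)
              (CovZ.leaf K2_ok TM_l522 _)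
              (CovZ.leaf K2_ok TM_l523 _)))))
          (CovZ.subM 2535857514648030 (by decide +kernel)
           (CovZ.n1 (2512, 2880) (by decide +kernel)
            (CovZ.n2 (2504, 2888) (by decide +kernel)
             (CovZ.n2 (2512, 2888) (by decide +kernel)
              (CovZ.n2 (2508, 2884) (by decide +kernel)
               (CovZ.n2 (2508, 2888) (by decide +kernel)
                (CovZ.n2 (2510, 2886) (by decide +kernel)
                 (CovZ.leaf K2_ok TM_l524 _)
                 (CovZ.leaf K2_ok TM_l525 _))
                (CovZ.n1 (2506, 2886) (by decide +kernel)
                 (CovZ.leaf K2_ok TM_l526 _)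
                 (CovZ.leaf K2_ok TM_l527 _)))
               (CovZ.subM 281543735771264 (by decide +kernel)
                (CovZ.n1 (2512, 2884) (by decide +kernel)
                 (CovZ.badM (by decide +kernel))
                 (CovZ.n1 (2510, 2886) (by decide +kernel)
                  (CovZ.leaf K2_ok TM_l528 _)
                  (CovZ.n1 (2510, 2884) (by decide +kernel)
                   (CovZ.leaf K2_ok TM_l529 _)
                   (CovZ.leaf K2_ok TM_l530 _))))))
              (CovZ.n1 (2508, 2892) (by decide +kernel)
               (CovZ.n2 (2512, 2892) (by decide +kernel)
                (CovZ.leaf K2_ok TM_l531 _)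
                (CovZ.leaf K2_ok TM_l532 _))
               (CovZ.leaf K2_ok TM_l533 _)))
             (CovZ.n1 (2504, 2880) (by decide +kernel)
              (CovZ.subM 284017905406082 (by decide +kernel)
               (CovZ.n2 (2500, 2884) (by decide +kernel)
                (CovZ.n2 (2504, 2884) (by decide +kernel)
                 (CovZ.subM 2199292739584 (by decide +kernel)
                  (CovZ.n2 (2502, 2882) (by decide +kernel)
                   (CovZ.leaf K2_ok TM_l534 _)
                   (CovZ.n1 (2504, 2882) (by decide +kernel)
                    (CovZ.n2 (2503, 2881) (by decide +kernel)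
                     (CovZ.leaf K2_ok TM_l535 _)
                     (CovZ.badM (by decide +kernel)))
                    (CovZ.leaf K2_ok TM_l536 _))))
                 (CovZ.leaf K2_ok TM_l537 _))
                (CovZ.subM 2199292739584 (by decide +kernel)
                 (CovZ.n1 (2500, 2880) (by decide +kernel)
                  (CovZ.n2 (2498, 2882) (by decide +kernel)
                   (CovZ.n2 (2500, 2882) (by decide +kernel)
                    (CovZ.badM (by decide +kernel))
                    (CovZ.leaf K2_ok TM_l538 _))
                   (CovZ.badM (by decide +kernel)))
                  (CovZ.n1 (2502, 2882) (by decide +kernel)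
                   (CovZ.n2 (2502, 2880) (by decide +kernel)
                    (CovZ.badM (by decide +kernel))
                    (CovZ.n1 (2503, 2881) (by decide +kernel)
                     (CovZ.badM (by decide +kernel))
                     (CovZ.badM (by decide +kernel))))
                   (CovZ.n1 (2500, 2882) (by decide +kernel)
                    (CovZ.leaf K2_ok TM_l539 _)
                    (CovZ.badM (by decide +kernel))))))))
              (CovZ.n1 (2508, 2884) (by decide +kernel)
               (CovZ.badM (by decide +kernel))
               (CovZ.n1 (2504, 2884) (by decide +kernel)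
                (CovZ.n2 (2506, 2886) (by decide +kernel)
                 (CovZ.leaf K2_ok TM_l540 _)
                 (CovZ.leaf K2_ok TM_l541 _))
                (CovZ.n1 (2506, 2882) (by decide +kernel)
                 (CovZ.n2 (2504, 2882) (by decide +kernel)
                  (CovZ.leaf K2_ok TM_l542 _)
                  (CovZ.badM (by decide +kernel)))
                 (CovZ.leaf K2_ok TM_l543 _))))))
            (CovZ.n1 (2520, 2888) (by decide +kernel)
             (CovZ.subM 281475010265088 (by decide +kernel)
              (CovZ.n2 (2520, 2880) (by decide +kernel)
               (CovZ.n2 (2516, 2884) (by decide +kernel)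
                (CovZ.n2 (2520, 2884) (by decide +kernel)
                 (CovZ.badM (by decide +kernel))
                 (CovZ.n1 (2518, 2886) (by decide +kernel)
                  (CovZ.n2 (2520, 2886) (by decide +kernel)
                   (CovZ.badM (by decide +kernel))
                   (CovZ.leaf K2_ok TM_l544 _))
                  (CovZ.badM (by decide +kernel))))
                (CovZ.badM (by decide +kernel)))
               (CovZ.n1 (2524, 2884) (by decide +kernel)
                (CovZ.badM (by decide +kernel))
                (CovZ.n1 (2520, 2884) (by decide +kernel)
                 (CovZ.n2 (2522, 2886) (by decide +kernel)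
                  (CovZ.badM (by decide +kernel))
                  (CovZ.n1 (2520, 2886) (by decide +kernel)
                   (CovZ.leaf K2_ok TM_l545 _)
                   (CovZ.badM (by decide +kernel))))
                 (CovZ.badM (by decide +kernel))))))
             (CovZ.n1 (2512, 2888) (by decide +kernel)
              (CovZ.n2 (2516, 2892) (by decide +kernel)
               (CovZ.n2 (2516, 2888) (by decide +kernel)
                (CovZ.leaf K2_ok TM_l546 _)
                (CovZ.n1 (2518, 2890) (by decide +kernel)
                 (CovZ.leaf K2_ok TM_l547 _)
                 (CovZ.leaf K2_ok TM_l548 _)))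
               (CovZ.n1 (2512, 2892) (by decide +kernel)
                (CovZ.leaf K2_ok TM_l549 _)
                (CovZ.leaf K2_ok TM_l550 _)))
              (CovZ.subM 281543735771264 (by decide +kernel)
               (CovZ.n1 (2516, 2884) (by decide +kernel)
                (CovZ.n2 (2512, 2884) (by decide +kernel)
                 (CovZ.n2 (2514, 2886) (by decide +kernel)
                  (CovZ.badM (by decide +kernel))
                  (CovZ.leaf K2_ok TM_l551 _))
                 (CovZ.badM (by decide +kernel)))
                (CovZ.n1 (2516, 2888) (by decide +kernel)
                 (CovZ.n2 (2518, 2886) (by decide +kernel)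
                  (CovZ.n2 (2516, 2886) (by decide +kernel)
                   (CovZ.n2 (2517, 2887) (by decide +kernel)
                    (CovZ.badM (by decide +kernel))
                    (CovZ.leaf K2_ok TM_l552 _))
                   (CovZ.badM (by decide +kernel)))
                  (CovZ.n1 (2518, 2888) (by decide +kernel)
                   (CovZ.leaf K2_ok TM_l553 _)
                   (CovZ.n1 (2517, 2887) (by decide +kernel)
                    (CovZ.leaf K2_ok TM_l554 _)
                    (CovZ.leaf K2_ok TM_l555 _))))
                 (CovZ.n1 (2514, 2886) (by decide +kernel)
                  (CovZ.leaf K2_ok TM_l556 _)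
                  (CovZ.n1 (2516, 2886) (by decide +kernel)
                   (CovZ.badM (by decide +kernel))
                   (CovZ.leaf K2_ok TM_l557 _)))))))))))
         (CovZ.n1 (2544, 2896) (by decide +kernel)
          (CovZ.badM (by decide +kernel))
          (CovZ.n1 (2528, 2896) (by decide +kernel)
           (CovZ.n2 (2536, 2904) (by decide +kernel)
            (CovZ.subM 460120183913306 (by decide +kernel)
             (CovZ.n2 (2536, 2896) (by decide +kernel)
              (CovZ.n2 (2532, 2900) (by decide +kernel)
               (CovZ.n2 (2536, 2900) (by decide +kernel)
                (CovZ.n2 (2534, 2898) (by decide +kernel)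
                 (CovZ.leaf K2_ok TM_l558 _)
                 (CovZ.n1 (2536, 2898) (by decide +kernel)
                  (CovZ.leaf K2_ok TM_l559 _)
                  (CovZ.leaf K2_ok TM_l560 _)))
                (CovZ.leaf K2_ok TM_l561 _))
               (CovZ.n1 (2532, 2896) (by decide +kernel)
                (CovZ.leaf K2_ok TM_l562 _)
                (CovZ.n1 (2534, 2898) (by decide +kernel)
                 (CovZ.leaf K2_ok TM_l563 _)
                 (CovZ.leaf K2_ok TM_l564 _))))
              (CovZ.n1 (2540, 2900) (by decide +kernel)
               (CovZ.badM (by decide +kernel))
               (CovZ.n1 (2536, 2900) (by decide +kernel)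
                (CovZ.n2 (2538, 2902) (by decide +kernel)
                 (CovZ.leaf K2_ok TM_l565 _)
                 (CovZ.leaf K2_ok TM_l566 _))
                (CovZ.n1 (2538, 2898) (by decide +kernel)
                 (CovZ.n2 (2536, 2898) (by decide +kernel)
                  (CovZ.leaf K2_ok TM_l567 _)
                  (CovZ.leaf K2_ok TM_l568 _))
                 (CovZ.leaf K2_ok TM_l569 _))))))
            (CovZ.n1 (2528, 2904) (by decide +kernel)
             (CovZ.n2 (2532, 2908) (by decide +kernel)
              (CovZ.leaf K2_ok TM_l570 _)
              (CovZ.leaf K2_ok TM_l571 _))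
             (CovZ.n1 (2532, 2900) (by decide +kernel)
              (CovZ.n2 (2528, 2900) (by decide +kernel)
               (CovZ.leaf K2_ok TM_l572 _)
               (CovZ.leaf K2_ok TM_l573 _))
              (CovZ.leaf K2_ok TM_l574 _))))
           (CovZ.subM 283880160272386 (by decide +kernel)
            (CovZ.n1 (2536, 2888) (by decide +kernel)
             (CovZ.n2 (2528, 2888) (by decide +kernel)
              (CovZ.n2 (2532, 2892) (by decide +kernel)
               (CovZ.badM (by decide +kernel))
               (CovZ.n1 (2528, 2892) (by decide +kernel)
                (CovZ.n2 (2530, 2894) (by decide +kernel)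
                 (CovZ.badM (by decide +kernel))
                 (CovZ.n1 (2528, 2894) (by decide +kernel)
                  (CovZ.leaf K2_ok TM_l575 _)
                  (CovZ.leaf K2_ok TM_l576 _)))
                (CovZ.badM (by decide +kernel))))
              (CovZ.badM (by decide +kernel)))
             (CovZ.n1 (2536, 2896) (by decide +kernel)
              (CovZ.badM (by decide +kernel))
              (CovZ.n1 (2532, 2892) (by decide +kernel)
               (CovZ.n2 (2532, 2896) (by decide +kernel)
                (CovZ.n2 (2534, 2894) (by decide +kernel)
                 (CovZ.n2 (2532, 2894) (by decide +kernel)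
                  (CovZ.leaf K2_ok TM_l577 _)
                  (CovZ.badM (by decide +kernel)))
                 (CovZ.leaf K2_ok TM_l578 _))
                (CovZ.n1 (2530, 2894) (by decide +kernel)
                 (CovZ.leaf K2_ok TM_l579 _)
                 (CovZ.n1 (2532, 2894) (by decide +kernel)
                  (CovZ.badM (by decide +kernel))
                  (CovZ.leaf K2_ok TM_l580 _))))
               (CovZ.badM (by decide +kernel)))))))))

theorem TM_u10 : CovZ TM_M (toL (selN TM_LN 8420060045508341)) [0, 7, 4, 3] (2560, 2816) (2624, 2880) (2560, 2944) :=
    (CovZ.n2 (2560, 2880) (by decide +kernel)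
       (CovZ.n2 (2592, 2912) (by decide +kernel)
        (CovZ.badM (by decide +kernel))
        (CovZ.n1 (2560, 2912) (by decide +kernel)
         (CovZ.n2 (2576, 2928) (by decide +kernel)
          (CovZ.subM 9002523043957 (by decide +kernel)
           (CovZ.n2 (2576, 2912) (by decide +kernel)
            (CovZ.n2 (2568, 2920) (by decide +kernel)
             (CovZ.n2 (2576, 2920) (by decide +kernel)
              (CovZ.n2 (2572, 2916) (by decide +kernel)
               (CovZ.n2 (2572, 2920) (by decide +kernel)
                (CovZ.leaf K2_ok TM_l649 _)
                (CovZ.n1 (2570, 2918) (by decide +kernel)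
                 (CovZ.leaf K2_ok TM_l650 _)
                 (CovZ.leaf K2_ok TM_l651 _)))
               (CovZ.n1 (2576, 2916) (by decide +kernel)
                (CovZ.badM (by decide +kernel))
                (CovZ.n1 (2574, 2918) (by decide +kernel)
                 (CovZ.badM (by decide +kernel))
                 (CovZ.leaf K2_ok TM_l652 _))))
              (CovZ.n1 (2572, 2924) (by decide +kernel)
               (CovZ.n2 (2576, 2924) (by decide +kernel)
                (CovZ.n2 (2574, 2922) (by decide +kernel)
                 (CovZ.leaf K2_ok TM_l653 _)
                 (CovZ.leaf K2_ok TM_l654 _))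
                (CovZ.leaf K2_ok TM_l655 _))
               (CovZ.n1 (2572, 2920) (by decide +kernel)
                (CovZ.leaf K2_ok TM_l656 _)
                (CovZ.n1 (2574, 2922) (by decide +kernel)
                 (CovZ.leaf K2_ok TM_l657 _)
                 (CovZ.leaf K2_ok TM_l658 _)))))
             (CovZ.n1 (2568, 2912) (by decide +kernel)
              (CovZ.n2 (2564, 2916) (by decide +kernel)
               (CovZ.n2 (2568, 2916) (by decide +kernel)
                (CovZ.n2 (2566, 2914) (by decide +kernel)
                 (CovZ.leaf K2_ok TM_l659 _)
                 (CovZ.badM (by decide +kernel)))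
                (CovZ.leaf K2_ok TM_l660 _))
               (CovZ.subM 137710534768 (by decide +kernel)
                (CovZ.n1 (2564, 2912) (by decide +kernel)
                 (CovZ.n2 (2562, 2914) (by decide +kernel)
                  (CovZ.leaf K2_ok TM_l661 _)
                  (CovZ.leaf K2_ok TM_l662 _))
                 (CovZ.n1 (2566, 2914) (by decide +kernel)
                  (CovZ.badM (by decide +kernel))
                  (CovZ.n1 (2564, 2914) (by decide +kernel)
                   (CovZ.leaf K2_ok TM_l663 _)
                   (CovZ.leaf K2_ok TM_l664 _))))))
              (CovZ.n1 (2572, 2916) (by decide +kernel)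
               (CovZ.badM (by decide +kernel))
               (CovZ.n1 (2568, 2916) (by decide +kernel)
                (CovZ.n2 (2570, 2918) (by decide +kernel)
                 (CovZ.n2 (2570, 2916) (by decide +kernel)
                  (CovZ.leaf K2_ok TM_l665 _)
                  (CovZ.n1 (2571, 2917) (by decide +kernel)
                   (CovZ.badM (by decide +kernel))
                   (CovZ.leaf K2_ok TM_l666 _)))
                 (CovZ.leaf K2_ok TM_l667 _))
                (CovZ.badM (by decide +kernel))))))
            (CovZ.n1 (2584, 2920) (by decide +kernel)
             (CovZ.badM (by decide +kernel))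
             (CovZ.n1 (2576, 2920) (by decide +kernel)
              (CovZ.n2 (2580, 2924) (by decide +kernel)
               (CovZ.n2 (2580, 2920) (by decide +kernel)
                (CovZ.leaf K2_ok TM_l668 _)
                (CovZ.n1 (2582, 2922) (by decide +kernel)
                 (CovZ.badM (by decide +kernel))
                 (CovZ.leaf K2_ok TM_l669 _)))
               (CovZ.n1 (2576, 2924) (by decide +kernel)
                (CovZ.leaf K2_ok TM_l670 _)
                (CovZ.n1 (2578, 2922) (by decide +kernel)
                 (CovZ.n2 (2576, 2922) (by decide +kernel)
                  (CovZ.leaf K2_ok TM_l671 _)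
                  (CovZ.leaf K2_ok TM_l672 _))
                 (CovZ.leaf K2_ok TM_l673 _))))
              (CovZ.badM (by decide +kernel))))))
          (CovZ.n1 (2560, 2928) (by decide +kernel)
           (CovZ.subM 6766327922247765 (by decide +kernel)
            (CovZ.n2 (2568, 2936) (by decide +kernel)
             (CovZ.n2 (2568, 2928) (by decide +kernel)
              (CovZ.leaf K2_ok TM_l674 _)
              (CovZ.n1 (2572, 2932) (by decide +kernel)
               (CovZ.leaf K2_ok TM_l675 _)
               (CovZ.leaf K2_ok TM_l676 _)))
             (CovZ.n1 (2560, 2936) (by decide +kernel)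
              (CovZ.n2 (2564, 2940) (by decide +kernel)
               (CovZ.leaf K2_ok TM_l677 _)
               (CovZ.n1 (2560, 2940) (by decide +kernel)
                (CovZ.n2 (2562, 2942) (by decide +kernel)
                 (CovZ.leaf K2_ok TM_l678 _)
                 (CovZ.leaf K2_ok TM_l679 _))
                (CovZ.leaf K2_ok TM_l680 _)))
              (CovZ.n1 (2564, 2932) (by decide +kernel)
               (CovZ.leaf K2_ok TM_l681 _)
               (CovZ.leaf K2_ok TM_l682 _)))))
           (CovZ.subM 10678097946741 (by decide +kernel)
            (CovZ.n1 (2568, 2920) (by decide +kernel)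
             (CovZ.n2 (2560, 2920) (by decide +kernel)
              (CovZ.n2 (2564, 2924) (by decide +kernel)
               (CovZ.leaf K2_ok TM_l683 _)
               (CovZ.leaf K2_ok TM_l684 _))
              (CovZ.n1 (2564, 2916) (by decide +kernel)
               (CovZ.n2 (2560, 2916) (by decide +kernel)
                (CovZ.leaf K2_ok TM_l685 _)
                (CovZ.n1 (2562, 2914) (by decide +kernel)
                 (CovZ.n2 (2560, 2914) (by decide +kernel)
                  (CovZ.leaf K2_ok TM_l686 _)
                  (CovZ.leaf K2_ok TM_l687 _))
                 (CovZ.leaf K2_ok TM_l688 _)))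
               (CovZ.leaf K2_ok TM_l689 _)))
             (CovZ.n1 (2568, 2928) (by decide +kernel)
              (CovZ.leaf K2_ok TM_l690 _)
              (CovZ.n1 (2564, 2924) (by decide +kernel)
               (CovZ.leaf K2_ok TM_l691 _)
               (CovZ.leaf K2_ok TM_l692 _)))))))
         (CovZ.subM 137438953504 (by decide +kernel)
          (CovZ.n1 (2576, 2896) (by decide +kernel)
           (CovZ.n2 (2560, 2896) (by decide +kernel)
            (CovZ.n2 (2568, 2904) (by decide +kernel)
             (CovZ.badM (by decide +kernel))
             (CovZ.n1 (2560, 2904) (by decide +kernel)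
              (CovZ.n2 (2564, 2908) (by decide +kernel)
               (CovZ.badM (by decide +kernel))
               (CovZ.n1 (2560, 2908) (by decide +kernel)
                (CovZ.n2 (2562, 2910) (by decide +kernel)
                 (CovZ.badM (by decide +kernel))
                 (CovZ.n1 (2560, 2910) (by decide +kernel)
                  (CovZ.n2 (2561, 2911) (by decide +kernel)
                   (CovZ.badM (by decide +kernel))
                   (CovZ.leaf K2_ok TM_l693 _))
                  (CovZ.badM (by decide +kernel))))
                (CovZ.badM (by decide +kernel))))
              (CovZ.badM (by decide +kernel))))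
            (CovZ.badM (by decide +kernel)))
           (CovZ.n1 (2576, 2912) (by decide +kernel)
            (CovZ.badM (by decide +kernel))
            (CovZ.n1 (2568, 2904) (by decide +kernel)
             (CovZ.n2 (2568, 2912) (by decide +kernel)
              (CovZ.badM (by decide +kernel))
              (CovZ.n1 (2564, 2908) (by decide +kernel)
               (CovZ.n2 (2564, 2912) (by decide +kernel)
                (CovZ.badM (by decide +kernel))
                (CovZ.n1 (2562, 2910) (by decide +kernel)
                 (CovZ.n2 (2562, 2912) (by decide +kernel)
                  (CovZ.badM (by decide +kernel))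
                  (CovZ.n1 (2561, 2911) (by decide +kernel)
                   (CovZ.leaf K2_ok TM_l694 _)
                   (CovZ.badM (by decide +kernel))))
                 (CovZ.badM (by decide +kernel))))
               (CovZ.badM (by decide +kernel))))
             (CovZ.badM (by decide +kernel))))))))
       (CovZ.badM (by decide +kernel)))

theorem TM_u11 : CovZ TM_M (toL (selN TM_LN 8420060045508341)) [0, 7, 4, 3] (2624, 2880) (2688, 2944) (2560, 2944) :=
    (CovZ.n1 (2624, 2944) (by decide +kernel)
       (CovZ.badM (by decide +kernel))
       (CovZ.n1 (2592, 2912) (by decide +kernel)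
        (CovZ.n2 (2592, 2944) (by decide +kernel)
         (CovZ.subM 206160013428 (by decide +kernel)
          (CovZ.n2 (2608, 2928) (by decide +kernel)
           (CovZ.n2 (2592, 2928) (by decide +kernel)
            (CovZ.n2 (2600, 2936) (by decide +kernel)
             (CovZ.subM 137440002112 (by decide +kernel)
              (CovZ.n2 (2600, 2928) (by decide +kernel)
               (CovZ.n2 (2596, 2932) (by decide +kernel)
                (CovZ.n2 (2600, 2932) (by decide +kernel)
                 (CovZ.n2 (2598, 2930) (by decide +kernel)
                  (CovZ.leaf K2_ok TM_l695 _)
                  (CovZ.badM (by decide +kernel)))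
                 (CovZ.leaf K2_ok TM_l696 _))
                (CovZ.n1 (2596, 2928) (by decide +kernel)
                 (CovZ.n2 (2594, 2930) (by decide +kernel)
                  (CovZ.leaf K2_ok TM_l697 _)
                  (CovZ.leaf K2_ok TM_l698 _))
                 (CovZ.n1 (2598, 2930) (by decide +kernel)
                  (CovZ.badM (by decide +kernel))
                  (CovZ.leaf K2_ok TM_l699 _))))
               (CovZ.n1 (2604, 2932) (by decide +kernel)
                (CovZ.badM (by decide +kernel))
                (CovZ.n1 (2600, 2932) (by decide +kernel)
                 (CovZ.n2 (2602, 2934) (by decide +kernel)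
                  (CovZ.leaf K2_ok TM_l700 _)
                  (CovZ.leaf K2_ok TM_l701 _))
                 (CovZ.badM (by decide +kernel))))))
             (CovZ.n1 (2592, 2936) (by decide +kernel)
              (CovZ.n2 (2596, 2940) (by decide +kernel)
               (CovZ.leaf K2_ok TM_l702 _)
               (CovZ.leaf K2_ok TM_l703 _))
              (CovZ.subM 206159480900 (by decide +kernel)
               (CovZ.n1 (2596, 2932) (by decide +kernel)
                (CovZ.n2 (2592, 2932) (by decide +kernel)
                 (CovZ.leaf K2_ok TM_l704 _)
                 (CovZ.n1 (2594, 2930) (by decide +kernel)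
                  (CovZ.leaf K2_ok TM_l705 _)
                  (CovZ.leaf K2_ok TM_l706 _)))
                (CovZ.leaf K2_ok TM_l707 _)))))
            (CovZ.badM (by decide +kernel)))
           (CovZ.n1 (2608, 2944) (by decide +kernel)
            (CovZ.subM 137440002116 (by decide +kernel)
             (CovZ.n2 (2616, 2936) (by decide +kernel)
              (CovZ.n2 (2608, 2936) (by decide +kernel)
               (CovZ.n2 (2612, 2940) (by decide +kernel)
                (CovZ.n2 (2612, 2936) (by decide +kernel)
                 (CovZ.leaf K2_ok TM_l708 _)
                 (CovZ.n1 (2614, 2938) (by decide +kernel)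
                  (CovZ.badM (by decide +kernel))
                  (CovZ.leaf K2_ok TM_l709 _)))
                (CovZ.leaf K2_ok TM_l710 _))
               (CovZ.badM (by decide +kernel)))
              (CovZ.n1 (2616, 2944) (by decide +kernel)
               (CovZ.n2 (2620, 2940) (by decide +kernel)
                (CovZ.n2 (2616, 2940) (by decide +kernel)
                 (CovZ.leaf K2_ok TM_l711 _)
                 (CovZ.badM (by decide +kernel)))
                (CovZ.leaf K2_ok TM_l712 _))
               (CovZ.n1 (2612, 2940) (by decide +kernel)
                (CovZ.leaf K2_ok TM_l713 _)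
                (CovZ.n1 (2616, 2940) (by decide +kernel)
                 (CovZ.n2 (2614, 2938) (by decide +kernel)
                  (CovZ.leaf K2_ok TM_l714 _)
                  (CovZ.badM (by decide +kernel)))
                 (CovZ.leaf K2_ok TM_l715 _))))))
            (CovZ.n1 (2600, 2936) (by decide +kernel)
             (CovZ.n2 (2600, 2944) (by decide +kernel)
              (CovZ.leaf K2_ok TM_l716 _)
              (CovZ.n1 (2596, 2940) (by decide +kernel)
               (CovZ.leaf K2_ok TM_l717 _)
               (CovZ.leaf K2_ok TM_l718 _)))
             (CovZ.subM 137440002116 (by decide +kernel)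
              (CovZ.n1 (2608, 2936) (by decide +kernel)
               (CovZ.n2 (2604, 2932) (by decide +kernel)
                (CovZ.n2 (2604, 2936) (by decide +kernel)
                 (CovZ.leaf K2_ok TM_l719 _)
                 (CovZ.leaf K2_ok TM_l720 _))
                (CovZ.badM (by decide +kernel)))
               (CovZ.n1 (2604, 2940) (by decide +kernel)
                (CovZ.n2 (2608, 2940) (by decide +kernel)
                 (CovZ.leaf K2_ok TM_l721 _)
                 (CovZ.leaf K2_ok TM_l722 _))
                (CovZ.leaf K2_ok TM_l723 _))))))))
         (CovZ.n1 (2576, 2928) (by decide +kernel)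
          (CovZ.subM 6766327653812293 (by decide +kernel)
           (CovZ.n2 (2576, 2944) (by decide +kernel)
            (CovZ.subM 10101764917317 (by decide +kernel)
             (CovZ.n2 (2584, 2936) (by decide +kernel)
              (CovZ.n2 (2576, 2936) (by decide +kernel)
               (CovZ.n2 (2580, 2940) (by decide +kernel)
                (CovZ.leaf K2_ok TM_l724 _)
                (CovZ.leaf K2_ok TM_l725 _))
               (CovZ.leaf K2_ok TM_l726 _))
              (CovZ.n1 (2584, 2944) (by decide +kernel)
               (CovZ.leaf K2_ok TM_l727 _)
               (CovZ.n1 (2580, 2940) (by decide +kernel)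
                (CovZ.leaf K2_ok TM_l728 _)
                (CovZ.leaf K2_ok TM_l729 _)))))
            (CovZ.n1 (2568, 2936) (by decide +kernel)
             (CovZ.n2 (2568, 2944) (by decide +kernel)
              (CovZ.subM 4504769070368833 (by decide +kernel)
               (CovZ.n2 (2572, 2940) (by decide +kernel)
                (CovZ.n2 (2568, 2940) (by decide +kernel)
                 (CovZ.n2 (2570, 2942) (by decide +kernel)
                  (CovZ.leaf K2_ok TM_l730 _)
                  (CovZ.leaf K2_ok TM_l731 _))
                 (CovZ.leaf K2_ok TM_l732 _))
                (CovZ.subM 4504699139786817 (by decide +kernel)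
                 (CovZ.n1 (2572, 2944) (by decide +kernel)
                  (CovZ.n2 (2574, 2942) (by decide +kernel)
                   (CovZ.leaf K2_ok TM_l733 _)
                   (CovZ.leaf K2_ok TM_l734 _))
                  (CovZ.n1 (2570, 2942) (by decide +kernel)
                   (CovZ.leaf K2_ok TM_l735 _)
                   (CovZ.leaf K2_ok TM_l736 _))))))
              (CovZ.n1 (2564, 2940) (by decide +kernel)
               (CovZ.subM 2253449620357184 (by decide +kernel)
                (CovZ.n2 (2564, 2944) (by decide +kernel)
                 (CovZ.n2 (2566, 2942) (by decide +kernel)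
                  (CovZ.leaf K2_ok TM_l737 _)
                  (CovZ.leaf K2_ok TM_l738 _))
                 (CovZ.n1 (2562, 2942) (by decide +kernel)
                  (CovZ.badM (by decide +kernel))
                  (CovZ.leaf K2_ok TM_l739 _))))
               (CovZ.n1 (2568, 2940) (by decide +kernel)
                (CovZ.leaf K2_ok TM_l740 _)
                (CovZ.leaf K2_ok TM_l741 _))))
             (CovZ.n1 (2576, 2936) (by decide +kernel)
              (CovZ.n2 (2572, 2932) (by decide +kernel)
               (CovZ.leaf K2_ok TM_l742 _)
               (CovZ.leaf K2_ok TM_l743 _))
              (CovZ.leaf K2_ok TM_l744 _)))))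
          (CovZ.subM 9002253035637 (by decide +kernel)
           (CovZ.n1 (2592, 2928) (by decide +kernel)
            (CovZ.n2 (2584, 2920) (by decide +kernel)
             (CovZ.n2 (2584, 2928) (by decide +kernel)
              (CovZ.subM 137440002160 (by decide +kernel)
               (CovZ.n2 (2588, 2924) (by decide +kernel)
                (CovZ.n2 (2584, 2924) (by decide +kernel)
                 (CovZ.n2 (2586, 2926) (by decide +kernel)
                  (CovZ.leaf K2_ok TM_l745 _)
                  (CovZ.leaf K2_ok TM_l746 _))
                 (CovZ.badM (by decide +kernel)))
                (CovZ.n1 (2588, 2928) (by decide +kernel)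
                 (CovZ.leaf K2_ok TM_l747 _)
                 (CovZ.n1 (2586, 2926) (by decide +kernel)
                  (CovZ.leaf K2_ok TM_l748 _)
                  (CovZ.leaf K2_ok TM_l749 _)))))
              (CovZ.n1 (2580, 2924) (by decide +kernel)
               (CovZ.leaf K2_ok TM_l750 _)
               (CovZ.n1 (2584, 2924) (by decide +kernel)
                (CovZ.n2 (2582, 2922) (by decide +kernel)
                 (CovZ.leaf K2_ok TM_l751 _)
                 (CovZ.badM (by decide +kernel)))
                (CovZ.leaf K2_ok TM_l752 _))))
             (CovZ.badM (by decide +kernel)))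
            (CovZ.n1 (2584, 2936) (by decide +kernel)
             (CovZ.subM 206160005188 (by decide +kernel)
              (CovZ.n2 (2592, 2936) (by decide +kernel)
               (CovZ.n2 (2588, 2932) (by decide +kernel)
                (CovZ.leaf K2_ok TM_l753 _)
                (CovZ.n1 (2592, 2932) (by decide +kernel)
                 (CovZ.n2 (2590, 2930) (by decide +kernel)
                  (CovZ.leaf K2_ok TM_l754 _)
                  (CovZ.leaf K2_ok TM_l755 _))
                 (CovZ.leaf K2_ok TM_l756 _)))
               (CovZ.leaf K2_ok TM_l757 _)))
             (CovZ.n1 (2584, 2928) (by decide +kernel)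
              (CovZ.n2 (2580, 2932) (by decide +kernel)
               (CovZ.leaf K2_ok TM_l758 _)
               (CovZ.leaf K2_ok TM_l759 _))
              (CovZ.subM 206160005188 (by decide +kernel)
               (CovZ.n1 (2588, 2932) (by decide +kernel)
                (CovZ.n2 (2588, 2928) (by decide +kernel)
                 (CovZ.leaf K2_ok TM_l760 _)
                 (CovZ.n1 (2590, 2930) (by decide +kernel)
                  (CovZ.leaf K2_ok TM_l761 _)
                  (CovZ.leaf K2_ok TM_l762 _)))
                (CovZ.leaf K2_ok TM_l763 _)))))))))
        (CovZ.badM (by decide +kernel))))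

end Pool.Agent.TET
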