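import Pool.Agent.Helper38_TET.GridY
import Pool.Agent.Helper38_TET.TM_M
import Pool.Agent.Helper38_TET.TM_L
import Pool.Agent.Helper38_TET.TM_3
import Pool.Agent.Helper38_TET.TM_4
import Pool.Agent.Helper38_TET.TM_5
import Pool.Agent.Helper38_TET.TM_U0

/-!
# MP_c7c9bf_co: certificates, family TM
-/

set_option autoImplicit false
set_option maxRecDepth 100000

namespace Pool.Agent.TET

theorem TM_s0_0 : SqY TM_M TM_L [0, 7, 4, 3] 2048 2560 256 0 0 :=
  SqY.mk (a := 2048) (b := 2304) (c := 2560) (d := 2816) (by norm_num) (by norm_num) (by norm_num) (by norm_num)
    (CovZ.topM TM_LL 9620793885441 (by decide +kernel) (CovZ.n1 (2176, 2688) (by decide +kernel)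
    (CovZ.badM (by decide +kernel))
    (CovZ.badM (by decide +kernel))))
    (CovZ.topM TM_LL 9620793885441 (by decide +kernel) (CovZ.n1 (2176, 2688) (by decide +kernel)
    (CovZ.badM (by decide +kernel))
    (CovZ.subM 274877939712 (by decide +kernel)
     (CovZ.n1 (2304, 2688) (by decide +kernel)
      (CovZ.badM (by decide +kernel))
      (CovZ.n1 (2240, 2752) (by decide +kernel)
       (CovZ.n2 (2304, 2752) (by decide +kernel)
        (CovZ.badM (by decide +kernel))
        (CovZ.badM (by decide +kernel)))
       (CovZ.badM (by decide +kernel)))))))

theorem TM_s1_0 : SqY TM_M TM_L [0, 7, 4, 3] 2048 2560 256 1 0 :=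
  SqY.mk (a := 2304) (b := 2560) (c := 2560) (d := 2816) (by norm_num) (by norm_num) (by norm_num) (by norm_num)
    (CovZ.topM TM_LL 276086951960 (by decide +kernel) (CovZ.n1 (2432, 2688) (by decide +kernel)
    (CovZ.badM (by decide +kernel))
    (CovZ.subM 274877943808 (by decide +kernel)
     (CovZ.n1 (2304, 2688) (by decide +kernel)
      (CovZ.n2 (2368, 2752) (by decide +kernel)
       (CovZ.badM (by decide +kernel))
       (CovZ.n1 (2304, 2752) (by decide +kernel)
        (CovZ.n2 (2336, 2784) (by decide +kernel)
         (CovZ.badM (by decide +kernel))
         (CovZ.badM (by decide +kernel)))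
        (CovZ.badM (by decide +kernel))))
      (CovZ.badM (by decide +kernel))))))
    (CovZ.topM TM_LL 2479673610334 (by decide +kernel) (CovZ.n1 (2432, 2688) (by decide +kernel)
    (CovZ.n2 (2432, 2816) (by decide +kernel)
     (CovZ.n2 (2496, 2752) (by decide +kernel)
      (CovZ.badM (by decide +kernel))
      (CovZ.n1 (2496, 2816) (by decide +kernel)
       (CovZ.badM (by decide +kernel))
       (CovZ.badM (by decide +kernel))))
     (CovZ.subM 274877943808 (by decide +kernel)
      (CovZ.n1 (2368, 2752) (by decide +kernel)
       (CovZ.n2 (2368, 2816) (by decide +kernel)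
        (CovZ.badM (by decide +kernel))
        (CovZ.n1 (2336, 2784) (by decide +kernel)
         (CovZ.badM (by decide +kernel))
         (CovZ.badM (by decide +kernel))))
       (CovZ.badM (by decide +kernel)))))
    (CovZ.badM (by decide +kernel))))

theorem TM_s2_0 : SqY TM_M TM_L [0, 7, 4, 3] 2048 2560 256 2 0 :=
  SqY.mk (a := 2560) (b := 2816) (c := 2560) (d := 2816) (by norm_num) (by norm_num) (by norm_num) (by norm_num)
    (CovZ.topM TM_LL 0 (by decide +kernel) (CovZ.badM (by decide +kernel)))
    (CovZ.topM TM_LL 0 (by decide +kernel) (CovZ.badM (by decide +kernel)))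

theorem TM_s3_0 : SqY TM_M TM_L [0, 7, 4, 3] 2048 2560 256 3 0 :=
  SqY.mk (a := 2816) (b := 3072) (c := 2560) (d := 2816) (by norm_num) (by norm_num) (by norm_num) (by norm_num)
    (CovZ.topM TM_LL 0 (by decide +kernel) (CovZ.badM (by decide +kernel)))
    (CovZ.topM TM_LL 0 (by decide +kernel) (CovZ.badM (by decide +kernel)))

theorem TM_s0_1 : SqY TM_M TM_L [0, 7, 4, 3] 2048 2560 256 0 1 :=
  SqY.mk (a := 2048) (b := 2304) (c := 2816) (d := 3072) (by norm_num) (by norm_num) (by norm_num) (by norm_num)
    (CovZ.topM TM_LL 0 (by decide +kernel) (CovZ.badM (by decide +kernel)))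
    (CovZ.topM TM_LL 1125899906842624 (by decide +kernel) (CovZ.n1 (2176, 2944) (by decide +kernel)
    (CovZ.badM (by decide +kernel))
    (CovZ.n1 (2304, 2944) (by decide +kernel)
     (CovZ.badM (by decide +kernel))
     (CovZ.badM (by decide +kernel)))))

theorem TM_s1_1 : SqY TM_M TM_L [0, 7, 4, 3] 2048 2560 256 1 1 :=
  SqY.mk (a := 2304) (b := 2560) (c := 2816) (d := 3072) (by norm_num) (by norm_num) (by norm_num) (by norm_num)
    (CovZ.topM TM_LL 6191332795998207 (by decide +kernel) (CovZ.n1 (2432, 2944) (by decide +kernel)
    (CovZ.n2 (2432, 2816) (by decide +kernel)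
     TM_u2
     TM_u3)
    (CovZ.n1 (2304, 2944) (by decide +kernel)
     (CovZ.badM (by decide +kernel))
     (CovZ.badM (by decide +kernel)))))
    (CovZ.topM TM_LL 9007199254740991 (by decide +kernel) (CovZ.n1 (2432, 2944) (by decide +kernel)
    (CovZ.badM (by decide +kernel))
    (CovZ.n1 (2560, 2944) (by decide +kernel)
     (CovZ.n2 (2496, 2880) (by decide +kernel)
      (CovZ.n2 (2496, 2944) (by decide +kernel)
       TM_u6
       TM_u7)
      (CovZ.n1 (2560, 2880) (by decide +kernel)
       (CovZ.subM 2257310392131600 (by decide +kernel)
        (CovZ.n2 (2528, 2848) (by decide +kernel)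
         (CovZ.n2 (2528, 2880) (by decide +kernel)
          (CovZ.badM (by decide +kernel))
          (CovZ.subM 2251804109701136 (by decide +kernel)
           (CovZ.n1 (2512, 2864) (by decide +kernel)
            (CovZ.n2 (2512, 2880) (by decide +kernel)
             (CovZ.badM (by decide +kernel))
             (CovZ.n1 (2504, 2872) (by decide +kernel)
              (CovZ.n2 (2504, 2880) (by decide +kernel)
               (CovZ.badM (by decide +kernel))
               (CovZ.n1 (2500, 2876) (by decide +kernel)
                (CovZ.n2 (2500, 2880) (by decide +kernel)
                 (CovZ.badM (by decide +kernel))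
                 (CovZ.badM (by decide +kernel)))
                (CovZ.badM (by decide +kernel))))
              (CovZ.badM (by decide +kernel))))
            (CovZ.badM (by decide +kernel)))))
         (CovZ.badM (by decide +kernel))))
       (CovZ.n1 (2528, 2912) (by decide +kernel)
        TM_u8
        TM_u9)))
     (CovZ.subM 1145753397363074 (by decide +kernel)
      (CovZ.n1 (2496, 3008) (by decide +kernel)
       (CovZ.subM 1125899906842626 (by decide +kernel)
        (CovZ.n2 (2560, 3008) (by decide +kernel)
         (CovZ.n2 (2528, 2976) (by decide +kernel)
          (CovZ.badM (by decide +kernel))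
          (CovZ.n1 (2560, 2976) (by decide +kernel)
           (CovZ.n2 (2544, 2960) (by decide +kernel)
            (CovZ.badM (by decide +kernel))
            (CovZ.badM (by decide +kernel)))
           (CovZ.badM (by decide +kernel))))
         (CovZ.badM (by decide +kernel))))
       (CovZ.n1 (2496, 2944) (by decide +kernel)
        (CovZ.badM (by decide +kernel))
        (CovZ.n1 (2528, 2976) (by decide +kernel)
         (CovZ.n2 (2528, 2944) (by decide +kernel)
          (CovZ.badM (by decide +kernel))
          (CovZ.n1 (2544, 2960) (by decide +kernel)
           (CovZ.n2 (2544, 2944) (by decide +kernel)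
            (CovZ.badM (by decide +kernel))
            (CovZ.badM (by decide +kernel)))
           (CovZ.badM (by decide +kernel))))
         (CovZ.badM (by decide +kernel)))))))))

theorem TM_s2_1 : SqY TM_M TM_L [0, 7, 4, 3] 2048 2560 256 2 1 :=
  SqY.mk (a := 2560) (b := 2816) (c := 2816) (d := 3072) (by norm_num) (by norm_num) (by norm_num) (by norm_num)
    (CovZ.topM TM_LL 8420060045508341 (by decide +kernel) (CovZ.n1 (2688, 2944) (by decide +kernel)
    (CovZ.n2 (2688, 2816) (by decide +kernel)
     (CovZ.n2 (2624, 2880) (by decide +kernel)
      (CovZ.badM (by decide +kernel))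
      (CovZ.badM (by decide +kernel)))
     (CovZ.badM (by decide +kernel)))
    (CovZ.n1 (2560, 2944) (by decide +kernel)
     (CovZ.subM 6827900321679425 (by decide +kernel)
      (CovZ.n2 (2624, 3008) (by decide +kernel)
       (CovZ.n2 (2624, 2944) (by decide +kernel)
        (CovZ.n2 (2592, 2976) (by decide +kernel)
         (CovZ.subM 6756567672948800 (by decide +kernel)
          (CovZ.n2 (2624, 2976) (by decide +kernel)
           (CovZ.n2 (2608, 2960) (by decide +kernel)
            (CovZ.badM (by decide +kernel))
            (CovZ.n1 (2624, 2960) (by decide +kernel)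
             (CovZ.n2 (2616, 2952) (by decide +kernel)
              (CovZ.subM 68719476800 (by decide +kernel)
               (CovZ.n2 (2616, 2960) (by decide +kernel)
                (CovZ.leaf K2_ok TM_l581 _)
                (CovZ.n1 (2612, 2956) (by decide +kernel)
                 (CovZ.n2 (2612, 2960) (by decide +kernel)
                  (CovZ.leaf K2_ok TM_l582 _)
                  (CovZ.leaf K2_ok TM_l583 _))
                 (CovZ.leaf K2_ok TM_l584 _))))
              (CovZ.n1 (2624, 2952) (by decide +kernel)
               (CovZ.n2 (2620, 2948) (by decide +kernel)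
                (CovZ.leaf K2_ok TM_l585 _)
                (CovZ.leaf K2_ok TM_l586 _))
               (CovZ.leaf K2_ok TM_l587 _)))
             (CovZ.subM 64 (by decide +kernel)
              (CovZ.n1 (2616, 2968) (by decide +kernel)
               (CovZ.n2 (2624, 2968) (by decide +kernel)
                (CovZ.n2 (2620, 2964) (by decide +kernel)
                 (CovZ.badM (by decide +kernel))
                 (CovZ.leaf K2_ok TM_l588 _))
                (CovZ.badM (by decide +kernel)))
               (CovZ.n1 (2616, 2960) (by decide +kernel)
                (CovZ.badM (by decide +kernel))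
                (CovZ.n1 (2620, 2964) (by decide +kernel)
                 (CovZ.leaf K2_ok TM_l589 _)
                 (CovZ.badM (by decide +kernel))))))))
           (CovZ.badM (by decide +kernel))))
         (CovZ.n1 (2592, 2944) (by decide +kernel)
          (CovZ.subM 6757117967730753 (by decide +kernel)
           (CovZ.n2 (2576, 2960) (by decide +kernel)
            (CovZ.n2 (2592, 2960) (by decide +kernel)
             (CovZ.n2 (2584, 2952) (by decide +kernel)
              (CovZ.badM (by decide +kernel))
              (CovZ.subM 1168231893056 (by decide +kernel)
               (CovZ.n1 (2592, 2952) (by decide +kernel)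
                (CovZ.n2 (2588, 2948) (by decide +kernel)
                 (CovZ.n2 (2588, 2952) (by decide +kernel)
                  (CovZ.leaf K2_ok TM_l590 _)
                  (CovZ.n1 (2586, 2950) (by decide +kernel)
                   (CovZ.badM (by decide +kernel))
                   (CovZ.leaf K2_ok TM_l591 _)))
                 (CovZ.leaf K2_ok TM_l592 _))
                (CovZ.badM (by decide +kernel)))))
             (CovZ.badM (by decide +kernel)))
            (CovZ.n1 (2576, 2944) (by decide +kernel)
             (CovZ.subM 549757911104 (by decide +kernel)
              (CovZ.n2 (2568, 2952) (by decide +kernel)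
               (CovZ.n2 (2576, 2952) (by decide +kernel)
                (CovZ.n2 (2572, 2948) (by decide +kernel)
                 (CovZ.badM (by decide +kernel))
                 (CovZ.n1 (2576, 2948) (by decide +kernel)
                  (CovZ.n2 (2574, 2946) (by decide +kernel)
                   (CovZ.badM (by decide +kernel))
                   (CovZ.leaf K2_ok TM_l593 _))
                  (CovZ.badM (by decide +kernel))))
                (CovZ.badM (by decide +kernel)))
               (CovZ.n1 (2568, 2944) (by decide +kernel)
                (CovZ.badM (by decide +kernel))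
                (CovZ.n1 (2572, 2948) (by decide +kernel)
                 (CovZ.n2 (2572, 2944) (by decide +kernel)
                  (CovZ.badM (by decide +kernel))
                  (CovZ.n1 (2574, 2946) (by decide +kernel)
                   (CovZ.leaf K2_ok TM_l594 _)
                   (CovZ.badM (by decide +kernel))))
                 (CovZ.badM (by decide +kernel))))))
             (CovZ.n1 (2584, 2952) (by decide +kernel)
              (CovZ.subM 1168231893057 (by decide +kernel)
               (CovZ.n2 (2584, 2944) (by decide +kernel)
                (CovZ.n2 (2580, 2948) (by decide +kernel)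
                 (CovZ.n2 (2584, 2948) (by decide +kernel)
                  (CovZ.leaf K2_ok TM_l595 _)
                  (CovZ.badM (by decide +kernel)))
                 (CovZ.leaf K2_ok TM_l596 _))
                (CovZ.n1 (2588, 2948) (by decide +kernel)
                 (CovZ.leaf K2_ok TM_l597 _)
                 (CovZ.n1 (2584, 2948) (by decide +kernel)
                  (CovZ.leaf K2_ok TM_l598 _)
                  (CovZ.leaf K2_ok TM_l599 _)))))
              (CovZ.subM 64 (by decide +kernel)
               (CovZ.n1 (2576, 2952) (by decide +kernel)
                (CovZ.badM (by decide +kernel))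
                (CovZ.n1 (2580, 2948) (by decide +kernel)
                 (CovZ.n2 (2576, 2948) (by decide +kernel)
                  (CovZ.badM (by decide +kernel))
                  (CovZ.leaf K2_ok TM_l600 _))
                 (CovZ.badM (by decide +kernel)))))))))
          (CovZ.subM 6756567672948800 (by decide +kernel)
           (CovZ.n1 (2608, 2960) (by decide +kernel)
            (CovZ.n2 (2608, 2944) (by decide +kernel)
             (CovZ.n2 (2600, 2952) (by decide +kernel)
              (CovZ.n2 (2608, 2952) (by decide +kernel)
               (CovZ.n2 (2604, 2948) (by decide +kernel)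
                (CovZ.leaf K2_ok TM_l601 _)
                (CovZ.leaf K2_ok TM_l602 _))
               (CovZ.leaf K2_ok TM_l603 _))
              (CovZ.n1 (2600, 2944) (by decide +kernel)
               (CovZ.leaf K2_ok TM_l604 _)
               (CovZ.n1 (2604, 2948) (by decide +kernel)
                (CovZ.leaf K2_ok TM_l605 _)
                (CovZ.leaf K2_ok TM_l606 _))))
             (CovZ.n1 (2616, 2952) (by decide +kernel)
              (CovZ.n2 (2616, 2944) (by decide +kernel)
               (CovZ.leaf K2_ok TM_l607 _)
               (CovZ.n1 (2620, 2948) (by decide +kernel)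
                (CovZ.leaf K2_ok TM_l608 _)
                (CovZ.leaf K2_ok TM_l609 _)))
              (CovZ.n1 (2608, 2952) (by decide +kernel)
               (CovZ.n2 (2612, 2956) (by decide +kernel)
                (CovZ.leaf K2_ok TM_l610 _)
                (CovZ.leaf K2_ok TM_l611 _))
               (CovZ.leaf K2_ok TM_l612 _))))
            (CovZ.n1 (2592, 2960) (by decide +kernel)
             (CovZ.badM (by decide +kernel))
             (CovZ.n1 (2600, 2952) (by decide +kernel)
              (CovZ.n2 (2592, 2952) (by decide +kernel)
               (CovZ.n2 (2596, 2956) (by decide +kernel)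
                (CovZ.leaf K2_ok TM_l613 _)
                (CovZ.badM (by decide +kernel)))
               (CovZ.n1 (2596, 2948) (by decide +kernel)
                (CovZ.leaf K2_ok TM_l614 _)
                (CovZ.n1 (2596, 2952) (by decide +kernel)
                 (CovZ.leaf K2_ok TM_l615 _)
                 (CovZ.leaf K2_ok TM_l616 _))))
              (CovZ.subM 64 (by decide +kernel)
               (CovZ.n1 (2600, 2960) (by decide +kernel)
                (CovZ.n2 (2604, 2956) (by decide +kernel)
                 (CovZ.n2 (2600, 2956) (by decide +kernel)
                  (CovZ.badM (by decide +kernel))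
                  (CovZ.leaf K2_ok TM_l617 _))
                 (CovZ.badM (by decide +kernel)))
                (CovZ.n1 (2596, 2956) (by decide +kernel)
                 (CovZ.badM (by decide +kernel))
                 (CovZ.n1 (2600, 2956) (by decide +kernel)
                  (CovZ.leaf K2_ok TM_l618 _)
                  (CovZ.badM (by decide +kernel))))))))))))
        (CovZ.subM 6756706320910400 (by decide +kernel)
         (CovZ.n1 (2656, 2976) (by decide +kernel)
          (CovZ.subM 206159478848 (by decide +kernel)
           (CovZ.n2 (2656, 2944) (by decide +kernel)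
            (CovZ.n2 (2640, 2960) (by decide +kernel)
             (CovZ.n2 (2656, 2960) (by decide +kernel)
              (CovZ.n2 (2648, 2952) (by decide +kernel)
               (CovZ.n2 (2648, 2960) (by decide +kernel)
                (CovZ.leaf K2_ok TM_l619 _)
                (CovZ.n1 (2644, 2956) (by decide +kernel)
                 (CovZ.leaf K2_ok TM_l620 _)
                 (CovZ.leaf K2_ok TM_l621 _)))
               (CovZ.badM (by decide +kernel)))
              (CovZ.n1 (2648, 2968) (by decide +kernel)
               (CovZ.n2 (2656, 2968) (by decide +kernel)
                (CovZ.leaf K2_ok TM_l622 _)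
                (CovZ.leaf K2_ok TM_l623 _))
               (CovZ.n1 (2648, 2960) (by decide +kernel)
                (CovZ.leaf K2_ok TM_l624 _)
                (CovZ.leaf K2_ok TM_l625 _))))
             (CovZ.n1 (2640, 2944) (by decide +kernel)
              (CovZ.n2 (2632, 2952) (by decide +kernel)
               (CovZ.n2 (2640, 2952) (by decide +kernel)
                (CovZ.n2 (2636, 2948) (by decide +kernel)
                 (CovZ.leaf K2_ok TM_l626 _)
                 (CovZ.badM (by decide +kernel)))
                (CovZ.leaf K2_ok TM_l627 _))
               (CovZ.n1 (2632, 2944) (by decide +kernel)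
                (CovZ.n2 (2628, 2948) (by decide +kernel)
                 (CovZ.n2 (2632, 2948) (by decide +kernel)
                  (CovZ.leaf K2_ok TM_l628 _)
                  (CovZ.leaf K2_ok TM_l629 _))
                 (CovZ.leaf K2_ok TM_l630 _))
                (CovZ.n1 (2636, 2948) (by decide +kernel)
                 (CovZ.badM (by decide +kernel))
                 (CovZ.n1 (2632, 2948) (by decide +kernel)
                  (CovZ.leaf K2_ok TM_l631 _)
                  (CovZ.badM (by decide +kernel))))))
              (CovZ.n1 (2648, 2952) (by decide +kernel)
               (CovZ.badM (by decide +kernel))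
               (CovZ.n1 (2640, 2952) (by decide +kernel)
                (CovZ.n2 (2644, 2956) (by decide +kernel)
                 (CovZ.leaf K2_ok TM_l632 _)
                 (CovZ.leaf K2_ok TM_l633 _))
                (CovZ.badM (by decide +kernel))))))
            (CovZ.n1 (2672, 2960) (by decide +kernel)
             (CovZ.badM (by decide +kernel))
             (CovZ.n1 (2656, 2960) (by decide +kernel)
              (CovZ.n2 (2664, 2968) (by decide +kernel)
               (CovZ.n2 (2664, 2960) (by decide +kernel)
                (CovZ.leaf K2_ok TM_l634 _)
                (CovZ.n1 (2668, 2964) (by decide +kernel)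
                 (CovZ.badM (by decide +kernel))
                 (CovZ.leaf K2_ok TM_l635 _)))
               (CovZ.n1 (2656, 2968) (by decide +kernel)
                (CovZ.leaf K2_ok TM_l636 _)
                (CovZ.leaf K2_ok TM_l637 _)))
              (CovZ.badM (by decide +kernel))))))
          (CovZ.n1 (2624, 2976) (by decide +kernel)
           (CovZ.badM (by decide +kernel))
           (CovZ.subM 1168231630912 (by decide +kernel)
            (CovZ.n1 (2640, 2960) (by decide +kernel)
             (CovZ.n2 (2624, 2960) (by decide +kernel)
              (CovZ.n2 (2632, 2968) (by decide +kernel)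
               (CovZ.leaf K2_ok TM_l638 _)
               (CovZ.n1 (2624, 2968) (by decide +kernel)
                (CovZ.badM (by decide +kernel))
                (CovZ.leaf K2_ok TM_l639 _)))
              (CovZ.n1 (2632, 2952) (by decide +kernel)
               (CovZ.n2 (2624, 2952) (by decide +kernel)
                (CovZ.n2 (2628, 2956) (by decide +kernel)
                 (CovZ.leaf K2_ok TM_l640 _)
                 (CovZ.leaf K2_ok TM_l641 _))
                (CovZ.leaf K2_ok TM_l642 _))
               (CovZ.leaf K2_ok TM_l643 _)))
             (CovZ.n1 (2640, 2976) (by decide +kernel)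
              (CovZ.n2 (2648, 2968) (by decide +kernel)
               (CovZ.n2 (2640, 2968) (by decide +kernel)
                (CovZ.n2 (2644, 2972) (by decide +kernel)
                 (CovZ.leaf K2_ok TM_l644 _)
                 (CovZ.badM (by decide +kernel)))
                (CovZ.leaf K2_ok TM_l645 _))
               (CovZ.n1 (2648, 2976) (by decide +kernel)
                (CovZ.leaf K2_ok TM_l646 _)
                (CovZ.n1 (2644, 2972) (by decide +kernel)
                 (CovZ.badM (by decide +kernel))
                 (CovZ.leaf K2_ok TM_l647 _))))
              (CovZ.n1 (2632, 2968) (by decide +kernel)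
               (CovZ.badM (by decide +kernel))
               (CovZ.n1 (2640, 2968) (by decide +kernel)
                (CovZ.leaf K2_ok TM_l648 _)
                (CovZ.badM (by decide +kernel)))))))))))
       (CovZ.badM (by decide +kernel))))
     (CovZ.n1 (2624, 2880) (by decide +kernel)
      TM_u10
      TM_u11))))
    (CovZ.topM TM_LL 7153385868328053 (by decide +kernel) (CovZ.n1 (2688, 2944) (by decide +kernel)
    (CovZ.subM 6827900319582273 (by decide +kernel)
     (CovZ.n2 (2688, 3072) (by decide +kernel)
      (CovZ.subM 6756706320910400 (by decide +kernel)
       (CovZ.n2 (2752, 3008) (by decide +kernel)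
        (CovZ.n2 (2688, 3008) (by decide +kernel)
         (CovZ.badM (by decide +kernel))
         (CovZ.subM 206159480896 (by decide +kernel)
          (CovZ.n1 (2720, 2976) (by decide +kernel)
           (CovZ.n2 (2688, 2976) (by decide +kernel)
            (CovZ.n2 (2704, 2992) (by decide +kernel)
             (CovZ.n2 (2704, 2976) (by decide +kernel)
              (CovZ.leaf K2_ok TM_l764 _)
              (CovZ.n1 (2712, 2984) (by decide +kernel)
               (CovZ.badM (by decide +kernel))
               (CovZ.leaf K2_ok TM_l765 _)))
             (CovZ.n1 (2688, 2992) (by decide +kernel)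
              (CovZ.badM (by decide +kernel))
              (CovZ.leaf K2_ok TM_l766 _)))
            (CovZ.badM (by decide +kernel)))
           (CovZ.n1 (2720, 3008) (by decide +kernel)
            (CovZ.n2 (2736, 2992) (by decide +kernel)
             (CovZ.n2 (2720, 2992) (by decide +kernel)
              (CovZ.n2 (2728, 3000) (by decide +kernel)
               (CovZ.n2 (2728, 2992) (by decide +kernel)
                (CovZ.leaf K2_ok TM_l767 _)
                (CovZ.n1 (2732, 2996) (by decide +kernel)
                 (CovZ.badM (by decide +kernel))
                 (CovZ.leaf K2_ok TM_l768 _)))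
               (CovZ.n1 (2720, 3000) (by decide +kernel)
                (CovZ.badM (by decide +kernel))
                (CovZ.leaf K2_ok TM_l769 _)))
              (CovZ.n1 (2728, 2984) (by decide +kernel)
               (CovZ.n2 (2720, 2984) (by decide +kernel)
                (CovZ.n2 (2724, 2988) (by decide +kernel)
                 (CovZ.badM (by decide +kernel))
                 (CovZ.leaf K2_ok TM_l770 _))
                (CovZ.badM (by decide +kernel)))
               (CovZ.n1 (2728, 2992) (by decide +kernel)
                (CovZ.badM (by decide +kernel))
                (CovZ.n1 (2724, 2988) (by decide +kernel)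
                 (CovZ.leaf K2_ok TM_l771 _)
                 (CovZ.badM (by decide +kernel))))))
             (CovZ.n1 (2736, 3008) (by decide +kernel)
              (CovZ.n2 (2744, 3000) (by decide +kernel)
               (CovZ.n2 (2736, 3000) (by decide +kernel)
                (CovZ.n2 (2740, 3004) (by decide +kernel)
                 (CovZ.leaf K2_ok TM_l772 _)
                 (CovZ.leaf K2_ok TM_l773 _))
                (CovZ.n1 (2740, 2996) (by decide +kernel)
                 (CovZ.leaf K2_ok TM_l774 _)
                 (CovZ.leaf K2_ok TM_l775 _)))
               (CovZ.n1 (2744, 3008) (by decide +kernel)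
                (CovZ.n2 (2748, 3004) (by decide +kernel)
                 (CovZ.n2 (2744, 3004) (by decide +kernel)
                  (CovZ.leaf K2_ok TM_l776 _)
                  (CovZ.leaf K2_ok TM_l777 _))
                 (CovZ.leaf K2_ok TM_l778 _))
                (CovZ.n1 (2740, 3004) (by decide +kernel)
                 (CovZ.badM (by decide +kernel))
                 (CovZ.leaf K2_ok TM_l779 _))))
              (CovZ.n1 (2728, 3000) (by decide +kernel)
               (CovZ.badM (by decide +kernel))
               (CovZ.n1 (2736, 3000) (by decide +kernel)
                (CovZ.n2 (2732, 2996) (by decide +kernel)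
                 (CovZ.leaf K2_ok TM_l780 _)
                 (CovZ.leaf K2_ok TM_l781 _))
                (CovZ.leaf K2_ok TM_l782 _)))))
            (CovZ.n1 (2704, 2992) (by decide +kernel)
             (CovZ.badM (by decide +kernel))
             (CovZ.n1 (2720, 2992) (by decide +kernel)
              (CovZ.n2 (2712, 2984) (by decide +kernel)
               (CovZ.leaf K2_ok TM_l783 _)
               (CovZ.n1 (2720, 2984) (by decide +kernel)
                (CovZ.badM (by decide +kernel))
                (CovZ.leaf K2_ok TM_l784 _)))
              (CovZ.n1 (2712, 3000) (by decide +kernel)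
               (CovZ.n2 (2720, 3000) (by decide +kernel)
                (CovZ.leaf K2_ok TM_l785 _)
                (CovZ.badM (by decide +kernel)))
               (CovZ.leaf K2_ok TM_l786 _))))))))
        (CovZ.badM (by decide +kernel))))
      (CovZ.n1 (2624, 3008) (by decide +kernel)
       (CovZ.badM (by decide +kernel))
       (CovZ.subM 6756706320910400 (by decide +kernel)
        (CovZ.n1 (2688, 3008) (by decide +kernel)
         (CovZ.n2 (2656, 2976) (by decide +kernel)
          (CovZ.badM (by decide +kernel))
          (CovZ.subM 206159480896 (by decide +kernel)
           (CovZ.n1 (2688, 2976) (by decide +kernel)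
            (CovZ.n2 (2672, 2960) (by decide +kernel)
             (CovZ.n2 (2672, 2976) (by decide +kernel)
              (CovZ.n2 (2680, 2968) (by decide +kernel)
               (CovZ.n2 (2672, 2968) (by decide +kernel)
                (CovZ.leaf K2_ok TM_l787 _)
                (CovZ.badM (by decide +kernel)))
               (CovZ.leaf K2_ok TM_l788 _))
              (CovZ.n1 (2664, 2968) (by decide +kernel)
               (CovZ.leaf K2_ok TM_l789 _)
               (CovZ.n1 (2672, 2968) (by decide +kernel)
                (CovZ.n2 (2668, 2964) (by decide +kernel)
                 (CovZ.leaf K2_ok TM_l790 _)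
                 (CovZ.badM (by decide +kernel)))
                (CovZ.leaf K2_ok TM_l791 _))))
             (CovZ.badM (by decide +kernel)))
            (CovZ.n1 (2672, 2992) (by decide +kernel)
             (CovZ.n2 (2688, 2992) (by decide +kernel)
              (CovZ.n2 (2680, 2984) (by decide +kernel)
               (CovZ.badM (by decide +kernel))
               (CovZ.leaf K2_ok TM_l792 _))
              (CovZ.badM (by decide +kernel)))
             (CovZ.n1 (2672, 2976) (by decide +kernel)
              (CovZ.n2 (2664, 2984) (by decide +kernel)
               (CovZ.n2 (2672, 2984) (by decide +kernel)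
                (CovZ.leaf K2_ok TM_l793 _)
                (CovZ.badM (by decide +kernel)))
               (CovZ.leaf K2_ok TM_l794 _))
              (CovZ.n1 (2680, 2984) (by decide +kernel)
               (CovZ.leaf K2_ok TM_l795 _)
               (CovZ.n1 (2672, 2984) (by decide +kernel)
                (CovZ.badM (by decide +kernel))
                (CovZ.leaf K2_ok TM_l796 _))))))))
         (CovZ.badM (by decide +kernel)))))))
    (CovZ.subM 137440002164 (by decide +kernel)
     (CovZ.n1 (2816, 2944) (by decide +kernel)
      (CovZ.badM (by decide +kernel))
      (CovZ.subM 137440002112 (by decide +kernel)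
       (CovZ.n1 (2752, 3008) (by decide +kernel)
        (CovZ.n2 (2816, 3008) (by decide +kernel)
         (CovZ.n2 (2784, 2976) (by decide +kernel)
          (CovZ.n2 (2784, 3008) (by decide +kernel)
           (CovZ.badM (by decide +kernel))
           (CovZ.n1 (2768, 2992) (by decide +kernel)
            (CovZ.n2 (2768, 3008) (by decide +kernel)
             (CovZ.badM (by decide +kernel))
             (CovZ.n1 (2760, 3000) (by decide +kernel)
              (CovZ.n2 (2760, 3008) (by decide +kernel)
               (CovZ.badM (by decide +kernel))
               (CovZ.n1 (2756, 3004) (by decide +kernel)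
                (CovZ.n2 (2756, 3008) (by decide +kernel)
                 (CovZ.badM (by decide +kernel))
                 (CovZ.n1 (2754, 3006) (by decide +kernel)
                  (CovZ.badM (by decide +kernel))
                  (CovZ.badM (by decide +kernel))))
                (CovZ.badM (by decide +kernel))))
              (CovZ.badM (by decide +kernel))))
            (CovZ.badM (by decide +kernel))))
          (CovZ.badM (by decide +kernel)))
         (CovZ.badM (by decide +kernel)))
        (CovZ.n1 (2752, 2944) (by decide +kernel)
         (CovZ.n2 (2720, 2976) (by decide +kernel)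
          (CovZ.n2 (2752, 2976) (by decide +kernel)
           (CovZ.badM (by decide +kernel))
           (CovZ.n1 (2736, 2992) (by decide +kernel)
            (CovZ.n2 (2752, 2992) (by decide +kernel)
             (CovZ.badM (by decide +kernel))
             (CovZ.n1 (2744, 3000) (by decide +kernel)
              (CovZ.n2 (2752, 3000) (by decide +kernel)
               (CovZ.badM (by decide +kernel))
               (CovZ.n1 (2748, 3004) (by decide +kernel)
                (CovZ.n2 (2752, 3004) (by decide +kernel)
                 (CovZ.badM (by decide +kernel))
                 (CovZ.leaf K2_ok TM_l797 _))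
                (CovZ.badM (by decide +kernel))))
              (CovZ.badM (by decide +kernel))))
            (CovZ.badM (by decide +kernel))))
          (CovZ.badM (by decide +kernel)))
         (CovZ.n1 (2784, 2976) (by decide +kernel)
          (CovZ.badM (by decide +kernel))
          (CovZ.n1 (2752, 2976) (by decide +kernel)
           (CovZ.n2 (2768, 2992) (by decide +kernel)
            (CovZ.badM (by decide +kernel))
            (CovZ.n1 (2752, 2992) (by decide +kernel)
             (CovZ.n2 (2760, 3000) (by decide +kernel)
              (CovZ.badM (by decide +kernel))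
              (CovZ.n1 (2752, 3000) (by decide +kernel)
               (CovZ.n2 (2756, 3004) (by decide +kernel)
                (CovZ.badM (by decide +kernel))
                (CovZ.n1 (2752, 3004) (by decide +kernel)
                 (CovZ.n2 (2754, 3006) (by decide +kernel)
                  (CovZ.badM (by decide +kernel))
                  (CovZ.leaf K2_ok TM_l798 _))
                 (CovZ.badM (by decide +kernel))))
               (CovZ.badM (by decide +kernel))))
             (CovZ.badM (by decide +kernel))))
           (CovZ.badM (by decide +kernel)))))))))))

theorem TM_s3_1 : SqY TM_M TM_L [0, 7, 4, 3] 2048 2560 256 3 1 :=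
  SqY.mk (a := 2816) (b := 3072) (c := 2816) (d := 3072) (by norm_num) (by norm_num) (by norm_num) (by norm_num)
    (CovZ.topM TM_LL 137440002164 (by decide +kernel) (CovZ.n1 (2944, 2944) (by decide +kernel)
    (CovZ.badM (by decide +kernel))
    (CovZ.n1 (2816, 2944) (by decide +kernel)
     (CovZ.n2 (2880, 3008) (by decide +kernel)
      (CovZ.badM (by decide +kernel))
      (CovZ.n1 (2816, 3008) (by decide +kernel)
       (CovZ.badM (by decide +kernel))
       (CovZ.badM (by decide +kernel))))
     (CovZ.badM (by decide +kernel)))))
    (CovZ.topM TM_LL 137440002164 (by decide +kernel) (CovZ.n1 (2944, 2944) (by decide +kernel)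
    (CovZ.n2 (2944, 3072) (by decide +kernel)
     (CovZ.badM (by decide +kernel))
     (CovZ.n1 (2880, 3008) (by decide +kernel)
      (CovZ.badM (by decide +kernel))
      (CovZ.badM (by decide +kernel))))
    (CovZ.badM (by decide +kernel))))

theorem TM_s0_2 : SqY TM_M TM_L [0, 7, 4, 3] 2048 2560 256 0 2 :=
  SqY.mk (a := 2048) (b := 2304) (c := 3072) (d := 3328) (by norm_num) (by norm_num) (by norm_num) (by norm_num)
    (CovZ.topM TM_LL 0 (by decide +kernel) (CovZ.badM (by decide +kernel)))
    (CovZ.topM TM_LL 0 (by decide +kernel) (CovZ.badM (by decide +kernel)))

theorem TM_s1_2 : SqY TM_M TM_L [0, 7, 4, 3] 2048 2560 256 1 2 :=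
  SqY.mk (a := 2304) (b := 2560) (c := 3072) (d := 3328) (by norm_num) (by norm_num) (by norm_num) (by norm_num)
    (CovZ.topM TM_LL 0 (by decide +kernel) (CovZ.badM (by decide +kernel)))
    (CovZ.topM TM_LL 0 (by decide +kernel) (CovZ.badM (by decide +kernel)))

theorem TM_s2_2 : SqY TM_M TM_L [0, 7, 4, 3] 2048 2560 256 2 2 :=
  SqY.mk (a := 2560) (b := 2816) (c := 3072) (d := 3328) (by norm_num) (by norm_num) (by norm_num) (by norm_num)
    (CovZ.topM TM_LL 0 (by decide +kernel) (CovZ.badM (by decide +kernel)))
    (CovZ.topM TM_LL 0 (by decide +kernel) (CovZ.badM (by decide +kernel)))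

theorem TM_s3_2 : SqY TM_M TM_L [0, 7, 4, 3] 2048 2560 256 3 2 :=
  SqY.mk (a := 2816) (b := 3072) (c := 3072) (d := 3328) (by norm_num) (by norm_num) (by norm_num) (by norm_num)
    (CovZ.topM TM_LL 68719476736 (by decide +kernel) (CovZ.n1 (2944, 3200) (by decide +kernel)
    (CovZ.n2 (2944, 3072) (by decide +kernel)
     (CovZ.badM (by decide +kernel))
     (CovZ.n1 (3008, 3136) (by decide +kernel)
      (CovZ.badM (by decide +kernel))
      (CovZ.badM (by decide +kernel))))
    (CovZ.badM (by decide +kernel))))
    (CovZ.topM TM_LL 68719476736 (by decide +kernel) (CovZ.n1 (2944, 3200) (by decide +kernel)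
    (CovZ.badM (by decide +kernel))
    (CovZ.n1 (3072, 3200) (by decide +kernel)
     (CovZ.n2 (3008, 3136) (by decide +kernel)
      (CovZ.badM (by decide +kernel))
      (CovZ.badM (by decide +kernel)))
     (CovZ.badM (by decide +kernel)))))

end Pool.Agent.TET
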