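import Pool.Agent.Helper38_TET.GridY
import Pool.Agent.Helper38_TET.RegS
import Pool.Agent.Helper38_TET.TM_S0

/-!
# MP_c7c9bf_co: certificates, family TM
-/

set_option autoImplicit false
set_option maxRecDepth 100000

namespace Pool.Agent.TET

theorem TM_r0 : ∀ i < 4, SqY TM_M TM_L [0, 7, 4, 3] 2048 2560 256 i 0
  | 0, _ => TM_s0_0
  | 1, _ => TM_s1_0
  | 2, _ => TM_s2_0
  | 3, _ => TM_s3_0
  | n + 4, h => absurd h (by omega)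

theorem TM_r1 : ∀ i < 4, SqY TM_M TM_L [0, 7, 4, 3] 2048 2560 256 i 1
  | 0, _ => TM_s0_1
  | 1, _ => TM_s1_1
  | 2, _ => TM_s2_1
  | 3, _ => TM_s3_1
  | n + 4, h => absurd h (by omega)

theorem TM_r2 : ∀ i < 4, SqY TM_M TM_L [0, 7, 4, 3] 2048 2560 256 i 2
  | 0, _ => TM_s0_2
  | 1, _ => TM_s1_2
  | 2, _ => TM_s2_2
  | 3, _ => TM_s3_2
  | n + 4, h => absurd h (by omega)

theorem TM_rows : ∀ j < 3, ∀ i < 4, SqY TM_M TM_L [0, 7, 4, 3] 2048 2560 256 i j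
  | 0, _ => TM_r0
  | 1, _ => TM_r1
  | 2, _ => TM_r2
  | n + 3, h => absurd h (by omega)

theorem TM_cov (X Y : ℝ) (h1 : ((2048 : ℤ) : ℝ) ≤ X) (h2 : X ≤ (3072 : ℤ)) (h3 : ((2560 : ℤ) : ℝ) ≤ Y)
    (h4 : Y ≤ (3328 : ℤ)) : Out TM_L X Y ∨ GoodV [0, 7, 4, 3] (TM_M.v X Y) := by
  push_cast at h1 h2 h3 h4
  refine gridY (by norm_num) (by norm_num) (by norm_num) TM_rows ?_ ?_ ?_ ?_ <;> push_cast <;> linarith

theorem TM_sc : ∀ a : Fin 3, (![1, 1, 96] : Fin 3 → ℝ) a ≠ 0 := by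
  intro a
  fin_cases a <;> simp

theorem TM_fr (x y : ℝ) : scl ![1, 1, 96] (VV ((-16 : ℤ) : ℝ) ((11 : ℤ) : ℝ) ((24 : ℤ) : ℝ) (x / (4 : ℤ)) (y / (4 : ℤ))) =
    TM_M.v (30720 * x / (1 : ℤ)) (30720 * y / (1 : ℤ)) := by
  funext i j
  fin_cases i <;> fin_cases j <;> simp [scl, VV, FM.v, Z3.ev, TM_M] <;> ring

end Pool.Agent.TET
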