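import Pool.Agent.Helper38_TET.TM_C

/-!
# MP_c7c9bf_co: certificates, family TM
-/

set_option autoImplicit false
set_option maxRecDepth 100000

namespace Pool.Agent.TET

theorem TM_rg0 : ROK [.q ⟨-19, -16, 11, 24⟩ ⟨-5092, -1328, 12372, -5952⟩, .q ⟨-19, -16, 11, 24⟩ ⟨2404, -5344, 924, 2016⟩, .q ⟨-19, -16, 11, 24⟩ ⟨6724, -1940, -12272, 7488⟩, .q ⟨-19, -16, 11, 24⟩ ⟨-3496, 14540, -9412, -1632⟩] := by
  refine rok_w (v := ⟨-19, -16, 11, 24⟩) (q := 4) (by decide) (by decide) (by decide) TM_sc (k := 1) (by decide) (Q := [(-1324, 3775, -248), (-1000, 0, 84), (763, -3926, 312), (3363, -2166, -68)])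
    (P := [⟨-7618560, -1324, 3775⟩, ⟨2580480, -1000, 0⟩, ⟨9584640, 763, -3926⟩, ⟨-2088960, 3363, -2166⟩]) rfl rfl
    (List.mem_of_getElem? (i := 0) rfl) TM_fr TM_cov ?_
  · intro X Y h
    simp only [List.forall_mem_cons, List.not_mem_nil, false_imp_iff, implies_true, and_true] at h
    push_cast at h ⊢
    obtain ⟨h0, h1, h2, h3⟩ := h
    refine ⟨⟨?_, ?_⟩, ?_, ?_⟩ <;> linarith

theorem TM_rg1 : ROK [.q ⟨-19, -16, 11, 24⟩ ⟨9392, -21044, 4068, 7584⟩, .q ⟨-19, -16, 11, 24⟩ ⟨3836, 3400, -12228, 4992⟩, .q ⟨-19, -16, 11, 24⟩ ⟨-6444, 10736, 1276, -5568⟩, .q ⟨-19, -16, 11, 24⟩ ⟨-2464, -844, 6188, -2880⟩] := by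
  refine rok_w (v := ⟨-19, -16, 11, 24⟩) (q := 4) (by decide) (by decide) (by decide) TM_sc (k := 1) (by decide) (Q := [(-3997, 148, 316), (1682, -3629, 208), (1756, 957, -232), (-691, 1877, -120)])
    (P := [⟨9707520, -3997, 148⟩, ⟨6389760, 1682, -3629⟩, ⟨-7127040, 1756, 957⟩, ⟨-3686400, -691, 1877⟩]) rfl rfl
    (List.mem_of_getElem? (i := 1) rfl) TM_fr TM_cov ?_
  · intro X Y h
    simp only [List.forall_mem_cons, List.not_mem_nil, false_imp_iff, implies_true, and_true] at h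
    push_cast at h ⊢
    obtain ⟨h0, h1, h2, h3⟩ := h
    refine ⟨⟨?_, ?_⟩, ?_, ?_⟩ <;> linarith

theorem TM_rg2 : ROK [.q ⟨-19, -16, 11, 24⟩ ⟨4528, -3392, -5840, 4704⟩, .q ⟨-19, -16, 11, 24⟩ ⟨1660, 7032, -11764, 3072⟩, .q ⟨-19, -16, 11, 24⟩ ⟨-12232, 19176, 3904, -10848⟩, .q ⟨-19, -16, 11, 24⟩ ⟨-784, -1196, 3036, -1056⟩] := by
  refine rok_w (v := ⟨-19, -16, 11, 24⟩) (q := 4) (by decide) (by decide) (by decide) TM_sc (k := 1) (by decide) (Q := [(-64, -1999, 196), (2270, -3293, 128), (2986, 2219, -452), (-475, 880, -44)])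
    (P := [⟨6021120, -64, -1999⟩, ⟨3932160, 2270, -3293⟩, ⟨-13885440, 2986, 2219⟩, ⟨-1351680, -475, 880⟩]) rfl rfl
    (List.mem_of_getElem? (i := 2) rfl) TM_fr TM_cov ?_
  · intro X Y h
    simp only [List.forall_mem_cons, List.not_mem_nil, false_imp_iff, implies_true, and_true] at h
    push_cast at h ⊢
    obtain ⟨h0, h1, h2, h3⟩ := h
    refine ⟨⟨?_, ?_⟩, ?_, ?_⟩ <;> linarith

theorem TM_rg3 : ROK [.q ⟨-19, -16, 11, 24⟩ ⟨-4916, -1696, 12372, -5760⟩, .q ⟨-19, -16, 11, 24⟩ ⟨9692, -21312, 3652, 7968⟩, .q ⟨-19, -16, 11, 24⟩ ⟨8568, -5732, -11860, 9024⟩, .q ⟨-19, -16, 11, 24⟩ ⟨-4884, 10624, -1804, -3936⟩] := by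
  refine rok_w (v := ⟨-19, -16, 11, 24⟩) (q := 4) (by decide) (by decide) (by decide) TM_sc (k := 1) (by decide) (Q := [(-1384, 3753, -240), (-4000, 0, 332), (71, -3999, 376), (2000, 0, -164)])
    (P := [⟨-7372800, -1384, 3753⟩, ⟨10199040, -4000, 0⟩, ⟨11550720, 71, -3999⟩, ⟨-5038080, 2000, 0⟩]) rfl rfl
    (List.mem_of_getElem? (i := 3) rfl) TM_fr TM_cov ?_
  · intro X Y h
    simp only [List.forall_mem_cons, List.not_mem_nil, false_imp_iff, implies_true, and_true] at h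
    push_cast at h ⊢
    obtain ⟨h0, h1, h2, h3⟩ := h
    refine ⟨⟨?_, ?_⟩, ?_, ?_⟩ <;> linarith

theorem TM_rg4 : ROK [.q ⟨-19, -16, 11, 24⟩ ⟨9776, -8436, -11324, 9984⟩, .q ⟨-19, -16, 11, 24⟩ ⟨-4884, 10624, -1804, -3936⟩, .q ⟨-19, -16, 11, 24⟩ ⟨-1688, -2200, 6096, -2208⟩] := by
  refine rok_w (v := ⟨-19, -16, 11, 24⟩) (q := 4) (by decide) (by decide) (by decide) TM_sc (k := 1) (by decide) (Q := [(-445, -3975, 416), (2000, 0, -164), (-918, 1777, -92)])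
    (P := [⟨12779520, -445, -3975⟩, ⟨-5038080, 2000, 0⟩, ⟨-2826240, -918, 1777⟩]) rfl rfl
    (List.mem_of_getElem? (i := 4) rfl) TM_fr TM_cov ?_
  · intro X Y h
    simp only [List.forall_mem_cons, List.not_mem_nil, false_imp_iff, implies_true, and_true] at h
    push_cast at h ⊢
    obtain ⟨h0, h1, h2⟩ := h
    refine ⟨⟨?_, ?_⟩, ?_, ?_⟩ <;> linarith

theorem TM_rg5 : ROK [.q ⟨-19, -16, 11, 24⟩ ⟨-9849, 8404, 11357, -9912⟩, .q ⟨-19, -16, 11, 24⟩ ⟨-2528, -5844, 12020, -3648⟩, .q ⟨-19, -16, 11, 24⟩ ⟨9436, -7616, -11516, 9696⟩, .q ⟨-19, -16, 11, 24⟩ ⟨-5088, 10744, -1528, -4128⟩] := by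
  refine rok_w (v := ⟨-19, -16, 11, 24⟩) (q := 4) (by decide) (by decide) (by decide) TM_sc (k := 1) (by decide) (Q := [(449, 3975, -413), (-2069, 3423, -152), (-288, -3990, 404), (1998, 91, -172)])
    (P := [⟨-12687360, 449, 3975⟩, ⟨-4669440, -2069, 3423⟩, ⟨12410880, -288, -3990⟩, ⟨-5283840, 1998, 91⟩]) rfl rfl
    (List.mem_of_getElem? (i := 5) rfl) TM_fr TM_cov ?_
  · intro X Y h
    simp only [List.forall_mem_cons, List.not_mem_nil, false_imp_iff, implies_true, and_true] at h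
    push_cast at h ⊢
    obtain ⟨h0, h1, h2, h3⟩ := h
    refine ⟨⟨?_, ?_⟩, ?_, ?_⟩ <;> linarith

theorem TM_rg6 : ROK [.q ⟨-19, -16, 11, 24⟩ ⟨-4032, 6560, 1024, -3552⟩, .q ⟨-19, -16, 11, 24⟩ ⟨-3592, -4028, 12228, -4608⟩, .q ⟨-19, -16, 11, 24⟩ ⟨9936, -9688, -10904, 10656⟩, .q ⟨-19, -16, 11, 24⟩ ⟨5068, 1224, -12340, 6048⟩] := by
  refine rok_w (v := ⟨-19, -16, 11, 24⟩) (q := 4) (by decide) (by decide) (by decide) TM_sc (k := 1) (by decide) (Q := [(1048, 663, -148), (-1775, 3585, -192), (-646, -3947, 444), (1314, -3778, 252)])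
    (P := [⟨-4546560, 1048, 663⟩, ⟨-5898240, -1775, 3585⟩, ⟨13639680, -646, -3947⟩, ⟨7741440, 1314, -3778⟩]) rfl rfl
    (List.mem_of_getElem? (i := 6) rfl) TM_fr TM_cov ?_
  · intro X Y h
    simp only [List.forall_mem_cons, List.not_mem_nil, false_imp_iff, implies_true, and_true] at h
    push_cast at h ⊢
    obtain ⟨h0, h1, h2, h3⟩ := h
    refine ⟨⟨?_, ?_⟩, ?_, ?_⟩ <;> linarith

theorem TM_rg7 : ROK [.q ⟨-19, -16, 11, 24⟩ ⟨-584, 4052, -3468, 0⟩, .q ⟨-19, -16, 11, 24⟩ ⟨-4072, 2252, 6044, -4224⟩, .q ⟨-19, -16, 11, 24⟩ ⟨3400, -14596, 9468, 1728⟩, .q ⟨-19, -16, 11, 24⟩ ⟨11684, -13252, -9760, 11328⟩] := by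
  refine rok_w (v := ⟨-19, -16, 11, 24⟩) (q := 4) (by decide) (by decide) (by decide) TM_sc (k := 1) (by decide) (Q := [(1013, -867, 0), (-141, 1995, -176), (-3361, 2169, 72), (-1425, -3738, 472)])
    (P := [⟨0, 1013, -867⟩, ⟨-5406720, -141, 1995⟩, ⟨2211840, -3361, 2169⟩, ⟨14499840, -1425, -3738⟩]) rfl rfl
    (List.mem_of_getElem? (i := 7) rfl) TM_fr TM_cov ?_
  · intro X Y h
    simp only [List.forall_mem_cons, List.not_mem_nil, false_imp_iff, implies_true, and_true] at h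
    push_cast at h ⊢
    obtain ⟨h0, h1, h2, h3⟩ := h
    refine ⟨⟨?_, ?_⟩, ?_, ?_⟩ <;> linarith

theorem TM_rg8 : ROK [.q ⟨-19, -16, 11, 24⟩ ⟨11292, -12292, -10136, 11136⟩, .q ⟨-19, -16, 11, 24⟩ ⟨520, 8864, -11400, 2016⟩, .q ⟨-19, -16, 11, 24⟩ ⟨-5796, -64, 12388, -6528⟩, .q ⟨-19, -16, 11, 24⟩ ⟨9692, -21312, 3652, 7968⟩] := by
  refine rok_w (v := ⟨-19, -16, 11, 24⟩) (q := 4) (by decide) (by decide) (by decide) TM_sc (k := 1) (by decide) (Q := [(-1217, -3810, 464), (2552, -3081, 84), (-1104, 3845, -272), (-4000, 0, 332)])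
    (P := [⟨14254080, -1217, -3810⟩, ⟨2580480, 2552, -3081⟩, ⟨-8355840, -1104, 3845⟩, ⟨10199040, -4000, 0⟩]) rfl rfl
    (List.mem_of_getElem? (i := 8) rfl) TM_fr TM_cov ?_
  · intro X Y h
    simp only [List.forall_mem_cons, List.not_mem_nil, false_imp_iff, implies_true, and_true] at h
    push_cast at h ⊢
    obtain ⟨h0, h1, h2, h3⟩ := h
    refine ⟨⟨?_, ?_⟩, ?_, ?_⟩ <;> linarith

theorem TM_rg9 : ROK [.q ⟨-19, -16, 11, 24⟩ ⟨-6696, 1660, 12332, -7296⟩, .q ⟨-19, -16, 11, 24⟩ ⟨12240, -22036, -860, 10656⟩, .q ⟨-19, -16, 11, 24⟩ ⟨7548, -3560, -12148, 8160⟩, .q ⟨-19, -16, 11, 24⟩ ⟨-2888, 13724, -9780, -1056⟩] := by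
  refine rok_w (v := ⟨-19, -16, 11, 24⟩) (q := 4) (by decide) (by decide) (by decide) TM_sc (k := 1) (by decide) (Q := [(-801, 3919, -304), (-3733, -1436, 444), (470, -3972, 340), (3255, -2324, -44)])
    (P := [⟨-9338880, -801, 3919⟩, ⟨13639680, -3733, -1436⟩, ⟨10444800, 470, -3972⟩, ⟨-1351680, 3255, -2324⟩]) rfl rfl
    (List.mem_of_getElem? (i := 9) rfl) TM_fr TM_cov ?_
  · intro X Y h
    simp only [List.forall_mem_cons, List.not_mem_nil, false_imp_iff, implies_true, and_true] at h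
    push_cast at h ⊢
    obtain ⟨h0, h1, h2, h3⟩ := h
    refine ⟨⟨?_, ?_⟩, ?_, ?_⟩ <;> linarith

theorem TM_rg10 : ROK [.q ⟨-19, -16, 11, 24⟩ ⟨1756, -1216, -2364, 1824⟩, .q ⟨-19, -16, 11, 24⟩ ⟨-2192, 12748, -10172, -384⟩, .q ⟨-19, -16, 11, 24⟩ ⟨-10768, 10396, 10836, -10464⟩, .q ⟨-19, -16, 11, 24⟩ ⟨1440, -6908, 4892, 576⟩] := by
  refine rok_w (v := ⟨-19, -16, 11, 24⟩) (q := 4) (by decide) (by decide) (by decide) TM_sc (k := 1) (by decide) (Q := [(0, -800, 76), (3123, -2499, -16), (855, 3908, -436), (-1631, 1157, 24)])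
    (P := [⟨2334720, 0, -800⟩, ⟨-491520, 3123, -2499⟩, ⟨-13393920, 855, 3908⟩, ⟨737280, -1631, 1157⟩]) rfl rfl
    (List.mem_of_getElem? (i := 10) rfl) TM_fr TM_cov ?_
  · intro X Y h
    simp only [List.forall_mem_cons, List.not_mem_nil, false_imp_iff, implies_true, and_true] at h
    push_cast at h ⊢
    obtain ⟨h0, h1, h2, h3⟩ := h
    refine ⟨⟨?_, ?_⟩, ?_, ?_⟩ <;> linarith

theorem TM_rg11 : ROK [.q ⟨-19, -16, 11, 24⟩ ⟨6176, -856, -12328, 7008⟩, .q ⟨-19, -16, 11, 24⟩ ⟨-4884, 10624, -1804, -3936⟩, .q ⟨-19, -16, 11, 24⟩ ⟨-10212, 9240, 11148, -10176⟩, .q ⟨-19, -16, 11, 24⟩ ⟨-1984, -6732, 11884, -3168⟩] := by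
  refine rok_w (v := ⟨-19, -16, 11, 24⟩) (q := 4) (by decide) (by decide) (by decide) TM_sc (k := 1) (by decide) (Q := [(954, -3885, 292), (2000, 0, -164), (614, 3953, -424), (-2211, 3334, -132)])
    (P := [⟨8970240, 954, -3885⟩, ⟨-5038080, 2000, 0⟩, ⟨-13025280, 614, 3953⟩, ⟨-4055040, -2211, 3334⟩]) rfl rfl
    (List.mem_of_getElem? (i := 11) rfl) TM_fr TM_cov ?_
  · intro X Y h
    simp only [List.forall_mem_cons, List.not_mem_nil, false_imp_iff, implies_true, and_true] at h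
    push_cast at h ⊢
    obtain ⟨h0, h1, h2, h3⟩ := h
    refine ⟨⟨?_, ?_⟩, ?_, ?_⟩ <;> linarith

theorem TM_rg12 : ROK [.q ⟨-19, -16, 11, 24⟩ ⟨-4252, -2880, 12316, -5184⟩, .q ⟨-19, -16, 11, 24⟩ ⟨8632, -20508, 4964, 6912⟩, .q ⟨-19, -16, 11, 24⟩ ⟨9920, -8748, -11252, 10080⟩, .q ⟨-19, -16, 11, 24⟩ ⟨-4880, 16320, -8464, -2976⟩] := by
  refine rok_w (v := ⟨-19, -16, 11, 24⟩) (q := 4) (by decide) (by decide) (by decide) TM_sc (k := 1) (by decide) (Q := [(-1584, 3673, -216), (-3975, 449, 288), (-507, -3968, 420), (3584, -1775, -124)])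
    (P := [⟨-6635520, -1584, 3673⟩, ⟨8847360, -3975, 449⟩, ⟨12902400, -507, -3968⟩, ⟨-3809280, 3584, -1775⟩]) rfl rfl
    (List.mem_of_getElem? (i := 12) rfl) TM_fr TM_cov ?_
  · intro X Y h
    simp only [List.forall_mem_cons, List.not_mem_nil, false_imp_iff, implies_true, and_true] at h
    push_cast at h ⊢
    obtain ⟨h0, h1, h2, h3⟩ := h
    refine ⟨⟨?_, ?_⟩, ?_, ?_⟩ <;> linarith

theorem TM_rg13 : ROK [.q ⟨-19, -16, 11, 24⟩ ⟨-1656, -7252, 11788, -2880⟩, .q ⟨-19, -16, 11, 24⟩ ⟨3300, -2908, -3752, 3360⟩, .q ⟨-19, -16, 11, 24⟩ ⟨68, 9524, -11224, 1632⟩, .q ⟨-19, -16, 11, 24⟩ ⟨-6112, 8972, 2708, -5568⟩] := by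
  refine rok_w (v := ⟨-19, -16, 11, 24⟩) (q := 4) (by decide) (by decide) (by decide) TM_sc (k := 1) (by decide) (Q := [(-2293, 3277, -120), (-167, -1323, 140), (2653, -2993, 68), (1315, 1315, -232)])
    (P := [⟨-3686400, -2293, 3277⟩, ⟨4300800, -167, -1323⟩, ⟨2088960, 2653, -2993⟩, ⟨-7127040, 1315, 1315⟩]) rfl rfl
    (List.mem_of_getElem? (i := 13) rfl) TM_fr TM_cov ?_
  · intro X Y h
    simp only [List.forall_mem_cons, List.not_mem_nil, false_imp_iff, implies_true, and_true] at h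
    push_cast at h ⊢
    obtain ⟨h0, h1, h2, h3⟩ := h
    refine ⟨⟨?_, ?_⟩, ?_, ?_⟩ <;> linarith

theorem TM_rg14 : ROK [.q ⟨-19, -16, 11, 24⟩ ⟨7760, -4016, -12096, 8352⟩, .q ⟨-19, -16, 11, 24⟩ ⟨-2668, 13440, -9908, -864⟩, .q ⟨-19, -16, 11, 24⟩ ⟨-10892, 10884, 10664, -10656⟩, .q ⟨-19, -16, 11, 24⟩ ⟨324, -1868, 1448, 96⟩] := by
  refine rok_w (v := ⟨-19, -16, 11, 24⟩) (q := 4) (by decide) (by decide) (by decide) TM_sc (k := 1) (by decide) (Q := [(388, -3981, 348), (3216, -2378, -36), (945, 3887, -444), (-451, 351, 4)])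
    (P := [⟨10690560, 388, -3981⟩, ⟨-1105920, 3216, -2378⟩, ⟨-13639680, 945, 3887⟩, ⟨122880, -451, 351⟩]) rfl rfl
    (List.mem_of_getElem? (i := 14) rfl) TM_fr TM_cov ?_
  · intro X Y h
    simp only [List.forall_mem_cons, List.not_mem_nil, false_imp_iff, implies_true, and_true] at h
    push_cast at h ⊢
    obtain ⟨h0, h1, h2, h3⟩ := h
    refine ⟨⟨?_, ?_⟩, ?_, ?_⟩ <;> linarith

theorem TM_rg15 : ROK [.q ⟨-19, -16, 11, 24⟩ ⟨-44, 4856, -5580, 768⟩, .q ⟨-19, -16, 11, 24⟩ ⟨-4812, -1892, 12368, -5664⟩, .q ⟨-19, -16, 11, 24⟩ ⟨12152, -19252, -3844, 10944⟩, .q ⟨-19, -16, 11, 24⟩ ⟨1756, -1216, -2364, 1824⟩] := by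
  refine rok_w (v := ⟨-19, -16, 11, 24⟩) (q := 4) (by decide) (by decide) (by decide) TM_sc (k := 1) (by decide) (Q := [(1342, -1483, 32), (-1417, 3741, -236), (-2989, -2215, 456), (0, -800, 76)])
    (P := [⟨983040, 1342, -1483⟩, ⟨-7249920, -1417, 3741⟩, ⟨14008320, -2989, -2215⟩, ⟨2334720, 0, -800⟩]) rfl rfl
    (List.mem_of_getElem? (i := 15) rfl) TM_fr TM_cov ?_
  · intro X Y h
    simp only [List.forall_mem_cons, List.not_mem_nil, false_imp_iff, implies_true, and_true] at h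
    push_cast at h ⊢
    obtain ⟨h0, h1, h2, h3⟩ := h
    refine ⟨⟨?_, ?_⟩, ?_, ?_⟩ <;> linarith

theorem TM_rg16 : ROK [.q ⟨-19, -16, 11, 24⟩ ⟨8448, -5476, -11900, 8928⟩, .q ⟨-19, -16, 11, 24⟩ ⟨-6348, 18052, -7288, -4416⟩, .q ⟨-19, -16, 11, 24⟩ ⟨-9228, 6964, 11672, -9408⟩, .q ⟨-19, -16, 11, 24⟩ ⟨4580, -16132, 8672, 2880⟩] := by
  refine rok_w (v := ⟨-19, -16, 11, 24⟩) (q := 4) (by decide) (by decide) (by decide) TM_sc (k := 1) (by decide) (Q := [(119, -3998, 372), (3777, -1316, -184), (173, 3996, -392), (-3553, 1838, 120)])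
    (P := [⟨11427840, 119, -3998⟩, ⟨-5652480, 3777, -1316⟩, ⟨-12042240, 173, 3996⟩, ⟨3686400, -3553, 1838⟩]) rfl rfl
    (List.mem_of_getElem? (i := 16) rfl) TM_fr TM_cov ?_
  · intro X Y h
    simp only [List.forall_mem_cons, List.not_mem_nil, false_imp_iff, implies_true, and_true] at h
    push_cast at h ⊢
    obtain ⟨h0, h1, h2, h3⟩ := h
    refine ⟨⟨?_, ?_⟩, ?_, ?_⟩ <;> linarith

theorem TM_rg17 : ROK [.q ⟨-19, -16, 11, 24⟩ ⟨-372, 3752, -3572, 192⟩, .q ⟨-19, -16, 11, 24⟩ ⟨-12228, 17836, 5528, -11136⟩, .q ⟨-19, -16, 11, 24⟩ ⟨4840, -16396, 8484, 3072⟩, .q ⟨-19, -16, 11, 24⟩ ⟨9184, -7060, -11628, 9504⟩] := by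
  refine rok_w (v := ⟨-19, -16, 11, 24⟩) (q := 4) (by decide) (by decide) (by decide) TM_sc (k := 1) (by decide) (Q := [(970, -915, 8), (2603, 2658, -464), (-3587, 1769, 128), (-181, -3996, 396)])
    (P := [⟨245760, 970, -915⟩, ⟨-14254080, 2603, 2658⟩, ⟨3932160, -3587, 1769⟩, ⟨12165120, -181, -3996⟩]) rfl rfl
    (List.mem_of_getElem? (i := 17) rfl) TM_fr TM_cov ?_
  · intro X Y h
    simp only [List.forall_mem_cons, List.not_mem_nil, false_imp_iff, implies_true, and_true] at h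
    push_cast at h ⊢
    obtain ⟨h0, h1, h2, h3⟩ := h
    refine ⟨⟨?_, ?_⟩, ?_, ?_⟩ <;> linarith

theorem TM_rg18 : ROK [.q ⟨-19, -16, 11, 24⟩ ⟨-4428, 3008, 5932, -4512⟩, .q ⟨-19, -16, 11, 24⟩ ⟨-260, -9424, 11316, -1632⟩, .q ⟨-19, -16, 11, 24⟩ ⟨6272, -1060, -12316, 7104⟩, .q ⟨-19, -16, 11, 24⟩ ⟨-2248, 12872, -10144, -480⟩] := by
  refine rok_w (v := ⟨-19, -16, 11, 24⟩) (q := 4) (by decide) (by decide) (by decide) TM_sc (k := 1) (by decide) (Q := [(0, 2000, -188), (-2628, 3016, -68), (919, -3893, 296), (3138, -2481, -20)])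
    (P := [⟨-5775360, 0, 2000⟩, ⟨-2088960, -2628, 3016⟩, ⟨9093120, 919, -3893⟩, ⟨-614400, 3138, -2481⟩]) rfl rfl
    (List.mem_of_getElem? (i := 18) rfl) TM_fr TM_cov ?_
  · intro X Y h
    simp only [List.forall_mem_cons, List.not_mem_nil, false_imp_iff, implies_true, and_true] at h
    push_cast at h ⊢
    obtain ⟨h0, h1, h2, h3⟩ := h
    refine ⟨⟨?_, ?_⟩, ?_, ?_⟩ <;> linarith

theorem TM_rg19 : ROK [.q ⟨-19, -16, 11, 24⟩ ⟨-1440, -7596, 11724, -2688⟩, .q ⟨-19, -16, 11, 24⟩ ⟨3144, -536, -6160, 3552⟩, .q ⟨-19, -16, 11, 24⟩ ⟨-4916, 16332, -8440, -2976⟩, .q ⟨-19, -16, 11, 24⟩ ⟨-4428, 3008, 5932, -4512⟩] := by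
  refine rok_w (v := ⟨-19, -16, 11, 24⟩) (q := 4) (by decide) (by decide) (by decide) TM_sc (k := 1) (by decide) (Q := [(-2347, 3239, -112), (458, -1947, 148), (3587, -1769, -124), (0, 2000, -188)])
    (P := [⟨-3440640, -2347, 3239⟩, ⟨4546560, 458, -1947⟩, ⟨-3809280, 3587, -1769⟩, ⟨-5775360, 0, 2000⟩]) rfl rfl
    (List.mem_of_getElem? (i := 19) rfl) TM_fr TM_cov ?_
  · intro X Y h
    simp only [List.forall_mem_cons, List.not_mem_nil, false_imp_iff, implies_true, and_true] at h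
    push_cast at h ⊢
    obtain ⟨h0, h1, h2, h3⟩ := h
    refine ⟨⟨?_, ?_⟩, ?_, ?_⟩ <;> linarith

theorem TM_rg20 : ROK [.q ⟨-19, -16, 11, 24⟩ ⟨-8216, 19944, -5488, -6240⟩, .q ⟨-19, -16, 11, 24⟩ ⟨-3052, -4952, 12132, -4128⟩, .q ⟨-19, -16, 11, 24⟩ ⟨7528, -3540, -12148, 8160⟩] := by
  refine rok_w (v := ⟨-19, -16, 11, 24⟩) (q := 4) (by decide) (by decide) (by decide) TM_sc (k := 1) (by decide) (Q := [(3946, -657, -260), (-1926, 3506, -172), (475, -3972, 340)])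
    (P := [⟨-7987200, 3946, -657⟩, ⟨-5283840, -1926, 3506⟩, ⟨10444800, 475, -3972⟩]) rfl rfl
    (List.mem_of_getElem? (i := 20) rfl) TM_fr TM_cov ?_
  · intro X Y h
    simp only [List.forall_mem_cons, List.not_mem_nil, false_imp_iff, implies_true, and_true] at h
    push_cast at h ⊢
    obtain ⟨h0, h1, h2⟩ := h
    refine ⟨⟨?_, ?_⟩, ?_, ?_⟩ <;> linarith

theorem TM_rg21 : ROK [.q ⟨-19, -16, 11, 24⟩ ⟨11448, -22196, 764, 9984⟩, .q ⟨-19, -16, 11, 24⟩ ⟨5828, -208, -12340, 6720⟩, .q ⟨-19, -16, 11, 24⟩ ⟨-12180, 22036, 608, -10464⟩, .q ⟨-19, -16, 11, 24⟩ ⟨-6092, 540, 12368, -6816⟩] := by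
  refine rok_w (v := ⟨-19, -16, 11, 24⟩) (q := 4) (by decide) (by decide) (by decide) TM_sc (k := 1) (by decide) (Q := [(-3885, -953, 416), (1068, -3855, 280), (3765, 1351, -436), (-1001, 3873, -284)])
    (P := [⟨12779520, -3885, -953⟩, ⟨8601600, 1068, -3855⟩, ⟨-13393920, 3765, 1351⟩, ⟨-8724480, -1001, 3873⟩]) rfl rfl
    (List.mem_of_getElem? (i := 21) rfl) TM_fr TM_cov ?_
  · intro X Y h
    simp only [List.forall_mem_cons, List.not_mem_nil, false_imp_iff, implies_true, and_true] at h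
    push_cast at h ⊢
    obtain ⟨h0, h1, h2, h3⟩ := h
    refine ⟨⟨?_, ?_⟩, ?_, ?_⟩ <;> linarith

theorem TM_rg22 : ROK [.q ⟨-19, -16, 11, 24⟩ ⟨11732, -15432, -7436, 11136⟩, .q ⟨-19, -16, 11, 24⟩ ⟨3388, 4164, -12160, 4608⟩, .q ⟨-19, -16, 11, 24⟩ ⟨-11040, 21788, -1820, -8928⟩, .q ⟨-19, -16, 11, 24⟩ ⟨-4428, 3008, 5932, -4512⟩, .q ⟨-19, -16, 11, 24⟩ ⟨-1096, -8116, 11612, -2400⟩] := by
  refine rok_w (v := ⟨-19, -16, 11, 24⟩) (q := 4) (by decide) (by decide) (by decide) TM_sc (k := 1) (by decide) (Q := [(-2002, -3135, 464), (1809, -3568, 192), (3959, 568, -372), (0, 2000, -188), (-2429, 3178, -100)])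
    (P := [⟨14254080, -2002, -3135⟩, ⟨5898240, 1809, -3568⟩, ⟨-11427840, 3959, 568⟩, ⟨-5775360, 0, 2000⟩, ⟨-3072000, -2429, 3178⟩]) rfl rfl
    (List.mem_of_getElem? (i := 22) rfl) TM_fr TM_cov ?_
  · intro X Y h
    simp only [List.forall_mem_cons, List.not_mem_nil, false_imp_iff, implies_true, and_true] at h
    push_cast at h ⊢
    obtain ⟨h0, h1, h2, h3, h4⟩ := h
    refine ⟨⟨?_, ?_⟩, ?_, ?_⟩ <;> linarith

theorem TM_rg23 : ROK [.q ⟨-19, -16, 11, 24⟩ ⟨-10040, 8888, 11232, -10080⟩, .q ⟨-19, -16, 11, 24⟩ ⟨4952, -16524, 8404, 3168⟩, .q ⟨-19, -16, 11, 24⟩ ⟨4404, -3124, -5888, 4608⟩, .q ⟨-19, -16, 11, 24⟩ ⟨2192, 6164, -11908, 3552⟩] := by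
  refine rok_w (v := ⟨-19, -16, 11, 24⟩) (q := 4) (by decide) (by decide) (by decide) TM_sc (k := 1) (by decide) (Q := [(542, 3963, -420), (-3603, 1738, 132), (-13, -2000, 192), (2133, -3384, 148)])
    (P := [⟨-12902400, 542, 3963⟩, ⟨4055040, -3603, 1738⟩, ⟨5898240, -13, -2000⟩, ⟨4546560, 2133, -3384⟩]) rfl rfl
    (List.mem_of_getElem? (i := 23) rfl) TM_fr TM_cov ?_
  · intro X Y h
    simp only [List.forall_mem_cons, List.not_mem_nil, false_imp_iff, implies_true, and_true] at h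
    push_cast at h ⊢
    obtain ⟨h0, h1, h2, h3⟩ := h
    refine ⟨⟨?_, ?_⟩, ?_, ?_⟩ <;> linarith

end Pool.Agent.TET
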