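import Pool.Agent.Helper38_TET.TN_C

/-!
# MP_c7c9bf_co: certificates, family TN
-/

set_option autoImplicit false
set_option maxRecDepth 100000

namespace Pool.Agent.TET

theorem TN_rg24 : ROK [.q ⟨-11, 0, -21, 32⟩ ⟨-561, -1414, 343, 1632⟩, .q ⟨-11, 0, -21, 32⟩ ⟨3363, -3579, -5608, 5824⟩, .q ⟨-11, 0, -21, 32⟩ ⟨-1025, 2000, 1937, -2912⟩] := by
  refine rok_w (v := ⟨-11, 0, -21, 32⟩) (q := 1) (by decide) (by decide) (by decide) TN_sc (k := 1) (by decide) (Q := [(-1414, 1414, 51), (-3579, -1786, 182), (2000, 26, -91)])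
    (P := [⟨1566720, -1414, 1414⟩, ⟨5591040, -3579, -1786⟩, ⟨-2795520, 2000, 26⟩]) rfl rfl
    (List.mem_of_getElem? (i := 24) rfl) TN_fr TN_cov ?_
  · intro X Y h
    simp only [List.forall_mem_cons, List.not_mem_nil, false_imp_iff, implies_true, and_true] at h
    push_cast at h ⊢
    obtain ⟨h0, h1, h2⟩ := h
    refine ⟨⟨?_, ?_⟩, ?_, ?_⟩ <;> linarith

theorem TN_rg25 : ROK [.q ⟨-11, 0, -21, 32⟩ ⟨2659, 1397, -3160, -896⟩, .q ⟨-11, 0, -21, 32⟩ ⟨-3409, 3566, 5571, -5728⟩, .q ⟨-11, 0, -21, 32⟩ ⟨-3593, 0, 4777, -1184⟩, .q ⟨-11, 0, -21, 32⟩ ⟨620, -3753, -1955, 5088⟩] := by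
  refine rok_w (v := ⟨-11, 0, -21, 32⟩) (q := 1) (by decide) (by decide) (by decide) TN_sc (k := 1) (by decide) (Q := [(1397, -3748, -28), (3566, 1812, -179), (0, 4000, -37), (-3753, 1384, 159)])
    (P := [⟨-860160, 1397, -3748⟩, ⟨-5498880, 3566, 1812⟩, ⟨-1136640, 0, 4000⟩, ⟨4884480, -3753, 1384⟩]) rfl rfl
    (List.mem_of_getElem? (i := 25) rfl) TN_fr TN_cov ?_
  · intro X Y h
    simp only [List.forall_mem_cons, List.not_mem_nil, false_imp_iff, implies_true, and_true] at h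
    push_cast at h ⊢
    obtain ⟨h0, h1, h2, h3⟩ := h
    refine ⟨⟨?_, ?_⟩, ?_, ?_⟩ <;> linarith

theorem TN_rg26 : ROK [.q ⟨-11, 0, -21, 32⟩ ⟨-2149, 3997, 4008, -5856⟩, .q ⟨-11, 0, -21, 32⟩ ⟨177, -1827, -782, 2432⟩, .q ⟨-11, 0, -21, 32⟩ ⟨3939, -2773, -6158, 4992⟩] := by
  refine rok_w (v := ⟨-11, 0, -21, 32⟩) (q := 1) (by decide) (by decide) (by decide) TN_sc (k := 1) (by decide) (Q := [(3997, 165, -183), (-1827, 814, 76), (-2773, -2882, 156)])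
    (P := [⟨-5621760, 3997, 165⟩, ⟨2334720, -1827, 814⟩, ⟨4792320, -2773, -2882⟩]) rfl rfl
    (List.mem_of_getElem? (i := 26) rfl) TN_fr TN_cov ?_
  · intro X Y h
    simp only [List.forall_mem_cons, List.not_mem_nil, false_imp_iff, implies_true, and_true] at h
    push_cast at h ⊢
    obtain ⟨h0, h1, h2⟩ := h
    refine ⟨⟨?_, ?_⟩, ?_, ?_⟩ <;> linarith

theorem TN_rg27 : ROK [.q ⟨-11, 0, -21, 32⟩ ⟨-3586, 3393, 5793, -5600⟩, .q ⟨-11, 0, -21, 32⟩ ⟨-1489, -2556, 1229, 2816⟩, .q ⟨-11, 0, -21, 32⟩ ⟨2620, -3927, -4709, 6016⟩, .q ⟨-11, 0, -21, 32⟩ ⟨2062, 2032, -2206, -1888⟩] := by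
  refine rok_w (v := ⟨-11, 0, -21, 32⟩) (q := 1) (by decide) (by decide) (by decide) TN_sc (k := 1) (by decide) (Q := [(3393, 2118, -175), (-2556, 3077, 88), (-3927, -761, 188), (2032, -3445, -59)])
    (P := [⟨-5376000, 3393, 2118⟩, ⟨2703360, -2556, 3077⟩, ⟨5775360, -3927, -761⟩, ⟨-1812480, 2032, -3445⟩]) rfl rfl
    (List.mem_of_getElem? (i := 27) rfl) TN_fr TN_cov ?_
  · intro X Y h
    simp only [List.forall_mem_cons, List.not_mem_nil, false_imp_iff, implies_true, and_true] at h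
    push_cast at h ⊢
    obtain ⟨h0, h1, h2, h3⟩ := h
    refine ⟨⟨?_, ?_⟩, ?_, ?_⟩ <;> linarith

theorem TN_rg28 : ROK [.q ⟨-11, 0, -21, 32⟩ ⟨3530, 73, -4755, 1152⟩, .q ⟨-11, 0, -21, 32⟩ ⟨-1767, 3992, 3503, -5728⟩, .q ⟨-11, 0, -21, 32⟩ ⟨-3958, 939, 5547, -2528⟩, .q ⟨-11, 0, -21, 32⟩ ⟨620, -3753, -1955, 5088⟩] := by
  refine rok_w (v := ⟨-11, 0, -21, 32⟩) (q := 1) (by decide) (by decide) (by decide) TN_sc (k := 1) (by decide) (Q := [(73, -3999, 36), (3992, -256, -179), (939, 3888, -79), (-3753, 1384, 159)])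
    (P := [⟨1105920, 73, -3999⟩, ⟨-5498880, 3992, -256⟩, ⟨-2426880, 939, 3888⟩, ⟨4884480, -3753, 1384⟩]) rfl rfl
    (List.mem_of_getElem? (i := 28) rfl) TN_fr TN_cov ?_
  · intro X Y h
    simp only [List.forall_mem_cons, List.not_mem_nil, false_imp_iff, implies_true, and_true] at h
    push_cast at h ⊢
    obtain ⟨h0, h1, h2, h3⟩ := h
    refine ⟨⟨?_, ?_⟩, ?_, ?_⟩ <;> linarith

theorem TN_rg29 : ROK [.q ⟨-11, 0, -21, 32⟩ ⟨-3492, 3141, -7873, 8224⟩, .q ⟨-11, 0, -21, 32⟩ ⟨-1638, 3979, 3291, -5632⟩, .q ⟨-11, 0, -21, 32⟩ ⟨-1769, 0, 2441, -672⟩, .q ⟨-11, 0, -21, 32⟩ ⟨1987, -4000, -3843, 5856⟩] := by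
  refine rok_w (v := ⟨-11, 0, -21, 32⟩) (q := 1) (by decide) (by decide) (by decide) TN_sc (k := 1) (by decide) (Q := [(3141, -2476, 257), (3979, -405, -176), (0, 2000, -21), (-4000, 0, 183)])
    (P := [⟨7895040, 3141, -2476⟩, ⟨-5406720, 3979, -405⟩, ⟨-645120, 0, 2000⟩, ⟨5621760, -4000, 0⟩]) rfl rfl
    (List.mem_of_getElem? (i := 29) rfl) TN_fr TN_cov ?_
  · intro X Y h
    simp only [List.forall_mem_cons, List.not_mem_nil, false_imp_iff, implies_true, and_true] at h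
    push_cast at h ⊢
    obtain ⟨h0, h1, h2, h3⟩ := h
    refine ⟨⟨?_, ?_⟩, ?_, ?_⟩ <;> linarith

theorem TN_rg30 : ROK [.q ⟨-11, 0, -21, 32⟩ ⟨-229, 235, 378, -384⟩, .q ⟨-11, 0, -21, 32⟩ ⟨-1808, -2242, 1906, 2144⟩, .q ⟨-11, 0, -21, 32⟩ ⟨555, -404, -887, 736⟩, .q ⟨-11, 0, -21, 32⟩ ⟨-855, 3816, 2159, -5120⟩] := by
  refine rok_w (v := ⟨-11, 0, -21, 32⟩) (q := 1) (by decide) (by decide) (by decide) TN_sc (k := 1) (by decide) (Q := [(235, 126, -12), (-2242, 3313, 67), (-404, -404, 23), (3816, -1201, -160)])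
    (P := [⟨-368640, 235, 126⟩, ⟨2058240, -2242, 3313⟩, ⟨706560, -404, -404⟩, ⟨-4915200, 3816, -1201⟩]) rfl rfl
    (List.mem_of_getElem? (i := 30) rfl) TN_fr TN_cov ?_
  · intro X Y h
    simp only [List.forall_mem_cons, List.not_mem_nil, false_imp_iff, implies_true, and_true] at h
    push_cast at h ⊢
    obtain ⟨h0, h1, h2, h3⟩ := h
    refine ⟨⟨?_, ?_⟩, ?_, ?_⟩ <;> linarith

theorem TN_rg31 : ROK [.q ⟨-11, 0, -21, 32⟩ ⟨-3125, -693, 4170, -352⟩, .q ⟨-11, 0, -21, 32⟩ ⟨1612, -3979, -3329, 5696⟩, .q ⟨-11, 0, -21, 32⟩ ⟨3461, 0, -5029, 1568⟩, .q ⟨-11, 0, -21, 32⟩ ⟨-2092, 3999, 3949, -5856⟩] := by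
  refine rok_w (v := ⟨-11, 0, -21, 32⟩) (q := 1) (by decide) (by decide) (by decide) TN_sc (k := 1) (by decide) (Q := [(-693, 3939, -11), (-3979, 409, 178), (0, -4000, 49), (3999, 106, -183)])
    (P := [⟨-337920, -693, 3939⟩, ⟨5468160, -3979, 409⟩, ⟨1505280, 0, -4000⟩, ⟨-5621760, 3999, 106⟩]) rfl rfl
    (List.mem_of_getElem? (i := 31) rfl) TN_fr TN_cov ?_
  · intro X Y h
    simp only [List.forall_mem_cons, List.not_mem_nil, false_imp_iff, implies_true, and_true] at h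
    push_cast at h ⊢
    obtain ⟨h0, h1, h2, h3⟩ := h
    refine ⟨⟨?_, ?_⟩, ?_, ?_⟩ <;> linarith

theorem TN_rg32 : ROK [.q ⟨-11, 0, -21, 32⟩ ⟨-2426, 3970, 4376, -5920⟩, .q ⟨-11, 0, -21, 32⟩ ⟨-1156, -2806, 730, 3232⟩, .q ⟨-11, 0, -21, 32⟩ ⟨3884, -2908, -6128, 5152⟩, .q ⟨-11, 0, -21, 32⟩ ⟨1769, 0, -2441, 672⟩] := by
  refine rok_w (v := ⟨-11, 0, -21, 32⟩) (q := 1) (by decide) (by decide) (by decide) TN_sc (k := 1) (by decide) (Q := [(3970, 491, -185), (-2806, 2851, 101), (-2908, -2747, 161), (0, -2000, 21)])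
    (P := [⟨-5683200, 3970, 491⟩, ⟨3102720, -2806, 2851⟩, ⟨4945920, -2908, -2747⟩, ⟨645120, 0, -2000⟩]) rfl rfl
    (List.mem_of_getElem? (i := 32) rfl) TN_fr TN_cov ?_
  · intro X Y h
    simp only [List.forall_mem_cons, List.not_mem_nil, false_imp_iff, implies_true, and_true] at h
    push_cast at h ⊢
    obtain ⟨h0, h1, h2, h3⟩ := h
    refine ⟨⟨?_, ?_⟩, ?_, ?_⟩ <;> linarith

theorem TN_rg33 : ROK [.q ⟨-11, 0, -21, 32⟩ ⟨-1910, 3999, 3671, -5760⟩, .q ⟨-11, 0, -21, 32⟩ ⟨-4057, 2308, 6165, -4416⟩, .q ⟨-11, 0, -21, 32⟩ ⟨1453, -3958, -3095, 5600⟩, .q ⟨-11, 0, -21, 32⟩ ⟨3301, -3586, -5699, 5984⟩] := by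
  refine rok_w (v := ⟨-11, 0, -21, 32⟩) (q := 1) (by decide) (by decide) (by decide) TN_sc (k := 1) (by decide) (Q := [(3999, -109, -180), (2308, 3267, -138), (-3958, 580, 175), (-3586, -1772, 187)])
    (P := [⟨-5529600, 3999, -109⟩, ⟨-4239360, 2308, 3267⟩, ⟨5376000, -3958, 580⟩, ⟨5744640, -3586, -1772⟩]) rfl rfl
    (List.mem_of_getElem? (i := 33) rfl) TN_fr TN_cov ?_
  · intro X Y h
    simp only [List.forall_mem_cons, List.not_mem_nil, false_imp_iff, implies_true, and_true] at h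
    push_cast at h ⊢
    obtain ⟨h0, h1, h2, h3⟩ := h
    refine ⟨⟨?_, ?_⟩, ?_, ?_⟩ <;> linarith

theorem TN_rg34 : ROK [.q ⟨-11, 0, -21, 32⟩ ⟨-283, 202, 433, -352⟩, .q ⟨-11, 0, -21, 32⟩ ⟨2234, -3990, -4164, 5920⟩, .q ⟨-11, 0, -21, 32⟩ ⟨3801, -3048, -6097, 5344⟩, .q ⟨-11, 0, -21, 32⟩ ⟨-2159, 3996, 4019, -5856⟩] := by
  refine rok_w (v := ⟨-11, 0, -21, 32⟩) (q := 1) (by decide) (by decide) (by decide) TN_sc (k := 1) (by decide) (Q := [(202, 202, -11), (-3990, -279, 185), (-3048, -2590, 167), (3996, 176, -183)])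
    (P := [⟨-337920, 202, 202⟩, ⟨5683200, -3990, -279⟩, ⟨5130240, -3048, -2590⟩, ⟨-5621760, 3996, 176⟩]) rfl rfl
    (List.mem_of_getElem? (i := 34) rfl) TN_fr TN_cov ?_
  · intro X Y h
    simp only [List.forall_mem_cons, List.not_mem_nil, false_imp_iff, implies_true, and_true] at h
    push_cast at h ⊢
    obtain ⟨h0, h1, h2, h3⟩ := h
    refine ⟨⟨?_, ?_⟩, ?_, ?_⟩ <;> linarith

theorem TN_rg35 : ROK [.q ⟨-11, 0, -21, 32⟩ ⟨-1028, 2000, 1940, -2912⟩, .q ⟨-11, 0, -21, 32⟩ ⟨-3956, 767, 5333, -2144⟩, .q ⟨-11, 0, -21, 32⟩ ⟨1109, -3892, -2625, 5408⟩, .q ⟨-11, 0, -21, 32⟩ ⟨3353, -3589, -5588, 5824⟩] := by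
  refine rok_w (v := ⟨-11, 0, -21, 32⟩) (q := 1) (by decide) (by decide) (by decide) TN_sc (k := 1) (by decide) (Q := [(2000, 29, -91), (767, 3926, -67), (-3892, 924, 169), (-3589, -1766, 182)])
    (P := [⟨-2795520, 2000, 29⟩, ⟨-2058240, 767, 3926⟩, ⟨5191680, -3892, 924⟩, ⟨5591040, -3589, -1766⟩]) rfl rfl
    (List.mem_of_getElem? (i := 35) rfl) TN_fr TN_cov ?_
  · intro X Y h
    simp only [List.forall_mem_cons, List.not_mem_nil, false_imp_iff, implies_true, and_true] at h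
    push_cast at h ⊢
    obtain ⟨h0, h1, h2, h3⟩ := h
    refine ⟨⟨?_, ?_⟩, ?_, ?_⟩ <;> linarith

theorem TN_rg36 : ROK [.q ⟨-11, 0, -21, 32⟩ ⟨-1019, 2000, 1931, -2912⟩, .q ⟨-11, 0, -21, 32⟩ ⟨-1626, -2443, 1445, 2624⟩, .q ⟨-11, 0, -21, 32⟩ ⟨3769, -3141, -6004, 5376⟩] := by
  refine rok_w (v := ⟨-11, 0, -21, 32⟩) (q := 1) (by decide) (by decide) (by decide) TN_sc (k := 1) (by decide) (Q := [(2000, 20, -91), (-2443, 3167, 82), (-3141, -2476, 168)])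
    (P := [⟨-2795520, 2000, 20⟩, ⟨2519040, -2443, 3167⟩, ⟨5160960, -3141, -2476⟩]) rfl rfl
    (List.mem_of_getElem? (i := 36) rfl) TN_fr TN_cov ?_
  · intro X Y h
    simp only [List.forall_mem_cons, List.not_mem_nil, false_imp_iff, implies_true, and_true] at h
    push_cast at h ⊢
    obtain ⟨h0, h1, h2⟩ := h
    refine ⟨⟨?_, ?_⟩, ?_, ?_⟩ <;> linarith

theorem TN_rg37 : ROK [.q ⟨-11, 0, -21, 32⟩ ⟨1987, -4000, -3843, 5856⟩, .q ⟨-11, 0, -21, 32⟩ ⟨1637, 0, -2693, 1056⟩, .q ⟨-11, 0, -21, 32⟩ ⟨-2057, 4000, 3881, -5824⟩, .q ⟨-11, 0, -21, 32⟩ ⟨-3593, 0, 4777, -1184⟩] := by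
  refine rok_w (v := ⟨-11, 0, -21, 32⟩) (q := 1) (by decide) (by decide) (by decide) TN_sc (k := 1) (by decide) (Q := [(-4000, 0, 183), (0, -2000, 33), (4000, 59, -182), (0, 4000, -37)])
    (P := [⟨5621760, -4000, 0⟩, ⟨1013760, 0, -2000⟩, ⟨-5591040, 4000, 59⟩, ⟨-1136640, 0, 4000⟩]) rfl rfl
    (List.mem_of_getElem? (i := 37) rfl) TN_fr TN_cov ?_
  · intro X Y h
    simp only [List.forall_mem_cons, List.not_mem_nil, false_imp_iff, implies_true, and_true] at h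
    push_cast at h ⊢
    obtain ⟨h0, h1, h2, h3⟩ := h
    refine ⟨⟨?_, ?_⟩, ?_, ?_⟩ <;> linarith

theorem TN_rg38 : ROK [.q ⟨-11, 0, -21, 32⟩ ⟨-2613, 3931, 4666, -5984⟩, .q ⟨-11, 0, -21, 32⟩ ⟨-2668, -1301, 3425, 544⟩, .q ⟨-11, 0, -21, 32⟩ ⟨247, -500, -483, 736⟩, .q ⟨-11, 0, -21, 32⟩ ⟨3502, -75, -5091, 1664⟩] := by
  refine rok_w (v := ⟨-11, 0, -21, 32⟩) (q := 1) (by decide) (by decide) (by decide) TN_sc (k := 1) (by decide) (Q := [(3931, 739, -187), (-1301, 3782, 17), (-500, 0, 23), (-75, -3999, 52)])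
    (P := [⟨-5744640, 3931, 739⟩, ⟨522240, -1301, 3782⟩, ⟨706560, -500, 0⟩, ⟨1597440, -75, -3999⟩]) rfl rfl
    (List.mem_of_getElem? (i := 38) rfl) TN_fr TN_cov ?_
  · intro X Y h
    simp only [List.forall_mem_cons, List.not_mem_nil, false_imp_iff, implies_true, and_true] at h
    push_cast at h ⊢
    obtain ⟨h0, h1, h2, h3⟩ := h
    refine ⟨⟨?_, ?_⟩, ?_, ?_⟩ <;> linarith

theorem TN_rg39 : ROK [.q ⟨-11, 0, -21, 32⟩ ⟨-3868, 2965, 6087, -5184⟩, .q ⟨-11, 0, -21, 32⟩ ⟨-96, -1698, -350, 2144⟩, .q ⟨-11, 0, -21, 32⟩ ⟨1570, -1861, -2685, 2976⟩, .q ⟨-11, 0, -21, 32⟩ ⟨1089, 2828, -749, -3168⟩] := by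
  refine rok_w (v := ⟨-11, 0, -21, 32⟩) (q := 1) (by decide) (by decide) (by decide) TN_sc (k := 1) (by decide) (Q := [(2965, 2685, -162), (-1698, 1057, 67), (-1861, -732, 93), (2828, -2828, -99)])
    (P := [⟨-4976640, 2965, 2685⟩, ⟨2058240, -1698, 1057⟩, ⟨2856960, -1861, -732⟩, ⟨-3041280, 2828, -2828⟩]) rfl rfl
    (List.mem_of_getElem? (i := 39) rfl) TN_fr TN_cov ?_
  · intro X Y h
    simp only [List.forall_mem_cons, List.not_mem_nil, false_imp_iff, implies_true, and_true] at h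
    push_cast at h ⊢
    obtain ⟨h0, h1, h2, h3⟩ := h
    refine ⟨⟨?_, ?_⟩, ?_, ?_⟩ <;> linarith

theorem TN_rg40 : ROK [.q ⟨-11, 0, -21, 32⟩ ⟨708, -1977, -1547, 2816⟩, .q ⟨-11, 0, -21, 32⟩ ⟨4048, -1547, -5957, 3456⟩, .q ⟨-11, 0, -21, 32⟩ ⟨-2362, 3978, 4304, -5920⟩, .q ⟨-11, 0, -21, 32⟩ ⟨-1791, 0, 2399, -608⟩] := by
  refine rok_w (v := ⟨-11, 0, -21, 32⟩) (q := 1) (by decide) (by decide) (by decide) TN_sc (k := 1) (by decide) (Q := [(-1977, 301, 88), (-1547, -3689, 108), (3978, 419, -185), (0, 2000, -19)])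
    (P := [⟨2703360, -1977, 301⟩, ⟨3317760, -1547, -3689⟩, ⟨-5683200, 3978, 419⟩, ⟨-583680, 0, 2000⟩]) rfl rfl
    (List.mem_of_getElem? (i := 40) rfl) TN_fr TN_cov ?_
  · intro X Y h
    simp only [List.forall_mem_cons, List.not_mem_nil, false_imp_iff, implies_true, and_true] at h
    push_cast at h ⊢
    obtain ⟨h0, h1, h2, h3⟩ := h
    refine ⟨⟨?_, ?_⟩, ?_, ?_⟩ <;> linarith

theorem TN_rg41 : ROK [.q ⟨-11, 0, -21, 32⟩ ⟨935, 2828, -1043, -2720⟩, .q ⟨-11, 0, -21, 32⟩ ⟨-3775, 2828, 6419, -5472⟩, .q ⟨-11, 0, -21, 32⟩ ⟨1916, -3999, -3773, 5856⟩] := by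
  refine rok_w (v := ⟨-11, 0, -21, 32⟩) (q := 1) (by decide) (by decide) (by decide) TN_sc (k := 1) (by decide) (Q := [(2828, -2828, -85), (2828, 2828, -171), (-3999, 70, 183)])
    (P := [⟨-2611200, 2828, -2828⟩, ⟨-5253120, 2828, 2828⟩, ⟨5621760, -3999, 70⟩]) rfl rfl
    (List.mem_of_getElem? (i := 41) rfl) TN_fr TN_cov ?_
  · intro X Y h
    simp only [List.forall_mem_cons, List.not_mem_nil, false_imp_iff, implies_true, and_true] at h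
    push_cast at h ⊢
    obtain ⟨h0, h1, h2⟩ := h
    refine ⟨⟨?_, ?_⟩, ?_, ?_⟩ <;> linarith

theorem TN_rg42 : ROK [.q ⟨-11, 0, -21, 32⟩ ⟨886, -3831, -2271, 5216⟩, .q ⟨-11, 0, -21, 32⟩ ⟨963, -707, -1568, 1312⟩, .q ⟨-11, 0, -21, 32⟩ ⟨-1576, 3973, 3235, -5632⟩, .q ⟨-11, 0, -21, 32⟩ ⟨-4049, 1267, 5726, -2944⟩] := by
  refine rok_w (v := ⟨-11, 0, -21, 32⟩) (q := 1) (by decide) (by decide) (by decide) TN_sc (k := 1) (by decide) (Q := [(-3831, 1152, 163), (-707, -707, 41), (3973, -461, -176), (1267, 3794, -92)])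
    (P := [⟨5007360, -3831, 1152⟩, ⟨1259520, -707, -707⟩, ⟨-5406720, 3973, -461⟩, ⟨-2826240, 1267, 3794⟩]) rfl rfl
    (List.mem_of_getElem? (i := 42) rfl) TN_fr TN_cov ?_
  · intro X Y h
    simp only [List.forall_mem_cons, List.not_mem_nil, false_imp_iff, implies_true, and_true] at h
    push_cast at h ⊢
    obtain ⟨h0, h1, h2, h3⟩ := h
    refine ⟨⟨?_, ?_⟩, ?_, ?_⟩ <;> linarith

theorem TN_rg43 : ROK [.q ⟨-11, 0, -21, 32⟩ ⟨787, 2944, -755, -2976⟩, .q ⟨-11, 0, -21, 32⟩ ⟨-3576, 523, 5709, -2656⟩, .q ⟨-11, 0, -21, 32⟩ ⟨-242, -707, 245, 704⟩, .q ⟨-11, 0, -21, 32⟩ ⟨3731, -2875, -6456, 5600⟩] := by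
  refine rok_w (v := ⟨-11, 0, -21, 32⟩) (q := 1) (by decide) (by decide) (by decide) TN_sc (k := 1) (by decide) (Q := [(2944, -2708, -93), (523, 3966, -83), (-707, 707, 22), (-2875, -2781, 175)])
    (P := [⟨-2856960, 2944, -2708⟩, ⟨-2549760, 523, 3966⟩, ⟨675840, -707, 707⟩, ⟨5376000, -2875, -2781⟩]) rfl rfl
    (List.mem_of_getElem? (i := 43) rfl) TN_fr TN_cov ?_
  · intro X Y h
    simp only [List.forall_mem_cons, List.not_mem_nil, false_imp_iff, implies_true, and_true] at h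
    push_cast at h ⊢
    obtain ⟨h0, h1, h2, h3⟩ := h
    refine ⟨⟨?_, ?_⟩, ?_, ?_⟩ <;> linarith

theorem TN_rg44 : ROK [.q ⟨-11, 0, -21, 32⟩ ⟨-143, -404, 131, 416⟩, .q ⟨-11, 0, -21, 32⟩ ⟨1600, -3977, -3287, 5664⟩, .q ⟨-11, 0, -21, 32⟩ ⟨979, 2828, -959, -2848⟩, .q ⟨-11, 0, -21, 32⟩ ⟨-943, 3834, 2197, -5088⟩] := by
  refine rok_w (v := ⟨-11, 0, -21, 32⟩) (q := 1) (by decide) (by decide) (by decide) TN_sc (k := 1) (by decide) (Q := [(-404, 404, 13), (-3977, 430, 177), (2828, -2828, -89), (3834, -1142, -159)])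
    (P := [⟨399360, -404, 404⟩, ⟨5437440, -3977, 430⟩, ⟨-2734080, 2828, -2828⟩, ⟨-4884480, 3834, -1142⟩]) rfl rfl
    (List.mem_of_getElem? (i := 44) rfl) TN_fr TN_cov ?_
  · intro X Y h
    simp only [List.forall_mem_cons, List.not_mem_nil, false_imp_iff, implies_true, and_true] at h
    push_cast at h ⊢
    obtain ⟨h0, h1, h2, h3⟩ := h
    refine ⟨⟨?_, ?_⟩, ?_, ?_⟩ <;> linarith

end Pool.Agent.TET
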