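import Pool.Agent.Helper38_TET.TN_M
import Pool.Agent.Helper38_TET.TN_L
import Pool.Agent.Helper38_TET.TN_0
import Pool.Agent.Helper38_TET.TN_1
import Pool.Agent.Helper38_TET.TN_2
import Pool.Agent.Helper38_TET.TN_11

/-!
# MP_c7c9bf_co: certificates, family TN
-/

set_option autoImplicit false
set_option maxRecDepth 100000

namespace Pool.Agent.TET

theorem TN_u0 : CovZ TN_M (toL (selN TN_LN 6318429503486)) [0, 7, 4, 3] (1408, 320) (1392, 304) (1408, 288) :=
    (CovZ.n2 (1408, 304) (by decide +kernel)
     (CovZ.n2 (1400, 296) (by decide +kernel)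
      (CovZ.n2 (1400, 304) (by decide +kernel)
       (CovZ.n2 (1404, 300) (by decide +kernel)
        (CovZ.n2 (1400, 300) (by decide +kernel)
         (CovZ.n2 (1402, 302) (by decide +kernel)
          (CovZ.leaf K3_ok TN_l141 _)
          (CovZ.leaf K3_ok TN_l142 _))
         (CovZ.n1 (1402, 298) (by decide +kernel)
          (CovZ.leaf K3_ok TN_l143 _)
          (CovZ.n1 (1402, 300) (by decide +kernel)
           (CovZ.leaf K3_ok TN_l144 _)
           (CovZ.leaf K3_ok TN_l145 _))))
        (CovZ.n1 (1404, 304) (by decide +kernel)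
         (CovZ.n2 (1406, 302) (by decide +kernel)
          (CovZ.leaf K3_ok TN_l146 _)
          (CovZ.n1 (1406, 304) (by decide +kernel)
           (CovZ.leaf K3_ok TN_l147 _)
           (CovZ.leaf K3_ok TN_l148 _)))
         (CovZ.n1 (1402, 302) (by decide +kernel)
          (CovZ.n2 (1402, 304) (by decide +kernel)
           (CovZ.leaf K3_ok TN_l149 _)
           (CovZ.leaf K3_ok TN_l150 _))
          (CovZ.n1 (1404, 302) (by decide +kernel)
           (CovZ.leaf K3_ok TN_l151 _)
           (CovZ.leaf K3_ok TN_l152 _)))))
       (CovZ.n1 (1396, 300) (by decide +kernel)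
        (CovZ.n2 (1396, 304) (by decide +kernel)
         (CovZ.n2 (1398, 302) (by decide +kernel)
          (CovZ.leaf K3_ok TN_l153 _)
          (CovZ.leaf K3_ok TN_l154 _))
         (CovZ.n1 (1394, 302) (by decide +kernel)
          (CovZ.leaf K3_ok TN_l155 _)
          (CovZ.leaf K3_ok TN_l156 _)))
        (CovZ.n1 (1400, 300) (by decide +kernel)
         (CovZ.n2 (1398, 298) (by decide +kernel)
          (CovZ.leaf K3_ok TN_l157 _)
          (CovZ.leaf K3_ok TN_l158 _))
         (CovZ.n1 (1398, 302) (by decide +kernel)
          (CovZ.leaf K3_ok TN_l159 _)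
          (CovZ.leaf K3_ok TN_l160 _)))))
      (CovZ.n1 (1408, 296) (by decide +kernel)
       (CovZ.n2 (1404, 292) (by decide +kernel)
        (CovZ.n2 (1404, 296) (by decide +kernel)
         (CovZ.n2 (1406, 294) (by decide +kernel)
          (CovZ.leaf K3_ok TN_l161 _)
          (CovZ.leaf K3_ok TN_l162 _))
         (CovZ.n1 (1402, 294) (by decide +kernel)
          (CovZ.n2 (1402, 296) (by decide +kernel)
           (CovZ.leaf K3_ok TN_l163 _)
           (CovZ.leaf K3_ok TN_l164 _))
          (CovZ.leaf K3_ok TN_l165 _)))
        (CovZ.n1 (1408, 292) (by decide +kernel)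
         (CovZ.subM 1306183266734 (by decide +kernel)
          (CovZ.n2 (1406, 290) (by decide +kernel)
           (CovZ.n2 (1406, 292) (by decide +kernel)
            (CovZ.leaf K3_ok TN_l166 _)
            (CovZ.leaf K3_ok TN_l167 _))
           (CovZ.n1 (1408, 290) (by decide +kernel)
            (CovZ.leaf K3_ok TN_l168 _)
            (CovZ.leaf K3_ok TN_l169 _))))
         (CovZ.n1 (1406, 294) (by decide +kernel)
          (CovZ.n2 (1408, 294) (by decide +kernel)
           (CovZ.leaf K3_ok TN_l170 _)
           (CovZ.leaf K3_ok TN_l171 _))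
          (CovZ.leaf K3_ok TN_l172 _))))
       (CovZ.n1 (1404, 300) (by decide +kernel)
        (CovZ.n2 (1408, 300) (by decide +kernel)
         (CovZ.n2 (1406, 298) (by decide +kernel)
          (CovZ.leaf K3_ok TN_l173 _)
          (CovZ.n1 (1408, 298) (by decide +kernel)
           (CovZ.leaf K3_ok TN_l174 _)
           (CovZ.leaf K3_ok TN_l175 _)))
         (CovZ.n1 (1406, 302) (by decide +kernel)
          (CovZ.n2 (1408, 302) (by decide +kernel)
           (CovZ.leaf K3_ok TN_l176 _)
           (CovZ.leaf K3_ok TN_l177 _))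
          (CovZ.leaf K3_ok TN_l178 _)))
        (CovZ.n1 (1404, 296) (by decide +kernel)
         (CovZ.n2 (1402, 298) (by decide +kernel)
          (CovZ.leaf K3_ok TN_l179 _)
          (CovZ.leaf K3_ok TN_l180 _))
         (CovZ.n1 (1406, 298) (by decide +kernel)
          (CovZ.leaf K3_ok TN_l181 _)
          (CovZ.leaf K3_ok TN_l182 _))))))
     (CovZ.n1 (1400, 312) (by decide +kernel)
      (CovZ.n2 (1408, 312) (by decide +kernel)
       (CovZ.n2 (1404, 308) (by decide +kernel)
        (CovZ.n2 (1404, 312) (by decide +kernel)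
         (CovZ.n2 (1406, 310) (by decide +kernel)
          (CovZ.leaf K3_ok TN_l183 _)
          (CovZ.n1 (1406, 312) (by decide +kernel)
           (CovZ.leaf K3_ok TN_l184 _)
           (CovZ.leaf K3_ok TN_l185 _)))
         (CovZ.n1 (1402, 310) (by decide +kernel)
          (CovZ.leaf K3_ok TN_l186 _)
          (CovZ.leaf K3_ok TN_l187 _)))
        (CovZ.n1 (1408, 308) (by decide +kernel)
         (CovZ.n2 (1406, 306) (by decide +kernel)
          (CovZ.n2 (1406, 308) (by decide +kernel)
           (CovZ.leaf K3_ok TN_l188 _)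
           (CovZ.leaf K3_ok TN_l189 _))
          (CovZ.n1 (1408, 306) (by decide +kernel)
           (CovZ.leaf K3_ok TN_l190 _)
           (CovZ.leaf K3_ok TN_l191 _)))
         (CovZ.n1 (1406, 310) (by decide +kernel)
          (CovZ.n2 (1408, 310) (by decide +kernel)
           (CovZ.leaf K3_ok TN_l192 _)
           (CovZ.leaf K3_ok TN_l193 _))
          (CovZ.leaf K3_ok TN_l194 _))))
       (CovZ.n1 (1404, 316) (by decide +kernel)
        (CovZ.subM 695803615522 (by decide +kernel)
         (CovZ.n2 (1408, 316) (by decide +kernel)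
          (CovZ.n2 (1406, 314) (by decide +kernel)
           (CovZ.n2 (1406, 316) (by decide +kernel)
            (CovZ.leaf K3_ok TN_l1560 _)
            (CovZ.leaf K3_ok TN_l195 _))
           (CovZ.n1 (1408, 314) (by decide +kernel)
            (CovZ.leaf K3_ok TN_l1561 _)
            (CovZ.leaf K3_ok TN_l1562 _)))
          (CovZ.n1 (1406, 318) (by decide +kernel)
           (CovZ.n2 (1408, 318) (by decide +kernel)
            (CovZ.leaf K3_ok TN_l1563 _)
            (CovZ.leaf K3_ok TN_l1564 _))
           (CovZ.leaf K3_ok TN_l196 _))))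
        (CovZ.n1 (1404, 312) (by decide +kernel)
         (CovZ.n2 (1402, 314) (by decide +kernel)
          (CovZ.leaf K3_ok TN_l197 _)
          (CovZ.leaf K3_ok TN_l198 _))
         (CovZ.n1 (1406, 314) (by decide +kernel)
          (CovZ.leaf K3_ok TN_l199 _)
          (CovZ.leaf K3_ok TN_l200 _)))))
      (CovZ.n1 (1400, 304) (by decide +kernel)
       (CovZ.n2 (1396, 308) (by decide +kernel)
        (CovZ.n2 (1400, 308) (by decide +kernel)
         (CovZ.n2 (1398, 306) (by decide +kernel)
          (CovZ.leaf K3_ok TN_l201 _)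
          (CovZ.leaf K3_ok TN_l202 _))
         (CovZ.n1 (1398, 310) (by decide +kernel)
          (CovZ.leaf K3_ok TN_l203 _)
          (CovZ.leaf K3_ok TN_l204 _)))
        (CovZ.n1 (1396, 304) (by decide +kernel)
         (CovZ.n2 (1394, 306) (by decide +kernel)
          (CovZ.leaf K3_ok TN_l205 _)
          (CovZ.leaf K3_ok TN_l206 _))
         (CovZ.n1 (1398, 306) (by decide +kernel)
          (CovZ.leaf K3_ok TN_l207 _)
          (CovZ.leaf K3_ok TN_l208 _))))
       (CovZ.n1 (1404, 308) (by decide +kernel)
        (CovZ.n2 (1404, 304) (by decide +kernel)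
         (CovZ.n2 (1402, 306) (by decide +kernel)
          (CovZ.n2 (1404, 306) (by decide +kernel)
           (CovZ.leaf K3_ok TN_l209 _)
           (CovZ.leaf K3_ok TN_l210 _))
          (CovZ.leaf K3_ok TN_l211 _))
         (CovZ.n1 (1406, 306) (by decide +kernel)
          (CovZ.leaf K3_ok TN_l212 _)
          (CovZ.leaf K3_ok TN_l213 _)))
        (CovZ.n1 (1400, 308) (by decide +kernel)
         (CovZ.n2 (1402, 310) (by decide +kernel)
          (CovZ.leaf K3_ok TN_l214 _)
          (CovZ.leaf K3_ok TN_l215 _))
         (CovZ.n1 (1402, 306) (by decide +kernel)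
          (CovZ.leaf K3_ok TN_l216 _)
          (CovZ.leaf K3_ok TN_l217 _)))))))

theorem TN_u1 : CovZ TN_M (toL (selN TN_LN 6318429503486)) [0, 7, 4, 3] (1392, 304) (1376, 288) (1408, 288) :=
    (CovZ.n1 (1392, 288) (by decide +kernel)
     (CovZ.subM 33554944 (by decide +kernel)
      (CovZ.n2 (1384, 296) (by decide +kernel)
       (CovZ.n2 (1392, 296) (by decide +kernel)
        (CovZ.n2 (1388, 292) (by decide +kernel)
         (CovZ.badM (by decide +kernel))
         (CovZ.n1 (1392, 292) (by decide +kernel)
          (CovZ.badM (by decide +kernel))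
          (CovZ.badM (by decide +kernel))))
        (CovZ.badM (by decide +kernel)))
       (CovZ.badM (by decide +kernel))))
     (CovZ.n1 (1400, 296) (by decide +kernel)
      (CovZ.n2 (1400, 288) (by decide +kernel)
       (CovZ.n2 (1396, 292) (by decide +kernel)
        (CovZ.n2 (1400, 292) (by decide +kernel)
         (CovZ.n2 (1398, 290) (by decide +kernel)
          (CovZ.leaf K3_ok TN_l218 _)
          (CovZ.leaf K3_ok TN_l219 _))
         (CovZ.n1 (1398, 294) (by decide +kernel)
          (CovZ.leaf K3_ok TN_l220 _)
          (CovZ.leaf K3_ok TN_l221 _)))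
        (CovZ.subM 5759946642722 (by decide +kernel)
         (CovZ.n1 (1396, 288) (by decide +kernel)
          (CovZ.n2 (1394, 290) (by decide +kernel)
           (CovZ.leaf K3_ok TN_l222 _)
           (CovZ.leaf K3_ok TN_l223 _))
          (CovZ.n1 (1398, 290) (by decide +kernel)
           (CovZ.leaf K3_ok TN_l224 _)
           (CovZ.leaf K3_ok TN_l225 _)))))
       (CovZ.n1 (1404, 292) (by decide +kernel)
        (CovZ.n2 (1404, 288) (by decide +kernel)
         (CovZ.n2 (1402, 290) (by decide +kernel)
          (CovZ.n2 (1404, 290) (by decide +kernel)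
           (CovZ.leaf K3_ok TN_l226 _)
           (CovZ.leaf K3_ok TN_l227 _))
          (CovZ.leaf K3_ok TN_l228 _))
         (CovZ.n1 (1406, 290) (by decide +kernel)
          (CovZ.leaf K3_ok TN_l229 _)
          (CovZ.leaf K3_ok TN_l230 _)))
        (CovZ.n1 (1400, 292) (by decide +kernel)
         (CovZ.n2 (1402, 294) (by decide +kernel)
          (CovZ.leaf K3_ok TN_l231 _)
          (CovZ.leaf K3_ok TN_l232 _))
         (CovZ.n1 (1402, 290) (by decide +kernel)
          (CovZ.leaf K3_ok TN_l233 _)
          (CovZ.n1 (1402, 292) (by decide +kernel)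
           (CovZ.leaf K3_ok TN_l234 _)
           (CovZ.leaf K3_ok TN_l235 _))))))
      (CovZ.n1 (1392, 296) (by decide +kernel)
       (CovZ.n2 (1396, 300) (by decide +kernel)
        (CovZ.n2 (1396, 296) (by decide +kernel)
         (CovZ.n2 (1394, 298) (by decide +kernel)
          (CovZ.leaf K3_ok TN_l236 _)
          (CovZ.leaf K3_ok TN_l237 _))
         (CovZ.n1 (1398, 298) (by decide +kernel)
          (CovZ.leaf K3_ok TN_l238 _)
          (CovZ.leaf K3_ok TN_l239 _)))
        (CovZ.n1 (1392, 300) (by decide +kernel)
         (CovZ.n2 (1394, 302) (by decide +kernel)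
          (CovZ.leaf K3_ok TN_l240 _)
          (CovZ.n1 (1392, 302) (by decide +kernel)
           (CovZ.leaf K3_ok TN_l241 _)
           (CovZ.leaf K3_ok TN_l242 _)))
         (CovZ.n1 (1394, 298) (by decide +kernel)
          (CovZ.n2 (1392, 298) (by decide +kernel)
           (CovZ.leaf K3_ok TN_l243 _)
           (CovZ.leaf K3_ok TN_l244 _))
          (CovZ.leaf K3_ok TN_l245 _))))
       (CovZ.n1 (1396, 292) (by decide +kernel)
        (CovZ.subM 4660166581282 (by decide +kernel)
         (CovZ.n2 (1392, 292) (by decide +kernel)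
          (CovZ.n2 (1394, 294) (by decide +kernel)
           (CovZ.leaf K3_ok TN_l246 _)
           (CovZ.leaf K3_ok TN_l247 _))
          (CovZ.n1 (1394, 290) (by decide +kernel)
           (CovZ.n2 (1392, 290) (by decide +kernel)
            (CovZ.leaf K3_ok TN_l248 _)
            (CovZ.leaf K3_ok TN_l249 _))
           (CovZ.leaf K3_ok TN_l250 _))))
        (CovZ.n1 (1396, 296) (by decide +kernel)
         (CovZ.n2 (1398, 294) (by decide +kernel)
          (CovZ.leaf K3_ok TN_l251 _)
          (CovZ.leaf K3_ok TN_l252 _))
         (CovZ.n1 (1394, 294) (by decide +kernel)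
          (CovZ.leaf K3_ok TN_l253 _)
          (CovZ.leaf K3_ok TN_l254 _)))))))

theorem TN_u2 : CovZ TN_M (toL (selN TN_LN 6596633550710)) [0, 7, 4, 3] (1408, 352) (1392, 336) (1408, 320) :=
    (CovZ.subM 5424029997346 (by decide +kernel)
     (CovZ.n2 (1408, 336) (by decide +kernel)
      (CovZ.n2 (1400, 328) (by decide +kernel)
       (CovZ.n2 (1400, 336) (by decide +kernel)
        (CovZ.subM 4565015498786 (by decide +kernel)
         (CovZ.n2 (1404, 332) (by decide +kernel)
          (CovZ.n2 (1400, 332) (by decide +kernel)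
           (CovZ.n2 (1402, 334) (by decide +kernel)
            (CovZ.leaf K3_ok TN_l294 _)
            (CovZ.leaf K3_ok TN_l295 _))
           (CovZ.n1 (1402, 330) (by decide +kernel)
            (CovZ.leaf K3_ok TN_l296 _)
            (CovZ.leaf K3_ok TN_l297 _)))
          (CovZ.n1 (1404, 336) (by decide +kernel)
           (CovZ.n2 (1406, 334) (by decide +kernel)
            (CovZ.leaf K3_ok TN_l298 _)
            (CovZ.n1 (1406, 336) (by decide +kernel)
             (CovZ.leaf K3_ok TN_l299 _)
             (CovZ.leaf K3_ok TN_l300 _)))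
           (CovZ.n1 (1402, 334) (by decide +kernel)
            (CovZ.leaf K3_ok TN_l301 _)
            (CovZ.leaf K3_ok TN_l302 _)))))
        (CovZ.n1 (1396, 332) (by decide +kernel)
         (CovZ.n2 (1396, 336) (by decide +kernel)
          (CovZ.n2 (1398, 334) (by decide +kernel)
           (CovZ.leaf K3_ok TN_l303 _)
           (CovZ.leaf K3_ok TN_l304 _))
          (CovZ.n1 (1394, 334) (by decide +kernel)
           (CovZ.leaf K3_ok TN_l305 _)
           (CovZ.leaf K3_ok TN_l306 _)))
         (CovZ.n1 (1400, 332) (by decide +kernel)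
          (CovZ.n2 (1398, 330) (by decide +kernel)
           (CovZ.leaf K3_ok TN_l307 _)
           (CovZ.leaf K3_ok TN_l308 _))
          (CovZ.n1 (1398, 334) (by decide +kernel)
           (CovZ.leaf K3_ok TN_l309 _)
           (CovZ.leaf K3_ok TN_l310 _)))))
       (CovZ.n1 (1408, 328) (by decide +kernel)
        (CovZ.n2 (1404, 324) (by decide +kernel)
         (CovZ.n2 (1404, 328) (by decide +kernel)
          (CovZ.n2 (1406, 326) (by decide +kernel)
           (CovZ.n2 (1404, 326) (by decide +kernel)
            (CovZ.leaf K3_ok TN_l311 _)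
            (CovZ.leaf K3_ok TN_l312 _))
           (CovZ.leaf K3_ok TN_l313 _))
          (CovZ.n1 (1402, 326) (by decide +kernel)
           (CovZ.leaf K3_ok TN_l314 _)
           (CovZ.leaf K3_ok TN_l315 _)))
         (CovZ.subM 5094370218016 (by decide +kernel)
          (CovZ.n1 (1408, 324) (by decide +kernel)
           (CovZ.n2 (1406, 322) (by decide +kernel)
            (CovZ.leaf K3_ok TN_l316 _)
            (CovZ.n1 (1408, 322) (by decide +kernel)
             (CovZ.leaf K3_ok TN_l317 _)
             (CovZ.leaf K3_ok TN_l318 _)))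
           (CovZ.n1 (1406, 326) (by decide +kernel)
            (CovZ.n2 (1408, 326) (by decide +kernel)
             (CovZ.leaf K3_ok TN_l319 _)
             (CovZ.leaf K3_ok TN_l320 _))
            (CovZ.leaf K3_ok TN_l321 _)))))
        (CovZ.n1 (1404, 332) (by decide +kernel)
         (CovZ.subM 5097591443488 (by decide +kernel)
          (CovZ.n2 (1408, 332) (by decide +kernel)
           (CovZ.n2 (1406, 330) (by decide +kernel)
            (CovZ.leaf K3_ok TN_l322 _)
            (CovZ.leaf K3_ok TN_l323 _))
           (CovZ.n1 (1406, 334) (by decide +kernel)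
            (CovZ.leaf K3_ok TN_l324 _)
            (CovZ.leaf K3_ok TN_l325 _))))
         (CovZ.subM 5112623829026 (by decide +kernel)
          (CovZ.n1 (1404, 328) (by decide +kernel)
           (CovZ.n2 (1402, 330) (by decide +kernel)
            (CovZ.leaf K3_ok TN_l326 _)
            (CovZ.leaf K3_ok TN_l327 _))
           (CovZ.n1 (1406, 330) (by decide +kernel)
            (CovZ.leaf K3_ok TN_l328 _)
            (CovZ.leaf K3_ok TN_l329 _)))))))
      (CovZ.n1 (1400, 344) (by decide +kernel)
       (CovZ.n2 (1408, 344) (by decide +kernel)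
        (CovZ.subM 4822717730848 (by decide +kernel)
         (CovZ.n2 (1404, 340) (by decide +kernel)
          (CovZ.n2 (1404, 344) (by decide +kernel)
           (CovZ.n2 (1406, 342) (by decide +kernel)
            (CovZ.leaf K3_ok TN_l330 _)
            (CovZ.leaf K3_ok TN_l331 _))
           (CovZ.n1 (1402, 342) (by decide +kernel)
            (CovZ.leaf K3_ok TN_l332 _)
            (CovZ.leaf K3_ok TN_l333 _)))
          (CovZ.n1 (1408, 340) (by decide +kernel)
           (CovZ.n2 (1406, 338) (by decide +kernel)
            (CovZ.n2 (1406, 340) (by decide +kernel)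
             (CovZ.leaf K3_ok TN_l334 _)
             (CovZ.leaf K3_ok TN_l335 _))
            (CovZ.leaf K3_ok TN_l336 _))
           (CovZ.n1 (1406, 342) (by decide +kernel)
            (CovZ.leaf K3_ok TN_l337 _)
            (CovZ.leaf K3_ok TN_l338 _)))))
        (CovZ.n1 (1404, 348) (by decide +kernel)
         (CovZ.subM 4821644054560 (by decide +kernel)
          (CovZ.n2 (1408, 348) (by decide +kernel)
           (CovZ.n2 (1406, 346) (by decide +kernel)
            (CovZ.leaf K3_ok TN_l339 _)
            (CovZ.leaf K3_ok TN_l340 _))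
           (CovZ.n1 (1406, 350) (by decide +kernel)
            (CovZ.leaf K3_ok TN_l341 _)
            (CovZ.leaf K3_ok TN_l342 _))))
         (CovZ.subM 4822717730848 (by decide +kernel)
          (CovZ.n1 (1404, 344) (by decide +kernel)
           (CovZ.n2 (1402, 346) (by decide +kernel)
            (CovZ.leaf K3_ok TN_l343 _)
            (CovZ.leaf K3_ok TN_l344 _))
           (CovZ.n1 (1406, 346) (by decide +kernel)
            (CovZ.leaf K3_ok TN_l345 _)
            (CovZ.leaf K3_ok TN_l346 _))))))
       (CovZ.n1 (1400, 336) (by decide +kernel)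
        (CovZ.n2 (1396, 340) (by decide +kernel)
         (CovZ.n2 (1400, 340) (by decide +kernel)
          (CovZ.n2 (1398, 338) (by decide +kernel)
           (CovZ.leaf K3_ok TN_l347 _)
           (CovZ.leaf K3_ok TN_l348 _))
          (CovZ.n1 (1398, 342) (by decide +kernel)
           (CovZ.leaf K3_ok TN_l349 _)
           (CovZ.leaf K3_ok TN_l350 _)))
         (CovZ.n1 (1396, 336) (by decide +kernel)
          (CovZ.n2 (1394, 338) (by decide +kernel)
           (CovZ.leaf K3_ok TN_l351 _)
           (CovZ.leaf K3_ok TN_l352 _))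
          (CovZ.n1 (1398, 338) (by decide +kernel)
           (CovZ.leaf K3_ok TN_l353 _)
           (CovZ.leaf K3_ok TN_l354 _))))
        (CovZ.n1 (1404, 340) (by decide +kernel)
         (CovZ.subM 4547839823906 (by decide +kernel)
          (CovZ.n2 (1404, 336) (by decide +kernel)
           (CovZ.n2 (1402, 338) (by decide +kernel)
            (CovZ.leaf K3_ok TN_l355 _)
            (CovZ.leaf K3_ok TN_l356 _))
           (CovZ.n1 (1406, 338) (by decide +kernel)
            (CovZ.leaf K3_ok TN_l357 _)
            (CovZ.leaf K3_ok TN_l358 _))))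
         (CovZ.n1 (1400, 340) (by decide +kernel)
          (CovZ.n2 (1402, 342) (by decide +kernel)
           (CovZ.leaf K3_ok TN_l359 _)
           (CovZ.leaf K3_ok TN_l360 _))
          (CovZ.n1 (1402, 338) (by decide +kernel)
           (CovZ.leaf K3_ok TN_l361 _)
           (CovZ.leaf K3_ok TN_l362 _))))))))

theorem TN_u3 : CovZ TN_M (toL (selN TN_LN 6596633550710)) [0, 7, 4, 3] (1392, 336) (1376, 320) (1408, 320) :=
    (CovZ.n1 (1392, 320) (by decide +kernel)
     (CovZ.subM 14495516676 (by decide +kernel)
      (CovZ.n2 (1384, 328) (by decide +kernel)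
       (CovZ.n2 (1392, 328) (by decide +kernel)
        (CovZ.n2 (1388, 324) (by decide +kernel)
         (CovZ.subM 8589934592 (by decide +kernel)
          (CovZ.n2 (1388, 328) (by decide +kernel)
           (CovZ.n2 (1390, 326) (by decide +kernel)
            (CovZ.badM (by decide +kernel))
            (CovZ.n1 (1390, 328) (by decide +kernel)
             (CovZ.leaf K3_ok TN_l363 _)
             (CovZ.badM (by decide +kernel))))
           (CovZ.badM (by decide +kernel))))
         (CovZ.n1 (1392, 324) (by decide +kernel)
          (CovZ.n2 (1390, 322) (by decide +kernel)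
           (CovZ.n2 (1390, 324) (by decide +kernel)
            (CovZ.leaf K3_ok TN_l364 _)
            (CovZ.badM (by decide +kernel)))
           (CovZ.n1 (1392, 322) (by decide +kernel)
            (CovZ.leaf K3_ok TN_l365 _)
            (CovZ.leaf K3_ok TN_l366 _)))
          (CovZ.n1 (1390, 326) (by decide +kernel)
           (CovZ.n2 (1392, 326) (by decide +kernel)
            (CovZ.leaf K3_ok TN_l367 _)
            (CovZ.leaf K3_ok TN_l368 _))
           (CovZ.leaf K3_ok TN_l369 _))))
        (CovZ.subM 9663676416 (by decide +kernel)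
         (CovZ.n1 (1388, 332) (by decide +kernel)
          (CovZ.n2 (1392, 332) (by decide +kernel)
           (CovZ.n2 (1390, 330) (by decide +kernel)
            (CovZ.n2 (1390, 332) (by decide +kernel)
             (CovZ.leaf K3_ok TN_l370 _)
             (CovZ.badM (by decide +kernel)))
            (CovZ.n1 (1392, 330) (by decide +kernel)
             (CovZ.leaf K3_ok TN_l371 _)
             (CovZ.leaf K3_ok TN_l372 _)))
           (CovZ.n1 (1390, 334) (by decide +kernel)
            (CovZ.n2 (1392, 334) (by decide +kernel)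
             (CovZ.leaf K3_ok TN_l373 _)
             (CovZ.leaf K3_ok TN_l374 _))
            (CovZ.n1 (1390, 332) (by decide +kernel)
             (CovZ.badM (by decide +kernel))
             (CovZ.leaf K3_ok TN_l375 _))))
          (CovZ.n1 (1388, 328) (by decide +kernel)
           (CovZ.badM (by decide +kernel))
           (CovZ.n1 (1390, 330) (by decide +kernel)
            (CovZ.n2 (1390, 328) (by decide +kernel)
             (CovZ.badM (by decide +kernel))
             (CovZ.leaf K3_ok TN_l376 _))
            (CovZ.badM (by decide +kernel)))))))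
       (CovZ.subM 13421772800 (by decide +kernel)
        (CovZ.n1 (1384, 320) (by decide +kernel)
         (CovZ.badM (by decide +kernel))
         (CovZ.n1 (1388, 324) (by decide +kernel)
          (CovZ.n2 (1388, 320) (by decide +kernel)
           (CovZ.badM (by decide +kernel))
           (CovZ.n1 (1390, 322) (by decide +kernel)
            (CovZ.leaf K3_ok TN_l377 _)
            (CovZ.badM (by decide +kernel))))
          (CovZ.badM (by decide +kernel)))))))
     (CovZ.n1 (1400, 328) (by decide +kernel)
      (CovZ.n2 (1400, 320) (by decide +kernel)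
       (CovZ.n2 (1396, 324) (by decide +kernel)
        (CovZ.subM 5147000346674 (by decide +kernel)
         (CovZ.n2 (1400, 324) (by decide +kernel)
          (CovZ.n2 (1398, 322) (by decide +kernel)
           (CovZ.leaf K3_ok TN_l378 _)
           (CovZ.leaf K3_ok TN_l379 _))
          (CovZ.n1 (1398, 326) (by decide +kernel)
           (CovZ.leaf K3_ok TN_l380 _)
           (CovZ.leaf K3_ok TN_l381 _))))
        (CovZ.n1 (1396, 320) (by decide +kernel)
         (CovZ.n2 (1394, 322) (by decide +kernel)
          (CovZ.leaf K3_ok TN_l382 _)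
          (CovZ.leaf K3_ok TN_l383 _))
         (CovZ.n1 (1398, 322) (by decide +kernel)
          (CovZ.leaf K3_ok TN_l384 _)
          (CovZ.leaf K3_ok TN_l385 _))))
       (CovZ.subM 5147000346930 (by decide +kernel)
        (CovZ.n1 (1404, 324) (by decide +kernel)
         (CovZ.n2 (1404, 320) (by decide +kernel)
          (CovZ.n2 (1402, 322) (by decide +kernel)
           (CovZ.leaf K3_ok TN_l386 _)
           (CovZ.leaf K3_ok TN_l387 _))
          (CovZ.n1 (1406, 322) (by decide +kernel)
           (CovZ.leaf K3_ok TN_l388 _)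
           (CovZ.leaf K3_ok TN_l389 _)))
         (CovZ.n1 (1400, 324) (by decide +kernel)
          (CovZ.n2 (1402, 326) (by decide +kernel)
           (CovZ.leaf K3_ok TN_l390 _)
           (CovZ.leaf K3_ok TN_l391 _))
          (CovZ.n1 (1402, 322) (by decide +kernel)
           (CovZ.leaf K3_ok TN_l392 _)
           (CovZ.leaf K3_ok TN_l393 _))))))
      (CovZ.subM 4603763137570 (by decide +kernel)
       (CovZ.n1 (1392, 328) (by decide +kernel)
        (CovZ.n2 (1396, 332) (by decide +kernel)
         (CovZ.n2 (1396, 328) (by decide +kernel)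
          (CovZ.n2 (1394, 330) (by decide +kernel)
           (CovZ.leaf K3_ok TN_l394 _)
           (CovZ.leaf K3_ok TN_l395 _))
          (CovZ.n1 (1398, 330) (by decide +kernel)
           (CovZ.leaf K3_ok TN_l396 _)
           (CovZ.leaf K3_ok TN_l397 _)))
         (CovZ.subM 199198019616 (by decide +kernel)
          (CovZ.n1 (1392, 332) (by decide +kernel)
           (CovZ.n2 (1394, 334) (by decide +kernel)
            (CovZ.leaf K3_ok TN_l398 _)
            (CovZ.leaf K3_ok TN_l399 _))
           (CovZ.n1 (1394, 330) (by decide +kernel)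
            (CovZ.leaf K3_ok TN_l400 _)
            (CovZ.leaf K3_ok TN_l401 _)))))
        (CovZ.n1 (1396, 324) (by decide +kernel)
         (CovZ.n2 (1392, 324) (by decide +kernel)
          (CovZ.n2 (1394, 326) (by decide +kernel)
           (CovZ.leaf K3_ok TN_l402 _)
           (CovZ.leaf K3_ok TN_l403 _))
          (CovZ.n1 (1394, 322) (by decide +kernel)
           (CovZ.leaf K3_ok TN_l404 _)
           (CovZ.leaf K3_ok TN_l405 _)))
         (CovZ.n1 (1396, 328) (by decide +kernel)
          (CovZ.n2 (1398, 326) (by decide +kernel)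
           (CovZ.leaf K3_ok TN_l406 _)
           (CovZ.leaf K3_ok TN_l407 _))
          (CovZ.n1 (1394, 326) (by decide +kernel)
           (CovZ.leaf K3_ok TN_l408 _)
           (CovZ.leaf K3_ok TN_l409 _))))))))

end Pool.Agent.TET
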