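import Pool.Agent.Helper38_TET.TN_M
import Pool.Agent.Helper38_TET.TN_L
import Pool.Agent.Helper38_TET.TN_0
import Pool.Agent.Helper38_TET.TN_1
import Pool.Agent.Helper38_TET.TN_2
import Pool.Agent.Helper38_TET.TN_3
import Pool.Agent.Helper38_TET.TN_4
import Pool.Agent.Helper38_TET.TN_5
import Pool.Agent.Helper38_TET.TN_7
import Pool.Agent.Helper38_TET.TN_8
import Pool.Agent.Helper38_TET.TN_9
import Pool.Agent.Helper38_TET.TN_11
import Pool.Agent.Helper38_TET.TN_U0

/-!
# MP_c7c9bf_co: certificates, family TN
-/

set_option autoImplicit false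
set_option maxRecDepth 100000

namespace Pool.Agent.TET

theorem TN_s0_0 : SqZ TN_M TN_L [0, 7, 4, 3] 1376 192 32 0 0 :=
  SqZ.mk (a := 1376) (b := 1408) (c := 192) (d := 224) (by norm_num) (by norm_num) (by norm_num) (by norm_num)
    (CovZ.topM TN_LL 0 (by decide +kernel) (CovZ.badM (by decide +kernel)))
    (CovZ.topM TN_LL 67108864 (by decide +kernel) (CovZ.n0 (1392, 208) (by decide +kernel)
    (CovZ.badM (by decide +kernel))
    (CovZ.n1 (1392, 224) (by decide +kernel)
     (CovZ.badM (by decide +kernel))
     (CovZ.badM (by decide +kernel)))))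

theorem TN_s1_0 : SqZ TN_M TN_L [0, 7, 4, 3] 1376 192 32 1 0 :=
  SqZ.mk (a := 1408) (b := 1440) (c := 192) (d := 224) (by norm_num) (by norm_num) (by norm_num) (by norm_num)
    (CovZ.topM TN_LL 0 (by decide +kernel) (CovZ.badM (by decide +kernel)))
    (CovZ.topM TN_LL 0 (by decide +kernel) (CovZ.badM (by decide +kernel)))

theorem TN_s0_1 : SqZ TN_M TN_L [0, 7, 4, 3] 1376 192 32 0 1 :=
  SqZ.mk (a := 1376) (b := 1408) (c := 224) (d := 256) (by norm_num) (by norm_num) (by norm_num) (by norm_num)
    (CovZ.topM TN_LL 34426847232 (by decide +kernel) (CovZ.n2 (1392, 240) (by decide +kernel)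
    (CovZ.badM (by decide +kernel))
    (CovZ.n1 (1392, 224) (by decide +kernel)
     (CovZ.badM (by decide +kernel))
     (CovZ.badM (by decide +kernel)))))
    (CovZ.topM TN_LL 34435366944 (by decide +kernel) (CovZ.n0 (1392, 240) (by decide +kernel)
    (CovZ.badM (by decide +kernel))
    (CovZ.n1 (1392, 256) (by decide +kernel)
     (CovZ.n2 (1400, 248) (by decide +kernel)
      (CovZ.n2 (1392, 248) (by decide +kernel)
       (CovZ.n2 (1396, 252) (by decide +kernel)
        (CovZ.n2 (1396, 248) (by decide +kernel)
         (CovZ.n2 (1394, 250) (by decide +kernel)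
          (CovZ.badM (by decide +kernel))
          (CovZ.badM (by decide +kernel)))
         (CovZ.badM (by decide +kernel)))
        (CovZ.n1 (1392, 252) (by decide +kernel)
         (CovZ.n2 (1394, 254) (by decide +kernel)
          (CovZ.leaf K3_ok TN_l0 _)
          (CovZ.n1 (1392, 254) (by decide +kernel)
           (CovZ.leaf K3_ok TN_l1 _)
           (CovZ.leaf K3_ok TN_l2 _)))
         (CovZ.n1 (1394, 250) (by decide +kernel)
          (CovZ.n2 (1392, 250) (by decide +kernel)
           (CovZ.leaf K3_ok TN_l3 _)
           (CovZ.badM (by decide +kernel)))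
          (CovZ.leaf K3_ok TN_l4 _))))
       (CovZ.badM (by decide +kernel)))
      (CovZ.n1 (1400, 256) (by decide +kernel)
       (CovZ.badM (by decide +kernel))
       (CovZ.n1 (1396, 252) (by decide +kernel)
        (CovZ.n2 (1396, 256) (by decide +kernel)
         (CovZ.n2 (1398, 254) (by decide +kernel)
          (CovZ.leaf K3_ok TN_l5 _)
          (CovZ.leaf K3_ok TN_l6 _))
         (CovZ.n1 (1394, 254) (by decide +kernel)
          (CovZ.leaf K3_ok TN_l7 _)
          (CovZ.leaf K3_ok TN_l8 _)))
        (CovZ.badM (by decide +kernel)))))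
     (CovZ.badM (by decide +kernel)))))

theorem TN_s1_1 : SqZ TN_M TN_L [0, 7, 4, 3] 1376 192 32 1 1 :=
  SqZ.mk (a := 1408) (b := 1440) (c := 224) (d := 256) (by norm_num) (by norm_num) (by norm_num) (by norm_num)
    (CovZ.topM TN_LL 17179869184 (by decide +kernel) (CovZ.n2 (1424, 240) (by decide +kernel)
    (CovZ.badM (by decide +kernel))
    (CovZ.badM (by decide +kernel))))
    (CovZ.topM TN_LL 17179869184 (by decide +kernel) (CovZ.n0 (1424, 240) (by decide +kernel)
    (CovZ.badM (by decide +kernel))
    (CovZ.badM (by decide +kernel))))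

theorem TN_s0_2 : SqZ TN_M TN_L [0, 7, 4, 3] 1376 192 32 0 2 :=
  SqZ.mk (a := 1376) (b := 1408) (c := 256) (d := 288) (by norm_num) (by norm_num) (by norm_num) (by norm_num)
    (CovZ.topM TN_LL 4587403739174 (by decide +kernel) (CovZ.n2 (1392, 272) (by decide +kernel)
    (CovZ.n2 (1408, 272) (by decide +kernel)
     (CovZ.subM 51616153632 (by decide +kernel)
      (CovZ.n2 (1400, 264) (by decide +kernel)
       (CovZ.n2 (1400, 272) (by decide +kernel)
        (CovZ.subM 17180917792 (by decide +kernel)
         (CovZ.n2 (1404, 268) (by decide +kernel)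
          (CovZ.n2 (1400, 268) (by decide +kernel)
           (CovZ.n2 (1402, 270) (by decide +kernel)
            (CovZ.leaf K3_ok TN_l9 _)
            (CovZ.leaf K3_ok TN_l10 _))
           (CovZ.n1 (1402, 266) (by decide +kernel)
            (CovZ.leaf K3_ok TN_l11 _)
            (CovZ.leaf K3_ok TN_l12 _)))
          (CovZ.n1 (1404, 272) (by decide +kernel)
           (CovZ.n2 (1406, 270) (by decide +kernel)
            (CovZ.leaf K3_ok TN_l13 _)
            (CovZ.n1 (1406, 272) (by decide +kernel)
             (CovZ.badM (by decide +kernel))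
             (CovZ.leaf K3_ok TN_l14 _)))
           (CovZ.n1 (1402, 270) (by decide +kernel)
            (CovZ.n2 (1402, 272) (by decide +kernel)
             (CovZ.leaf K3_ok TN_l15 _)
             (CovZ.leaf K3_ok TN_l16 _))
            (CovZ.n1 (1404, 270) (by decide +kernel)
             (CovZ.leaf K3_ok TN_l17 _)
             (CovZ.leaf K3_ok TN_l18 _))))))
        (CovZ.n1 (1396, 268) (by decide +kernel)
         (CovZ.n2 (1396, 272) (by decide +kernel)
          (CovZ.n2 (1398, 270) (by decide +kernel)
           (CovZ.leaf K3_ok TN_l19 _)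
           (CovZ.leaf K3_ok TN_l20 _))
          (CovZ.n1 (1394, 270) (by decide +kernel)
           (CovZ.leaf K3_ok TN_l21 _)
           (CovZ.leaf K3_ok TN_l22 _)))
         (CovZ.subM 34426847264 (by decide +kernel)
          (CovZ.n1 (1400, 268) (by decide +kernel)
           (CovZ.n2 (1398, 266) (by decide +kernel)
            (CovZ.leaf K3_ok TN_l23 _)
            (CovZ.leaf K3_ok TN_l24 _))
           (CovZ.n1 (1398, 270) (by decide +kernel)
            (CovZ.leaf K3_ok TN_l25 _)
            (CovZ.leaf K3_ok TN_l26 _))))))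
       (CovZ.subM 17179869216 (by decide +kernel)
        (CovZ.n1 (1408, 264) (by decide +kernel)
         (CovZ.n2 (1404, 260) (by decide +kernel)
          (CovZ.n2 (1404, 264) (by decide +kernel)
           (CovZ.badM (by decide +kernel))
           (CovZ.n1 (1402, 262) (by decide +kernel)
            (CovZ.leaf K3_ok TN_l27 _)
            (CovZ.n1 (1404, 262) (by decide +kernel)
             (CovZ.leaf K3_ok TN_l28 _)
             (CovZ.leaf K3_ok TN_l29 _))))
          (CovZ.badM (by decide +kernel)))
         (CovZ.n1 (1404, 268) (by decide +kernel)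
          (CovZ.n2 (1408, 268) (by decide +kernel)
           (CovZ.n2 (1406, 266) (by decide +kernel)
            (CovZ.n2 (1406, 268) (by decide +kernel)
             (CovZ.badM (by decide +kernel))
             (CovZ.leaf K3_ok TN_l30 _))
            (CovZ.badM (by decide +kernel)))
           (CovZ.n1 (1406, 270) (by decide +kernel)
            (CovZ.badM (by decide +kernel))
            (CovZ.leaf K3_ok TN_l31 _)))
          (CovZ.n1 (1404, 264) (by decide +kernel)
           (CovZ.n2 (1402, 266) (by decide +kernel)
            (CovZ.leaf K3_ok TN_l32 _)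
            (CovZ.leaf K3_ok TN_l33 _))
           (CovZ.badM (by decide +kernel))))))))
     (CovZ.n1 (1400, 280) (by decide +kernel)
      (CovZ.n2 (1408, 280) (by decide +kernel)
       (CovZ.subM 51616153632 (by decide +kernel)
        (CovZ.n2 (1404, 276) (by decide +kernel)
         (CovZ.n2 (1404, 280) (by decide +kernel)
          (CovZ.subM 17179869184 (by decide +kernel)
           (CovZ.n2 (1406, 278) (by decide +kernel)
            (CovZ.n2 (1404, 278) (by decide +kernel)
             (CovZ.leaf K3_ok TN_l34 _)
             (CovZ.leaf K3_ok TN_l35 _))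
            (CovZ.n1 (1406, 280) (by decide +kernel)
             (CovZ.badM (by decide +kernel))
             (CovZ.leaf K3_ok TN_l36 _))))
          (CovZ.n1 (1402, 278) (by decide +kernel)
           (CovZ.n2 (1402, 280) (by decide +kernel)
            (CovZ.leaf K3_ok TN_l37 _)
            (CovZ.leaf K3_ok TN_l38 _))
           (CovZ.leaf K3_ok TN_l39 _)))
         (CovZ.subM 17179869184 (by decide +kernel)
          (CovZ.n1 (1408, 276) (by decide +kernel)
           (CovZ.n2 (1406, 274) (by decide +kernel)
            (CovZ.n2 (1406, 276) (by decide +kernel)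
             (CovZ.badM (by decide +kernel))
             (CovZ.leaf K3_ok TN_l40 _))
            (CovZ.badM (by decide +kernel)))
           (CovZ.n1 (1406, 278) (by decide +kernel)
            (CovZ.badM (by decide +kernel))
            (CovZ.leaf K3_ok TN_l41 _))))))
       (CovZ.n1 (1404, 284) (by decide +kernel)
        (CovZ.subM 154987921414 (by decide +kernel)
         (CovZ.n2 (1408, 284) (by decide +kernel)
          (CovZ.n2 (1406, 282) (by decide +kernel)
           (CovZ.n2 (1406, 284) (by decide +kernel)
            (CovZ.badM (by decide +kernel))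
            (CovZ.leaf K3_ok TN_l42 _))
           (CovZ.badM (by decide +kernel)))
          (CovZ.n1 (1406, 286) (by decide +kernel)
           (CovZ.n2 (1408, 286) (by decide +kernel)
            (CovZ.leaf K3_ok TN_l43 _)
            (CovZ.leaf K3_ok TN_l44 _))
           (CovZ.leaf K3_ok TN_l45 _))))
        (CovZ.subM 51616153632 (by decide +kernel)
         (CovZ.n1 (1404, 280) (by decide +kernel)
          (CovZ.n2 (1402, 282) (by decide +kernel)
           (CovZ.leaf K3_ok TN_l46 _)
           (CovZ.leaf K3_ok TN_l47 _))
          (CovZ.n1 (1406, 282) (by decide +kernel)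
           (CovZ.leaf K3_ok TN_l48 _)
           (CovZ.leaf K3_ok TN_l49 _))))))
      (CovZ.subM 51616153632 (by decide +kernel)
       (CovZ.n1 (1400, 272) (by decide +kernel)
        (CovZ.n2 (1396, 276) (by decide +kernel)
         (CovZ.n2 (1400, 276) (by decide +kernel)
          (CovZ.n2 (1398, 274) (by decide +kernel)
           (CovZ.leaf K3_ok TN_l50 _)
           (CovZ.leaf K3_ok TN_l51 _))
          (CovZ.n1 (1398, 278) (by decide +kernel)
           (CovZ.leaf K3_ok TN_l52 _)
           (CovZ.leaf K3_ok TN_l53 _)))
         (CovZ.n1 (1396, 272) (by decide +kernel)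
          (CovZ.n2 (1394, 274) (by decide +kernel)
           (CovZ.leaf K3_ok TN_l54 _)
           (CovZ.leaf K3_ok TN_l55 _))
          (CovZ.n1 (1398, 274) (by decide +kernel)
           (CovZ.leaf K3_ok TN_l56 _)
           (CovZ.leaf K3_ok TN_l57 _))))
        (CovZ.n1 (1404, 276) (by decide +kernel)
         (CovZ.subM 17180917792 (by decide +kernel)
          (CovZ.n2 (1404, 272) (by decide +kernel)
           (CovZ.n2 (1402, 274) (by decide +kernel)
            (CovZ.n2 (1404, 274) (by decide +kernel)
             (CovZ.leaf K3_ok TN_l58 _)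
             (CovZ.leaf K3_ok TN_l59 _))
            (CovZ.leaf K3_ok TN_l60 _))
           (CovZ.n1 (1406, 274) (by decide +kernel)
            (CovZ.leaf K3_ok TN_l61 _)
            (CovZ.leaf K3_ok TN_l62 _))))
         (CovZ.n1 (1400, 276) (by decide +kernel)
          (CovZ.n2 (1402, 278) (by decide +kernel)
           (CovZ.leaf K3_ok TN_l63 _)
           (CovZ.leaf K3_ok TN_l64 _))
          (CovZ.n1 (1402, 274) (by decide +kernel)
           (CovZ.n2 (1400, 274) (by decide +kernel)
            (CovZ.leaf K3_ok TN_l65 _)
            (CovZ.leaf K3_ok TN_l66 _))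
           (CovZ.n1 (1402, 276) (by decide +kernel)
            (CovZ.leaf K3_ok TN_l67 _)
            (CovZ.leaf K3_ok TN_l68 _)))))))))
    (CovZ.subM 34435366944 (by decide +kernel)
     (CovZ.n1 (1392, 256) (by decide +kernel)
      (CovZ.badM (by decide +kernel))
      (CovZ.n1 (1400, 264) (by decide +kernel)
       (CovZ.n2 (1400, 256) (by decide +kernel)
        (CovZ.n2 (1396, 260) (by decide +kernel)
         (CovZ.n2 (1400, 260) (by decide +kernel)
          (CovZ.n2 (1398, 258) (by decide +kernel)
           (CovZ.leaf K3_ok TN_l69 _)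
           (CovZ.leaf K3_ok TN_l70 _))
          (CovZ.n1 (1398, 262) (by decide +kernel)
           (CovZ.leaf K3_ok TN_l71 _)
           (CovZ.leaf K3_ok TN_l72 _)))
         (CovZ.n1 (1396, 256) (by decide +kernel)
          (CovZ.n2 (1394, 258) (by decide +kernel)
           (CovZ.leaf K3_ok TN_l73 _)
           (CovZ.leaf K3_ok TN_l74 _))
          (CovZ.n1 (1398, 258) (by decide +kernel)
           (CovZ.leaf K3_ok TN_l75 _)
           (CovZ.leaf K3_ok TN_l76 _))))
        (CovZ.n1 (1404, 260) (by decide +kernel)
         (CovZ.badM (by decide +kernel))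
         (CovZ.n1 (1400, 260) (by decide +kernel)
          (CovZ.n2 (1402, 262) (by decide +kernel)
           (CovZ.leaf K3_ok TN_l77 _)
           (CovZ.leaf K3_ok TN_l78 _))
          (CovZ.n1 (1402, 258) (by decide +kernel)
           (CovZ.n2 (1400, 258) (by decide +kernel)
            (CovZ.leaf K3_ok TN_l79 _)
            (CovZ.badM (by decide +kernel)))
           (CovZ.n1 (1402, 260) (by decide +kernel)
            (CovZ.badM (by decide +kernel))
            (CovZ.leaf K3_ok TN_l80 _))))))
       (CovZ.n1 (1392, 264) (by decide +kernel)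
        (CovZ.n2 (1396, 268) (by decide +kernel)
         (CovZ.n2 (1396, 264) (by decide +kernel)
          (CovZ.n2 (1394, 266) (by decide +kernel)
           (CovZ.leaf K3_ok TN_l81 _)
           (CovZ.leaf K3_ok TN_l82 _))
          (CovZ.n1 (1398, 266) (by decide +kernel)
           (CovZ.leaf K3_ok TN_l83 _)
           (CovZ.leaf K3_ok TN_l84 _)))
         (CovZ.n1 (1392, 268) (by decide +kernel)
          (CovZ.n2 (1394, 270) (by decide +kernel)
           (CovZ.leaf K3_ok TN_l85 _)
           (CovZ.n1 (1392, 270) (by decide +kernel)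
            (CovZ.leaf K3_ok TN_l86 _)
            (CovZ.leaf K3_ok TN_l87 _)))
          (CovZ.n1 (1394, 266) (by decide +kernel)
           (CovZ.n2 (1392, 266) (by decide +kernel)
            (CovZ.leaf K3_ok TN_l88 _)
            (CovZ.leaf K3_ok TN_l89 _))
           (CovZ.leaf K3_ok TN_l90 _))))
        (CovZ.n1 (1396, 260) (by decide +kernel)
         (CovZ.n2 (1392, 260) (by decide +kernel)
          (CovZ.n2 (1394, 262) (by decide +kernel)
           (CovZ.leaf K3_ok TN_l91 _)
           (CovZ.n1 (1392, 262) (by decide +kernel)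
            (CovZ.leaf K3_ok TN_l92 _)
            (CovZ.leaf K3_ok TN_l93 _)))
          (CovZ.n1 (1394, 258) (by decide +kernel)
           (CovZ.n2 (1392, 258) (by decide +kernel)
            (CovZ.leaf K3_ok TN_l94 _)
            (CovZ.leaf K3_ok TN_l95 _))
           (CovZ.leaf K3_ok TN_l96 _)))
         (CovZ.n1 (1396, 264) (by decide +kernel)
          (CovZ.n2 (1398, 262) (by decide +kernel)
           (CovZ.n2 (1396, 262) (by decide +kernel)
            (CovZ.leaf K3_ok TN_l97 _)
            (CovZ.leaf K3_ok TN_l98 _))
           (CovZ.leaf K3_ok TN_l99 _))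
          (CovZ.n1 (1394, 262) (by decide +kernel)
           (CovZ.leaf K3_ok TN_l100 _)
           (CovZ.leaf K3_ok TN_l101 _))))))))))
    (CovZ.topM TN_LL 4660569724078 (by decide +kernel) (CovZ.n0 (1392, 272) (by decide +kernel)
    (CovZ.badM (by decide +kernel))
    (CovZ.n1 (1392, 288) (by decide +kernel)
     (CovZ.n2 (1400, 280) (by decide +kernel)
      (CovZ.n2 (1392, 280) (by decide +kernel)
       (CovZ.n2 (1396, 284) (by decide +kernel)
        (CovZ.subM 120335781920 (by decide +kernel)
         (CovZ.n2 (1396, 280) (by decide +kernel)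
          (CovZ.n2 (1394, 282) (by decide +kernel)
           (CovZ.leaf K3_ok TN_l102 _)
           (CovZ.leaf K3_ok TN_l103 _))
          (CovZ.n1 (1398, 282) (by decide +kernel)
           (CovZ.leaf K3_ok TN_l104 _)
           (CovZ.leaf K3_ok TN_l105 _))))
        (CovZ.n1 (1392, 284) (by decide +kernel)
         (CovZ.n2 (1394, 286) (by decide +kernel)
          (CovZ.leaf K3_ok TN_l106 _)
          (CovZ.leaf K3_ok TN_l107 _))
         (CovZ.n1 (1394, 282) (by decide +kernel)
          (CovZ.n2 (1392, 282) (by decide +kernel)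
           (CovZ.leaf K3_ok TN_l108 _)
           (CovZ.leaf K3_ok TN_l109 _))
          (CovZ.leaf K3_ok TN_l110 _))))
       (CovZ.subM 120335781920 (by decide +kernel)
        (CovZ.n1 (1396, 276) (by decide +kernel)
         (CovZ.n2 (1392, 276) (by decide +kernel)
          (CovZ.n2 (1394, 278) (by decide +kernel)
           (CovZ.leaf K3_ok TN_l111 _)
           (CovZ.n1 (1392, 278) (by decide +kernel)
            (CovZ.leaf K3_ok TN_l112 _)
            (CovZ.leaf K3_ok TN_l113 _)))
          (CovZ.n1 (1394, 274) (by decide +kernel)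
           (CovZ.n2 (1392, 274) (by decide +kernel)
            (CovZ.leaf K3_ok TN_l114 _)
            (CovZ.leaf K3_ok TN_l115 _))
           (CovZ.leaf K3_ok TN_l116 _)))
         (CovZ.n1 (1396, 280) (by decide +kernel)
          (CovZ.n2 (1398, 278) (by decide +kernel)
           (CovZ.leaf K3_ok TN_l117 _)
           (CovZ.leaf K3_ok TN_l118 _))
          (CovZ.n1 (1394, 278) (by decide +kernel)
           (CovZ.leaf K3_ok TN_l119 _)
           (CovZ.leaf K3_ok TN_l120 _))))))
      (CovZ.n1 (1400, 288) (by decide +kernel)
       (CovZ.n2 (1404, 284) (by decide +kernel)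
        (CovZ.n2 (1400, 284) (by decide +kernel)
         (CovZ.n2 (1402, 286) (by decide +kernel)
          (CovZ.leaf K3_ok TN_l121 _)
          (CovZ.leaf K3_ok TN_l122 _))
         (CovZ.n1 (1402, 282) (by decide +kernel)
          (CovZ.leaf K3_ok TN_l123 _)
          (CovZ.n1 (1402, 284) (by decide +kernel)
           (CovZ.leaf K3_ok TN_l124 _)
           (CovZ.leaf K3_ok TN_l125 _))))
        (CovZ.n1 (1404, 288) (by decide +kernel)
         (CovZ.n2 (1406, 286) (by decide +kernel)
          (CovZ.leaf K3_ok TN_l126 _)
          (CovZ.leaf K3_ok TN_l127 _))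
         (CovZ.n1 (1402, 286) (by decide +kernel)
          (CovZ.n2 (1402, 288) (by decide +kernel)
           (CovZ.leaf K3_ok TN_l128 _)
           (CovZ.leaf K3_ok TN_l129 _))
          (CovZ.n1 (1404, 286) (by decide +kernel)
           (CovZ.leaf K3_ok TN_l130 _)
           (CovZ.leaf K3_ok TN_l131 _)))))
       (CovZ.n1 (1396, 284) (by decide +kernel)
        (CovZ.n2 (1396, 288) (by decide +kernel)
         (CovZ.n2 (1398, 286) (by decide +kernel)
          (CovZ.leaf K3_ok TN_l132 _)
          (CovZ.leaf K3_ok TN_l133 _))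
         (CovZ.n1 (1394, 286) (by decide +kernel)
          (CovZ.leaf K3_ok TN_l134 _)
          (CovZ.leaf K3_ok TN_l135 _)))
        (CovZ.n1 (1400, 284) (by decide +kernel)
         (CovZ.n2 (1398, 282) (by decide +kernel)
          (CovZ.n2 (1398, 284) (by decide +kernel)
           (CovZ.leaf K3_ok TN_l136 _)
           (CovZ.leaf K3_ok TN_l137 _))
          (CovZ.leaf K3_ok TN_l138 _))
         (CovZ.n1 (1398, 286) (by decide +kernel)
          (CovZ.leaf K3_ok TN_l139 _)
          (CovZ.leaf K3_ok TN_l140 _))))))
     (CovZ.n1 (1384, 280) (by decide +kernel)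
      (CovZ.badM (by decide +kernel))
      (CovZ.n1 (1392, 280) (by decide +kernel)
       (CovZ.badM (by decide +kernel))
       (CovZ.badM (by decide +kernel)))))))

theorem TN_s1_2 : SqZ TN_M TN_L [0, 7, 4, 3] 1376 192 32 1 2 :=
  SqZ.mk (a := 1408) (b := 1440) (c := 256) (d := 288) (by norm_num) (by norm_num) (by norm_num) (by norm_num)
    (CovZ.topM TN_LL 0 (by decide +kernel) (CovZ.badM (by decide +kernel)))
    (CovZ.topM TN_LL 6 (by decide +kernel) (CovZ.n0 (1424, 272) (by decide +kernel)
    (CovZ.n2 (1408, 272) (by decide +kernel)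
     (CovZ.n2 (1416, 280) (by decide +kernel)
      (CovZ.badM (by decide +kernel))
      (CovZ.n1 (1408, 280) (by decide +kernel)
       (CovZ.n2 (1412, 284) (by decide +kernel)
        (CovZ.badM (by decide +kernel))
        (CovZ.n1 (1408, 284) (by decide +kernel)
         (CovZ.n2 (1410, 286) (by decide +kernel)
          (CovZ.badM (by decide +kernel))
          (CovZ.leaf K3_ok TN_l1163 _))
         (CovZ.badM (by decide +kernel))))
       (CovZ.badM (by decide +kernel))))
     (CovZ.badM (by decide +kernel)))
    (CovZ.n1 (1424, 288) (by decide +kernel)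
     (CovZ.badM (by decide +kernel))
     (CovZ.n1 (1416, 280) (by decide +kernel)
      (CovZ.n2 (1416, 288) (by decide +kernel)
       (CovZ.badM (by decide +kernel))
       (CovZ.n1 (1412, 284) (by decide +kernel)
        (CovZ.n2 (1412, 288) (by decide +kernel)
         (CovZ.badM (by decide +kernel))
         (CovZ.n1 (1410, 286) (by decide +kernel)
          (CovZ.n2 (1410, 288) (by decide +kernel)
           (CovZ.badM (by decide +kernel))
           (CovZ.leaf K3_ok TN_l1164 _))
          (CovZ.badM (by decide +kernel))))
        (CovZ.badM (by decide +kernel))))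
      (CovZ.badM (by decide +kernel))))))

theorem TN_s0_3 : SqZ TN_M TN_L [0, 7, 4, 3] 1376 192 32 0 3 :=
  SqZ.mk (a := 1376) (b := 1408) (c := 288) (d := 320) (by norm_num) (by norm_num) (by norm_num) (by norm_num)
    (CovZ.topM TN_LL 6318429503486 (by decide +kernel) (CovZ.n2 (1392, 304) (by decide +kernel)
    TN_u0
    TN_u1))
    (CovZ.topM TN_LL 6319335473150 (by decide +kernel) (CovZ.n0 (1392, 304) (by decide +kernel)
    (CovZ.badM (by decide +kernel))
    (CovZ.n1 (1392, 320) (by decide +kernel)
     (CovZ.n2 (1400, 312) (by decide +kernel)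
      (CovZ.n2 (1392, 312) (by decide +kernel)
       (CovZ.n2 (1396, 316) (by decide +kernel)
        (CovZ.n2 (1396, 312) (by decide +kernel)
         (CovZ.n2 (1394, 314) (by decide +kernel)
          (CovZ.leaf K3_ok TN_l255 _)
          (CovZ.leaf K3_ok TN_l256 _))
         (CovZ.n1 (1398, 314) (by decide +kernel)
          (CovZ.leaf K3_ok TN_l257 _)
          (CovZ.leaf K3_ok TN_l258 _)))
        (CovZ.n1 (1392, 316) (by decide +kernel)
         (CovZ.n2 (1394, 318) (by decide +kernel)
          (CovZ.leaf K3_ok TN_l259 _)
          (CovZ.leaf K3_ok TN_l260 _))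
         (CovZ.n1 (1394, 314) (by decide +kernel)
          (CovZ.leaf K3_ok TN_l261 _)
          (CovZ.leaf K3_ok TN_l262 _))))
       (CovZ.n1 (1396, 308) (by decide +kernel)
        (CovZ.n2 (1392, 308) (by decide +kernel)
         (CovZ.n2 (1394, 310) (by decide +kernel)
          (CovZ.leaf K3_ok TN_l263 _)
          (CovZ.leaf K3_ok TN_l264 _))
         (CovZ.n1 (1394, 306) (by decide +kernel)
          (CovZ.leaf K3_ok TN_l265 _)
          (CovZ.leaf K3_ok TN_l266 _)))
        (CovZ.n1 (1396, 312) (by decide +kernel)
         (CovZ.n2 (1398, 310) (by decide +kernel)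
          (CovZ.leaf K3_ok TN_l267 _)
          (CovZ.leaf K3_ok TN_l268 _))
         (CovZ.n1 (1394, 310) (by decide +kernel)
          (CovZ.leaf K3_ok TN_l269 _)
          (CovZ.leaf K3_ok TN_l270 _)))))
      (CovZ.n1 (1400, 320) (by decide +kernel)
       (CovZ.n2 (1404, 316) (by decide +kernel)
        (CovZ.n2 (1400, 316) (by decide +kernel)
         (CovZ.n2 (1402, 318) (by decide +kernel)
          (CovZ.leaf K3_ok TN_l271 _)
          (CovZ.leaf K3_ok TN_l272 _))
         (CovZ.n1 (1402, 314) (by decide +kernel)
          (CovZ.leaf K3_ok TN_l273 _)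
          (CovZ.leaf K3_ok TN_l274 _)))
        (CovZ.subM 5145389734194 (by decide +kernel)
         (CovZ.n1 (1404, 320) (by decide +kernel)
          (CovZ.n2 (1406, 318) (by decide +kernel)
           (CovZ.leaf K3_ok TN_l275 _)
           (CovZ.n1 (1406, 320) (by decide +kernel)
            (CovZ.leaf K3_ok TN_l1565 _)
            (CovZ.leaf K3_ok TN_l276 _)))
          (CovZ.n1 (1402, 318) (by decide +kernel)
           (CovZ.leaf K3_ok TN_l277 _)
           (CovZ.leaf K3_ok TN_l278 _)))))
       (CovZ.n1 (1396, 316) (by decide +kernel)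
        (CovZ.n2 (1396, 320) (by decide +kernel)
         (CovZ.n2 (1398, 318) (by decide +kernel)
          (CovZ.leaf K3_ok TN_l279 _)
          (CovZ.leaf K3_ok TN_l280 _))
         (CovZ.n1 (1394, 318) (by decide +kernel)
          (CovZ.leaf K3_ok TN_l281 _)
          (CovZ.leaf K3_ok TN_l282 _)))
        (CovZ.n1 (1400, 316) (by decide +kernel)
         (CovZ.n2 (1398, 314) (by decide +kernel)
          (CovZ.leaf K3_ok TN_l283 _)
          (CovZ.leaf K3_ok TN_l284 _))
         (CovZ.n1 (1398, 318) (by decide +kernel)
          (CovZ.leaf K3_ok TN_l285 _)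
          (CovZ.leaf K3_ok TN_l286 _))))))
     (CovZ.subM 562640716096 (by decide +kernel)
      (CovZ.n1 (1384, 312) (by decide +kernel)
       (CovZ.n2 (1384, 320) (by decide +kernel)
        (CovZ.n2 (1388, 316) (by decide +kernel)
         (CovZ.badM (by decide +kernel))
         (CovZ.n1 (1388, 320) (by decide +kernel)
          (CovZ.n2 (1390, 318) (by decide +kernel)
           (CovZ.badM (by decide +kernel))
           (CovZ.n1 (1390, 320) (by decide +kernel)
            (CovZ.leaf K3_ok TN_l287 _)
            (CovZ.badM (by decide +kernel))))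
          (CovZ.badM (by decide +kernel))))
        (CovZ.badM (by decide +kernel)))
       (CovZ.n1 (1392, 312) (by decide +kernel)
        (CovZ.n2 (1388, 308) (by decide +kernel)
         (CovZ.badM (by decide +kernel))
         (CovZ.n1 (1392, 308) (by decide +kernel)
          (CovZ.n2 (1390, 306) (by decide +kernel)
           (CovZ.badM (by decide +kernel))
           (CovZ.n1 (1392, 306) (by decide +kernel)
            (CovZ.badM (by decide +kernel))
            (CovZ.leaf K3_ok TN_l288 _)))
          (CovZ.badM (by decide +kernel))))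
        (CovZ.n1 (1388, 316) (by decide +kernel)
         (CovZ.n2 (1392, 316) (by decide +kernel)
          (CovZ.n2 (1390, 314) (by decide +kernel)
           (CovZ.n2 (1390, 316) (by decide +kernel)
            (CovZ.leaf K3_ok TN_l289 _)
            (CovZ.badM (by decide +kernel)))
           (CovZ.n1 (1392, 314) (by decide +kernel)
            (CovZ.badM (by decide +kernel))
            (CovZ.leaf K3_ok TN_l290 _)))
          (CovZ.n1 (1390, 318) (by decide +kernel)
           (CovZ.n2 (1392, 318) (by decide +kernel)
            (CovZ.leaf K3_ok TN_l291 _)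
            (CovZ.leaf K3_ok TN_l292 _))
           (CovZ.n1 (1390, 316) (by decide +kernel)
            (CovZ.badM (by decide +kernel))
            (CovZ.leaf K3_ok TN_l293 _))))
         (CovZ.badM (by decide +kernel)))))))))

theorem TN_s1_3 : SqZ TN_M TN_L [0, 7, 4, 3] 1376 192 32 1 3 :=
  SqZ.mk (a := 1408) (b := 1440) (c := 288) (d := 320) (by norm_num) (by norm_num) (by norm_num) (by norm_num)
    (CovZ.topM TN_LL 1168365611798 (by decide +kernel) (CovZ.n2 (1424, 304) (by decide +kernel)
    (CovZ.badM (by decide +kernel))
    (CovZ.n1 (1424, 288) (by decide +kernel)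
     (CovZ.n2 (1416, 296) (by decide +kernel)
      (CovZ.n2 (1424, 296) (by decide +kernel)
       (CovZ.badM (by decide +kernel))
       (CovZ.n1 (1420, 300) (by decide +kernel)
        (CovZ.badM (by decide +kernel))
        (CovZ.badM (by decide +kernel))))
      (CovZ.subM 1099511898374 (by decide +kernel)
       (CovZ.n1 (1416, 288) (by decide +kernel)
        (CovZ.n2 (1412, 292) (by decide +kernel)
         (CovZ.subM 270336 (by decide +kernel)
          (CovZ.n2 (1416, 292) (by decide +kernel)
           (CovZ.n2 (1414, 290) (by decide +kernel)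
            (CovZ.n2 (1414, 292) (by decide +kernel)
             (CovZ.badM (by decide +kernel))
             (CovZ.leaf K3_ok TN_l1165 _))
            (CovZ.badM (by decide +kernel)))
           (CovZ.n1 (1414, 294) (by decide +kernel)
            (CovZ.badM (by decide +kernel))
            (CovZ.leaf K3_ok TN_l1166 _))))
         (CovZ.n1 (1412, 288) (by decide +kernel)
          (CovZ.n2 (1410, 290) (by decide +kernel)
           (CovZ.n2 (1412, 290) (by decide +kernel)
            (CovZ.badM (by decide +kernel))
            (CovZ.leaf K3_ok TN_l1167 _))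
           (CovZ.leaf K3_ok TN_l1168 _))
          (CovZ.n1 (1414, 290) (by decide +kernel)
           (CovZ.badM (by decide +kernel))
           (CovZ.n1 (1412, 290) (by decide +kernel)
            (CovZ.leaf K3_ok TN_l1169 _)
            (CovZ.badM (by decide +kernel))))))
        (CovZ.badM (by decide +kernel)))))
     (CovZ.badM (by decide +kernel)))))
    (CovZ.topM TN_LL 1757172101086 (by decide +kernel) (CovZ.n0 (1424, 304) (by decide +kernel)
    (CovZ.n2 (1408, 304) (by decide +kernel)
     (CovZ.n2 (1416, 312) (by decide +kernel)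
      (CovZ.n2 (1416, 304) (by decide +kernel)
       (CovZ.n2 (1412, 308) (by decide +kernel)
        (CovZ.subM 1099511627784 (by decide +kernel)
         (CovZ.n2 (1416, 308) (by decide +kernel)
          (CovZ.n2 (1414, 306) (by decide +kernel)
           (CovZ.n2 (1414, 308) (by decide +kernel)
            (CovZ.leaf K3_ok TN_l1170 _)
            (CovZ.leaf K3_ok TN_l1171 _))
           (CovZ.n1 (1416, 306) (by decide +kernel)
            (CovZ.leaf K3_ok TN_l1172 _)
            (CovZ.leaf K3_ok TN_l1173 _)))
          (CovZ.badM (by decide +kernel))))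
        (CovZ.n1 (1412, 304) (by decide +kernel)
         (CovZ.n2 (1410, 306) (by decide +kernel)
          (CovZ.n2 (1412, 306) (by decide +kernel)
           (CovZ.leaf K3_ok TN_l1174 _)
           (CovZ.leaf K3_ok TN_l1175 _))
          (CovZ.leaf K3_ok TN_l1176 _))
         (CovZ.n1 (1414, 306) (by decide +kernel)
          (CovZ.leaf K3_ok TN_l1177 _)
          (CovZ.n1 (1412, 306) (by decide +kernel)
           (CovZ.leaf K3_ok TN_l1178 _)
           (CovZ.leaf K3_ok TN_l1179 _)))))
       (CovZ.badM (by decide +kernel)))
      (CovZ.n1 (1408, 312) (by decide +kernel)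
       (CovZ.subM 549755813888 (by decide +kernel)
        (CovZ.n2 (1412, 316) (by decide +kernel)
         (CovZ.badM (by decide +kernel))
         (CovZ.n1 (1408, 316) (by decide +kernel)
          (CovZ.n2 (1410, 318) (by decide +kernel)
           (CovZ.leaf K3_ok TN_l1566 _)
           (CovZ.leaf K3_ok TN_l1567 _))
          (CovZ.n1 (1410, 314) (by decide +kernel)
           (CovZ.leaf K3_ok TN_l1568 _)
           (CovZ.n1 (1410, 316) (by decide +kernel)
            (CovZ.badM (by decide +kernel))
            (CovZ.leaf K3_ok TN_l1569 _))))))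
       (CovZ.n1 (1412, 308) (by decide +kernel)
        (CovZ.n2 (1408, 308) (by decide +kernel)
         (CovZ.n2 (1410, 310) (by decide +kernel)
          (CovZ.leaf K3_ok TN_l1180 _)
          (CovZ.n1 (1408, 310) (by decide +kernel)
           (CovZ.badM (by decide +kernel))
           (CovZ.leaf K3_ok TN_l1181 _)))
         (CovZ.n1 (1410, 306) (by decide +kernel)
          (CovZ.n2 (1408, 306) (by decide +kernel)
           (CovZ.leaf K3_ok TN_l1182 _)
           (CovZ.leaf K3_ok TN_l1183 _))
          (CovZ.n1 (1410, 308) (by decide +kernel)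
           (CovZ.leaf K3_ok TN_l1184 _)
           (CovZ.leaf K3_ok TN_l1185 _))))
        (CovZ.subM 128 (by decide +kernel)
         (CovZ.n1 (1412, 312) (by decide +kernel)
          (CovZ.badM (by decide +kernel))
          (CovZ.n1 (1410, 310) (by decide +kernel)
           (CovZ.badM (by decide +kernel))
           (CovZ.n1 (1412, 310) (by decide +kernel)
            (CovZ.leaf K3_ok TN_l1186 _)
            (CovZ.badM (by decide +kernel)))))))))
     (CovZ.n1 (1416, 296) (by decide +kernel)
      (CovZ.n2 (1408, 296) (by decide +kernel)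
       (CovZ.n2 (1412, 300) (by decide +kernel)
        (CovZ.subM 1168743099020 (by decide +kernel)
         (CovZ.n2 (1412, 296) (by decide +kernel)
          (CovZ.n2 (1410, 298) (by decide +kernel)
           (CovZ.n2 (1412, 298) (by decide +kernel)
            (CovZ.leaf K3_ok TN_l1187 _)
            (CovZ.leaf K3_ok TN_l1188 _))
           (CovZ.leaf K3_ok TN_l1189 _))
          (CovZ.n1 (1414, 298) (by decide +kernel)
           (CovZ.leaf K3_ok TN_l1190 _)
           (CovZ.n1 (1412, 298) (by decide +kernel)
            (CovZ.leaf K3_ok TN_l1191 _)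
            (CovZ.leaf K3_ok TN_l1192 _)))))
        (CovZ.n1 (1408, 300) (by decide +kernel)
         (CovZ.n2 (1410, 302) (by decide +kernel)
          (CovZ.leaf K3_ok TN_l1193 _)
          (CovZ.leaf K3_ok TN_l1194 _))
         (CovZ.n1 (1410, 298) (by decide +kernel)
          (CovZ.leaf K3_ok TN_l1195 _)
          (CovZ.n1 (1410, 300) (by decide +kernel)
           (CovZ.leaf K3_ok TN_l1196 _)
           (CovZ.leaf K3_ok TN_l1197 _)))))
       (CovZ.subM 1168743096718 (by decide +kernel)
        (CovZ.n1 (1412, 292) (by decide +kernel)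
         (CovZ.n2 (1408, 292) (by decide +kernel)
          (CovZ.n2 (1410, 294) (by decide +kernel)
           (CovZ.leaf K3_ok TN_l1198 _)
           (CovZ.n1 (1408, 294) (by decide +kernel)
            (CovZ.leaf K3_ok TN_l1199 _)
            (CovZ.leaf K3_ok TN_l1200 _)))
          (CovZ.n1 (1410, 290) (by decide +kernel)
           (CovZ.n2 (1408, 290) (by decide +kernel)
            (CovZ.leaf K3_ok TN_l1201 _)
            (CovZ.leaf K3_ok TN_l1202 _))
           (CovZ.n1 (1410, 292) (by decide +kernel)
            (CovZ.leaf K3_ok TN_l1203 _)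
            (CovZ.leaf K3_ok TN_l1204 _))))
         (CovZ.n1 (1412, 296) (by decide +kernel)
          (CovZ.subM 1168365609088 (by decide +kernel)
           (CovZ.n2 (1414, 294) (by decide +kernel)
            (CovZ.n2 (1412, 294) (by decide +kernel)
             (CovZ.leaf K3_ok TN_l1205 _)
             (CovZ.leaf K3_ok TN_l1206 _))
            (CovZ.n1 (1414, 296) (by decide +kernel)
             (CovZ.badM (by decide +kernel))
             (CovZ.leaf K3_ok TN_l1207 _))))
          (CovZ.n1 (1410, 294) (by decide +kernel)
           (CovZ.n2 (1410, 296) (by decide +kernel)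
            (CovZ.leaf K3_ok TN_l1208 _)
            (CovZ.leaf K3_ok TN_l1209 _))
           (CovZ.n1 (1412, 294) (by decide +kernel)
            (CovZ.leaf K3_ok TN_l1210 _)
            (CovZ.leaf K3_ok TN_l1211 _)))))))
      (CovZ.n1 (1416, 304) (by decide +kernel)
       (CovZ.n2 (1420, 300) (by decide +kernel)
        (CovZ.n2 (1416, 300) (by decide +kernel)
         (CovZ.badM (by decide +kernel))
         (CovZ.badM (by decide +kernel)))
        (CovZ.badM (by decide +kernel)))
       (CovZ.n1 (1412, 300) (by decide +kernel)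
        (CovZ.n2 (1412, 304) (by decide +kernel)
         (CovZ.subM 1104294053528 (by decide +kernel)
          (CovZ.n2 (1414, 302) (by decide +kernel)
           (CovZ.n2 (1412, 302) (by decide +kernel)
            (CovZ.leaf K3_ok TN_l1212 _)
            (CovZ.leaf K3_ok TN_l1213 _))
           (CovZ.n1 (1414, 304) (by decide +kernel)
            (CovZ.leaf K3_ok TN_l1214 _)
            (CovZ.leaf K3_ok TN_l1215 _))))
         (CovZ.n1 (1410, 302) (by decide +kernel)
          (CovZ.n2 (1410, 304) (by decide +kernel)
           (CovZ.leaf K3_ok TN_l1216 _)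
           (CovZ.leaf K3_ok TN_l1217 _))
          (CovZ.n1 (1412, 302) (by decide +kernel)
           (CovZ.leaf K3_ok TN_l1218 _)
           (CovZ.leaf K3_ok TN_l1219 _))))
        (CovZ.subM 1099948098200 (by decide +kernel)
         (CovZ.n1 (1416, 300) (by decide +kernel)
          (CovZ.n2 (1414, 298) (by decide +kernel)
           (CovZ.n2 (1414, 300) (by decide +kernel)
            (CovZ.leaf K3_ok TN_l1220 _)
            (CovZ.leaf K3_ok TN_l1221 _))
           (CovZ.badM (by decide +kernel)))
          (CovZ.n1 (1414, 302) (by decide +kernel)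
           (CovZ.n2 (1416, 302) (by decide +kernel)
            (CovZ.leaf K3_ok TN_l1222 _)
            (CovZ.leaf K3_ok TN_l1223 _))
           (CovZ.leaf K3_ok TN_l1224 _))))))))
    (CovZ.subM 549890039936 (by decide +kernel)
     (CovZ.n1 (1424, 320) (by decide +kernel)
      (CovZ.badM (by decide +kernel))
      (CovZ.n1 (1416, 312) (by decide +kernel)
       (CovZ.n2 (1416, 320) (by decide +kernel)
        (CovZ.badM (by decide +kernel))
        (CovZ.n1 (1412, 316) (by decide +kernel)
         (CovZ.n2 (1412, 320) (by decide +kernel)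
          (CovZ.badM (by decide +kernel))
          (CovZ.n1 (1410, 318) (by decide +kernel)
           (CovZ.n2 (1410, 320) (by decide +kernel)
            (CovZ.leaf K3_ok TN_l1570 _)
            (CovZ.leaf K3_ok TN_l1571 _))
           (CovZ.n1 (1412, 318) (by decide +kernel)
            (CovZ.leaf K3_ok TN_l1572 _)
            (CovZ.leaf K3_ok TN_l1573 _))))
         (CovZ.badM (by decide +kernel))))
       (CovZ.badM (by decide +kernel)))))))

theorem TN_s0_4 : SqZ TN_M TN_L [0, 7, 4, 3] 1376 192 32 0 4 :=
  SqZ.mk (a := 1376) (b := 1408) (c := 320) (d := 352) (by norm_num) (by norm_num) (by norm_num) (by norm_num)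
    (CovZ.topM TN_LL 6596633550710 (by decide +kernel) (CovZ.n2 (1392, 336) (by decide +kernel)
    TN_u2
    TN_u3))
    (CovZ.topM TN_LL 6046877471862 (by decide +kernel) (CovZ.n0 (1392, 336) (by decide +kernel)
    (CovZ.subM 12884901892 (by decide +kernel)
     (CovZ.n2 (1376, 336) (by decide +kernel)
      (CovZ.n2 (1384, 344) (by decide +kernel)
       (CovZ.n2 (1384, 336) (by decide +kernel)
        (CovZ.badM (by decide +kernel))
        (CovZ.n1 (1388, 340) (by decide +kernel)
         (CovZ.n2 (1388, 336) (by decide +kernel)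
          (CovZ.badM (by decide +kernel))
          (CovZ.n1 (1390, 338) (by decide +kernel)
           (CovZ.leaf K3_ok TN_l410 _)
           (CovZ.badM (by decide +kernel))))
         (CovZ.badM (by decide +kernel))))
       (CovZ.badM (by decide +kernel)))
      (CovZ.n1 (1384, 328) (by decide +kernel)
       (CovZ.badM (by decide +kernel))
       (CovZ.n1 (1384, 336) (by decide +kernel)
        (CovZ.n2 (1388, 332) (by decide +kernel)
         (CovZ.badM (by decide +kernel))
         (CovZ.n1 (1388, 336) (by decide +kernel)
          (CovZ.n2 (1390, 334) (by decide +kernel)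
           (CovZ.badM (by decide +kernel))
           (CovZ.n1 (1390, 336) (by decide +kernel)
            (CovZ.leaf K3_ok TN_l411 _)
            (CovZ.badM (by decide +kernel))))
          (CovZ.badM (by decide +kernel))))
        (CovZ.badM (by decide +kernel))))))
    (CovZ.subM 4874274181170 (by decide +kernel)
     (CovZ.n1 (1392, 352) (by decide +kernel)
      (CovZ.n2 (1400, 344) (by decide +kernel)
       (CovZ.n2 (1392, 344) (by decide +kernel)
        (CovZ.n2 (1396, 348) (by decide +kernel)
         (CovZ.n2 (1396, 344) (by decide +kernel)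
          (CovZ.n2 (1394, 346) (by decide +kernel)
           (CovZ.leaf K3_ok TN_l412 _)
           (CovZ.leaf K3_ok TN_l413 _))
          (CovZ.n1 (1398, 346) (by decide +kernel)
           (CovZ.leaf K3_ok TN_l414 _)
           (CovZ.leaf K3_ok TN_l415 _)))
         (CovZ.subM 421449994272 (by decide +kernel)
          (CovZ.n1 (1392, 348) (by decide +kernel)
           (CovZ.n2 (1394, 350) (by decide +kernel)
            (CovZ.leaf K3_ok TN_l416 _)
            (CovZ.leaf K3_ok TN_l417 _))
           (CovZ.n1 (1394, 346) (by decide +kernel)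
            (CovZ.leaf K3_ok TN_l418 _)
            (CovZ.leaf K3_ok TN_l419 _)))))
        (CovZ.n1 (1396, 340) (by decide +kernel)
         (CovZ.n2 (1392, 340) (by decide +kernel)
          (CovZ.n2 (1394, 342) (by decide +kernel)
           (CovZ.leaf K3_ok TN_l420 _)
           (CovZ.n1 (1392, 342) (by decide +kernel)
            (CovZ.leaf K3_ok TN_l421 _)
            (CovZ.leaf K3_ok TN_l422 _)))
          (CovZ.n1 (1394, 338) (by decide +kernel)
           (CovZ.n2 (1392, 338) (by decide +kernel)
            (CovZ.leaf K3_ok TN_l423 _)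
            (CovZ.leaf K3_ok TN_l424 _))
           (CovZ.leaf K3_ok TN_l425 _)))
         (CovZ.n1 (1396, 344) (by decide +kernel)
          (CovZ.n2 (1398, 342) (by decide +kernel)
           (CovZ.leaf K3_ok TN_l426 _)
           (CovZ.leaf K3_ok TN_l427 _))
          (CovZ.n1 (1394, 342) (by decide +kernel)
           (CovZ.leaf K3_ok TN_l428 _)
           (CovZ.leaf K3_ok TN_l429 _)))))
       (CovZ.n1 (1400, 352) (by decide +kernel)
        (CovZ.n2 (1404, 348) (by decide +kernel)
         (CovZ.n2 (1400, 348) (by decide +kernel)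
          (CovZ.n2 (1402, 350) (by decide +kernel)
           (CovZ.leaf K3_ok TN_l430 _)
           (CovZ.leaf K3_ok TN_l431 _))
          (CovZ.n1 (1402, 346) (by decide +kernel)
           (CovZ.leaf K3_ok TN_l432 _)
           (CovZ.leaf K3_ok TN_l433 _)))
         (CovZ.n1 (1404, 352) (by decide +kernel)
          (CovZ.n2 (1406, 350) (by decide +kernel)
           (CovZ.leaf K3_ok TN_l434 _)
           (CovZ.leaf K3_ok TN_l435 _))
          (CovZ.n1 (1402, 350) (by decide +kernel)
           (CovZ.leaf K3_ok TN_l436 _)
           (CovZ.leaf K3_ok TN_l437 _))))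
        (CovZ.n1 (1396, 348) (by decide +kernel)
         (CovZ.n2 (1396, 352) (by decide +kernel)
          (CovZ.n2 (1398, 350) (by decide +kernel)
           (CovZ.leaf K3_ok TN_l438 _)
           (CovZ.leaf K3_ok TN_l439 _))
          (CovZ.n1 (1394, 350) (by decide +kernel)
           (CovZ.leaf K3_ok TN_l440 _)
           (CovZ.leaf K3_ok TN_l441 _)))
         (CovZ.n1 (1400, 348) (by decide +kernel)
          (CovZ.n2 (1398, 346) (by decide +kernel)
           (CovZ.leaf K3_ok TN_l442 _)
           (CovZ.leaf K3_ok TN_l443 _))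
          (CovZ.n1 (1398, 350) (by decide +kernel)
           (CovZ.leaf K3_ok TN_l444 _)
           (CovZ.leaf K3_ok TN_l445 _))))))
      (CovZ.subM 25773998080 (by decide +kernel)
       (CovZ.n1 (1384, 344) (by decide +kernel)
        (CovZ.n2 (1384, 352) (by decide +kernel)
         (CovZ.n2 (1388, 348) (by decide +kernel)
          (CovZ.badM (by decide +kernel))
          (CovZ.n1 (1388, 352) (by decide +kernel)
           (CovZ.n2 (1390, 350) (by decide +kernel)
            (CovZ.badM (by decide +kernel))
            (CovZ.n1 (1390, 352) (by decide +kernel)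
             (CovZ.leaf K3_ok TN_l446 _)
             (CovZ.badM (by decide +kernel))))
           (CovZ.badM (by decide +kernel))))
         (CovZ.badM (by decide +kernel)))
        (CovZ.n1 (1392, 344) (by decide +kernel)
         (CovZ.n2 (1388, 340) (by decide +kernel)
          (CovZ.n2 (1388, 344) (by decide +kernel)
           (CovZ.n2 (1390, 342) (by decide +kernel)
            (CovZ.badM (by decide +kernel))
            (CovZ.n1 (1390, 344) (by decide +kernel)
             (CovZ.leaf K3_ok TN_l447 _)
             (CovZ.badM (by decide +kernel))))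
           (CovZ.badM (by decide +kernel)))
          (CovZ.n1 (1392, 340) (by decide +kernel)
           (CovZ.n2 (1390, 338) (by decide +kernel)
            (CovZ.n2 (1390, 340) (by decide +kernel)
             (CovZ.leaf K3_ok TN_l448 _)
             (CovZ.badM (by decide +kernel)))
            (CovZ.n1 (1392, 338) (by decide +kernel)
             (CovZ.leaf K3_ok TN_l449 _)
             (CovZ.leaf K3_ok TN_l450 _)))
           (CovZ.n1 (1390, 342) (by decide +kernel)
            (CovZ.n2 (1392, 342) (by decide +kernel)
             (CovZ.leaf K3_ok TN_l451 _)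
             (CovZ.leaf K3_ok TN_l452 _))
            (CovZ.leaf K3_ok TN_l453 _))))
         (CovZ.n1 (1388, 348) (by decide +kernel)
          (CovZ.n2 (1392, 348) (by decide +kernel)
           (CovZ.n2 (1390, 346) (by decide +kernel)
            (CovZ.n2 (1390, 348) (by decide +kernel)
             (CovZ.leaf K3_ok TN_l454 _)
             (CovZ.badM (by decide +kernel)))
            (CovZ.leaf K3_ok TN_l455 _))
           (CovZ.n1 (1390, 350) (by decide +kernel)
            (CovZ.leaf K3_ok TN_l456 _)
            (CovZ.n1 (1390, 348) (by decide +kernel)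
             (CovZ.badM (by decide +kernel))
             (CovZ.leaf K3_ok TN_l457 _))))
          (CovZ.n1 (1388, 344) (by decide +kernel)
           (CovZ.badM (by decide +kernel))
           (CovZ.n1 (1390, 346) (by decide +kernel)
            (CovZ.leaf K3_ok TN_l458 _)
            (CovZ.badM (by decide +kernel))))))))))))

theorem TN_s1_4 : SqZ TN_M TN_L [0, 7, 4, 3] 1376 192 32 1 4 :=
  SqZ.mk (a := 1408) (b := 1440) (c := 320) (d := 352) (by norm_num) (by norm_num) (by norm_num) (by norm_num)
    (CovZ.topM TN_LL 549894291456 (by decide +kernel) (CovZ.n2 (1424, 336) (by decide +kernel)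
    (CovZ.badM (by decide +kernel))
    (CovZ.n1 (1424, 320) (by decide +kernel)
     (CovZ.n2 (1416, 328) (by decide +kernel)
      (CovZ.badM (by decide +kernel))
      (CovZ.n1 (1416, 320) (by decide +kernel)
       (CovZ.n2 (1412, 324) (by decide +kernel)
        (CovZ.badM (by decide +kernel))
        (CovZ.n1 (1412, 320) (by decide +kernel)
         (CovZ.n2 (1410, 322) (by decide +kernel)
          (CovZ.badM (by decide +kernel))
          (CovZ.leaf K3_ok TN_l1574 _))
         (CovZ.badM (by decide +kernel))))
       (CovZ.badM (by decide +kernel))))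
     (CovZ.badM (by decide +kernel)))))
    (CovZ.topM TN_LL 5234495651872 (by decide +kernel) (CovZ.n0 (1424, 336) (by decide +kernel)
    (CovZ.n2 (1408, 336) (by decide +kernel)
     (CovZ.n2 (1416, 344) (by decide +kernel)
      (CovZ.subM 4401267736576 (by decide +kernel)
       (CovZ.n2 (1416, 336) (by decide +kernel)
        (CovZ.n2 (1412, 340) (by decide +kernel)
         (CovZ.badM (by decide +kernel))
         (CovZ.n1 (1412, 336) (by decide +kernel)
          (CovZ.n2 (1410, 338) (by decide +kernel)
           (CovZ.n2 (1412, 338) (by decide +kernel)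
            (CovZ.leaf K3_ok TN_l1225 _)
            (CovZ.leaf K3_ok TN_l1226 _))
           (CovZ.leaf K3_ok TN_l1227 _))
          (CovZ.n1 (1414, 338) (by decide +kernel)
           (CovZ.leaf K3_ok TN_l1228 _)
           (CovZ.n1 (1412, 338) (by decide +kernel)
            (CovZ.badM (by decide +kernel))
            (CovZ.leaf K3_ok TN_l1229 _)))))
        (CovZ.badM (by decide +kernel))))
      (CovZ.n1 (1408, 344) (by decide +kernel)
       (CovZ.n2 (1412, 348) (by decide +kernel)
        (CovZ.subM 4683661836288 (by decide +kernel)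
         (CovZ.n2 (1412, 344) (by decide +kernel)
          (CovZ.n2 (1410, 346) (by decide +kernel)
           (CovZ.leaf K3_ok TN_l1575 _)
           (CovZ.leaf K3_ok TN_l1230 _))
          (CovZ.n1 (1414, 346) (by decide +kernel)
           (CovZ.badM (by decide +kernel))
           (CovZ.n1 (1412, 346) (by decide +kernel)
            (CovZ.leaf K3_ok TN_l1576 _)
            (CovZ.badM (by decide +kernel))))))
        (CovZ.n1 (1408, 348) (by decide +kernel)
         (CovZ.n2 (1410, 350) (by decide +kernel)
          (CovZ.leaf K3_ok TN_l1231 _)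
          (CovZ.leaf K3_ok TN_l1232 _))
         (CovZ.n1 (1410, 346) (by decide +kernel)
          (CovZ.leaf K3_ok TN_l1233 _)
          (CovZ.leaf K3_ok TN_l1234 _))))
       (CovZ.subM 4409857671168 (by decide +kernel)
        (CovZ.n1 (1412, 340) (by decide +kernel)
         (CovZ.n2 (1408, 340) (by decide +kernel)
          (CovZ.n2 (1410, 342) (by decide +kernel)
           (CovZ.leaf K3_ok TN_l1235 _)
           (CovZ.leaf K3_ok TN_l1236 _))
          (CovZ.n1 (1410, 338) (by decide +kernel)
           (CovZ.leaf K3_ok TN_l1237 _)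
           (CovZ.n1 (1410, 340) (by decide +kernel)
            (CovZ.leaf K3_ok TN_l1238 _)
            (CovZ.leaf K3_ok TN_l1239 _))))
         (CovZ.n1 (1412, 344) (by decide +kernel)
          (CovZ.badM (by decide +kernel))
          (CovZ.n1 (1410, 342) (by decide +kernel)
           (CovZ.n2 (1410, 344) (by decide +kernel)
            (CovZ.leaf K3_ok TN_l1577 _)
            (CovZ.leaf K3_ok TN_l1240 _))
           (CovZ.badM (by decide +kernel))))))))
     (CovZ.subM 4951027744768 (by decide +kernel)
      (CovZ.n1 (1416, 328) (by decide +kernel)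
       (CovZ.n2 (1408, 328) (by decide +kernel)
        (CovZ.n2 (1412, 332) (by decide +kernel)
         (CovZ.badM (by decide +kernel))
         (CovZ.n1 (1408, 332) (by decide +kernel)
          (CovZ.n2 (1410, 334) (by decide +kernel)
           (CovZ.leaf K3_ok TN_l1241 _)
           (CovZ.n1 (1408, 334) (by decide +kernel)
            (CovZ.leaf K3_ok TN_l1242 _)
            (CovZ.leaf K3_ok TN_l1243 _)))
          (CovZ.n1 (1410, 330) (by decide +kernel)
           (CovZ.leaf K3_ok TN_l1244 _)
           (CovZ.n1 (1410, 332) (by decide +kernel)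
            (CovZ.badM (by decide +kernel))
            (CovZ.leaf K3_ok TN_l1245 _)))))
        (CovZ.n1 (1412, 324) (by decide +kernel)
         (CovZ.n2 (1408, 324) (by decide +kernel)
          (CovZ.badM (by decide +kernel))
          (CovZ.n1 (1410, 322) (by decide +kernel)
           (CovZ.n2 (1408, 322) (by decide +kernel)
            (CovZ.leaf K3_ok TN_l1578 _)
            (CovZ.leaf K3_ok TN_l1579 _))
           (CovZ.badM (by decide +kernel))))
         (CovZ.badM (by decide +kernel))))
       (CovZ.n1 (1416, 336) (by decide +kernel)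
        (CovZ.badM (by decide +kernel))
        (CovZ.n1 (1412, 332) (by decide +kernel)
         (CovZ.n2 (1412, 336) (by decide +kernel)
          (CovZ.n2 (1414, 334) (by decide +kernel)
           (CovZ.n2 (1412, 334) (by decide +kernel)
            (CovZ.leaf K3_ok TN_l1246 _)
            (CovZ.badM (by decide +kernel)))
           (CovZ.n1 (1414, 336) (by decide +kernel)
            (CovZ.leaf K3_ok TN_l1247 _)
            (CovZ.leaf K3_ok TN_l1248 _)))
          (CovZ.n1 (1410, 334) (by decide +kernel)
           (CovZ.n2 (1410, 336) (by decide +kernel)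
            (CovZ.leaf K3_ok TN_l1249 _)
            (CovZ.leaf K3_ok TN_l1250 _))
           (CovZ.n1 (1412, 334) (by decide +kernel)
            (CovZ.leaf K3_ok TN_l1251 _)
            (CovZ.leaf K3_ok TN_l1252 _))))
         (CovZ.badM (by decide +kernel)))))))
    (CovZ.n1 (1424, 352) (by decide +kernel)
     (CovZ.badM (by decide +kernel))
     (CovZ.n1 (1416, 344) (by decide +kernel)
      (CovZ.n2 (1416, 352) (by decide +kernel)
       (CovZ.badM (by decide +kernel))
       (CovZ.n1 (1412, 348) (by decide +kernel)
        (CovZ.n2 (1412, 352) (by decide +kernel)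
         (CovZ.n2 (1414, 350) (by decide +kernel)
          (CovZ.leaf K3_ok TN_l1253 _)
          (CovZ.n1 (1414, 352) (by decide +kernel)
           (CovZ.badM (by decide +kernel))
           (CovZ.leaf K3_ok TN_l1254 _)))
         (CovZ.n1 (1410, 350) (by decide +kernel)
          (CovZ.leaf K3_ok TN_l1255 _)
          (CovZ.n1 (1412, 350) (by decide +kernel)
           (CovZ.leaf K3_ok TN_l1256 _)
           (CovZ.leaf K3_ok TN_l1257 _))))
        (CovZ.subM 274877972480 (by decide +kernel)
         (CovZ.n1 (1416, 348) (by decide +kernel)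
          (CovZ.n2 (1414, 346) (by decide +kernel)
           (CovZ.n2 (1414, 348) (by decide +kernel)
            (CovZ.badM (by decide +kernel))
            (CovZ.leaf K3_ok TN_l1580 _))
           (CovZ.badM (by decide +kernel)))
          (CovZ.n1 (1414, 350) (by decide +kernel)
           (CovZ.badM (by decide +kernel))
           (CovZ.leaf K3_ok TN_l1581 _))))))
      (CovZ.badM (by decide +kernel))))))

theorem TN_s0_5 : SqZ TN_M TN_L [0, 7, 4, 3] 1376 192 32 0 5 :=
  SqZ.mk (a := 1376) (b := 1408) (c := 352) (d := 384) (by norm_num) (by norm_num) (by norm_num) (by norm_num)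
    (CovZ.topM TN_LL 4874274181170 (by decide +kernel) (CovZ.n2 (1392, 368) (by decide +kernel)
    (CovZ.n2 (1408, 368) (by decide +kernel)
     (CovZ.n2 (1400, 360) (by decide +kernel)
      (CovZ.n2 (1400, 368) (by decide +kernel)
       (CovZ.n2 (1404, 364) (by decide +kernel)
        (CovZ.n2 (1400, 364) (by decide +kernel)
         (CovZ.n2 (1402, 366) (by decide +kernel)
          (CovZ.leaf K3_ok TN_l459 _)
          (CovZ.leaf K3_ok TN_l460 _))
         (CovZ.n1 (1402, 362) (by decide +kernel)
          (CovZ.leaf K3_ok TN_l461 _)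
          (CovZ.leaf K3_ok TN_l462 _)))
        (CovZ.n1 (1404, 368) (by decide +kernel)
         (CovZ.n2 (1406, 366) (by decide +kernel)
          (CovZ.leaf K3_ok TN_l463 _)
          (CovZ.leaf K3_ok TN_l464 _))
         (CovZ.n1 (1402, 366) (by decide +kernel)
          (CovZ.leaf K3_ok TN_l465 _)
          (CovZ.leaf K3_ok TN_l466 _))))
       (CovZ.n1 (1396, 364) (by decide +kernel)
        (CovZ.n2 (1396, 368) (by decide +kernel)
         (CovZ.n2 (1398, 366) (by decide +kernel)
          (CovZ.leaf K3_ok TN_l467 _)
          (CovZ.leaf K3_ok TN_l468 _))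
         (CovZ.n1 (1394, 366) (by decide +kernel)
          (CovZ.leaf K3_ok TN_l469 _)
          (CovZ.leaf K3_ok TN_l470 _)))
        (CovZ.n1 (1400, 364) (by decide +kernel)
         (CovZ.n2 (1398, 362) (by decide +kernel)
          (CovZ.leaf K3_ok TN_l471 _)
          (CovZ.leaf K3_ok TN_l472 _))
         (CovZ.n1 (1398, 366) (by decide +kernel)
          (CovZ.leaf K3_ok TN_l473 _)
          (CovZ.leaf K3_ok TN_l474 _)))))
      (CovZ.n1 (1408, 360) (by decide +kernel)
       (CovZ.n2 (1404, 356) (by decide +kernel)
        (CovZ.n2 (1404, 360) (by decide +kernel)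
         (CovZ.n2 (1406, 358) (by decide +kernel)
          (CovZ.leaf K3_ok TN_l475 _)
          (CovZ.n1 (1406, 360) (by decide +kernel)
           (CovZ.leaf K3_ok TN_l476 _)
           (CovZ.leaf K3_ok TN_l477 _)))
         (CovZ.n1 (1402, 358) (by decide +kernel)
          (CovZ.leaf K3_ok TN_l478 _)
          (CovZ.leaf K3_ok TN_l479 _)))
        (CovZ.n1 (1408, 356) (by decide +kernel)
         (CovZ.n2 (1406, 354) (by decide +kernel)
          (CovZ.leaf K3_ok TN_l480 _)
          (CovZ.leaf K3_ok TN_l481 _))
         (CovZ.n1 (1406, 358) (by decide +kernel)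
          (CovZ.leaf K3_ok TN_l482 _)
          (CovZ.leaf K3_ok TN_l483 _))))
       (CovZ.n1 (1404, 364) (by decide +kernel)
        (CovZ.n2 (1408, 364) (by decide +kernel)
         (CovZ.n2 (1406, 362) (by decide +kernel)
          (CovZ.leaf K3_ok TN_l484 _)
          (CovZ.leaf K3_ok TN_l485 _))
         (CovZ.n1 (1406, 366) (by decide +kernel)
          (CovZ.leaf K3_ok TN_l486 _)
          (CovZ.leaf K3_ok TN_l487 _)))
        (CovZ.n1 (1404, 360) (by decide +kernel)
         (CovZ.n2 (1402, 362) (by decide +kernel)
          (CovZ.leaf K3_ok TN_l488 _)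
          (CovZ.leaf K3_ok TN_l489 _))
         (CovZ.n1 (1406, 362) (by decide +kernel)
          (CovZ.leaf K3_ok TN_l490 _)
          (CovZ.leaf K3_ok TN_l491 _))))))
     (CovZ.n1 (1400, 376) (by decide +kernel)
      (CovZ.n2 (1408, 376) (by decide +kernel)
       (CovZ.n2 (1404, 372) (by decide +kernel)
        (CovZ.n2 (1404, 376) (by decide +kernel)
         (CovZ.n2 (1406, 374) (by decide +kernel)
          (CovZ.leaf K3_ok TN_l492 _)
          (CovZ.leaf K3_ok TN_l493 _))
         (CovZ.n1 (1402, 374) (by decide +kernel)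
          (CovZ.leaf K3_ok TN_l494 _)
          (CovZ.leaf K3_ok TN_l495 _)))
        (CovZ.n1 (1408, 372) (by decide +kernel)
         (CovZ.n2 (1406, 370) (by decide +kernel)
          (CovZ.leaf K3_ok TN_l496 _)
          (CovZ.leaf K3_ok TN_l497 _))
         (CovZ.n1 (1406, 374) (by decide +kernel)
          (CovZ.leaf K3_ok TN_l498 _)
          (CovZ.leaf K3_ok TN_l499 _))))
       (CovZ.subM 4546761953312 (by decide +kernel)
        (CovZ.n1 (1404, 380) (by decide +kernel)
         (CovZ.n2 (1408, 380) (by decide +kernel)
          (CovZ.n2 (1406, 378) (by decide +kernel)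
           (CovZ.leaf K3_ok TN_l500 _)
           (CovZ.leaf K3_ok TN_l501 _))
          (CovZ.n1 (1406, 382) (by decide +kernel)
           (CovZ.leaf K3_ok TN_l502 _)
           (CovZ.leaf K3_ok TN_l503 _)))
         (CovZ.n1 (1404, 376) (by decide +kernel)
          (CovZ.n2 (1402, 378) (by decide +kernel)
           (CovZ.leaf K3_ok TN_l504 _)
           (CovZ.leaf K3_ok TN_l505 _))
          (CovZ.n1 (1406, 378) (by decide +kernel)
           (CovZ.leaf K3_ok TN_l506 _)
           (CovZ.leaf K3_ok TN_l507 _))))))
      (CovZ.n1 (1400, 368) (by decide +kernel)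
       (CovZ.n2 (1396, 372) (by decide +kernel)
        (CovZ.n2 (1400, 372) (by decide +kernel)
         (CovZ.n2 (1398, 370) (by decide +kernel)
          (CovZ.leaf K3_ok TN_l508 _)
          (CovZ.leaf K3_ok TN_l509 _))
         (CovZ.n1 (1398, 374) (by decide +kernel)
          (CovZ.leaf K3_ok TN_l510 _)
          (CovZ.leaf K3_ok TN_l511 _)))
        (CovZ.n1 (1396, 368) (by decide +kernel)
         (CovZ.leaf K3_ok TN_l512 _)
         (CovZ.n1 (1398, 370) (by decide +kernel)
          (CovZ.leaf K3_ok TN_l513 _)
          (CovZ.leaf K3_ok TN_l514 _))))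
       (CovZ.n1 (1404, 372) (by decide +kernel)
        (CovZ.n2 (1404, 368) (by decide +kernel)
         (CovZ.n2 (1402, 370) (by decide +kernel)
          (CovZ.leaf K3_ok TN_l515 _)
          (CovZ.leaf K3_ok TN_l516 _))
         (CovZ.n1 (1406, 370) (by decide +kernel)
          (CovZ.leaf K3_ok TN_l517 _)
          (CovZ.leaf K3_ok TN_l518 _)))
        (CovZ.n1 (1400, 372) (by decide +kernel)
         (CovZ.n2 (1402, 374) (by decide +kernel)
          (CovZ.leaf K3_ok TN_l519 _)
          (CovZ.leaf K3_ok TN_l520 _))
         (CovZ.n1 (1402, 370) (by decide +kernel)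
          (CovZ.leaf K3_ok TN_l521 _)
          (CovZ.leaf K3_ok TN_l522 _)))))))
    (CovZ.n1 (1392, 352) (by decide +kernel)
     (CovZ.subM 17184063488 (by decide +kernel)
      (CovZ.n2 (1384, 360) (by decide +kernel)
       (CovZ.n2 (1392, 360) (by decide +kernel)
        (CovZ.n2 (1388, 356) (by decide +kernel)
         (CovZ.n2 (1388, 360) (by decide +kernel)
          (CovZ.n2 (1390, 358) (by decide +kernel)
           (CovZ.badM (by decide +kernel))
           (CovZ.n1 (1390, 360) (by decide +kernel)
            (CovZ.leaf K3_ok TN_l523 _)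
            (CovZ.badM (by decide +kernel))))
          (CovZ.badM (by decide +kernel)))
         (CovZ.n1 (1392, 356) (by decide +kernel)
          (CovZ.n2 (1390, 354) (by decide +kernel)
           (CovZ.n2 (1390, 356) (by decide +kernel)
            (CovZ.leaf K3_ok TN_l524 _)
            (CovZ.badM (by decide +kernel)))
           (CovZ.leaf K3_ok TN_l525 _))
          (CovZ.n1 (1390, 358) (by decide +kernel)
           (CovZ.leaf K3_ok TN_l526 _)
           (CovZ.leaf K3_ok TN_l527 _))))
        (CovZ.n1 (1388, 364) (by decide +kernel)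
         (CovZ.n2 (1392, 364) (by decide +kernel)
          (CovZ.n2 (1390, 362) (by decide +kernel)
           (CovZ.n2 (1390, 364) (by decide +kernel)
            (CovZ.leaf K3_ok TN_l528 _)
            (CovZ.badM (by decide +kernel)))
           (CovZ.leaf K3_ok TN_l529 _))
          (CovZ.n1 (1390, 366) (by decide +kernel)
           (CovZ.leaf K3_ok TN_l530 _)
           (CovZ.leaf K3_ok TN_l531 _)))
         (CovZ.n1 (1388, 360) (by decide +kernel)
          (CovZ.badM (by decide +kernel))
          (CovZ.n1 (1390, 362) (by decide +kernel)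
           (CovZ.leaf K3_ok TN_l532 _)
           (CovZ.badM (by decide +kernel))))))
       (CovZ.n1 (1384, 352) (by decide +kernel)
        (CovZ.badM (by decide +kernel))
        (CovZ.n1 (1388, 356) (by decide +kernel)
         (CovZ.n2 (1388, 352) (by decide +kernel)
          (CovZ.badM (by decide +kernel))
          (CovZ.n1 (1390, 354) (by decide +kernel)
           (CovZ.leaf K3_ok TN_l533 _)
           (CovZ.badM (by decide +kernel))))
         (CovZ.badM (by decide +kernel))))))
     (CovZ.n1 (1400, 360) (by decide +kernel)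
      (CovZ.n2 (1400, 352) (by decide +kernel)
       (CovZ.n2 (1396, 356) (by decide +kernel)
        (CovZ.n2 (1400, 356) (by decide +kernel)
         (CovZ.n2 (1398, 354) (by decide +kernel)
          (CovZ.leaf K3_ok TN_l534 _)
          (CovZ.leaf K3_ok TN_l535 _))
         (CovZ.n1 (1398, 358) (by decide +kernel)
          (CovZ.leaf K3_ok TN_l536 _)
          (CovZ.leaf K3_ok TN_l537 _)))
        (CovZ.n1 (1396, 352) (by decide +kernel)
         (CovZ.n2 (1394, 354) (by decide +kernel)
          (CovZ.leaf K3_ok TN_l538 _)
          (CovZ.leaf K3_ok TN_l539 _))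
         (CovZ.n1 (1398, 354) (by decide +kernel)
          (CovZ.leaf K3_ok TN_l540 _)
          (CovZ.leaf K3_ok TN_l541 _))))
       (CovZ.n1 (1404, 356) (by decide +kernel)
        (CovZ.n2 (1404, 352) (by decide +kernel)
         (CovZ.n2 (1402, 354) (by decide +kernel)
          (CovZ.leaf K3_ok TN_l542 _)
          (CovZ.leaf K3_ok TN_l543 _))
         (CovZ.n1 (1406, 354) (by decide +kernel)
          (CovZ.leaf K3_ok TN_l544 _)
          (CovZ.leaf K3_ok TN_l545 _)))
        (CovZ.n1 (1400, 356) (by decide +kernel)
         (CovZ.n2 (1402, 358) (by decide +kernel)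
          (CovZ.leaf K3_ok TN_l546 _)
          (CovZ.leaf K3_ok TN_l547 _))
         (CovZ.n1 (1402, 354) (by decide +kernel)
          (CovZ.leaf K3_ok TN_l548 _)
          (CovZ.leaf K3_ok TN_l549 _)))))
      (CovZ.n1 (1392, 360) (by decide +kernel)
       (CovZ.n2 (1396, 364) (by decide +kernel)
        (CovZ.n2 (1396, 360) (by decide +kernel)
         (CovZ.n2 (1394, 362) (by decide +kernel)
          (CovZ.leaf K3_ok TN_l550 _)
          (CovZ.leaf K3_ok TN_l551 _))
         (CovZ.n1 (1398, 362) (by decide +kernel)
          (CovZ.leaf K3_ok TN_l552 _)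
          (CovZ.leaf K3_ok TN_l553 _)))
        (CovZ.subM 421449994272 (by decide +kernel)
         (CovZ.n1 (1392, 364) (by decide +kernel)
          (CovZ.n2 (1394, 366) (by decide +kernel)
           (CovZ.leaf K3_ok TN_l554 _)
           (CovZ.leaf K3_ok TN_l555 _))
          (CovZ.n1 (1394, 362) (by decide +kernel)
           (CovZ.leaf K3_ok TN_l556 _)
           (CovZ.leaf K3_ok TN_l557 _)))))
       (CovZ.n1 (1396, 356) (by decide +kernel)
        (CovZ.subM 421449994272 (by decide +kernel)
         (CovZ.n2 (1392, 356) (by decide +kernel)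
          (CovZ.n2 (1394, 358) (by decide +kernel)
           (CovZ.leaf K3_ok TN_l558 _)
           (CovZ.leaf K3_ok TN_l559 _))
          (CovZ.n1 (1394, 354) (by decide +kernel)
           (CovZ.leaf K3_ok TN_l560 _)
           (CovZ.leaf K3_ok TN_l561 _))))
        (CovZ.n1 (1396, 360) (by decide +kernel)
         (CovZ.n2 (1398, 358) (by decide +kernel)
          (CovZ.leaf K3_ok TN_l562 _)
          (CovZ.leaf K3_ok TN_l563 _))
         (CovZ.n1 (1394, 358) (by decide +kernel)
          (CovZ.leaf K3_ok TN_l564 _)
          (CovZ.leaf K3_ok TN_l565 _)))))))))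
    (CovZ.topM TN_LL 4873200439330 (by decide +kernel) (CovZ.n0 (1392, 368) (by decide +kernel)
    (CovZ.subM 17184063488 (by decide +kernel)
     (CovZ.n2 (1376, 368) (by decide +kernel)
      (CovZ.n2 (1384, 376) (by decide +kernel)
       (CovZ.n2 (1384, 368) (by decide +kernel)
        (CovZ.badM (by decide +kernel))
        (CovZ.n1 (1388, 372) (by decide +kernel)
         (CovZ.n2 (1388, 368) (by decide +kernel)
          (CovZ.badM (by decide +kernel))
          (CovZ.n1 (1390, 370) (by decide +kernel)
           (CovZ.leaf K3_ok TN_l566 _)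
           (CovZ.badM (by decide +kernel))))
         (CovZ.badM (by decide +kernel))))
       (CovZ.badM (by decide +kernel)))
      (CovZ.n1 (1384, 360) (by decide +kernel)
       (CovZ.badM (by decide +kernel))
       (CovZ.n1 (1384, 368) (by decide +kernel)
        (CovZ.n2 (1388, 364) (by decide +kernel)
         (CovZ.badM (by decide +kernel))
         (CovZ.n1 (1388, 368) (by decide +kernel)
          (CovZ.n2 (1390, 366) (by decide +kernel)
           (CovZ.badM (by decide +kernel))
           (CovZ.n1 (1390, 368) (by decide +kernel)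
            (CovZ.leaf K3_ok TN_l567 _)
            (CovZ.badM (by decide +kernel))))
          (CovZ.badM (by decide +kernel))))
        (CovZ.badM (by decide +kernel))))))
    (CovZ.n1 (1392, 384) (by decide +kernel)
     (CovZ.n2 (1400, 376) (by decide +kernel)
      (CovZ.n2 (1392, 376) (by decide +kernel)
       (CovZ.n2 (1396, 380) (by decide +kernel)
        (CovZ.n2 (1396, 376) (by decide +kernel)
         (CovZ.n2 (1394, 378) (by decide +kernel)
          (CovZ.leaf K3_ok TN_l568 _)
          (CovZ.leaf K3_ok TN_l569 _))
         (CovZ.n1 (1398, 378) (by decide +kernel)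
          (CovZ.leaf K3_ok TN_l570 _)
          (CovZ.leaf K3_ok TN_l571 _)))
        (CovZ.subM 148180602912 (by decide +kernel)
         (CovZ.n1 (1392, 380) (by decide +kernel)
          (CovZ.n2 (1394, 382) (by decide +kernel)
           (CovZ.leaf K3_ok TN_l572 _)
           (CovZ.leaf K3_ok TN_l573 _))
          (CovZ.n1 (1394, 378) (by decide +kernel)
           (CovZ.leaf K3_ok TN_l574 _)
           (CovZ.leaf K3_ok TN_l575 _)))))
       (CovZ.n1 (1396, 372) (by decide +kernel)
        (CovZ.subM 423060607008 (by decide +kernel)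
         (CovZ.n2 (1392, 372) (by decide +kernel)
          (CovZ.n2 (1394, 374) (by decide +kernel)
           (CovZ.leaf K3_ok TN_l576 _)
           (CovZ.leaf K3_ok TN_l577 _))
          (CovZ.n1 (1394, 370) (by decide +kernel)
           (CovZ.leaf K3_ok TN_l578 _)
           (CovZ.leaf K3_ok TN_l579 _))))
        (CovZ.n1 (1396, 376) (by decide +kernel)
         (CovZ.n2 (1398, 374) (by decide +kernel)
          (CovZ.leaf K3_ok TN_l580 _)
          (CovZ.leaf K3_ok TN_l581 _))
         (CovZ.n1 (1394, 374) (by decide +kernel)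
          (CovZ.leaf K3_ok TN_l582 _)
          (CovZ.leaf K3_ok TN_l583 _)))))
      (CovZ.n1 (1400, 384) (by decide +kernel)
       (CovZ.n2 (1404, 380) (by decide +kernel)
        (CovZ.subM 148715442208 (by decide +kernel)
         (CovZ.n2 (1400, 380) (by decide +kernel)
          (CovZ.n2 (1402, 382) (by decide +kernel)
           (CovZ.leaf K3_ok TN_l584 _)
           (CovZ.leaf K3_ok TN_l585 _))
          (CovZ.n1 (1402, 378) (by decide +kernel)
           (CovZ.leaf K3_ok TN_l586 _)
           (CovZ.leaf K3_ok TN_l587 _))))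
        (CovZ.subM 146567893024 (by decide +kernel)
         (CovZ.n1 (1404, 384) (by decide +kernel)
          (CovZ.n2 (1406, 382) (by decide +kernel)
           (CovZ.leaf K3_ok TN_l588 _)
           (CovZ.leaf K3_ok TN_l589 _))
          (CovZ.n1 (1402, 382) (by decide +kernel)
           (CovZ.leaf K3_ok TN_l590 _)
           (CovZ.leaf K3_ok TN_l591 _)))))
       (CovZ.n1 (1396, 380) (by decide +kernel)
        (CovZ.subM 146567958562 (by decide +kernel)
         (CovZ.n2 (1396, 384) (by decide +kernel)
          (CovZ.n2 (1398, 382) (by decide +kernel)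
           (CovZ.leaf K3_ok TN_l592 _)
           (CovZ.leaf K3_ok TN_l593 _))
          (CovZ.n1 (1394, 382) (by decide +kernel)
           (CovZ.leaf K3_ok TN_l594 _)
           (CovZ.leaf K3_ok TN_l595 _))))
        (CovZ.subM 148715442208 (by decide +kernel)
         (CovZ.n1 (1400, 380) (by decide +kernel)
          (CovZ.n2 (1398, 378) (by decide +kernel)
           (CovZ.leaf K3_ok TN_l596 _)
           (CovZ.leaf K3_ok TN_l597 _))
          (CovZ.n1 (1398, 382) (by decide +kernel)
           (CovZ.leaf K3_ok TN_l598 _)
           (CovZ.leaf K3_ok TN_l599 _)))))))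
     (CovZ.subM 274882101248 (by decide +kernel)
      (CovZ.n1 (1384, 376) (by decide +kernel)
       (CovZ.n2 (1384, 384) (by decide +kernel)
        (CovZ.n2 (1388, 380) (by decide +kernel)
         (CovZ.badM (by decide +kernel))
         (CovZ.n1 (1388, 384) (by decide +kernel)
          (CovZ.n2 (1390, 382) (by decide +kernel)
           (CovZ.badM (by decide +kernel))
           (CovZ.badM (by decide +kernel)))
          (CovZ.badM (by decide +kernel))))
        (CovZ.badM (by decide +kernel)))
       (CovZ.n1 (1392, 376) (by decide +kernel)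
        (CovZ.n2 (1388, 372) (by decide +kernel)
         (CovZ.n2 (1388, 376) (by decide +kernel)
          (CovZ.n2 (1390, 374) (by decide +kernel)
           (CovZ.badM (by decide +kernel))
           (CovZ.n1 (1390, 376) (by decide +kernel)
            (CovZ.leaf K3_ok TN_l600 _)
            (CovZ.badM (by decide +kernel))))
          (CovZ.badM (by decide +kernel)))
         (CovZ.n1 (1392, 372) (by decide +kernel)
          (CovZ.n2 (1390, 370) (by decide +kernel)
           (CovZ.n2 (1390, 372) (by decide +kernel)
            (CovZ.leaf K3_ok TN_l601 _)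
            (CovZ.badM (by decide +kernel)))
           (CovZ.leaf K3_ok TN_l602 _))
          (CovZ.n1 (1390, 374) (by decide +kernel)
           (CovZ.leaf K3_ok TN_l603 _)
           (CovZ.leaf K3_ok TN_l604 _))))
        (CovZ.n1 (1388, 380) (by decide +kernel)
         (CovZ.n2 (1392, 380) (by decide +kernel)
          (CovZ.n2 (1390, 378) (by decide +kernel)
           (CovZ.n2 (1390, 380) (by decide +kernel)
            (CovZ.leaf K3_ok TN_l605 _)
            (CovZ.badM (by decide +kernel)))
           (CovZ.n1 (1392, 378) (by decide +kernel)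
            (CovZ.leaf K3_ok TN_l606 _)
            (CovZ.leaf K3_ok TN_l607 _)))
          (CovZ.n1 (1390, 382) (by decide +kernel)
           (CovZ.badM (by decide +kernel))
           (CovZ.leaf K3_ok TN_l608 _)))
         (CovZ.n1 (1388, 376) (by decide +kernel)
          (CovZ.badM (by decide +kernel))
          (CovZ.n1 (1390, 378) (by decide +kernel)
           (CovZ.leaf K3_ok TN_l609 _)
           (CovZ.badM (by decide +kernel)))))))))))

theorem TN_s1_5 : SqZ TN_M TN_L [0, 7, 4, 3] 1376 192 32 1 5 :=
  SqZ.mk (a := 1408) (b := 1440) (c := 352) (d := 384) (by norm_num) (by norm_num) (by norm_num) (by norm_num)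
    (CovZ.topM TN_LL 4683661901856 (by decide +kernel) (CovZ.n2 (1424, 368) (by decide +kernel)
    (CovZ.badM (by decide +kernel))
    (CovZ.n1 (1424, 352) (by decide +kernel)
     (CovZ.n2 (1416, 360) (by decide +kernel)
      (CovZ.badM (by decide +kernel))
      (CovZ.n1 (1416, 352) (by decide +kernel)
       (CovZ.n2 (1412, 356) (by decide +kernel)
        (CovZ.subM 4672924483584 (by decide +kernel)
         (CovZ.n2 (1416, 356) (by decide +kernel)
          (CovZ.n2 (1414, 354) (by decide +kernel)
           (CovZ.n2 (1414, 356) (by decide +kernel)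
            (CovZ.leaf K3_ok TN_l1258 _)
            (CovZ.leaf K3_ok TN_l1259 _))
           (CovZ.badM (by decide +kernel)))
          (CovZ.n1 (1414, 358) (by decide +kernel)
           (CovZ.n2 (1416, 358) (by decide +kernel)
            (CovZ.leaf K3_ok TN_l1260 _)
            (CovZ.leaf K3_ok TN_l1261 _))
           (CovZ.leaf K3_ok TN_l1262 _))))
        (CovZ.n1 (1412, 352) (by decide +kernel)
         (CovZ.n2 (1410, 354) (by decide +kernel)
          (CovZ.n2 (1412, 354) (by decide +kernel)
           (CovZ.leaf K3_ok TN_l1263 _)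
           (CovZ.leaf K3_ok TN_l1264 _))
          (CovZ.leaf K3_ok TN_l1265 _))
         (CovZ.n1 (1414, 354) (by decide +kernel)
          (CovZ.leaf K3_ok TN_l1266 _)
          (CovZ.leaf K3_ok TN_l1267 _))))
       (CovZ.badM (by decide +kernel))))
     (CovZ.badM (by decide +kernel)))))
    (CovZ.topM TN_LL 4683661901856 (by decide +kernel) (CovZ.n0 (1424, 368) (by decide +kernel)
    (CovZ.n2 (1408, 368) (by decide +kernel)
     (CovZ.n2 (1416, 376) (by decide +kernel)
      (CovZ.n2 (1416, 368) (by decide +kernel)
       (CovZ.n2 (1412, 372) (by decide +kernel)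
        (CovZ.n2 (1416, 372) (by decide +kernel)
         (CovZ.n2 (1414, 370) (by decide +kernel)
          (CovZ.n2 (1414, 372) (by decide +kernel)
           (CovZ.badM (by decide +kernel))
           (CovZ.leaf K3_ok TN_l1268 _))
          (CovZ.n1 (1416, 370) (by decide +kernel)
           (CovZ.leaf K3_ok TN_l1269 _)
           (CovZ.badM (by decide +kernel))))
         (CovZ.n1 (1414, 374) (by decide +kernel)
          (CovZ.badM (by decide +kernel))
          (CovZ.leaf K3_ok TN_l1270 _)))
        (CovZ.n1 (1412, 368) (by decide +kernel)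
         (CovZ.n2 (1410, 370) (by decide +kernel)
          (CovZ.leaf K3_ok TN_l1271 _)
          (CovZ.leaf K3_ok TN_l1272 _))
         (CovZ.n1 (1414, 370) (by decide +kernel)
          (CovZ.leaf K3_ok TN_l1273 _)
          (CovZ.leaf K3_ok TN_l1274 _))))
       (CovZ.n1 (1420, 372) (by decide +kernel)
        (CovZ.badM (by decide +kernel))
        (CovZ.n1 (1416, 372) (by decide +kernel)
         (CovZ.badM (by decide +kernel))
         (CovZ.badM (by decide +kernel)))))
      (CovZ.n1 (1408, 376) (by decide +kernel)
       (CovZ.subM 10737418272 (by decide +kernel)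
        (CovZ.n2 (1412, 380) (by decide +kernel)
         (CovZ.n2 (1412, 376) (by decide +kernel)
          (CovZ.n2 (1410, 378) (by decide +kernel)
           (CovZ.leaf K3_ok TN_l1275 _)
           (CovZ.leaf K3_ok TN_l1276 _))
          (CovZ.n1 (1414, 378) (by decide +kernel)
           (CovZ.leaf K3_ok TN_l1277 _)
           (CovZ.leaf K3_ok TN_l1278 _)))
         (CovZ.n1 (1408, 380) (by decide +kernel)
          (CovZ.n2 (1410, 382) (by decide +kernel)
           (CovZ.leaf K3_ok TN_l1279 _)
           (CovZ.leaf K3_ok TN_l1280 _))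
          (CovZ.n1 (1410, 378) (by decide +kernel)
           (CovZ.leaf K3_ok TN_l1281 _)
           (CovZ.leaf K3_ok TN_l1282 _)))))
       (CovZ.n1 (1412, 372) (by decide +kernel)
        (CovZ.n2 (1408, 372) (by decide +kernel)
         (CovZ.n2 (1410, 374) (by decide +kernel)
          (CovZ.leaf K3_ok TN_l1283 _)
          (CovZ.leaf K3_ok TN_l1284 _))
         (CovZ.n1 (1410, 370) (by decide +kernel)
          (CovZ.leaf K3_ok TN_l1285 _)
          (CovZ.n1 (1410, 372) (by decide +kernel)
           (CovZ.leaf K3_ok TN_l1286 _)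
           (CovZ.leaf K3_ok TN_l1287 _))))
        (CovZ.n1 (1412, 376) (by decide +kernel)
         (CovZ.subM 285615325184 (by decide +kernel)
          (CovZ.n2 (1414, 374) (by decide +kernel)
           (CovZ.n2 (1412, 374) (by decide +kernel)
            (CovZ.leaf K3_ok TN_l1288 _)
            (CovZ.leaf K3_ok TN_l1289 _))
           (CovZ.n1 (1414, 376) (by decide +kernel)
            (CovZ.badM (by decide +kernel))
            (CovZ.leaf K3_ok TN_l1290 _))))
         (CovZ.n1 (1410, 374) (by decide +kernel)
          (CovZ.leaf K3_ok TN_l1291 _)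
          (CovZ.n1 (1412, 374) (by decide +kernel)
           (CovZ.leaf K3_ok TN_l1292 _)
           (CovZ.leaf K3_ok TN_l1293 _)))))))
     (CovZ.n1 (1416, 360) (by decide +kernel)
      (CovZ.n2 (1408, 360) (by decide +kernel)
       (CovZ.n2 (1412, 364) (by decide +kernel)
        (CovZ.n2 (1412, 360) (by decide +kernel)
         (CovZ.n2 (1410, 362) (by decide +kernel)
          (CovZ.n2 (1412, 362) (by decide +kernel)
           (CovZ.leaf K3_ok TN_l1294 _)
           (CovZ.leaf K3_ok TN_l1295 _))
          (CovZ.leaf K3_ok TN_l1296 _))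
         (CovZ.n1 (1414, 362) (by decide +kernel)
          (CovZ.leaf K3_ok TN_l1297 _)
          (CovZ.leaf K3_ok TN_l1298 _)))
        (CovZ.n1 (1408, 364) (by decide +kernel)
         (CovZ.n2 (1410, 366) (by decide +kernel)
          (CovZ.leaf K3_ok TN_l1299 _)
          (CovZ.leaf K3_ok TN_l1300 _))
         (CovZ.n1 (1410, 362) (by decide +kernel)
          (CovZ.leaf K3_ok TN_l1301 _)
          (CovZ.n1 (1410, 364) (by decide +kernel)
           (CovZ.leaf K3_ok TN_l1302 _)
           (CovZ.leaf K3_ok TN_l1303 _)))))
       (CovZ.n1 (1412, 356) (by decide +kernel)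
        (CovZ.n2 (1408, 356) (by decide +kernel)
         (CovZ.n2 (1410, 358) (by decide +kernel)
          (CovZ.leaf K3_ok TN_l1304 _)
          (CovZ.leaf K3_ok TN_l1305 _))
         (CovZ.n1 (1410, 354) (by decide +kernel)
          (CovZ.leaf K3_ok TN_l1306 _)
          (CovZ.n1 (1410, 356) (by decide +kernel)
           (CovZ.leaf K3_ok TN_l1307 _)
           (CovZ.leaf K3_ok TN_l1308 _))))
        (CovZ.n1 (1412, 360) (by decide +kernel)
         (CovZ.n2 (1414, 358) (by decide +kernel)
          (CovZ.leaf K3_ok TN_l1309 _)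
          (CovZ.n1 (1414, 360) (by decide +kernel)
           (CovZ.leaf K3_ok TN_l1310 _)
           (CovZ.leaf K3_ok TN_l1311 _)))
         (CovZ.n1 (1410, 358) (by decide +kernel)
          (CovZ.n2 (1410, 360) (by decide +kernel)
           (CovZ.leaf K3_ok TN_l1312 _)
           (CovZ.leaf K3_ok TN_l1313 _))
          (CovZ.n1 (1412, 358) (by decide +kernel)
           (CovZ.leaf K3_ok TN_l1314 _)
           (CovZ.leaf K3_ok TN_l1315 _))))))
      (CovZ.n1 (1416, 368) (by decide +kernel)
       (CovZ.subM 4398046511104 (by decide +kernel)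
        (CovZ.n2 (1420, 364) (by decide +kernel)
         (CovZ.n2 (1416, 364) (by decide +kernel)
          (CovZ.n2 (1418, 366) (by decide +kernel)
           (CovZ.leaf K3_ok TN_l1582 _)
           (CovZ.n1 (1416, 366) (by decide +kernel)
            (CovZ.badM (by decide +kernel))
            (CovZ.leaf K3_ok TN_l1583 _)))
          (CovZ.n1 (1418, 362) (by decide +kernel)
           (CovZ.n2 (1416, 362) (by decide +kernel)
            (CovZ.leaf K3_ok TN_l1584 _)
            (CovZ.badM (by decide +kernel)))
           (CovZ.n1 (1418, 364) (by decide +kernel)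
            (CovZ.badM (by decide +kernel))
            (CovZ.leaf K3_ok TN_l1585 _))))
         (CovZ.badM (by decide +kernel))))
       (CovZ.n1 (1412, 364) (by decide +kernel)
        (CovZ.n2 (1412, 368) (by decide +kernel)
         (CovZ.n2 (1414, 366) (by decide +kernel)
          (CovZ.leaf K3_ok TN_l1316 _)
          (CovZ.n1 (1414, 368) (by decide +kernel)
           (CovZ.leaf K3_ok TN_l1317 _)
           (CovZ.leaf K3_ok TN_l1318 _)))
         (CovZ.n1 (1410, 366) (by decide +kernel)
          (CovZ.leaf K3_ok TN_l1319 _)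
          (CovZ.n1 (1412, 366) (by decide +kernel)
           (CovZ.leaf K3_ok TN_l1320 _)
           (CovZ.leaf K3_ok TN_l1321 _))))
        (CovZ.subM 4672924483584 (by decide +kernel)
         (CovZ.n1 (1416, 364) (by decide +kernel)
          (CovZ.n2 (1414, 362) (by decide +kernel)
           (CovZ.n2 (1414, 364) (by decide +kernel)
            (CovZ.leaf K3_ok TN_l1322 _)
            (CovZ.leaf K3_ok TN_l1323 _))
           (CovZ.n1 (1416, 362) (by decide +kernel)
            (CovZ.leaf K3_ok TN_l1324 _)
            (CovZ.leaf K3_ok TN_l1325 _)))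
          (CovZ.n1 (1414, 366) (by decide +kernel)
           (CovZ.n2 (1416, 366) (by decide +kernel)
            (CovZ.leaf K3_ok TN_l1326 _)
            (CovZ.leaf K3_ok TN_l1327 _))
           (CovZ.leaf K3_ok TN_l1328 _))))))))
    (CovZ.n1 (1424, 384) (by decide +kernel)
     (CovZ.badM (by decide +kernel))
     (CovZ.n1 (1416, 376) (by decide +kernel)
      (CovZ.subM 10737418272 (by decide +kernel)
       (CovZ.n2 (1416, 384) (by decide +kernel)
        (CovZ.badM (by decide +kernel))
        (CovZ.n1 (1412, 380) (by decide +kernel)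
         (CovZ.n2 (1412, 384) (by decide +kernel)
          (CovZ.n2 (1414, 382) (by decide +kernel)
           (CovZ.leaf K3_ok TN_l1329 _)
           (CovZ.leaf K3_ok TN_l1330 _))
          (CovZ.n1 (1410, 382) (by decide +kernel)
           (CovZ.n2 (1410, 384) (by decide +kernel)
            (CovZ.leaf K3_ok TN_l1331 _)
            (CovZ.leaf K3_ok TN_l1332 _))
           (CovZ.n1 (1412, 382) (by decide +kernel)
            (CovZ.leaf K3_ok TN_l1333 _)
            (CovZ.leaf K3_ok TN_l1334 _))))
         (CovZ.n1 (1416, 380) (by decide +kernel)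
          (CovZ.n2 (1414, 378) (by decide +kernel)
           (CovZ.n2 (1414, 380) (by decide +kernel)
            (CovZ.badM (by decide +kernel))
            (CovZ.leaf K3_ok TN_l1335 _))
           (CovZ.badM (by decide +kernel)))
          (CovZ.n1 (1414, 382) (by decide +kernel)
           (CovZ.badM (by decide +kernel))
           (CovZ.leaf K3_ok TN_l1336 _))))))
      (CovZ.badM (by decide +kernel))))))

theorem TN_s0_6 : SqZ TN_M TN_L [0, 7, 4, 3] 1376 192 32 0 6 :=
  SqZ.mk (a := 1376) (b := 1408) (c := 384) (d := 416) (by norm_num) (by norm_num) (by norm_num) (by norm_num)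
    (CovZ.topM TN_LL 4544618663971 (by decide +kernel) (CovZ.n2 (1392, 400) (by decide +kernel)
    (CovZ.n2 (1408, 400) (by decide +kernel)
     (CovZ.n2 (1400, 392) (by decide +kernel)
      (CovZ.n2 (1400, 400) (by decide +kernel)
       (CovZ.n2 (1404, 396) (by decide +kernel)
        (CovZ.n2 (1400, 396) (by decide +kernel)
         (CovZ.n2 (1402, 398) (by decide +kernel)
          (CovZ.leaf K3_ok TN_l610 _)
          (CovZ.leaf K3_ok TN_l611 _))
         (CovZ.n1 (1402, 394) (by decide +kernel)
          (CovZ.leaf K3_ok TN_l612 _)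
          (CovZ.leaf K3_ok TN_l613 _)))
        (CovZ.n1 (1404, 400) (by decide +kernel)
         (CovZ.n2 (1406, 398) (by decide +kernel)
          (CovZ.leaf K3_ok TN_l614 _)
          (CovZ.leaf K3_ok TN_l615 _))
         (CovZ.n1 (1402, 398) (by decide +kernel)
          (CovZ.leaf K3_ok TN_l616 _)
          (CovZ.leaf K3_ok TN_l617 _))))
       (CovZ.n1 (1396, 396) (by decide +kernel)
        (CovZ.n2 (1396, 400) (by decide +kernel)
         (CovZ.n2 (1398, 398) (by decide +kernel)
          (CovZ.leaf K3_ok TN_l618 _)
          (CovZ.leaf K3_ok TN_l619 _))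
         (CovZ.n1 (1394, 398) (by decide +kernel)
          (CovZ.leaf K3_ok TN_l620 _)
          (CovZ.leaf K3_ok TN_l621 _)))
        (CovZ.n1 (1400, 396) (by decide +kernel)
         (CovZ.n2 (1398, 394) (by decide +kernel)
          (CovZ.leaf K3_ok TN_l622 _)
          (CovZ.leaf K3_ok TN_l623 _))
         (CovZ.n1 (1398, 398) (by decide +kernel)
          (CovZ.leaf K3_ok TN_l624 _)
          (CovZ.leaf K3_ok TN_l625 _)))))
      (CovZ.n1 (1408, 392) (by decide +kernel)
       (CovZ.subM 146567893024 (by decide +kernel)
        (CovZ.n2 (1404, 388) (by decide +kernel)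
         (CovZ.n2 (1404, 392) (by decide +kernel)
          (CovZ.n2 (1406, 390) (by decide +kernel)
           (CovZ.leaf K3_ok TN_l626 _)
           (CovZ.leaf K3_ok TN_l627 _))
          (CovZ.n1 (1402, 390) (by decide +kernel)
           (CovZ.leaf K3_ok TN_l628 _)
           (CovZ.leaf K3_ok TN_l629 _)))
         (CovZ.n1 (1408, 388) (by decide +kernel)
          (CovZ.n2 (1406, 386) (by decide +kernel)
           (CovZ.leaf K3_ok TN_l630 _)
           (CovZ.leaf K3_ok TN_l631 _))
          (CovZ.n1 (1406, 390) (by decide +kernel)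
           (CovZ.leaf K3_ok TN_l632 _)
           (CovZ.leaf K3_ok TN_l633 _)))))
       (CovZ.n1 (1404, 396) (by decide +kernel)
        (CovZ.n2 (1408, 396) (by decide +kernel)
         (CovZ.n2 (1406, 394) (by decide +kernel)
          (CovZ.leaf K3_ok TN_l634 _)
          (CovZ.leaf K3_ok TN_l635 _))
         (CovZ.n1 (1406, 398) (by decide +kernel)
          (CovZ.leaf K3_ok TN_l636 _)
          (CovZ.leaf K3_ok TN_l637 _)))
        (CovZ.n1 (1404, 392) (by decide +kernel)
         (CovZ.n2 (1402, 394) (by decide +kernel)
          (CovZ.leaf K3_ok TN_l638 _)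
          (CovZ.leaf K3_ok TN_l639 _))
         (CovZ.n1 (1406, 394) (by decide +kernel)
          (CovZ.leaf K3_ok TN_l640 _)
          (CovZ.leaf K3_ok TN_l641 _))))))
     (CovZ.n1 (1400, 408) (by decide +kernel)
      (CovZ.n2 (1408, 408) (by decide +kernel)
       (CovZ.n2 (1404, 404) (by decide +kernel)
        (CovZ.n2 (1404, 408) (by decide +kernel)
         (CovZ.n2 (1406, 406) (by decide +kernel)
          (CovZ.leaf K3_ok TN_l642 _)
          (CovZ.leaf K3_ok TN_l643 _))
         (CovZ.n1 (1402, 406) (by decide +kernel)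
          (CovZ.leaf K3_ok TN_l644 _)
          (CovZ.leaf K3_ok TN_l645 _)))
        (CovZ.subM 137977958433 (by decide +kernel)
         (CovZ.n1 (1408, 404) (by decide +kernel)
          (CovZ.n2 (1406, 402) (by decide +kernel)
           (CovZ.leaf K3_ok TN_l646 _)
           (CovZ.leaf K3_ok TN_l647 _))
          (CovZ.n1 (1406, 406) (by decide +kernel)
           (CovZ.leaf K3_ok TN_l648 _)
           (CovZ.leaf K3_ok TN_l649 _)))))
       (CovZ.n1 (1404, 412) (by decide +kernel)
        (CovZ.subM 137977958433 (by decide +kernel)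
         (CovZ.n2 (1408, 412) (by decide +kernel)
          (CovZ.n2 (1406, 410) (by decide +kernel)
           (CovZ.leaf K3_ok TN_l650 _)
           (CovZ.leaf K3_ok TN_l651 _))
          (CovZ.n1 (1406, 414) (by decide +kernel)
           (CovZ.leaf K3_ok TN_l652 _)
           (CovZ.leaf K3_ok TN_l653 _))))
        (CovZ.n1 (1404, 408) (by decide +kernel)
         (CovZ.n2 (1402, 410) (by decide +kernel)
          (CovZ.leaf K3_ok TN_l654 _)
          (CovZ.leaf K3_ok TN_l655 _))
         (CovZ.n1 (1406, 410) (by decide +kernel)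
          (CovZ.leaf K3_ok TN_l656 _)
          (CovZ.leaf K3_ok TN_l657 _)))))
      (CovZ.n1 (1400, 400) (by decide +kernel)
       (CovZ.n2 (1396, 404) (by decide +kernel)
        (CovZ.n2 (1400, 404) (by decide +kernel)
         (CovZ.n2 (1398, 402) (by decide +kernel)
          (CovZ.leaf K3_ok TN_l658 _)
          (CovZ.leaf K3_ok TN_l659 _))
         (CovZ.n1 (1398, 406) (by decide +kernel)
          (CovZ.leaf K3_ok TN_l660 _)
          (CovZ.leaf K3_ok TN_l661 _)))
        (CovZ.n1 (1396, 400) (by decide +kernel)
         (CovZ.leaf K3_ok TN_l662 _)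
         (CovZ.leaf K3_ok TN_l663 _)))
       (CovZ.n1 (1404, 404) (by decide +kernel)
        (CovZ.n2 (1404, 400) (by decide +kernel)
         (CovZ.n2 (1402, 402) (by decide +kernel)
          (CovZ.leaf K3_ok TN_l664 _)
          (CovZ.leaf K3_ok TN_l665 _))
         (CovZ.n1 (1406, 402) (by decide +kernel)
          (CovZ.leaf K3_ok TN_l666 _)
          (CovZ.leaf K3_ok TN_l667 _)))
        (CovZ.n1 (1400, 404) (by decide +kernel)
         (CovZ.n2 (1402, 406) (by decide +kernel)
          (CovZ.leaf K3_ok TN_l668 _)
          (CovZ.leaf K3_ok TN_l669 _))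
         (CovZ.n1 (1402, 402) (by decide +kernel)
          (CovZ.leaf K3_ok TN_l670 _)
          (CovZ.leaf K3_ok TN_l671 _)))))))
    (CovZ.n1 (1392, 384) (by decide +kernel)
     (CovZ.subM 137443147777 (by decide +kernel)
      (CovZ.n2 (1384, 392) (by decide +kernel)
       (CovZ.n2 (1392, 392) (by decide +kernel)
        (CovZ.n2 (1388, 388) (by decide +kernel)
         (CovZ.n2 (1388, 392) (by decide +kernel)
          (CovZ.n2 (1390, 390) (by decide +kernel)
           (CovZ.badM (by decide +kernel))
           (CovZ.n1 (1390, 392) (by decide +kernel)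
            (CovZ.leaf K3_ok TN_l672 _)
            (CovZ.badM (by decide +kernel))))
          (CovZ.badM (by decide +kernel)))
         (CovZ.n1 (1392, 388) (by decide +kernel)
          (CovZ.badM (by decide +kernel))
          (CovZ.n1 (1390, 390) (by decide +kernel)
           (CovZ.leaf K3_ok TN_l673 _)
           (CovZ.badM (by decide +kernel)))))
        (CovZ.n1 (1388, 396) (by decide +kernel)
         (CovZ.n2 (1392, 396) (by decide +kernel)
          (CovZ.n2 (1390, 394) (by decide +kernel)
           (CovZ.leaf K3_ok TN_l674 _)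
           (CovZ.leaf K3_ok TN_l675 _))
          (CovZ.n1 (1390, 398) (by decide +kernel)
           (CovZ.leaf K3_ok TN_l676 _)
           (CovZ.leaf K3_ok TN_l677 _)))
         (CovZ.n1 (1388, 392) (by decide +kernel)
          (CovZ.badM (by decide +kernel))
          (CovZ.n1 (1390, 394) (by decide +kernel)
           (CovZ.leaf K3_ok TN_l678 _)
           (CovZ.badM (by decide +kernel))))))
       (CovZ.n1 (1384, 384) (by decide +kernel)
        (CovZ.badM (by decide +kernel))
        (CovZ.badM (by decide +kernel)))))
     (CovZ.n1 (1400, 392) (by decide +kernel)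
      (CovZ.n2 (1400, 384) (by decide +kernel)
       (CovZ.n2 (1396, 388) (by decide +kernel)
        (CovZ.subM 146567893024 (by decide +kernel)
         (CovZ.n2 (1400, 388) (by decide +kernel)
          (CovZ.n2 (1398, 386) (by decide +kernel)
           (CovZ.leaf K3_ok TN_l679 _)
           (CovZ.leaf K3_ok TN_l680 _))
          (CovZ.n1 (1398, 390) (by decide +kernel)
           (CovZ.leaf K3_ok TN_l681 _)
           (CovZ.leaf K3_ok TN_l682 _))))
        (CovZ.n1 (1396, 384) (by decide +kernel)
         (CovZ.leaf K3_ok TN_l683 _)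
         (CovZ.n1 (1398, 386) (by decide +kernel)
          (CovZ.leaf K3_ok TN_l684 _)
          (CovZ.leaf K3_ok TN_l685 _))))
       (CovZ.subM 146567893024 (by decide +kernel)
        (CovZ.n1 (1404, 388) (by decide +kernel)
         (CovZ.n2 (1404, 384) (by decide +kernel)
          (CovZ.n2 (1402, 386) (by decide +kernel)
           (CovZ.leaf K3_ok TN_l686 _)
           (CovZ.leaf K3_ok TN_l687 _))
          (CovZ.n1 (1406, 386) (by decide +kernel)
           (CovZ.leaf K3_ok TN_l688 _)
           (CovZ.leaf K3_ok TN_l689 _)))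
         (CovZ.n1 (1400, 388) (by decide +kernel)
          (CovZ.n2 (1402, 390) (by decide +kernel)
           (CovZ.leaf K3_ok TN_l690 _)
           (CovZ.leaf K3_ok TN_l691 _))
          (CovZ.n1 (1402, 386) (by decide +kernel)
           (CovZ.leaf K3_ok TN_l692 _)
           (CovZ.leaf K3_ok TN_l693 _))))))
      (CovZ.n1 (1392, 392) (by decide +kernel)
       (CovZ.n2 (1396, 396) (by decide +kernel)
        (CovZ.n2 (1396, 392) (by decide +kernel)
         (CovZ.n2 (1394, 394) (by decide +kernel)
          (CovZ.leaf K3_ok TN_l694 _)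
          (CovZ.leaf K3_ok TN_l695 _))
         (CovZ.n1 (1398, 394) (by decide +kernel)
          (CovZ.leaf K3_ok TN_l696 _)
          (CovZ.leaf K3_ok TN_l697 _)))
        (CovZ.subM 146028924961 (by decide +kernel)
         (CovZ.n1 (1392, 396) (by decide +kernel)
          (CovZ.n2 (1394, 398) (by decide +kernel)
           (CovZ.leaf K3_ok TN_l698 _)
           (CovZ.leaf K3_ok TN_l699 _))
          (CovZ.n1 (1394, 394) (by decide +kernel)
           (CovZ.leaf K3_ok TN_l700 _)
           (CovZ.leaf K3_ok TN_l701 _)))))
       (CovZ.n1 (1396, 388) (by decide +kernel)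
        (CovZ.subM 146028924960 (by decide +kernel)
         (CovZ.n2 (1392, 388) (by decide +kernel)
          (CovZ.n2 (1394, 390) (by decide +kernel)
           (CovZ.leaf K3_ok TN_l702 _)
           (CovZ.leaf K3_ok TN_l703 _))
          (CovZ.n1 (1394, 386) (by decide +kernel)
           (CovZ.leaf K3_ok TN_l704 _)
           (CovZ.leaf K3_ok TN_l705 _))))
        (CovZ.n1 (1396, 392) (by decide +kernel)
         (CovZ.n2 (1398, 390) (by decide +kernel)
          (CovZ.leaf K3_ok TN_l706 _)
          (CovZ.leaf K3_ok TN_l707 _))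
         (CovZ.n1 (1394, 390) (by decide +kernel)
          (CovZ.leaf K3_ok TN_l708 _)
          (CovZ.leaf K3_ok TN_l709 _)))))))))
    (CovZ.topM TN_LL 17738758197283 (by decide +kernel) (CovZ.n0 (1392, 400) (by decide +kernel)
    (CovZ.subM 137443147777 (by decide +kernel)
     (CovZ.n2 (1376, 400) (by decide +kernel)
      (CovZ.n2 (1384, 408) (by decide +kernel)
       (CovZ.n2 (1384, 400) (by decide +kernel)
        (CovZ.badM (by decide +kernel))
        (CovZ.n1 (1388, 404) (by decide +kernel)
         (CovZ.n2 (1388, 400) (by decide +kernel)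
          (CovZ.badM (by decide +kernel))
          (CovZ.n1 (1390, 402) (by decide +kernel)
           (CovZ.leaf K3_ok TN_l710 _)
           (CovZ.badM (by decide +kernel))))
         (CovZ.badM (by decide +kernel))))
       (CovZ.badM (by decide +kernel)))
      (CovZ.n1 (1384, 392) (by decide +kernel)
       (CovZ.badM (by decide +kernel))
       (CovZ.n1 (1384, 400) (by decide +kernel)
        (CovZ.n2 (1388, 396) (by decide +kernel)
         (CovZ.badM (by decide +kernel))
         (CovZ.n1 (1388, 400) (by decide +kernel)
          (CovZ.n2 (1390, 398) (by decide +kernel)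
           (CovZ.badM (by decide +kernel))
           (CovZ.leaf K3_ok TN_l711 _))
          (CovZ.badM (by decide +kernel))))
        (CovZ.badM (by decide +kernel))))))
    (CovZ.n1 (1392, 416) (by decide +kernel)
     (CovZ.n2 (1400, 408) (by decide +kernel)
      (CovZ.n2 (1392, 408) (by decide +kernel)
       (CovZ.n2 (1396, 412) (by decide +kernel)
        (CovZ.n2 (1396, 408) (by decide +kernel)
         (CovZ.leaf K3_ok TN_l712 _)
         (CovZ.n1 (1398, 410) (by decide +kernel)
          (CovZ.leaf K3_ok TN_l713 _)
          (CovZ.leaf K3_ok TN_l714 _)))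
        (CovZ.subM 146028924961 (by decide +kernel)
         (CovZ.n1 (1392, 412) (by decide +kernel)
          (CovZ.n2 (1394, 414) (by decide +kernel)
           (CovZ.leaf K3_ok TN_l715 _)
           (CovZ.leaf K3_ok TN_l716 _))
          (CovZ.n1 (1394, 410) (by decide +kernel)
           (CovZ.leaf K3_ok TN_l717 _)
           (CovZ.leaf K3_ok TN_l718 _)))))
       (CovZ.n1 (1396, 404) (by decide +kernel)
        (CovZ.subM 17738214969377 (by decide +kernel)
         (CovZ.n2 (1392, 404) (by decide +kernel)
          (CovZ.n2 (1394, 406) (by decide +kernel)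
           (CovZ.leaf K3_ok TN_l719 _)
           (CovZ.leaf K3_ok TN_l720 _))
          (CovZ.n1 (1394, 402) (by decide +kernel)
           (CovZ.leaf K3_ok TN_l721 _)
           (CovZ.leaf K3_ok TN_l722 _))))
        (CovZ.n1 (1396, 408) (by decide +kernel)
         (CovZ.n2 (1398, 406) (by decide +kernel)
          (CovZ.leaf K3_ok TN_l723 _)
          (CovZ.leaf K3_ok TN_l724 _))
         (CovZ.n1 (1394, 406) (by decide +kernel)
          (CovZ.leaf K3_ok TN_l725 _)
          (CovZ.leaf K3_ok TN_l726 _)))))
      (CovZ.n1 (1400, 416) (by decide +kernel)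
       (CovZ.n2 (1404, 412) (by decide +kernel)
        (CovZ.n2 (1400, 412) (by decide +kernel)
         (CovZ.n2 (1402, 414) (by decide +kernel)
          (CovZ.leaf K3_ok TN_l727 _)
          (CovZ.leaf K3_ok TN_l728 _))
         (CovZ.n1 (1402, 410) (by decide +kernel)
          (CovZ.leaf K3_ok TN_l729 _)
          (CovZ.leaf K3_ok TN_l730 _)))
        (CovZ.n1 (1404, 416) (by decide +kernel)
         (CovZ.n2 (1406, 414) (by decide +kernel)
          (CovZ.leaf K3_ok TN_l731 _)
          (CovZ.leaf K3_ok TN_l732 _))
         (CovZ.n1 (1402, 414) (by decide +kernel)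
          (CovZ.leaf K3_ok TN_l733 _)
          (CovZ.leaf K3_ok TN_l734 _))))
       (CovZ.n1 (1396, 412) (by decide +kernel)
        (CovZ.n2 (1396, 416) (by decide +kernel)
         (CovZ.n2 (1398, 414) (by decide +kernel)
          (CovZ.leaf K3_ok TN_l735 _)
          (CovZ.leaf K3_ok TN_l736 _))
         (CovZ.n1 (1394, 414) (by decide +kernel)
          (CovZ.leaf K3_ok TN_l737 _)
          (CovZ.leaf K3_ok TN_l738 _)))
        (CovZ.n1 (1400, 412) (by decide +kernel)
         (CovZ.n2 (1398, 410) (by decide +kernel)
          (CovZ.leaf K3_ok TN_l739 _)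
          (CovZ.leaf K3_ok TN_l740 _))
         (CovZ.n1 (1398, 414) (by decide +kernel)
          (CovZ.leaf K3_ok TN_l741 _)
          (CovZ.leaf K3_ok TN_l742 _))))))
     (CovZ.subM 137438953473 (by decide +kernel)
      (CovZ.n1 (1384, 408) (by decide +kernel)
       (CovZ.n2 (1384, 416) (by decide +kernel)
        (CovZ.n2 (1388, 412) (by decide +kernel)
         (CovZ.badM (by decide +kernel))
         (CovZ.n1 (1388, 416) (by decide +kernel)
          (CovZ.n2 (1390, 414) (by decide +kernel)
           (CovZ.badM (by decide +kernel))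
           (CovZ.leaf K3_ok TN_l743 _))
          (CovZ.badM (by decide +kernel))))
        (CovZ.badM (by decide +kernel)))
       (CovZ.n1 (1392, 408) (by decide +kernel)
        (CovZ.n2 (1388, 404) (by decide +kernel)
         (CovZ.n2 (1388, 408) (by decide +kernel)
          (CovZ.n2 (1390, 406) (by decide +kernel)
           (CovZ.badM (by decide +kernel))
           (CovZ.leaf K3_ok TN_l744 _))
          (CovZ.badM (by decide +kernel)))
         (CovZ.n1 (1392, 404) (by decide +kernel)
          (CovZ.n2 (1390, 402) (by decide +kernel)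
           (CovZ.leaf K3_ok TN_l745 _)
           (CovZ.leaf K3_ok TN_l746 _))
          (CovZ.n1 (1390, 406) (by decide +kernel)
           (CovZ.leaf K3_ok TN_l747 _)
           (CovZ.leaf K3_ok TN_l748 _))))
        (CovZ.n1 (1388, 412) (by decide +kernel)
         (CovZ.n2 (1392, 412) (by decide +kernel)
          (CovZ.n2 (1390, 410) (by decide +kernel)
           (CovZ.leaf K3_ok TN_l749 _)
           (CovZ.leaf K3_ok TN_l750 _))
          (CovZ.n1 (1390, 414) (by decide +kernel)
           (CovZ.leaf K3_ok TN_l751 _)
           (CovZ.leaf K3_ok TN_l752 _)))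
         (CovZ.n1 (1388, 408) (by decide +kernel)
          (CovZ.badM (by decide +kernel))
          (CovZ.n1 (1390, 410) (by decide +kernel)
           (CovZ.leaf K3_ok TN_l753 _)
           (CovZ.badM (by decide +kernel)))))))))))

theorem TN_s1_6 : SqZ TN_M TN_L [0, 7, 4, 3] 1376 192 32 1 6 :=
  SqZ.mk (a := 1408) (b := 1440) (c := 384) (d := 416) (by norm_num) (by norm_num) (by norm_num) (by norm_num)
    (CovZ.topM TN_LL 8589934625 (by decide +kernel) (CovZ.n2 (1424, 400) (by decide +kernel)
    (CovZ.badM (by decide +kernel))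
    (CovZ.n1 (1424, 384) (by decide +kernel)
     (CovZ.n2 (1416, 392) (by decide +kernel)
      (CovZ.badM (by decide +kernel))
      (CovZ.n1 (1416, 384) (by decide +kernel)
       (CovZ.n2 (1412, 388) (by decide +kernel)
        (CovZ.n2 (1416, 388) (by decide +kernel)
         (CovZ.badM (by decide +kernel))
         (CovZ.n1 (1414, 390) (by decide +kernel)
          (CovZ.badM (by decide +kernel))
          (CovZ.badM (by decide +kernel))))
        (CovZ.n1 (1412, 384) (by decide +kernel)
         (CovZ.n2 (1410, 386) (by decide +kernel)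
          (CovZ.leaf K3_ok TN_l1337 _)
          (CovZ.leaf K3_ok TN_l1338 _))
         (CovZ.n1 (1414, 386) (by decide +kernel)
          (CovZ.leaf K3_ok TN_l1339 _)
          (CovZ.leaf K3_ok TN_l1340 _))))
       (CovZ.badM (by decide +kernel))))
     (CovZ.badM (by decide +kernel)))))
    (CovZ.topM TN_LL 8589934625 (by decide +kernel) (CovZ.n0 (1424, 400) (by decide +kernel)
    (CovZ.n2 (1408, 400) (by decide +kernel)
     (CovZ.n2 (1416, 408) (by decide +kernel)
      (CovZ.n2 (1416, 400) (by decide +kernel)
       (CovZ.n2 (1412, 404) (by decide +kernel)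
        (CovZ.n2 (1416, 404) (by decide +kernel)
         (CovZ.n2 (1414, 402) (by decide +kernel)
          (CovZ.n2 (1414, 404) (by decide +kernel)
           (CovZ.badM (by decide +kernel))
           (CovZ.leaf K3_ok TN_l1341 _))
          (CovZ.badM (by decide +kernel)))
         (CovZ.n1 (1414, 406) (by decide +kernel)
          (CovZ.badM (by decide +kernel))
          (CovZ.leaf K3_ok TN_l1342 _)))
        (CovZ.n1 (1412, 400) (by decide +kernel)
         (CovZ.n2 (1410, 402) (by decide +kernel)
          (CovZ.leaf K3_ok TN_l1343 _)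
          (CovZ.leaf K3_ok TN_l1344 _))
         (CovZ.n1 (1414, 402) (by decide +kernel)
          (CovZ.leaf K3_ok TN_l1345 _)
          (CovZ.leaf K3_ok TN_l1346 _))))
       (CovZ.badM (by decide +kernel)))
      (CovZ.n1 (1408, 408) (by decide +kernel)
       (CovZ.n2 (1412, 412) (by decide +kernel)
        (CovZ.n2 (1412, 408) (by decide +kernel)
         (CovZ.n2 (1410, 410) (by decide +kernel)
          (CovZ.n2 (1412, 410) (by decide +kernel)
           (CovZ.leaf K3_ok TN_l1347 _)
           (CovZ.leaf K3_ok TN_l1348 _))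
          (CovZ.leaf K3_ok TN_l1349 _))
         (CovZ.n1 (1414, 410) (by decide +kernel)
          (CovZ.leaf K3_ok TN_l1350 _)
          (CovZ.leaf K3_ok TN_l1351 _)))
        (CovZ.n1 (1408, 412) (by decide +kernel)
         (CovZ.n2 (1410, 414) (by decide +kernel)
          (CovZ.leaf K3_ok TN_l1352 _)
          (CovZ.leaf K3_ok TN_l1353 _))
         (CovZ.n1 (1410, 410) (by decide +kernel)
          (CovZ.leaf K3_ok TN_l1354 _)
          (CovZ.leaf K3_ok TN_l1355 _))))
       (CovZ.n1 (1412, 404) (by decide +kernel)
        (CovZ.n2 (1408, 404) (by decide +kernel)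
         (CovZ.n2 (1410, 406) (by decide +kernel)
          (CovZ.leaf K3_ok TN_l1356 _)
          (CovZ.leaf K3_ok TN_l1357 _))
         (CovZ.n1 (1410, 402) (by decide +kernel)
          (CovZ.leaf K3_ok TN_l1358 _)
          (CovZ.leaf K3_ok TN_l1359 _)))
        (CovZ.n1 (1412, 408) (by decide +kernel)
         (CovZ.n2 (1414, 406) (by decide +kernel)
          (CovZ.leaf K3_ok TN_l1360 _)
          (CovZ.leaf K3_ok TN_l1361 _))
         (CovZ.n1 (1410, 406) (by decide +kernel)
          (CovZ.leaf K3_ok TN_l1362 _)
          (CovZ.n1 (1412, 406) (by decide +kernel)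
           (CovZ.leaf K3_ok TN_l1363 _)
           (CovZ.leaf K3_ok TN_l1364 _)))))))
     (CovZ.n1 (1416, 392) (by decide +kernel)
      (CovZ.n2 (1408, 392) (by decide +kernel)
       (CovZ.n2 (1412, 396) (by decide +kernel)
        (CovZ.n2 (1412, 392) (by decide +kernel)
         (CovZ.n2 (1410, 394) (by decide +kernel)
          (CovZ.n2 (1412, 394) (by decide +kernel)
           (CovZ.leaf K3_ok TN_l1365 _)
           (CovZ.leaf K3_ok TN_l1366 _))
          (CovZ.leaf K3_ok TN_l1367 _))
         (CovZ.n1 (1414, 394) (by decide +kernel)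
          (CovZ.leaf K3_ok TN_l1368 _)
          (CovZ.leaf K3_ok TN_l1369 _)))
        (CovZ.n1 (1408, 396) (by decide +kernel)
         (CovZ.n2 (1410, 398) (by decide +kernel)
          (CovZ.leaf K3_ok TN_l1370 _)
          (CovZ.leaf K3_ok TN_l1371 _))
         (CovZ.n1 (1410, 394) (by decide +kernel)
          (CovZ.leaf K3_ok TN_l1372 _)
          (CovZ.leaf K3_ok TN_l1373 _))))
       (CovZ.n1 (1412, 388) (by decide +kernel)
        (CovZ.n2 (1408, 388) (by decide +kernel)
         (CovZ.n2 (1410, 390) (by decide +kernel)
          (CovZ.leaf K3_ok TN_l1374 _)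
          (CovZ.leaf K3_ok TN_l1375 _))
         (CovZ.n1 (1410, 386) (by decide +kernel)
          (CovZ.leaf K3_ok TN_l1376 _)
          (CovZ.leaf K3_ok TN_l1377 _)))
        (CovZ.n1 (1412, 392) (by decide +kernel)
         (CovZ.n2 (1414, 390) (by decide +kernel)
          (CovZ.badM (by decide +kernel))
          (CovZ.leaf K3_ok TN_l1378 _))
         (CovZ.n1 (1410, 390) (by decide +kernel)
          (CovZ.leaf K3_ok TN_l1379 _)
          (CovZ.leaf K3_ok TN_l1380 _)))))
      (CovZ.n1 (1416, 400) (by decide +kernel)
       (CovZ.badM (by decide +kernel))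
       (CovZ.n1 (1412, 396) (by decide +kernel)
        (CovZ.n2 (1412, 400) (by decide +kernel)
         (CovZ.n2 (1414, 398) (by decide +kernel)
          (CovZ.leaf K3_ok TN_l1381 _)
          (CovZ.n1 (1414, 400) (by decide +kernel)
           (CovZ.badM (by decide +kernel))
           (CovZ.leaf K3_ok TN_l1382 _)))
         (CovZ.n1 (1410, 398) (by decide +kernel)
          (CovZ.leaf K3_ok TN_l1383 _)
          (CovZ.n1 (1412, 398) (by decide +kernel)
           (CovZ.leaf K3_ok TN_l1384 _)
           (CovZ.leaf K3_ok TN_l1385 _))))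
        (CovZ.n1 (1416, 396) (by decide +kernel)
         (CovZ.n2 (1414, 394) (by decide +kernel)
          (CovZ.n2 (1414, 396) (by decide +kernel)
           (CovZ.badM (by decide +kernel))
           (CovZ.leaf K3_ok TN_l1386 _))
          (CovZ.badM (by decide +kernel)))
         (CovZ.n1 (1414, 398) (by decide +kernel)
          (CovZ.badM (by decide +kernel))
          (CovZ.leaf K3_ok TN_l1387 _)))))))
    (CovZ.n1 (1424, 416) (by decide +kernel)
     (CovZ.badM (by decide +kernel))
     (CovZ.n1 (1416, 408) (by decide +kernel)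
      (CovZ.n2 (1416, 416) (by decide +kernel)
       (CovZ.badM (by decide +kernel))
       (CovZ.n1 (1412, 412) (by decide +kernel)
        (CovZ.n2 (1412, 416) (by decide +kernel)
         (CovZ.n2 (1414, 414) (by decide +kernel)
          (CovZ.leaf K3_ok TN_l1388 _)
          (CovZ.leaf K3_ok TN_l1389 _))
         (CovZ.n1 (1410, 414) (by decide +kernel)
          (CovZ.leaf K3_ok TN_l1390 _)
          (CovZ.n1 (1412, 414) (by decide +kernel)
           (CovZ.leaf K3_ok TN_l1391 _)
           (CovZ.leaf K3_ok TN_l1392 _))))
        (CovZ.n1 (1416, 412) (by decide +kernel)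
         (CovZ.n2 (1414, 410) (by decide +kernel)
          (CovZ.leaf K3_ok TN_l1393 _)
          (CovZ.badM (by decide +kernel)))
         (CovZ.n1 (1414, 414) (by decide +kernel)
          (CovZ.badM (by decide +kernel))
          (CovZ.leaf K3_ok TN_l1394 _)))))
      (CovZ.badM (by decide +kernel))))))

end Pool.Agent.TET
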