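import Pool.Agent.Helper38_TET.TN_M
import Pool.Agent.Helper38_TET.TN_L
import Pool.Agent.Helper38_TET.TN_5
import Pool.Agent.Helper38_TET.TN_6
import Pool.Agent.Helper38_TET.TN_7
import Pool.Agent.Helper38_TET.TN_9
import Pool.Agent.Helper38_TET.TN_10
import Pool.Agent.Helper38_TET.TN_11

/-!
# MP_c7c9bf_co: certificates, family TN
-/

set_option autoImplicit false
set_option maxRecDepth 100000

namespace Pool.Agent.TET

theorem TN_s0_7 : SqZ TN_M TN_L [0, 7, 4, 3] 1376 192 32 0 7 :=
  SqZ.mk (a := 1376) (b := 1408) (c := 416) (d := 448) (by norm_num) (by norm_num) (by norm_num) (by norm_num)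
    (CovZ.topM TN_LL 17738753937443 (by decide +kernel) (CovZ.n2 (1392, 432) (by decide +kernel)
    (CovZ.n2 (1408, 432) (by decide +kernel)
     (CovZ.n2 (1400, 424) (by decide +kernel)
      (CovZ.n2 (1400, 432) (by decide +kernel)
       (CovZ.n2 (1404, 428) (by decide +kernel)
        (CovZ.n2 (1400, 428) (by decide +kernel)
         (CovZ.n2 (1402, 430) (by decide +kernel)
          (CovZ.leaf K3_ok TN_l754 _)
          (CovZ.leaf K3_ok TN_l755 _))
         (CovZ.n1 (1402, 426) (by decide +kernel)
          (CovZ.leaf K3_ok TN_l756 _)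
          (CovZ.leaf K3_ok TN_l757 _)))
        (CovZ.n1 (1404, 432) (by decide +kernel)
         (CovZ.n2 (1406, 430) (by decide +kernel)
          (CovZ.leaf K3_ok TN_l758 _)
          (CovZ.leaf K3_ok TN_l759 _))
         (CovZ.n1 (1402, 430) (by decide +kernel)
          (CovZ.leaf K3_ok TN_l760 _)
          (CovZ.leaf K3_ok TN_l761 _))))
       (CovZ.subM 137441087521 (by decide +kernel)
        (CovZ.n1 (1396, 428) (by decide +kernel)
         (CovZ.n2 (1396, 432) (by decide +kernel)
          (CovZ.n2 (1398, 430) (by decide +kernel)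
           (CovZ.leaf K3_ok TN_l762 _)
           (CovZ.leaf K3_ok TN_l763 _))
          (CovZ.n1 (1394, 430) (by decide +kernel)
           (CovZ.leaf K3_ok TN_l764 _)
           (CovZ.leaf K3_ok TN_l765 _)))
         (CovZ.n1 (1400, 428) (by decide +kernel)
          (CovZ.n2 (1398, 426) (by decide +kernel)
           (CovZ.leaf K3_ok TN_l766 _)
           (CovZ.leaf K3_ok TN_l767 _))
          (CovZ.n1 (1398, 430) (by decide +kernel)
           (CovZ.leaf K3_ok TN_l768 _)
           (CovZ.leaf K3_ok TN_l769 _))))))
      (CovZ.n1 (1408, 424) (by decide +kernel)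
       (CovZ.n2 (1404, 420) (by decide +kernel)
        (CovZ.n2 (1404, 424) (by decide +kernel)
         (CovZ.n2 (1406, 422) (by decide +kernel)
          (CovZ.leaf K3_ok TN_l770 _)
          (CovZ.leaf K3_ok TN_l771 _))
         (CovZ.n1 (1402, 422) (by decide +kernel)
          (CovZ.leaf K3_ok TN_l772 _)
          (CovZ.leaf K3_ok TN_l773 _)))
        (CovZ.n1 (1408, 420) (by decide +kernel)
         (CovZ.n2 (1406, 418) (by decide +kernel)
          (CovZ.leaf K3_ok TN_l774 _)
          (CovZ.leaf K3_ok TN_l775 _))
         (CovZ.n1 (1406, 422) (by decide +kernel)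
          (CovZ.leaf K3_ok TN_l776 _)
          (CovZ.leaf K3_ok TN_l777 _))))
       (CovZ.n1 (1404, 428) (by decide +kernel)
        (CovZ.n2 (1408, 428) (by decide +kernel)
         (CovZ.n2 (1406, 426) (by decide +kernel)
          (CovZ.leaf K3_ok TN_l778 _)
          (CovZ.leaf K3_ok TN_l779 _))
         (CovZ.n1 (1406, 430) (by decide +kernel)
          (CovZ.leaf K3_ok TN_l780 _)
          (CovZ.leaf K3_ok TN_l781 _)))
        (CovZ.n1 (1404, 424) (by decide +kernel)
         (CovZ.n2 (1402, 426) (by decide +kernel)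
          (CovZ.leaf K3_ok TN_l782 _)
          (CovZ.leaf K3_ok TN_l783 _))
         (CovZ.n1 (1406, 426) (by decide +kernel)
          (CovZ.leaf K3_ok TN_l784 _)
          (CovZ.leaf K3_ok TN_l785 _))))))
     (CovZ.n1 (1400, 440) (by decide +kernel)
      (CovZ.n2 (1408, 440) (by decide +kernel)
       (CovZ.n2 (1404, 436) (by decide +kernel)
        (CovZ.n2 (1404, 440) (by decide +kernel)
         (CovZ.n2 (1406, 438) (by decide +kernel)
          (CovZ.leaf K3_ok TN_l786 _)
          (CovZ.leaf K3_ok TN_l787 _))
         (CovZ.n1 (1402, 438) (by decide +kernel)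
          (CovZ.leaf K3_ok TN_l788 _)
          (CovZ.leaf K3_ok TN_l789 _)))
        (CovZ.n1 (1408, 436) (by decide +kernel)
         (CovZ.n2 (1406, 434) (by decide +kernel)
          (CovZ.leaf K3_ok TN_l790 _)
          (CovZ.leaf K3_ok TN_l791 _))
         (CovZ.n1 (1406, 438) (by decide +kernel)
          (CovZ.leaf K3_ok TN_l792 _)
          (CovZ.leaf K3_ok TN_l793 _))))
       (CovZ.n1 (1404, 444) (by decide +kernel)
        (CovZ.n2 (1408, 444) (by decide +kernel)
         (CovZ.n2 (1406, 442) (by decide +kernel)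
          (CovZ.leaf K3_ok TN_l794 _)
          (CovZ.leaf K3_ok TN_l795 _))
         (CovZ.n1 (1406, 446) (by decide +kernel)
          (CovZ.leaf K3_ok TN_l796 _)
          (CovZ.leaf K3_ok TN_l797 _)))
        (CovZ.n1 (1404, 440) (by decide +kernel)
         (CovZ.n2 (1402, 442) (by decide +kernel)
          (CovZ.leaf K3_ok TN_l798 _)
          (CovZ.leaf K3_ok TN_l799 _))
         (CovZ.n1 (1406, 442) (by decide +kernel)
          (CovZ.leaf K3_ok TN_l800 _)
          (CovZ.leaf K3_ok TN_l801 _)))))
      (CovZ.n1 (1400, 432) (by decide +kernel)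
       (CovZ.subM 137441087521 (by decide +kernel)
        (CovZ.n2 (1396, 436) (by decide +kernel)
         (CovZ.n2 (1400, 436) (by decide +kernel)
          (CovZ.n2 (1398, 434) (by decide +kernel)
           (CovZ.leaf K3_ok TN_l802 _)
           (CovZ.leaf K3_ok TN_l803 _))
          (CovZ.n1 (1398, 438) (by decide +kernel)
           (CovZ.leaf K3_ok TN_l804 _)
           (CovZ.leaf K3_ok TN_l805 _)))
         (CovZ.n1 (1396, 432) (by decide +kernel)
          (CovZ.leaf K3_ok TN_l806 _)
          (CovZ.leaf K3_ok TN_l807 _))))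
       (CovZ.n1 (1404, 436) (by decide +kernel)
        (CovZ.n2 (1404, 432) (by decide +kernel)
         (CovZ.n2 (1402, 434) (by decide +kernel)
          (CovZ.leaf K3_ok TN_l808 _)
          (CovZ.leaf K3_ok TN_l809 _))
         (CovZ.n1 (1406, 434) (by decide +kernel)
          (CovZ.leaf K3_ok TN_l810 _)
          (CovZ.leaf K3_ok TN_l811 _)))
        (CovZ.n1 (1400, 436) (by decide +kernel)
         (CovZ.n2 (1402, 438) (by decide +kernel)
          (CovZ.leaf K3_ok TN_l812 _)
          (CovZ.leaf K3_ok TN_l813 _))
         (CovZ.n1 (1402, 434) (by decide +kernel)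
          (CovZ.leaf K3_ok TN_l814 _)
          (CovZ.leaf K3_ok TN_l815 _)))))))
    (CovZ.n1 (1392, 416) (by decide +kernel)
     (CovZ.subM 137438953473 (by decide +kernel)
      (CovZ.n2 (1384, 424) (by decide +kernel)
       (CovZ.n2 (1392, 424) (by decide +kernel)
        (CovZ.n2 (1388, 420) (by decide +kernel)
         (CovZ.n2 (1388, 424) (by decide +kernel)
          (CovZ.n2 (1390, 422) (by decide +kernel)
           (CovZ.badM (by decide +kernel))
           (CovZ.n1 (1390, 424) (by decide +kernel)
            (CovZ.leaf K3_ok TN_l816 _)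
            (CovZ.badM (by decide +kernel))))
          (CovZ.badM (by decide +kernel)))
         (CovZ.n1 (1392, 420) (by decide +kernel)
          (CovZ.n2 (1390, 418) (by decide +kernel)
           (CovZ.leaf K3_ok TN_l817 _)
           (CovZ.leaf K3_ok TN_l818 _))
          (CovZ.n1 (1390, 422) (by decide +kernel)
           (CovZ.leaf K3_ok TN_l819 _)
           (CovZ.leaf K3_ok TN_l820 _))))
        (CovZ.n1 (1388, 428) (by decide +kernel)
         (CovZ.n2 (1392, 428) (by decide +kernel)
          (CovZ.n2 (1390, 426) (by decide +kernel)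
           (CovZ.leaf K3_ok TN_l821 _)
           (CovZ.leaf K3_ok TN_l822 _))
          (CovZ.n1 (1390, 430) (by decide +kernel)
           (CovZ.leaf K3_ok TN_l823 _)
           (CovZ.leaf K3_ok TN_l824 _)))
         (CovZ.n1 (1388, 424) (by decide +kernel)
          (CovZ.badM (by decide +kernel))
          (CovZ.n1 (1390, 426) (by decide +kernel)
           (CovZ.leaf K3_ok TN_l825 _)
           (CovZ.badM (by decide +kernel))))))
       (CovZ.n1 (1384, 416) (by decide +kernel)
        (CovZ.badM (by decide +kernel))
        (CovZ.n1 (1388, 420) (by decide +kernel)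
         (CovZ.n2 (1388, 416) (by decide +kernel)
          (CovZ.badM (by decide +kernel))
          (CovZ.n1 (1390, 418) (by decide +kernel)
           (CovZ.leaf K3_ok TN_l826 _)
           (CovZ.badM (by decide +kernel))))
         (CovZ.badM (by decide +kernel))))))
     (CovZ.n1 (1400, 424) (by decide +kernel)
      (CovZ.n2 (1400, 416) (by decide +kernel)
       (CovZ.n2 (1396, 420) (by decide +kernel)
        (CovZ.n2 (1400, 420) (by decide +kernel)
         (CovZ.n2 (1398, 418) (by decide +kernel)
          (CovZ.leaf K3_ok TN_l827 _)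
          (CovZ.leaf K3_ok TN_l828 _))
         (CovZ.n1 (1398, 422) (by decide +kernel)
          (CovZ.leaf K3_ok TN_l829 _)
          (CovZ.leaf K3_ok TN_l830 _)))
        (CovZ.n1 (1396, 416) (by decide +kernel)
         (CovZ.leaf K3_ok TN_l831 _)
         (CovZ.n1 (1398, 418) (by decide +kernel)
          (CovZ.leaf K3_ok TN_l832 _)
          (CovZ.leaf K3_ok TN_l833 _))))
       (CovZ.n1 (1404, 420) (by decide +kernel)
        (CovZ.n2 (1404, 416) (by decide +kernel)
         (CovZ.n2 (1402, 418) (by decide +kernel)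
          (CovZ.leaf K3_ok TN_l834 _)
          (CovZ.leaf K3_ok TN_l835 _))
         (CovZ.n1 (1406, 418) (by decide +kernel)
          (CovZ.leaf K3_ok TN_l836 _)
          (CovZ.leaf K3_ok TN_l837 _)))
        (CovZ.n1 (1400, 420) (by decide +kernel)
         (CovZ.n2 (1402, 422) (by decide +kernel)
          (CovZ.leaf K3_ok TN_l838 _)
          (CovZ.leaf K3_ok TN_l839 _))
         (CovZ.n1 (1402, 418) (by decide +kernel)
          (CovZ.leaf K3_ok TN_l840 _)
          (CovZ.leaf K3_ok TN_l841 _)))))
      (CovZ.n1 (1392, 424) (by decide +kernel)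
       (CovZ.n2 (1396, 428) (by decide +kernel)
        (CovZ.n2 (1396, 424) (by decide +kernel)
         (CovZ.leaf K3_ok TN_l842 _)
         (CovZ.n1 (1398, 426) (by decide +kernel)
          (CovZ.leaf K3_ok TN_l843 _)
          (CovZ.leaf K3_ok TN_l844 _)))
        (CovZ.subM 146028924961 (by decide +kernel)
         (CovZ.n1 (1392, 428) (by decide +kernel)
          (CovZ.n2 (1394, 430) (by decide +kernel)
           (CovZ.leaf K3_ok TN_l845 _)
           (CovZ.leaf K3_ok TN_l846 _))
          (CovZ.n1 (1394, 426) (by decide +kernel)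
           (CovZ.leaf K3_ok TN_l847 _)
           (CovZ.leaf K3_ok TN_l848 _)))))
       (CovZ.n1 (1396, 420) (by decide +kernel)
        (CovZ.subM 146028924961 (by decide +kernel)
         (CovZ.n2 (1392, 420) (by decide +kernel)
          (CovZ.n2 (1394, 422) (by decide +kernel)
           (CovZ.leaf K3_ok TN_l849 _)
           (CovZ.leaf K3_ok TN_l850 _))
          (CovZ.n1 (1394, 418) (by decide +kernel)
           (CovZ.leaf K3_ok TN_l851 _)
           (CovZ.leaf K3_ok TN_l852 _))))
        (CovZ.n1 (1396, 424) (by decide +kernel)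
         (CovZ.n2 (1398, 422) (by decide +kernel)
          (CovZ.leaf K3_ok TN_l853 _)
          (CovZ.leaf K3_ok TN_l854 _))
         (CovZ.n1 (1394, 422) (by decide +kernel)
          (CovZ.leaf K3_ok TN_l855 _)
          (CovZ.leaf K3_ok TN_l856 _)))))))))
    (CovZ.topM TN_LL 146567893027 (by decide +kernel) (CovZ.n0 (1392, 432) (by decide +kernel)
    (CovZ.subM 137438953473 (by decide +kernel)
     (CovZ.n2 (1376, 432) (by decide +kernel)
      (CovZ.n2 (1384, 440) (by decide +kernel)
       (CovZ.n2 (1384, 432) (by decide +kernel)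
        (CovZ.badM (by decide +kernel))
        (CovZ.n1 (1388, 436) (by decide +kernel)
         (CovZ.n2 (1388, 432) (by decide +kernel)
          (CovZ.badM (by decide +kernel))
          (CovZ.n1 (1390, 434) (by decide +kernel)
           (CovZ.leaf K3_ok TN_l857 _)
           (CovZ.badM (by decide +kernel))))
         (CovZ.badM (by decide +kernel))))
       (CovZ.badM (by decide +kernel)))
      (CovZ.n1 (1384, 424) (by decide +kernel)
       (CovZ.badM (by decide +kernel))
       (CovZ.n1 (1384, 432) (by decide +kernel)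
        (CovZ.n2 (1388, 428) (by decide +kernel)
         (CovZ.badM (by decide +kernel))
         (CovZ.n1 (1388, 432) (by decide +kernel)
          (CovZ.n2 (1390, 430) (by decide +kernel)
           (CovZ.badM (by decide +kernel))
           (CovZ.leaf K3_ok TN_l858 _))
          (CovZ.badM (by decide +kernel))))
        (CovZ.badM (by decide +kernel))))))
    (CovZ.n1 (1392, 448) (by decide +kernel)
     (CovZ.n2 (1400, 440) (by decide +kernel)
      (CovZ.n2 (1392, 440) (by decide +kernel)
       (CovZ.n2 (1396, 444) (by decide +kernel)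
        (CovZ.n2 (1396, 440) (by decide +kernel)
         (CovZ.leaf K3_ok TN_l859 _)
         (CovZ.leaf K3_ok TN_l860 _))
        (CovZ.subM 137438990369 (by decide +kernel)
         (CovZ.n1 (1392, 444) (by decide +kernel)
          (CovZ.n2 (1394, 446) (by decide +kernel)
           (CovZ.leaf K3_ok TN_l861 _)
           (CovZ.leaf K3_ok TN_l862 _))
          (CovZ.n1 (1394, 442) (by decide +kernel)
           (CovZ.leaf K3_ok TN_l863 _)
           (CovZ.leaf K3_ok TN_l864 _)))))
       (CovZ.n1 (1396, 436) (by decide +kernel)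
        (CovZ.subM 137438990369 (by decide +kernel)
         (CovZ.n2 (1392, 436) (by decide +kernel)
          (CovZ.n2 (1394, 438) (by decide +kernel)
           (CovZ.leaf K3_ok TN_l865 _)
           (CovZ.leaf K3_ok TN_l866 _))
          (CovZ.n1 (1394, 434) (by decide +kernel)
           (CovZ.leaf K3_ok TN_l867 _)
           (CovZ.leaf K3_ok TN_l868 _))))
        (CovZ.n1 (1396, 440) (by decide +kernel)
         (CovZ.n2 (1398, 438) (by decide +kernel)
          (CovZ.leaf K3_ok TN_l869 _)
          (CovZ.leaf K3_ok TN_l870 _))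
         (CovZ.n1 (1394, 438) (by decide +kernel)
          (CovZ.leaf K3_ok TN_l871 _)
          (CovZ.leaf K3_ok TN_l872 _)))))
      (CovZ.n1 (1400, 448) (by decide +kernel)
       (CovZ.n2 (1404, 444) (by decide +kernel)
        (CovZ.n2 (1400, 444) (by decide +kernel)
         (CovZ.n2 (1402, 446) (by decide +kernel)
          (CovZ.leaf K3_ok TN_l873 _)
          (CovZ.leaf K3_ok TN_l874 _))
         (CovZ.n1 (1402, 442) (by decide +kernel)
          (CovZ.leaf K3_ok TN_l875 _)
          (CovZ.leaf K3_ok TN_l876 _)))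
        (CovZ.n1 (1404, 448) (by decide +kernel)
         (CovZ.n2 (1406, 446) (by decide +kernel)
          (CovZ.leaf K3_ok TN_l877 _)
          (CovZ.leaf K3_ok TN_l878 _))
         (CovZ.n1 (1402, 446) (by decide +kernel)
          (CovZ.leaf K3_ok TN_l879 _)
          (CovZ.leaf K3_ok TN_l880 _))))
       (CovZ.n1 (1396, 444) (by decide +kernel)
        (CovZ.n2 (1396, 448) (by decide +kernel)
         (CovZ.n2 (1398, 446) (by decide +kernel)
          (CovZ.leaf K3_ok TN_l881 _)
          (CovZ.leaf K3_ok TN_l882 _))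
         (CovZ.n1 (1394, 446) (by decide +kernel)
          (CovZ.leaf K3_ok TN_l883 _)
          (CovZ.leaf K3_ok TN_l884 _)))
        (CovZ.n1 (1400, 444) (by decide +kernel)
         (CovZ.n2 (1398, 442) (by decide +kernel)
          (CovZ.leaf K3_ok TN_l885 _)
          (CovZ.leaf K3_ok TN_l886 _))
         (CovZ.n1 (1398, 446) (by decide +kernel)
          (CovZ.leaf K3_ok TN_l887 _)
          (CovZ.leaf K3_ok TN_l888 _))))))
     (CovZ.subM 137438953473 (by decide +kernel)
      (CovZ.n1 (1384, 440) (by decide +kernel)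
       (CovZ.n2 (1384, 448) (by decide +kernel)
        (CovZ.n2 (1388, 444) (by decide +kernel)
         (CovZ.badM (by decide +kernel))
         (CovZ.n1 (1388, 448) (by decide +kernel)
          (CovZ.n2 (1390, 446) (by decide +kernel)
           (CovZ.badM (by decide +kernel))
           (CovZ.leaf K3_ok TN_l889 _))
          (CovZ.badM (by decide +kernel))))
        (CovZ.badM (by decide +kernel)))
       (CovZ.n1 (1392, 440) (by decide +kernel)
        (CovZ.n2 (1388, 436) (by decide +kernel)
         (CovZ.n2 (1388, 440) (by decide +kernel)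
          (CovZ.n2 (1390, 438) (by decide +kernel)
           (CovZ.badM (by decide +kernel))
           (CovZ.leaf K3_ok TN_l890 _))
          (CovZ.badM (by decide +kernel)))
         (CovZ.n1 (1392, 436) (by decide +kernel)
          (CovZ.n2 (1390, 434) (by decide +kernel)
           (CovZ.leaf K3_ok TN_l891 _)
           (CovZ.leaf K3_ok TN_l892 _))
          (CovZ.n1 (1390, 438) (by decide +kernel)
           (CovZ.leaf K3_ok TN_l893 _)
           (CovZ.leaf K3_ok TN_l894 _))))
        (CovZ.n1 (1388, 444) (by decide +kernel)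
         (CovZ.n2 (1392, 444) (by decide +kernel)
          (CovZ.n2 (1390, 442) (by decide +kernel)
           (CovZ.leaf K3_ok TN_l895 _)
           (CovZ.leaf K3_ok TN_l896 _))
          (CovZ.n1 (1390, 446) (by decide +kernel)
           (CovZ.leaf K3_ok TN_l897 _)
           (CovZ.leaf K3_ok TN_l898 _)))
         (CovZ.n1 (1388, 440) (by decide +kernel)
          (CovZ.badM (by decide +kernel))
          (CovZ.n1 (1390, 442) (by decide +kernel)
           (CovZ.leaf K3_ok TN_l899 _)
           (CovZ.badM (by decide +kernel)))))))))))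

theorem TN_s1_7 : SqZ TN_M TN_L [0, 7, 4, 3] 1376 192 32 1 7 :=
  SqZ.mk (a := 1408) (b := 1440) (c := 416) (d := 448) (by norm_num) (by norm_num) (by norm_num) (by norm_num)
    (CovZ.topM TN_LL 2199023255585 (by decide +kernel) (CovZ.n2 (1424, 432) (by decide +kernel)
    (CovZ.badM (by decide +kernel))
    (CovZ.n1 (1424, 416) (by decide +kernel)
     (CovZ.n2 (1416, 424) (by decide +kernel)
      (CovZ.badM (by decide +kernel))
      (CovZ.n1 (1416, 416) (by decide +kernel)
       (CovZ.n2 (1412, 420) (by decide +kernel)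
        (CovZ.n2 (1416, 420) (by decide +kernel)
         (CovZ.n2 (1414, 418) (by decide +kernel)
          (CovZ.n2 (1414, 420) (by decide +kernel)
           (CovZ.badM (by decide +kernel))
           (CovZ.leaf K3_ok TN_l1395 _))
          (CovZ.badM (by decide +kernel)))
         (CovZ.n1 (1414, 422) (by decide +kernel)
          (CovZ.badM (by decide +kernel))
          (CovZ.leaf K3_ok TN_l1396 _)))
        (CovZ.n1 (1412, 416) (by decide +kernel)
         (CovZ.n2 (1410, 418) (by decide +kernel)
          (CovZ.n2 (1412, 418) (by decide +kernel)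
           (CovZ.leaf K3_ok TN_l1397 _)
           (CovZ.leaf K3_ok TN_l1398 _))
          (CovZ.leaf K3_ok TN_l1399 _))
         (CovZ.n1 (1414, 418) (by decide +kernel)
          (CovZ.leaf K3_ok TN_l1400 _)
          (CovZ.leaf K3_ok TN_l1401 _))))
       (CovZ.badM (by decide +kernel))))
     (CovZ.badM (by decide +kernel)))))
    (CovZ.topM TN_LL 19791209300001 (by decide +kernel) (CovZ.n0 (1424, 432) (by decide +kernel)
    (CovZ.n2 (1408, 432) (by decide +kernel)
     (CovZ.n2 (1416, 440) (by decide +kernel)
      (CovZ.n2 (1416, 432) (by decide +kernel)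
       (CovZ.n2 (1412, 436) (by decide +kernel)
        (CovZ.n2 (1416, 436) (by decide +kernel)
         (CovZ.n2 (1414, 434) (by decide +kernel)
          (CovZ.leaf K3_ok TN_l1402 _)
          (CovZ.n1 (1416, 434) (by decide +kernel)
           (CovZ.leaf K3_ok TN_l1586 _)
           (CovZ.leaf K3_ok TN_l1587 _)))
         (CovZ.n1 (1414, 438) (by decide +kernel)
          (CovZ.n2 (1416, 438) (by decide +kernel)
           (CovZ.leaf K3_ok TN_l1588 _)
           (CovZ.leaf K3_ok TN_l1589 _))
          (CovZ.leaf K3_ok TN_l1403 _)))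
        (CovZ.n1 (1412, 432) (by decide +kernel)
         (CovZ.n2 (1410, 434) (by decide +kernel)
          (CovZ.leaf K3_ok TN_l1404 _)
          (CovZ.leaf K3_ok TN_l1405 _))
         (CovZ.n1 (1414, 434) (by decide +kernel)
          (CovZ.leaf K3_ok TN_l1406 _)
          (CovZ.leaf K3_ok TN_l1407 _))))
       (CovZ.badM (by decide +kernel)))
      (CovZ.n1 (1408, 440) (by decide +kernel)
       (CovZ.n2 (1412, 444) (by decide +kernel)
        (CovZ.n2 (1412, 440) (by decide +kernel)
         (CovZ.n2 (1410, 442) (by decide +kernel)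
          (CovZ.leaf K3_ok TN_l1408 _)
          (CovZ.leaf K3_ok TN_l1409 _))
         (CovZ.n1 (1414, 442) (by decide +kernel)
          (CovZ.leaf K3_ok TN_l1410 _)
          (CovZ.leaf K3_ok TN_l1411 _)))
        (CovZ.n1 (1408, 444) (by decide +kernel)
         (CovZ.n2 (1410, 446) (by decide +kernel)
          (CovZ.leaf K3_ok TN_l1412 _)
          (CovZ.leaf K3_ok TN_l1413 _))
         (CovZ.n1 (1410, 442) (by decide +kernel)
          (CovZ.leaf K3_ok TN_l1414 _)
          (CovZ.leaf K3_ok TN_l1415 _))))
       (CovZ.n1 (1412, 436) (by decide +kernel)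
        (CovZ.n2 (1408, 436) (by decide +kernel)
         (CovZ.n2 (1410, 438) (by decide +kernel)
          (CovZ.leaf K3_ok TN_l1416 _)
          (CovZ.leaf K3_ok TN_l1417 _))
         (CovZ.n1 (1410, 434) (by decide +kernel)
          (CovZ.leaf K3_ok TN_l1418 _)
          (CovZ.leaf K3_ok TN_l1419 _)))
        (CovZ.n1 (1412, 440) (by decide +kernel)
         (CovZ.n2 (1414, 438) (by decide +kernel)
          (CovZ.leaf K3_ok TN_l1420 _)
          (CovZ.n1 (1414, 440) (by decide +kernel)
           (CovZ.leaf K3_ok TN_l1590 _)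
           (CovZ.leaf K3_ok TN_l1421 _)))
         (CovZ.n1 (1410, 438) (by decide +kernel)
          (CovZ.leaf K3_ok TN_l1422 _)
          (CovZ.leaf K3_ok TN_l1423 _))))))
     (CovZ.n1 (1416, 424) (by decide +kernel)
      (CovZ.n2 (1408, 424) (by decide +kernel)
       (CovZ.n2 (1412, 428) (by decide +kernel)
        (CovZ.n2 (1412, 424) (by decide +kernel)
         (CovZ.n2 (1410, 426) (by decide +kernel)
          (CovZ.n2 (1412, 426) (by decide +kernel)
           (CovZ.leaf K3_ok TN_l1424 _)
           (CovZ.leaf K3_ok TN_l1425 _))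
          (CovZ.leaf K3_ok TN_l1426 _))
         (CovZ.n1 (1414, 426) (by decide +kernel)
          (CovZ.leaf K3_ok TN_l1427 _)
          (CovZ.leaf K3_ok TN_l1428 _)))
        (CovZ.n1 (1408, 428) (by decide +kernel)
         (CovZ.n2 (1410, 430) (by decide +kernel)
          (CovZ.leaf K3_ok TN_l1429 _)
          (CovZ.leaf K3_ok TN_l1430 _))
         (CovZ.n1 (1410, 426) (by decide +kernel)
          (CovZ.leaf K3_ok TN_l1431 _)
          (CovZ.leaf K3_ok TN_l1432 _))))
       (CovZ.n1 (1412, 420) (by decide +kernel)
        (CovZ.n2 (1408, 420) (by decide +kernel)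
         (CovZ.n2 (1410, 422) (by decide +kernel)
          (CovZ.leaf K3_ok TN_l1433 _)
          (CovZ.leaf K3_ok TN_l1434 _))
         (CovZ.n1 (1410, 418) (by decide +kernel)
          (CovZ.leaf K3_ok TN_l1435 _)
          (CovZ.leaf K3_ok TN_l1436 _)))
        (CovZ.n1 (1412, 424) (by decide +kernel)
         (CovZ.n2 (1414, 422) (by decide +kernel)
          (CovZ.leaf K3_ok TN_l1437 _)
          (CovZ.n1 (1414, 424) (by decide +kernel)
           (CovZ.badM (by decide +kernel))
           (CovZ.leaf K3_ok TN_l1438 _)))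
         (CovZ.n1 (1410, 422) (by decide +kernel)
          (CovZ.leaf K3_ok TN_l1439 _)
          (CovZ.n1 (1412, 422) (by decide +kernel)
           (CovZ.leaf K3_ok TN_l1440 _)
           (CovZ.leaf K3_ok TN_l1441 _))))))
      (CovZ.n1 (1416, 432) (by decide +kernel)
       (CovZ.badM (by decide +kernel))
       (CovZ.n1 (1412, 428) (by decide +kernel)
        (CovZ.n2 (1412, 432) (by decide +kernel)
         (CovZ.n2 (1414, 430) (by decide +kernel)
          (CovZ.leaf K3_ok TN_l1442 _)
          (CovZ.n1 (1414, 432) (by decide +kernel)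
           (CovZ.badM (by decide +kernel))
           (CovZ.leaf K3_ok TN_l1443 _)))
         (CovZ.n1 (1410, 430) (by decide +kernel)
          (CovZ.leaf K3_ok TN_l1444 _)
          (CovZ.leaf K3_ok TN_l1445 _)))
        (CovZ.n1 (1416, 428) (by decide +kernel)
         (CovZ.n2 (1414, 426) (by decide +kernel)
          (CovZ.n2 (1414, 428) (by decide +kernel)
           (CovZ.badM (by decide +kernel))
           (CovZ.leaf K3_ok TN_l1446 _))
          (CovZ.badM (by decide +kernel)))
         (CovZ.n1 (1414, 430) (by decide +kernel)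
          (CovZ.badM (by decide +kernel))
          (CovZ.leaf K3_ok TN_l1447 _)))))))
    (CovZ.n1 (1424, 448) (by decide +kernel)
     (CovZ.badM (by decide +kernel))
     (CovZ.n1 (1416, 440) (by decide +kernel)
      (CovZ.n2 (1416, 448) (by decide +kernel)
       (CovZ.badM (by decide +kernel))
       (CovZ.n1 (1412, 444) (by decide +kernel)
        (CovZ.n2 (1412, 448) (by decide +kernel)
         (CovZ.n2 (1414, 446) (by decide +kernel)
          (CovZ.leaf K3_ok TN_l1448 _)
          (CovZ.n1 (1414, 448) (by decide +kernel)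
           (CovZ.leaf K3_ok TN_l1449 _)
           (CovZ.leaf K3_ok TN_l1450 _)))
         (CovZ.n1 (1410, 446) (by decide +kernel)
          (CovZ.leaf K3_ok TN_l1451 _)
          (CovZ.leaf K3_ok TN_l1452 _)))
        (CovZ.n1 (1416, 444) (by decide +kernel)
         (CovZ.n2 (1414, 442) (by decide +kernel)
          (CovZ.n2 (1414, 444) (by decide +kernel)
           (CovZ.leaf K3_ok TN_l1591 _)
           (CovZ.leaf K3_ok TN_l1453 _))
          (CovZ.n1 (1416, 442) (by decide +kernel)
           (CovZ.leaf K3_ok TN_l1592 _)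
           (CovZ.leaf K3_ok TN_l1593 _)))
         (CovZ.n1 (1414, 446) (by decide +kernel)
          (CovZ.n2 (1416, 446) (by decide +kernel)
           (CovZ.leaf K3_ok TN_l1454 _)
           (CovZ.leaf K3_ok TN_l1455 _))
          (CovZ.leaf K3_ok TN_l1456 _)))))
      (CovZ.badM (by decide +kernel))))))

theorem TN_s0_8 : SqZ TN_M TN_L [0, 7, 4, 3] 1376 192 32 0 8 :=
  SqZ.mk (a := 1376) (b := 1408) (c := 448) (d := 480) (by norm_num) (by norm_num) (by norm_num) (by norm_num)
    (CovZ.topM TN_LL 11141684170787 (by decide +kernel) (CovZ.n2 (1392, 464) (by decide +kernel)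
    (CovZ.n2 (1408, 464) (by decide +kernel)
     (CovZ.n2 (1400, 456) (by decide +kernel)
      (CovZ.n2 (1400, 464) (by decide +kernel)
       (CovZ.n2 (1404, 460) (by decide +kernel)
        (CovZ.n2 (1400, 460) (by decide +kernel)
         (CovZ.n2 (1402, 462) (by decide +kernel)
          (CovZ.leaf K3_ok TN_l900 _)
          (CovZ.leaf K3_ok TN_l901 _))
         (CovZ.n1 (1402, 458) (by decide +kernel)
          (CovZ.leaf K3_ok TN_l902 _)
          (CovZ.leaf K3_ok TN_l903 _)))
        (CovZ.n1 (1404, 464) (by decide +kernel)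
         (CovZ.n2 (1406, 462) (by decide +kernel)
          (CovZ.leaf K3_ok TN_l904 _)
          (CovZ.leaf K3_ok TN_l905 _))
         (CovZ.n1 (1402, 462) (by decide +kernel)
          (CovZ.leaf K3_ok TN_l906 _)
          (CovZ.leaf K3_ok TN_l907 _))))
       (CovZ.subM 11132555268097 (by decide +kernel)
        (CovZ.n1 (1396, 460) (by decide +kernel)
         (CovZ.n2 (1396, 464) (by decide +kernel)
          (CovZ.n2 (1398, 462) (by decide +kernel)
           (CovZ.leaf K3_ok TN_l908 _)
           (CovZ.leaf K3_ok TN_l909 _))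
          (CovZ.n1 (1394, 462) (by decide +kernel)
           (CovZ.leaf K3_ok TN_l910 _)
           (CovZ.leaf K3_ok TN_l911 _)))
         (CovZ.n1 (1400, 460) (by decide +kernel)
          (CovZ.n2 (1398, 458) (by decide +kernel)
           (CovZ.leaf K3_ok TN_l912 _)
           (CovZ.leaf K3_ok TN_l913 _))
          (CovZ.leaf K3_ok TN_l914 _)))))
      (CovZ.n1 (1408, 456) (by decide +kernel)
       (CovZ.n2 (1404, 452) (by decide +kernel)
        (CovZ.n2 (1404, 456) (by decide +kernel)
         (CovZ.n2 (1406, 454) (by decide +kernel)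
          (CovZ.leaf K3_ok TN_l915 _)
          (CovZ.leaf K3_ok TN_l916 _))
         (CovZ.n1 (1402, 454) (by decide +kernel)
          (CovZ.leaf K3_ok TN_l917 _)
          (CovZ.leaf K3_ok TN_l918 _)))
        (CovZ.n1 (1408, 452) (by decide +kernel)
         (CovZ.n2 (1406, 450) (by decide +kernel)
          (CovZ.leaf K3_ok TN_l919 _)
          (CovZ.leaf K3_ok TN_l920 _))
         (CovZ.n1 (1406, 454) (by decide +kernel)
          (CovZ.leaf K3_ok TN_l921 _)
          (CovZ.leaf K3_ok TN_l922 _))))
       (CovZ.n1 (1404, 460) (by decide +kernel)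
        (CovZ.n2 (1408, 460) (by decide +kernel)
         (CovZ.n2 (1406, 458) (by decide +kernel)
          (CovZ.leaf K3_ok TN_l923 _)
          (CovZ.leaf K3_ok TN_l924 _))
         (CovZ.n1 (1406, 462) (by decide +kernel)
          (CovZ.leaf K3_ok TN_l925 _)
          (CovZ.leaf K3_ok TN_l926 _)))
        (CovZ.n1 (1404, 456) (by decide +kernel)
         (CovZ.n2 (1402, 458) (by decide +kernel)
          (CovZ.leaf K3_ok TN_l927 _)
          (CovZ.leaf K3_ok TN_l928 _))
         (CovZ.n1 (1406, 458) (by decide +kernel)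
          (CovZ.leaf K3_ok TN_l929 _)
          (CovZ.leaf K3_ok TN_l930 _))))))
     (CovZ.n1 (1400, 472) (by decide +kernel)
      (CovZ.n2 (1408, 472) (by decide +kernel)
       (CovZ.n2 (1404, 468) (by decide +kernel)
        (CovZ.n2 (1404, 472) (by decide +kernel)
         (CovZ.n2 (1406, 470) (by decide +kernel)
          (CovZ.leaf K3_ok TN_l931 _)
          (CovZ.leaf K3_ok TN_l932 _))
         (CovZ.n1 (1402, 470) (by decide +kernel)
          (CovZ.leaf K3_ok TN_l933 _)
          (CovZ.leaf K3_ok TN_l934 _)))
        (CovZ.n1 (1408, 468) (by decide +kernel)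
         (CovZ.n2 (1406, 466) (by decide +kernel)
          (CovZ.leaf K3_ok TN_l935 _)
          (CovZ.leaf K3_ok TN_l936 _))
         (CovZ.n1 (1406, 470) (by decide +kernel)
          (CovZ.leaf K3_ok TN_l937 _)
          (CovZ.leaf K3_ok TN_l938 _))))
       (CovZ.n1 (1404, 476) (by decide +kernel)
        (CovZ.n2 (1408, 476) (by decide +kernel)
         (CovZ.n2 (1406, 474) (by decide +kernel)
          (CovZ.leaf K3_ok TN_l939 _)
          (CovZ.leaf K3_ok TN_l940 _))
         (CovZ.n1 (1406, 478) (by decide +kernel)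
          (CovZ.leaf K3_ok TN_l941 _)
          (CovZ.leaf K3_ok TN_l942 _)))
        (CovZ.n1 (1404, 472) (by decide +kernel)
         (CovZ.n2 (1402, 474) (by decide +kernel)
          (CovZ.leaf K3_ok TN_l943 _)
          (CovZ.leaf K3_ok TN_l944 _))
         (CovZ.leaf K3_ok TN_l945 _))))
      (CovZ.n1 (1400, 464) (by decide +kernel)
       (CovZ.subM 11132555268097 (by decide +kernel)
        (CovZ.n2 (1396, 468) (by decide +kernel)
         (CovZ.n2 (1400, 468) (by decide +kernel)
          (CovZ.n2 (1398, 466) (by decide +kernel)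
           (CovZ.leaf K3_ok TN_l946 _)
           (CovZ.leaf K3_ok TN_l947 _))
          (CovZ.n1 (1398, 470) (by decide +kernel)
           (CovZ.leaf K3_ok TN_l948 _)
           (CovZ.leaf K3_ok TN_l949 _)))
         (CovZ.n1 (1396, 464) (by decide +kernel)
          (CovZ.leaf K3_ok TN_l950 _)
          (CovZ.leaf K3_ok TN_l951 _))))
       (CovZ.n1 (1404, 468) (by decide +kernel)
        (CovZ.n2 (1404, 464) (by decide +kernel)
         (CovZ.n2 (1402, 466) (by decide +kernel)
          (CovZ.leaf K3_ok TN_l952 _)
          (CovZ.leaf K3_ok TN_l953 _))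
         (CovZ.n1 (1406, 466) (by decide +kernel)
          (CovZ.leaf K3_ok TN_l954 _)
          (CovZ.leaf K3_ok TN_l955 _)))
        (CovZ.n1 (1400, 468) (by decide +kernel)
         (CovZ.n2 (1402, 470) (by decide +kernel)
          (CovZ.leaf K3_ok TN_l956 _)
          (CovZ.leaf K3_ok TN_l957 _))
         (CovZ.n1 (1402, 466) (by decide +kernel)
          (CovZ.leaf K3_ok TN_l958 _)
          (CovZ.leaf K3_ok TN_l959 _)))))))
    (CovZ.n1 (1392, 448) (by decide +kernel)
     (CovZ.subM 8933531975681 (by decide +kernel)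
      (CovZ.n2 (1384, 456) (by decide +kernel)
       (CovZ.n2 (1392, 456) (by decide +kernel)
        (CovZ.n2 (1388, 452) (by decide +kernel)
         (CovZ.n2 (1388, 456) (by decide +kernel)
          (CovZ.n2 (1390, 454) (by decide +kernel)
           (CovZ.badM (by decide +kernel))
           (CovZ.leaf K3_ok TN_l960 _))
          (CovZ.badM (by decide +kernel)))
         (CovZ.n1 (1392, 452) (by decide +kernel)
          (CovZ.n2 (1390, 450) (by decide +kernel)
           (CovZ.leaf K3_ok TN_l961 _)
           (CovZ.leaf K3_ok TN_l962 _))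
          (CovZ.n1 (1390, 454) (by decide +kernel)
           (CovZ.leaf K3_ok TN_l963 _)
           (CovZ.leaf K3_ok TN_l964 _))))
        (CovZ.n1 (1388, 460) (by decide +kernel)
         (CovZ.n2 (1392, 460) (by decide +kernel)
          (CovZ.n2 (1390, 458) (by decide +kernel)
           (CovZ.leaf K3_ok TN_l965 _)
           (CovZ.leaf K3_ok TN_l966 _))
          (CovZ.n1 (1390, 462) (by decide +kernel)
           (CovZ.leaf K3_ok TN_l967 _)
           (CovZ.leaf K3_ok TN_l968 _)))
         (CovZ.n1 (1388, 456) (by decide +kernel)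
          (CovZ.badM (by decide +kernel))
          (CovZ.n1 (1390, 458) (by decide +kernel)
           (CovZ.leaf K3_ok TN_l969 _)
           (CovZ.badM (by decide +kernel))))))
       (CovZ.n1 (1384, 448) (by decide +kernel)
        (CovZ.badM (by decide +kernel))
        (CovZ.n1 (1388, 452) (by decide +kernel)
         (CovZ.n2 (1388, 448) (by decide +kernel)
          (CovZ.badM (by decide +kernel))
          (CovZ.n1 (1390, 450) (by decide +kernel)
           (CovZ.leaf K3_ok TN_l970 _)
           (CovZ.badM (by decide +kernel))))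
         (CovZ.badM (by decide +kernel))))))
     (CovZ.n1 (1400, 456) (by decide +kernel)
      (CovZ.n2 (1400, 448) (by decide +kernel)
       (CovZ.subM 137441087521 (by decide +kernel)
        (CovZ.n2 (1396, 452) (by decide +kernel)
         (CovZ.n2 (1400, 452) (by decide +kernel)
          (CovZ.n2 (1398, 450) (by decide +kernel)
           (CovZ.leaf K3_ok TN_l971 _)
           (CovZ.leaf K3_ok TN_l972 _))
          (CovZ.n1 (1398, 454) (by decide +kernel)
           (CovZ.leaf K3_ok TN_l973 _)
           (CovZ.leaf K3_ok TN_l974 _)))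
         (CovZ.n1 (1396, 448) (by decide +kernel)
          (CovZ.leaf K3_ok TN_l975 _)
          (CovZ.leaf K3_ok TN_l976 _))))
       (CovZ.n1 (1404, 452) (by decide +kernel)
        (CovZ.n2 (1404, 448) (by decide +kernel)
         (CovZ.n2 (1402, 450) (by decide +kernel)
          (CovZ.leaf K3_ok TN_l977 _)
          (CovZ.leaf K3_ok TN_l978 _))
         (CovZ.n1 (1406, 450) (by decide +kernel)
          (CovZ.leaf K3_ok TN_l979 _)
          (CovZ.leaf K3_ok TN_l980 _)))
        (CovZ.subM 137441087521 (by decide +kernel)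
         (CovZ.n1 (1400, 452) (by decide +kernel)
          (CovZ.n2 (1402, 454) (by decide +kernel)
           (CovZ.leaf K3_ok TN_l981 _)
           (CovZ.leaf K3_ok TN_l982 _))
          (CovZ.n1 (1402, 450) (by decide +kernel)
           (CovZ.leaf K3_ok TN_l983 _)
           (CovZ.leaf K3_ok TN_l984 _))))))
      (CovZ.subM 8933532012577 (by decide +kernel)
       (CovZ.n1 (1392, 456) (by decide +kernel)
        (CovZ.n2 (1396, 460) (by decide +kernel)
         (CovZ.n2 (1396, 456) (by decide +kernel)
          (CovZ.leaf K3_ok TN_l985 _)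
          (CovZ.leaf K3_ok TN_l986 _))
         (CovZ.n1 (1392, 460) (by decide +kernel)
          (CovZ.n2 (1394, 462) (by decide +kernel)
           (CovZ.leaf K3_ok TN_l987 _)
           (CovZ.leaf K3_ok TN_l988 _))
          (CovZ.n1 (1394, 458) (by decide +kernel)
           (CovZ.leaf K3_ok TN_l989 _)
           (CovZ.leaf K3_ok TN_l990 _))))
        (CovZ.n1 (1396, 452) (by decide +kernel)
         (CovZ.n2 (1392, 452) (by decide +kernel)
          (CovZ.n2 (1394, 454) (by decide +kernel)
           (CovZ.leaf K3_ok TN_l991 _)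
           (CovZ.leaf K3_ok TN_l992 _))
          (CovZ.n1 (1394, 450) (by decide +kernel)
           (CovZ.leaf K3_ok TN_l993 _)
           (CovZ.leaf K3_ok TN_l994 _)))
         (CovZ.n1 (1396, 456) (by decide +kernel)
          (CovZ.n2 (1398, 454) (by decide +kernel)
           (CovZ.leaf K3_ok TN_l995 _)
           (CovZ.leaf K3_ok TN_l996 _))
          (CovZ.n1 (1394, 454) (by decide +kernel)
           (CovZ.leaf K3_ok TN_l997 _)
           (CovZ.leaf K3_ok TN_l998 _))))))))))
    (CovZ.topM TN_LL 2345591148547 (by decide +kernel) (CovZ.n0 (1392, 464) (by decide +kernel)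
    (CovZ.subM 137438953473 (by decide +kernel)
     (CovZ.n2 (1376, 464) (by decide +kernel)
      (CovZ.n2 (1384, 472) (by decide +kernel)
       (CovZ.n2 (1384, 464) (by decide +kernel)
        (CovZ.badM (by decide +kernel))
        (CovZ.n1 (1388, 468) (by decide +kernel)
         (CovZ.n2 (1388, 464) (by decide +kernel)
          (CovZ.badM (by decide +kernel))
          (CovZ.n1 (1390, 466) (by decide +kernel)
           (CovZ.leaf K3_ok TN_l999 _)
           (CovZ.badM (by decide +kernel))))
         (CovZ.badM (by decide +kernel))))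
       (CovZ.badM (by decide +kernel)))
      (CovZ.n1 (1384, 456) (by decide +kernel)
       (CovZ.badM (by decide +kernel))
       (CovZ.n1 (1384, 464) (by decide +kernel)
        (CovZ.n2 (1388, 460) (by decide +kernel)
         (CovZ.badM (by decide +kernel))
         (CovZ.n1 (1388, 464) (by decide +kernel)
          (CovZ.n2 (1390, 462) (by decide +kernel)
           (CovZ.badM (by decide +kernel))
           (CovZ.leaf K3_ok TN_l1000 _))
          (CovZ.badM (by decide +kernel))))
        (CovZ.badM (by decide +kernel))))))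
    (CovZ.n1 (1392, 480) (by decide +kernel)
     (CovZ.n2 (1400, 472) (by decide +kernel)
      (CovZ.subM 2336462245889 (by decide +kernel)
       (CovZ.n2 (1392, 472) (by decide +kernel)
        (CovZ.n2 (1396, 476) (by decide +kernel)
         (CovZ.n2 (1396, 472) (by decide +kernel)
          (CovZ.leaf K3_ok TN_l1001 _)
          (CovZ.leaf K3_ok TN_l1002 _))
         (CovZ.n1 (1392, 476) (by decide +kernel)
          (CovZ.leaf K3_ok TN_l1003 _)
          (CovZ.n1 (1394, 474) (by decide +kernel)
           (CovZ.leaf K3_ok TN_l1004 _)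
           (CovZ.leaf K3_ok TN_l1005 _))))
        (CovZ.n1 (1396, 468) (by decide +kernel)
         (CovZ.n2 (1392, 468) (by decide +kernel)
          (CovZ.n2 (1394, 470) (by decide +kernel)
           (CovZ.leaf K3_ok TN_l1006 _)
           (CovZ.leaf K3_ok TN_l1007 _))
          (CovZ.n1 (1394, 466) (by decide +kernel)
           (CovZ.leaf K3_ok TN_l1008 _)
           (CovZ.leaf K3_ok TN_l1009 _)))
         (CovZ.n1 (1396, 472) (by decide +kernel)
          (CovZ.n2 (1398, 470) (by decide +kernel)
           (CovZ.leaf K3_ok TN_l1010 _)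
           (CovZ.leaf K3_ok TN_l1011 _))
          (CovZ.n1 (1394, 470) (by decide +kernel)
           (CovZ.leaf K3_ok TN_l1012 _)
           (CovZ.leaf K3_ok TN_l1013 _))))))
      (CovZ.n1 (1400, 480) (by decide +kernel)
       (CovZ.n2 (1404, 476) (by decide +kernel)
        (CovZ.n2 (1400, 476) (by decide +kernel)
         (CovZ.n2 (1402, 478) (by decide +kernel)
          (CovZ.leaf K3_ok TN_l1014 _)
          (CovZ.leaf K3_ok TN_l1015 _))
         (CovZ.n1 (1402, 474) (by decide +kernel)
          (CovZ.leaf K3_ok TN_l1016 _)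
          (CovZ.leaf K3_ok TN_l1017 _)))
        (CovZ.n1 (1404, 480) (by decide +kernel)
         (CovZ.n2 (1406, 478) (by decide +kernel)
          (CovZ.leaf K3_ok TN_l1018 _)
          (CovZ.leaf K3_ok TN_l1019 _))
         (CovZ.n1 (1402, 478) (by decide +kernel)
          (CovZ.leaf K3_ok TN_l1020 _)
          (CovZ.leaf K3_ok TN_l1021 _))))
       (CovZ.subM 2336462245889 (by decide +kernel)
        (CovZ.n1 (1396, 476) (by decide +kernel)
         (CovZ.n2 (1396, 480) (by decide +kernel)
          (CovZ.n2 (1398, 478) (by decide +kernel)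
           (CovZ.leaf K3_ok TN_l1022 _)
           (CovZ.leaf K3_ok TN_l1023 _))
          (CovZ.n1 (1394, 478) (by decide +kernel)
           (CovZ.leaf K3_ok TN_l1024 _)
           (CovZ.leaf K3_ok TN_l1025 _)))
         (CovZ.n1 (1400, 476) (by decide +kernel)
          (CovZ.n2 (1398, 474) (by decide +kernel)
           (CovZ.leaf K3_ok TN_l1026 _)
           (CovZ.leaf K3_ok TN_l1027 _))
          (CovZ.leaf K3_ok TN_l1028 _))))))
     (CovZ.subM 2336462209025 (by decide +kernel)
      (CovZ.n1 (1384, 472) (by decide +kernel)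
       (CovZ.n2 (1384, 480) (by decide +kernel)
        (CovZ.n2 (1388, 476) (by decide +kernel)
         (CovZ.badM (by decide +kernel))
         (CovZ.n1 (1388, 480) (by decide +kernel)
          (CovZ.n2 (1390, 478) (by decide +kernel)
           (CovZ.badM (by decide +kernel))
           (CovZ.leaf K3_ok TN_l1029 _))
          (CovZ.badM (by decide +kernel))))
        (CovZ.badM (by decide +kernel)))
       (CovZ.n1 (1392, 472) (by decide +kernel)
        (CovZ.n2 (1388, 468) (by decide +kernel)
         (CovZ.n2 (1388, 472) (by decide +kernel)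
          (CovZ.n2 (1390, 470) (by decide +kernel)
           (CovZ.badM (by decide +kernel))
           (CovZ.leaf K3_ok TN_l1030 _))
          (CovZ.badM (by decide +kernel)))
         (CovZ.n1 (1392, 468) (by decide +kernel)
          (CovZ.n2 (1390, 466) (by decide +kernel)
           (CovZ.leaf K3_ok TN_l1031 _)
           (CovZ.leaf K3_ok TN_l1032 _))
          (CovZ.n1 (1390, 470) (by decide +kernel)
           (CovZ.leaf K3_ok TN_l1033 _)
           (CovZ.leaf K3_ok TN_l1034 _))))
        (CovZ.n1 (1388, 476) (by decide +kernel)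
         (CovZ.n2 (1392, 476) (by decide +kernel)
          (CovZ.n2 (1390, 474) (by decide +kernel)
           (CovZ.leaf K3_ok TN_l1035 _)
           (CovZ.leaf K3_ok TN_l1036 _))
          (CovZ.n1 (1390, 478) (by decide +kernel)
           (CovZ.leaf K3_ok TN_l1037 _)
           (CovZ.leaf K3_ok TN_l1038 _)))
         (CovZ.n1 (1388, 472) (by decide +kernel)
          (CovZ.badM (by decide +kernel))
          (CovZ.n1 (1390, 474) (by decide +kernel)
           (CovZ.leaf K3_ok TN_l1039 _)
           (CovZ.badM (by decide +kernel)))))))))))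

theorem TN_s1_8 : SqZ TN_M TN_L [0, 7, 4, 3] 1376 192 32 1 8 :=
  SqZ.mk (a := 1408) (b := 1440) (c := 448) (d := 480) (by norm_num) (by norm_num) (by norm_num) (by norm_num)
    (CovZ.topM TN_LL 19791209300001 (by decide +kernel) (CovZ.n2 (1424, 464) (by decide +kernel)
    (CovZ.badM (by decide +kernel))
    (CovZ.n1 (1424, 448) (by decide +kernel)
     (CovZ.n2 (1416, 456) (by decide +kernel)
      (CovZ.n2 (1424, 456) (by decide +kernel)
       (CovZ.n2 (1420, 452) (by decide +kernel)
        (CovZ.n2 (1420, 456) (by decide +kernel)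
         (CovZ.badM (by decide +kernel))
         (CovZ.n1 (1418, 454) (by decide +kernel)
          (CovZ.badM (by decide +kernel))
          (CovZ.badM (by decide +kernel))))
        (CovZ.badM (by decide +kernel)))
       (CovZ.n1 (1420, 460) (by decide +kernel)
        (CovZ.badM (by decide +kernel))
        (CovZ.n1 (1420, 456) (by decide +kernel)
         (CovZ.badM (by decide +kernel))
         (CovZ.badM (by decide +kernel)))))
      (CovZ.n1 (1416, 448) (by decide +kernel)
       (CovZ.n2 (1412, 452) (by decide +kernel)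
        (CovZ.n2 (1416, 452) (by decide +kernel)
         (CovZ.n2 (1414, 450) (by decide +kernel)
          (CovZ.n2 (1414, 452) (by decide +kernel)
           (CovZ.leaf K3_ok TN_l1457 _)
           (CovZ.leaf K3_ok TN_l1458 _))
          (CovZ.n1 (1416, 450) (by decide +kernel)
           (CovZ.leaf K3_ok TN_l1459 _)
           (CovZ.leaf K3_ok TN_l1460 _)))
         (CovZ.n1 (1414, 454) (by decide +kernel)
          (CovZ.badM (by decide +kernel))
          (CovZ.leaf K3_ok TN_l1461 _)))
        (CovZ.n1 (1412, 448) (by decide +kernel)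
         (CovZ.n2 (1410, 450) (by decide +kernel)
          (CovZ.n2 (1412, 450) (by decide +kernel)
           (CovZ.leaf K3_ok TN_l1462 _)
           (CovZ.leaf K3_ok TN_l1463 _))
          (CovZ.leaf K3_ok TN_l1464 _))
         (CovZ.n1 (1414, 450) (by decide +kernel)
          (CovZ.leaf K3_ok TN_l1465 _)
          (CovZ.leaf K3_ok TN_l1466 _))))
       (CovZ.n1 (1420, 452) (by decide +kernel)
        (CovZ.badM (by decide +kernel))
        (CovZ.n1 (1416, 452) (by decide +kernel)
         (CovZ.n2 (1418, 454) (by decide +kernel)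
          (CovZ.leaf K3_ok TN_l1594 _)
          (CovZ.badM (by decide +kernel)))
         (CovZ.n1 (1418, 450) (by decide +kernel)
          (CovZ.n2 (1416, 450) (by decide +kernel)
           (CovZ.leaf K3_ok TN_l1595 _)
           (CovZ.badM (by decide +kernel)))
          (CovZ.n1 (1418, 452) (by decide +kernel)
           (CovZ.badM (by decide +kernel))
           (CovZ.leaf K3_ok TN_l1596 _)))))))
     (CovZ.badM (by decide +kernel)))))
    (CovZ.topM TN_LL 10995116277793 (by decide +kernel) (CovZ.n0 (1424, 464) (by decide +kernel)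
    (CovZ.n2 (1408, 464) (by decide +kernel)
     (CovZ.n2 (1416, 472) (by decide +kernel)
      (CovZ.n2 (1416, 464) (by decide +kernel)
       (CovZ.n2 (1412, 468) (by decide +kernel)
        (CovZ.n2 (1416, 468) (by decide +kernel)
         (CovZ.n2 (1414, 466) (by decide +kernel)
          (CovZ.n2 (1414, 468) (by decide +kernel)
           (CovZ.leaf K3_ok TN_l1597 _)
           (CovZ.leaf K3_ok TN_l1467 _))
          (CovZ.leaf K3_ok TN_l1598 _))
         (CovZ.n1 (1414, 470) (by decide +kernel)
          (CovZ.leaf K3_ok TN_l1599 _)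
          (CovZ.leaf K3_ok TN_l1468 _)))
        (CovZ.n1 (1412, 464) (by decide +kernel)
         (CovZ.n2 (1410, 466) (by decide +kernel)
          (CovZ.leaf K3_ok TN_l1469 _)
          (CovZ.leaf K3_ok TN_l1470 _))
         (CovZ.n1 (1414, 466) (by decide +kernel)
          (CovZ.leaf K3_ok TN_l1471 _)
          (CovZ.leaf K3_ok TN_l1472 _))))
       (CovZ.n1 (1420, 468) (by decide +kernel)
        (CovZ.n2 (1420, 464) (by decide +kernel)
         (CovZ.n2 (1418, 466) (by decide +kernel)
          (CovZ.n2 (1420, 466) (by decide +kernel)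
           (CovZ.leaf K3_ok TN_l1600 _)
           (CovZ.leaf K3_ok TN_l1601 _))
          (CovZ.leaf K3_ok TN_l1602 _))
         (CovZ.n1 (1422, 466) (by decide +kernel)
          (CovZ.badM (by decide +kernel))
          (CovZ.n1 (1420, 466) (by decide +kernel)
           (CovZ.badM (by decide +kernel))
           (CovZ.leaf K3_ok TN_l1603 _))))
        (CovZ.n1 (1416, 468) (by decide +kernel)
         (CovZ.n2 (1418, 470) (by decide +kernel)
          (CovZ.leaf K3_ok TN_l1604 _)
          (CovZ.leaf K3_ok TN_l1605 _))
         (CovZ.n1 (1418, 466) (by decide +kernel)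
          (CovZ.leaf K3_ok TN_l1606 _)
          (CovZ.n1 (1418, 468) (by decide +kernel)
           (CovZ.leaf K3_ok TN_l1607 _)
           (CovZ.leaf K3_ok TN_l1608 _))))))
      (CovZ.n1 (1408, 472) (by decide +kernel)
       (CovZ.n2 (1412, 476) (by decide +kernel)
        (CovZ.n2 (1412, 472) (by decide +kernel)
         (CovZ.n2 (1410, 474) (by decide +kernel)
          (CovZ.leaf K3_ok TN_l1473 _)
          (CovZ.leaf K3_ok TN_l1474 _))
         (CovZ.n1 (1414, 474) (by decide +kernel)
          (CovZ.leaf K3_ok TN_l1475 _)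
          (CovZ.leaf K3_ok TN_l1476 _)))
        (CovZ.n1 (1408, 476) (by decide +kernel)
         (CovZ.n2 (1410, 478) (by decide +kernel)
          (CovZ.leaf K3_ok TN_l1477 _)
          (CovZ.leaf K3_ok TN_l1478 _))
         (CovZ.n1 (1410, 474) (by decide +kernel)
          (CovZ.leaf K3_ok TN_l1479 _)
          (CovZ.leaf K3_ok TN_l1480 _))))
       (CovZ.n1 (1412, 468) (by decide +kernel)
        (CovZ.n2 (1408, 468) (by decide +kernel)
         (CovZ.n2 (1410, 470) (by decide +kernel)
          (CovZ.leaf K3_ok TN_l1481 _)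
          (CovZ.leaf K3_ok TN_l1482 _))
         (CovZ.n1 (1410, 466) (by decide +kernel)
          (CovZ.leaf K3_ok TN_l1483 _)
          (CovZ.leaf K3_ok TN_l1484 _)))
        (CovZ.n1 (1412, 472) (by decide +kernel)
         (CovZ.n2 (1414, 470) (by decide +kernel)
          (CovZ.leaf K3_ok TN_l1485 _)
          (CovZ.leaf K3_ok TN_l1486 _))
         (CovZ.n1 (1410, 470) (by decide +kernel)
          (CovZ.leaf K3_ok TN_l1487 _)
          (CovZ.leaf K3_ok TN_l1488 _))))))
     (CovZ.n1 (1416, 456) (by decide +kernel)
      (CovZ.n2 (1408, 456) (by decide +kernel)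
       (CovZ.n2 (1412, 460) (by decide +kernel)
        (CovZ.n2 (1412, 456) (by decide +kernel)
         (CovZ.n2 (1410, 458) (by decide +kernel)
          (CovZ.leaf K3_ok TN_l1489 _)
          (CovZ.leaf K3_ok TN_l1490 _))
         (CovZ.n1 (1414, 458) (by decide +kernel)
          (CovZ.leaf K3_ok TN_l1491 _)
          (CovZ.leaf K3_ok TN_l1492 _)))
        (CovZ.n1 (1408, 460) (by decide +kernel)
         (CovZ.n2 (1410, 462) (by decide +kernel)
          (CovZ.leaf K3_ok TN_l1493 _)
          (CovZ.leaf K3_ok TN_l1494 _))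
         (CovZ.n1 (1410, 458) (by decide +kernel)
          (CovZ.leaf K3_ok TN_l1495 _)
          (CovZ.leaf K3_ok TN_l1496 _))))
       (CovZ.n1 (1412, 452) (by decide +kernel)
        (CovZ.n2 (1408, 452) (by decide +kernel)
         (CovZ.n2 (1410, 454) (by decide +kernel)
          (CovZ.leaf K3_ok TN_l1497 _)
          (CovZ.leaf K3_ok TN_l1498 _))
         (CovZ.n1 (1410, 450) (by decide +kernel)
          (CovZ.leaf K3_ok TN_l1499 _)
          (CovZ.leaf K3_ok TN_l1500 _)))
        (CovZ.n1 (1412, 456) (by decide +kernel)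
         (CovZ.n2 (1414, 454) (by decide +kernel)
          (CovZ.leaf K3_ok TN_l1501 _)
          (CovZ.n1 (1414, 456) (by decide +kernel)
           (CovZ.badM (by decide +kernel))
           (CovZ.leaf K3_ok TN_l1502 _)))
         (CovZ.n1 (1410, 454) (by decide +kernel)
          (CovZ.leaf K3_ok TN_l1503 _)
          (CovZ.leaf K3_ok TN_l1504 _)))))
      (CovZ.n1 (1416, 464) (by decide +kernel)
       (CovZ.n2 (1420, 460) (by decide +kernel)
        (CovZ.n2 (1416, 460) (by decide +kernel)
         (CovZ.n2 (1418, 462) (by decide +kernel)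
          (CovZ.badM (by decide +kernel))
          (CovZ.leaf K3_ok TN_l1609 _))
         (CovZ.badM (by decide +kernel)))
        (CovZ.n1 (1420, 464) (by decide +kernel)
         (CovZ.badM (by decide +kernel))
         (CovZ.n1 (1418, 462) (by decide +kernel)
          (CovZ.n2 (1418, 464) (by decide +kernel)
           (CovZ.leaf K3_ok TN_l1610 _)
           (CovZ.leaf K3_ok TN_l1611 _))
          (CovZ.badM (by decide +kernel)))))
       (CovZ.n1 (1412, 460) (by decide +kernel)
        (CovZ.n2 (1412, 464) (by decide +kernel)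
         (CovZ.n2 (1414, 462) (by decide +kernel)
          (CovZ.leaf K3_ok TN_l1505 _)
          (CovZ.n1 (1414, 464) (by decide +kernel)
           (CovZ.leaf K3_ok TN_l1612 _)
           (CovZ.leaf K3_ok TN_l1506 _)))
         (CovZ.n1 (1410, 462) (by decide +kernel)
          (CovZ.leaf K3_ok TN_l1507 _)
          (CovZ.leaf K3_ok TN_l1508 _)))
        (CovZ.n1 (1416, 460) (by decide +kernel)
         (CovZ.n2 (1414, 458) (by decide +kernel)
          (CovZ.n2 (1414, 460) (by decide +kernel)
           (CovZ.leaf K3_ok TN_l1613 _)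
           (CovZ.leaf K3_ok TN_l1509 _))
          (CovZ.badM (by decide +kernel)))
         (CovZ.n1 (1414, 462) (by decide +kernel)
          (CovZ.leaf K3_ok TN_l1614 _)
          (CovZ.leaf K3_ok TN_l1510 _)))))))
    (CovZ.n1 (1424, 480) (by decide +kernel)
     (CovZ.badM (by decide +kernel))
     (CovZ.n1 (1416, 472) (by decide +kernel)
      (CovZ.n2 (1416, 480) (by decide +kernel)
       (CovZ.badM (by decide +kernel))
       (CovZ.n1 (1412, 476) (by decide +kernel)
        (CovZ.n2 (1412, 480) (by decide +kernel)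
         (CovZ.n2 (1414, 478) (by decide +kernel)
          (CovZ.leaf K3_ok TN_l1511 _)
          (CovZ.n1 (1414, 480) (by decide +kernel)
           (CovZ.leaf K3_ok TN_l1615 _)
           (CovZ.leaf K3_ok TN_l1512 _)))
         (CovZ.n1 (1410, 478) (by decide +kernel)
          (CovZ.leaf K3_ok TN_l1513 _)
          (CovZ.leaf K3_ok TN_l1514 _)))
        (CovZ.n1 (1416, 476) (by decide +kernel)
         (CovZ.n2 (1414, 474) (by decide +kernel)
          (CovZ.leaf K3_ok TN_l1515 _)
          (CovZ.leaf K3_ok TN_l1616 _))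
         (CovZ.n1 (1414, 478) (by decide +kernel)
          (CovZ.leaf K3_ok TN_l1617 _)
          (CovZ.leaf K3_ok TN_l1516 _)))))
      (CovZ.badM (by decide +kernel))))))

theorem TN_s0_9 : SqZ TN_M TN_L [0, 7, 4, 3] 1376 192 32 0 9 :=
  SqZ.mk (a := 1376) (b := 1408) (c := 480) (d := 512) (by norm_num) (by norm_num) (by norm_num) (by norm_num)
    (CovZ.topM TN_LL 2337001213955 (by decide +kernel) (CovZ.n2 (1392, 496) (by decide +kernel)
    (CovZ.n2 (1408, 496) (by decide +kernel)
     (CovZ.n2 (1400, 488) (by decide +kernel)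
      (CovZ.n2 (1400, 496) (by decide +kernel)
       (CovZ.n2 (1404, 492) (by decide +kernel)
        (CovZ.n2 (1400, 492) (by decide +kernel)
         (CovZ.n2 (1402, 494) (by decide +kernel)
          (CovZ.leaf K3_ok TN_l1040 _)
          (CovZ.leaf K3_ok TN_l1041 _))
         (CovZ.n1 (1402, 490) (by decide +kernel)
          (CovZ.leaf K3_ok TN_l1042 _)
          (CovZ.leaf K3_ok TN_l1043 _)))
        (CovZ.n1 (1404, 496) (by decide +kernel)
         (CovZ.n2 (1406, 494) (by decide +kernel)
          (CovZ.leaf K3_ok TN_l1044 _)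
          (CovZ.leaf K3_ok TN_l1045 _))
         (CovZ.n1 (1402, 494) (by decide +kernel)
          (CovZ.leaf K3_ok TN_l1046 _)
          (CovZ.leaf K3_ok TN_l1047 _))))
       (CovZ.subM 137438990337 (by decide +kernel)
        (CovZ.n1 (1396, 492) (by decide +kernel)
         (CovZ.n2 (1396, 496) (by decide +kernel)
          (CovZ.n2 (1398, 494) (by decide +kernel)
           (CovZ.leaf K3_ok TN_l1048 _)
           (CovZ.leaf K3_ok TN_l1049 _))
          (CovZ.n1 (1394, 494) (by decide +kernel)
           (CovZ.leaf K3_ok TN_l1050 _)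
           (CovZ.leaf K3_ok TN_l1051 _)))
         (CovZ.n1 (1400, 492) (by decide +kernel)
          (CovZ.n2 (1398, 490) (by decide +kernel)
           (CovZ.leaf K3_ok TN_l1052 _)
           (CovZ.leaf K3_ok TN_l1053 _))
          (CovZ.leaf K3_ok TN_l1054 _)))))
      (CovZ.n1 (1408, 488) (by decide +kernel)
       (CovZ.n2 (1404, 484) (by decide +kernel)
        (CovZ.n2 (1404, 488) (by decide +kernel)
         (CovZ.n2 (1406, 486) (by decide +kernel)
          (CovZ.leaf K3_ok TN_l1055 _)
          (CovZ.leaf K3_ok TN_l1056 _))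
         (CovZ.n1 (1402, 486) (by decide +kernel)
          (CovZ.leaf K3_ok TN_l1057 _)
          (CovZ.leaf K3_ok TN_l1058 _)))
        (CovZ.n1 (1408, 484) (by decide +kernel)
         (CovZ.n2 (1406, 482) (by decide +kernel)
          (CovZ.leaf K3_ok TN_l1059 _)
          (CovZ.leaf K3_ok TN_l1060 _))
         (CovZ.n1 (1406, 486) (by decide +kernel)
          (CovZ.leaf K3_ok TN_l1061 _)
          (CovZ.leaf K3_ok TN_l1062 _))))
       (CovZ.n1 (1404, 492) (by decide +kernel)
        (CovZ.n2 (1408, 492) (by decide +kernel)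
         (CovZ.n2 (1406, 490) (by decide +kernel)
          (CovZ.leaf K3_ok TN_l1063 _)
          (CovZ.leaf K3_ok TN_l1064 _))
         (CovZ.n1 (1406, 494) (by decide +kernel)
          (CovZ.leaf K3_ok TN_l1065 _)
          (CovZ.leaf K3_ok TN_l1066 _)))
        (CovZ.n1 (1404, 488) (by decide +kernel)
         (CovZ.n2 (1402, 490) (by decide +kernel)
          (CovZ.leaf K3_ok TN_l1067 _)
          (CovZ.leaf K3_ok TN_l1068 _))
         (CovZ.leaf K3_ok TN_l1069 _)))))
     (CovZ.n1 (1400, 504) (by decide +kernel)
      (CovZ.subM 137438957569 (by decide +kernel)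
       (CovZ.n2 (1408, 504) (by decide +kernel)
        (CovZ.n2 (1404, 500) (by decide +kernel)
         (CovZ.n2 (1404, 504) (by decide +kernel)
          (CovZ.n2 (1406, 502) (by decide +kernel)
           (CovZ.leaf K3_ok TN_l1070 _)
           (CovZ.leaf K3_ok TN_l1071 _))
          (CovZ.n1 (1402, 502) (by decide +kernel)
           (CovZ.leaf K3_ok TN_l1072 _)
           (CovZ.leaf K3_ok TN_l1073 _)))
         (CovZ.n1 (1408, 500) (by decide +kernel)
          (CovZ.n2 (1406, 498) (by decide +kernel)
           (CovZ.leaf K3_ok TN_l1074 _)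
           (CovZ.leaf K3_ok TN_l1075 _))
          (CovZ.n1 (1406, 502) (by decide +kernel)
           (CovZ.leaf K3_ok TN_l1076 _)
           (CovZ.leaf K3_ok TN_l1077 _))))
        (CovZ.n1 (1404, 508) (by decide +kernel)
         (CovZ.n2 (1408, 508) (by decide +kernel)
          (CovZ.n2 (1406, 506) (by decide +kernel)
           (CovZ.leaf K3_ok TN_l1078 _)
           (CovZ.badM (by decide +kernel)))
          (CovZ.n1 (1406, 510) (by decide +kernel)
           (CovZ.badM (by decide +kernel))
           (CovZ.leaf K3_ok TN_l1079 _)))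
         (CovZ.n1 (1404, 504) (by decide +kernel)
          (CovZ.n2 (1402, 506) (by decide +kernel)
           (CovZ.leaf K3_ok TN_l1080 _)
           (CovZ.leaf K3_ok TN_l1081 _))
          (CovZ.leaf K3_ok TN_l1082 _)))))
      (CovZ.n1 (1400, 496) (by decide +kernel)
       (CovZ.subM 137438990336 (by decide +kernel)
        (CovZ.n2 (1396, 500) (by decide +kernel)
         (CovZ.n2 (1400, 500) (by decide +kernel)
          (CovZ.n2 (1398, 498) (by decide +kernel)
           (CovZ.leaf K3_ok TN_l1083 _)
           (CovZ.leaf K3_ok TN_l1084 _))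
          (CovZ.leaf K3_ok TN_l1085 _))
         (CovZ.n1 (1396, 496) (by decide +kernel)
          (CovZ.leaf K3_ok TN_l1086 _)
          (CovZ.leaf K3_ok TN_l1087 _))))
       (CovZ.n1 (1404, 500) (by decide +kernel)
        (CovZ.n2 (1404, 496) (by decide +kernel)
         (CovZ.n2 (1402, 498) (by decide +kernel)
          (CovZ.leaf K3_ok TN_l1088 _)
          (CovZ.leaf K3_ok TN_l1089 _))
         (CovZ.leaf K3_ok TN_l1090 _))
        (CovZ.subM 137441087488 (by decide +kernel)
         (CovZ.n1 (1400, 500) (by decide +kernel)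
          (CovZ.n2 (1402, 502) (by decide +kernel)
           (CovZ.leaf K3_ok TN_l1091 _)
           (CovZ.leaf K3_ok TN_l1092 _))
          (CovZ.n1 (1402, 498) (by decide +kernel)
           (CovZ.leaf K3_ok TN_l1093 _)
           (CovZ.leaf K3_ok TN_l1094 _))))))))
    (CovZ.n1 (1392, 480) (by decide +kernel)
     (CovZ.subM 137438953473 (by decide +kernel)
      (CovZ.n2 (1384, 488) (by decide +kernel)
       (CovZ.n2 (1392, 488) (by decide +kernel)
        (CovZ.n2 (1388, 484) (by decide +kernel)
         (CovZ.n2 (1388, 488) (by decide +kernel)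
          (CovZ.n2 (1390, 486) (by decide +kernel)
           (CovZ.badM (by decide +kernel))
           (CovZ.leaf K3_ok TN_l1095 _))
          (CovZ.badM (by decide +kernel)))
         (CovZ.n1 (1392, 484) (by decide +kernel)
          (CovZ.n2 (1390, 482) (by decide +kernel)
           (CovZ.leaf K3_ok TN_l1096 _)
           (CovZ.leaf K3_ok TN_l1097 _))
          (CovZ.n1 (1390, 486) (by decide +kernel)
           (CovZ.leaf K3_ok TN_l1098 _)
           (CovZ.leaf K3_ok TN_l1099 _))))
        (CovZ.n1 (1388, 492) (by decide +kernel)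
         (CovZ.n2 (1392, 492) (by decide +kernel)
          (CovZ.n2 (1390, 490) (by decide +kernel)
           (CovZ.leaf K3_ok TN_l1100 _)
           (CovZ.leaf K3_ok TN_l1101 _))
          (CovZ.leaf K3_ok TN_l1102 _))
         (CovZ.n1 (1388, 488) (by decide +kernel)
          (CovZ.badM (by decide +kernel))
          (CovZ.n1 (1390, 490) (by decide +kernel)
           (CovZ.leaf K3_ok TN_l1103 _)
           (CovZ.badM (by decide +kernel))))))
       (CovZ.n1 (1384, 480) (by decide +kernel)
        (CovZ.badM (by decide +kernel))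
        (CovZ.n1 (1388, 484) (by decide +kernel)
         (CovZ.n2 (1388, 480) (by decide +kernel)
          (CovZ.badM (by decide +kernel))
          (CovZ.n1 (1390, 482) (by decide +kernel)
           (CovZ.leaf K3_ok TN_l1104 _)
           (CovZ.badM (by decide +kernel))))
         (CovZ.badM (by decide +kernel))))))
     (CovZ.n1 (1400, 488) (by decide +kernel)
      (CovZ.n2 (1400, 480) (by decide +kernel)
       (CovZ.subM 137438990337 (by decide +kernel)
        (CovZ.n2 (1396, 484) (by decide +kernel)
         (CovZ.n2 (1400, 484) (by decide +kernel)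
          (CovZ.n2 (1398, 482) (by decide +kernel)
           (CovZ.leaf K3_ok TN_l1105 _)
           (CovZ.leaf K3_ok TN_l1106 _))
          (CovZ.leaf K3_ok TN_l1107 _))
         (CovZ.n1 (1396, 480) (by decide +kernel)
          (CovZ.leaf K3_ok TN_l1108 _)
          (CovZ.leaf K3_ok TN_l1109 _))))
       (CovZ.n1 (1404, 484) (by decide +kernel)
        (CovZ.n2 (1404, 480) (by decide +kernel)
         (CovZ.n2 (1402, 482) (by decide +kernel)
          (CovZ.leaf K3_ok TN_l1110 _)
          (CovZ.leaf K3_ok TN_l1111 _))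
         (CovZ.n1 (1406, 482) (by decide +kernel)
          (CovZ.leaf K3_ok TN_l1112 _)
          (CovZ.leaf K3_ok TN_l1113 _)))
        (CovZ.n1 (1400, 484) (by decide +kernel)
         (CovZ.n2 (1402, 486) (by decide +kernel)
          (CovZ.leaf K3_ok TN_l1114 _)
          (CovZ.leaf K3_ok TN_l1115 _))
         (CovZ.n1 (1402, 482) (by decide +kernel)
          (CovZ.leaf K3_ok TN_l1116 _)
          (CovZ.leaf K3_ok TN_l1117 _)))))
      (CovZ.subM 137438990337 (by decide +kernel)
       (CovZ.n1 (1392, 488) (by decide +kernel)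
        (CovZ.n2 (1396, 492) (by decide +kernel)
         (CovZ.n2 (1396, 488) (by decide +kernel)
          (CovZ.leaf K3_ok TN_l1118 _)
          (CovZ.leaf K3_ok TN_l1119 _))
         (CovZ.n1 (1392, 492) (by decide +kernel)
          (CovZ.leaf K3_ok TN_l1120 _)
          (CovZ.n1 (1394, 490) (by decide +kernel)
           (CovZ.leaf K3_ok TN_l1121 _)
           (CovZ.leaf K3_ok TN_l1122 _))))
        (CovZ.n1 (1396, 484) (by decide +kernel)
         (CovZ.n2 (1392, 484) (by decide +kernel)
          (CovZ.leaf K3_ok TN_l1123 _)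
          (CovZ.leaf K3_ok TN_l1124 _))
         (CovZ.n1 (1396, 488) (by decide +kernel)
          (CovZ.n2 (1398, 486) (by decide +kernel)
           (CovZ.leaf K3_ok TN_l1125 _)
           (CovZ.leaf K3_ok TN_l1126 _))
          (CovZ.n1 (1394, 486) (by decide +kernel)
           (CovZ.leaf K3_ok TN_l1127 _)
           (CovZ.leaf K3_ok TN_l1128 _))))))))))
    (CovZ.topM TN_LL 137441087491 (by decide +kernel) (CovZ.n0 (1392, 496) (by decide +kernel)
    (CovZ.subM 137438953473 (by decide +kernel)
     (CovZ.n2 (1376, 496) (by decide +kernel)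
      (CovZ.n2 (1384, 504) (by decide +kernel)
       (CovZ.n2 (1384, 496) (by decide +kernel)
        (CovZ.badM (by decide +kernel))
        (CovZ.n1 (1388, 500) (by decide +kernel)
         (CovZ.n2 (1388, 496) (by decide +kernel)
          (CovZ.badM (by decide +kernel))
          (CovZ.n1 (1390, 498) (by decide +kernel)
           (CovZ.leaf K3_ok TN_l1129 _)
           (CovZ.badM (by decide +kernel))))
         (CovZ.badM (by decide +kernel))))
       (CovZ.badM (by decide +kernel)))
      (CovZ.n1 (1384, 488) (by decide +kernel)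
       (CovZ.badM (by decide +kernel))
       (CovZ.n1 (1384, 496) (by decide +kernel)
        (CovZ.n2 (1388, 492) (by decide +kernel)
         (CovZ.badM (by decide +kernel))
         (CovZ.n1 (1388, 496) (by decide +kernel)
          (CovZ.n2 (1390, 494) (by decide +kernel)
           (CovZ.badM (by decide +kernel))
           (CovZ.leaf K3_ok TN_l1130 _))
          (CovZ.badM (by decide +kernel))))
        (CovZ.badM (by decide +kernel))))))
    (CovZ.n1 (1392, 512) (by decide +kernel)
     (CovZ.n2 (1400, 504) (by decide +kernel)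
      (CovZ.subM 137438990336 (by decide +kernel)
       (CovZ.n2 (1392, 504) (by decide +kernel)
        (CovZ.n2 (1396, 508) (by decide +kernel)
         (CovZ.n2 (1396, 504) (by decide +kernel)
          (CovZ.leaf K3_ok TN_l1131 _)
          (CovZ.leaf K3_ok TN_l1132 _))
         (CovZ.n1 (1392, 508) (by decide +kernel)
          (CovZ.badM (by decide +kernel))
          (CovZ.n1 (1394, 506) (by decide +kernel)
           (CovZ.leaf K3_ok TN_l1133 _)
           (CovZ.leaf K3_ok TN_l1134 _))))
        (CovZ.n1 (1396, 500) (by decide +kernel)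
         (CovZ.n2 (1392, 500) (by decide +kernel)
          (CovZ.leaf K3_ok TN_l1135 _)
          (CovZ.n1 (1394, 498) (by decide +kernel)
           (CovZ.leaf K3_ok TN_l1136 _)
           (CovZ.leaf K3_ok TN_l1137 _)))
         (CovZ.n1 (1396, 504) (by decide +kernel)
          (CovZ.n2 (1398, 502) (by decide +kernel)
           (CovZ.leaf K3_ok TN_l1138 _)
           (CovZ.leaf K3_ok TN_l1139 _))
          (CovZ.n1 (1394, 502) (by decide +kernel)
           (CovZ.leaf K3_ok TN_l1140 _)
           (CovZ.leaf K3_ok TN_l1141 _))))))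
      (CovZ.subM 137438957568 (by decide +kernel)
       (CovZ.n1 (1400, 512) (by decide +kernel)
        (CovZ.n2 (1404, 508) (by decide +kernel)
         (CovZ.n2 (1400, 508) (by decide +kernel)
          (CovZ.n2 (1402, 510) (by decide +kernel)
           (CovZ.leaf K3_ok TN_l1142 _)
           (CovZ.leaf K3_ok TN_l1143 _))
          (CovZ.n1 (1402, 506) (by decide +kernel)
           (CovZ.leaf K3_ok TN_l1144 _)
           (CovZ.leaf K3_ok TN_l1145 _)))
         (CovZ.n1 (1404, 512) (by decide +kernel)
          (CovZ.n2 (1406, 510) (by decide +kernel)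
           (CovZ.leaf K3_ok TN_l1146 _)
           (CovZ.leaf K3_ok TN_l1147 _))
          (CovZ.n1 (1402, 510) (by decide +kernel)
           (CovZ.leaf K3_ok TN_l1148 _)
           (CovZ.leaf K3_ok TN_l1149 _))))
        (CovZ.n1 (1396, 508) (by decide +kernel)
         (CovZ.n2 (1396, 512) (by decide +kernel)
          (CovZ.n2 (1398, 510) (by decide +kernel)
           (CovZ.leaf K3_ok TN_l1150 _)
           (CovZ.leaf K3_ok TN_l1151 _))
          (CovZ.badM (by decide +kernel)))
         (CovZ.n1 (1400, 508) (by decide +kernel)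
          (CovZ.n2 (1398, 506) (by decide +kernel)
           (CovZ.leaf K3_ok TN_l1152 _)
           (CovZ.leaf K3_ok TN_l1153 _))
          (CovZ.leaf K3_ok TN_l1154 _))))))
     (CovZ.subM 137438986240 (by decide +kernel)
      (CovZ.n1 (1384, 504) (by decide +kernel)
       (CovZ.n2 (1384, 512) (by decide +kernel)
        (CovZ.n2 (1388, 508) (by decide +kernel)
         (CovZ.badM (by decide +kernel))
         (CovZ.badM (by decide +kernel)))
        (CovZ.badM (by decide +kernel)))
       (CovZ.n1 (1392, 504) (by decide +kernel)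
        (CovZ.n2 (1388, 500) (by decide +kernel)
         (CovZ.n2 (1388, 504) (by decide +kernel)
          (CovZ.n2 (1390, 502) (by decide +kernel)
           (CovZ.badM (by decide +kernel))
           (CovZ.leaf K3_ok TN_l1155 _))
          (CovZ.badM (by decide +kernel)))
         (CovZ.n1 (1392, 500) (by decide +kernel)
          (CovZ.n2 (1390, 498) (by decide +kernel)
           (CovZ.leaf K3_ok TN_l1156 _)
           (CovZ.leaf K3_ok TN_l1157 _))
          (CovZ.n1 (1390, 502) (by decide +kernel)
           (CovZ.leaf K3_ok TN_l1158 _)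
           (CovZ.leaf K3_ok TN_l1159 _))))
        (CovZ.n1 (1388, 508) (by decide +kernel)
         (CovZ.n2 (1392, 508) (by decide +kernel)
          (CovZ.n2 (1390, 506) (by decide +kernel)
           (CovZ.leaf K3_ok TN_l1160 _)
           (CovZ.leaf K3_ok TN_l1161 _))
          (CovZ.badM (by decide +kernel)))
         (CovZ.n1 (1388, 504) (by decide +kernel)
          (CovZ.badM (by decide +kernel))
          (CovZ.n1 (1390, 506) (by decide +kernel)
           (CovZ.leaf K3_ok TN_l1162 _)
           (CovZ.badM (by decide +kernel)))))))))))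

theorem TN_s1_9 : SqZ TN_M TN_L [0, 7, 4, 3] 1376 192 32 1 9 :=
  SqZ.mk (a := 1408) (b := 1440) (c := 480) (d := 512) (by norm_num) (by norm_num) (by norm_num) (by norm_num)
    (CovZ.topM TN_LL 2199023255553 (by decide +kernel) (CovZ.n2 (1424, 496) (by decide +kernel)
    (CovZ.badM (by decide +kernel))
    (CovZ.n1 (1424, 480) (by decide +kernel)
     (CovZ.n2 (1416, 488) (by decide +kernel)
      (CovZ.badM (by decide +kernel))
      (CovZ.n1 (1416, 480) (by decide +kernel)
       (CovZ.n2 (1412, 484) (by decide +kernel)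
        (CovZ.n2 (1416, 484) (by decide +kernel)
         (CovZ.n2 (1414, 482) (by decide +kernel)
          (CovZ.leaf K3_ok TN_l1517 _)
          (CovZ.leaf K3_ok TN_l1618 _))
         (CovZ.n1 (1414, 486) (by decide +kernel)
          (CovZ.leaf K3_ok TN_l1619 _)
          (CovZ.leaf K3_ok TN_l1518 _)))
        (CovZ.n1 (1412, 480) (by decide +kernel)
         (CovZ.n2 (1410, 482) (by decide +kernel)
          (CovZ.leaf K3_ok TN_l1519 _)
          (CovZ.leaf K3_ok TN_l1520 _))
         (CovZ.n1 (1414, 482) (by decide +kernel)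
          (CovZ.leaf K3_ok TN_l1521 _)
          (CovZ.leaf K3_ok TN_l1522 _))))
       (CovZ.badM (by decide +kernel))))
     (CovZ.badM (by decide +kernel)))))
    (CovZ.topM TN_LL 2199023255553 (by decide +kernel) (CovZ.n0 (1424, 496) (by decide +kernel)
    (CovZ.n2 (1408, 496) (by decide +kernel)
     (CovZ.n2 (1416, 504) (by decide +kernel)
      (CovZ.n2 (1416, 496) (by decide +kernel)
       (CovZ.n2 (1412, 500) (by decide +kernel)
        (CovZ.n2 (1416, 500) (by decide +kernel)
         (CovZ.n2 (1414, 498) (by decide +kernel)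
          (CovZ.leaf K3_ok TN_l1523 _)
          (CovZ.badM (by decide +kernel)))
         (CovZ.n1 (1414, 502) (by decide +kernel)
          (CovZ.badM (by decide +kernel))
          (CovZ.leaf K3_ok TN_l1524 _)))
        (CovZ.n1 (1412, 496) (by decide +kernel)
         (CovZ.n2 (1410, 498) (by decide +kernel)
          (CovZ.leaf K3_ok TN_l1525 _)
          (CovZ.leaf K3_ok TN_l1526 _))
         (CovZ.n1 (1414, 498) (by decide +kernel)
          (CovZ.leaf K3_ok TN_l1527 _)
          (CovZ.leaf K3_ok TN_l1528 _))))
       (CovZ.badM (by decide +kernel)))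
      (CovZ.n1 (1408, 504) (by decide +kernel)
       (CovZ.n2 (1412, 508) (by decide +kernel)
        (CovZ.n2 (1412, 504) (by decide +kernel)
         (CovZ.badM (by decide +kernel))
         (CovZ.n1 (1414, 506) (by decide +kernel)
          (CovZ.leaf K3_ok TN_l1529 _)
          (CovZ.badM (by decide +kernel))))
        (CovZ.badM (by decide +kernel)))
       (CovZ.n1 (1412, 500) (by decide +kernel)
        (CovZ.n2 (1408, 500) (by decide +kernel)
         (CovZ.n2 (1410, 502) (by decide +kernel)
          (CovZ.leaf K3_ok TN_l1530 _)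
          (CovZ.leaf K3_ok TN_l1531 _))
         (CovZ.n1 (1410, 498) (by decide +kernel)
          (CovZ.leaf K3_ok TN_l1532 _)
          (CovZ.leaf K3_ok TN_l1533 _)))
        (CovZ.n1 (1412, 504) (by decide +kernel)
         (CovZ.n2 (1414, 502) (by decide +kernel)
          (CovZ.leaf K3_ok TN_l1534 _)
          (CovZ.leaf K3_ok TN_l1535 _))
         (CovZ.n1 (1410, 502) (by decide +kernel)
          (CovZ.leaf K3_ok TN_l1536 _)
          (CovZ.leaf K3_ok TN_l1537 _))))))
     (CovZ.n1 (1416, 488) (by decide +kernel)
      (CovZ.n2 (1408, 488) (by decide +kernel)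
       (CovZ.n2 (1412, 492) (by decide +kernel)
        (CovZ.n2 (1412, 488) (by decide +kernel)
         (CovZ.n2 (1410, 490) (by decide +kernel)
          (CovZ.leaf K3_ok TN_l1538 _)
          (CovZ.leaf K3_ok TN_l1539 _))
         (CovZ.n1 (1414, 490) (by decide +kernel)
          (CovZ.leaf K3_ok TN_l1540 _)
          (CovZ.leaf K3_ok TN_l1541 _)))
        (CovZ.n1 (1408, 492) (by decide +kernel)
         (CovZ.n2 (1410, 494) (by decide +kernel)
          (CovZ.leaf K3_ok TN_l1542 _)
          (CovZ.leaf K3_ok TN_l1543 _))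
         (CovZ.n1 (1410, 490) (by decide +kernel)
          (CovZ.leaf K3_ok TN_l1544 _)
          (CovZ.leaf K3_ok TN_l1545 _))))
       (CovZ.n1 (1412, 484) (by decide +kernel)
        (CovZ.n2 (1408, 484) (by decide +kernel)
         (CovZ.n2 (1410, 486) (by decide +kernel)
          (CovZ.leaf K3_ok TN_l1546 _)
          (CovZ.leaf K3_ok TN_l1547 _))
         (CovZ.n1 (1410, 482) (by decide +kernel)
          (CovZ.leaf K3_ok TN_l1548 _)
          (CovZ.leaf K3_ok TN_l1549 _)))
        (CovZ.n1 (1412, 488) (by decide +kernel)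
         (CovZ.n2 (1414, 486) (by decide +kernel)
          (CovZ.leaf K3_ok TN_l1550 _)
          (CovZ.leaf K3_ok TN_l1551 _))
         (CovZ.n1 (1410, 486) (by decide +kernel)
          (CovZ.leaf K3_ok TN_l1552 _)
          (CovZ.leaf K3_ok TN_l1553 _)))))
      (CovZ.n1 (1416, 496) (by decide +kernel)
       (CovZ.badM (by decide +kernel))
       (CovZ.n1 (1412, 492) (by decide +kernel)
        (CovZ.n2 (1412, 496) (by decide +kernel)
         (CovZ.n2 (1414, 494) (by decide +kernel)
          (CovZ.leaf K3_ok TN_l1554 _)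
          (CovZ.leaf K3_ok TN_l1555 _))
         (CovZ.n1 (1410, 494) (by decide +kernel)
          (CovZ.leaf K3_ok TN_l1556 _)
          (CovZ.leaf K3_ok TN_l1557 _)))
        (CovZ.n1 (1416, 492) (by decide +kernel)
         (CovZ.n2 (1414, 490) (by decide +kernel)
          (CovZ.leaf K3_ok TN_l1558 _)
          (CovZ.leaf K3_ok TN_l1620 _))
         (CovZ.n1 (1414, 494) (by decide +kernel)
          (CovZ.leaf K3_ok TN_l1621 _)
          (CovZ.leaf K3_ok TN_l1559 _)))))))
    (CovZ.n1 (1424, 512) (by decide +kernel)
     (CovZ.badM (by decide +kernel))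
     (CovZ.n1 (1416, 504) (by decide +kernel)
      (CovZ.n2 (1416, 512) (by decide +kernel)
       (CovZ.badM (by decide +kernel))
       (CovZ.n1 (1412, 508) (by decide +kernel)
        (CovZ.badM (by decide +kernel))
        (CovZ.n1 (1416, 508) (by decide +kernel)
         (CovZ.n2 (1414, 506) (by decide +kernel)
          (CovZ.badM (by decide +kernel))
          (CovZ.badM (by decide +kernel)))
         (CovZ.badM (by decide +kernel)))))
      (CovZ.badM (by decide +kernel))))))

end Pool.Agent.TET
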