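import Pool.Agent.Helper38_TET.RegS
import Pool.Agent.Helper38_TET.TN_S0
import Pool.Agent.Helper38_TET.TN_S1

/-!
# MP_c7c9bf_co: certificates, family TN
-/

set_option autoImplicit false
set_option maxRecDepth 100000

namespace Pool.Agent.TET

theorem TN_r0 : ∀ i < 2, SqZ TN_M TN_L [0, 7, 4, 3] 1376 192 32 i 0
  | 0, _ => TN_s0_0
  | 1, _ => TN_s1_0
  | n + 2, h => absurd h (by omega)

theorem TN_r1 : ∀ i < 2, SqZ TN_M TN_L [0, 7, 4, 3] 1376 192 32 i 1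
  | 0, _ => TN_s0_1
  | 1, _ => TN_s1_1
  | n + 2, h => absurd h (by omega)

theorem TN_r2 : ∀ i < 2, SqZ TN_M TN_L [0, 7, 4, 3] 1376 192 32 i 2
  | 0, _ => TN_s0_2
  | 1, _ => TN_s1_2
  | n + 2, h => absurd h (by omega)

theorem TN_r3 : ∀ i < 2, SqZ TN_M TN_L [0, 7, 4, 3] 1376 192 32 i 3
  | 0, _ => TN_s0_3
  | 1, _ => TN_s1_3
  | n + 2, h => absurd h (by omega)

theorem TN_r4 : ∀ i < 2, SqZ TN_M TN_L [0, 7, 4, 3] 1376 192 32 i 4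
  | 0, _ => TN_s0_4
  | 1, _ => TN_s1_4
  | n + 2, h => absurd h (by omega)

theorem TN_r5 : ∀ i < 2, SqZ TN_M TN_L [0, 7, 4, 3] 1376 192 32 i 5
  | 0, _ => TN_s0_5
  | 1, _ => TN_s1_5
  | n + 2, h => absurd h (by omega)

theorem TN_r6 : ∀ i < 2, SqZ TN_M TN_L [0, 7, 4, 3] 1376 192 32 i 6
  | 0, _ => TN_s0_6
  | 1, _ => TN_s1_6
  | n + 2, h => absurd h (by omega)

theorem TN_r7 : ∀ i < 2, SqZ TN_M TN_L [0, 7, 4, 3] 1376 192 32 i 7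
  | 0, _ => TN_s0_7
  | 1, _ => TN_s1_7
  | n + 2, h => absurd h (by omega)

theorem TN_r8 : ∀ i < 2, SqZ TN_M TN_L [0, 7, 4, 3] 1376 192 32 i 8
  | 0, _ => TN_s0_8
  | 1, _ => TN_s1_8
  | n + 2, h => absurd h (by omega)

theorem TN_r9 : ∀ i < 2, SqZ TN_M TN_L [0, 7, 4, 3] 1376 192 32 i 9
  | 0, _ => TN_s0_9
  | 1, _ => TN_s1_9
  | n + 2, h => absurd h (by omega)

theorem TN_rows : ∀ j < 10, ∀ i < 2, SqZ TN_M TN_L [0, 7, 4, 3] 1376 192 32 i j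
  | 0, _ => TN_r0
  | 1, _ => TN_r1
  | 2, _ => TN_r2
  | 3, _ => TN_r3
  | 4, _ => TN_r4
  | 5, _ => TN_r5
  | 6, _ => TN_r6
  | 7, _ => TN_r7
  | 8, _ => TN_r8
  | 9, _ => TN_r9
  | n + 10, h => absurd h (by omega)

theorem TN_cov (X Y : ℝ) (h1 : ((1376 : ℤ) : ℝ) ≤ X) (h2 : X ≤ (1440 : ℤ)) (h3 : ((192 : ℤ) : ℝ) ≤ Y)
    (h4 : Y ≤ (512 : ℤ)) : Out TN_L X Y ∨ GoodV [0, 7, 4, 3] (TN_M.v X Y) := by
  push_cast at h1 h2 h3 h4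
  refine gridZ (by norm_num) (by norm_num) (by norm_num) TN_rows ?_ ?_ ?_ ?_ <;> push_cast <;> linarith

theorem TN_sc : ∀ a : Fin 3, (![1, 1, 32] : Fin 3 → ℝ) a ≠ 0 := by
  intro a
  fin_cases a <;> simp

theorem TN_fr (x y : ℝ) : scl ![1, 1, 32] (VV ((0 : ℤ) : ℝ) ((-21 : ℤ) : ℝ) ((32 : ℤ) : ℝ) (x / (1 : ℤ)) (y / (1 : ℤ))) =
    TN_M.v (30720 * x / (1 : ℤ)) (30720 * y / (1 : ℤ)) := by
  funext i j
  fin_cases i <;> fin_cases j <;> simp [scl, VV, FM.v, Z3.ev, TN_M] <;> ring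

end Pool.Agent.TET
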