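import Pool.Agent.Helper38_TET.TN_C

/-!
# MP_c7c9bf_co: certificates, family TN
-/

set_option autoImplicit false
set_option maxRecDepth 100000

namespace Pool.Agent.TET

theorem TN_rg0 : ROK [.q ⟨-11, 0, -21, 32⟩ ⟨-2009, 4000, 3801, -5792⟩, .q ⟨-11, 0, -21, 32⟩ ⟨-3735, 712, 5679, -2656⟩, .q ⟨-11, 0, -21, 32⟩ ⟨247, -500, -483, 736⟩, .q ⟨-11, 0, -21, 32⟩ ⟨1638, 2212, -2346, -1504⟩] := by
  refine rok_w (v := ⟨-11, 0, -21, 32⟩) (q := 1) (by decide) (by decide) (by decide) TN_sc (k := 1) (by decide) (Q := [(4000, 0, -181), (712, 3936, -83), (-500, 0, 23), (2212, -3333, -47)])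
    (P := [⟨-5560320, 4000, 0⟩, ⟨-2549760, 712, 3936⟩, ⟨706560, -500, 0⟩, ⟨-1443840, 2212, -3333⟩]) rfl rfl
    (List.mem_of_getElem? (i := 0) rfl) TN_fr TN_cov ?_
  · intro X Y h
    simp only [List.forall_mem_cons, List.not_mem_nil, false_imp_iff, implies_true, and_true] at h
    push_cast at h ⊢
    obtain ⟨h0, h1, h2, h3⟩ := h
    refine ⟨⟨?_, ?_⟩, ?_, ?_⟩ <;> linarith

theorem TN_rg1 : ROK [.q ⟨-11, 0, -21, 32⟩ ⟨-1862, 3997, 3625, -5760⟩, .q ⟨-11, 0, -21, 32⟩ ⟨-3376, -395, 4379, -608⟩, .q ⟨-11, 0, -21, 32⟩ ⟨2513, -3952, -4545, 5984⟩] := by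
  refine rok_w (v := ⟨-11, 0, -21, 32⟩) (q := 1) (by decide) (by decide) (by decide) TN_sc (k := 1) (by decide) (Q := [(3997, -155, -180), (-395, 3980, -19), (-3952, -618, 187)])
    (P := [⟨-5529600, 3997, -155⟩, ⟨-583680, -395, 3980⟩, ⟨5744640, -3952, -618⟩]) rfl rfl
    (List.mem_of_getElem? (i := 1) rfl) TN_fr TN_cov ?_
  · intro X Y h
    simp only [List.forall_mem_cons, List.not_mem_nil, false_imp_iff, implies_true, and_true] at h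
    push_cast at h ⊢
    obtain ⟨h0, h1, h2⟩ := h
    refine ⟨⟨?_, ?_⟩, ?_, ?_⟩ <;> linarith

theorem TN_rg2 : ROK [.q ⟨-11, 0, -21, 32⟩ ⟨4075, -1993, -6114, 4032⟩, .q ⟨-11, 0, -21, 32⟩ ⟨-2813, 3878, 4887, -5952⟩, .q ⟨-11, 0, -21, 32⟩ ⟨-2603, -1477, 3024, 1056⟩, .q ⟨-11, 0, -21, 32⟩ ⟨430, -799, -815, 1184⟩] := by
  refine rok_w (v := ⟨-11, 0, -21, 32⟩) (q := 1) (by decide) (by decide) (by decide) TN_sc (k := 1) (by decide) (Q := [(-1993, -3468, 126), (3878, 981, -186), (-1477, 3717, 33), (-799, -38, 37)])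
    (P := [⟨3870720, -1993, -3468⟩, ⟨-5713920, 3878, 981⟩, ⟨1013760, -1477, 3717⟩, ⟨1136640, -799, -38⟩]) rfl rfl
    (List.mem_of_getElem? (i := 2) rfl) TN_fr TN_cov ?_
  · intro X Y h
    simp only [List.forall_mem_cons, List.not_mem_nil, false_imp_iff, implies_true, and_true] at h
    push_cast at h ⊢
    obtain ⟨h0, h1, h2, h3⟩ := h
    refine ⟨⟨?_, ?_⟩, ?_, ?_⟩ <;> linarith

theorem TN_rg3 : ROK [.q ⟨-11, 0, -21, 32⟩ ⟨-971, -2940, 423, 3488⟩, .q ⟨-11, 0, -21, 32⟩ ⟨1875, -3998, -3733, 5856⟩, .q ⟨-11, 0, -21, 32⟩ ⟨3932, -963, -5625, 2656⟩, .q ⟨-11, 0, -21, 32⟩ ⟨-3094, 3758, 5256, -5920⟩] := by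
  refine rok_w (v := ⟨-11, 0, -21, 32⟩) (q := 1) (by decide) (by decide) (by decide) TN_sc (k := 1) (by decide) (Q := [(-2940, 2712, 109), (-3998, 110, 183), (-963, -3882, 83), (3758, 1371, -185)])
    (P := [⟨3348480, -2940, 2712⟩, ⟨5621760, -3998, 110⟩, ⟨2549760, -963, -3882⟩, ⟨-5683200, 3758, 1371⟩]) rfl rfl
    (List.mem_of_getElem? (i := 3) rfl) TN_fr TN_cov ?_
  · intro X Y h
    simp only [List.forall_mem_cons, List.not_mem_nil, false_imp_iff, implies_true, and_true] at h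
    push_cast at h ⊢
    obtain ⟨h0, h1, h2, h3⟩ := h
    refine ⟨⟨?_, ?_⟩, ?_, ?_⟩ <;> linarith

theorem TN_rg4 : ROK [.q ⟨-11, 0, -21, 32⟩ ⟨-622, 1959, 1383, -2720⟩, .q ⟨-11, 0, -21, 32⟩ ⟨-3406, -307, 4513, -800⟩, .q ⟨-11, 0, -21, 32⟩ ⟨3647, -3299, -5916, 5568⟩] := by
  refine rok_w (v := ⟨-11, 0, -21, 32⟩) (q := 1) (by decide) (by decide) (by decide) TN_sc (k := 1) (by decide) (Q := [(1959, -402, -85), (-307, 3988, -25), (-3299, -2262, 174)])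
    (P := [⟨-2611200, 1959, -402⟩, ⟨-768000, -307, 3988⟩, ⟨5345280, -3299, -2262⟩]) rfl rfl
    (List.mem_of_getElem? (i := 4) rfl) TN_fr TN_cov ?_
  · intro X Y h
    simp only [List.forall_mem_cons, List.not_mem_nil, false_imp_iff, implies_true, and_true] at h
    push_cast at h ⊢
    obtain ⟨h0, h1, h2⟩ := h
    refine ⟨⟨?_, ?_⟩, ?_, ?_⟩ <;> linarith

theorem TN_rg5 : ROK [.q ⟨-11, 0, -21, 32⟩ ⟨1753, -3992, -3521, 5760⟩, .q ⟨-11, 0, -21, 32⟩ ⟨3078, 505, -4703, 1120⟩, .q ⟨-11, 0, -21, 32⟩ ⟨-1956, 4000, 3748, -5792⟩, .q ⟨-11, 0, -21, 32⟩ ⟨-165, -404, 89, 480⟩] := by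
  refine rok_w (v := ⟨-11, 0, -21, 32⟩) (q := 1) (by decide) (by decide) (by decide) TN_sc (k := 1) (by decide) (Q := [(-3992, 259, 180), (505, -3968, 35), (4000, -53, -181), (-404, 404, 15)])
    (P := [⟨5529600, -3992, 259⟩, ⟨1075200, 505, -3968⟩, ⟨-5560320, 4000, -53⟩, ⟨460800, -404, 404⟩]) rfl rfl
    (List.mem_of_getElem? (i := 5) rfl) TN_fr TN_cov ?_
  · intro X Y h
    simp only [List.forall_mem_cons, List.not_mem_nil, false_imp_iff, implies_true, and_true] at h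
    push_cast at h ⊢
    obtain ⟨h0, h1, h2, h3⟩ := h
    refine ⟨⟨?_, ?_⟩, ?_, ?_⟩ <;> linarith

theorem TN_rg6 : ROK [.q ⟨-11, 0, -21, 32⟩ ⟨-1495, 3962, 3101, -5568⟩, .q ⟨-11, 0, -21, 32⟩ ⟨-3941, 2817, 6116, -4992⟩, .q ⟨-11, 0, -21, 32⟩ ⟨-2163, -1933, 2368, 1728⟩, .q ⟨-11, 0, -21, 32⟩ ⟨4051, -2324, -6175, 4448⟩] := by
  refine rok_w (v := ⟨-11, 0, -21, 32⟩) (q := 1) (by decide) (by decide) (by decide) TN_sc (k := 1) (by decide) (Q := [(3962, -553, -174), (2817, 2840, -156), (-1933, 3502, 54), (-2324, -3256, 139)])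
    (P := [⟨-5345280, 3962, -553⟩, ⟨-4792320, 2817, 2840⟩, ⟨1658880, -1933, 3502⟩, ⟨4270080, -2324, -3256⟩]) rfl rfl
    (List.mem_of_getElem? (i := 6) rfl) TN_fr TN_cov ?_
  · intro X Y h
    simp only [List.forall_mem_cons, List.not_mem_nil, false_imp_iff, implies_true, and_true] at h
    push_cast at h ⊢
    obtain ⟨h0, h1, h2, h3⟩ := h
    refine ⟨⟨?_, ?_⟩, ?_, ?_⟩ <;> linarith

theorem TN_rg7 : ROK [.q ⟨-11, 0, -21, 32⟩ ⟨-1272, -2724, 892, 3104⟩, .q ⟨-11, 0, -21, 32⟩ ⟨2660, -3917, -4759, 6016⟩, .q ⟨-11, 0, -21, 32⟩ ⟨3659, -215, -5044, 1600⟩, .q ⟨-11, 0, -21, 32⟩ ⟨-1656, 3982, 3338, -5664⟩, .q ⟨-11, 0, -21, 32⟩ ⟨-3930, 2863, 6091, -5024⟩] := by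
  refine rok_w (v := ⟨-11, 0, -21, 32⟩) (q := 1) (by decide) (by decide) (by decide) TN_sc (k := 1) (by decide) (Q := [(-2724, 2929, 97), (-3917, -811, 188), (-215, -3994, 50), (3982, -379, -177), (2863, 2794, -157)])
    (P := [⟨2979840, -2724, 2929⟩, ⟨5775360, -3917, -811⟩, ⟨1536000, -215, -3994⟩, ⟨-5437440, 3982, -379⟩, ⟨-4823040, 2863, 2794⟩]) rfl rfl
    (List.mem_of_getElem? (i := 7) rfl) TN_fr TN_cov ?_
  · intro X Y h
    simp only [List.forall_mem_cons, List.not_mem_nil, false_imp_iff, implies_true, and_true] at h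
    push_cast at h ⊢
    obtain ⟨h0, h1, h2, h3, h4⟩ := h
    refine ⟨⟨?_, ?_⟩, ?_, ?_⟩ <;> linarith

theorem TN_rg8 : ROK [.q ⟨-11, 0, -21, 32⟩ ⟨783, 3044, -243, -3584⟩, .q ⟨-11, 0, -21, 32⟩ ⟨-2990, 3812, 5098, -5920⟩, .q ⟨-11, 0, -21, 32⟩ ⟨-1791, 0, 2399, -608⟩, .q ⟨-11, 0, -21, 32⟩ ⟨2494, -3955, -4523, 5984⟩] := by
  refine rok_w (v := ⟨-11, 0, -21, 32⟩) (q := 1) (by decide) (by decide) (by decide) TN_sc (k := 1) (by decide) (Q := [(3044, -2595, -112), (3812, 1213, -185), (0, 2000, -19), (-3955, -596, 187)])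
    (P := [⟨-3440640, 3044, -2595⟩, ⟨-5683200, 3812, 1213⟩, ⟨-583680, 0, 2000⟩, ⟨5744640, -3955, -596⟩]) rfl rfl
    (List.mem_of_getElem? (i := 8) rfl) TN_fr TN_cov ?_
  · intro X Y h
    simp only [List.forall_mem_cons, List.not_mem_nil, false_imp_iff, implies_true, and_true] at h
    push_cast at h ⊢
    obtain ⟨h0, h1, h2, h3⟩ := h
    refine ⟨⟨?_, ?_⟩, ?_, ?_⟩ <;> linarith

theorem TN_rg9 : ROK [.q ⟨-11, 0, -21, 32⟩ ⟨-3571, 0, 4819, -1248⟩, .q ⟨-11, 0, -21, 32⟩ ⟨2751, -3891, -4876, 6016⟩, .q ⟨-11, 0, -21, 32⟩ ⟨1959, -1414, -3073, 2528⟩, .q ⟨-11, 0, -21, 32⟩ ⟨-434, 1912, 1114, -2592⟩] := by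
  refine rok_w (v := ⟨-11, 0, -21, 32⟩) (q := 1) (by decide) (by decide) (by decide) TN_sc (k := 1) (by decide) (Q := [(0, 4000, -39), (-3891, -928, 188), (-1414, -1414, 79), (1912, -587, -81)])
    (P := [⟨-1198080, 0, 4000⟩, ⟨5775360, -3891, -928⟩, ⟨2426880, -1414, -1414⟩, ⟨-2488320, 1912, -587⟩]) rfl rfl
    (List.mem_of_getElem? (i := 9) rfl) TN_fr TN_cov ?_
  · intro X Y h
    simp only [List.forall_mem_cons, List.not_mem_nil, false_imp_iff, implies_true, and_true] at h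
    push_cast at h ⊢
    obtain ⟨h0, h1, h2, h3⟩ := h
    refine ⟨⟨?_, ?_⟩, ?_, ?_⟩ <;> linarith

theorem TN_rg10 : ROK [.q ⟨-11, 0, -21, 32⟩ ⟨3794, -3087, -6051, 5344⟩, .q ⟨-11, 0, -21, 32⟩ ⟨-1793, 3993, 3528, -5728⟩, .q ⟨-11, 0, -21, 32⟩ ⟨-561, -1414, 343, 1632⟩] := by
  refine rok_w (v := ⟨-11, 0, -21, 32⟩) (q := 1) (by decide) (by decide) (by decide) TN_sc (k := 1) (by decide) (Q := [(-3087, -2544, 167), (3993, -231, -179), (-1414, 1414, 51)])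
    (P := [⟨5130240, -3087, -2544⟩, ⟨-5498880, 3993, -231⟩, ⟨1566720, -1414, 1414⟩]) rfl rfl
    (List.mem_of_getElem? (i := 10) rfl) TN_fr TN_cov ?_
  · intro X Y h
    simp only [List.forall_mem_cons, List.not_mem_nil, false_imp_iff, implies_true, and_true] at h
    push_cast at h ⊢
    obtain ⟨h0, h1, h2⟩ := h
    refine ⟨⟨?_, ?_⟩, ?_, ?_⟩ <;> linarith

theorem TN_rg11 : ROK [.q ⟨-11, 0, -21, 32⟩ ⟨2905, 1027, -3740, -192⟩, .q ⟨-11, 0, -21, 32⟩ ⟨-1139, 1994, 2089, -2944⟩, .q ⟨-11, 0, -21, 32⟩ ⟨-2957, -1012, 3681, 288⟩, .q ⟨-11, 0, -21, 32⟩ ⟨1538, -1881, -2633, 2976⟩] := by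
  refine rok_w (v := ⟨-11, 0, -21, 32⟩) (q := 1) (by decide) (by decide) (by decide) TN_sc (k := 1) (by decide) (Q := [(1027, -3866, -6), (1994, 157, -92), (-1012, 3870, 9), (-1881, -680, 93)])
    (P := [⟨-184320, 1027, -3866⟩, ⟨-2826240, 1994, 157⟩, ⟨276480, -1012, 3870⟩, ⟨2856960, -1881, -680⟩]) rfl rfl
    (List.mem_of_getElem? (i := 11) rfl) TN_fr TN_cov ?_
  · intro X Y h
    simp only [List.forall_mem_cons, List.not_mem_nil, false_imp_iff, implies_true, and_true] at h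
    push_cast at h ⊢
    obtain ⟨h0, h1, h2, h3⟩ := h
    refine ⟨⟨?_, ?_⟩, ?_, ?_⟩ <;> linarith

theorem TN_rg12 : ROK [.q ⟨-11, 0, -21, 32⟩ ⟨-1133, -2828, 665, 3296⟩, .q ⟨-11, 0, -21, 32⟩ ⟨1987, -4000, -3843, 5856⟩, .q ⟨-11, 0, -21, 32⟩ ⟨1077, 25, -1774, 672⟩, .q ⟨-11, 0, -21, 32⟩ ⟨-1961, 4000, 3753, -5792⟩] := by
  refine rok_w (v := ⟨-11, 0, -21, 32⟩) (q := 1) (by decide) (by decide) (by decide) TN_sc (k := 1) (by decide) (Q := [(-2828, 2828, 103), (-4000, 0, 183), (25, -1333, 21), (4000, -48, -181)])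
    (P := [⟨3164160, -2828, 2828⟩, ⟨5621760, -4000, 0⟩, ⟨645120, 25, -1333⟩, ⟨-5560320, 4000, -48⟩]) rfl rfl
    (List.mem_of_getElem? (i := 12) rfl) TN_fr TN_cov ?_
  · intro X Y h
    simp only [List.forall_mem_cons, List.not_mem_nil, false_imp_iff, implies_true, and_true] at h
    push_cast at h ⊢
    obtain ⟨h0, h1, h2, h3⟩ := h
    refine ⟨⟨?_, ?_⟩, ?_, ?_⟩ <;> linarith

theorem TN_rg13 : ROK [.q ⟨-11, 0, -21, 32⟩ ⟨2894, 1079, -3621, -352⟩, .q ⟨-11, 0, -21, 32⟩ ⟨-3385, 3578, 5567, -5760⟩, .q ⟨-11, 0, -21, 32⟩ ⟨-1791, 0, 2399, -608⟩, .q ⟨-11, 0, -21, 32⟩ ⟨2212, -3991, -4173, 5952⟩] := by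
  refine rok_w (v := ⟨-11, 0, -21, 32⟩) (q := 1) (by decide) (by decide) (by decide) TN_sc (k := 1) (by decide) (Q := [(1079, -3852, -11), (3578, 1787, -180), (0, 2000, -19), (-3991, -267, 186)])
    (P := [⟨-337920, 1079, -3852⟩, ⟨-5529600, 3578, 1787⟩, ⟨-583680, 0, 2000⟩, ⟨5713920, -3991, -267⟩]) rfl rfl
    (List.mem_of_getElem? (i := 13) rfl) TN_fr TN_cov ?_
  · intro X Y h
    simp only [List.forall_mem_cons, List.not_mem_nil, false_imp_iff, implies_true, and_true] at h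
    push_cast at h ⊢
    obtain ⟨h0, h1, h2, h3⟩ := h
    refine ⟨⟨?_, ?_⟩, ?_, ?_⟩ <;> linarith

theorem TN_rg14 : ROK [.q ⟨-11, 0, -21, 32⟩ ⟨-1955, 4000, 3747, -5792⟩, .q ⟨-11, 0, -21, 32⟩ ⟨-1327, -2684, 971, 3040⟩, .q ⟨-11, 0, -21, 32⟩ ⟨3929, -2828, -6125, 5024⟩] := by
  refine rok_w (v := ⟨-11, 0, -21, 32⟩) (q := 1) (by decide) (by decide) (by decide) TN_sc (k := 1) (by decide) (Q := [(4000, -54, -181), (-2684, 2966, 95), (-2828, -2828, 157)])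
    (P := [⟨-5560320, 4000, -54⟩, ⟨2918400, -2684, 2966⟩, ⟨4823040, -2828, -2828⟩]) rfl rfl
    (List.mem_of_getElem? (i := 14) rfl) TN_fr TN_cov ?_
  · intro X Y h
    simp only [List.forall_mem_cons, List.not_mem_nil, false_imp_iff, implies_true, and_true] at h
    push_cast at h ⊢
    obtain ⟨h0, h1, h2⟩ := h
    refine ⟨⟨?_, ?_⟩, ?_, ?_⟩ <;> linarith

theorem TN_rg15 : ROK [.q ⟨-11, 0, -21, 32⟩ ⟨-1022, 2000, 1934, -2912⟩, .q ⟨-11, 0, -21, 32⟩ ⟨-1210, 31, 1627, -448⟩, .q ⟨-11, 0, -21, 32⟩ ⟨1987, -4000, -3843, 5856⟩, .q ⟨-11, 0, -21, 32⟩ ⟨3804, -1563, -6433, 4192⟩] := by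
  refine rok_w (v := ⟨-11, 0, -21, 32⟩) (q := 1) (by decide) (by decide) (by decide) TN_sc (k := 1) (by decide) (Q := [(2000, 23, -91), (31, 1333, -14), (-4000, 0, 183), (-1563, -3682, 131)])
    (P := [⟨-2795520, 2000, 23⟩, ⟨-430080, 31, 1333⟩, ⟨5621760, -4000, 0⟩, ⟨4024320, -1563, -3682⟩]) rfl rfl
    (List.mem_of_getElem? (i := 15) rfl) TN_fr TN_cov ?_
  · intro X Y h
    simp only [List.forall_mem_cons, List.not_mem_nil, false_imp_iff, implies_true, and_true] at h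
    push_cast at h ⊢
    obtain ⟨h0, h1, h2, h3⟩ := h
    refine ⟨⟨?_, ?_⟩, ?_, ?_⟩ <;> linarith

theorem TN_rg16 : ROK [.q ⟨-11, 0, -21, 32⟩ ⟨792, -1988, -1652, 2848⟩, .q ⟨-11, 0, -21, 32⟩ ⟨3929, -2565, -6324, 4960⟩, .q ⟨-11, 0, -21, 32⟩ ⟨-999, 2000, 1911, -2912⟩, .q ⟨-11, 0, -21, 32⟩ ⟨-3532, 72, 5028, -1568⟩] := by
  refine rok_w (v := ⟨-11, 0, -21, 32⟩) (q := 1) (by decide) (by decide) (by decide) TN_sc (k := 1) (by decide) (Q := [(-1988, 217, 89), (-2565, -3069, 155), (2000, 0, -91), (72, 3999, -49)])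
    (P := [⟨2734080, -1988, 217⟩, ⟨4761600, -2565, -3069⟩, ⟨-2795520, 2000, 0⟩, ⟨-1505280, 72, 3999⟩]) rfl rfl
    (List.mem_of_getElem? (i := 16) rfl) TN_fr TN_cov ?_
  · intro X Y h
    simp only [List.forall_mem_cons, List.not_mem_nil, false_imp_iff, implies_true, and_true] at h
    push_cast at h ⊢
    obtain ⟨h0, h1, h2, h3⟩ := h
    refine ⟨⟨?_, ?_⟩, ?_, ?_⟩ <;> linarith

theorem TN_rg17 : ROK [.q ⟨-11, 0, -21, 32⟩ ⟨3940, -2775, -6157, 4992⟩, .q ⟨-11, 0, -21, 32⟩ ⟨-2055, 4000, 3879, -5824⟩, .q ⟨-11, 0, -21, 32⟩ ⟨-329, -1570, -21, 1920⟩] := by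
  refine rok_w (v := ⟨-11, 0, -21, 32⟩) (q := 1) (by decide) (by decide) (by decide) TN_sc (k := 1) (by decide) (Q := [(-2775, -2881, 156), (4000, 57, -182), (-1570, 1239, 60)])
    (P := [⟨4792320, -2775, -2881⟩, ⟨-5591040, 4000, 57⟩, ⟨1843200, -1570, 1239⟩]) rfl rfl
    (List.mem_of_getElem? (i := 17) rfl) TN_fr TN_cov ?_
  · intro X Y h
    simp only [List.forall_mem_cons, List.not_mem_nil, false_imp_iff, implies_true, and_true] at h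
    push_cast at h ⊢
    obtain ⟨h0, h1, h2⟩ := h
    refine ⟨⟨?_, ?_⟩, ?_, ?_⟩ <;> linarith

theorem TN_rg18 : ROK [.q ⟨-11, 0, -21, 32⟩ ⟨-1791, 0, 2399, -608⟩, .q ⟨-11, 0, -21, 32⟩ ⟨1533, -3971, -3258, 5696⟩, .q ⟨-11, 0, -21, 32⟩ ⟨1959, -1414, -3073, 2528⟩, .q ⟨-11, 0, -21, 32⟩ ⟨-1340, 3939, 2937, -5536⟩] := by
  refine rok_w (v := ⟨-11, 0, -21, 32⟩) (q := 1) (by decide) (by decide) (by decide) TN_sc (k := 1) (by decide) (Q := [(0, 2000, -19), (-3971, 480, 178), (-1414, -1414, 79), (3939, -696, -173)])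
    (P := [⟨-583680, 0, 2000⟩, ⟨5468160, -3971, 480⟩, ⟨2426880, -1414, -1414⟩, ⟨-5314560, 3939, -696⟩]) rfl rfl
    (List.mem_of_getElem? (i := 18) rfl) TN_fr TN_cov ?_
  · intro X Y h
    simp only [List.forall_mem_cons, List.not_mem_nil, false_imp_iff, implies_true, and_true] at h
    push_cast at h ⊢
    obtain ⟨h0, h1, h2, h3⟩ := h
    refine ⟨⟨?_, ?_⟩, ?_, ?_⟩ <;> linarith

theorem TN_rg19 : ROK [.q ⟨-11, 0, -21, 32⟩ ⟨-1912, -2179, 1947, 2144⟩, .q ⟨-11, 0, -21, 32⟩ ⟨1959, -1414, -3073, 2528⟩, .q ⟨-11, 0, -21, 32⟩ ⟨-1819, 3995, 3552, -5728⟩, .q ⟨-11, 0, -21, 32⟩ ⟨-3548, 3435, 5745, -5632⟩] := by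
  refine rok_w (v := ⟨-11, 0, -21, 32⟩) (q := 1) (by decide) (by decide) (by decide) TN_sc (k := 1) (by decide) (Q := [(-2179, 3354, 67), (-1414, -1414, 79), (3995, -207, -179), (3435, 2049, -176)])
    (P := [⟨2058240, -2179, 3354⟩, ⟨2426880, -1414, -1414⟩, ⟨-5498880, 3995, -207⟩, ⟨-5406720, 3435, 2049⟩]) rfl rfl
    (List.mem_of_getElem? (i := 19) rfl) TN_fr TN_cov ?_
  · intro X Y h
    simp only [List.forall_mem_cons, List.not_mem_nil, false_imp_iff, implies_true, and_true] at h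
    push_cast at h ⊢
    obtain ⟨h0, h1, h2, h3⟩ := h
    refine ⟨⟨?_, ?_⟩, ?_, ?_⟩ <;> linarith

theorem TN_rg20 : ROK [.q ⟨-11, 0, -21, 32⟩ ⟨-1393, 3947, 2982, -5536⟩, .q ⟨-11, 0, -21, 32⟩ ⟨-3983, 2765, 6082, -4864⟩, .q ⟨-11, 0, -21, 32⟩ ⟨1039, -3876, -2539, 5376⟩, .q ⟨-11, 0, -21, 32⟩ ⟨3714, -3214, -5972, 5472⟩] := by
  refine rok_w (v := ⟨-11, 0, -21, 32⟩) (q := 1) (by decide) (by decide) (by decide) TN_sc (k := 1) (by decide) (Q := [(3947, -651, -173), (2765, 2890, -152), (-3876, 989, 168), (-3214, -2381, 171)])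
    (P := [⟨-5314560, 3947, -651⟩, ⟨-4669440, 2765, 2890⟩, ⟨5160960, -3876, 989⟩, ⟨5253120, -3214, -2381⟩]) rfl rfl
    (List.mem_of_getElem? (i := 20) rfl) TN_fr TN_cov ?_
  · intro X Y h
    simp only [List.forall_mem_cons, List.not_mem_nil, false_imp_iff, implies_true, and_true] at h
    push_cast at h ⊢
    obtain ⟨h0, h1, h2, h3⟩ := h
    refine ⟨⟨?_, ?_⟩, ?_, ?_⟩ <;> linarith

theorem TN_rg21 : ROK [.q ⟨-11, 0, -21, 32⟩ ⟨1987, -4000, -3843, 5856⟩, .q ⟨-11, 0, -21, 32⟩ ⟨3680, -2970, -6438, 5728⟩, .q ⟨-11, 0, -21, 32⟩ ⟨-1817, 3995, 3550, -5728⟩, .q ⟨-11, 0, -21, 32⟩ ⟨-4037, 2493, 6152, -4608⟩] := by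
  refine rok_w (v := ⟨-11, 0, -21, 32⟩) (q := 1) (by decide) (by decide) (by decide) TN_sc (k := 1) (by decide) (Q := [(-4000, 0, 183), (-2970, -2679, 179), (3995, -209, -179), (2493, 3128, -144)])
    (P := [⟨5621760, -4000, 0⟩, ⟨5498880, -2970, -2679⟩, ⟨-5498880, 3995, -209⟩, ⟨-4423680, 2493, 3128⟩]) rfl rfl
    (List.mem_of_getElem? (i := 21) rfl) TN_fr TN_cov ?_
  · intro X Y h
    simp only [List.forall_mem_cons, List.not_mem_nil, false_imp_iff, implies_true, and_true] at h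
    push_cast at h ⊢
    obtain ⟨h0, h1, h2, h3⟩ := h
    refine ⟨⟨?_, ?_⟩, ?_, ?_⟩ <;> linarith

theorem TN_rg22 : ROK [.q ⟨-11, 0, -21, 32⟩ ⟨2352, -3977, -4359, 5984⟩, .q ⟨-11, 0, -21, 32⟩ ⟨3981, -1684, -6169, 3872⟩, .q ⟨-11, 0, -21, 32⟩ ⟨-2068, 3999, 3893, -5824⟩, .q ⟨-11, 0, -21, 32⟩ ⟨-3653, 291, 5186, -1824⟩] := by
  refine rok_w (v := ⟨-11, 0, -21, 32⟩) (q := 1) (by decide) (by decide) (by decide) TN_sc (k := 1) (by decide) (Q := [(-3977, -432, 187), (-1684, -3628, 121), (3999, 71, -182), (291, 3989, -57)])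
    (P := [⟨5744640, -3977, -432⟩, ⟨3717120, -1684, -3628⟩, ⟨-5591040, 3999, 71⟩, ⟨-1751040, 291, 3989⟩]) rfl rfl
    (List.mem_of_getElem? (i := 22) rfl) TN_fr TN_cov ?_
  · intro X Y h
    simp only [List.forall_mem_cons, List.not_mem_nil, false_imp_iff, implies_true, and_true] at h
    push_cast at h ⊢
    obtain ⟨h0, h1, h2, h3⟩ := h
    refine ⟨⟨?_, ?_⟩, ?_, ?_⟩ <;> linarith

theorem TN_rg23 : ROK [.q ⟨-11, 0, -21, 32⟩ ⟨3665, -3281, -5920, 5536⟩, .q ⟨-11, 0, -21, 32⟩ ⟨-1944, 3999, 3737, -5792⟩, .q ⟨-11, 0, -21, 32⟩ ⟨-229, -3386, -705, 4320⟩] := by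
  refine rok_w (v := ⟨-11, 0, -21, 32⟩) (q := 1) (by decide) (by decide) (by decide) TN_sc (k := 1) (by decide) (Q := [(-3281, -2287, 173), (3999, -64, -181), (-3386, 2130, 135)])
    (P := [⟨5314560, -3281, -2287⟩, ⟨-5560320, 3999, -64⟩, ⟨4147200, -3386, 2130⟩]) rfl rfl
    (List.mem_of_getElem? (i := 23) rfl) TN_fr TN_cov ?_
  · intro X Y h
    simp only [List.forall_mem_cons, List.not_mem_nil, false_imp_iff, implies_true, and_true] at h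
    push_cast at h ⊢
    obtain ⟨h0, h1, h2⟩ := h
    refine ⟨⟨?_, ?_⟩, ?_, ?_⟩ <;> linarith

end Pool.Agent.TET
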