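import Pool.Agent.Helper38_TET.CovN

/-!
# MP_c7c9bf_co: certificates, family TO
-/

set_option autoImplicit false
set_option maxRecDepth 100000

namespace Pool.Agent.TET

/-- the polygons -/
def TO_L : List (List Z3) :=
  [[⟨17571840, 0, 5437⟩, ⟨-29337600, -7369, -362⟩, ⟨-13056000, 0, -4142⟩, ⟨7096320, 2092, -322⟩, ⟨-26357760, -7055, 193⟩],
   [⟨-24944640, -6362, -191⟩, ⟨-13056000, 0, -4142⟩, ⟨26818560, 7066, -192⟩, ⟨17571840, 0, 5437⟩],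
   [⟨40335360, 3845, 7931⟩, ⟨-22364160, -7181, 1588⟩, ⟨-23715840, 111, -7560⟩, ⟨42332160, 5013, 7134⟩],
   [⟨-13056000, 0, -4142⟩, ⟨30566400, 6999, 1075⟩, ⟨8386560, -4206, 7634⟩, ⟨-25989120, -6030, -920⟩]]

/-- the polygons in natural numbers -/
def TO_LN : List (List N6) :=
  [[⟨0, 0, 5437, 0, 0, 695066624⟩, ⟨0, 7369, 0, 362, 983980032, 0⟩, ⟨0, 0, 0, 4142, 529844224, 0⟩, ⟨2092, 0, 0, 322, 0, 224901120⟩, ⟨0, 7055, 193, 0, 873058304, 0⟩],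
   [⟨0, 6362, 0, 191, 833970176, 0⟩, ⟨0, 0, 0, 4142, 529844224, 0⟩, ⟨7066, 0, 0, 192, 0, 874170368⟩, ⟨0, 0, 5437, 0, 0, 695066624⟩],
   [⟨3845, 0, 7931, 0, 0, 1503168512⟩, ⟨0, 7181, 1588, 0, 710721536, 0⟩, ⟨111, 0, 0, 7560, 952639488, 0⟩, ⟨5013, 0, 7134, 0, 0, 1549799424⟩],
   [⟨0, 0, 0, 4142, 529844224, 0⟩, ⟨6999, 0, 1075, 0, 0, 1027708928⟩, ⟨0, 4206, 7634, 0, 0, 440928256⟩, ⟨0, 6030, 0, 920, 884961280, 0⟩]]

theorem TO_LL : toL TO_LN = TO_L := eqLL_eq (by decide +kernel)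

end Pool.Agent.TET
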