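import Pool.Agent.Helper38_TET.TO_M
import Pool.Agent.Helper38_TET.TO_L
import Pool.Agent.Helper38_TET.TO_0
import Pool.Agent.Helper38_TET.TO_1
import Pool.Agent.Helper38_TET.TO_2
import Pool.Agent.Helper38_TET.TO_3
import Pool.Agent.Helper38_TET.TO_4
import Pool.Agent.Helper38_TET.TO_5
import Pool.Agent.Helper38_TET.TO_10
import Pool.Agent.Helper38_TET.TO_11
import Pool.Agent.Helper38_TET.TO_12
import Pool.Agent.Helper38_TET.TO_15
import Pool.Agent.Helper38_TET.TO_16
import Pool.Agent.Helper38_TET.TO_18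
import Pool.Agent.Helper38_TET.TO_19
import Pool.Agent.Helper38_TET.TO_20
import Pool.Agent.Helper38_TET.TO_23

/-!
# MP_c7c9bf_co: certificates, family TO
-/

set_option autoImplicit false
set_option maxRecDepth 100000

namespace Pool.Agent.TET

theorem TO_s0_0 : SqZ TO_M TO_L [0, 7, 4, 3] (-3920) (-3232) 16 0 0 :=
  SqZ.mk (a := (-3920)) (b := (-3904)) (c := (-3232)) (d := (-3216)) (by norm_num) (by norm_num) (by norm_num) (by norm_num)
    (CovZ.topM TO_LL 0 (by decide +kernel) (CovZ.badM (by decide +kernel)))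
    (CovZ.topM TO_LL 0 (by decide +kernel) (CovZ.badM (by decide +kernel)))

theorem TO_s1_0 : SqZ TO_M TO_L [0, 7, 4, 3] (-3920) (-3232) 16 1 0 :=
  SqZ.mk (a := (-3904)) (b := (-3888)) (c := (-3232)) (d := (-3216)) (by norm_num) (by norm_num) (by norm_num) (by norm_num)
    (CovZ.topM TO_LL 1 (by decide +kernel) (CovZ.n2 (-3896, -3224) (by decide +kernel)
    (CovZ.n2 (-3888, -3224) (by decide +kernel)
     (CovZ.n2 (-3892, -3228) (by decide +kernel)
      (CovZ.n2 (-3892, -3224) (by decide +kernel)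
       (CovZ.n2 (-3890, -3226) (by decide +kernel)
        (CovZ.badM (by decide +kernel))
        (CovZ.n1 (-3890, -3224) (by decide +kernel)
         (CovZ.n2 (-3889, -3225) (by decide +kernel)
          (CovZ.badM (by decide +kernel))
          (CovZ.leaf K3_ok TO_l5 _))
         (CovZ.badM (by decide +kernel))))
       (CovZ.badM (by decide +kernel)))
      (CovZ.n1 (-3888, -3228) (by decide +kernel)
       (CovZ.n2 (-3890, -3230) (by decide +kernel)
        (CovZ.n2 (-3890, -3228) (by decide +kernel)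
         (CovZ.n2 (-3889, -3229) (by decide +kernel)
          (CovZ.leaf K3_ok TO_l18 _)
          (CovZ.leaf K3_ok TO_l19 _))
         (CovZ.badM (by decide +kernel)))
        (CovZ.n1 (-3888, -3230) (by decide +kernel)
         (CovZ.n2 (-3889, -3231) (by decide +kernel)
          (CovZ.leaf K3_ok TO_l22 _)
          (CovZ.leaf K3_ok TO_l23 _))
         (CovZ.n1 (-3889, -3229) (by decide +kernel)
          (CovZ.leaf K3_ok TO_l24 _)
          (CovZ.n1 (-3889, -3230) (by decide +kernel)
           (CovZ.leaf K3_ok TO_l25 _)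
           (CovZ.leaf K3_ok TO_l26 _)))))
       (CovZ.n1 (-3890, -3226) (by decide +kernel)
        (CovZ.n2 (-3888, -3226) (by decide +kernel)
         (CovZ.n2 (-3889, -3227) (by decide +kernel)
          (CovZ.leaf K3_ok TO_l27 _)
          (CovZ.n1 (-3888, -3227) (by decide +kernel)
           (CovZ.leaf K3_ok TO_l28 _)
           (CovZ.leaf K3_ok TO_l29 _)))
         (CovZ.n1 (-3889, -3225) (by decide +kernel)
          (CovZ.leaf K3_ok TO_l30 _)
          (CovZ.n1 (-3889, -3226) (by decide +kernel)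
           (CovZ.badM (by decide +kernel))
           (CovZ.leaf K3_ok TO_l32 _))))
        (CovZ.n1 (-3890, -3228) (by decide +kernel)
         (CovZ.badM (by decide +kernel))
         (CovZ.n1 (-3889, -3227) (by decide +kernel)
          (CovZ.leaf K3_ok TO_l35 _)
          (CovZ.badM (by decide +kernel)))))))
     (CovZ.n1 (-3892, -3220) (by decide +kernel)
      (CovZ.n2 (-3888, -3220) (by decide +kernel)
       (CovZ.n2 (-3890, -3222) (by decide +kernel)
        (CovZ.badM (by decide +kernel))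
        (CovZ.n1 (-3888, -3222) (by decide +kernel)
         (CovZ.n2 (-3889, -3223) (by decide +kernel)
          (CovZ.leaf K3_ok TO_l43 _)
          (CovZ.n1 (-3888, -3223) (by decide +kernel)
           (CovZ.leaf K3_ok TO_l44 _)
           (CovZ.leaf K3_ok TO_l45 _)))
         (CovZ.n1 (-3889, -3221) (by decide +kernel)
          (CovZ.n2 (-3888, -3221) (by decide +kernel)
           (CovZ.leaf K3_ok TO_l46 _)
           (CovZ.badM (by decide +kernel)))
          (CovZ.n1 (-3889, -3222) (by decide +kernel)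
           (CovZ.badM (by decide +kernel))
           (CovZ.leaf K3_ok TO_l48 _)))))
       (CovZ.badM (by decide +kernel)))
      (CovZ.n1 (-3892, -3224) (by decide +kernel)
       (CovZ.badM (by decide +kernel))
       (CovZ.n1 (-3890, -3222) (by decide +kernel)
        (CovZ.n2 (-3890, -3224) (by decide +kernel)
         (CovZ.badM (by decide +kernel))
         (CovZ.n1 (-3889, -3223) (by decide +kernel)
          (CovZ.leaf K3_ok TO_l74 _)
          (CovZ.badM (by decide +kernel))))
        (CovZ.badM (by decide +kernel))))))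
    (CovZ.n1 (-3896, -3232) (by decide +kernel)
     (CovZ.badM (by decide +kernel))
     (CovZ.n1 (-3892, -3228) (by decide +kernel)
      (CovZ.n2 (-3892, -3232) (by decide +kernel)
       (CovZ.badM (by decide +kernel))
       (CovZ.n1 (-3890, -3230) (by decide +kernel)
        (CovZ.n2 (-3890, -3232) (by decide +kernel)
         (CovZ.badM (by decide +kernel))
         (CovZ.n1 (-3889, -3231) (by decide +kernel)
          (CovZ.leaf K3_ok TO_l99 _)
          (CovZ.leaf K3_ok TO_l100 _)))
        (CovZ.badM (by decide +kernel))))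
      (CovZ.badM (by decide +kernel))))))
    (CovZ.topM TO_LL 0 (by decide +kernel) (CovZ.badM (by decide +kernel)))

theorem TO_s2_0 : SqZ TO_M TO_L [0, 7, 4, 3] (-3920) (-3232) 16 2 0 :=
  SqZ.mk (a := (-3888)) (b := (-3872)) (c := (-3232)) (d := (-3216)) (by norm_num) (by norm_num) (by norm_num) (by norm_num)
    (CovZ.topM TO_LL 11 (by decide +kernel) (CovZ.n2 (-3880, -3224) (by decide +kernel)
    (CovZ.n2 (-3872, -3224) (by decide +kernel)
     (CovZ.n2 (-3876, -3228) (by decide +kernel)
      (CovZ.n2 (-3876, -3224) (by decide +kernel)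
       (CovZ.n2 (-3874, -3226) (by decide +kernel)
        (CovZ.n2 (-3876, -3226) (by decide +kernel)
         (CovZ.leaf K3_ok TO_l408 _)
         (CovZ.leaf K3_ok TO_l409 _))
        (CovZ.n1 (-3874, -3224) (by decide +kernel)
         (CovZ.leaf K3_ok TO_l410 _)
         (CovZ.leaf K3_ok TO_l411 _)))
       (CovZ.n1 (-3878, -3226) (by decide +kernel)
        (CovZ.n2 (-3878, -3224) (by decide +kernel)
         (CovZ.leaf K3_ok TO_l412 _)
         (CovZ.leaf K3_ok TO_l413 _))
        (CovZ.n1 (-3876, -3226) (by decide +kernel)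
         (CovZ.leaf K3_ok TO_l414 _)
         (CovZ.leaf K3_ok TO_l415 _))))
      (CovZ.n1 (-3872, -3228) (by decide +kernel)
       (CovZ.n2 (-3874, -3230) (by decide +kernel)
        (CovZ.n2 (-3874, -3228) (by decide +kernel)
         (CovZ.leaf K3_ok TO_l416 _)
         (CovZ.leaf K3_ok TO_l417 _))
        (CovZ.n1 (-3872, -3230) (by decide +kernel)
         (CovZ.leaf K3_ok TO_l418 _)
         (CovZ.leaf K3_ok TO_l419 _)))
       (CovZ.n1 (-3874, -3226) (by decide +kernel)
        (CovZ.n2 (-3872, -3226) (by decide +kernel)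
         (CovZ.leaf K3_ok TO_l420 _)
         (CovZ.leaf K3_ok TO_l421 _))
        (CovZ.n1 (-3874, -3228) (by decide +kernel)
         (CovZ.leaf K3_ok TO_l422 _)
         (CovZ.leaf K3_ok TO_l423 _)))))
     (CovZ.n1 (-3876, -3220) (by decide +kernel)
      (CovZ.n2 (-3872, -3220) (by decide +kernel)
       (CovZ.n2 (-3874, -3222) (by decide +kernel)
        (CovZ.n2 (-3874, -3220) (by decide +kernel)
         (CovZ.leaf K3_ok TO_l424 _)
         (CovZ.n1 (-3875, -3221) (by decide +kernel)
          (CovZ.leaf K3_ok TO_l425 _)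
          (CovZ.leaf K3_ok TO_l426 _)))
        (CovZ.n1 (-3872, -3222) (by decide +kernel)
         (CovZ.leaf K3_ok TO_l427 _)
         (CovZ.leaf K3_ok TO_l428 _)))
       (CovZ.n1 (-3874, -3218) (by decide +kernel)
        (CovZ.n2 (-3872, -3218) (by decide +kernel)
         (CovZ.leaf K3_ok TO_l429 _)
         (CovZ.leaf K3_ok TO_l430 _))
        (CovZ.n1 (-3874, -3220) (by decide +kernel)
         (CovZ.leaf K3_ok TO_l431 _)
         (CovZ.leaf K3_ok TO_l432 _))))
      (CovZ.n1 (-3876, -3224) (by decide +kernel)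
       (CovZ.n2 (-3878, -3222) (by decide +kernel)
        (CovZ.n2 (-3876, -3222) (by decide +kernel)
         (CovZ.n2 (-3877, -3223) (by decide +kernel)
          (CovZ.leaf K3_ok TO_l433 _)
          (CovZ.leaf K3_ok TO_l434 _))
         (CovZ.leaf K3_ok TO_l435 _))
        (CovZ.n1 (-3878, -3224) (by decide +kernel)
         (CovZ.n2 (-3879, -3223) (by decide +kernel)
          (CovZ.leaf K3_ok TO_l436 _)
          (CovZ.leaf K3_ok TO_l437 _))
         (CovZ.n1 (-3877, -3223) (by decide +kernel)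
          (CovZ.leaf K3_ok TO_l438 _)
          (CovZ.leaf K3_ok TO_l439 _))))
       (CovZ.n1 (-3874, -3222) (by decide +kernel)
        (CovZ.n2 (-3874, -3224) (by decide +kernel)
         (CovZ.leaf K3_ok TO_l440 _)
         (CovZ.leaf K3_ok TO_l441 _))
        (CovZ.n1 (-3876, -3222) (by decide +kernel)
         (CovZ.n2 (-3875, -3221) (by decide +kernel)
          (CovZ.leaf K3_ok TO_l442 _)
          (CovZ.leaf K3_ok TO_l443 _))
         (CovZ.leaf K3_ok TO_l444 _))))))
    (CovZ.n1 (-3880, -3232) (by decide +kernel)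
     (CovZ.n2 (-3884, -3228) (by decide +kernel)
      (CovZ.n2 (-3880, -3228) (by decide +kernel)
       (CovZ.n2 (-3882, -3230) (by decide +kernel)
        (CovZ.n2 (-3882, -3228) (by decide +kernel)
         (CovZ.leaf K3_ok TO_l445 _)
         (CovZ.leaf K3_ok TO_l446 _))
        (CovZ.n1 (-3880, -3230) (by decide +kernel)
         (CovZ.leaf K3_ok TO_l447 _)
         (CovZ.leaf K3_ok TO_l448 _)))
       (CovZ.n1 (-3882, -3226) (by decide +kernel)
        (CovZ.n2 (-3880, -3226) (by decide +kernel)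
         (CovZ.n2 (-3881, -3227) (by decide +kernel)
          (CovZ.leaf K3_ok TO_l449 _)
          (CovZ.leaf K3_ok TO_l450 _))
         (CovZ.leaf K3_ok TO_l451 _))
        (CovZ.n1 (-3882, -3228) (by decide +kernel)
         (CovZ.n2 (-3883, -3227) (by decide +kernel)
          (CovZ.leaf K3_ok TO_l452 _)
          (CovZ.n1 (-3883, -3228) (by decide +kernel)
           (CovZ.leaf K3_ok TO_l453 _)
           (CovZ.leaf K3_ok TO_l454 _)))
         (CovZ.leaf K3_ok TO_l455 _))))
      (CovZ.n1 (-3884, -3232) (by decide +kernel)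
       (CovZ.n2 (-3886, -3230) (by decide +kernel)
        (CovZ.n2 (-3884, -3230) (by decide +kernel)
         (CovZ.n2 (-3885, -3231) (by decide +kernel)
          (CovZ.leaf K3_ok TO_l456 _)
          (CovZ.leaf K3_ok TO_l457 _))
         (CovZ.leaf K3_ok TO_l458 _))
        (CovZ.n1 (-3886, -3232) (by decide +kernel)
         (CovZ.leaf K3_ok TO_l459 _)
         (CovZ.n1 (-3885, -3231) (by decide +kernel)
          (CovZ.leaf K3_ok TO_l460 _)
          (CovZ.leaf K3_ok TO_l461 _))))
       (CovZ.n1 (-3882, -3230) (by decide +kernel)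
        (CovZ.n2 (-3882, -3232) (by decide +kernel)
         (CovZ.leaf K3_ok TO_l462 _)
         (CovZ.n1 (-3881, -3231) (by decide +kernel)
          (CovZ.leaf K3_ok TO_l463 _)
          (CovZ.leaf K3_ok TO_l464 _)))
        (CovZ.n1 (-3884, -3230) (by decide +kernel)
         (CovZ.n2 (-3883, -3229) (by decide +kernel)
          (CovZ.leaf K3_ok TO_l465 _)
          (CovZ.leaf K3_ok TO_l466 _))
         (CovZ.leaf K3_ok TO_l467 _)))))
     (CovZ.n1 (-3876, -3228) (by decide +kernel)
      (CovZ.n2 (-3876, -3232) (by decide +kernel)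
       (CovZ.n2 (-3878, -3230) (by decide +kernel)
        (CovZ.n2 (-3876, -3230) (by decide +kernel)
         (CovZ.leaf K3_ok TO_l468 _)
         (CovZ.leaf K3_ok TO_l469 _))
        (CovZ.n1 (-3878, -3232) (by decide +kernel)
         (CovZ.leaf K3_ok TO_l470 _)
         (CovZ.leaf K3_ok TO_l471 _)))
       (CovZ.n1 (-3874, -3230) (by decide +kernel)
        (CovZ.n2 (-3874, -3232) (by decide +kernel)
         (CovZ.leaf K3_ok TO_l472 _)
         (CovZ.leaf K3_ok TO_l473 _))
        (CovZ.n1 (-3876, -3230) (by decide +kernel)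
         (CovZ.leaf K3_ok TO_l474 _)
         (CovZ.leaf K3_ok TO_l475 _))))
      (CovZ.n1 (-3880, -3228) (by decide +kernel)
       (CovZ.n2 (-3878, -3226) (by decide +kernel)
        (CovZ.n2 (-3878, -3228) (by decide +kernel)
         (CovZ.n2 (-3879, -3227) (by decide +kernel)
          (CovZ.leaf K3_ok TO_l476 _)
          (CovZ.leaf K3_ok TO_l477 _))
         (CovZ.n1 (-3877, -3227) (by decide +kernel)
          (CovZ.leaf K3_ok TO_l478 _)
          (CovZ.leaf K3_ok TO_l479 _)))
        (CovZ.n1 (-3880, -3226) (by decide +kernel)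
         (CovZ.n2 (-3879, -3225) (by decide +kernel)
          (CovZ.leaf K3_ok TO_l480 _)
          (CovZ.leaf K3_ok TO_l481 _))
         (CovZ.leaf K3_ok TO_l482 _)))
       (CovZ.n1 (-3878, -3230) (by decide +kernel)
        (CovZ.n2 (-3880, -3230) (by decide +kernel)
         (CovZ.leaf K3_ok TO_l483 _)
         (CovZ.leaf K3_ok TO_l484 _))
        (CovZ.n1 (-3878, -3228) (by decide +kernel)
         (CovZ.leaf K3_ok TO_l485 _)
         (CovZ.leaf K3_ok TO_l486 _))))))))
    (CovZ.topM TO_LL 11 (by decide +kernel) (CovZ.n0 (-3880, -3224) (by decide +kernel)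
    (CovZ.n2 (-3888, -3224) (by decide +kernel)
     (CovZ.n2 (-3884, -3220) (by decide +kernel)
      (CovZ.n2 (-3884, -3224) (by decide +kernel)
       (CovZ.n2 (-3886, -3222) (by decide +kernel)
        (CovZ.n2 (-3884, -3222) (by decide +kernel)
         (CovZ.leaf K3_ok TO_l487 _)
         (CovZ.n1 (-3885, -3221) (by decide +kernel)
          (CovZ.leaf K3_ok TO_l488 _)
          (CovZ.leaf K3_ok TO_l489 _)))
        (CovZ.n1 (-3886, -3224) (by decide +kernel)
         (CovZ.n2 (-3887, -3223) (by decide +kernel)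
          (CovZ.n2 (-3886, -3223) (by decide +kernel)
           (CovZ.leaf K3_ok TO_l490 _)
           (CovZ.leaf K3_ok TO_l491 _))
          (CovZ.n1 (-3887, -3224) (by decide +kernel)
           (CovZ.leaf K3_ok TO_l492 _)
           (CovZ.leaf K3_ok TO_l493 _)))
         (CovZ.n1 (-3885, -3223) (by decide +kernel)
          (CovZ.leaf K3_ok TO_l494 _)
          (CovZ.leaf K3_ok TO_l495 _))))
       (CovZ.n1 (-3882, -3222) (by decide +kernel)
        (CovZ.n2 (-3882, -3224) (by decide +kernel)
         (CovZ.n2 (-3883, -3223) (by decide +kernel)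
          (CovZ.n2 (-3882, -3223) (by decide +kernel)
           (CovZ.leaf K3_ok TO_l496 _)
           (CovZ.leaf K3_ok TO_l497 _))
          (CovZ.leaf K3_ok TO_l498 _))
         (CovZ.n1 (-3881, -3223) (by decide +kernel)
          (CovZ.leaf K3_ok TO_l499 _)
          (CovZ.leaf K3_ok TO_l500 _)))
        (CovZ.n1 (-3884, -3222) (by decide +kernel)
         (CovZ.n2 (-3883, -3221) (by decide +kernel)
          (CovZ.leaf K3_ok TO_l501 _)
          (CovZ.leaf K3_ok TO_l502 _))
         (CovZ.leaf K3_ok TO_l503 _))))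
      (CovZ.n1 (-3888, -3220) (by decide +kernel)
       (CovZ.n2 (-3886, -3218) (by decide +kernel)
        (CovZ.n2 (-3886, -3220) (by decide +kernel)
         (CovZ.n2 (-3887, -3219) (by decide +kernel)
          (CovZ.leaf K3_ok TO_l504 _)
          (CovZ.leaf K3_ok TO_l505 _))
         (CovZ.n1 (-3885, -3219) (by decide +kernel)
          (CovZ.leaf K3_ok TO_l506 _)
          (CovZ.leaf K3_ok TO_l507 _)))
        (CovZ.n1 (-3888, -3218) (by decide +kernel)
         (CovZ.n2 (-3887, -3217) (by decide +kernel)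
          (CovZ.leaf K3_ok TO_l508 _)
          (CovZ.leaf K3_ok TO_l509 _))
         (CovZ.n1 (-3887, -3219) (by decide +kernel)
          (CovZ.leaf K3_ok TO_l510 _)
          (CovZ.leaf K3_ok TO_l511 _))))
       (CovZ.n1 (-3886, -3222) (by decide +kernel)
        (CovZ.n2 (-3888, -3222) (by decide +kernel)
         (CovZ.n2 (-3887, -3221) (by decide +kernel)
          (CovZ.leaf K3_ok TO_l512 _)
          (CovZ.leaf K3_ok TO_l513 _))
         (CovZ.leaf K3_ok TO_l514 _))
        (CovZ.n1 (-3886, -3220) (by decide +kernel)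
         (CovZ.n2 (-3885, -3221) (by decide +kernel)
          (CovZ.leaf K3_ok TO_l515 _)
          (CovZ.leaf K3_ok TO_l516 _))
         (CovZ.n1 (-3887, -3221) (by decide +kernel)
          (CovZ.n2 (-3887, -3220) (by decide +kernel)
           (CovZ.leaf K3_ok TO_l517 _)
           (CovZ.leaf K3_ok TO_l518 _))
          (CovZ.leaf K3_ok TO_l519 _))))))
     (CovZ.n1 (-3884, -3228) (by decide +kernel)
      (CovZ.n2 (-3888, -3228) (by decide +kernel)
       (CovZ.n2 (-3886, -3226) (by decide +kernel)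
        (CovZ.n2 (-3886, -3228) (by decide +kernel)
         (CovZ.n2 (-3887, -3227) (by decide +kernel)
          (CovZ.leaf K3_ok TO_l520 _)
          (CovZ.n1 (-3887, -3228) (by decide +kernel)
           (CovZ.leaf K3_ok TO_l521 _)
           (CovZ.leaf K3_ok TO_l522 _)))
         (CovZ.n1 (-3885, -3227) (by decide +kernel)
          (CovZ.leaf K3_ok TO_l523 _)
          (CovZ.leaf K3_ok TO_l524 _)))
        (CovZ.n1 (-3888, -3226) (by decide +kernel)
         (CovZ.n2 (-3887, -3225) (by decide +kernel)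
          (CovZ.leaf K3_ok TO_l525 _)
          (CovZ.leaf K3_ok TO_l526 _))
         (CovZ.n1 (-3887, -3227) (by decide +kernel)
          (CovZ.leaf K3_ok TO_l527 _)
          (CovZ.leaf K3_ok TO_l528 _))))
       (CovZ.n1 (-3886, -3230) (by decide +kernel)
        (CovZ.n2 (-3888, -3230) (by decide +kernel)
         (CovZ.n2 (-3887, -3229) (by decide +kernel)
          (CovZ.leaf K3_ok TO_l529 _)
          (CovZ.leaf K3_ok TO_l530 _))
         (CovZ.leaf K3_ok TO_l531 _))
        (CovZ.n1 (-3886, -3228) (by decide +kernel)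
         (CovZ.leaf K3_ok TO_l532 _)
         (CovZ.n1 (-3887, -3229) (by decide +kernel)
          (CovZ.leaf K3_ok TO_l533 _)
          (CovZ.leaf K3_ok TO_l534 _)))))
      (CovZ.n1 (-3884, -3224) (by decide +kernel)
       (CovZ.n2 (-3882, -3226) (by decide +kernel)
        (CovZ.n2 (-3884, -3226) (by decide +kernel)
         (CovZ.leaf K3_ok TO_l535 _)
         (CovZ.leaf K3_ok TO_l536 _))
        (CovZ.n1 (-3882, -3224) (by decide +kernel)
         (CovZ.n2 (-3881, -3225) (by decide +kernel)
          (CovZ.leaf K3_ok TO_l537 _)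
          (CovZ.leaf K3_ok TO_l538 _))
         (CovZ.leaf K3_ok TO_l539 _)))
       (CovZ.n1 (-3886, -3226) (by decide +kernel)
        (CovZ.n2 (-3886, -3224) (by decide +kernel)
         (CovZ.leaf K3_ok TO_l540 _)
         (CovZ.n1 (-3887, -3225) (by decide +kernel)
          (CovZ.leaf K3_ok TO_l541 _)
          (CovZ.leaf K3_ok TO_l542 _)))
        (CovZ.n1 (-3884, -3226) (by decide +kernel)
         (CovZ.n2 (-3885, -3227) (by decide +kernel)
          (CovZ.leaf K3_ok TO_l543 _)
          (CovZ.n1 (-3884, -3227) (by decide +kernel)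
           (CovZ.leaf K3_ok TO_l544 _)
           (CovZ.leaf K3_ok TO_l545 _)))
         (CovZ.n1 (-3885, -3225) (by decide +kernel)
          (CovZ.leaf K3_ok TO_l546 _)
          (CovZ.leaf K3_ok TO_l547 _)))))))
    (CovZ.n1 (-3880, -3216) (by decide +kernel)
     (CovZ.n2 (-3876, -3220) (by decide +kernel)
      (CovZ.n2 (-3880, -3220) (by decide +kernel)
       (CovZ.n2 (-3878, -3218) (by decide +kernel)
        (CovZ.n2 (-3878, -3220) (by decide +kernel)
         (CovZ.n2 (-3879, -3219) (by decide +kernel)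
          (CovZ.leaf K3_ok TO_l548 _)
          (CovZ.leaf K3_ok TO_l549 _))
         (CovZ.n1 (-3877, -3219) (by decide +kernel)
          (CovZ.leaf K3_ok TO_l550 _)
          (CovZ.leaf K3_ok TO_l551 _)))
        (CovZ.n1 (-3880, -3218) (by decide +kernel)
         (CovZ.n2 (-3879, -3217) (by decide +kernel)
          (CovZ.leaf K3_ok TO_l552 _)
          (CovZ.leaf K3_ok TO_l553 _))
         (CovZ.leaf K3_ok TO_l554 _)))
       (CovZ.n1 (-3878, -3222) (by decide +kernel)
        (CovZ.n2 (-3880, -3222) (by decide +kernel)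
         (CovZ.leaf K3_ok TO_l555 _)
         (CovZ.leaf K3_ok TO_l556 _))
        (CovZ.n1 (-3878, -3220) (by decide +kernel)
         (CovZ.leaf K3_ok TO_l557 _)
         (CovZ.leaf K3_ok TO_l558 _))))
      (CovZ.n1 (-3876, -3216) (by decide +kernel)
       (CovZ.n2 (-3874, -3218) (by decide +kernel)
        (CovZ.n2 (-3876, -3218) (by decide +kernel)
         (CovZ.n2 (-3875, -3217) (by decide +kernel)
          (CovZ.leaf K3_ok TO_l559 _)
          (CovZ.leaf K3_ok TO_l560 _))
         (CovZ.leaf K3_ok TO_l561 _))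
        (CovZ.n1 (-3874, -3216) (by decide +kernel)
         (CovZ.leaf K3_ok TO_l562 _)
         (CovZ.leaf K3_ok TO_l563 _)))
       (CovZ.n1 (-3878, -3218) (by decide +kernel)
        (CovZ.n2 (-3878, -3216) (by decide +kernel)
         (CovZ.n2 (-3877, -3217) (by decide +kernel)
          (CovZ.leaf K3_ok TO_l564 _)
          (CovZ.leaf K3_ok TO_l565 _))
         (CovZ.leaf K3_ok TO_l566 _))
        (CovZ.n1 (-3876, -3218) (by decide +kernel)
         (CovZ.leaf K3_ok TO_l567 _)
         (CovZ.leaf K3_ok TO_l568 _)))))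
     (CovZ.n1 (-3884, -3220) (by decide +kernel)
      (CovZ.n2 (-3884, -3216) (by decide +kernel)
       (CovZ.n2 (-3882, -3218) (by decide +kernel)
        (CovZ.n2 (-3884, -3218) (by decide +kernel)
         (CovZ.n2 (-3883, -3217) (by decide +kernel)
          (CovZ.leaf K3_ok TO_l569 _)
          (CovZ.leaf K3_ok TO_l570 _))
         (CovZ.n1 (-3883, -3219) (by decide +kernel)
          (CovZ.leaf K3_ok TO_l571 _)
          (CovZ.leaf K3_ok TO_l572 _)))
        (CovZ.n1 (-3882, -3216) (by decide +kernel)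
         (CovZ.leaf K3_ok TO_l573 _)
         (CovZ.leaf K3_ok TO_l574 _)))
       (CovZ.n1 (-3886, -3218) (by decide +kernel)
        (CovZ.n2 (-3886, -3216) (by decide +kernel)
         (CovZ.n2 (-3885, -3217) (by decide +kernel)
          (CovZ.leaf K3_ok TO_l575 _)
          (CovZ.leaf K3_ok TO_l576 _))
         (CovZ.n1 (-3887, -3217) (by decide +kernel)
          (CovZ.leaf K3_ok TO_l577 _)
          (CovZ.leaf K3_ok TO_l578 _)))
        (CovZ.n1 (-3884, -3218) (by decide +kernel)
         (CovZ.leaf K3_ok TO_l579 _)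
         (CovZ.n1 (-3885, -3217) (by decide +kernel)
          (CovZ.leaf K3_ok TO_l580 _)
          (CovZ.leaf K3_ok TO_l581 _)))))
      (CovZ.n1 (-3880, -3220) (by decide +kernel)
       (CovZ.n2 (-3882, -3222) (by decide +kernel)
        (CovZ.n2 (-3882, -3220) (by decide +kernel)
         (CovZ.leaf K3_ok TO_l582 _)
         (CovZ.n1 (-3883, -3221) (by decide +kernel)
          (CovZ.leaf K3_ok TO_l583 _)
          (CovZ.leaf K3_ok TO_l584 _)))
        (CovZ.n1 (-3880, -3222) (by decide +kernel)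
         (CovZ.leaf K3_ok TO_l585 _)
         (CovZ.n1 (-3881, -3221) (by decide +kernel)
          (CovZ.leaf K3_ok TO_l586 _)
          (CovZ.n1 (-3881, -3222) (by decide +kernel)
           (CovZ.leaf K3_ok TO_l587 _)
           (CovZ.leaf K3_ok TO_l588 _)))))
       (CovZ.n1 (-3882, -3218) (by decide +kernel)
        (CovZ.n2 (-3880, -3218) (by decide +kernel)
         (CovZ.n2 (-3881, -3219) (by decide +kernel)
          (CovZ.leaf K3_ok TO_l589 _)
          (CovZ.leaf K3_ok TO_l590 _))
         (CovZ.n1 (-3881, -3217) (by decide +kernel)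
          (CovZ.leaf K3_ok TO_l591 _)
          (CovZ.leaf K3_ok TO_l592 _)))
        (CovZ.n1 (-3882, -3220) (by decide +kernel)
         (CovZ.n2 (-3883, -3219) (by decide +kernel)
          (CovZ.leaf K3_ok TO_l593 _)
          (CovZ.leaf K3_ok TO_l594 _))
         (CovZ.n1 (-3881, -3219) (by decide +kernel)
          (CovZ.leaf K3_ok TO_l595 _)
          (CovZ.leaf K3_ok TO_l596 _)))))))))

theorem TO_s3_0 : SqZ TO_M TO_L [0, 7, 4, 3] (-3920) (-3232) 16 3 0 :=
  SqZ.mk (a := (-3872)) (b := (-3856)) (c := (-3232)) (d := (-3216)) (by norm_num) (by norm_num) (by norm_num) (by norm_num)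
    (CovZ.topM TO_LL 15 (by decide +kernel) (CovZ.n2 (-3864, -3224) (by decide +kernel)
    (CovZ.n2 (-3856, -3224) (by decide +kernel)
     (CovZ.n2 (-3860, -3228) (by decide +kernel)
      (CovZ.n2 (-3860, -3224) (by decide +kernel)
       (CovZ.n2 (-3858, -3226) (by decide +kernel)
        (CovZ.n2 (-3860, -3226) (by decide +kernel)
         (CovZ.leaf K3_ok TO_l1618 _)
         (CovZ.leaf K3_ok TO_l1619 _))
        (CovZ.leaf K3_ok TO_l1620 _))
       (CovZ.n1 (-3862, -3226) (by decide +kernel)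
        (CovZ.leaf K3_ok TO_l1621 _)
        (CovZ.n1 (-3860, -3226) (by decide +kernel)
         (CovZ.leaf K3_ok TO_l1622 _)
         (CovZ.leaf K3_ok TO_l1623 _))))
      (CovZ.n1 (-3856, -3228) (by decide +kernel)
       (CovZ.n2 (-3858, -3230) (by decide +kernel)
        (CovZ.leaf K3_ok TO_l1624 _)
        (CovZ.n1 (-3856, -3230) (by decide +kernel)
         (CovZ.leaf K3_ok TO_l1625 _)
         (CovZ.leaf K3_ok TO_l1626 _)))
       (CovZ.n1 (-3858, -3226) (by decide +kernel)
        (CovZ.n2 (-3856, -3226) (by decide +kernel)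
         (CovZ.leaf K3_ok TO_l1627 _)
         (CovZ.leaf K3_ok TO_l1628 _))
        (CovZ.n1 (-3858, -3228) (by decide +kernel)
         (CovZ.leaf K3_ok TO_l1629 _)
         (CovZ.leaf K3_ok TO_l1630 _)))))
     (CovZ.n1 (-3860, -3220) (by decide +kernel)
      (CovZ.n2 (-3856, -3220) (by decide +kernel)
       (CovZ.n2 (-3858, -3222) (by decide +kernel)
        (CovZ.leaf K3_ok TO_l1631 _)
        (CovZ.n1 (-3856, -3222) (by decide +kernel)
         (CovZ.leaf K3_ok TO_l1632 _)
         (CovZ.leaf K3_ok TO_l1633 _)))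
       (CovZ.n1 (-3858, -3218) (by decide +kernel)
        (CovZ.n2 (-3856, -3218) (by decide +kernel)
         (CovZ.leaf K3_ok TO_l1634 _)
         (CovZ.leaf K3_ok TO_l1635 _))
        (CovZ.n1 (-3858, -3220) (by decide +kernel)
         (CovZ.leaf K3_ok TO_l1636 _)
         (CovZ.leaf K3_ok TO_l1637 _))))
      (CovZ.n1 (-3860, -3224) (by decide +kernel)
       (CovZ.n2 (-3862, -3222) (by decide +kernel)
        (CovZ.n2 (-3860, -3222) (by decide +kernel)
         (CovZ.leaf K3_ok TO_l1638 _)
         (CovZ.leaf K3_ok TO_l1639 _))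
        (CovZ.n1 (-3862, -3224) (by decide +kernel)
         (CovZ.leaf K3_ok TO_l1640 _)
         (CovZ.leaf K3_ok TO_l1641 _)))
       (CovZ.n1 (-3858, -3222) (by decide +kernel)
        (CovZ.n2 (-3858, -3224) (by decide +kernel)
         (CovZ.leaf K3_ok TO_l1642 _)
         (CovZ.leaf K3_ok TO_l1643 _))
        (CovZ.n1 (-3860, -3222) (by decide +kernel)
         (CovZ.leaf K3_ok TO_l1644 _)
         (CovZ.leaf K3_ok TO_l1645 _))))))
    (CovZ.n1 (-3864, -3232) (by decide +kernel)
     (CovZ.n2 (-3868, -3228) (by decide +kernel)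
      (CovZ.n2 (-3864, -3228) (by decide +kernel)
       (CovZ.n2 (-3866, -3230) (by decide +kernel)
        (CovZ.leaf K3_ok TO_l1646 _)
        (CovZ.n1 (-3864, -3230) (by decide +kernel)
         (CovZ.leaf K3_ok TO_l1647 _)
         (CovZ.leaf K3_ok TO_l1648 _)))
       (CovZ.n1 (-3866, -3226) (by decide +kernel)
        (CovZ.n2 (-3864, -3226) (by decide +kernel)
         (CovZ.leaf K3_ok TO_l1649 _)
         (CovZ.leaf K3_ok TO_l1650 _))
        (CovZ.n1 (-3866, -3228) (by decide +kernel)
         (CovZ.leaf K3_ok TO_l1651 _)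
         (CovZ.leaf K3_ok TO_l1652 _))))
      (CovZ.n1 (-3868, -3232) (by decide +kernel)
       (CovZ.n2 (-3870, -3230) (by decide +kernel)
        (CovZ.n2 (-3868, -3230) (by decide +kernel)
         (CovZ.leaf K3_ok TO_l1653 _)
         (CovZ.leaf K3_ok TO_l1654 _))
        (CovZ.n1 (-3870, -3232) (by decide +kernel)
         (CovZ.leaf K3_ok TO_l1655 _)
         (CovZ.leaf K3_ok TO_l1656 _)))
       (CovZ.n1 (-3866, -3230) (by decide +kernel)
        (CovZ.n2 (-3866, -3232) (by decide +kernel)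
         (CovZ.leaf K3_ok TO_l1657 _)
         (CovZ.leaf K3_ok TO_l1658 _))
        (CovZ.n1 (-3868, -3230) (by decide +kernel)
         (CovZ.leaf K3_ok TO_l1659 _)
         (CovZ.leaf K3_ok TO_l1660 _)))))
     (CovZ.n1 (-3860, -3228) (by decide +kernel)
      (CovZ.n2 (-3860, -3232) (by decide +kernel)
       (CovZ.n2 (-3862, -3230) (by decide +kernel)
        (CovZ.n2 (-3860, -3230) (by decide +kernel)
         (CovZ.leaf K3_ok TO_l1661 _)
         (CovZ.leaf K3_ok TO_l1662 _))
        (CovZ.n1 (-3862, -3232) (by decide +kernel)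
         (CovZ.leaf K3_ok TO_l1663 _)
         (CovZ.leaf K3_ok TO_l1664 _)))
       (CovZ.n1 (-3858, -3230) (by decide +kernel)
        (CovZ.n2 (-3858, -3232) (by decide +kernel)
         (CovZ.leaf K3_ok TO_l1665 _)
         (CovZ.leaf K3_ok TO_l1666 _))
        (CovZ.n1 (-3860, -3230) (by decide +kernel)
         (CovZ.leaf K3_ok TO_l1667 _)
         (CovZ.leaf K3_ok TO_l1668 _))))
      (CovZ.n1 (-3864, -3228) (by decide +kernel)
       (CovZ.n2 (-3862, -3226) (by decide +kernel)
        (CovZ.n2 (-3862, -3228) (by decide +kernel)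
         (CovZ.leaf K3_ok TO_l1669 _)
         (CovZ.leaf K3_ok TO_l1670 _))
        (CovZ.n1 (-3864, -3226) (by decide +kernel)
         (CovZ.leaf K3_ok TO_l1671 _)
         (CovZ.leaf K3_ok TO_l1672 _)))
       (CovZ.n1 (-3862, -3230) (by decide +kernel)
        (CovZ.n2 (-3864, -3230) (by decide +kernel)
         (CovZ.leaf K3_ok TO_l1673 _)
         (CovZ.leaf K3_ok TO_l1674 _))
        (CovZ.leaf K3_ok TO_l1675 _)))))))
    (CovZ.topM TO_LL 15 (by decide +kernel) (CovZ.n0 (-3864, -3224) (by decide +kernel)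
    (CovZ.n2 (-3872, -3224) (by decide +kernel)
     (CovZ.n2 (-3868, -3220) (by decide +kernel)
      (CovZ.n2 (-3868, -3224) (by decide +kernel)
       (CovZ.n2 (-3870, -3222) (by decide +kernel)
        (CovZ.n2 (-3868, -3222) (by decide +kernel)
         (CovZ.leaf K3_ok TO_l1676 _)
         (CovZ.leaf K3_ok TO_l1677 _))
        (CovZ.n1 (-3870, -3224) (by decide +kernel)
         (CovZ.leaf K3_ok TO_l1678 _)
         (CovZ.leaf K3_ok TO_l1679 _)))
       (CovZ.n1 (-3866, -3222) (by decide +kernel)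
        (CovZ.n2 (-3866, -3224) (by decide +kernel)
         (CovZ.leaf K3_ok TO_l1680 _)
         (CovZ.leaf K3_ok TO_l1681 _))
        (CovZ.n1 (-3868, -3222) (by decide +kernel)
         (CovZ.leaf K3_ok TO_l1682 _)
         (CovZ.leaf K3_ok TO_l1683 _))))
      (CovZ.n1 (-3872, -3220) (by decide +kernel)
       (CovZ.n2 (-3870, -3218) (by decide +kernel)
        (CovZ.n2 (-3870, -3220) (by decide +kernel)
         (CovZ.leaf K3_ok TO_l1684 _)
         (CovZ.leaf K3_ok TO_l1685 _))
        (CovZ.n1 (-3872, -3218) (by decide +kernel)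
         (CovZ.leaf K3_ok TO_l1686 _)
         (CovZ.leaf K3_ok TO_l1687 _)))
       (CovZ.n1 (-3870, -3222) (by decide +kernel)
        (CovZ.n2 (-3872, -3222) (by decide +kernel)
         (CovZ.leaf K3_ok TO_l1688 _)
         (CovZ.leaf K3_ok TO_l1689 _))
        (CovZ.n1 (-3870, -3220) (by decide +kernel)
         (CovZ.leaf K3_ok TO_l1690 _)
         (CovZ.leaf K3_ok TO_l1691 _)))))
     (CovZ.n1 (-3868, -3228) (by decide +kernel)
      (CovZ.n2 (-3872, -3228) (by decide +kernel)
       (CovZ.n2 (-3870, -3226) (by decide +kernel)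
        (CovZ.n2 (-3870, -3228) (by decide +kernel)
         (CovZ.leaf K3_ok TO_l1692 _)
         (CovZ.leaf K3_ok TO_l1693 _))
        (CovZ.n1 (-3872, -3226) (by decide +kernel)
         (CovZ.leaf K3_ok TO_l1694 _)
         (CovZ.leaf K3_ok TO_l1695 _)))
       (CovZ.n1 (-3870, -3230) (by decide +kernel)
        (CovZ.n2 (-3872, -3230) (by decide +kernel)
         (CovZ.n2 (-3871, -3229) (by decide +kernel)
          (CovZ.leaf K3_ok TO_l1696 _)
          (CovZ.leaf K3_ok TO_l1697 _))
         (CovZ.leaf K3_ok TO_l1698 _))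
        (CovZ.n1 (-3870, -3228) (by decide +kernel)
         (CovZ.leaf K3_ok TO_l1699 _)
         (CovZ.leaf K3_ok TO_l1700 _))))
      (CovZ.n1 (-3868, -3224) (by decide +kernel)
       (CovZ.n2 (-3866, -3226) (by decide +kernel)
        (CovZ.n2 (-3868, -3226) (by decide +kernel)
         (CovZ.leaf K3_ok TO_l1701 _)
         (CovZ.leaf K3_ok TO_l1702 _))
        (CovZ.leaf K3_ok TO_l1703 _))
       (CovZ.n1 (-3870, -3226) (by decide +kernel)
        (CovZ.n2 (-3870, -3224) (by decide +kernel)
         (CovZ.leaf K3_ok TO_l1704 _)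
         (CovZ.leaf K3_ok TO_l1705 _))
        (CovZ.n1 (-3868, -3226) (by decide +kernel)
         (CovZ.leaf K3_ok TO_l1706 _)
         (CovZ.leaf K3_ok TO_l1707 _))))))
    (CovZ.n1 (-3864, -3216) (by decide +kernel)
     (CovZ.n2 (-3860, -3220) (by decide +kernel)
      (CovZ.n2 (-3864, -3220) (by decide +kernel)
       (CovZ.n2 (-3862, -3218) (by decide +kernel)
        (CovZ.n2 (-3862, -3220) (by decide +kernel)
         (CovZ.leaf K3_ok TO_l1708 _)
         (CovZ.leaf K3_ok TO_l1709 _))
        (CovZ.n1 (-3864, -3218) (by decide +kernel)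
         (CovZ.leaf K3_ok TO_l1710 _)
         (CovZ.leaf K3_ok TO_l1711 _)))
       (CovZ.n1 (-3862, -3222) (by decide +kernel)
        (CovZ.n2 (-3864, -3222) (by decide +kernel)
         (CovZ.leaf K3_ok TO_l1712 _)
         (CovZ.leaf K3_ok TO_l1713 _))
        (CovZ.leaf K3_ok TO_l1714 _)))
      (CovZ.n1 (-3860, -3216) (by decide +kernel)
       (CovZ.n2 (-3858, -3218) (by decide +kernel)
        (CovZ.n2 (-3860, -3218) (by decide +kernel)
         (CovZ.leaf K3_ok TO_l1715 _)
         (CovZ.leaf K3_ok TO_l1716 _))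
        (CovZ.leaf K3_ok TO_l1717 _))
       (CovZ.n1 (-3862, -3218) (by decide +kernel)
        (CovZ.leaf K3_ok TO_l1718 _)
        (CovZ.n1 (-3860, -3218) (by decide +kernel)
         (CovZ.leaf K3_ok TO_l1719 _)
         (CovZ.leaf K3_ok TO_l1720 _)))))
     (CovZ.n1 (-3868, -3220) (by decide +kernel)
      (CovZ.n2 (-3868, -3216) (by decide +kernel)
       (CovZ.n2 (-3866, -3218) (by decide +kernel)
        (CovZ.n2 (-3868, -3218) (by decide +kernel)
         (CovZ.leaf K3_ok TO_l1721 _)
         (CovZ.leaf K3_ok TO_l1722 _))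
        (CovZ.n1 (-3866, -3216) (by decide +kernel)
         (CovZ.leaf K3_ok TO_l1723 _)
         (CovZ.leaf K3_ok TO_l1724 _)))
       (CovZ.n1 (-3870, -3218) (by decide +kernel)
        (CovZ.n2 (-3870, -3216) (by decide +kernel)
         (CovZ.leaf K3_ok TO_l1725 _)
         (CovZ.leaf K3_ok TO_l1726 _))
        (CovZ.n1 (-3868, -3218) (by decide +kernel)
         (CovZ.leaf K3_ok TO_l1727 _)
         (CovZ.leaf K3_ok TO_l1728 _))))
      (CovZ.n1 (-3864, -3220) (by decide +kernel)
       (CovZ.n2 (-3866, -3222) (by decide +kernel)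
        (CovZ.n2 (-3866, -3220) (by decide +kernel)
         (CovZ.leaf K3_ok TO_l1729 _)
         (CovZ.leaf K3_ok TO_l1730 _))
        (CovZ.n1 (-3864, -3222) (by decide +kernel)
         (CovZ.leaf K3_ok TO_l1731 _)
         (CovZ.leaf K3_ok TO_l1732 _)))
       (CovZ.n1 (-3866, -3218) (by decide +kernel)
        (CovZ.n2 (-3864, -3218) (by decide +kernel)
         (CovZ.leaf K3_ok TO_l1733 _)
         (CovZ.leaf K3_ok TO_l1734 _))
        (CovZ.n1 (-3866, -3220) (by decide +kernel)
         (CovZ.leaf K3_ok TO_l1735 _)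
         (CovZ.leaf K3_ok TO_l1736 _))))))))

theorem TO_s4_0 : SqZ TO_M TO_L [0, 7, 4, 3] (-3920) (-3232) 16 4 0 :=
  SqZ.mk (a := (-3856)) (b := (-3840)) (c := (-3232)) (d := (-3216)) (by norm_num) (by norm_num) (by norm_num) (by norm_num)
    (CovZ.topM TO_LL 7 (by decide +kernel) (CovZ.n2 (-3848, -3224) (by decide +kernel)
    (CovZ.n2 (-3840, -3224) (by decide +kernel)
     (CovZ.n2 (-3844, -3228) (by decide +kernel)
      (CovZ.n2 (-3844, -3224) (by decide +kernel)
       (CovZ.n2 (-3842, -3226) (by decide +kernel)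
        (CovZ.leaf K3_ok TO_l2290 _)
        (CovZ.leaf K3_ok TO_l2291 _))
       (CovZ.n1 (-3846, -3226) (by decide +kernel)
        (CovZ.leaf K3_ok TO_l2292 _)
        (CovZ.leaf K3_ok TO_l2293 _)))
      (CovZ.n1 (-3840, -3228) (by decide +kernel)
       (CovZ.n2 (-3842, -3230) (by decide +kernel)
        (CovZ.leaf K3_ok TO_l2294 _)
        (CovZ.leaf K3_ok TO_l2295 _))
       (CovZ.n1 (-3842, -3226) (by decide +kernel)
        (CovZ.leaf K3_ok TO_l2296 _)
        (CovZ.leaf K3_ok TO_l2297 _))))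
     (CovZ.n1 (-3844, -3220) (by decide +kernel)
      (CovZ.n2 (-3840, -3220) (by decide +kernel)
       (CovZ.n2 (-3842, -3222) (by decide +kernel)
        (CovZ.leaf K3_ok TO_l2298 _)
        (CovZ.leaf K3_ok TO_l2299 _))
       (CovZ.n1 (-3842, -3218) (by decide +kernel)
        (CovZ.leaf K3_ok TO_l2300 _)
        (CovZ.n1 (-3842, -3220) (by decide +kernel)
         (CovZ.leaf K3_ok TO_l2301 _)
         (CovZ.leaf K3_ok TO_l2302 _))))
      (CovZ.n1 (-3844, -3224) (by decide +kernel)
       (CovZ.n2 (-3846, -3222) (by decide +kernel)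
        (CovZ.leaf K3_ok TO_l2303 _)
        (CovZ.n1 (-3846, -3224) (by decide +kernel)
         (CovZ.leaf K3_ok TO_l2304 _)
         (CovZ.leaf K3_ok TO_l2305 _)))
       (CovZ.n1 (-3842, -3222) (by decide +kernel)
        (CovZ.n2 (-3842, -3224) (by decide +kernel)
         (CovZ.leaf K3_ok TO_l2306 _)
         (CovZ.leaf K3_ok TO_l2307 _))
        (CovZ.leaf K3_ok TO_l2308 _)))))
    (CovZ.n1 (-3848, -3232) (by decide +kernel)
     (CovZ.n2 (-3852, -3228) (by decide +kernel)
      (CovZ.n2 (-3848, -3228) (by decide +kernel)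
       (CovZ.n2 (-3850, -3230) (by decide +kernel)
        (CovZ.leaf K3_ok TO_l2309 _)
        (CovZ.leaf K3_ok TO_l2310 _))
       (CovZ.n1 (-3850, -3226) (by decide +kernel)
        (CovZ.n2 (-3848, -3226) (by decide +kernel)
         (CovZ.leaf K3_ok TO_l2311 _)
         (CovZ.leaf K3_ok TO_l2312 _))
        (CovZ.leaf K3_ok TO_l2313 _)))
      (CovZ.n1 (-3852, -3232) (by decide +kernel)
       (CovZ.n2 (-3854, -3230) (by decide +kernel)
        (CovZ.n2 (-3852, -3230) (by decide +kernel)
         (CovZ.leaf K3_ok TO_l2314 _)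
         (CovZ.leaf K3_ok TO_l2315 _))
        (CovZ.n1 (-3854, -3232) (by decide +kernel)
         (CovZ.leaf K3_ok TO_l2316 _)
         (CovZ.n1 (-3853, -3231) (by decide +kernel)
          (CovZ.leaf K3_ok TO_l2317 _)
          (CovZ.leaf K3_ok TO_l2318 _))))
       (CovZ.n1 (-3850, -3230) (by decide +kernel)
        (CovZ.n2 (-3850, -3232) (by decide +kernel)
         (CovZ.leaf K3_ok TO_l2319 _)
         (CovZ.leaf K3_ok TO_l2320 _))
        (CovZ.n1 (-3852, -3230) (by decide +kernel)
         (CovZ.leaf K3_ok TO_l2321 _)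
         (CovZ.leaf K3_ok TO_l2322 _)))))
     (CovZ.n1 (-3844, -3228) (by decide +kernel)
      (CovZ.n2 (-3844, -3232) (by decide +kernel)
       (CovZ.n2 (-3846, -3230) (by decide +kernel)
        (CovZ.leaf K3_ok TO_l2323 _)
        (CovZ.leaf K3_ok TO_l2324 _))
       (CovZ.n1 (-3842, -3230) (by decide +kernel)
        (CovZ.leaf K3_ok TO_l2325 _)
        (CovZ.leaf K3_ok TO_l2326 _)))
      (CovZ.n1 (-3848, -3228) (by decide +kernel)
       (CovZ.n2 (-3846, -3226) (by decide +kernel)
        (CovZ.leaf K3_ok TO_l2327 _)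
        (CovZ.leaf K3_ok TO_l2328 _))
       (CovZ.n1 (-3846, -3230) (by decide +kernel)
        (CovZ.leaf K3_ok TO_l2329 _)
        (CovZ.leaf K3_ok TO_l2330 _)))))))
    (CovZ.topM TO_LL 15 (by decide +kernel) (CovZ.n0 (-3848, -3224) (by decide +kernel)
    (CovZ.n2 (-3856, -3224) (by decide +kernel)
     (CovZ.n2 (-3852, -3220) (by decide +kernel)
      (CovZ.n2 (-3852, -3224) (by decide +kernel)
       (CovZ.n2 (-3854, -3222) (by decide +kernel)
        (CovZ.n2 (-3852, -3222) (by decide +kernel)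
         (CovZ.leaf K3_ok TO_l2331 _)
         (CovZ.leaf K3_ok TO_l2332 _))
        (CovZ.n1 (-3854, -3224) (by decide +kernel)
         (CovZ.leaf K3_ok TO_l2333 _)
         (CovZ.leaf K3_ok TO_l2334 _)))
       (CovZ.n1 (-3850, -3222) (by decide +kernel)
        (CovZ.n2 (-3850, -3224) (by decide +kernel)
         (CovZ.leaf K3_ok TO_l2335 _)
         (CovZ.leaf K3_ok TO_l2336 _))
        (CovZ.n1 (-3852, -3222) (by decide +kernel)
         (CovZ.leaf K3_ok TO_l2337 _)
         (CovZ.leaf K3_ok TO_l2338 _))))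
      (CovZ.n1 (-3856, -3220) (by decide +kernel)
       (CovZ.n2 (-3854, -3218) (by decide +kernel)
        (CovZ.n2 (-3854, -3220) (by decide +kernel)
         (CovZ.n2 (-3855, -3219) (by decide +kernel)
          (CovZ.leaf K3_ok TO_l2339 _)
          (CovZ.leaf K3_ok TO_l2340 _))
         (CovZ.leaf K3_ok TO_l2341 _))
        (CovZ.n1 (-3856, -3218) (by decide +kernel)
         (CovZ.leaf K3_ok TO_l2342 _)
         (CovZ.leaf K3_ok TO_l2343 _)))
       (CovZ.n1 (-3854, -3222) (by decide +kernel)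
        (CovZ.n2 (-3856, -3222) (by decide +kernel)
         (CovZ.leaf K3_ok TO_l2344 _)
         (CovZ.leaf K3_ok TO_l2345 _))
        (CovZ.leaf K3_ok TO_l2346 _))))
     (CovZ.n1 (-3852, -3228) (by decide +kernel)
      (CovZ.n2 (-3856, -3228) (by decide +kernel)
       (CovZ.n2 (-3854, -3226) (by decide +kernel)
        (CovZ.n2 (-3854, -3228) (by decide +kernel)
         (CovZ.leaf K3_ok TO_l2347 _)
         (CovZ.leaf K3_ok TO_l2348 _))
        (CovZ.n1 (-3856, -3226) (by decide +kernel)
         (CovZ.leaf K3_ok TO_l2349 _)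
         (CovZ.leaf K3_ok TO_l2350 _)))
       (CovZ.n1 (-3854, -3230) (by decide +kernel)
        (CovZ.leaf K3_ok TO_l2351 _)
        (CovZ.leaf K3_ok TO_l2352 _)))
      (CovZ.n1 (-3852, -3224) (by decide +kernel)
       (CovZ.n2 (-3850, -3226) (by decide +kernel)
        (CovZ.n2 (-3852, -3226) (by decide +kernel)
         (CovZ.leaf K3_ok TO_l2353 _)
         (CovZ.leaf K3_ok TO_l2354 _))
        (CovZ.leaf K3_ok TO_l2355 _))
       (CovZ.n1 (-3854, -3226) (by decide +kernel)
        (CovZ.leaf K3_ok TO_l2356 _)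
        (CovZ.n1 (-3852, -3226) (by decide +kernel)
         (CovZ.leaf K3_ok TO_l2357 _)
         (CovZ.leaf K3_ok TO_l2358 _))))))
    (CovZ.n1 (-3848, -3216) (by decide +kernel)
     (CovZ.n2 (-3844, -3220) (by decide +kernel)
      (CovZ.n2 (-3848, -3220) (by decide +kernel)
       (CovZ.n2 (-3846, -3218) (by decide +kernel)
        (CovZ.leaf K3_ok TO_l2359 _)
        (CovZ.leaf K3_ok TO_l2360 _))
       (CovZ.n1 (-3846, -3222) (by decide +kernel)
        (CovZ.leaf K3_ok TO_l2361 _)
        (CovZ.leaf K3_ok TO_l2362 _)))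
      (CovZ.n1 (-3844, -3216) (by decide +kernel)
       (CovZ.n2 (-3842, -3218) (by decide +kernel)
        (CovZ.leaf K3_ok TO_l2363 _)
        (CovZ.leaf K3_ok TO_l2364 _))
       (CovZ.n1 (-3846, -3218) (by decide +kernel)
        (CovZ.leaf K3_ok TO_l2365 _)
        (CovZ.leaf K3_ok TO_l2366 _))))
     (CovZ.n1 (-3852, -3220) (by decide +kernel)
      (CovZ.n2 (-3852, -3216) (by decide +kernel)
       (CovZ.n2 (-3850, -3218) (by decide +kernel)
        (CovZ.n2 (-3852, -3218) (by decide +kernel)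
         (CovZ.leaf K3_ok TO_l2367 _)
         (CovZ.leaf K3_ok TO_l2368 _))
        (CovZ.leaf K3_ok TO_l2369 _))
       (CovZ.n1 (-3854, -3218) (by decide +kernel)
        (CovZ.leaf K3_ok TO_l2370 _)
        (CovZ.n1 (-3852, -3218) (by decide +kernel)
         (CovZ.leaf K3_ok TO_l2371 _)
         (CovZ.leaf K3_ok TO_l2372 _))))
      (CovZ.n1 (-3848, -3220) (by decide +kernel)
       (CovZ.n2 (-3850, -3222) (by decide +kernel)
        (CovZ.leaf K3_ok TO_l2373 _)
        (CovZ.n1 (-3848, -3222) (by decide +kernel)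
         (CovZ.leaf K3_ok TO_l2374 _)
         (CovZ.leaf K3_ok TO_l2375 _)))
       (CovZ.n1 (-3850, -3218) (by decide +kernel)
        (CovZ.n2 (-3848, -3218) (by decide +kernel)
         (CovZ.leaf K3_ok TO_l2376 _)
         (CovZ.leaf K3_ok TO_l2377 _))
        (CovZ.n1 (-3850, -3220) (by decide +kernel)
         (CovZ.leaf K3_ok TO_l2378 _)
         (CovZ.leaf K3_ok TO_l2379 _))))))))

theorem TO_s5_0 : SqZ TO_M TO_L [0, 7, 4, 3] (-3920) (-3232) 16 5 0 :=
  SqZ.mk (a := (-3840)) (b := (-3824)) (c := (-3232)) (d := (-3216)) (by norm_num) (by norm_num) (by norm_num) (by norm_num)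
    (CovZ.topM TO_LL 7 (by decide +kernel) (CovZ.n2 (-3832, -3224) (by decide +kernel)
    (CovZ.n2 (-3824, -3224) (by decide +kernel)
     (CovZ.n2 (-3828, -3228) (by decide +kernel)
      (CovZ.n2 (-3828, -3224) (by decide +kernel)
       (CovZ.n2 (-3826, -3226) (by decide +kernel)
        (CovZ.n2 (-3828, -3226) (by decide +kernel)
         (CovZ.leaf K3_ok TO_l2800 _)
         (CovZ.leaf K3_ok TO_l2801 _))
        (CovZ.n1 (-3826, -3224) (by decide +kernel)
         (CovZ.leaf K3_ok TO_l2802 _)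
         (CovZ.leaf K3_ok TO_l2803 _)))
       (CovZ.n1 (-3830, -3226) (by decide +kernel)
        (CovZ.leaf K3_ok TO_l2804 _)
        (CovZ.n1 (-3828, -3226) (by decide +kernel)
         (CovZ.leaf K3_ok TO_l2805 _)
         (CovZ.leaf K3_ok TO_l2806 _))))
      (CovZ.n1 (-3824, -3228) (by decide +kernel)
       (CovZ.n2 (-3826, -3230) (by decide +kernel)
        (CovZ.n2 (-3826, -3228) (by decide +kernel)
         (CovZ.leaf K3_ok TO_l2807 _)
         (CovZ.leaf K3_ok TO_l2808 _))
        (CovZ.n1 (-3824, -3230) (by decide +kernel)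
         (CovZ.n2 (-3825, -3231) (by decide +kernel)
          (CovZ.leaf K3_ok TO_l2809 _)
          (CovZ.n1 (-3824, -3231) (by decide +kernel)
           (CovZ.leaf K3_ok TO_l2810 _)
           (CovZ.leaf K3_ok TO_l2811 _)))
         (CovZ.leaf K3_ok TO_l2812 _)))
       (CovZ.n1 (-3826, -3226) (by decide +kernel)
        (CovZ.n2 (-3824, -3226) (by decide +kernel)
         (CovZ.leaf K3_ok TO_l2813 _)
         (CovZ.n1 (-3825, -3225) (by decide +kernel)
          (CovZ.leaf K3_ok TO_l2814 _)
          (CovZ.leaf K3_ok TO_l2815 _)))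
        (CovZ.n1 (-3826, -3228) (by decide +kernel)
         (CovZ.leaf K3_ok TO_l2816 _)
         (CovZ.n1 (-3825, -3227) (by decide +kernel)
          (CovZ.leaf K3_ok TO_l2817 _)
          (CovZ.leaf K3_ok TO_l2818 _))))))
     (CovZ.n1 (-3828, -3220) (by decide +kernel)
      (CovZ.n2 (-3824, -3220) (by decide +kernel)
       (CovZ.n2 (-3826, -3222) (by decide +kernel)
        (CovZ.n2 (-3826, -3220) (by decide +kernel)
         (CovZ.n2 (-3825, -3221) (by decide +kernel)
          (CovZ.leaf K3_ok TO_l2819 _)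
          (CovZ.leaf K3_ok TO_l2820 _))
         (CovZ.leaf K3_ok TO_l2821 _))
        (CovZ.n1 (-3824, -3222) (by decide +kernel)
         (CovZ.n2 (-3825, -3223) (by decide +kernel)
          (CovZ.leaf K3_ok TO_l2822 _)
          (CovZ.leaf K3_ok TO_l2823 _))
         (CovZ.n1 (-3825, -3221) (by decide +kernel)
          (CovZ.n2 (-3824, -3221) (by decide +kernel)
           (CovZ.leaf K3_ok TO_l2824 _)
           (CovZ.leaf K3_ok TO_l2825 _))
          (CovZ.leaf K3_ok TO_l2826 _))))
       (CovZ.n1 (-3826, -3218) (by decide +kernel)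
        (CovZ.n2 (-3824, -3218) (by decide +kernel)
         (CovZ.n2 (-3825, -3219) (by decide +kernel)
          (CovZ.leaf K3_ok TO_l2827 _)
          (CovZ.leaf K3_ok TO_l2828 _))
         (CovZ.leaf K3_ok TO_l2829 _))
        (CovZ.n1 (-3826, -3220) (by decide +kernel)
         (CovZ.leaf K3_ok TO_l2830 _)
         (CovZ.n1 (-3825, -3219) (by decide +kernel)
          (CovZ.leaf K3_ok TO_l2831 _)
          (CovZ.leaf K3_ok TO_l2832 _)))))
      (CovZ.n1 (-3828, -3224) (by decide +kernel)
       (CovZ.n2 (-3830, -3222) (by decide +kernel)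
        (CovZ.n2 (-3828, -3222) (by decide +kernel)
         (CovZ.leaf K3_ok TO_l2833 _)
         (CovZ.leaf K3_ok TO_l2834 _))
        (CovZ.n1 (-3830, -3224) (by decide +kernel)
         (CovZ.leaf K3_ok TO_l2835 _)
         (CovZ.leaf K3_ok TO_l2836 _)))
       (CovZ.n1 (-3826, -3222) (by decide +kernel)
        (CovZ.n2 (-3826, -3224) (by decide +kernel)
         (CovZ.leaf K3_ok TO_l2837 _)
         (CovZ.n1 (-3825, -3223) (by decide +kernel)
          (CovZ.leaf K3_ok TO_l2838 _)
          (CovZ.leaf K3_ok TO_l2839 _)))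
        (CovZ.n1 (-3828, -3222) (by decide +kernel)
         (CovZ.leaf K3_ok TO_l2840 _)
         (CovZ.leaf K3_ok TO_l2841 _))))))
    (CovZ.n1 (-3832, -3232) (by decide +kernel)
     (CovZ.n2 (-3836, -3228) (by decide +kernel)
      (CovZ.n2 (-3832, -3228) (by decide +kernel)
       (CovZ.n2 (-3834, -3230) (by decide +kernel)
        (CovZ.leaf K3_ok TO_l2842 _)
        (CovZ.leaf K3_ok TO_l2843 _))
       (CovZ.n1 (-3834, -3226) (by decide +kernel)
        (CovZ.n2 (-3832, -3226) (by decide +kernel)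
         (CovZ.leaf K3_ok TO_l2844 _)
         (CovZ.leaf K3_ok TO_l2845 _))
        (CovZ.n1 (-3834, -3228) (by decide +kernel)
         (CovZ.leaf K3_ok TO_l2846 _)
         (CovZ.leaf K3_ok TO_l2847 _))))
      (CovZ.n1 (-3836, -3232) (by decide +kernel)
       (CovZ.n2 (-3838, -3230) (by decide +kernel)
        (CovZ.leaf K3_ok TO_l2848 _)
        (CovZ.leaf K3_ok TO_l2849 _))
       (CovZ.n1 (-3834, -3230) (by decide +kernel)
        (CovZ.n2 (-3834, -3232) (by decide +kernel)
         (CovZ.leaf K3_ok TO_l2850 _)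
         (CovZ.leaf K3_ok TO_l2851 _))
        (CovZ.leaf K3_ok TO_l2852 _))))
     (CovZ.n1 (-3828, -3228) (by decide +kernel)
      (CovZ.n2 (-3828, -3232) (by decide +kernel)
       (CovZ.n2 (-3830, -3230) (by decide +kernel)
        (CovZ.n2 (-3828, -3230) (by decide +kernel)
         (CovZ.leaf K3_ok TO_l2853 _)
         (CovZ.leaf K3_ok TO_l2854 _))
        (CovZ.n1 (-3830, -3232) (by decide +kernel)
         (CovZ.leaf K3_ok TO_l2855 _)
         (CovZ.leaf K3_ok TO_l2856 _)))
       (CovZ.n1 (-3826, -3230) (by decide +kernel)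
        (CovZ.n2 (-3826, -3232) (by decide +kernel)
         (CovZ.n2 (-3827, -3231) (by decide +kernel)
          (CovZ.leaf K3_ok TO_l2857 _)
          (CovZ.leaf K3_ok TO_l2858 _))
         (CovZ.n1 (-3825, -3231) (by decide +kernel)
          (CovZ.leaf K3_ok TO_l2859 _)
          (CovZ.leaf K3_ok TO_l2860 _)))
        (CovZ.n1 (-3828, -3230) (by decide +kernel)
         (CovZ.leaf K3_ok TO_l2861 _)
         (CovZ.leaf K3_ok TO_l2862 _))))
      (CovZ.n1 (-3832, -3228) (by decide +kernel)
       (CovZ.n2 (-3830, -3226) (by decide +kernel)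
        (CovZ.n2 (-3830, -3228) (by decide +kernel)
         (CovZ.leaf K3_ok TO_l2863 _)
         (CovZ.leaf K3_ok TO_l2864 _))
        (CovZ.leaf K3_ok TO_l2865 _))
       (CovZ.n1 (-3830, -3230) (by decide +kernel)
        (CovZ.n2 (-3832, -3230) (by decide +kernel)
         (CovZ.leaf K3_ok TO_l2866 _)
         (CovZ.leaf K3_ok TO_l2867 _))
        (CovZ.leaf K3_ok TO_l2868 _)))))))
    (CovZ.topM TO_LL 7 (by decide +kernel) (CovZ.n0 (-3832, -3224) (by decide +kernel)
    (CovZ.n2 (-3840, -3224) (by decide +kernel)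
     (CovZ.n2 (-3836, -3220) (by decide +kernel)
      (CovZ.n2 (-3836, -3224) (by decide +kernel)
       (CovZ.n2 (-3838, -3222) (by decide +kernel)
        (CovZ.leaf K3_ok TO_l2869 _)
        (CovZ.leaf K3_ok TO_l2870 _))
       (CovZ.n1 (-3834, -3222) (by decide +kernel)
        (CovZ.leaf K3_ok TO_l2871 _)
        (CovZ.leaf K3_ok TO_l2872 _)))
      (CovZ.n1 (-3840, -3220) (by decide +kernel)
       (CovZ.n2 (-3838, -3218) (by decide +kernel)
        (CovZ.leaf K3_ok TO_l2873 _)
        (CovZ.leaf K3_ok TO_l2874 _))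
       (CovZ.n1 (-3838, -3222) (by decide +kernel)
        (CovZ.leaf K3_ok TO_l2875 _)
        (CovZ.leaf K3_ok TO_l2876 _))))
     (CovZ.n1 (-3836, -3228) (by decide +kernel)
      (CovZ.n2 (-3840, -3228) (by decide +kernel)
       (CovZ.n2 (-3838, -3226) (by decide +kernel)
        (CovZ.leaf K3_ok TO_l2877 _)
        (CovZ.leaf K3_ok TO_l2878 _))
       (CovZ.n1 (-3838, -3230) (by decide +kernel)
        (CovZ.leaf K3_ok TO_l2879 _)
        (CovZ.leaf K3_ok TO_l2880 _)))
      (CovZ.n1 (-3836, -3224) (by decide +kernel)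
       (CovZ.n2 (-3834, -3226) (by decide +kernel)
        (CovZ.leaf K3_ok TO_l2881 _)
        (CovZ.leaf K3_ok TO_l2882 _))
       (CovZ.n1 (-3838, -3226) (by decide +kernel)
        (CovZ.leaf K3_ok TO_l2883 _)
        (CovZ.leaf K3_ok TO_l2884 _)))))
    (CovZ.n1 (-3832, -3216) (by decide +kernel)
     (CovZ.n2 (-3828, -3220) (by decide +kernel)
      (CovZ.n2 (-3832, -3220) (by decide +kernel)
       (CovZ.n2 (-3830, -3218) (by decide +kernel)
        (CovZ.n2 (-3830, -3220) (by decide +kernel)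
         (CovZ.leaf K3_ok TO_l2885 _)
         (CovZ.leaf K3_ok TO_l2886 _))
        (CovZ.n1 (-3832, -3218) (by decide +kernel)
         (CovZ.leaf K3_ok TO_l2887 _)
         (CovZ.leaf K3_ok TO_l2888 _)))
       (CovZ.n1 (-3830, -3222) (by decide +kernel)
        (CovZ.n2 (-3832, -3222) (by decide +kernel)
         (CovZ.leaf K3_ok TO_l2889 _)
         (CovZ.leaf K3_ok TO_l2890 _))
        (CovZ.leaf K3_ok TO_l2891 _)))
      (CovZ.n1 (-3828, -3216) (by decide +kernel)
       (CovZ.n2 (-3826, -3218) (by decide +kernel)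
        (CovZ.n2 (-3828, -3218) (by decide +kernel)
         (CovZ.leaf K3_ok TO_l2892 _)
         (CovZ.leaf K3_ok TO_l2893 _))
        (CovZ.n1 (-3826, -3216) (by decide +kernel)
         (CovZ.leaf K3_ok TO_l2894 _)
         (CovZ.leaf K3_ok TO_l2895 _)))
       (CovZ.n1 (-3830, -3218) (by decide +kernel)
        (CovZ.leaf K3_ok TO_l2896 _)
        (CovZ.n1 (-3828, -3218) (by decide +kernel)
         (CovZ.leaf K3_ok TO_l2897 _)
         (CovZ.leaf K3_ok TO_l2898 _)))))
     (CovZ.n1 (-3836, -3220) (by decide +kernel)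
      (CovZ.n2 (-3836, -3216) (by decide +kernel)
       (CovZ.n2 (-3834, -3218) (by decide +kernel)
        (CovZ.leaf K3_ok TO_l2899 _)
        (CovZ.leaf K3_ok TO_l2900 _))
       (CovZ.n1 (-3838, -3218) (by decide +kernel)
        (CovZ.leaf K3_ok TO_l2901 _)
        (CovZ.leaf K3_ok TO_l2902 _)))
      (CovZ.n1 (-3832, -3220) (by decide +kernel)
       (CovZ.n2 (-3834, -3222) (by decide +kernel)
        (CovZ.leaf K3_ok TO_l2903 _)
        (CovZ.n1 (-3832, -3222) (by decide +kernel)
         (CovZ.leaf K3_ok TO_l2904 _)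
         (CovZ.leaf K3_ok TO_l2905 _)))
       (CovZ.n1 (-3834, -3218) (by decide +kernel)
        (CovZ.n2 (-3832, -3218) (by decide +kernel)
         (CovZ.leaf K3_ok TO_l2906 _)
         (CovZ.leaf K3_ok TO_l2907 _))
        (CovZ.n1 (-3834, -3220) (by decide +kernel)
         (CovZ.leaf K3_ok TO_l2908 _)
         (CovZ.leaf K3_ok TO_l2909 _))))))))

theorem TO_s6_0 : SqZ TO_M TO_L [0, 7, 4, 3] (-3920) (-3232) 16 6 0 :=
  SqZ.mk (a := (-3824)) (b := (-3808)) (c := (-3232)) (d := (-3216)) (by norm_num) (by norm_num) (by norm_num) (by norm_num)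
    (CovZ.topM TO_LL 2 (by decide +kernel) (CovZ.n2 (-3816, -3224) (by decide +kernel)
    (CovZ.badM (by decide +kernel))
    (CovZ.n1 (-3816, -3232) (by decide +kernel)
     (CovZ.n2 (-3820, -3228) (by decide +kernel)
      (CovZ.badM (by decide +kernel))
      (CovZ.n1 (-3820, -3232) (by decide +kernel)
       (CovZ.n2 (-3822, -3230) (by decide +kernel)
        (CovZ.badM (by decide +kernel))
        (CovZ.n1 (-3822, -3232) (by decide +kernel)
         (CovZ.n2 (-3823, -3231) (by decide +kernel)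
          (CovZ.badM (by decide +kernel))
          (CovZ.leaf K3_ok TO_l3503 _))
         (CovZ.badM (by decide +kernel))))
       (CovZ.badM (by decide +kernel))))
     (CovZ.badM (by decide +kernel)))))
    (CovZ.topM TO_LL 2 (by decide +kernel) (CovZ.n0 (-3816, -3224) (by decide +kernel)
    (CovZ.n2 (-3824, -3224) (by decide +kernel)
     (CovZ.badM (by decide +kernel))
     (CovZ.n1 (-3820, -3228) (by decide +kernel)
      (CovZ.n2 (-3824, -3228) (by decide +kernel)
       (CovZ.n2 (-3822, -3226) (by decide +kernel)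
        (CovZ.n2 (-3822, -3228) (by decide +kernel)
         (CovZ.n2 (-3823, -3227) (by decide +kernel)
          (CovZ.badM (by decide +kernel))
          (CovZ.leaf K3_ok TO_l3524 _))
         (CovZ.badM (by decide +kernel)))
        (CovZ.n1 (-3824, -3226) (by decide +kernel)
         (CovZ.badM (by decide +kernel))
         (CovZ.leaf K3_ok TO_l3527 _)))
       (CovZ.n1 (-3822, -3230) (by decide +kernel)
        (CovZ.n2 (-3824, -3230) (by decide +kernel)
         (CovZ.n2 (-3823, -3229) (by decide +kernel)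
          (CovZ.leaf K3_ok TO_l3528 _)
          (CovZ.leaf K3_ok TO_l3529 _))
         (CovZ.leaf K3_ok TO_l3530 _))
        (CovZ.n1 (-3822, -3228) (by decide +kernel)
         (CovZ.badM (by decide +kernel))
         (CovZ.n1 (-3823, -3229) (by decide +kernel)
          (CovZ.leaf K3_ok TO_l3532 _)
          (CovZ.badM (by decide +kernel))))))
      (CovZ.badM (by decide +kernel))))
    (CovZ.badM (by decide +kernel))))

theorem TO_s0_1 : SqZ TO_M TO_L [0, 7, 4, 3] (-3920) (-3232) 16 0 1 :=
  SqZ.mk (a := (-3920)) (b := (-3904)) (c := (-3216)) (d := (-3200)) (by norm_num) (by norm_num) (by norm_num) (by norm_num)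
    (CovZ.topM TO_LL 0 (by decide +kernel) (CovZ.badM (by decide +kernel)))
    (CovZ.topM TO_LL 0 (by decide +kernel) (CovZ.badM (by decide +kernel)))

theorem TO_s1_1 : SqZ TO_M TO_L [0, 7, 4, 3] (-3920) (-3232) 16 1 1 :=
  SqZ.mk (a := (-3904)) (b := (-3888)) (c := (-3216)) (d := (-3200)) (by norm_num) (by norm_num) (by norm_num) (by norm_num)
    (CovZ.topM TO_LL 4 (by decide +kernel) (CovZ.n2 (-3896, -3208) (by decide +kernel)
    (CovZ.n2 (-3888, -3208) (by decide +kernel)
     (CovZ.badM (by decide +kernel))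
     (CovZ.n1 (-3892, -3204) (by decide +kernel)
      (CovZ.n2 (-3888, -3204) (by decide +kernel)
       (CovZ.badM (by decide +kernel))
       (CovZ.n1 (-3890, -3202) (by decide +kernel)
        (CovZ.n2 (-3888, -3202) (by decide +kernel)
         (CovZ.badM (by decide +kernel))
         (CovZ.n1 (-3889, -3201) (by decide +kernel)
          (CovZ.n2 (-3888, -3201) (by decide +kernel)
           (CovZ.badM (by decide +kernel))
           (CovZ.leaf K3_ok TO_l213 _))
          (CovZ.badM (by decide +kernel))))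
        (CovZ.badM (by decide +kernel))))
      (CovZ.badM (by decide +kernel))))
    (CovZ.badM (by decide +kernel))))
    (CovZ.topM TO_LL 4 (by decide +kernel) (CovZ.n0 (-3896, -3208) (by decide +kernel)
    (CovZ.badM (by decide +kernel))
    (CovZ.n1 (-3896, -3200) (by decide +kernel)
     (CovZ.n2 (-3892, -3204) (by decide +kernel)
      (CovZ.badM (by decide +kernel))
      (CovZ.n1 (-3892, -3200) (by decide +kernel)
       (CovZ.n2 (-3890, -3202) (by decide +kernel)
        (CovZ.badM (by decide +kernel))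
        (CovZ.n1 (-3890, -3200) (by decide +kernel)
         (CovZ.n2 (-3889, -3201) (by decide +kernel)
          (CovZ.badM (by decide +kernel))
          (CovZ.leaf K3_ok TO_l271 _))
         (CovZ.badM (by decide +kernel))))
       (CovZ.badM (by decide +kernel))))
     (CovZ.badM (by decide +kernel)))))

theorem TO_s2_1 : SqZ TO_M TO_L [0, 7, 4, 3] (-3920) (-3232) 16 2 1 :=
  SqZ.mk (a := (-3888)) (b := (-3872)) (c := (-3216)) (d := (-3200)) (by norm_num) (by norm_num) (by norm_num) (by norm_num)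
    (CovZ.topM TO_LL 15 (by decide +kernel) (CovZ.n2 (-3880, -3208) (by decide +kernel)
    (CovZ.n2 (-3872, -3208) (by decide +kernel)
     (CovZ.n2 (-3876, -3212) (by decide +kernel)
      (CovZ.n2 (-3876, -3208) (by decide +kernel)
       (CovZ.n2 (-3874, -3210) (by decide +kernel)
        (CovZ.n2 (-3876, -3210) (by decide +kernel)
         (CovZ.leaf K3_ok TO_l597 _)
         (CovZ.leaf K3_ok TO_l598 _))
        (CovZ.n1 (-3874, -3208) (by decide +kernel)
         (CovZ.leaf K3_ok TO_l599 _)
         (CovZ.leaf K3_ok TO_l600 _)))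
       (CovZ.n1 (-3878, -3210) (by decide +kernel)
        (CovZ.n2 (-3878, -3208) (by decide +kernel)
         (CovZ.n2 (-3877, -3209) (by decide +kernel)
          (CovZ.leaf K3_ok TO_l601 _)
          (CovZ.leaf K3_ok TO_l602 _))
         (CovZ.leaf K3_ok TO_l603 _))
        (CovZ.n1 (-3876, -3210) (by decide +kernel)
         (CovZ.leaf K3_ok TO_l604 _)
         (CovZ.leaf K3_ok TO_l605 _))))
      (CovZ.n1 (-3872, -3212) (by decide +kernel)
       (CovZ.n2 (-3874, -3214) (by decide +kernel)
        (CovZ.n2 (-3874, -3212) (by decide +kernel)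
         (CovZ.leaf K3_ok TO_l606 _)
         (CovZ.leaf K3_ok TO_l607 _))
        (CovZ.n1 (-3872, -3214) (by decide +kernel)
         (CovZ.leaf K3_ok TO_l608 _)
         (CovZ.leaf K3_ok TO_l609 _)))
       (CovZ.n1 (-3874, -3210) (by decide +kernel)
        (CovZ.n2 (-3872, -3210) (by decide +kernel)
         (CovZ.leaf K3_ok TO_l610 _)
         (CovZ.leaf K3_ok TO_l611 _))
        (CovZ.n1 (-3874, -3212) (by decide +kernel)
         (CovZ.leaf K3_ok TO_l612 _)
         (CovZ.n1 (-3873, -3211) (by decide +kernel)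
          (CovZ.leaf K3_ok TO_l613 _)
          (CovZ.leaf K3_ok TO_l614 _))))))
     (CovZ.n1 (-3876, -3204) (by decide +kernel)
      (CovZ.n2 (-3872, -3204) (by decide +kernel)
       (CovZ.n2 (-3874, -3206) (by decide +kernel)
        (CovZ.n2 (-3874, -3204) (by decide +kernel)
         (CovZ.leaf K3_ok TO_l615 _)
         (CovZ.leaf K3_ok TO_l616 _))
        (CovZ.n1 (-3872, -3206) (by decide +kernel)
         (CovZ.leaf K3_ok TO_l617 _)
         (CovZ.leaf K3_ok TO_l618 _)))
       (CovZ.n1 (-3874, -3202) (by decide +kernel)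
        (CovZ.n2 (-3872, -3202) (by decide +kernel)
         (CovZ.leaf K3_ok TO_l619 _)
         (CovZ.leaf K3_ok TO_l620 _))
        (CovZ.n1 (-3874, -3204) (by decide +kernel)
         (CovZ.leaf K3_ok TO_l621 _)
         (CovZ.n1 (-3873, -3203) (by decide +kernel)
          (CovZ.leaf K3_ok TO_l622 _)
          (CovZ.leaf K3_ok TO_l623 _)))))
      (CovZ.n1 (-3876, -3208) (by decide +kernel)
       (CovZ.n2 (-3878, -3206) (by decide +kernel)
        (CovZ.n2 (-3876, -3206) (by decide +kernel)
         (CovZ.n2 (-3877, -3207) (by decide +kernel)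
          (CovZ.leaf K3_ok TO_l624 _)
          (CovZ.leaf K3_ok TO_l625 _))
         (CovZ.n1 (-3877, -3205) (by decide +kernel)
          (CovZ.leaf K3_ok TO_l626 _)
          (CovZ.leaf K3_ok TO_l627 _)))
        (CovZ.n1 (-3878, -3208) (by decide +kernel)
         (CovZ.n2 (-3879, -3207) (by decide +kernel)
          (CovZ.leaf K3_ok TO_l628 _)
          (CovZ.leaf K3_ok TO_l629 _))
         (CovZ.leaf K3_ok TO_l630 _)))
       (CovZ.n1 (-3874, -3206) (by decide +kernel)
        (CovZ.n2 (-3874, -3208) (by decide +kernel)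
         (CovZ.leaf K3_ok TO_l631 _)
         (CovZ.n1 (-3873, -3207) (by decide +kernel)
          (CovZ.leaf K3_ok TO_l632 _)
          (CovZ.leaf K3_ok TO_l633 _)))
        (CovZ.n1 (-3876, -3206) (by decide +kernel)
         (CovZ.leaf K3_ok TO_l634 _)
         (CovZ.leaf K3_ok TO_l635 _))))))
    (CovZ.n1 (-3880, -3216) (by decide +kernel)
     (CovZ.n2 (-3884, -3212) (by decide +kernel)
      (CovZ.n2 (-3880, -3212) (by decide +kernel)
       (CovZ.n2 (-3882, -3214) (by decide +kernel)
        (CovZ.n2 (-3882, -3212) (by decide +kernel)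
         (CovZ.leaf K3_ok TO_l636 _)
         (CovZ.n1 (-3883, -3213) (by decide +kernel)
          (CovZ.leaf K3_ok TO_l637 _)
          (CovZ.leaf K3_ok TO_l638 _)))
        (CovZ.n1 (-3880, -3214) (by decide +kernel)
         (CovZ.n2 (-3881, -3215) (by decide +kernel)
          (CovZ.leaf K3_ok TO_l639 _)
          (CovZ.n1 (-3880, -3215) (by decide +kernel)
           (CovZ.leaf K3_ok TO_l640 _)
           (CovZ.leaf K3_ok TO_l641 _)))
         (CovZ.leaf K3_ok TO_l642 _)))
       (CovZ.n1 (-3882, -3210) (by decide +kernel)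
        (CovZ.n2 (-3880, -3210) (by decide +kernel)
         (CovZ.n2 (-3881, -3211) (by decide +kernel)
          (CovZ.leaf K3_ok TO_l643 _)
          (CovZ.leaf K3_ok TO_l644 _))
         (CovZ.n1 (-3881, -3209) (by decide +kernel)
          (CovZ.leaf K3_ok TO_l645 _)
          (CovZ.leaf K3_ok TO_l646 _)))
        (CovZ.n1 (-3882, -3212) (by decide +kernel)
         (CovZ.leaf K3_ok TO_l647 _)
         (CovZ.n1 (-3881, -3211) (by decide +kernel)
          (CovZ.leaf K3_ok TO_l648 _)
          (CovZ.n1 (-3882, -3211) (by decide +kernel)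
           (CovZ.leaf K3_ok TO_l649 _)
           (CovZ.leaf K3_ok TO_l650 _))))))
      (CovZ.n1 (-3884, -3216) (by decide +kernel)
       (CovZ.n2 (-3886, -3214) (by decide +kernel)
        (CovZ.n2 (-3884, -3214) (by decide +kernel)
         (CovZ.n2 (-3885, -3215) (by decide +kernel)
          (CovZ.leaf K3_ok TO_l651 _)
          (CovZ.leaf K3_ok TO_l652 _))
         (CovZ.leaf K3_ok TO_l653 _))
        (CovZ.n1 (-3886, -3216) (by decide +kernel)
         (CovZ.n2 (-3887, -3215) (by decide +kernel)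
          (CovZ.n2 (-3886, -3215) (by decide +kernel)
           (CovZ.leaf K3_ok TO_l654 _)
           (CovZ.leaf K3_ok TO_l655 _))
          (CovZ.leaf K3_ok TO_l656 _))
         (CovZ.n1 (-3885, -3215) (by decide +kernel)
          (CovZ.n2 (-3885, -3216) (by decide +kernel)
           (CovZ.leaf K3_ok TO_l657 _)
           (CovZ.leaf K3_ok TO_l658 _))
          (CovZ.leaf K3_ok TO_l659 _))))
       (CovZ.n1 (-3882, -3214) (by decide +kernel)
        (CovZ.n2 (-3882, -3216) (by decide +kernel)
         (CovZ.leaf K3_ok TO_l660 _)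
         (CovZ.n1 (-3881, -3215) (by decide +kernel)
          (CovZ.leaf K3_ok TO_l661 _)
          (CovZ.leaf K3_ok TO_l662 _)))
        (CovZ.n1 (-3884, -3214) (by decide +kernel)
         (CovZ.n2 (-3883, -3213) (by decide +kernel)
          (CovZ.leaf K3_ok TO_l663 _)
          (CovZ.leaf K3_ok TO_l664 _))
         (CovZ.leaf K3_ok TO_l665 _)))))
     (CovZ.n1 (-3876, -3212) (by decide +kernel)
      (CovZ.n2 (-3876, -3216) (by decide +kernel)
       (CovZ.n2 (-3878, -3214) (by decide +kernel)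
        (CovZ.n2 (-3876, -3214) (by decide +kernel)
         (CovZ.leaf K3_ok TO_l666 _)
         (CovZ.n1 (-3877, -3213) (by decide +kernel)
          (CovZ.leaf K3_ok TO_l667 _)
          (CovZ.n1 (-3877, -3214) (by decide +kernel)
           (CovZ.leaf K3_ok TO_l668 _)
           (CovZ.leaf K3_ok TO_l669 _))))
        (CovZ.n1 (-3878, -3216) (by decide +kernel)
         (CovZ.n2 (-3879, -3215) (by decide +kernel)
          (CovZ.leaf K3_ok TO_l670 _)
          (CovZ.n1 (-3879, -3216) (by decide +kernel)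
           (CovZ.leaf K3_ok TO_l671 _)
           (CovZ.leaf K3_ok TO_l672 _)))
         (CovZ.n1 (-3877, -3215) (by decide +kernel)
          (CovZ.leaf K3_ok TO_l673 _)
          (CovZ.leaf K3_ok TO_l674 _))))
       (CovZ.n1 (-3874, -3214) (by decide +kernel)
        (CovZ.n2 (-3874, -3216) (by decide +kernel)
         (CovZ.leaf K3_ok TO_l675 _)
         (CovZ.leaf K3_ok TO_l676 _))
        (CovZ.n1 (-3876, -3214) (by decide +kernel)
         (CovZ.leaf K3_ok TO_l677 _)
         (CovZ.leaf K3_ok TO_l678 _))))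
      (CovZ.n1 (-3880, -3212) (by decide +kernel)
       (CovZ.n2 (-3878, -3210) (by decide +kernel)
        (CovZ.n2 (-3878, -3212) (by decide +kernel)
         (CovZ.n2 (-3879, -3211) (by decide +kernel)
          (CovZ.leaf K3_ok TO_l679 _)
          (CovZ.leaf K3_ok TO_l680 _))
         (CovZ.leaf K3_ok TO_l681 _))
        (CovZ.n1 (-3880, -3210) (by decide +kernel)
         (CovZ.leaf K3_ok TO_l682 _)
         (CovZ.leaf K3_ok TO_l683 _)))
       (CovZ.n1 (-3878, -3214) (by decide +kernel)
        (CovZ.n2 (-3880, -3214) (by decide +kernel)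
         (CovZ.n2 (-3879, -3213) (by decide +kernel)
          (CovZ.leaf K3_ok TO_l684 _)
          (CovZ.leaf K3_ok TO_l685 _))
         (CovZ.leaf K3_ok TO_l686 _))
        (CovZ.n1 (-3878, -3212) (by decide +kernel)
         (CovZ.leaf K3_ok TO_l687 _)
         (CovZ.leaf K3_ok TO_l688 _))))))))
    (CovZ.topM TO_LL 15 (by decide +kernel) (CovZ.n0 (-3880, -3208) (by decide +kernel)
    (CovZ.n2 (-3888, -3208) (by decide +kernel)
     (CovZ.n2 (-3884, -3204) (by decide +kernel)
      (CovZ.n2 (-3884, -3208) (by decide +kernel)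
       (CovZ.n2 (-3886, -3206) (by decide +kernel)
        (CovZ.n2 (-3884, -3206) (by decide +kernel)
         (CovZ.n2 (-3885, -3207) (by decide +kernel)
          (CovZ.leaf K3_ok TO_l689 _)
          (CovZ.leaf K3_ok TO_l690 _))
         (CovZ.n1 (-3885, -3205) (by decide +kernel)
          (CovZ.n2 (-3884, -3205) (by decide +kernel)
           (CovZ.leaf K3_ok TO_l691 _)
           (CovZ.leaf K3_ok TO_l692 _))
          (CovZ.leaf K3_ok TO_l693 _)))
        (CovZ.n1 (-3886, -3208) (by decide +kernel)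
         (CovZ.badM (by decide +kernel))
         (CovZ.n1 (-3885, -3207) (by decide +kernel)
          (CovZ.leaf K3_ok TO_l698 _)
          (CovZ.leaf K3_ok TO_l699 _))))
       (CovZ.n1 (-3882, -3206) (by decide +kernel)
        (CovZ.n2 (-3882, -3208) (by decide +kernel)
         (CovZ.n2 (-3883, -3207) (by decide +kernel)
          (CovZ.leaf K3_ok TO_l700 _)
          (CovZ.leaf K3_ok TO_l701 _))
         (CovZ.n1 (-3881, -3207) (by decide +kernel)
          (CovZ.leaf K3_ok TO_l702 _)
          (CovZ.leaf K3_ok TO_l703 _)))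
        (CovZ.n1 (-3884, -3206) (by decide +kernel)
         (CovZ.n2 (-3883, -3205) (by decide +kernel)
          (CovZ.leaf K3_ok TO_l704 _)
          (CovZ.leaf K3_ok TO_l705 _))
         (CovZ.leaf K3_ok TO_l706 _))))
      (CovZ.n1 (-3888, -3204) (by decide +kernel)
       (CovZ.n2 (-3886, -3202) (by decide +kernel)
        (CovZ.n2 (-3886, -3204) (by decide +kernel)
         (CovZ.badM (by decide +kernel))
         (CovZ.n1 (-3885, -3203) (by decide +kernel)
          (CovZ.n2 (-3885, -3204) (by decide +kernel)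
           (CovZ.leaf K3_ok TO_l709 _)
           (CovZ.leaf K3_ok TO_l710 _))
          (CovZ.leaf K3_ok TO_l711 _)))
        (CovZ.n1 (-3888, -3202) (by decide +kernel)
         (CovZ.n2 (-3887, -3201) (by decide +kernel)
          (CovZ.leaf K3_ok TO_l712 _)
          (CovZ.n1 (-3888, -3201) (by decide +kernel)
           (CovZ.leaf K3_ok TO_l713 _)
           (CovZ.leaf K3_ok TO_l714 _)))
         (CovZ.badM (by decide +kernel))))
       (CovZ.n1 (-3886, -3206) (by decide +kernel)
        (CovZ.badM (by decide +kernel))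
        (CovZ.n1 (-3886, -3204) (by decide +kernel)
         (CovZ.n2 (-3885, -3205) (by decide +kernel)
          (CovZ.leaf K3_ok TO_l722 _)
          (CovZ.leaf K3_ok TO_l723 _))
         (CovZ.badM (by decide +kernel))))))
     (CovZ.n1 (-3884, -3212) (by decide +kernel)
      (CovZ.n2 (-3888, -3212) (by decide +kernel)
       (CovZ.n2 (-3886, -3210) (by decide +kernel)
        (CovZ.n2 (-3886, -3212) (by decide +kernel)
         (CovZ.n2 (-3887, -3211) (by decide +kernel)
          (CovZ.leaf K3_ok TO_l726 _)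
          (CovZ.leaf K3_ok TO_l727 _))
         (CovZ.n1 (-3885, -3211) (by decide +kernel)
          (CovZ.n2 (-3885, -3212) (by decide +kernel)
           (CovZ.leaf K3_ok TO_l728 _)
           (CovZ.leaf K3_ok TO_l729 _))
          (CovZ.leaf K3_ok TO_l730 _)))
        (CovZ.n1 (-3888, -3210) (by decide +kernel)
         (CovZ.n2 (-3887, -3209) (by decide +kernel)
          (CovZ.leaf K3_ok TO_l731 _)
          (CovZ.badM (by decide +kernel)))
         (CovZ.n1 (-3887, -3211) (by decide +kernel)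
          (CovZ.badM (by decide +kernel))
          (CovZ.leaf K3_ok TO_l734 _))))
       (CovZ.n1 (-3886, -3214) (by decide +kernel)
        (CovZ.n2 (-3888, -3214) (by decide +kernel)
         (CovZ.n2 (-3887, -3213) (by decide +kernel)
          (CovZ.n2 (-3887, -3214) (by decide +kernel)
           (CovZ.badM (by decide +kernel))
           (CovZ.leaf K3_ok TO_l736 _))
          (CovZ.badM (by decide +kernel)))
         (CovZ.n1 (-3887, -3215) (by decide +kernel)
          (CovZ.badM (by decide +kernel))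
          (CovZ.leaf K3_ok TO_l739 _)))
        (CovZ.n1 (-3886, -3212) (by decide +kernel)
         (CovZ.leaf K3_ok TO_l740 _)
         (CovZ.n1 (-3887, -3213) (by decide +kernel)
          (CovZ.leaf K3_ok TO_l741 _)
          (CovZ.leaf K3_ok TO_l742 _)))))
      (CovZ.n1 (-3884, -3208) (by decide +kernel)
       (CovZ.n2 (-3882, -3210) (by decide +kernel)
        (CovZ.n2 (-3884, -3210) (by decide +kernel)
         (CovZ.n2 (-3883, -3209) (by decide +kernel)
          (CovZ.leaf K3_ok TO_l743 _)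
          (CovZ.leaf K3_ok TO_l744 _))
         (CovZ.n1 (-3883, -3211) (by decide +kernel)
          (CovZ.leaf K3_ok TO_l745 _)
          (CovZ.leaf K3_ok TO_l746 _)))
        (CovZ.n1 (-3882, -3208) (by decide +kernel)
         (CovZ.leaf K3_ok TO_l747 _)
         (CovZ.n1 (-3883, -3209) (by decide +kernel)
          (CovZ.leaf K3_ok TO_l748 _)
          (CovZ.leaf K3_ok TO_l749 _))))
       (CovZ.n1 (-3886, -3210) (by decide +kernel)
        (CovZ.n2 (-3886, -3208) (by decide +kernel)
         (CovZ.n2 (-3885, -3209) (by decide +kernel)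
          (CovZ.leaf K3_ok TO_l750 _)
          (CovZ.leaf K3_ok TO_l751 _))
         (CovZ.n1 (-3887, -3209) (by decide +kernel)
          (CovZ.badM (by decide +kernel))
          (CovZ.n1 (-3886, -3209) (by decide +kernel)
           (CovZ.leaf K3_ok TO_l753 _)
           (CovZ.leaf K3_ok TO_l754 _))))
        (CovZ.n1 (-3884, -3210) (by decide +kernel)
         (CovZ.n2 (-3885, -3211) (by decide +kernel)
          (CovZ.leaf K3_ok TO_l755 _)
          (CovZ.n1 (-3884, -3211) (by decide +kernel)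
           (CovZ.leaf K3_ok TO_l756 _)
           (CovZ.leaf K3_ok TO_l757 _)))
         (CovZ.leaf K3_ok TO_l758 _))))))
    (CovZ.n1 (-3880, -3200) (by decide +kernel)
     (CovZ.n2 (-3876, -3204) (by decide +kernel)
      (CovZ.n2 (-3880, -3204) (by decide +kernel)
       (CovZ.n2 (-3878, -3202) (by decide +kernel)
        (CovZ.n2 (-3878, -3204) (by decide +kernel)
         (CovZ.n2 (-3879, -3203) (by decide +kernel)
          (CovZ.leaf K3_ok TO_l759 _)
          (CovZ.leaf K3_ok TO_l760 _))
         (CovZ.n1 (-3877, -3203) (by decide +kernel)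
          (CovZ.n2 (-3877, -3204) (by decide +kernel)
           (CovZ.leaf K3_ok TO_l761 _)
           (CovZ.leaf K3_ok TO_l762 _))
          (CovZ.leaf K3_ok TO_l763 _)))
        (CovZ.n1 (-3880, -3202) (by decide +kernel)
         (CovZ.n2 (-3879, -3201) (by decide +kernel)
          (CovZ.leaf K3_ok TO_l764 _)
          (CovZ.leaf K3_ok TO_l765 _))
         (CovZ.leaf K3_ok TO_l766 _)))
       (CovZ.n1 (-3878, -3206) (by decide +kernel)
        (CovZ.n2 (-3880, -3206) (by decide +kernel)
         (CovZ.n2 (-3879, -3205) (by decide +kernel)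
          (CovZ.leaf K3_ok TO_l767 _)
          (CovZ.leaf K3_ok TO_l768 _))
         (CovZ.n1 (-3879, -3207) (by decide +kernel)
          (CovZ.leaf K3_ok TO_l769 _)
          (CovZ.leaf K3_ok TO_l770 _)))
        (CovZ.n1 (-3878, -3204) (by decide +kernel)
         (CovZ.leaf K3_ok TO_l771 _)
         (CovZ.n1 (-3879, -3205) (by decide +kernel)
          (CovZ.leaf K3_ok TO_l772 _)
          (CovZ.leaf K3_ok TO_l773 _)))))
      (CovZ.n1 (-3876, -3200) (by decide +kernel)
       (CovZ.n2 (-3874, -3202) (by decide +kernel)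
        (CovZ.n2 (-3876, -3202) (by decide +kernel)
         (CovZ.n2 (-3875, -3201) (by decide +kernel)
          (CovZ.leaf K3_ok TO_l774 _)
          (CovZ.leaf K3_ok TO_l775 _))
         (CovZ.leaf K3_ok TO_l776 _))
        (CovZ.n1 (-3874, -3200) (by decide +kernel)
         (CovZ.leaf K3_ok TO_l777 _)
         (CovZ.n1 (-3875, -3201) (by decide +kernel)
          (CovZ.leaf K3_ok TO_l778 _)
          (CovZ.leaf K3_ok TO_l779 _))))
       (CovZ.n1 (-3878, -3202) (by decide +kernel)
        (CovZ.n2 (-3878, -3200) (by decide +kernel)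
         (CovZ.leaf K3_ok TO_l780 _)
         (CovZ.n1 (-3879, -3201) (by decide +kernel)
          (CovZ.leaf K3_ok TO_l781 _)
          (CovZ.leaf K3_ok TO_l782 _)))
        (CovZ.n1 (-3876, -3202) (by decide +kernel)
         (CovZ.n2 (-3877, -3203) (by decide +kernel)
          (CovZ.leaf K3_ok TO_l783 _)
          (CovZ.leaf K3_ok TO_l784 _))
         (CovZ.leaf K3_ok TO_l785 _)))))
     (CovZ.n1 (-3884, -3204) (by decide +kernel)
      (CovZ.n2 (-3884, -3200) (by decide +kernel)
       (CovZ.n2 (-3882, -3202) (by decide +kernel)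
        (CovZ.n2 (-3884, -3202) (by decide +kernel)
         (CovZ.n2 (-3883, -3201) (by decide +kernel)
          (CovZ.leaf K3_ok TO_l786 _)
          (CovZ.leaf K3_ok TO_l787 _))
         (CovZ.n1 (-3883, -3203) (by decide +kernel)
          (CovZ.leaf K3_ok TO_l788 _)
          (CovZ.leaf K3_ok TO_l789 _)))
        (CovZ.n1 (-3882, -3200) (by decide +kernel)
         (CovZ.n2 (-3881, -3201) (by decide +kernel)
          (CovZ.leaf K3_ok TO_l790 _)
          (CovZ.leaf K3_ok TO_l791 _))
         (CovZ.n1 (-3883, -3201) (by decide +kernel)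
          (CovZ.leaf K3_ok TO_l792 _)
          (CovZ.leaf K3_ok TO_l793 _))))
       (CovZ.n1 (-3886, -3202) (by decide +kernel)
        (CovZ.n2 (-3886, -3200) (by decide +kernel)
         (CovZ.n2 (-3885, -3201) (by decide +kernel)
          (CovZ.leaf K3_ok TO_l794 _)
          (CovZ.leaf K3_ok TO_l795 _))
         (CovZ.n1 (-3887, -3201) (by decide +kernel)
          (CovZ.leaf K3_ok TO_l796 _)
          (CovZ.leaf K3_ok TO_l797 _)))
        (CovZ.n1 (-3884, -3202) (by decide +kernel)
         (CovZ.n2 (-3885, -3203) (by decide +kernel)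
          (CovZ.leaf K3_ok TO_l798 _)
          (CovZ.leaf K3_ok TO_l799 _))
         (CovZ.n1 (-3885, -3201) (by decide +kernel)
          (CovZ.n2 (-3884, -3201) (by decide +kernel)
           (CovZ.leaf K3_ok TO_l800 _)
           (CovZ.leaf K3_ok TO_l801 _))
          (CovZ.leaf K3_ok TO_l802 _)))))
      (CovZ.n1 (-3880, -3204) (by decide +kernel)
       (CovZ.n2 (-3882, -3206) (by decide +kernel)
        (CovZ.n2 (-3882, -3204) (by decide +kernel)
         (CovZ.n2 (-3881, -3205) (by decide +kernel)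
          (CovZ.leaf K3_ok TO_l803 _)
          (CovZ.n1 (-3881, -3204) (by decide +kernel)
           (CovZ.leaf K3_ok TO_l804 _)
           (CovZ.leaf K3_ok TO_l805 _)))
         (CovZ.n1 (-3883, -3205) (by decide +kernel)
          (CovZ.leaf K3_ok TO_l806 _)
          (CovZ.leaf K3_ok TO_l807 _)))
        (CovZ.n1 (-3880, -3206) (by decide +kernel)
         (CovZ.leaf K3_ok TO_l808 _)
         (CovZ.leaf K3_ok TO_l809 _)))
       (CovZ.n1 (-3882, -3202) (by decide +kernel)
        (CovZ.n2 (-3880, -3202) (by decide +kernel)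
         (CovZ.n2 (-3881, -3203) (by decide +kernel)
          (CovZ.leaf K3_ok TO_l810 _)
          (CovZ.leaf K3_ok TO_l811 _))
         (CovZ.n1 (-3881, -3201) (by decide +kernel)
          (CovZ.leaf K3_ok TO_l812 _)
          (CovZ.leaf K3_ok TO_l813 _)))
        (CovZ.n1 (-3882, -3204) (by decide +kernel)
         (CovZ.n2 (-3883, -3203) (by decide +kernel)
          (CovZ.leaf K3_ok TO_l814 _)
          (CovZ.leaf K3_ok TO_l815 _))
         (CovZ.n1 (-3881, -3203) (by decide +kernel)
          (CovZ.leaf K3_ok TO_l816 _)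
          (CovZ.leaf K3_ok TO_l817 _)))))))))

theorem TO_s3_1 : SqZ TO_M TO_L [0, 7, 4, 3] (-3920) (-3232) 16 3 1 :=
  SqZ.mk (a := (-3872)) (b := (-3856)) (c := (-3216)) (d := (-3200)) (by norm_num) (by norm_num) (by norm_num) (by norm_num)
    (CovZ.topM TO_LL 15 (by decide +kernel) (CovZ.n2 (-3864, -3208) (by decide +kernel)
    (CovZ.n2 (-3856, -3208) (by decide +kernel)
     (CovZ.n2 (-3860, -3212) (by decide +kernel)
      (CovZ.n2 (-3860, -3208) (by decide +kernel)
       (CovZ.n2 (-3858, -3210) (by decide +kernel)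
        (CovZ.n2 (-3860, -3210) (by decide +kernel)
         (CovZ.leaf K3_ok TO_l1737 _)
         (CovZ.leaf K3_ok TO_l1738 _))
        (CovZ.leaf K3_ok TO_l1739 _))
       (CovZ.n1 (-3862, -3210) (by decide +kernel)
        (CovZ.leaf K3_ok TO_l1740 _)
        (CovZ.n1 (-3860, -3210) (by decide +kernel)
         (CovZ.leaf K3_ok TO_l1741 _)
         (CovZ.leaf K3_ok TO_l1742 _))))
      (CovZ.n1 (-3856, -3212) (by decide +kernel)
       (CovZ.n2 (-3858, -3214) (by decide +kernel)
        (CovZ.n2 (-3858, -3212) (by decide +kernel)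
         (CovZ.leaf K3_ok TO_l1743 _)
         (CovZ.leaf K3_ok TO_l1744 _))
        (CovZ.n1 (-3856, -3214) (by decide +kernel)
         (CovZ.leaf K3_ok TO_l1745 _)
         (CovZ.leaf K3_ok TO_l1746 _)))
       (CovZ.n1 (-3858, -3210) (by decide +kernel)
        (CovZ.n2 (-3856, -3210) (by decide +kernel)
         (CovZ.leaf K3_ok TO_l1747 _)
         (CovZ.leaf K3_ok TO_l1748 _))
        (CovZ.n1 (-3858, -3212) (by decide +kernel)
         (CovZ.leaf K3_ok TO_l1749 _)
         (CovZ.leaf K3_ok TO_l1750 _)))))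
     (CovZ.n1 (-3860, -3204) (by decide +kernel)
      (CovZ.n2 (-3856, -3204) (by decide +kernel)
       (CovZ.n2 (-3858, -3206) (by decide +kernel)
        (CovZ.leaf K3_ok TO_l1751 _)
        (CovZ.n1 (-3856, -3206) (by decide +kernel)
         (CovZ.leaf K3_ok TO_l1752 _)
         (CovZ.leaf K3_ok TO_l1753 _)))
       (CovZ.n1 (-3858, -3202) (by decide +kernel)
        (CovZ.n2 (-3856, -3202) (by decide +kernel)
         (CovZ.leaf K3_ok TO_l1754 _)
         (CovZ.leaf K3_ok TO_l1755 _))
        (CovZ.n1 (-3858, -3204) (by decide +kernel)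
         (CovZ.leaf K3_ok TO_l1756 _)
         (CovZ.leaf K3_ok TO_l1757 _))))
      (CovZ.n1 (-3860, -3208) (by decide +kernel)
       (CovZ.n2 (-3862, -3206) (by decide +kernel)
        (CovZ.n2 (-3860, -3206) (by decide +kernel)
         (CovZ.leaf K3_ok TO_l1758 _)
         (CovZ.leaf K3_ok TO_l1759 _))
        (CovZ.n1 (-3862, -3208) (by decide +kernel)
         (CovZ.leaf K3_ok TO_l1760 _)
         (CovZ.leaf K3_ok TO_l1761 _)))
       (CovZ.n1 (-3858, -3206) (by decide +kernel)
        (CovZ.n2 (-3858, -3208) (by decide +kernel)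
         (CovZ.leaf K3_ok TO_l1762 _)
         (CovZ.leaf K3_ok TO_l1763 _))
        (CovZ.n1 (-3860, -3206) (by decide +kernel)
         (CovZ.leaf K3_ok TO_l1764 _)
         (CovZ.leaf K3_ok TO_l1765 _))))))
    (CovZ.n1 (-3864, -3216) (by decide +kernel)
     (CovZ.n2 (-3868, -3212) (by decide +kernel)
      (CovZ.n2 (-3864, -3212) (by decide +kernel)
       (CovZ.n2 (-3866, -3214) (by decide +kernel)
        (CovZ.leaf K3_ok TO_l1766 _)
        (CovZ.n1 (-3864, -3214) (by decide +kernel)
         (CovZ.leaf K3_ok TO_l1767 _)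
         (CovZ.leaf K3_ok TO_l1768 _)))
       (CovZ.n1 (-3866, -3210) (by decide +kernel)
        (CovZ.n2 (-3864, -3210) (by decide +kernel)
         (CovZ.leaf K3_ok TO_l1769 _)
         (CovZ.leaf K3_ok TO_l1770 _))
        (CovZ.n1 (-3866, -3212) (by decide +kernel)
         (CovZ.leaf K3_ok TO_l1771 _)
         (CovZ.n1 (-3865, -3211) (by decide +kernel)
          (CovZ.leaf K3_ok TO_l1772 _)
          (CovZ.leaf K3_ok TO_l1773 _)))))
      (CovZ.n1 (-3868, -3216) (by decide +kernel)
       (CovZ.n2 (-3870, -3214) (by decide +kernel)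
        (CovZ.n2 (-3868, -3214) (by decide +kernel)
         (CovZ.leaf K3_ok TO_l1774 _)
         (CovZ.n1 (-3869, -3213) (by decide +kernel)
          (CovZ.leaf K3_ok TO_l1775 _)
          (CovZ.leaf K3_ok TO_l1776 _)))
        (CovZ.n1 (-3870, -3216) (by decide +kernel)
         (CovZ.leaf K3_ok TO_l1777 _)
         (CovZ.leaf K3_ok TO_l1778 _)))
       (CovZ.n1 (-3866, -3214) (by decide +kernel)
        (CovZ.n2 (-3866, -3216) (by decide +kernel)
         (CovZ.leaf K3_ok TO_l1779 _)
         (CovZ.leaf K3_ok TO_l1780 _))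
        (CovZ.n1 (-3868, -3214) (by decide +kernel)
         (CovZ.leaf K3_ok TO_l1781 _)
         (CovZ.leaf K3_ok TO_l1782 _)))))
     (CovZ.n1 (-3860, -3212) (by decide +kernel)
      (CovZ.n2 (-3860, -3216) (by decide +kernel)
       (CovZ.n2 (-3862, -3214) (by decide +kernel)
        (CovZ.n2 (-3860, -3214) (by decide +kernel)
         (CovZ.leaf K3_ok TO_l1783 _)
         (CovZ.leaf K3_ok TO_l1784 _))
        (CovZ.n1 (-3862, -3216) (by decide +kernel)
         (CovZ.leaf K3_ok TO_l1785 _)
         (CovZ.leaf K3_ok TO_l1786 _)))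
       (CovZ.n1 (-3858, -3214) (by decide +kernel)
        (CovZ.n2 (-3858, -3216) (by decide +kernel)
         (CovZ.leaf K3_ok TO_l1787 _)
         (CovZ.leaf K3_ok TO_l1788 _))
        (CovZ.n1 (-3860, -3214) (by decide +kernel)
         (CovZ.leaf K3_ok TO_l1789 _)
         (CovZ.leaf K3_ok TO_l1790 _))))
      (CovZ.n1 (-3864, -3212) (by decide +kernel)
       (CovZ.n2 (-3862, -3210) (by decide +kernel)
        (CovZ.n2 (-3862, -3212) (by decide +kernel)
         (CovZ.leaf K3_ok TO_l1791 _)
         (CovZ.leaf K3_ok TO_l1792 _))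
        (CovZ.n1 (-3864, -3210) (by decide +kernel)
         (CovZ.leaf K3_ok TO_l1793 _)
         (CovZ.leaf K3_ok TO_l1794 _)))
       (CovZ.n1 (-3862, -3214) (by decide +kernel)
        (CovZ.n2 (-3864, -3214) (by decide +kernel)
         (CovZ.leaf K3_ok TO_l1795 _)
         (CovZ.leaf K3_ok TO_l1796 _))
        (CovZ.leaf K3_ok TO_l1797 _)))))))
    (CovZ.topM TO_LL 15 (by decide +kernel) (CovZ.n0 (-3864, -3208) (by decide +kernel)
    (CovZ.n2 (-3872, -3208) (by decide +kernel)
     (CovZ.n2 (-3868, -3204) (by decide +kernel)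
      (CovZ.n2 (-3868, -3208) (by decide +kernel)
       (CovZ.n2 (-3870, -3206) (by decide +kernel)
        (CovZ.n2 (-3868, -3206) (by decide +kernel)
         (CovZ.leaf K3_ok TO_l1798 _)
         (CovZ.leaf K3_ok TO_l1799 _))
        (CovZ.n1 (-3870, -3208) (by decide +kernel)
         (CovZ.leaf K3_ok TO_l1800 _)
         (CovZ.leaf K3_ok TO_l1801 _)))
       (CovZ.n1 (-3866, -3206) (by decide +kernel)
        (CovZ.n2 (-3866, -3208) (by decide +kernel)
         (CovZ.leaf K3_ok TO_l1802 _)
         (CovZ.leaf K3_ok TO_l1803 _))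
        (CovZ.n1 (-3868, -3206) (by decide +kernel)
         (CovZ.leaf K3_ok TO_l1804 _)
         (CovZ.leaf K3_ok TO_l1805 _))))
      (CovZ.n1 (-3872, -3204) (by decide +kernel)
       (CovZ.n2 (-3870, -3202) (by decide +kernel)
        (CovZ.n2 (-3870, -3204) (by decide +kernel)
         (CovZ.leaf K3_ok TO_l1806 _)
         (CovZ.leaf K3_ok TO_l1807 _))
        (CovZ.n1 (-3872, -3202) (by decide +kernel)
         (CovZ.leaf K3_ok TO_l1808 _)
         (CovZ.leaf K3_ok TO_l1809 _)))
       (CovZ.n1 (-3870, -3206) (by decide +kernel)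
        (CovZ.n2 (-3872, -3206) (by decide +kernel)
         (CovZ.leaf K3_ok TO_l1810 _)
         (CovZ.leaf K3_ok TO_l1811 _))
        (CovZ.n1 (-3870, -3204) (by decide +kernel)
         (CovZ.leaf K3_ok TO_l1812 _)
         (CovZ.leaf K3_ok TO_l1813 _)))))
     (CovZ.n1 (-3868, -3212) (by decide +kernel)
      (CovZ.n2 (-3872, -3212) (by decide +kernel)
       (CovZ.n2 (-3870, -3210) (by decide +kernel)
        (CovZ.n2 (-3870, -3212) (by decide +kernel)
         (CovZ.leaf K3_ok TO_l1814 _)
         (CovZ.leaf K3_ok TO_l1815 _))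
        (CovZ.n1 (-3872, -3210) (by decide +kernel)
         (CovZ.leaf K3_ok TO_l1816 _)
         (CovZ.leaf K3_ok TO_l1817 _)))
       (CovZ.n1 (-3870, -3214) (by decide +kernel)
        (CovZ.n2 (-3872, -3214) (by decide +kernel)
         (CovZ.n2 (-3871, -3213) (by decide +kernel)
          (CovZ.leaf K3_ok TO_l1818 _)
          (CovZ.leaf K3_ok TO_l1819 _))
         (CovZ.leaf K3_ok TO_l1820 _))
        (CovZ.n1 (-3870, -3212) (by decide +kernel)
         (CovZ.leaf K3_ok TO_l1821 _)
         (CovZ.leaf K3_ok TO_l1822 _))))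
      (CovZ.n1 (-3868, -3208) (by decide +kernel)
       (CovZ.n2 (-3866, -3210) (by decide +kernel)
        (CovZ.n2 (-3868, -3210) (by decide +kernel)
         (CovZ.n2 (-3867, -3209) (by decide +kernel)
          (CovZ.leaf K3_ok TO_l1823 _)
          (CovZ.leaf K3_ok TO_l1824 _))
         (CovZ.leaf K3_ok TO_l1825 _))
        (CovZ.leaf K3_ok TO_l1826 _))
       (CovZ.n1 (-3870, -3210) (by decide +kernel)
        (CovZ.n2 (-3870, -3208) (by decide +kernel)
         (CovZ.leaf K3_ok TO_l1827 _)
         (CovZ.leaf K3_ok TO_l1828 _))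
        (CovZ.n1 (-3868, -3210) (by decide +kernel)
         (CovZ.leaf K3_ok TO_l1829 _)
         (CovZ.leaf K3_ok TO_l1830 _))))))
    (CovZ.n1 (-3864, -3200) (by decide +kernel)
     (CovZ.n2 (-3860, -3204) (by decide +kernel)
      (CovZ.n2 (-3864, -3204) (by decide +kernel)
       (CovZ.n2 (-3862, -3202) (by decide +kernel)
        (CovZ.n2 (-3862, -3204) (by decide +kernel)
         (CovZ.leaf K3_ok TO_l1831 _)
         (CovZ.leaf K3_ok TO_l1832 _))
        (CovZ.n1 (-3864, -3202) (by decide +kernel)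
         (CovZ.leaf K3_ok TO_l1833 _)
         (CovZ.leaf K3_ok TO_l1834 _)))
       (CovZ.n1 (-3862, -3206) (by decide +kernel)
        (CovZ.n2 (-3864, -3206) (by decide +kernel)
         (CovZ.leaf K3_ok TO_l1835 _)
         (CovZ.leaf K3_ok TO_l1836 _))
        (CovZ.n1 (-3862, -3204) (by decide +kernel)
         (CovZ.leaf K3_ok TO_l1837 _)
         (CovZ.leaf K3_ok TO_l1838 _))))
      (CovZ.n1 (-3860, -3200) (by decide +kernel)
       (CovZ.n2 (-3858, -3202) (by decide +kernel)
        (CovZ.n2 (-3860, -3202) (by decide +kernel)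
         (CovZ.leaf K3_ok TO_l1839 _)
         (CovZ.leaf K3_ok TO_l1840 _))
        (CovZ.n1 (-3858, -3200) (by decide +kernel)
         (CovZ.leaf K3_ok TO_l1841 _)
         (CovZ.leaf K3_ok TO_l1842 _)))
       (CovZ.n1 (-3862, -3202) (by decide +kernel)
        (CovZ.leaf K3_ok TO_l1843 _)
        (CovZ.n1 (-3860, -3202) (by decide +kernel)
         (CovZ.leaf K3_ok TO_l1844 _)
         (CovZ.leaf K3_ok TO_l1845 _)))))
     (CovZ.n1 (-3868, -3204) (by decide +kernel)
      (CovZ.n2 (-3868, -3200) (by decide +kernel)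
       (CovZ.n2 (-3866, -3202) (by decide +kernel)
        (CovZ.n2 (-3868, -3202) (by decide +kernel)
         (CovZ.leaf K3_ok TO_l1846 _)
         (CovZ.leaf K3_ok TO_l1847 _))
        (CovZ.n1 (-3866, -3200) (by decide +kernel)
         (CovZ.leaf K3_ok TO_l1848 _)
         (CovZ.leaf K3_ok TO_l1849 _)))
       (CovZ.n1 (-3870, -3202) (by decide +kernel)
        (CovZ.n2 (-3870, -3200) (by decide +kernel)
         (CovZ.leaf K3_ok TO_l1850 _)
         (CovZ.leaf K3_ok TO_l1851 _))
        (CovZ.n1 (-3868, -3202) (by decide +kernel)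
         (CovZ.leaf K3_ok TO_l1852 _)
         (CovZ.leaf K3_ok TO_l1853 _))))
      (CovZ.n1 (-3864, -3204) (by decide +kernel)
       (CovZ.n2 (-3866, -3206) (by decide +kernel)
        (CovZ.leaf K3_ok TO_l1854 _)
        (CovZ.n1 (-3864, -3206) (by decide +kernel)
         (CovZ.leaf K3_ok TO_l1855 _)
         (CovZ.leaf K3_ok TO_l1856 _)))
       (CovZ.n1 (-3866, -3202) (by decide +kernel)
        (CovZ.n2 (-3864, -3202) (by decide +kernel)
         (CovZ.leaf K3_ok TO_l1857 _)
         (CovZ.leaf K3_ok TO_l1858 _))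
        (CovZ.n1 (-3866, -3204) (by decide +kernel)
         (CovZ.leaf K3_ok TO_l1859 _)
         (CovZ.leaf K3_ok TO_l1860 _))))))))

theorem TO_s4_1 : SqZ TO_M TO_L [0, 7, 4, 3] (-3920) (-3232) 16 4 1 :=
  SqZ.mk (a := (-3856)) (b := (-3840)) (c := (-3216)) (d := (-3200)) (by norm_num) (by norm_num) (by norm_num) (by norm_num)
    (CovZ.topM TO_LL 15 (by decide +kernel) (CovZ.n2 (-3848, -3208) (by decide +kernel)
    (CovZ.n2 (-3840, -3208) (by decide +kernel)
     (CovZ.n2 (-3844, -3212) (by decide +kernel)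
      (CovZ.n2 (-3844, -3208) (by decide +kernel)
       (CovZ.n2 (-3842, -3210) (by decide +kernel)
        (CovZ.leaf K3_ok TO_l2380 _)
        (CovZ.leaf K3_ok TO_l2381 _))
       (CovZ.n1 (-3846, -3210) (by decide +kernel)
        (CovZ.leaf K3_ok TO_l2382 _)
        (CovZ.leaf K3_ok TO_l2383 _)))
      (CovZ.n1 (-3840, -3212) (by decide +kernel)
       (CovZ.n2 (-3842, -3214) (by decide +kernel)
        (CovZ.leaf K3_ok TO_l2384 _)
        (CovZ.leaf K3_ok TO_l2385 _))
       (CovZ.n1 (-3842, -3210) (by decide +kernel)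
        (CovZ.leaf K3_ok TO_l2386 _)
        (CovZ.leaf K3_ok TO_l2387 _))))
     (CovZ.n1 (-3844, -3204) (by decide +kernel)
      (CovZ.n2 (-3840, -3204) (by decide +kernel)
       (CovZ.n2 (-3842, -3206) (by decide +kernel)
        (CovZ.leaf K3_ok TO_l2388 _)
        (CovZ.leaf K3_ok TO_l2389 _))
       (CovZ.n1 (-3842, -3202) (by decide +kernel)
        (CovZ.leaf K3_ok TO_l2390 _)
        (CovZ.n1 (-3842, -3204) (by decide +kernel)
         (CovZ.leaf K3_ok TO_l2391 _)
         (CovZ.leaf K3_ok TO_l2392 _))))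
      (CovZ.n1 (-3844, -3208) (by decide +kernel)
       (CovZ.n2 (-3846, -3206) (by decide +kernel)
        (CovZ.n2 (-3844, -3206) (by decide +kernel)
         (CovZ.leaf K3_ok TO_l2393 _)
         (CovZ.leaf K3_ok TO_l2394 _))
        (CovZ.n1 (-3846, -3208) (by decide +kernel)
         (CovZ.leaf K3_ok TO_l2395 _)
         (CovZ.leaf K3_ok TO_l2396 _)))
       (CovZ.n1 (-3842, -3206) (by decide +kernel)
        (CovZ.leaf K3_ok TO_l2397 _)
        (CovZ.leaf K3_ok TO_l2398 _)))))
    (CovZ.n1 (-3848, -3216) (by decide +kernel)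
     (CovZ.n2 (-3852, -3212) (by decide +kernel)
      (CovZ.n2 (-3848, -3212) (by decide +kernel)
       (CovZ.n2 (-3850, -3214) (by decide +kernel)
        (CovZ.leaf K3_ok TO_l2399 _)
        (CovZ.n1 (-3848, -3214) (by decide +kernel)
         (CovZ.leaf K3_ok TO_l2400 _)
         (CovZ.leaf K3_ok TO_l2401 _)))
       (CovZ.n1 (-3850, -3210) (by decide +kernel)
        (CovZ.n2 (-3848, -3210) (by decide +kernel)
         (CovZ.leaf K3_ok TO_l2402 _)
         (CovZ.leaf K3_ok TO_l2403 _))
        (CovZ.n1 (-3850, -3212) (by decide +kernel)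
         (CovZ.leaf K3_ok TO_l2404 _)
         (CovZ.leaf K3_ok TO_l2405 _))))
      (CovZ.n1 (-3852, -3216) (by decide +kernel)
       (CovZ.n2 (-3854, -3214) (by decide +kernel)
        (CovZ.n2 (-3852, -3214) (by decide +kernel)
         (CovZ.leaf K3_ok TO_l2406 _)
         (CovZ.leaf K3_ok TO_l2407 _))
        (CovZ.n1 (-3854, -3216) (by decide +kernel)
         (CovZ.leaf K3_ok TO_l2408 _)
         (CovZ.leaf K3_ok TO_l2409 _)))
       (CovZ.n1 (-3850, -3214) (by decide +kernel)
        (CovZ.n2 (-3850, -3216) (by decide +kernel)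
         (CovZ.leaf K3_ok TO_l2410 _)
         (CovZ.leaf K3_ok TO_l2411 _))
        (CovZ.leaf K3_ok TO_l2412 _))))
     (CovZ.n1 (-3844, -3212) (by decide +kernel)
      (CovZ.n2 (-3844, -3216) (by decide +kernel)
       (CovZ.n2 (-3846, -3214) (by decide +kernel)
        (CovZ.n2 (-3844, -3214) (by decide +kernel)
         (CovZ.leaf K3_ok TO_l2413 _)
         (CovZ.leaf K3_ok TO_l2414 _))
        (CovZ.n1 (-3846, -3216) (by decide +kernel)
         (CovZ.leaf K3_ok TO_l2415 _)
         (CovZ.leaf K3_ok TO_l2416 _)))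
       (CovZ.n1 (-3842, -3214) (by decide +kernel)
        (CovZ.leaf K3_ok TO_l2417 _)
        (CovZ.n1 (-3844, -3214) (by decide +kernel)
         (CovZ.leaf K3_ok TO_l2418 _)
         (CovZ.leaf K3_ok TO_l2419 _))))
      (CovZ.n1 (-3848, -3212) (by decide +kernel)
       (CovZ.n2 (-3846, -3210) (by decide +kernel)
        (CovZ.n2 (-3846, -3212) (by decide +kernel)
         (CovZ.leaf K3_ok TO_l2420 _)
         (CovZ.leaf K3_ok TO_l2421 _))
        (CovZ.leaf K3_ok TO_l2422 _))
       (CovZ.n1 (-3846, -3214) (by decide +kernel)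
        (CovZ.leaf K3_ok TO_l2423 _)
        (CovZ.leaf K3_ok TO_l2424 _)))))))
    (CovZ.topM TO_LL 15 (by decide +kernel) (CovZ.n0 (-3848, -3208) (by decide +kernel)
    (CovZ.n2 (-3856, -3208) (by decide +kernel)
     (CovZ.n2 (-3852, -3204) (by decide +kernel)
      (CovZ.n2 (-3852, -3208) (by decide +kernel)
       (CovZ.n2 (-3854, -3206) (by decide +kernel)
        (CovZ.n2 (-3852, -3206) (by decide +kernel)
         (CovZ.leaf K3_ok TO_l2425 _)
         (CovZ.leaf K3_ok TO_l2426 _))
        (CovZ.n1 (-3854, -3208) (by decide +kernel)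
         (CovZ.leaf K3_ok TO_l2427 _)
         (CovZ.leaf K3_ok TO_l2428 _)))
       (CovZ.n1 (-3850, -3206) (by decide +kernel)
        (CovZ.n2 (-3850, -3208) (by decide +kernel)
         (CovZ.leaf K3_ok TO_l2429 _)
         (CovZ.leaf K3_ok TO_l2430 _))
        (CovZ.n1 (-3852, -3206) (by decide +kernel)
         (CovZ.leaf K3_ok TO_l2431 _)
         (CovZ.leaf K3_ok TO_l2432 _))))
      (CovZ.n1 (-3856, -3204) (by decide +kernel)
       (CovZ.n2 (-3854, -3202) (by decide +kernel)
        (CovZ.n2 (-3854, -3204) (by decide +kernel)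
         (CovZ.leaf K3_ok TO_l2433 _)
         (CovZ.leaf K3_ok TO_l2434 _))
        (CovZ.n1 (-3856, -3202) (by decide +kernel)
         (CovZ.leaf K3_ok TO_l2435 _)
         (CovZ.leaf K3_ok TO_l2436 _)))
       (CovZ.n1 (-3854, -3206) (by decide +kernel)
        (CovZ.leaf K3_ok TO_l2437 _)
        (CovZ.leaf K3_ok TO_l2438 _))))
     (CovZ.n1 (-3852, -3212) (by decide +kernel)
      (CovZ.n2 (-3856, -3212) (by decide +kernel)
       (CovZ.n2 (-3854, -3210) (by decide +kernel)
        (CovZ.n2 (-3854, -3212) (by decide +kernel)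
         (CovZ.leaf K3_ok TO_l2439 _)
         (CovZ.leaf K3_ok TO_l2440 _))
        (CovZ.n1 (-3856, -3210) (by decide +kernel)
         (CovZ.leaf K3_ok TO_l2441 _)
         (CovZ.leaf K3_ok TO_l2442 _)))
       (CovZ.n1 (-3854, -3214) (by decide +kernel)
        (CovZ.n2 (-3856, -3214) (by decide +kernel)
         (CovZ.leaf K3_ok TO_l2443 _)
         (CovZ.leaf K3_ok TO_l2444 _))
        (CovZ.leaf K3_ok TO_l2445 _)))
      (CovZ.n1 (-3852, -3208) (by decide +kernel)
       (CovZ.n2 (-3850, -3210) (by decide +kernel)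
        (CovZ.n2 (-3852, -3210) (by decide +kernel)
         (CovZ.leaf K3_ok TO_l2446 _)
         (CovZ.leaf K3_ok TO_l2447 _))
        (CovZ.leaf K3_ok TO_l2448 _))
       (CovZ.n1 (-3854, -3210) (by decide +kernel)
        (CovZ.leaf K3_ok TO_l2449 _)
        (CovZ.n1 (-3852, -3210) (by decide +kernel)
         (CovZ.leaf K3_ok TO_l2450 _)
         (CovZ.leaf K3_ok TO_l2451 _))))))
    (CovZ.n1 (-3848, -3200) (by decide +kernel)
     (CovZ.n2 (-3844, -3204) (by decide +kernel)
      (CovZ.n2 (-3848, -3204) (by decide +kernel)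
       (CovZ.n2 (-3846, -3202) (by decide +kernel)
        (CovZ.n2 (-3846, -3204) (by decide +kernel)
         (CovZ.leaf K3_ok TO_l2452 _)
         (CovZ.leaf K3_ok TO_l2453 _))
        (CovZ.leaf K3_ok TO_l2454 _))
       (CovZ.n1 (-3846, -3206) (by decide +kernel)
        (CovZ.leaf K3_ok TO_l2455 _)
        (CovZ.leaf K3_ok TO_l2456 _)))
      (CovZ.n1 (-3844, -3200) (by decide +kernel)
       (CovZ.n2 (-3842, -3202) (by decide +kernel)
        (CovZ.leaf K3_ok TO_l2457 _)
        (CovZ.leaf K3_ok TO_l2458 _))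
       (CovZ.n1 (-3846, -3202) (by decide +kernel)
        (CovZ.leaf K3_ok TO_l2459 _)
        (CovZ.leaf K3_ok TO_l2460 _))))
     (CovZ.n1 (-3852, -3204) (by decide +kernel)
      (CovZ.n2 (-3852, -3200) (by decide +kernel)
       (CovZ.n2 (-3850, -3202) (by decide +kernel)
        (CovZ.n2 (-3852, -3202) (by decide +kernel)
         (CovZ.leaf K3_ok TO_l2461 _)
         (CovZ.leaf K3_ok TO_l2462 _))
        (CovZ.leaf K3_ok TO_l2463 _))
       (CovZ.n1 (-3854, -3202) (by decide +kernel)
        (CovZ.leaf K3_ok TO_l2464 _)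
        (CovZ.n1 (-3852, -3202) (by decide +kernel)
         (CovZ.leaf K3_ok TO_l2465 _)
         (CovZ.leaf K3_ok TO_l2466 _))))
      (CovZ.n1 (-3848, -3204) (by decide +kernel)
       (CovZ.n2 (-3850, -3206) (by decide +kernel)
        (CovZ.leaf K3_ok TO_l2467 _)
        (CovZ.n1 (-3848, -3206) (by decide +kernel)
         (CovZ.leaf K3_ok TO_l2468 _)
         (CovZ.leaf K3_ok TO_l2469 _)))
       (CovZ.n1 (-3850, -3202) (by decide +kernel)
        (CovZ.n2 (-3848, -3202) (by decide +kernel)
         (CovZ.leaf K3_ok TO_l2470 _)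
         (CovZ.leaf K3_ok TO_l2471 _))
        (CovZ.n1 (-3850, -3204) (by decide +kernel)
         (CovZ.leaf K3_ok TO_l2472 _)
         (CovZ.leaf K3_ok TO_l2473 _))))))))

theorem TO_s5_1 : SqZ TO_M TO_L [0, 7, 4, 3] (-3920) (-3232) 16 5 1 :=
  SqZ.mk (a := (-3840)) (b := (-3824)) (c := (-3216)) (d := (-3200)) (by norm_num) (by norm_num) (by norm_num) (by norm_num)
    (CovZ.topM TO_LL 15 (by decide +kernel) (CovZ.n2 (-3832, -3208) (by decide +kernel)
    (CovZ.n2 (-3824, -3208) (by decide +kernel)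
     (CovZ.n2 (-3828, -3212) (by decide +kernel)
      (CovZ.n2 (-3828, -3208) (by decide +kernel)
       (CovZ.n2 (-3826, -3210) (by decide +kernel)
        (CovZ.n2 (-3828, -3210) (by decide +kernel)
         (CovZ.leaf K3_ok TO_l2910 _)
         (CovZ.leaf K3_ok TO_l2911 _))
        (CovZ.leaf K3_ok TO_l2912 _))
       (CovZ.n1 (-3830, -3210) (by decide +kernel)
        (CovZ.leaf K3_ok TO_l2913 _)
        (CovZ.n1 (-3828, -3210) (by decide +kernel)
         (CovZ.leaf K3_ok TO_l2914 _)
         (CovZ.leaf K3_ok TO_l2915 _))))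
      (CovZ.n1 (-3824, -3212) (by decide +kernel)
       (CovZ.n2 (-3826, -3214) (by decide +kernel)
        (CovZ.n2 (-3826, -3212) (by decide +kernel)
         (CovZ.leaf K3_ok TO_l2916 _)
         (CovZ.leaf K3_ok TO_l2917 _))
        (CovZ.n1 (-3824, -3214) (by decide +kernel)
         (CovZ.n2 (-3825, -3215) (by decide +kernel)
          (CovZ.leaf K3_ok TO_l2918 _)
          (CovZ.leaf K3_ok TO_l2919 _))
         (CovZ.leaf K3_ok TO_l2920 _)))
       (CovZ.n1 (-3826, -3210) (by decide +kernel)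
        (CovZ.n2 (-3824, -3210) (by decide +kernel)
         (CovZ.n2 (-3825, -3211) (by decide +kernel)
          (CovZ.leaf K3_ok TO_l2921 _)
          (CovZ.n1 (-3824, -3211) (by decide +kernel)
           (CovZ.leaf K3_ok TO_l2922 _)
           (CovZ.leaf K3_ok TO_l2923 _)))
         (CovZ.n1 (-3825, -3209) (by decide +kernel)
          (CovZ.leaf K3_ok TO_l2924 _)
          (CovZ.n1 (-3825, -3210) (by decide +kernel)
           (CovZ.leaf K3_ok TO_l2925 _)
           (CovZ.leaf K3_ok TO_l2926 _))))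
        (CovZ.n1 (-3826, -3212) (by decide +kernel)
         (CovZ.leaf K3_ok TO_l2927 _)
         (CovZ.n1 (-3825, -3211) (by decide +kernel)
          (CovZ.leaf K3_ok TO_l2928 _)
          (CovZ.leaf K3_ok TO_l2929 _))))))
     (CovZ.n1 (-3828, -3204) (by decide +kernel)
      (CovZ.n2 (-3824, -3204) (by decide +kernel)
       (CovZ.n2 (-3826, -3206) (by decide +kernel)
        (CovZ.n2 (-3826, -3204) (by decide +kernel)
         (CovZ.leaf K3_ok TO_l2930 _)
         (CovZ.leaf K3_ok TO_l2931 _))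
        (CovZ.n1 (-3824, -3206) (by decide +kernel)
         (CovZ.n2 (-3825, -3207) (by decide +kernel)
          (CovZ.leaf K3_ok TO_l2932 _)
          (CovZ.n1 (-3824, -3207) (by decide +kernel)
           (CovZ.leaf K3_ok TO_l2933 _)
           (CovZ.leaf K3_ok TO_l2934 _)))
         (CovZ.n1 (-3825, -3205) (by decide +kernel)
          (CovZ.n2 (-3824, -3205) (by decide +kernel)
           (CovZ.leaf K3_ok TO_l2935 _)
           (CovZ.leaf K3_ok TO_l2936 _))
          (CovZ.leaf K3_ok TO_l2937 _))))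
       (CovZ.n1 (-3826, -3202) (by decide +kernel)
        (CovZ.n2 (-3824, -3202) (by decide +kernel)
         (CovZ.n2 (-3825, -3203) (by decide +kernel)
          (CovZ.leaf K3_ok TO_l2938 _)
          (CovZ.n1 (-3824, -3203) (by decide +kernel)
           (CovZ.leaf K3_ok TO_l2939 _)
           (CovZ.leaf K3_ok TO_l2940 _)))
         (CovZ.leaf K3_ok TO_l2941 _))
        (CovZ.n1 (-3826, -3204) (by decide +kernel)
         (CovZ.n2 (-3827, -3203) (by decide +kernel)
          (CovZ.leaf K3_ok TO_l2942 _)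
          (CovZ.leaf K3_ok TO_l2943 _))
         (CovZ.n1 (-3825, -3203) (by decide +kernel)
          (CovZ.n2 (-3825, -3204) (by decide +kernel)
           (CovZ.leaf K3_ok TO_l2944 _)
           (CovZ.leaf K3_ok TO_l2945 _))
          (CovZ.leaf K3_ok TO_l2946 _)))))
      (CovZ.n1 (-3828, -3208) (by decide +kernel)
       (CovZ.n2 (-3830, -3206) (by decide +kernel)
        (CovZ.n2 (-3828, -3206) (by decide +kernel)
         (CovZ.leaf K3_ok TO_l2947 _)
         (CovZ.leaf K3_ok TO_l2948 _))
        (CovZ.n1 (-3830, -3208) (by decide +kernel)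
         (CovZ.leaf K3_ok TO_l2949 _)
         (CovZ.leaf K3_ok TO_l2950 _)))
       (CovZ.n1 (-3826, -3206) (by decide +kernel)
        (CovZ.n2 (-3826, -3208) (by decide +kernel)
         (CovZ.n2 (-3827, -3207) (by decide +kernel)
          (CovZ.leaf K3_ok TO_l2951 _)
          (CovZ.leaf K3_ok TO_l2952 _))
         (CovZ.n1 (-3825, -3207) (by decide +kernel)
          (CovZ.leaf K3_ok TO_l2953 _)
          (CovZ.leaf K3_ok TO_l2954 _)))
        (CovZ.n1 (-3828, -3206) (by decide +kernel)
         (CovZ.leaf K3_ok TO_l2955 _)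
         (CovZ.leaf K3_ok TO_l2956 _))))))
    (CovZ.n1 (-3832, -3216) (by decide +kernel)
     (CovZ.n2 (-3836, -3212) (by decide +kernel)
      (CovZ.n2 (-3832, -3212) (by decide +kernel)
       (CovZ.n2 (-3834, -3214) (by decide +kernel)
        (CovZ.leaf K3_ok TO_l2957 _)
        (CovZ.n1 (-3832, -3214) (by decide +kernel)
         (CovZ.leaf K3_ok TO_l2958 _)
         (CovZ.leaf K3_ok TO_l2959 _)))
       (CovZ.n1 (-3834, -3210) (by decide +kernel)
        (CovZ.n2 (-3832, -3210) (by decide +kernel)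
         (CovZ.leaf K3_ok TO_l2960 _)
         (CovZ.leaf K3_ok TO_l2961 _))
        (CovZ.n1 (-3834, -3212) (by decide +kernel)
         (CovZ.leaf K3_ok TO_l2962 _)
         (CovZ.leaf K3_ok TO_l2963 _))))
      (CovZ.n1 (-3836, -3216) (by decide +kernel)
       (CovZ.n2 (-3838, -3214) (by decide +kernel)
        (CovZ.leaf K3_ok TO_l2964 _)
        (CovZ.leaf K3_ok TO_l2965 _))
       (CovZ.n1 (-3834, -3214) (by decide +kernel)
        (CovZ.n2 (-3834, -3216) (by decide +kernel)
         (CovZ.leaf K3_ok TO_l2966 _)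
         (CovZ.leaf K3_ok TO_l2967 _))
        (CovZ.leaf K3_ok TO_l2968 _))))
     (CovZ.n1 (-3828, -3212) (by decide +kernel)
      (CovZ.n2 (-3828, -3216) (by decide +kernel)
       (CovZ.n2 (-3830, -3214) (by decide +kernel)
        (CovZ.n2 (-3828, -3214) (by decide +kernel)
         (CovZ.leaf K3_ok TO_l2969 _)
         (CovZ.leaf K3_ok TO_l2970 _))
        (CovZ.n1 (-3830, -3216) (by decide +kernel)
         (CovZ.leaf K3_ok TO_l2971 _)
         (CovZ.leaf K3_ok TO_l2972 _)))
       (CovZ.n1 (-3826, -3214) (by decide +kernel)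
        (CovZ.n2 (-3826, -3216) (by decide +kernel)
         (CovZ.leaf K3_ok TO_l2973 _)
         (CovZ.n1 (-3825, -3215) (by decide +kernel)
          (CovZ.leaf K3_ok TO_l2974 _)
          (CovZ.leaf K3_ok TO_l2975 _)))
        (CovZ.n1 (-3828, -3214) (by decide +kernel)
         (CovZ.leaf K3_ok TO_l2976 _)
         (CovZ.leaf K3_ok TO_l2977 _))))
      (CovZ.n1 (-3832, -3212) (by decide +kernel)
       (CovZ.n2 (-3830, -3210) (by decide +kernel)
        (CovZ.n2 (-3830, -3212) (by decide +kernel)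
         (CovZ.leaf K3_ok TO_l2978 _)
         (CovZ.n1 (-3829, -3211) (by decide +kernel)
          (CovZ.leaf K3_ok TO_l2979 _)
          (CovZ.leaf K3_ok TO_l2980 _)))
        (CovZ.n1 (-3832, -3210) (by decide +kernel)
         (CovZ.leaf K3_ok TO_l2981 _)
         (CovZ.leaf K3_ok TO_l2982 _)))
       (CovZ.n1 (-3830, -3214) (by decide +kernel)
        (CovZ.n2 (-3832, -3214) (by decide +kernel)
         (CovZ.leaf K3_ok TO_l2983 _)
         (CovZ.leaf K3_ok TO_l2984 _))
        (CovZ.n1 (-3830, -3212) (by decide +kernel)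
         (CovZ.leaf K3_ok TO_l2985 _)
         (CovZ.leaf K3_ok TO_l2986 _))))))))
    (CovZ.topM TO_LL 15 (by decide +kernel) (CovZ.n0 (-3832, -3208) (by decide +kernel)
    (CovZ.n2 (-3840, -3208) (by decide +kernel)
     (CovZ.n2 (-3836, -3204) (by decide +kernel)
      (CovZ.n2 (-3836, -3208) (by decide +kernel)
       (CovZ.n2 (-3838, -3206) (by decide +kernel)
        (CovZ.leaf K3_ok TO_l2987 _)
        (CovZ.n1 (-3838, -3208) (by decide +kernel)
         (CovZ.leaf K3_ok TO_l2988 _)
         (CovZ.leaf K3_ok TO_l2989 _)))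
       (CovZ.n1 (-3834, -3206) (by decide +kernel)
        (CovZ.n2 (-3834, -3208) (by decide +kernel)
         (CovZ.leaf K3_ok TO_l2990 _)
         (CovZ.leaf K3_ok TO_l2991 _))
        (CovZ.leaf K3_ok TO_l2992 _)))
      (CovZ.n1 (-3840, -3204) (by decide +kernel)
       (CovZ.n2 (-3838, -3202) (by decide +kernel)
        (CovZ.n2 (-3838, -3204) (by decide +kernel)
         (CovZ.leaf K3_ok TO_l2993 _)
         (CovZ.leaf K3_ok TO_l2994 _))
        (CovZ.leaf K3_ok TO_l2995 _))
       (CovZ.n1 (-3838, -3206) (by decide +kernel)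
        (CovZ.leaf K3_ok TO_l2996 _)
        (CovZ.leaf K3_ok TO_l2997 _))))
     (CovZ.n1 (-3836, -3212) (by decide +kernel)
      (CovZ.n2 (-3840, -3212) (by decide +kernel)
       (CovZ.n2 (-3838, -3210) (by decide +kernel)
        (CovZ.leaf K3_ok TO_l2998 _)
        (CovZ.leaf K3_ok TO_l2999 _))
       (CovZ.n1 (-3838, -3214) (by decide +kernel)
        (CovZ.leaf K3_ok TO_l3000 _)
        (CovZ.leaf K3_ok TO_l3001 _)))
      (CovZ.n1 (-3836, -3208) (by decide +kernel)
       (CovZ.n2 (-3834, -3210) (by decide +kernel)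
        (CovZ.leaf K3_ok TO_l3002 _)
        (CovZ.leaf K3_ok TO_l3003 _))
       (CovZ.n1 (-3838, -3210) (by decide +kernel)
        (CovZ.leaf K3_ok TO_l3004 _)
        (CovZ.leaf K3_ok TO_l3005 _)))))
    (CovZ.n1 (-3832, -3200) (by decide +kernel)
     (CovZ.n2 (-3828, -3204) (by decide +kernel)
      (CovZ.n2 (-3832, -3204) (by decide +kernel)
       (CovZ.n2 (-3830, -3202) (by decide +kernel)
        (CovZ.n2 (-3830, -3204) (by decide +kernel)
         (CovZ.leaf K3_ok TO_l3006 _)
         (CovZ.leaf K3_ok TO_l3007 _))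
        (CovZ.n1 (-3832, -3202) (by decide +kernel)
         (CovZ.leaf K3_ok TO_l3008 _)
         (CovZ.leaf K3_ok TO_l3009 _)))
       (CovZ.n1 (-3830, -3206) (by decide +kernel)
        (CovZ.n2 (-3832, -3206) (by decide +kernel)
         (CovZ.leaf K3_ok TO_l3010 _)
         (CovZ.leaf K3_ok TO_l3011 _))
        (CovZ.leaf K3_ok TO_l3012 _)))
      (CovZ.n1 (-3828, -3200) (by decide +kernel)
       (CovZ.n2 (-3826, -3202) (by decide +kernel)
        (CovZ.n2 (-3828, -3202) (by decide +kernel)
         (CovZ.leaf K3_ok TO_l3013 _)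
         (CovZ.leaf K3_ok TO_l3014 _))
        (CovZ.n1 (-3826, -3200) (by decide +kernel)
         (CovZ.leaf K3_ok TO_l3015 _)
         (CovZ.leaf K3_ok TO_l3016 _)))
       (CovZ.n1 (-3830, -3202) (by decide +kernel)
        (CovZ.leaf K3_ok TO_l3017 _)
        (CovZ.n1 (-3828, -3202) (by decide +kernel)
         (CovZ.leaf K3_ok TO_l3018 _)
         (CovZ.leaf K3_ok TO_l3019 _)))))
     (CovZ.n1 (-3836, -3204) (by decide +kernel)
      (CovZ.n2 (-3836, -3200) (by decide +kernel)
       (CovZ.n2 (-3834, -3202) (by decide +kernel)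
        (CovZ.leaf K3_ok TO_l3020 _)
        (CovZ.leaf K3_ok TO_l3021 _))
       (CovZ.n1 (-3838, -3202) (by decide +kernel)
        (CovZ.leaf K3_ok TO_l3022 _)
        (CovZ.n1 (-3836, -3202) (by decide +kernel)
         (CovZ.leaf K3_ok TO_l3023 _)
         (CovZ.leaf K3_ok TO_l3024 _))))
      (CovZ.n1 (-3832, -3204) (by decide +kernel)
       (CovZ.n2 (-3834, -3206) (by decide +kernel)
        (CovZ.leaf K3_ok TO_l3025 _)
        (CovZ.n1 (-3832, -3206) (by decide +kernel)
         (CovZ.leaf K3_ok TO_l3026 _)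
         (CovZ.leaf K3_ok TO_l3027 _)))
       (CovZ.n1 (-3834, -3202) (by decide +kernel)
        (CovZ.n2 (-3832, -3202) (by decide +kernel)
         (CovZ.leaf K3_ok TO_l3028 _)
         (CovZ.leaf K3_ok TO_l3029 _))
        (CovZ.n1 (-3834, -3204) (by decide +kernel)
         (CovZ.leaf K3_ok TO_l3030 _)
         (CovZ.leaf K3_ok TO_l3031 _))))))))

end Pool.Agent.TET
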