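import Pool.Agent.Helper38_TET.TO_M
import Pool.Agent.Helper38_TET.TO_L
import Pool.Agent.Helper38_TET.TO_1
import Pool.Agent.Helper38_TET.TO_2
import Pool.Agent.Helper38_TET.TO_5
import Pool.Agent.Helper38_TET.TO_6
import Pool.Agent.Helper38_TET.TO_7
import Pool.Agent.Helper38_TET.TO_8
import Pool.Agent.Helper38_TET.TO_9
import Pool.Agent.Helper38_TET.TO_12
import Pool.Agent.Helper38_TET.TO_13
import Pool.Agent.Helper38_TET.TO_14
import Pool.Agent.Helper38_TET.TO_16
import Pool.Agent.Helper38_TET.TO_17
import Pool.Agent.Helper38_TET.TO_20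
import Pool.Agent.Helper38_TET.TO_21
import Pool.Agent.Helper38_TET.TO_23
import Pool.Agent.Helper38_TET.TO_24

/-!
# MP_c7c9bf_co: certificates, family TO
-/

set_option autoImplicit false
set_option maxRecDepth 100000

namespace Pool.Agent.TET

theorem TO_s6_1 : SqZ TO_M TO_L [0, 7, 4, 3] (-3920) (-3232) 16 6 1 :=
  SqZ.mk (a := (-3824)) (b := (-3808)) (c := (-3216)) (d := (-3200)) (by norm_num) (by norm_num) (by norm_num) (by norm_num)
    (CovZ.topM TO_LL 0 (by decide +kernel) (CovZ.badM (by decide +kernel)))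
    (CovZ.topM TO_LL 13 (by decide +kernel) (CovZ.n0 (-3816, -3208) (by decide +kernel)
    (CovZ.n2 (-3824, -3208) (by decide +kernel)
     (CovZ.n2 (-3820, -3204) (by decide +kernel)
      (CovZ.n2 (-3820, -3208) (by decide +kernel)
       (CovZ.n2 (-3822, -3206) (by decide +kernel)
        (CovZ.badM (by decide +kernel))
        (CovZ.n1 (-3822, -3208) (by decide +kernel)
         (CovZ.n2 (-3823, -3207) (by decide +kernel)
          (CovZ.badM (by decide +kernel))
          (CovZ.leaf K3_ok TO_l3552 _))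
         (CovZ.badM (by decide +kernel))))
       (CovZ.badM (by decide +kernel)))
      (CovZ.n1 (-3824, -3204) (by decide +kernel)
       (CovZ.n2 (-3822, -3202) (by decide +kernel)
        (CovZ.n2 (-3822, -3204) (by decide +kernel)
         (CovZ.n2 (-3823, -3203) (by decide +kernel)
          (CovZ.n2 (-3822, -3203) (by decide +kernel)
           (CovZ.leaf K3_ok TO_l3553 _)
           (CovZ.leaf K3_ok TO_l3554 _))
          (CovZ.leaf K3_ok TO_l3555 _))
         (CovZ.n1 (-3821, -3203) (by decide +kernel)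
          (CovZ.n2 (-3821, -3204) (by decide +kernel)
           (CovZ.leaf K3_ok TO_l3556 _)
           (CovZ.badM (by decide +kernel)))
          (CovZ.n1 (-3822, -3203) (by decide +kernel)
           (CovZ.leaf K3_ok TO_l3557 _)
           (CovZ.leaf K3_ok TO_l3558 _))))
        (CovZ.n1 (-3824, -3202) (by decide +kernel)
         (CovZ.n2 (-3823, -3201) (by decide +kernel)
          (CovZ.leaf K3_ok TO_l3559 _)
          (CovZ.leaf K3_ok TO_l3560 _))
         (CovZ.n1 (-3823, -3203) (by decide +kernel)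
          (CovZ.leaf K3_ok TO_l3561 _)
          (CovZ.leaf K3_ok TO_l3562 _))))
       (CovZ.n1 (-3822, -3206) (by decide +kernel)
        (CovZ.n2 (-3824, -3206) (by decide +kernel)
         (CovZ.n2 (-3823, -3205) (by decide +kernel)
          (CovZ.n2 (-3823, -3206) (by decide +kernel)
           (CovZ.leaf K3_ok TO_l3563 _)
           (CovZ.badM (by decide +kernel)))
          (CovZ.n1 (-3824, -3205) (by decide +kernel)
           (CovZ.leaf K3_ok TO_l3564 _)
           (CovZ.leaf K3_ok TO_l3565 _)))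
         (CovZ.leaf K3_ok TO_l3566 _))
        (CovZ.n1 (-3822, -3204) (by decide +kernel)
         (CovZ.n2 (-3821, -3205) (by decide +kernel)
          (CovZ.leaf K3_ok TO_l3567 _)
          (CovZ.n1 (-3821, -3204) (by decide +kernel)
           (CovZ.badM (by decide +kernel))
           (CovZ.leaf K3_ok TO_l3568 _)))
         (CovZ.n1 (-3823, -3205) (by decide +kernel)
          (CovZ.leaf K3_ok TO_l3569 _)
          (CovZ.n1 (-3822, -3205) (by decide +kernel)
           (CovZ.badM (by decide +kernel))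
           (CovZ.leaf K3_ok TO_l3570 _)))))))
     (CovZ.n1 (-3820, -3212) (by decide +kernel)
      (CovZ.n2 (-3824, -3212) (by decide +kernel)
       (CovZ.n2 (-3822, -3210) (by decide +kernel)
        (CovZ.n2 (-3822, -3212) (by decide +kernel)
         (CovZ.n2 (-3823, -3211) (by decide +kernel)
          (CovZ.badM (by decide +kernel))
          (CovZ.leaf K3_ok TO_l3573 _))
         (CovZ.badM (by decide +kernel)))
        (CovZ.n1 (-3824, -3210) (by decide +kernel)
         (CovZ.n2 (-3823, -3209) (by decide +kernel)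
          (CovZ.n2 (-3823, -3210) (by decide +kernel)
           (CovZ.leaf K3_ok TO_l3577 _)
           (CovZ.badM (by decide +kernel)))
          (CovZ.leaf K3_ok TO_l3579 _))
         (CovZ.n1 (-3823, -3211) (by decide +kernel)
          (CovZ.leaf K3_ok TO_l3580 _)
          (CovZ.leaf K3_ok TO_l3581 _))))
       (CovZ.n1 (-3822, -3214) (by decide +kernel)
        (CovZ.n2 (-3824, -3214) (by decide +kernel)
         (CovZ.n2 (-3823, -3213) (by decide +kernel)
          (CovZ.leaf K3_ok TO_l3582 _)
          (CovZ.leaf K3_ok TO_l3583 _))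
         (CovZ.leaf K3_ok TO_l3584 _))
        (CovZ.n1 (-3822, -3212) (by decide +kernel)
         (CovZ.badM (by decide +kernel))
         (CovZ.n1 (-3823, -3213) (by decide +kernel)
          (CovZ.leaf K3_ok TO_l3588 _)
          (CovZ.badM (by decide +kernel))))))
      (CovZ.n1 (-3820, -3208) (by decide +kernel)
       (CovZ.badM (by decide +kernel))
       (CovZ.n1 (-3822, -3210) (by decide +kernel)
        (CovZ.n2 (-3822, -3208) (by decide +kernel)
         (CovZ.badM (by decide +kernel))
         (CovZ.n1 (-3823, -3209) (by decide +kernel)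
          (CovZ.leaf K3_ok TO_l3592 _)
          (CovZ.badM (by decide +kernel))))
        (CovZ.badM (by decide +kernel))))))
    (CovZ.n1 (-3816, -3200) (by decide +kernel)
     (CovZ.badM (by decide +kernel))
     (CovZ.n1 (-3820, -3204) (by decide +kernel)
      (CovZ.n2 (-3820, -3200) (by decide +kernel)
       (CovZ.badM (by decide +kernel))
       (CovZ.n1 (-3822, -3202) (by decide +kernel)
        (CovZ.n2 (-3822, -3200) (by decide +kernel)
         (CovZ.n2 (-3821, -3201) (by decide +kernel)
          (CovZ.n2 (-3822, -3201) (by decide +kernel)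
           (CovZ.leaf K3_ok TO_l3596 _)
           (CovZ.leaf K3_ok TO_l3597 _))
          (CovZ.leaf K3_ok TO_l3598 _))
         (CovZ.n1 (-3823, -3201) (by decide +kernel)
          (CovZ.leaf K3_ok TO_l3599 _)
          (CovZ.n1 (-3822, -3201) (by decide +kernel)
           (CovZ.leaf K3_ok TO_l3600 _)
           (CovZ.leaf K3_ok TO_l3601 _))))
        (CovZ.n1 (-3820, -3202) (by decide +kernel)
         (CovZ.n2 (-3821, -3203) (by decide +kernel)
          (CovZ.leaf K3_ok TO_l3602 _)
          (CovZ.badM (by decide +kernel)))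
         (CovZ.n1 (-3821, -3201) (by decide +kernel)
          (CovZ.badM (by decide +kernel))
          (CovZ.n1 (-3821, -3202) (by decide +kernel)
           (CovZ.leaf K3_ok TO_l3603 _)
           (CovZ.badM (by decide +kernel)))))))
      (CovZ.badM (by decide +kernel))))))

theorem TO_s0_2 : SqZ TO_M TO_L [0, 7, 4, 3] (-3920) (-3232) 16 0 2 :=
  SqZ.mk (a := (-3920)) (b := (-3904)) (c := (-3200)) (d := (-3184)) (by norm_num) (by norm_num) (by norm_num) (by norm_num)
    (CovZ.topM TO_LL 4 (by decide +kernel) (CovZ.n2 (-3912, -3192) (by decide +kernel)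
    (CovZ.n2 (-3904, -3192) (by decide +kernel)
     (CovZ.badM (by decide +kernel))
     (CovZ.badM (by decide +kernel)))
    (CovZ.badM (by decide +kernel))))
    (CovZ.topM TO_LL 4 (by decide +kernel) (CovZ.n0 (-3912, -3192) (by decide +kernel)
    (CovZ.badM (by decide +kernel))
    (CovZ.badM (by decide +kernel))))

theorem TO_s1_2 : SqZ TO_M TO_L [0, 7, 4, 3] (-3920) (-3232) 16 1 2 :=
  SqZ.mk (a := (-3904)) (b := (-3888)) (c := (-3200)) (d := (-3184)) (by norm_num) (by norm_num) (by norm_num) (by norm_num)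
    (CovZ.topM TO_LL 4 (by decide +kernel) (CovZ.n2 (-3896, -3192) (by decide +kernel)
    (CovZ.n2 (-3888, -3192) (by decide +kernel)
     (CovZ.n2 (-3892, -3196) (by decide +kernel)
      (CovZ.n2 (-3892, -3192) (by decide +kernel)
       (CovZ.n2 (-3890, -3194) (by decide +kernel)
        (CovZ.n2 (-3892, -3194) (by decide +kernel)
         (CovZ.badM (by decide +kernel))
         (CovZ.n1 (-3891, -3195) (by decide +kernel)
          (CovZ.leaf K3_ok TO_l272 _)
          (CovZ.leaf K3_ok TO_l273 _)))
        (CovZ.badM (by decide +kernel)))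
       (CovZ.n1 (-3894, -3194) (by decide +kernel)
        (CovZ.badM (by decide +kernel))
        (CovZ.n1 (-3892, -3194) (by decide +kernel)
         (CovZ.n2 (-3893, -3195) (by decide +kernel)
          (CovZ.leaf K3_ok TO_l274 _)
          (CovZ.n1 (-3892, -3195) (by decide +kernel)
           (CovZ.leaf K3_ok TO_l275 _)
           (CovZ.leaf K3_ok TO_l276 _)))
         (CovZ.badM (by decide +kernel)))))
      (CovZ.n1 (-3888, -3196) (by decide +kernel)
       (CovZ.n2 (-3890, -3198) (by decide +kernel)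
        (CovZ.n2 (-3890, -3196) (by decide +kernel)
         (CovZ.n2 (-3889, -3197) (by decide +kernel)
          (CovZ.n2 (-3890, -3197) (by decide +kernel)
           (CovZ.leaf K3_ok TO_l277 _)
           (CovZ.leaf K3_ok TO_l278 _))
          (CovZ.leaf K3_ok TO_l279 _))
         (CovZ.n1 (-3891, -3197) (by decide +kernel)
          (CovZ.n2 (-3891, -3196) (by decide +kernel)
           (CovZ.leaf K3_ok TO_l280 _)
           (CovZ.leaf K3_ok TO_l281 _))
          (CovZ.n1 (-3890, -3197) (by decide +kernel)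
           (CovZ.leaf K3_ok TO_l282 _)
           (CovZ.leaf K3_ok TO_l283 _))))
        (CovZ.n1 (-3888, -3198) (by decide +kernel)
         (CovZ.n2 (-3889, -3199) (by decide +kernel)
          (CovZ.leaf K3_ok TO_l284 _)
          (CovZ.n1 (-3888, -3199) (by decide +kernel)
           (CovZ.leaf K3_ok TO_l285 _)
           (CovZ.leaf K3_ok TO_l286 _)))
         (CovZ.n1 (-3889, -3197) (by decide +kernel)
          (CovZ.n2 (-3888, -3197) (by decide +kernel)
           (CovZ.leaf K3_ok TO_l287 _)
           (CovZ.leaf K3_ok TO_l288 _))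
          (CovZ.leaf K3_ok TO_l289 _))))
       (CovZ.n1 (-3890, -3194) (by decide +kernel)
        (CovZ.n2 (-3888, -3194) (by decide +kernel)
         (CovZ.n2 (-3889, -3195) (by decide +kernel)
          (CovZ.leaf K3_ok TO_l290 _)
          (CovZ.n1 (-3888, -3195) (by decide +kernel)
           (CovZ.leaf K3_ok TO_l291 _)
           (CovZ.leaf K3_ok TO_l292 _)))
         (CovZ.badM (by decide +kernel)))
        (CovZ.n1 (-3890, -3196) (by decide +kernel)
         (CovZ.n2 (-3891, -3195) (by decide +kernel)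
          (CovZ.n2 (-3890, -3195) (by decide +kernel)
           (CovZ.leaf K3_ok TO_l293 _)
           (CovZ.leaf K3_ok TO_l294 _))
          (CovZ.leaf K3_ok TO_l295 _))
         (CovZ.n1 (-3889, -3195) (by decide +kernel)
          (CovZ.n2 (-3889, -3196) (by decide +kernel)
           (CovZ.leaf K3_ok TO_l296 _)
           (CovZ.leaf K3_ok TO_l297 _))
          (CovZ.leaf K3_ok TO_l298 _))))))
     (CovZ.badM (by decide +kernel)))
    (CovZ.n1 (-3896, -3200) (by decide +kernel)
     (CovZ.n2 (-3900, -3196) (by decide +kernel)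
      (CovZ.n2 (-3896, -3196) (by decide +kernel)
       (CovZ.n2 (-3898, -3198) (by decide +kernel)
        (CovZ.n2 (-3898, -3196) (by decide +kernel)
         (CovZ.n2 (-3897, -3197) (by decide +kernel)
          (CovZ.badM (by decide +kernel))
          (CovZ.leaf K3_ok TO_l315 _))
         (CovZ.badM (by decide +kernel)))
        (CovZ.n1 (-3896, -3198) (by decide +kernel)
         (CovZ.badM (by decide +kernel))
         (CovZ.n1 (-3897, -3197) (by decide +kernel)
          (CovZ.n2 (-3896, -3197) (by decide +kernel)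
           (CovZ.badM (by decide +kernel))
           (CovZ.leaf K3_ok TO_l316 _))
          (CovZ.badM (by decide +kernel)))))
       (CovZ.n1 (-3898, -3194) (by decide +kernel)
        (CovZ.n2 (-3896, -3194) (by decide +kernel)
         (CovZ.n2 (-3897, -3195) (by decide +kernel)
          (CovZ.n2 (-3897, -3194) (by decide +kernel)
           (CovZ.leaf K3_ok TO_l317 _)
           (CovZ.leaf K3_ok TO_l318 _))
          (CovZ.n1 (-3896, -3195) (by decide +kernel)
           (CovZ.leaf K3_ok TO_l319 _)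
           (CovZ.leaf K3_ok TO_l320 _)))
         (CovZ.badM (by decide +kernel)))
        (CovZ.n1 (-3898, -3196) (by decide +kernel)
         (CovZ.n2 (-3899, -3195) (by decide +kernel)
          (CovZ.n2 (-3898, -3195) (by decide +kernel)
           (CovZ.badM (by decide +kernel))
           (CovZ.leaf K3_ok TO_l321 _))
          (CovZ.badM (by decide +kernel)))
         (CovZ.n1 (-3897, -3195) (by decide +kernel)
          (CovZ.leaf K3_ok TO_l322 _)
          (CovZ.n1 (-3898, -3195) (by decide +kernel)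
           (CovZ.leaf K3_ok TO_l323 _)
           (CovZ.leaf K3_ok TO_l324 _))))))
      (CovZ.badM (by decide +kernel)))
     (CovZ.n1 (-3892, -3196) (by decide +kernel)
      (CovZ.n2 (-3892, -3200) (by decide +kernel)
       (CovZ.n2 (-3894, -3198) (by decide +kernel)
        (CovZ.n2 (-3892, -3198) (by decide +kernel)
         (CovZ.n2 (-3893, -3199) (by decide +kernel)
          (CovZ.leaf K3_ok TO_l325 _)
          (CovZ.n1 (-3892, -3199) (by decide +kernel)
           (CovZ.badM (by decide +kernel))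
           (CovZ.leaf K3_ok TO_l326 _)))
         (CovZ.n1 (-3893, -3197) (by decide +kernel)
          (CovZ.n2 (-3892, -3197) (by decide +kernel)
           (CovZ.leaf K3_ok TO_l327 _)
           (CovZ.leaf K3_ok TO_l328 _))
          (CovZ.n1 (-3893, -3198) (by decide +kernel)
           (CovZ.leaf K3_ok TO_l329 _)
           (CovZ.leaf K3_ok TO_l330 _))))
        (CovZ.badM (by decide +kernel)))
       (CovZ.n1 (-3890, -3198) (by decide +kernel)
        (CovZ.n2 (-3890, -3200) (by decide +kernel)
         (CovZ.n2 (-3891, -3199) (by decide +kernel)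
          (CovZ.leaf K3_ok TO_l331 _)
          (CovZ.n1 (-3891, -3200) (by decide +kernel)
           (CovZ.leaf K3_ok TO_l332 _)
           (CovZ.leaf K3_ok TO_l333 _)))
         (CovZ.n1 (-3889, -3199) (by decide +kernel)
          (CovZ.leaf K3_ok TO_l334 _)
          (CovZ.n1 (-3890, -3199) (by decide +kernel)
           (CovZ.leaf K3_ok TO_l335 _)
           (CovZ.leaf K3_ok TO_l336 _))))
        (CovZ.n1 (-3892, -3198) (by decide +kernel)
         (CovZ.n2 (-3891, -3197) (by decide +kernel)
          (CovZ.leaf K3_ok TO_l337 _)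
          (CovZ.n1 (-3892, -3197) (by decide +kernel)
           (CovZ.leaf K3_ok TO_l338 _)
           (CovZ.leaf K3_ok TO_l339 _)))
         (CovZ.n1 (-3891, -3199) (by decide +kernel)
          (CovZ.leaf K3_ok TO_l340 _)
          (CovZ.leaf K3_ok TO_l341 _)))))
      (CovZ.n1 (-3896, -3196) (by decide +kernel)
       (CovZ.n2 (-3894, -3194) (by decide +kernel)
        (CovZ.n2 (-3894, -3196) (by decide +kernel)
         (CovZ.n2 (-3895, -3195) (by decide +kernel)
          (CovZ.n2 (-3894, -3195) (by decide +kernel)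
           (CovZ.leaf K3_ok TO_l342 _)
           (CovZ.leaf K3_ok TO_l343 _))
          (CovZ.n1 (-3895, -3196) (by decide +kernel)
           (CovZ.leaf K3_ok TO_l344 _)
           (CovZ.leaf K3_ok TO_l345 _)))
         (CovZ.n1 (-3893, -3195) (by decide +kernel)
          (CovZ.leaf K3_ok TO_l346 _)
          (CovZ.n1 (-3894, -3195) (by decide +kernel)
           (CovZ.leaf K3_ok TO_l347 _)
           (CovZ.leaf K3_ok TO_l348 _))))
        (CovZ.n1 (-3896, -3194) (by decide +kernel)
         (CovZ.badM (by decide +kernel))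
         (CovZ.n1 (-3895, -3195) (by decide +kernel)
          (CovZ.n2 (-3896, -3195) (by decide +kernel)
           (CovZ.leaf K3_ok TO_l349 _)
           (CovZ.leaf K3_ok TO_l350 _))
          (CovZ.leaf K3_ok TO_l351 _))))
       (CovZ.n1 (-3894, -3198) (by decide +kernel)
        (CovZ.n2 (-3896, -3198) (by decide +kernel)
         (CovZ.n2 (-3895, -3197) (by decide +kernel)
          (CovZ.badM (by decide +kernel))
          (CovZ.n1 (-3896, -3197) (by decide +kernel)
           (CovZ.leaf K3_ok TO_l352 _)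
           (CovZ.badM (by decide +kernel))))
         (CovZ.badM (by decide +kernel)))
        (CovZ.n1 (-3894, -3196) (by decide +kernel)
         (CovZ.n2 (-3893, -3197) (by decide +kernel)
          (CovZ.n2 (-3894, -3197) (by decide +kernel)
           (CovZ.leaf K3_ok TO_l353 _)
           (CovZ.leaf K3_ok TO_l354 _))
          (CovZ.leaf K3_ok TO_l355 _))
         (CovZ.n1 (-3895, -3197) (by decide +kernel)
          (CovZ.leaf K3_ok TO_l356 _)
          (CovZ.n1 (-3894, -3197) (by decide +kernel)
           (CovZ.leaf K3_ok TO_l357 _)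
           (CovZ.leaf K3_ok TO_l358 _))))))))))
    (CovZ.topM TO_LL 4 (by decide +kernel) (CovZ.n0 (-3896, -3192) (by decide +kernel)
    (CovZ.n2 (-3904, -3192) (by decide +kernel)
     (CovZ.badM (by decide +kernel))
     (CovZ.n1 (-3900, -3196) (by decide +kernel)
      (CovZ.badM (by decide +kernel))
      (CovZ.n1 (-3900, -3192) (by decide +kernel)
       (CovZ.n2 (-3898, -3194) (by decide +kernel)
        (CovZ.n2 (-3900, -3194) (by decide +kernel)
         (CovZ.badM (by decide +kernel))
         (CovZ.n1 (-3899, -3195) (by decide +kernel)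
          (CovZ.badM (by decide +kernel))
          (CovZ.n1 (-3899, -3194) (by decide +kernel)
           (CovZ.leaf K3_ok TO_l359 _)
           (CovZ.leaf K3_ok TO_l360 _))))
        (CovZ.badM (by decide +kernel)))
       (CovZ.n1 (-3902, -3194) (by decide +kernel)
        (CovZ.badM (by decide +kernel))
        (CovZ.n1 (-3900, -3194) (by decide +kernel)
         (CovZ.badM (by decide +kernel))
         (CovZ.badM (by decide +kernel)))))))
    (CovZ.badM (by decide +kernel))))

theorem TO_s2_2 : SqZ TO_M TO_L [0, 7, 4, 3] (-3920) (-3232) 16 2 2 :=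
  SqZ.mk (a := (-3888)) (b := (-3872)) (c := (-3200)) (d := (-3184)) (by norm_num) (by norm_num) (by norm_num) (by norm_num)
    (CovZ.topM TO_LL 15 (by decide +kernel) (CovZ.n2 (-3880, -3192) (by decide +kernel)
    (CovZ.n2 (-3872, -3192) (by decide +kernel)
     (CovZ.n2 (-3876, -3196) (by decide +kernel)
      (CovZ.n2 (-3876, -3192) (by decide +kernel)
       (CovZ.n2 (-3874, -3194) (by decide +kernel)
        (CovZ.n2 (-3876, -3194) (by decide +kernel)
         (CovZ.n2 (-3875, -3193) (by decide +kernel)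
          (CovZ.leaf K3_ok TO_l818 _)
          (CovZ.leaf K3_ok TO_l819 _))
         (CovZ.leaf K3_ok TO_l820 _))
        (CovZ.n1 (-3874, -3192) (by decide +kernel)
         (CovZ.leaf K3_ok TO_l821 _)
         (CovZ.leaf K3_ok TO_l822 _)))
       (CovZ.n1 (-3878, -3194) (by decide +kernel)
        (CovZ.n2 (-3878, -3192) (by decide +kernel)
         (CovZ.leaf K3_ok TO_l823 _)
         (CovZ.leaf K3_ok TO_l824 _))
        (CovZ.n1 (-3876, -3194) (by decide +kernel)
         (CovZ.n2 (-3877, -3195) (by decide +kernel)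
          (CovZ.leaf K3_ok TO_l825 _)
          (CovZ.n1 (-3876, -3195) (by decide +kernel)
           (CovZ.leaf K3_ok TO_l826 _)
           (CovZ.leaf K3_ok TO_l827 _)))
         (CovZ.n1 (-3877, -3193) (by decide +kernel)
          (CovZ.leaf K3_ok TO_l828 _)
          (CovZ.leaf K3_ok TO_l829 _)))))
      (CovZ.n1 (-3872, -3196) (by decide +kernel)
       (CovZ.n2 (-3874, -3198) (by decide +kernel)
        (CovZ.n2 (-3874, -3196) (by decide +kernel)
         (CovZ.leaf K3_ok TO_l830 _)
         (CovZ.n1 (-3875, -3197) (by decide +kernel)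
          (CovZ.leaf K3_ok TO_l831 _)
          (CovZ.leaf K3_ok TO_l832 _)))
        (CovZ.n1 (-3872, -3198) (by decide +kernel)
         (CovZ.leaf K3_ok TO_l833 _)
         (CovZ.n1 (-3873, -3197) (by decide +kernel)
          (CovZ.leaf K3_ok TO_l834 _)
          (CovZ.leaf K3_ok TO_l835 _))))
       (CovZ.n1 (-3874, -3194) (by decide +kernel)
        (CovZ.n2 (-3872, -3194) (by decide +kernel)
         (CovZ.leaf K3_ok TO_l836 _)
         (CovZ.n1 (-3873, -3193) (by decide +kernel)
          (CovZ.leaf K3_ok TO_l837 _)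
          (CovZ.leaf K3_ok TO_l838 _)))
        (CovZ.n1 (-3874, -3196) (by decide +kernel)
         (CovZ.n2 (-3875, -3195) (by decide +kernel)
          (CovZ.leaf K3_ok TO_l839 _)
          (CovZ.leaf K3_ok TO_l840 _))
         (CovZ.n1 (-3873, -3195) (by decide +kernel)
          (CovZ.leaf K3_ok TO_l841 _)
          (CovZ.leaf K3_ok TO_l842 _))))))
     (CovZ.n1 (-3876, -3188) (by decide +kernel)
      (CovZ.n2 (-3872, -3188) (by decide +kernel)
       (CovZ.n2 (-3874, -3190) (by decide +kernel)
        (CovZ.n2 (-3874, -3188) (by decide +kernel)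
         (CovZ.n2 (-3873, -3189) (by decide +kernel)
          (CovZ.leaf K3_ok TO_l843 _)
          (CovZ.leaf K3_ok TO_l844 _))
         (CovZ.leaf K3_ok TO_l845 _))
        (CovZ.n1 (-3872, -3190) (by decide +kernel)
         (CovZ.leaf K3_ok TO_l846 _)
         (CovZ.leaf K3_ok TO_l847 _)))
       (CovZ.n1 (-3874, -3186) (by decide +kernel)
        (CovZ.n2 (-3872, -3186) (by decide +kernel)
         (CovZ.n2 (-3873, -3187) (by decide +kernel)
          (CovZ.leaf K3_ok TO_l848 _)
          (CovZ.leaf K3_ok TO_l849 _))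
         (CovZ.leaf K3_ok TO_l850 _))
        (CovZ.n1 (-3874, -3188) (by decide +kernel)
         (CovZ.n2 (-3875, -3187) (by decide +kernel)
          (CovZ.leaf K3_ok TO_l851 _)
          (CovZ.leaf K3_ok TO_l852 _))
         (CovZ.n1 (-3873, -3187) (by decide +kernel)
          (CovZ.leaf K3_ok TO_l853 _)
          (CovZ.leaf K3_ok TO_l854 _)))))
      (CovZ.n1 (-3876, -3192) (by decide +kernel)
       (CovZ.n2 (-3878, -3190) (by decide +kernel)
        (CovZ.n2 (-3876, -3190) (by decide +kernel)
         (CovZ.leaf K3_ok TO_l855 _)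
         (CovZ.n1 (-3877, -3189) (by decide +kernel)
          (CovZ.leaf K3_ok TO_l856 _)
          (CovZ.leaf K3_ok TO_l857 _)))
        (CovZ.n1 (-3878, -3192) (by decide +kernel)
         (CovZ.n2 (-3879, -3191) (by decide +kernel)
          (CovZ.leaf K3_ok TO_l858 _)
          (CovZ.leaf K3_ok TO_l859 _))
         (CovZ.n1 (-3877, -3191) (by decide +kernel)
          (CovZ.leaf K3_ok TO_l860 _)
          (CovZ.leaf K3_ok TO_l861 _))))
       (CovZ.n1 (-3874, -3190) (by decide +kernel)
        (CovZ.n2 (-3874, -3192) (by decide +kernel)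
         (CovZ.n2 (-3875, -3191) (by decide +kernel)
          (CovZ.leaf K3_ok TO_l862 _)
          (CovZ.leaf K3_ok TO_l863 _))
         (CovZ.n1 (-3873, -3191) (by decide +kernel)
          (CovZ.leaf K3_ok TO_l864 _)
          (CovZ.leaf K3_ok TO_l865 _)))
        (CovZ.n1 (-3876, -3190) (by decide +kernel)
         (CovZ.leaf K3_ok TO_l866 _)
         (CovZ.leaf K3_ok TO_l867 _))))))
    (CovZ.n1 (-3880, -3200) (by decide +kernel)
     (CovZ.n2 (-3884, -3196) (by decide +kernel)
      (CovZ.n2 (-3880, -3196) (by decide +kernel)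
       (CovZ.n2 (-3882, -3198) (by decide +kernel)
        (CovZ.n2 (-3882, -3196) (by decide +kernel)
         (CovZ.leaf K3_ok TO_l868 _)
         (CovZ.n1 (-3883, -3197) (by decide +kernel)
          (CovZ.leaf K3_ok TO_l869 _)
          (CovZ.n1 (-3882, -3197) (by decide +kernel)
           (CovZ.leaf K3_ok TO_l870 _)
           (CovZ.leaf K3_ok TO_l871 _))))
        (CovZ.n1 (-3880, -3198) (by decide +kernel)
         (CovZ.n2 (-3881, -3199) (by decide +kernel)
          (CovZ.leaf K3_ok TO_l872 _)
          (CovZ.n1 (-3880, -3199) (by decide +kernel)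
           (CovZ.leaf K3_ok TO_l873 _)
           (CovZ.leaf K3_ok TO_l874 _)))
         (CovZ.n1 (-3881, -3197) (by decide +kernel)
          (CovZ.leaf K3_ok TO_l875 _)
          (CovZ.n1 (-3881, -3198) (by decide +kernel)
           (CovZ.leaf K3_ok TO_l876 _)
           (CovZ.leaf K3_ok TO_l877 _)))))
       (CovZ.n1 (-3882, -3194) (by decide +kernel)
        (CovZ.n2 (-3880, -3194) (by decide +kernel)
         (CovZ.n2 (-3881, -3195) (by decide +kernel)
          (CovZ.leaf K3_ok TO_l878 _)
          (CovZ.n1 (-3880, -3195) (by decide +kernel)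
           (CovZ.leaf K3_ok TO_l879 _)
           (CovZ.leaf K3_ok TO_l880 _)))
         (CovZ.n1 (-3881, -3193) (by decide +kernel)
          (CovZ.leaf K3_ok TO_l881 _)
          (CovZ.leaf K3_ok TO_l882 _)))
        (CovZ.n1 (-3882, -3196) (by decide +kernel)
         (CovZ.n2 (-3883, -3195) (by decide +kernel)
          (CovZ.leaf K3_ok TO_l883 _)
          (CovZ.leaf K3_ok TO_l884 _))
         (CovZ.n1 (-3881, -3195) (by decide +kernel)
          (CovZ.leaf K3_ok TO_l885 _)
          (CovZ.leaf K3_ok TO_l886 _)))))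
      (CovZ.n1 (-3884, -3200) (by decide +kernel)
       (CovZ.n2 (-3886, -3198) (by decide +kernel)
        (CovZ.n2 (-3884, -3198) (by decide +kernel)
         (CovZ.n2 (-3885, -3199) (by decide +kernel)
          (CovZ.leaf K3_ok TO_l887 _)
          (CovZ.n1 (-3884, -3199) (by decide +kernel)
           (CovZ.leaf K3_ok TO_l888 _)
           (CovZ.leaf K3_ok TO_l889 _)))
         (CovZ.n1 (-3885, -3197) (by decide +kernel)
          (CovZ.leaf K3_ok TO_l890 _)
          (CovZ.leaf K3_ok TO_l891 _)))
        (CovZ.n1 (-3886, -3200) (by decide +kernel)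
         (CovZ.n2 (-3887, -3199) (by decide +kernel)
          (CovZ.n2 (-3886, -3199) (by decide +kernel)
           (CovZ.leaf K3_ok TO_l892 _)
           (CovZ.leaf K3_ok TO_l893 _))
          (CovZ.leaf K3_ok TO_l894 _))
         (CovZ.n1 (-3885, -3199) (by decide +kernel)
          (CovZ.n2 (-3885, -3200) (by decide +kernel)
           (CovZ.leaf K3_ok TO_l895 _)
           (CovZ.leaf K3_ok TO_l896 _))
          (CovZ.leaf K3_ok TO_l897 _))))
       (CovZ.n1 (-3882, -3198) (by decide +kernel)
        (CovZ.n2 (-3882, -3200) (by decide +kernel)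
         (CovZ.n2 (-3883, -3199) (by decide +kernel)
          (CovZ.leaf K3_ok TO_l898 _)
          (CovZ.leaf K3_ok TO_l899 _))
         (CovZ.n1 (-3881, -3199) (by decide +kernel)
          (CovZ.n2 (-3881, -3200) (by decide +kernel)
           (CovZ.leaf K3_ok TO_l900 _)
           (CovZ.leaf K3_ok TO_l901 _))
          (CovZ.leaf K3_ok TO_l902 _)))
        (CovZ.n1 (-3884, -3198) (by decide +kernel)
         (CovZ.n2 (-3883, -3197) (by decide +kernel)
          (CovZ.leaf K3_ok TO_l903 _)
          (CovZ.n1 (-3884, -3197) (by decide +kernel)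
           (CovZ.leaf K3_ok TO_l904 _)
           (CovZ.leaf K3_ok TO_l905 _)))
         (CovZ.n1 (-3883, -3199) (by decide +kernel)
          (CovZ.leaf K3_ok TO_l906 _)
          (CovZ.leaf K3_ok TO_l907 _))))))
     (CovZ.n1 (-3876, -3196) (by decide +kernel)
      (CovZ.n2 (-3876, -3200) (by decide +kernel)
       (CovZ.n2 (-3878, -3198) (by decide +kernel)
        (CovZ.n2 (-3876, -3198) (by decide +kernel)
         (CovZ.n2 (-3877, -3199) (by decide +kernel)
          (CovZ.leaf K3_ok TO_l908 _)
          (CovZ.leaf K3_ok TO_l909 _))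
         (CovZ.n1 (-3877, -3197) (by decide +kernel)
          (CovZ.leaf K3_ok TO_l910 _)
          (CovZ.leaf K3_ok TO_l911 _)))
        (CovZ.n1 (-3878, -3200) (by decide +kernel)
         (CovZ.n2 (-3879, -3199) (by decide +kernel)
          (CovZ.n2 (-3878, -3199) (by decide +kernel)
           (CovZ.leaf K3_ok TO_l912 _)
           (CovZ.leaf K3_ok TO_l913 _))
          (CovZ.leaf K3_ok TO_l914 _))
         (CovZ.n1 (-3877, -3199) (by decide +kernel)
          (CovZ.leaf K3_ok TO_l915 _)
          (CovZ.leaf K3_ok TO_l916 _))))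
       (CovZ.n1 (-3874, -3198) (by decide +kernel)
        (CovZ.n2 (-3874, -3200) (by decide +kernel)
         (CovZ.leaf K3_ok TO_l917 _)
         (CovZ.n1 (-3873, -3199) (by decide +kernel)
          (CovZ.leaf K3_ok TO_l918 _)
          (CovZ.leaf K3_ok TO_l919 _)))
        (CovZ.n1 (-3876, -3198) (by decide +kernel)
         (CovZ.n2 (-3875, -3197) (by decide +kernel)
          (CovZ.leaf K3_ok TO_l920 _)
          (CovZ.leaf K3_ok TO_l921 _))
         (CovZ.leaf K3_ok TO_l922 _))))
      (CovZ.n1 (-3880, -3196) (by decide +kernel)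
       (CovZ.n2 (-3878, -3194) (by decide +kernel)
        (CovZ.n2 (-3878, -3196) (by decide +kernel)
         (CovZ.n2 (-3879, -3195) (by decide +kernel)
          (CovZ.leaf K3_ok TO_l923 _)
          (CovZ.leaf K3_ok TO_l924 _))
         (CovZ.n1 (-3877, -3195) (by decide +kernel)
          (CovZ.leaf K3_ok TO_l925 _)
          (CovZ.leaf K3_ok TO_l926 _)))
        (CovZ.n1 (-3880, -3194) (by decide +kernel)
         (CovZ.n2 (-3879, -3193) (by decide +kernel)
          (CovZ.leaf K3_ok TO_l927 _)
          (CovZ.leaf K3_ok TO_l928 _))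
         (CovZ.leaf K3_ok TO_l929 _)))
       (CovZ.n1 (-3878, -3198) (by decide +kernel)
        (CovZ.n2 (-3880, -3198) (by decide +kernel)
         (CovZ.n2 (-3879, -3197) (by decide +kernel)
          (CovZ.leaf K3_ok TO_l930 _)
          (CovZ.leaf K3_ok TO_l931 _))
         (CovZ.n1 (-3879, -3199) (by decide +kernel)
          (CovZ.n2 (-3880, -3199) (by decide +kernel)
           (CovZ.leaf K3_ok TO_l932 _)
           (CovZ.leaf K3_ok TO_l933 _))
          (CovZ.leaf K3_ok TO_l934 _)))
        (CovZ.n1 (-3878, -3196) (by decide +kernel)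
         (CovZ.leaf K3_ok TO_l935 _)
         (CovZ.leaf K3_ok TO_l936 _))))))))
    (CovZ.topM TO_LL 15 (by decide +kernel) (CovZ.n0 (-3880, -3192) (by decide +kernel)
    (CovZ.n2 (-3888, -3192) (by decide +kernel)
     (CovZ.n2 (-3884, -3188) (by decide +kernel)
      (CovZ.n2 (-3884, -3192) (by decide +kernel)
       (CovZ.badM (by decide +kernel))
       (CovZ.n1 (-3882, -3190) (by decide +kernel)
        (CovZ.n2 (-3882, -3192) (by decide +kernel)
         (CovZ.n2 (-3883, -3191) (by decide +kernel)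
          (CovZ.leaf K3_ok TO_l948 _)
          (CovZ.n1 (-3883, -3192) (by decide +kernel)
           (CovZ.leaf K3_ok TO_l949 _)
           (CovZ.leaf K3_ok TO_l950 _)))
         (CovZ.n1 (-3881, -3191) (by decide +kernel)
          (CovZ.leaf K3_ok TO_l951 _)
          (CovZ.n1 (-3882, -3191) (by decide +kernel)
           (CovZ.leaf K3_ok TO_l952 _)
           (CovZ.leaf K3_ok TO_l953 _))))
        (CovZ.n1 (-3884, -3190) (by decide +kernel)
         (CovZ.n2 (-3883, -3189) (by decide +kernel)
          (CovZ.leaf K3_ok TO_l954 _)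
          (CovZ.badM (by decide +kernel)))
         (CovZ.n1 (-3883, -3191) (by decide +kernel)
          (CovZ.leaf K3_ok TO_l956 _)
          (CovZ.leaf K3_ok TO_l957 _)))))
      (CovZ.badM (by decide +kernel)))
     (CovZ.n1 (-3884, -3196) (by decide +kernel)
      (CovZ.n2 (-3888, -3196) (by decide +kernel)
       (CovZ.n2 (-3886, -3194) (by decide +kernel)
        (CovZ.n2 (-3886, -3196) (by decide +kernel)
         (CovZ.n2 (-3887, -3195) (by decide +kernel)
          (CovZ.n2 (-3886, -3195) (by decide +kernel)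
           (CovZ.leaf K3_ok TO_l979 _)
           (CovZ.leaf K3_ok TO_l980 _))
          (CovZ.leaf K3_ok TO_l981 _))
         (CovZ.n1 (-3885, -3195) (by decide +kernel)
          (CovZ.leaf K3_ok TO_l982 _)
          (CovZ.leaf K3_ok TO_l983 _)))
        (CovZ.n1 (-3888, -3194) (by decide +kernel)
         (CovZ.badM (by decide +kernel))
         (CovZ.n1 (-3887, -3195) (by decide +kernel)
          (CovZ.leaf K3_ok TO_l987 _)
          (CovZ.leaf K3_ok TO_l988 _))))
       (CovZ.n1 (-3886, -3198) (by decide +kernel)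
        (CovZ.n2 (-3888, -3198) (by decide +kernel)
         (CovZ.n2 (-3887, -3197) (by decide +kernel)
          (CovZ.n2 (-3887, -3198) (by decide +kernel)
           (CovZ.leaf K3_ok TO_l989 _)
           (CovZ.leaf K3_ok TO_l990 _))
          (CovZ.n1 (-3888, -3197) (by decide +kernel)
           (CovZ.leaf K3_ok TO_l991 _)
           (CovZ.leaf K3_ok TO_l992 _)))
         (CovZ.n1 (-3887, -3199) (by decide +kernel)
          (CovZ.leaf K3_ok TO_l993 _)
          (CovZ.leaf K3_ok TO_l994 _)))
        (CovZ.n1 (-3886, -3196) (by decide +kernel)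
         (CovZ.n2 (-3885, -3197) (by decide +kernel)
          (CovZ.leaf K3_ok TO_l995 _)
          (CovZ.leaf K3_ok TO_l996 _))
         (CovZ.n1 (-3887, -3197) (by decide +kernel)
          (CovZ.leaf K3_ok TO_l997 _)
          (CovZ.leaf K3_ok TO_l998 _)))))
      (CovZ.n1 (-3884, -3192) (by decide +kernel)
       (CovZ.n2 (-3882, -3194) (by decide +kernel)
        (CovZ.n2 (-3884, -3194) (by decide +kernel)
         (CovZ.n2 (-3883, -3193) (by decide +kernel)
          (CovZ.leaf K3_ok TO_l999 _)
          (CovZ.leaf K3_ok TO_l1000 _))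
         (CovZ.n1 (-3883, -3195) (by decide +kernel)
          (CovZ.leaf K3_ok TO_l1001 _)
          (CovZ.leaf K3_ok TO_l1002 _)))
        (CovZ.n1 (-3882, -3192) (by decide +kernel)
         (CovZ.n2 (-3881, -3193) (by decide +kernel)
          (CovZ.leaf K3_ok TO_l1003 _)
          (CovZ.leaf K3_ok TO_l1004 _))
         (CovZ.n1 (-3883, -3193) (by decide +kernel)
          (CovZ.leaf K3_ok TO_l1005 _)
          (CovZ.n1 (-3882, -3193) (by decide +kernel)
           (CovZ.leaf K3_ok TO_l1006 _)
           (CovZ.leaf K3_ok TO_l1007 _)))))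
       (CovZ.n1 (-3886, -3194) (by decide +kernel)
        (CovZ.badM (by decide +kernel))
        (CovZ.n1 (-3884, -3194) (by decide +kernel)
         (CovZ.n2 (-3885, -3195) (by decide +kernel)
          (CovZ.leaf K3_ok TO_l1014 _)
          (CovZ.n1 (-3884, -3195) (by decide +kernel)
           (CovZ.leaf K3_ok TO_l1015 _)
           (CovZ.leaf K3_ok TO_l1016 _)))
         (CovZ.badM (by decide +kernel)))))))
    (CovZ.n1 (-3880, -3184) (by decide +kernel)
     (CovZ.n2 (-3876, -3188) (by decide +kernel)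
      (CovZ.n2 (-3880, -3188) (by decide +kernel)
       (CovZ.n2 (-3878, -3186) (by decide +kernel)
        (CovZ.n2 (-3878, -3188) (by decide +kernel)
         (CovZ.n2 (-3879, -3187) (by decide +kernel)
          (CovZ.leaf K3_ok TO_l1019 _)
          (CovZ.leaf K3_ok TO_l1020 _))
         (CovZ.n1 (-3877, -3187) (by decide +kernel)
          (CovZ.n2 (-3877, -3188) (by decide +kernel)
           (CovZ.leaf K3_ok TO_l1021 _)
           (CovZ.leaf K3_ok TO_l1022 _))
          (CovZ.leaf K3_ok TO_l1023 _)))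
        (CovZ.n1 (-3880, -3186) (by decide +kernel)
         (CovZ.n2 (-3879, -3185) (by decide +kernel)
          (CovZ.n2 (-3879, -3186) (by decide +kernel)
           (CovZ.leaf K3_ok TO_l1024 _)
           (CovZ.leaf K3_ok TO_l1025 _))
          (CovZ.leaf K3_ok TO_l1026 _))
         (CovZ.leaf K3_ok TO_l1027 _)))
       (CovZ.n1 (-3878, -3190) (by decide +kernel)
        (CovZ.n2 (-3880, -3190) (by decide +kernel)
         (CovZ.n2 (-3879, -3189) (by decide +kernel)
          (CovZ.leaf K3_ok TO_l1028 _)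
          (CovZ.leaf K3_ok TO_l1029 _))
         (CovZ.leaf K3_ok TO_l1030 _))
        (CovZ.n1 (-3878, -3188) (by decide +kernel)
         (CovZ.n2 (-3877, -3189) (by decide +kernel)
          (CovZ.leaf K3_ok TO_l1031 _)
          (CovZ.leaf K3_ok TO_l1032 _))
         (CovZ.leaf K3_ok TO_l1033 _))))
      (CovZ.n1 (-3876, -3184) (by decide +kernel)
       (CovZ.n2 (-3874, -3186) (by decide +kernel)
        (CovZ.n2 (-3876, -3186) (by decide +kernel)
         (CovZ.n2 (-3875, -3185) (by decide +kernel)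
          (CovZ.leaf K3_ok TO_l1034 _)
          (CovZ.leaf K3_ok TO_l1035 _))
         (CovZ.n1 (-3875, -3187) (by decide +kernel)
          (CovZ.leaf K3_ok TO_l1036 _)
          (CovZ.leaf K3_ok TO_l1037 _)))
        (CovZ.n1 (-3874, -3184) (by decide +kernel)
         (CovZ.leaf K3_ok TO_l1038 _)
         (CovZ.leaf K3_ok TO_l1039 _)))
       (CovZ.n1 (-3878, -3186) (by decide +kernel)
        (CovZ.n2 (-3878, -3184) (by decide +kernel)
         (CovZ.n2 (-3877, -3185) (by decide +kernel)
          (CovZ.leaf K3_ok TO_l1040 _)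
          (CovZ.leaf K3_ok TO_l1041 _))
         (CovZ.leaf K3_ok TO_l1042 _))
        (CovZ.n1 (-3876, -3186) (by decide +kernel)
         (CovZ.leaf K3_ok TO_l1043 _)
         (CovZ.n1 (-3877, -3185) (by decide +kernel)
          (CovZ.leaf K3_ok TO_l1044 _)
          (CovZ.leaf K3_ok TO_l1045 _))))))
     (CovZ.n1 (-3884, -3188) (by decide +kernel)
      (CovZ.n2 (-3884, -3184) (by decide +kernel)
       (CovZ.n2 (-3882, -3186) (by decide +kernel)
        (CovZ.n2 (-3884, -3186) (by decide +kernel)
         (CovZ.n2 (-3883, -3185) (by decide +kernel)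
          (CovZ.n2 (-3883, -3186) (by decide +kernel)
           (CovZ.badM (by decide +kernel))
           (CovZ.leaf K3_ok TO_l1047 _))
          (CovZ.badM (by decide +kernel)))
         (CovZ.n1 (-3883, -3187) (by decide +kernel)
          (CovZ.badM (by decide +kernel))
          (CovZ.leaf K3_ok TO_l1051 _)))
        (CovZ.n1 (-3882, -3184) (by decide +kernel)
         (CovZ.n2 (-3881, -3185) (by decide +kernel)
          (CovZ.leaf K3_ok TO_l1052 _)
          (CovZ.leaf K3_ok TO_l1053 _))
         (CovZ.n1 (-3883, -3185) (by decide +kernel)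
          (CovZ.leaf K3_ok TO_l1054 _)
          (CovZ.leaf K3_ok TO_l1055 _))))
       (CovZ.badM (by decide +kernel)))
      (CovZ.n1 (-3880, -3188) (by decide +kernel)
       (CovZ.n2 (-3882, -3190) (by decide +kernel)
        (CovZ.n2 (-3882, -3188) (by decide +kernel)
         (CovZ.n2 (-3881, -3189) (by decide +kernel)
          (CovZ.leaf K3_ok TO_l1067 _)
          (CovZ.leaf K3_ok TO_l1068 _))
         (CovZ.n1 (-3883, -3189) (by decide +kernel)
          (CovZ.leaf K3_ok TO_l1069 _)
          (CovZ.n1 (-3882, -3189) (by decide +kernel)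
           (CovZ.leaf K3_ok TO_l1070 _)
           (CovZ.leaf K3_ok TO_l1071 _))))
        (CovZ.n1 (-3880, -3190) (by decide +kernel)
         (CovZ.n2 (-3881, -3191) (by decide +kernel)
          (CovZ.leaf K3_ok TO_l1072 _)
          (CovZ.n1 (-3880, -3191) (by decide +kernel)
           (CovZ.leaf K3_ok TO_l1073 _)
           (CovZ.leaf K3_ok TO_l1074 _)))
         (CovZ.leaf K3_ok TO_l1075 _)))
       (CovZ.n1 (-3882, -3186) (by decide +kernel)
        (CovZ.n2 (-3880, -3186) (by decide +kernel)
         (CovZ.n2 (-3881, -3187) (by decide +kernel)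
          (CovZ.leaf K3_ok TO_l1076 _)
          (CovZ.leaf K3_ok TO_l1077 _))
         (CovZ.n1 (-3881, -3185) (by decide +kernel)
          (CovZ.n2 (-3880, -3185) (by decide +kernel)
           (CovZ.leaf K3_ok TO_l1078 _)
           (CovZ.leaf K3_ok TO_l1079 _))
          (CovZ.leaf K3_ok TO_l1080 _)))
        (CovZ.n1 (-3882, -3188) (by decide +kernel)
         (CovZ.n2 (-3883, -3187) (by decide +kernel)
          (CovZ.leaf K3_ok TO_l1081 _)
          (CovZ.n1 (-3883, -3188) (by decide +kernel)
           (CovZ.badM (by decide +kernel))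
           (CovZ.leaf K3_ok TO_l1083 _)))
         (CovZ.n1 (-3881, -3187) (by decide +kernel)
          (CovZ.leaf K3_ok TO_l1084 _)
          (CovZ.leaf K3_ok TO_l1085 _)))))))))

theorem TO_s3_2 : SqZ TO_M TO_L [0, 7, 4, 3] (-3920) (-3232) 16 3 2 :=
  SqZ.mk (a := (-3872)) (b := (-3856)) (c := (-3200)) (d := (-3184)) (by norm_num) (by norm_num) (by norm_num) (by norm_num)
    (CovZ.topM TO_LL 15 (by decide +kernel) (CovZ.n2 (-3864, -3192) (by decide +kernel)
    (CovZ.n2 (-3856, -3192) (by decide +kernel)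
     (CovZ.n2 (-3860, -3196) (by decide +kernel)
      (CovZ.n2 (-3860, -3192) (by decide +kernel)
       (CovZ.n2 (-3858, -3194) (by decide +kernel)
        (CovZ.n2 (-3860, -3194) (by decide +kernel)
         (CovZ.leaf K3_ok TO_l1861 _)
         (CovZ.leaf K3_ok TO_l1862 _))
        (CovZ.n1 (-3858, -3192) (by decide +kernel)
         (CovZ.leaf K3_ok TO_l1863 _)
         (CovZ.leaf K3_ok TO_l1864 _)))
       (CovZ.n1 (-3862, -3194) (by decide +kernel)
        (CovZ.leaf K3_ok TO_l1865 _)
        (CovZ.n1 (-3860, -3194) (by decide +kernel)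
         (CovZ.leaf K3_ok TO_l1866 _)
         (CovZ.leaf K3_ok TO_l1867 _))))
      (CovZ.n1 (-3856, -3196) (by decide +kernel)
       (CovZ.n2 (-3858, -3198) (by decide +kernel)
        (CovZ.leaf K3_ok TO_l1868 _)
        (CovZ.n1 (-3856, -3198) (by decide +kernel)
         (CovZ.leaf K3_ok TO_l1869 _)
         (CovZ.leaf K3_ok TO_l1870 _)))
       (CovZ.n1 (-3858, -3194) (by decide +kernel)
        (CovZ.n2 (-3856, -3194) (by decide +kernel)
         (CovZ.leaf K3_ok TO_l1871 _)
         (CovZ.leaf K3_ok TO_l1872 _))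
        (CovZ.n1 (-3858, -3196) (by decide +kernel)
         (CovZ.leaf K3_ok TO_l1873 _)
         (CovZ.leaf K3_ok TO_l1874 _)))))
     (CovZ.n1 (-3860, -3188) (by decide +kernel)
      (CovZ.n2 (-3856, -3188) (by decide +kernel)
       (CovZ.n2 (-3858, -3190) (by decide +kernel)
        (CovZ.leaf K3_ok TO_l1875 _)
        (CovZ.n1 (-3856, -3190) (by decide +kernel)
         (CovZ.leaf K3_ok TO_l1876 _)
         (CovZ.leaf K3_ok TO_l1877 _)))
       (CovZ.n1 (-3858, -3186) (by decide +kernel)
        (CovZ.n2 (-3856, -3186) (by decide +kernel)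
         (CovZ.leaf K3_ok TO_l1878 _)
         (CovZ.leaf K3_ok TO_l1879 _))
        (CovZ.n1 (-3858, -3188) (by decide +kernel)
         (CovZ.leaf K3_ok TO_l1880 _)
         (CovZ.leaf K3_ok TO_l1881 _))))
      (CovZ.n1 (-3860, -3192) (by decide +kernel)
       (CovZ.n2 (-3862, -3190) (by decide +kernel)
        (CovZ.n2 (-3860, -3190) (by decide +kernel)
         (CovZ.leaf K3_ok TO_l1882 _)
         (CovZ.leaf K3_ok TO_l1883 _))
        (CovZ.n1 (-3862, -3192) (by decide +kernel)
         (CovZ.leaf K3_ok TO_l1884 _)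
         (CovZ.leaf K3_ok TO_l1885 _)))
       (CovZ.n1 (-3858, -3190) (by decide +kernel)
        (CovZ.n2 (-3858, -3192) (by decide +kernel)
         (CovZ.leaf K3_ok TO_l1886 _)
         (CovZ.leaf K3_ok TO_l1887 _))
        (CovZ.n1 (-3860, -3190) (by decide +kernel)
         (CovZ.leaf K3_ok TO_l1888 _)
         (CovZ.leaf K3_ok TO_l1889 _))))))
    (CovZ.n1 (-3864, -3200) (by decide +kernel)
     (CovZ.n2 (-3868, -3196) (by decide +kernel)
      (CovZ.n2 (-3864, -3196) (by decide +kernel)
       (CovZ.n2 (-3866, -3198) (by decide +kernel)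
        (CovZ.n2 (-3866, -3196) (by decide +kernel)
         (CovZ.leaf K3_ok TO_l1890 _)
         (CovZ.leaf K3_ok TO_l1891 _))
        (CovZ.n1 (-3864, -3198) (by decide +kernel)
         (CovZ.leaf K3_ok TO_l1892 _)
         (CovZ.leaf K3_ok TO_l1893 _)))
       (CovZ.n1 (-3866, -3194) (by decide +kernel)
        (CovZ.n2 (-3864, -3194) (by decide +kernel)
         (CovZ.leaf K3_ok TO_l1894 _)
         (CovZ.n1 (-3865, -3193) (by decide +kernel)
          (CovZ.leaf K3_ok TO_l1895 _)
          (CovZ.leaf K3_ok TO_l1896 _)))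
        (CovZ.n1 (-3866, -3196) (by decide +kernel)
         (CovZ.leaf K3_ok TO_l1897 _)
         (CovZ.leaf K3_ok TO_l1898 _))))
      (CovZ.n1 (-3868, -3200) (by decide +kernel)
       (CovZ.n2 (-3870, -3198) (by decide +kernel)
        (CovZ.n2 (-3868, -3198) (by decide +kernel)
         (CovZ.leaf K3_ok TO_l1899 _)
         (CovZ.n1 (-3869, -3197) (by decide +kernel)
          (CovZ.leaf K3_ok TO_l1900 _)
          (CovZ.leaf K3_ok TO_l1901 _)))
        (CovZ.n1 (-3870, -3200) (by decide +kernel)
         (CovZ.leaf K3_ok TO_l1902 _)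
         (CovZ.leaf K3_ok TO_l1903 _)))
       (CovZ.n1 (-3866, -3198) (by decide +kernel)
        (CovZ.n2 (-3866, -3200) (by decide +kernel)
         (CovZ.leaf K3_ok TO_l1904 _)
         (CovZ.n1 (-3865, -3199) (by decide +kernel)
          (CovZ.leaf K3_ok TO_l1905 _)
          (CovZ.leaf K3_ok TO_l1906 _)))
        (CovZ.n1 (-3868, -3198) (by decide +kernel)
         (CovZ.leaf K3_ok TO_l1907 _)
         (CovZ.leaf K3_ok TO_l1908 _)))))
     (CovZ.n1 (-3860, -3196) (by decide +kernel)
      (CovZ.n2 (-3860, -3200) (by decide +kernel)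
       (CovZ.n2 (-3862, -3198) (by decide +kernel)
        (CovZ.n2 (-3860, -3198) (by decide +kernel)
         (CovZ.leaf K3_ok TO_l1909 _)
         (CovZ.leaf K3_ok TO_l1910 _))
        (CovZ.n1 (-3862, -3200) (by decide +kernel)
         (CovZ.leaf K3_ok TO_l1911 _)
         (CovZ.leaf K3_ok TO_l1912 _)))
       (CovZ.n1 (-3858, -3198) (by decide +kernel)
        (CovZ.n2 (-3858, -3200) (by decide +kernel)
         (CovZ.leaf K3_ok TO_l1913 _)
         (CovZ.leaf K3_ok TO_l1914 _))
        (CovZ.n1 (-3860, -3198) (by decide +kernel)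
         (CovZ.leaf K3_ok TO_l1915 _)
         (CovZ.leaf K3_ok TO_l1916 _))))
      (CovZ.n1 (-3864, -3196) (by decide +kernel)
       (CovZ.n2 (-3862, -3194) (by decide +kernel)
        (CovZ.n2 (-3862, -3196) (by decide +kernel)
         (CovZ.leaf K3_ok TO_l1917 _)
         (CovZ.leaf K3_ok TO_l1918 _))
        (CovZ.n1 (-3864, -3194) (by decide +kernel)
         (CovZ.leaf K3_ok TO_l1919 _)
         (CovZ.leaf K3_ok TO_l1920 _)))
       (CovZ.n1 (-3862, -3198) (by decide +kernel)
        (CovZ.n2 (-3864, -3198) (by decide +kernel)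
         (CovZ.leaf K3_ok TO_l1921 _)
         (CovZ.leaf K3_ok TO_l1922 _))
        (CovZ.leaf K3_ok TO_l1923 _)))))))
    (CovZ.topM TO_LL 15 (by decide +kernel) (CovZ.n0 (-3864, -3192) (by decide +kernel)
    (CovZ.n2 (-3872, -3192) (by decide +kernel)
     (CovZ.n2 (-3868, -3188) (by decide +kernel)
      (CovZ.n2 (-3868, -3192) (by decide +kernel)
       (CovZ.n2 (-3870, -3190) (by decide +kernel)
        (CovZ.n2 (-3868, -3190) (by decide +kernel)
         (CovZ.leaf K3_ok TO_l1924 _)
         (CovZ.leaf K3_ok TO_l1925 _))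
        (CovZ.n1 (-3870, -3192) (by decide +kernel)
         (CovZ.leaf K3_ok TO_l1926 _)
         (CovZ.leaf K3_ok TO_l1927 _)))
       (CovZ.n1 (-3866, -3190) (by decide +kernel)
        (CovZ.n2 (-3866, -3192) (by decide +kernel)
         (CovZ.leaf K3_ok TO_l1928 _)
         (CovZ.leaf K3_ok TO_l1929 _))
        (CovZ.n1 (-3868, -3190) (by decide +kernel)
         (CovZ.n2 (-3867, -3189) (by decide +kernel)
          (CovZ.leaf K3_ok TO_l1930 _)
          (CovZ.leaf K3_ok TO_l1931 _))
         (CovZ.leaf K3_ok TO_l1932 _))))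
      (CovZ.n1 (-3872, -3188) (by decide +kernel)
       (CovZ.n2 (-3870, -3186) (by decide +kernel)
        (CovZ.n2 (-3870, -3188) (by decide +kernel)
         (CovZ.leaf K3_ok TO_l1933 _)
         (CovZ.leaf K3_ok TO_l1934 _))
        (CovZ.n1 (-3872, -3186) (by decide +kernel)
         (CovZ.n2 (-3871, -3185) (by decide +kernel)
          (CovZ.leaf K3_ok TO_l1935 _)
          (CovZ.leaf K3_ok TO_l1936 _))
         (CovZ.leaf K3_ok TO_l1937 _)))
       (CovZ.n1 (-3870, -3190) (by decide +kernel)
        (CovZ.n2 (-3872, -3190) (by decide +kernel)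
         (CovZ.leaf K3_ok TO_l1938 _)
         (CovZ.leaf K3_ok TO_l1939 _))
        (CovZ.leaf K3_ok TO_l1940 _))))
     (CovZ.n1 (-3868, -3196) (by decide +kernel)
      (CovZ.n2 (-3872, -3196) (by decide +kernel)
       (CovZ.n2 (-3870, -3194) (by decide +kernel)
        (CovZ.n2 (-3870, -3196) (by decide +kernel)
         (CovZ.leaf K3_ok TO_l1941 _)
         (CovZ.n1 (-3869, -3195) (by decide +kernel)
          (CovZ.leaf K3_ok TO_l1942 _)
          (CovZ.leaf K3_ok TO_l1943 _)))
        (CovZ.n1 (-3872, -3194) (by decide +kernel)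
         (CovZ.leaf K3_ok TO_l1944 _)
         (CovZ.leaf K3_ok TO_l1945 _)))
       (CovZ.n1 (-3870, -3198) (by decide +kernel)
        (CovZ.n2 (-3872, -3198) (by decide +kernel)
         (CovZ.n2 (-3871, -3197) (by decide +kernel)
          (CovZ.leaf K3_ok TO_l1946 _)
          (CovZ.leaf K3_ok TO_l1947 _))
         (CovZ.leaf K3_ok TO_l1948 _))
        (CovZ.n1 (-3870, -3196) (by decide +kernel)
         (CovZ.leaf K3_ok TO_l1949 _)
         (CovZ.leaf K3_ok TO_l1950 _))))
      (CovZ.n1 (-3868, -3192) (by decide +kernel)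
       (CovZ.n2 (-3866, -3194) (by decide +kernel)
        (CovZ.n2 (-3868, -3194) (by decide +kernel)
         (CovZ.leaf K3_ok TO_l1951 _)
         (CovZ.leaf K3_ok TO_l1952 _))
        (CovZ.leaf K3_ok TO_l1953 _))
       (CovZ.n1 (-3870, -3194) (by decide +kernel)
        (CovZ.n2 (-3870, -3192) (by decide +kernel)
         (CovZ.leaf K3_ok TO_l1954 _)
         (CovZ.leaf K3_ok TO_l1955 _))
        (CovZ.n1 (-3868, -3194) (by decide +kernel)
         (CovZ.leaf K3_ok TO_l1956 _)
         (CovZ.n1 (-3869, -3193) (by decide +kernel)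
          (CovZ.leaf K3_ok TO_l1957 _)
          (CovZ.leaf K3_ok TO_l1958 _)))))))
    (CovZ.n1 (-3864, -3184) (by decide +kernel)
     (CovZ.n2 (-3860, -3188) (by decide +kernel)
      (CovZ.n2 (-3864, -3188) (by decide +kernel)
       (CovZ.n2 (-3862, -3186) (by decide +kernel)
        (CovZ.n2 (-3862, -3188) (by decide +kernel)
         (CovZ.leaf K3_ok TO_l1959 _)
         (CovZ.leaf K3_ok TO_l1960 _))
        (CovZ.n1 (-3864, -3186) (by decide +kernel)
         (CovZ.leaf K3_ok TO_l1961 _)
         (CovZ.leaf K3_ok TO_l1962 _)))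
       (CovZ.n1 (-3862, -3190) (by decide +kernel)
        (CovZ.n2 (-3864, -3190) (by decide +kernel)
         (CovZ.leaf K3_ok TO_l1963 _)
         (CovZ.leaf K3_ok TO_l1964 _))
        (CovZ.n1 (-3862, -3188) (by decide +kernel)
         (CovZ.leaf K3_ok TO_l1965 _)
         (CovZ.leaf K3_ok TO_l1966 _))))
      (CovZ.n1 (-3860, -3184) (by decide +kernel)
       (CovZ.n2 (-3858, -3186) (by decide +kernel)
        (CovZ.n2 (-3860, -3186) (by decide +kernel)
         (CovZ.leaf K3_ok TO_l1967 _)
         (CovZ.leaf K3_ok TO_l1968 _))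
        (CovZ.leaf K3_ok TO_l1969 _))
       (CovZ.n1 (-3862, -3186) (by decide +kernel)
        (CovZ.leaf K3_ok TO_l1970 _)
        (CovZ.n1 (-3860, -3186) (by decide +kernel)
         (CovZ.leaf K3_ok TO_l1971 _)
         (CovZ.leaf K3_ok TO_l1972 _)))))
     (CovZ.n1 (-3868, -3188) (by decide +kernel)
      (CovZ.n2 (-3868, -3184) (by decide +kernel)
       (CovZ.n2 (-3866, -3186) (by decide +kernel)
        (CovZ.n2 (-3868, -3186) (by decide +kernel)
         (CovZ.leaf K3_ok TO_l1973 _)
         (CovZ.leaf K3_ok TO_l1974 _))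
        (CovZ.n1 (-3866, -3184) (by decide +kernel)
         (CovZ.leaf K3_ok TO_l1975 _)
         (CovZ.leaf K3_ok TO_l1976 _)))
       (CovZ.n1 (-3870, -3186) (by decide +kernel)
        (CovZ.n2 (-3870, -3184) (by decide +kernel)
         (CovZ.leaf K3_ok TO_l1977 _)
         (CovZ.leaf K3_ok TO_l1978 _))
        (CovZ.n1 (-3868, -3186) (by decide +kernel)
         (CovZ.leaf K3_ok TO_l1979 _)
         (CovZ.leaf K3_ok TO_l1980 _))))
      (CovZ.n1 (-3864, -3188) (by decide +kernel)
       (CovZ.n2 (-3866, -3190) (by decide +kernel)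
        (CovZ.n2 (-3866, -3188) (by decide +kernel)
         (CovZ.leaf K3_ok TO_l1981 _)
         (CovZ.n1 (-3867, -3189) (by decide +kernel)
          (CovZ.leaf K3_ok TO_l1982 _)
          (CovZ.n1 (-3866, -3189) (by decide +kernel)
           (CovZ.leaf K3_ok TO_l1983 _)
           (CovZ.leaf K3_ok TO_l1984 _))))
        (CovZ.n1 (-3864, -3190) (by decide +kernel)
         (CovZ.leaf K3_ok TO_l1985 _)
         (CovZ.leaf K3_ok TO_l1986 _)))
       (CovZ.n1 (-3866, -3186) (by decide +kernel)
        (CovZ.n2 (-3864, -3186) (by decide +kernel)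
         (CovZ.leaf K3_ok TO_l1987 _)
         (CovZ.leaf K3_ok TO_l1988 _))
        (CovZ.n1 (-3866, -3188) (by decide +kernel)
         (CovZ.leaf K3_ok TO_l1989 _)
         (CovZ.leaf K3_ok TO_l1990 _))))))))

theorem TO_s4_2 : SqZ TO_M TO_L [0, 7, 4, 3] (-3920) (-3232) 16 4 2 :=
  SqZ.mk (a := (-3856)) (b := (-3840)) (c := (-3200)) (d := (-3184)) (by norm_num) (by norm_num) (by norm_num) (by norm_num)
    (CovZ.topM TO_LL 15 (by decide +kernel) (CovZ.n2 (-3848, -3192) (by decide +kernel)
    (CovZ.n2 (-3840, -3192) (by decide +kernel)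
     (CovZ.n2 (-3844, -3196) (by decide +kernel)
      (CovZ.n2 (-3844, -3192) (by decide +kernel)
       (CovZ.n2 (-3842, -3194) (by decide +kernel)
        (CovZ.n2 (-3844, -3194) (by decide +kernel)
         (CovZ.leaf K3_ok TO_l2474 _)
         (CovZ.leaf K3_ok TO_l2475 _))
        (CovZ.leaf K3_ok TO_l2476 _))
       (CovZ.n1 (-3846, -3194) (by decide +kernel)
        (CovZ.leaf K3_ok TO_l2477 _)
        (CovZ.leaf K3_ok TO_l2478 _)))
      (CovZ.n1 (-3840, -3196) (by decide +kernel)
       (CovZ.n2 (-3842, -3198) (by decide +kernel)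
        (CovZ.leaf K3_ok TO_l2479 _)
        (CovZ.leaf K3_ok TO_l2480 _))
       (CovZ.n1 (-3842, -3194) (by decide +kernel)
        (CovZ.leaf K3_ok TO_l2481 _)
        (CovZ.leaf K3_ok TO_l2482 _))))
     (CovZ.n1 (-3844, -3188) (by decide +kernel)
      (CovZ.n2 (-3840, -3188) (by decide +kernel)
       (CovZ.n2 (-3842, -3190) (by decide +kernel)
        (CovZ.leaf K3_ok TO_l2483 _)
        (CovZ.leaf K3_ok TO_l2484 _))
       (CovZ.n1 (-3842, -3186) (by decide +kernel)
        (CovZ.leaf K3_ok TO_l2485 _)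
        (CovZ.n1 (-3842, -3188) (by decide +kernel)
         (CovZ.leaf K3_ok TO_l2486 _)
         (CovZ.leaf K3_ok TO_l2487 _))))
      (CovZ.n1 (-3844, -3192) (by decide +kernel)
       (CovZ.n2 (-3846, -3190) (by decide +kernel)
        (CovZ.n2 (-3844, -3190) (by decide +kernel)
         (CovZ.leaf K3_ok TO_l2488 _)
         (CovZ.leaf K3_ok TO_l2489 _))
        (CovZ.leaf K3_ok TO_l2490 _))
       (CovZ.n1 (-3842, -3190) (by decide +kernel)
        (CovZ.leaf K3_ok TO_l2491 _)
        (CovZ.leaf K3_ok TO_l2492 _)))))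
    (CovZ.n1 (-3848, -3200) (by decide +kernel)
     (CovZ.n2 (-3852, -3196) (by decide +kernel)
      (CovZ.n2 (-3848, -3196) (by decide +kernel)
       (CovZ.n2 (-3850, -3198) (by decide +kernel)
        (CovZ.leaf K3_ok TO_l2493 _)
        (CovZ.n1 (-3848, -3198) (by decide +kernel)
         (CovZ.leaf K3_ok TO_l2494 _)
         (CovZ.leaf K3_ok TO_l2495 _)))
       (CovZ.n1 (-3850, -3194) (by decide +kernel)
        (CovZ.n2 (-3848, -3194) (by decide +kernel)
         (CovZ.leaf K3_ok TO_l2496 _)
         (CovZ.leaf K3_ok TO_l2497 _))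
        (CovZ.n1 (-3850, -3196) (by decide +kernel)
         (CovZ.leaf K3_ok TO_l2498 _)
         (CovZ.leaf K3_ok TO_l2499 _))))
      (CovZ.n1 (-3852, -3200) (by decide +kernel)
       (CovZ.n2 (-3854, -3198) (by decide +kernel)
        (CovZ.n2 (-3852, -3198) (by decide +kernel)
         (CovZ.n2 (-3853, -3199) (by decide +kernel)
          (CovZ.leaf K3_ok TO_l2500 _)
          (CovZ.leaf K3_ok TO_l2501 _))
         (CovZ.leaf K3_ok TO_l2502 _))
        (CovZ.n1 (-3854, -3200) (by decide +kernel)
         (CovZ.n2 (-3855, -3199) (by decide +kernel)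
          (CovZ.leaf K3_ok TO_l2503 _)
          (CovZ.leaf K3_ok TO_l2504 _))
         (CovZ.leaf K3_ok TO_l2505 _)))
       (CovZ.n1 (-3850, -3198) (by decide +kernel)
        (CovZ.n2 (-3850, -3200) (by decide +kernel)
         (CovZ.leaf K3_ok TO_l2506 _)
         (CovZ.leaf K3_ok TO_l2507 _))
        (CovZ.n1 (-3852, -3198) (by decide +kernel)
         (CovZ.leaf K3_ok TO_l2508 _)
         (CovZ.leaf K3_ok TO_l2509 _)))))
     (CovZ.n1 (-3844, -3196) (by decide +kernel)
      (CovZ.n2 (-3844, -3200) (by decide +kernel)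
       (CovZ.n2 (-3846, -3198) (by decide +kernel)
        (CovZ.leaf K3_ok TO_l2510 _)
        (CovZ.n1 (-3846, -3200) (by decide +kernel)
         (CovZ.leaf K3_ok TO_l2511 _)
         (CovZ.leaf K3_ok TO_l2512 _)))
       (CovZ.n1 (-3842, -3198) (by decide +kernel)
        (CovZ.leaf K3_ok TO_l2513 _)
        (CovZ.n1 (-3844, -3198) (by decide +kernel)
         (CovZ.leaf K3_ok TO_l2514 _)
         (CovZ.leaf K3_ok TO_l2515 _))))
      (CovZ.n1 (-3848, -3196) (by decide +kernel)
       (CovZ.n2 (-3846, -3194) (by decide +kernel)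
        (CovZ.n2 (-3846, -3196) (by decide +kernel)
         (CovZ.leaf K3_ok TO_l2516 _)
         (CovZ.leaf K3_ok TO_l2517 _))
        (CovZ.leaf K3_ok TO_l2518 _))
       (CovZ.n1 (-3846, -3198) (by decide +kernel)
        (CovZ.n2 (-3848, -3198) (by decide +kernel)
         (CovZ.leaf K3_ok TO_l2519 _)
         (CovZ.leaf K3_ok TO_l2520 _))
        (CovZ.leaf K3_ok TO_l2521 _)))))))
    (CovZ.topM TO_LL 15 (by decide +kernel) (CovZ.n0 (-3848, -3192) (by decide +kernel)
    (CovZ.n2 (-3856, -3192) (by decide +kernel)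
     (CovZ.n2 (-3852, -3188) (by decide +kernel)
      (CovZ.n2 (-3852, -3192) (by decide +kernel)
       (CovZ.n2 (-3854, -3190) (by decide +kernel)
        (CovZ.n2 (-3852, -3190) (by decide +kernel)
         (CovZ.leaf K3_ok TO_l2522 _)
         (CovZ.leaf K3_ok TO_l2523 _))
        (CovZ.n1 (-3854, -3192) (by decide +kernel)
         (CovZ.leaf K3_ok TO_l2524 _)
         (CovZ.leaf K3_ok TO_l2525 _)))
       (CovZ.n1 (-3850, -3190) (by decide +kernel)
        (CovZ.n2 (-3850, -3192) (by decide +kernel)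
         (CovZ.leaf K3_ok TO_l2526 _)
         (CovZ.leaf K3_ok TO_l2527 _))
        (CovZ.n1 (-3852, -3190) (by decide +kernel)
         (CovZ.leaf K3_ok TO_l2528 _)
         (CovZ.leaf K3_ok TO_l2529 _))))
      (CovZ.n1 (-3856, -3188) (by decide +kernel)
       (CovZ.n2 (-3854, -3186) (by decide +kernel)
        (CovZ.n2 (-3854, -3188) (by decide +kernel)
         (CovZ.leaf K3_ok TO_l2530 _)
         (CovZ.leaf K3_ok TO_l2531 _))
        (CovZ.n1 (-3856, -3186) (by decide +kernel)
         (CovZ.leaf K3_ok TO_l2532 _)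
         (CovZ.n1 (-3855, -3187) (by decide +kernel)
          (CovZ.leaf K3_ok TO_l2533 _)
          (CovZ.leaf K3_ok TO_l2534 _))))
       (CovZ.n1 (-3854, -3190) (by decide +kernel)
        (CovZ.n2 (-3856, -3190) (by decide +kernel)
         (CovZ.leaf K3_ok TO_l2535 _)
         (CovZ.leaf K3_ok TO_l2536 _))
        (CovZ.leaf K3_ok TO_l2537 _))))
     (CovZ.n1 (-3852, -3196) (by decide +kernel)
      (CovZ.n2 (-3856, -3196) (by decide +kernel)
       (CovZ.n2 (-3854, -3194) (by decide +kernel)
        (CovZ.n2 (-3854, -3196) (by decide +kernel)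
         (CovZ.leaf K3_ok TO_l2538 _)
         (CovZ.leaf K3_ok TO_l2539 _))
        (CovZ.n1 (-3856, -3194) (by decide +kernel)
         (CovZ.leaf K3_ok TO_l2540 _)
         (CovZ.leaf K3_ok TO_l2541 _)))
       (CovZ.n1 (-3854, -3198) (by decide +kernel)
        (CovZ.n2 (-3856, -3198) (by decide +kernel)
         (CovZ.leaf K3_ok TO_l2542 _)
         (CovZ.leaf K3_ok TO_l2543 _))
        (CovZ.leaf K3_ok TO_l2544 _)))
      (CovZ.n1 (-3852, -3192) (by decide +kernel)
       (CovZ.n2 (-3850, -3194) (by decide +kernel)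
        (CovZ.n2 (-3852, -3194) (by decide +kernel)
         (CovZ.leaf K3_ok TO_l2545 _)
         (CovZ.leaf K3_ok TO_l2546 _))
        (CovZ.leaf K3_ok TO_l2547 _))
       (CovZ.n1 (-3854, -3194) (by decide +kernel)
        (CovZ.n2 (-3854, -3192) (by decide +kernel)
         (CovZ.leaf K3_ok TO_l2548 _)
         (CovZ.leaf K3_ok TO_l2549 _))
        (CovZ.n1 (-3852, -3194) (by decide +kernel)
         (CovZ.leaf K3_ok TO_l2550 _)
         (CovZ.leaf K3_ok TO_l2551 _))))))
    (CovZ.n1 (-3848, -3184) (by decide +kernel)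
     (CovZ.n2 (-3844, -3188) (by decide +kernel)
      (CovZ.n2 (-3848, -3188) (by decide +kernel)
       (CovZ.n2 (-3846, -3186) (by decide +kernel)
        (CovZ.n2 (-3846, -3188) (by decide +kernel)
         (CovZ.leaf K3_ok TO_l2552 _)
         (CovZ.leaf K3_ok TO_l2553 _))
        (CovZ.n1 (-3848, -3186) (by decide +kernel)
         (CovZ.leaf K3_ok TO_l2554 _)
         (CovZ.leaf K3_ok TO_l2555 _)))
       (CovZ.n1 (-3846, -3190) (by decide +kernel)
        (CovZ.n2 (-3848, -3190) (by decide +kernel)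
         (CovZ.leaf K3_ok TO_l2556 _)
         (CovZ.leaf K3_ok TO_l2557 _))
        (CovZ.leaf K3_ok TO_l2558 _)))
      (CovZ.n1 (-3844, -3184) (by decide +kernel)
       (CovZ.n2 (-3842, -3186) (by decide +kernel)
        (CovZ.leaf K3_ok TO_l2559 _)
        (CovZ.leaf K3_ok TO_l2560 _))
       (CovZ.n1 (-3846, -3186) (by decide +kernel)
        (CovZ.leaf K3_ok TO_l2561 _)
        (CovZ.n1 (-3844, -3186) (by decide +kernel)
         (CovZ.leaf K3_ok TO_l2562 _)
         (CovZ.leaf K3_ok TO_l2563 _)))))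
     (CovZ.n1 (-3852, -3188) (by decide +kernel)
      (CovZ.n2 (-3852, -3184) (by decide +kernel)
       (CovZ.n2 (-3850, -3186) (by decide +kernel)
        (CovZ.n2 (-3852, -3186) (by decide +kernel)
         (CovZ.leaf K3_ok TO_l2564 _)
         (CovZ.leaf K3_ok TO_l2565 _))
        (CovZ.leaf K3_ok TO_l2566 _))
       (CovZ.n1 (-3854, -3186) (by decide +kernel)
        (CovZ.leaf K3_ok TO_l2567 _)
        (CovZ.n1 (-3852, -3186) (by decide +kernel)
         (CovZ.leaf K3_ok TO_l2568 _)
         (CovZ.leaf K3_ok TO_l2569 _))))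
      (CovZ.n1 (-3848, -3188) (by decide +kernel)
       (CovZ.n2 (-3850, -3190) (by decide +kernel)
        (CovZ.leaf K3_ok TO_l2570 _)
        (CovZ.n1 (-3848, -3190) (by decide +kernel)
         (CovZ.leaf K3_ok TO_l2571 _)
         (CovZ.leaf K3_ok TO_l2572 _)))
       (CovZ.n1 (-3850, -3186) (by decide +kernel)
        (CovZ.n2 (-3848, -3186) (by decide +kernel)
         (CovZ.leaf K3_ok TO_l2573 _)
         (CovZ.leaf K3_ok TO_l2574 _))
        (CovZ.n1 (-3850, -3188) (by decide +kernel)
         (CovZ.leaf K3_ok TO_l2575 _)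
         (CovZ.leaf K3_ok TO_l2576 _))))))))

theorem TO_s5_2 : SqZ TO_M TO_L [0, 7, 4, 3] (-3920) (-3232) 16 5 2 :=
  SqZ.mk (a := (-3840)) (b := (-3824)) (c := (-3200)) (d := (-3184)) (by norm_num) (by norm_num) (by norm_num) (by norm_num)
    (CovZ.topM TO_LL 15 (by decide +kernel) (CovZ.n2 (-3832, -3192) (by decide +kernel)
    (CovZ.n2 (-3824, -3192) (by decide +kernel)
     (CovZ.n2 (-3828, -3196) (by decide +kernel)
      (CovZ.n2 (-3828, -3192) (by decide +kernel)
       (CovZ.n2 (-3826, -3194) (by decide +kernel)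
        (CovZ.n2 (-3828, -3194) (by decide +kernel)
         (CovZ.n2 (-3827, -3193) (by decide +kernel)
          (CovZ.leaf K3_ok TO_l3032 _)
          (CovZ.leaf K3_ok TO_l3033 _))
         (CovZ.leaf K3_ok TO_l3034 _))
        (CovZ.n1 (-3826, -3192) (by decide +kernel)
         (CovZ.n2 (-3825, -3193) (by decide +kernel)
          (CovZ.leaf K3_ok TO_l3035 _)
          (CovZ.leaf K3_ok TO_l3036 _))
         (CovZ.leaf K3_ok TO_l3037 _)))
       (CovZ.n1 (-3830, -3194) (by decide +kernel)
        (CovZ.leaf K3_ok TO_l3038 _)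
        (CovZ.n1 (-3828, -3194) (by decide +kernel)
         (CovZ.leaf K3_ok TO_l3039 _)
         (CovZ.leaf K3_ok TO_l3040 _))))
      (CovZ.n1 (-3824, -3196) (by decide +kernel)
       (CovZ.n2 (-3826, -3198) (by decide +kernel)
        (CovZ.n2 (-3826, -3196) (by decide +kernel)
         (CovZ.n2 (-3825, -3197) (by decide +kernel)
          (CovZ.leaf K3_ok TO_l3041 _)
          (CovZ.leaf K3_ok TO_l3042 _))
         (CovZ.leaf K3_ok TO_l3043 _))
        (CovZ.n1 (-3824, -3198) (by decide +kernel)
         (CovZ.n2 (-3825, -3199) (by decide +kernel)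
          (CovZ.leaf K3_ok TO_l3044 _)
          (CovZ.leaf K3_ok TO_l3045 _))
         (CovZ.n1 (-3825, -3197) (by decide +kernel)
          (CovZ.leaf K3_ok TO_l3046 _)
          (CovZ.leaf K3_ok TO_l3047 _))))
       (CovZ.n1 (-3826, -3194) (by decide +kernel)
        (CovZ.n2 (-3824, -3194) (by decide +kernel)
         (CovZ.n2 (-3825, -3195) (by decide +kernel)
          (CovZ.leaf K3_ok TO_l3048 _)
          (CovZ.n1 (-3824, -3195) (by decide +kernel)
           (CovZ.leaf K3_ok TO_l3049 _)
           (CovZ.leaf K3_ok TO_l3050 _)))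
         (CovZ.n1 (-3825, -3193) (by decide +kernel)
          (CovZ.n2 (-3824, -3193) (by decide +kernel)
           (CovZ.leaf K3_ok TO_l3051 _)
           (CovZ.leaf K3_ok TO_l3052 _))
          (CovZ.leaf K3_ok TO_l3053 _)))
        (CovZ.n1 (-3826, -3196) (by decide +kernel)
         (CovZ.n2 (-3827, -3195) (by decide +kernel)
          (CovZ.leaf K3_ok TO_l3054 _)
          (CovZ.leaf K3_ok TO_l3055 _))
         (CovZ.n1 (-3825, -3195) (by decide +kernel)
          (CovZ.leaf K3_ok TO_l3056 _)
          (CovZ.leaf K3_ok TO_l3057 _))))))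
     (CovZ.n1 (-3828, -3188) (by decide +kernel)
      (CovZ.n2 (-3824, -3188) (by decide +kernel)
       (CovZ.n2 (-3826, -3190) (by decide +kernel)
        (CovZ.n2 (-3826, -3188) (by decide +kernel)
         (CovZ.n2 (-3825, -3189) (by decide +kernel)
          (CovZ.leaf K3_ok TO_l3058 _)
          (CovZ.leaf K3_ok TO_l3059 _))
         (CovZ.n1 (-3827, -3189) (by decide +kernel)
          (CovZ.leaf K3_ok TO_l3060 _)
          (CovZ.leaf K3_ok TO_l3061 _)))
        (CovZ.n1 (-3824, -3190) (by decide +kernel)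
         (CovZ.n2 (-3825, -3191) (by decide +kernel)
          (CovZ.leaf K3_ok TO_l3062 _)
          (CovZ.n1 (-3824, -3191) (by decide +kernel)
           (CovZ.leaf K3_ok TO_l3063 _)
           (CovZ.leaf K3_ok TO_l3064 _)))
         (CovZ.n1 (-3825, -3189) (by decide +kernel)
          (CovZ.n2 (-3824, -3189) (by decide +kernel)
           (CovZ.leaf K3_ok TO_l3065 _)
           (CovZ.leaf K3_ok TO_l3066 _))
          (CovZ.leaf K3_ok TO_l3067 _))))
       (CovZ.n1 (-3826, -3186) (by decide +kernel)
        (CovZ.n2 (-3824, -3186) (by decide +kernel)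
         (CovZ.n2 (-3825, -3187) (by decide +kernel)
          (CovZ.leaf K3_ok TO_l3068 _)
          (CovZ.n1 (-3824, -3187) (by decide +kernel)
           (CovZ.leaf K3_ok TO_l3069 _)
           (CovZ.leaf K3_ok TO_l3070 _)))
         (CovZ.n1 (-3825, -3185) (by decide +kernel)
          (CovZ.n2 (-3824, -3185) (by decide +kernel)
           (CovZ.leaf K3_ok TO_l3071 _)
           (CovZ.leaf K3_ok TO_l3072 _))
          (CovZ.n1 (-3825, -3186) (by decide +kernel)
           (CovZ.leaf K3_ok TO_l3073 _)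
           (CovZ.leaf K3_ok TO_l3074 _))))
        (CovZ.n1 (-3826, -3188) (by decide +kernel)
         (CovZ.n2 (-3827, -3187) (by decide +kernel)
          (CovZ.n2 (-3826, -3187) (by decide +kernel)
           (CovZ.leaf K3_ok TO_l3075 _)
           (CovZ.leaf K3_ok TO_l3076 _))
          (CovZ.leaf K3_ok TO_l3077 _))
         (CovZ.n1 (-3825, -3187) (by decide +kernel)
          (CovZ.leaf K3_ok TO_l3078 _)
          (CovZ.leaf K3_ok TO_l3079 _)))))
      (CovZ.n1 (-3828, -3192) (by decide +kernel)
       (CovZ.n2 (-3830, -3190) (by decide +kernel)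
        (CovZ.n2 (-3828, -3190) (by decide +kernel)
         (CovZ.leaf K3_ok TO_l3080 _)
         (CovZ.leaf K3_ok TO_l3081 _))
        (CovZ.n1 (-3830, -3192) (by decide +kernel)
         (CovZ.leaf K3_ok TO_l3082 _)
         (CovZ.n1 (-3829, -3191) (by decide +kernel)
          (CovZ.leaf K3_ok TO_l3083 _)
          (CovZ.leaf K3_ok TO_l3084 _))))
       (CovZ.n1 (-3826, -3190) (by decide +kernel)
        (CovZ.n2 (-3826, -3192) (by decide +kernel)
         (CovZ.n2 (-3827, -3191) (by decide +kernel)
          (CovZ.leaf K3_ok TO_l3085 _)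
          (CovZ.leaf K3_ok TO_l3086 _))
         (CovZ.n1 (-3825, -3191) (by decide +kernel)
          (CovZ.leaf K3_ok TO_l3087 _)
          (CovZ.leaf K3_ok TO_l3088 _)))
        (CovZ.n1 (-3828, -3190) (by decide +kernel)
         (CovZ.n2 (-3827, -3189) (by decide +kernel)
          (CovZ.leaf K3_ok TO_l3089 _)
          (CovZ.leaf K3_ok TO_l3090 _))
         (CovZ.n1 (-3827, -3191) (by decide +kernel)
          (CovZ.leaf K3_ok TO_l3091 _)
          (CovZ.leaf K3_ok TO_l3092 _)))))))
    (CovZ.n1 (-3832, -3200) (by decide +kernel)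
     (CovZ.n2 (-3836, -3196) (by decide +kernel)
      (CovZ.n2 (-3832, -3196) (by decide +kernel)
       (CovZ.n2 (-3834, -3198) (by decide +kernel)
        (CovZ.leaf K3_ok TO_l3093 _)
        (CovZ.n1 (-3832, -3198) (by decide +kernel)
         (CovZ.leaf K3_ok TO_l3094 _)
         (CovZ.leaf K3_ok TO_l3095 _)))
       (CovZ.n1 (-3834, -3194) (by decide +kernel)
        (CovZ.n2 (-3832, -3194) (by decide +kernel)
         (CovZ.leaf K3_ok TO_l3096 _)
         (CovZ.leaf K3_ok TO_l3097 _))
        (CovZ.n1 (-3834, -3196) (by decide +kernel)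
         (CovZ.leaf K3_ok TO_l3098 _)
         (CovZ.leaf K3_ok TO_l3099 _))))
      (CovZ.n1 (-3836, -3200) (by decide +kernel)
       (CovZ.n2 (-3838, -3198) (by decide +kernel)
        (CovZ.leaf K3_ok TO_l3100 _)
        (CovZ.n1 (-3838, -3200) (by decide +kernel)
         (CovZ.leaf K3_ok TO_l3101 _)
         (CovZ.leaf K3_ok TO_l3102 _)))
       (CovZ.n1 (-3834, -3198) (by decide +kernel)
        (CovZ.n2 (-3834, -3200) (by decide +kernel)
         (CovZ.leaf K3_ok TO_l3103 _)
         (CovZ.leaf K3_ok TO_l3104 _))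
        (CovZ.n1 (-3836, -3198) (by decide +kernel)
         (CovZ.leaf K3_ok TO_l3105 _)
         (CovZ.leaf K3_ok TO_l3106 _)))))
     (CovZ.n1 (-3828, -3196) (by decide +kernel)
      (CovZ.n2 (-3828, -3200) (by decide +kernel)
       (CovZ.n2 (-3830, -3198) (by decide +kernel)
        (CovZ.n2 (-3828, -3198) (by decide +kernel)
         (CovZ.leaf K3_ok TO_l3107 _)
         (CovZ.leaf K3_ok TO_l3108 _))
        (CovZ.n1 (-3830, -3200) (by decide +kernel)
         (CovZ.leaf K3_ok TO_l3109 _)
         (CovZ.leaf K3_ok TO_l3110 _)))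
       (CovZ.n1 (-3826, -3198) (by decide +kernel)
        (CovZ.n2 (-3826, -3200) (by decide +kernel)
         (CovZ.leaf K3_ok TO_l3111 _)
         (CovZ.n1 (-3825, -3199) (by decide +kernel)
          (CovZ.leaf K3_ok TO_l3112 _)
          (CovZ.leaf K3_ok TO_l3113 _)))
        (CovZ.n1 (-3828, -3198) (by decide +kernel)
         (CovZ.leaf K3_ok TO_l3114 _)
         (CovZ.leaf K3_ok TO_l3115 _))))
      (CovZ.n1 (-3832, -3196) (by decide +kernel)
       (CovZ.n2 (-3830, -3194) (by decide +kernel)
        (CovZ.n2 (-3830, -3196) (by decide +kernel)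
         (CovZ.leaf K3_ok TO_l3116 _)
         (CovZ.leaf K3_ok TO_l3117 _))
        (CovZ.n1 (-3832, -3194) (by decide +kernel)
         (CovZ.leaf K3_ok TO_l3118 _)
         (CovZ.leaf K3_ok TO_l3119 _)))
       (CovZ.n1 (-3830, -3198) (by decide +kernel)
        (CovZ.n2 (-3832, -3198) (by decide +kernel)
         (CovZ.leaf K3_ok TO_l3120 _)
         (CovZ.leaf K3_ok TO_l3121 _))
        (CovZ.leaf K3_ok TO_l3122 _)))))))
    (CovZ.topM TO_LL 15 (by decide +kernel) (CovZ.n0 (-3832, -3192) (by decide +kernel)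
    (CovZ.n2 (-3840, -3192) (by decide +kernel)
     (CovZ.n2 (-3836, -3188) (by decide +kernel)
      (CovZ.n2 (-3836, -3192) (by decide +kernel)
       (CovZ.n2 (-3838, -3190) (by decide +kernel)
        (CovZ.n2 (-3836, -3190) (by decide +kernel)
         (CovZ.leaf K3_ok TO_l3123 _)
         (CovZ.leaf K3_ok TO_l3124 _))
        (CovZ.n1 (-3838, -3192) (by decide +kernel)
         (CovZ.leaf K3_ok TO_l3125 _)
         (CovZ.leaf K3_ok TO_l3126 _)))
       (CovZ.n1 (-3834, -3190) (by decide +kernel)
        (CovZ.n2 (-3834, -3192) (by decide +kernel)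
         (CovZ.leaf K3_ok TO_l3127 _)
         (CovZ.leaf K3_ok TO_l3128 _))
        (CovZ.leaf K3_ok TO_l3129 _)))
      (CovZ.n1 (-3840, -3188) (by decide +kernel)
       (CovZ.n2 (-3838, -3186) (by decide +kernel)
        (CovZ.n2 (-3838, -3188) (by decide +kernel)
         (CovZ.leaf K3_ok TO_l3130 _)
         (CovZ.leaf K3_ok TO_l3131 _))
        (CovZ.n1 (-3840, -3186) (by decide +kernel)
         (CovZ.leaf K3_ok TO_l3132 _)
         (CovZ.leaf K3_ok TO_l3133 _)))
       (CovZ.n1 (-3838, -3190) (by decide +kernel)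
        (CovZ.leaf K3_ok TO_l3134 _)
        (CovZ.leaf K3_ok TO_l3135 _))))
     (CovZ.n1 (-3836, -3196) (by decide +kernel)
      (CovZ.n2 (-3840, -3196) (by decide +kernel)
       (CovZ.n2 (-3838, -3194) (by decide +kernel)
        (CovZ.leaf K3_ok TO_l3136 _)
        (CovZ.leaf K3_ok TO_l3137 _))
       (CovZ.n1 (-3838, -3198) (by decide +kernel)
        (CovZ.leaf K3_ok TO_l3138 _)
        (CovZ.leaf K3_ok TO_l3139 _)))
      (CovZ.n1 (-3836, -3192) (by decide +kernel)
       (CovZ.n2 (-3834, -3194) (by decide +kernel)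
        (CovZ.n2 (-3836, -3194) (by decide +kernel)
         (CovZ.leaf K3_ok TO_l3140 _)
         (CovZ.leaf K3_ok TO_l3141 _))
        (CovZ.leaf K3_ok TO_l3142 _))
       (CovZ.n1 (-3838, -3194) (by decide +kernel)
        (CovZ.leaf K3_ok TO_l3143 _)
        (CovZ.n1 (-3836, -3194) (by decide +kernel)
         (CovZ.leaf K3_ok TO_l3144 _)
         (CovZ.leaf K3_ok TO_l3145 _))))))
    (CovZ.n1 (-3832, -3184) (by decide +kernel)
     (CovZ.n2 (-3828, -3188) (by decide +kernel)
      (CovZ.n2 (-3832, -3188) (by decide +kernel)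
       (CovZ.n2 (-3830, -3186) (by decide +kernel)
        (CovZ.n2 (-3830, -3188) (by decide +kernel)
         (CovZ.leaf K3_ok TO_l3146 _)
         (CovZ.n1 (-3829, -3187) (by decide +kernel)
          (CovZ.leaf K3_ok TO_l3147 _)
          (CovZ.leaf K3_ok TO_l3148 _)))
        (CovZ.n1 (-3832, -3186) (by decide +kernel)
         (CovZ.leaf K3_ok TO_l3149 _)
         (CovZ.leaf K3_ok TO_l3150 _)))
       (CovZ.n1 (-3830, -3190) (by decide +kernel)
        (CovZ.n2 (-3832, -3190) (by decide +kernel)
         (CovZ.leaf K3_ok TO_l3151 _)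
         (CovZ.leaf K3_ok TO_l3152 _))
        (CovZ.n1 (-3830, -3188) (by decide +kernel)
         (CovZ.leaf K3_ok TO_l3153 _)
         (CovZ.leaf K3_ok TO_l3154 _))))
      (CovZ.n1 (-3828, -3184) (by decide +kernel)
       (CovZ.n2 (-3826, -3186) (by decide +kernel)
        (CovZ.n2 (-3828, -3186) (by decide +kernel)
         (CovZ.leaf K3_ok TO_l3155 _)
         (CovZ.leaf K3_ok TO_l3156 _))
        (CovZ.n1 (-3826, -3184) (by decide +kernel)
         (CovZ.n2 (-3825, -3185) (by decide +kernel)
          (CovZ.leaf K3_ok TO_l3157 _)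
          (CovZ.leaf K3_ok TO_l3158 _))
         (CovZ.leaf K3_ok TO_l3159 _)))
       (CovZ.n1 (-3830, -3186) (by decide +kernel)
        (CovZ.n2 (-3830, -3184) (by decide +kernel)
         (CovZ.leaf K3_ok TO_l3160 _)
         (CovZ.leaf K3_ok TO_l3161 _))
        (CovZ.n1 (-3828, -3186) (by decide +kernel)
         (CovZ.n2 (-3829, -3187) (by decide +kernel)
          (CovZ.leaf K3_ok TO_l3162 _)
          (CovZ.leaf K3_ok TO_l3163 _))
         (CovZ.leaf K3_ok TO_l3164 _)))))
     (CovZ.n1 (-3836, -3188) (by decide +kernel)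
      (CovZ.n2 (-3836, -3184) (by decide +kernel)
       (CovZ.n2 (-3834, -3186) (by decide +kernel)
        (CovZ.leaf K3_ok TO_l3165 _)
        (CovZ.leaf K3_ok TO_l3166 _))
       (CovZ.n1 (-3838, -3186) (by decide +kernel)
        (CovZ.leaf K3_ok TO_l3167 _)
        (CovZ.leaf K3_ok TO_l3168 _)))
      (CovZ.n1 (-3832, -3188) (by decide +kernel)
       (CovZ.n2 (-3834, -3190) (by decide +kernel)
        (CovZ.leaf K3_ok TO_l3169 _)
        (CovZ.n1 (-3832, -3190) (by decide +kernel)
         (CovZ.leaf K3_ok TO_l3170 _)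
         (CovZ.leaf K3_ok TO_l3171 _)))
       (CovZ.n1 (-3834, -3186) (by decide +kernel)
        (CovZ.n2 (-3832, -3186) (by decide +kernel)
         (CovZ.leaf K3_ok TO_l3172 _)
         (CovZ.leaf K3_ok TO_l3173 _))
        (CovZ.leaf K3_ok TO_l3174 _)))))))

theorem TO_s6_2 : SqZ TO_M TO_L [0, 7, 4, 3] (-3920) (-3232) 16 6 2 :=
  SqZ.mk (a := (-3824)) (b := (-3808)) (c := (-3200)) (d := (-3184)) (by norm_num) (by norm_num) (by norm_num) (by norm_num)
    (CovZ.topM TO_LL 12 (by decide +kernel) (CovZ.n2 (-3816, -3192) (by decide +kernel)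
    (CovZ.badM (by decide +kernel))
    (CovZ.n1 (-3816, -3200) (by decide +kernel)
     (CovZ.n2 (-3820, -3196) (by decide +kernel)
      (CovZ.badM (by decide +kernel))
      (CovZ.n1 (-3820, -3200) (by decide +kernel)
       (CovZ.n2 (-3822, -3198) (by decide +kernel)
        (CovZ.n2 (-3820, -3198) (by decide +kernel)
         (CovZ.n2 (-3821, -3199) (by decide +kernel)
          (CovZ.n2 (-3821, -3198) (by decide +kernel)
           (CovZ.badM (by decide +kernel))
           (CovZ.leaf K3_ok TO_l3604 _))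
          (CovZ.badM (by decide +kernel)))
         (CovZ.n1 (-3821, -3197) (by decide +kernel)
          (CovZ.badM (by decide +kernel))
          (CovZ.n1 (-3821, -3198) (by decide +kernel)
           (CovZ.leaf K3_ok TO_l3605 _)
           (CovZ.badM (by decide +kernel)))))
        (CovZ.n1 (-3822, -3200) (by decide +kernel)
         (CovZ.n2 (-3823, -3199) (by decide +kernel)
          (CovZ.n2 (-3822, -3199) (by decide +kernel)
           (CovZ.leaf K3_ok TO_l3606 _)
           (CovZ.leaf K3_ok TO_l3607 _))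
          (CovZ.n1 (-3823, -3200) (by decide +kernel)
           (CovZ.leaf K3_ok TO_l3608 _)
           (CovZ.leaf K3_ok TO_l3609 _)))
         (CovZ.n1 (-3821, -3199) (by decide +kernel)
          (CovZ.n2 (-3821, -3200) (by decide +kernel)
           (CovZ.leaf K3_ok TO_l3610 _)
           (CovZ.badM (by decide +kernel)))
          (CovZ.n1 (-3822, -3199) (by decide +kernel)
           (CovZ.leaf K3_ok TO_l3611 _)
           (CovZ.leaf K3_ok TO_l3612 _)))))
       (CovZ.badM (by decide +kernel))))
     (CovZ.badM (by decide +kernel)))))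
    (CovZ.topM TO_LL 12 (by decide +kernel) (CovZ.n0 (-3816, -3192) (by decide +kernel)
    (CovZ.n2 (-3824, -3192) (by decide +kernel)
     (CovZ.n2 (-3820, -3188) (by decide +kernel)
      (CovZ.n2 (-3820, -3192) (by decide +kernel)
       (CovZ.n2 (-3822, -3190) (by decide +kernel)
        (CovZ.badM (by decide +kernel))
        (CovZ.n1 (-3822, -3192) (by decide +kernel)
         (CovZ.n2 (-3823, -3191) (by decide +kernel)
          (CovZ.badM (by decide +kernel))
          (CovZ.leaf K3_ok TO_l3615 _))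
         (CovZ.badM (by decide +kernel))))
       (CovZ.badM (by decide +kernel)))
      (CovZ.n1 (-3824, -3188) (by decide +kernel)
       (CovZ.n2 (-3822, -3186) (by decide +kernel)
        (CovZ.n2 (-3822, -3188) (by decide +kernel)
         (CovZ.n2 (-3823, -3187) (by decide +kernel)
          (CovZ.badM (by decide +kernel))
          (CovZ.leaf K3_ok TO_l3618 _))
         (CovZ.badM (by decide +kernel)))
        (CovZ.n1 (-3824, -3186) (by decide +kernel)
         (CovZ.n2 (-3823, -3185) (by decide +kernel)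
          (CovZ.n2 (-3823, -3186) (by decide +kernel)
           (CovZ.leaf K3_ok TO_l3619 _)
           (CovZ.badM (by decide +kernel)))
          (CovZ.leaf K3_ok TO_l3620 _))
         (CovZ.n1 (-3823, -3187) (by decide +kernel)
          (CovZ.leaf K3_ok TO_l3621 _)
          (CovZ.leaf K3_ok TO_l3622 _))))
       (CovZ.n1 (-3822, -3190) (by decide +kernel)
        (CovZ.n2 (-3824, -3190) (by decide +kernel)
         (CovZ.n2 (-3823, -3189) (by decide +kernel)
          (CovZ.n2 (-3823, -3190) (by decide +kernel)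
           (CovZ.leaf K3_ok TO_l3623 _)
           (CovZ.badM (by decide +kernel)))
          (CovZ.n1 (-3824, -3189) (by decide +kernel)
           (CovZ.leaf K3_ok TO_l3625 _)
           (CovZ.leaf K3_ok TO_l3626 _)))
         (CovZ.n1 (-3823, -3191) (by decide +kernel)
          (CovZ.leaf K3_ok TO_l3627 _)
          (CovZ.leaf K3_ok TO_l3628 _)))
        (CovZ.n1 (-3822, -3188) (by decide +kernel)
         (CovZ.badM (by decide +kernel))
         (CovZ.n1 (-3823, -3189) (by decide +kernel)
          (CovZ.leaf K3_ok TO_l3629 _)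
          (CovZ.badM (by decide +kernel)))))))
     (CovZ.n1 (-3820, -3196) (by decide +kernel)
      (CovZ.n2 (-3824, -3196) (by decide +kernel)
       (CovZ.n2 (-3822, -3194) (by decide +kernel)
        (CovZ.n2 (-3822, -3196) (by decide +kernel)
         (CovZ.n2 (-3823, -3195) (by decide +kernel)
          (CovZ.n2 (-3822, -3195) (by decide +kernel)
           (CovZ.leaf K3_ok TO_l3632 _)
           (CovZ.leaf K3_ok TO_l3633 _))
          (CovZ.n1 (-3823, -3196) (by decide +kernel)
           (CovZ.leaf K3_ok TO_l3634 _)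
           (CovZ.leaf K3_ok TO_l3635 _)))
         (CovZ.n1 (-3821, -3195) (by decide +kernel)
          (CovZ.n2 (-3821, -3196) (by decide +kernel)
           (CovZ.leaf K3_ok TO_l3636 _)
           (CovZ.leaf K3_ok TO_l3637 _))
          (CovZ.n1 (-3822, -3195) (by decide +kernel)
           (CovZ.leaf K3_ok TO_l3638 _)
           (CovZ.leaf K3_ok TO_l3639 _))))
        (CovZ.n1 (-3824, -3194) (by decide +kernel)
         (CovZ.n2 (-3823, -3193) (by decide +kernel)
          (CovZ.leaf K3_ok TO_l3640 _)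
          (CovZ.leaf K3_ok TO_l3641 _))
         (CovZ.n1 (-3823, -3195) (by decide +kernel)
          (CovZ.n2 (-3824, -3195) (by decide +kernel)
           (CovZ.leaf K3_ok TO_l3642 _)
           (CovZ.leaf K3_ok TO_l3643 _))
          (CovZ.leaf K3_ok TO_l3644 _))))
       (CovZ.n1 (-3822, -3198) (by decide +kernel)
        (CovZ.n2 (-3824, -3198) (by decide +kernel)
         (CovZ.n2 (-3823, -3197) (by decide +kernel)
          (CovZ.n2 (-3823, -3198) (by decide +kernel)
           (CovZ.leaf K3_ok TO_l3645 _)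
           (CovZ.leaf K3_ok TO_l3646 _))
          (CovZ.leaf K3_ok TO_l3647 _))
         (CovZ.n1 (-3823, -3199) (by decide +kernel)
          (CovZ.leaf K3_ok TO_l3648 _)
          (CovZ.leaf K3_ok TO_l3649 _)))
        (CovZ.n1 (-3822, -3196) (by decide +kernel)
         (CovZ.n2 (-3821, -3197) (by decide +kernel)
          (CovZ.n2 (-3822, -3197) (by decide +kernel)
           (CovZ.leaf K3_ok TO_l3650 _)
           (CovZ.leaf K3_ok TO_l3651 _))
          (CovZ.leaf K3_ok TO_l3652 _))
         (CovZ.n1 (-3823, -3197) (by decide +kernel)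
          (CovZ.leaf K3_ok TO_l3653 _)
          (CovZ.n1 (-3822, -3197) (by decide +kernel)
           (CovZ.leaf K3_ok TO_l3654 _)
           (CovZ.leaf K3_ok TO_l3655 _))))))
      (CovZ.n1 (-3820, -3192) (by decide +kernel)
       (CovZ.badM (by decide +kernel))
       (CovZ.n1 (-3822, -3194) (by decide +kernel)
        (CovZ.n2 (-3822, -3192) (by decide +kernel)
         (CovZ.n2 (-3821, -3193) (by decide +kernel)
          (CovZ.n2 (-3822, -3193) (by decide +kernel)
           (CovZ.badM (by decide +kernel))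
           (CovZ.leaf K3_ok TO_l3657 _))
          (CovZ.badM (by decide +kernel)))
         (CovZ.n1 (-3823, -3193) (by decide +kernel)
          (CovZ.leaf K3_ok TO_l3659 _)
          (CovZ.n1 (-3822, -3193) (by decide +kernel)
           (CovZ.leaf K3_ok TO_l3660 _)
           (CovZ.leaf K3_ok TO_l3661 _))))
        (CovZ.n1 (-3820, -3194) (by decide +kernel)
         (CovZ.n2 (-3821, -3195) (by decide +kernel)
          (CovZ.leaf K3_ok TO_l3662 _)
          (CovZ.n1 (-3820, -3195) (by decide +kernel)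
           (CovZ.leaf K3_ok TO_l3663 _)
           (CovZ.leaf K3_ok TO_l3664 _)))
         (CovZ.n1 (-3821, -3193) (by decide +kernel)
          (CovZ.n2 (-3820, -3193) (by decide +kernel)
           (CovZ.leaf K3_ok TO_l3665 _)
           (CovZ.badM (by decide +kernel)))
          (CovZ.n1 (-3821, -3194) (by decide +kernel)
           (CovZ.leaf K3_ok TO_l3666 _)
           (CovZ.leaf K3_ok TO_l3667 _))))))))
    (CovZ.badM (by decide +kernel))))

theorem TO_s0_3 : SqZ TO_M TO_L [0, 7, 4, 3] (-3920) (-3232) 16 0 3 :=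
  SqZ.mk (a := (-3920)) (b := (-3904)) (c := (-3184)) (d := (-3168)) (by norm_num) (by norm_num) (by norm_num) (by norm_num)
    (CovZ.topM TO_LL 0 (by decide +kernel) (CovZ.badM (by decide +kernel)))
    (CovZ.topM TO_LL 0 (by decide +kernel) (CovZ.badM (by decide +kernel)))

theorem TO_s1_3 : SqZ TO_M TO_L [0, 7, 4, 3] (-3920) (-3232) 16 1 3 :=
  SqZ.mk (a := (-3904)) (b := (-3888)) (c := (-3184)) (d := (-3168)) (by norm_num) (by norm_num) (by norm_num) (by norm_num)
    (CovZ.topM TO_LL 0 (by decide +kernel) (CovZ.badM (by decide +kernel)))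
    (CovZ.topM TO_LL 0 (by decide +kernel) (CovZ.badM (by decide +kernel)))

theorem TO_s2_3 : SqZ TO_M TO_L [0, 7, 4, 3] (-3920) (-3232) 16 2 3 :=
  SqZ.mk (a := (-3888)) (b := (-3872)) (c := (-3184)) (d := (-3168)) (by norm_num) (by norm_num) (by norm_num) (by norm_num)
    (CovZ.topM TO_LL 11 (by decide +kernel) (CovZ.n2 (-3880, -3176) (by decide +kernel)
    (CovZ.n2 (-3872, -3176) (by decide +kernel)
     (CovZ.n2 (-3876, -3180) (by decide +kernel)
      (CovZ.n2 (-3876, -3176) (by decide +kernel)
       (CovZ.n2 (-3874, -3178) (by decide +kernel)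
        (CovZ.n2 (-3876, -3178) (by decide +kernel)
         (CovZ.n2 (-3875, -3177) (by decide +kernel)
          (CovZ.leaf K3_ok TO_l1086 _)
          (CovZ.leaf K3_ok TO_l1087 _))
         (CovZ.n1 (-3875, -3179) (by decide +kernel)
          (CovZ.leaf K3_ok TO_l1088 _)
          (CovZ.leaf K3_ok TO_l1089 _)))
        (CovZ.n1 (-3874, -3176) (by decide +kernel)
         (CovZ.n2 (-3873, -3177) (by decide +kernel)
          (CovZ.leaf K3_ok TO_l1090 _)
          (CovZ.leaf K3_ok TO_l1091 _))
         (CovZ.leaf K3_ok TO_l1092 _)))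
       (CovZ.n1 (-3878, -3178) (by decide +kernel)
        (CovZ.n2 (-3878, -3176) (by decide +kernel)
         (CovZ.n2 (-3877, -3177) (by decide +kernel)
          (CovZ.leaf K3_ok TO_l1093 _)
          (CovZ.leaf K3_ok TO_l1094 _))
         (CovZ.n1 (-3879, -3177) (by decide +kernel)
          (CovZ.leaf K3_ok TO_l1095 _)
          (CovZ.leaf K3_ok TO_l1096 _)))
        (CovZ.n1 (-3876, -3178) (by decide +kernel)
         (CovZ.n2 (-3877, -3179) (by decide +kernel)
          (CovZ.leaf K3_ok TO_l1097 _)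
          (CovZ.leaf K3_ok TO_l1098 _))
         (CovZ.leaf K3_ok TO_l1099 _))))
      (CovZ.n1 (-3872, -3180) (by decide +kernel)
       (CovZ.n2 (-3874, -3182) (by decide +kernel)
        (CovZ.n2 (-3874, -3180) (by decide +kernel)
         (CovZ.leaf K3_ok TO_l1100 _)
         (CovZ.leaf K3_ok TO_l1101 _))
        (CovZ.n1 (-3872, -3182) (by decide +kernel)
         (CovZ.leaf K3_ok TO_l1102 _)
         (CovZ.n1 (-3873, -3181) (by decide +kernel)
          (CovZ.leaf K3_ok TO_l1103 _)
          (CovZ.leaf K3_ok TO_l1104 _))))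
       (CovZ.n1 (-3874, -3178) (by decide +kernel)
        (CovZ.n2 (-3872, -3178) (by decide +kernel)
         (CovZ.n2 (-3873, -3179) (by decide +kernel)
          (CovZ.leaf K3_ok TO_l1105 _)
          (CovZ.leaf K3_ok TO_l1106 _))
         (CovZ.leaf K3_ok TO_l1107 _))
        (CovZ.n1 (-3874, -3180) (by decide +kernel)
         (CovZ.n2 (-3875, -3179) (by decide +kernel)
          (CovZ.leaf K3_ok TO_l1108 _)
          (CovZ.leaf K3_ok TO_l1109 _))
         (CovZ.n1 (-3873, -3179) (by decide +kernel)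
          (CovZ.leaf K3_ok TO_l1110 _)
          (CovZ.leaf K3_ok TO_l1111 _))))))
     (CovZ.n1 (-3876, -3172) (by decide +kernel)
      (CovZ.n2 (-3872, -3172) (by decide +kernel)
       (CovZ.n2 (-3874, -3174) (by decide +kernel)
        (CovZ.n2 (-3874, -3172) (by decide +kernel)
         (CovZ.n2 (-3873, -3173) (by decide +kernel)
          (CovZ.leaf K3_ok TO_l1112 _)
          (CovZ.leaf K3_ok TO_l1113 _))
         (CovZ.leaf K3_ok TO_l1114 _))
        (CovZ.n1 (-3872, -3174) (by decide +kernel)
         (CovZ.leaf K3_ok TO_l1115 _)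
         (CovZ.leaf K3_ok TO_l1116 _)))
       (CovZ.n1 (-3874, -3170) (by decide +kernel)
        (CovZ.n2 (-3872, -3170) (by decide +kernel)
         (CovZ.leaf K3_ok TO_l1117 _)
         (CovZ.leaf K3_ok TO_l1118 _))
        (CovZ.n1 (-3874, -3172) (by decide +kernel)
         (CovZ.n2 (-3875, -3171) (by decide +kernel)
          (CovZ.leaf K3_ok TO_l1119 _)
          (CovZ.leaf K3_ok TO_l1120 _))
         (CovZ.n1 (-3873, -3171) (by decide +kernel)
          (CovZ.leaf K3_ok TO_l1121 _)
          (CovZ.leaf K3_ok TO_l1122 _)))))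
      (CovZ.n1 (-3876, -3176) (by decide +kernel)
       (CovZ.n2 (-3878, -3174) (by decide +kernel)
        (CovZ.n2 (-3876, -3174) (by decide +kernel)
         (CovZ.n2 (-3877, -3175) (by decide +kernel)
          (CovZ.leaf K3_ok TO_l1123 _)
          (CovZ.leaf K3_ok TO_l1124 _))
         (CovZ.n1 (-3877, -3173) (by decide +kernel)
          (CovZ.leaf K3_ok TO_l1125 _)
          (CovZ.leaf K3_ok TO_l1126 _)))
        (CovZ.n1 (-3878, -3176) (by decide +kernel)
         (CovZ.n2 (-3879, -3175) (by decide +kernel)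
          (CovZ.leaf K3_ok TO_l1127 _)
          (CovZ.leaf K3_ok TO_l1128 _))
         (CovZ.n1 (-3877, -3175) (by decide +kernel)
          (CovZ.n2 (-3877, -3176) (by decide +kernel)
           (CovZ.leaf K3_ok TO_l1129 _)
           (CovZ.leaf K3_ok TO_l1130 _))
          (CovZ.leaf K3_ok TO_l1131 _))))
       (CovZ.n1 (-3874, -3174) (by decide +kernel)
        (CovZ.n2 (-3874, -3176) (by decide +kernel)
         (CovZ.leaf K3_ok TO_l1132 _)
         (CovZ.n1 (-3873, -3175) (by decide +kernel)
          (CovZ.leaf K3_ok TO_l1133 _)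
          (CovZ.leaf K3_ok TO_l1134 _)))
        (CovZ.n1 (-3876, -3174) (by decide +kernel)
         (CovZ.leaf K3_ok TO_l1135 _)
         (CovZ.n1 (-3875, -3175) (by decide +kernel)
          (CovZ.leaf K3_ok TO_l1136 _)
          (CovZ.leaf K3_ok TO_l1137 _)))))))
    (CovZ.n1 (-3880, -3184) (by decide +kernel)
     (CovZ.n2 (-3884, -3180) (by decide +kernel)
      (CovZ.n2 (-3880, -3180) (by decide +kernel)
       (CovZ.n2 (-3882, -3182) (by decide +kernel)
        (CovZ.n2 (-3882, -3180) (by decide +kernel)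
         (CovZ.n2 (-3881, -3181) (by decide +kernel)
          (CovZ.leaf K3_ok TO_l1138 _)
          (CovZ.leaf K3_ok TO_l1139 _))
         (CovZ.badM (by decide +kernel)))
        (CovZ.n1 (-3880, -3182) (by decide +kernel)
         (CovZ.n2 (-3881, -3183) (by decide +kernel)
          (CovZ.leaf K3_ok TO_l1142 _)
          (CovZ.leaf K3_ok TO_l1143 _))
         (CovZ.n1 (-3881, -3181) (by decide +kernel)
          (CovZ.leaf K3_ok TO_l1144 _)
          (CovZ.leaf K3_ok TO_l1145 _))))
       (CovZ.n1 (-3882, -3178) (by decide +kernel)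
        (CovZ.n2 (-3880, -3178) (by decide +kernel)
         (CovZ.n2 (-3881, -3179) (by decide +kernel)
          (CovZ.leaf K3_ok TO_l1146 _)
          (CovZ.n1 (-3880, -3179) (by decide +kernel)
           (CovZ.leaf K3_ok TO_l1147 _)
           (CovZ.leaf K3_ok TO_l1148 _)))
         (CovZ.n1 (-3881, -3177) (by decide +kernel)
          (CovZ.leaf K3_ok TO_l1149 _)
          (CovZ.leaf K3_ok TO_l1150 _)))
        (CovZ.n1 (-3882, -3180) (by decide +kernel)
         (CovZ.badM (by decide +kernel))
         (CovZ.n1 (-3881, -3179) (by decide +kernel)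
          (CovZ.leaf K3_ok TO_l1154 _)
          (CovZ.leaf K3_ok TO_l1155 _)))))
      (CovZ.n1 (-3884, -3184) (by decide +kernel)
       (CovZ.badM (by decide +kernel))
       (CovZ.n1 (-3882, -3182) (by decide +kernel)
        (CovZ.n2 (-3882, -3184) (by decide +kernel)
         (CovZ.n2 (-3883, -3183) (by decide +kernel)
          (CovZ.leaf K3_ok TO_l1167 _)
          (CovZ.leaf K3_ok TO_l1168 _))
         (CovZ.n1 (-3881, -3183) (by decide +kernel)
          (CovZ.n2 (-3881, -3184) (by decide +kernel)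
           (CovZ.leaf K3_ok TO_l1169 _)
           (CovZ.leaf K3_ok TO_l1170 _))
          (CovZ.leaf K3_ok TO_l1171 _)))
        (CovZ.badM (by decide +kernel)))))
     (CovZ.n1 (-3876, -3180) (by decide +kernel)
      (CovZ.n2 (-3876, -3184) (by decide +kernel)
       (CovZ.n2 (-3878, -3182) (by decide +kernel)
        (CovZ.n2 (-3876, -3182) (by decide +kernel)
         (CovZ.n2 (-3877, -3183) (by decide +kernel)
          (CovZ.leaf K3_ok TO_l1176 _)
          (CovZ.leaf K3_ok TO_l1177 _))
         (CovZ.leaf K3_ok TO_l1178 _))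
        (CovZ.n1 (-3878, -3184) (by decide +kernel)
         (CovZ.n2 (-3879, -3183) (by decide +kernel)
          (CovZ.leaf K3_ok TO_l1179 _)
          (CovZ.leaf K3_ok TO_l1180 _))
         (CovZ.n1 (-3877, -3183) (by decide +kernel)
          (CovZ.leaf K3_ok TO_l1181 _)
          (CovZ.leaf K3_ok TO_l1182 _))))
       (CovZ.n1 (-3874, -3182) (by decide +kernel)
        (CovZ.n2 (-3874, -3184) (by decide +kernel)
         (CovZ.n2 (-3875, -3183) (by decide +kernel)
          (CovZ.leaf K3_ok TO_l1183 _)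
          (CovZ.leaf K3_ok TO_l1184 _))
         (CovZ.n1 (-3873, -3183) (by decide +kernel)
          (CovZ.leaf K3_ok TO_l1185 _)
          (CovZ.leaf K3_ok TO_l1186 _)))
        (CovZ.n1 (-3876, -3182) (by decide +kernel)
         (CovZ.n2 (-3875, -3181) (by decide +kernel)
          (CovZ.leaf K3_ok TO_l1187 _)
          (CovZ.leaf K3_ok TO_l1188 _))
         (CovZ.n1 (-3875, -3183) (by decide +kernel)
          (CovZ.leaf K3_ok TO_l1189 _)
          (CovZ.leaf K3_ok TO_l1190 _)))))
      (CovZ.n1 (-3880, -3180) (by decide +kernel)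
       (CovZ.n2 (-3878, -3178) (by decide +kernel)
        (CovZ.n2 (-3878, -3180) (by decide +kernel)
         (CovZ.n2 (-3879, -3179) (by decide +kernel)
          (CovZ.leaf K3_ok TO_l1191 _)
          (CovZ.n1 (-3879, -3180) (by decide +kernel)
           (CovZ.leaf K3_ok TO_l1192 _)
           (CovZ.leaf K3_ok TO_l1193 _)))
         (CovZ.n1 (-3877, -3179) (by decide +kernel)
          (CovZ.leaf K3_ok TO_l1194 _)
          (CovZ.leaf K3_ok TO_l1195 _)))
        (CovZ.n1 (-3880, -3178) (by decide +kernel)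
         (CovZ.n2 (-3879, -3177) (by decide +kernel)
          (CovZ.leaf K3_ok TO_l1196 _)
          (CovZ.leaf K3_ok TO_l1197 _))
         (CovZ.leaf K3_ok TO_l1198 _)))
       (CovZ.n1 (-3878, -3182) (by decide +kernel)
        (CovZ.n2 (-3880, -3182) (by decide +kernel)
         (CovZ.n2 (-3879, -3181) (by decide +kernel)
          (CovZ.leaf K3_ok TO_l1199 _)
          (CovZ.leaf K3_ok TO_l1200 _))
         (CovZ.n1 (-3879, -3183) (by decide +kernel)
          (CovZ.leaf K3_ok TO_l1201 _)
          (CovZ.leaf K3_ok TO_l1202 _)))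
        (CovZ.n1 (-3878, -3180) (by decide +kernel)
         (CovZ.n2 (-3877, -3181) (by decide +kernel)
          (CovZ.leaf K3_ok TO_l1203 _)
          (CovZ.leaf K3_ok TO_l1204 _))
         (CovZ.n1 (-3879, -3181) (by decide +kernel)
          (CovZ.leaf K3_ok TO_l1205 _)
          (CovZ.leaf K3_ok TO_l1206 _)))))))))
    (CovZ.topM TO_LL 11 (by decide +kernel) (CovZ.n0 (-3880, -3176) (by decide +kernel)
    (CovZ.n2 (-3888, -3176) (by decide +kernel)
     (CovZ.n2 (-3884, -3172) (by decide +kernel)
      (CovZ.n2 (-3884, -3176) (by decide +kernel)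
       (CovZ.badM (by decide +kernel))
       (CovZ.n1 (-3882, -3174) (by decide +kernel)
        (CovZ.n2 (-3882, -3176) (by decide +kernel)
         (CovZ.badM (by decide +kernel))
         (CovZ.n1 (-3881, -3175) (by decide +kernel)
          (CovZ.leaf K3_ok TO_l1224 _)
          (CovZ.leaf K3_ok TO_l1225 _)))
        (CovZ.badM (by decide +kernel))))
      (CovZ.badM (by decide +kernel)))
     (CovZ.n1 (-3884, -3180) (by decide +kernel)
      (CovZ.badM (by decide +kernel))
      (CovZ.n1 (-3884, -3176) (by decide +kernel)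
       (CovZ.n2 (-3882, -3178) (by decide +kernel)
        (CovZ.badM (by decide +kernel))
        (CovZ.n1 (-3882, -3176) (by decide +kernel)
         (CovZ.n2 (-3881, -3177) (by decide +kernel)
          (CovZ.leaf K3_ok TO_l1273 _)
          (CovZ.leaf K3_ok TO_l1274 _))
         (CovZ.badM (by decide +kernel))))
       (CovZ.badM (by decide +kernel)))))
    (CovZ.n1 (-3880, -3168) (by decide +kernel)
     (CovZ.n2 (-3876, -3172) (by decide +kernel)
      (CovZ.n2 (-3880, -3172) (by decide +kernel)
       (CovZ.n2 (-3878, -3170) (by decide +kernel)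
        (CovZ.n2 (-3878, -3172) (by decide +kernel)
         (CovZ.n2 (-3879, -3171) (by decide +kernel)
          (CovZ.n2 (-3878, -3171) (by decide +kernel)
           (CovZ.leaf K3_ok TO_l1289 _)
           (CovZ.leaf K3_ok TO_l1290 _))
          (CovZ.n1 (-3879, -3172) (by decide +kernel)
           (CovZ.leaf K3_ok TO_l1291 _)
           (CovZ.leaf K3_ok TO_l1292 _)))
         (CovZ.n1 (-3877, -3171) (by decide +kernel)
          (CovZ.n2 (-3877, -3172) (by decide +kernel)
           (CovZ.leaf K3_ok TO_l1293 _)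
           (CovZ.leaf K3_ok TO_l1294 _))
          (CovZ.leaf K3_ok TO_l1295 _)))
        (CovZ.n1 (-3880, -3170) (by decide +kernel)
         (CovZ.n2 (-3879, -3169) (by decide +kernel)
          (CovZ.leaf K3_ok TO_l1296 _)
          (CovZ.leaf K3_ok TO_l1297 _))
         (CovZ.n1 (-3879, -3171) (by decide +kernel)
          (CovZ.n2 (-3880, -3171) (by decide +kernel)
           (CovZ.leaf K3_ok TO_l1298 _)
           (CovZ.leaf K3_ok TO_l1299 _))
          (CovZ.leaf K3_ok TO_l1300 _))))
       (CovZ.n1 (-3878, -3174) (by decide +kernel)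
        (CovZ.n2 (-3880, -3174) (by decide +kernel)
         (CovZ.n2 (-3879, -3173) (by decide +kernel)
          (CovZ.leaf K3_ok TO_l1301 _)
          (CovZ.leaf K3_ok TO_l1302 _))
         (CovZ.n1 (-3879, -3175) (by decide +kernel)
          (CovZ.leaf K3_ok TO_l1303 _)
          (CovZ.leaf K3_ok TO_l1304 _)))
        (CovZ.n1 (-3878, -3172) (by decide +kernel)
         (CovZ.n2 (-3877, -3173) (by decide +kernel)
          (CovZ.leaf K3_ok TO_l1305 _)
          (CovZ.leaf K3_ok TO_l1306 _))
         (CovZ.n1 (-3879, -3173) (by decide +kernel)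
          (CovZ.leaf K3_ok TO_l1307 _)
          (CovZ.leaf K3_ok TO_l1308 _)))))
      (CovZ.n1 (-3876, -3168) (by decide +kernel)
       (CovZ.n2 (-3874, -3170) (by decide +kernel)
        (CovZ.n2 (-3876, -3170) (by decide +kernel)
         (CovZ.n2 (-3875, -3169) (by decide +kernel)
          (CovZ.leaf K3_ok TO_l1309 _)
          (CovZ.leaf K3_ok TO_l1310 _))
         (CovZ.n1 (-3875, -3171) (by decide +kernel)
          (CovZ.leaf K3_ok TO_l1311 _)
          (CovZ.leaf K3_ok TO_l1312 _)))
        (CovZ.n1 (-3874, -3168) (by decide +kernel)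
         (CovZ.n2 (-3873, -3169) (by decide +kernel)
          (CovZ.leaf K3_ok TO_l1313 _)
          (CovZ.leaf K3_ok TO_l1314 _))
         (CovZ.n1 (-3875, -3169) (by decide +kernel)
          (CovZ.leaf K3_ok TO_l1315 _)
          (CovZ.leaf K3_ok TO_l1316 _))))
       (CovZ.n1 (-3878, -3170) (by decide +kernel)
        (CovZ.n2 (-3878, -3168) (by decide +kernel)
         (CovZ.n2 (-3877, -3169) (by decide +kernel)
          (CovZ.leaf K3_ok TO_l1317 _)
          (CovZ.leaf K3_ok TO_l1318 _))
         (CovZ.n1 (-3879, -3169) (by decide +kernel)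
          (CovZ.leaf K3_ok TO_l1319 _)
          (CovZ.leaf K3_ok TO_l1320 _)))
        (CovZ.n1 (-3876, -3170) (by decide +kernel)
         (CovZ.n2 (-3877, -3171) (by decide +kernel)
          (CovZ.leaf K3_ok TO_l1321 _)
          (CovZ.leaf K3_ok TO_l1322 _))
         (CovZ.n1 (-3877, -3169) (by decide +kernel)
          (CovZ.leaf K3_ok TO_l1323 _)
          (CovZ.leaf K3_ok TO_l1324 _))))))
     (CovZ.n1 (-3884, -3172) (by decide +kernel)
      (CovZ.n2 (-3884, -3168) (by decide +kernel)
       (CovZ.n2 (-3882, -3170) (by decide +kernel)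
        (CovZ.badM (by decide +kernel))
        (CovZ.n1 (-3882, -3168) (by decide +kernel)
         (CovZ.n2 (-3881, -3169) (by decide +kernel)
          (CovZ.leaf K3_ok TO_l1330 _)
          (CovZ.leaf K3_ok TO_l1331 _))
         (CovZ.badM (by decide +kernel))))
       (CovZ.badM (by decide +kernel)))
      (CovZ.n1 (-3880, -3172) (by decide +kernel)
       (CovZ.n2 (-3882, -3174) (by decide +kernel)
        (CovZ.n2 (-3882, -3172) (by decide +kernel)
         (CovZ.n2 (-3881, -3173) (by decide +kernel)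
          (CovZ.n2 (-3882, -3173) (by decide +kernel)
           (CovZ.leaf K3_ok TO_l1343 _)
           (CovZ.leaf K3_ok TO_l1344 _))
          (CovZ.leaf K3_ok TO_l1345 _))
         (CovZ.badM (by decide +kernel)))
        (CovZ.n1 (-3880, -3174) (by decide +kernel)
         (CovZ.n2 (-3881, -3175) (by decide +kernel)
          (CovZ.leaf K3_ok TO_l1349 _)
          (CovZ.leaf K3_ok TO_l1350 _))
         (CovZ.n1 (-3881, -3173) (by decide +kernel)
          (CovZ.leaf K3_ok TO_l1351 _)
          (CovZ.n1 (-3881, -3174) (by decide +kernel)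
           (CovZ.leaf K3_ok TO_l1352 _)
           (CovZ.leaf K3_ok TO_l1353 _)))))
       (CovZ.n1 (-3882, -3170) (by decide +kernel)
        (CovZ.n2 (-3880, -3170) (by decide +kernel)
         (CovZ.n2 (-3881, -3171) (by decide +kernel)
          (CovZ.leaf K3_ok TO_l1354 _)
          (CovZ.n1 (-3880, -3171) (by decide +kernel)
           (CovZ.leaf K3_ok TO_l1355 _)
           (CovZ.leaf K3_ok TO_l1356 _)))
         (CovZ.n1 (-3881, -3169) (by decide +kernel)
          (CovZ.n2 (-3880, -3169) (by decide +kernel)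
           (CovZ.leaf K3_ok TO_l1357 _)
           (CovZ.leaf K3_ok TO_l1358 _))
          (CovZ.leaf K3_ok TO_l1359 _)))
        (CovZ.n1 (-3882, -3172) (by decide +kernel)
         (CovZ.badM (by decide +kernel))
         (CovZ.n1 (-3881, -3171) (by decide +kernel)
          (CovZ.n2 (-3881, -3172) (by decide +kernel)
           (CovZ.leaf K3_ok TO_l1364 _)
           (CovZ.leaf K3_ok TO_l1365 _))
          (CovZ.leaf K3_ok TO_l1366 _)))))))))

theorem TO_s3_3 : SqZ TO_M TO_L [0, 7, 4, 3] (-3920) (-3232) 16 3 3 :=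
  SqZ.mk (a := (-3872)) (b := (-3856)) (c := (-3184)) (d := (-3168)) (by norm_num) (by norm_num) (by norm_num) (by norm_num)
    (CovZ.topM TO_LL 11 (by decide +kernel) (CovZ.n2 (-3864, -3176) (by decide +kernel)
    (CovZ.n2 (-3856, -3176) (by decide +kernel)
     (CovZ.n2 (-3860, -3180) (by decide +kernel)
      (CovZ.n2 (-3860, -3176) (by decide +kernel)
       (CovZ.n2 (-3858, -3178) (by decide +kernel)
        (CovZ.n2 (-3860, -3178) (by decide +kernel)
         (CovZ.leaf K3_ok TO_l1991 _)
         (CovZ.leaf K3_ok TO_l1992 _))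
        (CovZ.n1 (-3858, -3176) (by decide +kernel)
         (CovZ.leaf K3_ok TO_l1993 _)
         (CovZ.leaf K3_ok TO_l1994 _)))
       (CovZ.n1 (-3862, -3178) (by decide +kernel)
        (CovZ.n2 (-3862, -3176) (by decide +kernel)
         (CovZ.leaf K3_ok TO_l1995 _)
         (CovZ.n1 (-3863, -3177) (by decide +kernel)
          (CovZ.leaf K3_ok TO_l1996 _)
          (CovZ.leaf K3_ok TO_l1997 _)))
        (CovZ.n1 (-3860, -3178) (by decide +kernel)
         (CovZ.leaf K3_ok TO_l1998 _)
         (CovZ.leaf K3_ok TO_l1999 _))))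
      (CovZ.n1 (-3856, -3180) (by decide +kernel)
       (CovZ.n2 (-3858, -3182) (by decide +kernel)
        (CovZ.leaf K3_ok TO_l2000 _)
        (CovZ.n1 (-3856, -3182) (by decide +kernel)
         (CovZ.leaf K3_ok TO_l2001 _)
         (CovZ.leaf K3_ok TO_l2002 _)))
       (CovZ.n1 (-3858, -3178) (by decide +kernel)
        (CovZ.n2 (-3856, -3178) (by decide +kernel)
         (CovZ.leaf K3_ok TO_l2003 _)
         (CovZ.leaf K3_ok TO_l2004 _))
        (CovZ.n1 (-3858, -3180) (by decide +kernel)
         (CovZ.leaf K3_ok TO_l2005 _)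
         (CovZ.leaf K3_ok TO_l2006 _)))))
     (CovZ.n1 (-3860, -3172) (by decide +kernel)
      (CovZ.n2 (-3856, -3172) (by decide +kernel)
       (CovZ.n2 (-3858, -3174) (by decide +kernel)
        (CovZ.n2 (-3858, -3172) (by decide +kernel)
         (CovZ.leaf K3_ok TO_l2007 _)
         (CovZ.leaf K3_ok TO_l2008 _))
        (CovZ.n1 (-3856, -3174) (by decide +kernel)
         (CovZ.leaf K3_ok TO_l2009 _)
         (CovZ.leaf K3_ok TO_l2010 _)))
       (CovZ.n1 (-3858, -3170) (by decide +kernel)
        (CovZ.n2 (-3856, -3170) (by decide +kernel)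
         (CovZ.leaf K3_ok TO_l2011 _)
         (CovZ.leaf K3_ok TO_l2012 _))
        (CovZ.n1 (-3858, -3172) (by decide +kernel)
         (CovZ.leaf K3_ok TO_l2013 _)
         (CovZ.leaf K3_ok TO_l2014 _))))
      (CovZ.n1 (-3860, -3176) (by decide +kernel)
       (CovZ.n2 (-3862, -3174) (by decide +kernel)
        (CovZ.n2 (-3860, -3174) (by decide +kernel)
         (CovZ.leaf K3_ok TO_l2015 _)
         (CovZ.leaf K3_ok TO_l2016 _))
        (CovZ.n1 (-3862, -3176) (by decide +kernel)
         (CovZ.leaf K3_ok TO_l2017 _)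
         (CovZ.n1 (-3861, -3175) (by decide +kernel)
          (CovZ.leaf K3_ok TO_l2018 _)
          (CovZ.leaf K3_ok TO_l2019 _))))
       (CovZ.n1 (-3858, -3174) (by decide +kernel)
        (CovZ.n2 (-3858, -3176) (by decide +kernel)
         (CovZ.leaf K3_ok TO_l2020 _)
         (CovZ.leaf K3_ok TO_l2021 _))
        (CovZ.n1 (-3860, -3174) (by decide +kernel)
         (CovZ.leaf K3_ok TO_l2022 _)
         (CovZ.leaf K3_ok TO_l2023 _))))))
    (CovZ.n1 (-3864, -3184) (by decide +kernel)
     (CovZ.n2 (-3868, -3180) (by decide +kernel)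
      (CovZ.n2 (-3864, -3180) (by decide +kernel)
       (CovZ.n2 (-3866, -3182) (by decide +kernel)
        (CovZ.n2 (-3866, -3180) (by decide +kernel)
         (CovZ.leaf K3_ok TO_l2024 _)
         (CovZ.leaf K3_ok TO_l2025 _))
        (CovZ.n1 (-3864, -3182) (by decide +kernel)
         (CovZ.leaf K3_ok TO_l2026 _)
         (CovZ.leaf K3_ok TO_l2027 _)))
       (CovZ.n1 (-3866, -3178) (by decide +kernel)
        (CovZ.n2 (-3864, -3178) (by decide +kernel)
         (CovZ.leaf K3_ok TO_l2028 _)
         (CovZ.leaf K3_ok TO_l2029 _))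
        (CovZ.n1 (-3866, -3180) (by decide +kernel)
         (CovZ.leaf K3_ok TO_l2030 _)
         (CovZ.leaf K3_ok TO_l2031 _))))
      (CovZ.n1 (-3868, -3184) (by decide +kernel)
       (CovZ.n2 (-3870, -3182) (by decide +kernel)
        (CovZ.n2 (-3868, -3182) (by decide +kernel)
         (CovZ.leaf K3_ok TO_l2032 _)
         (CovZ.leaf K3_ok TO_l2033 _))
        (CovZ.n1 (-3870, -3184) (by decide +kernel)
         (CovZ.leaf K3_ok TO_l2034 _)
         (CovZ.n1 (-3869, -3183) (by decide +kernel)
          (CovZ.leaf K3_ok TO_l2035 _)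
          (CovZ.leaf K3_ok TO_l2036 _))))
       (CovZ.n1 (-3866, -3182) (by decide +kernel)
        (CovZ.n2 (-3866, -3184) (by decide +kernel)
         (CovZ.leaf K3_ok TO_l2037 _)
         (CovZ.leaf K3_ok TO_l2038 _))
        (CovZ.n1 (-3868, -3182) (by decide +kernel)
         (CovZ.leaf K3_ok TO_l2039 _)
         (CovZ.leaf K3_ok TO_l2040 _)))))
     (CovZ.n1 (-3860, -3180) (by decide +kernel)
      (CovZ.n2 (-3860, -3184) (by decide +kernel)
       (CovZ.n2 (-3862, -3182) (by decide +kernel)
        (CovZ.n2 (-3860, -3182) (by decide +kernel)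
         (CovZ.leaf K3_ok TO_l2041 _)
         (CovZ.leaf K3_ok TO_l2042 _))
        (CovZ.n1 (-3862, -3184) (by decide +kernel)
         (CovZ.leaf K3_ok TO_l2043 _)
         (CovZ.leaf K3_ok TO_l2044 _)))
       (CovZ.n1 (-3858, -3182) (by decide +kernel)
        (CovZ.n2 (-3858, -3184) (by decide +kernel)
         (CovZ.leaf K3_ok TO_l2045 _)
         (CovZ.leaf K3_ok TO_l2046 _))
        (CovZ.n1 (-3860, -3182) (by decide +kernel)
         (CovZ.leaf K3_ok TO_l2047 _)
         (CovZ.leaf K3_ok TO_l2048 _))))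
      (CovZ.n1 (-3864, -3180) (by decide +kernel)
       (CovZ.n2 (-3862, -3178) (by decide +kernel)
        (CovZ.n2 (-3862, -3180) (by decide +kernel)
         (CovZ.leaf K3_ok TO_l2049 _)
         (CovZ.leaf K3_ok TO_l2050 _))
        (CovZ.n1 (-3864, -3178) (by decide +kernel)
         (CovZ.n2 (-3863, -3177) (by decide +kernel)
          (CovZ.leaf K3_ok TO_l2051 _)
          (CovZ.leaf K3_ok TO_l2052 _))
         (CovZ.leaf K3_ok TO_l2053 _)))
       (CovZ.n1 (-3862, -3182) (by decide +kernel)
        (CovZ.n2 (-3864, -3182) (by decide +kernel)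
         (CovZ.leaf K3_ok TO_l2054 _)
         (CovZ.leaf K3_ok TO_l2055 _))
        (CovZ.leaf K3_ok TO_l2056 _)))))))
    (CovZ.topM TO_LL 11 (by decide +kernel) (CovZ.n0 (-3864, -3176) (by decide +kernel)
    (CovZ.n2 (-3872, -3176) (by decide +kernel)
     (CovZ.n2 (-3868, -3172) (by decide +kernel)
      (CovZ.n2 (-3868, -3176) (by decide +kernel)
       (CovZ.n2 (-3870, -3174) (by decide +kernel)
        (CovZ.n2 (-3868, -3174) (by decide +kernel)
         (CovZ.leaf K3_ok TO_l2057 _)
         (CovZ.leaf K3_ok TO_l2058 _))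
        (CovZ.n1 (-3870, -3176) (by decide +kernel)
         (CovZ.n2 (-3871, -3175) (by decide +kernel)
          (CovZ.leaf K3_ok TO_l2059 _)
          (CovZ.leaf K3_ok TO_l2060 _))
         (CovZ.leaf K3_ok TO_l2061 _)))
       (CovZ.n1 (-3866, -3174) (by decide +kernel)
        (CovZ.n2 (-3866, -3176) (by decide +kernel)
         (CovZ.leaf K3_ok TO_l2062 _)
         (CovZ.n1 (-3865, -3175) (by decide +kernel)
          (CovZ.leaf K3_ok TO_l2063 _)
          (CovZ.leaf K3_ok TO_l2064 _)))
        (CovZ.n1 (-3868, -3174) (by decide +kernel)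
         (CovZ.leaf K3_ok TO_l2065 _)
         (CovZ.leaf K3_ok TO_l2066 _))))
      (CovZ.n1 (-3872, -3172) (by decide +kernel)
       (CovZ.n2 (-3870, -3170) (by decide +kernel)
        (CovZ.n2 (-3870, -3172) (by decide +kernel)
         (CovZ.leaf K3_ok TO_l2067 _)
         (CovZ.n1 (-3869, -3171) (by decide +kernel)
          (CovZ.leaf K3_ok TO_l2068 _)
          (CovZ.leaf K3_ok TO_l2069 _)))
        (CovZ.n1 (-3872, -3170) (by decide +kernel)
         (CovZ.n2 (-3871, -3169) (by decide +kernel)
          (CovZ.leaf K3_ok TO_l2070 _)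
          (CovZ.leaf K3_ok TO_l2071 _))
         (CovZ.n1 (-3871, -3171) (by decide +kernel)
          (CovZ.leaf K3_ok TO_l2072 _)
          (CovZ.leaf K3_ok TO_l2073 _))))
       (CovZ.n1 (-3870, -3174) (by decide +kernel)
        (CovZ.n2 (-3872, -3174) (by decide +kernel)
         (CovZ.n2 (-3871, -3173) (by decide +kernel)
          (CovZ.leaf K3_ok TO_l2074 _)
          (CovZ.leaf K3_ok TO_l2075 _))
         (CovZ.leaf K3_ok TO_l2076 _))
        (CovZ.n1 (-3870, -3172) (by decide +kernel)
         (CovZ.leaf K3_ok TO_l2077 _)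
         (CovZ.n1 (-3871, -3173) (by decide +kernel)
          (CovZ.leaf K3_ok TO_l2078 _)
          (CovZ.leaf K3_ok TO_l2079 _))))))
     (CovZ.n1 (-3868, -3180) (by decide +kernel)
      (CovZ.n2 (-3872, -3180) (by decide +kernel)
       (CovZ.n2 (-3870, -3178) (by decide +kernel)
        (CovZ.n2 (-3870, -3180) (by decide +kernel)
         (CovZ.leaf K3_ok TO_l2080 _)
         (CovZ.leaf K3_ok TO_l2081 _))
        (CovZ.n1 (-3872, -3178) (by decide +kernel)
         (CovZ.leaf K3_ok TO_l2082 _)
         (CovZ.leaf K3_ok TO_l2083 _)))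
       (CovZ.n1 (-3870, -3182) (by decide +kernel)
        (CovZ.n2 (-3872, -3182) (by decide +kernel)
         (CovZ.leaf K3_ok TO_l2084 _)
         (CovZ.leaf K3_ok TO_l2085 _))
        (CovZ.n1 (-3870, -3180) (by decide +kernel)
         (CovZ.leaf K3_ok TO_l2086 _)
         (CovZ.leaf K3_ok TO_l2087 _))))
      (CovZ.n1 (-3868, -3176) (by decide +kernel)
       (CovZ.n2 (-3866, -3178) (by decide +kernel)
        (CovZ.n2 (-3868, -3178) (by decide +kernel)
         (CovZ.leaf K3_ok TO_l2088 _)
         (CovZ.leaf K3_ok TO_l2089 _))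
        (CovZ.n1 (-3866, -3176) (by decide +kernel)
         (CovZ.leaf K3_ok TO_l2090 _)
         (CovZ.leaf K3_ok TO_l2091 _)))
       (CovZ.n1 (-3870, -3178) (by decide +kernel)
        (CovZ.n2 (-3870, -3176) (by decide +kernel)
         (CovZ.leaf K3_ok TO_l2092 _)
         (CovZ.leaf K3_ok TO_l2093 _))
        (CovZ.n1 (-3868, -3178) (by decide +kernel)
         (CovZ.leaf K3_ok TO_l2094 _)
         (CovZ.leaf K3_ok TO_l2095 _))))))
    (CovZ.n1 (-3864, -3168) (by decide +kernel)
     (CovZ.n2 (-3860, -3172) (by decide +kernel)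
      (CovZ.n2 (-3864, -3172) (by decide +kernel)
       (CovZ.n2 (-3862, -3170) (by decide +kernel)
        (CovZ.n2 (-3862, -3172) (by decide +kernel)
         (CovZ.leaf K3_ok TO_l2096 _)
         (CovZ.leaf K3_ok TO_l2097 _))
        (CovZ.n1 (-3864, -3170) (by decide +kernel)
         (CovZ.leaf K3_ok TO_l2098 _)
         (CovZ.leaf K3_ok TO_l2099 _)))
       (CovZ.n1 (-3862, -3174) (by decide +kernel)
        (CovZ.n2 (-3864, -3174) (by decide +kernel)
         (CovZ.n2 (-3863, -3173) (by decide +kernel)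
          (CovZ.leaf K3_ok TO_l2100 _)
          (CovZ.leaf K3_ok TO_l2101 _))
         (CovZ.leaf K3_ok TO_l2102 _))
        (CovZ.n1 (-3862, -3172) (by decide +kernel)
         (CovZ.leaf K3_ok TO_l2103 _)
         (CovZ.leaf K3_ok TO_l2104 _))))
      (CovZ.n1 (-3860, -3168) (by decide +kernel)
       (CovZ.n2 (-3858, -3170) (by decide +kernel)
        (CovZ.n2 (-3860, -3170) (by decide +kernel)
         (CovZ.leaf K3_ok TO_l2105 _)
         (CovZ.leaf K3_ok TO_l2106 _))
        (CovZ.n1 (-3858, -3168) (by decide +kernel)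
         (CovZ.leaf K3_ok TO_l2107 _)
         (CovZ.leaf K3_ok TO_l2108 _)))
       (CovZ.n1 (-3862, -3170) (by decide +kernel)
        (CovZ.n2 (-3862, -3168) (by decide +kernel)
         (CovZ.leaf K3_ok TO_l2109 _)
         (CovZ.leaf K3_ok TO_l2110 _))
        (CovZ.n1 (-3860, -3170) (by decide +kernel)
         (CovZ.leaf K3_ok TO_l2111 _)
         (CovZ.leaf K3_ok TO_l2112 _)))))
     (CovZ.n1 (-3868, -3172) (by decide +kernel)
      (CovZ.n2 (-3868, -3168) (by decide +kernel)
       (CovZ.n2 (-3866, -3170) (by decide +kernel)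
        (CovZ.n2 (-3868, -3170) (by decide +kernel)
         (CovZ.leaf K3_ok TO_l2113 _)
         (CovZ.leaf K3_ok TO_l2114 _))
        (CovZ.n1 (-3866, -3168) (by decide +kernel)
         (CovZ.leaf K3_ok TO_l2115 _)
         (CovZ.leaf K3_ok TO_l2116 _)))
       (CovZ.n1 (-3870, -3170) (by decide +kernel)
        (CovZ.n2 (-3870, -3168) (by decide +kernel)
         (CovZ.leaf K3_ok TO_l2117 _)
         (CovZ.leaf K3_ok TO_l2118 _))
        (CovZ.n1 (-3868, -3170) (by decide +kernel)
         (CovZ.n2 (-3869, -3171) (by decide +kernel)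
          (CovZ.leaf K3_ok TO_l2119 _)
          (CovZ.leaf K3_ok TO_l2120 _))
         (CovZ.leaf K3_ok TO_l2121 _))))
      (CovZ.n1 (-3864, -3172) (by decide +kernel)
       (CovZ.n2 (-3866, -3174) (by decide +kernel)
        (CovZ.n2 (-3866, -3172) (by decide +kernel)
         (CovZ.leaf K3_ok TO_l2122 _)
         (CovZ.leaf K3_ok TO_l2123 _))
        (CovZ.n1 (-3864, -3174) (by decide +kernel)
         (CovZ.n2 (-3865, -3175) (by decide +kernel)
          (CovZ.leaf K3_ok TO_l2124 _)
          (CovZ.leaf K3_ok TO_l2125 _))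
         (CovZ.leaf K3_ok TO_l2126 _)))
       (CovZ.n1 (-3866, -3170) (by decide +kernel)
        (CovZ.n2 (-3864, -3170) (by decide +kernel)
         (CovZ.leaf K3_ok TO_l2127 _)
         (CovZ.leaf K3_ok TO_l2128 _))
        (CovZ.n1 (-3866, -3172) (by decide +kernel)
         (CovZ.leaf K3_ok TO_l2129 _)
         (CovZ.leaf K3_ok TO_l2130 _))))))))

end Pool.Agent.TET
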