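import Pool.Agent.Helper38_TET.TO_M
import Pool.Agent.Helper38_TET.TO_L
import Pool.Agent.Helper38_TET.TO_9
import Pool.Agent.Helper38_TET.TO_10

/-!
# MP_c7c9bf_co: certificates, family TO
-/

set_option autoImplicit false
set_option maxRecDepth 100000

namespace Pool.Agent.TET

theorem TO_u0 : CovZ TO_M (toL (selN TO_LN 11)) [0, 7, 4, 3] (-3872, -3152) (-3880, -3160) (-3872, -3168) :=
    (CovZ.n2 (-3872, -3160) (by decide +kernel)
     (CovZ.n2 (-3876, -3164) (by decide +kernel)
      (CovZ.n2 (-3876, -3160) (by decide +kernel)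
       (CovZ.n2 (-3874, -3162) (by decide +kernel)
        (CovZ.n2 (-3876, -3162) (by decide +kernel)
         (CovZ.n2 (-3875, -3161) (by decide +kernel)
          (CovZ.leaf K3_ok TO_l1367 _)
          (CovZ.leaf K3_ok TO_l1368 _))
         (CovZ.leaf K3_ok TO_l1369 _))
        (CovZ.n1 (-3874, -3160) (by decide +kernel)
         (CovZ.n2 (-3873, -3161) (by decide +kernel)
          (CovZ.leaf K3_ok TO_l1370 _)
          (CovZ.leaf K3_ok TO_l1371 _))
         (CovZ.n1 (-3875, -3161) (by decide +kernel)
          (CovZ.leaf K3_ok TO_l1372 _)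
          (CovZ.n1 (-3874, -3161) (by decide +kernel)
           (CovZ.leaf K3_ok TO_l1373 _)
           (CovZ.leaf K3_ok TO_l1374 _)))))
       (CovZ.n1 (-3878, -3162) (by decide +kernel)
        (CovZ.n2 (-3878, -3160) (by decide +kernel)
         (CovZ.n2 (-3877, -3161) (by decide +kernel)
          (CovZ.n2 (-3878, -3161) (by decide +kernel)
           (CovZ.leaf K3_ok TO_l1375 _)
           (CovZ.leaf K3_ok TO_l1376 _))
          (CovZ.leaf K3_ok TO_l1377 _))
         (CovZ.n1 (-3879, -3161) (by decide +kernel)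
          (CovZ.leaf K3_ok TO_l1378 _)
          (CovZ.leaf K3_ok TO_l1379 _)))
        (CovZ.n1 (-3876, -3162) (by decide +kernel)
         (CovZ.n2 (-3877, -3163) (by decide +kernel)
          (CovZ.leaf K3_ok TO_l1380 _)
          (CovZ.leaf K3_ok TO_l1381 _))
         (CovZ.n1 (-3877, -3161) (by decide +kernel)
          (CovZ.leaf K3_ok TO_l1382 _)
          (CovZ.n1 (-3877, -3162) (by decide +kernel)
           (CovZ.leaf K3_ok TO_l1383 _)
           (CovZ.leaf K3_ok TO_l1384 _))))))
      (CovZ.n1 (-3872, -3164) (by decide +kernel)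
       (CovZ.n2 (-3874, -3166) (by decide +kernel)
        (CovZ.n2 (-3874, -3164) (by decide +kernel)
         (CovZ.leaf K3_ok TO_l1385 _)
         (CovZ.n1 (-3875, -3165) (by decide +kernel)
          (CovZ.leaf K3_ok TO_l1386 _)
          (CovZ.leaf K3_ok TO_l1387 _)))
        (CovZ.n1 (-3872, -3166) (by decide +kernel)
         (CovZ.leaf K3_ok TO_l1388 _)
         (CovZ.n1 (-3873, -3165) (by decide +kernel)
          (CovZ.leaf K3_ok TO_l1389 _)
          (CovZ.leaf K3_ok TO_l1390 _))))
       (CovZ.n1 (-3874, -3162) (by decide +kernel)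
        (CovZ.n2 (-3872, -3162) (by decide +kernel)
         (CovZ.n2 (-3873, -3163) (by decide +kernel)
          (CovZ.leaf K3_ok TO_l1391 _)
          (CovZ.n1 (-3872, -3163) (by decide +kernel)
           (CovZ.leaf K3_ok TO_l1392 _)
           (CovZ.leaf K3_ok TO_l1393 _)))
         (CovZ.leaf K3_ok TO_l1394 _))
        (CovZ.n1 (-3874, -3164) (by decide +kernel)
         (CovZ.n2 (-3875, -3163) (by decide +kernel)
          (CovZ.leaf K3_ok TO_l1395 _)
          (CovZ.leaf K3_ok TO_l1396 _))
         (CovZ.n1 (-3873, -3163) (by decide +kernel)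
          (CovZ.leaf K3_ok TO_l1397 _)
          (CovZ.leaf K3_ok TO_l1398 _))))))
     (CovZ.n1 (-3876, -3156) (by decide +kernel)
      (CovZ.n2 (-3872, -3156) (by decide +kernel)
       (CovZ.n2 (-3874, -3158) (by decide +kernel)
        (CovZ.n2 (-3874, -3156) (by decide +kernel)
         (CovZ.n2 (-3873, -3157) (by decide +kernel)
          (CovZ.leaf K3_ok TO_l1399 _)
          (CovZ.leaf K3_ok TO_l1400 _))
         (CovZ.n1 (-3875, -3157) (by decide +kernel)
          (CovZ.n2 (-3875, -3156) (by decide +kernel)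
           (CovZ.leaf K3_ok TO_l1401 _)
           (CovZ.leaf K3_ok TO_l1402 _))
          (CovZ.leaf K3_ok TO_l1403 _)))
        (CovZ.n1 (-3872, -3158) (by decide +kernel)
         (CovZ.leaf K3_ok TO_l1404 _)
         (CovZ.n1 (-3873, -3157) (by decide +kernel)
          (CovZ.leaf K3_ok TO_l1405 _)
          (CovZ.leaf K3_ok TO_l1406 _))))
       (CovZ.n1 (-3874, -3154) (by decide +kernel)
        (CovZ.n2 (-3872, -3154) (by decide +kernel)
         (CovZ.n2 (-3873, -3155) (by decide +kernel)
          (CovZ.leaf K3_ok TO_l1407 _)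
          (CovZ.leaf K3_ok TO_l1408 _))
         (CovZ.leaf K3_ok TO_l1409 _))
        (CovZ.n1 (-3874, -3156) (by decide +kernel)
         (CovZ.n2 (-3875, -3155) (by decide +kernel)
          (CovZ.n2 (-3874, -3155) (by decide +kernel)
           (CovZ.leaf K3_ok TO_l1410 _)
           (CovZ.leaf K3_ok TO_l1411 _))
          (CovZ.leaf K3_ok TO_l1412 _))
         (CovZ.n1 (-3873, -3155) (by decide +kernel)
          (CovZ.n2 (-3873, -3156) (by decide +kernel)
           (CovZ.leaf K3_ok TO_l1413 _)
           (CovZ.leaf K3_ok TO_l1414 _))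
          (CovZ.leaf K3_ok TO_l1415 _)))))
      (CovZ.n1 (-3876, -3160) (by decide +kernel)
       (CovZ.n2 (-3878, -3158) (by decide +kernel)
        (CovZ.n2 (-3876, -3158) (by decide +kernel)
         (CovZ.n2 (-3877, -3159) (by decide +kernel)
          (CovZ.leaf K3_ok TO_l1416 _)
          (CovZ.n1 (-3876, -3159) (by decide +kernel)
           (CovZ.leaf K3_ok TO_l1417 _)
           (CovZ.leaf K3_ok TO_l1418 _)))
         (CovZ.n1 (-3877, -3157) (by decide +kernel)
          (CovZ.leaf K3_ok TO_l1419 _)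
          (CovZ.leaf K3_ok TO_l1420 _)))
        (CovZ.n1 (-3878, -3160) (by decide +kernel)
         (CovZ.n2 (-3879, -3159) (by decide +kernel)
          (CovZ.leaf K3_ok TO_l1421 _)
          (CovZ.n1 (-3879, -3160) (by decide +kernel)
           (CovZ.leaf K3_ok TO_l1422 _)
           (CovZ.leaf K3_ok TO_l1423 _)))
         (CovZ.n1 (-3877, -3159) (by decide +kernel)
          (CovZ.leaf K3_ok TO_l1424 _)
          (CovZ.leaf K3_ok TO_l1425 _))))
       (CovZ.n1 (-3874, -3158) (by decide +kernel)
        (CovZ.n2 (-3874, -3160) (by decide +kernel)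
         (CovZ.n2 (-3875, -3159) (by decide +kernel)
          (CovZ.leaf K3_ok TO_l1426 _)
          (CovZ.leaf K3_ok TO_l1427 _))
         (CovZ.n1 (-3873, -3159) (by decide +kernel)
          (CovZ.leaf K3_ok TO_l1428 _)
          (CovZ.leaf K3_ok TO_l1429 _)))
        (CovZ.n1 (-3876, -3158) (by decide +kernel)
         (CovZ.n2 (-3875, -3157) (by decide +kernel)
          (CovZ.leaf K3_ok TO_l1430 _)
          (CovZ.n1 (-3876, -3157) (by decide +kernel)
           (CovZ.leaf K3_ok TO_l1431 _)
           (CovZ.leaf K3_ok TO_l1432 _)))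
         (CovZ.leaf K3_ok TO_l1433 _))))))

theorem TO_u1 : CovZ TO_M (toL (selN TO_LN 11)) [0, 7, 4, 3] (-3880, -3160) (-3888, -3168) (-3872, -3168) :=
    (CovZ.n1 (-3880, -3168) (by decide +kernel)
     (CovZ.n2 (-3884, -3164) (by decide +kernel)
      (CovZ.n2 (-3880, -3164) (by decide +kernel)
       (CovZ.n2 (-3882, -3166) (by decide +kernel)
        (CovZ.n2 (-3882, -3164) (by decide +kernel)
         (CovZ.n2 (-3881, -3165) (by decide +kernel)
          (CovZ.leaf K3_ok TO_l1434 _)
          (CovZ.leaf K3_ok TO_l1435 _))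
         (CovZ.badM (by decide +kernel)))
        (CovZ.n1 (-3880, -3166) (by decide +kernel)
         (CovZ.n2 (-3881, -3167) (by decide +kernel)
          (CovZ.leaf K3_ok TO_l1439 _)
          (CovZ.leaf K3_ok TO_l1440 _))
         (CovZ.n1 (-3881, -3165) (by decide +kernel)
          (CovZ.n2 (-3880, -3165) (by decide +kernel)
           (CovZ.leaf K3_ok TO_l1441 _)
           (CovZ.leaf K3_ok TO_l1442 _))
          (CovZ.leaf K3_ok TO_l1443 _))))
       (CovZ.n1 (-3882, -3162) (by decide +kernel)
        (CovZ.n2 (-3880, -3162) (by decide +kernel)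
         (CovZ.n2 (-3881, -3163) (by decide +kernel)
          (CovZ.leaf K3_ok TO_l1444 _)
          (CovZ.n1 (-3880, -3163) (by decide +kernel)
           (CovZ.leaf K3_ok TO_l1445 _)
           (CovZ.leaf K3_ok TO_l1446 _)))
         (CovZ.n1 (-3881, -3161) (by decide +kernel)
          (CovZ.leaf K3_ok TO_l1447 _)
          (CovZ.leaf K3_ok TO_l1448 _)))
        (CovZ.n1 (-3882, -3164) (by decide +kernel)
         (CovZ.badM (by decide +kernel))
         (CovZ.n1 (-3881, -3163) (by decide +kernel)
          (CovZ.leaf K3_ok TO_l1451 _)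
          (CovZ.leaf K3_ok TO_l1452 _)))))
      (CovZ.n1 (-3884, -3168) (by decide +kernel)
       (CovZ.badM (by decide +kernel))
       (CovZ.n1 (-3882, -3166) (by decide +kernel)
        (CovZ.n2 (-3882, -3168) (by decide +kernel)
         (CovZ.badM (by decide +kernel))
         (CovZ.n1 (-3881, -3167) (by decide +kernel)
          (CovZ.n2 (-3881, -3168) (by decide +kernel)
           (CovZ.leaf K3_ok TO_l1462 _)
           (CovZ.leaf K3_ok TO_l1463 _))
          (CovZ.n1 (-3882, -3167) (by decide +kernel)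
           (CovZ.leaf K3_ok TO_l1464 _)
           (CovZ.leaf K3_ok TO_l1465 _))))
        (CovZ.badM (by decide +kernel)))))
     (CovZ.n1 (-3876, -3164) (by decide +kernel)
      (CovZ.n2 (-3876, -3168) (by decide +kernel)
       (CovZ.n2 (-3878, -3166) (by decide +kernel)
        (CovZ.n2 (-3876, -3166) (by decide +kernel)
         (CovZ.n2 (-3877, -3167) (by decide +kernel)
          (CovZ.leaf K3_ok TO_l1471 _)
          (CovZ.leaf K3_ok TO_l1472 _))
         (CovZ.n1 (-3877, -3165) (by decide +kernel)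
          (CovZ.n2 (-3876, -3165) (by decide +kernel)
           (CovZ.leaf K3_ok TO_l1473 _)
           (CovZ.leaf K3_ok TO_l1474 _))
          (CovZ.leaf K3_ok TO_l1475 _)))
        (CovZ.n1 (-3878, -3168) (by decide +kernel)
         (CovZ.n2 (-3879, -3167) (by decide +kernel)
          (CovZ.leaf K3_ok TO_l1476 _)
          (CovZ.leaf K3_ok TO_l1477 _))
         (CovZ.n1 (-3877, -3167) (by decide +kernel)
          (CovZ.leaf K3_ok TO_l1478 _)
          (CovZ.leaf K3_ok TO_l1479 _))))
       (CovZ.n1 (-3874, -3166) (by decide +kernel)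
        (CovZ.n2 (-3874, -3168) (by decide +kernel)
         (CovZ.n2 (-3875, -3167) (by decide +kernel)
          (CovZ.n2 (-3874, -3167) (by decide +kernel)
           (CovZ.leaf K3_ok TO_l1480 _)
           (CovZ.leaf K3_ok TO_l1481 _))
          (CovZ.leaf K3_ok TO_l1482 _))
         (CovZ.n1 (-3873, -3167) (by decide +kernel)
          (CovZ.leaf K3_ok TO_l1483 _)
          (CovZ.leaf K3_ok TO_l1484 _)))
        (CovZ.n1 (-3876, -3166) (by decide +kernel)
         (CovZ.n2 (-3875, -3165) (by decide +kernel)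
          (CovZ.leaf K3_ok TO_l1485 _)
          (CovZ.leaf K3_ok TO_l1486 _))
         (CovZ.n1 (-3875, -3167) (by decide +kernel)
          (CovZ.leaf K3_ok TO_l1487 _)
          (CovZ.leaf K3_ok TO_l1488 _)))))
      (CovZ.n1 (-3880, -3164) (by decide +kernel)
       (CovZ.n2 (-3878, -3162) (by decide +kernel)
        (CovZ.n2 (-3878, -3164) (by decide +kernel)
         (CovZ.n2 (-3879, -3163) (by decide +kernel)
          (CovZ.n2 (-3878, -3163) (by decide +kernel)
           (CovZ.leaf K3_ok TO_l1489 _)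
           (CovZ.leaf K3_ok TO_l1490 _))
          (CovZ.leaf K3_ok TO_l1491 _))
         (CovZ.n1 (-3877, -3163) (by decide +kernel)
          (CovZ.leaf K3_ok TO_l1492 _)
          (CovZ.leaf K3_ok TO_l1493 _)))
        (CovZ.n1 (-3880, -3162) (by decide +kernel)
         (CovZ.n2 (-3879, -3161) (by decide +kernel)
          (CovZ.leaf K3_ok TO_l1494 _)
          (CovZ.leaf K3_ok TO_l1495 _))
         (CovZ.n1 (-3879, -3163) (by decide +kernel)
          (CovZ.n2 (-3880, -3163) (by decide +kernel)
           (CovZ.leaf K3_ok TO_l1496 _)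
           (CovZ.leaf K3_ok TO_l1497 _))
          (CovZ.leaf K3_ok TO_l1498 _))))
       (CovZ.n1 (-3878, -3166) (by decide +kernel)
        (CovZ.n2 (-3880, -3166) (by decide +kernel)
         (CovZ.n2 (-3879, -3165) (by decide +kernel)
          (CovZ.leaf K3_ok TO_l1499 _)
          (CovZ.n1 (-3880, -3165) (by decide +kernel)
           (CovZ.leaf K3_ok TO_l1500 _)
           (CovZ.leaf K3_ok TO_l1501 _)))
         (CovZ.n1 (-3879, -3167) (by decide +kernel)
          (CovZ.leaf K3_ok TO_l1502 _)
          (CovZ.leaf K3_ok TO_l1503 _)))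
        (CovZ.n1 (-3878, -3164) (by decide +kernel)
         (CovZ.leaf K3_ok TO_l1504 _)
         (CovZ.n1 (-3879, -3165) (by decide +kernel)
          (CovZ.leaf K3_ok TO_l1505 _)
          (CovZ.leaf K3_ok TO_l1506 _)))))))

end Pool.Agent.TET
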