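import Pool.Agent.Helper38_TET.TO_M
import Pool.Agent.Helper38_TET.TO_L
import Pool.Agent.Helper38_TET.TO_10
import Pool.Agent.Helper38_TET.TO_14
import Pool.Agent.Helper38_TET.TO_15
import Pool.Agent.Helper38_TET.TO_17
import Pool.Agent.Helper38_TET.TO_18
import Pool.Agent.Helper38_TET.TO_21
import Pool.Agent.Helper38_TET.TO_22
import Pool.Agent.Helper38_TET.TO_23
import Pool.Agent.Helper38_TET.TO_U0

/-!
# MP_c7c9bf_co: certificates, family TO
-/

set_option autoImplicit false
set_option maxRecDepth 100000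

namespace Pool.Agent.TET

theorem TO_s4_3 : SqZ TO_M TO_L [0, 7, 4, 3] (-3920) (-3232) 16 4 3 :=
  SqZ.mk (a := (-3856)) (b := (-3840)) (c := (-3184)) (d := (-3168)) (by norm_num) (by norm_num) (by norm_num) (by norm_num)
    (CovZ.topM TO_LL 11 (by decide +kernel) (CovZ.n2 (-3848, -3176) (by decide +kernel)
    (CovZ.n2 (-3840, -3176) (by decide +kernel)
     (CovZ.n2 (-3844, -3180) (by decide +kernel)
      (CovZ.n2 (-3844, -3176) (by decide +kernel)
       (CovZ.n2 (-3842, -3178) (by decide +kernel)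
        (CovZ.n2 (-3844, -3178) (by decide +kernel)
         (CovZ.leaf K3_ok TO_l2577 _)
         (CovZ.leaf K3_ok TO_l2578 _))
        (CovZ.leaf K3_ok TO_l2579 _))
       (CovZ.n1 (-3846, -3178) (by decide +kernel)
        (CovZ.leaf K3_ok TO_l2580 _)
        (CovZ.n1 (-3844, -3178) (by decide +kernel)
         (CovZ.leaf K3_ok TO_l2581 _)
         (CovZ.leaf K3_ok TO_l2582 _))))
      (CovZ.n1 (-3840, -3180) (by decide +kernel)
       (CovZ.n2 (-3842, -3182) (by decide +kernel)
        (CovZ.leaf K3_ok TO_l2583 _)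
        (CovZ.leaf K3_ok TO_l2584 _))
       (CovZ.n1 (-3842, -3178) (by decide +kernel)
        (CovZ.leaf K3_ok TO_l2585 _)
        (CovZ.n1 (-3842, -3180) (by decide +kernel)
         (CovZ.leaf K3_ok TO_l2586 _)
         (CovZ.leaf K3_ok TO_l2587 _)))))
     (CovZ.n1 (-3844, -3172) (by decide +kernel)
      (CovZ.n2 (-3840, -3172) (by decide +kernel)
       (CovZ.n2 (-3842, -3174) (by decide +kernel)
        (CovZ.leaf K3_ok TO_l2588 _)
        (CovZ.leaf K3_ok TO_l2589 _))
       (CovZ.n1 (-3842, -3170) (by decide +kernel)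
        (CovZ.n2 (-3840, -3170) (by decide +kernel)
         (CovZ.leaf K3_ok TO_l2590 _)
         (CovZ.leaf K3_ok TO_l2591 _))
        (CovZ.n1 (-3842, -3172) (by decide +kernel)
         (CovZ.leaf K3_ok TO_l2592 _)
         (CovZ.leaf K3_ok TO_l2593 _))))
      (CovZ.n1 (-3844, -3176) (by decide +kernel)
       (CovZ.n2 (-3846, -3174) (by decide +kernel)
        (CovZ.n2 (-3844, -3174) (by decide +kernel)
         (CovZ.leaf K3_ok TO_l2594 _)
         (CovZ.leaf K3_ok TO_l2595 _))
        (CovZ.n1 (-3846, -3176) (by decide +kernel)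
         (CovZ.leaf K3_ok TO_l2596 _)
         (CovZ.leaf K3_ok TO_l2597 _)))
       (CovZ.n1 (-3842, -3174) (by decide +kernel)
        (CovZ.leaf K3_ok TO_l2598 _)
        (CovZ.n1 (-3844, -3174) (by decide +kernel)
         (CovZ.n2 (-3843, -3173) (by decide +kernel)
          (CovZ.leaf K3_ok TO_l2599 _)
          (CovZ.leaf K3_ok TO_l2600 _))
         (CovZ.leaf K3_ok TO_l2601 _))))))
    (CovZ.n1 (-3848, -3184) (by decide +kernel)
     (CovZ.n2 (-3852, -3180) (by decide +kernel)
      (CovZ.n2 (-3848, -3180) (by decide +kernel)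
       (CovZ.n2 (-3850, -3182) (by decide +kernel)
        (CovZ.leaf K3_ok TO_l2602 _)
        (CovZ.n1 (-3848, -3182) (by decide +kernel)
         (CovZ.leaf K3_ok TO_l2603 _)
         (CovZ.leaf K3_ok TO_l2604 _)))
       (CovZ.n1 (-3850, -3178) (by decide +kernel)
        (CovZ.n2 (-3848, -3178) (by decide +kernel)
         (CovZ.leaf K3_ok TO_l2605 _)
         (CovZ.leaf K3_ok TO_l2606 _))
        (CovZ.n1 (-3850, -3180) (by decide +kernel)
         (CovZ.leaf K3_ok TO_l2607 _)
         (CovZ.leaf K3_ok TO_l2608 _))))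
      (CovZ.n1 (-3852, -3184) (by decide +kernel)
       (CovZ.n2 (-3854, -3182) (by decide +kernel)
        (CovZ.n2 (-3852, -3182) (by decide +kernel)
         (CovZ.leaf K3_ok TO_l2609 _)
         (CovZ.leaf K3_ok TO_l2610 _))
        (CovZ.n1 (-3854, -3184) (by decide +kernel)
         (CovZ.leaf K3_ok TO_l2611 _)
         (CovZ.leaf K3_ok TO_l2612 _)))
       (CovZ.n1 (-3850, -3182) (by decide +kernel)
        (CovZ.n2 (-3850, -3184) (by decide +kernel)
         (CovZ.leaf K3_ok TO_l2613 _)
         (CovZ.leaf K3_ok TO_l2614 _))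
        (CovZ.n1 (-3852, -3182) (by decide +kernel)
         (CovZ.leaf K3_ok TO_l2615 _)
         (CovZ.leaf K3_ok TO_l2616 _)))))
     (CovZ.n1 (-3844, -3180) (by decide +kernel)
      (CovZ.n2 (-3844, -3184) (by decide +kernel)
       (CovZ.n2 (-3846, -3182) (by decide +kernel)
        (CovZ.n2 (-3844, -3182) (by decide +kernel)
         (CovZ.leaf K3_ok TO_l2617 _)
         (CovZ.leaf K3_ok TO_l2618 _))
        (CovZ.n1 (-3846, -3184) (by decide +kernel)
         (CovZ.leaf K3_ok TO_l2619 _)
         (CovZ.leaf K3_ok TO_l2620 _)))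
       (CovZ.n1 (-3842, -3182) (by decide +kernel)
        (CovZ.n2 (-3842, -3184) (by decide +kernel)
         (CovZ.leaf K3_ok TO_l2621 _)
         (CovZ.leaf K3_ok TO_l2622 _))
        (CovZ.n1 (-3844, -3182) (by decide +kernel)
         (CovZ.n2 (-3843, -3181) (by decide +kernel)
          (CovZ.leaf K3_ok TO_l2623 _)
          (CovZ.leaf K3_ok TO_l2624 _))
         (CovZ.leaf K3_ok TO_l2625 _))))
      (CovZ.n1 (-3848, -3180) (by decide +kernel)
       (CovZ.n2 (-3846, -3178) (by decide +kernel)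
        (CovZ.n2 (-3846, -3180) (by decide +kernel)
         (CovZ.leaf K3_ok TO_l2626 _)
         (CovZ.leaf K3_ok TO_l2627 _))
        (CovZ.n1 (-3848, -3178) (by decide +kernel)
         (CovZ.leaf K3_ok TO_l2628 _)
         (CovZ.leaf K3_ok TO_l2629 _)))
       (CovZ.n1 (-3846, -3182) (by decide +kernel)
        (CovZ.n2 (-3848, -3182) (by decide +kernel)
         (CovZ.leaf K3_ok TO_l2630 _)
         (CovZ.leaf K3_ok TO_l2631 _))
        (CovZ.leaf K3_ok TO_l2632 _)))))))
    (CovZ.topM TO_LL 11 (by decide +kernel) (CovZ.n0 (-3848, -3176) (by decide +kernel)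
    (CovZ.n2 (-3856, -3176) (by decide +kernel)
     (CovZ.n2 (-3852, -3172) (by decide +kernel)
      (CovZ.n2 (-3852, -3176) (by decide +kernel)
       (CovZ.n2 (-3854, -3174) (by decide +kernel)
        (CovZ.n2 (-3852, -3174) (by decide +kernel)
         (CovZ.leaf K3_ok TO_l2633 _)
         (CovZ.leaf K3_ok TO_l2634 _))
        (CovZ.n1 (-3854, -3176) (by decide +kernel)
         (CovZ.leaf K3_ok TO_l2635 _)
         (CovZ.leaf K3_ok TO_l2636 _)))
       (CovZ.n1 (-3850, -3174) (by decide +kernel)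
        (CovZ.n2 (-3850, -3176) (by decide +kernel)
         (CovZ.leaf K3_ok TO_l2637 _)
         (CovZ.leaf K3_ok TO_l2638 _))
        (CovZ.n1 (-3852, -3174) (by decide +kernel)
         (CovZ.leaf K3_ok TO_l2639 _)
         (CovZ.leaf K3_ok TO_l2640 _))))
      (CovZ.n1 (-3856, -3172) (by decide +kernel)
       (CovZ.n2 (-3854, -3170) (by decide +kernel)
        (CovZ.n2 (-3854, -3172) (by decide +kernel)
         (CovZ.leaf K3_ok TO_l2641 _)
         (CovZ.leaf K3_ok TO_l2642 _))
        (CovZ.n1 (-3856, -3170) (by decide +kernel)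
         (CovZ.leaf K3_ok TO_l2643 _)
         (CovZ.leaf K3_ok TO_l2644 _)))
       (CovZ.n1 (-3854, -3174) (by decide +kernel)
        (CovZ.n2 (-3856, -3174) (by decide +kernel)
         (CovZ.leaf K3_ok TO_l2645 _)
         (CovZ.leaf K3_ok TO_l2646 _))
        (CovZ.leaf K3_ok TO_l2647 _))))
     (CovZ.n1 (-3852, -3180) (by decide +kernel)
      (CovZ.n2 (-3856, -3180) (by decide +kernel)
       (CovZ.n2 (-3854, -3178) (by decide +kernel)
        (CovZ.n2 (-3854, -3180) (by decide +kernel)
         (CovZ.leaf K3_ok TO_l2648 _)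
         (CovZ.leaf K3_ok TO_l2649 _))
        (CovZ.n1 (-3856, -3178) (by decide +kernel)
         (CovZ.leaf K3_ok TO_l2650 _)
         (CovZ.leaf K3_ok TO_l2651 _)))
       (CovZ.n1 (-3854, -3182) (by decide +kernel)
        (CovZ.n2 (-3856, -3182) (by decide +kernel)
         (CovZ.leaf K3_ok TO_l2652 _)
         (CovZ.leaf K3_ok TO_l2653 _))
        (CovZ.leaf K3_ok TO_l2654 _)))
      (CovZ.n1 (-3852, -3176) (by decide +kernel)
       (CovZ.n2 (-3850, -3178) (by decide +kernel)
        (CovZ.n2 (-3852, -3178) (by decide +kernel)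
         (CovZ.leaf K3_ok TO_l2655 _)
         (CovZ.leaf K3_ok TO_l2656 _))
        (CovZ.leaf K3_ok TO_l2657 _))
       (CovZ.n1 (-3854, -3178) (by decide +kernel)
        (CovZ.leaf K3_ok TO_l2658 _)
        (CovZ.n1 (-3852, -3178) (by decide +kernel)
         (CovZ.leaf K3_ok TO_l2659 _)
         (CovZ.leaf K3_ok TO_l2660 _))))))
    (CovZ.n1 (-3848, -3168) (by decide +kernel)
     (CovZ.n2 (-3844, -3172) (by decide +kernel)
      (CovZ.n2 (-3848, -3172) (by decide +kernel)
       (CovZ.n2 (-3846, -3170) (by decide +kernel)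
        (CovZ.n2 (-3846, -3172) (by decide +kernel)
         (CovZ.leaf K3_ok TO_l2661 _)
         (CovZ.leaf K3_ok TO_l2662 _))
        (CovZ.n1 (-3848, -3170) (by decide +kernel)
         (CovZ.leaf K3_ok TO_l2663 _)
         (CovZ.leaf K3_ok TO_l2664 _)))
       (CovZ.n1 (-3846, -3174) (by decide +kernel)
        (CovZ.n2 (-3848, -3174) (by decide +kernel)
         (CovZ.leaf K3_ok TO_l2665 _)
         (CovZ.leaf K3_ok TO_l2666 _))
        (CovZ.leaf K3_ok TO_l2667 _)))
      (CovZ.n1 (-3844, -3168) (by decide +kernel)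
       (CovZ.n2 (-3842, -3170) (by decide +kernel)
        (CovZ.n2 (-3844, -3170) (by decide +kernel)
         (CovZ.leaf K3_ok TO_l2668 _)
         (CovZ.leaf K3_ok TO_l2669 _))
        (CovZ.leaf K3_ok TO_l2670 _))
       (CovZ.n1 (-3846, -3170) (by decide +kernel)
        (CovZ.leaf K3_ok TO_l2671 _)
        (CovZ.n1 (-3844, -3170) (by decide +kernel)
         (CovZ.leaf K3_ok TO_l2672 _)
         (CovZ.leaf K3_ok TO_l2673 _)))))
     (CovZ.n1 (-3852, -3172) (by decide +kernel)
      (CovZ.n2 (-3852, -3168) (by decide +kernel)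
       (CovZ.n2 (-3850, -3170) (by decide +kernel)
        (CovZ.n2 (-3852, -3170) (by decide +kernel)
         (CovZ.leaf K3_ok TO_l2674 _)
         (CovZ.leaf K3_ok TO_l2675 _))
        (CovZ.leaf K3_ok TO_l2676 _))
       (CovZ.n1 (-3854, -3170) (by decide +kernel)
        (CovZ.leaf K3_ok TO_l2677 _)
        (CovZ.n1 (-3852, -3170) (by decide +kernel)
         (CovZ.leaf K3_ok TO_l2678 _)
         (CovZ.leaf K3_ok TO_l2679 _))))
      (CovZ.n1 (-3848, -3172) (by decide +kernel)
       (CovZ.n2 (-3850, -3174) (by decide +kernel)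
        (CovZ.leaf K3_ok TO_l2680 _)
        (CovZ.n1 (-3848, -3174) (by decide +kernel)
         (CovZ.leaf K3_ok TO_l2681 _)
         (CovZ.leaf K3_ok TO_l2682 _)))
       (CovZ.n1 (-3850, -3170) (by decide +kernel)
        (CovZ.n2 (-3848, -3170) (by decide +kernel)
         (CovZ.leaf K3_ok TO_l2683 _)
         (CovZ.leaf K3_ok TO_l2684 _))
        (CovZ.n1 (-3850, -3172) (by decide +kernel)
         (CovZ.leaf K3_ok TO_l2685 _)
         (CovZ.leaf K3_ok TO_l2686 _))))))))

theorem TO_s5_3 : SqZ TO_M TO_L [0, 7, 4, 3] (-3920) (-3232) 16 5 3 :=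
  SqZ.mk (a := (-3840)) (b := (-3824)) (c := (-3184)) (d := (-3168)) (by norm_num) (by norm_num) (by norm_num) (by norm_num)
    (CovZ.topM TO_LL 11 (by decide +kernel) (CovZ.n2 (-3832, -3176) (by decide +kernel)
    (CovZ.n2 (-3824, -3176) (by decide +kernel)
     (CovZ.n2 (-3828, -3180) (by decide +kernel)
      (CovZ.n2 (-3828, -3176) (by decide +kernel)
       (CovZ.n2 (-3826, -3178) (by decide +kernel)
        (CovZ.n2 (-3828, -3178) (by decide +kernel)
         (CovZ.n2 (-3827, -3177) (by decide +kernel)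
          (CovZ.leaf K3_ok TO_l3175 _)
          (CovZ.leaf K3_ok TO_l3176 _))
         (CovZ.leaf K3_ok TO_l3177 _))
        (CovZ.n1 (-3826, -3176) (by decide +kernel)
         (CovZ.n2 (-3825, -3177) (by decide +kernel)
          (CovZ.leaf K3_ok TO_l3178 _)
          (CovZ.leaf K3_ok TO_l3179 _))
         (CovZ.n1 (-3827, -3177) (by decide +kernel)
          (CovZ.leaf K3_ok TO_l3180 _)
          (CovZ.leaf K3_ok TO_l3181 _))))
       (CovZ.n1 (-3830, -3178) (by decide +kernel)
        (CovZ.n2 (-3830, -3176) (by decide +kernel)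
         (CovZ.leaf K3_ok TO_l3182 _)
         (CovZ.leaf K3_ok TO_l3183 _))
        (CovZ.n1 (-3828, -3178) (by decide +kernel)
         (CovZ.n2 (-3829, -3179) (by decide +kernel)
          (CovZ.leaf K3_ok TO_l3184 _)
          (CovZ.leaf K3_ok TO_l3185 _))
         (CovZ.leaf K3_ok TO_l3186 _))))
      (CovZ.n1 (-3824, -3180) (by decide +kernel)
       (CovZ.n2 (-3826, -3182) (by decide +kernel)
        (CovZ.n2 (-3826, -3180) (by decide +kernel)
         (CovZ.n2 (-3825, -3181) (by decide +kernel)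
          (CovZ.leaf K3_ok TO_l3187 _)
          (CovZ.leaf K3_ok TO_l3188 _))
         (CovZ.n1 (-3827, -3181) (by decide +kernel)
          (CovZ.leaf K3_ok TO_l3189 _)
          (CovZ.leaf K3_ok TO_l3190 _)))
        (CovZ.n1 (-3824, -3182) (by decide +kernel)
         (CovZ.n2 (-3825, -3183) (by decide +kernel)
          (CovZ.leaf K3_ok TO_l3191 _)
          (CovZ.n1 (-3824, -3183) (by decide +kernel)
           (CovZ.leaf K3_ok TO_l3192 _)
           (CovZ.leaf K3_ok TO_l3193 _)))
         (CovZ.n1 (-3825, -3181) (by decide +kernel)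
          (CovZ.n2 (-3824, -3181) (by decide +kernel)
           (CovZ.leaf K3_ok TO_l3194 _)
           (CovZ.leaf K3_ok TO_l3195 _))
          (CovZ.leaf K3_ok TO_l3196 _))))
       (CovZ.n1 (-3826, -3178) (by decide +kernel)
        (CovZ.n2 (-3824, -3178) (by decide +kernel)
         (CovZ.n2 (-3825, -3179) (by decide +kernel)
          (CovZ.leaf K3_ok TO_l3197 _)
          (CovZ.n1 (-3824, -3179) (by decide +kernel)
           (CovZ.leaf K3_ok TO_l3198 _)
           (CovZ.leaf K3_ok TO_l3199 _)))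
         (CovZ.n1 (-3825, -3177) (by decide +kernel)
          (CovZ.badM (by decide +kernel))
          (CovZ.n1 (-3825, -3178) (by decide +kernel)
           (CovZ.leaf K3_ok TO_l3200 _)
           (CovZ.badM (by decide +kernel)))))
        (CovZ.n1 (-3826, -3180) (by decide +kernel)
         (CovZ.n2 (-3827, -3179) (by decide +kernel)
          (CovZ.leaf K3_ok TO_l3201 _)
          (CovZ.leaf K3_ok TO_l3202 _))
         (CovZ.n1 (-3825, -3179) (by decide +kernel)
          (CovZ.n2 (-3825, -3180) (by decide +kernel)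
           (CovZ.leaf K3_ok TO_l3203 _)
           (CovZ.leaf K3_ok TO_l3204 _))
          (CovZ.leaf K3_ok TO_l3205 _))))))
     (CovZ.n1 (-3828, -3172) (by decide +kernel)
      (CovZ.n2 (-3824, -3172) (by decide +kernel)
       (CovZ.n2 (-3826, -3174) (by decide +kernel)
        (CovZ.n2 (-3826, -3172) (by decide +kernel)
         (CovZ.leaf K3_ok TO_l3206 _)
         (CovZ.n1 (-3827, -3173) (by decide +kernel)
          (CovZ.leaf K3_ok TO_l3207 _)
          (CovZ.leaf K3_ok TO_l3208 _)))
        (CovZ.n1 (-3824, -3174) (by decide +kernel)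
         (CovZ.n2 (-3825, -3175) (by decide +kernel)
          (CovZ.leaf K3_ok TO_l3209 _)
          (CovZ.badM (by decide +kernel)))
         (CovZ.n1 (-3825, -3173) (by decide +kernel)
          (CovZ.badM (by decide +kernel))
          (CovZ.n1 (-3825, -3174) (by decide +kernel)
           (CovZ.leaf K3_ok TO_l3213 _)
           (CovZ.badM (by decide +kernel))))))
       (CovZ.n1 (-3826, -3170) (by decide +kernel)
        (CovZ.n2 (-3824, -3170) (by decide +kernel)
         (CovZ.n2 (-3825, -3171) (by decide +kernel)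
          (CovZ.leaf K3_ok TO_l3215 _)
          (CovZ.badM (by decide +kernel)))
         (CovZ.n1 (-3825, -3169) (by decide +kernel)
          (CovZ.badM (by decide +kernel))
          (CovZ.n1 (-3825, -3170) (by decide +kernel)
           (CovZ.leaf K3_ok TO_l3219 _)
           (CovZ.badM (by decide +kernel)))))
        (CovZ.n1 (-3826, -3172) (by decide +kernel)
         (CovZ.n2 (-3827, -3171) (by decide +kernel)
          (CovZ.leaf K3_ok TO_l3221 _)
          (CovZ.leaf K3_ok TO_l3222 _))
         (CovZ.n1 (-3825, -3171) (by decide +kernel)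
          (CovZ.leaf K3_ok TO_l3223 _)
          (CovZ.leaf K3_ok TO_l3224 _)))))
      (CovZ.n1 (-3828, -3176) (by decide +kernel)
       (CovZ.n2 (-3830, -3174) (by decide +kernel)
        (CovZ.n2 (-3828, -3174) (by decide +kernel)
         (CovZ.leaf K3_ok TO_l3225 _)
         (CovZ.leaf K3_ok TO_l3226 _))
        (CovZ.n1 (-3830, -3176) (by decide +kernel)
         (CovZ.leaf K3_ok TO_l3227 _)
         (CovZ.leaf K3_ok TO_l3228 _)))
       (CovZ.n1 (-3826, -3174) (by decide +kernel)
        (CovZ.n2 (-3826, -3176) (by decide +kernel)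
         (CovZ.n2 (-3827, -3175) (by decide +kernel)
          (CovZ.n2 (-3826, -3175) (by decide +kernel)
           (CovZ.leaf K3_ok TO_l3229 _)
           (CovZ.leaf K3_ok TO_l3230 _))
          (CovZ.n1 (-3827, -3176) (by decide +kernel)
           (CovZ.leaf K3_ok TO_l3231 _)
           (CovZ.leaf K3_ok TO_l3232 _)))
         (CovZ.n1 (-3825, -3175) (by decide +kernel)
          (CovZ.n2 (-3825, -3176) (by decide +kernel)
           (CovZ.leaf K3_ok TO_l3233 _)
           (CovZ.badM (by decide +kernel)))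
          (CovZ.leaf K3_ok TO_l3235 _)))
        (CovZ.n1 (-3828, -3174) (by decide +kernel)
         (CovZ.n2 (-3827, -3173) (by decide +kernel)
          (CovZ.leaf K3_ok TO_l3236 _)
          (CovZ.leaf K3_ok TO_l3237 _))
         (CovZ.n1 (-3827, -3175) (by decide +kernel)
          (CovZ.leaf K3_ok TO_l3238 _)
          (CovZ.leaf K3_ok TO_l3239 _)))))))
    (CovZ.n1 (-3832, -3184) (by decide +kernel)
     (CovZ.n2 (-3836, -3180) (by decide +kernel)
      (CovZ.n2 (-3832, -3180) (by decide +kernel)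
       (CovZ.n2 (-3834, -3182) (by decide +kernel)
        (CovZ.leaf K3_ok TO_l3240 _)
        (CovZ.n1 (-3832, -3182) (by decide +kernel)
         (CovZ.leaf K3_ok TO_l3241 _)
         (CovZ.leaf K3_ok TO_l3242 _)))
       (CovZ.n1 (-3834, -3178) (by decide +kernel)
        (CovZ.n2 (-3832, -3178) (by decide +kernel)
         (CovZ.leaf K3_ok TO_l3243 _)
         (CovZ.leaf K3_ok TO_l3244 _))
        (CovZ.n1 (-3834, -3180) (by decide +kernel)
         (CovZ.leaf K3_ok TO_l3245 _)
         (CovZ.leaf K3_ok TO_l3246 _))))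
      (CovZ.n1 (-3836, -3184) (by decide +kernel)
       (CovZ.n2 (-3838, -3182) (by decide +kernel)
        (CovZ.leaf K3_ok TO_l3247 _)
        (CovZ.n1 (-3838, -3184) (by decide +kernel)
         (CovZ.leaf K3_ok TO_l3248 _)
         (CovZ.leaf K3_ok TO_l3249 _)))
       (CovZ.n1 (-3834, -3182) (by decide +kernel)
        (CovZ.n2 (-3834, -3184) (by decide +kernel)
         (CovZ.leaf K3_ok TO_l3250 _)
         (CovZ.leaf K3_ok TO_l3251 _))
        (CovZ.n1 (-3836, -3182) (by decide +kernel)
         (CovZ.leaf K3_ok TO_l3252 _)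
         (CovZ.leaf K3_ok TO_l3253 _)))))
     (CovZ.n1 (-3828, -3180) (by decide +kernel)
      (CovZ.n2 (-3828, -3184) (by decide +kernel)
       (CovZ.n2 (-3830, -3182) (by decide +kernel)
        (CovZ.n2 (-3828, -3182) (by decide +kernel)
         (CovZ.leaf K3_ok TO_l3254 _)
         (CovZ.n1 (-3829, -3181) (by decide +kernel)
          (CovZ.leaf K3_ok TO_l3255 _)
          (CovZ.leaf K3_ok TO_l3256 _)))
        (CovZ.n1 (-3830, -3184) (by decide +kernel)
         (CovZ.leaf K3_ok TO_l3257 _)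
         (CovZ.n1 (-3829, -3183) (by decide +kernel)
          (CovZ.leaf K3_ok TO_l3258 _)
          (CovZ.leaf K3_ok TO_l3259 _))))
       (CovZ.n1 (-3826, -3182) (by decide +kernel)
        (CovZ.n2 (-3826, -3184) (by decide +kernel)
         (CovZ.n2 (-3827, -3183) (by decide +kernel)
          (CovZ.n2 (-3826, -3183) (by decide +kernel)
           (CovZ.leaf K3_ok TO_l3260 _)
           (CovZ.leaf K3_ok TO_l3261 _))
          (CovZ.leaf K3_ok TO_l3262 _))
         (CovZ.n1 (-3825, -3183) (by decide +kernel)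
          (CovZ.n2 (-3825, -3184) (by decide +kernel)
           (CovZ.leaf K3_ok TO_l3263 _)
           (CovZ.leaf K3_ok TO_l3264 _))
          (CovZ.leaf K3_ok TO_l3265 _)))
        (CovZ.n1 (-3828, -3182) (by decide +kernel)
         (CovZ.leaf K3_ok TO_l3266 _)
         (CovZ.leaf K3_ok TO_l3267 _))))
      (CovZ.n1 (-3832, -3180) (by decide +kernel)
       (CovZ.n2 (-3830, -3178) (by decide +kernel)
        (CovZ.n2 (-3830, -3180) (by decide +kernel)
         (CovZ.leaf K3_ok TO_l3268 _)
         (CovZ.leaf K3_ok TO_l3269 _))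
        (CovZ.n1 (-3832, -3178) (by decide +kernel)
         (CovZ.leaf K3_ok TO_l3270 _)
         (CovZ.leaf K3_ok TO_l3271 _)))
       (CovZ.n1 (-3830, -3182) (by decide +kernel)
        (CovZ.n2 (-3832, -3182) (by decide +kernel)
         (CovZ.leaf K3_ok TO_l3272 _)
         (CovZ.leaf K3_ok TO_l3273 _))
        (CovZ.n1 (-3830, -3180) (by decide +kernel)
         (CovZ.leaf K3_ok TO_l3274 _)
         (CovZ.leaf K3_ok TO_l3275 _))))))))
    (CovZ.topM TO_LL 11 (by decide +kernel) (CovZ.n0 (-3832, -3176) (by decide +kernel)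
    (CovZ.n2 (-3840, -3176) (by decide +kernel)
     (CovZ.n2 (-3836, -3172) (by decide +kernel)
      (CovZ.n2 (-3836, -3176) (by decide +kernel)
       (CovZ.n2 (-3838, -3174) (by decide +kernel)
        (CovZ.n2 (-3836, -3174) (by decide +kernel)
         (CovZ.leaf K3_ok TO_l3276 _)
         (CovZ.leaf K3_ok TO_l3277 _))
        (CovZ.n1 (-3838, -3176) (by decide +kernel)
         (CovZ.leaf K3_ok TO_l3278 _)
         (CovZ.leaf K3_ok TO_l3279 _)))
       (CovZ.n1 (-3834, -3174) (by decide +kernel)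
        (CovZ.n2 (-3834, -3176) (by decide +kernel)
         (CovZ.leaf K3_ok TO_l3280 _)
         (CovZ.leaf K3_ok TO_l3281 _))
        (CovZ.n1 (-3836, -3174) (by decide +kernel)
         (CovZ.leaf K3_ok TO_l3282 _)
         (CovZ.leaf K3_ok TO_l3283 _))))
      (CovZ.n1 (-3840, -3172) (by decide +kernel)
       (CovZ.n2 (-3838, -3170) (by decide +kernel)
        (CovZ.n2 (-3838, -3172) (by decide +kernel)
         (CovZ.leaf K3_ok TO_l3284 _)
         (CovZ.leaf K3_ok TO_l3285 _))
        (CovZ.n1 (-3840, -3170) (by decide +kernel)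
         (CovZ.leaf K3_ok TO_l3286 _)
         (CovZ.leaf K3_ok TO_l3287 _)))
       (CovZ.n1 (-3838, -3174) (by decide +kernel)
        (CovZ.leaf K3_ok TO_l3288 _)
        (CovZ.leaf K3_ok TO_l3289 _))))
     (CovZ.n1 (-3836, -3180) (by decide +kernel)
      (CovZ.n2 (-3840, -3180) (by decide +kernel)
       (CovZ.n2 (-3838, -3178) (by decide +kernel)
        (CovZ.leaf K3_ok TO_l3290 _)
        (CovZ.leaf K3_ok TO_l3291 _))
       (CovZ.n1 (-3838, -3182) (by decide +kernel)
        (CovZ.leaf K3_ok TO_l3292 _)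
        (CovZ.leaf K3_ok TO_l3293 _)))
      (CovZ.n1 (-3836, -3176) (by decide +kernel)
       (CovZ.n2 (-3834, -3178) (by decide +kernel)
        (CovZ.n2 (-3836, -3178) (by decide +kernel)
         (CovZ.leaf K3_ok TO_l3294 _)
         (CovZ.leaf K3_ok TO_l3295 _))
        (CovZ.leaf K3_ok TO_l3296 _))
       (CovZ.n1 (-3838, -3178) (by decide +kernel)
        (CovZ.leaf K3_ok TO_l3297 _)
        (CovZ.n1 (-3836, -3178) (by decide +kernel)
         (CovZ.leaf K3_ok TO_l3298 _)
         (CovZ.leaf K3_ok TO_l3299 _))))))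
    (CovZ.n1 (-3832, -3168) (by decide +kernel)
     (CovZ.n2 (-3828, -3172) (by decide +kernel)
      (CovZ.n2 (-3832, -3172) (by decide +kernel)
       (CovZ.n2 (-3830, -3170) (by decide +kernel)
        (CovZ.n2 (-3830, -3172) (by decide +kernel)
         (CovZ.leaf K3_ok TO_l3300 _)
         (CovZ.leaf K3_ok TO_l3301 _))
        (CovZ.n1 (-3832, -3170) (by decide +kernel)
         (CovZ.leaf K3_ok TO_l3302 _)
         (CovZ.leaf K3_ok TO_l3303 _)))
       (CovZ.n1 (-3830, -3174) (by decide +kernel)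
        (CovZ.n2 (-3832, -3174) (by decide +kernel)
         (CovZ.leaf K3_ok TO_l3304 _)
         (CovZ.leaf K3_ok TO_l3305 _))
        (CovZ.n1 (-3830, -3172) (by decide +kernel)
         (CovZ.leaf K3_ok TO_l3306 _)
         (CovZ.leaf K3_ok TO_l3307 _))))
      (CovZ.n1 (-3828, -3168) (by decide +kernel)
       (CovZ.n2 (-3826, -3170) (by decide +kernel)
        (CovZ.n2 (-3828, -3170) (by decide +kernel)
         (CovZ.n2 (-3827, -3169) (by decide +kernel)
          (CovZ.n2 (-3827, -3170) (by decide +kernel)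
           (CovZ.leaf K3_ok TO_l3308 _)
           (CovZ.leaf K3_ok TO_l3309 _))
          (CovZ.leaf K3_ok TO_l3310 _))
         (CovZ.leaf K3_ok TO_l3311 _))
        (CovZ.n1 (-3826, -3168) (by decide +kernel)
         (CovZ.n2 (-3825, -3169) (by decide +kernel)
          (CovZ.leaf K3_ok TO_l3312 _)
          (CovZ.leaf K3_ok TO_l3313 _))
         (CovZ.n1 (-3827, -3169) (by decide +kernel)
          (CovZ.leaf K3_ok TO_l3314 _)
          (CovZ.n1 (-3826, -3169) (by decide +kernel)
           (CovZ.leaf K3_ok TO_l3315 _)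
           (CovZ.leaf K3_ok TO_l3316 _)))))
       (CovZ.n1 (-3830, -3170) (by decide +kernel)
        (CovZ.n2 (-3830, -3168) (by decide +kernel)
         (CovZ.leaf K3_ok TO_l3317 _)
         (CovZ.leaf K3_ok TO_l3318 _))
        (CovZ.n1 (-3828, -3170) (by decide +kernel)
         (CovZ.leaf K3_ok TO_l3319 _)
         (CovZ.leaf K3_ok TO_l3320 _)))))
     (CovZ.n1 (-3836, -3172) (by decide +kernel)
      (CovZ.n2 (-3836, -3168) (by decide +kernel)
       (CovZ.n2 (-3834, -3170) (by decide +kernel)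
        (CovZ.n2 (-3836, -3170) (by decide +kernel)
         (CovZ.leaf K3_ok TO_l3321 _)
         (CovZ.leaf K3_ok TO_l3322 _))
        (CovZ.leaf K3_ok TO_l3323 _))
       (CovZ.n1 (-3838, -3170) (by decide +kernel)
        (CovZ.leaf K3_ok TO_l3324 _)
        (CovZ.n1 (-3836, -3170) (by decide +kernel)
         (CovZ.leaf K3_ok TO_l3325 _)
         (CovZ.leaf K3_ok TO_l3326 _))))
      (CovZ.n1 (-3832, -3172) (by decide +kernel)
       (CovZ.n2 (-3834, -3174) (by decide +kernel)
        (CovZ.leaf K3_ok TO_l3327 _)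
        (CovZ.n1 (-3832, -3174) (by decide +kernel)
         (CovZ.leaf K3_ok TO_l3328 _)
         (CovZ.leaf K3_ok TO_l3329 _)))
       (CovZ.n1 (-3834, -3170) (by decide +kernel)
        (CovZ.n2 (-3832, -3170) (by decide +kernel)
         (CovZ.n2 (-3833, -3171) (by decide +kernel)
          (CovZ.leaf K3_ok TO_l3330 _)
          (CovZ.leaf K3_ok TO_l3331 _))
         (CovZ.leaf K3_ok TO_l3332 _))
        (CovZ.n1 (-3834, -3172) (by decide +kernel)
         (CovZ.leaf K3_ok TO_l3333 _)
         (CovZ.leaf K3_ok TO_l3334 _))))))))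

theorem TO_s6_3 : SqZ TO_M TO_L [0, 7, 4, 3] (-3920) (-3232) 16 6 3 :=
  SqZ.mk (a := (-3824)) (b := (-3808)) (c := (-3184)) (d := (-3168)) (by norm_num) (by norm_num) (by norm_num) (by norm_num)
    (CovZ.topM TO_LL 0 (by decide +kernel) (CovZ.badM (by decide +kernel)))
    (CovZ.topM TO_LL 0 (by decide +kernel) (CovZ.badM (by decide +kernel)))

theorem TO_s0_4 : SqZ TO_M TO_L [0, 7, 4, 3] (-3920) (-3232) 16 0 4 :=
  SqZ.mk (a := (-3920)) (b := (-3904)) (c := (-3168)) (d := (-3152)) (by norm_num) (by norm_num) (by norm_num) (by norm_num)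
    (CovZ.topM TO_LL 0 (by decide +kernel) (CovZ.badM (by decide +kernel)))
    (CovZ.topM TO_LL 0 (by decide +kernel) (CovZ.badM (by decide +kernel)))

theorem TO_s1_4 : SqZ TO_M TO_L [0, 7, 4, 3] (-3920) (-3232) 16 1 4 :=
  SqZ.mk (a := (-3904)) (b := (-3888)) (c := (-3168)) (d := (-3152)) (by norm_num) (by norm_num) (by norm_num) (by norm_num)
    (CovZ.topM TO_LL 0 (by decide +kernel) (CovZ.badM (by decide +kernel)))
    (CovZ.topM TO_LL 0 (by decide +kernel) (CovZ.badM (by decide +kernel)))

theorem TO_s2_4 : SqZ TO_M TO_L [0, 7, 4, 3] (-3920) (-3232) 16 2 4 :=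
  SqZ.mk (a := (-3888)) (b := (-3872)) (c := (-3168)) (d := (-3152)) (by norm_num) (by norm_num) (by norm_num) (by norm_num)
    (CovZ.topM TO_LL 11 (by decide +kernel) (CovZ.n2 (-3880, -3160) (by decide +kernel)
    TO_u0
    TO_u1))
    (CovZ.topM TO_LL 11 (by decide +kernel) (CovZ.n0 (-3880, -3160) (by decide +kernel)
    (CovZ.n2 (-3888, -3160) (by decide +kernel)
     (CovZ.n2 (-3884, -3156) (by decide +kernel)
      (CovZ.n2 (-3884, -3160) (by decide +kernel)
       (CovZ.badM (by decide +kernel))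
       (CovZ.n1 (-3882, -3158) (by decide +kernel)
        (CovZ.n2 (-3882, -3160) (by decide +kernel)
         (CovZ.n2 (-3883, -3159) (by decide +kernel)
          (CovZ.n2 (-3882, -3159) (by decide +kernel)
           (CovZ.leaf K3_ok TO_l1507 _)
           (CovZ.leaf K3_ok TO_l1508 _))
          (CovZ.badM (by decide +kernel)))
         (CovZ.n1 (-3881, -3159) (by decide +kernel)
          (CovZ.n2 (-3881, -3160) (by decide +kernel)
           (CovZ.leaf K3_ok TO_l1509 _)
           (CovZ.leaf K3_ok TO_l1510 _))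
          (CovZ.leaf K3_ok TO_l1511 _)))
        (CovZ.n1 (-3884, -3158) (by decide +kernel)
         (CovZ.n2 (-3883, -3157) (by decide +kernel)
          (CovZ.leaf K3_ok TO_l1512 _)
          (CovZ.badM (by decide +kernel)))
         (CovZ.n1 (-3883, -3159) (by decide +kernel)
          (CovZ.badM (by decide +kernel))
          (CovZ.leaf K3_ok TO_l1513 _)))))
      (CovZ.badM (by decide +kernel)))
     (CovZ.n1 (-3884, -3164) (by decide +kernel)
      (CovZ.badM (by decide +kernel))
      (CovZ.n1 (-3884, -3160) (by decide +kernel)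
       (CovZ.n2 (-3882, -3162) (by decide +kernel)
        (CovZ.badM (by decide +kernel))
        (CovZ.n1 (-3882, -3160) (by decide +kernel)
         (CovZ.n2 (-3881, -3161) (by decide +kernel)
          (CovZ.leaf K3_ok TO_l1537 _)
          (CovZ.leaf K3_ok TO_l1538 _))
         (CovZ.badM (by decide +kernel))))
       (CovZ.badM (by decide +kernel)))))
    (CovZ.n1 (-3880, -3152) (by decide +kernel)
     (CovZ.n2 (-3876, -3156) (by decide +kernel)
      (CovZ.n2 (-3880, -3156) (by decide +kernel)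
       (CovZ.n2 (-3878, -3154) (by decide +kernel)
        (CovZ.n2 (-3878, -3156) (by decide +kernel)
         (CovZ.n2 (-3879, -3155) (by decide +kernel)
          (CovZ.leaf K3_ok TO_l1552 _)
          (CovZ.n1 (-3879, -3156) (by decide +kernel)
           (CovZ.leaf K3_ok TO_l1553 _)
           (CovZ.leaf K3_ok TO_l1554 _)))
         (CovZ.n1 (-3877, -3155) (by decide +kernel)
          (CovZ.n2 (-3877, -3156) (by decide +kernel)
           (CovZ.leaf K3_ok TO_l1555 _)
           (CovZ.leaf K3_ok TO_l1556 _))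
          (CovZ.leaf K3_ok TO_l1557 _)))
        (CovZ.n1 (-3880, -3154) (by decide +kernel)
         (CovZ.n2 (-3879, -3153) (by decide +kernel)
          (CovZ.n2 (-3879, -3154) (by decide +kernel)
           (CovZ.leaf K3_ok TO_l1558 _)
           (CovZ.leaf K3_ok TO_l1559 _))
          (CovZ.leaf K3_ok TO_l1560 _))
         (CovZ.n1 (-3879, -3155) (by decide +kernel)
          (CovZ.n2 (-3880, -3155) (by decide +kernel)
           (CovZ.leaf K3_ok TO_l1561 _)
           (CovZ.leaf K3_ok TO_l1562 _))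
          (CovZ.leaf K3_ok TO_l1563 _))))
       (CovZ.n1 (-3878, -3158) (by decide +kernel)
        (CovZ.n2 (-3880, -3158) (by decide +kernel)
         (CovZ.n2 (-3879, -3157) (by decide +kernel)
          (CovZ.leaf K3_ok TO_l1564 _)
          (CovZ.leaf K3_ok TO_l1565 _))
         (CovZ.leaf K3_ok TO_l1566 _))
        (CovZ.n1 (-3878, -3156) (by decide +kernel)
         (CovZ.leaf K3_ok TO_l1567 _)
         (CovZ.n1 (-3879, -3157) (by decide +kernel)
          (CovZ.leaf K3_ok TO_l1568 _)
          (CovZ.leaf K3_ok TO_l1569 _)))))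
      (CovZ.n1 (-3876, -3152) (by decide +kernel)
       (CovZ.n2 (-3874, -3154) (by decide +kernel)
        (CovZ.n2 (-3876, -3154) (by decide +kernel)
         (CovZ.n2 (-3875, -3153) (by decide +kernel)
          (CovZ.n2 (-3875, -3154) (by decide +kernel)
           (CovZ.leaf K3_ok TO_l1570 _)
           (CovZ.leaf K3_ok TO_l1571 _))
          (CovZ.leaf K3_ok TO_l1572 _))
         (CovZ.n1 (-3875, -3155) (by decide +kernel)
          (CovZ.leaf K3_ok TO_l1573 _)
          (CovZ.leaf K3_ok TO_l1574 _)))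
        (CovZ.n1 (-3874, -3152) (by decide +kernel)
         (CovZ.leaf K3_ok TO_l1575 _)
         (CovZ.n1 (-3875, -3153) (by decide +kernel)
          (CovZ.leaf K3_ok TO_l1576 _)
          (CovZ.leaf K3_ok TO_l1577 _))))
       (CovZ.n1 (-3878, -3154) (by decide +kernel)
        (CovZ.n2 (-3878, -3152) (by decide +kernel)
         (CovZ.n2 (-3877, -3153) (by decide +kernel)
          (CovZ.leaf K3_ok TO_l1578 _)
          (CovZ.leaf K3_ok TO_l1579 _))
         (CovZ.n1 (-3879, -3153) (by decide +kernel)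
          (CovZ.leaf K3_ok TO_l1580 _)
          (CovZ.n1 (-3878, -3153) (by decide +kernel)
           (CovZ.leaf K3_ok TO_l1581 _)
           (CovZ.leaf K3_ok TO_l1582 _))))
        (CovZ.n1 (-3876, -3154) (by decide +kernel)
         (CovZ.n2 (-3877, -3155) (by decide +kernel)
          (CovZ.leaf K3_ok TO_l1583 _)
          (CovZ.leaf K3_ok TO_l1584 _))
         (CovZ.leaf K3_ok TO_l1585 _)))))
     (CovZ.n1 (-3884, -3156) (by decide +kernel)
      (CovZ.n2 (-3884, -3152) (by decide +kernel)
       (CovZ.n2 (-3882, -3154) (by decide +kernel)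
        (CovZ.n2 (-3884, -3154) (by decide +kernel)
         (CovZ.n2 (-3883, -3153) (by decide +kernel)
          (CovZ.leaf K3_ok TO_l1586 _)
          (CovZ.badM (by decide +kernel)))
         (CovZ.n1 (-3883, -3155) (by decide +kernel)
          (CovZ.badM (by decide +kernel))
          (CovZ.n1 (-3883, -3154) (by decide +kernel)
           (CovZ.leaf K3_ok TO_l1587 _)
           (CovZ.badM (by decide +kernel)))))
        (CovZ.n1 (-3882, -3152) (by decide +kernel)
         (CovZ.n2 (-3881, -3153) (by decide +kernel)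
          (CovZ.n2 (-3882, -3153) (by decide +kernel)
           (CovZ.leaf K3_ok TO_l1588 _)
           (CovZ.leaf K3_ok TO_l1589 _))
          (CovZ.leaf K3_ok TO_l1590 _))
         (CovZ.n1 (-3883, -3153) (by decide +kernel)
          (CovZ.leaf K3_ok TO_l1591 _)
          (CovZ.n1 (-3882, -3153) (by decide +kernel)
           (CovZ.leaf K3_ok TO_l1592 _)
           (CovZ.leaf K3_ok TO_l1593 _)))))
       (CovZ.badM (by decide +kernel)))
      (CovZ.n1 (-3880, -3156) (by decide +kernel)
       (CovZ.n2 (-3882, -3158) (by decide +kernel)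
        (CovZ.n2 (-3882, -3156) (by decide +kernel)
         (CovZ.n2 (-3881, -3157) (by decide +kernel)
          (CovZ.n2 (-3882, -3157) (by decide +kernel)
           (CovZ.leaf K3_ok TO_l1594 _)
           (CovZ.leaf K3_ok TO_l1595 _))
          (CovZ.n1 (-3881, -3156) (by decide +kernel)
           (CovZ.leaf K3_ok TO_l1596 _)
           (CovZ.leaf K3_ok TO_l1597 _)))
         (CovZ.n1 (-3883, -3157) (by decide +kernel)
          (CovZ.leaf K3_ok TO_l1598 _)
          (CovZ.n1 (-3882, -3157) (by decide +kernel)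
           (CovZ.leaf K3_ok TO_l1599 _)
           (CovZ.leaf K3_ok TO_l1600 _))))
        (CovZ.n1 (-3880, -3158) (by decide +kernel)
         (CovZ.n2 (-3881, -3159) (by decide +kernel)
          (CovZ.leaf K3_ok TO_l1601 _)
          (CovZ.n1 (-3880, -3159) (by decide +kernel)
           (CovZ.leaf K3_ok TO_l1602 _)
           (CovZ.leaf K3_ok TO_l1603 _)))
         (CovZ.n1 (-3881, -3157) (by decide +kernel)
          (CovZ.leaf K3_ok TO_l1604 _)
          (CovZ.n1 (-3881, -3158) (by decide +kernel)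
           (CovZ.leaf K3_ok TO_l1605 _)
           (CovZ.leaf K3_ok TO_l1606 _)))))
       (CovZ.n1 (-3882, -3154) (by decide +kernel)
        (CovZ.n2 (-3880, -3154) (by decide +kernel)
         (CovZ.n2 (-3881, -3155) (by decide +kernel)
          (CovZ.leaf K3_ok TO_l1607 _)
          (CovZ.leaf K3_ok TO_l1608 _))
         (CovZ.n1 (-3881, -3153) (by decide +kernel)
          (CovZ.n2 (-3880, -3153) (by decide +kernel)
           (CovZ.leaf K3_ok TO_l1609 _)
           (CovZ.leaf K3_ok TO_l1610 _))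
          (CovZ.n1 (-3881, -3154) (by decide +kernel)
           (CovZ.leaf K3_ok TO_l1611 _)
           (CovZ.leaf K3_ok TO_l1612 _))))
        (CovZ.n1 (-3882, -3156) (by decide +kernel)
         (CovZ.n2 (-3883, -3155) (by decide +kernel)
          (CovZ.leaf K3_ok TO_l1613 _)
          (CovZ.n1 (-3883, -3156) (by decide +kernel)
           (CovZ.badM (by decide +kernel))
           (CovZ.leaf K3_ok TO_l1614 _)))
         (CovZ.n1 (-3881, -3155) (by decide +kernel)
          (CovZ.n2 (-3881, -3156) (by decide +kernel)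
           (CovZ.leaf K3_ok TO_l1615 _)
           (CovZ.leaf K3_ok TO_l1616 _))
          (CovZ.leaf K3_ok TO_l1617 _)))))))))

theorem TO_s3_4 : SqZ TO_M TO_L [0, 7, 4, 3] (-3920) (-3232) 16 3 4 :=
  SqZ.mk (a := (-3872)) (b := (-3856)) (c := (-3168)) (d := (-3152)) (by norm_num) (by norm_num) (by norm_num) (by norm_num)
    (CovZ.topM TO_LL 11 (by decide +kernel) (CovZ.n2 (-3864, -3160) (by decide +kernel)
    (CovZ.n2 (-3856, -3160) (by decide +kernel)
     (CovZ.n2 (-3860, -3164) (by decide +kernel)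
      (CovZ.n2 (-3860, -3160) (by decide +kernel)
       (CovZ.n2 (-3858, -3162) (by decide +kernel)
        (CovZ.n2 (-3860, -3162) (by decide +kernel)
         (CovZ.leaf K3_ok TO_l2131 _)
         (CovZ.leaf K3_ok TO_l2132 _))
        (CovZ.n1 (-3858, -3160) (by decide +kernel)
         (CovZ.leaf K3_ok TO_l2133 _)
         (CovZ.leaf K3_ok TO_l2134 _)))
       (CovZ.n1 (-3862, -3162) (by decide +kernel)
        (CovZ.n2 (-3862, -3160) (by decide +kernel)
         (CovZ.leaf K3_ok TO_l2135 _)
         (CovZ.leaf K3_ok TO_l2136 _))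
        (CovZ.n1 (-3860, -3162) (by decide +kernel)
         (CovZ.leaf K3_ok TO_l2137 _)
         (CovZ.leaf K3_ok TO_l2138 _))))
      (CovZ.n1 (-3856, -3164) (by decide +kernel)
       (CovZ.n2 (-3858, -3166) (by decide +kernel)
        (CovZ.n2 (-3858, -3164) (by decide +kernel)
         (CovZ.leaf K3_ok TO_l2139 _)
         (CovZ.leaf K3_ok TO_l2140 _))
        (CovZ.n1 (-3856, -3166) (by decide +kernel)
         (CovZ.leaf K3_ok TO_l2141 _)
         (CovZ.leaf K3_ok TO_l2142 _)))
       (CovZ.n1 (-3858, -3162) (by decide +kernel)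
        (CovZ.n2 (-3856, -3162) (by decide +kernel)
         (CovZ.leaf K3_ok TO_l2143 _)
         (CovZ.leaf K3_ok TO_l2144 _))
        (CovZ.n1 (-3858, -3164) (by decide +kernel)
         (CovZ.n2 (-3859, -3163) (by decide +kernel)
          (CovZ.leaf K3_ok TO_l2145 _)
          (CovZ.leaf K3_ok TO_l2146 _))
         (CovZ.leaf K3_ok TO_l2147 _)))))
     (CovZ.n1 (-3860, -3156) (by decide +kernel)
      (CovZ.n2 (-3856, -3156) (by decide +kernel)
       (CovZ.n2 (-3858, -3158) (by decide +kernel)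
        (CovZ.n2 (-3858, -3156) (by decide +kernel)
         (CovZ.leaf K3_ok TO_l2148 _)
         (CovZ.leaf K3_ok TO_l2149 _))
        (CovZ.n1 (-3856, -3158) (by decide +kernel)
         (CovZ.leaf K3_ok TO_l2150 _)
         (CovZ.leaf K3_ok TO_l2151 _)))
       (CovZ.n1 (-3858, -3154) (by decide +kernel)
        (CovZ.n2 (-3856, -3154) (by decide +kernel)
         (CovZ.leaf K3_ok TO_l2152 _)
         (CovZ.leaf K3_ok TO_l2153 _))
        (CovZ.n1 (-3858, -3156) (by decide +kernel)
         (CovZ.leaf K3_ok TO_l2154 _)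
         (CovZ.leaf K3_ok TO_l2155 _))))
      (CovZ.n1 (-3860, -3160) (by decide +kernel)
       (CovZ.n2 (-3862, -3158) (by decide +kernel)
        (CovZ.n2 (-3860, -3158) (by decide +kernel)
         (CovZ.leaf K3_ok TO_l2156 _)
         (CovZ.leaf K3_ok TO_l2157 _))
        (CovZ.n1 (-3862, -3160) (by decide +kernel)
         (CovZ.leaf K3_ok TO_l2158 _)
         (CovZ.leaf K3_ok TO_l2159 _)))
       (CovZ.n1 (-3858, -3158) (by decide +kernel)
        (CovZ.n2 (-3858, -3160) (by decide +kernel)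
         (CovZ.leaf K3_ok TO_l2160 _)
         (CovZ.leaf K3_ok TO_l2161 _))
        (CovZ.n1 (-3860, -3158) (by decide +kernel)
         (CovZ.leaf K3_ok TO_l2162 _)
         (CovZ.leaf K3_ok TO_l2163 _))))))
    (CovZ.n1 (-3864, -3168) (by decide +kernel)
     (CovZ.n2 (-3868, -3164) (by decide +kernel)
      (CovZ.n2 (-3864, -3164) (by decide +kernel)
       (CovZ.n2 (-3866, -3166) (by decide +kernel)
        (CovZ.n2 (-3866, -3164) (by decide +kernel)
         (CovZ.leaf K3_ok TO_l2164 _)
         (CovZ.leaf K3_ok TO_l2165 _))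
        (CovZ.n1 (-3864, -3166) (by decide +kernel)
         (CovZ.leaf K3_ok TO_l2166 _)
         (CovZ.leaf K3_ok TO_l2167 _)))
       (CovZ.n1 (-3866, -3162) (by decide +kernel)
        (CovZ.n2 (-3864, -3162) (by decide +kernel)
         (CovZ.leaf K3_ok TO_l2168 _)
         (CovZ.leaf K3_ok TO_l2169 _))
        (CovZ.n1 (-3866, -3164) (by decide +kernel)
         (CovZ.leaf K3_ok TO_l2170 _)
         (CovZ.n1 (-3865, -3163) (by decide +kernel)
          (CovZ.leaf K3_ok TO_l2171 _)
          (CovZ.leaf K3_ok TO_l2172 _)))))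
      (CovZ.n1 (-3868, -3168) (by decide +kernel)
       (CovZ.n2 (-3870, -3166) (by decide +kernel)
        (CovZ.n2 (-3868, -3166) (by decide +kernel)
         (CovZ.leaf K3_ok TO_l2173 _)
         (CovZ.leaf K3_ok TO_l2174 _))
        (CovZ.n1 (-3870, -3168) (by decide +kernel)
         (CovZ.n2 (-3871, -3167) (by decide +kernel)
          (CovZ.leaf K3_ok TO_l2175 _)
          (CovZ.leaf K3_ok TO_l2176 _))
         (CovZ.n1 (-3869, -3167) (by decide +kernel)
          (CovZ.leaf K3_ok TO_l2177 _)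
          (CovZ.leaf K3_ok TO_l2178 _))))
       (CovZ.n1 (-3866, -3166) (by decide +kernel)
        (CovZ.n2 (-3866, -3168) (by decide +kernel)
         (CovZ.leaf K3_ok TO_l2179 _)
         (CovZ.n1 (-3865, -3167) (by decide +kernel)
          (CovZ.leaf K3_ok TO_l2180 _)
          (CovZ.leaf K3_ok TO_l2181 _)))
        (CovZ.n1 (-3868, -3166) (by decide +kernel)
         (CovZ.n2 (-3867, -3165) (by decide +kernel)
          (CovZ.leaf K3_ok TO_l2182 _)
          (CovZ.leaf K3_ok TO_l2183 _))
         (CovZ.leaf K3_ok TO_l2184 _)))))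
     (CovZ.n1 (-3860, -3164) (by decide +kernel)
      (CovZ.n2 (-3860, -3168) (by decide +kernel)
       (CovZ.n2 (-3862, -3166) (by decide +kernel)
        (CovZ.n2 (-3860, -3166) (by decide +kernel)
         (CovZ.leaf K3_ok TO_l2185 _)
         (CovZ.leaf K3_ok TO_l2186 _))
        (CovZ.n1 (-3862, -3168) (by decide +kernel)
         (CovZ.leaf K3_ok TO_l2187 _)
         (CovZ.leaf K3_ok TO_l2188 _)))
       (CovZ.n1 (-3858, -3166) (by decide +kernel)
        (CovZ.n2 (-3858, -3168) (by decide +kernel)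
         (CovZ.leaf K3_ok TO_l2189 _)
         (CovZ.leaf K3_ok TO_l2190 _))
        (CovZ.n1 (-3860, -3166) (by decide +kernel)
         (CovZ.leaf K3_ok TO_l2191 _)
         (CovZ.leaf K3_ok TO_l2192 _))))
      (CovZ.n1 (-3864, -3164) (by decide +kernel)
       (CovZ.n2 (-3862, -3162) (by decide +kernel)
        (CovZ.n2 (-3862, -3164) (by decide +kernel)
         (CovZ.leaf K3_ok TO_l2193 _)
         (CovZ.n1 (-3861, -3163) (by decide +kernel)
          (CovZ.leaf K3_ok TO_l2194 _)
          (CovZ.leaf K3_ok TO_l2195 _)))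
        (CovZ.n1 (-3864, -3162) (by decide +kernel)
         (CovZ.leaf K3_ok TO_l2196 _)
         (CovZ.leaf K3_ok TO_l2197 _)))
       (CovZ.n1 (-3862, -3166) (by decide +kernel)
        (CovZ.n2 (-3864, -3166) (by decide +kernel)
         (CovZ.leaf K3_ok TO_l2198 _)
         (CovZ.leaf K3_ok TO_l2199 _))
        (CovZ.n1 (-3862, -3164) (by decide +kernel)
         (CovZ.leaf K3_ok TO_l2200 _)
         (CovZ.leaf K3_ok TO_l2201 _))))))))
    (CovZ.topM TO_LL 11 (by decide +kernel) (CovZ.n0 (-3864, -3160) (by decide +kernel)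
    (CovZ.n2 (-3872, -3160) (by decide +kernel)
     (CovZ.n2 (-3868, -3156) (by decide +kernel)
      (CovZ.n2 (-3868, -3160) (by decide +kernel)
       (CovZ.n2 (-3870, -3158) (by decide +kernel)
        (CovZ.n2 (-3868, -3158) (by decide +kernel)
         (CovZ.leaf K3_ok TO_l2202 _)
         (CovZ.n1 (-3869, -3157) (by decide +kernel)
          (CovZ.leaf K3_ok TO_l2203 _)
          (CovZ.leaf K3_ok TO_l2204 _)))
        (CovZ.n1 (-3870, -3160) (by decide +kernel)
         (CovZ.n2 (-3871, -3159) (by decide +kernel)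
          (CovZ.n2 (-3870, -3159) (by decide +kernel)
           (CovZ.leaf K3_ok TO_l2205 _)
           (CovZ.leaf K3_ok TO_l2206 _))
          (CovZ.leaf K3_ok TO_l2207 _))
         (CovZ.n1 (-3869, -3159) (by decide +kernel)
          (CovZ.leaf K3_ok TO_l2208 _)
          (CovZ.leaf K3_ok TO_l2209 _))))
       (CovZ.n1 (-3866, -3158) (by decide +kernel)
        (CovZ.n2 (-3866, -3160) (by decide +kernel)
         (CovZ.leaf K3_ok TO_l2210 _)
         (CovZ.leaf K3_ok TO_l2211 _))
        (CovZ.n1 (-3868, -3158) (by decide +kernel)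
         (CovZ.n2 (-3867, -3157) (by decide +kernel)
          (CovZ.leaf K3_ok TO_l2212 _)
          (CovZ.leaf K3_ok TO_l2213 _))
         (CovZ.leaf K3_ok TO_l2214 _))))
      (CovZ.n1 (-3872, -3156) (by decide +kernel)
       (CovZ.n2 (-3870, -3154) (by decide +kernel)
        (CovZ.n2 (-3870, -3156) (by decide +kernel)
         (CovZ.n2 (-3871, -3155) (by decide +kernel)
          (CovZ.leaf K3_ok TO_l2215 _)
          (CovZ.leaf K3_ok TO_l2216 _))
         (CovZ.n1 (-3869, -3155) (by decide +kernel)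
          (CovZ.leaf K3_ok TO_l2217 _)
          (CovZ.leaf K3_ok TO_l2218 _)))
        (CovZ.n1 (-3872, -3154) (by decide +kernel)
         (CovZ.n2 (-3871, -3153) (by decide +kernel)
          (CovZ.leaf K3_ok TO_l2219 _)
          (CovZ.leaf K3_ok TO_l2220 _))
         (CovZ.n1 (-3871, -3155) (by decide +kernel)
          (CovZ.leaf K3_ok TO_l2221 _)
          (CovZ.leaf K3_ok TO_l2222 _))))
       (CovZ.n1 (-3870, -3158) (by decide +kernel)
        (CovZ.n2 (-3872, -3158) (by decide +kernel)
         (CovZ.leaf K3_ok TO_l2223 _)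
         (CovZ.n1 (-3871, -3159) (by decide +kernel)
          (CovZ.leaf K3_ok TO_l2224 _)
          (CovZ.leaf K3_ok TO_l2225 _)))
        (CovZ.n1 (-3870, -3156) (by decide +kernel)
         (CovZ.leaf K3_ok TO_l2226 _)
         (CovZ.n1 (-3871, -3157) (by decide +kernel)
          (CovZ.leaf K3_ok TO_l2227 _)
          (CovZ.leaf K3_ok TO_l2228 _))))))
     (CovZ.n1 (-3868, -3164) (by decide +kernel)
      (CovZ.n2 (-3872, -3164) (by decide +kernel)
       (CovZ.n2 (-3870, -3162) (by decide +kernel)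
        (CovZ.n2 (-3870, -3164) (by decide +kernel)
         (CovZ.leaf K3_ok TO_l2229 _)
         (CovZ.n1 (-3869, -3163) (by decide +kernel)
          (CovZ.leaf K3_ok TO_l2230 _)
          (CovZ.leaf K3_ok TO_l2231 _)))
        (CovZ.n1 (-3872, -3162) (by decide +kernel)
         (CovZ.n2 (-3871, -3161) (by decide +kernel)
          (CovZ.leaf K3_ok TO_l2232 _)
          (CovZ.leaf K3_ok TO_l2233 _))
         (CovZ.n1 (-3871, -3163) (by decide +kernel)
          (CovZ.leaf K3_ok TO_l2234 _)
          (CovZ.leaf K3_ok TO_l2235 _))))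
       (CovZ.n1 (-3870, -3166) (by decide +kernel)
        (CovZ.n2 (-3872, -3166) (by decide +kernel)
         (CovZ.n2 (-3871, -3165) (by decide +kernel)
          (CovZ.leaf K3_ok TO_l2236 _)
          (CovZ.leaf K3_ok TO_l2237 _))
         (CovZ.leaf K3_ok TO_l2238 _))
        (CovZ.n1 (-3870, -3164) (by decide +kernel)
         (CovZ.leaf K3_ok TO_l2239 _)
         (CovZ.leaf K3_ok TO_l2240 _))))
      (CovZ.n1 (-3868, -3160) (by decide +kernel)
       (CovZ.n2 (-3866, -3162) (by decide +kernel)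
        (CovZ.n2 (-3868, -3162) (by decide +kernel)
         (CovZ.leaf K3_ok TO_l2241 _)
         (CovZ.leaf K3_ok TO_l2242 _))
        (CovZ.n1 (-3866, -3160) (by decide +kernel)
         (CovZ.leaf K3_ok TO_l2243 _)
         (CovZ.leaf K3_ok TO_l2244 _)))
       (CovZ.n1 (-3870, -3162) (by decide +kernel)
        (CovZ.n2 (-3870, -3160) (by decide +kernel)
         (CovZ.leaf K3_ok TO_l2245 _)
         (CovZ.n1 (-3871, -3161) (by decide +kernel)
          (CovZ.leaf K3_ok TO_l2246 _)
          (CovZ.leaf K3_ok TO_l2247 _)))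
        (CovZ.n1 (-3868, -3162) (by decide +kernel)
         (CovZ.leaf K3_ok TO_l2248 _)
         (CovZ.n1 (-3869, -3161) (by decide +kernel)
          (CovZ.leaf K3_ok TO_l2249 _)
          (CovZ.leaf K3_ok TO_l2250 _)))))))
    (CovZ.n1 (-3864, -3152) (by decide +kernel)
     (CovZ.n2 (-3860, -3156) (by decide +kernel)
      (CovZ.n2 (-3864, -3156) (by decide +kernel)
       (CovZ.n2 (-3862, -3154) (by decide +kernel)
        (CovZ.n2 (-3862, -3156) (by decide +kernel)
         (CovZ.leaf K3_ok TO_l2251 _)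
         (CovZ.leaf K3_ok TO_l2252 _))
        (CovZ.n1 (-3864, -3154) (by decide +kernel)
         (CovZ.leaf K3_ok TO_l2253 _)
         (CovZ.leaf K3_ok TO_l2254 _)))
       (CovZ.n1 (-3862, -3158) (by decide +kernel)
        (CovZ.n2 (-3864, -3158) (by decide +kernel)
         (CovZ.n2 (-3863, -3157) (by decide +kernel)
          (CovZ.leaf K3_ok TO_l2255 _)
          (CovZ.leaf K3_ok TO_l2256 _))
         (CovZ.leaf K3_ok TO_l2257 _))
        (CovZ.n1 (-3862, -3156) (by decide +kernel)
         (CovZ.leaf K3_ok TO_l2258 _)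
         (CovZ.leaf K3_ok TO_l2259 _))))
      (CovZ.n1 (-3860, -3152) (by decide +kernel)
       (CovZ.n2 (-3858, -3154) (by decide +kernel)
        (CovZ.n2 (-3860, -3154) (by decide +kernel)
         (CovZ.leaf K3_ok TO_l2260 _)
         (CovZ.leaf K3_ok TO_l2261 _))
        (CovZ.n1 (-3858, -3152) (by decide +kernel)
         (CovZ.leaf K3_ok TO_l2262 _)
         (CovZ.leaf K3_ok TO_l2263 _)))
       (CovZ.n1 (-3862, -3154) (by decide +kernel)
        (CovZ.n2 (-3862, -3152) (by decide +kernel)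
         (CovZ.n2 (-3861, -3153) (by decide +kernel)
          (CovZ.leaf K3_ok TO_l2264 _)
          (CovZ.leaf K3_ok TO_l2265 _))
         (CovZ.leaf K3_ok TO_l2266 _))
        (CovZ.n1 (-3860, -3154) (by decide +kernel)
         (CovZ.leaf K3_ok TO_l2267 _)
         (CovZ.leaf K3_ok TO_l2268 _)))))
     (CovZ.n1 (-3868, -3156) (by decide +kernel)
      (CovZ.n2 (-3868, -3152) (by decide +kernel)
       (CovZ.n2 (-3866, -3154) (by decide +kernel)
        (CovZ.n2 (-3868, -3154) (by decide +kernel)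
         (CovZ.n2 (-3867, -3153) (by decide +kernel)
          (CovZ.leaf K3_ok TO_l2269 _)
          (CovZ.leaf K3_ok TO_l2270 _))
         (CovZ.leaf K3_ok TO_l2271 _))
        (CovZ.n1 (-3866, -3152) (by decide +kernel)
         (CovZ.leaf K3_ok TO_l2272 _)
         (CovZ.leaf K3_ok TO_l2273 _)))
       (CovZ.n1 (-3870, -3154) (by decide +kernel)
        (CovZ.n2 (-3870, -3152) (by decide +kernel)
         (CovZ.leaf K3_ok TO_l2274 _)
         (CovZ.leaf K3_ok TO_l2275 _))
        (CovZ.n1 (-3868, -3154) (by decide +kernel)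
         (CovZ.leaf K3_ok TO_l2276 _)
         (CovZ.leaf K3_ok TO_l2277 _))))
      (CovZ.n1 (-3864, -3156) (by decide +kernel)
       (CovZ.n2 (-3866, -3158) (by decide +kernel)
        (CovZ.n2 (-3866, -3156) (by decide +kernel)
         (CovZ.leaf K3_ok TO_l2278 _)
         (CovZ.n1 (-3867, -3157) (by decide +kernel)
          (CovZ.leaf K3_ok TO_l2279 _)
          (CovZ.leaf K3_ok TO_l2280 _)))
        (CovZ.n1 (-3864, -3158) (by decide +kernel)
         (CovZ.n2 (-3865, -3159) (by decide +kernel)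
          (CovZ.leaf K3_ok TO_l2281 _)
          (CovZ.leaf K3_ok TO_l2282 _))
         (CovZ.leaf K3_ok TO_l2283 _)))
       (CovZ.n1 (-3866, -3154) (by decide +kernel)
        (CovZ.n2 (-3864, -3154) (by decide +kernel)
         (CovZ.n2 (-3865, -3155) (by decide +kernel)
          (CovZ.leaf K3_ok TO_l2284 _)
          (CovZ.leaf K3_ok TO_l2285 _))
         (CovZ.leaf K3_ok TO_l2286 _))
        (CovZ.n1 (-3866, -3156) (by decide +kernel)
         (CovZ.leaf K3_ok TO_l2287 _)
         (CovZ.n1 (-3865, -3155) (by decide +kernel)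
          (CovZ.leaf K3_ok TO_l2288 _)
          (CovZ.leaf K3_ok TO_l2289 _)))))))))

theorem TO_s4_4 : SqZ TO_M TO_L [0, 7, 4, 3] (-3920) (-3232) 16 4 4 :=
  SqZ.mk (a := (-3856)) (b := (-3840)) (c := (-3168)) (d := (-3152)) (by norm_num) (by norm_num) (by norm_num) (by norm_num)
    (CovZ.topM TO_LL 11 (by decide +kernel) (CovZ.n2 (-3848, -3160) (by decide +kernel)
    (CovZ.n2 (-3840, -3160) (by decide +kernel)
     (CovZ.n2 (-3844, -3164) (by decide +kernel)
      (CovZ.n2 (-3844, -3160) (by decide +kernel)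
       (CovZ.n2 (-3842, -3162) (by decide +kernel)
        (CovZ.n2 (-3844, -3162) (by decide +kernel)
         (CovZ.leaf K3_ok TO_l2687 _)
         (CovZ.leaf K3_ok TO_l2688 _))
        (CovZ.leaf K3_ok TO_l2689 _))
       (CovZ.n1 (-3846, -3162) (by decide +kernel)
        (CovZ.leaf K3_ok TO_l2690 _)
        (CovZ.n1 (-3844, -3162) (by decide +kernel)
         (CovZ.leaf K3_ok TO_l2691 _)
         (CovZ.leaf K3_ok TO_l2692 _))))
      (CovZ.n1 (-3840, -3164) (by decide +kernel)
       (CovZ.n2 (-3842, -3166) (by decide +kernel)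
        (CovZ.leaf K3_ok TO_l2693 _)
        (CovZ.leaf K3_ok TO_l2694 _))
       (CovZ.n1 (-3842, -3162) (by decide +kernel)
        (CovZ.leaf K3_ok TO_l2695 _)
        (CovZ.n1 (-3842, -3164) (by decide +kernel)
         (CovZ.leaf K3_ok TO_l2696 _)
         (CovZ.leaf K3_ok TO_l2697 _)))))
     (CovZ.n1 (-3844, -3156) (by decide +kernel)
      (CovZ.n2 (-3840, -3156) (by decide +kernel)
       (CovZ.n2 (-3842, -3158) (by decide +kernel)
        (CovZ.leaf K3_ok TO_l2698 _)
        (CovZ.n1 (-3840, -3158) (by decide +kernel)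
         (CovZ.leaf K3_ok TO_l2699 _)
         (CovZ.leaf K3_ok TO_l2700 _)))
       (CovZ.n1 (-3842, -3154) (by decide +kernel)
        (CovZ.n2 (-3840, -3154) (by decide +kernel)
         (CovZ.leaf K3_ok TO_l2701 _)
         (CovZ.leaf K3_ok TO_l2702 _))
        (CovZ.n1 (-3842, -3156) (by decide +kernel)
         (CovZ.leaf K3_ok TO_l2703 _)
         (CovZ.leaf K3_ok TO_l2704 _))))
      (CovZ.n1 (-3844, -3160) (by decide +kernel)
       (CovZ.n2 (-3846, -3158) (by decide +kernel)
        (CovZ.n2 (-3844, -3158) (by decide +kernel)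
         (CovZ.leaf K3_ok TO_l2705 _)
         (CovZ.leaf K3_ok TO_l2706 _))
        (CovZ.n1 (-3846, -3160) (by decide +kernel)
         (CovZ.leaf K3_ok TO_l2707 _)
         (CovZ.leaf K3_ok TO_l2708 _)))
       (CovZ.n1 (-3842, -3158) (by decide +kernel)
        (CovZ.n2 (-3842, -3160) (by decide +kernel)
         (CovZ.leaf K3_ok TO_l2709 _)
         (CovZ.leaf K3_ok TO_l2710 _))
        (CovZ.n1 (-3844, -3158) (by decide +kernel)
         (CovZ.leaf K3_ok TO_l2711 _)
         (CovZ.leaf K3_ok TO_l2712 _))))))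
    (CovZ.n1 (-3848, -3168) (by decide +kernel)
     (CovZ.n2 (-3852, -3164) (by decide +kernel)
      (CovZ.n2 (-3848, -3164) (by decide +kernel)
       (CovZ.n2 (-3850, -3166) (by decide +kernel)
        (CovZ.leaf K3_ok TO_l2713 _)
        (CovZ.n1 (-3848, -3166) (by decide +kernel)
         (CovZ.leaf K3_ok TO_l2714 _)
         (CovZ.leaf K3_ok TO_l2715 _)))
       (CovZ.n1 (-3850, -3162) (by decide +kernel)
        (CovZ.n2 (-3848, -3162) (by decide +kernel)
         (CovZ.leaf K3_ok TO_l2716 _)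
         (CovZ.leaf K3_ok TO_l2717 _))
        (CovZ.n1 (-3850, -3164) (by decide +kernel)
         (CovZ.leaf K3_ok TO_l2718 _)
         (CovZ.leaf K3_ok TO_l2719 _))))
      (CovZ.n1 (-3852, -3168) (by decide +kernel)
       (CovZ.n2 (-3854, -3166) (by decide +kernel)
        (CovZ.n2 (-3852, -3166) (by decide +kernel)
         (CovZ.leaf K3_ok TO_l2720 _)
         (CovZ.leaf K3_ok TO_l2721 _))
        (CovZ.n1 (-3854, -3168) (by decide +kernel)
         (CovZ.leaf K3_ok TO_l2722 _)
         (CovZ.leaf K3_ok TO_l2723 _)))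
       (CovZ.n1 (-3850, -3166) (by decide +kernel)
        (CovZ.n2 (-3850, -3168) (by decide +kernel)
         (CovZ.leaf K3_ok TO_l2724 _)
         (CovZ.leaf K3_ok TO_l2725 _))
        (CovZ.n1 (-3852, -3166) (by decide +kernel)
         (CovZ.leaf K3_ok TO_l2726 _)
         (CovZ.leaf K3_ok TO_l2727 _)))))
     (CovZ.n1 (-3844, -3164) (by decide +kernel)
      (CovZ.n2 (-3844, -3168) (by decide +kernel)
       (CovZ.n2 (-3846, -3166) (by decide +kernel)
        (CovZ.n2 (-3844, -3166) (by decide +kernel)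
         (CovZ.leaf K3_ok TO_l2728 _)
         (CovZ.leaf K3_ok TO_l2729 _))
        (CovZ.n1 (-3846, -3168) (by decide +kernel)
         (CovZ.leaf K3_ok TO_l2730 _)
         (CovZ.leaf K3_ok TO_l2731 _)))
       (CovZ.n1 (-3842, -3166) (by decide +kernel)
        (CovZ.leaf K3_ok TO_l2732 _)
        (CovZ.n1 (-3844, -3166) (by decide +kernel)
         (CovZ.leaf K3_ok TO_l2733 _)
         (CovZ.leaf K3_ok TO_l2734 _))))
      (CovZ.n1 (-3848, -3164) (by decide +kernel)
       (CovZ.n2 (-3846, -3162) (by decide +kernel)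
        (CovZ.n2 (-3846, -3164) (by decide +kernel)
         (CovZ.leaf K3_ok TO_l2735 _)
         (CovZ.leaf K3_ok TO_l2736 _))
        (CovZ.n1 (-3848, -3162) (by decide +kernel)
         (CovZ.leaf K3_ok TO_l2737 _)
         (CovZ.leaf K3_ok TO_l2738 _)))
       (CovZ.n1 (-3846, -3166) (by decide +kernel)
        (CovZ.n2 (-3848, -3166) (by decide +kernel)
         (CovZ.leaf K3_ok TO_l2739 _)
         (CovZ.leaf K3_ok TO_l2740 _))
        (CovZ.leaf K3_ok TO_l2741 _)))))))
    (CovZ.topM TO_LL 11 (by decide +kernel) (CovZ.n0 (-3848, -3160) (by decide +kernel)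
    (CovZ.n2 (-3856, -3160) (by decide +kernel)
     (CovZ.n2 (-3852, -3156) (by decide +kernel)
      (CovZ.n2 (-3852, -3160) (by decide +kernel)
       (CovZ.n2 (-3854, -3158) (by decide +kernel)
        (CovZ.n2 (-3852, -3158) (by decide +kernel)
         (CovZ.leaf K3_ok TO_l2742 _)
         (CovZ.leaf K3_ok TO_l2743 _))
        (CovZ.n1 (-3854, -3160) (by decide +kernel)
         (CovZ.leaf K3_ok TO_l2744 _)
         (CovZ.leaf K3_ok TO_l2745 _)))
       (CovZ.n1 (-3850, -3158) (by decide +kernel)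
        (CovZ.n2 (-3850, -3160) (by decide +kernel)
         (CovZ.leaf K3_ok TO_l2746 _)
         (CovZ.leaf K3_ok TO_l2747 _))
        (CovZ.n1 (-3852, -3158) (by decide +kernel)
         (CovZ.leaf K3_ok TO_l2748 _)
         (CovZ.leaf K3_ok TO_l2749 _))))
      (CovZ.n1 (-3856, -3156) (by decide +kernel)
       (CovZ.n2 (-3854, -3154) (by decide +kernel)
        (CovZ.n2 (-3854, -3156) (by decide +kernel)
         (CovZ.leaf K3_ok TO_l2750 _)
         (CovZ.leaf K3_ok TO_l2751 _))
        (CovZ.n1 (-3856, -3154) (by decide +kernel)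
         (CovZ.leaf K3_ok TO_l2752 _)
         (CovZ.leaf K3_ok TO_l2753 _)))
       (CovZ.n1 (-3854, -3158) (by decide +kernel)
        (CovZ.n2 (-3856, -3158) (by decide +kernel)
         (CovZ.leaf K3_ok TO_l2754 _)
         (CovZ.leaf K3_ok TO_l2755 _))
        (CovZ.n1 (-3854, -3156) (by decide +kernel)
         (CovZ.leaf K3_ok TO_l2756 _)
         (CovZ.leaf K3_ok TO_l2757 _)))))
     (CovZ.n1 (-3852, -3164) (by decide +kernel)
      (CovZ.n2 (-3856, -3164) (by decide +kernel)
       (CovZ.n2 (-3854, -3162) (by decide +kernel)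
        (CovZ.n2 (-3854, -3164) (by decide +kernel)
         (CovZ.leaf K3_ok TO_l2758 _)
         (CovZ.leaf K3_ok TO_l2759 _))
        (CovZ.n1 (-3856, -3162) (by decide +kernel)
         (CovZ.leaf K3_ok TO_l2760 _)
         (CovZ.leaf K3_ok TO_l2761 _)))
       (CovZ.n1 (-3854, -3166) (by decide +kernel)
        (CovZ.n2 (-3856, -3166) (by decide +kernel)
         (CovZ.leaf K3_ok TO_l2762 _)
         (CovZ.leaf K3_ok TO_l2763 _))
        (CovZ.n1 (-3854, -3164) (by decide +kernel)
         (CovZ.leaf K3_ok TO_l2764 _)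
         (CovZ.leaf K3_ok TO_l2765 _))))
      (CovZ.n1 (-3852, -3160) (by decide +kernel)
       (CovZ.n2 (-3850, -3162) (by decide +kernel)
        (CovZ.n2 (-3852, -3162) (by decide +kernel)
         (CovZ.leaf K3_ok TO_l2766 _)
         (CovZ.leaf K3_ok TO_l2767 _))
        (CovZ.leaf K3_ok TO_l2768 _))
       (CovZ.n1 (-3854, -3162) (by decide +kernel)
        (CovZ.leaf K3_ok TO_l2769 _)
        (CovZ.n1 (-3852, -3162) (by decide +kernel)
         (CovZ.leaf K3_ok TO_l2770 _)
         (CovZ.leaf K3_ok TO_l2771 _))))))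
    (CovZ.n1 (-3848, -3152) (by decide +kernel)
     (CovZ.n2 (-3844, -3156) (by decide +kernel)
      (CovZ.n2 (-3848, -3156) (by decide +kernel)
       (CovZ.n2 (-3846, -3154) (by decide +kernel)
        (CovZ.n2 (-3846, -3156) (by decide +kernel)
         (CovZ.leaf K3_ok TO_l2772 _)
         (CovZ.leaf K3_ok TO_l2773 _))
        (CovZ.n1 (-3848, -3154) (by decide +kernel)
         (CovZ.leaf K3_ok TO_l2774 _)
         (CovZ.leaf K3_ok TO_l2775 _)))
       (CovZ.n1 (-3846, -3158) (by decide +kernel)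
        (CovZ.n2 (-3848, -3158) (by decide +kernel)
         (CovZ.leaf K3_ok TO_l2776 _)
         (CovZ.leaf K3_ok TO_l2777 _))
        (CovZ.leaf K3_ok TO_l2778 _)))
      (CovZ.n1 (-3844, -3152) (by decide +kernel)
       (CovZ.n2 (-3842, -3154) (by decide +kernel)
        (CovZ.n2 (-3844, -3154) (by decide +kernel)
         (CovZ.leaf K3_ok TO_l2779 _)
         (CovZ.leaf K3_ok TO_l2780 _))
        (CovZ.leaf K3_ok TO_l2781 _))
       (CovZ.n1 (-3846, -3154) (by decide +kernel)
        (CovZ.leaf K3_ok TO_l2782 _)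
        (CovZ.n1 (-3844, -3154) (by decide +kernel)
         (CovZ.leaf K3_ok TO_l2783 _)
         (CovZ.leaf K3_ok TO_l2784 _)))))
     (CovZ.n1 (-3852, -3156) (by decide +kernel)
      (CovZ.n2 (-3852, -3152) (by decide +kernel)
       (CovZ.n2 (-3850, -3154) (by decide +kernel)
        (CovZ.n2 (-3852, -3154) (by decide +kernel)
         (CovZ.leaf K3_ok TO_l2785 _)
         (CovZ.leaf K3_ok TO_l2786 _))
        (CovZ.leaf K3_ok TO_l2787 _))
       (CovZ.n1 (-3854, -3154) (by decide +kernel)
        (CovZ.n2 (-3854, -3152) (by decide +kernel)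
         (CovZ.leaf K3_ok TO_l2788 _)
         (CovZ.leaf K3_ok TO_l2789 _))
        (CovZ.n1 (-3852, -3154) (by decide +kernel)
         (CovZ.leaf K3_ok TO_l2790 _)
         (CovZ.leaf K3_ok TO_l2791 _))))
      (CovZ.n1 (-3848, -3156) (by decide +kernel)
       (CovZ.n2 (-3850, -3158) (by decide +kernel)
        (CovZ.n2 (-3850, -3156) (by decide +kernel)
         (CovZ.leaf K3_ok TO_l2792 _)
         (CovZ.leaf K3_ok TO_l2793 _))
        (CovZ.n1 (-3848, -3158) (by decide +kernel)
         (CovZ.leaf K3_ok TO_l2794 _)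
         (CovZ.leaf K3_ok TO_l2795 _)))
       (CovZ.n1 (-3850, -3154) (by decide +kernel)
        (CovZ.n2 (-3848, -3154) (by decide +kernel)
         (CovZ.leaf K3_ok TO_l2796 _)
         (CovZ.leaf K3_ok TO_l2797 _))
        (CovZ.n1 (-3850, -3156) (by decide +kernel)
         (CovZ.leaf K3_ok TO_l2798 _)
         (CovZ.leaf K3_ok TO_l2799 _))))))))

theorem TO_s5_4 : SqZ TO_M TO_L [0, 7, 4, 3] (-3920) (-3232) 16 5 4 :=
  SqZ.mk (a := (-3840)) (b := (-3824)) (c := (-3168)) (d := (-3152)) (by norm_num) (by norm_num) (by norm_num) (by norm_num)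
    (CovZ.topM TO_LL 11 (by decide +kernel) (CovZ.n2 (-3832, -3160) (by decide +kernel)
    (CovZ.n2 (-3824, -3160) (by decide +kernel)
     (CovZ.n2 (-3828, -3164) (by decide +kernel)
      (CovZ.n2 (-3828, -3160) (by decide +kernel)
       (CovZ.n2 (-3826, -3162) (by decide +kernel)
        (CovZ.n2 (-3828, -3162) (by decide +kernel)
         (CovZ.n2 (-3827, -3161) (by decide +kernel)
          (CovZ.n2 (-3827, -3162) (by decide +kernel)
           (CovZ.leaf K3_ok TO_l3335 _)
           (CovZ.leaf K3_ok TO_l3336 _))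
          (CovZ.leaf K3_ok TO_l3337 _))
         (CovZ.n1 (-3827, -3163) (by decide +kernel)
          (CovZ.leaf K3_ok TO_l3338 _)
          (CovZ.leaf K3_ok TO_l3339 _)))
        (CovZ.n1 (-3826, -3160) (by decide +kernel)
         (CovZ.n2 (-3825, -3161) (by decide +kernel)
          (CovZ.leaf K3_ok TO_l3340 _)
          (CovZ.n1 (-3825, -3160) (by decide +kernel)
           (CovZ.badM (by decide +kernel))
           (CovZ.leaf K3_ok TO_l3342 _)))
         (CovZ.n1 (-3827, -3161) (by decide +kernel)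
          (CovZ.leaf K3_ok TO_l3343 _)
          (CovZ.leaf K3_ok TO_l3344 _))))
       (CovZ.n1 (-3830, -3162) (by decide +kernel)
        (CovZ.n2 (-3830, -3160) (by decide +kernel)
         (CovZ.n2 (-3829, -3161) (by decide +kernel)
          (CovZ.leaf K3_ok TO_l3345 _)
          (CovZ.leaf K3_ok TO_l3346 _))
         (CovZ.leaf K3_ok TO_l3347 _))
        (CovZ.n1 (-3828, -3162) (by decide +kernel)
         (CovZ.n2 (-3829, -3163) (by decide +kernel)
          (CovZ.leaf K3_ok TO_l3348 _)
          (CovZ.leaf K3_ok TO_l3349 _))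
         (CovZ.leaf K3_ok TO_l3350 _))))
      (CovZ.n1 (-3824, -3164) (by decide +kernel)
       (CovZ.n2 (-3826, -3166) (by decide +kernel)
        (CovZ.n2 (-3826, -3164) (by decide +kernel)
         (CovZ.n2 (-3825, -3165) (by decide +kernel)
          (CovZ.leaf K3_ok TO_l3351 _)
          (CovZ.leaf K3_ok TO_l3352 _))
         (CovZ.leaf K3_ok TO_l3353 _))
        (CovZ.n1 (-3824, -3166) (by decide +kernel)
         (CovZ.n2 (-3825, -3167) (by decide +kernel)
          (CovZ.leaf K3_ok TO_l3354 _)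
          (CovZ.badM (by decide +kernel)))
         (CovZ.n1 (-3825, -3165) (by decide +kernel)
          (CovZ.badM (by decide +kernel))
          (CovZ.leaf K3_ok TO_l3359 _))))
       (CovZ.n1 (-3826, -3162) (by decide +kernel)
        (CovZ.n2 (-3824, -3162) (by decide +kernel)
         (CovZ.n2 (-3825, -3163) (by decide +kernel)
          (CovZ.leaf K3_ok TO_l3360 _)
          (CovZ.badM (by decide +kernel)))
         (CovZ.n1 (-3825, -3161) (by decide +kernel)
          (CovZ.badM (by decide +kernel))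
          (CovZ.n1 (-3825, -3162) (by decide +kernel)
           (CovZ.leaf K3_ok TO_l3364 _)
           (CovZ.badM (by decide +kernel)))))
        (CovZ.n1 (-3826, -3164) (by decide +kernel)
         (CovZ.n2 (-3827, -3163) (by decide +kernel)
          (CovZ.leaf K3_ok TO_l3366 _)
          (CovZ.leaf K3_ok TO_l3367 _))
         (CovZ.n1 (-3825, -3163) (by decide +kernel)
          (CovZ.n2 (-3825, -3164) (by decide +kernel)
           (CovZ.leaf K3_ok TO_l3368 _)
           (CovZ.badM (by decide +kernel)))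
          (CovZ.leaf K3_ok TO_l3370 _))))))
     (CovZ.n1 (-3828, -3156) (by decide +kernel)
      (CovZ.n2 (-3824, -3156) (by decide +kernel)
       (CovZ.n2 (-3826, -3158) (by decide +kernel)
        (CovZ.n2 (-3826, -3156) (by decide +kernel)
         (CovZ.badM (by decide +kernel))
         (CovZ.n1 (-3827, -3157) (by decide +kernel)
          (CovZ.leaf K3_ok TO_l3372 _)
          (CovZ.n1 (-3826, -3157) (by decide +kernel)
           (CovZ.leaf K3_ok TO_l3373 _)
           (CovZ.leaf K3_ok TO_l3374 _))))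
        (CovZ.badM (by decide +kernel)))
       (CovZ.n1 (-3826, -3154) (by decide +kernel)
        (CovZ.badM (by decide +kernel))
        (CovZ.n1 (-3826, -3156) (by decide +kernel)
         (CovZ.n2 (-3827, -3155) (by decide +kernel)
          (CovZ.n2 (-3826, -3155) (by decide +kernel)
           (CovZ.leaf K3_ok TO_l3381 _)
           (CovZ.leaf K3_ok TO_l3382 _))
          (CovZ.n1 (-3827, -3156) (by decide +kernel)
           (CovZ.leaf K3_ok TO_l3383 _)
           (CovZ.leaf K3_ok TO_l3384 _)))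
         (CovZ.badM (by decide +kernel)))))
      (CovZ.n1 (-3828, -3160) (by decide +kernel)
       (CovZ.n2 (-3830, -3158) (by decide +kernel)
        (CovZ.n2 (-3828, -3158) (by decide +kernel)
         (CovZ.n2 (-3829, -3159) (by decide +kernel)
          (CovZ.leaf K3_ok TO_l3385 _)
          (CovZ.leaf K3_ok TO_l3386 _))
         (CovZ.leaf K3_ok TO_l3387 _))
        (CovZ.n1 (-3830, -3160) (by decide +kernel)
         (CovZ.n2 (-3831, -3159) (by decide +kernel)
          (CovZ.leaf K3_ok TO_l3388 _)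
          (CovZ.leaf K3_ok TO_l3389 _))
         (CovZ.n1 (-3829, -3159) (by decide +kernel)
          (CovZ.leaf K3_ok TO_l3390 _)
          (CovZ.leaf K3_ok TO_l3391 _))))
       (CovZ.n1 (-3826, -3158) (by decide +kernel)
        (CovZ.n2 (-3826, -3160) (by decide +kernel)
         (CovZ.n2 (-3827, -3159) (by decide +kernel)
          (CovZ.n2 (-3826, -3159) (by decide +kernel)
           (CovZ.leaf K3_ok TO_l3392 _)
           (CovZ.leaf K3_ok TO_l3393 _))
          (CovZ.n1 (-3827, -3160) (by decide +kernel)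
           (CovZ.leaf K3_ok TO_l3394 _)
           (CovZ.leaf K3_ok TO_l3395 _)))
         (CovZ.n1 (-3825, -3159) (by decide +kernel)
          (CovZ.leaf K3_ok TO_l3396 _)
          (CovZ.leaf K3_ok TO_l3397 _)))
        (CovZ.n1 (-3828, -3158) (by decide +kernel)
         (CovZ.n2 (-3827, -3157) (by decide +kernel)
          (CovZ.leaf K3_ok TO_l3398 _)
          (CovZ.leaf K3_ok TO_l3399 _))
         (CovZ.n1 (-3827, -3159) (by decide +kernel)
          (CovZ.leaf K3_ok TO_l3400 _)
          (CovZ.leaf K3_ok TO_l3401 _)))))))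
    (CovZ.n1 (-3832, -3168) (by decide +kernel)
     (CovZ.n2 (-3836, -3164) (by decide +kernel)
      (CovZ.n2 (-3832, -3164) (by decide +kernel)
       (CovZ.n2 (-3834, -3166) (by decide +kernel)
        (CovZ.leaf K3_ok TO_l3402 _)
        (CovZ.n1 (-3832, -3166) (by decide +kernel)
         (CovZ.leaf K3_ok TO_l3403 _)
         (CovZ.leaf K3_ok TO_l3404 _)))
       (CovZ.n1 (-3834, -3162) (by decide +kernel)
        (CovZ.n2 (-3832, -3162) (by decide +kernel)
         (CovZ.leaf K3_ok TO_l3405 _)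
         (CovZ.leaf K3_ok TO_l3406 _))
        (CovZ.n1 (-3834, -3164) (by decide +kernel)
         (CovZ.leaf K3_ok TO_l3407 _)
         (CovZ.leaf K3_ok TO_l3408 _))))
      (CovZ.n1 (-3836, -3168) (by decide +kernel)
       (CovZ.n2 (-3838, -3166) (by decide +kernel)
        (CovZ.n2 (-3836, -3166) (by decide +kernel)
         (CovZ.leaf K3_ok TO_l3409 _)
         (CovZ.leaf K3_ok TO_l3410 _))
        (CovZ.n1 (-3838, -3168) (by decide +kernel)
         (CovZ.leaf K3_ok TO_l3411 _)
         (CovZ.leaf K3_ok TO_l3412 _)))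
       (CovZ.n1 (-3834, -3166) (by decide +kernel)
        (CovZ.n2 (-3834, -3168) (by decide +kernel)
         (CovZ.leaf K3_ok TO_l3413 _)
         (CovZ.leaf K3_ok TO_l3414 _))
        (CovZ.n1 (-3836, -3166) (by decide +kernel)
         (CovZ.leaf K3_ok TO_l3415 _)
         (CovZ.leaf K3_ok TO_l3416 _)))))
     (CovZ.n1 (-3828, -3164) (by decide +kernel)
      (CovZ.n2 (-3828, -3168) (by decide +kernel)
       (CovZ.n2 (-3830, -3166) (by decide +kernel)
        (CovZ.n2 (-3828, -3166) (by decide +kernel)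
         (CovZ.leaf K3_ok TO_l3417 _)
         (CovZ.n1 (-3829, -3165) (by decide +kernel)
          (CovZ.leaf K3_ok TO_l3418 _)
          (CovZ.leaf K3_ok TO_l3419 _)))
        (CovZ.n1 (-3830, -3168) (by decide +kernel)
         (CovZ.leaf K3_ok TO_l3420 _)
         (CovZ.n1 (-3829, -3167) (by decide +kernel)
          (CovZ.leaf K3_ok TO_l3421 _)
          (CovZ.leaf K3_ok TO_l3422 _))))
       (CovZ.n1 (-3826, -3166) (by decide +kernel)
        (CovZ.n2 (-3826, -3168) (by decide +kernel)
         (CovZ.n2 (-3827, -3167) (by decide +kernel)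
          (CovZ.leaf K3_ok TO_l3423 _)
          (CovZ.leaf K3_ok TO_l3424 _))
         (CovZ.n1 (-3825, -3167) (by decide +kernel)
          (CovZ.n2 (-3825, -3168) (by decide +kernel)
           (CovZ.leaf K3_ok TO_l3425 _)
           (CovZ.badM (by decide +kernel)))
          (CovZ.leaf K3_ok TO_l3427 _)))
        (CovZ.n1 (-3828, -3166) (by decide +kernel)
         (CovZ.leaf K3_ok TO_l3428 _)
         (CovZ.leaf K3_ok TO_l3429 _))))
      (CovZ.n1 (-3832, -3164) (by decide +kernel)
       (CovZ.n2 (-3830, -3162) (by decide +kernel)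
        (CovZ.n2 (-3830, -3164) (by decide +kernel)
         (CovZ.leaf K3_ok TO_l3430 _)
         (CovZ.leaf K3_ok TO_l3431 _))
        (CovZ.n1 (-3832, -3162) (by decide +kernel)
         (CovZ.leaf K3_ok TO_l3432 _)
         (CovZ.leaf K3_ok TO_l3433 _)))
       (CovZ.n1 (-3830, -3166) (by decide +kernel)
        (CovZ.n2 (-3832, -3166) (by decide +kernel)
         (CovZ.leaf K3_ok TO_l3434 _)
         (CovZ.leaf K3_ok TO_l3435 _))
        (CovZ.n1 (-3830, -3164) (by decide +kernel)
         (CovZ.leaf K3_ok TO_l3436 _)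
         (CovZ.leaf K3_ok TO_l3437 _))))))))
    (CovZ.topM TO_LL 11 (by decide +kernel) (CovZ.n0 (-3832, -3160) (by decide +kernel)
    (CovZ.n2 (-3840, -3160) (by decide +kernel)
     (CovZ.n2 (-3836, -3156) (by decide +kernel)
      (CovZ.n2 (-3836, -3160) (by decide +kernel)
       (CovZ.n2 (-3838, -3158) (by decide +kernel)
        (CovZ.n2 (-3836, -3158) (by decide +kernel)
         (CovZ.leaf K3_ok TO_l3438 _)
         (CovZ.leaf K3_ok TO_l3439 _))
        (CovZ.n1 (-3838, -3160) (by decide +kernel)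
         (CovZ.leaf K3_ok TO_l3440 _)
         (CovZ.leaf K3_ok TO_l3441 _)))
       (CovZ.n1 (-3834, -3158) (by decide +kernel)
        (CovZ.n2 (-3834, -3160) (by decide +kernel)
         (CovZ.leaf K3_ok TO_l3442 _)
         (CovZ.leaf K3_ok TO_l3443 _))
        (CovZ.n1 (-3836, -3158) (by decide +kernel)
         (CovZ.leaf K3_ok TO_l3444 _)
         (CovZ.leaf K3_ok TO_l3445 _))))
      (CovZ.n1 (-3840, -3156) (by decide +kernel)
       (CovZ.n2 (-3838, -3154) (by decide +kernel)
        (CovZ.n2 (-3838, -3156) (by decide +kernel)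
         (CovZ.leaf K3_ok TO_l3446 _)
         (CovZ.leaf K3_ok TO_l3447 _))
        (CovZ.n1 (-3840, -3154) (by decide +kernel)
         (CovZ.leaf K3_ok TO_l3448 _)
         (CovZ.leaf K3_ok TO_l3449 _)))
       (CovZ.n1 (-3838, -3158) (by decide +kernel)
        (CovZ.n2 (-3840, -3158) (by decide +kernel)
         (CovZ.leaf K3_ok TO_l3450 _)
         (CovZ.leaf K3_ok TO_l3451 _))
        (CovZ.leaf K3_ok TO_l3452 _))))
     (CovZ.n1 (-3836, -3164) (by decide +kernel)
      (CovZ.n2 (-3840, -3164) (by decide +kernel)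
       (CovZ.n2 (-3838, -3162) (by decide +kernel)
        (CovZ.n2 (-3838, -3164) (by decide +kernel)
         (CovZ.leaf K3_ok TO_l3453 _)
         (CovZ.leaf K3_ok TO_l3454 _))
        (CovZ.n1 (-3840, -3162) (by decide +kernel)
         (CovZ.leaf K3_ok TO_l3455 _)
         (CovZ.leaf K3_ok TO_l3456 _)))
       (CovZ.n1 (-3838, -3166) (by decide +kernel)
        (CovZ.leaf K3_ok TO_l3457 _)
        (CovZ.leaf K3_ok TO_l3458 _)))
      (CovZ.n1 (-3836, -3160) (by decide +kernel)
       (CovZ.n2 (-3834, -3162) (by decide +kernel)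
        (CovZ.n2 (-3836, -3162) (by decide +kernel)
         (CovZ.leaf K3_ok TO_l3459 _)
         (CovZ.leaf K3_ok TO_l3460 _))
        (CovZ.leaf K3_ok TO_l3461 _))
       (CovZ.n1 (-3838, -3162) (by decide +kernel)
        (CovZ.leaf K3_ok TO_l3462 _)
        (CovZ.n1 (-3836, -3162) (by decide +kernel)
         (CovZ.leaf K3_ok TO_l3463 _)
         (CovZ.leaf K3_ok TO_l3464 _))))))
    (CovZ.n1 (-3832, -3152) (by decide +kernel)
     (CovZ.n2 (-3828, -3156) (by decide +kernel)
      (CovZ.n2 (-3832, -3156) (by decide +kernel)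
       (CovZ.n2 (-3830, -3154) (by decide +kernel)
        (CovZ.n2 (-3830, -3156) (by decide +kernel)
         (CovZ.leaf K3_ok TO_l3465 _)
         (CovZ.n1 (-3829, -3155) (by decide +kernel)
          (CovZ.leaf K3_ok TO_l3466 _)
          (CovZ.leaf K3_ok TO_l3467 _)))
        (CovZ.n1 (-3832, -3154) (by decide +kernel)
         (CovZ.leaf K3_ok TO_l3468 _)
         (CovZ.leaf K3_ok TO_l3469 _)))
       (CovZ.n1 (-3830, -3158) (by decide +kernel)
        (CovZ.n2 (-3832, -3158) (by decide +kernel)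
         (CovZ.leaf K3_ok TO_l3470 _)
         (CovZ.leaf K3_ok TO_l3471 _))
        (CovZ.n1 (-3830, -3156) (by decide +kernel)
         (CovZ.leaf K3_ok TO_l3472 _)
         (CovZ.leaf K3_ok TO_l3473 _))))
      (CovZ.n1 (-3828, -3152) (by decide +kernel)
       (CovZ.n2 (-3826, -3154) (by decide +kernel)
        (CovZ.n2 (-3828, -3154) (by decide +kernel)
         (CovZ.n2 (-3827, -3153) (by decide +kernel)
          (CovZ.leaf K3_ok TO_l3474 _)
          (CovZ.leaf K3_ok TO_l3475 _))
         (CovZ.leaf K3_ok TO_l3476 _))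
        (CovZ.n1 (-3826, -3152) (by decide +kernel)
         (CovZ.badM (by decide +kernel))
         (CovZ.n1 (-3827, -3153) (by decide +kernel)
          (CovZ.leaf K3_ok TO_l3477 _)
          (CovZ.leaf K3_ok TO_l3478 _))))
       (CovZ.n1 (-3830, -3154) (by decide +kernel)
        (CovZ.n2 (-3830, -3152) (by decide +kernel)
         (CovZ.leaf K3_ok TO_l3479 _)
         (CovZ.n1 (-3831, -3153) (by decide +kernel)
          (CovZ.leaf K3_ok TO_l3480 _)
          (CovZ.leaf K3_ok TO_l3481 _)))
        (CovZ.n1 (-3828, -3154) (by decide +kernel)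
         (CovZ.n2 (-3829, -3155) (by decide +kernel)
          (CovZ.leaf K3_ok TO_l3482 _)
          (CovZ.n1 (-3828, -3155) (by decide +kernel)
           (CovZ.leaf K3_ok TO_l3483 _)
           (CovZ.leaf K3_ok TO_l3484 _)))
         (CovZ.n1 (-3829, -3153) (by decide +kernel)
          (CovZ.leaf K3_ok TO_l3485 _)
          (CovZ.leaf K3_ok TO_l3486 _))))))
     (CovZ.n1 (-3836, -3156) (by decide +kernel)
      (CovZ.n2 (-3836, -3152) (by decide +kernel)
       (CovZ.n2 (-3834, -3154) (by decide +kernel)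
        (CovZ.n2 (-3836, -3154) (by decide +kernel)
         (CovZ.leaf K3_ok TO_l3487 _)
         (CovZ.leaf K3_ok TO_l3488 _))
        (CovZ.leaf K3_ok TO_l3489 _))
       (CovZ.n1 (-3838, -3154) (by decide +kernel)
        (CovZ.leaf K3_ok TO_l3490 _)
        (CovZ.n1 (-3836, -3154) (by decide +kernel)
         (CovZ.leaf K3_ok TO_l3491 _)
         (CovZ.leaf K3_ok TO_l3492 _))))
      (CovZ.n1 (-3832, -3156) (by decide +kernel)
       (CovZ.n2 (-3834, -3158) (by decide +kernel)
        (CovZ.leaf K3_ok TO_l3493 _)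
        (CovZ.n1 (-3832, -3158) (by decide +kernel)
         (CovZ.leaf K3_ok TO_l3494 _)
         (CovZ.leaf K3_ok TO_l3495 _)))
       (CovZ.n1 (-3834, -3154) (by decide +kernel)
        (CovZ.n2 (-3832, -3154) (by decide +kernel)
         (CovZ.leaf K3_ok TO_l3496 _)
         (CovZ.leaf K3_ok TO_l3497 _))
        (CovZ.n1 (-3834, -3156) (by decide +kernel)
         (CovZ.leaf K3_ok TO_l3498 _)
         (CovZ.leaf K3_ok TO_l3499 _))))))))

theorem TO_s6_4 : SqZ TO_M TO_L [0, 7, 4, 3] (-3920) (-3232) 16 6 4 :=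
  SqZ.mk (a := (-3824)) (b := (-3808)) (c := (-3168)) (d := (-3152)) (by norm_num) (by norm_num) (by norm_num) (by norm_num)
    (CovZ.topM TO_LL 0 (by decide +kernel) (CovZ.badM (by decide +kernel)))
    (CovZ.topM TO_LL 0 (by decide +kernel) (CovZ.badM (by decide +kernel)))

end Pool.Agent.TET
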