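import Pool.Agent.Helper38_TET.RegS
import Pool.Agent.Helper38_TET.TO_S0
import Pool.Agent.Helper38_TET.TO_S1
import Pool.Agent.Helper38_TET.TO_S2

/-!
# MP_c7c9bf_co: certificates, family TO
-/

set_option autoImplicit false
set_option maxRecDepth 100000

namespace Pool.Agent.TET

theorem TO_r0 : ∀ i < 7, SqZ TO_M TO_L [0, 7, 4, 3] (-3920) (-3232) 16 i 0
  | 0, _ => TO_s0_0
  | 1, _ => TO_s1_0
  | 2, _ => TO_s2_0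
  | 3, _ => TO_s3_0
  | 4, _ => TO_s4_0
  | 5, _ => TO_s5_0
  | 6, _ => TO_s6_0
  | n + 7, h => absurd h (by omega)

theorem TO_r1 : ∀ i < 7, SqZ TO_M TO_L [0, 7, 4, 3] (-3920) (-3232) 16 i 1
  | 0, _ => TO_s0_1
  | 1, _ => TO_s1_1
  | 2, _ => TO_s2_1
  | 3, _ => TO_s3_1
  | 4, _ => TO_s4_1
  | 5, _ => TO_s5_1
  | 6, _ => TO_s6_1
  | n + 7, h => absurd h (by omega)

theorem TO_r2 : ∀ i < 7, SqZ TO_M TO_L [0, 7, 4, 3] (-3920) (-3232) 16 i 2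
  | 0, _ => TO_s0_2
  | 1, _ => TO_s1_2
  | 2, _ => TO_s2_2
  | 3, _ => TO_s3_2
  | 4, _ => TO_s4_2
  | 5, _ => TO_s5_2
  | 6, _ => TO_s6_2
  | n + 7, h => absurd h (by omega)

theorem TO_r3 : ∀ i < 7, SqZ TO_M TO_L [0, 7, 4, 3] (-3920) (-3232) 16 i 3
  | 0, _ => TO_s0_3
  | 1, _ => TO_s1_3
  | 2, _ => TO_s2_3
  | 3, _ => TO_s3_3
  | 4, _ => TO_s4_3
  | 5, _ => TO_s5_3
  | 6, _ => TO_s6_3
  | n + 7, h => absurd h (by omega)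

theorem TO_r4 : ∀ i < 7, SqZ TO_M TO_L [0, 7, 4, 3] (-3920) (-3232) 16 i 4
  | 0, _ => TO_s0_4
  | 1, _ => TO_s1_4
  | 2, _ => TO_s2_4
  | 3, _ => TO_s3_4
  | 4, _ => TO_s4_4
  | 5, _ => TO_s5_4
  | 6, _ => TO_s6_4
  | n + 7, h => absurd h (by omega)

theorem TO_rows : ∀ j < 5, ∀ i < 7, SqZ TO_M TO_L [0, 7, 4, 3] (-3920) (-3232) 16 i j
  | 0, _ => TO_r0
  | 1, _ => TO_r1
  | 2, _ => TO_r2
  | 3, _ => TO_r3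
  | 4, _ => TO_r4
  | n + 5, h => absurd h (by omega)

theorem TO_cov (X Y : ℝ) (h1 : ((-3920 : ℤ) : ℝ) ≤ X) (h2 : X ≤ (-3808 : ℤ)) (h3 : ((-3232 : ℤ) : ℝ) ≤ Y)
    (h4 : Y ≤ (-3152 : ℤ)) : Out TO_L X Y ∨ GoodV [0, 7, 4, 3] (TO_M.v X Y) := by
  push_cast at h1 h2 h3 h4
  refine gridZ (by norm_num) (by norm_num) (by norm_num) TO_rows ?_ ?_ ?_ ?_ <;> push_cast <;> linarith

theorem TO_sc : ∀ a : Fin 3, (![1, 1, 30] : Fin 3 → ℝ) a ≠ 0 := by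
  intro a
  fin_cases a <;> simp

theorem TO_fr (x y : ℝ) : scl ![1, 1, 30] (VV ((0 : ℤ) : ℝ) ((-23 : ℤ) : ℝ) ((15 : ℤ) : ℝ) (x / (2 : ℤ)) (y / (2 : ℤ))) =
    TO_M.v (30720 * x / (1 : ℤ)) (30720 * y / (1 : ℤ)) := by
  funext i j
  fin_cases i <;> fin_cases j <;> simp [scl, VV, FM.v, Z3.ev, TO_M] <;> ring

end Pool.Agent.TET
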