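import Pool.Agent.Helper38_TET.TO_C

/-!
# MP_c7c9bf_co: certificates, family TO
-/

set_option autoImplicit false
set_option maxRecDepth 100000

namespace Pool.Agent.TET

theorem TO_rg0 : ROK [.q ⟨8, 0, -23, 15⟩ ⟨-6298, 0, -2282, 8580⟩, .q ⟨8, 0, -23, 15⟩ ⟨7822, -14738, 21241, -14325⟩, .q ⟨8, 0, -23, 15⟩ ⟨4884, 0, 1491, -6375⟩, .q ⟨8, 0, -23, 15⟩ ⟨-1692, 4184, -5957, 3465⟩, .q ⟨8, 0, -23, 15⟩ ⟨6860, -14110, 20120, -12870⟩] := by
  refine rok_w (v := ⟨8, 0, -23, 15⟩) (q := 2) (by decide) (by decide) (by decide) TO_sc (k := 1) (by decide) (Q := [(0, 5437, 572), (-7369, -362, -955), (0, -4142, -425), (2092, -322, 231), (-7055, 193, -858)])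
    (P := [⟨17571840, 0, 5437⟩, ⟨-29337600, -7369, -362⟩, ⟨-13056000, 0, -4142⟩, ⟨7096320, 2092, -322⟩, ⟨-26357760, -7055, 193⟩]) rfl rfl
    (List.mem_of_getElem? (i := 0) rfl) TO_fr TO_cov ?_
  · intro X Y h
    simp only [List.forall_mem_cons, List.not_mem_nil, false_imp_iff, implies_true, and_true] at h
    push_cast at h ⊢
    obtain ⟨h0, h1, h2, h3, h4⟩ := h
    refine ⟨⟨?_, ?_⟩, ?_, ?_⟩ <;> linarith

theorem TO_rg1 : ROK [.q ⟨8, 0, -23, 15⟩ ⟨6610, -12724, 18294, -12180⟩, .q ⟨8, 0, -23, 15⟩ ⟨4884, 0, 1491, -6375⟩, .q ⟨8, 0, -23, 15⟩ ⟨-6764, 14132, -20463, 13095⟩, .q ⟨8, 0, -23, 15⟩ ⟨-6298, 0, -2282, 8580⟩] := by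
  refine rok_w (v := ⟨8, 0, -23, 15⟩) (q := 2) (by decide) (by decide) (by decide) TO_sc (k := 1) (by decide) (Q := [(-6362, -191, -812), (0, -4142, -425), (7066, -192, 873), (0, 5437, 572)])
    (P := [⟨-24944640, -6362, -191⟩, ⟨-13056000, 0, -4142⟩, ⟨26818560, 7066, -192⟩, ⟨17571840, 0, 5437⟩]) rfl rfl
    (List.mem_of_getElem? (i := 1) rfl) TO_fr TO_cov ?_
  · intro X Y h
    simp only [List.forall_mem_cons, List.not_mem_nil, false_imp_iff, implies_true, and_true] at h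
    push_cast at h ⊢
    obtain ⟨h0, h1, h2, h3⟩ := h
    refine ⟨⟨?_, ?_⟩, ?_, ?_⟩ <;> linarith

theorem TO_rg2 : ROK [.q ⟨8, 0, -23, 15⟩ ⟨-13048, 7690, -14337, 19695⟩, .q ⟨8, 0, -23, 15⟩ ⟨5362, -14362, 19920, -10920⟩, .q ⟨8, 0, -23, 15⟩ ⟨8722, 222, 2636, -11580⟩, .q ⟨8, 0, -23, 15⟩ ⟨-13270, 10026, -17426, 20670⟩] := by
  refine rok_w (v := ⟨8, 0, -23, 15⟩) (q := 2) (by decide) (by decide) (by decide) TO_sc (k := 1) (by decide) (Q := [(3845, 7931, 1313), (-7181, 1588, -728), (111, -7560, -772), (5013, 7134, 1378)])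
    (P := [⟨40335360, 3845, 7931⟩, ⟨-22364160, -7181, 1588⟩, ⟨-23715840, 111, -7560⟩, ⟨42332160, 5013, 7134⟩]) rfl rfl
    (List.mem_of_getElem? (i := 2) rfl) TO_fr TO_cov ?_
  · intro X Y h
    simp only [List.forall_mem_cons, List.not_mem_nil, false_imp_iff, implies_true, and_true] at h
    push_cast at h ⊢
    obtain ⟨h0, h1, h2, h3⟩ := h
    refine ⟨⟨?_, ?_⟩, ?_, ?_⟩ <;> linarith

theorem TO_rg3 : ROK [.q ⟨8, 0, -23, 15⟩ ⟨4884, 0, 1491, -6375⟩, .q ⟨8, 0, -23, 15⟩ ⟨-8188, 13998, -20735, 14925⟩, .q ⟨8, 0, -23, 15⟩ ⟨-4672, -8412, 8989, 4095⟩, .q ⟨8, 0, -23, 15⟩ ⟨7132, -12060, 17618, -12690⟩] := by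
  refine rok_w (v := ⟨8, 0, -23, 15⟩) (q := 2) (by decide) (by decide) (by decide) TO_sc (k := 1) (by decide) (Q := [(0, -4142, -425), (6999, 1075, 995), (-4206, 7634, 273), (-6030, -920, -846)])
    (P := [⟨-13056000, 0, -4142⟩, ⟨30566400, 6999, 1075⟩, ⟨8386560, -4206, 7634⟩, ⟨-25989120, -6030, -920⟩]) rfl rfl
    (List.mem_of_getElem? (i := 3) rfl) TO_fr TO_cov ?_
  · intro X Y h
    simp only [List.forall_mem_cons, List.not_mem_nil, false_imp_iff, implies_true, and_true] at h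
    push_cast at h ⊢
    obtain ⟨h0, h1, h2, h3⟩ := h
    refine ⟨⟨?_, ?_⟩, ?_, ?_⟩ <;> linarith

end Pool.Agent.TET
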