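import Pool.Agent.Helper38_TET.TP_M
import Pool.Agent.Helper38_TET.TP_L
import Pool.Agent.Helper38_TET.TP_7
import Pool.Agent.Helper38_TET.TP_8
import Pool.Agent.Helper38_TET.TP_9
import Pool.Agent.Helper38_TET.TP_16
import Pool.Agent.Helper38_TET.TP_17
import Pool.Agent.Helper38_TET.TP_18
import Pool.Agent.Helper38_TET.TP_43
import Pool.Agent.Helper38_TET.TP_44
import Pool.Agent.Helper38_TET.TP_45
import Pool.Agent.Helper38_TET.TP_50
import Pool.Agent.Helper38_TET.TP_51

/-!
# MP_c7c9bf_co: certificates, family TP
-/

set_option autoImplicit false
set_option maxRecDepth 100000

namespace Pool.Agent.TET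

theorem TP_u0 : CovZ TP_M (toL (selN TP_LN 53092604846815051666974259762374234865920)) [0, 7, 2, 5] (3840, -1280) (4480, -1280) (4480, -640) :=
    (CovZ.n2 (4160, -960) (by decide +kernel)
         (CovZ.n2 (4480, -960) (by decide +kernel)
          (CovZ.subM 43558801421871693155057757365386891755520 (by decide +kernel)
           (CovZ.n2 (4320, -1120) (by decide +kernel)
            (CovZ.n2 (4320, -960) (by decide +kernel)
             (CovZ.n2 (4400, -1040) (by decide +kernel)
              (CovZ.n2 (4320, -1040) (by decide +kernel)
               (CovZ.n2 (4360, -1000) (by decide +kernel)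
                (CovZ.badM (by decide +kernel))
                (CovZ.badM (by decide +kernel)))
               (CovZ.badM (by decide +kernel)))
              (CovZ.n1 (4400, -960) (by decide +kernel)
               (CovZ.n2 (4440, -1000) (by decide +kernel)
                (CovZ.n2 (4400, -1000) (by decide +kernel)
                 (CovZ.leaf K2_ok TP_l2468 _)
                 (CovZ.badM (by decide +kernel)))
                (CovZ.n1 (4440, -960) (by decide +kernel)
                 (CovZ.leaf K2_ok TP_l2469 _)
                 (CovZ.leaf K2_ok TP_l2470 _)))
               (CovZ.n1 (4360, -1000) (by decide +kernel)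
                (CovZ.n2 (4360, -960) (by decide +kernel)
                 (CovZ.leaf K2_ok TP_l2471 _)
                 (CovZ.badM (by decide +kernel)))
                (CovZ.n1 (4400, -1000) (by decide +kernel)
                 (CovZ.badM (by decide +kernel))
                 (CovZ.leaf K2_ok TP_l2472 _)))))
             (CovZ.badM (by decide +kernel)))
            (CovZ.n1 (4480, -1120) (by decide +kernel)
             (CovZ.badM (by decide +kernel))
             (CovZ.n1 (4400, -1040) (by decide +kernel)
              (CovZ.n2 (4480, -1040) (by decide +kernel)
               (CovZ.badM (by decide +kernel))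
               (CovZ.n1 (4440, -1000) (by decide +kernel)
                (CovZ.n2 (4480, -1000) (by decide +kernel)
                 (CovZ.badM (by decide +kernel))
                 (CovZ.leaf K2_ok TP_l2475 _))
                (CovZ.badM (by decide +kernel))))
              (CovZ.badM (by decide +kernel))))))
          (CovZ.n1 (4320, -800) (by decide +kernel)
           (CovZ.n2 (4480, -800) (by decide +kernel)
            (CovZ.n2 (4400, -880) (by decide +kernel)
             (CovZ.leaf K2_ok TP_l2476 _)
             (CovZ.n1 (4480, -880) (by decide +kernel)
              (CovZ.n2 (4440, -920) (by decide +kernel)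
               (CovZ.leaf K2_ok TP_l2477 _)
               (CovZ.leaf K2_ok TP_l2478 _))
              (CovZ.leaf K2_ok TP_l2479 _)))
            (CovZ.n1 (4400, -720) (by decide +kernel)
             (CovZ.leaf K2_ok TP_l2480 _)
             (CovZ.leaf K2_ok TP_l2481 _)))
           (CovZ.n1 (4320, -960) (by decide +kernel)
            (CovZ.subM 8172494823017984602046909787444990705920 (by decide +kernel)
             (CovZ.n2 (4240, -880) (by decide +kernel)
              (CovZ.n2 (4320, -880) (by decide +kernel)
               (CovZ.n2 (4280, -920) (by decide +kernel)
                (CovZ.leaf K2_ok TP_l2482 _)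
                (CovZ.leaf K2_ok TP_l2483 _))
               (CovZ.leaf K2_ok TP_l2484 _))
              (CovZ.n1 (4240, -960) (by decide +kernel)
               (CovZ.subM 5716718841246845219012076458471325696 (by decide +kernel)
                (CovZ.n2 (4200, -920) (by decide +kernel)
                 (CovZ.n2 (4240, -920) (by decide +kernel)
                  (CovZ.leaf K2_ok TP_l2485 _)
                  (CovZ.leaf K2_ok TP_l2486 _))
                 (CovZ.n1 (4200, -960) (by decide +kernel)
                  (CovZ.n2 (4180, -940) (by decide +kernel)
                   (CovZ.leaf K2_ok TP_l2487 _)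
                   (CovZ.leaf K2_ok TP_l2488 _))
                  (CovZ.leaf K2_ok TP_l2489 _))))
               (CovZ.n1 (4280, -920) (by decide +kernel)
                (CovZ.n2 (4280, -960) (by decide +kernel)
                 (CovZ.leaf K2_ok TP_l2490 _)
                 (CovZ.leaf K2_ok TP_l2491 _))
                (CovZ.n1 (4240, -920) (by decide +kernel)
                 (CovZ.leaf K2_ok TP_l2492 _)
                 (CovZ.leaf K2_ok TP_l2493 _))))))
            (CovZ.n1 (4400, -880) (by decide +kernel)
             (CovZ.subM 46286777076080447707983766301299508772864 (by decide +kernel)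
              (CovZ.n2 (4400, -960) (by decide +kernel)
               (CovZ.n2 (4360, -920) (by decide +kernel)
                (CovZ.leaf K2_ok TP_l2494 _)
                (CovZ.leaf K2_ok TP_l2495 _))
               (CovZ.n1 (4440, -920) (by decide +kernel)
                (CovZ.leaf K2_ok TP_l2496 _)
                (CovZ.leaf K2_ok TP_l2497 _))))
             (CovZ.subM 8175153279009554433792717401565551395072 (by decide +kernel)
              (CovZ.n1 (4320, -880) (by decide +kernel)
               (CovZ.leaf K2_ok TP_l2498 _)
               (CovZ.n1 (4360, -920) (by decide +kernel)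
                (CovZ.n2 (4320, -920) (by decide +kernel)
                 (CovZ.leaf K2_ok TP_l2499 _)
                 (CovZ.leaf K2_ok TP_l2500 _))
                (CovZ.leaf K2_ok TP_l2501 _))))))))
         (CovZ.n1 (4160, -1280) (by decide +kernel)
          (CovZ.badM (by decide +kernel))
          (CovZ.n1 (4320, -1120) (by decide +kernel)
           (CovZ.badM (by decide +kernel))
           (CovZ.badM (by decide +kernel)))))

theorem TP_u1 : CovZ TP_M (toL (selN TP_LN 53092604846815051666974259762374234865920)) [0, 7, 2, 5] (4480, -1280) (5120, -1280) (4480, -640) :=
    (CovZ.n1 (4800, -960) (by decide +kernel)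
         (CovZ.subM 44920099639203349390809183106621998366720 (by decide +kernel)
          (CovZ.n2 (4800, -1280) (by decide +kernel)
           (CovZ.n2 (4640, -1120) (by decide +kernel)
            (CovZ.n2 (4800, -1120) (by decide +kernel)
             (CovZ.badM (by decide +kernel))
             (CovZ.n1 (4720, -1040) (by decide +kernel)
              (CovZ.n2 (4800, -1040) (by decide +kernel)
               (CovZ.subM 2596148429267413814265248164610048 (by decide +kernel)
                (CovZ.n2 (4760, -1080) (by decide +kernel)
                 (CovZ.n2 (4760, -1040) (by decide +kernel)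
                  (CovZ.leaf K2_ok TP_l2502 _)
                  (CovZ.leaf K2_ok TP_l2503 _))
                 (CovZ.n1 (4800, -1080) (by decide +kernel)
                  (CovZ.badM (by decide +kernel))
                  (CovZ.leaf K2_ok TP_l2504 _))))
               (CovZ.n1 (4760, -1000) (by decide +kernel)
                (CovZ.leaf K2_ok TP_l2505 _)
                (CovZ.leaf K2_ok TP_l2506 _)))
              (CovZ.subM 2596148429267413814265248164610048 (by decide +kernel)
               (CovZ.n1 (4720, -1120) (by decide +kernel)
                (CovZ.n2 (4680, -1080) (by decide +kernel)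
                 (CovZ.n2 (4720, -1080) (by decide +kernel)
                  (CovZ.badM (by decide +kernel))
                  (CovZ.n1 (4700, -1060) (by decide +kernel)
                   (CovZ.leaf K2_ok TP_l2507 _)
                   (CovZ.badM (by decide +kernel))))
                 (CovZ.badM (by decide +kernel)))
                (CovZ.n1 (4760, -1080) (by decide +kernel)
                 (CovZ.badM (by decide +kernel))
                 (CovZ.n1 (4720, -1080) (by decide +kernel)
                  (CovZ.n2 (4740, -1060) (by decide +kernel)
                   (CovZ.badM (by decide +kernel))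
                   (CovZ.leaf K2_ok TP_l2508 _))
                  (CovZ.badM (by decide +kernel))))))))
            (CovZ.badM (by decide +kernel)))
           (CovZ.n1 (4960, -1120) (by decide +kernel)
            (CovZ.badM (by decide +kernel))
            (CovZ.n1 (4800, -1120) (by decide +kernel)
             (CovZ.n2 (4880, -1040) (by decide +kernel)
              (CovZ.subM 2596148429267413814265256754544640 (by decide +kernel)
               (CovZ.n2 (4880, -1120) (by decide +kernel)
                (CovZ.n2 (4840, -1080) (by decide +kernel)
                 (CovZ.n2 (4880, -1080) (by decide +kernel)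
                  (CovZ.n2 (4860, -1100) (by decide +kernel)
                   (CovZ.leaf K2_ok TP_l2509 _)
                   (CovZ.leaf K2_ok TP_l2510 _))
                  (CovZ.leaf K2_ok TP_l2511 _))
                 (CovZ.n1 (4840, -1120) (by decide +kernel)
                  (CovZ.badM (by decide +kernel))
                  (CovZ.n1 (4860, -1100) (by decide +kernel)
                   (CovZ.leaf K2_ok TP_l2512 _)
                   (CovZ.leaf K2_ok TP_l2513 _))))
                (CovZ.n1 (4920, -1080) (by decide +kernel)
                 (CovZ.n2 (4920, -1120) (by decide +kernel)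
                  (CovZ.leaf K2_ok TP_l2514 _)
                  (CovZ.leaf K2_ok TP_l2515 _))
                 (CovZ.n1 (4880, -1080) (by decide +kernel)
                  (CovZ.leaf K2_ok TP_l2516 _)
                  (CovZ.n1 (4900, -1100) (by decide +kernel)
                   (CovZ.leaf K2_ok TP_l2517 _)
                   (CovZ.leaf K2_ok TP_l2518 _))))))
              (CovZ.n1 (4800, -1040) (by decide +kernel)
               (CovZ.leaf K2_ok TP_l2519 _)
               (CovZ.n1 (4840, -1080) (by decide +kernel)
                (CovZ.n2 (4800, -1080) (by decide +kernel)
                 (CovZ.leaf K2_ok TP_l2520 _)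
                 (CovZ.badM (by decide +kernel)))
                (CovZ.leaf K2_ok TP_l2521 _))))
             (CovZ.badM (by decide +kernel))))))
         (CovZ.n1 (4480, -960) (by decide +kernel)
          (CovZ.n2 (4640, -800) (by decide +kernel)
           (CovZ.n2 (4640, -960) (by decide +kernel)
            (CovZ.n2 (4560, -880) (by decide +kernel)
             (CovZ.n2 (4640, -880) (by decide +kernel)
              (CovZ.leaf K2_ok TP_l2522 _)
              (CovZ.leaf K2_ok TP_l2523 _))
             (CovZ.n1 (4560, -960) (by decide +kernel)
              (CovZ.leaf K2_ok TP_l2524 _)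
              (CovZ.leaf K2_ok TP_l2525 _)))
            (CovZ.n1 (4720, -880) (by decide +kernel)
             (CovZ.n2 (4720, -960) (by decide +kernel)
              (CovZ.leaf K2_ok TP_l2526 _)
              (CovZ.leaf K2_ok TP_l2527 _))
             (CovZ.n1 (4640, -880) (by decide +kernel)
              (CovZ.leaf K2_ok TP_l2528 _)
              (CovZ.leaf K2_ok TP_l2529 _))))
           (CovZ.n1 (4480, -800) (by decide +kernel)
            (CovZ.leaf K2_ok TP_l2530 _)
            (CovZ.n1 (4560, -880) (by decide +kernel)
             (CovZ.n2 (4480, -880) (by decide +kernel)
              (CovZ.leaf K2_ok TP_l2531 _)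
              (CovZ.leaf K2_ok TP_l2532 _))
             (CovZ.leaf K2_ok TP_l2533 _))))
          (CovZ.subM 44920099639203349390809183036244664254464 (by decide +kernel)
           (CovZ.n1 (4640, -1120) (by decide +kernel)
            (CovZ.n2 (4480, -1120) (by decide +kernel)
             (CovZ.n2 (4560, -1040) (by decide +kernel)
              (CovZ.badM (by decide +kernel))
              (CovZ.n1 (4480, -1040) (by decide +kernel)
               (CovZ.n2 (4520, -1000) (by decide +kernel)
                (CovZ.n2 (4520, -1040) (by decide +kernel)
                 (CovZ.n2 (4500, -1020) (by decide +kernel)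
                  (CovZ.leaf K2_ok TP_l2534 _)
                  (CovZ.badM (by decide +kernel)))
                 (CovZ.n1 (4540, -1020) (by decide +kernel)
                  (CovZ.badM (by decide +kernel))
                  (CovZ.leaf K2_ok TP_l2535 _)))
                (CovZ.n1 (4480, -1000) (by decide +kernel)
                 (CovZ.leaf K2_ok TP_l2536 _)
                 (CovZ.n1 (4500, -1020) (by decide +kernel)
                  (CovZ.leaf K2_ok TP_l2537 _)
                  (CovZ.leaf K2_ok TP_l2538 _))))
               (CovZ.badM (by decide +kernel))))
             (CovZ.badM (by decide +kernel)))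
            (CovZ.n1 (4640, -960) (by decide +kernel)
             (CovZ.n2 (4720, -1040) (by decide +kernel)
              (CovZ.n2 (4640, -1040) (by decide +kernel)
               (CovZ.n2 (4680, -1000) (by decide +kernel)
                (CovZ.n2 (4680, -1040) (by decide +kernel)
                 (CovZ.leaf K2_ok TP_l2539 _)
                 (CovZ.leaf K2_ok TP_l2540 _))
                (CovZ.n1 (4640, -1000) (by decide +kernel)
                 (CovZ.leaf K2_ok TP_l2541 _)
                 (CovZ.leaf K2_ok TP_l2542 _)))
               (CovZ.n1 (4680, -1080) (by decide +kernel)
                (CovZ.n2 (4640, -1080) (by decide +kernel)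
                 (CovZ.n2 (4660, -1060) (by decide +kernel)
                  (CovZ.badM (by decide +kernel))
                  (CovZ.badM (by decide +kernel)))
                 (CovZ.badM (by decide +kernel)))
                (CovZ.n1 (4680, -1040) (by decide +kernel)
                 (CovZ.n2 (4700, -1060) (by decide +kernel)
                  (CovZ.leaf K2_ok TP_l2543 _)
                  (CovZ.leaf K2_ok TP_l2544 _))
                 (CovZ.n1 (4660, -1060) (by decide +kernel)
                  (CovZ.leaf K2_ok TP_l2545 _)
                  (CovZ.leaf K2_ok TP_l2546 _)))))
              (CovZ.n1 (4720, -960) (by decide +kernel)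
               (CovZ.n2 (4760, -1000) (by decide +kernel)
                (CovZ.leaf K2_ok TP_l2547 _)
                (CovZ.leaf K2_ok TP_l2548 _))
               (CovZ.n1 (4680, -1000) (by decide +kernel)
                (CovZ.leaf K2_ok TP_l2549 _)
                (CovZ.leaf K2_ok TP_l2550 _))))
             (CovZ.n1 (4560, -1040) (by decide +kernel)
              (CovZ.n2 (4560, -960) (by decide +kernel)
               (CovZ.n2 (4600, -1000) (by decide +kernel)
                (CovZ.n2 (4560, -1000) (by decide +kernel)
                 (CovZ.leaf K2_ok TP_l2551 _)
                 (CovZ.leaf K2_ok TP_l2552 _))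
                (CovZ.leaf K2_ok TP_l2553 _))
               (CovZ.n1 (4520, -1000) (by decide +kernel)
                (CovZ.leaf K2_ok TP_l2554 _)
                (CovZ.n1 (4560, -1000) (by decide +kernel)
                 (CovZ.n2 (4540, -1020) (by decide +kernel)
                  (CovZ.leaf K2_ok TP_l2555 _)
                  (CovZ.leaf K2_ok TP_l2556 _))
                 (CovZ.leaf K2_ok TP_l2557 _))))
              (CovZ.n1 (4640, -1040) (by decide +kernel)
               (CovZ.badM (by decide +kernel))
               (CovZ.n1 (4600, -1000) (by decide +kernel)
                (CovZ.n2 (4640, -1000) (by decide +kernel)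
                 (CovZ.leaf K2_ok TP_l2558 _)
                 (CovZ.leaf K2_ok TP_l2559 _))
                (CovZ.n1 (4600, -1040) (by decide +kernel)
                 (CovZ.leaf K2_ok TP_l2560 _)
                 (CovZ.leaf K2_ok TP_l2561 _))))))))))

theorem TP_u2 : CovZ TP_M (toL (selN TP_LN 53092687953990878661478415921622310478081)) [0, 7, 2, 5] (2560, 0) (3200, -640) (3840, 0) :=
    (CovZ.n2 (3200, 0) (by decide +kernel)
       (CovZ.n2 (3520, -320) (by decide +kernel)
        (CovZ.subM 94789843759302329230160179403710465 (by decide +kernel)
         (CovZ.n2 (3200, -320) (by decide +kernel)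
          (CovZ.leaf K2_ok TP_l2680 _)
          (CovZ.subM 94789843759302329230147530623287296 (by decide +kernel)
           (CovZ.n1 (3360, -480) (by decide +kernel)
            (CovZ.n2 (3200, -480) (by decide +kernel)
             (CovZ.leaf K2_ok TP_l2681 _)
             (CovZ.n1 (3280, -560) (by decide +kernel)
              (CovZ.leaf K2_ok TP_l2682 _)
              (CovZ.leaf K2_ok TP_l2683 _)))
            (CovZ.n1 (3360, -320) (by decide +kernel)
             (CovZ.leaf K2_ok TP_l2684 _)
             (CovZ.leaf K2_ok TP_l2685 _))))))
        (CovZ.n1 (3520, 0) (by decide +kernel)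
         (CovZ.leaf K2_ok TP_l2686 _)
         (CovZ.leaf K2_ok TP_l2687 _)))
       (CovZ.subM 83107175826994504156159248075612161 (by decide +kernel)
        (CovZ.n1 (2880, -320) (by decide +kernel)
         (CovZ.n2 (2880, 0) (by decide +kernel)
          (CovZ.n2 (3040, -160) (by decide +kernel)
           (CovZ.leaf K2_ok TP_l2688 _)
           (CovZ.leaf K2_ok TP_l2689 _))
          (CovZ.n1 (2720, -160) (by decide +kernel)
           (CovZ.leaf K2_ok TP_l2690 _)
           (CovZ.leaf K2_ok TP_l2691 _)))
         (CovZ.n1 (3200, -320) (by decide +kernel)
          (CovZ.subM 83107175826994504156146599295188992 (by decide +kernel)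
           (CovZ.n2 (3040, -480) (by decide +kernel)
            (CovZ.n2 (3040, -320) (by decide +kernel)
             (CovZ.leaf K2_ok TP_l2692 _)
             (CovZ.leaf K2_ok TP_l2693 _))
            (CovZ.n1 (3200, -480) (by decide +kernel)
             (CovZ.n2 (3120, -560) (by decide +kernel)
              (CovZ.leaf K2_ok TP_l2694 _)
              (CovZ.leaf K2_ok TP_l2695 _))
             (CovZ.leaf K2_ok TP_l2696 _))))
          (CovZ.n1 (3040, -160) (by decide +kernel)
           (CovZ.leaf K2_ok TP_l2697 _)
           (CovZ.leaf K2_ok TP_l2698 _))))))

theorem TP_u3 : CovZ TP_M (toL (selN TP_LN 53092687953990878661478415921622310478081)) [0, 7, 2, 5] (3200, -640) (3840, -1280) (3840, 0) :=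
    (CovZ.n1 (3840, -640) (by decide +kernel)
       (CovZ.subM 5444529553402947723239067719839619481856 (by decide +kernel)
        (CovZ.n2 (3520, -960) (by decide +kernel)
         (CovZ.n2 (3520, -640) (by decide +kernel)
          (CovZ.n2 (3680, -800) (by decide +kernel)
           (CovZ.n2 (3520, -800) (by decide +kernel)
            (CovZ.n2 (3600, -720) (by decide +kernel)
             (CovZ.n2 (3600, -800) (by decide +kernel)
              (CovZ.n2 (3560, -760) (by decide +kernel)
               (CovZ.leaf K2_ok TP_l2699 _)
               (CovZ.leaf K2_ok TP_l2700 _))
              (CovZ.n1 (3640, -760) (by decide +kernel)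
               (CovZ.leaf K2_ok TP_l2701 _)
               (CovZ.leaf K2_ok TP_l2702 _)))
             (CovZ.n1 (3520, -720) (by decide +kernel)
              (CovZ.leaf K2_ok TP_l2703 _)
              (CovZ.n1 (3560, -760) (by decide +kernel)
               (CovZ.leaf K2_ok TP_l2704 _)
               (CovZ.leaf K2_ok TP_l2705 _))))
            (CovZ.n1 (3600, -880) (by decide +kernel)
             (CovZ.n2 (3520, -880) (by decide +kernel)
              (CovZ.n2 (3560, -840) (by decide +kernel)
               (CovZ.badM (by decide +kernel))
               (CovZ.n1 (3520, -840) (by decide +kernel)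
                (CovZ.n2 (3540, -820) (by decide +kernel)
                 (CovZ.leaf K2_ok TP_l7624 _)
                 (CovZ.leaf K2_ok TP_l7625 _))
                (CovZ.badM (by decide +kernel))))
              (CovZ.badM (by decide +kernel)))
             (CovZ.n1 (3600, -800) (by decide +kernel)
              (CovZ.n2 (3640, -840) (by decide +kernel)
               (CovZ.n2 (3600, -840) (by decide +kernel)
                (CovZ.leaf K2_ok TP_l2706 _)
                (CovZ.badM (by decide +kernel)))
               (CovZ.n1 (3640, -800) (by decide +kernel)
                (CovZ.leaf K2_ok TP_l2707 _)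
                (CovZ.leaf K2_ok TP_l2708 _)))
              (CovZ.n1 (3560, -840) (by decide +kernel)
               (CovZ.n2 (3560, -800) (by decide +kernel)
                (CovZ.n2 (3580, -820) (by decide +kernel)
                 (CovZ.leaf K2_ok TP_l7626 _)
                 (CovZ.leaf K2_ok TP_l7627 _))
                (CovZ.n1 (3540, -820) (by decide +kernel)
                 (CovZ.leaf K2_ok TP_l7628 _)
                 (CovZ.leaf K2_ok TP_l7629 _)))
               (CovZ.n1 (3600, -840) (by decide +kernel)
                (CovZ.badM (by decide +kernel))
                (CovZ.n1 (3580, -820) (by decide +kernel)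
                 (CovZ.leaf K2_ok TP_l7630 _)
                 (CovZ.leaf K2_ok TP_l7631 _)))))))
           (CovZ.n1 (3680, -640) (by decide +kernel)
            (CovZ.n2 (3760, -720) (by decide +kernel)
             (CovZ.n2 (3680, -720) (by decide +kernel)
              (CovZ.leaf K2_ok TP_l2709 _)
              (CovZ.leaf K2_ok TP_l2710 _))
             (CovZ.leaf K2_ok TP_l2711 _))
            (CovZ.n1 (3600, -720) (by decide +kernel)
             (CovZ.leaf K2_ok TP_l2712 _)
             (CovZ.n1 (3680, -720) (by decide +kernel)
              (CovZ.leaf K2_ok TP_l2713 _)
              (CovZ.leaf K2_ok TP_l2714 _)))))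
          (CovZ.n1 (3360, -800) (by decide +kernel)
           (CovZ.n2 (3360, -640) (by decide +kernel)
            (CovZ.n2 (3440, -720) (by decide +kernel)
             (CovZ.n2 (3360, -720) (by decide +kernel)
              (CovZ.leaf K2_ok TP_l2715 _)
              (CovZ.n1 (3400, -760) (by decide +kernel)
               (CovZ.n2 (3360, -760) (by decide +kernel)
                (CovZ.leaf K2_ok TP_l2716 _)
                (CovZ.leaf K2_ok TP_l2717 _))
               (CovZ.leaf K2_ok TP_l2718 _)))
             (CovZ.n1 (3440, -640) (by decide +kernel)
              (CovZ.leaf K2_ok TP_l2719 _)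
              (CovZ.leaf K2_ok TP_l2720 _)))
            (CovZ.n1 (3280, -720) (by decide +kernel)
             (CovZ.n2 (3280, -640) (by decide +kernel)
              (CovZ.leaf K2_ok TP_l7632 _)
              (CovZ.leaf K2_ok TP_l7633 _))
             (CovZ.n1 (3360, -720) (by decide +kernel)
              (CovZ.badM (by decide +kernel))
              (CovZ.leaf K2_ok TP_l7634 _))))
           (CovZ.n1 (3520, -800) (by decide +kernel)
            (CovZ.n2 (3440, -880) (by decide +kernel)
             (CovZ.n2 (3440, -800) (by decide +kernel)
              (CovZ.n2 (3480, -840) (by decide +kernel)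
               (CovZ.badM (by decide +kernel))
               (CovZ.n1 (3480, -800) (by decide +kernel)
                (CovZ.n2 (3500, -820) (by decide +kernel)
                 (CovZ.badM (by decide +kernel))
                 (CovZ.leaf K2_ok TP_l7635 _))
                (CovZ.badM (by decide +kernel))))
              (CovZ.badM (by decide +kernel)))
             (CovZ.n1 (3520, -880) (by decide +kernel)
              (CovZ.badM (by decide +kernel))
              (CovZ.n1 (3480, -840) (by decide +kernel)
               (CovZ.n2 (3520, -840) (by decide +kernel)
                (CovZ.badM (by decide +kernel))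
                (CovZ.n1 (3500, -820) (by decide +kernel)
                 (CovZ.leaf K2_ok TP_l7636 _)
                 (CovZ.n1 (3500, -840) (by decide +kernel)
                  (CovZ.badM (by decide +kernel))
                  (CovZ.leaf K2_ok TP_l7637 _))))
               (CovZ.badM (by decide +kernel)))))
            (CovZ.n1 (3440, -720) (by decide +kernel)
             (CovZ.n2 (3520, -720) (by decide +kernel)
              (CovZ.n2 (3480, -760) (by decide +kernel)
               (CovZ.leaf K2_ok TP_l2721 _)
               (CovZ.n1 (3520, -760) (by decide +kernel)
                (CovZ.leaf K2_ok TP_l2722 _)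
                (CovZ.leaf K2_ok TP_l2723 _)))
              (CovZ.leaf K2_ok TP_l2724 _))
             (CovZ.n1 (3440, -800) (by decide +kernel)
              (CovZ.n2 (3400, -760) (by decide +kernel)
               (CovZ.n2 (3440, -760) (by decide +kernel)
                (CovZ.leaf K2_ok TP_l2725 _)
                (CovZ.leaf K2_ok TP_l2726 _))
               (CovZ.n1 (3400, -800) (by decide +kernel)
                (CovZ.leaf K2_ok TP_l2727 _)
                (CovZ.leaf K2_ok TP_l2728 _)))
              (CovZ.n1 (3480, -760) (by decide +kernel)
               (CovZ.n2 (3480, -800) (by decide +kernel)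
                (CovZ.leaf K2_ok TP_l2729 _)
                (CovZ.leaf K2_ok TP_l2730 _))
               (CovZ.n1 (3440, -760) (by decide +kernel)
                (CovZ.leaf K2_ok TP_l2731 _)
                (CovZ.leaf K2_ok TP_l2732 _))))))))
         (CovZ.n1 (3840, -960) (by decide +kernel)
          (CovZ.badM (by decide +kernel))
          (CovZ.n1 (3680, -800) (by decide +kernel)
           (CovZ.n2 (3840, -800) (by decide +kernel)
            (CovZ.n2 (3760, -880) (by decide +kernel)
             (CovZ.n2 (3760, -800) (by decide +kernel)
              (CovZ.n2 (3800, -840) (by decide +kernel)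
               (CovZ.n2 (3760, -840) (by decide +kernel)
                (CovZ.leaf K2_ok TP_l2733 _)
                (CovZ.leaf K2_ok TP_l2734 _))
               (CovZ.leaf K2_ok TP_l2735 _))
              (CovZ.n1 (3720, -840) (by decide +kernel)
               (CovZ.n2 (3720, -800) (by decide +kernel)
                (CovZ.leaf K2_ok TP_l2736 _)
                (CovZ.leaf K2_ok TP_l2737 _))
               (CovZ.n1 (3760, -840) (by decide +kernel)
                (CovZ.n2 (3740, -860) (by decide +kernel)
                 (CovZ.leaf K2_ok TP_l2738 _)
                 (CovZ.leaf K2_ok TP_l2739 _))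
                (CovZ.leaf K2_ok TP_l2740 _))))
             (CovZ.n1 (3840, -880) (by decide +kernel)
              (CovZ.badM (by decide +kernel))
              (CovZ.n1 (3800, -840) (by decide +kernel)
               (CovZ.n2 (3840, -840) (by decide +kernel)
                (CovZ.leaf K2_ok TP_l2741 _)
                (CovZ.leaf K2_ok TP_l2742 _))
               (CovZ.n1 (3800, -880) (by decide +kernel)
                (CovZ.leaf K2_ok TP_l2743 _)
                (CovZ.leaf K2_ok TP_l2744 _)))))
            (CovZ.n1 (3760, -720) (by decide +kernel)
             (CovZ.n2 (3840, -720) (by decide +kernel)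
              (CovZ.leaf K2_ok TP_l2745 _)
              (CovZ.leaf K2_ok TP_l2746 _))
             (CovZ.n1 (3760, -800) (by decide +kernel)
              (CovZ.leaf K2_ok TP_l2747 _)
              (CovZ.leaf K2_ok TP_l2748 _))))
           (CovZ.n1 (3680, -960) (by decide +kernel)
            (CovZ.n2 (3600, -880) (by decide +kernel)
             (CovZ.n2 (3680, -880) (by decide +kernel)
              (CovZ.badM (by decide +kernel))
              (CovZ.n1 (3640, -840) (by decide +kernel)
               (CovZ.n2 (3680, -840) (by decide +kernel)
                (CovZ.badM (by decide +kernel))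
                (CovZ.leaf K2_ok TP_l2749 _))
               (CovZ.badM (by decide +kernel))))
             (CovZ.badM (by decide +kernel)))
            (CovZ.n1 (3760, -880) (by decide +kernel)
             (CovZ.badM (by decide +kernel))
             (CovZ.n1 (3680, -880) (by decide +kernel)
              (CovZ.n2 (3720, -840) (by decide +kernel)
               (CovZ.n2 (3720, -880) (by decide +kernel)
                (CovZ.n2 (3700, -860) (by decide +kernel)
                 (CovZ.leaf K2_ok TP_l2750 _)
                 (CovZ.leaf K2_ok TP_l2751 _))
                (CovZ.n1 (3740, -860) (by decide +kernel)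
                 (CovZ.leaf K2_ok TP_l2752 _)
                 (CovZ.leaf K2_ok TP_l2753 _)))
               (CovZ.n1 (3680, -840) (by decide +kernel)
                (CovZ.leaf K2_ok TP_l2754 _)
                (CovZ.n1 (3700, -860) (by decide +kernel)
                 (CovZ.leaf K2_ok TP_l2755 _)
                 (CovZ.leaf K2_ok TP_l2756 _))))
              (CovZ.badM (by decide +kernel)))))))))
       (CovZ.n1 (3520, -320) (by decide +kernel)
        (CovZ.n2 (3840, -320) (by decide +kernel)
         (CovZ.n2 (3680, -480) (by decide +kernel)
          (CovZ.leaf K2_ok TP_l2757 _)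
          (CovZ.n1 (3840, -480) (by decide +kernel)
           (CovZ.leaf K2_ok TP_l2758 _)
           (CovZ.leaf K2_ok TP_l2759 _)))
         (CovZ.leaf K2_ok TP_l2760 _))
        (CovZ.subM 5444612660578774717743223866438914670848 (by decide +kernel)
         (CovZ.n1 (3520, -640) (by decide +kernel)
          (CovZ.n2 (3360, -480) (by decide +kernel)
           (CovZ.n2 (3520, -480) (by decide +kernel)
            (CovZ.leaf K2_ok TP_l2761 _)
            (CovZ.leaf K2_ok TP_l2762 _))
           (CovZ.n1 (3360, -640) (by decide +kernel)
            (CovZ.n2 (3280, -560) (by decide +kernel)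
             (CovZ.leaf K2_ok TP_l2763 _)
             (CovZ.leaf K2_ok TP_l2764 _))
            (CovZ.n1 (3440, -560) (by decide +kernel)
             (CovZ.leaf K2_ok TP_l2765 _)
             (CovZ.leaf K2_ok TP_l2766 _))))
          (CovZ.n1 (3680, -480) (by decide +kernel)
           (CovZ.n2 (3680, -640) (by decide +kernel)
            (CovZ.n2 (3600, -560) (by decide +kernel)
             (CovZ.leaf K2_ok TP_l2767 _)
             (CovZ.leaf K2_ok TP_l2768 _))
            (CovZ.leaf K2_ok TP_l2769 _))
           (CovZ.n1 (3520, -480) (by decide +kernel)
            (CovZ.leaf K2_ok TP_l2770 _)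
            (CovZ.n1 (3600, -560) (by decide +kernel)
             (CovZ.leaf K2_ok TP_l2771 _)
             (CovZ.leaf K2_ok TP_l2772 _))))))))

theorem TP_u4 : CovZ TP_M (toL (selN TP_LN 53092687953990878661478415921622310478081)) [0, 7, 2, 5] (2560, -2560) (3840, -1280) (2560, 0) :=
    (CovZ.n2 (2560, -1280) (by decide +kernel)
     (CovZ.n2 (3200, -640) (by decide +kernel)
      (CovZ.subM 5444529553402947723239067719839619481856 (by decide +kernel)
       (CovZ.n2 (3200, -1280) (by decide +kernel)
        (CovZ.badM (by decide +kernel))
        (CovZ.n1 (3520, -960) (by decide +kernel)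
         (CovZ.badM (by decide +kernel))
         (CovZ.n1 (3200, -960) (by decide +kernel)
          (CovZ.n2 (3360, -800) (by decide +kernel)
           (CovZ.n2 (3360, -960) (by decide +kernel)
            (CovZ.badM (by decide +kernel))
            (CovZ.n1 (3440, -880) (by decide +kernel)
             (CovZ.badM (by decide +kernel))
             (CovZ.badM (by decide +kernel))))
           (CovZ.n1 (3200, -800) (by decide +kernel)
            (CovZ.n2 (3280, -720) (by decide +kernel)
             (CovZ.badM (by decide +kernel))
             (CovZ.n1 (3200, -720) (by decide +kernel)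
              (CovZ.n2 (3240, -680) (by decide +kernel)
               (CovZ.badM (by decide +kernel))
               (CovZ.badM (by decide +kernel)))
              (CovZ.badM (by decide +kernel))))
            (CovZ.badM (by decide +kernel))))
          (CovZ.badM (by decide +kernel))))))
      (CovZ.subM 83107175826994504156159248075612161 (by decide +kernel)
       (CovZ.n1 (2560, -640) (by decide +kernel)
        (CovZ.n2 (2880, -320) (by decide +kernel)
         (CovZ.subM 83107175826994504156146599295188992 (by decide +kernel)
          (CovZ.n2 (2880, -640) (by decide +kernel)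
           (CovZ.n2 (2720, -480) (by decide +kernel)
            (CovZ.n2 (2880, -480) (by decide +kernel)
             (CovZ.n2 (2800, -560) (by decide +kernel)
              (CovZ.leaf K2_ok TP_l2562 _)
              (CovZ.n1 (2880, -560) (by decide +kernel)
               (CovZ.leaf K2_ok TP_l2563 _)
               (CovZ.leaf K2_ok TP_l2564 _)))
             (CovZ.leaf K2_ok TP_l2565 _))
            (CovZ.subM 10141204953531858474160978132992 (by decide +kernel)
             (CovZ.n1 (2720, -640) (by decide +kernel)
              (CovZ.n2 (2640, -560) (by decide +kernel)
               (CovZ.n2 (2720, -560) (by decide +kernel)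
                (CovZ.n2 (2680, -600) (by decide +kernel)
                 (CovZ.leaf K2_ok TP_l2566 _)
                 (CovZ.leaf K2_ok TP_l2567 _))
                (CovZ.leaf K2_ok TP_l2568 _))
               (CovZ.n1 (2640, -640) (by decide +kernel)
                (CovZ.n2 (2600, -600) (by decide +kernel)
                 (CovZ.leaf K2_ok TP_l2569 _)
                 (CovZ.n1 (2600, -640) (by decide +kernel)
                  (CovZ.leaf K2_ok TP_l2570 _)
                  (CovZ.leaf K2_ok TP_l2571 _)))
                (CovZ.n1 (2680, -600) (by decide +kernel)
                 (CovZ.leaf K2_ok TP_l2572 _)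
                 (CovZ.n1 (2640, -600) (by decide +kernel)
                  (CovZ.leaf K2_ok TP_l2573 _)
                  (CovZ.leaf K2_ok TP_l2574 _)))))
              (CovZ.n1 (2800, -560) (by decide +kernel)
               (CovZ.n2 (2800, -640) (by decide +kernel)
                (CovZ.n2 (2760, -600) (by decide +kernel)
                 (CovZ.leaf K2_ok TP_l2575 _)
                 (CovZ.leaf K2_ok TP_l2576 _))
                (CovZ.n1 (2840, -600) (by decide +kernel)
                 (CovZ.leaf K2_ok TP_l2577 _)
                 (CovZ.leaf K2_ok TP_l2578 _)))
               (CovZ.n1 (2720, -560) (by decide +kernel)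
                (CovZ.leaf K2_ok TP_l2579 _)
                (CovZ.n1 (2760, -600) (by decide +kernel)
                 (CovZ.leaf K2_ok TP_l2580 _)
                 (CovZ.leaf K2_ok TP_l2581 _)))))))
           (CovZ.n1 (3040, -480) (by decide +kernel)
            (CovZ.n2 (3040, -640) (by decide +kernel)
             (CovZ.n2 (2960, -560) (by decide +kernel)
              (CovZ.n2 (3040, -560) (by decide +kernel)
               (CovZ.leaf K2_ok TP_l2582 _)
               (CovZ.leaf K2_ok TP_l2583 _))
              (CovZ.n1 (2960, -640) (by decide +kernel)
               (CovZ.leaf K2_ok TP_l2584 _)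
               (CovZ.leaf K2_ok TP_l2585 _)))
             (CovZ.n1 (3120, -560) (by decide +kernel)
              (CovZ.n2 (3120, -640) (by decide +kernel)
               (CovZ.leaf K2_ok TP_l2586 _)
               (CovZ.leaf K2_ok TP_l2587 _))
              (CovZ.n1 (3040, -560) (by decide +kernel)
               (CovZ.leaf K2_ok TP_l2588 _)
               (CovZ.leaf K2_ok TP_l2589 _))))
            (CovZ.n1 (2880, -480) (by decide +kernel)
             (CovZ.leaf K2_ok TP_l2590 _)
             (CovZ.n1 (2960, -560) (by decide +kernel)
              (CovZ.n2 (2880, -560) (by decide +kernel)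
               (CovZ.leaf K2_ok TP_l2591 _)
               (CovZ.leaf K2_ok TP_l2592 _))
              (CovZ.leaf K2_ok TP_l2593 _))))))
         (CovZ.n1 (2560, -320) (by decide +kernel)
          (CovZ.n2 (2720, -160) (by decide +kernel)
           (CovZ.leaf K2_ok TP_l2594 _)
           (CovZ.leaf K2_ok TP_l2595 _))
          (CovZ.subM 83086890941510773914962102245654528 (by decide +kernel)
           (CovZ.n1 (2720, -480) (by decide +kernel)
            (CovZ.n2 (2560, -480) (by decide +kernel)
             (CovZ.n2 (2640, -400) (by decide +kernel)
              (CovZ.leaf K2_ok TP_l2596 _)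
              (CovZ.leaf K2_ok TP_l2597 _))
             (CovZ.n1 (2640, -560) (by decide +kernel)
              (CovZ.n2 (2560, -560) (by decide +kernel)
               (CovZ.leaf K2_ok TP_l2598 _)
               (CovZ.n1 (2600, -600) (by decide +kernel)
                (CovZ.n2 (2560, -600) (by decide +kernel)
                 (CovZ.leaf K2_ok TP_l2599 _)
                 (CovZ.leaf K2_ok TP_l2600 _))
                (CovZ.leaf K2_ok TP_l2601 _)))
              (CovZ.n1 (2640, -480) (by decide +kernel)
               (CovZ.leaf K2_ok TP_l2602 _)
               (CovZ.leaf K2_ok TP_l2603 _))))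
            (CovZ.n1 (2720, -320) (by decide +kernel)
             (CovZ.leaf K2_ok TP_l2604 _)
             (CovZ.leaf K2_ok TP_l2605 _))))))
        (CovZ.badM (by decide +kernel)))))
     (CovZ.badM (by decide +kernel)))

theorem TP_u5 : CovZ TP_M (toL (selN TP_LN 53092687953990878661478415921622310478081)) [0, 7, 2, 5] (3840, -1280) (5120, 0) (2560, 0) :=
    (CovZ.n1 (3840, 0) (by decide +kernel)
     (CovZ.n2 (4480, -640) (by decide +kernel)
      (CovZ.n2 (3840, -640) (by decide +kernel)
       (CovZ.n2 (4160, -320) (by decide +kernel)
        (CovZ.subM 51731389736659222425726990167738423443712 (by decide +kernel)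
         (CovZ.n2 (4160, -640) (by decide +kernel)
          (CovZ.n2 (4000, -480) (by decide +kernel)
           (CovZ.n2 (4160, -480) (by decide +kernel)
            (CovZ.leaf K2_ok TP_l2606 _)
            (CovZ.leaf K2_ok TP_l2607 _))
           (CovZ.n1 (4000, -640) (by decide +kernel)
            (CovZ.leaf K2_ok TP_l2608 _)
            (CovZ.leaf K2_ok TP_l2609 _)))
          (CovZ.n1 (4320, -480) (by decide +kernel)
           (CovZ.leaf K2_ok TP_l2610 _)
           (CovZ.leaf K2_ok TP_l2611 _))))
        (CovZ.n1 (3840, -320) (by decide +kernel)
         (CovZ.leaf K2_ok TP_l2612 _)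
         (CovZ.n1 (4000, -480) (by decide +kernel)
          (CovZ.n2 (3840, -480) (by decide +kernel)
           (CovZ.leaf K2_ok TP_l2613 _)
           (CovZ.leaf K2_ok TP_l2614 _))
          (CovZ.leaf K2_ok TP_l2615 _))))
       (CovZ.subM 51731306629483395431222834021139128254720 (by decide +kernel)
        (CovZ.n1 (4160, -960) (by decide +kernel)
         (CovZ.n2 (3840, -960) (by decide +kernel)
          (CovZ.n2 (4000, -800) (by decide +kernel)
           (CovZ.n2 (4000, -960) (by decide +kernel)
            (CovZ.subM 5449841273089228247440144610269824286976 (by decide +kernel)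
             (CovZ.n2 (3920, -880) (by decide +kernel)
              (CovZ.n2 (4000, -880) (by decide +kernel)
               (CovZ.n2 (3960, -920) (by decide +kernel)
                (CovZ.n2 (3960, -880) (by decide +kernel)
                 (CovZ.leaf K2_ok TP_l2616 _)
                 (CovZ.n1 (3940, -900) (by decide +kernel)
                  (CovZ.leaf K2_ok TP_l2617 _)
                  (CovZ.leaf K2_ok TP_l2618 _)))
                (CovZ.n1 (4000, -920) (by decide +kernel)
                 (CovZ.badM (by decide +kernel))
                 (CovZ.n1 (3980, -900) (by decide +kernel)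
                  (CovZ.leaf K2_ok TP_l2619 _)
                  (CovZ.leaf K2_ok TP_l2620 _))))
               (CovZ.n1 (3960, -840) (by decide +kernel)
                (CovZ.leaf K2_ok TP_l2621 _)
                (CovZ.leaf K2_ok TP_l2622 _)))
              (CovZ.n1 (3920, -960) (by decide +kernel)
               (CovZ.n2 (3880, -920) (by decide +kernel)
                (CovZ.n2 (3920, -920) (by decide +kernel)
                 (CovZ.badM (by decide +kernel))
                 (CovZ.n1 (3900, -900) (by decide +kernel)
                  (CovZ.leaf K2_ok TP_l7614 _)
                  (CovZ.n1 (3900, -920) (by decide +kernel)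
                   (CovZ.leaf K2_ok TP_l7615 _)
                   (CovZ.leaf K2_ok TP_l7616 _))))
                (CovZ.badM (by decide +kernel)))
               (CovZ.n1 (3960, -920) (by decide +kernel)
                (CovZ.badM (by decide +kernel))
                (CovZ.n1 (3920, -920) (by decide +kernel)
                 (CovZ.n2 (3940, -900) (by decide +kernel)
                  (CovZ.leaf K2_ok TP_l2623 _)
                  (CovZ.leaf K2_ok TP_l2624 _))
                 (CovZ.badM (by decide +kernel)))))))
            (CovZ.n1 (4080, -880) (by decide +kernel)
             (CovZ.subM 5716718841246845219012076458471325696 (by decide +kernel)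
              (CovZ.n2 (4080, -960) (by decide +kernel)
               (CovZ.n2 (4040, -920) (by decide +kernel)
                (CovZ.n2 (4080, -920) (by decide +kernel)
                 (CovZ.badM (by decide +kernel))
                 (CovZ.leaf K2_ok TP_l2625 _))
                (CovZ.badM (by decide +kernel)))
               (CovZ.n1 (4120, -920) (by decide +kernel)
                (CovZ.n2 (4120, -960) (by decide +kernel)
                 (CovZ.badM (by decide +kernel))
                 (CovZ.n1 (4140, -940) (by decide +kernel)
                  (CovZ.leaf K2_ok TP_l7617 _)
                  (CovZ.n1 (4120, -940) (by decide +kernel)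
                   (CovZ.leaf K2_ok TP_l7618 _)
                   (CovZ.leaf K2_ok TP_l7619 _))))
                (CovZ.n1 (4080, -920) (by decide +kernel)
                 (CovZ.leaf K2_ok TP_l2626 _)
                 (CovZ.badM (by decide +kernel))))))
             (CovZ.subM 5449903580651530665371686976225774928128 (by decide +kernel)
              (CovZ.n1 (4000, -880) (by decide +kernel)
               (CovZ.n2 (4040, -840) (by decide +kernel)
                (CovZ.leaf K2_ok TP_l2627 _)
                (CovZ.leaf K2_ok TP_l2628 _))
               (CovZ.subM 5384411842300616250786124693401239552 (by decide +kernel)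
                (CovZ.n1 (4040, -920) (by decide +kernel)
                 (CovZ.n2 (4000, -920) (by decide +kernel)
                  (CovZ.leaf K2_ok TP_l2629 _)
                  (CovZ.badM (by decide +kernel)))
                 (CovZ.n1 (4040, -880) (by decide +kernel)
                  (CovZ.leaf K2_ok TP_l2630 _)
                  (CovZ.leaf K2_ok TP_l2631 _))))))))
           (CovZ.subM 5449851657682945921558311478577070080256 (by decide +kernel)
            (CovZ.n1 (3840, -800) (by decide +kernel)
             (CovZ.n2 (3920, -720) (by decide +kernel)
              (CovZ.n2 (3920, -800) (by decide +kernel)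
               (CovZ.leaf K2_ok TP_l2632 _)
               (CovZ.leaf K2_ok TP_l2633 _))
              (CovZ.n1 (3840, -720) (by decide +kernel)
               (CovZ.leaf K2_ok TP_l2634 _)
               (CovZ.leaf K2_ok TP_l2635 _)))
             (CovZ.n1 (3920, -880) (by decide +kernel)
              (CovZ.subM 5444524361106088583948529382028702908672 (by decide +kernel)
               (CovZ.n2 (3840, -880) (by decide +kernel)
                (CovZ.n2 (3880, -840) (by decide +kernel)
                 (CovZ.n2 (3880, -880) (by decide +kernel)
                  (CovZ.leaf K2_ok TP_l2636 _)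
                  (CovZ.leaf K2_ok TP_l2637 _))
                 (CovZ.n1 (3840, -840) (by decide +kernel)
                  (CovZ.leaf K2_ok TP_l2638 _)
                  (CovZ.leaf K2_ok TP_l2639 _)))
                (CovZ.n1 (3880, -920) (by decide +kernel)
                 (CovZ.badM (by decide +kernel))
                 (CovZ.n1 (3880, -880) (by decide +kernel)
                  (CovZ.n2 (3900, -900) (by decide +kernel)
                   (CovZ.n2 (3880, -900) (by decide +kernel)
                    (CovZ.leaf K2_ok TP_l7620 _)
                    (CovZ.leaf K2_ok TP_l7621 _))
                   (CovZ.leaf K2_ok TP_l7622 _))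
                  (CovZ.badM (by decide +kernel))))))
              (CovZ.n1 (3920, -800) (by decide +kernel)
               (CovZ.n2 (3960, -840) (by decide +kernel)
                (CovZ.n2 (3920, -840) (by decide +kernel)
                 (CovZ.leaf K2_ok TP_l2640 _)
                 (CovZ.leaf K2_ok TP_l2641 _))
                (CovZ.leaf K2_ok TP_l2642 _))
               (CovZ.n1 (3880, -840) (by decide +kernel)
                (CovZ.leaf K2_ok TP_l2643 _)
                (CovZ.leaf K2_ok TP_l2644 _)))))))
          (CovZ.badM (by decide +kernel)))
         (CovZ.n1 (4160, -640) (by decide +kernel)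
          (CovZ.n2 (4320, -800) (by decide +kernel)
           (CovZ.n2 (4160, -800) (by decide +kernel)
            (CovZ.n2 (4240, -720) (by decide +kernel)
             (CovZ.leaf K2_ok TP_l2645 _)
             (CovZ.leaf K2_ok TP_l2646 _))
            (CovZ.n1 (4240, -880) (by decide +kernel)
             (CovZ.n2 (4160, -880) (by decide +kernel)
              (CovZ.leaf K2_ok TP_l2647 _)
              (CovZ.subM 5716718841246845219012076458471325696 (by decide +kernel)
               (CovZ.n1 (4200, -920) (by decide +kernel)
                (CovZ.n2 (4160, -920) (by decide +kernel)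
                 (CovZ.leaf K2_ok TP_l2648 _)
                 (CovZ.n1 (4180, -940) (by decide +kernel)
                  (CovZ.leaf K2_ok TP_l2649 _)
                  (CovZ.leaf K2_ok TP_l2650 _)))
                (CovZ.leaf K2_ok TP_l2651 _))))
             (CovZ.n1 (4240, -800) (by decide +kernel)
              (CovZ.leaf K2_ok TP_l2652 _)
              (CovZ.leaf K2_ok TP_l2653 _))))
           (CovZ.n1 (4320, -640) (by decide +kernel)
            (CovZ.leaf K2_ok TP_l2654 _)
            (CovZ.n1 (4240, -720) (by decide +kernel)
             (CovZ.leaf K2_ok TP_l2655 _)
             (CovZ.leaf K2_ok TP_l2656 _))))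
          (CovZ.n1 (4000, -800) (by decide +kernel)
           (CovZ.n2 (4000, -640) (by decide +kernel)
            (CovZ.n2 (4080, -720) (by decide +kernel)
             (CovZ.leaf K2_ok TP_l2657 _)
             (CovZ.leaf K2_ok TP_l2658 _))
            (CovZ.n1 (3920, -720) (by decide +kernel)
             (CovZ.leaf K2_ok TP_l2659 _)
             (CovZ.leaf K2_ok TP_l2660 _)))
           (CovZ.n1 (4160, -800) (by decide +kernel)
            (CovZ.n2 (4080, -880) (by decide +kernel)
             (CovZ.n2 (4080, -800) (by decide +kernel)
              (CovZ.n2 (4120, -840) (by decide +kernel)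
               (CovZ.leaf K2_ok TP_l2661 _)
               (CovZ.leaf K2_ok TP_l2662 _))
              (CovZ.n1 (4040, -840) (by decide +kernel)
               (CovZ.leaf K2_ok TP_l2663 _)
               (CovZ.leaf K2_ok TP_l2664 _)))
             (CovZ.n1 (4160, -880) (by decide +kernel)
              (CovZ.n2 (4120, -920) (by decide +kernel)
               (CovZ.leaf K2_ok TP_l2665 _)
               (CovZ.n1 (4160, -920) (by decide +kernel)
                (CovZ.leaf K2_ok TP_l7623 _)
                (CovZ.leaf K2_ok TP_l2666 _)))
              (CovZ.n1 (4120, -840) (by decide +kernel)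
               (CovZ.leaf K2_ok TP_l2667 _)
               (CovZ.leaf K2_ok TP_l2668 _))))
            (CovZ.n1 (4080, -720) (by decide +kernel)
             (CovZ.leaf K2_ok TP_l2669 _)
             (CovZ.leaf K2_ok TP_l2670 _))))))))
      (CovZ.n1 (4480, 0) (by decide +kernel)
       (CovZ.n2 (4800, -320) (by decide +kernel)
        (CovZ.n2 (4480, -320) (by decide +kernel)
         (CovZ.leaf K2_ok TP_l2671 _)
         (CovZ.n1 (4640, -480) (by decide +kernel)
          (CovZ.leaf K2_ok TP_l2672 _)
          (CovZ.leaf K2_ok TP_l2673 _)))
        (CovZ.leaf K2_ok TP_l2674 _))
       (CovZ.n1 (4160, -320) (by decide +kernel)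
        (CovZ.n2 (4160, 0) (by decide +kernel)
         (CovZ.leaf K2_ok TP_l2675 _)
         (CovZ.leaf K2_ok TP_l2676 _))
        (CovZ.n1 (4480, -320) (by decide +kernel)
         (CovZ.n2 (4320, -480) (by decide +kernel)
          (CovZ.leaf K2_ok TP_l2677 _)
          (CovZ.leaf K2_ok TP_l2678 _))
         (CovZ.leaf K2_ok TP_l2679 _)))))
     (CovZ.n1 (3200, -640) (by decide +kernel)
      TP_u2
      TP_u3))

theorem TP_u6 : CovZ TP_M (toL (selN TP_LN 83076749736708948079762983966307329)) [0, 7, 2, 5] (2240, 1600) (2240, 1760) (2080, 1760) :=
    (CovZ.n2 (2160, 1680) (by decide +kernel)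
            (CovZ.subM 83076749736708357783939976513795072 (by decide +kernel)
             (CovZ.n2 (2160, 1760) (by decide +kernel)
              (CovZ.n2 (2200, 1720) (by decide +kernel)
               (CovZ.n2 (2160, 1720) (by decide +kernel)
                (CovZ.n2 (2180, 1740) (by decide +kernel)
                 (CovZ.leaf K2_ok TP_l1129 _)
                 (CovZ.n1 (2160, 1740) (by decide +kernel)
                  (CovZ.leaf K2_ok TP_l1130 _)
                  (CovZ.leaf K2_ok TP_l1131 _)))
                (CovZ.n1 (2180, 1700) (by decide +kernel)
                 (CovZ.n2 (2160, 1700) (by decide +kernel)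
                  (CovZ.leaf K2_ok TP_l1132 _)
                  (CovZ.leaf K2_ok TP_l1133 _))
                 (CovZ.n1 (2180, 1720) (by decide +kernel)
                  (CovZ.leaf K2_ok TP_l6623 _)
                  (CovZ.leaf K2_ok TP_l1134 _))))
               (CovZ.n1 (2200, 1760) (by decide +kernel)
                (CovZ.n2 (2220, 1740) (by decide +kernel)
                 (CovZ.n2 (2200, 1740) (by decide +kernel)
                  (CovZ.leaf K2_ok TP_l6624 _)
                  (CovZ.n1 (2210, 1730) (by decide +kernel)
                   (CovZ.leaf K2_ok TP_l6625 _)
                   (CovZ.leaf K2_ok TP_l6626 _)))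
                 (CovZ.n1 (2220, 1760) (by decide +kernel)
                  (CovZ.n2 (2230, 1750) (by decide +kernel)
                   (CovZ.leaf K2_ok TP_l6627 _)
                   (CovZ.leaf K2_ok TP_l6628 _))
                  (CovZ.n1 (2210, 1750) (by decide +kernel)
                   (CovZ.leaf K2_ok TP_l6629 _)
                   (CovZ.n1 (2220, 1750) (by decide +kernel)
                    (CovZ.leaf K2_ok TP_l6630 _)
                    (CovZ.leaf K2_ok TP_l6631 _)))))
                (CovZ.n1 (2180, 1740) (by decide +kernel)
                 (CovZ.n2 (2180, 1760) (by decide +kernel)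
                  (CovZ.leaf K2_ok TP_l6632 _)
                  (CovZ.leaf K2_ok TP_l1135 _))
                 (CovZ.n1 (2200, 1740) (by decide +kernel)
                  (CovZ.leaf K2_ok TP_l6633 _)
                  (CovZ.leaf K2_ok TP_l6634 _)))))
              (CovZ.n1 (2120, 1720) (by decide +kernel)
               (CovZ.n2 (2120, 1760) (by decide +kernel)
                (CovZ.n2 (2140, 1740) (by decide +kernel)
                 (CovZ.n2 (2120, 1740) (by decide +kernel)
                  (CovZ.leaf K2_ok TP_l1136 _)
                  (CovZ.leaf K2_ok TP_l1137 _))
                 (CovZ.n1 (2140, 1760) (by decide +kernel)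
                  (CovZ.leaf K2_ok TP_l1138 _)
                  (CovZ.leaf K2_ok TP_l1139 _)))
                (CovZ.n1 (2100, 1740) (by decide +kernel)
                 (CovZ.leaf K2_ok TP_l1140 _)
                 (CovZ.n1 (2120, 1740) (by decide +kernel)
                  (CovZ.leaf K2_ok TP_l1141 _)
                  (CovZ.leaf K2_ok TP_l1142 _))))
               (CovZ.n1 (2160, 1720) (by decide +kernel)
                (CovZ.n2 (2140, 1700) (by decide +kernel)
                 (CovZ.n2 (2140, 1720) (by decide +kernel)
                  (CovZ.leaf K2_ok TP_l1143 _)
                  (CovZ.leaf K2_ok TP_l1144 _))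
                 (CovZ.n1 (2160, 1700) (by decide +kernel)
                  (CovZ.leaf K2_ok TP_l1145 _)
                  (CovZ.leaf K2_ok TP_l1146 _)))
                (CovZ.n1 (2140, 1740) (by decide +kernel)
                 (CovZ.n2 (2160, 1740) (by decide +kernel)
                  (CovZ.leaf K2_ok TP_l1147 _)
                  (CovZ.leaf K2_ok TP_l1148 _))
                 (CovZ.leaf K2_ok TP_l1149 _))))))
            (CovZ.n1 (2240, 1680) (by decide +kernel)
             (CovZ.n2 (2200, 1640) (by decide +kernel)
              (CovZ.n2 (2200, 1680) (by decide +kernel)
               (CovZ.n2 (2220, 1660) (by decide +kernel)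
                (CovZ.leaf K2_ok TP_l1150 _)
                (CovZ.leaf K2_ok TP_l1151 _))
               (CovZ.n1 (2180, 1660) (by decide +kernel)
                (CovZ.n2 (2180, 1680) (by decide +kernel)
                 (CovZ.leaf K2_ok TP_l1152 _)
                 (CovZ.leaf K2_ok TP_l1153 _))
                (CovZ.leaf K2_ok TP_l1154 _)))
              (CovZ.n1 (2240, 1640) (by decide +kernel)
               (CovZ.leaf K2_ok TP_l1155 _)
               (CovZ.n1 (2220, 1660) (by decide +kernel)
                (CovZ.leaf K2_ok TP_l1156 _)
                (CovZ.leaf K2_ok TP_l1157 _))))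
             (CovZ.subM 83076749736708357783939976513795072 (by decide +kernel)
              (CovZ.n1 (2200, 1720) (by decide +kernel)
               (CovZ.n2 (2240, 1720) (by decide +kernel)
                (CovZ.n2 (2220, 1700) (by decide +kernel)
                 (CovZ.n2 (2220, 1720) (by decide +kernel)
                  (CovZ.leaf K2_ok TP_l6635 _)
                  (CovZ.leaf K2_ok TP_l6636 _))
                 (CovZ.n1 (2240, 1700) (by decide +kernel)
                  (CovZ.leaf K2_ok TP_l1158 _)
                  (CovZ.leaf K2_ok TP_l6637 _)))
                (CovZ.n1 (2220, 1740) (by decide +kernel)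
                 (CovZ.n2 (2240, 1740) (by decide +kernel)
                  (CovZ.leaf K2_ok TP_l6638 _)
                  (CovZ.n1 (2230, 1750) (by decide +kernel)
                   (CovZ.badM (by decide +kernel))
                   (CovZ.leaf K2_ok TP_l6639 _)))
                 (CovZ.n1 (2220, 1720) (by decide +kernel)
                  (CovZ.leaf K2_ok TP_l6640 _)
                  (CovZ.leaf K2_ok TP_l6641 _))))
               (CovZ.n1 (2200, 1680) (by decide +kernel)
                (CovZ.n2 (2180, 1700) (by decide +kernel)
                 (CovZ.n2 (2200, 1700) (by decide +kernel)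
                  (CovZ.leaf K2_ok TP_l1159 _)
                  (CovZ.n1 (2190, 1710) (by decide +kernel)
                   (CovZ.leaf K2_ok TP_l6642 _)
                   (CovZ.leaf K2_ok TP_l6643 _)))
                 (CovZ.n1 (2180, 1680) (by decide +kernel)
                  (CovZ.leaf K2_ok TP_l1160 _)
                  (CovZ.leaf K2_ok TP_l1161 _)))
                (CovZ.n1 (2220, 1700) (by decide +kernel)
                 (CovZ.n2 (2220, 1680) (by decide +kernel)
                  (CovZ.leaf K2_ok TP_l1162 _)
                  (CovZ.leaf K2_ok TP_l1163 _))
                 (CovZ.n1 (2200, 1700) (by decide +kernel)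
                  (CovZ.leaf K2_ok TP_l6644 _)
                  (CovZ.leaf K2_ok TP_l1164 _))))))))

theorem TP_u7 : CovZ TP_M (toL (selN TP_LN 83076749736708948079762983966307329)) [0, 7, 2, 5] (2240, 1760) (2240, 1920) (2080, 1760) :=
    (CovZ.subM 206565872640 (by decide +kernel)
            (CovZ.n1 (2160, 1840) (by decide +kernel)
             (CovZ.n2 (2240, 1840) (by decide +kernel)
              (CovZ.n2 (2200, 1800) (by decide +kernel)
               (CovZ.n2 (2200, 1840) (by decide +kernel)
                (CovZ.n2 (2220, 1820) (by decide +kernel)
                 (CovZ.n2 (2200, 1820) (by decide +kernel)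
                  (CovZ.leaf K2_ok TP_l6645 _)
                  (CovZ.leaf K2_ok TP_l6646 _))
                 (CovZ.n1 (2220, 1840) (by decide +kernel)
                  (CovZ.n2 (2230, 1830) (by decide +kernel)
                   (CovZ.leaf K2_ok TP_l6647 _)
                   (CovZ.leaf K2_ok TP_l6648 _))
                  (CovZ.leaf K2_ok TP_l6649 _)))
                (CovZ.n1 (2180, 1820) (by decide +kernel)
                 (CovZ.n2 (2180, 1840) (by decide +kernel)
                  (CovZ.leaf K2_ok TP_l6650 _)
                  (CovZ.leaf K2_ok TP_l1165 _))
                 (CovZ.n1 (2200, 1820) (by decide +kernel)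
                  (CovZ.leaf K2_ok TP_l6651 _)
                  (CovZ.leaf K2_ok TP_l6652 _))))
               (CovZ.n1 (2240, 1800) (by decide +kernel)
                (CovZ.n2 (2220, 1780) (by decide +kernel)
                 (CovZ.n2 (2220, 1800) (by decide +kernel)
                  (CovZ.n2 (2230, 1790) (by decide +kernel)
                   (CovZ.leaf K2_ok TP_l6653 _)
                   (CovZ.leaf K2_ok TP_l6654 _))
                  (CovZ.leaf K2_ok TP_l6655 _))
                 (CovZ.n1 (2240, 1780) (by decide +kernel)
                  (CovZ.n2 (2230, 1770) (by decide +kernel)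
                   (CovZ.leaf K2_ok TP_l6656 _)
                   (CovZ.badM (by decide +kernel)))
                  (CovZ.n1 (2230, 1790) (by decide +kernel)
                   (CovZ.badM (by decide +kernel))
                   (CovZ.leaf K2_ok TP_l6657 _))))
                (CovZ.n1 (2220, 1820) (by decide +kernel)
                 (CovZ.n2 (2240, 1820) (by decide +kernel)
                  (CovZ.n2 (2230, 1810) (by decide +kernel)
                   (CovZ.leaf K2_ok TP_l6658 _)
                   (CovZ.badM (by decide +kernel)))
                  (CovZ.leaf K2_ok TP_l6659 _))
                 (CovZ.n1 (2220, 1800) (by decide +kernel)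
                  (CovZ.leaf K2_ok TP_l6660 _)
                  (CovZ.n1 (2230, 1810) (by decide +kernel)
                   (CovZ.leaf K2_ok TP_l6661 _)
                   (CovZ.leaf K2_ok TP_l6662 _))))))
              (CovZ.subM 206297366528 (by decide +kernel)
               (CovZ.n1 (2200, 1880) (by decide +kernel)
                (CovZ.n2 (2240, 1880) (by decide +kernel)
                 (CovZ.n2 (2220, 1860) (by decide +kernel)
                  (CovZ.n2 (2220, 1880) (by decide +kernel)
                   (CovZ.leaf K2_ok TP_l6663 _)
                   (CovZ.leaf K2_ok TP_l6664 _))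
                  (CovZ.n1 (2240, 1860) (by decide +kernel)
                   (CovZ.n2 (2230, 1850) (by decide +kernel)
                    (CovZ.leaf K2_ok TP_l6665 _)
                    (CovZ.badM (by decide +kernel)))
                   (CovZ.leaf K2_ok TP_l6666 _)))
                 (CovZ.n1 (2220, 1900) (by decide +kernel)
                  (CovZ.n2 (2240, 1900) (by decide +kernel)
                   (CovZ.leaf K2_ok TP_l6667 _)
                   (CovZ.leaf K2_ok TP_l6668 _))
                  (CovZ.n1 (2220, 1880) (by decide +kernel)
                   (CovZ.n2 (2210, 1890) (by decide +kernel)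
                    (CovZ.leaf K2_ok TP_l6669 _)
                    (CovZ.leaf K2_ok TP_l6670 _))
                   (CovZ.leaf K2_ok TP_l6671 _))))
                (CovZ.n1 (2200, 1840) (by decide +kernel)
                 (CovZ.n2 (2180, 1860) (by decide +kernel)
                  (CovZ.n2 (2200, 1860) (by decide +kernel)
                   (CovZ.leaf K2_ok TP_l6672 _)
                   (CovZ.leaf K2_ok TP_l6673 _))
                  (CovZ.n1 (2180, 1840) (by decide +kernel)
                   (CovZ.leaf K2_ok TP_l1166 _)
                   (CovZ.leaf K2_ok TP_l6674 _)))
                 (CovZ.n1 (2220, 1860) (by decide +kernel)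
                  (CovZ.n2 (2220, 1840) (by decide +kernel)
                   (CovZ.leaf K2_ok TP_l6675 _)
                   (CovZ.leaf K2_ok TP_l6676 _))
                  (CovZ.n1 (2200, 1860) (by decide +kernel)
                   (CovZ.leaf K2_ok TP_l6677 _)
                   (CovZ.leaf K2_ok TP_l6678 _)))))))
             (CovZ.n1 (2160, 1760) (by decide +kernel)
              (CovZ.n2 (2120, 1800) (by decide +kernel)
               (CovZ.n2 (2160, 1800) (by decide +kernel)
                (CovZ.n2 (2140, 1780) (by decide +kernel)
                 (CovZ.leaf K2_ok TP_l1167 _)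
                 (CovZ.n1 (2160, 1780) (by decide +kernel)
                  (CovZ.leaf K2_ok TP_l1168 _)
                  (CovZ.leaf K2_ok TP_l1169 _)))
                (CovZ.n1 (2140, 1820) (by decide +kernel)
                 (CovZ.n2 (2160, 1820) (by decide +kernel)
                  (CovZ.leaf K2_ok TP_l1170 _)
                  (CovZ.leaf K2_ok TP_l1171 _))
                 (CovZ.leaf K2_ok TP_l1172 _)))
               (CovZ.n1 (2120, 1760) (by decide +kernel)
                (CovZ.n2 (2100, 1780) (by decide +kernel)
                 (CovZ.leaf K2_ok TP_l1173 _)
                 (CovZ.leaf K2_ok TP_l1174 _))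
                (CovZ.n1 (2140, 1780) (by decide +kernel)
                 (CovZ.leaf K2_ok TP_l1175 _)
                 (CovZ.leaf K2_ok TP_l1176 _))))
              (CovZ.n1 (2200, 1800) (by decide +kernel)
               (CovZ.n2 (2200, 1760) (by decide +kernel)
                (CovZ.n2 (2180, 1780) (by decide +kernel)
                 (CovZ.n2 (2200, 1780) (by decide +kernel)
                  (CovZ.leaf K2_ok TP_l6679 _)
                  (CovZ.leaf K2_ok TP_l6680 _))
                 (CovZ.n1 (2180, 1760) (by decide +kernel)
                  (CovZ.leaf K2_ok TP_l1177 _)
                  (CovZ.leaf K2_ok TP_l6681 _)))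
                (CovZ.n1 (2220, 1780) (by decide +kernel)
                 (CovZ.n2 (2220, 1760) (by decide +kernel)
                  (CovZ.leaf K2_ok TP_l6682 _)
                  (CovZ.leaf K2_ok TP_l6683 _))
                 (CovZ.n1 (2200, 1780) (by decide +kernel)
                  (CovZ.leaf K2_ok TP_l6684 _)
                  (CovZ.leaf K2_ok TP_l6685 _))))
               (CovZ.n1 (2160, 1800) (by decide +kernel)
                (CovZ.n2 (2180, 1820) (by decide +kernel)
                 (CovZ.leaf K2_ok TP_l1178 _)
                 (CovZ.n1 (2160, 1820) (by decide +kernel)
                  (CovZ.leaf K2_ok TP_l1179 _)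
                  (CovZ.leaf K2_ok TP_l1180 _)))
                (CovZ.n1 (2180, 1780) (by decide +kernel)
                 (CovZ.n2 (2160, 1780) (by decide +kernel)
                  (CovZ.leaf K2_ok TP_l1181 _)
                  (CovZ.leaf K2_ok TP_l1182 _))
                 (CovZ.n1 (2180, 1800) (by decide +kernel)
                  (CovZ.leaf K2_ok TP_l6686 _)
                  (CovZ.leaf K2_ok TP_l1183 _))))))))

theorem TP_u8 : CovZ TP_M (toL (selN TP_LN 83076749736708948079762983966307329)) [0, 7, 2, 5] (2560, 1920) (2240, 1920) (2240, 1600) :=
    (CovZ.subM 83076749736708948079752877500817408 (by decide +kernel)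
          (CovZ.n2 (2400, 1760) (by decide +kernel)
           (CovZ.n2 (2240, 1760) (by decide +kernel)
            (CovZ.badM (by decide +kernel))
            (CovZ.n1 (2320, 1680) (by decide +kernel)
             (CovZ.n2 (2240, 1680) (by decide +kernel)
              (CovZ.subM 83076749736708357783939769947922432 (by decide +kernel)
               (CovZ.n2 (2280, 1720) (by decide +kernel)
                (CovZ.n2 (2280, 1680) (by decide +kernel)
                 (CovZ.n2 (2260, 1700) (by decide +kernel)
                  (CovZ.leaf K2_ok TP_l1074 _)
                  (CovZ.leaf K2_ok TP_l1075 _))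
                 (CovZ.n1 (2300, 1700) (by decide +kernel)
                  (CovZ.leaf K2_ok TP_l1076 _)
                  (CovZ.leaf K2_ok TP_l1077 _)))
                (CovZ.n1 (2240, 1720) (by decide +kernel)
                 (CovZ.n2 (2260, 1740) (by decide +kernel)
                  (CovZ.n2 (2260, 1720) (by decide +kernel)
                   (CovZ.n2 (2250, 1730) (by decide +kernel)
                    (CovZ.leaf K2_ok TP_l6570 _)
                    (CovZ.leaf K2_ok TP_l6571 _))
                   (CovZ.leaf K2_ok TP_l6572 _))
                  (CovZ.n1 (2240, 1740) (by decide +kernel)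
                   (CovZ.badM (by decide +kernel))
                   (CovZ.n1 (2250, 1730) (by decide +kernel)
                    (CovZ.leaf K2_ok TP_l6573 _)
                    (CovZ.badM (by decide +kernel)))))
                 (CovZ.n1 (2260, 1700) (by decide +kernel)
                  (CovZ.leaf K2_ok TP_l1078 _)
                  (CovZ.n1 (2260, 1720) (by decide +kernel)
                   (CovZ.leaf K2_ok TP_l6574 _)
                   (CovZ.leaf K2_ok TP_l6575 _))))))
              (CovZ.n1 (2280, 1640) (by decide +kernel)
               (CovZ.n2 (2240, 1640) (by decide +kernel)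
                (CovZ.leaf K2_ok TP_l1079 _)
                (CovZ.leaf K2_ok TP_l1080 _))
               (CovZ.n1 (2280, 1680) (by decide +kernel)
                (CovZ.leaf K2_ok TP_l1081 _)
                (CovZ.leaf K2_ok TP_l1082 _))))
             (CovZ.subM 83076749736708357783939769947922432 (by decide +kernel)
              (CovZ.n1 (2320, 1760) (by decide +kernel)
               (CovZ.n2 (2360, 1720) (by decide +kernel)
                (CovZ.n2 (2320, 1720) (by decide +kernel)
                 (CovZ.n2 (2340, 1740) (by decide +kernel)
                  (CovZ.n2 (2340, 1720) (by decide +kernel)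
                   (CovZ.leaf K2_ok TP_l6576 _)
                   (CovZ.leaf K2_ok TP_l1083 _))
                  (CovZ.n1 (2320, 1740) (by decide +kernel)
                   (CovZ.badM (by decide +kernel))
                   (CovZ.leaf K2_ok TP_l6577 _)))
                 (CovZ.n1 (2340, 1700) (by decide +kernel)
                  (CovZ.leaf K2_ok TP_l1084 _)
                  (CovZ.leaf K2_ok TP_l1085 _)))
                (CovZ.n1 (2360, 1760) (by decide +kernel)
                 (CovZ.n2 (2380, 1740) (by decide +kernel)
                  (CovZ.n2 (2360, 1740) (by decide +kernel)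
                   (CovZ.badM (by decide +kernel))
                   (CovZ.leaf K2_ok TP_l1087 _))
                  (CovZ.badM (by decide +kernel)))
                 (CovZ.n1 (2340, 1740) (by decide +kernel)
                  (CovZ.badM (by decide +kernel))
                  (CovZ.leaf K2_ok TP_l1091 _))))
               (CovZ.n1 (2280, 1720) (by decide +kernel)
                (CovZ.n2 (2280, 1760) (by decide +kernel)
                 (CovZ.n2 (2300, 1740) (by decide +kernel)
                  (CovZ.n2 (2280, 1740) (by decide +kernel)
                   (CovZ.badM (by decide +kernel))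
                   (CovZ.leaf K2_ok TP_l6578 _))
                  (CovZ.badM (by decide +kernel)))
                 (CovZ.n1 (2260, 1740) (by decide +kernel)
                  (CovZ.badM (by decide +kernel))
                  (CovZ.n1 (2280, 1740) (by decide +kernel)
                   (CovZ.leaf K2_ok TP_l6579 _)
                   (CovZ.badM (by decide +kernel)))))
                (CovZ.n1 (2320, 1720) (by decide +kernel)
                 (CovZ.n2 (2300, 1700) (by decide +kernel)
                  (CovZ.leaf K2_ok TP_l6580 _)
                  (CovZ.leaf K2_ok TP_l1092 _))
                 (CovZ.n1 (2300, 1740) (by decide +kernel)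
                  (CovZ.n2 (2320, 1740) (by decide +kernel)
                   (CovZ.leaf K2_ok TP_l6581 _)
                   (CovZ.badM (by decide +kernel)))
                  (CovZ.n1 (2300, 1720) (by decide +kernel)
                   (CovZ.leaf K2_ok TP_l6582 _)
                   (CovZ.leaf K2_ok TP_l6583 _)))))))))
           (CovZ.subM 590295810358705651712 (by decide +kernel)
            (CovZ.n1 (2400, 1920) (by decide +kernel)
             (CovZ.n2 (2480, 1840) (by decide +kernel)
              (CovZ.n2 (2400, 1840) (by decide +kernel)
               (CovZ.badM (by decide +kernel))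
               (CovZ.n1 (2440, 1800) (by decide +kernel)
                (CovZ.badM (by decide +kernel))
                (CovZ.badM (by decide +kernel))))
              (CovZ.badM (by decide +kernel)))
             (CovZ.badM (by decide +kernel))))))

theorem TP_u9 : CovZ TP_M (toL (selN TP_LN 83076749736708948079762983966307329)) [0, 7, 2, 5] (2240, 1920) (1920, 1920) (2240, 1600) :=
    (CovZ.n1 (2080, 1760) (by decide +kernel)
          (CovZ.subM 206565872640 (by decide +kernel)
           (CovZ.n2 (2080, 1920) (by decide +kernel)
            (CovZ.n2 (2160, 1840) (by decide +kernel)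
             (CovZ.n2 (2080, 1840) (by decide +kernel)
              (CovZ.subM 206297366528 (by decide +kernel)
               (CovZ.n2 (2120, 1880) (by decide +kernel)
                (CovZ.n2 (2120, 1840) (by decide +kernel)
                 (CovZ.n2 (2100, 1860) (by decide +kernel)
                  (CovZ.leaf K2_ok TP_l1093 _)
                  (CovZ.leaf K2_ok TP_l1094 _))
                 (CovZ.n1 (2140, 1860) (by decide +kernel)
                  (CovZ.leaf K2_ok TP_l1095 _)
                  (CovZ.leaf K2_ok TP_l1096 _)))
                (CovZ.n1 (2080, 1880) (by decide +kernel)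
                 (CovZ.leaf K2_ok TP_l6584 _)
                 (CovZ.n1 (2100, 1860) (by decide +kernel)
                  (CovZ.leaf K2_ok TP_l1097 _)
                  (CovZ.leaf K2_ok TP_l1098 _)))))
              (CovZ.n1 (2120, 1800) (by decide +kernel)
               (CovZ.n2 (2080, 1800) (by decide +kernel)
                (CovZ.n2 (2100, 1820) (by decide +kernel)
                 (CovZ.leaf K2_ok TP_l1099 _)
                 (CovZ.leaf K2_ok TP_l1100 _))
                (CovZ.n1 (2100, 1780) (by decide +kernel)
                 (CovZ.leaf K2_ok TP_l1101 _)
                 (CovZ.leaf K2_ok TP_l1102 _)))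
               (CovZ.n1 (2120, 1840) (by decide +kernel)
                (CovZ.n2 (2140, 1820) (by decide +kernel)
                 (CovZ.leaf K2_ok TP_l1103 _)
                 (CovZ.leaf K2_ok TP_l1104 _))
                (CovZ.n1 (2100, 1820) (by decide +kernel)
                 (CovZ.leaf K2_ok TP_l1105 _)
                 (CovZ.n1 (2120, 1820) (by decide +kernel)
                  (CovZ.leaf K2_ok TP_l1106 _)
                  (CovZ.leaf K2_ok TP_l1107 _))))))
             (CovZ.subM 206297366528 (by decide +kernel)
              (CovZ.n1 (2160, 1920) (by decide +kernel)
               (CovZ.n2 (2200, 1880) (by decide +kernel)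
                (CovZ.n2 (2160, 1880) (by decide +kernel)
                 (CovZ.n2 (2180, 1900) (by decide +kernel)
                  (CovZ.leaf K2_ok TP_l6585 _)
                  (CovZ.leaf K2_ok TP_l6586 _))
                 (CovZ.n1 (2180, 1860) (by decide +kernel)
                  (CovZ.n2 (2160, 1860) (by decide +kernel)
                   (CovZ.leaf K2_ok TP_l1108 _)
                   (CovZ.leaf K2_ok TP_l1109 _))
                  (CovZ.leaf K2_ok TP_l1110 _)))
                (CovZ.n1 (2200, 1920) (by decide +kernel)
                 (CovZ.n2 (2220, 1900) (by decide +kernel)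
                  (CovZ.n2 (2200, 1900) (by decide +kernel)
                   (CovZ.leaf K2_ok TP_l6587 _)
                   (CovZ.n1 (2210, 1890) (by decide +kernel)
                    (CovZ.leaf K2_ok TP_l6588 _)
                    (CovZ.leaf K2_ok TP_l6589 _)))
                  (CovZ.n1 (2220, 1920) (by decide +kernel)
                   (CovZ.leaf K2_ok TP_l6590 _)
                   (CovZ.leaf K2_ok TP_l6591 _)))
                 (CovZ.n1 (2180, 1900) (by decide +kernel)
                  (CovZ.leaf K2_ok TP_l6592 _)
                  (CovZ.n1 (2200, 1900) (by decide +kernel)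
                   (CovZ.leaf K2_ok TP_l6593 _)
                   (CovZ.leaf K2_ok TP_l6594 _)))))
               (CovZ.n1 (2120, 1880) (by decide +kernel)
                (CovZ.n2 (2120, 1920) (by decide +kernel)
                 (CovZ.n2 (2140, 1900) (by decide +kernel)
                  (CovZ.leaf K2_ok TP_l6595 _)
                  (CovZ.leaf K2_ok TP_l6596 _))
                 (CovZ.n1 (2100, 1900) (by decide +kernel)
                  (CovZ.leaf K2_ok TP_l6597 _)
                  (CovZ.leaf K2_ok TP_l6598 _)))
                (CovZ.n1 (2160, 1880) (by decide +kernel)
                 (CovZ.n2 (2140, 1860) (by decide +kernel)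
                  (CovZ.leaf K2_ok TP_l1111 _)
                  (CovZ.n1 (2160, 1860) (by decide +kernel)
                   (CovZ.leaf K2_ok TP_l1112 _)
                   (CovZ.leaf K2_ok TP_l1113 _)))
                 (CovZ.n1 (2140, 1900) (by decide +kernel)
                  (CovZ.leaf K2_ok TP_l6599 _)
                  (CovZ.leaf K2_ok TP_l6600 _)))))))
            (CovZ.n1 (2000, 1840) (by decide +kernel)
             (CovZ.subM 138936320 (by decide +kernel)
              (CovZ.n2 (2000, 1920) (by decide +kernel)
               (CovZ.n2 (2040, 1880) (by decide +kernel)
                (CovZ.n2 (2000, 1880) (by decide +kernel)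
                 (CovZ.n2 (2020, 1900) (by decide +kernel)
                  (CovZ.leaf K2_ok TP_l6601 _)
                  (CovZ.leaf K2_ok TP_l6602 _))
                 (CovZ.n1 (2020, 1860) (by decide +kernel)
                  (CovZ.leaf K2_ok TP_l1114 _)
                  (CovZ.leaf K2_ok TP_l1115 _)))
                (CovZ.n1 (2040, 1920) (by decide +kernel)
                 (CovZ.n2 (2060, 1900) (by decide +kernel)
                  (CovZ.leaf K2_ok TP_l6603 _)
                  (CovZ.leaf K2_ok TP_l6604 _))
                 (CovZ.n1 (2020, 1900) (by decide +kernel)
                  (CovZ.n2 (2020, 1920) (by decide +kernel)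
                   (CovZ.leaf K2_ok TP_l6605 _)
                   (CovZ.leaf K2_ok TP_l6606 _))
                  (CovZ.leaf K2_ok TP_l6607 _))))
               (CovZ.n1 (1960, 1880) (by decide +kernel)
                (CovZ.n2 (1960, 1920) (by decide +kernel)
                 (CovZ.n2 (1980, 1900) (by decide +kernel)
                  (CovZ.n2 (1960, 1900) (by decide +kernel)
                   (CovZ.leaf K2_ok TP_l6608 _)
                   (CovZ.leaf K2_ok TP_l6609 _))
                  (CovZ.n1 (1980, 1920) (by decide +kernel)
                   (CovZ.leaf K2_ok TP_l6610 _)
                   (CovZ.leaf K2_ok TP_l6611 _)))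
                 (CovZ.n1 (1940, 1900) (by decide +kernel)
                  (CovZ.n2 (1940, 1920) (by decide +kernel)
                   (CovZ.n2 (1950, 1910) (by decide +kernel)
                    (CovZ.leaf K2_ok TP_l6612 _)
                    (CovZ.n1 (1950, 1920) (by decide +kernel)
                     (CovZ.leaf K2_ok TP_l6613 _)
                     (CovZ.badM (by decide +kernel))))
                   (CovZ.n1 (1930, 1910) (by decide +kernel)
                    (CovZ.badM (by decide +kernel))
                    (CovZ.leaf K2_ok TP_l6614 _)))
                  (CovZ.n1 (1960, 1900) (by decide +kernel)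
                   (CovZ.leaf K2_ok TP_l6615 _)
                   (CovZ.n1 (1950, 1910) (by decide +kernel)
                    (CovZ.leaf K2_ok TP_l6616 _)
                    (CovZ.leaf K2_ok TP_l6617 _)))))
                (CovZ.n1 (2000, 1880) (by decide +kernel)
                 (CovZ.n2 (1980, 1860) (by decide +kernel)
                  (CovZ.leaf K2_ok TP_l1116 _)
                  (CovZ.leaf K2_ok TP_l1117 _))
                 (CovZ.n1 (1980, 1900) (by decide +kernel)
                  (CovZ.n2 (2000, 1900) (by decide +kernel)
                   (CovZ.leaf K2_ok TP_l6618 _)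
                   (CovZ.leaf K2_ok TP_l6619 _))
                  (CovZ.leaf K2_ok TP_l6620 _))))))
             (CovZ.n1 (2080, 1840) (by decide +kernel)
              (CovZ.n2 (2040, 1800) (by decide +kernel)
               (CovZ.n2 (2040, 1840) (by decide +kernel)
                (CovZ.leaf K2_ok TP_l1118 _)
                (CovZ.leaf K2_ok TP_l1119 _))
               (CovZ.n1 (2080, 1800) (by decide +kernel)
                (CovZ.n2 (2060, 1780) (by decide +kernel)
                 (CovZ.leaf K2_ok TP_l1120 _)
                 (CovZ.leaf K2_ok TP_l1121 _))
                (CovZ.n1 (2060, 1820) (by decide +kernel)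
                 (CovZ.leaf K2_ok TP_l1122 _)
                 (CovZ.leaf K2_ok TP_l1123 _))))
              (CovZ.subM 138936320 (by decide +kernel)
               (CovZ.n1 (2040, 1880) (by decide +kernel)
                (CovZ.n2 (2080, 1880) (by decide +kernel)
                 (CovZ.n2 (2060, 1860) (by decide +kernel)
                  (CovZ.leaf K2_ok TP_l1124 _)
                  (CovZ.leaf K2_ok TP_l1125 _))
                 (CovZ.n1 (2060, 1900) (by decide +kernel)
                  (CovZ.leaf K2_ok TP_l6621 _)
                  (CovZ.leaf K2_ok TP_l6622 _)))
                (CovZ.n1 (2040, 1840) (by decide +kernel)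
                 (CovZ.n2 (2020, 1860) (by decide +kernel)
                  (CovZ.leaf K2_ok TP_l1126 _)
                  (CovZ.leaf K2_ok TP_l1127 _))
                 (CovZ.leaf K2_ok TP_l1128 _))))))))
          (CovZ.n1 (2240, 1760) (by decide +kernel)
           TP_u6
           TP_u7))

theorem TP_u10 : CovZ TP_M (toL (selN TP_LN 206296842240)) [0, 7, 2, 5] (1920, 1920) (2080, 1920) (2080, 2080) :=
    (CovZ.n2 (2000, 2000) (by decide +kernel)
             (CovZ.n2 (2080, 2000) (by decide +kernel)
              (CovZ.n2 (2040, 1960) (by decide +kernel)
               (CovZ.n2 (2040, 2000) (by decide +kernel)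
                (CovZ.n2 (2060, 1980) (by decide +kernel)
                 (CovZ.n2 (2040, 1980) (by decide +kernel)
                  (CovZ.badM (by decide +kernel))
                  (CovZ.n1 (2050, 1970) (by decide +kernel)
                   (CovZ.n2 (2040, 1970) (by decide +kernel)
                    (CovZ.badM (by decide +kernel))
                    (CovZ.leaf K2_ok TP_l6725 _))
                   (CovZ.badM (by decide +kernel))))
                 (CovZ.badM (by decide +kernel)))
                (CovZ.n1 (2020, 1980) (by decide +kernel)
                 (CovZ.badM (by decide +kernel))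
                 (CovZ.n1 (2040, 1980) (by decide +kernel)
                  (CovZ.n2 (2030, 1970) (by decide +kernel)
                   (CovZ.badM (by decide +kernel))
                   (CovZ.n1 (2040, 1970) (by decide +kernel)
                    (CovZ.n2 (2035, 1965) (by decide +kernel)
                     (CovZ.leaf K2_ok TP_l6726 _)
                     (CovZ.leaf K2_ok TP_l6727 _))
                    (CovZ.badM (by decide +kernel))))
                  (CovZ.badM (by decide +kernel)))))
               (CovZ.n1 (2080, 1960) (by decide +kernel)
                (CovZ.n2 (2060, 1940) (by decide +kernel)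
                 (CovZ.n2 (2060, 1960) (by decide +kernel)
                  (CovZ.leaf K2_ok TP_l6728 _)
                  (CovZ.n1 (2050, 1950) (by decide +kernel)
                   (CovZ.leaf K2_ok TP_l6729 _)
                   (CovZ.leaf K2_ok TP_l6730 _)))
                 (CovZ.n1 (2080, 1940) (by decide +kernel)
                  (CovZ.leaf K2_ok TP_l6731 _)
                  (CovZ.leaf K2_ok TP_l6732 _)))
                (CovZ.n1 (2060, 1980) (by decide +kernel)
                 (CovZ.n2 (2080, 1980) (by decide +kernel)
                  (CovZ.n2 (2070, 1970) (by decide +kernel)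
                   (CovZ.badM (by decide +kernel))
                   (CovZ.leaf K2_ok TP_l6733 _))
                  (CovZ.badM (by decide +kernel)))
                 (CovZ.n1 (2060, 1960) (by decide +kernel)
                  (CovZ.n2 (2050, 1970) (by decide +kernel)
                   (CovZ.n2 (2060, 1970) (by decide +kernel)
                    (CovZ.leaf K2_ok TP_l6734 _)
                    (CovZ.badM (by decide +kernel)))
                   (CovZ.n1 (2050, 1960) (by decide +kernel)
                    (CovZ.leaf K2_ok TP_l6735 _)
                    (CovZ.leaf K2_ok TP_l6736 _)))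
                  (CovZ.n1 (2070, 1970) (by decide +kernel)
                   (CovZ.leaf K2_ok TP_l6737 _)
                   (CovZ.n1 (2060, 1970) (by decide +kernel)
                    (CovZ.badM (by decide +kernel))
                    (CovZ.leaf K2_ok TP_l6738 _)))))))
              (CovZ.badM (by decide +kernel)))
             (CovZ.n1 (2000, 1920) (by decide +kernel)
              (CovZ.n2 (1960, 1960) (by decide +kernel)
               (CovZ.n2 (2000, 1960) (by decide +kernel)
                (CovZ.n2 (1980, 1940) (by decide +kernel)
                 (CovZ.n2 (1980, 1960) (by decide +kernel)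
                  (CovZ.n2 (1990, 1950) (by decide +kernel)
                   (CovZ.badM (by decide +kernel))
                   (CovZ.n1 (1990, 1960) (by decide +kernel)
                    (CovZ.leaf K2_ok TP_l6739 _)
                    (CovZ.badM (by decide +kernel))))
                  (CovZ.badM (by decide +kernel)))
                 (CovZ.n1 (2000, 1940) (by decide +kernel)
                  (CovZ.leaf K2_ok TP_l6740 _)
                  (CovZ.n1 (1990, 1950) (by decide +kernel)
                   (CovZ.leaf K2_ok TP_l6741 _)
                   (CovZ.leaf K2_ok TP_l6742 _))))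
                (CovZ.n1 (1980, 1980) (by decide +kernel)
                 (CovZ.n2 (2000, 1980) (by decide +kernel)
                  (CovZ.n2 (1990, 1970) (by decide +kernel)
                   (CovZ.badM (by decide +kernel))
                   (CovZ.n1 (2000, 1970) (by decide +kernel)
                    (CovZ.n2 (1995, 1965) (by decide +kernel)
                     (CovZ.leaf K2_ok TP_l6743 _)
                     (CovZ.n1 (2000, 1965) (by decide +kernel)
                      (CovZ.leaf K2_ok TP_l6744 _)
                      (CovZ.leaf K2_ok TP_l6745 _)))
                    (CovZ.badM (by decide +kernel))))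
                  (CovZ.badM (by decide +kernel)))
                 (CovZ.n1 (1980, 1960) (by decide +kernel)
                  (CovZ.badM (by decide +kernel))
                  (CovZ.n1 (1990, 1970) (by decide +kernel)
                   (CovZ.n2 (1990, 1960) (by decide +kernel)
                    (CovZ.badM (by decide +kernel))
                    (CovZ.n1 (1995, 1965) (by decide +kernel)
                     (CovZ.leaf K2_ok TP_l6746 _)
                     (CovZ.badM (by decide +kernel))))
                   (CovZ.badM (by decide +kernel))))))
               (CovZ.n1 (1960, 1920) (by decide +kernel)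
                (CovZ.n2 (1940, 1940) (by decide +kernel)
                 (CovZ.n2 (1960, 1940) (by decide +kernel)
                  (CovZ.n2 (1950, 1930) (by decide +kernel)
                   (CovZ.n2 (1950, 1940) (by decide +kernel)
                    (CovZ.leaf K2_ok TP_l6747 _)
                    (CovZ.badM (by decide +kernel)))
                   (CovZ.n1 (1960, 1930) (by decide +kernel)
                    (CovZ.leaf K2_ok TP_l6748 _)
                    (CovZ.leaf K2_ok TP_l6749 _)))
                  (CovZ.badM (by decide +kernel)))
                 (CovZ.n1 (1940, 1920) (by decide +kernel)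
                  (CovZ.badM (by decide +kernel))
                  (CovZ.n1 (1950, 1930) (by decide +kernel)
                   (CovZ.leaf K2_ok TP_l6750 _)
                   (CovZ.badM (by decide +kernel)))))
                (CovZ.n1 (1980, 1940) (by decide +kernel)
                 (CovZ.n2 (1980, 1920) (by decide +kernel)
                  (CovZ.n2 (1970, 1930) (by decide +kernel)
                   (CovZ.leaf K2_ok TP_l6751 _)
                   (CovZ.leaf K2_ok TP_l6752 _))
                  (CovZ.leaf K2_ok TP_l6753 _))
                 (CovZ.n1 (1960, 1940) (by decide +kernel)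
                  (CovZ.badM (by decide +kernel))
                  (CovZ.n1 (1970, 1930) (by decide +kernel)
                   (CovZ.leaf K2_ok TP_l6754 _)
                   (CovZ.leaf K2_ok TP_l6755 _))))))
              (CovZ.n1 (2040, 1960) (by decide +kernel)
               (CovZ.n2 (2040, 1920) (by decide +kernel)
                (CovZ.n2 (2020, 1940) (by decide +kernel)
                 (CovZ.n2 (2040, 1940) (by decide +kernel)
                  (CovZ.leaf K2_ok TP_l6756 _)
                  (CovZ.n1 (2030, 1950) (by decide +kernel)
                   (CovZ.leaf K2_ok TP_l6757 _)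
                   (CovZ.leaf K2_ok TP_l6758 _)))
                 (CovZ.n1 (2020, 1920) (by decide +kernel)
                  (CovZ.n2 (2010, 1930) (by decide +kernel)
                   (CovZ.leaf K2_ok TP_l6759 _)
                   (CovZ.leaf K2_ok TP_l6760 _))
                  (CovZ.leaf K2_ok TP_l6761 _)))
                (CovZ.n1 (2060, 1940) (by decide +kernel)
                 (CovZ.leaf K2_ok TP_l6762 _)
                 (CovZ.n1 (2040, 1940) (by decide +kernel)
                  (CovZ.leaf K2_ok TP_l6763 _)
                  (CovZ.leaf K2_ok TP_l6764 _))))
               (CovZ.n1 (2000, 1960) (by decide +kernel)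
                (CovZ.n2 (2020, 1980) (by decide +kernel)
                 (CovZ.n2 (2020, 1960) (by decide +kernel)
                  (CovZ.n2 (2010, 1970) (by decide +kernel)
                   (CovZ.n2 (2020, 1970) (by decide +kernel)
                    (CovZ.n2 (2015, 1965) (by decide +kernel)
                     (CovZ.leaf K2_ok TP_l6765 _)
                     (CovZ.n1 (2020, 1965) (by decide +kernel)
                      (CovZ.leaf K2_ok TP_l6766 _)
                      (CovZ.leaf K2_ok TP_l6767 _)))
                    (CovZ.badM (by decide +kernel)))
                   (CovZ.n1 (2010, 1960) (by decide +kernel)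
                    (CovZ.n2 (2005, 1965) (by decide +kernel)
                     (CovZ.n2 (2010, 1965) (by decide +kernel)
                      (CovZ.leaf K2_ok TP_l6768 _)
                      (CovZ.leaf K2_ok TP_l6769 _))
                     (CovZ.leaf K2_ok TP_l6770 _))
                    (CovZ.n1 (2015, 1965) (by decide +kernel)
                     (CovZ.leaf K2_ok TP_l6771 _)
                     (CovZ.leaf K2_ok TP_l6772 _))))
                  (CovZ.n1 (2030, 1970) (by decide +kernel)
                   (CovZ.n2 (2030, 1960) (by decide +kernel)
                    (CovZ.n2 (2025, 1965) (by decide +kernel)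
                     (CovZ.leaf K2_ok TP_l6773 _)
                     (CovZ.leaf K2_ok TP_l6774 _))
                    (CovZ.leaf K2_ok TP_l6775 _))
                   (CovZ.n1 (2020, 1970) (by decide +kernel)
                    (CovZ.badM (by decide +kernel))
                    (CovZ.n1 (2025, 1965) (by decide +kernel)
                     (CovZ.n2 (2020, 1965) (by decide +kernel)
                      (CovZ.leaf K2_ok TP_l6776 _)
                      (CovZ.leaf K2_ok TP_l6777 _))
                     (CovZ.leaf K2_ok TP_l6778 _)))))
                 (CovZ.n1 (2000, 1980) (by decide +kernel)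
                  (CovZ.badM (by decide +kernel))
                  (CovZ.n1 (2010, 1970) (by decide +kernel)
                   (CovZ.n2 (2000, 1970) (by decide +kernel)
                    (CovZ.badM (by decide +kernel))
                    (CovZ.n1 (2005, 1965) (by decide +kernel)
                     (CovZ.n2 (2000, 1965) (by decide +kernel)
                      (CovZ.leaf K2_ok TP_l6779 _)
                      (CovZ.leaf K2_ok TP_l6780 _))
                     (CovZ.leaf K2_ok TP_l6781 _)))
                   (CovZ.badM (by decide +kernel)))))
                (CovZ.n1 (2020, 1940) (by decide +kernel)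
                 (CovZ.n2 (2000, 1940) (by decide +kernel)
                  (CovZ.n2 (2010, 1950) (by decide +kernel)
                   (CovZ.leaf K2_ok TP_l6782 _)
                   (CovZ.leaf K2_ok TP_l6783 _))
                  (CovZ.n1 (2010, 1930) (by decide +kernel)
                   (CovZ.leaf K2_ok TP_l6784 _)
                   (CovZ.leaf K2_ok TP_l6785 _)))
                 (CovZ.n1 (2020, 1960) (by decide +kernel)
                  (CovZ.n2 (2030, 1950) (by decide +kernel)
                   (CovZ.leaf K2_ok TP_l6786 _)
                   (CovZ.leaf K2_ok TP_l6787 _))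
                  (CovZ.n1 (2010, 1950) (by decide +kernel)
                   (CovZ.n2 (2010, 1960) (by decide +kernel)
                    (CovZ.leaf K2_ok TP_l6788 _)
                    (CovZ.leaf K2_ok TP_l6789 _))
                   (CovZ.leaf K2_ok TP_l6790 _))))))))

theorem TP_u11 : CovZ TP_M (toL (selN TP_LN 206296842240)) [0, 7, 2, 5] (2080, 1920) (2240, 1920) (2080, 2080) :=
    (CovZ.n1 (2160, 2000) (by decide +kernel)
             (CovZ.n2 (2160, 1920) (by decide +kernel)
              (CovZ.n2 (2120, 1960) (by decide +kernel)
               (CovZ.n2 (2160, 1960) (by decide +kernel)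
                (CovZ.n2 (2140, 1940) (by decide +kernel)
                 (CovZ.n2 (2140, 1960) (by decide +kernel)
                  (CovZ.leaf K2_ok TP_l6791 _)
                  (CovZ.leaf K2_ok TP_l6792 _))
                 (CovZ.n1 (2160, 1940) (by decide +kernel)
                  (CovZ.leaf K2_ok TP_l6793 _)
                  (CovZ.leaf K2_ok TP_l6794 _)))
                (CovZ.n1 (2140, 1980) (by decide +kernel)
                 (CovZ.n2 (2160, 1980) (by decide +kernel)
                  (CovZ.leaf K2_ok TP_l6795 _)
                  (CovZ.n1 (2150, 1990) (by decide +kernel)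
                   (CovZ.leaf K2_ok TP_l6796 _)
                   (CovZ.leaf K2_ok TP_l6797 _)))
                 (CovZ.n1 (2140, 1960) (by decide +kernel)
                  (CovZ.n2 (2130, 1970) (by decide +kernel)
                   (CovZ.leaf K2_ok TP_l6798 _)
                   (CovZ.leaf K2_ok TP_l6799 _))
                  (CovZ.leaf K2_ok TP_l6800 _))))
               (CovZ.n1 (2120, 1920) (by decide +kernel)
                (CovZ.n2 (2100, 1940) (by decide +kernel)
                 (CovZ.n2 (2120, 1940) (by decide +kernel)
                  (CovZ.leaf K2_ok TP_l6801 _)
                  (CovZ.leaf K2_ok TP_l6802 _))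
                 (CovZ.leaf K2_ok TP_l6803 _))
                (CovZ.n1 (2140, 1940) (by decide +kernel)
                 (CovZ.leaf K2_ok TP_l6804 _)
                 (CovZ.n1 (2120, 1940) (by decide +kernel)
                  (CovZ.leaf K2_ok TP_l6805 _)
                  (CovZ.leaf K2_ok TP_l6806 _)))))
              (CovZ.n1 (2200, 1960) (by decide +kernel)
               (CovZ.n2 (2200, 1920) (by decide +kernel)
                (CovZ.n2 (2180, 1940) (by decide +kernel)
                 (CovZ.n2 (2200, 1940) (by decide +kernel)
                  (CovZ.leaf K2_ok TP_l6807 _)
                  (CovZ.leaf K2_ok TP_l6808 _))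
                 (CovZ.leaf K2_ok TP_l6809 _))
                (CovZ.n1 (2220, 1940) (by decide +kernel)
                 (CovZ.n2 (2220, 1920) (by decide +kernel)
                  (CovZ.leaf K2_ok TP_l6810 _)
                  (CovZ.leaf K2_ok TP_l6811 _))
                 (CovZ.n1 (2200, 1940) (by decide +kernel)
                  (CovZ.leaf K2_ok TP_l6812 _)
                  (CovZ.leaf K2_ok TP_l6813 _))))
               (CovZ.n1 (2160, 1960) (by decide +kernel)
                (CovZ.n2 (2180, 1980) (by decide +kernel)
                 (CovZ.n2 (2180, 1960) (by decide +kernel)
                  (CovZ.leaf K2_ok TP_l6814 _)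
                  (CovZ.leaf K2_ok TP_l6815 _))
                 (CovZ.n1 (2160, 1980) (by decide +kernel)
                  (CovZ.leaf K2_ok TP_l6816 _)
                  (CovZ.leaf K2_ok TP_l6817 _)))
                (CovZ.n1 (2180, 1940) (by decide +kernel)
                 (CovZ.n2 (2160, 1940) (by decide +kernel)
                  (CovZ.leaf K2_ok TP_l6818 _)
                  (CovZ.leaf K2_ok TP_l6819 _))
                 (CovZ.n1 (2180, 1960) (by decide +kernel)
                  (CovZ.leaf K2_ok TP_l6820 _)
                  (CovZ.leaf K2_ok TP_l6821 _))))))
             (CovZ.n1 (2080, 2000) (by decide +kernel)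
              (CovZ.n2 (2120, 2040) (by decide +kernel)
               (CovZ.n2 (2120, 2000) (by decide +kernel)
                (CovZ.n2 (2100, 2020) (by decide +kernel)
                 (CovZ.n2 (2120, 2020) (by decide +kernel)
                  (CovZ.n2 (2110, 2010) (by decide +kernel)
                   (CovZ.badM (by decide +kernel))
                   (CovZ.n1 (2120, 2010) (by decide +kernel)
                    (CovZ.leaf K2_ok TP_l6822 _)
                    (CovZ.badM (by decide +kernel))))
                  (CovZ.badM (by decide +kernel)))
                 (CovZ.n1 (2100, 2000) (by decide +kernel)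
                  (CovZ.n2 (2090, 2010) (by decide +kernel)
                   (CovZ.n2 (2100, 2010) (by decide +kernel)
                    (CovZ.n2 (2095, 2005) (by decide +kernel)
                     (CovZ.badM (by decide +kernel))
                     (CovZ.leaf K2_ok TP_l6823 _))
                    (CovZ.badM (by decide +kernel)))
                   (CovZ.n1 (2090, 2000) (by decide +kernel)
                    (CovZ.badM (by decide +kernel))
                    (CovZ.n1 (2095, 2005) (by decide +kernel)
                     (CovZ.leaf K2_ok TP_l6824 _)
                     (CovZ.badM (by decide +kernel)))))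
                  (CovZ.n1 (2110, 2010) (by decide +kernel)
                   (CovZ.n2 (2110, 2000) (by decide +kernel)
                    (CovZ.leaf K2_ok TP_l6825 _)
                    (CovZ.leaf K2_ok TP_l6826 _))
                   (CovZ.n1 (2100, 2010) (by decide +kernel)
                    (CovZ.badM (by decide +kernel))
                    (CovZ.leaf K2_ok TP_l6827 _)))))
                (CovZ.n1 (2140, 2020) (by decide +kernel)
                 (CovZ.n2 (2140, 2000) (by decide +kernel)
                  (CovZ.n2 (2130, 2010) (by decide +kernel)
                   (CovZ.n2 (2140, 2010) (by decide +kernel)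
                    (CovZ.leaf K2_ok TP_l6828 _)
                    (CovZ.leaf K2_ok TP_l6829 _))
                   (CovZ.n1 (2130, 2000) (by decide +kernel)
                    (CovZ.leaf K2_ok TP_l6830 _)
                    (CovZ.leaf K2_ok TP_l6831 _)))
                  (CovZ.n1 (2150, 2010) (by decide +kernel)
                   (CovZ.leaf K2_ok TP_l6832 _)
                   (CovZ.n1 (2140, 2010) (by decide +kernel)
                    (CovZ.leaf K2_ok TP_l6833 _)
                    (CovZ.leaf K2_ok TP_l6834 _))))
                 (CovZ.n1 (2120, 2020) (by decide +kernel)
                  (CovZ.badM (by decide +kernel))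
                  (CovZ.n1 (2130, 2010) (by decide +kernel)
                   (CovZ.n2 (2120, 2010) (by decide +kernel)
                    (CovZ.n2 (2125, 2015) (by decide +kernel)
                     (CovZ.leaf K2_ok TP_l6835 _)
                     (CovZ.badM (by decide +kernel)))
                    (CovZ.leaf K2_ok TP_l6836 _))
                   (CovZ.n1 (2130, 2020) (by decide +kernel)
                    (CovZ.leaf K2_ok TP_l6837 _)
                    (CovZ.n1 (2125, 2015) (by decide +kernel)
                     (CovZ.n2 (2125, 2020) (by decide +kernel)
                      (CovZ.leaf K2_ok TP_l6838 _)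
                      (CovZ.badM (by decide +kernel)))
                     (CovZ.leaf K2_ok TP_l6839 _)))))))
               (CovZ.n1 (2080, 2040) (by decide +kernel)
                (CovZ.badM (by decide +kernel))
                (CovZ.n1 (2100, 2020) (by decide +kernel)
                 (CovZ.n2 (2080, 2020) (by decide +kernel)
                  (CovZ.badM (by decide +kernel))
                  (CovZ.n1 (2090, 2010) (by decide +kernel)
                   (CovZ.badM (by decide +kernel))
                   (CovZ.badM (by decide +kernel))))
                 (CovZ.badM (by decide +kernel)))))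
              (CovZ.n1 (2120, 1960) (by decide +kernel)
               (CovZ.n2 (2080, 1960) (by decide +kernel)
                (CovZ.n2 (2100, 1980) (by decide +kernel)
                 (CovZ.n2 (2100, 1960) (by decide +kernel)
                  (CovZ.n2 (2090, 1970) (by decide +kernel)
                   (CovZ.leaf K2_ok TP_l6840 _)
                   (CovZ.leaf K2_ok TP_l6841 _))
                  (CovZ.leaf K2_ok TP_l6842 _))
                 (CovZ.n1 (2080, 1980) (by decide +kernel)
                  (CovZ.n2 (2090, 1990) (by decide +kernel)
                   (CovZ.n2 (2090, 1980) (by decide +kernel)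
                    (CovZ.badM (by decide +kernel))
                    (CovZ.leaf K2_ok TP_l6843 _))
                   (CovZ.badM (by decide +kernel)))
                  (CovZ.n1 (2090, 1970) (by decide +kernel)
                   (CovZ.leaf K2_ok TP_l6844 _)
                   (CovZ.leaf K2_ok TP_l6845 _))))
                (CovZ.n1 (2100, 1940) (by decide +kernel)
                 (CovZ.n2 (2080, 1940) (by decide +kernel)
                  (CovZ.leaf K2_ok TP_l6846 _)
                  (CovZ.leaf K2_ok TP_l6847 _))
                 (CovZ.n1 (2100, 1960) (by decide +kernel)
                  (CovZ.leaf K2_ok TP_l6848 _)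
                  (CovZ.leaf K2_ok TP_l6849 _))))
               (CovZ.n1 (2120, 2000) (by decide +kernel)
                (CovZ.n2 (2140, 1980) (by decide +kernel)
                 (CovZ.n2 (2120, 1980) (by decide +kernel)
                  (CovZ.n2 (2130, 1990) (by decide +kernel)
                   (CovZ.n2 (2130, 1980) (by decide +kernel)
                    (CovZ.leaf K2_ok TP_l6850 _)
                    (CovZ.leaf K2_ok TP_l6851 _))
                   (CovZ.n1 (2120, 1990) (by decide +kernel)
                    (CovZ.leaf K2_ok TP_l6852 _)
                    (CovZ.leaf K2_ok TP_l6853 _)))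
                  (CovZ.n1 (2130, 1970) (by decide +kernel)
                   (CovZ.leaf K2_ok TP_l6854 _)
                   (CovZ.leaf K2_ok TP_l6855 _)))
                 (CovZ.n1 (2140, 2000) (by decide +kernel)
                  (CovZ.n2 (2150, 1990) (by decide +kernel)
                   (CovZ.leaf K2_ok TP_l6856 _)
                   (CovZ.leaf K2_ok TP_l6857 _))
                  (CovZ.n1 (2130, 1990) (by decide +kernel)
                   (CovZ.leaf K2_ok TP_l6858 _)
                   (CovZ.leaf K2_ok TP_l6859 _))))
                (CovZ.n1 (2100, 1980) (by decide +kernel)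
                 (CovZ.n2 (2100, 2000) (by decide +kernel)
                  (CovZ.n2 (2110, 1990) (by decide +kernel)
                   (CovZ.n2 (2100, 1990) (by decide +kernel)
                    (CovZ.leaf K2_ok TP_l6860 _)
                    (CovZ.leaf K2_ok TP_l6861 _))
                   (CovZ.n1 (2110, 2000) (by decide +kernel)
                    (CovZ.leaf K2_ok TP_l6862 _)
                    (CovZ.leaf K2_ok TP_l6863 _)))
                  (CovZ.n1 (2090, 1990) (by decide +kernel)
                   (CovZ.n2 (2090, 2000) (by decide +kernel)
                    (CovZ.leaf K2_ok TP_l6864 _)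
                    (CovZ.badM (by decide +kernel)))
                   (CovZ.n1 (2100, 1990) (by decide +kernel)
                    (CovZ.leaf K2_ok TP_l6865 _)
                    (CovZ.leaf K2_ok TP_l6866 _))))
                 (CovZ.n1 (2120, 1980) (by decide +kernel)
                  (CovZ.n2 (2110, 1970) (by decide +kernel)
                   (CovZ.leaf K2_ok TP_l6867 _)
                   (CovZ.leaf K2_ok TP_l6868 _))
                  (CovZ.n1 (2110, 1990) (by decide +kernel)
                   (CovZ.leaf K2_ok TP_l6869 _)
                   (CovZ.leaf K2_ok TP_l6870 _))))))))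

theorem TP_u12 : CovZ TP_M (toL (selN TP_LN 83076749736708948079762983966307329)) [0, 7, 2, 5] (2560, 1280) (2560, 1920) (1920, 1920) :=
    (CovZ.n2 (2240, 1600) (by decide +kernel)
        (CovZ.n2 (2240, 1920) (by decide +kernel)
         TP_u8
         TP_u9)
        (CovZ.n1 (2560, 1600) (by decide +kernel)
         (CovZ.n2 (2400, 1440) (by decide +kernel)
          (CovZ.subM 83076749736708948079762777400434688 (by decide +kernel)
           (CovZ.n2 (2400, 1600) (by decide +kernel)
            (CovZ.n2 (2480, 1520) (by decide +kernel)
             (CovZ.leaf K2_ok TP_l1184 _)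
             (CovZ.n1 (2480, 1600) (by decide +kernel)
              (CovZ.leaf K2_ok TP_l1185 _)
              (CovZ.leaf K2_ok TP_l1186 _)))
            (CovZ.n1 (2320, 1520) (by decide +kernel)
             (CovZ.n2 (2320, 1600) (by decide +kernel)
              (CovZ.leaf K2_ok TP_l1187 _)
              (CovZ.n1 (2280, 1560) (by decide +kernel)
               (CovZ.leaf K2_ok TP_l1188 _)
               (CovZ.leaf K2_ok TP_l1189 _)))
             (CovZ.n1 (2400, 1520) (by decide +kernel)
              (CovZ.leaf K2_ok TP_l1190 _)
              (CovZ.leaf K2_ok TP_l1191 _)))))
          (CovZ.n1 (2560, 1440) (by decide +kernel)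
           (CovZ.leaf K2_ok TP_l1192 _)
           (CovZ.n1 (2480, 1520) (by decide +kernel)
            (CovZ.leaf K2_ok TP_l1193 _)
            (CovZ.leaf K2_ok TP_l1194 _))))
         (CovZ.subM 83076749736708948079752877500817408 (by decide +kernel)
          (CovZ.n1 (2400, 1760) (by decide +kernel)
           (CovZ.n2 (2560, 1760) (by decide +kernel)
            (CovZ.n2 (2480, 1680) (by decide +kernel)
             (CovZ.subM 83076749736708948079750128653574144 (by decide +kernel)
              (CovZ.n2 (2480, 1760) (by decide +kernel)
               (CovZ.n2 (2520, 1720) (by decide +kernel)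
                (CovZ.leaf K2_ok TP_l1195 _)
                (CovZ.n1 (2520, 1760) (by decide +kernel)
                 (CovZ.leaf K2_ok TP_l1196 _)
                 (CovZ.leaf K2_ok TP_l1197 _)))
               (CovZ.n1 (2440, 1720) (by decide +kernel)
                (CovZ.n2 (2440, 1760) (by decide +kernel)
                 (CovZ.leaf K2_ok TP_l1198 _)
                 (CovZ.n1 (2420, 1740) (by decide +kernel)
                  (CovZ.badM (by decide +kernel))
                  (CovZ.leaf K2_ok TP_l1201 _)))
                (CovZ.n1 (2480, 1720) (by decide +kernel)
                 (CovZ.leaf K2_ok TP_l1202 _)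
                 (CovZ.leaf K2_ok TP_l1203 _)))))
             (CovZ.n1 (2560, 1680) (by decide +kernel)
              (CovZ.leaf K2_ok TP_l1204 _)
              (CovZ.n1 (2520, 1720) (by decide +kernel)
               (CovZ.leaf K2_ok TP_l1205 _)
               (CovZ.n1 (2520, 1680) (by decide +kernel)
                (CovZ.leaf K2_ok TP_l1206 _)
                (CovZ.leaf K2_ok TP_l1207 _)))))
            (CovZ.subM 590295810358705651712 (by decide +kernel)
             (CovZ.n1 (2480, 1840) (by decide +kernel)
              (CovZ.n2 (2560, 1840) (by decide +kernel)
               (CovZ.n2 (2520, 1800) (by decide +kernel)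
                (CovZ.badM (by decide +kernel))
                (CovZ.n1 (2560, 1800) (by decide +kernel)
                 (CovZ.n2 (2540, 1780) (by decide +kernel)
                  (CovZ.leaf K2_ok TP_l1208 _)
                  (CovZ.leaf K2_ok TP_l1209 _))
                 (CovZ.badM (by decide +kernel))))
               (CovZ.badM (by decide +kernel)))
              (CovZ.n1 (2480, 1760) (by decide +kernel)
               (CovZ.n2 (2440, 1800) (by decide +kernel)
                (CovZ.n2 (2480, 1800) (by decide +kernel)
                 (CovZ.n2 (2460, 1780) (by decide +kernel)
                  (CovZ.n2 (2460, 1800) (by decide +kernel)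
                   (CovZ.leaf K2_ok TP_l1210 _)
                   (CovZ.leaf K2_ok TP_l1211 _))
                  (CovZ.n1 (2480, 1780) (by decide +kernel)
                   (CovZ.leaf K2_ok TP_l1212 _)
                   (CovZ.leaf K2_ok TP_l1213 _)))
                 (CovZ.badM (by decide +kernel)))
                (CovZ.n1 (2440, 1760) (by decide +kernel)
                 (CovZ.badM (by decide +kernel))
                 (CovZ.n1 (2460, 1780) (by decide +kernel)
                  (CovZ.n2 (2460, 1760) (by decide +kernel)
                   (CovZ.leaf K2_ok TP_l1214 _)
                   (CovZ.leaf K2_ok TP_l1215 _))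
                  (CovZ.n1 (2440, 1780) (by decide +kernel)
                   (CovZ.leaf K2_ok TP_l1216 _)
                   (CovZ.leaf K2_ok TP_l1217 _)))))
               (CovZ.n1 (2520, 1800) (by decide +kernel)
                (CovZ.n2 (2520, 1760) (by decide +kernel)
                 (CovZ.n2 (2500, 1780) (by decide +kernel)
                  (CovZ.leaf K2_ok TP_l1218 _)
                  (CovZ.leaf K2_ok TP_l1219 _))
                 (CovZ.n1 (2540, 1780) (by decide +kernel)
                  (CovZ.leaf K2_ok TP_l1220 _)
                  (CovZ.leaf K2_ok TP_l1221 _)))
                (CovZ.n1 (2480, 1800) (by decide +kernel)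
                 (CovZ.badM (by decide +kernel))
                 (CovZ.n1 (2500, 1780) (by decide +kernel)
                  (CovZ.leaf K2_ok TP_l1222 _)
                  (CovZ.n1 (2500, 1800) (by decide +kernel)
                   (CovZ.leaf K2_ok TP_l1223 _)
                   (CovZ.leaf K2_ok TP_l1224 _)))))))))
           (CovZ.n1 (2400, 1600) (by decide +kernel)
            (CovZ.n2 (2320, 1680) (by decide +kernel)
             (CovZ.n2 (2400, 1680) (by decide +kernel)
              (CovZ.n2 (2360, 1640) (by decide +kernel)
               (CovZ.n2 (2360, 1680) (by decide +kernel)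
                (CovZ.leaf K2_ok TP_l1225 _)
                (CovZ.leaf K2_ok TP_l1226 _))
               (CovZ.leaf K2_ok TP_l1227 _))
              (CovZ.subM 83076749736708357783939769947922432 (by decide +kernel)
               (CovZ.n1 (2360, 1720) (by decide +kernel)
                (CovZ.n2 (2400, 1720) (by decide +kernel)
                 (CovZ.leaf K2_ok TP_l1228 _)
                 (CovZ.n1 (2380, 1740) (by decide +kernel)
                  (CovZ.leaf K2_ok TP_l1229 _)
                  (CovZ.leaf K2_ok TP_l1230 _)))
                (CovZ.n1 (2360, 1680) (by decide +kernel)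
                 (CovZ.n2 (2340, 1700) (by decide +kernel)
                  (CovZ.leaf K2_ok TP_l1231 _)
                  (CovZ.leaf K2_ok TP_l1232 _))
                 (CovZ.leaf K2_ok TP_l1233 _)))))
             (CovZ.n1 (2320, 1600) (by decide +kernel)
              (CovZ.n2 (2280, 1640) (by decide +kernel)
               (CovZ.leaf K2_ok TP_l1234 _)
               (CovZ.n1 (2280, 1600) (by decide +kernel)
                (CovZ.leaf K2_ok TP_l1235 _)
                (CovZ.leaf K2_ok TP_l1236 _)))
              (CovZ.n1 (2360, 1640) (by decide +kernel)
               (CovZ.leaf K2_ok TP_l1237 _)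
               (CovZ.leaf K2_ok TP_l1238 _))))
            (CovZ.n1 (2480, 1680) (by decide +kernel)
             (CovZ.n2 (2480, 1600) (by decide +kernel)
              (CovZ.n2 (2440, 1640) (by decide +kernel)
               (CovZ.leaf K2_ok TP_l1239 _)
               (CovZ.leaf K2_ok TP_l1240 _))
              (CovZ.leaf K2_ok TP_l1241 _))
             (CovZ.n1 (2400, 1680) (by decide +kernel)
              (CovZ.subM 83076749736708948079750128653574144 (by decide +kernel)
               (CovZ.n2 (2440, 1720) (by decide +kernel)
                (CovZ.n2 (2440, 1680) (by decide +kernel)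
                 (CovZ.leaf K2_ok TP_l1242 _)
                 (CovZ.leaf K2_ok TP_l1243 _))
                (CovZ.n1 (2400, 1720) (by decide +kernel)
                 (CovZ.leaf K2_ok TP_l1244 _)
                 (CovZ.leaf K2_ok TP_l1245 _))))
              (CovZ.n1 (2440, 1640) (by decide +kernel)
               (CovZ.leaf K2_ok TP_l1246 _)
               (CovZ.n1 (2440, 1680) (by decide +kernel)
                (CovZ.leaf K2_ok TP_l1247 _)
                (CovZ.leaf K2_ok TP_l1248 _))))))))))

theorem TP_u13 : CovZ TP_M (toL (selN TP_LN 83076749736708948079762983966307329)) [0, 7, 2, 5] (2560, 1920) (2560, 2560) (1920, 1920) :=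
    (CovZ.subM 206296842240 (by decide +kernel)
        (CovZ.n1 (2240, 2240) (by decide +kernel)
         (CovZ.badM (by decide +kernel))
         (CovZ.n1 (2240, 1920) (by decide +kernel)
          (CovZ.n2 (2080, 2080) (by decide +kernel)
           (CovZ.n2 (2240, 2080) (by decide +kernel)
            (CovZ.n2 (2160, 2000) (by decide +kernel)
             (CovZ.n2 (2160, 2080) (by decide +kernel)
              (CovZ.n2 (2200, 2040) (by decide +kernel)
               (CovZ.n2 (2160, 2040) (by decide +kernel)
                (CovZ.badM (by decide +kernel))
                (CovZ.n1 (2180, 2020) (by decide +kernel)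
                 (CovZ.n2 (2160, 2020) (by decide +kernel)
                  (CovZ.badM (by decide +kernel))
                  (CovZ.n1 (2170, 2010) (by decide +kernel)
                   (CovZ.leaf K2_ok TP_l6687 _)
                   (CovZ.n1 (2170, 2020) (by decide +kernel)
                    (CovZ.leaf K2_ok TP_l6688 _)
                    (CovZ.leaf K2_ok TP_l6689 _))))
                 (CovZ.badM (by decide +kernel))))
               (CovZ.badM (by decide +kernel)))
              (CovZ.n1 (2120, 2040) (by decide +kernel)
               (CovZ.badM (by decide +kernel))
               (CovZ.n1 (2160, 2040) (by decide +kernel)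
                (CovZ.n2 (2140, 2020) (by decide +kernel)
                 (CovZ.badM (by decide +kernel))
                 (CovZ.n1 (2160, 2020) (by decide +kernel)
                  (CovZ.n2 (2150, 2010) (by decide +kernel)
                   (CovZ.n2 (2150, 2020) (by decide +kernel)
                    (CovZ.leaf K2_ok TP_l6690 _)
                    (CovZ.leaf K2_ok TP_l6691 _))
                   (CovZ.leaf K2_ok TP_l6692 _))
                  (CovZ.badM (by decide +kernel))))
                (CovZ.badM (by decide +kernel)))))
             (CovZ.n1 (2240, 2000) (by decide +kernel)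
              (CovZ.n2 (2200, 1960) (by decide +kernel)
               (CovZ.n2 (2200, 2000) (by decide +kernel)
                (CovZ.n2 (2220, 1980) (by decide +kernel)
                 (CovZ.n2 (2200, 1980) (by decide +kernel)
                  (CovZ.leaf K2_ok TP_l6693 _)
                  (CovZ.leaf K2_ok TP_l6694 _))
                 (CovZ.n1 (2220, 2000) (by decide +kernel)
                  (CovZ.n2 (2230, 1990) (by decide +kernel)
                   (CovZ.leaf K2_ok TP_l6695 _)
                   (CovZ.leaf K2_ok TP_l6696 _))
                  (CovZ.n1 (2210, 1990) (by decide +kernel)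
                   (CovZ.leaf K2_ok TP_l6697 _)
                   (CovZ.leaf K2_ok TP_l6698 _))))
                (CovZ.n1 (2180, 1980) (by decide +kernel)
                 (CovZ.n2 (2180, 2000) (by decide +kernel)
                  (CovZ.n2 (2190, 1990) (by decide +kernel)
                   (CovZ.leaf K2_ok TP_l6699 _)
                   (CovZ.leaf K2_ok TP_l6700 _))
                  (CovZ.n1 (2170, 1990) (by decide +kernel)
                   (CovZ.leaf K2_ok TP_l6701 _)
                   (CovZ.leaf K2_ok TP_l6702 _)))
                 (CovZ.n1 (2200, 1980) (by decide +kernel)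
                  (CovZ.leaf K2_ok TP_l6703 _)
                  (CovZ.n1 (2190, 1990) (by decide +kernel)
                   (CovZ.leaf K2_ok TP_l6704 _)
                   (CovZ.leaf K2_ok TP_l6705 _)))))
               (CovZ.n1 (2240, 1960) (by decide +kernel)
                (CovZ.n2 (2220, 1940) (by decide +kernel)
                 (CovZ.n2 (2220, 1960) (by decide +kernel)
                  (CovZ.leaf K2_ok TP_l6706 _)
                  (CovZ.leaf K2_ok TP_l6707 _))
                 (CovZ.n1 (2240, 1940) (by decide +kernel)
                  (CovZ.leaf K2_ok TP_l6708 _)
                  (CovZ.leaf K2_ok TP_l6709 _)))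
                (CovZ.n1 (2220, 1980) (by decide +kernel)
                 (CovZ.n2 (2240, 1980) (by decide +kernel)
                  (CovZ.leaf K2_ok TP_l6710 _)
                  (CovZ.n1 (2230, 1990) (by decide +kernel)
                   (CovZ.badM (by decide +kernel))
                   (CovZ.leaf K2_ok TP_l6711 _)))
                 (CovZ.n1 (2220, 1960) (by decide +kernel)
                  (CovZ.leaf K2_ok TP_l6712 _)
                  (CovZ.leaf K2_ok TP_l6713 _)))))
              (CovZ.n1 (2200, 2040) (by decide +kernel)
               (CovZ.n2 (2240, 2040) (by decide +kernel)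
                (CovZ.n2 (2220, 2020) (by decide +kernel)
                 (CovZ.badM (by decide +kernel))
                 (CovZ.n1 (2240, 2020) (by decide +kernel)
                  (CovZ.n2 (2230, 2010) (by decide +kernel)
                   (CovZ.leaf K2_ok TP_l6714 _)
                   (CovZ.badM (by decide +kernel)))
                  (CovZ.badM (by decide +kernel))))
                (CovZ.badM (by decide +kernel)))
               (CovZ.n1 (2200, 2000) (by decide +kernel)
                (CovZ.n2 (2180, 2020) (by decide +kernel)
                 (CovZ.n2 (2200, 2020) (by decide +kernel)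
                  (CovZ.n2 (2190, 2010) (by decide +kernel)
                   (CovZ.leaf K2_ok TP_l6715 _)
                   (CovZ.leaf K2_ok TP_l6716 _))
                  (CovZ.badM (by decide +kernel)))
                 (CovZ.n1 (2180, 2000) (by decide +kernel)
                  (CovZ.n2 (2170, 2010) (by decide +kernel)
                   (CovZ.leaf K2_ok TP_l6717 _)
                   (CovZ.leaf K2_ok TP_l6718 _))
                  (CovZ.leaf K2_ok TP_l6719 _)))
                (CovZ.n1 (2220, 2020) (by decide +kernel)
                 (CovZ.n2 (2220, 2000) (by decide +kernel)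
                  (CovZ.n2 (2210, 2010) (by decide +kernel)
                   (CovZ.leaf K2_ok TP_l6720 _)
                   (CovZ.leaf K2_ok TP_l6721 _))
                  (CovZ.leaf K2_ok TP_l6722 _))
                 (CovZ.n1 (2200, 2020) (by decide +kernel)
                  (CovZ.badM (by decide +kernel))
                  (CovZ.n1 (2210, 2010) (by decide +kernel)
                   (CovZ.leaf K2_ok TP_l6723 _)
                   (CovZ.leaf K2_ok TP_l6724 _))))))))
            (CovZ.badM (by decide +kernel)))
           (CovZ.n1 (2080, 1920) (by decide +kernel)
            TP_u10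
            TP_u11))
          (CovZ.badM (by decide +kernel)))))

theorem TP_u14 : CovZ TP_M (toL (selN TP_LN 83076749736708948079762983966307329)) [0, 7, 2, 5] (1920, 1920) (1600, 1600) (1920, 1280) :=
    (CovZ.n2 (1920, 1600) (by decide +kernel)
         (CovZ.n2 (1760, 1440) (by decide +kernel)
          (CovZ.n2 (1760, 1600) (by decide +kernel)
           (CovZ.n2 (1840, 1520) (by decide +kernel)
            (CovZ.n2 (1760, 1520) (by decide +kernel)
             (CovZ.n2 (1800, 1560) (by decide +kernel)
              (CovZ.leaf K2_ok TP_l1249 _)
              (CovZ.leaf K2_ok TP_l1250 _))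
             (CovZ.n1 (1800, 1480) (by decide +kernel)
              (CovZ.leaf K2_ok TP_l1251 _)
              (CovZ.leaf K2_ok TP_l1252 _)))
            (CovZ.n1 (1840, 1600) (by decide +kernel)
             (CovZ.n2 (1880, 1560) (by decide +kernel)
              (CovZ.n2 (1840, 1560) (by decide +kernel)
               (CovZ.leaf K2_ok TP_l1253 _)
               (CovZ.leaf K2_ok TP_l1254 _))
              (CovZ.n1 (1880, 1600) (by decide +kernel)
               (CovZ.leaf K2_ok TP_l1255 _)
               (CovZ.leaf K2_ok TP_l1256 _)))
             (CovZ.n1 (1800, 1560) (by decide +kernel)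
              (CovZ.leaf K2_ok TP_l1257 _)
              (CovZ.leaf K2_ok TP_l1258 _))))
           (CovZ.n1 (1680, 1520) (by decide +kernel)
            (CovZ.n2 (1680, 1600) (by decide +kernel)
             (CovZ.n2 (1720, 1560) (by decide +kernel)
              (CovZ.leaf K2_ok TP_l1259 _)
              (CovZ.leaf K2_ok TP_l1260 _))
             (CovZ.leaf K2_ok TP_l1261 _))
            (CovZ.n1 (1760, 1520) (by decide +kernel)
             (CovZ.n2 (1720, 1480) (by decide +kernel)
              (CovZ.leaf K2_ok TP_l1262 _)
              (CovZ.leaf K2_ok TP_l1263 _))
             (CovZ.n1 (1720, 1560) (by decide +kernel)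
              (CovZ.leaf K2_ok TP_l1264 _)
              (CovZ.leaf K2_ok TP_l1265 _)))))
          (CovZ.n1 (1920, 1440) (by decide +kernel)
           (CovZ.n2 (1840, 1360) (by decide +kernel)
            (CovZ.n2 (1840, 1440) (by decide +kernel)
             (CovZ.leaf K2_ok TP_l1266 _)
             (CovZ.n1 (1800, 1400) (by decide +kernel)
              (CovZ.leaf K2_ok TP_l1267 _)
              (CovZ.leaf K2_ok TP_l1268 _)))
            (CovZ.n1 (1920, 1360) (by decide +kernel)
             (CovZ.leaf K2_ok TP_l1269 _)
             (CovZ.leaf K2_ok TP_l1270 _)))
           (CovZ.n1 (1840, 1520) (by decide +kernel)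
            (CovZ.n2 (1920, 1520) (by decide +kernel)
             (CovZ.n2 (1880, 1480) (by decide +kernel)
              (CovZ.n2 (1880, 1520) (by decide +kernel)
               (CovZ.leaf K2_ok TP_l1271 _)
               (CovZ.leaf K2_ok TP_l1272 _))
              (CovZ.leaf K2_ok TP_l1273 _))
             (CovZ.n1 (1880, 1560) (by decide +kernel)
              (CovZ.n2 (1920, 1560) (by decide +kernel)
               (CovZ.leaf K2_ok TP_l1274 _)
               (CovZ.leaf K2_ok TP_l1275 _))
              (CovZ.leaf K2_ok TP_l1276 _)))
            (CovZ.n1 (1840, 1440) (by decide +kernel)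
             (CovZ.n2 (1800, 1480) (by decide +kernel)
              (CovZ.n2 (1840, 1480) (by decide +kernel)
               (CovZ.leaf K2_ok TP_l1277 _)
               (CovZ.leaf K2_ok TP_l1278 _))
              (CovZ.leaf K2_ok TP_l1279 _))
             (CovZ.n1 (1880, 1480) (by decide +kernel)
              (CovZ.leaf K2_ok TP_l1280 _)
              (CovZ.leaf K2_ok TP_l1281 _))))))
         (CovZ.subM 2749149836288 (by decide +kernel)
          (CovZ.n1 (1760, 1760) (by decide +kernel)
           (CovZ.n2 (1920, 1760) (by decide +kernel)
            (CovZ.n2 (1840, 1680) (by decide +kernel)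
             (CovZ.subM 302593024 (by decide +kernel)
              (CovZ.n2 (1840, 1760) (by decide +kernel)
               (CovZ.n2 (1880, 1720) (by decide +kernel)
                (CovZ.leaf K2_ok TP_l1282 _)
                (CovZ.n1 (1880, 1760) (by decide +kernel)
                 (CovZ.leaf K2_ok TP_l1283 _)
                 (CovZ.leaf K2_ok TP_l1284 _)))
               (CovZ.n1 (1800, 1720) (by decide +kernel)
                (CovZ.n2 (1800, 1760) (by decide +kernel)
                 (CovZ.leaf K2_ok TP_l1285 _)
                 (CovZ.leaf K2_ok TP_l1286 _))
                (CovZ.n1 (1840, 1720) (by decide +kernel)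
                 (CovZ.leaf K2_ok TP_l1287 _)
                 (CovZ.leaf K2_ok TP_l1288 _)))))
             (CovZ.n1 (1920, 1680) (by decide +kernel)
              (CovZ.n2 (1880, 1640) (by decide +kernel)
               (CovZ.leaf K2_ok TP_l1289 _)
               (CovZ.n1 (1920, 1640) (by decide +kernel)
                (CovZ.leaf K2_ok TP_l1290 _)
                (CovZ.leaf K2_ok TP_l1291 _)))
              (CovZ.n1 (1880, 1720) (by decide +kernel)
               (CovZ.n2 (1920, 1720) (by decide +kernel)
                (CovZ.leaf K2_ok TP_l1292 _)
                (CovZ.leaf K2_ok TP_l1293 _))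
               (CovZ.leaf K2_ok TP_l1294 _))))
            (CovZ.subM 269030400 (by decide +kernel)
             (CovZ.n1 (1840, 1840) (by decide +kernel)
              (CovZ.n2 (1920, 1840) (by decide +kernel)
               (CovZ.n2 (1880, 1800) (by decide +kernel)
                (CovZ.n2 (1880, 1840) (by decide +kernel)
                 (CovZ.n2 (1900, 1820) (by decide +kernel)
                  (CovZ.leaf K2_ok TP_l1295 _)
                  (CovZ.leaf K2_ok TP_l1296 _))
                 (CovZ.n1 (1860, 1820) (by decide +kernel)
                  (CovZ.n2 (1860, 1840) (by decide +kernel)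
                   (CovZ.leaf K2_ok TP_l1297 _)
                   (CovZ.leaf K2_ok TP_l6871 _))
                  (CovZ.leaf K2_ok TP_l1298 _)))
                (CovZ.n1 (1920, 1800) (by decide +kernel)
                 (CovZ.leaf K2_ok TP_l1299 _)
                 (CovZ.leaf K2_ok TP_l1300 _)))
               (CovZ.n1 (1880, 1880) (by decide +kernel)
                (CovZ.n2 (1920, 1880) (by decide +kernel)
                 (CovZ.n2 (1900, 1860) (by decide +kernel)
                  (CovZ.n2 (1900, 1880) (by decide +kernel)
                   (CovZ.leaf K2_ok TP_l1301 _)
                   (CovZ.leaf K2_ok TP_l1302 _))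
                  (CovZ.n1 (1920, 1860) (by decide +kernel)
                   (CovZ.leaf K2_ok TP_l1303 _)
                   (CovZ.leaf K2_ok TP_l1304 _)))
                 (CovZ.n1 (1900, 1900) (by decide +kernel)
                  (CovZ.n2 (1920, 1900) (by decide +kernel)
                   (CovZ.leaf K2_ok TP_l6872 _)
                   (CovZ.n1 (1910, 1910) (by decide +kernel)
                    (CovZ.leaf K2_ok TP_l6873 _)
                    (CovZ.leaf K2_ok TP_l6874 _)))
                  (CovZ.n1 (1900, 1880) (by decide +kernel)
                   (CovZ.n2 (1890, 1890) (by decide +kernel)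
                    (CovZ.leaf K2_ok TP_l6875 _)
                    (CovZ.leaf K2_ok TP_l6876 _))
                   (CovZ.leaf K2_ok TP_l6877 _))))
                (CovZ.n1 (1880, 1840) (by decide +kernel)
                 (CovZ.n2 (1860, 1860) (by decide +kernel)
                  (CovZ.n2 (1880, 1860) (by decide +kernel)
                   (CovZ.leaf K2_ok TP_l1305 _)
                   (CovZ.leaf K2_ok TP_l1306 _))
                  (CovZ.n1 (1860, 1840) (by decide +kernel)
                   (CovZ.badM (by decide +kernel))
                   (CovZ.leaf K2_ok TP_l1307 _)))
                 (CovZ.n1 (1900, 1860) (by decide +kernel)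
                  (CovZ.leaf K2_ok TP_l1308 _)
                  (CovZ.n1 (1880, 1860) (by decide +kernel)
                   (CovZ.leaf K2_ok TP_l1309 _)
                   (CovZ.leaf K2_ok TP_l1310 _))))))
              (CovZ.n1 (1840, 1760) (by decide +kernel)
               (CovZ.n2 (1800, 1800) (by decide +kernel)
                (CovZ.n2 (1840, 1800) (by decide +kernel)
                 (CovZ.leaf K2_ok TP_l1311 _)
                 (CovZ.n1 (1820, 1820) (by decide +kernel)
                  (CovZ.n2 (1840, 1820) (by decide +kernel)
                   (CovZ.leaf K2_ok TP_l6878 _)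
                   (CovZ.leaf K2_ok TP_l6879 _))
                  (CovZ.leaf K2_ok TP_l6880 _)))
                (CovZ.n1 (1800, 1760) (by decide +kernel)
                 (CovZ.n2 (1780, 1780) (by decide +kernel)
                  (CovZ.leaf K2_ok TP_l1312 _)
                  (CovZ.leaf K2_ok TP_l1313 _))
                 (CovZ.leaf K2_ok TP_l1314 _)))
               (CovZ.n1 (1880, 1800) (by decide +kernel)
                (CovZ.n2 (1880, 1760) (by decide +kernel)
                 (CovZ.leaf K2_ok TP_l1315 _)
                 (CovZ.leaf K2_ok TP_l1316 _))
                (CovZ.n1 (1840, 1800) (by decide +kernel)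
                 (CovZ.n2 (1860, 1820) (by decide +kernel)
                  (CovZ.leaf K2_ok TP_l1317 _)
                  (CovZ.leaf K2_ok TP_l6881 _))
                 (CovZ.leaf K2_ok TP_l1318 _)))))))
           (CovZ.n1 (1760, 1600) (by decide +kernel)
            (CovZ.n2 (1680, 1680) (by decide +kernel)
             (CovZ.n2 (1760, 1680) (by decide +kernel)
              (CovZ.n2 (1720, 1640) (by decide +kernel)
               (CovZ.n2 (1720, 1680) (by decide +kernel)
                (CovZ.leaf K2_ok TP_l1319 _)
                (CovZ.leaf K2_ok TP_l1320 _))
               (CovZ.leaf K2_ok TP_l1321 _))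
              (CovZ.subM 302068736 (by decide +kernel)
               (CovZ.n1 (1720, 1720) (by decide +kernel)
                (CovZ.n2 (1760, 1720) (by decide +kernel)
                 (CovZ.leaf K2_ok TP_l1322 _)
                 (CovZ.n1 (1740, 1740) (by decide +kernel)
                  (CovZ.leaf K2_ok TP_l1323 _)
                  (CovZ.leaf K2_ok TP_l1324 _)))
                (CovZ.n1 (1720, 1680) (by decide +kernel)
                 (CovZ.leaf K2_ok TP_l1325 _)
                 (CovZ.leaf K2_ok TP_l1326 _)))))
             (CovZ.n1 (1680, 1600) (by decide +kernel)
              (CovZ.n2 (1640, 1640) (by decide +kernel)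
               (CovZ.leaf K2_ok TP_l1327 _)
               (CovZ.leaf K2_ok TP_l1328 _))
              (CovZ.n1 (1720, 1640) (by decide +kernel)
               (CovZ.leaf K2_ok TP_l1329 _)
               (CovZ.leaf K2_ok TP_l1330 _))))
            (CovZ.n1 (1840, 1680) (by decide +kernel)
             (CovZ.n2 (1840, 1600) (by decide +kernel)
              (CovZ.n2 (1800, 1640) (by decide +kernel)
               (CovZ.leaf K2_ok TP_l1331 _)
               (CovZ.leaf K2_ok TP_l1332 _))
              (CovZ.n1 (1880, 1640) (by decide +kernel)
               (CovZ.n2 (1880, 1600) (by decide +kernel)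
                (CovZ.leaf K2_ok TP_l1333 _)
                (CovZ.leaf K2_ok TP_l1334 _))
               (CovZ.leaf K2_ok TP_l1335 _)))
             (CovZ.n1 (1760, 1680) (by decide +kernel)
              (CovZ.n2 (1800, 1720) (by decide +kernel)
               (CovZ.leaf K2_ok TP_l1336 _)
               (CovZ.leaf K2_ok TP_l1337 _))
              (CovZ.n1 (1800, 1640) (by decide +kernel)
               (CovZ.leaf K2_ok TP_l1338 _)
               (CovZ.leaf K2_ok TP_l1339 _))))))))

theorem TP_u15 : CovZ TP_M (toL (selN TP_LN 83076749736708948079762983966307329)) [0, 7, 2, 5] (1600, 1600) (1280, 1280) (1920, 1280) :=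
    (CovZ.n1 (1600, 1280) (by decide +kernel)
         (CovZ.subM 12649048924161 (by decide +kernel)
          (CovZ.n2 (1440, 1440) (by decide +kernel)
           (CovZ.n2 (1600, 1440) (by decide +kernel)
            (CovZ.n2 (1520, 1360) (by decide +kernel)
             (CovZ.n2 (1520, 1440) (by decide +kernel)
              (CovZ.leaf K2_ok TP_l1340 _)
              (CovZ.leaf K2_ok TP_l1341 _))
             (CovZ.n1 (1600, 1360) (by decide +kernel)
              (CovZ.leaf K2_ok TP_l1342 _)
              (CovZ.leaf K2_ok TP_l1343 _)))
            (CovZ.n1 (1520, 1520) (by decide +kernel)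
             (CovZ.n2 (1600, 1520) (by decide +kernel)
              (CovZ.leaf K2_ok TP_l1344 _)
              (CovZ.n1 (1560, 1560) (by decide +kernel)
               (CovZ.leaf K2_ok TP_l1345 _)
               (CovZ.leaf K2_ok TP_l1346 _)))
             (CovZ.n1 (1520, 1440) (by decide +kernel)
              (CovZ.n2 (1480, 1480) (by decide +kernel)
               (CovZ.leaf K2_ok TP_l1347 _)
               (CovZ.leaf K2_ok TP_l1348 _))
              (CovZ.leaf K2_ok TP_l1349 _))))
           (CovZ.n1 (1440, 1280) (by decide +kernel)
            (CovZ.n2 (1360, 1360) (by decide +kernel)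
             (CovZ.n2 (1440, 1360) (by decide +kernel)
              (CovZ.leaf K2_ok TP_l1350 _)
              (CovZ.leaf K2_ok TP_l1351 _))
             (CovZ.n1 (1360, 1280) (by decide +kernel)
              (CovZ.leaf K2_ok TP_l1352 _)
              (CovZ.leaf K2_ok TP_l1353 _)))
            (CovZ.n1 (1520, 1360) (by decide +kernel)
             (CovZ.n2 (1520, 1280) (by decide +kernel)
              (CovZ.leaf K2_ok TP_l1354 _)
              (CovZ.leaf K2_ok TP_l1355 _))
             (CovZ.n1 (1440, 1360) (by decide +kernel)
              (CovZ.leaf K2_ok TP_l1356 _)
              (CovZ.leaf K2_ok TP_l1357 _))))))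
         (CovZ.n1 (1760, 1440) (by decide +kernel)
          (CovZ.n2 (1760, 1280) (by decide +kernel)
           (CovZ.n2 (1680, 1360) (by decide +kernel)
            (CovZ.n2 (1760, 1360) (by decide +kernel)
             (CovZ.leaf K2_ok TP_l1358 _)
             (CovZ.n1 (1720, 1400) (by decide +kernel)
              (CovZ.leaf K2_ok TP_l1359 _)
              (CovZ.leaf K2_ok TP_l1360 _)))
            (CovZ.n1 (1680, 1280) (by decide +kernel)
             (CovZ.n2 (1640, 1320) (by decide +kernel)
              (CovZ.leaf K2_ok TP_l1361 _)
              (CovZ.leaf K2_ok TP_l1362 _))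
             (CovZ.leaf K2_ok TP_l1363 _)))
           (CovZ.n1 (1840, 1360) (by decide +kernel)
            (CovZ.n2 (1840, 1280) (by decide +kernel)
             (CovZ.leaf K2_ok TP_l1364 _)
             (CovZ.leaf K2_ok TP_l1365 _))
            (CovZ.n1 (1760, 1360) (by decide +kernel)
             (CovZ.leaf K2_ok TP_l1366 _)
             (CovZ.leaf K2_ok TP_l1367 _))))
          (CovZ.n1 (1600, 1440) (by decide +kernel)
           (CovZ.n2 (1680, 1520) (by decide +kernel)
            (CovZ.n2 (1680, 1440) (by decide +kernel)
             (CovZ.leaf K2_ok TP_l1368 _)
             (CovZ.leaf K2_ok TP_l1369 _))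
            (CovZ.n1 (1600, 1520) (by decide +kernel)
             (CovZ.leaf K2_ok TP_l1370 _)
             (CovZ.leaf K2_ok TP_l1371 _)))
           (CovZ.n1 (1680, 1360) (by decide +kernel)
            (CovZ.n2 (1600, 1360) (by decide +kernel)
             (CovZ.leaf K2_ok TP_l1372 _)
             (CovZ.n1 (1640, 1320) (by decide +kernel)
              (CovZ.leaf K2_ok TP_l1373 _)
              (CovZ.leaf K2_ok TP_l1374 _)))
            (CovZ.n1 (1680, 1440) (by decide +kernel)
             (CovZ.n2 (1720, 1400) (by decide +kernel)
              (CovZ.leaf K2_ok TP_l1375 _)
              (CovZ.leaf K2_ok TP_l1376 _))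
             (CovZ.leaf K2_ok TP_l1377 _))))))

end Pool.Agent.TET
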