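import Pool.Agent.Helper38_TET.TP_M
import Pool.Agent.Helper38_TET.TP_L
import Pool.Agent.Helper38_TET.TP_6
import Pool.Agent.Helper38_TET.TP_7
import Pool.Agent.Helper38_TET.TP_9
import Pool.Agent.Helper38_TET.TP_10
import Pool.Agent.Helper38_TET.TP_11
import Pool.Agent.Helper38_TET.TP_12
import Pool.Agent.Helper38_TET.TP_19
import Pool.Agent.Helper38_TET.TP_20
import Pool.Agent.Helper38_TET.TP_46
import Pool.Agent.Helper38_TET.TP_47
import Pool.Agent.Helper38_TET.TP_51
import Pool.Agent.Helper38_TET.TP_U0

/-!
# MP_c7c9bf_co: certificates, family TP
-/

set_option autoImplicit false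
set_option maxRecDepth 100000

namespace Pool.Agent.TET

theorem TP_u16 : CovZ TP_M (toL (selN TP_LN 83076749736708948079762983966307329)) [0, 7, 2, 5] (1920, 1920) (1920, 1600) (2240, 1600) :=
    (CovZ.n2 (2080, 1760) (by decide +kernel)
          (CovZ.n2 (2080, 1600) (by decide +kernel)
           (CovZ.n2 (2000, 1680) (by decide +kernel)
            (CovZ.n2 (2080, 1680) (by decide +kernel)
             (CovZ.n2 (2040, 1640) (by decide +kernel)
              (CovZ.n2 (2040, 1680) (by decide +kernel)
               (CovZ.n2 (2060, 1660) (by decide +kernel)
                (CovZ.leaf K2_ok TP_l1399 _)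
                (CovZ.leaf K2_ok TP_l1400 _))
               (CovZ.leaf K2_ok TP_l1401 _))
              (CovZ.n1 (2080, 1640) (by decide +kernel)
               (CovZ.n2 (2060, 1620) (by decide +kernel)
                (CovZ.leaf K2_ok TP_l1402 _)
                (CovZ.leaf K2_ok TP_l1403 _))
               (CovZ.n1 (2060, 1660) (by decide +kernel)
                (CovZ.leaf K2_ok TP_l1404 _)
                (CovZ.leaf K2_ok TP_l1405 _))))
             (CovZ.subM 441005056 (by decide +kernel)
              (CovZ.n1 (2040, 1720) (by decide +kernel)
               (CovZ.n2 (2080, 1720) (by decide +kernel)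
                (CovZ.n2 (2060, 1700) (by decide +kernel)
                 (CovZ.leaf K2_ok TP_l1406 _)
                 (CovZ.n1 (2080, 1700) (by decide +kernel)
                  (CovZ.leaf K2_ok TP_l1407 _)
                  (CovZ.leaf K2_ok TP_l1408 _)))
                (CovZ.n1 (2060, 1740) (by decide +kernel)
                 (CovZ.leaf K2_ok TP_l1409 _)
                 (CovZ.leaf K2_ok TP_l1410 _)))
               (CovZ.n1 (2040, 1680) (by decide +kernel)
                (CovZ.n2 (2020, 1700) (by decide +kernel)
                 (CovZ.leaf K2_ok TP_l1411 _)
                 (CovZ.leaf K2_ok TP_l1412 _))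
                (CovZ.n1 (2060, 1700) (by decide +kernel)
                 (CovZ.leaf K2_ok TP_l1413 _)
                 (CovZ.leaf K2_ok TP_l1414 _))))))
            (CovZ.n1 (2000, 1600) (by decide +kernel)
             (CovZ.n2 (1960, 1640) (by decide +kernel)
              (CovZ.n2 (2000, 1640) (by decide +kernel)
               (CovZ.leaf K2_ok TP_l1415 _)
               (CovZ.leaf K2_ok TP_l1416 _))
              (CovZ.n1 (1960, 1600) (by decide +kernel)
               (CovZ.leaf K2_ok TP_l1417 _)
               (CovZ.leaf K2_ok TP_l1418 _)))
             (CovZ.n1 (2040, 1640) (by decide +kernel)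
              (CovZ.n2 (2040, 1600) (by decide +kernel)
               (CovZ.n2 (2020, 1620) (by decide +kernel)
                (CovZ.leaf K2_ok TP_l1419 _)
                (CovZ.leaf K2_ok TP_l1420 _))
               (CovZ.leaf K2_ok TP_l1421 _))
              (CovZ.n1 (2000, 1640) (by decide +kernel)
               (CovZ.leaf K2_ok TP_l1422 _)
               (CovZ.n1 (2020, 1620) (by decide +kernel)
                (CovZ.leaf K2_ok TP_l1423 _)
                (CovZ.leaf K2_ok TP_l1424 _))))))
           (CovZ.n1 (2160, 1680) (by decide +kernel)
            (CovZ.n2 (2160, 1600) (by decide +kernel)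
             (CovZ.n2 (2120, 1640) (by decide +kernel)
              (CovZ.n2 (2160, 1640) (by decide +kernel)
               (CovZ.leaf K2_ok TP_l1425 _)
               (CovZ.n1 (2140, 1660) (by decide +kernel)
                (CovZ.leaf K2_ok TP_l1426 _)
                (CovZ.leaf K2_ok TP_l1427 _)))
              (CovZ.n1 (2120, 1600) (by decide +kernel)
               (CovZ.n2 (2100, 1620) (by decide +kernel)
                (CovZ.leaf K2_ok TP_l1428 _)
                (CovZ.leaf K2_ok TP_l1429 _))
               (CovZ.leaf K2_ok TP_l1430 _)))
             (CovZ.n1 (2200, 1640) (by decide +kernel)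
              (CovZ.n2 (2200, 1600) (by decide +kernel)
               (CovZ.leaf K2_ok TP_l1431 _)
               (CovZ.leaf K2_ok TP_l1432 _))
              (CovZ.n1 (2160, 1640) (by decide +kernel)
               (CovZ.n2 (2180, 1660) (by decide +kernel)
                (CovZ.leaf K2_ok TP_l1433 _)
                (CovZ.leaf K2_ok TP_l1434 _))
               (CovZ.leaf K2_ok TP_l1435 _))))
            (CovZ.n1 (2080, 1680) (by decide +kernel)
             (CovZ.subM 83076749736708357783939976513795072 (by decide +kernel)
              (CovZ.n2 (2120, 1720) (by decide +kernel)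
               (CovZ.n2 (2120, 1680) (by decide +kernel)
                (CovZ.n2 (2100, 1700) (by decide +kernel)
                 (CovZ.n2 (2120, 1700) (by decide +kernel)
                  (CovZ.leaf K2_ok TP_l1436 _)
                  (CovZ.leaf K2_ok TP_l1437 _))
                 (CovZ.leaf K2_ok TP_l1438 _))
                (CovZ.n1 (2140, 1700) (by decide +kernel)
                 (CovZ.n2 (2140, 1680) (by decide +kernel)
                  (CovZ.leaf K2_ok TP_l1439 _)
                  (CovZ.leaf K2_ok TP_l1440 _))
                 (CovZ.n1 (2120, 1700) (by decide +kernel)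
                  (CovZ.leaf K2_ok TP_l1441 _)
                  (CovZ.leaf K2_ok TP_l1442 _))))
               (CovZ.n1 (2080, 1720) (by decide +kernel)
                (CovZ.n2 (2100, 1740) (by decide +kernel)
                 (CovZ.leaf K2_ok TP_l1443 _)
                 (CovZ.leaf K2_ok TP_l1444 _))
                (CovZ.n1 (2100, 1700) (by decide +kernel)
                 (CovZ.leaf K2_ok TP_l1445 _)
                 (CovZ.leaf K2_ok TP_l1446 _)))))
             (CovZ.n1 (2120, 1640) (by decide +kernel)
              (CovZ.n2 (2080, 1640) (by decide +kernel)
               (CovZ.n2 (2100, 1660) (by decide +kernel)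
                (CovZ.leaf K2_ok TP_l1447 _)
                (CovZ.leaf K2_ok TP_l1448 _))
               (CovZ.n1 (2100, 1620) (by decide +kernel)
                (CovZ.leaf K2_ok TP_l1449 _)
                (CovZ.leaf K2_ok TP_l1450 _)))
              (CovZ.n1 (2120, 1680) (by decide +kernel)
               (CovZ.n2 (2140, 1660) (by decide +kernel)
                (CovZ.leaf K2_ok TP_l1451 _)
                (CovZ.leaf K2_ok TP_l1452 _))
               (CovZ.n1 (2100, 1660) (by decide +kernel)
                (CovZ.leaf K2_ok TP_l1453 _)
                (CovZ.n1 (2120, 1660) (by decide +kernel)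
                 (CovZ.leaf K2_ok TP_l1454 _)
                 (CovZ.leaf K2_ok TP_l1455 _))))))))
          (CovZ.n1 (1920, 1760) (by decide +kernel)
           (CovZ.subM 407442432 (by decide +kernel)
            (CovZ.n2 (2000, 1840) (by decide +kernel)
             (CovZ.n2 (2000, 1760) (by decide +kernel)
              (CovZ.n2 (1960, 1800) (by decide +kernel)
               (CovZ.n2 (2000, 1800) (by decide +kernel)
                (CovZ.leaf K2_ok TP_l1456 _)
                (CovZ.leaf K2_ok TP_l1457 _))
               (CovZ.leaf K2_ok TP_l1458 _))
              (CovZ.n1 (2040, 1800) (by decide +kernel)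
               (CovZ.n2 (2040, 1760) (by decide +kernel)
                (CovZ.leaf K2_ok TP_l1459 _)
                (CovZ.leaf K2_ok TP_l1460 _))
               (CovZ.n1 (2000, 1800) (by decide +kernel)
                (CovZ.leaf K2_ok TP_l1461 _)
                (CovZ.leaf K2_ok TP_l1462 _))))
             (CovZ.n1 (1920, 1840) (by decide +kernel)
              (CovZ.subM 138936320 (by decide +kernel)
               (CovZ.n2 (1960, 1880) (by decide +kernel)
                (CovZ.n2 (1960, 1840) (by decide +kernel)
                 (CovZ.n2 (1940, 1860) (by decide +kernel)
                  (CovZ.leaf K2_ok TP_l1463 _)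
                  (CovZ.leaf K2_ok TP_l1464 _))
                 (CovZ.n1 (1980, 1860) (by decide +kernel)
                  (CovZ.leaf K2_ok TP_l1465 _)
                  (CovZ.leaf K2_ok TP_l1466 _)))
                (CovZ.n1 (1920, 1880) (by decide +kernel)
                 (CovZ.n2 (1940, 1900) (by decide +kernel)
                  (CovZ.n2 (1940, 1880) (by decide +kernel)
                   (CovZ.leaf K2_ok TP_l6882 _)
                   (CovZ.leaf K2_ok TP_l6883 _))
                  (CovZ.n1 (1920, 1900) (by decide +kernel)
                   (CovZ.leaf K2_ok TP_l6884 _)
                   (CovZ.leaf K2_ok TP_l6885 _)))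
                 (CovZ.n1 (1940, 1860) (by decide +kernel)
                  (CovZ.n2 (1920, 1860) (by decide +kernel)
                   (CovZ.leaf K2_ok TP_l1467 _)
                   (CovZ.leaf K2_ok TP_l1468 _))
                  (CovZ.leaf K2_ok TP_l1469 _)))))
              (CovZ.n1 (1960, 1800) (by decide +kernel)
               (CovZ.n2 (1920, 1800) (by decide +kernel)
                (CovZ.leaf K2_ok TP_l1470 _)
                (CovZ.leaf K2_ok TP_l1471 _))
               (CovZ.n1 (1960, 1840) (by decide +kernel)
                (CovZ.leaf K2_ok TP_l1472 _)
                (CovZ.leaf K2_ok TP_l1473 _))))))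
           (CovZ.n1 (2000, 1680) (by decide +kernel)
            (CovZ.n2 (1920, 1680) (by decide +kernel)
             (CovZ.subM 441005056 (by decide +kernel)
              (CovZ.n2 (1960, 1720) (by decide +kernel)
               (CovZ.n2 (1960, 1680) (by decide +kernel)
                (CovZ.leaf K2_ok TP_l1474 _)
                (CovZ.leaf K2_ok TP_l1475 _))
               (CovZ.n1 (1920, 1720) (by decide +kernel)
                (CovZ.leaf K2_ok TP_l1476 _)
                (CovZ.leaf K2_ok TP_l1477 _))))
             (CovZ.n1 (1960, 1640) (by decide +kernel)
              (CovZ.n2 (1920, 1640) (by decide +kernel)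
               (CovZ.leaf K2_ok TP_l1478 _)
               (CovZ.leaf K2_ok TP_l1479 _))
              (CovZ.n1 (1960, 1680) (by decide +kernel)
               (CovZ.leaf K2_ok TP_l1480 _)
               (CovZ.leaf K2_ok TP_l1481 _))))
            (CovZ.subM 441005056 (by decide +kernel)
             (CovZ.n1 (2000, 1760) (by decide +kernel)
              (CovZ.n2 (2040, 1720) (by decide +kernel)
               (CovZ.n2 (2000, 1720) (by decide +kernel)
                (CovZ.leaf K2_ok TP_l1482 _)
                (CovZ.n1 (2020, 1700) (by decide +kernel)
                 (CovZ.leaf K2_ok TP_l1483 _)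
                 (CovZ.leaf K2_ok TP_l1484 _)))
               (CovZ.n1 (2040, 1760) (by decide +kernel)
                (CovZ.n2 (2060, 1740) (by decide +kernel)
                 (CovZ.leaf K2_ok TP_l1485 _)
                 (CovZ.leaf K2_ok TP_l1486 _))
                (CovZ.n1 (2020, 1740) (by decide +kernel)
                 (CovZ.leaf K2_ok TP_l1487 _)
                 (CovZ.leaf K2_ok TP_l1488 _))))
              (CovZ.n1 (1960, 1720) (by decide +kernel)
               (CovZ.n2 (1960, 1760) (by decide +kernel)
                (CovZ.leaf K2_ok TP_l1489 _)
                (CovZ.leaf K2_ok TP_l1490 _))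
               (CovZ.n1 (2000, 1720) (by decide +kernel)
                (CovZ.leaf K2_ok TP_l1491 _)
                (CovZ.leaf K2_ok TP_l1492 _))))))))

theorem TP_u17 : CovZ TP_M (toL (selN TP_LN 83076749736708948079762983966307329)) [0, 7, 2, 5] (1920, 1600) (1920, 1280) (2240, 1600) :=
    (CovZ.n1 (2080, 1440) (by decide +kernel)
          (CovZ.n2 (1920, 1440) (by decide +kernel)
           (CovZ.n2 (2000, 1520) (by decide +kernel)
            (CovZ.n2 (2000, 1440) (by decide +kernel)
             (CovZ.n2 (1960, 1480) (by decide +kernel)
              (CovZ.leaf K2_ok TP_l1493 _)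
              (CovZ.leaf K2_ok TP_l1494 _))
             (CovZ.leaf K2_ok TP_l1495 _))
            (CovZ.n1 (1920, 1520) (by decide +kernel)
             (CovZ.n2 (1960, 1560) (by decide +kernel)
              (CovZ.n2 (1960, 1520) (by decide +kernel)
               (CovZ.leaf K2_ok TP_l1496 _)
               (CovZ.leaf K2_ok TP_l1497 _))
              (CovZ.n1 (1920, 1560) (by decide +kernel)
               (CovZ.leaf K2_ok TP_l1498 _)
               (CovZ.leaf K2_ok TP_l1499 _)))
             (CovZ.n1 (1960, 1480) (by decide +kernel)
              (CovZ.leaf K2_ok TP_l1500 _)
              (CovZ.n1 (1960, 1520) (by decide +kernel)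
               (CovZ.leaf K2_ok TP_l1501 _)
               (CovZ.leaf K2_ok TP_l1502 _)))))
           (CovZ.n1 (2000, 1360) (by decide +kernel)
            (CovZ.leaf K2_ok TP_l1503 _)
            (CovZ.n1 (2000, 1440) (by decide +kernel)
             (CovZ.leaf K2_ok TP_l1504 _)
             (CovZ.leaf K2_ok TP_l1505 _))))
          (CovZ.n1 (2080, 1600) (by decide +kernel)
           (CovZ.n2 (2160, 1520) (by decide +kernel)
            (CovZ.n2 (2080, 1520) (by decide +kernel)
             (CovZ.n2 (2120, 1560) (by decide +kernel)
              (CovZ.leaf K2_ok TP_l1506 _)
              (CovZ.leaf K2_ok TP_l1507 _))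
             (CovZ.leaf K2_ok TP_l1508 _))
            (CovZ.n1 (2160, 1600) (by decide +kernel)
             (CovZ.n2 (2200, 1560) (by decide +kernel)
              (CovZ.leaf K2_ok TP_l1509 _)
              (CovZ.n1 (2200, 1600) (by decide +kernel)
               (CovZ.leaf K2_ok TP_l1510 _)
               (CovZ.leaf K2_ok TP_l1511 _)))
             (CovZ.n1 (2120, 1560) (by decide +kernel)
              (CovZ.n2 (2120, 1600) (by decide +kernel)
               (CovZ.leaf K2_ok TP_l1512 _)
               (CovZ.leaf K2_ok TP_l1513 _))
              (CovZ.leaf K2_ok TP_l1514 _))))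
           (CovZ.n1 (2000, 1520) (by decide +kernel)
            (CovZ.n2 (2000, 1600) (by decide +kernel)
             (CovZ.n2 (2040, 1560) (by decide +kernel)
              (CovZ.n2 (2000, 1560) (by decide +kernel)
               (CovZ.leaf K2_ok TP_l1515 _)
               (CovZ.leaf K2_ok TP_l1516 _))
              (CovZ.n1 (2040, 1600) (by decide +kernel)
               (CovZ.leaf K2_ok TP_l1517 _)
               (CovZ.leaf K2_ok TP_l1518 _)))
             (CovZ.n1 (1960, 1560) (by decide +kernel)
              (CovZ.n2 (1960, 1600) (by decide +kernel)
               (CovZ.leaf K2_ok TP_l1519 _)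
               (CovZ.leaf K2_ok TP_l1520 _))
              (CovZ.n1 (2000, 1560) (by decide +kernel)
               (CovZ.leaf K2_ok TP_l1521 _)
               (CovZ.leaf K2_ok TP_l1522 _))))
            (CovZ.n1 (2080, 1520) (by decide +kernel)
             (CovZ.n2 (2040, 1480) (by decide +kernel)
              (CovZ.leaf K2_ok TP_l1523 _)
              (CovZ.leaf K2_ok TP_l1524 _))
             (CovZ.n1 (2040, 1560) (by decide +kernel)
              (CovZ.n2 (2080, 1560) (by decide +kernel)
               (CovZ.leaf K2_ok TP_l1525 _)
               (CovZ.leaf K2_ok TP_l1526 _))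
              (CovZ.n1 (2040, 1520) (by decide +kernel)
               (CovZ.leaf K2_ok TP_l1527 _)
               (CovZ.leaf K2_ok TP_l1528 _)))))))

theorem TP_u18 : CovZ TP_M (toL (selN TP_LN 83076749736708948079762983966307329)) [0, 7, 2, 5] (2560, 2560) (1280, 1280) (2560, 0) :=
    (CovZ.n2 (2560, 1280) (by decide +kernel)
     (CovZ.n2 (1920, 640) (by decide +kernel)
      (CovZ.n2 (1920, 1280) (by decide +kernel)
       (CovZ.n2 (2240, 960) (by decide +kernel)
        (CovZ.n2 (1920, 960) (by decide +kernel)
         (CovZ.n2 (2080, 1120) (by decide +kernel)
          (CovZ.n2 (2080, 960) (by decide +kernel)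
           (CovZ.leaf K2_ok TP_l1017 _)
           (CovZ.leaf K2_ok TP_l1018 _))
          (CovZ.n1 (1920, 1120) (by decide +kernel)
           (CovZ.leaf K2_ok TP_l1019 _)
           (CovZ.leaf K2_ok TP_l1020 _)))
         (CovZ.n1 (2080, 800) (by decide +kernel)
          (CovZ.leaf K2_ok TP_l1021 _)
          (CovZ.leaf K2_ok TP_l1022 _)))
        (CovZ.n1 (2240, 1280) (by decide +kernel)
         (CovZ.n2 (2400, 1120) (by decide +kernel)
          (CovZ.leaf K2_ok TP_l1023 _)
          (CovZ.n1 (2400, 1280) (by decide +kernel)
           (CovZ.leaf K2_ok TP_l1024 _)
           (CovZ.leaf K2_ok TP_l1025 _)))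
         (CovZ.n1 (2080, 1120) (by decide +kernel)
          (CovZ.n2 (2080, 1280) (by decide +kernel)
           (CovZ.leaf K2_ok TP_l1026 _)
           (CovZ.n1 (2000, 1200) (by decide +kernel)
            (CovZ.leaf K2_ok TP_l1027 _)
            (CovZ.leaf K2_ok TP_l1028 _)))
          (CovZ.n1 (2240, 1120) (by decide +kernel)
           (CovZ.leaf K2_ok TP_l1029 _)
           (CovZ.leaf K2_ok TP_l1030 _)))))
       (CovZ.n1 (1600, 960) (by decide +kernel)
        (CovZ.n2 (1600, 1280) (by decide +kernel)
         (CovZ.n2 (1760, 1120) (by decide +kernel)
          (CovZ.n2 (1600, 1120) (by decide +kernel)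
           (CovZ.n2 (1680, 1200) (by decide +kernel)
            (CovZ.leaf K2_ok TP_l1031 _)
            (CovZ.leaf K2_ok TP_l1032 _))
           (CovZ.leaf K2_ok TP_l1033 _))
          (CovZ.n1 (1760, 1280) (by decide +kernel)
           (CovZ.n2 (1840, 1200) (by decide +kernel)
            (CovZ.leaf K2_ok TP_l1034 _)
            (CovZ.n1 (1840, 1280) (by decide +kernel)
             (CovZ.leaf K2_ok TP_l1035 _)
             (CovZ.leaf K2_ok TP_l1036 _)))
           (CovZ.n1 (1680, 1200) (by decide +kernel)
            (CovZ.n2 (1680, 1280) (by decide +kernel)
             (CovZ.leaf K2_ok TP_l1037 _)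
             (CovZ.leaf K2_ok TP_l1038 _))
            (CovZ.leaf K2_ok TP_l1039 _))))
         (CovZ.subM 12649048924161 (by decide +kernel)
          (CovZ.n1 (1440, 1120) (by decide +kernel)
           (CovZ.n2 (1440, 1280) (by decide +kernel)
            (CovZ.n2 (1520, 1200) (by decide +kernel)
             (CovZ.n2 (1440, 1200) (by decide +kernel)
              (CovZ.leaf K2_ok TP_l1040 _)
              (CovZ.leaf K2_ok TP_l1041 _))
             (CovZ.n1 (1520, 1280) (by decide +kernel)
              (CovZ.leaf K2_ok TP_l1042 _)
              (CovZ.leaf K2_ok TP_l1043 _)))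
            (CovZ.n1 (1360, 1200) (by decide +kernel)
             (CovZ.n2 (1360, 1280) (by decide +kernel)
              (CovZ.leaf K2_ok TP_l1044 _)
              (CovZ.leaf K2_ok TP_l1045 _))
             (CovZ.n1 (1440, 1200) (by decide +kernel)
              (CovZ.leaf K2_ok TP_l1046 _)
              (CovZ.leaf K2_ok TP_l1047 _))))
           (CovZ.n1 (1600, 1120) (by decide +kernel)
            (CovZ.n2 (1520, 1040) (by decide +kernel)
             (CovZ.leaf K2_ok TP_l1048 _)
             (CovZ.leaf K2_ok TP_l1049 _))
            (CovZ.n1 (1520, 1200) (by decide +kernel)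
             (CovZ.n2 (1600, 1200) (by decide +kernel)
              (CovZ.leaf K2_ok TP_l1050 _)
              (CovZ.leaf K2_ok TP_l1051 _))
             (CovZ.n1 (1520, 1120) (by decide +kernel)
              (CovZ.leaf K2_ok TP_l1052 _)
              (CovZ.leaf K2_ok TP_l1053 _)))))))
        (CovZ.n1 (1920, 960) (by decide +kernel)
         (CovZ.n2 (1760, 800) (by decide +kernel)
          (CovZ.n2 (1760, 960) (by decide +kernel)
           (CovZ.leaf K2_ok TP_l1054 _)
           (CovZ.leaf K2_ok TP_l1055 _))
          (CovZ.leaf K2_ok TP_l1056 _))
         (CovZ.n1 (1760, 1120) (by decide +kernel)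
          (CovZ.n2 (1920, 1120) (by decide +kernel)
           (CovZ.leaf K2_ok TP_l1057 _)
           (CovZ.n1 (1840, 1200) (by decide +kernel)
            (CovZ.leaf K2_ok TP_l1058 _)
            (CovZ.leaf K2_ok TP_l1059 _)))
          (CovZ.n1 (1760, 960) (by decide +kernel)
           (CovZ.leaf K2_ok TP_l1060 _)
           (CovZ.leaf K2_ok TP_l1061 _))))))
      (CovZ.n1 (2560, 640) (by decide +kernel)
       (CovZ.n2 (2240, 320) (by decide +kernel)
        (CovZ.n2 (2240, 640) (by decide +kernel)
         (CovZ.leaf K2_ok TP_l1062 _)
         (CovZ.leaf K2_ok TP_l1063 _))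
        (CovZ.n1 (2560, 320) (by decide +kernel)
         (CovZ.leaf K2_ok TP_l1064 _)
         (CovZ.leaf K2_ok TP_l1065 _)))
       (CovZ.n1 (2240, 960) (by decide +kernel)
        (CovZ.n2 (2560, 960) (by decide +kernel)
         (CovZ.n2 (2400, 800) (by decide +kernel)
          (CovZ.leaf K2_ok TP_l1066 _)
          (CovZ.leaf K2_ok TP_l1067 _))
         (CovZ.n1 (2400, 1120) (by decide +kernel)
          (CovZ.leaf K2_ok TP_l1068 _)
          (CovZ.leaf K2_ok TP_l1069 _)))
        (CovZ.n1 (2240, 640) (by decide +kernel)
         (CovZ.n2 (2080, 800) (by decide +kernel)
          (CovZ.leaf K2_ok TP_l1070 _)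
          (CovZ.leaf K2_ok TP_l1071 _))
         (CovZ.n1 (2400, 800) (by decide +kernel)
          (CovZ.leaf K2_ok TP_l1072 _)
          (CovZ.leaf K2_ok TP_l1073 _))))))
     (CovZ.n1 (1920, 1920) (by decide +kernel)
      (CovZ.n2 (2560, 1920) (by decide +kernel)
       TP_u12
       TP_u13)
      (CovZ.n1 (1920, 1280) (by decide +kernel)
       (CovZ.n2 (1600, 1600) (by decide +kernel)
        TP_u14
        TP_u15)
       (CovZ.n1 (2240, 1600) (by decide +kernel)
        (CovZ.n2 (2240, 1280) (by decide +kernel)
         (CovZ.n2 (2080, 1440) (by decide +kernel)
          (CovZ.n2 (2240, 1440) (by decide +kernel)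
           (CovZ.n2 (2160, 1360) (by decide +kernel)
            (CovZ.n2 (2160, 1440) (by decide +kernel)
             (CovZ.leaf K2_ok TP_l1378 _)
             (CovZ.leaf K2_ok TP_l1379 _))
            (CovZ.leaf K2_ok TP_l1380 _))
           (CovZ.n1 (2160, 1520) (by decide +kernel)
            (CovZ.n2 (2240, 1520) (by decide +kernel)
             (CovZ.leaf K2_ok TP_l1381 _)
             (CovZ.n1 (2200, 1560) (by decide +kernel)
              (CovZ.leaf K2_ok TP_l1382 _)
              (CovZ.leaf K2_ok TP_l1383 _)))
            (CovZ.n1 (2160, 1440) (by decide +kernel)
             (CovZ.leaf K2_ok TP_l1384 _)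
             (CovZ.leaf K2_ok TP_l1385 _))))
          (CovZ.n1 (2080, 1280) (by decide +kernel)
           (CovZ.n2 (2000, 1360) (by decide +kernel)
            (CovZ.leaf K2_ok TP_l1386 _)
            (CovZ.leaf K2_ok TP_l1387 _))
           (CovZ.n1 (2160, 1360) (by decide +kernel)
            (CovZ.leaf K2_ok TP_l1388 _)
            (CovZ.leaf K2_ok TP_l1389 _))))
         (CovZ.n1 (2400, 1440) (by decide +kernel)
          (CovZ.n2 (2400, 1280) (by decide +kernel)
           (CovZ.n2 (2320, 1360) (by decide +kernel)
            (CovZ.leaf K2_ok TP_l1390 _)
            (CovZ.leaf K2_ok TP_l1391 _))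
           (CovZ.leaf K2_ok TP_l1392 _))
          (CovZ.subM 83076749736708357783952418694782977 (by decide +kernel)
           (CovZ.n1 (2240, 1440) (by decide +kernel)
            (CovZ.n2 (2320, 1520) (by decide +kernel)
             (CovZ.n2 (2320, 1440) (by decide +kernel)
              (CovZ.leaf K2_ok TP_l1393 _)
              (CovZ.leaf K2_ok TP_l1394 _))
             (CovZ.n1 (2240, 1520) (by decide +kernel)
              (CovZ.leaf K2_ok TP_l1395 _)
              (CovZ.leaf K2_ok TP_l1396 _)))
            (CovZ.n1 (2320, 1360) (by decide +kernel)
             (CovZ.leaf K2_ok TP_l1397 _)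
             (CovZ.leaf K2_ok TP_l1398 _))))))
        (CovZ.n1 (1920, 1600) (by decide +kernel)
         TP_u16
         TP_u17)))))

theorem TP_u19 : CovZ TP_M (toL (selN TP_LN 83076749736708948079762983966307329)) [0, 7, 2, 5] (1280, 1280) (0, 0) (2560, 0) :=
    (CovZ.n1 (1280, 0) (by decide +kernel)
     (CovZ.subM 12098922872833 (by decide +kernel)
      (CovZ.n2 (640, 640) (by decide +kernel)
       (CovZ.n2 (1280, 640) (by decide +kernel)
        (CovZ.n2 (960, 320) (by decide +kernel)
         (CovZ.n2 (960, 640) (by decide +kernel)
          (CovZ.n2 (1120, 480) (by decide +kernel)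
           (CovZ.n2 (960, 480) (by decide +kernel)
            (CovZ.leaf K2_ok TP_l1529 _)
            (CovZ.leaf K2_ok TP_l1530 _))
           (CovZ.n1 (1120, 640) (by decide +kernel)
            (CovZ.leaf K2_ok TP_l1531 _)
            (CovZ.leaf K2_ok TP_l1532 _)))
          (CovZ.n1 (800, 480) (by decide +kernel)
           (CovZ.n2 (800, 640) (by decide +kernel)
            (CovZ.leaf K2_ok TP_l1533 _)
            (CovZ.badM (by decide +kernel)))
           (CovZ.n1 (960, 480) (by decide +kernel)
            (CovZ.leaf K2_ok TP_l1534 _)
            (CovZ.leaf K2_ok TP_l1535 _))))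
         (CovZ.n1 (1280, 320) (by decide +kernel)
          (CovZ.n2 (1120, 160) (by decide +kernel)
           (CovZ.leaf K2_ok TP_l1536 _)
           (CovZ.leaf K2_ok TP_l1537 _))
          (CovZ.n1 (1120, 480) (by decide +kernel)
           (CovZ.leaf K2_ok TP_l1538 _)
           (CovZ.leaf K2_ok TP_l1539 _))))
        (CovZ.n1 (960, 960) (by decide +kernel)
         (CovZ.n2 (1280, 960) (by decide +kernel)
          (CovZ.n2 (1120, 800) (by decide +kernel)
           (CovZ.n2 (1120, 960) (by decide +kernel)
            (CovZ.leaf K2_ok TP_l1540 _)
            (CovZ.n1 (1040, 880) (by decide +kernel)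
             (CovZ.leaf K2_ok TP_l1541 _)
             (CovZ.leaf K2_ok TP_l1542 _)))
           (CovZ.n1 (1280, 800) (by decide +kernel)
            (CovZ.leaf K2_ok TP_l1543 _)
            (CovZ.leaf K2_ok TP_l1544 _)))
          (CovZ.n1 (1120, 1120) (by decide +kernel)
           (CovZ.n2 (1280, 1120) (by decide +kernel)
            (CovZ.n2 (1200, 1040) (by decide +kernel)
             (CovZ.leaf K2_ok TP_l1545 _)
             (CovZ.leaf K2_ok TP_l1546 _))
            (CovZ.n1 (1200, 1200) (by decide +kernel)
             (CovZ.n2 (1280, 1200) (by decide +kernel)
              (CovZ.leaf K2_ok TP_l1547 _)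
              (CovZ.leaf K2_ok TP_l1548 _))
             (CovZ.leaf K2_ok TP_l1549 _)))
           (CovZ.n1 (1120, 960) (by decide +kernel)
            (CovZ.n2 (1040, 1040) (by decide +kernel)
             (CovZ.leaf K2_ok TP_l1550 _)
             (CovZ.leaf K2_ok TP_l1551 _))
            (CovZ.n1 (1200, 1040) (by decide +kernel)
             (CovZ.leaf K2_ok TP_l1552 _)
             (CovZ.leaf K2_ok TP_l1553 _)))))
         (CovZ.n1 (960, 640) (by decide +kernel)
          (CovZ.n2 (800, 800) (by decide +kernel)
           (CovZ.n2 (960, 800) (by decide +kernel)
            (CovZ.leaf K2_ok TP_l1554 _)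
            (CovZ.n1 (880, 880) (by decide +kernel)
             (CovZ.leaf K2_ok TP_l1555 _)
             (CovZ.leaf K2_ok TP_l1556 _)))
           (CovZ.n1 (800, 640) (by decide +kernel)
            (CovZ.badM (by decide +kernel))
            (CovZ.leaf K2_ok TP_l1557 _)))
          (CovZ.n1 (1120, 800) (by decide +kernel)
           (CovZ.n2 (1120, 640) (by decide +kernel)
            (CovZ.leaf K2_ok TP_l1558 _)
            (CovZ.leaf K2_ok TP_l1559 _))
           (CovZ.n1 (960, 800) (by decide +kernel)
            (CovZ.n2 (1040, 880) (by decide +kernel)
             (CovZ.leaf K2_ok TP_l1560 _)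
             (CovZ.leaf K2_ok TP_l1561 _))
            (CovZ.leaf K2_ok TP_l1562 _))))))
       (CovZ.n1 (640, 0) (by decide +kernel)
        (CovZ.badM (by decide +kernel))
        (CovZ.n1 (960, 320) (by decide +kernel)
         (CovZ.n2 (960, 0) (by decide +kernel)
          (CovZ.n2 (800, 160) (by decide +kernel)
           (CovZ.leaf K2_ok TP_l1563 _)
           (CovZ.leaf K2_ok TP_l1564 _))
          (CovZ.n1 (1120, 160) (by decide +kernel)
           (CovZ.leaf K2_ok TP_l1565 _)
           (CovZ.leaf K2_ok TP_l1566 _)))
         (CovZ.n1 (640, 320) (by decide +kernel)
          (CovZ.n2 (800, 480) (by decide +kernel)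
           (CovZ.n2 (800, 320) (by decide +kernel)
            (CovZ.badM (by decide +kernel))
            (CovZ.leaf K2_ok TP_l1567 _))
           (CovZ.badM (by decide +kernel)))
          (CovZ.n1 (800, 160) (by decide +kernel)
           (CovZ.badM (by decide +kernel))
           (CovZ.n1 (800, 320) (by decide +kernel)
            (CovZ.leaf K2_ok TP_l1568 _)
            (CovZ.badM (by decide +kernel)))))))))
     (CovZ.n1 (1920, 640) (by decide +kernel)
      (CovZ.n2 (1920, 0) (by decide +kernel)
       (CovZ.n2 (1600, 320) (by decide +kernel)
        (CovZ.n2 (1920, 320) (by decide +kernel)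
         (CovZ.leaf K2_ok TP_l1569 _)
         (CovZ.n1 (1760, 480) (by decide +kernel)
          (CovZ.leaf K2_ok TP_l1570 _)
          (CovZ.leaf K2_ok TP_l1571 _)))
        (CovZ.n1 (1600, 0) (by decide +kernel)
         (CovZ.n2 (1440, 160) (by decide +kernel)
          (CovZ.leaf K2_ok TP_l1572 _)
          (CovZ.leaf K2_ok TP_l1573 _))
         (CovZ.leaf K2_ok TP_l1574 _)))
       (CovZ.n1 (2240, 320) (by decide +kernel)
        (CovZ.n2 (2240, 0) (by decide +kernel)
         (CovZ.leaf K2_ok TP_l1575 _)
         (CovZ.leaf K2_ok TP_l1576 _))
        (CovZ.n1 (1920, 320) (by decide +kernel)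
         (CovZ.leaf K2_ok TP_l1577 _)
         (CovZ.leaf K2_ok TP_l1578 _))))
      (CovZ.n1 (1280, 640) (by decide +kernel)
       (CovZ.n2 (1600, 960) (by decide +kernel)
        (CovZ.n2 (1600, 640) (by decide +kernel)
         (CovZ.subM 12649048924161 (by decide +kernel)
          (CovZ.n2 (1440, 800) (by decide +kernel)
           (CovZ.n2 (1600, 800) (by decide +kernel)
            (CovZ.leaf K2_ok TP_l1579 _)
            (CovZ.leaf K2_ok TP_l1580 _))
           (CovZ.n1 (1440, 640) (by decide +kernel)
            (CovZ.leaf K2_ok TP_l1581 _)
            (CovZ.leaf K2_ok TP_l1582 _))))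
         (CovZ.n1 (1760, 800) (by decide +kernel)
          (CovZ.leaf K2_ok TP_l1583 _)
          (CovZ.leaf K2_ok TP_l1584 _)))
        (CovZ.subM 12649048924161 (by decide +kernel)
         (CovZ.n1 (1280, 960) (by decide +kernel)
          (CovZ.n2 (1440, 1120) (by decide +kernel)
           (CovZ.n2 (1440, 960) (by decide +kernel)
            (CovZ.n2 (1360, 1040) (by decide +kernel)
             (CovZ.leaf K2_ok TP_l1585 _)
             (CovZ.leaf K2_ok TP_l1586 _))
            (CovZ.leaf K2_ok TP_l1587 _))
           (CovZ.n1 (1280, 1120) (by decide +kernel)
            (CovZ.n2 (1360, 1200) (by decide +kernel)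
             (CovZ.n2 (1360, 1120) (by decide +kernel)
              (CovZ.leaf K2_ok TP_l1588 _)
              (CovZ.leaf K2_ok TP_l1589 _))
             (CovZ.n1 (1280, 1200) (by decide +kernel)
              (CovZ.leaf K2_ok TP_l1590 _)
              (CovZ.leaf K2_ok TP_l1591 _)))
            (CovZ.n1 (1360, 1040) (by decide +kernel)
             (CovZ.leaf K2_ok TP_l1592 _)
             (CovZ.n1 (1360, 1120) (by decide +kernel)
              (CovZ.leaf K2_ok TP_l1593 _)
              (CovZ.leaf K2_ok TP_l1594 _)))))
          (CovZ.n1 (1440, 800) (by decide +kernel)
           (CovZ.n2 (1280, 800) (by decide +kernel)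
            (CovZ.leaf K2_ok TP_l1595 _)
            (CovZ.leaf K2_ok TP_l1596 _))
           (CovZ.n1 (1440, 960) (by decide +kernel)
            (CovZ.leaf K2_ok TP_l1597 _)
            (CovZ.leaf K2_ok TP_l1598 _))))))
       (CovZ.n1 (1600, 320) (by decide +kernel)
        (CovZ.subM 12649048924161 (by decide +kernel)
         (CovZ.n2 (1280, 320) (by decide +kernel)
          (CovZ.n2 (1440, 480) (by decide +kernel)
           (CovZ.leaf K2_ok TP_l1599 _)
           (CovZ.leaf K2_ok TP_l1600 _))
          (CovZ.n1 (1440, 160) (by decide +kernel)
           (CovZ.leaf K2_ok TP_l1601 _)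
           (CovZ.leaf K2_ok TP_l1602 _))))
        (CovZ.n1 (1600, 640) (by decide +kernel)
         (CovZ.n2 (1760, 480) (by decide +kernel)
          (CovZ.leaf K2_ok TP_l1603 _)
          (CovZ.leaf K2_ok TP_l1604 _))
         (CovZ.n1 (1440, 480) (by decide +kernel)
          (CovZ.leaf K2_ok TP_l1605 _)
          (CovZ.leaf K2_ok TP_l1606 _)))))))

theorem TP_u20 : CovZ TP_M (toL (selN TP_LN 2749149836288)) [0, 7, 2, 5] (1600, 1600) (1760, 1760) (1600, 1920) :=
    (CovZ.n2 (1600, 1760) (by decide +kernel)
            (CovZ.subM 268506112 (by decide +kernel)
             (CovZ.n2 (1680, 1840) (by decide +kernel)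
              (CovZ.n2 (1680, 1760) (by decide +kernel)
               (CovZ.n2 (1640, 1800) (by decide +kernel)
                (CovZ.n2 (1680, 1800) (by decide +kernel)
                 (CovZ.n2 (1660, 1780) (by decide +kernel)
                  (CovZ.n2 (1660, 1800) (by decide +kernel)
                   (CovZ.n2 (1670, 1790) (by decide +kernel)
                    (CovZ.leaf K2_ok TP_l6899 _)
                    (CovZ.n1 (1670, 1800) (by decide +kernel)
                     (CovZ.leaf K2_ok TP_l6900 _)
                     (CovZ.leaf K2_ok TP_l6901 _)))
                   (CovZ.n1 (1650, 1790) (by decide +kernel)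
                    (CovZ.n2 (1650, 1800) (by decide +kernel)
                     (CovZ.leaf K2_ok TP_l6902 _)
                     (CovZ.leaf K2_ok TP_l6903 _))
                    (CovZ.leaf K2_ok TP_l6904 _)))
                  (CovZ.n1 (1680, 1780) (by decide +kernel)
                   (CovZ.leaf K2_ok TP_l1790 _)
                   (CovZ.n1 (1670, 1790) (by decide +kernel)
                    (CovZ.leaf K2_ok TP_l6905 _)
                    (CovZ.leaf K2_ok TP_l6906 _))))
                 (CovZ.n1 (1660, 1820) (by decide +kernel)
                  (CovZ.n2 (1680, 1820) (by decide +kernel)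
                   (CovZ.n2 (1670, 1810) (by decide +kernel)
                    (CovZ.n2 (1670, 1820) (by decide +kernel)
                     (CovZ.leaf K2_ok TP_l6907 _)
                     (CovZ.badM (by decide +kernel)))
                    (CovZ.n1 (1680, 1810) (by decide +kernel)
                     (CovZ.leaf K2_ok TP_l6908 _)
                     (CovZ.leaf K2_ok TP_l6909 _)))
                   (CovZ.n1 (1670, 1830) (by decide +kernel)
                    (CovZ.n2 (1680, 1830) (by decide +kernel)
                     (CovZ.n2 (1675, 1825) (by decide +kernel)
                      (CovZ.badM (by decide +kernel))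
                      (CovZ.leaf K2_ok TP_l6910 _))
                     (CovZ.badM (by decide +kernel)))
                    (CovZ.n1 (1670, 1820) (by decide +kernel)
                     (CovZ.badM (by decide +kernel))
                     (CovZ.n1 (1675, 1825) (by decide +kernel)
                      (CovZ.leaf K2_ok TP_l6911 _)
                      (CovZ.badM (by decide +kernel))))))
                  (CovZ.n1 (1660, 1800) (by decide +kernel)
                   (CovZ.badM (by decide +kernel))
                   (CovZ.n1 (1670, 1810) (by decide +kernel)
                    (CovZ.n2 (1670, 1800) (by decide +kernel)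
                     (CovZ.badM (by decide +kernel))
                     (CovZ.leaf K2_ok TP_l6912 _))
                    (CovZ.badM (by decide +kernel))))))
                (CovZ.n1 (1640, 1760) (by decide +kernel)
                 (CovZ.n2 (1620, 1780) (by decide +kernel)
                  (CovZ.n2 (1640, 1780) (by decide +kernel)
                   (CovZ.leaf K2_ok TP_l1791 _)
                   (CovZ.n1 (1630, 1790) (by decide +kernel)
                    (CovZ.leaf K2_ok TP_l6913 _)
                    (CovZ.leaf K2_ok TP_l6914 _)))
                  (CovZ.n1 (1620, 1760) (by decide +kernel)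
                   (CovZ.n2 (1610, 1770) (by decide +kernel)
                    (CovZ.leaf K2_ok TP_l6915 _)
                    (CovZ.leaf K2_ok TP_l6916 _))
                   (CovZ.leaf K2_ok TP_l1792 _)))
                 (CovZ.n1 (1660, 1780) (by decide +kernel)
                  (CovZ.n2 (1660, 1760) (by decide +kernel)
                   (CovZ.leaf K2_ok TP_l1793 _)
                   (CovZ.leaf K2_ok TP_l1794 _))
                  (CovZ.n1 (1640, 1780) (by decide +kernel)
                   (CovZ.leaf K2_ok TP_l6917 _)
                   (CovZ.leaf K2_ok TP_l1795 _)))))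
               (CovZ.n1 (1720, 1800) (by decide +kernel)
                (CovZ.n2 (1720, 1760) (by decide +kernel)
                 (CovZ.n2 (1700, 1780) (by decide +kernel)
                  (CovZ.n2 (1720, 1780) (by decide +kernel)
                   (CovZ.leaf K2_ok TP_l1796 _)
                   (CovZ.leaf K2_ok TP_l6918 _))
                  (CovZ.leaf K2_ok TP_l1797 _))
                 (CovZ.n1 (1740, 1780) (by decide +kernel)
                  (CovZ.leaf K2_ok TP_l1798 _)
                  (CovZ.leaf K2_ok TP_l1799 _)))
                (CovZ.n1 (1680, 1800) (by decide +kernel)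
                 (CovZ.n2 (1700, 1820) (by decide +kernel)
                  (CovZ.n2 (1700, 1800) (by decide +kernel)
                   (CovZ.n2 (1690, 1810) (by decide +kernel)
                    (CovZ.n2 (1700, 1810) (by decide +kernel)
                     (CovZ.leaf K2_ok TP_l6919 _)
                     (CovZ.leaf K2_ok TP_l6920 _))
                    (CovZ.leaf K2_ok TP_l6921 _))
                   (CovZ.leaf K2_ok TP_l6922 _))
                  (CovZ.n1 (1680, 1820) (by decide +kernel)
                   (CovZ.n2 (1690, 1830) (by decide +kernel)
                    (CovZ.n2 (1690, 1820) (by decide +kernel)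
                     (CovZ.n2 (1685, 1825) (by decide +kernel)
                      (CovZ.leaf K2_ok TP_l6923 _)
                      (CovZ.leaf K2_ok TP_l6924 _))
                     (CovZ.leaf K2_ok TP_l6925 _))
                    (CovZ.n1 (1680, 1830) (by decide +kernel)
                     (CovZ.badM (by decide +kernel))
                     (CovZ.n1 (1685, 1825) (by decide +kernel)
                      (CovZ.n2 (1680, 1825) (by decide +kernel)
                       (CovZ.badM (by decide +kernel))
                       (CovZ.leaf K2_ok TP_l6926 _))
                      (CovZ.badM (by decide +kernel)))))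
                   (CovZ.n1 (1690, 1810) (by decide +kernel)
                    (CovZ.leaf K2_ok TP_l6927 _)
                    (CovZ.n1 (1690, 1820) (by decide +kernel)
                     (CovZ.leaf K2_ok TP_l6928 _)
                     (CovZ.leaf K2_ok TP_l6929 _)))))
                 (CovZ.n1 (1700, 1780) (by decide +kernel)
                  (CovZ.n2 (1680, 1780) (by decide +kernel)
                   (CovZ.leaf K2_ok TP_l6930 _)
                   (CovZ.leaf K2_ok TP_l1800 _))
                  (CovZ.n1 (1700, 1800) (by decide +kernel)
                   (CovZ.leaf K2_ok TP_l6931 _)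
                   (CovZ.leaf K2_ok TP_l6932 _))))))
              (CovZ.n1 (1600, 1840) (by decide +kernel)
               (CovZ.badM (by decide +kernel))
               (CovZ.n1 (1640, 1800) (by decide +kernel)
                (CovZ.n2 (1600, 1800) (by decide +kernel)
                 (CovZ.badM (by decide +kernel))
                 (CovZ.n1 (1620, 1780) (by decide +kernel)
                  (CovZ.n2 (1600, 1780) (by decide +kernel)
                   (CovZ.n2 (1610, 1790) (by decide +kernel)
                    (CovZ.n2 (1610, 1780) (by decide +kernel)
                     (CovZ.badM (by decide +kernel))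
                     (CovZ.leaf K2_ok TP_l6933 _))
                    (CovZ.badM (by decide +kernel)))
                   (CovZ.n1 (1610, 1770) (by decide +kernel)
                    (CovZ.leaf K2_ok TP_l6934 _)
                    (CovZ.n1 (1610, 1780) (by decide +kernel)
                     (CovZ.leaf K2_ok TP_l6935 _)
                     (CovZ.leaf K2_ok TP_l6936 _))))
                  (CovZ.n1 (1620, 1800) (by decide +kernel)
                   (CovZ.n2 (1630, 1790) (by decide +kernel)
                    (CovZ.leaf K2_ok TP_l6937 _)
                    (CovZ.n1 (1630, 1800) (by decide +kernel)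
                     (CovZ.leaf K2_ok TP_l6938 _)
                     (CovZ.leaf K2_ok TP_l6939 _)))
                   (CovZ.n1 (1610, 1790) (by decide +kernel)
                    (CovZ.n2 (1610, 1800) (by decide +kernel)
                     (CovZ.n2 (1615, 1795) (by decide +kernel)
                      (CovZ.badM (by decide +kernel))
                      (CovZ.badM (by decide +kernel)))
                     (CovZ.badM (by decide +kernel)))
                    (CovZ.n1 (1620, 1790) (by decide +kernel)
                     (CovZ.leaf K2_ok TP_l6940 _)
                     (CovZ.n1 (1615, 1795) (by decide +kernel)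
                      (CovZ.leaf K2_ok TP_l6941 _)
                      (CovZ.leaf K2_ok TP_l6942 _)))))))
                (CovZ.n1 (1640, 1840) (by decide +kernel)
                 (CovZ.n2 (1660, 1820) (by decide +kernel)
                  (CovZ.badM (by decide +kernel))
                  (CovZ.n1 (1660, 1840) (by decide +kernel)
                   (CovZ.n2 (1670, 1830) (by decide +kernel)
                    (CovZ.badM (by decide +kernel))
                    (CovZ.badM (by decide +kernel)))
                   (CovZ.badM (by decide +kernel))))
                 (CovZ.badM (by decide +kernel)))))))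
            (CovZ.n1 (1680, 1680) (by decide +kernel)
             (CovZ.n2 (1600, 1680) (by decide +kernel)
              (CovZ.subM 302068736 (by decide +kernel)
               (CovZ.n2 (1640, 1720) (by decide +kernel)
                (CovZ.n2 (1640, 1680) (by decide +kernel)
                 (CovZ.n2 (1620, 1700) (by decide +kernel)
                  (CovZ.leaf K2_ok TP_l1801 _)
                  (CovZ.leaf K2_ok TP_l1802 _))
                 (CovZ.leaf K2_ok TP_l1803 _))
                (CovZ.n1 (1600, 1720) (by decide +kernel)
                 (CovZ.n2 (1620, 1740) (by decide +kernel)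
                  (CovZ.leaf K2_ok TP_l1804 _)
                  (CovZ.leaf K2_ok TP_l6943 _))
                 (CovZ.n1 (1620, 1700) (by decide +kernel)
                  (CovZ.leaf K2_ok TP_l1805 _)
                  (CovZ.leaf K2_ok TP_l1806 _)))))
              (CovZ.n1 (1640, 1640) (by decide +kernel)
               (CovZ.leaf K2_ok TP_l1807 _)
               (CovZ.n1 (1640, 1680) (by decide +kernel)
                (CovZ.leaf K2_ok TP_l1808 _)
                (CovZ.leaf K2_ok TP_l1809 _))))
             (CovZ.subM 302068736 (by decide +kernel)
              (CovZ.n1 (1680, 1760) (by decide +kernel)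
               (CovZ.n2 (1720, 1720) (by decide +kernel)
                (CovZ.n2 (1680, 1720) (by decide +kernel)
                 (CovZ.leaf K2_ok TP_l1810 _)
                 (CovZ.leaf K2_ok TP_l1811 _))
                (CovZ.n1 (1720, 1760) (by decide +kernel)
                 (CovZ.n2 (1740, 1740) (by decide +kernel)
                  (CovZ.leaf K2_ok TP_l1812 _)
                  (CovZ.leaf K2_ok TP_l1813 _))
                 (CovZ.n1 (1700, 1740) (by decide +kernel)
                  (CovZ.leaf K2_ok TP_l1814 _)
                  (CovZ.leaf K2_ok TP_l1815 _))))
               (CovZ.n1 (1640, 1720) (by decide +kernel)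
                (CovZ.n2 (1640, 1760) (by decide +kernel)
                 (CovZ.n2 (1660, 1740) (by decide +kernel)
                  (CovZ.leaf K2_ok TP_l1816 _)
                  (CovZ.n1 (1660, 1760) (by decide +kernel)
                   (CovZ.leaf K2_ok TP_l1817 _)
                   (CovZ.leaf K2_ok TP_l1818 _)))
                 (CovZ.n1 (1620, 1740) (by decide +kernel)
                  (CovZ.n2 (1620, 1760) (by decide +kernel)
                   (CovZ.leaf K2_ok TP_l1819 _)
                   (CovZ.leaf K2_ok TP_l6944 _))
                  (CovZ.leaf K2_ok TP_l1820 _)))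
                (CovZ.n1 (1680, 1720) (by decide +kernel)
                 (CovZ.leaf K2_ok TP_l1821 _)
                 (CovZ.n1 (1660, 1740) (by decide +kernel)
                  (CovZ.leaf K2_ok TP_l1822 _)
                  (CovZ.leaf K2_ok TP_l1823 _))))))))

theorem TP_u21 : CovZ TP_M (toL (selN TP_LN 2749149836288)) [0, 7, 2, 5] (1760, 1760) (1920, 1920) (1600, 1920) :=
    (CovZ.subM 269030400 (by decide +kernel)
            (CovZ.n1 (1760, 1920) (by decide +kernel)
             (CovZ.n2 (1840, 1840) (by decide +kernel)
              (CovZ.n2 (1760, 1840) (by decide +kernel)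
               (CovZ.badM (by decide +kernel))
               (CovZ.n1 (1800, 1800) (by decide +kernel)
                (CovZ.n2 (1760, 1800) (by decide +kernel)
                 (CovZ.n2 (1780, 1820) (by decide +kernel)
                  (CovZ.n2 (1780, 1800) (by decide +kernel)
                   (CovZ.leaf K2_ok TP_l6945 _)
                   (CovZ.leaf K2_ok TP_l6946 _))
                  (CovZ.n1 (1760, 1820) (by decide +kernel)
                   (CovZ.leaf K2_ok TP_l6947 _)
                   (CovZ.leaf K2_ok TP_l6948 _)))
                 (CovZ.n1 (1780, 1780) (by decide +kernel)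
                  (CovZ.leaf K2_ok TP_l1824 _)
                  (CovZ.leaf K2_ok TP_l6949 _)))
                (CovZ.n1 (1800, 1840) (by decide +kernel)
                 (CovZ.n2 (1820, 1820) (by decide +kernel)
                  (CovZ.leaf K2_ok TP_l6950 _)
                  (CovZ.n1 (1820, 1840) (by decide +kernel)
                   (CovZ.leaf K2_ok TP_l6951 _)
                   (CovZ.leaf K2_ok TP_l6952 _)))
                 (CovZ.n1 (1780, 1820) (by decide +kernel)
                  (CovZ.n2 (1780, 1840) (by decide +kernel)
                   (CovZ.n2 (1790, 1830) (by decide +kernel)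
                    (CovZ.leaf K2_ok TP_l6953 _)
                    (CovZ.badM (by decide +kernel)))
                   (CovZ.n1 (1770, 1830) (by decide +kernel)
                    (CovZ.badM (by decide +kernel))
                    (CovZ.leaf K2_ok TP_l6954 _)))
                  (CovZ.n1 (1800, 1820) (by decide +kernel)
                   (CovZ.leaf K2_ok TP_l6955 _)
                   (CovZ.leaf K2_ok TP_l6956 _))))))
              (CovZ.n1 (1840, 1920) (by decide +kernel)
               (CovZ.n2 (1880, 1880) (by decide +kernel)
                (CovZ.n2 (1840, 1880) (by decide +kernel)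
                 (CovZ.n2 (1860, 1900) (by decide +kernel)
                  (CovZ.n2 (1860, 1880) (by decide +kernel)
                   (CovZ.badM (by decide +kernel))
                   (CovZ.n1 (1870, 1890) (by decide +kernel)
                    (CovZ.leaf K2_ok TP_l6957 _)
                    (CovZ.badM (by decide +kernel))))
                  (CovZ.badM (by decide +kernel)))
                 (CovZ.n1 (1860, 1860) (by decide +kernel)
                  (CovZ.badM (by decide +kernel))
                  (CovZ.n1 (1860, 1880) (by decide +kernel)
                   (CovZ.leaf K2_ok TP_l1825 _)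
                   (CovZ.badM (by decide +kernel)))))
                (CovZ.n1 (1880, 1920) (by decide +kernel)
                 (CovZ.n2 (1900, 1900) (by decide +kernel)
                  (CovZ.n2 (1880, 1900) (by decide +kernel)
                   (CovZ.n2 (1890, 1910) (by decide +kernel)
                    (CovZ.leaf K2_ok TP_l6958 _)
                    (CovZ.n1 (1880, 1910) (by decide +kernel)
                     (CovZ.badM (by decide +kernel))
                     (CovZ.leaf K2_ok TP_l6959 _)))
                   (CovZ.leaf K2_ok TP_l6960 _))
                  (CovZ.n1 (1900, 1920) (by decide +kernel)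
                   (CovZ.n2 (1910, 1910) (by decide +kernel)
                    (CovZ.leaf K2_ok TP_l6961 _)
                    (CovZ.badM (by decide +kernel)))
                   (CovZ.n1 (1890, 1910) (by decide +kernel)
                    (CovZ.badM (by decide +kernel))
                    (CovZ.n1 (1900, 1910) (by decide +kernel)
                     (CovZ.leaf K2_ok TP_l6962 _)
                     (CovZ.badM (by decide +kernel))))))
                 (CovZ.n1 (1860, 1900) (by decide +kernel)
                  (CovZ.n2 (1860, 1920) (by decide +kernel)
                   (CovZ.n2 (1870, 1910) (by decide +kernel)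
                    (CovZ.badM (by decide +kernel))
                    (CovZ.badM (by decide +kernel)))
                   (CovZ.badM (by decide +kernel)))
                  (CovZ.n1 (1880, 1900) (by decide +kernel)
                   (CovZ.n2 (1870, 1890) (by decide +kernel)
                    (CovZ.n2 (1870, 1900) (by decide +kernel)
                     (CovZ.n2 (1875, 1895) (by decide +kernel)
                      (CovZ.leaf K2_ok TP_l6963 _)
                      (CovZ.leaf K2_ok TP_l6964 _))
                     (CovZ.badM (by decide +kernel)))
                    (CovZ.leaf K2_ok TP_l6965 _))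
                   (CovZ.n1 (1870, 1910) (by decide +kernel)
                    (CovZ.n2 (1880, 1910) (by decide +kernel)
                     (CovZ.leaf K2_ok TP_l6966 _)
                     (CovZ.badM (by decide +kernel)))
                    (CovZ.leaf K2_ok TP_l6967 _))))))
               (CovZ.badM (by decide +kernel))))
             (CovZ.n1 (1680, 1840) (by decide +kernel)
              (CovZ.badM (by decide +kernel))
              (CovZ.n1 (1760, 1840) (by decide +kernel)
               (CovZ.n2 (1720, 1800) (by decide +kernel)
                (CovZ.n2 (1720, 1840) (by decide +kernel)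
                 (CovZ.n2 (1740, 1820) (by decide +kernel)
                  (CovZ.n2 (1720, 1820) (by decide +kernel)
                   (CovZ.n2 (1730, 1830) (by decide +kernel)
                    (CovZ.leaf K2_ok TP_l6968 _)
                    (CovZ.n1 (1720, 1830) (by decide +kernel)
                     (CovZ.badM (by decide +kernel))
                     (CovZ.leaf K2_ok TP_l6969 _)))
                   (CovZ.n1 (1730, 1810) (by decide +kernel)
                    (CovZ.leaf K2_ok TP_l6970 _)
                    (CovZ.leaf K2_ok TP_l6971 _)))
                  (CovZ.n1 (1740, 1840) (by decide +kernel)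
                   (CovZ.n2 (1750, 1830) (by decide +kernel)
                    (CovZ.leaf K2_ok TP_l6972 _)
                    (CovZ.badM (by decide +kernel)))
                   (CovZ.n1 (1730, 1830) (by decide +kernel)
                    (CovZ.badM (by decide +kernel))
                    (CovZ.n1 (1740, 1830) (by decide +kernel)
                     (CovZ.leaf K2_ok TP_l6973 _)
                     (CovZ.badM (by decide +kernel))))))
                 (CovZ.n1 (1700, 1820) (by decide +kernel)
                  (CovZ.n2 (1700, 1840) (by decide +kernel)
                   (CovZ.n2 (1710, 1830) (by decide +kernel)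
                    (CovZ.n2 (1700, 1830) (by decide +kernel)
                     (CovZ.badM (by decide +kernel))
                     (CovZ.leaf K2_ok TP_l6974 _))
                    (CovZ.badM (by decide +kernel)))
                   (CovZ.n1 (1690, 1830) (by decide +kernel)
                    (CovZ.badM (by decide +kernel))
                    (CovZ.n1 (1700, 1830) (by decide +kernel)
                     (CovZ.n2 (1695, 1825) (by decide +kernel)
                      (CovZ.badM (by decide +kernel))
                      (CovZ.leaf K2_ok TP_l6975 _))
                     (CovZ.badM (by decide +kernel)))))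
                  (CovZ.n1 (1720, 1820) (by decide +kernel)
                   (CovZ.n2 (1710, 1810) (by decide +kernel)
                    (CovZ.leaf K2_ok TP_l6976 _)
                    (CovZ.leaf K2_ok TP_l6977 _))
                   (CovZ.n1 (1710, 1830) (by decide +kernel)
                    (CovZ.n2 (1720, 1830) (by decide +kernel)
                     (CovZ.leaf K2_ok TP_l6978 _)
                     (CovZ.badM (by decide +kernel)))
                    (CovZ.n1 (1710, 1820) (by decide +kernel)
                     (CovZ.leaf K2_ok TP_l6979 _)
                     (CovZ.leaf K2_ok TP_l6980 _))))))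
                (CovZ.n1 (1760, 1800) (by decide +kernel)
                 (CovZ.n2 (1740, 1780) (by decide +kernel)
                  (CovZ.n2 (1740, 1800) (by decide +kernel)
                   (CovZ.leaf K2_ok TP_l6981 _)
                   (CovZ.leaf K2_ok TP_l6982 _))
                  (CovZ.leaf K2_ok TP_l1826 _))
                 (CovZ.n1 (1740, 1820) (by decide +kernel)
                  (CovZ.n2 (1760, 1820) (by decide +kernel)
                   (CovZ.leaf K2_ok TP_l6983 _)
                   (CovZ.n1 (1750, 1830) (by decide +kernel)
                    (CovZ.n2 (1760, 1830) (by decide +kernel)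
                     (CovZ.leaf K2_ok TP_l6984 _)
                     (CovZ.badM (by decide +kernel)))
                    (CovZ.leaf K2_ok TP_l6985 _)))
                  (CovZ.n1 (1740, 1800) (by decide +kernel)
                   (CovZ.leaf K2_ok TP_l6986 _)
                   (CovZ.leaf K2_ok TP_l6987 _)))))
               (CovZ.badM (by decide +kernel))))))

theorem TP_u22 : CovZ TP_M (toL (selN TP_LN 83076749736708948079762983966307329)) [0, 7, 2, 5] (1280, 1280) (1600, 1600) (1280, 1920) :=
    (CovZ.subM 12649048924161 (by decide +kernel)
         (CovZ.n2 (1280, 1600) (by decide +kernel)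
          (CovZ.n2 (1440, 1760) (by decide +kernel)
           (CovZ.n2 (1440, 1600) (by decide +kernel)
            (CovZ.subM 2748847243264 (by decide +kernel)
             (CovZ.n2 (1360, 1680) (by decide +kernel)
              (CovZ.n2 (1440, 1680) (by decide +kernel)
               (CovZ.n2 (1400, 1640) (by decide +kernel)
                (CovZ.n2 (1400, 1680) (by decide +kernel)
                 (CovZ.n2 (1420, 1660) (by decide +kernel)
                  (CovZ.n2 (1400, 1660) (by decide +kernel)
                   (CovZ.leaf K2_ok TP_l6887 _)
                   (CovZ.leaf K2_ok TP_l1699 _))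
                  (CovZ.n1 (1420, 1680) (by decide +kernel)
                   (CovZ.leaf K2_ok TP_l1700 _)
                   (CovZ.n1 (1410, 1670) (by decide +kernel)
                    (CovZ.badM (by decide +kernel))
                    (CovZ.leaf K2_ok TP_l6888 _))))
                 (CovZ.n1 (1380, 1660) (by decide +kernel)
                  (CovZ.badM (by decide +kernel))
                  (CovZ.n1 (1400, 1660) (by decide +kernel)
                   (CovZ.leaf K2_ok TP_l1701 _)
                   (CovZ.badM (by decide +kernel)))))
                (CovZ.n1 (1440, 1640) (by decide +kernel)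
                 (CovZ.n2 (1420, 1620) (by decide +kernel)
                  (CovZ.leaf K2_ok TP_l1702 _)
                  (CovZ.leaf K2_ok TP_l1703 _))
                 (CovZ.n1 (1420, 1660) (by decide +kernel)
                  (CovZ.n2 (1440, 1660) (by decide +kernel)
                   (CovZ.leaf K2_ok TP_l1704 _)
                   (CovZ.leaf K2_ok TP_l1705 _))
                  (CovZ.n1 (1420, 1640) (by decide +kernel)
                   (CovZ.leaf K2_ok TP_l1706 _)
                   (CovZ.leaf K2_ok TP_l1707 _)))))
               (CovZ.badM (by decide +kernel)))
              (CovZ.n1 (1360, 1600) (by decide +kernel)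
               (CovZ.n2 (1320, 1640) (by decide +kernel)
                (CovZ.n2 (1360, 1640) (by decide +kernel)
                 (CovZ.n2 (1340, 1620) (by decide +kernel)
                  (CovZ.n2 (1340, 1640) (by decide +kernel)
                   (CovZ.leaf K2_ok TP_l6889 _)
                   (CovZ.n1 (1330, 1630) (by decide +kernel)
                    (CovZ.leaf K2_ok TP_l6890 _)
                    (CovZ.leaf K2_ok TP_l6891 _)))
                  (CovZ.n1 (1360, 1620) (by decide +kernel)
                   (CovZ.leaf K2_ok TP_l1708 _)
                   (CovZ.n1 (1350, 1630) (by decide +kernel)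
                    (CovZ.leaf K2_ok TP_l6892 _)
                    (CovZ.leaf K2_ok TP_l6893 _))))
                 (CovZ.badM (by decide +kernel)))
                (CovZ.n1 (1320, 1600) (by decide +kernel)
                 (CovZ.n2 (1300, 1620) (by decide +kernel)
                  (CovZ.n2 (1320, 1620) (by decide +kernel)
                   (CovZ.leaf K2_ok TP_l1709 _)
                   (CovZ.leaf K2_ok TP_l6894 _))
                  (CovZ.n1 (1300, 1600) (by decide +kernel)
                   (CovZ.leaf K2_ok TP_l1710 _)
                   (CovZ.leaf K2_ok TP_l1711 _)))
                 (CovZ.n1 (1340, 1620) (by decide +kernel)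
                  (CovZ.leaf K2_ok TP_l1712 _)
                  (CovZ.n1 (1320, 1620) (by decide +kernel)
                   (CovZ.leaf K2_ok TP_l6895 _)
                   (CovZ.leaf K2_ok TP_l1713 _)))))
               (CovZ.n1 (1400, 1640) (by decide +kernel)
                (CovZ.n2 (1400, 1600) (by decide +kernel)
                 (CovZ.n2 (1380, 1620) (by decide +kernel)
                  (CovZ.leaf K2_ok TP_l1714 _)
                  (CovZ.leaf K2_ok TP_l1715 _))
                 (CovZ.leaf K2_ok TP_l1716 _))
                (CovZ.n1 (1360, 1640) (by decide +kernel)
                 (CovZ.n2 (1380, 1660) (by decide +kernel)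
                  (CovZ.n2 (1380, 1640) (by decide +kernel)
                   (CovZ.leaf K2_ok TP_l1717 _)
                   (CovZ.leaf K2_ok TP_l1718 _))
                  (CovZ.n1 (1360, 1660) (by decide +kernel)
                   (CovZ.badM (by decide +kernel))
                   (CovZ.leaf K2_ok TP_l1719 _)))
                 (CovZ.n1 (1380, 1620) (by decide +kernel)
                  (CovZ.leaf K2_ok TP_l1720 _)
                  (CovZ.n1 (1380, 1640) (by decide +kernel)
                   (CovZ.leaf K2_ok TP_l1721 _)
                   (CovZ.leaf K2_ok TP_l1722 _))))))))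
            (CovZ.n1 (1520, 1680) (by decide +kernel)
             (CovZ.n2 (1520, 1600) (by decide +kernel)
              (CovZ.subM 2748880797696 (by decide +kernel)
               (CovZ.n2 (1480, 1640) (by decide +kernel)
                (CovZ.n2 (1520, 1640) (by decide +kernel)
                 (CovZ.leaf K2_ok TP_l1723 _)
                 (CovZ.n1 (1500, 1660) (by decide +kernel)
                  (CovZ.leaf K2_ok TP_l1724 _)
                  (CovZ.leaf K2_ok TP_l1725 _)))
                (CovZ.n1 (1480, 1600) (by decide +kernel)
                 (CovZ.leaf K2_ok TP_l1726 _)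
                 (CovZ.leaf K2_ok TP_l1727 _))))
              (CovZ.n1 (1560, 1640) (by decide +kernel)
               (CovZ.n2 (1560, 1600) (by decide +kernel)
                (CovZ.leaf K2_ok TP_l1728 _)
                (CovZ.leaf K2_ok TP_l1729 _))
               (CovZ.n1 (1520, 1640) (by decide +kernel)
                (CovZ.leaf K2_ok TP_l1730 _)
                (CovZ.leaf K2_ok TP_l1731 _))))
             (CovZ.subM 2748880797696 (by decide +kernel)
              (CovZ.n1 (1440, 1680) (by decide +kernel)
               (CovZ.subM 33554432 (by decide +kernel)
                (CovZ.n2 (1480, 1720) (by decide +kernel)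
                 (CovZ.n2 (1480, 1680) (by decide +kernel)
                  (CovZ.badM (by decide +kernel))
                  (CovZ.n1 (1500, 1700) (by decide +kernel)
                   (CovZ.n2 (1500, 1680) (by decide +kernel)
                    (CovZ.leaf K2_ok TP_l6896 _)
                    (CovZ.leaf K2_ok TP_l1732 _))
                   (CovZ.n1 (1480, 1700) (by decide +kernel)
                    (CovZ.badM (by decide +kernel))
                    (CovZ.n1 (1490, 1690) (by decide +kernel)
                     (CovZ.leaf K2_ok TP_l6897 _)
                     (CovZ.badM (by decide +kernel))))))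
                 (CovZ.badM (by decide +kernel))))
               (CovZ.n1 (1480, 1640) (by decide +kernel)
                (CovZ.n2 (1440, 1640) (by decide +kernel)
                 (CovZ.n2 (1460, 1660) (by decide +kernel)
                  (CovZ.leaf K2_ok TP_l1733 _)
                  (CovZ.leaf K2_ok TP_l1734 _))
                 (CovZ.leaf K2_ok TP_l1735 _))
                (CovZ.subM 100679680 (by decide +kernel)
                 (CovZ.n1 (1480, 1680) (by decide +kernel)
                  (CovZ.n2 (1500, 1660) (by decide +kernel)
                   (CovZ.leaf K2_ok TP_l1736 _)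
                   (CovZ.n1 (1500, 1680) (by decide +kernel)
                    (CovZ.leaf K2_ok TP_l1737 _)
                    (CovZ.leaf K2_ok TP_l1738 _)))
                  (CovZ.n1 (1460, 1660) (by decide +kernel)
                   (CovZ.n2 (1460, 1680) (by decide +kernel)
                    (CovZ.leaf K2_ok TP_l1739 _)
                    (CovZ.leaf K2_ok TP_l1740 _))
                   (CovZ.leaf K2_ok TP_l1741 _)))))))))
           (CovZ.subM 2748847243264 (by decide +kernel)
            (CovZ.n1 (1280, 1760) (by decide +kernel)
             (CovZ.badM (by decide +kernel))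
             (CovZ.n1 (1360, 1680) (by decide +kernel)
              (CovZ.n2 (1280, 1680) (by decide +kernel)
               (CovZ.badM (by decide +kernel))
               (CovZ.n1 (1320, 1640) (by decide +kernel)
                (CovZ.n2 (1280, 1640) (by decide +kernel)
                 (CovZ.badM (by decide +kernel))
                 (CovZ.n1 (1300, 1620) (by decide +kernel)
                  (CovZ.n2 (1280, 1620) (by decide +kernel)
                   (CovZ.badM (by decide +kernel))
                   (CovZ.leaf K2_ok TP_l1742 _))
                  (CovZ.n1 (1300, 1640) (by decide +kernel)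
                   (CovZ.leaf K2_ok TP_l6898 _)
                   (CovZ.badM (by decide +kernel)))))
                (CovZ.badM (by decide +kernel))))
              (CovZ.badM (by decide +kernel))))))
          (CovZ.n1 (1440, 1440) (by decide +kernel)
           (CovZ.n2 (1280, 1440) (by decide +kernel)
            (CovZ.n2 (1360, 1520) (by decide +kernel)
             (CovZ.n2 (1360, 1440) (by decide +kernel)
              (CovZ.n2 (1320, 1480) (by decide +kernel)
               (CovZ.leaf K2_ok TP_l1743 _)
               (CovZ.leaf K2_ok TP_l1744 _))
              (CovZ.n1 (1400, 1480) (by decide +kernel)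
               (CovZ.leaf K2_ok TP_l1745 _)
               (CovZ.leaf K2_ok TP_l1746 _)))
             (CovZ.subM 12648679735296 (by decide +kernel)
              (CovZ.n1 (1280, 1520) (by decide +kernel)
               (CovZ.n2 (1320, 1560) (by decide +kernel)
                (CovZ.n2 (1320, 1520) (by decide +kernel)
                 (CovZ.n2 (1300, 1540) (by decide +kernel)
                  (CovZ.leaf K2_ok TP_l1747 _)
                  (CovZ.leaf K2_ok TP_l1748 _))
                 (CovZ.leaf K2_ok TP_l1749 _))
                (CovZ.n1 (1280, 1560) (by decide +kernel)
                 (CovZ.n2 (1300, 1580) (by decide +kernel)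
                  (CovZ.leaf K2_ok TP_l1750 _)
                  (CovZ.n1 (1280, 1580) (by decide +kernel)
                   (CovZ.leaf K2_ok TP_l1751 _)
                   (CovZ.leaf K2_ok TP_l1752 _)))
                 (CovZ.leaf K2_ok TP_l1753 _)))
               (CovZ.n1 (1320, 1480) (by decide +kernel)
                (CovZ.leaf K2_ok TP_l1754 _)
                (CovZ.n1 (1320, 1520) (by decide +kernel)
                 (CovZ.leaf K2_ok TP_l1755 _)
                 (CovZ.leaf K2_ok TP_l1756 _))))))
            (CovZ.n1 (1360, 1360) (by decide +kernel)
             (CovZ.n2 (1280, 1360) (by decide +kernel)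
              (CovZ.leaf K2_ok TP_l1757 _)
              (CovZ.leaf K2_ok TP_l1758 _))
             (CovZ.n1 (1360, 1440) (by decide +kernel)
              (CovZ.leaf K2_ok TP_l1759 _)
              (CovZ.leaf K2_ok TP_l1760 _))))
           (CovZ.n1 (1440, 1600) (by decide +kernel)
            (CovZ.n2 (1520, 1520) (by decide +kernel)
             (CovZ.n2 (1440, 1520) (by decide +kernel)
              (CovZ.n2 (1480, 1560) (by decide +kernel)
               (CovZ.leaf K2_ok TP_l1761 _)
               (CovZ.leaf K2_ok TP_l1762 _))
              (CovZ.leaf K2_ok TP_l1763 _))
             (CovZ.n1 (1520, 1600) (by decide +kernel)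
              (CovZ.n2 (1560, 1560) (by decide +kernel)
               (CovZ.leaf K2_ok TP_l1764 _)
               (CovZ.n1 (1560, 1600) (by decide +kernel)
                (CovZ.leaf K2_ok TP_l1765 _)
                (CovZ.leaf K2_ok TP_l1766 _)))
              (CovZ.n1 (1480, 1560) (by decide +kernel)
               (CovZ.n2 (1480, 1600) (by decide +kernel)
                (CovZ.leaf K2_ok TP_l1767 _)
                (CovZ.leaf K2_ok TP_l1768 _))
               (CovZ.leaf K2_ok TP_l1769 _))))
            (CovZ.n1 (1360, 1520) (by decide +kernel)
             (CovZ.subM 12644451893248 (by decide +kernel)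
              (CovZ.n2 (1360, 1600) (by decide +kernel)
               (CovZ.n2 (1400, 1560) (by decide +kernel)
                (CovZ.n2 (1360, 1560) (by decide +kernel)
                 (CovZ.leaf K2_ok TP_l1770 _)
                 (CovZ.leaf K2_ok TP_l1771 _))
                (CovZ.n1 (1400, 1600) (by decide +kernel)
                 (CovZ.leaf K2_ok TP_l1772 _)
                 (CovZ.n1 (1380, 1580) (by decide +kernel)
                  (CovZ.leaf K2_ok TP_l1773 _)
                  (CovZ.leaf K2_ok TP_l1774 _))))
               (CovZ.n1 (1320, 1560) (by decide +kernel)
                (CovZ.subM 11544873140224 (by decide +kernel)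
                 (CovZ.n2 (1320, 1600) (by decide +kernel)
                  (CovZ.n2 (1340, 1580) (by decide +kernel)
                   (CovZ.leaf K2_ok TP_l1775 _)
                   (CovZ.leaf K2_ok TP_l1776 _))
                  (CovZ.n1 (1300, 1580) (by decide +kernel)
                   (CovZ.n2 (1300, 1600) (by decide +kernel)
                    (CovZ.leaf K2_ok TP_l1777 _)
                    (CovZ.leaf K2_ok TP_l1778 _))
                   (CovZ.n1 (1320, 1580) (by decide +kernel)
                    (CovZ.leaf K2_ok TP_l1779 _)
                    (CovZ.leaf K2_ok TP_l1780 _)))))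
                (CovZ.n1 (1360, 1560) (by decide +kernel)
                 (CovZ.leaf K2_ok TP_l1781 _)
                 (CovZ.n1 (1340, 1580) (by decide +kernel)
                  (CovZ.leaf K2_ok TP_l1782 _)
                  (CovZ.leaf K2_ok TP_l1783 _))))))
             (CovZ.n1 (1440, 1520) (by decide +kernel)
              (CovZ.n2 (1400, 1480) (by decide +kernel)
               (CovZ.leaf K2_ok TP_l1784 _)
               (CovZ.leaf K2_ok TP_l1785 _))
              (CovZ.subM 12644451893248 (by decide +kernel)
               (CovZ.n1 (1400, 1560) (by decide +kernel)
                (CovZ.n2 (1440, 1560) (by decide +kernel)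
                 (CovZ.leaf K2_ok TP_l1786 _)
                 (CovZ.leaf K2_ok TP_l1787 _))
                (CovZ.n1 (1400, 1520) (by decide +kernel)
                 (CovZ.leaf K2_ok TP_l1788 _)
                 (CovZ.leaf K2_ok TP_l1789 _))))))))))

theorem TP_u23 : CovZ TP_M (toL (selN TP_LN 83076749736708948079762983966307329)) [0, 7, 2, 5] (1600, 1600) (1920, 1920) (1280, 1920) :=
    (CovZ.subM 2749149836288 (by decide +kernel)
         (CovZ.n1 (1600, 1920) (by decide +kernel)
          (CovZ.n2 (1760, 1760) (by decide +kernel)
           TP_u20
           TP_u21)
          (CovZ.n1 (1440, 1760) (by decide +kernel)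
           (CovZ.n2 (1440, 1920) (by decide +kernel)
            (CovZ.n2 (1520, 1840) (by decide +kernel)
             (CovZ.badM (by decide +kernel))
             (CovZ.badM (by decide +kernel)))
            (CovZ.badM (by decide +kernel)))
           (CovZ.n1 (1600, 1760) (by decide +kernel)
            (CovZ.n2 (1520, 1680) (by decide +kernel)
             (CovZ.subM 302063616 (by decide +kernel)
              (CovZ.n2 (1520, 1760) (by decide +kernel)
               (CovZ.n2 (1560, 1720) (by decide +kernel)
                (CovZ.n2 (1520, 1720) (by decide +kernel)
                 (CovZ.n2 (1540, 1740) (by decide +kernel)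
                  (CovZ.n2 (1540, 1720) (by decide +kernel)
                   (CovZ.badM (by decide +kernel))
                   (CovZ.n1 (1550, 1730) (by decide +kernel)
                    (CovZ.leaf K2_ok TP_l6988 _)
                    (CovZ.badM (by decide +kernel))))
                  (CovZ.badM (by decide +kernel)))
                 (CovZ.n1 (1540, 1700) (by decide +kernel)
                  (CovZ.n2 (1520, 1700) (by decide +kernel)
                   (CovZ.badM (by decide +kernel))
                   (CovZ.leaf K2_ok TP_l1827 _))
                  (CovZ.n1 (1540, 1720) (by decide +kernel)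
                   (CovZ.leaf K2_ok TP_l6989 _)
                   (CovZ.badM (by decide +kernel)))))
                (CovZ.n1 (1560, 1760) (by decide +kernel)
                 (CovZ.n2 (1580, 1740) (by decide +kernel)
                  (CovZ.n2 (1560, 1740) (by decide +kernel)
                   (CovZ.n2 (1570, 1750) (by decide +kernel)
                    (CovZ.leaf K2_ok TP_l6990 _)
                    (CovZ.leaf K2_ok TP_l6991 _))
                   (CovZ.leaf K2_ok TP_l6992 _))
                  (CovZ.n1 (1580, 1760) (by decide +kernel)
                   (CovZ.leaf K2_ok TP_l6993 _)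
                   (CovZ.n1 (1570, 1750) (by decide +kernel)
                    (CovZ.n2 (1570, 1760) (by decide +kernel)
                     (CovZ.leaf K2_ok TP_l6994 _)
                     (CovZ.leaf K2_ok TP_l6995 _))
                    (CovZ.leaf K2_ok TP_l6996 _))))
                 (CovZ.n1 (1540, 1740) (by decide +kernel)
                  (CovZ.n2 (1540, 1760) (by decide +kernel)
                   (CovZ.n2 (1550, 1750) (by decide +kernel)
                    (CovZ.badM (by decide +kernel))
                    (CovZ.n1 (1550, 1760) (by decide +kernel)
                     (CovZ.leaf K2_ok TP_l6997 _)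
                     (CovZ.badM (by decide +kernel))))
                   (CovZ.badM (by decide +kernel)))
                  (CovZ.n1 (1560, 1740) (by decide +kernel)
                   (CovZ.n2 (1550, 1730) (by decide +kernel)
                    (CovZ.leaf K2_ok TP_l6998 _)
                    (CovZ.leaf K2_ok TP_l6999 _))
                   (CovZ.n1 (1550, 1750) (by decide +kernel)
                    (CovZ.leaf K2_ok TP_l7000 _)
                    (CovZ.leaf K2_ok TP_l7001 _))))))
               (CovZ.n1 (1480, 1720) (by decide +kernel)
                (CovZ.badM (by decide +kernel))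
                (CovZ.n1 (1520, 1720) (by decide +kernel)
                 (CovZ.n2 (1500, 1700) (by decide +kernel)
                  (CovZ.badM (by decide +kernel))
                  (CovZ.n1 (1520, 1700) (by decide +kernel)
                   (CovZ.leaf K2_ok TP_l1828 _)
                   (CovZ.badM (by decide +kernel))))
                 (CovZ.badM (by decide +kernel))))))
             (CovZ.n1 (1600, 1680) (by decide +kernel)
              (CovZ.n2 (1560, 1640) (by decide +kernel)
               (CovZ.n2 (1560, 1680) (by decide +kernel)
                (CovZ.leaf K2_ok TP_l1829 _)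
                (CovZ.leaf K2_ok TP_l1830 _))
               (CovZ.n1 (1600, 1640) (by decide +kernel)
                (CovZ.leaf K2_ok TP_l1831 _)
                (CovZ.leaf K2_ok TP_l1832 _)))
              (CovZ.subM 302063616 (by decide +kernel)
               (CovZ.n1 (1560, 1720) (by decide +kernel)
                (CovZ.n2 (1600, 1720) (by decide +kernel)
                 (CovZ.n2 (1580, 1700) (by decide +kernel)
                  (CovZ.n2 (1580, 1720) (by decide +kernel)
                   (CovZ.leaf K2_ok TP_l7002 _)
                   (CovZ.leaf K2_ok TP_l7003 _))
                  (CovZ.leaf K2_ok TP_l1833 _))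
                 (CovZ.n1 (1580, 1740) (by decide +kernel)
                  (CovZ.n2 (1600, 1740) (by decide +kernel)
                   (CovZ.leaf K2_ok TP_l7004 _)
                   (CovZ.leaf K2_ok TP_l7005 _))
                  (CovZ.n1 (1580, 1720) (by decide +kernel)
                   (CovZ.leaf K2_ok TP_l7006 _)
                   (CovZ.leaf K2_ok TP_l7007 _))))
                (CovZ.n1 (1560, 1680) (by decide +kernel)
                 (CovZ.n2 (1540, 1700) (by decide +kernel)
                  (CovZ.n2 (1560, 1700) (by decide +kernel)
                   (CovZ.leaf K2_ok TP_l1834 _)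
                   (CovZ.leaf K2_ok TP_l7008 _))
                  (CovZ.leaf K2_ok TP_l1835 _))
                 (CovZ.n1 (1580, 1700) (by decide +kernel)
                  (CovZ.leaf K2_ok TP_l1836 _)
                  (CovZ.leaf K2_ok TP_l1837 _)))))))
            (CovZ.subM 268500992 (by decide +kernel)
             (CovZ.n1 (1520, 1840) (by decide +kernel)
              (CovZ.n2 (1600, 1840) (by decide +kernel)
               (CovZ.n2 (1560, 1800) (by decide +kernel)
                (CovZ.badM (by decide +kernel))
                (CovZ.n1 (1600, 1800) (by decide +kernel)
                 (CovZ.n2 (1580, 1780) (by decide +kernel)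
                  (CovZ.badM (by decide +kernel))
                  (CovZ.n1 (1600, 1780) (by decide +kernel)
                   (CovZ.n2 (1590, 1770) (by decide +kernel)
                    (CovZ.n2 (1590, 1780) (by decide +kernel)
                     (CovZ.n2 (1595, 1775) (by decide +kernel)
                      (CovZ.leaf K2_ok TP_l7009 _)
                      (CovZ.leaf K2_ok TP_l7010 _))
                     (CovZ.n1 (1585, 1775) (by decide +kernel)
                      (CovZ.leaf K2_ok TP_l7011 _)
                      (CovZ.leaf K2_ok TP_l7012 _)))
                    (CovZ.leaf K2_ok TP_l7013 _))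
                   (CovZ.badM (by decide +kernel))))
                 (CovZ.badM (by decide +kernel))))
               (CovZ.badM (by decide +kernel)))
              (CovZ.n1 (1520, 1760) (by decide +kernel)
               (CovZ.badM (by decide +kernel))
               (CovZ.n1 (1560, 1800) (by decide +kernel)
                (CovZ.n2 (1560, 1760) (by decide +kernel)
                 (CovZ.n2 (1540, 1780) (by decide +kernel)
                  (CovZ.n2 (1560, 1780) (by decide +kernel)
                   (CovZ.n2 (1550, 1770) (by decide +kernel)
                    (CovZ.badM (by decide +kernel))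
                    (CovZ.n1 (1560, 1770) (by decide +kernel)
                     (CovZ.leaf K2_ok TP_l7014 _)
                     (CovZ.badM (by decide +kernel))))
                   (CovZ.badM (by decide +kernel)))
                  (CovZ.n1 (1540, 1760) (by decide +kernel)
                   (CovZ.badM (by decide +kernel))
                   (CovZ.n1 (1550, 1770) (by decide +kernel)
                    (CovZ.n2 (1550, 1760) (by decide +kernel)
                     (CovZ.badM (by decide +kernel))
                     (CovZ.leaf K2_ok TP_l7015 _))
                    (CovZ.badM (by decide +kernel)))))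
                 (CovZ.n1 (1580, 1780) (by decide +kernel)
                  (CovZ.n2 (1580, 1760) (by decide +kernel)
                   (CovZ.n2 (1570, 1770) (by decide +kernel)
                    (CovZ.leaf K2_ok TP_l7016 _)
                    (CovZ.leaf K2_ok TP_l7017 _))
                   (CovZ.leaf K2_ok TP_l7018 _))
                  (CovZ.n1 (1560, 1780) (by decide +kernel)
                   (CovZ.badM (by decide +kernel))
                   (CovZ.n1 (1570, 1770) (by decide +kernel)
                    (CovZ.n2 (1560, 1770) (by decide +kernel)
                     (CovZ.badM (by decide +kernel))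
                     (CovZ.leaf K2_ok TP_l7019 _))
                    (CovZ.badM (by decide +kernel))))))
                (CovZ.n1 (1520, 1800) (by decide +kernel)
                 (CovZ.badM (by decide +kernel))
                 (CovZ.n1 (1540, 1780) (by decide +kernel)
                  (CovZ.badM (by decide +kernel))
                  (CovZ.badM (by decide +kernel))))))))))))

theorem TP_u24 : CovZ TP_M (toL (selN TP_LN 83076749736708948079762983966307329)) [0, 7, 2, 5] (0, 0) (1280, 1280) (0, 2560) :=
    (CovZ.subM 12098922872833 (by decide +kernel)
     (CovZ.n2 (0, 1280) (by decide +kernel)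
      (CovZ.n2 (640, 1920) (by decide +kernel)
       (CovZ.n2 (640, 1280) (by decide +kernel)
        (CovZ.badM (by decide +kernel))
        (CovZ.n1 (960, 1600) (by decide +kernel)
         (CovZ.n2 (960, 1280) (by decide +kernel)
          (CovZ.n2 (800, 1440) (by decide +kernel)
           (CovZ.n2 (960, 1440) (by decide +kernel)
            (CovZ.n2 (880, 1360) (by decide +kernel)
             (CovZ.n2 (880, 1440) (by decide +kernel)
              (CovZ.n2 (920, 1400) (by decide +kernel)
               (CovZ.badM (by decide +kernel))
               (CovZ.n1 (920, 1440) (by decide +kernel)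
                (CovZ.n2 (940, 1420) (by decide +kernel)
                 (CovZ.n2 (920, 1420) (by decide +kernel)
                  (CovZ.leaf K2_ok TP_l1607 _)
                  (CovZ.leaf K2_ok TP_l1608 _))
                 (CovZ.n1 (940, 1440) (by decide +kernel)
                  (CovZ.leaf K2_ok TP_l1609 _)
                  (CovZ.leaf K2_ok TP_l1610 _)))
                (CovZ.badM (by decide +kernel))))
              (CovZ.badM (by decide +kernel)))
             (CovZ.n1 (960, 1360) (by decide +kernel)
              (CovZ.n2 (920, 1320) (by decide +kernel)
               (CovZ.n2 (920, 1360) (by decide +kernel)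
                (CovZ.leaf K2_ok TP_l1611 _)
                (CovZ.badM (by decide +kernel)))
               (CovZ.n1 (960, 1320) (by decide +kernel)
                (CovZ.leaf K2_ok TP_l1612 _)
                (CovZ.leaf K2_ok TP_l1613 _)))
              (CovZ.n1 (920, 1400) (by decide +kernel)
               (CovZ.n2 (960, 1400) (by decide +kernel)
                (CovZ.leaf K2_ok TP_l1614 _)
                (CovZ.n1 (940, 1420) (by decide +kernel)
                 (CovZ.n2 (960, 1420) (by decide +kernel)
                  (CovZ.leaf K2_ok TP_l1615 _)
                  (CovZ.leaf K2_ok TP_l1616 _))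
                 (CovZ.leaf K2_ok TP_l1617 _)))
               (CovZ.n1 (920, 1360) (by decide +kernel)
                (CovZ.badM (by decide +kernel))
                (CovZ.leaf K2_ok TP_l1618 _)))))
            (CovZ.badM (by decide +kernel)))
           (CovZ.n1 (800, 1280) (by decide +kernel)
            (CovZ.badM (by decide +kernel))
            (CovZ.n1 (880, 1360) (by decide +kernel)
             (CovZ.n2 (880, 1280) (by decide +kernel)
              (CovZ.badM (by decide +kernel))
              (CovZ.n1 (920, 1320) (by decide +kernel)
               (CovZ.n2 (920, 1280) (by decide +kernel)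
                (CovZ.badM (by decide +kernel))
                (CovZ.leaf K2_ok TP_l1619 _))
               (CovZ.badM (by decide +kernel))))
             (CovZ.badM (by decide +kernel)))))
          (CovZ.n1 (1120, 1440) (by decide +kernel)
           (CovZ.n2 (1120, 1280) (by decide +kernel)
            (CovZ.n2 (1040, 1360) (by decide +kernel)
             (CovZ.n2 (1120, 1360) (by decide +kernel)
              (CovZ.n2 (1080, 1320) (by decide +kernel)
               (CovZ.leaf K2_ok TP_l1620 _)
               (CovZ.leaf K2_ok TP_l1621 _))
              (CovZ.n1 (1080, 1400) (by decide +kernel)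
               (CovZ.n2 (1120, 1400) (by decide +kernel)
                (CovZ.leaf K2_ok TP_l1622 _)
                (CovZ.leaf K2_ok TP_l1623 _))
               (CovZ.n1 (1080, 1360) (by decide +kernel)
                (CovZ.leaf K2_ok TP_l1624 _)
                (CovZ.leaf K2_ok TP_l1625 _))))
             (CovZ.n1 (1040, 1280) (by decide +kernel)
              (CovZ.n2 (1000, 1320) (by decide +kernel)
               (CovZ.leaf K2_ok TP_l1626 _)
               (CovZ.leaf K2_ok TP_l1627 _))
              (CovZ.n1 (1080, 1320) (by decide +kernel)
               (CovZ.leaf K2_ok TP_l1628 _)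
               (CovZ.leaf K2_ok TP_l1629 _))))
            (CovZ.n1 (1200, 1360) (by decide +kernel)
             (CovZ.n2 (1200, 1280) (by decide +kernel)
              (CovZ.leaf K2_ok TP_l1630 _)
              (CovZ.leaf K2_ok TP_l1631 _))
             (CovZ.n1 (1120, 1360) (by decide +kernel)
              (CovZ.n2 (1160, 1400) (by decide +kernel)
               (CovZ.leaf K2_ok TP_l1632 _)
               (CovZ.leaf K2_ok TP_l1633 _))
              (CovZ.n1 (1160, 1320) (by decide +kernel)
               (CovZ.leaf K2_ok TP_l1634 _)
               (CovZ.leaf K2_ok TP_l1635 _)))))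
           (CovZ.n1 (960, 1440) (by decide +kernel)
            (CovZ.n2 (1040, 1520) (by decide +kernel)
             (CovZ.n2 (1040, 1440) (by decide +kernel)
              (CovZ.badM (by decide +kernel))
              (CovZ.n1 (1080, 1480) (by decide +kernel)
               (CovZ.n2 (1080, 1440) (by decide +kernel)
                (CovZ.n2 (1060, 1460) (by decide +kernel)
                 (CovZ.leaf K2_ok TP_l1646 _)
                 (CovZ.leaf K2_ok TP_l1647 _))
                (CovZ.leaf K2_ok TP_l1648 _))
               (CovZ.n1 (1040, 1480) (by decide +kernel)
                (CovZ.n2 (1060, 1500) (by decide +kernel)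
                 (CovZ.n2 (1060, 1480) (by decide +kernel)
                  (CovZ.badM (by decide +kernel))
                  (CovZ.leaf K2_ok TP_l6886 _))
                 (CovZ.badM (by decide +kernel)))
                (CovZ.n1 (1060, 1460) (by decide +kernel)
                 (CovZ.badM (by decide +kernel))
                 (CovZ.n1 (1060, 1480) (by decide +kernel)
                  (CovZ.leaf K2_ok TP_l1650 _)
                  (CovZ.badM (by decide +kernel)))))))
             (CovZ.badM (by decide +kernel)))
            (CovZ.n1 (1040, 1360) (by decide +kernel)
             (CovZ.n2 (960, 1360) (by decide +kernel)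
              (CovZ.n2 (1000, 1400) (by decide +kernel)
               (CovZ.n2 (1000, 1360) (by decide +kernel)
                (CovZ.leaf K2_ok TP_l1653 _)
                (CovZ.leaf K2_ok TP_l1654 _))
               (CovZ.n1 (960, 1400) (by decide +kernel)
                (CovZ.n2 (980, 1420) (by decide +kernel)
                 (CovZ.leaf K2_ok TP_l1655 _)
                 (CovZ.leaf K2_ok TP_l1656 _))
                (CovZ.leaf K2_ok TP_l1657 _)))
              (CovZ.n1 (1000, 1320) (by decide +kernel)
               (CovZ.leaf K2_ok TP_l1658 _)
               (CovZ.n1 (1000, 1360) (by decide +kernel)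
                (CovZ.leaf K2_ok TP_l1659 _)
                (CovZ.leaf K2_ok TP_l1660 _))))
             (CovZ.n1 (1040, 1440) (by decide +kernel)
              (CovZ.n2 (1080, 1400) (by decide +kernel)
               (CovZ.n2 (1040, 1400) (by decide +kernel)
                (CovZ.leaf K2_ok TP_l1661 _)
                (CovZ.leaf K2_ok TP_l1662 _))
               (CovZ.n1 (1080, 1440) (by decide +kernel)
                (CovZ.leaf K2_ok TP_l1663 _)
                (CovZ.n1 (1060, 1420) (by decide +kernel)
                 (CovZ.leaf K2_ok TP_l1664 _)
                 (CovZ.leaf K2_ok TP_l1665 _))))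
              (CovZ.n1 (1000, 1400) (by decide +kernel)
               (CovZ.n2 (1000, 1440) (by decide +kernel)
                (CovZ.n2 (1020, 1420) (by decide +kernel)
                 (CovZ.leaf K2_ok TP_l1666 _)
                 (CovZ.n1 (1020, 1440) (by decide +kernel)
                  (CovZ.leaf K2_ok TP_l1667 _)
                  (CovZ.leaf K2_ok TP_l1668 _)))
                (CovZ.n1 (980, 1420) (by decide +kernel)
                 (CovZ.n2 (980, 1440) (by decide +kernel)
                  (CovZ.leaf K2_ok TP_l1669 _)
                  (CovZ.leaf K2_ok TP_l1670 _))
                 (CovZ.leaf K2_ok TP_l1671 _)))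
               (CovZ.n1 (1040, 1400) (by decide +kernel)
                (CovZ.leaf K2_ok TP_l1672 _)
                (CovZ.n1 (1020, 1420) (by decide +kernel)
                 (CovZ.leaf K2_ok TP_l1673 _)
                 (CovZ.leaf K2_ok TP_l1674 _)))))))))
         (CovZ.n1 (640, 1600) (by decide +kernel)
          (CovZ.badM (by decide +kernel))
          (CovZ.n1 (800, 1440) (by decide +kernel)
           (CovZ.badM (by decide +kernel))
           (CovZ.badM (by decide +kernel))))))
       (CovZ.badM (by decide +kernel)))
      (CovZ.n1 (640, 640) (by decide +kernel)
       (CovZ.badM (by decide +kernel))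
       (CovZ.n1 (640, 1280) (by decide +kernel)
        (CovZ.n2 (960, 960) (by decide +kernel)
         (CovZ.n2 (640, 960) (by decide +kernel)
          (CovZ.n2 (800, 1120) (by decide +kernel)
           (CovZ.n2 (800, 960) (by decide +kernel)
            (CovZ.badM (by decide +kernel))
            (CovZ.n1 (880, 1040) (by decide +kernel)
             (CovZ.leaf K2_ok TP_l1675 _)
             (CovZ.badM (by decide +kernel))))
           (CovZ.badM (by decide +kernel)))
          (CovZ.n1 (800, 800) (by decide +kernel)
           (CovZ.badM (by decide +kernel))
           (CovZ.n1 (800, 960) (by decide +kernel)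
            (CovZ.n2 (880, 880) (by decide +kernel)
             (CovZ.badM (by decide +kernel))
             (CovZ.leaf K2_ok TP_l1676 _))
            (CovZ.badM (by decide +kernel)))))
         (CovZ.n1 (960, 1280) (by decide +kernel)
          (CovZ.n2 (1120, 1120) (by decide +kernel)
           (CovZ.n2 (960, 1120) (by decide +kernel)
            (CovZ.n2 (1040, 1200) (by decide +kernel)
             (CovZ.n2 (1040, 1120) (by decide +kernel)
              (CovZ.leaf K2_ok TP_l1677 _)
              (CovZ.leaf K2_ok TP_l1678 _))
             (CovZ.n1 (960, 1200) (by decide +kernel)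
              (CovZ.leaf K2_ok TP_l1679 _)
              (CovZ.leaf K2_ok TP_l1680 _)))
            (CovZ.n1 (1040, 1040) (by decide +kernel)
             (CovZ.leaf K2_ok TP_l1681 _)
             (CovZ.n1 (1040, 1120) (by decide +kernel)
              (CovZ.leaf K2_ok TP_l1682 _)
              (CovZ.leaf K2_ok TP_l1683 _))))
           (CovZ.n1 (1120, 1280) (by decide +kernel)
            (CovZ.n2 (1200, 1200) (by decide +kernel)
             (CovZ.leaf K2_ok TP_l1684 _)
             (CovZ.n1 (1200, 1280) (by decide +kernel)
              (CovZ.leaf K2_ok TP_l1685 _)
              (CovZ.leaf K2_ok TP_l1686 _)))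
            (CovZ.n1 (1040, 1200) (by decide +kernel)
             (CovZ.n2 (1040, 1280) (by decide +kernel)
              (CovZ.leaf K2_ok TP_l1687 _)
              (CovZ.n1 (1000, 1240) (by decide +kernel)
               (CovZ.leaf K2_ok TP_l1688 _)
               (CovZ.leaf K2_ok TP_l1689 _)))
             (CovZ.n1 (1120, 1200) (by decide +kernel)
              (CovZ.leaf K2_ok TP_l1690 _)
              (CovZ.leaf K2_ok TP_l1691 _)))))
          (CovZ.n1 (800, 1120) (by decide +kernel)
           (CovZ.n2 (800, 1280) (by decide +kernel)
            (CovZ.n2 (880, 1200) (by decide +kernel)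
             (CovZ.badM (by decide +kernel))
             (CovZ.n1 (880, 1280) (by decide +kernel)
              (CovZ.n2 (920, 1240) (by decide +kernel)
               (CovZ.badM (by decide +kernel))
               (CovZ.leaf K2_ok TP_l1692 _))
              (CovZ.badM (by decide +kernel))))
            (CovZ.badM (by decide +kernel)))
           (CovZ.n1 (960, 1120) (by decide +kernel)
            (CovZ.n2 (880, 1040) (by decide +kernel)
             (CovZ.n2 (880, 1120) (by decide +kernel)
              (CovZ.leaf K2_ok TP_l1693 _)
              (CovZ.badM (by decide +kernel)))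
             (CovZ.leaf K2_ok TP_l1694 _))
            (CovZ.n1 (880, 1200) (by decide +kernel)
             (CovZ.n2 (960, 1200) (by decide +kernel)
              (CovZ.leaf K2_ok TP_l1695 _)
              (CovZ.n1 (920, 1240) (by decide +kernel)
               (CovZ.leaf K2_ok TP_l1696 _)
               (CovZ.leaf K2_ok TP_l1697 _)))
             (CovZ.n1 (880, 1120) (by decide +kernel)
              (CovZ.badM (by decide +kernel))
              (CovZ.leaf K2_ok TP_l1698 _)))))))
        (CovZ.badM (by decide +kernel))))))

theorem TP_u25 : CovZ TP_M (toL (selN TP_LN 83076749736708948079762983966307329)) [0, 7, 2, 5] (1280, 1280) (2560, 2560) (0, 2560) :=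
    (CovZ.n1 (1280, 2560) (by decide +kernel)
     (CovZ.n2 (1920, 1920) (by decide +kernel)
      (CovZ.n2 (1280, 1920) (by decide +kernel)
       (CovZ.badM (by decide +kernel))
       (CovZ.n1 (1600, 1600) (by decide +kernel)
        TP_u22
        TP_u23))
      (CovZ.subM 206296842240 (by decide +kernel)
       (CovZ.n1 (1920, 2560) (by decide +kernel)
        (CovZ.n2 (2240, 2240) (by decide +kernel)
         (CovZ.n2 (1920, 2240) (by decide +kernel)
          (CovZ.badM (by decide +kernel))
          (CovZ.n1 (2080, 2080) (by decide +kernel)
           (CovZ.n2 (1920, 2080) (by decide +kernel)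
            (CovZ.badM (by decide +kernel))
            (CovZ.n1 (2000, 2000) (by decide +kernel)
             (CovZ.n2 (1920, 2000) (by decide +kernel)
              (CovZ.badM (by decide +kernel))
              (CovZ.n1 (1960, 1960) (by decide +kernel)
               (CovZ.n2 (1920, 1960) (by decide +kernel)
                (CovZ.badM (by decide +kernel))
                (CovZ.n1 (1940, 1940) (by decide +kernel)
                 (CovZ.badM (by decide +kernel))
                 (CovZ.badM (by decide +kernel))))
               (CovZ.n1 (1960, 2000) (by decide +kernel)
                (CovZ.n2 (1980, 1980) (by decide +kernel)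
                 (CovZ.badM (by decide +kernel))
                 (CovZ.badM (by decide +kernel)))
                (CovZ.badM (by decide +kernel)))))
             (CovZ.badM (by decide +kernel))))
           (CovZ.badM (by decide +kernel))))
         (CovZ.badM (by decide +kernel)))
        (CovZ.badM (by decide +kernel)))))
     (CovZ.subM 12098922872833 (by decide +kernel)
      (CovZ.n1 (640, 1920) (by decide +kernel)
       (CovZ.badM (by decide +kernel))
       (CovZ.n1 (1280, 1920) (by decide +kernel)
        (CovZ.n2 (960, 1600) (by decide +kernel)
         (CovZ.n2 (960, 1920) (by decide +kernel)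
          (CovZ.n2 (1120, 1760) (by decide +kernel)
           (CovZ.badM (by decide +kernel))
           (CovZ.badM (by decide +kernel)))
          (CovZ.badM (by decide +kernel)))
         (CovZ.n1 (1280, 1600) (by decide +kernel)
          (CovZ.n2 (1120, 1440) (by decide +kernel)
           (CovZ.n2 (1120, 1600) (by decide +kernel)
            (CovZ.n2 (1200, 1520) (by decide +kernel)
             (CovZ.n2 (1120, 1520) (by decide +kernel)
              (CovZ.n2 (1160, 1560) (by decide +kernel)
               (CovZ.n2 (1160, 1520) (by decide +kernel)
                (CovZ.badM (by decide +kernel))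
                (CovZ.n1 (1180, 1540) (by decide +kernel)
                 (CovZ.leaf K2_ok TP_l1838 _)
                 (CovZ.n1 (1160, 1540) (by decide +kernel)
                  (CovZ.badM (by decide +kernel))
                  (CovZ.leaf K2_ok TP_l7020 _))))
               (CovZ.badM (by decide +kernel)))
              (CovZ.n1 (1160, 1480) (by decide +kernel)
               (CovZ.n2 (1120, 1480) (by decide +kernel)
                (CovZ.n2 (1140, 1500) (by decide +kernel)
                 (CovZ.leaf K2_ok TP_l7021 _)
                 (CovZ.leaf K2_ok TP_l7022 _))
                (CovZ.leaf K2_ok TP_l1839 _))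
               (CovZ.n1 (1160, 1520) (by decide +kernel)
                (CovZ.n2 (1180, 1500) (by decide +kernel)
                 (CovZ.leaf K2_ok TP_l7023 _)
                 (CovZ.leaf K2_ok TP_l1840 _))
                (CovZ.n1 (1140, 1500) (by decide +kernel)
                 (CovZ.n2 (1140, 1520) (by decide +kernel)
                  (CovZ.leaf K2_ok TP_l7024 _)
                  (CovZ.leaf K2_ok TP_l7025 _))
                 (CovZ.leaf K2_ok TP_l7026 _)))))
             (CovZ.n1 (1200, 1600) (by decide +kernel)
              (CovZ.n2 (1240, 1560) (by decide +kernel)
               (CovZ.n2 (1200, 1560) (by decide +kernel)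
                (CovZ.n2 (1220, 1580) (by decide +kernel)
                 (CovZ.n2 (1220, 1560) (by decide +kernel)
                  (CovZ.badM (by decide +kernel))
                  (CovZ.leaf K2_ok TP_l7027 _))
                 (CovZ.badM (by decide +kernel)))
                (CovZ.n1 (1220, 1540) (by decide +kernel)
                 (CovZ.leaf K2_ok TP_l1841 _)
                 (CovZ.n1 (1220, 1560) (by decide +kernel)
                  (CovZ.leaf K2_ok TP_l1842 _)
                  (CovZ.badM (by decide +kernel)))))
               (CovZ.n1 (1240, 1600) (by decide +kernel)
                (CovZ.n2 (1260, 1580) (by decide +kernel)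
                 (CovZ.n2 (1240, 1580) (by decide +kernel)
                  (CovZ.badM (by decide +kernel))
                  (CovZ.leaf K2_ok TP_l1845 _))
                 (CovZ.n1 (1260, 1600) (by decide +kernel)
                  (CovZ.leaf K2_ok TP_l1846 _)
                  (CovZ.badM (by decide +kernel))))
                (CovZ.n1 (1220, 1580) (by decide +kernel)
                 (CovZ.badM (by decide +kernel))
                 (CovZ.n1 (1240, 1580) (by decide +kernel)
                  (CovZ.leaf K2_ok TP_l7028 _)
                  (CovZ.badM (by decide +kernel))))))
              (CovZ.n1 (1160, 1560) (by decide +kernel)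
               (CovZ.badM (by decide +kernel))
               (CovZ.n1 (1200, 1560) (by decide +kernel)
                (CovZ.n2 (1180, 1540) (by decide +kernel)
                 (CovZ.badM (by decide +kernel))
                 (CovZ.leaf K2_ok TP_l1849 _))
                (CovZ.badM (by decide +kernel))))))
            (CovZ.n1 (1040, 1520) (by decide +kernel)
             (CovZ.badM (by decide +kernel))
             (CovZ.n1 (1120, 1520) (by decide +kernel)
              (CovZ.n2 (1080, 1480) (by decide +kernel)
               (CovZ.n2 (1080, 1520) (by decide +kernel)
                (CovZ.n2 (1100, 1500) (by decide +kernel)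
                 (CovZ.n2 (1080, 1500) (by decide +kernel)
                  (CovZ.leaf K2_ok TP_l7029 _)
                  (CovZ.leaf K2_ok TP_l7030 _))
                 (CovZ.n1 (1100, 1520) (by decide +kernel)
                  (CovZ.leaf K2_ok TP_l7031 _)
                  (CovZ.leaf K2_ok TP_l7032 _)))
                (CovZ.n1 (1060, 1500) (by decide +kernel)
                 (CovZ.n2 (1060, 1520) (by decide +kernel)
                  (CovZ.leaf K2_ok TP_l7033 _)
                  (CovZ.badM (by decide +kernel)))
                 (CovZ.n1 (1080, 1500) (by decide +kernel)
                  (CovZ.leaf K2_ok TP_l7034 _)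
                  (CovZ.leaf K2_ok TP_l7035 _))))
               (CovZ.n1 (1120, 1480) (by decide +kernel)
                (CovZ.leaf K2_ok TP_l1850 _)
                (CovZ.n1 (1100, 1500) (by decide +kernel)
                 (CovZ.n2 (1120, 1500) (by decide +kernel)
                  (CovZ.leaf K2_ok TP_l7036 _)
                  (CovZ.leaf K2_ok TP_l7037 _))
                 (CovZ.leaf K2_ok TP_l7038 _))))
              (CovZ.badM (by decide +kernel)))))
           (CovZ.n1 (1280, 1440) (by decide +kernel)
            (CovZ.n2 (1200, 1360) (by decide +kernel)
             (CovZ.n2 (1200, 1440) (by decide +kernel)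
              (CovZ.n2 (1240, 1400) (by decide +kernel)
               (CovZ.leaf K2_ok TP_l1851 _)
               (CovZ.leaf K2_ok TP_l1852 _))
              (CovZ.n1 (1160, 1400) (by decide +kernel)
               (CovZ.n2 (1160, 1440) (by decide +kernel)
                (CovZ.leaf K2_ok TP_l1853 _)
                (CovZ.leaf K2_ok TP_l1854 _))
               (CovZ.leaf K2_ok TP_l1855 _)))
             (CovZ.n1 (1280, 1360) (by decide +kernel)
              (CovZ.leaf K2_ok TP_l1856 _)
              (CovZ.n1 (1240, 1400) (by decide +kernel)
               (CovZ.leaf K2_ok TP_l1857 _)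
               (CovZ.leaf K2_ok TP_l1858 _))))
            (CovZ.n1 (1200, 1520) (by decide +kernel)
             (CovZ.n2 (1280, 1520) (by decide +kernel)
              (CovZ.n2 (1240, 1480) (by decide +kernel)
               (CovZ.n2 (1240, 1520) (by decide +kernel)
                (CovZ.leaf K2_ok TP_l1859 _)
                (CovZ.leaf K2_ok TP_l1860 _))
               (CovZ.n1 (1280, 1480) (by decide +kernel)
                (CovZ.leaf K2_ok TP_l1861 _)
                (CovZ.leaf K2_ok TP_l1862 _)))
              (CovZ.n1 (1240, 1560) (by decide +kernel)
               (CovZ.n2 (1280, 1560) (by decide +kernel)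
                (CovZ.n2 (1260, 1540) (by decide +kernel)
                 (CovZ.n2 (1260, 1560) (by decide +kernel)
                  (CovZ.leaf K2_ok TP_l1863 _)
                  (CovZ.leaf K2_ok TP_l1864 _))
                 (CovZ.leaf K2_ok TP_l1865 _))
                (CovZ.n1 (1260, 1580) (by decide +kernel)
                 (CovZ.n2 (1280, 1580) (by decide +kernel)
                  (CovZ.leaf K2_ok TP_l1866 _)
                  (CovZ.leaf K2_ok TP_l1867 _))
                 (CovZ.n1 (1260, 1560) (by decide +kernel)
                  (CovZ.leaf K2_ok TP_l1868 _)
                  (CovZ.leaf K2_ok TP_l1869 _))))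
               (CovZ.n1 (1240, 1520) (by decide +kernel)
                (CovZ.n2 (1220, 1540) (by decide +kernel)
                 (CovZ.leaf K2_ok TP_l1870 _)
                 (CovZ.leaf K2_ok TP_l1871 _))
                (CovZ.leaf K2_ok TP_l1872 _))))
             (CovZ.n1 (1200, 1440) (by decide +kernel)
              (CovZ.n2 (1160, 1480) (by decide +kernel)
               (CovZ.n2 (1200, 1480) (by decide +kernel)
                (CovZ.leaf K2_ok TP_l1873 _)
                (CovZ.n1 (1180, 1500) (by decide +kernel)
                 (CovZ.leaf K2_ok TP_l1874 _)
                 (CovZ.leaf K2_ok TP_l1875 _)))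
               (CovZ.n1 (1160, 1440) (by decide +kernel)
                (CovZ.leaf K2_ok TP_l1876 _)
                (CovZ.leaf K2_ok TP_l1877 _)))
              (CovZ.n1 (1240, 1480) (by decide +kernel)
               (CovZ.n2 (1240, 1440) (by decide +kernel)
                (CovZ.leaf K2_ok TP_l1878 _)
                (CovZ.leaf K2_ok TP_l1879 _))
               (CovZ.n1 (1200, 1480) (by decide +kernel)
                (CovZ.leaf K2_ok TP_l1880 _)
                (CovZ.leaf K2_ok TP_l1881 _)))))))
          (CovZ.n1 (1120, 1760) (by decide +kernel)
           (CovZ.n2 (1280, 1760) (by decide +kernel)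
            (CovZ.n2 (1200, 1680) (by decide +kernel)
             (CovZ.badM (by decide +kernel))
             (CovZ.n1 (1280, 1680) (by decide +kernel)
              (CovZ.n2 (1240, 1640) (by decide +kernel)
               (CovZ.badM (by decide +kernel))
               (CovZ.n1 (1280, 1640) (by decide +kernel)
                (CovZ.n2 (1260, 1620) (by decide +kernel)
                 (CovZ.badM (by decide +kernel))
                 (CovZ.n1 (1280, 1620) (by decide +kernel)
                  (CovZ.leaf K2_ok TP_l1882 _)
                  (CovZ.badM (by decide +kernel))))
                (CovZ.badM (by decide +kernel))))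
              (CovZ.badM (by decide +kernel))))
            (CovZ.badM (by decide +kernel)))
           (CovZ.n1 (1120, 1600) (by decide +kernel)
            (CovZ.badM (by decide +kernel))
            (CovZ.n1 (1200, 1680) (by decide +kernel)
             (CovZ.n2 (1200, 1600) (by decide +kernel)
              (CovZ.badM (by decide +kernel))
              (CovZ.n1 (1240, 1640) (by decide +kernel)
               (CovZ.n2 (1240, 1600) (by decide +kernel)
                (CovZ.badM (by decide +kernel))
                (CovZ.n1 (1260, 1620) (by decide +kernel)
                 (CovZ.n2 (1260, 1600) (by decide +kernel)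
                  (CovZ.badM (by decide +kernel))
                  (CovZ.leaf K2_ok TP_l1883 _))
                 (CovZ.badM (by decide +kernel))))
               (CovZ.badM (by decide +kernel))))
             (CovZ.badM (by decide +kernel)))))))
        (CovZ.badM (by decide +kernel))))))

theorem TP_u26 : CovZ TP_M (toL (selN TP_LN 83107175826994504156159248075612161)) [0, 7, 2, 5] (2560, 2560) (2560, 1920) (3200, 1920) :=
    (CovZ.subM 20284885483730241184497049534464 (by decide +kernel)
         (CovZ.n2 (2880, 2240) (by decide +kernel)
          (CovZ.n2 (2880, 1920) (by decide +kernel)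
           (CovZ.badM (by decide +kernel))
           (CovZ.n1 (3040, 2080) (by decide +kernel)
            (CovZ.n2 (3040, 1920) (by decide +kernel)
             (CovZ.n2 (2960, 2000) (by decide +kernel)
              (CovZ.n2 (3040, 2000) (by decide +kernel)
               (CovZ.n2 (3000, 1960) (by decide +kernel)
                (CovZ.badM (by decide +kernel))
                (CovZ.n1 (3040, 1960) (by decide +kernel)
                 (CovZ.n2 (3020, 1940) (by decide +kernel)
                  (CovZ.leaf K2_ok TP_l7638 _)
                  (CovZ.leaf K2_ok TP_l7639 _))
                 (CovZ.badM (by decide +kernel))))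
               (CovZ.badM (by decide +kernel)))
              (CovZ.n1 (2960, 1920) (by decide +kernel)
               (CovZ.badM (by decide +kernel))
               (CovZ.n1 (3000, 1960) (by decide +kernel)
                (CovZ.n2 (3000, 1920) (by decide +kernel)
                 (CovZ.n2 (2980, 1940) (by decide +kernel)
                  (CovZ.leaf K2_ok TP_l7640 _)
                  (CovZ.leaf K2_ok TP_l7641 _))
                 (CovZ.leaf K2_ok TP_l7642 _))
                (CovZ.n1 (2960, 1960) (by decide +kernel)
                 (CovZ.badM (by decide +kernel))
                 (CovZ.n1 (2980, 1940) (by decide +kernel)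
                  (CovZ.leaf K2_ok TP_l7643 _)
                  (CovZ.leaf K2_ok TP_l7644 _))))))
             (CovZ.n1 (3120, 2000) (by decide +kernel)
              (CovZ.n2 (3120, 1920) (by decide +kernel)
               (CovZ.n2 (3080, 1960) (by decide +kernel)
                (CovZ.n2 (3120, 1960) (by decide +kernel)
                 (CovZ.leaf K2_ok TP_l7645 _)
                 (CovZ.n1 (3100, 1980) (by decide +kernel)
                  (CovZ.leaf K2_ok TP_l7646 _)
                  (CovZ.leaf K2_ok TP_l7647 _)))
                (CovZ.n1 (3080, 1920) (by decide +kernel)
                 (CovZ.leaf K2_ok TP_l7648 _)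
                 (CovZ.leaf K2_ok TP_l7649 _)))
               (CovZ.n1 (3160, 1960) (by decide +kernel)
                (CovZ.leaf K2_ok TP_l7650 _)
                (CovZ.n1 (3120, 1960) (by decide +kernel)
                 (CovZ.leaf K2_ok TP_l7651 _)
                 (CovZ.leaf K2_ok TP_l7652 _))))
              (CovZ.n1 (3040, 2000) (by decide +kernel)
               (CovZ.badM (by decide +kernel))
               (CovZ.n1 (3080, 1960) (by decide +kernel)
                (CovZ.n2 (3040, 1960) (by decide +kernel)
                 (CovZ.badM (by decide +kernel))
                 (CovZ.leaf K2_ok TP_l7653 _))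
                (CovZ.n1 (3080, 2000) (by decide +kernel)
                 (CovZ.n2 (3100, 1980) (by decide +kernel)
                  (CovZ.leaf K2_ok TP_l7654 _)
                  (CovZ.leaf K2_ok TP_l7655 _))
                 (CovZ.badM (by decide +kernel)))))))
            (CovZ.n1 (2880, 2080) (by decide +kernel)
             (CovZ.badM (by decide +kernel))
             (CovZ.n1 (2960, 2000) (by decide +kernel)
              (CovZ.badM (by decide +kernel))
              (CovZ.badM (by decide +kernel))))))
          (CovZ.badM (by decide +kernel))))

theorem TP_u27 : CovZ TP_M (toL (selN TP_LN 83107175826994504156159248075612161)) [0, 7, 2, 5] (2560, 1920) (2560, 1280) (3200, 1920) :=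
    (CovZ.n1 (2880, 1600) (by decide +kernel)
         (CovZ.n2 (2560, 1600) (by decide +kernel)
          (CovZ.n2 (2720, 1760) (by decide +kernel)
           (CovZ.n2 (2720, 1600) (by decide +kernel)
            (CovZ.n2 (2640, 1680) (by decide +kernel)
             (CovZ.n2 (2720, 1680) (by decide +kernel)
              (CovZ.leaf K2_ok TP_l2860 _)
              (CovZ.n1 (2680, 1720) (by decide +kernel)
               (CovZ.leaf K2_ok TP_l2861 _)
               (CovZ.leaf K2_ok TP_l2862 _)))
             (CovZ.n1 (2640, 1600) (by decide +kernel)
              (CovZ.leaf K2_ok TP_l2863 _)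
              (CovZ.leaf K2_ok TP_l2864 _)))
            (CovZ.n1 (2800, 1680) (by decide +kernel)
             (CovZ.leaf K2_ok TP_l2865 _)
             (CovZ.n1 (2720, 1680) (by decide +kernel)
              (CovZ.leaf K2_ok TP_l2866 _)
              (CovZ.leaf K2_ok TP_l2867 _))))
           (CovZ.n1 (2560, 1760) (by decide +kernel)
            (CovZ.subM 10141204802416131022332331294720 (by decide +kernel)
             (CovZ.n2 (2640, 1840) (by decide +kernel)
              (CovZ.n2 (2640, 1760) (by decide +kernel)
               (CovZ.n2 (2600, 1800) (by decide +kernel)
                (CovZ.n2 (2640, 1800) (by decide +kernel)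
                 (CovZ.leaf K2_ok TP_l2868 _)
                 (CovZ.badM (by decide +kernel)))
                (CovZ.n1 (2600, 1760) (by decide +kernel)
                 (CovZ.n2 (2580, 1780) (by decide +kernel)
                  (CovZ.leaf K2_ok TP_l2869 _)
                  (CovZ.leaf K2_ok TP_l2870 _))
                 (CovZ.leaf K2_ok TP_l2871 _)))
               (CovZ.n1 (2680, 1800) (by decide +kernel)
                (CovZ.n2 (2680, 1760) (by decide +kernel)
                 (CovZ.leaf K2_ok TP_l2872 _)
                 (CovZ.leaf K2_ok TP_l2873 _))
                (CovZ.n1 (2640, 1800) (by decide +kernel)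
                 (CovZ.leaf K2_ok TP_l2874 _)
                 (CovZ.leaf K2_ok TP_l2875 _))))
              (CovZ.n1 (2560, 1840) (by decide +kernel)
               (CovZ.badM (by decide +kernel))
               (CovZ.n1 (2600, 1800) (by decide +kernel)
                (CovZ.n2 (2560, 1800) (by decide +kernel)
                 (CovZ.badM (by decide +kernel))
                 (CovZ.leaf K2_ok TP_l2876 _))
                (CovZ.badM (by decide +kernel))))))
            (CovZ.n1 (2640, 1680) (by decide +kernel)
             (CovZ.n2 (2560, 1680) (by decide +kernel)
              (CovZ.n2 (2600, 1720) (by decide +kernel)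
               (CovZ.leaf K2_ok TP_l2877 _)
               (CovZ.leaf K2_ok TP_l2878 _))
              (CovZ.leaf K2_ok TP_l2879 _))
             (CovZ.subM 83086890941510773914962102279217152 (by decide +kernel)
              (CovZ.n1 (2640, 1760) (by decide +kernel)
               (CovZ.n2 (2680, 1720) (by decide +kernel)
                (CovZ.leaf K2_ok TP_l2880 _)
                (CovZ.leaf K2_ok TP_l2881 _))
               (CovZ.n1 (2600, 1720) (by decide +kernel)
                (CovZ.n2 (2600, 1760) (by decide +kernel)
                 (CovZ.leaf K2_ok TP_l2882 _)
                 (CovZ.leaf K2_ok TP_l2883 _))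
                (CovZ.leaf K2_ok TP_l2884 _)))))))
          (CovZ.n1 (2720, 1440) (by decide +kernel)
           (CovZ.n2 (2560, 1440) (by decide +kernel)
            (CovZ.n2 (2640, 1520) (by decide +kernel)
             (CovZ.leaf K2_ok TP_l2885 _)
             (CovZ.leaf K2_ok TP_l2886 _))
            (CovZ.leaf K2_ok TP_l2887 _))
           (CovZ.n1 (2720, 1600) (by decide +kernel)
            (CovZ.n2 (2800, 1520) (by decide +kernel)
             (CovZ.leaf K2_ok TP_l2888 _)
             (CovZ.leaf K2_ok TP_l2889 _))
            (CovZ.n1 (2640, 1520) (by decide +kernel)
             (CovZ.n2 (2640, 1600) (by decide +kernel)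
              (CovZ.leaf K2_ok TP_l2890 _)
              (CovZ.leaf K2_ok TP_l2891 _))
             (CovZ.leaf K2_ok TP_l2892 _)))))
         (CovZ.n1 (2880, 1920) (by decide +kernel)
          (CovZ.n2 (3040, 1760) (by decide +kernel)
           (CovZ.n2 (2880, 1760) (by decide +kernel)
            (CovZ.subM 30423614406067801446279582580736 (by decide +kernel)
             (CovZ.n2 (2960, 1840) (by decide +kernel)
              (CovZ.n2 (2960, 1760) (by decide +kernel)
               (CovZ.n2 (2920, 1800) (by decide +kernel)
                (CovZ.leaf K2_ok TP_l2893 _)
                (CovZ.leaf K2_ok TP_l2894 _))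
               (CovZ.leaf K2_ok TP_l2895 _))
              (CovZ.n1 (2880, 1840) (by decide +kernel)
               (CovZ.n2 (2920, 1880) (by decide +kernel)
                (CovZ.n2 (2920, 1840) (by decide +kernel)
                 (CovZ.leaf K2_ok TP_l2896 _)
                 (CovZ.leaf K2_ok TP_l2897 _))
                (CovZ.n1 (2880, 1880) (by decide +kernel)
                 (CovZ.badM (by decide +kernel))
                 (CovZ.leaf K2_ok TP_l2899 _)))
               (CovZ.n1 (2920, 1800) (by decide +kernel)
                (CovZ.leaf K2_ok TP_l2900 _)
                (CovZ.leaf K2_ok TP_l2901 _)))))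
            (CovZ.n1 (2960, 1680) (by decide +kernel)
             (CovZ.leaf K2_ok TP_l2902 _)
             (CovZ.n1 (2960, 1760) (by decide +kernel)
              (CovZ.leaf K2_ok TP_l2903 _)
              (CovZ.leaf K2_ok TP_l2904 _))))
           (CovZ.subM 30426090286146372206829380829184 (by decide +kernel)
            (CovZ.n1 (3040, 1920) (by decide +kernel)
             (CovZ.n2 (3120, 1840) (by decide +kernel)
              (CovZ.n2 (3040, 1840) (by decide +kernel)
               (CovZ.n2 (3080, 1880) (by decide +kernel)
                (CovZ.leaf K2_ok TP_l2905 _)
                (CovZ.leaf K2_ok TP_l2906 _))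
               (CovZ.leaf K2_ok TP_l2907 _))
              (CovZ.n1 (3120, 1920) (by decide +kernel)
               (CovZ.n2 (3160, 1880) (by decide +kernel)
                (CovZ.leaf K2_ok TP_l2908 _)
                (CovZ.leaf K2_ok TP_l2909 _))
               (CovZ.n1 (3080, 1880) (by decide +kernel)
                (CovZ.leaf K2_ok TP_l2910 _)
                (CovZ.leaf K2_ok TP_l2911 _))))
             (CovZ.n1 (2960, 1840) (by decide +kernel)
              (CovZ.n2 (2960, 1920) (by decide +kernel)
               (CovZ.n2 (3000, 1880) (by decide +kernel)
                (CovZ.leaf K2_ok TP_l2912 _)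
                (CovZ.n1 (3000, 1920) (by decide +kernel)
                 (CovZ.leaf K2_ok TP_l2913 _)
                 (CovZ.leaf K2_ok TP_l2914 _)))
               (CovZ.n1 (2920, 1880) (by decide +kernel)
                (CovZ.badM (by decide +kernel))
                (CovZ.n1 (2960, 1880) (by decide +kernel)
                 (CovZ.leaf K2_ok TP_l2917 _)
                 (CovZ.badM (by decide +kernel)))))
              (CovZ.n1 (3040, 1840) (by decide +kernel)
               (CovZ.leaf K2_ok TP_l2919 _)
               (CovZ.n1 (3000, 1880) (by decide +kernel)
                (CovZ.leaf K2_ok TP_l2920 _)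
                (CovZ.leaf K2_ok TP_l2921 _)))))))
          (CovZ.n1 (2720, 1760) (by decide +kernel)
           (CovZ.subM 10141204802416131022332331294720 (by decide +kernel)
            (CovZ.n2 (2720, 1920) (by decide +kernel)
             (CovZ.n2 (2800, 1840) (by decide +kernel)
              (CovZ.n2 (2720, 1840) (by decide +kernel)
               (CovZ.n2 (2760, 1880) (by decide +kernel)
                (CovZ.n2 (2760, 1840) (by decide +kernel)
                 (CovZ.n2 (2740, 1860) (by decide +kernel)
                  (CovZ.leaf K2_ok TP_l2922 _)
                  (CovZ.leaf K2_ok TP_l2923 _))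
                 (CovZ.leaf K2_ok TP_l2924 _))
                (CovZ.n1 (2720, 1880) (by decide +kernel)
                 (CovZ.badM (by decide +kernel))
                 (CovZ.n1 (2740, 1860) (by decide +kernel)
                  (CovZ.leaf K2_ok TP_l2925 _)
                  (CovZ.leaf K2_ok TP_l2926 _))))
               (CovZ.n1 (2760, 1800) (by decide +kernel)
                (CovZ.leaf K2_ok TP_l2927 _)
                (CovZ.n1 (2760, 1840) (by decide +kernel)
                 (CovZ.leaf K2_ok TP_l2928 _)
                 (CovZ.leaf K2_ok TP_l2929 _))))
              (CovZ.n1 (2800, 1920) (by decide +kernel)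
               (CovZ.n2 (2840, 1880) (by decide +kernel)
                (CovZ.n2 (2800, 1880) (by decide +kernel)
                 (CovZ.badM (by decide +kernel))
                 (CovZ.leaf K2_ok TP_l2930 _))
                (CovZ.badM (by decide +kernel)))
               (CovZ.n1 (2760, 1880) (by decide +kernel)
                (CovZ.badM (by decide +kernel))
                (CovZ.n1 (2800, 1880) (by decide +kernel)
                 (CovZ.n2 (2780, 1860) (by decide +kernel)
                  (CovZ.leaf K2_ok TP_l2933 _)
                  (CovZ.leaf K2_ok TP_l2934 _))
                 (CovZ.badM (by decide +kernel))))))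
             (CovZ.n1 (2640, 1840) (by decide +kernel)
              (CovZ.n2 (2640, 1920) (by decide +kernel)
               (CovZ.n2 (2680, 1880) (by decide +kernel)
                (CovZ.n2 (2640, 1880) (by decide +kernel)
                 (CovZ.badM (by decide +kernel))
                 (CovZ.n1 (2660, 1860) (by decide +kernel)
                  (CovZ.n2 (2640, 1860) (by decide +kernel)
                   (CovZ.leaf K2_ok TP_l2935 _)
                   (CovZ.leaf K2_ok TP_l2936 _))
                  (CovZ.n1 (2660, 1880) (by decide +kernel)
                   (CovZ.leaf K2_ok TP_l2937 _)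
                   (CovZ.leaf K2_ok TP_l2938 _))))
                (CovZ.badM (by decide +kernel)))
               (CovZ.badM (by decide +kernel)))
              (CovZ.n1 (2720, 1840) (by decide +kernel)
               (CovZ.n2 (2680, 1800) (by decide +kernel)
                (CovZ.n2 (2680, 1840) (by decide +kernel)
                 (CovZ.leaf K2_ok TP_l2939 _)
                 (CovZ.n1 (2660, 1820) (by decide +kernel)
                  (CovZ.leaf K2_ok TP_l2940 _)
                  (CovZ.leaf K2_ok TP_l2941 _)))
                (CovZ.n1 (2720, 1800) (by decide +kernel)
                 (CovZ.leaf K2_ok TP_l2942 _)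
                 (CovZ.leaf K2_ok TP_l2943 _)))
               (CovZ.n1 (2680, 1880) (by decide +kernel)
                (CovZ.n2 (2720, 1880) (by decide +kernel)
                 (CovZ.n2 (2700, 1860) (by decide +kernel)
                  (CovZ.n2 (2700, 1880) (by decide +kernel)
                   (CovZ.leaf K2_ok TP_l2944 _)
                   (CovZ.leaf K2_ok TP_l2945 _))
                  (CovZ.leaf K2_ok TP_l2946 _))
                 (CovZ.badM (by decide +kernel)))
                (CovZ.n1 (2680, 1840) (by decide +kernel)
                 (CovZ.n2 (2660, 1860) (by decide +kernel)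
                  (CovZ.n2 (2680, 1860) (by decide +kernel)
                   (CovZ.leaf K2_ok TP_l2947 _)
                   (CovZ.leaf K2_ok TP_l2948 _))
                  (CovZ.n1 (2660, 1840) (by decide +kernel)
                   (CovZ.leaf K2_ok TP_l2949 _)
                   (CovZ.leaf K2_ok TP_l2950 _)))
                 (CovZ.n1 (2700, 1860) (by decide +kernel)
                  (CovZ.leaf K2_ok TP_l2951 _)
                  (CovZ.leaf K2_ok TP_l2952 _))))))))
           (CovZ.n1 (2880, 1760) (by decide +kernel)
            (CovZ.n2 (2800, 1680) (by decide +kernel)
             (CovZ.n2 (2800, 1760) (by decide +kernel)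
              (CovZ.leaf K2_ok TP_l2953 _)
              (CovZ.leaf K2_ok TP_l2954 _))
             (CovZ.leaf K2_ok TP_l2955 _))
            (CovZ.subM 10141204802416131022332331294720 (by decide +kernel)
             (CovZ.n1 (2800, 1840) (by decide +kernel)
              (CovZ.n2 (2880, 1840) (by decide +kernel)
               (CovZ.n2 (2840, 1800) (by decide +kernel)
                (CovZ.n2 (2840, 1840) (by decide +kernel)
                 (CovZ.leaf K2_ok TP_l2956 _)
                 (CovZ.leaf K2_ok TP_l2957 _))
                (CovZ.leaf K2_ok TP_l2958 _))
               (CovZ.n1 (2840, 1880) (by decide +kernel)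
                (CovZ.n2 (2880, 1880) (by decide +kernel)
                 (CovZ.leaf K2_ok TP_l2959 _)
                 (CovZ.badM (by decide +kernel)))
                (CovZ.n1 (2840, 1840) (by decide +kernel)
                 (CovZ.leaf K2_ok TP_l2962 _)
                 (CovZ.leaf K2_ok TP_l2963 _))))
              (CovZ.n1 (2800, 1760) (by decide +kernel)
               (CovZ.n2 (2760, 1800) (by decide +kernel)
                (CovZ.leaf K2_ok TP_l2964 _)
                (CovZ.leaf K2_ok TP_l2965 _))
               (CovZ.n1 (2840, 1800) (by decide +kernel)
                (CovZ.leaf K2_ok TP_l2966 _)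
                (CovZ.leaf K2_ok TP_l2967 _)))))))))

theorem TP_u28 : CovZ TP_M (toL (selN TP_LN 53092604867099937150704500946871284400384)) [0, 7, 2, 5] (5120, 2560) (4480, 2560) (4480, 1920) :=
    (CovZ.n2 (4800, 2240) (by decide +kernel)
         (CovZ.n2 (4480, 2240) (by decide +kernel)
          (CovZ.subM 47648075293412103943735191972157281271808 (by decide +kernel)
           (CovZ.n2 (4640, 2400) (by decide +kernel)
            (CovZ.n2 (4640, 2240) (by decide +kernel)
             (CovZ.n2 (4560, 2320) (by decide +kernel)
              (CovZ.n2 (4640, 2320) (by decide +kernel)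
               (CovZ.leaf K2_ok TP_l3060 _)
               (CovZ.leaf K2_ok TP_l3061 _))
              (CovZ.n1 (4560, 2240) (by decide +kernel)
               (CovZ.leaf K2_ok TP_l3062 _)
               (CovZ.leaf K2_ok TP_l3063 _)))
             (CovZ.n1 (4720, 2320) (by decide +kernel)
              (CovZ.leaf K2_ok TP_l3064 _)
              (CovZ.leaf K2_ok TP_l3065 _)))
            (CovZ.n1 (4480, 2400) (by decide +kernel)
             (CovZ.subM 44920097043054920123395368770996499644416 (by decide +kernel)
              (CovZ.n2 (4560, 2480) (by decide +kernel)
               (CovZ.n2 (4560, 2400) (by decide +kernel)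
                (CovZ.n2 (4520, 2440) (by decide +kernel)
                 (CovZ.n2 (4560, 2440) (by decide +kernel)
                  (CovZ.leaf K2_ok TP_l3066 _)
                  (CovZ.leaf K2_ok TP_l3067 _))
                 (CovZ.n1 (4520, 2400) (by decide +kernel)
                  (CovZ.leaf K2_ok TP_l3068 _)
                  (CovZ.leaf K2_ok TP_l3069 _)))
                (CovZ.n1 (4600, 2440) (by decide +kernel)
                 (CovZ.leaf K2_ok TP_l3070 _)
                 (CovZ.leaf K2_ok TP_l3071 _)))
               (CovZ.n1 (4480, 2480) (by decide +kernel)
                (CovZ.badM (by decide +kernel))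
                (CovZ.n1 (4520, 2440) (by decide +kernel)
                 (CovZ.n2 (4480, 2440) (by decide +kernel)
                  (CovZ.leaf K2_ok TP_l3072 _)
                  (CovZ.leaf K2_ok TP_l3073 _))
                 (CovZ.n1 (4520, 2480) (by decide +kernel)
                  (CovZ.leaf K2_ok TP_l3074 _)
                  (CovZ.n1 (4500, 2460) (by decide +kernel)
                   (CovZ.leaf K2_ok TP_l3075 _)
                   (CovZ.leaf K2_ok TP_l3076 _)))))))
             (CovZ.n1 (4560, 2320) (by decide +kernel)
              (CovZ.n2 (4480, 2320) (by decide +kernel)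
               (CovZ.leaf K2_ok TP_l3077 _)
               (CovZ.leaf K2_ok TP_l3078 _))
              (CovZ.n1 (4560, 2400) (by decide +kernel)
               (CovZ.leaf K2_ok TP_l3079 _)
               (CovZ.n1 (4520, 2360) (by decide +kernel)
                (CovZ.leaf K2_ok TP_l3080 _)
                (CovZ.leaf K2_ok TP_l3081 _)))))))
          (CovZ.n1 (4640, 2080) (by decide +kernel)
           (CovZ.n2 (4480, 2080) (by decide +kernel)
            (CovZ.leaf K2_ok TP_l3082 _)
            (CovZ.leaf K2_ok TP_l3083 _))
           (CovZ.n1 (4640, 2240) (by decide +kernel)
            (CovZ.leaf K2_ok TP_l3084 _)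
            (CovZ.leaf K2_ok TP_l3085 _))))
         (CovZ.n1 (4800, 2560) (by decide +kernel)
          (CovZ.n2 (4960, 2400) (by decide +kernel)
           (CovZ.subM 47648075293412103943735191972165871206400 (by decide +kernel)
            (CovZ.n2 (4800, 2400) (by decide +kernel)
             (CovZ.subM 44920099639203349390809183036253254189056 (by decide +kernel)
              (CovZ.n2 (4880, 2480) (by decide +kernel)
               (CovZ.n2 (4880, 2400) (by decide +kernel)
                (CovZ.leaf K2_ok TP_l3086 _)
                (CovZ.leaf K2_ok TP_l3087 _))
               (CovZ.n1 (4800, 2480) (by decide +kernel)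
                (CovZ.n2 (4840, 2520) (by decide +kernel)
                 (CovZ.leaf K2_ok TP_l3088 _)
                 (CovZ.leaf K2_ok TP_l3089 _))
                (CovZ.leaf K2_ok TP_l3090 _))))
             (CovZ.n1 (4880, 2320) (by decide +kernel)
              (CovZ.leaf K2_ok TP_l3091 _)
              (CovZ.leaf K2_ok TP_l3092 _))))
           (CovZ.subM 44920099639203349390809183106621998366720 (by decide +kernel)
            (CovZ.n1 (4960, 2560) (by decide +kernel)
             (CovZ.n2 (5040, 2480) (by decide +kernel)
              (CovZ.n2 (4960, 2480) (by decide +kernel)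
               (CovZ.leaf K2_ok TP_l3093 _)
               (CovZ.leaf K2_ok TP_l3094 _))
              (CovZ.n1 (5040, 2560) (by decide +kernel)
               (CovZ.leaf K2_ok TP_l3095 _)
               (CovZ.n1 (5000, 2520) (by decide +kernel)
                (CovZ.leaf K2_ok TP_l3096 _)
                (CovZ.leaf K2_ok TP_l3097 _))))
             (CovZ.n1 (4880, 2480) (by decide +kernel)
              (CovZ.subM 168749647902381897927241139289587712 (by decide +kernel)
               (CovZ.n2 (4880, 2560) (by decide +kernel)
                (CovZ.n2 (4920, 2520) (by decide +kernel)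
                 (CovZ.leaf K2_ok TP_l3098 _)
                 (CovZ.leaf K2_ok TP_l3099 _))
                (CovZ.n1 (4840, 2520) (by decide +kernel)
                 (CovZ.n2 (4840, 2560) (by decide +kernel)
                  (CovZ.leaf K2_ok TP_l3100 _)
                  (CovZ.leaf K2_ok TP_l3101 _))
                 (CovZ.leaf K2_ok TP_l3102 _))))
              (CovZ.n1 (4960, 2480) (by decide +kernel)
               (CovZ.leaf K2_ok TP_l3103 _)
               (CovZ.n1 (4920, 2520) (by decide +kernel)
                (CovZ.leaf K2_ok TP_l3104 _)
                (CovZ.leaf K2_ok TP_l3105 _)))))))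
          (CovZ.subM 47648075293412103943735191972157281271808 (by decide +kernel)
           (CovZ.n1 (4640, 2400) (by decide +kernel)
            (CovZ.subM 44920099639203349390809183036244664254464 (by decide +kernel)
             (CovZ.n2 (4640, 2560) (by decide +kernel)
              (CovZ.n2 (4720, 2480) (by decide +kernel)
               (CovZ.n2 (4640, 2480) (by decide +kernel)
                (CovZ.n2 (4680, 2520) (by decide +kernel)
                 (CovZ.n2 (4680, 2480) (by decide +kernel)
                  (CovZ.leaf K2_ok TP_l3106 _)
                  (CovZ.leaf K2_ok TP_l3107 _))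
                 (CovZ.n1 (4640, 2520) (by decide +kernel)
                  (CovZ.n2 (4660, 2540) (by decide +kernel)
                   (CovZ.leaf K2_ok TP_l3108 _)
                   (CovZ.badM (by decide +kernel)))
                  (CovZ.leaf K2_ok TP_l3109 _)))
                (CovZ.n1 (4680, 2440) (by decide +kernel)
                 (CovZ.leaf K2_ok TP_l3110 _)
                 (CovZ.leaf K2_ok TP_l3111 _)))
               (CovZ.n1 (4720, 2560) (by decide +kernel)
                (CovZ.n2 (4760, 2520) (by decide +kernel)
                 (CovZ.n2 (4720, 2520) (by decide +kernel)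
                  (CovZ.n2 (4740, 2540) (by decide +kernel)
                   (CovZ.leaf K2_ok TP_l3112 _)
                   (CovZ.leaf K2_ok TP_l3113 _))
                  (CovZ.leaf K2_ok TP_l3114 _))
                 (CovZ.n1 (4760, 2560) (by decide +kernel)
                  (CovZ.leaf K2_ok TP_l3115 _)
                  (CovZ.leaf K2_ok TP_l3116 _)))
                (CovZ.n1 (4680, 2520) (by decide +kernel)
                 (CovZ.n2 (4680, 2560) (by decide +kernel)
                  (CovZ.n2 (4700, 2540) (by decide +kernel)
                   (CovZ.leaf K2_ok TP_l3117 _)
                   (CovZ.badM (by decide +kernel)))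
                  (CovZ.n1 (4660, 2540) (by decide +kernel)
                   (CovZ.badM (by decide +kernel))
                   (CovZ.leaf K2_ok TP_l3118 _)))
                 (CovZ.n1 (4720, 2520) (by decide +kernel)
                  (CovZ.leaf K2_ok TP_l3119 _)
                  (CovZ.n1 (4700, 2540) (by decide +kernel)
                   (CovZ.leaf K2_ok TP_l3120 _)
                   (CovZ.leaf K2_ok TP_l3121 _))))))
              (CovZ.n1 (4560, 2480) (by decide +kernel)
               (CovZ.n2 (4560, 2560) (by decide +kernel)
                (CovZ.n2 (4600, 2520) (by decide +kernel)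
                 (CovZ.badM (by decide +kernel))
                 (CovZ.badM (by decide +kernel)))
                (CovZ.badM (by decide +kernel)))
               (CovZ.n1 (4640, 2480) (by decide +kernel)
                (CovZ.n2 (4600, 2440) (by decide +kernel)
                 (CovZ.n2 (4600, 2480) (by decide +kernel)
                  (CovZ.leaf K2_ok TP_l3122 _)
                  (CovZ.leaf K2_ok TP_l3123 _))
                 (CovZ.leaf K2_ok TP_l3124 _))
                (CovZ.n1 (4600, 2520) (by decide +kernel)
                 (CovZ.n2 (4640, 2520) (by decide +kernel)
                  (CovZ.n2 (4620, 2500) (by decide +kernel)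
                   (CovZ.leaf K2_ok TP_l3125 _)
                   (CovZ.leaf K2_ok TP_l3126 _))
                  (CovZ.badM (by decide +kernel)))
                 (CovZ.n1 (4600, 2480) (by decide +kernel)
                  (CovZ.badM (by decide +kernel))
                  (CovZ.leaf K2_ok TP_l3127 _)))))))
            (CovZ.n1 (4800, 2400) (by decide +kernel)
             (CovZ.n2 (4720, 2320) (by decide +kernel)
              (CovZ.n2 (4720, 2400) (by decide +kernel)
               (CovZ.leaf K2_ok TP_l3128 _)
               (CovZ.leaf K2_ok TP_l3129 _))
              (CovZ.leaf K2_ok TP_l3130 _))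
             (CovZ.subM 44920099639203349390809183036244664254464 (by decide +kernel)
              (CovZ.n1 (4720, 2480) (by decide +kernel)
               (CovZ.n2 (4800, 2480) (by decide +kernel)
                (CovZ.n2 (4760, 2440) (by decide +kernel)
                 (CovZ.leaf K2_ok TP_l3131 _)
                 (CovZ.leaf K2_ok TP_l3132 _))
                (CovZ.n1 (4760, 2520) (by decide +kernel)
                 (CovZ.n2 (4800, 2520) (by decide +kernel)
                  (CovZ.leaf K2_ok TP_l3133 _)
                  (CovZ.leaf K2_ok TP_l3134 _))
                 (CovZ.leaf K2_ok TP_l3135 _)))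
               (CovZ.n1 (4720, 2400) (by decide +kernel)
                (CovZ.n2 (4680, 2440) (by decide +kernel)
                 (CovZ.leaf K2_ok TP_l3136 _)
                 (CovZ.leaf K2_ok TP_l3137 _))
                (CovZ.leaf K2_ok TP_l3138 _)))))))))

end Pool.Agent.TET
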