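import Pool.Agent.Helper38_TET.TP_M
import Pool.Agent.Helper38_TET.TP_L
import Pool.Agent.Helper38_TET.TP_18
import Pool.Agent.Helper38_TET.TP_19
import Pool.Agent.Helper38_TET.TP_20
import Pool.Agent.Helper38_TET.TP_21
import Pool.Agent.Helper38_TET.TP_22
import Pool.Agent.Helper38_TET.TP_23
import Pool.Agent.Helper38_TET.TP_24
import Pool.Agent.Helper38_TET.TP_25
import Pool.Agent.Helper38_TET.TP_26
import Pool.Agent.Helper38_TET.TP_27
import Pool.Agent.Helper38_TET.TP_28
import Pool.Agent.Helper38_TET.TP_51
import Pool.Agent.Helper38_TET.TP_52
import Pool.Agent.Helper38_TET.TP_U1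

/-!
# MP_c7c9bf_co: certificates, family TP
-/

set_option autoImplicit false
set_option maxRecDepth 100000

namespace Pool.Agent.TET

theorem TP_u29 : CovZ TP_M (toL (selN TP_LN 53092604867099937150704500946871284400384)) [0, 7, 2, 5] (4480, 2560) (3840, 2560) (4480, 1920) :=
    (CovZ.n1 (4160, 2240) (by decide +kernel)
         (CovZ.subM 46286777076080447707983766301299508772864 (by decide +kernel)
          (CovZ.n2 (4160, 2560) (by decide +kernel)
           (CovZ.n2 (4320, 2400) (by decide +kernel)
            (CovZ.n2 (4160, 2400) (by decide +kernel)
             (CovZ.badM (by decide +kernel))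
             (CovZ.n1 (4240, 2320) (by decide +kernel)
              (CovZ.n2 (4160, 2320) (by decide +kernel)
               (CovZ.subM 353076186380368278740073750386966528 (by decide +kernel)
                (CovZ.n2 (4200, 2360) (by decide +kernel)
                 (CovZ.n2 (4200, 2320) (by decide +kernel)
                  (CovZ.leaf K2_ok TP_l3140 _)
                  (CovZ.leaf K2_ok TP_l3141 _))
                 (CovZ.n1 (4160, 2360) (by decide +kernel)
                  (CovZ.badM (by decide +kernel))
                  (CovZ.leaf K2_ok TP_l3144 _))))
               (CovZ.n1 (4200, 2280) (by decide +kernel)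
                (CovZ.leaf K2_ok TP_l3145 _)
                (CovZ.n1 (4200, 2320) (by decide +kernel)
                 (CovZ.leaf K2_ok TP_l3146 _)
                 (CovZ.leaf K2_ok TP_l3147 _))))
              (CovZ.subM 2722612011553888075985736933204532658176 (by decide +kernel)
               (CovZ.n1 (4240, 2400) (by decide +kernel)
                (CovZ.n2 (4280, 2360) (by decide +kernel)
                 (CovZ.n2 (4240, 2360) (by decide +kernel)
                  (CovZ.n2 (4260, 2380) (by decide +kernel)
                   (CovZ.leaf K2_ok TP_l3148 _)
                   (CovZ.leaf K2_ok TP_l3149 _))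
                  (CovZ.leaf K2_ok TP_l3150 _))
                 (CovZ.n1 (4280, 2400) (by decide +kernel)
                  (CovZ.leaf K2_ok TP_l3151 _)
                  (CovZ.n1 (4260, 2380) (by decide +kernel)
                   (CovZ.leaf K2_ok TP_l7656 _)
                   (CovZ.leaf K2_ok TP_l3152 _))))
                (CovZ.n1 (4200, 2360) (by decide +kernel)
                 (CovZ.badM (by decide +kernel))
                 (CovZ.n1 (4240, 2360) (by decide +kernel)
                  (CovZ.leaf K2_ok TP_l3155 _)
                  (CovZ.badM (by decide +kernel))))))))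
            (CovZ.subM 43558801421871693155057757365386891755520 (by decide +kernel)
             (CovZ.n1 (4320, 2560) (by decide +kernel)
              (CovZ.n2 (4400, 2480) (by decide +kernel)
               (CovZ.n2 (4320, 2480) (by decide +kernel)
                (CovZ.badM (by decide +kernel))
                (CovZ.n1 (4360, 2440) (by decide +kernel)
                 (CovZ.badM (by decide +kernel))
                 (CovZ.badM (by decide +kernel))))
               (CovZ.badM (by decide +kernel)))
              (CovZ.badM (by decide +kernel)))))
           (CovZ.n1 (4000, 2400) (by decide +kernel)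
            (CovZ.badM (by decide +kernel))
            (CovZ.n1 (4160, 2400) (by decide +kernel)
             (CovZ.n2 (4080, 2320) (by decide +kernel)
              (CovZ.subM 353076186380368278740073750386966528 (by decide +kernel)
               (CovZ.n2 (4080, 2400) (by decide +kernel)
                (CovZ.n2 (4120, 2360) (by decide +kernel)
                 (CovZ.n2 (4080, 2360) (by decide +kernel)
                  (CovZ.badM (by decide +kernel))
                  (CovZ.n1 (4100, 2340) (by decide +kernel)
                   (CovZ.leaf K2_ok TP_l3160 _)
                   (CovZ.badM (by decide +kernel))))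
                 (CovZ.badM (by decide +kernel)))
                (CovZ.n1 (4040, 2360) (by decide +kernel)
                 (CovZ.badM (by decide +kernel))
                 (CovZ.n1 (4080, 2360) (by decide +kernel)
                  (CovZ.n2 (4060, 2340) (by decide +kernel)
                   (CovZ.badM (by decide +kernel))
                   (CovZ.leaf K2_ok TP_l3161 _))
                  (CovZ.badM (by decide +kernel))))))
              (CovZ.n1 (4160, 2320) (by decide +kernel)
               (CovZ.n2 (4120, 2280) (by decide +kernel)
                (CovZ.n2 (4120, 2320) (by decide +kernel)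
                 (CovZ.leaf K2_ok TP_l3162 _)
                 (CovZ.leaf K2_ok TP_l3163 _))
                (CovZ.leaf K2_ok TP_l3164 _))
               (CovZ.subM 353076186380368278740073750386966528 (by decide +kernel)
                (CovZ.n1 (4120, 2360) (by decide +kernel)
                 (CovZ.n2 (4160, 2360) (by decide +kernel)
                  (CovZ.n2 (4140, 2340) (by decide +kernel)
                   (CovZ.leaf K2_ok TP_l7657 _)
                   (CovZ.leaf K2_ok TP_l3165 _))
                  (CovZ.badM (by decide +kernel)))
                 (CovZ.n1 (4120, 2320) (by decide +kernel)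
                  (CovZ.n2 (4100, 2340) (by decide +kernel)
                   (CovZ.leaf K2_ok TP_l3166 _)
                   (CovZ.leaf K2_ok TP_l3167 _))
                  (CovZ.leaf K2_ok TP_l3168 _))))))
             (CovZ.badM (by decide +kernel))))))
         (CovZ.n1 (4480, 2240) (by decide +kernel)
          (CovZ.n2 (4320, 2080) (by decide +kernel)
           (CovZ.subM 51731306629483394826759924213824540901632 (by decide +kernel)
            (CovZ.n2 (4320, 2240) (by decide +kernel)
             (CovZ.n2 (4400, 2160) (by decide +kernel)
              (CovZ.leaf K2_ok TP_l3169 _)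
              (CovZ.n1 (4400, 2240) (by decide +kernel)
               (CovZ.leaf K2_ok TP_l3170 _)
               (CovZ.leaf K2_ok TP_l3171 _)))
             (CovZ.n1 (4240, 2160) (by decide +kernel)
              (CovZ.n2 (4240, 2240) (by decide +kernel)
               (CovZ.leaf K2_ok TP_l3172 _)
               (CovZ.leaf K2_ok TP_l3173 _))
              (CovZ.leaf K2_ok TP_l3174 _))))
           (CovZ.n1 (4480, 2080) (by decide +kernel)
            (CovZ.leaf K2_ok TP_l3175 _)
            (CovZ.n1 (4400, 2160) (by decide +kernel)
             (CovZ.leaf K2_ok TP_l3176 _)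
             (CovZ.leaf K2_ok TP_l3177 _))))
          (CovZ.subM 46286777076080447707983766301299508772864 (by decide +kernel)
           (CovZ.n1 (4320, 2400) (by decide +kernel)
            (CovZ.n2 (4480, 2400) (by decide +kernel)
             (CovZ.n2 (4400, 2320) (by decide +kernel)
              (CovZ.n2 (4400, 2400) (by decide +kernel)
               (CovZ.n2 (4440, 2360) (by decide +kernel)
                (CovZ.leaf K2_ok TP_l3178 _)
                (CovZ.leaf K2_ok TP_l3179 _))
               (CovZ.n1 (4360, 2360) (by decide +kernel)
                (CovZ.n2 (4360, 2400) (by decide +kernel)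
                 (CovZ.leaf K2_ok TP_l3180 _)
                 (CovZ.leaf K2_ok TP_l3181 _))
                (CovZ.leaf K2_ok TP_l3182 _)))
              (CovZ.n1 (4480, 2320) (by decide +kernel)
               (CovZ.leaf K2_ok TP_l3183 _)
               (CovZ.n1 (4440, 2360) (by decide +kernel)
                (CovZ.leaf K2_ok TP_l3184 _)
                (CovZ.leaf K2_ok TP_l3185 _))))
             (CovZ.subM 43558801421871693155057757365386891755520 (by decide +kernel)
              (CovZ.n1 (4400, 2480) (by decide +kernel)
               (CovZ.n2 (4480, 2480) (by decide +kernel)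
                (CovZ.n2 (4440, 2440) (by decide +kernel)
                 (CovZ.n2 (4440, 2480) (by decide +kernel)
                  (CovZ.n2 (4460, 2460) (by decide +kernel)
                   (CovZ.leaf K2_ok TP_l7658 _)
                   (CovZ.badM (by decide +kernel)))
                  (CovZ.n1 (4420, 2460) (by decide +kernel)
                   (CovZ.badM (by decide +kernel))
                   (CovZ.leaf K2_ok TP_l7659 _)))
                 (CovZ.n1 (4480, 2440) (by decide +kernel)
                  (CovZ.leaf K2_ok TP_l3186 _)
                  (CovZ.n1 (4460, 2460) (by decide +kernel)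
                   (CovZ.leaf K2_ok TP_l3187 _)
                   (CovZ.leaf K2_ok TP_l3188 _))))
                (CovZ.badM (by decide +kernel)))
               (CovZ.n1 (4400, 2400) (by decide +kernel)
                (CovZ.n2 (4360, 2440) (by decide +kernel)
                 (CovZ.n2 (4400, 2440) (by decide +kernel)
                  (CovZ.n2 (4380, 2420) (by decide +kernel)
                   (CovZ.leaf K2_ok TP_l3189 _)
                   (CovZ.leaf K2_ok TP_l3190 _))
                  (CovZ.badM (by decide +kernel)))
                 (CovZ.n1 (4360, 2400) (by decide +kernel)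
                  (CovZ.badM (by decide +kernel))
                  (CovZ.leaf K2_ok TP_l3193 _)))
                (CovZ.n1 (4440, 2440) (by decide +kernel)
                 (CovZ.n2 (4440, 2400) (by decide +kernel)
                  (CovZ.leaf K2_ok TP_l3194 _)
                  (CovZ.leaf K2_ok TP_l3195 _))
                 (CovZ.n1 (4400, 2440) (by decide +kernel)
                  (CovZ.n2 (4420, 2460) (by decide +kernel)
                   (CovZ.leaf K2_ok TP_l7660 _)
                   (CovZ.leaf K2_ok TP_l7661 _))
                  (CovZ.leaf K2_ok TP_l3196 _)))))))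
            (CovZ.n1 (4320, 2240) (by decide +kernel)
             (CovZ.n2 (4240, 2320) (by decide +kernel)
              (CovZ.n2 (4320, 2320) (by decide +kernel)
               (CovZ.n2 (4280, 2280) (by decide +kernel)
                (CovZ.leaf K2_ok TP_l3197 _)
                (CovZ.leaf K2_ok TP_l3198 _))
               (CovZ.subM 2722612011553888075985736933204532658176 (by decide +kernel)
                (CovZ.n1 (4280, 2360) (by decide +kernel)
                 (CovZ.n2 (4320, 2360) (by decide +kernel)
                  (CovZ.leaf K2_ok TP_l3199 _)
                  (CovZ.leaf K2_ok TP_l3200 _))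
                 (CovZ.n1 (4280, 2320) (by decide +kernel)
                  (CovZ.leaf K2_ok TP_l3201 _)
                  (CovZ.leaf K2_ok TP_l3202 _)))))
              (CovZ.n1 (4240, 2240) (by decide +kernel)
               (CovZ.n2 (4200, 2280) (by decide +kernel)
                (CovZ.leaf K2_ok TP_l3203 _)
                (CovZ.leaf K2_ok TP_l3204 _))
               (CovZ.leaf K2_ok TP_l3205 _)))
             (CovZ.n1 (4400, 2320) (by decide +kernel)
              (CovZ.n2 (4400, 2240) (by decide +kernel)
               (CovZ.leaf K2_ok TP_l3206 _)
               (CovZ.leaf K2_ok TP_l3207 _))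
              (CovZ.n1 (4320, 2320) (by decide +kernel)
               (CovZ.n2 (4360, 2360) (by decide +kernel)
                (CovZ.leaf K2_ok TP_l3208 _)
                (CovZ.leaf K2_ok TP_l3209 _))
               (CovZ.leaf K2_ok TP_l3210 _))))))))

theorem TP_u30 : CovZ TP_M (toL (selN TP_LN 53092687953990878661478415921622310478081)) [0, 7, 2, 5] (3840, 1280) (3840, 1920) (3200, 1920) :=
    (CovZ.n2 (3520, 1600) (by decide +kernel)
        (CovZ.subM 5444612660578774717743223869187795476736 (by decide +kernel)
         (CovZ.n2 (3520, 1920) (by decide +kernel)
          (CovZ.n2 (3680, 1760) (by decide +kernel)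
           (CovZ.n2 (3520, 1760) (by decide +kernel)
            (CovZ.leaf K2_ok TP_l3223 _)
            (CovZ.leaf K2_ok TP_l3224 _))
           (CovZ.n1 (3680, 1920) (by decide +kernel)
            (CovZ.leaf K2_ok TP_l3225 _)
            (CovZ.n1 (3600, 1840) (by decide +kernel)
             (CovZ.leaf K2_ok TP_l3226 _)
             (CovZ.leaf K2_ok TP_l3227 _))))
          (CovZ.n1 (3360, 1760) (by decide +kernel)
           (CovZ.subM 11713094022593971446207760708927488 (by decide +kernel)
            (CovZ.n2 (3360, 1920) (by decide +kernel)
             (CovZ.n2 (3440, 1840) (by decide +kernel)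
              (CovZ.leaf K2_ok TP_l3228 _)
              (CovZ.n1 (3440, 1920) (by decide +kernel)
               (CovZ.leaf K2_ok TP_l3229 _)
               (CovZ.leaf K2_ok TP_l3230 _)))
             (CovZ.n1 (3280, 1840) (by decide +kernel)
              (CovZ.n2 (3280, 1920) (by decide +kernel)
               (CovZ.leaf K2_ok TP_l3231 _)
               (CovZ.leaf K2_ok TP_l3232 _))
              (CovZ.leaf K2_ok TP_l3233 _))))
           (CovZ.n1 (3520, 1760) (by decide +kernel)
            (CovZ.leaf K2_ok TP_l3234 _)
            (CovZ.n1 (3440, 1840) (by decide +kernel)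
             (CovZ.leaf K2_ok TP_l3235 _)
             (CovZ.leaf K2_ok TP_l3236 _))))))
        (CovZ.n1 (3840, 1600) (by decide +kernel)
         (CovZ.n2 (3680, 1440) (by decide +kernel)
          (CovZ.leaf K2_ok TP_l3237 _)
          (CovZ.leaf K2_ok TP_l3238 _))
         (CovZ.subM 5444612660578774717743223869187795476736 (by decide +kernel)
          (CovZ.n1 (3680, 1760) (by decide +kernel)
           (CovZ.n2 (3840, 1760) (by decide +kernel)
            (CovZ.leaf K2_ok TP_l3239 _)
            (CovZ.leaf K2_ok TP_l3240 _))
           (CovZ.n1 (3680, 1600) (by decide +kernel)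
            (CovZ.leaf K2_ok TP_l3241 _)
            (CovZ.leaf K2_ok TP_l3242 _))))))

theorem TP_u31 : CovZ TP_M (toL (selN TP_LN 53092687953990878661478415921622310478081)) [0, 7, 2, 5] (3840, 1920) (3840, 2560) (3200, 1920) :=
    (CovZ.subM 5444529573687833206969308904336669016320 (by decide +kernel)
        (CovZ.n1 (3520, 2240) (by decide +kernel)
         (CovZ.n2 (3840, 2240) (by decide +kernel)
          (CovZ.n2 (3680, 2080) (by decide +kernel)
           (CovZ.subM 5444529553402947118776157912525032128768 (by decide +kernel)
            (CovZ.n2 (3680, 2240) (by decide +kernel)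
             (CovZ.n2 (3760, 2160) (by decide +kernel)
              (CovZ.n2 (3680, 2160) (by decide +kernel)
               (CovZ.n2 (3720, 2200) (by decide +kernel)
                (CovZ.n2 (3720, 2160) (by decide +kernel)
                 (CovZ.n2 (3700, 2180) (by decide +kernel)
                  (CovZ.leaf K2_ok TP_l3243 _)
                  (CovZ.leaf K2_ok TP_l3244 _))
                 (CovZ.leaf K2_ok TP_l3245 _))
                (CovZ.n1 (3680, 2200) (by decide +kernel)
                 (CovZ.n2 (3700, 2220) (by decide +kernel)
                  (CovZ.leaf K2_ok TP_l3246 _)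
                  (CovZ.leaf K2_ok TP_l3247 _))
                 (CovZ.n1 (3700, 2180) (by decide +kernel)
                  (CovZ.leaf K2_ok TP_l3248 _)
                  (CovZ.leaf K2_ok TP_l3249 _))))
               (CovZ.n1 (3720, 2120) (by decide +kernel)
                (CovZ.leaf K2_ok TP_l3250 _)
                (CovZ.n1 (3720, 2160) (by decide +kernel)
                 (CovZ.leaf K2_ok TP_l3251 _)
                 (CovZ.leaf K2_ok TP_l3252 _))))
              (CovZ.n1 (3760, 2240) (by decide +kernel)
               (CovZ.n2 (3800, 2200) (by decide +kernel)
                (CovZ.n2 (3760, 2200) (by decide +kernel)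
                 (CovZ.leaf K2_ok TP_l3253 _)
                 (CovZ.leaf K2_ok TP_l3254 _))
                (CovZ.n1 (3800, 2240) (by decide +kernel)
                 (CovZ.leaf K2_ok TP_l3255 _)
                 (CovZ.n1 (3780, 2220) (by decide +kernel)
                  (CovZ.leaf K2_ok TP_l7666 _)
                  (CovZ.leaf K2_ok TP_l3256 _))))
               (CovZ.n1 (3720, 2200) (by decide +kernel)
                (CovZ.n2 (3720, 2240) (by decide +kernel)
                 (CovZ.n2 (3740, 2220) (by decide +kernel)
                  (CovZ.leaf K2_ok TP_l3257 _)
                  (CovZ.badM (by decide +kernel)))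
                 (CovZ.n1 (3700, 2220) (by decide +kernel)
                  (CovZ.badM (by decide +kernel))
                  (CovZ.leaf K2_ok TP_l3258 _)))
                (CovZ.n1 (3760, 2200) (by decide +kernel)
                 (CovZ.leaf K2_ok TP_l3259 _)
                 (CovZ.n1 (3740, 2220) (by decide +kernel)
                  (CovZ.leaf K2_ok TP_l3260 _)
                  (CovZ.leaf K2_ok TP_l3261 _))))))
             (CovZ.n1 (3600, 2160) (by decide +kernel)
              (CovZ.badM (by decide +kernel))
              (CovZ.n1 (3680, 2160) (by decide +kernel)
               (CovZ.n2 (3640, 2120) (by decide +kernel)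
                (CovZ.n2 (3640, 2160) (by decide +kernel)
                 (CovZ.leaf K2_ok TP_l3263 _)
                 (CovZ.leaf K2_ok TP_l3264 _))
                (CovZ.n1 (3680, 2120) (by decide +kernel)
                 (CovZ.leaf K2_ok TP_l3265 _)
                 (CovZ.leaf K2_ok TP_l3266 _)))
               (CovZ.badM (by decide +kernel))))))
           (CovZ.n1 (3840, 2080) (by decide +kernel)
            (CovZ.n2 (3760, 2000) (by decide +kernel)
             (CovZ.n2 (3760, 2080) (by decide +kernel)
              (CovZ.leaf K2_ok TP_l3272 _)
              (CovZ.leaf K2_ok TP_l3273 _))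
             (CovZ.leaf K2_ok TP_l3274 _))
            (CovZ.subM 5444529553402947118776157912525032128768 (by decide +kernel)
             (CovZ.n1 (3760, 2160) (by decide +kernel)
              (CovZ.n2 (3840, 2160) (by decide +kernel)
               (CovZ.n2 (3800, 2120) (by decide +kernel)
                (CovZ.leaf K2_ok TP_l3275 _)
                (CovZ.leaf K2_ok TP_l3276 _))
               (CovZ.n1 (3800, 2200) (by decide +kernel)
                (CovZ.n2 (3840, 2200) (by decide +kernel)
                 (CovZ.leaf K2_ok TP_l3277 _)
                 (CovZ.leaf K2_ok TP_l3278 _))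
                (CovZ.n1 (3800, 2160) (by decide +kernel)
                 (CovZ.leaf K2_ok TP_l3279 _)
                 (CovZ.leaf K2_ok TP_l3280 _))))
              (CovZ.n1 (3760, 2080) (by decide +kernel)
               (CovZ.n2 (3720, 2120) (by decide +kernel)
                (CovZ.leaf K2_ok TP_l3281 _)
                (CovZ.leaf K2_ok TP_l3282 _))
               (CovZ.leaf K2_ok TP_l3283 _))))))
          (CovZ.badM (by decide +kernel)))
         (CovZ.n1 (3520, 1920) (by decide +kernel)
          (CovZ.n2 (3360, 2080) (by decide +kernel)
           (CovZ.n2 (3520, 2080) (by decide +kernel)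
            (CovZ.n2 (3440, 2000) (by decide +kernel)
             (CovZ.subM 11682667932307825074000931328098304 (by decide +kernel)
              (CovZ.n2 (3440, 2080) (by decide +kernel)
               (CovZ.n2 (3480, 2040) (by decide +kernel)
                (CovZ.leaf K2_ok TP_l3286 _)
                (CovZ.n1 (3480, 2080) (by decide +kernel)
                 (CovZ.leaf K2_ok TP_l3287 _)
                 (CovZ.leaf K2_ok TP_l3288 _)))
               (CovZ.n1 (3400, 2040) (by decide +kernel)
                (CovZ.n2 (3400, 2080) (by decide +kernel)
                 (CovZ.leaf K2_ok TP_l3289 _)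
                 (CovZ.leaf K2_ok TP_l3290 _))
                (CovZ.n1 (3440, 2040) (by decide +kernel)
                 (CovZ.leaf K2_ok TP_l3291 _)
                 (CovZ.leaf K2_ok TP_l3292 _)))))
             (CovZ.n1 (3520, 2000) (by decide +kernel)
              (CovZ.leaf K2_ok TP_l3293 _)
              (CovZ.n1 (3480, 2040) (by decide +kernel)
               (CovZ.leaf K2_ok TP_l3294 _)
               (CovZ.leaf K2_ok TP_l3295 _))))
            (CovZ.subM 11682667931703362164193616740745216 (by decide +kernel)
             (CovZ.n1 (3440, 2160) (by decide +kernel)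
              (CovZ.n2 (3520, 2160) (by decide +kernel)
               (CovZ.n2 (3480, 2120) (by decide +kernel)
                (CovZ.n2 (3480, 2160) (by decide +kernel)
                 (CovZ.n2 (3500, 2140) (by decide +kernel)
                  (CovZ.badM (by decide +kernel))
                  (CovZ.badM (by decide +kernel)))
                 (CovZ.badM (by decide +kernel)))
                (CovZ.n1 (3520, 2120) (by decide +kernel)
                 (CovZ.leaf K2_ok TP_l3296 _)
                 (CovZ.n1 (3500, 2140) (by decide +kernel)
                  (CovZ.leaf K2_ok TP_l7667 _)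
                  (CovZ.leaf K2_ok TP_l7668 _))))
               (CovZ.badM (by decide +kernel)))
              (CovZ.n1 (3440, 2080) (by decide +kernel)
               (CovZ.n2 (3400, 2120) (by decide +kernel)
                (CovZ.n2 (3440, 2120) (by decide +kernel)
                 (CovZ.n2 (3420, 2100) (by decide +kernel)
                  (CovZ.badM (by decide +kernel))
                  (CovZ.leaf K2_ok TP_l3297 _))
                 (CovZ.badM (by decide +kernel)))
                (CovZ.n1 (3400, 2080) (by decide +kernel)
                 (CovZ.n2 (3380, 2100) (by decide +kernel)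
                  (CovZ.leaf K2_ok TP_l3298 _)
                  (CovZ.leaf K2_ok TP_l3299 _))
                 (CovZ.n1 (3420, 2100) (by decide +kernel)
                  (CovZ.leaf K2_ok TP_l3300 _)
                  (CovZ.leaf K2_ok TP_l3301 _))))
               (CovZ.n1 (3480, 2120) (by decide +kernel)
                (CovZ.n2 (3480, 2080) (by decide +kernel)
                 (CovZ.n2 (3460, 2100) (by decide +kernel)
                  (CovZ.leaf K2_ok TP_l3302 _)
                  (CovZ.leaf K2_ok TP_l3303 _))
                 (CovZ.leaf K2_ok TP_l3304 _))
                (CovZ.n1 (3440, 2120) (by decide +kernel)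
                 (CovZ.badM (by decide +kernel))
                 (CovZ.n1 (3460, 2100) (by decide +kernel)
                  (CovZ.leaf K2_ok TP_l3305 _)
                  (CovZ.badM (by decide +kernel)))))))))
           (CovZ.n1 (3360, 1920) (by decide +kernel)
            (CovZ.subM 20284886088193150991811636887552 (by decide +kernel)
             (CovZ.n2 (3280, 2000) (by decide +kernel)
              (CovZ.n2 (3360, 2000) (by decide +kernel)
               (CovZ.n2 (3320, 1960) (by decide +kernel)
                (CovZ.leaf K2_ok TP_l3306 _)
                (CovZ.leaf K2_ok TP_l3307 _))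
               (CovZ.n1 (3320, 2040) (by decide +kernel)
                (CovZ.n2 (3360, 2040) (by decide +kernel)
                 (CovZ.leaf K2_ok TP_l3308 _)
                 (CovZ.badM (by decide +kernel)))
                (CovZ.n1 (3320, 2000) (by decide +kernel)
                 (CovZ.leaf K2_ok TP_l3309 _)
                 (CovZ.leaf K2_ok TP_l3310 _))))
              (CovZ.n1 (3280, 1920) (by decide +kernel)
               (CovZ.n2 (3240, 1960) (by decide +kernel)
                (CovZ.leaf K2_ok TP_l3311 _)
                (CovZ.leaf K2_ok TP_l3312 _))
               (CovZ.n1 (3320, 1960) (by decide +kernel)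
                (CovZ.leaf K2_ok TP_l3313 _)
                (CovZ.leaf K2_ok TP_l3314 _)))))
            (CovZ.n1 (3440, 2000) (by decide +kernel)
             (CovZ.n2 (3440, 1920) (by decide +kernel)
              (CovZ.leaf K2_ok TP_l3315 _)
              (CovZ.leaf K2_ok TP_l3316 _))
             (CovZ.subM 10404878603157848408052804295327744 (by decide +kernel)
              (CovZ.n1 (3360, 2000) (by decide +kernel)
               (CovZ.n2 (3400, 2040) (by decide +kernel)
                (CovZ.leaf K2_ok TP_l3317 _)
                (CovZ.n1 (3360, 2040) (by decide +kernel)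
                 (CovZ.leaf K2_ok TP_l3318 _)
                 (CovZ.leaf K2_ok TP_l3319 _)))
               (CovZ.n1 (3400, 1960) (by decide +kernel)
                (CovZ.leaf K2_ok TP_l3320 _)
                (CovZ.leaf K2_ok TP_l3321 _)))))))
          (CovZ.n1 (3680, 2080) (by decide +kernel)
           (CovZ.n2 (3680, 1920) (by decide +kernel)
            (CovZ.n2 (3600, 2000) (by decide +kernel)
             (CovZ.n2 (3680, 2000) (by decide +kernel)
              (CovZ.leaf K2_ok TP_l3322 _)
              (CovZ.leaf K2_ok TP_l3323 _))
             (CovZ.n1 (3600, 1920) (by decide +kernel)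
              (CovZ.leaf K2_ok TP_l3324 _)
              (CovZ.leaf K2_ok TP_l3325 _)))
            (CovZ.n1 (3760, 2000) (by decide +kernel)
             (CovZ.leaf K2_ok TP_l3326 _)
             (CovZ.leaf K2_ok TP_l3327 _)))
           (CovZ.n1 (3520, 2080) (by decide +kernel)
            (CovZ.subM 11682667931703362164193616740745216 (by decide +kernel)
             (CovZ.n2 (3600, 2160) (by decide +kernel)
              (CovZ.n2 (3600, 2080) (by decide +kernel)
               (CovZ.n2 (3560, 2120) (by decide +kernel)
                (CovZ.n2 (3600, 2120) (by decide +kernel)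
                 (CovZ.leaf K2_ok TP_l3328 _)
                 (CovZ.leaf K2_ok TP_l7669 _))
                (CovZ.n1 (3560, 2080) (by decide +kernel)
                 (CovZ.leaf K2_ok TP_l3329 _)
                 (CovZ.leaf K2_ok TP_l3330 _)))
               (CovZ.n1 (3640, 2120) (by decide +kernel)
                (CovZ.leaf K2_ok TP_l3331 _)
                (CovZ.n1 (3600, 2120) (by decide +kernel)
                 (CovZ.leaf K2_ok TP_l3332 _)
                 (CovZ.leaf K2_ok TP_l3333 _))))
              (CovZ.n1 (3520, 2160) (by decide +kernel)
               (CovZ.badM (by decide +kernel))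
               (CovZ.n1 (3560, 2120) (by decide +kernel)
                (CovZ.n2 (3520, 2120) (by decide +kernel)
                 (CovZ.n2 (3540, 2140) (by decide +kernel)
                  (CovZ.leaf K2_ok TP_l7670 _)
                  (CovZ.leaf K2_ok TP_l7671 _))
                 (CovZ.leaf K2_ok TP_l3334 _))
                (CovZ.n1 (3560, 2160) (by decide +kernel)
                 (CovZ.leaf K2_ok TP_l7672 _)
                 (CovZ.n1 (3540, 2140) (by decide +kernel)
                  (CovZ.badM (by decide +kernel))
                  (CovZ.leaf K2_ok TP_l7673 _)))))))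
            (CovZ.n1 (3600, 2000) (by decide +kernel)
             (CovZ.n2 (3520, 2000) (by decide +kernel)
              (CovZ.n2 (3560, 2040) (by decide +kernel)
               (CovZ.leaf K2_ok TP_l3335 _)
               (CovZ.leaf K2_ok TP_l3336 _))
              (CovZ.leaf K2_ok TP_l3337 _))
             (CovZ.n1 (3600, 2080) (by decide +kernel)
              (CovZ.leaf K2_ok TP_l3338 _)
              (CovZ.n1 (3560, 2040) (by decide +kernel)
               (CovZ.leaf K2_ok TP_l3339 _)
               (CovZ.leaf K2_ok TP_l3340 _)))))))))

theorem TP_u32 : CovZ TP_M (toL (selN TP_LN 53092687953990878661478415921622310478081)) [0, 7, 2, 5] (2560, 0) (3840, 1280) (2560, 2560) :=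
    (CovZ.n2 (2560, 1280) (by decide +kernel)
     (CovZ.n2 (3200, 1920) (by decide +kernel)
      (CovZ.n2 (3200, 1280) (by decide +kernel)
       (CovZ.subM 83107175826994504156159248075612161 (by decide +kernel)
        (CovZ.n2 (2880, 1600) (by decide +kernel)
         (CovZ.n2 (3200, 1600) (by decide +kernel)
          (CovZ.n2 (3040, 1440) (by decide +kernel)
           (CovZ.n2 (3040, 1600) (by decide +kernel)
            (CovZ.leaf K2_ok TP_l2827 _)
            (CovZ.leaf K2_ok TP_l2828 _))
           (CovZ.leaf K2_ok TP_l2829 _))
          (CovZ.n1 (3040, 1760) (by decide +kernel)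
           (CovZ.n2 (3200, 1760) (by decide +kernel)
            (CovZ.n2 (3120, 1680) (by decide +kernel)
             (CovZ.leaf K2_ok TP_l2830 _)
             (CovZ.leaf K2_ok TP_l2831 _))
            (CovZ.subM 30426090286146372206829380829184 (by decide +kernel)
             (CovZ.n1 (3120, 1840) (by decide +kernel)
              (CovZ.n2 (3200, 1840) (by decide +kernel)
               (CovZ.leaf K2_ok TP_l2832 _)
               (CovZ.n1 (3160, 1880) (by decide +kernel)
                (CovZ.leaf K2_ok TP_l2833 _)
                (CovZ.leaf K2_ok TP_l2834 _)))
              (CovZ.n1 (3120, 1760) (by decide +kernel)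
               (CovZ.leaf K2_ok TP_l2835 _)
               (CovZ.leaf K2_ok TP_l2836 _)))))
           (CovZ.n1 (3040, 1600) (by decide +kernel)
            (CovZ.n2 (2960, 1680) (by decide +kernel)
             (CovZ.leaf K2_ok TP_l2837 _)
             (CovZ.leaf K2_ok TP_l2838 _))
            (CovZ.leaf K2_ok TP_l2839 _))))
         (CovZ.n1 (2880, 1280) (by decide +kernel)
          (CovZ.n2 (2720, 1440) (by decide +kernel)
           (CovZ.n2 (2880, 1440) (by decide +kernel)
            (CovZ.leaf K2_ok TP_l2840 _)
            (CovZ.n1 (2800, 1520) (by decide +kernel)
             (CovZ.leaf K2_ok TP_l2841 _)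
             (CovZ.leaf K2_ok TP_l2842 _)))
           (CovZ.n1 (2720, 1280) (by decide +kernel)
            (CovZ.leaf K2_ok TP_l2843 _)
            (CovZ.leaf K2_ok TP_l2844 _)))
          (CovZ.n1 (3040, 1440) (by decide +kernel)
           (CovZ.leaf K2_ok TP_l2845 _)
           (CovZ.n1 (2880, 1440) (by decide +kernel)
            (CovZ.leaf K2_ok TP_l2846 _)
            (CovZ.leaf K2_ok TP_l2847 _))))))
       (CovZ.n1 (3520, 1600) (by decide +kernel)
        (CovZ.n2 (3520, 1280) (by decide +kernel)
         (CovZ.n2 (3360, 1440) (by decide +kernel)
          (CovZ.leaf K2_ok TP_l2848 _)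
          (CovZ.leaf K2_ok TP_l2849 _))
         (CovZ.leaf K2_ok TP_l2850 _))
        (CovZ.subM 94789843759302329230160179403710465 (by decide +kernel)
         (CovZ.n1 (3200, 1600) (by decide +kernel)
          (CovZ.n2 (3360, 1760) (by decide +kernel)
           (CovZ.n2 (3360, 1600) (by decide +kernel)
            (CovZ.leaf K2_ok TP_l2851 _)
            (CovZ.leaf K2_ok TP_l2852 _))
           (CovZ.n1 (3200, 1760) (by decide +kernel)
            (CovZ.n2 (3280, 1840) (by decide +kernel)
             (CovZ.leaf K2_ok TP_l2853 _)
             (CovZ.n1 (3200, 1840) (by decide +kernel)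
              (CovZ.leaf K2_ok TP_l2854 _)
              (CovZ.leaf K2_ok TP_l2855 _)))
            (CovZ.leaf K2_ok TP_l2856 _)))
          (CovZ.n1 (3360, 1440) (by decide +kernel)
           (CovZ.leaf K2_ok TP_l2857 _)
           (CovZ.n1 (3360, 1600) (by decide +kernel)
            (CovZ.leaf K2_ok TP_l2858 _)
            (CovZ.leaf K2_ok TP_l2859 _)))))))
      (CovZ.subM 83107175826994504156159248075612161 (by decide +kernel)
       (CovZ.n1 (2560, 1920) (by decide +kernel)
        TP_u26
        TP_u27)))
     (CovZ.n1 (3200, 640) (by decide +kernel)
      (CovZ.subM 83107175826994504156159248075612161 (by decide +kernel)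
       (CovZ.n2 (2560, 640) (by decide +kernel)
        (CovZ.n2 (2880, 960) (by decide +kernel)
         (CovZ.n2 (2880, 640) (by decide +kernel)
          (CovZ.leaf K2_ok TP_l2968 _)
          (CovZ.leaf K2_ok TP_l2969 _))
         (CovZ.n1 (2560, 960) (by decide +kernel)
          (CovZ.n2 (2720, 1120) (by decide +kernel)
           (CovZ.leaf K2_ok TP_l2970 _)
           (CovZ.leaf K2_ok TP_l2971 _))
          (CovZ.leaf K2_ok TP_l2972 _)))
        (CovZ.n1 (2880, 320) (by decide +kernel)
         (CovZ.n2 (2560, 320) (by decide +kernel)
          (CovZ.leaf K2_ok TP_l2973 _)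
          (CovZ.leaf K2_ok TP_l2974 _))
         (CovZ.n1 (2880, 640) (by decide +kernel)
          (CovZ.leaf K2_ok TP_l2975 _)
          (CovZ.leaf K2_ok TP_l2976 _)))))
      (CovZ.n1 (3200, 1280) (by decide +kernel)
       (CovZ.n2 (3520, 960) (by decide +kernel)
        (CovZ.n2 (3200, 960) (by decide +kernel)
         (CovZ.leaf K2_ok TP_l2977 _)
         (CovZ.leaf K2_ok TP_l2978 _))
        (CovZ.n1 (3520, 1280) (by decide +kernel)
         (CovZ.leaf K2_ok TP_l2979 _)
         (CovZ.leaf K2_ok TP_l2980 _)))
       (CovZ.subM 83107175826994504156159248075612161 (by decide +kernel)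
        (CovZ.n1 (2880, 960) (by decide +kernel)
         (CovZ.n2 (2880, 1280) (by decide +kernel)
          (CovZ.n2 (3040, 1120) (by decide +kernel)
           (CovZ.leaf K2_ok TP_l2981 _)
           (CovZ.leaf K2_ok TP_l2982 _))
          (CovZ.n1 (2720, 1120) (by decide +kernel)
           (CovZ.leaf K2_ok TP_l2983 _)
           (CovZ.leaf K2_ok TP_l2984 _)))
         (CovZ.n1 (3200, 960) (by decide +kernel)
          (CovZ.leaf K2_ok TP_l2985 _)
          (CovZ.n1 (3040, 1120) (by decide +kernel)
           (CovZ.leaf K2_ok TP_l2986 _)
           (CovZ.leaf K2_ok TP_l2987 _))))))))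

theorem TP_u33 : CovZ TP_M (toL (selN TP_LN 53092687953990878661478415921622310478081)) [0, 7, 2, 5] (3840, 1280) (5120, 2560) (2560, 2560) :=
    (CovZ.n1 (3840, 2560) (by decide +kernel)
     (CovZ.n2 (4480, 1920) (by decide +kernel)
      (CovZ.n2 (3840, 1920) (by decide +kernel)
       (CovZ.subM 51731306649768280914953075205636177789184 (by decide +kernel)
        (CovZ.n2 (4160, 2240) (by decide +kernel)
         (CovZ.n2 (4160, 1920) (by decide +kernel)
          (CovZ.n2 (4000, 2080) (by decide +kernel)
           (CovZ.n2 (4160, 2080) (by decide +kernel)
            (CovZ.n2 (4080, 2000) (by decide +kernel)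
             (CovZ.leaf K2_ok TP_l2988 _)
             (CovZ.leaf K2_ok TP_l2989 _))
            (CovZ.subM 5450246272244193963995169988983503454464 (by decide +kernel)
             (CovZ.n1 (4080, 2160) (by decide +kernel)
              (CovZ.n2 (4160, 2160) (by decide +kernel)
               (CovZ.leaf K2_ok TP_l2990 _)
               (CovZ.leaf K2_ok TP_l2991 _))
              (CovZ.n1 (4080, 2080) (by decide +kernel)
               (CovZ.leaf K2_ok TP_l2992 _)
               (CovZ.leaf K2_ok TP_l2993 _)))))
           (CovZ.n1 (4000, 1920) (by decide +kernel)
            (CovZ.n2 (3920, 2000) (by decide +kernel)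
             (CovZ.leaf K2_ok TP_l2994 _)
             (CovZ.leaf K2_ok TP_l2995 _))
            (CovZ.leaf K2_ok TP_l2996 _)))
          (CovZ.n1 (4320, 2080) (by decide +kernel)
           (CovZ.n2 (4320, 1920) (by decide +kernel)
            (CovZ.leaf K2_ok TP_l2997 _)
            (CovZ.leaf K2_ok TP_l2998 _))
           (CovZ.n1 (4160, 2080) (by decide +kernel)
            (CovZ.n2 (4240, 2160) (by decide +kernel)
             (CovZ.leaf K2_ok TP_l2999 _)
             (CovZ.leaf K2_ok TP_l3000 _))
            (CovZ.leaf K2_ok TP_l3001 _))))
         (CovZ.n1 (3840, 2240) (by decide +kernel)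
          (CovZ.subM 5716718841246845219012076458471325696 (by decide +kernel)
           (CovZ.n2 (4000, 2400) (by decide +kernel)
            (CovZ.n2 (4000, 2240) (by decide +kernel)
             (CovZ.n2 (3920, 2320) (by decide +kernel)
              (CovZ.n2 (4000, 2320) (by decide +kernel)
               (CovZ.n2 (3960, 2280) (by decide +kernel)
                (CovZ.n2 (3960, 2320) (by decide +kernel)
                 (CovZ.n2 (3980, 2300) (by decide +kernel)
                  (CovZ.leaf K2_ok TP_l3002 _)
                  (CovZ.badM (by decide +kernel)))
                 (CovZ.n1 (3940, 2300) (by decide +kernel)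
                  (CovZ.badM (by decide +kernel))
                  (CovZ.leaf K2_ok TP_l3003 _)))
                (CovZ.n1 (4000, 2280) (by decide +kernel)
                 (CovZ.leaf K2_ok TP_l3004 _)
                 (CovZ.n1 (3980, 2300) (by decide +kernel)
                  (CovZ.leaf K2_ok TP_l3005 _)
                  (CovZ.leaf K2_ok TP_l3006 _))))
               (CovZ.badM (by decide +kernel)))
              (CovZ.n1 (3920, 2240) (by decide +kernel)
               (CovZ.n2 (3880, 2280) (by decide +kernel)
                (CovZ.n2 (3920, 2280) (by decide +kernel)
                 (CovZ.n2 (3900, 2260) (by decide +kernel)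
                  (CovZ.badM (by decide +kernel))
                  (CovZ.leaf K2_ok TP_l3007 _))
                 (CovZ.badM (by decide +kernel)))
                (CovZ.n1 (3880, 2240) (by decide +kernel)
                 (CovZ.badM (by decide +kernel))
                 (CovZ.n1 (3900, 2260) (by decide +kernel)
                  (CovZ.leaf K2_ok TP_l3010 _)
                  (CovZ.leaf K2_ok TP_l3011 _))))
               (CovZ.n1 (3960, 2280) (by decide +kernel)
                (CovZ.n2 (3960, 2240) (by decide +kernel)
                 (CovZ.leaf K2_ok TP_l3012 _)
                 (CovZ.leaf K2_ok TP_l3013 _))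
                (CovZ.n1 (3920, 2280) (by decide +kernel)
                 (CovZ.n2 (3940, 2300) (by decide +kernel)
                  (CovZ.leaf K2_ok TP_l3014 _)
                  (CovZ.leaf K2_ok TP_l3015 _))
                 (CovZ.leaf K2_ok TP_l3016 _)))))
             (CovZ.n1 (4080, 2320) (by decide +kernel)
              (CovZ.n2 (4080, 2240) (by decide +kernel)
               (CovZ.n2 (4040, 2280) (by decide +kernel)
                (CovZ.n2 (4080, 2280) (by decide +kernel)
                 (CovZ.leaf K2_ok TP_l3017 _)
                 (CovZ.leaf K2_ok TP_l3018 _))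
                (CovZ.n1 (4040, 2240) (by decide +kernel)
                 (CovZ.leaf K2_ok TP_l3019 _)
                 (CovZ.leaf K2_ok TP_l3020 _)))
               (CovZ.n1 (4120, 2280) (by decide +kernel)
                (CovZ.leaf K2_ok TP_l3021 _)
                (CovZ.leaf K2_ok TP_l3022 _)))
              (CovZ.n1 (4000, 2320) (by decide +kernel)
               (CovZ.n2 (4040, 2360) (by decide +kernel)
                (CovZ.n2 (4040, 2320) (by decide +kernel)
                 (CovZ.badM (by decide +kernel))
                 (CovZ.n1 (4060, 2340) (by decide +kernel)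
                  (CovZ.leaf K2_ok TP_l3023 _)
                  (CovZ.badM (by decide +kernel))))
                (CovZ.badM (by decide +kernel)))
               (CovZ.n1 (4040, 2280) (by decide +kernel)
                (CovZ.n2 (4000, 2280) (by decide +kernel)
                 (CovZ.leaf K2_ok TP_l3024 _)
                 (CovZ.leaf K2_ok TP_l3025 _))
                (CovZ.n1 (4040, 2320) (by decide +kernel)
                 (CovZ.leaf K2_ok TP_l3026 _)
                 (CovZ.n1 (4020, 2300) (by decide +kernel)
                  (CovZ.leaf K2_ok TP_l3027 _)
                  (CovZ.leaf K2_ok TP_l3028 _)))))))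
            (CovZ.n1 (3840, 2400) (by decide +kernel)
             (CovZ.badM (by decide +kernel))
             (CovZ.n1 (3920, 2320) (by decide +kernel)
              (CovZ.n2 (3840, 2320) (by decide +kernel)
               (CovZ.badM (by decide +kernel))
               (CovZ.n1 (3880, 2280) (by decide +kernel)
                (CovZ.badM (by decide +kernel))
                (CovZ.badM (by decide +kernel))))
              (CovZ.badM (by decide +kernel))))))
          (CovZ.n1 (4000, 2080) (by decide +kernel)
           (CovZ.subM 5449851677967831405288552663074119614720 (by decide +kernel)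
            (CovZ.n2 (3840, 2080) (by decide +kernel)
             (CovZ.n2 (3920, 2160) (by decide +kernel)
              (CovZ.n2 (3920, 2080) (by decide +kernel)
               (CovZ.leaf K2_ok TP_l3030 _)
               (CovZ.leaf K2_ok TP_l3031 _))
              (CovZ.n1 (3840, 2160) (by decide +kernel)
               (CovZ.n2 (3880, 2200) (by decide +kernel)
                (CovZ.leaf K2_ok TP_l3032 _)
                (CovZ.leaf K2_ok TP_l3033 _))
               (CovZ.leaf K2_ok TP_l3034 _)))
             (CovZ.n1 (3920, 2000) (by decide +kernel)
              (CovZ.leaf K2_ok TP_l3035 _)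
              (CovZ.n1 (3920, 2080) (by decide +kernel)
               (CovZ.leaf K2_ok TP_l3036 _)
               (CovZ.leaf K2_ok TP_l3037 _)))))
           (CovZ.subM 5450246272244193963995169988983503454464 (by decide +kernel)
            (CovZ.n1 (4000, 2240) (by decide +kernel)
             (CovZ.n2 (4080, 2160) (by decide +kernel)
              (CovZ.n2 (4000, 2160) (by decide +kernel)
               (CovZ.leaf K2_ok TP_l3038 _)
               (CovZ.leaf K2_ok TP_l3039 _))
              (CovZ.n1 (4080, 2240) (by decide +kernel)
               (CovZ.leaf K2_ok TP_l3040 _)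
               (CovZ.n1 (4040, 2200) (by decide +kernel)
                (CovZ.leaf K2_ok TP_l3041 _)
                (CovZ.leaf K2_ok TP_l3042 _))))
             (CovZ.n1 (3920, 2160) (by decide +kernel)
              (CovZ.subM 5449839975015013613733237477645741981952 (by decide +kernel)
               (CovZ.n2 (3920, 2240) (by decide +kernel)
                (CovZ.n2 (3960, 2200) (by decide +kernel)
                 (CovZ.leaf K2_ok TP_l3043 _)
                 (CovZ.leaf K2_ok TP_l3044 _))
                (CovZ.n1 (3880, 2200) (by decide +kernel)
                 (CovZ.n2 (3880, 2240) (by decide +kernel)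
                  (CovZ.leaf K2_ok TP_l3045 _)
                  (CovZ.leaf K2_ok TP_l3046 _))
                 (CovZ.leaf K2_ok TP_l3047 _))))
              (CovZ.n1 (4000, 2160) (by decide +kernel)
               (CovZ.leaf K2_ok TP_l3048 _)
               (CovZ.n1 (3960, 2200) (by decide +kernel)
                (CovZ.leaf K2_ok TP_l3049 _)
                (CovZ.leaf K2_ok TP_l3050 _))))))))))
       (CovZ.n1 (4160, 1600) (by decide +kernel)
        (CovZ.n2 (3840, 1600) (by decide +kernel)
         (CovZ.n2 (4000, 1760) (by decide +kernel)
          (CovZ.leaf K2_ok TP_l3051 _)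
          (CovZ.leaf K2_ok TP_l3052 _))
         (CovZ.leaf K2_ok TP_l3053 _))
        (CovZ.n1 (4160, 1920) (by decide +kernel)
         (CovZ.n2 (4320, 1760) (by decide +kernel)
          (CovZ.leaf K2_ok TP_l3054 _)
          (CovZ.n1 (4320, 1920) (by decide +kernel)
           (CovZ.leaf K2_ok TP_l3055 _)
           (CovZ.leaf K2_ok TP_l3056 _)))
         (CovZ.n1 (4000, 1760) (by decide +kernel)
          (CovZ.n2 (4000, 1920) (by decide +kernel)
           (CovZ.leaf K2_ok TP_l3057 _)
           (CovZ.leaf K2_ok TP_l3058 _))
          (CovZ.leaf K2_ok TP_l3059 _)))))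
      (CovZ.subM 53092604867099937150704500946871284400384 (by decide +kernel)
       (CovZ.n1 (4480, 2560) (by decide +kernel)
        TP_u28
        TP_u29)))
     (CovZ.n1 (3200, 1920) (by decide +kernel)
      (CovZ.subM 5444529573687833206969308904336669016320 (by decide +kernel)
       (CovZ.n2 (3200, 2560) (by decide +kernel)
        (CovZ.n2 (3520, 2240) (by decide +kernel)
         (CovZ.n2 (3200, 2240) (by decide +kernel)
          (CovZ.badM (by decide +kernel))
          (CovZ.n1 (3360, 2080) (by decide +kernel)
           (CovZ.subM 20284886088193150991811636887552 (by decide +kernel)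
            (CovZ.n2 (3200, 2080) (by decide +kernel)
             (CovZ.badM (by decide +kernel))
             (CovZ.n1 (3280, 2000) (by decide +kernel)
              (CovZ.n2 (3200, 2000) (by decide +kernel)
               (CovZ.n2 (3240, 2040) (by decide +kernel)
                (CovZ.n2 (3240, 2000) (by decide +kernel)
                 (CovZ.badM (by decide +kernel))
                 (CovZ.leaf K2_ok TP_l3213 _))
                (CovZ.badM (by decide +kernel)))
               (CovZ.n1 (3240, 1960) (by decide +kernel)
                (CovZ.leaf K2_ok TP_l3216 _)
                (CovZ.n1 (3240, 2000) (by decide +kernel)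
                 (CovZ.leaf K2_ok TP_l3217 _)
                 (CovZ.leaf K2_ok TP_l3218 _))))
              (CovZ.n1 (3280, 2080) (by decide +kernel)
               (CovZ.n2 (3320, 2040) (by decide +kernel)
                (CovZ.n2 (3280, 2040) (by decide +kernel)
                 (CovZ.badM (by decide +kernel))
                 (CovZ.leaf K2_ok TP_l3219 _))
                (CovZ.badM (by decide +kernel)))
               (CovZ.n1 (3240, 2040) (by decide +kernel)
                (CovZ.badM (by decide +kernel))
                (CovZ.n1 (3280, 2040) (by decide +kernel)
                 (CovZ.n2 (3260, 2020) (by decide +kernel)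
                  (CovZ.leaf K2_ok TP_l3220 _)
                  (CovZ.leaf K2_ok TP_l3221 _))
                 (CovZ.badM (by decide +kernel))))))))
           (CovZ.subM 11682667931703362164193616740745216 (by decide +kernel)
            (CovZ.n1 (3360, 2240) (by decide +kernel)
             (CovZ.n2 (3440, 2160) (by decide +kernel)
              (CovZ.n2 (3360, 2160) (by decide +kernel)
               (CovZ.badM (by decide +kernel))
               (CovZ.n1 (3400, 2120) (by decide +kernel)
                (CovZ.n2 (3360, 2120) (by decide +kernel)
                 (CovZ.badM (by decide +kernel))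
                 (CovZ.n1 (3380, 2100) (by decide +kernel)
                  (CovZ.leaf K2_ok TP_l3222 _)
                  (CovZ.badM (by decide +kernel))))
                (CovZ.badM (by decide +kernel))))
              (CovZ.badM (by decide +kernel)))
             (CovZ.badM (by decide +kernel))))))
         (CovZ.badM (by decide +kernel)))
        (CovZ.subM 20284885483730241184497049534464 (by decide +kernel)
         (CovZ.n1 (2880, 2240) (by decide +kernel)
          (CovZ.badM (by decide +kernel))
          (CovZ.n1 (3200, 2240) (by decide +kernel)
           (CovZ.n2 (3040, 2080) (by decide +kernel)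
            (CovZ.badM (by decide +kernel))
            (CovZ.n1 (3200, 2080) (by decide +kernel)
             (CovZ.n2 (3120, 2000) (by decide +kernel)
              (CovZ.badM (by decide +kernel))
              (CovZ.n1 (3200, 2000) (by decide +kernel)
               (CovZ.n2 (3160, 1960) (by decide +kernel)
                (CovZ.n2 (3160, 2000) (by decide +kernel)
                 (CovZ.leaf K2_ok TP_l7662 _)
                 (CovZ.leaf K2_ok TP_l7663 _))
                (CovZ.n1 (3200, 1960) (by decide +kernel)
                 (CovZ.leaf K2_ok TP_l7664 _)
                 (CovZ.leaf K2_ok TP_l7665 _)))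
               (CovZ.badM (by decide +kernel))))
             (CovZ.badM (by decide +kernel))))
           (CovZ.badM (by decide +kernel)))))))
      (CovZ.n1 (3840, 1920) (by decide +kernel)
       TP_u30
       TP_u31)))

theorem TP_u34 : CovZ TP_M (toL (selN TP_LN 87463202122647464437070504672008379432960)) [0, 7, 2, 5] (5120, 2560) (5760, 2560) (5760, 3200) :=
    (CovZ.n2 (5440, 2880) (by decide +kernel)
         (CovZ.n2 (5760, 2880) (by decide +kernel)
          (CovZ.n2 (5600, 2720) (by decide +kernel)
           (CovZ.subM 87122919755726525973607129959014905020416 (by decide +kernel)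
            (CovZ.n2 (5600, 2880) (by decide +kernel)
             (CovZ.n2 (5680, 2800) (by decide +kernel)
              (CovZ.n2 (5600, 2800) (by decide +kernel)
               (CovZ.n2 (5640, 2840) (by decide +kernel)
                (CovZ.n2 (5640, 2800) (by decide +kernel)
                 (CovZ.leaf K2_ok TP_l3574 _)
                 (CovZ.leaf K2_ok TP_l3575 _))
                (CovZ.n1 (5600, 2840) (by decide +kernel)
                 (CovZ.leaf K2_ok TP_l3576 _)
                 (CovZ.leaf K2_ok TP_l3577 _)))
               (CovZ.n1 (5640, 2760) (by decide +kernel)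
                (CovZ.leaf K2_ok TP_l3578 _)
                (CovZ.n1 (5640, 2800) (by decide +kernel)
                 (CovZ.leaf K2_ok TP_l3579 _)
                 (CovZ.leaf K2_ok TP_l3580 _))))
              (CovZ.n1 (5680, 2880) (by decide +kernel)
               (CovZ.leaf K2_ok TP_l3581 _)
               (CovZ.n1 (5640, 2840) (by decide +kernel)
                (CovZ.n2 (5640, 2880) (by decide +kernel)
                 (CovZ.leaf K2_ok TP_l3582 _)
                 (CovZ.leaf K2_ok TP_l3583 _))
                (CovZ.n1 (5680, 2840) (by decide +kernel)
                 (CovZ.leaf K2_ok TP_l3584 _)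
                 (CovZ.leaf K2_ok TP_l3585 _)))))
             (CovZ.n1 (5520, 2800) (by decide +kernel)
              (CovZ.n2 (5520, 2880) (by decide +kernel)
               (CovZ.n2 (5560, 2840) (by decide +kernel)
                (CovZ.badM (by decide +kernel))
                (CovZ.n1 (5560, 2880) (by decide +kernel)
                 (CovZ.leaf K2_ok TP_l3586 _)
                 (CovZ.badM (by decide +kernel))))
               (CovZ.badM (by decide +kernel)))
              (CovZ.n1 (5600, 2800) (by decide +kernel)
               (CovZ.n2 (5560, 2760) (by decide +kernel)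
                (CovZ.n2 (5560, 2800) (by decide +kernel)
                 (CovZ.leaf K2_ok TP_l3587 _)
                 (CovZ.leaf K2_ok TP_l7674 _))
                (CovZ.leaf K2_ok TP_l3588 _))
               (CovZ.n1 (5560, 2840) (by decide +kernel)
                (CovZ.n2 (5600, 2840) (by decide +kernel)
                 (CovZ.n2 (5580, 2820) (by decide +kernel)
                  (CovZ.leaf K2_ok TP_l3589 _)
                  (CovZ.leaf K2_ok TP_l3590 _))
                 (CovZ.n1 (5580, 2860) (by decide +kernel)
                  (CovZ.leaf K2_ok TP_l3591 _)
                  (CovZ.leaf K2_ok TP_l3592 _)))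
                (CovZ.n1 (5560, 2800) (by decide +kernel)
                 (CovZ.badM (by decide +kernel))
                 (CovZ.n1 (5580, 2820) (by decide +kernel)
                  (CovZ.leaf K2_ok TP_l3593 _)
                  (CovZ.leaf K2_ok TP_l3594 _))))))))
           (CovZ.n1 (5760, 2720) (by decide +kernel)
            (CovZ.n2 (5680, 2640) (by decide +kernel)
             (CovZ.n2 (5680, 2720) (by decide +kernel)
              (CovZ.leaf K2_ok TP_l3595 _)
              (CovZ.leaf K2_ok TP_l3596 _))
             (CovZ.leaf K2_ok TP_l3597 _))
            (CovZ.subM 87122919755726525973607129959014905020416 (by decide +kernel)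
             (CovZ.n1 (5680, 2800) (by decide +kernel)
              (CovZ.n2 (5760, 2800) (by decide +kernel)
               (CovZ.leaf K2_ok TP_l3598 _)
               (CovZ.n1 (5720, 2840) (by decide +kernel)
                (CovZ.leaf K2_ok TP_l3599 _)
                (CovZ.leaf K2_ok TP_l3600 _)))
              (CovZ.n1 (5680, 2720) (by decide +kernel)
               (CovZ.n2 (5640, 2760) (by decide +kernel)
                (CovZ.leaf K2_ok TP_l3601 _)
                (CovZ.leaf K2_ok TP_l3602 _))
               (CovZ.leaf K2_ok TP_l3603 _))))))
          (CovZ.subM 10633823966279326983230491666614976512 (by decide +kernel)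
           (CovZ.n1 (5600, 3040) (by decide +kernel)
            (CovZ.n2 (5760, 3040) (by decide +kernel)
             (CovZ.n2 (5680, 2960) (by decide +kernel)
              (CovZ.n2 (5680, 3040) (by decide +kernel)
               (CovZ.leaf K2_ok TP_l3604 _)
               (CovZ.n1 (5640, 3000) (by decide +kernel)
                (CovZ.leaf K2_ok TP_l3605 _)
                (CovZ.leaf K2_ok TP_l3606 _)))
              (CovZ.n1 (5760, 2960) (by decide +kernel)
               (CovZ.leaf K2_ok TP_l3607 _)
               (CovZ.leaf K2_ok TP_l3608 _)))
             (CovZ.n1 (5680, 3120) (by decide +kernel)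
              (CovZ.n2 (5760, 3120) (by decide +kernel)
               (CovZ.leaf K2_ok TP_l3609 _)
               (CovZ.leaf K2_ok TP_l3610 _))
              (CovZ.n1 (5680, 3040) (by decide +kernel)
               (CovZ.n2 (5640, 3080) (by decide +kernel)
                (CovZ.leaf K2_ok TP_l3611 _)
                (CovZ.leaf K2_ok TP_l3612 _))
               (CovZ.leaf K2_ok TP_l3613 _))))
            (CovZ.n1 (5600, 2880) (by decide +kernel)
             (CovZ.n2 (5520, 2960) (by decide +kernel)
              (CovZ.n2 (5600, 2960) (by decide +kernel)
               (CovZ.n2 (5560, 2920) (by decide +kernel)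
                (CovZ.n2 (5560, 2960) (by decide +kernel)
                 (CovZ.leaf K2_ok TP_l3614 _)
                 (CovZ.badM (by decide +kernel)))
                (CovZ.n1 (5600, 2920) (by decide +kernel)
                 (CovZ.n2 (5580, 2900) (by decide +kernel)
                  (CovZ.leaf K2_ok TP_l3615 _)
                  (CovZ.leaf K2_ok TP_l3616 _))
                 (CovZ.leaf K2_ok TP_l3617 _)))
               (CovZ.n1 (5560, 3000) (by decide +kernel)
                (CovZ.n2 (5600, 3000) (by decide +kernel)
                 (CovZ.leaf K2_ok TP_l3618 _)
                 (CovZ.leaf K2_ok TP_l3619 _))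
                (CovZ.n1 (5560, 2960) (by decide +kernel)
                 (CovZ.badM (by decide +kernel))
                 (CovZ.leaf K2_ok TP_l3620 _))))
              (CovZ.n1 (5520, 2880) (by decide +kernel)
               (CovZ.badM (by decide +kernel))
               (CovZ.n1 (5560, 2920) (by decide +kernel)
                (CovZ.n2 (5560, 2880) (by decide +kernel)
                 (CovZ.badM (by decide +kernel))
                 (CovZ.n1 (5580, 2900) (by decide +kernel)
                  (CovZ.leaf K2_ok TP_l3621 _)
                  (CovZ.leaf K2_ok TP_l3622 _)))
                (CovZ.badM (by decide +kernel)))))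
             (CovZ.n1 (5680, 2960) (by decide +kernel)
              (CovZ.n2 (5680, 2880) (by decide +kernel)
               (CovZ.n2 (5640, 2920) (by decide +kernel)
                (CovZ.leaf K2_ok TP_l3623 _)
                (CovZ.n1 (5640, 2880) (by decide +kernel)
                 (CovZ.leaf K2_ok TP_l3624 _)
                 (CovZ.leaf K2_ok TP_l3625 _)))
               (CovZ.leaf K2_ok TP_l3626 _))
              (CovZ.n1 (5600, 2960) (by decide +kernel)
               (CovZ.n2 (5640, 3000) (by decide +kernel)
                (CovZ.leaf K2_ok TP_l3627 _)
                (CovZ.leaf K2_ok TP_l3628 _))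
               (CovZ.n1 (5640, 2920) (by decide +kernel)
                (CovZ.leaf K2_ok TP_l3629 _)
                (CovZ.leaf K2_ok TP_l3630 _))))))))
         (CovZ.n1 (5440, 2560) (by decide +kernel)
          (CovZ.subM 340282366920938463463374677809102323712 (by decide +kernel)
           (CovZ.n2 (5280, 2720) (by decide +kernel)
            (CovZ.n2 (5440, 2720) (by decide +kernel)
             (CovZ.n2 (5360, 2640) (by decide +kernel)
              (CovZ.n2 (5360, 2720) (by decide +kernel)
               (CovZ.n2 (5400, 2680) (by decide +kernel)
                (CovZ.leaf K2_ok TP_l3631 _)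
                (CovZ.leaf K2_ok TP_l7675 _))
               (CovZ.n1 (5320, 2680) (by decide +kernel)
                (CovZ.n2 (5320, 2720) (by decide +kernel)
                 (CovZ.leaf K2_ok TP_l7676 _)
                 (CovZ.leaf K2_ok TP_l7677 _))
                (CovZ.leaf K2_ok TP_l3632 _)))
              (CovZ.n1 (5440, 2640) (by decide +kernel)
               (CovZ.leaf K2_ok TP_l3633 _)
               (CovZ.n1 (5400, 2680) (by decide +kernel)
                (CovZ.leaf K2_ok TP_l3634 _)
                (CovZ.leaf K2_ok TP_l3635 _))))
             (CovZ.badM (by decide +kernel)))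
            (CovZ.n1 (5280, 2560) (by decide +kernel)
             (CovZ.n2 (5200, 2640) (by decide +kernel)
              (CovZ.n2 (5280, 2640) (by decide +kernel)
               (CovZ.leaf K2_ok TP_l3636 _)
               (CovZ.n1 (5240, 2680) (by decide +kernel)
                (CovZ.leaf K2_ok TP_l3637 _)
                (CovZ.n1 (5240, 2640) (by decide +kernel)
                 (CovZ.leaf K2_ok TP_l3638 _)
                 (CovZ.leaf K2_ok TP_l3639 _))))
              (CovZ.n1 (5200, 2560) (by decide +kernel)
               (CovZ.n2 (5160, 2600) (by decide +kernel)
                (CovZ.leaf K2_ok TP_l3640 _)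
                (CovZ.leaf K2_ok TP_l3641 _))
               (CovZ.leaf K2_ok TP_l3642 _)))
             (CovZ.n1 (5360, 2640) (by decide +kernel)
              (CovZ.n2 (5360, 2560) (by decide +kernel)
               (CovZ.leaf K2_ok TP_l3643 _)
               (CovZ.leaf K2_ok TP_l3644 _))
              (CovZ.n1 (5280, 2640) (by decide +kernel)
               (CovZ.n2 (5320, 2680) (by decide +kernel)
                (CovZ.leaf K2_ok TP_l3645 _)
                (CovZ.leaf K2_ok TP_l3646 _))
               (CovZ.leaf K2_ok TP_l3647 _))))))
          (CovZ.n1 (5600, 2720) (by decide +kernel)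
           (CovZ.n2 (5600, 2560) (by decide +kernel)
            (CovZ.n2 (5520, 2640) (by decide +kernel)
             (CovZ.n2 (5600, 2640) (by decide +kernel)
              (CovZ.leaf K2_ok TP_l3648 _)
              (CovZ.leaf K2_ok TP_l3649 _))
             (CovZ.leaf K2_ok TP_l3650 _))
            (CovZ.n1 (5680, 2640) (by decide +kernel)
             (CovZ.leaf K2_ok TP_l3651 _)
             (CovZ.leaf K2_ok TP_l3652 _)))
           (CovZ.n1 (5440, 2720) (by decide +kernel)
            (CovZ.subM 87112285931760246646623899502532662263808 (by decide +kernel)
             (CovZ.n2 (5520, 2800) (by decide +kernel)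
              (CovZ.n2 (5520, 2720) (by decide +kernel)
               (CovZ.n2 (5480, 2760) (by decide +kernel)
                (CovZ.n2 (5520, 2760) (by decide +kernel)
                 (CovZ.leaf K2_ok TP_l7678 _)
                 (CovZ.leaf K2_ok TP_l7679 _))
                (CovZ.leaf K2_ok TP_l7680 _))
               (CovZ.n1 (5560, 2760) (by decide +kernel)
                (CovZ.leaf K2_ok TP_l3653 _)
                (CovZ.leaf K2_ok TP_l7681 _)))
              (CovZ.n1 (5440, 2800) (by decide +kernel)
               (CovZ.badM (by decide +kernel))
               (CovZ.n1 (5480, 2760) (by decide +kernel)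
                (CovZ.n2 (5440, 2760) (by decide +kernel)
                 (CovZ.leaf K2_ok TP_l7682 _)
                 (CovZ.leaf K2_ok TP_l7683 _))
                (CovZ.n1 (5480, 2800) (by decide +kernel)
                 (CovZ.leaf K2_ok TP_l7684 _)
                 (CovZ.n1 (5460, 2780) (by decide +kernel)
                  (CovZ.leaf K2_ok TP_l7685 _)
                  (CovZ.leaf K2_ok TP_l7686 _)))))))
            (CovZ.n1 (5520, 2640) (by decide +kernel)
             (CovZ.n2 (5440, 2640) (by decide +kernel)
              (CovZ.leaf K2_ok TP_l3654 _)
              (CovZ.leaf K2_ok TP_l3655 _))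
             (CovZ.n1 (5520, 2720) (by decide +kernel)
              (CovZ.leaf K2_ok TP_l3656 _)
              (CovZ.leaf K2_ok TP_l3657 _)))))))

theorem TP_u35 : CovZ TP_M (toL (selN TP_LN 87463202122647464437070504672008379432960)) [0, 7, 2, 5] (5760, 2560) (6400, 2560) (5760, 3200) :=
    (CovZ.n1 (6080, 2880) (by decide +kernel)
         (CovZ.n2 (6080, 2560) (by decide +kernel)
          (CovZ.n2 (5920, 2720) (by decide +kernel)
           (CovZ.n2 (6080, 2720) (by decide +kernel)
            (CovZ.leaf K2_ok TP_l3658 _)
            (CovZ.n1 (6000, 2800) (by decide +kernel)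
             (CovZ.leaf K2_ok TP_l3659 _)
             (CovZ.leaf K2_ok TP_l3660 _)))
           (CovZ.n1 (5920, 2560) (by decide +kernel)
            (CovZ.n2 (5840, 2640) (by decide +kernel)
             (CovZ.leaf K2_ok TP_l3661 _)
             (CovZ.leaf K2_ok TP_l3662 _))
            (CovZ.leaf K2_ok TP_l3663 _)))
          (CovZ.n1 (6240, 2720) (by decide +kernel)
           (CovZ.n2 (6240, 2560) (by decide +kernel)
            (CovZ.leaf K2_ok TP_l3664 _)
            (CovZ.leaf K2_ok TP_l3665 _))
           (CovZ.leaf K2_ok TP_l3666 _)))
         (CovZ.n1 (5760, 2880) (by decide +kernel)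
          (CovZ.subM 10633823966279326983230491666614976512 (by decide +kernel)
           (CovZ.n2 (5920, 3040) (by decide +kernel)
            (CovZ.n2 (5920, 2880) (by decide +kernel)
             (CovZ.n2 (5840, 2960) (by decide +kernel)
              (CovZ.leaf K2_ok TP_l3667 _)
              (CovZ.n1 (5840, 2880) (by decide +kernel)
               (CovZ.leaf K2_ok TP_l3668 _)
               (CovZ.leaf K2_ok TP_l3669 _)))
             (CovZ.leaf K2_ok TP_l3670 _))
            (CovZ.n1 (5760, 3040) (by decide +kernel)
             (CovZ.n2 (5840, 3120) (by decide +kernel)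
              (CovZ.leaf K2_ok TP_l3671 _)
              (CovZ.leaf K2_ok TP_l3672 _))
             (CovZ.n1 (5840, 2960) (by decide +kernel)
              (CovZ.leaf K2_ok TP_l3673 _)
              (CovZ.leaf K2_ok TP_l3674 _)))))
          (CovZ.n1 (5920, 2720) (by decide +kernel)
           (CovZ.n2 (5760, 2720) (by decide +kernel)
            (CovZ.n2 (5840, 2800) (by decide +kernel)
             (CovZ.n2 (5840, 2720) (by decide +kernel)
              (CovZ.leaf K2_ok TP_l3675 _)
              (CovZ.leaf K2_ok TP_l3676 _))
             (CovZ.leaf K2_ok TP_l3677 _))
            (CovZ.n1 (5840, 2640) (by decide +kernel)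
             (CovZ.leaf K2_ok TP_l3678 _)
             (CovZ.leaf K2_ok TP_l3679 _)))
           (CovZ.n1 (5920, 2880) (by decide +kernel)
            (CovZ.leaf K2_ok TP_l3680 _)
            (CovZ.n1 (5840, 2800) (by decide +kernel)
             (CovZ.leaf K2_ok TP_l3681 _)
             (CovZ.leaf K2_ok TP_l3682 _))))))

theorem TP_u36 : CovZ TP_M (toL (selN TP_LN 98416040807915180901204431910904531124224)) [0, 7, 2, 5] (5120, 5120) (5120, 4480) (5760, 4480) :=
    (CovZ.n2 (5440, 4800) (by decide +kernel)
        (CovZ.n2 (5440, 4480) (by decide +kernel)
         (CovZ.subM 10952838685267706792727370321862754041856 (by decide +kernel)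
          (CovZ.n2 (5280, 4640) (by decide +kernel)
           (CovZ.n2 (5440, 4640) (by decide +kernel)
            (CovZ.n2 (5360, 4560) (by decide +kernel)
             (CovZ.n2 (5360, 4640) (by decide +kernel)
              (CovZ.leaf K2_ok TP_l3760 _)
              (CovZ.leaf K2_ok TP_l3761 _))
             (CovZ.leaf K2_ok TP_l3762 _))
            (CovZ.n1 (5360, 4720) (by decide +kernel)
             (CovZ.leaf K2_ok TP_l3763 _)
             (CovZ.n1 (5360, 4640) (by decide +kernel)
              (CovZ.leaf K2_ok TP_l3764 _)
              (CovZ.leaf K2_ok TP_l3765 _))))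
           (CovZ.n1 (5280, 4480) (by decide +kernel)
            (CovZ.subM 42535295865117307932921966666459381760 (by decide +kernel)
             (CovZ.n2 (5200, 4560) (by decide +kernel)
              (CovZ.n2 (5280, 4560) (by decide +kernel)
               (CovZ.n2 (5240, 4520) (by decide +kernel)
                (CovZ.leaf K2_ok TP_l3766 _)
                (CovZ.leaf K2_ok TP_l3767 _))
               (CovZ.n1 (5240, 4600) (by decide +kernel)
                (CovZ.leaf K2_ok TP_l3768 _)
                (CovZ.leaf K2_ok TP_l3769 _)))
              (CovZ.n1 (5200, 4480) (by decide +kernel)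
               (CovZ.badM (by decide +kernel))
               (CovZ.n1 (5240, 4520) (by decide +kernel)
                (CovZ.leaf K2_ok TP_l3774 _)
                (CovZ.leaf K2_ok TP_l3775 _)))))
            (CovZ.n1 (5360, 4560) (by decide +kernel)
             (CovZ.n2 (5360, 4480) (by decide +kernel)
              (CovZ.leaf K2_ok TP_l3776 _)
              (CovZ.leaf K2_ok TP_l3777 _))
             (CovZ.n1 (5280, 4560) (by decide +kernel)
              (CovZ.leaf K2_ok TP_l3778 _)
              (CovZ.leaf K2_ok TP_l3779 _))))))
         (CovZ.n1 (5600, 4640) (by decide +kernel)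
          (CovZ.n2 (5600, 4480) (by decide +kernel)
           (CovZ.n2 (5520, 4560) (by decide +kernel)
            (CovZ.leaf K2_ok TP_l3780 _)
            (CovZ.leaf K2_ok TP_l3781 _))
           (CovZ.leaf K2_ok TP_l3782 _))
          (CovZ.n1 (5440, 4640) (by decide +kernel)
           (CovZ.leaf K2_ok TP_l3783 _)
           (CovZ.leaf K2_ok TP_l3784 _))))
        (CovZ.subM 10952838685267706792727370321862754041856 (by decide +kernel)
         (CovZ.n1 (5120, 4800) (by decide +kernel)
          (CovZ.n2 (5280, 4960) (by decide +kernel)
           (CovZ.n2 (5280, 4800) (by decide +kernel)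
            (CovZ.subM 42535295865117307932921966666459381760 (by decide +kernel)
             (CovZ.n2 (5200, 4880) (by decide +kernel)
              (CovZ.n2 (5280, 4880) (by decide +kernel)
               (CovZ.n2 (5240, 4840) (by decide +kernel)
                (CovZ.leaf K2_ok TP_l3785 _)
                (CovZ.leaf K2_ok TP_l3786 _))
               (CovZ.n1 (5240, 4920) (by decide +kernel)
                (CovZ.leaf K2_ok TP_l3787 _)
                (CovZ.leaf K2_ok TP_l3788 _)))
              (CovZ.n1 (5200, 4800) (by decide +kernel)
               (CovZ.badM (by decide +kernel))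
               (CovZ.n1 (5240, 4840) (by decide +kernel)
                (CovZ.leaf K2_ok TP_l3792 _)
                (CovZ.leaf K2_ok TP_l3793 _)))))
            (CovZ.n1 (5360, 4880) (by decide +kernel)
             (CovZ.n2 (5360, 4800) (by decide +kernel)
              (CovZ.leaf K2_ok TP_l3794 _)
              (CovZ.leaf K2_ok TP_l3795 _))
             (CovZ.leaf K2_ok TP_l3796 _)))
           (CovZ.subM 42535295865117307932921966666459381760 (by decide +kernel)
            (CovZ.n1 (5120, 4960) (by decide +kernel)
             (CovZ.n2 (5200, 5040) (by decide +kernel)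
              (CovZ.n2 (5200, 4960) (by decide +kernel)
               (CovZ.badM (by decide +kernel))
               (CovZ.n1 (5240, 5000) (by decide +kernel)
                (CovZ.leaf K2_ok TP_l3800 _)
                (CovZ.leaf K2_ok TP_l3801 _)))
              (CovZ.badM (by decide +kernel)))
             (CovZ.n1 (5200, 4880) (by decide +kernel)
              (CovZ.badM (by decide +kernel))
              (CovZ.n1 (5200, 4960) (by decide +kernel)
               (CovZ.n2 (5240, 4920) (by decide +kernel)
                (CovZ.leaf K2_ok TP_l3806 _)
                (CovZ.leaf K2_ok TP_l3807 _))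
               (CovZ.badM (by decide +kernel)))))))
          (CovZ.n1 (5280, 4640) (by decide +kernel)
           (CovZ.subM 42535295865117307932921966666459381760 (by decide +kernel)
            (CovZ.n2 (5120, 4640) (by decide +kernel)
             (CovZ.n2 (5200, 4720) (by decide +kernel)
              (CovZ.n2 (5200, 4640) (by decide +kernel)
               (CovZ.badM (by decide +kernel))
               (CovZ.n1 (5240, 4680) (by decide +kernel)
                (CovZ.leaf K2_ok TP_l3814 _)
                (CovZ.leaf K2_ok TP_l3815 _)))
              (CovZ.badM (by decide +kernel)))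
             (CovZ.n1 (5200, 4560) (by decide +kernel)
              (CovZ.badM (by decide +kernel))
              (CovZ.n1 (5200, 4640) (by decide +kernel)
               (CovZ.n2 (5240, 4600) (by decide +kernel)
                (CovZ.leaf K2_ok TP_l3820 _)
                (CovZ.leaf K2_ok TP_l3821 _))
               (CovZ.badM (by decide +kernel))))))
           (CovZ.n1 (5280, 4800) (by decide +kernel)
            (CovZ.n2 (5360, 4720) (by decide +kernel)
             (CovZ.n2 (5280, 4720) (by decide +kernel)
              (CovZ.leaf K2_ok TP_l3825 _)
              (CovZ.leaf K2_ok TP_l3826 _))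
             (CovZ.n1 (5360, 4800) (by decide +kernel)
              (CovZ.leaf K2_ok TP_l3827 _)
              (CovZ.leaf K2_ok TP_l3828 _)))
            (CovZ.subM 42535295865117307932921966666459381760 (by decide +kernel)
             (CovZ.n1 (5200, 4720) (by decide +kernel)
              (CovZ.n2 (5200, 4800) (by decide +kernel)
               (CovZ.n2 (5240, 4760) (by decide +kernel)
                (CovZ.leaf K2_ok TP_l3829 _)
                (CovZ.leaf K2_ok TP_l3830 _))
               (CovZ.badM (by decide +kernel)))
              (CovZ.n1 (5280, 4720) (by decide +kernel)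
               (CovZ.n2 (5240, 4680) (by decide +kernel)
                (CovZ.leaf K2_ok TP_l3834 _)
                (CovZ.leaf K2_ok TP_l3835 _))
               (CovZ.n1 (5240, 4760) (by decide +kernel)
                (CovZ.leaf K2_ok TP_l3836 _)
                (CovZ.leaf K2_ok TP_l3837 _))))))))))

theorem TP_u37 : CovZ TP_M (toL (selN TP_LN 98416040807915180901204431910904531124224)) [0, 7, 2, 5] (5120, 4480) (5120, 3840) (5760, 4480) :=
    (CovZ.n1 (5440, 4160) (by decide +kernel)
        (CovZ.subM 10952838685267706792727370321862754041856 (by decide +kernel)
         (CovZ.n2 (5120, 4160) (by decide +kernel)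
          (CovZ.n2 (5280, 4320) (by decide +kernel)
           (CovZ.n2 (5280, 4160) (by decide +kernel)
            (CovZ.subM 42535295865117307932921966666459381760 (by decide +kernel)
             (CovZ.n2 (5200, 4240) (by decide +kernel)
              (CovZ.n2 (5280, 4240) (by decide +kernel)
               (CovZ.n2 (5240, 4200) (by decide +kernel)
                (CovZ.n2 (5240, 4240) (by decide +kernel)
                 (CovZ.leaf K2_ok TP_l3838 _)
                 (CovZ.leaf K2_ok TP_l3839 _))
                (CovZ.n1 (5280, 4200) (by decide +kernel)
                 (CovZ.leaf K2_ok TP_l3840 _)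
                 (CovZ.leaf K2_ok TP_l3841 _)))
               (CovZ.n1 (5240, 4280) (by decide +kernel)
                (CovZ.leaf K2_ok TP_l3842 _)
                (CovZ.n1 (5240, 4240) (by decide +kernel)
                 (CovZ.leaf K2_ok TP_l3843 _)
                 (CovZ.leaf K2_ok TP_l3844 _))))
              (CovZ.n1 (5200, 4160) (by decide +kernel)
               (CovZ.badM (by decide +kernel))
               (CovZ.n1 (5240, 4200) (by decide +kernel)
                (CovZ.n2 (5240, 4160) (by decide +kernel)
                 (CovZ.n2 (5220, 4180) (by decide +kernel)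
                  (CovZ.leaf K2_ok TP_l3845 _)
                  (CovZ.leaf K2_ok TP_l3846 _))
                 (CovZ.leaf K2_ok TP_l3847 _))
                (CovZ.n1 (5200, 4200) (by decide +kernel)
                 (CovZ.leaf K2_ok TP_l3848 _)
                 (CovZ.n1 (5220, 4180) (by decide +kernel)
                  (CovZ.leaf K2_ok TP_l3849 _)
                  (CovZ.leaf K2_ok TP_l3850 _)))))))
            (CovZ.n1 (5360, 4240) (by decide +kernel)
             (CovZ.n2 (5360, 4160) (by decide +kernel)
              (CovZ.n2 (5320, 4200) (by decide +kernel)
               (CovZ.leaf K2_ok TP_l3851 _)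
               (CovZ.leaf K2_ok TP_l3852 _))
              (CovZ.leaf K2_ok TP_l3853 _))
             (CovZ.n1 (5280, 4240) (by decide +kernel)
              (CovZ.leaf K2_ok TP_l3854 _)
              (CovZ.n1 (5320, 4200) (by decide +kernel)
               (CovZ.leaf K2_ok TP_l3855 _)
               (CovZ.leaf K2_ok TP_l3856 _)))))
           (CovZ.subM 42535295865117307932921966666459381760 (by decide +kernel)
            (CovZ.n1 (5120, 4320) (by decide +kernel)
             (CovZ.n2 (5200, 4400) (by decide +kernel)
              (CovZ.n2 (5200, 4320) (by decide +kernel)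
               (CovZ.badM (by decide +kernel))
               (CovZ.n1 (5240, 4360) (by decide +kernel)
                (CovZ.n2 (5240, 4320) (by decide +kernel)
                 (CovZ.leaf K2_ok TP_l3862 _)
                 (CovZ.leaf K2_ok TP_l3863 _))
                (CovZ.n1 (5200, 4360) (by decide +kernel)
                 (CovZ.leaf K2_ok TP_l3864 _)
                 (CovZ.leaf K2_ok TP_l3865 _))))
              (CovZ.badM (by decide +kernel)))
             (CovZ.n1 (5200, 4240) (by decide +kernel)
              (CovZ.badM (by decide +kernel))
              (CovZ.n1 (5200, 4320) (by decide +kernel)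
               (CovZ.n2 (5240, 4280) (by decide +kernel)
                (CovZ.n2 (5200, 4280) (by decide +kernel)
                 (CovZ.leaf K2_ok TP_l3870 _)
                 (CovZ.leaf K2_ok TP_l3871 _))
                (CovZ.n1 (5240, 4320) (by decide +kernel)
                 (CovZ.leaf K2_ok TP_l3872 _)
                 (CovZ.leaf K2_ok TP_l3873 _)))
               (CovZ.badM (by decide +kernel)))))))
          (CovZ.n1 (5280, 4000) (by decide +kernel)
           (CovZ.subM 42535295865117307932921966666459381760 (by decide +kernel)
            (CovZ.n2 (5120, 4000) (by decide +kernel)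
             (CovZ.n2 (5200, 4080) (by decide +kernel)
              (CovZ.n2 (5200, 4000) (by decide +kernel)
               (CovZ.badM (by decide +kernel))
               (CovZ.n1 (5240, 4040) (by decide +kernel)
                (CovZ.n2 (5240, 4000) (by decide +kernel)
                 (CovZ.badM (by decide +kernel))
                 (CovZ.leaf K2_ok TP_l3874 _))
                (CovZ.badM (by decide +kernel))))
              (CovZ.badM (by decide +kernel)))
             (CovZ.n1 (5200, 3920) (by decide +kernel)
              (CovZ.badM (by decide +kernel))
              (CovZ.n1 (5200, 4000) (by decide +kernel)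
               (CovZ.n2 (5240, 3960) (by decide +kernel)
                (CovZ.badM (by decide +kernel))
                (CovZ.n1 (5240, 4000) (by decide +kernel)
                 (CovZ.n2 (5260, 3980) (by decide +kernel)
                  (CovZ.leaf K2_ok TP_l3875 _)
                  (CovZ.leaf K2_ok TP_l3876 _))
                 (CovZ.badM (by decide +kernel))))
               (CovZ.badM (by decide +kernel))))))
           (CovZ.n1 (5280, 4160) (by decide +kernel)
            (CovZ.n2 (5360, 4080) (by decide +kernel)
             (CovZ.n2 (5280, 4080) (by decide +kernel)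
              (CovZ.n2 (5320, 4120) (by decide +kernel)
               (CovZ.leaf K2_ok TP_l3877 _)
               (CovZ.leaf K2_ok TP_l3878 _))
              (CovZ.n1 (5320, 4040) (by decide +kernel)
               (CovZ.leaf K2_ok TP_l3879 _)
               (CovZ.leaf K2_ok TP_l3880 _)))
             (CovZ.n1 (5360, 4160) (by decide +kernel)
              (CovZ.leaf K2_ok TP_l3881 _)
              (CovZ.n1 (5320, 4120) (by decide +kernel)
               (CovZ.leaf K2_ok TP_l3882 _)
               (CovZ.leaf K2_ok TP_l3883 _))))
            (CovZ.subM 42535295865117307932921966666459381760 (by decide +kernel)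
             (CovZ.n1 (5200, 4080) (by decide +kernel)
              (CovZ.n2 (5200, 4160) (by decide +kernel)
               (CovZ.n2 (5240, 4120) (by decide +kernel)
                (CovZ.n2 (5200, 4120) (by decide +kernel)
                 (CovZ.n2 (5220, 4140) (by decide +kernel)
                  (CovZ.leaf K2_ok TP_l3884 _)
                  (CovZ.leaf K2_ok TP_l3885 _))
                 (CovZ.badM (by decide +kernel)))
                (CovZ.n1 (5240, 4160) (by decide +kernel)
                 (CovZ.leaf K2_ok TP_l3886 _)
                 (CovZ.n1 (5220, 4140) (by decide +kernel)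
                  (CovZ.leaf K2_ok TP_l3887 _)
                  (CovZ.leaf K2_ok TP_l3888 _))))
               (CovZ.badM (by decide +kernel)))
              (CovZ.n1 (5280, 4080) (by decide +kernel)
               (CovZ.n2 (5240, 4040) (by decide +kernel)
                (CovZ.n2 (5240, 4080) (by decide +kernel)
                 (CovZ.leaf K2_ok TP_l3889 _)
                 (CovZ.badM (by decide +kernel)))
                (CovZ.n1 (5280, 4040) (by decide +kernel)
                 (CovZ.n2 (5260, 4020) (by decide +kernel)
                  (CovZ.leaf K2_ok TP_l3890 _)
                  (CovZ.leaf K2_ok TP_l3891 _))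
                 (CovZ.leaf K2_ok TP_l3892 _)))
               (CovZ.n1 (5240, 4120) (by decide +kernel)
                (CovZ.n2 (5280, 4120) (by decide +kernel)
                 (CovZ.leaf K2_ok TP_l3893 _)
                 (CovZ.leaf K2_ok TP_l3894 _))
                (CovZ.n1 (5240, 4080) (by decide +kernel)
                 (CovZ.badM (by decide +kernel))
                 (CovZ.leaf K2_ok TP_l3895 _))))))))))
        (CovZ.n1 (5440, 4480) (by decide +kernel)
         (CovZ.n2 (5600, 4320) (by decide +kernel)
          (CovZ.n2 (5440, 4320) (by decide +kernel)
           (CovZ.leaf K2_ok TP_l3896 _)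
           (CovZ.n1 (5520, 4240) (by decide +kernel)
            (CovZ.leaf K2_ok TP_l3897 _)
            (CovZ.leaf K2_ok TP_l3898 _)))
          (CovZ.n1 (5600, 4480) (by decide +kernel)
           (CovZ.leaf K2_ok TP_l3899 _)
           (CovZ.n1 (5520, 4400) (by decide +kernel)
            (CovZ.leaf K2_ok TP_l3900 _)
            (CovZ.leaf K2_ok TP_l3901 _))))
         (CovZ.subM 10952838685267706792727370321862754041856 (by decide +kernel)
          (CovZ.n1 (5280, 4320) (by decide +kernel)
           (CovZ.n2 (5280, 4480) (by decide +kernel)
            (CovZ.n2 (5360, 4400) (by decide +kernel)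
             (CovZ.n2 (5280, 4400) (by decide +kernel)
              (CovZ.leaf K2_ok TP_l3902 _)
              (CovZ.leaf K2_ok TP_l3903 _))
             (CovZ.n1 (5360, 4480) (by decide +kernel)
              (CovZ.leaf K2_ok TP_l3904 _)
              (CovZ.leaf K2_ok TP_l3905 _)))
            (CovZ.subM 42535295865117307932921966666459381760 (by decide +kernel)
             (CovZ.n1 (5200, 4400) (by decide +kernel)
              (CovZ.n2 (5200, 4480) (by decide +kernel)
               (CovZ.n2 (5240, 4440) (by decide +kernel)
                (CovZ.leaf K2_ok TP_l3906 _)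
                (CovZ.leaf K2_ok TP_l3907 _))
               (CovZ.badM (by decide +kernel)))
              (CovZ.n1 (5280, 4400) (by decide +kernel)
               (CovZ.n2 (5240, 4360) (by decide +kernel)
                (CovZ.n2 (5240, 4400) (by decide +kernel)
                 (CovZ.leaf K2_ok TP_l3913 _)
                 (CovZ.leaf K2_ok TP_l3914 _))
                (CovZ.leaf K2_ok TP_l3915 _))
               (CovZ.n1 (5240, 4440) (by decide +kernel)
                (CovZ.leaf K2_ok TP_l3916 _)
                (CovZ.n1 (5240, 4400) (by decide +kernel)
                 (CovZ.leaf K2_ok TP_l3917 _)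
                 (CovZ.leaf K2_ok TP_l3918 _)))))))
           (CovZ.n1 (5440, 4320) (by decide +kernel)
            (CovZ.n2 (5360, 4240) (by decide +kernel)
             (CovZ.n2 (5360, 4320) (by decide +kernel)
              (CovZ.leaf K2_ok TP_l3919 _)
              (CovZ.n1 (5320, 4280) (by decide +kernel)
               (CovZ.leaf K2_ok TP_l3920 _)
               (CovZ.leaf K2_ok TP_l3921 _)))
             (CovZ.n1 (5440, 4240) (by decide +kernel)
              (CovZ.leaf K2_ok TP_l3922 _)
              (CovZ.leaf K2_ok TP_l3923 _)))
            (CovZ.n1 (5360, 4400) (by decide +kernel)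
             (CovZ.n2 (5440, 4400) (by decide +kernel)
              (CovZ.leaf K2_ok TP_l3924 _)
              (CovZ.leaf K2_ok TP_l3925 _))
             (CovZ.n1 (5360, 4320) (by decide +kernel)
              (CovZ.n2 (5320, 4360) (by decide +kernel)
               (CovZ.leaf K2_ok TP_l3926 _)
               (CovZ.leaf K2_ok TP_l3927 _))
              (CovZ.leaf K2_ok TP_l3928 _))))))))

theorem TP_u38 : CovZ TP_M (toL (selN TP_LN 98416040807915180901204431910904531124224)) [0, 7, 2, 5] (5120, 3840) (5120, 3200) (5760, 3200) :=
    (CovZ.subM 10920937213368868811777678846862909636608 (by decide +kernel)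
        (CovZ.n2 (5440, 3520) (by decide +kernel)
         (CovZ.n2 (5440, 3200) (by decide +kernel)
          (CovZ.subM 10910303389402589484794448350781068279808 (by decide +kernel)
           (CovZ.n2 (5280, 3360) (by decide +kernel)
            (CovZ.n2 (5440, 3360) (by decide +kernel)
             (CovZ.badM (by decide +kernel))
             (CovZ.n1 (5360, 3440) (by decide +kernel)
              (CovZ.n2 (5440, 3440) (by decide +kernel)
               (CovZ.n2 (5400, 3400) (by decide +kernel)
                (CovZ.n2 (5400, 3440) (by decide +kernel)
                 (CovZ.leaf K2_ok TP_l7687 _)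
                 (CovZ.badM (by decide +kernel)))
                (CovZ.n1 (5440, 3400) (by decide +kernel)
                 (CovZ.n2 (5420, 3380) (by decide +kernel)
                  (CovZ.leaf K2_ok TP_l7688 _)
                  (CovZ.leaf K2_ok TP_l7689 _))
                 (CovZ.n1 (5420, 3420) (by decide +kernel)
                  (CovZ.leaf K2_ok TP_l7690 _)
                  (CovZ.leaf K2_ok TP_l7691 _))))
               (CovZ.n1 (5400, 3480) (by decide +kernel)
                (CovZ.n2 (5440, 3480) (by decide +kernel)
                 (CovZ.leaf K2_ok TP_l7692 _)
                 (CovZ.leaf K2_ok TP_l3929 _))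
                (CovZ.n1 (5400, 3440) (by decide +kernel)
                 (CovZ.badM (by decide +kernel))
                 (CovZ.leaf K2_ok TP_l7693 _))))
              (CovZ.n1 (5360, 3360) (by decide +kernel)
               (CovZ.badM (by decide +kernel))
               (CovZ.n1 (5400, 3400) (by decide +kernel)
                (CovZ.n2 (5400, 3360) (by decide +kernel)
                 (CovZ.badM (by decide +kernel))
                 (CovZ.n1 (5420, 3380) (by decide +kernel)
                  (CovZ.badM (by decide +kernel))
                  (CovZ.leaf K2_ok TP_l7694 _)))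
                (CovZ.badM (by decide +kernel))))))
            (CovZ.badM (by decide +kernel))))
          (CovZ.n1 (5600, 3360) (by decide +kernel)
           (CovZ.subM 10633823966279326983230491666614976512 (by decide +kernel)
            (CovZ.n2 (5600, 3200) (by decide +kernel)
             (CovZ.n2 (5520, 3280) (by decide +kernel)
              (CovZ.n2 (5600, 3280) (by decide +kernel)
               (CovZ.n2 (5560, 3240) (by decide +kernel)
                (CovZ.leaf K2_ok TP_l3930 _)
                (CovZ.leaf K2_ok TP_l3931 _))
               (CovZ.n1 (5560, 3320) (by decide +kernel)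
                (CovZ.leaf K2_ok TP_l3932 _)
                (CovZ.leaf K2_ok TP_l3933 _)))
              (CovZ.n1 (5520, 3200) (by decide +kernel)
               (CovZ.n2 (5480, 3240) (by decide +kernel)
                (CovZ.n2 (5520, 3240) (by decide +kernel)
                 (CovZ.leaf K2_ok TP_l7695 _)
                 (CovZ.leaf K2_ok TP_l7696 _))
                (CovZ.n1 (5480, 3200) (by decide +kernel)
                 (CovZ.badM (by decide +kernel))
                 (CovZ.leaf K2_ok TP_l7697 _)))
               (CovZ.n1 (5560, 3240) (by decide +kernel)
                (CovZ.leaf K2_ok TP_l3934 _)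
                (CovZ.leaf K2_ok TP_l7698 _))))
             (CovZ.n1 (5680, 3280) (by decide +kernel)
              (CovZ.n2 (5680, 3200) (by decide +kernel)
               (CovZ.leaf K2_ok TP_l3935 _)
               (CovZ.leaf K2_ok TP_l3936 _))
              (CovZ.n1 (5600, 3280) (by decide +kernel)
               (CovZ.leaf K2_ok TP_l3937 _)
               (CovZ.leaf K2_ok TP_l3938 _)))))
           (CovZ.subM 10910303389402589484794448385965440499712 (by decide +kernel)
            (CovZ.n1 (5440, 3360) (by decide +kernel)
             (CovZ.n2 (5520, 3440) (by decide +kernel)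
              (CovZ.n2 (5520, 3360) (by decide +kernel)
               (CovZ.n2 (5480, 3400) (by decide +kernel)
                (CovZ.leaf K2_ok TP_l7699 _)
                (CovZ.n1 (5480, 3360) (by decide +kernel)
                 (CovZ.leaf K2_ok TP_l7700 _)
                 (CovZ.leaf K2_ok TP_l7701 _)))
               (CovZ.leaf K2_ok TP_l3939 _))
              (CovZ.n1 (5440, 3440) (by decide +kernel)
               (CovZ.n2 (5480, 3480) (by decide +kernel)
                (CovZ.leaf K2_ok TP_l7702 _)
                (CovZ.leaf K2_ok TP_l3940 _))
               (CovZ.n1 (5480, 3400) (by decide +kernel)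
                (CovZ.leaf K2_ok TP_l7703 _)
                (CovZ.n1 (5480, 3440) (by decide +kernel)
                 (CovZ.leaf K2_ok TP_l7704 _)
                 (CovZ.leaf K2_ok TP_l7705 _)))))
             (CovZ.n1 (5520, 3280) (by decide +kernel)
              (CovZ.n2 (5440, 3280) (by decide +kernel)
               (CovZ.n2 (5480, 3320) (by decide +kernel)
                (CovZ.n2 (5480, 3280) (by decide +kernel)
                 (CovZ.badM (by decide +kernel))
                 (CovZ.leaf K2_ok TP_l7706 _))
                (CovZ.badM (by decide +kernel)))
               (CovZ.n1 (5480, 3240) (by decide +kernel)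
                (CovZ.badM (by decide +kernel))
                (CovZ.n1 (5480, 3280) (by decide +kernel)
                 (CovZ.leaf K2_ok TP_l7707 _)
                 (CovZ.badM (by decide +kernel)))))
              (CovZ.n1 (5520, 3360) (by decide +kernel)
               (CovZ.leaf K2_ok TP_l3941 _)
               (CovZ.n1 (5480, 3320) (by decide +kernel)
                (CovZ.n2 (5480, 3360) (by decide +kernel)
                 (CovZ.leaf K2_ok TP_l7708 _)
                 (CovZ.badM (by decide +kernel)))
                (CovZ.n1 (5520, 3320) (by decide +kernel)
                 (CovZ.leaf K2_ok TP_l7709 _)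
                 (CovZ.leaf K2_ok TP_l7710 _)))))))))
         (CovZ.subM 10910303389402589484794448355196294660096 (by decide +kernel)
          (CovZ.n1 (5120, 3520) (by decide +kernel)
           (CovZ.n2 (5280, 3680) (by decide +kernel)
            (CovZ.n2 (5280, 3520) (by decide +kernel)
             (CovZ.badM (by decide +kernel))
             (CovZ.n1 (5360, 3600) (by decide +kernel)
              (CovZ.n2 (5360, 3520) (by decide +kernel)
               (CovZ.badM (by decide +kernel))
               (CovZ.n1 (5400, 3560) (by decide +kernel)
                (CovZ.n2 (5400, 3520) (by decide +kernel)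
                 (CovZ.n2 (5380, 3540) (by decide +kernel)
                  (CovZ.leaf K2_ok TP_l3942 _)
                  (CovZ.leaf K2_ok TP_l3943 _))
                 (CovZ.leaf K2_ok TP_l3944 _))
                (CovZ.n1 (5360, 3560) (by decide +kernel)
                 (CovZ.leaf K2_ok TP_l3945 _)
                 (CovZ.leaf K2_ok TP_l3946 _))))
              (CovZ.n1 (5280, 3600) (by decide +kernel)
               (CovZ.n2 (5320, 3640) (by decide +kernel)
                (CovZ.n2 (5320, 3600) (by decide +kernel)
                 (CovZ.badM (by decide +kernel))
                 (CovZ.n1 (5340, 3620) (by decide +kernel)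
                  (CovZ.n2 (5340, 3600) (by decide +kernel)
                   (CovZ.leaf K2_ok TP_l7711 _)
                   (CovZ.leaf K2_ok TP_l7712 _))
                  (CovZ.leaf K2_ok TP_l7713 _)))
                (CovZ.badM (by decide +kernel)))
               (CovZ.badM (by decide +kernel)))))
            (CovZ.badM (by decide +kernel)))
           (CovZ.n1 (5280, 3360) (by decide +kernel)
            (CovZ.badM (by decide +kernel))
            (CovZ.n1 (5280, 3520) (by decide +kernel)
             (CovZ.n2 (5360, 3440) (by decide +kernel)
              (CovZ.badM (by decide +kernel))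
              (CovZ.n1 (5360, 3520) (by decide +kernel)
               (CovZ.n2 (5400, 3480) (by decide +kernel)
                (CovZ.n2 (5360, 3480) (by decide +kernel)
                 (CovZ.n2 (5380, 3500) (by decide +kernel)
                  (CovZ.leaf K2_ok TP_l3947 _)
                  (CovZ.leaf K2_ok TP_l3948 _))
                 (CovZ.badM (by decide +kernel)))
                (CovZ.n1 (5400, 3520) (by decide +kernel)
                 (CovZ.leaf K2_ok TP_l3949 _)
                 (CovZ.n1 (5380, 3500) (by decide +kernel)
                  (CovZ.leaf K2_ok TP_l3950 _)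
                  (CovZ.leaf K2_ok TP_l3951 _))))
               (CovZ.badM (by decide +kernel))))
             (CovZ.badM (by decide +kernel))))))))

theorem TP_u39 : CovZ TP_M (toL (selN TP_LN 98416040807915180901204431910904531124224)) [0, 7, 2, 5] (5120, 3200) (5120, 2560) (5760, 3200) :=
    (CovZ.subM 87463202122647464437070504672008379432960 (by decide +kernel)
        (CovZ.n1 (5440, 2880) (by decide +kernel)
         (CovZ.subM 340282366920938463463374677809102323712 (by decide +kernel)
          (CovZ.n2 (5120, 2880) (by decide +kernel)
           (CovZ.badM (by decide +kernel))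
           (CovZ.n1 (5280, 2720) (by decide +kernel)
            (CovZ.n2 (5120, 2720) (by decide +kernel)
             (CovZ.badM (by decide +kernel))
             (CovZ.n1 (5200, 2640) (by decide +kernel)
              (CovZ.n2 (5120, 2640) (by decide +kernel)
               (CovZ.badM (by decide +kernel))
               (CovZ.n1 (5160, 2600) (by decide +kernel)
                (CovZ.leaf K2_ok TP_l3955 _)
                (CovZ.leaf K2_ok TP_l3956 _)))
              (CovZ.n1 (5200, 2720) (by decide +kernel)
               (CovZ.n2 (5240, 2680) (by decide +kernel)
                (CovZ.n2 (5200, 2680) (by decide +kernel)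
                 (CovZ.leaf K2_ok TP_l7714 _)
                 (CovZ.leaf K2_ok TP_l3957 _))
                (CovZ.n1 (5240, 2720) (by decide +kernel)
                 (CovZ.leaf K2_ok TP_l7715 _)
                 (CovZ.leaf K2_ok TP_l7716 _)))
               (CovZ.badM (by decide +kernel)))))
            (CovZ.badM (by decide +kernel)))))
         (CovZ.subM 10633823966279326983230491666614976512 (by decide +kernel)
          (CovZ.n1 (5440, 3200) (by decide +kernel)
           (CovZ.n2 (5600, 3040) (by decide +kernel)
            (CovZ.n2 (5440, 3040) (by decide +kernel)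
             (CovZ.n2 (5520, 3120) (by decide +kernel)
              (CovZ.n2 (5520, 3040) (by decide +kernel)
               (CovZ.n2 (5480, 3080) (by decide +kernel)
                (CovZ.n2 (5520, 3080) (by decide +kernel)
                 (CovZ.badM (by decide +kernel))
                 (CovZ.n1 (5500, 3100) (by decide +kernel)
                  (CovZ.leaf K2_ok TP_l7717 _)
                  (CovZ.leaf K2_ok TP_l7718 _)))
                (CovZ.badM (by decide +kernel)))
               (CovZ.n1 (5560, 3080) (by decide +kernel)
                (CovZ.n2 (5560, 3040) (by decide +kernel)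
                 (CovZ.badM (by decide +kernel))
                 (CovZ.leaf K2_ok TP_l3959 _))
                (CovZ.n1 (5520, 3080) (by decide +kernel)
                 (CovZ.leaf K2_ok TP_l7719 _)
                 (CovZ.badM (by decide +kernel)))))
              (CovZ.n1 (5440, 3120) (by decide +kernel)
               (CovZ.n2 (5480, 3160) (by decide +kernel)
                (CovZ.n2 (5480, 3120) (by decide +kernel)
                 (CovZ.badM (by decide +kernel))
                 (CovZ.n1 (5500, 3140) (by decide +kernel)
                  (CovZ.leaf K2_ok TP_l7720 _)
                  (CovZ.leaf K2_ok TP_l7721 _)))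
                (CovZ.badM (by decide +kernel)))
               (CovZ.n1 (5480, 3080) (by decide +kernel)
                (CovZ.badM (by decide +kernel))
                (CovZ.n1 (5480, 3120) (by decide +kernel)
                 (CovZ.n2 (5500, 3100) (by decide +kernel)
                  (CovZ.leaf K2_ok TP_l7722 _)
                  (CovZ.leaf K2_ok TP_l7723 _))
                 (CovZ.badM (by decide +kernel))))))
             (CovZ.n1 (5520, 2960) (by decide +kernel)
              (CovZ.badM (by decide +kernel))
              (CovZ.n1 (5520, 3040) (by decide +kernel)
               (CovZ.n2 (5560, 3000) (by decide +kernel)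
                (CovZ.badM (by decide +kernel))
                (CovZ.n1 (5560, 3040) (by decide +kernel)
                 (CovZ.leaf K2_ok TP_l3960 _)
                 (CovZ.badM (by decide +kernel))))
               (CovZ.badM (by decide +kernel)))))
            (CovZ.n1 (5600, 3200) (by decide +kernel)
             (CovZ.n2 (5680, 3120) (by decide +kernel)
              (CovZ.n2 (5600, 3120) (by decide +kernel)
               (CovZ.leaf K2_ok TP_l3961 _)
               (CovZ.leaf K2_ok TP_l3962 _))
              (CovZ.n1 (5680, 3200) (by decide +kernel)
               (CovZ.leaf K2_ok TP_l3963 _)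
               (CovZ.leaf K2_ok TP_l3964 _)))
             (CovZ.n1 (5520, 3120) (by decide +kernel)
              (CovZ.n2 (5520, 3200) (by decide +kernel)
               (CovZ.n2 (5560, 3160) (by decide +kernel)
                (CovZ.leaf K2_ok TP_l7724 _)
                (CovZ.leaf K2_ok TP_l3965 _))
               (CovZ.n1 (5480, 3160) (by decide +kernel)
                (CovZ.n2 (5480, 3200) (by decide +kernel)
                 (CovZ.leaf K2_ok TP_l7725 _)
                 (CovZ.badM (by decide +kernel)))
                (CovZ.n1 (5520, 3160) (by decide +kernel)
                 (CovZ.n2 (5500, 3140) (by decide +kernel)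
                  (CovZ.leaf K2_ok TP_l7726 _)
                  (CovZ.leaf K2_ok TP_l7727 _))
                 (CovZ.n1 (5500, 3180) (by decide +kernel)
                  (CovZ.leaf K2_ok TP_l7728 _)
                  (CovZ.leaf K2_ok TP_l7729 _)))))
              (CovZ.n1 (5600, 3120) (by decide +kernel)
               (CovZ.n2 (5560, 3080) (by decide +kernel)
                (CovZ.n2 (5560, 3120) (by decide +kernel)
                 (CovZ.leaf K2_ok TP_l3966 _)
                 (CovZ.leaf K2_ok TP_l7730 _))
                (CovZ.n1 (5600, 3080) (by decide +kernel)
                 (CovZ.leaf K2_ok TP_l3967 _)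
                 (CovZ.leaf K2_ok TP_l3968 _)))
               (CovZ.n1 (5560, 3160) (by decide +kernel)
                (CovZ.leaf K2_ok TP_l3969 _)
                (CovZ.n1 (5560, 3120) (by decide +kernel)
                 (CovZ.leaf K2_ok TP_l7731 _)
                 (CovZ.leaf K2_ok TP_l3970 _)))))))
           (CovZ.badM (by decide +kernel))))))

theorem TP_u40 : CovZ TP_M (toL (selN TP_LN 98416040807915180901204431910904531124224)) [0, 7, 2, 5] (5120, 5120) (5120, 3840) (6400, 3840) :=
    (CovZ.n2 (5760, 4480) (by decide +kernel)
      (CovZ.n2 (5760, 3840) (by decide +kernel)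
       (CovZ.n2 (5440, 4160) (by decide +kernel)
        (CovZ.n2 (5760, 4160) (by decide +kernel)
         (CovZ.n2 (5600, 4000) (by decide +kernel)
          (CovZ.n2 (5600, 4160) (by decide +kernel)
           (CovZ.leaf K2_ok TP_l3697 _)
           (CovZ.n1 (5520, 4080) (by decide +kernel)
            (CovZ.leaf K2_ok TP_l3698 _)
            (CovZ.leaf K2_ok TP_l3699 _)))
          (CovZ.n1 (5760, 4000) (by decide +kernel)
           (CovZ.leaf K2_ok TP_l3700 _)
           (CovZ.leaf K2_ok TP_l3701 _)))
         (CovZ.n1 (5600, 4320) (by decide +kernel)
          (CovZ.n2 (5760, 4320) (by decide +kernel)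
           (CovZ.leaf K2_ok TP_l3702 _)
           (CovZ.leaf K2_ok TP_l3703 _))
          (CovZ.n1 (5600, 4160) (by decide +kernel)
           (CovZ.n2 (5520, 4240) (by decide +kernel)
            (CovZ.leaf K2_ok TP_l3704 _)
            (CovZ.leaf K2_ok TP_l3705 _))
           (CovZ.leaf K2_ok TP_l3706 _))))
        (CovZ.n1 (5440, 3840) (by decide +kernel)
         (CovZ.subM 10952838685267706792727370321862754041856 (by decide +kernel)
          (CovZ.n2 (5280, 4000) (by decide +kernel)
           (CovZ.n2 (5440, 4000) (by decide +kernel)
            (CovZ.n2 (5360, 3920) (by decide +kernel)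
             (CovZ.n2 (5360, 4000) (by decide +kernel)
              (CovZ.leaf K2_ok TP_l3707 _)
              (CovZ.n1 (5320, 3960) (by decide +kernel)
               (CovZ.n2 (5320, 4000) (by decide +kernel)
                (CovZ.leaf K2_ok TP_l3708 _)
                (CovZ.leaf K2_ok TP_l3709 _))
               (CovZ.leaf K2_ok TP_l3710 _)))
             (CovZ.n1 (5440, 3920) (by decide +kernel)
              (CovZ.n2 (5400, 3880) (by decide +kernel)
               (CovZ.leaf K2_ok TP_l3711 _)
               (CovZ.leaf K2_ok TP_l3712 _))
              (CovZ.n1 (5400, 3960) (by decide +kernel)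
               (CovZ.leaf K2_ok TP_l3713 _)
               (CovZ.leaf K2_ok TP_l3714 _))))
            (CovZ.n1 (5360, 4080) (by decide +kernel)
             (CovZ.n2 (5440, 4080) (by decide +kernel)
              (CovZ.leaf K2_ok TP_l3715 _)
              (CovZ.leaf K2_ok TP_l3716 _))
             (CovZ.n1 (5360, 4000) (by decide +kernel)
              (CovZ.n2 (5320, 4040) (by decide +kernel)
               (CovZ.leaf K2_ok TP_l3717 _)
               (CovZ.n1 (5320, 4000) (by decide +kernel)
                (CovZ.leaf K2_ok TP_l3718 _)
                (CovZ.leaf K2_ok TP_l3719 _)))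
              (CovZ.leaf K2_ok TP_l3720 _))))
           (CovZ.n1 (5280, 3840) (by decide +kernel)
            (CovZ.subM 42535295865117307932921825928971026432 (by decide +kernel)
             (CovZ.n2 (5200, 3920) (by decide +kernel)
              (CovZ.n2 (5280, 3920) (by decide +kernel)
               (CovZ.badM (by decide +kernel))
               (CovZ.n1 (5240, 3960) (by decide +kernel)
                (CovZ.n2 (5280, 3960) (by decide +kernel)
                 (CovZ.n2 (5260, 3940) (by decide +kernel)
                  (CovZ.leaf K2_ok TP_l3721 _)
                  (CovZ.leaf K2_ok TP_l3722 _))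
                 (CovZ.n1 (5260, 3980) (by decide +kernel)
                  (CovZ.leaf K2_ok TP_l3723 _)
                  (CovZ.leaf K2_ok TP_l3724 _)))
                (CovZ.n1 (5240, 3920) (by decide +kernel)
                 (CovZ.badM (by decide +kernel))
                 (CovZ.n1 (5260, 3940) (by decide +kernel)
                  (CovZ.leaf K2_ok TP_l3725 _)
                  (CovZ.leaf K2_ok TP_l3726 _)))))
              (CovZ.badM (by decide +kernel))))
            (CovZ.n1 (5360, 3920) (by decide +kernel)
             (CovZ.n2 (5360, 3840) (by decide +kernel)
              (CovZ.subM 4415226380288 (by decide +kernel)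
               (CovZ.n2 (5320, 3880) (by decide +kernel)
                (CovZ.n2 (5360, 3880) (by decide +kernel)
                 (CovZ.leaf K2_ok TP_l3727 _)
                 (CovZ.leaf K2_ok TP_l3728 _))
                (CovZ.n1 (5320, 3840) (by decide +kernel)
                 (CovZ.n2 (5300, 3860) (by decide +kernel)
                  (CovZ.leaf K2_ok TP_l3729 _)
                  (CovZ.leaf K2_ok TP_l3730 _))
                 (CovZ.leaf K2_ok TP_l3731 _))))
              (CovZ.n1 (5400, 3880) (by decide +kernel)
               (CovZ.leaf K2_ok TP_l3732 _)
               (CovZ.leaf K2_ok TP_l3733 _)))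
             (CovZ.subM 42535295865117307932921830344197406720 (by decide +kernel)
              (CovZ.n1 (5280, 3920) (by decide +kernel)
               (CovZ.n2 (5320, 3960) (by decide +kernel)
                (CovZ.n2 (5320, 3920) (by decide +kernel)
                 (CovZ.leaf K2_ok TP_l3734 _)
                 (CovZ.leaf K2_ok TP_l3735 _))
                (CovZ.n1 (5280, 3960) (by decide +kernel)
                 (CovZ.leaf K2_ok TP_l3736 _)
                 (CovZ.leaf K2_ok TP_l3737 _)))
               (CovZ.n1 (5320, 3880) (by decide +kernel)
                (CovZ.n2 (5280, 3880) (by decide +kernel)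
                 (CovZ.n2 (5300, 3900) (by decide +kernel)
                  (CovZ.leaf K2_ok TP_l3738 _)
                  (CovZ.leaf K2_ok TP_l3739 _))
                 (CovZ.leaf K2_ok TP_l3740 _))
                (CovZ.n1 (5320, 3920) (by decide +kernel)
                 (CovZ.leaf K2_ok TP_l3741 _)
                 (CovZ.n1 (5300, 3900) (by decide +kernel)
                  (CovZ.leaf K2_ok TP_l3742 _)
                  (CovZ.leaf K2_ok TP_l3743 _))))))))))
         (CovZ.n1 (5600, 4000) (by decide +kernel)
          (CovZ.subM 10963472509233986119710600672791880663040 (by decide +kernel)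
           (CovZ.n2 (5600, 3840) (by decide +kernel)
            (CovZ.n2 (5520, 3920) (by decide +kernel)
             (CovZ.leaf K2_ok TP_l3744 _)
             (CovZ.n1 (5520, 3840) (by decide +kernel)
              (CovZ.leaf K2_ok TP_l3745 _)
              (CovZ.leaf K2_ok TP_l3746 _)))
            (CovZ.leaf K2_ok TP_l3747 _)))
          (CovZ.subM 10952838685267706792727370357047126261760 (by decide +kernel)
           (CovZ.n1 (5440, 4000) (by decide +kernel)
            (CovZ.n2 (5520, 4080) (by decide +kernel)
             (CovZ.leaf K2_ok TP_l3748 _)
             (CovZ.leaf K2_ok TP_l3749 _))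
            (CovZ.n1 (5520, 3920) (by decide +kernel)
             (CovZ.leaf K2_ok TP_l3750 _)
             (CovZ.leaf K2_ok TP_l3751 _)))))))
       (CovZ.n1 (6080, 4160) (by decide +kernel)
        (CovZ.n2 (6080, 3840) (by decide +kernel)
         (CovZ.n2 (5920, 4000) (by decide +kernel)
          (CovZ.leaf K2_ok TP_l3752 _)
          (CovZ.n1 (5920, 3840) (by decide +kernel)
           (CovZ.leaf K2_ok TP_l3753 _)
           (CovZ.leaf K2_ok TP_l3754 _)))
         (CovZ.leaf K2_ok TP_l3755 _))
        (CovZ.n1 (5760, 4160) (by decide +kernel)
         (CovZ.n2 (5920, 4320) (by decide +kernel)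
          (CovZ.leaf K2_ok TP_l3756 _)
          (CovZ.leaf K2_ok TP_l3757 _))
         (CovZ.n1 (5920, 4000) (by decide +kernel)
          (CovZ.leaf K2_ok TP_l3758 _)
          (CovZ.leaf K2_ok TP_l3759 _)))))
      (CovZ.n1 (5120, 4480) (by decide +kernel)
       TP_u36
       TP_u37))

theorem TP_u41 : CovZ TP_M (toL (selN TP_LN 98416040807915180901204431910904531124224)) [0, 7, 2, 5] (5120, 3840) (5120, 2560) (6400, 3840) :=
    (CovZ.n1 (5760, 3200) (by decide +kernel)
      (CovZ.n2 (5120, 3200) (by decide +kernel)
       TP_u38
       TP_u39)
      (CovZ.subM 10920937213368868811777678846862909636608 (by decide +kernel)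
       (CovZ.n1 (5760, 3840) (by decide +kernel)
        (CovZ.n2 (6080, 3520) (by decide +kernel)
         (CovZ.n2 (5760, 3520) (by decide +kernel)
          (CovZ.n2 (5920, 3680) (by decide +kernel)
           (CovZ.n2 (5920, 3520) (by decide +kernel)
            (CovZ.leaf K2_ok TP_l3971 _)
            (CovZ.leaf K2_ok TP_l3972 _))
           (CovZ.n1 (5760, 3680) (by decide +kernel)
            (CovZ.leaf K2_ok TP_l3973 _)
            (CovZ.leaf K2_ok TP_l3974 _)))
          (CovZ.n1 (5920, 3360) (by decide +kernel)
           (CovZ.n2 (5760, 3360) (by decide +kernel)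
            (CovZ.leaf K2_ok TP_l3975 _)
            (CovZ.leaf K2_ok TP_l3976 _))
           (CovZ.n1 (5920, 3520) (by decide +kernel)
            (CovZ.leaf K2_ok TP_l3977 _)
            (CovZ.leaf K2_ok TP_l3978 _))))
         (CovZ.n1 (6080, 3840) (by decide +kernel)
          (CovZ.leaf K2_ok TP_l3979 _)
          (CovZ.n1 (5920, 3680) (by decide +kernel)
           (CovZ.leaf K2_ok TP_l3980 _)
           (CovZ.leaf K2_ok TP_l3981 _))))
        (CovZ.n1 (5440, 3520) (by decide +kernel)
         (CovZ.n2 (5440, 3840) (by decide +kernel)
          (CovZ.n2 (5600, 3680) (by decide +kernel)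
           (CovZ.n2 (5440, 3680) (by decide +kernel)
            (CovZ.n2 (5520, 3760) (by decide +kernel)
             (CovZ.n2 (5520, 3680) (by decide +kernel)
              (CovZ.leaf K2_ok TP_l3982 _)
              (CovZ.leaf K2_ok TP_l3983 _))
             (CovZ.n1 (5440, 3760) (by decide +kernel)
              (CovZ.leaf K2_ok TP_l3984 _)
              (CovZ.leaf K2_ok TP_l3985 _)))
            (CovZ.n1 (5520, 3600) (by decide +kernel)
             (CovZ.n2 (5440, 3600) (by decide +kernel)
              (CovZ.leaf K2_ok TP_l3986 _)
              (CovZ.leaf K2_ok TP_l3987 _))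
             (CovZ.n1 (5520, 3680) (by decide +kernel)
              (CovZ.leaf K2_ok TP_l3988 _)
              (CovZ.n1 (5480, 3640) (by decide +kernel)
               (CovZ.leaf K2_ok TP_l3989 _)
               (CovZ.leaf K2_ok TP_l3990 _)))))
           (CovZ.n1 (5600, 3840) (by decide +kernel)
            (CovZ.leaf K2_ok TP_l3991 _)
            (CovZ.n1 (5520, 3760) (by decide +kernel)
             (CovZ.n2 (5520, 3840) (by decide +kernel)
              (CovZ.leaf K2_ok TP_l3992 _)
              (CovZ.leaf K2_ok TP_l3993 _))
             (CovZ.n1 (5600, 3760) (by decide +kernel)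
              (CovZ.leaf K2_ok TP_l3994 _)
              (CovZ.leaf K2_ok TP_l3995 _)))))
          (CovZ.subM 10910303389402589484794448355196294660096 (by decide +kernel)
           (CovZ.n1 (5280, 3680) (by decide +kernel)
            (CovZ.n2 (5280, 3840) (by decide +kernel)
             (CovZ.n2 (5360, 3760) (by decide +kernel)
              (CovZ.n2 (5280, 3760) (by decide +kernel)
               (CovZ.n2 (5320, 3800) (by decide +kernel)
                (CovZ.n2 (5320, 3760) (by decide +kernel)
                 (CovZ.n2 (5300, 3780) (by decide +kernel)
                  (CovZ.leaf K2_ok TP_l3996 _)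
                  (CovZ.leaf K2_ok TP_l3997 _))
                 (CovZ.leaf K2_ok TP_l3998 _))
                (CovZ.n1 (5280, 3800) (by decide +kernel)
                 (CovZ.n2 (5300, 3820) (by decide +kernel)
                  (CovZ.leaf K2_ok TP_l3999 _)
                  (CovZ.leaf K2_ok TP_l4000 _))
                 (CovZ.n1 (5300, 3780) (by decide +kernel)
                  (CovZ.leaf K2_ok TP_l4001 _)
                  (CovZ.leaf K2_ok TP_l4002 _))))
               (CovZ.n1 (5320, 3720) (by decide +kernel)
                (CovZ.badM (by decide +kernel))
                (CovZ.n1 (5320, 3760) (by decide +kernel)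
                 (CovZ.leaf K2_ok TP_l4003 _)
                 (CovZ.badM (by decide +kernel)))))
              (CovZ.n1 (5360, 3840) (by decide +kernel)
               (CovZ.n2 (5400, 3800) (by decide +kernel)
                (CovZ.leaf K2_ok TP_l4004 _)
                (CovZ.leaf K2_ok TP_l4005 _))
               (CovZ.n1 (5320, 3800) (by decide +kernel)
                (CovZ.n2 (5320, 3840) (by decide +kernel)
                 (CovZ.leaf K2_ok TP_l4006 _)
                 (CovZ.n1 (5300, 3820) (by decide +kernel)
                  (CovZ.leaf K2_ok TP_l4007 _)
                  (CovZ.leaf K2_ok TP_l4008 _)))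
                (CovZ.n1 (5360, 3800) (by decide +kernel)
                 (CovZ.leaf K2_ok TP_l4009 _)
                 (CovZ.leaf K2_ok TP_l4010 _)))))
             (CovZ.badM (by decide +kernel)))
            (CovZ.n1 (5440, 3680) (by decide +kernel)
             (CovZ.n2 (5360, 3600) (by decide +kernel)
              (CovZ.n2 (5360, 3680) (by decide +kernel)
               (CovZ.n2 (5400, 3640) (by decide +kernel)
                (CovZ.n2 (5360, 3640) (by decide +kernel)
                 (CovZ.leaf K2_ok TP_l4011 _)
                 (CovZ.leaf K2_ok TP_l4012 _))
                (CovZ.n1 (5400, 3680) (by decide +kernel)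
                 (CovZ.leaf K2_ok TP_l4013 _)
                 (CovZ.leaf K2_ok TP_l4014 _)))
               (CovZ.n1 (5320, 3640) (by decide +kernel)
                (CovZ.n2 (5320, 3680) (by decide +kernel)
                 (CovZ.leaf K2_ok TP_l4015 _)
                 (CovZ.badM (by decide +kernel)))
                (CovZ.n1 (5360, 3640) (by decide +kernel)
                 (CovZ.n2 (5340, 3620) (by decide +kernel)
                  (CovZ.n2 (5340, 3640) (by decide +kernel)
                   (CovZ.leaf K2_ok TP_l7732 _)
                   (CovZ.leaf K2_ok TP_l7733 _))
                  (CovZ.leaf K2_ok TP_l7734 _))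
                 (CovZ.n1 (5340, 3660) (by decide +kernel)
                  (CovZ.leaf K2_ok TP_l4016 _)
                  (CovZ.leaf K2_ok TP_l4017 _)))))
              (CovZ.n1 (5440, 3600) (by decide +kernel)
               (CovZ.n2 (5400, 3560) (by decide +kernel)
                (CovZ.n2 (5400, 3600) (by decide +kernel)
                 (CovZ.leaf K2_ok TP_l4018 _)
                 (CovZ.n1 (5380, 3580) (by decide +kernel)
                  (CovZ.leaf K2_ok TP_l4019 _)
                  (CovZ.leaf K2_ok TP_l4020 _)))
                (CovZ.n1 (5440, 3560) (by decide +kernel)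
                 (CovZ.leaf K2_ok TP_l4021 _)
                 (CovZ.leaf K2_ok TP_l4022 _)))
               (CovZ.n1 (5400, 3640) (by decide +kernel)
                (CovZ.leaf K2_ok TP_l4023 _)
                (CovZ.n1 (5400, 3600) (by decide +kernel)
                 (CovZ.n2 (5380, 3620) (by decide +kernel)
                  (CovZ.leaf K2_ok TP_l4024 _)
                  (CovZ.leaf K2_ok TP_l4025 _))
                 (CovZ.leaf K2_ok TP_l4026 _)))))
             (CovZ.n1 (5360, 3760) (by decide +kernel)
              (CovZ.n2 (5440, 3760) (by decide +kernel)
               (CovZ.n2 (5400, 3720) (by decide +kernel)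
                (CovZ.leaf K2_ok TP_l4027 _)
                (CovZ.leaf K2_ok TP_l4028 _))
               (CovZ.n1 (5400, 3800) (by decide +kernel)
                (CovZ.leaf K2_ok TP_l4029 _)
                (CovZ.n1 (5400, 3760) (by decide +kernel)
                 (CovZ.leaf K2_ok TP_l4030 _)
                 (CovZ.leaf K2_ok TP_l4031 _))))
              (CovZ.n1 (5360, 3680) (by decide +kernel)
               (CovZ.n2 (5320, 3720) (by decide +kernel)
                (CovZ.n2 (5360, 3720) (by decide +kernel)
                 (CovZ.n2 (5340, 3700) (by decide +kernel)
                  (CovZ.leaf K2_ok TP_l4032 _)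
                  (CovZ.leaf K2_ok TP_l4033 _))
                 (CovZ.n1 (5340, 3740) (by decide +kernel)
                  (CovZ.leaf K2_ok TP_l4034 _)
                  (CovZ.leaf K2_ok TP_l4035 _)))
                (CovZ.n1 (5320, 3680) (by decide +kernel)
                 (CovZ.badM (by decide +kernel))
                 (CovZ.n1 (5340, 3700) (by decide +kernel)
                  (CovZ.leaf K2_ok TP_l4036 _)
                  (CovZ.leaf K2_ok TP_l4037 _))))
               (CovZ.n1 (5400, 3720) (by decide +kernel)
                (CovZ.n2 (5400, 3680) (by decide +kernel)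
                 (CovZ.leaf K2_ok TP_l4038 _)
                 (CovZ.leaf K2_ok TP_l4039 _))
                (CovZ.leaf K2_ok TP_l4040 _))))))))
         (CovZ.n1 (5760, 3520) (by decide +kernel)
          (CovZ.n2 (5600, 3360) (by decide +kernel)
           (CovZ.n2 (5600, 3520) (by decide +kernel)
            (CovZ.n2 (5680, 3440) (by decide +kernel)
             (CovZ.leaf K2_ok TP_l4041 _)
             (CovZ.leaf K2_ok TP_l4042 _))
            (CovZ.subM 10910303389402589484794448385965440499712 (by decide +kernel)
             (CovZ.n1 (5520, 3440) (by decide +kernel)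
              (CovZ.n2 (5520, 3520) (by decide +kernel)
               (CovZ.leaf K2_ok TP_l4043 _)
               (CovZ.n1 (5480, 3480) (by decide +kernel)
                (CovZ.leaf K2_ok TP_l4044 _)
                (CovZ.leaf K2_ok TP_l4045 _)))
              (CovZ.n1 (5600, 3440) (by decide +kernel)
               (CovZ.n2 (5560, 3400) (by decide +kernel)
                (CovZ.leaf K2_ok TP_l4046 _)
                (CovZ.leaf K2_ok TP_l4047 _))
               (CovZ.leaf K2_ok TP_l4048 _)))))
           (CovZ.n1 (5760, 3360) (by decide +kernel)
            (CovZ.n2 (5680, 3280) (by decide +kernel)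
             (CovZ.n2 (5680, 3360) (by decide +kernel)
              (CovZ.leaf K2_ok TP_l4049 _)
              (CovZ.leaf K2_ok TP_l4050 _))
             (CovZ.leaf K2_ok TP_l4051 _))
            (CovZ.n1 (5680, 3440) (by decide +kernel)
             (CovZ.leaf K2_ok TP_l4052 _)
             (CovZ.n1 (5680, 3360) (by decide +kernel)
              (CovZ.leaf K2_ok TP_l4053 _)
              (CovZ.leaf K2_ok TP_l4054 _)))))
          (CovZ.n1 (5600, 3680) (by decide +kernel)
           (CovZ.n2 (5760, 3680) (by decide +kernel)
            (CovZ.n2 (5680, 3600) (by decide +kernel)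
             (CovZ.leaf K2_ok TP_l4055 _)
             (CovZ.leaf K2_ok TP_l4056 _))
            (CovZ.n1 (5680, 3760) (by decide +kernel)
             (CovZ.leaf K2_ok TP_l4057 _)
             (CovZ.leaf K2_ok TP_l4058 _)))
           (CovZ.n1 (5600, 3520) (by decide +kernel)
            (CovZ.n2 (5520, 3600) (by decide +kernel)
             (CovZ.n2 (5600, 3600) (by decide +kernel)
              (CovZ.leaf K2_ok TP_l4059 _)
              (CovZ.leaf K2_ok TP_l4060 _))
             (CovZ.n1 (5520, 3520) (by decide +kernel)
              (CovZ.n2 (5480, 3560) (by decide +kernel)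
               (CovZ.leaf K2_ok TP_l4061 _)
               (CovZ.leaf K2_ok TP_l4062 _))
              (CovZ.leaf K2_ok TP_l4063 _)))
            (CovZ.n1 (5680, 3600) (by decide +kernel)
             (CovZ.leaf K2_ok TP_l4064 _)
             (CovZ.leaf K2_ok TP_l4065 _)))))))))

theorem TP_u42 : CovZ TP_M (toL (selN TP_LN 10920937213368868811777678842447683256320)) [0, 7, 2, 5] (6400, 6400) (5760, 7040) (5120, 6400) :=
    (CovZ.n2 (5760, 6400) (by decide +kernel)
        (CovZ.n2 (5440, 6720) (by decide +kernel)
         (CovZ.n2 (5760, 6720) (by decide +kernel)
          (CovZ.n2 (5600, 6560) (by decide +kernel)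
           (CovZ.n2 (5600, 6720) (by decide +kernel)
            (CovZ.n2 (5680, 6640) (by decide +kernel)
             (CovZ.leaf K2_ok TP_l4183 _)
             (CovZ.leaf K2_ok TP_l4184 _))
            (CovZ.n1 (5520, 6640) (by decide +kernel)
             (CovZ.n2 (5520, 6720) (by decide +kernel)
              (CovZ.leaf K2_ok TP_l4185 _)
              (CovZ.n1 (5480, 6680) (by decide +kernel)
               (CovZ.n2 (5480, 6720) (by decide +kernel)
                (CovZ.leaf K2_ok TP_l7735 _)
                (CovZ.leaf K2_ok TP_l7736 _))
               (CovZ.leaf K2_ok TP_l7737 _)))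
             (CovZ.n1 (5600, 6640) (by decide +kernel)
              (CovZ.leaf K2_ok TP_l4186 _)
              (CovZ.leaf K2_ok TP_l4187 _))))
           (CovZ.n1 (5760, 6560) (by decide +kernel)
            (CovZ.n2 (5680, 6480) (by decide +kernel)
             (CovZ.leaf K2_ok TP_l4188 _)
             (CovZ.leaf K2_ok TP_l4189 _))
            (CovZ.n1 (5680, 6640) (by decide +kernel)
             (CovZ.leaf K2_ok TP_l4190 _)
             (CovZ.leaf K2_ok TP_l4191 _))))
          (CovZ.n1 (5600, 6880) (by decide +kernel)
           (CovZ.n2 (5760, 6880) (by decide +kernel)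
            (CovZ.n2 (5680, 6800) (by decide +kernel)
             (CovZ.n2 (5680, 6880) (by decide +kernel)
              (CovZ.leaf K2_ok TP_l4192 _)
              (CovZ.leaf K2_ok TP_l4193 _))
             (CovZ.leaf K2_ok TP_l4194 _))
            (CovZ.n1 (5680, 6960) (by decide +kernel)
             (CovZ.leaf K2_ok TP_l4195 _)
             (CovZ.n1 (5680, 6880) (by decide +kernel)
              (CovZ.leaf K2_ok TP_l4196 _)
              (CovZ.leaf K2_ok TP_l4197 _))))
           (CovZ.n1 (5600, 6720) (by decide +kernel)
            (CovZ.n2 (5520, 6800) (by decide +kernel)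
             (CovZ.n2 (5600, 6800) (by decide +kernel)
              (CovZ.leaf K2_ok TP_l4198 _)
              (CovZ.n1 (5560, 6840) (by decide +kernel)
               (CovZ.leaf K2_ok TP_l4199 _)
               (CovZ.leaf K2_ok TP_l4200 _)))
             (CovZ.n1 (5520, 6720) (by decide +kernel)
              (CovZ.n2 (5480, 6760) (by decide +kernel)
               (CovZ.leaf K2_ok TP_l7738 _)
               (CovZ.n1 (5480, 6720) (by decide +kernel)
                (CovZ.leaf K2_ok TP_l7739 _)
                (CovZ.leaf K2_ok TP_l7740 _)))
              (CovZ.leaf K2_ok TP_l4201 _)))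
            (CovZ.n1 (5680, 6800) (by decide +kernel)
             (CovZ.leaf K2_ok TP_l4202 _)
             (CovZ.leaf K2_ok TP_l4203 _)))))
         (CovZ.n1 (5440, 6400) (by decide +kernel)
          (CovZ.n2 (5280, 6560) (by decide +kernel)
           (CovZ.n2 (5440, 6560) (by decide +kernel)
            (CovZ.n2 (5360, 6480) (by decide +kernel)
             (CovZ.n2 (5360, 6560) (by decide +kernel)
              (CovZ.n2 (5400, 6520) (by decide +kernel)
               (CovZ.n2 (5360, 6520) (by decide +kernel)
                (CovZ.n2 (5380, 6540) (by decide +kernel)
                 (CovZ.leaf K2_ok TP_l4204 _)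
                 (CovZ.leaf K2_ok TP_l4205 _))
                (CovZ.n1 (5380, 6500) (by decide +kernel)
                 (CovZ.leaf K2_ok TP_l4206 _)
                 (CovZ.leaf K2_ok TP_l4207 _)))
               (CovZ.n1 (5400, 6560) (by decide +kernel)
                (CovZ.leaf K2_ok TP_l4208 _)
                (CovZ.n1 (5380, 6540) (by decide +kernel)
                 (CovZ.leaf K2_ok TP_l4209 _)
                 (CovZ.leaf K2_ok TP_l4210 _))))
              (CovZ.badM (by decide +kernel)))
             (CovZ.n1 (5440, 6480) (by decide +kernel)
              (CovZ.n2 (5400, 6440) (by decide +kernel)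
               (CovZ.n2 (5400, 6480) (by decide +kernel)
                (CovZ.leaf K2_ok TP_l4211 _)
                (CovZ.n1 (5380, 6460) (by decide +kernel)
                 (CovZ.leaf K2_ok TP_l4212 _)
                 (CovZ.leaf K2_ok TP_l4213 _)))
               (CovZ.n1 (5440, 6440) (by decide +kernel)
                (CovZ.leaf K2_ok TP_l4214 _)
                (CovZ.leaf K2_ok TP_l4215 _)))
              (CovZ.n1 (5400, 6520) (by decide +kernel)
               (CovZ.n2 (5440, 6520) (by decide +kernel)
                (CovZ.leaf K2_ok TP_l4216 _)
                (CovZ.leaf K2_ok TP_l4217 _))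
               (CovZ.n1 (5400, 6480) (by decide +kernel)
                (CovZ.n2 (5380, 6500) (by decide +kernel)
                 (CovZ.leaf K2_ok TP_l4218 _)
                 (CovZ.leaf K2_ok TP_l4219 _))
                (CovZ.leaf K2_ok TP_l4220 _)))))
            (CovZ.n1 (5360, 6640) (by decide +kernel)
             (CovZ.n2 (5440, 6640) (by decide +kernel)
              (CovZ.n2 (5400, 6600) (by decide +kernel)
               (CovZ.n2 (5400, 6640) (by decide +kernel)
                (CovZ.n2 (5420, 6620) (by decide +kernel)
                 (CovZ.leaf K2_ok TP_l7741 _)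
                 (CovZ.leaf K2_ok TP_l7742 _))
                (CovZ.badM (by decide +kernel)))
               (CovZ.n1 (5440, 6600) (by decide +kernel)
                (CovZ.leaf K2_ok TP_l4221 _)
                (CovZ.leaf K2_ok TP_l7743 _)))
              (CovZ.n1 (5400, 6680) (by decide +kernel)
               (CovZ.n2 (5440, 6680) (by decide +kernel)
                (CovZ.leaf K2_ok TP_l7744 _)
                (CovZ.n1 (5420, 6700) (by decide +kernel)
                 (CovZ.leaf K2_ok TP_l7745 _)
                 (CovZ.leaf K2_ok TP_l7746 _)))
               (CovZ.n1 (5400, 6640) (by decide +kernel)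
                (CovZ.badM (by decide +kernel))
                (CovZ.leaf K2_ok TP_l7747 _))))
             (CovZ.n1 (5360, 6560) (by decide +kernel)
              (CovZ.badM (by decide +kernel))
              (CovZ.n1 (5400, 6600) (by decide +kernel)
               (CovZ.n2 (5400, 6560) (by decide +kernel)
                (CovZ.n2 (5380, 6580) (by decide +kernel)
                 (CovZ.leaf K2_ok TP_l4222 _)
                 (CovZ.leaf K2_ok TP_l4223 _))
                (CovZ.leaf K2_ok TP_l4224 _))
               (CovZ.n1 (5360, 6600) (by decide +kernel)
                (CovZ.badM (by decide +kernel))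
                (CovZ.n1 (5380, 6580) (by decide +kernel)
                 (CovZ.leaf K2_ok TP_l4225 _)
                 (CovZ.badM (by decide +kernel))))))))
           (CovZ.n1 (5280, 6400) (by decide +kernel)
            (CovZ.badM (by decide +kernel))
            (CovZ.n1 (5360, 6480) (by decide +kernel)
             (CovZ.n2 (5360, 6400) (by decide +kernel)
              (CovZ.badM (by decide +kernel))
              (CovZ.n1 (5400, 6440) (by decide +kernel)
               (CovZ.n2 (5400, 6400) (by decide +kernel)
                (CovZ.leaf K2_ok TP_l4226 _)
                (CovZ.leaf K2_ok TP_l4227 _))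
               (CovZ.n1 (5360, 6440) (by decide +kernel)
                (CovZ.leaf K2_ok TP_l4228 _)
                (CovZ.n1 (5380, 6420) (by decide +kernel)
                 (CovZ.leaf K2_ok TP_l4229 _)
                 (CovZ.leaf K2_ok TP_l4230 _)))))
             (CovZ.badM (by decide +kernel)))))
          (CovZ.n1 (5600, 6560) (by decide +kernel)
           (CovZ.n2 (5600, 6400) (by decide +kernel)
            (CovZ.n2 (5520, 6480) (by decide +kernel)
             (CovZ.n2 (5600, 6480) (by decide +kernel)
              (CovZ.leaf K2_ok TP_l4231 _)
              (CovZ.leaf K2_ok TP_l4232 _))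
             (CovZ.n1 (5520, 6400) (by decide +kernel)
              (CovZ.n2 (5480, 6440) (by decide +kernel)
               (CovZ.leaf K2_ok TP_l4233 _)
               (CovZ.leaf K2_ok TP_l4234 _))
              (CovZ.leaf K2_ok TP_l4235 _)))
            (CovZ.leaf K2_ok TP_l4236 _))
           (CovZ.n1 (5440, 6560) (by decide +kernel)
            (CovZ.n2 (5520, 6640) (by decide +kernel)
             (CovZ.n2 (5520, 6560) (by decide +kernel)
              (CovZ.n2 (5480, 6600) (by decide +kernel)
               (CovZ.leaf K2_ok TP_l4237 _)
               (CovZ.leaf K2_ok TP_l4238 _))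
              (CovZ.leaf K2_ok TP_l4239 _))
             (CovZ.n1 (5440, 6640) (by decide +kernel)
              (CovZ.n2 (5480, 6680) (by decide +kernel)
               (CovZ.leaf K2_ok TP_l7748 _)
               (CovZ.leaf K2_ok TP_l7749 _))
              (CovZ.n1 (5480, 6600) (by decide +kernel)
               (CovZ.leaf K2_ok TP_l4240 _)
               (CovZ.leaf K2_ok TP_l7750 _))))
            (CovZ.n1 (5520, 6480) (by decide +kernel)
             (CovZ.n2 (5440, 6480) (by decide +kernel)
              (CovZ.leaf K2_ok TP_l4241 _)
              (CovZ.n1 (5480, 6440) (by decide +kernel)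
               (CovZ.leaf K2_ok TP_l4242 _)
               (CovZ.leaf K2_ok TP_l4243 _)))
             (CovZ.n1 (5520, 6560) (by decide +kernel)
              (CovZ.leaf K2_ok TP_l4244 _)
              (CovZ.n1 (5480, 6520) (by decide +kernel)
               (CovZ.leaf K2_ok TP_l4245 _)
               (CovZ.leaf K2_ok TP_l4246 _))))))))
        (CovZ.n1 (6080, 6720) (by decide +kernel)
         (CovZ.n2 (6080, 6400) (by decide +kernel)
          (CovZ.n2 (5920, 6560) (by decide +kernel)
           (CovZ.leaf K2_ok TP_l4247 _)
           (CovZ.n1 (5920, 6400) (by decide +kernel)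
            (CovZ.leaf K2_ok TP_l4248 _)
            (CovZ.leaf K2_ok TP_l4249 _)))
          (CovZ.leaf K2_ok TP_l4250 _))
         (CovZ.n1 (5760, 6720) (by decide +kernel)
          (CovZ.n2 (5920, 6880) (by decide +kernel)
           (CovZ.n2 (5920, 6720) (by decide +kernel)
            (CovZ.leaf K2_ok TP_l4251 _)
            (CovZ.leaf K2_ok TP_l4252 _))
           (CovZ.n1 (5760, 6880) (by decide +kernel)
            (CovZ.leaf K2_ok TP_l4253 _)
            (CovZ.leaf K2_ok TP_l4254 _)))
          (CovZ.n1 (5920, 6560) (by decide +kernel)
           (CovZ.leaf K2_ok TP_l4255 _)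
           (CovZ.n1 (5920, 6720) (by decide +kernel)
            (CovZ.leaf K2_ok TP_l4256 _)
            (CovZ.leaf K2_ok TP_l4257 _))))))

theorem TP_u43 : CovZ TP_M (toL (selN TP_LN 10920937213368868811777678842447683256320)) [0, 7, 2, 5] (5760, 7040) (5120, 7680) (5120, 6400) :=
    (CovZ.n1 (5120, 7040) (by decide +kernel)
        (CovZ.n2 (5440, 7360) (by decide +kernel)
         (CovZ.n2 (5440, 7040) (by decide +kernel)
          (CovZ.badM (by decide +kernel))
          (CovZ.n1 (5600, 7200) (by decide +kernel)
           (CovZ.n2 (5600, 7040) (by decide +kernel)
            (CovZ.n2 (5520, 7120) (by decide +kernel)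
             (CovZ.n2 (5600, 7120) (by decide +kernel)
              (CovZ.n2 (5560, 7080) (by decide +kernel)
               (CovZ.n2 (5560, 7120) (by decide +kernel)
                (CovZ.leaf K2_ok TP_l4258 _)
                (CovZ.leaf K2_ok TP_l7751 _))
               (CovZ.leaf K2_ok TP_l4259 _))
              (CovZ.n1 (5560, 7160) (by decide +kernel)
               (CovZ.leaf K2_ok TP_l4260 _)
               (CovZ.n1 (5560, 7120) (by decide +kernel)
                (CovZ.leaf K2_ok TP_l7752 _)
                (CovZ.leaf K2_ok TP_l4261 _))))
             (CovZ.n1 (5520, 7040) (by decide +kernel)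
              (CovZ.n2 (5480, 7080) (by decide +kernel)
               (CovZ.n2 (5520, 7080) (by decide +kernel)
                (CovZ.leaf K2_ok TP_l7753 _)
                (CovZ.n1 (5500, 7100) (by decide +kernel)
                 (CovZ.leaf K2_ok TP_l7754 _)
                 (CovZ.leaf K2_ok TP_l7755 _)))
               (CovZ.n1 (5480, 7040) (by decide +kernel)
                (CovZ.badM (by decide +kernel))
                (CovZ.leaf K2_ok TP_l7756 _)))
              (CovZ.n1 (5560, 7080) (by decide +kernel)
               (CovZ.leaf K2_ok TP_l4262 _)
               (CovZ.leaf K2_ok TP_l7757 _))))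
            (CovZ.n1 (5680, 7120) (by decide +kernel)
             (CovZ.n2 (5680, 7040) (by decide +kernel)
              (CovZ.leaf K2_ok TP_l4263 _)
              (CovZ.leaf K2_ok TP_l4264 _))
             (CovZ.n1 (5600, 7120) (by decide +kernel)
              (CovZ.leaf K2_ok TP_l4265 _)
              (CovZ.leaf K2_ok TP_l4266 _))))
           (CovZ.n1 (5440, 7200) (by decide +kernel)
            (CovZ.n2 (5520, 7280) (by decide +kernel)
             (CovZ.n2 (5520, 7200) (by decide +kernel)
              (CovZ.badM (by decide +kernel))
              (CovZ.n1 (5560, 7240) (by decide +kernel)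
               (CovZ.n2 (5560, 7200) (by decide +kernel)
                (CovZ.badM (by decide +kernel))
                (CovZ.leaf K2_ok TP_l4267 _))
               (CovZ.badM (by decide +kernel))))
             (CovZ.badM (by decide +kernel)))
            (CovZ.n1 (5520, 7120) (by decide +kernel)
             (CovZ.n2 (5440, 7120) (by decide +kernel)
              (CovZ.n2 (5480, 7160) (by decide +kernel)
               (CovZ.n2 (5480, 7120) (by decide +kernel)
                (CovZ.badM (by decide +kernel))
                (CovZ.n1 (5500, 7140) (by decide +kernel)
                 (CovZ.leaf K2_ok TP_l7758 _)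
                 (CovZ.leaf K2_ok TP_l7759 _)))
               (CovZ.badM (by decide +kernel)))
              (CovZ.n1 (5480, 7080) (by decide +kernel)
               (CovZ.badM (by decide +kernel))
               (CovZ.n1 (5480, 7120) (by decide +kernel)
                (CovZ.n2 (5500, 7100) (by decide +kernel)
                 (CovZ.leaf K2_ok TP_l7760 _)
                 (CovZ.leaf K2_ok TP_l7761 _))
                (CovZ.badM (by decide +kernel)))))
             (CovZ.n1 (5520, 7200) (by decide +kernel)
              (CovZ.n2 (5560, 7160) (by decide +kernel)
               (CovZ.n2 (5520, 7160) (by decide +kernel)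
                (CovZ.badM (by decide +kernel))
                (CovZ.leaf K2_ok TP_l7762 _))
               (CovZ.n1 (5560, 7200) (by decide +kernel)
                (CovZ.leaf K2_ok TP_l4268 _)
                (CovZ.badM (by decide +kernel))))
              (CovZ.n1 (5480, 7160) (by decide +kernel)
               (CovZ.badM (by decide +kernel))
               (CovZ.n1 (5520, 7160) (by decide +kernel)
                (CovZ.n2 (5500, 7140) (by decide +kernel)
                 (CovZ.leaf K2_ok TP_l7763 _)
                 (CovZ.leaf K2_ok TP_l7764 _))
                (CovZ.badM (by decide +kernel)))))))))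
         (CovZ.badM (by decide +kernel)))
        (CovZ.n1 (5440, 6720) (by decide +kernel)
         (CovZ.n2 (5120, 6720) (by decide +kernel)
          (CovZ.n2 (5280, 6880) (by decide +kernel)
           (CovZ.n2 (5280, 6720) (by decide +kernel)
            (CovZ.badM (by decide +kernel))
            (CovZ.n1 (5360, 6800) (by decide +kernel)
             (CovZ.n2 (5360, 6720) (by decide +kernel)
              (CovZ.badM (by decide +kernel))
              (CovZ.n1 (5400, 6760) (by decide +kernel)
               (CovZ.n2 (5400, 6720) (by decide +kernel)
                (CovZ.badM (by decide +kernel))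
                (CovZ.n1 (5420, 6740) (by decide +kernel)
                 (CovZ.leaf K2_ok TP_l7765 _)
                 (CovZ.leaf K2_ok TP_l7766 _)))
               (CovZ.badM (by decide +kernel))))
             (CovZ.badM (by decide +kernel))))
           (CovZ.badM (by decide +kernel)))
          (CovZ.n1 (5280, 6560) (by decide +kernel)
           (CovZ.badM (by decide +kernel))
           (CovZ.n1 (5280, 6720) (by decide +kernel)
            (CovZ.n2 (5360, 6640) (by decide +kernel)
             (CovZ.badM (by decide +kernel))
             (CovZ.n1 (5360, 6720) (by decide +kernel)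
              (CovZ.n2 (5400, 6680) (by decide +kernel)
               (CovZ.badM (by decide +kernel))
               (CovZ.n1 (5400, 6720) (by decide +kernel)
                (CovZ.n2 (5420, 6700) (by decide +kernel)
                 (CovZ.leaf K2_ok TP_l7767 _)
                 (CovZ.leaf K2_ok TP_l7768 _))
                (CovZ.badM (by decide +kernel))))
              (CovZ.badM (by decide +kernel))))
            (CovZ.badM (by decide +kernel)))))
         (CovZ.n1 (5440, 7040) (by decide +kernel)
          (CovZ.n2 (5600, 6880) (by decide +kernel)
           (CovZ.n2 (5440, 6880) (by decide +kernel)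
            (CovZ.n2 (5520, 6960) (by decide +kernel)
             (CovZ.n2 (5520, 6880) (by decide +kernel)
              (CovZ.n2 (5480, 6920) (by decide +kernel)
               (CovZ.leaf K2_ok TP_l7769 _)
               (CovZ.n1 (5480, 6880) (by decide +kernel)
                (CovZ.badM (by decide +kernel))
                (CovZ.leaf K2_ok TP_l7770 _)))
              (CovZ.leaf K2_ok TP_l4269 _))
             (CovZ.n1 (5440, 6960) (by decide +kernel)
              (CovZ.n2 (5480, 7000) (by decide +kernel)
               (CovZ.n2 (5480, 6960) (by decide +kernel)
                (CovZ.badM (by decide +kernel))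
                (CovZ.leaf K2_ok TP_l7771 _))
               (CovZ.badM (by decide +kernel)))
              (CovZ.n1 (5480, 6920) (by decide +kernel)
               (CovZ.badM (by decide +kernel))
               (CovZ.n1 (5480, 6960) (by decide +kernel)
                (CovZ.leaf K2_ok TP_l7772 _)
                (CovZ.badM (by decide +kernel))))))
            (CovZ.n1 (5520, 6800) (by decide +kernel)
             (CovZ.n2 (5440, 6800) (by decide +kernel)
              (CovZ.n2 (5480, 6840) (by decide +kernel)
               (CovZ.n2 (5480, 6800) (by decide +kernel)
                (CovZ.badM (by decide +kernel))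
                (CovZ.leaf K2_ok TP_l7773 _))
               (CovZ.badM (by decide +kernel)))
              (CovZ.n1 (5480, 6760) (by decide +kernel)
               (CovZ.leaf K2_ok TP_l7774 _)
               (CovZ.n1 (5480, 6800) (by decide +kernel)
                (CovZ.leaf K2_ok TP_l7775 _)
                (CovZ.leaf K2_ok TP_l7776 _))))
             (CovZ.n1 (5520, 6880) (by decide +kernel)
              (CovZ.n2 (5560, 6840) (by decide +kernel)
               (CovZ.leaf K2_ok TP_l7777 _)
               (CovZ.leaf K2_ok TP_l4270 _))
              (CovZ.n1 (5480, 6840) (by decide +kernel)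
               (CovZ.n2 (5480, 6880) (by decide +kernel)
                (CovZ.leaf K2_ok TP_l7778 _)
                (CovZ.badM (by decide +kernel)))
               (CovZ.leaf K2_ok TP_l7779 _)))))
           (CovZ.n1 (5600, 7040) (by decide +kernel)
            (CovZ.n2 (5680, 6960) (by decide +kernel)
             (CovZ.leaf K2_ok TP_l4271 _)
             (CovZ.n1 (5680, 7040) (by decide +kernel)
              (CovZ.leaf K2_ok TP_l4272 _)
              (CovZ.leaf K2_ok TP_l4273 _)))
            (CovZ.n1 (5520, 6960) (by decide +kernel)
             (CovZ.n2 (5520, 7040) (by decide +kernel)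
              (CovZ.n2 (5560, 7000) (by decide +kernel)
               (CovZ.leaf K2_ok TP_l7780 _)
               (CovZ.n1 (5560, 7040) (by decide +kernel)
                (CovZ.leaf K2_ok TP_l4274 _)
                (CovZ.leaf K2_ok TP_l7781 _)))
              (CovZ.n1 (5480, 7000) (by decide +kernel)
               (CovZ.n2 (5480, 7040) (by decide +kernel)
                (CovZ.leaf K2_ok TP_l7782 _)
                (CovZ.badM (by decide +kernel)))
               (CovZ.n1 (5520, 7000) (by decide +kernel)
                (CovZ.leaf K2_ok TP_l7783 _)
                (CovZ.leaf K2_ok TP_l7784 _))))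
             (CovZ.n1 (5600, 6960) (by decide +kernel)
              (CovZ.n2 (5560, 6920) (by decide +kernel)
               (CovZ.leaf K2_ok TP_l4275 _)
               (CovZ.leaf K2_ok TP_l4276 _))
              (CovZ.n1 (5560, 7000) (by decide +kernel)
               (CovZ.leaf K2_ok TP_l4277 _)
               (CovZ.leaf K2_ok TP_l4278 _))))))
          (CovZ.n1 (5280, 6880) (by decide +kernel)
           (CovZ.badM (by decide +kernel))
           (CovZ.n1 (5440, 6880) (by decide +kernel)
            (CovZ.n2 (5360, 6800) (by decide +kernel)
             (CovZ.badM (by decide +kernel))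
             (CovZ.n1 (5440, 6800) (by decide +kernel)
              (CovZ.n2 (5400, 6760) (by decide +kernel)
               (CovZ.n2 (5400, 6800) (by decide +kernel)
                (CovZ.n2 (5420, 6780) (by decide +kernel)
                 (CovZ.leaf K2_ok TP_l7785 _)
                 (CovZ.badM (by decide +kernel)))
                (CovZ.badM (by decide +kernel)))
               (CovZ.n1 (5440, 6760) (by decide +kernel)
                (CovZ.n2 (5420, 6740) (by decide +kernel)
                 (CovZ.leaf K2_ok TP_l7786 _)
                 (CovZ.leaf K2_ok TP_l7787 _))
                (CovZ.n1 (5420, 6780) (by decide +kernel)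
                 (CovZ.leaf K2_ok TP_l7788 _)
                 (CovZ.leaf K2_ok TP_l7789 _))))
              (CovZ.badM (by decide +kernel))))
            (CovZ.badM (by decide +kernel)))))))

end Pool.Agent.TET
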