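import Pool.Agent.Helper38_TET.TP_M
import Pool.Agent.Helper38_TET.TP_L
import Pool.Agent.Helper38_TET.TP_0
import Pool.Agent.Helper38_TET.TP_12
import Pool.Agent.Helper38_TET.TP_28
import Pool.Agent.Helper38_TET.TP_29
import Pool.Agent.Helper38_TET.TP_30
import Pool.Agent.Helper38_TET.TP_35
import Pool.Agent.Helper38_TET.TP_36
import Pool.Agent.Helper38_TET.TP_37
import Pool.Agent.Helper38_TET.TP_38
import Pool.Agent.Helper38_TET.TP_47
import Pool.Agent.Helper38_TET.TP_48
import Pool.Agent.Helper38_TET.TP_52

/-!
# MP_c7c9bf_co: certificates, family TP
-/

set_option autoImplicit false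
set_option maxRecDepth 100000

namespace Pool.Agent.TET

theorem TP_u44 : CovZ TP_M (toL (selN TP_LN 10963472509233995791117157730562766667776)) [0, 7, 2, 5] (5120, 6400) (5120, 5760) (5760, 5760) :=
    (CovZ.n2 (5440, 6080) (by decide +kernel)
        (CovZ.n2 (5440, 5760) (by decide +kernel)
         (CovZ.subM 10952838685267706792727370181125265686528 (by decide +kernel)
          (CovZ.n2 (5280, 5920) (by decide +kernel)
           (CovZ.n2 (5440, 5920) (by decide +kernel)
            (CovZ.n2 (5360, 5840) (by decide +kernel)
             (CovZ.n2 (5360, 5920) (by decide +kernel)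
              (CovZ.leaf K2_ok TP_l4279 _)
              (CovZ.n1 (5320, 5880) (by decide +kernel)
               (CovZ.n2 (5320, 5920) (by decide +kernel)
                (CovZ.leaf K2_ok TP_l4280 _)
                (CovZ.leaf K2_ok TP_l4281 _))
               (CovZ.leaf K2_ok TP_l4282 _)))
             (CovZ.n1 (5440, 5840) (by decide +kernel)
              (CovZ.leaf K2_ok TP_l4283 _)
              (CovZ.leaf K2_ok TP_l4284 _)))
            (CovZ.n1 (5360, 6000) (by decide +kernel)
             (CovZ.n2 (5440, 6000) (by decide +kernel)
              (CovZ.leaf K2_ok TP_l4285 _)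
              (CovZ.n1 (5400, 6040) (by decide +kernel)
               (CovZ.leaf K2_ok TP_l4286 _)
               (CovZ.leaf K2_ok TP_l4287 _)))
             (CovZ.n1 (5360, 5920) (by decide +kernel)
              (CovZ.n2 (5320, 5960) (by decide +kernel)
               (CovZ.leaf K2_ok TP_l4288 _)
               (CovZ.n1 (5320, 5920) (by decide +kernel)
                (CovZ.leaf K2_ok TP_l4289 _)
                (CovZ.leaf K2_ok TP_l4290 _)))
              (CovZ.leaf K2_ok TP_l4291 _))))
           (CovZ.n1 (5280, 5760) (by decide +kernel)
            (CovZ.n2 (5200, 5840) (by decide +kernel)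
             (CovZ.n2 (5280, 5840) (by decide +kernel)
              (CovZ.n2 (5240, 5800) (by decide +kernel)
               (CovZ.n2 (5240, 5840) (by decide +kernel)
                (CovZ.n2 (5260, 5820) (by decide +kernel)
                 (CovZ.leaf K2_ok TP_l4292 _)
                 (CovZ.leaf K2_ok TP_l4293 _))
                (CovZ.badM (by decide +kernel)))
               (CovZ.n1 (5280, 5800) (by decide +kernel)
                (CovZ.n2 (5260, 5780) (by decide +kernel)
                 (CovZ.leaf K2_ok TP_l4294 _)
                 (CovZ.leaf K2_ok TP_l4295 _))
                (CovZ.n1 (5260, 5820) (by decide +kernel)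
                 (CovZ.leaf K2_ok TP_l4296 _)
                 (CovZ.leaf K2_ok TP_l4297 _))))
              (CovZ.n1 (5240, 5880) (by decide +kernel)
               (CovZ.n2 (5280, 5880) (by decide +kernel)
                (CovZ.n2 (5260, 5860) (by decide +kernel)
                 (CovZ.leaf K2_ok TP_l4298 _)
                 (CovZ.leaf K2_ok TP_l4299 _))
                (CovZ.badM (by decide +kernel)))
               (CovZ.n1 (5240, 5840) (by decide +kernel)
                (CovZ.badM (by decide +kernel))
                (CovZ.n1 (5260, 5860) (by decide +kernel)
                 (CovZ.leaf K2_ok TP_l4300 _)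
                 (CovZ.leaf K2_ok TP_l4301 _)))))
             (CovZ.n1 (5200, 5760) (by decide +kernel)
              (CovZ.badM (by decide +kernel))
              (CovZ.n1 (5240, 5800) (by decide +kernel)
               (CovZ.n2 (5240, 5760) (by decide +kernel)
                (CovZ.badM (by decide +kernel))
                (CovZ.n1 (5260, 5780) (by decide +kernel)
                 (CovZ.leaf K2_ok TP_l4302 _)
                 (CovZ.leaf K2_ok TP_l4303 _)))
               (CovZ.badM (by decide +kernel)))))
            (CovZ.n1 (5360, 5840) (by decide +kernel)
             (CovZ.n2 (5360, 5760) (by decide +kernel)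
              (CovZ.n2 (5320, 5800) (by decide +kernel)
               (CovZ.leaf K2_ok TP_l4304 _)
               (CovZ.n1 (5320, 5760) (by decide +kernel)
                (CovZ.leaf K2_ok TP_l4305 _)
                (CovZ.leaf K2_ok TP_l4306 _)))
              (CovZ.leaf K2_ok TP_l4307 _))
             (CovZ.n1 (5280, 5840) (by decide +kernel)
              (CovZ.n2 (5320, 5880) (by decide +kernel)
               (CovZ.n2 (5320, 5840) (by decide +kernel)
                (CovZ.leaf K2_ok TP_l4308 _)
                (CovZ.leaf K2_ok TP_l4309 _))
               (CovZ.n1 (5280, 5880) (by decide +kernel)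
                (CovZ.leaf K2_ok TP_l4310 _)
                (CovZ.leaf K2_ok TP_l4311 _)))
              (CovZ.n1 (5320, 5800) (by decide +kernel)
               (CovZ.n2 (5280, 5800) (by decide +kernel)
                (CovZ.leaf K2_ok TP_l4312 _)
                (CovZ.leaf K2_ok TP_l4313 _))
               (CovZ.n1 (5320, 5840) (by decide +kernel)
                (CovZ.leaf K2_ok TP_l4314 _)
                (CovZ.leaf K2_ok TP_l4315 _))))))))
         (CovZ.n1 (5600, 5920) (by decide +kernel)
          (CovZ.n2 (5600, 5760) (by decide +kernel)
           (CovZ.n2 (5520, 5840) (by decide +kernel)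
            (CovZ.leaf K2_ok TP_l4316 _)
            (CovZ.leaf K2_ok TP_l4317 _))
           (CovZ.leaf K2_ok TP_l4318 _))
          (CovZ.n1 (5440, 5920) (by decide +kernel)
           (CovZ.n2 (5520, 6000) (by decide +kernel)
            (CovZ.leaf K2_ok TP_l4319 _)
            (CovZ.leaf K2_ok TP_l4320 _))
           (CovZ.n1 (5520, 5840) (by decide +kernel)
            (CovZ.leaf K2_ok TP_l4321 _)
            (CovZ.leaf K2_ok TP_l4322 _)))))
        (CovZ.subM 10952838685267706792727370181125265686528 (by decide +kernel)
         (CovZ.n1 (5120, 6080) (by decide +kernel)
          (CovZ.n2 (5280, 6240) (by decide +kernel)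
           (CovZ.n2 (5280, 6080) (by decide +kernel)
            (CovZ.badM (by decide +kernel))
            (CovZ.n1 (5360, 6160) (by decide +kernel)
             (CovZ.n2 (5360, 6080) (by decide +kernel)
              (CovZ.n2 (5320, 6120) (by decide +kernel)
               (CovZ.n2 (5360, 6120) (by decide +kernel)
                (CovZ.leaf K2_ok TP_l4323 _)
                (CovZ.leaf K2_ok TP_l4324 _))
               (CovZ.n1 (5320, 6080) (by decide +kernel)
                (CovZ.n2 (5300, 6100) (by decide +kernel)
                 (CovZ.leaf K2_ok TP_l4325 _)
                 (CovZ.leaf K2_ok TP_l4326 _))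
                (CovZ.leaf K2_ok TP_l4327 _)))
              (CovZ.n1 (5400, 6120) (by decide +kernel)
               (CovZ.leaf K2_ok TP_l4328 _)
               (CovZ.leaf K2_ok TP_l4329 _)))
             (CovZ.n1 (5280, 6160) (by decide +kernel)
              (CovZ.n2 (5320, 6200) (by decide +kernel)
               (CovZ.n2 (5320, 6160) (by decide +kernel)
                (CovZ.badM (by decide +kernel))
                (CovZ.leaf K2_ok TP_l4330 _))
               (CovZ.badM (by decide +kernel)))
              (CovZ.n1 (5320, 6120) (by decide +kernel)
               (CovZ.n2 (5280, 6120) (by decide +kernel)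
                (CovZ.n2 (5300, 6140) (by decide +kernel)
                 (CovZ.leaf K2_ok TP_l4331 _)
                 (CovZ.leaf K2_ok TP_l4332 _))
                (CovZ.n1 (5300, 6100) (by decide +kernel)
                 (CovZ.leaf K2_ok TP_l4333 _)
                 (CovZ.leaf K2_ok TP_l4334 _)))
               (CovZ.n1 (5320, 6160) (by decide +kernel)
                (CovZ.leaf K2_ok TP_l4335 _)
                (CovZ.n1 (5300, 6140) (by decide +kernel)
                 (CovZ.leaf K2_ok TP_l4336 _)
                 (CovZ.leaf K2_ok TP_l4337 _)))))))
           (CovZ.badM (by decide +kernel)))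
          (CovZ.n1 (5280, 5920) (by decide +kernel)
           (CovZ.n2 (5120, 5920) (by decide +kernel)
            (CovZ.badM (by decide +kernel))
            (CovZ.n1 (5200, 5840) (by decide +kernel)
             (CovZ.badM (by decide +kernel))
             (CovZ.n1 (5200, 5920) (by decide +kernel)
              (CovZ.n2 (5240, 5880) (by decide +kernel)
               (CovZ.badM (by decide +kernel))
               (CovZ.badM (by decide +kernel)))
              (CovZ.badM (by decide +kernel)))))
           (CovZ.n1 (5280, 6080) (by decide +kernel)
            (CovZ.n2 (5360, 6000) (by decide +kernel)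
             (CovZ.n2 (5280, 6000) (by decide +kernel)
              (CovZ.n2 (5320, 6040) (by decide +kernel)
               (CovZ.n2 (5320, 6000) (by decide +kernel)
                (CovZ.n2 (5300, 6020) (by decide +kernel)
                 (CovZ.leaf K2_ok TP_l4338 _)
                 (CovZ.leaf K2_ok TP_l4339 _))
                (CovZ.leaf K2_ok TP_l4340 _))
               (CovZ.n1 (5280, 6040) (by decide +kernel)
                (CovZ.leaf K2_ok TP_l4341 _)
                (CovZ.n1 (5300, 6020) (by decide +kernel)
                 (CovZ.leaf K2_ok TP_l4342 _)
                 (CovZ.leaf K2_ok TP_l4343 _))))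
              (CovZ.n1 (5320, 5960) (by decide +kernel)
               (CovZ.n2 (5280, 5960) (by decide +kernel)
                (CovZ.leaf K2_ok TP_l4344 _)
                (CovZ.leaf K2_ok TP_l4345 _))
               (CovZ.n1 (5320, 6000) (by decide +kernel)
                (CovZ.leaf K2_ok TP_l4346 _)
                (CovZ.leaf K2_ok TP_l4347 _))))
             (CovZ.n1 (5360, 6080) (by decide +kernel)
              (CovZ.n2 (5400, 6040) (by decide +kernel)
               (CovZ.leaf K2_ok TP_l4348 _)
               (CovZ.leaf K2_ok TP_l4349 _))
              (CovZ.n1 (5320, 6040) (by decide +kernel)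
               (CovZ.n2 (5320, 6080) (by decide +kernel)
                (CovZ.leaf K2_ok TP_l4350 _)
                (CovZ.n1 (5300, 6060) (by decide +kernel)
                 (CovZ.leaf K2_ok TP_l4351 _)
                 (CovZ.leaf K2_ok TP_l4352 _)))
               (CovZ.n1 (5360, 6040) (by decide +kernel)
                (CovZ.leaf K2_ok TP_l4353 _)
                (CovZ.leaf K2_ok TP_l4354 _)))))
            (CovZ.badM (by decide +kernel)))))))

theorem TP_u45 : CovZ TP_M (toL (selN TP_LN 10963472509233995791117157730562766667776)) [0, 7, 2, 5] (5120, 5760) (5120, 5120) (5760, 5760) :=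
    (CovZ.n1 (5440, 5440) (by decide +kernel)
        (CovZ.subM 10952838685267706792727370321862754041856 (by decide +kernel)
         (CovZ.n2 (5120, 5440) (by decide +kernel)
          (CovZ.n2 (5280, 5600) (by decide +kernel)
           (CovZ.n2 (5280, 5440) (by decide +kernel)
            (CovZ.subM 42535295865117307932921966666459381760 (by decide +kernel)
             (CovZ.n2 (5200, 5520) (by decide +kernel)
              (CovZ.n2 (5280, 5520) (by decide +kernel)
               (CovZ.n2 (5240, 5480) (by decide +kernel)
                (CovZ.n2 (5240, 5520) (by decide +kernel)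
                 (CovZ.leaf K2_ok TP_l4355 _)
                 (CovZ.n1 (5220, 5500) (by decide +kernel)
                  (CovZ.leaf K2_ok TP_l4356 _)
                  (CovZ.leaf K2_ok TP_l4357 _)))
                (CovZ.leaf K2_ok TP_l4358 _))
               (CovZ.n1 (5240, 5560) (by decide +kernel)
                (CovZ.n2 (5280, 5560) (by decide +kernel)
                 (CovZ.leaf K2_ok TP_l4359 _)
                 (CovZ.leaf K2_ok TP_l4360 _))
                (CovZ.n1 (5240, 5520) (by decide +kernel)
                 (CovZ.n2 (5220, 5540) (by decide +kernel)
                  (CovZ.leaf K2_ok TP_l4361 _)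
                  (CovZ.leaf K2_ok TP_l4362 _))
                 (CovZ.leaf K2_ok TP_l4363 _))))
              (CovZ.n1 (5200, 5440) (by decide +kernel)
               (CovZ.badM (by decide +kernel))
               (CovZ.n1 (5240, 5480) (by decide +kernel)
                (CovZ.n2 (5240, 5440) (by decide +kernel)
                 (CovZ.leaf K2_ok TP_l4364 _)
                 (CovZ.leaf K2_ok TP_l4365 _))
                (CovZ.n1 (5200, 5480) (by decide +kernel)
                 (CovZ.leaf K2_ok TP_l4366 _)
                 (CovZ.leaf K2_ok TP_l4367 _))))))
            (CovZ.n1 (5360, 5520) (by decide +kernel)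
             (CovZ.n2 (5360, 5440) (by decide +kernel)
              (CovZ.n2 (5320, 5480) (by decide +kernel)
               (CovZ.leaf K2_ok TP_l4368 _)
               (CovZ.leaf K2_ok TP_l4369 _))
              (CovZ.leaf K2_ok TP_l4370 _))
             (CovZ.n1 (5280, 5520) (by decide +kernel)
              (CovZ.leaf K2_ok TP_l4371 _)
              (CovZ.leaf K2_ok TP_l4372 _))))
           (CovZ.subM 42535295865117307932921966666459381760 (by decide +kernel)
            (CovZ.n1 (5120, 5600) (by decide +kernel)
             (CovZ.n2 (5200, 5680) (by decide +kernel)
              (CovZ.n2 (5200, 5600) (by decide +kernel)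
               (CovZ.badM (by decide +kernel))
               (CovZ.n1 (5240, 5640) (by decide +kernel)
                (CovZ.n2 (5240, 5600) (by decide +kernel)
                 (CovZ.n2 (5220, 5620) (by decide +kernel)
                  (CovZ.leaf K2_ok TP_l4373 _)
                  (CovZ.leaf K2_ok TP_l4374 _))
                 (CovZ.leaf K2_ok TP_l4375 _))
                (CovZ.n1 (5200, 5640) (by decide +kernel)
                 (CovZ.badM (by decide +kernel))
                 (CovZ.n1 (5220, 5620) (by decide +kernel)
                  (CovZ.leaf K2_ok TP_l4376 _)
                  (CovZ.badM (by decide +kernel))))))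
              (CovZ.badM (by decide +kernel)))
             (CovZ.n1 (5200, 5520) (by decide +kernel)
              (CovZ.badM (by decide +kernel))
              (CovZ.n1 (5200, 5600) (by decide +kernel)
               (CovZ.n2 (5240, 5560) (by decide +kernel)
                (CovZ.n2 (5200, 5560) (by decide +kernel)
                 (CovZ.n2 (5220, 5580) (by decide +kernel)
                  (CovZ.leaf K2_ok TP_l4377 _)
                  (CovZ.leaf K2_ok TP_l4378 _))
                 (CovZ.n1 (5220, 5540) (by decide +kernel)
                  (CovZ.leaf K2_ok TP_l4379 _)
                  (CovZ.leaf K2_ok TP_l4380 _)))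
                (CovZ.n1 (5240, 5600) (by decide +kernel)
                 (CovZ.leaf K2_ok TP_l4381 _)
                 (CovZ.n1 (5220, 5580) (by decide +kernel)
                  (CovZ.leaf K2_ok TP_l4382 _)
                  (CovZ.leaf K2_ok TP_l4383 _))))
               (CovZ.badM (by decide +kernel)))))))
          (CovZ.n1 (5280, 5280) (by decide +kernel)
           (CovZ.subM 42535295865117307932921966666459381760 (by decide +kernel)
            (CovZ.n2 (5120, 5280) (by decide +kernel)
             (CovZ.n2 (5200, 5360) (by decide +kernel)
              (CovZ.n2 (5200, 5280) (by decide +kernel)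
               (CovZ.badM (by decide +kernel))
               (CovZ.n1 (5240, 5320) (by decide +kernel)
                (CovZ.n2 (5240, 5280) (by decide +kernel)
                 (CovZ.leaf K2_ok TP_l4389 _)
                 (CovZ.leaf K2_ok TP_l4390 _))
                (CovZ.n1 (5200, 5320) (by decide +kernel)
                 (CovZ.leaf K2_ok TP_l4391 _)
                 (CovZ.leaf K2_ok TP_l4392 _))))
              (CovZ.badM (by decide +kernel)))
             (CovZ.n1 (5200, 5200) (by decide +kernel)
              (CovZ.badM (by decide +kernel))
              (CovZ.n1 (5200, 5280) (by decide +kernel)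
               (CovZ.n2 (5240, 5240) (by decide +kernel)
                (CovZ.leaf K2_ok TP_l4397 _)
                (CovZ.n1 (5240, 5280) (by decide +kernel)
                 (CovZ.leaf K2_ok TP_l4398 _)
                 (CovZ.leaf K2_ok TP_l4399 _)))
               (CovZ.badM (by decide +kernel))))))
           (CovZ.n1 (5280, 5440) (by decide +kernel)
            (CovZ.n2 (5360, 5360) (by decide +kernel)
             (CovZ.n2 (5280, 5360) (by decide +kernel)
              (CovZ.leaf K2_ok TP_l4405 _)
              (CovZ.leaf K2_ok TP_l4406 _))
             (CovZ.n1 (5360, 5440) (by decide +kernel)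
              (CovZ.leaf K2_ok TP_l4407 _)
              (CovZ.leaf K2_ok TP_l4408 _)))
            (CovZ.subM 42535295865117307932921966666459381760 (by decide +kernel)
             (CovZ.n1 (5200, 5360) (by decide +kernel)
              (CovZ.n2 (5200, 5440) (by decide +kernel)
               (CovZ.n2 (5240, 5400) (by decide +kernel)
                (CovZ.n2 (5200, 5400) (by decide +kernel)
                 (CovZ.leaf K2_ok TP_l4409 _)
                 (CovZ.leaf K2_ok TP_l4410 _))
                (CovZ.n1 (5240, 5440) (by decide +kernel)
                 (CovZ.leaf K2_ok TP_l4411 _)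
                 (CovZ.leaf K2_ok TP_l4412 _)))
               (CovZ.badM (by decide +kernel)))
              (CovZ.n1 (5280, 5360) (by decide +kernel)
               (CovZ.n2 (5240, 5320) (by decide +kernel)
                (CovZ.n2 (5240, 5360) (by decide +kernel)
                 (CovZ.leaf K2_ok TP_l4413 _)
                 (CovZ.leaf K2_ok TP_l4414 _))
                (CovZ.leaf K2_ok TP_l4415 _))
               (CovZ.n1 (5240, 5400) (by decide +kernel)
                (CovZ.leaf K2_ok TP_l4416 _)
                (CovZ.n1 (5240, 5360) (by decide +kernel)
                 (CovZ.leaf K2_ok TP_l4417 _)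
                 (CovZ.leaf K2_ok TP_l4418 _))))))))))
        (CovZ.n1 (5440, 5760) (by decide +kernel)
         (CovZ.n2 (5600, 5600) (by decide +kernel)
          (CovZ.n2 (5440, 5600) (by decide +kernel)
           (CovZ.n2 (5520, 5680) (by decide +kernel)
            (CovZ.leaf K2_ok TP_l4419 _)
            (CovZ.leaf K2_ok TP_l4420 _))
           (CovZ.n1 (5520, 5520) (by decide +kernel)
            (CovZ.leaf K2_ok TP_l4421 _)
            (CovZ.leaf K2_ok TP_l4422 _)))
          (CovZ.n1 (5600, 5760) (by decide +kernel)
           (CovZ.leaf K2_ok TP_l4423 _)
           (CovZ.n1 (5520, 5680) (by decide +kernel)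
            (CovZ.leaf K2_ok TP_l4424 _)
            (CovZ.leaf K2_ok TP_l4425 _))))
         (CovZ.subM 10952838685267706792727370321862754041856 (by decide +kernel)
          (CovZ.n1 (5280, 5600) (by decide +kernel)
           (CovZ.n2 (5280, 5760) (by decide +kernel)
            (CovZ.n2 (5360, 5680) (by decide +kernel)
             (CovZ.n2 (5280, 5680) (by decide +kernel)
              (CovZ.n2 (5320, 5720) (by decide +kernel)
               (CovZ.leaf K2_ok TP_l4426 _)
               (CovZ.leaf K2_ok TP_l4427 _))
              (CovZ.n1 (5320, 5640) (by decide +kernel)
               (CovZ.leaf K2_ok TP_l4428 _)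
               (CovZ.leaf K2_ok TP_l4429 _)))
             (CovZ.n1 (5360, 5760) (by decide +kernel)
              (CovZ.leaf K2_ok TP_l4430 _)
              (CovZ.n1 (5320, 5720) (by decide +kernel)
               (CovZ.n2 (5320, 5760) (by decide +kernel)
                (CovZ.leaf K2_ok TP_l4431 _)
                (CovZ.leaf K2_ok TP_l4432 _))
               (CovZ.leaf K2_ok TP_l4433 _))))
            (CovZ.subM 42535295865117307932921966666459381760 (by decide +kernel)
             (CovZ.n1 (5200, 5680) (by decide +kernel)
              (CovZ.n2 (5200, 5760) (by decide +kernel)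
               (CovZ.n2 (5240, 5720) (by decide +kernel)
                (CovZ.badM (by decide +kernel))
                (CovZ.n1 (5240, 5760) (by decide +kernel)
                 (CovZ.leaf K2_ok TP_l4434 _)
                 (CovZ.badM (by decide +kernel))))
               (CovZ.badM (by decide +kernel)))
              (CovZ.n1 (5280, 5680) (by decide +kernel)
               (CovZ.n2 (5240, 5640) (by decide +kernel)
                (CovZ.n2 (5240, 5680) (by decide +kernel)
                 (CovZ.leaf K2_ok TP_l4435 _)
                 (CovZ.badM (by decide +kernel)))
                (CovZ.n1 (5280, 5640) (by decide +kernel)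
                 (CovZ.leaf K2_ok TP_l4436 _)
                 (CovZ.leaf K2_ok TP_l4437 _)))
               (CovZ.n1 (5240, 5720) (by decide +kernel)
                (CovZ.n2 (5280, 5720) (by decide +kernel)
                 (CovZ.leaf K2_ok TP_l4438 _)
                 (CovZ.n1 (5260, 5740) (by decide +kernel)
                  (CovZ.leaf K2_ok TP_l4439 _)
                  (CovZ.leaf K2_ok TP_l4440 _)))
                (CovZ.n1 (5240, 5680) (by decide +kernel)
                 (CovZ.badM (by decide +kernel))
                 (CovZ.leaf K2_ok TP_l4441 _)))))))
           (CovZ.n1 (5440, 5600) (by decide +kernel)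
            (CovZ.n2 (5360, 5520) (by decide +kernel)
             (CovZ.n2 (5360, 5600) (by decide +kernel)
              (CovZ.leaf K2_ok TP_l4442 _)
              (CovZ.n1 (5320, 5560) (by decide +kernel)
               (CovZ.leaf K2_ok TP_l4443 _)
               (CovZ.leaf K2_ok TP_l4444 _)))
             (CovZ.n1 (5440, 5520) (by decide +kernel)
              (CovZ.leaf K2_ok TP_l4445 _)
              (CovZ.leaf K2_ok TP_l4446 _)))
            (CovZ.n1 (5360, 5680) (by decide +kernel)
             (CovZ.n2 (5440, 5680) (by decide +kernel)
              (CovZ.leaf K2_ok TP_l4447 _)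
              (CovZ.leaf K2_ok TP_l4448 _))
             (CovZ.n1 (5360, 5600) (by decide +kernel)
              (CovZ.n2 (5320, 5640) (by decide +kernel)
               (CovZ.leaf K2_ok TP_l4449 _)
               (CovZ.leaf K2_ok TP_l4450 _))
              (CovZ.leaf K2_ok TP_l4451 _))))))))

theorem TP_u46 : CovZ TP_M (toL (selN TP_LN 10920937213368878483184235759481080905728)) [0, 7, 2, 5] (6400, 7680) (5120, 7680) (6400, 6400) :=
    (CovZ.n1 (5760, 7040) (by decide +kernel)
       (CovZ.subM 10633823966279326983230491666614976512 (by decide +kernel)
        (CovZ.n2 (5760, 7680) (by decide +kernel)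
         (CovZ.n2 (6080, 7360) (by decide +kernel)
          (CovZ.n2 (5760, 7360) (by decide +kernel)
           (CovZ.n2 (5920, 7520) (by decide +kernel)
            (CovZ.n2 (5920, 7360) (by decide +kernel)
             (CovZ.n2 (5840, 7440) (by decide +kernel)
              (CovZ.leaf K2_ok TP_l4529 _)
              (CovZ.leaf K2_ok TP_l4530 _))
             (CovZ.leaf K2_ok TP_l4531 _))
            (CovZ.n1 (5760, 7520) (by decide +kernel)
             (CovZ.n2 (5840, 7600) (by decide +kernel)
              (CovZ.n2 (5840, 7520) (by decide +kernel)
               (CovZ.leaf K2_ok TP_l7790 _)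
               (CovZ.leaf K2_ok TP_l7791 _))
              (CovZ.n1 (5760, 7600) (by decide +kernel)
               (CovZ.leaf K2_ok TP_l7792 _)
               (CovZ.leaf K2_ok TP_l7793 _)))
             (CovZ.n1 (5840, 7440) (by decide +kernel)
              (CovZ.leaf K2_ok TP_l4532 _)
              (CovZ.n1 (5840, 7520) (by decide +kernel)
               (CovZ.leaf K2_ok TP_l7794 _)
               (CovZ.leaf K2_ok TP_l7795 _)))))
           (CovZ.n1 (5920, 7200) (by decide +kernel)
            (CovZ.n2 (5760, 7200) (by decide +kernel)
             (CovZ.n2 (5840, 7280) (by decide +kernel)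
              (CovZ.leaf K2_ok TP_l4533 _)
              (CovZ.leaf K2_ok TP_l4534 _))
             (CovZ.leaf K2_ok TP_l4535 _))
            (CovZ.n1 (5920, 7360) (by decide +kernel)
             (CovZ.leaf K2_ok TP_l4536 _)
             (CovZ.n1 (5840, 7280) (by decide +kernel)
              (CovZ.leaf K2_ok TP_l4537 _)
              (CovZ.leaf K2_ok TP_l4538 _)))))
          (CovZ.n1 (6080, 7680) (by decide +kernel)
           (CovZ.n2 (6240, 7520) (by decide +kernel)
            (CovZ.leaf K2_ok TP_l4539 _)
            (CovZ.leaf K2_ok TP_l7796 _))
           (CovZ.n1 (5920, 7520) (by decide +kernel)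
            (CovZ.n2 (5920, 7680) (by decide +kernel)
             (CovZ.leaf K2_ok TP_l7797 _)
             (CovZ.n1 (5840, 7600) (by decide +kernel)
              (CovZ.n2 (5840, 7680) (by decide +kernel)
               (CovZ.leaf K2_ok TP_l7798 _)
               (CovZ.leaf K2_ok TP_l7799 _))
              (CovZ.leaf K2_ok TP_l7800 _)))
            (CovZ.n1 (6080, 7520) (by decide +kernel)
             (CovZ.leaf K2_ok TP_l4540 _)
             (CovZ.leaf K2_ok TP_l7801 _)))))
         (CovZ.n1 (5440, 7360) (by decide +kernel)
          (CovZ.n2 (5440, 7680) (by decide +kernel)
           (CovZ.n2 (5600, 7520) (by decide +kernel)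
            (CovZ.n2 (5440, 7520) (by decide +kernel)
             (CovZ.badM (by decide +kernel))
             (CovZ.n1 (5520, 7440) (by decide +kernel)
              (CovZ.badM (by decide +kernel))
              (CovZ.badM (by decide +kernel))))
            (CovZ.n1 (5600, 7680) (by decide +kernel)
             (CovZ.n2 (5680, 7600) (by decide +kernel)
              (CovZ.n2 (5600, 7600) (by decide +kernel)
               (CovZ.n2 (5640, 7640) (by decide +kernel)
                (CovZ.n2 (5640, 7600) (by decide +kernel)
                 (CovZ.badM (by decide +kernel))
                 (CovZ.leaf K2_ok TP_l7802 _))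
                (CovZ.badM (by decide +kernel)))
               (CovZ.n1 (5640, 7560) (by decide +kernel)
                (CovZ.badM (by decide +kernel))
                (CovZ.n1 (5640, 7600) (by decide +kernel)
                 (CovZ.leaf K2_ok TP_l7803 _)
                 (CovZ.badM (by decide +kernel)))))
              (CovZ.n1 (5680, 7680) (by decide +kernel)
               (CovZ.n2 (5720, 7640) (by decide +kernel)
                (CovZ.leaf K2_ok TP_l7804 _)
                (CovZ.n1 (5720, 7680) (by decide +kernel)
                 (CovZ.leaf K2_ok TP_l7805 _)
                 (CovZ.leaf K2_ok TP_l7806 _)))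
               (CovZ.n1 (5640, 7640) (by decide +kernel)
                (CovZ.n2 (5640, 7680) (by decide +kernel)
                 (CovZ.n2 (5660, 7660) (by decide +kernel)
                  (CovZ.leaf K2_ok TP_l7807 _)
                  (CovZ.leaf K2_ok TP_l7808 _))
                 (CovZ.badM (by decide +kernel)))
                (CovZ.n1 (5680, 7640) (by decide +kernel)
                 (CovZ.leaf K2_ok TP_l7809 _)
                 (CovZ.n1 (5660, 7660) (by decide +kernel)
                  (CovZ.leaf K2_ok TP_l7810 _)
                  (CovZ.leaf K2_ok TP_l7811 _))))))
             (CovZ.badM (by decide +kernel))))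
           (CovZ.badM (by decide +kernel)))
          (CovZ.n1 (5760, 7360) (by decide +kernel)
           (CovZ.n2 (5600, 7200) (by decide +kernel)
            (CovZ.n2 (5600, 7360) (by decide +kernel)
             (CovZ.n2 (5680, 7280) (by decide +kernel)
              (CovZ.n2 (5600, 7280) (by decide +kernel)
               (CovZ.n2 (5640, 7320) (by decide +kernel)
                (CovZ.leaf K2_ok TP_l4541 _)
                (CovZ.leaf K2_ok TP_l4542 _))
               (CovZ.n1 (5640, 7240) (by decide +kernel)
                (CovZ.leaf K2_ok TP_l4543 _)
                (CovZ.leaf K2_ok TP_l4544 _)))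
              (CovZ.n1 (5680, 7360) (by decide +kernel)
               (CovZ.leaf K2_ok TP_l4545 _)
               (CovZ.n1 (5640, 7320) (by decide +kernel)
                (CovZ.leaf K2_ok TP_l4546 _)
                (CovZ.leaf K2_ok TP_l4547 _))))
             (CovZ.n1 (5520, 7280) (by decide +kernel)
              (CovZ.n2 (5520, 7360) (by decide +kernel)
               (CovZ.n2 (5560, 7320) (by decide +kernel)
                (CovZ.badM (by decide +kernel))
                (CovZ.n1 (5560, 7360) (by decide +kernel)
                 (CovZ.leaf K2_ok TP_l4548 _)
                 (CovZ.badM (by decide +kernel))))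
               (CovZ.badM (by decide +kernel)))
              (CovZ.n1 (5600, 7280) (by decide +kernel)
               (CovZ.n2 (5560, 7240) (by decide +kernel)
                (CovZ.n2 (5560, 7280) (by decide +kernel)
                 (CovZ.leaf K2_ok TP_l4549 _)
                 (CovZ.badM (by decide +kernel)))
                (CovZ.leaf K2_ok TP_l4550 _))
               (CovZ.n1 (5560, 7320) (by decide +kernel)
                (CovZ.n2 (5600, 7320) (by decide +kernel)
                 (CovZ.leaf K2_ok TP_l4551 _)
                 (CovZ.leaf K2_ok TP_l4552 _))
                (CovZ.n1 (5560, 7280) (by decide +kernel)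
                 (CovZ.badM (by decide +kernel))
                 (CovZ.leaf K2_ok TP_l4553 _))))))
            (CovZ.n1 (5760, 7200) (by decide +kernel)
             (CovZ.n2 (5680, 7120) (by decide +kernel)
              (CovZ.n2 (5680, 7200) (by decide +kernel)
               (CovZ.leaf K2_ok TP_l4554 _)
               (CovZ.leaf K2_ok TP_l4555 _))
              (CovZ.leaf K2_ok TP_l4556 _))
             (CovZ.n1 (5680, 7280) (by decide +kernel)
              (CovZ.n2 (5760, 7280) (by decide +kernel)
               (CovZ.leaf K2_ok TP_l4557 _)
               (CovZ.leaf K2_ok TP_l4558 _))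
              (CovZ.n1 (5680, 7200) (by decide +kernel)
               (CovZ.n2 (5640, 7240) (by decide +kernel)
                (CovZ.leaf K2_ok TP_l4559 _)
                (CovZ.leaf K2_ok TP_l4560 _))
               (CovZ.leaf K2_ok TP_l4561 _)))))
           (CovZ.n1 (5600, 7520) (by decide +kernel)
            (CovZ.n2 (5760, 7520) (by decide +kernel)
             (CovZ.n2 (5680, 7440) (by decide +kernel)
              (CovZ.n2 (5680, 7520) (by decide +kernel)
               (CovZ.n2 (5720, 7480) (by decide +kernel)
                (CovZ.leaf K2_ok TP_l7812 _)
                (CovZ.leaf K2_ok TP_l7813 _))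
               (CovZ.n1 (5640, 7480) (by decide +kernel)
                (CovZ.n2 (5640, 7520) (by decide +kernel)
                 (CovZ.leaf K2_ok TP_l7814 _)
                 (CovZ.badM (by decide +kernel)))
                (CovZ.leaf K2_ok TP_l7815 _)))
              (CovZ.n1 (5760, 7440) (by decide +kernel)
               (CovZ.leaf K2_ok TP_l4562 _)
               (CovZ.n1 (5720, 7480) (by decide +kernel)
                (CovZ.leaf K2_ok TP_l7816 _)
                (CovZ.leaf K2_ok TP_l7817 _))))
             (CovZ.n1 (5680, 7600) (by decide +kernel)
              (CovZ.n2 (5760, 7600) (by decide +kernel)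
               (CovZ.n2 (5720, 7560) (by decide +kernel)
                (CovZ.leaf K2_ok TP_l7818 _)
                (CovZ.leaf K2_ok TP_l7819 _))
               (CovZ.n1 (5720, 7640) (by decide +kernel)
                (CovZ.leaf K2_ok TP_l7820 _)
                (CovZ.leaf K2_ok TP_l7821 _)))
              (CovZ.n1 (5680, 7520) (by decide +kernel)
               (CovZ.n2 (5640, 7560) (by decide +kernel)
                (CovZ.n2 (5680, 7560) (by decide +kernel)
                 (CovZ.leaf K2_ok TP_l7822 _)
                 (CovZ.leaf K2_ok TP_l7823 _))
                (CovZ.n1 (5640, 7520) (by decide +kernel)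
                 (CovZ.badM (by decide +kernel))
                 (CovZ.leaf K2_ok TP_l7824 _)))
               (CovZ.n1 (5720, 7560) (by decide +kernel)
                (CovZ.leaf K2_ok TP_l7825 _)
                (CovZ.leaf K2_ok TP_l7826 _)))))
            (CovZ.n1 (5600, 7360) (by decide +kernel)
             (CovZ.n2 (5520, 7440) (by decide +kernel)
              (CovZ.n2 (5600, 7440) (by decide +kernel)
               (CovZ.n2 (5560, 7400) (by decide +kernel)
                (CovZ.n2 (5560, 7440) (by decide +kernel)
                 (CovZ.n2 (5580, 7420) (by decide +kernel)
                  (CovZ.leaf K2_ok TP_l4563 _)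
                  (CovZ.badM (by decide +kernel)))
                 (CovZ.badM (by decide +kernel)))
                (CovZ.n1 (5600, 7400) (by decide +kernel)
                 (CovZ.n2 (5580, 7380) (by decide +kernel)
                  (CovZ.leaf K2_ok TP_l4564 _)
                  (CovZ.leaf K2_ok TP_l4565 _))
                 (CovZ.n1 (5580, 7420) (by decide +kernel)
                  (CovZ.leaf K2_ok TP_l4566 _)
                  (CovZ.leaf K2_ok TP_l4567 _))))
               (CovZ.badM (by decide +kernel)))
              (CovZ.n1 (5520, 7360) (by decide +kernel)
               (CovZ.badM (by decide +kernel))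
               (CovZ.n1 (5560, 7400) (by decide +kernel)
                (CovZ.n2 (5560, 7360) (by decide +kernel)
                 (CovZ.badM (by decide +kernel))
                 (CovZ.leaf K2_ok TP_l4568 _))
                (CovZ.badM (by decide +kernel)))))
             (CovZ.n1 (5680, 7440) (by decide +kernel)
              (CovZ.n2 (5680, 7360) (by decide +kernel)
               (CovZ.n2 (5640, 7400) (by decide +kernel)
                (CovZ.leaf K2_ok TP_l4569 _)
                (CovZ.leaf K2_ok TP_l4570 _))
               (CovZ.leaf K2_ok TP_l4571 _))
              (CovZ.n1 (5600, 7440) (by decide +kernel)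
               (CovZ.n2 (5640, 7480) (by decide +kernel)
                (CovZ.n2 (5640, 7440) (by decide +kernel)
                 (CovZ.badM (by decide +kernel))
                 (CovZ.leaf K2_ok TP_l7827 _))
                (CovZ.badM (by decide +kernel)))
               (CovZ.n1 (5640, 7400) (by decide +kernel)
                (CovZ.leaf K2_ok TP_l4572 _)
                (CovZ.n1 (5640, 7440) (by decide +kernel)
                 (CovZ.leaf K2_ok TP_l4573 _)
                 (CovZ.leaf K2_ok TP_l4574 _)))))))))))
       (CovZ.n1 (6400, 7040) (by decide +kernel)
        (CovZ.n2 (6080, 6720) (by decide +kernel)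
         (CovZ.n2 (6080, 7040) (by decide +kernel)
          (CovZ.leaf K2_ok TP_l4575 _)
          (CovZ.n1 (5920, 6880) (by decide +kernel)
           (CovZ.n2 (5920, 7040) (by decide +kernel)
            (CovZ.leaf K2_ok TP_l4576 _)
            (CovZ.leaf K2_ok TP_l4577 _))
           (CovZ.leaf K2_ok TP_l4578 _)))
         (CovZ.n1 (6400, 6720) (by decide +kernel)
          (CovZ.leaf K2_ok TP_l4579 _)
          (CovZ.leaf K2_ok TP_l4580 _)))
        (CovZ.subM 10633823966279326983230491666614976512 (by decide +kernel)
         (CovZ.n1 (6080, 7360) (by decide +kernel)
          (CovZ.n2 (6400, 7360) (by decide +kernel)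
           (CovZ.n2 (6240, 7200) (by decide +kernel)
            (CovZ.leaf K2_ok TP_l4581 _)
            (CovZ.leaf K2_ok TP_l4582 _))
           (CovZ.n1 (6240, 7520) (by decide +kernel)
            (CovZ.leaf K2_ok TP_l4583 _)
            (CovZ.leaf K2_ok TP_l4584 _)))
          (CovZ.n1 (6080, 7040) (by decide +kernel)
           (CovZ.n2 (5920, 7200) (by decide +kernel)
            (CovZ.n2 (6080, 7200) (by decide +kernel)
             (CovZ.leaf K2_ok TP_l4585 _)
             (CovZ.leaf K2_ok TP_l4586 _))
            (CovZ.n1 (5920, 7040) (by decide +kernel)
             (CovZ.leaf K2_ok TP_l4587 _)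
             (CovZ.leaf K2_ok TP_l4588 _)))
           (CovZ.leaf K2_ok TP_l4589 _))))))

theorem TP_u47 : CovZ TP_M (toL (selN TP_LN 174309643144852654433270437370196972797952)) [0, 7, 2, 5] (0, 12800) (1280, 14080) (0, 15360) :=
    (CovZ.n2 (0, 14080) (by decide +kernel)
     (CovZ.n2 (640, 14720) (by decide +kernel)
      (CovZ.badM (by decide +kernel))
      (CovZ.n1 (0, 14720) (by decide +kernel)
       (CovZ.n2 (320, 15040) (by decide +kernel)
        (CovZ.n2 (320, 14720) (by decide +kernel)
         (CovZ.n2 (160, 14880) (by decide +kernel)
          (CovZ.n2 (320, 14880) (by decide +kernel)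
           (CovZ.subM 281474976710656 (by decide +kernel)
            (CovZ.n2 (240, 14800) (by decide +kernel)
             (CovZ.leaf K2_ok TP_l7039 _)
             (CovZ.n1 (320, 14800) (by decide +kernel)
              (CovZ.n2 (280, 14760) (by decide +kernel)
               (CovZ.leaf K2_ok TP_l7040 _)
               (CovZ.leaf K2_ok TP_l7041 _))
              (CovZ.leaf K2_ok TP_l7042 _))))
           (CovZ.n1 (240, 14960) (by decide +kernel)
            (CovZ.leaf K2_ok TP_l7043 _)
            (CovZ.n1 (240, 14880) (by decide +kernel)
             (CovZ.leaf K2_ok TP_l7044 _)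
             (CovZ.leaf K2_ok TP_l7045 _))))
          (CovZ.subM 281474976710656 (by decide +kernel)
           (CovZ.n1 (160, 14720) (by decide +kernel)
            (CovZ.badM (by decide +kernel))
            (CovZ.n1 (240, 14800) (by decide +kernel)
             (CovZ.n2 (240, 14720) (by decide +kernel)
              (CovZ.n2 (200, 14760) (by decide +kernel)
               (CovZ.leaf K2_ok TP_l7046 _)
               (CovZ.leaf K2_ok TP_l7047 _))
              (CovZ.n1 (280, 14760) (by decide +kernel)
               (CovZ.n2 (280, 14720) (by decide +kernel)
                (CovZ.leaf K2_ok TP_l7048 _)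
                (CovZ.leaf K2_ok TP_l7049 _))
               (CovZ.leaf K2_ok TP_l7050 _)))
             (CovZ.n1 (160, 14800) (by decide +kernel)
              (CovZ.leaf K2_ok TP_l7051 _)
              (CovZ.n1 (200, 14760) (by decide +kernel)
               (CovZ.leaf K2_ok TP_l7052 _)
               (CovZ.leaf K2_ok TP_l7053 _)))))))
         (CovZ.subM 649037107316853453865379203907584 (by decide +kernel)
          (CovZ.n1 (480, 14880) (by decide +kernel)
           (CovZ.n2 (480, 14720) (by decide +kernel)
            (CovZ.n2 (400, 14800) (by decide +kernel)
             (CovZ.n2 (480, 14800) (by decide +kernel)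
              (CovZ.n2 (440, 14760) (by decide +kernel)
               (CovZ.n2 (440, 14800) (by decide +kernel)
                (CovZ.n2 (460, 14780) (by decide +kernel)
                 (CovZ.leaf K2_ok TP_l7054 _)
                 (CovZ.leaf K2_ok TP_l7055 _))
                (CovZ.leaf K2_ok TP_l7056 _))
               (CovZ.n1 (480, 14760) (by decide +kernel)
                (CovZ.n2 (460, 14740) (by decide +kernel)
                 (CovZ.leaf K2_ok TP_l7057 _)
                 (CovZ.leaf K2_ok TP_l7058 _))
                (CovZ.leaf K2_ok TP_l7059 _)))
              (CovZ.n1 (440, 14840) (by decide +kernel)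
               (CovZ.leaf K2_ok TP_l7060 _)
               (CovZ.n1 (440, 14800) (by decide +kernel)
                (CovZ.leaf K2_ok TP_l7061 _)
                (CovZ.leaf K2_ok TP_l7062 _))))
             (CovZ.n1 (400, 14720) (by decide +kernel)
              (CovZ.n2 (360, 14760) (by decide +kernel)
               (CovZ.leaf K2_ok TP_l7063 _)
               (CovZ.n1 (360, 14720) (by decide +kernel)
                (CovZ.leaf K2_ok TP_l7064 _)
                (CovZ.leaf K2_ok TP_l7065 _)))
              (CovZ.n1 (440, 14760) (by decide +kernel)
               (CovZ.n2 (440, 14720) (by decide +kernel)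
                (CovZ.leaf K2_ok TP_l7066 _)
                (CovZ.n1 (460, 14740) (by decide +kernel)
                 (CovZ.n2 (460, 14720) (by decide +kernel)
                  (CovZ.leaf K2_ok TP_l7067 _)
                  (CovZ.leaf K2_ok TP_l7068 _))
                 (CovZ.leaf K2_ok TP_l7069 _)))
               (CovZ.n1 (400, 14760) (by decide +kernel)
                (CovZ.leaf K2_ok TP_l7070 _)
                (CovZ.leaf K2_ok TP_l7071 _)))))
            (CovZ.n1 (560, 14800) (by decide +kernel)
             (CovZ.n2 (560, 14720) (by decide +kernel)
              (CovZ.n2 (520, 14760) (by decide +kernel)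
               (CovZ.badM (by decide +kernel))
               (CovZ.n1 (520, 14720) (by decide +kernel)
                (CovZ.n2 (500, 14740) (by decide +kernel)
                 (CovZ.leaf K2_ok TP_l7072 _)
                 (CovZ.n1 (500, 14720) (by decide +kernel)
                  (CovZ.leaf K2_ok TP_l7073 _)
                  (CovZ.n1 (510, 14730) (by decide +kernel)
                   (CovZ.badM (by decide +kernel))
                   (CovZ.leaf K2_ok TP_l7074 _))))
                (CovZ.badM (by decide +kernel))))
              (CovZ.badM (by decide +kernel)))
             (CovZ.n1 (480, 14800) (by decide +kernel)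
              (CovZ.n2 (520, 14840) (by decide +kernel)
               (CovZ.n2 (520, 14800) (by decide +kernel)
                (CovZ.leaf K2_ok TP_l7075 _)
                (CovZ.badM (by decide +kernel)))
               (CovZ.n1 (480, 14840) (by decide +kernel)
                (CovZ.leaf K2_ok TP_l7076 _)
                (CovZ.leaf K2_ok TP_l7077 _)))
              (CovZ.n1 (520, 14760) (by decide +kernel)
               (CovZ.n2 (480, 14760) (by decide +kernel)
                (CovZ.n2 (500, 14780) (by decide +kernel)
                 (CovZ.n2 (500, 14760) (by decide +kernel)
                  (CovZ.leaf K2_ok TP_l7078 _)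
                  (CovZ.leaf K2_ok TP_l7079 _))
                 (CovZ.leaf K2_ok TP_l7080 _))
                (CovZ.n1 (500, 14740) (by decide +kernel)
                 (CovZ.leaf K2_ok TP_l7081 _)
                 (CovZ.n1 (500, 14760) (by decide +kernel)
                  (CovZ.leaf K2_ok TP_l7082 _)
                  (CovZ.leaf K2_ok TP_l7083 _))))
               (CovZ.n1 (520, 14800) (by decide +kernel)
                (CovZ.badM (by decide +kernel))
                (CovZ.n1 (500, 14780) (by decide +kernel)
                 (CovZ.leaf K2_ok TP_l7084 _)
                 (CovZ.leaf K2_ok TP_l7085 _)))))))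
           (CovZ.n1 (320, 14880) (by decide +kernel)
            (CovZ.n2 (400, 14960) (by decide +kernel)
             (CovZ.n2 (400, 14880) (by decide +kernel)
              (CovZ.leaf K2_ok TP_l7086 _)
              (CovZ.leaf K2_ok TP_l7087 _))
             (CovZ.n1 (320, 14960) (by decide +kernel)
              (CovZ.leaf K2_ok TP_l7088 _)
              (CovZ.leaf K2_ok TP_l7089 _)))
            (CovZ.n1 (400, 14800) (by decide +kernel)
             (CovZ.n2 (320, 14800) (by decide +kernel)
              (CovZ.n2 (360, 14840) (by decide +kernel)
               (CovZ.n2 (360, 14800) (by decide +kernel)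
                (CovZ.leaf K2_ok TP_l7090 _)
                (CovZ.leaf K2_ok TP_l7091 _))
               (CovZ.leaf K2_ok TP_l7092 _))
              (CovZ.n1 (360, 14760) (by decide +kernel)
               (CovZ.leaf K2_ok TP_l7093 _)
               (CovZ.n1 (360, 14800) (by decide +kernel)
                (CovZ.leaf K2_ok TP_l7094 _)
                (CovZ.leaf K2_ok TP_l7095 _))))
             (CovZ.n1 (400, 14880) (by decide +kernel)
              (CovZ.n2 (440, 14840) (by decide +kernel)
               (CovZ.leaf K2_ok TP_l7096 _)
               (CovZ.leaf K2_ok TP_l7097 _))
              (CovZ.leaf K2_ok TP_l7098 _)))))))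
        (CovZ.n1 (0, 15040) (by decide +kernel)
         (CovZ.n2 (160, 15200) (by decide +kernel)
          (CovZ.n2 (160, 15040) (by decide +kernel)
           (CovZ.leaf K2_ok TP_l7099 _)
           (CovZ.leaf K2_ok TP_l7100 _))
          (CovZ.n1 (0, 15200) (by decide +kernel)
           (CovZ.leaf K2_ok TP_l7101 _)
           (CovZ.leaf K2_ok TP_l7102 _)))
         (CovZ.n1 (160, 14880) (by decide +kernel)
          (CovZ.n2 (0, 14880) (by decide +kernel)
           (CovZ.n2 (80, 14960) (by decide +kernel)
            (CovZ.leaf K2_ok TP_l7103 _)
            (CovZ.leaf K2_ok TP_l7104 _))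
           (CovZ.badM (by decide +kernel)))
          (CovZ.n1 (160, 15040) (by decide +kernel)
           (CovZ.n2 (240, 14960) (by decide +kernel)
            (CovZ.leaf K2_ok TP_l7105 _)
            (CovZ.n1 (240, 15040) (by decide +kernel)
             (CovZ.leaf K2_ok TP_l7106 _)
             (CovZ.leaf K2_ok TP_l7107 _)))
           (CovZ.n1 (80, 14960) (by decide +kernel)
            (CovZ.leaf K2_ok TP_l7108 _)
            (CovZ.leaf K2_ok TP_l7109 _))))))
       (CovZ.badM (by decide +kernel))))
     (CovZ.badM (by decide +kernel)))

theorem TP_u48 : CovZ TP_M (toL (selN TP_LN 174309643144852654433270437370196972797952)) [0, 7, 2, 5] (1280, 14080) (2560, 15360) (0, 15360) :=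
    (CovZ.n1 (1280, 15360) (by decide +kernel)
     (CovZ.badM (by decide +kernel))
     (CovZ.n1 (640, 14720) (by decide +kernel)
      (CovZ.n2 (640, 15360) (by decide +kernel)
       (CovZ.badM (by decide +kernel))
       (CovZ.n1 (320, 15040) (by decide +kernel)
        (CovZ.n2 (320, 15360) (by decide +kernel)
         (CovZ.n2 (480, 15200) (by decide +kernel)
          (CovZ.n2 (320, 15200) (by decide +kernel)
           (CovZ.n2 (400, 15280) (by decide +kernel)
            (CovZ.n2 (400, 15200) (by decide +kernel)
             (CovZ.leaf K2_ok TP_l7110 _)
             (CovZ.leaf K2_ok TP_l7111 _))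
            (CovZ.leaf K2_ok TP_l7112 _))
           (CovZ.n1 (400, 15120) (by decide +kernel)
            (CovZ.leaf K2_ok TP_l7113 _)
            (CovZ.leaf K2_ok TP_l7114 _)))
          (CovZ.n1 (480, 15360) (by decide +kernel)
           (CovZ.subM 649037107316853453847787017863168 (by decide +kernel)
            (CovZ.n2 (560, 15280) (by decide +kernel)
             (CovZ.n2 (480, 15280) (by decide +kernel)
              (CovZ.n2 (520, 15320) (by decide +kernel)
               (CovZ.n2 (520, 15280) (by decide +kernel)
                (CovZ.leaf K2_ok TP_l7115 _)
                (CovZ.badM (by decide +kernel)))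
               (CovZ.leaf K2_ok TP_l7116 _))
              (CovZ.n1 (520, 15240) (by decide +kernel)
               (CovZ.leaf K2_ok TP_l7117 _)
               (CovZ.leaf K2_ok TP_l7118 _)))
             (CovZ.n1 (560, 15360) (by decide +kernel)
              (CovZ.badM (by decide +kernel))
              (CovZ.n1 (520, 15320) (by decide +kernel)
               (CovZ.n2 (520, 15360) (by decide +kernel)
                (CovZ.badM (by decide +kernel))
                (CovZ.leaf K2_ok TP_l7119 _))
               (CovZ.badM (by decide +kernel))))))
           (CovZ.n1 (400, 15280) (by decide +kernel)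
            (CovZ.n2 (400, 15360) (by decide +kernel)
             (CovZ.leaf K2_ok TP_l7120 _)
             (CovZ.leaf K2_ok TP_l7121 _))
            (CovZ.n1 (480, 15280) (by decide +kernel)
             (CovZ.leaf K2_ok TP_l7122 _)
             (CovZ.leaf K2_ok TP_l7123 _)))))
         (CovZ.n1 (160, 15200) (by decide +kernel)
          (CovZ.n2 (160, 15360) (by decide +kernel)
           (CovZ.leaf K2_ok TP_l7124 _)
           (CovZ.leaf K2_ok TP_l7125 _))
          (CovZ.n1 (320, 15200) (by decide +kernel)
           (CovZ.leaf K2_ok TP_l7126 _)
           (CovZ.leaf K2_ok TP_l7127 _))))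
        (CovZ.n1 (640, 15040) (by decide +kernel)
         (CovZ.subM 649037107316853453865379203907584 (by decide +kernel)
          (CovZ.n2 (480, 14880) (by decide +kernel)
           (CovZ.n2 (480, 15040) (by decide +kernel)
            (CovZ.n2 (560, 14960) (by decide +kernel)
             (CovZ.n2 (480, 14960) (by decide +kernel)
              (CovZ.leaf K2_ok TP_l7128 _)
              (CovZ.n1 (520, 14920) (by decide +kernel)
               (CovZ.leaf K2_ok TP_l7129 _)
               (CovZ.leaf K2_ok TP_l7130 _)))
             (CovZ.n1 (560, 15040) (by decide +kernel)
              (CovZ.n2 (600, 15000) (by decide +kernel)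
               (CovZ.leaf K2_ok TP_l7131 _)
               (CovZ.n1 (600, 15040) (by decide +kernel)
                (CovZ.leaf K2_ok TP_l7132 _)
                (CovZ.leaf K2_ok TP_l7133 _)))
              (CovZ.leaf K2_ok TP_l7134 _)))
            (CovZ.n1 (400, 14960) (by decide +kernel)
             (CovZ.leaf K2_ok TP_l7135 _)
             (CovZ.n1 (480, 14960) (by decide +kernel)
              (CovZ.n2 (440, 14920) (by decide +kernel)
               (CovZ.leaf K2_ok TP_l7136 _)
               (CovZ.leaf K2_ok TP_l7137 _))
              (CovZ.leaf K2_ok TP_l7138 _))))
           (CovZ.n1 (640, 14880) (by decide +kernel)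
            (CovZ.n2 (560, 14800) (by decide +kernel)
             (CovZ.n2 (560, 14880) (by decide +kernel)
              (CovZ.badM (by decide +kernel))
              (CovZ.n1 (520, 14840) (by decide +kernel)
               (CovZ.n2 (520, 14880) (by decide +kernel)
                (CovZ.badM (by decide +kernel))
                (CovZ.leaf K2_ok TP_l7139 _))
               (CovZ.badM (by decide +kernel))))
             (CovZ.badM (by decide +kernel)))
            (CovZ.n1 (560, 14960) (by decide +kernel)
             (CovZ.n2 (640, 14960) (by decide +kernel)
              (CovZ.n2 (600, 14920) (by decide +kernel)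
               (CovZ.leaf K2_ok TP_l7140 _)
               (CovZ.n1 (640, 14920) (by decide +kernel)
                (CovZ.leaf K2_ok TP_l7141 _)
                (CovZ.leaf K2_ok TP_l7142 _)))
              (CovZ.n1 (600, 15000) (by decide +kernel)
               (CovZ.n2 (640, 15000) (by decide +kernel)
                (CovZ.leaf K2_ok TP_l7143 _)
                (CovZ.leaf K2_ok TP_l7144 _))
               (CovZ.n1 (600, 14960) (by decide +kernel)
                (CovZ.leaf K2_ok TP_l7145 _)
                (CovZ.leaf K2_ok TP_l7146 _))))
             (CovZ.n1 (560, 14880) (by decide +kernel)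
              (CovZ.n2 (520, 14920) (by decide +kernel)
               (CovZ.leaf K2_ok TP_l7147 _)
               (CovZ.n1 (520, 14880) (by decide +kernel)
                (CovZ.leaf K2_ok TP_l7148 _)
                (CovZ.leaf K2_ok TP_l7149 _)))
              (CovZ.n1 (600, 14920) (by decide +kernel)
               (CovZ.n2 (600, 14880) (by decide +kernel)
                (CovZ.leaf K2_ok TP_l7150 _)
                (CovZ.leaf K2_ok TP_l7151 _))
               (CovZ.leaf K2_ok TP_l7152 _)))))))
         (CovZ.n1 (480, 15200) (by decide +kernel)
          (CovZ.subM 649037107316853453847787017863168 (by decide +kernel)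
           (CovZ.n2 (640, 15200) (by decide +kernel)
            (CovZ.n2 (560, 15120) (by decide +kernel)
             (CovZ.n2 (560, 15200) (by decide +kernel)
              (CovZ.n2 (600, 15160) (by decide +kernel)
               (CovZ.n2 (560, 15160) (by decide +kernel)
                (CovZ.leaf K2_ok TP_l7153 _)
                (CovZ.leaf K2_ok TP_l7154 _))
               (CovZ.n1 (600, 15200) (by decide +kernel)
                (CovZ.n2 (620, 15180) (by decide +kernel)
                 (CovZ.leaf K2_ok TP_l7155 _)
                 (CovZ.n1 (620, 15200) (by decide +kernel)
                  (CovZ.n2 (630, 15190) (by decide +kernel)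
                   (CovZ.leaf K2_ok TP_l7156 _)
                   (CovZ.leaf K2_ok TP_l7157 _))
                  (CovZ.leaf K2_ok TP_l7158 _)))
                (CovZ.leaf K2_ok TP_l7159 _)))
              (CovZ.n1 (520, 15160) (by decide +kernel)
               (CovZ.leaf K2_ok TP_l7160 _)
               (CovZ.leaf K2_ok TP_l7161 _)))
             (CovZ.n1 (640, 15120) (by decide +kernel)
              (CovZ.n2 (600, 15080) (by decide +kernel)
               (CovZ.n2 (600, 15120) (by decide +kernel)
                (CovZ.n2 (620, 15100) (by decide +kernel)
                 (CovZ.leaf K2_ok TP_l7162 _)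
                 (CovZ.leaf K2_ok TP_l7163 _))
                (CovZ.leaf K2_ok TP_l7164 _))
               (CovZ.n1 (640, 15080) (by decide +kernel)
                (CovZ.n2 (620, 15060) (by decide +kernel)
                 (CovZ.leaf K2_ok TP_l7165 _)
                 (CovZ.leaf K2_ok TP_l7166 _))
                (CovZ.n1 (620, 15100) (by decide +kernel)
                 (CovZ.n2 (640, 15100) (by decide +kernel)
                  (CovZ.leaf K2_ok TP_l7167 _)
                  (CovZ.leaf K2_ok TP_l7168 _))
                 (CovZ.leaf K2_ok TP_l7169 _))))
              (CovZ.n1 (600, 15160) (by decide +kernel)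
               (CovZ.n2 (640, 15160) (by decide +kernel)
                (CovZ.n2 (620, 15140) (by decide +kernel)
                 (CovZ.n2 (620, 15160) (by decide +kernel)
                  (CovZ.leaf K2_ok TP_l7170 _)
                  (CovZ.leaf K2_ok TP_l7171 _))
                 (CovZ.n1 (640, 15140) (by decide +kernel)
                  (CovZ.leaf K2_ok TP_l7172 _)
                  (CovZ.leaf K2_ok TP_l7173 _)))
                (CovZ.n1 (620, 15180) (by decide +kernel)
                 (CovZ.n2 (640, 15180) (by decide +kernel)
                  (CovZ.leaf K2_ok TP_l7174 _)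
                  (CovZ.n1 (630, 15190) (by decide +kernel)
                   (CovZ.badM (by decide +kernel))
                   (CovZ.leaf K2_ok TP_l7175 _)))
                 (CovZ.n1 (620, 15160) (by decide +kernel)
                  (CovZ.leaf K2_ok TP_l7176 _)
                  (CovZ.leaf K2_ok TP_l7177 _))))
               (CovZ.n1 (600, 15120) (by decide +kernel)
                (CovZ.leaf K2_ok TP_l7178 _)
                (CovZ.n1 (620, 15140) (by decide +kernel)
                 (CovZ.n2 (620, 15120) (by decide +kernel)
                  (CovZ.leaf K2_ok TP_l7179 _)
                  (CovZ.leaf K2_ok TP_l7180 _))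
                 (CovZ.leaf K2_ok TP_l7181 _))))))
            (CovZ.n1 (560, 15280) (by decide +kernel)
             (CovZ.n2 (640, 15280) (by decide +kernel)
              (CovZ.n2 (600, 15240) (by decide +kernel)
               (CovZ.badM (by decide +kernel))
               (CovZ.n1 (640, 15240) (by decide +kernel)
                (CovZ.n2 (620, 15220) (by decide +kernel)
                 (CovZ.n2 (620, 15240) (by decide +kernel)
                  (CovZ.n2 (630, 15230) (by decide +kernel)
                   (CovZ.leaf K2_ok TP_l7182 _)
                   (CovZ.n1 (630, 15240) (by decide +kernel)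
                    (CovZ.badM (by decide +kernel))
                    (CovZ.leaf K2_ok TP_l7183 _)))
                  (CovZ.leaf K2_ok TP_l7184 _))
                 (CovZ.n1 (640, 15220) (by decide +kernel)
                  (CovZ.n2 (630, 15210) (by decide +kernel)
                   (CovZ.leaf K2_ok TP_l7185 _)
                   (CovZ.badM (by decide +kernel)))
                  (CovZ.n1 (630, 15230) (by decide +kernel)
                   (CovZ.badM (by decide +kernel))
                   (CovZ.n1 (630, 15220) (by decide +kernel)
                    (CovZ.leaf K2_ok TP_l7186 _)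
                    (CovZ.badM (by decide +kernel))))))
                (CovZ.badM (by decide +kernel))))
              (CovZ.badM (by decide +kernel)))
             (CovZ.n1 (560, 15200) (by decide +kernel)
              (CovZ.n2 (520, 15240) (by decide +kernel)
               (CovZ.n2 (560, 15240) (by decide +kernel)
                (CovZ.leaf K2_ok TP_l7187 _)
                (CovZ.badM (by decide +kernel)))
               (CovZ.n1 (520, 15200) (by decide +kernel)
                (CovZ.leaf K2_ok TP_l7188 _)
                (CovZ.leaf K2_ok TP_l7189 _)))
              (CovZ.n1 (600, 15240) (by decide +kernel)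
               (CovZ.n2 (600, 15200) (by decide +kernel)
                (CovZ.leaf K2_ok TP_l7190 _)
                (CovZ.n1 (620, 15220) (by decide +kernel)
                 (CovZ.n2 (620, 15200) (by decide +kernel)
                  (CovZ.leaf K2_ok TP_l7191 _)
                  (CovZ.n1 (630, 15210) (by decide +kernel)
                   (CovZ.leaf K2_ok TP_l7192 _)
                   (CovZ.leaf K2_ok TP_l7193 _)))
                 (CovZ.n1 (600, 15220) (by decide +kernel)
                  (CovZ.leaf K2_ok TP_l7194 _)
                  (CovZ.leaf K2_ok TP_l7195 _))))
               (CovZ.n1 (560, 15240) (by decide +kernel)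
                (CovZ.badM (by decide +kernel))
                (CovZ.leaf K2_ok TP_l7196 _)))))))
          (CovZ.n1 (480, 15040) (by decide +kernel)
           (CovZ.n2 (400, 15120) (by decide +kernel)
            (CovZ.leaf K2_ok TP_l7197 _)
            (CovZ.leaf K2_ok TP_l7198 _))
           (CovZ.subM 649037107316853453847787017863168 (by decide +kernel)
            (CovZ.n1 (560, 15120) (by decide +kernel)
             (CovZ.n2 (560, 15040) (by decide +kernel)
              (CovZ.leaf K2_ok TP_l7199 _)
              (CovZ.n1 (600, 15080) (by decide +kernel)
               (CovZ.n2 (600, 15040) (by decide +kernel)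
                (CovZ.leaf K2_ok TP_l7200 _)
                (CovZ.n1 (620, 15060) (by decide +kernel)
                 (CovZ.leaf K2_ok TP_l7201 _)
                 (CovZ.leaf K2_ok TP_l7202 _)))
               (CovZ.n1 (560, 15080) (by decide +kernel)
                (CovZ.leaf K2_ok TP_l7203 _)
                (CovZ.leaf K2_ok TP_l7204 _))))
             (CovZ.n1 (480, 15120) (by decide +kernel)
              (CovZ.n2 (520, 15160) (by decide +kernel)
               (CovZ.leaf K2_ok TP_l7205 _)
               (CovZ.leaf K2_ok TP_l7206 _))
              (CovZ.leaf K2_ok TP_l7207 _)))))))))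
      (CovZ.badM (by decide +kernel))))

theorem TP_u49 : CovZ TP_M (toL (selN TP_LN 174309642455256298639290751144925671194624)) [0, 7, 2, 5] (0, 16640) (-640, 16640) (-640, 16000) :=
    (CovZ.n2 (-320, 16320) (by decide +kernel)
         (CovZ.n2 (-640, 16320) (by decide +kernel)
          (CovZ.n2 (-480, 16480) (by decide +kernel)
           (CovZ.n2 (-480, 16320) (by decide +kernel)
            (CovZ.subM 4951760157465780272769269760 (by decide +kernel)
             (CovZ.n2 (-560, 16400) (by decide +kernel)
              (CovZ.n2 (-480, 16400) (by decide +kernel)
               (CovZ.leaf K2_ok TP_l5339 _)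
               (CovZ.leaf K2_ok TP_l5340 _))
              (CovZ.n1 (-560, 16320) (by decide +kernel)
               (CovZ.n2 (-600, 16360) (by decide +kernel)
                (CovZ.leaf K2_ok TP_l5341 _)
                (CovZ.n1 (-600, 16320) (by decide +kernel)
                 (CovZ.leaf K2_ok TP_l5342 _)
                 (CovZ.leaf K2_ok TP_l5343 _)))
               (CovZ.leaf K2_ok TP_l5344 _))))
            (CovZ.n1 (-400, 16400) (by decide +kernel)
             (CovZ.leaf K2_ok TP_l5345 _)
             (CovZ.leaf K2_ok TP_l5346 _)))
           (CovZ.subM 4951760157465780272769269760 (by decide +kernel)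
            (CovZ.n1 (-640, 16480) (by decide +kernel)
             (CovZ.n2 (-560, 16560) (by decide +kernel)
              (CovZ.n2 (-560, 16480) (by decide +kernel)
               (CovZ.n2 (-600, 16520) (by decide +kernel)
                (CovZ.leaf K2_ok TP_l5347 _)
                (CovZ.leaf K2_ok TP_l5348 _))
               (CovZ.leaf K2_ok TP_l5349 _))
              (CovZ.n1 (-640, 16560) (by decide +kernel)
               (CovZ.leaf K2_ok TP_l5350 _)
               (CovZ.n1 (-600, 16520) (by decide +kernel)
                (CovZ.leaf K2_ok TP_l5351 _)
                (CovZ.leaf K2_ok TP_l5352 _))))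
             (CovZ.n1 (-560, 16400) (by decide +kernel)
              (CovZ.n2 (-640, 16400) (by decide +kernel)
               (CovZ.n2 (-600, 16440) (by decide +kernel)
                (CovZ.n2 (-600, 16400) (by decide +kernel)
                 (CovZ.leaf K2_ok TP_l5353 _)
                 (CovZ.leaf K2_ok TP_l5354 _))
                (CovZ.leaf K2_ok TP_l5355 _))
               (CovZ.n1 (-600, 16360) (by decide +kernel)
                (CovZ.n2 (-640, 16360) (by decide +kernel)
                 (CovZ.leaf K2_ok TP_l5356 _)
                 (CovZ.n1 (-620, 16340) (by decide +kernel)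
                  (CovZ.leaf K2_ok TP_l5357 _)
                  (CovZ.leaf K2_ok TP_l5358 _)))
                (CovZ.n1 (-600, 16400) (by decide +kernel)
                 (CovZ.leaf K2_ok TP_l5359 _)
                 (CovZ.leaf K2_ok TP_l5360 _))))
              (CovZ.n1 (-560, 16480) (by decide +kernel)
               (CovZ.leaf K2_ok TP_l5361 _)
               (CovZ.n1 (-600, 16440) (by decide +kernel)
                (CovZ.n2 (-600, 16480) (by decide +kernel)
                 (CovZ.leaf K2_ok TP_l5362 _)
                 (CovZ.leaf K2_ok TP_l5363 _))
                (CovZ.leaf K2_ok TP_l5364 _)))))))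
          (CovZ.n1 (-480, 16160) (by decide +kernel)
           (CovZ.subM 4951760157177549896617558016 (by decide +kernel)
            (CovZ.n2 (-640, 16160) (by decide +kernel)
             (CovZ.n2 (-560, 16240) (by decide +kernel)
              (CovZ.n2 (-560, 16160) (by decide +kernel)
               (CovZ.n2 (-600, 16200) (by decide +kernel)
                (CovZ.n2 (-560, 16200) (by decide +kernel)
                 (CovZ.n2 (-580, 16180) (by decide +kernel)
                  (CovZ.leaf K2_ok TP_l5365 _)
                  (CovZ.leaf K2_ok TP_l5366 _))
                 (CovZ.leaf K2_ok TP_l5367 _))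
                (CovZ.n1 (-600, 16160) (by decide +kernel)
                 (CovZ.badM (by decide +kernel))
                 (CovZ.n1 (-580, 16180) (by decide +kernel)
                  (CovZ.leaf K2_ok TP_l5368 _)
                  (CovZ.leaf K2_ok TP_l5369 _))))
               (CovZ.n1 (-520, 16200) (by decide +kernel)
                (CovZ.n2 (-520, 16160) (by decide +kernel)
                 (CovZ.leaf K2_ok TP_l5370 _)
                 (CovZ.leaf K2_ok TP_l5371 _))
                (CovZ.leaf K2_ok TP_l5372 _)))
              (CovZ.n1 (-640, 16240) (by decide +kernel)
               (CovZ.n2 (-600, 16280) (by decide +kernel)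
                (CovZ.n2 (-600, 16240) (by decide +kernel)
                 (CovZ.badM (by decide +kernel))
                 (CovZ.leaf K2_ok TP_l5373 _))
                (CovZ.n1 (-640, 16280) (by decide +kernel)
                 (CovZ.n2 (-620, 16300) (by decide +kernel)
                  (CovZ.leaf K2_ok TP_l5374 _)
                  (CovZ.leaf K2_ok TP_l5375 _))
                 (CovZ.badM (by decide +kernel))))
               (CovZ.n1 (-600, 16200) (by decide +kernel)
                (CovZ.badM (by decide +kernel))
                (CovZ.n1 (-600, 16240) (by decide +kernel)
                 (CovZ.leaf K2_ok TP_l5376 _)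
                 (CovZ.badM (by decide +kernel))))))
             (CovZ.n1 (-560, 16080) (by decide +kernel)
              (CovZ.n2 (-640, 16080) (by decide +kernel)
               (CovZ.n2 (-600, 16120) (by decide +kernel)
                (CovZ.n2 (-600, 16080) (by decide +kernel)
                 (CovZ.badM (by decide +kernel))
                 (CovZ.n1 (-580, 16100) (by decide +kernel)
                  (CovZ.n2 (-580, 16080) (by decide +kernel)
                   (CovZ.leaf K2_ok TP_l5377 _)
                   (CovZ.leaf K2_ok TP_l5378 _))
                  (CovZ.n1 (-600, 16100) (by decide +kernel)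
                   (CovZ.leaf K2_ok TP_l5379 _)
                   (CovZ.leaf K2_ok TP_l5380 _))))
                (CovZ.badM (by decide +kernel)))
               (CovZ.n1 (-600, 16040) (by decide +kernel)
                (CovZ.badM (by decide +kernel))
                (CovZ.n1 (-600, 16080) (by decide +kernel)
                 (CovZ.n2 (-580, 16060) (by decide +kernel)
                  (CovZ.n2 (-600, 16060) (by decide +kernel)
                   (CovZ.n2 (-590, 16070) (by decide +kernel)
                    (CovZ.leaf K2_ok TP_l5381 _)
                    (CovZ.leaf K2_ok TP_l5382 _))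
                   (CovZ.n1 (-590, 16050) (by decide +kernel)
                    (CovZ.n2 (-600, 16050) (by decide +kernel)
                     (CovZ.leaf K2_ok TP_l5383 _)
                     (CovZ.leaf K2_ok TP_l5384 _))
                    (CovZ.n1 (-590, 16060) (by decide +kernel)
                     (CovZ.leaf K2_ok TP_l5385 _)
                     (CovZ.leaf K2_ok TP_l5386 _))))
                  (CovZ.n1 (-580, 16080) (by decide +kernel)
                   (CovZ.leaf K2_ok TP_l5387 _)
                   (CovZ.n1 (-590, 16070) (by decide +kernel)
                    (CovZ.n2 (-590, 16080) (by decide +kernel)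
                     (CovZ.leaf K2_ok TP_l5388 _)
                     (CovZ.leaf K2_ok TP_l5389 _))
                    (CovZ.leaf K2_ok TP_l5390 _))))
                 (CovZ.badM (by decide +kernel)))))
              (CovZ.n1 (-560, 16160) (by decide +kernel)
               (CovZ.n2 (-520, 16120) (by decide +kernel)
                (CovZ.n2 (-560, 16120) (by decide +kernel)
                 (CovZ.leaf K2_ok TP_l5391 _)
                 (CovZ.n1 (-540, 16100) (by decide +kernel)
                  (CovZ.leaf K2_ok TP_l5392 _)
                  (CovZ.leaf K2_ok TP_l5393 _)))
                (CovZ.n1 (-520, 16160) (by decide +kernel)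
                 (CovZ.leaf K2_ok TP_l5394 _)
                 (CovZ.leaf K2_ok TP_l5395 _)))
               (CovZ.n1 (-600, 16120) (by decide +kernel)
                (CovZ.n2 (-600, 16160) (by decide +kernel)
                 (CovZ.n2 (-580, 16140) (by decide +kernel)
                  (CovZ.leaf K2_ok TP_l5396 _)
                  (CovZ.n1 (-580, 16160) (by decide +kernel)
                   (CovZ.leaf K2_ok TP_l5397 _)
                   (CovZ.leaf K2_ok TP_l5398 _)))
                 (CovZ.badM (by decide +kernel)))
                (CovZ.n1 (-560, 16120) (by decide +kernel)
                 (CovZ.n2 (-580, 16100) (by decide +kernel)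
                  (CovZ.n2 (-580, 16120) (by decide +kernel)
                   (CovZ.leaf K2_ok TP_l5399 _)
                   (CovZ.leaf K2_ok TP_l5400 _))
                  (CovZ.leaf K2_ok TP_l5401 _))
                 (CovZ.n1 (-580, 16140) (by decide +kernel)
                  (CovZ.leaf K2_ok TP_l5402 _)
                  (CovZ.n1 (-580, 16120) (by decide +kernel)
                   (CovZ.leaf K2_ok TP_l5403 _)
                   (CovZ.leaf K2_ok TP_l5404 _)))))))))
           (CovZ.n1 (-480, 16320) (by decide +kernel)
            (CovZ.n2 (-400, 16240) (by decide +kernel)
             (CovZ.n2 (-480, 16240) (by decide +kernel)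
              (CovZ.leaf K2_ok TP_l5405 _)
              (CovZ.leaf K2_ok TP_l5406 _))
             (CovZ.n1 (-400, 16320) (by decide +kernel)
              (CovZ.leaf K2_ok TP_l5407 _)
              (CovZ.leaf K2_ok TP_l5408 _)))
            (CovZ.subM 4951760157177549896617558016 (by decide +kernel)
             (CovZ.n1 (-560, 16240) (by decide +kernel)
              (CovZ.n2 (-560, 16320) (by decide +kernel)
               (CovZ.n2 (-520, 16280) (by decide +kernel)
                (CovZ.leaf K2_ok TP_l5409 _)
                (CovZ.leaf K2_ok TP_l5410 _))
               (CovZ.n1 (-600, 16280) (by decide +kernel)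
                (CovZ.n2 (-600, 16320) (by decide +kernel)
                 (CovZ.leaf K2_ok TP_l5411 _)
                 (CovZ.n1 (-620, 16300) (by decide +kernel)
                  (CovZ.leaf K2_ok TP_l5412 _)
                  (CovZ.leaf K2_ok TP_l5413 _)))
                (CovZ.n1 (-560, 16280) (by decide +kernel)
                 (CovZ.leaf K2_ok TP_l5414 _)
                 (CovZ.leaf K2_ok TP_l5415 _))))
              (CovZ.n1 (-480, 16240) (by decide +kernel)
               (CovZ.n2 (-520, 16200) (by decide +kernel)
                (CovZ.n2 (-520, 16240) (by decide +kernel)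
                 (CovZ.leaf K2_ok TP_l5416 _)
                 (CovZ.leaf K2_ok TP_l5417 _))
                (CovZ.leaf K2_ok TP_l5418 _))
               (CovZ.n1 (-520, 16280) (by decide +kernel)
                (CovZ.leaf K2_ok TP_l5419 _)
                (CovZ.leaf K2_ok TP_l5420 _))))))))
         (CovZ.n1 (-320, 16640) (by decide +kernel)
          (CovZ.n2 (-160, 16480) (by decide +kernel)
           (CovZ.n2 (-320, 16480) (by decide +kernel)
            (CovZ.leaf K2_ok TP_l0 _)
            (CovZ.leaf K2_ok TP_l1 _))
           (CovZ.n1 (-160, 16640) (by decide +kernel)
            (CovZ.leaf K2_ok TP_l2 _)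
            (CovZ.leaf K2_ok TP_l3 _)))
          (CovZ.n1 (-480, 16480) (by decide +kernel)
           (CovZ.n2 (-480, 16640) (by decide +kernel)
            (CovZ.leaf K2_ok TP_l5421 _)
            (CovZ.n1 (-560, 16560) (by decide +kernel)
             (CovZ.n2 (-560, 16640) (by decide +kernel)
              (CovZ.leaf K2_ok TP_l5422 _)
              (CovZ.leaf K2_ok TP_l5423 _))
             (CovZ.leaf K2_ok TP_l5424 _)))
           (CovZ.n1 (-320, 16480) (by decide +kernel)
            (CovZ.n2 (-400, 16400) (by decide +kernel)
             (CovZ.leaf K2_ok TP_l5425 _)
             (CovZ.leaf K2_ok TP_l5426 _))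
            (CovZ.leaf K2_ok TP_l5427 _)))))

theorem TP_u50 : CovZ TP_M (toL (selN TP_LN 174309642455256298639290751144925671194624)) [0, 7, 2, 5] (-640, 16640) (-1280, 16640) (-640, 16000) :=
    (CovZ.subM 288230376151711744 (by decide +kernel)
         (CovZ.n1 (-960, 16320) (by decide +kernel)
          (CovZ.n2 (-960, 16640) (by decide +kernel)
           (CovZ.n2 (-800, 16480) (by decide +kernel)
            (CovZ.badM (by decide +kernel))
            (CovZ.n1 (-800, 16640) (by decide +kernel)
             (CovZ.n2 (-720, 16560) (by decide +kernel)
              (CovZ.badM (by decide +kernel))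
              (CovZ.n1 (-720, 16640) (by decide +kernel)
               (CovZ.n2 (-680, 16600) (by decide +kernel)
                (CovZ.badM (by decide +kernel))
                (CovZ.badM (by decide +kernel)))
               (CovZ.badM (by decide +kernel))))
             (CovZ.badM (by decide +kernel))))
           (CovZ.badM (by decide +kernel)))
          (CovZ.n1 (-640, 16320) (by decide +kernel)
           (CovZ.badM (by decide +kernel))
           (CovZ.n1 (-800, 16480) (by decide +kernel)
            (CovZ.n2 (-640, 16480) (by decide +kernel)
             (CovZ.n2 (-720, 16400) (by decide +kernel)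
              (CovZ.n2 (-720, 16480) (by decide +kernel)
               (CovZ.n2 (-680, 16440) (by decide +kernel)
                (CovZ.badM (by decide +kernel))
                (CovZ.n1 (-680, 16480) (by decide +kernel)
                 (CovZ.n2 (-660, 16460) (by decide +kernel)
                  (CovZ.leaf K2_ok TP_l5428 _)
                  (CovZ.leaf K2_ok TP_l5429 _))
                 (CovZ.badM (by decide +kernel))))
               (CovZ.badM (by decide +kernel)))
              (CovZ.n1 (-640, 16400) (by decide +kernel)
               (CovZ.n2 (-680, 16360) (by decide +kernel)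
                (CovZ.n2 (-680, 16400) (by decide +kernel)
                 (CovZ.n2 (-660, 16380) (by decide +kernel)
                  (CovZ.n2 (-680, 16380) (by decide +kernel)
                   (CovZ.leaf K2_ok TP_l5430 _)
                   (CovZ.leaf K2_ok TP_l5431 _))
                  (CovZ.n1 (-660, 16400) (by decide +kernel)
                   (CovZ.leaf K2_ok TP_l5432 _)
                   (CovZ.leaf K2_ok TP_l5433 _)))
                 (CovZ.badM (by decide +kernel)))
                (CovZ.n1 (-640, 16360) (by decide +kernel)
                 (CovZ.badM (by decide +kernel))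
                 (CovZ.n1 (-660, 16380) (by decide +kernel)
                  (CovZ.leaf K2_ok TP_l5434 _)
                  (CovZ.n1 (-660, 16360) (by decide +kernel)
                   (CovZ.leaf K2_ok TP_l5435 _)
                   (CovZ.leaf K2_ok TP_l5436 _)))))
               (CovZ.n1 (-680, 16440) (by decide +kernel)
                (CovZ.n2 (-640, 16440) (by decide +kernel)
                 (CovZ.n2 (-660, 16420) (by decide +kernel)
                  (CovZ.n2 (-660, 16440) (by decide +kernel)
                   (CovZ.leaf K2_ok TP_l5437 _)
                   (CovZ.leaf K2_ok TP_l5438 _))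
                  (CovZ.leaf K2_ok TP_l5439 _))
                 (CovZ.leaf K2_ok TP_l5440 _))
                (CovZ.n1 (-680, 16400) (by decide +kernel)
                 (CovZ.badM (by decide +kernel))
                 (CovZ.n1 (-660, 16420) (by decide +kernel)
                  (CovZ.leaf K2_ok TP_l5441 _)
                  (CovZ.leaf K2_ok TP_l5442 _))))))
             (CovZ.n1 (-720, 16560) (by decide +kernel)
              (CovZ.n2 (-640, 16560) (by decide +kernel)
               (CovZ.n2 (-680, 16520) (by decide +kernel)
                (CovZ.n2 (-680, 16560) (by decide +kernel)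
                 (CovZ.leaf K2_ok TP_l5443 _)
                 (CovZ.badM (by decide +kernel)))
                (CovZ.n1 (-640, 16520) (by decide +kernel)
                 (CovZ.leaf K2_ok TP_l5444 _)
                 (CovZ.leaf K2_ok TP_l5445 _)))
               (CovZ.n1 (-680, 16600) (by decide +kernel)
                (CovZ.leaf K2_ok TP_l5446 _)
                (CovZ.n1 (-680, 16560) (by decide +kernel)
                 (CovZ.badM (by decide +kernel))
                 (CovZ.leaf K2_ok TP_l5447 _))))
              (CovZ.n1 (-720, 16480) (by decide +kernel)
               (CovZ.badM (by decide +kernel))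
               (CovZ.n1 (-680, 16520) (by decide +kernel)
                (CovZ.n2 (-680, 16480) (by decide +kernel)
                 (CovZ.badM (by decide +kernel))
                 (CovZ.leaf K2_ok TP_l5448 _))
                (CovZ.badM (by decide +kernel))))))
            (CovZ.n1 (-800, 16320) (by decide +kernel)
             (CovZ.badM (by decide +kernel))
             (CovZ.n1 (-720, 16400) (by decide +kernel)
              (CovZ.n2 (-720, 16320) (by decide +kernel)
               (CovZ.badM (by decide +kernel))
               (CovZ.n1 (-680, 16360) (by decide +kernel)
                (CovZ.badM (by decide +kernel))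
                (CovZ.badM (by decide +kernel))))
              (CovZ.badM (by decide +kernel))))))))

theorem TP_u51 : CovZ TP_M (toL (selN TP_LN 174309642456127924804947510395971343517696)) [0, 7, 2, 5] (0, 15360) (0, 16640) (-1280, 16640) :=
    (CovZ.subM 174309642455256298639290751144925671194624 (by decide +kernel)
      (CovZ.n2 (-640, 16000) (by decide +kernel)
       (CovZ.n2 (-640, 16640) (by decide +kernel)
        TP_u49
        TP_u50)
       (CovZ.n1 (0, 16000) (by decide +kernel)
        (CovZ.subM 174309642455250727909113642674515452362752 (by decide +kernel)
         (CovZ.n2 (-320, 15680) (by decide +kernel)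
          (CovZ.n2 (-320, 16000) (by decide +kernel)
           (CovZ.n2 (-160, 15840) (by decide +kernel)
            (CovZ.n2 (-320, 15840) (by decide +kernel)
             (CovZ.n2 (-240, 15920) (by decide +kernel)
              (CovZ.leaf K2_ok TP_l4 _)
              (CovZ.leaf K2_ok TP_l5 _))
             (CovZ.n1 (-240, 15760) (by decide +kernel)
              (CovZ.n2 (-320, 15760) (by decide +kernel)
               (CovZ.leaf K2_ok TP_l5449 _)
               (CovZ.leaf K2_ok TP_l5450 _))
              (CovZ.n1 (-240, 15840) (by decide +kernel)
               (CovZ.leaf K2_ok TP_l5451 _)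
               (CovZ.leaf K2_ok TP_l5452 _))))
            (CovZ.n1 (-160, 16000) (by decide +kernel)
             (CovZ.leaf K2_ok TP_l6 _)
             (CovZ.n1 (-240, 15920) (by decide +kernel)
              (CovZ.leaf K2_ok TP_l7 _)
              (CovZ.leaf K2_ok TP_l8 _))))
           (CovZ.n1 (-480, 15840) (by decide +kernel)
            (CovZ.n2 (-480, 16000) (by decide +kernel)
             (CovZ.n2 (-400, 15920) (by decide +kernel)
              (CovZ.n2 (-480, 15920) (by decide +kernel)
               (CovZ.n2 (-440, 15960) (by decide +kernel)
                (CovZ.n2 (-440, 15920) (by decide +kernel)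
                 (CovZ.badM (by decide +kernel))
                 (CovZ.leaf K2_ok TP_l5453 _))
                (CovZ.badM (by decide +kernel)))
               (CovZ.n1 (-440, 15880) (by decide +kernel)
                (CovZ.badM (by decide +kernel))
                (CovZ.n1 (-440, 15920) (by decide +kernel)
                 (CovZ.leaf K2_ok TP_l5454 _)
                 (CovZ.badM (by decide +kernel)))))
              (CovZ.n1 (-400, 16000) (by decide +kernel)
               (CovZ.leaf K2_ok TP_l5455 _)
               (CovZ.n1 (-440, 15960) (by decide +kernel)
                (CovZ.leaf K2_ok TP_l5456 _)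
                (CovZ.leaf K2_ok TP_l5457 _))))
             (CovZ.badM (by decide +kernel)))
            (CovZ.n1 (-320, 15840) (by decide +kernel)
             (CovZ.n2 (-400, 15760) (by decide +kernel)
              (CovZ.n2 (-400, 15840) (by decide +kernel)
               (CovZ.n2 (-360, 15800) (by decide +kernel)
                (CovZ.leaf K2_ok TP_l5458 _)
                (CovZ.leaf K2_ok TP_l5459 _))
               (CovZ.n1 (-440, 15800) (by decide +kernel)
                (CovZ.n2 (-440, 15840) (by decide +kernel)
                 (CovZ.leaf K2_ok TP_l5460 _)
                 (CovZ.badM (by decide +kernel)))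
                (CovZ.n1 (-400, 15800) (by decide +kernel)
                 (CovZ.leaf K2_ok TP_l5461 _)
                 (CovZ.leaf K2_ok TP_l5462 _))))
              (CovZ.n1 (-320, 15760) (by decide +kernel)
               (CovZ.n2 (-360, 15720) (by decide +kernel)
                (CovZ.n2 (-360, 15760) (by decide +kernel)
                 (CovZ.leaf K2_ok TP_l5463 _)
                 (CovZ.leaf K2_ok TP_l5464 _))
                (CovZ.leaf K2_ok TP_l5465 _))
               (CovZ.n1 (-360, 15800) (by decide +kernel)
                (CovZ.leaf K2_ok TP_l5466 _)
                (CovZ.leaf K2_ok TP_l5467 _))))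
             (CovZ.n1 (-400, 15920) (by decide +kernel)
              (CovZ.n2 (-320, 15920) (by decide +kernel)
               (CovZ.leaf K2_ok TP_l5468 _)
               (CovZ.leaf K2_ok TP_l5469 _))
              (CovZ.n1 (-400, 15840) (by decide +kernel)
               (CovZ.n2 (-440, 15880) (by decide +kernel)
                (CovZ.leaf K2_ok TP_l5470 _)
                (CovZ.n1 (-440, 15840) (by decide +kernel)
                 (CovZ.badM (by decide +kernel))
                 (CovZ.leaf K2_ok TP_l5471 _)))
               (CovZ.leaf K2_ok TP_l5472 _))))))
          (CovZ.n1 (0, 15680) (by decide +kernel)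
           (CovZ.n2 (-160, 15520) (by decide +kernel)
            (CovZ.n2 (-160, 15680) (by decide +kernel)
             (CovZ.n2 (-80, 15600) (by decide +kernel)
              (CovZ.leaf K2_ok TP_l5473 _)
              (CovZ.leaf K2_ok TP_l5474 _))
             (CovZ.n1 (-240, 15600) (by decide +kernel)
              (CovZ.n2 (-240, 15680) (by decide +kernel)
               (CovZ.leaf K2_ok TP_l5475 _)
               (CovZ.leaf K2_ok TP_l5476 _))
              (CovZ.leaf K2_ok TP_l5477 _)))
            (CovZ.n1 (0, 15520) (by decide +kernel)
             (CovZ.n2 (-80, 15440) (by decide +kernel)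
              (CovZ.leaf K2_ok TP_l5478 _)
              (CovZ.leaf K2_ok TP_l5479 _))
             (CovZ.n1 (-80, 15600) (by decide +kernel)
              (CovZ.leaf K2_ok TP_l5480 _)
              (CovZ.leaf K2_ok TP_l5481 _))))
           (CovZ.n1 (-160, 15840) (by decide +kernel)
            (CovZ.n2 (0, 15840) (by decide +kernel)
             (CovZ.leaf K2_ok TP_l5482 _)
             (CovZ.leaf K2_ok TP_l9 _))
            (CovZ.n1 (-160, 15680) (by decide +kernel)
             (CovZ.n2 (-240, 15760) (by decide +kernel)
              (CovZ.leaf K2_ok TP_l5483 _)
              (CovZ.n1 (-240, 15680) (by decide +kernel)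
               (CovZ.leaf K2_ok TP_l5484 _)
               (CovZ.leaf K2_ok TP_l5485 _)))
             (CovZ.leaf K2_ok TP_l5486 _))))))
        (CovZ.n1 (-320, 16320) (by decide +kernel)
         (CovZ.n2 (0, 16320) (by decide +kernel)
          (CovZ.n2 (-160, 16160) (by decide +kernel)
           (CovZ.n2 (-160, 16320) (by decide +kernel)
            (CovZ.leaf K2_ok TP_l10 _)
            (CovZ.leaf K2_ok TP_l11 _))
           (CovZ.leaf K2_ok TP_l12 _))
          (CovZ.n1 (-160, 16480) (by decide +kernel)
           (CovZ.leaf K2_ok TP_l13 _)
           (CovZ.n1 (-160, 16320) (by decide +kernel)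
            (CovZ.leaf K2_ok TP_l14 _)
            (CovZ.leaf K2_ok TP_l15 _))))
         (CovZ.n1 (-320, 16000) (by decide +kernel)
          (CovZ.n2 (-480, 16160) (by decide +kernel)
           (CovZ.n2 (-320, 16160) (by decide +kernel)
            (CovZ.n2 (-400, 16080) (by decide +kernel)
             (CovZ.n2 (-400, 16160) (by decide +kernel)
              (CovZ.leaf K2_ok TP_l5487 _)
              (CovZ.leaf K2_ok TP_l5488 _))
             (CovZ.leaf K2_ok TP_l5489 _))
            (CovZ.n1 (-400, 16240) (by decide +kernel)
             (CovZ.leaf K2_ok TP_l5490 _)
             (CovZ.n1 (-400, 16160) (by decide +kernel)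
              (CovZ.leaf K2_ok TP_l5491 _)
              (CovZ.leaf K2_ok TP_l5492 _))))
           (CovZ.subM 174309642455255679669270784178022864912384 (by decide +kernel)
            (CovZ.n1 (-480, 16000) (by decide +kernel)
             (CovZ.n2 (-560, 16080) (by decide +kernel)
              (CovZ.n2 (-480, 16080) (by decide +kernel)
               (CovZ.n2 (-520, 16040) (by decide +kernel)
                (CovZ.n2 (-520, 16080) (by decide +kernel)
                 (CovZ.leaf K2_ok TP_l5493 _)
                 (CovZ.n1 (-540, 16060) (by decide +kernel)
                  (CovZ.leaf K2_ok TP_l5494 _)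
                  (CovZ.leaf K2_ok TP_l5495 _)))
                (CovZ.n1 (-480, 16040) (by decide +kernel)
                 (CovZ.leaf K2_ok TP_l5496 _)
                 (CovZ.leaf K2_ok TP_l5497 _)))
               (CovZ.n1 (-520, 16120) (by decide +kernel)
                (CovZ.leaf K2_ok TP_l5498 _)
                (CovZ.n1 (-520, 16080) (by decide +kernel)
                 (CovZ.n2 (-540, 16100) (by decide +kernel)
                  (CovZ.leaf K2_ok TP_l5499 _)
                  (CovZ.leaf K2_ok TP_l5500 _))
                 (CovZ.leaf K2_ok TP_l5501 _))))
              (CovZ.n1 (-560, 16000) (by decide +kernel)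
               (CovZ.n2 (-600, 16040) (by decide +kernel)
                (CovZ.n2 (-560, 16040) (by decide +kernel)
                 (CovZ.n2 (-580, 16020) (by decide +kernel)
                  (CovZ.n2 (-580, 16040) (by decide +kernel)
                   (CovZ.n2 (-570, 16030) (by decide +kernel)
                    (CovZ.leaf K2_ok TP_l5502 _)
                    (CovZ.leaf K2_ok TP_l5503 _))
                   (CovZ.n1 (-590, 16030) (by decide +kernel)
                    (CovZ.n2 (-590, 16040) (by decide +kernel)
                     (CovZ.leaf K2_ok TP_l5504 _)
                     (CovZ.leaf K2_ok TP_l5505 _))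
                    (CovZ.n1 (-580, 16030) (by decide +kernel)
                     (CovZ.badM (by decide +kernel))
                     (CovZ.leaf K2_ok TP_l5506 _))))
                  (CovZ.n1 (-560, 16020) (by decide +kernel)
                   (CovZ.badM (by decide +kernel))
                   (CovZ.n1 (-570, 16030) (by decide +kernel)
                    (CovZ.leaf K2_ok TP_l5507 _)
                    (CovZ.badM (by decide +kernel)))))
                 (CovZ.n1 (-580, 16060) (by decide +kernel)
                  (CovZ.n2 (-560, 16060) (by decide +kernel)
                   (CovZ.leaf K2_ok TP_l5508 _)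
                   (CovZ.leaf K2_ok TP_l5509 _))
                  (CovZ.n1 (-580, 16040) (by decide +kernel)
                   (CovZ.n2 (-590, 16050) (by decide +kernel)
                    (CovZ.leaf K2_ok TP_l5510 _)
                    (CovZ.n1 (-590, 16040) (by decide +kernel)
                     (CovZ.leaf K2_ok TP_l5511 _)
                     (CovZ.leaf K2_ok TP_l5512 _)))
                   (CovZ.leaf K2_ok TP_l5513 _))))
                (CovZ.n1 (-600, 16000) (by decide +kernel)
                 (CovZ.badM (by decide +kernel))
                 (CovZ.n1 (-580, 16020) (by decide +kernel)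
                  (CovZ.badM (by decide +kernel))
                  (CovZ.n1 (-600, 16020) (by decide +kernel)
                   (CovZ.n2 (-590, 16030) (by decide +kernel)
                    (CovZ.badM (by decide +kernel))
                    (CovZ.n1 (-600, 16030) (by decide +kernel)
                     (CovZ.leaf K2_ok TP_l5514 _)
                     (CovZ.badM (by decide +kernel))))
                   (CovZ.badM (by decide +kernel))))))
               (CovZ.n1 (-520, 16040) (by decide +kernel)
                (CovZ.n2 (-520, 16000) (by decide +kernel)
                 (CovZ.n2 (-540, 16020) (by decide +kernel)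
                  (CovZ.leaf K2_ok TP_l5515 _)
                  (CovZ.badM (by decide +kernel)))
                 (CovZ.leaf K2_ok TP_l5516 _))
                (CovZ.n1 (-560, 16040) (by decide +kernel)
                 (CovZ.n2 (-540, 16060) (by decide +kernel)
                  (CovZ.leaf K2_ok TP_l5517 _)
                  (CovZ.leaf K2_ok TP_l5518 _))
                 (CovZ.n1 (-540, 16020) (by decide +kernel)
                  (CovZ.n2 (-560, 16020) (by decide +kernel)
                   (CovZ.leaf K2_ok TP_l5519 _)
                   (CovZ.badM (by decide +kernel)))
                  (CovZ.n1 (-540, 16040) (by decide +kernel)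
                   (CovZ.leaf K2_ok TP_l5520 _)
                   (CovZ.leaf K2_ok TP_l5521 _)))))))
             (CovZ.n1 (-400, 16080) (by decide +kernel)
              (CovZ.n2 (-400, 16000) (by decide +kernel)
               (CovZ.n2 (-440, 16040) (by decide +kernel)
                (CovZ.leaf K2_ok TP_l5522 _)
                (CovZ.leaf K2_ok TP_l5523 _))
               (CovZ.leaf K2_ok TP_l5524 _))
              (CovZ.n1 (-480, 16080) (by decide +kernel)
               (CovZ.leaf K2_ok TP_l5525 _)
               (CovZ.n1 (-440, 16040) (by decide +kernel)
                (CovZ.leaf K2_ok TP_l5526 _)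
                (CovZ.leaf K2_ok TP_l5527 _)))))))
          (CovZ.n1 (-160, 16160) (by decide +kernel)
           (CovZ.n2 (-160, 16000) (by decide +kernel)
            (CovZ.leaf K2_ok TP_l16 _)
            (CovZ.leaf K2_ok TP_l17 _))
           (CovZ.n1 (-320, 16160) (by decide +kernel)
            (CovZ.leaf K2_ok TP_l18 _)
            (CovZ.leaf K2_ok TP_l19 _))))))))

theorem TP_u52 : CovZ TP_M (toL (selN TP_LN 174309642456127924804947510395971343517696)) [0, 7, 2, 5] (0, 16640) (0, 17920) (-1280, 16640) :=
    (CovZ.n1 (-640, 17280) (by decide +kernel)
      (CovZ.n2 (0, 17280) (by decide +kernel)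
       (CovZ.n2 (-320, 16960) (by decide +kernel)
        (CovZ.n2 (-320, 17280) (by decide +kernel)
         (CovZ.leaf K2_ok TP_l20 _)
         (CovZ.n1 (-480, 17120) (by decide +kernel)
          (CovZ.n2 (-480, 17280) (by decide +kernel)
           (CovZ.leaf K2_ok TP_l21 _)
           (CovZ.leaf K2_ok TP_l22 _))
          (CovZ.leaf K2_ok TP_l23 _)))
        (CovZ.n1 (0, 16960) (by decide +kernel)
         (CovZ.n2 (-160, 16800) (by decide +kernel)
          (CovZ.leaf K2_ok TP_l24 _)
          (CovZ.leaf K2_ok TP_l25 _))
         (CovZ.leaf K2_ok TP_l26 _)))
       (CovZ.n1 (-320, 17600) (by decide +kernel)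
        (CovZ.n2 (0, 17600) (by decide +kernel)
         (CovZ.leaf K2_ok TP_l27 _)
         (CovZ.leaf K2_ok TP_l28 _))
        (CovZ.n1 (-320, 17280) (by decide +kernel)
         (CovZ.n2 (-480, 17440) (by decide +kernel)
          (CovZ.leaf K2_ok TP_l29 _)
          (CovZ.n1 (-480, 17280) (by decide +kernel)
           (CovZ.leaf K2_ok TP_l30 _)
           (CovZ.leaf K2_ok TP_l31 _)))
         (CovZ.leaf K2_ok TP_l32 _))))
      (CovZ.n1 (-640, 16640) (by decide +kernel)
       (CovZ.subM 633863985740590066861447577600 (by decide +kernel)
        (CovZ.n2 (-960, 16960) (by decide +kernel)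
         (CovZ.n2 (-640, 16960) (by decide +kernel)
          (CovZ.subM 103582791429521408 (by decide +kernel)
           (CovZ.n2 (-800, 16800) (by decide +kernel)
            (CovZ.n2 (-800, 16960) (by decide +kernel)
             (CovZ.n2 (-720, 16880) (by decide +kernel)
              (CovZ.n2 (-800, 16880) (by decide +kernel)
               (CovZ.n2 (-760, 16920) (by decide +kernel)
                (CovZ.leaf K2_ok TP_l5528 _)
                (CovZ.leaf K2_ok TP_l5529 _))
               (CovZ.n1 (-760, 16840) (by decide +kernel)
                (CovZ.n2 (-800, 16840) (by decide +kernel)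
                 (CovZ.leaf K2_ok TP_l5530 _)
                 (CovZ.leaf K2_ok TP_l5531 _))
                (CovZ.n1 (-760, 16880) (by decide +kernel)
                 (CovZ.leaf K2_ok TP_l5532 _)
                 (CovZ.leaf K2_ok TP_l5533 _))))
              (CovZ.n1 (-720, 16960) (by decide +kernel)
               (CovZ.leaf K2_ok TP_l5534 _)
               (CovZ.n1 (-760, 16920) (by decide +kernel)
                (CovZ.leaf K2_ok TP_l5535 _)
                (CovZ.leaf K2_ok TP_l5536 _))))
             (CovZ.badM (by decide +kernel)))
            (CovZ.n1 (-640, 16800) (by decide +kernel)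
             (CovZ.n2 (-720, 16720) (by decide +kernel)
              (CovZ.n2 (-720, 16800) (by decide +kernel)
               (CovZ.n2 (-680, 16760) (by decide +kernel)
                (CovZ.leaf K2_ok TP_l5537 _)
                (CovZ.leaf K2_ok TP_l5538 _))
               (CovZ.n1 (-760, 16760) (by decide +kernel)
                (CovZ.n2 (-760, 16800) (by decide +kernel)
                 (CovZ.leaf K2_ok TP_l5539 _)
                 (CovZ.badM (by decide +kernel)))
                (CovZ.n1 (-720, 16760) (by decide +kernel)
                 (CovZ.badM (by decide +kernel))
                 (CovZ.leaf K2_ok TP_l5540 _))))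
              (CovZ.n1 (-640, 16720) (by decide +kernel)
               (CovZ.n2 (-680, 16680) (by decide +kernel)
                (CovZ.leaf K2_ok TP_l5541 _)
                (CovZ.leaf K2_ok TP_l5542 _))
               (CovZ.n1 (-680, 16760) (by decide +kernel)
                (CovZ.leaf K2_ok TP_l5543 _)
                (CovZ.leaf K2_ok TP_l5544 _))))
             (CovZ.n1 (-720, 16880) (by decide +kernel)
              (CovZ.n2 (-640, 16880) (by decide +kernel)
               (CovZ.leaf K2_ok TP_l5545 _)
               (CovZ.leaf K2_ok TP_l5546 _))
              (CovZ.n1 (-720, 16800) (by decide +kernel)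
               (CovZ.n2 (-760, 16840) (by decide +kernel)
                (CovZ.leaf K2_ok TP_l5547 _)
                (CovZ.n1 (-760, 16800) (by decide +kernel)
                 (CovZ.leaf K2_ok TP_l5548 _)
                 (CovZ.leaf K2_ok TP_l5549 _)))
               (CovZ.leaf K2_ok TP_l5550 _))))))
          (CovZ.n1 (-800, 17120) (by decide +kernel)
           (CovZ.n2 (-640, 17120) (by decide +kernel)
            (CovZ.n2 (-720, 17040) (by decide +kernel)
             (CovZ.n2 (-720, 17120) (by decide +kernel)
              (CovZ.leaf K2_ok TP_l5551 _)
              (CovZ.leaf K2_ok TP_l5552 _))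
             (CovZ.leaf K2_ok TP_l5553 _))
            (CovZ.n1 (-720, 17200) (by decide +kernel)
             (CovZ.leaf K2_ok TP_l33 _)
             (CovZ.n1 (-720, 17120) (by decide +kernel)
              (CovZ.leaf K2_ok TP_l5554 _)
              (CovZ.leaf K2_ok TP_l5555 _))))
           (CovZ.n1 (-800, 16960) (by decide +kernel)
            (CovZ.subM 38685626371783321666453504 (by decide +kernel)
             (CovZ.n2 (-880, 17040) (by decide +kernel)
              (CovZ.n2 (-800, 17040) (by decide +kernel)
               (CovZ.n2 (-840, 17000) (by decide +kernel)
                (CovZ.n2 (-840, 17040) (by decide +kernel)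
                 (CovZ.leaf K2_ok TP_l5556 _)
                 (CovZ.badM (by decide +kernel)))
                (CovZ.n1 (-800, 17000) (by decide +kernel)
                 (CovZ.badM (by decide +kernel))
                 (CovZ.leaf K2_ok TP_l5557 _)))
               (CovZ.n1 (-840, 17080) (by decide +kernel)
                (CovZ.leaf K2_ok TP_l5558 _)
                (CovZ.n1 (-840, 17040) (by decide +kernel)
                 (CovZ.badM (by decide +kernel))
                 (CovZ.leaf K2_ok TP_l5559 _))))
              (CovZ.n1 (-880, 16960) (by decide +kernel)
               (CovZ.badM (by decide +kernel))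
               (CovZ.n1 (-840, 17000) (by decide +kernel)
                (CovZ.badM (by decide +kernel))
                (CovZ.badM (by decide +kernel))))))
            (CovZ.n1 (-720, 17040) (by decide +kernel)
             (CovZ.n2 (-720, 16960) (by decide +kernel)
              (CovZ.n2 (-760, 17000) (by decide +kernel)
               (CovZ.leaf K2_ok TP_l5560 _)
               (CovZ.leaf K2_ok TP_l5561 _))
              (CovZ.leaf K2_ok TP_l5562 _))
             (CovZ.n1 (-800, 17040) (by decide +kernel)
              (CovZ.leaf K2_ok TP_l5563 _)
              (CovZ.n1 (-760, 17000) (by decide +kernel)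
               (CovZ.leaf K2_ok TP_l5564 _)
               (CovZ.leaf K2_ok TP_l5565 _)))))))
         (CovZ.subM 103582791429521408 (by decide +kernel)
          (CovZ.n1 (-960, 16640) (by decide +kernel)
           (CovZ.badM (by decide +kernel))
           (CovZ.n1 (-800, 16800) (by decide +kernel)
            (CovZ.n2 (-800, 16640) (by decide +kernel)
             (CovZ.badM (by decide +kernel))
             (CovZ.n1 (-720, 16720) (by decide +kernel)
              (CovZ.n2 (-720, 16640) (by decide +kernel)
               (CovZ.badM (by decide +kernel))
               (CovZ.n1 (-680, 16680) (by decide +kernel)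
                (CovZ.badM (by decide +kernel))
                (CovZ.badM (by decide +kernel))))
              (CovZ.n1 (-800, 16720) (by decide +kernel)
               (CovZ.n2 (-760, 16760) (by decide +kernel)
                (CovZ.badM (by decide +kernel))
                (CovZ.badM (by decide +kernel)))
               (CovZ.badM (by decide +kernel)))))
            (CovZ.badM (by decide +kernel)))))))
       (CovZ.n1 (-320, 16960) (by decide +kernel)
        (CovZ.subM 174309642455256298941522021400998779551744 (by decide +kernel)
         (CovZ.n2 (-320, 16640) (by decide +kernel)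
          (CovZ.n2 (-480, 16800) (by decide +kernel)
           (CovZ.n2 (-320, 16800) (by decide +kernel)
            (CovZ.leaf K2_ok TP_l34 _)
            (CovZ.leaf K2_ok TP_l35 _))
           (CovZ.n1 (-480, 16640) (by decide +kernel)
            (CovZ.n2 (-560, 16720) (by decide +kernel)
             (CovZ.leaf K2_ok TP_l36 _)
             (CovZ.n1 (-560, 16640) (by decide +kernel)
              (CovZ.leaf K2_ok TP_l37 _)
              (CovZ.leaf K2_ok TP_l38 _)))
            (CovZ.leaf K2_ok TP_l39 _)))
          (CovZ.n1 (-160, 16800) (by decide +kernel)
           (CovZ.leaf K2_ok TP_l40 _)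
           (CovZ.leaf K2_ok TP_l41 _))))
        (CovZ.subM 174309642455889621026263865609948512649216 (by decide +kernel)
         (CovZ.n1 (-640, 16960) (by decide +kernel)
          (CovZ.n2 (-480, 17120) (by decide +kernel)
           (CovZ.n2 (-480, 16960) (by decide +kernel)
            (CovZ.leaf K2_ok TP_l42 _)
            (CovZ.leaf K2_ok TP_l43 _))
           (CovZ.n1 (-640, 17120) (by decide +kernel)
            (CovZ.leaf K2_ok TP_l44 _)
            (CovZ.leaf K2_ok TP_l45 _)))
          (CovZ.n1 (-480, 16800) (by decide +kernel)
           (CovZ.subM 4951760157281132688047079424 (by decide +kernel)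
            (CovZ.n2 (-640, 16800) (by decide +kernel)
             (CovZ.n2 (-560, 16880) (by decide +kernel)
              (CovZ.leaf K2_ok TP_l46 _)
              (CovZ.leaf K2_ok TP_l47 _))
             (CovZ.n1 (-560, 16720) (by decide +kernel)
              (CovZ.n2 (-640, 16720) (by decide +kernel)
               (CovZ.leaf K2_ok TP_l48 _)
               (CovZ.leaf K2_ok TP_l49 _))
              (CovZ.n1 (-560, 16800) (by decide +kernel)
               (CovZ.leaf K2_ok TP_l50 _)
               (CovZ.leaf K2_ok TP_l51 _)))))
           (CovZ.n1 (-480, 16960) (by decide +kernel)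
            (CovZ.leaf K2_ok TP_l52 _)
            (CovZ.n1 (-560, 16880) (by decide +kernel)
             (CovZ.leaf K2_ok TP_l53 _)
             (CovZ.leaf K2_ok TP_l54 _)))))))))

theorem TP_u53 : CovZ TP_M (toL (selN TP_LN 174309642455250727909113642674515452362752)) [0, 7, 2, 5] (-640, 15360) (-320, 15360) (-320, 15680) :=
    (CovZ.n2 (-480, 15520) (by decide +kernel)
            (CovZ.n2 (-320, 15520) (by decide +kernel)
             (CovZ.n2 (-400, 15440) (by decide +kernel)
              (CovZ.n2 (-400, 15520) (by decide +kernel)
               (CovZ.n2 (-360, 15480) (by decide +kernel)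
                (CovZ.n2 (-400, 15480) (by decide +kernel)
                 (CovZ.n2 (-380, 15500) (by decide +kernel)
                  (CovZ.n2 (-380, 15480) (by decide +kernel)
                   (CovZ.leaf K2_ok TP_l5566 _)
                   (CovZ.leaf K2_ok TP_l5567 _))
                  (CovZ.n1 (-400, 15500) (by decide +kernel)
                   (CovZ.leaf K2_ok TP_l5568 _)
                   (CovZ.leaf K2_ok TP_l5569 _)))
                 (CovZ.n1 (-380, 15460) (by decide +kernel)
                  (CovZ.n2 (-400, 15460) (by decide +kernel)
                   (CovZ.leaf K2_ok TP_l5570 _)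
                   (CovZ.leaf K2_ok TP_l5571 _))
                  (CovZ.leaf K2_ok TP_l5572 _)))
                (CovZ.n1 (-360, 15520) (by decide +kernel)
                 (CovZ.leaf K2_ok TP_l5573 _)
                 (CovZ.n1 (-380, 15500) (by decide +kernel)
                  (CovZ.n2 (-380, 15520) (by decide +kernel)
                   (CovZ.leaf K2_ok TP_l5574 _)
                   (CovZ.leaf K2_ok TP_l5575 _))
                  (CovZ.leaf K2_ok TP_l5576 _))))
               (CovZ.n1 (-440, 15480) (by decide +kernel)
                (CovZ.n2 (-440, 15520) (by decide +kernel)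
                 (CovZ.n2 (-420, 15500) (by decide +kernel)
                  (CovZ.badM (by decide +kernel))
                  (CovZ.n1 (-420, 15520) (by decide +kernel)
                   (CovZ.n2 (-410, 15510) (by decide +kernel)
                    (CovZ.badM (by decide +kernel))
                    (CovZ.n1 (-410, 15520) (by decide +kernel)
                     (CovZ.leaf K2_ok TP_l5577 _)
                     (CovZ.badM (by decide +kernel))))
                   (CovZ.badM (by decide +kernel))))
                 (CovZ.badM (by decide +kernel)))
                (CovZ.n1 (-400, 15480) (by decide +kernel)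
                 (CovZ.n2 (-420, 15460) (by decide +kernel)
                  (CovZ.n2 (-420, 15480) (by decide +kernel)
                   (CovZ.n2 (-410, 15470) (by decide +kernel)
                    (CovZ.badM (by decide +kernel))
                    (CovZ.leaf K2_ok TP_l5578 _))
                   (CovZ.badM (by decide +kernel)))
                  (CovZ.n1 (-400, 15460) (by decide +kernel)
                   (CovZ.n2 (-410, 15450) (by decide +kernel)
                    (CovZ.leaf K2_ok TP_l5579 _)
                    (CovZ.leaf K2_ok TP_l5580 _))
                   (CovZ.n1 (-410, 15470) (by decide +kernel)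
                    (CovZ.leaf K2_ok TP_l5581 _)
                    (CovZ.leaf K2_ok TP_l5582 _))))
                 (CovZ.n1 (-420, 15500) (by decide +kernel)
                  (CovZ.n2 (-400, 15500) (by decide +kernel)
                   (CovZ.n2 (-410, 15490) (by decide +kernel)
                    (CovZ.n2 (-410, 15500) (by decide +kernel)
                     (CovZ.leaf K2_ok TP_l5583 _)
                     (CovZ.badM (by decide +kernel)))
                    (CovZ.leaf K2_ok TP_l5584 _))
                   (CovZ.n1 (-410, 15510) (by decide +kernel)
                    (CovZ.leaf K2_ok TP_l5585 _)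
                    (CovZ.leaf K2_ok TP_l5586 _)))
                  (CovZ.n1 (-420, 15480) (by decide +kernel)
                   (CovZ.badM (by decide +kernel))
                   (CovZ.n1 (-410, 15490) (by decide +kernel)
                    (CovZ.n2 (-410, 15480) (by decide +kernel)
                     (CovZ.badM (by decide +kernel))
                     (CovZ.leaf K2_ok TP_l5587 _))
                    (CovZ.badM (by decide +kernel))))))))
              (CovZ.n1 (-320, 15440) (by decide +kernel)
               (CovZ.n2 (-360, 15400) (by decide +kernel)
                (CovZ.n2 (-360, 15440) (by decide +kernel)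
                 (CovZ.leaf K2_ok TP_l5588 _)
                 (CovZ.n1 (-380, 15420) (by decide +kernel)
                  (CovZ.leaf K2_ok TP_l5589 _)
                  (CovZ.leaf K2_ok TP_l5590 _)))
                (CovZ.n1 (-320, 15400) (by decide +kernel)
                 (CovZ.leaf K2_ok TP_l5591 _)
                 (CovZ.leaf K2_ok TP_l5592 _)))
               (CovZ.n1 (-360, 15480) (by decide +kernel)
                (CovZ.n2 (-320, 15480) (by decide +kernel)
                 (CovZ.leaf K2_ok TP_l5593 _)
                 (CovZ.leaf K2_ok TP_l5594 _))
                (CovZ.n1 (-360, 15440) (by decide +kernel)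
                 (CovZ.n2 (-380, 15460) (by decide +kernel)
                  (CovZ.leaf K2_ok TP_l5595 _)
                  (CovZ.leaf K2_ok TP_l5596 _))
                 (CovZ.leaf K2_ok TP_l5597 _)))))
             (CovZ.n1 (-400, 15600) (by decide +kernel)
              (CovZ.n2 (-320, 15600) (by decide +kernel)
               (CovZ.n2 (-360, 15560) (by decide +kernel)
                (CovZ.n2 (-360, 15600) (by decide +kernel)
                 (CovZ.leaf K2_ok TP_l5598 _)
                 (CovZ.n1 (-380, 15580) (by decide +kernel)
                  (CovZ.leaf K2_ok TP_l5599 _)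
                  (CovZ.leaf K2_ok TP_l5600 _)))
                (CovZ.leaf K2_ok TP_l5601 _))
               (CovZ.n1 (-360, 15640) (by decide +kernel)
                (CovZ.leaf K2_ok TP_l5602 _)
                (CovZ.n1 (-360, 15600) (by decide +kernel)
                 (CovZ.n2 (-380, 15620) (by decide +kernel)
                  (CovZ.leaf K2_ok TP_l5603 _)
                  (CovZ.leaf K2_ok TP_l5604 _))
                 (CovZ.leaf K2_ok TP_l5605 _))))
              (CovZ.n1 (-400, 15520) (by decide +kernel)
               (CovZ.n2 (-440, 15560) (by decide +kernel)
                (CovZ.n2 (-400, 15560) (by decide +kernel)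
                 (CovZ.n2 (-420, 15540) (by decide +kernel)
                  (CovZ.n2 (-420, 15560) (by decide +kernel)
                   (CovZ.leaf K2_ok TP_l5606 _)
                   (CovZ.badM (by decide +kernel)))
                  (CovZ.n1 (-400, 15540) (by decide +kernel)
                   (CovZ.leaf K2_ok TP_l5607 _)
                   (CovZ.leaf K2_ok TP_l5608 _)))
                 (CovZ.n1 (-420, 15580) (by decide +kernel)
                  (CovZ.leaf K2_ok TP_l5609 _)
                  (CovZ.n1 (-420, 15560) (by decide +kernel)
                   (CovZ.badM (by decide +kernel))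
                   (CovZ.leaf K2_ok TP_l5610 _))))
                (CovZ.n1 (-440, 15520) (by decide +kernel)
                 (CovZ.badM (by decide +kernel))
                 (CovZ.n1 (-420, 15540) (by decide +kernel)
                  (CovZ.n2 (-420, 15520) (by decide +kernel)
                   (CovZ.badM (by decide +kernel))
                   (CovZ.leaf K2_ok TP_l5611 _))
                  (CovZ.badM (by decide +kernel)))))
               (CovZ.n1 (-360, 15560) (by decide +kernel)
                (CovZ.n2 (-360, 15520) (by decide +kernel)
                 (CovZ.n2 (-380, 15540) (by decide +kernel)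
                  (CovZ.leaf K2_ok TP_l5612 _)
                  (CovZ.leaf K2_ok TP_l5613 _))
                 (CovZ.leaf K2_ok TP_l5614 _))
                (CovZ.n1 (-400, 15560) (by decide +kernel)
                 (CovZ.n2 (-380, 15580) (by decide +kernel)
                  (CovZ.leaf K2_ok TP_l5615 _)
                  (CovZ.leaf K2_ok TP_l5616 _))
                 (CovZ.n1 (-380, 15540) (by decide +kernel)
                  (CovZ.n2 (-400, 15540) (by decide +kernel)
                   (CovZ.leaf K2_ok TP_l5617 _)
                   (CovZ.leaf K2_ok TP_l5618 _))
                  (CovZ.n1 (-380, 15560) (by decide +kernel)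
                   (CovZ.leaf K2_ok TP_l5619 _)
                   (CovZ.leaf K2_ok TP_l5620 _))))))))
            (CovZ.n1 (-480, 15360) (by decide +kernel)
             (CovZ.badM (by decide +kernel))
             (CovZ.n1 (-400, 15440) (by decide +kernel)
              (CovZ.n2 (-400, 15360) (by decide +kernel)
               (CovZ.n2 (-440, 15400) (by decide +kernel)
                (CovZ.n2 (-400, 15400) (by decide +kernel)
                 (CovZ.n2 (-420, 15380) (by decide +kernel)
                  (CovZ.n2 (-420, 15400) (by decide +kernel)
                   (CovZ.n2 (-410, 15390) (by decide +kernel)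
                    (CovZ.badM (by decide +kernel))
                    (CovZ.leaf K2_ok TP_l5621 _))
                   (CovZ.badM (by decide +kernel)))
                  (CovZ.n1 (-400, 15380) (by decide +kernel)
                   (CovZ.leaf K2_ok TP_l5622 _)
                   (CovZ.n1 (-410, 15390) (by decide +kernel)
                    (CovZ.leaf K2_ok TP_l5623 _)
                    (CovZ.leaf K2_ok TP_l5624 _))))
                 (CovZ.n1 (-420, 15420) (by decide +kernel)
                  (CovZ.n2 (-400, 15420) (by decide +kernel)
                   (CovZ.n2 (-410, 15410) (by decide +kernel)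
                    (CovZ.leaf K2_ok TP_l5625 _)
                    (CovZ.n1 (-400, 15410) (by decide +kernel)
                     (CovZ.leaf K2_ok TP_l5626 _)
                     (CovZ.leaf K2_ok TP_l5627 _)))
                   (CovZ.n1 (-410, 15430) (by decide +kernel)
                    (CovZ.leaf K2_ok TP_l5628 _)
                    (CovZ.leaf K2_ok TP_l5629 _)))
                  (CovZ.n1 (-420, 15400) (by decide +kernel)
                   (CovZ.badM (by decide +kernel))
                   (CovZ.n1 (-410, 15410) (by decide +kernel)
                    (CovZ.leaf K2_ok TP_l5630 _)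
                    (CovZ.badM (by decide +kernel))))))
                (CovZ.n1 (-440, 15360) (by decide +kernel)
                 (CovZ.badM (by decide +kernel))
                 (CovZ.n1 (-420, 15380) (by decide +kernel)
                  (CovZ.n2 (-420, 15360) (by decide +kernel)
                   (CovZ.badM (by decide +kernel))
                   (CovZ.leaf K2_ok TP_l5631 _))
                  (CovZ.badM (by decide +kernel)))))
               (CovZ.n1 (-360, 15400) (by decide +kernel)
                (CovZ.n2 (-360, 15360) (by decide +kernel)
                 (CovZ.leaf K2_ok TP_l5632 _)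
                 (CovZ.leaf K2_ok TP_l5633 _))
                (CovZ.n1 (-400, 15400) (by decide +kernel)
                 (CovZ.n2 (-380, 15420) (by decide +kernel)
                  (CovZ.leaf K2_ok TP_l5634 _)
                  (CovZ.n1 (-400, 15420) (by decide +kernel)
                   (CovZ.leaf K2_ok TP_l5635 _)
                   (CovZ.leaf K2_ok TP_l5636 _)))
                 (CovZ.leaf K2_ok TP_l5637 _))))
              (CovZ.n1 (-480, 15440) (by decide +kernel)
               (CovZ.n2 (-440, 15480) (by decide +kernel)
                (CovZ.n2 (-440, 15440) (by decide +kernel)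
                 (CovZ.badM (by decide +kernel))
                 (CovZ.n1 (-420, 15460) (by decide +kernel)
                  (CovZ.n2 (-420, 15440) (by decide +kernel)
                   (CovZ.badM (by decide +kernel))
                   (CovZ.n1 (-410, 15450) (by decide +kernel)
                    (CovZ.leaf K2_ok TP_l5638 _)
                    (CovZ.badM (by decide +kernel))))
                  (CovZ.badM (by decide +kernel))))
                (CovZ.badM (by decide +kernel)))
               (CovZ.n1 (-440, 15400) (by decide +kernel)
                (CovZ.badM (by decide +kernel))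
                (CovZ.n1 (-440, 15440) (by decide +kernel)
                 (CovZ.n2 (-420, 15420) (by decide +kernel)
                  (CovZ.badM (by decide +kernel))
                  (CovZ.n1 (-420, 15440) (by decide +kernel)
                   (CovZ.n2 (-410, 15430) (by decide +kernel)
                    (CovZ.badM (by decide +kernel))
                    (CovZ.leaf K2_ok TP_l5639 _))
                   (CovZ.badM (by decide +kernel))))
                 (CovZ.badM (by decide +kernel))))))))

theorem TP_u54 : CovZ TP_M (toL (selN TP_LN 174309642456127924804947510395971343517696)) [0, 7, 2, 5] (-1280, 16640) (-640, 17280) (-1280, 17920) :=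
    (CovZ.subM 871548492172849011120660578304 (by decide +kernel)
       (CovZ.n2 (-1280, 17280) (by decide +kernel)
        (CovZ.n2 (-960, 17600) (by decide +kernel)
         (CovZ.n2 (-960, 17280) (by decide +kernel)
          (CovZ.subM 158456325028528675187088162816 (by decide +kernel)
           (CovZ.n2 (-1120, 17440) (by decide +kernel)
            (CovZ.n2 (-960, 17440) (by decide +kernel)
             (CovZ.n2 (-1040, 17360) (by decide +kernel)
              (CovZ.n2 (-1040, 17440) (by decide +kernel)
               (CovZ.n2 (-1000, 17400) (by decide +kernel)
                (CovZ.badM (by decide +kernel))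
                (CovZ.n1 (-1000, 17440) (by decide +kernel)
                 (CovZ.leaf K2_ok TP_l5681 _)
                 (CovZ.badM (by decide +kernel))))
               (CovZ.badM (by decide +kernel)))
              (CovZ.n1 (-960, 17360) (by decide +kernel)
               (CovZ.badM (by decide +kernel))
               (CovZ.n1 (-1000, 17400) (by decide +kernel)
                (CovZ.n2 (-960, 17400) (by decide +kernel)
                 (CovZ.badM (by decide +kernel))
                 (CovZ.leaf K2_ok TP_l5682 _))
                (CovZ.badM (by decide +kernel)))))
             (CovZ.n1 (-1040, 17520) (by decide +kernel)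
              (CovZ.n2 (-960, 17520) (by decide +kernel)
               (CovZ.n2 (-1000, 17480) (by decide +kernel)
                (CovZ.n2 (-1000, 17520) (by decide +kernel)
                 (CovZ.leaf K2_ok TP_l5683 _)
                 (CovZ.n1 (-1020, 17500) (by decide +kernel)
                  (CovZ.leaf K2_ok TP_l5684 _)
                  (CovZ.leaf K2_ok TP_l5685 _)))
                (CovZ.leaf K2_ok TP_l5686 _))
               (CovZ.n1 (-1000, 17560) (by decide +kernel)
                (CovZ.leaf K2_ok TP_l5687 _)
                (CovZ.n1 (-1000, 17520) (by decide +kernel)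
                 (CovZ.leaf K2_ok TP_l5688 _)
                 (CovZ.leaf K2_ok TP_l5689 _))))
              (CovZ.n1 (-1040, 17440) (by decide +kernel)
               (CovZ.badM (by decide +kernel))
               (CovZ.n1 (-1000, 17480) (by decide +kernel)
                (CovZ.n2 (-1000, 17440) (by decide +kernel)
                 (CovZ.n2 (-1020, 17460) (by decide +kernel)
                  (CovZ.leaf K2_ok TP_l5690 _)
                  (CovZ.n1 (-1020, 17440) (by decide +kernel)
                   (CovZ.leaf K2_ok TP_l5691 _)
                   (CovZ.leaf K2_ok TP_l5692 _)))
                 (CovZ.leaf K2_ok TP_l5693 _))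
                (CovZ.n1 (-1040, 17480) (by decide +kernel)
                 (CovZ.n2 (-1020, 17500) (by decide +kernel)
                  (CovZ.leaf K2_ok TP_l5694 _)
                  (CovZ.leaf K2_ok TP_l5695 _))
                 (CovZ.n1 (-1020, 17460) (by decide +kernel)
                  (CovZ.leaf K2_ok TP_l5696 _)
                  (CovZ.leaf K2_ok TP_l5697 _)))))))
            (CovZ.n1 (-1120, 17280) (by decide +kernel)
             (CovZ.badM (by decide +kernel))
             (CovZ.n1 (-1040, 17360) (by decide +kernel)
              (CovZ.badM (by decide +kernel))
              (CovZ.badM (by decide +kernel))))))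
          (CovZ.n1 (-800, 17440) (by decide +kernel)
           (CovZ.n2 (-800, 17280) (by decide +kernel)
            (CovZ.subM 792320310769015159257105989632 (by decide +kernel)
             (CovZ.n2 (-880, 17360) (by decide +kernel)
              (CovZ.n2 (-800, 17360) (by decide +kernel)
               (CovZ.leaf K2_ok TP_l55 _)
               (CovZ.leaf K2_ok TP_l56 _))
              (CovZ.n1 (-880, 17280) (by decide +kernel)
               (CovZ.n2 (-920, 17320) (by decide +kernel)
                (CovZ.leaf K2_ok TP_l57 _)
                (CovZ.n1 (-920, 17280) (by decide +kernel)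
                 (CovZ.leaf K2_ok TP_l5698 _)
                 (CovZ.leaf K2_ok TP_l58 _)))
               (CovZ.leaf K2_ok TP_l59 _))))
            (CovZ.n1 (-720, 17360) (by decide +kernel)
             (CovZ.leaf K2_ok TP_l60 _)
             (CovZ.leaf K2_ok TP_l61 _)))
           (CovZ.subM 792320310769015159257106251776 (by decide +kernel)
            (CovZ.n1 (-960, 17440) (by decide +kernel)
             (CovZ.n2 (-880, 17520) (by decide +kernel)
              (CovZ.n2 (-880, 17440) (by decide +kernel)
               (CovZ.n2 (-920, 17480) (by decide +kernel)
                (CovZ.leaf K2_ok TP_l62 _)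
                (CovZ.leaf K2_ok TP_l63 _))
               (CovZ.leaf K2_ok TP_l64 _))
              (CovZ.n1 (-960, 17520) (by decide +kernel)
               (CovZ.leaf K2_ok TP_l65 _)
               (CovZ.n1 (-920, 17480) (by decide +kernel)
                (CovZ.leaf K2_ok TP_l5699 _)
                (CovZ.leaf K2_ok TP_l66 _))))
             (CovZ.n1 (-880, 17360) (by decide +kernel)
              (CovZ.subM 792281625142643375935439536128 (by decide +kernel)
               (CovZ.n2 (-960, 17360) (by decide +kernel)
                (CovZ.n2 (-920, 17400) (by decide +kernel)
                 (CovZ.leaf K2_ok TP_l67 _)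
                 (CovZ.leaf K2_ok TP_l5700 _))
                (CovZ.n1 (-920, 17320) (by decide +kernel)
                 (CovZ.n2 (-960, 17320) (by decide +kernel)
                  (CovZ.leaf K2_ok TP_l5701 _)
                  (CovZ.leaf K2_ok TP_l5702 _))
                 (CovZ.n1 (-920, 17360) (by decide +kernel)
                  (CovZ.leaf K2_ok TP_l68 _)
                  (CovZ.leaf K2_ok TP_l5703 _)))))
              (CovZ.n1 (-880, 17440) (by decide +kernel)
               (CovZ.leaf K2_ok TP_l69 _)
               (CovZ.n1 (-920, 17400) (by decide +kernel)
                (CovZ.leaf K2_ok TP_l70 _)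
                (CovZ.leaf K2_ok TP_l71 _))))))))
         (CovZ.subM 237684506432258944259212967936 (by decide +kernel)
          (CovZ.n1 (-1280, 17600) (by decide +kernel)
           (CovZ.n2 (-1120, 17760) (by decide +kernel)
            (CovZ.n2 (-1120, 17600) (by decide +kernel)
             (CovZ.badM (by decide +kernel))
             (CovZ.n1 (-1040, 17680) (by decide +kernel)
              (CovZ.n2 (-1040, 17600) (by decide +kernel)
               (CovZ.n2 (-1080, 17640) (by decide +kernel)
                (CovZ.n2 (-1040, 17640) (by decide +kernel)
                 (CovZ.n2 (-1060, 17620) (by decide +kernel)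
                  (CovZ.leaf K2_ok TP_l5704 _)
                  (CovZ.leaf K2_ok TP_l5705 _))
                 (CovZ.leaf K2_ok TP_l5706 _))
                (CovZ.n1 (-1080, 17600) (by decide +kernel)
                 (CovZ.badM (by decide +kernel))
                 (CovZ.n1 (-1060, 17620) (by decide +kernel)
                  (CovZ.leaf K2_ok TP_l5707 _)
                  (CovZ.leaf K2_ok TP_l5708 _))))
               (CovZ.n1 (-1000, 17640) (by decide +kernel)
                (CovZ.leaf K2_ok TP_l5709 _)
                (CovZ.n1 (-1040, 17640) (by decide +kernel)
                 (CovZ.leaf K2_ok TP_l5710 _)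
                 (CovZ.leaf K2_ok TP_l5711 _))))
              (CovZ.n1 (-1120, 17680) (by decide +kernel)
               (CovZ.n2 (-1080, 17720) (by decide +kernel)
                (CovZ.n2 (-1080, 17680) (by decide +kernel)
                 (CovZ.badM (by decide +kernel))
                 (CovZ.leaf K2_ok TP_l5712 _))
                (CovZ.badM (by decide +kernel)))
               (CovZ.n1 (-1080, 17640) (by decide +kernel)
                (CovZ.badM (by decide +kernel))
                (CovZ.n1 (-1080, 17680) (by decide +kernel)
                 (CovZ.leaf K2_ok TP_l5713 _)
                 (CovZ.badM (by decide +kernel)))))))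
            (CovZ.badM (by decide +kernel)))
           (CovZ.n1 (-1120, 17440) (by decide +kernel)
            (CovZ.badM (by decide +kernel))
            (CovZ.n1 (-1120, 17600) (by decide +kernel)
             (CovZ.n2 (-1040, 17520) (by decide +kernel)
              (CovZ.badM (by decide +kernel))
              (CovZ.n1 (-1040, 17600) (by decide +kernel)
               (CovZ.n2 (-1000, 17560) (by decide +kernel)
                (CovZ.n2 (-1040, 17560) (by decide +kernel)
                 (CovZ.leaf K2_ok TP_l5714 _)
                 (CovZ.leaf K2_ok TP_l5715 _))
                (CovZ.n1 (-1000, 17600) (by decide +kernel)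
                 (CovZ.leaf K2_ok TP_l5716 _)
                 (CovZ.leaf K2_ok TP_l5717 _)))
               (CovZ.badM (by decide +kernel))))
             (CovZ.badM (by decide +kernel)))))))
        (CovZ.subM 633863985740590066861447577600 (by decide +kernel)
         (CovZ.n1 (-960, 16960) (by decide +kernel)
          (CovZ.badM (by decide +kernel))
          (CovZ.n1 (-960, 17280) (by decide +kernel)
           (CovZ.n2 (-800, 17120) (by decide +kernel)
            (CovZ.subM 633863985740486484070018056192 (by decide +kernel)
             (CovZ.n2 (-960, 17120) (by decide +kernel)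
              (CovZ.n2 (-880, 17200) (by decide +kernel)
               (CovZ.n2 (-880, 17120) (by decide +kernel)
                (CovZ.badM (by decide +kernel))
                (CovZ.n1 (-840, 17160) (by decide +kernel)
                 (CovZ.leaf K2_ok TP_l5718 _)
                 (CovZ.n1 (-880, 17160) (by decide +kernel)
                  (CovZ.leaf K2_ok TP_l5719 _)
                  (CovZ.leaf K2_ok TP_l5720 _))))
               (CovZ.n1 (-960, 17200) (by decide +kernel)
                (CovZ.n2 (-920, 17240) (by decide +kernel)
                 (CovZ.badM (by decide +kernel))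
                 (CovZ.badM (by decide +kernel)))
                (CovZ.badM (by decide +kernel))))
              (CovZ.n1 (-880, 17040) (by decide +kernel)
               (CovZ.badM (by decide +kernel))
               (CovZ.n1 (-880, 17120) (by decide +kernel)
                (CovZ.n2 (-840, 17080) (by decide +kernel)
                 (CovZ.n2 (-880, 17080) (by decide +kernel)
                  (CovZ.leaf K2_ok TP_l5721 _)
                  (CovZ.badM (by decide +kernel)))
                 (CovZ.n1 (-840, 17120) (by decide +kernel)
                  (CovZ.leaf K2_ok TP_l5722 _)
                  (CovZ.leaf K2_ok TP_l5723 _)))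
                (CovZ.badM (by decide +kernel))))))
            (CovZ.n1 (-800, 17280) (by decide +kernel)
             (CovZ.n2 (-720, 17200) (by decide +kernel)
              (CovZ.n2 (-800, 17200) (by decide +kernel)
               (CovZ.leaf K2_ok TP_l72 _)
               (CovZ.leaf K2_ok TP_l5724 _))
              (CovZ.leaf K2_ok TP_l73 _))
             (CovZ.subM 633863985740486484070018056192 (by decide +kernel)
              (CovZ.n1 (-880, 17200) (by decide +kernel)
               (CovZ.n2 (-880, 17280) (by decide +kernel)
                (CovZ.n2 (-840, 17240) (by decide +kernel)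
                 (CovZ.leaf K2_ok TP_l74 _)
                 (CovZ.leaf K2_ok TP_l75 _))
                (CovZ.n1 (-920, 17240) (by decide +kernel)
                 (CovZ.n2 (-920, 17280) (by decide +kernel)
                  (CovZ.leaf K2_ok TP_l76 _)
                  (CovZ.badM (by decide +kernel)))
                 (CovZ.n1 (-880, 17240) (by decide +kernel)
                  (CovZ.badM (by decide +kernel))
                  (CovZ.leaf K2_ok TP_l77 _))))
               (CovZ.n1 (-800, 17200) (by decide +kernel)
                (CovZ.n2 (-840, 17160) (by decide +kernel)
                 (CovZ.leaf K2_ok TP_l5725 _)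
                 (CovZ.leaf K2_ok TP_l5726 _))
                (CovZ.n1 (-840, 17240) (by decide +kernel)
                 (CovZ.leaf K2_ok TP_l78 _)
                 (CovZ.leaf K2_ok TP_l5727 _)))))))
           (CovZ.badM (by decide +kernel)))))))

theorem TP_u55 : CovZ TP_M (toL (selN TP_LN 174309642456127924804947510395971343517696)) [0, 7, 2, 5] (-640, 17280) (0, 17920) (-1280, 17920) :=
    (CovZ.n1 (-640, 17920) (by decide +kernel)
       (CovZ.n2 (-320, 17600) (by decide +kernel)
        (CovZ.n2 (-640, 17600) (by decide +kernel)
         (CovZ.n2 (-480, 17760) (by decide +kernel)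
          (CovZ.leaf K2_ok TP_l79 _)
          (CovZ.leaf K2_ok TP_l80 _))
         (CovZ.n1 (-480, 17440) (by decide +kernel)
          (CovZ.leaf K2_ok TP_l81 _)
          (CovZ.leaf K2_ok TP_l82 _)))
        (CovZ.n1 (-320, 17920) (by decide +kernel)
         (CovZ.leaf K2_ok TP_l83 _)
         (CovZ.n1 (-480, 17760) (by decide +kernel)
          (CovZ.leaf K2_ok TP_l84 _)
          (CovZ.leaf K2_ok TP_l85 _))))
       (CovZ.subM 871548492172849011120660578304 (by decide +kernel)
        (CovZ.n1 (-960, 17600) (by decide +kernel)
         (CovZ.n2 (-960, 17920) (by decide +kernel)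
          (CovZ.n2 (-800, 17760) (by decide +kernel)
           (CovZ.n2 (-960, 17760) (by decide +kernel)
            (CovZ.n2 (-880, 17840) (by decide +kernel)
             (CovZ.leaf K2_ok TP_l86 _)
             (CovZ.leaf K2_ok TP_l87 _))
            (CovZ.n1 (-880, 17680) (by decide +kernel)
             (CovZ.n2 (-960, 17680) (by decide +kernel)
              (CovZ.leaf K2_ok TP_l88 _)
              (CovZ.leaf K2_ok TP_l89 _))
             (CovZ.leaf K2_ok TP_l90 _)))
           (CovZ.n1 (-800, 17920) (by decide +kernel)
            (CovZ.leaf K2_ok TP_l91 _)
            (CovZ.n1 (-880, 17840) (by decide +kernel)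
             (CovZ.leaf K2_ok TP_l92 _)
             (CovZ.leaf K2_ok TP_l93 _))))
          (CovZ.subM 237684506432258944259212967936 (by decide +kernel)
           (CovZ.n1 (-1120, 17760) (by decide +kernel)
            (CovZ.n2 (-1120, 17920) (by decide +kernel)
             (CovZ.n2 (-1040, 17840) (by decide +kernel)
              (CovZ.n2 (-1120, 17840) (by decide +kernel)
               (CovZ.n2 (-1080, 17880) (by decide +kernel)
                (CovZ.leaf K2_ok TP_l5728 _)
                (CovZ.badM (by decide +kernel)))
               (CovZ.n1 (-1080, 17800) (by decide +kernel)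
                (CovZ.badM (by decide +kernel))
                (CovZ.leaf K2_ok TP_l5729 _)))
              (CovZ.n1 (-1040, 17920) (by decide +kernel)
               (CovZ.leaf K2_ok TP_l95 _)
               (CovZ.n1 (-1080, 17880) (by decide +kernel)
                (CovZ.leaf K2_ok TP_l96 _)
                (CovZ.leaf K2_ok TP_l97 _))))
             (CovZ.badM (by decide +kernel)))
            (CovZ.n1 (-960, 17760) (by decide +kernel)
             (CovZ.n2 (-1040, 17680) (by decide +kernel)
              (CovZ.n2 (-1040, 17760) (by decide +kernel)
               (CovZ.n2 (-1000, 17720) (by decide +kernel)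
                (CovZ.leaf K2_ok TP_l5730 _)
                (CovZ.leaf K2_ok TP_l5731 _))
               (CovZ.n1 (-1080, 17720) (by decide +kernel)
                (CovZ.n2 (-1080, 17760) (by decide +kernel)
                 (CovZ.leaf K2_ok TP_l5732 _)
                 (CovZ.badM (by decide +kernel)))
                (CovZ.leaf K2_ok TP_l5733 _)))
              (CovZ.n1 (-960, 17680) (by decide +kernel)
               (CovZ.n2 (-1000, 17640) (by decide +kernel)
                (CovZ.leaf K2_ok TP_l5734 _)
                (CovZ.leaf K2_ok TP_l5735 _))
               (CovZ.leaf K2_ok TP_l5736 _)))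
             (CovZ.n1 (-1040, 17840) (by decide +kernel)
              (CovZ.n2 (-960, 17840) (by decide +kernel)
               (CovZ.leaf K2_ok TP_l5737 _)
               (CovZ.leaf K2_ok TP_l100 _))
              (CovZ.n1 (-1040, 17760) (by decide +kernel)
               (CovZ.n2 (-1080, 17800) (by decide +kernel)
                (CovZ.leaf K2_ok TP_l5738 _)
                (CovZ.n1 (-1080, 17760) (by decide +kernel)
                 (CovZ.badM (by decide +kernel))
                 (CovZ.leaf K2_ok TP_l5739 _)))
               (CovZ.leaf K2_ok TP_l5740 _)))))))
         (CovZ.n1 (-640, 17600) (by decide +kernel)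
          (CovZ.n2 (-800, 17440) (by decide +kernel)
           (CovZ.n2 (-800, 17600) (by decide +kernel)
            (CovZ.n2 (-720, 17520) (by decide +kernel)
             (CovZ.leaf K2_ok TP_l101 _)
             (CovZ.leaf K2_ok TP_l102 _))
            (CovZ.n1 (-880, 17520) (by decide +kernel)
             (CovZ.n2 (-880, 17600) (by decide +kernel)
              (CovZ.leaf K2_ok TP_l103 _)
              (CovZ.leaf K2_ok TP_l104 _))
             (CovZ.leaf K2_ok TP_l105 _)))
           (CovZ.n1 (-640, 17440) (by decide +kernel)
            (CovZ.n2 (-720, 17360) (by decide +kernel)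
             (CovZ.leaf K2_ok TP_l106 _)
             (CovZ.leaf K2_ok TP_l107 _))
            (CovZ.leaf K2_ok TP_l108 _)))
          (CovZ.n1 (-800, 17760) (by decide +kernel)
           (CovZ.n2 (-640, 17760) (by decide +kernel)
            (CovZ.leaf K2_ok TP_l109 _)
            (CovZ.leaf K2_ok TP_l110 _))
           (CovZ.n1 (-800, 17600) (by decide +kernel)
            (CovZ.n2 (-880, 17680) (by decide +kernel)
             (CovZ.leaf K2_ok TP_l111 _)
             (CovZ.n1 (-880, 17600) (by decide +kernel)
              (CovZ.leaf K2_ok TP_l112 _)
              (CovZ.leaf K2_ok TP_l113 _)))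
            (CovZ.leaf K2_ok TP_l114 _)))))))

theorem TP_u56 : CovZ TP_M (toL (selN TP_LN 174309642496692744012250851525340822800384)) [0, 7, 2, 5] (0, 17920) (0, 16640) (1280, 16640) :=
    (CovZ.n2 (640, 17280) (by decide +kernel)
      (CovZ.n2 (640, 16640) (by decide +kernel)
       (CovZ.n2 (320, 16960) (by decide +kernel)
        (CovZ.n2 (640, 16960) (by decide +kernel)
         (CovZ.n2 (480, 16800) (by decide +kernel)
          (CovZ.leaf K2_ok TP_l1885 _)
          (CovZ.n1 (640, 16800) (by decide +kernel)
           (CovZ.leaf K2_ok TP_l1886 _)
           (CovZ.leaf K2_ok TP_l1887 _)))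
         (CovZ.leaf K2_ok TP_l1888 _))
        (CovZ.n1 (320, 16640) (by decide +kernel)
         (CovZ.leaf K2_ok TP_l1889 _)
         (CovZ.n1 (480, 16800) (by decide +kernel)
          (CovZ.leaf K2_ok TP_l1890 _)
          (CovZ.leaf K2_ok TP_l1891 _))))
       (CovZ.subM 633941659224500306786459320320 (by decide +kernel)
        (CovZ.n1 (960, 16960) (by decide +kernel)
         (CovZ.subM 302231558486449260068864 (by decide +kernel)
          (CovZ.n2 (960, 16640) (by decide +kernel)
           (CovZ.n2 (800, 16800) (by decide +kernel)
            (CovZ.n2 (960, 16800) (by decide +kernel)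
             (CovZ.subM 85568392920039424 (by decide +kernel)
              (CovZ.n2 (880, 16720) (by decide +kernel)
               (CovZ.n2 (880, 16800) (by decide +kernel)
                (CovZ.badM (by decide +kernel))
                (CovZ.n1 (840, 16760) (by decide +kernel)
                 (CovZ.n2 (840, 16800) (by decide +kernel)
                  (CovZ.badM (by decide +kernel))
                  (CovZ.leaf K2_ok TP_l1892 _))
                 (CovZ.badM (by decide +kernel))))
               (CovZ.badM (by decide +kernel))))
             (CovZ.n1 (880, 16880) (by decide +kernel)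
              (CovZ.n2 (960, 16880) (by decide +kernel)
               (CovZ.badM (by decide +kernel))
               (CovZ.n1 (920, 16920) (by decide +kernel)
                (CovZ.badM (by decide +kernel))
                (CovZ.badM (by decide +kernel))))
              (CovZ.n1 (880, 16800) (by decide +kernel)
               (CovZ.n2 (840, 16840) (by decide +kernel)
                (CovZ.n2 (880, 16840) (by decide +kernel)
                 (CovZ.leaf K2_ok TP_l7260 _)
                 (CovZ.leaf K2_ok TP_l7261 _))
                (CovZ.leaf K2_ok TP_l1893 _))
               (CovZ.badM (by decide +kernel)))))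
            (CovZ.subM 85568392920039424 (by decide +kernel)
             (CovZ.n1 (800, 16640) (by decide +kernel)
              (CovZ.n2 (720, 16720) (by decide +kernel)
               (CovZ.n2 (800, 16720) (by decide +kernel)
                (CovZ.n2 (760, 16680) (by decide +kernel)
                 (CovZ.leaf K2_ok TP_l1894 _)
                 (CovZ.leaf K2_ok TP_l1895 _))
                (CovZ.leaf K2_ok TP_l1896 _))
               (CovZ.n1 (720, 16640) (by decide +kernel)
                (CovZ.leaf K2_ok TP_l1897 _)
                (CovZ.leaf K2_ok TP_l1898 _)))
              (CovZ.n1 (880, 16720) (by decide +kernel)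
               (CovZ.n2 (880, 16640) (by decide +kernel)
                (CovZ.n2 (840, 16680) (by decide +kernel)
                 (CovZ.badM (by decide +kernel))
                 (CovZ.badM (by decide +kernel)))
                (CovZ.badM (by decide +kernel)))
               (CovZ.n1 (800, 16720) (by decide +kernel)
                (CovZ.n2 (840, 16760) (by decide +kernel)
                 (CovZ.n2 (840, 16720) (by decide +kernel)
                  (CovZ.leaf K2_ok TP_l1899 _)
                  (CovZ.badM (by decide +kernel)))
                 (CovZ.n1 (800, 16760) (by decide +kernel)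
                  (CovZ.leaf K2_ok TP_l1900 _)
                  (CovZ.leaf K2_ok TP_l1901 _)))
                (CovZ.n1 (840, 16680) (by decide +kernel)
                 (CovZ.n2 (800, 16680) (by decide +kernel)
                  (CovZ.leaf K2_ok TP_l1902 _)
                  (CovZ.badM (by decide +kernel)))
                 (CovZ.n1 (840, 16720) (by decide +kernel)
                  (CovZ.badM (by decide +kernel))
                  (CovZ.leaf K2_ok TP_l1903 _))))))))
           (CovZ.badM (by decide +kernel))))
         (CovZ.n1 (640, 16960) (by decide +kernel)
          (CovZ.n2 (800, 17120) (by decide +kernel)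
           (CovZ.n2 (800, 16960) (by decide +kernel)
            (CovZ.leaf K2_ok TP_l1904 _)
            (CovZ.n1 (880, 17040) (by decide +kernel)
             (CovZ.n2 (880, 16960) (by decide +kernel)
              (CovZ.leaf K2_ok TP_l1905 _)
              (CovZ.n1 (920, 17000) (by decide +kernel)
               (CovZ.n2 (920, 16960) (by decide +kernel)
                (CovZ.leaf K2_ok TP_l7262 _)
                (CovZ.badM (by decide +kernel)))
               (CovZ.leaf K2_ok TP_l7263 _)))
             (CovZ.n1 (800, 17040) (by decide +kernel)
              (CovZ.leaf K2_ok TP_l1906 _)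
              (CovZ.leaf K2_ok TP_l1907 _))))
           (CovZ.n1 (640, 17120) (by decide +kernel)
            (CovZ.leaf K2_ok TP_l1908 _)
            (CovZ.leaf K2_ok TP_l1909 _)))
          (CovZ.subM 302231558486449260068864 (by decide +kernel)
           (CovZ.n1 (800, 16800) (by decide +kernel)
            (CovZ.n2 (640, 16800) (by decide +kernel)
             (CovZ.n2 (720, 16880) (by decide +kernel)
              (CovZ.leaf K2_ok TP_l1910 _)
              (CovZ.leaf K2_ok TP_l1911 _))
             (CovZ.n1 (720, 16720) (by decide +kernel)
              (CovZ.leaf K2_ok TP_l1912 _)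
              (CovZ.n1 (720, 16800) (by decide +kernel)
               (CovZ.leaf K2_ok TP_l1913 _)
               (CovZ.leaf K2_ok TP_l1914 _))))
            (CovZ.n1 (800, 16960) (by decide +kernel)
             (CovZ.n2 (880, 16880) (by decide +kernel)
              (CovZ.n2 (800, 16880) (by decide +kernel)
               (CovZ.leaf K2_ok TP_l1915 _)
               (CovZ.n1 (840, 16840) (by decide +kernel)
                (CovZ.leaf K2_ok TP_l1916 _)
                (CovZ.leaf K2_ok TP_l1917 _)))
              (CovZ.n1 (880, 16960) (by decide +kernel)
               (CovZ.subM 302231454903657293676544 (by decide +kernel)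
                (CovZ.n2 (920, 16920) (by decide +kernel)
                 (CovZ.n2 (880, 16920) (by decide +kernel)
                  (CovZ.leaf K2_ok TP_l7264 _)
                  (CovZ.badM (by decide +kernel)))
                 (CovZ.n1 (920, 16960) (by decide +kernel)
                  (CovZ.badM (by decide +kernel))
                  (CovZ.leaf K2_ok TP_l7265 _))))
               (CovZ.n1 (840, 16920) (by decide +kernel)
                (CovZ.leaf K2_ok TP_l1918 _)
                (CovZ.leaf K2_ok TP_l7266 _))))
             (CovZ.n1 (720, 16880) (by decide +kernel)
              (CovZ.leaf K2_ok TP_l1919 _)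
              (CovZ.leaf K2_ok TP_l1920 _)))))))))
      (CovZ.n1 (0, 17280) (by decide +kernel)
       (CovZ.n2 (320, 17600) (by decide +kernel)
        (CovZ.n2 (320, 17280) (by decide +kernel)
         (CovZ.leaf K2_ok TP_l1921 _)
         (CovZ.leaf K2_ok TP_l1922 _))
        (CovZ.leaf K2_ok TP_l1923 _))
       (CovZ.n1 (320, 16960) (by decide +kernel)
        (CovZ.n2 (0, 16960) (by decide +kernel)
         (CovZ.leaf K2_ok TP_l1924 _)
         (CovZ.leaf K2_ok TP_l1925 _))
        (CovZ.n1 (320, 17280) (by decide +kernel)
         (CovZ.leaf K2_ok TP_l1926 _)
         (CovZ.leaf K2_ok TP_l1927 _)))))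

end Pool.Agent.TET
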