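import Pool.Agent.Helper38_TET.TP_M
import Pool.Agent.Helper38_TET.TP_L
import Pool.Agent.Helper38_TET.TP_6
import Pool.Agent.Helper38_TET.TP_16
import Pool.Agent.Helper38_TET.TP_18
import Pool.Agent.Helper38_TET.TP_22
import Pool.Agent.Helper38_TET.TP_23
import Pool.Agent.Helper38_TET.TP_24
import Pool.Agent.Helper38_TET.TP_27
import Pool.Agent.Helper38_TET.TP_29
import Pool.Agent.Helper38_TET.TP_30
import Pool.Agent.Helper38_TET.TP_31
import Pool.Agent.Helper38_TET.TP_32
import Pool.Agent.Helper38_TET.TP_33
import Pool.Agent.Helper38_TET.TP_34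
import Pool.Agent.Helper38_TET.TP_52
import Pool.Agent.Helper38_TET.TP_53
import Pool.Agent.Helper38_TET.TP_U0
import Pool.Agent.Helper38_TET.TP_U1
import Pool.Agent.Helper38_TET.TP_U2
import Pool.Agent.Helper38_TET.TP_U3

/-!
# MP_c7c9bf_co: certificates, family TP
-/

set_option autoImplicit false
set_option maxRecDepth 100000

namespace Pool.Agent.TET

theorem TP_s0_0 : SqZ TP_M TP_L [0, 7, 2, 5] (-2560) (-5120) 2560 0 0 :=
  SqZ.mk (a := (-2560)) (b := 0) (c := (-5120)) (d := (-2560)) (by norm_num) (by norm_num) (by norm_num) (by norm_num)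
    (CovZ.topM TP_LL 0 (by decide +kernel) (CovZ.badM (by decide +kernel)))
    (CovZ.topM TP_LL 0 (by decide +kernel) (CovZ.badM (by decide +kernel)))

theorem TP_s1_0 : SqZ TP_M TP_L [0, 7, 2, 5] (-2560) (-5120) 2560 1 0 :=
  SqZ.mk (a := 0) (b := 2560) (c := (-5120)) (d := (-2560)) (by norm_num) (by norm_num) (by norm_num) (by norm_num)
    (CovZ.topM TP_LL 0 (by decide +kernel) (CovZ.badM (by decide +kernel)))
    (CovZ.topM TP_LL 0 (by decide +kernel) (CovZ.badM (by decide +kernel)))

theorem TP_s2_0 : SqZ TP_M TP_L [0, 7, 2, 5] (-2560) (-5120) 2560 2 0 :=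
  SqZ.mk (a := 2560) (b := 5120) (c := (-5120)) (d := (-2560)) (by norm_num) (by norm_num) (by norm_num) (by norm_num)
    (CovZ.topM TP_LL 0 (by decide +kernel) (CovZ.badM (by decide +kernel)))
    (CovZ.topM TP_LL 0 (by decide +kernel) (CovZ.badM (by decide +kernel)))

theorem TP_s3_0 : SqZ TP_M TP_L [0, 7, 2, 5] (-2560) (-5120) 2560 3 0 :=
  SqZ.mk (a := 5120) (b := 7680) (c := (-5120)) (d := (-2560)) (by norm_num) (by norm_num) (by norm_num) (by norm_num)
    (CovZ.topM TP_LL 0 (by decide +kernel) (CovZ.badM (by decide +kernel)))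
    (CovZ.topM TP_LL 0 (by decide +kernel) (CovZ.badM (by decide +kernel)))

theorem TP_s4_0 : SqZ TP_M TP_L [0, 7, 2, 5] (-2560) (-5120) 2560 4 0 :=
  SqZ.mk (a := 7680) (b := 10240) (c := (-5120)) (d := (-2560)) (by norm_num) (by norm_num) (by norm_num) (by norm_num)
    (CovZ.topM TP_LL 0 (by decide +kernel) (CovZ.badM (by decide +kernel)))
    (CovZ.topM TP_LL 0 (by decide +kernel) (CovZ.badM (by decide +kernel)))

theorem TP_s5_0 : SqZ TP_M TP_L [0, 7, 2, 5] (-2560) (-5120) 2560 5 0 :=
  SqZ.mk (a := 10240) (b := 12800) (c := (-5120)) (d := (-2560)) (by norm_num) (by norm_num) (by norm_num) (by norm_num)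
    (CovZ.topM TP_LL 324518553658426726783190380314624 (by decide +kernel) (CovZ.n2 (11520, -3840) (by decide +kernel)
    (CovZ.n2 (12800, -3840) (by decide +kernel)
     (CovZ.n2 (12160, -4480) (by decide +kernel)
      (CovZ.n2 (12160, -3840) (by decide +kernel)
       (CovZ.n2 (12480, -4160) (by decide +kernel)
        (CovZ.n2 (12160, -4160) (by decide +kernel)
         (CovZ.leaf K2_ok TP_l7884 _)
         (CovZ.leaf K2_ok TP_l7885 _))
        (CovZ.leaf K2_ok TP_l7886 _))
       (CovZ.n1 (11840, -4160) (by decide +kernel)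
        (CovZ.n2 (11840, -3840) (by decide +kernel)
         (CovZ.leaf K2_ok TP_l7887 _)
         (CovZ.leaf K2_ok TP_l7888 _))
        (CovZ.n1 (12160, -4160) (by decide +kernel)
         (CovZ.n2 (12000, -4320) (by decide +kernel)
          (CovZ.leaf K2_ok TP_l7889 _)
          (CovZ.leaf K2_ok TP_l7890 _))
         (CovZ.leaf K2_ok TP_l7891 _))))
      (CovZ.n1 (12800, -4480) (by decide +kernel)
       (CovZ.n2 (12480, -4800) (by decide +kernel)
        (CovZ.n2 (12480, -4480) (by decide +kernel)
         (CovZ.n2 (12640, -4640) (by decide +kernel)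
          (CovZ.n2 (12480, -4640) (by decide +kernel)
           (CovZ.leaf K2_ok TP_l7892 _)
           (CovZ.leaf K2_ok TP_l7893 _))
          (CovZ.leaf K2_ok TP_l7894 _))
         (CovZ.n1 (12320, -4640) (by decide +kernel)
          (CovZ.n2 (12320, -4480) (by decide +kernel)
           (CovZ.leaf K2_ok TP_l7895 _)
           (CovZ.badM (by decide +kernel)))
          (CovZ.n1 (12480, -4640) (by decide +kernel)
           (CovZ.n2 (12400, -4720) (by decide +kernel)
            (CovZ.leaf K2_ok TP_l7896 _)
            (CovZ.leaf K2_ok TP_l7897 _))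
           (CovZ.leaf K2_ok TP_l7898 _))))
        (CovZ.n1 (12800, -4800) (by decide +kernel)
         (CovZ.badM (by decide +kernel))
         (CovZ.n1 (12640, -4640) (by decide +kernel)
          (CovZ.leaf K2_ok TP_l7899 _)
          (CovZ.n1 (12640, -4800) (by decide +kernel)
           (CovZ.leaf K2_ok TP_l7900 _)
           (CovZ.leaf K2_ok TP_l7901 _)))))
       (CovZ.n1 (12480, -4160) (by decide +kernel)
        (CovZ.leaf K2_ok TP_l7902 _)
        (CovZ.n1 (12480, -4480) (by decide +kernel)
         (CovZ.leaf K2_ok TP_l7903 _)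
         (CovZ.leaf K2_ok TP_l7904 _)))))
     (CovZ.n1 (12160, -3200) (by decide +kernel)
      (CovZ.leaf K2_ok TP_l7905 _)
      (CovZ.n1 (12160, -3840) (by decide +kernel)
       (CovZ.n2 (11840, -3520) (by decide +kernel)
        (CovZ.leaf K2_ok TP_l7906 _)
        (CovZ.leaf K2_ok TP_l7907 _))
       (CovZ.n1 (12480, -3520) (by decide +kernel)
        (CovZ.leaf K2_ok TP_l7908 _)
        (CovZ.leaf K2_ok TP_l7909 _)))))
    (CovZ.n1 (11520, -5120) (by decide +kernel)
     (CovZ.n2 (10880, -4480) (by decide +kernel)
      (CovZ.n2 (11520, -4480) (by decide +kernel)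
       (CovZ.badM (by decide +kernel))
       (CovZ.n1 (11200, -4160) (by decide +kernel)
        (CovZ.n2 (11520, -4160) (by decide +kernel)
         (CovZ.n2 (11360, -4320) (by decide +kernel)
          (CovZ.leaf K2_ok TP_l7910 _)
          (CovZ.leaf K2_ok TP_l7911 _))
         (CovZ.leaf K2_ok TP_l7912 _))
        (CovZ.n1 (11200, -4480) (by decide +kernel)
         (CovZ.badM (by decide +kernel))
         (CovZ.n1 (11360, -4320) (by decide +kernel)
          (CovZ.n2 (11360, -4480) (by decide +kernel)
           (CovZ.leaf K2_ok TP_l7913 _)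
           (CovZ.leaf K2_ok TP_l7914 _))
          (CovZ.n1 (11200, -4320) (by decide +kernel)
           (CovZ.leaf K2_ok TP_l7915 _)
           (CovZ.leaf K2_ok TP_l7916 _))))))
      (CovZ.badM (by decide +kernel)))
     (CovZ.n1 (12160, -4480) (by decide +kernel)
      (CovZ.n2 (12160, -5120) (by decide +kernel)
       (CovZ.badM (by decide +kernel))
       (CovZ.n1 (12480, -4800) (by decide +kernel)
        (CovZ.badM (by decide +kernel))
        (CovZ.n1 (12160, -4800) (by decide +kernel)
         (CovZ.n2 (12320, -4640) (by decide +kernel)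
          (CovZ.n2 (12320, -4800) (by decide +kernel)
           (CovZ.badM (by decide +kernel))
           (CovZ.leaf K2_ok TP_l7917 _))
          (CovZ.badM (by decide +kernel)))
         (CovZ.badM (by decide +kernel)))))
      (CovZ.n1 (11520, -4480) (by decide +kernel)
       (CovZ.n2 (11840, -4160) (by decide +kernel)
        (CovZ.n2 (11840, -4480) (by decide +kernel)
         (CovZ.n2 (11680, -4320) (by decide +kernel)
          (CovZ.leaf K2_ok TP_l7918 _)
          (CovZ.n1 (11680, -4480) (by decide +kernel)
           (CovZ.leaf K2_ok TP_l7919 _)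
           (CovZ.leaf K2_ok TP_l7920 _)))
         (CovZ.n1 (12000, -4320) (by decide +kernel)
          (CovZ.leaf K2_ok TP_l7921 _)
          (CovZ.leaf K2_ok TP_l7922 _)))
        (CovZ.n1 (11520, -4160) (by decide +kernel)
         (CovZ.leaf K2_ok TP_l7923 _)
         (CovZ.n1 (11680, -4320) (by decide +kernel)
          (CovZ.n2 (11520, -4320) (by decide +kernel)
           (CovZ.leaf K2_ok TP_l7924 _)
           (CovZ.leaf K2_ok TP_l7925 _))
          (CovZ.leaf K2_ok TP_l7926 _))))
       (CovZ.badM (by decide +kernel)))))))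
    (CovZ.topM TP_LL 324518553658426726783190380314624 (by decide +kernel) (CovZ.n0 (11520, -3840) (by decide +kernel)
    (CovZ.n2 (10240, -3840) (by decide +kernel)
     (CovZ.n2 (10880, -3200) (by decide +kernel)
      (CovZ.n2 (10880, -3840) (by decide +kernel)
       (CovZ.badM (by decide +kernel))
       (CovZ.n1 (11200, -3520) (by decide +kernel)
        (CovZ.leaf K2_ok TP_l7927 _)
        (CovZ.badM (by decide +kernel))))
      (CovZ.badM (by decide +kernel)))
     (CovZ.n1 (10880, -4480) (by decide +kernel)
      (CovZ.badM (by decide +kernel))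
      (CovZ.n1 (10880, -3840) (by decide +kernel)
       (CovZ.n2 (11200, -4160) (by decide +kernel)
        (CovZ.badM (by decide +kernel))
        (CovZ.n1 (11200, -3840) (by decide +kernel)
         (CovZ.leaf K2_ok TP_l7928 _)
         (CovZ.badM (by decide +kernel))))
       (CovZ.badM (by decide +kernel)))))
    (CovZ.n1 (11520, -2560) (by decide +kernel)
     (CovZ.n2 (12160, -3200) (by decide +kernel)
      (CovZ.n2 (11520, -3200) (by decide +kernel)
       (CovZ.leaf K2_ok TP_l7929 _)
       (CovZ.leaf K2_ok TP_l7930 _))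
      (CovZ.leaf K2_ok TP_l7931 _))
     (CovZ.n1 (10880, -3200) (by decide +kernel)
      (CovZ.n2 (10880, -2560) (by decide +kernel)
       (CovZ.leaf K2_ok TP_l7932 _)
       (CovZ.badM (by decide +kernel)))
      (CovZ.n1 (11520, -3200) (by decide +kernel)
       (CovZ.n2 (11200, -3520) (by decide +kernel)
        (CovZ.leaf K2_ok TP_l7933 _)
        (CovZ.leaf K2_ok TP_l7934 _))
       (CovZ.leaf K2_ok TP_l7935 _))))))

theorem TP_s6_0 : SqZ TP_M TP_L [0, 7, 2, 5] (-2560) (-5120) 2560 6 0 :=
  SqZ.mk (a := 12800) (b := 15360) (c := (-5120)) (d := (-2560)) (by norm_num) (by norm_num) (by norm_num) (by norm_num)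
    (CovZ.topM TP_LL 1393796575313812138419015800519501979582464 (by decide +kernel) (CovZ.n2 (14080, -3840) (by decide +kernel)
    (CovZ.n2 (15360, -3840) (by decide +kernel)
     (CovZ.n2 (14720, -4480) (by decide +kernel)
      (CovZ.n2 (14720, -3840) (by decide +kernel)
       (CovZ.leaf K2_ok TP_l7972 _)
       (CovZ.leaf K2_ok TP_l7973 _))
      (CovZ.n1 (15360, -4480) (by decide +kernel)
       (CovZ.n2 (15040, -4800) (by decide +kernel)
        (CovZ.leaf K2_ok TP_l7974 _)
        (CovZ.leaf K2_ok TP_l7975 _))
       (CovZ.leaf K2_ok TP_l7976 _)))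
     (CovZ.n1 (14720, -3200) (by decide +kernel)
      (CovZ.leaf K2_ok TP_l7977 _)
      (CovZ.leaf K2_ok TP_l7978 _)))
    (CovZ.n1 (14080, -5120) (by decide +kernel)
     (CovZ.n2 (13440, -4480) (by decide +kernel)
      (CovZ.n2 (14080, -4480) (by decide +kernel)
       (CovZ.n2 (13760, -4800) (by decide +kernel)
        (CovZ.n2 (13760, -4480) (by decide +kernel)
         (CovZ.leaf K2_ok TP_l7979 _)
         (CovZ.leaf K2_ok TP_l7980 _))
        (CovZ.n1 (14080, -4800) (by decide +kernel)
         (CovZ.n2 (13920, -4960) (by decide +kernel)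
          (CovZ.leaf K2_ok TP_l7981 _)
          (CovZ.leaf K2_ok TP_l7982 _))
         (CovZ.leaf K2_ok TP_l7983 _)))
       (CovZ.n1 (13760, -4160) (by decide +kernel)
        (CovZ.leaf K2_ok TP_l7984 _)
        (CovZ.leaf K2_ok TP_l7985 _)))
      (CovZ.n1 (13440, -5120) (by decide +kernel)
       (CovZ.n2 (13120, -4800) (by decide +kernel)
        (CovZ.n2 (13440, -4800) (by decide +kernel)
         (CovZ.n2 (13280, -4960) (by decide +kernel)
          (CovZ.n2 (13280, -4800) (by decide +kernel)
           (CovZ.leaf K2_ok TP_l7986 _)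
           (CovZ.leaf K2_ok TP_l7987 _))
          (CovZ.n1 (13440, -4960) (by decide +kernel)
           (CovZ.n2 (13360, -5040) (by decide +kernel)
            (CovZ.leaf K2_ok TP_l7988 _)
            (CovZ.leaf K2_ok TP_l7989 _))
           (CovZ.leaf K2_ok TP_l7990 _)))
         (CovZ.n1 (13280, -4640) (by decide +kernel)
          (CovZ.leaf K2_ok TP_l7991 _)
          (CovZ.leaf K2_ok TP_l7992 _)))
        (CovZ.n1 (13120, -5120) (by decide +kernel)
         (CovZ.n2 (12960, -4960) (by decide +kernel)
          (CovZ.n2 (13120, -4960) (by decide +kernel)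
           (CovZ.badM (by decide +kernel))
           (CovZ.leaf K2_ok TP_l7993 _))
          (CovZ.badM (by decide +kernel)))
         (CovZ.n1 (13280, -4960) (by decide +kernel)
          (CovZ.n2 (13280, -5120) (by decide +kernel)
           (CovZ.n2 (13200, -5040) (by decide +kernel)
            (CovZ.leaf K2_ok TP_l7994 _)
            (CovZ.badM (by decide +kernel)))
           (CovZ.n1 (13360, -5040) (by decide +kernel)
            (CovZ.badM (by decide +kernel))
            (CovZ.leaf K2_ok TP_l7995 _)))
          (CovZ.n1 (13120, -4960) (by decide +kernel)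
           (CovZ.leaf K2_ok TP_l7996 _)
           (CovZ.n1 (13200, -5040) (by decide +kernel)
            (CovZ.leaf K2_ok TP_l7997 _)
            (CovZ.leaf K2_ok TP_l7998 _))))))
       (CovZ.n1 (13760, -4800) (by decide +kernel)
        (CovZ.n2 (13760, -5120) (by decide +kernel)
         (CovZ.n2 (13600, -4960) (by decide +kernel)
          (CovZ.leaf K2_ok TP_l7999 _)
          (CovZ.n1 (13600, -5120) (by decide +kernel)
           (CovZ.leaf K2_ok TP_l8000 _)
           (CovZ.leaf K2_ok TP_l8001 _)))
         (CovZ.n1 (13920, -4960) (by decide +kernel)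
          (CovZ.leaf K2_ok TP_l8002 _)
          (CovZ.leaf K2_ok TP_l8003 _)))
        (CovZ.n1 (13440, -4800) (by decide +kernel)
         (CovZ.leaf K2_ok TP_l8004 _)
         (CovZ.n1 (13600, -4960) (by decide +kernel)
          (CovZ.leaf K2_ok TP_l8005 _)
          (CovZ.leaf K2_ok TP_l8006 _))))))
     (CovZ.n1 (14720, -4480) (by decide +kernel)
      (CovZ.n2 (14720, -5120) (by decide +kernel)
       (CovZ.n2 (14400, -4800) (by decide +kernel)
        (CovZ.leaf K2_ok TP_l8007 _)
        (CovZ.n1 (14400, -5120) (by decide +kernel)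
         (CovZ.leaf K2_ok TP_l8008 _)
         (CovZ.leaf K2_ok TP_l8009 _)))
       (CovZ.n1 (15040, -4800) (by decide +kernel)
        (CovZ.leaf K2_ok TP_l8010 _)
        (CovZ.leaf K2_ok TP_l8011 _)))
      (CovZ.n1 (14080, -4480) (by decide +kernel)
       (CovZ.leaf K2_ok TP_l8012 _)
       (CovZ.n1 (14400, -4800) (by decide +kernel)
        (CovZ.leaf K2_ok TP_l8013 _)
        (CovZ.leaf K2_ok TP_l8014 _)))))))
    (CovZ.topM TP_LL 1393796575313812138419015800519501979582464 (by decide +kernel) (CovZ.n0 (14080, -3840) (by decide +kernel)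
    (CovZ.n2 (12800, -3840) (by decide +kernel)
     (CovZ.n2 (13440, -3200) (by decide +kernel)
      (CovZ.n2 (13440, -3840) (by decide +kernel)
       (CovZ.leaf K2_ok TP_l8015 _)
       (CovZ.leaf K2_ok TP_l8016 _))
      (CovZ.leaf K2_ok TP_l8017 _))
     (CovZ.n1 (13440, -4480) (by decide +kernel)
      (CovZ.n2 (12800, -4480) (by decide +kernel)
       (CovZ.n2 (13120, -4160) (by decide +kernel)
        (CovZ.n2 (13120, -4480) (by decide +kernel)
         (CovZ.leaf K2_ok TP_l8018 _)
         (CovZ.leaf K2_ok TP_l8019 _))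
        (CovZ.leaf K2_ok TP_l8020 _))
       (CovZ.n1 (13120, -4800) (by decide +kernel)
        (CovZ.n2 (12800, -4800) (by decide +kernel)
         (CovZ.n2 (12960, -4640) (by decide +kernel)
          (CovZ.leaf K2_ok TP_l8021 _)
          (CovZ.leaf K2_ok TP_l8022 _))
         (CovZ.n1 (12960, -4960) (by decide +kernel)
          (CovZ.badM (by decide +kernel))
          (CovZ.n1 (12960, -4800) (by decide +kernel)
           (CovZ.leaf K2_ok TP_l8023 _)
           (CovZ.badM (by decide +kernel)))))
        (CovZ.n1 (13120, -4480) (by decide +kernel)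
         (CovZ.leaf K2_ok TP_l8024 _)
         (CovZ.n1 (12960, -4640) (by decide +kernel)
          (CovZ.leaf K2_ok TP_l8025 _)
          (CovZ.leaf K2_ok TP_l8026 _)))))
      (CovZ.n1 (13440, -3840) (by decide +kernel)
       (CovZ.n2 (13760, -4160) (by decide +kernel)
        (CovZ.leaf K2_ok TP_l8027 _)
        (CovZ.leaf K2_ok TP_l8028 _))
       (CovZ.n1 (13120, -4160) (by decide +kernel)
        (CovZ.leaf K2_ok TP_l8029 _)
        (CovZ.leaf K2_ok TP_l8030 _)))))
    (CovZ.n1 (14080, -2560) (by decide +kernel)
     (CovZ.n2 (14720, -3200) (by decide +kernel)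
      (CovZ.leaf K2_ok TP_l8031 _)
      (CovZ.leaf K2_ok TP_l8032 _))
     (CovZ.n1 (13440, -3200) (by decide +kernel)
      (CovZ.leaf K2_ok TP_l8033 _)
      (CovZ.leaf K2_ok TP_l8034 _)))))

theorem TP_s0_1 : SqZ TP_M TP_L [0, 7, 2, 5] (-2560) (-5120) 2560 0 1 :=
  SqZ.mk (a := (-2560)) (b := 0) (c := (-2560)) (d := 0) (by norm_num) (by norm_num) (by norm_num) (by norm_num)
    (CovZ.topM TP_LL 0 (by decide +kernel) (CovZ.badM (by decide +kernel)))
    (CovZ.topM TP_LL 0 (by decide +kernel) (CovZ.badM (by decide +kernel)))

theorem TP_s1_1 : SqZ TP_M TP_L [0, 7, 2, 5] (-2560) (-5120) 2560 1 1 :=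
  SqZ.mk (a := 0) (b := 2560) (c := (-2560)) (d := 0) (by norm_num) (by norm_num) (by norm_num) (by norm_num)
    (CovZ.topM TP_LL 83076749736708948079762983966307329 (by decide +kernel) (CovZ.n2 (1280, -1280) (by decide +kernel)
    (CovZ.n2 (2560, -1280) (by decide +kernel)
     (CovZ.badM (by decide +kernel))
     (CovZ.n1 (1920, -640) (by decide +kernel)
      (CovZ.n2 (2560, -640) (by decide +kernel)
       (CovZ.badM (by decide +kernel))
       (CovZ.n1 (2240, -320) (by decide +kernel)
        (CovZ.n2 (2560, -320) (by decide +kernel)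
         (CovZ.subM 83076749736708948079750128620011520 (by decide +kernel)
          (CovZ.n2 (2400, -480) (by decide +kernel)
           (CovZ.n2 (2400, -320) (by decide +kernel)
            (CovZ.n2 (2480, -400) (by decide +kernel)
             (CovZ.leaf K2_ok TP_l902 _)
             (CovZ.leaf K2_ok TP_l903 _))
            (CovZ.n1 (2320, -400) (by decide +kernel)
             (CovZ.leaf K2_ok TP_l904 _)
             (CovZ.leaf K2_ok TP_l905 _)))
           (CovZ.n1 (2560, -480) (by decide +kernel)
            (CovZ.n2 (2480, -560) (by decide +kernel)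
             (CovZ.n2 (2480, -480) (by decide +kernel)
              (CovZ.leaf K2_ok TP_l906 _)
              (CovZ.leaf K2_ok TP_l907 _))
             (CovZ.n1 (2560, -560) (by decide +kernel)
              (CovZ.n2 (2520, -600) (by decide +kernel)
               (CovZ.leaf K2_ok TP_l908 _)
               (CovZ.n1 (2560, -600) (by decide +kernel)
                (CovZ.leaf K2_ok TP_l909 _)
                (CovZ.leaf K2_ok TP_l910 _)))
              (CovZ.leaf K2_ok TP_l911 _)))
            (CovZ.n1 (2480, -400) (by decide +kernel)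
             (CovZ.leaf K2_ok TP_l912 _)
             (CovZ.leaf K2_ok TP_l913 _)))))
         (CovZ.n1 (2400, -160) (by decide +kernel)
          (CovZ.n2 (2560, -160) (by decide +kernel)
           (CovZ.leaf K2_ok TP_l914 _)
           (CovZ.leaf K2_ok TP_l915 _))
          (CovZ.n1 (2400, -320) (by decide +kernel)
           (CovZ.leaf K2_ok TP_l916 _)
           (CovZ.leaf K2_ok TP_l917 _))))
        (CovZ.subM 83076749736708948079750334778441728 (by decide +kernel)
         (CovZ.n1 (2240, -640) (by decide +kernel)
          (CovZ.n2 (2080, -480) (by decide +kernel)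
           (CovZ.n2 (2240, -480) (by decide +kernel)
            (CovZ.n2 (2160, -560) (by decide +kernel)
             (CovZ.n2 (2160, -480) (by decide +kernel)
              (CovZ.n2 (2200, -520) (by decide +kernel)
               (CovZ.n2 (2160, -520) (by decide +kernel)
                (CovZ.leaf K2_ok TP_l918 _)
                (CovZ.leaf K2_ok TP_l919 _))
               (CovZ.leaf K2_ok TP_l920 _))
              (CovZ.n1 (2120, -520) (by decide +kernel)
               (CovZ.leaf K2_ok TP_l921 _)
               (CovZ.n1 (2160, -520) (by decide +kernel)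
                (CovZ.leaf K2_ok TP_l922 _)
                (CovZ.leaf K2_ok TP_l923 _))))
             (CovZ.n1 (2240, -560) (by decide +kernel)
              (CovZ.n2 (2200, -600) (by decide +kernel)
               (CovZ.n2 (2200, -560) (by decide +kernel)
                (CovZ.n2 (2220, -580) (by decide +kernel)
                 (CovZ.leaf K2_ok TP_l924 _)
                 (CovZ.leaf K2_ok TP_l925 _))
                (CovZ.n1 (2180, -580) (by decide +kernel)
                 (CovZ.leaf K2_ok TP_l926 _)
                 (CovZ.leaf K2_ok TP_l927 _)))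
               (CovZ.n1 (2240, -600) (by decide +kernel)
                (CovZ.badM (by decide +kernel))
                (CovZ.leaf K2_ok TP_l928 _)))
              (CovZ.n1 (2200, -520) (by decide +kernel)
               (CovZ.leaf K2_ok TP_l929 _)
               (CovZ.n1 (2200, -560) (by decide +kernel)
                (CovZ.leaf K2_ok TP_l930 _)
                (CovZ.leaf K2_ok TP_l931 _)))))
            (CovZ.n1 (2160, -400) (by decide +kernel)
             (CovZ.leaf K2_ok TP_l932 _)
             (CovZ.n1 (2160, -480) (by decide +kernel)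
              (CovZ.leaf K2_ok TP_l933 _)
              (CovZ.leaf K2_ok TP_l934 _))))
           (CovZ.n1 (2080, -640) (by decide +kernel)
            (CovZ.badM (by decide +kernel))
            (CovZ.n1 (2160, -560) (by decide +kernel)
             (CovZ.n2 (2160, -640) (by decide +kernel)
              (CovZ.n2 (2120, -600) (by decide +kernel)
               (CovZ.n2 (2160, -600) (by decide +kernel)
                (CovZ.badM (by decide +kernel))
                (CovZ.n1 (2140, -580) (by decide +kernel)
                 (CovZ.leaf K2_ok TP_l935 _)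
                 (CovZ.leaf K2_ok TP_l936 _)))
               (CovZ.badM (by decide +kernel)))
              (CovZ.n1 (2200, -600) (by decide +kernel)
               (CovZ.badM (by decide +kernel))
               (CovZ.n1 (2160, -600) (by decide +kernel)
                (CovZ.n2 (2180, -580) (by decide +kernel)
                 (CovZ.leaf K2_ok TP_l937 _)
                 (CovZ.leaf K2_ok TP_l938 _))
                (CovZ.badM (by decide +kernel)))))
             (CovZ.n1 (2080, -560) (by decide +kernel)
              (CovZ.n2 (2120, -520) (by decide +kernel)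
               (CovZ.n2 (2120, -560) (by decide +kernel)
                (CovZ.badM (by decide +kernel))
                (CovZ.leaf K2_ok TP_l939 _))
               (CovZ.badM (by decide +kernel)))
              (CovZ.n1 (2120, -600) (by decide +kernel)
               (CovZ.badM (by decide +kernel))
               (CovZ.n1 (2120, -560) (by decide +kernel)
                (CovZ.n2 (2140, -580) (by decide +kernel)
                 (CovZ.badM (by decide +kernel))
                 (CovZ.leaf K2_ok TP_l940 _))
                (CovZ.badM (by decide +kernel))))))))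
          (CovZ.n1 (2400, -480) (by decide +kernel)
           (CovZ.n2 (2400, -640) (by decide +kernel)
            (CovZ.n2 (2320, -560) (by decide +kernel)
             (CovZ.n2 (2400, -560) (by decide +kernel)
              (CovZ.n2 (2360, -600) (by decide +kernel)
               (CovZ.n2 (2360, -560) (by decide +kernel)
                (CovZ.leaf K2_ok TP_l941 _)
                (CovZ.leaf K2_ok TP_l942 _))
               (CovZ.n1 (2400, -600) (by decide +kernel)
                (CovZ.badM (by decide +kernel))
                (CovZ.leaf K2_ok TP_l945 _)))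
              (CovZ.n1 (2360, -520) (by decide +kernel)
               (CovZ.leaf K2_ok TP_l946 _)
               (CovZ.leaf K2_ok TP_l947 _)))
             (CovZ.n1 (2320, -640) (by decide +kernel)
              (CovZ.n2 (2280, -600) (by decide +kernel)
               (CovZ.n2 (2320, -600) (by decide +kernel)
                (CovZ.badM (by decide +kernel))
                (CovZ.leaf K2_ok TP_l948 _))
               (CovZ.badM (by decide +kernel)))
              (CovZ.n1 (2360, -600) (by decide +kernel)
               (CovZ.badM (by decide +kernel))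
               (CovZ.n1 (2320, -600) (by decide +kernel)
                (CovZ.leaf K2_ok TP_l949 _)
                (CovZ.badM (by decide +kernel))))))
            (CovZ.n1 (2480, -560) (by decide +kernel)
             (CovZ.n2 (2480, -640) (by decide +kernel)
              (CovZ.n2 (2440, -600) (by decide +kernel)
               (CovZ.n2 (2480, -600) (by decide +kernel)
                (CovZ.leaf K2_ok TP_l950 _)
                (CovZ.leaf K2_ok TP_l951 _))
               (CovZ.n1 (2440, -640) (by decide +kernel)
                (CovZ.badM (by decide +kernel))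
                (CovZ.n1 (2460, -620) (by decide +kernel)
                 (CovZ.leaf K2_ok TP_l953 _)
                 (CovZ.leaf K2_ok TP_l954 _))))
              (CovZ.n1 (2520, -600) (by decide +kernel)
               (CovZ.n2 (2520, -640) (by decide +kernel)
                (CovZ.leaf K2_ok TP_l955 _)
                (CovZ.leaf K2_ok TP_l956 _))
               (CovZ.n1 (2480, -600) (by decide +kernel)
                (CovZ.leaf K2_ok TP_l957 _)
                (CovZ.leaf K2_ok TP_l958 _))))
             (CovZ.n1 (2400, -560) (by decide +kernel)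
              (CovZ.leaf K2_ok TP_l959 _)
              (CovZ.n1 (2440, -600) (by decide +kernel)
               (CovZ.n2 (2400, -600) (by decide +kernel)
                (CovZ.leaf K2_ok TP_l960 _)
                (CovZ.badM (by decide +kernel)))
               (CovZ.leaf K2_ok TP_l963 _)))))
           (CovZ.n1 (2240, -480) (by decide +kernel)
            (CovZ.n2 (2320, -400) (by decide +kernel)
             (CovZ.leaf K2_ok TP_l964 _)
             (CovZ.leaf K2_ok TP_l965 _))
            (CovZ.n1 (2320, -560) (by decide +kernel)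
             (CovZ.n2 (2240, -560) (by decide +kernel)
              (CovZ.n2 (2280, -520) (by decide +kernel)
               (CovZ.leaf K2_ok TP_l966 _)
               (CovZ.leaf K2_ok TP_l967 _))
              (CovZ.n1 (2280, -600) (by decide +kernel)
               (CovZ.n2 (2240, -600) (by decide +kernel)
                (CovZ.leaf K2_ok TP_l968 _)
                (CovZ.badM (by decide +kernel)))
               (CovZ.n1 (2280, -560) (by decide +kernel)
                (CovZ.leaf K2_ok TP_l969 _)
                (CovZ.leaf K2_ok TP_l970 _))))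
             (CovZ.n1 (2320, -480) (by decide +kernel)
              (CovZ.n2 (2360, -520) (by decide +kernel)
               (CovZ.leaf K2_ok TP_l971 _)
               (CovZ.leaf K2_ok TP_l972 _))
              (CovZ.n1 (2280, -520) (by decide +kernel)
               (CovZ.leaf K2_ok TP_l973 _)
               (CovZ.leaf K2_ok TP_l974 _))))))))))
      (CovZ.badM (by decide +kernel))))
    (CovZ.badM (by decide +kernel))))
    (CovZ.topM TP_LL 83076749736708948079762983966307329 (by decide +kernel) (CovZ.n0 (1280, -1280) (by decide +kernel)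
    (CovZ.n2 (0, -1280) (by decide +kernel)
     (CovZ.n2 (640, -640) (by decide +kernel)
      (CovZ.badM (by decide +kernel))
      (CovZ.badM (by decide +kernel)))
     (CovZ.badM (by decide +kernel)))
    (CovZ.n1 (1280, 0) (by decide +kernel)
     (CovZ.n2 (1920, -640) (by decide +kernel)
      (CovZ.n2 (1280, -640) (by decide +kernel)
       (CovZ.n2 (1600, -320) (by decide +kernel)
        (CovZ.badM (by decide +kernel))
        (CovZ.subM 12649048924161 (by decide +kernel)
         (CovZ.n1 (1280, -320) (by decide +kernel)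
          (CovZ.n2 (1440, -160) (by decide +kernel)
           (CovZ.n2 (1440, -320) (by decide +kernel)
            (CovZ.n2 (1360, -240) (by decide +kernel)
             (CovZ.leaf K2_ok TP_l975 _)
             (CovZ.leaf K2_ok TP_l976 _))
            (CovZ.n1 (1520, -240) (by decide +kernel)
             (CovZ.leaf K2_ok TP_l977 _)
             (CovZ.leaf K2_ok TP_l978 _)))
           (CovZ.n1 (1280, -160) (by decide +kernel)
            (CovZ.leaf K2_ok TP_l979 _)
            (CovZ.n1 (1360, -240) (by decide +kernel)
             (CovZ.leaf K2_ok TP_l980 _)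
             (CovZ.leaf K2_ok TP_l981 _))))
          (CovZ.badM (by decide +kernel)))))
       (CovZ.badM (by decide +kernel)))
      (CovZ.n1 (1920, 0) (by decide +kernel)
       (CovZ.n2 (2240, -320) (by decide +kernel)
        (CovZ.n2 (1920, -320) (by decide +kernel)
         (CovZ.n2 (2080, -160) (by decide +kernel)
          (CovZ.n2 (2080, -320) (by decide +kernel)
           (CovZ.leaf K2_ok TP_l982 _)
           (CovZ.leaf K2_ok TP_l983 _))
          (CovZ.n1 (1920, -160) (by decide +kernel)
           (CovZ.leaf K2_ok TP_l984 _)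
           (CovZ.leaf K2_ok TP_l985 _)))
         (CovZ.subM 83076749736708357783939976072790016 (by decide +kernel)
          (CovZ.n1 (2080, -480) (by decide +kernel)
           (CovZ.badM (by decide +kernel))
           (CovZ.n1 (2080, -320) (by decide +kernel)
            (CovZ.n2 (2160, -400) (by decide +kernel)
             (CovZ.n2 (2080, -400) (by decide +kernel)
              (CovZ.leaf K2_ok TP_l986 _)
              (CovZ.leaf K2_ok TP_l987 _))
             (CovZ.leaf K2_ok TP_l988 _))
            (CovZ.badM (by decide +kernel))))))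
        (CovZ.n1 (2240, 0) (by decide +kernel)
         (CovZ.n2 (2400, -160) (by decide +kernel)
          (CovZ.n2 (2240, -160) (by decide +kernel)
           (CovZ.leaf K2_ok TP_l989 _)
           (CovZ.leaf K2_ok TP_l990 _))
          (CovZ.leaf K2_ok TP_l991 _))
         (CovZ.n1 (2080, -160) (by decide +kernel)
          (CovZ.leaf K2_ok TP_l992 _)
          (CovZ.n1 (2240, -160) (by decide +kernel)
           (CovZ.leaf K2_ok TP_l993 _)
           (CovZ.leaf K2_ok TP_l994 _)))))
       (CovZ.n1 (1600, -320) (by decide +kernel)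
        (CovZ.n2 (1600, 0) (by decide +kernel)
         (CovZ.n2 (1760, -160) (by decide +kernel)
          (CovZ.n2 (1600, -160) (by decide +kernel)
           (CovZ.leaf K2_ok TP_l995 _)
           (CovZ.n1 (1680, -240) (by decide +kernel)
            (CovZ.leaf K2_ok TP_l996 _)
            (CovZ.leaf K2_ok TP_l997 _)))
          (CovZ.leaf K2_ok TP_l998 _))
         (CovZ.subM 12649048924161 (by decide +kernel)
          (CovZ.n1 (1440, -160) (by decide +kernel)
           (CovZ.n2 (1440, 0) (by decide +kernel)
            (CovZ.leaf K2_ok TP_l999 _)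
            (CovZ.leaf K2_ok TP_l1000 _))
           (CovZ.n1 (1600, -160) (by decide +kernel)
            (CovZ.n2 (1520, -240) (by decide +kernel)
             (CovZ.leaf K2_ok TP_l1001 _)
             (CovZ.leaf K2_ok TP_l1002 _))
            (CovZ.leaf K2_ok TP_l1003 _)))))
        (CovZ.n1 (1920, -320) (by decide +kernel)
         (CovZ.badM (by decide +kernel))
         (CovZ.n1 (1760, -160) (by decide +kernel)
          (CovZ.n2 (1920, -160) (by decide +kernel)
           (CovZ.leaf K2_ok TP_l1004 _)
           (CovZ.leaf K2_ok TP_l1005 _))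
          (CovZ.n1 (1760, -320) (by decide +kernel)
           (CovZ.n2 (1680, -240) (by decide +kernel)
            (CovZ.leaf K2_ok TP_l1006 _)
            (CovZ.leaf K2_ok TP_l1007 _))
           (CovZ.leaf K2_ok TP_l1008 _)))))))
     (CovZ.subM 12098922872833 (by decide +kernel)
      (CovZ.n1 (640, -640) (by decide +kernel)
       (CovZ.n2 (640, 0) (by decide +kernel)
        (CovZ.n2 (960, -320) (by decide +kernel)
         (CovZ.n2 (640, -320) (by decide +kernel)
          (CovZ.n2 (800, -160) (by decide +kernel)
           (CovZ.badM (by decide +kernel))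
           (CovZ.badM (by decide +kernel)))
          (CovZ.badM (by decide +kernel)))
         (CovZ.n1 (960, 0) (by decide +kernel)
          (CovZ.n2 (1120, -160) (by decide +kernel)
           (CovZ.n2 (960, -160) (by decide +kernel)
            (CovZ.leaf K2_ok TP_l1009 _)
            (CovZ.badM (by decide +kernel)))
           (CovZ.n1 (1120, 0) (by decide +kernel)
            (CovZ.leaf K2_ok TP_l1010 _)
            (CovZ.leaf K2_ok TP_l1011 _)))
          (CovZ.n1 (800, -160) (by decide +kernel)
           (CovZ.n2 (800, 0) (by decide +kernel)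
            (CovZ.leaf K2_ok TP_l1012 _)
            (CovZ.badM (by decide +kernel)))
           (CovZ.n1 (960, -160) (by decide +kernel)
            (CovZ.badM (by decide +kernel))
            (CovZ.leaf K2_ok TP_l1013 _)))))
        (CovZ.badM (by decide +kernel)))
       (CovZ.n1 (1280, -640) (by decide +kernel)
        (CovZ.badM (by decide +kernel))
        (CovZ.n1 (960, -320) (by decide +kernel)
         (CovZ.n2 (1280, -320) (by decide +kernel)
          (CovZ.badM (by decide +kernel))
          (CovZ.n1 (1120, -160) (by decide +kernel)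
           (CovZ.n2 (1280, -160) (by decide +kernel)
            (CovZ.n2 (1200, -240) (by decide +kernel)
             (CovZ.leaf K2_ok TP_l1014 _)
             (CovZ.leaf K2_ok TP_l1015 _))
            (CovZ.leaf K2_ok TP_l1016 _))
           (CovZ.n1 (1120, -320) (by decide +kernel)
            (CovZ.badM (by decide +kernel))
            (CovZ.n1 (1200, -240) (by decide +kernel)
             (CovZ.n2 (1200, -320) (by decide +kernel)
              (CovZ.badM (by decide +kernel))
              (CovZ.n1 (1240, -280) (by decide +kernel)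
               (CovZ.badM (by decide +kernel))
               (CovZ.badM (by decide +kernel))))
             (CovZ.n1 (1120, -240) (by decide +kernel)
              (CovZ.n2 (1160, -200) (by decide +kernel)
               (CovZ.badM (by decide +kernel))
               (CovZ.badM (by decide +kernel)))
              (CovZ.badM (by decide +kernel)))))))
         (CovZ.badM (by decide +kernel)))))))))

theorem TP_s2_1 : SqZ TP_M TP_L [0, 7, 2, 5] (-2560) (-5120) 2560 2 1 :=
  SqZ.mk (a := 2560) (b := 5120) (c := (-2560)) (d := 0) (by norm_num) (by norm_num) (by norm_num) (by norm_num)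
    (CovZ.topM TP_LL 53092687953990878661478415921622310478081 (by decide +kernel) (CovZ.n2 (3840, -1280) (by decide +kernel)
    (CovZ.n2 (5120, -1280) (by decide +kernel)
     (CovZ.badM (by decide +kernel))
     (CovZ.n1 (4480, -640) (by decide +kernel)
      (CovZ.n2 (5120, -640) (by decide +kernel)
       (CovZ.subM 53092604846815051666974259762374234865920 (by decide +kernel)
        (CovZ.n2 (4800, -960) (by decide +kernel)
         (CovZ.n2 (4800, -640) (by decide +kernel)
          (CovZ.n2 (4960, -800) (by decide +kernel)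
           (CovZ.n2 (4800, -800) (by decide +kernel)
            (CovZ.leaf K2_ok TP_l2424 _)
            (CovZ.n1 (4880, -880) (by decide +kernel)
             (CovZ.leaf K2_ok TP_l2425 _)
             (CovZ.leaf K2_ok TP_l2426 _)))
           (CovZ.leaf K2_ok TP_l2427 _))
          (CovZ.n1 (4640, -800) (by decide +kernel)
           (CovZ.n2 (4640, -640) (by decide +kernel)
            (CovZ.leaf K2_ok TP_l2428 _)
            (CovZ.leaf K2_ok TP_l2429 _))
           (CovZ.n1 (4800, -800) (by decide +kernel)
            (CovZ.n2 (4720, -880) (by decide +kernel)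
             (CovZ.leaf K2_ok TP_l2430 _)
             (CovZ.leaf K2_ok TP_l2431 _))
            (CovZ.leaf K2_ok TP_l2432 _))))
         (CovZ.n1 (5120, -960) (by decide +kernel)
          (CovZ.subM 44920099639203349390809183106621998366720 (by decide +kernel)
           (CovZ.n2 (4960, -1120) (by decide +kernel)
            (CovZ.n2 (4960, -960) (by decide +kernel)
             (CovZ.n2 (5040, -1040) (by decide +kernel)
              (CovZ.n2 (4960, -1040) (by decide +kernel)
               (CovZ.leaf K2_ok TP_l2433 _)
               (CovZ.n1 (5000, -1080) (by decide +kernel)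
                (CovZ.n2 (4960, -1080) (by decide +kernel)
                 (CovZ.leaf K2_ok TP_l2434 _)
                 (CovZ.leaf K2_ok TP_l2435 _))
                (CovZ.leaf K2_ok TP_l2436 _)))
              (CovZ.leaf K2_ok TP_l2437 _))
             (CovZ.n1 (4880, -1040) (by decide +kernel)
              (CovZ.n2 (4880, -960) (by decide +kernel)
               (CovZ.leaf K2_ok TP_l2438 _)
               (CovZ.leaf K2_ok TP_l2439 _))
              (CovZ.n1 (4960, -1040) (by decide +kernel)
               (CovZ.n2 (4920, -1080) (by decide +kernel)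
                (CovZ.leaf K2_ok TP_l2440 _)
                (CovZ.n1 (4960, -1080) (by decide +kernel)
                 (CovZ.leaf K2_ok TP_l2441 _)
                 (CovZ.leaf K2_ok TP_l2442 _)))
               (CovZ.leaf K2_ok TP_l2443 _))))
            (CovZ.n1 (5120, -1120) (by decide +kernel)
             (CovZ.badM (by decide +kernel))
             (CovZ.n1 (5040, -1040) (by decide +kernel)
              (CovZ.n2 (5120, -1040) (by decide +kernel)
               (CovZ.n2 (5080, -1080) (by decide +kernel)
                (CovZ.leaf K2_ok TP_l2449 _)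
                (CovZ.leaf K2_ok TP_l2450 _))
               (CovZ.leaf K2_ok TP_l2451 _))
              (CovZ.subM 2596148429267413814335625498722304 (by decide +kernel)
               (CovZ.n1 (5040, -1120) (by decide +kernel)
                (CovZ.n2 (5000, -1080) (by decide +kernel)
                 (CovZ.leaf K2_ok TP_l2452 _)
                 (CovZ.n1 (5000, -1120) (by decide +kernel)
                  (CovZ.leaf K2_ok TP_l2453 _)
                  (CovZ.leaf K2_ok TP_l2454 _)))
                (CovZ.n1 (5080, -1080) (by decide +kernel)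
                 (CovZ.leaf K2_ok TP_l2455 _)
                 (CovZ.leaf K2_ok TP_l2456 _))))))))
          (CovZ.n1 (4960, -800) (by decide +kernel)
           (CovZ.n2 (5120, -800) (by decide +kernel)
            (CovZ.leaf K2_ok TP_l2457 _)
            (CovZ.leaf K2_ok TP_l2458 _))
           (CovZ.n1 (4960, -960) (by decide +kernel)
            (CovZ.n2 (4880, -880) (by decide +kernel)
             (CovZ.leaf K2_ok TP_l2459 _)
             (CovZ.leaf K2_ok TP_l2460 _))
            (CovZ.n1 (5040, -880) (by decide +kernel)
             (CovZ.leaf K2_ok TP_l2461 _)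
             (CovZ.leaf K2_ok TP_l2462 _)))))))
       (CovZ.n1 (4800, -320) (by decide +kernel)
        (CovZ.n2 (5120, -320) (by decide +kernel)
         (CovZ.leaf K2_ok TP_l2463 _)
         (CovZ.leaf K2_ok TP_l2464 _))
        (CovZ.n1 (4800, -640) (by decide +kernel)
         (CovZ.n2 (4640, -480) (by decide +kernel)
          (CovZ.leaf K2_ok TP_l2465 _)
          (CovZ.leaf K2_ok TP_l2466 _))
         (CovZ.leaf K2_ok TP_l2467 _))))
      (CovZ.subM 53092604846815051666974259762374234865920 (by decide +kernel)
       (CovZ.n1 (4480, -1280) (by decide +kernel)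
        TP_u0
        TP_u1))))
    (CovZ.badM (by decide +kernel))))
    (CovZ.topM TP_LL 53092687953990878661478415921622310478081 (by decide +kernel) (CovZ.n0 (3840, -1280) (by decide +kernel)
    TP_u4
    TP_u5))

theorem TP_s3_1 : SqZ TP_M TP_L [0, 7, 2, 5] (-2560) (-5120) 2560 3 1 :=
  SqZ.mk (a := 5120) (b := 7680) (c := (-2560)) (d := 0) (by norm_num) (by norm_num) (by norm_num) (by norm_num)
    (CovZ.topM TP_LL 140555890076638352769955477405102381359361 (by decide +kernel) (CovZ.n2 (6400, -1280) (by decide +kernel)
    (CovZ.n2 (7680, -1280) (by decide +kernel)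
     (CovZ.subM 9671406556917033397649408 (by decide +kernel)
      (CovZ.n2 (7040, -1920) (by decide +kernel)
       (CovZ.n2 (7040, -1280) (by decide +kernel)
        (CovZ.n2 (7360, -1600) (by decide +kernel)
         (CovZ.badM (by decide +kernel))
         (CovZ.n1 (7360, -1280) (by decide +kernel)
          (CovZ.n2 (7520, -1440) (by decide +kernel)
           (CovZ.n2 (7360, -1440) (by decide +kernel)
            (CovZ.leaf K2_ok TP_l3369 _)
            (CovZ.n1 (7440, -1520) (by decide +kernel)
             (CovZ.leaf K2_ok TP_l3370 _)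
             (CovZ.leaf K2_ok TP_l3371 _)))
           (CovZ.leaf K2_ok TP_l3372 _))
          (CovZ.badM (by decide +kernel))))
        (CovZ.badM (by decide +kernel)))
       (CovZ.n1 (7680, -1920) (by decide +kernel)
        (CovZ.badM (by decide +kernel))
        (CovZ.n1 (7360, -1600) (by decide +kernel)
         (CovZ.n2 (7680, -1600) (by decide +kernel)
          (CovZ.badM (by decide +kernel))
          (CovZ.n1 (7520, -1440) (by decide +kernel)
           (CovZ.n2 (7680, -1440) (by decide +kernel)
            (CovZ.leaf K2_ok TP_l3373 _)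
            (CovZ.leaf K2_ok TP_l3374 _))
           (CovZ.n1 (7520, -1600) (by decide +kernel)
            (CovZ.n2 (7440, -1520) (by decide +kernel)
             (CovZ.leaf K2_ok TP_l3375 _)
             (CovZ.leaf K2_ok TP_l3376 _))
            (CovZ.leaf K2_ok TP_l3377 _))))
         (CovZ.badM (by decide +kernel))))))
     (CovZ.n1 (7040, -640) (by decide +kernel)
      (CovZ.n2 (7680, -640) (by decide +kernel)
       (CovZ.n2 (7360, -960) (by decide +kernel)
        (CovZ.leaf K2_ok TP_l3378 _)
        (CovZ.leaf K2_ok TP_l3379 _))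
       (CovZ.leaf K2_ok TP_l3380 _))
      (CovZ.subM 140555806969462525775451321245854305747200 (by decide +kernel)
       (CovZ.n1 (7040, -1280) (by decide +kernel)
        (CovZ.n2 (6720, -960) (by decide +kernel)
         (CovZ.n2 (7040, -960) (by decide +kernel)
          (CovZ.n2 (6880, -1120) (by decide +kernel)
           (CovZ.leaf K2_ok TP_l3381 _)
           (CovZ.leaf K2_ok TP_l3382 _))
          (CovZ.leaf K2_ok TP_l3383 _))
         (CovZ.subM 132383301761850813827879687673068671598592 (by decide +kernel)
          (CovZ.n1 (6720, -1280) (by decide +kernel)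
           (CovZ.n2 (6560, -1120) (by decide +kernel)
            (CovZ.leaf K2_ok TP_l3384 _)
            (CovZ.badM (by decide +kernel)))
           (CovZ.n1 (6880, -1120) (by decide +kernel)
            (CovZ.badM (by decide +kernel))
            (CovZ.n1 (6720, -1120) (by decide +kernel)
             (CovZ.leaf K2_ok TP_l3385 _)
             (CovZ.badM (by decide +kernel)))))))
        (CovZ.n1 (7360, -960) (by decide +kernel)
         (CovZ.n2 (7360, -1280) (by decide +kernel)
          (CovZ.n2 (7200, -1120) (by decide +kernel)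
           (CovZ.leaf K2_ok TP_l3386 _)
           (CovZ.badM (by decide +kernel)))
          (CovZ.leaf K2_ok TP_l3387 _))
         (CovZ.n1 (7040, -960) (by decide +kernel)
          (CovZ.leaf K2_ok TP_l3388 _)
          (CovZ.leaf K2_ok TP_l3389 _)))))))
    (CovZ.n1 (6400, -2560) (by decide +kernel)
     (CovZ.badM (by decide +kernel))
     (CovZ.n1 (7040, -1920) (by decide +kernel)
      (CovZ.badM (by decide +kernel))
      (CovZ.badM (by decide +kernel))))))
    (CovZ.topM TP_LL 140555890076638352769955477405102381359361 (by decide +kernel) (CovZ.n0 (6400, -1280) (by decide +kernel)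
    (CovZ.n2 (5120, -1280) (by decide +kernel)
     (CovZ.n2 (5760, -640) (by decide +kernel)
      (CovZ.subM 140555806969462516104044764328820908097792 (by decide +kernel)
       (CovZ.n2 (5760, -1280) (by decide +kernel)
        (CovZ.n2 (5440, -960) (by decide +kernel)
         (CovZ.n2 (5760, -960) (by decide +kernel)
          (CovZ.subM 132383301761850813827879687673068671598592 (by decide +kernel)
           (CovZ.n2 (5600, -1120) (by decide +kernel)
            (CovZ.n2 (5600, -960) (by decide +kernel)
             (CovZ.n2 (5680, -1040) (by decide +kernel)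
              (CovZ.leaf K2_ok TP_l3390 _)
              (CovZ.leaf K2_ok TP_l3391 _))
             (CovZ.n1 (5520, -1040) (by decide +kernel)
              (CovZ.leaf K2_ok TP_l3392 _)
              (CovZ.leaf K2_ok TP_l3393 _)))
            (CovZ.n1 (5760, -1120) (by decide +kernel)
             (CovZ.badM (by decide +kernel))
             (CovZ.n1 (5680, -1040) (by decide +kernel)
              (CovZ.leaf K2_ok TP_l3397 _)
              (CovZ.leaf K2_ok TP_l3398 _)))))
          (CovZ.n1 (5600, -800) (by decide +kernel)
           (CovZ.leaf K2_ok TP_l3399 _)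
           (CovZ.leaf K2_ok TP_l3400 _)))
         (CovZ.subM 132383301761850813827879687673068671598592 (by decide +kernel)
          (CovZ.n1 (5440, -1280) (by decide +kernel)
           (CovZ.n2 (5280, -1120) (by decide +kernel)
            (CovZ.n2 (5440, -1120) (by decide +kernel)
             (CovZ.badM (by decide +kernel))
             (CovZ.n1 (5360, -1040) (by decide +kernel)
              (CovZ.leaf K2_ok TP_l3406 _)
              (CovZ.n1 (5360, -1120) (by decide +kernel)
               (CovZ.leaf K2_ok TP_l3407 _)
               (CovZ.leaf K2_ok TP_l3408 _))))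
            (CovZ.badM (by decide +kernel)))
           (CovZ.n1 (5600, -1120) (by decide +kernel)
            (CovZ.badM (by decide +kernel))
            (CovZ.n1 (5440, -1120) (by decide +kernel)
             (CovZ.n2 (5520, -1040) (by decide +kernel)
              (CovZ.leaf K2_ok TP_l3413 _)
              (CovZ.leaf K2_ok TP_l3414 _))
             (CovZ.badM (by decide +kernel)))))))
        (CovZ.n1 (6080, -960) (by decide +kernel)
         (CovZ.subM 132383301761850813827879687673068671598592 (by decide +kernel)
          (CovZ.n2 (6080, -1280) (by decide +kernel)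
           (CovZ.n2 (5920, -1120) (by decide +kernel)
            (CovZ.n2 (6080, -1120) (by decide +kernel)
             (CovZ.badM (by decide +kernel))
             (CovZ.leaf K2_ok TP_l3419 _))
            (CovZ.badM (by decide +kernel)))
           (CovZ.n1 (6240, -1120) (by decide +kernel)
            (CovZ.badM (by decide +kernel))
            (CovZ.n1 (6080, -1120) (by decide +kernel)
             (CovZ.leaf K2_ok TP_l3420 _)
             (CovZ.badM (by decide +kernel))))))
         (CovZ.n1 (5760, -960) (by decide +kernel)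
          (CovZ.n2 (5920, -800) (by decide +kernel)
           (CovZ.leaf K2_ok TP_l3421 _)
           (CovZ.leaf K2_ok TP_l3422 _))
          (CovZ.subM 132383301761850813827879687673068671598592 (by decide +kernel)
           (CovZ.n1 (5920, -1120) (by decide +kernel)
            (CovZ.n2 (5760, -1120) (by decide +kernel)
             (CovZ.leaf K2_ok TP_l3423 _)
             (CovZ.badM (by decide +kernel)))
            (CovZ.n1 (5920, -960) (by decide +kernel)
             (CovZ.leaf K2_ok TP_l3426 _)
             (CovZ.leaf K2_ok TP_l3427 _))))))))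
      (CovZ.n1 (5120, -640) (by decide +kernel)
       (CovZ.n2 (5440, -320) (by decide +kernel)
        (CovZ.n2 (5440, -640) (by decide +kernel)
         (CovZ.leaf K2_ok TP_l3428 _)
         (CovZ.leaf K2_ok TP_l3429 _))
        (CovZ.n1 (5120, -320) (by decide +kernel)
         (CovZ.leaf K2_ok TP_l3430 _)
         (CovZ.leaf K2_ok TP_l3431 _)))
       (CovZ.subM 140555806969462516104044764328820908097792 (by decide +kernel)
        (CovZ.n1 (5440, -960) (by decide +kernel)
         (CovZ.n2 (5120, -960) (by decide +kernel)
          (CovZ.n2 (5280, -800) (by decide +kernel)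
           (CovZ.n2 (5280, -960) (by decide +kernel)
            (CovZ.leaf K2_ok TP_l3432 _)
            (CovZ.leaf K2_ok TP_l3433 _))
           (CovZ.n1 (5120, -800) (by decide +kernel)
            (CovZ.leaf K2_ok TP_l3434 _)
            (CovZ.leaf K2_ok TP_l3435 _)))
          (CovZ.subM 45260382006124287854272557714053766578176 (by decide +kernel)
           (CovZ.n1 (5280, -1120) (by decide +kernel)
            (CovZ.n2 (5120, -1120) (by decide +kernel)
             (CovZ.n2 (5200, -1040) (by decide +kernel)
              (CovZ.n2 (5200, -1120) (by decide +kernel)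
               (CovZ.n2 (5160, -1080) (by decide +kernel)
                (CovZ.leaf K2_ok TP_l3436 _)
                (CovZ.leaf K2_ok TP_l3437 _))
               (CovZ.leaf K2_ok TP_l3438 _))
              (CovZ.n1 (5120, -1040) (by decide +kernel)
               (CovZ.leaf K2_ok TP_l3439 _)
               (CovZ.n1 (5160, -1080) (by decide +kernel)
                (CovZ.leaf K2_ok TP_l3440 _)
                (CovZ.leaf K2_ok TP_l3441 _))))
             (CovZ.badM (by decide +kernel)))
            (CovZ.n1 (5280, -960) (by decide +kernel)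
             (CovZ.n2 (5360, -1040) (by decide +kernel)
              (CovZ.n2 (5280, -1040) (by decide +kernel)
               (CovZ.leaf K2_ok TP_l3448 _)
               (CovZ.leaf K2_ok TP_l3449 _))
              (CovZ.leaf K2_ok TP_l3450 _))
             (CovZ.n1 (5200, -1040) (by decide +kernel)
              (CovZ.leaf K2_ok TP_l3451 _)
              (CovZ.n1 (5280, -1040) (by decide +kernel)
               (CovZ.leaf K2_ok TP_l3452 _)
               (CovZ.leaf K2_ok TP_l3453 _)))))))
         (CovZ.n1 (5440, -640) (by decide +kernel)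
          (CovZ.n2 (5600, -800) (by decide +kernel)
           (CovZ.n2 (5440, -800) (by decide +kernel)
            (CovZ.leaf K2_ok TP_l3454 _)
            (CovZ.leaf K2_ok TP_l3455 _))
           (CovZ.leaf K2_ok TP_l3456 _))
          (CovZ.n1 (5280, -800) (by decide +kernel)
           (CovZ.leaf K2_ok TP_l3457 _)
           (CovZ.n1 (5440, -800) (by decide +kernel)
            (CovZ.leaf K2_ok TP_l3458 _)
            (CovZ.leaf K2_ok TP_l3459 _))))))))
     (CovZ.badM (by decide +kernel)))
    (CovZ.n1 (6400, 0) (by decide +kernel)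
     (CovZ.n2 (7040, -640) (by decide +kernel)
      (CovZ.n2 (6400, -640) (by decide +kernel)
       (CovZ.leaf K2_ok TP_l3460 _)
       (CovZ.subM 140555806969462516104044764328820908097792 (by decide +kernel)
        (CovZ.n1 (6720, -960) (by decide +kernel)
         (CovZ.n2 (6400, -960) (by decide +kernel)
          (CovZ.leaf K2_ok TP_l3461 _)
          (CovZ.n1 (6560, -1120) (by decide +kernel)
           (CovZ.n2 (6400, -1120) (by decide +kernel)
            (CovZ.leaf K2_ok TP_l3462 _)
            (CovZ.badM (by decide +kernel)))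
           (CovZ.leaf K2_ok TP_l3463 _)))
         (CovZ.leaf K2_ok TP_l3464 _))))
      (CovZ.leaf K2_ok TP_l3465 _))
     (CovZ.n1 (5760, -640) (by decide +kernel)
      (CovZ.n2 (5760, 0) (by decide +kernel)
       (CovZ.n2 (6080, -320) (by decide +kernel)
        (CovZ.leaf K2_ok TP_l3466 _)
        (CovZ.leaf K2_ok TP_l3467 _))
       (CovZ.n1 (5440, -320) (by decide +kernel)
        (CovZ.leaf K2_ok TP_l3468 _)
        (CovZ.leaf K2_ok TP_l3469 _)))
      (CovZ.n1 (6400, -640) (by decide +kernel)
       (CovZ.subM 140555806969462516104044764328820908097792 (by decide +kernel)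
        (CovZ.n2 (6080, -960) (by decide +kernel)
         (CovZ.n2 (6080, -640) (by decide +kernel)
          (CovZ.leaf K2_ok TP_l3470 _)
          (CovZ.leaf K2_ok TP_l3471 _))
         (CovZ.n1 (6400, -960) (by decide +kernel)
          (CovZ.n2 (6240, -1120) (by decide +kernel)
           (CovZ.leaf K2_ok TP_l3472 _)
           (CovZ.n1 (6400, -1120) (by decide +kernel)
            (CovZ.badM (by decide +kernel))
            (CovZ.leaf K2_ok TP_l3473 _)))
          (CovZ.leaf K2_ok TP_l3474 _))))
       (CovZ.n1 (6080, -320) (by decide +kernel)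
        (CovZ.leaf K2_ok TP_l3475 _)
        (CovZ.leaf K2_ok TP_l3476 _)))))))

theorem TP_s4_1 : SqZ TP_M TP_L [0, 7, 2, 5] (-2560) (-5120) 2560 4 1 :=
  SqZ.mk (a := 7680) (b := 10240) (c := (-2560)) (d := 0) (by norm_num) (by norm_num) (by norm_num) (by norm_num)
    (CovZ.topM TP_LL 140555890076638352769955477405102381359363 (by decide +kernel) (CovZ.n2 (8960, -1280) (by decide +kernel)
    (CovZ.n2 (10240, -1280) (by decide +kernel)
     (CovZ.subM 9671406556917033397649410 (by decide +kernel)
      (CovZ.n2 (9600, -1920) (by decide +kernel)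
       (CovZ.n2 (9600, -1280) (by decide +kernel)
        (CovZ.n2 (9920, -1600) (by decide +kernel)
         (CovZ.leaf K2_ok TP_l4731 _)
         (CovZ.leaf K2_ok TP_l4732 _))
        (CovZ.n1 (9280, -1600) (by decide +kernel)
         (CovZ.leaf K2_ok TP_l4733 _)
         (CovZ.leaf K2_ok TP_l4734 _)))
       (CovZ.n1 (10240, -1920) (by decide +kernel)
        (CovZ.badM (by decide +kernel))
        (CovZ.n1 (9920, -1600) (by decide +kernel)
         (CovZ.leaf K2_ok TP_l4735 _)
         (CovZ.leaf K2_ok TP_l4736 _)))))
     (CovZ.n1 (9600, -640) (by decide +kernel)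
      (CovZ.leaf K2_ok TP_l4737 _)
      (CovZ.leaf K2_ok TP_l4738 _)))
    (CovZ.subM 9671406556917033397649410 (by decide +kernel)
     (CovZ.n1 (8960, -2560) (by decide +kernel)
      (CovZ.n2 (8320, -1920) (by decide +kernel)
       (CovZ.n2 (8960, -1920) (by decide +kernel)
        (CovZ.badM (by decide +kernel))
        (CovZ.n1 (8640, -1600) (by decide +kernel)
         (CovZ.n2 (8960, -1600) (by decide +kernel)
          (CovZ.n2 (8800, -1760) (by decide +kernel)
           (CovZ.leaf K2_ok TP_l4739 _)
           (CovZ.leaf K2_ok TP_l4740 _))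
          (CovZ.leaf K2_ok TP_l4741 _))
         (CovZ.n1 (8640, -1920) (by decide +kernel)
          (CovZ.n2 (8480, -1760) (by decide +kernel)
           (CovZ.leaf K2_ok TP_l7828 _)
           (CovZ.n1 (8480, -1920) (by decide +kernel)
            (CovZ.n2 (8400, -1840) (by decide +kernel)
             (CovZ.leaf K2_ok TP_l7829 _)
             (CovZ.leaf K2_ok TP_l7830 _))
            (CovZ.leaf K2_ok TP_l7831 _)))
          (CovZ.n1 (8800, -1760) (by decide +kernel)
           (CovZ.leaf K2_ok TP_l4742 _)
           (CovZ.n1 (8640, -1760) (by decide +kernel)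
            (CovZ.leaf K2_ok TP_l4743 _)
            (CovZ.leaf K2_ok TP_l4744 _))))))
       (CovZ.badM (by decide +kernel)))
      (CovZ.n1 (9600, -1920) (by decide +kernel)
       (CovZ.badM (by decide +kernel))
       (CovZ.n1 (8960, -1920) (by decide +kernel)
        (CovZ.n2 (9280, -1600) (by decide +kernel)
         (CovZ.n2 (9280, -1920) (by decide +kernel)
          (CovZ.n2 (9120, -1760) (by decide +kernel)
           (CovZ.leaf K2_ok TP_l4745 _)
           (CovZ.leaf K2_ok TP_l4746 _))
          (CovZ.leaf K2_ok TP_l4747 _))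
         (CovZ.n1 (8960, -1600) (by decide +kernel)
          (CovZ.leaf K2_ok TP_l4748 _)
          (CovZ.n1 (9120, -1760) (by decide +kernel)
           (CovZ.leaf K2_ok TP_l4749 _)
           (CovZ.leaf K2_ok TP_l4750 _))))
        (CovZ.badM (by decide +kernel))))))))
    (CovZ.topM TP_LL 140555890076638352769955477405102381359363 (by decide +kernel) (CovZ.n0 (8960, -1280) (by decide +kernel)
    (CovZ.n2 (7680, -1280) (by decide +kernel)
     (CovZ.n2 (8320, -640) (by decide +kernel)
      (CovZ.n2 (8320, -1280) (by decide +kernel)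
       (CovZ.n2 (8000, -960) (by decide +kernel)
        (CovZ.leaf K2_ok TP_l4751 _)
        (CovZ.leaf K2_ok TP_l4752 _))
       (CovZ.leaf K2_ok TP_l4753 _))
      (CovZ.n1 (7680, -640) (by decide +kernel)
       (CovZ.leaf K2_ok TP_l4754 _)
       (CovZ.n1 (8000, -960) (by decide +kernel)
        (CovZ.leaf K2_ok TP_l4755 _)
        (CovZ.leaf K2_ok TP_l4756 _))))
     (CovZ.subM 9671406556917033397649410 (by decide +kernel)
      (CovZ.n1 (8320, -1920) (by decide +kernel)
       (CovZ.n2 (7680, -1920) (by decide +kernel)
        (CovZ.n2 (8000, -1600) (by decide +kernel)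
         (CovZ.badM (by decide +kernel))
         (CovZ.n1 (7680, -1600) (by decide +kernel)
          (CovZ.n2 (7840, -1440) (by decide +kernel)
           (CovZ.leaf K2_ok TP_l4757 _)
           (CovZ.leaf K2_ok TP_l4758 _))
          (CovZ.badM (by decide +kernel))))
        (CovZ.badM (by decide +kernel)))
       (CovZ.n1 (8320, -1280) (by decide +kernel)
        (CovZ.n2 (8640, -1600) (by decide +kernel)
         (CovZ.n2 (8320, -1600) (by decide +kernel)
          (CovZ.leaf K2_ok TP_l4759 _)
          (CovZ.n1 (8480, -1760) (by decide +kernel)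
           (CovZ.n2 (8320, -1760) (by decide +kernel)
            (CovZ.leaf K2_ok TP_l7832 _)
            (CovZ.n1 (8400, -1840) (by decide +kernel)
             (CovZ.leaf K2_ok TP_l7833 _)
             (CovZ.leaf K2_ok TP_l7834 _)))
           (CovZ.leaf K2_ok TP_l7835 _)))
         (CovZ.leaf K2_ok TP_l4760 _))
        (CovZ.n1 (8000, -1600) (by decide +kernel)
         (CovZ.n2 (8000, -1280) (by decide +kernel)
          (CovZ.leaf K2_ok TP_l4761 _)
          (CovZ.n1 (7840, -1440) (by decide +kernel)
           (CovZ.leaf K2_ok TP_l4762 _)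
           (CovZ.leaf K2_ok TP_l4763 _)))
         (CovZ.n1 (8320, -1600) (by decide +kernel)
          (CovZ.badM (by decide +kernel))
          (CovZ.leaf K2_ok TP_l4764 _)))))))
    (CovZ.n1 (8960, 0) (by decide +kernel)
     (CovZ.n2 (9600, -640) (by decide +kernel)
      (CovZ.leaf K2_ok TP_l4765 _)
      (CovZ.leaf K2_ok TP_l4766 _))
     (CovZ.n1 (8320, -640) (by decide +kernel)
      (CovZ.leaf K2_ok TP_l4767 _)
      (CovZ.n1 (8960, -640) (by decide +kernel)
       (CovZ.leaf K2_ok TP_l4768 _)
       (CovZ.leaf K2_ok TP_l4769 _))))))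

theorem TP_s5_1 : SqZ TP_M TP_L [0, 7, 2, 5] (-2560) (-5120) 2560 5 1 :=
  SqZ.mk (a := 10240) (b := 12800) (c := (-2560)) (d := 0) (by norm_num) (by norm_num) (by norm_num) (by norm_num)
    (CovZ.topM TP_LL 140555890401156906428382204188292761673987 (by decide +kernel) (CovZ.n2 (11520, -1280) (by decide +kernel)
    (CovZ.n2 (12800, -1280) (by decide +kernel)
     (CovZ.n2 (12160, -1920) (by decide +kernel)
      (CovZ.leaf K2_ok TP_l5097 _)
      (CovZ.n1 (12800, -1920) (by decide +kernel)
       (CovZ.leaf K2_ok TP_l7936 _)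
       (CovZ.leaf K2_ok TP_l5098 _)))
     (CovZ.leaf K2_ok TP_l5099 _))
    (CovZ.subM 324518563329833283700223777964034 (by decide +kernel)
     (CovZ.n1 (11520, -2560) (by decide +kernel)
      (CovZ.n2 (10880, -1920) (by decide +kernel)
       (CovZ.leaf K2_ok TP_l5100 _)
       (CovZ.n1 (10880, -2560) (by decide +kernel)
        (CovZ.badM (by decide +kernel))
        (CovZ.leaf K2_ok TP_l7937 _)))
      (CovZ.n1 (12160, -1920) (by decide +kernel)
       (CovZ.leaf K2_ok TP_l7938 _)
       (CovZ.leaf K2_ok TP_l5101 _))))))
    (CovZ.topM TP_LL 140555890401156906428382204188292761673987 (by decide +kernel) (CovZ.n0 (11520, -1280) (by decide +kernel)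
    (CovZ.n2 (10240, -1280) (by decide +kernel)
     (CovZ.n2 (10880, -640) (by decide +kernel)
      (CovZ.leaf K2_ok TP_l5102 _)
      (CovZ.leaf K2_ok TP_l5103 _))
     (CovZ.subM 9671406556917067757387778 (by decide +kernel)
      (CovZ.n1 (10880, -1920) (by decide +kernel)
       (CovZ.n2 (10240, -1920) (by decide +kernel)
        (CovZ.leaf K2_ok TP_l5104 _)
        (CovZ.badM (by decide +kernel)))
       (CovZ.n1 (10880, -1280) (by decide +kernel)
        (CovZ.leaf K2_ok TP_l5105 _)
        (CovZ.leaf K2_ok TP_l5106 _)))))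
    (CovZ.n1 (11520, 0) (by decide +kernel)
     (CovZ.leaf K2_ok TP_l5107 _)
     (CovZ.leaf K2_ok TP_l5108 _))))

theorem TP_s6_1 : SqZ TP_M TP_L [0, 7, 2, 5] (-2560) (-5120) 2560 6 1 :=
  SqZ.mk (a := 12800) (b := 15360) (c := (-2560)) (d := 0) (by norm_num) (by norm_num) (by norm_num) (by norm_num)
    (CovZ.topM TP_LL 1534352465390450491188971277924604360941827 (by decide +kernel) (CovZ.n2 (14080, -1280) (by decide +kernel)
    (CovZ.leaf K2_ok TP_l5191 _)
    (CovZ.n1 (14080, -2560) (by decide +kernel)
     (CovZ.n2 (13440, -1920) (by decide +kernel)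
      (CovZ.leaf K2_ok TP_l5192 _)
      (CovZ.leaf K2_ok TP_l8035 _))
     (CovZ.leaf K2_ok TP_l5193 _))))
    (CovZ.topM TP_LL 1534352465390450491188971277924604360941827 (by decide +kernel) (CovZ.n0 (14080, -1280) (by decide +kernel)
    (CovZ.n2 (12800, -1280) (by decide +kernel)
     (CovZ.leaf K2_ok TP_l5194 _)
     (CovZ.n1 (13440, -1920) (by decide +kernel)
      (CovZ.leaf K2_ok TP_l5195 _)
      (CovZ.leaf K2_ok TP_l5196 _)))
    (CovZ.leaf K2_ok TP_l5197 _)))

theorem TP_s0_2 : SqZ TP_M TP_L [0, 7, 2, 5] (-2560) (-5120) 2560 0 2 :=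
  SqZ.mk (a := (-2560)) (b := 0) (c := 0) (d := 2560) (by norm_num) (by norm_num) (by norm_num) (by norm_num)
    (CovZ.topM TP_LL 0 (by decide +kernel) (CovZ.badM (by decide +kernel)))
    (CovZ.topM TP_LL 0 (by decide +kernel) (CovZ.badM (by decide +kernel)))

theorem TP_s1_2 : SqZ TP_M TP_L [0, 7, 2, 5] (-2560) (-5120) 2560 1 2 :=
  SqZ.mk (a := 0) (b := 2560) (c := 0) (d := 2560) (by norm_num) (by norm_num) (by norm_num) (by norm_num)
    (CovZ.topM TP_LL 83076749736708948079762983966307329 (by decide +kernel) (CovZ.n2 (1280, 1280) (by decide +kernel)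
    TP_u18
    TP_u19))
    (CovZ.topM TP_LL 83076749736708948079762983966307329 (by decide +kernel) (CovZ.n0 (1280, 1280) (by decide +kernel)
    TP_u24
    TP_u25))

theorem TP_s2_2 : SqZ TP_M TP_L [0, 7, 2, 5] (-2560) (-5120) 2560 2 2 :=
  SqZ.mk (a := 2560) (b := 5120) (c := 0) (d := 2560) (by norm_num) (by norm_num) (by norm_num) (by norm_num)
    (CovZ.topM TP_LL 53092687953990878661478415921622310478081 (by decide +kernel) (CovZ.n2 (3840, 1280) (by decide +kernel)
    (CovZ.n2 (5120, 1280) (by decide +kernel)
     (CovZ.n2 (4480, 640) (by decide +kernel)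
      (CovZ.n2 (4480, 1280) (by decide +kernel)
       (CovZ.n2 (4800, 960) (by decide +kernel)
        (CovZ.leaf K2_ok TP_l2773 _)
        (CovZ.leaf K2_ok TP_l2774 _))
       (CovZ.n1 (4160, 960) (by decide +kernel)
        (CovZ.n2 (4160, 1280) (by decide +kernel)
         (CovZ.leaf K2_ok TP_l2775 _)
         (CovZ.leaf K2_ok TP_l2776 _))
        (CovZ.leaf K2_ok TP_l2777 _)))
      (CovZ.n1 (5120, 640) (by decide +kernel)
       (CovZ.leaf K2_ok TP_l2778 _)
       (CovZ.n1 (4800, 960) (by decide +kernel)
        (CovZ.leaf K2_ok TP_l2779 _)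
        (CovZ.leaf K2_ok TP_l2780 _))))
     (CovZ.n1 (4480, 1920) (by decide +kernel)
      (CovZ.n2 (5120, 1920) (by decide +kernel)
       (CovZ.n2 (4800, 1600) (by decide +kernel)
        (CovZ.n2 (4800, 1920) (by decide +kernel)
         (CovZ.leaf K2_ok TP_l2781 _)
         (CovZ.leaf K2_ok TP_l2782 _))
        (CovZ.n1 (5120, 1600) (by decide +kernel)
         (CovZ.leaf K2_ok TP_l2783 _)
         (CovZ.leaf K2_ok TP_l2784 _)))
       (CovZ.subM 53092604867099937150704500946871284400384 (by decide +kernel)
        (CovZ.n1 (4800, 2240) (by decide +kernel)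
         (CovZ.n2 (5120, 2240) (by decide +kernel)
          (CovZ.n2 (4960, 2080) (by decide +kernel)
           (CovZ.n2 (4960, 2240) (by decide +kernel)
            (CovZ.leaf K2_ok TP_l2785 _)
            (CovZ.leaf K2_ok TP_l2786 _))
           (CovZ.leaf K2_ok TP_l2787 _))
          (CovZ.n1 (4960, 2400) (by decide +kernel)
           (CovZ.n2 (5120, 2400) (by decide +kernel)
            (CovZ.leaf K2_ok TP_l2788 _)
            (CovZ.n1 (5040, 2480) (by decide +kernel)
             (CovZ.n2 (5120, 2480) (by decide +kernel)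
              (CovZ.leaf K2_ok TP_l2789 _)
              (CovZ.leaf K2_ok TP_l2790 _))
             (CovZ.leaf K2_ok TP_l2791 _)))
           (CovZ.n1 (4960, 2240) (by decide +kernel)
            (CovZ.n2 (4880, 2320) (by decide +kernel)
             (CovZ.leaf K2_ok TP_l2792 _)
             (CovZ.leaf K2_ok TP_l2793 _))
            (CovZ.leaf K2_ok TP_l2794 _))))
         (CovZ.n1 (4800, 1920) (by decide +kernel)
          (CovZ.n2 (4640, 2080) (by decide +kernel)
           (CovZ.n2 (4800, 2080) (by decide +kernel)
            (CovZ.leaf K2_ok TP_l2795 _)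
            (CovZ.leaf K2_ok TP_l2796 _))
           (CovZ.n1 (4640, 1920) (by decide +kernel)
            (CovZ.leaf K2_ok TP_l2797 _)
            (CovZ.leaf K2_ok TP_l2798 _)))
          (CovZ.n1 (4960, 2080) (by decide +kernel)
           (CovZ.leaf K2_ok TP_l2799 _)
           (CovZ.leaf K2_ok TP_l2800 _))))))
      (CovZ.n1 (4480, 1280) (by decide +kernel)
       (CovZ.n2 (4160, 1600) (by decide +kernel)
        (CovZ.n2 (4480, 1600) (by decide +kernel)
         (CovZ.leaf K2_ok TP_l2801 _)
         (CovZ.n1 (4320, 1760) (by decide +kernel)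
          (CovZ.leaf K2_ok TP_l2802 _)
          (CovZ.leaf K2_ok TP_l2803 _)))
        (CovZ.n1 (4160, 1280) (by decide +kernel)
         (CovZ.leaf K2_ok TP_l2804 _)
         (CovZ.leaf K2_ok TP_l2805 _)))
       (CovZ.n1 (4800, 1600) (by decide +kernel)
        (CovZ.n2 (4800, 1280) (by decide +kernel)
         (CovZ.leaf K2_ok TP_l2806 _)
         (CovZ.leaf K2_ok TP_l2807 _))
        (CovZ.n1 (4480, 1600) (by decide +kernel)
         (CovZ.leaf K2_ok TP_l2808 _)
         (CovZ.leaf K2_ok TP_l2809 _))))))
    (CovZ.n1 (3840, 0) (by decide +kernel)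
     (CovZ.n2 (3200, 640) (by decide +kernel)
      (CovZ.n2 (3840, 640) (by decide +kernel)
       (CovZ.n2 (3520, 320) (by decide +kernel)
        (CovZ.leaf K2_ok TP_l2810 _)
        (CovZ.leaf K2_ok TP_l2811 _))
       (CovZ.n1 (3520, 960) (by decide +kernel)
        (CovZ.n2 (3840, 960) (by decide +kernel)
         (CovZ.leaf K2_ok TP_l2812 _)
         (CovZ.leaf K2_ok TP_l2813 _))
        (CovZ.n1 (3520, 640) (by decide +kernel)
         (CovZ.leaf K2_ok TP_l2814 _)
         (CovZ.leaf K2_ok TP_l2815 _))))
      (CovZ.n1 (3200, 0) (by decide +kernel)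
       (CovZ.n2 (2880, 320) (by decide +kernel)
        (CovZ.leaf K2_ok TP_l2816 _)
        (CovZ.n1 (2880, 0) (by decide +kernel)
         (CovZ.leaf K2_ok TP_l2817 _)
         (CovZ.leaf K2_ok TP_l2818 _)))
       (CovZ.n1 (3520, 320) (by decide +kernel)
        (CovZ.leaf K2_ok TP_l2819 _)
        (CovZ.leaf K2_ok TP_l2820 _))))
     (CovZ.n1 (4480, 640) (by decide +kernel)
      (CovZ.n2 (4480, 0) (by decide +kernel)
       (CovZ.leaf K2_ok TP_l2821 _)
       (CovZ.leaf K2_ok TP_l2822 _))
      (CovZ.n1 (3840, 640) (by decide +kernel)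
       (CovZ.n2 (4160, 960) (by decide +kernel)
        (CovZ.leaf K2_ok TP_l2823 _)
        (CovZ.leaf K2_ok TP_l2824 _))
       (CovZ.n1 (4160, 320) (by decide +kernel)
        (CovZ.leaf K2_ok TP_l2825 _)
        (CovZ.leaf K2_ok TP_l2826 _)))))))
    (CovZ.topM TP_LL 53092687953990878661478415921622310478081 (by decide +kernel) (CovZ.n0 (3840, 1280) (by decide +kernel)
    TP_u32
    TP_u33))

theorem TP_s3_2 : SqZ TP_M TP_L [0, 7, 2, 5] (-2560) (-5120) 2560 3 2 :=
  SqZ.mk (a := 5120) (b := 7680) (c := 0) (d := 2560) (by norm_num) (by norm_num) (by norm_num) (by norm_num)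
    (CovZ.topM TP_LL 140555890076638352769955477405102381359361 (by decide +kernel) (CovZ.n2 (6400, 1280) (by decide +kernel)
    (CovZ.n2 (7680, 1280) (by decide +kernel)
     (CovZ.leaf K2_ok TP_l3477 _)
     (CovZ.n1 (7040, 1920) (by decide +kernel)
      (CovZ.leaf K2_ok TP_l3478 _)
      (CovZ.n1 (7040, 1280) (by decide +kernel)
       (CovZ.leaf K2_ok TP_l3479 _)
       (CovZ.leaf K2_ok TP_l3480 _))))
    (CovZ.n1 (6400, 0) (by decide +kernel)
     (CovZ.n2 (5760, 640) (by decide +kernel)
      (CovZ.leaf K2_ok TP_l3481 _)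
      (CovZ.leaf K2_ok TP_l3482 _))
     (CovZ.leaf K2_ok TP_l3483 _))))
    (CovZ.topM TP_LL 140555890076638352769955477405102381359361 (by decide +kernel) (CovZ.n0 (6400, 1280) (by decide +kernel)
    (CovZ.n2 (5120, 1280) (by decide +kernel)
     (CovZ.n2 (5760, 1920) (by decide +kernel)
      (CovZ.n2 (5760, 1280) (by decide +kernel)
       (CovZ.n2 (5440, 1600) (by decide +kernel)
        (CovZ.leaf K2_ok TP_l3484 _)
        (CovZ.leaf K2_ok TP_l3485 _))
       (CovZ.leaf K2_ok TP_l3486 _))
      (CovZ.n1 (5120, 1920) (by decide +kernel)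
       (CovZ.subM 140555806989747401587775005513317957632256 (by decide +kernel)
        (CovZ.n2 (5440, 2240) (by decide +kernel)
         (CovZ.n2 (5440, 1920) (by decide +kernel)
          (CovZ.n2 (5280, 2080) (by decide +kernel)
           (CovZ.leaf K2_ok TP_l3487 _)
           (CovZ.leaf K2_ok TP_l3488 _))
          (CovZ.leaf K2_ok TP_l3489 _))
         (CovZ.n1 (5120, 2240) (by decide +kernel)
          (CovZ.subM 47988357660333042407198566649966383595520 (by decide +kernel)
           (CovZ.n2 (5280, 2400) (by decide +kernel)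
            (CovZ.n2 (5280, 2240) (by decide +kernel)
             (CovZ.leaf K2_ok TP_l3490 _)
             (CovZ.leaf K2_ok TP_l3491 _))
            (CovZ.n1 (5120, 2400) (by decide +kernel)
             (CovZ.n2 (5200, 2480) (by decide +kernel)
              (CovZ.leaf K2_ok TP_l3492 _)
              (CovZ.leaf K2_ok TP_l3493 _))
             (CovZ.leaf K2_ok TP_l3494 _))))
          (CovZ.n1 (5280, 2080) (by decide +kernel)
           (CovZ.leaf K2_ok TP_l3495 _)
           (CovZ.leaf K2_ok TP_l3496 _)))))
       (CovZ.n1 (5440, 1600) (by decide +kernel)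
        (CovZ.leaf K2_ok TP_l3497 _)
        (CovZ.n1 (5440, 1920) (by decide +kernel)
         (CovZ.leaf K2_ok TP_l3498 _)
         (CovZ.leaf K2_ok TP_l3499 _)))))
     (CovZ.n1 (5760, 640) (by decide +kernel)
      (CovZ.leaf K2_ok TP_l3500 _)
      (CovZ.n1 (5760, 1280) (by decide +kernel)
       (CovZ.leaf K2_ok TP_l3501 _)
       (CovZ.leaf K2_ok TP_l3502 _))))
    (CovZ.n1 (6400, 2560) (by decide +kernel)
     (CovZ.n2 (7040, 1920) (by decide +kernel)
      (CovZ.n2 (6400, 1920) (by decide +kernel)
       (CovZ.n2 (6720, 2240) (by decide +kernel)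
        (CovZ.leaf K2_ok TP_l3503 _)
        (CovZ.leaf K2_ok TP_l3504 _))
       (CovZ.leaf K2_ok TP_l3505 _))
      (CovZ.n1 (7040, 2560) (by decide +kernel)
       (CovZ.leaf K2_ok TP_l3506 _)
       (CovZ.n1 (6720, 2240) (by decide +kernel)
        (CovZ.n2 (6720, 2560) (by decide +kernel)
         (CovZ.leaf K2_ok TP_l3507 _)
         (CovZ.leaf K2_ok TP_l3508 _))
        (CovZ.leaf K2_ok TP_l3509 _))))
     (CovZ.n1 (5760, 1920) (by decide +kernel)
      (CovZ.subM 140555806989747401587775005513317957632256 (by decide +kernel)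
       (CovZ.n2 (5760, 2560) (by decide +kernel)
        (CovZ.n2 (6080, 2240) (by decide +kernel)
         (CovZ.n2 (5760, 2240) (by decide +kernel)
          (CovZ.n2 (5920, 2400) (by decide +kernel)
           (CovZ.leaf K2_ok TP_l3510 _)
           (CovZ.leaf K2_ok TP_l3511 _))
          (CovZ.leaf K2_ok TP_l3512 _))
         (CovZ.n1 (6080, 2560) (by decide +kernel)
          (CovZ.n2 (6240, 2400) (by decide +kernel)
           (CovZ.leaf K2_ok TP_l3513 _)
           (CovZ.leaf K2_ok TP_l3514 _))
          (CovZ.n1 (5920, 2400) (by decide +kernel)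
           (CovZ.n2 (5920, 2560) (by decide +kernel)
            (CovZ.leaf K2_ok TP_l3515 _)
            (CovZ.leaf K2_ok TP_l3516 _))
           (CovZ.leaf K2_ok TP_l3517 _))))
        (CovZ.n1 (5440, 2240) (by decide +kernel)
         (CovZ.n2 (5440, 2560) (by decide +kernel)
          (CovZ.n2 (5600, 2400) (by decide +kernel)
           (CovZ.n2 (5440, 2400) (by decide +kernel)
            (CovZ.leaf K2_ok TP_l3518 _)
            (CovZ.leaf K2_ok TP_l3519 _))
           (CovZ.n1 (5600, 2560) (by decide +kernel)
            (CovZ.leaf K2_ok TP_l3520 _)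
            (CovZ.leaf K2_ok TP_l3521 _)))
          (CovZ.subM 47988357660333042407198566649966383595520 (by decide +kernel)
           (CovZ.n1 (5280, 2400) (by decide +kernel)
            (CovZ.subM 45260382006124287854272557714053766578176 (by decide +kernel)
             (CovZ.n2 (5280, 2560) (by decide +kernel)
              (CovZ.n2 (5360, 2480) (by decide +kernel)
               (CovZ.leaf K2_ok TP_l3522 _)
               (CovZ.leaf K2_ok TP_l3523 _))
              (CovZ.n1 (5200, 2480) (by decide +kernel)
               (CovZ.n2 (5200, 2560) (by decide +kernel)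
                (CovZ.leaf K2_ok TP_l3524 _)
                (CovZ.leaf K2_ok TP_l3525 _))
               (CovZ.leaf K2_ok TP_l3526 _))))
            (CovZ.n1 (5440, 2400) (by decide +kernel)
             (CovZ.leaf K2_ok TP_l3527 _)
             (CovZ.n1 (5360, 2480) (by decide +kernel)
              (CovZ.leaf K2_ok TP_l3528 _)
              (CovZ.leaf K2_ok TP_l3529 _))))))
         (CovZ.n1 (5760, 2240) (by decide +kernel)
          (CovZ.leaf K2_ok TP_l3530 _)
          (CovZ.n1 (5600, 2400) (by decide +kernel)
           (CovZ.leaf K2_ok TP_l3531 _)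
           (CovZ.leaf K2_ok TP_l3532 _))))))
      (CovZ.n1 (6400, 1920) (by decide +kernel)
       (CovZ.n2 (6080, 1600) (by decide +kernel)
        (CovZ.leaf K2_ok TP_l3533 _)
        (CovZ.leaf K2_ok TP_l3534 _))
       (CovZ.subM 140555806989747401587775005513317957632256 (by decide +kernel)
        (CovZ.n1 (6080, 2240) (by decide +kernel)
         (CovZ.n2 (6400, 2240) (by decide +kernel)
          (CovZ.leaf K2_ok TP_l3535 _)
          (CovZ.leaf K2_ok TP_l3536 _))
         (CovZ.n1 (6080, 1920) (by decide +kernel)
          (CovZ.leaf K2_ok TP_l3537 _)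
          (CovZ.leaf K2_ok TP_l3538 _)))))))))

theorem TP_s4_2 : SqZ TP_M TP_L [0, 7, 2, 5] (-2560) (-5120) 2560 4 2 :=
  SqZ.mk (a := 7680) (b := 10240) (c := 0) (d := 2560) (by norm_num) (by norm_num) (by norm_num) (by norm_num)
    (CovZ.topM TP_LL 140555890076638352769955477405102381359363 (by decide +kernel) (CovZ.n2 (8960, 1280) (by decide +kernel)
    (CovZ.leaf K2_ok TP_l4770 _)
    (CovZ.leaf K2_ok TP_l4771 _)))
    (CovZ.topM TP_LL 140555890076638352769955477405102381359363 (by decide +kernel) (CovZ.n0 (8960, 1280) (by decide +kernel)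
    (CovZ.n2 (7680, 1280) (by decide +kernel)
     (CovZ.leaf K2_ok TP_l4772 _)
     (CovZ.leaf K2_ok TP_l4773 _))
    (CovZ.n1 (8960, 2560) (by decide +kernel)
     (CovZ.leaf K2_ok TP_l4774 _)
     (CovZ.n1 (8320, 1920) (by decide +kernel)
      (CovZ.n2 (8320, 2560) (by decide +kernel)
       (CovZ.leaf K2_ok TP_l4775 _)
       (CovZ.leaf K2_ok TP_l4776 _))
      (CovZ.leaf K2_ok TP_l4777 _)))))

theorem TP_s5_2 : SqZ TP_M TP_L [0, 7, 2, 5] (-2560) (-5120) 2560 5 2 :=
  SqZ.mk (a := 10240) (b := 12800) (c := 0) (d := 2560) (by norm_num) (by norm_num) (by norm_num) (by norm_num)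
    (CovZ.topM TP_LL 140555890401156906428382204188292761673987 (by decide +kernel) (CovZ.n2 (11520, 1280) (by decide +kernel)
    (CovZ.leaf K2_ok TP_l5109 _)
    (CovZ.leaf K2_ok TP_l5110 _)))
    (CovZ.topM TP_LL 140555890401156906428382204188292761673987 (by decide +kernel) (CovZ.leaf K2_ok TP_l5111 _))

theorem TP_s6_2 : SqZ TP_M TP_L [0, 7, 2, 5] (-2560) (-5120) 2560 6 2 :=
  SqZ.mk (a := 12800) (b := 15360) (c := 0) (d := 2560) (by norm_num) (by norm_num) (by norm_num) (by norm_num)
    (CovZ.topM TP_LL 1534352465390450491188971277924604360941827 (by decide +kernel) (CovZ.leaf K2_ok TP_l5198 _))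
    (CovZ.topM TP_LL 1534352465390450491188971277924604360941827 (by decide +kernel) (CovZ.leaf K2_ok TP_l5199 _))

theorem TP_s0_3 : SqZ TP_M TP_L [0, 7, 2, 5] (-2560) (-5120) 2560 0 3 :=
  SqZ.mk (a := (-2560)) (b := 0) (c := 2560) (d := 5120) (by norm_num) (by norm_num) (by norm_num) (by norm_num)
    (CovZ.topM TP_LL 0 (by decide +kernel) (CovZ.badM (by decide +kernel)))
    (CovZ.topM TP_LL 0 (by decide +kernel) (CovZ.badM (by decide +kernel)))

theorem TP_s1_3 : SqZ TP_M TP_L [0, 7, 2, 5] (-2560) (-5120) 2560 1 3 :=
  SqZ.mk (a := 0) (b := 2560) (c := 2560) (d := 5120) (by norm_num) (by norm_num) (by norm_num) (by norm_num)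
    (CovZ.topM TP_LL 0 (by decide +kernel) (CovZ.badM (by decide +kernel)))
    (CovZ.topM TP_LL 0 (by decide +kernel) (CovZ.badM (by decide +kernel)))

theorem TP_s2_3 : SqZ TP_M TP_L [0, 7, 2, 5] (-2560) (-5120) 2560 2 3 :=
  SqZ.mk (a := 2560) (b := 5120) (c := 2560) (d := 5120) (by norm_num) (by norm_num) (by norm_num) (by norm_num)
    (CovZ.topM TP_LL 70377334112256 (by decide +kernel) (CovZ.n2 (3840, 3840) (by decide +kernel)
    (CovZ.n2 (5120, 3840) (by decide +kernel)
     (CovZ.n2 (4480, 3200) (by decide +kernel)
      (CovZ.badM (by decide +kernel))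
      (CovZ.n1 (5120, 3200) (by decide +kernel)
       (CovZ.n2 (4800, 2880) (by decide +kernel)
        (CovZ.badM (by decide +kernel))
        (CovZ.n1 (5120, 2880) (by decide +kernel)
         (CovZ.n2 (4960, 2720) (by decide +kernel)
          (CovZ.badM (by decide +kernel))
          (CovZ.n1 (5120, 2720) (by decide +kernel)
           (CovZ.n2 (5040, 2640) (by decide +kernel)
            (CovZ.badM (by decide +kernel))
            (CovZ.n1 (5120, 2640) (by decide +kernel)
             (CovZ.n2 (5080, 2600) (by decide +kernel)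
              (CovZ.n2 (5080, 2640) (by decide +kernel)
               (CovZ.leaf K2_ok TP_l3342 _)
               (CovZ.leaf K2_ok TP_l3343 _))
              (CovZ.leaf K2_ok TP_l3344 _))
             (CovZ.badM (by decide +kernel))))
           (CovZ.badM (by decide +kernel))))
         (CovZ.badM (by decide +kernel))))
       (CovZ.badM (by decide +kernel))))
     (CovZ.badM (by decide +kernel)))
    (CovZ.n1 (3840, 2560) (by decide +kernel)
     (CovZ.badM (by decide +kernel))
     (CovZ.n1 (4480, 3200) (by decide +kernel)
      (CovZ.n2 (4480, 2560) (by decide +kernel)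
       (CovZ.badM (by decide +kernel))
       (CovZ.n1 (4800, 2880) (by decide +kernel)
        (CovZ.n2 (4800, 2560) (by decide +kernel)
         (CovZ.badM (by decide +kernel))
         (CovZ.n1 (4960, 2720) (by decide +kernel)
          (CovZ.n2 (4960, 2560) (by decide +kernel)
           (CovZ.n2 (4880, 2640) (by decide +kernel)
            (CovZ.n2 (4960, 2640) (by decide +kernel)
             (CovZ.n2 (4920, 2600) (by decide +kernel)
              (CovZ.badM (by decide +kernel))
              (CovZ.n1 (4960, 2600) (by decide +kernel)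
               (CovZ.leaf K2_ok TP_l3350 _)
               (CovZ.badM (by decide +kernel))))
             (CovZ.badM (by decide +kernel)))
            (CovZ.n1 (4880, 2560) (by decide +kernel)
             (CovZ.n2 (4840, 2600) (by decide +kernel)
              (CovZ.n2 (4880, 2600) (by decide +kernel)
               (CovZ.n2 (4860, 2580) (by decide +kernel)
                (CovZ.badM (by decide +kernel))
                (CovZ.leaf K2_ok TP_l3351 _))
               (CovZ.badM (by decide +kernel)))
              (CovZ.n1 (4840, 2560) (by decide +kernel)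
               (CovZ.badM (by decide +kernel))
               (CovZ.n1 (4860, 2580) (by decide +kernel)
                (CovZ.leaf K2_ok TP_l3354 _)
                (CovZ.leaf K2_ok TP_l3355 _))))
             (CovZ.n1 (4920, 2600) (by decide +kernel)
              (CovZ.n2 (4920, 2560) (by decide +kernel)
               (CovZ.leaf K2_ok TP_l3356 _)
               (CovZ.leaf K2_ok TP_l3357 _))
              (CovZ.n1 (4880, 2600) (by decide +kernel)
               (CovZ.badM (by decide +kernel))
               (CovZ.leaf K2_ok TP_l3358 _)))))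
           (CovZ.n1 (5040, 2640) (by decide +kernel)
            (CovZ.n2 (5040, 2560) (by decide +kernel)
             (CovZ.n2 (5000, 2600) (by decide +kernel)
              (CovZ.n2 (5040, 2600) (by decide +kernel)
               (CovZ.leaf K2_ok TP_l3359 _)
               (CovZ.leaf K2_ok TP_l3360 _))
              (CovZ.leaf K2_ok TP_l3361 _))
             (CovZ.n1 (5080, 2600) (by decide +kernel)
              (CovZ.leaf K2_ok TP_l3362 _)
              (CovZ.leaf K2_ok TP_l3363 _)))
            (CovZ.n1 (4960, 2640) (by decide +kernel)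
             (CovZ.badM (by decide +kernel))
             (CovZ.n1 (5000, 2600) (by decide +kernel)
              (CovZ.n2 (4960, 2600) (by decide +kernel)
               (CovZ.leaf K2_ok TP_l3364 _)
               (CovZ.leaf K2_ok TP_l3365 _))
              (CovZ.n1 (5000, 2640) (by decide +kernel)
               (CovZ.leaf K2_ok TP_l3366 _)
               (CovZ.leaf K2_ok TP_l3367 _))))))
          (CovZ.n1 (4800, 2720) (by decide +kernel)
           (CovZ.badM (by decide +kernel))
           (CovZ.n1 (4880, 2640) (by decide +kernel)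
            (CovZ.n2 (4800, 2640) (by decide +kernel)
             (CovZ.badM (by decide +kernel))
             (CovZ.n1 (4840, 2600) (by decide +kernel)
              (CovZ.badM (by decide +kernel))
              (CovZ.badM (by decide +kernel))))
            (CovZ.badM (by decide +kernel))))))
        (CovZ.badM (by decide +kernel))))
      (CovZ.badM (by decide +kernel))))))
    (CovZ.topM TP_LL 70377334112256 (by decide +kernel) (CovZ.n0 (3840, 3840) (by decide +kernel)
    (CovZ.badM (by decide +kernel))
    (CovZ.badM (by decide +kernel))))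

theorem TP_s3_3 : SqZ TP_M TP_L [0, 7, 2, 5] (-2560) (-5120) 2560 3 3 :=
  SqZ.mk (a := 5120) (b := 7680) (c := 2560) (d := 5120) (by norm_num) (by norm_num) (by norm_num) (by norm_num)
    (CovZ.topM TP_LL 98416040807915180901204431910904531124224 (by decide +kernel) (CovZ.n2 (6400, 3840) (by decide +kernel)
    (CovZ.n2 (7680, 3840) (by decide +kernel)
     (CovZ.n2 (7040, 3200) (by decide +kernel)
      (CovZ.n2 (7040, 3840) (by decide +kernel)
       (CovZ.leaf K2_ok TP_l3539 _)
       (CovZ.n1 (6720, 3520) (by decide +kernel)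
        (CovZ.leaf K2_ok TP_l3540 _)
        (CovZ.leaf K2_ok TP_l3541 _)))
      (CovZ.n1 (7680, 3200) (by decide +kernel)
       (CovZ.n2 (7360, 2880) (by decide +kernel)
        (CovZ.leaf K2_ok TP_l3542 _)
        (CovZ.leaf K2_ok TP_l3543 _))
       (CovZ.n1 (7360, 3520) (by decide +kernel)
        (CovZ.leaf K2_ok TP_l3544 _)
        (CovZ.leaf K2_ok TP_l3545 _))))
     (CovZ.n1 (7040, 4480) (by decide +kernel)
      (CovZ.n2 (7680, 4480) (by decide +kernel)
       (CovZ.leaf K2_ok TP_l3546 _)
       (CovZ.leaf K2_ok TP_l3547 _))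
      (CovZ.n1 (7040, 3840) (by decide +kernel)
       (CovZ.n2 (6720, 4160) (by decide +kernel)
        (CovZ.leaf K2_ok TP_l3548 _)
        (CovZ.n1 (6720, 3840) (by decide +kernel)
         (CovZ.leaf K2_ok TP_l3549 _)
         (CovZ.leaf K2_ok TP_l3550 _)))
       (CovZ.leaf K2_ok TP_l3551 _))))
    (CovZ.n1 (6400, 2560) (by decide +kernel)
     (CovZ.n2 (5760, 3200) (by decide +kernel)
      (CovZ.n2 (6400, 3200) (by decide +kernel)
       (CovZ.subM 87463202122647464437070504672008379432960 (by decide +kernel)
        (CovZ.n2 (6080, 2880) (by decide +kernel)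
         (CovZ.subM 10633823966279326983230491666614976512 (by decide +kernel)
          (CovZ.n2 (6080, 3200) (by decide +kernel)
           (CovZ.n2 (6240, 3040) (by decide +kernel)
            (CovZ.leaf K2_ok TP_l3552 _)
            (CovZ.leaf K2_ok TP_l3553 _))
           (CovZ.n1 (5920, 3040) (by decide +kernel)
            (CovZ.n2 (5920, 3200) (by decide +kernel)
             (CovZ.leaf K2_ok TP_l3554 _)
             (CovZ.n1 (5840, 3120) (by decide +kernel)
              (CovZ.leaf K2_ok TP_l3555 _)
              (CovZ.leaf K2_ok TP_l3556 _)))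
            (CovZ.n1 (6080, 3040) (by decide +kernel)
             (CovZ.leaf K2_ok TP_l3557 _)
             (CovZ.leaf K2_ok TP_l3558 _)))))
         (CovZ.n1 (6400, 2880) (by decide +kernel)
          (CovZ.n2 (6240, 2720) (by decide +kernel)
           (CovZ.leaf K2_ok TP_l3559 _)
           (CovZ.leaf K2_ok TP_l3560 _))
          (CovZ.n1 (6240, 3040) (by decide +kernel)
           (CovZ.leaf K2_ok TP_l3561 _)
           (CovZ.leaf K2_ok TP_l3562 _)))))
       (CovZ.subM 10920937213368868811777678846862909636608 (by decide +kernel)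
        (CovZ.n1 (6080, 3520) (by decide +kernel)
         (CovZ.n2 (6400, 3520) (by decide +kernel)
          (CovZ.n2 (6240, 3360) (by decide +kernel)
           (CovZ.leaf K2_ok TP_l3563 _)
           (CovZ.leaf K2_ok TP_l3564 _))
          (CovZ.n1 (6240, 3680) (by decide +kernel)
           (CovZ.leaf K2_ok TP_l3565 _)
           (CovZ.leaf K2_ok TP_l3566 _)))
         (CovZ.n1 (6080, 3200) (by decide +kernel)
          (CovZ.n2 (5920, 3360) (by decide +kernel)
           (CovZ.n2 (6080, 3360) (by decide +kernel)
            (CovZ.leaf K2_ok TP_l3567 _)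
            (CovZ.leaf K2_ok TP_l3568 _))
           (CovZ.n1 (5920, 3200) (by decide +kernel)
            (CovZ.n2 (5840, 3280) (by decide +kernel)
             (CovZ.leaf K2_ok TP_l3569 _)
             (CovZ.leaf K2_ok TP_l3570 _))
            (CovZ.leaf K2_ok TP_l3571 _)))
          (CovZ.n1 (6240, 3360) (by decide +kernel)
           (CovZ.leaf K2_ok TP_l3572 _)
           (CovZ.leaf K2_ok TP_l3573 _))))))
      (CovZ.subM 87463202122647464437070504672008379432960 (by decide +kernel)
       (CovZ.n1 (5760, 2560) (by decide +kernel)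
        TP_u34
        TP_u35)))
     (CovZ.n1 (7040, 3200) (by decide +kernel)
      (CovZ.subM 87463202122647474108477061589041777082368 (by decide +kernel)
       (CovZ.n2 (7040, 2560) (by decide +kernel)
        (CovZ.n2 (6720, 2880) (by decide +kernel)
         (CovZ.n2 (7040, 2880) (by decide +kernel)
          (CovZ.leaf K2_ok TP_l3683 _)
          (CovZ.leaf K2_ok TP_l3684 _))
         (CovZ.n1 (6720, 2560) (by decide +kernel)
          (CovZ.n2 (6560, 2720) (by decide +kernel)
           (CovZ.leaf K2_ok TP_l3685 _)
           (CovZ.leaf K2_ok TP_l3686 _))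
          (CovZ.leaf K2_ok TP_l3687 _)))
        (CovZ.n1 (7360, 2880) (by decide +kernel)
         (CovZ.leaf K2_ok TP_l3688 _)
         (CovZ.leaf K2_ok TP_l3689 _))))
      (CovZ.n1 (6400, 3200) (by decide +kernel)
       (CovZ.n2 (6720, 3520) (by decide +kernel)
        (CovZ.n2 (6720, 3200) (by decide +kernel)
         (CovZ.leaf K2_ok TP_l3690 _)
         (CovZ.leaf K2_ok TP_l3691 _))
        (CovZ.leaf K2_ok TP_l3692 _))
       (CovZ.subM 87463202122647464437070504672008379432960 (by decide +kernel)
        (CovZ.n1 (6720, 2880) (by decide +kernel)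
         (CovZ.n2 (6400, 2880) (by decide +kernel)
          (CovZ.leaf K2_ok TP_l3693 _)
          (CovZ.leaf K2_ok TP_l3694 _))
         (CovZ.n1 (6720, 3200) (by decide +kernel)
          (CovZ.leaf K2_ok TP_l3695 _)
          (CovZ.leaf K2_ok TP_l3696 _)))))))))
    (CovZ.topM TP_LL 98416040807915180901204431910904531124224 (by decide +kernel) (CovZ.n0 (6400, 3840) (by decide +kernel)
    (CovZ.n2 (5120, 3840) (by decide +kernel)
     TP_u40
     TP_u41)
    (CovZ.n1 (6400, 5120) (by decide +kernel)
     (CovZ.n2 (7040, 4480) (by decide +kernel)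
      (CovZ.n2 (6400, 4480) (by decide +kernel)
       (CovZ.n2 (6720, 4800) (by decide +kernel)
        (CovZ.leaf K2_ok TP_l4066 _)
        (CovZ.leaf K2_ok TP_l4067 _))
       (CovZ.n1 (6720, 4160) (by decide +kernel)
        (CovZ.leaf K2_ok TP_l4068 _)
        (CovZ.leaf K2_ok TP_l4069 _)))
      (CovZ.n1 (7040, 5120) (by decide +kernel)
       (CovZ.leaf K2_ok TP_l4070 _)
       (CovZ.n1 (6720, 4800) (by decide +kernel)
        (CovZ.leaf K2_ok TP_l4071 _)
        (CovZ.leaf K2_ok TP_l4072 _))))
     (CovZ.n1 (5760, 4480) (by decide +kernel)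
      (CovZ.n2 (5760, 5120) (by decide +kernel)
       (CovZ.n2 (6080, 4800) (by decide +kernel)
        (CovZ.n2 (5760, 4800) (by decide +kernel)
         (CovZ.leaf K2_ok TP_l4073 _)
         (CovZ.leaf K2_ok TP_l4074 _))
        (CovZ.n1 (6080, 5120) (by decide +kernel)
         (CovZ.leaf K2_ok TP_l4075 _)
         (CovZ.n1 (5920, 4960) (by decide +kernel)
          (CovZ.leaf K2_ok TP_l4076 _)
          (CovZ.leaf K2_ok TP_l4077 _))))
       (CovZ.n1 (5440, 4800) (by decide +kernel)
        (CovZ.n2 (5440, 5120) (by decide +kernel)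
         (CovZ.n2 (5600, 4960) (by decide +kernel)
          (CovZ.n2 (5440, 4960) (by decide +kernel)
           (CovZ.leaf K2_ok TP_l4078 _)
           (CovZ.leaf K2_ok TP_l4079 _))
          (CovZ.n1 (5600, 5120) (by decide +kernel)
           (CovZ.leaf K2_ok TP_l4080 _)
           (CovZ.leaf K2_ok TP_l4081 _)))
         (CovZ.subM 10952838685267706792727370321862754041856 (by decide +kernel)
          (CovZ.n1 (5280, 4960) (by decide +kernel)
           (CovZ.n2 (5280, 5120) (by decide +kernel)
            (CovZ.n2 (5360, 5040) (by decide +kernel)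
             (CovZ.n2 (5280, 5040) (by decide +kernel)
              (CovZ.leaf K2_ok TP_l4082 _)
              (CovZ.leaf K2_ok TP_l4083 _))
             (CovZ.n1 (5360, 5120) (by decide +kernel)
              (CovZ.leaf K2_ok TP_l4084 _)
              (CovZ.leaf K2_ok TP_l4085 _)))
            (CovZ.subM 42535295865117307932921966666459381760 (by decide +kernel)
             (CovZ.n1 (5200, 5040) (by decide +kernel)
              (CovZ.n2 (5200, 5120) (by decide +kernel)
               (CovZ.n2 (5240, 5080) (by decide +kernel)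
                (CovZ.leaf K2_ok TP_l4086 _)
                (CovZ.leaf K2_ok TP_l4087 _))
               (CovZ.badM (by decide +kernel)))
              (CovZ.n1 (5280, 5040) (by decide +kernel)
               (CovZ.n2 (5240, 5000) (by decide +kernel)
                (CovZ.leaf K2_ok TP_l4091 _)
                (CovZ.leaf K2_ok TP_l4092 _))
               (CovZ.n1 (5240, 5080) (by decide +kernel)
                (CovZ.leaf K2_ok TP_l4093 _)
                (CovZ.leaf K2_ok TP_l4094 _))))))
           (CovZ.n1 (5440, 4960) (by decide +kernel)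
            (CovZ.n2 (5360, 4880) (by decide +kernel)
             (CovZ.n2 (5360, 4960) (by decide +kernel)
              (CovZ.leaf K2_ok TP_l4095 _)
              (CovZ.leaf K2_ok TP_l4096 _))
             (CovZ.leaf K2_ok TP_l4097 _))
            (CovZ.n1 (5360, 5040) (by decide +kernel)
             (CovZ.leaf K2_ok TP_l4098 _)
             (CovZ.n1 (5360, 4960) (by decide +kernel)
              (CovZ.leaf K2_ok TP_l4099 _)
              (CovZ.leaf K2_ok TP_l4100 _)))))))
        (CovZ.n1 (5760, 4800) (by decide +kernel)
         (CovZ.n2 (5600, 4640) (by decide +kernel)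
          (CovZ.n2 (5600, 4800) (by decide +kernel)
           (CovZ.leaf K2_ok TP_l4101 _)
           (CovZ.leaf K2_ok TP_l4102 _))
          (CovZ.n1 (5760, 4640) (by decide +kernel)
           (CovZ.leaf K2_ok TP_l4103 _)
           (CovZ.leaf K2_ok TP_l4104 _)))
         (CovZ.n1 (5600, 4960) (by decide +kernel)
          (CovZ.n2 (5760, 4960) (by decide +kernel)
           (CovZ.leaf K2_ok TP_l4105 _)
           (CovZ.leaf K2_ok TP_l4106 _))
          (CovZ.n1 (5600, 4800) (by decide +kernel)
           (CovZ.leaf K2_ok TP_l4107 _)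
           (CovZ.leaf K2_ok TP_l4108 _))))))
      (CovZ.n1 (6400, 4480) (by decide +kernel)
       (CovZ.n2 (6080, 4160) (by decide +kernel)
        (CovZ.n2 (6080, 4480) (by decide +kernel)
         (CovZ.leaf K2_ok TP_l4109 _)
         (CovZ.n1 (5920, 4320) (by decide +kernel)
          (CovZ.leaf K2_ok TP_l4110 _)
          (CovZ.leaf K2_ok TP_l4111 _)))
        (CovZ.n1 (6400, 4160) (by decide +kernel)
         (CovZ.leaf K2_ok TP_l4112 _)
         (CovZ.leaf K2_ok TP_l4113 _)))
       (CovZ.n1 (6080, 4800) (by decide +kernel)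
        (CovZ.n2 (6400, 4800) (by decide +kernel)
         (CovZ.leaf K2_ok TP_l4114 _)
         (CovZ.leaf K2_ok TP_l4115 _))
        (CovZ.n1 (6080, 4480) (by decide +kernel)
         (CovZ.n2 (5920, 4640) (by decide +kernel)
          (CovZ.leaf K2_ok TP_l4116 _)
          (CovZ.leaf K2_ok TP_l4117 _))
         (CovZ.leaf K2_ok TP_l4118 _))))))))

theorem TP_s4_3 : SqZ TP_M TP_L [0, 7, 2, 5] (-2560) (-5120) 2560 4 3 :=
  SqZ.mk (a := 7680) (b := 10240) (c := 2560) (d := 5120) (by norm_num) (by norm_num) (by norm_num) (by norm_num)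
    (CovZ.topM TP_LL 98416040807915180901204431910904531124226 (by decide +kernel) (CovZ.n2 (8960, 3840) (by decide +kernel)
    (CovZ.n2 (10240, 3840) (by decide +kernel)
     (CovZ.leaf K2_ok TP_l4778 _)
     (CovZ.leaf K2_ok TP_l4779 _))
    (CovZ.n1 (8960, 2560) (by decide +kernel)
     (CovZ.n2 (8320, 3200) (by decide +kernel)
      (CovZ.leaf K2_ok TP_l4780 _)
      (CovZ.n1 (8320, 2560) (by decide +kernel)
       (CovZ.leaf K2_ok TP_l4781 _)
       (CovZ.leaf K2_ok TP_l4782 _)))
     (CovZ.leaf K2_ok TP_l4783 _))))
    (CovZ.topM TP_LL 98416040807915180901204431910904531124226 (by decide +kernel) (CovZ.n0 (8960, 3840) (by decide +kernel)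
    (CovZ.n2 (7680, 3840) (by decide +kernel)
     (CovZ.n2 (8320, 4480) (by decide +kernel)
      (CovZ.n2 (8320, 3840) (by decide +kernel)
       (CovZ.leaf K2_ok TP_l4784 _)
       (CovZ.leaf K2_ok TP_l4785 _))
      (CovZ.leaf K2_ok TP_l4786 _))
     (CovZ.n1 (8320, 3200) (by decide +kernel)
      (CovZ.leaf K2_ok TP_l4787 _)
      (CovZ.leaf K2_ok TP_l4788 _)))
    (CovZ.n1 (8960, 5120) (by decide +kernel)
     (CovZ.leaf K2_ok TP_l4789 _)
     (CovZ.n1 (8320, 4480) (by decide +kernel)
      (CovZ.leaf K2_ok TP_l4790 _)
      (CovZ.leaf K2_ok TP_l4791 _)))))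

theorem TP_s5_3 : SqZ TP_M TP_L [0, 7, 2, 5] (-2560) (-5120) 2560 5 3 :=
  SqZ.mk (a := 10240) (b := 12800) (c := 2560) (d := 5120) (by norm_num) (by norm_num) (by norm_num) (by norm_num)
    (CovZ.topM TP_LL 98416041132433734559631158694094911438850 (by decide +kernel) (CovZ.n2 (11520, 3840) (by decide +kernel)
    (CovZ.leaf K2_ok TP_l5112 _)
    (CovZ.n1 (11520, 2560) (by decide +kernel)
     (CovZ.leaf K2_ok TP_l5113 _)
     (CovZ.leaf K2_ok TP_l5114 _))))
    (CovZ.topM TP_LL 98416041132433734559631158694094911438850 (by decide +kernel) (CovZ.n0 (11520, 3840) (by decide +kernel)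
    (CovZ.leaf K2_ok TP_l5115 _)
    (CovZ.leaf K2_ok TP_l5116 _)))

theorem TP_s6_3 : SqZ TP_M TP_L [0, 7, 2, 5] (-2560) (-5120) 2560 6 3 :=
  SqZ.mk (a := 12800) (b := 15360) (c := 2560) (d := 5120) (by norm_num) (by norm_num) (by norm_num) (by norm_num)
    (CovZ.topM TP_LL 1492212616121727319320220232430406510706690 (by decide +kernel) (CovZ.leaf K2_ok TP_l5200 _))
    (CovZ.topM TP_LL 1492212616121727319320220232430406510706690 (by decide +kernel) (CovZ.leaf K2_ok TP_l5201 _))

theorem TP_s0_4 : SqZ TP_M TP_L [0, 7, 2, 5] (-2560) (-5120) 2560 0 4 :=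
  SqZ.mk (a := (-2560)) (b := 0) (c := 5120) (d := 7680) (by norm_num) (by norm_num) (by norm_num) (by norm_num)
    (CovZ.topM TP_LL 0 (by decide +kernel) (CovZ.badM (by decide +kernel)))
    (CovZ.topM TP_LL 0 (by decide +kernel) (CovZ.badM (by decide +kernel)))

theorem TP_s1_4 : SqZ TP_M TP_L [0, 7, 2, 5] (-2560) (-5120) 2560 1 4 :=
  SqZ.mk (a := 0) (b := 2560) (c := 5120) (d := 7680) (by norm_num) (by norm_num) (by norm_num) (by norm_num)
    (CovZ.topM TP_LL 0 (by decide +kernel) (CovZ.badM (by decide +kernel)))
    (CovZ.topM TP_LL 0 (by decide +kernel) (CovZ.badM (by decide +kernel)))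

theorem TP_s2_4 : SqZ TP_M TP_L [0, 7, 2, 5] (-2560) (-5120) 2560 2 4 :=
  SqZ.mk (a := 2560) (b := 5120) (c := 5120) (d := 7680) (by norm_num) (by norm_num) (by norm_num) (by norm_num)
    (CovZ.topM TP_LL 0 (by decide +kernel) (CovZ.badM (by decide +kernel)))
    (CovZ.topM TP_LL 0 (by decide +kernel) (CovZ.badM (by decide +kernel)))

theorem TP_s3_4 : SqZ TP_M TP_L [0, 7, 2, 5] (-2560) (-5120) 2560 3 4 :=
  SqZ.mk (a := 5120) (b := 7680) (c := 5120) (d := 7680) (by norm_num) (by norm_num) (by norm_num) (by norm_num)
    (CovZ.topM TP_LL 10963472509233995791117157730562766667776 (by decide +kernel) (CovZ.n2 (6400, 6400) (by decide +kernel)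
    (CovZ.n2 (7680, 6400) (by decide +kernel)
     (CovZ.n2 (7040, 5760) (by decide +kernel)
      (CovZ.n2 (7040, 6400) (by decide +kernel)
       (CovZ.leaf K2_ok TP_l4119 _)
       (CovZ.n1 (6720, 6080) (by decide +kernel)
        (CovZ.leaf K2_ok TP_l4120 _)
        (CovZ.leaf K2_ok TP_l4121 _)))
      (CovZ.n1 (7680, 5760) (by decide +kernel)
       (CovZ.leaf K2_ok TP_l4122 _)
       (CovZ.leaf K2_ok TP_l4123 _)))
     (CovZ.subM 10920937213368878483184235759481080905728 (by decide +kernel)
      (CovZ.n1 (7040, 7040) (by decide +kernel)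
       (CovZ.n2 (7680, 7040) (by decide +kernel)
        (CovZ.leaf K2_ok TP_l4124 _)
        (CovZ.leaf K2_ok TP_l4125 _))
       (CovZ.n1 (7040, 6400) (by decide +kernel)
        (CovZ.n2 (6720, 6720) (by decide +kernel)
         (CovZ.leaf K2_ok TP_l4126 _)
         (CovZ.leaf K2_ok TP_l4127 _))
        (CovZ.leaf K2_ok TP_l4128 _)))))
    (CovZ.n1 (6400, 5120) (by decide +kernel)
     (CovZ.n2 (5760, 5760) (by decide +kernel)
      (CovZ.n2 (6400, 5760) (by decide +kernel)
       (CovZ.n2 (6080, 5440) (by decide +kernel)
        (CovZ.n2 (6080, 5760) (by decide +kernel)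
         (CovZ.leaf K2_ok TP_l4129 _)
         (CovZ.n1 (5920, 5600) (by decide +kernel)
          (CovZ.leaf K2_ok TP_l4130 _)
          (CovZ.leaf K2_ok TP_l4131 _)))
        (CovZ.n1 (6400, 5440) (by decide +kernel)
         (CovZ.leaf K2_ok TP_l4132 _)
         (CovZ.leaf K2_ok TP_l4133 _)))
       (CovZ.n1 (6080, 6080) (by decide +kernel)
        (CovZ.n2 (6400, 6080) (by decide +kernel)
         (CovZ.leaf K2_ok TP_l4134 _)
         (CovZ.leaf K2_ok TP_l4135 _))
        (CovZ.n1 (6080, 5760) (by decide +kernel)
         (CovZ.n2 (5920, 5920) (by decide +kernel)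
          (CovZ.leaf K2_ok TP_l4136 _)
          (CovZ.leaf K2_ok TP_l4137 _))
         (CovZ.leaf K2_ok TP_l4138 _))))
      (CovZ.n1 (5760, 5120) (by decide +kernel)
       (CovZ.n2 (5440, 5440) (by decide +kernel)
        (CovZ.n2 (5760, 5440) (by decide +kernel)
         (CovZ.n2 (5600, 5280) (by decide +kernel)
          (CovZ.n2 (5600, 5440) (by decide +kernel)
           (CovZ.leaf K2_ok TP_l4139 _)
           (CovZ.leaf K2_ok TP_l4140 _))
          (CovZ.n1 (5760, 5280) (by decide +kernel)
           (CovZ.leaf K2_ok TP_l4141 _)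
           (CovZ.leaf K2_ok TP_l4142 _)))
         (CovZ.n1 (5600, 5600) (by decide +kernel)
          (CovZ.n2 (5760, 5600) (by decide +kernel)
           (CovZ.leaf K2_ok TP_l4143 _)
           (CovZ.leaf K2_ok TP_l4144 _))
          (CovZ.n1 (5600, 5440) (by decide +kernel)
           (CovZ.n2 (5520, 5520) (by decide +kernel)
            (CovZ.leaf K2_ok TP_l4145 _)
            (CovZ.leaf K2_ok TP_l4146 _))
           (CovZ.leaf K2_ok TP_l4147 _))))
        (CovZ.n1 (5440, 5120) (by decide +kernel)
         (CovZ.subM 10952838685267706792727370321862754041856 (by decide +kernel)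
          (CovZ.n2 (5280, 5280) (by decide +kernel)
           (CovZ.n2 (5440, 5280) (by decide +kernel)
            (CovZ.n2 (5360, 5200) (by decide +kernel)
             (CovZ.n2 (5360, 5280) (by decide +kernel)
              (CovZ.leaf K2_ok TP_l4148 _)
              (CovZ.leaf K2_ok TP_l4149 _))
             (CovZ.leaf K2_ok TP_l4150 _))
            (CovZ.n1 (5360, 5360) (by decide +kernel)
             (CovZ.leaf K2_ok TP_l4151 _)
             (CovZ.n1 (5360, 5280) (by decide +kernel)
              (CovZ.leaf K2_ok TP_l4152 _)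
              (CovZ.leaf K2_ok TP_l4153 _))))
           (CovZ.n1 (5280, 5120) (by decide +kernel)
            (CovZ.subM 42535295865117307932921966666459381760 (by decide +kernel)
             (CovZ.n2 (5200, 5200) (by decide +kernel)
              (CovZ.n2 (5280, 5200) (by decide +kernel)
               (CovZ.n2 (5240, 5160) (by decide +kernel)
                (CovZ.leaf K2_ok TP_l4154 _)
                (CovZ.leaf K2_ok TP_l4155 _))
               (CovZ.n1 (5240, 5240) (by decide +kernel)
                (CovZ.leaf K2_ok TP_l4156 _)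
                (CovZ.leaf K2_ok TP_l4157 _)))
              (CovZ.n1 (5200, 5120) (by decide +kernel)
               (CovZ.badM (by decide +kernel))
               (CovZ.n1 (5240, 5160) (by decide +kernel)
                (CovZ.leaf K2_ok TP_l4161 _)
                (CovZ.leaf K2_ok TP_l4162 _)))))
            (CovZ.n1 (5360, 5200) (by decide +kernel)
             (CovZ.n2 (5360, 5120) (by decide +kernel)
              (CovZ.leaf K2_ok TP_l4163 _)
              (CovZ.leaf K2_ok TP_l4164 _))
             (CovZ.n1 (5280, 5200) (by decide +kernel)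
              (CovZ.leaf K2_ok TP_l4165 _)
              (CovZ.leaf K2_ok TP_l4166 _))))))
         (CovZ.n1 (5600, 5280) (by decide +kernel)
          (CovZ.n2 (5600, 5120) (by decide +kernel)
           (CovZ.leaf K2_ok TP_l4167 _)
           (CovZ.leaf K2_ok TP_l4168 _))
          (CovZ.n1 (5440, 5280) (by decide +kernel)
           (CovZ.leaf K2_ok TP_l4169 _)
           (CovZ.leaf K2_ok TP_l4170 _)))))
       (CovZ.n1 (6080, 5440) (by decide +kernel)
        (CovZ.n2 (6080, 5120) (by decide +kernel)
         (CovZ.n2 (5920, 5280) (by decide +kernel)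
          (CovZ.leaf K2_ok TP_l4171 _)
          (CovZ.leaf K2_ok TP_l4172 _))
         (CovZ.leaf K2_ok TP_l4173 _))
        (CovZ.n1 (5760, 5440) (by decide +kernel)
         (CovZ.leaf K2_ok TP_l4174 _)
         (CovZ.leaf K2_ok TP_l4175 _)))))
     (CovZ.n1 (7040, 5760) (by decide +kernel)
      (CovZ.n2 (7040, 5120) (by decide +kernel)
       (CovZ.n2 (6720, 5440) (by decide +kernel)
        (CovZ.leaf K2_ok TP_l4176 _)
        (CovZ.leaf K2_ok TP_l4177 _))
       (CovZ.leaf K2_ok TP_l4178 _))
      (CovZ.n1 (6400, 5760) (by decide +kernel)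
       (CovZ.n2 (6720, 6080) (by decide +kernel)
        (CovZ.leaf K2_ok TP_l4179 _)
        (CovZ.leaf K2_ok TP_l4180 _))
       (CovZ.n1 (6720, 5440) (by decide +kernel)
        (CovZ.leaf K2_ok TP_l4181 _)
        (CovZ.leaf K2_ok TP_l4182 _)))))))
    (CovZ.topM TP_LL 10963472509233995791117157730562766667776 (by decide +kernel) (CovZ.n0 (6400, 6400) (by decide +kernel)
    (CovZ.n2 (5120, 6400) (by decide +kernel)
     (CovZ.subM 10920937213368868811777678842447683256320 (by decide +kernel)
      (CovZ.n2 (5760, 7040) (by decide +kernel)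
       TP_u42
       TP_u43))
     (CovZ.n1 (5760, 5760) (by decide +kernel)
      (CovZ.n2 (5120, 5760) (by decide +kernel)
       TP_u44
       TP_u45)
      (CovZ.n1 (5760, 6400) (by decide +kernel)
       (CovZ.n2 (6080, 6080) (by decide +kernel)
        (CovZ.n2 (5760, 6080) (by decide +kernel)
         (CovZ.n2 (5920, 6240) (by decide +kernel)
          (CovZ.leaf K2_ok TP_l4452 _)
          (CovZ.leaf K2_ok TP_l4453 _))
         (CovZ.n1 (5920, 5920) (by decide +kernel)
          (CovZ.leaf K2_ok TP_l4454 _)
          (CovZ.leaf K2_ok TP_l4455 _)))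
        (CovZ.n1 (6080, 6400) (by decide +kernel)
         (CovZ.leaf K2_ok TP_l4456 _)
         (CovZ.n1 (5920, 6240) (by decide +kernel)
          (CovZ.leaf K2_ok TP_l4457 _)
          (CovZ.leaf K2_ok TP_l4458 _))))
       (CovZ.n1 (5440, 6080) (by decide +kernel)
        (CovZ.n2 (5440, 6400) (by decide +kernel)
         (CovZ.n2 (5600, 6240) (by decide +kernel)
          (CovZ.subM 10910303389402589484794448390380666880000 (by decide +kernel)
           (CovZ.n2 (5440, 6240) (by decide +kernel)
            (CovZ.n2 (5520, 6320) (by decide +kernel)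
             (CovZ.n2 (5520, 6240) (by decide +kernel)
              (CovZ.leaf K2_ok TP_l4459 _)
              (CovZ.leaf K2_ok TP_l4460 _))
             (CovZ.n1 (5440, 6320) (by decide +kernel)
              (CovZ.leaf K2_ok TP_l4461 _)
              (CovZ.leaf K2_ok TP_l4462 _)))
            (CovZ.n1 (5520, 6160) (by decide +kernel)
             (CovZ.n2 (5440, 6160) (by decide +kernel)
              (CovZ.leaf K2_ok TP_l4463 _)
              (CovZ.leaf K2_ok TP_l4464 _))
             (CovZ.n1 (5520, 6240) (by decide +kernel)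
              (CovZ.leaf K2_ok TP_l4465 _)
              (CovZ.leaf K2_ok TP_l4466 _)))))
          (CovZ.subM 10920937213368868811777678842464863125504 (by decide +kernel)
           (CovZ.n1 (5600, 6400) (by decide +kernel)
            (CovZ.leaf K2_ok TP_l4467 _)
            (CovZ.n1 (5520, 6320) (by decide +kernel)
             (CovZ.n2 (5520, 6400) (by decide +kernel)
              (CovZ.leaf K2_ok TP_l4468 _)
              (CovZ.leaf K2_ok TP_l4469 _))
             (CovZ.leaf K2_ok TP_l4470 _)))))
         (CovZ.subM 10910303389402589484794448355196294660096 (by decide +kernel)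
          (CovZ.n1 (5280, 6240) (by decide +kernel)
           (CovZ.n2 (5280, 6400) (by decide +kernel)
            (CovZ.n2 (5360, 6320) (by decide +kernel)
             (CovZ.n2 (5280, 6320) (by decide +kernel)
              (CovZ.n2 (5320, 6360) (by decide +kernel)
               (CovZ.n2 (5320, 6320) (by decide +kernel)
                (CovZ.badM (by decide +kernel))
                (CovZ.n1 (5340, 6340) (by decide +kernel)
                 (CovZ.leaf K2_ok TP_l4471 _)
                 (CovZ.leaf K2_ok TP_l4472 _)))
               (CovZ.badM (by decide +kernel)))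
              (CovZ.n1 (5320, 6280) (by decide +kernel)
               (CovZ.badM (by decide +kernel))
               (CovZ.n1 (5320, 6320) (by decide +kernel)
                (CovZ.n2 (5340, 6300) (by decide +kernel)
                 (CovZ.leaf K2_ok TP_l4473 _)
                 (CovZ.leaf K2_ok TP_l4474 _))
                (CovZ.badM (by decide +kernel)))))
             (CovZ.n1 (5360, 6400) (by decide +kernel)
              (CovZ.n2 (5400, 6360) (by decide +kernel)
               (CovZ.n2 (5360, 6360) (by decide +kernel)
                (CovZ.leaf K2_ok TP_l4475 _)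
                (CovZ.leaf K2_ok TP_l4476 _))
               (CovZ.n1 (5400, 6400) (by decide +kernel)
                (CovZ.leaf K2_ok TP_l4477 _)
                (CovZ.leaf K2_ok TP_l4478 _)))
              (CovZ.n1 (5320, 6360) (by decide +kernel)
               (CovZ.n2 (5320, 6400) (by decide +kernel)
                (CovZ.n2 (5340, 6380) (by decide +kernel)
                 (CovZ.leaf K2_ok TP_l4479 _)
                 (CovZ.badM (by decide +kernel)))
                (CovZ.badM (by decide +kernel)))
               (CovZ.n1 (5360, 6360) (by decide +kernel)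
                (CovZ.n2 (5340, 6340) (by decide +kernel)
                 (CovZ.leaf K2_ok TP_l4480 _)
                 (CovZ.leaf K2_ok TP_l4481 _))
                (CovZ.n1 (5340, 6380) (by decide +kernel)
                 (CovZ.leaf K2_ok TP_l4482 _)
                 (CovZ.leaf K2_ok TP_l4483 _))))))
            (CovZ.badM (by decide +kernel)))
           (CovZ.n1 (5440, 6240) (by decide +kernel)
            (CovZ.n2 (5360, 6160) (by decide +kernel)
             (CovZ.n2 (5360, 6240) (by decide +kernel)
              (CovZ.n2 (5400, 6200) (by decide +kernel)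
               (CovZ.leaf K2_ok TP_l4484 _)
               (CovZ.n1 (5400, 6240) (by decide +kernel)
                (CovZ.leaf K2_ok TP_l4485 _)
                (CovZ.leaf K2_ok TP_l4486 _)))
              (CovZ.n1 (5320, 6200) (by decide +kernel)
               (CovZ.n2 (5320, 6240) (by decide +kernel)
                (CovZ.leaf K2_ok TP_l4487 _)
                (CovZ.badM (by decide +kernel)))
               (CovZ.n1 (5360, 6200) (by decide +kernel)
                (CovZ.leaf K2_ok TP_l4488 _)
                (CovZ.leaf K2_ok TP_l4489 _))))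
             (CovZ.n1 (5440, 6160) (by decide +kernel)
              (CovZ.n2 (5400, 6120) (by decide +kernel)
               (CovZ.leaf K2_ok TP_l4490 _)
               (CovZ.leaf K2_ok TP_l4491 _))
              (CovZ.n1 (5400, 6200) (by decide +kernel)
               (CovZ.leaf K2_ok TP_l4492 _)
               (CovZ.leaf K2_ok TP_l4493 _))))
            (CovZ.n1 (5360, 6320) (by decide +kernel)
             (CovZ.n2 (5440, 6320) (by decide +kernel)
              (CovZ.n2 (5400, 6280) (by decide +kernel)
               (CovZ.n2 (5400, 6320) (by decide +kernel)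
                (CovZ.leaf K2_ok TP_l4494 _)
                (CovZ.leaf K2_ok TP_l4495 _))
               (CovZ.leaf K2_ok TP_l4496 _))
              (CovZ.n1 (5400, 6360) (by decide +kernel)
               (CovZ.leaf K2_ok TP_l4497 _)
               (CovZ.n1 (5400, 6320) (by decide +kernel)
                (CovZ.leaf K2_ok TP_l4498 _)
                (CovZ.leaf K2_ok TP_l4499 _))))
             (CovZ.n1 (5360, 6240) (by decide +kernel)
              (CovZ.n2 (5320, 6280) (by decide +kernel)
               (CovZ.n2 (5360, 6280) (by decide +kernel)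
                (CovZ.n2 (5340, 6260) (by decide +kernel)
                 (CovZ.leaf K2_ok TP_l4500 _)
                 (CovZ.leaf K2_ok TP_l4501 _))
                (CovZ.n1 (5340, 6300) (by decide +kernel)
                 (CovZ.leaf K2_ok TP_l4502 _)
                 (CovZ.leaf K2_ok TP_l4503 _)))
               (CovZ.n1 (5320, 6240) (by decide +kernel)
                (CovZ.badM (by decide +kernel))
                (CovZ.leaf K2_ok TP_l4504 _)))
              (CovZ.n1 (5400, 6280) (by decide +kernel)
               (CovZ.leaf K2_ok TP_l4505 _)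
               (CovZ.leaf K2_ok TP_l4506 _))))))))
        (CovZ.n1 (5760, 6080) (by decide +kernel)
         (CovZ.n2 (5600, 5920) (by decide +kernel)
          (CovZ.n2 (5600, 6080) (by decide +kernel)
           (CovZ.leaf K2_ok TP_l4507 _)
           (CovZ.n1 (5520, 6000) (by decide +kernel)
            (CovZ.n2 (5520, 6080) (by decide +kernel)
             (CovZ.leaf K2_ok TP_l4508 _)
             (CovZ.leaf K2_ok TP_l4509 _))
            (CovZ.leaf K2_ok TP_l4510 _)))
          (CovZ.n1 (5760, 5920) (by decide +kernel)
           (CovZ.leaf K2_ok TP_l4511 _)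
           (CovZ.leaf K2_ok TP_l4512 _)))
         (CovZ.n1 (5600, 6240) (by decide +kernel)
          (CovZ.n2 (5760, 6240) (by decide +kernel)
           (CovZ.leaf K2_ok TP_l4513 _)
           (CovZ.leaf K2_ok TP_l4514 _))
          (CovZ.n1 (5600, 6080) (by decide +kernel)
           (CovZ.n2 (5520, 6160) (by decide +kernel)
            (CovZ.leaf K2_ok TP_l4515 _)
            (CovZ.n1 (5520, 6080) (by decide +kernel)
             (CovZ.leaf K2_ok TP_l4516 _)
             (CovZ.leaf K2_ok TP_l4517 _)))
           (CovZ.leaf K2_ok TP_l4518 _))))))))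
    (CovZ.subM 10920937213368878483184235759481080905728 (by decide +kernel)
     (CovZ.n1 (6400, 7680) (by decide +kernel)
      (CovZ.n2 (7040, 7040) (by decide +kernel)
       (CovZ.n2 (6400, 7040) (by decide +kernel)
        (CovZ.subM 10633823966279326983230491666614976512 (by decide +kernel)
         (CovZ.n2 (6720, 7360) (by decide +kernel)
          (CovZ.n2 (6720, 7040) (by decide +kernel)
           (CovZ.leaf K2_ok TP_l4519 _)
           (CovZ.leaf K2_ok TP_l4520 _))
          (CovZ.n1 (6400, 7360) (by decide +kernel)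
           (CovZ.leaf K2_ok TP_l4521 _)
           (CovZ.leaf K2_ok TP_l4522 _))))
        (CovZ.n1 (6720, 6720) (by decide +kernel)
         (CovZ.leaf K2_ok TP_l4523 _)
         (CovZ.leaf K2_ok TP_l4524 _)))
       (CovZ.n1 (7040, 7680) (by decide +kernel)
        (CovZ.leaf K2_ok TP_l4525 _)
        (CovZ.n1 (6720, 7360) (by decide +kernel)
         (CovZ.n2 (6720, 7680) (by decide +kernel)
          (CovZ.leaf K2_ok TP_l4526 _)
          (CovZ.leaf K2_ok TP_l4527 _))
         (CovZ.leaf K2_ok TP_l4528 _))))
      TP_u46))))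

theorem TP_s4_4 : SqZ TP_M TP_L [0, 7, 2, 5] (-2560) (-5120) 2560 4 4 :=
  SqZ.mk (a := 7680) (b := 10240) (c := 5120) (d := 7680) (by norm_num) (by norm_num) (by norm_num) (by norm_num)
    (CovZ.topM TP_LL 10963472509233995791117157730562766667778 (by decide +kernel) (CovZ.n2 (8960, 6400) (by decide +kernel)
    (CovZ.n2 (10240, 6400) (by decide +kernel)
     (CovZ.leaf K2_ok TP_l4792 _)
     (CovZ.leaf K2_ok TP_l4793 _))
    (CovZ.n1 (8960, 5120) (by decide +kernel)
     (CovZ.n2 (8320, 5760) (by decide +kernel)
      (CovZ.leaf K2_ok TP_l4794 _)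
      (CovZ.leaf K2_ok TP_l4795 _))
     (CovZ.leaf K2_ok TP_l4796 _))))
    (CovZ.topM TP_LL 10963472509233995791117157730562766667778 (by decide +kernel) (CovZ.n0 (8960, 6400) (by decide +kernel)
    (CovZ.n2 (7680, 6400) (by decide +kernel)
     (CovZ.n2 (8320, 7040) (by decide +kernel)
      (CovZ.leaf K2_ok TP_l4797 _)
      (CovZ.leaf K2_ok TP_l4798 _))
     (CovZ.n1 (8320, 5760) (by decide +kernel)
      (CovZ.leaf K2_ok TP_l4799 _)
      (CovZ.leaf K2_ok TP_l4800 _)))
    (CovZ.n1 (8960, 7680) (by decide +kernel)
     (CovZ.leaf K2_ok TP_l4801 _)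
     (CovZ.n1 (8320, 7040) (by decide +kernel)
      (CovZ.leaf K2_ok TP_l4802 _)
      (CovZ.leaf K2_ok TP_l4803 _)))))

theorem TP_s5_4 : SqZ TP_M TP_L [0, 7, 2, 5] (-2560) (-5120) 2560 5 4 :=
  SqZ.mk (a := 10240) (b := 12800) (c := 5120) (d := 7680) (by norm_num) (by norm_num) (by norm_num) (by norm_num)
    (CovZ.topM TP_LL 10963472833752549449543884513753146982402 (by decide +kernel) (CovZ.n2 (11520, 6400) (by decide +kernel)
    (CovZ.leaf K2_ok TP_l5117 _)
    (CovZ.n1 (11520, 5120) (by decide +kernel)
     (CovZ.leaf K2_ok TP_l5118 _)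
     (CovZ.leaf K2_ok TP_l5119 _))))
    (CovZ.topM TP_LL 10963472833752549449543884513753146982402 (by decide +kernel) (CovZ.n0 (11520, 6400) (by decide +kernel)
    (CovZ.leaf K2_ok TP_l5120 _)
    (CovZ.leaf K2_ok TP_l5121 _)))

theorem TP_s6_4 : SqZ TP_M TP_L [0, 7, 2, 5] (-2560) (-5120) 2560 6 4 :=
  SqZ.mk (a := 12800) (b := 15360) (c := 5120) (d := 7680) (by norm_num) (by norm_num) (by norm_num) (by norm_num)
    (CovZ.topM TP_LL 1404760047823046134210132958250064746250242 (by decide +kernel) (CovZ.leaf K2_ok TP_l5202 _))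
    (CovZ.topM TP_LL 1404760047823046134210132958250064746250242 (by decide +kernel) (CovZ.leaf K2_ok TP_l5203 _))

theorem TP_s0_5 : SqZ TP_M TP_L [0, 7, 2, 5] (-2560) (-5120) 2560 0 5 :=
  SqZ.mk (a := (-2560)) (b := 0) (c := 7680) (d := 10240) (by norm_num) (by norm_num) (by norm_num) (by norm_num)
    (CovZ.topM TP_LL 0 (by decide +kernel) (CovZ.badM (by decide +kernel)))
    (CovZ.topM TP_LL 0 (by decide +kernel) (CovZ.badM (by decide +kernel)))

theorem TP_s1_5 : SqZ TP_M TP_L [0, 7, 2, 5] (-2560) (-5120) 2560 1 5 :=
  SqZ.mk (a := 0) (b := 2560) (c := 7680) (d := 10240) (by norm_num) (by norm_num) (by norm_num) (by norm_num)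
    (CovZ.topM TP_LL 0 (by decide +kernel) (CovZ.badM (by decide +kernel)))
    (CovZ.topM TP_LL 0 (by decide +kernel) (CovZ.badM (by decide +kernel)))

theorem TP_s2_5 : SqZ TP_M TP_L [0, 7, 2, 5] (-2560) (-5120) 2560 2 5 :=
  SqZ.mk (a := 2560) (b := 5120) (c := 7680) (d := 10240) (by norm_num) (by norm_num) (by norm_num) (by norm_num)
    (CovZ.topM TP_LL 0 (by decide +kernel) (CovZ.badM (by decide +kernel)))
    (CovZ.topM TP_LL 0 (by decide +kernel) (CovZ.badM (by decide +kernel)))

end Pool.Agent.TET
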