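import Pool.Agent.Helper38_TET.TP_M
import Pool.Agent.Helper38_TET.TP_L
import Pool.Agent.Helper38_TET.TP_0
import Pool.Agent.Helper38_TET.TP_1
import Pool.Agent.Helper38_TET.TP_2
import Pool.Agent.Helper38_TET.TP_12
import Pool.Agent.Helper38_TET.TP_13
import Pool.Agent.Helper38_TET.TP_14
import Pool.Agent.Helper38_TET.TP_38
import Pool.Agent.Helper38_TET.TP_39
import Pool.Agent.Helper38_TET.TP_40
import Pool.Agent.Helper38_TET.TP_48
import Pool.Agent.Helper38_TET.TP_49

/-!
# MP_c7c9bf_co: certificates, family TP
-/

set_option autoImplicit false
set_option maxRecDepth 100000

namespace Pool.Agent.TET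

theorem TP_u57 : CovZ TP_M (toL (selN TP_LN 174309642496692744012250851525340822800384)) [0, 7, 2, 5] (0, 16640) (0, 15360) (1280, 16640) :=
    (CovZ.subM 174309642495821117846594092274295150477312 (by decide +kernel)
      (CovZ.n1 (640, 16000) (by decide +kernel)
       (CovZ.n2 (0, 16000) (by decide +kernel)
        (CovZ.n2 (320, 16320) (by decide +kernel)
         (CovZ.n2 (320, 16000) (by decide +kernel)
          (CovZ.n2 (160, 16160) (by decide +kernel)
           (CovZ.leaf K2_ok TP_l1928 _)
           (CovZ.leaf K2_ok TP_l1929 _))
          (CovZ.n1 (480, 16160) (by decide +kernel)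
           (CovZ.subM 174309642455256298639290426885752500518912 (by decide +kernel)
            (CovZ.n2 (480, 16000) (by decide +kernel)
             (CovZ.leaf K2_ok TP_l1930 _)
             (CovZ.subM 5570730176784211237048156160 (by decide +kernel)
              (CovZ.n1 (560, 16080) (by decide +kernel)
               (CovZ.n2 (560, 16000) (by decide +kernel)
                (CovZ.leaf K2_ok TP_l1931 _)
                (CovZ.n1 (600, 16040) (by decide +kernel)
                 (CovZ.n2 (600, 16000) (by decide +kernel)
                  (CovZ.leaf K2_ok TP_l7267 _)
                  (CovZ.badM (by decide +kernel)))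
                 (CovZ.n1 (560, 16040) (by decide +kernel)
                  (CovZ.leaf K2_ok TP_l7268 _)
                  (CovZ.leaf K2_ok TP_l7269 _))))
               (CovZ.n1 (480, 16080) (by decide +kernel)
                (CovZ.leaf K2_ok TP_l1932 _)
                (CovZ.leaf K2_ok TP_l1933 _))))))
           (CovZ.n1 (320, 16160) (by decide +kernel)
            (CovZ.leaf K2_ok TP_l1934 _)
            (CovZ.leaf K2_ok TP_l1935 _))))
         (CovZ.n1 (0, 16320) (by decide +kernel)
          (CovZ.leaf K2_ok TP_l1936 _)
          (CovZ.n1 (160, 16160) (by decide +kernel)
           (CovZ.leaf K2_ok TP_l1937 _)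
           (CovZ.leaf K2_ok TP_l1938 _))))
        (CovZ.subM 174309642495815547116416983803884931645440 (by decide +kernel)
         (CovZ.n1 (320, 15680) (by decide +kernel)
          (CovZ.n2 (0, 15680) (by decide +kernel)
           (CovZ.n2 (160, 15840) (by decide +kernel)
            (CovZ.n2 (160, 15680) (by decide +kernel)
             (CovZ.leaf K2_ok TP_l7270 _)
             (CovZ.leaf K2_ok TP_l7271 _))
            (CovZ.leaf K2_ok TP_l1939 _))
           (CovZ.n1 (160, 15520) (by decide +kernel)
            (CovZ.n2 (0, 15520) (by decide +kernel)
             (CovZ.leaf K2_ok TP_l7272 _)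
             (CovZ.leaf K2_ok TP_l7273 _))
            (CovZ.n1 (160, 15680) (by decide +kernel)
             (CovZ.leaf K2_ok TP_l7274 _)
             (CovZ.leaf K2_ok TP_l7275 _))))
          (CovZ.n1 (320, 16000) (by decide +kernel)
           (CovZ.n2 (480, 15840) (by decide +kernel)
            (CovZ.n2 (320, 15840) (by decide +kernel)
             (CovZ.n2 (400, 15920) (by decide +kernel)
              (CovZ.n2 (400, 15840) (by decide +kernel)
               (CovZ.leaf K2_ok TP_l1940 _)
               (CovZ.leaf K2_ok TP_l1941 _))
              (CovZ.leaf K2_ok TP_l1942 _))
             (CovZ.n1 (400, 15760) (by decide +kernel)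
              (CovZ.n2 (320, 15760) (by decide +kernel)
               (CovZ.leaf K2_ok TP_l7276 _)
               (CovZ.leaf K2_ok TP_l7277 _))
              (CovZ.n1 (400, 15840) (by decide +kernel)
               (CovZ.leaf K2_ok TP_l7278 _)
               (CovZ.leaf K2_ok TP_l7279 _))))
            (CovZ.n1 (480, 16000) (by decide +kernel)
             (CovZ.badM (by decide +kernel))
             (CovZ.n1 (400, 15920) (by decide +kernel)
              (CovZ.leaf K2_ok TP_l1951 _)
              (CovZ.n1 (480, 15920) (by decide +kernel)
               (CovZ.leaf K2_ok TP_l1952 _)
               (CovZ.leaf K2_ok TP_l1953 _)))))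
           (CovZ.n1 (160, 15840) (by decide +kernel)
            (CovZ.leaf K2_ok TP_l1954 _)
            (CovZ.n1 (320, 15840) (by decide +kernel)
             (CovZ.leaf K2_ok TP_l7280 _)
             (CovZ.leaf K2_ok TP_l1955 _)))))))
       (CovZ.n1 (640, 16640) (by decide +kernel)
        (CovZ.subM 288230376151711744 (by decide +kernel)
         (CovZ.n2 (960, 16320) (by decide +kernel)
          (CovZ.n2 (640, 16320) (by decide +kernel)
           (CovZ.n2 (800, 16480) (by decide +kernel)
            (CovZ.n2 (800, 16320) (by decide +kernel)
             (CovZ.n2 (720, 16400) (by decide +kernel)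
              (CovZ.badM (by decide +kernel))
              (CovZ.n1 (720, 16320) (by decide +kernel)
               (CovZ.n2 (680, 16360) (by decide +kernel)
                (CovZ.badM (by decide +kernel))
                (CovZ.badM (by decide +kernel)))
               (CovZ.badM (by decide +kernel))))
             (CovZ.badM (by decide +kernel)))
            (CovZ.n1 (640, 16480) (by decide +kernel)
             (CovZ.n2 (720, 16560) (by decide +kernel)
              (CovZ.n2 (720, 16480) (by decide +kernel)
               (CovZ.leaf K2_ok TP_l7281 _)
               (CovZ.badM (by decide +kernel)))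
              (CovZ.n1 (640, 16560) (by decide +kernel)
               (CovZ.leaf K2_ok TP_l7282 _)
               (CovZ.leaf K2_ok TP_l7283 _)))
             (CovZ.n1 (720, 16400) (by decide +kernel)
              (CovZ.n2 (640, 16400) (by decide +kernel)
               (CovZ.n2 (680, 16440) (by decide +kernel)
                (CovZ.leaf K2_ok TP_l7284 _)
                (CovZ.leaf K2_ok TP_l7285 _))
               (CovZ.n1 (680, 16360) (by decide +kernel)
                (CovZ.leaf K2_ok TP_l7286 _)
                (CovZ.leaf K2_ok TP_l7287 _)))
              (CovZ.n1 (720, 16480) (by decide +kernel)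
               (CovZ.badM (by decide +kernel))
               (CovZ.n1 (680, 16440) (by decide +kernel)
                (CovZ.leaf K2_ok TP_l7288 _)
                (CovZ.badM (by decide +kernel)))))))
           (CovZ.badM (by decide +kernel)))
          (CovZ.n1 (960, 16640) (by decide +kernel)
           (CovZ.badM (by decide +kernel))
           (CovZ.n1 (800, 16480) (by decide +kernel)
            (CovZ.n2 (800, 16640) (by decide +kernel)
             (CovZ.badM (by decide +kernel))
             (CovZ.n1 (720, 16560) (by decide +kernel)
              (CovZ.n2 (720, 16640) (by decide +kernel)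
               (CovZ.badM (by decide +kernel))
               (CovZ.n1 (680, 16600) (by decide +kernel)
                (CovZ.badM (by decide +kernel))
                (CovZ.badM (by decide +kernel))))
              (CovZ.badM (by decide +kernel))))
            (CovZ.badM (by decide +kernel))))))
        (CovZ.n1 (320, 16320) (by decide +kernel)
         (CovZ.n2 (320, 16640) (by decide +kernel)
          (CovZ.n2 (480, 16480) (by decide +kernel)
           (CovZ.n2 (320, 16480) (by decide +kernel)
            (CovZ.leaf K2_ok TP_l1956 _)
            (CovZ.leaf K2_ok TP_l1957 _))
           (CovZ.n1 (480, 16640) (by decide +kernel)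
            (CovZ.leaf K2_ok TP_l1958 _)
            (CovZ.leaf K2_ok TP_l1959 _)))
          (CovZ.leaf K2_ok TP_l1960 _))
         (CovZ.n1 (640, 16320) (by decide +kernel)
          (CovZ.n2 (480, 16160) (by decide +kernel)
           (CovZ.n2 (480, 16320) (by decide +kernel)
            (CovZ.n2 (560, 16240) (by decide +kernel)
             (CovZ.leaf K2_ok TP_l1961 _)
             (CovZ.n1 (560, 16320) (by decide +kernel)
              (CovZ.leaf K2_ok TP_l7289 _)
              (CovZ.leaf K2_ok TP_l1962 _)))
            (CovZ.leaf K2_ok TP_l1963 _))
           (CovZ.subM 5570730176820240034067120128 (by decide +kernel)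
            (CovZ.n1 (640, 16160) (by decide +kernel)
             (CovZ.n2 (560, 16080) (by decide +kernel)
              (CovZ.n2 (560, 16160) (by decide +kernel)
               (CovZ.n2 (600, 16120) (by decide +kernel)
                (CovZ.leaf K2_ok TP_l7290 _)
                (CovZ.leaf K2_ok TP_l7291 _))
               (CovZ.leaf K2_ok TP_l1964 _))
              (CovZ.n1 (640, 16080) (by decide +kernel)
               (CovZ.n2 (600, 16040) (by decide +kernel)
                (CovZ.n2 (600, 16080) (by decide +kernel)
                 (CovZ.badM (by decide +kernel))
                 (CovZ.leaf K2_ok TP_l7292 _))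
                (CovZ.badM (by decide +kernel)))
               (CovZ.n1 (600, 16120) (by decide +kernel)
                (CovZ.n2 (640, 16120) (by decide +kernel)
                 (CovZ.badM (by decide +kernel))
                 (CovZ.leaf K2_ok TP_l7293 _))
                (CovZ.n1 (600, 16080) (by decide +kernel)
                 (CovZ.leaf K2_ok TP_l7294 _)
                 (CovZ.badM (by decide +kernel))))))
             (CovZ.n1 (560, 16240) (by decide +kernel)
              (CovZ.n2 (640, 16240) (by decide +kernel)
               (CovZ.n2 (600, 16200) (by decide +kernel)
                (CovZ.leaf K2_ok TP_l7295 _)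
                (CovZ.leaf K2_ok TP_l7296 _))
               (CovZ.leaf K2_ok TP_l7297 _))
              (CovZ.n1 (560, 16160) (by decide +kernel)
               (CovZ.leaf K2_ok TP_l1965 _)
               (CovZ.n1 (600, 16200) (by decide +kernel)
                (CovZ.leaf K2_ok TP_l7298 _)
                (CovZ.leaf K2_ok TP_l7299 _)))))))
          (CovZ.n1 (480, 16480) (by decide +kernel)
           (CovZ.subM 5570730177108470410218831872 (by decide +kernel)
            (CovZ.n2 (640, 16480) (by decide +kernel)
             (CovZ.n2 (560, 16400) (by decide +kernel)
              (CovZ.leaf K2_ok TP_l1966 _)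
              (CovZ.n1 (640, 16400) (by decide +kernel)
               (CovZ.leaf K2_ok TP_l7300 _)
               (CovZ.leaf K2_ok TP_l7301 _)))
             (CovZ.leaf K2_ok TP_l1967 _)))
           (CovZ.n1 (480, 16320) (by decide +kernel)
            (CovZ.leaf K2_ok TP_l1968 _)
            (CovZ.n1 (560, 16400) (by decide +kernel)
             (CovZ.leaf K2_ok TP_l1969 _)
             (CovZ.leaf K2_ok TP_l1970 _)))))))))

theorem TP_u58 : CovZ TP_M (toL (selN TP_LN 174309642496692744012250851525340822800384)) [0, 7, 2, 5] (0, 17920) (640, 17280) (1280, 17920) :=
    (CovZ.n2 (640, 17920) (by decide +kernel)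
       (CovZ.n2 (960, 17600) (by decide +kernel)
        (CovZ.n2 (640, 17600) (by decide +kernel)
         (CovZ.n2 (800, 17760) (by decide +kernel)
          (CovZ.leaf K2_ok TP_l1971 _)
          (CovZ.leaf K2_ok TP_l1972 _))
         (CovZ.n1 (800, 17440) (by decide +kernel)
          (CovZ.leaf K2_ok TP_l1973 _)
          (CovZ.n1 (800, 17600) (by decide +kernel)
           (CovZ.leaf K2_ok TP_l1974 _)
           (CovZ.leaf K2_ok TP_l1975 _))))
        (CovZ.n1 (960, 17920) (by decide +kernel)
         (CovZ.subM 871587177798828981274745800704 (by decide +kernel)
          (CovZ.n2 (1120, 17760) (by decide +kernel)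
           (CovZ.n2 (960, 17760) (by decide +kernel)
            (CovZ.n2 (1040, 17840) (by decide +kernel)
             (CovZ.leaf K2_ok TP_l1976 _)
             (CovZ.leaf K2_ok TP_l1977 _))
            (CovZ.n1 (1040, 17680) (by decide +kernel)
             (CovZ.leaf K2_ok TP_l1978 _)
             (CovZ.leaf K2_ok TP_l1979 _)))
           (CovZ.n1 (1120, 17920) (by decide +kernel)
            (CovZ.subM 18889465931478580854784 (by decide +kernel)
             (CovZ.n2 (1200, 17840) (by decide +kernel)
              (CovZ.n2 (1120, 17840) (by decide +kernel)
               (CovZ.leaf K2_ok TP_l1980 _)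
               (CovZ.n1 (1160, 17800) (by decide +kernel)
                (CovZ.leaf K2_ok TP_l7302 _)
                (CovZ.leaf K2_ok TP_l7303 _)))
              (CovZ.n1 (1200, 17920) (by decide +kernel)
               (CovZ.badM (by decide +kernel))
               (CovZ.leaf K2_ok TP_l1983 _))))
            (CovZ.n1 (1040, 17840) (by decide +kernel)
             (CovZ.leaf K2_ok TP_l1984 _)
             (CovZ.leaf K2_ok TP_l1985 _)))))
         (CovZ.n1 (800, 17760) (by decide +kernel)
          (CovZ.leaf K2_ok TP_l1986 _)
          (CovZ.leaf K2_ok TP_l1987 _))))
       (CovZ.n1 (320, 17600) (by decide +kernel)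
        (CovZ.leaf K2_ok TP_l1988 _)
        (CovZ.n1 (640, 17600) (by decide +kernel)
         (CovZ.leaf K2_ok TP_l1989 _)
         (CovZ.leaf K2_ok TP_l1990 _))))

theorem TP_u59 : CovZ TP_M (toL (selN TP_LN 174309642496692744012250851525340822800384)) [0, 7, 2, 5] (640, 17280) (1280, 16640) (1280, 17920) :=
    (CovZ.n1 (1280, 17280) (by decide +kernel)
       (CovZ.subM 633941659224500306786459320320 (by decide +kernel)
        (CovZ.n2 (960, 16960) (by decide +kernel)
         (CovZ.n2 (960, 17280) (by decide +kernel)
          (CovZ.subM 633902671366570037015532797952 (by decide +kernel)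
           (CovZ.n2 (1120, 17120) (by decide +kernel)
            (CovZ.n2 (960, 17120) (by decide +kernel)
             (CovZ.n2 (1040, 17200) (by decide +kernel)
              (CovZ.n2 (1040, 17120) (by decide +kernel)
               (CovZ.n2 (1000, 17160) (by decide +kernel)
                (CovZ.badM (by decide +kernel))
                (CovZ.badM (by decide +kernel)))
               (CovZ.badM (by decide +kernel)))
              (CovZ.n1 (960, 17200) (by decide +kernel)
               (CovZ.n2 (1000, 17240) (by decide +kernel)
                (CovZ.n2 (1000, 17200) (by decide +kernel)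
                 (CovZ.leaf K2_ok TP_l7304 _)
                 (CovZ.badM (by decide +kernel)))
                (CovZ.leaf K2_ok TP_l1991 _))
               (CovZ.n1 (1000, 17160) (by decide +kernel)
                (CovZ.n2 (960, 17160) (by decide +kernel)
                 (CovZ.leaf K2_ok TP_l7305 _)
                 (CovZ.badM (by decide +kernel)))
                (CovZ.n1 (1000, 17200) (by decide +kernel)
                 (CovZ.badM (by decide +kernel))
                 (CovZ.leaf K2_ok TP_l7306 _)))))
             (CovZ.badM (by decide +kernel)))
            (CovZ.n1 (1120, 17280) (by decide +kernel)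
             (CovZ.badM (by decide +kernel))
             (CovZ.n1 (1040, 17200) (by decide +kernel)
              (CovZ.n2 (1040, 17280) (by decide +kernel)
               (CovZ.badM (by decide +kernel))
               (CovZ.n1 (1000, 17240) (by decide +kernel)
                (CovZ.n2 (1000, 17280) (by decide +kernel)
                 (CovZ.leaf K2_ok TP_l1992 _)
                 (CovZ.leaf K2_ok TP_l1993 _))
                (CovZ.n1 (1040, 17240) (by decide +kernel)
                 (CovZ.badM (by decide +kernel))
                 (CovZ.leaf K2_ok TP_l1994 _))))
              (CovZ.badM (by decide +kernel))))))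
          (CovZ.n1 (800, 17120) (by decide +kernel)
           (CovZ.n2 (800, 17280) (by decide +kernel)
            (CovZ.n2 (880, 17200) (by decide +kernel)
             (CovZ.leaf K2_ok TP_l1995 _)
             (CovZ.n1 (880, 17280) (by decide +kernel)
              (CovZ.leaf K2_ok TP_l1996 _)
              (CovZ.leaf K2_ok TP_l1997 _)))
            (CovZ.leaf K2_ok TP_l1998 _))
           (CovZ.n1 (960, 17120) (by decide +kernel)
            (CovZ.n2 (880, 17040) (by decide +kernel)
             (CovZ.n2 (880, 17120) (by decide +kernel)
              (CovZ.n2 (920, 17080) (by decide +kernel)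
               (CovZ.leaf K2_ok TP_l7307 _)
               (CovZ.leaf K2_ok TP_l7308 _))
              (CovZ.leaf K2_ok TP_l1999 _))
             (CovZ.subM 38987857826686978960130048 (by decide +kernel)
              (CovZ.n1 (960, 17040) (by decide +kernel)
               (CovZ.n2 (920, 17000) (by decide +kernel)
                (CovZ.n2 (920, 17040) (by decide +kernel)
                 (CovZ.leaf K2_ok TP_l7309 _)
                 (CovZ.leaf K2_ok TP_l7310 _))
                (CovZ.n1 (960, 17000) (by decide +kernel)
                 (CovZ.badM (by decide +kernel))
                 (CovZ.leaf K2_ok TP_l7311 _)))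
               (CovZ.n1 (920, 17080) (by decide +kernel)
                (CovZ.n2 (960, 17080) (by decide +kernel)
                 (CovZ.leaf K2_ok TP_l7312 _)
                 (CovZ.leaf K2_ok TP_l7313 _))
                (CovZ.leaf K2_ok TP_l7314 _)))))
            (CovZ.n1 (880, 17200) (by decide +kernel)
             (CovZ.n2 (960, 17200) (by decide +kernel)
              (CovZ.n2 (920, 17160) (by decide +kernel)
               (CovZ.leaf K2_ok TP_l7315 _)
               (CovZ.leaf K2_ok TP_l7316 _))
              (CovZ.leaf K2_ok TP_l2000 _))
             (CovZ.n1 (880, 17120) (by decide +kernel)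
              (CovZ.leaf K2_ok TP_l2001 _)
              (CovZ.leaf K2_ok TP_l7317 _))))))
         (CovZ.n1 (1280, 16960) (by decide +kernel)
          (CovZ.badM (by decide +kernel))
          (CovZ.n1 (1120, 17120) (by decide +kernel)
           (CovZ.badM (by decide +kernel))
           (CovZ.badM (by decide +kernel))))))
       (CovZ.n1 (960, 17600) (by decide +kernel)
        (CovZ.subM 871587177798828981274745800704 (by decide +kernel)
         (CovZ.n2 (1280, 17600) (by decide +kernel)
          (CovZ.n2 (1120, 17440) (by decide +kernel)
           (CovZ.n2 (1120, 17600) (by decide +kernel)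
            (CovZ.badM (by decide +kernel))
            (CovZ.n1 (1040, 17520) (by decide +kernel)
             (CovZ.n2 (1040, 17600) (by decide +kernel)
              (CovZ.n2 (1080, 17560) (by decide +kernel)
               (CovZ.leaf K2_ok TP_l2002 _)
               (CovZ.leaf K2_ok TP_l2003 _))
              (CovZ.leaf K2_ok TP_l2004 _))
             (CovZ.subM 158456325028528675187088164864 (by decide +kernel)
              (CovZ.n1 (1120, 17520) (by decide +kernel)
               (CovZ.n2 (1080, 17480) (by decide +kernel)
                (CovZ.n2 (1080, 17520) (by decide +kernel)
                 (CovZ.badM (by decide +kernel))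
                 (CovZ.leaf K2_ok TP_l2005 _))
                (CovZ.badM (by decide +kernel)))
               (CovZ.n1 (1080, 17560) (by decide +kernel)
                (CovZ.badM (by decide +kernel))
                (CovZ.leaf K2_ok TP_l2006 _))))))
           (CovZ.badM (by decide +kernel)))
          (CovZ.n1 (1120, 17760) (by decide +kernel)
           (CovZ.subM 18889465931478580854784 (by decide +kernel)
            (CovZ.n2 (1280, 17760) (by decide +kernel)
             (CovZ.n2 (1200, 17680) (by decide +kernel)
              (CovZ.n2 (1200, 17760) (by decide +kernel)
               (CovZ.badM (by decide +kernel))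
               (CovZ.n1 (1160, 17720) (by decide +kernel)
                (CovZ.n2 (1160, 17760) (by decide +kernel)
                 (CovZ.badM (by decide +kernel))
                 (CovZ.leaf K2_ok TP_l7318 _))
                (CovZ.badM (by decide +kernel))))
              (CovZ.badM (by decide +kernel)))
             (CovZ.n1 (1200, 17840) (by decide +kernel)
              (CovZ.badM (by decide +kernel))
              (CovZ.n1 (1200, 17760) (by decide +kernel)
               (CovZ.n2 (1160, 17800) (by decide +kernel)
                (CovZ.badM (by decide +kernel))
                (CovZ.leaf K2_ok TP_l7319 _))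
               (CovZ.badM (by decide +kernel))))))
           (CovZ.n1 (1120, 17600) (by decide +kernel)
            (CovZ.n2 (1040, 17680) (by decide +kernel)
             (CovZ.n2 (1120, 17680) (by decide +kernel)
              (CovZ.leaf K2_ok TP_l2007 _)
              (CovZ.leaf K2_ok TP_l2008 _))
             (CovZ.n1 (1040, 17600) (by decide +kernel)
              (CovZ.leaf K2_ok TP_l2009 _)
              (CovZ.leaf K2_ok TP_l2010 _)))
            (CovZ.subM 18889465931478580854784 (by decide +kernel)
             (CovZ.n1 (1200, 17680) (by decide +kernel)
              (CovZ.n2 (1200, 17600) (by decide +kernel)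
               (CovZ.n2 (1160, 17640) (by decide +kernel)
                (CovZ.badM (by decide +kernel))
                (CovZ.badM (by decide +kernel)))
               (CovZ.badM (by decide +kernel)))
              (CovZ.n1 (1120, 17680) (by decide +kernel)
               (CovZ.n2 (1160, 17720) (by decide +kernel)
                (CovZ.n2 (1160, 17680) (by decide +kernel)
                 (CovZ.leaf K2_ok TP_l7320 _)
                 (CovZ.badM (by decide +kernel)))
                (CovZ.leaf K2_ok TP_l7321 _))
               (CovZ.n1 (1160, 17640) (by decide +kernel)
                (CovZ.n2 (1120, 17640) (by decide +kernel)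
                 (CovZ.leaf K2_ok TP_l7322 _)
                 (CovZ.badM (by decide +kernel)))
                (CovZ.n1 (1160, 17680) (by decide +kernel)
                 (CovZ.badM (by decide +kernel))
                 (CovZ.leaf K2_ok TP_l7323 _))))))))))
        (CovZ.subM 792397984253028981973547517952 (by decide +kernel)
         (CovZ.n1 (960, 17280) (by decide +kernel)
          (CovZ.n2 (800, 17440) (by decide +kernel)
           (CovZ.n2 (960, 17440) (by decide +kernel)
            (CovZ.n2 (880, 17360) (by decide +kernel)
             (CovZ.leaf K2_ok TP_l2011 _)
             (CovZ.leaf K2_ok TP_l2012 _))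
            (CovZ.leaf K2_ok TP_l2013 _))
           (CovZ.n1 (800, 17280) (by decide +kernel)
            (CovZ.leaf K2_ok TP_l2014 _)
            (CovZ.n1 (880, 17360) (by decide +kernel)
             (CovZ.leaf K2_ok TP_l2015 _)
             (CovZ.leaf K2_ok TP_l2016 _))))
          (CovZ.subM 792358996395098712202620995584 (by decide +kernel)
           (CovZ.n1 (1120, 17440) (by decide +kernel)
            (CovZ.n2 (1120, 17280) (by decide +kernel)
             (CovZ.n2 (1040, 17360) (by decide +kernel)
              (CovZ.subM 158456325028528675187087902720 (by decide +kernel)
               (CovZ.n2 (1120, 17360) (by decide +kernel)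
                (CovZ.badM (by decide +kernel))
                (CovZ.n1 (1080, 17400) (by decide +kernel)
                 (CovZ.badM (by decide +kernel))
                 (CovZ.n1 (1080, 17360) (by decide +kernel)
                  (CovZ.leaf K2_ok TP_l2017 _)
                  (CovZ.badM (by decide +kernel))))))
              (CovZ.subM 633902671366570037015532830720 (by decide +kernel)
               (CovZ.n1 (1040, 17280) (by decide +kernel)
                (CovZ.n2 (1000, 17320) (by decide +kernel)
                 (CovZ.n2 (1040, 17320) (by decide +kernel)
                  (CovZ.leaf K2_ok TP_l2018 _)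
                  (CovZ.leaf K2_ok TP_l2019 _))
                 (CovZ.leaf K2_ok TP_l2020 _))
                (CovZ.badM (by decide +kernel)))))
             (CovZ.badM (by decide +kernel)))
            (CovZ.n1 (960, 17440) (by decide +kernel)
             (CovZ.n2 (1040, 17520) (by decide +kernel)
              (CovZ.n2 (1040, 17440) (by decide +kernel)
               (CovZ.leaf K2_ok TP_l2021 _)
               (CovZ.n1 (1080, 17480) (by decide +kernel)
                (CovZ.n2 (1080, 17440) (by decide +kernel)
                 (CovZ.leaf K2_ok TP_l2022 _)
                 (CovZ.badM (by decide +kernel)))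
                (CovZ.leaf K2_ok TP_l2023 _)))
              (CovZ.n1 (960, 17520) (by decide +kernel)
               (CovZ.leaf K2_ok TP_l2024 _)
               (CovZ.leaf K2_ok TP_l2025 _)))
             (CovZ.n1 (1040, 17360) (by decide +kernel)
              (CovZ.n2 (960, 17360) (by decide +kernel)
               (CovZ.leaf K2_ok TP_l2026 _)
               (CovZ.n1 (1000, 17320) (by decide +kernel)
                (CovZ.leaf K2_ok TP_l2027 _)
                (CovZ.leaf K2_ok TP_l2028 _)))
              (CovZ.n1 (1040, 17440) (by decide +kernel)
               (CovZ.subM 158456325028528675187087902720 (by decide +kernel)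
                (CovZ.n2 (1080, 17400) (by decide +kernel)
                 (CovZ.n2 (1040, 17400) (by decide +kernel)
                  (CovZ.leaf K2_ok TP_l2029 _)
                  (CovZ.leaf K2_ok TP_l2030 _))
                 (CovZ.n1 (1080, 17440) (by decide +kernel)
                  (CovZ.badM (by decide +kernel))
                  (CovZ.leaf K2_ok TP_l2031 _))))
               (CovZ.leaf K2_ok TP_l2032 _))))))))))

theorem TP_u60 : CovZ TP_M (toL (selN TP_LN 162318697991277223158817178518016)) [0, 7, 2, 5] (-1280, 19200) (-1600, 18880) (-1280, 18560) :=
    (CovZ.n2 (-1280, 18880) (by decide +kernel)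
          (CovZ.subM 40178161514044010266624 (by decide +kernel)
           (CovZ.n2 (-1440, 18720) (by decide +kernel)
            (CovZ.n2 (-1440, 18880) (by decide +kernel)
             (CovZ.n2 (-1360, 18800) (by decide +kernel)
              (CovZ.n2 (-1440, 18800) (by decide +kernel)
               (CovZ.n2 (-1400, 18840) (by decide +kernel)
                (CovZ.leaf K2_ok TP_l138 _)
                (CovZ.leaf K2_ok TP_l5798 _))
               (CovZ.n1 (-1400, 18760) (by decide +kernel)
                (CovZ.n2 (-1440, 18760) (by decide +kernel)
                 (CovZ.leaf K2_ok TP_l5799 _)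
                 (CovZ.leaf K2_ok TP_l5800 _))
                (CovZ.leaf K2_ok TP_l139 _)))
              (CovZ.n1 (-1360, 18880) (by decide +kernel)
               (CovZ.leaf K2_ok TP_l140 _)
               (CovZ.n1 (-1400, 18840) (by decide +kernel)
                (CovZ.leaf K2_ok TP_l141 _)
                (CovZ.leaf K2_ok TP_l142 _))))
             (CovZ.n1 (-1520, 18800) (by decide +kernel)
              (CovZ.n2 (-1520, 18880) (by decide +kernel)
               (CovZ.n2 (-1480, 18840) (by decide +kernel)
                (CovZ.n2 (-1520, 18840) (by decide +kernel)
                 (CovZ.n2 (-1500, 18860) (by decide +kernel)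
                  (CovZ.leaf K2_ok TP_l5801 _)
                  (CovZ.leaf K2_ok TP_l5802 _))
                 (CovZ.n1 (-1500, 18820) (by decide +kernel)
                  (CovZ.n2 (-1520, 18820) (by decide +kernel)
                   (CovZ.leaf K2_ok TP_l5803 _)
                   (CovZ.leaf K2_ok TP_l5804 _))
                  (CovZ.leaf K2_ok TP_l5805 _)))
                (CovZ.n1 (-1480, 18880) (by decide +kernel)
                 (CovZ.leaf K2_ok TP_l5806 _)
                 (CovZ.n1 (-1500, 18860) (by decide +kernel)
                  (CovZ.leaf K2_ok TP_l5807 _)
                  (CovZ.leaf K2_ok TP_l5808 _))))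
               (CovZ.badM (by decide +kernel)))
              (CovZ.n1 (-1440, 18800) (by decide +kernel)
               (CovZ.n2 (-1480, 18760) (by decide +kernel)
                (CovZ.n2 (-1480, 18800) (by decide +kernel)
                 (CovZ.leaf K2_ok TP_l5809 _)
                 (CovZ.n1 (-1500, 18780) (by decide +kernel)
                  (CovZ.n2 (-1500, 18800) (by decide +kernel)
                   (CovZ.leaf K2_ok TP_l5810 _)
                   (CovZ.leaf K2_ok TP_l5811 _))
                  (CovZ.leaf K2_ok TP_l5812 _)))
                (CovZ.n1 (-1440, 18760) (by decide +kernel)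
                 (CovZ.n2 (-1460, 18740) (by decide +kernel)
                  (CovZ.leaf K2_ok TP_l5813 _)
                  (CovZ.leaf K2_ok TP_l5814 _))
                 (CovZ.leaf K2_ok TP_l5815 _)))
               (CovZ.n1 (-1480, 18840) (by decide +kernel)
                (CovZ.n2 (-1440, 18840) (by decide +kernel)
                 (CovZ.leaf K2_ok TP_l5816 _)
                 (CovZ.leaf K2_ok TP_l5817 _))
                (CovZ.n1 (-1480, 18800) (by decide +kernel)
                 (CovZ.n2 (-1500, 18820) (by decide +kernel)
                  (CovZ.leaf K2_ok TP_l5818 _)
                  (CovZ.leaf K2_ok TP_l5819 _))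
                 (CovZ.leaf K2_ok TP_l5820 _))))))
            (CovZ.n1 (-1280, 18720) (by decide +kernel)
             (CovZ.n2 (-1360, 18640) (by decide +kernel)
              (CovZ.n2 (-1360, 18720) (by decide +kernel)
               (CovZ.leaf K2_ok TP_l143 _)
               (CovZ.n1 (-1400, 18680) (by decide +kernel)
                (CovZ.n2 (-1400, 18720) (by decide +kernel)
                 (CovZ.leaf K2_ok TP_l144 _)
                 (CovZ.leaf K2_ok TP_l5821 _))
                (CovZ.leaf K2_ok TP_l145 _)))
              (CovZ.n1 (-1280, 18640) (by decide +kernel)
               (CovZ.n2 (-1320, 18600) (by decide +kernel)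
                (CovZ.leaf K2_ok TP_l146 _)
                (CovZ.leaf K2_ok TP_l147 _))
               (CovZ.leaf K2_ok TP_l148 _)))
             (CovZ.n1 (-1360, 18800) (by decide +kernel)
              (CovZ.n2 (-1280, 18800) (by decide +kernel)
               (CovZ.leaf K2_ok TP_l149 _)
               (CovZ.leaf K2_ok TP_l150 _))
              (CovZ.n1 (-1360, 18720) (by decide +kernel)
               (CovZ.n2 (-1400, 18760) (by decide +kernel)
                (CovZ.leaf K2_ok TP_l151 _)
                (CovZ.n1 (-1400, 18720) (by decide +kernel)
                 (CovZ.leaf K2_ok TP_l5822 _)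
                 (CovZ.leaf K2_ok TP_l152 _)))
               (CovZ.leaf K2_ok TP_l153 _))))))
          (CovZ.n1 (-1440, 19040) (by decide +kernel)
           (CovZ.n2 (-1280, 19040) (by decide +kernel)
            (CovZ.n2 (-1360, 18960) (by decide +kernel)
             (CovZ.n2 (-1360, 19040) (by decide +kernel)
              (CovZ.leaf K2_ok TP_l154 _)
              (CovZ.leaf K2_ok TP_l155 _))
             (CovZ.leaf K2_ok TP_l156 _))
            (CovZ.n1 (-1360, 19120) (by decide +kernel)
             (CovZ.leaf K2_ok TP_l157 _)
             (CovZ.leaf K2_ok TP_l158 _)))
           (CovZ.n1 (-1440, 18880) (by decide +kernel)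
            (CovZ.n2 (-1520, 18960) (by decide +kernel)
             (CovZ.n2 (-1440, 18960) (by decide +kernel)
              (CovZ.n2 (-1480, 18920) (by decide +kernel)
               (CovZ.n2 (-1480, 18960) (by decide +kernel)
                (CovZ.leaf K2_ok TP_l159 _)
                (CovZ.leaf K2_ok TP_l160 _))
               (CovZ.leaf K2_ok TP_l161 _))
              (CovZ.n1 (-1480, 19000) (by decide +kernel)
               (CovZ.leaf K2_ok TP_l162 _)
               (CovZ.leaf K2_ok TP_l163 _)))
             (CovZ.subM 40178161514044010266624 (by decide +kernel)
              (CovZ.n1 (-1520, 18880) (by decide +kernel)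
               (CovZ.badM (by decide +kernel))
               (CovZ.n1 (-1480, 18920) (by decide +kernel)
                (CovZ.n2 (-1480, 18880) (by decide +kernel)
                 (CovZ.leaf K2_ok TP_l164 _)
                 (CovZ.leaf K2_ok TP_l165 _))
                (CovZ.n1 (-1520, 18920) (by decide +kernel)
                 (CovZ.leaf K2_ok TP_l166 _)
                 (CovZ.leaf K2_ok TP_l167 _))))))
            (CovZ.n1 (-1360, 18960) (by decide +kernel)
             (CovZ.n2 (-1360, 18880) (by decide +kernel)
              (CovZ.leaf K2_ok TP_l168 _)
              (CovZ.leaf K2_ok TP_l169 _))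
             (CovZ.n1 (-1440, 18960) (by decide +kernel)
              (CovZ.leaf K2_ok TP_l170 _)
              (CovZ.leaf K2_ok TP_l171 _))))))

theorem TP_u61 : CovZ TP_M (toL (selN TP_LN 162318697991277223158817178518016)) [0, 7, 2, 5] (-1600, 18880) (-1920, 18560) (-1280, 18560) :=
    (CovZ.subM 40178161514044010266624 (by decide +kernel)
          (CovZ.n1 (-1600, 18560) (by decide +kernel)
           (CovZ.badM (by decide +kernel))
           (CovZ.n1 (-1440, 18720) (by decide +kernel)
            (CovZ.n2 (-1440, 18560) (by decide +kernel)
             (CovZ.n2 (-1520, 18640) (by decide +kernel)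
              (CovZ.n2 (-1440, 18640) (by decide +kernel)
               (CovZ.n2 (-1480, 18600) (by decide +kernel)
                (CovZ.n2 (-1480, 18640) (by decide +kernel)
                 (CovZ.n2 (-1460, 18620) (by decide +kernel)
                  (CovZ.n2 (-1480, 18620) (by decide +kernel)
                   (CovZ.n2 (-1470, 18630) (by decide +kernel)
                    (CovZ.badM (by decide +kernel))
                    (CovZ.n1 (-1480, 18630) (by decide +kernel)
                     (CovZ.leaf K2_ok TP_l5823 _)
                     (CovZ.badM (by decide +kernel))))
                   (CovZ.badM (by decide +kernel)))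
                  (CovZ.n1 (-1460, 18640) (by decide +kernel)
                   (CovZ.n2 (-1450, 18630) (by decide +kernel)
                    (CovZ.leaf K2_ok TP_l5824 _)
                    (CovZ.leaf K2_ok TP_l5825 _))
                   (CovZ.n1 (-1470, 18630) (by decide +kernel)
                    (CovZ.leaf K2_ok TP_l5826 _)
                    (CovZ.leaf K2_ok TP_l5827 _))))
                 (CovZ.badM (by decide +kernel)))
                (CovZ.n1 (-1440, 18600) (by decide +kernel)
                 (CovZ.n2 (-1460, 18580) (by decide +kernel)
                  (CovZ.n2 (-1460, 18600) (by decide +kernel)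
                   (CovZ.n2 (-1450, 18590) (by decide +kernel)
                    (CovZ.badM (by decide +kernel))
                    (CovZ.leaf K2_ok TP_l5828 _))
                   (CovZ.badM (by decide +kernel)))
                  (CovZ.n1 (-1440, 18580) (by decide +kernel)
                   (CovZ.n2 (-1450, 18570) (by decide +kernel)
                    (CovZ.n2 (-1450, 18580) (by decide +kernel)
                     (CovZ.leaf K2_ok TP_l5829 _)
                     (CovZ.badM (by decide +kernel)))
                    (CovZ.leaf K2_ok TP_l5830 _))
                   (CovZ.n1 (-1450, 18590) (by decide +kernel)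
                    (CovZ.leaf K2_ok TP_l5831 _)
                    (CovZ.n1 (-1450, 18580) (by decide +kernel)
                     (CovZ.badM (by decide +kernel))
                     (CovZ.leaf K2_ok TP_l5832 _)))))
                 (CovZ.n1 (-1460, 18620) (by decide +kernel)
                  (CovZ.n2 (-1440, 18620) (by decide +kernel)
                   (CovZ.n2 (-1450, 18610) (by decide +kernel)
                    (CovZ.leaf K2_ok TP_l5833 _)
                    (CovZ.leaf K2_ok TP_l5834 _))
                   (CovZ.leaf K2_ok TP_l5835 _))
                  (CovZ.n1 (-1460, 18600) (by decide +kernel)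
                   (CovZ.badM (by decide +kernel))
                   (CovZ.n1 (-1450, 18610) (by decide +kernel)
                    (CovZ.leaf K2_ok TP_l5836 _)
                    (CovZ.badM (by decide +kernel)))))))
               (CovZ.n1 (-1480, 18680) (by decide +kernel)
                (CovZ.n2 (-1440, 18680) (by decide +kernel)
                 (CovZ.n2 (-1460, 18660) (by decide +kernel)
                  (CovZ.n2 (-1460, 18680) (by decide +kernel)
                   (CovZ.leaf K2_ok TP_l5837 _)
                   (CovZ.n1 (-1470, 18670) (by decide +kernel)
                    (CovZ.leaf K2_ok TP_l5838 _)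
                    (CovZ.leaf K2_ok TP_l5839 _)))
                  (CovZ.n1 (-1440, 18660) (by decide +kernel)
                   (CovZ.leaf K2_ok TP_l5840 _)
                   (CovZ.leaf K2_ok TP_l5841 _)))
                 (CovZ.n1 (-1460, 18700) (by decide +kernel)
                  (CovZ.leaf K2_ok TP_l5842 _)
                  (CovZ.n1 (-1460, 18680) (by decide +kernel)
                   (CovZ.leaf K2_ok TP_l5843 _)
                   (CovZ.leaf K2_ok TP_l5844 _))))
                (CovZ.n1 (-1480, 18640) (by decide +kernel)
                 (CovZ.badM (by decide +kernel))
                 (CovZ.n1 (-1460, 18660) (by decide +kernel)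
                  (CovZ.n2 (-1460, 18640) (by decide +kernel)
                   (CovZ.n2 (-1470, 18650) (by decide +kernel)
                    (CovZ.leaf K2_ok TP_l5845 _)
                    (CovZ.leaf K2_ok TP_l5846 _))
                   (CovZ.leaf K2_ok TP_l5847 _))
                  (CovZ.n1 (-1480, 18660) (by decide +kernel)
                   (CovZ.leaf K2_ok TP_l5848 _)
                   (CovZ.n1 (-1470, 18650) (by decide +kernel)
                    (CovZ.leaf K2_ok TP_l5849 _)
                    (CovZ.leaf K2_ok TP_l5850 _)))))))
              (CovZ.n1 (-1520, 18560) (by decide +kernel)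
               (CovZ.badM (by decide +kernel))
               (CovZ.n1 (-1480, 18600) (by decide +kernel)
                (CovZ.n2 (-1480, 18560) (by decide +kernel)
                 (CovZ.badM (by decide +kernel))
                 (CovZ.n1 (-1460, 18580) (by decide +kernel)
                  (CovZ.n2 (-1460, 18560) (by decide +kernel)
                   (CovZ.badM (by decide +kernel))
                   (CovZ.n1 (-1450, 18570) (by decide +kernel)
                    (CovZ.badM (by decide +kernel))
                    (CovZ.badM (by decide +kernel))))
                  (CovZ.badM (by decide +kernel))))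
                (CovZ.badM (by decide +kernel)))))
             (CovZ.n1 (-1360, 18640) (by decide +kernel)
              (CovZ.n2 (-1360, 18560) (by decide +kernel)
               (CovZ.n2 (-1400, 18600) (by decide +kernel)
                (CovZ.n2 (-1360, 18600) (by decide +kernel)
                 (CovZ.leaf K2_ok TP_l172 _)
                 (CovZ.leaf K2_ok TP_l173 _))
                (CovZ.n1 (-1400, 18560) (by decide +kernel)
                 (CovZ.n2 (-1420, 18580) (by decide +kernel)
                  (CovZ.leaf K2_ok TP_l5851 _)
                  (CovZ.n1 (-1420, 18560) (by decide +kernel)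
                   (CovZ.leaf K2_ok TP_l5852 _)
                   (CovZ.leaf K2_ok TP_l5853 _)))
                 (CovZ.leaf K2_ok TP_l174 _)))
               (CovZ.n1 (-1320, 18600) (by decide +kernel)
                (CovZ.leaf K2_ok TP_l175 _)
                (CovZ.leaf K2_ok TP_l176 _)))
              (CovZ.n1 (-1440, 18640) (by decide +kernel)
               (CovZ.n2 (-1400, 18680) (by decide +kernel)
                (CovZ.n2 (-1400, 18640) (by decide +kernel)
                 (CovZ.n2 (-1420, 18660) (by decide +kernel)
                  (CovZ.leaf K2_ok TP_l5854 _)
                  (CovZ.leaf K2_ok TP_l5855 _))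
                 (CovZ.leaf K2_ok TP_l177 _))
                (CovZ.n1 (-1440, 18680) (by decide +kernel)
                 (CovZ.leaf K2_ok TP_l5856 _)
                 (CovZ.n1 (-1420, 18660) (by decide +kernel)
                  (CovZ.leaf K2_ok TP_l5857 _)
                  (CovZ.leaf K2_ok TP_l5858 _))))
               (CovZ.n1 (-1400, 18600) (by decide +kernel)
                (CovZ.n2 (-1440, 18600) (by decide +kernel)
                 (CovZ.n2 (-1420, 18620) (by decide +kernel)
                  (CovZ.n2 (-1420, 18600) (by decide +kernel)
                   (CovZ.leaf K2_ok TP_l5859 _)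
                   (CovZ.leaf K2_ok TP_l5860 _))
                  (CovZ.leaf K2_ok TP_l5861 _))
                 (CovZ.n1 (-1420, 18580) (by decide +kernel)
                  (CovZ.n2 (-1440, 18580) (by decide +kernel)
                   (CovZ.leaf K2_ok TP_l5862 _)
                   (CovZ.n1 (-1430, 18570) (by decide +kernel)
                    (CovZ.leaf K2_ok TP_l5863 _)
                    (CovZ.leaf K2_ok TP_l5864 _)))
                  (CovZ.n1 (-1420, 18600) (by decide +kernel)
                   (CovZ.leaf K2_ok TP_l5865 _)
                   (CovZ.leaf K2_ok TP_l5866 _))))
                (CovZ.n1 (-1400, 18640) (by decide +kernel)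
                 (CovZ.leaf K2_ok TP_l178 _)
                 (CovZ.n1 (-1420, 18620) (by decide +kernel)
                  (CovZ.leaf K2_ok TP_l5867 _)
                  (CovZ.leaf K2_ok TP_l5868 _)))))))
            (CovZ.n1 (-1600, 18720) (by decide +kernel)
             (CovZ.n2 (-1520, 18800) (by decide +kernel)
              (CovZ.n2 (-1520, 18720) (by decide +kernel)
               (CovZ.badM (by decide +kernel))
               (CovZ.n1 (-1480, 18760) (by decide +kernel)
                (CovZ.n2 (-1480, 18720) (by decide +kernel)
                 (CovZ.n2 (-1500, 18740) (by decide +kernel)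
                  (CovZ.n2 (-1480, 18740) (by decide +kernel)
                   (CovZ.leaf K2_ok TP_l5869 _)
                   (CovZ.leaf K2_ok TP_l5870 _))
                  (CovZ.n1 (-1500, 18720) (by decide +kernel)
                   (CovZ.n2 (-1510, 18730) (by decide +kernel)
                    (CovZ.n2 (-1500, 18730) (by decide +kernel)
                     (CovZ.badM (by decide +kernel))
                     (CovZ.leaf K2_ok TP_l5871 _))
                    (CovZ.badM (by decide +kernel)))
                   (CovZ.leaf K2_ok TP_l5872 _)))
                 (CovZ.n1 (-1460, 18740) (by decide +kernel)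
                  (CovZ.leaf K2_ok TP_l5873 _)
                  (CovZ.leaf K2_ok TP_l5874 _)))
                (CovZ.n1 (-1520, 18760) (by decide +kernel)
                 (CovZ.n2 (-1500, 18780) (by decide +kernel)
                  (CovZ.n2 (-1500, 18760) (by decide +kernel)
                   (CovZ.leaf K2_ok TP_l5875 _)
                   (CovZ.leaf K2_ok TP_l5876 _))
                  (CovZ.n1 (-1520, 18780) (by decide +kernel)
                   (CovZ.leaf K2_ok TP_l5877 _)
                   (CovZ.n1 (-1510, 18770) (by decide +kernel)
                    (CovZ.badM (by decide +kernel))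
                    (CovZ.leaf K2_ok TP_l5878 _))))
                 (CovZ.n1 (-1500, 18740) (by decide +kernel)
                  (CovZ.n2 (-1520, 18740) (by decide +kernel)
                   (CovZ.n2 (-1510, 18750) (by decide +kernel)
                    (CovZ.leaf K2_ok TP_l5879 _)
                    (CovZ.badM (by decide +kernel)))
                   (CovZ.n1 (-1510, 18730) (by decide +kernel)
                    (CovZ.badM (by decide +kernel))
                    (CovZ.n1 (-1510, 18740) (by decide +kernel)
                     (CovZ.leaf K2_ok TP_l5880 _)
                     (CovZ.badM (by decide +kernel)))))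
                  (CovZ.n1 (-1500, 18760) (by decide +kernel)
                   (CovZ.leaf K2_ok TP_l5881 _)
                   (CovZ.n1 (-1510, 18750) (by decide +kernel)
                    (CovZ.leaf K2_ok TP_l5882 _)
                    (CovZ.n1 (-1500, 18750) (by decide +kernel)
                     (CovZ.leaf K2_ok TP_l5883 _)
                     (CovZ.leaf K2_ok TP_l5884 _))))))))
              (CovZ.badM (by decide +kernel)))
             (CovZ.n1 (-1520, 18640) (by decide +kernel)
              (CovZ.badM (by decide +kernel))
              (CovZ.n1 (-1520, 18720) (by decide +kernel)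
               (CovZ.n2 (-1480, 18680) (by decide +kernel)
                (CovZ.n2 (-1520, 18680) (by decide +kernel)
                 (CovZ.n2 (-1500, 18700) (by decide +kernel)
                  (CovZ.n2 (-1500, 18680) (by decide +kernel)
                   (CovZ.badM (by decide +kernel))
                   (CovZ.n1 (-1490, 18690) (by decide +kernel)
                    (CovZ.leaf K2_ok TP_l5885 _)
                    (CovZ.badM (by decide +kernel))))
                  (CovZ.badM (by decide +kernel)))
                 (CovZ.badM (by decide +kernel)))
                (CovZ.n1 (-1480, 18720) (by decide +kernel)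
                 (CovZ.n2 (-1460, 18700) (by decide +kernel)
                  (CovZ.n2 (-1480, 18700) (by decide +kernel)
                   (CovZ.leaf K2_ok TP_l5886 _)
                   (CovZ.leaf K2_ok TP_l5887 _))
                  (CovZ.leaf K2_ok TP_l5888 _))
                 (CovZ.n1 (-1500, 18700) (by decide +kernel)
                  (CovZ.n2 (-1500, 18720) (by decide +kernel)
                   (CovZ.n2 (-1490, 18710) (by decide +kernel)
                    (CovZ.badM (by decide +kernel))
                    (CovZ.leaf K2_ok TP_l5889 _))
                   (CovZ.badM (by decide +kernel)))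
                  (CovZ.n1 (-1480, 18700) (by decide +kernel)
                   (CovZ.n2 (-1490, 18690) (by decide +kernel)
                    (CovZ.n2 (-1490, 18700) (by decide +kernel)
                     (CovZ.leaf K2_ok TP_l5890 _)
                     (CovZ.badM (by decide +kernel)))
                    (CovZ.leaf K2_ok TP_l5891 _))
                   (CovZ.n1 (-1490, 18710) (by decide +kernel)
                    (CovZ.leaf K2_ok TP_l5892 _)
                    (CovZ.leaf K2_ok TP_l5893 _))))))
               (CovZ.badM (by decide +kernel))))))))

theorem TP_u62 : CovZ TP_M (toL (selN TP_LN 163190251395892382435838576067072)) [0, 7, 2, 5] (-1280, 18560) (-1280, 17920) (-640, 18560) :=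
    (CovZ.n1 (-960, 18240) (by decide +kernel)
         (CovZ.subM 162536580329345064770534732201984 (by decide +kernel)
          (CovZ.n2 (-1280, 18240) (by decide +kernel)
           (CovZ.n2 (-1120, 18400) (by decide +kernel)
            (CovZ.n2 (-1120, 18240) (by decide +kernel)
             (CovZ.subM 162298895822912805826275519234048 (by decide +kernel)
              (CovZ.n2 (-1200, 18320) (by decide +kernel)
               (CovZ.n2 (-1120, 18320) (by decide +kernel)
                (CovZ.leaf K2_ok TP_l225 _)
                (CovZ.leaf K2_ok TP_l226 _))
               (CovZ.n1 (-1200, 18240) (by decide +kernel)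
                (CovZ.n2 (-1240, 18280) (by decide +kernel)
                 (CovZ.leaf K2_ok TP_l5909 _)
                 (CovZ.n1 (-1240, 18240) (by decide +kernel)
                  (CovZ.leaf K2_ok TP_l5910 _)
                  (CovZ.leaf K2_ok TP_l5911 _)))
                (CovZ.leaf K2_ok TP_l227 _))))
             (CovZ.n1 (-1040, 18320) (by decide +kernel)
              (CovZ.leaf K2_ok TP_l228 _)
              (CovZ.leaf K2_ok TP_l229 _)))
            (CovZ.subM 162298895822912805826275519234048 (by decide +kernel)
             (CovZ.n1 (-1280, 18400) (by decide +kernel)
              (CovZ.n2 (-1200, 18480) (by decide +kernel)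
               (CovZ.n2 (-1200, 18400) (by decide +kernel)
                (CovZ.leaf K2_ok TP_l5912 _)
                (CovZ.leaf K2_ok TP_l230 _))
               (CovZ.n1 (-1280, 18480) (by decide +kernel)
                (CovZ.leaf K2_ok TP_l5913 _)
                (CovZ.leaf K2_ok TP_l5914 _)))
              (CovZ.n1 (-1200, 18320) (by decide +kernel)
               (CovZ.n2 (-1280, 18320) (by decide +kernel)
                (CovZ.n2 (-1240, 18360) (by decide +kernel)
                 (CovZ.leaf K2_ok TP_l5915 _)
                 (CovZ.leaf K2_ok TP_l5916 _))
                (CovZ.n1 (-1240, 18280) (by decide +kernel)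
                 (CovZ.n2 (-1280, 18280) (by decide +kernel)
                  (CovZ.leaf K2_ok TP_l5917 _)
                  (CovZ.leaf K2_ok TP_l5918 _))
                 (CovZ.leaf K2_ok TP_l5919 _)))
               (CovZ.n1 (-1200, 18400) (by decide +kernel)
                (CovZ.leaf K2_ok TP_l231 _)
                (CovZ.n1 (-1240, 18360) (by decide +kernel)
                 (CovZ.leaf K2_ok TP_l5920 _)
                 (CovZ.leaf K2_ok TP_l5921 _)))))))
           (CovZ.n1 (-1120, 18080) (by decide +kernel)
            (CovZ.subM 4912442310265900736970752 (by decide +kernel)
             (CovZ.n2 (-1280, 18080) (by decide +kernel)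
              (CovZ.n2 (-1200, 18160) (by decide +kernel)
               (CovZ.n2 (-1200, 18080) (by decide +kernel)
                (CovZ.n2 (-1240, 18120) (by decide +kernel)
                 (CovZ.n2 (-1200, 18120) (by decide +kernel)
                  (CovZ.leaf K2_ok TP_l5922 _)
                  (CovZ.leaf K2_ok TP_l5923 _))
                 (CovZ.n1 (-1240, 18080) (by decide +kernel)
                  (CovZ.n2 (-1260, 18100) (by decide +kernel)
                   (CovZ.leaf K2_ok TP_l5924 _)
                   (CovZ.n1 (-1260, 18080) (by decide +kernel)
                    (CovZ.leaf K2_ok TP_l5925 _)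
                    (CovZ.leaf K2_ok TP_l5926 _)))
                  (CovZ.leaf K2_ok TP_l5927 _)))
                (CovZ.n1 (-1160, 18120) (by decide +kernel)
                 (CovZ.leaf K2_ok TP_l232 _)
                 (CovZ.leaf K2_ok TP_l5928 _)))
               (CovZ.n1 (-1280, 18160) (by decide +kernel)
                (CovZ.n2 (-1240, 18200) (by decide +kernel)
                 (CovZ.n2 (-1240, 18160) (by decide +kernel)
                  (CovZ.n2 (-1260, 18180) (by decide +kernel)
                   (CovZ.leaf K2_ok TP_l5929 _)
                   (CovZ.leaf K2_ok TP_l5930 _))
                  (CovZ.leaf K2_ok TP_l5931 _))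
                 (CovZ.n1 (-1280, 18200) (by decide +kernel)
                  (CovZ.leaf K2_ok TP_l5932 _)
                  (CovZ.n1 (-1260, 18180) (by decide +kernel)
                   (CovZ.leaf K2_ok TP_l5933 _)
                   (CovZ.leaf K2_ok TP_l5934 _))))
                (CovZ.n1 (-1240, 18120) (by decide +kernel)
                 (CovZ.n2 (-1280, 18120) (by decide +kernel)
                  (CovZ.n2 (-1260, 18140) (by decide +kernel)
                   (CovZ.n2 (-1260, 18120) (by decide +kernel)
                    (CovZ.leaf K2_ok TP_l5935 _)
                    (CovZ.leaf K2_ok TP_l5936 _))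
                   (CovZ.leaf K2_ok TP_l5937 _))
                  (CovZ.n1 (-1260, 18100) (by decide +kernel)
                   (CovZ.n2 (-1280, 18100) (by decide +kernel)
                    (CovZ.leaf K2_ok TP_l5938 _)
                    (CovZ.n1 (-1270, 18090) (by decide +kernel)
                     (CovZ.badM (by decide +kernel))
                     (CovZ.leaf K2_ok TP_l5939 _)))
                   (CovZ.n1 (-1260, 18120) (by decide +kernel)
                    (CovZ.leaf K2_ok TP_l5940 _)
                    (CovZ.leaf K2_ok TP_l5941 _))))
                 (CovZ.n1 (-1240, 18160) (by decide +kernel)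
                  (CovZ.leaf K2_ok TP_l5942 _)
                  (CovZ.n1 (-1260, 18140) (by decide +kernel)
                   (CovZ.leaf K2_ok TP_l5943 _)
                   (CovZ.leaf K2_ok TP_l5944 _))))))
              (CovZ.n1 (-1200, 18000) (by decide +kernel)
               (CovZ.n2 (-1280, 18000) (by decide +kernel)
                (CovZ.n2 (-1240, 18040) (by decide +kernel)
                 (CovZ.n2 (-1240, 18000) (by decide +kernel)
                  (CovZ.n2 (-1260, 18020) (by decide +kernel)
                   (CovZ.n2 (-1240, 18020) (by decide +kernel)
                    (CovZ.n2 (-1250, 18010) (by decide +kernel)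
                     (CovZ.n2 (-1250, 18020) (by decide +kernel)
                      (CovZ.leaf K2_ok TP_l5945 _)
                      (CovZ.badM (by decide +kernel)))
                     (CovZ.leaf K2_ok TP_l5946 _))
                    (CovZ.n1 (-1250, 18030) (by decide +kernel)
                     (CovZ.leaf K2_ok TP_l5947 _)
                     (CovZ.leaf K2_ok TP_l5948 _)))
                   (CovZ.n1 (-1260, 18000) (by decide +kernel)
                    (CovZ.badM (by decide +kernel))
                    (CovZ.n1 (-1250, 18010) (by decide +kernel)
                     (CovZ.badM (by decide +kernel))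
                     (CovZ.badM (by decide +kernel)))))
                  (CovZ.n1 (-1220, 18020) (by decide +kernel)
                   (CovZ.leaf K2_ok TP_l5949 _)
                   (CovZ.n1 (-1240, 18020) (by decide +kernel)
                    (CovZ.leaf K2_ok TP_l5950 _)
                    (CovZ.leaf K2_ok TP_l5951 _))))
                 (CovZ.n1 (-1280, 18040) (by decide +kernel)
                  (CovZ.n2 (-1260, 18060) (by decide +kernel)
                   (CovZ.n2 (-1260, 18040) (by decide +kernel)
                    (CovZ.n2 (-1270, 18050) (by decide +kernel)
                     (CovZ.leaf K2_ok TP_l5952 _)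
                     (CovZ.n1 (-1270, 18040) (by decide +kernel)
                      (CovZ.badM (by decide +kernel))
                      (CovZ.leaf K2_ok TP_l5953 _)))
                    (CovZ.leaf K2_ok TP_l5954 _))
                   (CovZ.n1 (-1280, 18060) (by decide +kernel)
                    (CovZ.n2 (-1270, 18070) (by decide +kernel)
                     (CovZ.leaf K2_ok TP_l5955 _)
                     (CovZ.badM (by decide +kernel)))
                    (CovZ.n1 (-1270, 18050) (by decide +kernel)
                     (CovZ.badM (by decide +kernel))
                     (CovZ.n1 (-1270, 18060) (by decide +kernel)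
                      (CovZ.leaf K2_ok TP_l5956 _)
                      (CovZ.badM (by decide +kernel))))))
                  (CovZ.n1 (-1260, 18020) (by decide +kernel)
                   (CovZ.n2 (-1280, 18020) (by decide +kernel)
                    (CovZ.n2 (-1270, 18030) (by decide +kernel)
                     (CovZ.badM (by decide +kernel))
                     (CovZ.badM (by decide +kernel)))
                    (CovZ.badM (by decide +kernel)))
                   (CovZ.n1 (-1260, 18040) (by decide +kernel)
                    (CovZ.n2 (-1250, 18030) (by decide +kernel)
                     (CovZ.leaf K2_ok TP_l5957 _)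
                     (CovZ.leaf K2_ok TP_l5958 _))
                    (CovZ.n1 (-1270, 18030) (by decide +kernel)
                     (CovZ.n2 (-1270, 18040) (by decide +kernel)
                      (CovZ.leaf K2_ok TP_l5959 _)
                      (CovZ.badM (by decide +kernel)))
                     (CovZ.n1 (-1260, 18030) (by decide +kernel)
                      (CovZ.badM (by decide +kernel))
                      (CovZ.leaf K2_ok TP_l5960 _)))))))
                (CovZ.n1 (-1240, 17960) (by decide +kernel)
                 (CovZ.badM (by decide +kernel))
                 (CovZ.n1 (-1240, 18000) (by decide +kernel)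
                  (CovZ.n2 (-1220, 17980) (by decide +kernel)
                   (CovZ.n2 (-1240, 17980) (by decide +kernel)
                    (CovZ.leaf K2_ok TP_l5961 _)
                    (CovZ.n1 (-1230, 17970) (by decide +kernel)
                     (CovZ.leaf K2_ok TP_l5962 _)
                     (CovZ.leaf K2_ok TP_l5963 _)))
                   (CovZ.n1 (-1220, 18000) (by decide +kernel)
                    (CovZ.leaf K2_ok TP_l5964 _)
                    (CovZ.leaf K2_ok TP_l5965 _)))
                  (CovZ.badM (by decide +kernel)))))
               (CovZ.n1 (-1200, 18080) (by decide +kernel)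
                (CovZ.n2 (-1160, 18040) (by decide +kernel)
                 (CovZ.n2 (-1200, 18040) (by decide +kernel)
                  (CovZ.leaf K2_ok TP_l5966 _)
                  (CovZ.leaf K2_ok TP_l5967 _))
                 (CovZ.n1 (-1160, 18080) (by decide +kernel)
                  (CovZ.leaf K2_ok TP_l233 _)
                  (CovZ.leaf K2_ok TP_l5968 _)))
                (CovZ.n1 (-1240, 18040) (by decide +kernel)
                 (CovZ.n2 (-1240, 18080) (by decide +kernel)
                  (CovZ.n2 (-1220, 18060) (by decide +kernel)
                   (CovZ.leaf K2_ok TP_l5969 _)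
                   (CovZ.leaf K2_ok TP_l5970 _))
                  (CovZ.n1 (-1260, 18060) (by decide +kernel)
                   (CovZ.n2 (-1260, 18080) (by decide +kernel)
                    (CovZ.leaf K2_ok TP_l5971 _)
                    (CovZ.n1 (-1270, 18070) (by decide +kernel)
                     (CovZ.leaf K2_ok TP_l5972 _)
                     (CovZ.leaf K2_ok TP_l5973 _)))
                   (CovZ.n1 (-1240, 18060) (by decide +kernel)
                    (CovZ.leaf K2_ok TP_l5974 _)
                    (CovZ.leaf K2_ok TP_l5975 _))))
                 (CovZ.n1 (-1200, 18040) (by decide +kernel)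
                  (CovZ.n2 (-1220, 18020) (by decide +kernel)
                   (CovZ.leaf K2_ok TP_l5976 _)
                   (CovZ.leaf K2_ok TP_l5977 _))
                  (CovZ.n1 (-1220, 18060) (by decide +kernel)
                   (CovZ.leaf K2_ok TP_l5978 _)
                   (CovZ.leaf K2_ok TP_l5979 _))))))))
            (CovZ.n1 (-1120, 18240) (by decide +kernel)
             (CovZ.n2 (-1040, 18160) (by decide +kernel)
              (CovZ.leaf K2_ok TP_l234 _)
              (CovZ.leaf K2_ok TP_l235 _))
             (CovZ.subM 4912442310265900736970752 (by decide +kernel)
              (CovZ.n1 (-1200, 18160) (by decide +kernel)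
               (CovZ.n2 (-1200, 18240) (by decide +kernel)
                (CovZ.n2 (-1160, 18200) (by decide +kernel)
                 (CovZ.leaf K2_ok TP_l5980 _)
                 (CovZ.leaf K2_ok TP_l236 _))
                (CovZ.n1 (-1240, 18200) (by decide +kernel)
                 (CovZ.n2 (-1240, 18240) (by decide +kernel)
                  (CovZ.leaf K2_ok TP_l5981 _)
                  (CovZ.leaf K2_ok TP_l5982 _))
                 (CovZ.leaf K2_ok TP_l5983 _)))
               (CovZ.n1 (-1120, 18160) (by decide +kernel)
                (CovZ.n2 (-1160, 18120) (by decide +kernel)
                 (CovZ.leaf K2_ok TP_l237 _)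
                 (CovZ.leaf K2_ok TP_l238 _))
                (CovZ.leaf K2_ok TP_l239 _))))))))
         (CovZ.n1 (-960, 18560) (by decide +kernel)
          (CovZ.n2 (-800, 18400) (by decide +kernel)
           (CovZ.leaf K2_ok TP_l240 _)
           (CovZ.leaf K2_ok TP_l241 _))
          (CovZ.subM 162536580329345064770534732201984 (by decide +kernel)
           (CovZ.n1 (-1120, 18400) (by decide +kernel)
            (CovZ.n2 (-1120, 18560) (by decide +kernel)
             (CovZ.leaf K2_ok TP_l242 _)
             (CovZ.n1 (-1200, 18480) (by decide +kernel)
              (CovZ.n2 (-1200, 18560) (by decide +kernel)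
               (CovZ.leaf K2_ok TP_l243 _)
               (CovZ.leaf K2_ok TP_l5984 _))
              (CovZ.leaf K2_ok TP_l244 _)))
            (CovZ.n1 (-960, 18400) (by decide +kernel)
             (CovZ.leaf K2_ok TP_l245 _)
             (CovZ.leaf K2_ok TP_l246 _))))))

theorem TP_u63 : CovZ TP_M (toL (selN TP_LN 174990207359904311762294682022104774511112)) [0, 7, 2, 5] (-2560, 17920) (-1280, 17920) (-1280, 19200) :=
    (CovZ.subM 162318697991277223158817178518016 (by decide +kernel)
      (CovZ.n2 (-1920, 18560) (by decide +kernel)
       (CovZ.n2 (-1280, 18560) (by decide +kernel)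
        (CovZ.subM 162298890910470495560374782263296 (by decide +kernel)
         (CovZ.n2 (-1600, 18240) (by decide +kernel)
          (CovZ.n2 (-1600, 18560) (by decide +kernel)
           (CovZ.n2 (-1440, 18400) (by decide +kernel)
            (CovZ.badM (by decide +kernel))
            (CovZ.n1 (-1440, 18560) (by decide +kernel)
             (CovZ.n2 (-1360, 18480) (by decide +kernel)
              (CovZ.n2 (-1440, 18480) (by decide +kernel)
               (CovZ.badM (by decide +kernel))
               (CovZ.n1 (-1400, 18440) (by decide +kernel)
                (CovZ.badM (by decide +kernel))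
                (CovZ.n1 (-1400, 18480) (by decide +kernel)
                 (CovZ.n2 (-1380, 18460) (by decide +kernel)
                  (CovZ.badM (by decide +kernel))
                  (CovZ.badM (by decide +kernel)))
                 (CovZ.badM (by decide +kernel)))))
              (CovZ.badM (by decide +kernel)))
             (CovZ.badM (by decide +kernel))))
           (CovZ.badM (by decide +kernel)))
          (CovZ.n1 (-1280, 18240) (by decide +kernel)
           (CovZ.badM (by decide +kernel))
           (CovZ.n1 (-1440, 18400) (by decide +kernel)
            (CovZ.n2 (-1280, 18400) (by decide +kernel)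
             (CovZ.n2 (-1360, 18320) (by decide +kernel)
              (CovZ.n2 (-1360, 18400) (by decide +kernel)
               (CovZ.n2 (-1320, 18360) (by decide +kernel)
                (CovZ.n2 (-1360, 18360) (by decide +kernel)
                 (CovZ.n2 (-1340, 18380) (by decide +kernel)
                  (CovZ.leaf K2_ok TP_l5741 _)
                  (CovZ.leaf K2_ok TP_l5742 _))
                 (CovZ.n1 (-1340, 18340) (by decide +kernel)
                  (CovZ.n2 (-1360, 18340) (by decide +kernel)
                   (CovZ.leaf K2_ok TP_l5743 _)
                   (CovZ.n1 (-1350, 18330) (by decide +kernel)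
                    (CovZ.leaf K2_ok TP_l5744 _)
                    (CovZ.leaf K2_ok TP_l5745 _)))
                  (CovZ.n1 (-1340, 18360) (by decide +kernel)
                   (CovZ.leaf K2_ok TP_l5746 _)
                   (CovZ.leaf K2_ok TP_l5747 _))))
                (CovZ.n1 (-1320, 18400) (by decide +kernel)
                 (CovZ.leaf K2_ok TP_l5748 _)
                 (CovZ.n1 (-1340, 18380) (by decide +kernel)
                  (CovZ.leaf K2_ok TP_l5749 _)
                  (CovZ.leaf K2_ok TP_l5750 _))))
               (CovZ.n1 (-1400, 18360) (by decide +kernel)
                (CovZ.n2 (-1400, 18400) (by decide +kernel)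
                 (CovZ.n2 (-1380, 18380) (by decide +kernel)
                  (CovZ.badM (by decide +kernel))
                  (CovZ.n1 (-1380, 18400) (by decide +kernel)
                   (CovZ.n2 (-1370, 18390) (by decide +kernel)
                    (CovZ.badM (by decide +kernel))
                    (CovZ.leaf K2_ok TP_l5751 _))
                   (CovZ.badM (by decide +kernel))))
                 (CovZ.badM (by decide +kernel)))
                (CovZ.n1 (-1360, 18360) (by decide +kernel)
                 (CovZ.n2 (-1380, 18340) (by decide +kernel)
                  (CovZ.n2 (-1380, 18360) (by decide +kernel)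
                   (CovZ.n2 (-1370, 18350) (by decide +kernel)
                    (CovZ.badM (by decide +kernel))
                    (CovZ.leaf K2_ok TP_l5752 _))
                   (CovZ.badM (by decide +kernel)))
                  (CovZ.n1 (-1360, 18340) (by decide +kernel)
                   (CovZ.n2 (-1370, 18330) (by decide +kernel)
                    (CovZ.n2 (-1370, 18340) (by decide +kernel)
                     (CovZ.leaf K2_ok TP_l5753 _)
                     (CovZ.badM (by decide +kernel)))
                    (CovZ.n1 (-1360, 18330) (by decide +kernel)
                     (CovZ.leaf K2_ok TP_l5754 _)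
                     (CovZ.leaf K2_ok TP_l5755 _)))
                   (CovZ.leaf K2_ok TP_l5756 _)))
                 (CovZ.n1 (-1380, 18380) (by decide +kernel)
                  (CovZ.n2 (-1360, 18380) (by decide +kernel)
                   (CovZ.n2 (-1370, 18370) (by decide +kernel)
                    (CovZ.leaf K2_ok TP_l5757 _)
                    (CovZ.leaf K2_ok TP_l5758 _))
                   (CovZ.leaf K2_ok TP_l5759 _))
                  (CovZ.n1 (-1380, 18360) (by decide +kernel)
                   (CovZ.badM (by decide +kernel))
                   (CovZ.n1 (-1370, 18370) (by decide +kernel)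
                    (CovZ.leaf K2_ok TP_l5760 _)
                    (CovZ.badM (by decide +kernel))))))))
              (CovZ.n1 (-1280, 18320) (by decide +kernel)
               (CovZ.n2 (-1320, 18280) (by decide +kernel)
                (CovZ.n2 (-1320, 18320) (by decide +kernel)
                 (CovZ.n2 (-1300, 18300) (by decide +kernel)
                  (CovZ.leaf K2_ok TP_l5761 _)
                  (CovZ.leaf K2_ok TP_l5762 _))
                 (CovZ.n1 (-1340, 18300) (by decide +kernel)
                  (CovZ.n2 (-1340, 18320) (by decide +kernel)
                   (CovZ.leaf K2_ok TP_l5763 _)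
                   (CovZ.n1 (-1350, 18310) (by decide +kernel)
                    (CovZ.leaf K2_ok TP_l5764 _)
                    (CovZ.leaf K2_ok TP_l5765 _)))
                  (CovZ.n1 (-1320, 18300) (by decide +kernel)
                   (CovZ.leaf K2_ok TP_l5766 _)
                   (CovZ.leaf K2_ok TP_l5767 _))))
                (CovZ.n1 (-1280, 18280) (by decide +kernel)
                 (CovZ.badM (by decide +kernel))
                 (CovZ.n1 (-1300, 18300) (by decide +kernel)
                  (CovZ.leaf K2_ok TP_l5768 _)
                  (CovZ.leaf K2_ok TP_l5769 _))))
               (CovZ.n1 (-1320, 18360) (by decide +kernel)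
                (CovZ.n2 (-1280, 18360) (by decide +kernel)
                 (CovZ.leaf K2_ok TP_l5770 _)
                 (CovZ.leaf K2_ok TP_l5771 _))
                (CovZ.n1 (-1320, 18320) (by decide +kernel)
                 (CovZ.n2 (-1340, 18340) (by decide +kernel)
                  (CovZ.leaf K2_ok TP_l5772 _)
                  (CovZ.n1 (-1340, 18320) (by decide +kernel)
                   (CovZ.leaf K2_ok TP_l5773 _)
                   (CovZ.leaf K2_ok TP_l5774 _)))
                 (CovZ.leaf K2_ok TP_l5775 _)))))
             (CovZ.n1 (-1360, 18480) (by decide +kernel)
              (CovZ.n2 (-1280, 18480) (by decide +kernel)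
               (CovZ.n2 (-1320, 18440) (by decide +kernel)
                (CovZ.n2 (-1320, 18480) (by decide +kernel)
                 (CovZ.leaf K2_ok TP_l5776 _)
                 (CovZ.leaf K2_ok TP_l5777 _))
                (CovZ.leaf K2_ok TP_l5778 _))
               (CovZ.badM (by decide +kernel)))
              (CovZ.n1 (-1360, 18400) (by decide +kernel)
               (CovZ.n2 (-1400, 18440) (by decide +kernel)
                (CovZ.n2 (-1360, 18440) (by decide +kernel)
                 (CovZ.n2 (-1380, 18420) (by decide +kernel)
                  (CovZ.n2 (-1380, 18440) (by decide +kernel)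
                   (CovZ.leaf K2_ok TP_l5779 _)
                   (CovZ.badM (by decide +kernel)))
                  (CovZ.leaf K2_ok TP_l5780 _))
                 (CovZ.n1 (-1380, 18460) (by decide +kernel)
                  (CovZ.leaf K2_ok TP_l5781 _)
                  (CovZ.n1 (-1380, 18440) (by decide +kernel)
                   (CovZ.badM (by decide +kernel))
                   (CovZ.leaf K2_ok TP_l5782 _))))
                (CovZ.n1 (-1400, 18400) (by decide +kernel)
                 (CovZ.badM (by decide +kernel))
                 (CovZ.n1 (-1380, 18420) (by decide +kernel)
                  (CovZ.n2 (-1380, 18400) (by decide +kernel)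
                   (CovZ.badM (by decide +kernel))
                   (CovZ.leaf K2_ok TP_l5783 _))
                  (CovZ.badM (by decide +kernel)))))
               (CovZ.n1 (-1320, 18440) (by decide +kernel)
                (CovZ.n2 (-1320, 18400) (by decide +kernel)
                 (CovZ.leaf K2_ok TP_l5784 _)
                 (CovZ.leaf K2_ok TP_l5785 _))
                (CovZ.n1 (-1360, 18440) (by decide +kernel)
                 (CovZ.leaf K2_ok TP_l5786 _)
                 (CovZ.n1 (-1340, 18420) (by decide +kernel)
                  (CovZ.leaf K2_ok TP_l5787 _)
                  (CovZ.leaf K2_ok TP_l5788 _)))))))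
            (CovZ.n1 (-1440, 18240) (by decide +kernel)
             (CovZ.badM (by decide +kernel))
             (CovZ.n1 (-1360, 18320) (by decide +kernel)
              (CovZ.n2 (-1360, 18240) (by decide +kernel)
               (CovZ.n2 (-1400, 18280) (by decide +kernel)
                (CovZ.n2 (-1360, 18280) (by decide +kernel)
                 (CovZ.badM (by decide +kernel))
                 (CovZ.n1 (-1380, 18300) (by decide +kernel)
                  (CovZ.n2 (-1360, 18300) (by decide +kernel)
                   (CovZ.badM (by decide +kernel))
                   (CovZ.n1 (-1370, 18310) (by decide +kernel)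
                    (CovZ.leaf K2_ok TP_l5789 _)
                    (CovZ.badM (by decide +kernel))))
                  (CovZ.badM (by decide +kernel))))
                (CovZ.badM (by decide +kernel)))
               (CovZ.n1 (-1320, 18280) (by decide +kernel)
                (CovZ.badM (by decide +kernel))
                (CovZ.n1 (-1360, 18280) (by decide +kernel)
                 (CovZ.n2 (-1340, 18300) (by decide +kernel)
                  (CovZ.n2 (-1340, 18280) (by decide +kernel)
                   (CovZ.n2 (-1350, 18290) (by decide +kernel)
                    (CovZ.leaf K2_ok TP_l5790 _)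
                    (CovZ.leaf K2_ok TP_l5791 _))
                   (CovZ.leaf K2_ok TP_l5792 _))
                  (CovZ.n1 (-1360, 18300) (by decide +kernel)
                   (CovZ.n2 (-1350, 18310) (by decide +kernel)
                    (CovZ.leaf K2_ok TP_l5793 _)
                    (CovZ.leaf K2_ok TP_l5794 _))
                   (CovZ.n1 (-1350, 18290) (by decide +kernel)
                    (CovZ.badM (by decide +kernel))
                    (CovZ.n1 (-1350, 18300) (by decide +kernel)
                     (CovZ.leaf K2_ok TP_l5795 _)
                     (CovZ.badM (by decide +kernel))))))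
                 (CovZ.badM (by decide +kernel)))))
              (CovZ.n1 (-1440, 18320) (by decide +kernel)
               (CovZ.n2 (-1400, 18360) (by decide +kernel)
                (CovZ.n2 (-1400, 18320) (by decide +kernel)
                 (CovZ.badM (by decide +kernel))
                 (CovZ.n1 (-1380, 18340) (by decide +kernel)
                  (CovZ.n2 (-1380, 18320) (by decide +kernel)
                   (CovZ.badM (by decide +kernel))
                   (CovZ.n1 (-1370, 18330) (by decide +kernel)
                    (CovZ.n2 (-1370, 18320) (by decide +kernel)
                     (CovZ.badM (by decide +kernel))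
                     (CovZ.leaf K2_ok TP_l5796 _))
                    (CovZ.badM (by decide +kernel))))
                  (CovZ.badM (by decide +kernel))))
                (CovZ.badM (by decide +kernel)))
               (CovZ.n1 (-1400, 18280) (by decide +kernel)
                (CovZ.badM (by decide +kernel))
                (CovZ.n1 (-1400, 18320) (by decide +kernel)
                 (CovZ.n2 (-1380, 18300) (by decide +kernel)
                  (CovZ.badM (by decide +kernel))
                  (CovZ.n1 (-1380, 18320) (by decide +kernel)
                   (CovZ.n2 (-1370, 18310) (by decide +kernel)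
                    (CovZ.badM (by decide +kernel))
                    (CovZ.n1 (-1370, 18320) (by decide +kernel)
                     (CovZ.leaf K2_ok TP_l5797 _)
                     (CovZ.badM (by decide +kernel))))
                   (CovZ.badM (by decide +kernel))))
                 (CovZ.badM (by decide +kernel)))))))))))
        (CovZ.n1 (-1600, 18880) (by decide +kernel)
         TP_u60
         TP_u61))
       (CovZ.n1 (-1920, 17920) (by decide +kernel)
        (CovZ.badM (by decide +kernel))
        (CovZ.n1 (-1600, 18240) (by decide +kernel)
         (CovZ.badM (by decide +kernel))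
         (CovZ.badM (by decide +kernel))))))

theorem TP_u64 : CovZ TP_M (toL (selN TP_LN 174990207359904311762294682022104774511112)) [0, 7, 2, 5] (-1280, 17920) (0, 17920) (-1280, 19200) :=
    (CovZ.n1 (-640, 18560) (by decide +kernel)
      (CovZ.n2 (-640, 17920) (by decide +kernel)
       (CovZ.subM 163170444315085654837396179812352 (by decide +kernel)
        (CovZ.n2 (-960, 18240) (by decide +kernel)
         (CovZ.n2 (-640, 18240) (by decide +kernel)
          (CovZ.n2 (-800, 18080) (by decide +kernel)
           (CovZ.n2 (-800, 18240) (by decide +kernel)
            (CovZ.leaf K2_ok TP_l179 _)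
            (CovZ.leaf K2_ok TP_l180 _))
           (CovZ.leaf K2_ok TP_l181 _))
          (CovZ.n1 (-800, 18400) (by decide +kernel)
           (CovZ.leaf K2_ok TP_l182 _)
           (CovZ.n1 (-800, 18240) (by decide +kernel)
            (CovZ.leaf K2_ok TP_l183 _)
            (CovZ.leaf K2_ok TP_l184 _))))
         (CovZ.n1 (-960, 17920) (by decide +kernel)
          (CovZ.subM 237689418874569210159949938688 (by decide +kernel)
           (CovZ.n2 (-1120, 18080) (by decide +kernel)
            (CovZ.n2 (-960, 18080) (by decide +kernel)
             (CovZ.n2 (-1040, 18000) (by decide +kernel)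
              (CovZ.n2 (-1040, 18080) (by decide +kernel)
               (CovZ.leaf K2_ok TP_l185 _)
               (CovZ.leaf K2_ok TP_l186 _))
              (CovZ.leaf K2_ok TP_l187 _))
             (CovZ.n1 (-1040, 18160) (by decide +kernel)
              (CovZ.leaf K2_ok TP_l188 _)
              (CovZ.n1 (-1040, 18080) (by decide +kernel)
               (CovZ.leaf K2_ok TP_l189 _)
               (CovZ.leaf K2_ok TP_l190 _))))
            (CovZ.n1 (-1120, 17920) (by decide +kernel)
             (CovZ.subM 4911261718645183325667328 (by decide +kernel)
              (CovZ.n2 (-1200, 18000) (by decide +kernel)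
               (CovZ.n2 (-1120, 18000) (by decide +kernel)
                (CovZ.n2 (-1160, 17960) (by decide +kernel)
                 (CovZ.n2 (-1160, 18000) (by decide +kernel)
                  (CovZ.leaf K2_ok TP_l191 _)
                  (CovZ.n1 (-1180, 17980) (by decide +kernel)
                   (CovZ.leaf K2_ok TP_l5894 _)
                   (CovZ.leaf K2_ok TP_l5895 _)))
                 (CovZ.leaf K2_ok TP_l192 _))
                (CovZ.n1 (-1160, 18040) (by decide +kernel)
                 (CovZ.leaf K2_ok TP_l193 _)
                 (CovZ.n1 (-1160, 18000) (by decide +kernel)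
                  (CovZ.leaf K2_ok TP_l5896 _)
                  (CovZ.leaf K2_ok TP_l194 _))))
               (CovZ.n1 (-1200, 17920) (by decide +kernel)
                (CovZ.n2 (-1240, 17960) (by decide +kernel)
                 (CovZ.n2 (-1200, 17960) (by decide +kernel)
                  (CovZ.n2 (-1220, 17940) (by decide +kernel)
                   (CovZ.n2 (-1220, 17960) (by decide +kernel)
                    (CovZ.leaf K2_ok TP_l5897 _)
                    (CovZ.n1 (-1230, 17950) (by decide +kernel)
                     (CovZ.leaf K2_ok TP_l5898 _)
                     (CovZ.leaf K2_ok TP_l5899 _)))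
                   (CovZ.n1 (-1200, 17940) (by decide +kernel)
                    (CovZ.badM (by decide +kernel))
                    (CovZ.leaf K2_ok TP_l5900 _)))
                  (CovZ.n1 (-1220, 17980) (by decide +kernel)
                   (CovZ.leaf K2_ok TP_l5901 _)
                   (CovZ.n1 (-1220, 17960) (by decide +kernel)
                    (CovZ.leaf K2_ok TP_l5902 _)
                    (CovZ.leaf K2_ok TP_l5903 _))))
                 (CovZ.n1 (-1240, 17920) (by decide +kernel)
                  (CovZ.badM (by decide +kernel))
                  (CovZ.n1 (-1220, 17940) (by decide +kernel)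
                   (CovZ.badM (by decide +kernel))
                   (CovZ.n1 (-1240, 17940) (by decide +kernel)
                    (CovZ.n2 (-1230, 17950) (by decide +kernel)
                     (CovZ.badM (by decide +kernel))
                     (CovZ.n1 (-1240, 17950) (by decide +kernel)
                      (CovZ.leaf K2_ok TP_l5904 _)
                      (CovZ.badM (by decide +kernel))))
                    (CovZ.badM (by decide +kernel))))))
                (CovZ.n1 (-1160, 17960) (by decide +kernel)
                 (CovZ.n2 (-1160, 17920) (by decide +kernel)
                  (CovZ.n2 (-1180, 17940) (by decide +kernel)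
                   (CovZ.leaf K2_ok TP_l5905 _)
                   (CovZ.badM (by decide +kernel)))
                  (CovZ.leaf K2_ok TP_l195 _))
                 (CovZ.n1 (-1200, 17960) (by decide +kernel)
                  (CovZ.leaf K2_ok TP_l5906 _)
                  (CovZ.n1 (-1180, 17940) (by decide +kernel)
                   (CovZ.leaf K2_ok TP_l5907 _)
                   (CovZ.leaf K2_ok TP_l5908 _)))))))
             (CovZ.n1 (-1040, 18000) (by decide +kernel)
              (CovZ.n2 (-1040, 17920) (by decide +kernel)
               (CovZ.leaf K2_ok TP_l196 _)
               (CovZ.leaf K2_ok TP_l197 _))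
              (CovZ.n1 (-1120, 18000) (by decide +kernel)
               (CovZ.leaf K2_ok TP_l198 _)
               (CovZ.n1 (-1080, 17960) (by decide +kernel)
                (CovZ.leaf K2_ok TP_l199 _)
                (CovZ.leaf K2_ok TP_l200 _)))))))
          (CovZ.n1 (-800, 18080) (by decide +kernel)
           (CovZ.n2 (-800, 17920) (by decide +kernel)
            (CovZ.leaf K2_ok TP_l201 _)
            (CovZ.leaf K2_ok TP_l202 _))
           (CovZ.n1 (-960, 18080) (by decide +kernel)
            (CovZ.leaf K2_ok TP_l203 _)
            (CovZ.leaf K2_ok TP_l204 _))))))
       (CovZ.n1 (-320, 18240) (by decide +kernel)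
        (CovZ.n2 (-320, 17920) (by decide +kernel)
         (CovZ.leaf K2_ok TP_l205 _)
         (CovZ.leaf K2_ok TP_l206 _))
        (CovZ.n1 (-640, 18240) (by decide +kernel)
         (CovZ.leaf K2_ok TP_l207 _)
         (CovZ.leaf K2_ok TP_l208 _))))
      (CovZ.subM 163190251395892382435838576067072 (by decide +kernel)
       (CovZ.n1 (-1280, 18560) (by decide +kernel)
        (CovZ.n2 (-960, 18880) (by decide +kernel)
         (CovZ.n2 (-960, 18560) (by decide +kernel)
          (CovZ.subM 237689457872139103486548901888 (by decide +kernel)
           (CovZ.n2 (-1120, 18720) (by decide +kernel)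
            (CovZ.n2 (-960, 18720) (by decide +kernel)
             (CovZ.leaf K2_ok TP_l209 _)
             (CovZ.leaf K2_ok TP_l210 _))
            (CovZ.n1 (-1120, 18560) (by decide +kernel)
             (CovZ.n2 (-1200, 18640) (by decide +kernel)
              (CovZ.leaf K2_ok TP_l211 _)
              (CovZ.leaf K2_ok TP_l212 _))
             (CovZ.leaf K2_ok TP_l213 _))))
          (CovZ.n1 (-800, 18720) (by decide +kernel)
           (CovZ.leaf K2_ok TP_l214 _)
           (CovZ.leaf K2_ok TP_l215 _)))
         (CovZ.subM 257496498500705187884934889984 (by decide +kernel)
          (CovZ.n1 (-1280, 18880) (by decide +kernel)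
           (CovZ.n2 (-1120, 19040) (by decide +kernel)
            (CovZ.n2 (-1120, 18880) (by decide +kernel)
             (CovZ.leaf K2_ok TP_l216 _)
             (CovZ.leaf K2_ok TP_l217 _))
            (CovZ.n1 (-1280, 19040) (by decide +kernel)
             (CovZ.leaf K2_ok TP_l218 _)
             (CovZ.leaf K2_ok TP_l219 _)))
           (CovZ.n1 (-1120, 18720) (by decide +kernel)
            (CovZ.n2 (-1280, 18720) (by decide +kernel)
             (CovZ.leaf K2_ok TP_l220 _)
             (CovZ.n1 (-1200, 18640) (by decide +kernel)
              (CovZ.leaf K2_ok TP_l221 _)
              (CovZ.leaf K2_ok TP_l222 _)))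
            (CovZ.n1 (-1120, 18880) (by decide +kernel)
             (CovZ.leaf K2_ok TP_l223 _)
             (CovZ.leaf K2_ok TP_l224 _))))))
        TP_u62)))

theorem TP_u65 : CovZ TP_M (toL (selN TP_LN 169934505117683252470565956485640)) [0, 7, 2, 5] (-2560, 20480) (-2560, 19200) (-1280, 19200) :=
    (CovZ.n2 (-1920, 19840) (by decide +kernel)
       (CovZ.n2 (-1920, 19200) (by decide +kernel)
        (CovZ.badM (by decide +kernel))
        (CovZ.n1 (-1600, 19520) (by decide +kernel)
         (CovZ.subM 29710605843377123511234462208 (by decide +kernel)
          (CovZ.n2 (-1600, 19200) (by decide +kernel)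
           (CovZ.subM 9903525036649525068838208000 (by decide +kernel)
            (CovZ.n2 (-1760, 19360) (by decide +kernel)
             (CovZ.n2 (-1600, 19360) (by decide +kernel)
              (CovZ.n2 (-1680, 19280) (by decide +kernel)
               (CovZ.n2 (-1680, 19360) (by decide +kernel)
                (CovZ.n2 (-1640, 19320) (by decide +kernel)
                 (CovZ.n2 (-1680, 19320) (by decide +kernel)
                  (CovZ.leaf K2_ok TP_l5985 _)
                  (CovZ.badM (by decide +kernel)))
                 (CovZ.n1 (-1640, 19360) (by decide +kernel)
                  (CovZ.leaf K2_ok TP_l5986 _)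
                  (CovZ.leaf K2_ok TP_l5987 _)))
                (CovZ.badM (by decide +kernel)))
               (CovZ.n1 (-1600, 19280) (by decide +kernel)
                (CovZ.n2 (-1640, 19240) (by decide +kernel)
                 (CovZ.n2 (-1640, 19280) (by decide +kernel)
                  (CovZ.leaf K2_ok TP_l5988 _)
                  (CovZ.badM (by decide +kernel)))
                 (CovZ.n1 (-1600, 19240) (by decide +kernel)
                  (CovZ.leaf K2_ok TP_l5989 _)
                  (CovZ.leaf K2_ok TP_l5990 _)))
                (CovZ.n1 (-1640, 19320) (by decide +kernel)
                 (CovZ.leaf K2_ok TP_l5991 _)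
                 (CovZ.n1 (-1640, 19280) (by decide +kernel)
                  (CovZ.badM (by decide +kernel))
                  (CovZ.leaf K2_ok TP_l5992 _)))))
              (CovZ.n1 (-1680, 19440) (by decide +kernel)
               (CovZ.n2 (-1600, 19440) (by decide +kernel)
                (CovZ.n2 (-1640, 19400) (by decide +kernel)
                 (CovZ.leaf K2_ok TP_l247 _)
                 (CovZ.leaf K2_ok TP_l248 _))
                (CovZ.n1 (-1640, 19480) (by decide +kernel)
                 (CovZ.leaf K2_ok TP_l249 _)
                 (CovZ.leaf K2_ok TP_l250 _)))
               (CovZ.n1 (-1680, 19360) (by decide +kernel)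
                (CovZ.badM (by decide +kernel))
                (CovZ.n1 (-1640, 19400) (by decide +kernel)
                 (CovZ.n2 (-1640, 19360) (by decide +kernel)
                  (CovZ.leaf K2_ok TP_l5993 _)
                  (CovZ.leaf K2_ok TP_l5994 _))
                 (CovZ.n1 (-1680, 19400) (by decide +kernel)
                  (CovZ.leaf K2_ok TP_l251 _)
                  (CovZ.leaf K2_ok TP_l5995 _))))))
             (CovZ.n1 (-1760, 19200) (by decide +kernel)
              (CovZ.badM (by decide +kernel))
              (CovZ.n1 (-1680, 19280) (by decide +kernel)
               (CovZ.n2 (-1680, 19200) (by decide +kernel)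
                (CovZ.badM (by decide +kernel))
                (CovZ.n1 (-1640, 19240) (by decide +kernel)
                 (CovZ.n2 (-1640, 19200) (by decide +kernel)
                  (CovZ.badM (by decide +kernel))
                  (CovZ.leaf K2_ok TP_l5996 _))
                 (CovZ.badM (by decide +kernel))))
               (CovZ.badM (by decide +kernel))))))
           (CovZ.n1 (-1440, 19360) (by decide +kernel)
            (CovZ.n2 (-1440, 19200) (by decide +kernel)
             (CovZ.n2 (-1520, 19280) (by decide +kernel)
              (CovZ.leaf K2_ok TP_l252 _)
              (CovZ.n1 (-1520, 19200) (by decide +kernel)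
               (CovZ.n2 (-1560, 19240) (by decide +kernel)
                (CovZ.leaf K2_ok TP_l5997 _)
                (CovZ.leaf K2_ok TP_l5998 _))
               (CovZ.leaf K2_ok TP_l253 _)))
             (CovZ.leaf K2_ok TP_l254 _))
            (CovZ.n1 (-1600, 19360) (by decide +kernel)
             (CovZ.n2 (-1520, 19440) (by decide +kernel)
              (CovZ.n2 (-1520, 19360) (by decide +kernel)
               (CovZ.leaf K2_ok TP_l255 _)
               (CovZ.leaf K2_ok TP_l256 _))
              (CovZ.n1 (-1600, 19440) (by decide +kernel)
               (CovZ.leaf K2_ok TP_l257 _)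
               (CovZ.leaf K2_ok TP_l258 _)))
             (CovZ.n1 (-1520, 19280) (by decide +kernel)
              (CovZ.n2 (-1600, 19280) (by decide +kernel)
               (CovZ.leaf K2_ok TP_l5999 _)
               (CovZ.n1 (-1560, 19240) (by decide +kernel)
                (CovZ.leaf K2_ok TP_l6000 _)
                (CovZ.leaf K2_ok TP_l6001 _)))
              (CovZ.n1 (-1520, 19360) (by decide +kernel)
               (CovZ.leaf K2_ok TP_l259 _)
               (CovZ.leaf K2_ok TP_l6002 _)))))))
         (CovZ.subM 2545204725493109453962151461376 (by decide +kernel)
          (CovZ.n1 (-1920, 19520) (by decide +kernel)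
           (CovZ.n2 (-1760, 19680) (by decide +kernel)
            (CovZ.n2 (-1760, 19520) (by decide +kernel)
             (CovZ.badM (by decide +kernel))
             (CovZ.n1 (-1680, 19600) (by decide +kernel)
              (CovZ.n2 (-1680, 19520) (by decide +kernel)
               (CovZ.n2 (-1720, 19560) (by decide +kernel)
                (CovZ.n2 (-1680, 19560) (by decide +kernel)
                 (CovZ.leaf K2_ok TP_l6003 _)
                 (CovZ.leaf K2_ok TP_l6004 _))
                (CovZ.n1 (-1720, 19520) (by decide +kernel)
                 (CovZ.leaf K2_ok TP_l6005 _)
                 (CovZ.leaf K2_ok TP_l6006 _)))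
               (CovZ.leaf K2_ok TP_l260 _))
              (CovZ.n1 (-1760, 19600) (by decide +kernel)
               (CovZ.n2 (-1720, 19640) (by decide +kernel)
                (CovZ.n2 (-1720, 19600) (by decide +kernel)
                 (CovZ.leaf K2_ok TP_l6007 _)
                 (CovZ.leaf K2_ok TP_l6008 _))
                (CovZ.n1 (-1760, 19640) (by decide +kernel)
                 (CovZ.leaf K2_ok TP_l6009 _)
                 (CovZ.leaf K2_ok TP_l6010 _)))
               (CovZ.n1 (-1720, 19560) (by decide +kernel)
                (CovZ.n2 (-1760, 19560) (by decide +kernel)
                 (CovZ.leaf K2_ok TP_l6011 _)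
                 (CovZ.n1 (-1740, 19540) (by decide +kernel)
                  (CovZ.leaf K2_ok TP_l6012 _)
                  (CovZ.leaf K2_ok TP_l6013 _)))
                (CovZ.n1 (-1720, 19600) (by decide +kernel)
                 (CovZ.leaf K2_ok TP_l6014 _)
                 (CovZ.leaf K2_ok TP_l6015 _))))))
            (CovZ.n1 (-1920, 19680) (by decide +kernel)
             (CovZ.n2 (-1840, 19760) (by decide +kernel)
              (CovZ.n2 (-1840, 19680) (by decide +kernel)
               (CovZ.badM (by decide +kernel))
               (CovZ.n1 (-1800, 19720) (by decide +kernel)
                (CovZ.n2 (-1800, 19680) (by decide +kernel)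
                 (CovZ.badM (by decide +kernel))
                 (CovZ.leaf K2_ok TP_l6016 _))
                (CovZ.badM (by decide +kernel))))
              (CovZ.badM (by decide +kernel)))
             (CovZ.badM (by decide +kernel))))
           (CovZ.n1 (-1760, 19360) (by decide +kernel)
            (CovZ.badM (by decide +kernel))
            (CovZ.n1 (-1760, 19520) (by decide +kernel)
             (CovZ.n2 (-1680, 19440) (by decide +kernel)
              (CovZ.n2 (-1760, 19440) (by decide +kernel)
               (CovZ.n2 (-1720, 19480) (by decide +kernel)
                (CovZ.n2 (-1720, 19440) (by decide +kernel)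
                 (CovZ.badM (by decide +kernel))
                 (CovZ.leaf K2_ok TP_l6017 _))
                (CovZ.badM (by decide +kernel)))
               (CovZ.badM (by decide +kernel)))
              (CovZ.n1 (-1680, 19520) (by decide +kernel)
               (CovZ.n2 (-1640, 19480) (by decide +kernel)
                (CovZ.leaf K2_ok TP_l261 _)
                (CovZ.leaf K2_ok TP_l262 _))
               (CovZ.n1 (-1720, 19480) (by decide +kernel)
                (CovZ.n2 (-1720, 19520) (by decide +kernel)
                 (CovZ.leaf K2_ok TP_l6018 _)
                 (CovZ.badM (by decide +kernel)))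
                (CovZ.n1 (-1680, 19480) (by decide +kernel)
                 (CovZ.leaf K2_ok TP_l6019 _)
                 (CovZ.leaf K2_ok TP_l6020 _)))))
             (CovZ.badM (by decide +kernel))))))))
       (CovZ.badM (by decide +kernel)))

theorem TP_u66 : CovZ TP_M (toL (selN TP_LN 169934505117683252470565956485640)) [0, 7, 2, 5] (-2560, 19200) (-2560, 17920) (-1280, 19200) :=
    (CovZ.subM 162318697991277223158817178518016 (by decide +kernel)
       (CovZ.n1 (-1920, 18560) (by decide +kernel)
        (CovZ.badM (by decide +kernel))
        (CovZ.n1 (-1920, 19200) (by decide +kernel)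
         (CovZ.n2 (-1600, 18880) (by decide +kernel)
          (CovZ.n2 (-1920, 18880) (by decide +kernel)
           (CovZ.n2 (-1760, 19040) (by decide +kernel)
            (CovZ.badM (by decide +kernel))
            (CovZ.badM (by decide +kernel)))
           (CovZ.badM (by decide +kernel)))
          (CovZ.n1 (-1600, 19200) (by decide +kernel)
           (CovZ.n2 (-1440, 19040) (by decide +kernel)
            (CovZ.n2 (-1600, 19040) (by decide +kernel)
             (CovZ.n2 (-1520, 19120) (by decide +kernel)
              (CovZ.n2 (-1520, 19040) (by decide +kernel)
               (CovZ.n2 (-1560, 19080) (by decide +kernel)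
                (CovZ.leaf K2_ok TP_l6021 _)
                (CovZ.n1 (-1560, 19040) (by decide +kernel)
                 (CovZ.badM (by decide +kernel))
                 (CovZ.leaf K2_ok TP_l6022 _)))
               (CovZ.leaf K2_ok TP_l263 _))
              (CovZ.subM 19807040628566084398385988096 (by decide +kernel)
               (CovZ.n1 (-1600, 19120) (by decide +kernel)
                (CovZ.n2 (-1560, 19160) (by decide +kernel)
                 (CovZ.n2 (-1560, 19120) (by decide +kernel)
                  (CovZ.leaf K2_ok TP_l6023 _)
                  (CovZ.leaf K2_ok TP_l6024 _))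
                 (CovZ.n1 (-1600, 19160) (by decide +kernel)
                  (CovZ.leaf K2_ok TP_l6025 _)
                  (CovZ.leaf K2_ok TP_l6026 _)))
                (CovZ.n1 (-1560, 19080) (by decide +kernel)
                 (CovZ.n2 (-1600, 19080) (by decide +kernel)
                  (CovZ.n2 (-1580, 19100) (by decide +kernel)
                   (CovZ.leaf K2_ok TP_l6027 _)
                   (CovZ.leaf K2_ok TP_l6028 _))
                  (CovZ.badM (by decide +kernel)))
                 (CovZ.n1 (-1560, 19120) (by decide +kernel)
                  (CovZ.leaf K2_ok TP_l6029 _)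
                  (CovZ.n1 (-1580, 19100) (by decide +kernel)
                   (CovZ.leaf K2_ok TP_l6030 _)
                   (CovZ.leaf K2_ok TP_l6031 _)))))))
             (CovZ.n1 (-1520, 18960) (by decide +kernel)
              (CovZ.subM 19807040628566084398385987584 (by decide +kernel)
               (CovZ.n2 (-1600, 18960) (by decide +kernel)
                (CovZ.n2 (-1560, 19000) (by decide +kernel)
                 (CovZ.n2 (-1560, 18960) (by decide +kernel)
                  (CovZ.badM (by decide +kernel))
                  (CovZ.leaf K2_ok TP_l6032 _))
                 (CovZ.badM (by decide +kernel)))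
                (CovZ.badM (by decide +kernel))))
              (CovZ.n1 (-1520, 19040) (by decide +kernel)
               (CovZ.n2 (-1480, 19000) (by decide +kernel)
                (CovZ.n2 (-1520, 19000) (by decide +kernel)
                 (CovZ.leaf K2_ok TP_l264 _)
                 (CovZ.leaf K2_ok TP_l265 _))
                (CovZ.leaf K2_ok TP_l266 _))
               (CovZ.subM 19807040628566084398385987584 (by decide +kernel)
                (CovZ.n1 (-1560, 19000) (by decide +kernel)
                 (CovZ.n2 (-1560, 19040) (by decide +kernel)
                  (CovZ.leaf K2_ok TP_l6033 _)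
                  (CovZ.badM (by decide +kernel)))
                 (CovZ.n1 (-1520, 19000) (by decide +kernel)
                  (CovZ.leaf K2_ok TP_l6034 _)
                  (CovZ.leaf K2_ok TP_l6035 _)))))))
            (CovZ.n1 (-1440, 19200) (by decide +kernel)
             (CovZ.n2 (-1360, 19120) (by decide +kernel)
              (CovZ.leaf K2_ok TP_l267 _)
              (CovZ.leaf K2_ok TP_l268 _))
             (CovZ.n1 (-1520, 19120) (by decide +kernel)
              (CovZ.n2 (-1520, 19200) (by decide +kernel)
               (CovZ.leaf K2_ok TP_l269 _)
               (CovZ.n1 (-1560, 19160) (by decide +kernel)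
                (CovZ.n2 (-1560, 19200) (by decide +kernel)
                 (CovZ.leaf K2_ok TP_l6036 _)
                 (CovZ.leaf K2_ok TP_l6037 _))
                (CovZ.leaf K2_ok TP_l6038 _)))
              (CovZ.n1 (-1440, 19120) (by decide +kernel)
               (CovZ.leaf K2_ok TP_l270 _)
               (CovZ.leaf K2_ok TP_l271 _)))))
           (CovZ.subM 512 (by decide +kernel)
            (CovZ.n1 (-1760, 19040) (by decide +kernel)
             (CovZ.n2 (-1760, 19200) (by decide +kernel)
              (CovZ.n2 (-1680, 19120) (by decide +kernel)
               (CovZ.badM (by decide +kernel))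
               (CovZ.n1 (-1680, 19200) (by decide +kernel)
                (CovZ.n2 (-1640, 19160) (by decide +kernel)
                 (CovZ.badM (by decide +kernel))
                 (CovZ.n1 (-1640, 19200) (by decide +kernel)
                  (CovZ.n2 (-1620, 19180) (by decide +kernel)
                   (CovZ.leaf K2_ok TP_l6039 _)
                   (CovZ.leaf K2_ok TP_l6040 _))
                  (CovZ.badM (by decide +kernel))))
                (CovZ.badM (by decide +kernel))))
              (CovZ.badM (by decide +kernel)))
             (CovZ.n1 (-1600, 19040) (by decide +kernel)
              (CovZ.badM (by decide +kernel))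
              (CovZ.n1 (-1680, 19120) (by decide +kernel)
               (CovZ.n2 (-1600, 19120) (by decide +kernel)
                (CovZ.n2 (-1640, 19080) (by decide +kernel)
                 (CovZ.n2 (-1640, 19120) (by decide +kernel)
                  (CovZ.n2 (-1620, 19100) (by decide +kernel)
                   (CovZ.n2 (-1640, 19100) (by decide +kernel)
                    (CovZ.leaf K2_ok TP_l6041 _)
                    (CovZ.n1 (-1630, 19090) (by decide +kernel)
                     (CovZ.n2 (-1640, 19090) (by decide +kernel)
                      (CovZ.leaf K2_ok TP_l6042 _)
                      (CovZ.leaf K2_ok TP_l6043 _))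
                     (CovZ.leaf K2_ok TP_l6044 _)))
                   (CovZ.n1 (-1620, 19120) (by decide +kernel)
                    (CovZ.leaf K2_ok TP_l6045 _)
                    (CovZ.n1 (-1630, 19110) (by decide +kernel)
                     (CovZ.leaf K2_ok TP_l6046 _)
                     (CovZ.leaf K2_ok TP_l6047 _))))
                  (CovZ.badM (by decide +kernel)))
                 (CovZ.n1 (-1600, 19080) (by decide +kernel)
                  (CovZ.badM (by decide +kernel))
                  (CovZ.n1 (-1620, 19100) (by decide +kernel)
                   (CovZ.n2 (-1600, 19100) (by decide +kernel)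
                    (CovZ.leaf K2_ok TP_l6048 _)
                    (CovZ.leaf K2_ok TP_l6049 _))
                   (CovZ.n1 (-1620, 19080) (by decide +kernel)
                    (CovZ.n2 (-1630, 19090) (by decide +kernel)
                     (CovZ.leaf K2_ok TP_l6050 _)
                     (CovZ.leaf K2_ok TP_l6051 _))
                    (CovZ.leaf K2_ok TP_l6052 _)))))
                (CovZ.n1 (-1640, 19160) (by decide +kernel)
                 (CovZ.n2 (-1600, 19160) (by decide +kernel)
                  (CovZ.n2 (-1620, 19140) (by decide +kernel)
                   (CovZ.leaf K2_ok TP_l6053 _)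
                   (CovZ.leaf K2_ok TP_l6054 _))
                  (CovZ.n1 (-1620, 19180) (by decide +kernel)
                   (CovZ.leaf K2_ok TP_l6055 _)
                   (CovZ.leaf K2_ok TP_l6056 _)))
                 (CovZ.n1 (-1640, 19120) (by decide +kernel)
                  (CovZ.badM (by decide +kernel))
                  (CovZ.n1 (-1620, 19140) (by decide +kernel)
                   (CovZ.n2 (-1620, 19120) (by decide +kernel)
                    (CovZ.leaf K2_ok TP_l6057 _)
                    (CovZ.leaf K2_ok TP_l6058 _))
                   (CovZ.n1 (-1640, 19140) (by decide +kernel)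
                    (CovZ.leaf K2_ok TP_l6059 _)
                    (CovZ.leaf K2_ok TP_l6060 _))))))
               (CovZ.n1 (-1680, 19040) (by decide +kernel)
                (CovZ.badM (by decide +kernel))
                (CovZ.n1 (-1640, 19080) (by decide +kernel)
                 (CovZ.badM (by decide +kernel))
                 (CovZ.badM (by decide +kernel))))))))))
         (CovZ.badM (by decide +kernel)))))

theorem TP_u67 : CovZ TP_M (toL (selN TP_LN 174990207359904311762294682022104774511112)) [0, 7, 2, 5] (-1280, 20480) (-2560, 20480) (-1280, 19200) :=
    (CovZ.subM 7635614207212756910191174222344 (by decide +kernel)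
      (CovZ.n1 (-1920, 19840) (by decide +kernel)
       (CovZ.n2 (-1920, 20480) (by decide +kernel)
        (CovZ.n2 (-1600, 20160) (by decide +kernel)
         (CovZ.n2 (-1920, 20160) (by decide +kernel)
          (CovZ.n2 (-1760, 20320) (by decide +kernel)
           (CovZ.n2 (-1760, 20160) (by decide +kernel)
            (CovZ.n2 (-1840, 20240) (by decide +kernel)
             (CovZ.leaf K2_ok TP_l285 _)
             (CovZ.n1 (-1840, 20160) (by decide +kernel)
              (CovZ.leaf K2_ok TP_l286 _)
              (CovZ.leaf K2_ok TP_l287 _)))
            (CovZ.leaf K2_ok TP_l288 _))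
           (CovZ.subM 5070602400912920983686533349384 (by decide +kernel)
            (CovZ.n1 (-1920, 20320) (by decide +kernel)
             (CovZ.n2 (-1840, 20400) (by decide +kernel)
              (CovZ.leaf K2_ok TP_l289 _)
              (CovZ.leaf K2_ok TP_l290 _))
             (CovZ.n1 (-1840, 20240) (by decide +kernel)
              (CovZ.n2 (-1920, 20240) (by decide +kernel)
               (CovZ.leaf K2_ok TP_l291 _)
               (CovZ.n1 (-1880, 20200) (by decide +kernel)
                (CovZ.leaf K2_ok TP_l292 _)
                (CovZ.leaf K2_ok TP_l293 _)))
              (CovZ.n1 (-1840, 20320) (by decide +kernel)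
               (CovZ.leaf K2_ok TP_l294 _)
               (CovZ.leaf K2_ok TP_l295 _))))))
          (CovZ.n1 (-1760, 20000) (by decide +kernel)
           (CovZ.subM 5070602400912920983686533349384 (by decide +kernel)
            (CovZ.n2 (-1920, 20000) (by decide +kernel)
             (CovZ.n2 (-1840, 20080) (by decide +kernel)
              (CovZ.n2 (-1840, 20000) (by decide +kernel)
               (CovZ.n2 (-1880, 20040) (by decide +kernel)
                (CovZ.leaf K2_ok TP_l296 _)
                (CovZ.n1 (-1880, 20000) (by decide +kernel)
                 (CovZ.leaf K2_ok TP_l297 _)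
                 (CovZ.leaf K2_ok TP_l298 _)))
               (CovZ.leaf K2_ok TP_l299 _))
              (CovZ.n1 (-1920, 20080) (by decide +kernel)
               (CovZ.n2 (-1880, 20120) (by decide +kernel)
                (CovZ.leaf K2_ok TP_l300 _)
                (CovZ.leaf K2_ok TP_l301 _))
               (CovZ.n1 (-1880, 20040) (by decide +kernel)
                (CovZ.n2 (-1920, 20040) (by decide +kernel)
                 (CovZ.leaf K2_ok TP_l302 _)
                 (CovZ.leaf K2_ok TP_l303 _))
                (CovZ.n1 (-1880, 20080) (by decide +kernel)
                 (CovZ.leaf K2_ok TP_l304 _)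
                 (CovZ.leaf K2_ok TP_l305 _)))))
             (CovZ.n1 (-1840, 19920) (by decide +kernel)
              (CovZ.n2 (-1920, 19920) (by decide +kernel)
               (CovZ.n2 (-1880, 19960) (by decide +kernel)
                (CovZ.n2 (-1880, 19920) (by decide +kernel)
                 (CovZ.badM (by decide +kernel))
                 (CovZ.leaf K2_ok TP_l6061 _))
                (CovZ.n1 (-1920, 19960) (by decide +kernel)
                 (CovZ.leaf K2_ok TP_l306 _)
                 (CovZ.badM (by decide +kernel))))
               (CovZ.n1 (-1880, 19880) (by decide +kernel)
                (CovZ.badM (by decide +kernel))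
                (CovZ.n1 (-1880, 19920) (by decide +kernel)
                 (CovZ.n2 (-1860, 19900) (by decide +kernel)
                  (CovZ.leaf K2_ok TP_l6062 _)
                  (CovZ.leaf K2_ok TP_l6063 _))
                 (CovZ.badM (by decide +kernel)))))
              (CovZ.n1 (-1840, 20000) (by decide +kernel)
               (CovZ.n2 (-1800, 19960) (by decide +kernel)
                (CovZ.leaf K2_ok TP_l307 _)
                (CovZ.leaf K2_ok TP_l308 _))
               (CovZ.n1 (-1880, 19960) (by decide +kernel)
                (CovZ.n2 (-1880, 20000) (by decide +kernel)
                 (CovZ.leaf K2_ok TP_l309 _)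
                 (CovZ.leaf K2_ok TP_l310 _))
                (CovZ.n1 (-1840, 19960) (by decide +kernel)
                 (CovZ.leaf K2_ok TP_l6064 _)
                 (CovZ.leaf K2_ok TP_l311 _)))))))
           (CovZ.n1 (-1760, 20160) (by decide +kernel)
            (CovZ.n2 (-1680, 20080) (by decide +kernel)
             (CovZ.leaf K2_ok TP_l312 _)
             (CovZ.leaf K2_ok TP_l313 _))
            (CovZ.subM 5070602400912920983686533349384 (by decide +kernel)
             (CovZ.n1 (-1840, 20080) (by decide +kernel)
              (CovZ.n2 (-1840, 20160) (by decide +kernel)
               (CovZ.leaf K2_ok TP_l314 _)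
               (CovZ.n1 (-1880, 20120) (by decide +kernel)
                (CovZ.leaf K2_ok TP_l315 _)
                (CovZ.leaf K2_ok TP_l316 _)))
              (CovZ.n1 (-1760, 20080) (by decide +kernel)
               (CovZ.leaf K2_ok TP_l317 _)
               (CovZ.leaf K2_ok TP_l318 _)))))))
         (CovZ.n1 (-1600, 20480) (by decide +kernel)
          (CovZ.n2 (-1440, 20320) (by decide +kernel)
           (CovZ.leaf K2_ok TP_l319 _)
           (CovZ.leaf K2_ok TP_l320 _))
          (CovZ.n1 (-1760, 20320) (by decide +kernel)
           (CovZ.n2 (-1760, 20480) (by decide +kernel)
            (CovZ.leaf K2_ok TP_l321 _)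
            (CovZ.n1 (-1840, 20400) (by decide +kernel)
             (CovZ.leaf K2_ok TP_l322 _)
             (CovZ.leaf K2_ok TP_l323 _)))
           (CovZ.n1 (-1600, 20320) (by decide +kernel)
            (CovZ.leaf K2_ok TP_l324 _)
            (CovZ.leaf K2_ok TP_l325 _)))))
        (CovZ.badM (by decide +kernel)))
       (CovZ.n1 (-1280, 19840) (by decide +kernel)
        (CovZ.n2 (-1600, 19520) (by decide +kernel)
         (CovZ.n2 (-1600, 19840) (by decide +kernel)
          (CovZ.n2 (-1440, 19680) (by decide +kernel)
           (CovZ.n2 (-1600, 19680) (by decide +kernel)
            (CovZ.leaf K2_ok TP_l326 _)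
            (CovZ.n1 (-1520, 19600) (by decide +kernel)
             (CovZ.leaf K2_ok TP_l327 _)
             (CovZ.leaf K2_ok TP_l328 _)))
           (CovZ.n1 (-1440, 19840) (by decide +kernel)
            (CovZ.leaf K2_ok TP_l329 _)
            (CovZ.leaf K2_ok TP_l330 _)))
          (CovZ.subM 2545204725493109453962151461376 (by decide +kernel)
           (CovZ.n1 (-1760, 19680) (by decide +kernel)
            (CovZ.n2 (-1760, 19840) (by decide +kernel)
             (CovZ.n2 (-1680, 19760) (by decide +kernel)
              (CovZ.n2 (-1760, 19760) (by decide +kernel)
               (CovZ.leaf K2_ok TP_l6065 _)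
               (CovZ.n1 (-1720, 19720) (by decide +kernel)
                (CovZ.leaf K2_ok TP_l6066 _)
                (CovZ.leaf K2_ok TP_l6067 _)))
              (CovZ.n1 (-1680, 19840) (by decide +kernel)
               (CovZ.leaf K2_ok TP_l331 _)
               (CovZ.leaf K2_ok TP_l6068 _)))
             (CovZ.n1 (-1840, 19760) (by decide +kernel)
              (CovZ.n2 (-1840, 19840) (by decide +kernel)
               (CovZ.n2 (-1800, 19800) (by decide +kernel)
                (CovZ.badM (by decide +kernel))
                (CovZ.n1 (-1800, 19840) (by decide +kernel)
                 (CovZ.leaf K2_ok TP_l6069 _)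
                 (CovZ.badM (by decide +kernel))))
               (CovZ.badM (by decide +kernel)))
              (CovZ.n1 (-1760, 19760) (by decide +kernel)
               (CovZ.n2 (-1800, 19720) (by decide +kernel)
                (CovZ.n2 (-1800, 19760) (by decide +kernel)
                 (CovZ.leaf K2_ok TP_l6070 _)
                 (CovZ.badM (by decide +kernel)))
                (CovZ.n1 (-1760, 19720) (by decide +kernel)
                 (CovZ.leaf K2_ok TP_l6071 _)
                 (CovZ.leaf K2_ok TP_l6072 _)))
               (CovZ.n1 (-1800, 19800) (by decide +kernel)
                (CovZ.leaf K2_ok TP_l6073 _)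
                (CovZ.n1 (-1800, 19760) (by decide +kernel)
                 (CovZ.badM (by decide +kernel))
                 (CovZ.leaf K2_ok TP_l6074 _))))))
            (CovZ.n1 (-1600, 19680) (by decide +kernel)
             (CovZ.n2 (-1680, 19600) (by decide +kernel)
              (CovZ.n2 (-1680, 19680) (by decide +kernel)
               (CovZ.leaf K2_ok TP_l332 _)
               (CovZ.n1 (-1720, 19640) (by decide +kernel)
                (CovZ.leaf K2_ok TP_l6075 _)
                (CovZ.leaf K2_ok TP_l6076 _)))
              (CovZ.n1 (-1600, 19600) (by decide +kernel)
               (CovZ.leaf K2_ok TP_l333 _)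
               (CovZ.leaf K2_ok TP_l334 _)))
             (CovZ.n1 (-1680, 19760) (by decide +kernel)
              (CovZ.leaf K2_ok TP_l335 _)
              (CovZ.n1 (-1680, 19680) (by decide +kernel)
               (CovZ.n2 (-1720, 19720) (by decide +kernel)
                (CovZ.leaf K2_ok TP_l6077 _)
                (CovZ.leaf K2_ok TP_l6078 _))
               (CovZ.leaf K2_ok TP_l336 _)))))))
         (CovZ.n1 (-1280, 19520) (by decide +kernel)
          (CovZ.n2 (-1440, 19360) (by decide +kernel)
           (CovZ.n2 (-1440, 19520) (by decide +kernel)
            (CovZ.leaf K2_ok TP_l337 _)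
            (CovZ.n1 (-1520, 19440) (by decide +kernel)
             (CovZ.leaf K2_ok TP_l338 _)
             (CovZ.leaf K2_ok TP_l339 _)))
           (CovZ.n1 (-1280, 19360) (by decide +kernel)
            (CovZ.leaf K2_ok TP_l340 _)
            (CovZ.leaf K2_ok TP_l341 _)))
          (CovZ.n1 (-1440, 19680) (by decide +kernel)
           (CovZ.n2 (-1280, 19680) (by decide +kernel)
            (CovZ.leaf K2_ok TP_l342 _)
            (CovZ.leaf K2_ok TP_l343 _))
           (CovZ.n1 (-1440, 19520) (by decide +kernel)
            (CovZ.n2 (-1520, 19600) (by decide +kernel)
             (CovZ.leaf K2_ok TP_l344 _)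
             (CovZ.leaf K2_ok TP_l345 _))
            (CovZ.leaf K2_ok TP_l346 _)))))
        (CovZ.n1 (-1600, 20160) (by decide +kernel)
         (CovZ.n2 (-1280, 20160) (by decide +kernel)
          (CovZ.n2 (-1440, 20000) (by decide +kernel)
           (CovZ.leaf K2_ok TP_l347 _)
           (CovZ.leaf K2_ok TP_l348 _))
          (CovZ.n1 (-1440, 20320) (by decide +kernel)
           (CovZ.leaf K2_ok TP_l349 _)
           (CovZ.leaf K2_ok TP_l350 _)))
         (CovZ.n1 (-1600, 19840) (by decide +kernel)
          (CovZ.n2 (-1760, 20000) (by decide +kernel)
           (CovZ.n2 (-1600, 20000) (by decide +kernel)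
            (CovZ.n2 (-1680, 19920) (by decide +kernel)
             (CovZ.leaf K2_ok TP_l351 _)
             (CovZ.leaf K2_ok TP_l352 _))
            (CovZ.n1 (-1680, 20080) (by decide +kernel)
             (CovZ.leaf K2_ok TP_l353 _)
             (CovZ.leaf K2_ok TP_l354 _)))
           (CovZ.subM 2545204725493111705761965146632 (by decide +kernel)
            (CovZ.n1 (-1760, 19840) (by decide +kernel)
             (CovZ.subM 3377699720527880 (by decide +kernel)
              (CovZ.n2 (-1840, 19920) (by decide +kernel)
               (CovZ.n2 (-1760, 19920) (by decide +kernel)
                (CovZ.n2 (-1800, 19880) (by decide +kernel)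
                 (CovZ.leaf K2_ok TP_l6079 _)
                 (CovZ.leaf K2_ok TP_l6080 _))
                (CovZ.leaf K2_ok TP_l355 _))
               (CovZ.n1 (-1840, 19840) (by decide +kernel)
                (CovZ.n2 (-1880, 19880) (by decide +kernel)
                 (CovZ.n2 (-1840, 19880) (by decide +kernel)
                  (CovZ.n2 (-1860, 19860) (by decide +kernel)
                   (CovZ.leaf K2_ok TP_l6081 _)
                   (CovZ.leaf K2_ok TP_l6082 _))
                  (CovZ.leaf K2_ok TP_l6083 _))
                 (CovZ.n1 (-1880, 19840) (by decide +kernel)
                  (CovZ.badM (by decide +kernel))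
                  (CovZ.n1 (-1860, 19860) (by decide +kernel)
                   (CovZ.leaf K2_ok TP_l6084 _)
                   (CovZ.leaf K2_ok TP_l6085 _))))
                (CovZ.n1 (-1800, 19880) (by decide +kernel)
                 (CovZ.leaf K2_ok TP_l6086 _)
                 (CovZ.leaf K2_ok TP_l6087 _)))))
             (CovZ.n1 (-1680, 19920) (by decide +kernel)
              (CovZ.n2 (-1680, 19840) (by decide +kernel)
               (CovZ.leaf K2_ok TP_l6088 _)
               (CovZ.leaf K2_ok TP_l356 _))
              (CovZ.n1 (-1760, 19920) (by decide +kernel)
               (CovZ.leaf K2_ok TP_l357 _)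
               (CovZ.leaf K2_ok TP_l6089 _))))))
          (CovZ.n1 (-1440, 20000) (by decide +kernel)
           (CovZ.n2 (-1440, 19840) (by decide +kernel)
            (CovZ.leaf K2_ok TP_l358 _)
            (CovZ.leaf K2_ok TP_l359 _))
           (CovZ.n1 (-1600, 20000) (by decide +kernel)
            (CovZ.leaf K2_ok TP_l360 _)
            (CovZ.leaf K2_ok TP_l361 _))))))))

theorem TP_u68 : CovZ TP_M (toL (selN TP_LN 174990207400469130969598022869999277083144)) [0, 7, 2, 5] (0, 17920) (1280, 17920) (1280, 19200) :=
    (CovZ.n2 (640, 18560) (by decide +kernel)
      (CovZ.n2 (1280, 18560) (by decide +kernel)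
       (CovZ.subM 163170521988569565077321191557120 (by decide +kernel)
        (CovZ.n2 (960, 18240) (by decide +kernel)
         (CovZ.n2 (960, 18560) (by decide +kernel)
          (CovZ.n2 (1120, 18400) (by decide +kernel)
           (CovZ.leaf K2_ok TP_l2069 _)
           (CovZ.n1 (1120, 18560) (by decide +kernel)
            (CovZ.leaf K2_ok TP_l2070 _)
            (CovZ.leaf K2_ok TP_l2071 _)))
          (CovZ.leaf K2_ok TP_l2072 _))
         (CovZ.n1 (1280, 18240) (by decide +kernel)
          (CovZ.subM 871592090241139247175482771456 (by decide +kernel)
           (CovZ.n2 (1120, 18080) (by decide +kernel)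
            (CovZ.n2 (1120, 18240) (by decide +kernel)
             (CovZ.n2 (1200, 18160) (by decide +kernel)
              (CovZ.leaf K2_ok TP_l2073 _)
              (CovZ.leaf K2_ok TP_l2074 _))
             (CovZ.leaf K2_ok TP_l2075 _))
            (CovZ.subM 4931331776197379317825536 (by decide +kernel)
             (CovZ.n1 (1280, 18080) (by decide +kernel)
              (CovZ.n2 (1200, 18000) (by decide +kernel)
               (CovZ.n2 (1200, 18080) (by decide +kernel)
                (CovZ.n2 (1240, 18040) (by decide +kernel)
                 (CovZ.leaf K2_ok TP_l2076 _)
                 (CovZ.leaf K2_ok TP_l2077 _))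
                (CovZ.leaf K2_ok TP_l2078 _))
               (CovZ.n1 (1280, 18000) (by decide +kernel)
                (CovZ.n2 (1240, 17960) (by decide +kernel)
                 (CovZ.n2 (1240, 18000) (by decide +kernel)
                  (CovZ.badM (by decide +kernel))
                  (CovZ.leaf K2_ok TP_l2079 _))
                 (CovZ.badM (by decide +kernel)))
                (CovZ.n1 (1240, 18040) (by decide +kernel)
                 (CovZ.n2 (1280, 18040) (by decide +kernel)
                  (CovZ.leaf K2_ok TP_l7364 _)
                  (CovZ.leaf K2_ok TP_l7365 _))
                 (CovZ.n1 (1240, 18000) (by decide +kernel)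
                  (CovZ.leaf K2_ok TP_l2080 _)
                  (CovZ.leaf K2_ok TP_l7366 _)))))
              (CovZ.n1 (1200, 18160) (by decide +kernel)
               (CovZ.n2 (1280, 18160) (by decide +kernel)
                (CovZ.leaf K2_ok TP_l2081 _)
                (CovZ.leaf K2_ok TP_l2082 _))
               (CovZ.n1 (1200, 18080) (by decide +kernel)
                (CovZ.leaf K2_ok TP_l2083 _)
                (CovZ.leaf K2_ok TP_l2084 _)))))))
          (CovZ.n1 (1120, 18400) (by decide +kernel)
           (CovZ.n2 (1280, 18400) (by decide +kernel)
            (CovZ.n2 (1200, 18320) (by decide +kernel)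
             (CovZ.leaf K2_ok TP_l2085 _)
             (CovZ.leaf K2_ok TP_l2086 _))
            (CovZ.leaf K2_ok TP_l2087 _))
           (CovZ.n1 (1120, 18240) (by decide +kernel)
            (CovZ.leaf K2_ok TP_l2088 _)
            (CovZ.n1 (1200, 18320) (by decide +kernel)
             (CovZ.leaf K2_ok TP_l2089 _)
             (CovZ.leaf K2_ok TP_l2090 _)))))))
       (CovZ.subM 680564734733315084651954709534930668032 (by decide +kernel)
        (CovZ.n1 (960, 18880) (by decide +kernel)
         (CovZ.n2 (1280, 18880) (by decide +kernel)
          (CovZ.n2 (1120, 18720) (by decide +kernel)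
           (CovZ.leaf K2_ok TP_l2091 _)
           (CovZ.leaf K2_ok TP_l2092 _))
          (CovZ.leaf K2_ok TP_l2093 _))
         (CovZ.n1 (960, 18560) (by decide +kernel)
          (CovZ.leaf K2_ok TP_l2094 _)
          (CovZ.n1 (1120, 18720) (by decide +kernel)
           (CovZ.leaf K2_ok TP_l2095 _)
           (CovZ.leaf K2_ok TP_l2096 _))))))
      (CovZ.n1 (640, 17920) (by decide +kernel)
       (CovZ.leaf K2_ok TP_l2097 _)
       (CovZ.subM 163170521988569565077321191557120 (by decide +kernel)
        (CovZ.n1 (960, 18240) (by decide +kernel)
         (CovZ.n2 (960, 17920) (by decide +kernel)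
          (CovZ.leaf K2_ok TP_l2098 _)
          (CovZ.subM 871592090241139247175482771456 (by decide +kernel)
           (CovZ.n1 (1120, 18080) (by decide +kernel)
            (CovZ.n2 (1120, 17920) (by decide +kernel)
             (CovZ.leaf K2_ok TP_l2099 _)
             (CovZ.subM 4930151184576661906522112 (by decide +kernel)
              (CovZ.n1 (1200, 18000) (by decide +kernel)
               (CovZ.n2 (1200, 17920) (by decide +kernel)
                (CovZ.leaf K2_ok TP_l2100 _)
                (CovZ.n1 (1240, 17960) (by decide +kernel)
                 (CovZ.n2 (1240, 17920) (by decide +kernel)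
                  (CovZ.leaf K2_ok TP_l2101 _)
                  (CovZ.badM (by decide +kernel)))
                 (CovZ.leaf K2_ok TP_l2102 _)))
               (CovZ.n1 (1120, 18000) (by decide +kernel)
                (CovZ.leaf K2_ok TP_l2103 _)
                (CovZ.leaf K2_ok TP_l2104 _)))))
            (CovZ.n1 (960, 18080) (by decide +kernel)
             (CovZ.leaf K2_ok TP_l2105 _)
             (CovZ.leaf K2_ok TP_l2106 _)))))
         (CovZ.n1 (640, 18240) (by decide +kernel)
          (CovZ.leaf K2_ok TP_l2107 _)
          (CovZ.leaf K2_ok TP_l2108 _))))))

theorem TP_u69 : CovZ TP_M (toL (selN TP_LN 174990207400469130969598022869999277083144)) [0, 7, 2, 5] (1280, 17920) (2560, 17920) (1280, 19200) :=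
    (CovZ.subM 680564896160574919384563994398126244352 (by decide +kernel)
      (CovZ.n1 (1920, 18560) (by decide +kernel)
       (CovZ.subM 162298890911651087181092193566720 (by decide +kernel)
        (CovZ.n2 (1920, 17920) (by decide +kernel)
         (CovZ.n2 (1600, 18240) (by decide +kernel)
          (CovZ.badM (by decide +kernel))
          (CovZ.n1 (1600, 17920) (by decide +kernel)
           (CovZ.n2 (1440, 18080) (by decide +kernel)
            (CovZ.badM (by decide +kernel))
            (CovZ.badM (by decide +kernel)))
           (CovZ.badM (by decide +kernel))))
         (CovZ.badM (by decide +kernel))))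
       (CovZ.n1 (1280, 18560) (by decide +kernel)
        (CovZ.n2 (1600, 18880) (by decide +kernel)
         (CovZ.subM 680564733841876967104910728907546689536 (by decide +kernel)
          (CovZ.n2 (1600, 18560) (by decide +kernel)
           (CovZ.n2 (1440, 18720) (by decide +kernel)
            (CovZ.n2 (1600, 18720) (by decide +kernel)
             (CovZ.n2 (1520, 18640) (by decide +kernel)
              (CovZ.n2 (1520, 18720) (by decide +kernel)
               (CovZ.badM (by decide +kernel))
               (CovZ.n1 (1480, 18680) (by decide +kernel)
                (CovZ.n2 (1480, 18720) (by decide +kernel)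
                 (CovZ.badM (by decide +kernel))
                 (CovZ.leaf K2_ok TP_l7367 _))
                (CovZ.badM (by decide +kernel))))
              (CovZ.badM (by decide +kernel)))
             (CovZ.n1 (1520, 18800) (by decide +kernel)
              (CovZ.badM (by decide +kernel))
              (CovZ.n1 (1520, 18720) (by decide +kernel)
               (CovZ.n2 (1480, 18760) (by decide +kernel)
                (CovZ.badM (by decide +kernel))
                (CovZ.n1 (1480, 18720) (by decide +kernel)
                 (CovZ.leaf K2_ok TP_l7368 _)
                 (CovZ.badM (by decide +kernel))))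
               (CovZ.badM (by decide +kernel)))))
            (CovZ.n1 (1440, 18560) (by decide +kernel)
             (CovZ.n2 (1360, 18640) (by decide +kernel)
              (CovZ.n2 (1440, 18640) (by decide +kernel)
               (CovZ.n2 (1400, 18600) (by decide +kernel)
                (CovZ.leaf K2_ok TP_l2109 _)
                (CovZ.leaf K2_ok TP_l2110 _))
               (CovZ.leaf K2_ok TP_l2111 _))
              (CovZ.n1 (1360, 18560) (by decide +kernel)
               (CovZ.leaf K2_ok TP_l2112 _)
               (CovZ.n1 (1400, 18600) (by decide +kernel)
                (CovZ.leaf K2_ok TP_l2113 _)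
                (CovZ.leaf K2_ok TP_l2114 _))))
             (CovZ.n1 (1520, 18640) (by decide +kernel)
              (CovZ.n2 (1520, 18560) (by decide +kernel)
               (CovZ.n2 (1480, 18600) (by decide +kernel)
                (CovZ.badM (by decide +kernel))
                (CovZ.badM (by decide +kernel)))
               (CovZ.badM (by decide +kernel)))
              (CovZ.n1 (1440, 18640) (by decide +kernel)
               (CovZ.n2 (1480, 18680) (by decide +kernel)
                (CovZ.n2 (1480, 18640) (by decide +kernel)
                 (CovZ.leaf K2_ok TP_l7369 _)
                 (CovZ.badM (by decide +kernel)))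
                (CovZ.n1 (1440, 18680) (by decide +kernel)
                 (CovZ.leaf K2_ok TP_l7370 _)
                 (CovZ.leaf K2_ok TP_l7371 _)))
               (CovZ.n1 (1480, 18600) (by decide +kernel)
                (CovZ.n2 (1440, 18600) (by decide +kernel)
                 (CovZ.leaf K2_ok TP_l7372 _)
                 (CovZ.badM (by decide +kernel)))
                (CovZ.n1 (1480, 18640) (by decide +kernel)
                 (CovZ.badM (by decide +kernel))
                 (CovZ.leaf K2_ok TP_l7373 _)))))))
           (CovZ.badM (by decide +kernel))))
         (CovZ.n1 (1280, 18880) (by decide +kernel)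
          (CovZ.n2 (1440, 19040) (by decide +kernel)
           (CovZ.subM 680564733861684007733476813305932677120 (by decide +kernel)
            (CovZ.n2 (1440, 18880) (by decide +kernel)
             (CovZ.leaf K2_ok TP_l2115 _)
             (CovZ.n1 (1520, 18960) (by decide +kernel)
              (CovZ.n2 (1520, 18880) (by decide +kernel)
               (CovZ.leaf K2_ok TP_l2116 _)
               (CovZ.badM (by decide +kernel)))
              (CovZ.n1 (1440, 18960) (by decide +kernel)
               (CovZ.leaf K2_ok TP_l2120 _)
               (CovZ.leaf K2_ok TP_l2121 _)))))
           (CovZ.n1 (1280, 19040) (by decide +kernel)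
            (CovZ.leaf K2_ok TP_l2122 _)
            (CovZ.leaf K2_ok TP_l2123 _)))
          (CovZ.subM 680564733841876967104910728907546689536 (by decide +kernel)
           (CovZ.n1 (1440, 18720) (by decide +kernel)
            (CovZ.n2 (1280, 18720) (by decide +kernel)
             (CovZ.n2 (1360, 18800) (by decide +kernel)
              (CovZ.leaf K2_ok TP_l2124 _)
              (CovZ.leaf K2_ok TP_l2125 _))
             (CovZ.n1 (1360, 18640) (by decide +kernel)
              (CovZ.leaf K2_ok TP_l2126 _)
              (CovZ.n1 (1360, 18720) (by decide +kernel)
               (CovZ.leaf K2_ok TP_l2127 _)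
               (CovZ.leaf K2_ok TP_l2128 _))))
            (CovZ.n1 (1440, 18880) (by decide +kernel)
             (CovZ.n2 (1520, 18800) (by decide +kernel)
              (CovZ.n2 (1440, 18800) (by decide +kernel)
               (CovZ.n2 (1480, 18840) (by decide +kernel)
                (CovZ.leaf K2_ok TP_l7374 _)
                (CovZ.leaf K2_ok TP_l7375 _))
               (CovZ.n1 (1480, 18760) (by decide +kernel)
                (CovZ.leaf K2_ok TP_l7376 _)
                (CovZ.n1 (1480, 18800) (by decide +kernel)
                 (CovZ.badM (by decide +kernel))
                 (CovZ.leaf K2_ok TP_l7377 _))))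
              (CovZ.n1 (1520, 18880) (by decide +kernel)
               (CovZ.badM (by decide +kernel))
               (CovZ.n1 (1480, 18840) (by decide +kernel)
                (CovZ.leaf K2_ok TP_l7378 _)
                (CovZ.badM (by decide +kernel)))))
             (CovZ.n1 (1360, 18800) (by decide +kernel)
              (CovZ.leaf K2_ok TP_l2129 _)
              (CovZ.leaf K2_ok TP_l2130 _)))))))
        (CovZ.subM 162298890911651087181092193566720 (by decide +kernel)
         (CovZ.n1 (1600, 18240) (by decide +kernel)
          (CovZ.n2 (1280, 18240) (by decide +kernel)
           (CovZ.n2 (1440, 18400) (by decide +kernel)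
            (CovZ.n2 (1440, 18240) (by decide +kernel)
             (CovZ.n2 (1360, 18320) (by decide +kernel)
              (CovZ.badM (by decide +kernel))
              (CovZ.n1 (1360, 18240) (by decide +kernel)
               (CovZ.n2 (1320, 18280) (by decide +kernel)
                (CovZ.n2 (1360, 18280) (by decide +kernel)
                 (CovZ.badM (by decide +kernel))
                 (CovZ.leaf K2_ok TP_l7379 _))
                (CovZ.leaf K2_ok TP_l7380 _))
               (CovZ.badM (by decide +kernel))))
             (CovZ.badM (by decide +kernel)))
            (CovZ.n1 (1280, 18400) (by decide +kernel)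
             (CovZ.n2 (1360, 18480) (by decide +kernel)
              (CovZ.n2 (1360, 18400) (by decide +kernel)
               (CovZ.leaf K2_ok TP_l7381 _)
               (CovZ.badM (by decide +kernel)))
              (CovZ.n1 (1280, 18480) (by decide +kernel)
               (CovZ.leaf K2_ok TP_l7382 _)
               (CovZ.leaf K2_ok TP_l7383 _)))
             (CovZ.n1 (1360, 18320) (by decide +kernel)
              (CovZ.n2 (1280, 18320) (by decide +kernel)
               (CovZ.leaf K2_ok TP_l7384 _)
               (CovZ.n1 (1320, 18280) (by decide +kernel)
                (CovZ.leaf K2_ok TP_l7385 _)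
                (CovZ.leaf K2_ok TP_l7386 _)))
              (CovZ.n1 (1360, 18400) (by decide +kernel)
               (CovZ.badM (by decide +kernel))
               (CovZ.n1 (1320, 18360) (by decide +kernel)
                (CovZ.leaf K2_ok TP_l7387 _)
                (CovZ.leaf K2_ok TP_l7388 _))))))
           (CovZ.n1 (1440, 18080) (by decide +kernel)
            (CovZ.n2 (1280, 18080) (by decide +kernel)
             (CovZ.n2 (1360, 18160) (by decide +kernel)
              (CovZ.n2 (1360, 18080) (by decide +kernel)
               (CovZ.n2 (1320, 18120) (by decide +kernel)
                (CovZ.badM (by decide +kernel))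
                (CovZ.badM (by decide +kernel)))
               (CovZ.badM (by decide +kernel)))
              (CovZ.n1 (1280, 18160) (by decide +kernel)
               (CovZ.n2 (1320, 18200) (by decide +kernel)
                (CovZ.n2 (1320, 18160) (by decide +kernel)
                 (CovZ.leaf K2_ok TP_l7389 _)
                 (CovZ.badM (by decide +kernel)))
                (CovZ.leaf K2_ok TP_l7390 _))
               (CovZ.n1 (1320, 18120) (by decide +kernel)
                (CovZ.n2 (1280, 18120) (by decide +kernel)
                 (CovZ.leaf K2_ok TP_l7391 _)
                 (CovZ.badM (by decide +kernel)))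
                (CovZ.n1 (1320, 18160) (by decide +kernel)
                 (CovZ.badM (by decide +kernel))
                 (CovZ.leaf K2_ok TP_l7392 _)))))
             (CovZ.badM (by decide +kernel)))
            (CovZ.n1 (1440, 18240) (by decide +kernel)
             (CovZ.badM (by decide +kernel))
             (CovZ.n1 (1360, 18160) (by decide +kernel)
              (CovZ.n2 (1360, 18240) (by decide +kernel)
               (CovZ.badM (by decide +kernel))
               (CovZ.n1 (1320, 18200) (by decide +kernel)
                (CovZ.n2 (1320, 18240) (by decide +kernel)
                 (CovZ.badM (by decide +kernel))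
                 (CovZ.leaf K2_ok TP_l7393 _))
                (CovZ.badM (by decide +kernel))))
              (CovZ.badM (by decide +kernel))))))
          (CovZ.n1 (1600, 18560) (by decide +kernel)
           (CovZ.badM (by decide +kernel))
           (CovZ.n1 (1440, 18400) (by decide +kernel)
            (CovZ.n2 (1440, 18560) (by decide +kernel)
             (CovZ.badM (by decide +kernel))
             (CovZ.n1 (1360, 18480) (by decide +kernel)
              (CovZ.n2 (1360, 18560) (by decide +kernel)
               (CovZ.badM (by decide +kernel))
               (CovZ.n1 (1320, 18520) (by decide +kernel)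
                (CovZ.badM (by decide +kernel))
                (CovZ.badM (by decide +kernel))))
              (CovZ.badM (by decide +kernel))))
            (CovZ.badM (by decide +kernel)))))))))

theorem TP_u70 : CovZ TP_M (toL (selN TP_LN 680564741477491134434654030234063471112)) [0, 7, 2, 5] (1280, 19200) (1920, 19840) (1280, 20480) :=
    (CovZ.n2 (1280, 19840) (by decide +kernel)
        (CovZ.n2 (1600, 20160) (by decide +kernel)
         (CovZ.n2 (1600, 19840) (by decide +kernel)
          (CovZ.leaf K2_ok TP_l2141 _)
          (CovZ.subM 7615807126701177216928130793480 (by decide +kernel)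
           (CovZ.n1 (1760, 20000) (by decide +kernel)
            (CovZ.n2 (1760, 19840) (by decide +kernel)
             (CovZ.leaf K2_ok TP_l2142 _)
             (CovZ.subM 295151282879073353736 (by decide +kernel)
              (CovZ.n1 (1840, 19920) (by decide +kernel)
               (CovZ.n2 (1840, 19840) (by decide +kernel)
                (CovZ.n2 (1800, 19880) (by decide +kernel)
                 (CovZ.leaf K2_ok TP_l7394 _)
                 (CovZ.leaf K2_ok TP_l7395 _))
                (CovZ.n1 (1880, 19880) (by decide +kernel)
                 (CovZ.n2 (1880, 19840) (by decide +kernel)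
                  (CovZ.n2 (1860, 19860) (by decide +kernel)
                   (CovZ.n2 (1880, 19860) (by decide +kernel)
                    (CovZ.n2 (1870, 19850) (by decide +kernel)
                     (CovZ.leaf K2_ok TP_l7396 _)
                     (CovZ.n1 (1880, 19850) (by decide +kernel)
                      (CovZ.badM (by decide +kernel))
                      (CovZ.leaf K2_ok TP_l7397 _)))
                    (CovZ.leaf K2_ok TP_l7398 _))
                   (CovZ.n1 (1860, 19840) (by decide +kernel)
                    (CovZ.leaf K2_ok TP_l7399 _)
                    (CovZ.n1 (1870, 19850) (by decide +kernel)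
                     (CovZ.badM (by decide +kernel))
                     (CovZ.leaf K2_ok TP_l7400 _))))
                  (CovZ.badM (by decide +kernel)))
                 (CovZ.n1 (1840, 19880) (by decide +kernel)
                  (CovZ.n2 (1860, 19900) (by decide +kernel)
                   (CovZ.leaf K2_ok TP_l7401 _)
                   (CovZ.leaf K2_ok TP_l7402 _))
                  (CovZ.n1 (1860, 19860) (by decide +kernel)
                   (CovZ.leaf K2_ok TP_l7403 _)
                   (CovZ.n1 (1860, 19880) (by decide +kernel)
                    (CovZ.leaf K2_ok TP_l7404 _)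
                    (CovZ.leaf K2_ok TP_l7405 _))))))
               (CovZ.n1 (1760, 19920) (by decide +kernel)
                (CovZ.leaf K2_ok TP_l2143 _)
                (CovZ.n1 (1800, 19880) (by decide +kernel)
                 (CovZ.leaf K2_ok TP_l7406 _)
                 (CovZ.leaf K2_ok TP_l7407 _))))))
            (CovZ.n1 (1600, 20000) (by decide +kernel)
             (CovZ.leaf K2_ok TP_l2144 _)
             (CovZ.leaf K2_ok TP_l2145 _)))))
         (CovZ.n1 (1280, 20160) (by decide +kernel)
          (CovZ.leaf K2_ok TP_l2146 _)
          (CovZ.leaf K2_ok TP_l2147 _)))
        (CovZ.n1 (1600, 19520) (by decide +kernel)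
         (CovZ.n2 (1280, 19520) (by decide +kernel)
          (CovZ.n2 (1440, 19680) (by decide +kernel)
           (CovZ.leaf K2_ok TP_l2148 _)
           (CovZ.leaf K2_ok TP_l2149 _))
          (CovZ.n1 (1440, 19360) (by decide +kernel)
           (CovZ.leaf K2_ok TP_l2150 _)
           (CovZ.n1 (1440, 19520) (by decide +kernel)
            (CovZ.leaf K2_ok TP_l2151 _)
            (CovZ.leaf K2_ok TP_l2152 _))))
         (CovZ.n1 (1600, 19840) (by decide +kernel)
          (CovZ.subM 2545204725788257359141504286720 (by decide +kernel)
           (CovZ.n2 (1760, 19680) (by decide +kernel)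
            (CovZ.n2 (1600, 19680) (by decide +kernel)
             (CovZ.n2 (1680, 19760) (by decide +kernel)
              (CovZ.n2 (1680, 19680) (by decide +kernel)
               (CovZ.leaf K2_ok TP_l2153 _)
               (CovZ.leaf K2_ok TP_l2154 _))
              (CovZ.leaf K2_ok TP_l2155 _))
             (CovZ.n1 (1680, 19600) (by decide +kernel)
              (CovZ.leaf K2_ok TP_l2156 _)
              (CovZ.n1 (1680, 19680) (by decide +kernel)
               (CovZ.n2 (1720, 19640) (by decide +kernel)
                (CovZ.leaf K2_ok TP_l2157 _)
                (CovZ.leaf K2_ok TP_l2158 _))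
               (CovZ.leaf K2_ok TP_l2159 _))))
            (CovZ.n1 (1760, 19840) (by decide +kernel)
             (CovZ.n2 (1840, 19760) (by decide +kernel)
              (CovZ.n2 (1760, 19760) (by decide +kernel)
               (CovZ.n2 (1800, 19800) (by decide +kernel)
                (CovZ.n2 (1800, 19760) (by decide +kernel)
                 (CovZ.leaf K2_ok TP_l7408 _)
                 (CovZ.n1 (1820, 19780) (by decide +kernel)
                  (CovZ.leaf K2_ok TP_l7409 _)
                  (CovZ.leaf K2_ok TP_l7410 _)))
                (CovZ.leaf K2_ok TP_l7411 _))
               (CovZ.n1 (1800, 19720) (by decide +kernel)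
                (CovZ.n2 (1760, 19720) (by decide +kernel)
                 (CovZ.leaf K2_ok TP_l7412 _)
                 (CovZ.leaf K2_ok TP_l7413 _))
                (CovZ.n1 (1800, 19760) (by decide +kernel)
                 (CovZ.n2 (1820, 19740) (by decide +kernel)
                  (CovZ.leaf K2_ok TP_l7414 _)
                  (CovZ.n1 (1820, 19760) (by decide +kernel)
                   (CovZ.leaf K2_ok TP_l7415 _)
                   (CovZ.leaf K2_ok TP_l7416 _)))
                 (CovZ.leaf K2_ok TP_l7417 _))))
              (CovZ.n1 (1840, 19840) (by decide +kernel)
               (CovZ.n2 (1880, 19800) (by decide +kernel)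
                (CovZ.n2 (1840, 19800) (by decide +kernel)
                 (CovZ.n2 (1860, 19820) (by decide +kernel)
                  (CovZ.n2 (1860, 19800) (by decide +kernel)
                   (CovZ.n2 (1850, 19810) (by decide +kernel)
                    (CovZ.badM (by decide +kernel))
                    (CovZ.leaf K2_ok TP_l7418 _))
                   (CovZ.badM (by decide +kernel)))
                  (CovZ.n1 (1840, 19820) (by decide +kernel)
                   (CovZ.leaf K2_ok TP_l7419 _)
                   (CovZ.n1 (1850, 19810) (by decide +kernel)
                    (CovZ.leaf K2_ok TP_l7420 _)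
                    (CovZ.leaf K2_ok TP_l7421 _))))
                 (CovZ.n1 (1860, 19780) (by decide +kernel)
                  (CovZ.n2 (1840, 19780) (by decide +kernel)
                   (CovZ.n2 (1850, 19790) (by decide +kernel)
                    (CovZ.n2 (1850, 19780) (by decide +kernel)
                     (CovZ.leaf K2_ok TP_l7422 _)
                     (CovZ.badM (by decide +kernel)))
                    (CovZ.leaf K2_ok TP_l7423 _))
                   (CovZ.n1 (1850, 19770) (by decide +kernel)
                    (CovZ.leaf K2_ok TP_l7424 _)
                    (CovZ.n1 (1850, 19780) (by decide +kernel)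
                     (CovZ.badM (by decide +kernel))
                     (CovZ.leaf K2_ok TP_l7425 _))))
                  (CovZ.n1 (1860, 19800) (by decide +kernel)
                   (CovZ.badM (by decide +kernel))
                   (CovZ.n1 (1850, 19790) (by decide +kernel)
                    (CovZ.n2 (1850, 19800) (by decide +kernel)
                     (CovZ.badM (by decide +kernel))
                     (CovZ.leaf K2_ok TP_l7426 _))
                    (CovZ.badM (by decide +kernel))))))
                (CovZ.n1 (1880, 19840) (by decide +kernel)
                 (CovZ.badM (by decide +kernel))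
                 (CovZ.n1 (1860, 19820) (by decide +kernel)
                  (CovZ.n2 (1860, 19840) (by decide +kernel)
                   (CovZ.badM (by decide +kernel))
                   (CovZ.leaf K2_ok TP_l7427 _))
                  (CovZ.badM (by decide +kernel)))))
               (CovZ.n1 (1800, 19800) (by decide +kernel)
                (CovZ.n2 (1800, 19840) (by decide +kernel)
                 (CovZ.leaf K2_ok TP_l7428 _)
                 (CovZ.leaf K2_ok TP_l7429 _))
                (CovZ.n1 (1840, 19800) (by decide +kernel)
                 (CovZ.n2 (1820, 19780) (by decide +kernel)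
                  (CovZ.leaf K2_ok TP_l7430 _)
                  (CovZ.leaf K2_ok TP_l7431 _))
                 (CovZ.leaf K2_ok TP_l7432 _)))))
             (CovZ.n1 (1680, 19760) (by decide +kernel)
              (CovZ.leaf K2_ok TP_l2160 _)
              (CovZ.n1 (1760, 19760) (by decide +kernel)
               (CovZ.leaf K2_ok TP_l2161 _)
               (CovZ.leaf K2_ok TP_l2162 _))))))
          (CovZ.n1 (1440, 19680) (by decide +kernel)
           (CovZ.leaf K2_ok TP_l2163 _)
           (CovZ.n1 (1600, 19680) (by decide +kernel)
            (CovZ.leaf K2_ok TP_l2164 _)
            (CovZ.leaf K2_ok TP_l2165 _))))))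

theorem TP_u71 : CovZ TP_M (toL (selN TP_LN 680564741477491134434654030234063471112)) [0, 7, 2, 5] (1920, 19840) (2560, 20480) (1280, 20480) :=
    (CovZ.n1 (1920, 20480) (by decide +kernel)
        (CovZ.badM (by decide +kernel))
        (CovZ.n1 (1600, 20160) (by decide +kernel)
         (CovZ.n2 (1600, 20480) (by decide +kernel)
          (CovZ.subM 7615807126701177216928130793480 (by decide +kernel)
           (CovZ.n2 (1760, 20320) (by decide +kernel)
            (CovZ.leaf K2_ok TP_l2166 _)
            (CovZ.n1 (1760, 20480) (by decide +kernel)
             (CovZ.n2 (1840, 20400) (by decide +kernel)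
              (CovZ.leaf K2_ok TP_l2167 _)
              (CovZ.leaf K2_ok TP_l2168 _))
             (CovZ.leaf K2_ok TP_l2169 _))))
          (CovZ.leaf K2_ok TP_l2170 _))
         (CovZ.subM 7615807126701177216928130793480 (by decide +kernel)
          (CovZ.n1 (1920, 20160) (by decide +kernel)
           (CovZ.n2 (1760, 20000) (by decide +kernel)
            (CovZ.n2 (1760, 20160) (by decide +kernel)
             (CovZ.n2 (1840, 20080) (by decide +kernel)
              (CovZ.n2 (1760, 20080) (by decide +kernel)
               (CovZ.leaf K2_ok TP_l2171 _)
               (CovZ.leaf K2_ok TP_l2172 _))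
              (CovZ.n1 (1840, 20160) (by decide +kernel)
               (CovZ.n2 (1880, 20120) (by decide +kernel)
                (CovZ.leaf K2_ok TP_l2173 _)
                (CovZ.leaf K2_ok TP_l2174 _))
               (CovZ.leaf K2_ok TP_l2175 _)))
             (CovZ.leaf K2_ok TP_l2176 _))
            (CovZ.n1 (1920, 20000) (by decide +kernel)
             (CovZ.subM 295151282879073353736 (by decide +kernel)
              (CovZ.n2 (1840, 19920) (by decide +kernel)
               (CovZ.n2 (1840, 20000) (by decide +kernel)
                (CovZ.n2 (1880, 19960) (by decide +kernel)
                 (CovZ.n2 (1840, 19960) (by decide +kernel)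
                  (CovZ.leaf K2_ok TP_l2177 _)
                  (CovZ.leaf K2_ok TP_l7433 _))
                 (CovZ.n1 (1880, 20000) (by decide +kernel)
                  (CovZ.badM (by decide +kernel))
                  (CovZ.leaf K2_ok TP_l2178 _)))
                (CovZ.leaf K2_ok TP_l2179 _))
               (CovZ.n1 (1920, 19920) (by decide +kernel)
                (CovZ.n2 (1880, 19880) (by decide +kernel)
                 (CovZ.n2 (1880, 19920) (by decide +kernel)
                  (CovZ.badM (by decide +kernel))
                  (CovZ.n1 (1860, 19900) (by decide +kernel)
                   (CovZ.leaf K2_ok TP_l7434 _)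
                   (CovZ.n1 (1880, 19900) (by decide +kernel)
                    (CovZ.leaf K2_ok TP_l7435 _)
                    (CovZ.leaf K2_ok TP_l7436 _))))
                 (CovZ.badM (by decide +kernel)))
                (CovZ.n1 (1880, 19960) (by decide +kernel)
                 (CovZ.badM (by decide +kernel))
                 (CovZ.n1 (1880, 19920) (by decide +kernel)
                  (CovZ.leaf K2_ok TP_l7437 _)
                  (CovZ.badM (by decide +kernel)))))))
             (CovZ.n1 (1840, 20080) (by decide +kernel)
              (CovZ.subM 5070602401208067762965979332616 (by decide +kernel)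
               (CovZ.n2 (1920, 20080) (by decide +kernel)
                (CovZ.n2 (1880, 20040) (by decide +kernel)
                 (CovZ.n2 (1880, 20080) (by decide +kernel)
                  (CovZ.badM (by decide +kernel))
                  (CovZ.leaf K2_ok TP_l2180 _))
                 (CovZ.badM (by decide +kernel)))
                (CovZ.n1 (1880, 20120) (by decide +kernel)
                 (CovZ.n2 (1920, 20120) (by decide +kernel)
                  (CovZ.leaf K2_ok TP_l7438 _)
                  (CovZ.leaf K2_ok TP_l7439 _))
                 (CovZ.n1 (1880, 20080) (by decide +kernel)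
                  (CovZ.leaf K2_ok TP_l2181 _)
                  (CovZ.leaf K2_ok TP_l7440 _)))))
              (CovZ.subM 295151282879073353736 (by decide +kernel)
               (CovZ.n1 (1840, 20000) (by decide +kernel)
                (CovZ.leaf K2_ok TP_l2182 _)
                (CovZ.n1 (1880, 20040) (by decide +kernel)
                 (CovZ.n2 (1880, 20000) (by decide +kernel)
                  (CovZ.leaf K2_ok TP_l2183 _)
                  (CovZ.badM (by decide +kernel)))
                 (CovZ.leaf K2_ok TP_l2184 _)))))))
           (CovZ.n1 (1760, 20320) (by decide +kernel)
            (CovZ.n2 (1920, 20320) (by decide +kernel)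
             (CovZ.n2 (1840, 20240) (by decide +kernel)
              (CovZ.leaf K2_ok TP_l2185 _)
              (CovZ.n1 (1920, 20240) (by decide +kernel)
               (CovZ.leaf K2_ok TP_l2186 _)
               (CovZ.leaf K2_ok TP_l2187 _)))
             (CovZ.n1 (1840, 20400) (by decide +kernel)
              (CovZ.leaf K2_ok TP_l2188 _)
              (CovZ.leaf K2_ok TP_l2189 _)))
            (CovZ.n1 (1760, 20160) (by decide +kernel)
             (CovZ.leaf K2_ok TP_l2190 _)
             (CovZ.n1 (1840, 20240) (by decide +kernel)
              (CovZ.n2 (1840, 20160) (by decide +kernel)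
               (CovZ.leaf K2_ok TP_l2191 _)
               (CovZ.leaf K2_ok TP_l2192 _))
              (CovZ.leaf K2_ok TP_l2193 _))))))))

end Pool.Agent.TET
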