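import Pool.Agent.Helper38_TET.TP_M
import Pool.Agent.Helper38_TET.TP_L
import Pool.Agent.Helper38_TET.TP_0
import Pool.Agent.Helper38_TET.TP_1
import Pool.Agent.Helper38_TET.TP_13
import Pool.Agent.Helper38_TET.TP_14
import Pool.Agent.Helper38_TET.TP_30
import Pool.Agent.Helper38_TET.TP_31
import Pool.Agent.Helper38_TET.TP_32
import Pool.Agent.Helper38_TET.TP_33
import Pool.Agent.Helper38_TET.TP_34
import Pool.Agent.Helper38_TET.TP_35
import Pool.Agent.Helper38_TET.TP_37
import Pool.Agent.Helper38_TET.TP_48
import Pool.Agent.Helper38_TET.TP_49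
import Pool.Agent.Helper38_TET.TP_52
import Pool.Agent.Helper38_TET.TP_U3
import Pool.Agent.Helper38_TET.TP_U4

/-!
# MP_c7c9bf_co: certificates, family TP
-/

set_option autoImplicit false
set_option maxRecDepth 100000

namespace Pool.Agent.TET

theorem TP_s3_5 : SqZ TP_M TP_L [0, 7, 2, 5] (-2560) (-5120) 2560 3 5 :=
  SqZ.mk (a := 5120) (b := 7680) (c := 7680) (d := 10240) (by norm_num) (by norm_num) (by norm_num) (by norm_num)
    (CovZ.topM TP_LL 9671406556917033397649408 (by decide +kernel) (CovZ.n2 (6400, 8960) (by decide +kernel)
    (CovZ.n2 (7680, 8960) (by decide +kernel)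
     (CovZ.n2 (7040, 8320) (by decide +kernel)
      (CovZ.n2 (7040, 8960) (by decide +kernel)
       (CovZ.n2 (7360, 8640) (by decide +kernel)
        (CovZ.badM (by decide +kernel))
        (CovZ.n1 (7360, 8960) (by decide +kernel)
         (CovZ.leaf K2_ok TP_l4590 _)
         (CovZ.badM (by decide +kernel))))
       (CovZ.badM (by decide +kernel)))
      (CovZ.n1 (7680, 8320) (by decide +kernel)
       (CovZ.n2 (7360, 8000) (by decide +kernel)
        (CovZ.leaf K2_ok TP_l4591 _)
        (CovZ.leaf K2_ok TP_l4592 _))
       (CovZ.n1 (7360, 8640) (by decide +kernel)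
        (CovZ.leaf K2_ok TP_l4593 _)
        (CovZ.leaf K2_ok TP_l4594 _))))
     (CovZ.n1 (7040, 9600) (by decide +kernel)
      (CovZ.n2 (7680, 9600) (by decide +kernel)
       (CovZ.n2 (7360, 9280) (by decide +kernel)
        (CovZ.n2 (7360, 9600) (by decide +kernel)
         (CovZ.leaf K2_ok TP_l4595 _)
         (CovZ.badM (by decide +kernel)))
        (CovZ.n1 (7680, 9280) (by decide +kernel)
         (CovZ.leaf K2_ok TP_l4596 _)
         (CovZ.leaf K2_ok TP_l4597 _)))
       (CovZ.n1 (7360, 9920) (by decide +kernel)
        (CovZ.n2 (7680, 9920) (by decide +kernel)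
         (CovZ.leaf K2_ok TP_l4598 _)
         (CovZ.n1 (7520, 10080) (by decide +kernel)
          (CovZ.leaf K2_ok TP_l4599 _)
          (CovZ.leaf K2_ok TP_l4600 _)))
        (CovZ.n1 (7360, 9600) (by decide +kernel)
         (CovZ.badM (by decide +kernel))
         (CovZ.leaf K2_ok TP_l4601 _))))
      (CovZ.n1 (7040, 8960) (by decide +kernel)
       (CovZ.badM (by decide +kernel))
       (CovZ.n1 (7360, 9280) (by decide +kernel)
        (CovZ.n2 (7360, 8960) (by decide +kernel)
         (CovZ.badM (by decide +kernel))
         (CovZ.leaf K2_ok TP_l4602 _))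
        (CovZ.badM (by decide +kernel))))))
    (CovZ.n1 (6400, 7680) (by decide +kernel)
     (CovZ.badM (by decide +kernel))
     (CovZ.n1 (7040, 8320) (by decide +kernel)
      (CovZ.n2 (7040, 7680) (by decide +kernel)
       (CovZ.badM (by decide +kernel))
       (CovZ.leaf K2_ok TP_l4603 _))
      (CovZ.badM (by decide +kernel))))))
    (CovZ.topM TP_LL 9671406556917033397649408 (by decide +kernel) (CovZ.n0 (6400, 8960) (by decide +kernel)
    (CovZ.badM (by decide +kernel))
    (CovZ.n1 (6400, 10240) (by decide +kernel)
     (CovZ.n2 (7040, 9600) (by decide +kernel)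
      (CovZ.badM (by decide +kernel))
      (CovZ.n1 (7040, 10240) (by decide +kernel)
       (CovZ.n2 (7360, 9920) (by decide +kernel)
        (CovZ.badM (by decide +kernel))
        (CovZ.n1 (7360, 10240) (by decide +kernel)
         (CovZ.leaf K2_ok TP_l4604 _)
         (CovZ.badM (by decide +kernel))))
       (CovZ.badM (by decide +kernel))))
     (CovZ.badM (by decide +kernel)))))

theorem TP_s4_5 : SqZ TP_M TP_L [0, 7, 2, 5] (-2560) (-5120) 2560 4 5 :=
  SqZ.mk (a := 7680) (b := 10240) (c := 7680) (d := 10240) (by norm_num) (by norm_num) (by norm_num) (by norm_num)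
    (CovZ.topM TP_LL 9671406556917033397649410 (by decide +kernel) (CovZ.n2 (8960, 8960) (by decide +kernel)
    (CovZ.n2 (10240, 8960) (by decide +kernel)
     (CovZ.leaf K2_ok TP_l4804 _)
     (CovZ.n1 (9600, 9600) (by decide +kernel)
      (CovZ.leaf K2_ok TP_l4805 _)
      (CovZ.leaf K2_ok TP_l4806 _)))
    (CovZ.n1 (8960, 7680) (by decide +kernel)
     (CovZ.n2 (8320, 8320) (by decide +kernel)
      (CovZ.leaf K2_ok TP_l4807 _)
      (CovZ.n1 (8320, 7680) (by decide +kernel)
       (CovZ.leaf K2_ok TP_l4808 _)
       (CovZ.leaf K2_ok TP_l4809 _)))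
     (CovZ.leaf K2_ok TP_l4810 _))))
    (CovZ.topM TP_LL 9671406556917033397649410 (by decide +kernel) (CovZ.n0 (8960, 8960) (by decide +kernel)
    (CovZ.n2 (7680, 8960) (by decide +kernel)
     (CovZ.n2 (8320, 9600) (by decide +kernel)
      (CovZ.n2 (8320, 8960) (by decide +kernel)
       (CovZ.n2 (8000, 9280) (by decide +kernel)
        (CovZ.leaf K2_ok TP_l4811 _)
        (CovZ.leaf K2_ok TP_l4812 _))
       (CovZ.leaf K2_ok TP_l4813 _))
      (CovZ.n1 (7680, 9600) (by decide +kernel)
       (CovZ.n2 (8000, 9920) (by decide +kernel)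
        (CovZ.n2 (8000, 9600) (by decide +kernel)
         (CovZ.leaf K2_ok TP_l4814 _)
         (CovZ.leaf K2_ok TP_l4815 _))
        (CovZ.n1 (7680, 9920) (by decide +kernel)
         (CovZ.leaf K2_ok TP_l4816 _)
         (CovZ.leaf K2_ok TP_l4817 _)))
       (CovZ.n1 (8000, 9280) (by decide +kernel)
        (CovZ.leaf K2_ok TP_l4818 _)
        (CovZ.leaf K2_ok TP_l4819 _))))
     (CovZ.n1 (8320, 8320) (by decide +kernel)
      (CovZ.n2 (7680, 8320) (by decide +kernel)
       (CovZ.leaf K2_ok TP_l4820 _)
       (CovZ.leaf K2_ok TP_l4821 _))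
      (CovZ.n1 (8320, 8960) (by decide +kernel)
       (CovZ.leaf K2_ok TP_l4822 _)
       (CovZ.leaf K2_ok TP_l4823 _))))
    (CovZ.n1 (8960, 10240) (by decide +kernel)
     (CovZ.n2 (9600, 9600) (by decide +kernel)
      (CovZ.leaf K2_ok TP_l4824 _)
      (CovZ.leaf K2_ok TP_l4825 _))
     (CovZ.n1 (8320, 9600) (by decide +kernel)
      (CovZ.n2 (8320, 10240) (by decide +kernel)
       (CovZ.leaf K2_ok TP_l4826 _)
       (CovZ.n1 (8000, 9920) (by decide +kernel)
        (CovZ.leaf K2_ok TP_l4827 _)
        (CovZ.leaf K2_ok TP_l4828 _)))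
      (CovZ.n1 (8960, 9600) (by decide +kernel)
       (CovZ.leaf K2_ok TP_l4829 _)
       (CovZ.n1 (8640, 9920) (by decide +kernel)
        (CovZ.leaf K2_ok TP_l4830 _)
        (CovZ.leaf K2_ok TP_l4831 _)))))))

theorem TP_s5_5 : SqZ TP_M TP_L [0, 7, 2, 5] (-2560) (-5120) 2560 5 5 :=
  SqZ.mk (a := 10240) (b := 12800) (c := 7680) (d := 10240) (by norm_num) (by norm_num) (by norm_num) (by norm_num)
    (CovZ.topM TP_LL 324518563329833283700223777964034 (by decide +kernel) (CovZ.n2 (11520, 8960) (by decide +kernel)
    (CovZ.n2 (12800, 8960) (by decide +kernel)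
     (CovZ.leaf K2_ok TP_l5122 _)
     (CovZ.leaf K2_ok TP_l5123 _))
    (CovZ.n1 (11520, 7680) (by decide +kernel)
     (CovZ.leaf K2_ok TP_l5124 _)
     (CovZ.leaf K2_ok TP_l5125 _))))
    (CovZ.topM TP_LL 324518563329833283700223777964034 (by decide +kernel) (CovZ.n0 (11520, 8960) (by decide +kernel)
    (CovZ.n2 (10240, 8960) (by decide +kernel)
     (CovZ.leaf K2_ok TP_l5126 _)
     (CovZ.leaf K2_ok TP_l5127 _))
    (CovZ.n1 (11520, 10240) (by decide +kernel)
     (CovZ.leaf K2_ok TP_l5128 _)
     (CovZ.leaf K2_ok TP_l5129 _))))

theorem TP_s6_5 : SqZ TP_M TP_L [0, 7, 2, 5] (-2560) (-5120) 2560 6 5 :=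
  SqZ.mk (a := 12800) (b := 15360) (c := 7680) (d := 10240) (by norm_num) (by norm_num) (by norm_num) (by norm_num)
    (CovZ.topM TP_LL 1393796575313812148090422357436535377231874 (by decide +kernel) (CovZ.n2 (14080, 8960) (by decide +kernel)
    (CovZ.leaf K2_ok TP_l5204 _)
    (CovZ.leaf K2_ok TP_l5205 _)))
    (CovZ.topM TP_LL 1393796575313812148090422357436535377231874 (by decide +kernel) (CovZ.n0 (14080, 8960) (by decide +kernel)
    (CovZ.leaf K2_ok TP_l5206 _)
    (CovZ.leaf K2_ok TP_l5207 _)))

theorem TP_s0_6 : SqZ TP_M TP_L [0, 7, 2, 5] (-2560) (-5120) 2560 0 6 :=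
  SqZ.mk (a := (-2560)) (b := 0) (c := 10240) (d := 12800) (by norm_num) (by norm_num) (by norm_num) (by norm_num)
    (CovZ.topM TP_LL 0 (by decide +kernel) (CovZ.badM (by decide +kernel)))
    (CovZ.topM TP_LL 0 (by decide +kernel) (CovZ.badM (by decide +kernel)))

theorem TP_s1_6 : SqZ TP_M TP_L [0, 7, 2, 5] (-2560) (-5120) 2560 1 6 :=
  SqZ.mk (a := 0) (b := 2560) (c := 10240) (d := 12800) (by norm_num) (by norm_num) (by norm_num) (by norm_num)
    (CovZ.topM TP_LL 0 (by decide +kernel) (CovZ.badM (by decide +kernel)))
    (CovZ.topM TP_LL 0 (by decide +kernel) (CovZ.badM (by decide +kernel)))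

theorem TP_s2_6 : SqZ TP_M TP_L [0, 7, 2, 5] (-2560) (-5120) 2560 2 6 :=
  SqZ.mk (a := 2560) (b := 5120) (c := 10240) (d := 12800) (by norm_num) (by norm_num) (by norm_num) (by norm_num)
    (CovZ.topM TP_LL 0 (by decide +kernel) (CovZ.badM (by decide +kernel)))
    (CovZ.topM TP_LL 0 (by decide +kernel) (CovZ.badM (by decide +kernel)))

theorem TP_s3_6 : SqZ TP_M TP_L [0, 7, 2, 5] (-2560) (-5120) 2560 3 6 :=
  SqZ.mk (a := 5120) (b := 7680) (c := 10240) (d := 12800) (by norm_num) (by norm_num) (by norm_num) (by norm_num)
    (CovZ.topM TP_LL 9671406556917033397649408 (by decide +kernel) (CovZ.n2 (6400, 11520) (by decide +kernel)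
    (CovZ.n2 (7680, 11520) (by decide +kernel)
     (CovZ.n2 (7040, 10880) (by decide +kernel)
      (CovZ.n2 (7040, 11520) (by decide +kernel)
       (CovZ.n2 (7360, 11200) (by decide +kernel)
        (CovZ.badM (by decide +kernel))
        (CovZ.n1 (7360, 11520) (by decide +kernel)
         (CovZ.n2 (7520, 11360) (by decide +kernel)
          (CovZ.n2 (7360, 11360) (by decide +kernel)
           (CovZ.leaf K2_ok TP_l4605 _)
           (CovZ.leaf K2_ok TP_l4606 _))
          (CovZ.leaf K2_ok TP_l4607 _))
         (CovZ.badM (by decide +kernel))))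
       (CovZ.badM (by decide +kernel)))
      (CovZ.n1 (7680, 10880) (by decide +kernel)
       (CovZ.n2 (7360, 10560) (by decide +kernel)
        (CovZ.n2 (7360, 10880) (by decide +kernel)
         (CovZ.n2 (7520, 10720) (by decide +kernel)
          (CovZ.leaf K2_ok TP_l4608 _)
          (CovZ.leaf K2_ok TP_l4609 _))
         (CovZ.badM (by decide +kernel)))
        (CovZ.n1 (7680, 10560) (by decide +kernel)
         (CovZ.n2 (7520, 10400) (by decide +kernel)
          (CovZ.leaf K2_ok TP_l4610 _)
          (CovZ.leaf K2_ok TP_l4611 _))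
         (CovZ.n1 (7520, 10720) (by decide +kernel)
          (CovZ.leaf K2_ok TP_l4612 _)
          (CovZ.leaf K2_ok TP_l4613 _))))
       (CovZ.n1 (7360, 11200) (by decide +kernel)
        (CovZ.n2 (7680, 11200) (by decide +kernel)
         (CovZ.n2 (7520, 11040) (by decide +kernel)
          (CovZ.leaf K2_ok TP_l4614 _)
          (CovZ.leaf K2_ok TP_l4615 _))
         (CovZ.n1 (7520, 11360) (by decide +kernel)
          (CovZ.n2 (7680, 11360) (by decide +kernel)
           (CovZ.leaf K2_ok TP_l4616 _)
           (CovZ.leaf K2_ok TP_l4617 _))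
          (CovZ.n1 (7520, 11200) (by decide +kernel)
           (CovZ.leaf K2_ok TP_l4618 _)
           (CovZ.leaf K2_ok TP_l4619 _))))
        (CovZ.n1 (7360, 10880) (by decide +kernel)
         (CovZ.badM (by decide +kernel))
         (CovZ.n1 (7520, 11040) (by decide +kernel)
          (CovZ.leaf K2_ok TP_l4620 _)
          (CovZ.n1 (7360, 11040) (by decide +kernel)
           (CovZ.leaf K2_ok TP_l4621 _)
           (CovZ.leaf K2_ok TP_l4622 _)))))))
     (CovZ.n1 (7040, 12160) (by decide +kernel)
      (CovZ.n2 (7680, 12160) (by decide +kernel)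
       (CovZ.n2 (7360, 11840) (by decide +kernel)
        (CovZ.n2 (7360, 12160) (by decide +kernel)
         (CovZ.n2 (7520, 12000) (by decide +kernel)
          (CovZ.n2 (7360, 12000) (by decide +kernel)
           (CovZ.leaf K2_ok TP_l4623 _)
           (CovZ.leaf K2_ok TP_l4624 _))
          (CovZ.leaf K2_ok TP_l4625 _))
         (CovZ.badM (by decide +kernel)))
        (CovZ.n1 (7680, 11840) (by decide +kernel)
         (CovZ.n2 (7520, 11680) (by decide +kernel)
          (CovZ.n2 (7520, 11840) (by decide +kernel)
           (CovZ.leaf K2_ok TP_l4626 _)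
           (CovZ.leaf K2_ok TP_l4627 _))
          (CovZ.n1 (7680, 11680) (by decide +kernel)
           (CovZ.leaf K2_ok TP_l4628 _)
           (CovZ.leaf K2_ok TP_l4629 _)))
         (CovZ.n1 (7520, 12000) (by decide +kernel)
          (CovZ.n2 (7680, 12000) (by decide +kernel)
           (CovZ.leaf K2_ok TP_l4630 _)
           (CovZ.leaf K2_ok TP_l4631 _))
          (CovZ.n1 (7520, 11840) (by decide +kernel)
           (CovZ.leaf K2_ok TP_l4632 _)
           (CovZ.leaf K2_ok TP_l4633 _)))))
       (CovZ.n1 (7360, 12480) (by decide +kernel)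
        (CovZ.n2 (7680, 12480) (by decide +kernel)
         (CovZ.n2 (7520, 12320) (by decide +kernel)
          (CovZ.leaf K2_ok TP_l4634 _)
          (CovZ.n1 (7680, 12320) (by decide +kernel)
           (CovZ.leaf K2_ok TP_l4635 _)
           (CovZ.leaf K2_ok TP_l4636 _)))
         (CovZ.n1 (7520, 12640) (by decide +kernel)
          (CovZ.leaf K2_ok TP_l4637 _)
          (CovZ.n1 (7520, 12480) (by decide +kernel)
           (CovZ.leaf K2_ok TP_l4638 _)
           (CovZ.leaf K2_ok TP_l4639 _))))
        (CovZ.n1 (7360, 12160) (by decide +kernel)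
         (CovZ.badM (by decide +kernel))
         (CovZ.n1 (7520, 12320) (by decide +kernel)
          (CovZ.n2 (7520, 12160) (by decide +kernel)
           (CovZ.leaf K2_ok TP_l4640 _)
           (CovZ.leaf K2_ok TP_l4641 _))
          (CovZ.n1 (7360, 12320) (by decide +kernel)
           (CovZ.leaf K2_ok TP_l4642 _)
           (CovZ.leaf K2_ok TP_l4643 _))))))
      (CovZ.n1 (7040, 11520) (by decide +kernel)
       (CovZ.badM (by decide +kernel))
       (CovZ.n1 (7360, 11840) (by decide +kernel)
        (CovZ.n2 (7360, 11520) (by decide +kernel)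
         (CovZ.badM (by decide +kernel))
         (CovZ.n1 (7520, 11680) (by decide +kernel)
          (CovZ.n2 (7520, 11520) (by decide +kernel)
           (CovZ.leaf K2_ok TP_l4644 _)
           (CovZ.leaf K2_ok TP_l4645 _))
          (CovZ.n1 (7360, 11680) (by decide +kernel)
           (CovZ.leaf K2_ok TP_l4646 _)
           (CovZ.leaf K2_ok TP_l4647 _))))
        (CovZ.badM (by decide +kernel))))))
    (CovZ.n1 (6400, 10240) (by decide +kernel)
     (CovZ.badM (by decide +kernel))
     (CovZ.n1 (7040, 10880) (by decide +kernel)
      (CovZ.n2 (7040, 10240) (by decide +kernel)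
       (CovZ.badM (by decide +kernel))
       (CovZ.n1 (7360, 10560) (by decide +kernel)
        (CovZ.n2 (7360, 10240) (by decide +kernel)
         (CovZ.badM (by decide +kernel))
         (CovZ.n1 (7520, 10400) (by decide +kernel)
          (CovZ.n2 (7520, 10240) (by decide +kernel)
           (CovZ.leaf K2_ok TP_l4648 _)
           (CovZ.leaf K2_ok TP_l4649 _))
          (CovZ.n1 (7360, 10400) (by decide +kernel)
           (CovZ.leaf K2_ok TP_l4650 _)
           (CovZ.leaf K2_ok TP_l4651 _))))
        (CovZ.badM (by decide +kernel))))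
      (CovZ.badM (by decide +kernel))))))
    (CovZ.topM TP_LL 9671406556917033397649408 (by decide +kernel) (CovZ.n0 (6400, 11520) (by decide +kernel)
    (CovZ.badM (by decide +kernel))
    (CovZ.n1 (6400, 12800) (by decide +kernel)
     (CovZ.n2 (7040, 12160) (by decide +kernel)
      (CovZ.badM (by decide +kernel))
      (CovZ.n1 (7040, 12800) (by decide +kernel)
       (CovZ.n2 (7360, 12480) (by decide +kernel)
        (CovZ.badM (by decide +kernel))
        (CovZ.n1 (7360, 12800) (by decide +kernel)
         (CovZ.n2 (7520, 12640) (by decide +kernel)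
          (CovZ.n2 (7360, 12640) (by decide +kernel)
           (CovZ.leaf K2_ok TP_l4652 _)
           (CovZ.leaf K2_ok TP_l4653 _))
          (CovZ.leaf K2_ok TP_l4654 _))
         (CovZ.badM (by decide +kernel))))
       (CovZ.badM (by decide +kernel))))
     (CovZ.badM (by decide +kernel)))))

theorem TP_s4_6 : SqZ TP_M TP_L [0, 7, 2, 5] (-2560) (-5120) 2560 4 6 :=
  SqZ.mk (a := 7680) (b := 10240) (c := 10240) (d := 12800) (by norm_num) (by norm_num) (by norm_num) (by norm_num)
    (CovZ.topM TP_LL 9671406556917033397649410 (by decide +kernel) (CovZ.n2 (8960, 11520) (by decide +kernel)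
    (CovZ.n2 (10240, 11520) (by decide +kernel)
     (CovZ.n2 (9600, 10880) (by decide +kernel)
      (CovZ.n2 (9600, 11520) (by decide +kernel)
       (CovZ.leaf K2_ok TP_l4832 _)
       (CovZ.leaf K2_ok TP_l4833 _))
      (CovZ.leaf K2_ok TP_l4834 _))
     (CovZ.n1 (9600, 12160) (by decide +kernel)
      (CovZ.n2 (10240, 12160) (by decide +kernel)
       (CovZ.leaf K2_ok TP_l4835 _)
       (CovZ.leaf K2_ok TP_l4836 _))
      (CovZ.n1 (9600, 11520) (by decide +kernel)
       (CovZ.leaf K2_ok TP_l4837 _)
       (CovZ.leaf K2_ok TP_l4838 _))))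
    (CovZ.n1 (8960, 10240) (by decide +kernel)
     (CovZ.n2 (8320, 10880) (by decide +kernel)
      (CovZ.n2 (8960, 10880) (by decide +kernel)
       (CovZ.n2 (8640, 10560) (by decide +kernel)
        (CovZ.leaf K2_ok TP_l4839 _)
        (CovZ.leaf K2_ok TP_l4840 _))
       (CovZ.n1 (8640, 11200) (by decide +kernel)
        (CovZ.leaf K2_ok TP_l4841 _)
        (CovZ.n1 (8640, 10880) (by decide +kernel)
         (CovZ.leaf K2_ok TP_l4842 _)
         (CovZ.leaf K2_ok TP_l4843 _))))
      (CovZ.n1 (8320, 10240) (by decide +kernel)
       (CovZ.n2 (8000, 10560) (by decide +kernel)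
        (CovZ.n2 (8320, 10560) (by decide +kernel)
         (CovZ.leaf K2_ok TP_l4844 _)
         (CovZ.leaf K2_ok TP_l4845 _))
        (CovZ.n1 (8000, 10240) (by decide +kernel)
         (CovZ.leaf K2_ok TP_l4846 _)
         (CovZ.leaf K2_ok TP_l4847 _)))
       (CovZ.n1 (8640, 10560) (by decide +kernel)
        (CovZ.n2 (8640, 10240) (by decide +kernel)
         (CovZ.leaf K2_ok TP_l4848 _)
         (CovZ.leaf K2_ok TP_l4849 _))
        (CovZ.leaf K2_ok TP_l4850 _))))
     (CovZ.n1 (9600, 10880) (by decide +kernel)
      (CovZ.n2 (9600, 10240) (by decide +kernel)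
       (CovZ.leaf K2_ok TP_l4851 _)
       (CovZ.leaf K2_ok TP_l4852 _))
      (CovZ.n1 (8960, 10880) (by decide +kernel)
       (CovZ.leaf K2_ok TP_l4853 _)
       (CovZ.leaf K2_ok TP_l4854 _))))))
    (CovZ.topM TP_LL 9671406556917033397649410 (by decide +kernel) (CovZ.n0 (8960, 11520) (by decide +kernel)
    (CovZ.n2 (7680, 11520) (by decide +kernel)
     (CovZ.n2 (8320, 12160) (by decide +kernel)
      (CovZ.n2 (8320, 11520) (by decide +kernel)
       (CovZ.n2 (8000, 11840) (by decide +kernel)
        (CovZ.n2 (8320, 11840) (by decide +kernel)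
         (CovZ.leaf K2_ok TP_l4855 _)
         (CovZ.leaf K2_ok TP_l4856 _))
        (CovZ.n1 (8000, 11520) (by decide +kernel)
         (CovZ.n2 (7840, 11680) (by decide +kernel)
          (CovZ.leaf K2_ok TP_l4857 _)
          (CovZ.n1 (7840, 11520) (by decide +kernel)
           (CovZ.leaf K2_ok TP_l4858 _)
           (CovZ.leaf K2_ok TP_l4859 _)))
         (CovZ.leaf K2_ok TP_l4860 _)))
       (CovZ.n1 (8640, 11840) (by decide +kernel)
        (CovZ.leaf K2_ok TP_l4861 _)
        (CovZ.leaf K2_ok TP_l4862 _)))
      (CovZ.n1 (7680, 12160) (by decide +kernel)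
       (CovZ.n2 (8000, 12480) (by decide +kernel)
        (CovZ.n2 (8000, 12160) (by decide +kernel)
         (CovZ.n2 (7840, 12320) (by decide +kernel)
          (CovZ.leaf K2_ok TP_l4863 _)
          (CovZ.leaf K2_ok TP_l4864 _))
         (CovZ.leaf K2_ok TP_l4865 _))
        (CovZ.n1 (7680, 12480) (by decide +kernel)
         (CovZ.leaf K2_ok TP_l4866 _)
         (CovZ.leaf K2_ok TP_l4867 _)))
       (CovZ.n1 (8000, 11840) (by decide +kernel)
        (CovZ.n2 (7680, 11840) (by decide +kernel)
         (CovZ.n2 (7840, 12000) (by decide +kernel)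
          (CovZ.leaf K2_ok TP_l4868 _)
          (CovZ.leaf K2_ok TP_l4869 _))
         (CovZ.n1 (7840, 11680) (by decide +kernel)
          (CovZ.leaf K2_ok TP_l4870 _)
          (CovZ.leaf K2_ok TP_l4871 _)))
        (CovZ.n1 (8000, 12160) (by decide +kernel)
         (CovZ.leaf K2_ok TP_l4872 _)
         (CovZ.n1 (7840, 12000) (by decide +kernel)
          (CovZ.leaf K2_ok TP_l4873 _)
          (CovZ.leaf K2_ok TP_l4874 _))))))
     (CovZ.n1 (8320, 10880) (by decide +kernel)
      (CovZ.n2 (7680, 10880) (by decide +kernel)
       (CovZ.n2 (8000, 11200) (by decide +kernel)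
        (CovZ.n2 (8000, 10880) (by decide +kernel)
         (CovZ.n2 (7840, 11040) (by decide +kernel)
          (CovZ.leaf K2_ok TP_l4875 _)
          (CovZ.leaf K2_ok TP_l4876 _))
         (CovZ.leaf K2_ok TP_l4877 _))
        (CovZ.n1 (7680, 11200) (by decide +kernel)
         (CovZ.n2 (7840, 11360) (by decide +kernel)
          (CovZ.leaf K2_ok TP_l4878 _)
          (CovZ.leaf K2_ok TP_l4879 _))
         (CovZ.leaf K2_ok TP_l4880 _)))
       (CovZ.n1 (8000, 10560) (by decide +kernel)
        (CovZ.n2 (7680, 10560) (by decide +kernel)
         (CovZ.leaf K2_ok TP_l4881 _)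
         (CovZ.leaf K2_ok TP_l4882 _))
        (CovZ.n1 (8000, 10880) (by decide +kernel)
         (CovZ.leaf K2_ok TP_l4883 _)
         (CovZ.leaf K2_ok TP_l4884 _))))
      (CovZ.n1 (8320, 11520) (by decide +kernel)
       (CovZ.n2 (8640, 11200) (by decide +kernel)
        (CovZ.leaf K2_ok TP_l4885 _)
        (CovZ.leaf K2_ok TP_l4886 _))
       (CovZ.n1 (8000, 11200) (by decide +kernel)
        (CovZ.n2 (8000, 11520) (by decide +kernel)
         (CovZ.leaf K2_ok TP_l4887 _)
         (CovZ.n1 (7840, 11360) (by decide +kernel)
          (CovZ.leaf K2_ok TP_l4888 _)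
          (CovZ.leaf K2_ok TP_l4889 _)))
        (CovZ.n1 (8320, 11200) (by decide +kernel)
         (CovZ.leaf K2_ok TP_l4890 _)
         (CovZ.leaf K2_ok TP_l4891 _))))))
    (CovZ.n1 (8960, 12800) (by decide +kernel)
     (CovZ.n2 (9600, 12160) (by decide +kernel)
      (CovZ.n2 (8960, 12160) (by decide +kernel)
       (CovZ.leaf K2_ok TP_l4892 _)
       (CovZ.leaf K2_ok TP_l4893 _))
      (CovZ.n1 (9600, 12800) (by decide +kernel)
       (CovZ.leaf K2_ok TP_l4894 _)
       (CovZ.leaf K2_ok TP_l4895 _)))
     (CovZ.n1 (8320, 12160) (by decide +kernel)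
      (CovZ.n2 (8320, 12800) (by decide +kernel)
       (CovZ.n2 (8640, 12480) (by decide +kernel)
        (CovZ.leaf K2_ok TP_l4896 _)
        (CovZ.leaf K2_ok TP_l4897 _))
       (CovZ.n1 (8000, 12480) (by decide +kernel)
        (CovZ.n2 (8000, 12800) (by decide +kernel)
         (CovZ.leaf K2_ok TP_l4898 _)
         (CovZ.leaf K2_ok TP_l4899 _))
        (CovZ.n1 (8320, 12480) (by decide +kernel)
         (CovZ.leaf K2_ok TP_l4900 _)
         (CovZ.leaf K2_ok TP_l4901 _))))
      (CovZ.n1 (8960, 12160) (by decide +kernel)
       (CovZ.n2 (8640, 11840) (by decide +kernel)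
        (CovZ.leaf K2_ok TP_l4902 _)
        (CovZ.leaf K2_ok TP_l4903 _))
       (CovZ.n1 (8640, 12480) (by decide +kernel)
        (CovZ.leaf K2_ok TP_l4904 _)
        (CovZ.leaf K2_ok TP_l4905 _)))))))

theorem TP_s5_6 : SqZ TP_M TP_L [0, 7, 2, 5] (-2560) (-5120) 2560 5 6 :=
  SqZ.mk (a := 10240) (b := 12800) (c := 10240) (d := 12800) (by norm_num) (by norm_num) (by norm_num) (by norm_num)
    (CovZ.topM TP_LL 324518563329833283700223777964034 (by decide +kernel) (CovZ.n2 (11520, 11520) (by decide +kernel)
    (CovZ.n2 (12800, 11520) (by decide +kernel)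
     (CovZ.leaf K2_ok TP_l5130 _)
     (CovZ.leaf K2_ok TP_l5131 _))
    (CovZ.n1 (11520, 10240) (by decide +kernel)
     (CovZ.n2 (10880, 10880) (by decide +kernel)
      (CovZ.leaf K2_ok TP_l5132 _)
      (CovZ.leaf K2_ok TP_l5133 _))
     (CovZ.leaf K2_ok TP_l5134 _))))
    (CovZ.topM TP_LL 324518563329833283700223777964034 (by decide +kernel) (CovZ.n0 (11520, 11520) (by decide +kernel)
    (CovZ.n2 (10240, 11520) (by decide +kernel)
     (CovZ.n2 (10880, 12160) (by decide +kernel)
      (CovZ.leaf K2_ok TP_l5135 _)
      (CovZ.leaf K2_ok TP_l5136 _))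
     (CovZ.n1 (10880, 10880) (by decide +kernel)
      (CovZ.leaf K2_ok TP_l5137 _)
      (CovZ.leaf K2_ok TP_l5138 _)))
    (CovZ.n1 (11520, 12800) (by decide +kernel)
     (CovZ.leaf K2_ok TP_l5139 _)
     (CovZ.n1 (10880, 12160) (by decide +kernel)
      (CovZ.leaf K2_ok TP_l5140 _)
      (CovZ.leaf K2_ok TP_l5141 _)))))

theorem TP_s6_6 : SqZ TP_M TP_L [0, 7, 2, 5] (-2560) (-5120) 2560 6 6 :=
  SqZ.mk (a := 12800) (b := 15360) (c := 10240) (d := 12800) (by norm_num) (by norm_num) (by norm_num) (by norm_num)
    (CovZ.topM TP_LL 1393796575313812148090422357436535377231874 (by decide +kernel) (CovZ.n2 (14080, 11520) (by decide +kernel)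
    (CovZ.leaf K2_ok TP_l5208 _)
    (CovZ.leaf K2_ok TP_l5209 _)))
    (CovZ.topM TP_LL 1393796575313812148090422357436535377231874 (by decide +kernel) (CovZ.n0 (14080, 11520) (by decide +kernel)
    (CovZ.leaf K2_ok TP_l5210 _)
    (CovZ.leaf K2_ok TP_l5211 _)))

theorem TP_s0_7 : SqZ TP_M TP_L [0, 7, 2, 5] (-2560) (-5120) 2560 0 7 :=
  SqZ.mk (a := (-2560)) (b := 0) (c := 12800) (d := 15360) (by norm_num) (by norm_num) (by norm_num) (by norm_num)
    (CovZ.topM TP_LL 174309643104287835225967096240827493515264 (by decide +kernel) (CovZ.n2 (-1280, 14080) (by decide +kernel)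
    (CovZ.n2 (0, 14080) (by decide +kernel)
     (CovZ.badM (by decide +kernel))
     (CovZ.n1 (-640, 14720) (by decide +kernel)
      (CovZ.n2 (0, 14720) (by decide +kernel)
       (CovZ.badM (by decide +kernel))
       (CovZ.n1 (-320, 15040) (by decide +kernel)
        (CovZ.n2 (0, 15040) (by decide +kernel)
         (CovZ.n2 (-160, 14880) (by decide +kernel)
          (CovZ.n2 (-160, 15040) (by decide +kernel)
           (CovZ.n2 (-80, 14960) (by decide +kernel)
            (CovZ.n2 (-160, 14960) (by decide +kernel)
             (CovZ.leaf K2_ok TP_l5232 _)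
             (CovZ.n1 (-120, 14920) (by decide +kernel)
              (CovZ.leaf K2_ok TP_l5233 _)
              (CovZ.n1 (-120, 14960) (by decide +kernel)
               (CovZ.leaf K2_ok TP_l5234 _)
               (CovZ.leaf K2_ok TP_l5235 _))))
            (CovZ.n1 (-80, 15040) (by decide +kernel)
             (CovZ.leaf K2_ok TP_l5236 _)
             (CovZ.leaf K2_ok TP_l5237 _)))
           (CovZ.n1 (-240, 14960) (by decide +kernel)
            (CovZ.n2 (-240, 15040) (by decide +kernel)
             (CovZ.n2 (-200, 15000) (by decide +kernel)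
              (CovZ.badM (by decide +kernel))
              (CovZ.n1 (-200, 15040) (by decide +kernel)
               (CovZ.leaf K2_ok TP_l5238 _)
               (CovZ.badM (by decide +kernel))))
             (CovZ.badM (by decide +kernel)))
            (CovZ.n1 (-160, 14960) (by decide +kernel)
             (CovZ.n2 (-200, 14920) (by decide +kernel)
              (CovZ.n2 (-200, 14960) (by decide +kernel)
               (CovZ.leaf K2_ok TP_l5239 _)
               (CovZ.badM (by decide +kernel)))
              (CovZ.n1 (-160, 14920) (by decide +kernel)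
               (CovZ.leaf K2_ok TP_l5240 _)
               (CovZ.leaf K2_ok TP_l5241 _)))
             (CovZ.n1 (-200, 15000) (by decide +kernel)
              (CovZ.leaf K2_ok TP_l5242 _)
              (CovZ.n1 (-200, 14960) (by decide +kernel)
               (CovZ.badM (by decide +kernel))
               (CovZ.leaf K2_ok TP_l5243 _))))))
          (CovZ.n1 (0, 14880) (by decide +kernel)
           (CovZ.badM (by decide +kernel))
           (CovZ.n1 (-80, 14960) (by decide +kernel)
            (CovZ.leaf K2_ok TP_l5244 _)
            (CovZ.n1 (-80, 14880) (by decide +kernel)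
             (CovZ.n2 (-120, 14920) (by decide +kernel)
              (CovZ.leaf K2_ok TP_l5245 _)
              (CovZ.n1 (-120, 14880) (by decide +kernel)
               (CovZ.leaf K2_ok TP_l5246 _)
               (CovZ.leaf K2_ok TP_l5247 _)))
             (CovZ.leaf K2_ok TP_l5248 _)))))
         (CovZ.n1 (-160, 15200) (by decide +kernel)
          (CovZ.n2 (0, 15200) (by decide +kernel)
           (CovZ.n2 (-80, 15120) (by decide +kernel)
            (CovZ.n2 (-80, 15200) (by decide +kernel)
             (CovZ.leaf K2_ok TP_l5249 _)
             (CovZ.leaf K2_ok TP_l5250 _))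
            (CovZ.leaf K2_ok TP_l5251 _))
           (CovZ.leaf K2_ok TP_l5252 _))
          (CovZ.n1 (-160, 15040) (by decide +kernel)
           (CovZ.n2 (-240, 15120) (by decide +kernel)
            (CovZ.n2 (-160, 15120) (by decide +kernel)
             (CovZ.n2 (-200, 15080) (by decide +kernel)
              (CovZ.n2 (-200, 15120) (by decide +kernel)
               (CovZ.leaf K2_ok TP_l5253 _)
               (CovZ.leaf K2_ok TP_l5254 _))
              (CovZ.leaf K2_ok TP_l5255 _))
             (CovZ.leaf K2_ok TP_l5256 _))
            (CovZ.n1 (-240, 15040) (by decide +kernel)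
             (CovZ.n2 (-280, 15080) (by decide +kernel)
              (CovZ.n2 (-240, 15080) (by decide +kernel)
               (CovZ.badM (by decide +kernel))
               (CovZ.leaf K2_ok TP_l5257 _))
              (CovZ.badM (by decide +kernel)))
             (CovZ.n1 (-200, 15080) (by decide +kernel)
              (CovZ.n2 (-200, 15040) (by decide +kernel)
               (CovZ.badM (by decide +kernel))
               (CovZ.leaf K2_ok TP_l5258 _))
              (CovZ.leaf K2_ok TP_l5259 _))))
           (CovZ.n1 (-80, 15120) (by decide +kernel)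
            (CovZ.n2 (-80, 15040) (by decide +kernel)
             (CovZ.leaf K2_ok TP_l5260 _)
             (CovZ.leaf K2_ok TP_l5261 _))
            (CovZ.leaf K2_ok TP_l5262 _)))))
        (CovZ.n1 (-320, 14720) (by decide +kernel)
         (CovZ.badM (by decide +kernel))
         (CovZ.n1 (-160, 14880) (by decide +kernel)
          (CovZ.badM (by decide +kernel))
          (CovZ.n1 (-320, 14880) (by decide +kernel)
           (CovZ.n2 (-240, 14960) (by decide +kernel)
            (CovZ.n2 (-240, 14880) (by decide +kernel)
             (CovZ.badM (by decide +kernel))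
             (CovZ.n1 (-200, 14920) (by decide +kernel)
              (CovZ.n2 (-200, 14880) (by decide +kernel)
               (CovZ.badM (by decide +kernel))
               (CovZ.leaf K2_ok TP_l5263 _))
              (CovZ.badM (by decide +kernel))))
            (CovZ.badM (by decide +kernel)))
           (CovZ.badM (by decide +kernel)))))))
      (CovZ.badM (by decide +kernel))))
    (CovZ.badM (by decide +kernel))))
    (CovZ.topM TP_LL 174309643104287835225967096240827493515264 (by decide +kernel) (CovZ.n0 (-1280, 14080) (by decide +kernel)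
    (CovZ.badM (by decide +kernel))
    (CovZ.n1 (-1280, 15360) (by decide +kernel)
     (CovZ.n2 (-640, 14720) (by decide +kernel)
      (CovZ.badM (by decide +kernel))
      (CovZ.n1 (-640, 15360) (by decide +kernel)
       (CovZ.n2 (-320, 15040) (by decide +kernel)
        (CovZ.n2 (-640, 15040) (by decide +kernel)
         (CovZ.n2 (-480, 15200) (by decide +kernel)
          (CovZ.n2 (-480, 15040) (by decide +kernel)
           (CovZ.badM (by decide +kernel))
           (CovZ.n1 (-400, 15120) (by decide +kernel)
            (CovZ.n2 (-400, 15040) (by decide +kernel)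
             (CovZ.badM (by decide +kernel))
             (CovZ.n1 (-360, 15080) (by decide +kernel)
              (CovZ.badM (by decide +kernel))
              (CovZ.badM (by decide +kernel))))
            (CovZ.badM (by decide +kernel))))
          (CovZ.badM (by decide +kernel)))
         (CovZ.badM (by decide +kernel)))
        (CovZ.n1 (-320, 15360) (by decide +kernel)
         (CovZ.n2 (-160, 15200) (by decide +kernel)
          (CovZ.n2 (-320, 15200) (by decide +kernel)
           (CovZ.n2 (-240, 15280) (by decide +kernel)
            (CovZ.n2 (-240, 15200) (by decide +kernel)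
             (CovZ.n2 (-280, 15240) (by decide +kernel)
              (CovZ.leaf K2_ok TP_l5264 _)
              (CovZ.n1 (-280, 15200) (by decide +kernel)
               (CovZ.leaf K2_ok TP_l5265 _)
               (CovZ.leaf K2_ok TP_l5266 _)))
             (CovZ.leaf K2_ok TP_l5267 _))
            (CovZ.n1 (-320, 15280) (by decide +kernel)
             (CovZ.leaf K2_ok TP_l5268 _)
             (CovZ.n1 (-280, 15240) (by decide +kernel)
              (CovZ.n2 (-320, 15240) (by decide +kernel)
               (CovZ.leaf K2_ok TP_l5269 _)
               (CovZ.leaf K2_ok TP_l5270 _))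
              (CovZ.leaf K2_ok TP_l5271 _))))
           (CovZ.n1 (-240, 15120) (by decide +kernel)
            (CovZ.n2 (-320, 15120) (by decide +kernel)
             (CovZ.n2 (-280, 15160) (by decide +kernel)
              (CovZ.n2 (-280, 15120) (by decide +kernel)
               (CovZ.n2 (-300, 15140) (by decide +kernel)
                (CovZ.leaf K2_ok TP_l5272 _)
                (CovZ.leaf K2_ok TP_l5273 _))
               (CovZ.leaf K2_ok TP_l5274 _))
              (CovZ.n1 (-320, 15160) (by decide +kernel)
               (CovZ.leaf K2_ok TP_l5275 _)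
               (CovZ.n1 (-300, 15140) (by decide +kernel)
                (CovZ.leaf K2_ok TP_l5276 _)
                (CovZ.leaf K2_ok TP_l5277 _))))
             (CovZ.n1 (-280, 15080) (by decide +kernel)
              (CovZ.n2 (-320, 15080) (by decide +kernel)
               (CovZ.n2 (-300, 15100) (by decide +kernel)
                (CovZ.n2 (-300, 15080) (by decide +kernel)
                 (CovZ.leaf K2_ok TP_l5278 _)
                 (CovZ.leaf K2_ok TP_l5279 _))
                (CovZ.leaf K2_ok TP_l5280 _))
               (CovZ.badM (by decide +kernel)))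
              (CovZ.n1 (-280, 15120) (by decide +kernel)
               (CovZ.leaf K2_ok TP_l5281 _)
               (CovZ.n1 (-300, 15100) (by decide +kernel)
                (CovZ.n2 (-300, 15120) (by decide +kernel)
                 (CovZ.leaf K2_ok TP_l5282 _)
                 (CovZ.leaf K2_ok TP_l5283 _))
                (CovZ.leaf K2_ok TP_l5284 _)))))
            (CovZ.n1 (-240, 15200) (by decide +kernel)
             (CovZ.leaf K2_ok TP_l5285 _)
             (CovZ.n1 (-280, 15160) (by decide +kernel)
              (CovZ.n2 (-280, 15200) (by decide +kernel)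
               (CovZ.leaf K2_ok TP_l5286 _)
               (CovZ.leaf K2_ok TP_l5287 _))
              (CovZ.leaf K2_ok TP_l5288 _)))))
          (CovZ.n1 (-160, 15360) (by decide +kernel)
           (CovZ.leaf K2_ok TP_l5289 _)
           (CovZ.n1 (-240, 15280) (by decide +kernel)
            (CovZ.n2 (-240, 15360) (by decide +kernel)
             (CovZ.leaf K2_ok TP_l5290 _)
             (CovZ.leaf K2_ok TP_l5291 _))
            (CovZ.n1 (-160, 15280) (by decide +kernel)
             (CovZ.leaf K2_ok TP_l5292 _)
             (CovZ.leaf K2_ok TP_l5293 _)))))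
         (CovZ.n1 (-480, 15200) (by decide +kernel)
          (CovZ.n2 (-480, 15360) (by decide +kernel)
           (CovZ.n2 (-400, 15280) (by decide +kernel)
            (CovZ.n2 (-480, 15280) (by decide +kernel)
             (CovZ.n2 (-440, 15320) (by decide +kernel)
              (CovZ.n2 (-440, 15280) (by decide +kernel)
               (CovZ.badM (by decide +kernel))
               (CovZ.n1 (-420, 15300) (by decide +kernel)
                (CovZ.n2 (-420, 15280) (by decide +kernel)
                 (CovZ.badM (by decide +kernel))
                 (CovZ.leaf K2_ok TP_l5294 _))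
                (CovZ.badM (by decide +kernel))))
              (CovZ.badM (by decide +kernel)))
             (CovZ.n1 (-440, 15240) (by decide +kernel)
              (CovZ.badM (by decide +kernel))
              (CovZ.n1 (-440, 15280) (by decide +kernel)
               (CovZ.n2 (-420, 15260) (by decide +kernel)
                (CovZ.badM (by decide +kernel))
                (CovZ.n1 (-420, 15280) (by decide +kernel)
                 (CovZ.n2 (-410, 15270) (by decide +kernel)
                  (CovZ.badM (by decide +kernel))
                  (CovZ.leaf K2_ok TP_l5295 _))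
                 (CovZ.badM (by decide +kernel))))
               (CovZ.badM (by decide +kernel)))))
            (CovZ.n1 (-400, 15360) (by decide +kernel)
             (CovZ.n2 (-360, 15320) (by decide +kernel)
              (CovZ.n2 (-400, 15320) (by decide +kernel)
               (CovZ.leaf K2_ok TP_l5296 _)
               (CovZ.leaf K2_ok TP_l5297 _))
              (CovZ.leaf K2_ok TP_l5298 _))
             (CovZ.n1 (-440, 15320) (by decide +kernel)
              (CovZ.n2 (-440, 15360) (by decide +kernel)
               (CovZ.n2 (-420, 15340) (by decide +kernel)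
                (CovZ.badM (by decide +kernel))
                (CovZ.leaf K2_ok TP_l5299 _))
               (CovZ.badM (by decide +kernel)))
              (CovZ.n1 (-400, 15320) (by decide +kernel)
               (CovZ.n2 (-420, 15300) (by decide +kernel)
                (CovZ.n2 (-420, 15320) (by decide +kernel)
                 (CovZ.leaf K2_ok TP_l5300 _)
                 (CovZ.badM (by decide +kernel)))
                (CovZ.n1 (-400, 15300) (by decide +kernel)
                 (CovZ.leaf K2_ok TP_l5301 _)
                 (CovZ.leaf K2_ok TP_l5302 _)))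
               (CovZ.n1 (-420, 15340) (by decide +kernel)
                (CovZ.leaf K2_ok TP_l5303 _)
                (CovZ.n1 (-420, 15320) (by decide +kernel)
                 (CovZ.badM (by decide +kernel))
                 (CovZ.leaf K2_ok TP_l5304 _)))))))
           (CovZ.badM (by decide +kernel)))
          (CovZ.n1 (-320, 15200) (by decide +kernel)
           (CovZ.n2 (-400, 15120) (by decide +kernel)
            (CovZ.n2 (-400, 15200) (by decide +kernel)
             (CovZ.n2 (-360, 15160) (by decide +kernel)
              (CovZ.badM (by decide +kernel))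
              (CovZ.n1 (-360, 15200) (by decide +kernel)
               (CovZ.n2 (-340, 15180) (by decide +kernel)
                (CovZ.badM (by decide +kernel))
                (CovZ.n1 (-340, 15200) (by decide +kernel)
                 (CovZ.leaf K2_ok TP_l5305 _)
                 (CovZ.badM (by decide +kernel))))
               (CovZ.badM (by decide +kernel))))
             (CovZ.badM (by decide +kernel)))
            (CovZ.n1 (-320, 15120) (by decide +kernel)
             (CovZ.n2 (-360, 15080) (by decide +kernel)
              (CovZ.n2 (-360, 15120) (by decide +kernel)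
               (CovZ.n2 (-340, 15100) (by decide +kernel)
                (CovZ.badM (by decide +kernel))
                (CovZ.n1 (-340, 15120) (by decide +kernel)
                 (CovZ.leaf K2_ok TP_l5306 _)
                 (CovZ.badM (by decide +kernel))))
               (CovZ.badM (by decide +kernel)))
              (CovZ.n1 (-320, 15080) (by decide +kernel)
               (CovZ.badM (by decide +kernel))
               (CovZ.n1 (-340, 15100) (by decide +kernel)
                (CovZ.n2 (-320, 15100) (by decide +kernel)
                 (CovZ.n2 (-330, 15090) (by decide +kernel)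
                  (CovZ.n2 (-330, 15100) (by decide +kernel)
                   (CovZ.leaf K2_ok TP_l5307 _)
                   (CovZ.leaf K2_ok TP_l5308 _))
                  (CovZ.leaf K2_ok TP_l5309 _))
                 (CovZ.n1 (-330, 15110) (by decide +kernel)
                  (CovZ.leaf K2_ok TP_l5310 _)
                  (CovZ.leaf K2_ok TP_l5311 _)))
                (CovZ.n1 (-340, 15080) (by decide +kernel)
                 (CovZ.badM (by decide +kernel))
                 (CovZ.n1 (-330, 15090) (by decide +kernel)
                  (CovZ.n2 (-330, 15080) (by decide +kernel)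
                   (CovZ.leaf K2_ok TP_l5312 _)
                   (CovZ.leaf K2_ok TP_l5313 _))
                  (CovZ.leaf K2_ok TP_l5314 _))))))
             (CovZ.n1 (-360, 15160) (by decide +kernel)
              (CovZ.n2 (-320, 15160) (by decide +kernel)
               (CovZ.n2 (-340, 15140) (by decide +kernel)
                (CovZ.n2 (-340, 15160) (by decide +kernel)
                 (CovZ.leaf K2_ok TP_l5315 _)
                 (CovZ.badM (by decide +kernel)))
                (CovZ.leaf K2_ok TP_l5316 _))
               (CovZ.n1 (-340, 15180) (by decide +kernel)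
                (CovZ.leaf K2_ok TP_l5317 _)
                (CovZ.leaf K2_ok TP_l5318 _)))
              (CovZ.n1 (-360, 15120) (by decide +kernel)
               (CovZ.badM (by decide +kernel))
               (CovZ.n1 (-340, 15140) (by decide +kernel)
                (CovZ.n2 (-340, 15120) (by decide +kernel)
                 (CovZ.badM (by decide +kernel))
                 (CovZ.leaf K2_ok TP_l5319 _))
                (CovZ.badM (by decide +kernel)))))))
           (CovZ.n1 (-400, 15280) (by decide +kernel)
            (CovZ.n2 (-320, 15280) (by decide +kernel)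
             (CovZ.n2 (-360, 15240) (by decide +kernel)
              (CovZ.n2 (-360, 15280) (by decide +kernel)
               (CovZ.leaf K2_ok TP_l5320 _)
               (CovZ.n1 (-380, 15260) (by decide +kernel)
                (CovZ.leaf K2_ok TP_l5321 _)
                (CovZ.leaf K2_ok TP_l5322 _)))
              (CovZ.n1 (-320, 15240) (by decide +kernel)
               (CovZ.n2 (-340, 15220) (by decide +kernel)
                (CovZ.leaf K2_ok TP_l5323 _)
                (CovZ.leaf K2_ok TP_l5324 _))
               (CovZ.leaf K2_ok TP_l5325 _)))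
             (CovZ.n1 (-360, 15320) (by decide +kernel)
              (CovZ.leaf K2_ok TP_l5326 _)
              (CovZ.n1 (-360, 15280) (by decide +kernel)
               (CovZ.n2 (-380, 15300) (by decide +kernel)
                (CovZ.leaf K2_ok TP_l5327 _)
                (CovZ.leaf K2_ok TP_l5328 _))
               (CovZ.leaf K2_ok TP_l5329 _))))
            (CovZ.n1 (-400, 15200) (by decide +kernel)
             (CovZ.n2 (-440, 15240) (by decide +kernel)
              (CovZ.n2 (-400, 15240) (by decide +kernel)
               (CovZ.badM (by decide +kernel))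
               (CovZ.n1 (-420, 15260) (by decide +kernel)
                (CovZ.n2 (-400, 15260) (by decide +kernel)
                 (CovZ.n2 (-410, 15250) (by decide +kernel)
                  (CovZ.leaf K2_ok TP_l5330 _)
                  (CovZ.leaf K2_ok TP_l5331 _))
                 (CovZ.leaf K2_ok TP_l5332 _))
                (CovZ.n1 (-420, 15240) (by decide +kernel)
                 (CovZ.badM (by decide +kernel))
                 (CovZ.n1 (-410, 15250) (by decide +kernel)
                  (CovZ.n2 (-410, 15240) (by decide +kernel)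
                   (CovZ.badM (by decide +kernel))
                   (CovZ.leaf K2_ok TP_l5333 _))
                  (CovZ.badM (by decide +kernel))))))
              (CovZ.badM (by decide +kernel)))
             (CovZ.n1 (-360, 15240) (by decide +kernel)
              (CovZ.n2 (-360, 15200) (by decide +kernel)
               (CovZ.badM (by decide +kernel))
               (CovZ.n1 (-340, 15220) (by decide +kernel)
                (CovZ.leaf K2_ok TP_l5334 _)
                (CovZ.badM (by decide +kernel))))
              (CovZ.n1 (-400, 15240) (by decide +kernel)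
               (CovZ.n2 (-380, 15260) (by decide +kernel)
                (CovZ.n2 (-380, 15240) (by decide +kernel)
                 (CovZ.leaf K2_ok TP_l5335 _)
                 (CovZ.leaf K2_ok TP_l5336 _))
                (CovZ.n1 (-400, 15260) (by decide +kernel)
                 (CovZ.leaf K2_ok TP_l5337 _)
                 (CovZ.leaf K2_ok TP_l5338 _)))
               (CovZ.badM (by decide +kernel))))))))))
       (CovZ.badM (by decide +kernel))))
     (CovZ.badM (by decide +kernel)))))

theorem TP_s1_7 : SqZ TP_M TP_L [0, 7, 2, 5] (-2560) (-5120) 2560 1 7 :=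
  SqZ.mk (a := 0) (b := 2560) (c := 12800) (d := 15360) (by norm_num) (by norm_num) (by norm_num) (by norm_num)
    (CovZ.topM TP_LL 174309643144852654433270437370196972797952 (by decide +kernel) (CovZ.n2 (1280, 14080) (by decide +kernel)
    (CovZ.badM (by decide +kernel))
    (CovZ.badM (by decide +kernel))))
    (CovZ.topM TP_LL 174309643144852654433270437370196972797952 (by decide +kernel) (CovZ.n0 (1280, 14080) (by decide +kernel)
    TP_u47
    TP_u48))

theorem TP_s2_7 : SqZ TP_M TP_L [0, 7, 2, 5] (-2560) (-5120) 2560 2 7 :=
  SqZ.mk (a := 2560) (b := 5120) (c := 12800) (d := 15360) (by norm_num) (by norm_num) (by norm_num) (by norm_num)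
    (CovZ.topM TP_LL 0 (by decide +kernel) (CovZ.badM (by decide +kernel)))
    (CovZ.topM TP_LL 0 (by decide +kernel) (CovZ.badM (by decide +kernel)))

theorem TP_s3_7 : SqZ TP_M TP_L [0, 7, 2, 5] (-2560) (-5120) 2560 3 7 :=
  SqZ.mk (a := 5120) (b := 7680) (c := 12800) (d := 15360) (by norm_num) (by norm_num) (by norm_num) (by norm_num)
    (CovZ.topM TP_LL 9671406556917033397649408 (by decide +kernel) (CovZ.n2 (6400, 14080) (by decide +kernel)
    (CovZ.n2 (7680, 14080) (by decide +kernel)
     (CovZ.n2 (7040, 13440) (by decide +kernel)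
      (CovZ.n2 (7040, 14080) (by decide +kernel)
       (CovZ.n2 (7360, 13760) (by decide +kernel)
        (CovZ.badM (by decide +kernel))
        (CovZ.n1 (7360, 14080) (by decide +kernel)
         (CovZ.n2 (7520, 13920) (by decide +kernel)
          (CovZ.n2 (7360, 13920) (by decide +kernel)
           (CovZ.leaf K2_ok TP_l4655 _)
           (CovZ.leaf K2_ok TP_l4656 _))
          (CovZ.n1 (7520, 14080) (by decide +kernel)
           (CovZ.leaf K2_ok TP_l4657 _)
           (CovZ.leaf K2_ok TP_l4658 _)))
         (CovZ.badM (by decide +kernel))))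
       (CovZ.badM (by decide +kernel)))
      (CovZ.n1 (7680, 13440) (by decide +kernel)
       (CovZ.n2 (7360, 13120) (by decide +kernel)
        (CovZ.n2 (7360, 13440) (by decide +kernel)
         (CovZ.n2 (7520, 13280) (by decide +kernel)
          (CovZ.n2 (7360, 13280) (by decide +kernel)
           (CovZ.leaf K2_ok TP_l4659 _)
           (CovZ.leaf K2_ok TP_l4660 _))
          (CovZ.n1 (7520, 13440) (by decide +kernel)
           (CovZ.leaf K2_ok TP_l4661 _)
           (CovZ.leaf K2_ok TP_l4662 _)))
         (CovZ.badM (by decide +kernel)))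
        (CovZ.n1 (7680, 13120) (by decide +kernel)
         (CovZ.n2 (7520, 12960) (by decide +kernel)
          (CovZ.n2 (7520, 13120) (by decide +kernel)
           (CovZ.leaf K2_ok TP_l4663 _)
           (CovZ.leaf K2_ok TP_l4664 _))
          (CovZ.n1 (7680, 12960) (by decide +kernel)
           (CovZ.leaf K2_ok TP_l4665 _)
           (CovZ.leaf K2_ok TP_l4666 _)))
         (CovZ.n1 (7520, 13280) (by decide +kernel)
          (CovZ.n2 (7680, 13280) (by decide +kernel)
           (CovZ.leaf K2_ok TP_l4667 _)
           (CovZ.leaf K2_ok TP_l4668 _))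
          (CovZ.n1 (7520, 13120) (by decide +kernel)
           (CovZ.leaf K2_ok TP_l4669 _)
           (CovZ.leaf K2_ok TP_l4670 _)))))
       (CovZ.n1 (7360, 13760) (by decide +kernel)
        (CovZ.n2 (7680, 13760) (by decide +kernel)
         (CovZ.n2 (7520, 13600) (by decide +kernel)
          (CovZ.n2 (7520, 13760) (by decide +kernel)
           (CovZ.leaf K2_ok TP_l4671 _)
           (CovZ.leaf K2_ok TP_l4672 _))
          (CovZ.n1 (7680, 13600) (by decide +kernel)
           (CovZ.leaf K2_ok TP_l4673 _)
           (CovZ.leaf K2_ok TP_l4674 _)))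
         (CovZ.n1 (7520, 13920) (by decide +kernel)
          (CovZ.n2 (7680, 13920) (by decide +kernel)
           (CovZ.leaf K2_ok TP_l4675 _)
           (CovZ.leaf K2_ok TP_l4676 _))
          (CovZ.n1 (7520, 13760) (by decide +kernel)
           (CovZ.leaf K2_ok TP_l4677 _)
           (CovZ.leaf K2_ok TP_l4678 _))))
        (CovZ.n1 (7360, 13440) (by decide +kernel)
         (CovZ.badM (by decide +kernel))
         (CovZ.n1 (7520, 13600) (by decide +kernel)
          (CovZ.n2 (7520, 13440) (by decide +kernel)
           (CovZ.leaf K2_ok TP_l4679 _)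
           (CovZ.leaf K2_ok TP_l4680 _))
          (CovZ.n1 (7360, 13600) (by decide +kernel)
           (CovZ.leaf K2_ok TP_l4681 _)
           (CovZ.leaf K2_ok TP_l4682 _)))))))
     (CovZ.n1 (7040, 14720) (by decide +kernel)
      (CovZ.n2 (7680, 14720) (by decide +kernel)
       (CovZ.n2 (7360, 14400) (by decide +kernel)
        (CovZ.n2 (7360, 14720) (by decide +kernel)
         (CovZ.n2 (7520, 14560) (by decide +kernel)
          (CovZ.n2 (7360, 14560) (by decide +kernel)
           (CovZ.leaf K2_ok TP_l4683 _)
           (CovZ.n1 (7440, 14480) (by decide +kernel)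
            (CovZ.leaf K2_ok TP_l4684 _)
            (CovZ.leaf K2_ok TP_l4685 _)))
          (CovZ.n1 (7520, 14720) (by decide +kernel)
           (CovZ.leaf K2_ok TP_l4686 _)
           (CovZ.leaf K2_ok TP_l4687 _)))
         (CovZ.badM (by decide +kernel)))
        (CovZ.n1 (7680, 14400) (by decide +kernel)
         (CovZ.n2 (7520, 14240) (by decide +kernel)
          (CovZ.n2 (7520, 14400) (by decide +kernel)
           (CovZ.leaf K2_ok TP_l4688 _)
           (CovZ.leaf K2_ok TP_l4689 _))
          (CovZ.n1 (7680, 14240) (by decide +kernel)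
           (CovZ.leaf K2_ok TP_l4690 _)
           (CovZ.leaf K2_ok TP_l4691 _)))
         (CovZ.n1 (7520, 14560) (by decide +kernel)
          (CovZ.n2 (7680, 14560) (by decide +kernel)
           (CovZ.leaf K2_ok TP_l4692 _)
           (CovZ.leaf K2_ok TP_l4693 _))
          (CovZ.n1 (7520, 14400) (by decide +kernel)
           (CovZ.n2 (7440, 14480) (by decide +kernel)
            (CovZ.leaf K2_ok TP_l4694 _)
            (CovZ.leaf K2_ok TP_l4695 _))
           (CovZ.leaf K2_ok TP_l4696 _)))))
       (CovZ.n1 (7360, 15040) (by decide +kernel)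
        (CovZ.n2 (7680, 15040) (by decide +kernel)
         (CovZ.n2 (7520, 14880) (by decide +kernel)
          (CovZ.leaf K2_ok TP_l4697 _)
          (CovZ.leaf K2_ok TP_l4698 _))
         (CovZ.leaf K2_ok TP_l4699 _))
        (CovZ.n1 (7360, 14720) (by decide +kernel)
         (CovZ.badM (by decide +kernel))
         (CovZ.n1 (7520, 14880) (by decide +kernel)
          (CovZ.leaf K2_ok TP_l4700 _)
          (CovZ.n1 (7360, 14880) (by decide +kernel)
           (CovZ.leaf K2_ok TP_l4701 _)
           (CovZ.leaf K2_ok TP_l4702 _))))))
      (CovZ.n1 (7040, 14080) (by decide +kernel)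
       (CovZ.badM (by decide +kernel))
       (CovZ.n1 (7360, 14400) (by decide +kernel)
        (CovZ.n2 (7360, 14080) (by decide +kernel)
         (CovZ.badM (by decide +kernel))
         (CovZ.n1 (7520, 14240) (by decide +kernel)
          (CovZ.n2 (7520, 14080) (by decide +kernel)
           (CovZ.n2 (7440, 14160) (by decide +kernel)
            (CovZ.leaf K2_ok TP_l4703 _)
            (CovZ.leaf K2_ok TP_l4704 _))
           (CovZ.leaf K2_ok TP_l4705 _))
          (CovZ.n1 (7360, 14240) (by decide +kernel)
           (CovZ.n2 (7440, 14320) (by decide +kernel)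
            (CovZ.leaf K2_ok TP_l4706 _)
            (CovZ.leaf K2_ok TP_l4707 _))
           (CovZ.leaf K2_ok TP_l4708 _))))
        (CovZ.badM (by decide +kernel))))))
    (CovZ.n1 (6400, 12800) (by decide +kernel)
     (CovZ.badM (by decide +kernel))
     (CovZ.n1 (7040, 13440) (by decide +kernel)
      (CovZ.n2 (7040, 12800) (by decide +kernel)
       (CovZ.badM (by decide +kernel))
       (CovZ.n1 (7360, 13120) (by decide +kernel)
        (CovZ.n2 (7360, 12800) (by decide +kernel)
         (CovZ.badM (by decide +kernel))
         (CovZ.n1 (7520, 12960) (by decide +kernel)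
          (CovZ.n2 (7520, 12800) (by decide +kernel)
           (CovZ.leaf K2_ok TP_l4709 _)
           (CovZ.leaf K2_ok TP_l4710 _))
          (CovZ.n1 (7360, 12960) (by decide +kernel)
           (CovZ.leaf K2_ok TP_l4711 _)
           (CovZ.leaf K2_ok TP_l4712 _))))
        (CovZ.badM (by decide +kernel))))
      (CovZ.badM (by decide +kernel))))))
    (CovZ.topM TP_LL 9671406556917033397649408 (by decide +kernel) (CovZ.n0 (6400, 14080) (by decide +kernel)
    (CovZ.badM (by decide +kernel))
    (CovZ.n1 (6400, 15360) (by decide +kernel)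
     (CovZ.n2 (7040, 14720) (by decide +kernel)
      (CovZ.badM (by decide +kernel))
      (CovZ.n1 (7040, 15360) (by decide +kernel)
       (CovZ.n2 (7360, 15040) (by decide +kernel)
        (CovZ.badM (by decide +kernel))
        (CovZ.n1 (7360, 15360) (by decide +kernel)
         (CovZ.leaf K2_ok TP_l4713 _)
         (CovZ.badM (by decide +kernel))))
       (CovZ.badM (by decide +kernel))))
     (CovZ.badM (by decide +kernel)))))

theorem TP_s4_7 : SqZ TP_M TP_L [0, 7, 2, 5] (-2560) (-5120) 2560 4 7 :=
  SqZ.mk (a := 7680) (b := 10240) (c := 12800) (d := 15360) (by norm_num) (by norm_num) (by norm_num) (by norm_num)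
    (CovZ.topM TP_LL 9671406556917033397649410 (by decide +kernel) (CovZ.n2 (8960, 14080) (by decide +kernel)
    (CovZ.n2 (10240, 14080) (by decide +kernel)
     (CovZ.n2 (9600, 13440) (by decide +kernel)
      (CovZ.n2 (9600, 14080) (by decide +kernel)
       (CovZ.leaf K2_ok TP_l4906 _)
       (CovZ.leaf K2_ok TP_l4907 _))
      (CovZ.n1 (10240, 13440) (by decide +kernel)
       (CovZ.leaf K2_ok TP_l4908 _)
       (CovZ.leaf K2_ok TP_l4909 _)))
     (CovZ.n1 (9600, 14720) (by decide +kernel)
      (CovZ.n2 (10240, 14720) (by decide +kernel)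
       (CovZ.leaf K2_ok TP_l4910 _)
       (CovZ.leaf K2_ok TP_l4911 _))
      (CovZ.n1 (9600, 14080) (by decide +kernel)
       (CovZ.n2 (9280, 14400) (by decide +kernel)
        (CovZ.leaf K2_ok TP_l4912 _)
        (CovZ.leaf K2_ok TP_l4913 _))
       (CovZ.leaf K2_ok TP_l4914 _))))
    (CovZ.n1 (8960, 12800) (by decide +kernel)
     (CovZ.n2 (8320, 13440) (by decide +kernel)
      (CovZ.n2 (8960, 13440) (by decide +kernel)
       (CovZ.n2 (8640, 13120) (by decide +kernel)
        (CovZ.leaf K2_ok TP_l4915 _)
        (CovZ.leaf K2_ok TP_l4916 _))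
       (CovZ.n1 (8640, 13760) (by decide +kernel)
        (CovZ.leaf K2_ok TP_l4917 _)
        (CovZ.leaf K2_ok TP_l4918 _)))
      (CovZ.n1 (8320, 12800) (by decide +kernel)
       (CovZ.n2 (8000, 13120) (by decide +kernel)
        (CovZ.n2 (8320, 13120) (by decide +kernel)
         (CovZ.leaf K2_ok TP_l4919 _)
         (CovZ.leaf K2_ok TP_l4920 _))
        (CovZ.n1 (8000, 12800) (by decide +kernel)
         (CovZ.n2 (7840, 12960) (by decide +kernel)
          (CovZ.leaf K2_ok TP_l4921 _)
          (CovZ.leaf K2_ok TP_l4922 _))
         (CovZ.leaf K2_ok TP_l4923 _)))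
       (CovZ.n1 (8640, 13120) (by decide +kernel)
        (CovZ.leaf K2_ok TP_l4924 _)
        (CovZ.n1 (8320, 13120) (by decide +kernel)
         (CovZ.leaf K2_ok TP_l4925 _)
         (CovZ.leaf K2_ok TP_l4926 _)))))
     (CovZ.n1 (9600, 13440) (by decide +kernel)
      (CovZ.n2 (9600, 12800) (by decide +kernel)
       (CovZ.leaf K2_ok TP_l4927 _)
       (CovZ.leaf K2_ok TP_l4928 _))
      (CovZ.n1 (8960, 13440) (by decide +kernel)
       (CovZ.n2 (9280, 13760) (by decide +kernel)
        (CovZ.leaf K2_ok TP_l4929 _)
        (CovZ.leaf K2_ok TP_l4930 _))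
       (CovZ.leaf K2_ok TP_l4931 _))))))
    (CovZ.topM TP_LL 9671406556917033397649410 (by decide +kernel) (CovZ.n0 (8960, 14080) (by decide +kernel)
    (CovZ.n2 (7680, 14080) (by decide +kernel)
     (CovZ.n2 (8320, 14720) (by decide +kernel)
      (CovZ.n2 (8320, 14080) (by decide +kernel)
       (CovZ.n2 (8000, 14400) (by decide +kernel)
        (CovZ.n2 (8320, 14400) (by decide +kernel)
         (CovZ.leaf K2_ok TP_l4932 _)
         (CovZ.leaf K2_ok TP_l4933 _))
        (CovZ.n1 (8000, 14080) (by decide +kernel)
         (CovZ.n2 (7840, 14240) (by decide +kernel)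
          (CovZ.leaf K2_ok TP_l4934 _)
          (CovZ.n1 (7840, 14080) (by decide +kernel)
           (CovZ.leaf K2_ok TP_l4935 _)
           (CovZ.leaf K2_ok TP_l4936 _)))
         (CovZ.leaf K2_ok TP_l4937 _)))
       (CovZ.n1 (8640, 14400) (by decide +kernel)
        (CovZ.n2 (8640, 14080) (by decide +kernel)
         (CovZ.leaf K2_ok TP_l4938 _)
         (CovZ.leaf K2_ok TP_l4939 _))
        (CovZ.n1 (8320, 14400) (by decide +kernel)
         (CovZ.leaf K2_ok TP_l4940 _)
         (CovZ.leaf K2_ok TP_l4941 _))))
      (CovZ.n1 (7680, 14720) (by decide +kernel)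
       (CovZ.n2 (8000, 15040) (by decide +kernel)
        (CovZ.n2 (8000, 14720) (by decide +kernel)
         (CovZ.leaf K2_ok TP_l4942 _)
         (CovZ.leaf K2_ok TP_l4943 _))
        (CovZ.n1 (7680, 15040) (by decide +kernel)
         (CovZ.leaf K2_ok TP_l4944 _)
         (CovZ.leaf K2_ok TP_l4945 _)))
       (CovZ.n1 (8000, 14400) (by decide +kernel)
        (CovZ.n2 (7680, 14400) (by decide +kernel)
         (CovZ.n2 (7840, 14560) (by decide +kernel)
          (CovZ.leaf K2_ok TP_l4946 _)
          (CovZ.leaf K2_ok TP_l4947 _))
         (CovZ.n1 (7840, 14240) (by decide +kernel)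
          (CovZ.leaf K2_ok TP_l4948 _)
          (CovZ.leaf K2_ok TP_l4949 _)))
        (CovZ.n1 (8000, 14720) (by decide +kernel)
         (CovZ.leaf K2_ok TP_l4950 _)
         (CovZ.n1 (7840, 14560) (by decide +kernel)
          (CovZ.leaf K2_ok TP_l4951 _)
          (CovZ.leaf K2_ok TP_l4952 _))))))
     (CovZ.n1 (8320, 13440) (by decide +kernel)
      (CovZ.n2 (7680, 13440) (by decide +kernel)
       (CovZ.n2 (8000, 13760) (by decide +kernel)
        (CovZ.n2 (8000, 13440) (by decide +kernel)
         (CovZ.n2 (7840, 13600) (by decide +kernel)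
          (CovZ.leaf K2_ok TP_l4953 _)
          (CovZ.leaf K2_ok TP_l4954 _))
         (CovZ.leaf K2_ok TP_l4955 _))
        (CovZ.n1 (7680, 13760) (by decide +kernel)
         (CovZ.n2 (7840, 13920) (by decide +kernel)
          (CovZ.leaf K2_ok TP_l4956 _)
          (CovZ.leaf K2_ok TP_l4957 _))
         (CovZ.n1 (7840, 13600) (by decide +kernel)
          (CovZ.leaf K2_ok TP_l4958 _)
          (CovZ.leaf K2_ok TP_l4959 _))))
       (CovZ.n1 (8000, 13120) (by decide +kernel)
        (CovZ.n2 (7680, 13120) (by decide +kernel)
         (CovZ.n2 (7840, 13280) (by decide +kernel)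
          (CovZ.n2 (7840, 13120) (by decide +kernel)
           (CovZ.leaf K2_ok TP_l4960 _)
           (CovZ.leaf K2_ok TP_l4961 _))
          (CovZ.n1 (7680, 13280) (by decide +kernel)
           (CovZ.leaf K2_ok TP_l4962 _)
           (CovZ.leaf K2_ok TP_l4963 _)))
         (CovZ.leaf K2_ok TP_l4964 _))
        (CovZ.n1 (8000, 13440) (by decide +kernel)
         (CovZ.leaf K2_ok TP_l4965 _)
         (CovZ.n1 (7840, 13280) (by decide +kernel)
          (CovZ.leaf K2_ok TP_l4966 _)
          (CovZ.leaf K2_ok TP_l4967 _)))))
      (CovZ.n1 (8320, 14080) (by decide +kernel)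
       (CovZ.n2 (8640, 13760) (by decide +kernel)
        (CovZ.n2 (8320, 13760) (by decide +kernel)
         (CovZ.leaf K2_ok TP_l4968 _)
         (CovZ.leaf K2_ok TP_l4969 _))
        (CovZ.leaf K2_ok TP_l4970 _))
       (CovZ.n1 (8000, 13760) (by decide +kernel)
        (CovZ.n2 (8000, 14080) (by decide +kernel)
         (CovZ.leaf K2_ok TP_l4971 _)
         (CovZ.n1 (7840, 13920) (by decide +kernel)
          (CovZ.leaf K2_ok TP_l4972 _)
          (CovZ.leaf K2_ok TP_l4973 _)))
        (CovZ.n1 (8320, 13760) (by decide +kernel)
         (CovZ.leaf K2_ok TP_l4974 _)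
         (CovZ.leaf K2_ok TP_l4975 _))))))
    (CovZ.n1 (8960, 15360) (by decide +kernel)
     (CovZ.n2 (9600, 14720) (by decide +kernel)
      (CovZ.n2 (8960, 14720) (by decide +kernel)
       (CovZ.leaf K2_ok TP_l4976 _)
       (CovZ.leaf K2_ok TP_l4977 _))
      (CovZ.leaf K2_ok TP_l4978 _))
     (CovZ.n1 (8320, 14720) (by decide +kernel)
      (CovZ.n2 (8320, 15360) (by decide +kernel)
       (CovZ.leaf K2_ok TP_l4979 _)
       (CovZ.n1 (8000, 15040) (by decide +kernel)
        (CovZ.leaf K2_ok TP_l4980 _)
        (CovZ.leaf K2_ok TP_l4981 _)))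
      (CovZ.n1 (8960, 14720) (by decide +kernel)
       (CovZ.n2 (8640, 14400) (by decide +kernel)
        (CovZ.leaf K2_ok TP_l4982 _)
        (CovZ.leaf K2_ok TP_l4983 _))
       (CovZ.n1 (8640, 15040) (by decide +kernel)
        (CovZ.leaf K2_ok TP_l4984 _)
        (CovZ.leaf K2_ok TP_l4985 _)))))))

theorem TP_s5_7 : SqZ TP_M TP_L [0, 7, 2, 5] (-2560) (-5120) 2560 5 7 :=
  SqZ.mk (a := 10240) (b := 12800) (c := 12800) (d := 15360) (by norm_num) (by norm_num) (by norm_num) (by norm_num)
    (CovZ.topM TP_LL 324518563329833283700223777964034 (by decide +kernel) (CovZ.n2 (11520, 14080) (by decide +kernel)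
    (CovZ.n2 (12800, 14080) (by decide +kernel)
     (CovZ.leaf K2_ok TP_l5142 _)
     (CovZ.leaf K2_ok TP_l5143 _))
    (CovZ.n1 (11520, 12800) (by decide +kernel)
     (CovZ.n2 (10880, 13440) (by decide +kernel)
      (CovZ.leaf K2_ok TP_l5144 _)
      (CovZ.leaf K2_ok TP_l5145 _))
     (CovZ.leaf K2_ok TP_l5146 _))))
    (CovZ.topM TP_LL 324518563329833283700223777964034 (by decide +kernel) (CovZ.n0 (11520, 14080) (by decide +kernel)
    (CovZ.n2 (10240, 14080) (by decide +kernel)
     (CovZ.leaf K2_ok TP_l5147 _)
     (CovZ.n1 (10880, 13440) (by decide +kernel)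
      (CovZ.leaf K2_ok TP_l5148 _)
      (CovZ.leaf K2_ok TP_l5149 _)))
    (CovZ.n1 (11520, 15360) (by decide +kernel)
     (CovZ.leaf K2_ok TP_l5150 _)
     (CovZ.leaf K2_ok TP_l5151 _))))

theorem TP_s6_7 : SqZ TP_M TP_L [0, 7, 2, 5] (-2560) (-5120) 2560 6 7 :=
  SqZ.mk (a := 12800) (b := 15360) (c := 12800) (d := 15360) (by norm_num) (by norm_num) (by norm_num) (by norm_num)
    (CovZ.topM TP_LL 1393796575313812148090422357436535377231874 (by decide +kernel) (CovZ.n2 (14080, 14080) (by decide +kernel)
    (CovZ.leaf K2_ok TP_l5212 _)
    (CovZ.leaf K2_ok TP_l5213 _)))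
    (CovZ.topM TP_LL 1393796575313812148090422357436535377231874 (by decide +kernel) (CovZ.n0 (14080, 14080) (by decide +kernel)
    (CovZ.n2 (12800, 14080) (by decide +kernel)
     (CovZ.leaf K2_ok TP_l5214 _)
     (CovZ.leaf K2_ok TP_l5215 _))
    (CovZ.leaf K2_ok TP_l5216 _)))

theorem TP_s0_8 : SqZ TP_M TP_L [0, 7, 2, 5] (-2560) (-5120) 2560 0 8 :=
  SqZ.mk (a := (-2560)) (b := 0) (c := 15360) (d := 17920) (by norm_num) (by norm_num) (by norm_num) (by norm_num)
    (CovZ.topM TP_LL 174309642456127924804947510395971343517696 (by decide +kernel) (CovZ.n2 (-1280, 16640) (by decide +kernel)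
    (CovZ.n2 (0, 16640) (by decide +kernel)
     TP_u51
     TP_u52)
    (CovZ.subM 174309642455256298639290751144925671194624 (by decide +kernel)
     (CovZ.n1 (-1280, 15360) (by decide +kernel)
      (CovZ.badM (by decide +kernel))
      (CovZ.n1 (-640, 16000) (by decide +kernel)
       (CovZ.subM 174309642455250727909113642674515452362752 (by decide +kernel)
        (CovZ.n2 (-640, 15360) (by decide +kernel)
         (CovZ.badM (by decide +kernel))
         (CovZ.n1 (-320, 15680) (by decide +kernel)
          (CovZ.n2 (-320, 15360) (by decide +kernel)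
           TP_u53
           (CovZ.n1 (-160, 15520) (by decide +kernel)
            (CovZ.n2 (-160, 15360) (by decide +kernel)
             (CovZ.n2 (-240, 15440) (by decide +kernel)
              (CovZ.n2 (-160, 15440) (by decide +kernel)
               (CovZ.leaf K2_ok TP_l5640 _)
               (CovZ.leaf K2_ok TP_l5641 _))
              (CovZ.n1 (-240, 15360) (by decide +kernel)
               (CovZ.n2 (-280, 15400) (by decide +kernel)
                (CovZ.leaf K2_ok TP_l5642 _)
                (CovZ.leaf K2_ok TP_l5643 _))
               (CovZ.leaf K2_ok TP_l5644 _)))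
             (CovZ.n1 (-80, 15440) (by decide +kernel)
              (CovZ.leaf K2_ok TP_l5645 _)
              (CovZ.leaf K2_ok TP_l5646 _)))
            (CovZ.n1 (-320, 15520) (by decide +kernel)
             (CovZ.n2 (-240, 15600) (by decide +kernel)
              (CovZ.n2 (-240, 15520) (by decide +kernel)
               (CovZ.n2 (-280, 15560) (by decide +kernel)
                (CovZ.leaf K2_ok TP_l5647 _)
                (CovZ.leaf K2_ok TP_l5648 _))
               (CovZ.leaf K2_ok TP_l5649 _))
              (CovZ.n1 (-320, 15600) (by decide +kernel)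
               (CovZ.leaf K2_ok TP_l5650 _)
               (CovZ.n1 (-280, 15560) (by decide +kernel)
                (CovZ.leaf K2_ok TP_l5651 _)
                (CovZ.leaf K2_ok TP_l5652 _))))
             (CovZ.n1 (-240, 15440) (by decide +kernel)
              (CovZ.n2 (-320, 15440) (by decide +kernel)
               (CovZ.n2 (-280, 15480) (by decide +kernel)
                (CovZ.leaf K2_ok TP_l5653 _)
                (CovZ.leaf K2_ok TP_l5654 _))
               (CovZ.n1 (-280, 15400) (by decide +kernel)
                (CovZ.leaf K2_ok TP_l5655 _)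
                (CovZ.leaf K2_ok TP_l5656 _)))
              (CovZ.n1 (-240, 15520) (by decide +kernel)
               (CovZ.leaf K2_ok TP_l5657 _)
               (CovZ.n1 (-280, 15480) (by decide +kernel)
                (CovZ.leaf K2_ok TP_l5658 _)
                (CovZ.leaf K2_ok TP_l5659 _)))))))
          (CovZ.n1 (-640, 15680) (by decide +kernel)
           (CovZ.n2 (-480, 15840) (by decide +kernel)
            (CovZ.n2 (-480, 15680) (by decide +kernel)
             (CovZ.badM (by decide +kernel))
             (CovZ.n1 (-400, 15760) (by decide +kernel)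
              (CovZ.n2 (-400, 15680) (by decide +kernel)
               (CovZ.n2 (-440, 15720) (by decide +kernel)
                (CovZ.n2 (-400, 15720) (by decide +kernel)
                 (CovZ.n2 (-420, 15700) (by decide +kernel)
                  (CovZ.n2 (-420, 15720) (by decide +kernel)
                   (CovZ.leaf K2_ok TP_l5660 _)
                   (CovZ.badM (by decide +kernel)))
                  (CovZ.leaf K2_ok TP_l5661 _))
                 (CovZ.leaf K2_ok TP_l5662 _))
                (CovZ.n1 (-440, 15680) (by decide +kernel)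
                 (CovZ.badM (by decide +kernel))
                 (CovZ.n1 (-420, 15700) (by decide +kernel)
                  (CovZ.leaf K2_ok TP_l5663 _)
                  (CovZ.badM (by decide +kernel)))))
               (CovZ.n1 (-360, 15720) (by decide +kernel)
                (CovZ.n2 (-360, 15680) (by decide +kernel)
                 (CovZ.leaf K2_ok TP_l5664 _)
                 (CovZ.leaf K2_ok TP_l5665 _))
                (CovZ.leaf K2_ok TP_l5666 _)))
              (CovZ.n1 (-480, 15760) (by decide +kernel)
               (CovZ.n2 (-440, 15800) (by decide +kernel)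
                (CovZ.n2 (-440, 15760) (by decide +kernel)
                 (CovZ.badM (by decide +kernel))
                 (CovZ.leaf K2_ok TP_l5667 _))
                (CovZ.badM (by decide +kernel)))
               (CovZ.n1 (-440, 15720) (by decide +kernel)
                (CovZ.badM (by decide +kernel))
                (CovZ.n1 (-440, 15760) (by decide +kernel)
                 (CovZ.n2 (-420, 15740) (by decide +kernel)
                  (CovZ.badM (by decide +kernel))
                  (CovZ.leaf K2_ok TP_l5668 _))
                 (CovZ.badM (by decide +kernel)))))))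
            (CovZ.badM (by decide +kernel)))
           (CovZ.n1 (-480, 15520) (by decide +kernel)
            (CovZ.badM (by decide +kernel))
            (CovZ.n1 (-480, 15680) (by decide +kernel)
             (CovZ.n2 (-400, 15600) (by decide +kernel)
              (CovZ.n2 (-480, 15600) (by decide +kernel)
               (CovZ.n2 (-440, 15640) (by decide +kernel)
                (CovZ.n2 (-440, 15600) (by decide +kernel)
                 (CovZ.badM (by decide +kernel))
                 (CovZ.n1 (-420, 15620) (by decide +kernel)
                  (CovZ.n2 (-420, 15600) (by decide +kernel)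
                   (CovZ.badM (by decide +kernel))
                   (CovZ.leaf K2_ok TP_l5669 _))
                  (CovZ.badM (by decide +kernel))))
                (CovZ.badM (by decide +kernel)))
               (CovZ.n1 (-440, 15560) (by decide +kernel)
                (CovZ.badM (by decide +kernel))
                (CovZ.n1 (-440, 15600) (by decide +kernel)
                 (CovZ.n2 (-420, 15580) (by decide +kernel)
                  (CovZ.badM (by decide +kernel))
                  (CovZ.n1 (-420, 15600) (by decide +kernel)
                   (CovZ.leaf K2_ok TP_l5670 _)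
                   (CovZ.badM (by decide +kernel))))
                 (CovZ.badM (by decide +kernel)))))
              (CovZ.n1 (-400, 15680) (by decide +kernel)
               (CovZ.n2 (-360, 15640) (by decide +kernel)
                (CovZ.n2 (-400, 15640) (by decide +kernel)
                 (CovZ.leaf K2_ok TP_l5671 _)
                 (CovZ.n1 (-380, 15620) (by decide +kernel)
                  (CovZ.leaf K2_ok TP_l5672 _)
                  (CovZ.leaf K2_ok TP_l5673 _)))
                (CovZ.n1 (-360, 15680) (by decide +kernel)
                 (CovZ.leaf K2_ok TP_l5674 _)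
                 (CovZ.leaf K2_ok TP_l5675 _)))
               (CovZ.n1 (-440, 15640) (by decide +kernel)
                (CovZ.n2 (-440, 15680) (by decide +kernel)
                 (CovZ.n2 (-420, 15660) (by decide +kernel)
                  (CovZ.badM (by decide +kernel))
                  (CovZ.n1 (-420, 15680) (by decide +kernel)
                   (CovZ.leaf K2_ok TP_l5676 _)
                   (CovZ.badM (by decide +kernel))))
                 (CovZ.badM (by decide +kernel)))
                (CovZ.n1 (-400, 15640) (by decide +kernel)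
                 (CovZ.n2 (-420, 15620) (by decide +kernel)
                  (CovZ.n2 (-420, 15640) (by decide +kernel)
                   (CovZ.leaf K2_ok TP_l5677 _)
                   (CovZ.badM (by decide +kernel)))
                  (CovZ.leaf K2_ok TP_l5678 _))
                 (CovZ.n1 (-420, 15660) (by decide +kernel)
                  (CovZ.leaf K2_ok TP_l5679 _)
                  (CovZ.n1 (-420, 15640) (by decide +kernel)
                   (CovZ.badM (by decide +kernel))
                   (CovZ.leaf K2_ok TP_l5680 _)))))))
             (CovZ.badM (by decide +kernel))))))))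
       (CovZ.n1 (-1280, 16000) (by decide +kernel)
        (CovZ.n2 (-960, 16320) (by decide +kernel)
         (CovZ.badM (by decide +kernel))
         (CovZ.badM (by decide +kernel)))
        (CovZ.badM (by decide +kernel))))))))
    (CovZ.topM TP_LL 174309642456127924804947510395971343517696 (by decide +kernel) (CovZ.n0 (-1280, 16640) (by decide +kernel)
    (CovZ.badM (by decide +kernel))
    (CovZ.n1 (-1280, 17920) (by decide +kernel)
     (CovZ.n2 (-640, 17280) (by decide +kernel)
      TP_u54
      TP_u55)
     (CovZ.badM (by decide +kernel)))))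

theorem TP_s1_8 : SqZ TP_M TP_L [0, 7, 2, 5] (-2560) (-5120) 2560 1 8 :=
  SqZ.mk (a := 0) (b := 2560) (c := 15360) (d := 17920) (by norm_num) (by norm_num) (by norm_num) (by norm_num)
    (CovZ.topM TP_LL 174309642496692744012250851525340822800384 (by decide +kernel) (CovZ.n2 (1280, 16640) (by decide +kernel)
    (CovZ.badM (by decide +kernel))
    (CovZ.subM 174309642495821117846594092274295150477312 (by decide +kernel)
     (CovZ.n1 (1280, 15360) (by decide +kernel)
      (CovZ.n2 (640, 16000) (by decide +kernel)
       (CovZ.n2 (1280, 16000) (by decide +kernel)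
        (CovZ.badM (by decide +kernel))
        (CovZ.n1 (960, 16320) (by decide +kernel)
         (CovZ.badM (by decide +kernel))
         (CovZ.badM (by decide +kernel))))
       (CovZ.subM 174309642495815547116416983803884931645440 (by decide +kernel)
        (CovZ.n1 (640, 15360) (by decide +kernel)
         (CovZ.n2 (320, 15680) (by decide +kernel)
          (CovZ.n2 (640, 15680) (by decide +kernel)
           (CovZ.n2 (480, 15520) (by decide +kernel)
            (CovZ.n2 (480, 15680) (by decide +kernel)
             (CovZ.n2 (560, 15600) (by decide +kernel)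
              (CovZ.n2 (480, 15600) (by decide +kernel)
               (CovZ.n2 (520, 15640) (by decide +kernel)
                (CovZ.n2 (520, 15600) (by decide +kernel)
                 (CovZ.leaf K2_ok TP_l7208 _)
                 (CovZ.badM (by decide +kernel)))
                (CovZ.n1 (480, 15640) (by decide +kernel)
                 (CovZ.leaf K2_ok TP_l7209 _)
                 (CovZ.leaf K2_ok TP_l7210 _)))
               (CovZ.n1 (520, 15560) (by decide +kernel)
                (CovZ.n2 (480, 15560) (by decide +kernel)
                 (CovZ.leaf K2_ok TP_l7211 _)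
                 (CovZ.leaf K2_ok TP_l7212 _))
                (CovZ.n1 (520, 15600) (by decide +kernel)
                 (CovZ.badM (by decide +kernel))
                 (CovZ.leaf K2_ok TP_l7213 _))))
              (CovZ.n1 (560, 15680) (by decide +kernel)
               (CovZ.badM (by decide +kernel))
               (CovZ.n1 (520, 15640) (by decide +kernel)
                (CovZ.n2 (520, 15680) (by decide +kernel)
                 (CovZ.badM (by decide +kernel))
                 (CovZ.n1 (500, 15660) (by decide +kernel)
                  (CovZ.leaf K2_ok TP_l7214 _)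
                  (CovZ.leaf K2_ok TP_l7215 _)))
                (CovZ.badM (by decide +kernel)))))
             (CovZ.n1 (400, 15600) (by decide +kernel)
              (CovZ.n2 (400, 15680) (by decide +kernel)
               (CovZ.n2 (440, 15640) (by decide +kernel)
                (CovZ.n2 (400, 15640) (by decide +kernel)
                 (CovZ.leaf K2_ok TP_l7216 _)
                 (CovZ.leaf K2_ok TP_l7217 _))
                (CovZ.n1 (440, 15680) (by decide +kernel)
                 (CovZ.leaf K2_ok TP_l7218 _)
                 (CovZ.leaf K2_ok TP_l7219 _)))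
               (CovZ.leaf K2_ok TP_l7220 _))
              (CovZ.n1 (480, 15600) (by decide +kernel)
               (CovZ.n2 (440, 15560) (by decide +kernel)
                (CovZ.n2 (440, 15600) (by decide +kernel)
                 (CovZ.leaf K2_ok TP_l7221 _)
                 (CovZ.leaf K2_ok TP_l7222 _))
                (CovZ.n1 (480, 15560) (by decide +kernel)
                 (CovZ.leaf K2_ok TP_l7223 _)
                 (CovZ.leaf K2_ok TP_l7224 _)))
               (CovZ.n1 (440, 15640) (by decide +kernel)
                (CovZ.n2 (480, 15640) (by decide +kernel)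
                 (CovZ.leaf K2_ok TP_l7225 _)
                 (CovZ.leaf K2_ok TP_l7226 _))
                (CovZ.leaf K2_ok TP_l7227 _)))))
            (CovZ.n1 (640, 15520) (by decide +kernel)
             (CovZ.n2 (560, 15440) (by decide +kernel)
              (CovZ.n2 (560, 15520) (by decide +kernel)
               (CovZ.badM (by decide +kernel))
               (CovZ.n1 (520, 15480) (by decide +kernel)
                (CovZ.leaf K2_ok TP_l7228 _)
                (CovZ.badM (by decide +kernel))))
              (CovZ.badM (by decide +kernel)))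
             (CovZ.n1 (560, 15600) (by decide +kernel)
              (CovZ.badM (by decide +kernel))
              (CovZ.n1 (560, 15520) (by decide +kernel)
               (CovZ.n2 (520, 15560) (by decide +kernel)
                (CovZ.badM (by decide +kernel))
                (CovZ.n1 (520, 15520) (by decide +kernel)
                 (CovZ.leaf K2_ok TP_l7229 _)
                 (CovZ.badM (by decide +kernel))))
               (CovZ.badM (by decide +kernel))))))
           (CovZ.n1 (480, 15840) (by decide +kernel)
            (CovZ.badM (by decide +kernel))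
            (CovZ.n1 (480, 15680) (by decide +kernel)
             (CovZ.n2 (400, 15760) (by decide +kernel)
              (CovZ.n2 (480, 15760) (by decide +kernel)
               (CovZ.n2 (440, 15720) (by decide +kernel)
                (CovZ.leaf K2_ok TP_l7230 _)
                (CovZ.n1 (480, 15720) (by decide +kernel)
                 (CovZ.leaf K2_ok TP_l7231 _)
                 (CovZ.leaf K2_ok TP_l7232 _)))
               (CovZ.leaf K2_ok TP_l7233 _))
              (CovZ.n1 (400, 15680) (by decide +kernel)
               (CovZ.leaf K2_ok TP_l7234 _)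
               (CovZ.n1 (440, 15720) (by decide +kernel)
                (CovZ.n2 (440, 15680) (by decide +kernel)
                 (CovZ.leaf K2_ok TP_l7235 _)
                 (CovZ.leaf K2_ok TP_l7236 _))
                (CovZ.leaf K2_ok TP_l7237 _))))
             (CovZ.badM (by decide +kernel)))))
          (CovZ.n1 (320, 15360) (by decide +kernel)
           (CovZ.n2 (160, 15520) (by decide +kernel)
            (CovZ.n2 (320, 15520) (by decide +kernel)
             (CovZ.leaf K2_ok TP_l7238 _)
             (CovZ.leaf K2_ok TP_l7239 _))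
            (CovZ.n1 (160, 15360) (by decide +kernel)
             (CovZ.leaf K2_ok TP_l7240 _)
             (CovZ.leaf K2_ok TP_l7241 _)))
           (CovZ.n1 (480, 15520) (by decide +kernel)
            (CovZ.n2 (480, 15360) (by decide +kernel)
             (CovZ.n2 (400, 15440) (by decide +kernel)
              (CovZ.n2 (480, 15440) (by decide +kernel)
               (CovZ.leaf K2_ok TP_l7242 _)
               (CovZ.leaf K2_ok TP_l7243 _))
              (CovZ.n1 (400, 15360) (by decide +kernel)
               (CovZ.leaf K2_ok TP_l7244 _)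
               (CovZ.leaf K2_ok TP_l7245 _)))
             (CovZ.n1 (560, 15440) (by decide +kernel)
              (CovZ.n2 (560, 15360) (by decide +kernel)
               (CovZ.n2 (520, 15400) (by decide +kernel)
                (CovZ.badM (by decide +kernel))
                (CovZ.n1 (520, 15360) (by decide +kernel)
                 (CovZ.leaf K2_ok TP_l7246 _)
                 (CovZ.badM (by decide +kernel))))
               (CovZ.badM (by decide +kernel)))
              (CovZ.n1 (480, 15440) (by decide +kernel)
               (CovZ.n2 (520, 15480) (by decide +kernel)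
                (CovZ.n2 (520, 15440) (by decide +kernel)
                 (CovZ.leaf K2_ok TP_l7247 _)
                 (CovZ.badM (by decide +kernel)))
                (CovZ.n1 (480, 15480) (by decide +kernel)
                 (CovZ.leaf K2_ok TP_l7248 _)
                 (CovZ.leaf K2_ok TP_l7249 _)))
               (CovZ.n1 (520, 15400) (by decide +kernel)
                (CovZ.leaf K2_ok TP_l7250 _)
                (CovZ.n1 (520, 15440) (by decide +kernel)
                 (CovZ.badM (by decide +kernel))
                 (CovZ.leaf K2_ok TP_l7251 _))))))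
            (CovZ.n1 (320, 15520) (by decide +kernel)
             (CovZ.n2 (400, 15600) (by decide +kernel)
              (CovZ.n2 (400, 15520) (by decide +kernel)
               (CovZ.leaf K2_ok TP_l7252 _)
               (CovZ.n1 (440, 15560) (by decide +kernel)
                (CovZ.leaf K2_ok TP_l7253 _)
                (CovZ.leaf K2_ok TP_l7254 _)))
              (CovZ.leaf K2_ok TP_l7255 _))
             (CovZ.n1 (400, 15440) (by decide +kernel)
              (CovZ.n2 (320, 15440) (by decide +kernel)
               (CovZ.leaf K2_ok TP_l7256 _)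
               (CovZ.leaf K2_ok TP_l7257 _))
              (CovZ.n1 (400, 15520) (by decide +kernel)
               (CovZ.leaf K2_ok TP_l7258 _)
               (CovZ.leaf K2_ok TP_l7259 _)))))))
         (CovZ.badM (by decide +kernel)))))
      (CovZ.badM (by decide +kernel))))))
    (CovZ.topM TP_LL 174309642496692744012250851525340822800384 (by decide +kernel) (CovZ.n0 (1280, 16640) (by decide +kernel)
    (CovZ.n2 (0, 16640) (by decide +kernel)
     TP_u56
     TP_u57)
    (CovZ.n1 (1280, 17920) (by decide +kernel)
     (CovZ.badM (by decide +kernel))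
     (CovZ.n1 (640, 17280) (by decide +kernel)
      TP_u58
      TP_u59))))

theorem TP_s2_8 : SqZ TP_M TP_L [0, 7, 2, 5] (-2560) (-5120) 2560 2 8 :=
  SqZ.mk (a := 2560) (b := 5120) (c := 15360) (d := 17920) (by norm_num) (by norm_num) (by norm_num) (by norm_num)
    (CovZ.topM TP_LL 0 (by decide +kernel) (CovZ.badM (by decide +kernel)))
    (CovZ.topM TP_LL 0 (by decide +kernel) (CovZ.badM (by decide +kernel)))

theorem TP_s3_8 : SqZ TP_M TP_L [0, 7, 2, 5] (-2560) (-5120) 2560 3 8 :=
  SqZ.mk (a := 5120) (b := 7680) (c := 15360) (d := 17920) (by norm_num) (by norm_num) (by norm_num) (by norm_num)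
    (CovZ.topM TP_LL 9671406556917033397649408 (by decide +kernel) (CovZ.n2 (6400, 16640) (by decide +kernel)
    (CovZ.n2 (7680, 16640) (by decide +kernel)
     (CovZ.n2 (7040, 16000) (by decide +kernel)
      (CovZ.n2 (7040, 16640) (by decide +kernel)
       (CovZ.n2 (7360, 16320) (by decide +kernel)
        (CovZ.badM (by decide +kernel))
        (CovZ.badM (by decide +kernel)))
       (CovZ.badM (by decide +kernel)))
      (CovZ.n1 (7680, 16000) (by decide +kernel)
       (CovZ.n2 (7360, 15680) (by decide +kernel)
        (CovZ.n2 (7360, 16000) (by decide +kernel)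
         (CovZ.n2 (7520, 15840) (by decide +kernel)
          (CovZ.n2 (7360, 15840) (by decide +kernel)
           (CovZ.leaf K2_ok TP_l4714 _)
           (CovZ.leaf K2_ok TP_l4715 _))
          (CovZ.leaf K2_ok TP_l4716 _))
         (CovZ.badM (by decide +kernel)))
        (CovZ.n1 (7680, 15680) (by decide +kernel)
         (CovZ.leaf K2_ok TP_l4717 _)
         (CovZ.n1 (7520, 15840) (by decide +kernel)
          (CovZ.leaf K2_ok TP_l4718 _)
          (CovZ.leaf K2_ok TP_l4719 _))))
       (CovZ.n1 (7360, 16320) (by decide +kernel)
        (CovZ.n2 (7680, 16320) (by decide +kernel)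
         (CovZ.n2 (7520, 16160) (by decide +kernel)
          (CovZ.n2 (7520, 16320) (by decide +kernel)
           (CovZ.leaf K2_ok TP_l4720 _)
           (CovZ.n1 (7440, 16240) (by decide +kernel)
            (CovZ.leaf K2_ok TP_l4721 _)
            (CovZ.leaf K2_ok TP_l4722 _)))
          (CovZ.n1 (7680, 16160) (by decide +kernel)
           (CovZ.leaf K2_ok TP_l4723 _)
           (CovZ.leaf K2_ok TP_l4724 _)))
         (CovZ.badM (by decide +kernel)))
        (CovZ.n1 (7360, 16000) (by decide +kernel)
         (CovZ.badM (by decide +kernel))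
         (CovZ.n1 (7520, 16160) (by decide +kernel)
          (CovZ.n2 (7520, 16000) (by decide +kernel)
           (CovZ.leaf K2_ok TP_l4725 _)
           (CovZ.leaf K2_ok TP_l4726 _))
          (CovZ.n1 (7360, 16160) (by decide +kernel)
           (CovZ.n2 (7440, 16240) (by decide +kernel)
            (CovZ.leaf K2_ok TP_l4727 _)
            (CovZ.leaf K2_ok TP_l4728 _))
           (CovZ.leaf K2_ok TP_l4729 _)))))))
     (CovZ.badM (by decide +kernel)))
    (CovZ.n1 (6400, 15360) (by decide +kernel)
     (CovZ.badM (by decide +kernel))
     (CovZ.n1 (7040, 16000) (by decide +kernel)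
      (CovZ.n2 (7040, 15360) (by decide +kernel)
       (CovZ.badM (by decide +kernel))
       (CovZ.n1 (7360, 15680) (by decide +kernel)
        (CovZ.n2 (7360, 15360) (by decide +kernel)
         (CovZ.badM (by decide +kernel))
         (CovZ.leaf K2_ok TP_l4730 _))
        (CovZ.badM (by decide +kernel))))
      (CovZ.badM (by decide +kernel))))))
    (CovZ.topM TP_LL 9671406556917033397649408 (by decide +kernel) (CovZ.n0 (6400, 16640) (by decide +kernel)
    (CovZ.badM (by decide +kernel))
    (CovZ.badM (by decide +kernel))))

theorem TP_s4_8 : SqZ TP_M TP_L [0, 7, 2, 5] (-2560) (-5120) 2560 4 8 :=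
  SqZ.mk (a := 7680) (b := 10240) (c := 15360) (d := 17920) (by norm_num) (by norm_num) (by norm_num) (by norm_num)
    (CovZ.topM TP_LL 9671406556917033397649410 (by decide +kernel) (CovZ.n2 (8960, 16640) (by decide +kernel)
    (CovZ.n2 (10240, 16640) (by decide +kernel)
     (CovZ.n2 (9600, 16000) (by decide +kernel)
      (CovZ.n2 (9600, 16640) (by decide +kernel)
       (CovZ.leaf K2_ok TP_l4986 _)
       (CovZ.leaf K2_ok TP_l4987 _))
      (CovZ.leaf K2_ok TP_l4988 _))
     (CovZ.n1 (9600, 17280) (by decide +kernel)
      (CovZ.n2 (10240, 17280) (by decide +kernel)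
       (CovZ.leaf K2_ok TP_l4989 _)
       (CovZ.leaf K2_ok TP_l4990 _))
      (CovZ.n1 (9600, 16640) (by decide +kernel)
       (CovZ.n2 (9280, 16960) (by decide +kernel)
        (CovZ.leaf K2_ok TP_l4991 _)
        (CovZ.leaf K2_ok TP_l4992 _))
       (CovZ.leaf K2_ok TP_l4993 _))))
    (CovZ.n1 (8960, 15360) (by decide +kernel)
     (CovZ.n2 (8320, 16000) (by decide +kernel)
      (CovZ.n2 (8960, 16000) (by decide +kernel)
       (CovZ.leaf K2_ok TP_l4994 _)
       (CovZ.n1 (8640, 16320) (by decide +kernel)
        (CovZ.leaf K2_ok TP_l4995 _)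
        (CovZ.leaf K2_ok TP_l4996 _)))
      (CovZ.n1 (8320, 15360) (by decide +kernel)
       (CovZ.n2 (8000, 15680) (by decide +kernel)
        (CovZ.leaf K2_ok TP_l4997 _)
        (CovZ.leaf K2_ok TP_l4998 _))
       (CovZ.leaf K2_ok TP_l4999 _)))
     (CovZ.n1 (9600, 16000) (by decide +kernel)
      (CovZ.n2 (9600, 15360) (by decide +kernel)
       (CovZ.leaf K2_ok TP_l5000 _)
       (CovZ.leaf K2_ok TP_l5001 _))
      (CovZ.n1 (8960, 16000) (by decide +kernel)
       (CovZ.leaf K2_ok TP_l5002 _)
       (CovZ.leaf K2_ok TP_l5003 _))))))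
    (CovZ.topM TP_LL 9671406556917033397649410 (by decide +kernel) (CovZ.n0 (8960, 16640) (by decide +kernel)
    (CovZ.n2 (7680, 16640) (by decide +kernel)
     (CovZ.n2 (8320, 17280) (by decide +kernel)
      (CovZ.n2 (8320, 16640) (by decide +kernel)
       (CovZ.badM (by decide +kernel))
       (CovZ.n1 (8640, 16960) (by decide +kernel)
        (CovZ.n2 (8640, 16640) (by decide +kernel)
         (CovZ.leaf K2_ok TP_l7836 _)
         (CovZ.leaf K2_ok TP_l5004 _))
        (CovZ.n1 (8320, 16960) (by decide +kernel)
         (CovZ.leaf K2_ok TP_l7837 _)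
         (CovZ.leaf K2_ok TP_l7838 _))))
      (CovZ.badM (by decide +kernel)))
     (CovZ.n1 (8320, 16000) (by decide +kernel)
      (CovZ.n2 (7680, 16000) (by decide +kernel)
       (CovZ.n2 (8000, 16320) (by decide +kernel)
        (CovZ.n2 (8000, 16000) (by decide +kernel)
         (CovZ.n2 (7840, 16160) (by decide +kernel)
          (CovZ.leaf K2_ok TP_l5005 _)
          (CovZ.leaf K2_ok TP_l5006 _))
         (CovZ.leaf K2_ok TP_l5007 _))
        (CovZ.n1 (7680, 16320) (by decide +kernel)
         (CovZ.badM (by decide +kernel))
         (CovZ.n1 (7840, 16160) (by decide +kernel)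
          (CovZ.leaf K2_ok TP_l5008 _)
          (CovZ.leaf K2_ok TP_l5009 _))))
       (CovZ.n1 (8000, 15680) (by decide +kernel)
        (CovZ.n2 (7680, 15680) (by decide +kernel)
         (CovZ.leaf K2_ok TP_l5010 _)
         (CovZ.leaf K2_ok TP_l5011 _))
        (CovZ.n1 (8000, 16000) (by decide +kernel)
         (CovZ.leaf K2_ok TP_l5012 _)
         (CovZ.leaf K2_ok TP_l5013 _))))
      (CovZ.n1 (8320, 16640) (by decide +kernel)
       (CovZ.n2 (8640, 16320) (by decide +kernel)
        (CovZ.n2 (8320, 16320) (by decide +kernel)
         (CovZ.leaf K2_ok TP_l7839 _)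
         (CovZ.leaf K2_ok TP_l5014 _))
        (CovZ.leaf K2_ok TP_l5015 _))
       (CovZ.n1 (8000, 16320) (by decide +kernel)
        (CovZ.badM (by decide +kernel))
        (CovZ.n1 (8320, 16320) (by decide +kernel)
         (CovZ.leaf K2_ok TP_l5016 _)
         (CovZ.badM (by decide +kernel)))))))
    (CovZ.n1 (8960, 17920) (by decide +kernel)
     (CovZ.n2 (9600, 17280) (by decide +kernel)
      (CovZ.n2 (8960, 17280) (by decide +kernel)
       (CovZ.n2 (9280, 17600) (by decide +kernel)
        (CovZ.leaf K2_ok TP_l5017 _)
        (CovZ.leaf K2_ok TP_l5018 _))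
       (CovZ.n1 (9280, 16960) (by decide +kernel)
        (CovZ.leaf K2_ok TP_l5019 _)
        (CovZ.leaf K2_ok TP_l5020 _)))
      (CovZ.n1 (9600, 17920) (by decide +kernel)
       (CovZ.leaf K2_ok TP_l5021 _)
       (CovZ.n1 (9280, 17600) (by decide +kernel)
        (CovZ.leaf K2_ok TP_l5022 _)
        (CovZ.leaf K2_ok TP_l5023 _))))
     (CovZ.n1 (8320, 17280) (by decide +kernel)
      (CovZ.n2 (8320, 17920) (by decide +kernel)
       (CovZ.n2 (8640, 17600) (by decide +kernel)
        (CovZ.n2 (8320, 17600) (by decide +kernel)
         (CovZ.n2 (8480, 17760) (by decide +kernel)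
          (CovZ.leaf K2_ok TP_l7840 _)
          (CovZ.leaf K2_ok TP_l7841 _))
         (CovZ.n1 (8480, 17440) (by decide +kernel)
          (CovZ.leaf K2_ok TP_l7842 _)
          (CovZ.leaf K2_ok TP_l7843 _)))
        (CovZ.n1 (8640, 17920) (by decide +kernel)
         (CovZ.leaf K2_ok TP_l5024 _)
         (CovZ.n1 (8480, 17760) (by decide +kernel)
          (CovZ.leaf K2_ok TP_l7844 _)
          (CovZ.leaf K2_ok TP_l7845 _))))
       (CovZ.badM (by decide +kernel)))
      (CovZ.n1 (8960, 17280) (by decide +kernel)
       (CovZ.n2 (8640, 16960) (by decide +kernel)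
        (CovZ.n2 (8640, 17280) (by decide +kernel)
         (CovZ.leaf K2_ok TP_l5025 _)
         (CovZ.leaf K2_ok TP_l7846 _))
        (CovZ.n1 (8960, 16960) (by decide +kernel)
         (CovZ.leaf K2_ok TP_l5026 _)
         (CovZ.leaf K2_ok TP_l5027 _)))
       (CovZ.n1 (8640, 17600) (by decide +kernel)
        (CovZ.n2 (8960, 17600) (by decide +kernel)
         (CovZ.leaf K2_ok TP_l5028 _)
         (CovZ.leaf K2_ok TP_l5029 _))
        (CovZ.n1 (8640, 17280) (by decide +kernel)
         (CovZ.n2 (8480, 17440) (by decide +kernel)
          (CovZ.leaf K2_ok TP_l7847 _)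
          (CovZ.leaf K2_ok TP_l7848 _))
         (CovZ.leaf K2_ok TP_l5030 _))))))))

theorem TP_s5_8 : SqZ TP_M TP_L [0, 7, 2, 5] (-2560) (-5120) 2560 5 8 :=
  SqZ.mk (a := 10240) (b := 12800) (c := 15360) (d := 17920) (by norm_num) (by norm_num) (by norm_num) (by norm_num)
    (CovZ.topM TP_LL 324518563329833283700223777964034 (by decide +kernel) (CovZ.n2 (11520, 16640) (by decide +kernel)
    (CovZ.n2 (12800, 16640) (by decide +kernel)
     (CovZ.leaf K2_ok TP_l5152 _)
     (CovZ.leaf K2_ok TP_l5153 _))
    (CovZ.n1 (11520, 15360) (by decide +kernel)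
     (CovZ.leaf K2_ok TP_l5154 _)
     (CovZ.leaf K2_ok TP_l5155 _))))
    (CovZ.topM TP_LL 324518563329833283700223777964034 (by decide +kernel) (CovZ.n0 (11520, 16640) (by decide +kernel)
    (CovZ.n2 (10240, 16640) (by decide +kernel)
     (CovZ.n2 (10880, 17280) (by decide +kernel)
      (CovZ.leaf K2_ok TP_l5156 _)
      (CovZ.leaf K2_ok TP_l5157 _))
     (CovZ.leaf K2_ok TP_l5158 _))
    (CovZ.n1 (11520, 17920) (by decide +kernel)
     (CovZ.leaf K2_ok TP_l5159 _)
     (CovZ.n1 (10880, 17280) (by decide +kernel)
      (CovZ.leaf K2_ok TP_l5160 _)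
      (CovZ.leaf K2_ok TP_l5161 _)))))

theorem TP_s6_8 : SqZ TP_M TP_L [0, 7, 2, 5] (-2560) (-5120) 2560 6 8 :=
  SqZ.mk (a := 12800) (b := 15360) (c := 15360) (d := 17920) (by norm_num) (by norm_num) (by norm_num) (by norm_num)
    (CovZ.topM TP_LL 1393796575313812148090422357436535377231874 (by decide +kernel) (CovZ.n2 (14080, 16640) (by decide +kernel)
    (CovZ.leaf K2_ok TP_l5217 _)
    (CovZ.leaf K2_ok TP_l5218 _)))
    (CovZ.topM TP_LL 1393796575313812148090422357436535377231874 (by decide +kernel) (CovZ.n0 (14080, 16640) (by decide +kernel)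
    (CovZ.leaf K2_ok TP_l5219 _)
    (CovZ.leaf K2_ok TP_l5220 _)))

theorem TP_s0_9 : SqZ TP_M TP_L [0, 7, 2, 5] (-2560) (-5120) 2560 0 9 :=
  SqZ.mk (a := (-2560)) (b := 0) (c := 17920) (d := 20480) (by norm_num) (by norm_num) (by norm_num) (by norm_num)
    (CovZ.topM TP_LL 174990207359904311762294682022104774511112 (by decide +kernel) (CovZ.n2 (-1280, 19200) (by decide +kernel)
    (CovZ.n2 (0, 19200) (by decide +kernel)
     (CovZ.n2 (-640, 18560) (by decide +kernel)
      (CovZ.n2 (-640, 19200) (by decide +kernel)
       (CovZ.n2 (-320, 18880) (by decide +kernel)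
        (CovZ.leaf K2_ok TP_l115 _)
        (CovZ.leaf K2_ok TP_l116 _))
       (CovZ.subM 891360484241295254746382500352 (by decide +kernel)
        (CovZ.n1 (-960, 18880) (by decide +kernel)
         (CovZ.n2 (-960, 19200) (by decide +kernel)
          (CovZ.leaf K2_ok TP_l117 _)
          (CovZ.n1 (-1120, 19040) (by decide +kernel)
           (CovZ.leaf K2_ok TP_l118 _)
           (CovZ.leaf K2_ok TP_l119 _)))
         (CovZ.n1 (-640, 18880) (by decide +kernel)
          (CovZ.leaf K2_ok TP_l120 _)
          (CovZ.leaf K2_ok TP_l121 _)))))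
      (CovZ.n1 (0, 18560) (by decide +kernel)
       (CovZ.n2 (-320, 18240) (by decide +kernel)
        (CovZ.n2 (-320, 18560) (by decide +kernel)
         (CovZ.leaf K2_ok TP_l122 _)
         (CovZ.leaf K2_ok TP_l123 _))
        (CovZ.leaf K2_ok TP_l124 _))
       (CovZ.n1 (-320, 18880) (by decide +kernel)
        (CovZ.leaf K2_ok TP_l125 _)
        (CovZ.n1 (-320, 18560) (by decide +kernel)
         (CovZ.leaf K2_ok TP_l126 _)
         (CovZ.leaf K2_ok TP_l127 _)))))
     (CovZ.n1 (-640, 19840) (by decide +kernel)
      (CovZ.n2 (0, 19840) (by decide +kernel)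
       (CovZ.n2 (-320, 19520) (by decide +kernel)
        (CovZ.leaf K2_ok TP_l128 _)
        (CovZ.leaf K2_ok TP_l129 _))
       (CovZ.leaf K2_ok TP_l130 _))
      (CovZ.n1 (-640, 19200) (by decide +kernel)
       (CovZ.subM 3436565210029552613887886787072 (by decide +kernel)
        (CovZ.n2 (-960, 19520) (by decide +kernel)
         (CovZ.n2 (-640, 19520) (by decide +kernel)
          (CovZ.leaf K2_ok TP_l131 _)
          (CovZ.leaf K2_ok TP_l132 _))
         (CovZ.n1 (-960, 19200) (by decide +kernel)
          (CovZ.n2 (-1120, 19360) (by decide +kernel)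
           (CovZ.leaf K2_ok TP_l133 _)
           (CovZ.leaf K2_ok TP_l134 _))
          (CovZ.leaf K2_ok TP_l135 _))))
       (CovZ.n1 (-320, 19520) (by decide +kernel)
        (CovZ.leaf K2_ok TP_l136 _)
        (CovZ.leaf K2_ok TP_l137 _)))))
    (CovZ.n1 (-1280, 17920) (by decide +kernel)
     TP_u63
     TP_u64)))
    (CovZ.topM TP_LL 174990207359904311762294682022104774511112 (by decide +kernel) (CovZ.n0 (-1280, 19200) (by decide +kernel)
    (CovZ.subM 169934505117683252470565956485640 (by decide +kernel)
     (CovZ.n2 (-2560, 19200) (by decide +kernel)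
      TP_u65
      TP_u66))
    (CovZ.n1 (-1280, 20480) (by decide +kernel)
     (CovZ.n2 (-640, 19840) (by decide +kernel)
      (CovZ.n2 (-1280, 19840) (by decide +kernel)
       (CovZ.n2 (-960, 20160) (by decide +kernel)
        (CovZ.n2 (-960, 19840) (by decide +kernel)
         (CovZ.leaf K2_ok TP_l272 _)
         (CovZ.leaf K2_ok TP_l273 _))
        (CovZ.n1 (-1280, 20160) (by decide +kernel)
         (CovZ.leaf K2_ok TP_l274 _)
         (CovZ.leaf K2_ok TP_l275 _)))
       (CovZ.subM 3436565210029552613887886787072 (by decide +kernel)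
        (CovZ.n1 (-960, 19520) (by decide +kernel)
         (CovZ.n2 (-1280, 19520) (by decide +kernel)
          (CovZ.leaf K2_ok TP_l276 _)
          (CovZ.n1 (-1120, 19360) (by decide +kernel)
           (CovZ.leaf K2_ok TP_l277 _)
           (CovZ.leaf K2_ok TP_l278 _)))
         (CovZ.n1 (-960, 19840) (by decide +kernel)
          (CovZ.leaf K2_ok TP_l279 _)
          (CovZ.leaf K2_ok TP_l280 _)))))
      (CovZ.n1 (-640, 20480) (by decide +kernel)
       (CovZ.leaf K2_ok TP_l281 _)
       (CovZ.n1 (-960, 20160) (by decide +kernel)
        (CovZ.n2 (-960, 20480) (by decide +kernel)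
         (CovZ.leaf K2_ok TP_l282 _)
         (CovZ.leaf K2_ok TP_l283 _))
        (CovZ.leaf K2_ok TP_l284 _))))
     TP_u67)))

theorem TP_s1_9 : SqZ TP_M TP_L [0, 7, 2, 5] (-2560) (-5120) 2560 1 9 :=
  SqZ.mk (a := 0) (b := 2560) (c := 17920) (d := 20480) (by norm_num) (by norm_num) (by norm_num) (by norm_num)
    (CovZ.topM TP_LL 174990207400469130969598022869999277083144 (by decide +kernel) (CovZ.n2 (1280, 19200) (by decide +kernel)
    (CovZ.subM 680564903776382046085741211326257037832 (by decide +kernel)
     (CovZ.n2 (2560, 19200) (by decide +kernel)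
      (CovZ.subM 680564896160574919384563994398126244352 (by decide +kernel)
       (CovZ.n2 (1920, 18560) (by decide +kernel)
        (CovZ.n2 (1920, 19200) (by decide +kernel)
         (CovZ.badM (by decide +kernel))
         (CovZ.n1 (1600, 18880) (by decide +kernel)
          (CovZ.n2 (1600, 19200) (by decide +kernel)
           (CovZ.badM (by decide +kernel))
           (CovZ.n1 (1440, 19040) (by decide +kernel)
            (CovZ.n2 (1440, 19200) (by decide +kernel)
             (CovZ.n2 (1520, 19120) (by decide +kernel)
              (CovZ.leaf K2_ok TP_l2033 _)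
              (CovZ.n1 (1520, 19200) (by decide +kernel)
               (CovZ.leaf K2_ok TP_l2034 _)
               (CovZ.leaf K2_ok TP_l2035 _)))
             (CovZ.leaf K2_ok TP_l2036 _))
            (CovZ.subM 19807080769834110294977151488 (by decide +kernel)
             (CovZ.n1 (1600, 19040) (by decide +kernel)
              (CovZ.n2 (1520, 18960) (by decide +kernel)
               (CovZ.n2 (1520, 19040) (by decide +kernel)
                (CovZ.n2 (1560, 19000) (by decide +kernel)
                 (CovZ.leaf K2_ok TP_l2037 _)
                 (CovZ.n1 (1560, 19040) (by decide +kernel)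
                  (CovZ.leaf K2_ok TP_l7324 _)
                  (CovZ.leaf K2_ok TP_l2038 _)))
                (CovZ.leaf K2_ok TP_l2039 _))
               (CovZ.n1 (1600, 18960) (by decide +kernel)
                (CovZ.badM (by decide +kernel))
                (CovZ.n1 (1560, 19000) (by decide +kernel)
                 (CovZ.n2 (1600, 19000) (by decide +kernel)
                  (CovZ.n2 (1580, 18980) (by decide +kernel)
                   (CovZ.leaf K2_ok TP_l7325 _)
                   (CovZ.n1 (1600, 18980) (by decide +kernel)
                    (CovZ.leaf K2_ok TP_l7326 _)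
                    (CovZ.leaf K2_ok TP_l7327 _)))
                  (CovZ.leaf K2_ok TP_l7328 _))
                 (CovZ.n1 (1560, 18960) (by decide +kernel)
                  (CovZ.leaf K2_ok TP_l2041 _)
                  (CovZ.n1 (1580, 18980) (by decide +kernel)
                   (CovZ.leaf K2_ok TP_l7329 _)
                   (CovZ.leaf K2_ok TP_l7330 _))))))
              (CovZ.n1 (1520, 19120) (by decide +kernel)
               (CovZ.n2 (1600, 19120) (by decide +kernel)
                (CovZ.n2 (1560, 19080) (by decide +kernel)
                 (CovZ.leaf K2_ok TP_l2042 _)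
                 (CovZ.n1 (1600, 19080) (by decide +kernel)
                  (CovZ.leaf K2_ok TP_l7331 _)
                  (CovZ.leaf K2_ok TP_l7332 _)))
                (CovZ.leaf K2_ok TP_l2043 _))
               (CovZ.n1 (1520, 19040) (by decide +kernel)
                (CovZ.leaf K2_ok TP_l2044 _)
                (CovZ.n1 (1560, 19080) (by decide +kernel)
                 (CovZ.leaf K2_ok TP_l2045 _)
                 (CovZ.leaf K2_ok TP_l2046 _))))))))
          (CovZ.badM (by decide +kernel))))
        (CovZ.badM (by decide +kernel))))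
      (CovZ.n1 (1920, 19840) (by decide +kernel)
       (CovZ.badM (by decide +kernel))
       (CovZ.n1 (1920, 19200) (by decide +kernel)
        (CovZ.n2 (1600, 19520) (by decide +kernel)
         (CovZ.subM 2545204725788257359141504286720 (by decide +kernel)
          (CovZ.n2 (1920, 19520) (by decide +kernel)
           (CovZ.n2 (1760, 19360) (by decide +kernel)
            (CovZ.n2 (1760, 19520) (by decide +kernel)
             (CovZ.badM (by decide +kernel))
             (CovZ.n1 (1680, 19440) (by decide +kernel)
              (CovZ.n2 (1680, 19520) (by decide +kernel)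
               (CovZ.n2 (1720, 19480) (by decide +kernel)
                (CovZ.n2 (1680, 19480) (by decide +kernel)
                 (CovZ.leaf K2_ok TP_l2047 _)
                 (CovZ.leaf K2_ok TP_l2048 _))
                (CovZ.n1 (1720, 19520) (by decide +kernel)
                 (CovZ.badM (by decide +kernel))
                 (CovZ.leaf K2_ok TP_l2049 _)))
               (CovZ.leaf K2_ok TP_l2050 _))
              (CovZ.n1 (1760, 19440) (by decide +kernel)
               (CovZ.n2 (1720, 19400) (by decide +kernel)
                (CovZ.n2 (1720, 19440) (by decide +kernel)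
                 (CovZ.badM (by decide +kernel))
                 (CovZ.leaf K2_ok TP_l2051 _))
                (CovZ.badM (by decide +kernel)))
               (CovZ.n1 (1720, 19480) (by decide +kernel)
                (CovZ.badM (by decide +kernel))
                (CovZ.n1 (1720, 19440) (by decide +kernel)
                 (CovZ.leaf K2_ok TP_l2052 _)
                 (CovZ.badM (by decide +kernel)))))))
            (CovZ.badM (by decide +kernel)))
           (CovZ.n1 (1760, 19680) (by decide +kernel)
            (CovZ.n2 (1920, 19680) (by decide +kernel)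
             (CovZ.badM (by decide +kernel))
             (CovZ.n1 (1840, 19760) (by decide +kernel)
              (CovZ.n2 (1920, 19760) (by decide +kernel)
               (CovZ.badM (by decide +kernel))
               (CovZ.n1 (1880, 19800) (by decide +kernel)
                (CovZ.badM (by decide +kernel))
                (CovZ.n1 (1880, 19760) (by decide +kernel)
                 (CovZ.n2 (1860, 19780) (by decide +kernel)
                  (CovZ.badM (by decide +kernel))
                  (CovZ.n1 (1860, 19760) (by decide +kernel)
                   (CovZ.n2 (1850, 19770) (by decide +kernel)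
                    (CovZ.badM (by decide +kernel))
                    (CovZ.badM (by decide +kernel)))
                   (CovZ.badM (by decide +kernel))))
                 (CovZ.badM (by decide +kernel)))))
              (CovZ.n1 (1840, 19680) (by decide +kernel)
               (CovZ.n2 (1800, 19720) (by decide +kernel)
                (CovZ.n2 (1840, 19720) (by decide +kernel)
                 (CovZ.n2 (1820, 19700) (by decide +kernel)
                  (CovZ.n2 (1820, 19720) (by decide +kernel)
                   (CovZ.n2 (1830, 19710) (by decide +kernel)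
                    (CovZ.leaf K2_ok TP_l7333 _)
                    (CovZ.leaf K2_ok TP_l7334 _))
                   (CovZ.leaf K2_ok TP_l7335 _))
                  (CovZ.n1 (1840, 19700) (by decide +kernel)
                   (CovZ.n2 (1830, 19690) (by decide +kernel)
                    (CovZ.n2 (1830, 19700) (by decide +kernel)
                     (CovZ.badM (by decide +kernel))
                     (CovZ.leaf K2_ok TP_l7336 _))
                    (CovZ.badM (by decide +kernel)))
                   (CovZ.n1 (1830, 19710) (by decide +kernel)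
                    (CovZ.badM (by decide +kernel))
                    (CovZ.n1 (1830, 19700) (by decide +kernel)
                     (CovZ.leaf K2_ok TP_l7337 _)
                     (CovZ.badM (by decide +kernel))))))
                 (CovZ.n1 (1820, 19740) (by decide +kernel)
                  (CovZ.n2 (1840, 19740) (by decide +kernel)
                   (CovZ.n2 (1830, 19730) (by decide +kernel)
                    (CovZ.leaf K2_ok TP_l7338 _)
                    (CovZ.badM (by decide +kernel)))
                   (CovZ.leaf K2_ok TP_l7339 _))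
                  (CovZ.n1 (1820, 19720) (by decide +kernel)
                   (CovZ.leaf K2_ok TP_l7340 _)
                   (CovZ.n1 (1830, 19730) (by decide +kernel)
                    (CovZ.n2 (1830, 19720) (by decide +kernel)
                     (CovZ.leaf K2_ok TP_l7341 _)
                     (CovZ.badM (by decide +kernel)))
                    (CovZ.leaf K2_ok TP_l7342 _)))))
                (CovZ.n1 (1800, 19680) (by decide +kernel)
                 (CovZ.leaf K2_ok TP_l7343 _)
                 (CovZ.n1 (1820, 19700) (by decide +kernel)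
                  (CovZ.n2 (1820, 19680) (by decide +kernel)
                   (CovZ.leaf K2_ok TP_l7344 _)
                   (CovZ.n1 (1830, 19690) (by decide +kernel)
                    (CovZ.badM (by decide +kernel))
                    (CovZ.leaf K2_ok TP_l7345 _)))
                  (CovZ.n1 (1800, 19700) (by decide +kernel)
                   (CovZ.leaf K2_ok TP_l7346 _)
                   (CovZ.leaf K2_ok TP_l7347 _)))))
               (CovZ.badM (by decide +kernel)))))
            (CovZ.n1 (1760, 19520) (by decide +kernel)
             (CovZ.n2 (1680, 19600) (by decide +kernel)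
              (CovZ.n2 (1760, 19600) (by decide +kernel)
               (CovZ.n2 (1720, 19560) (by decide +kernel)
                (CovZ.leaf K2_ok TP_l2053 _)
                (CovZ.badM (by decide +kernel)))
               (CovZ.n1 (1720, 19640) (by decide +kernel)
                (CovZ.badM (by decide +kernel))
                (CovZ.leaf K2_ok TP_l2054 _)))
              (CovZ.n1 (1680, 19520) (by decide +kernel)
               (CovZ.leaf K2_ok TP_l2055 _)
               (CovZ.n1 (1720, 19560) (by decide +kernel)
                (CovZ.n2 (1720, 19520) (by decide +kernel)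
                 (CovZ.leaf K2_ok TP_l2056 _)
                 (CovZ.badM (by decide +kernel)))
                (CovZ.leaf K2_ok TP_l2057 _))))
             (CovZ.badM (by decide +kernel))))))
         (CovZ.subM 680564733871587532770126338374770885120 (by decide +kernel)
          (CovZ.n1 (1600, 19200) (by decide +kernel)
           (CovZ.n2 (1440, 19360) (by decide +kernel)
            (CovZ.n2 (1600, 19360) (by decide +kernel)
             (CovZ.n2 (1520, 19280) (by decide +kernel)
              (CovZ.leaf K2_ok TP_l2058 _)
              (CovZ.n1 (1600, 19280) (by decide +kernel)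
               (CovZ.leaf K2_ok TP_l2059 _)
               (CovZ.leaf K2_ok TP_l2060 _)))
             (CovZ.leaf K2_ok TP_l2061 _))
            (CovZ.n1 (1440, 19200) (by decide +kernel)
             (CovZ.leaf K2_ok TP_l2062 _)
             (CovZ.n1 (1520, 19280) (by decide +kernel)
              (CovZ.leaf K2_ok TP_l2063 _)
              (CovZ.leaf K2_ok TP_l2064 _))))
           (CovZ.subM 9903525036649525068838207488 (by decide +kernel)
            (CovZ.n1 (1760, 19360) (by decide +kernel)
             (CovZ.n2 (1760, 19200) (by decide +kernel)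
              (CovZ.n2 (1680, 19280) (by decide +kernel)
               (CovZ.n2 (1760, 19280) (by decide +kernel)
                (CovZ.badM (by decide +kernel))
                (CovZ.n1 (1720, 19320) (by decide +kernel)
                 (CovZ.badM (by decide +kernel))
                 (CovZ.badM (by decide +kernel))))
               (CovZ.badM (by decide +kernel)))
              (CovZ.badM (by decide +kernel)))
             (CovZ.n1 (1600, 19360) (by decide +kernel)
              (CovZ.n2 (1680, 19440) (by decide +kernel)
               (CovZ.n2 (1680, 19360) (by decide +kernel)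
                (CovZ.leaf K2_ok TP_l2065 _)
                (CovZ.n1 (1720, 19400) (by decide +kernel)
                 (CovZ.n2 (1720, 19360) (by decide +kernel)
                  (CovZ.n2 (1700, 19380) (by decide +kernel)
                   (CovZ.leaf K2_ok TP_l7348 _)
                   (CovZ.leaf K2_ok TP_l7349 _))
                  (CovZ.badM (by decide +kernel)))
                 (CovZ.n1 (1680, 19400) (by decide +kernel)
                  (CovZ.leaf K2_ok TP_l2066 _)
                  (CovZ.n1 (1700, 19380) (by decide +kernel)
                   (CovZ.leaf K2_ok TP_l7350 _)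
                   (CovZ.leaf K2_ok TP_l7351 _)))))
               (CovZ.n1 (1600, 19440) (by decide +kernel)
                (CovZ.leaf K2_ok TP_l2067 _)
                (CovZ.leaf K2_ok TP_l2068 _)))
              (CovZ.n1 (1680, 19280) (by decide +kernel)
               (CovZ.n2 (1600, 19280) (by decide +kernel)
                (CovZ.n2 (1640, 19320) (by decide +kernel)
                 (CovZ.badM (by decide +kernel))
                 (CovZ.leaf K2_ok TP_l7352 _))
                (CovZ.badM (by decide +kernel)))
               (CovZ.n1 (1680, 19360) (by decide +kernel)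
                (CovZ.n2 (1720, 19320) (by decide +kernel)
                 (CovZ.n2 (1680, 19320) (by decide +kernel)
                  (CovZ.n2 (1700, 19340) (by decide +kernel)
                   (CovZ.n2 (1700, 19320) (by decide +kernel)
                    (CovZ.leaf K2_ok TP_l7353 _)
                    (CovZ.n1 (1710, 19330) (by decide +kernel)
                     (CovZ.leaf K2_ok TP_l7354 _)
                     (CovZ.leaf K2_ok TP_l7355 _)))
                   (CovZ.leaf K2_ok TP_l7356 _))
                  (CovZ.badM (by decide +kernel)))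
                 (CovZ.n1 (1720, 19360) (by decide +kernel)
                  (CovZ.badM (by decide +kernel))
                  (CovZ.n1 (1700, 19340) (by decide +kernel)
                   (CovZ.n2 (1700, 19360) (by decide +kernel)
                    (CovZ.leaf K2_ok TP_l7357 _)
                    (CovZ.leaf K2_ok TP_l7358 _))
                   (CovZ.n1 (1720, 19340) (by decide +kernel)
                    (CovZ.n2 (1710, 19330) (by decide +kernel)
                     (CovZ.leaf K2_ok TP_l7359 _)
                     (CovZ.leaf K2_ok TP_l7360 _))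
                    (CovZ.leaf K2_ok TP_l7361 _)))))
                (CovZ.n1 (1640, 19320) (by decide +kernel)
                 (CovZ.leaf K2_ok TP_l7362 _)
                 (CovZ.n1 (1680, 19320) (by decide +kernel)
                  (CovZ.badM (by decide +kernel))
                  (CovZ.leaf K2_ok TP_l7363 _)))))))))))
        (CovZ.badM (by decide +kernel))))))
    (CovZ.n1 (1280, 17920) (by decide +kernel)
     TP_u68
     TP_u69)))
    (CovZ.topM TP_LL 174990207400469130969598022869999277083144 (by decide +kernel) (CovZ.n0 (1280, 19200) (by decide +kernel)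
    (CovZ.n2 (0, 19200) (by decide +kernel)
     (CovZ.n2 (640, 19840) (by decide +kernel)
      (CovZ.n2 (640, 19200) (by decide +kernel)
       (CovZ.leaf K2_ok TP_l2131 _)
       (CovZ.n1 (960, 19520) (by decide +kernel)
        (CovZ.leaf K2_ok TP_l2132 _)
        (CovZ.leaf K2_ok TP_l2133 _)))
      (CovZ.leaf K2_ok TP_l2134 _))
     (CovZ.n1 (640, 18560) (by decide +kernel)
      (CovZ.n2 (0, 18560) (by decide +kernel)
       (CovZ.leaf K2_ok TP_l2135 _)
       (CovZ.leaf K2_ok TP_l2136 _))
      (CovZ.n1 (640, 19200) (by decide +kernel)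
       (CovZ.n2 (960, 18880) (by decide +kernel)
        (CovZ.leaf K2_ok TP_l2137 _)
        (CovZ.n1 (960, 19200) (by decide +kernel)
         (CovZ.leaf K2_ok TP_l2138 _)
         (CovZ.leaf K2_ok TP_l2139 _)))
       (CovZ.leaf K2_ok TP_l2140 _))))
    (CovZ.n1 (1280, 20480) (by decide +kernel)
     (CovZ.subM 680564741477491134434654030234063471112 (by decide +kernel)
      (CovZ.n2 (1920, 19840) (by decide +kernel)
       TP_u70
       TP_u71))
     (CovZ.n1 (640, 19840) (by decide +kernel)
      (CovZ.n2 (640, 20480) (by decide +kernel)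
       (CovZ.leaf K2_ok TP_l2194 _)
       (CovZ.leaf K2_ok TP_l2195 _))
      (CovZ.n1 (1280, 19840) (by decide +kernel)
       (CovZ.n2 (960, 19520) (by decide +kernel)
        (CovZ.leaf K2_ok TP_l2196 _)
        (CovZ.leaf K2_ok TP_l2197 _))
       (CovZ.leaf K2_ok TP_l2198 _))))))

theorem TP_s2_9 : SqZ TP_M TP_L [0, 7, 2, 5] (-2560) (-5120) 2560 2 9 :=
  SqZ.mk (a := 2560) (b := 5120) (c := 17920) (d := 20480) (by norm_num) (by norm_num) (by norm_num) (by norm_num)
    (CovZ.topM TP_LL 0 (by decide +kernel) (CovZ.badM (by decide +kernel)))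
    (CovZ.topM TP_LL 0 (by decide +kernel) (CovZ.badM (by decide +kernel)))

theorem TP_s3_9 : SqZ TP_M TP_L [0, 7, 2, 5] (-2560) (-5120) 2560 3 9 :=
  SqZ.mk (a := 5120) (b := 7680) (c := 17920) (d := 20480) (by norm_num) (by norm_num) (by norm_num) (by norm_num)
    (CovZ.topM TP_LL 0 (by decide +kernel) (CovZ.badM (by decide +kernel)))
    (CovZ.topM TP_LL 0 (by decide +kernel) (CovZ.badM (by decide +kernel)))

end Pool.Agent.TET
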