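import Pool.Agent.Helper38_TET.TP_M
import Pool.Agent.Helper38_TET.TP_L
import Pool.Agent.Helper38_TET.TP_2
import Pool.Agent.Helper38_TET.TP_3
import Pool.Agent.Helper38_TET.TP_4
import Pool.Agent.Helper38_TET.TP_14
import Pool.Agent.Helper38_TET.TP_15
import Pool.Agent.Helper38_TET.TP_40
import Pool.Agent.Helper38_TET.TP_41
import Pool.Agent.Helper38_TET.TP_42
import Pool.Agent.Helper38_TET.TP_49
import Pool.Agent.Helper38_TET.TP_50

/-!
# MP_c7c9bf_co: certificates, family TP
-/

set_option autoImplicit false
set_option maxRecDepth 100000

namespace Pool.Agent.TET

theorem TP_u72 : CovZ TP_M (toL (selN TP_LN 523611485951685293796135186353181002336844)) [0, 7, 2, 5] (-2560, 20480) (-1280, 20480) (-1280, 21760) :=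
    (CovZ.subM 1993851214011991663949274446267679308 (by decide +kernel)
      (CovZ.n2 (-1920, 21120) (by decide +kernel)
       (CovZ.n2 (-1280, 21120) (by decide +kernel)
        (CovZ.n2 (-1600, 20800) (by decide +kernel)
         (CovZ.n2 (-1600, 21120) (by decide +kernel)
          (CovZ.leaf K2_ok TP_l370 _)
          (CovZ.n1 (-1760, 20960) (by decide +kernel)
           (CovZ.leaf K2_ok TP_l371 _)
           (CovZ.leaf K2_ok TP_l372 _)))
         (CovZ.n1 (-1280, 20800) (by decide +kernel)
          (CovZ.leaf K2_ok TP_l373 _)
          (CovZ.leaf K2_ok TP_l374 _)))
        (CovZ.n1 (-1600, 21440) (by decide +kernel)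
         (CovZ.leaf K2_ok TP_l375 _)
         (CovZ.n1 (-1600, 21120) (by decide +kernel)
          (CovZ.n2 (-1760, 21280) (by decide +kernel)
           (CovZ.leaf K2_ok TP_l376 _)
           (CovZ.leaf K2_ok TP_l377 _))
          (CovZ.leaf K2_ok TP_l378 _))))
       (CovZ.n1 (-1920, 20480) (by decide +kernel)
        (CovZ.subM 664614314962268350059155697036165188 (by decide +kernel)
         (CovZ.n2 (-2240, 20800) (by decide +kernel)
          (CovZ.n2 (-1920, 20800) (by decide +kernel)
           (CovZ.subM 664614314807525845148483162665385988 (by decide +kernel)
            (CovZ.n2 (-2080, 20640) (by decide +kernel)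
             (CovZ.n2 (-2080, 20800) (by decide +kernel)
              (CovZ.n2 (-2000, 20720) (by decide +kernel)
               (CovZ.n2 (-2080, 20720) (by decide +kernel)
                (CovZ.leaf K2_ok TP_l379 _)
                (CovZ.leaf K2_ok TP_l380 _))
               (CovZ.n1 (-2000, 20800) (by decide +kernel)
                (CovZ.leaf K2_ok TP_l381 _)
                (CovZ.leaf K2_ok TP_l382 _)))
              (CovZ.n1 (-2160, 20720) (by decide +kernel)
               (CovZ.n2 (-2160, 20800) (by decide +kernel)
                (CovZ.n2 (-2120, 20760) (by decide +kernel)
                 (CovZ.n2 (-2160, 20760) (by decide +kernel)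
                  (CovZ.leaf K2_ok TP_l383 _)
                  (CovZ.leaf K2_ok TP_l6090 _))
                 (CovZ.leaf K2_ok TP_l384 _))
                (CovZ.n1 (-2200, 20760) (by decide +kernel)
                 (CovZ.n2 (-2200, 20800) (by decide +kernel)
                  (CovZ.leaf K2_ok TP_l385 _)
                  (CovZ.badM (by decide +kernel)))
                 (CovZ.n1 (-2160, 20760) (by decide +kernel)
                  (CovZ.n2 (-2180, 20740) (by decide +kernel)
                   (CovZ.leaf K2_ok TP_l6091 _)
                   (CovZ.leaf K2_ok TP_l6092 _))
                  (CovZ.leaf K2_ok TP_l386 _))))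
               (CovZ.n1 (-2080, 20720) (by decide +kernel)
                (CovZ.n2 (-2120, 20680) (by decide +kernel)
                 (CovZ.n2 (-2120, 20720) (by decide +kernel)
                  (CovZ.leaf K2_ok TP_l6093 _)
                  (CovZ.leaf K2_ok TP_l6094 _))
                 (CovZ.leaf K2_ok TP_l6095 _))
                (CovZ.n1 (-2120, 20760) (by decide +kernel)
                 (CovZ.leaf K2_ok TP_l387 _)
                 (CovZ.n1 (-2120, 20720) (by decide +kernel)
                  (CovZ.leaf K2_ok TP_l6096 _)
                  (CovZ.leaf K2_ok TP_l6097 _))))))
             (CovZ.n1 (-1920, 20640) (by decide +kernel)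
              (CovZ.n2 (-2000, 20560) (by decide +kernel)
               (CovZ.n2 (-2000, 20640) (by decide +kernel)
                (CovZ.leaf K2_ok TP_l388 _)
                (CovZ.n1 (-2040, 20600) (by decide +kernel)
                 (CovZ.leaf K2_ok TP_l389 _)
                 (CovZ.leaf K2_ok TP_l390 _)))
               (CovZ.n1 (-1920, 20560) (by decide +kernel)
                (CovZ.leaf K2_ok TP_l391 _)
                (CovZ.leaf K2_ok TP_l392 _)))
              (CovZ.n1 (-2000, 20720) (by decide +kernel)
               (CovZ.leaf K2_ok TP_l393 _)
               (CovZ.n1 (-2000, 20640) (by decide +kernel)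
                (CovZ.leaf K2_ok TP_l394 _)
                (CovZ.leaf K2_ok TP_l395 _))))))
           (CovZ.n1 (-2080, 20960) (by decide +kernel)
            (CovZ.n2 (-1920, 20960) (by decide +kernel)
             (CovZ.n2 (-2000, 20880) (by decide +kernel)
              (CovZ.leaf K2_ok TP_l396 _)
              (CovZ.leaf K2_ok TP_l397 _))
             (CovZ.leaf K2_ok TP_l398 _))
            (CovZ.n1 (-2080, 20800) (by decide +kernel)
             (CovZ.subM 664614314959850498419926438678364164 (by decide +kernel)
              (CovZ.n2 (-2160, 20880) (by decide +kernel)
               (CovZ.n2 (-2080, 20880) (by decide +kernel)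
                (CovZ.n2 (-2120, 20840) (by decide +kernel)
                 (CovZ.leaf K2_ok TP_l399 _)
                 (CovZ.leaf K2_ok TP_l400 _))
                (CovZ.leaf K2_ok TP_l401 _))
               (CovZ.n1 (-2160, 20800) (by decide +kernel)
                (CovZ.n2 (-2200, 20840) (by decide +kernel)
                 (CovZ.n2 (-2160, 20840) (by decide +kernel)
                  (CovZ.leaf K2_ok TP_l402 _)
                  (CovZ.leaf K2_ok TP_l403 _))
                 (CovZ.n1 (-2200, 20800) (by decide +kernel)
                  (CovZ.badM (by decide +kernel))
                  (CovZ.leaf K2_ok TP_l404 _)))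
                (CovZ.n1 (-2120, 20840) (by decide +kernel)
                 (CovZ.leaf K2_ok TP_l405 _)
                 (CovZ.leaf K2_ok TP_l406 _)))))
             (CovZ.n1 (-2000, 20880) (by decide +kernel)
              (CovZ.leaf K2_ok TP_l407 _)
              (CovZ.leaf K2_ok TP_l408 _)))))
          (CovZ.subM 664614314807525845148483162665385988 (by decide +kernel)
           (CovZ.n1 (-2240, 20480) (by decide +kernel)
            (CovZ.badM (by decide +kernel))
            (CovZ.n1 (-2080, 20640) (by decide +kernel)
             (CovZ.n2 (-2080, 20480) (by decide +kernel)
              (CovZ.n2 (-2160, 20560) (by decide +kernel)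
               (CovZ.n2 (-2080, 20560) (by decide +kernel)
                (CovZ.n2 (-2120, 20520) (by decide +kernel)
                 (CovZ.n2 (-2120, 20560) (by decide +kernel)
                  (CovZ.n2 (-2100, 20540) (by decide +kernel)
                   (CovZ.leaf K2_ok TP_l6098 _)
                   (CovZ.leaf K2_ok TP_l6099 _))
                  (CovZ.badM (by decide +kernel)))
                 (CovZ.n1 (-2080, 20520) (by decide +kernel)
                  (CovZ.n2 (-2100, 20500) (by decide +kernel)
                   (CovZ.leaf K2_ok TP_l6100 _)
                   (CovZ.leaf K2_ok TP_l6101 _))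
                  (CovZ.n1 (-2100, 20540) (by decide +kernel)
                   (CovZ.leaf K2_ok TP_l6102 _)
                   (CovZ.leaf K2_ok TP_l6103 _))))
                (CovZ.n1 (-2120, 20600) (by decide +kernel)
                 (CovZ.n2 (-2080, 20600) (by decide +kernel)
                  (CovZ.leaf K2_ok TP_l6104 _)
                  (CovZ.leaf K2_ok TP_l6105 _))
                 (CovZ.n1 (-2120, 20560) (by decide +kernel)
                  (CovZ.badM (by decide +kernel))
                  (CovZ.leaf K2_ok TP_l6106 _))))
               (CovZ.n1 (-2160, 20480) (by decide +kernel)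
                (CovZ.badM (by decide +kernel))
                (CovZ.n1 (-2120, 20520) (by decide +kernel)
                 (CovZ.n2 (-2120, 20480) (by decide +kernel)
                  (CovZ.badM (by decide +kernel))
                  (CovZ.n1 (-2100, 20500) (by decide +kernel)
                   (CovZ.leaf K2_ok TP_l6107 _)
                   (CovZ.leaf K2_ok TP_l6108 _)))
                 (CovZ.badM (by decide +kernel)))))
              (CovZ.n1 (-2000, 20560) (by decide +kernel)
               (CovZ.n2 (-2000, 20480) (by decide +kernel)
                (CovZ.n2 (-2040, 20520) (by decide +kernel)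
                 (CovZ.leaf K2_ok TP_l409 _)
                 (CovZ.n1 (-2040, 20480) (by decide +kernel)
                  (CovZ.leaf K2_ok TP_l410 _)
                  (CovZ.leaf K2_ok TP_l411 _)))
                (CovZ.leaf K2_ok TP_l412 _))
               (CovZ.n1 (-2080, 20560) (by decide +kernel)
                (CovZ.n2 (-2040, 20600) (by decide +kernel)
                 (CovZ.leaf K2_ok TP_l413 _)
                 (CovZ.leaf K2_ok TP_l414 _))
                (CovZ.n1 (-2040, 20520) (by decide +kernel)
                 (CovZ.n2 (-2080, 20520) (by decide +kernel)
                  (CovZ.leaf K2_ok TP_l415 _)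
                  (CovZ.leaf K2_ok TP_l416 _))
                 (CovZ.leaf K2_ok TP_l417 _)))))
             (CovZ.n1 (-2240, 20640) (by decide +kernel)
              (CovZ.n2 (-2160, 20720) (by decide +kernel)
               (CovZ.n2 (-2160, 20640) (by decide +kernel)
                (CovZ.n2 (-2200, 20680) (by decide +kernel)
                 (CovZ.n2 (-2160, 20680) (by decide +kernel)
                  (CovZ.n2 (-2180, 20660) (by decide +kernel)
                   (CovZ.n2 (-2180, 20680) (by decide +kernel)
                    (CovZ.leaf K2_ok TP_l6109 _)
                    (CovZ.leaf K2_ok TP_l6110 _))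
                   (CovZ.leaf K2_ok TP_l6111 _))
                  (CovZ.n1 (-2180, 20700) (by decide +kernel)
                   (CovZ.leaf K2_ok TP_l6112 _)
                   (CovZ.n1 (-2180, 20680) (by decide +kernel)
                    (CovZ.leaf K2_ok TP_l6113 _)
                    (CovZ.leaf K2_ok TP_l6114 _))))
                 (CovZ.n1 (-2200, 20640) (by decide +kernel)
                  (CovZ.badM (by decide +kernel))
                  (CovZ.n1 (-2180, 20660) (by decide +kernel)
                   (CovZ.n2 (-2180, 20640) (by decide +kernel)
                    (CovZ.leaf K2_ok TP_l6115 _)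
                    (CovZ.leaf K2_ok TP_l6116 _))
                   (CovZ.n1 (-2200, 20660) (by decide +kernel)
                    (CovZ.leaf K2_ok TP_l6117 _)
                    (CovZ.leaf K2_ok TP_l6118 _)))))
                (CovZ.n1 (-2120, 20680) (by decide +kernel)
                 (CovZ.n2 (-2120, 20640) (by decide +kernel)
                  (CovZ.leaf K2_ok TP_l6119 _)
                  (CovZ.leaf K2_ok TP_l6120 _))
                 (CovZ.n1 (-2160, 20680) (by decide +kernel)
                  (CovZ.leaf K2_ok TP_l6121 _)
                  (CovZ.leaf K2_ok TP_l6122 _))))
               (CovZ.n1 (-2240, 20720) (by decide +kernel)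
                (CovZ.n2 (-2200, 20760) (by decide +kernel)
                 (CovZ.n2 (-2200, 20720) (by decide +kernel)
                  (CovZ.badM (by decide +kernel))
                  (CovZ.n1 (-2180, 20740) (by decide +kernel)
                   (CovZ.leaf K2_ok TP_l6123 _)
                   (CovZ.leaf K2_ok TP_l6124 _)))
                 (CovZ.badM (by decide +kernel)))
                (CovZ.n1 (-2200, 20680) (by decide +kernel)
                 (CovZ.badM (by decide +kernel))
                 (CovZ.n1 (-2200, 20720) (by decide +kernel)
                  (CovZ.n2 (-2180, 20700) (by decide +kernel)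
                   (CovZ.leaf K2_ok TP_l6125 _)
                   (CovZ.leaf K2_ok TP_l6126 _))
                  (CovZ.badM (by decide +kernel))))))
              (CovZ.n1 (-2160, 20560) (by decide +kernel)
               (CovZ.badM (by decide +kernel))
               (CovZ.n1 (-2160, 20640) (by decide +kernel)
                (CovZ.n2 (-2120, 20600) (by decide +kernel)
                 (CovZ.n2 (-2160, 20600) (by decide +kernel)
                  (CovZ.n2 (-2140, 20620) (by decide +kernel)
                   (CovZ.n2 (-2140, 20600) (by decide +kernel)
                    (CovZ.leaf K2_ok TP_l6127 _)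
                    (CovZ.leaf K2_ok TP_l6128 _))
                   (CovZ.leaf K2_ok TP_l6129 _))
                  (CovZ.badM (by decide +kernel)))
                 (CovZ.n1 (-2120, 20640) (by decide +kernel)
                  (CovZ.leaf K2_ok TP_l6130 _)
                  (CovZ.n1 (-2140, 20620) (by decide +kernel)
                   (CovZ.leaf K2_ok TP_l6131 _)
                   (CovZ.leaf K2_ok TP_l6132 _))))
                (CovZ.badM (by decide +kernel))))))))))
        (CovZ.n1 (-1600, 20800) (by decide +kernel)
         (CovZ.n2 (-1600, 20480) (by decide +kernel)
          (CovZ.subM 664621930614652251177794911443354124 (by decide +kernel)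
           (CovZ.n2 (-1760, 20640) (by decide +kernel)
            (CovZ.leaf K2_ok TP_l418 _)
            (CovZ.n1 (-1760, 20480) (by decide +kernel)
             (CovZ.n2 (-1840, 20560) (by decide +kernel)
              (CovZ.leaf K2_ok TP_l419 _)
              (CovZ.leaf K2_ok TP_l420 _))
             (CovZ.leaf K2_ok TP_l421 _))))
          (CovZ.leaf K2_ok TP_l422 _))
         (CovZ.n1 (-1920, 20800) (by decide +kernel)
          (CovZ.n2 (-1760, 20960) (by decide +kernel)
           (CovZ.n2 (-1760, 20800) (by decide +kernel)
            (CovZ.leaf K2_ok TP_l423 _)
            (CovZ.leaf K2_ok TP_l424 _))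
           (CovZ.n1 (-1920, 20960) (by decide +kernel)
            (CovZ.leaf K2_ok TP_l425 _)
            (CovZ.leaf K2_ok TP_l426 _)))
          (CovZ.subM 664621930614652251177794911443354124 (by decide +kernel)
           (CovZ.n1 (-1760, 20640) (by decide +kernel)
            (CovZ.n2 (-1920, 20640) (by decide +kernel)
             (CovZ.leaf K2_ok TP_l427 _)
             (CovZ.n1 (-1840, 20560) (by decide +kernel)
              (CovZ.leaf K2_ok TP_l428 _)
              (CovZ.leaf K2_ok TP_l429 _)))
            (CovZ.n1 (-1760, 20800) (by decide +kernel)
             (CovZ.leaf K2_ok TP_l430 _)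
             (CovZ.leaf K2_ok TP_l431 _)))))))))

theorem TP_u73 : CovZ TP_M (toL (selN TP_LN 1993851214011991663949274446267679308)) [0, 7, 2, 5] (-1280, 21760) (-1920, 22400) (-2560, 21760) :=
    (CovZ.n2 (-1920, 21760) (by decide +kernel)
        (CovZ.subM 1993843578397784451192364255093456964 (by decide +kernel)
         (CovZ.n2 (-2240, 22080) (by decide +kernel)
          (CovZ.n2 (-1920, 22080) (by decide +kernel)
           (CovZ.n2 (-2080, 21920) (by decide +kernel)
            (CovZ.n2 (-2080, 22080) (by decide +kernel)
             (CovZ.leaf K2_ok TP_l438 _)
             (CovZ.n1 (-2160, 22000) (by decide +kernel)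
              (CovZ.n2 (-2160, 22080) (by decide +kernel)
               (CovZ.leaf K2_ok TP_l439 _)
               (CovZ.leaf K2_ok TP_l440 _))
              (CovZ.leaf K2_ok TP_l441 _)))
            (CovZ.leaf K2_ok TP_l442 _))
           (CovZ.subM 664614314962268350059155697027776516 (by decide +kernel)
            (CovZ.n1 (-2080, 22240) (by decide +kernel)
             (CovZ.n2 (-1920, 22240) (by decide +kernel)
              (CovZ.n2 (-2000, 22160) (by decide +kernel)
               (CovZ.leaf K2_ok TP_l443 _)
               (CovZ.leaf K2_ok TP_l444 _))
              (CovZ.n1 (-2000, 22320) (by decide +kernel)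
               (CovZ.n2 (-1920, 22320) (by decide +kernel)
                (CovZ.leaf K2_ok TP_l445 _)
                (CovZ.n1 (-1960, 22360) (by decide +kernel)
                 (CovZ.leaf K2_ok TP_l6133 _)
                 (CovZ.leaf K2_ok TP_l6134 _)))
               (CovZ.n1 (-2000, 22240) (by decide +kernel)
                (CovZ.n2 (-2040, 22280) (by decide +kernel)
                 (CovZ.leaf K2_ok TP_l446 _)
                 (CovZ.leaf K2_ok TP_l447 _))
                (CovZ.leaf K2_ok TP_l448 _))))
             (CovZ.n1 (-2080, 22080) (by decide +kernel)
              (CovZ.n2 (-2160, 22160) (by decide +kernel)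
               (CovZ.n2 (-2080, 22160) (by decide +kernel)
                (CovZ.leaf K2_ok TP_l449 _)
                (CovZ.n1 (-2120, 22200) (by decide +kernel)
                 (CovZ.leaf K2_ok TP_l450 _)
                 (CovZ.leaf K2_ok TP_l451 _)))
               (CovZ.n1 (-2160, 22080) (by decide +kernel)
                (CovZ.n2 (-2200, 22120) (by decide +kernel)
                 (CovZ.leaf K2_ok TP_l452 _)
                 (CovZ.leaf K2_ok TP_l453 _))
                (CovZ.leaf K2_ok TP_l454 _)))
              (CovZ.n1 (-2000, 22160) (by decide +kernel)
               (CovZ.leaf K2_ok TP_l455 _)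
               (CovZ.n1 (-2080, 22160) (by decide +kernel)
                (CovZ.leaf K2_ok TP_l456 _)
                (CovZ.leaf K2_ok TP_l457 _)))))))
          (CovZ.n1 (-2240, 21760) (by decide +kernel)
           (CovZ.subM 1329229263435516101133208558065680448 (by decide +kernel)
            (CovZ.n2 (-2400, 21920) (by decide +kernel)
             (CovZ.n2 (-2240, 21920) (by decide +kernel)
              (CovZ.n2 (-2320, 21840) (by decide +kernel)
               (CovZ.n2 (-2320, 21920) (by decide +kernel)
                (CovZ.leaf K2_ok TP_l6135 _)
                (CovZ.n1 (-2360, 21880) (by decide +kernel)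
                 (CovZ.leaf K2_ok TP_l6136 _)
                 (CovZ.leaf K2_ok TP_l6137 _)))
               (CovZ.leaf K2_ok TP_l6138 _))
              (CovZ.n1 (-2320, 22000) (by decide +kernel)
               (CovZ.n2 (-2240, 22000) (by decide +kernel)
                (CovZ.leaf K2_ok TP_l6139 _)
                (CovZ.n1 (-2280, 22040) (by decide +kernel)
                 (CovZ.leaf K2_ok TP_l6140 _)
                 (CovZ.n1 (-2280, 22000) (by decide +kernel)
                  (CovZ.badM (by decide +kernel))
                  (CovZ.leaf K2_ok TP_l6141 _))))
               (CovZ.n1 (-2320, 21920) (by decide +kernel)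
                (CovZ.badM (by decide +kernel))
                (CovZ.leaf K2_ok TP_l6142 _))))
             (CovZ.n1 (-2400, 21760) (by decide +kernel)
              (CovZ.n2 (-2480, 21840) (by decide +kernel)
               (CovZ.n2 (-2400, 21840) (by decide +kernel)
                (CovZ.n2 (-2440, 21800) (by decide +kernel)
                 (CovZ.n2 (-2440, 21840) (by decide +kernel)
                  (CovZ.leaf K2_ok TP_l6143 _)
                  (CovZ.leaf K2_ok TP_l6144 _))
                 (CovZ.leaf K2_ok TP_l6145 _))
                (CovZ.n1 (-2440, 21880) (by decide +kernel)
                 (CovZ.n2 (-2400, 21880) (by decide +kernel)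
                  (CovZ.leaf K2_ok TP_l6146 _)
                  (CovZ.badM (by decide +kernel)))
                 (CovZ.n1 (-2440, 21840) (by decide +kernel)
                  (CovZ.badM (by decide +kernel))
                  (CovZ.leaf K2_ok TP_l6147 _))))
               (CovZ.n1 (-2480, 21760) (by decide +kernel)
                (CovZ.badM (by decide +kernel))
                (CovZ.n1 (-2440, 21800) (by decide +kernel)
                 (CovZ.leaf K2_ok TP_l6148 _)
                 (CovZ.n1 (-2480, 21800) (by decide +kernel)
                  (CovZ.leaf K2_ok TP_l6149 _)
                  (CovZ.leaf K2_ok TP_l6150 _)))))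
              (CovZ.n1 (-2320, 21840) (by decide +kernel)
               (CovZ.leaf K2_ok TP_l6151 _)
               (CovZ.n1 (-2400, 21840) (by decide +kernel)
                (CovZ.n2 (-2360, 21880) (by decide +kernel)
                 (CovZ.leaf K2_ok TP_l6152 _)
                 (CovZ.leaf K2_ok TP_l6153 _))
                (CovZ.leaf K2_ok TP_l6154 _))))))
           (CovZ.n1 (-2080, 21920) (by decide +kernel)
            (CovZ.leaf K2_ok TP_l458 _)
            (CovZ.n1 (-2240, 21920) (by decide +kernel)
             (CovZ.n2 (-2160, 22000) (by decide +kernel)
              (CovZ.leaf K2_ok TP_l459 _)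
              (CovZ.n1 (-2240, 22000) (by decide +kernel)
               (CovZ.leaf K2_ok TP_l460 _)
               (CovZ.leaf K2_ok TP_l461 _)))
             (CovZ.leaf K2_ok TP_l462 _))))))
        (CovZ.n1 (-1600, 22080) (by decide +kernel)
         (CovZ.n2 (-1600, 21760) (by decide +kernel)
          (CovZ.leaf K2_ok TP_l463 _)
          (CovZ.leaf K2_ok TP_l464 _))
         (CovZ.n1 (-1920, 22080) (by decide +kernel)
          (CovZ.subM 664621930769394756088467445805744652 (by decide +kernel)
           (CovZ.n2 (-1760, 22240) (by decide +kernel)
            (CovZ.leaf K2_ok TP_l465 _)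
            (CovZ.n1 (-1920, 22240) (by decide +kernel)
             (CovZ.n2 (-1840, 22320) (by decide +kernel)
              (CovZ.leaf K2_ok TP_l466 _)
              (CovZ.leaf K2_ok TP_l467 _))
             (CovZ.leaf K2_ok TP_l468 _))))
          (CovZ.leaf K2_ok TP_l469 _))))

theorem TP_u74 : CovZ TP_M (toL (selN TP_LN 1993851214011991663949274446267679308)) [0, 7, 2, 5] (-1920, 22400) (-2560, 23040) (-2560, 21760) :=
    (CovZ.subM 1993843578397784451192364255093456964 (by decide +kernel)
        (CovZ.n1 (-2560, 22400) (by decide +kernel)
         (CovZ.badM (by decide +kernel))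
         (CovZ.n1 (-2240, 22080) (by decide +kernel)
          (CovZ.subM 1329229263435516101133208558065680448 (by decide +kernel)
           (CovZ.n2 (-2560, 22080) (by decide +kernel)
            (CovZ.badM (by decide +kernel))
            (CovZ.n1 (-2400, 21920) (by decide +kernel)
             (CovZ.n2 (-2560, 21920) (by decide +kernel)
              (CovZ.badM (by decide +kernel))
              (CovZ.n1 (-2480, 21840) (by decide +kernel)
               (CovZ.badM (by decide +kernel))
               (CovZ.n1 (-2480, 21920) (by decide +kernel)
                (CovZ.n2 (-2440, 21880) (by decide +kernel)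
                 (CovZ.badM (by decide +kernel))
                 (CovZ.badM (by decide +kernel)))
                (CovZ.badM (by decide +kernel)))))
             (CovZ.n1 (-2400, 22080) (by decide +kernel)
              (CovZ.n2 (-2320, 22000) (by decide +kernel)
               (CovZ.badM (by decide +kernel))
               (CovZ.n1 (-2320, 22080) (by decide +kernel)
                (CovZ.n2 (-2280, 22040) (by decide +kernel)
                 (CovZ.badM (by decide +kernel))
                 (CovZ.badM (by decide +kernel)))
                (CovZ.badM (by decide +kernel))))
              (CovZ.badM (by decide +kernel))))))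
          (CovZ.subM 664614314962268350059155697027776516 (by decide +kernel)
           (CovZ.n1 (-2240, 22400) (by decide +kernel)
            (CovZ.n2 (-2080, 22240) (by decide +kernel)
             (CovZ.n2 (-2240, 22240) (by decide +kernel)
              (CovZ.n2 (-2160, 22320) (by decide +kernel)
               (CovZ.n2 (-2160, 22240) (by decide +kernel)
                (CovZ.badM (by decide +kernel))
                (CovZ.n1 (-2120, 22280) (by decide +kernel)
                 (CovZ.n2 (-2120, 22240) (by decide +kernel)
                  (CovZ.n2 (-2140, 22260) (by decide +kernel)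
                   (CovZ.leaf K2_ok TP_l6155 _)
                   (CovZ.leaf K2_ok TP_l6156 _))
                  (CovZ.leaf K2_ok TP_l6157 _))
                 (CovZ.n1 (-2160, 22280) (by decide +kernel)
                  (CovZ.badM (by decide +kernel))
                  (CovZ.n1 (-2140, 22260) (by decide +kernel)
                   (CovZ.n2 (-2160, 22260) (by decide +kernel)
                    (CovZ.n2 (-2150, 22270) (by decide +kernel)
                     (CovZ.leaf K2_ok TP_l6158 _)
                     (CovZ.badM (by decide +kernel)))
                    (CovZ.leaf K2_ok TP_l6159 _))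
                   (CovZ.n1 (-2140, 22280) (by decide +kernel)
                    (CovZ.leaf K2_ok TP_l6160 _)
                    (CovZ.n1 (-2150, 22270) (by decide +kernel)
                     (CovZ.leaf K2_ok TP_l6161 _)
                     (CovZ.leaf K2_ok TP_l6162 _)))))))
               (CovZ.badM (by decide +kernel)))
              (CovZ.n1 (-2160, 22160) (by decide +kernel)
               (CovZ.n2 (-2240, 22160) (by decide +kernel)
                (CovZ.n2 (-2200, 22200) (by decide +kernel)
                 (CovZ.n2 (-2200, 22160) (by decide +kernel)
                  (CovZ.n2 (-2220, 22180) (by decide +kernel)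
                   (CovZ.n2 (-2200, 22180) (by decide +kernel)
                    (CovZ.leaf K2_ok TP_l6163 _)
                    (CovZ.badM (by decide +kernel)))
                   (CovZ.n1 (-2220, 22160) (by decide +kernel)
                    (CovZ.leaf K2_ok TP_l6164 _)
                    (CovZ.leaf K2_ok TP_l6165 _)))
                  (CovZ.leaf K2_ok TP_l470 _))
                 (CovZ.n1 (-2240, 22200) (by decide +kernel)
                  (CovZ.badM (by decide +kernel))
                  (CovZ.n1 (-2220, 22180) (by decide +kernel)
                   (CovZ.n2 (-2240, 22180) (by decide +kernel)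
                    (CovZ.badM (by decide +kernel))
                    (CovZ.leaf K2_ok TP_l6166 _))
                   (CovZ.badM (by decide +kernel)))))
                (CovZ.n1 (-2200, 22120) (by decide +kernel)
                 (CovZ.n2 (-2240, 22120) (by decide +kernel)
                  (CovZ.leaf K2_ok TP_l6167 _)
                  (CovZ.leaf K2_ok TP_l6168 _))
                 (CovZ.n1 (-2200, 22160) (by decide +kernel)
                  (CovZ.leaf K2_ok TP_l471 _)
                  (CovZ.leaf K2_ok TP_l6169 _))))
               (CovZ.n1 (-2160, 22240) (by decide +kernel)
                (CovZ.n2 (-2120, 22200) (by decide +kernel)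
                 (CovZ.n2 (-2160, 22200) (by decide +kernel)
                  (CovZ.leaf K2_ok TP_l6170 _)
                  (CovZ.leaf K2_ok TP_l472 _))
                 (CovZ.n1 (-2120, 22240) (by decide +kernel)
                  (CovZ.leaf K2_ok TP_l6171 _)
                  (CovZ.leaf K2_ok TP_l6172 _)))
                (CovZ.n1 (-2200, 22200) (by decide +kernel)
                 (CovZ.n2 (-2200, 22240) (by decide +kernel)
                  (CovZ.n2 (-2180, 22220) (by decide +kernel)
                   (CovZ.n2 (-2200, 22220) (by decide +kernel)
                    (CovZ.n2 (-2190, 22230) (by decide +kernel)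
                     (CovZ.leaf K2_ok TP_l6173 _)
                     (CovZ.n1 (-2200, 22230) (by decide +kernel)
                      (CovZ.badM (by decide +kernel))
                      (CovZ.leaf K2_ok TP_l6174 _)))
                    (CovZ.leaf K2_ok TP_l6175 _))
                   (CovZ.n1 (-2180, 22240) (by decide +kernel)
                    (CovZ.leaf K2_ok TP_l6176 _)
                    (CovZ.n1 (-2190, 22230) (by decide +kernel)
                     (CovZ.badM (by decide +kernel))
                     (CovZ.leaf K2_ok TP_l6177 _))))
                  (CovZ.badM (by decide +kernel)))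
                 (CovZ.n1 (-2160, 22200) (by decide +kernel)
                  (CovZ.leaf K2_ok TP_l473 _)
                  (CovZ.n1 (-2180, 22220) (by decide +kernel)
                   (CovZ.n2 (-2160, 22220) (by decide +kernel)
                    (CovZ.leaf K2_ok TP_l6178 _)
                    (CovZ.leaf K2_ok TP_l6179 _))
                   (CovZ.leaf K2_ok TP_l6180 _)))))))
             (CovZ.n1 (-2080, 22400) (by decide +kernel)
              (CovZ.n2 (-2000, 22320) (by decide +kernel)
               (CovZ.n2 (-2080, 22320) (by decide +kernel)
                (CovZ.n2 (-2040, 22360) (by decide +kernel)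
                 (CovZ.n2 (-2040, 22320) (by decide +kernel)
                  (CovZ.n2 (-2060, 22340) (by decide +kernel)
                   (CovZ.leaf K2_ok TP_l6181 _)
                   (CovZ.leaf K2_ok TP_l6182 _))
                  (CovZ.leaf K2_ok TP_l6183 _))
                 (CovZ.n1 (-2080, 22360) (by decide +kernel)
                  (CovZ.badM (by decide +kernel))
                  (CovZ.n1 (-2060, 22340) (by decide +kernel)
                   (CovZ.n2 (-2080, 22340) (by decide +kernel)
                    (CovZ.leaf K2_ok TP_l6184 _)
                    (CovZ.leaf K2_ok TP_l6185 _))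
                   (CovZ.leaf K2_ok TP_l6186 _))))
                (CovZ.n1 (-2040, 22280) (by decide +kernel)
                 (CovZ.n2 (-2080, 22280) (by decide +kernel)
                  (CovZ.leaf K2_ok TP_l474 _)
                  (CovZ.leaf K2_ok TP_l475 _))
                 (CovZ.leaf K2_ok TP_l476 _)))
               (CovZ.n1 (-2000, 22400) (by decide +kernel)
                (CovZ.n2 (-1960, 22360) (by decide +kernel)
                 (CovZ.leaf K2_ok TP_l6187 _)
                 (CovZ.badM (by decide +kernel)))
                (CovZ.n1 (-2040, 22360) (by decide +kernel)
                 (CovZ.badM (by decide +kernel))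
                 (CovZ.n1 (-2000, 22360) (by decide +kernel)
                  (CovZ.leaf K2_ok TP_l6188 _)
                  (CovZ.badM (by decide +kernel))))))
              (CovZ.n1 (-2160, 22320) (by decide +kernel)
               (CovZ.badM (by decide +kernel))
               (CovZ.n1 (-2080, 22320) (by decide +kernel)
                (CovZ.n2 (-2120, 22280) (by decide +kernel)
                 (CovZ.badM (by decide +kernel))
                 (CovZ.n1 (-2080, 22280) (by decide +kernel)
                  (CovZ.leaf K2_ok TP_l6189 _)
                  (CovZ.badM (by decide +kernel))))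
                (CovZ.badM (by decide +kernel))))))
            (CovZ.badM (by decide +kernel)))))))

theorem TP_u75 : CovZ TP_M (toL (selN TP_LN 1993843578397784451192364255093456964)) [0, 7, 2, 5] (-2560, 21760) (-2560, 21120) (-1920, 21120) :=
    (CovZ.n2 (-2240, 21440) (by decide +kernel)
          (CovZ.n2 (-2240, 21120) (by decide +kernel)
           (CovZ.subM 1267650600228229401497785335872 (by decide +kernel)
            (CovZ.n2 (-2400, 21280) (by decide +kernel)
             (CovZ.n2 (-2240, 21280) (by decide +kernel)
              (CovZ.n2 (-2320, 21200) (by decide +kernel)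
               (CovZ.n2 (-2320, 21280) (by decide +kernel)
                (CovZ.n2 (-2280, 21240) (by decide +kernel)
                 (CovZ.leaf K2_ok TP_l6190 _)
                 (CovZ.leaf K2_ok TP_l6191 _))
                (CovZ.n1 (-2360, 21240) (by decide +kernel)
                 (CovZ.n2 (-2360, 21280) (by decide +kernel)
                  (CovZ.leaf K2_ok TP_l6192 _)
                  (CovZ.n1 (-2380, 21260) (by decide +kernel)
                   (CovZ.leaf K2_ok TP_l6193 _)
                   (CovZ.leaf K2_ok TP_l6194 _)))
                 (CovZ.n1 (-2320, 21240) (by decide +kernel)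
                  (CovZ.leaf K2_ok TP_l6195 _)
                  (CovZ.leaf K2_ok TP_l6196 _))))
               (CovZ.n1 (-2240, 21200) (by decide +kernel)
                (CovZ.n2 (-2280, 21160) (by decide +kernel)
                 (CovZ.n2 (-2280, 21200) (by decide +kernel)
                  (CovZ.leaf K2_ok TP_l6197 _)
                  (CovZ.leaf K2_ok TP_l6198 _))
                 (CovZ.leaf K2_ok TP_l6199 _))
                (CovZ.n1 (-2280, 21240) (by decide +kernel)
                 (CovZ.leaf K2_ok TP_l6200 _)
                 (CovZ.leaf K2_ok TP_l6201 _))))
              (CovZ.n1 (-2320, 21360) (by decide +kernel)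
               (CovZ.n2 (-2240, 21360) (by decide +kernel)
                (CovZ.leaf K2_ok TP_l6202 _)
                (CovZ.leaf K2_ok TP_l6203 _))
               (CovZ.n1 (-2320, 21280) (by decide +kernel)
                (CovZ.n2 (-2360, 21320) (by decide +kernel)
                 (CovZ.leaf K2_ok TP_l6204 _)
                 (CovZ.n1 (-2360, 21280) (by decide +kernel)
                  (CovZ.leaf K2_ok TP_l6205 _)
                  (CovZ.leaf K2_ok TP_l6206 _)))
                (CovZ.leaf K2_ok TP_l6207 _))))
             (CovZ.n1 (-2400, 21120) (by decide +kernel)
              (CovZ.badM (by decide +kernel))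
              (CovZ.n1 (-2320, 21200) (by decide +kernel)
               (CovZ.n2 (-2320, 21120) (by decide +kernel)
                (CovZ.badM (by decide +kernel))
                (CovZ.n1 (-2280, 21160) (by decide +kernel)
                 (CovZ.n2 (-2280, 21120) (by decide +kernel)
                  (CovZ.leaf K2_ok TP_l6208 _)
                  (CovZ.leaf K2_ok TP_l6209 _))
                 (CovZ.n1 (-2320, 21160) (by decide +kernel)
                  (CovZ.leaf K2_ok TP_l6210 _)
                  (CovZ.leaf K2_ok TP_l6211 _))))
               (CovZ.n1 (-2400, 21200) (by decide +kernel)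
                (CovZ.n2 (-2360, 21240) (by decide +kernel)
                 (CovZ.n2 (-2360, 21200) (by decide +kernel)
                  (CovZ.n2 (-2380, 21220) (by decide +kernel)
                   (CovZ.leaf K2_ok TP_l6212 _)
                   (CovZ.n1 (-2380, 21200) (by decide +kernel)
                    (CovZ.leaf K2_ok TP_l6213 _)
                    (CovZ.leaf K2_ok TP_l6214 _)))
                  (CovZ.leaf K2_ok TP_l6215 _))
                 (CovZ.n1 (-2400, 21240) (by decide +kernel)
                  (CovZ.n2 (-2380, 21260) (by decide +kernel)
                   (CovZ.leaf K2_ok TP_l6216 _)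
                   (CovZ.n1 (-2400, 21260) (by decide +kernel)
                    (CovZ.leaf K2_ok TP_l6217 _)
                    (CovZ.leaf K2_ok TP_l6218 _)))
                  (CovZ.n1 (-2380, 21220) (by decide +kernel)
                   (CovZ.n2 (-2400, 21220) (by decide +kernel)
                    (CovZ.leaf K2_ok TP_l6219 _)
                    (CovZ.leaf K2_ok TP_l6220 _))
                   (CovZ.leaf K2_ok TP_l6221 _))))
                (CovZ.badM (by decide +kernel)))))))
           (CovZ.n1 (-2080, 21280) (by decide +kernel)
            (CovZ.n2 (-2080, 21120) (by decide +kernel)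
             (CovZ.n2 (-2160, 21200) (by decide +kernel)
              (CovZ.leaf K2_ok TP_l477 _)
              (CovZ.n1 (-2160, 21120) (by decide +kernel)
               (CovZ.leaf K2_ok TP_l478 _)
               (CovZ.leaf K2_ok TP_l479 _)))
             (CovZ.leaf K2_ok TP_l480 _))
            (CovZ.n1 (-2240, 21280) (by decide +kernel)
             (CovZ.n2 (-2160, 21360) (by decide +kernel)
              (CovZ.leaf K2_ok TP_l481 _)
              (CovZ.leaf K2_ok TP_l482 _))
             (CovZ.n1 (-2160, 21200) (by decide +kernel)
              (CovZ.n2 (-2240, 21200) (by decide +kernel)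
               (CovZ.leaf K2_ok TP_l483 _)
               (CovZ.leaf K2_ok TP_l484 _))
              (CovZ.leaf K2_ok TP_l485 _)))))
          (CovZ.subM 1329229263435516101133208558065680448 (by decide +kernel)
           (CovZ.n1 (-2560, 21440) (by decide +kernel)
            (CovZ.n2 (-2400, 21600) (by decide +kernel)
             (CovZ.n2 (-2400, 21440) (by decide +kernel)
              (CovZ.n2 (-2480, 21520) (by decide +kernel)
               (CovZ.n2 (-2400, 21520) (by decide +kernel)
                (CovZ.n2 (-2440, 21480) (by decide +kernel)
                 (CovZ.n2 (-2440, 21520) (by decide +kernel)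
                  (CovZ.leaf K2_ok TP_l6222 _)
                  (CovZ.badM (by decide +kernel)))
                 (CovZ.n1 (-2400, 21480) (by decide +kernel)
                  (CovZ.leaf K2_ok TP_l6223 _)
                  (CovZ.leaf K2_ok TP_l6224 _)))
                (CovZ.n1 (-2440, 21560) (by decide +kernel)
                 (CovZ.leaf K2_ok TP_l6225 _)
                 (CovZ.n1 (-2440, 21520) (by decide +kernel)
                  (CovZ.leaf K2_ok TP_l6226 _)
                  (CovZ.leaf K2_ok TP_l6227 _))))
               (CovZ.n1 (-2480, 21440) (by decide +kernel)
                (CovZ.badM (by decide +kernel))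
                (CovZ.n1 (-2440, 21480) (by decide +kernel)
                 (CovZ.n2 (-2440, 21440) (by decide +kernel)
                  (CovZ.badM (by decide +kernel))
                  (CovZ.leaf K2_ok TP_l6228 _))
                 (CovZ.badM (by decide +kernel)))))
              (CovZ.n1 (-2320, 21520) (by decide +kernel)
               (CovZ.n2 (-2320, 21440) (by decide +kernel)
                (CovZ.n2 (-2360, 21480) (by decide +kernel)
                 (CovZ.leaf K2_ok TP_l6229 _)
                 (CovZ.leaf K2_ok TP_l6230 _))
                (CovZ.leaf K2_ok TP_l6231 _))
               (CovZ.n1 (-2400, 21520) (by decide +kernel)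
                (CovZ.leaf K2_ok TP_l6232 _)
                (CovZ.n1 (-2360, 21480) (by decide +kernel)
                 (CovZ.leaf K2_ok TP_l6233 _)
                 (CovZ.leaf K2_ok TP_l6234 _)))))
             (CovZ.n1 (-2560, 21600) (by decide +kernel)
              (CovZ.n2 (-2480, 21680) (by decide +kernel)
               (CovZ.n2 (-2480, 21600) (by decide +kernel)
                (CovZ.badM (by decide +kernel))
                (CovZ.n1 (-2440, 21640) (by decide +kernel)
                 (CovZ.n2 (-2440, 21600) (by decide +kernel)
                  (CovZ.leaf K2_ok TP_l6235 _)
                  (CovZ.leaf K2_ok TP_l6236 _))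
                 (CovZ.leaf K2_ok TP_l6237 _)))
               (CovZ.badM (by decide +kernel)))
              (CovZ.n1 (-2480, 21520) (by decide +kernel)
               (CovZ.badM (by decide +kernel))
               (CovZ.n1 (-2480, 21600) (by decide +kernel)
                (CovZ.n2 (-2440, 21560) (by decide +kernel)
                 (CovZ.n2 (-2480, 21560) (by decide +kernel)
                  (CovZ.leaf K2_ok TP_l6238 _)
                  (CovZ.leaf K2_ok TP_l6239 _))
                 (CovZ.n1 (-2440, 21600) (by decide +kernel)
                  (CovZ.leaf K2_ok TP_l6240 _)
                  (CovZ.leaf K2_ok TP_l6241 _)))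
                (CovZ.badM (by decide +kernel))))))
            (CovZ.n1 (-2400, 21280) (by decide +kernel)
             (CovZ.n2 (-2560, 21280) (by decide +kernel)
              (CovZ.n2 (-2480, 21360) (by decide +kernel)
               (CovZ.badM (by decide +kernel))
               (CovZ.badM (by decide +kernel)))
              (CovZ.badM (by decide +kernel)))
             (CovZ.n1 (-2400, 21440) (by decide +kernel)
              (CovZ.n2 (-2320, 21360) (by decide +kernel)
               (CovZ.n2 (-2400, 21360) (by decide +kernel)
                (CovZ.n2 (-2360, 21400) (by decide +kernel)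
                 (CovZ.n2 (-2360, 21360) (by decide +kernel)
                  (CovZ.leaf K2_ok TP_l6242 _)
                  (CovZ.leaf K2_ok TP_l6243 _))
                 (CovZ.leaf K2_ok TP_l6244 _))
                (CovZ.n1 (-2360, 21320) (by decide +kernel)
                 (CovZ.n2 (-2400, 21320) (by decide +kernel)
                  (CovZ.leaf K2_ok TP_l6245 _)
                  (CovZ.leaf K2_ok TP_l6246 _))
                 (CovZ.n1 (-2360, 21360) (by decide +kernel)
                  (CovZ.leaf K2_ok TP_l6247 _)
                  (CovZ.leaf K2_ok TP_l6248 _))))
               (CovZ.n1 (-2320, 21440) (by decide +kernel)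
                (CovZ.leaf K2_ok TP_l6249 _)
                (CovZ.n1 (-2360, 21400) (by decide +kernel)
                 (CovZ.leaf K2_ok TP_l6250 _)
                 (CovZ.leaf K2_ok TP_l6251 _))))
              (CovZ.n1 (-2480, 21360) (by decide +kernel)
               (CovZ.n2 (-2480, 21440) (by decide +kernel)
                (CovZ.n2 (-2440, 21400) (by decide +kernel)
                 (CovZ.badM (by decide +kernel))
                 (CovZ.n1 (-2440, 21440) (by decide +kernel)
                  (CovZ.leaf K2_ok TP_l6252 _)
                  (CovZ.badM (by decide +kernel))))
                (CovZ.badM (by decide +kernel)))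
               (CovZ.n1 (-2400, 21360) (by decide +kernel)
                (CovZ.badM (by decide +kernel))
                (CovZ.n1 (-2440, 21400) (by decide +kernel)
                 (CovZ.n2 (-2400, 21400) (by decide +kernel)
                  (CovZ.badM (by decide +kernel))
                  (CovZ.leaf K2_ok TP_l6253 _))
                 (CovZ.badM (by decide +kernel))))))))))

theorem TP_u76 : CovZ TP_M (toL (selN TP_LN 1993843578397784451192364255093456964)) [0, 7, 2, 5] (-2560, 21120) (-2560, 20480) (-1920, 21120) :=
    (CovZ.n1 (-2240, 20800) (by decide +kernel)
          (CovZ.n2 (-2560, 20800) (by decide +kernel)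
           (CovZ.n2 (-2400, 20960) (by decide +kernel)
            (CovZ.badM (by decide +kernel))
            (CovZ.badM (by decide +kernel)))
           (CovZ.badM (by decide +kernel)))
          (CovZ.n1 (-2240, 21120) (by decide +kernel)
           (CovZ.n2 (-2080, 20960) (by decide +kernel)
            (CovZ.subM 664614314959850498419926438686752836 (by decide +kernel)
             (CovZ.n2 (-2240, 20960) (by decide +kernel)
              (CovZ.n2 (-2160, 21040) (by decide +kernel)
               (CovZ.n2 (-2160, 20960) (by decide +kernel)
                (CovZ.n2 (-2200, 21000) (by decide +kernel)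
                 (CovZ.leaf K2_ok TP_l486 _)
                 (CovZ.leaf K2_ok TP_l487 _))
                (CovZ.leaf K2_ok TP_l488 _))
               (CovZ.n1 (-2240, 21040) (by decide +kernel)
                (CovZ.leaf K2_ok TP_l489 _)
                (CovZ.n1 (-2200, 21000) (by decide +kernel)
                 (CovZ.leaf K2_ok TP_l6254 _)
                 (CovZ.leaf K2_ok TP_l490 _))))
              (CovZ.n1 (-2160, 20880) (by decide +kernel)
               (CovZ.subM 154742504910672534362390532 (by decide +kernel)
                (CovZ.n2 (-2240, 20880) (by decide +kernel)
                 (CovZ.n2 (-2200, 20920) (by decide +kernel)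
                  (CovZ.n2 (-2200, 20880) (by decide +kernel)
                   (CovZ.leaf K2_ok TP_l6255 _)
                   (CovZ.leaf K2_ok TP_l491 _))
                  (CovZ.n1 (-2240, 20920) (by decide +kernel)
                   (CovZ.leaf K2_ok TP_l6256 _)
                   (CovZ.leaf K2_ok TP_l6257 _)))
                 (CovZ.n1 (-2200, 20840) (by decide +kernel)
                  (CovZ.n2 (-2240, 20840) (by decide +kernel)
                   (CovZ.leaf K2_ok TP_l6258 _)
                   (CovZ.badM (by decide +kernel)))
                  (CovZ.n1 (-2200, 20880) (by decide +kernel)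
                   (CovZ.leaf K2_ok TP_l492 _)
                   (CovZ.leaf K2_ok TP_l6259 _)))))
               (CovZ.n1 (-2160, 20960) (by decide +kernel)
                (CovZ.leaf K2_ok TP_l493 _)
                (CovZ.n1 (-2200, 20920) (by decide +kernel)
                 (CovZ.leaf K2_ok TP_l494 _)
                 (CovZ.leaf K2_ok TP_l495 _))))))
            (CovZ.n1 (-2080, 21120) (by decide +kernel)
             (CovZ.leaf K2_ok TP_l496 _)
             (CovZ.subM 664614314959850498419926438686752836 (by decide +kernel)
              (CovZ.n1 (-2160, 21040) (by decide +kernel)
               (CovZ.n2 (-2160, 21120) (by decide +kernel)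
                (CovZ.leaf K2_ok TP_l497 _)
                (CovZ.leaf K2_ok TP_l498 _))
               (CovZ.n1 (-2080, 21040) (by decide +kernel)
                (CovZ.leaf K2_ok TP_l499 _)
                (CovZ.leaf K2_ok TP_l500 _))))))
           (CovZ.subM 8388672 (by decide +kernel)
            (CovZ.n1 (-2400, 20960) (by decide +kernel)
             (CovZ.n2 (-2400, 21120) (by decide +kernel)
              (CovZ.n2 (-2320, 21040) (by decide +kernel)
               (CovZ.badM (by decide +kernel))
               (CovZ.n1 (-2320, 21120) (by decide +kernel)
                (CovZ.n2 (-2280, 21080) (by decide +kernel)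
                 (CovZ.n2 (-2320, 21080) (by decide +kernel)
                  (CovZ.leaf K2_ok TP_l6260 _)
                  (CovZ.badM (by decide +kernel)))
                 (CovZ.n1 (-2280, 21120) (by decide +kernel)
                  (CovZ.leaf K2_ok TP_l6261 _)
                  (CovZ.leaf K2_ok TP_l6262 _)))
                (CovZ.badM (by decide +kernel))))
              (CovZ.badM (by decide +kernel)))
             (CovZ.n1 (-2240, 20960) (by decide +kernel)
              (CovZ.badM (by decide +kernel))
              (CovZ.n1 (-2320, 21040) (by decide +kernel)
               (CovZ.n2 (-2240, 21040) (by decide +kernel)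
                (CovZ.n2 (-2280, 21000) (by decide +kernel)
                 (CovZ.n2 (-2280, 21040) (by decide +kernel)
                  (CovZ.leaf K2_ok TP_l6263 _)
                  (CovZ.badM (by decide +kernel)))
                 (CovZ.n1 (-2240, 21000) (by decide +kernel)
                  (CovZ.leaf K2_ok TP_l6264 _)
                  (CovZ.leaf K2_ok TP_l6265 _)))
                (CovZ.n1 (-2280, 21080) (by decide +kernel)
                 (CovZ.leaf K2_ok TP_l6266 _)
                 (CovZ.n1 (-2280, 21040) (by decide +kernel)
                  (CovZ.badM (by decide +kernel))
                  (CovZ.leaf K2_ok TP_l6267 _))))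
               (CovZ.n1 (-2320, 20960) (by decide +kernel)
                (CovZ.badM (by decide +kernel))
                (CovZ.n1 (-2280, 21000) (by decide +kernel)
                 (CovZ.n2 (-2280, 20960) (by decide +kernel)
                  (CovZ.badM (by decide +kernel))
                  (CovZ.leaf K2_ok TP_l6268 _))
                 (CovZ.badM (by decide +kernel))))))))))

theorem TP_u77 : CovZ TP_M (toL (selN TP_LN 1993851214011991663949274446267679308)) [0, 7, 2, 5] (-2560, 23040) (-1920, 22400) (-1280, 23040) :=
    (CovZ.subM 7635614207212756910191174222344 (by decide +kernel)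
        (CovZ.n2 (-1920, 23040) (by decide +kernel)
         (CovZ.n2 (-1600, 22720) (by decide +kernel)
          (CovZ.n2 (-1920, 22720) (by decide +kernel)
           (CovZ.subM 9903525036649525068838208000 (by decide +kernel)
            (CovZ.n2 (-1760, 22880) (by decide +kernel)
             (CovZ.n2 (-1760, 22720) (by decide +kernel)
              (CovZ.badM (by decide +kernel))
              (CovZ.n1 (-1680, 22800) (by decide +kernel)
               (CovZ.n2 (-1680, 22720) (by decide +kernel)
                (CovZ.n2 (-1720, 22760) (by decide +kernel)
                 (CovZ.n2 (-1680, 22760) (by decide +kernel)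
                  (CovZ.leaf K2_ok TP_l6284 _)
                  (CovZ.n1 (-1700, 22780) (by decide +kernel)
                   (CovZ.leaf K2_ok TP_l6285 _)
                   (CovZ.leaf K2_ok TP_l6286 _)))
                 (CovZ.n1 (-1720, 22720) (by decide +kernel)
                  (CovZ.badM (by decide +kernel))
                  (CovZ.leaf K2_ok TP_l6287 _)))
                (CovZ.n1 (-1640, 22760) (by decide +kernel)
                 (CovZ.leaf K2_ok TP_l528 _)
                 (CovZ.leaf K2_ok TP_l529 _)))
               (CovZ.n1 (-1760, 22800) (by decide +kernel)
                (CovZ.badM (by decide +kernel))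
                (CovZ.n1 (-1720, 22760) (by decide +kernel)
                 (CovZ.badM (by decide +kernel))
                 (CovZ.n1 (-1720, 22800) (by decide +kernel)
                  (CovZ.n2 (-1700, 22780) (by decide +kernel)
                   (CovZ.leaf K2_ok TP_l6288 _)
                   (CovZ.leaf K2_ok TP_l6289 _))
                  (CovZ.badM (by decide +kernel)))))))
             (CovZ.badM (by decide +kernel))))
           (CovZ.n1 (-1760, 22560) (by decide +kernel)
            (CovZ.subM 5070602400912920983686533349384 (by decide +kernel)
             (CovZ.n2 (-1920, 22560) (by decide +kernel)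
              (CovZ.n2 (-1840, 22640) (by decide +kernel)
               (CovZ.n2 (-1840, 22560) (by decide +kernel)
                (CovZ.n2 (-1880, 22600) (by decide +kernel)
                 (CovZ.n2 (-1840, 22600) (by decide +kernel)
                  (CovZ.n2 (-1860, 22580) (by decide +kernel)
                   (CovZ.leaf K2_ok TP_l6290 _)
                   (CovZ.leaf K2_ok TP_l6291 _))
                  (CovZ.badM (by decide +kernel)))
                 (CovZ.n1 (-1880, 22560) (by decide +kernel)
                  (CovZ.badM (by decide +kernel))
                  (CovZ.n1 (-1860, 22580) (by decide +kernel)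
                   (CovZ.leaf K2_ok TP_l6292 _)
                   (CovZ.leaf K2_ok TP_l6293 _))))
                (CovZ.n1 (-1800, 22600) (by decide +kernel)
                 (CovZ.leaf K2_ok TP_l6294 _)
                 (CovZ.n1 (-1840, 22600) (by decide +kernel)
                  (CovZ.leaf K2_ok TP_l6295 _)
                  (CovZ.leaf K2_ok TP_l6296 _))))
               (CovZ.n1 (-1920, 22640) (by decide +kernel)
                (CovZ.badM (by decide +kernel))
                (CovZ.n1 (-1880, 22600) (by decide +kernel)
                 (CovZ.badM (by decide +kernel))
                 (CovZ.badM (by decide +kernel)))))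
              (CovZ.n1 (-1840, 22480) (by decide +kernel)
               (CovZ.n2 (-1920, 22480) (by decide +kernel)
                (CovZ.n2 (-1880, 22520) (by decide +kernel)
                 (CovZ.n2 (-1880, 22480) (by decide +kernel)
                  (CovZ.leaf K2_ok TP_l530 _)
                  (CovZ.leaf K2_ok TP_l531 _))
                 (CovZ.n1 (-1920, 22520) (by decide +kernel)
                  (CovZ.badM (by decide +kernel))
                  (CovZ.leaf K2_ok TP_l532 _)))
                (CovZ.leaf K2_ok TP_l533 _))
               (CovZ.n1 (-1840, 22560) (by decide +kernel)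
                (CovZ.leaf K2_ok TP_l534 _)
                (CovZ.n1 (-1880, 22520) (by decide +kernel)
                 (CovZ.n2 (-1880, 22560) (by decide +kernel)
                  (CovZ.leaf K2_ok TP_l6297 _)
                  (CovZ.badM (by decide +kernel)))
                 (CovZ.n1 (-1840, 22520) (by decide +kernel)
                  (CovZ.leaf K2_ok TP_l535 _)
                  (CovZ.leaf K2_ok TP_l6298 _)))))))
            (CovZ.subM 7615807126406029311748777968128 (by decide +kernel)
             (CovZ.n1 (-1760, 22720) (by decide +kernel)
              (CovZ.n2 (-1680, 22640) (by decide +kernel)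
               (CovZ.n2 (-1760, 22640) (by decide +kernel)
                (CovZ.n2 (-1720, 22680) (by decide +kernel)
                 (CovZ.leaf K2_ok TP_l6299 _)
                 (CovZ.n1 (-1760, 22680) (by decide +kernel)
                  (CovZ.leaf K2_ok TP_l6300 _)
                  (CovZ.leaf K2_ok TP_l6301 _)))
                (CovZ.leaf K2_ok TP_l6302 _))
               (CovZ.n1 (-1680, 22720) (by decide +kernel)
                (CovZ.leaf K2_ok TP_l536 _)
                (CovZ.n1 (-1720, 22680) (by decide +kernel)
                 (CovZ.leaf K2_ok TP_l6303 _)
                 (CovZ.leaf K2_ok TP_l6304 _))))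
              (CovZ.subM 5070602400912920983686533349376 (by decide +kernel)
               (CovZ.n1 (-1840, 22640) (by decide +kernel)
                (CovZ.n2 (-1840, 22720) (by decide +kernel)
                 (CovZ.n2 (-1800, 22680) (by decide +kernel)
                  (CovZ.badM (by decide +kernel))
                  (CovZ.badM (by decide +kernel)))
                 (CovZ.badM (by decide +kernel)))
                (CovZ.n1 (-1760, 22640) (by decide +kernel)
                 (CovZ.n2 (-1800, 22600) (by decide +kernel)
                  (CovZ.n2 (-1800, 22640) (by decide +kernel)
                   (CovZ.leaf K2_ok TP_l6305 _)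
                   (CovZ.leaf K2_ok TP_l6306 _))
                  (CovZ.leaf K2_ok TP_l6307 _))
                 (CovZ.n1 (-1800, 22680) (by decide +kernel)
                  (CovZ.n2 (-1760, 22680) (by decide +kernel)
                   (CovZ.leaf K2_ok TP_l6308 _)
                   (CovZ.badM (by decide +kernel)))
                  (CovZ.n1 (-1800, 22640) (by decide +kernel)
                   (CovZ.badM (by decide +kernel))
                   (CovZ.leaf K2_ok TP_l6309 _))))))))))
          (CovZ.n1 (-1600, 23040) (by decide +kernel)
           (CovZ.n2 (-1440, 22880) (by decide +kernel)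
            (CovZ.n2 (-1600, 22880) (by decide +kernel)
             (CovZ.subM 19807080806727598442396254208 (by decide +kernel)
              (CovZ.n2 (-1520, 22960) (by decide +kernel)
               (CovZ.n2 (-1520, 22880) (by decide +kernel)
                (CovZ.n2 (-1560, 22920) (by decide +kernel)
                 (CovZ.leaf K2_ok TP_l6310 _)
                 (CovZ.leaf K2_ok TP_l6311 _))
                (CovZ.leaf K2_ok TP_l537 _))
               (CovZ.n1 (-1600, 22960) (by decide +kernel)
                (CovZ.n2 (-1560, 23000) (by decide +kernel)
                 (CovZ.n2 (-1560, 22960) (by decide +kernel)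
                  (CovZ.badM (by decide +kernel))
                  (CovZ.leaf K2_ok TP_l6312 _))
                 (CovZ.badM (by decide +kernel)))
                (CovZ.n1 (-1560, 22920) (by decide +kernel)
                 (CovZ.badM (by decide +kernel))
                 (CovZ.n1 (-1560, 22960) (by decide +kernel)
                  (CovZ.leaf K2_ok TP_l6313 _)
                  (CovZ.badM (by decide +kernel)))))))
             (CovZ.n1 (-1520, 22800) (by decide +kernel)
              (CovZ.n2 (-1600, 22800) (by decide +kernel)
               (CovZ.leaf K2_ok TP_l538 _)
               (CovZ.leaf K2_ok TP_l539 _))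
              (CovZ.n1 (-1520, 22880) (by decide +kernel)
               (CovZ.leaf K2_ok TP_l540 _)
               (CovZ.leaf K2_ok TP_l541 _))))
            (CovZ.subM 19807080806727598442396254208 (by decide +kernel)
             (CovZ.n1 (-1440, 23040) (by decide +kernel)
              (CovZ.n2 (-1360, 22960) (by decide +kernel)
               (CovZ.n2 (-1440, 22960) (by decide +kernel)
                (CovZ.leaf K2_ok TP_l542 _)
                (CovZ.leaf K2_ok TP_l543 _))
               (CovZ.leaf K2_ok TP_l544 _))
              (CovZ.n1 (-1520, 22960) (by decide +kernel)
               (CovZ.n2 (-1520, 23040) (by decide +kernel)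
                (CovZ.n2 (-1480, 23000) (by decide +kernel)
                 (CovZ.n2 (-1520, 23000) (by decide +kernel)
                  (CovZ.leaf K2_ok TP_l545 _)
                  (CovZ.leaf K2_ok TP_l546 _))
                 (CovZ.n1 (-1480, 23040) (by decide +kernel)
                  (CovZ.leaf K2_ok TP_l547 _)
                  (CovZ.leaf K2_ok TP_l548 _)))
                (CovZ.n1 (-1560, 23000) (by decide +kernel)
                 (CovZ.badM (by decide +kernel))
                 (CovZ.n1 (-1520, 23000) (by decide +kernel)
                  (CovZ.leaf K2_ok TP_l6314 _)
                  (CovZ.badM (by decide +kernel)))))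
               (CovZ.n1 (-1440, 22960) (by decide +kernel)
                (CovZ.leaf K2_ok TP_l549 _)
                (CovZ.n1 (-1480, 23000) (by decide +kernel)
                 (CovZ.leaf K2_ok TP_l550 _)
                 (CovZ.leaf K2_ok TP_l551 _)))))))
           (CovZ.subM 9903525036649525068838208000 (by decide +kernel)
            (CovZ.n1 (-1760, 22880) (by decide +kernel)
             (CovZ.badM (by decide +kernel))
             (CovZ.n1 (-1600, 22880) (by decide +kernel)
              (CovZ.n2 (-1680, 22800) (by decide +kernel)
               (CovZ.n2 (-1680, 22880) (by decide +kernel)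
                (CovZ.n2 (-1640, 22840) (by decide +kernel)
                 (CovZ.n2 (-1680, 22840) (by decide +kernel)
                  (CovZ.badM (by decide +kernel))
                  (CovZ.leaf K2_ok TP_l552 _))
                 (CovZ.n1 (-1640, 22880) (by decide +kernel)
                  (CovZ.leaf K2_ok TP_l6315 _)
                  (CovZ.badM (by decide +kernel))))
                (CovZ.badM (by decide +kernel)))
               (CovZ.n1 (-1600, 22800) (by decide +kernel)
                (CovZ.n2 (-1640, 22760) (by decide +kernel)
                 (CovZ.leaf K2_ok TP_l553 _)
                 (CovZ.leaf K2_ok TP_l554 _))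
                (CovZ.n1 (-1640, 22840) (by decide +kernel)
                 (CovZ.n2 (-1600, 22840) (by decide +kernel)
                  (CovZ.leaf K2_ok TP_l555 _)
                  (CovZ.leaf K2_ok TP_l6316 _))
                 (CovZ.n1 (-1640, 22800) (by decide +kernel)
                  (CovZ.leaf K2_ok TP_l556 _)
                  (CovZ.leaf K2_ok TP_l557 _)))))
              (CovZ.badM (by decide +kernel)))))))
         (CovZ.badM (by decide +kernel))))

theorem TP_u78 : CovZ TP_M (toL (selN TP_LN 1993851214011991663949274446267679308)) [0, 7, 2, 5] (-1920, 22400) (-1280, 21760) (-1280, 23040) :=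
    (CovZ.n1 (-1280, 22400) (by decide +kernel)
        (CovZ.n2 (-1600, 22080) (by decide +kernel)
         (CovZ.n2 (-1600, 22400) (by decide +kernel)
          (CovZ.leaf K2_ok TP_l558 _)
          (CovZ.subM 664621930769394756088467445805744652 (by decide +kernel)
           (CovZ.n1 (-1760, 22240) (by decide +kernel)
            (CovZ.n2 (-1760, 22400) (by decide +kernel)
             (CovZ.leaf K2_ok TP_l559 _)
             (CovZ.n1 (-1840, 22320) (by decide +kernel)
              (CovZ.leaf K2_ok TP_l560 _)
              (CovZ.leaf K2_ok TP_l561 _)))
            (CovZ.leaf K2_ok TP_l562 _))))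
         (CovZ.n1 (-1280, 22080) (by decide +kernel)
          (CovZ.leaf K2_ok TP_l563 _)
          (CovZ.leaf K2_ok TP_l564 _)))
        (CovZ.subM 7635614207212756910191174222344 (by decide +kernel)
         (CovZ.n1 (-1600, 22720) (by decide +kernel)
          (CovZ.n2 (-1280, 22720) (by decide +kernel)
           (CovZ.n2 (-1440, 22560) (by decide +kernel)
            (CovZ.n2 (-1440, 22720) (by decide +kernel)
             (CovZ.leaf K2_ok TP_l565 _)
             (CovZ.leaf K2_ok TP_l566 _))
            (CovZ.leaf K2_ok TP_l567 _))
           (CovZ.n1 (-1440, 22880) (by decide +kernel)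
            (CovZ.n2 (-1280, 22880) (by decide +kernel)
             (CovZ.leaf K2_ok TP_l568 _)
             (CovZ.n1 (-1360, 22960) (by decide +kernel)
              (CovZ.leaf K2_ok TP_l569 _)
              (CovZ.leaf K2_ok TP_l570 _)))
            (CovZ.n1 (-1440, 22720) (by decide +kernel)
             (CovZ.n2 (-1520, 22800) (by decide +kernel)
              (CovZ.leaf K2_ok TP_l571 _)
              (CovZ.leaf K2_ok TP_l572 _))
             (CovZ.leaf K2_ok TP_l573 _))))
          (CovZ.n1 (-1600, 22400) (by decide +kernel)
           (CovZ.n2 (-1760, 22560) (by decide +kernel)
            (CovZ.n2 (-1600, 22560) (by decide +kernel)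
             (CovZ.leaf K2_ok TP_l574 _)
             (CovZ.subM 7615807126406029311748777968128 (by decide +kernel)
              (CovZ.n1 (-1680, 22640) (by decide +kernel)
               (CovZ.n2 (-1600, 22640) (by decide +kernel)
                (CovZ.leaf K2_ok TP_l575 _)
                (CovZ.leaf K2_ok TP_l576 _))
               (CovZ.n1 (-1680, 22560) (by decide +kernel)
                (CovZ.leaf K2_ok TP_l6317 _)
                (CovZ.leaf K2_ok TP_l577 _)))))
            (CovZ.n1 (-1760, 22400) (by decide +kernel)
             (CovZ.subM 5070602400912920983686533349384 (by decide +kernel)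
              (CovZ.n2 (-1840, 22480) (by decide +kernel)
               (CovZ.n2 (-1760, 22480) (by decide +kernel)
                (CovZ.leaf K2_ok TP_l578 _)
                (CovZ.leaf K2_ok TP_l579 _))
               (CovZ.n1 (-1840, 22400) (by decide +kernel)
                (CovZ.leaf K2_ok TP_l580 _)
                (CovZ.leaf K2_ok TP_l581 _))))
             (CovZ.n1 (-1680, 22480) (by decide +kernel)
              (CovZ.leaf K2_ok TP_l582 _)
              (CovZ.leaf K2_ok TP_l583 _))))
           (CovZ.n1 (-1440, 22560) (by decide +kernel)
            (CovZ.leaf K2_ok TP_l584 _)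
            (CovZ.n1 (-1600, 22560) (by decide +kernel)
             (CovZ.leaf K2_ok TP_l585 _)
             (CovZ.leaf K2_ok TP_l586 _)))))))

theorem TP_u79 : CovZ TP_M (toL (selN TP_LN 349301843495557364079926245542402484863564)) [0, 7, 2, 5] (2560, 20480) (2560, 21760) (1280, 21760) :=
    (CovZ.n2 (1920, 21120) (by decide +kernel)
       (CovZ.n2 (1920, 21760) (by decide +kernel)
        (CovZ.subM 348621278753762957877582894932535896178756 (by decide +kernel)
         (CovZ.n2 (2240, 21440) (by decide +kernel)
          (CovZ.n2 (1920, 21440) (by decide +kernel)
           (CovZ.n2 (2080, 21600) (by decide +kernel)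
            (CovZ.n2 (2080, 21440) (by decide +kernel)
             (CovZ.leaf K2_ok TP_l2199 _)
             (CovZ.n1 (2160, 21520) (by decide +kernel)
              (CovZ.leaf K2_ok TP_l7441 _)
              (CovZ.leaf K2_ok TP_l7442 _)))
            (CovZ.leaf K2_ok TP_l2200 _))
           (CovZ.n1 (2080, 21280) (by decide +kernel)
            (CovZ.n2 (1920, 21280) (by decide +kernel)
             (CovZ.leaf K2_ok TP_l2201 _)
             (CovZ.leaf K2_ok TP_l2202 _))
            (CovZ.n1 (2080, 21440) (by decide +kernel)
             (CovZ.n2 (2160, 21360) (by decide +kernel)
              (CovZ.leaf K2_ok TP_l7443 _)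
              (CovZ.leaf K2_ok TP_l7444 _))
             (CovZ.leaf K2_ok TP_l2203 _))))
          (CovZ.n1 (2240, 21760) (by decide +kernel)
           (CovZ.subM 1329227995784915872903807060280344576 (by decide +kernel)
            (CovZ.n2 (2400, 21600) (by decide +kernel)
             (CovZ.n2 (2240, 21600) (by decide +kernel)
              (CovZ.n2 (2320, 21680) (by decide +kernel)
               (CovZ.n2 (2320, 21600) (by decide +kernel)
                (CovZ.leaf K2_ok TP_l7445 _)
                (CovZ.badM (by decide +kernel)))
               (CovZ.n1 (2240, 21680) (by decide +kernel)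
                (CovZ.leaf K2_ok TP_l7446 _)
                (CovZ.leaf K2_ok TP_l7447 _)))
              (CovZ.n1 (2320, 21520) (by decide +kernel)
               (CovZ.n2 (2240, 21520) (by decide +kernel)
                (CovZ.n2 (2280, 21560) (by decide +kernel)
                 (CovZ.n2 (2280, 21520) (by decide +kernel)
                  (CovZ.leaf K2_ok TP_l7448 _)
                  (CovZ.leaf K2_ok TP_l7449 _))
                 (CovZ.leaf K2_ok TP_l7450 _))
                (CovZ.badM (by decide +kernel)))
               (CovZ.n1 (2320, 21600) (by decide +kernel)
                (CovZ.badM (by decide +kernel))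
                (CovZ.n1 (2280, 21560) (by decide +kernel)
                 (CovZ.leaf K2_ok TP_l7451 _)
                 (CovZ.n1 (2320, 21560) (by decide +kernel)
                  (CovZ.leaf K2_ok TP_l7452 _)
                  (CovZ.leaf K2_ok TP_l7453 _))))))
             (CovZ.n1 (2400, 21760) (by decide +kernel)
              (CovZ.badM (by decide +kernel))
              (CovZ.n1 (2320, 21680) (by decide +kernel)
               (CovZ.n2 (2320, 21760) (by decide +kernel)
                (CovZ.badM (by decide +kernel))
                (CovZ.leaf K2_ok TP_l7454 _))
               (CovZ.badM (by decide +kernel))))))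
           (CovZ.n1 (2080, 21600) (by decide +kernel)
            (CovZ.n2 (2080, 21760) (by decide +kernel)
             (CovZ.leaf K2_ok TP_l7455 _)
             (CovZ.leaf K2_ok TP_l2204 _))
            (CovZ.n1 (2240, 21600) (by decide +kernel)
             (CovZ.n2 (2160, 21520) (by decide +kernel)
              (CovZ.leaf K2_ok TP_l7456 _)
              (CovZ.leaf K2_ok TP_l7457 _))
             (CovZ.leaf K2_ok TP_l7458 _))))))
        (CovZ.n1 (1600, 21440) (by decide +kernel)
         (CovZ.leaf K2_ok TP_l2205 _)
         (CovZ.n1 (1920, 21440) (by decide +kernel)
          (CovZ.leaf K2_ok TP_l2206 _)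
          (CovZ.leaf K2_ok TP_l2207 _))))
       (CovZ.subM 348621278753762957877582894932535896178756 (by decide +kernel)
        (CovZ.n1 (2560, 21120) (by decide +kernel)
         (CovZ.n2 (2240, 20800) (by decide +kernel)
          (CovZ.n2 (2240, 21120) (by decide +kernel)
           (CovZ.badM (by decide +kernel))
           (CovZ.n1 (2080, 20960) (by decide +kernel)
            (CovZ.n2 (2080, 21120) (by decide +kernel)
             (CovZ.subM 174085318024506601166078016 (by decide +kernel)
              (CovZ.n2 (2160, 21040) (by decide +kernel)
               (CovZ.n2 (2080, 21040) (by decide +kernel)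
                (CovZ.leaf K2_ok TP_l7459 _)
                (CovZ.n1 (2120, 21000) (by decide +kernel)
                 (CovZ.leaf K2_ok TP_l7460 _)
                 (CovZ.leaf K2_ok TP_l7461 _)))
               (CovZ.n1 (2160, 21120) (by decide +kernel)
                (CovZ.n2 (2200, 21080) (by decide +kernel)
                 (CovZ.n2 (2160, 21080) (by decide +kernel)
                  (CovZ.leaf K2_ok TP_l7462 _)
                  (CovZ.n1 (2180, 21060) (by decide +kernel)
                   (CovZ.leaf K2_ok TP_l7463 _)
                   (CovZ.leaf K2_ok TP_l7464 _)))
                 (CovZ.n1 (2200, 21120) (by decide +kernel)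
                  (CovZ.badM (by decide +kernel))
                  (CovZ.leaf K2_ok TP_l7465 _)))
                (CovZ.leaf K2_ok TP_l7466 _))))
             (CovZ.leaf K2_ok TP_l2208 _))
            (CovZ.subM 174085318024506601166078016 (by decide +kernel)
             (CovZ.n1 (2240, 20960) (by decide +kernel)
              (CovZ.n2 (2160, 20880) (by decide +kernel)
               (CovZ.n2 (2160, 20960) (by decide +kernel)
                (CovZ.n2 (2200, 20920) (by decide +kernel)
                 (CovZ.n2 (2160, 20920) (by decide +kernel)
                  (CovZ.n2 (2180, 20940) (by decide +kernel)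
                   (CovZ.badM (by decide +kernel))
                   (CovZ.n1 (2160, 20940) (by decide +kernel)
                    (CovZ.leaf K2_ok TP_l7467 _)
                    (CovZ.badM (by decide +kernel))))
                  (CovZ.badM (by decide +kernel)))
                 (CovZ.n1 (2200, 20960) (by decide +kernel)
                  (CovZ.badM (by decide +kernel))
                  (CovZ.n1 (2180, 20940) (by decide +kernel)
                   (CovZ.n2 (2180, 20960) (by decide +kernel)
                    (CovZ.badM (by decide +kernel))
                    (CovZ.leaf K2_ok TP_l7468 _))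
                   (CovZ.badM (by decide +kernel)))))
                (CovZ.n1 (2120, 20920) (by decide +kernel)
                 (CovZ.n2 (2120, 20960) (by decide +kernel)
                  (CovZ.leaf K2_ok TP_l7469 _)
                  (CovZ.leaf K2_ok TP_l7470 _))
                 (CovZ.n1 (2160, 20920) (by decide +kernel)
                  (CovZ.n2 (2140, 20900) (by decide +kernel)
                   (CovZ.leaf K2_ok TP_l7471 _)
                   (CovZ.n1 (2160, 20900) (by decide +kernel)
                    (CovZ.leaf K2_ok TP_l7472 _)
                    (CovZ.leaf K2_ok TP_l7473 _)))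
                  (CovZ.leaf K2_ok TP_l7474 _))))
               (CovZ.n1 (2240, 20880) (by decide +kernel)
                (CovZ.badM (by decide +kernel))
                (CovZ.n1 (2200, 20920) (by decide +kernel)
                 (CovZ.badM (by decide +kernel))
                 (CovZ.badM (by decide +kernel)))))
              (CovZ.n1 (2160, 21040) (by decide +kernel)
               (CovZ.n2 (2240, 21040) (by decide +kernel)
                (CovZ.n2 (2200, 21000) (by decide +kernel)
                 (CovZ.n2 (2200, 21040) (by decide +kernel)
                  (CovZ.badM (by decide +kernel))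
                  (CovZ.n1 (2180, 21020) (by decide +kernel)
                   (CovZ.leaf K2_ok TP_l7475 _)
                   (CovZ.badM (by decide +kernel))))
                 (CovZ.badM (by decide +kernel)))
                (CovZ.n1 (2200, 21080) (by decide +kernel)
                 (CovZ.badM (by decide +kernel))
                 (CovZ.n1 (2200, 21040) (by decide +kernel)
                  (CovZ.n2 (2180, 21060) (by decide +kernel)
                   (CovZ.badM (by decide +kernel))
                   (CovZ.leaf K2_ok TP_l7476 _))
                  (CovZ.badM (by decide +kernel)))))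
               (CovZ.n1 (2160, 20960) (by decide +kernel)
                (CovZ.n2 (2120, 21000) (by decide +kernel)
                 (CovZ.n2 (2160, 21000) (by decide +kernel)
                  (CovZ.leaf K2_ok TP_l7477 _)
                  (CovZ.leaf K2_ok TP_l7478 _))
                 (CovZ.leaf K2_ok TP_l7479 _))
                (CovZ.n1 (2200, 21000) (by decide +kernel)
                 (CovZ.n2 (2200, 20960) (by decide +kernel)
                  (CovZ.n2 (2180, 20980) (by decide +kernel)
                   (CovZ.badM (by decide +kernel))
                   (CovZ.n1 (2180, 20960) (by decide +kernel)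
                    (CovZ.leaf K2_ok TP_l7480 _)
                    (CovZ.badM (by decide +kernel))))
                  (CovZ.badM (by decide +kernel)))
                 (CovZ.n1 (2160, 21000) (by decide +kernel)
                  (CovZ.n2 (2180, 21020) (by decide +kernel)
                   (CovZ.n2 (2180, 21000) (by decide +kernel)
                    (CovZ.leaf K2_ok TP_l7481 _)
                    (CovZ.badM (by decide +kernel)))
                   (CovZ.leaf K2_ok TP_l7482 _))
                  (CovZ.n1 (2180, 20980) (by decide +kernel)
                   (CovZ.leaf K2_ok TP_l7483 _)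
                   (CovZ.n1 (2180, 21000) (by decide +kernel)
                    (CovZ.badM (by decide +kernel))
                    (CovZ.leaf K2_ok TP_l7484 _)))))))))))
          (CovZ.badM (by decide +kernel)))
         (CovZ.n1 (2240, 21440) (by decide +kernel)
          (CovZ.subM 1329227995784915872903807060280344576 (by decide +kernel)
           (CovZ.n2 (2560, 21440) (by decide +kernel)
            (CovZ.badM (by decide +kernel))
            (CovZ.n1 (2400, 21600) (by decide +kernel)
             (CovZ.badM (by decide +kernel))
             (CovZ.n1 (2400, 21440) (by decide +kernel)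
              (CovZ.n2 (2320, 21520) (by decide +kernel)
               (CovZ.badM (by decide +kernel))
               (CovZ.badM (by decide +kernel)))
              (CovZ.badM (by decide +kernel))))))
          (CovZ.n1 (2240, 21120) (by decide +kernel)
           (CovZ.n2 (2080, 21280) (by decide +kernel)
            (CovZ.n2 (2240, 21280) (by decide +kernel)
             (CovZ.subM 170141183460643317049711810318123925568 (by decide +kernel)
              (CovZ.n2 (2160, 21200) (by decide +kernel)
               (CovZ.n2 (2160, 21280) (by decide +kernel)
                (CovZ.n2 (2200, 21240) (by decide +kernel)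
                 (CovZ.leaf K2_ok TP_l7485 _)
                 (CovZ.leaf K2_ok TP_l7486 _))
                (CovZ.leaf K2_ok TP_l7487 _))
               (CovZ.n1 (2240, 21200) (by decide +kernel)
                (CovZ.n2 (2200, 21160) (by decide +kernel)
                 (CovZ.n2 (2200, 21200) (by decide +kernel)
                  (CovZ.badM (by decide +kernel))
                  (CovZ.leaf K2_ok TP_l7488 _))
                 (CovZ.badM (by decide +kernel)))
                (CovZ.n1 (2200, 21240) (by decide +kernel)
                 (CovZ.n2 (2240, 21240) (by decide +kernel)
                  (CovZ.leaf K2_ok TP_l7489 _)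
                  (CovZ.leaf K2_ok TP_l7490 _))
                 (CovZ.n1 (2200, 21200) (by decide +kernel)
                  (CovZ.leaf K2_ok TP_l7491 _)
                  (CovZ.leaf K2_ok TP_l7492 _))))))
             (CovZ.n1 (2160, 21360) (by decide +kernel)
              (CovZ.n2 (2240, 21360) (by decide +kernel)
               (CovZ.n2 (2200, 21320) (by decide +kernel)
                (CovZ.leaf K2_ok TP_l7493 _)
                (CovZ.leaf K2_ok TP_l7494 _))
               (CovZ.leaf K2_ok TP_l7495 _))
              (CovZ.n1 (2160, 21280) (by decide +kernel)
               (CovZ.leaf K2_ok TP_l7496 _)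
               (CovZ.n1 (2200, 21320) (by decide +kernel)
                (CovZ.leaf K2_ok TP_l7497 _)
                (CovZ.leaf K2_ok TP_l7498 _)))))
            (CovZ.n1 (2080, 21120) (by decide +kernel)
             (CovZ.leaf K2_ok TP_l2209 _)
             (CovZ.subM 170141183460643317049711810318123925568 (by decide +kernel)
              (CovZ.n1 (2160, 21200) (by decide +kernel)
               (CovZ.n2 (2160, 21120) (by decide +kernel)
                (CovZ.leaf K2_ok TP_l7499 _)
                (CovZ.n1 (2200, 21160) (by decide +kernel)
                 (CovZ.n2 (2200, 21120) (by decide +kernel)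
                  (CovZ.leaf K2_ok TP_l7500 _)
                  (CovZ.badM (by decide +kernel)))
                 (CovZ.leaf K2_ok TP_l7501 _)))
               (CovZ.leaf K2_ok TP_l7502 _)))))
           (CovZ.badM (by decide +kernel)))))))

theorem TP_u80 : CovZ TP_M (toL (selN TP_LN 349301843495557364079926245542402484863564)) [0, 7, 2, 5] (2560, 21760) (2560, 23040) (1280, 21760) :=
    (CovZ.n1 (1920, 22400) (by decide +kernel)
       (CovZ.subM 348621278753762957877582894932535896178756 (by decide +kernel)
        (CovZ.n2 (2560, 22400) (by decide +kernel)
         (CovZ.n2 (2240, 22080) (by decide +kernel)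
          (CovZ.n2 (2240, 22400) (by decide +kernel)
           (CovZ.badM (by decide +kernel))
           (CovZ.leaf K2_ok TP_l2213 _))
          (CovZ.n1 (2560, 22080) (by decide +kernel)
           (CovZ.n2 (2400, 21920) (by decide +kernel)
            (CovZ.badM (by decide +kernel))
            (CovZ.badM (by decide +kernel)))
           (CovZ.badM (by decide +kernel))))
         (CovZ.n1 (2240, 22720) (by decide +kernel)
          (CovZ.badM (by decide +kernel))
          (CovZ.n1 (2240, 22400) (by decide +kernel)
           (CovZ.leaf K2_ok TP_l2218 _)
           (CovZ.badM (by decide +kernel))))))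
       (CovZ.n1 (1920, 21760) (by decide +kernel)
        (CovZ.leaf K2_ok TP_l2221 _)
        (CovZ.subM 348621278753762957877582894932535896178756 (by decide +kernel)
         (CovZ.n1 (2240, 22080) (by decide +kernel)
          (CovZ.n2 (2240, 21760) (by decide +kernel)
           (CovZ.n2 (2080, 21920) (by decide +kernel)
            (CovZ.leaf K2_ok TP_l2222 _)
            (CovZ.leaf K2_ok TP_l2223 _))
           (CovZ.subM 1329227995784915872903807060280344576 (by decide +kernel)
            (CovZ.n1 (2400, 21920) (by decide +kernel)
             (CovZ.n2 (2400, 21760) (by decide +kernel)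
              (CovZ.n2 (2320, 21840) (by decide +kernel)
               (CovZ.badM (by decide +kernel))
               (CovZ.n1 (2320, 21760) (by decide +kernel)
                (CovZ.leaf K2_ok TP_l7503 _)
                (CovZ.badM (by decide +kernel))))
              (CovZ.badM (by decide +kernel)))
             (CovZ.n1 (2240, 21920) (by decide +kernel)
              (CovZ.badM (by decide +kernel))
              (CovZ.n1 (2320, 21840) (by decide +kernel)
               (CovZ.leaf K2_ok TP_l7504 _)
               (CovZ.badM (by decide +kernel)))))))
          (CovZ.n1 (1920, 22080) (by decide +kernel)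
           (CovZ.leaf K2_ok TP_l2225 _)
           (CovZ.n1 (2080, 21920) (by decide +kernel)
            (CovZ.leaf K2_ok TP_l2226 _)
            (CovZ.leaf K2_ok TP_l2227 _)))))))

theorem TP_u81 : CovZ TP_M (toL (selN TP_LN 523609492100471281804471237078734734657536)) [0, 7, 2, 5] (-640, 23680) (-1280, 24320) (-1280, 23040) :=
    (CovZ.n1 (-1280, 23680) (by decide +kernel)
       (CovZ.subM 792339653877380481294683635712 (by decide +kernel)
        (CovZ.n2 (-960, 24000) (by decide +kernel)
         (CovZ.n2 (-960, 23680) (by decide +kernel)
          (CovZ.subM 158456325028528675187087900672 (by decide +kernel)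
           (CovZ.n2 (-1120, 23840) (by decide +kernel)
            (CovZ.n2 (-960, 23840) (by decide +kernel)
             (CovZ.n2 (-1040, 23760) (by decide +kernel)
              (CovZ.badM (by decide +kernel))
              (CovZ.n1 (-960, 23760) (by decide +kernel)
               (CovZ.n2 (-1000, 23720) (by decide +kernel)
                (CovZ.badM (by decide +kernel))
                (CovZ.n1 (-960, 23720) (by decide +kernel)
                 (CovZ.leaf K2_ok TP_l6343 _)
                 (CovZ.badM (by decide +kernel))))
               (CovZ.badM (by decide +kernel))))
             (CovZ.badM (by decide +kernel)))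
            (CovZ.n1 (-1120, 23680) (by decide +kernel)
             (CovZ.badM (by decide +kernel))
             (CovZ.n1 (-1040, 23760) (by decide +kernel)
              (CovZ.n2 (-1040, 23680) (by decide +kernel)
               (CovZ.badM (by decide +kernel))
               (CovZ.n1 (-1000, 23720) (by decide +kernel)
                (CovZ.n2 (-1000, 23680) (by decide +kernel)
                 (CovZ.badM (by decide +kernel))
                 (CovZ.leaf K2_ok TP_l6344 _))
                (CovZ.badM (by decide +kernel))))
              (CovZ.badM (by decide +kernel))))))
          (CovZ.n1 (-800, 23840) (by decide +kernel)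
           (CovZ.n2 (-800, 23680) (by decide +kernel)
            (CovZ.subM 792339653582128993323901288448 (by decide +kernel)
             (CovZ.n2 (-880, 23760) (by decide +kernel)
              (CovZ.n2 (-800, 23760) (by decide +kernel)
               (CovZ.leaf K2_ok TP_l649 _)
               (CovZ.n1 (-840, 23800) (by decide +kernel)
                (CovZ.leaf K2_ok TP_l650 _)
                (CovZ.leaf K2_ok TP_l651 _)))
              (CovZ.n1 (-880, 23680) (by decide +kernel)
               (CovZ.n2 (-920, 23720) (by decide +kernel)
                (CovZ.leaf K2_ok TP_l652 _)
                (CovZ.leaf K2_ok TP_l653 _))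
               (CovZ.leaf K2_ok TP_l654 _))))
            (CovZ.n1 (-720, 23760) (by decide +kernel)
             (CovZ.leaf K2_ok TP_l655 _)
             (CovZ.leaf K2_ok TP_l656 _)))
           (CovZ.subM 792339653582128993323901288448 (by decide +kernel)
            (CovZ.n1 (-960, 23840) (by decide +kernel)
             (CovZ.subM 38685626371783321666453504 (by decide +kernel)
              (CovZ.n2 (-880, 23920) (by decide +kernel)
               (CovZ.n2 (-880, 23840) (by decide +kernel)
                (CovZ.badM (by decide +kernel))
                (CovZ.n1 (-840, 23880) (by decide +kernel)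
                 (CovZ.n2 (-840, 23840) (by decide +kernel)
                  (CovZ.leaf K2_ok TP_l657 _)
                  (CovZ.leaf K2_ok TP_l658 _))
                 (CovZ.n1 (-880, 23880) (by decide +kernel)
                  (CovZ.badM (by decide +kernel))
                  (CovZ.leaf K2_ok TP_l659 _))))
               (CovZ.badM (by decide +kernel))))
             (CovZ.n1 (-880, 23760) (by decide +kernel)
              (CovZ.n2 (-960, 23760) (by decide +kernel)
               (CovZ.n2 (-920, 23800) (by decide +kernel)
                (CovZ.n2 (-920, 23760) (by decide +kernel)
                 (CovZ.badM (by decide +kernel))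
                 (CovZ.leaf K2_ok TP_l660 _))
                (CovZ.badM (by decide +kernel)))
               (CovZ.n1 (-920, 23720) (by decide +kernel)
                (CovZ.n2 (-960, 23720) (by decide +kernel)
                 (CovZ.leaf K2_ok TP_l6345 _)
                 (CovZ.leaf K2_ok TP_l6346 _))
                (CovZ.leaf K2_ok TP_l661 _)))
              (CovZ.n1 (-880, 23840) (by decide +kernel)
               (CovZ.n2 (-840, 23800) (by decide +kernel)
                (CovZ.leaf K2_ok TP_l662 _)
                (CovZ.leaf K2_ok TP_l663 _))
               (CovZ.n1 (-920, 23800) (by decide +kernel)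
                (CovZ.badM (by decide +kernel))
                (CovZ.n1 (-880, 23800) (by decide +kernel)
                 (CovZ.leaf K2_ok TP_l664 _)
                 (CovZ.badM (by decide +kernel))))))))))
         (CovZ.n1 (-1280, 24000) (by decide +kernel)
          (CovZ.badM (by decide +kernel))
          (CovZ.n1 (-1120, 23840) (by decide +kernel)
           (CovZ.badM (by decide +kernel))
           (CovZ.badM (by decide +kernel))))))
       (CovZ.n1 (-960, 23360) (by decide +kernel)
        (CovZ.subM 348619284910739145235921262903289071271936 (by decide +kernel)
         (CovZ.n2 (-1280, 23360) (by decide +kernel)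
          (CovZ.n2 (-1120, 23520) (by decide +kernel)
           (CovZ.n2 (-1120, 23360) (by decide +kernel)
            (CovZ.subM 348619284910501460653930563772363231461376 (by decide +kernel)
             (CovZ.n2 (-1200, 23440) (by decide +kernel)
              (CovZ.n2 (-1120, 23440) (by decide +kernel)
               (CovZ.n2 (-1160, 23400) (by decide +kernel)
                (CovZ.leaf K2_ok TP_l665 _)
                (CovZ.leaf K2_ok TP_l666 _))
               (CovZ.n1 (-1160, 23480) (by decide +kernel)
                (CovZ.n2 (-1120, 23480) (by decide +kernel)
                 (CovZ.leaf K2_ok TP_l667 _)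
                 (CovZ.leaf K2_ok TP_l668 _))
                (CovZ.n1 (-1160, 23440) (by decide +kernel)
                 (CovZ.badM (by decide +kernel))
                 (CovZ.leaf K2_ok TP_l669 _))))
              (CovZ.n1 (-1200, 23360) (by decide +kernel)
               (CovZ.n2 (-1240, 23400) (by decide +kernel)
                (CovZ.n2 (-1200, 23400) (by decide +kernel)
                 (CovZ.leaf K2_ok TP_l670 _)
                 (CovZ.badM (by decide +kernel)))
                (CovZ.n1 (-1240, 23360) (by decide +kernel)
                 (CovZ.badM (by decide +kernel))
                 (CovZ.leaf K2_ok TP_l671 _)))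
               (CovZ.n1 (-1160, 23400) (by decide +kernel)
                (CovZ.leaf K2_ok TP_l672 _)
                (CovZ.n1 (-1200, 23400) (by decide +kernel)
                 (CovZ.leaf K2_ok TP_l6347 _)
                 (CovZ.leaf K2_ok TP_l673 _))))))
            (CovZ.n1 (-1040, 23440) (by decide +kernel)
             (CovZ.leaf K2_ok TP_l674 _)
             (CovZ.n1 (-1120, 23440) (by decide +kernel)
              (CovZ.n2 (-1080, 23480) (by decide +kernel)
               (CovZ.leaf K2_ok TP_l675 _)
               (CovZ.leaf K2_ok TP_l676 _))
              (CovZ.leaf K2_ok TP_l677 _))))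
           (CovZ.subM 348619284910501460653930563772363231461376 (by decide +kernel)
            (CovZ.n1 (-1280, 23520) (by decide +kernel)
             (CovZ.badM (by decide +kernel))
             (CovZ.n1 (-1200, 23440) (by decide +kernel)
              (CovZ.n2 (-1280, 23440) (by decide +kernel)
               (CovZ.badM (by decide +kernel))
               (CovZ.n1 (-1240, 23400) (by decide +kernel)
                (CovZ.badM (by decide +kernel))
                (CovZ.badM (by decide +kernel))))
              (CovZ.n1 (-1200, 23520) (by decide +kernel)
               (CovZ.n2 (-1160, 23480) (by decide +kernel)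
                (CovZ.badM (by decide +kernel))
                (CovZ.n1 (-1160, 23520) (by decide +kernel)
                 (CovZ.leaf K2_ok TP_l678 _)
                 (CovZ.badM (by decide +kernel))))
               (CovZ.badM (by decide +kernel)))))))
          (CovZ.n1 (-1120, 23200) (by decide +kernel)
           (CovZ.subM 348619284910501460729489003959029858304000 (by decide +kernel)
            (CovZ.n2 (-1280, 23200) (by decide +kernel)
             (CovZ.n2 (-1200, 23280) (by decide +kernel)
              (CovZ.n2 (-1200, 23200) (by decide +kernel)
               (CovZ.leaf K2_ok TP_l679 _)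
               (CovZ.leaf K2_ok TP_l680 _))
              (CovZ.n1 (-1280, 23280) (by decide +kernel)
               (CovZ.n2 (-1240, 23320) (by decide +kernel)
                (CovZ.leaf K2_ok TP_l681 _)
                (CovZ.n1 (-1280, 23320) (by decide +kernel)
                 (CovZ.leaf K2_ok TP_l6348 _)
                 (CovZ.leaf K2_ok TP_l6349 _)))
               (CovZ.leaf K2_ok TP_l682 _)))
             (CovZ.n1 (-1200, 23120) (by decide +kernel)
              (CovZ.leaf K2_ok TP_l683 _)
              (CovZ.leaf K2_ok TP_l684 _))))
           (CovZ.n1 (-1120, 23360) (by decide +kernel)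
            (CovZ.leaf K2_ok TP_l685 _)
            (CovZ.subM 348619284910501460729489003959029858304000 (by decide +kernel)
             (CovZ.n1 (-1200, 23280) (by decide +kernel)
              (CovZ.n2 (-1200, 23360) (by decide +kernel)
               (CovZ.leaf K2_ok TP_l686 _)
               (CovZ.n1 (-1240, 23320) (by decide +kernel)
                (CovZ.n2 (-1240, 23360) (by decide +kernel)
                 (CovZ.leaf K2_ok TP_l687 _)
                 (CovZ.leaf K2_ok TP_l6350 _))
                (CovZ.leaf K2_ok TP_l688 _)))
              (CovZ.n1 (-1120, 23280) (by decide +kernel)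
               (CovZ.leaf K2_ok TP_l689 _)
               (CovZ.leaf K2_ok TP_l690 _))))))))
        (CovZ.subM 348619284911373028489211674522730040164352 (by decide +kernel)
         (CovZ.n1 (-960, 23680) (by decide +kernel)
          (CovZ.n2 (-800, 23520) (by decide +kernel)
           (CovZ.n2 (-960, 23520) (by decide +kernel)
            (CovZ.n2 (-880, 23600) (by decide +kernel)
             (CovZ.leaf K2_ok TP_l691 _)
             (CovZ.n1 (-960, 23600) (by decide +kernel)
              (CovZ.leaf K2_ok TP_l692 _)
              (CovZ.leaf K2_ok TP_l693 _)))
            (CovZ.leaf K2_ok TP_l694 _))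
           (CovZ.n1 (-800, 23680) (by decide +kernel)
            (CovZ.leaf K2_ok TP_l695 _)
            (CovZ.n1 (-880, 23600) (by decide +kernel)
             (CovZ.n2 (-880, 23680) (by decide +kernel)
              (CovZ.leaf K2_ok TP_l696 _)
              (CovZ.leaf K2_ok TP_l697 _))
             (CovZ.leaf K2_ok TP_l698 _))))
          (CovZ.subM 348619284910739145160362822716622444429312 (by decide +kernel)
           (CovZ.n1 (-1120, 23520) (by decide +kernel)
            (CovZ.subM 237684506432258944259212967936 (by decide +kernel)
             (CovZ.n2 (-1120, 23680) (by decide +kernel)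
              (CovZ.n2 (-1040, 23600) (by decide +kernel)
               (CovZ.n2 (-1120, 23600) (by decide +kernel)
                (CovZ.badM (by decide +kernel))
                (CovZ.n1 (-1080, 23560) (by decide +kernel)
                 (CovZ.badM (by decide +kernel))
                 (CovZ.n1 (-1080, 23600) (by decide +kernel)
                  (CovZ.leaf K2_ok TP_l6351 _)
                  (CovZ.badM (by decide +kernel)))))
               (CovZ.n1 (-1040, 23680) (by decide +kernel)
                (CovZ.n2 (-1000, 23640) (by decide +kernel)
                 (CovZ.n2 (-1040, 23640) (by decide +kernel)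
                  (CovZ.badM (by decide +kernel))
                  (CovZ.leaf K2_ok TP_l6352 _))
                 (CovZ.n1 (-1000, 23680) (by decide +kernel)
                  (CovZ.leaf K2_ok TP_l6353 _)
                  (CovZ.badM (by decide +kernel))))
                (CovZ.badM (by decide +kernel))))
              (CovZ.badM (by decide +kernel))))
            (CovZ.n1 (-960, 23520) (by decide +kernel)
             (CovZ.n2 (-1040, 23440) (by decide +kernel)
              (CovZ.n2 (-1040, 23520) (by decide +kernel)
               (CovZ.leaf K2_ok TP_l699 _)
               (CovZ.n1 (-1080, 23480) (by decide +kernel)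
                (CovZ.leaf K2_ok TP_l700 _)
                (CovZ.leaf K2_ok TP_l701 _)))
              (CovZ.leaf K2_ok TP_l702 _))
             (CovZ.subM 237684506432258944259212967936 (by decide +kernel)
              (CovZ.n1 (-1040, 23600) (by decide +kernel)
               (CovZ.n2 (-960, 23600) (by decide +kernel)
                (CovZ.leaf K2_ok TP_l6354 _)
                (CovZ.n1 (-1000, 23640) (by decide +kernel)
                 (CovZ.leaf K2_ok TP_l6355 _)
                 (CovZ.leaf K2_ok TP_l6356 _)))
               (CovZ.n1 (-1040, 23520) (by decide +kernel)
                (CovZ.n2 (-1080, 23560) (by decide +kernel)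
                 (CovZ.n2 (-1040, 23560) (by decide +kernel)
                  (CovZ.leaf K2_ok TP_l6357 _)
                  (CovZ.leaf K2_ok TP_l6358 _))
                 (CovZ.n1 (-1080, 23520) (by decide +kernel)
                  (CovZ.badM (by decide +kernel))
                  (CovZ.leaf K2_ok TP_l6359 _)))
                (CovZ.leaf K2_ok TP_l6360 _)))))))))))

theorem TP_u82 : CovZ TP_M (toL (selN TP_LN 523609492100471281804471237078734734657536)) [0, 7, 2, 5] (0, 25600) (-1280, 24320) (0, 23040) :=
    (CovZ.n2 (0, 24320) (by decide +kernel)
     (CovZ.n2 (-640, 23680) (by decide +kernel)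
      (CovZ.n2 (-640, 24320) (by decide +kernel)
       (CovZ.n2 (-320, 24000) (by decide +kernel)
        (CovZ.n2 (-640, 24000) (by decide +kernel)
         (CovZ.subM 174990207189097633967450110326343521536000 (by decide +kernel)
          (CovZ.n2 (-480, 24160) (by decide +kernel)
           (CovZ.n2 (-480, 24000) (by decide +kernel)
            (CovZ.n2 (-560, 24080) (by decide +kernel)
             (CovZ.leaf K2_ok TP_l587 _)
             (CovZ.leaf K2_ok TP_l588 _))
            (CovZ.leaf K2_ok TP_l589 _))
           (CovZ.subM 4951760157263118289537597440 (by decide +kernel)
            (CovZ.n1 (-640, 24160) (by decide +kernel)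
             (CovZ.subM 4951760157177549896617558016 (by decide +kernel)
              (CovZ.n2 (-560, 24240) (by decide +kernel)
               (CovZ.n2 (-560, 24160) (by decide +kernel)
                (CovZ.n2 (-600, 24200) (by decide +kernel)
                 (CovZ.n2 (-560, 24200) (by decide +kernel)
                  (CovZ.leaf K2_ok TP_l590 _)
                  (CovZ.leaf K2_ok TP_l591 _))
                 (CovZ.n1 (-600, 24160) (by decide +kernel)
                  (CovZ.leaf K2_ok TP_l6318 _)
                  (CovZ.leaf K2_ok TP_l592 _)))
                (CovZ.leaf K2_ok TP_l593 _))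
               (CovZ.n1 (-640, 24240) (by decide +kernel)
                (CovZ.badM (by decide +kernel))
                (CovZ.n1 (-600, 24200) (by decide +kernel)
                 (CovZ.n2 (-640, 24200) (by decide +kernel)
                  (CovZ.badM (by decide +kernel))
                  (CovZ.leaf K2_ok TP_l6319 _))
                 (CovZ.n1 (-600, 24240) (by decide +kernel)
                  (CovZ.leaf K2_ok TP_l594 _)
                  (CovZ.badM (by decide +kernel)))))))
             (CovZ.n1 (-560, 24080) (by decide +kernel)
              (CovZ.n2 (-640, 24080) (by decide +kernel)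
               (CovZ.n2 (-600, 24120) (by decide +kernel)
                (CovZ.leaf K2_ok TP_l595 _)
                (CovZ.leaf K2_ok TP_l6320 _))
               (CovZ.leaf K2_ok TP_l596 _))
              (CovZ.n1 (-560, 24160) (by decide +kernel)
               (CovZ.leaf K2_ok TP_l597 _)
               (CovZ.n1 (-600, 24120) (by decide +kernel)
                (CovZ.leaf K2_ok TP_l598 _)
                (CovZ.leaf K2_ok TP_l599 _))))))))
         (CovZ.n1 (-480, 23840) (by decide +kernel)
          (CovZ.n2 (-640, 23840) (by decide +kernel)
           (CovZ.leaf K2_ok TP_l600 _)
           (CovZ.leaf K2_ok TP_l601 _))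
          (CovZ.n1 (-480, 24000) (by decide +kernel)
           (CovZ.leaf K2_ok TP_l602 _)
           (CovZ.leaf K2_ok TP_l603 _))))
        (CovZ.subM 174990207189098253239701207937730987689984 (by decide +kernel)
         (CovZ.n1 (-320, 24320) (by decide +kernel)
          (CovZ.n2 (-160, 24160) (by decide +kernel)
           (CovZ.leaf K2_ok TP_l604 _)
           (CovZ.leaf K2_ok TP_l605 _))
          (CovZ.n1 (-480, 24160) (by decide +kernel)
           (CovZ.subM 174990207189097633967450024757950601496576 (by decide +kernel)
            (CovZ.n2 (-480, 24320) (by decide +kernel)
             (CovZ.n2 (-400, 24240) (by decide +kernel)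
              (CovZ.n2 (-480, 24240) (by decide +kernel)
               (CovZ.leaf K2_ok TP_l6321 _)
               (CovZ.leaf K2_ok TP_l606 _))
              (CovZ.n1 (-400, 24320) (by decide +kernel)
               (CovZ.leaf K2_ok TP_l6322 _)
               (CovZ.leaf K2_ok TP_l6323 _)))
             (CovZ.n1 (-560, 24240) (by decide +kernel)
              (CovZ.badM (by decide +kernel))
              (CovZ.n1 (-480, 24240) (by decide +kernel)
               (CovZ.leaf K2_ok TP_l607 _)
               (CovZ.badM (by decide +kernel))))))
           (CovZ.n1 (-320, 24160) (by decide +kernel)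
            (CovZ.leaf K2_ok TP_l608 _)
            (CovZ.n1 (-400, 24240) (by decide +kernel)
             (CovZ.leaf K2_ok TP_l609 _)
             (CovZ.leaf K2_ok TP_l610 _)))))))
       (CovZ.subM 792339653877380481294683635712 (by decide +kernel)
        (CovZ.n1 (-960, 24000) (by decide +kernel)
         (CovZ.n2 (-960, 24320) (by decide +kernel)
          (CovZ.n2 (-800, 24160) (by decide +kernel)
           (CovZ.badM (by decide +kernel))
           (CovZ.badM (by decide +kernel)))
          (CovZ.badM (by decide +kernel)))
         (CovZ.n1 (-640, 24000) (by decide +kernel)
          (CovZ.n2 (-800, 23840) (by decide +kernel)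
           (CovZ.n2 (-800, 24000) (by decide +kernel)
            (CovZ.n2 (-720, 23920) (by decide +kernel)
             (CovZ.subM 38685921609760493566689280 (by decide +kernel)
              (CovZ.n2 (-800, 23920) (by decide +kernel)
               (CovZ.n2 (-760, 23960) (by decide +kernel)
                (CovZ.leaf K2_ok TP_l6324 _)
                (CovZ.n1 (-800, 23960) (by decide +kernel)
                 (CovZ.badM (by decide +kernel))
                 (CovZ.leaf K2_ok TP_l6325 _)))
               (CovZ.leaf K2_ok TP_l611 _)))
             (CovZ.subM 295251487970782347264 (by decide +kernel)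
              (CovZ.n1 (-720, 24000) (by decide +kernel)
               (CovZ.leaf K2_ok TP_l6326 _)
               (CovZ.n1 (-760, 23960) (by decide +kernel)
                (CovZ.n2 (-760, 24000) (by decide +kernel)
                 (CovZ.leaf K2_ok TP_l6327 _)
                 (CovZ.badM (by decide +kernel)))
                (CovZ.leaf K2_ok TP_l6328 _)))))
            (CovZ.subM 38685626371783321666453504 (by decide +kernel)
             (CovZ.n1 (-880, 23920) (by decide +kernel)
              (CovZ.badM (by decide +kernel))
              (CovZ.n1 (-800, 23920) (by decide +kernel)
               (CovZ.n2 (-840, 23880) (by decide +kernel)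
                (CovZ.n2 (-840, 23920) (by decide +kernel)
                 (CovZ.leaf K2_ok TP_l6329 _)
                 (CovZ.badM (by decide +kernel)))
                (CovZ.n1 (-800, 23880) (by decide +kernel)
                 (CovZ.leaf K2_ok TP_l612 _)
                 (CovZ.leaf K2_ok TP_l6330 _)))
               (CovZ.badM (by decide +kernel))))))
           (CovZ.n1 (-640, 23840) (by decide +kernel)
            (CovZ.n2 (-720, 23760) (by decide +kernel)
             (CovZ.leaf K2_ok TP_l613 _)
             (CovZ.leaf K2_ok TP_l614 _))
            (CovZ.n1 (-720, 23920) (by decide +kernel)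
             (CovZ.n2 (-640, 23920) (by decide +kernel)
              (CovZ.leaf K2_ok TP_l615 _)
              (CovZ.leaf K2_ok TP_l6331 _))
             (CovZ.n1 (-720, 23840) (by decide +kernel)
              (CovZ.leaf K2_ok TP_l616 _)
              (CovZ.leaf K2_ok TP_l617 _)))))
          (CovZ.subM 85568392920039424 (by decide +kernel)
           (CovZ.n1 (-800, 24160) (by decide +kernel)
            (CovZ.n2 (-640, 24160) (by decide +kernel)
             (CovZ.n2 (-720, 24080) (by decide +kernel)
              (CovZ.n2 (-720, 24160) (by decide +kernel)
               (CovZ.n2 (-680, 24120) (by decide +kernel)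
                (CovZ.badM (by decide +kernel))
                (CovZ.badM (by decide +kernel)))
               (CovZ.badM (by decide +kernel)))
              (CovZ.n1 (-640, 24080) (by decide +kernel)
               (CovZ.n2 (-680, 24040) (by decide +kernel)
                (CovZ.leaf K2_ok TP_l6332 _)
                (CovZ.leaf K2_ok TP_l6333 _))
               (CovZ.n1 (-680, 24120) (by decide +kernel)
                (CovZ.n2 (-640, 24120) (by decide +kernel)
                 (CovZ.leaf K2_ok TP_l6334 _)
                 (CovZ.badM (by decide +kernel)))
                (CovZ.n1 (-680, 24080) (by decide +kernel)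
                 (CovZ.badM (by decide +kernel))
                 (CovZ.leaf K2_ok TP_l6335 _)))))
             (CovZ.badM (by decide +kernel)))
            (CovZ.n1 (-800, 24000) (by decide +kernel)
             (CovZ.badM (by decide +kernel))
             (CovZ.n1 (-720, 24080) (by decide +kernel)
              (CovZ.n2 (-720, 24000) (by decide +kernel)
               (CovZ.n2 (-760, 24040) (by decide +kernel)
                (CovZ.n2 (-720, 24040) (by decide +kernel)
                 (CovZ.leaf K2_ok TP_l6336 _)
                 (CovZ.badM (by decide +kernel)))
                (CovZ.n1 (-760, 24000) (by decide +kernel)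
                 (CovZ.badM (by decide +kernel))
                 (CovZ.leaf K2_ok TP_l6337 _)))
               (CovZ.n1 (-680, 24040) (by decide +kernel)
                (CovZ.leaf K2_ok TP_l6338 _)
                (CovZ.n1 (-720, 24040) (by decide +kernel)
                 (CovZ.leaf K2_ok TP_l6339 _)
                 (CovZ.leaf K2_ok TP_l6340 _))))
              (CovZ.n1 (-800, 24080) (by decide +kernel)
               (CovZ.badM (by decide +kernel))
               (CovZ.n1 (-760, 24040) (by decide +kernel)
                (CovZ.badM (by decide +kernel))
                (CovZ.badM (by decide +kernel))))))))))))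
      (CovZ.n1 (0, 23680) (by decide +kernel)
       (CovZ.n2 (-320, 23360) (by decide +kernel)
        (CovZ.n2 (-320, 23680) (by decide +kernel)
         (CovZ.leaf K2_ok TP_l618 _)
         (CovZ.leaf K2_ok TP_l619 _))
        (CovZ.leaf K2_ok TP_l620 _))
       (CovZ.n1 (-320, 24000) (by decide +kernel)
        (CovZ.n2 (0, 24000) (by decide +kernel)
         (CovZ.leaf K2_ok TP_l621 _)
         (CovZ.n1 (-160, 24160) (by decide +kernel)
          (CovZ.leaf K2_ok TP_l622 _)
          (CovZ.leaf K2_ok TP_l623 _)))
        (CovZ.n1 (-320, 23680) (by decide +kernel)
         (CovZ.n2 (-480, 23840) (by decide +kernel)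
          (CovZ.leaf K2_ok TP_l624 _)
          (CovZ.leaf K2_ok TP_l625 _))
         (CovZ.leaf K2_ok TP_l626 _)))))
     (CovZ.subM 619272251097611387466153984 (by decide +kernel)
      (CovZ.n1 (-640, 24960) (by decide +kernel)
       (CovZ.n2 (0, 24960) (by decide +kernel)
        (CovZ.n2 (-320, 24640) (by decide +kernel)
         (CovZ.badM (by decide +kernel))
         (CovZ.n1 (0, 24640) (by decide +kernel)
          (CovZ.n2 (-160, 24480) (by decide +kernel)
           (CovZ.n2 (-160, 24640) (by decide +kernel)
            (CovZ.leaf K2_ok TP_l6341 _)
            (CovZ.badM (by decide +kernel)))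
           (CovZ.n1 (0, 24480) (by decide +kernel)
            (CovZ.leaf K2_ok TP_l627 _)
            (CovZ.leaf K2_ok TP_l6342 _)))
          (CovZ.badM (by decide +kernel))))
        (CovZ.badM (by decide +kernel)))
       (CovZ.n1 (-640, 24320) (by decide +kernel)
        (CovZ.badM (by decide +kernel))
        (CovZ.n1 (-320, 24640) (by decide +kernel)
         (CovZ.n2 (-320, 24320) (by decide +kernel)
          (CovZ.badM (by decide +kernel))
          (CovZ.n1 (-160, 24480) (by decide +kernel)
           (CovZ.n2 (-160, 24320) (by decide +kernel)
            (CovZ.n2 (-240, 24400) (by decide +kernel)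
             (CovZ.leaf K2_ok TP_l628 _)
             (CovZ.leaf K2_ok TP_l629 _))
            (CovZ.leaf K2_ok TP_l630 _))
           (CovZ.n1 (-320, 24480) (by decide +kernel)
            (CovZ.badM (by decide +kernel))
            (CovZ.n1 (-240, 24400) (by decide +kernel)
             (CovZ.leaf K2_ok TP_l631 _)
             (CovZ.leaf K2_ok TP_l632 _)))))
         (CovZ.badM (by decide +kernel)))))))

theorem TP_u83 : CovZ TP_M (toL (selN TP_LN 523609492141036101011774577926629237229568)) [0, 7, 2, 5] (2560, 25600) (1280, 24320) (2560, 23040) :=
    (CovZ.subM 349299849644343352088262296267956217184256 (by decide +kernel)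
     (CovZ.n2 (2560, 24320) (by decide +kernel)
      (CovZ.n2 (1920, 23680) (by decide +kernel)
       (CovZ.n2 (1920, 24320) (by decide +kernel)
        (CovZ.n2 (2240, 24000) (by decide +kernel)
         (CovZ.n2 (1920, 24000) (by decide +kernel)
          (CovZ.badM (by decide +kernel))
          (CovZ.n1 (2080, 23840) (by decide +kernel)
           (CovZ.n2 (1920, 23840) (by decide +kernel)
            (CovZ.badM (by decide +kernel))
            (CovZ.n1 (2000, 23760) (by decide +kernel)
             (CovZ.n2 (1920, 23760) (by decide +kernel)
              (CovZ.leaf K2_ok TP_l2273 _)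
              (CovZ.leaf K2_ok TP_l2274 _))
             (CovZ.n1 (2000, 23840) (by decide +kernel)
              (CovZ.n2 (2040, 23800) (by decide +kernel)
               (CovZ.n2 (2000, 23800) (by decide +kernel)
                (CovZ.badM (by decide +kernel))
                (CovZ.leaf K2_ok TP_l2276 _))
               (CovZ.badM (by decide +kernel)))
              (CovZ.leaf K2_ok TP_l2278 _))))
           (CovZ.badM (by decide +kernel))))
         (CovZ.badM (by decide +kernel)))
        (CovZ.n1 (1600, 24000) (by decide +kernel)
         (CovZ.n2 (1600, 24320) (by decide +kernel)
          (CovZ.badM (by decide +kernel))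
          (CovZ.n1 (1440, 24160) (by decide +kernel)
           (CovZ.n2 (1440, 24320) (by decide +kernel)
            (CovZ.badM (by decide +kernel))
            (CovZ.n1 (1360, 24240) (by decide +kernel)
             (CovZ.n2 (1360, 24320) (by decide +kernel)
              (CovZ.badM (by decide +kernel))
              (CovZ.n1 (1320, 24280) (by decide +kernel)
               (CovZ.leaf K2_ok TP_l7522 _)
               (CovZ.n1 (1360, 24280) (by decide +kernel)
                (CovZ.leaf K2_ok TP_l7523 _)
                (CovZ.leaf K2_ok TP_l7524 _))))
             (CovZ.badM (by decide +kernel))))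
           (CovZ.badM (by decide +kernel))))
         (CovZ.n1 (1920, 24000) (by decide +kernel)
          (CovZ.n2 (1760, 23840) (by decide +kernel)
           (CovZ.n2 (1760, 24000) (by decide +kernel)
            (CovZ.n2 (1840, 23920) (by decide +kernel)
             (CovZ.n2 (1760, 23920) (by decide +kernel)
              (CovZ.n2 (1800, 23960) (by decide +kernel)
               (CovZ.leaf K2_ok TP_l7525 _)
               (CovZ.n1 (1760, 23960) (by decide +kernel)
                (CovZ.badM (by decide +kernel))
                (CovZ.leaf K2_ok TP_l7526 _)))
              (CovZ.leaf K2_ok TP_l7527 _))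
             (CovZ.n1 (1840, 24000) (by decide +kernel)
              (CovZ.n2 (1880, 23960) (by decide +kernel)
               (CovZ.n2 (1840, 23960) (by decide +kernel)
                (CovZ.badM (by decide +kernel))
                (CovZ.leaf K2_ok TP_l7528 _))
               (CovZ.badM (by decide +kernel)))
              (CovZ.n1 (1800, 23960) (by decide +kernel)
               (CovZ.badM (by decide +kernel))
               (CovZ.n1 (1840, 23960) (by decide +kernel)
                (CovZ.leaf K2_ok TP_l7529 _)
                (CovZ.badM (by decide +kernel))))))
            (CovZ.n1 (1680, 23920) (by decide +kernel)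
             (CovZ.leaf K2_ok TP_l7530 _)
             (CovZ.n1 (1760, 23920) (by decide +kernel)
              (CovZ.leaf K2_ok TP_l7531 _)
              (CovZ.leaf K2_ok TP_l7532 _))))
           (CovZ.n1 (1920, 23840) (by decide +kernel)
            (CovZ.n2 (1840, 23760) (by decide +kernel)
             (CovZ.leaf K2_ok TP_l2279 _)
             (CovZ.n1 (1920, 23760) (by decide +kernel)
              (CovZ.leaf K2_ok TP_l2280 _)
              (CovZ.leaf K2_ok TP_l2281 _)))
            (CovZ.n1 (1840, 23920) (by decide +kernel)
             (CovZ.n2 (1920, 23920) (by decide +kernel)
              (CovZ.n2 (1880, 23880) (by decide +kernel)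
               (CovZ.leaf K2_ok TP_l7533 _)
               (CovZ.badM (by decide +kernel)))
              (CovZ.n1 (1880, 23960) (by decide +kernel)
               (CovZ.badM (by decide +kernel))
               (CovZ.n1 (1880, 23920) (by decide +kernel)
                (CovZ.leaf K2_ok TP_l7534 _)
                (CovZ.badM (by decide +kernel)))))
             (CovZ.n1 (1840, 23840) (by decide +kernel)
              (CovZ.leaf K2_ok TP_l7535 _)
              (CovZ.n1 (1880, 23880) (by decide +kernel)
               (CovZ.leaf K2_ok TP_l7536 _)
               (CovZ.leaf K2_ok TP_l7537 _))))))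
          (CovZ.badM (by decide +kernel)))))
       (CovZ.n1 (2560, 23680) (by decide +kernel)
        (CovZ.n2 (2240, 23360) (by decide +kernel)
         (CovZ.n2 (2240, 23680) (by decide +kernel)
          (CovZ.badM (by decide +kernel))
          (CovZ.n1 (2080, 23520) (by decide +kernel)
           (CovZ.n2 (2080, 23680) (by decide +kernel)
            (CovZ.n2 (2160, 23600) (by decide +kernel)
             (CovZ.leaf K2_ok TP_l7538 _)
             (CovZ.leaf K2_ok TP_l7539 _))
            (CovZ.leaf K2_ok TP_l2283 _))
           (CovZ.n1 (2240, 23520) (by decide +kernel)
            (CovZ.leaf K2_ok TP_l2284 _)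
            (CovZ.n1 (2160, 23600) (by decide +kernel)
             (CovZ.n2 (2240, 23600) (by decide +kernel)
              (CovZ.leaf K2_ok TP_l7540 _)
              (CovZ.leaf K2_ok TP_l7541 _))
             (CovZ.leaf K2_ok TP_l7542 _)))))
         (CovZ.badM (by decide +kernel)))
        (CovZ.n1 (2240, 24000) (by decide +kernel)
         (CovZ.badM (by decide +kernel))
         (CovZ.n1 (2240, 23680) (by decide +kernel)
          (CovZ.n2 (2080, 23840) (by decide +kernel)
           (CovZ.n2 (2240, 23840) (by decide +kernel)
            (CovZ.n2 (2160, 23760) (by decide +kernel)
             (CovZ.n2 (2160, 23840) (by decide +kernel)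
              (CovZ.n2 (2200, 23800) (by decide +kernel)
               (CovZ.n2 (2160, 23800) (by decide +kernel)
                (CovZ.badM (by decide +kernel))
                (CovZ.n1 (2180, 23780) (by decide +kernel)
                 (CovZ.n2 (2160, 23780) (by decide +kernel)
                  (CovZ.leaf K2_ok TP_l7543 _)
                  (CovZ.leaf K2_ok TP_l7544 _))
                 (CovZ.n1 (2180, 23800) (by decide +kernel)
                  (CovZ.badM (by decide +kernel))
                  (CovZ.leaf K2_ok TP_l7545 _))))
               (CovZ.badM (by decide +kernel)))
              (CovZ.n1 (2120, 23800) (by decide +kernel)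
               (CovZ.badM (by decide +kernel))
               (CovZ.n1 (2160, 23800) (by decide +kernel)
                (CovZ.n2 (2140, 23780) (by decide +kernel)
                 (CovZ.leaf K2_ok TP_l7546 _)
                 (CovZ.n1 (2160, 23780) (by decide +kernel)
                  (CovZ.leaf K2_ok TP_l7547 _)
                  (CovZ.leaf K2_ok TP_l7548 _)))
                (CovZ.badM (by decide +kernel)))))
             (CovZ.n1 (2240, 23760) (by decide +kernel)
              (CovZ.n2 (2200, 23720) (by decide +kernel)
               (CovZ.n2 (2200, 23760) (by decide +kernel)
                (CovZ.badM (by decide +kernel))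
                (CovZ.leaf K2_ok TP_l7549 _))
               (CovZ.badM (by decide +kernel)))
              (CovZ.n1 (2200, 23800) (by decide +kernel)
               (CovZ.badM (by decide +kernel))
               (CovZ.n1 (2200, 23760) (by decide +kernel)
                (CovZ.n2 (2180, 23780) (by decide +kernel)
                 (CovZ.badM (by decide +kernel))
                 (CovZ.leaf K2_ok TP_l7550 _))
                (CovZ.badM (by decide +kernel))))))
            (CovZ.badM (by decide +kernel)))
           (CovZ.n1 (2080, 23680) (by decide +kernel)
            (CovZ.n2 (2000, 23760) (by decide +kernel)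
             (CovZ.n2 (2080, 23760) (by decide +kernel)
              (CovZ.leaf K2_ok TP_l2287 _)
              (CovZ.n1 (2040, 23800) (by decide +kernel)
               (CovZ.n2 (2080, 23800) (by decide +kernel)
                (CovZ.leaf K2_ok TP_l7551 _)
                (CovZ.badM (by decide +kernel)))
               (CovZ.leaf K2_ok TP_l2288 _)))
             (CovZ.leaf K2_ok TP_l2289 _))
            (CovZ.n1 (2160, 23760) (by decide +kernel)
             (CovZ.n2 (2160, 23680) (by decide +kernel)
              (CovZ.leaf K2_ok TP_l7552 _)
              (CovZ.n1 (2200, 23720) (by decide +kernel)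
               (CovZ.leaf K2_ok TP_l7553 _)
               (CovZ.n1 (2160, 23720) (by decide +kernel)
                (CovZ.leaf K2_ok TP_l7554 _)
                (CovZ.leaf K2_ok TP_l7555 _))))
             (CovZ.n1 (2080, 23760) (by decide +kernel)
              (CovZ.n2 (2120, 23800) (by decide +kernel)
               (CovZ.n2 (2120, 23760) (by decide +kernel)
                (CovZ.leaf K2_ok TP_l7556 _)
                (CovZ.leaf K2_ok TP_l7557 _))
               (CovZ.n1 (2080, 23800) (by decide +kernel)
                (CovZ.badM (by decide +kernel))
                (CovZ.leaf K2_ok TP_l7558 _)))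
              (CovZ.leaf K2_ok TP_l7559 _)))))
          (CovZ.badM (by decide +kernel))))))
      (CovZ.badM (by decide +kernel))))

theorem TP_u84 : CovZ TP_M (toL (selN TP_LN 523609492141036101011774577926629237229568)) [0, 7, 2, 5] (1280, 24320) (0, 23040) (2560, 23040) :=
    (CovZ.n1 (1280, 23040) (by decide +kernel)
     (CovZ.n2 (640, 23680) (by decide +kernel)
      (CovZ.n2 (1280, 23680) (by decide +kernel)
       (CovZ.leaf K2_ok TP_l2290 _)
       (CovZ.subM 680564734634294254288039936083231803392 (by decide +kernel)
        (CovZ.n1 (960, 24000) (by decide +kernel)
         (CovZ.subM 680564734634255266430109666312305281024 (by decide +kernel)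
          (CovZ.n2 (1280, 24000) (by decide +kernel)
           (CovZ.leaf K2_ok TP_l2291 _)
           (CovZ.subM 680564733841954298179204551130717620224 (by decide +kernel)
            (CovZ.n1 (1120, 24160) (by decide +kernel)
             (CovZ.n2 (1280, 24160) (by decide +kernel)
              (CovZ.leaf K2_ok TP_l7560 _)
              (CovZ.n1 (1200, 24240) (by decide +kernel)
               (CovZ.n2 (1280, 24240) (by decide +kernel)
                (CovZ.leaf K2_ok TP_l7561 _)
                (CovZ.leaf K2_ok TP_l7562 _))
               (CovZ.leaf K2_ok TP_l7563 _)))
             (CovZ.leaf K2_ok TP_l7564 _)))))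
         (CovZ.leaf K2_ok TP_l2292 _))))
      (CovZ.leaf K2_ok TP_l2293 _))
     (CovZ.subM 349299849644343352088262296267956217184256 (by decide +kernel)
      (CovZ.n1 (1920, 23680) (by decide +kernel)
       (CovZ.n2 (1920, 23040) (by decide +kernel)
        (CovZ.n2 (1600, 23360) (by decide +kernel)
         (CovZ.n2 (1920, 23360) (by decide +kernel)
          (CovZ.leaf K2_ok TP_l2294 _)
          (CovZ.leaf K2_ok TP_l2295 _))
         (CovZ.leaf K2_ok TP_l2296 _))
        (CovZ.n1 (2240, 23360) (by decide +kernel)
         (CovZ.n2 (2240, 23040) (by decide +kernel)
          (CovZ.leaf K2_ok TP_l2297 _)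
          (CovZ.badM (by decide +kernel)))
         (CovZ.n1 (1920, 23360) (by decide +kernel)
          (CovZ.n2 (2080, 23520) (by decide +kernel)
           (CovZ.leaf K2_ok TP_l2300 _)
           (CovZ.n1 (1920, 23520) (by decide +kernel)
            (CovZ.leaf K2_ok TP_l2301 _)
            (CovZ.leaf K2_ok TP_l2302 _)))
          (CovZ.leaf K2_ok TP_l2303 _))))
       (CovZ.n1 (1280, 23680) (by decide +kernel)
        (CovZ.n2 (1600, 24000) (by decide +kernel)
         (CovZ.n2 (1600, 23680) (by decide +kernel)
          (CovZ.n2 (1440, 23840) (by decide +kernel)
           (CovZ.n2 (1600, 23840) (by decide +kernel)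
            (CovZ.leaf K2_ok TP_l2304 _)
            (CovZ.leaf K2_ok TP_l7565 _))
           (CovZ.leaf K2_ok TP_l2305 _))
          (CovZ.n1 (1760, 23840) (by decide +kernel)
           (CovZ.n2 (1760, 23680) (by decide +kernel)
            (CovZ.leaf K2_ok TP_l2306 _)
            (CovZ.n1 (1840, 23760) (by decide +kernel)
             (CovZ.leaf K2_ok TP_l2307 _)
             (CovZ.leaf K2_ok TP_l2308 _)))
           (CovZ.n1 (1600, 23840) (by decide +kernel)
            (CovZ.n2 (1680, 23920) (by decide +kernel)
             (CovZ.leaf K2_ok TP_l7566 _)
             (CovZ.leaf K2_ok TP_l7567 _))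
            (CovZ.leaf K2_ok TP_l2309 _))))
         (CovZ.n1 (1280, 24000) (by decide +kernel)
          (CovZ.n2 (1440, 24160) (by decide +kernel)
           (CovZ.n2 (1440, 24000) (by decide +kernel)
            (CovZ.n2 (1360, 24080) (by decide +kernel)
             (CovZ.badM (by decide +kernel))
             (CovZ.leaf K2_ok TP_l7568 _))
            (CovZ.badM (by decide +kernel)))
           (CovZ.n1 (1280, 24160) (by decide +kernel)
            (CovZ.n2 (1360, 24240) (by decide +kernel)
             (CovZ.leaf K2_ok TP_l7569 _)
             (CovZ.n1 (1280, 24240) (by decide +kernel)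
              (CovZ.n2 (1320, 24280) (by decide +kernel)
               (CovZ.leaf K2_ok TP_l7570 _)
               (CovZ.leaf K2_ok TP_l7571 _))
              (CovZ.leaf K2_ok TP_l7572 _)))
            (CovZ.n1 (1360, 24080) (by decide +kernel)
             (CovZ.leaf K2_ok TP_l7573 _)
             (CovZ.leaf K2_ok TP_l7574 _))))
          (CovZ.n1 (1440, 23840) (by decide +kernel)
           (CovZ.leaf K2_ok TP_l2310 _)
           (CovZ.leaf K2_ok TP_l7575 _))))
        (CovZ.n1 (1600, 23360) (by decide +kernel)
         (CovZ.leaf K2_ok TP_l2311 _)
         (CovZ.n1 (1600, 23680) (by decide +kernel)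
          (CovZ.leaf K2_ok TP_l2312 _)
          (CovZ.leaf K2_ok TP_l2313 _)))))))

theorem TP_u85 : CovZ TP_M (toL (selN TP_LN 718676358937023583478172899542982499238064)) [0, 7, 2, 5] (0, 28160) (0, 29440) (-1280, 29440) :=
    (CovZ.subM 696898287454083520607568046622625857798144 (by decide +kernel)
      (CovZ.n2 (-640, 28800) (by decide +kernel)
       (CovZ.n2 (-640, 29440) (by decide +kernel)
        (CovZ.n2 (-320, 29120) (by decide +kernel)
         (CovZ.subM 696898287454082282658074804904574813470720 (by decide +kernel)
          (CovZ.n2 (-640, 29120) (by decide +kernel)
           (CovZ.n2 (-480, 29280) (by decide +kernel)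
            (CovZ.n2 (-480, 29120) (by decide +kernel)
             (CovZ.badM (by decide +kernel))
             (CovZ.n1 (-400, 29200) (by decide +kernel)
              (CovZ.n2 (-400, 29120) (by decide +kernel)
               (CovZ.n2 (-440, 29160) (by decide +kernel)
                (CovZ.leaf K2_ok TP_l6361 _)
                (CovZ.n1 (-440, 29120) (by decide +kernel)
                 (CovZ.badM (by decide +kernel))
                 (CovZ.leaf K2_ok TP_l6362 _)))
               (CovZ.leaf K2_ok TP_l703 _))
              (CovZ.n1 (-480, 29200) (by decide +kernel)
               (CovZ.n2 (-440, 29240) (by decide +kernel)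
                (CovZ.n2 (-440, 29200) (by decide +kernel)
                 (CovZ.leaf K2_ok TP_l6363 _)
                 (CovZ.leaf K2_ok TP_l6364 _))
                (CovZ.n1 (-480, 29240) (by decide +kernel)
                 (CovZ.leaf K2_ok TP_l6365 _)
                 (CovZ.leaf K2_ok TP_l6366 _)))
               (CovZ.n1 (-440, 29160) (by decide +kernel)
                (CovZ.badM (by decide +kernel))
                (CovZ.n1 (-440, 29200) (by decide +kernel)
                 (CovZ.leaf K2_ok TP_l6367 _)
                 (CovZ.badM (by decide +kernel)))))))
            (CovZ.n1 (-640, 29280) (by decide +kernel)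
             (CovZ.n2 (-560, 29360) (by decide +kernel)
              (CovZ.badM (by decide +kernel))
              (CovZ.badM (by decide +kernel)))
             (CovZ.badM (by decide +kernel))))
           (CovZ.n1 (-480, 28960) (by decide +kernel)
            (CovZ.badM (by decide +kernel))
            (CovZ.n1 (-480, 29120) (by decide +kernel)
             (CovZ.n2 (-400, 29040) (by decide +kernel)
              (CovZ.n2 (-480, 29040) (by decide +kernel)
               (CovZ.n2 (-440, 29080) (by decide +kernel)
                (CovZ.n2 (-440, 29040) (by decide +kernel)
                 (CovZ.badM (by decide +kernel))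
                 (CovZ.leaf K2_ok TP_l6368 _))
                (CovZ.badM (by decide +kernel)))
               (CovZ.n1 (-440, 29000) (by decide +kernel)
                (CovZ.badM (by decide +kernel))
                (CovZ.n1 (-440, 29040) (by decide +kernel)
                 (CovZ.leaf K2_ok TP_l6369 _)
                 (CovZ.badM (by decide +kernel)))))
              (CovZ.n1 (-400, 29120) (by decide +kernel)
               (CovZ.n2 (-360, 29080) (by decide +kernel)
                (CovZ.leaf K2_ok TP_l704 _)
                (CovZ.leaf K2_ok TP_l705 _))
               (CovZ.n1 (-440, 29080) (by decide +kernel)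
                (CovZ.n2 (-440, 29120) (by decide +kernel)
                 (CovZ.leaf K2_ok TP_l6370 _)
                 (CovZ.badM (by decide +kernel)))
                (CovZ.n1 (-400, 29080) (by decide +kernel)
                 (CovZ.leaf K2_ok TP_l6371 _)
                 (CovZ.leaf K2_ok TP_l6372 _)))))
             (CovZ.badM (by decide +kernel))))))
         (CovZ.n1 (-320, 29440) (by decide +kernel)
          (CovZ.n2 (-160, 29280) (by decide +kernel)
           (CovZ.n2 (-320, 29280) (by decide +kernel)
            (CovZ.leaf K2_ok TP_l706 _)
            (CovZ.n1 (-240, 29200) (by decide +kernel)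
             (CovZ.leaf K2_ok TP_l707 _)
             (CovZ.leaf K2_ok TP_l708 _)))
           (CovZ.n1 (-160, 29440) (by decide +kernel)
            (CovZ.leaf K2_ok TP_l709 _)
            (CovZ.n1 (-240, 29360) (by decide +kernel)
             (CovZ.leaf K2_ok TP_l710 _)
             (CovZ.leaf K2_ok TP_l711 _))))
          (CovZ.subM 696898287454082282658074804904574813470720 (by decide +kernel)
           (CovZ.n1 (-480, 29280) (by decide +kernel)
            (CovZ.n2 (-480, 29440) (by decide +kernel)
             (CovZ.n2 (-400, 29360) (by decide +kernel)
              (CovZ.n2 (-480, 29360) (by decide +kernel)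
               (CovZ.n2 (-440, 29400) (by decide +kernel)
                (CovZ.leaf K2_ok TP_l6373 _)
                (CovZ.leaf K2_ok TP_l6374 _))
               (CovZ.n1 (-440, 29320) (by decide +kernel)
                (CovZ.leaf K2_ok TP_l6375 _)
                (CovZ.leaf K2_ok TP_l6376 _)))
              (CovZ.n1 (-400, 29440) (by decide +kernel)
               (CovZ.leaf K2_ok TP_l712 _)
               (CovZ.n1 (-440, 29400) (by decide +kernel)
                (CovZ.leaf K2_ok TP_l6377 _)
                (CovZ.leaf K2_ok TP_l6378 _))))
             (CovZ.n1 (-560, 29360) (by decide +kernel)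
              (CovZ.n2 (-560, 29440) (by decide +kernel)
               (CovZ.n2 (-520, 29400) (by decide +kernel)
                (CovZ.badM (by decide +kernel))
                (CovZ.n1 (-520, 29440) (by decide +kernel)
                 (CovZ.leaf K2_ok TP_l6379 _)
                 (CovZ.badM (by decide +kernel))))
               (CovZ.badM (by decide +kernel)))
              (CovZ.n1 (-480, 29360) (by decide +kernel)
               (CovZ.badM (by decide +kernel))
               (CovZ.n1 (-520, 29400) (by decide +kernel)
                (CovZ.n2 (-480, 29400) (by decide +kernel)
                 (CovZ.leaf K2_ok TP_l6380 _)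
                 (CovZ.leaf K2_ok TP_l6381 _))
                (CovZ.n1 (-520, 29360) (by decide +kernel)
                 (CovZ.badM (by decide +kernel))
                 (CovZ.leaf K2_ok TP_l6382 _))))))
            (CovZ.n1 (-320, 29280) (by decide +kernel)
             (CovZ.n2 (-400, 29200) (by decide +kernel)
              (CovZ.n2 (-400, 29280) (by decide +kernel)
               (CovZ.leaf K2_ok TP_l713 _)
               (CovZ.n1 (-440, 29240) (by decide +kernel)
                (CovZ.n2 (-440, 29280) (by decide +kernel)
                 (CovZ.leaf K2_ok TP_l6383 _)
                 (CovZ.leaf K2_ok TP_l6384 _))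
                (CovZ.leaf K2_ok TP_l6385 _)))
              (CovZ.n1 (-320, 29200) (by decide +kernel)
               (CovZ.leaf K2_ok TP_l714 _)
               (CovZ.leaf K2_ok TP_l715 _)))
             (CovZ.n1 (-400, 29360) (by decide +kernel)
              (CovZ.n2 (-320, 29360) (by decide +kernel)
               (CovZ.leaf K2_ok TP_l716 _)
               (CovZ.leaf K2_ok TP_l717 _))
              (CovZ.n1 (-400, 29280) (by decide +kernel)
               (CovZ.n2 (-440, 29320) (by decide +kernel)
                (CovZ.leaf K2_ok TP_l6386 _)
                (CovZ.leaf K2_ok TP_l6387 _))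
               (CovZ.leaf K2_ok TP_l718 _))))))))
        (CovZ.badM (by decide +kernel)))
       (CovZ.n1 (0, 28800) (by decide +kernel)
        (CovZ.subM 9223372036854775808 (by decide +kernel)
         (CovZ.n2 (-320, 28480) (by decide +kernel)
          (CovZ.n2 (-320, 28800) (by decide +kernel)
           (CovZ.n2 (-160, 28640) (by decide +kernel)
            (CovZ.badM (by decide +kernel))
            (CovZ.n1 (-160, 28800) (by decide +kernel)
             (CovZ.n2 (-80, 28720) (by decide +kernel)
              (CovZ.leaf K2_ok TP_l6388 _)
              (CovZ.leaf K2_ok TP_l6389 _))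
             (CovZ.badM (by decide +kernel))))
           (CovZ.badM (by decide +kernel)))
          (CovZ.n1 (0, 28480) (by decide +kernel)
           (CovZ.badM (by decide +kernel))
           (CovZ.n1 (-160, 28640) (by decide +kernel)
            (CovZ.n2 (0, 28640) (by decide +kernel)
             (CovZ.n2 (-80, 28560) (by decide +kernel)
              (CovZ.leaf K2_ok TP_l6390 _)
              (CovZ.leaf K2_ok TP_l6391 _))
             (CovZ.leaf K2_ok TP_l6392 _))
            (CovZ.n1 (-160, 28480) (by decide +kernel)
             (CovZ.badM (by decide +kernel))
             (CovZ.n1 (-80, 28560) (by decide +kernel)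
              (CovZ.leaf K2_ok TP_l6393 _)
              (CovZ.leaf K2_ok TP_l6394 _)))))))
        (CovZ.n1 (-320, 29120) (by decide +kernel)
         (CovZ.n2 (0, 29120) (by decide +kernel)
          (CovZ.n2 (-160, 28960) (by decide +kernel)
           (CovZ.n2 (-160, 29120) (by decide +kernel)
            (CovZ.leaf K2_ok TP_l719 _)
            (CovZ.n1 (-240, 29040) (by decide +kernel)
             (CovZ.leaf K2_ok TP_l720 _)
             (CovZ.leaf K2_ok TP_l721 _)))
           (CovZ.n1 (0, 28960) (by decide +kernel)
            (CovZ.leaf K2_ok TP_l722 _)
            (CovZ.leaf K2_ok TP_l723 _)))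
          (CovZ.n1 (-160, 29280) (by decide +kernel)
           (CovZ.leaf K2_ok TP_l724 _)
           (CovZ.n1 (-160, 29120) (by decide +kernel)
            (CovZ.n2 (-240, 29200) (by decide +kernel)
             (CovZ.leaf K2_ok TP_l725 _)
             (CovZ.leaf K2_ok TP_l726 _))
            (CovZ.leaf K2_ok TP_l727 _))))
         (CovZ.n1 (-320, 28800) (by decide +kernel)
          (CovZ.subM 696898287454081973172991196583211250483200 (by decide +kernel)
           (CovZ.n2 (-480, 28960) (by decide +kernel)
            (CovZ.n2 (-320, 28960) (by decide +kernel)
             (CovZ.n2 (-400, 28880) (by decide +kernel)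
              (CovZ.n2 (-400, 28960) (by decide +kernel)
               (CovZ.n2 (-360, 28920) (by decide +kernel)
                (CovZ.n2 (-400, 28920) (by decide +kernel)
                 (CovZ.leaf K2_ok TP_l6395 _)
                 (CovZ.leaf K2_ok TP_l6396 _))
                (CovZ.n1 (-360, 28960) (by decide +kernel)
                 (CovZ.leaf K2_ok TP_l6397 _)
                 (CovZ.leaf K2_ok TP_l6398 _)))
               (CovZ.badM (by decide +kernel)))
              (CovZ.n1 (-320, 28880) (by decide +kernel)
               (CovZ.badM (by decide +kernel))
               (CovZ.n1 (-360, 28920) (by decide +kernel)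
                (CovZ.leaf K2_ok TP_l6399 _)
                (CovZ.n1 (-360, 28880) (by decide +kernel)
                 (CovZ.leaf K2_ok TP_l6400 _)
                 (CovZ.leaf K2_ok TP_l6401 _)))))
             (CovZ.n1 (-400, 29040) (by decide +kernel)
              (CovZ.n2 (-320, 29040) (by decide +kernel)
               (CovZ.n2 (-360, 29000) (by decide +kernel)
                (CovZ.leaf K2_ok TP_l728 _)
                (CovZ.leaf K2_ok TP_l729 _))
               (CovZ.n1 (-360, 29080) (by decide +kernel)
                (CovZ.leaf K2_ok TP_l730 _)
                (CovZ.leaf K2_ok TP_l731 _)))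
              (CovZ.n1 (-400, 28960) (by decide +kernel)
               (CovZ.n2 (-440, 29000) (by decide +kernel)
                (CovZ.n2 (-400, 29000) (by decide +kernel)
                 (CovZ.badM (by decide +kernel))
                 (CovZ.leaf K2_ok TP_l6402 _))
                (CovZ.badM (by decide +kernel)))
               (CovZ.n1 (-360, 29000) (by decide +kernel)
                (CovZ.leaf K2_ok TP_l732 _)
                (CovZ.leaf K2_ok TP_l733 _)))))
            (CovZ.n1 (-480, 28800) (by decide +kernel)
             (CovZ.badM (by decide +kernel))
             (CovZ.n1 (-400, 28880) (by decide +kernel)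
              (CovZ.badM (by decide +kernel))
              (CovZ.badM (by decide +kernel))))))
          (CovZ.n1 (-160, 28960) (by decide +kernel)
           (CovZ.n2 (-160, 28800) (by decide +kernel)
            (CovZ.n2 (-240, 28880) (by decide +kernel)
             (CovZ.leaf K2_ok TP_l6403 _)
             (CovZ.badM (by decide +kernel)))
            (CovZ.leaf K2_ok TP_l734 _))
           (CovZ.subM 696898287454081973172991196583211250483200 (by decide +kernel)
            (CovZ.n1 (-320, 28960) (by decide +kernel)
             (CovZ.n2 (-240, 29040) (by decide +kernel)
              (CovZ.leaf K2_ok TP_l735 _)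
              (CovZ.n1 (-320, 29040) (by decide +kernel)
               (CovZ.leaf K2_ok TP_l736 _)
               (CovZ.leaf K2_ok TP_l737 _)))
             (CovZ.n1 (-240, 28880) (by decide +kernel)
              (CovZ.n2 (-320, 28880) (by decide +kernel)
               (CovZ.leaf K2_ok TP_l6404 _)
               (CovZ.badM (by decide +kernel)))
              (CovZ.n1 (-240, 28960) (by decide +kernel)
               (CovZ.leaf K2_ok TP_l6405 _)
               (CovZ.leaf K2_ok TP_l6406 _)))))))))))

end Pool.Agent.TET
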