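import Pool.Agent.Helper38_TET.TP_M
import Pool.Agent.Helper38_TET.TP_L
import Pool.Agent.Helper38_TET.TP_4
import Pool.Agent.Helper38_TET.TP_5
import Pool.Agent.Helper38_TET.TP_42
import Pool.Agent.Helper38_TET.TP_43

/-!
# MP_c7c9bf_co: certificates, family TP
-/

set_option autoImplicit false
set_option maxRecDepth 100000

namespace Pool.Agent.TET

theorem TP_u86 : CovZ TP_M (toL (selN TP_LN 718676358937023583478172899542982499238064)) [0, 7, 2, 5] (0, 29440) (0, 30720) (-1280, 29440) :=
    (CovZ.n1 (-640, 30080) (by decide +kernel)
      (CovZ.n2 (0, 30080) (by decide +kernel)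
       (CovZ.n2 (-320, 29760) (by decide +kernel)
        (CovZ.n2 (-320, 30080) (by decide +kernel)
         (CovZ.n2 (-160, 29920) (by decide +kernel)
          (CovZ.n2 (-320, 29920) (by decide +kernel)
           (CovZ.leaf K2_ok TP_l738 _)
           (CovZ.leaf K2_ok TP_l739 _))
          (CovZ.leaf K2_ok TP_l740 _))
         (CovZ.subM 718676358937022345528679657824931438133248 (by decide +kernel)
          (CovZ.n1 (-480, 29920) (by decide +kernel)
           (CovZ.n2 (-480, 30080) (by decide +kernel)
            (CovZ.n2 (-400, 30000) (by decide +kernel)
             (CovZ.leaf K3_ok TP_l741 _)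
             (CovZ.leaf K3_ok TP_l742 _))
            (CovZ.subM 1209022665021018297335808 (by decide +kernel)
             (CovZ.n1 (-560, 30000) (by decide +kernel)
              (CovZ.n2 (-560, 30080) (by decide +kernel)
               (CovZ.leaf K3_ok TP_l743 _)
               (CovZ.n1 (-600, 30040) (by decide +kernel)
                (CovZ.leaf K3_ok TP_l744 _)
                (CovZ.leaf K3_ok TP_l745 _)))
              (CovZ.n1 (-480, 30000) (by decide +kernel)
               (CovZ.leaf K3_ok TP_l746 _)
               (CovZ.leaf K3_ok TP_l747 _)))))
           (CovZ.n1 (-320, 29920) (by decide +kernel)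
            (CovZ.n2 (-400, 29840) (by decide +kernel)
             (CovZ.leaf K2_ok TP_l748 _)
             (CovZ.leaf K2_ok TP_l749 _))
            (CovZ.leaf K2_ok TP_l750 _)))))
        (CovZ.n1 (0, 29760) (by decide +kernel)
         (CovZ.n2 (-160, 29600) (by decide +kernel)
          (CovZ.n2 (-160, 29760) (by decide +kernel)
           (CovZ.leaf K2_ok TP_l751 _)
           (CovZ.leaf K2_ok TP_l752 _))
          (CovZ.leaf K2_ok TP_l753 _))
         (CovZ.n1 (-160, 29920) (by decide +kernel)
          (CovZ.leaf K2_ok TP_l754 _)
          (CovZ.leaf K2_ok TP_l755 _))))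
       (CovZ.n1 (-320, 30400) (by decide +kernel)
        (CovZ.n2 (0, 30400) (by decide +kernel)
         (CovZ.n2 (-160, 30240) (by decide +kernel)
          (CovZ.leaf K2_ok TP_l756 _)
          (CovZ.leaf K2_ok TP_l757 _))
         (CovZ.n1 (-160, 30560) (by decide +kernel)
          (CovZ.leaf K2_ok TP_l758 _)
          (CovZ.leaf K3_ok TP_l759 _)))
        (CovZ.n1 (-320, 30080) (by decide +kernel)
         (CovZ.n2 (-480, 30240) (by decide +kernel)
          (CovZ.n2 (-320, 30240) (by decide +kernel)
           (CovZ.leaf K3_ok TP_l760 _)
           (CovZ.leaf K3_ok TP_l761 _))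
          (CovZ.n1 (-480, 30080) (by decide +kernel)
           (CovZ.subM 1209022665021018314113040 (by decide +kernel)
            (CovZ.n2 (-560, 30160) (by decide +kernel)
             (CovZ.leaf K3_ok TP_l762 _)
             (CovZ.n1 (-560, 30080) (by decide +kernel)
              (CovZ.n2 (-600, 30120) (by decide +kernel)
               (CovZ.leaf K3_ok TP_l763 _)
               (CovZ.leaf K3_ok TP_l764 _))
              (CovZ.leaf K3_ok TP_l765 _))))
           (CovZ.leaf K3_ok TP_l766 _)))
         (CovZ.n1 (-160, 30240) (by decide +kernel)
          (CovZ.leaf K2_ok TP_l767 _)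
          (CovZ.leaf K3_ok TP_l768 _)))))
      (CovZ.n1 (-640, 29440) (by decide +kernel)
       (CovZ.badM (by decide +kernel))
       (CovZ.n1 (-320, 29760) (by decide +kernel)
        (CovZ.subM 696898287454083521816498477923273459892224 (by decide +kernel)
         (CovZ.n2 (-320, 29440) (by decide +kernel)
          (CovZ.n2 (-480, 29600) (by decide +kernel)
           (CovZ.n2 (-320, 29600) (by decide +kernel)
            (CovZ.n2 (-400, 29520) (by decide +kernel)
             (CovZ.n2 (-400, 29600) (by decide +kernel)
              (CovZ.leaf K2_ok TP_l769 _)
              (CovZ.leaf K2_ok TP_l6407 _))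
             (CovZ.leaf K2_ok TP_l770 _))
            (CovZ.n1 (-400, 29680) (by decide +kernel)
             (CovZ.leaf K2_ok TP_l771 _)
             (CovZ.n1 (-400, 29600) (by decide +kernel)
              (CovZ.leaf K2_ok TP_l6408 _)
              (CovZ.leaf K2_ok TP_l772 _))))
           (CovZ.subM 696898287454082283867000624519203988176896 (by decide +kernel)
            (CovZ.n1 (-480, 29440) (by decide +kernel)
             (CovZ.n2 (-560, 29520) (by decide +kernel)
              (CovZ.n2 (-480, 29520) (by decide +kernel)
               (CovZ.n2 (-520, 29480) (by decide +kernel)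
                (CovZ.n2 (-520, 29520) (by decide +kernel)
                 (CovZ.leaf K2_ok TP_l6409 _)
                 (CovZ.badM (by decide +kernel)))
                (CovZ.leaf K2_ok TP_l6410 _))
               (CovZ.n1 (-520, 29560) (by decide +kernel)
                (CovZ.leaf K2_ok TP_l6411 _)
                (CovZ.n1 (-520, 29520) (by decide +kernel)
                 (CovZ.leaf K2_ok TP_l6412 _)
                 (CovZ.leaf K2_ok TP_l6413 _))))
              (CovZ.n1 (-560, 29440) (by decide +kernel)
               (CovZ.badM (by decide +kernel))
               (CovZ.n1 (-520, 29480) (by decide +kernel)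
                (CovZ.n2 (-520, 29440) (by decide +kernel)
                 (CovZ.badM (by decide +kernel))
                 (CovZ.leaf K2_ok TP_l6414 _))
                (CovZ.badM (by decide +kernel)))))
             (CovZ.n1 (-400, 29520) (by decide +kernel)
              (CovZ.n2 (-400, 29440) (by decide +kernel)
               (CovZ.leaf K2_ok TP_l6415 _)
               (CovZ.leaf K2_ok TP_l773 _))
              (CovZ.n1 (-480, 29520) (by decide +kernel)
               (CovZ.leaf K2_ok TP_l6416 _)
               (CovZ.leaf K2_ok TP_l6417 _))))))
          (CovZ.n1 (-160, 29600) (by decide +kernel)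
           (CovZ.n2 (-160, 29440) (by decide +kernel)
            (CovZ.leaf K2_ok TP_l774 _)
            (CovZ.leaf K2_ok TP_l775 _))
           (CovZ.n1 (-320, 29600) (by decide +kernel)
            (CovZ.leaf K2_ok TP_l776 _)
            (CovZ.leaf K2_ok TP_l777 _)))))
        (CovZ.subM 718676358937022345528679657824931438133248 (by decide +kernel)
         (CovZ.n1 (-640, 29760) (by decide +kernel)
          (CovZ.n2 (-480, 29920) (by decide +kernel)
           (CovZ.n2 (-480, 29760) (by decide +kernel)
            (CovZ.subM 1209022665021018297335808 (by decide +kernel)
             (CovZ.n2 (-560, 29840) (by decide +kernel)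
              (CovZ.n2 (-480, 29840) (by decide +kernel)
               (CovZ.leaf K2_ok TP_l6418 _)
               (CovZ.leaf K3_ok TP_l778 _))
              (CovZ.n1 (-560, 29760) (by decide +kernel)
               (CovZ.n2 (-600, 29800) (by decide +kernel)
                (CovZ.leaf K3_ok TP_l6419 _)
                (CovZ.n1 (-600, 29760) (by decide +kernel)
                 (CovZ.badM (by decide +kernel))
                 (CovZ.leaf K3_ok TP_l6420 _)))
               (CovZ.leaf K2_ok TP_l6421 _))))
            (CovZ.n1 (-400, 29840) (by decide +kernel)
             (CovZ.leaf K2_ok TP_l779 _)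
             (CovZ.leaf K2_ok TP_l780 _)))
           (CovZ.subM 1209022665021018297335808 (by decide +kernel)
            (CovZ.n1 (-640, 29920) (by decide +kernel)
             (CovZ.n2 (-560, 30000) (by decide +kernel)
              (CovZ.n2 (-560, 29920) (by decide +kernel)
               (CovZ.n2 (-600, 29960) (by decide +kernel)
                (CovZ.leaf K3_ok TP_l781 _)
                (CovZ.leaf K3_ok TP_l782 _))
               (CovZ.leaf K3_ok TP_l783 _))
              (CovZ.n1 (-640, 30000) (by decide +kernel)
               (CovZ.n2 (-600, 30040) (by decide +kernel)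
                (CovZ.leaf K3_ok TP_l784 _)
                (CovZ.leaf K3_ok TP_l785 _))
               (CovZ.n1 (-600, 29960) (by decide +kernel)
                (CovZ.n2 (-640, 29960) (by decide +kernel)
                 (CovZ.leaf K3_ok TP_l786 _)
                 (CovZ.leaf K3_ok TP_l787 _))
                (CovZ.n1 (-600, 30000) (by decide +kernel)
                 (CovZ.leaf K3_ok TP_l788 _)
                 (CovZ.leaf K3_ok TP_l789 _)))))
             (CovZ.n1 (-560, 29840) (by decide +kernel)
              (CovZ.n2 (-640, 29840) (by decide +kernel)
               (CovZ.n2 (-600, 29880) (by decide +kernel)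
                (CovZ.n2 (-600, 29840) (by decide +kernel)
                 (CovZ.leaf K3_ok TP_l790 _)
                 (CovZ.leaf K3_ok TP_l791 _))
                (CovZ.n1 (-640, 29880) (by decide +kernel)
                 (CovZ.leaf K3_ok TP_l792 _)
                 (CovZ.leaf K3_ok TP_l793 _)))
               (CovZ.n1 (-600, 29800) (by decide +kernel)
                (CovZ.badM (by decide +kernel))
                (CovZ.n1 (-600, 29840) (by decide +kernel)
                 (CovZ.leaf K3_ok TP_l6422 _)
                 (CovZ.badM (by decide +kernel)))))
              (CovZ.n1 (-560, 29920) (by decide +kernel)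
               (CovZ.leaf K3_ok TP_l794 _)
               (CovZ.n1 (-600, 29880) (by decide +kernel)
                (CovZ.n2 (-600, 29920) (by decide +kernel)
                 (CovZ.leaf K3_ok TP_l795 _)
                 (CovZ.leaf K3_ok TP_l796 _))
                (CovZ.leaf K3_ok TP_l797 _)))))))
          (CovZ.n1 (-480, 29600) (by decide +kernel)
           (CovZ.subM 1209004218276942440300544 (by decide +kernel)
            (CovZ.n2 (-640, 29600) (by decide +kernel)
             (CovZ.n2 (-560, 29680) (by decide +kernel)
              (CovZ.n2 (-560, 29600) (by decide +kernel)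
               (CovZ.badM (by decide +kernel))
               (CovZ.n1 (-520, 29640) (by decide +kernel)
                (CovZ.leaf K2_ok TP_l6423 _)
                (CovZ.n1 (-560, 29640) (by decide +kernel)
                 (CovZ.leaf K2_ok TP_l6424 _)
                 (CovZ.leaf K2_ok TP_l6425 _))))
              (CovZ.n1 (-640, 29680) (by decide +kernel)
               (CovZ.n2 (-600, 29720) (by decide +kernel)
                (CovZ.n2 (-600, 29680) (by decide +kernel)
                 (CovZ.badM (by decide +kernel))
                 (CovZ.leaf K2_ok TP_l6426 _))
                (CovZ.badM (by decide +kernel)))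
               (CovZ.badM (by decide +kernel))))
             (CovZ.n1 (-560, 29520) (by decide +kernel)
              (CovZ.badM (by decide +kernel))
              (CovZ.n1 (-560, 29600) (by decide +kernel)
               (CovZ.n2 (-520, 29560) (by decide +kernel)
                (CovZ.n2 (-560, 29560) (by decide +kernel)
                 (CovZ.leaf K2_ok TP_l6427 _)
                 (CovZ.leaf K2_ok TP_l6428 _))
                (CovZ.n1 (-520, 29600) (by decide +kernel)
                 (CovZ.leaf K2_ok TP_l6429 _)
                 (CovZ.leaf K2_ok TP_l6430 _)))
               (CovZ.badM (by decide +kernel))))))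
           (CovZ.n1 (-480, 29760) (by decide +kernel)
            (CovZ.n2 (-400, 29680) (by decide +kernel)
             (CovZ.n2 (-480, 29680) (by decide +kernel)
              (CovZ.leaf K2_ok TP_l6431 _)
              (CovZ.leaf K2_ok TP_l6432 _))
             (CovZ.leaf K2_ok TP_l798 _))
            (CovZ.subM 1209004218276942440300544 (by decide +kernel)
             (CovZ.n1 (-560, 29680) (by decide +kernel)
              (CovZ.n2 (-560, 29760) (by decide +kernel)
               (CovZ.n2 (-520, 29720) (by decide +kernel)
                (CovZ.leaf K2_ok TP_l6433 _)
                (CovZ.leaf K2_ok TP_l6434 _))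
               (CovZ.n1 (-600, 29720) (by decide +kernel)
                (CovZ.n2 (-600, 29760) (by decide +kernel)
                 (CovZ.leaf K3_ok TP_l6435 _)
                 (CovZ.badM (by decide +kernel)))
                (CovZ.n1 (-560, 29720) (by decide +kernel)
                 (CovZ.leaf K2_ok TP_l6436 _)
                 (CovZ.leaf K2_ok TP_l6437 _))))
              (CovZ.n1 (-480, 29680) (by decide +kernel)
               (CovZ.n2 (-520, 29640) (by decide +kernel)
                (CovZ.leaf K2_ok TP_l6438 _)
                (CovZ.leaf K2_ok TP_l6439 _))
               (CovZ.n1 (-520, 29720) (by decide +kernel)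
                (CovZ.leaf K2_ok TP_l6440 _)
                (CovZ.leaf K2_ok TP_l6441 _))))))))))))

theorem TP_u87 : CovZ TP_M (toL (selN TP_LN 718676358937023583478172899542982499238064)) [0, 7, 2, 5] (0, 30720) (0, 32000) (-1280, 32000) :=
    (CovZ.n2 (-640, 31360) (by decide +kernel)
      (CovZ.n2 (-640, 32000) (by decide +kernel)
       (CovZ.n2 (-320, 31680) (by decide +kernel)
        (CovZ.subM 718676358937022345528661211080857728581632 (by decide +kernel)
         (CovZ.n2 (-640, 31680) (by decide +kernel)
          (CovZ.subM 718676358937022344319656992803913140797440 (by decide +kernel)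
           (CovZ.n2 (-480, 31840) (by decide +kernel)
            (CovZ.n2 (-480, 31680) (by decide +kernel)
             (CovZ.badM (by decide +kernel))
             (CovZ.n1 (-400, 31760) (by decide +kernel)
              (CovZ.n2 (-400, 31680) (by decide +kernel)
               (CovZ.n2 (-440, 31720) (by decide +kernel)
                (CovZ.leaf K2_ok TP_l6495 _)
                (CovZ.leaf K2_ok TP_l6496 _))
               (CovZ.leaf K2_ok TP_l826 _))
              (CovZ.n1 (-480, 31760) (by decide +kernel)
               (CovZ.n2 (-440, 31800) (by decide +kernel)
                (CovZ.n2 (-440, 31760) (by decide +kernel)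
                 (CovZ.badM (by decide +kernel))
                 (CovZ.leaf K2_ok TP_l6497 _))
                (CovZ.badM (by decide +kernel)))
               (CovZ.n1 (-440, 31720) (by decide +kernel)
                (CovZ.leaf K2_ok TP_l6498 _)
                (CovZ.n1 (-440, 31760) (by decide +kernel)
                 (CovZ.leaf K2_ok TP_l6499 _)
                 (CovZ.leaf K2_ok TP_l6500 _))))))
            (CovZ.badM (by decide +kernel))))
          (CovZ.n1 (-480, 31520) (by decide +kernel)
           (CovZ.subM 1209004218276944587784192 (by decide +kernel)
            (CovZ.n2 (-640, 31520) (by decide +kernel)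
             (CovZ.n2 (-560, 31600) (by decide +kernel)
              (CovZ.n2 (-560, 31520) (by decide +kernel)
               (CovZ.badM (by decide +kernel))
               (CovZ.n1 (-520, 31560) (by decide +kernel)
                (CovZ.n2 (-520, 31520) (by decide +kernel)
                 (CovZ.leaf K2_ok TP_l6501 _)
                 (CovZ.leaf K2_ok TP_l6502 _))
                (CovZ.n1 (-560, 31560) (by decide +kernel)
                 (CovZ.badM (by decide +kernel))
                 (CovZ.leaf K2_ok TP_l6503 _))))
              (CovZ.badM (by decide +kernel)))
             (CovZ.n1 (-560, 31440) (by decide +kernel)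
              (CovZ.n2 (-640, 31440) (by decide +kernel)
               (CovZ.n2 (-600, 31480) (by decide +kernel)
                (CovZ.n2 (-600, 31440) (by decide +kernel)
                 (CovZ.badM (by decide +kernel))
                 (CovZ.leaf K2_ok TP_l6504 _))
                (CovZ.badM (by decide +kernel)))
               (CovZ.n1 (-600, 31400) (by decide +kernel)
                (CovZ.badM (by decide +kernel))
                (CovZ.n1 (-600, 31440) (by decide +kernel)
                 (CovZ.leaf K2_ok TP_l6505 _)
                 (CovZ.badM (by decide +kernel)))))
              (CovZ.n1 (-560, 31520) (by decide +kernel)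
               (CovZ.n2 (-520, 31480) (by decide +kernel)
                (CovZ.leaf K2_ok TP_l6506 _)
                (CovZ.leaf K2_ok TP_l6507 _))
               (CovZ.n1 (-600, 31480) (by decide +kernel)
                (CovZ.badM (by decide +kernel))
                (CovZ.n1 (-560, 31480) (by decide +kernel)
                 (CovZ.leaf K2_ok TP_l6508 _)
                 (CovZ.badM (by decide +kernel))))))))
           (CovZ.n1 (-480, 31680) (by decide +kernel)
            (CovZ.n2 (-400, 31600) (by decide +kernel)
             (CovZ.n2 (-480, 31600) (by decide +kernel)
              (CovZ.leaf K2_ok TP_l6509 _)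
              (CovZ.leaf K2_ok TP_l6510 _))
             (CovZ.n1 (-400, 31680) (by decide +kernel)
              (CovZ.leaf K2_ok TP_l827 _)
              (CovZ.leaf K2_ok TP_l6511 _)))
            (CovZ.subM 1208999606590924012912640 (by decide +kernel)
             (CovZ.n1 (-560, 31600) (by decide +kernel)
              (CovZ.n2 (-560, 31680) (by decide +kernel)
               (CovZ.n2 (-520, 31640) (by decide +kernel)
                (CovZ.badM (by decide +kernel))
                (CovZ.n1 (-520, 31680) (by decide +kernel)
                 (CovZ.leaf K2_ok TP_l6512 _)
                 (CovZ.badM (by decide +kernel))))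
               (CovZ.badM (by decide +kernel)))
              (CovZ.n1 (-480, 31600) (by decide +kernel)
               (CovZ.n2 (-520, 31560) (by decide +kernel)
                (CovZ.n2 (-520, 31600) (by decide +kernel)
                 (CovZ.leaf K2_ok TP_l6513 _)
                 (CovZ.badM (by decide +kernel)))
                (CovZ.leaf K2_ok TP_l6514 _))
               (CovZ.n1 (-520, 31640) (by decide +kernel)
                (CovZ.n2 (-480, 31640) (by decide +kernel)
                 (CovZ.leaf K2_ok TP_l6515 _)
                 (CovZ.leaf K2_ok TP_l6516 _))
                (CovZ.n1 (-520, 31600) (by decide +kernel)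
                 (CovZ.badM (by decide +kernel))
                 (CovZ.leaf K2_ok TP_l6517 _))))))))))
        (CovZ.subM 718676358937023582269150234521964185124864 (by decide +kernel)
         (CovZ.n1 (-320, 32000) (by decide +kernel)
          (CovZ.n2 (-160, 31840) (by decide +kernel)
           (CovZ.n2 (-320, 31840) (by decide +kernel)
            (CovZ.n2 (-240, 31920) (by decide +kernel)
             (CovZ.leaf K2_ok TP_l828 _)
             (CovZ.leaf K2_ok TP_l829 _))
            (CovZ.leaf K2_ok TP_l830 _))
           (CovZ.n1 (-160, 32000) (by decide +kernel)
            (CovZ.leaf K2_ok TP_l831 _)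
            (CovZ.n1 (-240, 31920) (by decide +kernel)
             (CovZ.leaf K2_ok TP_l832 _)
             (CovZ.leaf K2_ok TP_l833 _))))
          (CovZ.subM 718676358937022344319656992803913140797440 (by decide +kernel)
           (CovZ.n1 (-480, 31840) (by decide +kernel)
            (CovZ.n2 (-480, 32000) (by decide +kernel)
             (CovZ.n2 (-400, 31920) (by decide +kernel)
              (CovZ.n2 (-480, 31920) (by decide +kernel)
               (CovZ.badM (by decide +kernel))
               (CovZ.n1 (-440, 31880) (by decide +kernel)
                (CovZ.badM (by decide +kernel))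
                (CovZ.badM (by decide +kernel))))
              (CovZ.n1 (-400, 32000) (by decide +kernel)
               (CovZ.n2 (-360, 31960) (by decide +kernel)
                (CovZ.n2 (-400, 31960) (by decide +kernel)
                 (CovZ.badM (by decide +kernel))
                 (CovZ.leaf K2_ok TP_l834 _))
                (CovZ.badM (by decide +kernel)))
               (CovZ.badM (by decide +kernel))))
             (CovZ.badM (by decide +kernel)))
            (CovZ.n1 (-320, 31840) (by decide +kernel)
             (CovZ.n2 (-400, 31760) (by decide +kernel)
              (CovZ.n2 (-400, 31840) (by decide +kernel)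
               (CovZ.leaf K2_ok TP_l835 _)
               (CovZ.n1 (-440, 31800) (by decide +kernel)
                (CovZ.n2 (-440, 31840) (by decide +kernel)
                 (CovZ.leaf K2_ok TP_l6518 _)
                 (CovZ.badM (by decide +kernel)))
                (CovZ.leaf K2_ok TP_l6519 _)))
              (CovZ.n1 (-320, 31760) (by decide +kernel)
               (CovZ.leaf K2_ok TP_l836 _)
               (CovZ.leaf K2_ok TP_l837 _)))
             (CovZ.n1 (-400, 31920) (by decide +kernel)
              (CovZ.n2 (-320, 31920) (by decide +kernel)
               (CovZ.n2 (-360, 31880) (by decide +kernel)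
                (CovZ.leaf K2_ok TP_l838 _)
                (CovZ.leaf K2_ok TP_l839 _))
               (CovZ.n1 (-360, 31960) (by decide +kernel)
                (CovZ.leaf K2_ok TP_l840 _)
                (CovZ.leaf K2_ok TP_l841 _)))
              (CovZ.n1 (-400, 31840) (by decide +kernel)
               (CovZ.n2 (-440, 31880) (by decide +kernel)
                (CovZ.n2 (-400, 31880) (by decide +kernel)
                 (CovZ.leaf K2_ok TP_l6520 _)
                 (CovZ.badM (by decide +kernel)))
                (CovZ.n1 (-440, 31840) (by decide +kernel)
                 (CovZ.badM (by decide +kernel))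
                 (CovZ.leaf K2_ok TP_l6521 _)))
               (CovZ.n1 (-360, 31880) (by decide +kernel)
                (CovZ.leaf K2_ok TP_l842 _)
                (CovZ.leaf K2_ok TP_l843 _))))))))))
       (CovZ.badM (by decide +kernel)))
      (CovZ.n1 (0, 31360) (by decide +kernel)
       (CovZ.n2 (-320, 31040) (by decide +kernel)
        (CovZ.n2 (-320, 31360) (by decide +kernel)
         (CovZ.n2 (-160, 31200) (by decide +kernel)
          (CovZ.leaf K2_ok TP_l844 _)
          (CovZ.leaf K2_ok TP_l845 _))
         (CovZ.n1 (-480, 31200) (by decide +kernel)
          (CovZ.n2 (-480, 31360) (by decide +kernel)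
           (CovZ.leaf K2_ok TP_l846 _)
           (CovZ.subM 1209022665021018314113024 (by decide +kernel)
            (CovZ.n1 (-560, 31280) (by decide +kernel)
             (CovZ.n2 (-560, 31360) (by decide +kernel)
              (CovZ.leaf K2_ok TP_l847 _)
              (CovZ.n1 (-600, 31320) (by decide +kernel)
               (CovZ.n2 (-600, 31360) (by decide +kernel)
                (CovZ.leaf K2_ok TP_l848 _)
                (CovZ.leaf K2_ok TP_l849 _))
               (CovZ.leaf K2_ok TP_l850 _)))
             (CovZ.leaf K2_ok TP_l851 _))))
          (CovZ.n1 (-320, 31200) (by decide +kernel)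
           (CovZ.leaf K2_ok TP_l852 _)
           (CovZ.leaf K2_ok TP_l853 _))))
        (CovZ.n1 (0, 31040) (by decide +kernel)
         (CovZ.n2 (-160, 30880) (by decide +kernel)
          (CovZ.leaf K2_ok TP_l854 _)
          (CovZ.leaf K2_ok TP_l855 _))
         (CovZ.n1 (-160, 31200) (by decide +kernel)
          (CovZ.leaf K2_ok TP_l856 _)
          (CovZ.leaf K2_ok TP_l857 _))))
       (CovZ.n1 (-320, 31680) (by decide +kernel)
        (CovZ.n2 (0, 31680) (by decide +kernel)
         (CovZ.n2 (-160, 31520) (by decide +kernel)
          (CovZ.leaf K2_ok TP_l858 _)
          (CovZ.leaf K2_ok TP_l859 _))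
         (CovZ.n1 (-160, 31840) (by decide +kernel)
          (CovZ.leaf K2_ok TP_l860 _)
          (CovZ.n1 (-160, 31680) (by decide +kernel)
           (CovZ.leaf K2_ok TP_l861 _)
           (CovZ.leaf K2_ok TP_l862 _))))
        (CovZ.n1 (-320, 31360) (by decide +kernel)
         (CovZ.subM 718676358937022345528661211080857728581632 (by decide +kernel)
          (CovZ.n2 (-480, 31520) (by decide +kernel)
           (CovZ.n2 (-320, 31520) (by decide +kernel)
            (CovZ.n2 (-400, 31440) (by decide +kernel)
             (CovZ.leaf K2_ok TP_l863 _)
             (CovZ.leaf K2_ok TP_l864 _))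
            (CovZ.n1 (-400, 31600) (by decide +kernel)
             (CovZ.leaf K2_ok TP_l865 _)
             (CovZ.n1 (-400, 31520) (by decide +kernel)
              (CovZ.leaf K2_ok TP_l6522 _)
              (CovZ.leaf K2_ok TP_l866 _))))
           (CovZ.n1 (-480, 31360) (by decide +kernel)
            (CovZ.subM 1209004218276944587784192 (by decide +kernel)
             (CovZ.n2 (-560, 31440) (by decide +kernel)
              (CovZ.n2 (-480, 31440) (by decide +kernel)
               (CovZ.leaf K2_ok TP_l6523 _)
               (CovZ.n1 (-520, 31480) (by decide +kernel)
                (CovZ.leaf K2_ok TP_l6524 _)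
                (CovZ.leaf K2_ok TP_l6525 _)))
              (CovZ.n1 (-560, 31360) (by decide +kernel)
               (CovZ.n2 (-600, 31400) (by decide +kernel)
                (CovZ.n2 (-560, 31400) (by decide +kernel)
                 (CovZ.leaf K2_ok TP_l6526 _)
                 (CovZ.leaf K2_ok TP_l6527 _))
                (CovZ.n1 (-600, 31360) (by decide +kernel)
                 (CovZ.badM (by decide +kernel))
                 (CovZ.leaf K2_ok TP_l6528 _)))
               (CovZ.leaf K2_ok TP_l6529 _))))
            (CovZ.n1 (-400, 31440) (by decide +kernel)
             (CovZ.leaf K2_ok TP_l867 _)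
             (CovZ.leaf K2_ok TP_l6530 _)))))
         (CovZ.n1 (-160, 31520) (by decide +kernel)
          (CovZ.leaf K2_ok TP_l868 _)
          (CovZ.n1 (-320, 31520) (by decide +kernel)
           (CovZ.leaf K2_ok TP_l869 _)
           (CovZ.leaf K2_ok TP_l870 _)))))))

end Pool.Agent.TET
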