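import Pool.Agent.Helper38_TET.TP_M
import Pool.Agent.Helper38_TET.TP_L
import Pool.Agent.Helper38_TET.TP_2
import Pool.Agent.Helper38_TET.TP_3
import Pool.Agent.Helper38_TET.TP_4
import Pool.Agent.Helper38_TET.TP_5
import Pool.Agent.Helper38_TET.TP_6
import Pool.Agent.Helper38_TET.TP_14
import Pool.Agent.Helper38_TET.TP_15
import Pool.Agent.Helper38_TET.TP_16
import Pool.Agent.Helper38_TET.TP_33
import Pool.Agent.Helper38_TET.TP_34
import Pool.Agent.Helper38_TET.TP_41
import Pool.Agent.Helper38_TET.TP_42
import Pool.Agent.Helper38_TET.TP_43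
import Pool.Agent.Helper38_TET.TP_50
import Pool.Agent.Helper38_TET.TP_52
import Pool.Agent.Helper38_TET.TP_53
import Pool.Agent.Helper38_TET.TP_54
import Pool.Agent.Helper38_TET.TP_U5
import Pool.Agent.Helper38_TET.TP_U6

/-!
# MP_c7c9bf_co: certificates, family TP
-/

set_option autoImplicit false
set_option maxRecDepth 100000

namespace Pool.Agent.TET

theorem TP_s4_9 : SqZ TP_M TP_L [0, 7, 2, 5] (-2560) (-5120) 2560 4 9 :=
  SqZ.mk (a := 7680) (b := 10240) (c := 17920) (d := 20480) (by norm_num) (by norm_num) (by norm_num) (by norm_num)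
    (CovZ.topM TP_LL 2 (by decide +kernel) (CovZ.n2 (8960, 19200) (by decide +kernel)
    (CovZ.n2 (10240, 19200) (by decide +kernel)
     (CovZ.n2 (9600, 18560) (by decide +kernel)
      (CovZ.n2 (9600, 19200) (by decide +kernel)
       (CovZ.leaf K2_ok TP_l5031 _)
       (CovZ.n1 (9280, 18880) (by decide +kernel)
        (CovZ.leaf K2_ok TP_l5032 _)
        (CovZ.leaf K2_ok TP_l5033 _)))
      (CovZ.n1 (10240, 18560) (by decide +kernel)
       (CovZ.leaf K2_ok TP_l5034 _)
       (CovZ.leaf K2_ok TP_l5035 _)))
     (CovZ.n1 (9600, 19840) (by decide +kernel)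
      (CovZ.n2 (10240, 19840) (by decide +kernel)
       (CovZ.leaf K2_ok TP_l5036 _)
       (CovZ.leaf K2_ok TP_l5037 _))
      (CovZ.n1 (9600, 19200) (by decide +kernel)
       (CovZ.n2 (9280, 19520) (by decide +kernel)
        (CovZ.leaf K2_ok TP_l5038 _)
        (CovZ.leaf K2_ok TP_l5039 _))
       (CovZ.leaf K2_ok TP_l5040 _))))
    (CovZ.n1 (8960, 17920) (by decide +kernel)
     (CovZ.n2 (8320, 18560) (by decide +kernel)
      (CovZ.n2 (8960, 18560) (by decide +kernel)
       (CovZ.n2 (8640, 18240) (by decide +kernel)
        (CovZ.n2 (8640, 18560) (by decide +kernel)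
         (CovZ.leaf K2_ok TP_l5041 _)
         (CovZ.n1 (8480, 18400) (by decide +kernel)
          (CovZ.leaf K2_ok TP_l7849 _)
          (CovZ.leaf K2_ok TP_l7850 _)))
        (CovZ.n1 (8960, 18240) (by decide +kernel)
         (CovZ.leaf K2_ok TP_l5042 _)
         (CovZ.leaf K2_ok TP_l5043 _)))
       (CovZ.n1 (8640, 18880) (by decide +kernel)
        (CovZ.n2 (8960, 18880) (by decide +kernel)
         (CovZ.leaf K2_ok TP_l5044 _)
         (CovZ.leaf K2_ok TP_l5045 _))
        (CovZ.n1 (8640, 18560) (by decide +kernel)
         (CovZ.n2 (8480, 18720) (by decide +kernel)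
          (CovZ.leaf K2_ok TP_l7851 _)
          (CovZ.leaf K2_ok TP_l7852 _))
         (CovZ.leaf K2_ok TP_l5046 _))))
      (CovZ.n1 (8320, 17920) (by decide +kernel)
       (CovZ.badM (by decide +kernel))
       (CovZ.n1 (8640, 18240) (by decide +kernel)
        (CovZ.n2 (8640, 17920) (by decide +kernel)
         (CovZ.n2 (8480, 18080) (by decide +kernel)
          (CovZ.leaf K2_ok TP_l7853 _)
          (CovZ.leaf K2_ok TP_l7854 _))
         (CovZ.leaf K2_ok TP_l5047 _))
        (CovZ.n1 (8320, 18240) (by decide +kernel)
         (CovZ.n2 (8480, 18400) (by decide +kernel)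
          (CovZ.leaf K2_ok TP_l7855 _)
          (CovZ.n1 (8320, 18400) (by decide +kernel)
           (CovZ.leaf K2_ok TP_l7856 _)
           (CovZ.leaf K2_ok TP_l7857 _)))
         (CovZ.n1 (8480, 18080) (by decide +kernel)
          (CovZ.leaf K2_ok TP_l7858 _)
          (CovZ.leaf K2_ok TP_l7859 _))))))
     (CovZ.n1 (9600, 18560) (by decide +kernel)
      (CovZ.n2 (9600, 17920) (by decide +kernel)
       (CovZ.n2 (9280, 18240) (by decide +kernel)
        (CovZ.leaf K2_ok TP_l5048 _)
        (CovZ.leaf K2_ok TP_l5049 _))
       (CovZ.leaf K2_ok TP_l5050 _))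
      (CovZ.n1 (8960, 18560) (by decide +kernel)
       (CovZ.n2 (9280, 18880) (by decide +kernel)
        (CovZ.leaf K2_ok TP_l5051 _)
        (CovZ.leaf K2_ok TP_l5052 _))
       (CovZ.n1 (9280, 18240) (by decide +kernel)
        (CovZ.leaf K2_ok TP_l5053 _)
        (CovZ.leaf K2_ok TP_l5054 _)))))))
    (CovZ.topM TP_LL 2 (by decide +kernel) (CovZ.n0 (8960, 19200) (by decide +kernel)
    (CovZ.n2 (7680, 19200) (by decide +kernel)
     (CovZ.n2 (8320, 19840) (by decide +kernel)
      (CovZ.n2 (8320, 19200) (by decide +kernel)
       (CovZ.badM (by decide +kernel))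
       (CovZ.n1 (8640, 19520) (by decide +kernel)
        (CovZ.n2 (8640, 19200) (by decide +kernel)
         (CovZ.n2 (8480, 19360) (by decide +kernel)
          (CovZ.leaf K2_ok TP_l7860 _)
          (CovZ.leaf K2_ok TP_l7861 _))
         (CovZ.leaf K2_ok TP_l5055 _))
        (CovZ.n1 (8320, 19520) (by decide +kernel)
         (CovZ.leaf K2_ok TP_l7862 _)
         (CovZ.n1 (8480, 19360) (by decide +kernel)
          (CovZ.leaf K2_ok TP_l7863 _)
          (CovZ.leaf K2_ok TP_l7864 _)))))
      (CovZ.badM (by decide +kernel)))
     (CovZ.n1 (8320, 18560) (by decide +kernel)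
      (CovZ.badM (by decide +kernel))
      (CovZ.n1 (8320, 19200) (by decide +kernel)
       (CovZ.n2 (8640, 18880) (by decide +kernel)
        (CovZ.n2 (8320, 18880) (by decide +kernel)
         (CovZ.n2 (8480, 19040) (by decide +kernel)
          (CovZ.leaf K2_ok TP_l7865 _)
          (CovZ.leaf K2_ok TP_l7866 _))
         (CovZ.n1 (8480, 18720) (by decide +kernel)
          (CovZ.leaf K2_ok TP_l7867 _)
          (CovZ.leaf K2_ok TP_l7868 _)))
        (CovZ.n1 (8640, 19200) (by decide +kernel)
         (CovZ.leaf K2_ok TP_l5056 _)
         (CovZ.n1 (8480, 19040) (by decide +kernel)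
          (CovZ.leaf K2_ok TP_l7869 _)
          (CovZ.leaf K2_ok TP_l7870 _))))
       (CovZ.badM (by decide +kernel)))))
    (CovZ.n1 (8960, 20480) (by decide +kernel)
     (CovZ.n2 (9600, 19840) (by decide +kernel)
      (CovZ.n2 (8960, 19840) (by decide +kernel)
       (CovZ.n2 (9280, 20160) (by decide +kernel)
        (CovZ.leaf K2_ok TP_l5057 _)
        (CovZ.n1 (8960, 20160) (by decide +kernel)
         (CovZ.leaf K2_ok TP_l5058 _)
         (CovZ.leaf K2_ok TP_l5059 _)))
       (CovZ.leaf K2_ok TP_l5060 _))
      (CovZ.n1 (9600, 20480) (by decide +kernel)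
       (CovZ.leaf K2_ok TP_l5061 _)
       (CovZ.n1 (9280, 20160) (by decide +kernel)
        (CovZ.n2 (9280, 20480) (by decide +kernel)
         (CovZ.leaf K2_ok TP_l5062 _)
         (CovZ.leaf K2_ok TP_l5063 _))
        (CovZ.leaf K2_ok TP_l5064 _))))
     (CovZ.n1 (8320, 19840) (by decide +kernel)
      (CovZ.n2 (8320, 20480) (by decide +kernel)
       (CovZ.n2 (8640, 20160) (by decide +kernel)
        (CovZ.n2 (8320, 20160) (by decide +kernel)
         (CovZ.n2 (8480, 20320) (by decide +kernel)
          (CovZ.leaf K2_ok TP_l7871 _)
          (CovZ.leaf K2_ok TP_l7872 _))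
         (CovZ.leaf K2_ok TP_l7873 _))
        (CovZ.n1 (8640, 20480) (by decide +kernel)
         (CovZ.n2 (8800, 20320) (by decide +kernel)
          (CovZ.leaf K2_ok TP_l5065 _)
          (CovZ.leaf K2_ok TP_l5066 _))
         (CovZ.n1 (8480, 20320) (by decide +kernel)
          (CovZ.leaf K2_ok TP_l7874 _)
          (CovZ.leaf K2_ok TP_l7875 _))))
       (CovZ.badM (by decide +kernel)))
      (CovZ.n1 (8960, 19840) (by decide +kernel)
       (CovZ.n2 (8640, 19520) (by decide +kernel)
        (CovZ.n2 (8640, 19840) (by decide +kernel)
         (CovZ.leaf K2_ok TP_l5067 _)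
         (CovZ.leaf K2_ok TP_l7876 _))
        (CovZ.leaf K2_ok TP_l5068 _))
       (CovZ.n1 (8640, 20160) (by decide +kernel)
        (CovZ.n2 (8960, 20160) (by decide +kernel)
         (CovZ.leaf K2_ok TP_l5069 _)
         (CovZ.n1 (8800, 20320) (by decide +kernel)
          (CovZ.leaf K2_ok TP_l5070 _)
          (CovZ.leaf K2_ok TP_l5071 _)))
        (CovZ.n1 (8640, 19840) (by decide +kernel)
         (CovZ.leaf K2_ok TP_l7877 _)
         (CovZ.leaf K2_ok TP_l5072 _))))))))

theorem TP_s5_9 : SqZ TP_M TP_L [0, 7, 2, 5] (-2560) (-5120) 2560 5 9 :=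
  SqZ.mk (a := 10240) (b := 12800) (c := 17920) (d := 20480) (by norm_num) (by norm_num) (by norm_num) (by norm_num)
    (CovZ.topM TP_LL 324518553658426726783190380314626 (by decide +kernel) (CovZ.n2 (11520, 19200) (by decide +kernel)
    (CovZ.n2 (12800, 19200) (by decide +kernel)
     (CovZ.leaf K2_ok TP_l5162 _)
     (CovZ.n1 (12160, 19840) (by decide +kernel)
      (CovZ.leaf K2_ok TP_l5163 _)
      (CovZ.leaf K2_ok TP_l5164 _)))
    (CovZ.n1 (11520, 17920) (by decide +kernel)
     (CovZ.n2 (10880, 18560) (by decide +kernel)
      (CovZ.leaf K2_ok TP_l5165 _)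
      (CovZ.leaf K2_ok TP_l5166 _))
     (CovZ.leaf K2_ok TP_l5167 _))))
    (CovZ.topM TP_LL 324518553658426726783190380314626 (by decide +kernel) (CovZ.n0 (11520, 19200) (by decide +kernel)
    (CovZ.n2 (10240, 19200) (by decide +kernel)
     (CovZ.n2 (10880, 19840) (by decide +kernel)
      (CovZ.leaf K2_ok TP_l5168 _)
      (CovZ.n1 (10240, 19840) (by decide +kernel)
       (CovZ.leaf K2_ok TP_l5169 _)
       (CovZ.leaf K2_ok TP_l5170 _)))
     (CovZ.n1 (10880, 18560) (by decide +kernel)
      (CovZ.leaf K2_ok TP_l5171 _)
      (CovZ.leaf K2_ok TP_l5172 _)))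
    (CovZ.n1 (11520, 20480) (by decide +kernel)
     (CovZ.n2 (12160, 19840) (by decide +kernel)
      (CovZ.leaf K2_ok TP_l5173 _)
      (CovZ.leaf K2_ok TP_l5174 _))
     (CovZ.n1 (10880, 19840) (by decide +kernel)
      (CovZ.n2 (10880, 20480) (by decide +kernel)
       (CovZ.leaf K2_ok TP_l5175 _)
       (CovZ.leaf K2_ok TP_l5176 _))
      (CovZ.n1 (11520, 19840) (by decide +kernel)
       (CovZ.leaf K2_ok TP_l5177 _)
       (CovZ.leaf K2_ok TP_l5178 _))))))

theorem TP_s6_9 : SqZ TP_M TP_L [0, 7, 2, 5] (-2560) (-5120) 2560 6 9 :=
  SqZ.mk (a := 12800) (b := 15360) (c := 17920) (d := 20480) (by norm_num) (by norm_num) (by norm_num) (by norm_num)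
    (CovZ.topM TP_LL 1393796575313812138419015800519501979582466 (by decide +kernel) (CovZ.n2 (14080, 19200) (by decide +kernel)
    (CovZ.leaf K2_ok TP_l5221 _)
    (CovZ.leaf K2_ok TP_l5222 _)))
    (CovZ.topM TP_LL 1393796575313812138419015800519501979582466 (by decide +kernel) (CovZ.n0 (14080, 19200) (by decide +kernel)
    (CovZ.n2 (12800, 19200) (by decide +kernel)
     (CovZ.leaf K2_ok TP_l5223 _)
     (CovZ.leaf K2_ok TP_l5224 _))
    (CovZ.n1 (14080, 20480) (by decide +kernel)
     (CovZ.leaf K2_ok TP_l5225 _)
     (CovZ.leaf K2_ok TP_l5226 _))))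

theorem TP_s0_10 : SqZ TP_M TP_L [0, 7, 2, 5] (-2560) (-5120) 2560 0 10 :=
  SqZ.mk (a := (-2560)) (b := 0) (c := 20480) (d := 23040) (by norm_num) (by norm_num) (by norm_num) (by norm_num)
    (CovZ.topM TP_LL 523611485951685293796135186353181002336844 (by decide +kernel) (CovZ.n2 (-1280, 21760) (by decide +kernel)
    (CovZ.n2 (0, 21760) (by decide +kernel)
     (CovZ.n2 (-640, 21120) (by decide +kernel)
      (CovZ.n2 (-640, 21760) (by decide +kernel)
       (CovZ.leaf K2_ok TP_l362 _)
       (CovZ.leaf K2_ok TP_l363 _))
      (CovZ.n1 (0, 21120) (by decide +kernel)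
       (CovZ.leaf K2_ok TP_l364 _)
       (CovZ.leaf K2_ok TP_l365 _)))
     (CovZ.n1 (-640, 22400) (by decide +kernel)
      (CovZ.n2 (0, 22400) (by decide +kernel)
       (CovZ.leaf K2_ok TP_l366 _)
       (CovZ.leaf K2_ok TP_l367 _))
      (CovZ.n1 (-640, 21760) (by decide +kernel)
       (CovZ.leaf K2_ok TP_l368 _)
       (CovZ.leaf K2_ok TP_l369 _))))
    (CovZ.n1 (-1280, 20480) (by decide +kernel)
     TP_u72
     (CovZ.n1 (-640, 21120) (by decide +kernel)
      (CovZ.n2 (-640, 20480) (by decide +kernel)
       (CovZ.n2 (-960, 20800) (by decide +kernel)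
        (CovZ.leaf K2_ok TP_l432 _)
        (CovZ.leaf K2_ok TP_l433 _))
       (CovZ.leaf K2_ok TP_l434 _))
      (CovZ.n1 (-1280, 21120) (by decide +kernel)
       (CovZ.leaf K2_ok TP_l435 _)
       (CovZ.n1 (-960, 20800) (by decide +kernel)
        (CovZ.leaf K2_ok TP_l436 _)
        (CovZ.leaf K2_ok TP_l437 _)))))))
    (CovZ.topM TP_LL 523611485951685293796135186353181002336844 (by decide +kernel) (CovZ.n0 (-1280, 21760) (by decide +kernel)
    (CovZ.subM 1993851214011991663949274446267679308 (by decide +kernel)
     (CovZ.n2 (-2560, 21760) (by decide +kernel)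
      (CovZ.n2 (-1920, 22400) (by decide +kernel)
       TP_u73
       TP_u74)
      (CovZ.n1 (-1920, 21120) (by decide +kernel)
       (CovZ.subM 1993843578397784451192364255093456964 (by decide +kernel)
        (CovZ.n2 (-2560, 21120) (by decide +kernel)
         TP_u75
         TP_u76))
       (CovZ.n1 (-1920, 21760) (by decide +kernel)
        (CovZ.n2 (-1600, 21440) (by decide +kernel)
         (CovZ.n2 (-1920, 21440) (by decide +kernel)
          (CovZ.leaf K2_ok TP_l501 _)
          (CovZ.n1 (-1760, 21280) (by decide +kernel)
           (CovZ.leaf K2_ok TP_l502 _)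
           (CovZ.leaf K2_ok TP_l503 _)))
         (CovZ.n1 (-1600, 21760) (by decide +kernel)
          (CovZ.leaf K2_ok TP_l504 _)
          (CovZ.leaf K2_ok TP_l505 _)))
        (CovZ.subM 1993843578397784451192364255093456964 (by decide +kernel)
         (CovZ.n1 (-2240, 21440) (by decide +kernel)
          (CovZ.n2 (-2240, 21760) (by decide +kernel)
           (CovZ.n2 (-2080, 21600) (by decide +kernel)
            (CovZ.n2 (-2240, 21600) (by decide +kernel)
             (CovZ.leaf K2_ok TP_l506 _)
             (CovZ.leaf K2_ok TP_l507 _))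
            (CovZ.n1 (-2080, 21760) (by decide +kernel)
             (CovZ.leaf K2_ok TP_l508 _)
             (CovZ.leaf K2_ok TP_l509 _)))
           (CovZ.subM 1329229263435516101133208558065680448 (by decide +kernel)
            (CovZ.n1 (-2400, 21600) (by decide +kernel)
             (CovZ.n2 (-2400, 21760) (by decide +kernel)
              (CovZ.n2 (-2320, 21680) (by decide +kernel)
               (CovZ.n2 (-2400, 21680) (by decide +kernel)
                (CovZ.leaf K2_ok TP_l6269 _)
                (CovZ.leaf K2_ok TP_l6270 _))
               (CovZ.leaf K2_ok TP_l6271 _))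
              (CovZ.n1 (-2480, 21680) (by decide +kernel)
               (CovZ.n2 (-2480, 21760) (by decide +kernel)
                (CovZ.leaf K2_ok TP_l6272 _)
                (CovZ.badM (by decide +kernel)))
               (CovZ.n1 (-2400, 21680) (by decide +kernel)
                (CovZ.n2 (-2440, 21640) (by decide +kernel)
                 (CovZ.leaf K2_ok TP_l6273 _)
                 (CovZ.leaf K2_ok TP_l6274 _))
                (CovZ.n1 (-2440, 21720) (by decide +kernel)
                 (CovZ.leaf K2_ok TP_l6275 _)
                 (CovZ.leaf K2_ok TP_l6276 _)))))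
             (CovZ.n1 (-2240, 21600) (by decide +kernel)
              (CovZ.n2 (-2320, 21520) (by decide +kernel)
               (CovZ.n2 (-2320, 21600) (by decide +kernel)
                (CovZ.leaf K2_ok TP_l6277 _)
                (CovZ.leaf K2_ok TP_l6278 _))
               (CovZ.n1 (-2240, 21520) (by decide +kernel)
                (CovZ.leaf K2_ok TP_l6279 _)
                (CovZ.leaf K2_ok TP_l6280 _)))
              (CovZ.n1 (-2320, 21680) (by decide +kernel)
               (CovZ.leaf K2_ok TP_l6281 _)
               (CovZ.n1 (-2320, 21600) (by decide +kernel)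
                (CovZ.leaf K2_ok TP_l6282 _)
                (CovZ.leaf K2_ok TP_l6283 _)))))))
          (CovZ.n1 (-1920, 21440) (by decide +kernel)
           (CovZ.n2 (-2080, 21280) (by decide +kernel)
            (CovZ.n2 (-2080, 21440) (by decide +kernel)
             (CovZ.leaf K2_ok TP_l510 _)
             (CovZ.n1 (-2160, 21360) (by decide +kernel)
              (CovZ.leaf K2_ok TP_l511 _)
              (CovZ.leaf K2_ok TP_l512 _)))
            (CovZ.n1 (-1920, 21280) (by decide +kernel)
             (CovZ.leaf K2_ok TP_l513 _)
             (CovZ.leaf K2_ok TP_l514 _)))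
           (CovZ.n1 (-2080, 21600) (by decide +kernel)
            (CovZ.leaf K2_ok TP_l515 _)
            (CovZ.n1 (-2080, 21440) (by decide +kernel)
             (CovZ.leaf K2_ok TP_l516 _)
             (CovZ.leaf K2_ok TP_l517 _))))))))))
    (CovZ.n1 (-1280, 23040) (by decide +kernel)
     (CovZ.n2 (-640, 22400) (by decide +kernel)
      (CovZ.n2 (-1280, 22400) (by decide +kernel)
       (CovZ.subM 348619284919008642771982871619587841229320 (by decide +kernel)
        (CovZ.n2 (-960, 22720) (by decide +kernel)
         (CovZ.leaf K2_ok TP_l518 _)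
         (CovZ.n1 (-1280, 22720) (by decide +kernel)
          (CovZ.n2 (-1120, 22880) (by decide +kernel)
           (CovZ.leaf K2_ok TP_l519 _)
           (CovZ.leaf K2_ok TP_l520 _))
          (CovZ.leaf K2_ok TP_l521 _))))
       (CovZ.leaf K2_ok TP_l522 _))
      (CovZ.n1 (-640, 23040) (by decide +kernel)
       (CovZ.leaf K2_ok TP_l523 _)
       (CovZ.subM 348619284919008642771982871619587841229320 (by decide +kernel)
        (CovZ.n1 (-960, 22720) (by decide +kernel)
         (CovZ.n2 (-960, 23040) (by decide +kernel)
          (CovZ.leaf K2_ok TP_l524 _)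
          (CovZ.n1 (-1120, 22880) (by decide +kernel)
           (CovZ.leaf K2_ok TP_l525 _)
           (CovZ.leaf K2_ok TP_l526 _)))
         (CovZ.leaf K2_ok TP_l527 _)))))
     (CovZ.subM 1993851214011991663949274446267679308 (by decide +kernel)
      (CovZ.n1 (-1920, 22400) (by decide +kernel)
       TP_u77
       TP_u78)))))

theorem TP_s1_10 : SqZ TP_M TP_L [0, 7, 2, 5] (-2560) (-5120) 2560 1 10 :=
  SqZ.mk (a := 0) (b := 2560) (c := 20480) (d := 23040) (by norm_num) (by norm_num) (by norm_num) (by norm_num)
    (CovZ.topM TP_LL 523611485992250113003438527201075504908876 (by decide +kernel) (CovZ.n2 (1280, 21760) (by decide +kernel)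
    (CovZ.subM 349301843495557364079926245542402484863564 (by decide +kernel)
     (CovZ.n2 (2560, 21760) (by decide +kernel)
      TP_u79
      TP_u80))
    (CovZ.n1 (1280, 20480) (by decide +kernel)
     (CovZ.n2 (640, 21120) (by decide +kernel)
      (CovZ.n2 (1280, 21120) (by decide +kernel)
       (CovZ.leaf K2_ok TP_l2228 _)
       (CovZ.leaf K2_ok TP_l2229 _))
      (CovZ.leaf K2_ok TP_l2230 _))
     (CovZ.subM 349301843495557364079926245542402484863564 (by decide +kernel)
      (CovZ.n1 (1920, 21120) (by decide +kernel)
       (CovZ.n2 (1920, 20480) (by decide +kernel)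
        (CovZ.n2 (1600, 20800) (by decide +kernel)
         (CovZ.n2 (1920, 20800) (by decide +kernel)
          (CovZ.n2 (1760, 20640) (by decide +kernel)
           (CovZ.leaf K2_ok TP_l2231 _)
           (CovZ.n1 (1920, 20640) (by decide +kernel)
            (CovZ.leaf K2_ok TP_l2232 _)
            (CovZ.leaf K2_ok TP_l2233 _)))
          (CovZ.leaf K2_ok TP_l2234 _))
         (CovZ.n1 (1600, 20480) (by decide +kernel)
          (CovZ.leaf K2_ok TP_l2235 _)
          (CovZ.n1 (1760, 20640) (by decide +kernel)
           (CovZ.n2 (1760, 20480) (by decide +kernel)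
            (CovZ.leaf K2_ok TP_l2236 _)
            (CovZ.leaf K2_ok TP_l2237 _))
           (CovZ.leaf K2_ok TP_l2238 _))))
        (CovZ.subM 348449808341039053129750074420261954781252 (by decide +kernel)
         (CovZ.n1 (2240, 20800) (by decide +kernel)
          (CovZ.subM 348449808341038879044432049913660788703236 (by decide +kernel)
           (CovZ.n2 (2240, 20480) (by decide +kernel)
            (CovZ.n2 (2080, 20640) (by decide +kernel)
             (CovZ.badM (by decide +kernel))
             (CovZ.n1 (2080, 20480) (by decide +kernel)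
              (CovZ.n2 (2000, 20560) (by decide +kernel)
               (CovZ.n2 (2080, 20560) (by decide +kernel)
                (CovZ.badM (by decide +kernel))
                (CovZ.n1 (2040, 20600) (by decide +kernel)
                 (CovZ.badM (by decide +kernel))
                 (CovZ.badM (by decide +kernel))))
               (CovZ.badM (by decide +kernel)))
              (CovZ.badM (by decide +kernel))))
            (CovZ.badM (by decide +kernel))))
          (CovZ.n1 (1920, 20800) (by decide +kernel)
           (CovZ.n2 (2080, 20960) (by decide +kernel)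
            (CovZ.n2 (2080, 20800) (by decide +kernel)
             (CovZ.n2 (2000, 20880) (by decide +kernel)
              (CovZ.n2 (2080, 20880) (by decide +kernel)
               (CovZ.leaf K2_ok TP_l2239 _)
               (CovZ.leaf K2_ok TP_l2240 _))
              (CovZ.leaf K2_ok TP_l2241 _))
             (CovZ.subM 174085318024506601157689344 (by decide +kernel)
              (CovZ.n1 (2160, 20880) (by decide +kernel)
               (CovZ.n2 (2160, 20800) (by decide +kernel)
                (CovZ.n2 (2120, 20840) (by decide +kernel)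
                 (CovZ.n2 (2160, 20840) (by decide +kernel)
                  (CovZ.badM (by decide +kernel))
                  (CovZ.n1 (2140, 20860) (by decide +kernel)
                   (CovZ.n2 (2160, 20860) (by decide +kernel)
                    (CovZ.n2 (2150, 20850) (by decide +kernel)
                     (CovZ.leaf K2_ok TP_l7505 _)
                     (CovZ.badM (by decide +kernel)))
                    (CovZ.leaf K2_ok TP_l7506 _))
                   (CovZ.n1 (2140, 20840) (by decide +kernel)
                    (CovZ.leaf K2_ok TP_l7507 _)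
                    (CovZ.n1 (2150, 20850) (by decide +kernel)
                     (CovZ.leaf K2_ok TP_l7508 _)
                     (CovZ.leaf K2_ok TP_l7509 _)))))
                 (CovZ.badM (by decide +kernel)))
                (CovZ.badM (by decide +kernel)))
               (CovZ.n1 (2080, 20880) (by decide +kernel)
                (CovZ.n2 (2120, 20920) (by decide +kernel)
                 (CovZ.n2 (2120, 20880) (by decide +kernel)
                  (CovZ.leaf K2_ok TP_l7510 _)
                  (CovZ.n1 (2140, 20900) (by decide +kernel)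
                   (CovZ.leaf K2_ok TP_l7511 _)
                   (CovZ.leaf K2_ok TP_l7512 _)))
                 (CovZ.leaf K2_ok TP_l7513 _))
                (CovZ.n1 (2120, 20840) (by decide +kernel)
                 (CovZ.n2 (2080, 20840) (by decide +kernel)
                  (CovZ.leaf K2_ok TP_l7514 _)
                  (CovZ.badM (by decide +kernel)))
                 (CovZ.n1 (2120, 20880) (by decide +kernel)
                  (CovZ.n2 (2140, 20860) (by decide +kernel)
                   (CovZ.leaf K2_ok TP_l7515 _)
                   (CovZ.n1 (2140, 20880) (by decide +kernel)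
                    (CovZ.leaf K2_ok TP_l7516 _)
                    (CovZ.leaf K2_ok TP_l7517 _)))
                  (CovZ.leaf K2_ok TP_l7518 _)))))))
            (CovZ.n1 (1920, 20960) (by decide +kernel)
             (CovZ.leaf K2_ok TP_l2242 _)
             (CovZ.n1 (2000, 20880) (by decide +kernel)
              (CovZ.leaf K2_ok TP_l2243 _)
              (CovZ.leaf K2_ok TP_l2244 _))))
           (CovZ.subM 348449808341038879044432049913660788703236 (by decide +kernel)
            (CovZ.n1 (2080, 20640) (by decide +kernel)
             (CovZ.n2 (1920, 20640) (by decide +kernel)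
              (CovZ.n2 (2000, 20720) (by decide +kernel)
               (CovZ.n2 (2000, 20640) (by decide +kernel)
                (CovZ.leaf K2_ok TP_l2245 _)
                (CovZ.n1 (2040, 20680) (by decide +kernel)
                 (CovZ.n2 (2040, 20640) (by decide +kernel)
                  (CovZ.leaf K2_ok TP_l2246 _)
                  (CovZ.leaf K2_ok TP_l7519 _))
                 (CovZ.leaf K2_ok TP_l2247 _)))
               (CovZ.leaf K2_ok TP_l2248 _))
              (CovZ.n1 (2000, 20560) (by decide +kernel)
               (CovZ.n2 (1920, 20560) (by decide +kernel)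
                (CovZ.leaf K2_ok TP_l2249 _)
                (CovZ.badM (by decide +kernel)))
               (CovZ.n1 (2000, 20640) (by decide +kernel)
                (CovZ.n2 (2040, 20600) (by decide +kernel)
                 (CovZ.leaf K2_ok TP_l2250 _)
                 (CovZ.n1 (2040, 20640) (by decide +kernel)
                  (CovZ.badM (by decide +kernel))
                  (CovZ.leaf K2_ok TP_l2251 _)))
                (CovZ.leaf K2_ok TP_l2252 _))))
             (CovZ.n1 (2080, 20800) (by decide +kernel)
              (CovZ.badM (by decide +kernel))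
              (CovZ.n1 (2000, 20720) (by decide +kernel)
               (CovZ.n2 (2000, 20800) (by decide +kernel)
                (CovZ.leaf K2_ok TP_l2253 _)
                (CovZ.leaf K2_ok TP_l2254 _))
               (CovZ.n1 (2080, 20720) (by decide +kernel)
                (CovZ.n2 (2040, 20680) (by decide +kernel)
                 (CovZ.leaf K2_ok TP_l2255 _)
                 (CovZ.n1 (2080, 20680) (by decide +kernel)
                  (CovZ.leaf K2_ok TP_l7520 _)
                  (CovZ.leaf K2_ok TP_l7521 _)))
                (CovZ.leaf K2_ok TP_l2256 _))))))))))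
       (CovZ.n1 (1280, 21120) (by decide +kernel)
        (CovZ.n2 (1600, 21440) (by decide +kernel)
         (CovZ.leaf K2_ok TP_l2257 _)
         (CovZ.leaf K2_ok TP_l2258 _))
        (CovZ.n1 (1600, 20800) (by decide +kernel)
         (CovZ.leaf K2_ok TP_l2259 _)
         (CovZ.n1 (1600, 21120) (by decide +kernel)
          (CovZ.leaf K2_ok TP_l2260 _)
          (CovZ.leaf K2_ok TP_l2261 _)))))))))
    (CovZ.topM TP_LL 523611485992250113003438527201075504908876 (by decide +kernel) (CovZ.n0 (1280, 21760) (by decide +kernel)
    (CovZ.n2 (0, 21760) (by decide +kernel)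
     (CovZ.leaf K2_ok TP_l2262 _)
     (CovZ.n1 (640, 21120) (by decide +kernel)
      (CovZ.leaf K2_ok TP_l2263 _)
      (CovZ.leaf K2_ok TP_l2264 _)))
    (CovZ.n1 (1280, 23040) (by decide +kernel)
     (CovZ.subM 349301843495557364079926245542402484863564 (by decide +kernel)
      (CovZ.n2 (1920, 22400) (by decide +kernel)
       (CovZ.n2 (1280, 22400) (by decide +kernel)
        (CovZ.leaf K2_ok TP_l2265 _)
        (CovZ.leaf K2_ok TP_l2266 _))
       (CovZ.n1 (1920, 23040) (by decide +kernel)
        (CovZ.n2 (2240, 22720) (by decide +kernel)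
         (CovZ.leaf K2_ok TP_l2267 _)
         (CovZ.n1 (2240, 23040) (by decide +kernel)
          (CovZ.badM (by decide +kernel))
          (CovZ.leaf K2_ok TP_l2270 _)))
        (CovZ.leaf K2_ok TP_l2271 _))))
     (CovZ.leaf K2_ok TP_l2272 _))))

theorem TP_s2_10 : SqZ TP_M TP_L [0, 7, 2, 5] (-2560) (-5120) 2560 2 10 :=
  SqZ.mk (a := 2560) (b := 5120) (c := 20480) (d := 23040) (by norm_num) (by norm_num) (by norm_num) (by norm_num)
    (CovZ.topM TP_LL 0 (by decide +kernel) (CovZ.badM (by decide +kernel)))
    (CovZ.topM TP_LL 0 (by decide +kernel) (CovZ.badM (by decide +kernel)))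

theorem TP_s3_10 : SqZ TP_M TP_L [0, 7, 2, 5] (-2560) (-5120) 2560 3 10 :=
  SqZ.mk (a := 5120) (b := 7680) (c := 20480) (d := 23040) (by norm_num) (by norm_num) (by norm_num) (by norm_num)
    (CovZ.topM TP_LL 0 (by decide +kernel) (CovZ.badM (by decide +kernel)))
    (CovZ.topM TP_LL 0 (by decide +kernel) (CovZ.badM (by decide +kernel)))

theorem TP_s4_10 : SqZ TP_M TP_L [0, 7, 2, 5] (-2560) (-5120) 2560 4 10 :=
  SqZ.mk (a := 7680) (b := 10240) (c := 20480) (d := 23040) (by norm_num) (by norm_num) (by norm_num) (by norm_num)
    (CovZ.topM TP_LL 2 (by decide +kernel) (CovZ.n2 (8960, 21760) (by decide +kernel)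
    (CovZ.n2 (10240, 21760) (by decide +kernel)
     (CovZ.n2 (9600, 21120) (by decide +kernel)
      (CovZ.badM (by decide +kernel))
      (CovZ.n1 (10240, 21120) (by decide +kernel)
       (CovZ.n2 (9920, 20800) (by decide +kernel)
        (CovZ.badM (by decide +kernel))
        (CovZ.n1 (10240, 20800) (by decide +kernel)
         (CovZ.leaf K2_ok TP_l5073 _)
         (CovZ.badM (by decide +kernel))))
       (CovZ.badM (by decide +kernel))))
     (CovZ.badM (by decide +kernel)))
    (CovZ.n1 (8960, 20480) (by decide +kernel)
     (CovZ.n2 (8320, 21120) (by decide +kernel)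
      (CovZ.n2 (8960, 21120) (by decide +kernel)
       (CovZ.n2 (8640, 20800) (by decide +kernel)
        (CovZ.badM (by decide +kernel))
        (CovZ.n1 (8960, 20800) (by decide +kernel)
         (CovZ.n2 (8800, 20640) (by decide +kernel)
          (CovZ.badM (by decide +kernel))
          (CovZ.n1 (8960, 20640) (by decide +kernel)
           (CovZ.leaf K2_ok TP_l5077 _)
           (CovZ.badM (by decide +kernel))))
         (CovZ.badM (by decide +kernel))))
       (CovZ.badM (by decide +kernel)))
      (CovZ.n1 (8320, 20480) (by decide +kernel)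
       (CovZ.badM (by decide +kernel))
       (CovZ.n1 (8640, 20800) (by decide +kernel)
        (CovZ.n2 (8640, 20480) (by decide +kernel)
         (CovZ.n2 (8480, 20640) (by decide +kernel)
          (CovZ.n2 (8640, 20640) (by decide +kernel)
           (CovZ.leaf K2_ok TP_l7878 _)
           (CovZ.badM (by decide +kernel)))
          (CovZ.n1 (8480, 20480) (by decide +kernel)
           (CovZ.n2 (8400, 20560) (by decide +kernel)
            (CovZ.leaf K2_ok TP_l7879 _)
            (CovZ.leaf K2_ok TP_l7880 _))
           (CovZ.leaf K2_ok TP_l7881 _)))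
         (CovZ.n1 (8800, 20640) (by decide +kernel)
          (CovZ.n2 (8800, 20480) (by decide +kernel)
           (CovZ.leaf K2_ok TP_l5079 _)
           (CovZ.leaf K2_ok TP_l5080 _))
          (CovZ.n1 (8640, 20640) (by decide +kernel)
           (CovZ.badM (by decide +kernel))
           (CovZ.leaf K2_ok TP_l5083 _))))
        (CovZ.n1 (8320, 20800) (by decide +kernel)
         (CovZ.badM (by decide +kernel))
         (CovZ.n1 (8480, 20640) (by decide +kernel)
          (CovZ.n2 (8320, 20640) (by decide +kernel)
           (CovZ.badM (by decide +kernel))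
           (CovZ.n1 (8400, 20560) (by decide +kernel)
            (CovZ.leaf K2_ok TP_l7882 _)
            (CovZ.leaf K2_ok TP_l7883 _)))
          (CovZ.badM (by decide +kernel)))))))
     (CovZ.n1 (9600, 21120) (by decide +kernel)
      (CovZ.n2 (9600, 20480) (by decide +kernel)
       (CovZ.n2 (9280, 20800) (by decide +kernel)
        (CovZ.n2 (9600, 20800) (by decide +kernel)
         (CovZ.n2 (9440, 20640) (by decide +kernel)
          (CovZ.badM (by decide +kernel))
          (CovZ.leaf K2_ok TP_l5085 _))
         (CovZ.badM (by decide +kernel)))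
        (CovZ.n1 (9280, 20480) (by decide +kernel)
         (CovZ.n2 (9120, 20640) (by decide +kernel)
          (CovZ.leaf K2_ok TP_l5086 _)
          (CovZ.leaf K2_ok TP_l5087 _))
         (CovZ.n1 (9440, 20640) (by decide +kernel)
          (CovZ.leaf K2_ok TP_l5088 _)
          (CovZ.leaf K2_ok TP_l5089 _))))
       (CovZ.n1 (9920, 20800) (by decide +kernel)
        (CovZ.n2 (9920, 20480) (by decide +kernel)
         (CovZ.n2 (9760, 20640) (by decide +kernel)
          (CovZ.leaf K2_ok TP_l5090 _)
          (CovZ.leaf K2_ok TP_l5091 _))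
         (CovZ.leaf K2_ok TP_l5092 _))
        (CovZ.n1 (9600, 20800) (by decide +kernel)
         (CovZ.badM (by decide +kernel))
         (CovZ.n1 (9760, 20640) (by decide +kernel)
          (CovZ.leaf K2_ok TP_l5093 _)
          (CovZ.badM (by decide +kernel))))))
      (CovZ.n1 (8960, 21120) (by decide +kernel)
       (CovZ.badM (by decide +kernel))
       (CovZ.n1 (9280, 20800) (by decide +kernel)
        (CovZ.n2 (8960, 20800) (by decide +kernel)
         (CovZ.badM (by decide +kernel))
         (CovZ.n1 (9120, 20640) (by decide +kernel)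
          (CovZ.leaf K2_ok TP_l5095 _)
          (CovZ.badM (by decide +kernel))))
        (CovZ.badM (by decide +kernel))))))))
    (CovZ.topM TP_LL 2 (by decide +kernel) (CovZ.n0 (8960, 21760) (by decide +kernel)
    (CovZ.n2 (7680, 21760) (by decide +kernel)
     (CovZ.badM (by decide +kernel))
     (CovZ.n1 (8320, 21120) (by decide +kernel)
      (CovZ.badM (by decide +kernel))
      (CovZ.badM (by decide +kernel))))
    (CovZ.badM (by decide +kernel))))

theorem TP_s5_10 : SqZ TP_M TP_L [0, 7, 2, 5] (-2560) (-5120) 2560 5 10 :=
  SqZ.mk (a := 10240) (b := 12800) (c := 20480) (d := 23040) (by norm_num) (by norm_num) (by norm_num) (by norm_num)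
    (CovZ.topM TP_LL 324518553658426726783190380314626 (by decide +kernel) (CovZ.n2 (11520, 21760) (by decide +kernel)
    (CovZ.n2 (12800, 21760) (by decide +kernel)
     (CovZ.n2 (12160, 21120) (by decide +kernel)
      (CovZ.n2 (12160, 21760) (by decide +kernel)
       (CovZ.n2 (12480, 21440) (by decide +kernel)
        (CovZ.n2 (12160, 21440) (by decide +kernel)
         (CovZ.n2 (12320, 21600) (by decide +kernel)
          (CovZ.n2 (12320, 21440) (by decide +kernel)
           (CovZ.badM (by decide +kernel))
           (CovZ.leaf K2_ok TP_l7939 _))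
          (CovZ.badM (by decide +kernel)))
         (CovZ.leaf K2_ok TP_l7940 _))
        (CovZ.n1 (12480, 21760) (by decide +kernel)
         (CovZ.n2 (12640, 21600) (by decide +kernel)
          (CovZ.leaf K2_ok TP_l7941 _)
          (CovZ.n1 (12640, 21760) (by decide +kernel)
           (CovZ.leaf K2_ok TP_l7942 _)
           (CovZ.leaf K2_ok TP_l7943 _)))
         (CovZ.n1 (12320, 21600) (by decide +kernel)
          (CovZ.n2 (12320, 21760) (by decide +kernel)
           (CovZ.n2 (12400, 21680) (by decide +kernel)
            (CovZ.leaf K2_ok TP_l7944 _)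
            (CovZ.leaf K2_ok TP_l7945 _))
           (CovZ.badM (by decide +kernel)))
          (CovZ.n1 (12480, 21600) (by decide +kernel)
           (CovZ.leaf K2_ok TP_l7946 _)
           (CovZ.n1 (12400, 21680) (by decide +kernel)
            (CovZ.leaf K2_ok TP_l7947 _)
            (CovZ.leaf K2_ok TP_l7948 _))))))
       (CovZ.n1 (11840, 21440) (by decide +kernel)
        (CovZ.badM (by decide +kernel))
        (CovZ.n1 (12160, 21440) (by decide +kernel)
         (CovZ.n2 (12000, 21280) (by decide +kernel)
          (CovZ.badM (by decide +kernel))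
          (CovZ.leaf K2_ok TP_l7949 _))
         (CovZ.badM (by decide +kernel)))))
      (CovZ.n1 (12800, 21120) (by decide +kernel)
       (CovZ.leaf K2_ok TP_l5179 _)
       (CovZ.n1 (12480, 21440) (by decide +kernel)
        (CovZ.n2 (12800, 21440) (by decide +kernel)
         (CovZ.leaf K2_ok TP_l7950 _)
         (CovZ.n1 (12640, 21600) (by decide +kernel)
          (CovZ.leaf K2_ok TP_l7951 _)
          (CovZ.leaf K2_ok TP_l7952 _)))
        (CovZ.n1 (12480, 21120) (by decide +kernel)
         (CovZ.leaf K2_ok TP_l7953 _)
         (CovZ.leaf K2_ok TP_l7954 _)))))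
     (CovZ.badM (by decide +kernel)))
    (CovZ.n1 (11520, 20480) (by decide +kernel)
     (CovZ.n2 (10880, 21120) (by decide +kernel)
      (CovZ.n2 (11520, 21120) (by decide +kernel)
       (CovZ.n2 (11200, 20800) (by decide +kernel)
        (CovZ.n2 (11200, 21120) (by decide +kernel)
         (CovZ.n2 (11360, 20960) (by decide +kernel)
          (CovZ.leaf K2_ok TP_l7955 _)
          (CovZ.leaf K2_ok TP_l7956 _))
         (CovZ.badM (by decide +kernel)))
        (CovZ.n1 (11520, 20800) (by decide +kernel)
         (CovZ.leaf K2_ok TP_l5180 _)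
         (CovZ.n1 (11360, 20960) (by decide +kernel)
          (CovZ.leaf K2_ok TP_l7957 _)
          (CovZ.leaf K2_ok TP_l7958 _))))
       (CovZ.n1 (11200, 21440) (by decide +kernel)
        (CovZ.n2 (11520, 21440) (by decide +kernel)
         (CovZ.n2 (11360, 21280) (by decide +kernel)
          (CovZ.badM (by decide +kernel))
          (CovZ.n1 (11520, 21280) (by decide +kernel)
           (CovZ.leaf K2_ok TP_l7959 _)
           (CovZ.badM (by decide +kernel))))
         (CovZ.badM (by decide +kernel)))
        (CovZ.n1 (11200, 21120) (by decide +kernel)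
         (CovZ.badM (by decide +kernel))
         (CovZ.n1 (11360, 21280) (by decide +kernel)
          (CovZ.n2 (11360, 21120) (by decide +kernel)
           (CovZ.n2 (11280, 21200) (by decide +kernel)
            (CovZ.leaf K2_ok TP_l7960 _)
            (CovZ.leaf K2_ok TP_l7961 _))
           (CovZ.leaf K2_ok TP_l7962 _))
          (CovZ.n1 (11200, 21280) (by decide +kernel)
           (CovZ.badM (by decide +kernel))
           (CovZ.n1 (11280, 21200) (by decide +kernel)
            (CovZ.badM (by decide +kernel))
            (CovZ.badM (by decide +kernel))))))))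
      (CovZ.n1 (10880, 20480) (by decide +kernel)
       (CovZ.n2 (10560, 20800) (by decide +kernel)
        (CovZ.n2 (10880, 20800) (by decide +kernel)
         (CovZ.leaf K2_ok TP_l5181 _)
         (CovZ.badM (by decide +kernel)))
        (CovZ.n1 (10560, 20480) (by decide +kernel)
         (CovZ.leaf K2_ok TP_l5182 _)
         (CovZ.leaf K2_ok TP_l5183 _)))
       (CovZ.n1 (11200, 20800) (by decide +kernel)
        (CovZ.leaf K2_ok TP_l5184 _)
        (CovZ.n1 (10880, 20800) (by decide +kernel)
         (CovZ.badM (by decide +kernel))
         (CovZ.leaf K2_ok TP_l5185 _)))))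
     (CovZ.n1 (12160, 21120) (by decide +kernel)
      (CovZ.n2 (12160, 20480) (by decide +kernel)
       (CovZ.n2 (11840, 20800) (by decide +kernel)
        (CovZ.leaf K2_ok TP_l5186 _)
        (CovZ.leaf K2_ok TP_l5187 _))
       (CovZ.leaf K2_ok TP_l5188 _))
      (CovZ.n1 (11520, 21120) (by decide +kernel)
       (CovZ.n2 (11840, 21440) (by decide +kernel)
        (CovZ.n2 (11840, 21120) (by decide +kernel)
         (CovZ.n2 (11680, 21280) (by decide +kernel)
          (CovZ.n2 (11840, 21280) (by decide +kernel)
           (CovZ.leaf K2_ok TP_l7963 _)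
           (CovZ.badM (by decide +kernel)))
          (CovZ.n1 (11680, 21120) (by decide +kernel)
           (CovZ.leaf K2_ok TP_l7964 _)
           (CovZ.leaf K2_ok TP_l7965 _)))
         (CovZ.n1 (12000, 21280) (by decide +kernel)
          (CovZ.leaf K2_ok TP_l7966 _)
          (CovZ.leaf K2_ok TP_l7967 _)))
        (CovZ.n1 (11520, 21440) (by decide +kernel)
         (CovZ.badM (by decide +kernel))
         (CovZ.n1 (11680, 21280) (by decide +kernel)
          (CovZ.n2 (11520, 21280) (by decide +kernel)
           (CovZ.badM (by decide +kernel))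
           (CovZ.leaf K2_ok TP_l7968 _))
          (CovZ.badM (by decide +kernel)))))
       (CovZ.n1 (11840, 20800) (by decide +kernel)
        (CovZ.n2 (11520, 20800) (by decide +kernel)
         (CovZ.leaf K2_ok TP_l7969 _)
         (CovZ.leaf K2_ok TP_l5189 _))
        (CovZ.n1 (11840, 21120) (by decide +kernel)
         (CovZ.leaf K2_ok TP_l7970 _)
         (CovZ.leaf K2_ok TP_l7971 _))))))))
    (CovZ.topM TP_LL 324518553658426726783190380314626 (by decide +kernel) (CovZ.n0 (11520, 21760) (by decide +kernel)
    (CovZ.n2 (10240, 21760) (by decide +kernel)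
     (CovZ.badM (by decide +kernel))
     (CovZ.n1 (10880, 21120) (by decide +kernel)
      (CovZ.n2 (10240, 21120) (by decide +kernel)
       (CovZ.badM (by decide +kernel))
       (CovZ.n1 (10560, 20800) (by decide +kernel)
        (CovZ.n2 (10240, 20800) (by decide +kernel)
         (CovZ.badM (by decide +kernel))
         (CovZ.leaf K2_ok TP_l5190 _))
        (CovZ.badM (by decide +kernel))))
      (CovZ.n1 (10880, 21760) (by decide +kernel)
       (CovZ.n2 (11200, 21440) (by decide +kernel)
        (CovZ.badM (by decide +kernel))
        (CovZ.badM (by decide +kernel)))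
       (CovZ.badM (by decide +kernel)))))
    (CovZ.badM (by decide +kernel))))

theorem TP_s6_10 : SqZ TP_M TP_L [0, 7, 2, 5] (-2560) (-5120) 2560 6 10 :=
  SqZ.mk (a := 12800) (b := 15360) (c := 20480) (d := 23040) (by norm_num) (by norm_num) (by norm_num) (by norm_num)
    (CovZ.topM TP_LL 1393796575313812138419015800519501979582466 (by decide +kernel) (CovZ.n2 (14080, 21760) (by decide +kernel)
    (CovZ.n2 (15360, 21760) (by decide +kernel)
     (CovZ.leaf K2_ok TP_l5227 _)
     (CovZ.n1 (14720, 22400) (by decide +kernel)
      (CovZ.n2 (15360, 22400) (by decide +kernel)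
       (CovZ.leaf K2_ok TP_l8036 _)
       (CovZ.badM (by decide +kernel)))
      (CovZ.n1 (14720, 21760) (by decide +kernel)
       (CovZ.leaf K2_ok TP_l8037 _)
       (CovZ.leaf K2_ok TP_l8038 _))))
    (CovZ.n1 (14080, 20480) (by decide +kernel)
     (CovZ.n2 (13440, 21120) (by decide +kernel)
      (CovZ.n2 (14080, 21120) (by decide +kernel)
       (CovZ.leaf K2_ok TP_l5228 _)
       (CovZ.leaf K2_ok TP_l8039 _))
      (CovZ.leaf K2_ok TP_l5229 _))
     (CovZ.leaf K2_ok TP_l5230 _))))
    (CovZ.topM TP_LL 1393796575313812138419015800519501979582466 (by decide +kernel) (CovZ.n0 (14080, 21760) (by decide +kernel)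
    (CovZ.n2 (12800, 21760) (by decide +kernel)
     (CovZ.n2 (13440, 22400) (by decide +kernel)
      (CovZ.n2 (13440, 21760) (by decide +kernel)
       (CovZ.n2 (13120, 22080) (by decide +kernel)
        (CovZ.n2 (13440, 22080) (by decide +kernel)
         (CovZ.leaf K2_ok TP_l8040 _)
         (CovZ.n1 (13280, 22240) (by decide +kernel)
          (CovZ.n2 (13440, 22240) (by decide +kernel)
           (CovZ.leaf K2_ok TP_l8041 _)
           (CovZ.badM (by decide +kernel)))
          (CovZ.n1 (13280, 22080) (by decide +kernel)
           (CovZ.leaf K2_ok TP_l8042 _)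
           (CovZ.leaf K2_ok TP_l8043 _))))
        (CovZ.n1 (13120, 21760) (by decide +kernel)
         (CovZ.n2 (12960, 21920) (by decide +kernel)
          (CovZ.n2 (13120, 21920) (by decide +kernel)
           (CovZ.leaf K2_ok TP_l8044 _)
           (CovZ.leaf K2_ok TP_l8045 _))
          (CovZ.leaf K2_ok TP_l8046 _))
         (CovZ.leaf K2_ok TP_l8047 _)))
       (CovZ.n1 (13760, 22080) (by decide +kernel)
        (CovZ.leaf K2_ok TP_l8048 _)
        (CovZ.n1 (13440, 22080) (by decide +kernel)
         (CovZ.n2 (13600, 22240) (by decide +kernel)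
          (CovZ.leaf K2_ok TP_l8049 _)
          (CovZ.leaf K2_ok TP_l8050 _))
         (CovZ.leaf K2_ok TP_l8051 _))))
      (CovZ.n1 (12800, 22400) (by decide +kernel)
       (CovZ.badM (by decide +kernel))
       (CovZ.n1 (13120, 22080) (by decide +kernel)
        (CovZ.n2 (12800, 22080) (by decide +kernel)
         (CovZ.badM (by decide +kernel))
         (CovZ.n1 (12960, 21920) (by decide +kernel)
          (CovZ.badM (by decide +kernel))
          (CovZ.n1 (12960, 22080) (by decide +kernel)
           (CovZ.leaf K2_ok TP_l8052 _)
           (CovZ.badM (by decide +kernel)))))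
        (CovZ.n1 (13120, 22400) (by decide +kernel)
         (CovZ.n2 (13280, 22240) (by decide +kernel)
          (CovZ.n2 (13120, 22240) (by decide +kernel)
           (CovZ.badM (by decide +kernel))
           (CovZ.leaf K2_ok TP_l8053 _))
          (CovZ.badM (by decide +kernel)))
         (CovZ.badM (by decide +kernel))))))
     (CovZ.n1 (13440, 21120) (by decide +kernel)
      (CovZ.n2 (12800, 21120) (by decide +kernel)
       (CovZ.n2 (13120, 21440) (by decide +kernel)
        (CovZ.leaf K2_ok TP_l8054 _)
        (CovZ.leaf K2_ok TP_l8055 _))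
       (CovZ.leaf K2_ok TP_l5231 _))
      (CovZ.n1 (13440, 21760) (by decide +kernel)
       (CovZ.leaf K2_ok TP_l8056 _)
       (CovZ.n1 (13120, 21440) (by decide +kernel)
        (CovZ.n2 (13120, 21760) (by decide +kernel)
         (CovZ.leaf K2_ok TP_l8057 _)
         (CovZ.leaf K2_ok TP_l8058 _))
        (CovZ.leaf K2_ok TP_l8059 _)))))
    (CovZ.n1 (14080, 23040) (by decide +kernel)
     (CovZ.n2 (14720, 22400) (by decide +kernel)
      (CovZ.n2 (14080, 22400) (by decide +kernel)
       (CovZ.badM (by decide +kernel))
       (CovZ.leaf K2_ok TP_l8060 _))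
      (CovZ.badM (by decide +kernel)))
     (CovZ.n1 (13440, 22400) (by decide +kernel)
      (CovZ.badM (by decide +kernel))
      (CovZ.n1 (14080, 22400) (by decide +kernel)
       (CovZ.n2 (13760, 22080) (by decide +kernel)
        (CovZ.n2 (13760, 22400) (by decide +kernel)
         (CovZ.leaf K2_ok TP_l8061 _)
         (CovZ.n1 (13600, 22240) (by decide +kernel)
          (CovZ.badM (by decide +kernel))
          (CovZ.leaf K2_ok TP_l8062 _)))
        (CovZ.leaf K2_ok TP_l8063 _))
       (CovZ.badM (by decide +kernel)))))))

theorem TP_s0_11 : SqZ TP_M TP_L [0, 7, 2, 5] (-2560) (-5120) 2560 0 11 :=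
  SqZ.mk (a := (-2560)) (b := 0) (c := 23040) (d := 25600) (by norm_num) (by norm_num) (by norm_num) (by norm_num)
    (CovZ.topM TP_LL 523609492100471281804471237078734734657536 (by decide +kernel) (CovZ.n2 (-1280, 24320) (by decide +kernel)
    TP_u82
    (CovZ.n1 (-1280, 23040) (by decide +kernel)
     (CovZ.badM (by decide +kernel))
     (CovZ.n1 (-640, 23680) (by decide +kernel)
      (CovZ.n2 (-640, 23040) (by decide +kernel)
       (CovZ.n2 (-960, 23360) (by decide +kernel)
        (CovZ.n2 (-640, 23360) (by decide +kernel)
         (CovZ.n2 (-800, 23200) (by decide +kernel)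
          (CovZ.leaf K2_ok TP_l633 _)
          (CovZ.leaf K2_ok TP_l634 _))
         (CovZ.subM 348619284911373028489211674522730040164352 (by decide +kernel)
          (CovZ.n1 (-800, 23520) (by decide +kernel)
           (CovZ.n2 (-640, 23520) (by decide +kernel)
            (CovZ.leaf K2_ok TP_l635 _)
            (CovZ.leaf K2_ok TP_l636 _))
           (CovZ.n1 (-800, 23360) (by decide +kernel)
            (CovZ.leaf K2_ok TP_l637 _)
            (CovZ.leaf K2_ok TP_l638 _)))))
        (CovZ.n1 (-960, 23040) (by decide +kernel)
         (CovZ.subM 348619284910739145235921262903289071271936 (by decide +kernel)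
          (CovZ.n2 (-1120, 23200) (by decide +kernel)
           (CovZ.n2 (-960, 23200) (by decide +kernel)
            (CovZ.leaf K2_ok TP_l639 _)
            (CovZ.leaf K2_ok TP_l640 _))
           (CovZ.n1 (-1120, 23040) (by decide +kernel)
            (CovZ.n2 (-1200, 23120) (by decide +kernel)
             (CovZ.leaf K2_ok TP_l641 _)
             (CovZ.leaf K2_ok TP_l642 _))
            (CovZ.leaf K2_ok TP_l643 _))))
         (CovZ.n1 (-800, 23200) (by decide +kernel)
          (CovZ.leaf K2_ok TP_l644 _)
          (CovZ.leaf K2_ok TP_l645 _))))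
       (CovZ.n1 (-320, 23360) (by decide +kernel)
        (CovZ.leaf K2_ok TP_l646 _)
        (CovZ.n1 (-640, 23360) (by decide +kernel)
         (CovZ.leaf K2_ok TP_l647 _)
         (CovZ.leaf K2_ok TP_l648 _))))
      TP_u81))))
    (CovZ.topM TP_LL 523609492100471281804471237078734734657536 (by decide +kernel) (CovZ.n0 (-1280, 24320) (by decide +kernel)
    (CovZ.badM (by decide +kernel))
    (CovZ.n1 (-1280, 25600) (by decide +kernel)
     (CovZ.n2 (-640, 24960) (by decide +kernel)
      (CovZ.badM (by decide +kernel))
      (CovZ.badM (by decide +kernel)))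
     (CovZ.badM (by decide +kernel)))))

theorem TP_s1_11 : SqZ TP_M TP_L [0, 7, 2, 5] (-2560) (-5120) 2560 1 11 :=
  SqZ.mk (a := 0) (b := 2560) (c := 23040) (d := 25600) (by norm_num) (by norm_num) (by norm_num) (by norm_num)
    (CovZ.topM TP_LL 523609492141036101011774577926629237229568 (by decide +kernel) (CovZ.n2 (1280, 24320) (by decide +kernel)
    TP_u83
    TP_u84))
    (CovZ.topM TP_LL 523609492141036101011774577926629237229568 (by decide +kernel) (CovZ.n0 (1280, 24320) (by decide +kernel)
    (CovZ.n2 (0, 24320) (by decide +kernel)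
     (CovZ.subM 40565438479554438459281968726016 (by decide +kernel)
      (CovZ.n2 (640, 24960) (by decide +kernel)
       (CovZ.n2 (640, 24320) (by decide +kernel)
        (CovZ.n2 (320, 24640) (by decide +kernel)
         (CovZ.n2 (640, 24640) (by decide +kernel)
          (CovZ.n2 (480, 24480) (by decide +kernel)
           (CovZ.n2 (480, 24640) (by decide +kernel)
            (CovZ.n2 (560, 24560) (by decide +kernel)
             (CovZ.leaf K2_ok TP_l7576 _)
             (CovZ.leaf K2_ok TP_l7577 _))
            (CovZ.leaf K2_ok TP_l7578 _))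
           (CovZ.n1 (640, 24480) (by decide +kernel)
            (CovZ.leaf K2_ok TP_l2314 _)
            (CovZ.n1 (560, 24560) (by decide +kernel)
             (CovZ.leaf K2_ok TP_l7579 _)
             (CovZ.leaf K2_ok TP_l7580 _))))
          (CovZ.badM (by decide +kernel)))
         (CovZ.n1 (320, 24320) (by decide +kernel)
          (CovZ.leaf K2_ok TP_l2315 _)
          (CovZ.n1 (480, 24480) (by decide +kernel)
           (CovZ.leaf K2_ok TP_l2316 _)
           (CovZ.n1 (320, 24480) (by decide +kernel)
            (CovZ.leaf K2_ok TP_l7581 _)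
            (CovZ.leaf K2_ok TP_l2317 _)))))
        (CovZ.n1 (960, 24640) (by decide +kernel)
         (CovZ.n2 (960, 24320) (by decide +kernel)
          (CovZ.n2 (800, 24480) (by decide +kernel)
           (CovZ.n2 (960, 24480) (by decide +kernel)
            (CovZ.n2 (880, 24400) (by decide +kernel)
             (CovZ.leaf K2_ok TP_l7582 _)
             (CovZ.n1 (960, 24400) (by decide +kernel)
              (CovZ.n2 (920, 24360) (by decide +kernel)
               (CovZ.badM (by decide +kernel))
               (CovZ.badM (by decide +kernel)))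
              (CovZ.badM (by decide +kernel))))
            (CovZ.badM (by decide +kernel)))
           (CovZ.n1 (800, 24320) (by decide +kernel)
            (CovZ.leaf K2_ok TP_l7583 _)
            (CovZ.n1 (880, 24400) (by decide +kernel)
             (CovZ.leaf K2_ok TP_l7584 _)
             (CovZ.leaf K2_ok TP_l7585 _))))
          (CovZ.badM (by decide +kernel)))
         (CovZ.n1 (640, 24640) (by decide +kernel)
          (CovZ.badM (by decide +kernel))
          (CovZ.n1 (800, 24480) (by decide +kernel)
           (CovZ.n2 (640, 24480) (by decide +kernel)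
            (CovZ.badM (by decide +kernel))
            (CovZ.leaf K2_ok TP_l7586 _))
           (CovZ.badM (by decide +kernel))))))
       (CovZ.n1 (0, 24960) (by decide +kernel)
        (CovZ.badM (by decide +kernel))
        (CovZ.n1 (320, 24640) (by decide +kernel)
         (CovZ.n2 (0, 24640) (by decide +kernel)
          (CovZ.n2 (160, 24800) (by decide +kernel)
           (CovZ.n2 (160, 24640) (by decide +kernel)
            (CovZ.leaf K2_ok TP_l7587 _)
            (CovZ.n1 (240, 24720) (by decide +kernel)
             (CovZ.leaf K2_ok TP_l7588 _)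
             (CovZ.leaf K2_ok TP_l7589 _)))
           (CovZ.n1 (0, 24800) (by decide +kernel)
            (CovZ.badM (by decide +kernel))
            (CovZ.leaf K2_ok TP_l7590 _)))
          (CovZ.n1 (160, 24480) (by decide +kernel)
           (CovZ.leaf K2_ok TP_l2318 _)
           (CovZ.leaf K2_ok TP_l7591 _)))
         (CovZ.n1 (320, 24960) (by decide +kernel)
          (CovZ.badM (by decide +kernel))
          (CovZ.n1 (160, 24800) (by decide +kernel)
           (CovZ.badM (by decide +kernel))
           (CovZ.n1 (320, 24800) (by decide +kernel)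
            (CovZ.n2 (240, 24720) (by decide +kernel)
             (CovZ.leaf K2_ok TP_l7592 _)
             (CovZ.leaf K2_ok TP_l7593 _))
            (CovZ.badM (by decide +kernel)))))))))
     (CovZ.n1 (640, 23680) (by decide +kernel)
      (CovZ.n2 (0, 23680) (by decide +kernel)
       (CovZ.n2 (320, 24000) (by decide +kernel)
        (CovZ.leaf K2_ok TP_l2319 _)
        (CovZ.leaf K2_ok TP_l2320 _))
       (CovZ.leaf K2_ok TP_l2321 _))
      (CovZ.n1 (640, 24320) (by decide +kernel)
       (CovZ.subM 680564734634294254288039936083231803392 (by decide +kernel)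
        (CovZ.n2 (960, 24000) (by decide +kernel)
         (CovZ.n2 (640, 24000) (by decide +kernel)
          (CovZ.n2 (800, 24160) (by decide +kernel)
           (CovZ.leaf K2_ok TP_l2322 _)
           (CovZ.leaf K2_ok TP_l2323 _))
          (CovZ.leaf K2_ok TP_l2324 _))
         (CovZ.subM 680564733841954600410745023181468207104 (by decide +kernel)
          (CovZ.n1 (960, 24320) (by decide +kernel)
           (CovZ.subM 680564733841954298179204551130717620224 (by decide +kernel)
            (CovZ.n2 (1120, 24160) (by decide +kernel)
             (CovZ.n2 (960, 24160) (by decide +kernel)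
              (CovZ.leaf K2_ok TP_l7594 _)
              (CovZ.leaf K2_ok TP_l7595 _))
             (CovZ.n1 (1120, 24320) (by decide +kernel)
              (CovZ.n2 (1200, 24240) (by decide +kernel)
               (CovZ.leaf K2_ok TP_l7596 _)
               (CovZ.leaf K2_ok TP_l7597 _))
              (CovZ.leaf K2_ok TP_l7598 _))))
           (CovZ.n1 (800, 24160) (by decide +kernel)
            (CovZ.leaf K2_ok TP_l2325 _)
            (CovZ.n1 (960, 24160) (by decide +kernel)
             (CovZ.leaf K2_ok TP_l2326 _)
             (CovZ.leaf K2_ok TP_l2327 _)))))))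
       (CovZ.n1 (320, 24000) (by decide +kernel)
        (CovZ.leaf K2_ok TP_l2328 _)
        (CovZ.n1 (640, 24000) (by decide +kernel)
         (CovZ.leaf K2_ok TP_l2329 _)
         (CovZ.leaf K2_ok TP_l2330 _))))))
    (CovZ.subM 40565438479554438459281968726016 (by decide +kernel)
     (CovZ.n1 (1280, 25600) (by decide +kernel)
      (CovZ.badM (by decide +kernel))
      (CovZ.n1 (640, 24960) (by decide +kernel)
       (CovZ.badM (by decide +kernel))
       (CovZ.n1 (1280, 24960) (by decide +kernel)
        (CovZ.n2 (960, 24640) (by decide +kernel)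
         (CovZ.badM (by decide +kernel))
         (CovZ.badM (by decide +kernel)))
        (CovZ.badM (by decide +kernel))))))))

theorem TP_s2_11 : SqZ TP_M TP_L [0, 7, 2, 5] (-2560) (-5120) 2560 2 11 :=
  SqZ.mk (a := 2560) (b := 5120) (c := 23040) (d := 25600) (by norm_num) (by norm_num) (by norm_num) (by norm_num)
    (CovZ.topM TP_LL 0 (by decide +kernel) (CovZ.badM (by decide +kernel)))
    (CovZ.topM TP_LL 0 (by decide +kernel) (CovZ.badM (by decide +kernel)))

theorem TP_s3_11 : SqZ TP_M TP_L [0, 7, 2, 5] (-2560) (-5120) 2560 3 11 :=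
  SqZ.mk (a := 5120) (b := 7680) (c := 23040) (d := 25600) (by norm_num) (by norm_num) (by norm_num) (by norm_num)
    (CovZ.topM TP_LL 0 (by decide +kernel) (CovZ.badM (by decide +kernel)))
    (CovZ.topM TP_LL 0 (by decide +kernel) (CovZ.badM (by decide +kernel)))

theorem TP_s4_11 : SqZ TP_M TP_L [0, 7, 2, 5] (-2560) (-5120) 2560 4 11 :=
  SqZ.mk (a := 7680) (b := 10240) (c := 23040) (d := 25600) (by norm_num) (by norm_num) (by norm_num) (by norm_num)
    (CovZ.topM TP_LL 0 (by decide +kernel) (CovZ.badM (by decide +kernel)))
    (CovZ.topM TP_LL 0 (by decide +kernel) (CovZ.badM (by decide +kernel)))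

theorem TP_s5_11 : SqZ TP_M TP_L [0, 7, 2, 5] (-2560) (-5120) 2560 5 11 :=
  SqZ.mk (a := 10240) (b := 12800) (c := 23040) (d := 25600) (by norm_num) (by norm_num) (by norm_num) (by norm_num)
    (CovZ.topM TP_LL 0 (by decide +kernel) (CovZ.badM (by decide +kernel)))
    (CovZ.topM TP_LL 0 (by decide +kernel) (CovZ.badM (by decide +kernel)))

theorem TP_s6_11 : SqZ TP_M TP_L [0, 7, 2, 5] (-2560) (-5120) 2560 6 11 :=
  SqZ.mk (a := 12800) (b := 15360) (c := 23040) (d := 25600) (by norm_num) (by norm_num) (by norm_num) (by norm_num)
    (CovZ.topM TP_LL 0 (by decide +kernel) (CovZ.badM (by decide +kernel)))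
    (CovZ.topM TP_LL 0 (by decide +kernel) (CovZ.badM (by decide +kernel)))

theorem TP_s0_12 : SqZ TP_M TP_L [0, 7, 2, 5] (-2560) (-5120) 2560 0 12 :=
  SqZ.mk (a := (-2560)) (b := 0) (c := 25600) (d := 28160) (by norm_num) (by norm_num) (by norm_num) (by norm_num)
    (CovZ.topM TP_LL 0 (by decide +kernel) (CovZ.badM (by decide +kernel)))
    (CovZ.topM TP_LL 0 (by decide +kernel) (CovZ.badM (by decide +kernel)))

theorem TP_s1_12 : SqZ TP_M TP_L [0, 7, 2, 5] (-2560) (-5120) 2560 1 12 :=
  SqZ.mk (a := 0) (b := 2560) (c := 25600) (d := 28160) (by norm_num) (by norm_num) (by norm_num) (by norm_num)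
    (CovZ.topM TP_LL 0 (by decide +kernel) (CovZ.badM (by decide +kernel)))
    (CovZ.topM TP_LL 0 (by decide +kernel) (CovZ.badM (by decide +kernel)))

theorem TP_s2_12 : SqZ TP_M TP_L [0, 7, 2, 5] (-2560) (-5120) 2560 2 12 :=
  SqZ.mk (a := 2560) (b := 5120) (c := 25600) (d := 28160) (by norm_num) (by norm_num) (by norm_num) (by norm_num)
    (CovZ.topM TP_LL 0 (by decide +kernel) (CovZ.badM (by decide +kernel)))
    (CovZ.topM TP_LL 0 (by decide +kernel) (CovZ.badM (by decide +kernel)))

theorem TP_s3_12 : SqZ TP_M TP_L [0, 7, 2, 5] (-2560) (-5120) 2560 3 12 :=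
  SqZ.mk (a := 5120) (b := 7680) (c := 25600) (d := 28160) (by norm_num) (by norm_num) (by norm_num) (by norm_num)
    (CovZ.topM TP_LL 0 (by decide +kernel) (CovZ.badM (by decide +kernel)))
    (CovZ.topM TP_LL 0 (by decide +kernel) (CovZ.badM (by decide +kernel)))

theorem TP_s4_12 : SqZ TP_M TP_L [0, 7, 2, 5] (-2560) (-5120) 2560 4 12 :=
  SqZ.mk (a := 7680) (b := 10240) (c := 25600) (d := 28160) (by norm_num) (by norm_num) (by norm_num) (by norm_num)
    (CovZ.topM TP_LL 0 (by decide +kernel) (CovZ.badM (by decide +kernel)))
    (CovZ.topM TP_LL 0 (by decide +kernel) (CovZ.badM (by decide +kernel)))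

theorem TP_s5_12 : SqZ TP_M TP_L [0, 7, 2, 5] (-2560) (-5120) 2560 5 12 :=
  SqZ.mk (a := 10240) (b := 12800) (c := 25600) (d := 28160) (by norm_num) (by norm_num) (by norm_num) (by norm_num)
    (CovZ.topM TP_LL 0 (by decide +kernel) (CovZ.badM (by decide +kernel)))
    (CovZ.topM TP_LL 0 (by decide +kernel) (CovZ.badM (by decide +kernel)))

theorem TP_s6_12 : SqZ TP_M TP_L [0, 7, 2, 5] (-2560) (-5120) 2560 6 12 :=
  SqZ.mk (a := 12800) (b := 15360) (c := 25600) (d := 28160) (by norm_num) (by norm_num) (by norm_num) (by norm_num)
    (CovZ.topM TP_LL 0 (by decide +kernel) (CovZ.badM (by decide +kernel)))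
    (CovZ.topM TP_LL 0 (by decide +kernel) (CovZ.badM (by decide +kernel)))

theorem TP_s0_13 : SqZ TP_M TP_L [0, 7, 2, 5] (-2560) (-5120) 2560 0 13 :=
  SqZ.mk (a := (-2560)) (b := 0) (c := 28160) (d := 30720) (by norm_num) (by norm_num) (by norm_num) (by norm_num)
    (CovZ.topM TP_LL 718676358937023583478172899542982499238064 (by decide +kernel) (CovZ.n2 (-1280, 29440) (by decide +kernel)
    (CovZ.n2 (0, 29440) (by decide +kernel)
     TP_u85
     TP_u86)
    (CovZ.subM 696898287454083520607568046622625857798144 (by decide +kernel)
     (CovZ.n1 (-1280, 28160) (by decide +kernel)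
      (CovZ.badM (by decide +kernel))
      (CovZ.n1 (-640, 28800) (by decide +kernel)
       (CovZ.n2 (-640, 28160) (by decide +kernel)
        (CovZ.badM (by decide +kernel))
        (CovZ.n1 (-320, 28480) (by decide +kernel)
         (CovZ.badM (by decide +kernel))
         (CovZ.badM (by decide +kernel))))
       (CovZ.badM (by decide +kernel)))))))
    (CovZ.topM TP_LL 718676358937023583478172899542982499238064 (by decide +kernel) (CovZ.n0 (-1280, 29440) (by decide +kernel)
    (CovZ.badM (by decide +kernel))
    (CovZ.n1 (-1280, 30720) (by decide +kernel)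
     (CovZ.n2 (-640, 30080) (by decide +kernel)
      (CovZ.subM 16777392 (by decide +kernel)
       (CovZ.n2 (-1280, 30080) (by decide +kernel)
        (CovZ.n2 (-960, 30400) (by decide +kernel)
         (CovZ.n2 (-960, 30080) (by decide +kernel)
          (CovZ.badM (by decide +kernel))
          (CovZ.n1 (-800, 30240) (by decide +kernel)
           (CovZ.n2 (-800, 30080) (by decide +kernel)
            (CovZ.badM (by decide +kernel))
            (CovZ.n1 (-720, 30160) (by decide +kernel)
             (CovZ.n2 (-720, 30080) (by decide +kernel)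
              (CovZ.badM (by decide +kernel))
              (CovZ.n1 (-680, 30120) (by decide +kernel)
               (CovZ.badM (by decide +kernel))
               (CovZ.badM (by decide +kernel))))
             (CovZ.badM (by decide +kernel))))
           (CovZ.badM (by decide +kernel))))
         (CovZ.badM (by decide +kernel)))
        (CovZ.badM (by decide +kernel))))
      (CovZ.n1 (-640, 30720) (by decide +kernel)
       (CovZ.n2 (-320, 30400) (by decide +kernel)
        (CovZ.n2 (-640, 30400) (by decide +kernel)
         (CovZ.n2 (-480, 30560) (by decide +kernel)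
          (CovZ.n2 (-480, 30400) (by decide +kernel)
           (CovZ.n2 (-560, 30480) (by decide +kernel)
            (CovZ.leaf K2_ok TP_l799 _)
            (CovZ.leaf K2_ok TP_l800 _))
           (CovZ.leaf K2_ok TP_l801 _))
          (CovZ.subM 1209022665021018314113200 (by decide +kernel)
           (CovZ.n1 (-640, 30560) (by decide +kernel)
            (CovZ.n2 (-560, 30640) (by decide +kernel)
             (CovZ.leaf K2_ok TP_l802 _)
             (CovZ.leaf K2_ok TP_l803 _))
            (CovZ.n1 (-560, 30480) (by decide +kernel)
             (CovZ.leaf K2_ok TP_l804 _)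
             (CovZ.leaf K2_ok TP_l805 _)))))
         (CovZ.n1 (-480, 30240) (by decide +kernel)
          (CovZ.subM 1209022665021018314113168 (by decide +kernel)
           (CovZ.n2 (-640, 30240) (by decide +kernel)
            (CovZ.n2 (-560, 30320) (by decide +kernel)
             (CovZ.n2 (-560, 30240) (by decide +kernel)
              (CovZ.leaf K2_ok TP_l806 _)
              (CovZ.leaf K2_ok TP_l807 _))
             (CovZ.n1 (-640, 30320) (by decide +kernel)
              (CovZ.leaf K2_ok TP_l808 _)
              (CovZ.leaf K2_ok TP_l809 _)))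
            (CovZ.n1 (-560, 30160) (by decide +kernel)
             (CovZ.n2 (-640, 30160) (by decide +kernel)
              (CovZ.leaf K2_ok TP_l810 _)
              (CovZ.n1 (-600, 30120) (by decide +kernel)
               (CovZ.leaf K2_ok TP_l811 _)
               (CovZ.leaf K2_ok TP_l812 _)))
             (CovZ.n1 (-560, 30240) (by decide +kernel)
              (CovZ.leaf K2_ok TP_l813 _)
              (CovZ.leaf K2_ok TP_l814 _)))))
          (CovZ.n1 (-480, 30400) (by decide +kernel)
           (CovZ.leaf K2_ok TP_l815 _)
           (CovZ.n1 (-560, 30320) (by decide +kernel)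
            (CovZ.n2 (-560, 30400) (by decide +kernel)
             (CovZ.leaf K2_ok TP_l816 _)
             (CovZ.leaf K2_ok TP_l817 _))
            (CovZ.leaf K2_ok TP_l818 _)))))
        (CovZ.n1 (-320, 30720) (by decide +kernel)
         (CovZ.n2 (-160, 30560) (by decide +kernel)
          (CovZ.leaf K2_ok TP_l819 _)
          (CovZ.leaf K2_ok TP_l820 _))
         (CovZ.n1 (-480, 30560) (by decide +kernel)
          (CovZ.n2 (-480, 30720) (by decide +kernel)
           (CovZ.leaf K2_ok TP_l821 _)
           (CovZ.n1 (-560, 30640) (by decide +kernel)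
            (CovZ.leaf K2_ok TP_l822 _)
            (CovZ.leaf K2_ok TP_l823 _)))
          (CovZ.n1 (-320, 30560) (by decide +kernel)
           (CovZ.leaf K2_ok TP_l824 _)
           (CovZ.leaf K2_ok TP_l825 _)))))
       (CovZ.subM 16777392 (by decide +kernel)
        (CovZ.n1 (-960, 30400) (by decide +kernel)
         (CovZ.n2 (-960, 30720) (by decide +kernel)
          (CovZ.n2 (-800, 30560) (by decide +kernel)
           (CovZ.badM (by decide +kernel))
           (CovZ.n1 (-800, 30720) (by decide +kernel)
            (CovZ.n2 (-720, 30640) (by decide +kernel)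
             (CovZ.n2 (-800, 30640) (by decide +kernel)
              (CovZ.n2 (-760, 30680) (by decide +kernel)
               (CovZ.n2 (-760, 30640) (by decide +kernel)
                (CovZ.leaf K2_ok TP_l6442 _)
                (CovZ.leaf K2_ok TP_l6443 _))
               (CovZ.leaf K2_ok TP_l6444 _))
              (CovZ.n1 (-760, 30600) (by decide +kernel)
               (CovZ.n2 (-800, 30600) (by decide +kernel)
                (CovZ.leaf K2_ok TP_l6445 _)
                (CovZ.leaf K2_ok TP_l6446 _))
               (CovZ.n1 (-760, 30640) (by decide +kernel)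
                (CovZ.leaf K2_ok TP_l6447 _)
                (CovZ.leaf K2_ok TP_l6448 _))))
             (CovZ.n1 (-720, 30720) (by decide +kernel)
              (CovZ.leaf K2_ok TP_l6449 _)
              (CovZ.n1 (-760, 30680) (by decide +kernel)
               (CovZ.n2 (-760, 30720) (by decide +kernel)
                (CovZ.leaf K2_ok TP_l6450 _)
                (CovZ.leaf K2_ok TP_l6451 _))
               (CovZ.leaf K2_ok TP_l6452 _))))
            (CovZ.badM (by decide +kernel))))
          (CovZ.badM (by decide +kernel)))
         (CovZ.n1 (-640, 30400) (by decide +kernel)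
          (CovZ.n2 (-800, 30240) (by decide +kernel)
           (CovZ.n2 (-800, 30400) (by decide +kernel)
            (CovZ.n2 (-720, 30320) (by decide +kernel)
             (CovZ.n2 (-800, 30320) (by decide +kernel)
              (CovZ.n2 (-760, 30360) (by decide +kernel)
               (CovZ.badM (by decide +kernel))
               (CovZ.badM (by decide +kernel)))
              (CovZ.badM (by decide +kernel)))
             (CovZ.n1 (-720, 30400) (by decide +kernel)
              (CovZ.n2 (-680, 30360) (by decide +kernel)
               (CovZ.leaf K2_ok TP_l6453 _)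
               (CovZ.leaf K2_ok TP_l6454 _))
              (CovZ.n1 (-760, 30360) (by decide +kernel)
               (CovZ.n2 (-760, 30400) (by decide +kernel)
                (CovZ.leaf K2_ok TP_l6455 _)
                (CovZ.badM (by decide +kernel)))
               (CovZ.n1 (-720, 30360) (by decide +kernel)
                (CovZ.badM (by decide +kernel))
                (CovZ.leaf K2_ok TP_l6456 _)))))
            (CovZ.badM (by decide +kernel)))
           (CovZ.n1 (-640, 30240) (by decide +kernel)
            (CovZ.n2 (-720, 30160) (by decide +kernel)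
             (CovZ.n2 (-720, 30240) (by decide +kernel)
              (CovZ.n2 (-680, 30200) (by decide +kernel)
               (CovZ.n2 (-720, 30200) (by decide +kernel)
                (CovZ.leaf K2_ok TP_l6457 _)
                (CovZ.leaf K2_ok TP_l6458 _))
               (CovZ.n1 (-680, 30240) (by decide +kernel)
                (CovZ.leaf K2_ok TP_l6459 _)
                (CovZ.leaf K2_ok TP_l6460 _)))
              (CovZ.badM (by decide +kernel)))
             (CovZ.n1 (-640, 30160) (by decide +kernel)
              (CovZ.n2 (-680, 30120) (by decide +kernel)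
               (CovZ.n2 (-680, 30160) (by decide +kernel)
                (CovZ.leaf K2_ok TP_l6461 _)
                (CovZ.badM (by decide +kernel)))
               (CovZ.n1 (-640, 30120) (by decide +kernel)
                (CovZ.badM (by decide +kernel))
                (CovZ.leaf K2_ok TP_l6462 _)))
              (CovZ.n1 (-680, 30200) (by decide +kernel)
               (CovZ.leaf K2_ok TP_l6463 _)
               (CovZ.n1 (-680, 30160) (by decide +kernel)
                (CovZ.leaf K2_ok TP_l6464 _)
                (CovZ.leaf K2_ok TP_l6465 _)))))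
            (CovZ.n1 (-720, 30320) (by decide +kernel)
             (CovZ.n2 (-640, 30320) (by decide +kernel)
              (CovZ.n2 (-680, 30280) (by decide +kernel)
               (CovZ.leaf K2_ok TP_l6466 _)
               (CovZ.leaf K2_ok TP_l6467 _))
              (CovZ.n1 (-680, 30360) (by decide +kernel)
               (CovZ.leaf K2_ok TP_l6468 _)
               (CovZ.leaf K2_ok TP_l6469 _)))
             (CovZ.n1 (-720, 30240) (by decide +kernel)
              (CovZ.badM (by decide +kernel))
              (CovZ.n1 (-680, 30280) (by decide +kernel)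
               (CovZ.leaf K2_ok TP_l6470 _)
               (CovZ.n1 (-720, 30280) (by decide +kernel)
                (CovZ.leaf K2_ok TP_l6471 _)
                (CovZ.leaf K2_ok TP_l6472 _)))))))
          (CovZ.n1 (-800, 30560) (by decide +kernel)
           (CovZ.n2 (-640, 30560) (by decide +kernel)
            (CovZ.n2 (-720, 30480) (by decide +kernel)
             (CovZ.n2 (-720, 30560) (by decide +kernel)
              (CovZ.leaf K2_ok TP_l6473 _)
              (CovZ.n1 (-760, 30520) (by decide +kernel)
               (CovZ.n2 (-760, 30560) (by decide +kernel)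
                (CovZ.leaf K2_ok TP_l6474 _)
                (CovZ.leaf K2_ok TP_l6475 _))
               (CovZ.leaf K2_ok TP_l6476 _)))
             (CovZ.n1 (-640, 30480) (by decide +kernel)
              (CovZ.n2 (-680, 30440) (by decide +kernel)
               (CovZ.leaf K2_ok TP_l6477 _)
               (CovZ.leaf K2_ok TP_l6478 _))
              (CovZ.leaf K2_ok TP_l6479 _)))
            (CovZ.n1 (-720, 30640) (by decide +kernel)
             (CovZ.n2 (-640, 30640) (by decide +kernel)
              (CovZ.leaf K2_ok TP_l6480 _)
              (CovZ.leaf K2_ok TP_l6481 _))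
             (CovZ.n1 (-720, 30560) (by decide +kernel)
              (CovZ.n2 (-760, 30600) (by decide +kernel)
               (CovZ.leaf K2_ok TP_l6482 _)
               (CovZ.n1 (-760, 30560) (by decide +kernel)
                (CovZ.leaf K2_ok TP_l6483 _)
                (CovZ.leaf K2_ok TP_l6484 _)))
              (CovZ.leaf K2_ok TP_l6485 _))))
           (CovZ.n1 (-800, 30400) (by decide +kernel)
            (CovZ.badM (by decide +kernel))
            (CovZ.n1 (-720, 30480) (by decide +kernel)
             (CovZ.n2 (-720, 30400) (by decide +kernel)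
              (CovZ.n2 (-760, 30440) (by decide +kernel)
               (CovZ.n2 (-720, 30440) (by decide +kernel)
                (CovZ.leaf K2_ok TP_l6486 _)
                (CovZ.leaf K2_ok TP_l6487 _))
               (CovZ.n1 (-760, 30400) (by decide +kernel)
                (CovZ.badM (by decide +kernel))
                (CovZ.leaf K2_ok TP_l6488 _)))
              (CovZ.leaf K2_ok TP_l6489 _))
             (CovZ.n1 (-800, 30480) (by decide +kernel)
              (CovZ.n2 (-760, 30520) (by decide +kernel)
               (CovZ.n2 (-760, 30480) (by decide +kernel)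
                (CovZ.leaf K2_ok TP_l6490 _)
                (CovZ.leaf K2_ok TP_l6491 _))
               (CovZ.n1 (-800, 30520) (by decide +kernel)
                (CovZ.leaf K2_ok TP_l6492 _)
                (CovZ.leaf K2_ok TP_l6493 _)))
              (CovZ.n1 (-760, 30440) (by decide +kernel)
               (CovZ.badM (by decide +kernel))
               (CovZ.n1 (-760, 30480) (by decide +kernel)
                (CovZ.leaf K2_ok TP_l6494 _)
                (CovZ.badM (by decide +kernel)))))))))))))
     (CovZ.badM (by decide +kernel)))))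

theorem TP_s1_13 : SqZ TP_M TP_L [0, 7, 2, 5] (-2560) (-5120) 2560 1 13 :=
  SqZ.mk (a := 0) (b := 2560) (c := 28160) (d := 30720) (by norm_num) (by norm_num) (by norm_num) (by norm_num)
    (CovZ.topM TP_LL 718676358937023583478172899542982499238064 (by decide +kernel) (CovZ.n2 (1280, 29440) (by decide +kernel)
    (CovZ.badM (by decide +kernel))
    (CovZ.subM 696898287454083520607568046622625857798144 (by decide +kernel)
     (CovZ.n1 (1280, 28160) (by decide +kernel)
      (CovZ.n2 (640, 28800) (by decide +kernel)
       (CovZ.badM (by decide +kernel))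
       (CovZ.subM 9223372036854775808 (by decide +kernel)
        (CovZ.n1 (640, 28160) (by decide +kernel)
         (CovZ.n2 (320, 28480) (by decide +kernel)
          (CovZ.n2 (640, 28480) (by decide +kernel)
           (CovZ.badM (by decide +kernel))
           (CovZ.n1 (480, 28640) (by decide +kernel)
            (CovZ.badM (by decide +kernel))
            (CovZ.n1 (480, 28480) (by decide +kernel)
             (CovZ.n2 (400, 28560) (by decide +kernel)
              (CovZ.badM (by decide +kernel))
              (CovZ.leaf K2_ok TP_l7599 _))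
             (CovZ.badM (by decide +kernel)))))
          (CovZ.badM (by decide +kernel)))
         (CovZ.badM (by decide +kernel)))))
      (CovZ.badM (by decide +kernel))))))
    (CovZ.topM TP_LL 718676358937023583478172899542982499238064 (by decide +kernel) (CovZ.n0 (1280, 29440) (by decide +kernel)
    (CovZ.n2 (0, 29440) (by decide +kernel)
     (CovZ.n2 (640, 30080) (by decide +kernel)
      (CovZ.n2 (640, 29440) (by decide +kernel)
       (CovZ.n2 (320, 29760) (by decide +kernel)
        (CovZ.n2 (640, 29760) (by decide +kernel)
         (CovZ.subM 696898287454083521816498477923273459892224 (by decide +kernel)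
          (CovZ.n2 (480, 29600) (by decide +kernel)
           (CovZ.n2 (480, 29760) (by decide +kernel)
            (CovZ.n2 (560, 29680) (by decide +kernel)
             (CovZ.leaf K2_ok TP_l2331 _)
             (CovZ.leaf K3_ok TP_l2332 _))
            (CovZ.leaf K3_ok TP_l2333 _))
           (CovZ.n1 (640, 29600) (by decide +kernel)
            (CovZ.n2 (560, 29520) (by decide +kernel)
             (CovZ.leaf K2_ok TP_l2334 _)
             (CovZ.badM (by decide +kernel)))
            (CovZ.n1 (560, 29680) (by decide +kernel)
             (CovZ.badM (by decide +kernel))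
             (CovZ.leaf K2_ok TP_l2335 _)))))
         (CovZ.n1 (480, 29920) (by decide +kernel)
          (CovZ.n2 (640, 29920) (by decide +kernel)
           (CovZ.leaf K2_ok TP_l2336 _)
           (CovZ.leaf K2_ok TP_l2337 _))
          (CovZ.leaf K3_ok TP_l2338 _)))
        (CovZ.subM 696898287454083521816498477923273459892224 (by decide +kernel)
         (CovZ.n1 (320, 29440) (by decide +kernel)
          (CovZ.leaf K2_ok TP_l2339 _)
          (CovZ.n1 (480, 29600) (by decide +kernel)
           (CovZ.n2 (480, 29440) (by decide +kernel)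
            (CovZ.leaf K2_ok TP_l2340 _)
            (CovZ.n1 (560, 29520) (by decide +kernel)
             (CovZ.leaf K2_ok TP_l2341 _)
             (CovZ.leaf K2_ok TP_l2342 _)))
           (CovZ.leaf K2_ok TP_l2343 _)))))
       (CovZ.badM (by decide +kernel)))
      (CovZ.n1 (0, 30080) (by decide +kernel)
       (CovZ.n2 (320, 30400) (by decide +kernel)
        (CovZ.n2 (320, 30080) (by decide +kernel)
         (CovZ.leaf K2_ok TP_l2344 _)
         (CovZ.n1 (480, 30240) (by decide +kernel)
          (CovZ.leaf K2_ok TP_l2345 _)
          (CovZ.leaf K2_ok TP_l2346 _)))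
        (CovZ.n1 (0, 30400) (by decide +kernel)
         (CovZ.leaf K2_ok TP_l2347 _)
         (CovZ.leaf K2_ok TP_l2348 _)))
       (CovZ.n1 (320, 29760) (by decide +kernel)
        (CovZ.n2 (0, 29760) (by decide +kernel)
         (CovZ.leaf K2_ok TP_l2349 _)
         (CovZ.leaf K2_ok TP_l2350 _))
        (CovZ.n1 (320, 30080) (by decide +kernel)
         (CovZ.n2 (480, 29920) (by decide +kernel)
          (CovZ.leaf K3_ok TP_l2351 _)
          (CovZ.leaf K2_ok TP_l2352 _))
         (CovZ.leaf K2_ok TP_l2353 _)))))
     (CovZ.subM 696898287454083520607568046622625857798144 (by decide +kernel)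
      (CovZ.n1 (640, 28800) (by decide +kernel)
       (CovZ.n2 (0, 28800) (by decide +kernel)
        (CovZ.n2 (320, 29120) (by decide +kernel)
         (CovZ.n2 (320, 28800) (by decide +kernel)
          (CovZ.n2 (160, 28960) (by decide +kernel)
           (CovZ.n2 (320, 28960) (by decide +kernel)
            (CovZ.leaf K2_ok TP_l2354 _)
            (CovZ.leaf K2_ok TP_l2355 _))
           (CovZ.leaf K2_ok TP_l2356 _))
          (CovZ.n1 (480, 28960) (by decide +kernel)
           (CovZ.n2 (480, 28800) (by decide +kernel)
            (CovZ.leaf K2_ok TP_l2357 _)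
            (CovZ.badM (by decide +kernel)))
           (CovZ.n1 (320, 28960) (by decide +kernel)
            (CovZ.leaf K2_ok TP_l2358 _)
            (CovZ.leaf K2_ok TP_l2359 _))))
         (CovZ.n1 (0, 29120) (by decide +kernel)
          (CovZ.leaf K2_ok TP_l2360 _)
          (CovZ.n1 (160, 28960) (by decide +kernel)
           (CovZ.leaf K2_ok TP_l2361 _)
           (CovZ.leaf K2_ok TP_l2362 _))))
        (CovZ.subM 9223372036854775808 (by decide +kernel)
         (CovZ.n1 (320, 28480) (by decide +kernel)
          (CovZ.n2 (0, 28480) (by decide +kernel)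
           (CovZ.n2 (160, 28640) (by decide +kernel)
            (CovZ.leaf K2_ok TP_l7600 _)
            (CovZ.n1 (0, 28640) (by decide +kernel)
             (CovZ.leaf K2_ok TP_l7601 _)
             (CovZ.leaf K2_ok TP_l7602 _)))
           (CovZ.badM (by decide +kernel)))
          (CovZ.n1 (320, 28800) (by decide +kernel)
           (CovZ.n2 (480, 28640) (by decide +kernel)
            (CovZ.n2 (320, 28640) (by decide +kernel)
             (CovZ.n2 (400, 28720) (by decide +kernel)
              (CovZ.leaf K2_ok TP_l7603 _)
              (CovZ.leaf K2_ok TP_l7604 _))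
             (CovZ.n1 (400, 28560) (by decide +kernel)
              (CovZ.leaf K2_ok TP_l7605 _)
              (CovZ.leaf K2_ok TP_l7606 _)))
            (CovZ.n1 (480, 28800) (by decide +kernel)
             (CovZ.badM (by decide +kernel))
             (CovZ.n1 (400, 28720) (by decide +kernel)
              (CovZ.leaf K2_ok TP_l7607 _)
              (CovZ.badM (by decide +kernel)))))
           (CovZ.n1 (160, 28640) (by decide +kernel)
            (CovZ.leaf K2_ok TP_l7608 _)
            (CovZ.n1 (320, 28640) (by decide +kernel)
             (CovZ.leaf K2_ok TP_l7609 _)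
             (CovZ.leaf K2_ok TP_l7610 _)))))))
       (CovZ.n1 (640, 29440) (by decide +kernel)
        (CovZ.badM (by decide +kernel))
        (CovZ.n1 (320, 29120) (by decide +kernel)
         (CovZ.n2 (320, 29440) (by decide +kernel)
          (CovZ.n2 (480, 29280) (by decide +kernel)
           (CovZ.n2 (320, 29280) (by decide +kernel)
            (CovZ.leaf K2_ok TP_l2363 _)
            (CovZ.leaf K2_ok TP_l2364 _))
           (CovZ.n1 (480, 29440) (by decide +kernel)
            (CovZ.n2 (560, 29360) (by decide +kernel)
             (CovZ.leaf K2_ok TP_l2365 _)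
             (CovZ.leaf K2_ok TP_l2366 _))
            (CovZ.leaf K2_ok TP_l2367 _)))
          (CovZ.leaf K2_ok TP_l2368 _))
         (CovZ.n1 (640, 29120) (by decide +kernel)
          (CovZ.n2 (480, 28960) (by decide +kernel)
           (CovZ.n2 (480, 29120) (by decide +kernel)
            (CovZ.n2 (560, 29040) (by decide +kernel)
             (CovZ.leaf K2_ok TP_l2369 _)
             (CovZ.leaf K2_ok TP_l2370 _))
            (CovZ.leaf K2_ok TP_l2371 _))
           (CovZ.n1 (640, 28960) (by decide +kernel)
            (CovZ.badM (by decide +kernel))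
            (CovZ.n1 (560, 29040) (by decide +kernel)
             (CovZ.badM (by decide +kernel))
             (CovZ.leaf K2_ok TP_l2372 _))))
          (CovZ.n1 (480, 29280) (by decide +kernel)
           (CovZ.subM 1547425122894264588415533056 (by decide +kernel)
            (CovZ.n2 (640, 29280) (by decide +kernel)
             (CovZ.n2 (560, 29200) (by decide +kernel)
              (CovZ.leaf K2_ok TP_l2373 _)
              (CovZ.badM (by decide +kernel)))
             (CovZ.n1 (560, 29360) (by decide +kernel)
              (CovZ.badM (by decide +kernel))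
              (CovZ.leaf K2_ok TP_l2374 _))))
           (CovZ.n1 (480, 29120) (by decide +kernel)
            (CovZ.leaf K2_ok TP_l2375 _)
            (CovZ.n1 (560, 29200) (by decide +kernel)
             (CovZ.leaf K2_ok TP_l2376 _)
             (CovZ.leaf K2_ok TP_l2377 _))))))))))
    (CovZ.n1 (1280, 30720) (by decide +kernel)
     (CovZ.badM (by decide +kernel))
     (CovZ.n1 (640, 30080) (by decide +kernel)
      (CovZ.n2 (640, 30720) (by decide +kernel)
       (CovZ.badM (by decide +kernel))
       (CovZ.n1 (320, 30400) (by decide +kernel)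
        (CovZ.n2 (320, 30720) (by decide +kernel)
         (CovZ.n2 (480, 30560) (by decide +kernel)
          (CovZ.leaf K2_ok TP_l2378 _)
          (CovZ.leaf K2_ok TP_l2379 _))
         (CovZ.leaf K2_ok TP_l2380 _))
        (CovZ.n1 (640, 30400) (by decide +kernel)
         (CovZ.n2 (480, 30240) (by decide +kernel)
          (CovZ.leaf K2_ok TP_l2381 _)
          (CovZ.n1 (640, 30240) (by decide +kernel)
           (CovZ.leaf K2_ok TP_l2382 _)
           (CovZ.leaf K2_ok TP_l2383 _)))
         (CovZ.n1 (480, 30560) (by decide +kernel)
          (CovZ.n2 (640, 30560) (by decide +kernel)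
           (CovZ.leaf K2_ok TP_l2384 _)
           (CovZ.leaf K2_ok TP_l2385 _))
          (CovZ.leaf K2_ok TP_l2386 _)))))
      (CovZ.badM (by decide +kernel))))))

theorem TP_s2_13 : SqZ TP_M TP_L [0, 7, 2, 5] (-2560) (-5120) 2560 2 13 :=
  SqZ.mk (a := 2560) (b := 5120) (c := 28160) (d := 30720) (by norm_num) (by norm_num) (by norm_num) (by norm_num)
    (CovZ.topM TP_LL 0 (by decide +kernel) (CovZ.badM (by decide +kernel)))
    (CovZ.topM TP_LL 0 (by decide +kernel) (CovZ.badM (by decide +kernel)))

theorem TP_s3_13 : SqZ TP_M TP_L [0, 7, 2, 5] (-2560) (-5120) 2560 3 13 :=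
  SqZ.mk (a := 5120) (b := 7680) (c := 28160) (d := 30720) (by norm_num) (by norm_num) (by norm_num) (by norm_num)
    (CovZ.topM TP_LL 0 (by decide +kernel) (CovZ.badM (by decide +kernel)))
    (CovZ.topM TP_LL 0 (by decide +kernel) (CovZ.badM (by decide +kernel)))

theorem TP_s4_13 : SqZ TP_M TP_L [0, 7, 2, 5] (-2560) (-5120) 2560 4 13 :=
  SqZ.mk (a := 7680) (b := 10240) (c := 28160) (d := 30720) (by norm_num) (by norm_num) (by norm_num) (by norm_num)
    (CovZ.topM TP_LL 0 (by decide +kernel) (CovZ.badM (by decide +kernel)))
    (CovZ.topM TP_LL 0 (by decide +kernel) (CovZ.badM (by decide +kernel)))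

theorem TP_s5_13 : SqZ TP_M TP_L [0, 7, 2, 5] (-2560) (-5120) 2560 5 13 :=
  SqZ.mk (a := 10240) (b := 12800) (c := 28160) (d := 30720) (by norm_num) (by norm_num) (by norm_num) (by norm_num)
    (CovZ.topM TP_LL 0 (by decide +kernel) (CovZ.badM (by decide +kernel)))
    (CovZ.topM TP_LL 0 (by decide +kernel) (CovZ.badM (by decide +kernel)))

theorem TP_s6_13 : SqZ TP_M TP_L [0, 7, 2, 5] (-2560) (-5120) 2560 6 13 :=
  SqZ.mk (a := 12800) (b := 15360) (c := 28160) (d := 30720) (by norm_num) (by norm_num) (by norm_num) (by norm_num)
    (CovZ.topM TP_LL 149879795873768013824 (by decide +kernel) (CovZ.n2 (14080, 29440) (by decide +kernel)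
    (CovZ.n2 (15360, 29440) (by decide +kernel)
     (CovZ.badM (by decide +kernel))
     (CovZ.n1 (14720, 30080) (by decide +kernel)
      (CovZ.n2 (15360, 30080) (by decide +kernel)
       (CovZ.n2 (15040, 29760) (by decide +kernel)
        (CovZ.n2 (15040, 30080) (by decide +kernel)
         (CovZ.n2 (15200, 29920) (by decide +kernel)
          (CovZ.n2 (15040, 29920) (by decide +kernel)
           (CovZ.n2 (15120, 30000) (by decide +kernel)
            (CovZ.leaf K2_ok TP_l8064 _)
            (CovZ.leaf K2_ok TP_l8065 _))
           (CovZ.badM (by decide +kernel)))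
          (CovZ.n1 (15200, 30080) (by decide +kernel)
           (CovZ.n2 (15280, 30000) (by decide +kernel)
            (CovZ.leaf K2_ok TP_l8066 _)
            (CovZ.leaf K2_ok TP_l8067 _))
           (CovZ.n1 (15120, 30000) (by decide +kernel)
            (CovZ.leaf K2_ok TP_l8068 _)
            (CovZ.leaf K2_ok TP_l8069 _))))
         (CovZ.badM (by decide +kernel)))
        (CovZ.n1 (15360, 29760) (by decide +kernel)
         (CovZ.badM (by decide +kernel))
         (CovZ.n1 (15200, 29920) (by decide +kernel)
          (CovZ.n2 (15360, 29920) (by decide +kernel)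
           (CovZ.badM (by decide +kernel))
           (CovZ.n1 (15280, 30000) (by decide +kernel)
            (CovZ.leaf K2_ok TP_l8070 _)
            (CovZ.leaf K2_ok TP_l8071 _)))
          (CovZ.badM (by decide +kernel)))))
       (CovZ.n1 (15040, 30400) (by decide +kernel)
        (CovZ.n2 (15360, 30400) (by decide +kernel)
         (CovZ.n2 (15200, 30240) (by decide +kernel)
          (CovZ.n2 (15200, 30400) (by decide +kernel)
           (CovZ.leaf K2_ok TP_l8072 _)
           (CovZ.n1 (15120, 30320) (by decide +kernel)
            (CovZ.leaf K2_ok TP_l8073 _)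
            (CovZ.leaf K2_ok TP_l8074 _)))
          (CovZ.n1 (15360, 30240) (by decide +kernel)
           (CovZ.leaf K2_ok TP_l8075 _)
           (CovZ.leaf K2_ok TP_l8076 _)))
         (CovZ.n1 (15200, 30560) (by decide +kernel)
          (CovZ.leaf K2_ok TP_l8077 _)
          (CovZ.leaf K2_ok TP_l8078 _)))
        (CovZ.n1 (15040, 30080) (by decide +kernel)
         (CovZ.n2 (14880, 30240) (by decide +kernel)
          (CovZ.n2 (15040, 30240) (by decide +kernel)
           (CovZ.badM (by decide +kernel))
           (CovZ.n1 (14960, 30320) (by decide +kernel)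
            (CovZ.leaf K2_ok TP_l8079 _)
            (CovZ.leaf K2_ok TP_l8080 _)))
          (CovZ.badM (by decide +kernel)))
         (CovZ.n1 (15200, 30240) (by decide +kernel)
          (CovZ.n2 (15200, 30080) (by decide +kernel)
           (CovZ.n2 (15120, 30160) (by decide +kernel)
            (CovZ.leaf K2_ok TP_l8081 _)
            (CovZ.leaf K2_ok TP_l8082 _))
           (CovZ.leaf K2_ok TP_l8083 _))
          (CovZ.n1 (15040, 30240) (by decide +kernel)
           (CovZ.leaf K2_ok TP_l8084 _)
           (CovZ.n1 (15120, 30160) (by decide +kernel)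
            (CovZ.leaf K2_ok TP_l8085 _)
            (CovZ.leaf K2_ok TP_l8086 _)))))))
      (CovZ.n1 (14720, 29440) (by decide +kernel)
       (CovZ.badM (by decide +kernel))
       (CovZ.n1 (15040, 29760) (by decide +kernel)
        (CovZ.badM (by decide +kernel))
        (CovZ.badM (by decide +kernel))))))
    (CovZ.badM (by decide +kernel))))
    (CovZ.topM TP_LL 149879795873768013824 (by decide +kernel) (CovZ.n0 (14080, 29440) (by decide +kernel)
    (CovZ.badM (by decide +kernel))
    (CovZ.n1 (14080, 30720) (by decide +kernel)
     (CovZ.n2 (14720, 30080) (by decide +kernel)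
      (CovZ.badM (by decide +kernel))
      (CovZ.n1 (14720, 30720) (by decide +kernel)
       (CovZ.n2 (15040, 30400) (by decide +kernel)
        (CovZ.n2 (14720, 30400) (by decide +kernel)
         (CovZ.n2 (14880, 30560) (by decide +kernel)
          (CovZ.n2 (14880, 30400) (by decide +kernel)
           (CovZ.badM (by decide +kernel))
           (CovZ.n1 (14960, 30480) (by decide +kernel)
            (CovZ.leaf K2_ok TP_l8087 _)
            (CovZ.badM (by decide +kernel))))
          (CovZ.badM (by decide +kernel)))
         (CovZ.n1 (14880, 30240) (by decide +kernel)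
          (CovZ.badM (by decide +kernel))
          (CovZ.n1 (14880, 30400) (by decide +kernel)
           (CovZ.n2 (14960, 30320) (by decide +kernel)
            (CovZ.badM (by decide +kernel))
            (CovZ.leaf K2_ok TP_l8088 _))
           (CovZ.badM (by decide +kernel)))))
        (CovZ.n1 (15040, 30720) (by decide +kernel)
         (CovZ.n2 (15200, 30560) (by decide +kernel)
          (CovZ.n2 (15040, 30560) (by decide +kernel)
           (CovZ.leaf K2_ok TP_l8089 _)
           (CovZ.leaf K2_ok TP_l8090 _))
          (CovZ.n1 (15200, 30720) (by decide +kernel)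
           (CovZ.leaf K2_ok TP_l8091 _)
           (CovZ.leaf K2_ok TP_l8092 _)))
         (CovZ.n1 (14880, 30560) (by decide +kernel)
          (CovZ.n2 (14880, 30720) (by decide +kernel)
           (CovZ.n2 (14960, 30640) (by decide +kernel)
            (CovZ.badM (by decide +kernel))
            (CovZ.leaf K2_ok TP_l8093 _))
           (CovZ.badM (by decide +kernel)))
          (CovZ.n1 (15040, 30560) (by decide +kernel)
           (CovZ.n2 (14960, 30480) (by decide +kernel)
            (CovZ.leaf K2_ok TP_l8094 _)
            (CovZ.leaf K2_ok TP_l8095 _))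
           (CovZ.n1 (14960, 30640) (by decide +kernel)
            (CovZ.leaf K2_ok TP_l8096 _)
            (CovZ.leaf K2_ok TP_l8097 _))))))
       (CovZ.badM (by decide +kernel))))
     (CovZ.badM (by decide +kernel)))))

theorem TP_s0_14 : SqZ TP_M TP_L [0, 7, 2, 5] (-2560) (-5120) 2560 0 14 :=
  SqZ.mk (a := (-2560)) (b := 0) (c := 30720) (d := 33280) (by norm_num) (by norm_num) (by norm_num) (by norm_num)
    (CovZ.topM TP_LL 718676358937023583478172899542982499238064 (by decide +kernel) (CovZ.n2 (-1280, 32000) (by decide +kernel)
    (CovZ.n2 (0, 32000) (by decide +kernel)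
     TP_u87
     (CovZ.subM 1237949493241718051044327424 (by decide +kernel)
      (CovZ.n1 (-640, 32640) (by decide +kernel)
       (CovZ.n2 (0, 32640) (by decide +kernel)
        (CovZ.n2 (-320, 32320) (by decide +kernel)
         (CovZ.badM (by decide +kernel))
         (CovZ.n1 (0, 32320) (by decide +kernel)
          (CovZ.n2 (-160, 32160) (by decide +kernel)
           (CovZ.n2 (-160, 32320) (by decide +kernel)
            (CovZ.leaf K2_ok TP_l871 _)
            (CovZ.badM (by decide +kernel)))
           (CovZ.n1 (0, 32160) (by decide +kernel)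
            (CovZ.leaf K2_ok TP_l872 _)
            (CovZ.leaf K2_ok TP_l873 _)))
          (CovZ.badM (by decide +kernel))))
        (CovZ.badM (by decide +kernel)))
       (CovZ.n1 (-640, 32000) (by decide +kernel)
        (CovZ.badM (by decide +kernel))
        (CovZ.n1 (-320, 32320) (by decide +kernel)
         (CovZ.n2 (-320, 32000) (by decide +kernel)
          (CovZ.badM (by decide +kernel))
          (CovZ.n1 (-160, 32160) (by decide +kernel)
           (CovZ.n2 (-160, 32000) (by decide +kernel)
            (CovZ.badM (by decide +kernel))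
            (CovZ.leaf K2_ok TP_l874 _))
           (CovZ.badM (by decide +kernel))))
         (CovZ.badM (by decide +kernel)))))))
    (CovZ.n1 (-1280, 30720) (by decide +kernel)
     (CovZ.badM (by decide +kernel))
     (CovZ.n1 (-640, 31360) (by decide +kernel)
      (CovZ.n2 (-640, 30720) (by decide +kernel)
       (CovZ.subM 16777392 (by decide +kernel)
        (CovZ.n2 (-960, 31040) (by decide +kernel)
         (CovZ.n2 (-640, 31040) (by decide +kernel)
          (CovZ.n2 (-800, 30880) (by decide +kernel)
           (CovZ.n2 (-800, 31040) (by decide +kernel)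
            (CovZ.n2 (-720, 30960) (by decide +kernel)
             (CovZ.n2 (-800, 30960) (by decide +kernel)
              (CovZ.n2 (-760, 31000) (by decide +kernel)
               (CovZ.n2 (-760, 30960) (by decide +kernel)
                (CovZ.badM (by decide +kernel))
                (CovZ.leaf K2_ok TP_l6531 _))
               (CovZ.badM (by decide +kernel)))
              (CovZ.n1 (-760, 30920) (by decide +kernel)
               (CovZ.n2 (-800, 30920) (by decide +kernel)
                (CovZ.badM (by decide +kernel))
                (CovZ.leaf K2_ok TP_l6532 _))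
               (CovZ.n1 (-760, 30960) (by decide +kernel)
                (CovZ.leaf K2_ok TP_l6533 _)
                (CovZ.badM (by decide +kernel)))))
             (CovZ.n1 (-720, 31040) (by decide +kernel)
              (CovZ.leaf K2_ok TP_l6534 _)
              (CovZ.n1 (-760, 31000) (by decide +kernel)
               (CovZ.n2 (-760, 31040) (by decide +kernel)
                (CovZ.leaf K2_ok TP_l6535 _)
                (CovZ.badM (by decide +kernel)))
               (CovZ.n1 (-720, 31000) (by decide +kernel)
                (CovZ.leaf K2_ok TP_l6536 _)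
                (CovZ.leaf K2_ok TP_l6537 _)))))
            (CovZ.badM (by decide +kernel)))
           (CovZ.n1 (-640, 30880) (by decide +kernel)
            (CovZ.n2 (-720, 30800) (by decide +kernel)
             (CovZ.n2 (-720, 30880) (by decide +kernel)
              (CovZ.leaf K2_ok TP_l6538 _)
              (CovZ.n1 (-760, 30840) (by decide +kernel)
               (CovZ.leaf K2_ok TP_l6539 _)
               (CovZ.leaf K2_ok TP_l6540 _)))
             (CovZ.n1 (-640, 30800) (by decide +kernel)
              (CovZ.leaf K2_ok TP_l6541 _)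
              (CovZ.leaf K2_ok TP_l6542 _)))
            (CovZ.n1 (-720, 30960) (by decide +kernel)
             (CovZ.n2 (-640, 30960) (by decide +kernel)
              (CovZ.leaf K2_ok TP_l6543 _)
              (CovZ.leaf K2_ok TP_l6544 _))
             (CovZ.n1 (-720, 30880) (by decide +kernel)
              (CovZ.n2 (-760, 30920) (by decide +kernel)
               (CovZ.leaf K2_ok TP_l6545 _)
               (CovZ.n1 (-760, 30880) (by decide +kernel)
                (CovZ.leaf K2_ok TP_l6546 _)
                (CovZ.leaf K2_ok TP_l6547 _)))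
              (CovZ.leaf K2_ok TP_l6548 _)))))
          (CovZ.n1 (-800, 31200) (by decide +kernel)
           (CovZ.n2 (-640, 31200) (by decide +kernel)
            (CovZ.n2 (-720, 31120) (by decide +kernel)
             (CovZ.n2 (-720, 31200) (by decide +kernel)
              (CovZ.n2 (-680, 31160) (by decide +kernel)
               (CovZ.n2 (-720, 31160) (by decide +kernel)
                (CovZ.badM (by decide +kernel))
                (CovZ.leaf K2_ok TP_l6549 _))
               (CovZ.n1 (-680, 31200) (by decide +kernel)
                (CovZ.leaf K2_ok TP_l6550 _)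
                (CovZ.badM (by decide +kernel))))
              (CovZ.badM (by decide +kernel)))
             (CovZ.n1 (-640, 31120) (by decide +kernel)
              (CovZ.n2 (-680, 31080) (by decide +kernel)
               (CovZ.leaf K2_ok TP_l6551 _)
               (CovZ.leaf K2_ok TP_l6552 _))
              (CovZ.n1 (-680, 31160) (by decide +kernel)
               (CovZ.n2 (-640, 31160) (by decide +kernel)
                (CovZ.leaf K2_ok TP_l6553 _)
                (CovZ.leaf K2_ok TP_l6554 _))
               (CovZ.n1 (-680, 31120) (by decide +kernel)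
                (CovZ.leaf K2_ok TP_l6555 _)
                (CovZ.leaf K2_ok TP_l6556 _)))))
            (CovZ.n1 (-720, 31280) (by decide +kernel)
             (CovZ.n2 (-640, 31280) (by decide +kernel)
              (CovZ.n2 (-680, 31240) (by decide +kernel)
               (CovZ.badM (by decide +kernel))
               (CovZ.n1 (-640, 31240) (by decide +kernel)
                (CovZ.leaf K2_ok TP_l6557 _)
                (CovZ.badM (by decide +kernel))))
              (CovZ.badM (by decide +kernel)))
             (CovZ.n1 (-720, 31200) (by decide +kernel)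
              (CovZ.badM (by decide +kernel))
              (CovZ.n1 (-680, 31240) (by decide +kernel)
               (CovZ.n2 (-680, 31200) (by decide +kernel)
                (CovZ.badM (by decide +kernel))
                (CovZ.leaf K2_ok TP_l6558 _))
               (CovZ.badM (by decide +kernel))))))
           (CovZ.n1 (-800, 31040) (by decide +kernel)
            (CovZ.badM (by decide +kernel))
            (CovZ.n1 (-720, 31120) (by decide +kernel)
             (CovZ.n2 (-720, 31040) (by decide +kernel)
              (CovZ.badM (by decide +kernel))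
              (CovZ.n1 (-680, 31080) (by decide +kernel)
               (CovZ.leaf K2_ok TP_l6559 _)
               (CovZ.leaf K2_ok TP_l6560 _)))
             (CovZ.badM (by decide +kernel))))))
         (CovZ.n1 (-960, 30720) (by decide +kernel)
          (CovZ.badM (by decide +kernel))
          (CovZ.n1 (-800, 30880) (by decide +kernel)
           (CovZ.n2 (-800, 30720) (by decide +kernel)
            (CovZ.badM (by decide +kernel))
            (CovZ.n1 (-720, 30800) (by decide +kernel)
             (CovZ.n2 (-720, 30720) (by decide +kernel)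
              (CovZ.n2 (-760, 30760) (by decide +kernel)
               (CovZ.leaf K2_ok TP_l6561 _)
               (CovZ.leaf K2_ok TP_l6562 _))
              (CovZ.leaf K2_ok TP_l6563 _))
             (CovZ.n1 (-800, 30800) (by decide +kernel)
              (CovZ.n2 (-760, 30840) (by decide +kernel)
               (CovZ.leaf K2_ok TP_l6564 _)
               (CovZ.n1 (-800, 30840) (by decide +kernel)
                (CovZ.leaf K2_ok TP_l6565 _)
                (CovZ.leaf K2_ok TP_l6566 _)))
              (CovZ.n1 (-760, 30760) (by decide +kernel)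
               (CovZ.leaf K2_ok TP_l6567 _)
               (CovZ.n1 (-760, 30800) (by decide +kernel)
                (CovZ.leaf K2_ok TP_l6568 _)
                (CovZ.leaf K2_ok TP_l6569 _))))))
           (CovZ.badM (by decide +kernel))))))
       (CovZ.n1 (-320, 31040) (by decide +kernel)
        (CovZ.n2 (-320, 30720) (by decide +kernel)
         (CovZ.n2 (-480, 30880) (by decide +kernel)
          (CovZ.n2 (-320, 30880) (by decide +kernel)
           (CovZ.leaf K2_ok TP_l875 _)
           (CovZ.leaf K2_ok TP_l876 _))
          (CovZ.n1 (-480, 30720) (by decide +kernel)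
           (CovZ.n2 (-560, 30800) (by decide +kernel)
            (CovZ.leaf K2_ok TP_l877 _)
            (CovZ.leaf K2_ok TP_l878 _))
           (CovZ.leaf K2_ok TP_l879 _)))
         (CovZ.n1 (-160, 30880) (by decide +kernel)
          (CovZ.leaf K2_ok TP_l880 _)
          (CovZ.leaf K2_ok TP_l881 _)))
        (CovZ.n1 (-640, 31040) (by decide +kernel)
         (CovZ.n2 (-480, 31200) (by decide +kernel)
          (CovZ.n2 (-480, 31040) (by decide +kernel)
           (CovZ.n2 (-560, 31120) (by decide +kernel)
            (CovZ.leaf K2_ok TP_l882 _)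
            (CovZ.leaf K2_ok TP_l883 _))
           (CovZ.leaf K2_ok TP_l884 _))
          (CovZ.subM 1209022665021018314113040 (by decide +kernel)
           (CovZ.n1 (-640, 31200) (by decide +kernel)
            (CovZ.n2 (-560, 31280) (by decide +kernel)
             (CovZ.n2 (-560, 31200) (by decide +kernel)
              (CovZ.leaf K2_ok TP_l885 _)
              (CovZ.leaf K2_ok TP_l886 _))
             (CovZ.subM 23058430094301200384 (by decide +kernel)
              (CovZ.n1 (-640, 31280) (by decide +kernel)
               (CovZ.n2 (-600, 31320) (by decide +kernel)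
                (CovZ.leaf K2_ok TP_l887 _)
                (CovZ.n1 (-640, 31320) (by decide +kernel)
                 (CovZ.leaf K2_ok TP_l888 _)
                 (CovZ.leaf K2_ok TP_l889 _)))
               (CovZ.leaf K2_ok TP_l890 _))))
            (CovZ.n1 (-560, 31120) (by decide +kernel)
             (CovZ.n2 (-640, 31120) (by decide +kernel)
              (CovZ.leaf K2_ok TP_l891 _)
              (CovZ.leaf K2_ok TP_l892 _))
             (CovZ.n1 (-560, 31200) (by decide +kernel)
              (CovZ.leaf K2_ok TP_l893 _)
              (CovZ.leaf K2_ok TP_l894 _))))))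
         (CovZ.n1 (-480, 30880) (by decide +kernel)
          (CovZ.subM 1209022665021018314113200 (by decide +kernel)
           (CovZ.n2 (-640, 30880) (by decide +kernel)
            (CovZ.n2 (-560, 30960) (by decide +kernel)
             (CovZ.leaf K2_ok TP_l895 _)
             (CovZ.leaf K2_ok TP_l896 _))
            (CovZ.n1 (-560, 30800) (by decide +kernel)
             (CovZ.leaf K2_ok TP_l897 _)
             (CovZ.leaf K2_ok TP_l898 _))))
          (CovZ.n1 (-480, 31040) (by decide +kernel)
           (CovZ.leaf K2_ok TP_l899 _)
           (CovZ.n1 (-560, 30960) (by decide +kernel)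
            (CovZ.leaf K2_ok TP_l900 _)
            (CovZ.leaf K2_ok TP_l901 _)))))))
      (CovZ.subM 16777392 (by decide +kernel)
       (CovZ.n1 (-1280, 31360) (by decide +kernel)
        (CovZ.badM (by decide +kernel))
        (CovZ.n1 (-960, 31040) (by decide +kernel)
         (CovZ.badM (by decide +kernel))
         (CovZ.n1 (-960, 31360) (by decide +kernel)
          (CovZ.n2 (-800, 31200) (by decide +kernel)
           (CovZ.badM (by decide +kernel))
           (CovZ.n1 (-800, 31360) (by decide +kernel)
            (CovZ.n2 (-720, 31280) (by decide +kernel)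
             (CovZ.badM (by decide +kernel))
             (CovZ.badM (by decide +kernel)))
            (CovZ.badM (by decide +kernel))))
          (CovZ.badM (by decide +kernel))))))))))
    (CovZ.topM TP_LL 718676358937023583478172899542982499238064 (by decide +kernel) (CovZ.n0 (-1280, 32000) (by decide +kernel)
    (CovZ.badM (by decide +kernel))
    (CovZ.n1 (-1280, 33280) (by decide +kernel)
     (CovZ.n2 (-640, 32640) (by decide +kernel)
      (CovZ.badM (by decide +kernel))
      (CovZ.badM (by decide +kernel)))
     (CovZ.badM (by decide +kernel)))))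

theorem TP_s1_14 : SqZ TP_M TP_L [0, 7, 2, 5] (-2560) (-5120) 2560 1 14 :=
  SqZ.mk (a := 0) (b := 2560) (c := 30720) (d := 33280) (by norm_num) (by norm_num) (by norm_num) (by norm_num)
    (CovZ.topM TP_LL 718676358937023583478172899542982499238064 (by decide +kernel) (CovZ.n2 (1280, 32000) (by decide +kernel)
    (CovZ.badM (by decide +kernel))
    (CovZ.n1 (1280, 30720) (by decide +kernel)
     (CovZ.n2 (640, 31360) (by decide +kernel)
      (CovZ.badM (by decide +kernel))
      (CovZ.n1 (640, 30720) (by decide +kernel)
       (CovZ.n2 (320, 31040) (by decide +kernel)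
        (CovZ.n2 (640, 31040) (by decide +kernel)
         (CovZ.n2 (480, 30880) (by decide +kernel)
          (CovZ.leaf K2_ok TP_l2387 _)
          (CovZ.n1 (640, 30880) (by decide +kernel)
           (CovZ.leaf K2_ok TP_l2388 _)
           (CovZ.leaf K2_ok TP_l2389 _)))
         (CovZ.n1 (480, 31200) (by decide +kernel)
          (CovZ.n2 (640, 31200) (by decide +kernel)
           (CovZ.leaf K3_ok TP_l2390 _)
           (CovZ.leaf K2_ok TP_l2391 _))
          (CovZ.leaf K3_ok TP_l2392 _)))
        (CovZ.n1 (320, 30720) (by decide +kernel)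
         (CovZ.leaf K2_ok TP_l2393 _)
         (CovZ.n1 (480, 30880) (by decide +kernel)
          (CovZ.leaf K2_ok TP_l2394 _)
          (CovZ.leaf K2_ok TP_l2395 _))))
       (CovZ.badM (by decide +kernel))))
     (CovZ.badM (by decide +kernel)))))
    (CovZ.topM TP_LL 718676358937023583478172899542982499238064 (by decide +kernel) (CovZ.n0 (1280, 32000) (by decide +kernel)
    (CovZ.n2 (0, 32000) (by decide +kernel)
     (CovZ.subM 1237949493241718051044327424 (by decide +kernel)
      (CovZ.n2 (640, 32640) (by decide +kernel)
       (CovZ.n2 (640, 32000) (by decide +kernel)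
        (CovZ.n2 (320, 32320) (by decide +kernel)
         (CovZ.n2 (640, 32320) (by decide +kernel)
          (CovZ.n2 (480, 32160) (by decide +kernel)
           (CovZ.n2 (480, 32320) (by decide +kernel)
            (CovZ.badM (by decide +kernel))
            (CovZ.leaf K2_ok TP_l2396 _))
           (CovZ.n1 (640, 32160) (by decide +kernel)
            (CovZ.n2 (560, 32080) (by decide +kernel)
             (CovZ.leaf K2_ok TP_l7611 _)
             (CovZ.badM (by decide +kernel)))
            (CovZ.badM (by decide +kernel))))
          (CovZ.badM (by decide +kernel)))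
         (CovZ.n1 (320, 32000) (by decide +kernel)
          (CovZ.n2 (160, 32160) (by decide +kernel)
           (CovZ.leaf K2_ok TP_l2397 _)
           (CovZ.leaf K2_ok TP_l2398 _))
          (CovZ.n1 (480, 32160) (by decide +kernel)
           (CovZ.n2 (480, 32000) (by decide +kernel)
            (CovZ.leaf K2_ok TP_l2399 _)
            (CovZ.n1 (560, 32080) (by decide +kernel)
             (CovZ.leaf K2_ok TP_l7612 _)
             (CovZ.leaf K2_ok TP_l7613 _)))
           (CovZ.n1 (320, 32160) (by decide +kernel)
            (CovZ.leaf K2_ok TP_l2400 _)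
            (CovZ.leaf K2_ok TP_l2401 _)))))
        (CovZ.badM (by decide +kernel)))
       (CovZ.n1 (0, 32640) (by decide +kernel)
        (CovZ.badM (by decide +kernel))
        (CovZ.n1 (320, 32320) (by decide +kernel)
         (CovZ.n2 (0, 32320) (by decide +kernel)
          (CovZ.badM (by decide +kernel))
          (CovZ.n1 (160, 32160) (by decide +kernel)
           (CovZ.leaf K2_ok TP_l2402 _)
           (CovZ.leaf K2_ok TP_l2403 _)))
         (CovZ.badM (by decide +kernel))))))
     (CovZ.n1 (640, 31360) (by decide +kernel)
      (CovZ.n2 (0, 31360) (by decide +kernel)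
       (CovZ.n2 (320, 31680) (by decide +kernel)
        (CovZ.n2 (320, 31360) (by decide +kernel)
         (CovZ.leaf K2_ok TP_l2404 _)
         (CovZ.n1 (480, 31520) (by decide +kernel)
          (CovZ.leaf K2_ok TP_l2405 _)
          (CovZ.leaf K2_ok TP_l2406 _)))
        (CovZ.n1 (0, 31680) (by decide +kernel)
         (CovZ.leaf K2_ok TP_l2407 _)
         (CovZ.leaf K2_ok TP_l2408 _)))
       (CovZ.n1 (320, 31040) (by decide +kernel)
        (CovZ.n2 (0, 31040) (by decide +kernel)
         (CovZ.leaf K2_ok TP_l2409 _)
         (CovZ.leaf K2_ok TP_l2410 _))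
        (CovZ.n1 (320, 31360) (by decide +kernel)
         (CovZ.n2 (480, 31200) (by decide +kernel)
          (CovZ.leaf K2_ok TP_l2411 _)
          (CovZ.leaf K2_ok TP_l2412 _))
         (CovZ.leaf K2_ok TP_l2413 _))))
      (CovZ.n1 (640, 32000) (by decide +kernel)
       (CovZ.badM (by decide +kernel))
       (CovZ.n1 (320, 31680) (by decide +kernel)
        (CovZ.subM 718676358937023582269150234521964185124864 (by decide +kernel)
         (CovZ.n2 (320, 32000) (by decide +kernel)
          (CovZ.n2 (480, 31840) (by decide +kernel)
           (CovZ.leaf K2_ok TP_l2414 _)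
           (CovZ.n1 (480, 32000) (by decide +kernel)
            (CovZ.leaf K2_ok TP_l2415 _)
            (CovZ.leaf K2_ok TP_l2416 _)))
          (CovZ.leaf K2_ok TP_l2417 _)))
        (CovZ.n1 (640, 31680) (by decide +kernel)
         (CovZ.n2 (480, 31520) (by decide +kernel)
          (CovZ.leaf K2_ok TP_l2418 _)
          (CovZ.n1 (640, 31520) (by decide +kernel)
           (CovZ.leaf K2_ok TP_l2419 _)
           (CovZ.leaf K2_ok TP_l2420 _)))
         (CovZ.n1 (480, 31840) (by decide +kernel)
          (CovZ.n2 (640, 31840) (by decide +kernel)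
           (CovZ.leaf K2_ok TP_l2421 _)
           (CovZ.leaf K2_ok TP_l2422 _))
          (CovZ.leaf K2_ok TP_l2423 _)))))))
    (CovZ.n1 (1280, 33280) (by decide +kernel)
     (CovZ.badM (by decide +kernel))
     (CovZ.n1 (640, 32640) (by decide +kernel)
      (CovZ.badM (by decide +kernel))
      (CovZ.badM (by decide +kernel))))))

theorem TP_s2_14 : SqZ TP_M TP_L [0, 7, 2, 5] (-2560) (-5120) 2560 2 14 :=
  SqZ.mk (a := 2560) (b := 5120) (c := 30720) (d := 33280) (by norm_num) (by norm_num) (by norm_num) (by norm_num)
    (CovZ.topM TP_LL 0 (by decide +kernel) (CovZ.badM (by decide +kernel)))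
    (CovZ.topM TP_LL 0 (by decide +kernel) (CovZ.badM (by decide +kernel)))

theorem TP_s3_14 : SqZ TP_M TP_L [0, 7, 2, 5] (-2560) (-5120) 2560 3 14 :=
  SqZ.mk (a := 5120) (b := 7680) (c := 30720) (d := 33280) (by norm_num) (by norm_num) (by norm_num) (by norm_num)
    (CovZ.topM TP_LL 0 (by decide +kernel) (CovZ.badM (by decide +kernel)))
    (CovZ.topM TP_LL 0 (by decide +kernel) (CovZ.badM (by decide +kernel)))

theorem TP_s4_14 : SqZ TP_M TP_L [0, 7, 2, 5] (-2560) (-5120) 2560 4 14 :=
  SqZ.mk (a := 7680) (b := 10240) (c := 30720) (d := 33280) (by norm_num) (by norm_num) (by norm_num) (by norm_num)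
    (CovZ.topM TP_LL 0 (by decide +kernel) (CovZ.badM (by decide +kernel)))
    (CovZ.topM TP_LL 0 (by decide +kernel) (CovZ.badM (by decide +kernel)))

theorem TP_s5_14 : SqZ TP_M TP_L [0, 7, 2, 5] (-2560) (-5120) 2560 5 14 :=
  SqZ.mk (a := 10240) (b := 12800) (c := 30720) (d := 33280) (by norm_num) (by norm_num) (by norm_num) (by norm_num)
    (CovZ.topM TP_LL 0 (by decide +kernel) (CovZ.badM (by decide +kernel)))
    (CovZ.topM TP_LL 0 (by decide +kernel) (CovZ.badM (by decide +kernel)))

theorem TP_s6_14 : SqZ TP_M TP_L [0, 7, 2, 5] (-2560) (-5120) 2560 6 14 :=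
  SqZ.mk (a := 12800) (b := 15360) (c := 30720) (d := 33280) (by norm_num) (by norm_num) (by norm_num) (by norm_num)
    (CovZ.topM TP_LL 149879795873768013824 (by decide +kernel) (CovZ.n2 (14080, 32000) (by decide +kernel)
    (CovZ.n2 (15360, 32000) (by decide +kernel)
     (CovZ.n2 (14720, 31360) (by decide +kernel)
      (CovZ.badM (by decide +kernel))
      (CovZ.n1 (15360, 31360) (by decide +kernel)
       (CovZ.n2 (15040, 31040) (by decide +kernel)
        (CovZ.badM (by decide +kernel))
        (CovZ.n1 (15360, 31040) (by decide +kernel)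
         (CovZ.n2 (15200, 30880) (by decide +kernel)
          (CovZ.badM (by decide +kernel))
          (CovZ.n1 (15360, 30880) (by decide +kernel)
           (CovZ.leaf K2_ok TP_l8098 _)
           (CovZ.badM (by decide +kernel))))
         (CovZ.badM (by decide +kernel))))
       (CovZ.badM (by decide +kernel))))
     (CovZ.badM (by decide +kernel)))
    (CovZ.n1 (14080, 30720) (by decide +kernel)
     (CovZ.badM (by decide +kernel))
     (CovZ.n1 (14720, 31360) (by decide +kernel)
      (CovZ.n2 (14720, 30720) (by decide +kernel)
       (CovZ.badM (by decide +kernel))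
       (CovZ.n1 (15040, 31040) (by decide +kernel)
        (CovZ.n2 (15040, 30720) (by decide +kernel)
         (CovZ.n2 (14880, 30880) (by decide +kernel)
          (CovZ.n2 (15040, 30880) (by decide +kernel)
           (CovZ.n2 (14960, 30800) (by decide +kernel)
            (CovZ.n2 (14960, 30880) (by decide +kernel)
             (CovZ.n2 (15000, 30840) (by decide +kernel)
              (CovZ.badM (by decide +kernel))
              (CovZ.badM (by decide +kernel)))
             (CovZ.badM (by decide +kernel)))
            (CovZ.leaf K2_ok TP_l8099 _))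
           (CovZ.badM (by decide +kernel)))
          (CovZ.n1 (14880, 30720) (by decide +kernel)
           (CovZ.badM (by decide +kernel))
           (CovZ.n1 (14960, 30800) (by decide +kernel)
            (CovZ.leaf K2_ok TP_l8100 _)
            (CovZ.badM (by decide +kernel)))))
         (CovZ.n1 (15200, 30880) (by decide +kernel)
          (CovZ.leaf K2_ok TP_l8101 _)
          (CovZ.n1 (15040, 30880) (by decide +kernel)
           (CovZ.badM (by decide +kernel))
           (CovZ.leaf K2_ok TP_l8102 _))))
        (CovZ.n1 (14720, 31040) (by decide +kernel)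
         (CovZ.badM (by decide +kernel))
         (CovZ.n1 (14880, 30880) (by decide +kernel)
          (CovZ.badM (by decide +kernel))
          (CovZ.badM (by decide +kernel))))))
      (CovZ.badM (by decide +kernel))))))
    (CovZ.topM TP_LL 149879795873768013824 (by decide +kernel) (CovZ.n0 (14080, 32000) (by decide +kernel)
    (CovZ.badM (by decide +kernel))
    (CovZ.badM (by decide +kernel))))

end Pool.Agent.TET
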