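import Pool.Agent.Helper38_TET.RegZ
import Pool.Agent.Helper38_TET.TP_S0
import Pool.Agent.Helper38_TET.TP_S1
import Pool.Agent.Helper38_TET.TP_S2

/-!
# MP_c7c9bf_co: certificates, family TP
-/

set_option autoImplicit false
set_option maxRecDepth 100000

namespace Pool.Agent.TET

theorem TP_r0 : ∀ i < 7, SqZ TP_M TP_L [0, 7, 2, 5] (-2560) (-5120) 2560 i 0
  | 0, _ => TP_s0_0
  | 1, _ => TP_s1_0
  | 2, _ => TP_s2_0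
  | 3, _ => TP_s3_0
  | 4, _ => TP_s4_0
  | 5, _ => TP_s5_0
  | 6, _ => TP_s6_0
  | n + 7, h => absurd h (by omega)

theorem TP_r1 : ∀ i < 7, SqZ TP_M TP_L [0, 7, 2, 5] (-2560) (-5120) 2560 i 1
  | 0, _ => TP_s0_1
  | 1, _ => TP_s1_1
  | 2, _ => TP_s2_1
  | 3, _ => TP_s3_1
  | 4, _ => TP_s4_1
  | 5, _ => TP_s5_1
  | 6, _ => TP_s6_1
  | n + 7, h => absurd h (by omega)

theorem TP_r2 : ∀ i < 7, SqZ TP_M TP_L [0, 7, 2, 5] (-2560) (-5120) 2560 i 2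
  | 0, _ => TP_s0_2
  | 1, _ => TP_s1_2
  | 2, _ => TP_s2_2
  | 3, _ => TP_s3_2
  | 4, _ => TP_s4_2
  | 5, _ => TP_s5_2
  | 6, _ => TP_s6_2
  | n + 7, h => absurd h (by omega)

theorem TP_r3 : ∀ i < 7, SqZ TP_M TP_L [0, 7, 2, 5] (-2560) (-5120) 2560 i 3
  | 0, _ => TP_s0_3
  | 1, _ => TP_s1_3
  | 2, _ => TP_s2_3
  | 3, _ => TP_s3_3
  | 4, _ => TP_s4_3
  | 5, _ => TP_s5_3
  | 6, _ => TP_s6_3
  | n + 7, h => absurd h (by omega)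

theorem TP_r4 : ∀ i < 7, SqZ TP_M TP_L [0, 7, 2, 5] (-2560) (-5120) 2560 i 4
  | 0, _ => TP_s0_4
  | 1, _ => TP_s1_4
  | 2, _ => TP_s2_4
  | 3, _ => TP_s3_4
  | 4, _ => TP_s4_4
  | 5, _ => TP_s5_4
  | 6, _ => TP_s6_4
  | n + 7, h => absurd h (by omega)

theorem TP_r5 : ∀ i < 7, SqZ TP_M TP_L [0, 7, 2, 5] (-2560) (-5120) 2560 i 5
  | 0, _ => TP_s0_5
  | 1, _ => TP_s1_5
  | 2, _ => TP_s2_5
  | 3, _ => TP_s3_5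
  | 4, _ => TP_s4_5
  | 5, _ => TP_s5_5
  | 6, _ => TP_s6_5
  | n + 7, h => absurd h (by omega)

theorem TP_r6 : ∀ i < 7, SqZ TP_M TP_L [0, 7, 2, 5] (-2560) (-5120) 2560 i 6
  | 0, _ => TP_s0_6
  | 1, _ => TP_s1_6
  | 2, _ => TP_s2_6
  | 3, _ => TP_s3_6
  | 4, _ => TP_s4_6
  | 5, _ => TP_s5_6
  | 6, _ => TP_s6_6
  | n + 7, h => absurd h (by omega)

theorem TP_r7 : ∀ i < 7, SqZ TP_M TP_L [0, 7, 2, 5] (-2560) (-5120) 2560 i 7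
  | 0, _ => TP_s0_7
  | 1, _ => TP_s1_7
  | 2, _ => TP_s2_7
  | 3, _ => TP_s3_7
  | 4, _ => TP_s4_7
  | 5, _ => TP_s5_7
  | 6, _ => TP_s6_7
  | n + 7, h => absurd h (by omega)

theorem TP_r8 : ∀ i < 7, SqZ TP_M TP_L [0, 7, 2, 5] (-2560) (-5120) 2560 i 8
  | 0, _ => TP_s0_8
  | 1, _ => TP_s1_8
  | 2, _ => TP_s2_8
  | 3, _ => TP_s3_8
  | 4, _ => TP_s4_8
  | 5, _ => TP_s5_8
  | 6, _ => TP_s6_8
  | n + 7, h => absurd h (by omega)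

theorem TP_r9 : ∀ i < 7, SqZ TP_M TP_L [0, 7, 2, 5] (-2560) (-5120) 2560 i 9
  | 0, _ => TP_s0_9
  | 1, _ => TP_s1_9
  | 2, _ => TP_s2_9
  | 3, _ => TP_s3_9
  | 4, _ => TP_s4_9
  | 5, _ => TP_s5_9
  | 6, _ => TP_s6_9
  | n + 7, h => absurd h (by omega)

theorem TP_r10 : ∀ i < 7, SqZ TP_M TP_L [0, 7, 2, 5] (-2560) (-5120) 2560 i 10
  | 0, _ => TP_s0_10
  | 1, _ => TP_s1_10
  | 2, _ => TP_s2_10
  | 3, _ => TP_s3_10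
  | 4, _ => TP_s4_10
  | 5, _ => TP_s5_10
  | 6, _ => TP_s6_10
  | n + 7, h => absurd h (by omega)

theorem TP_r11 : ∀ i < 7, SqZ TP_M TP_L [0, 7, 2, 5] (-2560) (-5120) 2560 i 11
  | 0, _ => TP_s0_11
  | 1, _ => TP_s1_11
  | 2, _ => TP_s2_11
  | 3, _ => TP_s3_11
  | 4, _ => TP_s4_11
  | 5, _ => TP_s5_11
  | 6, _ => TP_s6_11
  | n + 7, h => absurd h (by omega)

theorem TP_r12 : ∀ i < 7, SqZ TP_M TP_L [0, 7, 2, 5] (-2560) (-5120) 2560 i 12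
  | 0, _ => TP_s0_12
  | 1, _ => TP_s1_12
  | 2, _ => TP_s2_12
  | 3, _ => TP_s3_12
  | 4, _ => TP_s4_12
  | 5, _ => TP_s5_12
  | 6, _ => TP_s6_12
  | n + 7, h => absurd h (by omega)

theorem TP_r13 : ∀ i < 7, SqZ TP_M TP_L [0, 7, 2, 5] (-2560) (-5120) 2560 i 13
  | 0, _ => TP_s0_13
  | 1, _ => TP_s1_13
  | 2, _ => TP_s2_13
  | 3, _ => TP_s3_13
  | 4, _ => TP_s4_13
  | 5, _ => TP_s5_13
  | 6, _ => TP_s6_13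
  | n + 7, h => absurd h (by omega)

theorem TP_r14 : ∀ i < 7, SqZ TP_M TP_L [0, 7, 2, 5] (-2560) (-5120) 2560 i 14
  | 0, _ => TP_s0_14
  | 1, _ => TP_s1_14
  | 2, _ => TP_s2_14
  | 3, _ => TP_s3_14
  | 4, _ => TP_s4_14
  | 5, _ => TP_s5_14
  | 6, _ => TP_s6_14
  | n + 7, h => absurd h (by omega)

theorem TP_rows : ∀ j < 15, ∀ i < 7, SqZ TP_M TP_L [0, 7, 2, 5] (-2560) (-5120) 2560 i j
  | 0, _ => TP_r0
  | 1, _ => TP_r1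
  | 2, _ => TP_r2
  | 3, _ => TP_r3
  | 4, _ => TP_r4
  | 5, _ => TP_r5
  | 6, _ => TP_r6
  | 7, _ => TP_r7
  | 8, _ => TP_r8
  | 9, _ => TP_r9
  | 10, _ => TP_r10
  | 11, _ => TP_r11
  | 12, _ => TP_r12
  | 13, _ => TP_r13
  | 14, _ => TP_r14
  | n + 15, h => absurd h (by omega)

theorem TP_cov (X Y : ℝ) (h1 : ((-2560 : ℤ) : ℝ) ≤ X) (h2 : X ≤ (15360 : ℤ)) (h3 : ((-5120 : ℤ) : ℝ) ≤ Y)
    (h4 : Y ≤ (33280 : ℤ)) : Out TP_L X Y ∨ GoodV [0, 7, 2, 5] (TP_M.v X Y) := by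
  push_cast at h1 h2 h3 h4
  refine gridZ (by norm_num) (by norm_num) (by norm_num) TP_rows ?_ ?_ ?_ ?_ <;> push_cast <;> linarith

theorem TP_fr (x y : ℝ) : VP x y =
    TP_M.v (30720 * x / (1 : ℤ)) (30720 * y / (1 : ℤ)) := by
  funext i j
  fin_cases i <;> fin_cases j <;> simp [VP, FM.v, Z3.ev, TP_M] <;> ring

end Pool.Agent.TET
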