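import Pool.Agent.Helper38_TET.TP_C

/-!
# MP_c7c9bf_co: certificates, family TP
-/

set_option autoImplicit false
set_option maxRecDepth 100000

namespace Pool.Agent.TET

theorem TP_rg0 : ROK [.q ⟨-1, 1, 0, 0⟩ ⟨-931, -29, 960, 0⟩, .q ⟨-1, 1, 0, 0⟩ ⟨961, 959, -1920, 0⟩, .l ⟨0, 0, -640, 3⟩ ⟨0, 0, 0, 1⟩, .l ⟨0, 0, 1920, 89⟩ ⟨0, 0, 0, 1⟩] := by
  refine rok_p (k := 1) (by decide) (Q := [(960, 0, -29), (-1920, 0, 959), (0, 640, 3), (0, -1920, 89)])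
    (P := [⟨-890880, 960, 0⟩, ⟨29460480, -1920, 0⟩, ⟨92160, 0, 640⟩, ⟨2734080, 0, -1920⟩]) (by decide) rfl rfl
    (List.mem_of_getElem? (i := 0) rfl) TP_fr TP_cov ?_
  · intro X Y h
    simp only [List.forall_mem_cons, List.not_mem_nil, false_imp_iff, implies_true, and_true] at h
    push_cast at h ⊢
    obtain ⟨h0, h1, h2, h3⟩ := h
    refine ⟨⟨?_, ?_⟩, ?_, ?_⟩ <;> linarith

theorem TP_rg1 : ROK [.q ⟨-1, 1, 0, 0⟩ ⟨-1399, -521, 1920, 0⟩, .q ⟨-1, 1, 0, 0⟩ ⟨961, 959, -1920, 0⟩, .l ⟨0, 0, -1920, 119⟩ ⟨0, 0, 0, 1⟩, .l ⟨0, 0, 1920, 1289⟩ ⟨0, 0, 0, 1⟩] := by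
  refine rok_p (k := 1) (by decide) (Q := [(1920, 0, -521), (-1920, 0, 959), (0, 1920, 119), (0, -1920, 1289)])
    (P := [⟨-16005120, 1920, 0⟩, ⟨29460480, -1920, 0⟩, ⟨3655680, 0, 1920⟩, ⟨39598080, 0, -1920⟩]) (by decide) rfl rfl
    (List.mem_of_getElem? (i := 1) rfl) TP_fr TP_cov ?_
  · intro X Y h
    simp only [List.forall_mem_cons, List.not_mem_nil, false_imp_iff, implies_true, and_true] at h
    push_cast at h ⊢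
    obtain ⟨h0, h1, h2, h3⟩ := h
    refine ⟨⟨?_, ?_⟩, ?_, ?_⟩ <;> linarith

theorem TP_rg2 : ROK [.q ⟨-1, 1, 0, 0⟩ ⟨-2057, 137, 1920, 0⟩, .q ⟨-1, 1, 0, 0⟩ ⟨597, 43, -640, 0⟩, .l ⟨0, 0, -1920, -1291⟩ ⟨0, 0, 0, 1⟩, .l ⟨0, 0, 640, 463⟩ ⟨0, 0, 0, 1⟩] := by
  refine rok_p (k := 1) (by decide) (Q := [(1920, 0, 137), (-640, 0, 43), (0, 1920, -1291), (0, -640, 463)])
    (P := [⟨4208640, 1920, 0⟩, ⟨1320960, -640, 0⟩, ⟨-39659520, 0, 1920⟩, ⟨14223360, 0, -640⟩]) (by decide) rfl rfl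
    (List.mem_of_getElem? (i := 2) rfl) TP_fr TP_cov ?_
  · intro X Y h
    simp only [List.forall_mem_cons, List.not_mem_nil, false_imp_iff, implies_true, and_true] at h
    push_cast at h ⊢
    obtain ⟨h0, h1, h2, h3⟩ := h
    refine ⟨⟨?_, ?_⟩, ?_, ?_⟩ <;> linarith

theorem TP_rg3 : ROK [.q ⟨-1, 1, 0, 0⟩ ⟨-2039, 119, 1920, 0⟩, .q ⟨-1, 1, 0, 0⟩ ⟨601, 39, -640, 0⟩, .l ⟨0, 0, -20, -13⟩ ⟨0, 0, 0, 1⟩, .l ⟨0, 0, 640, 469⟩ ⟨0, 0, 0, 1⟩] := by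
  refine rok_p (k := 1) (by decide) (Q := [(1920, 0, 119), (-640, 0, 39), (0, 20, -13), (0, -640, 469)])
    (P := [⟨3655680, 1920, 0⟩, ⟨1198080, -640, 0⟩, ⟨-399360, 0, 20⟩, ⟨14407680, 0, -640⟩]) (by decide) rfl rfl
    (List.mem_of_getElem? (i := 3) rfl) TP_fr TP_cov ?_
  · intro X Y h
    simp only [List.forall_mem_cons, List.not_mem_nil, false_imp_iff, implies_true, and_true] at h
    push_cast at h ⊢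
    obtain ⟨h0, h1, h2, h3⟩ := h
    refine ⟨⟨?_, ?_⟩, ?_, ?_⟩ <;> linarith

theorem TP_rg4 : ROK [.q ⟨-1, 1, 0, 0⟩ ⟨-491, 11, 480, 0⟩, .q ⟨-1, 1, 0, 0⟩ ⟨627, 13, -640, 0⟩, .l ⟨0, 0, -960, -943⟩ ⟨0, 0, 0, 1⟩, .l ⟨0, 0, 640, 649⟩ ⟨0, 0, 0, 1⟩] := by
  refine rok_p (k := 1) (by decide) (Q := [(480, 0, 11), (-640, 0, 13), (0, 960, -943), (0, -640, 649)])
    (P := [⟨337920, 480, 0⟩, ⟨399360, -640, 0⟩, ⟨-28968960, 0, 960⟩, ⟨19937280, 0, -640⟩]) (by decide) rfl rfl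
    (List.mem_of_getElem? (i := 4) rfl) TP_fr TP_cov ?_
  · intro X Y h
    simp only [List.forall_mem_cons, List.not_mem_nil, false_imp_iff, implies_true, and_true] at h
    push_cast at h ⊢
    obtain ⟨h0, h1, h2, h3⟩ := h
    refine ⟨⟨?_, ?_⟩, ?_, ?_⟩ <;> linarith

theorem TP_rg5 : ROK [.q ⟨-1, 1, 0, 0⟩ ⟨-1969, 49, 1920, 0⟩, .q ⟨-1, 1, 0, 0⟩ ⟨627, 13, -640, 0⟩, .l ⟨0, 0, -960, -953⟩ ⟨0, 0, 0, 1⟩, .l ⟨0, 0, 160, 161⟩ ⟨0, 0, 0, 1⟩] := by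
  refine rok_p (k := 1) (by decide) (Q := [(1920, 0, 49), (-640, 0, 13), (0, 960, -953), (0, -160, 161)])
    (P := [⟨1505280, 1920, 0⟩, ⟨399360, -640, 0⟩, ⟨-29276160, 0, 960⟩, ⟨4945920, 0, -160⟩]) (by decide) rfl rfl
    (List.mem_of_getElem? (i := 5) rfl) TP_fr TP_cov ?_
  · intro X Y h
    simp only [List.forall_mem_cons, List.not_mem_nil, false_imp_iff, implies_true, and_true] at h
    push_cast at h ⊢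
    obtain ⟨h0, h1, h2, h3⟩ := h
    refine ⟨⟨?_, ?_⟩, ?_, ?_⟩ <;> linarith

theorem TP_rg6 : ROK [.q ⟨-1, 1, 0, 0⟩ ⟨-43, 3, 40, 0⟩, .q ⟨-1, 1, 0, 0⟩ ⟨1783, 137, -1920, 0⟩, .l ⟨0, 0, -960, -659⟩ ⟨0, 0, 0, 1⟩, .l ⟨0, 0, 320, 229⟩ ⟨0, 0, 0, 1⟩] := by
  refine rok_p (k := 1) (by decide) (Q := [(40, 0, 3), (-1920, 0, 137), (0, 960, -659), (0, -320, 229)])
    (P := [⟨92160, 40, 0⟩, ⟨4208640, -1920, 0⟩, ⟨-20244480, 0, 960⟩, ⟨7034880, 0, -320⟩]) (by decide) rfl rfl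
    (List.mem_of_getElem? (i := 6) rfl) TP_fr TP_cov ?_
  · intro X Y h
    simp only [List.forall_mem_cons, List.not_mem_nil, false_imp_iff, implies_true, and_true] at h
    push_cast at h ⊢
    obtain ⟨h0, h1, h2, h3⟩ := h
    refine ⟨⟨?_, ?_⟩, ?_, ?_⟩ <;> linarith

theorem TP_rg7 : ROK [.q ⟨-1, 1, 0, 0⟩ ⟨-1967, 47, 1920, 0⟩, .q ⟨-1, 1, 0, 0⟩ ⟨627, 13, -640, 0⟩, .l ⟨0, 0, -960, -949⟩ ⟨0, 0, 0, 1⟩, .l ⟨0, 0, 1920, 1939⟩ ⟨0, 0, 0, 1⟩] := by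
  refine rok_p (k := 1) (by decide) (Q := [(1920, 0, 47), (-640, 0, 13), (0, 960, -949), (0, -1920, 1939)])
    (P := [⟨1443840, 1920, 0⟩, ⟨399360, -640, 0⟩, ⟨-29153280, 0, 960⟩, ⟨59566080, 0, -1920⟩]) (by decide) rfl rfl
    (List.mem_of_getElem? (i := 7) rfl) TP_fr TP_cov ?_
  · intro X Y h
    simp only [List.forall_mem_cons, List.not_mem_nil, false_imp_iff, implies_true, and_true] at h
    push_cast at h ⊢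
    obtain ⟨h0, h1, h2, h3⟩ := h
    refine ⟨⟨?_, ?_⟩, ?_, ?_⟩ <;> linarith

theorem TP_rg8 : ROK [.q ⟨-1, 1, 0, 0⟩ ⟨-421, -59, 480, 0⟩, .q ⟨-1, 1, 0, 0⟩ ⟨961, 959, -1920, 0⟩, .l ⟨0, 0, -320, 9⟩ ⟨0, 0, 0, 1⟩, .l ⟨0, 0, 1920, 139⟩ ⟨0, 0, 0, 1⟩] := by
  refine rok_p (k := 1) (by decide) (Q := [(480, 0, -59), (-1920, 0, 959), (0, 320, 9), (0, -1920, 139)])
    (P := [⟨-1812480, 480, 0⟩, ⟨29460480, -1920, 0⟩, ⟨276480, 0, 320⟩, ⟨4270080, 0, -1920⟩]) (by decide) rfl rfl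
    (List.mem_of_getElem? (i := 8) rfl) TP_fr TP_cov ?_
  · intro X Y h
    simp only [List.forall_mem_cons, List.not_mem_nil, false_imp_iff, implies_true, and_true] at h
    push_cast at h ⊢
    obtain ⟨h0, h1, h2, h3⟩ := h
    refine ⟨⟨?_, ?_⟩, ?_, ?_⟩ <;> linarith

theorem TP_rg9 : ROK [.q ⟨-1, 1, 0, 0⟩ ⟨-337, 17, 320, 0⟩, .q ⟨-1, 1, 0, 0⟩ ⟨607, 33, -640, 0⟩, .l ⟨0, 0, -1920, -1193⟩ ⟨0, 0, 0, 1⟩, .l ⟨0, 0, 1920, 1429⟩ ⟨0, 0, 0, 1⟩] := by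
  refine rok_p (k := 1) (by decide) (Q := [(320, 0, 17), (-640, 0, 33), (0, 1920, -1193), (0, -1920, 1429)])
    (P := [⟨522240, 320, 0⟩, ⟨1013760, -640, 0⟩, ⟨-36648960, 0, 1920⟩, ⟨43898880, 0, -1920⟩]) (by decide) rfl rfl
    (List.mem_of_getElem? (i := 9) rfl) TP_fr TP_cov ?_
  · intro X Y h
    simp only [List.forall_mem_cons, List.not_mem_nil, false_imp_iff, implies_true, and_true] at h
    push_cast at h ⊢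
    obtain ⟨h0, h1, h2, h3⟩ := h
    refine ⟨⟨?_, ?_⟩, ?_, ?_⟩ <;> linarith

theorem TP_rg10 : ROK [.q ⟨-1, 1, 0, 0⟩ ⟨-1819, -101, 1920, 0⟩, .q ⟨-1, 1, 0, 0⟩ ⟨1781, 139, -1920, 0⟩, .l ⟨0, 0, -1920, 19⟩ ⟨0, 0, 0, 1⟩, .l ⟨0, 0, 120, 7⟩ ⟨0, 0, 0, 1⟩] := by
  refine rok_p (k := 1) (by decide) (Q := [(1920, 0, -101), (-1920, 0, 139), (0, 1920, 19), (0, -120, 7)])
    (P := [⟨-3102720, 1920, 0⟩, ⟨4270080, -1920, 0⟩, ⟨583680, 0, 1920⟩, ⟨215040, 0, -120⟩]) (by decide) rfl rfl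
    (List.mem_of_getElem? (i := 10) rfl) TP_fr TP_cov ?_
  · intro X Y h
    simp only [List.forall_mem_cons, List.not_mem_nil, false_imp_iff, implies_true, and_true] at h
    push_cast at h ⊢
    obtain ⟨h0, h1, h2, h3⟩ := h
    refine ⟨⟨?_, ?_⟩, ?_, ?_⟩ <;> linarith

theorem TP_rg11 : ROK [.q ⟨-1, 1, 0, 0⟩ ⟨-1949, 29, 1920, 0⟩, .q ⟨-1, 1, 0, 0⟩ ⟨1853, 67, -1920, 0⟩, .l ⟨0, 0, -320, -181⟩ ⟨0, 0, 0, 1⟩, .l ⟨0, 0, 1920, 1519⟩ ⟨0, 0, 0, 1⟩] := by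
  refine rok_p (k := 1) (by decide) (Q := [(1920, 0, 29), (-1920, 0, 67), (0, 320, -181), (0, -1920, 1519)])
    (P := [⟨890880, 1920, 0⟩, ⟨2058240, -1920, 0⟩, ⟨-5560320, 0, 320⟩, ⟨46663680, 0, -1920⟩]) (by decide) rfl rfl
    (List.mem_of_getElem? (i := 11) rfl) TP_fr TP_cov ?_
  · intro X Y h
    simp only [List.forall_mem_cons, List.not_mem_nil, false_imp_iff, implies_true, and_true] at h
    push_cast at h ⊢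
    obtain ⟨h0, h1, h2, h3⟩ := h
    refine ⟨⟨?_, ?_⟩, ?_, ?_⟩ <;> linarith

theorem TP_rg12 : ROK [.q ⟨-1, 1, 0, 0⟩ ⟨-121, -7, 128, 0⟩, .q ⟨-1, 1, 0, 0⟩ ⟨1781, 139, -1920, 0⟩, .l ⟨0, 0, -1920, 19⟩ ⟨0, 0, 0, 1⟩, .l ⟨0, 0, 320, 19⟩ ⟨0, 0, 0, 1⟩] := by
  refine rok_p (k := 1) (by decide) (Q := [(128, 0, -7), (-1920, 0, 139), (0, 1920, 19), (0, -320, 19)])
    (P := [⟨-215040, 128, 0⟩, ⟨4270080, -1920, 0⟩, ⟨583680, 0, 1920⟩, ⟨583680, 0, -320⟩]) (by decide) rfl rfl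
    (List.mem_of_getElem? (i := 12) rfl) TP_fr TP_cov ?_
  · intro X Y h
    simp only [List.forall_mem_cons, List.not_mem_nil, false_imp_iff, implies_true, and_true] at h
    push_cast at h ⊢
    obtain ⟨h0, h1, h2, h3⟩ := h
    refine ⟨⟨?_, ?_⟩, ?_, ?_⟩ <;> linarith

theorem TP_rg13 : ROK [.q ⟨-1, 1, 0, 0⟩ ⟨-1823, -97, 1920, 0⟩, .q ⟨-1, 1, 0, 0⟩ ⟨961, 959, -1920, 0⟩, .l ⟨0, 0, -1920, 19⟩ ⟨0, 0, 0, 1⟩, .l ⟨0, 0, 160, 9⟩ ⟨0, 0, 0, 1⟩] := by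
  refine rok_p (k := 1) (by decide) (Q := [(1920, 0, -97), (-1920, 0, 959), (0, 1920, 19), (0, -160, 9)])
    (P := [⟨-2979840, 1920, 0⟩, ⟨29460480, -1920, 0⟩, ⟨583680, 0, 1920⟩, ⟨276480, 0, -160⟩]) (by decide) rfl rfl
    (List.mem_of_getElem? (i := 13) rfl) TP_fr TP_cov ?_
  · intro X Y h
    simp only [List.forall_mem_cons, List.not_mem_nil, false_imp_iff, implies_true, and_true] at h
    push_cast at h ⊢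
    obtain ⟨h0, h1, h2, h3⟩ := h
    refine ⟨⟨?_, ?_⟩, ?_, ?_⟩ <;> linarith

theorem TP_rg14 : ROK [.q ⟨-1, 1, 0, 0⟩ ⟨-917, -43, 960, 0⟩, .q ⟨-1, 1, 0, 0⟩ ⟨961, 959, -1920, 0⟩, .l ⟨0, 0, -1920, 19⟩ ⟨0, 0, 0, 1⟩, .l ⟨0, 0, 1920, 103⟩ ⟨0, 0, 0, 1⟩] := by
  refine rok_p (k := 1) (by decide) (Q := [(960, 0, -43), (-1920, 0, 959), (0, 1920, 19), (0, -1920, 103)])
    (P := [⟨-1320960, 960, 0⟩, ⟨29460480, -1920, 0⟩, ⟨583680, 0, 1920⟩, ⟨3164160, 0, -1920⟩]) (by decide) rfl rfl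
    (List.mem_of_getElem? (i := 14) rfl) TP_fr TP_cov ?_
  · intro X Y h
    simp only [List.forall_mem_cons, List.not_mem_nil, false_imp_iff, implies_true, and_true] at h
    push_cast at h ⊢
    obtain ⟨h0, h1, h2, h3⟩ := h
    refine ⟨⟨?_, ?_⟩, ?_, ?_⟩ <;> linarith

theorem TP_rg15 : ROK [.q ⟨-1, 1, 0, 0⟩ ⟨-1979, 59, 1920, 0⟩, .q ⟨-1, 1, 0, 0⟩ ⟨29, 1, -30, 0⟩, .l ⟨0, 0, -1920, -1081⟩ ⟨0, 0, 0, 1⟩, .l ⟨0, 0, 480, 371⟩ ⟨0, 0, 0, 1⟩] := by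
  refine rok_p (k := 1) (by decide) (Q := [(1920, 0, 59), (-30, 0, 1), (0, 1920, -1081), (0, -480, 371)])
    (P := [⟨1812480, 1920, 0⟩, ⟨30720, -30, 0⟩, ⟨-33208320, 0, 1920⟩, ⟨11397120, 0, -480⟩]) (by decide) rfl rfl
    (List.mem_of_getElem? (i := 15) rfl) TP_fr TP_cov ?_
  · intro X Y h
    simp only [List.forall_mem_cons, List.not_mem_nil, false_imp_iff, implies_true, and_true] at h
    push_cast at h ⊢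
    obtain ⟨h0, h1, h2, h3⟩ := h
    refine ⟨⟨?_, ?_⟩, ?_, ?_⟩ <;> linarith

theorem TP_rg16 : ROK [.q ⟨-1, 1, 0, 0⟩ ⟨-607, -33, 640, 0⟩, .q ⟨-1, 1, 0, 0⟩ ⟨1781, 139, -1920, 0⟩, .l ⟨0, 0, -1920, 19⟩ ⟨0, 0, 0, 1⟩, .l ⟨0, 0, 640, 37⟩ ⟨0, 0, 0, 1⟩] := by
  refine rok_p (k := 1) (by decide) (Q := [(640, 0, -33), (-1920, 0, 139), (0, 1920, 19), (0, -640, 37)])
    (P := [⟨-1013760, 640, 0⟩, ⟨4270080, -1920, 0⟩, ⟨583680, 0, 1920⟩, ⟨1136640, 0, -640⟩]) (by decide) rfl rfl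
    (List.mem_of_getElem? (i := 16) rfl) TP_fr TP_cov ?_
  · intro X Y h
    simp only [List.forall_mem_cons, List.not_mem_nil, false_imp_iff, implies_true, and_true] at h
    push_cast at h ⊢
    obtain ⟨h0, h1, h2, h3⟩ := h
    refine ⟨⟨?_, ?_⟩, ?_, ?_⟩ <;> linarith

theorem TP_rg17 : ROK [.q ⟨-1, 1, 0, 0⟩ ⟨-131, -29, 160, 0⟩, .q ⟨-1, 1, 0, 0⟩ ⟨961, 959, -1920, 0⟩, .l ⟨0, 0, -640, 23⟩ ⟨0, 0, 0, 1⟩, .l ⟨0, 0, 1920, 463⟩ ⟨0, 0, 0, 1⟩] := by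
  refine rok_p (k := 1) (by decide) (Q := [(160, 0, -29), (-1920, 0, 959), (0, 640, 23), (0, -1920, 463)])
    (P := [⟨-890880, 160, 0⟩, ⟨29460480, -1920, 0⟩, ⟨706560, 0, 640⟩, ⟨14223360, 0, -1920⟩]) (by decide) rfl rfl
    (List.mem_of_getElem? (i := 17) rfl) TP_fr TP_cov ?_
  · intro X Y h
    simp only [List.forall_mem_cons, List.not_mem_nil, false_imp_iff, implies_true, and_true] at h
    push_cast at h ⊢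
    obtain ⟨h0, h1, h2, h3⟩ := h
    refine ⟨⟨?_, ?_⟩, ?_, ?_⟩ <;> linarith

theorem TP_rg18 : ROK [.q ⟨-1, 1, 0, 0⟩ ⟨-31, 1, 30, 0⟩, .q ⟨-1, 1, 0, 0⟩ ⟨1853, 67, -1920, 0⟩, .l ⟨0, 0, -1920, -1091⟩ ⟨0, 0, 0, 1⟩, .l ⟨0, 0, 1920, 1477⟩ ⟨0, 0, 0, 1⟩] := by
  refine rok_p (k := 1) (by decide) (Q := [(30, 0, 1), (-1920, 0, 67), (0, 1920, -1091), (0, -1920, 1477)])
    (P := [⟨30720, 30, 0⟩, ⟨2058240, -1920, 0⟩, ⟨-33515520, 0, 1920⟩, ⟨45373440, 0, -1920⟩]) (by decide) rfl rfl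
    (List.mem_of_getElem? (i := 18) rfl) TP_fr TP_cov ?_
  · intro X Y h
    simp only [List.forall_mem_cons, List.not_mem_nil, false_imp_iff, implies_true, and_true] at h
    push_cast at h ⊢
    obtain ⟨h0, h1, h2, h3⟩ := h
    refine ⟨⟨?_, ?_⟩, ?_, ?_⟩ <;> linarith

theorem TP_rg19 : ROK [.q ⟨-1, 1, 0, 0⟩ ⟨-601, -39, 640, 0⟩, .q ⟨-1, 1, 0, 0⟩ ⟨1781, 139, -1920, 0⟩, .l ⟨0, 0, -1920, 19⟩ ⟨0, 0, 0, 1⟩, .l ⟨0, 0, 1920, 119⟩ ⟨0, 0, 0, 1⟩] := by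
  refine rok_p (k := 1) (by decide) (Q := [(640, 0, -39), (-1920, 0, 139), (0, 1920, 19), (0, -1920, 119)])
    (P := [⟨-1198080, 640, 0⟩, ⟨4270080, -1920, 0⟩, ⟨583680, 0, 1920⟩, ⟨3655680, 0, -1920⟩]) (by decide) rfl rfl
    (List.mem_of_getElem? (i := 19) rfl) TP_fr TP_cov ?_
  · intro X Y h
    simp only [List.forall_mem_cons, List.not_mem_nil, false_imp_iff, implies_true, and_true] at h
    push_cast at h ⊢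
    obtain ⟨h0, h1, h2, h3⟩ := h
    refine ⟨⟨?_, ?_⟩, ?_, ?_⟩ <;> linarith

theorem TP_rg20 : ROK [.q ⟨-1, 1, 0, 0⟩ ⟨-919, -41, 960, 0⟩, .q ⟨-1, 1, 0, 0⟩ ⟨961, 959, -1920, 0⟩, .l ⟨0, 0, -1920, 19⟩ ⟨0, 0, 0, 1⟩, .l ⟨0, 0, 320, 17⟩ ⟨0, 0, 0, 1⟩] := by
  refine rok_p (k := 1) (by decide) (Q := [(960, 0, -41), (-1920, 0, 959), (0, 1920, 19), (0, -320, 17)])
    (P := [⟨-1259520, 960, 0⟩, ⟨29460480, -1920, 0⟩, ⟨583680, 0, 1920⟩, ⟨522240, 0, -320⟩]) (by decide) rfl rfl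
    (List.mem_of_getElem? (i := 20) rfl) TP_fr TP_cov ?_
  · intro X Y h
    simp only [List.forall_mem_cons, List.not_mem_nil, false_imp_iff, implies_true, and_true] at h
    push_cast at h ⊢
    obtain ⟨h0, h1, h2, h3⟩ := h
    refine ⟨⟨?_, ?_⟩, ?_, ?_⟩ <;> linarith

theorem TP_rg21 : ROK [.q ⟨-1, 1, 0, 0⟩ ⟨-1957, 37, 1920, 0⟩, .q ⟨-1, 1, 0, 0⟩ ⟨627, 13, -640, 0⟩, .l ⟨0, 0, -40, -21⟩ ⟨0, 0, 0, 1⟩, .l ⟨0, 0, 960, 757⟩ ⟨0, 0, 0, 1⟩] := by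
  refine rok_p (k := 1) (by decide) (Q := [(1920, 0, 37), (-640, 0, 13), (0, 40, -21), (0, -960, 757)])
    (P := [⟨1136640, 1920, 0⟩, ⟨399360, -640, 0⟩, ⟨-645120, 0, 40⟩, ⟨23255040, 0, -960⟩]) (by decide) rfl rfl
    (List.mem_of_getElem? (i := 21) rfl) TP_fr TP_cov ?_
  · intro X Y h
    simp only [List.forall_mem_cons, List.not_mem_nil, false_imp_iff, implies_true, and_true] at h
    push_cast at h ⊢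
    obtain ⟨h0, h1, h2, h3⟩ := h
    refine ⟨⟨?_, ?_⟩, ?_, ?_⟩ <;> linarith

theorem TP_rg22 : ROK [.q ⟨-1, 1, 0, 0⟩ ⟨-899, -61, 960, 0⟩, .q ⟨-1, 1, 0, 0⟩ ⟨1781, 139, -1920, 0⟩, .l ⟨0, 0, -1920, 19⟩ ⟨0, 0, 0, 1⟩, .l ⟨0, 0, 1920, 121⟩ ⟨0, 0, 0, 1⟩] := by
  refine rok_p (k := 1) (by decide) (Q := [(960, 0, -61), (-1920, 0, 139), (0, 1920, 19), (0, -1920, 121)])
    (P := [⟨-1873920, 960, 0⟩, ⟨4270080, -1920, 0⟩, ⟨583680, 0, 1920⟩, ⟨3717120, 0, -1920⟩]) (by decide) rfl rfl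
    (List.mem_of_getElem? (i := 22) rfl) TP_fr TP_cov ?_
  · intro X Y h
    simp only [List.forall_mem_cons, List.not_mem_nil, false_imp_iff, implies_true, and_true] at h
    push_cast at h ⊢
    obtain ⟨h0, h1, h2, h3⟩ := h
    refine ⟨⟨?_, ?_⟩, ?_, ?_⟩ <;> linarith

theorem TP_rg23 : ROK [.q ⟨-1, 1, 0, 0⟩ ⟨-1031, 71, 960, 0⟩, .q ⟨-1, 1, 0, 0⟩ ⟨119, 9, -128, 0⟩, .l ⟨0, 0, -640, -437⟩ ⟨0, 0, 0, 1⟩, .l ⟨0, 0, 640, 459⟩ ⟨0, 0, 0, 1⟩] := by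
  refine rok_p (k := 1) (by decide) (Q := [(960, 0, 71), (-128, 0, 9), (0, 640, -437), (0, -640, 459)])
    (P := [⟨2181120, 960, 0⟩, ⟨276480, -128, 0⟩, ⟨-13424640, 0, 640⟩, ⟨14100480, 0, -640⟩]) (by decide) rfl rfl
    (List.mem_of_getElem? (i := 23) rfl) TP_fr TP_cov ?_
  · intro X Y h
    simp only [List.forall_mem_cons, List.not_mem_nil, false_imp_iff, implies_true, and_true] at h
    push_cast at h ⊢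
    obtain ⟨h0, h1, h2, h3⟩ := h
    refine ⟨⟨?_, ?_⟩, ?_, ?_⟩ <;> linarith

end Pool.Agent.TET
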