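import Pool.Agent.Helper38_TET.TQ_M
import Pool.Agent.Helper38_TET.TQ_L
import Pool.Agent.Helper38_TET.TQ_0
import Pool.Agent.Helper38_TET.TQ_1
import Pool.Agent.Helper38_TET.TQ_2
import Pool.Agent.Helper38_TET.TQ_3
import Pool.Agent.Helper38_TET.TQ_4

/-!
# MP_c7c9bf_co: certificates, family TQ
-/

set_option autoImplicit false
set_option maxRecDepth 100000

namespace Pool.Agent.TET

theorem TQ_u0 : CovZ TQ_M (toL (selN TQ_LN 37741371125043588759135)) [0, 7, 4, 3] (-32, -576) (-32, -560) (-48, -560) :=
    (CovZ.subM 4287871913128834730069 (by decide +kernel)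
      (CovZ.n2 (-40, -568) (by decide +kernel)
       (CovZ.n2 (-40, -560) (by decide +kernel)
        (CovZ.n2 (-36, -564) (by decide +kernel)
         (CovZ.subM 2462363162930907152 (by decide +kernel)
          (CovZ.n2 (-40, -564) (by decide +kernel)
           (CovZ.n2 (-38, -562) (by decide +kernel)
            (CovZ.n2 (-38, -564) (by decide +kernel)
             (CovZ.n2 (-39, -563) (by decide +kernel)
              (CovZ.leaf K2_ok TQ_l0 _)
              (CovZ.leaf K2_ok TQ_l1 _))
             (CovZ.leaf K2_ok TQ_l2 _))
            (CovZ.n1 (-40, -562) (by decide +kernel)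
             (CovZ.n2 (-39, -561) (by decide +kernel)
              (CovZ.leaf K2_ok TQ_l3 _)
              (CovZ.leaf K2_ok TQ_l4 _))
             (CovZ.n1 (-39, -563) (by decide +kernel)
              (CovZ.leaf K2_ok TQ_l5 _)
              (CovZ.leaf K2_ok TQ_l6 _))))
           (CovZ.subM 1145966572865536 (by decide +kernel)
            (CovZ.n1 (-38, -566) (by decide +kernel)
             (CovZ.subM 2474446422016 (by decide +kernel)
              (CovZ.n2 (-40, -566) (by decide +kernel)
               (CovZ.n2 (-39, -565) (by decide +kernel)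
                (CovZ.n2 (-39, -566) (by decide +kernel)
                 (CovZ.leaf K2_ok TQ_l7 _)
                 (CovZ.leaf K2_ok TQ_l8 _))
                (CovZ.leaf K2_ok TQ_l9 _))
               (CovZ.n1 (-39, -567) (by decide +kernel)
                (CovZ.n2 (-40, -567) (by decide +kernel)
                 (CovZ.leaf K2_ok TQ_l10 _)
                 (CovZ.leaf K2_ok TQ_l11 _))
                (CovZ.leaf K2_ok TQ_l12 _))))
             (CovZ.n1 (-38, -564) (by decide +kernel)
              (CovZ.n2 (-37, -565) (by decide +kernel)
               (CovZ.leaf K2_ok TQ_l13 _)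
               (CovZ.leaf K2_ok TQ_l14 _))
              (CovZ.n1 (-39, -565) (by decide +kernel)
               (CovZ.leaf K2_ok TQ_l15 _)
               (CovZ.n1 (-38, -565) (by decide +kernel)
                (CovZ.leaf K2_ok TQ_l16 _)
                (CovZ.leaf K2_ok TQ_l17 _))))))))
         (CovZ.n1 (-36, -560) (by decide +kernel)
          (CovZ.n2 (-34, -562) (by decide +kernel)
           (CovZ.n2 (-36, -562) (by decide +kernel)
            (CovZ.leaf K2_ok TQ_l18 _)
            (CovZ.n1 (-35, -563) (by decide +kernel)
             (CovZ.leaf K2_ok TQ_l19 _)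
             (CovZ.leaf K2_ok TQ_l20 _)))
           (CovZ.n1 (-34, -560) (by decide +kernel)
            (CovZ.leaf K2_ok TQ_l21 _)
            (CovZ.n1 (-35, -561) (by decide +kernel)
             (CovZ.leaf K2_ok TQ_l22 _)
             (CovZ.leaf K2_ok TQ_l23 _))))
          (CovZ.n1 (-38, -562) (by decide +kernel)
           (CovZ.n2 (-38, -560) (by decide +kernel)
            (CovZ.n2 (-37, -561) (by decide +kernel)
             (CovZ.leaf K2_ok TQ_l24 _)
             (CovZ.leaf K2_ok TQ_l25 _))
            (CovZ.n1 (-39, -561) (by decide +kernel)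
             (CovZ.leaf K2_ok TQ_l26 _)
             (CovZ.leaf K2_ok TQ_l27 _)))
           (CovZ.n1 (-36, -562) (by decide +kernel)
            (CovZ.n2 (-37, -563) (by decide +kernel)
             (CovZ.leaf K2_ok TQ_l28 _)
             (CovZ.leaf K2_ok TQ_l29 _))
            (CovZ.n1 (-37, -561) (by decide +kernel)
             (CovZ.leaf K2_ok TQ_l30 _)
             (CovZ.leaf K2_ok TQ_l31 _))))))
        (CovZ.subM 155374462055743508 (by decide +kernel)
         (CovZ.n1 (-44, -564) (by decide +kernel)
          (CovZ.n2 (-44, -560) (by decide +kernel)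
           (CovZ.n2 (-42, -562) (by decide +kernel)
            (CovZ.subM 274877906944 (by decide +kernel)
             (CovZ.n2 (-44, -562) (by decide +kernel)
              (CovZ.n2 (-43, -561) (by decide +kernel)
               (CovZ.n2 (-43, -562) (by decide +kernel)
                (CovZ.leaf K2_ok TQ_l32 _)
                (CovZ.leaf K2_ok TQ_l33 _))
               (CovZ.leaf K2_ok TQ_l34 _))
              (CovZ.n1 (-43, -563) (by decide +kernel)
               (CovZ.badM (by decide +kernel))
               (CovZ.n1 (-43, -562) (by decide +kernel)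
                (CovZ.leaf K2_ok TQ_l35 _)
                (CovZ.badM (by decide +kernel))))))
            (CovZ.n1 (-42, -560) (by decide +kernel)
             (CovZ.n2 (-41, -561) (by decide +kernel)
              (CovZ.n2 (-42, -561) (by decide +kernel)
               (CovZ.leaf K2_ok TQ_l36 _)
               (CovZ.leaf K2_ok TQ_l37 _))
              (CovZ.leaf K2_ok TQ_l38 _))
             (CovZ.n1 (-43, -561) (by decide +kernel)
              (CovZ.leaf K2_ok TQ_l39 _)
              (CovZ.n1 (-42, -561) (by decide +kernel)
               (CovZ.leaf K2_ok TQ_l40 _)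
               (CovZ.leaf K2_ok TQ_l41 _)))))
           (CovZ.subM 274877906944 (by decide +kernel)
            (CovZ.n1 (-46, -562) (by decide +kernel)
             (CovZ.n2 (-46, -560) (by decide +kernel)
              (CovZ.n2 (-45, -561) (by decide +kernel)
               (CovZ.badM (by decide +kernel))
               (CovZ.leaf K2_ok TQ_l42 _))
              (CovZ.badM (by decide +kernel)))
             (CovZ.n1 (-44, -562) (by decide +kernel)
              (CovZ.badM (by decide +kernel))
              (CovZ.n1 (-45, -561) (by decide +kernel)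
               (CovZ.n2 (-44, -561) (by decide +kernel)
                (CovZ.badM (by decide +kernel))
                (CovZ.leaf K2_ok TQ_l43 _))
               (CovZ.badM (by decide +kernel)))))))
          (CovZ.n1 (-40, -564) (by decide +kernel)
           (CovZ.subM 274877906944 (by decide +kernel)
            (CovZ.n2 (-42, -566) (by decide +kernel)
             (CovZ.n2 (-42, -564) (by decide +kernel)
              (CovZ.n2 (-41, -565) (by decide +kernel)
               (CovZ.leaf K2_ok TQ_l44 _)
               (CovZ.leaf K2_ok TQ_l45 _))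
              (CovZ.badM (by decide +kernel)))
             (CovZ.n1 (-40, -566) (by decide +kernel)
              (CovZ.n2 (-41, -567) (by decide +kernel)
               (CovZ.n2 (-41, -566) (by decide +kernel)
                (CovZ.leaf K2_ok TQ_l46 _)
                (CovZ.badM (by decide +kernel)))
               (CovZ.n1 (-40, -567) (by decide +kernel)
                (CovZ.leaf K2_ok TQ_l47 _)
                (CovZ.leaf K2_ok TQ_l48 _)))
              (CovZ.n1 (-41, -565) (by decide +kernel)
               (CovZ.n2 (-40, -565) (by decide +kernel)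
                (CovZ.leaf K2_ok TQ_l49 _)
                (CovZ.leaf K2_ok TQ_l50 _))
               (CovZ.n1 (-41, -566) (by decide +kernel)
                (CovZ.leaf K2_ok TQ_l51 _)
                (CovZ.leaf K2_ok TQ_l52 _))))))
           (CovZ.n1 (-42, -562) (by decide +kernel)
            (CovZ.n2 (-40, -562) (by decide +kernel)
             (CovZ.n2 (-41, -563) (by decide +kernel)
              (CovZ.leaf K2_ok TQ_l53 _)
              (CovZ.n1 (-40, -563) (by decide +kernel)
               (CovZ.leaf K2_ok TQ_l54 _)
               (CovZ.leaf K2_ok TQ_l55 _)))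
             (CovZ.n1 (-41, -561) (by decide +kernel)
              (CovZ.n2 (-40, -561) (by decide +kernel)
               (CovZ.leaf K2_ok TQ_l56 _)
               (CovZ.leaf K2_ok TQ_l57 _))
              (CovZ.n1 (-41, -562) (by decide +kernel)
               (CovZ.leaf K2_ok TQ_l58 _)
               (CovZ.leaf K2_ok TQ_l59 _))))
            (CovZ.subM 274877906944 (by decide +kernel)
             (CovZ.n1 (-42, -564) (by decide +kernel)
              (CovZ.n2 (-43, -563) (by decide +kernel)
               (CovZ.n2 (-42, -563) (by decide +kernel)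
                (CovZ.leaf K2_ok TQ_l60 _)
                (CovZ.leaf K2_ok TQ_l61 _))
               (CovZ.badM (by decide +kernel)))
              (CovZ.n1 (-41, -563) (by decide +kernel)
               (CovZ.leaf K2_ok TQ_l62 _)
               (CovZ.n1 (-42, -563) (by decide +kernel)
                (CovZ.leaf K2_ok TQ_l63 _)
                (CovZ.leaf K2_ok TQ_l64 _))))))))))
       (CovZ.n1 (-32, -568) (by decide +kernel)
        (CovZ.subM 4612814409994340352 (by decide +kernel)
         (CovZ.n2 (-36, -572) (by decide +kernel)
          (CovZ.n2 (-36, -568) (by decide +kernel)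
           (CovZ.n2 (-34, -570) (by decide +kernel)
            (CovZ.n2 (-36, -570) (by decide +kernel)
             (CovZ.leaf K2_ok TQ_l65 _)
             (CovZ.leaf K2_ok TQ_l66 _))
            (CovZ.n1 (-34, -568) (by decide +kernel)
             (CovZ.leaf K2_ok TQ_l67 _)
             (CovZ.leaf K2_ok TQ_l68 _)))
           (CovZ.n1 (-38, -570) (by decide +kernel)
            (CovZ.n2 (-38, -568) (by decide +kernel)
             (CovZ.n2 (-37, -569) (by decide +kernel)
              (CovZ.leaf K2_ok TQ_l69 _)
              (CovZ.leaf K2_ok TQ_l70 _))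
             (CovZ.n1 (-39, -569) (by decide +kernel)
              (CovZ.leaf K2_ok TQ_l71 _)
              (CovZ.leaf K2_ok TQ_l72 _)))
            (CovZ.n1 (-36, -570) (by decide +kernel)
             (CovZ.leaf K2_ok TQ_l73 _)
             (CovZ.n1 (-37, -569) (by decide +kernel)
              (CovZ.leaf K2_ok TQ_l74 _)
              (CovZ.leaf K2_ok TQ_l75 _)))))
          (CovZ.subM 1126192006563840 (by decide +kernel)
           (CovZ.n1 (-32, -572) (by decide +kernel)
            (CovZ.n2 (-34, -574) (by decide +kernel)
             (CovZ.leaf K2_ok TQ_l76 _)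
             (CovZ.n1 (-32, -574) (by decide +kernel)
              (CovZ.leaf K2_ok TQ_l77 _)
              (CovZ.leaf K2_ok TQ_l78 _)))
            (CovZ.n1 (-34, -570) (by decide +kernel)
             (CovZ.n2 (-32, -570) (by decide +kernel)
              (CovZ.leaf K2_ok TQ_l79 _)
              (CovZ.leaf K2_ok TQ_l80 _))
             (CovZ.n1 (-34, -572) (by decide +kernel)
              (CovZ.leaf K2_ok TQ_l81 _)
              (CovZ.leaf K2_ok TQ_l82 _)))))))
        (CovZ.n1 (-36, -564) (by decide +kernel)
         (CovZ.n2 (-32, -564) (by decide +kernel)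
          (CovZ.subM 4136683768443155253313 (by decide +kernel)
           (CovZ.n2 (-34, -566) (by decide +kernel)
            (CovZ.n2 (-34, -564) (by decide +kernel)
             (CovZ.leaf K2_ok TQ_l83 _)
             (CovZ.n1 (-35, -565) (by decide +kernel)
              (CovZ.leaf K2_ok TQ_l84 _)
              (CovZ.leaf K2_ok TQ_l85 _)))
            (CovZ.n1 (-32, -566) (by decide +kernel)
             (CovZ.leaf K2_ok TQ_l86 _)
             (CovZ.leaf K2_ok TQ_l87 _))))
          (CovZ.n1 (-34, -562) (by decide +kernel)
           (CovZ.n2 (-32, -562) (by decide +kernel)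
            (CovZ.leaf K2_ok TQ_l88 _)
            (CovZ.leaf K2_ok TQ_l89 _))
           (CovZ.n1 (-34, -564) (by decide +kernel)
            (CovZ.n2 (-35, -563) (by decide +kernel)
             (CovZ.leaf K2_ok TQ_l90 _)
             (CovZ.leaf K2_ok TQ_l91 _))
            (CovZ.leaf K2_ok TQ_l92 _))))
         (CovZ.subM 4612814414289307648 (by decide +kernel)
          (CovZ.n1 (-36, -568) (by decide +kernel)
           (CovZ.n2 (-38, -566) (by decide +kernel)
            (CovZ.n2 (-36, -566) (by decide +kernel)
             (CovZ.n2 (-37, -567) (by decide +kernel)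
              (CovZ.leaf K2_ok TQ_l93 _)
              (CovZ.leaf K2_ok TQ_l94 _))
             (CovZ.n1 (-37, -565) (by decide +kernel)
              (CovZ.leaf K2_ok TQ_l95 _)
              (CovZ.leaf K2_ok TQ_l96 _)))
            (CovZ.n1 (-38, -568) (by decide +kernel)
             (CovZ.subM 2474446422016 (by decide +kernel)
              (CovZ.n2 (-39, -567) (by decide +kernel)
               (CovZ.n2 (-38, -567) (by decide +kernel)
                (CovZ.leaf K2_ok TQ_l97 _)
                (CovZ.leaf K2_ok TQ_l98 _))
               (CovZ.n1 (-39, -568) (by decide +kernel)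
                (CovZ.leaf K2_ok TQ_l99 _)
                (CovZ.leaf K2_ok TQ_l100 _))))
             (CovZ.n1 (-37, -567) (by decide +kernel)
              (CovZ.leaf K2_ok TQ_l101 _)
              (CovZ.leaf K2_ok TQ_l102 _))))
           (CovZ.n1 (-34, -566) (by decide +kernel)
            (CovZ.n2 (-34, -568) (by decide +kernel)
             (CovZ.leaf K2_ok TQ_l103 _)
             (CovZ.leaf K2_ok TQ_l104 _))
            (CovZ.n1 (-36, -566) (by decide +kernel)
             (CovZ.leaf K2_ok TQ_l105 _)
             (CovZ.n1 (-35, -567) (by decide +kernel)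
              (CovZ.leaf K2_ok TQ_l106 _)
              (CovZ.leaf K2_ok TQ_l107 _))))))))))

theorem TQ_u1 : CovZ TQ_M (toL (selN TQ_LN 37741371125043588759135)) [0, 7, 4, 3] (-32, -560) (-32, -544) (-48, -560) :=
    (CovZ.n1 (-40, -552) (by decide +kernel)
      (CovZ.n2 (-32, -552) (by decide +kernel)
       (CovZ.n2 (-36, -556) (by decide +kernel)
        (CovZ.n2 (-36, -552) (by decide +kernel)
         (CovZ.n2 (-34, -554) (by decide +kernel)
          (CovZ.n2 (-36, -554) (by decide +kernel)
           (CovZ.leaf K2_ok TQ_l108 _)
           (CovZ.n1 (-35, -555) (by decide +kernel)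
            (CovZ.leaf K2_ok TQ_l109 _)
            (CovZ.leaf K2_ok TQ_l110 _)))
          (CovZ.n1 (-34, -552) (by decide +kernel)
           (CovZ.leaf K2_ok TQ_l111 _)
           (CovZ.leaf K2_ok TQ_l112 _)))
         (CovZ.n1 (-38, -554) (by decide +kernel)
          (CovZ.n2 (-38, -552) (by decide +kernel)
           (CovZ.n2 (-37, -553) (by decide +kernel)
            (CovZ.leaf K2_ok TQ_l113 _)
            (CovZ.leaf K2_ok TQ_l114 _))
           (CovZ.n1 (-39, -553) (by decide +kernel)
            (CovZ.leaf K2_ok TQ_l115 _)
            (CovZ.n1 (-38, -553) (by decide +kernel)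
             (CovZ.leaf K2_ok TQ_l116 _)
             (CovZ.leaf K2_ok TQ_l117 _))))
          (CovZ.n1 (-36, -554) (by decide +kernel)
           (CovZ.n2 (-37, -555) (by decide +kernel)
            (CovZ.leaf K2_ok TQ_l118 _)
            (CovZ.leaf K2_ok TQ_l119 _))
           (CovZ.n1 (-37, -553) (by decide +kernel)
            (CovZ.leaf K2_ok TQ_l120 _)
            (CovZ.leaf K2_ok TQ_l121 _)))))
        (CovZ.n1 (-32, -556) (by decide +kernel)
         (CovZ.subM 9028685140055009593437 (by decide +kernel)
          (CovZ.n2 (-34, -558) (by decide +kernel)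
           (CovZ.n2 (-34, -556) (by decide +kernel)
            (CovZ.leaf K2_ok TQ_l122 _)
            (CovZ.n1 (-35, -557) (by decide +kernel)
             (CovZ.leaf K2_ok TQ_l123 _)
             (CovZ.leaf K2_ok TQ_l124 _)))
           (CovZ.n1 (-32, -558) (by decide +kernel)
            (CovZ.leaf K2_ok TQ_l125 _)
            (CovZ.leaf K2_ok TQ_l126 _))))
         (CovZ.n1 (-34, -554) (by decide +kernel)
          (CovZ.n2 (-32, -554) (by decide +kernel)
           (CovZ.leaf K2_ok TQ_l127 _)
           (CovZ.leaf K2_ok TQ_l128 _))
          (CovZ.n1 (-34, -556) (by decide +kernel)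
           (CovZ.n2 (-35, -555) (by decide +kernel)
            (CovZ.leaf K2_ok TQ_l129 _)
            (CovZ.leaf K2_ok TQ_l130 _))
           (CovZ.leaf K2_ok TQ_l131 _)))))
       (CovZ.n1 (-36, -548) (by decide +kernel)
        (CovZ.n2 (-32, -548) (by decide +kernel)
         (CovZ.n2 (-34, -550) (by decide +kernel)
          (CovZ.n2 (-34, -548) (by decide +kernel)
           (CovZ.leaf K2_ok TQ_l132 _)
           (CovZ.n1 (-35, -549) (by decide +kernel)
            (CovZ.leaf K2_ok TQ_l133 _)
            (CovZ.leaf K2_ok TQ_l134 _)))
          (CovZ.n1 (-32, -550) (by decide +kernel)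
           (CovZ.leaf K2_ok TQ_l135 _)
           (CovZ.leaf K2_ok TQ_l136 _)))
         (CovZ.n1 (-34, -546) (by decide +kernel)
          (CovZ.n2 (-32, -546) (by decide +kernel)
           (CovZ.leaf K2_ok TQ_l137 _)
           (CovZ.leaf K2_ok TQ_l138 _))
          (CovZ.n1 (-34, -548) (by decide +kernel)
           (CovZ.leaf K2_ok TQ_l139 _)
           (CovZ.leaf K2_ok TQ_l140 _))))
        (CovZ.n1 (-36, -552) (by decide +kernel)
         (CovZ.n2 (-38, -550) (by decide +kernel)
          (CovZ.n2 (-36, -550) (by decide +kernel)
           (CovZ.n2 (-37, -551) (by decide +kernel)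
            (CovZ.leaf K2_ok TQ_l141 _)
            (CovZ.leaf K2_ok TQ_l142 _))
           (CovZ.n1 (-37, -549) (by decide +kernel)
            (CovZ.leaf K2_ok TQ_l143 _)
            (CovZ.leaf K2_ok TQ_l144 _)))
          (CovZ.n1 (-38, -552) (by decide +kernel)
           (CovZ.n2 (-39, -551) (by decide +kernel)
            (CovZ.leaf K2_ok TQ_l145 _)
            (CovZ.leaf K2_ok TQ_l146 _))
           (CovZ.leaf K2_ok TQ_l147 _)))
         (CovZ.n1 (-34, -550) (by decide +kernel)
          (CovZ.n2 (-34, -552) (by decide +kernel)
           (CovZ.n2 (-35, -551) (by decide +kernel)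
            (CovZ.leaf K2_ok TQ_l148 _)
            (CovZ.leaf K2_ok TQ_l149 _))
           (CovZ.leaf K2_ok TQ_l150 _))
          (CovZ.n1 (-36, -550) (by decide +kernel)
           (CovZ.leaf K2_ok TQ_l151 _)
           (CovZ.n1 (-35, -551) (by decide +kernel)
            (CovZ.leaf K2_ok TQ_l152 _)
            (CovZ.leaf K2_ok TQ_l153 _)))))))
      (CovZ.n1 (-40, -560) (by decide +kernel)
       (CovZ.subM 9021767591232996477021 (by decide +kernel)
        (CovZ.n2 (-44, -556) (by decide +kernel)
         (CovZ.n2 (-40, -556) (by decide +kernel)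
          (CovZ.n2 (-42, -558) (by decide +kernel)
           (CovZ.n2 (-42, -556) (by decide +kernel)
            (CovZ.n2 (-41, -557) (by decide +kernel)
             (CovZ.leaf K2_ok TQ_l154 _)
             (CovZ.leaf K2_ok TQ_l155 _))
            (CovZ.n1 (-43, -557) (by decide +kernel)
             (CovZ.leaf K2_ok TQ_l156 _)
             (CovZ.n1 (-42, -557) (by decide +kernel)
              (CovZ.leaf K2_ok TQ_l157 _)
              (CovZ.leaf K2_ok TQ_l158 _))))
           (CovZ.n1 (-40, -558) (by decide +kernel)
            (CovZ.n2 (-41, -559) (by decide +kernel)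
             (CovZ.leaf K2_ok TQ_l159 _)
             (CovZ.n1 (-40, -559) (by decide +kernel)
              (CovZ.leaf K2_ok TQ_l160 _)
              (CovZ.leaf K2_ok TQ_l161 _)))
            (CovZ.n1 (-41, -557) (by decide +kernel)
             (CovZ.n2 (-40, -557) (by decide +kernel)
              (CovZ.leaf K2_ok TQ_l162 _)
              (CovZ.leaf K2_ok TQ_l163 _))
             (CovZ.leaf K2_ok TQ_l164 _))))
          (CovZ.n1 (-42, -554) (by decide +kernel)
           (CovZ.n2 (-40, -554) (by decide +kernel)
            (CovZ.n2 (-41, -555) (by decide +kernel)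
             (CovZ.leaf K2_ok TQ_l165 _)
             (CovZ.n1 (-40, -555) (by decide +kernel)
              (CovZ.leaf K2_ok TQ_l166 _)
              (CovZ.leaf K2_ok TQ_l167 _)))
            (CovZ.n1 (-41, -553) (by decide +kernel)
             (CovZ.leaf K2_ok TQ_l168 _)
             (CovZ.leaf K2_ok TQ_l169 _)))
           (CovZ.n1 (-42, -556) (by decide +kernel)
            (CovZ.n2 (-43, -555) (by decide +kernel)
             (CovZ.n2 (-42, -555) (by decide +kernel)
              (CovZ.leaf K2_ok TQ_l170 _)
              (CovZ.leaf K2_ok TQ_l171 _))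
             (CovZ.leaf K2_ok TQ_l172 _))
            (CovZ.n1 (-41, -555) (by decide +kernel)
             (CovZ.leaf K2_ok TQ_l173 _)
             (CovZ.leaf K2_ok TQ_l174 _)))))
         (CovZ.subM 155374462127046676 (by decide +kernel)
          (CovZ.n1 (-44, -560) (by decide +kernel)
           (CovZ.subM 11259273950527488 (by decide +kernel)
            (CovZ.n2 (-46, -558) (by decide +kernel)
             (CovZ.n2 (-44, -558) (by decide +kernel)
              (CovZ.n2 (-45, -559) (by decide +kernel)
               (CovZ.leaf K2_ok TQ_l175 _)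
               (CovZ.n1 (-44, -559) (by decide +kernel)
                (CovZ.leaf K2_ok TQ_l176 _)
                (CovZ.leaf K2_ok TQ_l177 _)))
              (CovZ.n1 (-45, -557) (by decide +kernel)
               (CovZ.n2 (-44, -557) (by decide +kernel)
                (CovZ.leaf K2_ok TQ_l178 _)
                (CovZ.leaf K2_ok TQ_l179 _))
               (CovZ.n1 (-45, -558) (by decide +kernel)
                (CovZ.leaf K2_ok TQ_l180 _)
                (CovZ.leaf K2_ok TQ_l181 _))))
             (CovZ.n1 (-46, -560) (by decide +kernel)
              (CovZ.badM (by decide +kernel))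
              (CovZ.n1 (-45, -559) (by decide +kernel)
               (CovZ.n2 (-45, -560) (by decide +kernel)
                (CovZ.badM (by decide +kernel))
                (CovZ.leaf K2_ok TQ_l182 _))
               (CovZ.badM (by decide +kernel))))))
           (CovZ.n1 (-42, -558) (by decide +kernel)
            (CovZ.n2 (-42, -560) (by decide +kernel)
             (CovZ.n2 (-43, -559) (by decide +kernel)
              (CovZ.n2 (-42, -559) (by decide +kernel)
               (CovZ.leaf K2_ok TQ_l183 _)
               (CovZ.leaf K2_ok TQ_l184 _))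
              (CovZ.n1 (-43, -560) (by decide +kernel)
               (CovZ.leaf K2_ok TQ_l185 _)
               (CovZ.leaf K2_ok TQ_l186 _)))
             (CovZ.n1 (-41, -559) (by decide +kernel)
              (CovZ.leaf K2_ok TQ_l187 _)
              (CovZ.leaf K2_ok TQ_l188 _)))
            (CovZ.n1 (-44, -558) (by decide +kernel)
             (CovZ.n2 (-43, -557) (by decide +kernel)
              (CovZ.n2 (-43, -558) (by decide +kernel)
               (CovZ.leaf K2_ok TQ_l189 _)
               (CovZ.leaf K2_ok TQ_l190 _))
              (CovZ.leaf K2_ok TQ_l191 _))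
             (CovZ.n1 (-43, -559) (by decide +kernel)
              (CovZ.n2 (-44, -559) (by decide +kernel)
               (CovZ.leaf K2_ok TQ_l192 _)
               (CovZ.leaf K2_ok TQ_l193 _))
              (CovZ.leaf K2_ok TQ_l194 _))))))))
       (CovZ.n1 (-36, -556) (by decide +kernel)
        (CovZ.subM 4287871913111654828125 (by decide +kernel)
         (CovZ.n2 (-36, -560) (by decide +kernel)
          (CovZ.n2 (-38, -558) (by decide +kernel)
           (CovZ.n2 (-36, -558) (by decide +kernel)
            (CovZ.n2 (-37, -559) (by decide +kernel)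
             (CovZ.leaf K2_ok TQ_l195 _)
             (CovZ.leaf K2_ok TQ_l196 _))
            (CovZ.n1 (-37, -557) (by decide +kernel)
             (CovZ.leaf K2_ok TQ_l197 _)
             (CovZ.leaf K2_ok TQ_l198 _)))
           (CovZ.n1 (-38, -560) (by decide +kernel)
            (CovZ.n2 (-39, -559) (by decide +kernel)
             (CovZ.leaf K2_ok TQ_l199 _)
             (CovZ.leaf K2_ok TQ_l200 _))
            (CovZ.leaf K2_ok TQ_l201 _)))
          (CovZ.n1 (-34, -558) (by decide +kernel)
           (CovZ.n2 (-34, -560) (by decide +kernel)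
            (CovZ.leaf K2_ok TQ_l202 _)
            (CovZ.leaf K2_ok TQ_l203 _))
           (CovZ.n1 (-36, -558) (by decide +kernel)
            (CovZ.leaf K2_ok TQ_l204 _)
            (CovZ.n1 (-35, -559) (by decide +kernel)
             (CovZ.leaf K2_ok TQ_l205 _)
             (CovZ.leaf K2_ok TQ_l206 _))))))
        (CovZ.n1 (-40, -556) (by decide +kernel)
         (CovZ.n2 (-38, -554) (by decide +kernel)
          (CovZ.n2 (-38, -556) (by decide +kernel)
           (CovZ.n2 (-39, -555) (by decide +kernel)
            (CovZ.leaf K2_ok TQ_l207 _)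
            (CovZ.leaf K2_ok TQ_l208 _))
           (CovZ.leaf K2_ok TQ_l209 _))
          (CovZ.n1 (-40, -554) (by decide +kernel)
           (CovZ.leaf K2_ok TQ_l210 _)
           (CovZ.n1 (-39, -555) (by decide +kernel)
            (CovZ.leaf K2_ok TQ_l211 _)
            (CovZ.leaf K2_ok TQ_l212 _))))
         (CovZ.subM 4287871913111654565981 (by decide +kernel)
          (CovZ.n1 (-38, -558) (by decide +kernel)
           (CovZ.n2 (-40, -558) (by decide +kernel)
            (CovZ.n2 (-39, -557) (by decide +kernel)
             (CovZ.leaf K2_ok TQ_l213 _)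
             (CovZ.leaf K2_ok TQ_l214 _))
            (CovZ.n1 (-39, -559) (by decide +kernel)
             (CovZ.leaf K2_ok TQ_l215 _)
             (CovZ.leaf K2_ok TQ_l216 _)))
           (CovZ.n1 (-38, -556) (by decide +kernel)
            (CovZ.n2 (-37, -557) (by decide +kernel)
             (CovZ.leaf K2_ok TQ_l217 _)
             (CovZ.leaf K2_ok TQ_l218 _))
            (CovZ.n1 (-39, -557) (by decide +kernel)
             (CovZ.leaf K2_ok TQ_l219 _)
             (CovZ.leaf K2_ok TQ_l220 _)))))))))

theorem TQ_u2 : CovZ TQ_M (toL (selN TQ_LN 37741947585778644942431)) [0, 7, 4, 3] (-32, -544) (-48, -544) (-48, -560) :=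
    (CovZ.n2 (-40, -552) (by decide +kernel)
      (CovZ.n2 (-48, -552) (by decide +kernel)
       (CovZ.n2 (-44, -548) (by decide +kernel)
        (CovZ.subM 27911233522711510223453 (by decide +kernel)
         (CovZ.n2 (-44, -552) (by decide +kernel)
          (CovZ.n2 (-46, -550) (by decide +kernel)
           (CovZ.n2 (-44, -550) (by decide +kernel)
            (CovZ.n2 (-45, -551) (by decide +kernel)
             (CovZ.leaf K2_ok TQ_l232 _)
             (CovZ.n1 (-44, -551) (by decide +kernel)
              (CovZ.leaf K2_ok TQ_l233 _)
              (CovZ.leaf K2_ok TQ_l234 _)))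
            (CovZ.n1 (-45, -549) (by decide +kernel)
             (CovZ.leaf K2_ok TQ_l235 _)
             (CovZ.leaf K2_ok TQ_l236 _)))
           (CovZ.subM 2951490346914383725132 (by decide +kernel)
            (CovZ.n1 (-46, -552) (by decide +kernel)
             (CovZ.n2 (-47, -551) (by decide +kernel)
              (CovZ.n2 (-46, -551) (by decide +kernel)
               (CovZ.leaf K2_ok TQ_l237 _)
               (CovZ.leaf K2_ok TQ_l238 _))
              (CovZ.leaf K2_ok TQ_l239 _))
             (CovZ.n1 (-45, -551) (by decide +kernel)
              (CovZ.leaf K2_ok TQ_l240 _)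
              (CovZ.leaf K2_ok TQ_l241 _)))))
          (CovZ.n1 (-42, -550) (by decide +kernel)
           (CovZ.n2 (-42, -552) (by decide +kernel)
            (CovZ.n2 (-43, -551) (by decide +kernel)
             (CovZ.leaf K2_ok TQ_l242 _)
             (CovZ.leaf K2_ok TQ_l243 _))
            (CovZ.leaf K2_ok TQ_l244 _))
           (CovZ.n1 (-44, -550) (by decide +kernel)
            (CovZ.leaf K2_ok TQ_l245 _)
            (CovZ.n1 (-43, -551) (by decide +kernel)
             (CovZ.leaf K2_ok TQ_l246 _)
             (CovZ.leaf K2_ok TQ_l247 _))))))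
        (CovZ.subM 9317382744872298586700 (by decide +kernel)
         (CovZ.n1 (-48, -548) (by decide +kernel)
          (CovZ.n2 (-46, -546) (by decide +kernel)
           (CovZ.n2 (-46, -548) (by decide +kernel)
            (CovZ.n2 (-47, -547) (by decide +kernel)
             (CovZ.leaf K2_ok TQ_l248 _)
             (CovZ.leaf K2_ok TQ_l249 _))
            (CovZ.leaf K2_ok TQ_l250 _))
           (CovZ.n1 (-48, -546) (by decide +kernel)
            (CovZ.leaf K2_ok TQ_l251 _)
            (CovZ.n1 (-47, -547) (by decide +kernel)
             (CovZ.leaf K2_ok TQ_l252 _)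
             (CovZ.leaf K2_ok TQ_l253 _))))
          (CovZ.n1 (-46, -550) (by decide +kernel)
           (CovZ.subM 7822007243124930773580 (by decide +kernel)
            (CovZ.n2 (-48, -550) (by decide +kernel)
             (CovZ.n2 (-47, -549) (by decide +kernel)
              (CovZ.leaf K2_ok TQ_l254 _)
              (CovZ.leaf K2_ok TQ_l255 _))
             (CovZ.n1 (-47, -551) (by decide +kernel)
              (CovZ.leaf K2_ok TQ_l256 _)
              (CovZ.leaf K2_ok TQ_l257 _))))
           (CovZ.n1 (-46, -548) (by decide +kernel)
            (CovZ.n2 (-45, -549) (by decide +kernel)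
             (CovZ.leaf K2_ok TQ_l258 _)
             (CovZ.leaf K2_ok TQ_l259 _))
            (CovZ.n1 (-47, -549) (by decide +kernel)
             (CovZ.leaf K2_ok TQ_l260 _)
             (CovZ.n1 (-46, -549) (by decide +kernel)
              (CovZ.leaf K2_ok TQ_l261 _)
              (CovZ.leaf K2_ok TQ_l262 _))))))))
       (CovZ.subM 27911233522711510222941 (by decide +kernel)
        (CovZ.n1 (-44, -556) (by decide +kernel)
         (CovZ.subM 11259275024269312 (by decide +kernel)
          (CovZ.n2 (-48, -556) (by decide +kernel)
           (CovZ.n2 (-46, -554) (by decide +kernel)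
            (CovZ.n2 (-46, -556) (by decide +kernel)
             (CovZ.n2 (-47, -555) (by decide +kernel)
              (CovZ.n2 (-46, -555) (by decide +kernel)
               (CovZ.leaf K2_ok TQ_l263 _)
               (CovZ.leaf K2_ok TQ_l264 _))
              (CovZ.leaf K2_ok TQ_l265 _))
             (CovZ.n1 (-45, -555) (by decide +kernel)
              (CovZ.leaf K2_ok TQ_l266 _)
              (CovZ.leaf K2_ok TQ_l267 _)))
            (CovZ.n1 (-48, -554) (by decide +kernel)
             (CovZ.n2 (-47, -553) (by decide +kernel)
              (CovZ.leaf K2_ok TQ_l268 _)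
              (CovZ.leaf K2_ok TQ_l269 _))
             (CovZ.n1 (-47, -555) (by decide +kernel)
              (CovZ.badM (by decide +kernel))
              (CovZ.leaf K2_ok TQ_l270 _))))
           (CovZ.n1 (-46, -558) (by decide +kernel)
            (CovZ.badM (by decide +kernel))
            (CovZ.n1 (-46, -556) (by decide +kernel)
             (CovZ.n2 (-45, -557) (by decide +kernel)
              (CovZ.leaf K2_ok TQ_l271 _)
              (CovZ.leaf K2_ok TQ_l272 _))
             (CovZ.n1 (-47, -557) (by decide +kernel)
              (CovZ.leaf K2_ok TQ_l273 _)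
              (CovZ.n1 (-46, -557) (by decide +kernel)
               (CovZ.badM (by decide +kernel))
               (CovZ.leaf K2_ok TQ_l274 _)))))))
         (CovZ.n1 (-44, -552) (by decide +kernel)
          (CovZ.n2 (-42, -554) (by decide +kernel)
           (CovZ.n2 (-44, -554) (by decide +kernel)
            (CovZ.n2 (-43, -553) (by decide +kernel)
             (CovZ.leaf K2_ok TQ_l275 _)
             (CovZ.leaf K2_ok TQ_l276 _))
            (CovZ.n1 (-43, -555) (by decide +kernel)
             (CovZ.leaf K2_ok TQ_l277 _)
             (CovZ.leaf K2_ok TQ_l278 _)))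
           (CovZ.n1 (-42, -552) (by decide +kernel)
            (CovZ.n2 (-41, -553) (by decide +kernel)
             (CovZ.leaf K2_ok TQ_l279 _)
             (CovZ.leaf K2_ok TQ_l280 _))
            (CovZ.n1 (-43, -553) (by decide +kernel)
             (CovZ.leaf K2_ok TQ_l281 _)
             (CovZ.n1 (-42, -553) (by decide +kernel)
              (CovZ.leaf K2_ok TQ_l282 _)
              (CovZ.leaf K2_ok TQ_l283 _)))))
          (CovZ.subM 2951490346914383724620 (by decide +kernel)
           (CovZ.n1 (-46, -554) (by decide +kernel)
            (CovZ.n2 (-46, -552) (by decide +kernel)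
             (CovZ.n2 (-45, -553) (by decide +kernel)
              (CovZ.leaf K2_ok TQ_l284 _)
              (CovZ.leaf K2_ok TQ_l285 _))
             (CovZ.n1 (-47, -553) (by decide +kernel)
              (CovZ.leaf K2_ok TQ_l286 _)
              (CovZ.n1 (-46, -553) (by decide +kernel)
               (CovZ.leaf K2_ok TQ_l287 _)
               (CovZ.leaf K2_ok TQ_l288 _))))
            (CovZ.n1 (-44, -554) (by decide +kernel)
             (CovZ.n2 (-45, -555) (by decide +kernel)
              (CovZ.leaf K2_ok TQ_l289 _)
              (CovZ.n1 (-44, -555) (by decide +kernel)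
               (CovZ.leaf K2_ok TQ_l290 _)
               (CovZ.leaf K2_ok TQ_l291 _)))
             (CovZ.n1 (-45, -553) (by decide +kernel)
              (CovZ.n2 (-44, -553) (by decide +kernel)
               (CovZ.leaf K2_ok TQ_l292 _)
               (CovZ.leaf K2_ok TQ_l293 _))
              (CovZ.leaf K2_ok TQ_l294 _)))))))))
      (CovZ.n1 (-40, -544) (by decide +kernel)
       (CovZ.n2 (-36, -548) (by decide +kernel)
        (CovZ.n2 (-40, -548) (by decide +kernel)
         (CovZ.n2 (-38, -546) (by decide +kernel)
          (CovZ.n2 (-38, -548) (by decide +kernel)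
           (CovZ.n2 (-39, -547) (by decide +kernel)
            (CovZ.leaf K2_ok TQ_l295 _)
            (CovZ.leaf K2_ok TQ_l296 _))
           (CovZ.leaf K2_ok TQ_l297 _))
          (CovZ.n1 (-40, -546) (by decide +kernel)
           (CovZ.leaf K2_ok TQ_l298 _)
           (CovZ.n1 (-39, -547) (by decide +kernel)
            (CovZ.leaf K2_ok TQ_l299 _)
            (CovZ.leaf K2_ok TQ_l300 _))))
         (CovZ.n1 (-38, -550) (by decide +kernel)
          (CovZ.n2 (-40, -550) (by decide +kernel)
           (CovZ.leaf K2_ok TQ_l301 _)
           (CovZ.n1 (-39, -551) (by decide +kernel)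
            (CovZ.leaf K2_ok TQ_l302 _)
            (CovZ.leaf K2_ok TQ_l303 _)))
          (CovZ.n1 (-38, -548) (by decide +kernel)
           (CovZ.n2 (-37, -549) (by decide +kernel)
            (CovZ.leaf K2_ok TQ_l304 _)
            (CovZ.leaf K2_ok TQ_l305 _))
           (CovZ.n1 (-39, -549) (by decide +kernel)
            (CovZ.leaf K2_ok TQ_l306 _)
            (CovZ.leaf K2_ok TQ_l307 _)))))
        (CovZ.n1 (-36, -544) (by decide +kernel)
         (CovZ.n2 (-34, -546) (by decide +kernel)
          (CovZ.n2 (-36, -546) (by decide +kernel)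
           (CovZ.leaf K2_ok TQ_l308 _)
           (CovZ.leaf K2_ok TQ_l309 _))
          (CovZ.n1 (-34, -544) (by decide +kernel)
           (CovZ.leaf K2_ok TQ_l310 _)
           (CovZ.leaf K2_ok TQ_l311 _)))
         (CovZ.n1 (-38, -546) (by decide +kernel)
          (CovZ.n2 (-38, -544) (by decide +kernel)
           (CovZ.leaf K2_ok TQ_l312 _)
           (CovZ.n1 (-39, -545) (by decide +kernel)
            (CovZ.leaf K2_ok TQ_l313 _)
            (CovZ.leaf K2_ok TQ_l314 _)))
          (CovZ.n1 (-36, -546) (by decide +kernel)
           (CovZ.n2 (-37, -547) (by decide +kernel)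
            (CovZ.leaf K2_ok TQ_l315 _)
            (CovZ.leaf K2_ok TQ_l316 _))
           (CovZ.n1 (-37, -545) (by decide +kernel)
            (CovZ.leaf K2_ok TQ_l317 _)
            (CovZ.leaf K2_ok TQ_l318 _))))))
       (CovZ.n1 (-44, -548) (by decide +kernel)
        (CovZ.n2 (-44, -544) (by decide +kernel)
         (CovZ.n2 (-42, -546) (by decide +kernel)
          (CovZ.n2 (-44, -546) (by decide +kernel)
           (CovZ.leaf K2_ok TQ_l319 _)
           (CovZ.n1 (-43, -547) (by decide +kernel)
            (CovZ.leaf K2_ok TQ_l320 _)
            (CovZ.leaf K2_ok TQ_l321 _)))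
          (CovZ.n1 (-42, -544) (by decide +kernel)
           (CovZ.leaf K2_ok TQ_l322 _)
           (CovZ.n1 (-43, -545) (by decide +kernel)
            (CovZ.leaf K2_ok TQ_l323 _)
            (CovZ.leaf K2_ok TQ_l324 _))))
         (CovZ.n1 (-46, -546) (by decide +kernel)
          (CovZ.n2 (-46, -544) (by decide +kernel)
           (CovZ.n2 (-45, -545) (by decide +kernel)
            (CovZ.leaf K2_ok TQ_l325 _)
            (CovZ.leaf K2_ok TQ_l326 _))
           (CovZ.n1 (-47, -545) (by decide +kernel)
            (CovZ.leaf K2_ok TQ_l327 _)
            (CovZ.leaf K2_ok TQ_l328 _)))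
          (CovZ.n1 (-44, -546) (by decide +kernel)
           (CovZ.n2 (-45, -547) (by decide +kernel)
            (CovZ.leaf K2_ok TQ_l329 _)
            (CovZ.n1 (-44, -547) (by decide +kernel)
             (CovZ.leaf K2_ok TQ_l330 _)
             (CovZ.leaf K2_ok TQ_l331 _)))
           (CovZ.n1 (-45, -545) (by decide +kernel)
            (CovZ.leaf K2_ok TQ_l332 _)
            (CovZ.leaf K2_ok TQ_l333 _)))))
        (CovZ.n1 (-40, -548) (by decide +kernel)
         (CovZ.n2 (-42, -550) (by decide +kernel)
          (CovZ.subM 9026379294843542800989 (by decide +kernel)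
           (CovZ.n2 (-42, -548) (by decide +kernel)
            (CovZ.n2 (-41, -549) (by decide +kernel)
             (CovZ.leaf K2_ok TQ_l334 _)
             (CovZ.leaf K2_ok TQ_l335 _))
            (CovZ.n1 (-43, -549) (by decide +kernel)
             (CovZ.leaf K2_ok TQ_l336 _)
             (CovZ.leaf K2_ok TQ_l337 _))))
          (CovZ.n1 (-40, -550) (by decide +kernel)
           (CovZ.n2 (-41, -551) (by decide +kernel)
            (CovZ.leaf K2_ok TQ_l338 _)
            (CovZ.leaf K2_ok TQ_l339 _))
           (CovZ.n1 (-41, -549) (by decide +kernel)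
            (CovZ.leaf K2_ok TQ_l340 _)
            (CovZ.leaf K2_ok TQ_l341 _))))
         (CovZ.n1 (-42, -546) (by decide +kernel)
          (CovZ.n2 (-40, -546) (by decide +kernel)
           (CovZ.n2 (-41, -547) (by decide +kernel)
            (CovZ.leaf K2_ok TQ_l342 _)
            (CovZ.leaf K2_ok TQ_l343 _))
           (CovZ.n1 (-41, -545) (by decide +kernel)
            (CovZ.leaf K2_ok TQ_l344 _)
            (CovZ.leaf K2_ok TQ_l345 _)))
          (CovZ.n1 (-42, -548) (by decide +kernel)
           (CovZ.n2 (-43, -547) (by decide +kernel)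
            (CovZ.leaf K2_ok TQ_l346 _)
            (CovZ.leaf K2_ok TQ_l347 _))
           (CovZ.leaf K2_ok TQ_l348 _)))))))

theorem TQ_u3 : CovZ TQ_M (toL (selN TQ_LN 37741947585778644942431)) [0, 7, 4, 3] (-48, -544) (-64, -544) (-48, -560) :=
    (CovZ.subM 8136791124155956830284 (by decide +kernel)
      (CovZ.n1 (-56, -552) (by decide +kernel)
       (CovZ.n2 (-56, -544) (by decide +kernel)
        (CovZ.n2 (-52, -548) (by decide +kernel)
         (CovZ.subM 295192941794370265088 (by decide +kernel)
          (CovZ.n2 (-56, -548) (by decide +kernel)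
           (CovZ.n2 (-54, -546) (by decide +kernel)
            (CovZ.subM 295156912928363380736 (by decide +kernel)
             (CovZ.n2 (-54, -548) (by decide +kernel)
              (CovZ.n2 (-55, -547) (by decide +kernel)
               (CovZ.n2 (-54, -547) (by decide +kernel)
                (CovZ.badM (by decide +kernel))
                (CovZ.badM (by decide +kernel)))
               (CovZ.badM (by decide +kernel)))
              (CovZ.n1 (-53, -547) (by decide +kernel)
               (CovZ.leaf K2_ok TQ_l349 _)
               (CovZ.leaf K2_ok TQ_l350 _))))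
            (CovZ.n1 (-56, -546) (by decide +kernel)
             (CovZ.n2 (-55, -545) (by decide +kernel)
              (CovZ.badM (by decide +kernel))
              (CovZ.leaf K2_ok TQ_l351 _))
             (CovZ.badM (by decide +kernel))))
           (CovZ.subM 9007199254740992 (by decide +kernel)
            (CovZ.n1 (-54, -550) (by decide +kernel)
             (CovZ.badM (by decide +kernel))
             (CovZ.n1 (-54, -548) (by decide +kernel)
              (CovZ.n2 (-53, -549) (by decide +kernel)
               (CovZ.badM (by decide +kernel))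
               (CovZ.leaf K2_ok TQ_l352 _))
              (CovZ.badM (by decide +kernel)))))))
         (CovZ.n1 (-52, -544) (by decide +kernel)
          (CovZ.n2 (-50, -546) (by decide +kernel)
           (CovZ.n2 (-52, -546) (by decide +kernel)
            (CovZ.leaf K2_ok TQ_l353 _)
            (CovZ.n1 (-51, -547) (by decide +kernel)
             (CovZ.leaf K2_ok TQ_l354 _)
             (CovZ.leaf K2_ok TQ_l355 _)))
           (CovZ.n1 (-50, -544) (by decide +kernel)
            (CovZ.n2 (-49, -545) (by decide +kernel)
             (CovZ.leaf K2_ok TQ_l356 _)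
             (CovZ.leaf K2_ok TQ_l357 _))
            (CovZ.n1 (-51, -545) (by decide +kernel)
             (CovZ.leaf K2_ok TQ_l358 _)
             (CovZ.leaf K2_ok TQ_l359 _))))
          (CovZ.subM 8116614716349233504320 (by decide +kernel)
           (CovZ.n1 (-54, -546) (by decide +kernel)
            (CovZ.subM 147582960175746654272 (by decide +kernel)
             (CovZ.n2 (-54, -544) (by decide +kernel)
              (CovZ.n2 (-53, -545) (by decide +kernel)
               (CovZ.leaf K2_ok TQ_l360 _)
               (CovZ.leaf K2_ok TQ_l361 _))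
              (CovZ.n1 (-55, -545) (by decide +kernel)
               (CovZ.leaf K2_ok TQ_l362 _)
               (CovZ.leaf K2_ok TQ_l363 _))))
            (CovZ.n1 (-52, -546) (by decide +kernel)
             (CovZ.n2 (-53, -547) (by decide +kernel)
              (CovZ.leaf K2_ok TQ_l364 _)
              (CovZ.leaf K2_ok TQ_l365 _))
             (CovZ.n1 (-53, -545) (by decide +kernel)
              (CovZ.leaf K2_ok TQ_l366 _)
              (CovZ.leaf K2_ok TQ_l367 _)))))))
        (CovZ.subM 295183934526127611904 (by decide +kernel)
         (CovZ.n1 (-60, -548) (by decide +kernel)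
          (CovZ.n2 (-60, -544) (by decide +kernel)
           (CovZ.n2 (-58, -546) (by decide +kernel)
            (CovZ.badM (by decide +kernel))
            (CovZ.n1 (-58, -544) (by decide +kernel)
             (CovZ.n2 (-57, -545) (by decide +kernel)
              (CovZ.badM (by decide +kernel))
              (CovZ.leaf K2_ok TQ_l368 _))
             (CovZ.badM (by decide +kernel))))
           (CovZ.badM (by decide +kernel)))
          (CovZ.n1 (-56, -548) (by decide +kernel)
           (CovZ.badM (by decide +kernel))
           (CovZ.n1 (-58, -546) (by decide +kernel)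
            (CovZ.n2 (-56, -546) (by decide +kernel)
             (CovZ.badM (by decide +kernel))
             (CovZ.n1 (-57, -545) (by decide +kernel)
              (CovZ.n2 (-56, -545) (by decide +kernel)
               (CovZ.badM (by decide +kernel))
               (CovZ.leaf K2_ok TQ_l369 _))
              (CovZ.badM (by decide +kernel))))
            (CovZ.badM (by decide +kernel)))))))
       (CovZ.n1 (-48, -552) (by decide +kernel)
        (CovZ.subM 11259275020075008 (by decide +kernel)
         (CovZ.n2 (-52, -556) (by decide +kernel)
          (CovZ.n2 (-52, -552) (by decide +kernel)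
           (CovZ.n2 (-50, -554) (by decide +kernel)
            (CovZ.badM (by decide +kernel))
            (CovZ.n1 (-50, -552) (by decide +kernel)
             (CovZ.n2 (-49, -553) (by decide +kernel)
              (CovZ.badM (by decide +kernel))
              (CovZ.leaf K2_ok TQ_l370 _))
             (CovZ.badM (by decide +kernel))))
           (CovZ.badM (by decide +kernel)))
          (CovZ.n1 (-48, -556) (by decide +kernel)
           (CovZ.badM (by decide +kernel))
           (CovZ.n1 (-50, -554) (by decide +kernel)
            (CovZ.n2 (-48, -554) (by decide +kernel)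
             (CovZ.badM (by decide +kernel))
             (CovZ.n1 (-49, -553) (by decide +kernel)
              (CovZ.n2 (-48, -553) (by decide +kernel)
               (CovZ.badM (by decide +kernel))
               (CovZ.leaf K2_ok TQ_l371 _))
              (CovZ.badM (by decide +kernel))))
            (CovZ.badM (by decide +kernel))))))
        (CovZ.n1 (-52, -548) (by decide +kernel)
         (CovZ.n2 (-48, -548) (by decide +kernel)
          (CovZ.subM 7822007243124930773068 (by decide +kernel)
           (CovZ.n2 (-50, -550) (by decide +kernel)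
            (CovZ.n2 (-50, -548) (by decide +kernel)
             (CovZ.n2 (-49, -549) (by decide +kernel)
              (CovZ.leaf K2_ok TQ_l372 _)
              (CovZ.leaf K2_ok TQ_l373 _))
             (CovZ.n1 (-51, -549) (by decide +kernel)
              (CovZ.leaf K2_ok TQ_l374 _)
              (CovZ.n1 (-50, -549) (by decide +kernel)
               (CovZ.leaf K2_ok TQ_l375 _)
               (CovZ.leaf K2_ok TQ_l376 _))))
            (CovZ.n1 (-48, -550) (by decide +kernel)
             (CovZ.n2 (-49, -551) (by decide +kernel)
              (CovZ.leaf K2_ok TQ_l377 _)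
              (CovZ.n1 (-48, -551) (by decide +kernel)
               (CovZ.leaf K2_ok TQ_l378 _)
               (CovZ.leaf K2_ok TQ_l379 _)))
             (CovZ.n1 (-49, -549) (by decide +kernel)
              (CovZ.n2 (-48, -549) (by decide +kernel)
               (CovZ.leaf K2_ok TQ_l380 _)
               (CovZ.leaf K2_ok TQ_l381 _))
              (CovZ.leaf K2_ok TQ_l382 _)))))
          (CovZ.n1 (-50, -546) (by decide +kernel)
           (CovZ.n2 (-48, -546) (by decide +kernel)
            (CovZ.n2 (-49, -547) (by decide +kernel)
             (CovZ.leaf K2_ok TQ_l383 _)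
             (CovZ.leaf K2_ok TQ_l384 _))
            (CovZ.n1 (-49, -545) (by decide +kernel)
             (CovZ.leaf K2_ok TQ_l385 _)
             (CovZ.leaf K2_ok TQ_l386 _)))
           (CovZ.n1 (-50, -548) (by decide +kernel)
            (CovZ.n2 (-51, -547) (by decide +kernel)
             (CovZ.n2 (-50, -547) (by decide +kernel)
              (CovZ.leaf K2_ok TQ_l387 _)
              (CovZ.leaf K2_ok TQ_l388 _))
             (CovZ.leaf K2_ok TQ_l389 _))
            (CovZ.leaf K2_ok TQ_l390 _))))
         (CovZ.subM 587720026250280968 (by decide +kernel)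
          (CovZ.n1 (-52, -552) (by decide +kernel)
           (CovZ.subM 9007199254740992 (by decide +kernel)
            (CovZ.n2 (-54, -550) (by decide +kernel)
             (CovZ.n2 (-52, -550) (by decide +kernel)
              (CovZ.badM (by decide +kernel))
              (CovZ.n1 (-53, -549) (by decide +kernel)
               (CovZ.n2 (-52, -549) (by decide +kernel)
                (CovZ.badM (by decide +kernel))
                (CovZ.leaf K2_ok TQ_l391 _))
               (CovZ.badM (by decide +kernel))))
             (CovZ.badM (by decide +kernel))))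
           (CovZ.n1 (-50, -550) (by decide +kernel)
            (CovZ.n2 (-50, -552) (by decide +kernel)
             (CovZ.n2 (-51, -551) (by decide +kernel)
              (CovZ.n2 (-50, -551) (by decide +kernel)
               (CovZ.badM (by decide +kernel))
               (CovZ.leaf K2_ok TQ_l392 _))
              (CovZ.badM (by decide +kernel)))
             (CovZ.n1 (-49, -551) (by decide +kernel)
              (CovZ.leaf K2_ok TQ_l393 _)
              (CovZ.leaf K2_ok TQ_l394 _)))
            (CovZ.subM 9007199255265288 (by decide +kernel)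
             (CovZ.n1 (-52, -550) (by decide +kernel)
              (CovZ.n2 (-51, -549) (by decide +kernel)
               (CovZ.leaf K2_ok TQ_l395 _)
               (CovZ.leaf K2_ok TQ_l396 _))
              (CovZ.n1 (-51, -551) (by decide +kernel)
               (CovZ.badM (by decide +kernel))
               (CovZ.leaf K2_ok TQ_l397 _)))))))))))

theorem TQ_u4 : CovZ TQ_M (toL (selN TQ_LN 37778913848541404987263)) [0, 7, 4, 3] (-64, -544) (-48, -544) (-48, -528) :=
    (CovZ.subM 10881108956501379775563 (by decide +kernel)
      (CovZ.n2 (-56, -536) (by decide +kernel)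
       (CovZ.n2 (-48, -536) (by decide +kernel)
        (CovZ.n2 (-52, -540) (by decide +kernel)
         (CovZ.subM 18527809219492176907 (by decide +kernel)
          (CovZ.n2 (-52, -536) (by decide +kernel)
           (CovZ.n2 (-50, -538) (by decide +kernel)
            (CovZ.n2 (-52, -538) (by decide +kernel)
             (CovZ.leaf K2_ok TQ_l489 _)
             (CovZ.leaf K2_ok TQ_l490 _))
            (CovZ.n1 (-50, -536) (by decide +kernel)
             (CovZ.leaf K2_ok TQ_l491 _)
             (CovZ.leaf K2_ok TQ_l492 _)))
           (CovZ.n1 (-54, -538) (by decide +kernel)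
            (CovZ.n2 (-54, -536) (by decide +kernel)
             (CovZ.leaf K2_ok TQ_l493 _)
             (CovZ.leaf K2_ok TQ_l494 _))
            (CovZ.n1 (-52, -538) (by decide +kernel)
             (CovZ.leaf K2_ok TQ_l495 _)
             (CovZ.leaf K2_ok TQ_l496 _)))))
         (CovZ.n1 (-48, -540) (by decide +kernel)
          (CovZ.n2 (-50, -542) (by decide +kernel)
           (CovZ.subM 92823692306582970376 (by decide +kernel)
            (CovZ.n2 (-50, -540) (by decide +kernel)
             (CovZ.n2 (-49, -541) (by decide +kernel)
              (CovZ.leaf K2_ok TQ_l497 _)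
              (CovZ.leaf K2_ok TQ_l498 _))
             (CovZ.n1 (-51, -541) (by decide +kernel)
              (CovZ.leaf K2_ok TQ_l499 _)
              (CovZ.leaf K2_ok TQ_l500 _))))
           (CovZ.n1 (-48, -542) (by decide +kernel)
            (CovZ.n2 (-49, -543) (by decide +kernel)
             (CovZ.leaf K2_ok TQ_l501 _)
             (CovZ.leaf K2_ok TQ_l502 _))
            (CovZ.leaf K2_ok TQ_l503 _)))
          (CovZ.subM 18527809219492176907 (by decide +kernel)
           (CovZ.n1 (-50, -538) (by decide +kernel)
            (CovZ.n2 (-48, -538) (by decide +kernel)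
             (CovZ.leaf K2_ok TQ_l504 _)
             (CovZ.leaf K2_ok TQ_l505 _))
            (CovZ.n1 (-50, -540) (by decide +kernel)
             (CovZ.leaf K2_ok TQ_l506 _)
             (CovZ.leaf K2_ok TQ_l507 _))))))
        (CovZ.subM 18455892362942606347 (by decide +kernel)
         (CovZ.n1 (-52, -532) (by decide +kernel)
          (CovZ.n2 (-48, -532) (by decide +kernel)
           (CovZ.n2 (-50, -534) (by decide +kernel)
            (CovZ.leaf K2_ok TQ_l508 _)
            (CovZ.n1 (-48, -534) (by decide +kernel)
             (CovZ.leaf K2_ok TQ_l509 _)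
             (CovZ.leaf K2_ok TQ_l510 _)))
           (CovZ.n1 (-50, -530) (by decide +kernel)
            (CovZ.n2 (-48, -530) (by decide +kernel)
             (CovZ.leaf K2_ok TQ_l511 _)
             (CovZ.leaf K2_ok TQ_l512 _))
            (CovZ.leaf K2_ok TQ_l513 _)))
          (CovZ.n1 (-52, -536) (by decide +kernel)
           (CovZ.n2 (-54, -534) (by decide +kernel)
            (CovZ.n2 (-52, -534) (by decide +kernel)
             (CovZ.leaf K2_ok TQ_l514 _)
             (CovZ.leaf K2_ok TQ_l515 _))
            (CovZ.n1 (-54, -536) (by decide +kernel)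
             (CovZ.leaf K2_ok TQ_l516 _)
             (CovZ.leaf K2_ok TQ_l517 _)))
           (CovZ.n1 (-50, -534) (by decide +kernel)
            (CovZ.n2 (-50, -536) (by decide +kernel)
             (CovZ.leaf K2_ok TQ_l518 _)
             (CovZ.leaf K2_ok TQ_l519 _))
            (CovZ.leaf K2_ok TQ_l520 _))))))
       (CovZ.n1 (-56, -544) (by decide +kernel)
        (CovZ.subM 92319289044935647232 (by decide +kernel)
         (CovZ.n2 (-60, -540) (by decide +kernel)
          (CovZ.n2 (-56, -540) (by decide +kernel)
           (CovZ.subM 18455751281554235392 (by decide +kernel)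
            (CovZ.n2 (-58, -542) (by decide +kernel)
             (CovZ.n2 (-58, -540) (by decide +kernel)
              (CovZ.n2 (-57, -541) (by decide +kernel)
               (CovZ.leaf K2_ok TQ_l521 _)
               (CovZ.leaf K2_ok TQ_l522 _))
              (CovZ.n1 (-59, -541) (by decide +kernel)
               (CovZ.leaf K2_ok TQ_l523 _)
               (CovZ.leaf K2_ok TQ_l524 _)))
             (CovZ.n1 (-56, -542) (by decide +kernel)
              (CovZ.n2 (-57, -543) (by decide +kernel)
               (CovZ.leaf K2_ok TQ_l525 _)
               (CovZ.leaf K2_ok TQ_l526 _))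
              (CovZ.n1 (-57, -541) (by decide +kernel)
               (CovZ.leaf K2_ok TQ_l527 _)
               (CovZ.leaf K2_ok TQ_l528 _)))))
           (CovZ.n1 (-58, -538) (by decide +kernel)
            (CovZ.n2 (-56, -538) (by decide +kernel)
             (CovZ.leaf K2_ok TQ_l529 _)
             (CovZ.leaf K2_ok TQ_l530 _))
            (CovZ.n1 (-58, -540) (by decide +kernel)
             (CovZ.n2 (-59, -539) (by decide +kernel)
              (CovZ.leaf K2_ok TQ_l531 _)
              (CovZ.leaf K2_ok TQ_l532 _))
             (CovZ.leaf K2_ok TQ_l533 _))))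
          (CovZ.subM 8192 (by decide +kernel)
           (CovZ.n1 (-60, -544) (by decide +kernel)
            (CovZ.badM (by decide +kernel))
            (CovZ.n1 (-58, -542) (by decide +kernel)
             (CovZ.n2 (-58, -544) (by decide +kernel)
              (CovZ.badM (by decide +kernel))
              (CovZ.n1 (-57, -543) (by decide +kernel)
               (CovZ.leaf K2_ok TQ_l534 _)
               (CovZ.badM (by decide +kernel))))
             (CovZ.badM (by decide +kernel)))))))
        (CovZ.n1 (-52, -540) (by decide +kernel)
         (CovZ.n2 (-52, -544) (by decide +kernel)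
          (CovZ.subM 92242727954785837120 (by decide +kernel)
           (CovZ.n2 (-54, -542) (by decide +kernel)
            (CovZ.n2 (-52, -542) (by decide +kernel)
             (CovZ.n2 (-53, -543) (by decide +kernel)
              (CovZ.leaf K2_ok TQ_l535 _)
              (CovZ.leaf K2_ok TQ_l536 _))
             (CovZ.n1 (-53, -541) (by decide +kernel)
              (CovZ.leaf K2_ok TQ_l537 _)
              (CovZ.leaf K2_ok TQ_l538 _)))
            (CovZ.n1 (-54, -544) (by decide +kernel)
             (CovZ.n2 (-55, -543) (by decide +kernel)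
              (CovZ.leaf K2_ok TQ_l539 _)
              (CovZ.leaf K2_ok TQ_l540 _))
             (CovZ.leaf K2_ok TQ_l541 _))))
          (CovZ.n1 (-50, -542) (by decide +kernel)
           (CovZ.n2 (-50, -544) (by decide +kernel)
            (CovZ.n2 (-51, -543) (by decide +kernel)
             (CovZ.leaf K2_ok TQ_l542 _)
             (CovZ.leaf K2_ok TQ_l543 _))
            (CovZ.leaf K2_ok TQ_l544 _))
           (CovZ.n1 (-52, -542) (by decide +kernel)
            (CovZ.leaf K2_ok TQ_l545 _)
            (CovZ.n1 (-51, -543) (by decide +kernel)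
             (CovZ.leaf K2_ok TQ_l546 _)
             (CovZ.leaf K2_ok TQ_l547 _)))))
         (CovZ.subM 92319289113957179392 (by decide +kernel)
          (CovZ.n1 (-56, -540) (by decide +kernel)
           (CovZ.n2 (-54, -538) (by decide +kernel)
            (CovZ.n2 (-54, -540) (by decide +kernel)
             (CovZ.leaf K2_ok TQ_l548 _)
             (CovZ.leaf K2_ok TQ_l549 _))
            (CovZ.n1 (-56, -538) (by decide +kernel)
             (CovZ.leaf K2_ok TQ_l550 _)
             (CovZ.leaf K2_ok TQ_l551 _)))
           (CovZ.n1 (-54, -542) (by decide +kernel)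
            (CovZ.n2 (-56, -542) (by decide +kernel)
             (CovZ.leaf K2_ok TQ_l552 _)
             (CovZ.n1 (-55, -543) (by decide +kernel)
              (CovZ.leaf K2_ok TQ_l553 _)
              (CovZ.leaf K2_ok TQ_l554 _)))
            (CovZ.n1 (-54, -540) (by decide +kernel)
             (CovZ.leaf K2_ok TQ_l555 _)
             (CovZ.n1 (-55, -541) (by decide +kernel)
              (CovZ.leaf K2_ok TQ_l556 _)
              (CovZ.leaf K2_ok TQ_l557 _))))))))))

theorem TQ_u5 : CovZ TQ_M (toL (selN TQ_LN 37778913848541404987263)) [0, 7, 4, 3] (-48, -544) (-32, -544) (-48, -528) :=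
    (CovZ.n1 (-40, -536) (by decide +kernel)
      (CovZ.n2 (-40, -544) (by decide +kernel)
       (CovZ.n2 (-44, -540) (by decide +kernel)
        (CovZ.n2 (-40, -540) (by decide +kernel)
         (CovZ.n2 (-42, -542) (by decide +kernel)
          (CovZ.n2 (-42, -540) (by decide +kernel)
           (CovZ.leaf K2_ok TQ_l558 _)
           (CovZ.leaf K2_ok TQ_l559 _))
          (CovZ.n1 (-40, -542) (by decide +kernel)
           (CovZ.n2 (-41, -543) (by decide +kernel)
            (CovZ.leaf K2_ok TQ_l560 _)
            (CovZ.leaf K2_ok TQ_l561 _))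
           (CovZ.leaf K2_ok TQ_l562 _)))
         (CovZ.n1 (-42, -538) (by decide +kernel)
          (CovZ.n2 (-40, -538) (by decide +kernel)
           (CovZ.leaf K2_ok TQ_l563 _)
           (CovZ.leaf K2_ok TQ_l564 _))
          (CovZ.n1 (-42, -540) (by decide +kernel)
           (CovZ.leaf K2_ok TQ_l565 _)
           (CovZ.leaf K2_ok TQ_l566 _))))
        (CovZ.n1 (-44, -544) (by decide +kernel)
         (CovZ.n2 (-46, -542) (by decide +kernel)
          (CovZ.n2 (-44, -542) (by decide +kernel)
           (CovZ.n2 (-45, -543) (by decide +kernel)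
            (CovZ.leaf K2_ok TQ_l567 _)
            (CovZ.leaf K2_ok TQ_l568 _))
           (CovZ.n1 (-45, -541) (by decide +kernel)
            (CovZ.leaf K2_ok TQ_l569 _)
            (CovZ.leaf K2_ok TQ_l570 _)))
          (CovZ.n1 (-46, -544) (by decide +kernel)
           (CovZ.n2 (-47, -543) (by decide +kernel)
            (CovZ.leaf K2_ok TQ_l571 _)
            (CovZ.leaf K2_ok TQ_l572 _))
           (CovZ.leaf K2_ok TQ_l573 _)))
         (CovZ.n1 (-42, -542) (by decide +kernel)
          (CovZ.n2 (-42, -544) (by decide +kernel)
           (CovZ.leaf K2_ok TQ_l574 _)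
           (CovZ.leaf K2_ok TQ_l575 _))
          (CovZ.n1 (-44, -542) (by decide +kernel)
           (CovZ.leaf K2_ok TQ_l576 _)
           (CovZ.leaf K2_ok TQ_l577 _)))))
       (CovZ.n1 (-36, -540) (by decide +kernel)
        (CovZ.n2 (-36, -544) (by decide +kernel)
         (CovZ.n2 (-38, -542) (by decide +kernel)
          (CovZ.n2 (-36, -542) (by decide +kernel)
           (CovZ.leaf K2_ok TQ_l578 _)
           (CovZ.leaf K2_ok TQ_l579 _))
          (CovZ.n1 (-38, -544) (by decide +kernel)
           (CovZ.leaf K2_ok TQ_l580 _)
           (CovZ.leaf K2_ok TQ_l581 _)))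
         (CovZ.n1 (-34, -542) (by decide +kernel)
          (CovZ.n2 (-34, -544) (by decide +kernel)
           (CovZ.leaf K2_ok TQ_l582 _)
           (CovZ.leaf K2_ok TQ_l583 _))
          (CovZ.n1 (-36, -542) (by decide +kernel)
           (CovZ.leaf K2_ok TQ_l584 _)
           (CovZ.leaf K2_ok TQ_l585 _))))
        (CovZ.n1 (-40, -540) (by decide +kernel)
         (CovZ.n2 (-38, -538) (by decide +kernel)
          (CovZ.n2 (-38, -540) (by decide +kernel)
           (CovZ.leaf K2_ok TQ_l586 _)
           (CovZ.leaf K2_ok TQ_l587 _))
          (CovZ.n1 (-40, -538) (by decide +kernel)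
           (CovZ.leaf K2_ok TQ_l588 _)
           (CovZ.leaf K2_ok TQ_l589 _)))
         (CovZ.n1 (-38, -542) (by decide +kernel)
          (CovZ.n2 (-40, -542) (by decide +kernel)
           (CovZ.leaf K2_ok TQ_l590 _)
           (CovZ.leaf K2_ok TQ_l591 _))
          (CovZ.n1 (-38, -540) (by decide +kernel)
           (CovZ.leaf K2_ok TQ_l592 _)
           (CovZ.leaf K2_ok TQ_l593 _))))))
      (CovZ.n1 (-48, -536) (by decide +kernel)
       (CovZ.subM 9469061569612809371163 (by decide +kernel)
        (CovZ.n2 (-44, -532) (by decide +kernel)
         (CovZ.n2 (-44, -536) (by decide +kernel)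
          (CovZ.n2 (-46, -534) (by decide +kernel)
           (CovZ.n2 (-44, -534) (by decide +kernel)
            (CovZ.leaf K2_ok TQ_l594 _)
            (CovZ.leaf K2_ok TQ_l595 _))
           (CovZ.n1 (-46, -536) (by decide +kernel)
            (CovZ.leaf K2_ok TQ_l596 _)
            (CovZ.leaf K2_ok TQ_l597 _)))
          (CovZ.n1 (-42, -534) (by decide +kernel)
           (CovZ.n2 (-42, -536) (by decide +kernel)
            (CovZ.leaf K2_ok TQ_l598 _)
            (CovZ.leaf K2_ok TQ_l599 _))
           (CovZ.leaf K2_ok TQ_l600 _)))
         (CovZ.n1 (-48, -532) (by decide +kernel)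
          (CovZ.n2 (-46, -530) (by decide +kernel)
           (CovZ.leaf K2_ok TQ_l601 _)
           (CovZ.leaf K2_ok TQ_l602 _))
          (CovZ.n1 (-46, -534) (by decide +kernel)
           (CovZ.leaf K2_ok TQ_l603 _)
           (CovZ.leaf K2_ok TQ_l604 _)))))
       (CovZ.n1 (-44, -540) (by decide +kernel)
        (CovZ.subM 1431764164006176747099 (by decide +kernel)
         (CovZ.n2 (-48, -540) (by decide +kernel)
          (CovZ.n2 (-46, -538) (by decide +kernel)
           (CovZ.n2 (-46, -540) (by decide +kernel)
            (CovZ.leaf K2_ok TQ_l605 _)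
            (CovZ.leaf K2_ok TQ_l606 _))
           (CovZ.n1 (-48, -538) (by decide +kernel)
            (CovZ.leaf K2_ok TQ_l607 _)
            (CovZ.leaf K2_ok TQ_l608 _)))
          (CovZ.n1 (-46, -542) (by decide +kernel)
           (CovZ.n2 (-48, -542) (by decide +kernel)
            (CovZ.leaf K2_ok TQ_l609 _)
            (CovZ.n1 (-47, -543) (by decide +kernel)
             (CovZ.leaf K2_ok TQ_l610 _)
             (CovZ.leaf K2_ok TQ_l611 _)))
           (CovZ.n1 (-46, -540) (by decide +kernel)
            (CovZ.leaf K2_ok TQ_l612 _)
            (CovZ.leaf K2_ok TQ_l613 _)))))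
        (CovZ.subM 9543573625482148183643 (by decide +kernel)
         (CovZ.n1 (-44, -536) (by decide +kernel)
          (CovZ.n2 (-42, -538) (by decide +kernel)
           (CovZ.n2 (-44, -538) (by decide +kernel)
            (CovZ.leaf K2_ok TQ_l614 _)
            (CovZ.leaf K2_ok TQ_l615 _))
           (CovZ.leaf K2_ok TQ_l616 _))
          (CovZ.n1 (-46, -538) (by decide +kernel)
           (CovZ.leaf K2_ok TQ_l617 _)
           (CovZ.n1 (-44, -538) (by decide +kernel)
            (CovZ.leaf K2_ok TQ_l618 _)
            (CovZ.leaf K2_ok TQ_l619 _))))))))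

end Pool.Agent.TET
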