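import Pool.Agent.Helper38_TET.TQ_M
import Pool.Agent.Helper38_TET.TQ_L
import Pool.Agent.Helper38_TET.TQ_1
import Pool.Agent.Helper38_TET.TQ_2
import Pool.Agent.Helper38_TET.TQ_3
import Pool.Agent.Helper38_TET.TQ_4
import Pool.Agent.Helper38_TET.TQ_5
import Pool.Agent.Helper38_TET.TQ_6
import Pool.Agent.Helper38_TET.TQ_7
import Pool.Agent.Helper38_TET.TQ_U0

/-!
# MP_c7c9bf_co: certificates, family TQ
-/

set_option autoImplicit false
set_option maxRecDepth 100000

namespace Pool.Agent.TET

theorem TQ_s0_0 : SqZ TQ_M TQ_L [0, 7, 4, 3] (-64) (-576) 32 0 0 :=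
  SqZ.mk (a := (-64)) (b := (-32)) (c := (-576)) (d := (-544)) (by norm_num) (by norm_num) (by norm_num) (by norm_num)
    (CovZ.topM TQ_LL 37741371125043588759135 (by decide +kernel) (CovZ.n2 (-48, -560) (by decide +kernel)
    (CovZ.n2 (-32, -560) (by decide +kernel)
     TQ_u0
     TQ_u1)
    (CovZ.subM 147512971608983568 (by decide +kernel)
     (CovZ.n1 (-48, -576) (by decide +kernel)
      (CovZ.badM (by decide +kernel))
      (CovZ.n1 (-40, -568) (by decide +kernel)
       (CovZ.n2 (-40, -576) (by decide +kernel)
        (CovZ.badM (by decide +kernel))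
        (CovZ.n1 (-36, -572) (by decide +kernel)
         (CovZ.subM 1126174784749568 (by decide +kernel)
          (CovZ.n2 (-36, -576) (by decide +kernel)
           (CovZ.n2 (-38, -574) (by decide +kernel)
            (CovZ.n2 (-36, -574) (by decide +kernel)
             (CovZ.leaf K2_ok TQ_l221 _)
             (CovZ.leaf K2_ok TQ_l222 _))
            (CovZ.badM (by decide +kernel)))
           (CovZ.n1 (-34, -574) (by decide +kernel)
            (CovZ.badM (by decide +kernel))
            (CovZ.n1 (-36, -574) (by decide +kernel)
             (CovZ.leaf K2_ok TQ_l223 _)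
             (CovZ.badM (by decide +kernel))))))
         (CovZ.subM 2491626293248 (by decide +kernel)
          (CovZ.n1 (-40, -572) (by decide +kernel)
           (CovZ.n2 (-38, -570) (by decide +kernel)
            (CovZ.n2 (-38, -572) (by decide +kernel)
             (CovZ.n2 (-39, -571) (by decide +kernel)
              (CovZ.leaf K2_ok TQ_l224 _)
              (CovZ.leaf K2_ok TQ_l225 _))
             (CovZ.leaf K2_ok TQ_l226 _))
            (CovZ.n1 (-40, -570) (by decide +kernel)
             (CovZ.n2 (-39, -569) (by decide +kernel)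
              (CovZ.leaf K2_ok TQ_l227 _)
              (CovZ.leaf K2_ok TQ_l228 _))
             (CovZ.n1 (-39, -571) (by decide +kernel)
              (CovZ.badM (by decide +kernel))
              (CovZ.leaf K2_ok TQ_l229 _))))
           (CovZ.subM 292594647040 (by decide +kernel)
            (CovZ.n1 (-38, -574) (by decide +kernel)
             (CovZ.badM (by decide +kernel))
             (CovZ.n1 (-38, -572) (by decide +kernel)
              (CovZ.leaf K2_ok TQ_l230 _)
              (CovZ.n1 (-39, -573) (by decide +kernel)
               (CovZ.leaf K2_ok TQ_l231 _)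
               (CovZ.badM (by decide +kernel))))))))))
       (CovZ.n1 (-48, -568) (by decide +kernel)
        (CovZ.n2 (-44, -564) (by decide +kernel)
         (CovZ.badM (by decide +kernel))
         (CovZ.badM (by decide +kernel)))
        (CovZ.badM (by decide +kernel))))))))
    (CovZ.topM TQ_LL 37741947585778644942431 (by decide +kernel) (CovZ.n0 (-48, -560) (by decide +kernel)
    (CovZ.subM 295183933977732849664 (by decide +kernel)
     (CovZ.n2 (-64, -560) (by decide +kernel)
      (CovZ.n2 (-56, -552) (by decide +kernel)
       (CovZ.badM (by decide +kernel))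
       (CovZ.n1 (-64, -552) (by decide +kernel)
        (CovZ.n2 (-60, -548) (by decide +kernel)
         (CovZ.badM (by decide +kernel))
         (CovZ.badM (by decide +kernel)))
        (CovZ.badM (by decide +kernel))))
      (CovZ.badM (by decide +kernel))))
    (CovZ.n1 (-48, -544) (by decide +kernel)
     TQ_u2
     TQ_u3)))

theorem TQ_s1_0 : SqZ TQ_M TQ_L [0, 7, 4, 3] (-64) (-576) 32 1 0 :=
  SqZ.mk (a := (-32)) (b := 0) (c := (-576)) (d := (-544)) (by norm_num) (by norm_num) (by norm_num) (by norm_num)
    (CovZ.topM TQ_LL 18815097970996904950554 (by decide +kernel) (CovZ.n2 (-16, -560) (by decide +kernel)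
    (CovZ.n2 (0, -560) (by decide +kernel)
     (CovZ.n2 (-8, -568) (by decide +kernel)
      (CovZ.n2 (-8, -560) (by decide +kernel)
       (CovZ.n2 (-4, -564) (by decide +kernel)
        (CovZ.leaf K2_ok TQ_l701 _)
        (CovZ.leaf K2_ok TQ_l702 _))
       (CovZ.n1 (-12, -564) (by decide +kernel)
        (CovZ.leaf K2_ok TQ_l703 _)
        (CovZ.n1 (-8, -564) (by decide +kernel)
         (CovZ.leaf K2_ok TQ_l704 _)
         (CovZ.leaf K2_ok TQ_l705 _))))
      (CovZ.subM 11700929492158711824 (by decide +kernel)
       (CovZ.n1 (0, -568) (by decide +kernel)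
        (CovZ.subM 11529786933848967168 (by decide +kernel)
         (CovZ.n2 (-4, -572) (by decide +kernel)
          (CovZ.n2 (-4, -568) (by decide +kernel)
           (CovZ.n2 (-2, -570) (by decide +kernel)
            (CovZ.leaf K2_ok TQ_l706 _)
            (CovZ.leaf K2_ok TQ_l707 _))
           (CovZ.n1 (-6, -570) (by decide +kernel)
            (CovZ.leaf K2_ok TQ_l708 _)
            (CovZ.n1 (-4, -570) (by decide +kernel)
             (CovZ.n2 (-5, -571) (by decide +kernel)
              (CovZ.leaf K2_ok TQ_l709 _)
              (CovZ.badM (by decide +kernel)))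
             (CovZ.leaf K2_ok TQ_l710 _))))
          (CovZ.subM 4294969344 (by decide +kernel)
           (CovZ.n1 (0, -572) (by decide +kernel)
            (CovZ.badM (by decide +kernel))
            (CovZ.n1 (-2, -570) (by decide +kernel)
             (CovZ.n2 (0, -570) (by decide +kernel)
              (CovZ.badM (by decide +kernel))
              (CovZ.leaf K2_ok TQ_l711 _))
             (CovZ.badM (by decide +kernel)))))))
        (CovZ.n1 (-4, -564) (by decide +kernel)
         (CovZ.n2 (0, -564) (by decide +kernel)
          (CovZ.leaf K2_ok TQ_l712 _)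
          (CovZ.leaf K2_ok TQ_l713 _))
         (CovZ.n1 (-4, -568) (by decide +kernel)
          (CovZ.leaf K2_ok TQ_l714 _)
          (CovZ.n1 (-2, -566) (by decide +kernel)
           (CovZ.leaf K2_ok TQ_l715 _)
           (CovZ.leaf K2_ok TQ_l716 _)))))))
     (CovZ.n1 (-8, -552) (by decide +kernel)
      (CovZ.n2 (0, -552) (by decide +kernel)
       (CovZ.leaf K2_ok TQ_l717 _)
       (CovZ.leaf K2_ok TQ_l718 _))
      (CovZ.n1 (-8, -560) (by decide +kernel)
       (CovZ.n2 (-12, -556) (by decide +kernel)
        (CovZ.leaf K2_ok TQ_l719 _)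
        (CovZ.leaf K2_ok TQ_l720 _))
       (CovZ.leaf K2_ok TQ_l721 _))))
    (CovZ.n1 (-16, -576) (by decide +kernel)
     (CovZ.n2 (-24, -568) (by decide +kernel)
      (CovZ.n2 (-16, -568) (by decide +kernel)
       (CovZ.subM 13152529721723395266816 (by decide +kernel)
        (CovZ.n2 (-20, -572) (by decide +kernel)
         (CovZ.n2 (-20, -568) (by decide +kernel)
          (CovZ.leaf K2_ok TQ_l722 _)
          (CovZ.n1 (-22, -570) (by decide +kernel)
           (CovZ.leaf K2_ok TQ_l723 _)
           (CovZ.leaf K2_ok TQ_l724 _)))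
         (CovZ.subM 9610753662409123043584 (by decide +kernel)
          (CovZ.n1 (-16, -572) (by decide +kernel)
           (CovZ.n2 (-18, -574) (by decide +kernel)
            (CovZ.leaf K2_ok TQ_l725 _)
            (CovZ.badM (by decide +kernel)))
           (CovZ.n1 (-18, -570) (by decide +kernel)
            (CovZ.n2 (-16, -570) (by decide +kernel)
             (CovZ.leaf K2_ok TQ_l726 _)
             (CovZ.leaf K2_ok TQ_l727 _))
            (CovZ.n1 (-18, -572) (by decide +kernel)
             (CovZ.leaf K2_ok TQ_l728 _)
             (CovZ.leaf K2_ok TQ_l729 _)))))))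
       (CovZ.n1 (-20, -564) (by decide +kernel)
        (CovZ.n2 (-16, -564) (by decide +kernel)
         (CovZ.leaf K2_ok TQ_l730 _)
         (CovZ.leaf K2_ok TQ_l731 _))
        (CovZ.n1 (-20, -568) (by decide +kernel)
         (CovZ.n2 (-22, -566) (by decide +kernel)
          (CovZ.leaf K2_ok TQ_l732 _)
          (CovZ.leaf K2_ok TQ_l733 _))
         (CovZ.leaf K2_ok TQ_l734 _))))
      (CovZ.subM 3541775988876808554752 (by decide +kernel)
       (CovZ.n1 (-24, -576) (by decide +kernel)
        (CovZ.n2 (-28, -572) (by decide +kernel)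
         (CovZ.n2 (-24, -572) (by decide +kernel)
          (CovZ.n2 (-26, -574) (by decide +kernel)
           (CovZ.leaf K2_ok TQ_l735 _)
           (CovZ.leaf K2_ok TQ_l736 _))
          (CovZ.n1 (-26, -570) (by decide +kernel)
           (CovZ.leaf K2_ok TQ_l737 _)
           (CovZ.leaf K2_ok TQ_l738 _)))
         (CovZ.n1 (-28, -576) (by decide +kernel)
          (CovZ.n2 (-30, -574) (by decide +kernel)
           (CovZ.leaf K2_ok TQ_l739 _)
           (CovZ.badM (by decide +kernel)))
          (CovZ.leaf K2_ok TQ_l740 _)))
        (CovZ.n1 (-20, -572) (by decide +kernel)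
         (CovZ.subM 524544 (by decide +kernel)
          (CovZ.n2 (-20, -576) (by decide +kernel)
           (CovZ.n2 (-22, -574) (by decide +kernel)
            (CovZ.badM (by decide +kernel))
            (CovZ.badM (by decide +kernel)))
           (CovZ.n1 (-18, -574) (by decide +kernel)
            (CovZ.badM (by decide +kernel))
            (CovZ.leaf K2_ok TQ_l741 _))))
         (CovZ.n1 (-24, -572) (by decide +kernel)
          (CovZ.leaf K2_ok TQ_l742 _)
          (CovZ.leaf K2_ok TQ_l743 _))))))
     (CovZ.subM 18518397821874721741082 (by decide +kernel)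
      (CovZ.n1 (-8, -568) (by decide +kernel)
       (CovZ.subM 66869447271496288264 (by decide +kernel)
        (CovZ.n2 (-8, -576) (by decide +kernel)
         (CovZ.n2 (-12, -572) (by decide +kernel)
          (CovZ.n2 (-8, -572) (by decide +kernel)
           (CovZ.badM (by decide +kernel))
           (CovZ.n1 (-10, -570) (by decide +kernel)
            (CovZ.n2 (-8, -570) (by decide +kernel)
             (CovZ.n2 (-9, -571) (by decide +kernel)
              (CovZ.leaf K2_ok TQ_l744 _)
              (CovZ.leaf K2_ok TQ_l745 _))
             (CovZ.leaf K2_ok TQ_l746 _))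
            (CovZ.badM (by decide +kernel))))
          (CovZ.n1 (-12, -576) (by decide +kernel)
           (CovZ.n2 (-14, -574) (by decide +kernel)
            (CovZ.badM (by decide +kernel))
            (CovZ.badM (by decide +kernel)))
           (CovZ.badM (by decide +kernel))))
         (CovZ.subM 11529215050363439104 (by decide +kernel)
          (CovZ.n1 (-4, -572) (by decide +kernel)
           (CovZ.badM (by decide +kernel))
           (CovZ.n1 (-8, -572) (by decide +kernel)
            (CovZ.n2 (-6, -570) (by decide +kernel)
             (CovZ.n2 (-6, -572) (by decide +kernel)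
              (CovZ.n2 (-7, -571) (by decide +kernel)
               (CovZ.leaf K2_ok TQ_l747 _)
               (CovZ.badM (by decide +kernel)))
              (CovZ.n1 (-5, -571) (by decide +kernel)
               (CovZ.badM (by decide +kernel))
               (CovZ.leaf K2_ok TQ_l748 _)))
             (CovZ.leaf K2_ok TQ_l749 _))
            (CovZ.badM (by decide +kernel)))))))
       (CovZ.n1 (-16, -568) (by decide +kernel)
        (CovZ.n2 (-12, -564) (by decide +kernel)
         (CovZ.n2 (-12, -568) (by decide +kernel)
          (CovZ.leaf K2_ok TQ_l750 _)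
          (CovZ.leaf K2_ok TQ_l751 _))
         (CovZ.leaf K2_ok TQ_l752 _))
        (CovZ.subM 14381542848472255830282 (by decide +kernel)
         (CovZ.n1 (-12, -572) (by decide +kernel)
          (CovZ.subM 9610753662409123043584 (by decide +kernel)
           (CovZ.n2 (-16, -572) (by decide +kernel)
            (CovZ.n2 (-14, -570) (by decide +kernel)
             (CovZ.subM 18446744073713745920 (by decide +kernel)
              (CovZ.n2 (-14, -572) (by decide +kernel)
               (CovZ.n2 (-15, -571) (by decide +kernel)
                (CovZ.leaf K2_ok TQ_l753 _)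
                (CovZ.leaf K2_ok TQ_l754 _))
               (CovZ.n1 (-13, -571) (by decide +kernel)
                (CovZ.badM (by decide +kernel))
                (CovZ.leaf K2_ok TQ_l755 _))))
             (CovZ.leaf K2_ok TQ_l756 _))
            (CovZ.subM 18446744073709551616 (by decide +kernel)
             (CovZ.n1 (-14, -574) (by decide +kernel)
              (CovZ.badM (by decide +kernel))
              (CovZ.n1 (-14, -572) (by decide +kernel)
               (CovZ.badM (by decide +kernel))
               (CovZ.n1 (-15, -573) (by decide +kernel)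
                (CovZ.leaf K2_ok TQ_l757 _)
                (CovZ.badM (by decide +kernel))))))))
          (CovZ.n1 (-12, -568) (by decide +kernel)
           (CovZ.n2 (-10, -570) (by decide +kernel)
            (CovZ.leaf K2_ok TQ_l758 _)
            (CovZ.leaf K2_ok TQ_l759 _))
           (CovZ.n1 (-14, -570) (by decide +kernel)
            (CovZ.leaf K2_ok TQ_l760 _)
            (CovZ.n1 (-12, -570) (by decide +kernel)
             (CovZ.n2 (-13, -571) (by decide +kernel)
              (CovZ.leaf K2_ok TQ_l761 _)
              (CovZ.leaf K2_ok TQ_l762 _))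
             (CovZ.leaf K2_ok TQ_l763 _))))))))))))
    (CovZ.topM TQ_LL 37778355402204723019647 (by decide +kernel) (CovZ.n0 (-16, -560) (by decide +kernel)
    (CovZ.n2 (-32, -560) (by decide +kernel)
     (CovZ.n2 (-24, -552) (by decide +kernel)
      (CovZ.n2 (-24, -560) (by decide +kernel)
       (CovZ.n2 (-28, -556) (by decide +kernel)
        (CovZ.n2 (-24, -556) (by decide +kernel)
         (CovZ.n2 (-26, -558) (by decide +kernel)
          (CovZ.leaf K2_ok TQ_l764 _)
          (CovZ.n1 (-24, -558) (by decide +kernel)
           (CovZ.leaf K2_ok TQ_l765 _)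
           (CovZ.leaf K2_ok TQ_l766 _)))
         (CovZ.n1 (-26, -554) (by decide +kernel)
          (CovZ.n2 (-24, -554) (by decide +kernel)
           (CovZ.leaf K2_ok TQ_l767 _)
           (CovZ.leaf K2_ok TQ_l768 _))
          (CovZ.leaf K2_ok TQ_l769 _)))
        (CovZ.subM 9028703207247257099385 (by decide +kernel)
         (CovZ.n1 (-28, -560) (by decide +kernel)
          (CovZ.n2 (-30, -558) (by decide +kernel)
           (CovZ.n2 (-28, -558) (by decide +kernel)
            (CovZ.leaf K2_ok TQ_l770 _)
            (CovZ.leaf K2_ok TQ_l771 _))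
           (CovZ.n1 (-30, -560) (by decide +kernel)
            (CovZ.leaf K2_ok TQ_l772 _)
            (CovZ.leaf K2_ok TQ_l773 _)))
          (CovZ.n1 (-26, -558) (by decide +kernel)
           (CovZ.leaf K2_ok TQ_l774 _)
           (CovZ.leaf K2_ok TQ_l775 _)))))
       (CovZ.n1 (-20, -556) (by decide +kernel)
        (CovZ.n2 (-20, -560) (by decide +kernel)
         (CovZ.leaf K2_ok TQ_l776 _)
         (CovZ.leaf K2_ok TQ_l777 _))
        (CovZ.n1 (-24, -556) (by decide +kernel)
         (CovZ.leaf K2_ok TQ_l778 _)
         (CovZ.n1 (-22, -558) (by decide +kernel)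
          (CovZ.leaf K2_ok TQ_l779 _)
          (CovZ.leaf K2_ok TQ_l780 _)))))
      (CovZ.n1 (-32, -552) (by decide +kernel)
       (CovZ.n2 (-28, -548) (by decide +kernel)
        (CovZ.n2 (-28, -552) (by decide +kernel)
         (CovZ.n2 (-30, -550) (by decide +kernel)
          (CovZ.n2 (-28, -550) (by decide +kernel)
           (CovZ.leaf K2_ok TQ_l781 _)
           (CovZ.leaf K2_ok TQ_l782 _))
          (CovZ.n1 (-30, -552) (by decide +kernel)
           (CovZ.leaf K2_ok TQ_l783 _)
           (CovZ.leaf K2_ok TQ_l784 _)))
         (CovZ.n1 (-26, -550) (by decide +kernel)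
          (CovZ.leaf K2_ok TQ_l785 _)
          (CovZ.leaf K2_ok TQ_l786 _)))
        (CovZ.n1 (-32, -548) (by decide +kernel)
         (CovZ.n2 (-30, -546) (by decide +kernel)
          (CovZ.n2 (-30, -548) (by decide +kernel)
           (CovZ.leaf K2_ok TQ_l787 _)
           (CovZ.leaf K2_ok TQ_l788 _))
          (CovZ.n1 (-32, -546) (by decide +kernel)
           (CovZ.leaf K2_ok TQ_l789 _)
           (CovZ.leaf K2_ok TQ_l790 _)))
         (CovZ.n1 (-30, -550) (by decide +kernel)
          (CovZ.n2 (-32, -550) (by decide +kernel)
           (CovZ.leaf K2_ok TQ_l791 _)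
           (CovZ.leaf K2_ok TQ_l792 _))
          (CovZ.n1 (-30, -548) (by decide +kernel)
           (CovZ.leaf K2_ok TQ_l793 _)
           (CovZ.leaf K2_ok TQ_l794 _)))))
       (CovZ.n1 (-28, -556) (by decide +kernel)
        (CovZ.n2 (-32, -556) (by decide +kernel)
         (CovZ.n2 (-30, -554) (by decide +kernel)
          (CovZ.leaf K2_ok TQ_l795 _)
          (CovZ.leaf K2_ok TQ_l796 _))
         (CovZ.n1 (-30, -558) (by decide +kernel)
          (CovZ.n2 (-32, -558) (by decide +kernel)
           (CovZ.leaf K2_ok TQ_l797 _)
           (CovZ.leaf K2_ok TQ_l798 _))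
          (CovZ.leaf K2_ok TQ_l799 _)))
        (CovZ.n1 (-28, -552) (by decide +kernel)
         (CovZ.n2 (-26, -554) (by decide +kernel)
          (CovZ.leaf K2_ok TQ_l800 _)
          (CovZ.leaf K2_ok TQ_l801 _))
         (CovZ.n1 (-30, -554) (by decide +kernel)
          (CovZ.leaf K2_ok TQ_l802 _)
          (CovZ.n1 (-28, -554) (by decide +kernel)
           (CovZ.leaf K2_ok TQ_l803 _)
           (CovZ.leaf K2_ok TQ_l804 _)))))))
     (CovZ.n1 (-24, -568) (by decide +kernel)
      (CovZ.subM 4287887658135344449649 (by decide +kernel)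
       (CovZ.n2 (-32, -568) (by decide +kernel)
        (CovZ.n2 (-28, -564) (by decide +kernel)
         (CovZ.n2 (-28, -568) (by decide +kernel)
          (CovZ.subM 4286563562357885765696 (by decide +kernel)
           (CovZ.n2 (-30, -566) (by decide +kernel)
            (CovZ.n2 (-28, -566) (by decide +kernel)
             (CovZ.leaf K2_ok TQ_l805 _)
             (CovZ.leaf K2_ok TQ_l806 _))
            (CovZ.n1 (-30, -568) (by decide +kernel)
             (CovZ.leaf K2_ok TQ_l807 _)
             (CovZ.leaf K2_ok TQ_l808 _))))
          (CovZ.n1 (-26, -566) (by decide +kernel)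
           (CovZ.leaf K2_ok TQ_l809 _)
           (CovZ.leaf K2_ok TQ_l810 _)))
         (CovZ.n1 (-32, -564) (by decide +kernel)
          (CovZ.n2 (-30, -562) (by decide +kernel)
           (CovZ.n2 (-30, -564) (by decide +kernel)
            (CovZ.leaf K2_ok TQ_l811 _)
            (CovZ.leaf K2_ok TQ_l812 _))
           (CovZ.n1 (-32, -562) (by decide +kernel)
            (CovZ.leaf K2_ok TQ_l813 _)
            (CovZ.leaf K2_ok TQ_l814 _)))
          (CovZ.n1 (-30, -566) (by decide +kernel)
           (CovZ.n2 (-32, -566) (by decide +kernel)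
            (CovZ.leaf K2_ok TQ_l815 _)
            (CovZ.leaf K2_ok TQ_l816 _))
           (CovZ.leaf K2_ok TQ_l817 _))))
        (CovZ.subM 4132072080736269109344 (by decide +kernel)
         (CovZ.n1 (-28, -572) (by decide +kernel)
          (CovZ.subM 1407666983274496 (by decide +kernel)
           (CovZ.n2 (-32, -572) (by decide +kernel)
            (CovZ.n2 (-30, -570) (by decide +kernel)
             (CovZ.leaf K2_ok TQ_l818 _)
             (CovZ.n1 (-32, -570) (by decide +kernel)
              (CovZ.leaf K2_ok TQ_l819 _)
              (CovZ.leaf K2_ok TQ_l820 _)))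
            (CovZ.n1 (-30, -574) (by decide +kernel)
             (CovZ.leaf K2_ok TQ_l821 _)
             (CovZ.leaf K2_ok TQ_l822 _))))
          (CovZ.n1 (-28, -568) (by decide +kernel)
           (CovZ.n2 (-26, -570) (by decide +kernel)
            (CovZ.leaf K2_ok TQ_l823 _)
            (CovZ.leaf K2_ok TQ_l824 _))
           (CovZ.n1 (-30, -570) (by decide +kernel)
            (CovZ.leaf K2_ok TQ_l825 _)
            (CovZ.leaf K2_ok TQ_l826 _)))))))
      (CovZ.n1 (-24, -560) (by decide +kernel)
       (CovZ.subM 18518397822450247884122 (by decide +kernel)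
        (CovZ.n2 (-20, -564) (by decide +kernel)
         (CovZ.n2 (-24, -564) (by decide +kernel)
          (CovZ.n2 (-22, -562) (by decide +kernel)
           (CovZ.leaf K2_ok TQ_l827 _)
           (CovZ.leaf K2_ok TQ_l828 _))
          (CovZ.n1 (-22, -566) (by decide +kernel)
           (CovZ.leaf K2_ok TQ_l829 _)
           (CovZ.leaf K2_ok TQ_l830 _)))
         (CovZ.n1 (-20, -560) (by decide +kernel)
          (CovZ.leaf K2_ok TQ_l831 _)
          (CovZ.n1 (-22, -562) (by decide +kernel)
           (CovZ.leaf K2_ok TQ_l832 _)
           (CovZ.leaf K2_ok TQ_l833 _)))))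
       (CovZ.subM 9028700955447443414137 (by decide +kernel)
        (CovZ.n1 (-28, -564) (by decide +kernel)
         (CovZ.n2 (-28, -560) (by decide +kernel)
          (CovZ.n2 (-26, -562) (by decide +kernel)
           (CovZ.leaf K2_ok TQ_l834 _)
           (CovZ.leaf K2_ok TQ_l835 _))
          (CovZ.n1 (-30, -562) (by decide +kernel)
           (CovZ.leaf K2_ok TQ_l836 _)
           (CovZ.n1 (-28, -562) (by decide +kernel)
            (CovZ.leaf K2_ok TQ_l837 _)
            (CovZ.leaf K2_ok TQ_l838 _))))
         (CovZ.n1 (-24, -564) (by decide +kernel)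
          (CovZ.n2 (-26, -566) (by decide +kernel)
           (CovZ.leaf K2_ok TQ_l839 _)
           (CovZ.leaf K2_ok TQ_l840 _))
          (CovZ.n1 (-26, -562) (by decide +kernel)
           (CovZ.leaf K2_ok TQ_l841 _)
           (CovZ.leaf K2_ok TQ_l842 _))))))))
    (CovZ.n1 (-16, -544) (by decide +kernel)
     (CovZ.n2 (-8, -552) (by decide +kernel)
      (CovZ.n2 (-16, -552) (by decide +kernel)
       (CovZ.n2 (-12, -548) (by decide +kernel)
        (CovZ.leaf K2_ok TQ_l843 _)
        (CovZ.leaf K2_ok TQ_l844 _))
       (CovZ.n1 (-12, -556) (by decide +kernel)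
        (CovZ.leaf K2_ok TQ_l845 _)
        (CovZ.leaf K2_ok TQ_l846 _)))
      (CovZ.n1 (-8, -544) (by decide +kernel)
       (CovZ.leaf K2_ok TQ_l847 _)
       (CovZ.n1 (-12, -548) (by decide +kernel)
        (CovZ.leaf K2_ok TQ_l848 _)
        (CovZ.leaf K2_ok TQ_l849 _))))
     (CovZ.n1 (-24, -552) (by decide +kernel)
      (CovZ.n2 (-24, -544) (by decide +kernel)
       (CovZ.n2 (-20, -548) (by decide +kernel)
        (CovZ.n2 (-24, -548) (by decide +kernel)
         (CovZ.leaf K2_ok TQ_l850 _)
         (CovZ.n1 (-22, -550) (by decide +kernel)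
          (CovZ.leaf K2_ok TQ_l851 _)
          (CovZ.leaf K2_ok TQ_l852 _)))
        (CovZ.n1 (-20, -544) (by decide +kernel)
         (CovZ.leaf K2_ok TQ_l853 _)
         (CovZ.leaf K2_ok TQ_l854 _)))
       (CovZ.n1 (-28, -548) (by decide +kernel)
        (CovZ.n2 (-28, -544) (by decide +kernel)
         (CovZ.n2 (-26, -546) (by decide +kernel)
          (CovZ.leaf K2_ok TQ_l855 _)
          (CovZ.leaf K2_ok TQ_l856 _))
         (CovZ.n1 (-30, -546) (by decide +kernel)
          (CovZ.leaf K2_ok TQ_l857 _)
          (CovZ.n1 (-28, -546) (by decide +kernel)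
           (CovZ.leaf K2_ok TQ_l858 _)
           (CovZ.leaf K2_ok TQ_l859 _))))
        (CovZ.n1 (-24, -548) (by decide +kernel)
         (CovZ.n2 (-26, -550) (by decide +kernel)
          (CovZ.leaf K2_ok TQ_l860 _)
          (CovZ.n1 (-24, -550) (by decide +kernel)
           (CovZ.leaf K2_ok TQ_l861 _)
           (CovZ.leaf K2_ok TQ_l862 _)))
         (CovZ.n1 (-26, -546) (by decide +kernel)
          (CovZ.n2 (-24, -546) (by decide +kernel)
           (CovZ.leaf K2_ok TQ_l863 _)
           (CovZ.leaf K2_ok TQ_l864 _))
          (CovZ.leaf K2_ok TQ_l865 _)))))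
      (CovZ.n1 (-16, -552) (by decide +kernel)
       (CovZ.n2 (-20, -556) (by decide +kernel)
        (CovZ.n2 (-20, -552) (by decide +kernel)
         (CovZ.leaf K2_ok TQ_l866 _)
         (CovZ.leaf K2_ok TQ_l867 _))
        (CovZ.n1 (-16, -556) (by decide +kernel)
         (CovZ.leaf K2_ok TQ_l868 _)
         (CovZ.leaf K2_ok TQ_l869 _)))
       (CovZ.n1 (-20, -548) (by decide +kernel)
        (CovZ.leaf K2_ok TQ_l870 _)
        (CovZ.n1 (-20, -552) (by decide +kernel)
         (CovZ.leaf K2_ok TQ_l871 _)
         (CovZ.leaf K2_ok TQ_l872 _))))))))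

theorem TQ_s2_0 : SqZ TQ_M TQ_L [0, 7, 4, 3] (-64) (-576) 32 2 0 :=
  SqZ.mk (a := 0) (b := 32) (c := (-576)) (d := (-544)) (by norm_num) (by norm_num) (by norm_num) (by norm_num)
    (CovZ.topM TQ_LL 295402359933813991552 (by decide +kernel) (CovZ.n2 (16, -560) (by decide +kernel)
    (CovZ.n2 (32, -560) (by decide +kernel)
     (CovZ.badM (by decide +kernel))
     (CovZ.n1 (24, -552) (by decide +kernel)
      (CovZ.badM (by decide +kernel))
      (CovZ.badM (by decide +kernel))))
    (CovZ.subM 144116287587551232 (by decide +kernel)
     (CovZ.n1 (16, -576) (by decide +kernel)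
      (CovZ.n2 (8, -568) (by decide +kernel)
       (CovZ.n2 (16, -568) (by decide +kernel)
        (CovZ.badM (by decide +kernel))
        (CovZ.n1 (12, -564) (by decide +kernel)
         (CovZ.badM (by decide +kernel))
         (CovZ.badM (by decide +kernel))))
       (CovZ.n1 (8, -576) (by decide +kernel)
        (CovZ.n2 (4, -572) (by decide +kernel)
         (CovZ.badM (by decide +kernel))
         (CovZ.badM (by decide +kernel)))
        (CovZ.badM (by decide +kernel))))
      (CovZ.n1 (24, -568) (by decide +kernel)
       (CovZ.badM (by decide +kernel))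
       (CovZ.n1 (16, -568) (by decide +kernel)
        (CovZ.badM (by decide +kernel))
        (CovZ.badM (by decide +kernel))))))))
    (CovZ.topM TQ_LL 18759747525893302729618 (by decide +kernel) (CovZ.n0 (16, -560) (by decide +kernel)
    (CovZ.n2 (0, -560) (by decide +kernel)
     (CovZ.n2 (8, -552) (by decide +kernel)
      (CovZ.subM 4734061070379808655362 (by decide +kernel)
       (CovZ.n2 (8, -560) (by decide +kernel)
        (CovZ.n2 (4, -556) (by decide +kernel)
         (CovZ.leaf K2_ok TQ_l1007 _)
         (CovZ.leaf K2_ok TQ_l1008 _))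
        (CovZ.n1 (12, -556) (by decide +kernel)
         (CovZ.badM (by decide +kernel))
         (CovZ.leaf K2_ok TQ_l1009 _))))
      (CovZ.n1 (0, -552) (by decide +kernel)
       (CovZ.leaf K2_ok TQ_l1010 _)
       (CovZ.leaf K2_ok TQ_l1011 _)))
     (CovZ.subM 11691913496810948608 (by decide +kernel)
      (CovZ.n1 (8, -568) (by decide +kernel)
       (CovZ.n2 (0, -568) (by decide +kernel)
        (CovZ.n2 (4, -564) (by decide +kernel)
         (CovZ.subM 1099511629824 (by decide +kernel)
          (CovZ.n2 (4, -568) (by decide +kernel)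
           (CovZ.n2 (2, -566) (by decide +kernel)
            (CovZ.badM (by decide +kernel))
            (CovZ.n1 (2, -568) (by decide +kernel)
             (CovZ.leaf K2_ok TQ_l1012 _)
             (CovZ.badM (by decide +kernel))))
           (CovZ.badM (by decide +kernel))))
         (CovZ.leaf K2_ok TQ_l1013 _))
        (CovZ.subM 2048 (by decide +kernel)
         (CovZ.n1 (4, -572) (by decide +kernel)
          (CovZ.n2 (0, -572) (by decide +kernel)
           (CovZ.n2 (2, -570) (by decide +kernel)
            (CovZ.badM (by decide +kernel))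
            (CovZ.n1 (0, -570) (by decide +kernel)
             (CovZ.leaf K2_ok TQ_l1014 _)
             (CovZ.badM (by decide +kernel))))
           (CovZ.badM (by decide +kernel)))
          (CovZ.n1 (4, -568) (by decide +kernel)
           (CovZ.badM (by decide +kernel))
           (CovZ.n1 (2, -570) (by decide +kernel)
            (CovZ.n2 (2, -568) (by decide +kernel)
             (CovZ.badM (by decide +kernel))
             (CovZ.leaf K2_ok TQ_l1015 _))
            (CovZ.badM (by decide +kernel)))))))
       (CovZ.n1 (8, -560) (by decide +kernel)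
        (CovZ.subM 144115188075921408 (by decide +kernel)
         (CovZ.n2 (12, -564) (by decide +kernel)
          (CovZ.n2 (8, -564) (by decide +kernel)
           (CovZ.n2 (10, -562) (by decide +kernel)
            (CovZ.badM (by decide +kernel))
            (CovZ.n1 (8, -562) (by decide +kernel)
             (CovZ.badM (by decide +kernel))
             (CovZ.badM (by decide +kernel))))
           (CovZ.badM (by decide +kernel)))
          (CovZ.badM (by decide +kernel))))
        (CovZ.n1 (4, -564) (by decide +kernel)
         (CovZ.n2 (4, -560) (by decide +kernel)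
          (CovZ.leaf K2_ok TQ_l1016 _)
          (CovZ.leaf K2_ok TQ_l1017 _))
         (CovZ.subM 144115188075921408 (by decide +kernel)
          (CovZ.n1 (8, -564) (by decide +kernel)
           (CovZ.badM (by decide +kernel))
           (CovZ.n1 (6, -562) (by decide +kernel)
            (CovZ.n2 (8, -562) (by decide +kernel)
             (CovZ.badM (by decide +kernel))
             (CovZ.leaf K2_ok TQ_l1018 _))
            (CovZ.badM (by decide +kernel))))))))))
    (CovZ.n1 (16, -544) (by decide +kernel)
     (CovZ.subM 4734220520176294559746 (by decide +kernel)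
      (CovZ.n2 (24, -552) (by decide +kernel)
       (CovZ.n2 (16, -552) (by decide +kernel)
        (CovZ.n2 (20, -548) (by decide +kernel)
         (CovZ.badM (by decide +kernel))
         (CovZ.n1 (16, -548) (by decide +kernel)
          (CovZ.leaf K2_ok TQ_l1019 _)
          (CovZ.leaf K2_ok TQ_l1020 _)))
        (CovZ.badM (by decide +kernel)))
       (CovZ.subM 4722654713383235878912 (by decide +kernel)
        (CovZ.n1 (24, -544) (by decide +kernel)
         (CovZ.badM (by decide +kernel))
         (CovZ.n1 (20, -548) (by decide +kernel)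
          (CovZ.n2 (20, -544) (by decide +kernel)
           (CovZ.n2 (22, -546) (by decide +kernel)
            (CovZ.n2 (20, -546) (by decide +kernel)
             (CovZ.leaf K2_ok TQ_l1021 _)
             (CovZ.badM (by decide +kernel)))
            (CovZ.badM (by decide +kernel)))
           (CovZ.n1 (18, -546) (by decide +kernel)
            (CovZ.leaf K2_ok TQ_l1022 _)
            (CovZ.n1 (20, -546) (by decide +kernel)
             (CovZ.leaf K2_ok TQ_l1023 _)
             (CovZ.leaf K2_ok TQ_l1024 _))))
          (CovZ.badM (by decide +kernel)))))))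
     (CovZ.n1 (8, -552) (by decide +kernel)
      (CovZ.n2 (8, -544) (by decide +kernel)
       (CovZ.leaf K2_ok TQ_l1025 _)
       (CovZ.leaf K2_ok TQ_l1026 _))
      (CovZ.subM 4738850506467327344770 (by decide +kernel)
       (CovZ.n1 (16, -552) (by decide +kernel)
        (CovZ.n2 (12, -556) (by decide +kernel)
         (CovZ.n2 (12, -552) (by decide +kernel)
          (CovZ.leaf K2_ok TQ_l1027 _)
          (CovZ.leaf K2_ok TQ_l1028 _))
         (CovZ.n1 (16, -556) (by decide +kernel)
          (CovZ.badM (by decide +kernel))
          (CovZ.n1 (14, -554) (by decide +kernel)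
           (CovZ.badM (by decide +kernel))
           (CovZ.badM (by decide +kernel)))))
        (CovZ.n1 (12, -548) (by decide +kernel)
         (CovZ.n2 (16, -548) (by decide +kernel)
          (CovZ.leaf K2_ok TQ_l1029 _)
          (CovZ.leaf K2_ok TQ_l1030 _))
         (CovZ.leaf K2_ok TQ_l1031 _))))))))

theorem TQ_s0_1 : SqZ TQ_M TQ_L [0, 7, 4, 3] (-64) (-576) 32 0 1 :=
  SqZ.mk (a := (-64)) (b := (-32)) (c := (-544)) (d := (-512)) (by norm_num) (by norm_num) (by norm_num) (by norm_num)
    (CovZ.topM TQ_LL 37778913848541404987263 (by decide +kernel) (CovZ.n2 (-48, -528) (by decide +kernel)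
    (CovZ.n2 (-32, -528) (by decide +kernel)
     (CovZ.n2 (-40, -536) (by decide +kernel)
      (CovZ.subM 9505955068757500624699 (by decide +kernel)
       (CovZ.n2 (-40, -528) (by decide +kernel)
        (CovZ.n2 (-36, -532) (by decide +kernel)
         (CovZ.n2 (-40, -532) (by decide +kernel)
          (CovZ.n2 (-38, -530) (by decide +kernel)
           (CovZ.n2 (-38, -532) (by decide +kernel)
            (CovZ.leaf K2_ok TQ_l398 _)
            (CovZ.leaf K2_ok TQ_l399 _))
           (CovZ.n1 (-40, -530) (by decide +kernel)
            (CovZ.leaf K2_ok TQ_l400 _)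
            (CovZ.n1 (-39, -531) (by decide +kernel)
             (CovZ.leaf K2_ok TQ_l401 _)
             (CovZ.leaf K2_ok TQ_l402 _))))
          (CovZ.n1 (-38, -534) (by decide +kernel)
           (CovZ.leaf K2_ok TQ_l403 _)
           (CovZ.leaf K2_ok TQ_l404 _)))
         (CovZ.n1 (-36, -528) (by decide +kernel)
          (CovZ.n2 (-34, -530) (by decide +kernel)
           (CovZ.n2 (-36, -530) (by decide +kernel)
            (CovZ.leaf K2_ok TQ_l405 _)
            (CovZ.leaf K2_ok TQ_l406 _))
           (CovZ.n1 (-34, -528) (by decide +kernel)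
            (CovZ.leaf K2_ok TQ_l407 _)
            (CovZ.n1 (-35, -529) (by decide +kernel)
             (CovZ.leaf K2_ok TQ_l408 _)
             (CovZ.leaf K2_ok TQ_l409 _))))
          (CovZ.n1 (-38, -530) (by decide +kernel)
           (CovZ.n2 (-38, -528) (by decide +kernel)
            (CovZ.leaf K2_ok TQ_l410 _)
            (CovZ.leaf K2_ok TQ_l411 _))
           (CovZ.n1 (-36, -530) (by decide +kernel)
            (CovZ.leaf K2_ok TQ_l412 _)
            (CovZ.leaf K2_ok TQ_l413 _)))))
        (CovZ.n1 (-44, -532) (by decide +kernel)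
         (CovZ.subM 18455760412693057051 (by decide +kernel)
          (CovZ.n2 (-44, -528) (by decide +kernel)
           (CovZ.n2 (-42, -530) (by decide +kernel)
            (CovZ.leaf K2_ok TQ_l414 _)
            (CovZ.leaf K2_ok TQ_l415 _))
           (CovZ.n1 (-46, -530) (by decide +kernel)
            (CovZ.leaf K2_ok TQ_l416 _)
            (CovZ.n1 (-44, -530) (by decide +kernel)
             (CovZ.leaf K2_ok TQ_l417 _)
             (CovZ.leaf K2_ok TQ_l418 _)))))
         (CovZ.n1 (-40, -532) (by decide +kernel)
          (CovZ.n2 (-42, -534) (by decide +kernel)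
           (CovZ.leaf K2_ok TQ_l419 _)
           (CovZ.n1 (-40, -534) (by decide +kernel)
            (CovZ.leaf K2_ok TQ_l420 _)
            (CovZ.leaf K2_ok TQ_l421 _)))
          (CovZ.n1 (-42, -530) (by decide +kernel)
           (CovZ.n2 (-40, -530) (by decide +kernel)
            (CovZ.leaf K2_ok TQ_l422 _)
            (CovZ.leaf K2_ok TQ_l423 _))
           (CovZ.leaf K2_ok TQ_l424 _))))))
      (CovZ.n1 (-32, -536) (by decide +kernel)
       (CovZ.n2 (-36, -540) (by decide +kernel)
        (CovZ.n2 (-36, -536) (by decide +kernel)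
         (CovZ.n2 (-34, -538) (by decide +kernel)
          (CovZ.leaf K2_ok TQ_l425 _)
          (CovZ.leaf K2_ok TQ_l426 _))
         (CovZ.n1 (-38, -538) (by decide +kernel)
          (CovZ.leaf K2_ok TQ_l427 _)
          (CovZ.n1 (-36, -538) (by decide +kernel)
           (CovZ.leaf K2_ok TQ_l428 _)
           (CovZ.leaf K2_ok TQ_l429 _))))
        (CovZ.n1 (-32, -540) (by decide +kernel)
         (CovZ.n2 (-34, -542) (by decide +kernel)
          (CovZ.leaf K2_ok TQ_l430 _)
          (CovZ.n1 (-32, -542) (by decide +kernel)
           (CovZ.leaf K2_ok TQ_l431 _)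
           (CovZ.leaf K2_ok TQ_l432 _)))
         (CovZ.n1 (-34, -538) (by decide +kernel)
          (CovZ.n2 (-32, -538) (by decide +kernel)
           (CovZ.leaf K2_ok TQ_l433 _)
           (CovZ.leaf K2_ok TQ_l434 _))
          (CovZ.n1 (-34, -540) (by decide +kernel)
           (CovZ.leaf K2_ok TQ_l435 _)
           (CovZ.leaf K2_ok TQ_l436 _)))))
       (CovZ.n1 (-36, -532) (by decide +kernel)
        (CovZ.n2 (-32, -532) (by decide +kernel)
         (CovZ.n2 (-34, -534) (by decide +kernel)
          (CovZ.n2 (-34, -532) (by decide +kernel)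
           (CovZ.leaf K2_ok TQ_l437 _)
           (CovZ.leaf K2_ok TQ_l438 _))
          (CovZ.n1 (-32, -534) (by decide +kernel)
           (CovZ.leaf K2_ok TQ_l439 _)
           (CovZ.leaf K2_ok TQ_l440 _)))
         (CovZ.subM 19644871258319482683 (by decide +kernel)
          (CovZ.n1 (-34, -530) (by decide +kernel)
           (CovZ.n2 (-32, -530) (by decide +kernel)
            (CovZ.leaf K2_ok TQ_l441 _)
            (CovZ.leaf K2_ok TQ_l442 _))
           (CovZ.n1 (-34, -532) (by decide +kernel)
            (CovZ.leaf K2_ok TQ_l443 _)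
            (CovZ.leaf K2_ok TQ_l444 _)))))
        (CovZ.n1 (-36, -536) (by decide +kernel)
         (CovZ.n2 (-38, -534) (by decide +kernel)
          (CovZ.n2 (-36, -534) (by decide +kernel)
           (CovZ.leaf K2_ok TQ_l445 _)
           (CovZ.leaf K2_ok TQ_l446 _))
          (CovZ.leaf K2_ok TQ_l447 _))
         (CovZ.n1 (-34, -534) (by decide +kernel)
          (CovZ.n2 (-34, -536) (by decide +kernel)
           (CovZ.leaf K2_ok TQ_l448 _)
           (CovZ.leaf K2_ok TQ_l449 _))
          (CovZ.n1 (-36, -534) (by decide +kernel)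
           (CovZ.leaf K2_ok TQ_l450 _)
           (CovZ.leaf K2_ok TQ_l451 _)))))))
     (CovZ.subM 19608672846291142657 (by decide +kernel)
      (CovZ.n1 (-40, -520) (by decide +kernel)
       (CovZ.n2 (-32, -520) (by decide +kernel)
        (CovZ.n2 (-36, -524) (by decide +kernel)
         (CovZ.badM (by decide +kernel))
         (CovZ.n1 (-32, -524) (by decide +kernel)
          (CovZ.n2 (-34, -526) (by decide +kernel)
           (CovZ.n2 (-34, -524) (by decide +kernel)
            (CovZ.n2 (-33, -525) (by decide +kernel)
             (CovZ.leaf K2_ok TQ_l452 _)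
             (CovZ.badM (by decide +kernel)))
            (CovZ.leaf K2_ok TQ_l453 _))
           (CovZ.n1 (-32, -526) (by decide +kernel)
            (CovZ.leaf K2_ok TQ_l454 _)
            (CovZ.n1 (-33, -525) (by decide +kernel)
             (CovZ.badM (by decide +kernel))
             (CovZ.leaf K2_ok TQ_l455 _))))
          (CovZ.badM (by decide +kernel))))
        (CovZ.badM (by decide +kernel)))
       (CovZ.n1 (-40, -528) (by decide +kernel)
        (CovZ.n2 (-44, -524) (by decide +kernel)
         (CovZ.n2 (-40, -524) (by decide +kernel)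
          (CovZ.n2 (-42, -526) (by decide +kernel)
           (CovZ.n2 (-42, -524) (by decide +kernel)
            (CovZ.leaf K2_ok TQ_l456 _)
            (CovZ.leaf K2_ok TQ_l457 _))
           (CovZ.n1 (-40, -526) (by decide +kernel)
            (CovZ.leaf K2_ok TQ_l458 _)
            (CovZ.leaf K2_ok TQ_l459 _)))
          (CovZ.n1 (-42, -522) (by decide +kernel)
           (CovZ.n2 (-40, -522) (by decide +kernel)
            (CovZ.leaf K2_ok TQ_l460 _)
            (CovZ.badM (by decide +kernel)))
           (CovZ.n1 (-42, -524) (by decide +kernel)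
            (CovZ.leaf K2_ok TQ_l461 _)
            (CovZ.leaf K2_ok TQ_l462 _))))
         (CovZ.n1 (-44, -528) (by decide +kernel)
          (CovZ.n2 (-46, -526) (by decide +kernel)
           (CovZ.n2 (-44, -526) (by decide +kernel)
            (CovZ.leaf K2_ok TQ_l463 _)
            (CovZ.leaf K2_ok TQ_l464 _))
           (CovZ.leaf K2_ok TQ_l465 _))
          (CovZ.n1 (-42, -526) (by decide +kernel)
           (CovZ.n2 (-42, -528) (by decide +kernel)
            (CovZ.leaf K2_ok TQ_l466 _)
            (CovZ.leaf K2_ok TQ_l467 _))
           (CovZ.n1 (-44, -526) (by decide +kernel)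
            (CovZ.leaf K2_ok TQ_l468 _)
            (CovZ.leaf K2_ok TQ_l469 _)))))
        (CovZ.n1 (-36, -524) (by decide +kernel)
         (CovZ.n2 (-36, -528) (by decide +kernel)
          (CovZ.n2 (-38, -526) (by decide +kernel)
           (CovZ.n2 (-36, -526) (by decide +kernel)
            (CovZ.leaf K2_ok TQ_l470 _)
            (CovZ.n1 (-37, -525) (by decide +kernel)
             (CovZ.leaf K2_ok TQ_l471 _)
             (CovZ.leaf K2_ok TQ_l472 _)))
           (CovZ.n1 (-38, -528) (by decide +kernel)
            (CovZ.leaf K2_ok TQ_l473 _)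
            (CovZ.leaf K2_ok TQ_l474 _)))
          (CovZ.n1 (-34, -526) (by decide +kernel)
           (CovZ.n2 (-34, -528) (by decide +kernel)
            (CovZ.leaf K2_ok TQ_l475 _)
            (CovZ.leaf K2_ok TQ_l476 _))
           (CovZ.n1 (-36, -526) (by decide +kernel)
            (CovZ.leaf K2_ok TQ_l477 _)
            (CovZ.n1 (-35, -527) (by decide +kernel)
             (CovZ.leaf K2_ok TQ_l478 _)
             (CovZ.leaf K2_ok TQ_l479 _)))))
         (CovZ.n1 (-40, -524) (by decide +kernel)
          (CovZ.subM 18446744142429552640 (by decide +kernel)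
           (CovZ.n2 (-38, -522) (by decide +kernel)
            (CovZ.n2 (-38, -524) (by decide +kernel)
             (CovZ.n2 (-39, -523) (by decide +kernel)
              (CovZ.leaf K2_ok TQ_l480 _)
              (CovZ.leaf K2_ok TQ_l481 _))
             (CovZ.leaf K2_ok TQ_l482 _))
            (CovZ.n1 (-40, -522) (by decide +kernel)
             (CovZ.badM (by decide +kernel))
             (CovZ.leaf K2_ok TQ_l483 _))))
          (CovZ.n1 (-38, -526) (by decide +kernel)
           (CovZ.n2 (-40, -526) (by decide +kernel)
            (CovZ.leaf K2_ok TQ_l484 _)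
            (CovZ.leaf K2_ok TQ_l485 _))
           (CovZ.n1 (-38, -524) (by decide +kernel)
            (CovZ.leaf K2_ok TQ_l486 _)
            (CovZ.n1 (-39, -525) (by decide +kernel)
             (CovZ.leaf K2_ok TQ_l487 _)
             (CovZ.leaf K2_ok TQ_l488 _))))))))))
    (CovZ.n1 (-48, -544) (by decide +kernel)
     TQ_u4
     TQ_u5)))
    (CovZ.topM TQ_LL 9504766118455874813755 (by decide +kernel) (CovZ.n0 (-48, -528) (by decide +kernel)
    (CovZ.n2 (-64, -528) (by decide +kernel)
     (CovZ.subM 18455751341684313089 (by decide +kernel)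
      (CovZ.n2 (-56, -520) (by decide +kernel)
       (CovZ.n2 (-56, -528) (by decide +kernel)
        (CovZ.n2 (-60, -524) (by decide +kernel)
         (CovZ.n2 (-56, -524) (by decide +kernel)
          (CovZ.n2 (-58, -526) (by decide +kernel)
           (CovZ.leaf K2_ok TQ_l620 _)
           (CovZ.leaf K2_ok TQ_l621 _))
          (CovZ.n1 (-58, -522) (by decide +kernel)
           (CovZ.leaf K2_ok TQ_l622 _)
           (CovZ.leaf K2_ok TQ_l623 _)))
         (CovZ.n1 (-60, -528) (by decide +kernel)
          (CovZ.n2 (-62, -526) (by decide +kernel)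
           (CovZ.leaf K2_ok TQ_l624 _)
           (CovZ.badM (by decide +kernel)))
          (CovZ.leaf K2_ok TQ_l625 _)))
        (CovZ.n1 (-52, -524) (by decide +kernel)
         (CovZ.n2 (-52, -528) (by decide +kernel)
          (CovZ.n2 (-54, -526) (by decide +kernel)
           (CovZ.leaf K2_ok TQ_l626 _)
           (CovZ.leaf K2_ok TQ_l627 _))
          (CovZ.leaf K2_ok TQ_l628 _))
         (CovZ.n1 (-56, -524) (by decide +kernel)
          (CovZ.leaf K2_ok TQ_l629 _)
          (CovZ.n1 (-54, -526) (by decide +kernel)
           (CovZ.leaf K2_ok TQ_l630 _)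
           (CovZ.leaf K2_ok TQ_l631 _)))))
       (CovZ.subM 18446744142429045760 (by decide +kernel)
        (CovZ.n1 (-64, -520) (by decide +kernel)
         (CovZ.n2 (-60, -516) (by decide +kernel)
          (CovZ.n2 (-60, -520) (by decide +kernel)
           (CovZ.badM (by decide +kernel))
           (CovZ.leaf K2_ok TQ_l632 _))
          (CovZ.badM (by decide +kernel)))
         (CovZ.n1 (-60, -524) (by decide +kernel)
          (CovZ.n2 (-64, -524) (by decide +kernel)
           (CovZ.badM (by decide +kernel))
           (CovZ.n1 (-62, -526) (by decide +kernel)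
            (CovZ.leaf K2_ok TQ_l633 _)
            (CovZ.badM (by decide +kernel))))
          (CovZ.n1 (-60, -520) (by decide +kernel)
           (CovZ.n2 (-58, -522) (by decide +kernel)
            (CovZ.leaf K2_ok TQ_l634 _)
            (CovZ.leaf K2_ok TQ_l635 _))
           (CovZ.badM (by decide +kernel))))))))
     (CovZ.n1 (-56, -536) (by decide +kernel)
      (CovZ.subM 18527949879368491008 (by decide +kernel)
       (CovZ.n2 (-64, -536) (by decide +kernel)
        (CovZ.n2 (-60, -532) (by decide +kernel)
         (CovZ.subM 18455751547842199552 (by decide +kernel)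
          (CovZ.n2 (-60, -536) (by decide +kernel)
           (CovZ.badM (by decide +kernel))
           (CovZ.n1 (-58, -534) (by decide +kernel)
            (CovZ.n2 (-58, -536) (by decide +kernel)
             (CovZ.leaf K2_ok TQ_l636 _)
             (CovZ.leaf K2_ok TQ_l637 _))
            (CovZ.leaf K2_ok TQ_l638 _))))
         (CovZ.n1 (-64, -532) (by decide +kernel)
          (CovZ.badM (by decide +kernel))
          (CovZ.badM (by decide +kernel))))
        (CovZ.n1 (-60, -540) (by decide +kernel)
         (CovZ.badM (by decide +kernel))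
         (CovZ.n1 (-60, -536) (by decide +kernel)
          (CovZ.n2 (-58, -538) (by decide +kernel)
           (CovZ.n2 (-60, -538) (by decide +kernel)
            (CovZ.leaf K2_ok TQ_l639 _)
            (CovZ.n1 (-59, -539) (by decide +kernel)
             (CovZ.leaf K2_ok TQ_l640 _)
             (CovZ.leaf K2_ok TQ_l641 _)))
           (CovZ.leaf K2_ok TQ_l642 _))
          (CovZ.subM 9007199254740992 (by decide +kernel)
           (CovZ.n1 (-62, -538) (by decide +kernel)
            (CovZ.badM (by decide +kernel))
            (CovZ.n1 (-60, -538) (by decide +kernel)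
             (CovZ.n2 (-61, -539) (by decide +kernel)
              (CovZ.leaf K2_ok TQ_l643 _)
              (CovZ.leaf K2_ok TQ_l644 _))
             (CovZ.n1 (-61, -537) (by decide +kernel)
              (CovZ.leaf K2_ok TQ_l645 _)
              (CovZ.leaf K2_ok TQ_l646 _)))))))))
      (CovZ.subM 18455892362942598155 (by decide +kernel)
       (CovZ.n1 (-56, -528) (by decide +kernel)
        (CovZ.n2 (-52, -532) (by decide +kernel)
         (CovZ.n2 (-56, -532) (by decide +kernel)
          (CovZ.n2 (-54, -530) (by decide +kernel)
           (CovZ.leaf K2_ok TQ_l647 _)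
           (CovZ.leaf K2_ok TQ_l648 _))
          (CovZ.n1 (-54, -534) (by decide +kernel)
           (CovZ.leaf K2_ok TQ_l649 _)
           (CovZ.leaf K2_ok TQ_l650 _)))
         (CovZ.n1 (-52, -528) (by decide +kernel)
          (CovZ.n2 (-50, -530) (by decide +kernel)
           (CovZ.leaf K2_ok TQ_l651 _)
           (CovZ.leaf K2_ok TQ_l652 _))
          (CovZ.n1 (-54, -530) (by decide +kernel)
           (CovZ.leaf K2_ok TQ_l653 _)
           (CovZ.n1 (-52, -530) (by decide +kernel)
            (CovZ.leaf K2_ok TQ_l654 _)
            (CovZ.leaf K2_ok TQ_l655 _)))))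
        (CovZ.subM 18455892285364225026 (by decide +kernel)
         (CovZ.n1 (-60, -532) (by decide +kernel)
          (CovZ.n2 (-60, -528) (by decide +kernel)
           (CovZ.n2 (-58, -530) (by decide +kernel)
            (CovZ.leaf K2_ok TQ_l656 _)
            (CovZ.leaf K2_ok TQ_l657 _))
           (CovZ.n1 (-62, -530) (by decide +kernel)
            (CovZ.leaf K2_ok TQ_l658 _)
            (CovZ.n1 (-60, -530) (by decide +kernel)
             (CovZ.badM (by decide +kernel))
             (CovZ.leaf K2_ok TQ_l659 _))))
          (CovZ.n1 (-56, -532) (by decide +kernel)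
           (CovZ.n2 (-58, -534) (by decide +kernel)
            (CovZ.leaf K2_ok TQ_l660 _)
            (CovZ.n1 (-56, -534) (by decide +kernel)
             (CovZ.leaf K2_ok TQ_l661 _)
             (CovZ.leaf K2_ok TQ_l662 _)))
           (CovZ.n1 (-58, -530) (by decide +kernel)
            (CovZ.n2 (-56, -530) (by decide +kernel)
             (CovZ.leaf K2_ok TQ_l663 _)
             (CovZ.leaf K2_ok TQ_l664 _))
            (CovZ.leaf K2_ok TQ_l665 _)))))))))
    (CovZ.subM 18455751341684295681 (by decide +kernel)
     (CovZ.n1 (-48, -512) (by decide +kernel)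
      (CovZ.n2 (-40, -520) (by decide +kernel)
       (CovZ.n2 (-48, -520) (by decide +kernel)
        (CovZ.subM 18446744073710075904 (by decide +kernel)
         (CovZ.n2 (-44, -516) (by decide +kernel)
          (CovZ.n2 (-44, -520) (by decide +kernel)
           (CovZ.n2 (-46, -518) (by decide +kernel)
            (CovZ.badM (by decide +kernel))
            (CovZ.n1 (-46, -520) (by decide +kernel)
             (CovZ.leaf K2_ok TQ_l666 _)
             (CovZ.badM (by decide +kernel))))
           (CovZ.badM (by decide +kernel)))
          (CovZ.n1 (-48, -516) (by decide +kernel)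
           (CovZ.badM (by decide +kernel))
           (CovZ.n1 (-46, -518) (by decide +kernel)
            (CovZ.n2 (-48, -518) (by decide +kernel)
             (CovZ.badM (by decide +kernel))
             (CovZ.leaf K2_ok TQ_l667 _))
            (CovZ.badM (by decide +kernel))))))
        (CovZ.n1 (-44, -524) (by decide +kernel)
         (CovZ.n2 (-48, -524) (by decide +kernel)
          (CovZ.n2 (-46, -522) (by decide +kernel)
           (CovZ.leaf K2_ok TQ_l668 _)
           (CovZ.leaf K2_ok TQ_l669 _))
          (CovZ.n1 (-46, -526) (by decide +kernel)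
           (CovZ.leaf K2_ok TQ_l670 _)
           (CovZ.leaf K2_ok TQ_l671 _)))
         (CovZ.n1 (-44, -520) (by decide +kernel)
          (CovZ.n2 (-42, -522) (by decide +kernel)
           (CovZ.n2 (-44, -522) (by decide +kernel)
            (CovZ.leaf K2_ok TQ_l672 _)
            (CovZ.leaf K2_ok TQ_l673 _))
           (CovZ.badM (by decide +kernel)))
          (CovZ.n1 (-46, -522) (by decide +kernel)
           (CovZ.leaf K2_ok TQ_l674 _)
           (CovZ.n1 (-44, -522) (by decide +kernel)
            (CovZ.leaf K2_ok TQ_l675 _)
            (CovZ.leaf K2_ok TQ_l676 _))))))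
       (CovZ.badM (by decide +kernel)))
      (CovZ.n1 (-56, -520) (by decide +kernel)
       (CovZ.subM 18446744142429552640 (by decide +kernel)
        (CovZ.n2 (-56, -512) (by decide +kernel)
         (CovZ.n2 (-52, -516) (by decide +kernel)
          (CovZ.n2 (-56, -516) (by decide +kernel)
           (CovZ.badM (by decide +kernel))
           (CovZ.n1 (-54, -518) (by decide +kernel)
            (CovZ.leaf K2_ok TQ_l677 _)
            (CovZ.leaf K2_ok TQ_l678 _)))
          (CovZ.badM (by decide +kernel)))
         (CovZ.n1 (-60, -516) (by decide +kernel)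
          (CovZ.n2 (-60, -512) (by decide +kernel)
           (CovZ.n2 (-58, -514) (by decide +kernel)
            (CovZ.leaf K2_ok TQ_l679 _)
            (CovZ.badM (by decide +kernel)))
           (CovZ.n1 (-62, -514) (by decide +kernel)
            (CovZ.leaf K2_ok TQ_l680 _)
            (CovZ.leaf K2_ok TQ_l681 _)))
          (CovZ.n1 (-56, -516) (by decide +kernel)
           (CovZ.n2 (-58, -518) (by decide +kernel)
            (CovZ.leaf K2_ok TQ_l682 _)
            (CovZ.leaf K2_ok TQ_l683 _))
           (CovZ.n1 (-58, -514) (by decide +kernel)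
            (CovZ.badM (by decide +kernel))
            (CovZ.leaf K2_ok TQ_l684 _))))))
       (CovZ.n1 (-48, -520) (by decide +kernel)
        (CovZ.n2 (-52, -524) (by decide +kernel)
         (CovZ.n2 (-52, -520) (by decide +kernel)
          (CovZ.n2 (-50, -522) (by decide +kernel)
           (CovZ.leaf K2_ok TQ_l685 _)
           (CovZ.leaf K2_ok TQ_l686 _))
          (CovZ.n1 (-54, -522) (by decide +kernel)
           (CovZ.leaf K2_ok TQ_l687 _)
           (CovZ.leaf K2_ok TQ_l688 _)))
         (CovZ.n1 (-48, -524) (by decide +kernel)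
          (CovZ.n2 (-50, -526) (by decide +kernel)
           (CovZ.leaf K2_ok TQ_l689 _)
           (CovZ.n1 (-48, -526) (by decide +kernel)
            (CovZ.leaf K2_ok TQ_l690 _)
            (CovZ.leaf K2_ok TQ_l691 _)))
          (CovZ.n1 (-50, -522) (by decide +kernel)
           (CovZ.n2 (-48, -522) (by decide +kernel)
            (CovZ.leaf K2_ok TQ_l692 _)
            (CovZ.leaf K2_ok TQ_l693 _))
           (CovZ.leaf K2_ok TQ_l694 _))))
        (CovZ.n1 (-52, -516) (by decide +kernel)
         (CovZ.subM 18446744073710075904 (by decide +kernel)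
          (CovZ.n2 (-48, -516) (by decide +kernel)
           (CovZ.n2 (-50, -518) (by decide +kernel)
            (CovZ.badM (by decide +kernel))
            (CovZ.n1 (-48, -518) (by decide +kernel)
             (CovZ.leaf K2_ok TQ_l695 _)
             (CovZ.badM (by decide +kernel))))
           (CovZ.badM (by decide +kernel))))
         (CovZ.n1 (-52, -520) (by decide +kernel)
          (CovZ.n2 (-54, -518) (by decide +kernel)
           (CovZ.n2 (-52, -518) (by decide +kernel)
            (CovZ.leaf K2_ok TQ_l696 _)
            (CovZ.leaf K2_ok TQ_l697 _))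
           (CovZ.leaf K2_ok TQ_l698 _))
          (CovZ.n1 (-50, -518) (by decide +kernel)
           (CovZ.leaf K2_ok TQ_l699 _)
           (CovZ.leaf K2_ok TQ_l700 _))))))))))

theorem TQ_s1_1 : SqZ TQ_M TQ_L [0, 7, 4, 3] (-64) (-576) 32 1 1 :=
  SqZ.mk (a := (-32)) (b := 0) (c := (-544)) (d := (-512)) (by norm_num) (by norm_num) (by norm_num) (by norm_num)
    (CovZ.topM TQ_LL 37778931862957161709567 (by decide +kernel) (CovZ.n2 (-16, -528) (by decide +kernel)
    (CovZ.n2 (0, -528) (by decide +kernel)
     (CovZ.n2 (-8, -536) (by decide +kernel)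
      (CovZ.n2 (-8, -528) (by decide +kernel)
       (CovZ.leaf K2_ok TQ_l873 _)
       (CovZ.n1 (-12, -532) (by decide +kernel)
        (CovZ.n2 (-12, -528) (by decide +kernel)
         (CovZ.leaf K2_ok TQ_l874 _)
         (CovZ.leaf K2_ok TQ_l875 _))
        (CovZ.leaf K2_ok TQ_l876 _)))
      (CovZ.n1 (0, -536) (by decide +kernel)
       (CovZ.leaf K2_ok TQ_l877 _)
       (CovZ.leaf K2_ok TQ_l878 _)))
     (CovZ.n1 (-8, -520) (by decide +kernel)
      (CovZ.subM 37166469253524955247044 (by decide +kernel)
       (CovZ.n2 (0, -520) (by decide +kernel)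
        (CovZ.n2 (-4, -524) (by decide +kernel)
         (CovZ.n2 (-4, -520) (by decide +kernel)
          (CovZ.leaf K2_ok TQ_l879 _)
          (CovZ.n1 (-6, -522) (by decide +kernel)
           (CovZ.n2 (-6, -520) (by decide +kernel)
            (CovZ.leaf K2_ok TQ_l880 _)
            (CovZ.leaf K2_ok TQ_l881 _))
           (CovZ.leaf K2_ok TQ_l882 _)))
         (CovZ.n1 (0, -524) (by decide +kernel)
          (CovZ.leaf K2_ok TQ_l883 _)
          (CovZ.leaf K2_ok TQ_l884 _)))
        (CovZ.subM 22884077214496861454340 (by decide +kernel)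
         (CovZ.n1 (-4, -516) (by decide +kernel)
          (CovZ.subM 20218228831537067982848 (by decide +kernel)
           (CovZ.n2 (0, -516) (by decide +kernel)
            (CovZ.n2 (-2, -518) (by decide +kernel)
             (CovZ.n2 (-2, -516) (by decide +kernel)
              (CovZ.leaf K2_ok TQ_l885 _)
              (CovZ.n1 (-3, -517) (by decide +kernel)
               (CovZ.badM (by decide +kernel))
               (CovZ.leaf K2_ok TQ_l886 _)))
             (CovZ.n1 (0, -518) (by decide +kernel)
              (CovZ.leaf K2_ok TQ_l887 _)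
              (CovZ.leaf K2_ok TQ_l888 _)))
            (CovZ.badM (by decide +kernel))))
          (CovZ.n1 (-4, -520) (by decide +kernel)
           (CovZ.subM 3846437788676536664068 (by decide +kernel)
            (CovZ.n2 (-6, -518) (by decide +kernel)
             (CovZ.n2 (-4, -518) (by decide +kernel)
              (CovZ.leaf K2_ok TQ_l889 _)
              (CovZ.badM (by decide +kernel)))
             (CovZ.n1 (-6, -520) (by decide +kernel)
              (CovZ.n2 (-7, -519) (by decide +kernel)
               (CovZ.leaf K2_ok TQ_l890 _)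
               (CovZ.leaf K2_ok TQ_l891 _))
              (CovZ.leaf K2_ok TQ_l892 _))))
           (CovZ.n1 (-2, -518) (by decide +kernel)
            (CovZ.leaf K2_ok TQ_l893 _)
            (CovZ.n1 (-4, -518) (by decide +kernel)
             (CovZ.leaf K2_ok TQ_l894 _)
             (CovZ.leaf K2_ok TQ_l895 _))))))))
      (CovZ.n1 (-8, -528) (by decide +kernel)
       (CovZ.n2 (-12, -524) (by decide +kernel)
        (CovZ.subM 37166468972039258943940 (by decide +kernel)
         (CovZ.n2 (-8, -524) (by decide +kernel)
          (CovZ.n2 (-10, -526) (by decide +kernel)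
           (CovZ.leaf K2_ok TQ_l896 _)
           (CovZ.leaf K2_ok TQ_l897 _))
          (CovZ.n1 (-10, -522) (by decide +kernel)
           (CovZ.n2 (-8, -522) (by decide +kernel)
            (CovZ.leaf K2_ok TQ_l898 _)
            (CovZ.n1 (-9, -521) (by decide +kernel)
             (CovZ.leaf K2_ok TQ_l899 _)
             (CovZ.leaf K2_ok TQ_l900 _)))
           (CovZ.leaf K2_ok TQ_l901 _))))
        (CovZ.n1 (-12, -528) (by decide +kernel)
         (CovZ.n2 (-14, -526) (by decide +kernel)
          (CovZ.leaf K2_ok TQ_l902 _)
          (CovZ.leaf K2_ok TQ_l903 _))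
         (CovZ.leaf K2_ok TQ_l904 _)))
       (CovZ.n1 (-4, -524) (by decide +kernel)
        (CovZ.leaf K2_ok TQ_l905 _)
        (CovZ.n1 (-8, -524) (by decide +kernel)
         (CovZ.leaf K2_ok TQ_l906 _)
         (CovZ.leaf K2_ok TQ_l907 _))))))
    (CovZ.n1 (-16, -544) (by decide +kernel)
     (CovZ.n2 (-24, -536) (by decide +kernel)
      (CovZ.n2 (-16, -536) (by decide +kernel)
       (CovZ.n2 (-20, -540) (by decide +kernel)
        (CovZ.leaf K2_ok TQ_l908 _)
        (CovZ.leaf K2_ok TQ_l909 _))
       (CovZ.n1 (-20, -532) (by decide +kernel)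
        (CovZ.n2 (-16, -532) (by decide +kernel)
         (CovZ.leaf K2_ok TQ_l910 _)
         (CovZ.n1 (-18, -530) (by decide +kernel)
          (CovZ.leaf K2_ok TQ_l911 _)
          (CovZ.leaf K2_ok TQ_l912 _)))
        (CovZ.leaf K2_ok TQ_l913 _)))
      (CovZ.n1 (-24, -544) (by decide +kernel)
       (CovZ.n2 (-28, -540) (by decide +kernel)
        (CovZ.n2 (-24, -540) (by decide +kernel)
         (CovZ.n2 (-26, -542) (by decide +kernel)
          (CovZ.leaf K2_ok TQ_l914 _)
          (CovZ.n1 (-24, -542) (by decide +kernel)
           (CovZ.leaf K2_ok TQ_l915 _)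
           (CovZ.leaf K2_ok TQ_l916 _)))
         (CovZ.n1 (-26, -538) (by decide +kernel)
          (CovZ.n2 (-24, -538) (by decide +kernel)
           (CovZ.leaf K2_ok TQ_l917 _)
           (CovZ.leaf K2_ok TQ_l918 _))
          (CovZ.leaf K2_ok TQ_l919 _)))
        (CovZ.n1 (-28, -544) (by decide +kernel)
         (CovZ.n2 (-30, -542) (by decide +kernel)
          (CovZ.n2 (-28, -542) (by decide +kernel)
           (CovZ.leaf K2_ok TQ_l920 _)
           (CovZ.leaf K2_ok TQ_l921 _))
          (CovZ.n1 (-30, -544) (by decide +kernel)
           (CovZ.leaf K2_ok TQ_l922 _)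
           (CovZ.leaf K2_ok TQ_l923 _)))
         (CovZ.n1 (-26, -542) (by decide +kernel)
          (CovZ.leaf K2_ok TQ_l924 _)
          (CovZ.leaf K2_ok TQ_l925 _))))
       (CovZ.n1 (-20, -540) (by decide +kernel)
        (CovZ.n2 (-20, -544) (by decide +kernel)
         (CovZ.leaf K2_ok TQ_l926 _)
         (CovZ.leaf K2_ok TQ_l927 _))
        (CovZ.n1 (-24, -540) (by decide +kernel)
         (CovZ.leaf K2_ok TQ_l928 _)
         (CovZ.n1 (-22, -542) (by decide +kernel)
          (CovZ.leaf K2_ok TQ_l929 _)
          (CovZ.leaf K2_ok TQ_l930 _))))))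
     (CovZ.n1 (-8, -536) (by decide +kernel)
      (CovZ.n2 (-8, -544) (by decide +kernel)
       (CovZ.leaf K2_ok TQ_l931 _)
       (CovZ.leaf K2_ok TQ_l932 _))
      (CovZ.n1 (-16, -536) (by decide +kernel)
       (CovZ.leaf K2_ok TQ_l933 _)
       (CovZ.leaf K2_ok TQ_l934 _))))))
    (CovZ.topM TQ_LL 37778931862957161709567 (by decide +kernel) (CovZ.n0 (-16, -528) (by decide +kernel)
    (CovZ.n2 (-32, -528) (by decide +kernel)
     (CovZ.n2 (-24, -520) (by decide +kernel)
      (CovZ.n2 (-24, -528) (by decide +kernel)
       (CovZ.subM 19608672846291140609 (by decide +kernel)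
        (CovZ.n2 (-28, -524) (by decide +kernel)
         (CovZ.badM (by decide +kernel))
         (CovZ.n1 (-28, -528) (by decide +kernel)
          (CovZ.n2 (-30, -526) (by decide +kernel)
           (CovZ.n2 (-28, -526) (by decide +kernel)
            (CovZ.n2 (-29, -527) (by decide +kernel)
             (CovZ.badM (by decide +kernel))
             (CovZ.leaf K2_ok TQ_l935 _))
            (CovZ.badM (by decide +kernel)))
           (CovZ.n1 (-30, -528) (by decide +kernel)
            (CovZ.leaf K2_ok TQ_l936 _)
            (CovZ.leaf K2_ok TQ_l937 _)))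
          (CovZ.subM 19599665647035875328 (by decide +kernel)
           (CovZ.n1 (-26, -526) (by decide +kernel)
            (CovZ.n2 (-26, -528) (by decide +kernel)
             (CovZ.n2 (-27, -527) (by decide +kernel)
              (CovZ.badM (by decide +kernel))
              (CovZ.leaf K2_ok TQ_l938 _))
             (CovZ.badM (by decide +kernel)))
            (CovZ.n1 (-28, -526) (by decide +kernel)
             (CovZ.badM (by decide +kernel))
             (CovZ.n1 (-27, -527) (by decide +kernel)
              (CovZ.leaf K2_ok TQ_l939 _)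
              (CovZ.badM (by decide +kernel)))))))))
       (CovZ.subM 37759286710223865520132 (by decide +kernel)
        (CovZ.n1 (-20, -524) (by decide +kernel)
         (CovZ.n2 (-20, -528) (by decide +kernel)
          (CovZ.subM 19786746304223315492864 (by decide +kernel)
           (CovZ.n2 (-22, -526) (by decide +kernel)
            (CovZ.n2 (-20, -526) (by decide +kernel)
             (CovZ.n2 (-21, -527) (by decide +kernel)
              (CovZ.badM (by decide +kernel))
              (CovZ.leaf K2_ok TQ_l940 _))
             (CovZ.badM (by decide +kernel)))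
            (CovZ.n1 (-22, -528) (by decide +kernel)
             (CovZ.badM (by decide +kernel))
             (CovZ.n1 (-21, -527) (by decide +kernel)
              (CovZ.leaf K2_ok TQ_l941 _)
              (CovZ.badM (by decide +kernel))))))
          (CovZ.n1 (-18, -526) (by decide +kernel)
           (CovZ.n2 (-18, -528) (by decide +kernel)
            (CovZ.leaf K2_ok TQ_l942 _)
            (CovZ.leaf K2_ok TQ_l943 _))
           (CovZ.n1 (-20, -526) (by decide +kernel)
            (CovZ.badM (by decide +kernel))
            (CovZ.n1 (-19, -527) (by decide +kernel)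
             (CovZ.leaf K2_ok TQ_l944 _)
             (CovZ.badM (by decide +kernel))))))
         (CovZ.badM (by decide +kernel)))))
      (CovZ.subM 19608672846291140609 (by decide +kernel)
       (CovZ.n1 (-32, -520) (by decide +kernel)
        (CovZ.badM (by decide +kernel))
        (CovZ.n1 (-28, -524) (by decide +kernel)
         (CovZ.n2 (-32, -524) (by decide +kernel)
          (CovZ.badM (by decide +kernel))
          (CovZ.n1 (-30, -526) (by decide +kernel)
           (CovZ.n2 (-32, -526) (by decide +kernel)
            (CovZ.badM (by decide +kernel))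
            (CovZ.n1 (-31, -527) (by decide +kernel)
             (CovZ.leaf K2_ok TQ_l945 _)
             (CovZ.leaf K2_ok TQ_l946 _)))
           (CovZ.badM (by decide +kernel))))
         (CovZ.badM (by decide +kernel))))))
     (CovZ.n1 (-24, -536) (by decide +kernel)
      (CovZ.n2 (-32, -536) (by decide +kernel)
       (CovZ.n2 (-28, -532) (by decide +kernel)
        (CovZ.n2 (-28, -536) (by decide +kernel)
         (CovZ.n2 (-30, -534) (by decide +kernel)
          (CovZ.n2 (-28, -534) (by decide +kernel)
           (CovZ.leaf K2_ok TQ_l947 _)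
           (CovZ.leaf K2_ok TQ_l948 _))
          (CovZ.n1 (-30, -536) (by decide +kernel)
           (CovZ.leaf K2_ok TQ_l949 _)
           (CovZ.leaf K2_ok TQ_l950 _)))
         (CovZ.n1 (-26, -534) (by decide +kernel)
          (CovZ.leaf K2_ok TQ_l951 _)
          (CovZ.n1 (-28, -534) (by decide +kernel)
           (CovZ.leaf K2_ok TQ_l952 _)
           (CovZ.leaf K2_ok TQ_l953 _))))
        (CovZ.n1 (-32, -532) (by decide +kernel)
         (CovZ.subM 9580467124764280487739 (by decide +kernel)
          (CovZ.n2 (-30, -530) (by decide +kernel)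
           (CovZ.n2 (-30, -532) (by decide +kernel)
            (CovZ.leaf K2_ok TQ_l954 _)
            (CovZ.leaf K2_ok TQ_l955 _))
           (CovZ.n1 (-32, -530) (by decide +kernel)
            (CovZ.leaf K2_ok TQ_l956 _)
            (CovZ.leaf K2_ok TQ_l957 _))))
         (CovZ.n1 (-30, -534) (by decide +kernel)
          (CovZ.n2 (-32, -534) (by decide +kernel)
           (CovZ.leaf K2_ok TQ_l958 _)
           (CovZ.leaf K2_ok TQ_l959 _))
          (CovZ.n1 (-30, -532) (by decide +kernel)
           (CovZ.leaf K2_ok TQ_l960 _)
           (CovZ.leaf K2_ok TQ_l961 _)))))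
       (CovZ.n1 (-28, -540) (by decide +kernel)
        (CovZ.n2 (-32, -540) (by decide +kernel)
         (CovZ.n2 (-30, -538) (by decide +kernel)
          (CovZ.n2 (-30, -540) (by decide +kernel)
           (CovZ.leaf K2_ok TQ_l962 _)
           (CovZ.leaf K2_ok TQ_l963 _))
          (CovZ.n1 (-32, -538) (by decide +kernel)
           (CovZ.leaf K2_ok TQ_l964 _)
           (CovZ.leaf K2_ok TQ_l965 _)))
         (CovZ.n1 (-30, -542) (by decide +kernel)
          (CovZ.n2 (-32, -542) (by decide +kernel)
           (CovZ.leaf K2_ok TQ_l966 _)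
           (CovZ.leaf K2_ok TQ_l967 _))
          (CovZ.leaf K2_ok TQ_l968 _)))
        (CovZ.n1 (-28, -536) (by decide +kernel)
         (CovZ.n2 (-26, -538) (by decide +kernel)
          (CovZ.leaf K2_ok TQ_l969 _)
          (CovZ.leaf K2_ok TQ_l970 _))
         (CovZ.n1 (-30, -538) (by decide +kernel)
          (CovZ.leaf K2_ok TQ_l971 _)
          (CovZ.n1 (-28, -538) (by decide +kernel)
           (CovZ.leaf K2_ok TQ_l972 _)
           (CovZ.leaf K2_ok TQ_l973 _))))))
      (CovZ.n1 (-24, -528) (by decide +kernel)
       (CovZ.n2 (-20, -532) (by decide +kernel)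
        (CovZ.n2 (-24, -532) (by decide +kernel)
         (CovZ.n2 (-22, -530) (by decide +kernel)
          (CovZ.leaf K2_ok TQ_l974 _)
          (CovZ.n1 (-24, -530) (by decide +kernel)
           (CovZ.leaf K2_ok TQ_l975 _)
           (CovZ.leaf K2_ok TQ_l976 _)))
         (CovZ.leaf K2_ok TQ_l977 _))
        (CovZ.n1 (-20, -528) (by decide +kernel)
         (CovZ.n2 (-18, -530) (by decide +kernel)
          (CovZ.leaf K2_ok TQ_l978 _)
          (CovZ.leaf K2_ok TQ_l979 _))
         (CovZ.n1 (-22, -530) (by decide +kernel)
          (CovZ.n2 (-22, -528) (by decide +kernel)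
           (CovZ.leaf K2_ok TQ_l980 _)
           (CovZ.n1 (-23, -529) (by decide +kernel)
            (CovZ.badM (by decide +kernel))
            (CovZ.leaf K2_ok TQ_l981 _)))
          (CovZ.leaf K2_ok TQ_l982 _))))
       (CovZ.n1 (-28, -532) (by decide +kernel)
        (CovZ.subM 9580467124764280749883 (by decide +kernel)
         (CovZ.n2 (-28, -528) (by decide +kernel)
          (CovZ.n2 (-26, -530) (by decide +kernel)
           (CovZ.n2 (-28, -530) (by decide +kernel)
            (CovZ.leaf K2_ok TQ_l983 _)
            (CovZ.leaf K2_ok TQ_l984 _))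
           (CovZ.n1 (-26, -528) (by decide +kernel)
            (CovZ.n2 (-25, -529) (by decide +kernel)
             (CovZ.leaf K2_ok TQ_l985 _)
             (CovZ.badM (by decide +kernel)))
            (CovZ.leaf K2_ok TQ_l986 _)))
          (CovZ.n1 (-30, -530) (by decide +kernel)
           (CovZ.n2 (-30, -528) (by decide +kernel)
            (CovZ.leaf K2_ok TQ_l987 _)
            (CovZ.leaf K2_ok TQ_l988 _))
           (CovZ.n1 (-28, -530) (by decide +kernel)
            (CovZ.leaf K2_ok TQ_l989 _)
            (CovZ.leaf K2_ok TQ_l990 _)))))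
        (CovZ.n1 (-24, -532) (by decide +kernel)
         (CovZ.n2 (-26, -534) (by decide +kernel)
          (CovZ.leaf K2_ok TQ_l991 _)
          (CovZ.leaf K2_ok TQ_l992 _))
         (CovZ.n1 (-26, -530) (by decide +kernel)
          (CovZ.n2 (-24, -530) (by decide +kernel)
           (CovZ.leaf K2_ok TQ_l993 _)
           (CovZ.n1 (-25, -529) (by decide +kernel)
            (CovZ.leaf K2_ok TQ_l994 _)
            (CovZ.leaf K2_ok TQ_l995 _)))
          (CovZ.n1 (-26, -532) (by decide +kernel)
           (CovZ.leaf K2_ok TQ_l996 _)
           (CovZ.leaf K2_ok TQ_l997 _))))))))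
    (CovZ.subM 37759286710223798411396 (by decide +kernel)
     (CovZ.n1 (-16, -512) (by decide +kernel)
      (CovZ.n2 (-8, -520) (by decide +kernel)
       (CovZ.n2 (-16, -520) (by decide +kernel)
        (CovZ.badM (by decide +kernel))
        (CovZ.n1 (-12, -524) (by decide +kernel)
         (CovZ.n2 (-16, -524) (by decide +kernel)
          (CovZ.n2 (-14, -522) (by decide +kernel)
           (CovZ.n2 (-14, -524) (by decide +kernel)
            (CovZ.badM (by decide +kernel))
            (CovZ.leaf K2_ok TQ_l998 _))
           (CovZ.badM (by decide +kernel)))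
          (CovZ.n1 (-14, -526) (by decide +kernel)
           (CovZ.leaf K2_ok TQ_l999 _)
           (CovZ.n1 (-14, -524) (by decide +kernel)
            (CovZ.leaf K2_ok TQ_l1000 _)
            (CovZ.leaf K2_ok TQ_l1001 _))))
         (CovZ.subM 8568804267148153192580 (by decide +kernel)
          (CovZ.n1 (-12, -520) (by decide +kernel)
           (CovZ.n2 (-10, -522) (by decide +kernel)
            (CovZ.n2 (-12, -522) (by decide +kernel)
             (CovZ.badM (by decide +kernel))
             (CovZ.leaf K2_ok TQ_l1002 _))
            (CovZ.badM (by decide +kernel)))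
           (CovZ.n1 (-14, -522) (by decide +kernel)
            (CovZ.badM (by decide +kernel))
            (CovZ.n1 (-12, -522) (by decide +kernel)
             (CovZ.n2 (-13, -523) (by decide +kernel)
              (CovZ.badM (by decide +kernel))
              (CovZ.leaf K2_ok TQ_l1003 _))
             (CovZ.badM (by decide +kernel))))))))
       (CovZ.badM (by decide +kernel)))
      (CovZ.n1 (-24, -520) (by decide +kernel)
       (CovZ.badM (by decide +kernel))
       (CovZ.n1 (-16, -520) (by decide +kernel)
        (CovZ.n2 (-20, -524) (by decide +kernel)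
         (CovZ.badM (by decide +kernel))
         (CovZ.n1 (-16, -524) (by decide +kernel)
          (CovZ.n2 (-18, -526) (by decide +kernel)
           (CovZ.badM (by decide +kernel))
           (CovZ.n1 (-16, -526) (by decide +kernel)
            (CovZ.leaf K2_ok TQ_l1004 _)
            (CovZ.n1 (-17, -525) (by decide +kernel)
             (CovZ.leaf K2_ok TQ_l1005 _)
             (CovZ.leaf K2_ok TQ_l1006 _))))
          (CovZ.badM (by decide +kernel))))
        (CovZ.badM (by decide +kernel))))))))

theorem TQ_s2_1 : SqZ TQ_M TQ_L [0, 7, 4, 3] (-64) (-576) 32 2 1 :=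
  SqZ.mk (a := 0) (b := 32) (c := (-544)) (d := (-512)) (by norm_num) (by norm_num) (by norm_num) (by norm_num)
    (CovZ.topM TQ_LL 37649069342218301619094 (by decide +kernel) (CovZ.n2 (16, -528) (by decide +kernel)
    (CovZ.n2 (32, -528) (by decide +kernel)
     (CovZ.n2 (24, -536) (by decide +kernel)
      (CovZ.badM (by decide +kernel))
      (CovZ.badM (by decide +kernel)))
     (CovZ.badM (by decide +kernel)))
    (CovZ.n1 (16, -544) (by decide +kernel)
     (CovZ.n2 (8, -536) (by decide +kernel)
      (CovZ.subM 18456310744237945787014 (by decide +kernel)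
       (CovZ.n2 (16, -536) (by decide +kernel)
        (CovZ.n2 (12, -540) (by decide +kernel)
         (CovZ.leaf K2_ok TQ_l1032 _)
         (CovZ.leaf K2_ok TQ_l1033 _))
        (CovZ.n1 (12, -532) (by decide +kernel)
         (CovZ.subM 11363248850033956618756 (by decide +kernel)
          (CovZ.n2 (16, -532) (by decide +kernel)
           (CovZ.n2 (14, -534) (by decide +kernel)
            (CovZ.leaf K2_ok TQ_l1034 _)
            (CovZ.leaf K2_ok TQ_l1035 _))
           (CovZ.n1 (14, -530) (by decide +kernel)
            (CovZ.n2 (16, -530) (by decide +kernel)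
             (CovZ.leaf K2_ok TQ_l1036 _)
             (CovZ.n1 (15, -529) (by decide +kernel)
              (CovZ.badM (by decide +kernel))
              (CovZ.leaf K2_ok TQ_l1037 _)))
            (CovZ.leaf K2_ok TQ_l1038 _))))
         (CovZ.n1 (12, -536) (by decide +kernel)
          (CovZ.leaf K2_ok TQ_l1039 _)
          (CovZ.leaf K2_ok TQ_l1040 _)))))
      (CovZ.n1 (8, -544) (by decide +kernel)
       (CovZ.leaf K2_ok TQ_l1041 _)
       (CovZ.leaf K2_ok TQ_l1042 _)))
     (CovZ.subM 18447050498978066072068 (by decide +kernel)
      (CovZ.n1 (24, -536) (by decide +kernel)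
       (CovZ.subM 8264429575535469789696 (by decide +kernel)
        (CovZ.n2 (24, -544) (by decide +kernel)
         (CovZ.n2 (20, -540) (by decide +kernel)
          (CovZ.badM (by decide +kernel))
          (CovZ.n1 (20, -544) (by decide +kernel)
           (CovZ.leaf K2_ok TQ_l1043 _)
           (CovZ.n1 (22, -542) (by decide +kernel)
            (CovZ.badM (by decide +kernel))
            (CovZ.leaf K2_ok TQ_l1044 _))))
         (CovZ.badM (by decide +kernel))))
       (CovZ.n1 (16, -536) (by decide +kernel)
        (CovZ.subM 11363212539759813459972 (by decide +kernel)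
         (CovZ.n2 (20, -532) (by decide +kernel)
          (CovZ.n2 (20, -536) (by decide +kernel)
           (CovZ.n2 (18, -534) (by decide +kernel)
            (CovZ.badM (by decide +kernel))
            (CovZ.n1 (18, -536) (by decide +kernel)
             (CovZ.leaf K2_ok TQ_l1045 _)
             (CovZ.leaf K2_ok TQ_l1046 _)))
           (CovZ.badM (by decide +kernel)))
          (CovZ.n1 (16, -532) (by decide +kernel)
           (CovZ.badM (by decide +kernel))
           (CovZ.n1 (18, -534) (by decide +kernel)
            (CovZ.n2 (16, -534) (by decide +kernel)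
             (CovZ.leaf K2_ok TQ_l1047 _)
             (CovZ.leaf K2_ok TQ_l1048 _))
            (CovZ.badM (by decide +kernel))))))
        (CovZ.n1 (20, -540) (by decide +kernel)
         (CovZ.n2 (16, -540) (by decide +kernel)
          (CovZ.leaf K2_ok TQ_l1049 _)
          (CovZ.leaf K2_ok TQ_l1050 _))
         (CovZ.subM 10772916588629259714564 (by decide +kernel)
          (CovZ.n1 (20, -536) (by decide +kernel)
           (CovZ.n2 (22, -538) (by decide +kernel)
            (CovZ.n2 (20, -538) (by decide +kernel)
             (CovZ.badM (by decide +kernel))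
             (CovZ.badM (by decide +kernel)))
            (CovZ.badM (by decide +kernel)))
           (CovZ.n1 (18, -538) (by decide +kernel)
            (CovZ.leaf K2_ok TQ_l1051 _)
            (CovZ.n1 (20, -538) (by decide +kernel)
             (CovZ.leaf K2_ok TQ_l1052 _)
             (CovZ.leaf K2_ok TQ_l1053 _))))))))))))
    (CovZ.topM TQ_LL 37723432870053074632663 (by decide +kernel) (CovZ.n0 (16, -528) (by decide +kernel)
    (CovZ.n2 (0, -528) (by decide +kernel)
     (CovZ.n2 (8, -520) (by decide +kernel)
      (CovZ.subM 36833845752354150953412 (by decide +kernel)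
       (CovZ.n2 (8, -528) (by decide +kernel)
        (CovZ.n2 (4, -524) (by decide +kernel)
         (CovZ.subM 15569072721993121411456 (by decide +kernel)
          (CovZ.n2 (8, -524) (by decide +kernel)
           (CovZ.leaf K2_ok TQ_l1054 _)
           (CovZ.n1 (6, -522) (by decide +kernel)
            (CovZ.n2 (8, -522) (by decide +kernel)
             (CovZ.leaf K2_ok TQ_l1055 _)
             (CovZ.leaf K2_ok TQ_l1056 _))
            (CovZ.leaf K2_ok TQ_l1057 _))))
         (CovZ.leaf K2_ok TQ_l1058 _))
        (CovZ.subM 15569070470193307713664 (by decide +kernel)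
         (CovZ.n1 (12, -524) (by decide +kernel)
          (CovZ.n2 (12, -528) (by decide +kernel)
           (CovZ.n2 (10, -526) (by decide +kernel)
            (CovZ.n2 (12, -526) (by decide +kernel)
             (CovZ.leaf K2_ok TQ_l1059 _)
             (CovZ.leaf K2_ok TQ_l1060 _))
            (CovZ.leaf K2_ok TQ_l1061 _))
           (CovZ.subM 9444733247222857072640 (by decide +kernel)
            (CovZ.n1 (14, -526) (by decide +kernel)
             (CovZ.n2 (14, -528) (by decide +kernel)
              (CovZ.n2 (13, -527) (by decide +kernel)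
               (CovZ.badM (by decide +kernel))
               (CovZ.leaf K2_ok TQ_l1062 _))
              (CovZ.badM (by decide +kernel)))
             (CovZ.n1 (12, -526) (by decide +kernel)
              (CovZ.badM (by decide +kernel))
              (CovZ.leaf K2_ok TQ_l1063 _)))))
          (CovZ.n1 (8, -524) (by decide +kernel)
           (CovZ.subM 9444733247214267138176 (by decide +kernel)
            (CovZ.n2 (10, -522) (by decide +kernel)
             (CovZ.n2 (10, -524) (by decide +kernel)
              (CovZ.leaf K2_ok TQ_l1064 _)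
              (CovZ.badM (by decide +kernel)))
             (CovZ.n1 (8, -522) (by decide +kernel)
              (CovZ.badM (by decide +kernel))
              (CovZ.leaf K2_ok TQ_l1065 _))))
           (CovZ.n1 (10, -526) (by decide +kernel)
            (CovZ.leaf K2_ok TQ_l1066 _)
            (CovZ.n1 (10, -524) (by decide +kernel)
             (CovZ.leaf K2_ok TQ_l1067 _)
             (CovZ.leaf K2_ok TQ_l1068 _))))))))
      (CovZ.n1 (0, -520) (by decide +kernel)
       (CovZ.subM 20222840517692942974976 (by decide +kernel)
        (CovZ.n2 (4, -516) (by decide +kernel)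
         (CovZ.n2 (4, -520) (by decide +kernel)
          (CovZ.n2 (2, -518) (by decide +kernel)
           (CovZ.n2 (4, -518) (by decide +kernel)
            (CovZ.leaf K2_ok TQ_l1069 _)
            (CovZ.n1 (3, -517) (by decide +kernel)
             (CovZ.badM (by decide +kernel))
             (CovZ.leaf K2_ok TQ_l1070 _)))
           (CovZ.leaf K2_ok TQ_l1071 _))
          (CovZ.subM 147573952589676412928 (by decide +kernel)
           (CovZ.n1 (6, -518) (by decide +kernel)
            (CovZ.n2 (6, -520) (by decide +kernel)
             (CovZ.n2 (5, -519) (by decide +kernel)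
              (CovZ.badM (by decide +kernel))
              (CovZ.leaf K2_ok TQ_l1072 _))
             (CovZ.badM (by decide +kernel)))
            (CovZ.n1 (4, -518) (by decide +kernel)
             (CovZ.badM (by decide +kernel))
             (CovZ.n1 (5, -519) (by decide +kernel)
              (CovZ.leaf K2_ok TQ_l1073 _)
              (CovZ.badM (by decide +kernel)))))))
         (CovZ.n1 (0, -516) (by decide +kernel)
          (CovZ.n2 (2, -514) (by decide +kernel)
           (CovZ.n2 (2, -516) (by decide +kernel)
            (CovZ.badM (by decide +kernel))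
            (CovZ.badM (by decide +kernel)))
           (CovZ.badM (by decide +kernel)))
          (CovZ.n1 (2, -518) (by decide +kernel)
           (CovZ.leaf K2_ok TQ_l1074 _)
           (CovZ.n1 (2, -516) (by decide +kernel)
            (CovZ.badM (by decide +kernel))
            (CovZ.leaf K2_ok TQ_l1075 _))))))
       (CovZ.n1 (4, -524) (by decide +kernel)
        (CovZ.leaf K2_ok TQ_l1076 _)
        (CovZ.subM 34389939966336229978496 (by decide +kernel)
         (CovZ.n1 (4, -520) (by decide +kernel)
          (CovZ.n2 (6, -522) (by decide +kernel)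
           (CovZ.leaf K2_ok TQ_l1077 _)
           (CovZ.n1 (6, -520) (by decide +kernel)
            (CovZ.leaf K2_ok TQ_l1078 _)
            (CovZ.leaf K2_ok TQ_l1079 _)))
          (CovZ.leaf K2_ok TQ_l1080 _))))))
     (CovZ.n1 (8, -536) (by decide +kernel)
      (CovZ.n2 (0, -536) (by decide +kernel)
       (CovZ.leaf K2_ok TQ_l1081 _)
       (CovZ.leaf K2_ok TQ_l1082 _))
      (CovZ.n1 (8, -528) (by decide +kernel)
       (CovZ.subM 18456310744521413646022 (by decide +kernel)
        (CovZ.n2 (12, -532) (by decide +kernel)
         (CovZ.n2 (8, -532) (by decide +kernel)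
          (CovZ.leaf K2_ok TQ_l1083 _)
          (CovZ.leaf K2_ok TQ_l1084 _))
         (CovZ.n1 (12, -528) (by decide +kernel)
          (CovZ.subM 10772953039683842998784 (by decide +kernel)
           (CovZ.n2 (14, -530) (by decide +kernel)
            (CovZ.leaf K2_ok TQ_l1085 _)
            (CovZ.n1 (14, -528) (by decide +kernel)
             (CovZ.n2 (15, -529) (by decide +kernel)
              (CovZ.leaf K2_ok TQ_l1086 _)
              (CovZ.badM (by decide +kernel)))
             (CovZ.leaf K2_ok TQ_l1087 _))))
          (CovZ.leaf K2_ok TQ_l1088 _))))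
       (CovZ.n1 (4, -532) (by decide +kernel)
        (CovZ.leaf K2_ok TQ_l1089 _)
        (CovZ.leaf K2_ok TQ_l1090 _)))))
    (CovZ.subM 23686198121902188573056 (by decide +kernel)
     (CovZ.n1 (16, -512) (by decide +kernel)
      (CovZ.n2 (24, -520) (by decide +kernel)
       (CovZ.n2 (16, -520) (by decide +kernel)
        (CovZ.badM (by decide +kernel))
        (CovZ.badM (by decide +kernel)))
       (CovZ.badM (by decide +kernel)))
      (CovZ.n1 (8, -520) (by decide +kernel)
       (CovZ.subM 18890042393330404556800 (by decide +kernel)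
        (CovZ.n2 (8, -512) (by decide +kernel)
         (CovZ.badM (by decide +kernel))
         (CovZ.n1 (4, -516) (by decide +kernel)
          (CovZ.n2 (4, -512) (by decide +kernel)
           (CovZ.badM (by decide +kernel))
           (CovZ.n1 (2, -514) (by decide +kernel)
            (CovZ.badM (by decide +kernel))
            (CovZ.badM (by decide +kernel))))
          (CovZ.badM (by decide +kernel)))))
       (CovZ.n1 (16, -520) (by decide +kernel)
        (CovZ.n2 (12, -524) (by decide +kernel)
         (CovZ.badM (by decide +kernel))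
         (CovZ.badM (by decide +kernel)))
        (CovZ.badM (by decide +kernel))))))))

end Pool.Agent.TET
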