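import Pool.Agent.Helper38_TET.TQ_C

/-!
# MP_c7c9bf_co: certificates, family TQ
-/

set_option autoImplicit false
set_option maxRecDepth 100000

namespace Pool.Agent.TET

theorem TQ_rg0 : ROK [.q ⟨17, -19, -28, 30⟩ ⟨3827, 144, -1961, -2010⟩, .q ⟨17, -19, -28, 30⟩ ⟨-103, 3380, -1777, -1500⟩, .q ⟨17, -19, -28, 30⟩ ⟨-4779, 2667, 882, 1230⟩, .q ⟨17, -19, -28, 30⟩ ⟨119, -537, 208, 210⟩] := by
  refine rok_w (v := ⟨17, -19, -28, 30⟩) (q := 1) (by decide) (by decide) (by decide) TQ_sc (k := 1) (by decide) (Q := [(-1129, -3837, -67), (2430, -3177, -50), (3446, 2030, 41), (-404, 404, 7)])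
    (P := [⟨-2058240, -1129, -3837⟩, ⟨-1536000, 2430, -3177⟩, ⟨1259520, 3446, 2030⟩, ⟨215040, -404, 404⟩]) rfl rfl
    (List.mem_of_getElem? (i := 0) rfl) TQ_fr TQ_cov ?_
  · intro X Y h
    simp only [List.forall_mem_cons, List.not_mem_nil, false_imp_iff, implies_true, and_true] at h
    push_cast at h ⊢
    obtain ⟨h0, h1, h2, h3⟩ := h
    refine ⟨⟨?_, ?_⟩, ?_, ?_⟩ <;> linarith

theorem TQ_rg1 : ROK [.q ⟨17, -19, -28, 30⟩ ⟨-4699, 1625, 1394, 1680⟩, .q ⟨17, -19, -28, 30⟩ ⟨207, -3514, 1567, 1740⟩, .q ⟨17, -19, -28, 30⟩ ⟨2447, -1404, -533, -510⟩, .q ⟨17, -19, -28, 30⟩ ⟨2827, 1311, -2068, -2070⟩] := by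
  refine rok_w (v := ⟨17, -19, -28, 30⟩) (q := 1) (by decide) (by decide) (by decide) TQ_sc (k := 1) (by decide) (Q := [(2689, 2962, 56), (-2412, 3191, 58), (-1727, -1009, -17), (0, -4000, -69)])
    (P := [⟨1720320, 2689, 2962⟩, ⟨1781760, -2412, 3191⟩, ⟨-522240, -1727, -1009⟩, ⟨-2119680, 0, -4000⟩]) rfl rfl
    (List.mem_of_getElem? (i := 1) rfl) TQ_fr TQ_cov ?_
  · intro X Y h
    simp only [List.forall_mem_cons, List.not_mem_nil, false_imp_iff, implies_true, and_true] at h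
    push_cast at h ⊢
    obtain ⟨h0, h1, h2, h3⟩ := h
    refine ⟨⟨?_, ?_⟩, ?_, ?_⟩ <;> linarith

theorem TQ_rg2 : ROK [.q ⟨17, -19, -28, 30⟩ ⟨-4787, 2407, 1000, 1380⟩, .q ⟨17, -19, -28, 30⟩ ⟨-1157, -2703, 1880, 1980⟩, .q ⟨17, -19, -28, 30⟩ ⟨4691, -1414, -1657, -1620⟩, .q ⟨17, -19, -28, 30⟩ ⟨438, 3127, -1825, -1740⟩] := by
  refine rok_w (v := ⟨17, -19, -28, 30⟩) (q := 1) (by decide) (by decide) (by decide) TQ_sc (k := 1) (by decide) (Q := [(3281, 2288, 46), (-1449, 3728, 66), (-2440, -3169, -54), (2025, -3449, -58)])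
    (P := [⟨1413120, 3281, 2288⟩, ⟨2027520, -1449, 3728⟩, ⟨-1658880, -2440, -3169⟩, ⟨-1781760, 2025, -3449⟩]) rfl rfl
    (List.mem_of_getElem? (i := 2) rfl) TQ_fr TQ_cov ?_
  · intro X Y h
    simp only [List.forall_mem_cons, List.not_mem_nil, false_imp_iff, implies_true, and_true] at h
    push_cast at h ⊢
    obtain ⟨h0, h1, h2, h3⟩ := h
    refine ⟨⟨?_, ?_⟩, ?_, ?_⟩ <;> linarith

theorem TQ_rg3 : ROK [.q ⟨17, -19, -28, 30⟩ ⟨3644, -4108, 254, 210⟩, .q ⟨17, -19, -28, 30⟩ ⟨2827, 1311, -2068, -2070⟩, .q ⟨17, -19, -28, 30⟩ ⟨-3519, 4008, -429, -60⟩, .q ⟨17, -19, -28, 30⟩ ⟨-4220, 501, 1709, 2010⟩] := by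
  refine rok_w (v := ⟨17, -19, -28, 30⟩) (q := 1) (by decide) (by decide) (by decide) TQ_sc (k := 1) (by decide) (Q := [(-3975, 450, 7), (0, -4000, -69), (3970, -485, -2), (1774, 3585, 67)])
    (P := [⟨215040, -3975, 450⟩, ⟨-2119680, 0, -4000⟩, ⟨-61440, 3970, -485⟩, ⟨2058240, 1774, 3585⟩]) rfl rfl
    (List.mem_of_getElem? (i := 3) rfl) TQ_fr TQ_cov ?_
  · intro X Y h
    simp only [List.forall_mem_cons, List.not_mem_nil, false_imp_iff, implies_true, and_true] at h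
    push_cast at h ⊢
    obtain ⟨h0, h1, h2, h3⟩ := h
    refine ⟨⟨?_, ?_⟩, ?_, ?_⟩ <;> linarith

theorem TQ_rg4 : ROK [.q ⟨17, -19, -28, 30⟩ ⟨-2759, -1387, 1956, 2190⟩, .q ⟨17, -19, -28, 30⟩ ⟨3011, -4224, 583, 630⟩, .q ⟨17, -19, -28, 30⟩ ⟨2782, 1356, -2068, -2070⟩, .q ⟨17, -19, -28, 30⟩ ⟨-4205, 3706, 79, 420⟩] := by
  refine rok_w (v := ⟨17, -19, -28, 30⟩) (q := 1) (by decide) (by decide) (by decide) TQ_sc (k := 1) (by decide) (Q := [(0, 4000, 73), (-3825, 1171, 21), (45, -4000, -69), (3972, 471, 14)])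
    (P := [⟨2242560, 0, 4000⟩, ⟨645120, -3825, 1171⟩, ⟨-2119680, 45, -4000⟩, ⟨430080, 3972, 471⟩]) rfl rfl
    (List.mem_of_getElem? (i := 4) rfl) TQ_fr TQ_cov ?_
  · intro X Y h
    simp only [List.forall_mem_cons, List.not_mem_nil, false_imp_iff, implies_true, and_true] at h
    push_cast at h ⊢
    obtain ⟨h0, h1, h2, h3⟩ := h
    refine ⟨⟨?_, ?_⟩, ?_, ?_⟩ <;> linarith

theorem TQ_rg5 : ROK [.q ⟨17, -19, -28, 30⟩ ⟨2193, -4125, 1002, 930⟩, .q ⟨17, -19, -28, 30⟩ ⟨3064, 1066, -2060, -2070⟩, .q ⟨17, -19, -28, 30⟩ ⟨-2175, 1819, 116, 240⟩] := by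
  refine rok_w (v := ⟨17, -19, -28, 30⟩) (q := 1) (by decide) (by decide) (by decide) TQ_sc (k := 1) (by decide) (Q := [(-3536, 1870, 31), (-245, -3992, -69), (1971, 340, 8)])
    (P := [⟨952320, -3536, 1870⟩, ⟨-2119680, -245, -3992⟩, ⟨245760, 1971, 340⟩]) rfl rfl
    (List.mem_of_getElem? (i := 5) rfl) TQ_fr TQ_cov ?_
  · intro X Y h
    simp only [List.forall_mem_cons, List.not_mem_nil, false_imp_iff, implies_true, and_true] at h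
    push_cast at h ⊢
    obtain ⟨h0, h1, h2⟩ := h
    refine ⟨⟨?_, ?_⟩, ?_, ?_⟩ <;> linarith

theorem TQ_rg6 : ROK [.q ⟨17, -19, -28, 30⟩ ⟨-4721, 1783, 1288, 1650⟩, .q ⟨17, -19, -28, 30⟩ ⟨425, -1889, 714, 750⟩, .q ⟨17, -19, -28, 30⟩ ⟨1210, -479, -371, -360⟩, .q ⟨17, -19, -28, 30⟩ ⟨1133, 2700, -1943, -1890⟩] := by
  refine rok_w (v := ⟨17, -19, -28, 30⟩) (q := 1) (by decide) (by decide) (by decide) TQ_sc (k := 1) (by decide) (Q := [(2828, 2828, 55), (-1414, 1414, 25), (-707, -707, -12), (1503, -3707, -63)])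
    (P := [⟨1689600, 2828, 2828⟩, ⟨768000, -1414, 1414⟩, ⟨-368640, -707, -707⟩, ⟨-1935360, 1503, -3707⟩]) rfl rfl
    (List.mem_of_getElem? (i := 6) rfl) TQ_fr TQ_cov ?_
  · intro X Y h
    simp only [List.forall_mem_cons, List.not_mem_nil, false_imp_iff, implies_true, and_true] at h
    push_cast at h ⊢
    obtain ⟨h0, h1, h2, h3⟩ := h
    refine ⟨⟨?_, ?_⟩, ?_, ?_⟩ <;> linarith

theorem TQ_rg7 : ROK [.q ⟨17, -19, -28, 30⟩ ⟨4325, -3839, -276, -210⟩, .q ⟨17, -19, -28, 30⟩ ⟨1335, 731, -1046, -1020⟩, .q ⟨17, -19, -28, 30⟩ ⟨-3266, 4153, -497, -390⟩, .q ⟨17, -19, -28, 30⟩ ⟨-4531, 1061, 1700, 1770⟩] := by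
  refine rok_w (v := ⟨17, -19, -28, 30⟩) (q := 1) (by decide) (by decide) (by decide) TQ_sc (k := 1) (by decide) (Q := [(-3972, -472, -7), (85, -1998, -34), (3906, -861, -13), (2182, 3352, 59)])
    (P := [⟨-215040, -3972, -472⟩, ⟨-1044480, 85, -1998⟩, ⟨-399360, 3906, -861⟩, ⟨1812480, 2182, 3352⟩]) rfl rfl
    (List.mem_of_getElem? (i := 7) rfl) TQ_fr TQ_cov ?_
  · intro X Y h
    simp only [List.forall_mem_cons, List.not_mem_nil, false_imp_iff, implies_true, and_true] at h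
    push_cast at h ⊢
    obtain ⟨h0, h1, h2, h3⟩ := h
    refine ⟨⟨?_, ?_⟩, ?_, ?_⟩ <;> linarith

theorem TQ_rg8 : ROK [.q ⟨17, -19, -28, 30⟩ ⟨-4657, 3223, 594, 840⟩, .q ⟨17, -19, -28, 30⟩ ⟨867, -3797, 1400, 1530⟩, .q ⟨17, -19, -28, 30⟩ ⟨3885, -4072, 67, 120⟩, .q ⟨17, -19, -28, 30⟩ ⟨1996, 2060, -2046, -2010⟩] := by
  refine rok_w (v := ⟨17, -19, -28, 30⟩) (q := 1) (by decide) (by decide) (by decide) TQ_sc (k := 1) (by decide) (Q := [(3755, 1378, 28), (-2828, 2828, 51), (-3996, 179, 4), (787, -3922, -67)])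
    (P := [⟨860160, 3755, 1378⟩, ⟨1566720, -2828, 2828⟩, ⟨122880, -3996, 179⟩, ⟨-2058240, 787, -3922⟩]) rfl rfl
    (List.mem_of_getElem? (i := 8) rfl) TQ_fr TQ_cov ?_
  · intro X Y h
    simp only [List.forall_mem_cons, List.not_mem_nil, false_imp_iff, implies_true, and_true] at h
    push_cast at h ⊢
    obtain ⟨h0, h1, h2, h3⟩ := h
    refine ⟨⟨?_, ?_⟩, ?_, ?_⟩ <;> linarith

theorem TQ_rg9 : ROK [.q ⟨17, -19, -28, 30⟩ ⟨2998, 1136, -2064, -2070⟩, .q ⟨17, -19, -28, 30⟩ ⟨-1949, 1943, -84, 90⟩, .q ⟨17, -19, -28, 30⟩ ⟨-2134, -1957, 1991, 2100⟩, .q ⟨17, -19, -28, 30⟩ ⟨471, -342, -69, -60⟩] := by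
  refine rok_w (v := ⟨17, -19, -28, 30⟩) (q := 1) (by decide) (by decide) (by decide) TQ_sc (k := 1) (by decide) (Q := [(-175, -3996, -69), (2000, 0, 3), (-627, 3951, 70), (-380, -125, -2)])
    (P := [⟨-2119680, -175, -3996⟩, ⟨92160, 2000, 0⟩, ⟨2150400, -627, 3951⟩, ⟨-61440, -380, -125⟩]) rfl rfl
    (List.mem_of_getElem? (i := 9) rfl) TQ_fr TQ_cov ?_
  · intro X Y h
    simp only [List.forall_mem_cons, List.not_mem_nil, false_imp_iff, implies_true, and_true] at h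
    push_cast at h ⊢
    obtain ⟨h0, h1, h2, h3⟩ := h
    refine ⟨⟨?_, ?_⟩, ?_, ?_⟩ <;> linarith

theorem TQ_rg10 : ROK [.q ⟨17, -19, -28, 30⟩ ⟨3017, 1116, -2063, -2070⟩, .q ⟨17, -19, -28, 30⟩ ⟨-4721, 1725, 1346, 1650⟩, .q ⟨17, -19, -28, 30⟩ ⟨700, -3713, 1483, 1530⟩] := by
  refine rok_w (v := ⟨17, -19, -28, 30⟩) (q := 1) (by decide) (by decide) (by decide) TQ_sc (k := 1) (by decide) (Q := [(-195, -3995, -69), (2770, 2886, 55), (-2744, 2911, 51)])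
    (P := [⟨-2119680, -195, -3995⟩, ⟨1689600, 2770, 2886⟩, ⟨1566720, -2744, 2911⟩]) rfl rfl
    (List.mem_of_getElem? (i := 10) rfl) TQ_fr TQ_cov ?_
  · intro X Y h
    simp only [List.forall_mem_cons, List.not_mem_nil, false_imp_iff, implies_true, and_true] at h
    push_cast at h ⊢
    obtain ⟨h0, h1, h2⟩ := h
    refine ⟨⟨?_, ?_⟩, ?_, ?_⟩ <;> linarith

theorem TQ_rg11 : ROK [.q ⟨17, -19, -28, 30⟩ ⟨3073, 1057, -2060, -2070⟩, .q ⟨17, -19, -28, 30⟩ ⟨-4521, 3371, 400, 750⟩, .q ⟨17, -19, -28, 30⟩ ⟨-1371, -703, 964, 1110⟩, .q ⟨17, -19, -28, 30⟩ ⟨1, -1, 0, 0⟩] := by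
  refine rok_w (v := ⟨17, -19, -28, 30⟩) (q := 1) (by decide) (by decide) (by decide) TQ_sc (k := 1) (by decide) (Q := [(-254, -3992, -69), (3846, 1100, 25), (0, 2000, 37), (-1, 0, 0)])
    (P := [⟨-2119680, -254, -3992⟩, ⟨768000, 3846, 1100⟩, ⟨1136640, 0, 2000⟩, ⟨0, -1, 0⟩]) rfl rfl
    (List.mem_of_getElem? (i := 11) rfl) TQ_fr TQ_cov ?_
  · intro X Y h
    simp only [List.forall_mem_cons, List.not_mem_nil, false_imp_iff, implies_true, and_true] at h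
    push_cast at h ⊢
    obtain ⟨h0, h1, h2, h3⟩ := h
    refine ⟨⟨?_, ?_⟩, ?_, ?_⟩ <;> linarith

theorem TQ_rg12 : ROK [.q ⟨17, -19, -28, 30⟩ ⟨-962, 482, 210, 270⟩, .q ⟨17, -19, -28, 30⟩ ⟨867, -3797, 1400, 1530⟩, .q ⟨17, -19, -28, 30⟩ ⟨4764, -3275, -769, -720⟩, .q ⟨17, -19, -28, 30⟩ ⟨1733, 2268, -2021, -1980⟩] := by
  refine rok_w (v := ⟨17, -19, -28, 30⟩) (q := 1) (by decide) (by decide) (by decide) TQ_sc (k := 1) (by decide) (Q := [(653, 462, 9), (-2828, 2828, 51), (-3731, -1441, -24), (1014, -3869, -66)])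
    (P := [⟨276480, 653, 462⟩, ⟨1566720, -2828, 2828⟩, ⟨-737280, -3731, -1441⟩, ⟨-2027520, 1014, -3869⟩]) rfl rfl
    (List.mem_of_getElem? (i := 12) rfl) TQ_fr TQ_cov ?_
  · intro X Y h
    simp only [List.forall_mem_cons, List.not_mem_nil, false_imp_iff, implies_true, and_true] at h
    push_cast at h ⊢
    obtain ⟨h0, h1, h2, h3⟩ := h
    refine ⟨⟨?_, ?_⟩, ?_, ?_⟩ <;> linarith

theorem TQ_rg13 : ROK [.q ⟨17, -19, -28, 30⟩ ⟨-2820, -1322, 2012, 2130⟩, .q ⟨17, -19, -28, 30⟩ ⟨4017, -4019, -28, 30⟩, .q ⟨17, -19, -28, 30⟩ ⟨1997, 2059, -2046, -2010⟩, .q ⟨17, -19, -28, 30⟩ ⟨-1313, 1276, -53, 90⟩] := by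
  refine rok_w (v := ⟨17, -19, -28, 30⟩) (q := 1) (by decide) (by decide) (by decide) TQ_sc (k := 1) (by decide) (Q := [(27, 4000, 71), (-4000, 0, 1), (786, -3922, -67), (1333, 31, 3)])
    (P := [⟨2181120, 27, 4000⟩, ⟨30720, -4000, 0⟩, ⟨-2058240, 786, -3922⟩, ⟨92160, 1333, 31⟩]) rfl rfl
    (List.mem_of_getElem? (i := 13) rfl) TQ_fr TQ_cov ?_
  · intro X Y h
    simp only [List.forall_mem_cons, List.not_mem_nil, false_imp_iff, implies_true, and_true] at h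
    push_cast at h ⊢
    obtain ⟨h0, h1, h2, h3⟩ := h
    refine ⟨⟨?_, ?_⟩, ?_, ?_⟩ <;> linarith

theorem TQ_rg14 : ROK [.q ⟨17, -19, -28, 30⟩ ⟨-2369, 901, 658, 810⟩, .q ⟨17, -19, -28, 30⟩ ⟨1286, -3932, 1296, 1350⟩, .q ⟨17, -19, -28, 30⟩ ⟨3026, 1107, -2063, -2070⟩] := by
  refine rok_w (v := ⟨17, -19, -28, 30⟩) (q := 1) (by decide) (by decide) (by decide) TQ_sc (k := 1) (by decide) (Q := [(1414, 1414, 27), (-3077, 2556, 45), (-204, -3995, -69)])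
    (P := [⟨829440, 1414, 1414⟩, ⟨1382400, -3077, 2556⟩, ⟨-2119680, -204, -3995⟩]) rfl rfl
    (List.mem_of_getElem? (i := 14) rfl) TQ_fr TQ_cov ?_
  · intro X Y h
    simp only [List.forall_mem_cons, List.not_mem_nil, false_imp_iff, implies_true, and_true] at h
    push_cast at h ⊢
    obtain ⟨h0, h1, h2⟩ := h
    refine ⟨⟨?_, ?_⟩, ?_, ?_⟩ <;> linarith

theorem TQ_rg15 : ROK [.q ⟨17, -19, -28, 30⟩ ⟨2307, 1797, -2064, -2040⟩, .q ⟨17, -19, -28, 30⟩ ⟨-4791, 2397, 1014, 1380⟩, .q ⟨17, -19, -28, 30⟩ ⟨300, -3519, 1629, 1590⟩] := by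
  refine rok_w (v := ⟨17, -19, -28, 30⟩) (q := 1) (by decide) (by decide) (by decide) TQ_sc (k := 1) (by decide) (Q := [(505, -3968, -68), (3271, 2302, 46), (-2512, 3113, 53)])
    (P := [⟨-2088960, 505, -3968⟩, ⟨1413120, 3271, 2302⟩, ⟨1628160, -2512, 3113⟩]) rfl rfl
    (List.mem_of_getElem? (i := 15) rfl) TQ_fr TQ_cov ?_
  · intro X Y h
    simp only [List.forall_mem_cons, List.not_mem_nil, false_imp_iff, implies_true, and_true] at h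
    push_cast at h ⊢
    obtain ⟨h0, h1, h2⟩ := h
    refine ⟨⟨?_, ?_⟩, ?_, ?_⟩ <;> linarith

theorem TQ_rg16 : ROK [.q ⟨17, -19, -28, 30⟩ ⟨-4785, 2520, 945, 1320⟩, .q ⟨17, -19, -28, 30⟩ ⟨-2759, -1387, 1956, 2190⟩, .q ⟨17, -19, -28, 30⟩ ⟨4866, -2392, -1184, -1290⟩, .q ⟨17, -19, -28, 30⟩ ⟨2863, 1275, -2068, -2070⟩] := by
  refine rok_w (v := ⟨17, -19, -28, 30⟩) (q := 1) (by decide) (by decide) (by decide) TQ_sc (k := 1) (by decide) (Q := [(3356, 2177, 44), (0, 4000, 73), (-3209, -2388, -43), (-36, -4000, -69)])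
    (P := [⟨1351680, 3356, 2177⟩, ⟨2242560, 0, 4000⟩, ⟨-1320960, -3209, -2388⟩, ⟨-2119680, -36, -4000⟩]) rfl rfl
    (List.mem_of_getElem? (i := 16) rfl) TQ_fr TQ_cov ?_
  · intro X Y h
    simp only [List.forall_mem_cons, List.not_mem_nil, false_imp_iff, implies_true, and_true] at h
    push_cast at h ⊢
    obtain ⟨h0, h1, h2, h3⟩ := h
    refine ⟨⟨?_, ?_⟩, ?_, ?_⟩ <;> linarith

theorem TQ_rg17 : ROK [.q ⟨17, -19, -28, 30⟩ ⟨2034, 2028, -2052, -2010⟩, .q ⟨17, -19, -28, 30⟩ ⟨-799, 3721, -1512, -1410⟩, .q ⟨17, -19, -28, 30⟩ ⟨-4326, 690, 1686, 1950⟩, .q ⟨17, -19, -28, 30⟩ ⟨1766, -4091, 1095, 1230⟩, .q ⟨17, -19, -28, 30⟩ ⟨1210, -479, -371, -360⟩] := by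
  refine rok_w (v := ⟨17, -19, -28, 30⟩) (q := 1) (by decide) (by decide) (by decide) TQ_sc (k := 1) (by decide) (Q := [(755, -3928, -67), (2828, -2828, -47), (1925, 3506, 65), (-3312, 2243, 41), (-707, -707, -12)])
    (P := [⟨-2058240, 755, -3928⟩, ⟨-1443840, 2828, -2828⟩, ⟨1996800, 1925, 3506⟩, ⟨1259520, -3312, 2243⟩, ⟨-368640, -707, -707⟩]) rfl rfl
    (List.mem_of_getElem? (i := 17) rfl) TQ_fr TQ_cov ?_
  · intro X Y h
    simp only [List.forall_mem_cons, List.not_mem_nil, false_imp_iff, implies_true, and_true] at h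
    push_cast at h ⊢
    obtain ⟨h0, h1, h2, h3, h4⟩ := h
    refine ⟨⟨?_, ?_⟩, ?_, ?_⟩ <;> linarith

theorem TQ_rg18 : ROK [.q ⟨17, -19, -28, 30⟩ ⟨1, -1, 0, 0⟩, .q ⟨17, -19, -28, 30⟩ ⟨1537, 2415, -2002, -1950⟩, .q ⟨17, -19, -28, 30⟩ ⟨-3215, 4128, -553, -360⟩, .q ⟨17, -19, -28, 30⟩ ⟨1071, -3843, 1392, 1380⟩] := by
  refine rok_w (v := ⟨17, -19, -28, 30⟩) (q := 1) (by decide) (by decide) (by decide) TQ_sc (k := 1) (by decide) (Q := [(-1, 0, 0), (1180, -3822, -65), (3900, -889, -12), (-2969, 2680, 46)])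
    (P := [⟨0, -1, 0⟩, ⟨-1996800, 1180, -3822⟩, ⟨-368640, 3900, -889⟩, ⟨1413120, -2969, 2680⟩]) rfl rfl
    (List.mem_of_getElem? (i := 18) rfl) TQ_fr TQ_cov ?_
  · intro X Y h
    simp only [List.forall_mem_cons, List.not_mem_nil, false_imp_iff, implies_true, and_true] at h
    push_cast at h ⊢
    obtain ⟨h0, h1, h2, h3⟩ := h
    refine ⟨⟨?_, ?_⟩, ?_, ?_⟩ <;> linarith

theorem TQ_rg19 : ROK [.q ⟨17, -19, -28, 30⟩ ⟨823, -57, -376, -390⟩, .q ⟨17, -19, -28, 30⟩ ⟨-4317, 3577, 170, 570⟩, .q ⟨17, -19, -28, 30⟩ ⟨-4568, 1260, 1478, 1830⟩, .q ⟨17, -19, -28, 30⟩ ⟨3949, -3943, 84, -90⟩] := by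
  refine rok_w (v := ⟨17, -19, -28, 30⟩) (q := 1) (by decide) (by decide) (by decide) TQ_sc (k := 1) (by decide) (Q := [(-304, -740, -13), (3938, 702, 19), (2419, 3186, 61), (-4000, 0, -3)])
    (P := [⟨-399360, -304, -740⟩, ⟨583680, 3938, 702⟩, ⟨1873920, 2419, 3186⟩, ⟨-92160, -4000, 0⟩]) rfl rfl
    (List.mem_of_getElem? (i := 19) rfl) TQ_fr TQ_cov ?_
  · intro X Y h
    simp only [List.forall_mem_cons, List.not_mem_nil, false_imp_iff, implies_true, and_true] at h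
    push_cast at h ⊢
    obtain ⟨h0, h1, h2, h3⟩ := h
    refine ⟨⟨?_, ?_⟩, ?_, ?_⟩ <;> linarith

theorem TQ_rg20 : ROK [.q ⟨17, -19, -28, 30⟩ ⟨-3273, -836, 2009, 2100⟩, .q ⟨17, -19, -28, 30⟩ ⟨689, -271, -208, -210⟩, .q ⟨17, -19, -28, 30⟩ ⟨571, 3051, -1852, -1770⟩] := by
  refine rok_w (v := ⟨17, -19, -28, 30⟩) (q := 1) (by decide) (by decide) (by decide) TQ_sc (k := 1) (by decide) (Q := [(494, 3969, 70), (-404, -404, -7), (1930, -3504, -59)])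
    (P := [⟨2150400, 494, 3969⟩, ⟨-215040, -404, -404⟩, ⟨-1812480, 1930, -3504⟩]) rfl rfl
    (List.mem_of_getElem? (i := 20) rfl) TQ_fr TQ_cov ?_
  · intro X Y h
    simp only [List.forall_mem_cons, List.not_mem_nil, false_imp_iff, implies_true, and_true] at h
    push_cast at h ⊢
    obtain ⟨h0, h1, h2⟩ := h
    refine ⟨⟨?_, ?_⟩, ?_, ?_⟩ <;> linarith

theorem TQ_rg21 : ROK [.q ⟨17, -19, -28, 30⟩ ⟨-2793, -1349, 2012, 2130⟩, .q ⟨17, -19, -28, 30⟩ ⟨2689, -4227, 728, 810⟩, .q ⟨17, -19, -28, 30⟩ ⟨3011, 1123, -2064, -2070⟩, .q ⟨17, -19, -28, 30⟩ ⟨-391, 1851, -770, -690⟩] := by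
  refine rok_w (v := ⟨17, -19, -28, 30⟩) (q := 1) (by decide) (by decide) (by decide) TQ_sc (k := 1) (by decide) (Q := [(0, 4000, 71), (-3714, 1484, 27), (-188, -3996, -69), (1414, -1414, -23)])
    (P := [⟨2181120, 0, 4000⟩, ⟨829440, -3714, 1484⟩, ⟨-2119680, -188, -3996⟩, ⟨-706560, 1414, -1414⟩]) rfl rfl
    (List.mem_of_getElem? (i := 21) rfl) TQ_fr TQ_cov ?_
  · intro X Y h
    simp only [List.forall_mem_cons, List.not_mem_nil, false_imp_iff, implies_true, and_true] at h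
    push_cast at h ⊢
    obtain ⟨h0, h1, h2, h3⟩ := h
    refine ⟨⟨?_, ?_⟩, ?_, ?_⟩ <;> linarith

theorem TQ_rg22 : ROK [.q ⟨17, -19, -28, 30⟩ ⟨-4076, 259, 1747, 2070⟩, .q ⟨17, -19, -28, 30⟩ ⟨2444, -4195, 851, 900⟩, .q ⟨17, -19, -28, 30⟩ ⟨2827, 1311, -2068, -2070⟩, .q ⟨17, -19, -28, 30⟩ ⟨-4157, 3733, 34, 390⟩] := by
  refine rok_w (v := ⟨17, -19, -28, 30⟩) (q := 1) (by decide) (by decide) (by decide) TQ_sc (k := 1) (by decide) (Q := [(1570, 3679, 69), (-3625, 1691, 30), (0, -4000, -69), (3980, 398, 13)])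
    (P := [⟨2119680, 1570, 3679⟩, ⟨921600, -3625, 1691⟩, ⟨-2119680, 0, -4000⟩, ⟨399360, 3980, 398⟩]) rfl rfl
    (List.mem_of_getElem? (i := 22) rfl) TQ_fr TQ_cov ?_
  · intro X Y h
    simp only [List.forall_mem_cons, List.not_mem_nil, false_imp_iff, implies_true, and_true] at h
    push_cast at h ⊢
    obtain ⟨h0, h1, h2, h3⟩ := h
    refine ⟨⟨?_, ?_⟩, ?_, ?_⟩ <;> linarith

theorem TQ_rg23 : ROK [.q ⟨17, -19, -28, 30⟩ ⟨-783, 781, -28, 30⟩, .q ⟨17, -19, -28, 30⟩ ⟨-1371, -703, 964, 1110⟩, .q ⟨17, -19, -28, 30⟩ ⟨2080, -4111, 1041, 990⟩, .q ⟨17, -19, -28, 30⟩ ⟨1541, 2412, -2003, -1950⟩] := by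
  refine rok_w (v := ⟨17, -19, -28, 30⟩) (q := 1) (by decide) (by decide) (by decide) TQ_sc (k := 1) (by decide) (Q := [(800, 0, 1), (0, 2000, 37), (-3484, 1965, 33), (1177, -3823, -65)])
    (P := [⟨30720, 800, 0⟩, ⟨1136640, 0, 2000⟩, ⟨1013760, -3484, 1965⟩, ⟨-1996800, 1177, -3823⟩]) rfl rfl
    (List.mem_of_getElem? (i := 23) rfl) TQ_fr TQ_cov ?_
  · intro X Y h
    simp only [List.forall_mem_cons, List.not_mem_nil, false_imp_iff, implies_true, and_true] at h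
    push_cast at h ⊢
    obtain ⟨h0, h1, h2, h3⟩ := h
    refine ⟨⟨?_, ?_⟩, ?_, ?_⟩ <;> linarith

end Pool.Agent.TET
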