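import Pool.Agent.Helper38_TET.CovN

/-!
# MP_c7c9bf_co: certificates, family TT
-/

set_option autoImplicit false
set_option maxRecDepth 100000

namespace Pool.Agent.TET

/-- the polygons -/
def TT_L : List (List Z3) :=
  [[⟨-7249920, 1624, 869⟩, ⟨17602560, -1554, 1078⟩, ⟨41318400, -4661, 1112⟩, ⟨-13301760, 1034, -1034⟩],
   [⟨21319680, -1861, 1335⟩, ⟨41871360, -4238, 1808⟩, ⟨-15851520, 1162, -1328⟩, ⟨-36894720, 4991, 0⟩],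
   [⟨11704320, -918, 876⟩, ⟨31303680, -4218, -183⟩, ⟨-13301760, 1034, -1034⟩, ⟨-38768640, 5320, 102⟩, ⟨40243200, -3996, 1850⟩]]

/-- the polygons in natural numbers -/
def TT_LN : List (List N6) :=
  [[⟨1624, 0, 869, 0, 0, 334012416⟩, ⟨0, 1554, 1078, 0, 79992832, 0⟩, ⟨0, 4661, 1112, 0, 506492928, 0⟩, ⟨1034, 0, 0, 1034, 0, 13301760⟩],
   [⟨0, 1861, 1335, 0, 90263552, 0⟩, ⟨0, 4238, 1808, 0, 360376320, 0⟩, ⟨1162, 0, 0, 1328, 5906432, 0⟩, ⟨4991, 0, 0, 0, 0, 691075072⟩],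
   [⟨0, 918, 876, 0, 17209344, 0⟩, ⟨0, 4218, 0, 183, 608151552, 0⟩, ⟨1034, 0, 0, 1034, 0, 13301760⟩, ⟨5320, 0, 102, 0, 0, 749441024⟩, ⟨0, 3996, 1850, 0, 321523712, 0⟩]]

theorem TT_LL : toL TT_LN = TT_L := eqLL_eq (by decide +kernel)

end Pool.Agent.TET
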