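import Pool.Agent.Helper38_TET.TT_M
import Pool.Agent.Helper38_TET.TT_L
import Pool.Agent.Helper38_TET.TT_0
import Pool.Agent.Helper38_TET.TT_3
import Pool.Agent.Helper38_TET.TT_4
import Pool.Agent.Helper38_TET.TT_5
import Pool.Agent.Helper38_TET.TT_7
import Pool.Agent.Helper38_TET.TT_8
import Pool.Agent.Helper38_TET.TT_9
import Pool.Agent.Helper38_TET.TT_10
import Pool.Agent.Helper38_TET.TT_11
import Pool.Agent.Helper38_TET.TT_12
import Pool.Agent.Helper38_TET.TT_14
import Pool.Agent.Helper38_TET.TT_15

/-!
# MP_c7c9bf_co: certificates, family TT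
-/

set_option autoImplicit false
set_option maxRecDepth 100000

namespace Pool.Agent.TET

theorem TT_u0 : CovZ TT_M (toL (selN TT_LN 2)) [0, 7, 4, 3] (7392, -5664) (7408, -5648) (7392, -5632) :=
    (CovZ.n2 (7392, -5648) (by decide +kernel)
     (CovZ.n2 (7400, -5640) (by decide +kernel)
      (CovZ.n2 (7400, -5648) (by decide +kernel)
       (CovZ.n2 (7396, -5644) (by decide +kernel)
        (CovZ.n2 (7400, -5644) (by decide +kernel)
         (CovZ.leaf K2_ok TT_l8 _)
         (CovZ.leaf K2_ok TT_l9 _))
        (CovZ.n1 (7396, -5648) (by decide +kernel)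
         (CovZ.leaf K2_ok TT_l10 _)
         (CovZ.leaf K2_ok TT_l11 _)))
       (CovZ.n1 (7404, -5644) (by decide +kernel)
        (CovZ.n2 (7404, -5648) (by decide +kernel)
         (CovZ.n2 (7402, -5646) (by decide +kernel)
          (CovZ.leaf K2_ok TT_l12 _)
          (CovZ.n1 (7402, -5648) (by decide +kernel)
           (CovZ.leaf K2_ok TT_l13 _)
           (CovZ.leaf K2_ok TT_l14 _)))
         (CovZ.n1 (7406, -5646) (by decide +kernel)
          (CovZ.n2 (7406, -5648) (by decide +kernel)
           (CovZ.leaf K2_ok TT_l15 _)
           (CovZ.badM (by decide +kernel)))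
          (CovZ.n1 (7404, -5646) (by decide +kernel)
           (CovZ.n2 (7405, -5645) (by decide +kernel)
            (CovZ.leaf K2_ok TT_l16 _)
            (CovZ.n1 (7404, -5645) (by decide +kernel)
             (CovZ.leaf K2_ok TT_l17 _)
             (CovZ.leaf K2_ok TT_l18 _)))
           (CovZ.n1 (7405, -5647) (by decide +kernel)
            (CovZ.leaf K2_ok TT_l19 _)
            (CovZ.leaf K2_ok TT_l20 _)))))
        (CovZ.n1 (7400, -5644) (by decide +kernel)
         (CovZ.n2 (7402, -5642) (by decide +kernel)
          (CovZ.leaf K2_ok TT_l21 _)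
          (CovZ.leaf K2_ok TT_l22 _))
         (CovZ.n1 (7402, -5646) (by decide +kernel)
          (CovZ.leaf K2_ok TT_l23 _)
          (CovZ.leaf K2_ok TT_l24 _)))))
      (CovZ.n1 (7392, -5640) (by decide +kernel)
       (CovZ.n2 (7396, -5636) (by decide +kernel)
        (CovZ.leaf K2_ok TT_l25 _)
        (CovZ.leaf K2_ok TT_l26 _))
       (CovZ.n1 (7396, -5644) (by decide +kernel)
        (CovZ.leaf K2_ok TT_l27 _)
        (CovZ.n1 (7396, -5640) (by decide +kernel)
         (CovZ.leaf K2_ok TT_l28 _)
         (CovZ.leaf K2_ok TT_l29 _)))))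
     (CovZ.n1 (7400, -5656) (by decide +kernel)
      (CovZ.n2 (7392, -5656) (by decide +kernel)
       (CovZ.n2 (7396, -5652) (by decide +kernel)
        (CovZ.n2 (7396, -5656) (by decide +kernel)
         (CovZ.n2 (7394, -5654) (by decide +kernel)
          (CovZ.leaf K2_ok TT_l30 _)
          (CovZ.leaf K2_ok TT_l31 _))
         (CovZ.n1 (7398, -5654) (by decide +kernel)
          (CovZ.n2 (7398, -5656) (by decide +kernel)
           (CovZ.leaf K2_ok TT_l32 _)
           (CovZ.n1 (7399, -5655) (by decide +kernel)
            (CovZ.leaf K2_ok TT_l33 _)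
            (CovZ.leaf K2_ok TT_l34 _)))
          (CovZ.leaf K2_ok TT_l35 _)))
        (CovZ.n1 (7392, -5652) (by decide +kernel)
         (CovZ.leaf K2_ok TT_l36 _)
         (CovZ.leaf K2_ok TT_l37 _)))
       (CovZ.n1 (7396, -5660) (by decide +kernel)
        (CovZ.n2 (7392, -5660) (by decide +kernel)
         (CovZ.n2 (7394, -5658) (by decide +kernel)
          (CovZ.n2 (7394, -5660) (by decide +kernel)
           (CovZ.leaf K2_ok TT_l38 _)
           (CovZ.leaf K2_ok TT_l39 _))
          (CovZ.leaf K2_ok TT_l40 _))
         (CovZ.n1 (7394, -5662) (by decide +kernel)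
          (CovZ.n2 (7392, -5662) (by decide +kernel)
           (CovZ.leaf K2_ok TT_l41 _)
           (CovZ.leaf K2_ok TT_l42 _))
          (CovZ.n1 (7394, -5660) (by decide +kernel)
           (CovZ.leaf K2_ok TT_l43 _)
           (CovZ.n1 (7393, -5661) (by decide +kernel)
            (CovZ.leaf K2_ok TT_l44 _)
            (CovZ.leaf K2_ok TT_l45 _)))))
        (CovZ.n1 (7396, -5656) (by decide +kernel)
         (CovZ.n2 (7398, -5658) (by decide +kernel)
          (CovZ.n2 (7396, -5658) (by decide +kernel)
           (CovZ.n2 (7397, -5657) (by decide +kernel)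
            (CovZ.leaf K2_ok TT_l46 _)
            (CovZ.n1 (7396, -5657) (by decide +kernel)
             (CovZ.leaf K2_ok TT_l47 _)
             (CovZ.leaf K2_ok TT_l48 _)))
           (CovZ.leaf K2_ok TT_l49 _))
          (CovZ.n1 (7398, -5656) (by decide +kernel)
           (CovZ.n2 (7399, -5657) (by decide +kernel)
            (CovZ.leaf K2_ok TT_l50 _)
            (CovZ.n1 (7399, -5656) (by decide +kernel)
             (CovZ.badM (by decide +kernel))
             (CovZ.leaf K2_ok TT_l51 _)))
           (CovZ.n1 (7397, -5657) (by decide +kernel)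
            (CovZ.n2 (7397, -5656) (by decide +kernel)
             (CovZ.leaf K2_ok TT_l52 _)
             (CovZ.leaf K2_ok TT_l53 _))
            (CovZ.leaf K2_ok TT_l54 _))))
         (CovZ.n1 (7394, -5658) (by decide +kernel)
          (CovZ.n2 (7394, -5656) (by decide +kernel)
           (CovZ.leaf K2_ok TT_l55 _)
           (CovZ.leaf K2_ok TT_l56 _))
          (CovZ.n1 (7396, -5658) (by decide +kernel)
           (CovZ.leaf K2_ok TT_l57 _)
           (CovZ.leaf K2_ok TT_l58 _))))))
      (CovZ.n1 (7400, -5648) (by decide +kernel)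
       (CovZ.n2 (7404, -5652) (by decide +kernel)
        (CovZ.n2 (7400, -5652) (by decide +kernel)
         (CovZ.n2 (7402, -5650) (by decide +kernel)
          (CovZ.n2 (7402, -5652) (by decide +kernel)
           (CovZ.leaf K2_ok TT_l59 _)
           (CovZ.n1 (7403, -5651) (by decide +kernel)
            (CovZ.badM (by decide +kernel))
            (CovZ.leaf K2_ok TT_l60 _)))
          (CovZ.n1 (7400, -5650) (by decide +kernel)
           (CovZ.leaf K2_ok TT_l61 _)
           (CovZ.leaf K2_ok TT_l62 _)))
         (CovZ.n1 (7402, -5654) (by decide +kernel)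
          (CovZ.n2 (7400, -5654) (by decide +kernel)
           (CovZ.n2 (7401, -5653) (by decide +kernel)
            (CovZ.leaf K2_ok TT_l63 _)
            (CovZ.leaf K2_ok TT_l64 _))
           (CovZ.n1 (7401, -5655) (by decide +kernel)
            (CovZ.leaf K2_ok TT_l65 _)
            (CovZ.n1 (7401, -5654) (by decide +kernel)
             (CovZ.badM (by decide +kernel))
             (CovZ.leaf K2_ok TT_l66 _))))
          (CovZ.n1 (7402, -5652) (by decide +kernel)
           (CovZ.badM (by decide +kernel))
           (CovZ.n1 (7401, -5653) (by decide +kernel)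
            (CovZ.leaf K2_ok TT_l67 _)
            (CovZ.badM (by decide +kernel))))))
        (CovZ.n1 (7404, -5648) (by decide +kernel)
         (CovZ.n2 (7406, -5650) (by decide +kernel)
          (CovZ.n2 (7404, -5650) (by decide +kernel)
           (CovZ.n2 (7405, -5649) (by decide +kernel)
            (CovZ.badM (by decide +kernel))
            (CovZ.n1 (7404, -5649) (by decide +kernel)
             (CovZ.leaf K2_ok TT_l68 _)
             (CovZ.badM (by decide +kernel))))
           (CovZ.badM (by decide +kernel)))
          (CovZ.n1 (7406, -5648) (by decide +kernel)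
           (CovZ.badM (by decide +kernel))
           (CovZ.n1 (7405, -5649) (by decide +kernel)
            (CovZ.leaf K2_ok TT_l69 _)
            (CovZ.badM (by decide +kernel)))))
         (CovZ.n1 (7402, -5650) (by decide +kernel)
          (CovZ.n2 (7402, -5648) (by decide +kernel)
           (CovZ.leaf K2_ok TT_l70 _)
           (CovZ.leaf K2_ok TT_l71 _))
          (CovZ.n1 (7404, -5650) (by decide +kernel)
           (CovZ.n2 (7403, -5651) (by decide +kernel)
            (CovZ.n2 (7403, -5650) (by decide +kernel)
             (CovZ.badM (by decide +kernel))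
             (CovZ.leaf K2_ok TT_l73 _))
            (CovZ.badM (by decide +kernel)))
           (CovZ.n1 (7403, -5649) (by decide +kernel)
            (CovZ.leaf K2_ok TT_l74 _)
            (CovZ.n1 (7403, -5650) (by decide +kernel)
             (CovZ.leaf K2_ok TT_l75 _)
             (CovZ.leaf K2_ok TT_l76 _)))))))
       (CovZ.n1 (7396, -5652) (by decide +kernel)
        (CovZ.n2 (7396, -5648) (by decide +kernel)
         (CovZ.n2 (7398, -5650) (by decide +kernel)
          (CovZ.leaf K2_ok TT_l77 _)
          (CovZ.leaf K2_ok TT_l78 _))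
         (CovZ.n1 (7394, -5650) (by decide +kernel)
          (CovZ.leaf K2_ok TT_l79 _)
          (CovZ.leaf K2_ok TT_l80 _)))
        (CovZ.n1 (7400, -5652) (by decide +kernel)
         (CovZ.n2 (7398, -5654) (by decide +kernel)
          (CovZ.n2 (7398, -5652) (by decide +kernel)
           (CovZ.leaf K2_ok TT_l81 _)
           (CovZ.leaf K2_ok TT_l82 _))
          (CovZ.n1 (7400, -5654) (by decide +kernel)
           (CovZ.n2 (7399, -5655) (by decide +kernel)
            (CovZ.leaf K2_ok TT_l83 _)
            (CovZ.leaf K2_ok TT_l84 _))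
           (CovZ.leaf K2_ok TT_l85 _)))
         (CovZ.n1 (7398, -5650) (by decide +kernel)
          (CovZ.leaf K2_ok TT_l86 _)
          (CovZ.leaf K2_ok TT_l87 _)))))))

theorem TT_u1 : CovZ TT_M (toL (selN TT_LN 2)) [0, 7, 4, 3] (7408, -5648) (7424, -5632) (7392, -5632) :=
    (CovZ.n1 (7408, -5632) (by decide +kernel)
     (CovZ.n2 (7416, -5640) (by decide +kernel)
      (CovZ.n2 (7408, -5640) (by decide +kernel)
       (CovZ.n2 (7412, -5636) (by decide +kernel)
        (CovZ.n2 (7412, -5640) (by decide +kernel)
         (CovZ.n2 (7410, -5638) (by decide +kernel)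
          (CovZ.leaf K2_ok TT_l88 _)
          (CovZ.n1 (7410, -5640) (by decide +kernel)
           (CovZ.leaf K2_ok TT_l89 _)
           (CovZ.n1 (7411, -5639) (by decide +kernel)
            (CovZ.leaf K2_ok TT_l90 _)
            (CovZ.leaf K2_ok TT_l91 _))))
         (CovZ.n1 (7414, -5638) (by decide +kernel)
          (CovZ.badM (by decide +kernel))
          (CovZ.n1 (7412, -5638) (by decide +kernel)
           (CovZ.n2 (7413, -5637) (by decide +kernel)
            (CovZ.badM (by decide +kernel))
            (CovZ.n1 (7412, -5637) (by decide +kernel)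
             (CovZ.leaf K2_ok TT_l92 _)
             (CovZ.leaf K2_ok TT_l93 _)))
           (CovZ.badM (by decide +kernel)))))
        (CovZ.n1 (7408, -5636) (by decide +kernel)
         (CovZ.n2 (7410, -5634) (by decide +kernel)
          (CovZ.leaf K2_ok TT_l94 _)
          (CovZ.leaf K2_ok TT_l95 _))
         (CovZ.n1 (7410, -5638) (by decide +kernel)
          (CovZ.leaf K2_ok TT_l96 _)
          (CovZ.n1 (7410, -5636) (by decide +kernel)
           (CovZ.leaf K2_ok TT_l97 _)
           (CovZ.leaf K2_ok TT_l98 _)))))
       (CovZ.n1 (7412, -5644) (by decide +kernel)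
        (CovZ.n2 (7408, -5644) (by decide +kernel)
         (CovZ.n2 (7410, -5642) (by decide +kernel)
          (CovZ.badM (by decide +kernel))
          (CovZ.n1 (7408, -5642) (by decide +kernel)
           (CovZ.leaf K2_ok TT_l99 _)
           (CovZ.leaf K2_ok TT_l100 _)))
         (CovZ.badM (by decide +kernel)))
        (CovZ.n1 (7412, -5640) (by decide +kernel)
         (CovZ.badM (by decide +kernel))
         (CovZ.n1 (7410, -5642) (by decide +kernel)
          (CovZ.n2 (7410, -5640) (by decide +kernel)
           (CovZ.n2 (7411, -5641) (by decide +kernel)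
            (CovZ.leaf K2_ok TT_l101 _)
            (CovZ.leaf K2_ok TT_l102 _))
           (CovZ.leaf K2_ok TT_l103 _))
          (CovZ.badM (by decide +kernel))))))
      (CovZ.n1 (7416, -5632) (by decide +kernel)
       (CovZ.badM (by decide +kernel))
       (CovZ.n1 (7412, -5636) (by decide +kernel)
        (CovZ.n2 (7412, -5632) (by decide +kernel)
         (CovZ.n2 (7414, -5634) (by decide +kernel)
          (CovZ.n2 (7412, -5634) (by decide +kernel)
           (CovZ.leaf K2_ok TT_l106 _)
           (CovZ.leaf K2_ok TT_l107 _))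
          (CovZ.n1 (7414, -5632) (by decide +kernel)
           (CovZ.leaf K2_ok TT_l108 _)
           (CovZ.leaf K2_ok TT_l109 _)))
         (CovZ.n1 (7410, -5634) (by decide +kernel)
          (CovZ.n2 (7410, -5632) (by decide +kernel)
           (CovZ.leaf K2_ok TT_l110 _)
           (CovZ.leaf K2_ok TT_l111 _))
          (CovZ.leaf K2_ok TT_l112 _)))
        (CovZ.n1 (7416, -5636) (by decide +kernel)
         (CovZ.n2 (7414, -5638) (by decide +kernel)
          (CovZ.n2 (7414, -5636) (by decide +kernel)
           (CovZ.badM (by decide +kernel))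
           (CovZ.n1 (7413, -5637) (by decide +kernel)
            (CovZ.leaf K2_ok TT_l113 _)
            (CovZ.badM (by decide +kernel))))
          (CovZ.badM (by decide +kernel)))
         (CovZ.n1 (7414, -5634) (by decide +kernel)
          (CovZ.n2 (7416, -5634) (by decide +kernel)
           (CovZ.n2 (7415, -5635) (by decide +kernel)
            (CovZ.n2 (7415, -5634) (by decide +kernel)
             (CovZ.badM (by decide +kernel))
             (CovZ.leaf K2_ok TT_l114 _))
            (CovZ.badM (by decide +kernel)))
           (CovZ.leaf K2_ok TT_l115 _))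
          (CovZ.n1 (7414, -5636) (by decide +kernel)
           (CovZ.leaf K2_ok TT_l116 _)
           (CovZ.n1 (7415, -5635) (by decide +kernel)
            (CovZ.badM (by decide +kernel))
            (CovZ.n1 (7414, -5635) (by decide +kernel)
             (CovZ.leaf K2_ok TT_l117 _)
             (CovZ.badM (by decide +kernel))))))))))
     (CovZ.n1 (7400, -5640) (by decide +kernel)
      (CovZ.n2 (7400, -5632) (by decide +kernel)
       (CovZ.n2 (7404, -5636) (by decide +kernel)
        (CovZ.n2 (7400, -5636) (by decide +kernel)
         (CovZ.leaf K2_ok TT_l118 _)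
         (CovZ.leaf K2_ok TT_l119 _))
        (CovZ.n1 (7404, -5632) (by decide +kernel)
         (CovZ.leaf K2_ok TT_l120 _)
         (CovZ.leaf K2_ok TT_l121 _)))
       (CovZ.n1 (7396, -5636) (by decide +kernel)
        (CovZ.leaf K2_ok TT_l122 _)
        (CovZ.leaf K2_ok TT_l123 _)))
      (CovZ.n1 (7408, -5640) (by decide +kernel)
       (CovZ.n2 (7404, -5644) (by decide +kernel)
        (CovZ.n2 (7404, -5640) (by decide +kernel)
         (CovZ.n2 (7406, -5642) (by decide +kernel)
          (CovZ.leaf K2_ok TT_l124 _)
          (CovZ.n1 (7406, -5640) (by decide +kernel)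
           (CovZ.leaf K2_ok TT_l125 _)
           (CovZ.leaf K2_ok TT_l126 _)))
         (CovZ.n1 (7402, -5642) (by decide +kernel)
          (CovZ.n2 (7402, -5640) (by decide +kernel)
           (CovZ.leaf K2_ok TT_l127 _)
           (CovZ.leaf K2_ok TT_l128 _))
          (CovZ.leaf K2_ok TT_l129 _)))
        (CovZ.n1 (7408, -5644) (by decide +kernel)
         (CovZ.n2 (7406, -5646) (by decide +kernel)
          (CovZ.n2 (7406, -5644) (by decide +kernel)
           (CovZ.leaf K2_ok TT_l130 _)
           (CovZ.leaf K2_ok TT_l131 _))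
          (CovZ.badM (by decide +kernel)))
         (CovZ.n1 (7406, -5642) (by decide +kernel)
          (CovZ.n2 (7408, -5642) (by decide +kernel)
           (CovZ.leaf K2_ok TT_l132 _)
           (CovZ.leaf K2_ok TT_l133 _))
          (CovZ.n1 (7406, -5644) (by decide +kernel)
           (CovZ.leaf K2_ok TT_l134 _)
           (CovZ.leaf K2_ok TT_l135 _)))))
       (CovZ.n1 (7404, -5636) (by decide +kernel)
        (CovZ.n2 (7408, -5636) (by decide +kernel)
         (CovZ.n2 (7406, -5638) (by decide +kernel)
          (CovZ.leaf K2_ok TT_l136 _)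
          (CovZ.leaf K2_ok TT_l137 _))
         (CovZ.leaf K2_ok TT_l138 _))
        (CovZ.n1 (7404, -5640) (by decide +kernel)
         (CovZ.n2 (7402, -5638) (by decide +kernel)
          (CovZ.leaf K2_ok TT_l139 _)
          (CovZ.leaf K2_ok TT_l140 _))
         (CovZ.n1 (7406, -5638) (by decide +kernel)
          (CovZ.leaf K2_ok TT_l141 _)
          (CovZ.leaf K2_ok TT_l142 _)))))))

theorem TT_u2 : CovZ TT_M (toL (selN TT_LN 3)) [0, 7, 4, 3] (7488, -5536) (7472, -5552) (7488, -5568) :=
    (CovZ.n2 (7488, -5552) (by decide +kernel)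
     (CovZ.n2 (7480, -5560) (by decide +kernel)
      (CovZ.n2 (7480, -5552) (by decide +kernel)
       (CovZ.badM (by decide +kernel))
       (CovZ.n1 (7476, -5556) (by decide +kernel)
        (CovZ.n2 (7476, -5552) (by decide +kernel)
         (CovZ.badM (by decide +kernel))
         (CovZ.n1 (7474, -5554) (by decide +kernel)
          (CovZ.n2 (7474, -5552) (by decide +kernel)
           (CovZ.leaf K2_ok TT_l524 _)
           (CovZ.n1 (7473, -5553) (by decide +kernel)
            (CovZ.leaf K2_ok TT_l525 _)
            (CovZ.leaf K2_ok TT_l526 _)))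
          (CovZ.n1 (7476, -5554) (by decide +kernel)
           (CovZ.n2 (7475, -5555) (by decide +kernel)
            (CovZ.n2 (7475, -5554) (by decide +kernel)
             (CovZ.badM (by decide +kernel))
             (CovZ.leaf K2_ok TT_l527 _))
            (CovZ.badM (by decide +kernel)))
           (CovZ.leaf K2_ok TT_l528 _))))
        (CovZ.badM (by decide +kernel))))
      (CovZ.badM (by decide +kernel)))
     (CovZ.n1 (7480, -5544) (by decide +kernel)
      (CovZ.n2 (7488, -5544) (by decide +kernel)
       (CovZ.n2 (7484, -5548) (by decide +kernel)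
        (CovZ.n2 (7484, -5544) (by decide +kernel)
         (CovZ.badM (by decide +kernel))
         (CovZ.n1 (7482, -5546) (by decide +kernel)
          (CovZ.n2 (7482, -5544) (by decide +kernel)
           (CovZ.badM (by decide +kernel))
           (CovZ.n1 (7481, -5545) (by decide +kernel)
            (CovZ.leaf K2_ok TT_l529 _)
            (CovZ.badM (by decide +kernel))))
          (CovZ.badM (by decide +kernel))))
        (CovZ.badM (by decide +kernel)))
       (CovZ.n1 (7484, -5540) (by decide +kernel)
        (CovZ.n2 (7488, -5540) (by decide +kernel)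
         (CovZ.n2 (7486, -5542) (by decide +kernel)
          (CovZ.n2 (7486, -5540) (by decide +kernel)
           (CovZ.badM (by decide +kernel))
           (CovZ.n1 (7485, -5541) (by decide +kernel)
            (CovZ.leaf K2_ok TT_l530 _)
            (CovZ.badM (by decide +kernel))))
          (CovZ.badM (by decide +kernel)))
         (CovZ.n1 (7486, -5538) (by decide +kernel)
          (CovZ.badM (by decide +kernel))
          (CovZ.n1 (7486, -5540) (by decide +kernel)
           (CovZ.n2 (7485, -5539) (by decide +kernel)
            (CovZ.badM (by decide +kernel))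
            (CovZ.leaf K2_ok TT_l531 _))
           (CovZ.badM (by decide +kernel)))))
        (CovZ.n1 (7484, -5544) (by decide +kernel)
         (CovZ.n2 (7482, -5542) (by decide +kernel)
          (CovZ.n2 (7484, -5542) (by decide +kernel)
           (CovZ.n2 (7483, -5543) (by decide +kernel)
            (CovZ.leaf K2_ok TT_l532 _)
            (CovZ.badM (by decide +kernel)))
           (CovZ.n1 (7483, -5541) (by decide +kernel)
            (CovZ.leaf K2_ok TT_l533 _)
            (CovZ.leaf K2_ok TT_l534 _)))
          (CovZ.n1 (7482, -5544) (by decide +kernel)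
           (CovZ.leaf K2_ok TT_l535 _)
           (CovZ.n1 (7483, -5543) (by decide +kernel)
            (CovZ.badM (by decide +kernel))
            (CovZ.leaf K2_ok TT_l536 _))))
         (CovZ.n1 (7486, -5542) (by decide +kernel)
          (CovZ.badM (by decide +kernel))
          (CovZ.n1 (7484, -5542) (by decide +kernel)
           (CovZ.n2 (7485, -5541) (by decide +kernel)
            (CovZ.badM (by decide +kernel))
            (CovZ.leaf K2_ok TT_l537 _))
           (CovZ.badM (by decide +kernel)))))))
      (CovZ.n1 (7480, -5552) (by decide +kernel)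
       (CovZ.n2 (7476, -5548) (by decide +kernel)
        (CovZ.n2 (7480, -5548) (by decide +kernel)
         (CovZ.n2 (7478, -5550) (by decide +kernel)
          (CovZ.n2 (7478, -5548) (by decide +kernel)
           (CovZ.n2 (7479, -5549) (by decide +kernel)
            (CovZ.leaf K2_ok TT_l538 _)
            (CovZ.n1 (7479, -5548) (by decide +kernel)
             (CovZ.badM (by decide +kernel))
             (CovZ.leaf K2_ok TT_l539 _)))
           (CovZ.n1 (7477, -5549) (by decide +kernel)
            (CovZ.leaf K2_ok TT_l540 _)
            (CovZ.leaf K2_ok TT_l541 _)))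
          (CovZ.badM (by decide +kernel)))
         (CovZ.n1 (7478, -5546) (by decide +kernel)
          (CovZ.n2 (7480, -5546) (by decide +kernel)
           (CovZ.n2 (7479, -5547) (by decide +kernel)
            (CovZ.leaf K2_ok TT_l542 _)
            (CovZ.leaf K2_ok TT_l543 _))
           (CovZ.leaf K2_ok TT_l544 _))
          (CovZ.n1 (7478, -5548) (by decide +kernel)
           (CovZ.leaf K2_ok TT_l545 _)
           (CovZ.leaf K2_ok TT_l546 _))))
        (CovZ.n1 (7476, -5552) (by decide +kernel)
         (CovZ.n2 (7474, -5550) (by decide +kernel)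
          (CovZ.n2 (7476, -5550) (by decide +kernel)
           (CovZ.n2 (7475, -5551) (by decide +kernel)
            (CovZ.leaf K2_ok TT_l547 _)
            (CovZ.leaf K2_ok TT_l548 _))
           (CovZ.leaf K2_ok TT_l549 _))
          (CovZ.n1 (7474, -5552) (by decide +kernel)
           (CovZ.leaf K2_ok TT_l550 _)
           (CovZ.n1 (7475, -5551) (by decide +kernel)
            (CovZ.leaf K2_ok TT_l551 _)
            (CovZ.leaf K2_ok TT_l552 _))))
         (CovZ.n1 (7478, -5550) (by decide +kernel)
          (CovZ.badM (by decide +kernel))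
          (CovZ.n1 (7476, -5550) (by decide +kernel)
           (CovZ.leaf K2_ok TT_l553 _)
           (CovZ.leaf K2_ok TT_l554 _)))))
       (CovZ.n1 (7484, -5548) (by decide +kernel)
        (CovZ.badM (by decide +kernel))
        (CovZ.n1 (7480, -5548) (by decide +kernel)
         (CovZ.n2 (7482, -5546) (by decide +kernel)
          (CovZ.badM (by decide +kernel))
          (CovZ.n1 (7480, -5546) (by decide +kernel)
           (CovZ.n2 (7481, -5545) (by decide +kernel)
            (CovZ.n2 (7481, -5546) (by decide +kernel)
             (CovZ.leaf K2_ok TT_l555 _)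
             (CovZ.badM (by decide +kernel)))
            (CovZ.leaf K2_ok TT_l556 _))
           (CovZ.n1 (7481, -5547) (by decide +kernel)
            (CovZ.leaf K2_ok TT_l557 _)
            (CovZ.n1 (7481, -5546) (by decide +kernel)
             (CovZ.badM (by decide +kernel))
             (CovZ.leaf K2_ok TT_l558 _)))))
         (CovZ.badM (by decide +kernel)))))))

theorem TT_u3 : CovZ TT_M (toL (selN TT_LN 3)) [0, 7, 4, 3] (7472, -5552) (7456, -5568) (7488, -5568) :=
    (CovZ.n1 (7472, -5568) (by decide +kernel)
     (CovZ.n2 (7464, -5560) (by decide +kernel)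
      (CovZ.n2 (7472, -5560) (by decide +kernel)
       (CovZ.n2 (7468, -5564) (by decide +kernel)
        (CovZ.n2 (7468, -5560) (by decide +kernel)
         (CovZ.n2 (7470, -5562) (by decide +kernel)
          (CovZ.n2 (7468, -5562) (by decide +kernel)
           (CovZ.n2 (7469, -5561) (by decide +kernel)
            (CovZ.leaf K2_ok TT_l559 _)
            (CovZ.leaf K2_ok TT_l560 _))
           (CovZ.n1 (7469, -5563) (by decide +kernel)
            (CovZ.leaf K2_ok TT_l561 _)
            (CovZ.leaf K2_ok TT_l562 _)))
          (CovZ.n1 (7470, -5560) (by decide +kernel)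
           (CovZ.n2 (7471, -5561) (by decide +kernel)
            (CovZ.leaf K2_ok TT_l563 _)
            (CovZ.n1 (7471, -5560) (by decide +kernel)
             (CovZ.badM (by decide +kernel))
             (CovZ.leaf K2_ok TT_l564 _)))
           (CovZ.n1 (7469, -5561) (by decide +kernel)
            (CovZ.leaf K2_ok TT_l565 _)
            (CovZ.leaf K2_ok TT_l566 _))))
         (CovZ.n1 (7466, -5562) (by decide +kernel)
          (CovZ.n2 (7466, -5560) (by decide +kernel)
           (CovZ.leaf K2_ok TT_l567 _)
           (CovZ.leaf K2_ok TT_l568 _))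
          (CovZ.leaf K2_ok TT_l569 _)))
        (CovZ.badM (by decide +kernel)))
       (CovZ.n1 (7468, -5556) (by decide +kernel)
        (CovZ.n2 (7472, -5556) (by decide +kernel)
         (CovZ.n2 (7470, -5558) (by decide +kernel)
          (CovZ.n2 (7470, -5556) (by decide +kernel)
           (CovZ.leaf K2_ok TT_l570 _)
           (CovZ.leaf K2_ok TT_l571 _))
          (CovZ.n1 (7472, -5558) (by decide +kernel)
           (CovZ.n2 (7471, -5559) (by decide +kernel)
            (CovZ.leaf K2_ok TT_l572 _)
            (CovZ.leaf K2_ok TT_l573 _))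
           (CovZ.leaf K2_ok TT_l574 _)))
         (CovZ.n1 (7470, -5554) (by decide +kernel)
          (CovZ.leaf K2_ok TT_l575 _)
          (CovZ.n1 (7470, -5556) (by decide +kernel)
           (CovZ.leaf K2_ok TT_l576 _)
           (CovZ.leaf K2_ok TT_l577 _))))
        (CovZ.n1 (7468, -5560) (by decide +kernel)
         (CovZ.n2 (7466, -5558) (by decide +kernel)
          (CovZ.leaf K2_ok TT_l578 _)
          (CovZ.leaf K2_ok TT_l579 _))
         (CovZ.n1 (7470, -5558) (by decide +kernel)
          (CovZ.n2 (7470, -5560) (by decide +kernel)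
           (CovZ.leaf K2_ok TT_l580 _)
           (CovZ.n1 (7471, -5559) (by decide +kernel)
            (CovZ.leaf K2_ok TT_l581 _)
            (CovZ.leaf K2_ok TT_l582 _)))
          (CovZ.leaf K2_ok TT_l583 _)))))
      (CovZ.n1 (7464, -5568) (by decide +kernel)
       (CovZ.n2 (7460, -5564) (by decide +kernel)
        (CovZ.n2 (7464, -5564) (by decide +kernel)
         (CovZ.n2 (7462, -5566) (by decide +kernel)
          (CovZ.leaf K2_ok TT_l584 _)
          (CovZ.leaf K2_ok TT_l585 _))
         (CovZ.leaf K2_ok TT_l586 _))
        (CovZ.n1 (7460, -5568) (by decide +kernel)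
         (CovZ.leaf K2_ok TT_l587 _)
         (CovZ.n1 (7462, -5566) (by decide +kernel)
          (CovZ.n2 (7462, -5568) (by decide +kernel)
           (CovZ.leaf K2_ok TT_l588 _)
           (CovZ.n1 (7463, -5567) (by decide +kernel)
            (CovZ.leaf K2_ok TT_l589 _)
            (CovZ.leaf K2_ok TT_l590 _)))
          (CovZ.leaf K2_ok TT_l591 _))))
       (CovZ.n1 (7468, -5564) (by decide +kernel)
        (CovZ.n2 (7468, -5568) (by decide +kernel)
         (CovZ.n2 (7466, -5566) (by decide +kernel)
          (CovZ.n2 (7468, -5566) (by decide +kernel)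
           (CovZ.n2 (7467, -5567) (by decide +kernel)
            (CovZ.n2 (7467, -5566) (by decide +kernel)
             (CovZ.badM (by decide +kernel))
             (CovZ.leaf K2_ok TT_l592 _))
            (CovZ.badM (by decide +kernel)))
           (CovZ.n1 (7467, -5565) (by decide +kernel)
            (CovZ.badM (by decide +kernel))
            (CovZ.leaf K2_ok TT_l593 _)))
          (CovZ.n1 (7466, -5568) (by decide +kernel)
           (CovZ.leaf K2_ok TT_l594 _)
           (CovZ.n1 (7467, -5567) (by decide +kernel)
            (CovZ.badM (by decide +kernel))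
            (CovZ.leaf K2_ok TT_l595 _))))
         (CovZ.badM (by decide +kernel)))
        (CovZ.n1 (7464, -5564) (by decide +kernel)
         (CovZ.n2 (7466, -5562) (by decide +kernel)
          (CovZ.n2 (7466, -5564) (by decide +kernel)
           (CovZ.leaf K2_ok TT_l596 _)
           (CovZ.leaf K2_ok TT_l597 _))
          (CovZ.leaf K2_ok TT_l598 _))
         (CovZ.n1 (7466, -5566) (by decide +kernel)
          (CovZ.n2 (7464, -5566) (by decide +kernel)
           (CovZ.n2 (7465, -5565) (by decide +kernel)
            (CovZ.leaf K2_ok TT_l599 _)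
            (CovZ.leaf K2_ok TT_l600 _))
           (CovZ.leaf K2_ok TT_l601 _))
          (CovZ.n1 (7466, -5564) (by decide +kernel)
           (CovZ.leaf K2_ok TT_l602 _)
           (CovZ.n1 (7465, -5565) (by decide +kernel)
            (CovZ.leaf K2_ok TT_l603 _)
            (CovZ.leaf K2_ok TT_l604 _))))))))
     (CovZ.n1 (7480, -5560) (by decide +kernel)
      (CovZ.badM (by decide +kernel))
      (CovZ.n1 (7472, -5560) (by decide +kernel)
       (CovZ.n2 (7476, -5556) (by decide +kernel)
        (CovZ.badM (by decide +kernel))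
        (CovZ.n1 (7472, -5556) (by decide +kernel)
         (CovZ.n2 (7474, -5554) (by decide +kernel)
          (CovZ.n2 (7474, -5556) (by decide +kernel)
           (CovZ.leaf K2_ok TT_l605 _)
           (CovZ.n1 (7475, -5555) (by decide +kernel)
            (CovZ.badM (by decide +kernel))
            (CovZ.leaf K2_ok TT_l606 _)))
          (CovZ.leaf K2_ok TT_l607 _))
         (CovZ.n1 (7474, -5558) (by decide +kernel)
          (CovZ.n2 (7472, -5558) (by decide +kernel)
           (CovZ.n2 (7473, -5557) (by decide +kernel)
            (CovZ.badM (by decide +kernel))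
            (CovZ.leaf K2_ok TT_l608 _))
           (CovZ.badM (by decide +kernel)))
          (CovZ.n1 (7474, -5556) (by decide +kernel)
           (CovZ.badM (by decide +kernel))
           (CovZ.n1 (7473, -5557) (by decide +kernel)
            (CovZ.n2 (7473, -5556) (by decide +kernel)
             (CovZ.leaf K2_ok TT_l609 _)
             (CovZ.leaf K2_ok TT_l610 _))
            (CovZ.badM (by decide +kernel)))))))
       (CovZ.badM (by decide +kernel)))))

theorem TT_u4 : CovZ TT_M (toL (selN TT_LN 7)) [0, 7, 4, 3] (7488, -5536) (7504, -5520) (7488, -5504) :=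
    (CovZ.n2 (7488, -5520) (by decide +kernel)
     (CovZ.n2 (7496, -5512) (by decide +kernel)
      (CovZ.n2 (7496, -5520) (by decide +kernel)
       (CovZ.n2 (7492, -5516) (by decide +kernel)
        (CovZ.n2 (7496, -5516) (by decide +kernel)
         (CovZ.n2 (7494, -5518) (by decide +kernel)
          (CovZ.leaf K2_ok TT_l780 _)
          (CovZ.leaf K2_ok TT_l781 _))
         (CovZ.leaf K2_ok TT_l782 _))
        (CovZ.n1 (7492, -5520) (by decide +kernel)
         (CovZ.leaf K2_ok TT_l783 _)
         (CovZ.n1 (7494, -5518) (by decide +kernel)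
          (CovZ.leaf K2_ok TT_l784 _)
          (CovZ.leaf K2_ok TT_l785 _))))
       (CovZ.n1 (7500, -5516) (by decide +kernel)
        (CovZ.n2 (7500, -5520) (by decide +kernel)
         (CovZ.n2 (7498, -5518) (by decide +kernel)
          (CovZ.n2 (7500, -5518) (by decide +kernel)
           (CovZ.n2 (7499, -5519) (by decide +kernel)
            (CovZ.leaf K2_ok TT_l786 _)
            (CovZ.badM (by decide +kernel)))
           (CovZ.leaf K2_ok TT_l787 _))
          (CovZ.n1 (7498, -5520) (by decide +kernel)
           (CovZ.leaf K2_ok TT_l788 _)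
           (CovZ.n1 (7499, -5519) (by decide +kernel)
            (CovZ.leaf K2_ok TT_l789 _)
            (CovZ.leaf K2_ok TT_l790 _))))
         (CovZ.n1 (7502, -5518) (by decide +kernel)
          (CovZ.badM (by decide +kernel))
          (CovZ.n1 (7500, -5518) (by decide +kernel)
           (CovZ.n2 (7501, -5517) (by decide +kernel)
            (CovZ.badM (by decide +kernel))
            (CovZ.leaf K2_ok TT_l791 _))
           (CovZ.badM (by decide +kernel)))))
        (CovZ.n1 (7496, -5516) (by decide +kernel)
         (CovZ.n2 (7498, -5514) (by decide +kernel)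
          (CovZ.n2 (7498, -5516) (by decide +kernel)
           (CovZ.leaf K2_ok TT_l792 _)
           (CovZ.leaf K2_ok TT_l793 _))
          (CovZ.leaf K2_ok TT_l794 _))
         (CovZ.n1 (7498, -5518) (by decide +kernel)
          (CovZ.leaf K2_ok TT_l795 _)
          (CovZ.n1 (7498, -5516) (by decide +kernel)
           (CovZ.leaf K2_ok TT_l796 _)
           (CovZ.leaf K2_ok TT_l797 _))))))
      (CovZ.n1 (7488, -5512) (by decide +kernel)
       (CovZ.n2 (7492, -5508) (by decide +kernel)
        (CovZ.leaf K2_ok TT_l798 _)
        (CovZ.leaf K2_ok TT_l799 _))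
       (CovZ.n1 (7492, -5516) (by decide +kernel)
        (CovZ.leaf K2_ok TT_l800 _)
        (CovZ.n1 (7492, -5512) (by decide +kernel)
         (CovZ.leaf K2_ok TT_l801 _)
         (CovZ.leaf K2_ok TT_l802 _)))))
     (CovZ.n1 (7496, -5528) (by decide +kernel)
      (CovZ.n2 (7488, -5528) (by decide +kernel)
       (CovZ.n2 (7492, -5524) (by decide +kernel)
        (CovZ.n2 (7492, -5528) (by decide +kernel)
         (CovZ.n2 (7490, -5526) (by decide +kernel)
          (CovZ.leaf K2_ok TT_l803 _)
          (CovZ.n1 (7490, -5528) (by decide +kernel)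
           (CovZ.leaf K2_ok TT_l804 _)
           (CovZ.n1 (7491, -5527) (by decide +kernel)
            (CovZ.leaf K2_ok TT_l805 _)
            (CovZ.leaf K2_ok TT_l806 _))))
         (CovZ.n1 (7494, -5526) (by decide +kernel)
          (CovZ.n2 (7494, -5528) (by decide +kernel)
           (CovZ.n2 (7493, -5527) (by decide +kernel)
            (CovZ.leaf K2_ok TT_l807 _)
            (CovZ.leaf K2_ok TT_l808 _))
           (CovZ.badM (by decide +kernel)))
          (CovZ.n1 (7492, -5526) (by decide +kernel)
           (CovZ.leaf K2_ok TT_l809 _)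
           (CovZ.leaf K2_ok TT_l810 _))))
        (CovZ.n1 (7488, -5524) (by decide +kernel)
         (CovZ.n2 (7490, -5522) (by decide +kernel)
          (CovZ.leaf K2_ok TT_l811 _)
          (CovZ.leaf K2_ok TT_l812 _))
         (CovZ.n1 (7490, -5526) (by decide +kernel)
          (CovZ.leaf K2_ok TT_l813 _)
          (CovZ.leaf K2_ok TT_l814 _))))
       (CovZ.n1 (7492, -5532) (by decide +kernel)
        (CovZ.n2 (7488, -5532) (by decide +kernel)
         (CovZ.n2 (7490, -5530) (by decide +kernel)
          (CovZ.n2 (7490, -5532) (by decide +kernel)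
           (CovZ.leaf K2_ok TT_l815 _)
           (CovZ.n1 (7491, -5531) (by decide +kernel)
            (CovZ.badM (by decide +kernel))
            (CovZ.leaf K2_ok TT_l816 _)))
          (CovZ.n1 (7488, -5530) (by decide +kernel)
           (CovZ.leaf K2_ok TT_l817 _)
           (CovZ.leaf K2_ok TT_l818 _)))
         (CovZ.n1 (7490, -5534) (by decide +kernel)
          (CovZ.n2 (7488, -5534) (by decide +kernel)
           (CovZ.n2 (7489, -5533) (by decide +kernel)
            (CovZ.leaf K2_ok TT_l819 _)
            (CovZ.leaf K2_ok TT_l820 _))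
           (CovZ.leaf K2_ok TT_l821 _))
          (CovZ.n1 (7490, -5532) (by decide +kernel)
           (CovZ.badM (by decide +kernel))
           (CovZ.n1 (7489, -5533) (by decide +kernel)
            (CovZ.n2 (7489, -5532) (by decide +kernel)
             (CovZ.leaf K2_ok TT_l822 _)
             (CovZ.leaf K2_ok TT_l823 _))
            (CovZ.leaf K2_ok TT_l824 _)))))
        (CovZ.n1 (7492, -5528) (by decide +kernel)
         (CovZ.n2 (7494, -5530) (by decide +kernel)
          (CovZ.n2 (7492, -5530) (by decide +kernel)
           (CovZ.n2 (7493, -5529) (by decide +kernel)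
            (CovZ.badM (by decide +kernel))
            (CovZ.leaf K2_ok TT_l825 _))
           (CovZ.badM (by decide +kernel)))
          (CovZ.n1 (7494, -5528) (by decide +kernel)
           (CovZ.badM (by decide +kernel))
           (CovZ.n1 (7493, -5529) (by decide +kernel)
            (CovZ.n2 (7493, -5528) (by decide +kernel)
             (CovZ.badM (by decide +kernel))
             (CovZ.leaf K2_ok TT_l826 _))
            (CovZ.badM (by decide +kernel)))))
         (CovZ.n1 (7490, -5530) (by decide +kernel)
          (CovZ.n2 (7490, -5528) (by decide +kernel)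
           (CovZ.leaf K2_ok TT_l827 _)
           (CovZ.leaf K2_ok TT_l828 _))
          (CovZ.n1 (7492, -5530) (by decide +kernel)
           (CovZ.n2 (7491, -5531) (by decide +kernel)
            (CovZ.leaf K2_ok TT_l829 _)
            (CovZ.badM (by decide +kernel)))
           (CovZ.leaf K2_ok TT_l830 _))))))
      (CovZ.n1 (7496, -5520) (by decide +kernel)
       (CovZ.n2 (7500, -5524) (by decide +kernel)
        (CovZ.n2 (7496, -5524) (by decide +kernel)
         (CovZ.n2 (7498, -5522) (by decide +kernel)
          (CovZ.badM (by decide +kernel))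
          (CovZ.n1 (7496, -5522) (by decide +kernel)
           (CovZ.n2 (7497, -5521) (by decide +kernel)
            (CovZ.leaf K2_ok TT_l831 _)
            (CovZ.leaf K2_ok TT_l832 _))
           (CovZ.leaf K2_ok TT_l833 _)))
         (CovZ.badM (by decide +kernel)))
        (CovZ.n1 (7500, -5520) (by decide +kernel)
         (CovZ.badM (by decide +kernel))
         (CovZ.n1 (7498, -5522) (by decide +kernel)
          (CovZ.n2 (7498, -5520) (by decide +kernel)
           (CovZ.leaf K2_ok TT_l834 _)
           (CovZ.n1 (7497, -5521) (by decide +kernel)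
            (CovZ.leaf K2_ok TT_l835 _)
            (CovZ.leaf K2_ok TT_l836 _)))
          (CovZ.badM (by decide +kernel)))))
       (CovZ.n1 (7492, -5524) (by decide +kernel)
        (CovZ.n2 (7492, -5520) (by decide +kernel)
         (CovZ.n2 (7494, -5522) (by decide +kernel)
          (CovZ.leaf K2_ok TT_l837 _)
          (CovZ.leaf K2_ok TT_l838 _))
         (CovZ.n1 (7490, -5522) (by decide +kernel)
          (CovZ.leaf K2_ok TT_l839 _)
          (CovZ.leaf K2_ok TT_l840 _)))
        (CovZ.n1 (7496, -5524) (by decide +kernel)
         (CovZ.n2 (7494, -5526) (by decide +kernel)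
          (CovZ.n2 (7494, -5524) (by decide +kernel)
           (CovZ.leaf K2_ok TT_l841 _)
           (CovZ.n1 (7493, -5525) (by decide +kernel)
            (CovZ.leaf K2_ok TT_l842 _)
            (CovZ.leaf K2_ok TT_l843 _)))
          (CovZ.badM (by decide +kernel)))
         (CovZ.n1 (7494, -5522) (by decide +kernel)
          (CovZ.leaf K2_ok TT_l844 _)
          (CovZ.n1 (7494, -5524) (by decide +kernel)
           (CovZ.leaf K2_ok TT_l845 _)
           (CovZ.n1 (7495, -5523) (by decide +kernel)
            (CovZ.leaf K2_ok TT_l846 _)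
            (CovZ.leaf K2_ok TT_l847 _)))))))))

theorem TT_u5 : CovZ TT_M (toL (selN TT_LN 7)) [0, 7, 4, 3] (7504, -5520) (7520, -5504) (7488, -5504) :=
    (CovZ.n1 (7504, -5504) (by decide +kernel)
     (CovZ.n2 (7512, -5512) (by decide +kernel)
      (CovZ.n2 (7504, -5512) (by decide +kernel)
       (CovZ.n2 (7508, -5508) (by decide +kernel)
        (CovZ.badM (by decide +kernel))
        (CovZ.n1 (7504, -5508) (by decide +kernel)
         (CovZ.n2 (7506, -5506) (by decide +kernel)
          (CovZ.n2 (7506, -5508) (by decide +kernel)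
           (CovZ.leaf K2_ok TT_l848 _)
           (CovZ.n1 (7507, -5507) (by decide +kernel)
            (CovZ.leaf K2_ok TT_l849 _)
            (CovZ.leaf K2_ok TT_l850 _)))
          (CovZ.leaf K2_ok TT_l851 _))
         (CovZ.n1 (7506, -5510) (by decide +kernel)
          (CovZ.n2 (7504, -5510) (by decide +kernel)
           (CovZ.leaf K2_ok TT_l852 _)
           (CovZ.leaf K2_ok TT_l853 _))
          (CovZ.n1 (7506, -5508) (by decide +kernel)
           (CovZ.n2 (7507, -5509) (by decide +kernel)
            (CovZ.leaf K2_ok TT_l854 _)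
            (CovZ.leaf K2_ok TT_l855 _))
           (CovZ.leaf K2_ok TT_l856 _)))))
       (CovZ.badM (by decide +kernel)))
      (CovZ.n1 (7512, -5504) (by decide +kernel)
       (CovZ.badM (by decide +kernel))
       (CovZ.n1 (7508, -5508) (by decide +kernel)
        (CovZ.n2 (7508, -5504) (by decide +kernel)
         (CovZ.n2 (7510, -5506) (by decide +kernel)
          (CovZ.n2 (7508, -5506) (by decide +kernel)
           (CovZ.n2 (7509, -5505) (by decide +kernel)
            (CovZ.badM (by decide +kernel))
            (CovZ.leaf K2_ok TT_l857 _))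
           (CovZ.badM (by decide +kernel)))
          (CovZ.n1 (7510, -5504) (by decide +kernel)
           (CovZ.badM (by decide +kernel))
           (CovZ.n1 (7509, -5505) (by decide +kernel)
            (CovZ.leaf K2_ok TT_l858 _)
            (CovZ.badM (by decide +kernel)))))
         (CovZ.n1 (7506, -5506) (by decide +kernel)
          (CovZ.n2 (7506, -5504) (by decide +kernel)
           (CovZ.leaf K2_ok TT_l859 _)
           (CovZ.leaf K2_ok TT_l860 _))
          (CovZ.n1 (7508, -5506) (by decide +kernel)
           (CovZ.n2 (7507, -5507) (by decide +kernel)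
            (CovZ.leaf K2_ok TT_l861 _)
            (CovZ.leaf K2_ok TT_l862 _))
           (CovZ.leaf K2_ok TT_l863 _))))
        (CovZ.badM (by decide +kernel)))))
     (CovZ.n1 (7496, -5512) (by decide +kernel)
      (CovZ.n2 (7496, -5504) (by decide +kernel)
       (CovZ.n2 (7500, -5508) (by decide +kernel)
        (CovZ.n2 (7496, -5508) (by decide +kernel)
         (CovZ.leaf K2_ok TT_l864 _)
         (CovZ.leaf K2_ok TT_l865 _))
        (CovZ.n1 (7500, -5504) (by decide +kernel)
         (CovZ.leaf K2_ok TT_l866 _)
         (CovZ.leaf K2_ok TT_l867 _)))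
       (CovZ.n1 (7492, -5508) (by decide +kernel)
        (CovZ.leaf K2_ok TT_l868 _)
        (CovZ.leaf K2_ok TT_l869 _)))
      (CovZ.n1 (7504, -5512) (by decide +kernel)
       (CovZ.n2 (7500, -5516) (by decide +kernel)
        (CovZ.n2 (7500, -5512) (by decide +kernel)
         (CovZ.n2 (7502, -5514) (by decide +kernel)
          (CovZ.leaf K2_ok TT_l870 _)
          (CovZ.n1 (7502, -5512) (by decide +kernel)
           (CovZ.leaf K2_ok TT_l871 _)
           (CovZ.leaf K2_ok TT_l872 _)))
         (CovZ.n1 (7498, -5514) (by decide +kernel)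
          (CovZ.leaf K2_ok TT_l873 _)
          (CovZ.leaf K2_ok TT_l874 _)))
        (CovZ.n1 (7504, -5516) (by decide +kernel)
         (CovZ.n2 (7502, -5518) (by decide +kernel)
          (CovZ.n2 (7502, -5516) (by decide +kernel)
           (CovZ.badM (by decide +kernel))
           (CovZ.n1 (7501, -5517) (by decide +kernel)
            (CovZ.leaf K2_ok TT_l875 _)
            (CovZ.badM (by decide +kernel))))
          (CovZ.badM (by decide +kernel)))
         (CovZ.n1 (7502, -5514) (by decide +kernel)
          (CovZ.n2 (7504, -5514) (by decide +kernel)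
           (CovZ.n2 (7503, -5515) (by decide +kernel)
            (CovZ.n2 (7503, -5514) (by decide +kernel)
             (CovZ.badM (by decide +kernel))
             (CovZ.leaf K2_ok TT_l876 _))
            (CovZ.badM (by decide +kernel)))
           (CovZ.n1 (7503, -5513) (by decide +kernel)
            (CovZ.badM (by decide +kernel))
            (CovZ.leaf K2_ok TT_l877 _)))
          (CovZ.n1 (7502, -5516) (by decide +kernel)
           (CovZ.leaf K2_ok TT_l878 _)
           (CovZ.n1 (7503, -5515) (by decide +kernel)
            (CovZ.badM (by decide +kernel))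
            (CovZ.leaf K2_ok TT_l879 _))))))
       (CovZ.n1 (7500, -5508) (by decide +kernel)
        (CovZ.n2 (7504, -5508) (by decide +kernel)
         (CovZ.n2 (7502, -5510) (by decide +kernel)
          (CovZ.leaf K2_ok TT_l880 _)
          (CovZ.leaf K2_ok TT_l881 _))
         (CovZ.n1 (7502, -5506) (by decide +kernel)
          (CovZ.leaf K2_ok TT_l882 _)
          (CovZ.leaf K2_ok TT_l883 _)))
        (CovZ.n1 (7500, -5512) (by decide +kernel)
         (CovZ.n2 (7498, -5510) (by decide +kernel)
          (CovZ.leaf K2_ok TT_l884 _)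
          (CovZ.leaf K2_ok TT_l885 _))
         (CovZ.n1 (7502, -5510) (by decide +kernel)
          (CovZ.n2 (7502, -5512) (by decide +kernel)
           (CovZ.leaf K2_ok TT_l886 _)
           (CovZ.leaf K2_ok TT_l887 _))
          (CovZ.leaf K2_ok TT_l888 _)))))))

theorem TT_u6 : CovZ TT_M (toL (selN TT_LN 7)) [0, 7, 4, 3] (7552, -5440) (7536, -5456) (7552, -5472) :=
    (CovZ.n2 (7552, -5456) (by decide +kernel)
     (CovZ.n2 (7544, -5464) (by decide +kernel)
      (CovZ.n2 (7544, -5456) (by decide +kernel)
       (CovZ.badM (by decide +kernel))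
       (CovZ.n1 (7540, -5460) (by decide +kernel)
        (CovZ.n2 (7540, -5456) (by decide +kernel)
         (CovZ.n2 (7542, -5458) (by decide +kernel)
          (CovZ.leaf K2_ok TT_l1116 _)
          (CovZ.n1 (7542, -5456) (by decide +kernel)
           (CovZ.n2 (7543, -5457) (by decide +kernel)
            (CovZ.leaf K2_ok TT_l1117 _)
            (CovZ.n1 (7543, -5456) (by decide +kernel)
             (CovZ.leaf K2_ok TT_l1118 _)
             (CovZ.leaf K2_ok TT_l1119 _)))
           (CovZ.leaf K2_ok TT_l1120 _)))
         (CovZ.n1 (7538, -5458) (by decide +kernel)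
          (CovZ.leaf K2_ok TT_l1121 _)
          (CovZ.leaf K2_ok TT_l1122 _)))
        (CovZ.badM (by decide +kernel))))
      (CovZ.badM (by decide +kernel)))
     (CovZ.n1 (7544, -5448) (by decide +kernel)
      (CovZ.n2 (7552, -5448) (by decide +kernel)
       (CovZ.n2 (7548, -5452) (by decide +kernel)
        (CovZ.n2 (7548, -5448) (by decide +kernel)
         (CovZ.n2 (7550, -5450) (by decide +kernel)
          (CovZ.n2 (7548, -5450) (by decide +kernel)
           (CovZ.n2 (7549, -5449) (by decide +kernel)
            (CovZ.badM (by decide +kernel))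
            (CovZ.leaf K2_ok TT_l1131 _))
           (CovZ.badM (by decide +kernel)))
          (CovZ.n1 (7550, -5448) (by decide +kernel)
           (CovZ.badM (by decide +kernel))
           (CovZ.n1 (7549, -5449) (by decide +kernel)
            (CovZ.n2 (7549, -5448) (by decide +kernel)
             (CovZ.badM (by decide +kernel))
             (CovZ.leaf K2_ok TT_l1133 _))
            (CovZ.badM (by decide +kernel)))))
         (CovZ.n1 (7546, -5450) (by decide +kernel)
          (CovZ.n2 (7546, -5448) (by decide +kernel)
           (CovZ.leaf K2_ok TT_l1134 _)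
           (CovZ.n1 (7545, -5449) (by decide +kernel)
            (CovZ.leaf K2_ok TT_l1135 _)
            (CovZ.leaf K2_ok TT_l1136 _)))
          (CovZ.n1 (7548, -5450) (by decide +kernel)
           (CovZ.n2 (7547, -5451) (by decide +kernel)
            (CovZ.n2 (7547, -5450) (by decide +kernel)
             (CovZ.leaf K2_ok TT_l1137 _)
             (CovZ.leaf K2_ok TT_l1138 _))
            (CovZ.leaf K2_ok TT_l1139 _))
           (CovZ.leaf K2_ok TT_l1140 _))))
        (CovZ.badM (by decide +kernel)))
       (CovZ.n1 (7548, -5444) (by decide +kernel)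
        (CovZ.n2 (7552, -5444) (by decide +kernel)
         (CovZ.n2 (7550, -5446) (by decide +kernel)
          (CovZ.n2 (7550, -5444) (by decide +kernel)
           (CovZ.leaf K2_ok TT_l1141 _)
           (CovZ.leaf K2_ok TT_l1142 _))
          (CovZ.badM (by decide +kernel)))
         (CovZ.n1 (7550, -5442) (by decide +kernel)
          (CovZ.n2 (7552, -5442) (by decide +kernel)
           (CovZ.n2 (7551, -5443) (by decide +kernel)
            (CovZ.leaf K2_ok TT_l1147 _)
            (CovZ.leaf K2_ok TT_l1148 _))
           (CovZ.leaf K2_ok TT_l1149 _))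
          (CovZ.n1 (7550, -5444) (by decide +kernel)
           (CovZ.leaf K2_ok TT_l1150 _)
           (CovZ.n1 (7551, -5443) (by decide +kernel)
            (CovZ.leaf K2_ok TT_l1151 _)
            (CovZ.leaf K2_ok TT_l1152 _)))))
        (CovZ.n1 (7548, -5448) (by decide +kernel)
         (CovZ.n2 (7546, -5446) (by decide +kernel)
          (CovZ.leaf K2_ok TT_l1153 _)
          (CovZ.n1 (7546, -5448) (by decide +kernel)
           (CovZ.leaf K2_ok TT_l1154 _)
           (CovZ.leaf K2_ok TT_l1155 _)))
         (CovZ.n1 (7550, -5446) (by decide +kernel)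
          (CovZ.n2 (7550, -5448) (by decide +kernel)
           (CovZ.n2 (7549, -5447) (by decide +kernel)
            (CovZ.n2 (7550, -5447) (by decide +kernel)
             (CovZ.leaf K2_ok TT_l1156 _)
             (CovZ.leaf K2_ok TT_l1157 _))
            (CovZ.n1 (7549, -5448) (by decide +kernel)
             (CovZ.leaf K2_ok TT_l1158 _)
             (CovZ.leaf K2_ok TT_l1159 _)))
           (CovZ.badM (by decide +kernel)))
          (CovZ.n1 (7548, -5446) (by decide +kernel)
           (CovZ.n2 (7549, -5445) (by decide +kernel)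
            (CovZ.leaf K2_ok TT_l1161 _)
            (CovZ.leaf K2_ok TT_l1162 _))
           (CovZ.leaf K2_ok TT_l1163 _))))))
      (CovZ.n1 (7544, -5456) (by decide +kernel)
       (CovZ.n2 (7540, -5452) (by decide +kernel)
        (CovZ.n2 (7544, -5452) (by decide +kernel)
         (CovZ.n2 (7542, -5454) (by decide +kernel)
          (CovZ.n2 (7542, -5452) (by decide +kernel)
           (CovZ.leaf K2_ok TT_l1164 _)
           (CovZ.leaf K2_ok TT_l1165 _))
          (CovZ.n1 (7544, -5454) (by decide +kernel)
           (CovZ.n2 (7543, -5455) (by decide +kernel)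
            (CovZ.leaf K2_ok TT_l1166 _)
            (CovZ.leaf K2_ok TT_l1167 _))
           (CovZ.leaf K2_ok TT_l1168 _)))
         (CovZ.n1 (7542, -5450) (by decide +kernel)
          (CovZ.leaf K2_ok TT_l1169 _)
          (CovZ.n1 (7542, -5452) (by decide +kernel)
           (CovZ.leaf K2_ok TT_l1170 _)
           (CovZ.leaf K2_ok TT_l1171 _))))
        (CovZ.n1 (7540, -5456) (by decide +kernel)
         (CovZ.leaf K2_ok TT_l1172 _)
         (CovZ.n1 (7542, -5454) (by decide +kernel)
          (CovZ.n2 (7542, -5456) (by decide +kernel)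
           (CovZ.leaf K2_ok TT_l1173 _)
           (CovZ.n1 (7543, -5455) (by decide +kernel)
            (CovZ.leaf K2_ok TT_l1174 _)
            (CovZ.leaf K2_ok TT_l1175 _)))
          (CovZ.leaf K2_ok TT_l1176 _))))
       (CovZ.n1 (7548, -5452) (by decide +kernel)
        (CovZ.badM (by decide +kernel))
        (CovZ.n1 (7544, -5452) (by decide +kernel)
         (CovZ.n2 (7546, -5450) (by decide +kernel)
          (CovZ.n2 (7546, -5452) (by decide +kernel)
           (CovZ.leaf K2_ok TT_l1177 _)
           (CovZ.n1 (7547, -5451) (by decide +kernel)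
            (CovZ.leaf K2_ok TT_l1178 _)
            (CovZ.leaf K2_ok TT_l1179 _)))
          (CovZ.leaf K2_ok TT_l1180 _))
         (CovZ.n1 (7546, -5454) (by decide +kernel)
          (CovZ.n2 (7544, -5454) (by decide +kernel)
           (CovZ.n2 (7545, -5453) (by decide +kernel)
            (CovZ.leaf K2_ok TT_l1181 _)
            (CovZ.leaf K2_ok TT_l1182 _))
           (CovZ.leaf K2_ok TT_l1183 _))
          (CovZ.n1 (7546, -5452) (by decide +kernel)
           (CovZ.n2 (7547, -5453) (by decide +kernel)
            (CovZ.leaf K2_ok TT_l1184 _)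
            (CovZ.n1 (7547, -5452) (by decide +kernel)
             (CovZ.badM (by decide +kernel))
             (CovZ.leaf K2_ok TT_l1185 _)))
           (CovZ.n1 (7545, -5453) (by decide +kernel)
            (CovZ.leaf K2_ok TT_l1186 _)
            (CovZ.leaf K2_ok TT_l1187 _)))))))))

theorem TT_u7 : CovZ TT_M (toL (selN TT_LN 7)) [0, 7, 4, 3] (7536, -5456) (7520, -5472) (7552, -5472) :=
    (CovZ.n1 (7536, -5472) (by decide +kernel)
     (CovZ.n2 (7528, -5464) (by decide +kernel)
      (CovZ.n2 (7536, -5464) (by decide +kernel)
       (CovZ.n2 (7532, -5468) (by decide +kernel)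
        (CovZ.n2 (7532, -5464) (by decide +kernel)
         (CovZ.n2 (7534, -5466) (by decide +kernel)
          (CovZ.leaf K2_ok TT_l1188 _)
          (CovZ.n1 (7534, -5464) (by decide +kernel)
           (CovZ.leaf K2_ok TT_l1189 _)
           (CovZ.leaf K2_ok TT_l1190 _)))
         (CovZ.n1 (7530, -5466) (by decide +kernel)
          (CovZ.leaf K2_ok TT_l1191 _)
          (CovZ.leaf K2_ok TT_l1192 _)))
        (CovZ.n1 (7536, -5468) (by decide +kernel)
         (CovZ.n2 (7534, -5470) (by decide +kernel)
          (CovZ.n2 (7534, -5468) (by decide +kernel)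
           (CovZ.n2 (7535, -5469) (by decide +kernel)
            (CovZ.leaf K2_ok TT_l1193 _)
            (CovZ.n1 (7535, -5468) (by decide +kernel)
             (CovZ.badM (by decide +kernel))
             (CovZ.leaf K2_ok TT_l1195 _)))
           (CovZ.n1 (7533, -5469) (by decide +kernel)
            (CovZ.leaf K2_ok TT_l1196 _)
            (CovZ.leaf K2_ok TT_l1197 _)))
          (CovZ.badM (by decide +kernel)))
         (CovZ.n1 (7534, -5466) (by decide +kernel)
          (CovZ.n2 (7536, -5466) (by decide +kernel)
           (CovZ.n2 (7535, -5467) (by decide +kernel)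
            (CovZ.leaf K2_ok TT_l1198 _)
            (CovZ.badM (by decide +kernel)))
           (CovZ.leaf K2_ok TT_l1200 _))
          (CovZ.n1 (7534, -5468) (by decide +kernel)
           (CovZ.leaf K2_ok TT_l1201 _)
           (CovZ.n1 (7535, -5467) (by decide +kernel)
            (CovZ.leaf K2_ok TT_l1202 _)
            (CovZ.leaf K2_ok TT_l1203 _))))))
       (CovZ.n1 (7532, -5460) (by decide +kernel)
        (CovZ.n2 (7536, -5460) (by decide +kernel)
         (CovZ.n2 (7534, -5462) (by decide +kernel)
          (CovZ.leaf K2_ok TT_l1204 _)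
          (CovZ.leaf K2_ok TT_l1205 _))
         (CovZ.leaf K2_ok TT_l1206 _))
        (CovZ.n1 (7532, -5464) (by decide +kernel)
         (CovZ.leaf K2_ok TT_l1207 _)
         (CovZ.n1 (7534, -5462) (by decide +kernel)
          (CovZ.leaf K2_ok TT_l1208 _)
          (CovZ.leaf K2_ok TT_l1209 _)))))
      (CovZ.n1 (7528, -5472) (by decide +kernel)
       (CovZ.n2 (7524, -5468) (by decide +kernel)
        (CovZ.n2 (7528, -5468) (by decide +kernel)
         (CovZ.n2 (7526, -5470) (by decide +kernel)
          (CovZ.leaf K2_ok TT_l1210 _)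
          (CovZ.leaf K2_ok TT_l1211 _))
         (CovZ.leaf K2_ok TT_l1212 _))
        (CovZ.n1 (7524, -5472) (by decide +kernel)
         (CovZ.leaf K2_ok TT_l1213 _)
         (CovZ.n1 (7526, -5470) (by decide +kernel)
          (CovZ.leaf K2_ok TT_l1214 _)
          (CovZ.leaf K2_ok TT_l1215 _))))
       (CovZ.n1 (7532, -5468) (by decide +kernel)
        (CovZ.n2 (7532, -5472) (by decide +kernel)
         (CovZ.n2 (7530, -5470) (by decide +kernel)
          (CovZ.leaf K2_ok TT_l1216 _)
          (CovZ.n1 (7530, -5472) (by decide +kernel)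
           (CovZ.leaf K2_ok TT_l1217 _)
           (CovZ.n1 (7531, -5471) (by decide +kernel)
            (CovZ.leaf K2_ok TT_l1218 _)
            (CovZ.leaf K2_ok TT_l1219 _))))
         (CovZ.n1 (7534, -5470) (by decide +kernel)
          (CovZ.badM (by decide +kernel))
          (CovZ.n1 (7532, -5470) (by decide +kernel)
           (CovZ.n2 (7533, -5469) (by decide +kernel)
            (CovZ.leaf K2_ok TT_l1223 _)
            (CovZ.leaf K2_ok TT_l1224 _))
           (CovZ.leaf K2_ok TT_l1225 _))))
        (CovZ.n1 (7528, -5468) (by decide +kernel)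
         (CovZ.n2 (7530, -5466) (by decide +kernel)
          (CovZ.leaf K2_ok TT_l1226 _)
          (CovZ.leaf K2_ok TT_l1227 _))
         (CovZ.leaf K2_ok TT_l1228 _)))))
     (CovZ.n1 (7544, -5464) (by decide +kernel)
      (CovZ.badM (by decide +kernel))
      (CovZ.n1 (7536, -5464) (by decide +kernel)
       (CovZ.n2 (7540, -5460) (by decide +kernel)
        (CovZ.n2 (7540, -5464) (by decide +kernel)
         (CovZ.n2 (7538, -5462) (by decide +kernel)
          (CovZ.n2 (7540, -5462) (by decide +kernel)
           (CovZ.n2 (7539, -5463) (by decide +kernel)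
            (CovZ.n2 (7539, -5462) (by decide +kernel)
             (CovZ.badM (by decide +kernel))
             (CovZ.leaf K2_ok TT_l1230 _))
            (CovZ.badM (by decide +kernel)))
           (CovZ.leaf K2_ok TT_l1231 _))
          (CovZ.n1 (7538, -5464) (by decide +kernel)
           (CovZ.n2 (7537, -5463) (by decide +kernel)
            (CovZ.leaf K2_ok TT_l1232 _)
            (CovZ.leaf K2_ok TT_l1233 _))
           (CovZ.n1 (7539, -5463) (by decide +kernel)
            (CovZ.badM (by decide +kernel))
            (CovZ.leaf K2_ok TT_l1235 _))))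
         (CovZ.badM (by decide +kernel)))
        (CovZ.n1 (7536, -5460) (by decide +kernel)
         (CovZ.n2 (7538, -5458) (by decide +kernel)
          (CovZ.n2 (7538, -5460) (by decide +kernel)
           (CovZ.leaf K2_ok TT_l1236 _)
           (CovZ.leaf K2_ok TT_l1237 _))
          (CovZ.leaf K2_ok TT_l1238 _))
         (CovZ.n1 (7538, -5462) (by decide +kernel)
          (CovZ.leaf K2_ok TT_l1239 _)
          (CovZ.n1 (7538, -5460) (by decide +kernel)
           (CovZ.leaf K2_ok TT_l1240 _)
           (CovZ.leaf K2_ok TT_l1241 _)))))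
       (CovZ.n1 (7540, -5468) (by decide +kernel)
        (CovZ.n2 (7536, -5468) (by decide +kernel)
         (CovZ.n2 (7538, -5466) (by decide +kernel)
          (CovZ.badM (by decide +kernel))
          (CovZ.n1 (7536, -5466) (by decide +kernel)
           (CovZ.n2 (7537, -5465) (by decide +kernel)
            (CovZ.badM (by decide +kernel))
            (CovZ.leaf K2_ok TT_l1244 _))
           (CovZ.badM (by decide +kernel))))
         (CovZ.badM (by decide +kernel)))
        (CovZ.n1 (7540, -5464) (by decide +kernel)
         (CovZ.badM (by decide +kernel))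
         (CovZ.n1 (7538, -5466) (by decide +kernel)
          (CovZ.n2 (7538, -5464) (by decide +kernel)
           (CovZ.badM (by decide +kernel))
           (CovZ.n1 (7537, -5465) (by decide +kernel)
            (CovZ.leaf K2_ok TT_l1250 _)
            (CovZ.badM (by decide +kernel))))
          (CovZ.badM (by decide +kernel))))))))

theorem TT_u8 : CovZ TT_M (toL (selN TT_LN 7)) [0, 7, 4, 3] (7552, -5440) (7568, -5424) (7552, -5408) :=
    (CovZ.n2 (7552, -5424) (by decide +kernel)
     (CovZ.n2 (7560, -5416) (by decide +kernel)
      (CovZ.n2 (7560, -5424) (by decide +kernel)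
       (CovZ.n2 (7556, -5420) (by decide +kernel)
        (CovZ.n2 (7560, -5420) (by decide +kernel)
         (CovZ.n2 (7558, -5422) (by decide +kernel)
          (CovZ.leaf K2_ok TT_l1457 _)
          (CovZ.leaf K2_ok TT_l1458 _))
         (CovZ.leaf K2_ok TT_l1459 _))
        (CovZ.n1 (7556, -5424) (by decide +kernel)
         (CovZ.leaf K2_ok TT_l1460 _)
         (CovZ.n1 (7558, -5422) (by decide +kernel)
          (CovZ.leaf K2_ok TT_l1461 _)
          (CovZ.leaf K2_ok TT_l1462 _))))
       (CovZ.n1 (7564, -5420) (by decide +kernel)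
        (CovZ.n2 (7564, -5424) (by decide +kernel)
         (CovZ.n2 (7562, -5422) (by decide +kernel)
          (CovZ.leaf K2_ok TT_l1463 _)
          (CovZ.n1 (7562, -5424) (by decide +kernel)
           (CovZ.leaf K2_ok TT_l1464 _)
           (CovZ.n1 (7563, -5423) (by decide +kernel)
            (CovZ.leaf K2_ok TT_l1465 _)
            (CovZ.leaf K2_ok TT_l1466 _))))
         (CovZ.n1 (7566, -5422) (by decide +kernel)
          (CovZ.n2 (7566, -5424) (by decide +kernel)
           (CovZ.leaf K2_ok TT_l1467 _)
           (CovZ.n1 (7567, -5423) (by decide +kernel)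
            (CovZ.badM (by decide +kernel))
            (CovZ.leaf K2_ok TT_l1468 _)))
          (CovZ.n1 (7564, -5422) (by decide +kernel)
           (CovZ.n2 (7565, -5421) (by decide +kernel)
            (CovZ.leaf K2_ok TT_l1469 _)
            (CovZ.leaf K2_ok TT_l1470 _))
           (CovZ.leaf K2_ok TT_l1471 _))))
        (CovZ.n1 (7560, -5420) (by decide +kernel)
         (CovZ.n2 (7562, -5418) (by decide +kernel)
          (CovZ.leaf K2_ok TT_l1472 _)
          (CovZ.leaf K2_ok TT_l1473 _))
         (CovZ.n1 (7562, -5422) (by decide +kernel)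
          (CovZ.leaf K2_ok TT_l1474 _)
          (CovZ.n1 (7562, -5420) (by decide +kernel)
           (CovZ.leaf K2_ok TT_l1475 _)
           (CovZ.leaf K2_ok TT_l1476 _))))))
      (CovZ.n1 (7552, -5416) (by decide +kernel)
       (CovZ.n2 (7556, -5412) (by decide +kernel)
        (CovZ.n2 (7556, -5416) (by decide +kernel)
         (CovZ.leaf K2_ok TT_l1477 _)
         (CovZ.n1 (7558, -5414) (by decide +kernel)
          (CovZ.leaf K2_ok TT_l1478 _)
          (CovZ.leaf K2_ok TT_l1479 _)))
        (CovZ.n1 (7552, -5412) (by decide +kernel)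
         (CovZ.leaf K2_ok TT_l1480 _)
         (CovZ.leaf K2_ok TT_l1481 _)))
       (CovZ.n1 (7556, -5420) (by decide +kernel)
        (CovZ.n2 (7552, -5420) (by decide +kernel)
         (CovZ.leaf K2_ok TT_l1482 _)
         (CovZ.leaf K2_ok TT_l1483 _))
        (CovZ.n1 (7556, -5416) (by decide +kernel)
         (CovZ.leaf K2_ok TT_l1484 _)
         (CovZ.leaf K2_ok TT_l1485 _)))))
     (CovZ.n1 (7560, -5432) (by decide +kernel)
      (CovZ.n2 (7552, -5432) (by decide +kernel)
       (CovZ.n2 (7556, -5428) (by decide +kernel)
        (CovZ.n2 (7556, -5432) (by decide +kernel)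
         (CovZ.n2 (7554, -5430) (by decide +kernel)
          (CovZ.leaf K2_ok TT_l1486 _)
          (CovZ.leaf K2_ok TT_l1487 _))
         (CovZ.n1 (7558, -5430) (by decide +kernel)
          (CovZ.n2 (7558, -5432) (by decide +kernel)
           (CovZ.leaf K2_ok TT_l1488 _)
           (CovZ.n1 (7559, -5431) (by decide +kernel)
            (CovZ.leaf K2_ok TT_l1489 _)
            (CovZ.leaf K2_ok TT_l1490 _)))
          (CovZ.leaf K2_ok TT_l1491 _)))
        (CovZ.n1 (7552, -5428) (by decide +kernel)
         (CovZ.n2 (7554, -5426) (by decide +kernel)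
          (CovZ.leaf K2_ok TT_l1492 _)
          (CovZ.leaf K2_ok TT_l1493 _))
         (CovZ.leaf K2_ok TT_l1494 _)))
       (CovZ.n1 (7556, -5436) (by decide +kernel)
        (CovZ.n2 (7552, -5436) (by decide +kernel)
         (CovZ.n2 (7554, -5434) (by decide +kernel)
          (CovZ.n2 (7554, -5436) (by decide +kernel)
           (CovZ.leaf K2_ok TT_l1495 _)
           (CovZ.leaf K2_ok TT_l1496 _))
          (CovZ.leaf K2_ok TT_l1497 _))
         (CovZ.n1 (7554, -5438) (by decide +kernel)
          (CovZ.leaf K2_ok TT_l1498 _)
          (CovZ.n1 (7554, -5436) (by decide +kernel)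
           (CovZ.leaf K2_ok TT_l1499 _)
           (CovZ.leaf K2_ok TT_l1500 _))))
        (CovZ.n1 (7556, -5432) (by decide +kernel)
         (CovZ.n2 (7558, -5434) (by decide +kernel)
          (CovZ.leaf K2_ok TT_l1501 _)
          (CovZ.n1 (7558, -5432) (by decide +kernel)
           (CovZ.leaf K2_ok TT_l1502 _)
           (CovZ.leaf K2_ok TT_l1503 _)))
         (CovZ.n1 (7554, -5434) (by decide +kernel)
          (CovZ.n2 (7554, -5432) (by decide +kernel)
           (CovZ.leaf K2_ok TT_l1504 _)
           (CovZ.leaf K2_ok TT_l1505 _))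
          (CovZ.leaf K2_ok TT_l1506 _)))))
      (CovZ.n1 (7560, -5424) (by decide +kernel)
       (CovZ.n2 (7564, -5428) (by decide +kernel)
        (CovZ.n2 (7560, -5428) (by decide +kernel)
         (CovZ.n2 (7562, -5426) (by decide +kernel)
          (CovZ.n2 (7562, -5428) (by decide +kernel)
           (CovZ.leaf K2_ok TT_l1507 _)
           (CovZ.n1 (7563, -5427) (by decide +kernel)
            (CovZ.n2 (7563, -5428) (by decide +kernel)
             (CovZ.leaf K2_ok TT_l1508 _)
             (CovZ.badM (by decide +kernel)))
            (CovZ.leaf K2_ok TT_l1509 _)))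
          (CovZ.n1 (7560, -5426) (by decide +kernel)
           (CovZ.n2 (7561, -5425) (by decide +kernel)
            (CovZ.leaf K2_ok TT_l1510 _)
            (CovZ.leaf K2_ok TT_l1511 _))
           (CovZ.leaf K2_ok TT_l1512 _)))
         (CovZ.n1 (7562, -5430) (by decide +kernel)
          (CovZ.n2 (7560, -5430) (by decide +kernel)
           (CovZ.n2 (7561, -5429) (by decide +kernel)
            (CovZ.n2 (7561, -5430) (by decide +kernel)
             (CovZ.leaf K2_ok TT_l1513 _)
             (CovZ.leaf K2_ok TT_l1514 _))
            (CovZ.leaf K2_ok TT_l1515 _))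
           (CovZ.leaf K2_ok TT_l1516 _))
          (CovZ.n1 (7562, -5428) (by decide +kernel)
           (CovZ.n2 (7563, -5429) (by decide +kernel)
            (CovZ.leaf K2_ok TT_l1517 _)
            (CovZ.n1 (7563, -5428) (by decide +kernel)
             (CovZ.badM (by decide +kernel))
             (CovZ.leaf K2_ok TT_l1518 _)))
           (CovZ.n1 (7561, -5429) (by decide +kernel)
            (CovZ.leaf K2_ok TT_l1519 _)
            (CovZ.leaf K2_ok TT_l1520 _)))))
        (CovZ.n1 (7564, -5424) (by decide +kernel)
         (CovZ.n2 (7566, -5426) (by decide +kernel)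
          (CovZ.n2 (7564, -5426) (by decide +kernel)
           (CovZ.n2 (7565, -5425) (by decide +kernel)
            (CovZ.badM (by decide +kernel))
            (CovZ.leaf K2_ok TT_l1521 _))
           (CovZ.badM (by decide +kernel)))
          (CovZ.n1 (7566, -5424) (by decide +kernel)
           (CovZ.badM (by decide +kernel))
           (CovZ.n1 (7565, -5425) (by decide +kernel)
            (CovZ.leaf K2_ok TT_l1522 _)
            (CovZ.badM (by decide +kernel)))))
         (CovZ.n1 (7562, -5426) (by decide +kernel)
          (CovZ.n2 (7562, -5424) (by decide +kernel)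
           (CovZ.leaf K2_ok TT_l1523 _)
           (CovZ.leaf K2_ok TT_l1524 _))
          (CovZ.n1 (7564, -5426) (by decide +kernel)
           (CovZ.n2 (7563, -5427) (by decide +kernel)
            (CovZ.n2 (7563, -5426) (by decide +kernel)
             (CovZ.leaf K2_ok TT_l1525 _)
             (CovZ.leaf K2_ok TT_l1526 _))
            (CovZ.badM (by decide +kernel)))
           (CovZ.n1 (7563, -5425) (by decide +kernel)
            (CovZ.leaf K2_ok TT_l1527 _)
            (CovZ.leaf K2_ok TT_l1528 _))))))
       (CovZ.n1 (7556, -5428) (by decide +kernel)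
        (CovZ.n2 (7556, -5424) (by decide +kernel)
         (CovZ.n2 (7558, -5426) (by decide +kernel)
          (CovZ.leaf K2_ok TT_l1529 _)
          (CovZ.leaf K2_ok TT_l1530 _))
         (CovZ.n1 (7554, -5426) (by decide +kernel)
          (CovZ.leaf K2_ok TT_l1531 _)
          (CovZ.leaf K2_ok TT_l1532 _)))
        (CovZ.n1 (7560, -5428) (by decide +kernel)
         (CovZ.n2 (7558, -5430) (by decide +kernel)
          (CovZ.n2 (7558, -5428) (by decide +kernel)
           (CovZ.leaf K2_ok TT_l1533 _)
           (CovZ.leaf K2_ok TT_l1534 _))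
          (CovZ.n1 (7560, -5430) (by decide +kernel)
           (CovZ.n2 (7559, -5431) (by decide +kernel)
            (CovZ.leaf K2_ok TT_l1535 _)
            (CovZ.leaf K2_ok TT_l1536 _))
           (CovZ.leaf K2_ok TT_l1537 _)))
         (CovZ.n1 (7558, -5426) (by decide +kernel)
          (CovZ.leaf K2_ok TT_l1538 _)
          (CovZ.n1 (7558, -5428) (by decide +kernel)
           (CovZ.leaf K2_ok TT_l1539 _)
           (CovZ.leaf K2_ok TT_l1540 _))))))))

theorem TT_u9 : CovZ TT_M (toL (selN TT_LN 7)) [0, 7, 4, 3] (7568, -5424) (7584, -5408) (7552, -5408) :=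
    (CovZ.n1 (7568, -5408) (by decide +kernel)
     (CovZ.n2 (7576, -5416) (by decide +kernel)
      (CovZ.n2 (7568, -5416) (by decide +kernel)
       (CovZ.n2 (7572, -5412) (by decide +kernel)
        (CovZ.n2 (7572, -5416) (by decide +kernel)
         (CovZ.n2 (7570, -5414) (by decide +kernel)
          (CovZ.n2 (7572, -5414) (by decide +kernel)
           (CovZ.n2 (7571, -5415) (by decide +kernel)
            (CovZ.leaf K2_ok TT_l1541 _)
            (CovZ.badM (by decide +kernel)))
           (CovZ.n1 (7571, -5413) (by decide +kernel)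
            (CovZ.leaf K2_ok TT_l1542 _)
            (CovZ.leaf K2_ok TT_l1543 _)))
          (CovZ.n1 (7570, -5416) (by decide +kernel)
           (CovZ.leaf K2_ok TT_l1544 _)
           (CovZ.n1 (7571, -5415) (by decide +kernel)
            (CovZ.leaf K2_ok TT_l1545 _)
            (CovZ.leaf K2_ok TT_l1546 _))))
         (CovZ.n1 (7574, -5414) (by decide +kernel)
          (CovZ.badM (by decide +kernel))
          (CovZ.n1 (7572, -5414) (by decide +kernel)
           (CovZ.n2 (7573, -5413) (by decide +kernel)
            (CovZ.badM (by decide +kernel))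
            (CovZ.leaf K2_ok TT_l1547 _))
           (CovZ.badM (by decide +kernel)))))
        (CovZ.n1 (7568, -5412) (by decide +kernel)
         (CovZ.n2 (7570, -5410) (by decide +kernel)
          (CovZ.n2 (7570, -5412) (by decide +kernel)
           (CovZ.leaf K2_ok TT_l1548 _)
           (CovZ.n1 (7571, -5411) (by decide +kernel)
            (CovZ.leaf K2_ok TT_l1549 _)
            (CovZ.leaf K2_ok TT_l1550 _)))
          (CovZ.n1 (7568, -5410) (by decide +kernel)
           (CovZ.leaf K2_ok TT_l1551 _)
           (CovZ.leaf K2_ok TT_l1552 _)))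
         (CovZ.n1 (7570, -5414) (by decide +kernel)
          (CovZ.n2 (7568, -5414) (by decide +kernel)
           (CovZ.leaf K2_ok TT_l1553 _)
           (CovZ.leaf K2_ok TT_l1554 _))
          (CovZ.n1 (7570, -5412) (by decide +kernel)
           (CovZ.leaf K2_ok TT_l1555 _)
           (CovZ.n1 (7569, -5413) (by decide +kernel)
            (CovZ.leaf K2_ok TT_l1556 _)
            (CovZ.leaf K2_ok TT_l1557 _))))))
       (CovZ.n1 (7572, -5420) (by decide +kernel)
        (CovZ.n2 (7568, -5420) (by decide +kernel)
         (CovZ.n2 (7570, -5418) (by decide +kernel)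
          (CovZ.badM (by decide +kernel))
          (CovZ.n1 (7568, -5418) (by decide +kernel)
           (CovZ.n2 (7569, -5417) (by decide +kernel)
            (CovZ.leaf K2_ok TT_l1558 _)
            (CovZ.leaf K2_ok TT_l1559 _))
           (CovZ.n1 (7569, -5419) (by decide +kernel)
            (CovZ.leaf K2_ok TT_l1560 _)
            (CovZ.n1 (7569, -5418) (by decide +kernel)
             (CovZ.badM (by decide +kernel))
             (CovZ.leaf K2_ok TT_l1561 _)))))
         (CovZ.badM (by decide +kernel)))
        (CovZ.n1 (7572, -5416) (by decide +kernel)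
         (CovZ.badM (by decide +kernel))
         (CovZ.n1 (7570, -5418) (by decide +kernel)
          (CovZ.n2 (7570, -5416) (by decide +kernel)
           (CovZ.n2 (7571, -5417) (by decide +kernel)
            (CovZ.leaf K2_ok TT_l1562 _)
            (CovZ.n1 (7571, -5416) (by decide +kernel)
             (CovZ.badM (by decide +kernel))
             (CovZ.leaf K2_ok TT_l1563 _)))
           (CovZ.n1 (7569, -5417) (by decide +kernel)
            (CovZ.leaf K2_ok TT_l1564 _)
            (CovZ.leaf K2_ok TT_l1565 _)))
          (CovZ.badM (by decide +kernel))))))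
      (CovZ.n1 (7576, -5408) (by decide +kernel)
       (CovZ.badM (by decide +kernel))
       (CovZ.n1 (7572, -5412) (by decide +kernel)
        (CovZ.n2 (7572, -5408) (by decide +kernel)
         (CovZ.n2 (7574, -5410) (by decide +kernel)
          (CovZ.n2 (7572, -5410) (by decide +kernel)
           (CovZ.n2 (7573, -5409) (by decide +kernel)
            (CovZ.leaf K2_ok TT_l1566 _)
            (CovZ.leaf K2_ok TT_l1567 _))
           (CovZ.leaf K2_ok TT_l1568 _))
          (CovZ.n1 (7574, -5408) (by decide +kernel)
           (CovZ.n2 (7575, -5409) (by decide +kernel)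
            (CovZ.leaf K2_ok TT_l1569 _)
            (CovZ.n1 (7575, -5408) (by decide +kernel)
             (CovZ.badM (by decide +kernel))
             (CovZ.leaf K2_ok TT_l1571 _)))
           (CovZ.n1 (7573, -5409) (by decide +kernel)
            (CovZ.n2 (7573, -5408) (by decide +kernel)
             (CovZ.leaf K2_ok TT_l1572 _)
             (CovZ.leaf K2_ok TT_l1573 _))
            (CovZ.leaf K2_ok TT_l1574 _))))
         (CovZ.n1 (7570, -5410) (by decide +kernel)
          (CovZ.n2 (7570, -5408) (by decide +kernel)
           (CovZ.leaf K2_ok TT_l1575 _)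
           (CovZ.leaf K2_ok TT_l1576 _))
          (CovZ.n1 (7572, -5410) (by decide +kernel)
           (CovZ.n2 (7571, -5411) (by decide +kernel)
            (CovZ.leaf K2_ok TT_l1577 _)
            (CovZ.leaf K2_ok TT_l1578 _))
           (CovZ.leaf K2_ok TT_l1579 _))))
        (CovZ.n1 (7576, -5412) (by decide +kernel)
         (CovZ.n2 (7574, -5414) (by decide +kernel)
          (CovZ.n2 (7574, -5412) (by decide +kernel)
           (CovZ.badM (by decide +kernel))
           (CovZ.n1 (7573, -5413) (by decide +kernel)
            (CovZ.n2 (7573, -5412) (by decide +kernel)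
             (CovZ.badM (by decide +kernel))
             (CovZ.leaf K2_ok TT_l1580 _))
            (CovZ.badM (by decide +kernel))))
          (CovZ.badM (by decide +kernel)))
         (CovZ.n1 (7574, -5410) (by decide +kernel)
          (CovZ.n2 (7576, -5410) (by decide +kernel)
           (CovZ.n2 (7575, -5411) (by decide +kernel)
            (CovZ.n2 (7575, -5410) (by decide +kernel)
             (CovZ.badM (by decide +kernel))
             (CovZ.leaf K2_ok TT_l1581 _))
            (CovZ.badM (by decide +kernel)))
           (CovZ.n1 (7575, -5409) (by decide +kernel)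
            (CovZ.badM (by decide +kernel))
            (CovZ.n1 (7575, -5410) (by decide +kernel)
             (CovZ.leaf K2_ok TT_l1582 _)
             (CovZ.badM (by decide +kernel)))))
          (CovZ.n1 (7574, -5412) (by decide +kernel)
           (CovZ.n2 (7573, -5411) (by decide +kernel)
            (CovZ.leaf K2_ok TT_l1583 _)
            (CovZ.leaf K2_ok TT_l1584 _))
           (CovZ.n1 (7575, -5411) (by decide +kernel)
            (CovZ.badM (by decide +kernel))
            (CovZ.leaf K2_ok TT_l1585 _))))))))
     (CovZ.n1 (7560, -5416) (by decide +kernel)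
      (CovZ.n2 (7560, -5408) (by decide +kernel)
       (CovZ.n2 (7564, -5412) (by decide +kernel)
        (CovZ.n2 (7560, -5412) (by decide +kernel)
         (CovZ.n2 (7562, -5410) (by decide +kernel)
          (CovZ.leaf K2_ok TT_l1586 _)
          (CovZ.leaf K2_ok TT_l1587 _))
         (CovZ.n1 (7562, -5414) (by decide +kernel)
          (CovZ.leaf K2_ok TT_l1588 _)
          (CovZ.leaf K2_ok TT_l1589 _)))
        (CovZ.n1 (7564, -5408) (by decide +kernel)
         (CovZ.n2 (7566, -5410) (by decide +kernel)
          (CovZ.leaf K2_ok TT_l1590 _)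
          (CovZ.leaf K2_ok TT_l1591 _))
         (CovZ.n1 (7562, -5410) (by decide +kernel)
          (CovZ.leaf K2_ok TT_l1592 _)
          (CovZ.leaf K2_ok TT_l1593 _))))
       (CovZ.n1 (7556, -5412) (by decide +kernel)
        (CovZ.n2 (7556, -5408) (by decide +kernel)
         (CovZ.leaf K2_ok TT_l1594 _)
         (CovZ.leaf K2_ok TT_l1595 _))
        (CovZ.n1 (7560, -5412) (by decide +kernel)
         (CovZ.n2 (7558, -5414) (by decide +kernel)
          (CovZ.leaf K2_ok TT_l1596 _)
          (CovZ.leaf K2_ok TT_l1597 _))
         (CovZ.leaf K2_ok TT_l1598 _))))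
      (CovZ.n1 (7568, -5416) (by decide +kernel)
       (CovZ.n2 (7564, -5420) (by decide +kernel)
        (CovZ.n2 (7564, -5416) (by decide +kernel)
         (CovZ.n2 (7566, -5418) (by decide +kernel)
          (CovZ.n2 (7564, -5418) (by decide +kernel)
           (CovZ.leaf K2_ok TT_l1599 _)
           (CovZ.leaf K2_ok TT_l1600 _))
          (CovZ.n1 (7566, -5416) (by decide +kernel)
           (CovZ.leaf K2_ok TT_l1601 _)
           (CovZ.leaf K2_ok TT_l1602 _)))
         (CovZ.n1 (7562, -5418) (by decide +kernel)
          (CovZ.leaf K2_ok TT_l1603 _)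
          (CovZ.leaf K2_ok TT_l1604 _)))
        (CovZ.n1 (7568, -5420) (by decide +kernel)
         (CovZ.n2 (7566, -5422) (by decide +kernel)
          (CovZ.n2 (7566, -5420) (by decide +kernel)
           (CovZ.n2 (7567, -5421) (by decide +kernel)
            (CovZ.leaf K2_ok TT_l1605 _)
            (CovZ.leaf K2_ok TT_l1606 _))
           (CovZ.n1 (7565, -5421) (by decide +kernel)
            (CovZ.leaf K2_ok TT_l1607 _)
            (CovZ.leaf K2_ok TT_l1608 _)))
          (CovZ.n1 (7568, -5422) (by decide +kernel)
           (CovZ.n2 (7567, -5423) (by decide +kernel)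
            (CovZ.n2 (7567, -5422) (by decide +kernel)
             (CovZ.badM (by decide +kernel))
             (CovZ.leaf K2_ok TT_l1609 _))
            (CovZ.badM (by decide +kernel)))
           (CovZ.n1 (7567, -5421) (by decide +kernel)
            (CovZ.leaf K2_ok TT_l1610 _)
            (CovZ.leaf K2_ok TT_l1611 _))))
         (CovZ.n1 (7566, -5418) (by decide +kernel)
          (CovZ.n2 (7568, -5418) (by decide +kernel)
           (CovZ.n2 (7567, -5419) (by decide +kernel)
            (CovZ.leaf K2_ok TT_l1612 _)
            (CovZ.leaf K2_ok TT_l1613 _))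
           (CovZ.leaf K2_ok TT_l1614 _))
          (CovZ.n1 (7566, -5420) (by decide +kernel)
           (CovZ.leaf K2_ok TT_l1615 _)
           (CovZ.leaf K2_ok TT_l1616 _)))))
       (CovZ.n1 (7564, -5412) (by decide +kernel)
        (CovZ.n2 (7568, -5412) (by decide +kernel)
         (CovZ.n2 (7566, -5414) (by decide +kernel)
          (CovZ.n2 (7566, -5412) (by decide +kernel)
           (CovZ.leaf K2_ok TT_l1617 _)
           (CovZ.leaf K2_ok TT_l1618 _))
          (CovZ.n1 (7568, -5414) (by decide +kernel)
           (CovZ.n2 (7567, -5415) (by decide +kernel)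
            (CovZ.leaf K2_ok TT_l1619 _)
            (CovZ.leaf K2_ok TT_l1620 _))
           (CovZ.leaf K2_ok TT_l1621 _)))
         (CovZ.n1 (7566, -5410) (by decide +kernel)
          (CovZ.leaf K2_ok TT_l1622 _)
          (CovZ.n1 (7566, -5412) (by decide +kernel)
           (CovZ.leaf K2_ok TT_l1623 _)
           (CovZ.leaf K2_ok TT_l1624 _))))
        (CovZ.n1 (7564, -5416) (by decide +kernel)
         (CovZ.n2 (7562, -5414) (by decide +kernel)
          (CovZ.leaf K2_ok TT_l1625 _)
          (CovZ.leaf K2_ok TT_l1626 _))
         (CovZ.n1 (7566, -5414) (by decide +kernel)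
          (CovZ.n2 (7566, -5416) (by decide +kernel)
           (CovZ.leaf K2_ok TT_l1627 _)
           (CovZ.leaf K2_ok TT_l1628 _))
          (CovZ.leaf K2_ok TT_l1629 _)))))))

theorem TT_u10 : CovZ TT_M (toL (selN TT_LN 7)) [0, 7, 4, 3] (7584, -5376) (7568, -5392) (7584, -5408) :=
    (CovZ.n2 (7584, -5392) (by decide +kernel)
     (CovZ.n2 (7576, -5400) (by decide +kernel)
      (CovZ.n2 (7576, -5392) (by decide +kernel)
       (CovZ.n2 (7580, -5396) (by decide +kernel)
        (CovZ.n2 (7576, -5396) (by decide +kernel)
         (CovZ.n2 (7578, -5394) (by decide +kernel)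
          (CovZ.n2 (7578, -5396) (by decide +kernel)
           (CovZ.leaf K2_ok TT_l1630 _)
           (CovZ.n1 (7579, -5395) (by decide +kernel)
            (CovZ.badM (by decide +kernel))
            (CovZ.leaf K2_ok TT_l1633 _)))
          (CovZ.n1 (7576, -5394) (by decide +kernel)
           (CovZ.n2 (7577, -5393) (by decide +kernel)
            (CovZ.leaf K2_ok TT_l1634 _)
            (CovZ.leaf K2_ok TT_l1635 _))
           (CovZ.leaf K2_ok TT_l1636 _)))
         (CovZ.n1 (7578, -5398) (by decide +kernel)
          (CovZ.n2 (7576, -5398) (by decide +kernel)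
           (CovZ.n2 (7577, -5397) (by decide +kernel)
            (CovZ.leaf K2_ok TT_l1637 _)
            (CovZ.leaf K2_ok TT_l1638 _))
           (CovZ.leaf K2_ok TT_l1639 _))
          (CovZ.n1 (7578, -5396) (by decide +kernel)
           (CovZ.badM (by decide +kernel))
           (CovZ.n1 (7577, -5397) (by decide +kernel)
            (CovZ.leaf K2_ok TT_l1643 _)
            (CovZ.leaf K2_ok TT_l1644 _)))))
        (CovZ.n1 (7580, -5392) (by decide +kernel)
         (CovZ.badM (by decide +kernel))
         (CovZ.n1 (7578, -5394) (by decide +kernel)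
          (CovZ.n2 (7578, -5392) (by decide +kernel)
           (CovZ.leaf K2_ok TT_l1651 _)
           (CovZ.n1 (7577, -5393) (by decide +kernel)
            (CovZ.leaf K2_ok TT_l1652 _)
            (CovZ.leaf K2_ok TT_l1653 _)))
          (CovZ.n1 (7580, -5394) (by decide +kernel)
           (CovZ.n2 (7579, -5395) (by decide +kernel)
            (CovZ.leaf K2_ok TT_l1654 _)
            (CovZ.badM (by decide +kernel)))
           (CovZ.n1 (7579, -5393) (by decide +kernel)
            (CovZ.leaf K2_ok TT_l1656 _)
            (CovZ.leaf K2_ok TT_l1657 _))))))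
       (CovZ.n1 (7572, -5396) (by decide +kernel)
        (CovZ.n2 (7572, -5392) (by decide +kernel)
         (CovZ.n2 (7574, -5394) (by decide +kernel)
          (CovZ.leaf K2_ok TT_l1658 _)
          (CovZ.n1 (7574, -5392) (by decide +kernel)
           (CovZ.leaf K2_ok TT_l1659 _)
           (CovZ.leaf K2_ok TT_l1660 _)))
         (CovZ.n1 (7570, -5394) (by decide +kernel)
          (CovZ.leaf K2_ok TT_l1661 _)
          (CovZ.leaf K2_ok TT_l1662 _)))
        (CovZ.n1 (7576, -5396) (by decide +kernel)
         (CovZ.n2 (7574, -5398) (by decide +kernel)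
          (CovZ.n2 (7574, -5396) (by decide +kernel)
           (CovZ.leaf K2_ok TT_l1663 _)
           (CovZ.leaf K2_ok TT_l1664 _))
          (CovZ.n1 (7576, -5398) (by decide +kernel)
           (CovZ.n2 (7575, -5399) (by decide +kernel)
            (CovZ.leaf K2_ok TT_l1665 _)
            (CovZ.leaf K2_ok TT_l1666 _))
           (CovZ.leaf K2_ok TT_l1667 _)))
         (CovZ.n1 (7574, -5394) (by decide +kernel)
          (CovZ.n2 (7576, -5394) (by decide +kernel)
           (CovZ.leaf K2_ok TT_l1668 _)
           (CovZ.leaf K2_ok TT_l1669 _))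
          (CovZ.n1 (7574, -5396) (by decide +kernel)
           (CovZ.leaf K2_ok TT_l1670 _)
           (CovZ.leaf K2_ok TT_l1671 _))))))
      (CovZ.n1 (7584, -5400) (by decide +kernel)
       (CovZ.n2 (7580, -5404) (by decide +kernel)
        (CovZ.n2 (7580, -5400) (by decide +kernel)
         (CovZ.badM (by decide +kernel))
         (CovZ.n1 (7578, -5402) (by decide +kernel)
          (CovZ.n2 (7578, -5400) (by decide +kernel)
           (CovZ.badM (by decide +kernel))
           (CovZ.n1 (7577, -5401) (by decide +kernel)
            (CovZ.leaf K2_ok TT_l1672 _)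
            (CovZ.badM (by decide +kernel))))
          (CovZ.badM (by decide +kernel))))
        (CovZ.badM (by decide +kernel)))
       (CovZ.n1 (7580, -5396) (by decide +kernel)
        (CovZ.badM (by decide +kernel))
        (CovZ.n1 (7580, -5400) (by decide +kernel)
         (CovZ.n2 (7578, -5398) (by decide +kernel)
          (CovZ.badM (by decide +kernel))
          (CovZ.n1 (7578, -5400) (by decide +kernel)
           (CovZ.n2 (7577, -5399) (by decide +kernel)
            (CovZ.badM (by decide +kernel))
            (CovZ.n1 (7577, -5400) (by decide +kernel)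
             (CovZ.leaf K2_ok TT_l1676 _)
             (CovZ.badM (by decide +kernel))))
           (CovZ.badM (by decide +kernel))))
         (CovZ.badM (by decide +kernel))))))
     (CovZ.n1 (7576, -5384) (by decide +kernel)
      (CovZ.n2 (7584, -5384) (by decide +kernel)
       (CovZ.n2 (7580, -5388) (by decide +kernel)
        (CovZ.n2 (7580, -5384) (by decide +kernel)
         (CovZ.n2 (7582, -5386) (by decide +kernel)
          (CovZ.n2 (7580, -5386) (by decide +kernel)
           (CovZ.leaf K2_ok TT_l1679 _)
           (CovZ.n1 (7581, -5387) (by decide +kernel)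
            (CovZ.leaf K2_ok TT_l1680 _)
            (CovZ.leaf K2_ok TT_l1681 _)))
          (CovZ.n1 (7582, -5384) (by decide +kernel)
           (CovZ.n2 (7583, -5385) (by decide +kernel)
            (CovZ.leaf K2_ok TT_l1682 _)
            (CovZ.n1 (7583, -5384) (by decide +kernel)
             (CovZ.leaf K2_ok TT_l1683 _)
             (CovZ.leaf K2_ok TT_l1684 _)))
           (CovZ.n1 (7581, -5385) (by decide +kernel)
            (CovZ.leaf K2_ok TT_l1685 _)
            (CovZ.leaf K2_ok TT_l1686 _))))
         (CovZ.n1 (7578, -5386) (by decide +kernel)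
          (CovZ.n2 (7578, -5384) (by decide +kernel)
           (CovZ.leaf K2_ok TT_l1687 _)
           (CovZ.leaf K2_ok TT_l1688 _))
          (CovZ.n1 (7580, -5386) (by decide +kernel)
           (CovZ.n2 (7579, -5387) (by decide +kernel)
            (CovZ.leaf K2_ok TT_l1689 _)
            (CovZ.leaf K2_ok TT_l1690 _))
           (CovZ.leaf K2_ok TT_l1691 _))))
        (CovZ.n1 (7584, -5388) (by decide +kernel)
         (CovZ.n2 (7582, -5390) (by decide +kernel)
          (CovZ.n2 (7582, -5388) (by decide +kernel)
           (CovZ.badM (by decide +kernel))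
           (CovZ.n1 (7581, -5389) (by decide +kernel)
            (CovZ.leaf K2_ok TT_l1695 _)
            (CovZ.badM (by decide +kernel))))
          (CovZ.badM (by decide +kernel)))
         (CovZ.n1 (7582, -5386) (by decide +kernel)
          (CovZ.n2 (7584, -5386) (by decide +kernel)
           (CovZ.n2 (7583, -5387) (by decide +kernel)
            (CovZ.leaf K2_ok TT_l1700 _)
            (CovZ.badM (by decide +kernel)))
           (CovZ.n1 (7583, -5385) (by decide +kernel)
            (CovZ.badM (by decide +kernel))
            (CovZ.leaf K2_ok TT_l1704 _)))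
          (CovZ.n1 (7582, -5388) (by decide +kernel)
           (CovZ.leaf K2_ok TT_l1705 _)
           (CovZ.n1 (7583, -5387) (by decide +kernel)
            (CovZ.badM (by decide +kernel))
            (CovZ.leaf K2_ok TT_l1708 _))))))
       (CovZ.n1 (7580, -5380) (by decide +kernel)
        (CovZ.n2 (7584, -5380) (by decide +kernel)
         (CovZ.n2 (7582, -5382) (by decide +kernel)
          (CovZ.n2 (7582, -5380) (by decide +kernel)
           (CovZ.leaf K2_ok TT_l1709 _)
           (CovZ.n1 (7581, -5381) (by decide +kernel)
            (CovZ.leaf K2_ok TT_l1710 _)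
            (CovZ.leaf K2_ok TT_l1711 _)))
          (CovZ.n1 (7584, -5382) (by decide +kernel)
           (CovZ.n2 (7583, -5383) (by decide +kernel)
            (CovZ.leaf K2_ok TT_l1712 _)
            (CovZ.leaf K2_ok TT_l1713 _))
           (CovZ.leaf K2_ok TT_l1714 _)))
         (CovZ.n1 (7582, -5378) (by decide +kernel)
          (CovZ.n2 (7584, -5378) (by decide +kernel)
           (CovZ.n2 (7583, -5379) (by decide +kernel)
            (CovZ.leaf K2_ok TT_l1715 _)
            (CovZ.leaf K2_ok TT_l1716 _))
           (CovZ.leaf K2_ok TT_l1717 _))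
          (CovZ.n1 (7582, -5380) (by decide +kernel)
           (CovZ.leaf K2_ok TT_l1718 _)
           (CovZ.leaf K2_ok TT_l1719 _))))
        (CovZ.n1 (7580, -5384) (by decide +kernel)
         (CovZ.n2 (7578, -5382) (by decide +kernel)
          (CovZ.leaf K2_ok TT_l1720 _)
          (CovZ.n1 (7578, -5384) (by decide +kernel)
           (CovZ.leaf K2_ok TT_l1721 _)
           (CovZ.leaf K2_ok TT_l1722 _)))
         (CovZ.n1 (7582, -5382) (by decide +kernel)
          (CovZ.n2 (7582, -5384) (by decide +kernel)
           (CovZ.leaf K2_ok TT_l1723 _)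
           (CovZ.n1 (7583, -5383) (by decide +kernel)
            (CovZ.leaf K2_ok TT_l1724 _)
            (CovZ.leaf K2_ok TT_l1725 _)))
          (CovZ.n1 (7580, -5382) (by decide +kernel)
           (CovZ.leaf K2_ok TT_l1726 _)
           (CovZ.leaf K2_ok TT_l1727 _))))))
      (CovZ.n1 (7576, -5392) (by decide +kernel)
       (CovZ.n2 (7572, -5388) (by decide +kernel)
        (CovZ.n2 (7576, -5388) (by decide +kernel)
         (CovZ.n2 (7574, -5390) (by decide +kernel)
          (CovZ.n2 (7574, -5388) (by decide +kernel)
           (CovZ.leaf K2_ok TT_l1728 _)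
           (CovZ.leaf K2_ok TT_l1729 _))
          (CovZ.leaf K2_ok TT_l1730 _))
         (CovZ.n1 (7574, -5386) (by decide +kernel)
          (CovZ.leaf K2_ok TT_l1731 _)
          (CovZ.leaf K2_ok TT_l1732 _)))
        (CovZ.n1 (7572, -5392) (by decide +kernel)
         (CovZ.leaf K2_ok TT_l1733 _)
         (CovZ.n1 (7574, -5390) (by decide +kernel)
          (CovZ.n2 (7574, -5392) (by decide +kernel)
           (CovZ.leaf K2_ok TT_l1734 _)
           (CovZ.leaf K2_ok TT_l1735 _))
          (CovZ.leaf K2_ok TT_l1736 _))))
       (CovZ.n1 (7580, -5388) (by decide +kernel)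
        (CovZ.n2 (7580, -5392) (by decide +kernel)
         (CovZ.n2 (7578, -5390) (by decide +kernel)
          (CovZ.n2 (7580, -5390) (by decide +kernel)
           (CovZ.n2 (7579, -5391) (by decide +kernel)
            (CovZ.leaf K2_ok TT_l1737 _)
            (CovZ.leaf K2_ok TT_l1738 _))
           (CovZ.leaf K2_ok TT_l1739 _))
          (CovZ.n1 (7578, -5392) (by decide +kernel)
           (CovZ.leaf K2_ok TT_l1740 _)
           (CovZ.n1 (7579, -5391) (by decide +kernel)
            (CovZ.leaf K2_ok TT_l1741 _)
            (CovZ.leaf K2_ok TT_l1742 _))))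
         (CovZ.n1 (7582, -5390) (by decide +kernel)
          (CovZ.badM (by decide +kernel))
          (CovZ.n1 (7580, -5390) (by decide +kernel)
           (CovZ.n2 (7581, -5389) (by decide +kernel)
            (CovZ.leaf K2_ok TT_l1746 _)
            (CovZ.leaf K2_ok TT_l1747 _))
           (CovZ.n1 (7581, -5391) (by decide +kernel)
            (CovZ.leaf K2_ok TT_l1748 _)
            (CovZ.n1 (7581, -5390) (by decide +kernel)
             (CovZ.badM (by decide +kernel))
             (CovZ.leaf K2_ok TT_l1750 _))))))
        (CovZ.n1 (7576, -5388) (by decide +kernel)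
         (CovZ.n2 (7578, -5386) (by decide +kernel)
          (CovZ.n2 (7578, -5388) (by decide +kernel)
           (CovZ.leaf K2_ok TT_l1751 _)
           (CovZ.leaf K2_ok TT_l1752 _))
          (CovZ.leaf K2_ok TT_l1753 _))
         (CovZ.n1 (7578, -5390) (by decide +kernel)
          (CovZ.n2 (7576, -5390) (by decide +kernel)
           (CovZ.leaf K2_ok TT_l1754 _)
           (CovZ.leaf K2_ok TT_l1755 _))
          (CovZ.n1 (7578, -5388) (by decide +kernel)
           (CovZ.leaf K2_ok TT_l1756 _)
           (CovZ.n1 (7577, -5389) (by decide +kernel)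
            (CovZ.leaf K2_ok TT_l1757 _)
            (CovZ.leaf K2_ok TT_l1758 _)))))))))

theorem TT_u11 : CovZ TT_M (toL (selN TT_LN 7)) [0, 7, 4, 3] (7568, -5392) (7552, -5408) (7584, -5408) :=
    (CovZ.n1 (7568, -5408) (by decide +kernel)
     (CovZ.n2 (7560, -5400) (by decide +kernel)
      (CovZ.n2 (7568, -5400) (by decide +kernel)
       (CovZ.n2 (7564, -5404) (by decide +kernel)
        (CovZ.n2 (7564, -5400) (by decide +kernel)
         (CovZ.leaf K2_ok TT_l1759 _)
         (CovZ.n1 (7562, -5402) (by decide +kernel)
          (CovZ.leaf K2_ok TT_l1760 _)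
          (CovZ.leaf K2_ok TT_l1761 _)))
        (CovZ.n1 (7568, -5404) (by decide +kernel)
         (CovZ.n2 (7566, -5406) (by decide +kernel)
          (CovZ.n2 (7566, -5404) (by decide +kernel)
           (CovZ.leaf K2_ok TT_l1762 _)
           (CovZ.leaf K2_ok TT_l1763 _))
          (CovZ.leaf K2_ok TT_l1764 _))
         (CovZ.n1 (7566, -5402) (by decide +kernel)
          (CovZ.leaf K2_ok TT_l1765 _)
          (CovZ.leaf K2_ok TT_l1766 _))))
       (CovZ.n1 (7564, -5396) (by decide +kernel)
        (CovZ.n2 (7568, -5396) (by decide +kernel)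
         (CovZ.n2 (7566, -5398) (by decide +kernel)
          (CovZ.leaf K2_ok TT_l1767 _)
          (CovZ.leaf K2_ok TT_l1768 _))
         (CovZ.leaf K2_ok TT_l1769 _))
        (CovZ.n1 (7564, -5400) (by decide +kernel)
         (CovZ.leaf K2_ok TT_l1770 _)
         (CovZ.n1 (7566, -5398) (by decide +kernel)
          (CovZ.leaf K2_ok TT_l1771 _)
          (CovZ.leaf K2_ok TT_l1772 _)))))
      (CovZ.n1 (7560, -5408) (by decide +kernel)
       (CovZ.n2 (7556, -5404) (by decide +kernel)
        (CovZ.n2 (7560, -5404) (by decide +kernel)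
         (CovZ.leaf K2_ok TT_l1773 _)
         (CovZ.leaf K2_ok TT_l1774 _))
        (CovZ.n1 (7556, -5408) (by decide +kernel)
         (CovZ.leaf K2_ok TT_l1775 _)
         (CovZ.n1 (7558, -5406) (by decide +kernel)
          (CovZ.leaf K2_ok TT_l1776 _)
          (CovZ.leaf K2_ok TT_l1777 _))))
       (CovZ.n1 (7564, -5404) (by decide +kernel)
        (CovZ.n2 (7564, -5408) (by decide +kernel)
         (CovZ.leaf K2_ok TT_l1778 _)
         (CovZ.n1 (7566, -5406) (by decide +kernel)
          (CovZ.n2 (7566, -5408) (by decide +kernel)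
           (CovZ.leaf K2_ok TT_l1779 _)
           (CovZ.leaf K2_ok TT_l1780 _))
          (CovZ.leaf K2_ok TT_l1781 _)))
        (CovZ.n1 (7560, -5404) (by decide +kernel)
         (CovZ.n2 (7562, -5402) (by decide +kernel)
          (CovZ.leaf K2_ok TT_l1782 _)
          (CovZ.leaf K2_ok TT_l1783 _))
         (CovZ.leaf K2_ok TT_l1784 _)))))
     (CovZ.n1 (7576, -5400) (by decide +kernel)
      (CovZ.n2 (7576, -5408) (by decide +kernel)
       (CovZ.n2 (7572, -5404) (by decide +kernel)
        (CovZ.n2 (7576, -5404) (by decide +kernel)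
         (CovZ.n2 (7574, -5406) (by decide +kernel)
          (CovZ.n2 (7574, -5404) (by decide +kernel)
           (CovZ.n2 (7575, -5405) (by decide +kernel)
            (CovZ.leaf K2_ok TT_l1785 _)
            (CovZ.n1 (7575, -5404) (by decide +kernel)
             (CovZ.leaf K2_ok TT_l1786 _)
             (CovZ.leaf K2_ok TT_l1787 _)))
           (CovZ.n1 (7573, -5405) (by decide +kernel)
            (CovZ.leaf K2_ok TT_l1788 _)
            (CovZ.leaf K2_ok TT_l1789 _)))
          (CovZ.n1 (7576, -5406) (by decide +kernel)
           (CovZ.n2 (7575, -5407) (by decide +kernel)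
            (CovZ.n2 (7575, -5406) (by decide +kernel)
             (CovZ.badM (by decide +kernel))
             (CovZ.leaf K2_ok TT_l1790 _))
            (CovZ.badM (by decide +kernel)))
           (CovZ.n1 (7575, -5405) (by decide +kernel)
            (CovZ.leaf K2_ok TT_l1791 _)
            (CovZ.leaf K2_ok TT_l1792 _))))
         (CovZ.n1 (7574, -5402) (by decide +kernel)
          (CovZ.n2 (7576, -5402) (by decide +kernel)
           (CovZ.n2 (7575, -5403) (by decide +kernel)
            (CovZ.leaf K2_ok TT_l1793 _)
            (CovZ.leaf K2_ok TT_l1794 _))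
           (CovZ.leaf K2_ok TT_l1795 _))
          (CovZ.n1 (7574, -5404) (by decide +kernel)
           (CovZ.leaf K2_ok TT_l1796 _)
           (CovZ.n1 (7575, -5403) (by decide +kernel)
            (CovZ.leaf K2_ok TT_l1797 _)
            (CovZ.leaf K2_ok TT_l1798 _)))))
        (CovZ.n1 (7572, -5408) (by decide +kernel)
         (CovZ.n2 (7570, -5406) (by decide +kernel)
          (CovZ.n2 (7572, -5406) (by decide +kernel)
           (CovZ.n2 (7571, -5407) (by decide +kernel)
            (CovZ.leaf K2_ok TT_l1799 _)
            (CovZ.leaf K2_ok TT_l1800 _))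
           (CovZ.leaf K2_ok TT_l1801 _))
          (CovZ.n1 (7570, -5408) (by decide +kernel)
           (CovZ.leaf K2_ok TT_l1802 _)
           (CovZ.leaf K2_ok TT_l1803 _)))
         (CovZ.n1 (7574, -5406) (by decide +kernel)
          (CovZ.n2 (7574, -5408) (by decide +kernel)
           (CovZ.n2 (7573, -5407) (by decide +kernel)
            (CovZ.leaf K2_ok TT_l1804 _)
            (CovZ.n1 (7573, -5408) (by decide +kernel)
             (CovZ.leaf K2_ok TT_l1805 _)
             (CovZ.leaf K2_ok TT_l1806 _)))
           (CovZ.n1 (7575, -5407) (by decide +kernel)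
            (CovZ.n2 (7575, -5408) (by decide +kernel)
             (CovZ.leaf K2_ok TT_l1807 _)
             (CovZ.badM (by decide +kernel)))
            (CovZ.leaf K2_ok TT_l1808 _)))
          (CovZ.n1 (7572, -5406) (by decide +kernel)
           (CovZ.n2 (7573, -5405) (by decide +kernel)
            (CovZ.n2 (7573, -5406) (by decide +kernel)
             (CovZ.leaf K2_ok TT_l1809 _)
             (CovZ.leaf K2_ok TT_l1810 _))
            (CovZ.leaf K2_ok TT_l1811 _))
           (CovZ.leaf K2_ok TT_l1812 _)))))
       (CovZ.n1 (7580, -5404) (by decide +kernel)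
        (CovZ.badM (by decide +kernel))
        (CovZ.n1 (7576, -5404) (by decide +kernel)
         (CovZ.n2 (7578, -5402) (by decide +kernel)
          (CovZ.badM (by decide +kernel))
          (CovZ.n1 (7576, -5402) (by decide +kernel)
           (CovZ.n2 (7577, -5401) (by decide +kernel)
            (CovZ.badM (by decide +kernel))
            (CovZ.leaf K2_ok TT_l1813 _))
           (CovZ.badM (by decide +kernel))))
         (CovZ.badM (by decide +kernel)))))
      (CovZ.n1 (7568, -5400) (by decide +kernel)
       (CovZ.n2 (7572, -5396) (by decide +kernel)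
        (CovZ.n2 (7572, -5400) (by decide +kernel)
         (CovZ.n2 (7570, -5398) (by decide +kernel)
          (CovZ.leaf K2_ok TT_l1814 _)
          (CovZ.leaf K2_ok TT_l1815 _))
         (CovZ.n1 (7574, -5398) (by decide +kernel)
          (CovZ.n2 (7574, -5400) (by decide +kernel)
           (CovZ.leaf K2_ok TT_l1816 _)
           (CovZ.n1 (7575, -5399) (by decide +kernel)
            (CovZ.leaf K2_ok TT_l1817 _)
            (CovZ.leaf K2_ok TT_l1818 _)))
          (CovZ.n1 (7572, -5398) (by decide +kernel)
           (CovZ.leaf K2_ok TT_l1819 _)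
           (CovZ.leaf K2_ok TT_l1820 _))))
        (CovZ.n1 (7568, -5396) (by decide +kernel)
         (CovZ.n2 (7570, -5394) (by decide +kernel)
          (CovZ.n2 (7570, -5396) (by decide +kernel)
           (CovZ.leaf K2_ok TT_l1821 _)
           (CovZ.leaf K2_ok TT_l1822 _))
          (CovZ.leaf K2_ok TT_l1823 _))
         (CovZ.n1 (7570, -5398) (by decide +kernel)
          (CovZ.leaf K2_ok TT_l1824 _)
          (CovZ.leaf K2_ok TT_l1825 _))))
       (CovZ.n1 (7572, -5404) (by decide +kernel)
        (CovZ.n2 (7568, -5404) (by decide +kernel)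
         (CovZ.n2 (7570, -5402) (by decide +kernel)
          (CovZ.n2 (7570, -5404) (by decide +kernel)
           (CovZ.leaf K2_ok TT_l1826 _)
           (CovZ.leaf K2_ok TT_l1827 _))
          (CovZ.leaf K2_ok TT_l1828 _))
         (CovZ.n1 (7570, -5406) (by decide +kernel)
          (CovZ.n2 (7568, -5406) (by decide +kernel)
           (CovZ.leaf K2_ok TT_l1829 _)
           (CovZ.leaf K2_ok TT_l1830 _))
          (CovZ.n1 (7570, -5404) (by decide +kernel)
           (CovZ.leaf K2_ok TT_l1831 _)
           (CovZ.leaf K2_ok TT_l1832 _))))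
        (CovZ.n1 (7572, -5400) (by decide +kernel)
         (CovZ.n2 (7574, -5402) (by decide +kernel)
          (CovZ.n2 (7572, -5402) (by decide +kernel)
           (CovZ.leaf K2_ok TT_l1833 _)
           (CovZ.leaf K2_ok TT_l1834 _))
          (CovZ.n1 (7574, -5400) (by decide +kernel)
           (CovZ.n2 (7575, -5401) (by decide +kernel)
            (CovZ.leaf K2_ok TT_l1835 _)
            (CovZ.leaf K2_ok TT_l1836 _))
           (CovZ.leaf K2_ok TT_l1837 _)))
         (CovZ.n1 (7570, -5402) (by decide +kernel)
          (CovZ.n2 (7570, -5400) (by decide +kernel)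
           (CovZ.leaf K2_ok TT_l1838 _)
           (CovZ.leaf K2_ok TT_l1839 _))
          (CovZ.leaf K2_ok TT_l1840 _)))))))

theorem TT_u12 : CovZ TT_M (toL (selN TT_LN 7)) [0, 7, 4, 3] (7584, -5376) (7600, -5360) (7584, -5344) :=
    (CovZ.n2 (7584, -5360) (by decide +kernel)
     (CovZ.n2 (7592, -5352) (by decide +kernel)
      (CovZ.n2 (7592, -5360) (by decide +kernel)
       (CovZ.n2 (7588, -5356) (by decide +kernel)
        (CovZ.n2 (7592, -5356) (by decide +kernel)
         (CovZ.n2 (7590, -5358) (by decide +kernel)
          (CovZ.n2 (7590, -5356) (by decide +kernel)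
           (CovZ.leaf K2_ok TT_l2104 _)
           (CovZ.leaf K2_ok TT_l2105 _))
          (CovZ.n1 (7592, -5358) (by decide +kernel)
           (CovZ.n2 (7591, -5359) (by decide +kernel)
            (CovZ.leaf K2_ok TT_l2106 _)
            (CovZ.leaf K2_ok TT_l2107 _))
           (CovZ.leaf K2_ok TT_l2108 _)))
         (CovZ.n1 (7590, -5354) (by decide +kernel)
          (CovZ.n2 (7592, -5354) (by decide +kernel)
           (CovZ.n2 (7591, -5355) (by decide +kernel)
            (CovZ.leaf K2_ok TT_l2109 _)
            (CovZ.leaf K2_ok TT_l2110 _))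
           (CovZ.leaf K2_ok TT_l2111 _))
          (CovZ.n1 (7590, -5356) (by decide +kernel)
           (CovZ.leaf K2_ok TT_l2112 _)
           (CovZ.leaf K2_ok TT_l2113 _))))
        (CovZ.n1 (7588, -5360) (by decide +kernel)
         (CovZ.n2 (7586, -5358) (by decide +kernel)
          (CovZ.leaf K2_ok TT_l2114 _)
          (CovZ.leaf K2_ok TT_l2115 _))
         (CovZ.n1 (7590, -5358) (by decide +kernel)
          (CovZ.n2 (7590, -5360) (by decide +kernel)
           (CovZ.leaf K2_ok TT_l2116 _)
           (CovZ.leaf K2_ok TT_l2117 _))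
          (CovZ.leaf K2_ok TT_l2118 _))))
       (CovZ.n1 (7596, -5356) (by decide +kernel)
        (CovZ.n2 (7596, -5360) (by decide +kernel)
         (CovZ.n2 (7594, -5358) (by decide +kernel)
          (CovZ.n2 (7596, -5358) (by decide +kernel)
           (CovZ.n2 (7595, -5359) (by decide +kernel)
            (CovZ.n2 (7595, -5358) (by decide +kernel)
             (CovZ.badM (by decide +kernel))
             (CovZ.leaf K2_ok TT_l2119 _))
            (CovZ.badM (by decide +kernel)))
           (CovZ.n1 (7595, -5357) (by decide +kernel)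
            (CovZ.badM (by decide +kernel))
            (CovZ.leaf K2_ok TT_l2120 _)))
          (CovZ.n1 (7594, -5360) (by decide +kernel)
           (CovZ.n2 (7593, -5359) (by decide +kernel)
            (CovZ.leaf K2_ok TT_l2121 _)
            (CovZ.leaf K2_ok TT_l2122 _))
           (CovZ.n1 (7595, -5359) (by decide +kernel)
            (CovZ.badM (by decide +kernel))
            (CovZ.n1 (7594, -5359) (by decide +kernel)
             (CovZ.leaf K2_ok TT_l2123 _)
             (CovZ.badM (by decide +kernel))))))
         (CovZ.badM (by decide +kernel)))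
        (CovZ.n1 (7592, -5356) (by decide +kernel)
         (CovZ.n2 (7594, -5354) (by decide +kernel)
          (CovZ.n2 (7594, -5356) (by decide +kernel)
           (CovZ.leaf K2_ok TT_l2124 _)
           (CovZ.n1 (7595, -5355) (by decide +kernel)
            (CovZ.leaf K2_ok TT_l2125 _)
            (CovZ.leaf K2_ok TT_l2126 _)))
          (CovZ.n1 (7592, -5354) (by decide +kernel)
           (CovZ.leaf K2_ok TT_l2127 _)
           (CovZ.leaf K2_ok TT_l2128 _)))
         (CovZ.n1 (7594, -5358) (by decide +kernel)
          (CovZ.n2 (7592, -5358) (by decide +kernel)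
           (CovZ.leaf K2_ok TT_l2129 _)
           (CovZ.leaf K2_ok TT_l2130 _))
          (CovZ.n1 (7594, -5356) (by decide +kernel)
           (CovZ.leaf K2_ok TT_l2131 _)
           (CovZ.n1 (7593, -5357) (by decide +kernel)
            (CovZ.leaf K2_ok TT_l2132 _)
            (CovZ.leaf K2_ok TT_l2133 _)))))))
      (CovZ.n1 (7584, -5352) (by decide +kernel)
       (CovZ.n2 (7588, -5348) (by decide +kernel)
        (CovZ.n2 (7588, -5352) (by decide +kernel)
         (CovZ.leaf K2_ok TT_l2134 _)
         (CovZ.n1 (7590, -5350) (by decide +kernel)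
          (CovZ.n2 (7590, -5352) (by decide +kernel)
           (CovZ.leaf K2_ok TT_l2135 _)
           (CovZ.leaf K2_ok TT_l2136 _))
          (CovZ.leaf K2_ok TT_l2137 _)))
        (CovZ.n1 (7584, -5348) (by decide +kernel)
         (CovZ.n2 (7586, -5346) (by decide +kernel)
          (CovZ.leaf K2_ok TT_l2138 _)
          (CovZ.leaf K2_ok TT_l2139 _))
         (CovZ.leaf K2_ok TT_l2140 _)))
       (CovZ.n1 (7588, -5356) (by decide +kernel)
        (CovZ.n2 (7584, -5356) (by decide +kernel)
         (CovZ.n2 (7586, -5354) (by decide +kernel)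
          (CovZ.n2 (7586, -5356) (by decide +kernel)
           (CovZ.leaf K2_ok TT_l2141 _)
           (CovZ.leaf K2_ok TT_l2142 _))
          (CovZ.leaf K2_ok TT_l2143 _))
         (CovZ.n1 (7586, -5358) (by decide +kernel)
          (CovZ.leaf K2_ok TT_l2144 _)
          (CovZ.leaf K2_ok TT_l2145 _)))
        (CovZ.n1 (7588, -5352) (by decide +kernel)
         (CovZ.n2 (7590, -5354) (by decide +kernel)
          (CovZ.leaf K2_ok TT_l2146 _)
          (CovZ.n1 (7590, -5352) (by decide +kernel)
           (CovZ.leaf K2_ok TT_l2147 _)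
           (CovZ.leaf K2_ok TT_l2148 _)))
         (CovZ.n1 (7586, -5354) (by decide +kernel)
          (CovZ.leaf K2_ok TT_l2149 _)
          (CovZ.leaf K2_ok TT_l2150 _))))))
     (CovZ.n1 (7592, -5368) (by decide +kernel)
      (CovZ.n2 (7584, -5368) (by decide +kernel)
       (CovZ.n2 (7588, -5364) (by decide +kernel)
        (CovZ.n2 (7588, -5368) (by decide +kernel)
         (CovZ.n2 (7586, -5366) (by decide +kernel)
          (CovZ.n2 (7588, -5366) (by decide +kernel)
           (CovZ.n2 (7587, -5367) (by decide +kernel)
            (CovZ.leaf K2_ok TT_l2151 _)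
            (CovZ.leaf K2_ok TT_l2152 _))
           (CovZ.leaf K2_ok TT_l2153 _))
          (CovZ.n1 (7586, -5368) (by decide +kernel)
           (CovZ.leaf K2_ok TT_l2154 _)
           (CovZ.leaf K2_ok TT_l2155 _)))
         (CovZ.n1 (7590, -5366) (by decide +kernel)
          (CovZ.n2 (7590, -5368) (by decide +kernel)
           (CovZ.n2 (7589, -5367) (by decide +kernel)
            (CovZ.leaf K2_ok TT_l2156 _)
            (CovZ.leaf K2_ok TT_l2157 _))
           (CovZ.n1 (7591, -5367) (by decide +kernel)
            (CovZ.badM (by decide +kernel))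
            (CovZ.leaf K2_ok TT_l2158 _)))
          (CovZ.n1 (7588, -5366) (by decide +kernel)
           (CovZ.n2 (7589, -5365) (by decide +kernel)
            (CovZ.leaf K2_ok TT_l2159 _)
            (CovZ.leaf K2_ok TT_l2160 _))
           (CovZ.leaf K2_ok TT_l2161 _))))
        (CovZ.n1 (7584, -5364) (by decide +kernel)
         (CovZ.n2 (7586, -5362) (by decide +kernel)
          (CovZ.n2 (7586, -5364) (by decide +kernel)
           (CovZ.leaf K2_ok TT_l2162 _)
           (CovZ.leaf K2_ok TT_l2163 _))
          (CovZ.leaf K2_ok TT_l2164 _))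
         (CovZ.n1 (7586, -5366) (by decide +kernel)
          (CovZ.leaf K2_ok TT_l2165 _)
          (CovZ.n1 (7586, -5364) (by decide +kernel)
           (CovZ.leaf K2_ok TT_l2166 _)
           (CovZ.leaf K2_ok TT_l2167 _)))))
       (CovZ.n1 (7588, -5372) (by decide +kernel)
        (CovZ.n2 (7584, -5372) (by decide +kernel)
         (CovZ.n2 (7586, -5370) (by decide +kernel)
          (CovZ.n2 (7586, -5372) (by decide +kernel)
           (CovZ.leaf K2_ok TT_l2168 _)
           (CovZ.n1 (7587, -5371) (by decide +kernel)
            (CovZ.leaf K2_ok TT_l2169 _)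
            (CovZ.leaf K2_ok TT_l2170 _)))
          (CovZ.leaf K2_ok TT_l2171 _))
         (CovZ.n1 (7586, -5374) (by decide +kernel)
          (CovZ.n2 (7584, -5374) (by decide +kernel)
           (CovZ.n2 (7585, -5373) (by decide +kernel)
            (CovZ.leaf K2_ok TT_l2172 _)
            (CovZ.leaf K2_ok TT_l2173 _))
           (CovZ.leaf K2_ok TT_l2174 _))
          (CovZ.n1 (7586, -5372) (by decide +kernel)
           (CovZ.leaf K2_ok TT_l2175 _)
           (CovZ.n1 (7585, -5373) (by decide +kernel)
            (CovZ.leaf K2_ok TT_l2176 _)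
            (CovZ.leaf K2_ok TT_l2177 _)))))
        (CovZ.n1 (7588, -5368) (by decide +kernel)
         (CovZ.n2 (7590, -5370) (by decide +kernel)
          (CovZ.n2 (7588, -5370) (by decide +kernel)
           (CovZ.n2 (7589, -5369) (by decide +kernel)
            (CovZ.leaf K2_ok TT_l2178 _)
            (CovZ.leaf K2_ok TT_l2179 _))
           (CovZ.leaf K2_ok TT_l2180 _))
          (CovZ.n1 (7590, -5368) (by decide +kernel)
           (CovZ.badM (by decide +kernel))
           (CovZ.n1 (7589, -5369) (by decide +kernel)
            (CovZ.leaf K2_ok TT_l2181 _)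
            (CovZ.leaf K2_ok TT_l2182 _))))
         (CovZ.n1 (7586, -5370) (by decide +kernel)
          (CovZ.n2 (7586, -5368) (by decide +kernel)
           (CovZ.leaf K2_ok TT_l2183 _)
           (CovZ.leaf K2_ok TT_l2184 _))
          (CovZ.n1 (7588, -5370) (by decide +kernel)
           (CovZ.n2 (7587, -5371) (by decide +kernel)
            (CovZ.leaf K2_ok TT_l2185 _)
            (CovZ.leaf K2_ok TT_l2186 _))
           (CovZ.leaf K2_ok TT_l2187 _))))))
      (CovZ.n1 (7592, -5360) (by decide +kernel)
       (CovZ.n2 (7596, -5364) (by decide +kernel)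
        (CovZ.n2 (7592, -5364) (by decide +kernel)
         (CovZ.n2 (7594, -5362) (by decide +kernel)
          (CovZ.badM (by decide +kernel))
          (CovZ.n1 (7592, -5362) (by decide +kernel)
           (CovZ.n2 (7593, -5361) (by decide +kernel)
            (CovZ.leaf K2_ok TT_l2188 _)
            (CovZ.leaf K2_ok TT_l2189 _))
           (CovZ.n1 (7593, -5363) (by decide +kernel)
            (CovZ.leaf K2_ok TT_l2190 _)
            (CovZ.n1 (7593, -5362) (by decide +kernel)
             (CovZ.badM (by decide +kernel))
             (CovZ.leaf K2_ok TT_l2191 _)))))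
         (CovZ.badM (by decide +kernel)))
        (CovZ.n1 (7596, -5360) (by decide +kernel)
         (CovZ.badM (by decide +kernel))
         (CovZ.n1 (7594, -5362) (by decide +kernel)
          (CovZ.n2 (7594, -5360) (by decide +kernel)
           (CovZ.badM (by decide +kernel))
           (CovZ.n1 (7593, -5361) (by decide +kernel)
            (CovZ.leaf K2_ok TT_l2192 _)
            (CovZ.badM (by decide +kernel))))
          (CovZ.badM (by decide +kernel)))))
       (CovZ.n1 (7588, -5364) (by decide +kernel)
        (CovZ.n2 (7588, -5360) (by decide +kernel)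
         (CovZ.n2 (7590, -5362) (by decide +kernel)
          (CovZ.n2 (7588, -5362) (by decide +kernel)
           (CovZ.leaf K2_ok TT_l2193 _)
           (CovZ.leaf K2_ok TT_l2194 _))
          (CovZ.n1 (7590, -5360) (by decide +kernel)
           (CovZ.leaf K2_ok TT_l2195 _)
           (CovZ.leaf K2_ok TT_l2196 _)))
         (CovZ.n1 (7586, -5362) (by decide +kernel)
          (CovZ.n2 (7586, -5360) (by decide +kernel)
           (CovZ.leaf K2_ok TT_l2197 _)
           (CovZ.leaf K2_ok TT_l2198 _))
          (CovZ.leaf K2_ok TT_l2199 _)))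
        (CovZ.n1 (7592, -5364) (by decide +kernel)
         (CovZ.n2 (7590, -5366) (by decide +kernel)
          (CovZ.n2 (7590, -5364) (by decide +kernel)
           (CovZ.leaf K2_ok TT_l2200 _)
           (CovZ.n1 (7589, -5365) (by decide +kernel)
            (CovZ.leaf K2_ok TT_l2201 _)
            (CovZ.leaf K2_ok TT_l2202 _)))
          (CovZ.n1 (7592, -5366) (by decide +kernel)
           (CovZ.n2 (7591, -5367) (by decide +kernel)
            (CovZ.n2 (7591, -5366) (by decide +kernel)
             (CovZ.badM (by decide +kernel))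
             (CovZ.leaf K2_ok TT_l2203 _))
            (CovZ.badM (by decide +kernel)))
           (CovZ.n1 (7591, -5365) (by decide +kernel)
            (CovZ.leaf K2_ok TT_l2204 _)
            (CovZ.leaf K2_ok TT_l2205 _))))
         (CovZ.n1 (7590, -5362) (by decide +kernel)
          (CovZ.n2 (7592, -5362) (by decide +kernel)
           (CovZ.n2 (7591, -5363) (by decide +kernel)
            (CovZ.leaf K2_ok TT_l2206 _)
            (CovZ.leaf K2_ok TT_l2207 _))
           (CovZ.leaf K2_ok TT_l2208 _))
          (CovZ.n1 (7590, -5364) (by decide +kernel)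
           (CovZ.leaf K2_ok TT_l2209 _)
           (CovZ.leaf K2_ok TT_l2210 _))))))))

theorem TT_u13 : CovZ TT_M (toL (selN TT_LN 7)) [0, 7, 4, 3] (7600, -5360) (7616, -5344) (7584, -5344) :=
    (CovZ.n1 (7600, -5344) (by decide +kernel)
     (CovZ.n2 (7608, -5352) (by decide +kernel)
      (CovZ.n2 (7600, -5352) (by decide +kernel)
       (CovZ.n2 (7604, -5348) (by decide +kernel)
        (CovZ.badM (by decide +kernel))
        (CovZ.n1 (7600, -5348) (by decide +kernel)
         (CovZ.n2 (7602, -5346) (by decide +kernel)
          (CovZ.badM (by decide +kernel))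
          (CovZ.n1 (7600, -5346) (by decide +kernel)
           (CovZ.n2 (7601, -5345) (by decide +kernel)
            (CovZ.badM (by decide +kernel))
            (CovZ.leaf K2_ok TT_l2211 _))
           (CovZ.badM (by decide +kernel))))
         (CovZ.badM (by decide +kernel))))
       (CovZ.badM (by decide +kernel)))
      (CovZ.n1 (7608, -5344) (by decide +kernel)
       (CovZ.badM (by decide +kernel))
       (CovZ.n1 (7604, -5348) (by decide +kernel)
        (CovZ.n2 (7604, -5344) (by decide +kernel)
         (CovZ.badM (by decide +kernel))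
         (CovZ.n1 (7602, -5346) (by decide +kernel)
          (CovZ.n2 (7602, -5344) (by decide +kernel)
           (CovZ.badM (by decide +kernel))
           (CovZ.n1 (7601, -5345) (by decide +kernel)
            (CovZ.n2 (7601, -5344) (by decide +kernel)
             (CovZ.badM (by decide +kernel))
             (CovZ.leaf K2_ok TT_l2212 _))
            (CovZ.badM (by decide +kernel))))
          (CovZ.badM (by decide +kernel))))
        (CovZ.badM (by decide +kernel)))))
     (CovZ.n1 (7592, -5352) (by decide +kernel)
      (CovZ.n2 (7592, -5344) (by decide +kernel)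
       (CovZ.n2 (7596, -5348) (by decide +kernel)
        (CovZ.n2 (7592, -5348) (by decide +kernel)
         (CovZ.n2 (7594, -5346) (by decide +kernel)
          (CovZ.n2 (7594, -5348) (by decide +kernel)
           (CovZ.leaf K2_ok TT_l2213 _)
           (CovZ.leaf K2_ok TT_l2214 _))
          (CovZ.leaf K2_ok TT_l2215 _))
         (CovZ.n1 (7594, -5350) (by decide +kernel)
          (CovZ.n2 (7592, -5350) (by decide +kernel)
           (CovZ.leaf K2_ok TT_l2216 _)
           (CovZ.leaf K2_ok TT_l2217 _))
          (CovZ.n1 (7594, -5348) (by decide +kernel)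
           (CovZ.leaf K2_ok TT_l2218 _)
           (CovZ.leaf K2_ok TT_l2219 _))))
        (CovZ.n1 (7596, -5344) (by decide +kernel)
         (CovZ.n2 (7598, -5346) (by decide +kernel)
          (CovZ.n2 (7596, -5346) (by decide +kernel)
           (CovZ.leaf K2_ok TT_l2220 _)
           (CovZ.leaf K2_ok TT_l2221 _))
          (CovZ.n1 (7598, -5344) (by decide +kernel)
           (CovZ.leaf K2_ok TT_l2222 _)
           (CovZ.n1 (7597, -5345) (by decide +kernel)
            (CovZ.leaf K2_ok TT_l2223 _)
            (CovZ.leaf K2_ok TT_l2224 _))))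
         (CovZ.n1 (7594, -5346) (by decide +kernel)
          (CovZ.n2 (7594, -5344) (by decide +kernel)
           (CovZ.leaf K2_ok TT_l2225 _)
           (CovZ.leaf K2_ok TT_l2226 _))
          (CovZ.leaf K2_ok TT_l2227 _))))
       (CovZ.n1 (7588, -5348) (by decide +kernel)
        (CovZ.n2 (7588, -5344) (by decide +kernel)
         (CovZ.leaf K2_ok TT_l2228 _)
         (CovZ.n1 (7586, -5346) (by decide +kernel)
          (CovZ.leaf K2_ok TT_l2229 _)
          (CovZ.leaf K2_ok TT_l2230 _)))
        (CovZ.n1 (7592, -5348) (by decide +kernel)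
         (CovZ.n2 (7590, -5350) (by decide +kernel)
          (CovZ.leaf K2_ok TT_l2231 _)
          (CovZ.leaf K2_ok TT_l2232 _))
         (CovZ.n1 (7590, -5346) (by decide +kernel)
          (CovZ.leaf K2_ok TT_l2233 _)
          (CovZ.n1 (7590, -5348) (by decide +kernel)
           (CovZ.leaf K2_ok TT_l2234 _)
           (CovZ.leaf K2_ok TT_l2235 _))))))
      (CovZ.n1 (7600, -5352) (by decide +kernel)
       (CovZ.n2 (7596, -5356) (by decide +kernel)
        (CovZ.n2 (7596, -5352) (by decide +kernel)
         (CovZ.n2 (7598, -5354) (by decide +kernel)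
          (CovZ.n2 (7596, -5354) (by decide +kernel)
           (CovZ.n2 (7597, -5353) (by decide +kernel)
            (CovZ.badM (by decide +kernel))
            (CovZ.leaf K2_ok TT_l2236 _))
           (CovZ.badM (by decide +kernel)))
          (CovZ.n1 (7598, -5352) (by decide +kernel)
           (CovZ.badM (by decide +kernel))
           (CovZ.n1 (7597, -5353) (by decide +kernel)
            (CovZ.leaf K2_ok TT_l2237 _)
            (CovZ.badM (by decide +kernel)))))
         (CovZ.n1 (7594, -5354) (by decide +kernel)
          (CovZ.n2 (7594, -5352) (by decide +kernel)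
           (CovZ.leaf K2_ok TT_l2238 _)
           (CovZ.n1 (7593, -5353) (by decide +kernel)
            (CovZ.leaf K2_ok TT_l2239 _)
            (CovZ.leaf K2_ok TT_l2240 _)))
          (CovZ.n1 (7596, -5354) (by decide +kernel)
           (CovZ.n2 (7595, -5355) (by decide +kernel)
            (CovZ.leaf K2_ok TT_l2241 _)
            (CovZ.leaf K2_ok TT_l2242 _))
           (CovZ.leaf K2_ok TT_l2243 _))))
        (CovZ.badM (by decide +kernel)))
       (CovZ.n1 (7596, -5348) (by decide +kernel)
        (CovZ.n2 (7600, -5348) (by decide +kernel)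
         (CovZ.n2 (7598, -5350) (by decide +kernel)
          (CovZ.n2 (7598, -5348) (by decide +kernel)
           (CovZ.n2 (7599, -5349) (by decide +kernel)
            (CovZ.leaf K2_ok TT_l2244 _)
            (CovZ.n1 (7599, -5348) (by decide +kernel)
             (CovZ.badM (by decide +kernel))
             (CovZ.leaf K2_ok TT_l2245 _)))
           (CovZ.n1 (7597, -5349) (by decide +kernel)
            (CovZ.n2 (7597, -5348) (by decide +kernel)
             (CovZ.leaf K2_ok TT_l2246 _)
             (CovZ.leaf K2_ok TT_l2247 _))
            (CovZ.leaf K2_ok TT_l2248 _)))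
          (CovZ.badM (by decide +kernel)))
         (CovZ.n1 (7598, -5346) (by decide +kernel)
          (CovZ.n2 (7600, -5346) (by decide +kernel)
           (CovZ.n2 (7599, -5347) (by decide +kernel)
            (CovZ.leaf K2_ok TT_l2249 _)
            (CovZ.badM (by decide +kernel)))
           (CovZ.leaf K2_ok TT_l2250 _))
          (CovZ.n1 (7598, -5348) (by decide +kernel)
           (CovZ.leaf K2_ok TT_l2251 _)
           (CovZ.n1 (7599, -5347) (by decide +kernel)
            (CovZ.leaf K2_ok TT_l2252 _)
            (CovZ.leaf K2_ok TT_l2253 _)))))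
        (CovZ.n1 (7596, -5352) (by decide +kernel)
         (CovZ.n2 (7594, -5350) (by decide +kernel)
          (CovZ.n2 (7596, -5350) (by decide +kernel)
           (CovZ.n2 (7595, -5351) (by decide +kernel)
            (CovZ.leaf K2_ok TT_l2254 _)
            (CovZ.leaf K2_ok TT_l2255 _))
           (CovZ.leaf K2_ok TT_l2256 _))
          (CovZ.n1 (7594, -5352) (by decide +kernel)
           (CovZ.leaf K2_ok TT_l2257 _)
           (CovZ.leaf K2_ok TT_l2258 _)))
         (CovZ.n1 (7598, -5350) (by decide +kernel)
          (CovZ.n2 (7598, -5352) (by decide +kernel)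
           (CovZ.n2 (7597, -5351) (by decide +kernel)
            (CovZ.leaf K2_ok TT_l2259 _)
            (CovZ.leaf K2_ok TT_l2260 _))
           (CovZ.badM (by decide +kernel)))
          (CovZ.n1 (7596, -5350) (by decide +kernel)
           (CovZ.n2 (7597, -5349) (by decide +kernel)
            (CovZ.leaf K2_ok TT_l2261 _)
            (CovZ.leaf K2_ok TT_l2262 _))
           (CovZ.n1 (7597, -5351) (by decide +kernel)
            (CovZ.leaf K2_ok TT_l2263 _)
            (CovZ.leaf K2_ok TT_l2264 _)))))))))

end Pool.Agent.TET
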