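import Pool.Agent.Helper38_TET.TT_M
import Pool.Agent.Helper38_TET.TT_L
import Pool.Agent.Helper38_TET.TT_0
import Pool.Agent.Helper38_TET.TT_1
import Pool.Agent.Helper38_TET.TT_2
import Pool.Agent.Helper38_TET.TT_3
import Pool.Agent.Helper38_TET.TT_4
import Pool.Agent.Helper38_TET.TT_5
import Pool.Agent.Helper38_TET.TT_6
import Pool.Agent.Helper38_TET.TT_7
import Pool.Agent.Helper38_TET.TT_U0

/-!
# MP_c7c9bf_co: certificates, family TT
-/

set_option autoImplicit false
set_option maxRecDepth 100000

namespace Pool.Agent.TET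

theorem TT_s0_0 : SqZ TT_M TT_L [0, 7, 4, 3] 7392 (-5696) 32 0 0 :=
  SqZ.mk (a := 7392) (b := 7424) (c := (-5696)) (d := (-5664)) (by norm_num) (by norm_num) (by norm_num) (by norm_num)
    (CovZ.topM TT_LL 0 (by decide +kernel) (CovZ.badM (by decide +kernel)))
    (CovZ.topM TT_LL 2 (by decide +kernel) (CovZ.n0 (7408, -5680) (by decide +kernel)
    (CovZ.n2 (7392, -5680) (by decide +kernel)
     (CovZ.n2 (7400, -5672) (by decide +kernel)
      (CovZ.badM (by decide +kernel))
      (CovZ.n1 (7392, -5672) (by decide +kernel)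
       (CovZ.n2 (7396, -5668) (by decide +kernel)
        (CovZ.badM (by decide +kernel))
        (CovZ.n1 (7392, -5668) (by decide +kernel)
         (CovZ.n2 (7394, -5666) (by decide +kernel)
          (CovZ.badM (by decide +kernel))
          (CovZ.n1 (7392, -5666) (by decide +kernel)
           (CovZ.n2 (7393, -5665) (by decide +kernel)
            (CovZ.badM (by decide +kernel))
            (CovZ.leaf K2_ok TT_l0 _))
           (CovZ.badM (by decide +kernel))))
         (CovZ.badM (by decide +kernel))))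
       (CovZ.badM (by decide +kernel))))
     (CovZ.badM (by decide +kernel)))
    (CovZ.n1 (7408, -5664) (by decide +kernel)
     (CovZ.badM (by decide +kernel))
     (CovZ.n1 (7400, -5672) (by decide +kernel)
      (CovZ.n2 (7400, -5664) (by decide +kernel)
       (CovZ.badM (by decide +kernel))
       (CovZ.n1 (7396, -5668) (by decide +kernel)
        (CovZ.n2 (7396, -5664) (by decide +kernel)
         (CovZ.badM (by decide +kernel))
         (CovZ.n1 (7394, -5666) (by decide +kernel)
          (CovZ.n2 (7394, -5664) (by decide +kernel)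
           (CovZ.badM (by decide +kernel))
           (CovZ.n1 (7393, -5665) (by decide +kernel)
            (CovZ.n2 (7393, -5664) (by decide +kernel)
             (CovZ.badM (by decide +kernel))
             (CovZ.leaf K2_ok TT_l1 _))
            (CovZ.badM (by decide +kernel))))
          (CovZ.badM (by decide +kernel))))
        (CovZ.badM (by decide +kernel))))
      (CovZ.badM (by decide +kernel))))))

theorem TT_s1_0 : SqZ TT_M TT_L [0, 7, 4, 3] 7392 (-5696) 32 1 0 :=
  SqZ.mk (a := 7424) (b := 7456) (c := (-5696)) (d := (-5664)) (by norm_num) (by norm_num) (by norm_num) (by norm_num)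
    (CovZ.topM TT_LL 0 (by decide +kernel) (CovZ.badM (by decide +kernel)))
    (CovZ.topM TT_LL 0 (by decide +kernel) (CovZ.badM (by decide +kernel)))

theorem TT_s2_0 : SqZ TT_M TT_L [0, 7, 4, 3] 7392 (-5696) 32 2 0 :=
  SqZ.mk (a := 7456) (b := 7488) (c := (-5696)) (d := (-5664)) (by norm_num) (by norm_num) (by norm_num) (by norm_num)
    (CovZ.topM TT_LL 0 (by decide +kernel) (CovZ.badM (by decide +kernel)))
    (CovZ.topM TT_LL 0 (by decide +kernel) (CovZ.badM (by decide +kernel)))

theorem TT_s3_0 : SqZ TT_M TT_L [0, 7, 4, 3] 7392 (-5696) 32 3 0 :=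
  SqZ.mk (a := 7488) (b := 7520) (c := (-5696)) (d := (-5664)) (by norm_num) (by norm_num) (by norm_num) (by norm_num)
    (CovZ.topM TT_LL 0 (by decide +kernel) (CovZ.badM (by decide +kernel)))
    (CovZ.topM TT_LL 0 (by decide +kernel) (CovZ.badM (by decide +kernel)))

theorem TT_s4_0 : SqZ TT_M TT_L [0, 7, 4, 3] 7392 (-5696) 32 4 0 :=
  SqZ.mk (a := 7520) (b := 7552) (c := (-5696)) (d := (-5664)) (by norm_num) (by norm_num) (by norm_num) (by norm_num)
    (CovZ.topM TT_LL 0 (by decide +kernel) (CovZ.badM (by decide +kernel)))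
    (CovZ.topM TT_LL 0 (by decide +kernel) (CovZ.badM (by decide +kernel)))

theorem TT_s5_0 : SqZ TT_M TT_L [0, 7, 4, 3] 7392 (-5696) 32 5 0 :=
  SqZ.mk (a := 7552) (b := 7584) (c := (-5696)) (d := (-5664)) (by norm_num) (by norm_num) (by norm_num) (by norm_num)
    (CovZ.topM TT_LL 0 (by decide +kernel) (CovZ.badM (by decide +kernel)))
    (CovZ.topM TT_LL 0 (by decide +kernel) (CovZ.badM (by decide +kernel)))

theorem TT_s6_0 : SqZ TT_M TT_L [0, 7, 4, 3] 7392 (-5696) 32 6 0 :=
  SqZ.mk (a := 7584) (b := 7616) (c := (-5696)) (d := (-5664)) (by norm_num) (by norm_num) (by norm_num) (by norm_num)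
    (CovZ.topM TT_LL 0 (by decide +kernel) (CovZ.badM (by decide +kernel)))
    (CovZ.topM TT_LL 0 (by decide +kernel) (CovZ.badM (by decide +kernel)))

theorem TT_s7_0 : SqZ TT_M TT_L [0, 7, 4, 3] 7392 (-5696) 32 7 0 :=
  SqZ.mk (a := 7616) (b := 7648) (c := (-5696)) (d := (-5664)) (by norm_num) (by norm_num) (by norm_num) (by norm_num)
    (CovZ.topM TT_LL 0 (by decide +kernel) (CovZ.badM (by decide +kernel)))
    (CovZ.topM TT_LL 0 (by decide +kernel) (CovZ.badM (by decide +kernel)))

theorem TT_s8_0 : SqZ TT_M TT_L [0, 7, 4, 3] 7392 (-5696) 32 8 0 :=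
  SqZ.mk (a := 7648) (b := 7680) (c := (-5696)) (d := (-5664)) (by norm_num) (by norm_num) (by norm_num) (by norm_num)
    (CovZ.topM TT_LL 0 (by decide +kernel) (CovZ.badM (by decide +kernel)))
    (CovZ.topM TT_LL 0 (by decide +kernel) (CovZ.badM (by decide +kernel)))

theorem TT_s0_1 : SqZ TT_M TT_L [0, 7, 4, 3] 7392 (-5696) 32 0 1 :=
  SqZ.mk (a := 7392) (b := 7424) (c := (-5664)) (d := (-5632)) (by norm_num) (by norm_num) (by norm_num) (by norm_num)
    (CovZ.topM TT_LL 2 (by decide +kernel) (CovZ.n2 (7408, -5648) (by decide +kernel)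
    (CovZ.badM (by decide +kernel))
    (CovZ.n1 (7408, -5664) (by decide +kernel)
     (CovZ.n2 (7400, -5656) (by decide +kernel)
      (CovZ.badM (by decide +kernel))
      (CovZ.n1 (7400, -5664) (by decide +kernel)
       (CovZ.n2 (7396, -5660) (by decide +kernel)
        (CovZ.badM (by decide +kernel))
        (CovZ.n1 (7396, -5664) (by decide +kernel)
         (CovZ.n2 (7394, -5662) (by decide +kernel)
          (CovZ.n2 (7396, -5662) (by decide +kernel)
           (CovZ.n2 (7395, -5663) (by decide +kernel)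
            (CovZ.n2 (7395, -5662) (by decide +kernel)
             (CovZ.badM (by decide +kernel))
             (CovZ.leaf K2_ok TT_l2 _))
            (CovZ.badM (by decide +kernel)))
           (CovZ.n1 (7395, -5661) (by decide +kernel)
            (CovZ.n2 (7396, -5661) (by decide +kernel)
             (CovZ.leaf K2_ok TT_l3 _)
             (CovZ.leaf K2_ok TT_l4 _))
            (CovZ.leaf K2_ok TT_l5 _)))
          (CovZ.n1 (7394, -5664) (by decide +kernel)
           (CovZ.leaf K2_ok TT_l6 _)
           (CovZ.n1 (7395, -5663) (by decide +kernel)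
            (CovZ.badM (by decide +kernel))
            (CovZ.leaf K2_ok TT_l7 _))))
         (CovZ.badM (by decide +kernel))))
       (CovZ.badM (by decide +kernel))))
     (CovZ.badM (by decide +kernel)))))
    (CovZ.topM TT_LL 2 (by decide +kernel) (CovZ.n0 (7408, -5648) (by decide +kernel)
    TT_u0
    TT_u1))

theorem TT_s1_1 : SqZ TT_M TT_L [0, 7, 4, 3] 7392 (-5696) 32 1 1 :=
  SqZ.mk (a := 7424) (b := 7456) (c := (-5664)) (d := (-5632)) (by norm_num) (by norm_num) (by norm_num) (by norm_num)
    (CovZ.topM TT_LL 0 (by decide +kernel) (CovZ.badM (by decide +kernel)))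
    (CovZ.topM TT_LL 0 (by decide +kernel) (CovZ.badM (by decide +kernel)))

theorem TT_s2_1 : SqZ TT_M TT_L [0, 7, 4, 3] 7392 (-5696) 32 2 1 :=
  SqZ.mk (a := 7456) (b := 7488) (c := (-5664)) (d := (-5632)) (by norm_num) (by norm_num) (by norm_num) (by norm_num)
    (CovZ.topM TT_LL 0 (by decide +kernel) (CovZ.badM (by decide +kernel)))
    (CovZ.topM TT_LL 0 (by decide +kernel) (CovZ.badM (by decide +kernel)))

theorem TT_s3_1 : SqZ TT_M TT_L [0, 7, 4, 3] 7392 (-5696) 32 3 1 :=
  SqZ.mk (a := 7488) (b := 7520) (c := (-5664)) (d := (-5632)) (by norm_num) (by norm_num) (by norm_num) (by norm_num)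
    (CovZ.topM TT_LL 0 (by decide +kernel) (CovZ.badM (by decide +kernel)))
    (CovZ.topM TT_LL 0 (by decide +kernel) (CovZ.badM (by decide +kernel)))

theorem TT_s4_1 : SqZ TT_M TT_L [0, 7, 4, 3] 7392 (-5696) 32 4 1 :=
  SqZ.mk (a := 7520) (b := 7552) (c := (-5664)) (d := (-5632)) (by norm_num) (by norm_num) (by norm_num) (by norm_num)
    (CovZ.topM TT_LL 0 (by decide +kernel) (CovZ.badM (by decide +kernel)))
    (CovZ.topM TT_LL 0 (by decide +kernel) (CovZ.badM (by decide +kernel)))

theorem TT_s5_1 : SqZ TT_M TT_L [0, 7, 4, 3] 7392 (-5696) 32 5 1 :=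
  SqZ.mk (a := 7552) (b := 7584) (c := (-5664)) (d := (-5632)) (by norm_num) (by norm_num) (by norm_num) (by norm_num)
    (CovZ.topM TT_LL 0 (by decide +kernel) (CovZ.badM (by decide +kernel)))
    (CovZ.topM TT_LL 0 (by decide +kernel) (CovZ.badM (by decide +kernel)))

theorem TT_s6_1 : SqZ TT_M TT_L [0, 7, 4, 3] 7392 (-5696) 32 6 1 :=
  SqZ.mk (a := 7584) (b := 7616) (c := (-5664)) (d := (-5632)) (by norm_num) (by norm_num) (by norm_num) (by norm_num)
    (CovZ.topM TT_LL 0 (by decide +kernel) (CovZ.badM (by decide +kernel)))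
    (CovZ.topM TT_LL 0 (by decide +kernel) (CovZ.badM (by decide +kernel)))

theorem TT_s7_1 : SqZ TT_M TT_L [0, 7, 4, 3] 7392 (-5696) 32 7 1 :=
  SqZ.mk (a := 7616) (b := 7648) (c := (-5664)) (d := (-5632)) (by norm_num) (by norm_num) (by norm_num) (by norm_num)
    (CovZ.topM TT_LL 0 (by decide +kernel) (CovZ.badM (by decide +kernel)))
    (CovZ.topM TT_LL 0 (by decide +kernel) (CovZ.badM (by decide +kernel)))

theorem TT_s8_1 : SqZ TT_M TT_L [0, 7, 4, 3] 7392 (-5696) 32 8 1 :=
  SqZ.mk (a := 7648) (b := 7680) (c := (-5664)) (d := (-5632)) (by norm_num) (by norm_num) (by norm_num) (by norm_num)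
    (CovZ.topM TT_LL 0 (by decide +kernel) (CovZ.badM (by decide +kernel)))
    (CovZ.topM TT_LL 0 (by decide +kernel) (CovZ.badM (by decide +kernel)))

theorem TT_s0_2 : SqZ TT_M TT_L [0, 7, 4, 3] 7392 (-5696) 32 0 2 :=
  SqZ.mk (a := 7392) (b := 7424) (c := (-5632)) (d := (-5600)) (by norm_num) (by norm_num) (by norm_num) (by norm_num)
    (CovZ.topM TT_LL 2 (by decide +kernel) (CovZ.n2 (7408, -5616) (by decide +kernel)
    (CovZ.n2 (7424, -5616) (by decide +kernel)
     (CovZ.n2 (7416, -5624) (by decide +kernel)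
      (CovZ.n2 (7416, -5616) (by decide +kernel)
       (CovZ.n2 (7420, -5620) (by decide +kernel)
        (CovZ.n2 (7416, -5620) (by decide +kernel)
         (CovZ.leaf K2_ok TT_l143 _)
         (CovZ.leaf K2_ok TT_l144 _))
        (CovZ.n1 (7420, -5616) (by decide +kernel)
         (CovZ.leaf K2_ok TT_l145 _)
         (CovZ.leaf K2_ok TT_l146 _)))
       (CovZ.n1 (7412, -5620) (by decide +kernel)
        (CovZ.n2 (7412, -5616) (by decide +kernel)
         (CovZ.leaf K2_ok TT_l147 _)
         (CovZ.leaf K2_ok TT_l148 _))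
        (CovZ.leaf K2_ok TT_l149 _)))
      (CovZ.n1 (7424, -5624) (by decide +kernel)
       (CovZ.n2 (7420, -5628) (by decide +kernel)
        (CovZ.n2 (7420, -5624) (by decide +kernel)
         (CovZ.n2 (7422, -5626) (by decide +kernel)
          (CovZ.n2 (7420, -5626) (by decide +kernel)
           (CovZ.leaf K2_ok TT_l150 _)
           (CovZ.leaf K2_ok TT_l151 _))
          (CovZ.n1 (7422, -5624) (by decide +kernel)
           (CovZ.badM (by decide +kernel))
           (CovZ.n1 (7421, -5625) (by decide +kernel)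
            (CovZ.n2 (7421, -5624) (by decide +kernel)
             (CovZ.leaf K2_ok TT_l152 _)
             (CovZ.leaf K2_ok TT_l153 _))
            (CovZ.badM (by decide +kernel)))))
         (CovZ.n1 (7418, -5626) (by decide +kernel)
          (CovZ.n2 (7418, -5624) (by decide +kernel)
           (CovZ.leaf K2_ok TT_l155 _)
           (CovZ.leaf K2_ok TT_l156 _))
          (CovZ.leaf K2_ok TT_l157 _)))
        (CovZ.badM (by decide +kernel)))
       (CovZ.n1 (7420, -5620) (by decide +kernel)
        (CovZ.n2 (7424, -5620) (by decide +kernel)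
         (CovZ.n2 (7422, -5622) (by decide +kernel)
          (CovZ.n2 (7422, -5620) (by decide +kernel)
           (CovZ.leaf K2_ok TT_l158 _)
           (CovZ.leaf K2_ok TT_l159 _))
          (CovZ.n1 (7424, -5622) (by decide +kernel)
           (CovZ.leaf K2_ok TT_l160 _)
           (CovZ.leaf K2_ok TT_l161 _)))
         (CovZ.n1 (7422, -5618) (by decide +kernel)
          (CovZ.leaf K2_ok TT_l162 _)
          (CovZ.leaf K2_ok TT_l163 _)))
        (CovZ.n1 (7420, -5624) (by decide +kernel)
         (CovZ.leaf K2_ok TT_l164 _)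
         (CovZ.n1 (7422, -5622) (by decide +kernel)
          (CovZ.n2 (7422, -5624) (by decide +kernel)
           (CovZ.leaf K2_ok TT_l165 _)
           (CovZ.n1 (7423, -5623) (by decide +kernel)
            (CovZ.badM (by decide +kernel))
            (CovZ.leaf K2_ok TT_l166 _)))
          (CovZ.leaf K2_ok TT_l167 _))))))
     (CovZ.n1 (7416, -5608) (by decide +kernel)
      (CovZ.n2 (7424, -5608) (by decide +kernel)
       (CovZ.n2 (7420, -5612) (by decide +kernel)
        (CovZ.n2 (7420, -5608) (by decide +kernel)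
         (CovZ.leaf K2_ok TT_l168 _)
         (CovZ.leaf K2_ok TT_l169 _))
        (CovZ.n1 (7424, -5612) (by decide +kernel)
         (CovZ.leaf K2_ok TT_l170 _)
         (CovZ.leaf K2_ok TT_l171 _)))
       (CovZ.leaf K2_ok TT_l172 _))
      (CovZ.n1 (7416, -5616) (by decide +kernel)
       (CovZ.leaf K2_ok TT_l173 _)
       (CovZ.n1 (7420, -5612) (by decide +kernel)
        (CovZ.n2 (7420, -5616) (by decide +kernel)
         (CovZ.leaf K2_ok TT_l174 _)
         (CovZ.leaf K2_ok TT_l175 _))
        (CovZ.leaf K2_ok TT_l176 _)))))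
    (CovZ.n1 (7408, -5632) (by decide +kernel)
     (CovZ.n2 (7400, -5624) (by decide +kernel)
      (CovZ.n2 (7408, -5624) (by decide +kernel)
       (CovZ.n2 (7404, -5628) (by decide +kernel)
        (CovZ.leaf K2_ok TT_l177 _)
        (CovZ.leaf K2_ok TT_l178 _))
       (CovZ.leaf K2_ok TT_l179 _))
      (CovZ.n1 (7400, -5632) (by decide +kernel)
       (CovZ.leaf K2_ok TT_l180 _)
       (CovZ.n1 (7404, -5628) (by decide +kernel)
        (CovZ.leaf K2_ok TT_l181 _)
        (CovZ.leaf K2_ok TT_l182 _))))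
     (CovZ.n1 (7416, -5624) (by decide +kernel)
      (CovZ.n2 (7416, -5632) (by decide +kernel)
       (CovZ.n2 (7412, -5628) (by decide +kernel)
        (CovZ.n2 (7416, -5628) (by decide +kernel)
         (CovZ.n2 (7414, -5630) (by decide +kernel)
          (CovZ.leaf K2_ok TT_l183 _)
          (CovZ.leaf K2_ok TT_l184 _))
         (CovZ.leaf K2_ok TT_l185 _))
        (CovZ.n1 (7412, -5632) (by decide +kernel)
         (CovZ.leaf K2_ok TT_l186 _)
         (CovZ.n1 (7414, -5630) (by decide +kernel)
          (CovZ.n2 (7414, -5632) (by decide +kernel)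
           (CovZ.leaf K2_ok TT_l187 _)
           (CovZ.leaf K2_ok TT_l188 _))
          (CovZ.leaf K2_ok TT_l189 _))))
       (CovZ.n1 (7420, -5628) (by decide +kernel)
        (CovZ.badM (by decide +kernel))
        (CovZ.n1 (7416, -5628) (by decide +kernel)
         (CovZ.n2 (7418, -5626) (by decide +kernel)
          (CovZ.n2 (7418, -5628) (by decide +kernel)
           (CovZ.leaf K2_ok TT_l191 _)
           (CovZ.leaf K2_ok TT_l192 _))
          (CovZ.leaf K2_ok TT_l193 _))
         (CovZ.n1 (7418, -5630) (by decide +kernel)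
          (CovZ.n2 (7416, -5630) (by decide +kernel)
           (CovZ.leaf K2_ok TT_l194 _)
           (CovZ.leaf K2_ok TT_l195 _))
          (CovZ.n1 (7418, -5628) (by decide +kernel)
           (CovZ.leaf K2_ok TT_l196 _)
           (CovZ.leaf K2_ok TT_l197 _))))))
      (CovZ.n1 (7408, -5624) (by decide +kernel)
       (CovZ.n2 (7412, -5620) (by decide +kernel)
        (CovZ.n2 (7412, -5624) (by decide +kernel)
         (CovZ.leaf K2_ok TT_l198 _)
         (CovZ.leaf K2_ok TT_l199 _))
        (CovZ.leaf K2_ok TT_l200 _))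
       (CovZ.n1 (7412, -5628) (by decide +kernel)
        (CovZ.n2 (7408, -5628) (by decide +kernel)
         (CovZ.leaf K2_ok TT_l201 _)
         (CovZ.leaf K2_ok TT_l202 _))
        (CovZ.n1 (7412, -5624) (by decide +kernel)
         (CovZ.leaf K2_ok TT_l203 _)
         (CovZ.leaf K2_ok TT_l204 _))))))))
    (CovZ.topM TT_LL 6 (by decide +kernel) (CovZ.n0 (7408, -5616) (by decide +kernel)
    (CovZ.n2 (7392, -5616) (by decide +kernel)
     (CovZ.n2 (7400, -5608) (by decide +kernel)
      (CovZ.n2 (7400, -5616) (by decide +kernel)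
       (CovZ.leaf K2_ok TT_l205 _)
       (CovZ.leaf K2_ok TT_l206 _))
      (CovZ.leaf K2_ok TT_l207 _))
     (CovZ.n1 (7400, -5624) (by decide +kernel)
      (CovZ.n2 (7392, -5624) (by decide +kernel)
       (CovZ.leaf K2_ok TT_l208 _)
       (CovZ.leaf K2_ok TT_l209 _))
      (CovZ.n1 (7400, -5616) (by decide +kernel)
       (CovZ.leaf K2_ok TT_l210 _)
       (CovZ.leaf K2_ok TT_l211 _))))
    (CovZ.n1 (7408, -5600) (by decide +kernel)
     (CovZ.n2 (7416, -5608) (by decide +kernel)
      (CovZ.n2 (7408, -5608) (by decide +kernel)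
       (CovZ.leaf K2_ok TT_l212 _)
       (CovZ.leaf K2_ok TT_l213 _))
      (CovZ.n1 (7416, -5600) (by decide +kernel)
       (CovZ.leaf K2_ok TT_l214 _)
       (CovZ.leaf K2_ok TT_l215 _)))
     (CovZ.n1 (7400, -5608) (by decide +kernel)
      (CovZ.leaf K2_ok TT_l216 _)
      (CovZ.leaf K2_ok TT_l217 _)))))

theorem TT_s1_2 : SqZ TT_M TT_L [0, 7, 4, 3] 7392 (-5696) 32 1 2 :=
  SqZ.mk (a := 7424) (b := 7456) (c := (-5632)) (d := (-5600)) (by norm_num) (by norm_num) (by norm_num) (by norm_num)
    (CovZ.topM TT_LL 0 (by decide +kernel) (CovZ.badM (by decide +kernel)))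
    (CovZ.topM TT_LL 2 (by decide +kernel) (CovZ.n0 (7440, -5616) (by decide +kernel)
    (CovZ.n2 (7424, -5616) (by decide +kernel)
     (CovZ.n2 (7432, -5608) (by decide +kernel)
      (CovZ.n2 (7432, -5616) (by decide +kernel)
       (CovZ.n2 (7428, -5612) (by decide +kernel)
        (CovZ.n2 (7432, -5612) (by decide +kernel)
         (CovZ.n2 (7430, -5614) (by decide +kernel)
          (CovZ.n2 (7430, -5612) (by decide +kernel)
           (CovZ.leaf K2_ok TT_l253 _)
           (CovZ.leaf K2_ok TT_l254 _))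
          (CovZ.badM (by decide +kernel)))
         (CovZ.n1 (7430, -5610) (by decide +kernel)
          (CovZ.leaf K2_ok TT_l255 _)
          (CovZ.n1 (7430, -5612) (by decide +kernel)
           (CovZ.leaf K2_ok TT_l256 _)
           (CovZ.n1 (7431, -5611) (by decide +kernel)
            (CovZ.leaf K2_ok TT_l257 _)
            (CovZ.leaf K2_ok TT_l258 _)))))
        (CovZ.n1 (7428, -5616) (by decide +kernel)
         (CovZ.n2 (7426, -5614) (by decide +kernel)
          (CovZ.leaf K2_ok TT_l259 _)
          (CovZ.leaf K2_ok TT_l260 _))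
         (CovZ.n1 (7430, -5614) (by decide +kernel)
          (CovZ.badM (by decide +kernel))
          (CovZ.n1 (7428, -5614) (by decide +kernel)
           (CovZ.n2 (7429, -5613) (by decide +kernel)
            (CovZ.leaf K2_ok TT_l261 _)
            (CovZ.leaf K2_ok TT_l262 _))
           (CovZ.leaf K2_ok TT_l263 _)))))
       (CovZ.n1 (7436, -5612) (by decide +kernel)
        (CovZ.badM (by decide +kernel))
        (CovZ.n1 (7432, -5612) (by decide +kernel)
         (CovZ.n2 (7434, -5610) (by decide +kernel)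
          (CovZ.badM (by decide +kernel))
          (CovZ.n1 (7432, -5610) (by decide +kernel)
           (CovZ.leaf K2_ok TT_l264 _)
           (CovZ.badM (by decide +kernel))))
         (CovZ.badM (by decide +kernel)))))
      (CovZ.n1 (7424, -5608) (by decide +kernel)
       (CovZ.n2 (7428, -5604) (by decide +kernel)
        (CovZ.n2 (7428, -5608) (by decide +kernel)
         (CovZ.leaf K2_ok TT_l266 _)
         (CovZ.n1 (7430, -5606) (by decide +kernel)
          (CovZ.leaf K2_ok TT_l267 _)
          (CovZ.leaf K2_ok TT_l268 _)))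
        (CovZ.leaf K2_ok TT_l269 _))
       (CovZ.n1 (7428, -5612) (by decide +kernel)
        (CovZ.n2 (7424, -5612) (by decide +kernel)
         (CovZ.n2 (7426, -5610) (by decide +kernel)
          (CovZ.leaf K2_ok TT_l270 _)
          (CovZ.leaf K2_ok TT_l271 _))
         (CovZ.n1 (7426, -5614) (by decide +kernel)
          (CovZ.leaf K2_ok TT_l272 _)
          (CovZ.leaf K2_ok TT_l273 _)))
        (CovZ.n1 (7428, -5608) (by decide +kernel)
         (CovZ.n2 (7430, -5610) (by decide +kernel)
          (CovZ.leaf K2_ok TT_l274 _)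
          (CovZ.leaf K2_ok TT_l275 _))
         (CovZ.n1 (7426, -5610) (by decide +kernel)
          (CovZ.leaf K2_ok TT_l276 _)
          (CovZ.leaf K2_ok TT_l277 _))))))
     (CovZ.n1 (7432, -5624) (by decide +kernel)
      (CovZ.n2 (7424, -5624) (by decide +kernel)
       (CovZ.n2 (7428, -5620) (by decide +kernel)
        (CovZ.badM (by decide +kernel))
        (CovZ.n1 (7424, -5620) (by decide +kernel)
         (CovZ.n2 (7426, -5618) (by decide +kernel)
          (CovZ.n2 (7426, -5620) (by decide +kernel)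
           (CovZ.leaf K2_ok TT_l278 _)
           (CovZ.badM (by decide +kernel)))
          (CovZ.n1 (7424, -5618) (by decide +kernel)
           (CovZ.leaf K2_ok TT_l280 _)
           (CovZ.leaf K2_ok TT_l281 _)))
         (CovZ.n1 (7426, -5622) (by decide +kernel)
          (CovZ.n2 (7424, -5622) (by decide +kernel)
           (CovZ.n2 (7425, -5621) (by decide +kernel)
            (CovZ.badM (by decide +kernel))
            (CovZ.leaf K2_ok TT_l282 _))
           (CovZ.badM (by decide +kernel)))
          (CovZ.n1 (7426, -5620) (by decide +kernel)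
           (CovZ.badM (by decide +kernel))
           (CovZ.leaf K2_ok TT_l283 _)))))
       (CovZ.badM (by decide +kernel)))
      (CovZ.n1 (7432, -5616) (by decide +kernel)
       (CovZ.badM (by decide +kernel))
       (CovZ.n1 (7428, -5620) (by decide +kernel)
        (CovZ.n2 (7428, -5616) (by decide +kernel)
         (CovZ.badM (by decide +kernel))
         (CovZ.n1 (7426, -5618) (by decide +kernel)
          (CovZ.n2 (7426, -5616) (by decide +kernel)
           (CovZ.leaf K2_ok TT_l284 _)
           (CovZ.leaf K2_ok TT_l285 _))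
          (CovZ.badM (by decide +kernel))))
        (CovZ.badM (by decide +kernel))))))
    (CovZ.n1 (7440, -5600) (by decide +kernel)
     (CovZ.badM (by decide +kernel))
     (CovZ.n1 (7432, -5608) (by decide +kernel)
      (CovZ.n2 (7432, -5600) (by decide +kernel)
       (CovZ.n2 (7436, -5604) (by decide +kernel)
        (CovZ.n2 (7432, -5604) (by decide +kernel)
         (CovZ.n2 (7434, -5602) (by decide +kernel)
          (CovZ.leaf K2_ok TT_l288 _)
          (CovZ.leaf K2_ok TT_l289 _))
         (CovZ.n1 (7434, -5606) (by decide +kernel)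
          (CovZ.leaf K2_ok TT_l290 _)
          (CovZ.n1 (7434, -5604) (by decide +kernel)
           (CovZ.leaf K2_ok TT_l291 _)
           (CovZ.leaf K2_ok TT_l292 _))))
        (CovZ.n1 (7436, -5600) (by decide +kernel)
         (CovZ.n2 (7438, -5602) (by decide +kernel)
          (CovZ.n2 (7436, -5602) (by decide +kernel)
           (CovZ.leaf K2_ok TT_l293 _)
           (CovZ.leaf K2_ok TT_l294 _))
          (CovZ.n1 (7438, -5600) (by decide +kernel)
           (CovZ.n2 (7439, -5601) (by decide +kernel)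
            (CovZ.leaf K2_ok TT_l295 _)
            (CovZ.leaf K2_ok TT_l296 _))
           (CovZ.leaf K2_ok TT_l297 _)))
         (CovZ.n1 (7434, -5602) (by decide +kernel)
          (CovZ.leaf K2_ok TT_l298 _)
          (CovZ.leaf K2_ok TT_l299 _))))
       (CovZ.n1 (7428, -5604) (by decide +kernel)
        (CovZ.n2 (7428, -5600) (by decide +kernel)
         (CovZ.leaf K2_ok TT_l300 _)
         (CovZ.leaf K2_ok TT_l301 _))
        (CovZ.n1 (7432, -5604) (by decide +kernel)
         (CovZ.n2 (7430, -5606) (by decide +kernel)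
          (CovZ.leaf K2_ok TT_l302 _)
          (CovZ.leaf K2_ok TT_l303 _))
         (CovZ.leaf K2_ok TT_l304 _))))
      (CovZ.n1 (7440, -5608) (by decide +kernel)
       (CovZ.n2 (7436, -5612) (by decide +kernel)
        (CovZ.n2 (7436, -5608) (by decide +kernel)
         (CovZ.badM (by decide +kernel))
         (CovZ.n1 (7434, -5610) (by decide +kernel)
          (CovZ.n2 (7434, -5608) (by decide +kernel)
           (CovZ.badM (by decide +kernel))
           (CovZ.leaf K2_ok TT_l305 _))
          (CovZ.badM (by decide +kernel))))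
        (CovZ.badM (by decide +kernel)))
       (CovZ.n1 (7436, -5604) (by decide +kernel)
        (CovZ.badM (by decide +kernel))
        (CovZ.n1 (7436, -5608) (by decide +kernel)
         (CovZ.n2 (7434, -5606) (by decide +kernel)
          (CovZ.n2 (7436, -5606) (by decide +kernel)
           (CovZ.n2 (7435, -5607) (by decide +kernel)
            (CovZ.leaf K2_ok TT_l308 _)
            (CovZ.badM (by decide +kernel)))
           (CovZ.leaf K2_ok TT_l309 _))
          (CovZ.n1 (7434, -5608) (by decide +kernel)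
           (CovZ.leaf K2_ok TT_l310 _)
           (CovZ.leaf K2_ok TT_l311 _)))
         (CovZ.badM (by decide +kernel)))))))))

theorem TT_s2_2 : SqZ TT_M TT_L [0, 7, 4, 3] 7392 (-5696) 32 2 2 :=
  SqZ.mk (a := 7456) (b := 7488) (c := (-5632)) (d := (-5600)) (by norm_num) (by norm_num) (by norm_num) (by norm_num)
    (CovZ.topM TT_LL 0 (by decide +kernel) (CovZ.badM (by decide +kernel)))
    (CovZ.topM TT_LL 0 (by decide +kernel) (CovZ.badM (by decide +kernel)))

theorem TT_s3_2 : SqZ TT_M TT_L [0, 7, 4, 3] 7392 (-5696) 32 3 2 :=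
  SqZ.mk (a := 7488) (b := 7520) (c := (-5632)) (d := (-5600)) (by norm_num) (by norm_num) (by norm_num) (by norm_num)
    (CovZ.topM TT_LL 0 (by decide +kernel) (CovZ.badM (by decide +kernel)))
    (CovZ.topM TT_LL 0 (by decide +kernel) (CovZ.badM (by decide +kernel)))

theorem TT_s4_2 : SqZ TT_M TT_L [0, 7, 4, 3] 7392 (-5696) 32 4 2 :=
  SqZ.mk (a := 7520) (b := 7552) (c := (-5632)) (d := (-5600)) (by norm_num) (by norm_num) (by norm_num) (by norm_num)
    (CovZ.topM TT_LL 0 (by decide +kernel) (CovZ.badM (by decide +kernel)))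
    (CovZ.topM TT_LL 0 (by decide +kernel) (CovZ.badM (by decide +kernel)))

theorem TT_s5_2 : SqZ TT_M TT_L [0, 7, 4, 3] 7392 (-5696) 32 5 2 :=
  SqZ.mk (a := 7552) (b := 7584) (c := (-5632)) (d := (-5600)) (by norm_num) (by norm_num) (by norm_num) (by norm_num)
    (CovZ.topM TT_LL 0 (by decide +kernel) (CovZ.badM (by decide +kernel)))
    (CovZ.topM TT_LL 0 (by decide +kernel) (CovZ.badM (by decide +kernel)))

theorem TT_s6_2 : SqZ TT_M TT_L [0, 7, 4, 3] 7392 (-5696) 32 6 2 :=
  SqZ.mk (a := 7584) (b := 7616) (c := (-5632)) (d := (-5600)) (by norm_num) (by norm_num) (by norm_num) (by norm_num)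
    (CovZ.topM TT_LL 0 (by decide +kernel) (CovZ.badM (by decide +kernel)))
    (CovZ.topM TT_LL 0 (by decide +kernel) (CovZ.badM (by decide +kernel)))

theorem TT_s7_2 : SqZ TT_M TT_L [0, 7, 4, 3] 7392 (-5696) 32 7 2 :=
  SqZ.mk (a := 7616) (b := 7648) (c := (-5632)) (d := (-5600)) (by norm_num) (by norm_num) (by norm_num) (by norm_num)
    (CovZ.topM TT_LL 0 (by decide +kernel) (CovZ.badM (by decide +kernel)))
    (CovZ.topM TT_LL 0 (by decide +kernel) (CovZ.badM (by decide +kernel)))

theorem TT_s8_2 : SqZ TT_M TT_L [0, 7, 4, 3] 7392 (-5696) 32 8 2 :=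
  SqZ.mk (a := 7648) (b := 7680) (c := (-5632)) (d := (-5600)) (by norm_num) (by norm_num) (by norm_num) (by norm_num)
    (CovZ.topM TT_LL 0 (by decide +kernel) (CovZ.badM (by decide +kernel)))
    (CovZ.topM TT_LL 0 (by decide +kernel) (CovZ.badM (by decide +kernel)))

theorem TT_s0_3 : SqZ TT_M TT_L [0, 7, 4, 3] 7392 (-5696) 32 0 3 :=
  SqZ.mk (a := 7392) (b := 7424) (c := (-5600)) (d := (-5568)) (by norm_num) (by norm_num) (by norm_num) (by norm_num)
    (CovZ.topM TT_LL 6 (by decide +kernel) (CovZ.n2 (7408, -5584) (by decide +kernel)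
    (CovZ.n2 (7424, -5584) (by decide +kernel)
     (CovZ.n2 (7416, -5592) (by decide +kernel)
      (CovZ.leaf K2_ok TT_l218 _)
      (CovZ.leaf K2_ok TT_l219 _))
     (CovZ.leaf K2_ok TT_l220 _))
    (CovZ.n1 (7408, -5600) (by decide +kernel)
     (CovZ.leaf K2_ok TT_l221 _)
     (CovZ.n1 (7416, -5592) (by decide +kernel)
      (CovZ.n2 (7416, -5600) (by decide +kernel)
       (CovZ.leaf K2_ok TT_l222 _)
       (CovZ.leaf K2_ok TT_l223 _))
      (CovZ.leaf K2_ok TT_l224 _)))))
    (CovZ.topM TT_LL 6 (by decide +kernel) (CovZ.n0 (7408, -5584) (by decide +kernel)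
    (CovZ.n2 (7392, -5584) (by decide +kernel)
     (CovZ.leaf K2_ok TT_l225 _)
     (CovZ.leaf K2_ok TT_l226 _))
    (CovZ.n1 (7408, -5568) (by decide +kernel)
     (CovZ.leaf K2_ok TT_l227 _)
     (CovZ.n1 (7400, -5576) (by decide +kernel)
      (CovZ.leaf K2_ok TT_l228 _)
      (CovZ.leaf K2_ok TT_l229 _)))))

theorem TT_s1_3 : SqZ TT_M TT_L [0, 7, 4, 3] 7392 (-5696) 32 1 3 :=
  SqZ.mk (a := 7424) (b := 7456) (c := (-5600)) (d := (-5568)) (by norm_num) (by norm_num) (by norm_num) (by norm_num)
    (CovZ.topM TT_LL 3 (by decide +kernel) (CovZ.n2 (7440, -5584) (by decide +kernel)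
    (CovZ.n2 (7456, -5584) (by decide +kernel)
     (CovZ.n2 (7448, -5592) (by decide +kernel)
      (CovZ.n2 (7448, -5584) (by decide +kernel)
       (CovZ.n2 (7452, -5588) (by decide +kernel)
        (CovZ.n2 (7448, -5588) (by decide +kernel)
         (CovZ.n2 (7450, -5586) (by decide +kernel)
          (CovZ.badM (by decide +kernel))
          (CovZ.leaf K2_ok TT_l314 _))
         (CovZ.badM (by decide +kernel)))
        (CovZ.n1 (7452, -5584) (by decide +kernel)
         (CovZ.n2 (7454, -5586) (by decide +kernel)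
          (CovZ.n2 (7452, -5586) (by decide +kernel)
           (CovZ.n2 (7453, -5585) (by decide +kernel)
            (CovZ.n2 (7453, -5586) (by decide +kernel)
             (CovZ.leaf K2_ok TT_l317 _)
             (CovZ.badM (by decide +kernel)))
            (CovZ.leaf K2_ok TT_l318 _))
           (CovZ.n1 (7453, -5587) (by decide +kernel)
            (CovZ.badM (by decide +kernel))
            (CovZ.n1 (7453, -5586) (by decide +kernel)
             (CovZ.badM (by decide +kernel))
             (CovZ.badM (by decide +kernel)))))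
          (CovZ.n1 (7454, -5584) (by decide +kernel)
           (CovZ.badM (by decide +kernel))
           (CovZ.n1 (7453, -5585) (by decide +kernel)
            (CovZ.leaf K2_ok TT_l319 _)
            (CovZ.badM (by decide +kernel)))))
         (CovZ.n1 (7450, -5586) (by decide +kernel)
          (CovZ.n2 (7450, -5584) (by decide +kernel)
           (CovZ.leaf K2_ok TT_l320 _)
           (CovZ.leaf K2_ok TT_l321 _))
          (CovZ.badM (by decide +kernel)))))
       (CovZ.n1 (7444, -5588) (by decide +kernel)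
        (CovZ.n2 (7444, -5584) (by decide +kernel)
         (CovZ.leaf K2_ok TT_l322 _)
         (CovZ.leaf K2_ok TT_l323 _))
        (CovZ.n1 (7448, -5588) (by decide +kernel)
         (CovZ.n2 (7446, -5590) (by decide +kernel)
          (CovZ.n2 (7446, -5588) (by decide +kernel)
           (CovZ.leaf K2_ok TT_l324 _)
           (CovZ.leaf K2_ok TT_l325 _))
          (CovZ.n1 (7448, -5590) (by decide +kernel)
           (CovZ.n2 (7447, -5591) (by decide +kernel)
            (CovZ.leaf K2_ok TT_l326 _)
            (CovZ.badM (by decide +kernel)))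
           (CovZ.leaf K2_ok TT_l327 _)))
         (CovZ.n1 (7446, -5586) (by decide +kernel)
          (CovZ.leaf K2_ok TT_l328 _)
          (CovZ.leaf K2_ok TT_l329 _)))))
      (CovZ.n1 (7456, -5592) (by decide +kernel)
       (CovZ.badM (by decide +kernel))
       (CovZ.n1 (7452, -5588) (by decide +kernel)
        (CovZ.badM (by decide +kernel))
        (CovZ.badM (by decide +kernel)))))
     (CovZ.n1 (7448, -5576) (by decide +kernel)
      (CovZ.n2 (7456, -5576) (by decide +kernel)
       (CovZ.n2 (7452, -5580) (by decide +kernel)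
        (CovZ.n2 (7452, -5576) (by decide +kernel)
         (CovZ.n2 (7454, -5578) (by decide +kernel)
          (CovZ.leaf K2_ok TT_l330 _)
          (CovZ.leaf K2_ok TT_l331 _))
         (CovZ.n1 (7450, -5578) (by decide +kernel)
          (CovZ.leaf K2_ok TT_l332 _)
          (CovZ.leaf K2_ok TT_l333 _)))
        (CovZ.n1 (7456, -5580) (by decide +kernel)
         (CovZ.n2 (7454, -5582) (by decide +kernel)
          (CovZ.n2 (7454, -5580) (by decide +kernel)
           (CovZ.leaf K2_ok TT_l334 _)
           (CovZ.n1 (7453, -5581) (by decide +kernel)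
            (CovZ.leaf K2_ok TT_l335 _)
            (CovZ.leaf K2_ok TT_l336 _)))
          (CovZ.n1 (7456, -5582) (by decide +kernel)
           (CovZ.n2 (7455, -5583) (by decide +kernel)
            (CovZ.n2 (7455, -5582) (by decide +kernel)
             (CovZ.leaf K2_ok TT_l337 _)
             (CovZ.leaf K2_ok TT_l338 _))
            (CovZ.badM (by decide +kernel)))
           (CovZ.leaf K2_ok TT_l339 _)))
         (CovZ.n1 (7454, -5578) (by decide +kernel)
          (CovZ.leaf K2_ok TT_l340 _)
          (CovZ.n1 (7454, -5580) (by decide +kernel)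
           (CovZ.leaf K2_ok TT_l341 _)
           (CovZ.n1 (7455, -5579) (by decide +kernel)
            (CovZ.leaf K2_ok TT_l342 _)
            (CovZ.leaf K2_ok TT_l343 _))))))
       (CovZ.n1 (7452, -5572) (by decide +kernel)
        (CovZ.n2 (7456, -5572) (by decide +kernel)
         (CovZ.n2 (7454, -5574) (by decide +kernel)
          (CovZ.leaf K2_ok TT_l344 _)
          (CovZ.leaf K2_ok TT_l345 _))
         (CovZ.leaf K2_ok TT_l346 _))
        (CovZ.n1 (7452, -5576) (by decide +kernel)
         (CovZ.leaf K2_ok TT_l347 _)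
         (CovZ.n1 (7454, -5574) (by decide +kernel)
          (CovZ.leaf K2_ok TT_l348 _)
          (CovZ.leaf K2_ok TT_l349 _)))))
      (CovZ.n1 (7448, -5584) (by decide +kernel)
       (CovZ.n2 (7444, -5580) (by decide +kernel)
        (CovZ.n2 (7448, -5580) (by decide +kernel)
         (CovZ.n2 (7446, -5582) (by decide +kernel)
          (CovZ.leaf K2_ok TT_l350 _)
          (CovZ.leaf K2_ok TT_l351 _))
         (CovZ.leaf K2_ok TT_l352 _))
        (CovZ.n1 (7444, -5584) (by decide +kernel)
         (CovZ.leaf K2_ok TT_l353 _)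
         (CovZ.leaf K2_ok TT_l354 _)))
       (CovZ.n1 (7452, -5580) (by decide +kernel)
        (CovZ.n2 (7452, -5584) (by decide +kernel)
         (CovZ.n2 (7450, -5582) (by decide +kernel)
          (CovZ.leaf K2_ok TT_l355 _)
          (CovZ.n1 (7450, -5584) (by decide +kernel)
           (CovZ.leaf K2_ok TT_l356 _)
           (CovZ.leaf K2_ok TT_l357 _)))
         (CovZ.n1 (7454, -5582) (by decide +kernel)
          (CovZ.n2 (7454, -5584) (by decide +kernel)
           (CovZ.leaf K2_ok TT_l358 _)
           (CovZ.n1 (7455, -5583) (by decide +kernel)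
            (CovZ.badM (by decide +kernel))
            (CovZ.leaf K2_ok TT_l359 _)))
          (CovZ.n1 (7452, -5582) (by decide +kernel)
           (CovZ.leaf K2_ok TT_l360 _)
           (CovZ.leaf K2_ok TT_l361 _))))
        (CovZ.n1 (7448, -5580) (by decide +kernel)
         (CovZ.n2 (7450, -5578) (by decide +kernel)
          (CovZ.leaf K2_ok TT_l362 _)
          (CovZ.leaf K2_ok TT_l363 _))
         (CovZ.n1 (7450, -5582) (by decide +kernel)
          (CovZ.leaf K2_ok TT_l364 _)
          (CovZ.leaf K2_ok TT_l365 _)))))))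
    (CovZ.n1 (7440, -5600) (by decide +kernel)
     (CovZ.n2 (7432, -5592) (by decide +kernel)
      (CovZ.n2 (7440, -5592) (by decide +kernel)
       (CovZ.n2 (7436, -5596) (by decide +kernel)
        (CovZ.n2 (7436, -5592) (by decide +kernel)
         (CovZ.leaf K2_ok TT_l366 _)
         (CovZ.leaf K2_ok TT_l367 _))
        (CovZ.n1 (7440, -5596) (by decide +kernel)
         (CovZ.n2 (7438, -5598) (by decide +kernel)
          (CovZ.leaf K2_ok TT_l368 _)
          (CovZ.leaf K2_ok TT_l369 _))
         (CovZ.leaf K2_ok TT_l370 _)))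
       (CovZ.n1 (7436, -5588) (by decide +kernel)
        (CovZ.leaf K2_ok TT_l371 _)
        (CovZ.n1 (7436, -5592) (by decide +kernel)
         (CovZ.leaf K2_ok TT_l372 _)
         (CovZ.leaf K2_ok TT_l373 _))))
      (CovZ.n1 (7432, -5600) (by decide +kernel)
       (CovZ.n2 (7428, -5596) (by decide +kernel)
        (CovZ.leaf K2_ok TT_l374 _)
        (CovZ.leaf K2_ok TT_l375 _))
       (CovZ.n1 (7436, -5596) (by decide +kernel)
        (CovZ.n2 (7436, -5600) (by decide +kernel)
         (CovZ.leaf K2_ok TT_l376 _)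
         (CovZ.n1 (7438, -5598) (by decide +kernel)
          (CovZ.n2 (7438, -5600) (by decide +kernel)
           (CovZ.leaf K2_ok TT_l377 _)
           (CovZ.n1 (7439, -5599) (by decide +kernel)
            (CovZ.leaf K2_ok TT_l378 _)
            (CovZ.leaf K2_ok TT_l379 _)))
          (CovZ.leaf K2_ok TT_l380 _)))
        (CovZ.n1 (7432, -5596) (by decide +kernel)
         (CovZ.leaf K2_ok TT_l381 _)
         (CovZ.leaf K2_ok TT_l382 _)))))
     (CovZ.n1 (7448, -5592) (by decide +kernel)
      (CovZ.badM (by decide +kernel))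
      (CovZ.n1 (7440, -5592) (by decide +kernel)
       (CovZ.n2 (7444, -5588) (by decide +kernel)
        (CovZ.n2 (7444, -5592) (by decide +kernel)
         (CovZ.leaf K2_ok TT_l383 _)
         (CovZ.n1 (7446, -5590) (by decide +kernel)
          (CovZ.n2 (7446, -5592) (by decide +kernel)
           (CovZ.leaf K2_ok TT_l384 _)
           (CovZ.n1 (7447, -5591) (by decide +kernel)
            (CovZ.badM (by decide +kernel))
            (CovZ.leaf K2_ok TT_l385 _)))
          (CovZ.leaf K2_ok TT_l386 _)))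
        (CovZ.n1 (7440, -5588) (by decide +kernel)
         (CovZ.leaf K2_ok TT_l387 _)
         (CovZ.leaf K2_ok TT_l388 _)))
       (CovZ.n1 (7444, -5596) (by decide +kernel)
        (CovZ.n2 (7440, -5596) (by decide +kernel)
         (CovZ.n2 (7442, -5594) (by decide +kernel)
          (CovZ.n2 (7442, -5596) (by decide +kernel)
           (CovZ.leaf K2_ok TT_l389 _)
           (CovZ.leaf K2_ok TT_l390 _))
          (CovZ.leaf K2_ok TT_l391 _))
         (CovZ.n1 (7442, -5598) (by decide +kernel)
          (CovZ.n2 (7440, -5598) (by decide +kernel)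
           (CovZ.leaf K2_ok TT_l392 _)
           (CovZ.leaf K2_ok TT_l393 _))
          (CovZ.n1 (7442, -5596) (by decide +kernel)
           (CovZ.badM (by decide +kernel))
           (CovZ.leaf K2_ok TT_l395 _))))
        (CovZ.n1 (7444, -5592) (by decide +kernel)
         (CovZ.n2 (7446, -5594) (by decide +kernel)
          (CovZ.n2 (7444, -5594) (by decide +kernel)
           (CovZ.n2 (7445, -5593) (by decide +kernel)
            (CovZ.badM (by decide +kernel))
            (CovZ.leaf K2_ok TT_l396 _))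
           (CovZ.badM (by decide +kernel)))
          (CovZ.n1 (7446, -5592) (by decide +kernel)
           (CovZ.badM (by decide +kernel))
           (CovZ.n1 (7445, -5593) (by decide +kernel)
            (CovZ.leaf K2_ok TT_l397 _)
            (CovZ.badM (by decide +kernel)))))
         (CovZ.n1 (7442, -5594) (by decide +kernel)
          (CovZ.leaf K2_ok TT_l398 _)
          (CovZ.leaf K2_ok TT_l399 _)))))))))
    (CovZ.topM TT_LL 7 (by decide +kernel) (CovZ.n0 (7440, -5584) (by decide +kernel)
    (CovZ.n2 (7424, -5584) (by decide +kernel)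
     (CovZ.n2 (7432, -5576) (by decide +kernel)
      (CovZ.n2 (7432, -5584) (by decide +kernel)
       (CovZ.leaf K2_ok TT_l400 _)
       (CovZ.n1 (7436, -5580) (by decide +kernel)
        (CovZ.leaf K2_ok TT_l401 _)
        (CovZ.leaf K2_ok TT_l402 _)))
      (CovZ.leaf K2_ok TT_l403 _))
     (CovZ.n1 (7432, -5592) (by decide +kernel)
      (CovZ.n2 (7424, -5592) (by decide +kernel)
       (CovZ.n2 (7428, -5588) (by decide +kernel)
        (CovZ.leaf K2_ok TT_l404 _)
        (CovZ.leaf K2_ok TT_l405 _))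
       (CovZ.n1 (7428, -5596) (by decide +kernel)
        (CovZ.leaf K2_ok TT_l406 _)
        (CovZ.leaf K2_ok TT_l407 _)))
      (CovZ.n1 (7432, -5584) (by decide +kernel)
       (CovZ.n2 (7436, -5588) (by decide +kernel)
        (CovZ.leaf K2_ok TT_l408 _)
        (CovZ.leaf K2_ok TT_l409 _))
       (CovZ.n1 (7428, -5588) (by decide +kernel)
        (CovZ.leaf K2_ok TT_l410 _)
        (CovZ.leaf K2_ok TT_l411 _)))))
    (CovZ.n1 (7440, -5568) (by decide +kernel)
     (CovZ.n2 (7448, -5576) (by decide +kernel)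
      (CovZ.n2 (7440, -5576) (by decide +kernel)
       (CovZ.n2 (7444, -5572) (by decide +kernel)
        (CovZ.leaf K2_ok TT_l412 _)
        (CovZ.leaf K2_ok TT_l413 _))
       (CovZ.n1 (7444, -5580) (by decide +kernel)
        (CovZ.leaf K2_ok TT_l414 _)
        (CovZ.n1 (7444, -5576) (by decide +kernel)
         (CovZ.leaf K2_ok TT_l415 _)
         (CovZ.leaf K2_ok TT_l416 _))))
      (CovZ.n1 (7448, -5568) (by decide +kernel)
       (CovZ.n2 (7452, -5572) (by decide +kernel)
        (CovZ.leaf K2_ok TT_l417 _)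
        (CovZ.n1 (7452, -5568) (by decide +kernel)
         (CovZ.leaf K2_ok TT_l418 _)
         (CovZ.leaf K2_ok TT_l419 _)))
       (CovZ.n1 (7444, -5572) (by decide +kernel)
        (CovZ.leaf K2_ok TT_l420 _)
        (CovZ.leaf K2_ok TT_l421 _))))
     (CovZ.n1 (7432, -5576) (by decide +kernel)
      (CovZ.n2 (7432, -5568) (by decide +kernel)
       (CovZ.leaf K2_ok TT_l422 _)
       (CovZ.leaf K2_ok TT_l423 _))
      (CovZ.n1 (7440, -5576) (by decide +kernel)
       (CovZ.n2 (7436, -5580) (by decide +kernel)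
        (CovZ.leaf K2_ok TT_l424 _)
        (CovZ.leaf K2_ok TT_l425 _))
       (CovZ.leaf K2_ok TT_l426 _))))))

theorem TT_s2_3 : SqZ TT_M TT_L [0, 7, 4, 3] 7392 (-5696) 32 2 3 :=
  SqZ.mk (a := 7456) (b := 7488) (c := (-5600)) (d := (-5568)) (by norm_num) (by norm_num) (by norm_num) (by norm_num)
    (CovZ.topM TT_LL 0 (by decide +kernel) (CovZ.badM (by decide +kernel)))
    (CovZ.topM TT_LL 3 (by decide +kernel) (CovZ.n0 (7472, -5584) (by decide +kernel)
    (CovZ.n2 (7456, -5584) (by decide +kernel)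
     (CovZ.n2 (7464, -5576) (by decide +kernel)
      (CovZ.badM (by decide +kernel))
      (CovZ.n1 (7456, -5576) (by decide +kernel)
       (CovZ.n2 (7460, -5572) (by decide +kernel)
        (CovZ.n2 (7460, -5576) (by decide +kernel)
         (CovZ.n2 (7458, -5574) (by decide +kernel)
          (CovZ.n2 (7460, -5574) (by decide +kernel)
           (CovZ.n2 (7459, -5575) (by decide +kernel)
            (CovZ.leaf K2_ok TT_l483 _)
            (CovZ.leaf K2_ok TT_l484 _))
           (CovZ.leaf K2_ok TT_l485 _))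
          (CovZ.n1 (7458, -5576) (by decide +kernel)
           (CovZ.leaf K2_ok TT_l486 _)
           (CovZ.n1 (7459, -5575) (by decide +kernel)
            (CovZ.leaf K2_ok TT_l487 _)
            (CovZ.leaf K2_ok TT_l488 _))))
         (CovZ.n1 (7462, -5574) (by decide +kernel)
          (CovZ.badM (by decide +kernel))
          (CovZ.n1 (7460, -5574) (by decide +kernel)
           (CovZ.n2 (7461, -5573) (by decide +kernel)
            (CovZ.leaf K2_ok TT_l489 _)
            (CovZ.leaf K2_ok TT_l490 _))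
           (CovZ.leaf K2_ok TT_l491 _))))
        (CovZ.n1 (7456, -5572) (by decide +kernel)
         (CovZ.n2 (7458, -5570) (by decide +kernel)
          (CovZ.n2 (7458, -5572) (by decide +kernel)
           (CovZ.leaf K2_ok TT_l492 _)
           (CovZ.leaf K2_ok TT_l493 _))
          (CovZ.leaf K2_ok TT_l494 _))
         (CovZ.n1 (7458, -5574) (by decide +kernel)
          (CovZ.leaf K2_ok TT_l495 _)
          (CovZ.n1 (7458, -5572) (by decide +kernel)
           (CovZ.leaf K2_ok TT_l496 _)
           (CovZ.leaf K2_ok TT_l497 _)))))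
       (CovZ.n1 (7460, -5580) (by decide +kernel)
        (CovZ.n2 (7456, -5580) (by decide +kernel)
         (CovZ.n2 (7458, -5578) (by decide +kernel)
          (CovZ.n2 (7458, -5580) (by decide +kernel)
           (CovZ.n2 (7457, -5579) (by decide +kernel)
            (CovZ.leaf K2_ok TT_l498 _)
            (CovZ.leaf K2_ok TT_l499 _))
           (CovZ.badM (by decide +kernel)))
          (CovZ.n1 (7456, -5578) (by decide +kernel)
           (CovZ.n2 (7457, -5577) (by decide +kernel)
            (CovZ.n2 (7457, -5578) (by decide +kernel)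
             (CovZ.leaf K2_ok TT_l500 _)
             (CovZ.leaf K2_ok TT_l501 _))
            (CovZ.leaf K2_ok TT_l502 _))
           (CovZ.n1 (7457, -5579) (by decide +kernel)
            (CovZ.leaf K2_ok TT_l503 _)
            (CovZ.leaf K2_ok TT_l504 _))))
         (CovZ.n1 (7458, -5582) (by decide +kernel)
          (CovZ.n2 (7456, -5582) (by decide +kernel)
           (CovZ.n2 (7457, -5581) (by decide +kernel)
            (CovZ.badM (by decide +kernel))
            (CovZ.n1 (7456, -5581) (by decide +kernel)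
             (CovZ.leaf K2_ok TT_l505 _)
             (CovZ.badM (by decide +kernel))))
           (CovZ.badM (by decide +kernel)))
          (CovZ.n1 (7458, -5580) (by decide +kernel)
           (CovZ.badM (by decide +kernel))
           (CovZ.n1 (7457, -5581) (by decide +kernel)
            (CovZ.n2 (7457, -5580) (by decide +kernel)
             (CovZ.badM (by decide +kernel))
             (CovZ.leaf K2_ok TT_l506 _))
            (CovZ.badM (by decide +kernel))))))
        (CovZ.n1 (7460, -5576) (by decide +kernel)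
         (CovZ.badM (by decide +kernel))
         (CovZ.n1 (7458, -5578) (by decide +kernel)
          (CovZ.n2 (7458, -5576) (by decide +kernel)
           (CovZ.leaf K2_ok TT_l507 _)
           (CovZ.n1 (7457, -5577) (by decide +kernel)
            (CovZ.leaf K2_ok TT_l508 _)
            (CovZ.leaf K2_ok TT_l509 _)))
          (CovZ.badM (by decide +kernel)))))))
     (CovZ.badM (by decide +kernel)))
    (CovZ.n1 (7472, -5568) (by decide +kernel)
     (CovZ.badM (by decide +kernel))
     (CovZ.n1 (7464, -5576) (by decide +kernel)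
      (CovZ.n2 (7464, -5568) (by decide +kernel)
       (CovZ.n2 (7468, -5572) (by decide +kernel)
        (CovZ.n2 (7464, -5572) (by decide +kernel)
         (CovZ.n2 (7466, -5570) (by decide +kernel)
          (CovZ.badM (by decide +kernel))
          (CovZ.n1 (7464, -5570) (by decide +kernel)
           (CovZ.n2 (7465, -5569) (by decide +kernel)
            (CovZ.badM (by decide +kernel))
            (CovZ.leaf K2_ok TT_l510 _))
           (CovZ.badM (by decide +kernel))))
         (CovZ.badM (by decide +kernel)))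
        (CovZ.n1 (7468, -5568) (by decide +kernel)
         (CovZ.badM (by decide +kernel))
         (CovZ.n1 (7466, -5570) (by decide +kernel)
          (CovZ.n2 (7466, -5568) (by decide +kernel)
           (CovZ.badM (by decide +kernel))
           (CovZ.n1 (7465, -5569) (by decide +kernel)
            (CovZ.leaf K2_ok TT_l511 _)
            (CovZ.badM (by decide +kernel))))
          (CovZ.badM (by decide +kernel)))))
       (CovZ.n1 (7460, -5572) (by decide +kernel)
        (CovZ.n2 (7460, -5568) (by decide +kernel)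
         (CovZ.n2 (7462, -5570) (by decide +kernel)
          (CovZ.n2 (7460, -5570) (by decide +kernel)
           (CovZ.leaf K2_ok TT_l512 _)
           (CovZ.leaf K2_ok TT_l513 _))
          (CovZ.n1 (7462, -5568) (by decide +kernel)
           (CovZ.leaf K2_ok TT_l514 _)
           (CovZ.leaf K2_ok TT_l515 _)))
         (CovZ.n1 (7458, -5570) (by decide +kernel)
          (CovZ.leaf K2_ok TT_l516 _)
          (CovZ.leaf K2_ok TT_l517 _)))
        (CovZ.n1 (7464, -5572) (by decide +kernel)
         (CovZ.n2 (7462, -5574) (by decide +kernel)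
          (CovZ.n2 (7462, -5572) (by decide +kernel)
           (CovZ.badM (by decide +kernel))
           (CovZ.n1 (7461, -5573) (by decide +kernel)
            (CovZ.leaf K2_ok TT_l518 _)
            (CovZ.leaf K2_ok TT_l519 _)))
          (CovZ.badM (by decide +kernel)))
         (CovZ.n1 (7462, -5570) (by decide +kernel)
          (CovZ.n2 (7464, -5570) (by decide +kernel)
           (CovZ.n2 (7463, -5571) (by decide +kernel)
            (CovZ.leaf K2_ok TT_l520 _)
            (CovZ.badM (by decide +kernel)))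
           (CovZ.leaf K2_ok TT_l521 _))
          (CovZ.n1 (7462, -5572) (by decide +kernel)
           (CovZ.leaf K2_ok TT_l522 _)
           (CovZ.n1 (7463, -5571) (by decide +kernel)
            (CovZ.badM (by decide +kernel))
            (CovZ.leaf K2_ok TT_l523 _)))))))
      (CovZ.badM (by decide +kernel))))))

theorem TT_s3_3 : SqZ TT_M TT_L [0, 7, 4, 3] 7392 (-5696) 32 3 3 :=
  SqZ.mk (a := 7488) (b := 7520) (c := (-5600)) (d := (-5568)) (by norm_num) (by norm_num) (by norm_num) (by norm_num)
    (CovZ.topM TT_LL 0 (by decide +kernel) (CovZ.badM (by decide +kernel)))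
    (CovZ.topM TT_LL 0 (by decide +kernel) (CovZ.badM (by decide +kernel)))

theorem TT_s4_3 : SqZ TT_M TT_L [0, 7, 4, 3] 7392 (-5696) 32 4 3 :=
  SqZ.mk (a := 7520) (b := 7552) (c := (-5600)) (d := (-5568)) (by norm_num) (by norm_num) (by norm_num) (by norm_num)
    (CovZ.topM TT_LL 0 (by decide +kernel) (CovZ.badM (by decide +kernel)))
    (CovZ.topM TT_LL 0 (by decide +kernel) (CovZ.badM (by decide +kernel)))

theorem TT_s5_3 : SqZ TT_M TT_L [0, 7, 4, 3] 7392 (-5696) 32 5 3 :=
  SqZ.mk (a := 7552) (b := 7584) (c := (-5600)) (d := (-5568)) (by norm_num) (by norm_num) (by norm_num) (by norm_num)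
    (CovZ.topM TT_LL 0 (by decide +kernel) (CovZ.badM (by decide +kernel)))
    (CovZ.topM TT_LL 0 (by decide +kernel) (CovZ.badM (by decide +kernel)))

theorem TT_s6_3 : SqZ TT_M TT_L [0, 7, 4, 3] 7392 (-5696) 32 6 3 :=
  SqZ.mk (a := 7584) (b := 7616) (c := (-5600)) (d := (-5568)) (by norm_num) (by norm_num) (by norm_num) (by norm_num)
    (CovZ.topM TT_LL 0 (by decide +kernel) (CovZ.badM (by decide +kernel)))
    (CovZ.topM TT_LL 0 (by decide +kernel) (CovZ.badM (by decide +kernel)))

theorem TT_s7_3 : SqZ TT_M TT_L [0, 7, 4, 3] 7392 (-5696) 32 7 3 :=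
  SqZ.mk (a := 7616) (b := 7648) (c := (-5600)) (d := (-5568)) (by norm_num) (by norm_num) (by norm_num) (by norm_num)
    (CovZ.topM TT_LL 0 (by decide +kernel) (CovZ.badM (by decide +kernel)))
    (CovZ.topM TT_LL 0 (by decide +kernel) (CovZ.badM (by decide +kernel)))

theorem TT_s8_3 : SqZ TT_M TT_L [0, 7, 4, 3] 7392 (-5696) 32 8 3 :=
  SqZ.mk (a := 7648) (b := 7680) (c := (-5600)) (d := (-5568)) (by norm_num) (by norm_num) (by norm_num) (by norm_num)
    (CovZ.topM TT_LL 0 (by decide +kernel) (CovZ.badM (by decide +kernel)))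
    (CovZ.topM TT_LL 0 (by decide +kernel) (CovZ.badM (by decide +kernel)))

theorem TT_s0_4 : SqZ TT_M TT_L [0, 7, 4, 3] 7392 (-5696) 32 0 4 :=
  SqZ.mk (a := 7392) (b := 7424) (c := (-5568)) (d := (-5536)) (by norm_num) (by norm_num) (by norm_num) (by norm_num)
    (CovZ.topM TT_LL 6 (by decide +kernel) (CovZ.n2 (7408, -5552) (by decide +kernel)
    (CovZ.n2 (7424, -5552) (by decide +kernel)
     (CovZ.n2 (7416, -5560) (by decide +kernel)
      (CovZ.leaf K2_ok TT_l230 _)
      (CovZ.leaf K2_ok TT_l231 _))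
     (CovZ.leaf K2_ok TT_l232 _))
    (CovZ.n1 (7408, -5568) (by decide +kernel)
     (CovZ.leaf K2_ok TT_l233 _)
     (CovZ.n1 (7416, -5560) (by decide +kernel)
      (CovZ.leaf K2_ok TT_l234 _)
      (CovZ.leaf K2_ok TT_l235 _)))))
    (CovZ.topM TT_LL 6 (by decide +kernel) (CovZ.n0 (7408, -5552) (by decide +kernel)
    (CovZ.leaf K2_ok TT_l236 _)
    (CovZ.n1 (7408, -5536) (by decide +kernel)
     (CovZ.leaf K2_ok TT_l237 _)
     (CovZ.leaf K2_ok TT_l238 _))))

theorem TT_s1_4 : SqZ TT_M TT_L [0, 7, 4, 3] 7392 (-5696) 32 1 4 :=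
  SqZ.mk (a := 7424) (b := 7456) (c := (-5568)) (d := (-5536)) (by norm_num) (by norm_num) (by norm_num) (by norm_num)
    (CovZ.topM TT_LL 7 (by decide +kernel) (CovZ.n2 (7440, -5552) (by decide +kernel)
    (CovZ.n2 (7456, -5552) (by decide +kernel)
     (CovZ.n2 (7448, -5560) (by decide +kernel)
      (CovZ.n2 (7448, -5552) (by decide +kernel)
       (CovZ.leaf K2_ok TT_l427 _)
       (CovZ.leaf K2_ok TT_l428 _))
      (CovZ.n1 (7456, -5560) (by decide +kernel)
       (CovZ.n2 (7452, -5564) (by decide +kernel)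
        (CovZ.leaf K2_ok TT_l429 _)
        (CovZ.leaf K2_ok TT_l430 _))
       (CovZ.leaf K2_ok TT_l431 _)))
     (CovZ.n1 (7448, -5544) (by decide +kernel)
      (CovZ.leaf K2_ok TT_l432 _)
      (CovZ.n1 (7448, -5552) (by decide +kernel)
       (CovZ.leaf K2_ok TT_l433 _)
       (CovZ.leaf K2_ok TT_l434 _))))
    (CovZ.n1 (7440, -5568) (by decide +kernel)
     (CovZ.n2 (7432, -5560) (by decide +kernel)
      (CovZ.leaf K2_ok TT_l435 _)
      (CovZ.leaf K2_ok TT_l436 _))
     (CovZ.n1 (7448, -5560) (by decide +kernel)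
      (CovZ.n2 (7448, -5568) (by decide +kernel)
       (CovZ.leaf K2_ok TT_l437 _)
       (CovZ.n1 (7452, -5564) (by decide +kernel)
        (CovZ.n2 (7452, -5568) (by decide +kernel)
         (CovZ.leaf K2_ok TT_l438 _)
         (CovZ.leaf K2_ok TT_l439 _))
        (CovZ.leaf K2_ok TT_l440 _)))
      (CovZ.n1 (7440, -5560) (by decide +kernel)
       (CovZ.leaf K2_ok TT_l441 _)
       (CovZ.leaf K2_ok TT_l442 _))))))
    (CovZ.topM TT_LL 7 (by decide +kernel) (CovZ.n0 (7440, -5552) (by decide +kernel)
    (CovZ.n2 (7424, -5552) (by decide +kernel)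
     (CovZ.n2 (7432, -5544) (by decide +kernel)
      (CovZ.leaf K2_ok TT_l443 _)
      (CovZ.leaf K2_ok TT_l444 _))
     (CovZ.n1 (7432, -5560) (by decide +kernel)
      (CovZ.leaf K2_ok TT_l445 _)
      (CovZ.leaf K2_ok TT_l446 _)))
    (CovZ.n1 (7440, -5536) (by decide +kernel)
     (CovZ.n2 (7448, -5544) (by decide +kernel)
      (CovZ.leaf K2_ok TT_l447 _)
      (CovZ.leaf K2_ok TT_l448 _))
     (CovZ.n1 (7432, -5544) (by decide +kernel)
      (CovZ.leaf K2_ok TT_l449 _)
      (CovZ.leaf K2_ok TT_l450 _)))))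

theorem TT_s2_4 : SqZ TT_M TT_L [0, 7, 4, 3] 7392 (-5696) 32 2 4 :=
  SqZ.mk (a := 7456) (b := 7488) (c := (-5568)) (d := (-5536)) (by norm_num) (by norm_num) (by norm_num) (by norm_num)
    (CovZ.topM TT_LL 3 (by decide +kernel) (CovZ.n2 (7472, -5552) (by decide +kernel)
    TT_u2
    TT_u3))
    (CovZ.topM TT_LL 7 (by decide +kernel) (CovZ.n0 (7472, -5552) (by decide +kernel)
    (CovZ.n2 (7456, -5552) (by decide +kernel)
     (CovZ.n2 (7464, -5544) (by decide +kernel)
      (CovZ.n2 (7464, -5552) (by decide +kernel)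
       (CovZ.leaf K2_ok TT_l611 _)
       (CovZ.n1 (7468, -5548) (by decide +kernel)
        (CovZ.n2 (7468, -5552) (by decide +kernel)
         (CovZ.leaf K2_ok TT_l612 _)
         (CovZ.n1 (7470, -5550) (by decide +kernel)
          (CovZ.leaf K2_ok TT_l613 _)
          (CovZ.leaf K2_ok TT_l614 _)))
        (CovZ.leaf K2_ok TT_l615 _)))
      (CovZ.n1 (7456, -5544) (by decide +kernel)
       (CovZ.n2 (7460, -5540) (by decide +kernel)
        (CovZ.leaf K2_ok TT_l616 _)
        (CovZ.leaf K2_ok TT_l617 _))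
       (CovZ.leaf K2_ok TT_l618 _)))
     (CovZ.n1 (7464, -5560) (by decide +kernel)
      (CovZ.n2 (7456, -5560) (by decide +kernel)
       (CovZ.n2 (7460, -5556) (by decide +kernel)
        (CovZ.n2 (7460, -5560) (by decide +kernel)
         (CovZ.leaf K2_ok TT_l619 _)
         (CovZ.leaf K2_ok TT_l620 _))
        (CovZ.leaf K2_ok TT_l621 _))
       (CovZ.n1 (7460, -5564) (by decide +kernel)
        (CovZ.n2 (7456, -5564) (by decide +kernel)
         (CovZ.leaf K2_ok TT_l622 _)
         (CovZ.leaf K2_ok TT_l623 _))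
        (CovZ.n1 (7460, -5560) (by decide +kernel)
         (CovZ.leaf K2_ok TT_l624 _)
         (CovZ.leaf K2_ok TT_l625 _))))
      (CovZ.n1 (7464, -5552) (by decide +kernel)
       (CovZ.n2 (7468, -5556) (by decide +kernel)
        (CovZ.n2 (7464, -5556) (by decide +kernel)
         (CovZ.n2 (7466, -5554) (by decide +kernel)
          (CovZ.leaf K2_ok TT_l626 _)
          (CovZ.leaf K2_ok TT_l627 _))
         (CovZ.leaf K2_ok TT_l628 _))
        (CovZ.n1 (7468, -5552) (by decide +kernel)
         (CovZ.leaf K2_ok TT_l629 _)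
         (CovZ.n1 (7466, -5554) (by decide +kernel)
          (CovZ.leaf K2_ok TT_l630 _)
          (CovZ.leaf K2_ok TT_l631 _))))
       (CovZ.n1 (7460, -5556) (by decide +kernel)
        (CovZ.n2 (7460, -5552) (by decide +kernel)
         (CovZ.leaf K2_ok TT_l632 _)
         (CovZ.leaf K2_ok TT_l633 _))
        (CovZ.n1 (7464, -5556) (by decide +kernel)
         (CovZ.n2 (7462, -5558) (by decide +kernel)
          (CovZ.leaf K2_ok TT_l634 _)
          (CovZ.leaf K2_ok TT_l635 _))
         (CovZ.leaf K2_ok TT_l636 _))))))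
    (CovZ.n1 (7472, -5536) (by decide +kernel)
     (CovZ.n2 (7480, -5544) (by decide +kernel)
      (CovZ.n2 (7472, -5544) (by decide +kernel)
       (CovZ.n2 (7476, -5540) (by decide +kernel)
        (CovZ.n2 (7476, -5544) (by decide +kernel)
         (CovZ.leaf K2_ok TT_l637 _)
         (CovZ.n1 (7478, -5542) (by decide +kernel)
          (CovZ.leaf K2_ok TT_l638 _)
          (CovZ.leaf K2_ok TT_l639 _)))
        (CovZ.n1 (7472, -5540) (by decide +kernel)
         (CovZ.leaf K2_ok TT_l640 _)
         (CovZ.leaf K2_ok TT_l641 _)))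
       (CovZ.n1 (7476, -5548) (by decide +kernel)
        (CovZ.n2 (7472, -5548) (by decide +kernel)
         (CovZ.n2 (7474, -5546) (by decide +kernel)
          (CovZ.n2 (7474, -5548) (by decide +kernel)
           (CovZ.leaf K2_ok TT_l642 _)
           (CovZ.leaf K2_ok TT_l643 _))
          (CovZ.leaf K2_ok TT_l644 _))
         (CovZ.n1 (7474, -5550) (by decide +kernel)
          (CovZ.leaf K2_ok TT_l645 _)
          (CovZ.n1 (7474, -5548) (by decide +kernel)
           (CovZ.leaf K2_ok TT_l646 _)
           (CovZ.leaf K2_ok TT_l647 _))))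
        (CovZ.n1 (7476, -5544) (by decide +kernel)
         (CovZ.n2 (7478, -5546) (by decide +kernel)
          (CovZ.leaf K2_ok TT_l648 _)
          (CovZ.n1 (7478, -5544) (by decide +kernel)
           (CovZ.leaf K2_ok TT_l649 _)
           (CovZ.leaf K2_ok TT_l650 _)))
         (CovZ.n1 (7474, -5546) (by decide +kernel)
          (CovZ.leaf K2_ok TT_l651 _)
          (CovZ.leaf K2_ok TT_l652 _)))))
      (CovZ.n1 (7480, -5536) (by decide +kernel)
       (CovZ.n2 (7484, -5540) (by decide +kernel)
        (CovZ.n2 (7480, -5540) (by decide +kernel)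
         (CovZ.n2 (7482, -5538) (by decide +kernel)
          (CovZ.n2 (7482, -5540) (by decide +kernel)
           (CovZ.leaf K2_ok TT_l653 _)
           (CovZ.leaf K2_ok TT_l654 _))
          (CovZ.leaf K2_ok TT_l655 _))
         (CovZ.n1 (7482, -5542) (by decide +kernel)
          (CovZ.leaf K2_ok TT_l656 _)
          (CovZ.n1 (7482, -5540) (by decide +kernel)
           (CovZ.leaf K2_ok TT_l657 _)
           (CovZ.leaf K2_ok TT_l658 _))))
        (CovZ.n1 (7484, -5536) (by decide +kernel)
         (CovZ.n2 (7486, -5538) (by decide +kernel)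
          (CovZ.n2 (7484, -5538) (by decide +kernel)
           (CovZ.n2 (7485, -5537) (by decide +kernel)
            (CovZ.leaf K2_ok TT_l659 _)
            (CovZ.leaf K2_ok TT_l660 _))
           (CovZ.leaf K2_ok TT_l661 _))
          (CovZ.n1 (7486, -5536) (by decide +kernel)
           (CovZ.leaf K2_ok TT_l662 _)
           (CovZ.n1 (7485, -5537) (by decide +kernel)
            (CovZ.leaf K2_ok TT_l663 _)
            (CovZ.leaf K2_ok TT_l664 _))))
         (CovZ.n1 (7482, -5538) (by decide +kernel)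
          (CovZ.leaf K2_ok TT_l665 _)
          (CovZ.leaf K2_ok TT_l666 _))))
       (CovZ.n1 (7476, -5540) (by decide +kernel)
        (CovZ.n2 (7476, -5536) (by decide +kernel)
         (CovZ.leaf K2_ok TT_l667 _)
         (CovZ.leaf K2_ok TT_l668 _))
        (CovZ.n1 (7480, -5540) (by decide +kernel)
         (CovZ.n2 (7478, -5542) (by decide +kernel)
          (CovZ.leaf K2_ok TT_l669 _)
          (CovZ.leaf K2_ok TT_l670 _))
         (CovZ.leaf K2_ok TT_l671 _)))))
     (CovZ.n1 (7464, -5544) (by decide +kernel)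
      (CovZ.n2 (7464, -5536) (by decide +kernel)
       (CovZ.n2 (7468, -5540) (by decide +kernel)
        (CovZ.leaf K2_ok TT_l672 _)
        (CovZ.leaf K2_ok TT_l673 _))
       (CovZ.leaf K2_ok TT_l674 _))
      (CovZ.n1 (7472, -5544) (by decide +kernel)
       (CovZ.n2 (7468, -5548) (by decide +kernel)
        (CovZ.n2 (7468, -5544) (by decide +kernel)
         (CovZ.leaf K2_ok TT_l675 _)
         (CovZ.leaf K2_ok TT_l676 _))
        (CovZ.n1 (7472, -5548) (by decide +kernel)
         (CovZ.n2 (7470, -5550) (by decide +kernel)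
          (CovZ.leaf K2_ok TT_l677 _)
          (CovZ.leaf K2_ok TT_l678 _))
         (CovZ.n1 (7470, -5546) (by decide +kernel)
          (CovZ.n2 (7472, -5546) (by decide +kernel)
           (CovZ.leaf K2_ok TT_l679 _)
           (CovZ.leaf K2_ok TT_l680 _))
          (CovZ.leaf K2_ok TT_l681 _))))
       (CovZ.n1 (7468, -5540) (by decide +kernel)
        (CovZ.leaf K2_ok TT_l682 _)
        (CovZ.leaf K2_ok TT_l683 _)))))))

theorem TT_s3_4 : SqZ TT_M TT_L [0, 7, 4, 3] 7392 (-5696) 32 3 4 :=
  SqZ.mk (a := 7488) (b := 7520) (c := (-5568)) (d := (-5536)) (by norm_num) (by norm_num) (by norm_num) (by norm_num)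
    (CovZ.topM TT_LL 0 (by decide +kernel) (CovZ.badM (by decide +kernel)))
    (CovZ.topM TT_LL 0 (by decide +kernel) (CovZ.badM (by decide +kernel)))

theorem TT_s4_4 : SqZ TT_M TT_L [0, 7, 4, 3] 7392 (-5696) 32 4 4 :=
  SqZ.mk (a := 7520) (b := 7552) (c := (-5568)) (d := (-5536)) (by norm_num) (by norm_num) (by norm_num) (by norm_num)
    (CovZ.topM TT_LL 0 (by decide +kernel) (CovZ.badM (by decide +kernel)))
    (CovZ.topM TT_LL 0 (by decide +kernel) (CovZ.badM (by decide +kernel)))

theorem TT_s5_4 : SqZ TT_M TT_L [0, 7, 4, 3] 7392 (-5696) 32 5 4 :=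
  SqZ.mk (a := 7552) (b := 7584) (c := (-5568)) (d := (-5536)) (by norm_num) (by norm_num) (by norm_num) (by norm_num)
    (CovZ.topM TT_LL 0 (by decide +kernel) (CovZ.badM (by decide +kernel)))
    (CovZ.topM TT_LL 0 (by decide +kernel) (CovZ.badM (by decide +kernel)))

theorem TT_s6_4 : SqZ TT_M TT_L [0, 7, 4, 3] 7392 (-5696) 32 6 4 :=
  SqZ.mk (a := 7584) (b := 7616) (c := (-5568)) (d := (-5536)) (by norm_num) (by norm_num) (by norm_num) (by norm_num)
    (CovZ.topM TT_LL 0 (by decide +kernel) (CovZ.badM (by decide +kernel)))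
    (CovZ.topM TT_LL 0 (by decide +kernel) (CovZ.badM (by decide +kernel)))

theorem TT_s7_4 : SqZ TT_M TT_L [0, 7, 4, 3] 7392 (-5696) 32 7 4 :=
  SqZ.mk (a := 7616) (b := 7648) (c := (-5568)) (d := (-5536)) (by norm_num) (by norm_num) (by norm_num) (by norm_num)
    (CovZ.topM TT_LL 0 (by decide +kernel) (CovZ.badM (by decide +kernel)))
    (CovZ.topM TT_LL 0 (by decide +kernel) (CovZ.badM (by decide +kernel)))

theorem TT_s8_4 : SqZ TT_M TT_L [0, 7, 4, 3] 7392 (-5696) 32 8 4 :=
  SqZ.mk (a := 7648) (b := 7680) (c := (-5568)) (d := (-5536)) (by norm_num) (by norm_num) (by norm_num) (by norm_num)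
    (CovZ.topM TT_LL 0 (by decide +kernel) (CovZ.badM (by decide +kernel)))
    (CovZ.topM TT_LL 0 (by decide +kernel) (CovZ.badM (by decide +kernel)))

theorem TT_s0_5 : SqZ TT_M TT_L [0, 7, 4, 3] 7392 (-5696) 32 0 5 :=
  SqZ.mk (a := 7392) (b := 7424) (c := (-5536)) (d := (-5504)) (by norm_num) (by norm_num) (by norm_num) (by norm_num)
    (CovZ.topM TT_LL 7 (by decide +kernel) (CovZ.n2 (7408, -5520) (by decide +kernel)
    (CovZ.n2 (7424, -5520) (by decide +kernel)
     (CovZ.leaf K2_ok TT_l239 _)
     (CovZ.leaf K2_ok TT_l240 _))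
    (CovZ.n1 (7408, -5536) (by decide +kernel)
     (CovZ.leaf K2_ok TT_l241 _)
     (CovZ.leaf K2_ok TT_l242 _))))
    (CovZ.topM TT_LL 7 (by decide +kernel) (CovZ.n0 (7408, -5520) (by decide +kernel)
    (CovZ.leaf K2_ok TT_l243 _)
    (CovZ.n1 (7408, -5504) (by decide +kernel)
     (CovZ.leaf K2_ok TT_l244 _)
     (CovZ.leaf K2_ok TT_l245 _))))

theorem TT_s1_5 : SqZ TT_M TT_L [0, 7, 4, 3] 7392 (-5696) 32 1 5 :=
  SqZ.mk (a := 7424) (b := 7456) (c := (-5536)) (d := (-5504)) (by norm_num) (by norm_num) (by norm_num) (by norm_num)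
    (CovZ.topM TT_LL 7 (by decide +kernel) (CovZ.n2 (7440, -5520) (by decide +kernel)
    (CovZ.n2 (7456, -5520) (by decide +kernel)
     (CovZ.n2 (7448, -5528) (by decide +kernel)
      (CovZ.leaf K2_ok TT_l451 _)
      (CovZ.leaf K2_ok TT_l452 _))
     (CovZ.leaf K2_ok TT_l453 _))
    (CovZ.n1 (7440, -5536) (by decide +kernel)
     (CovZ.leaf K2_ok TT_l454 _)
     (CovZ.n1 (7448, -5528) (by decide +kernel)
      (CovZ.leaf K2_ok TT_l455 _)
      (CovZ.leaf K2_ok TT_l456 _)))))
    (CovZ.topM TT_LL 7 (by decide +kernel) (CovZ.n0 (7440, -5520) (by decide +kernel)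
    (CovZ.n2 (7424, -5520) (by decide +kernel)
     (CovZ.leaf K2_ok TT_l457 _)
     (CovZ.leaf K2_ok TT_l458 _))
    (CovZ.n1 (7440, -5504) (by decide +kernel)
     (CovZ.leaf K2_ok TT_l459 _)
     (CovZ.leaf K2_ok TT_l460 _))))

theorem TT_s2_5 : SqZ TT_M TT_L [0, 7, 4, 3] 7392 (-5696) 32 2 5 :=
  SqZ.mk (a := 7456) (b := 7488) (c := (-5536)) (d := (-5504)) (by norm_num) (by norm_num) (by norm_num) (by norm_num)
    (CovZ.topM TT_LL 7 (by decide +kernel) (CovZ.n2 (7472, -5520) (by decide +kernel)
    (CovZ.n2 (7488, -5520) (by decide +kernel)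
     (CovZ.n2 (7480, -5528) (by decide +kernel)
      (CovZ.n2 (7480, -5520) (by decide +kernel)
       (CovZ.n2 (7484, -5524) (by decide +kernel)
        (CovZ.leaf K2_ok TT_l684 _)
        (CovZ.n1 (7484, -5520) (by decide +kernel)
         (CovZ.leaf K2_ok TT_l685 _)
         (CovZ.leaf K2_ok TT_l686 _)))
       (CovZ.n1 (7476, -5524) (by decide +kernel)
        (CovZ.leaf K2_ok TT_l687 _)
        (CovZ.leaf K2_ok TT_l688 _)))
      (CovZ.n1 (7488, -5528) (by decide +kernel)
       (CovZ.n2 (7484, -5532) (by decide +kernel)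
        (CovZ.n2 (7484, -5528) (by decide +kernel)
         (CovZ.n2 (7486, -5530) (by decide +kernel)
          (CovZ.leaf K2_ok TT_l689 _)
          (CovZ.leaf K2_ok TT_l690 _))
         (CovZ.n1 (7482, -5530) (by decide +kernel)
          (CovZ.leaf K2_ok TT_l691 _)
          (CovZ.leaf K2_ok TT_l692 _)))
        (CovZ.n1 (7488, -5532) (by decide +kernel)
         (CovZ.n2 (7486, -5534) (by decide +kernel)
          (CovZ.n2 (7486, -5532) (by decide +kernel)
           (CovZ.leaf K2_ok TT_l693 _)
           (CovZ.leaf K2_ok TT_l694 _))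
          (CovZ.leaf K2_ok TT_l695 _))
         (CovZ.leaf K2_ok TT_l696 _)))
       (CovZ.n1 (7484, -5524) (by decide +kernel)
        (CovZ.n2 (7488, -5524) (by decide +kernel)
         (CovZ.leaf K2_ok TT_l697 _)
         (CovZ.leaf K2_ok TT_l698 _))
        (CovZ.n1 (7484, -5528) (by decide +kernel)
         (CovZ.leaf K2_ok TT_l699 _)
         (CovZ.n1 (7486, -5526) (by decide +kernel)
          (CovZ.leaf K2_ok TT_l700 _)
          (CovZ.leaf K2_ok TT_l701 _))))))
     (CovZ.n1 (7480, -5512) (by decide +kernel)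
      (CovZ.n2 (7488, -5512) (by decide +kernel)
       (CovZ.n2 (7484, -5516) (by decide +kernel)
        (CovZ.leaf K2_ok TT_l702 _)
        (CovZ.leaf K2_ok TT_l703 _))
       (CovZ.leaf K2_ok TT_l704 _))
      (CovZ.n1 (7480, -5520) (by decide +kernel)
       (CovZ.leaf K2_ok TT_l705 _)
       (CovZ.n1 (7484, -5516) (by decide +kernel)
        (CovZ.leaf K2_ok TT_l706 _)
        (CovZ.leaf K2_ok TT_l707 _)))))
    (CovZ.n1 (7472, -5536) (by decide +kernel)
     (CovZ.n2 (7464, -5528) (by decide +kernel)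
      (CovZ.n2 (7472, -5528) (by decide +kernel)
       (CovZ.n2 (7468, -5532) (by decide +kernel)
        (CovZ.leaf K2_ok TT_l708 _)
        (CovZ.leaf K2_ok TT_l709 _))
       (CovZ.leaf K2_ok TT_l710 _))
      (CovZ.n1 (7464, -5536) (by decide +kernel)
       (CovZ.leaf K2_ok TT_l711 _)
       (CovZ.n1 (7468, -5532) (by decide +kernel)
        (CovZ.leaf K2_ok TT_l712 _)
        (CovZ.leaf K2_ok TT_l713 _))))
     (CovZ.n1 (7480, -5528) (by decide +kernel)
      (CovZ.n2 (7480, -5536) (by decide +kernel)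
       (CovZ.n2 (7476, -5532) (by decide +kernel)
        (CovZ.leaf K2_ok TT_l714 _)
        (CovZ.n1 (7476, -5536) (by decide +kernel)
         (CovZ.leaf K2_ok TT_l715 _)
         (CovZ.leaf K2_ok TT_l716 _)))
       (CovZ.n1 (7484, -5532) (by decide +kernel)
        (CovZ.n2 (7484, -5536) (by decide +kernel)
         (CovZ.leaf K2_ok TT_l717 _)
         (CovZ.n1 (7486, -5534) (by decide +kernel)
          (CovZ.n2 (7486, -5536) (by decide +kernel)
           (CovZ.leaf K2_ok TT_l718 _)
           (CovZ.n1 (7487, -5535) (by decide +kernel)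
            (CovZ.leaf K2_ok TT_l719 _)
            (CovZ.leaf K2_ok TT_l720 _)))
          (CovZ.leaf K2_ok TT_l721 _)))
        (CovZ.n1 (7480, -5532) (by decide +kernel)
         (CovZ.leaf K2_ok TT_l722 _)
         (CovZ.leaf K2_ok TT_l723 _))))
      (CovZ.n1 (7472, -5528) (by decide +kernel)
       (CovZ.n2 (7476, -5524) (by decide +kernel)
        (CovZ.leaf K2_ok TT_l724 _)
        (CovZ.leaf K2_ok TT_l725 _))
       (CovZ.n1 (7476, -5532) (by decide +kernel)
        (CovZ.leaf K2_ok TT_l726 _)
        (CovZ.leaf K2_ok TT_l727 _)))))))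
    (CovZ.topM TT_LL 7 (by decide +kernel) (CovZ.n0 (7472, -5520) (by decide +kernel)
    (CovZ.n2 (7456, -5520) (by decide +kernel)
     (CovZ.n2 (7464, -5512) (by decide +kernel)
      (CovZ.leaf K2_ok TT_l728 _)
      (CovZ.leaf K2_ok TT_l729 _))
     (CovZ.n1 (7464, -5528) (by decide +kernel)
      (CovZ.n2 (7456, -5528) (by decide +kernel)
       (CovZ.leaf K2_ok TT_l730 _)
       (CovZ.leaf K2_ok TT_l731 _))
      (CovZ.n1 (7464, -5520) (by decide +kernel)
       (CovZ.leaf K2_ok TT_l732 _)
       (CovZ.leaf K2_ok TT_l733 _))))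
    (CovZ.n1 (7472, -5504) (by decide +kernel)
     (CovZ.n2 (7480, -5512) (by decide +kernel)
      (CovZ.leaf K2_ok TT_l734 _)
      (CovZ.n1 (7480, -5504) (by decide +kernel)
       (CovZ.leaf K2_ok TT_l735 _)
       (CovZ.leaf K2_ok TT_l736 _)))
     (CovZ.n1 (7464, -5512) (by decide +kernel)
      (CovZ.leaf K2_ok TT_l737 _)
      (CovZ.leaf K2_ok TT_l738 _)))))

theorem TT_s3_5 : SqZ TT_M TT_L [0, 7, 4, 3] 7392 (-5696) 32 3 5 :=
  SqZ.mk (a := 7488) (b := 7520) (c := (-5536)) (d := (-5504)) (by norm_num) (by norm_num) (by norm_num) (by norm_num)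
    (CovZ.topM TT_LL 0 (by decide +kernel) (CovZ.badM (by decide +kernel)))
    (CovZ.topM TT_LL 7 (by decide +kernel) (CovZ.n0 (7504, -5520) (by decide +kernel)
    TT_u4
    TT_u5))

theorem TT_s4_5 : SqZ TT_M TT_L [0, 7, 4, 3] 7392 (-5696) 32 4 5 :=
  SqZ.mk (a := 7520) (b := 7552) (c := (-5536)) (d := (-5504)) (by norm_num) (by norm_num) (by norm_num) (by norm_num)
    (CovZ.topM TT_LL 0 (by decide +kernel) (CovZ.badM (by decide +kernel)))
    (CovZ.topM TT_LL 0 (by decide +kernel) (CovZ.badM (by decide +kernel)))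

theorem TT_s5_5 : SqZ TT_M TT_L [0, 7, 4, 3] 7392 (-5696) 32 5 5 :=
  SqZ.mk (a := 7552) (b := 7584) (c := (-5536)) (d := (-5504)) (by norm_num) (by norm_num) (by norm_num) (by norm_num)
    (CovZ.topM TT_LL 0 (by decide +kernel) (CovZ.badM (by decide +kernel)))
    (CovZ.topM TT_LL 0 (by decide +kernel) (CovZ.badM (by decide +kernel)))

theorem TT_s6_5 : SqZ TT_M TT_L [0, 7, 4, 3] 7392 (-5696) 32 6 5 :=
  SqZ.mk (a := 7584) (b := 7616) (c := (-5536)) (d := (-5504)) (by norm_num) (by norm_num) (by norm_num) (by norm_num)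
    (CovZ.topM TT_LL 0 (by decide +kernel) (CovZ.badM (by decide +kernel)))
    (CovZ.topM TT_LL 0 (by decide +kernel) (CovZ.badM (by decide +kernel)))

theorem TT_s7_5 : SqZ TT_M TT_L [0, 7, 4, 3] 7392 (-5696) 32 7 5 :=
  SqZ.mk (a := 7616) (b := 7648) (c := (-5536)) (d := (-5504)) (by norm_num) (by norm_num) (by norm_num) (by norm_num)
    (CovZ.topM TT_LL 0 (by decide +kernel) (CovZ.badM (by decide +kernel)))
    (CovZ.topM TT_LL 0 (by decide +kernel) (CovZ.badM (by decide +kernel)))

theorem TT_s8_5 : SqZ TT_M TT_L [0, 7, 4, 3] 7392 (-5696) 32 8 5 :=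
  SqZ.mk (a := 7648) (b := 7680) (c := (-5536)) (d := (-5504)) (by norm_num) (by norm_num) (by norm_num) (by norm_num)
    (CovZ.topM TT_LL 0 (by decide +kernel) (CovZ.badM (by decide +kernel)))
    (CovZ.topM TT_LL 0 (by decide +kernel) (CovZ.badM (by decide +kernel)))

theorem TT_s0_6 : SqZ TT_M TT_L [0, 7, 4, 3] 7392 (-5696) 32 0 6 :=
  SqZ.mk (a := 7392) (b := 7424) (c := (-5504)) (d := (-5472)) (by norm_num) (by norm_num) (by norm_num) (by norm_num)
    (CovZ.topM TT_LL 7 (by decide +kernel) (CovZ.n2 (7408, -5488) (by decide +kernel)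
    (CovZ.leaf K2_ok TT_l246 _)
    (CovZ.leaf K2_ok TT_l247 _)))
    (CovZ.topM TT_LL 7 (by decide +kernel) (CovZ.n0 (7408, -5488) (by decide +kernel)
    (CovZ.leaf K2_ok TT_l248 _)
    (CovZ.leaf K2_ok TT_l249 _)))

theorem TT_s1_6 : SqZ TT_M TT_L [0, 7, 4, 3] 7392 (-5696) 32 1 6 :=
  SqZ.mk (a := 7424) (b := 7456) (c := (-5504)) (d := (-5472)) (by norm_num) (by norm_num) (by norm_num) (by norm_num)
    (CovZ.topM TT_LL 7 (by decide +kernel) (CovZ.n2 (7440, -5488) (by decide +kernel)
    (CovZ.n2 (7456, -5488) (by decide +kernel)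
     (CovZ.n2 (7448, -5496) (by decide +kernel)
      (CovZ.leaf K2_ok TT_l461 _)
      (CovZ.leaf K2_ok TT_l462 _))
     (CovZ.leaf K2_ok TT_l463 _))
    (CovZ.n1 (7440, -5504) (by decide +kernel)
     (CovZ.leaf K2_ok TT_l464 _)
     (CovZ.n1 (7448, -5496) (by decide +kernel)
      (CovZ.leaf K2_ok TT_l465 _)
      (CovZ.leaf K2_ok TT_l466 _)))))
    (CovZ.topM TT_LL 7 (by decide +kernel) (CovZ.n0 (7440, -5488) (by decide +kernel)
    (CovZ.n2 (7424, -5488) (by decide +kernel)
     (CovZ.leaf K2_ok TT_l467 _)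
     (CovZ.leaf K2_ok TT_l468 _))
    (CovZ.n1 (7440, -5472) (by decide +kernel)
     (CovZ.leaf K2_ok TT_l469 _)
     (CovZ.leaf K2_ok TT_l470 _))))

theorem TT_s2_6 : SqZ TT_M TT_L [0, 7, 4, 3] 7392 (-5696) 32 2 6 :=
  SqZ.mk (a := 7456) (b := 7488) (c := (-5504)) (d := (-5472)) (by norm_num) (by norm_num) (by norm_num) (by norm_num)
    (CovZ.topM TT_LL 7 (by decide +kernel) (CovZ.n2 (7472, -5488) (by decide +kernel)
    (CovZ.n2 (7488, -5488) (by decide +kernel)
     (CovZ.n2 (7480, -5496) (by decide +kernel)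
      (CovZ.n2 (7480, -5488) (by decide +kernel)
       (CovZ.leaf K2_ok TT_l739 _)
       (CovZ.leaf K2_ok TT_l740 _))
      (CovZ.leaf K2_ok TT_l741 _))
     (CovZ.n1 (7480, -5480) (by decide +kernel)
      (CovZ.leaf K2_ok TT_l742 _)
      (CovZ.leaf K2_ok TT_l743 _)))
    (CovZ.n1 (7472, -5504) (by decide +kernel)
     (CovZ.leaf K2_ok TT_l744 _)
     (CovZ.n1 (7480, -5496) (by decide +kernel)
      (CovZ.n2 (7480, -5504) (by decide +kernel)
       (CovZ.leaf K2_ok TT_l745 _)
       (CovZ.leaf K2_ok TT_l746 _))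
      (CovZ.leaf K2_ok TT_l747 _)))))
    (CovZ.topM TT_LL 7 (by decide +kernel) (CovZ.n0 (7472, -5488) (by decide +kernel)
    (CovZ.n2 (7456, -5488) (by decide +kernel)
     (CovZ.n2 (7464, -5480) (by decide +kernel)
      (CovZ.leaf K2_ok TT_l748 _)
      (CovZ.leaf K2_ok TT_l749 _))
     (CovZ.n1 (7464, -5496) (by decide +kernel)
      (CovZ.leaf K2_ok TT_l750 _)
      (CovZ.leaf K2_ok TT_l751 _)))
    (CovZ.n1 (7472, -5472) (by decide +kernel)
     (CovZ.n2 (7480, -5480) (by decide +kernel)
      (CovZ.leaf K2_ok TT_l752 _)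
      (CovZ.leaf K2_ok TT_l753 _))
     (CovZ.n1 (7464, -5480) (by decide +kernel)
      (CovZ.leaf K2_ok TT_l754 _)
      (CovZ.leaf K2_ok TT_l755 _)))))

theorem TT_s3_6 : SqZ TT_M TT_L [0, 7, 4, 3] 7392 (-5696) 32 3 6 :=
  SqZ.mk (a := 7488) (b := 7520) (c := (-5504)) (d := (-5472)) (by norm_num) (by norm_num) (by norm_num) (by norm_num)
    (CovZ.topM TT_LL 7 (by decide +kernel) (CovZ.n2 (7504, -5488) (by decide +kernel)
    (CovZ.n2 (7520, -5488) (by decide +kernel)
     (CovZ.n2 (7512, -5496) (by decide +kernel)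
      (CovZ.n2 (7512, -5488) (by decide +kernel)
       (CovZ.n2 (7516, -5492) (by decide +kernel)
        (CovZ.n2 (7512, -5492) (by decide +kernel)
         (CovZ.n2 (7514, -5490) (by decide +kernel)
          (CovZ.leaf K2_ok TT_l889 _)
          (CovZ.leaf K2_ok TT_l890 _))
         (CovZ.n1 (7514, -5494) (by decide +kernel)
          (CovZ.leaf K2_ok TT_l891 _)
          (CovZ.leaf K2_ok TT_l892 _)))
        (CovZ.n1 (7516, -5488) (by decide +kernel)
         (CovZ.n2 (7518, -5490) (by decide +kernel)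
          (CovZ.leaf K2_ok TT_l893 _)
          (CovZ.n1 (7518, -5488) (by decide +kernel)
           (CovZ.leaf K2_ok TT_l894 _)
           (CovZ.leaf K2_ok TT_l895 _)))
         (CovZ.n1 (7514, -5490) (by decide +kernel)
          (CovZ.leaf K2_ok TT_l896 _)
          (CovZ.leaf K2_ok TT_l897 _))))
       (CovZ.n1 (7508, -5492) (by decide +kernel)
        (CovZ.n2 (7508, -5488) (by decide +kernel)
         (CovZ.leaf K2_ok TT_l898 _)
         (CovZ.leaf K2_ok TT_l899 _))
        (CovZ.n1 (7512, -5492) (by decide +kernel)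
         (CovZ.n2 (7510, -5494) (by decide +kernel)
          (CovZ.leaf K2_ok TT_l900 _)
          (CovZ.leaf K2_ok TT_l901 _))
         (CovZ.leaf K2_ok TT_l902 _))))
      (CovZ.n1 (7520, -5496) (by decide +kernel)
       (CovZ.n2 (7516, -5500) (by decide +kernel)
        (CovZ.n2 (7516, -5496) (by decide +kernel)
         (CovZ.badM (by decide +kernel))
         (CovZ.n1 (7514, -5498) (by decide +kernel)
          (CovZ.n2 (7514, -5496) (by decide +kernel)
           (CovZ.leaf K2_ok TT_l903 _)
           (CovZ.leaf K2_ok TT_l904 _))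
          (CovZ.badM (by decide +kernel))))
        (CovZ.badM (by decide +kernel)))
       (CovZ.n1 (7516, -5492) (by decide +kernel)
        (CovZ.n2 (7520, -5492) (by decide +kernel)
         (CovZ.n2 (7518, -5494) (by decide +kernel)
          (CovZ.n2 (7518, -5492) (by decide +kernel)
           (CovZ.badM (by decide +kernel))
           (CovZ.n1 (7517, -5493) (by decide +kernel)
            (CovZ.leaf K2_ok TT_l905 _)
            (CovZ.badM (by decide +kernel))))
          (CovZ.badM (by decide +kernel)))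
         (CovZ.n1 (7518, -5490) (by decide +kernel)
          (CovZ.n2 (7520, -5490) (by decide +kernel)
           (CovZ.n2 (7519, -5491) (by decide +kernel)
            (CovZ.leaf K2_ok TT_l907 _)
            (CovZ.badM (by decide +kernel)))
           (CovZ.n1 (7519, -5489) (by decide +kernel)
            (CovZ.leaf K2_ok TT_l908 _)
            (CovZ.leaf K2_ok TT_l909 _)))
          (CovZ.n1 (7518, -5492) (by decide +kernel)
           (CovZ.leaf K2_ok TT_l910 _)
           (CovZ.n1 (7519, -5491) (by decide +kernel)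
            (CovZ.badM (by decide +kernel))
            (CovZ.leaf K2_ok TT_l911 _)))))
        (CovZ.n1 (7516, -5496) (by decide +kernel)
         (CovZ.n2 (7514, -5494) (by decide +kernel)
          (CovZ.n2 (7516, -5494) (by decide +kernel)
           (CovZ.n2 (7515, -5495) (by decide +kernel)
            (CovZ.leaf K2_ok TT_l912 _)
            (CovZ.leaf K2_ok TT_l913 _))
           (CovZ.leaf K2_ok TT_l914 _))
          (CovZ.n1 (7514, -5496) (by decide +kernel)
           (CovZ.leaf K2_ok TT_l915 _)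
           (CovZ.n1 (7515, -5495) (by decide +kernel)
            (CovZ.leaf K2_ok TT_l916 _)
            (CovZ.leaf K2_ok TT_l917 _))))
         (CovZ.n1 (7518, -5494) (by decide +kernel)
          (CovZ.badM (by decide +kernel))
          (CovZ.n1 (7516, -5494) (by decide +kernel)
           (CovZ.n2 (7517, -5493) (by decide +kernel)
            (CovZ.leaf K2_ok TT_l918 _)
            (CovZ.leaf K2_ok TT_l919 _))
           (CovZ.leaf K2_ok TT_l920 _)))))))
     (CovZ.n1 (7512, -5480) (by decide +kernel)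
      (CovZ.n2 (7520, -5480) (by decide +kernel)
       (CovZ.n2 (7516, -5484) (by decide +kernel)
        (CovZ.n2 (7516, -5480) (by decide +kernel)
         (CovZ.leaf K2_ok TT_l921 _)
         (CovZ.leaf K2_ok TT_l922 _))
        (CovZ.n1 (7520, -5484) (by decide +kernel)
         (CovZ.n2 (7518, -5486) (by decide +kernel)
          (CovZ.leaf K2_ok TT_l923 _)
          (CovZ.leaf K2_ok TT_l924 _))
         (CovZ.leaf K2_ok TT_l925 _)))
       (CovZ.n1 (7516, -5476) (by decide +kernel)
        (CovZ.leaf K2_ok TT_l926 _)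
        (CovZ.n1 (7516, -5480) (by decide +kernel)
         (CovZ.leaf K2_ok TT_l927 _)
         (CovZ.leaf K2_ok TT_l928 _))))
      (CovZ.n1 (7512, -5488) (by decide +kernel)
       (CovZ.n2 (7508, -5484) (by decide +kernel)
        (CovZ.leaf K2_ok TT_l929 _)
        (CovZ.leaf K2_ok TT_l930 _))
       (CovZ.n1 (7516, -5484) (by decide +kernel)
        (CovZ.n2 (7516, -5488) (by decide +kernel)
         (CovZ.leaf K2_ok TT_l931 _)
         (CovZ.n1 (7518, -5486) (by decide +kernel)
          (CovZ.n2 (7518, -5488) (by decide +kernel)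
           (CovZ.leaf K2_ok TT_l932 _)
           (CovZ.leaf K2_ok TT_l933 _))
          (CovZ.leaf K2_ok TT_l934 _)))
        (CovZ.leaf K2_ok TT_l935 _)))))
    (CovZ.n1 (7504, -5504) (by decide +kernel)
     (CovZ.n2 (7496, -5496) (by decide +kernel)
      (CovZ.n2 (7504, -5496) (by decide +kernel)
       (CovZ.n2 (7500, -5500) (by decide +kernel)
        (CovZ.leaf K2_ok TT_l936 _)
        (CovZ.n1 (7504, -5500) (by decide +kernel)
         (CovZ.leaf K2_ok TT_l937 _)
         (CovZ.leaf K2_ok TT_l938 _)))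
       (CovZ.leaf K2_ok TT_l939 _))
      (CovZ.n1 (7496, -5504) (by decide +kernel)
       (CovZ.leaf K2_ok TT_l940 _)
       (CovZ.n1 (7500, -5500) (by decide +kernel)
        (CovZ.n2 (7500, -5504) (by decide +kernel)
         (CovZ.leaf K2_ok TT_l941 _)
         (CovZ.leaf K2_ok TT_l942 _))
        (CovZ.leaf K2_ok TT_l943 _))))
     (CovZ.n1 (7512, -5496) (by decide +kernel)
      (CovZ.n2 (7512, -5504) (by decide +kernel)
       (CovZ.n2 (7508, -5500) (by decide +kernel)
        (CovZ.n2 (7512, -5500) (by decide +kernel)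
         (CovZ.n2 (7510, -5502) (by decide +kernel)
          (CovZ.n2 (7510, -5500) (by decide +kernel)
           (CovZ.leaf K2_ok TT_l944 _)
           (CovZ.leaf K2_ok TT_l945 _))
          (CovZ.n1 (7512, -5502) (by decide +kernel)
           (CovZ.n2 (7511, -5503) (by decide +kernel)
            (CovZ.leaf K2_ok TT_l946 _)
            (CovZ.badM (by decide +kernel)))
           (CovZ.n1 (7511, -5501) (by decide +kernel)
            (CovZ.leaf K2_ok TT_l947 _)
            (CovZ.leaf K2_ok TT_l948 _))))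
         (CovZ.n1 (7510, -5498) (by decide +kernel)
          (CovZ.leaf K2_ok TT_l949 _)
          (CovZ.n1 (7510, -5500) (by decide +kernel)
           (CovZ.leaf K2_ok TT_l950 _)
           (CovZ.leaf K2_ok TT_l951 _))))
        (CovZ.n1 (7508, -5504) (by decide +kernel)
         (CovZ.n2 (7506, -5502) (by decide +kernel)
          (CovZ.leaf K2_ok TT_l952 _)
          (CovZ.leaf K2_ok TT_l953 _))
         (CovZ.n1 (7510, -5502) (by decide +kernel)
          (CovZ.n2 (7510, -5504) (by decide +kernel)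
           (CovZ.leaf K2_ok TT_l954 _)
           (CovZ.n1 (7511, -5503) (by decide +kernel)
            (CovZ.badM (by decide +kernel))
            (CovZ.leaf K2_ok TT_l955 _)))
          (CovZ.leaf K2_ok TT_l956 _))))
       (CovZ.n1 (7516, -5500) (by decide +kernel)
        (CovZ.badM (by decide +kernel))
        (CovZ.n1 (7512, -5500) (by decide +kernel)
         (CovZ.n2 (7514, -5498) (by decide +kernel)
          (CovZ.badM (by decide +kernel))
          (CovZ.n1 (7512, -5498) (by decide +kernel)
           (CovZ.leaf K2_ok TT_l958 _)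
           (CovZ.leaf K2_ok TT_l959 _)))
         (CovZ.badM (by decide +kernel)))))
      (CovZ.n1 (7504, -5496) (by decide +kernel)
       (CovZ.n2 (7508, -5492) (by decide +kernel)
        (CovZ.n2 (7508, -5496) (by decide +kernel)
         (CovZ.leaf K2_ok TT_l962 _)
         (CovZ.n1 (7510, -5494) (by decide +kernel)
          (CovZ.leaf K2_ok TT_l963 _)
          (CovZ.leaf K2_ok TT_l964 _)))
        (CovZ.leaf K2_ok TT_l965 _))
       (CovZ.n1 (7508, -5500) (by decide +kernel)
        (CovZ.n2 (7504, -5500) (by decide +kernel)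
         (CovZ.n2 (7506, -5498) (by decide +kernel)
          (CovZ.leaf K2_ok TT_l966 _)
          (CovZ.leaf K2_ok TT_l967 _))
         (CovZ.leaf K2_ok TT_l968 _))
        (CovZ.n1 (7508, -5496) (by decide +kernel)
         (CovZ.leaf K2_ok TT_l969 _)
         (CovZ.n1 (7506, -5498) (by decide +kernel)
          (CovZ.leaf K2_ok TT_l970 _)
          (CovZ.leaf K2_ok TT_l971 _)))))))))
    (CovZ.topM TT_LL 7 (by decide +kernel) (CovZ.n0 (7504, -5488) (by decide +kernel)
    (CovZ.n2 (7488, -5488) (by decide +kernel)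
     (CovZ.n2 (7496, -5480) (by decide +kernel)
      (CovZ.n2 (7496, -5488) (by decide +kernel)
       (CovZ.leaf K2_ok TT_l972 _)
       (CovZ.n1 (7500, -5484) (by decide +kernel)
        (CovZ.leaf K2_ok TT_l973 _)
        (CovZ.leaf K2_ok TT_l974 _)))
      (CovZ.leaf K2_ok TT_l975 _))
     (CovZ.n1 (7496, -5496) (by decide +kernel)
      (CovZ.n2 (7488, -5496) (by decide +kernel)
       (CovZ.leaf K2_ok TT_l976 _)
       (CovZ.leaf K2_ok TT_l977 _))
      (CovZ.n1 (7496, -5488) (by decide +kernel)
       (CovZ.leaf K2_ok TT_l978 _)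
       (CovZ.leaf K2_ok TT_l979 _))))
    (CovZ.n1 (7504, -5472) (by decide +kernel)
     (CovZ.n2 (7512, -5480) (by decide +kernel)
      (CovZ.n2 (7504, -5480) (by decide +kernel)
       (CovZ.n2 (7508, -5476) (by decide +kernel)
        (CovZ.leaf K2_ok TT_l980 _)
        (CovZ.leaf K2_ok TT_l981 _))
       (CovZ.n1 (7508, -5484) (by decide +kernel)
        (CovZ.leaf K2_ok TT_l982 _)
        (CovZ.leaf K2_ok TT_l983 _)))
      (CovZ.n1 (7512, -5472) (by decide +kernel)
       (CovZ.n2 (7516, -5476) (by decide +kernel)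
        (CovZ.leaf K2_ok TT_l984 _)
        (CovZ.leaf K2_ok TT_l985 _))
       (CovZ.n1 (7508, -5476) (by decide +kernel)
        (CovZ.leaf K2_ok TT_l986 _)
        (CovZ.leaf K2_ok TT_l987 _))))
     (CovZ.n1 (7496, -5480) (by decide +kernel)
      (CovZ.n2 (7496, -5472) (by decide +kernel)
       (CovZ.leaf K2_ok TT_l988 _)
       (CovZ.leaf K2_ok TT_l989 _))
      (CovZ.n1 (7504, -5480) (by decide +kernel)
       (CovZ.n2 (7500, -5484) (by decide +kernel)
        (CovZ.leaf K2_ok TT_l990 _)
        (CovZ.leaf K2_ok TT_l991 _))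
       (CovZ.leaf K2_ok TT_l992 _))))))

theorem TT_s4_6 : SqZ TT_M TT_L [0, 7, 4, 3] 7392 (-5696) 32 4 6 :=
  SqZ.mk (a := 7520) (b := 7552) (c := (-5504)) (d := (-5472)) (by norm_num) (by norm_num) (by norm_num) (by norm_num)
    (CovZ.topM TT_LL 0 (by decide +kernel) (CovZ.badM (by decide +kernel)))
    (CovZ.topM TT_LL 7 (by decide +kernel) (CovZ.n0 (7536, -5488) (by decide +kernel)
    (CovZ.n2 (7520, -5488) (by decide +kernel)
     (CovZ.n2 (7528, -5480) (by decide +kernel)
      (CovZ.n2 (7528, -5488) (by decide +kernel)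
       (CovZ.n2 (7524, -5484) (by decide +kernel)
        (CovZ.badM (by decide +kernel))
        (CovZ.n1 (7524, -5488) (by decide +kernel)
         (CovZ.n2 (7522, -5486) (by decide +kernel)
          (CovZ.badM (by decide +kernel))
          (CovZ.n1 (7522, -5488) (by decide +kernel)
           (CovZ.n2 (7521, -5487) (by decide +kernel)
            (CovZ.badM (by decide +kernel))
            (CovZ.leaf K2_ok TT_l1062 _))
           (CovZ.badM (by decide +kernel))))
         (CovZ.badM (by decide +kernel))))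
       (CovZ.badM (by decide +kernel)))
      (CovZ.n1 (7520, -5480) (by decide +kernel)
       (CovZ.n2 (7524, -5476) (by decide +kernel)
        (CovZ.n2 (7524, -5480) (by decide +kernel)
         (CovZ.n2 (7522, -5478) (by decide +kernel)
          (CovZ.leaf K2_ok TT_l1064 _)
          (CovZ.leaf K2_ok TT_l1065 _))
         (CovZ.n1 (7526, -5478) (by decide +kernel)
          (CovZ.n2 (7526, -5480) (by decide +kernel)
           (CovZ.n2 (7525, -5479) (by decide +kernel)
            (CovZ.leaf K2_ok TT_l1066 _)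
            (CovZ.leaf K2_ok TT_l1067 _))
           (CovZ.n1 (7527, -5479) (by decide +kernel)
            (CovZ.badM (by decide +kernel))
            (CovZ.leaf K2_ok TT_l1069 _)))
          (CovZ.leaf K2_ok TT_l1070 _)))
        (CovZ.n1 (7520, -5476) (by decide +kernel)
         (CovZ.leaf K2_ok TT_l1071 _)
         (CovZ.leaf K2_ok TT_l1072 _)))
       (CovZ.n1 (7524, -5484) (by decide +kernel)
        (CovZ.n2 (7520, -5484) (by decide +kernel)
         (CovZ.n2 (7522, -5482) (by decide +kernel)
          (CovZ.n2 (7522, -5484) (by decide +kernel)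
           (CovZ.leaf K2_ok TT_l1073 _)
           (CovZ.leaf K2_ok TT_l1074 _))
          (CovZ.leaf K2_ok TT_l1075 _))
         (CovZ.n1 (7522, -5486) (by decide +kernel)
          (CovZ.leaf K2_ok TT_l1076 _)
          (CovZ.n1 (7522, -5484) (by decide +kernel)
           (CovZ.leaf K2_ok TT_l1077 _)
           (CovZ.n1 (7521, -5485) (by decide +kernel)
            (CovZ.leaf K2_ok TT_l1078 _)
            (CovZ.leaf K2_ok TT_l1079 _)))))
        (CovZ.n1 (7524, -5480) (by decide +kernel)
         (CovZ.n2 (7526, -5482) (by decide +kernel)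
          (CovZ.n2 (7524, -5482) (by decide +kernel)
           (CovZ.n2 (7525, -5481) (by decide +kernel)
            (CovZ.leaf K2_ok TT_l1080 _)
            (CovZ.leaf K2_ok TT_l1081 _))
           (CovZ.leaf K2_ok TT_l1082 _))
          (CovZ.n1 (7526, -5480) (by decide +kernel)
           (CovZ.badM (by decide +kernel))
           (CovZ.n1 (7525, -5481) (by decide +kernel)
            (CovZ.leaf K2_ok TT_l1085 _)
            (CovZ.leaf K2_ok TT_l1086 _))))
         (CovZ.n1 (7522, -5482) (by decide +kernel)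
          (CovZ.leaf K2_ok TT_l1087 _)
          (CovZ.leaf K2_ok TT_l1088 _))))))
     (CovZ.n1 (7528, -5496) (by decide +kernel)
      (CovZ.n2 (7520, -5496) (by decide +kernel)
       (CovZ.n2 (7524, -5492) (by decide +kernel)
        (CovZ.badM (by decide +kernel))
        (CovZ.n1 (7520, -5492) (by decide +kernel)
         (CovZ.n2 (7522, -5490) (by decide +kernel)
          (CovZ.badM (by decide +kernel))
          (CovZ.n1 (7520, -5490) (by decide +kernel)
           (CovZ.n2 (7521, -5489) (by decide +kernel)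
            (CovZ.badM (by decide +kernel))
            (CovZ.leaf K2_ok TT_l1089 _))
           (CovZ.badM (by decide +kernel))))
         (CovZ.badM (by decide +kernel))))
       (CovZ.badM (by decide +kernel)))
      (CovZ.n1 (7528, -5488) (by decide +kernel)
       (CovZ.badM (by decide +kernel))
       (CovZ.n1 (7524, -5492) (by decide +kernel)
        (CovZ.n2 (7524, -5488) (by decide +kernel)
         (CovZ.badM (by decide +kernel))
         (CovZ.n1 (7522, -5490) (by decide +kernel)
          (CovZ.n2 (7522, -5488) (by decide +kernel)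
           (CovZ.badM (by decide +kernel))
           (CovZ.n1 (7521, -5489) (by decide +kernel)
            (CovZ.n2 (7521, -5488) (by decide +kernel)
             (CovZ.badM (by decide +kernel))
             (CovZ.leaf K2_ok TT_l1090 _))
            (CovZ.badM (by decide +kernel))))
          (CovZ.badM (by decide +kernel))))
        (CovZ.badM (by decide +kernel))))))
    (CovZ.n1 (7536, -5472) (by decide +kernel)
     (CovZ.badM (by decide +kernel))
     (CovZ.n1 (7528, -5480) (by decide +kernel)
      (CovZ.n2 (7528, -5472) (by decide +kernel)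
       (CovZ.n2 (7532, -5476) (by decide +kernel)
        (CovZ.n2 (7528, -5476) (by decide +kernel)
         (CovZ.n2 (7530, -5474) (by decide +kernel)
          (CovZ.n2 (7530, -5476) (by decide +kernel)
           (CovZ.leaf K2_ok TT_l1091 _)
           (CovZ.badM (by decide +kernel)))
          (CovZ.leaf K2_ok TT_l1093 _))
         (CovZ.n1 (7530, -5478) (by decide +kernel)
          (CovZ.n2 (7528, -5478) (by decide +kernel)
           (CovZ.n2 (7529, -5477) (by decide +kernel)
            (CovZ.badM (by decide +kernel))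
            (CovZ.leaf K2_ok TT_l1094 _))
           (CovZ.badM (by decide +kernel)))
          (CovZ.n1 (7530, -5476) (by decide +kernel)
           (CovZ.badM (by decide +kernel))
           (CovZ.n1 (7529, -5477) (by decide +kernel)
            (CovZ.leaf K2_ok TT_l1095 _)
            (CovZ.badM (by decide +kernel))))))
        (CovZ.n1 (7532, -5472) (by decide +kernel)
         (CovZ.badM (by decide +kernel))
         (CovZ.n1 (7530, -5474) (by decide +kernel)
          (CovZ.n2 (7530, -5472) (by decide +kernel)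
           (CovZ.leaf K2_ok TT_l1099 _)
           (CovZ.leaf K2_ok TT_l1100 _))
          (CovZ.badM (by decide +kernel)))))
       (CovZ.n1 (7524, -5476) (by decide +kernel)
        (CovZ.n2 (7524, -5472) (by decide +kernel)
         (CovZ.n2 (7526, -5474) (by decide +kernel)
          (CovZ.leaf K2_ok TT_l1105 _)
          (CovZ.leaf K2_ok TT_l1106 _))
         (CovZ.leaf K2_ok TT_l1107 _))
        (CovZ.n1 (7528, -5476) (by decide +kernel)
         (CovZ.n2 (7526, -5478) (by decide +kernel)
          (CovZ.n2 (7526, -5476) (by decide +kernel)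
           (CovZ.leaf K2_ok TT_l1108 _)
           (CovZ.leaf K2_ok TT_l1109 _))
          (CovZ.n1 (7528, -5478) (by decide +kernel)
           (CovZ.n2 (7527, -5479) (by decide +kernel)
            (CovZ.leaf K2_ok TT_l1110 _)
            (CovZ.badM (by decide +kernel)))
           (CovZ.leaf K2_ok TT_l1112 _)))
         (CovZ.n1 (7526, -5474) (by decide +kernel)
          (CovZ.leaf K2_ok TT_l1113 _)
          (CovZ.n1 (7526, -5476) (by decide +kernel)
           (CovZ.leaf K2_ok TT_l1114 _)
           (CovZ.leaf K2_ok TT_l1115 _))))))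
      (CovZ.badM (by decide +kernel))))))

theorem TT_s5_6 : SqZ TT_M TT_L [0, 7, 4, 3] 7392 (-5696) 32 5 6 :=
  SqZ.mk (a := 7552) (b := 7584) (c := (-5504)) (d := (-5472)) (by norm_num) (by norm_num) (by norm_num) (by norm_num)
    (CovZ.topM TT_LL 0 (by decide +kernel) (CovZ.badM (by decide +kernel)))
    (CovZ.topM TT_LL 0 (by decide +kernel) (CovZ.badM (by decide +kernel)))

theorem TT_s6_6 : SqZ TT_M TT_L [0, 7, 4, 3] 7392 (-5696) 32 6 6 :=
  SqZ.mk (a := 7584) (b := 7616) (c := (-5504)) (d := (-5472)) (by norm_num) (by norm_num) (by norm_num) (by norm_num)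
    (CovZ.topM TT_LL 0 (by decide +kernel) (CovZ.badM (by decide +kernel)))
    (CovZ.topM TT_LL 0 (by decide +kernel) (CovZ.badM (by decide +kernel)))

theorem TT_s7_6 : SqZ TT_M TT_L [0, 7, 4, 3] 7392 (-5696) 32 7 6 :=
  SqZ.mk (a := 7616) (b := 7648) (c := (-5504)) (d := (-5472)) (by norm_num) (by norm_num) (by norm_num) (by norm_num)
    (CovZ.topM TT_LL 0 (by decide +kernel) (CovZ.badM (by decide +kernel)))
    (CovZ.topM TT_LL 0 (by decide +kernel) (CovZ.badM (by decide +kernel)))

theorem TT_s8_6 : SqZ TT_M TT_L [0, 7, 4, 3] 7392 (-5696) 32 8 6 :=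
  SqZ.mk (a := 7648) (b := 7680) (c := (-5504)) (d := (-5472)) (by norm_num) (by norm_num) (by norm_num) (by norm_num)
    (CovZ.topM TT_LL 0 (by decide +kernel) (CovZ.badM (by decide +kernel)))
    (CovZ.topM TT_LL 0 (by decide +kernel) (CovZ.badM (by decide +kernel)))

theorem TT_s0_7 : SqZ TT_M TT_L [0, 7, 4, 3] 7392 (-5696) 32 0 7 :=
  SqZ.mk (a := 7392) (b := 7424) (c := (-5472)) (d := (-5440)) (by norm_num) (by norm_num) (by norm_num) (by norm_num)
    (CovZ.topM TT_LL 7 (by decide +kernel) (CovZ.leaf K2_ok TT_l250 _))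
    (CovZ.topM TT_LL 2 (by decide +kernel) (CovZ.n0 (7408, -5456) (by decide +kernel)
    (CovZ.leaf K2_ok TT_l251 _)
    (CovZ.leaf K2_ok TT_l252 _)))

theorem TT_s1_7 : SqZ TT_M TT_L [0, 7, 4, 3] 7392 (-5696) 32 1 7 :=
  SqZ.mk (a := 7424) (b := 7456) (c := (-5472)) (d := (-5440)) (by norm_num) (by norm_num) (by norm_num) (by norm_num)
    (CovZ.topM TT_LL 7 (by decide +kernel) (CovZ.n2 (7440, -5456) (by decide +kernel)
    (CovZ.leaf K2_ok TT_l471 _)
    (CovZ.n1 (7440, -5472) (by decide +kernel)
     (CovZ.n2 (7432, -5464) (by decide +kernel)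
      (CovZ.leaf K2_ok TT_l472 _)
      (CovZ.leaf K2_ok TT_l473 _))
     (CovZ.leaf K2_ok TT_l474 _))))
    (CovZ.topM TT_LL 7 (by decide +kernel) (CovZ.n0 (7440, -5456) (by decide +kernel)
    (CovZ.leaf K2_ok TT_l475 _)
    (CovZ.n1 (7440, -5440) (by decide +kernel)
     (CovZ.leaf K2_ok TT_l476 _)
     (CovZ.leaf K2_ok TT_l477 _))))

theorem TT_s2_7 : SqZ TT_M TT_L [0, 7, 4, 3] 7392 (-5696) 32 2 7 :=
  SqZ.mk (a := 7456) (b := 7488) (c := (-5472)) (d := (-5440)) (by norm_num) (by norm_num) (by norm_num) (by norm_num)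
    (CovZ.topM TT_LL 7 (by decide +kernel) (CovZ.n2 (7472, -5456) (by decide +kernel)
    (CovZ.n2 (7488, -5456) (by decide +kernel)
     (CovZ.n2 (7480, -5464) (by decide +kernel)
      (CovZ.leaf K2_ok TT_l756 _)
      (CovZ.leaf K2_ok TT_l757 _))
     (CovZ.leaf K2_ok TT_l758 _))
    (CovZ.n1 (7472, -5472) (by decide +kernel)
     (CovZ.leaf K2_ok TT_l759 _)
     (CovZ.n1 (7480, -5464) (by decide +kernel)
      (CovZ.leaf K2_ok TT_l760 _)
      (CovZ.leaf K2_ok TT_l761 _)))))
    (CovZ.topM TT_LL 7 (by decide +kernel) (CovZ.n0 (7472, -5456) (by decide +kernel)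
    (CovZ.n2 (7456, -5456) (by decide +kernel)
     (CovZ.leaf K2_ok TT_l762 _)
     (CovZ.leaf K2_ok TT_l763 _))
    (CovZ.n1 (7472, -5440) (by decide +kernel)
     (CovZ.leaf K2_ok TT_l764 _)
     (CovZ.leaf K2_ok TT_l765 _))))

theorem TT_s3_7 : SqZ TT_M TT_L [0, 7, 4, 3] 7392 (-5696) 32 3 7 :=
  SqZ.mk (a := 7488) (b := 7520) (c := (-5472)) (d := (-5440)) (by norm_num) (by norm_num) (by norm_num) (by norm_num)
    (CovZ.topM TT_LL 7 (by decide +kernel) (CovZ.n2 (7504, -5456) (by decide +kernel)
    (CovZ.n2 (7520, -5456) (by decide +kernel)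
     (CovZ.n2 (7512, -5464) (by decide +kernel)
      (CovZ.n2 (7512, -5456) (by decide +kernel)
       (CovZ.leaf K2_ok TT_l993 _)
       (CovZ.leaf K2_ok TT_l994 _))
      (CovZ.n1 (7520, -5464) (by decide +kernel)
       (CovZ.n2 (7516, -5468) (by decide +kernel)
        (CovZ.leaf K2_ok TT_l995 _)
        (CovZ.leaf K2_ok TT_l996 _))
       (CovZ.leaf K2_ok TT_l997 _)))
     (CovZ.n1 (7512, -5448) (by decide +kernel)
      (CovZ.n2 (7520, -5448) (by decide +kernel)
       (CovZ.n2 (7516, -5452) (by decide +kernel)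
        (CovZ.leaf K2_ok TT_l998 _)
        (CovZ.leaf K2_ok TT_l999 _))
       (CovZ.leaf K2_ok TT_l1000 _))
      (CovZ.n1 (7512, -5456) (by decide +kernel)
       (CovZ.leaf K2_ok TT_l1001 _)
       (CovZ.leaf K2_ok TT_l1002 _))))
    (CovZ.n1 (7504, -5472) (by decide +kernel)
     (CovZ.n2 (7496, -5464) (by decide +kernel)
      (CovZ.leaf K2_ok TT_l1003 _)
      (CovZ.n1 (7496, -5472) (by decide +kernel)
       (CovZ.leaf K2_ok TT_l1004 _)
       (CovZ.leaf K2_ok TT_l1005 _)))
     (CovZ.n1 (7512, -5464) (by decide +kernel)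
      (CovZ.n2 (7512, -5472) (by decide +kernel)
       (CovZ.leaf K2_ok TT_l1006 _)
       (CovZ.n1 (7516, -5468) (by decide +kernel)
        (CovZ.leaf K2_ok TT_l1007 _)
        (CovZ.leaf K2_ok TT_l1008 _)))
      (CovZ.n1 (7504, -5464) (by decide +kernel)
       (CovZ.leaf K2_ok TT_l1009 _)
       (CovZ.leaf K2_ok TT_l1010 _))))))
    (CovZ.topM TT_LL 7 (by decide +kernel) (CovZ.n0 (7504, -5456) (by decide +kernel)
    (CovZ.n2 (7488, -5456) (by decide +kernel)
     (CovZ.n2 (7496, -5448) (by decide +kernel)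
      (CovZ.leaf K2_ok TT_l1011 _)
      (CovZ.leaf K2_ok TT_l1012 _))
     (CovZ.n1 (7496, -5464) (by decide +kernel)
      (CovZ.leaf K2_ok TT_l1013 _)
      (CovZ.n1 (7496, -5456) (by decide +kernel)
       (CovZ.leaf K2_ok TT_l1014 _)
       (CovZ.leaf K2_ok TT_l1015 _))))
    (CovZ.n1 (7504, -5440) (by decide +kernel)
     (CovZ.n2 (7512, -5448) (by decide +kernel)
      (CovZ.leaf K2_ok TT_l1016 _)
      (CovZ.n1 (7512, -5440) (by decide +kernel)
       (CovZ.leaf K2_ok TT_l1017 _)
       (CovZ.leaf K2_ok TT_l1018 _)))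
     (CovZ.n1 (7496, -5448) (by decide +kernel)
      (CovZ.leaf K2_ok TT_l1019 _)
      (CovZ.leaf K2_ok TT_l1020 _)))))

end Pool.Agent.TET
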