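import Pool.Agent.Helper38_TET.TT_M
import Pool.Agent.Helper38_TET.TT_L
import Pool.Agent.Helper38_TET.TT_15
import Pool.Agent.Helper38_TET.TT_16
import Pool.Agent.Helper38_TET.TT_18
import Pool.Agent.Helper38_TET.TT_19
import Pool.Agent.Helper38_TET.TT_20
import Pool.Agent.Helper38_TET.TT_21

/-!
# MP_c7c9bf_co: certificates, family TT
-/

set_option autoImplicit false
set_option maxRecDepth 100000

namespace Pool.Agent.TET

theorem TT_u14 : CovZ TT_M (toL (selN TT_LN 7)) [0, 7, 4, 3] (7616, -5312) (7600, -5328) (7616, -5344) :=
    (CovZ.n2 (7616, -5328) (by decide +kernel)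
     (CovZ.n2 (7608, -5336) (by decide +kernel)
      (CovZ.n2 (7608, -5328) (by decide +kernel)
       (CovZ.badM (by decide +kernel))
       (CovZ.n1 (7604, -5332) (by decide +kernel)
        (CovZ.n2 (7604, -5328) (by decide +kernel)
         (CovZ.n2 (7606, -5330) (by decide +kernel)
          (CovZ.n2 (7604, -5330) (by decide +kernel)
           (CovZ.n2 (7605, -5329) (by decide +kernel)
            (CovZ.leaf K2_ok TT_l2265 _)
            (CovZ.leaf K2_ok TT_l2266 _))
           (CovZ.leaf K2_ok TT_l2267 _))
          (CovZ.n1 (7606, -5328) (by decide +kernel)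
           (CovZ.n2 (7607, -5329) (by decide +kernel)
            (CovZ.leaf K2_ok TT_l2268 _)
            (CovZ.n1 (7607, -5328) (by decide +kernel)
             (CovZ.badM (by decide +kernel))
             (CovZ.leaf K2_ok TT_l2269 _)))
           (CovZ.n1 (7605, -5329) (by decide +kernel)
            (CovZ.leaf K2_ok TT_l2270 _)
            (CovZ.leaf K2_ok TT_l2271 _))))
         (CovZ.n1 (7602, -5330) (by decide +kernel)
          (CovZ.n2 (7602, -5328) (by decide +kernel)
           (CovZ.leaf K2_ok TT_l2272 _)
           (CovZ.leaf K2_ok TT_l2273 _))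
          (CovZ.n1 (7604, -5330) (by decide +kernel)
           (CovZ.n2 (7603, -5331) (by decide +kernel)
            (CovZ.leaf K2_ok TT_l2274 _)
            (CovZ.leaf K2_ok TT_l2275 _))
           (CovZ.leaf K2_ok TT_l2276 _))))
        (CovZ.n1 (7608, -5332) (by decide +kernel)
         (CovZ.n2 (7606, -5334) (by decide +kernel)
          (CovZ.n2 (7606, -5332) (by decide +kernel)
           (CovZ.badM (by decide +kernel))
           (CovZ.n1 (7605, -5333) (by decide +kernel)
            (CovZ.n2 (7605, -5332) (by decide +kernel)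
             (CovZ.leaf K2_ok TT_l2277 _)
             (CovZ.leaf K2_ok TT_l2278 _))
            (CovZ.badM (by decide +kernel))))
          (CovZ.badM (by decide +kernel)))
         (CovZ.n1 (7606, -5330) (by decide +kernel)
          (CovZ.n2 (7608, -5330) (by decide +kernel)
           (CovZ.n2 (7607, -5331) (by decide +kernel)
            (CovZ.n2 (7607, -5330) (by decide +kernel)
             (CovZ.badM (by decide +kernel))
             (CovZ.leaf K2_ok TT_l2279 _))
            (CovZ.badM (by decide +kernel)))
           (CovZ.leaf K2_ok TT_l2280 _))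
          (CovZ.n1 (7606, -5332) (by decide +kernel)
           (CovZ.leaf K2_ok TT_l2281 _)
           (CovZ.n1 (7607, -5331) (by decide +kernel)
            (CovZ.badM (by decide +kernel))
            (CovZ.leaf K2_ok TT_l2282 _)))))))
      (CovZ.badM (by decide +kernel)))
     (CovZ.n1 (7608, -5320) (by decide +kernel)
      (CovZ.n2 (7616, -5320) (by decide +kernel)
       (CovZ.n2 (7612, -5324) (by decide +kernel)
        (CovZ.n2 (7612, -5320) (by decide +kernel)
         (CovZ.badM (by decide +kernel))
         (CovZ.n1 (7610, -5322) (by decide +kernel)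
          (CovZ.n2 (7610, -5320) (by decide +kernel)
           (CovZ.n2 (7611, -5321) (by decide +kernel)
            (CovZ.leaf K2_ok TT_l2283 _)
            (CovZ.n1 (7611, -5320) (by decide +kernel)
             (CovZ.badM (by decide +kernel))
             (CovZ.leaf K2_ok TT_l2284 _)))
           (CovZ.n1 (7609, -5321) (by decide +kernel)
            (CovZ.leaf K2_ok TT_l2285 _)
            (CovZ.leaf K2_ok TT_l2286 _)))
          (CovZ.badM (by decide +kernel))))
        (CovZ.badM (by decide +kernel)))
       (CovZ.n1 (7612, -5316) (by decide +kernel)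
        (CovZ.n2 (7616, -5316) (by decide +kernel)
         (CovZ.n2 (7614, -5318) (by decide +kernel)
          (CovZ.n2 (7614, -5316) (by decide +kernel)
           (CovZ.badM (by decide +kernel))
           (CovZ.n1 (7613, -5317) (by decide +kernel)
            (CovZ.n2 (7613, -5316) (by decide +kernel)
             (CovZ.badM (by decide +kernel))
             (CovZ.leaf K2_ok TT_l2287 _))
            (CovZ.badM (by decide +kernel))))
          (CovZ.badM (by decide +kernel)))
         (CovZ.n1 (7614, -5314) (by decide +kernel)
          (CovZ.badM (by decide +kernel))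
          (CovZ.n1 (7614, -5316) (by decide +kernel)
           (CovZ.n2 (7613, -5315) (by decide +kernel)
            (CovZ.badM (by decide +kernel))
            (CovZ.leaf K2_ok TT_l2288 _))
           (CovZ.badM (by decide +kernel)))))
        (CovZ.n1 (7612, -5320) (by decide +kernel)
         (CovZ.n2 (7610, -5318) (by decide +kernel)
          (CovZ.n2 (7612, -5318) (by decide +kernel)
           (CovZ.n2 (7611, -5319) (by decide +kernel)
            (CovZ.n2 (7611, -5318) (by decide +kernel)
             (CovZ.leaf K2_ok TT_l2289 _)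
             (CovZ.leaf K2_ok TT_l2290 _))
            (CovZ.badM (by decide +kernel)))
           (CovZ.n1 (7611, -5317) (by decide +kernel)
            (CovZ.leaf K2_ok TT_l2291 _)
            (CovZ.leaf K2_ok TT_l2292 _)))
          (CovZ.n1 (7610, -5320) (by decide +kernel)
           (CovZ.leaf K2_ok TT_l2293 _)
           (CovZ.n1 (7611, -5319) (by decide +kernel)
            (CovZ.leaf K2_ok TT_l2294 _)
            (CovZ.leaf K2_ok TT_l2295 _))))
         (CovZ.n1 (7614, -5318) (by decide +kernel)
          (CovZ.badM (by decide +kernel))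
          (CovZ.n1 (7612, -5318) (by decide +kernel)
           (CovZ.n2 (7613, -5317) (by decide +kernel)
            (CovZ.badM (by decide +kernel))
            (CovZ.n1 (7612, -5317) (by decide +kernel)
             (CovZ.leaf K2_ok TT_l2296 _)
             (CovZ.badM (by decide +kernel))))
           (CovZ.badM (by decide +kernel)))))))
      (CovZ.n1 (7608, -5328) (by decide +kernel)
       (CovZ.n2 (7604, -5324) (by decide +kernel)
        (CovZ.n2 (7608, -5324) (by decide +kernel)
         (CovZ.n2 (7606, -5326) (by decide +kernel)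
          (CovZ.n2 (7606, -5324) (by decide +kernel)
           (CovZ.leaf K2_ok TT_l2297 _)
           (CovZ.leaf K2_ok TT_l2298 _))
          (CovZ.n1 (7608, -5326) (by decide +kernel)
           (CovZ.n2 (7607, -5327) (by decide +kernel)
            (CovZ.leaf K2_ok TT_l2299 _)
            (CovZ.leaf K2_ok TT_l2300 _))
           (CovZ.n1 (7607, -5325) (by decide +kernel)
            (CovZ.leaf K2_ok TT_l2301 _)
            (CovZ.leaf K2_ok TT_l2302 _))))
         (CovZ.n1 (7606, -5322) (by decide +kernel)
          (CovZ.n2 (7608, -5322) (by decide +kernel)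
           (CovZ.n2 (7607, -5323) (by decide +kernel)
            (CovZ.leaf K2_ok TT_l2303 _)
            (CovZ.leaf K2_ok TT_l2304 _))
           (CovZ.leaf K2_ok TT_l2305 _))
          (CovZ.n1 (7606, -5324) (by decide +kernel)
           (CovZ.leaf K2_ok TT_l2306 _)
           (CovZ.n1 (7607, -5323) (by decide +kernel)
            (CovZ.leaf K2_ok TT_l2307 _)
            (CovZ.leaf K2_ok TT_l2308 _)))))
        (CovZ.n1 (7604, -5328) (by decide +kernel)
         (CovZ.n2 (7602, -5326) (by decide +kernel)
          (CovZ.n2 (7604, -5326) (by decide +kernel)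
           (CovZ.leaf K2_ok TT_l2309 _)
           (CovZ.leaf K2_ok TT_l2310 _))
          (CovZ.n1 (7602, -5328) (by decide +kernel)
           (CovZ.leaf K2_ok TT_l2311 _)
           (CovZ.leaf K2_ok TT_l2312 _)))
         (CovZ.n1 (7606, -5326) (by decide +kernel)
          (CovZ.n2 (7606, -5328) (by decide +kernel)
           (CovZ.leaf K2_ok TT_l2313 _)
           (CovZ.n1 (7607, -5327) (by decide +kernel)
            (CovZ.leaf K2_ok TT_l2314 _)
            (CovZ.leaf K2_ok TT_l2315 _)))
          (CovZ.n1 (7604, -5326) (by decide +kernel)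
           (CovZ.leaf K2_ok TT_l2316 _)
           (CovZ.leaf K2_ok TT_l2317 _)))))
       (CovZ.n1 (7612, -5324) (by decide +kernel)
        (CovZ.badM (by decide +kernel))
        (CovZ.n1 (7608, -5324) (by decide +kernel)
         (CovZ.n2 (7610, -5322) (by decide +kernel)
          (CovZ.n2 (7610, -5324) (by decide +kernel)
           (CovZ.n2 (7609, -5323) (by decide +kernel)
            (CovZ.leaf K2_ok TT_l2318 _)
            (CovZ.leaf K2_ok TT_l2319 _))
           (CovZ.badM (by decide +kernel)))
          (CovZ.n1 (7608, -5322) (by decide +kernel)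
           (CovZ.n2 (7609, -5321) (by decide +kernel)
            (CovZ.leaf K2_ok TT_l2320 _)
            (CovZ.leaf K2_ok TT_l2321 _))
           (CovZ.leaf K2_ok TT_l2322 _)))
         (CovZ.n1 (7610, -5326) (by decide +kernel)
          (CovZ.n2 (7608, -5326) (by decide +kernel)
           (CovZ.n2 (7609, -5325) (by decide +kernel)
            (CovZ.badM (by decide +kernel))
            (CovZ.leaf K2_ok TT_l2323 _))
           (CovZ.badM (by decide +kernel)))
          (CovZ.n1 (7610, -5324) (by decide +kernel)
           (CovZ.badM (by decide +kernel))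
           (CovZ.n1 (7609, -5325) (by decide +kernel)
            (CovZ.leaf K2_ok TT_l2324 _)
            (CovZ.badM (by decide +kernel))))))))))

theorem TT_u15 : CovZ TT_M (toL (selN TT_LN 7)) [0, 7, 4, 3] (7600, -5328) (7584, -5344) (7616, -5344) :=
    (CovZ.n1 (7600, -5344) (by decide +kernel)
     (CovZ.n2 (7592, -5336) (by decide +kernel)
      (CovZ.n2 (7600, -5336) (by decide +kernel)
       (CovZ.n2 (7596, -5340) (by decide +kernel)
        (CovZ.n2 (7596, -5336) (by decide +kernel)
         (CovZ.n2 (7598, -5338) (by decide +kernel)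
          (CovZ.leaf K2_ok TT_l2325 _)
          (CovZ.n1 (7598, -5336) (by decide +kernel)
           (CovZ.leaf K2_ok TT_l2326 _)
           (CovZ.leaf K2_ok TT_l2327 _)))
         (CovZ.n1 (7594, -5338) (by decide +kernel)
          (CovZ.leaf K2_ok TT_l2328 _)
          (CovZ.leaf K2_ok TT_l2329 _)))
        (CovZ.n1 (7600, -5340) (by decide +kernel)
         (CovZ.n2 (7598, -5342) (by decide +kernel)
          (CovZ.n2 (7598, -5340) (by decide +kernel)
           (CovZ.leaf K2_ok TT_l2330 _)
           (CovZ.leaf K2_ok TT_l2331 _))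
          (CovZ.n1 (7600, -5342) (by decide +kernel)
           (CovZ.n2 (7599, -5343) (by decide +kernel)
            (CovZ.leaf K2_ok TT_l2332 _)
            (CovZ.leaf K2_ok TT_l2333 _))
           (CovZ.leaf K2_ok TT_l2334 _)))
         (CovZ.n1 (7598, -5338) (by decide +kernel)
          (CovZ.n2 (7600, -5338) (by decide +kernel)
           (CovZ.n2 (7599, -5339) (by decide +kernel)
            (CovZ.leaf K2_ok TT_l2335 _)
            (CovZ.leaf K2_ok TT_l2336 _))
           (CovZ.leaf K2_ok TT_l2337 _))
          (CovZ.n1 (7598, -5340) (by decide +kernel)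
           (CovZ.leaf K2_ok TT_l2338 _)
           (CovZ.leaf K2_ok TT_l2339 _)))))
       (CovZ.n1 (7596, -5332) (by decide +kernel)
        (CovZ.n2 (7600, -5332) (by decide +kernel)
         (CovZ.n2 (7598, -5334) (by decide +kernel)
          (CovZ.n2 (7598, -5332) (by decide +kernel)
           (CovZ.leaf K2_ok TT_l2340 _)
           (CovZ.leaf K2_ok TT_l2341 _))
          (CovZ.n1 (7600, -5334) (by decide +kernel)
           (CovZ.leaf K2_ok TT_l2342 _)
           (CovZ.leaf K2_ok TT_l2343 _)))
         (CovZ.n1 (7598, -5330) (by decide +kernel)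
          (CovZ.leaf K2_ok TT_l2344 _)
          (CovZ.leaf K2_ok TT_l2345 _)))
        (CovZ.n1 (7596, -5336) (by decide +kernel)
         (CovZ.leaf K2_ok TT_l2346 _)
         (CovZ.n1 (7598, -5334) (by decide +kernel)
          (CovZ.n2 (7598, -5336) (by decide +kernel)
           (CovZ.leaf K2_ok TT_l2347 _)
           (CovZ.leaf K2_ok TT_l2348 _))
          (CovZ.leaf K2_ok TT_l2349 _)))))
      (CovZ.n1 (7592, -5344) (by decide +kernel)
       (CovZ.n2 (7588, -5340) (by decide +kernel)
        (CovZ.n2 (7592, -5340) (by decide +kernel)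
         (CovZ.n2 (7590, -5342) (by decide +kernel)
          (CovZ.leaf K2_ok TT_l2350 _)
          (CovZ.leaf K2_ok TT_l2351 _))
         (CovZ.leaf K2_ok TT_l2352 _))
        (CovZ.n1 (7588, -5344) (by decide +kernel)
         (CovZ.leaf K2_ok TT_l2353 _)
         (CovZ.n1 (7590, -5342) (by decide +kernel)
          (CovZ.leaf K2_ok TT_l2354 _)
          (CovZ.leaf K2_ok TT_l2355 _))))
       (CovZ.n1 (7596, -5340) (by decide +kernel)
        (CovZ.n2 (7596, -5344) (by decide +kernel)
         (CovZ.n2 (7594, -5342) (by decide +kernel)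
          (CovZ.leaf K2_ok TT_l2356 _)
          (CovZ.n1 (7594, -5344) (by decide +kernel)
           (CovZ.leaf K2_ok TT_l2357 _)
           (CovZ.leaf K2_ok TT_l2358 _)))
         (CovZ.n1 (7598, -5342) (by decide +kernel)
          (CovZ.n2 (7598, -5344) (by decide +kernel)
           (CovZ.leaf K2_ok TT_l2359 _)
           (CovZ.n1 (7599, -5343) (by decide +kernel)
            (CovZ.leaf K2_ok TT_l2360 _)
            (CovZ.leaf K2_ok TT_l2361 _)))
          (CovZ.n1 (7596, -5342) (by decide +kernel)
           (CovZ.leaf K2_ok TT_l2362 _)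
           (CovZ.leaf K2_ok TT_l2363 _))))
        (CovZ.n1 (7592, -5340) (by decide +kernel)
         (CovZ.n2 (7594, -5338) (by decide +kernel)
          (CovZ.leaf K2_ok TT_l2364 _)
          (CovZ.leaf K2_ok TT_l2365 _))
         (CovZ.n1 (7594, -5342) (by decide +kernel)
          (CovZ.leaf K2_ok TT_l2366 _)
          (CovZ.n1 (7594, -5340) (by decide +kernel)
           (CovZ.leaf K2_ok TT_l2367 _)
           (CovZ.leaf K2_ok TT_l2368 _)))))))
     (CovZ.n1 (7608, -5336) (by decide +kernel)
      (CovZ.n2 (7608, -5344) (by decide +kernel)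
       (CovZ.n2 (7604, -5340) (by decide +kernel)
        (CovZ.badM (by decide +kernel))
        (CovZ.n1 (7604, -5344) (by decide +kernel)
         (CovZ.n2 (7602, -5342) (by decide +kernel)
          (CovZ.badM (by decide +kernel))
          (CovZ.n1 (7602, -5344) (by decide +kernel)
           (CovZ.n2 (7601, -5343) (by decide +kernel)
            (CovZ.badM (by decide +kernel))
            (CovZ.leaf K2_ok TT_l2369 _))
           (CovZ.badM (by decide +kernel))))
         (CovZ.badM (by decide +kernel))))
       (CovZ.badM (by decide +kernel)))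
      (CovZ.n1 (7600, -5336) (by decide +kernel)
       (CovZ.n2 (7604, -5332) (by decide +kernel)
        (CovZ.n2 (7604, -5336) (by decide +kernel)
         (CovZ.n2 (7602, -5334) (by decide +kernel)
          (CovZ.n2 (7604, -5334) (by decide +kernel)
           (CovZ.n2 (7603, -5335) (by decide +kernel)
            (CovZ.leaf K2_ok TT_l2370 _)
            (CovZ.leaf K2_ok TT_l2371 _))
           (CovZ.leaf K2_ok TT_l2372 _))
          (CovZ.n1 (7602, -5336) (by decide +kernel)
           (CovZ.leaf K2_ok TT_l2373 _)
           (CovZ.n1 (7603, -5335) (by decide +kernel)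
            (CovZ.leaf K2_ok TT_l2374 _)
            (CovZ.leaf K2_ok TT_l2375 _))))
         (CovZ.n1 (7606, -5334) (by decide +kernel)
          (CovZ.badM (by decide +kernel))
          (CovZ.n1 (7604, -5334) (by decide +kernel)
           (CovZ.n2 (7605, -5333) (by decide +kernel)
            (CovZ.leaf K2_ok TT_l2376 _)
            (CovZ.leaf K2_ok TT_l2377 _))
           (CovZ.n1 (7605, -5335) (by decide +kernel)
            (CovZ.leaf K2_ok TT_l2378 _)
            (CovZ.leaf K2_ok TT_l2379 _)))))
        (CovZ.n1 (7600, -5332) (by decide +kernel)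
         (CovZ.n2 (7602, -5330) (by decide +kernel)
          (CovZ.n2 (7602, -5332) (by decide +kernel)
           (CovZ.leaf K2_ok TT_l2380 _)
           (CovZ.leaf K2_ok TT_l2381 _))
          (CovZ.n1 (7600, -5330) (by decide +kernel)
           (CovZ.leaf K2_ok TT_l2382 _)
           (CovZ.leaf K2_ok TT_l2383 _)))
         (CovZ.n1 (7602, -5334) (by decide +kernel)
          (CovZ.n2 (7600, -5334) (by decide +kernel)
           (CovZ.leaf K2_ok TT_l2384 _)
           (CovZ.leaf K2_ok TT_l2385 _))
          (CovZ.n1 (7602, -5332) (by decide +kernel)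
           (CovZ.leaf K2_ok TT_l2386 _)
           (CovZ.n1 (7601, -5333) (by decide +kernel)
            (CovZ.leaf K2_ok TT_l2387 _)
            (CovZ.leaf K2_ok TT_l2388 _))))))
       (CovZ.n1 (7604, -5340) (by decide +kernel)
        (CovZ.n2 (7600, -5340) (by decide +kernel)
         (CovZ.n2 (7602, -5338) (by decide +kernel)
          (CovZ.n2 (7602, -5340) (by decide +kernel)
           (CovZ.n2 (7601, -5339) (by decide +kernel)
            (CovZ.leaf K2_ok TT_l2389 _)
            (CovZ.leaf K2_ok TT_l2390 _))
           (CovZ.n1 (7603, -5339) (by decide +kernel)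
            (CovZ.badM (by decide +kernel))
            (CovZ.leaf K2_ok TT_l2391 _)))
          (CovZ.n1 (7600, -5338) (by decide +kernel)
           (CovZ.n2 (7601, -5337) (by decide +kernel)
            (CovZ.leaf K2_ok TT_l2392 _)
            (CovZ.leaf K2_ok TT_l2393 _))
           (CovZ.leaf K2_ok TT_l2394 _)))
         (CovZ.n1 (7602, -5342) (by decide +kernel)
          (CovZ.n2 (7600, -5342) (by decide +kernel)
           (CovZ.n2 (7601, -5341) (by decide +kernel)
            (CovZ.leaf K2_ok TT_l2395 _)
            (CovZ.leaf K2_ok TT_l2396 _))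
           (CovZ.n1 (7601, -5343) (by decide +kernel)
            (CovZ.leaf K2_ok TT_l2397 _)
            (CovZ.n1 (7601, -5342) (by decide +kernel)
             (CovZ.badM (by decide +kernel))
             (CovZ.leaf K2_ok TT_l2398 _))))
          (CovZ.n1 (7602, -5340) (by decide +kernel)
           (CovZ.badM (by decide +kernel))
           (CovZ.n1 (7601, -5341) (by decide +kernel)
            (CovZ.n2 (7601, -5340) (by decide +kernel)
             (CovZ.leaf K2_ok TT_l2399 _)
             (CovZ.leaf K2_ok TT_l2400 _))
            (CovZ.leaf K2_ok TT_l2401 _)))))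
        (CovZ.n1 (7604, -5336) (by decide +kernel)
         (CovZ.badM (by decide +kernel))
         (CovZ.n1 (7602, -5338) (by decide +kernel)
          (CovZ.n2 (7602, -5336) (by decide +kernel)
           (CovZ.leaf K2_ok TT_l2402 _)
           (CovZ.n1 (7601, -5337) (by decide +kernel)
            (CovZ.leaf K2_ok TT_l2403 _)
            (CovZ.leaf K2_ok TT_l2404 _)))
          (CovZ.n1 (7604, -5338) (by decide +kernel)
           (CovZ.n2 (7603, -5339) (by decide +kernel)
            (CovZ.leaf K2_ok TT_l2405 _)
            (CovZ.badM (by decide +kernel)))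
           (CovZ.n1 (7603, -5337) (by decide +kernel)
            (CovZ.leaf K2_ok TT_l2406 _)
            (CovZ.leaf K2_ok TT_l2407 _)))))))))

theorem TT_u16 : CovZ TT_M (toL (selN TT_LN 6)) [0, 7, 4, 3] (7616, -5312) (7632, -5296) (7616, -5280) :=
    (CovZ.n2 (7616, -5296) (by decide +kernel)
     (CovZ.n2 (7624, -5288) (by decide +kernel)
      (CovZ.n2 (7624, -5296) (by decide +kernel)
       (CovZ.n2 (7620, -5292) (by decide +kernel)
        (CovZ.n2 (7624, -5292) (by decide +kernel)
         (CovZ.n2 (7622, -5294) (by decide +kernel)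
          (CovZ.n2 (7622, -5292) (by decide +kernel)
           (CovZ.n2 (7623, -5293) (by decide +kernel)
            (CovZ.leaf K2_ok TT_l2704 _)
            (CovZ.n1 (7623, -5292) (by decide +kernel)
             (CovZ.badM (by decide +kernel))
             (CovZ.leaf K2_ok TT_l2705 _)))
           (CovZ.n1 (7621, -5293) (by decide +kernel)
            (CovZ.n2 (7621, -5292) (by decide +kernel)
             (CovZ.leaf K2_ok TT_l2706 _)
             (CovZ.leaf K2_ok TT_l2707 _))
            (CovZ.leaf K2_ok TT_l2708 _)))
          (CovZ.badM (by decide +kernel)))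
         (CovZ.n1 (7622, -5290) (by decide +kernel)
          (CovZ.n2 (7624, -5290) (by decide +kernel)
           (CovZ.n2 (7623, -5291) (by decide +kernel)
            (CovZ.leaf K2_ok TT_l2709 _)
            (CovZ.badM (by decide +kernel)))
           (CovZ.n1 (7623, -5289) (by decide +kernel)
            (CovZ.leaf K2_ok TT_l2710 _)
            (CovZ.leaf K2_ok TT_l2711 _)))
          (CovZ.n1 (7622, -5292) (by decide +kernel)
           (CovZ.n2 (7621, -5291) (by decide +kernel)
            (CovZ.leaf K2_ok TT_l2712 _)
            (CovZ.leaf K2_ok TT_l2713 _))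
           (CovZ.n1 (7623, -5291) (by decide +kernel)
            (CovZ.n2 (7623, -5292) (by decide +kernel)
             (CovZ.leaf K2_ok TT_l2714 _)
             (CovZ.badM (by decide +kernel)))
            (CovZ.leaf K2_ok TT_l2715 _)))))
        (CovZ.n1 (7620, -5296) (by decide +kernel)
         (CovZ.n2 (7618, -5294) (by decide +kernel)
          (CovZ.n2 (7620, -5294) (by decide +kernel)
           (CovZ.n2 (7619, -5295) (by decide +kernel)
            (CovZ.leaf K2_ok TT_l2716 _)
            (CovZ.leaf K2_ok TT_l2717 _))
           (CovZ.leaf K2_ok TT_l2718 _))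
          (CovZ.n1 (7618, -5296) (by decide +kernel)
           (CovZ.leaf K2_ok TT_l2719 _)
           (CovZ.n1 (7619, -5295) (by decide +kernel)
            (CovZ.leaf K2_ok TT_l2720 _)
            (CovZ.leaf K2_ok TT_l2721 _))))
         (CovZ.n1 (7622, -5294) (by decide +kernel)
          (CovZ.n2 (7622, -5296) (by decide +kernel)
           (CovZ.n2 (7621, -5295) (by decide +kernel)
            (CovZ.leaf K2_ok TT_l2722 _)
            (CovZ.leaf K2_ok TT_l2723 _))
           (CovZ.badM (by decide +kernel)))
          (CovZ.n1 (7620, -5294) (by decide +kernel)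
           (CovZ.n2 (7621, -5293) (by decide +kernel)
            (CovZ.leaf K2_ok TT_l2724 _)
            (CovZ.leaf K2_ok TT_l2725 _))
           (CovZ.leaf K2_ok TT_l2726 _)))))
       (CovZ.n1 (7628, -5292) (by decide +kernel)
        (CovZ.badM (by decide +kernel))
        (CovZ.n1 (7624, -5292) (by decide +kernel)
         (CovZ.n2 (7626, -5290) (by decide +kernel)
          (CovZ.badM (by decide +kernel))
          (CovZ.n1 (7624, -5290) (by decide +kernel)
           (CovZ.n2 (7625, -5289) (by decide +kernel)
            (CovZ.badM (by decide +kernel))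
            (CovZ.leaf K2_ok TT_l2727 _))
           (CovZ.badM (by decide +kernel))))
         (CovZ.badM (by decide +kernel)))))
      (CovZ.n1 (7616, -5288) (by decide +kernel)
       (CovZ.n2 (7620, -5284) (by decide +kernel)
        (CovZ.n2 (7620, -5288) (by decide +kernel)
         (CovZ.n2 (7618, -5286) (by decide +kernel)
          (CovZ.n2 (7620, -5286) (by decide +kernel)
           (CovZ.n2 (7619, -5287) (by decide +kernel)
            (CovZ.leaf K2_ok TT_l2728 _)
            (CovZ.leaf K2_ok TT_l2729 _))
           (CovZ.leaf K2_ok TT_l2730 _))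
          (CovZ.n1 (7618, -5288) (by decide +kernel)
           (CovZ.leaf K2_ok TT_l2731 _)
           (CovZ.leaf K2_ok TT_l2732 _)))
         (CovZ.n1 (7622, -5286) (by decide +kernel)
          (CovZ.n2 (7622, -5288) (by decide +kernel)
           (CovZ.leaf K2_ok TT_l2733 _)
           (CovZ.n1 (7623, -5287) (by decide +kernel)
            (CovZ.leaf K2_ok TT_l2734 _)
            (CovZ.leaf K2_ok TT_l2735 _)))
          (CovZ.n1 (7620, -5286) (by decide +kernel)
           (CovZ.leaf K2_ok TT_l2736 _)
           (CovZ.leaf K2_ok TT_l2737 _))))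
        (CovZ.n1 (7616, -5284) (by decide +kernel)
         (CovZ.n2 (7618, -5282) (by decide +kernel)
          (CovZ.leaf K2_ok TT_l2738 _)
          (CovZ.leaf K2_ok TT_l2739 _))
         (CovZ.n1 (7618, -5286) (by decide +kernel)
          (CovZ.n2 (7616, -5286) (by decide +kernel)
           (CovZ.leaf K2_ok TT_l2740 _)
           (CovZ.leaf K2_ok TT_l2741 _))
          (CovZ.n1 (7618, -5284) (by decide +kernel)
           (CovZ.leaf K2_ok TT_l2742 _)
           (CovZ.leaf K2_ok TT_l2743 _)))))
       (CovZ.n1 (7620, -5292) (by decide +kernel)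
        (CovZ.n2 (7616, -5292) (by decide +kernel)
         (CovZ.n2 (7618, -5290) (by decide +kernel)
          (CovZ.n2 (7618, -5292) (by decide +kernel)
           (CovZ.leaf K2_ok TT_l2744 _)
           (CovZ.n1 (7619, -5291) (by decide +kernel)
            (CovZ.leaf K2_ok TT_l2745 _)
            (CovZ.leaf K2_ok TT_l2746 _)))
          (CovZ.leaf K2_ok TT_l2747 _))
         (CovZ.n1 (7618, -5294) (by decide +kernel)
          (CovZ.n2 (7616, -5294) (by decide +kernel)
           (CovZ.leaf K2_ok TT_l2748 _)
           (CovZ.leaf K2_ok TT_l2749 _))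
          (CovZ.n1 (7618, -5292) (by decide +kernel)
           (CovZ.leaf K2_ok TT_l2750 _)
           (CovZ.leaf K2_ok TT_l2751 _))))
        (CovZ.n1 (7620, -5288) (by decide +kernel)
         (CovZ.n2 (7622, -5290) (by decide +kernel)
          (CovZ.n2 (7620, -5290) (by decide +kernel)
           (CovZ.n2 (7621, -5289) (by decide +kernel)
            (CovZ.leaf K2_ok TT_l2752 _)
            (CovZ.leaf K2_ok TT_l2753 _))
           (CovZ.leaf K2_ok TT_l2754 _))
          (CovZ.n1 (7622, -5288) (by decide +kernel)
           (CovZ.n2 (7623, -5289) (by decide +kernel)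
            (CovZ.leaf K2_ok TT_l2755 _)
            (CovZ.leaf K2_ok TT_l2756 _))
           (CovZ.n1 (7621, -5289) (by decide +kernel)
            (CovZ.leaf K2_ok TT_l2757 _)
            (CovZ.leaf K2_ok TT_l2758 _))))
         (CovZ.n1 (7618, -5290) (by decide +kernel)
          (CovZ.n2 (7618, -5288) (by decide +kernel)
           (CovZ.leaf K2_ok TT_l2759 _)
           (CovZ.leaf K2_ok TT_l2760 _))
          (CovZ.n1 (7620, -5290) (by decide +kernel)
           (CovZ.leaf K2_ok TT_l2761 _)
           (CovZ.leaf K2_ok TT_l2762 _)))))))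
     (CovZ.n1 (7624, -5304) (by decide +kernel)
      (CovZ.n2 (7616, -5304) (by decide +kernel)
       (CovZ.n2 (7620, -5300) (by decide +kernel)
        (CovZ.n2 (7620, -5304) (by decide +kernel)
         (CovZ.n2 (7618, -5302) (by decide +kernel)
          (CovZ.n2 (7620, -5302) (by decide +kernel)
           (CovZ.n2 (7619, -5303) (by decide +kernel)
            (CovZ.n2 (7619, -5302) (by decide +kernel)
             (CovZ.badM (by decide +kernel))
             (CovZ.leaf K2_ok TT_l2763 _))
            (CovZ.badM (by decide +kernel)))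
           (CovZ.n1 (7619, -5301) (by decide +kernel)
            (CovZ.badM (by decide +kernel))
            (CovZ.leaf K2_ok TT_l2764 _)))
          (CovZ.n1 (7618, -5304) (by decide +kernel)
           (CovZ.n2 (7617, -5303) (by decide +kernel)
            (CovZ.leaf K2_ok TT_l2765 _)
            (CovZ.leaf K2_ok TT_l2766 _))
           (CovZ.n1 (7619, -5303) (by decide +kernel)
            (CovZ.badM (by decide +kernel))
            (CovZ.leaf K2_ok TT_l2767 _))))
         (CovZ.badM (by decide +kernel)))
        (CovZ.n1 (7616, -5300) (by decide +kernel)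
         (CovZ.n2 (7618, -5298) (by decide +kernel)
          (CovZ.n2 (7618, -5300) (by decide +kernel)
           (CovZ.leaf K2_ok TT_l2768 _)
           (CovZ.n1 (7619, -5299) (by decide +kernel)
            (CovZ.leaf K2_ok TT_l2769 _)
            (CovZ.leaf K2_ok TT_l2770 _)))
          (CovZ.n1 (7616, -5298) (by decide +kernel)
           (CovZ.leaf K2_ok TT_l2771 _)
           (CovZ.leaf K2_ok TT_l2772 _)))
         (CovZ.n1 (7618, -5302) (by decide +kernel)
          (CovZ.n2 (7616, -5302) (by decide +kernel)
           (CovZ.n2 (7617, -5301) (by decide +kernel)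
            (CovZ.leaf K2_ok TT_l2773 _)
            (CovZ.leaf K2_ok TT_l2774 _))
           (CovZ.leaf K2_ok TT_l2775 _))
          (CovZ.n1 (7618, -5300) (by decide +kernel)
           (CovZ.n2 (7619, -5301) (by decide +kernel)
            (CovZ.leaf K2_ok TT_l2776 _)
            (CovZ.n1 (7619, -5300) (by decide +kernel)
             (CovZ.badM (by decide +kernel))
             (CovZ.leaf K2_ok TT_l2777 _)))
           (CovZ.n1 (7617, -5301) (by decide +kernel)
            (CovZ.leaf K2_ok TT_l2778 _)
            (CovZ.leaf K2_ok TT_l2779 _))))))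
       (CovZ.n1 (7620, -5308) (by decide +kernel)
        (CovZ.n2 (7616, -5308) (by decide +kernel)
         (CovZ.n2 (7618, -5306) (by decide +kernel)
          (CovZ.badM (by decide +kernel))
          (CovZ.n1 (7616, -5306) (by decide +kernel)
           (CovZ.n2 (7617, -5305) (by decide +kernel)
            (CovZ.leaf K2_ok TT_l2780 _)
            (CovZ.leaf K2_ok TT_l2781 _))
           (CovZ.n1 (7617, -5307) (by decide +kernel)
            (CovZ.leaf K2_ok TT_l2782 _)
            (CovZ.n1 (7617, -5306) (by decide +kernel)
             (CovZ.badM (by decide +kernel))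
             (CovZ.leaf K2_ok TT_l2783 _)))))
         (CovZ.badM (by decide +kernel)))
        (CovZ.n1 (7620, -5304) (by decide +kernel)
         (CovZ.badM (by decide +kernel))
         (CovZ.n1 (7618, -5306) (by decide +kernel)
          (CovZ.n2 (7618, -5304) (by decide +kernel)
           (CovZ.badM (by decide +kernel))
           (CovZ.n1 (7617, -5305) (by decide +kernel)
            (CovZ.n2 (7617, -5304) (by decide +kernel)
             (CovZ.leaf K2_ok TT_l2784 _)
             (CovZ.leaf K2_ok TT_l2785 _))
            (CovZ.badM (by decide +kernel))))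
          (CovZ.badM (by decide +kernel))))))
      (CovZ.n1 (7624, -5296) (by decide +kernel)
       (CovZ.badM (by decide +kernel))
       (CovZ.n1 (7620, -5300) (by decide +kernel)
        (CovZ.n2 (7620, -5296) (by decide +kernel)
         (CovZ.n2 (7622, -5298) (by decide +kernel)
          (CovZ.n2 (7620, -5298) (by decide +kernel)
           (CovZ.n2 (7621, -5297) (by decide +kernel)
            (CovZ.badM (by decide +kernel))
            (CovZ.leaf K2_ok TT_l2786 _))
           (CovZ.badM (by decide +kernel)))
          (CovZ.n1 (7622, -5296) (by decide +kernel)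
           (CovZ.badM (by decide +kernel))
           (CovZ.n1 (7621, -5297) (by decide +kernel)
            (CovZ.n2 (7621, -5296) (by decide +kernel)
             (CovZ.badM (by decide +kernel))
             (CovZ.leaf K2_ok TT_l2787 _))
            (CovZ.badM (by decide +kernel)))))
         (CovZ.n1 (7618, -5298) (by decide +kernel)
          (CovZ.n2 (7618, -5296) (by decide +kernel)
           (CovZ.leaf K2_ok TT_l2788 _)
           (CovZ.n1 (7617, -5297) (by decide +kernel)
            (CovZ.leaf K2_ok TT_l2789 _)
            (CovZ.leaf K2_ok TT_l2790 _)))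
          (CovZ.n1 (7620, -5298) (by decide +kernel)
           (CovZ.n2 (7619, -5299) (by decide +kernel)
            (CovZ.leaf K2_ok TT_l2791 _)
            (CovZ.leaf K2_ok TT_l2792 _))
           (CovZ.n1 (7619, -5297) (by decide +kernel)
            (CovZ.leaf K2_ok TT_l2793 _)
            (CovZ.leaf K2_ok TT_l2794 _)))))
        (CovZ.badM (by decide +kernel))))))

theorem TT_u17 : CovZ TT_M (toL (selN TT_LN 6)) [0, 7, 4, 3] (7632, -5296) (7648, -5280) (7616, -5280) :=
    (CovZ.n1 (7632, -5280) (by decide +kernel)
     (CovZ.badM (by decide +kernel))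
     (CovZ.n1 (7624, -5288) (by decide +kernel)
      (CovZ.n2 (7624, -5280) (by decide +kernel)
       (CovZ.n2 (7628, -5284) (by decide +kernel)
        (CovZ.n2 (7624, -5284) (by decide +kernel)
         (CovZ.n2 (7626, -5282) (by decide +kernel)
          (CovZ.n2 (7626, -5284) (by decide +kernel)
           (CovZ.leaf K2_ok TT_l2795 _)
           (CovZ.n1 (7627, -5283) (by decide +kernel)
            (CovZ.badM (by decide +kernel))
            (CovZ.n1 (7626, -5283) (by decide +kernel)
             (CovZ.leaf K2_ok TT_l2796 _)
             (CovZ.leaf K2_ok TT_l2797 _))))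
          (CovZ.n1 (7624, -5282) (by decide +kernel)
           (CovZ.leaf K2_ok TT_l2798 _)
           (CovZ.leaf K2_ok TT_l2799 _)))
         (CovZ.n1 (7626, -5286) (by decide +kernel)
          (CovZ.n2 (7624, -5286) (by decide +kernel)
           (CovZ.n2 (7625, -5285) (by decide +kernel)
            (CovZ.leaf K2_ok TT_l2800 _)
            (CovZ.leaf K2_ok TT_l2801 _))
           (CovZ.leaf K2_ok TT_l2802 _))
          (CovZ.n1 (7626, -5284) (by decide +kernel)
           (CovZ.badM (by decide +kernel))
           (CovZ.n1 (7625, -5285) (by decide +kernel)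
            (CovZ.leaf K2_ok TT_l2803 _)
            (CovZ.leaf K2_ok TT_l2804 _)))))
        (CovZ.n1 (7628, -5280) (by decide +kernel)
         (CovZ.badM (by decide +kernel))
         (CovZ.n1 (7626, -5282) (by decide +kernel)
          (CovZ.n2 (7626, -5280) (by decide +kernel)
           (CovZ.n2 (7627, -5281) (by decide +kernel)
            (CovZ.leaf K2_ok TT_l2805 _)
            (CovZ.n1 (7627, -5280) (by decide +kernel)
             (CovZ.leaf K2_ok TT_l2806 _)
             (CovZ.leaf K2_ok TT_l2807 _)))
           (CovZ.n1 (7625, -5281) (by decide +kernel)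
            (CovZ.leaf K2_ok TT_l2808 _)
            (CovZ.leaf K2_ok TT_l2809 _)))
          (CovZ.n1 (7628, -5282) (by decide +kernel)
           (CovZ.n2 (7627, -5283) (by decide +kernel)
            (CovZ.n2 (7627, -5282) (by decide +kernel)
             (CovZ.badM (by decide +kernel))
             (CovZ.leaf K2_ok TT_l2810 _))
            (CovZ.badM (by decide +kernel)))
           (CovZ.n1 (7627, -5281) (by decide +kernel)
            (CovZ.leaf K2_ok TT_l2811 _)
            (CovZ.leaf K2_ok TT_l2812 _))))))
       (CovZ.n1 (7620, -5284) (by decide +kernel)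
        (CovZ.n2 (7620, -5280) (by decide +kernel)
         (CovZ.n2 (7622, -5282) (by decide +kernel)
          (CovZ.leaf K2_ok TT_l2813 _)
          (CovZ.n1 (7622, -5280) (by decide +kernel)
           (CovZ.leaf K2_ok TT_l2814 _)
           (CovZ.leaf K2_ok TT_l2815 _)))
         (CovZ.n1 (7618, -5282) (by decide +kernel)
          (CovZ.leaf K2_ok TT_l2816 _)
          (CovZ.leaf K2_ok TT_l2817 _)))
        (CovZ.n1 (7624, -5284) (by decide +kernel)
         (CovZ.n2 (7622, -5286) (by decide +kernel)
          (CovZ.n2 (7622, -5284) (by decide +kernel)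
           (CovZ.leaf K2_ok TT_l2818 _)
           (CovZ.n1 (7621, -5285) (by decide +kernel)
            (CovZ.leaf K2_ok TT_l2819 _)
            (CovZ.leaf K2_ok TT_l2820 _)))
          (CovZ.n1 (7624, -5286) (by decide +kernel)
           (CovZ.n2 (7623, -5287) (by decide +kernel)
            (CovZ.leaf K2_ok TT_l2821 _)
            (CovZ.leaf K2_ok TT_l2822 _))
           (CovZ.leaf K2_ok TT_l2823 _)))
         (CovZ.n1 (7622, -5282) (by decide +kernel)
          (CovZ.n2 (7624, -5282) (by decide +kernel)
           (CovZ.n2 (7623, -5283) (by decide +kernel)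
            (CovZ.leaf K2_ok TT_l2824 _)
            (CovZ.leaf K2_ok TT_l2825 _))
           (CovZ.leaf K2_ok TT_l2826 _))
          (CovZ.n1 (7622, -5284) (by decide +kernel)
           (CovZ.leaf K2_ok TT_l2827 _)
           (CovZ.n1 (7623, -5283) (by decide +kernel)
            (CovZ.leaf K2_ok TT_l2828 _)
            (CovZ.leaf K2_ok TT_l2829 _)))))))
      (CovZ.n1 (7632, -5288) (by decide +kernel)
       (CovZ.n2 (7628, -5292) (by decide +kernel)
        (CovZ.n2 (7628, -5288) (by decide +kernel)
         (CovZ.badM (by decide +kernel))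
         (CovZ.n1 (7626, -5290) (by decide +kernel)
          (CovZ.n2 (7626, -5288) (by decide +kernel)
           (CovZ.badM (by decide +kernel))
           (CovZ.n1 (7625, -5289) (by decide +kernel)
            (CovZ.n2 (7625, -5288) (by decide +kernel)
             (CovZ.badM (by decide +kernel))
             (CovZ.leaf K2_ok TT_l2830 _))
            (CovZ.badM (by decide +kernel))))
          (CovZ.badM (by decide +kernel))))
        (CovZ.badM (by decide +kernel)))
       (CovZ.n1 (7628, -5284) (by decide +kernel)
        (CovZ.badM (by decide +kernel))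
        (CovZ.n1 (7628, -5288) (by decide +kernel)
         (CovZ.n2 (7626, -5286) (by decide +kernel)
          (CovZ.badM (by decide +kernel))
          (CovZ.n1 (7626, -5288) (by decide +kernel)
           (CovZ.n2 (7625, -5287) (by decide +kernel)
            (CovZ.badM (by decide +kernel))
            (CovZ.n1 (7625, -5288) (by decide +kernel)
             (CovZ.leaf K2_ok TT_l2831 _)
             (CovZ.badM (by decide +kernel))))
           (CovZ.badM (by decide +kernel))))
         (CovZ.badM (by decide +kernel)))))))

theorem TT_u18 : CovZ TT_M (toL (selN TT_LN 6)) [0, 7, 4, 3] (7648, -5248) (7632, -5264) (7648, -5280) :=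
    (CovZ.n2 (7648, -5264) (by decide +kernel)
     (CovZ.n2 (7640, -5272) (by decide +kernel)
      (CovZ.n2 (7640, -5264) (by decide +kernel)
       (CovZ.badM (by decide +kernel))
       (CovZ.n1 (7636, -5268) (by decide +kernel)
        (CovZ.n2 (7636, -5264) (by decide +kernel)
         (CovZ.badM (by decide +kernel))
         (CovZ.n1 (7634, -5266) (by decide +kernel)
          (CovZ.n2 (7634, -5264) (by decide +kernel)
           (CovZ.n2 (7635, -5265) (by decide +kernel)
            (CovZ.leaf K2_ok TT_l2832 _)
            (CovZ.n1 (7635, -5264) (by decide +kernel)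
             (CovZ.badM (by decide +kernel))
             (CovZ.leaf K2_ok TT_l2833 _)))
           (CovZ.n1 (7633, -5265) (by decide +kernel)
            (CovZ.n2 (7633, -5264) (by decide +kernel)
             (CovZ.leaf K2_ok TT_l2834 _)
             (CovZ.leaf K2_ok TT_l2835 _))
            (CovZ.leaf K2_ok TT_l2836 _)))
          (CovZ.badM (by decide +kernel))))
        (CovZ.badM (by decide +kernel))))
      (CovZ.badM (by decide +kernel)))
     (CovZ.n1 (7640, -5256) (by decide +kernel)
      (CovZ.badM (by decide +kernel))
      (CovZ.n1 (7640, -5264) (by decide +kernel)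
       (CovZ.n2 (7636, -5260) (by decide +kernel)
        (CovZ.badM (by decide +kernel))
        (CovZ.n1 (7636, -5264) (by decide +kernel)
         (CovZ.n2 (7634, -5262) (by decide +kernel)
          (CovZ.n2 (7636, -5262) (by decide +kernel)
           (CovZ.n2 (7635, -5263) (by decide +kernel)
            (CovZ.leaf K2_ok TT_l2837 _)
            (CovZ.badM (by decide +kernel)))
           (CovZ.n1 (7635, -5261) (by decide +kernel)
            (CovZ.leaf K2_ok TT_l2838 _)
            (CovZ.n1 (7635, -5262) (by decide +kernel)
             (CovZ.leaf K2_ok TT_l2839 _)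
             (CovZ.leaf K2_ok TT_l2840 _))))
          (CovZ.n1 (7634, -5264) (by decide +kernel)
           (CovZ.n2 (7633, -5263) (by decide +kernel)
            (CovZ.leaf K2_ok TT_l2841 _)
            (CovZ.leaf K2_ok TT_l2842 _))
           (CovZ.n1 (7635, -5263) (by decide +kernel)
            (CovZ.n2 (7635, -5264) (by decide +kernel)
             (CovZ.leaf K2_ok TT_l2843 _)
             (CovZ.badM (by decide +kernel)))
            (CovZ.leaf K2_ok TT_l2844 _))))
         (CovZ.badM (by decide +kernel))))
       (CovZ.badM (by decide +kernel)))))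

theorem TT_u19 : CovZ TT_M (toL (selN TT_LN 6)) [0, 7, 4, 3] (7632, -5264) (7616, -5280) (7648, -5280) :=
    (CovZ.n1 (7632, -5280) (by decide +kernel)
     (CovZ.n2 (7624, -5272) (by decide +kernel)
      (CovZ.n2 (7632, -5272) (by decide +kernel)
       (CovZ.n2 (7628, -5276) (by decide +kernel)
        (CovZ.n2 (7628, -5272) (by decide +kernel)
         (CovZ.n2 (7630, -5274) (by decide +kernel)
          (CovZ.n2 (7628, -5274) (by decide +kernel)
           (CovZ.n2 (7629, -5273) (by decide +kernel)
            (CovZ.leaf K2_ok TT_l2845 _)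
            (CovZ.leaf K2_ok TT_l2846 _))
           (CovZ.leaf K2_ok TT_l2847 _))
          (CovZ.n1 (7630, -5272) (by decide +kernel)
           (CovZ.leaf K2_ok TT_l2848 _)
           (CovZ.n1 (7629, -5273) (by decide +kernel)
            (CovZ.leaf K2_ok TT_l2849 _)
            (CovZ.leaf K2_ok TT_l2850 _))))
         (CovZ.n1 (7626, -5274) (by decide +kernel)
          (CovZ.n2 (7626, -5272) (by decide +kernel)
           (CovZ.leaf K2_ok TT_l2851 _)
           (CovZ.leaf K2_ok TT_l2852 _))
          (CovZ.n1 (7628, -5274) (by decide +kernel)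
           (CovZ.n2 (7627, -5275) (by decide +kernel)
            (CovZ.leaf K2_ok TT_l2853 _)
            (CovZ.leaf K2_ok TT_l2854 _))
           (CovZ.leaf K2_ok TT_l2855 _))))
        (CovZ.n1 (7632, -5276) (by decide +kernel)
         (CovZ.n2 (7630, -5278) (by decide +kernel)
          (CovZ.n2 (7630, -5276) (by decide +kernel)
           (CovZ.badM (by decide +kernel))
           (CovZ.n1 (7629, -5277) (by decide +kernel)
            (CovZ.n2 (7629, -5276) (by decide +kernel)
             (CovZ.leaf K2_ok TT_l2856 _)
             (CovZ.leaf K2_ok TT_l2857 _))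
            (CovZ.badM (by decide +kernel))))
          (CovZ.badM (by decide +kernel)))
         (CovZ.n1 (7630, -5274) (by decide +kernel)
          (CovZ.n2 (7632, -5274) (by decide +kernel)
           (CovZ.n2 (7631, -5275) (by decide +kernel)
            (CovZ.n2 (7631, -5274) (by decide +kernel)
             (CovZ.badM (by decide +kernel))
             (CovZ.leaf K2_ok TT_l2858 _))
            (CovZ.badM (by decide +kernel)))
           (CovZ.n1 (7631, -5273) (by decide +kernel)
            (CovZ.badM (by decide +kernel))
            (CovZ.n1 (7631, -5274) (by decide +kernel)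
             (CovZ.leaf K2_ok TT_l2859 _)
             (CovZ.badM (by decide +kernel)))))
          (CovZ.n1 (7630, -5276) (by decide +kernel)
           (CovZ.n2 (7629, -5275) (by decide +kernel)
            (CovZ.leaf K2_ok TT_l2860 _)
            (CovZ.n1 (7629, -5276) (by decide +kernel)
             (CovZ.leaf K2_ok TT_l2861 _)
             (CovZ.leaf K2_ok TT_l2862 _)))
           (CovZ.n1 (7631, -5275) (by decide +kernel)
            (CovZ.badM (by decide +kernel))
            (CovZ.n1 (7630, -5275) (by decide +kernel)
             (CovZ.leaf K2_ok TT_l2863 _)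
             (CovZ.badM (by decide +kernel))))))))
       (CovZ.n1 (7628, -5268) (by decide +kernel)
        (CovZ.n2 (7632, -5268) (by decide +kernel)
         (CovZ.n2 (7630, -5270) (by decide +kernel)
          (CovZ.n2 (7630, -5268) (by decide +kernel)
           (CovZ.leaf K2_ok TT_l2864 _)
           (CovZ.n1 (7629, -5269) (by decide +kernel)
            (CovZ.leaf K2_ok TT_l2865 _)
            (CovZ.leaf K2_ok TT_l2866 _)))
          (CovZ.n1 (7632, -5270) (by decide +kernel)
           (CovZ.n2 (7631, -5271) (by decide +kernel)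
            (CovZ.n2 (7631, -5270) (by decide +kernel)
             (CovZ.leaf K2_ok TT_l2867 _)
             (CovZ.leaf K2_ok TT_l2868 _))
            (CovZ.leaf K2_ok TT_l2869 _))
           (CovZ.n1 (7631, -5269) (by decide +kernel)
            (CovZ.leaf K2_ok TT_l2870 _)
            (CovZ.leaf K2_ok TT_l2871 _))))
         (CovZ.n1 (7630, -5266) (by decide +kernel)
          (CovZ.n2 (7632, -5266) (by decide +kernel)
           (CovZ.n2 (7631, -5267) (by decide +kernel)
            (CovZ.leaf K2_ok TT_l2872 _)
            (CovZ.leaf K2_ok TT_l2873 _))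
           (CovZ.leaf K2_ok TT_l2874 _))
          (CovZ.n1 (7630, -5268) (by decide +kernel)
           (CovZ.leaf K2_ok TT_l2875 _)
           (CovZ.n1 (7631, -5267) (by decide +kernel)
            (CovZ.leaf K2_ok TT_l2876 _)
            (CovZ.leaf K2_ok TT_l2877 _)))))
        (CovZ.n1 (7628, -5272) (by decide +kernel)
         (CovZ.n2 (7626, -5270) (by decide +kernel)
          (CovZ.n2 (7628, -5270) (by decide +kernel)
           (CovZ.leaf K2_ok TT_l2878 _)
           (CovZ.leaf K2_ok TT_l2879 _))
          (CovZ.n1 (7626, -5272) (by decide +kernel)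
           (CovZ.leaf K2_ok TT_l2880 _)
           (CovZ.leaf K2_ok TT_l2881 _)))
         (CovZ.n1 (7630, -5270) (by decide +kernel)
          (CovZ.n2 (7630, -5272) (by decide +kernel)
           (CovZ.leaf K2_ok TT_l2882 _)
           (CovZ.n1 (7631, -5271) (by decide +kernel)
            (CovZ.leaf K2_ok TT_l2883 _)
            (CovZ.leaf K2_ok TT_l2884 _)))
          (CovZ.n1 (7628, -5270) (by decide +kernel)
           (CovZ.leaf K2_ok TT_l2885 _)
           (CovZ.leaf K2_ok TT_l2886 _))))))
      (CovZ.n1 (7624, -5280) (by decide +kernel)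
       (CovZ.n2 (7620, -5276) (by decide +kernel)
        (CovZ.n2 (7624, -5276) (by decide +kernel)
         (CovZ.n2 (7622, -5278) (by decide +kernel)
          (CovZ.n2 (7622, -5276) (by decide +kernel)
           (CovZ.leaf K2_ok TT_l2887 _)
           (CovZ.leaf K2_ok TT_l2888 _))
          (CovZ.n1 (7624, -5278) (by decide +kernel)
           (CovZ.leaf K2_ok TT_l2889 _)
           (CovZ.leaf K2_ok TT_l2890 _)))
         (CovZ.n1 (7622, -5274) (by decide +kernel)
          (CovZ.leaf K2_ok TT_l2891 _)
          (CovZ.n1 (7622, -5276) (by decide +kernel)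
           (CovZ.leaf K2_ok TT_l2892 _)
           (CovZ.leaf K2_ok TT_l2893 _))))
        (CovZ.n1 (7620, -5280) (by decide +kernel)
         (CovZ.leaf K2_ok TT_l2894 _)
         (CovZ.n1 (7622, -5278) (by decide +kernel)
          (CovZ.n2 (7622, -5280) (by decide +kernel)
           (CovZ.leaf K2_ok TT_l2895 _)
           (CovZ.leaf K2_ok TT_l2896 _))
          (CovZ.leaf K2_ok TT_l2897 _))))
       (CovZ.n1 (7628, -5276) (by decide +kernel)
        (CovZ.n2 (7628, -5280) (by decide +kernel)
         (CovZ.n2 (7626, -5278) (by decide +kernel)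
          (CovZ.n2 (7628, -5278) (by decide +kernel)
           (CovZ.n2 (7627, -5279) (by decide +kernel)
            (CovZ.leaf K2_ok TT_l2898 _)
            (CovZ.leaf K2_ok TT_l2899 _))
           (CovZ.leaf K2_ok TT_l2900 _))
          (CovZ.n1 (7626, -5280) (by decide +kernel)
           (CovZ.leaf K2_ok TT_l2901 _)
           (CovZ.n1 (7627, -5279) (by decide +kernel)
            (CovZ.leaf K2_ok TT_l2902 _)
            (CovZ.leaf K2_ok TT_l2903 _))))
         (CovZ.n1 (7630, -5278) (by decide +kernel)
          (CovZ.badM (by decide +kernel))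
          (CovZ.n1 (7628, -5278) (by decide +kernel)
           (CovZ.n2 (7629, -5277) (by decide +kernel)
            (CovZ.n2 (7629, -5278) (by decide +kernel)
             (CovZ.leaf K2_ok TT_l2904 _)
             (CovZ.badM (by decide +kernel)))
            (CovZ.leaf K2_ok TT_l2905 _))
           (CovZ.n1 (7629, -5279) (by decide +kernel)
            (CovZ.leaf K2_ok TT_l2906 _)
            (CovZ.n1 (7629, -5278) (by decide +kernel)
             (CovZ.badM (by decide +kernel))
             (CovZ.leaf K2_ok TT_l2907 _))))))
        (CovZ.n1 (7624, -5276) (by decide +kernel)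
         (CovZ.n2 (7626, -5274) (by decide +kernel)
          (CovZ.n2 (7626, -5276) (by decide +kernel)
           (CovZ.leaf K2_ok TT_l2908 _)
           (CovZ.n1 (7627, -5275) (by decide +kernel)
            (CovZ.leaf K2_ok TT_l2909 _)
            (CovZ.leaf K2_ok TT_l2910 _)))
          (CovZ.n1 (7624, -5274) (by decide +kernel)
           (CovZ.leaf K2_ok TT_l2911 _)
           (CovZ.leaf K2_ok TT_l2912 _)))
         (CovZ.n1 (7626, -5278) (by decide +kernel)
          (CovZ.n2 (7624, -5278) (by decide +kernel)
           (CovZ.n2 (7625, -5277) (by decide +kernel)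
            (CovZ.leaf K2_ok TT_l2913 _)
            (CovZ.leaf K2_ok TT_l2914 _))
           (CovZ.leaf K2_ok TT_l2915 _))
          (CovZ.n1 (7626, -5276) (by decide +kernel)
           (CovZ.leaf K2_ok TT_l2916 _)
           (CovZ.n1 (7625, -5277) (by decide +kernel)
            (CovZ.leaf K2_ok TT_l2917 _)
            (CovZ.leaf K2_ok TT_l2918 _))))))))
     (CovZ.n1 (7640, -5272) (by decide +kernel)
      (CovZ.badM (by decide +kernel))
      (CovZ.n1 (7632, -5272) (by decide +kernel)
       (CovZ.n2 (7636, -5268) (by decide +kernel)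
        (CovZ.badM (by decide +kernel))
        (CovZ.n1 (7632, -5268) (by decide +kernel)
         (CovZ.n2 (7634, -5266) (by decide +kernel)
          (CovZ.n2 (7634, -5268) (by decide +kernel)
           (CovZ.n2 (7633, -5267) (by decide +kernel)
            (CovZ.badM (by decide +kernel))
            (CovZ.leaf K2_ok TT_l2919 _))
           (CovZ.badM (by decide +kernel)))
          (CovZ.n1 (7632, -5266) (by decide +kernel)
           (CovZ.n2 (7633, -5265) (by decide +kernel)
            (CovZ.leaf K2_ok TT_l2920 _)
            (CovZ.leaf K2_ok TT_l2921 _))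
           (CovZ.n1 (7633, -5267) (by decide +kernel)
            (CovZ.leaf K2_ok TT_l2922 _)
            (CovZ.leaf K2_ok TT_l2923 _))))
         (CovZ.n1 (7634, -5270) (by decide +kernel)
          (CovZ.n2 (7632, -5270) (by decide +kernel)
           (CovZ.n2 (7633, -5269) (by decide +kernel)
            (CovZ.badM (by decide +kernel))
            (CovZ.leaf K2_ok TT_l2924 _))
           (CovZ.badM (by decide +kernel)))
          (CovZ.n1 (7634, -5268) (by decide +kernel)
           (CovZ.badM (by decide +kernel))
           (CovZ.n1 (7633, -5269) (by decide +kernel)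
            (CovZ.n2 (7633, -5268) (by decide +kernel)
             (CovZ.badM (by decide +kernel))
             (CovZ.leaf K2_ok TT_l2925 _))
            (CovZ.badM (by decide +kernel)))))))
       (CovZ.badM (by decide +kernel)))))

theorem TT_u20 : CovZ TT_M (toL (selN TT_LN 6)) [0, 7, 4, 3] (7616, -5280) (7632, -5264) (7616, -5248) :=
    (CovZ.n2 (7616, -5264) (by decide +kernel)
     (CovZ.n2 (7624, -5256) (by decide +kernel)
      (CovZ.n2 (7624, -5264) (by decide +kernel)
       (CovZ.n2 (7620, -5260) (by decide +kernel)
        (CovZ.n2 (7624, -5260) (by decide +kernel)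
         (CovZ.n2 (7622, -5262) (by decide +kernel)
          (CovZ.leaf K2_ok TT_l2926 _)
          (CovZ.leaf K2_ok TT_l2927 _))
         (CovZ.leaf K2_ok TT_l2928 _))
        (CovZ.n1 (7620, -5264) (by decide +kernel)
         (CovZ.leaf K2_ok TT_l2929 _)
         (CovZ.n1 (7622, -5262) (by decide +kernel)
          (CovZ.leaf K2_ok TT_l2930 _)
          (CovZ.leaf K2_ok TT_l2931 _))))
       (CovZ.n1 (7628, -5260) (by decide +kernel)
        (CovZ.n2 (7628, -5264) (by decide +kernel)
         (CovZ.n2 (7626, -5262) (by decide +kernel)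
          (CovZ.leaf K2_ok TT_l2932 _)
          (CovZ.n1 (7626, -5264) (by decide +kernel)
           (CovZ.leaf K2_ok TT_l2933 _)
           (CovZ.leaf K2_ok TT_l2934 _)))
         (CovZ.n1 (7630, -5262) (by decide +kernel)
          (CovZ.n2 (7630, -5264) (by decide +kernel)
           (CovZ.leaf K2_ok TT_l2935 _)
           (CovZ.leaf K2_ok TT_l2936 _))
          (CovZ.leaf K2_ok TT_l2937 _)))
        (CovZ.n1 (7624, -5260) (by decide +kernel)
         (CovZ.n2 (7626, -5258) (by decide +kernel)
          (CovZ.leaf K2_ok TT_l2938 _)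
          (CovZ.leaf K2_ok TT_l2939 _))
         (CovZ.n1 (7626, -5262) (by decide +kernel)
          (CovZ.leaf K2_ok TT_l2940 _)
          (CovZ.leaf K2_ok TT_l2941 _)))))
      (CovZ.n1 (7616, -5256) (by decide +kernel)
       (CovZ.n2 (7620, -5252) (by decide +kernel)
        (CovZ.n2 (7620, -5256) (by decide +kernel)
         (CovZ.leaf K2_ok TT_l2942 _)
         (CovZ.leaf K2_ok TT_l2943 _))
        (CovZ.leaf K2_ok TT_l2944 _))
       (CovZ.n1 (7620, -5260) (by decide +kernel)
        (CovZ.n2 (7616, -5260) (by decide +kernel)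
         (CovZ.leaf K2_ok TT_l2945 _)
         (CovZ.leaf K2_ok TT_l2946 _))
        (CovZ.n1 (7620, -5256) (by decide +kernel)
         (CovZ.leaf K2_ok TT_l2947 _)
         (CovZ.leaf K2_ok TT_l2948 _)))))
     (CovZ.n1 (7624, -5272) (by decide +kernel)
      (CovZ.n2 (7616, -5272) (by decide +kernel)
       (CovZ.n2 (7620, -5268) (by decide +kernel)
        (CovZ.n2 (7620, -5272) (by decide +kernel)
         (CovZ.leaf K2_ok TT_l2949 _)
         (CovZ.n1 (7622, -5270) (by decide +kernel)
          (CovZ.leaf K2_ok TT_l2950 _)
          (CovZ.leaf K2_ok TT_l2951 _)))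
        (CovZ.n1 (7616, -5268) (by decide +kernel)
         (CovZ.leaf K2_ok TT_l2952 _)
         (CovZ.leaf K2_ok TT_l2953 _)))
       (CovZ.n1 (7620, -5276) (by decide +kernel)
        (CovZ.n2 (7616, -5276) (by decide +kernel)
         (CovZ.n2 (7618, -5274) (by decide +kernel)
          (CovZ.leaf K2_ok TT_l2954 _)
          (CovZ.leaf K2_ok TT_l2955 _))
         (CovZ.leaf K2_ok TT_l2956 _))
        (CovZ.n1 (7620, -5272) (by decide +kernel)
         (CovZ.n2 (7622, -5274) (by decide +kernel)
          (CovZ.leaf K2_ok TT_l2957 _)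
          (CovZ.leaf K2_ok TT_l2958 _))
         (CovZ.n1 (7618, -5274) (by decide +kernel)
          (CovZ.leaf K2_ok TT_l2959 _)
          (CovZ.leaf K2_ok TT_l2960 _)))))
      (CovZ.n1 (7624, -5264) (by decide +kernel)
       (CovZ.n2 (7628, -5268) (by decide +kernel)
        (CovZ.n2 (7624, -5268) (by decide +kernel)
         (CovZ.n2 (7626, -5266) (by decide +kernel)
          (CovZ.n2 (7626, -5268) (by decide +kernel)
           (CovZ.leaf K2_ok TT_l2961 _)
           (CovZ.leaf K2_ok TT_l2962 _))
          (CovZ.leaf K2_ok TT_l2963 _))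
         (CovZ.n1 (7626, -5270) (by decide +kernel)
          (CovZ.leaf K2_ok TT_l2964 _)
          (CovZ.n1 (7626, -5268) (by decide +kernel)
           (CovZ.leaf K2_ok TT_l2965 _)
           (CovZ.leaf K2_ok TT_l2966 _))))
        (CovZ.n1 (7628, -5264) (by decide +kernel)
         (CovZ.n2 (7630, -5266) (by decide +kernel)
          (CovZ.n2 (7628, -5266) (by decide +kernel)
           (CovZ.leaf K2_ok TT_l2967 _)
           (CovZ.leaf K2_ok TT_l2968 _))
          (CovZ.n1 (7630, -5264) (by decide +kernel)
           (CovZ.leaf K2_ok TT_l2969 _)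
           (CovZ.leaf K2_ok TT_l2970 _)))
         (CovZ.n1 (7626, -5266) (by decide +kernel)
          (CovZ.n2 (7626, -5264) (by decide +kernel)
           (CovZ.leaf K2_ok TT_l2971 _)
           (CovZ.leaf K2_ok TT_l2972 _))
          (CovZ.leaf K2_ok TT_l2973 _))))
       (CovZ.n1 (7620, -5268) (by decide +kernel)
        (CovZ.n2 (7620, -5264) (by decide +kernel)
         (CovZ.leaf K2_ok TT_l2974 _)
         (CovZ.leaf K2_ok TT_l2975 _))
        (CovZ.n1 (7624, -5268) (by decide +kernel)
         (CovZ.n2 (7622, -5270) (by decide +kernel)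
          (CovZ.leaf K2_ok TT_l2976 _)
          (CovZ.leaf K2_ok TT_l2977 _))
         (CovZ.leaf K2_ok TT_l2978 _))))))

theorem TT_u21 : CovZ TT_M (toL (selN TT_LN 6)) [0, 7, 4, 3] (7632, -5264) (7648, -5248) (7616, -5248) :=
    (CovZ.n1 (7632, -5248) (by decide +kernel)
     (CovZ.n2 (7640, -5256) (by decide +kernel)
      (CovZ.n2 (7632, -5256) (by decide +kernel)
       (CovZ.n2 (7636, -5252) (by decide +kernel)
        (CovZ.n2 (7636, -5256) (by decide +kernel)
         (CovZ.n2 (7634, -5254) (by decide +kernel)
          (CovZ.n2 (7636, -5254) (by decide +kernel)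
           (CovZ.n2 (7635, -5255) (by decide +kernel)
            (CovZ.leaf K2_ok TT_l2979 _)
            (CovZ.leaf K2_ok TT_l2980 _))
           (CovZ.leaf K2_ok TT_l2981 _))
          (CovZ.n1 (7634, -5256) (by decide +kernel)
           (CovZ.leaf K2_ok TT_l2982 _)
           (CovZ.n1 (7635, -5255) (by decide +kernel)
            (CovZ.leaf K2_ok TT_l2983 _)
            (CovZ.leaf K2_ok TT_l2984 _))))
         (CovZ.n1 (7638, -5254) (by decide +kernel)
          (CovZ.n2 (7638, -5256) (by decide +kernel)
           (CovZ.n2 (7637, -5255) (by decide +kernel)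
            (CovZ.leaf K2_ok TT_l2985 _)
            (CovZ.leaf K2_ok TT_l2986 _))
           (CovZ.n1 (7639, -5255) (by decide +kernel)
            (CovZ.badM (by decide +kernel))
            (CovZ.leaf K2_ok TT_l2987 _)))
          (CovZ.n1 (7636, -5254) (by decide +kernel)
           (CovZ.n2 (7637, -5253) (by decide +kernel)
            (CovZ.leaf K2_ok TT_l2988 _)
            (CovZ.leaf K2_ok TT_l2989 _))
           (CovZ.leaf K2_ok TT_l2990 _))))
        (CovZ.n1 (7632, -5252) (by decide +kernel)
         (CovZ.n2 (7634, -5250) (by decide +kernel)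
          (CovZ.n2 (7634, -5252) (by decide +kernel)
           (CovZ.leaf K2_ok TT_l2991 _)
           (CovZ.leaf K2_ok TT_l2992 _))
          (CovZ.n1 (7632, -5250) (by decide +kernel)
           (CovZ.leaf K2_ok TT_l2993 _)
           (CovZ.leaf K2_ok TT_l2994 _)))
         (CovZ.n1 (7634, -5254) (by decide +kernel)
          (CovZ.n2 (7632, -5254) (by decide +kernel)
           (CovZ.leaf K2_ok TT_l2995 _)
           (CovZ.leaf K2_ok TT_l2996 _))
          (CovZ.n1 (7634, -5252) (by decide +kernel)
           (CovZ.leaf K2_ok TT_l2997 _)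
           (CovZ.leaf K2_ok TT_l2998 _)))))
       (CovZ.n1 (7636, -5260) (by decide +kernel)
        (CovZ.n2 (7632, -5260) (by decide +kernel)
         (CovZ.n2 (7634, -5258) (by decide +kernel)
          (CovZ.n2 (7634, -5260) (by decide +kernel)
           (CovZ.leaf K2_ok TT_l2999 _)
           (CovZ.n1 (7635, -5259) (by decide +kernel)
            (CovZ.leaf K2_ok TT_l3000 _)
            (CovZ.leaf K2_ok TT_l3001 _)))
          (CovZ.n1 (7632, -5258) (by decide +kernel)
           (CovZ.leaf K2_ok TT_l3002 _)
           (CovZ.leaf K2_ok TT_l3003 _)))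
         (CovZ.n1 (7634, -5262) (by decide +kernel)
          (CovZ.n2 (7632, -5262) (by decide +kernel)
           (CovZ.n2 (7633, -5261) (by decide +kernel)
            (CovZ.leaf K2_ok TT_l3004 _)
            (CovZ.leaf K2_ok TT_l3005 _))
           (CovZ.leaf K2_ok TT_l3006 _))
          (CovZ.n1 (7634, -5260) (by decide +kernel)
           (CovZ.n2 (7635, -5261) (by decide +kernel)
            (CovZ.leaf K2_ok TT_l3007 _)
            (CovZ.leaf K2_ok TT_l3008 _))
           (CovZ.n1 (7633, -5261) (by decide +kernel)
            (CovZ.leaf K2_ok TT_l3009 _)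
            (CovZ.leaf K2_ok TT_l3010 _)))))
        (CovZ.n1 (7636, -5256) (by decide +kernel)
         (CovZ.n2 (7638, -5258) (by decide +kernel)
          (CovZ.n2 (7636, -5258) (by decide +kernel)
           (CovZ.n2 (7637, -5257) (by decide +kernel)
            (CovZ.leaf K2_ok TT_l3011 _)
            (CovZ.leaf K2_ok TT_l3012 _))
           (CovZ.n1 (7637, -5259) (by decide +kernel)
            (CovZ.leaf K2_ok TT_l3013 _)
            (CovZ.n1 (7637, -5258) (by decide +kernel)
             (CovZ.badM (by decide +kernel))
             (CovZ.leaf K2_ok TT_l3014 _))))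
          (CovZ.n1 (7638, -5256) (by decide +kernel)
           (CovZ.badM (by decide +kernel))
           (CovZ.n1 (7637, -5257) (by decide +kernel)
            (CovZ.leaf K2_ok TT_l3015 _)
            (CovZ.n1 (7638, -5257) (by decide +kernel)
             (CovZ.leaf K2_ok TT_l3016 _)
             (CovZ.leaf K2_ok TT_l3017 _)))))
         (CovZ.n1 (7634, -5258) (by decide +kernel)
          (CovZ.n2 (7634, -5256) (by decide +kernel)
           (CovZ.leaf K2_ok TT_l3018 _)
           (CovZ.n1 (7633, -5257) (by decide +kernel)
            (CovZ.leaf K2_ok TT_l3019 _)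
            (CovZ.leaf K2_ok TT_l3020 _)))
          (CovZ.n1 (7636, -5258) (by decide +kernel)
           (CovZ.n2 (7635, -5259) (by decide +kernel)
            (CovZ.leaf K2_ok TT_l3021 _)
            (CovZ.leaf K2_ok TT_l3022 _))
           (CovZ.leaf K2_ok TT_l3023 _))))))
      (CovZ.n1 (7640, -5248) (by decide +kernel)
       (CovZ.n2 (7644, -5252) (by decide +kernel)
        (CovZ.n2 (7640, -5252) (by decide +kernel)
         (CovZ.n2 (7642, -5250) (by decide +kernel)
          (CovZ.badM (by decide +kernel))
          (CovZ.n1 (7640, -5250) (by decide +kernel)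
           (CovZ.n2 (7641, -5249) (by decide +kernel)
            (CovZ.n2 (7641, -5250) (by decide +kernel)
             (CovZ.leaf K2_ok TT_l3024 _)
             (CovZ.badM (by decide +kernel)))
            (CovZ.leaf K2_ok TT_l3025 _))
           (CovZ.n1 (7641, -5251) (by decide +kernel)
            (CovZ.n2 (7640, -5251) (by decide +kernel)
             (CovZ.leaf K2_ok TT_l3026 _)
             (CovZ.badM (by decide +kernel)))
            (CovZ.n1 (7641, -5250) (by decide +kernel)
             (CovZ.badM (by decide +kernel))
             (CovZ.leaf K2_ok TT_l3027 _)))))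
         (CovZ.badM (by decide +kernel)))
        (CovZ.n1 (7644, -5248) (by decide +kernel)
         (CovZ.badM (by decide +kernel))
         (CovZ.n1 (7642, -5250) (by decide +kernel)
          (CovZ.n2 (7642, -5248) (by decide +kernel)
           (CovZ.badM (by decide +kernel))
           (CovZ.n1 (7641, -5249) (by decide +kernel)
            (CovZ.n2 (7641, -5248) (by decide +kernel)
             (CovZ.leaf K2_ok TT_l3028 _)
             (CovZ.leaf K2_ok TT_l3029 _))
            (CovZ.badM (by decide +kernel))))
          (CovZ.badM (by decide +kernel)))))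
       (CovZ.n1 (7636, -5252) (by decide +kernel)
        (CovZ.n2 (7636, -5248) (by decide +kernel)
         (CovZ.n2 (7638, -5250) (by decide +kernel)
          (CovZ.n2 (7636, -5250) (by decide +kernel)
           (CovZ.leaf K2_ok TT_l3030 _)
           (CovZ.leaf K2_ok TT_l3031 _))
          (CovZ.n1 (7638, -5248) (by decide +kernel)
           (CovZ.leaf K2_ok TT_l3032 _)
           (CovZ.n1 (7637, -5249) (by decide +kernel)
            (CovZ.leaf K2_ok TT_l3033 _)
            (CovZ.leaf K2_ok TT_l3034 _))))
         (CovZ.n1 (7634, -5250) (by decide +kernel)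
          (CovZ.n2 (7634, -5248) (by decide +kernel)
           (CovZ.leaf K2_ok TT_l3035 _)
           (CovZ.leaf K2_ok TT_l3036 _))
          (CovZ.leaf K2_ok TT_l3037 _)))
        (CovZ.n1 (7640, -5252) (by decide +kernel)
         (CovZ.n2 (7638, -5254) (by decide +kernel)
          (CovZ.n2 (7638, -5252) (by decide +kernel)
           (CovZ.n2 (7639, -5253) (by decide +kernel)
            (CovZ.leaf K2_ok TT_l3038 _)
            (CovZ.n1 (7639, -5252) (by decide +kernel)
             (CovZ.leaf K2_ok TT_l3039 _)
             (CovZ.leaf K2_ok TT_l3040 _)))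
           (CovZ.n1 (7637, -5253) (by decide +kernel)
            (CovZ.leaf K2_ok TT_l3041 _)
            (CovZ.leaf K2_ok TT_l3042 _)))
          (CovZ.n1 (7640, -5254) (by decide +kernel)
           (CovZ.n2 (7639, -5255) (by decide +kernel)
            (CovZ.n2 (7639, -5254) (by decide +kernel)
             (CovZ.badM (by decide +kernel))
             (CovZ.leaf K2_ok TT_l3043 _))
            (CovZ.badM (by decide +kernel)))
           (CovZ.n1 (7639, -5253) (by decide +kernel)
            (CovZ.badM (by decide +kernel))
            (CovZ.n1 (7639, -5254) (by decide +kernel)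
             (CovZ.leaf K2_ok TT_l3044 _)
             (CovZ.badM (by decide +kernel))))))
         (CovZ.n1 (7638, -5250) (by decide +kernel)
          (CovZ.n2 (7640, -5250) (by decide +kernel)
           (CovZ.n2 (7639, -5251) (by decide +kernel)
            (CovZ.leaf K2_ok TT_l3045 _)
            (CovZ.leaf K2_ok TT_l3046 _))
           (CovZ.n1 (7639, -5249) (by decide +kernel)
            (CovZ.leaf K2_ok TT_l3047 _)
            (CovZ.leaf K2_ok TT_l3048 _)))
          (CovZ.n1 (7638, -5252) (by decide +kernel)
           (CovZ.leaf K2_ok TT_l3049 _)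
           (CovZ.n1 (7639, -5251) (by decide +kernel)
            (CovZ.leaf K2_ok TT_l3050 _)
            (CovZ.leaf K2_ok TT_l3051 _))))))))
     (CovZ.n1 (7624, -5256) (by decide +kernel)
      (CovZ.n2 (7624, -5248) (by decide +kernel)
       (CovZ.n2 (7628, -5252) (by decide +kernel)
        (CovZ.n2 (7624, -5252) (by decide +kernel)
         (CovZ.leaf K2_ok TT_l3052 _)
         (CovZ.leaf K2_ok TT_l3053 _))
        (CovZ.n1 (7628, -5248) (by decide +kernel)
         (CovZ.n2 (7630, -5250) (by decide +kernel)
          (CovZ.leaf K2_ok TT_l3054 _)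
          (CovZ.leaf K2_ok TT_l3055 _))
         (CovZ.n1 (7626, -5250) (by decide +kernel)
          (CovZ.leaf K2_ok TT_l3056 _)
          (CovZ.leaf K2_ok TT_l3057 _))))
       (CovZ.n1 (7620, -5252) (by decide +kernel)
        (CovZ.n2 (7620, -5248) (by decide +kernel)
         (CovZ.leaf K2_ok TT_l3058 _)
         (CovZ.leaf K2_ok TT_l3059 _))
        (CovZ.n1 (7624, -5252) (by decide +kernel)
         (CovZ.leaf K2_ok TT_l3060 _)
         (CovZ.leaf K2_ok TT_l3061 _))))
      (CovZ.n1 (7632, -5256) (by decide +kernel)
       (CovZ.n2 (7628, -5260) (by decide +kernel)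
        (CovZ.n2 (7628, -5256) (by decide +kernel)
         (CovZ.n2 (7630, -5258) (by decide +kernel)
          (CovZ.leaf K2_ok TT_l3062 _)
          (CovZ.leaf K2_ok TT_l3063 _))
         (CovZ.n1 (7626, -5258) (by decide +kernel)
          (CovZ.leaf K2_ok TT_l3064 _)
          (CovZ.leaf K2_ok TT_l3065 _)))
        (CovZ.n1 (7632, -5260) (by decide +kernel)
         (CovZ.n2 (7630, -5262) (by decide +kernel)
          (CovZ.n2 (7630, -5260) (by decide +kernel)
           (CovZ.leaf K2_ok TT_l3066 _)
           (CovZ.n1 (7629, -5261) (by decide +kernel)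
            (CovZ.leaf K2_ok TT_l3067 _)
            (CovZ.leaf K2_ok TT_l3068 _)))
          (CovZ.n1 (7632, -5262) (by decide +kernel)
           (CovZ.n2 (7631, -5263) (by decide +kernel)
            (CovZ.leaf K2_ok TT_l3069 _)
            (CovZ.leaf K2_ok TT_l3070 _))
           (CovZ.leaf K2_ok TT_l3071 _)))
         (CovZ.n1 (7630, -5258) (by decide +kernel)
          (CovZ.n2 (7632, -5258) (by decide +kernel)
           (CovZ.n2 (7631, -5259) (by decide +kernel)
            (CovZ.leaf K2_ok TT_l3072 _)
            (CovZ.leaf K2_ok TT_l3073 _))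
           (CovZ.leaf K2_ok TT_l3074 _))
          (CovZ.n1 (7630, -5260) (by decide +kernel)
           (CovZ.leaf K2_ok TT_l3075 _)
           (CovZ.leaf K2_ok TT_l3076 _)))))
       (CovZ.n1 (7628, -5252) (by decide +kernel)
        (CovZ.n2 (7632, -5252) (by decide +kernel)
         (CovZ.n2 (7630, -5254) (by decide +kernel)
          (CovZ.leaf K2_ok TT_l3077 _)
          (CovZ.leaf K2_ok TT_l3078 _))
         (CovZ.leaf K2_ok TT_l3079 _))
        (CovZ.n1 (7628, -5256) (by decide +kernel)
         (CovZ.leaf K2_ok TT_l3080 _)
         (CovZ.n1 (7630, -5254) (by decide +kernel)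
          (CovZ.n2 (7630, -5256) (by decide +kernel)
           (CovZ.leaf K2_ok TT_l3081 _)
           (CovZ.leaf K2_ok TT_l3082 _))
          (CovZ.leaf K2_ok TT_l3083 _)))))))

theorem TT_u22 : CovZ TT_M (toL (selN TT_LN 6)) [0, 7, 4, 3] (7648, -5248) (7648, -5232) (7632, -5232) :=
    (CovZ.n2 (7640, -5240) (by decide +kernel)
      (CovZ.n2 (7640, -5232) (by decide +kernel)
       (CovZ.n2 (7644, -5236) (by decide +kernel)
        (CovZ.n2 (7640, -5236) (by decide +kernel)
         (CovZ.n2 (7642, -5234) (by decide +kernel)
          (CovZ.n2 (7642, -5236) (by decide +kernel)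
           (CovZ.leaf K2_ok TT_l3084 _)
           (CovZ.leaf K2_ok TT_l3085 _))
          (CovZ.leaf K2_ok TT_l3086 _))
         (CovZ.n1 (7642, -5238) (by decide +kernel)
          (CovZ.n2 (7640, -5238) (by decide +kernel)
           (CovZ.leaf K2_ok TT_l3087 _)
           (CovZ.leaf K2_ok TT_l3088 _))
          (CovZ.n1 (7642, -5236) (by decide +kernel)
           (CovZ.leaf K2_ok TT_l3089 _)
           (CovZ.n1 (7641, -5237) (by decide +kernel)
            (CovZ.leaf K2_ok TT_l3090 _)
            (CovZ.leaf K2_ok TT_l3091 _)))))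
        (CovZ.n1 (7644, -5232) (by decide +kernel)
         (CovZ.n2 (7646, -5234) (by decide +kernel)
          (CovZ.n2 (7644, -5234) (by decide +kernel)
           (CovZ.n2 (7645, -5233) (by decide +kernel)
            (CovZ.leaf K2_ok TT_l3092 _)
            (CovZ.leaf K2_ok TT_l3093 _))
           (CovZ.n1 (7645, -5235) (by decide +kernel)
            (CovZ.leaf K2_ok TT_l3094 _)
            (CovZ.leaf K2_ok TT_l3095 _)))
          (CovZ.n1 (7646, -5232) (by decide +kernel)
           (CovZ.n2 (7647, -5233) (by decide +kernel)
            (CovZ.leaf K2_ok TT_l3096 _)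
            (CovZ.n1 (7647, -5232) (by decide +kernel)
             (CovZ.leaf K2_ok TT_l3097 _)
             (CovZ.leaf K2_ok TT_l3098 _)))
           (CovZ.n1 (7645, -5233) (by decide +kernel)
            (CovZ.leaf K2_ok TT_l3099 _)
            (CovZ.leaf K2_ok TT_l3100 _))))
         (CovZ.n1 (7642, -5234) (by decide +kernel)
          (CovZ.n2 (7642, -5232) (by decide +kernel)
           (CovZ.leaf K2_ok TT_l3101 _)
           (CovZ.leaf K2_ok TT_l3102 _))
          (CovZ.n1 (7644, -5234) (by decide +kernel)
           (CovZ.n2 (7643, -5235) (by decide +kernel)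
            (CovZ.leaf K2_ok TT_l3103 _)
            (CovZ.leaf K2_ok TT_l3104 _))
           (CovZ.leaf K2_ok TT_l3105 _)))))
       (CovZ.n1 (7636, -5236) (by decide +kernel)
        (CovZ.n2 (7636, -5232) (by decide +kernel)
         (CovZ.n2 (7638, -5234) (by decide +kernel)
          (CovZ.leaf K2_ok TT_l3106 _)
          (CovZ.leaf K2_ok TT_l3107 _))
         (CovZ.n1 (7634, -5234) (by decide +kernel)
          (CovZ.leaf K2_ok TT_l3108 _)
          (CovZ.leaf K2_ok TT_l3109 _)))
        (CovZ.n1 (7640, -5236) (by decide +kernel)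
         (CovZ.n2 (7638, -5238) (by decide +kernel)
          (CovZ.n2 (7638, -5236) (by decide +kernel)
           (CovZ.leaf K2_ok TT_l3110 _)
           (CovZ.leaf K2_ok TT_l3111 _))
          (CovZ.n1 (7640, -5238) (by decide +kernel)
           (CovZ.leaf K2_ok TT_l3112 _)
           (CovZ.leaf K2_ok TT_l3113 _)))
         (CovZ.n1 (7638, -5234) (by decide +kernel)
          (CovZ.leaf K2_ok TT_l3114 _)
          (CovZ.n1 (7638, -5236) (by decide +kernel)
           (CovZ.leaf K2_ok TT_l3115 _)
           (CovZ.leaf K2_ok TT_l3116 _))))))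
      (CovZ.n1 (7648, -5240) (by decide +kernel)
       (CovZ.n2 (7644, -5244) (by decide +kernel)
        (CovZ.n2 (7644, -5240) (by decide +kernel)
         (CovZ.n2 (7646, -5242) (by decide +kernel)
          (CovZ.n2 (7644, -5242) (by decide +kernel)
           (CovZ.n2 (7645, -5241) (by decide +kernel)
            (CovZ.n2 (7645, -5242) (by decide +kernel)
             (CovZ.leaf K2_ok TT_l3117 _)
             (CovZ.badM (by decide +kernel)))
            (CovZ.leaf K2_ok TT_l3118 _))
           (CovZ.n1 (7645, -5243) (by decide +kernel)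
            (CovZ.leaf K2_ok TT_l3119 _)
            (CovZ.n1 (7645, -5242) (by decide +kernel)
             (CovZ.badM (by decide +kernel))
             (CovZ.leaf K2_ok TT_l3120 _))))
          (CovZ.n1 (7646, -5240) (by decide +kernel)
           (CovZ.badM (by decide +kernel))
           (CovZ.n1 (7645, -5241) (by decide +kernel)
            (CovZ.n2 (7645, -5240) (by decide +kernel)
             (CovZ.badM (by decide +kernel))
             (CovZ.leaf K2_ok TT_l3121 _))
            (CovZ.badM (by decide +kernel)))))
         (CovZ.n1 (7642, -5242) (by decide +kernel)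
          (CovZ.n2 (7642, -5240) (by decide +kernel)
           (CovZ.leaf K2_ok TT_l3122 _)
           (CovZ.n1 (7641, -5241) (by decide +kernel)
            (CovZ.leaf K2_ok TT_l3123 _)
            (CovZ.leaf K2_ok TT_l3124 _)))
          (CovZ.n1 (7644, -5242) (by decide +kernel)
           (CovZ.n2 (7643, -5243) (by decide +kernel)
            (CovZ.n2 (7643, -5242) (by decide +kernel)
             (CovZ.leaf K2_ok TT_l3125 _)
             (CovZ.leaf K2_ok TT_l3126 _))
            (CovZ.leaf K2_ok TT_l3127 _))
           (CovZ.n1 (7643, -5241) (by decide +kernel)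
            (CovZ.leaf K2_ok TT_l3128 _)
            (CovZ.leaf K2_ok TT_l3129 _)))))
        (CovZ.badM (by decide +kernel)))
       (CovZ.n1 (7644, -5236) (by decide +kernel)
        (CovZ.n2 (7648, -5236) (by decide +kernel)
         (CovZ.n2 (7646, -5238) (by decide +kernel)
          (CovZ.n2 (7646, -5236) (by decide +kernel)
           (CovZ.n2 (7647, -5237) (by decide +kernel)
            (CovZ.leaf K2_ok TT_l3130 _)
            (CovZ.n1 (7647, -5236) (by decide +kernel)
             (CovZ.badM (by decide +kernel))
             (CovZ.leaf K2_ok TT_l3131 _)))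
           (CovZ.n1 (7645, -5237) (by decide +kernel)
            (CovZ.n2 (7645, -5236) (by decide +kernel)
             (CovZ.leaf K2_ok TT_l3132 _)
             (CovZ.leaf K2_ok TT_l3133 _))
            (CovZ.leaf K2_ok TT_l3134 _)))
          (CovZ.badM (by decide +kernel)))
         (CovZ.n1 (7646, -5234) (by decide +kernel)
          (CovZ.n2 (7648, -5234) (by decide +kernel)
           (CovZ.n2 (7647, -5235) (by decide +kernel)
            (CovZ.n2 (7647, -5234) (by decide +kernel)
             (CovZ.leaf K2_ok TT_l3135 _)
             (CovZ.leaf K2_ok TT_l3136 _))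
            (CovZ.leaf K2_ok TT_l3137 _))
           (CovZ.n1 (7647, -5233) (by decide +kernel)
            (CovZ.leaf K2_ok TT_l3138 _)
            (CovZ.leaf K2_ok TT_l3139 _)))
          (CovZ.n1 (7646, -5236) (by decide +kernel)
           (CovZ.n2 (7645, -5235) (by decide +kernel)
            (CovZ.leaf K2_ok TT_l3140 _)
            (CovZ.leaf K2_ok TT_l3141 _))
           (CovZ.n1 (7647, -5235) (by decide +kernel)
            (CovZ.n2 (7647, -5236) (by decide +kernel)
             (CovZ.leaf K2_ok TT_l3142 _)
             (CovZ.leaf K2_ok TT_l3143 _))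
            (CovZ.n1 (7646, -5235) (by decide +kernel)
             (CovZ.leaf K2_ok TT_l3144 _)
             (CovZ.leaf K2_ok TT_l3145 _))))))
        (CovZ.n1 (7644, -5240) (by decide +kernel)
         (CovZ.n2 (7642, -5238) (by decide +kernel)
          (CovZ.n2 (7644, -5238) (by decide +kernel)
           (CovZ.n2 (7643, -5239) (by decide +kernel)
            (CovZ.n2 (7643, -5238) (by decide +kernel)
             (CovZ.leaf K2_ok TT_l3146 _)
             (CovZ.leaf K2_ok TT_l3147 _))
            (CovZ.leaf K2_ok TT_l3148 _))
           (CovZ.leaf K2_ok TT_l3149 _))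
          (CovZ.n1 (7642, -5240) (by decide +kernel)
           (CovZ.leaf K2_ok TT_l3150 _)
           (CovZ.n1 (7643, -5239) (by decide +kernel)
            (CovZ.leaf K2_ok TT_l3151 _)
            (CovZ.leaf K2_ok TT_l3152 _))))
         (CovZ.n1 (7646, -5238) (by decide +kernel)
          (CovZ.n2 (7646, -5240) (by decide +kernel)
           (CovZ.n2 (7645, -5239) (by decide +kernel)
            (CovZ.leaf K2_ok TT_l3153 _)
            (CovZ.n1 (7645, -5240) (by decide +kernel)
             (CovZ.leaf K2_ok TT_l3154 _)
             (CovZ.leaf K2_ok TT_l3155 _)))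
           (CovZ.badM (by decide +kernel)))
          (CovZ.n1 (7644, -5238) (by decide +kernel)
           (CovZ.n2 (7645, -5237) (by decide +kernel)
            (CovZ.n2 (7645, -5238) (by decide +kernel)
             (CovZ.leaf K2_ok TT_l3156 _)
             (CovZ.leaf K2_ok TT_l3157 _))
            (CovZ.leaf K2_ok TT_l3158 _))
           (CovZ.n1 (7645, -5239) (by decide +kernel)
            (CovZ.leaf K2_ok TT_l3159 _)
            (CovZ.n1 (7645, -5238) (by decide +kernel)
             (CovZ.leaf K2_ok TT_l3160 _)
             (CovZ.leaf K2_ok TT_l3161 _)))))))))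

theorem TT_u23 : CovZ TT_M (toL (selN TT_LN 6)) [0, 7, 4, 3] (7648, -5232) (7648, -5216) (7632, -5232) :=
    (CovZ.n1 (7640, -5224) (by decide +kernel)
      (CovZ.n2 (7648, -5224) (by decide +kernel)
       (CovZ.n2 (7644, -5228) (by decide +kernel)
        (CovZ.n2 (7644, -5224) (by decide +kernel)
         (CovZ.n2 (7646, -5226) (by decide +kernel)
          (CovZ.n2 (7644, -5226) (by decide +kernel)
           (CovZ.leaf K2_ok TT_l3162 _)
           (CovZ.leaf K2_ok TT_l3163 _))
          (CovZ.n1 (7646, -5224) (by decide +kernel)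
           (CovZ.leaf K2_ok TT_l3164 _)
           (CovZ.leaf K2_ok TT_l3165 _)))
         (CovZ.n1 (7642, -5226) (by decide +kernel)
          (CovZ.n2 (7642, -5224) (by decide +kernel)
           (CovZ.leaf K2_ok TT_l3166 _)
           (CovZ.leaf K2_ok TT_l3167 _))
          (CovZ.leaf K2_ok TT_l3168 _)))
        (CovZ.n1 (7648, -5228) (by decide +kernel)
         (CovZ.n2 (7646, -5230) (by decide +kernel)
          (CovZ.n2 (7646, -5228) (by decide +kernel)
           (CovZ.leaf K2_ok TT_l3169 _)
           (CovZ.leaf K2_ok TT_l3170 _))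
          (CovZ.n1 (7648, -5230) (by decide +kernel)
           (CovZ.n2 (7647, -5231) (by decide +kernel)
            (CovZ.leaf K2_ok TT_l3171 _)
            (CovZ.leaf K2_ok TT_l3172 _))
           (CovZ.n1 (7647, -5229) (by decide +kernel)
            (CovZ.leaf K2_ok TT_l3173 _)
            (CovZ.leaf K2_ok TT_l3174 _))))
         (CovZ.n1 (7646, -5226) (by decide +kernel)
          (CovZ.n2 (7648, -5226) (by decide +kernel)
           (CovZ.n2 (7647, -5227) (by decide +kernel)
            (CovZ.leaf K2_ok TT_l3175 _)
            (CovZ.leaf K2_ok TT_l3176 _))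
           (CovZ.leaf K2_ok TT_l3177 _))
          (CovZ.n1 (7646, -5228) (by decide +kernel)
           (CovZ.leaf K2_ok TT_l3178 _)
           (CovZ.leaf K2_ok TT_l3179 _)))))
       (CovZ.n1 (7644, -5220) (by decide +kernel)
        (CovZ.n2 (7648, -5220) (by decide +kernel)
         (CovZ.n2 (7646, -5222) (by decide +kernel)
          (CovZ.n2 (7646, -5220) (by decide +kernel)
           (CovZ.leaf K2_ok TT_l3180 _)
           (CovZ.leaf K2_ok TT_l3181 _))
          (CovZ.n1 (7648, -5222) (by decide +kernel)
           (CovZ.n2 (7647, -5223) (by decide +kernel)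
            (CovZ.leaf K2_ok TT_l3182 _)
            (CovZ.leaf K2_ok TT_l3183 _))
           (CovZ.leaf K2_ok TT_l3184 _)))
         (CovZ.n1 (7646, -5218) (by decide +kernel)
          (CovZ.leaf K2_ok TT_l3185 _)
          (CovZ.n1 (7646, -5220) (by decide +kernel)
           (CovZ.leaf K2_ok TT_l3186 _)
           (CovZ.leaf K2_ok TT_l3187 _))))
        (CovZ.n1 (7644, -5224) (by decide +kernel)
         (CovZ.n2 (7642, -5222) (by decide +kernel)
          (CovZ.leaf K2_ok TT_l3188 _)
          (CovZ.leaf K2_ok TT_l3189 _))
         (CovZ.n1 (7646, -5222) (by decide +kernel)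
          (CovZ.n2 (7646, -5224) (by decide +kernel)
           (CovZ.leaf K2_ok TT_l3190 _)
           (CovZ.leaf K2_ok TT_l3191 _))
          (CovZ.leaf K2_ok TT_l3192 _)))))
      (CovZ.n1 (7640, -5232) (by decide +kernel)
       (CovZ.n2 (7636, -5228) (by decide +kernel)
        (CovZ.n2 (7640, -5228) (by decide +kernel)
         (CovZ.n2 (7638, -5230) (by decide +kernel)
          (CovZ.leaf K2_ok TT_l3193 _)
          (CovZ.leaf K2_ok TT_l3194 _))
         (CovZ.leaf K2_ok TT_l3195 _))
        (CovZ.n1 (7636, -5232) (by decide +kernel)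
         (CovZ.leaf K2_ok TT_l3196 _)
         (CovZ.n1 (7638, -5230) (by decide +kernel)
          (CovZ.leaf K2_ok TT_l3197 _)
          (CovZ.leaf K2_ok TT_l3198 _))))
       (CovZ.n1 (7644, -5228) (by decide +kernel)
        (CovZ.n2 (7644, -5232) (by decide +kernel)
         (CovZ.n2 (7642, -5230) (by decide +kernel)
          (CovZ.n2 (7644, -5230) (by decide +kernel)
           (CovZ.leaf K2_ok TT_l3199 _)
           (CovZ.leaf K2_ok TT_l3200 _))
          (CovZ.n1 (7642, -5232) (by decide +kernel)
           (CovZ.leaf K2_ok TT_l3201 _)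
           (CovZ.leaf K2_ok TT_l3202 _)))
         (CovZ.n1 (7646, -5230) (by decide +kernel)
          (CovZ.n2 (7646, -5232) (by decide +kernel)
           (CovZ.leaf K2_ok TT_l3203 _)
           (CovZ.n1 (7647, -5231) (by decide +kernel)
            (CovZ.leaf K2_ok TT_l3204 _)
            (CovZ.leaf K2_ok TT_l3205 _)))
          (CovZ.n1 (7644, -5230) (by decide +kernel)
           (CovZ.leaf K2_ok TT_l3206 _)
           (CovZ.leaf K2_ok TT_l3207 _))))
        (CovZ.n1 (7640, -5228) (by decide +kernel)
         (CovZ.n2 (7642, -5226) (by decide +kernel)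
          (CovZ.n2 (7642, -5228) (by decide +kernel)
           (CovZ.leaf K2_ok TT_l3208 _)
           (CovZ.leaf K2_ok TT_l3209 _))
          (CovZ.leaf K2_ok TT_l3210 _))
         (CovZ.n1 (7642, -5230) (by decide +kernel)
          (CovZ.leaf K2_ok TT_l3211 _)
          (CovZ.n1 (7642, -5228) (by decide +kernel)
           (CovZ.leaf K2_ok TT_l3212 _)
           (CovZ.leaf K2_ok TT_l3213 _)))))))

end Pool.Agent.TET
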