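import Pool.Agent.Helper38_TET.TT_M
import Pool.Agent.Helper38_TET.TT_L
import Pool.Agent.Helper38_TET.TT_3
import Pool.Agent.Helper38_TET.TT_5
import Pool.Agent.Helper38_TET.TT_6
import Pool.Agent.Helper38_TET.TT_7
import Pool.Agent.Helper38_TET.TT_8
import Pool.Agent.Helper38_TET.TT_9
import Pool.Agent.Helper38_TET.TT_12
import Pool.Agent.Helper38_TET.TT_13
import Pool.Agent.Helper38_TET.TT_14
import Pool.Agent.Helper38_TET.TT_16
import Pool.Agent.Helper38_TET.TT_17
import Pool.Agent.Helper38_TET.TT_18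
import Pool.Agent.Helper38_TET.TT_U0
import Pool.Agent.Helper38_TET.TT_U1

/-!
# MP_c7c9bf_co: certificates, family TT
-/

set_option autoImplicit false
set_option maxRecDepth 100000

namespace Pool.Agent.TET

theorem TT_s4_7 : SqZ TT_M TT_L [0, 7, 4, 3] 7392 (-5696) 32 4 7 :=
  SqZ.mk (a := 7520) (b := 7552) (c := (-5472)) (d := (-5440)) (by norm_num) (by norm_num) (by norm_num) (by norm_num)
    (CovZ.topM TT_LL 7 (by decide +kernel) (CovZ.n2 (7536, -5456) (by decide +kernel)
    TT_u6
    TT_u7))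
    (CovZ.topM TT_LL 7 (by decide +kernel) (CovZ.n0 (7536, -5456) (by decide +kernel)
    (CovZ.n2 (7520, -5456) (by decide +kernel)
     (CovZ.n2 (7528, -5448) (by decide +kernel)
      (CovZ.n2 (7528, -5456) (by decide +kernel)
       (CovZ.leaf K2_ok TT_l1252 _)
       (CovZ.n1 (7532, -5452) (by decide +kernel)
        (CovZ.n2 (7532, -5456) (by decide +kernel)
         (CovZ.leaf K2_ok TT_l1253 _)
         (CovZ.leaf K2_ok TT_l1254 _))
        (CovZ.leaf K2_ok TT_l1255 _)))
      (CovZ.n1 (7520, -5448) (by decide +kernel)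
       (CovZ.n2 (7524, -5444) (by decide +kernel)
        (CovZ.leaf K2_ok TT_l1256 _)
        (CovZ.leaf K2_ok TT_l1257 _))
       (CovZ.n1 (7524, -5452) (by decide +kernel)
        (CovZ.leaf K2_ok TT_l1258 _)
        (CovZ.leaf K2_ok TT_l1259 _))))
     (CovZ.n1 (7528, -5464) (by decide +kernel)
      (CovZ.n2 (7520, -5464) (by decide +kernel)
       (CovZ.n2 (7524, -5460) (by decide +kernel)
        (CovZ.leaf K2_ok TT_l1260 _)
        (CovZ.leaf K2_ok TT_l1261 _))
       (CovZ.n1 (7524, -5468) (by decide +kernel)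
        (CovZ.leaf K2_ok TT_l1262 _)
        (CovZ.n1 (7524, -5464) (by decide +kernel)
         (CovZ.n2 (7526, -5466) (by decide +kernel)
          (CovZ.leaf K2_ok TT_l1263 _)
          (CovZ.leaf K2_ok TT_l1264 _))
         (CovZ.leaf K2_ok TT_l1265 _))))
      (CovZ.n1 (7528, -5456) (by decide +kernel)
       (CovZ.n2 (7532, -5460) (by decide +kernel)
        (CovZ.leaf K2_ok TT_l1266 _)
        (CovZ.n1 (7532, -5456) (by decide +kernel)
         (CovZ.leaf K2_ok TT_l1267 _)
         (CovZ.leaf K2_ok TT_l1268 _)))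
       (CovZ.n1 (7524, -5460) (by decide +kernel)
        (CovZ.leaf K2_ok TT_l1269 _)
        (CovZ.leaf K2_ok TT_l1270 _)))))
    (CovZ.n1 (7536, -5440) (by decide +kernel)
     (CovZ.n2 (7544, -5448) (by decide +kernel)
      (CovZ.n2 (7536, -5448) (by decide +kernel)
       (CovZ.n2 (7540, -5444) (by decide +kernel)
        (CovZ.n2 (7540, -5448) (by decide +kernel)
         (CovZ.leaf K2_ok TT_l1271 _)
         (CovZ.n1 (7542, -5446) (by decide +kernel)
          (CovZ.leaf K2_ok TT_l1272 _)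
          (CovZ.leaf K2_ok TT_l1273 _)))
        (CovZ.leaf K2_ok TT_l1274 _))
       (CovZ.n1 (7540, -5452) (by decide +kernel)
        (CovZ.n2 (7536, -5452) (by decide +kernel)
         (CovZ.leaf K2_ok TT_l1275 _)
         (CovZ.leaf K2_ok TT_l1276 _))
        (CovZ.n1 (7540, -5448) (by decide +kernel)
         (CovZ.leaf K2_ok TT_l1277 _)
         (CovZ.leaf K2_ok TT_l1278 _))))
      (CovZ.n1 (7544, -5440) (by decide +kernel)
       (CovZ.n2 (7548, -5444) (by decide +kernel)
        (CovZ.n2 (7544, -5444) (by decide +kernel)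
         (CovZ.n2 (7546, -5442) (by decide +kernel)
          (CovZ.n2 (7546, -5444) (by decide +kernel)
           (CovZ.leaf K2_ok TT_l1279 _)
           (CovZ.leaf K2_ok TT_l1280 _))
          (CovZ.leaf K2_ok TT_l1281 _))
         (CovZ.leaf K2_ok TT_l1282 _))
        (CovZ.n1 (7548, -5440) (by decide +kernel)
         (CovZ.n2 (7550, -5442) (by decide +kernel)
          (CovZ.leaf K2_ok TT_l1283 _)
          (CovZ.n1 (7550, -5440) (by decide +kernel)
           (CovZ.leaf K2_ok TT_l1284 _)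
           (CovZ.leaf K2_ok TT_l1285 _)))
         (CovZ.n1 (7546, -5442) (by decide +kernel)
          (CovZ.leaf K2_ok TT_l1286 _)
          (CovZ.leaf K2_ok TT_l1287 _))))
       (CovZ.n1 (7540, -5444) (by decide +kernel)
        (CovZ.n2 (7540, -5440) (by decide +kernel)
         (CovZ.leaf K2_ok TT_l1288 _)
         (CovZ.leaf K2_ok TT_l1289 _))
        (CovZ.n1 (7544, -5444) (by decide +kernel)
         (CovZ.n2 (7542, -5446) (by decide +kernel)
          (CovZ.leaf K2_ok TT_l1290 _)
          (CovZ.leaf K2_ok TT_l1291 _))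
         (CovZ.leaf K2_ok TT_l1292 _)))))
     (CovZ.n1 (7528, -5448) (by decide +kernel)
      (CovZ.n2 (7528, -5440) (by decide +kernel)
       (CovZ.n2 (7532, -5444) (by decide +kernel)
        (CovZ.leaf K2_ok TT_l1293 _)
        (CovZ.leaf K2_ok TT_l1294 _))
       (CovZ.n1 (7524, -5444) (by decide +kernel)
        (CovZ.leaf K2_ok TT_l1295 _)
        (CovZ.leaf K2_ok TT_l1296 _)))
      (CovZ.n1 (7536, -5448) (by decide +kernel)
       (CovZ.n2 (7532, -5452) (by decide +kernel)
        (CovZ.n2 (7532, -5448) (by decide +kernel)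
         (CovZ.leaf K2_ok TT_l1297 _)
         (CovZ.leaf K2_ok TT_l1298 _))
        (CovZ.leaf K2_ok TT_l1299 _))
       (CovZ.n1 (7532, -5444) (by decide +kernel)
        (CovZ.leaf K2_ok TT_l1300 _)
        (CovZ.leaf K2_ok TT_l1301 _)))))))

theorem TT_s5_7 : SqZ TT_M TT_L [0, 7, 4, 3] 7392 (-5696) 32 5 7 :=
  SqZ.mk (a := 7552) (b := 7584) (c := (-5472)) (d := (-5440)) (by norm_num) (by norm_num) (by norm_num) (by norm_num)
    (CovZ.topM TT_LL 0 (by decide +kernel) (CovZ.badM (by decide +kernel)))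
    (CovZ.topM TT_LL 7 (by decide +kernel) (CovZ.n0 (7568, -5456) (by decide +kernel)
    (CovZ.n2 (7552, -5456) (by decide +kernel)
     (CovZ.n2 (7560, -5448) (by decide +kernel)
      (CovZ.badM (by decide +kernel))
      (CovZ.n1 (7552, -5448) (by decide +kernel)
       (CovZ.n2 (7556, -5444) (by decide +kernel)
        (CovZ.badM (by decide +kernel))
        (CovZ.n1 (7552, -5444) (by decide +kernel)
         (CovZ.n2 (7554, -5442) (by decide +kernel)
          (CovZ.badM (by decide +kernel))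
          (CovZ.n1 (7552, -5442) (by decide +kernel)
           (CovZ.n2 (7553, -5441) (by decide +kernel)
            (CovZ.leaf K2_ok TT_l1437 _)
            (CovZ.leaf K2_ok TT_l1438 _))
           (CovZ.leaf K2_ok TT_l1439 _)))
         (CovZ.badM (by decide +kernel))))
       (CovZ.badM (by decide +kernel))))
     (CovZ.badM (by decide +kernel)))
    (CovZ.n1 (7568, -5440) (by decide +kernel)
     (CovZ.badM (by decide +kernel))
     (CovZ.n1 (7560, -5448) (by decide +kernel)
      (CovZ.n2 (7560, -5440) (by decide +kernel)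
       (CovZ.badM (by decide +kernel))
       (CovZ.n1 (7556, -5444) (by decide +kernel)
        (CovZ.n2 (7556, -5440) (by decide +kernel)
         (CovZ.badM (by decide +kernel))
         (CovZ.n1 (7554, -5442) (by decide +kernel)
          (CovZ.n2 (7554, -5440) (by decide +kernel)
           (CovZ.badM (by decide +kernel))
           (CovZ.n1 (7553, -5441) (by decide +kernel)
            (CovZ.leaf K2_ok TT_l1442 _)
            (CovZ.badM (by decide +kernel))))
          (CovZ.badM (by decide +kernel))))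
        (CovZ.badM (by decide +kernel))))
      (CovZ.badM (by decide +kernel))))))

theorem TT_s6_7 : SqZ TT_M TT_L [0, 7, 4, 3] 7392 (-5696) 32 6 7 :=
  SqZ.mk (a := 7584) (b := 7616) (c := (-5472)) (d := (-5440)) (by norm_num) (by norm_num) (by norm_num) (by norm_num)
    (CovZ.topM TT_LL 0 (by decide +kernel) (CovZ.badM (by decide +kernel)))
    (CovZ.topM TT_LL 0 (by decide +kernel) (CovZ.badM (by decide +kernel)))

theorem TT_s7_7 : SqZ TT_M TT_L [0, 7, 4, 3] 7392 (-5696) 32 7 7 :=
  SqZ.mk (a := 7616) (b := 7648) (c := (-5472)) (d := (-5440)) (by norm_num) (by norm_num) (by norm_num) (by norm_num)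
    (CovZ.topM TT_LL 0 (by decide +kernel) (CovZ.badM (by decide +kernel)))
    (CovZ.topM TT_LL 0 (by decide +kernel) (CovZ.badM (by decide +kernel)))

theorem TT_s8_7 : SqZ TT_M TT_L [0, 7, 4, 3] 7392 (-5696) 32 8 7 :=
  SqZ.mk (a := 7648) (b := 7680) (c := (-5472)) (d := (-5440)) (by norm_num) (by norm_num) (by norm_num) (by norm_num)
    (CovZ.topM TT_LL 0 (by decide +kernel) (CovZ.badM (by decide +kernel)))
    (CovZ.topM TT_LL 0 (by decide +kernel) (CovZ.badM (by decide +kernel)))

theorem TT_s0_8 : SqZ TT_M TT_L [0, 7, 4, 3] 7392 (-5696) 32 0 8 :=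
  SqZ.mk (a := 7392) (b := 7424) (c := (-5440)) (d := (-5408)) (by norm_num) (by norm_num) (by norm_num) (by norm_num)
    (CovZ.topM TT_LL 0 (by decide +kernel) (CovZ.badM (by decide +kernel)))
    (CovZ.topM TT_LL 0 (by decide +kernel) (CovZ.badM (by decide +kernel)))

theorem TT_s1_8 : SqZ TT_M TT_L [0, 7, 4, 3] 7392 (-5696) 32 1 8 :=
  SqZ.mk (a := 7424) (b := 7456) (c := (-5440)) (d := (-5408)) (by norm_num) (by norm_num) (by norm_num) (by norm_num)
    (CovZ.topM TT_LL 7 (by decide +kernel) (CovZ.n2 (7440, -5424) (by decide +kernel)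
    (CovZ.leaf K2_ok TT_l478 _)
    (CovZ.leaf K2_ok TT_l479 _)))
    (CovZ.topM TT_LL 0 (by decide +kernel) (CovZ.badM (by decide +kernel)))

theorem TT_s2_8 : SqZ TT_M TT_L [0, 7, 4, 3] 7392 (-5696) 32 2 8 :=
  SqZ.mk (a := 7456) (b := 7488) (c := (-5440)) (d := (-5408)) (by norm_num) (by norm_num) (by norm_num) (by norm_num)
    (CovZ.topM TT_LL 7 (by decide +kernel) (CovZ.n2 (7472, -5424) (by decide +kernel)
    (CovZ.n2 (7488, -5424) (by decide +kernel)
     (CovZ.n2 (7480, -5432) (by decide +kernel)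
      (CovZ.leaf K2_ok TT_l766 _)
      (CovZ.leaf K2_ok TT_l767 _))
     (CovZ.leaf K2_ok TT_l768 _))
    (CovZ.n1 (7472, -5440) (by decide +kernel)
     (CovZ.leaf K2_ok TT_l769 _)
     (CovZ.n1 (7480, -5432) (by decide +kernel)
      (CovZ.leaf K2_ok TT_l770 _)
      (CovZ.leaf K2_ok TT_l771 _)))))
    (CovZ.topM TT_LL 7 (by decide +kernel) (CovZ.n0 (7472, -5424) (by decide +kernel)
    (CovZ.n2 (7456, -5424) (by decide +kernel)
     (CovZ.leaf K2_ok TT_l772 _)
     (CovZ.leaf K2_ok TT_l773 _))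
    (CovZ.n1 (7472, -5408) (by decide +kernel)
     (CovZ.leaf K2_ok TT_l774 _)
     (CovZ.leaf K2_ok TT_l775 _))))

theorem TT_s3_8 : SqZ TT_M TT_L [0, 7, 4, 3] 7392 (-5696) 32 3 8 :=
  SqZ.mk (a := 7488) (b := 7520) (c := (-5440)) (d := (-5408)) (by norm_num) (by norm_num) (by norm_num) (by norm_num)
    (CovZ.topM TT_LL 7 (by decide +kernel) (CovZ.n2 (7504, -5424) (by decide +kernel)
    (CovZ.n2 (7520, -5424) (by decide +kernel)
     (CovZ.n2 (7512, -5432) (by decide +kernel)
      (CovZ.n2 (7512, -5424) (by decide +kernel)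
       (CovZ.leaf K2_ok TT_l1021 _)
       (CovZ.leaf K2_ok TT_l1022 _))
      (CovZ.leaf K2_ok TT_l1023 _))
     (CovZ.n1 (7512, -5416) (by decide +kernel)
      (CovZ.leaf K2_ok TT_l1024 _)
      (CovZ.leaf K2_ok TT_l1025 _)))
    (CovZ.n1 (7504, -5440) (by decide +kernel)
     (CovZ.leaf K2_ok TT_l1026 _)
     (CovZ.n1 (7512, -5432) (by decide +kernel)
      (CovZ.n2 (7512, -5440) (by decide +kernel)
       (CovZ.leaf K2_ok TT_l1027 _)
       (CovZ.leaf K2_ok TT_l1028 _))
      (CovZ.leaf K2_ok TT_l1029 _)))))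
    (CovZ.topM TT_LL 7 (by decide +kernel) (CovZ.n0 (7504, -5424) (by decide +kernel)
    (CovZ.n2 (7488, -5424) (by decide +kernel)
     (CovZ.n2 (7496, -5416) (by decide +kernel)
      (CovZ.leaf K2_ok TT_l1030 _)
      (CovZ.leaf K2_ok TT_l1031 _))
     (CovZ.n1 (7496, -5432) (by decide +kernel)
      (CovZ.leaf K2_ok TT_l1032 _)
      (CovZ.leaf K2_ok TT_l1033 _)))
    (CovZ.n1 (7504, -5408) (by decide +kernel)
     (CovZ.n2 (7512, -5416) (by decide +kernel)
      (CovZ.leaf K2_ok TT_l1034 _)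
      (CovZ.leaf K2_ok TT_l1035 _))
     (CovZ.n1 (7496, -5416) (by decide +kernel)
      (CovZ.leaf K2_ok TT_l1036 _)
      (CovZ.leaf K2_ok TT_l1037 _)))))

theorem TT_s4_8 : SqZ TT_M TT_L [0, 7, 4, 3] 7392 (-5696) 32 4 8 :=
  SqZ.mk (a := 7520) (b := 7552) (c := (-5440)) (d := (-5408)) (by norm_num) (by norm_num) (by norm_num) (by norm_num)
    (CovZ.topM TT_LL 7 (by decide +kernel) (CovZ.n2 (7536, -5424) (by decide +kernel)
    (CovZ.n2 (7552, -5424) (by decide +kernel)
     (CovZ.n2 (7544, -5432) (by decide +kernel)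
      (CovZ.n2 (7544, -5424) (by decide +kernel)
       (CovZ.n2 (7548, -5428) (by decide +kernel)
        (CovZ.leaf K2_ok TT_l1302 _)
        (CovZ.n1 (7548, -5424) (by decide +kernel)
         (CovZ.leaf K2_ok TT_l1303 _)
         (CovZ.leaf K2_ok TT_l1304 _)))
       (CovZ.n1 (7540, -5428) (by decide +kernel)
        (CovZ.n2 (7540, -5424) (by decide +kernel)
         (CovZ.leaf K2_ok TT_l1305 _)
         (CovZ.leaf K2_ok TT_l1306 _))
        (CovZ.leaf K2_ok TT_l1307 _)))
      (CovZ.n1 (7552, -5432) (by decide +kernel)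
       (CovZ.n2 (7548, -5436) (by decide +kernel)
        (CovZ.n2 (7548, -5432) (by decide +kernel)
         (CovZ.leaf K2_ok TT_l1308 _)
         (CovZ.leaf K2_ok TT_l1309 _))
        (CovZ.n1 (7552, -5436) (by decide +kernel)
         (CovZ.n2 (7550, -5438) (by decide +kernel)
          (CovZ.leaf K2_ok TT_l1310 _)
          (CovZ.leaf K2_ok TT_l1311 _))
         (CovZ.leaf K2_ok TT_l1312 _)))
       (CovZ.n1 (7548, -5428) (by decide +kernel)
        (CovZ.n2 (7552, -5428) (by decide +kernel)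
         (CovZ.n2 (7550, -5430) (by decide +kernel)
          (CovZ.leaf K2_ok TT_l1313 _)
          (CovZ.leaf K2_ok TT_l1314 _))
         (CovZ.leaf K2_ok TT_l1315 _))
        (CovZ.n1 (7548, -5432) (by decide +kernel)
         (CovZ.leaf K2_ok TT_l1316 _)
         (CovZ.n1 (7550, -5430) (by decide +kernel)
          (CovZ.leaf K2_ok TT_l1317 _)
          (CovZ.leaf K2_ok TT_l1318 _))))))
     (CovZ.n1 (7544, -5416) (by decide +kernel)
      (CovZ.n2 (7552, -5416) (by decide +kernel)
       (CovZ.n2 (7548, -5420) (by decide +kernel)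
        (CovZ.n2 (7548, -5416) (by decide +kernel)
         (CovZ.leaf K2_ok TT_l1319 _)
         (CovZ.leaf K2_ok TT_l1320 _))
        (CovZ.n1 (7552, -5420) (by decide +kernel)
         (CovZ.leaf K2_ok TT_l1321 _)
         (CovZ.leaf K2_ok TT_l1322 _)))
       (CovZ.n1 (7548, -5412) (by decide +kernel)
        (CovZ.leaf K2_ok TT_l1323 _)
        (CovZ.leaf K2_ok TT_l1324 _)))
      (CovZ.n1 (7544, -5424) (by decide +kernel)
       (CovZ.n2 (7540, -5420) (by decide +kernel)
        (CovZ.leaf K2_ok TT_l1325 _)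
        (CovZ.leaf K2_ok TT_l1326 _))
       (CovZ.n1 (7548, -5420) (by decide +kernel)
        (CovZ.leaf K2_ok TT_l1327 _)
        (CovZ.leaf K2_ok TT_l1328 _)))))
    (CovZ.n1 (7536, -5440) (by decide +kernel)
     (CovZ.n2 (7528, -5432) (by decide +kernel)
      (CovZ.n2 (7536, -5432) (by decide +kernel)
       (CovZ.n2 (7532, -5436) (by decide +kernel)
        (CovZ.leaf K2_ok TT_l1329 _)
        (CovZ.leaf K2_ok TT_l1330 _))
       (CovZ.leaf K2_ok TT_l1331 _))
      (CovZ.n1 (7528, -5440) (by decide +kernel)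
       (CovZ.leaf K2_ok TT_l1332 _)
       (CovZ.n1 (7532, -5436) (by decide +kernel)
        (CovZ.leaf K2_ok TT_l1333 _)
        (CovZ.leaf K2_ok TT_l1334 _))))
     (CovZ.n1 (7544, -5432) (by decide +kernel)
      (CovZ.n2 (7544, -5440) (by decide +kernel)
       (CovZ.n2 (7540, -5436) (by decide +kernel)
        (CovZ.n2 (7544, -5436) (by decide +kernel)
         (CovZ.leaf K2_ok TT_l1335 _)
         (CovZ.leaf K2_ok TT_l1336 _))
        (CovZ.leaf K2_ok TT_l1337 _))
       (CovZ.n1 (7548, -5436) (by decide +kernel)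
        (CovZ.n2 (7548, -5440) (by decide +kernel)
         (CovZ.leaf K2_ok TT_l1338 _)
         (CovZ.n1 (7550, -5438) (by decide +kernel)
          (CovZ.n2 (7550, -5440) (by decide +kernel)
           (CovZ.leaf K2_ok TT_l1339 _)
           (CovZ.n1 (7551, -5439) (by decide +kernel)
            (CovZ.leaf K2_ok TT_l1340 _)
            (CovZ.leaf K2_ok TT_l1341 _)))
          (CovZ.leaf K2_ok TT_l1342 _)))
        (CovZ.n1 (7544, -5436) (by decide +kernel)
         (CovZ.leaf K2_ok TT_l1343 _)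
         (CovZ.leaf K2_ok TT_l1344 _))))
      (CovZ.n1 (7536, -5432) (by decide +kernel)
       (CovZ.n2 (7540, -5428) (by decide +kernel)
        (CovZ.leaf K2_ok TT_l1345 _)
        (CovZ.leaf K2_ok TT_l1346 _))
       (CovZ.n1 (7540, -5436) (by decide +kernel)
        (CovZ.leaf K2_ok TT_l1347 _)
        (CovZ.n1 (7540, -5432) (by decide +kernel)
         (CovZ.leaf K2_ok TT_l1348 _)
         (CovZ.leaf K2_ok TT_l1349 _))))))))
    (CovZ.topM TT_LL 7 (by decide +kernel) (CovZ.n0 (7536, -5424) (by decide +kernel)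
    (CovZ.n2 (7520, -5424) (by decide +kernel)
     (CovZ.n2 (7528, -5416) (by decide +kernel)
      (CovZ.n2 (7528, -5424) (by decide +kernel)
       (CovZ.leaf K2_ok TT_l1350 _)
       (CovZ.n1 (7532, -5420) (by decide +kernel)
        (CovZ.leaf K2_ok TT_l1351 _)
        (CovZ.leaf K2_ok TT_l1352 _)))
      (CovZ.n1 (7520, -5416) (by decide +kernel)
       (CovZ.leaf K2_ok TT_l1353 _)
       (CovZ.leaf K2_ok TT_l1354 _)))
     (CovZ.n1 (7528, -5432) (by decide +kernel)
      (CovZ.n2 (7520, -5432) (by decide +kernel)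
       (CovZ.leaf K2_ok TT_l1355 _)
       (CovZ.leaf K2_ok TT_l1356 _))
      (CovZ.n1 (7528, -5424) (by decide +kernel)
       (CovZ.leaf K2_ok TT_l1357 _)
       (CovZ.n1 (7524, -5428) (by decide +kernel)
        (CovZ.leaf K2_ok TT_l1358 _)
        (CovZ.leaf K2_ok TT_l1359 _)))))
    (CovZ.n1 (7536, -5408) (by decide +kernel)
     (CovZ.n2 (7544, -5416) (by decide +kernel)
      (CovZ.n2 (7536, -5416) (by decide +kernel)
       (CovZ.n2 (7540, -5412) (by decide +kernel)
        (CovZ.leaf K2_ok TT_l1360 _)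
        (CovZ.leaf K2_ok TT_l1361 _))
       (CovZ.n1 (7540, -5420) (by decide +kernel)
        (CovZ.leaf K2_ok TT_l1362 _)
        (CovZ.n1 (7540, -5416) (by decide +kernel)
         (CovZ.leaf K2_ok TT_l1363 _)
         (CovZ.leaf K2_ok TT_l1364 _))))
      (CovZ.n1 (7544, -5408) (by decide +kernel)
       (CovZ.n2 (7548, -5412) (by decide +kernel)
        (CovZ.leaf K2_ok TT_l1365 _)
        (CovZ.leaf K2_ok TT_l1366 _))
       (CovZ.n1 (7540, -5412) (by decide +kernel)
        (CovZ.leaf K2_ok TT_l1367 _)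
        (CovZ.leaf K2_ok TT_l1368 _))))
     (CovZ.n1 (7528, -5416) (by decide +kernel)
      (CovZ.n2 (7528, -5408) (by decide +kernel)
       (CovZ.leaf K2_ok TT_l1369 _)
       (CovZ.leaf K2_ok TT_l1370 _))
      (CovZ.n1 (7536, -5416) (by decide +kernel)
       (CovZ.n2 (7532, -5420) (by decide +kernel)
        (CovZ.leaf K2_ok TT_l1371 _)
        (CovZ.leaf K2_ok TT_l1372 _))
       (CovZ.leaf K2_ok TT_l1373 _))))))

theorem TT_s5_8 : SqZ TT_M TT_L [0, 7, 4, 3] 7392 (-5696) 32 5 8 :=
  SqZ.mk (a := 7552) (b := 7584) (c := (-5440)) (d := (-5408)) (by norm_num) (by norm_num) (by norm_num) (by norm_num)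
    (CovZ.topM TT_LL 7 (by decide +kernel) (CovZ.n2 (7568, -5424) (by decide +kernel)
    (CovZ.badM (by decide +kernel))
    (CovZ.n1 (7568, -5440) (by decide +kernel)
     (CovZ.n2 (7560, -5432) (by decide +kernel)
      (CovZ.badM (by decide +kernel))
      (CovZ.n1 (7560, -5440) (by decide +kernel)
       (CovZ.n2 (7556, -5436) (by decide +kernel)
        (CovZ.n2 (7560, -5436) (by decide +kernel)
         (CovZ.n2 (7558, -5438) (by decide +kernel)
          (CovZ.n2 (7558, -5436) (by decide +kernel)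
           (CovZ.badM (by decide +kernel))
           (CovZ.n1 (7557, -5437) (by decide +kernel)
            (CovZ.n2 (7557, -5436) (by decide +kernel)
             (CovZ.badM (by decide +kernel))
             (CovZ.leaf K2_ok TT_l1444 _))
            (CovZ.badM (by decide +kernel))))
          (CovZ.badM (by decide +kernel)))
         (CovZ.n1 (7558, -5434) (by decide +kernel)
          (CovZ.badM (by decide +kernel))
          (CovZ.n1 (7558, -5436) (by decide +kernel)
           (CovZ.n2 (7557, -5435) (by decide +kernel)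
            (CovZ.leaf K2_ok TT_l1447 _)
            (CovZ.leaf K2_ok TT_l1448 _))
           (CovZ.badM (by decide +kernel)))))
        (CovZ.n1 (7556, -5440) (by decide +kernel)
         (CovZ.n2 (7554, -5438) (by decide +kernel)
          (CovZ.n2 (7556, -5438) (by decide +kernel)
           (CovZ.n2 (7555, -5439) (by decide +kernel)
            (CovZ.leaf K2_ok TT_l1450 _)
            (CovZ.badM (by decide +kernel)))
           (CovZ.n1 (7555, -5437) (by decide +kernel)
            (CovZ.leaf K2_ok TT_l1451 _)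
            (CovZ.leaf K2_ok TT_l1452 _)))
          (CovZ.n1 (7554, -5440) (by decide +kernel)
           (CovZ.leaf K2_ok TT_l1453 _)
           (CovZ.n1 (7555, -5439) (by decide +kernel)
            (CovZ.badM (by decide +kernel))
            (CovZ.leaf K2_ok TT_l1455 _))))
         (CovZ.n1 (7558, -5438) (by decide +kernel)
          (CovZ.badM (by decide +kernel))
          (CovZ.n1 (7556, -5438) (by decide +kernel)
           (CovZ.n2 (7557, -5437) (by decide +kernel)
            (CovZ.badM (by decide +kernel))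
            (CovZ.leaf K2_ok TT_l1456 _))
           (CovZ.badM (by decide +kernel))))))
       (CovZ.badM (by decide +kernel))))
     (CovZ.badM (by decide +kernel)))))
    (CovZ.topM TT_LL 7 (by decide +kernel) (CovZ.n0 (7568, -5424) (by decide +kernel)
    TT_u8
    TT_u9))

theorem TT_s6_8 : SqZ TT_M TT_L [0, 7, 4, 3] 7392 (-5696) 32 6 8 :=
  SqZ.mk (a := 7584) (b := 7616) (c := (-5440)) (d := (-5408)) (by norm_num) (by norm_num) (by norm_num) (by norm_num)
    (CovZ.topM TT_LL 0 (by decide +kernel) (CovZ.badM (by decide +kernel)))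
    (CovZ.topM TT_LL 0 (by decide +kernel) (CovZ.badM (by decide +kernel)))

theorem TT_s7_8 : SqZ TT_M TT_L [0, 7, 4, 3] 7392 (-5696) 32 7 8 :=
  SqZ.mk (a := 7616) (b := 7648) (c := (-5440)) (d := (-5408)) (by norm_num) (by norm_num) (by norm_num) (by norm_num)
    (CovZ.topM TT_LL 0 (by decide +kernel) (CovZ.badM (by decide +kernel)))
    (CovZ.topM TT_LL 0 (by decide +kernel) (CovZ.badM (by decide +kernel)))

theorem TT_s8_8 : SqZ TT_M TT_L [0, 7, 4, 3] 7392 (-5696) 32 8 8 :=
  SqZ.mk (a := 7648) (b := 7680) (c := (-5440)) (d := (-5408)) (by norm_num) (by norm_num) (by norm_num) (by norm_num)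
    (CovZ.topM TT_LL 0 (by decide +kernel) (CovZ.badM (by decide +kernel)))
    (CovZ.topM TT_LL 0 (by decide +kernel) (CovZ.badM (by decide +kernel)))

theorem TT_s0_9 : SqZ TT_M TT_L [0, 7, 4, 3] 7392 (-5696) 32 0 9 :=
  SqZ.mk (a := 7392) (b := 7424) (c := (-5408)) (d := (-5376)) (by norm_num) (by norm_num) (by norm_num) (by norm_num)
    (CovZ.topM TT_LL 0 (by decide +kernel) (CovZ.badM (by decide +kernel)))
    (CovZ.topM TT_LL 0 (by decide +kernel) (CovZ.badM (by decide +kernel)))

theorem TT_s1_9 : SqZ TT_M TT_L [0, 7, 4, 3] 7392 (-5696) 32 1 9 :=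
  SqZ.mk (a := 7424) (b := 7456) (c := (-5408)) (d := (-5376)) (by norm_num) (by norm_num) (by norm_num) (by norm_num)
    (CovZ.topM TT_LL 0 (by decide +kernel) (CovZ.badM (by decide +kernel)))
    (CovZ.topM TT_LL 0 (by decide +kernel) (CovZ.badM (by decide +kernel)))

theorem TT_s2_9 : SqZ TT_M TT_L [0, 7, 4, 3] 7392 (-5696) 32 2 9 :=
  SqZ.mk (a := 7456) (b := 7488) (c := (-5408)) (d := (-5376)) (by norm_num) (by norm_num) (by norm_num) (by norm_num)
    (CovZ.topM TT_LL 7 (by decide +kernel) (CovZ.n2 (7472, -5392) (by decide +kernel)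
    (CovZ.n2 (7488, -5392) (by decide +kernel)
     (CovZ.leaf K2_ok TT_l776 _)
     (CovZ.leaf K2_ok TT_l777 _))
    (CovZ.n1 (7472, -5408) (by decide +kernel)
     (CovZ.leaf K2_ok TT_l778 _)
     (CovZ.leaf K2_ok TT_l779 _))))
    (CovZ.topM TT_LL 0 (by decide +kernel) (CovZ.badM (by decide +kernel)))

theorem TT_s3_9 : SqZ TT_M TT_L [0, 7, 4, 3] 7392 (-5696) 32 3 9 :=
  SqZ.mk (a := 7488) (b := 7520) (c := (-5408)) (d := (-5376)) (by norm_num) (by norm_num) (by norm_num) (by norm_num)
    (CovZ.topM TT_LL 7 (by decide +kernel) (CovZ.n2 (7504, -5392) (by decide +kernel)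
    (CovZ.n2 (7520, -5392) (by decide +kernel)
     (CovZ.n2 (7512, -5400) (by decide +kernel)
      (CovZ.leaf K2_ok TT_l1038 _)
      (CovZ.leaf K2_ok TT_l1039 _))
     (CovZ.leaf K2_ok TT_l1040 _))
    (CovZ.n1 (7504, -5408) (by decide +kernel)
     (CovZ.leaf K2_ok TT_l1041 _)
     (CovZ.n1 (7512, -5400) (by decide +kernel)
      (CovZ.leaf K2_ok TT_l1042 _)
      (CovZ.leaf K2_ok TT_l1043 _)))))
    (CovZ.topM TT_LL 7 (by decide +kernel) (CovZ.n0 (7504, -5392) (by decide +kernel)
    (CovZ.n2 (7488, -5392) (by decide +kernel)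
     (CovZ.leaf K2_ok TT_l1044 _)
     (CovZ.leaf K2_ok TT_l1045 _))
    (CovZ.n1 (7504, -5376) (by decide +kernel)
     (CovZ.leaf K2_ok TT_l1046 _)
     (CovZ.n1 (7496, -5384) (by decide +kernel)
      (CovZ.leaf K2_ok TT_l1047 _)
      (CovZ.leaf K2_ok TT_l1048 _)))))

theorem TT_s4_9 : SqZ TT_M TT_L [0, 7, 4, 3] 7392 (-5696) 32 4 9 :=
  SqZ.mk (a := 7520) (b := 7552) (c := (-5408)) (d := (-5376)) (by norm_num) (by norm_num) (by norm_num) (by norm_num)
    (CovZ.topM TT_LL 7 (by decide +kernel) (CovZ.n2 (7536, -5392) (by decide +kernel)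
    (CovZ.n2 (7552, -5392) (by decide +kernel)
     (CovZ.n2 (7544, -5400) (by decide +kernel)
      (CovZ.n2 (7544, -5392) (by decide +kernel)
       (CovZ.leaf K2_ok TT_l1374 _)
       (CovZ.n1 (7540, -5396) (by decide +kernel)
        (CovZ.leaf K2_ok TT_l1375 _)
        (CovZ.leaf K2_ok TT_l1376 _)))
      (CovZ.n1 (7552, -5400) (by decide +kernel)
       (CovZ.n2 (7548, -5404) (by decide +kernel)
        (CovZ.leaf K2_ok TT_l1377 _)
        (CovZ.leaf K2_ok TT_l1378 _))
       (CovZ.leaf K2_ok TT_l1379 _)))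
     (CovZ.n1 (7544, -5384) (by decide +kernel)
      (CovZ.n2 (7552, -5384) (by decide +kernel)
       (CovZ.n2 (7548, -5388) (by decide +kernel)
        (CovZ.leaf K2_ok TT_l1380 _)
        (CovZ.leaf K2_ok TT_l1381 _))
       (CovZ.leaf K2_ok TT_l1382 _))
      (CovZ.n1 (7544, -5392) (by decide +kernel)
       (CovZ.leaf K2_ok TT_l1383 _)
       (CovZ.n1 (7548, -5388) (by decide +kernel)
        (CovZ.leaf K2_ok TT_l1384 _)
        (CovZ.leaf K2_ok TT_l1385 _)))))
    (CovZ.n1 (7536, -5408) (by decide +kernel)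
     (CovZ.n2 (7528, -5400) (by decide +kernel)
      (CovZ.n2 (7536, -5400) (by decide +kernel)
       (CovZ.leaf K2_ok TT_l1386 _)
       (CovZ.leaf K2_ok TT_l1387 _))
      (CovZ.n1 (7528, -5408) (by decide +kernel)
       (CovZ.leaf K2_ok TT_l1388 _)
       (CovZ.leaf K2_ok TT_l1389 _)))
     (CovZ.n1 (7544, -5400) (by decide +kernel)
      (CovZ.n2 (7544, -5408) (by decide +kernel)
       (CovZ.leaf K2_ok TT_l1390 _)
       (CovZ.n1 (7548, -5404) (by decide +kernel)
        (CovZ.leaf K2_ok TT_l1391 _)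
        (CovZ.leaf K2_ok TT_l1392 _)))
      (CovZ.n1 (7536, -5400) (by decide +kernel)
       (CovZ.n2 (7540, -5396) (by decide +kernel)
        (CovZ.leaf K2_ok TT_l1393 _)
        (CovZ.leaf K2_ok TT_l1394 _))
       (CovZ.leaf K2_ok TT_l1395 _))))))
    (CovZ.topM TT_LL 7 (by decide +kernel) (CovZ.n0 (7536, -5392) (by decide +kernel)
    (CovZ.n2 (7520, -5392) (by decide +kernel)
     (CovZ.n2 (7528, -5384) (by decide +kernel)
      (CovZ.n2 (7528, -5392) (by decide +kernel)
       (CovZ.leaf K2_ok TT_l1396 _)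
       (CovZ.leaf K2_ok TT_l1397 _))
      (CovZ.leaf K2_ok TT_l1398 _))
     (CovZ.n1 (7528, -5400) (by decide +kernel)
      (CovZ.leaf K2_ok TT_l1399 _)
      (CovZ.n1 (7528, -5392) (by decide +kernel)
       (CovZ.leaf K2_ok TT_l1400 _)
       (CovZ.leaf K2_ok TT_l1401 _))))
    (CovZ.n1 (7536, -5376) (by decide +kernel)
     (CovZ.n2 (7544, -5384) (by decide +kernel)
      (CovZ.n2 (7536, -5384) (by decide +kernel)
       (CovZ.leaf K2_ok TT_l1402 _)
       (CovZ.leaf K2_ok TT_l1403 _))
      (CovZ.n1 (7544, -5376) (by decide +kernel)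
       (CovZ.leaf K2_ok TT_l1404 _)
       (CovZ.leaf K2_ok TT_l1405 _)))
     (CovZ.n1 (7528, -5384) (by decide +kernel)
      (CovZ.n2 (7528, -5376) (by decide +kernel)
       (CovZ.leaf K2_ok TT_l1406 _)
       (CovZ.leaf K2_ok TT_l1407 _))
      (CovZ.leaf K2_ok TT_l1408 _)))))

theorem TT_s5_9 : SqZ TT_M TT_L [0, 7, 4, 3] 7392 (-5696) 32 5 9 :=
  SqZ.mk (a := 7552) (b := 7584) (c := (-5408)) (d := (-5376)) (by norm_num) (by norm_num) (by norm_num) (by norm_num)
    (CovZ.topM TT_LL 7 (by decide +kernel) (CovZ.n2 (7568, -5392) (by decide +kernel)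
    TT_u10
    TT_u11))
    (CovZ.topM TT_LL 7 (by decide +kernel) (CovZ.n0 (7568, -5392) (by decide +kernel)
    (CovZ.n2 (7552, -5392) (by decide +kernel)
     (CovZ.n2 (7560, -5384) (by decide +kernel)
      (CovZ.n2 (7560, -5392) (by decide +kernel)
       (CovZ.n2 (7556, -5388) (by decide +kernel)
        (CovZ.leaf K2_ok TT_l1841 _)
        (CovZ.leaf K2_ok TT_l1842 _))
       (CovZ.n1 (7564, -5388) (by decide +kernel)
        (CovZ.n2 (7564, -5392) (by decide +kernel)
         (CovZ.leaf K2_ok TT_l1843 _)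
         (CovZ.n1 (7566, -5390) (by decide +kernel)
          (CovZ.leaf K2_ok TT_l1844 _)
          (CovZ.leaf K2_ok TT_l1845 _)))
        (CovZ.leaf K2_ok TT_l1846 _)))
      (CovZ.n1 (7552, -5384) (by decide +kernel)
       (CovZ.n2 (7556, -5380) (by decide +kernel)
        (CovZ.leaf K2_ok TT_l1847 _)
        (CovZ.leaf K2_ok TT_l1848 _))
       (CovZ.n1 (7556, -5388) (by decide +kernel)
        (CovZ.leaf K2_ok TT_l1849 _)
        (CovZ.leaf K2_ok TT_l1850 _))))
     (CovZ.n1 (7560, -5400) (by decide +kernel)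
      (CovZ.n2 (7552, -5400) (by decide +kernel)
       (CovZ.n2 (7556, -5396) (by decide +kernel)
        (CovZ.leaf K2_ok TT_l1851 _)
        (CovZ.leaf K2_ok TT_l1852 _))
       (CovZ.n1 (7556, -5404) (by decide +kernel)
        (CovZ.leaf K2_ok TT_l1853 _)
        (CovZ.n1 (7556, -5400) (by decide +kernel)
         (CovZ.leaf K2_ok TT_l1854 _)
         (CovZ.leaf K2_ok TT_l1855 _))))
      (CovZ.n1 (7560, -5392) (by decide +kernel)
       (CovZ.n2 (7564, -5396) (by decide +kernel)
        (CovZ.n2 (7560, -5396) (by decide +kernel)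
         (CovZ.leaf K2_ok TT_l1856 _)
         (CovZ.leaf K2_ok TT_l1857 _))
        (CovZ.n1 (7564, -5392) (by decide +kernel)
         (CovZ.leaf K2_ok TT_l1858 _)
         (CovZ.leaf K2_ok TT_l1859 _)))
       (CovZ.n1 (7556, -5396) (by decide +kernel)
        (CovZ.n2 (7556, -5392) (by decide +kernel)
         (CovZ.leaf K2_ok TT_l1860 _)
         (CovZ.leaf K2_ok TT_l1861 _))
        (CovZ.n1 (7560, -5396) (by decide +kernel)
         (CovZ.leaf K2_ok TT_l1862 _)
         (CovZ.leaf K2_ok TT_l1863 _))))))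
    (CovZ.n1 (7568, -5376) (by decide +kernel)
     (CovZ.n2 (7576, -5384) (by decide +kernel)
      (CovZ.n2 (7568, -5384) (by decide +kernel)
       (CovZ.n2 (7572, -5380) (by decide +kernel)
        (CovZ.n2 (7572, -5384) (by decide +kernel)
         (CovZ.leaf K2_ok TT_l1864 _)
         (CovZ.n1 (7574, -5382) (by decide +kernel)
          (CovZ.leaf K2_ok TT_l1865 _)
          (CovZ.leaf K2_ok TT_l1866 _)))
        (CovZ.n1 (7568, -5380) (by decide +kernel)
         (CovZ.n2 (7570, -5378) (by decide +kernel)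
          (CovZ.leaf K2_ok TT_l1867 _)
          (CovZ.leaf K2_ok TT_l1868 _))
         (CovZ.leaf K2_ok TT_l1869 _)))
       (CovZ.n1 (7572, -5388) (by decide +kernel)
        (CovZ.n2 (7568, -5388) (by decide +kernel)
         (CovZ.n2 (7570, -5386) (by decide +kernel)
          (CovZ.leaf K2_ok TT_l1870 _)
          (CovZ.leaf K2_ok TT_l1871 _))
         (CovZ.leaf K2_ok TT_l1872 _))
        (CovZ.n1 (7572, -5384) (by decide +kernel)
         (CovZ.n2 (7574, -5386) (by decide +kernel)
          (CovZ.leaf K2_ok TT_l1873 _)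
          (CovZ.leaf K2_ok TT_l1874 _))
         (CovZ.n1 (7570, -5386) (by decide +kernel)
          (CovZ.leaf K2_ok TT_l1875 _)
          (CovZ.leaf K2_ok TT_l1876 _)))))
      (CovZ.n1 (7576, -5376) (by decide +kernel)
       (CovZ.n2 (7580, -5380) (by decide +kernel)
        (CovZ.n2 (7576, -5380) (by decide +kernel)
         (CovZ.n2 (7578, -5378) (by decide +kernel)
          (CovZ.n2 (7578, -5380) (by decide +kernel)
           (CovZ.leaf K2_ok TT_l1877 _)
           (CovZ.leaf K2_ok TT_l1878 _))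
          (CovZ.leaf K2_ok TT_l1879 _))
         (CovZ.n1 (7578, -5382) (by decide +kernel)
          (CovZ.leaf K2_ok TT_l1880 _)
          (CovZ.leaf K2_ok TT_l1881 _)))
        (CovZ.n1 (7580, -5376) (by decide +kernel)
         (CovZ.n2 (7582, -5378) (by decide +kernel)
          (CovZ.n2 (7580, -5378) (by decide +kernel)
           (CovZ.leaf K2_ok TT_l1882 _)
           (CovZ.leaf K2_ok TT_l1883 _))
          (CovZ.n1 (7582, -5376) (by decide +kernel)
           (CovZ.leaf K2_ok TT_l1884 _)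
           (CovZ.leaf K2_ok TT_l1885 _)))
         (CovZ.n1 (7578, -5378) (by decide +kernel)
          (CovZ.n2 (7578, -5376) (by decide +kernel)
           (CovZ.leaf K2_ok TT_l1886 _)
           (CovZ.leaf K2_ok TT_l1887 _))
          (CovZ.leaf K2_ok TT_l1888 _))))
       (CovZ.n1 (7572, -5380) (by decide +kernel)
        (CovZ.n2 (7572, -5376) (by decide +kernel)
         (CovZ.leaf K2_ok TT_l1889 _)
         (CovZ.leaf K2_ok TT_l1890 _))
        (CovZ.n1 (7576, -5380) (by decide +kernel)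
         (CovZ.n2 (7574, -5382) (by decide +kernel)
          (CovZ.leaf K2_ok TT_l1891 _)
          (CovZ.leaf K2_ok TT_l1892 _))
         (CovZ.leaf K2_ok TT_l1893 _)))))
     (CovZ.n1 (7560, -5384) (by decide +kernel)
      (CovZ.n2 (7560, -5376) (by decide +kernel)
       (CovZ.n2 (7564, -5380) (by decide +kernel)
        (CovZ.leaf K2_ok TT_l1894 _)
        (CovZ.n1 (7564, -5376) (by decide +kernel)
         (CovZ.leaf K2_ok TT_l1895 _)
         (CovZ.leaf K2_ok TT_l1896 _)))
       (CovZ.n1 (7556, -5380) (by decide +kernel)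
        (CovZ.leaf K2_ok TT_l1897 _)
        (CovZ.leaf K2_ok TT_l1898 _)))
      (CovZ.n1 (7568, -5384) (by decide +kernel)
       (CovZ.n2 (7564, -5388) (by decide +kernel)
        (CovZ.n2 (7564, -5384) (by decide +kernel)
         (CovZ.leaf K2_ok TT_l1899 _)
         (CovZ.leaf K2_ok TT_l1900 _))
        (CovZ.n1 (7568, -5388) (by decide +kernel)
         (CovZ.leaf K2_ok TT_l1901 _)
         (CovZ.leaf K2_ok TT_l1902 _)))
       (CovZ.n1 (7564, -5380) (by decide +kernel)
        (CovZ.n2 (7568, -5380) (by decide +kernel)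
         (CovZ.leaf K2_ok TT_l1903 _)
         (CovZ.leaf K2_ok TT_l1904 _))
        (CovZ.n1 (7564, -5384) (by decide +kernel)
         (CovZ.leaf K2_ok TT_l1905 _)
         (CovZ.leaf K2_ok TT_l1906 _))))))))

theorem TT_s6_9 : SqZ TT_M TT_L [0, 7, 4, 3] 7392 (-5696) 32 6 9 :=
  SqZ.mk (a := 7584) (b := 7616) (c := (-5408)) (d := (-5376)) (by norm_num) (by norm_num) (by norm_num) (by norm_num)
    (CovZ.topM TT_LL 0 (by decide +kernel) (CovZ.badM (by decide +kernel)))
    (CovZ.topM TT_LL 2 (by decide +kernel) (CovZ.n0 (7600, -5392) (by decide +kernel)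
    (CovZ.n2 (7584, -5392) (by decide +kernel)
     (CovZ.n2 (7592, -5384) (by decide +kernel)
      (CovZ.badM (by decide +kernel))
      (CovZ.n1 (7584, -5384) (by decide +kernel)
       (CovZ.n2 (7588, -5380) (by decide +kernel)
        (CovZ.badM (by decide +kernel))
        (CovZ.n1 (7584, -5380) (by decide +kernel)
         (CovZ.n2 (7586, -5378) (by decide +kernel)
          (CovZ.n2 (7586, -5380) (by decide +kernel)
           (CovZ.n2 (7585, -5379) (by decide +kernel)
            (CovZ.leaf K2_ok TT_l2074 _)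
            (CovZ.leaf K2_ok TT_l2075 _))
           (CovZ.badM (by decide +kernel)))
          (CovZ.n1 (7584, -5378) (by decide +kernel)
           (CovZ.n2 (7585, -5377) (by decide +kernel)
            (CovZ.leaf K2_ok TT_l2076 _)
            (CovZ.leaf K2_ok TT_l2077 _))
           (CovZ.leaf K2_ok TT_l2078 _)))
         (CovZ.n1 (7586, -5382) (by decide +kernel)
          (CovZ.n2 (7584, -5382) (by decide +kernel)
           (CovZ.n2 (7585, -5381) (by decide +kernel)
            (CovZ.badM (by decide +kernel))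
            (CovZ.leaf K2_ok TT_l2079 _))
           (CovZ.badM (by decide +kernel)))
          (CovZ.n1 (7586, -5380) (by decide +kernel)
           (CovZ.badM (by decide +kernel))
           (CovZ.n1 (7585, -5381) (by decide +kernel)
            (CovZ.n2 (7585, -5380) (by decide +kernel)
             (CovZ.badM (by decide +kernel))
             (CovZ.leaf K2_ok TT_l2081 _))
            (CovZ.badM (by decide +kernel)))))))
       (CovZ.badM (by decide +kernel))))
     (CovZ.badM (by decide +kernel)))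
    (CovZ.n1 (7600, -5376) (by decide +kernel)
     (CovZ.badM (by decide +kernel))
     (CovZ.n1 (7592, -5384) (by decide +kernel)
      (CovZ.n2 (7592, -5376) (by decide +kernel)
       (CovZ.badM (by decide +kernel))
       (CovZ.n1 (7588, -5380) (by decide +kernel)
        (CovZ.n2 (7588, -5376) (by decide +kernel)
         (CovZ.badM (by decide +kernel))
         (CovZ.n1 (7586, -5378) (by decide +kernel)
          (CovZ.n2 (7586, -5376) (by decide +kernel)
           (CovZ.n2 (7587, -5377) (by decide +kernel)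
            (CovZ.leaf K2_ok TT_l2091 _)
            (CovZ.leaf K2_ok TT_l2092 _))
           (CovZ.n1 (7585, -5377) (by decide +kernel)
            (CovZ.leaf K2_ok TT_l2093 _)
            (CovZ.leaf K2_ok TT_l2094 _)))
          (CovZ.badM (by decide +kernel))))
        (CovZ.badM (by decide +kernel))))
      (CovZ.badM (by decide +kernel))))))

theorem TT_s7_9 : SqZ TT_M TT_L [0, 7, 4, 3] 7392 (-5696) 32 7 9 :=
  SqZ.mk (a := 7616) (b := 7648) (c := (-5408)) (d := (-5376)) (by norm_num) (by norm_num) (by norm_num) (by norm_num)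
    (CovZ.topM TT_LL 0 (by decide +kernel) (CovZ.badM (by decide +kernel)))
    (CovZ.topM TT_LL 0 (by decide +kernel) (CovZ.badM (by decide +kernel)))

theorem TT_s8_9 : SqZ TT_M TT_L [0, 7, 4, 3] 7392 (-5696) 32 8 9 :=
  SqZ.mk (a := 7648) (b := 7680) (c := (-5408)) (d := (-5376)) (by norm_num) (by norm_num) (by norm_num) (by norm_num)
    (CovZ.topM TT_LL 0 (by decide +kernel) (CovZ.badM (by decide +kernel)))
    (CovZ.topM TT_LL 0 (by decide +kernel) (CovZ.badM (by decide +kernel)))

theorem TT_s0_10 : SqZ TT_M TT_L [0, 7, 4, 3] 7392 (-5696) 32 0 10 :=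
  SqZ.mk (a := 7392) (b := 7424) (c := (-5376)) (d := (-5344)) (by norm_num) (by norm_num) (by norm_num) (by norm_num)
    (CovZ.topM TT_LL 0 (by decide +kernel) (CovZ.badM (by decide +kernel)))
    (CovZ.topM TT_LL 0 (by decide +kernel) (CovZ.badM (by decide +kernel)))

theorem TT_s1_10 : SqZ TT_M TT_L [0, 7, 4, 3] 7392 (-5696) 32 1 10 :=
  SqZ.mk (a := 7424) (b := 7456) (c := (-5376)) (d := (-5344)) (by norm_num) (by norm_num) (by norm_num) (by norm_num)
    (CovZ.topM TT_LL 0 (by decide +kernel) (CovZ.badM (by decide +kernel)))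
    (CovZ.topM TT_LL 0 (by decide +kernel) (CovZ.badM (by decide +kernel)))

theorem TT_s2_10 : SqZ TT_M TT_L [0, 7, 4, 3] 7392 (-5696) 32 2 10 :=
  SqZ.mk (a := 7456) (b := 7488) (c := (-5376)) (d := (-5344)) (by norm_num) (by norm_num) (by norm_num) (by norm_num)
    (CovZ.topM TT_LL 0 (by decide +kernel) (CovZ.badM (by decide +kernel)))
    (CovZ.topM TT_LL 0 (by decide +kernel) (CovZ.badM (by decide +kernel)))

theorem TT_s3_10 : SqZ TT_M TT_L [0, 7, 4, 3] 7392 (-5696) 32 3 10 :=
  SqZ.mk (a := 7488) (b := 7520) (c := (-5376)) (d := (-5344)) (by norm_num) (by norm_num) (by norm_num) (by norm_num)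
    (CovZ.topM TT_LL 7 (by decide +kernel) (CovZ.n2 (7504, -5360) (by decide +kernel)
    (CovZ.n2 (7520, -5360) (by decide +kernel)
     (CovZ.n2 (7512, -5368) (by decide +kernel)
      (CovZ.leaf K2_ok TT_l1049 _)
      (CovZ.leaf K2_ok TT_l1050 _))
     (CovZ.leaf K2_ok TT_l1051 _))
    (CovZ.n1 (7504, -5376) (by decide +kernel)
     (CovZ.leaf K2_ok TT_l1052 _)
     (CovZ.n1 (7512, -5368) (by decide +kernel)
      (CovZ.leaf K2_ok TT_l1053 _)
      (CovZ.leaf K2_ok TT_l1054 _)))))
    (CovZ.topM TT_LL 0 (by decide +kernel) (CovZ.badM (by decide +kernel)))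

theorem TT_s4_10 : SqZ TT_M TT_L [0, 7, 4, 3] 7392 (-5696) 32 4 10 :=
  SqZ.mk (a := 7520) (b := 7552) (c := (-5376)) (d := (-5344)) (by norm_num) (by norm_num) (by norm_num) (by norm_num)
    (CovZ.topM TT_LL 7 (by decide +kernel) (CovZ.n2 (7536, -5360) (by decide +kernel)
    (CovZ.n2 (7552, -5360) (by decide +kernel)
     (CovZ.n2 (7544, -5368) (by decide +kernel)
      (CovZ.n2 (7544, -5360) (by decide +kernel)
       (CovZ.leaf K2_ok TT_l1409 _)
       (CovZ.leaf K2_ok TT_l1410 _))
      (CovZ.n1 (7552, -5368) (by decide +kernel)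
       (CovZ.n2 (7548, -5372) (by decide +kernel)
        (CovZ.leaf K2_ok TT_l1411 _)
        (CovZ.leaf K2_ok TT_l1412 _))
       (CovZ.leaf K2_ok TT_l1413 _)))
     (CovZ.n1 (7544, -5352) (by decide +kernel)
      (CovZ.leaf K2_ok TT_l1414 _)
      (CovZ.n1 (7544, -5360) (by decide +kernel)
       (CovZ.leaf K2_ok TT_l1415 _)
       (CovZ.leaf K2_ok TT_l1416 _))))
    (CovZ.n1 (7536, -5376) (by decide +kernel)
     (CovZ.n2 (7528, -5368) (by decide +kernel)
      (CovZ.leaf K2_ok TT_l1417 _)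
      (CovZ.leaf K2_ok TT_l1418 _))
     (CovZ.n1 (7544, -5368) (by decide +kernel)
      (CovZ.n2 (7544, -5376) (by decide +kernel)
       (CovZ.leaf K2_ok TT_l1419 _)
       (CovZ.leaf K2_ok TT_l1420 _))
      (CovZ.leaf K2_ok TT_l1421 _)))))
    (CovZ.topM TT_LL 7 (by decide +kernel) (CovZ.n0 (7536, -5360) (by decide +kernel)
    (CovZ.n2 (7520, -5360) (by decide +kernel)
     (CovZ.n2 (7528, -5352) (by decide +kernel)
      (CovZ.leaf K2_ok TT_l1422 _)
      (CovZ.leaf K2_ok TT_l1423 _))
     (CovZ.n1 (7528, -5368) (by decide +kernel)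
      (CovZ.leaf K2_ok TT_l1424 _)
      (CovZ.leaf K2_ok TT_l1425 _)))
    (CovZ.n1 (7536, -5344) (by decide +kernel)
     (CovZ.n2 (7544, -5352) (by decide +kernel)
      (CovZ.leaf K2_ok TT_l1426 _)
      (CovZ.n1 (7544, -5344) (by decide +kernel)
       (CovZ.leaf K2_ok TT_l1427 _)
       (CovZ.leaf K2_ok TT_l1428 _)))
     (CovZ.n1 (7528, -5352) (by decide +kernel)
      (CovZ.leaf K2_ok TT_l1429 _)
      (CovZ.leaf K2_ok TT_l1430 _)))))

theorem TT_s5_10 : SqZ TT_M TT_L [0, 7, 4, 3] 7392 (-5696) 32 5 10 :=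
  SqZ.mk (a := 7552) (b := 7584) (c := (-5376)) (d := (-5344)) (by norm_num) (by norm_num) (by norm_num) (by norm_num)
    (CovZ.topM TT_LL 7 (by decide +kernel) (CovZ.n2 (7568, -5360) (by decide +kernel)
    (CovZ.n2 (7584, -5360) (by decide +kernel)
     (CovZ.n2 (7576, -5368) (by decide +kernel)
      (CovZ.n2 (7576, -5360) (by decide +kernel)
       (CovZ.n2 (7580, -5364) (by decide +kernel)
        (CovZ.n2 (7576, -5364) (by decide +kernel)
         (CovZ.n2 (7578, -5362) (by decide +kernel)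
          (CovZ.leaf K2_ok TT_l1907 _)
          (CovZ.leaf K2_ok TT_l1908 _))
         (CovZ.leaf K2_ok TT_l1909 _))
        (CovZ.n1 (7580, -5360) (by decide +kernel)
         (CovZ.leaf K2_ok TT_l1910 _)
         (CovZ.n1 (7578, -5362) (by decide +kernel)
          (CovZ.leaf K2_ok TT_l1911 _)
          (CovZ.leaf K2_ok TT_l1912 _))))
       (CovZ.n1 (7572, -5364) (by decide +kernel)
        (CovZ.n2 (7572, -5360) (by decide +kernel)
         (CovZ.leaf K2_ok TT_l1913 _)
         (CovZ.leaf K2_ok TT_l1914 _))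
        (CovZ.n1 (7576, -5364) (by decide +kernel)
         (CovZ.leaf K2_ok TT_l1915 _)
         (CovZ.leaf K2_ok TT_l1916 _))))
      (CovZ.n1 (7584, -5368) (by decide +kernel)
       (CovZ.n2 (7580, -5372) (by decide +kernel)
        (CovZ.n2 (7580, -5368) (by decide +kernel)
         (CovZ.n2 (7582, -5370) (by decide +kernel)
          (CovZ.leaf K2_ok TT_l1917 _)
          (CovZ.n1 (7582, -5368) (by decide +kernel)
           (CovZ.leaf K2_ok TT_l1918 _)
           (CovZ.leaf K2_ok TT_l1919 _)))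
         (CovZ.n1 (7578, -5370) (by decide +kernel)
          (CovZ.leaf K2_ok TT_l1920 _)
          (CovZ.leaf K2_ok TT_l1921 _)))
        (CovZ.n1 (7584, -5372) (by decide +kernel)
         (CovZ.n2 (7582, -5374) (by decide +kernel)
          (CovZ.n2 (7582, -5372) (by decide +kernel)
           (CovZ.leaf K2_ok TT_l1922 _)
           (CovZ.leaf K2_ok TT_l1923 _))
          (CovZ.n1 (7584, -5374) (by decide +kernel)
           (CovZ.leaf K2_ok TT_l1924 _)
           (CovZ.leaf K2_ok TT_l1925 _)))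
         (CovZ.n1 (7582, -5370) (by decide +kernel)
          (CovZ.leaf K2_ok TT_l1926 _)
          (CovZ.n1 (7582, -5372) (by decide +kernel)
           (CovZ.leaf K2_ok TT_l1927 _)
           (CovZ.leaf K2_ok TT_l1928 _)))))
       (CovZ.n1 (7580, -5364) (by decide +kernel)
        (CovZ.n2 (7584, -5364) (by decide +kernel)
         (CovZ.n2 (7582, -5366) (by decide +kernel)
          (CovZ.leaf K2_ok TT_l1929 _)
          (CovZ.leaf K2_ok TT_l1930 _))
         (CovZ.leaf K2_ok TT_l1931 _))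
        (CovZ.n1 (7580, -5368) (by decide +kernel)
         (CovZ.leaf K2_ok TT_l1932 _)
         (CovZ.n1 (7582, -5366) (by decide +kernel)
          (CovZ.leaf K2_ok TT_l1933 _)
          (CovZ.leaf K2_ok TT_l1934 _))))))
     (CovZ.n1 (7576, -5352) (by decide +kernel)
      (CovZ.n2 (7584, -5352) (by decide +kernel)
       (CovZ.n2 (7580, -5356) (by decide +kernel)
        (CovZ.n2 (7580, -5352) (by decide +kernel)
         (CovZ.leaf K2_ok TT_l1935 _)
         (CovZ.leaf K2_ok TT_l1936 _))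
        (CovZ.n1 (7584, -5356) (by decide +kernel)
         (CovZ.n2 (7582, -5358) (by decide +kernel)
          (CovZ.leaf K2_ok TT_l1937 _)
          (CovZ.leaf K2_ok TT_l1938 _))
         (CovZ.leaf K2_ok TT_l1939 _)))
       (CovZ.n1 (7580, -5348) (by decide +kernel)
        (CovZ.n2 (7584, -5348) (by decide +kernel)
         (CovZ.n2 (7582, -5350) (by decide +kernel)
          (CovZ.leaf K2_ok TT_l1940 _)
          (CovZ.leaf K2_ok TT_l1941 _))
         (CovZ.leaf K2_ok TT_l1942 _))
        (CovZ.n1 (7580, -5352) (by decide +kernel)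
         (CovZ.leaf K2_ok TT_l1943 _)
         (CovZ.leaf K2_ok TT_l1944 _))))
      (CovZ.n1 (7576, -5360) (by decide +kernel)
       (CovZ.n2 (7572, -5356) (by decide +kernel)
        (CovZ.leaf K2_ok TT_l1945 _)
        (CovZ.leaf K2_ok TT_l1946 _))
       (CovZ.n1 (7580, -5356) (by decide +kernel)
        (CovZ.n2 (7580, -5360) (by decide +kernel)
         (CovZ.leaf K2_ok TT_l1947 _)
         (CovZ.n1 (7582, -5358) (by decide +kernel)
          (CovZ.leaf K2_ok TT_l1948 _)
          (CovZ.leaf K2_ok TT_l1949 _)))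
        (CovZ.leaf K2_ok TT_l1950 _)))))
    (CovZ.n1 (7568, -5376) (by decide +kernel)
     (CovZ.n2 (7560, -5368) (by decide +kernel)
      (CovZ.n2 (7568, -5368) (by decide +kernel)
       (CovZ.n2 (7564, -5372) (by decide +kernel)
        (CovZ.n2 (7564, -5368) (by decide +kernel)
         (CovZ.leaf K2_ok TT_l1951 _)
         (CovZ.leaf K2_ok TT_l1952 _))
        (CovZ.leaf K2_ok TT_l1953 _))
       (CovZ.n1 (7564, -5364) (by decide +kernel)
        (CovZ.leaf K2_ok TT_l1954 _)
        (CovZ.leaf K2_ok TT_l1955 _)))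
      (CovZ.n1 (7560, -5376) (by decide +kernel)
       (CovZ.leaf K2_ok TT_l1956 _)
       (CovZ.n1 (7564, -5372) (by decide +kernel)
        (CovZ.leaf K2_ok TT_l1957 _)
        (CovZ.leaf K2_ok TT_l1958 _))))
     (CovZ.n1 (7576, -5368) (by decide +kernel)
      (CovZ.n2 (7576, -5376) (by decide +kernel)
       (CovZ.n2 (7572, -5372) (by decide +kernel)
        (CovZ.n2 (7576, -5372) (by decide +kernel)
         (CovZ.n2 (7574, -5374) (by decide +kernel)
          (CovZ.leaf K2_ok TT_l1959 _)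
          (CovZ.leaf K2_ok TT_l1960 _))
         (CovZ.leaf K2_ok TT_l1961 _))
        (CovZ.n1 (7572, -5376) (by decide +kernel)
         (CovZ.leaf K2_ok TT_l1962 _)
         (CovZ.n1 (7574, -5374) (by decide +kernel)
          (CovZ.leaf K2_ok TT_l1963 _)
          (CovZ.leaf K2_ok TT_l1964 _))))
       (CovZ.n1 (7580, -5372) (by decide +kernel)
        (CovZ.n2 (7580, -5376) (by decide +kernel)
         (CovZ.n2 (7578, -5374) (by decide +kernel)
          (CovZ.leaf K2_ok TT_l1965 _)
          (CovZ.leaf K2_ok TT_l1966 _))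
         (CovZ.n1 (7582, -5374) (by decide +kernel)
          (CovZ.n2 (7582, -5376) (by decide +kernel)
           (CovZ.leaf K2_ok TT_l1967 _)
           (CovZ.leaf K2_ok TT_l1968 _))
          (CovZ.leaf K2_ok TT_l1969 _)))
        (CovZ.n1 (7576, -5372) (by decide +kernel)
         (CovZ.n2 (7578, -5370) (by decide +kernel)
          (CovZ.leaf K2_ok TT_l1970 _)
          (CovZ.leaf K2_ok TT_l1971 _))
         (CovZ.n1 (7578, -5374) (by decide +kernel)
          (CovZ.leaf K2_ok TT_l1972 _)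
          (CovZ.leaf K2_ok TT_l1973 _)))))
      (CovZ.n1 (7568, -5368) (by decide +kernel)
       (CovZ.n2 (7572, -5364) (by decide +kernel)
        (CovZ.n2 (7572, -5368) (by decide +kernel)
         (CovZ.leaf K2_ok TT_l1974 _)
         (CovZ.leaf K2_ok TT_l1975 _))
        (CovZ.leaf K2_ok TT_l1976 _))
       (CovZ.n1 (7572, -5372) (by decide +kernel)
        (CovZ.leaf K2_ok TT_l1977 _)
        (CovZ.n1 (7572, -5368) (by decide +kernel)
         (CovZ.leaf K2_ok TT_l1978 _)
         (CovZ.leaf K2_ok TT_l1979 _))))))))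
    (CovZ.topM TT_LL 7 (by decide +kernel) (CovZ.n0 (7568, -5360) (by decide +kernel)
    (CovZ.n2 (7552, -5360) (by decide +kernel)
     (CovZ.n2 (7560, -5352) (by decide +kernel)
      (CovZ.n2 (7560, -5360) (by decide +kernel)
       (CovZ.leaf K2_ok TT_l1980 _)
       (CovZ.n1 (7564, -5356) (by decide +kernel)
        (CovZ.leaf K2_ok TT_l1981 _)
        (CovZ.leaf K2_ok TT_l1982 _)))
      (CovZ.n1 (7552, -5352) (by decide +kernel)
       (CovZ.leaf K2_ok TT_l1983 _)
       (CovZ.leaf K2_ok TT_l1984 _)))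
     (CovZ.n1 (7560, -5368) (by decide +kernel)
      (CovZ.n2 (7552, -5368) (by decide +kernel)
       (CovZ.n2 (7556, -5364) (by decide +kernel)
        (CovZ.leaf K2_ok TT_l1985 _)
        (CovZ.leaf K2_ok TT_l1986 _))
       (CovZ.n1 (7556, -5372) (by decide +kernel)
        (CovZ.leaf K2_ok TT_l1987 _)
        (CovZ.leaf K2_ok TT_l1988 _)))
      (CovZ.n1 (7560, -5360) (by decide +kernel)
       (CovZ.n2 (7564, -5364) (by decide +kernel)
        (CovZ.leaf K2_ok TT_l1989 _)
        (CovZ.leaf K2_ok TT_l1990 _))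
       (CovZ.n1 (7556, -5364) (by decide +kernel)
        (CovZ.leaf K2_ok TT_l1991 _)
        (CovZ.leaf K2_ok TT_l1992 _)))))
    (CovZ.n1 (7568, -5344) (by decide +kernel)
     (CovZ.n2 (7576, -5352) (by decide +kernel)
      (CovZ.n2 (7568, -5352) (by decide +kernel)
       (CovZ.n2 (7572, -5348) (by decide +kernel)
        (CovZ.leaf K2_ok TT_l1993 _)
        (CovZ.leaf K2_ok TT_l1994 _))
       (CovZ.n1 (7572, -5356) (by decide +kernel)
        (CovZ.leaf K2_ok TT_l1995 _)
        (CovZ.n1 (7572, -5352) (by decide +kernel)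
         (CovZ.leaf K2_ok TT_l1996 _)
         (CovZ.leaf K2_ok TT_l1997 _))))
      (CovZ.n1 (7576, -5344) (by decide +kernel)
       (CovZ.n2 (7580, -5348) (by decide +kernel)
        (CovZ.leaf K2_ok TT_l1998 _)
        (CovZ.n1 (7580, -5344) (by decide +kernel)
         (CovZ.leaf K2_ok TT_l1999 _)
         (CovZ.leaf K2_ok TT_l2000 _)))
       (CovZ.n1 (7572, -5348) (by decide +kernel)
        (CovZ.leaf K2_ok TT_l2001 _)
        (CovZ.leaf K2_ok TT_l2002 _))))
     (CovZ.n1 (7560, -5352) (by decide +kernel)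
      (CovZ.n2 (7560, -5344) (by decide +kernel)
       (CovZ.leaf K2_ok TT_l2003 _)
       (CovZ.leaf K2_ok TT_l2004 _))
      (CovZ.n1 (7568, -5352) (by decide +kernel)
       (CovZ.n2 (7564, -5356) (by decide +kernel)
        (CovZ.leaf K2_ok TT_l2005 _)
        (CovZ.leaf K2_ok TT_l2006 _))
       (CovZ.leaf K2_ok TT_l2007 _))))))

theorem TT_s6_10 : SqZ TT_M TT_L [0, 7, 4, 3] 7392 (-5696) 32 6 10 :=
  SqZ.mk (a := 7584) (b := 7616) (c := (-5376)) (d := (-5344)) (by norm_num) (by norm_num) (by norm_num) (by norm_num)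
    (CovZ.topM TT_LL 2 (by decide +kernel) (CovZ.n2 (7600, -5360) (by decide +kernel)
    (CovZ.badM (by decide +kernel))
    (CovZ.n1 (7600, -5376) (by decide +kernel)
     (CovZ.n2 (7592, -5368) (by decide +kernel)
      (CovZ.badM (by decide +kernel))
      (CovZ.n1 (7592, -5376) (by decide +kernel)
       (CovZ.n2 (7588, -5372) (by decide +kernel)
        (CovZ.n2 (7592, -5372) (by decide +kernel)
         (CovZ.n2 (7590, -5374) (by decide +kernel)
          (CovZ.n2 (7590, -5372) (by decide +kernel)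
           (CovZ.badM (by decide +kernel))
           (CovZ.n1 (7589, -5373) (by decide +kernel)
            (CovZ.leaf K2_ok TT_l2095 _)
            (CovZ.badM (by decide +kernel))))
          (CovZ.badM (by decide +kernel)))
         (CovZ.n1 (7590, -5370) (by decide +kernel)
          (CovZ.badM (by decide +kernel))
          (CovZ.n1 (7590, -5372) (by decide +kernel)
           (CovZ.leaf K2_ok TT_l2096 _)
           (CovZ.badM (by decide +kernel)))))
        (CovZ.n1 (7588, -5376) (by decide +kernel)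
         (CovZ.n2 (7586, -5374) (by decide +kernel)
          (CovZ.n2 (7588, -5374) (by decide +kernel)
           (CovZ.n2 (7587, -5375) (by decide +kernel)
            (CovZ.n2 (7587, -5374) (by decide +kernel)
             (CovZ.leaf K2_ok TT_l2097 _)
             (CovZ.leaf K2_ok TT_l2098 _))
            (CovZ.badM (by decide +kernel)))
           (CovZ.leaf K2_ok TT_l2099 _))
          (CovZ.n1 (7586, -5376) (by decide +kernel)
           (CovZ.leaf K2_ok TT_l2100 _)
           (CovZ.n1 (7587, -5375) (by decide +kernel)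
            (CovZ.leaf K2_ok TT_l2101 _)
            (CovZ.leaf K2_ok TT_l2102 _))))
         (CovZ.n1 (7590, -5374) (by decide +kernel)
          (CovZ.badM (by decide +kernel))
          (CovZ.n1 (7588, -5374) (by decide +kernel)
           (CovZ.n2 (7589, -5373) (by decide +kernel)
            (CovZ.badM (by decide +kernel))
            (CovZ.leaf K2_ok TT_l2103 _))
           (CovZ.badM (by decide +kernel))))))
       (CovZ.badM (by decide +kernel))))
     (CovZ.badM (by decide +kernel)))))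
    (CovZ.topM TT_LL 7 (by decide +kernel) (CovZ.n0 (7600, -5360) (by decide +kernel)
    TT_u12
    TT_u13))

theorem TT_s7_10 : SqZ TT_M TT_L [0, 7, 4, 3] 7392 (-5696) 32 7 10 :=
  SqZ.mk (a := 7616) (b := 7648) (c := (-5376)) (d := (-5344)) (by norm_num) (by norm_num) (by norm_num) (by norm_num)
    (CovZ.topM TT_LL 0 (by decide +kernel) (CovZ.badM (by decide +kernel)))
    (CovZ.topM TT_LL 0 (by decide +kernel) (CovZ.badM (by decide +kernel)))

theorem TT_s8_10 : SqZ TT_M TT_L [0, 7, 4, 3] 7392 (-5696) 32 8 10 :=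
  SqZ.mk (a := 7648) (b := 7680) (c := (-5376)) (d := (-5344)) (by norm_num) (by norm_num) (by norm_num) (by norm_num)
    (CovZ.topM TT_LL 0 (by decide +kernel) (CovZ.badM (by decide +kernel)))
    (CovZ.topM TT_LL 0 (by decide +kernel) (CovZ.badM (by decide +kernel)))

theorem TT_s0_11 : SqZ TT_M TT_L [0, 7, 4, 3] 7392 (-5696) 32 0 11 :=
  SqZ.mk (a := 7392) (b := 7424) (c := (-5344)) (d := (-5312)) (by norm_num) (by norm_num) (by norm_num) (by norm_num)
    (CovZ.topM TT_LL 0 (by decide +kernel) (CovZ.badM (by decide +kernel)))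
    (CovZ.topM TT_LL 0 (by decide +kernel) (CovZ.badM (by decide +kernel)))

theorem TT_s1_11 : SqZ TT_M TT_L [0, 7, 4, 3] 7392 (-5696) 32 1 11 :=
  SqZ.mk (a := 7424) (b := 7456) (c := (-5344)) (d := (-5312)) (by norm_num) (by norm_num) (by norm_num) (by norm_num)
    (CovZ.topM TT_LL 0 (by decide +kernel) (CovZ.badM (by decide +kernel)))
    (CovZ.topM TT_LL 0 (by decide +kernel) (CovZ.badM (by decide +kernel)))

theorem TT_s2_11 : SqZ TT_M TT_L [0, 7, 4, 3] 7392 (-5696) 32 2 11 :=
  SqZ.mk (a := 7456) (b := 7488) (c := (-5344)) (d := (-5312)) (by norm_num) (by norm_num) (by norm_num) (by norm_num)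
    (CovZ.topM TT_LL 0 (by decide +kernel) (CovZ.badM (by decide +kernel)))
    (CovZ.topM TT_LL 0 (by decide +kernel) (CovZ.badM (by decide +kernel)))

theorem TT_s3_11 : SqZ TT_M TT_L [0, 7, 4, 3] 7392 (-5696) 32 3 11 :=
  SqZ.mk (a := 7488) (b := 7520) (c := (-5344)) (d := (-5312)) (by norm_num) (by norm_num) (by norm_num) (by norm_num)
    (CovZ.topM TT_LL 0 (by decide +kernel) (CovZ.badM (by decide +kernel)))
    (CovZ.topM TT_LL 0 (by decide +kernel) (CovZ.badM (by decide +kernel)))

theorem TT_s4_11 : SqZ TT_M TT_L [0, 7, 4, 3] 7392 (-5696) 32 4 11 :=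
  SqZ.mk (a := 7520) (b := 7552) (c := (-5344)) (d := (-5312)) (by norm_num) (by norm_num) (by norm_num) (by norm_num)
    (CovZ.topM TT_LL 7 (by decide +kernel) (CovZ.n2 (7536, -5328) (by decide +kernel)
    (CovZ.n2 (7552, -5328) (by decide +kernel)
     (CovZ.n2 (7544, -5336) (by decide +kernel)
      (CovZ.leaf K2_ok TT_l1431 _)
      (CovZ.leaf K2_ok TT_l1432 _))
     (CovZ.leaf K2_ok TT_l1433 _))
    (CovZ.n1 (7536, -5344) (by decide +kernel)
     (CovZ.leaf K2_ok TT_l1434 _)
     (CovZ.n1 (7544, -5336) (by decide +kernel)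
      (CovZ.leaf K2_ok TT_l1435 _)
      (CovZ.leaf K2_ok TT_l1436 _)))))
    (CovZ.topM TT_LL 0 (by decide +kernel) (CovZ.badM (by decide +kernel)))

theorem TT_s5_11 : SqZ TT_M TT_L [0, 7, 4, 3] 7392 (-5696) 32 5 11 :=
  SqZ.mk (a := 7552) (b := 7584) (c := (-5344)) (d := (-5312)) (by norm_num) (by norm_num) (by norm_num) (by norm_num)
    (CovZ.topM TT_LL 7 (by decide +kernel) (CovZ.n2 (7568, -5328) (by decide +kernel)
    (CovZ.n2 (7584, -5328) (by decide +kernel)
     (CovZ.n2 (7576, -5336) (by decide +kernel)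
      (CovZ.n2 (7576, -5328) (by decide +kernel)
       (CovZ.n2 (7580, -5332) (by decide +kernel)
        (CovZ.leaf K2_ok TT_l2008 _)
        (CovZ.n1 (7580, -5328) (by decide +kernel)
         (CovZ.leaf K2_ok TT_l2009 _)
         (CovZ.leaf K2_ok TT_l2010 _)))
       (CovZ.n1 (7572, -5332) (by decide +kernel)
        (CovZ.leaf K2_ok TT_l2011 _)
        (CovZ.leaf K2_ok TT_l2012 _)))
      (CovZ.n1 (7584, -5336) (by decide +kernel)
       (CovZ.n2 (7580, -5340) (by decide +kernel)
        (CovZ.n2 (7580, -5336) (by decide +kernel)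
         (CovZ.leaf K2_ok TT_l2013 _)
         (CovZ.leaf K2_ok TT_l2014 _))
        (CovZ.n1 (7584, -5340) (by decide +kernel)
         (CovZ.leaf K2_ok TT_l2015 _)
         (CovZ.leaf K2_ok TT_l2016 _)))
       (CovZ.n1 (7580, -5332) (by decide +kernel)
        (CovZ.leaf K2_ok TT_l2017 _)
        (CovZ.leaf K2_ok TT_l2018 _))))
     (CovZ.n1 (7576, -5320) (by decide +kernel)
      (CovZ.n2 (7584, -5320) (by decide +kernel)
       (CovZ.n2 (7580, -5324) (by decide +kernel)
        (CovZ.leaf K2_ok TT_l2019 _)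
        (CovZ.leaf K2_ok TT_l2020 _))
       (CovZ.leaf K2_ok TT_l2021 _))
      (CovZ.n1 (7576, -5328) (by decide +kernel)
       (CovZ.leaf K2_ok TT_l2022 _)
       (CovZ.n1 (7580, -5324) (by decide +kernel)
        (CovZ.leaf K2_ok TT_l2023 _)
        (CovZ.leaf K2_ok TT_l2024 _)))))
    (CovZ.n1 (7568, -5344) (by decide +kernel)
     (CovZ.n2 (7560, -5336) (by decide +kernel)
      (CovZ.n2 (7568, -5336) (by decide +kernel)
       (CovZ.n2 (7564, -5340) (by decide +kernel)
        (CovZ.leaf K2_ok TT_l2025 _)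
        (CovZ.leaf K2_ok TT_l2026 _))
       (CovZ.leaf K2_ok TT_l2027 _))
      (CovZ.n1 (7560, -5344) (by decide +kernel)
       (CovZ.leaf K2_ok TT_l2028 _)
       (CovZ.n1 (7564, -5340) (by decide +kernel)
        (CovZ.leaf K2_ok TT_l2029 _)
        (CovZ.leaf K2_ok TT_l2030 _))))
     (CovZ.n1 (7576, -5336) (by decide +kernel)
      (CovZ.n2 (7576, -5344) (by decide +kernel)
       (CovZ.n2 (7572, -5340) (by decide +kernel)
        (CovZ.leaf K2_ok TT_l2031 _)
        (CovZ.leaf K2_ok TT_l2032 _))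
       (CovZ.n1 (7580, -5340) (by decide +kernel)
        (CovZ.leaf K2_ok TT_l2033 _)
        (CovZ.leaf K2_ok TT_l2034 _)))
      (CovZ.n1 (7568, -5336) (by decide +kernel)
       (CovZ.n2 (7572, -5332) (by decide +kernel)
        (CovZ.leaf K2_ok TT_l2035 _)
        (CovZ.leaf K2_ok TT_l2036 _))
       (CovZ.leaf K2_ok TT_l2037 _))))))
    (CovZ.topM TT_LL 7 (by decide +kernel) (CovZ.n0 (7568, -5328) (by decide +kernel)
    (CovZ.n2 (7552, -5328) (by decide +kernel)
     (CovZ.n2 (7560, -5320) (by decide +kernel)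
      (CovZ.n2 (7560, -5328) (by decide +kernel)
       (CovZ.leaf K2_ok TT_l2038 _)
       (CovZ.leaf K2_ok TT_l2039 _))
      (CovZ.leaf K2_ok TT_l2040 _))
     (CovZ.n1 (7560, -5336) (by decide +kernel)
      (CovZ.n2 (7552, -5336) (by decide +kernel)
       (CovZ.leaf K2_ok TT_l2041 _)
       (CovZ.leaf K2_ok TT_l2042 _))
      (CovZ.n1 (7560, -5328) (by decide +kernel)
       (CovZ.leaf K2_ok TT_l2043 _)
       (CovZ.leaf K2_ok TT_l2044 _))))
    (CovZ.n1 (7568, -5312) (by decide +kernel)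
     (CovZ.n2 (7576, -5320) (by decide +kernel)
      (CovZ.n2 (7568, -5320) (by decide +kernel)
       (CovZ.leaf K2_ok TT_l2045 _)
       (CovZ.leaf K2_ok TT_l2046 _))
      (CovZ.n1 (7576, -5312) (by decide +kernel)
       (CovZ.leaf K2_ok TT_l2047 _)
       (CovZ.leaf K2_ok TT_l2048 _)))
     (CovZ.n1 (7560, -5320) (by decide +kernel)
      (CovZ.n2 (7560, -5312) (by decide +kernel)
       (CovZ.leaf K2_ok TT_l2049 _)
       (CovZ.leaf K2_ok TT_l2050 _))
      (CovZ.n1 (7568, -5320) (by decide +kernel)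
       (CovZ.leaf K2_ok TT_l2051 _)
       (CovZ.leaf K2_ok TT_l2052 _))))))

theorem TT_s6_11 : SqZ TT_M TT_L [0, 7, 4, 3] 7392 (-5696) 32 6 11 :=
  SqZ.mk (a := 7584) (b := 7616) (c := (-5344)) (d := (-5312)) (by norm_num) (by norm_num) (by norm_num) (by norm_num)
    (CovZ.topM TT_LL 7 (by decide +kernel) (CovZ.n2 (7600, -5328) (by decide +kernel)
    TT_u14
    TT_u15))
    (CovZ.topM TT_LL 7 (by decide +kernel) (CovZ.n0 (7600, -5328) (by decide +kernel)
    (CovZ.n2 (7584, -5328) (by decide +kernel)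
     (CovZ.n2 (7592, -5320) (by decide +kernel)
      (CovZ.n2 (7592, -5328) (by decide +kernel)
       (CovZ.n2 (7588, -5324) (by decide +kernel)
        (CovZ.n2 (7592, -5324) (by decide +kernel)
         (CovZ.leaf K2_ok TT_l2408 _)
         (CovZ.leaf K2_ok TT_l2409 _))
        (CovZ.leaf K2_ok TT_l2410 _))
       (CovZ.n1 (7596, -5324) (by decide +kernel)
        (CovZ.n2 (7596, -5328) (by decide +kernel)
         (CovZ.leaf K2_ok TT_l2411 _)
         (CovZ.n1 (7598, -5326) (by decide +kernel)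
          (CovZ.n2 (7598, -5328) (by decide +kernel)
           (CovZ.leaf K2_ok TT_l2412 _)
           (CovZ.leaf K2_ok TT_l2413 _))
          (CovZ.leaf K2_ok TT_l2414 _)))
        (CovZ.n1 (7592, -5324) (by decide +kernel)
         (CovZ.leaf K2_ok TT_l2415 _)
         (CovZ.leaf K2_ok TT_l2416 _))))
      (CovZ.n1 (7584, -5320) (by decide +kernel)
       (CovZ.n2 (7588, -5316) (by decide +kernel)
        (CovZ.leaf K2_ok TT_l2417 _)
        (CovZ.leaf K2_ok TT_l2418 _))
       (CovZ.n1 (7588, -5324) (by decide +kernel)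
        (CovZ.leaf K2_ok TT_l2419 _)
        (CovZ.n1 (7588, -5320) (by decide +kernel)
         (CovZ.leaf K2_ok TT_l2420 _)
         (CovZ.leaf K2_ok TT_l2421 _)))))
     (CovZ.n1 (7592, -5336) (by decide +kernel)
      (CovZ.n2 (7584, -5336) (by decide +kernel)
       (CovZ.n2 (7588, -5332) (by decide +kernel)
        (CovZ.n2 (7588, -5336) (by decide +kernel)
         (CovZ.leaf K2_ok TT_l2422 _)
         (CovZ.n1 (7590, -5334) (by decide +kernel)
          (CovZ.leaf K2_ok TT_l2423 _)
          (CovZ.leaf K2_ok TT_l2424 _)))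
        (CovZ.leaf K2_ok TT_l2425 _))
       (CovZ.n1 (7588, -5340) (by decide +kernel)
        (CovZ.n2 (7584, -5340) (by decide +kernel)
         (CovZ.leaf K2_ok TT_l2426 _)
         (CovZ.leaf K2_ok TT_l2427 _))
        (CovZ.n1 (7588, -5336) (by decide +kernel)
         (CovZ.leaf K2_ok TT_l2428 _)
         (CovZ.leaf K2_ok TT_l2429 _))))
      (CovZ.n1 (7592, -5328) (by decide +kernel)
       (CovZ.n2 (7596, -5332) (by decide +kernel)
        (CovZ.n2 (7592, -5332) (by decide +kernel)
         (CovZ.n2 (7594, -5330) (by decide +kernel)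
          (CovZ.leaf K2_ok TT_l2430 _)
          (CovZ.leaf K2_ok TT_l2431 _))
         (CovZ.leaf K2_ok TT_l2432 _))
        (CovZ.n1 (7596, -5328) (by decide +kernel)
         (CovZ.n2 (7598, -5330) (by decide +kernel)
          (CovZ.leaf K2_ok TT_l2433 _)
          (CovZ.leaf K2_ok TT_l2434 _))
         (CovZ.n1 (7594, -5330) (by decide +kernel)
          (CovZ.leaf K2_ok TT_l2435 _)
          (CovZ.leaf K2_ok TT_l2436 _))))
       (CovZ.n1 (7588, -5332) (by decide +kernel)
        (CovZ.n2 (7588, -5328) (by decide +kernel)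
         (CovZ.leaf K2_ok TT_l2437 _)
         (CovZ.leaf K2_ok TT_l2438 _))
        (CovZ.n1 (7592, -5332) (by decide +kernel)
         (CovZ.n2 (7590, -5334) (by decide +kernel)
          (CovZ.leaf K2_ok TT_l2439 _)
          (CovZ.leaf K2_ok TT_l2440 _))
         (CovZ.leaf K2_ok TT_l2441 _))))))
    (CovZ.n1 (7600, -5312) (by decide +kernel)
     (CovZ.n2 (7608, -5320) (by decide +kernel)
      (CovZ.n2 (7600, -5320) (by decide +kernel)
       (CovZ.n2 (7604, -5316) (by decide +kernel)
        (CovZ.n2 (7604, -5320) (by decide +kernel)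
         (CovZ.n2 (7602, -5318) (by decide +kernel)
          (CovZ.leaf K2_ok TT_l2442 _)
          (CovZ.leaf K2_ok TT_l2443 _))
         (CovZ.n1 (7606, -5318) (by decide +kernel)
          (CovZ.n2 (7606, -5320) (by decide +kernel)
           (CovZ.leaf K2_ok TT_l2444 _)
           (CovZ.leaf K2_ok TT_l2445 _))
          (CovZ.leaf K2_ok TT_l2446 _)))
        (CovZ.n1 (7600, -5316) (by decide +kernel)
         (CovZ.n2 (7602, -5314) (by decide +kernel)
          (CovZ.leaf K2_ok TT_l2447 _)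
          (CovZ.leaf K2_ok TT_l2448 _))
         (CovZ.leaf K2_ok TT_l2449 _)))
       (CovZ.n1 (7604, -5324) (by decide +kernel)
        (CovZ.n2 (7600, -5324) (by decide +kernel)
         (CovZ.n2 (7602, -5322) (by decide +kernel)
          (CovZ.n2 (7602, -5324) (by decide +kernel)
           (CovZ.leaf K2_ok TT_l2450 _)
           (CovZ.leaf K2_ok TT_l2451 _))
          (CovZ.leaf K2_ok TT_l2452 _))
         (CovZ.n1 (7602, -5326) (by decide +kernel)
          (CovZ.leaf K2_ok TT_l2453 _)
          (CovZ.n1 (7602, -5324) (by decide +kernel)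
           (CovZ.leaf K2_ok TT_l2454 _)
           (CovZ.leaf K2_ok TT_l2455 _))))
        (CovZ.n1 (7604, -5320) (by decide +kernel)
         (CovZ.n2 (7606, -5322) (by decide +kernel)
          (CovZ.n2 (7604, -5322) (by decide +kernel)
           (CovZ.leaf K2_ok TT_l2456 _)
           (CovZ.leaf K2_ok TT_l2457 _))
          (CovZ.n1 (7606, -5320) (by decide +kernel)
           (CovZ.leaf K2_ok TT_l2458 _)
           (CovZ.leaf K2_ok TT_l2459 _)))
         (CovZ.n1 (7602, -5322) (by decide +kernel)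
          (CovZ.n2 (7602, -5320) (by decide +kernel)
           (CovZ.leaf K2_ok TT_l2460 _)
           (CovZ.leaf K2_ok TT_l2461 _))
          (CovZ.leaf K2_ok TT_l2462 _)))))
      (CovZ.n1 (7608, -5312) (by decide +kernel)
       (CovZ.n2 (7612, -5316) (by decide +kernel)
        (CovZ.n2 (7608, -5316) (by decide +kernel)
         (CovZ.n2 (7610, -5314) (by decide +kernel)
          (CovZ.n2 (7610, -5316) (by decide +kernel)
           (CovZ.leaf K2_ok TT_l2463 _)
           (CovZ.n1 (7611, -5315) (by decide +kernel)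
            (CovZ.leaf K2_ok TT_l2464 _)
            (CovZ.leaf K2_ok TT_l2465 _)))
          (CovZ.leaf K2_ok TT_l2466 _))
         (CovZ.n1 (7610, -5318) (by decide +kernel)
          (CovZ.n2 (7608, -5318) (by decide +kernel)
           (CovZ.n2 (7609, -5317) (by decide +kernel)
            (CovZ.leaf K2_ok TT_l2467 _)
            (CovZ.leaf K2_ok TT_l2468 _))
           (CovZ.leaf K2_ok TT_l2469 _))
          (CovZ.n1 (7610, -5316) (by decide +kernel)
           (CovZ.leaf K2_ok TT_l2470 _)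
           (CovZ.n1 (7609, -5317) (by decide +kernel)
            (CovZ.leaf K2_ok TT_l2471 _)
            (CovZ.leaf K2_ok TT_l2472 _)))))
        (CovZ.n1 (7612, -5312) (by decide +kernel)
         (CovZ.n2 (7614, -5314) (by decide +kernel)
          (CovZ.n2 (7612, -5314) (by decide +kernel)
           (CovZ.n2 (7613, -5313) (by decide +kernel)
            (CovZ.leaf K2_ok TT_l2473 _)
            (CovZ.leaf K2_ok TT_l2474 _))
           (CovZ.leaf K2_ok TT_l2475 _))
          (CovZ.n1 (7614, -5312) (by decide +kernel)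
           (CovZ.badM (by decide +kernel))
           (CovZ.n1 (7613, -5313) (by decide +kernel)
            (CovZ.leaf K2_ok TT_l2476 _)
            (CovZ.leaf K2_ok TT_l2477 _))))
         (CovZ.n1 (7610, -5314) (by decide +kernel)
          (CovZ.n2 (7610, -5312) (by decide +kernel)
           (CovZ.leaf K2_ok TT_l2478 _)
           (CovZ.leaf K2_ok TT_l2479 _))
          (CovZ.n1 (7612, -5314) (by decide +kernel)
           (CovZ.n2 (7611, -5315) (by decide +kernel)
            (CovZ.leaf K2_ok TT_l2480 _)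
            (CovZ.leaf K2_ok TT_l2481 _))
           (CovZ.leaf K2_ok TT_l2482 _)))))
       (CovZ.n1 (7604, -5316) (by decide +kernel)
        (CovZ.n2 (7604, -5312) (by decide +kernel)
         (CovZ.n2 (7606, -5314) (by decide +kernel)
          (CovZ.leaf K2_ok TT_l2483 _)
          (CovZ.n1 (7606, -5312) (by decide +kernel)
           (CovZ.leaf K2_ok TT_l2484 _)
           (CovZ.leaf K2_ok TT_l2485 _)))
         (CovZ.n1 (7602, -5314) (by decide +kernel)
          (CovZ.leaf K2_ok TT_l2486 _)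
          (CovZ.leaf K2_ok TT_l2487 _)))
        (CovZ.n1 (7608, -5316) (by decide +kernel)
         (CovZ.n2 (7606, -5318) (by decide +kernel)
          (CovZ.n2 (7606, -5316) (by decide +kernel)
           (CovZ.leaf K2_ok TT_l2488 _)
           (CovZ.leaf K2_ok TT_l2489 _))
          (CovZ.leaf K2_ok TT_l2490 _))
         (CovZ.n1 (7606, -5314) (by decide +kernel)
          (CovZ.leaf K2_ok TT_l2491 _)
          (CovZ.n1 (7606, -5316) (by decide +kernel)
           (CovZ.leaf K2_ok TT_l2492 _)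
           (CovZ.leaf K2_ok TT_l2493 _)))))))
     (CovZ.n1 (7592, -5320) (by decide +kernel)
      (CovZ.n2 (7592, -5312) (by decide +kernel)
       (CovZ.n2 (7596, -5316) (by decide +kernel)
        (CovZ.leaf K2_ok TT_l2494 _)
        (CovZ.n1 (7596, -5312) (by decide +kernel)
         (CovZ.leaf K2_ok TT_l2495 _)
         (CovZ.leaf K2_ok TT_l2496 _)))
       (CovZ.n1 (7588, -5316) (by decide +kernel)
        (CovZ.n2 (7588, -5312) (by decide +kernel)
         (CovZ.leaf K2_ok TT_l2497 _)
         (CovZ.leaf K2_ok TT_l2498 _))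
        (CovZ.n1 (7592, -5316) (by decide +kernel)
         (CovZ.leaf K2_ok TT_l2499 _)
         (CovZ.leaf K2_ok TT_l2500 _))))
      (CovZ.n1 (7600, -5320) (by decide +kernel)
       (CovZ.n2 (7596, -5324) (by decide +kernel)
        (CovZ.n2 (7596, -5320) (by decide +kernel)
         (CovZ.leaf K2_ok TT_l2501 _)
         (CovZ.n1 (7594, -5322) (by decide +kernel)
          (CovZ.leaf K2_ok TT_l2502 _)
          (CovZ.leaf K2_ok TT_l2503 _)))
        (CovZ.n1 (7600, -5324) (by decide +kernel)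
         (CovZ.n2 (7598, -5326) (by decide +kernel)
          (CovZ.leaf K2_ok TT_l2504 _)
          (CovZ.leaf K2_ok TT_l2505 _))
         (CovZ.leaf K2_ok TT_l2506 _)))
       (CovZ.n1 (7596, -5316) (by decide +kernel)
        (CovZ.n2 (7600, -5316) (by decide +kernel)
         (CovZ.n2 (7598, -5318) (by decide +kernel)
          (CovZ.leaf K2_ok TT_l2507 _)
          (CovZ.leaf K2_ok TT_l2508 _))
         (CovZ.leaf K2_ok TT_l2509 _))
        (CovZ.n1 (7596, -5320) (by decide +kernel)
         (CovZ.leaf K2_ok TT_l2510 _)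
         (CovZ.n1 (7598, -5318) (by decide +kernel)
          (CovZ.leaf K2_ok TT_l2511 _)
          (CovZ.leaf K2_ok TT_l2512 _)))))))))

theorem TT_s7_11 : SqZ TT_M TT_L [0, 7, 4, 3] 7392 (-5696) 32 7 11 :=
  SqZ.mk (a := 7616) (b := 7648) (c := (-5344)) (d := (-5312)) (by norm_num) (by norm_num) (by norm_num) (by norm_num)
    (CovZ.topM TT_LL 0 (by decide +kernel) (CovZ.badM (by decide +kernel)))
    (CovZ.topM TT_LL 0 (by decide +kernel) (CovZ.badM (by decide +kernel)))

theorem TT_s8_11 : SqZ TT_M TT_L [0, 7, 4, 3] 7392 (-5696) 32 8 11 :=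
  SqZ.mk (a := 7648) (b := 7680) (c := (-5344)) (d := (-5312)) (by norm_num) (by norm_num) (by norm_num) (by norm_num)
    (CovZ.topM TT_LL 0 (by decide +kernel) (CovZ.badM (by decide +kernel)))
    (CovZ.topM TT_LL 0 (by decide +kernel) (CovZ.badM (by decide +kernel)))

theorem TT_s0_12 : SqZ TT_M TT_L [0, 7, 4, 3] 7392 (-5696) 32 0 12 :=
  SqZ.mk (a := 7392) (b := 7424) (c := (-5312)) (d := (-5280)) (by norm_num) (by norm_num) (by norm_num) (by norm_num)
    (CovZ.topM TT_LL 0 (by decide +kernel) (CovZ.badM (by decide +kernel)))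
    (CovZ.topM TT_LL 0 (by decide +kernel) (CovZ.badM (by decide +kernel)))

theorem TT_s1_12 : SqZ TT_M TT_L [0, 7, 4, 3] 7392 (-5696) 32 1 12 :=
  SqZ.mk (a := 7424) (b := 7456) (c := (-5312)) (d := (-5280)) (by norm_num) (by norm_num) (by norm_num) (by norm_num)
    (CovZ.topM TT_LL 0 (by decide +kernel) (CovZ.badM (by decide +kernel)))
    (CovZ.topM TT_LL 0 (by decide +kernel) (CovZ.badM (by decide +kernel)))

theorem TT_s2_12 : SqZ TT_M TT_L [0, 7, 4, 3] 7392 (-5696) 32 2 12 :=
  SqZ.mk (a := 7456) (b := 7488) (c := (-5312)) (d := (-5280)) (by norm_num) (by norm_num) (by norm_num) (by norm_num)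
    (CovZ.topM TT_LL 0 (by decide +kernel) (CovZ.badM (by decide +kernel)))
    (CovZ.topM TT_LL 0 (by decide +kernel) (CovZ.badM (by decide +kernel)))

theorem TT_s3_12 : SqZ TT_M TT_L [0, 7, 4, 3] 7392 (-5696) 32 3 12 :=
  SqZ.mk (a := 7488) (b := 7520) (c := (-5312)) (d := (-5280)) (by norm_num) (by norm_num) (by norm_num) (by norm_num)
    (CovZ.topM TT_LL 0 (by decide +kernel) (CovZ.badM (by decide +kernel)))
    (CovZ.topM TT_LL 0 (by decide +kernel) (CovZ.badM (by decide +kernel)))

theorem TT_s4_12 : SqZ TT_M TT_L [0, 7, 4, 3] 7392 (-5696) 32 4 12 :=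
  SqZ.mk (a := 7520) (b := 7552) (c := (-5312)) (d := (-5280)) (by norm_num) (by norm_num) (by norm_num) (by norm_num)
    (CovZ.topM TT_LL 0 (by decide +kernel) (CovZ.badM (by decide +kernel)))
    (CovZ.topM TT_LL 0 (by decide +kernel) (CovZ.badM (by decide +kernel)))

theorem TT_s5_12 : SqZ TT_M TT_L [0, 7, 4, 3] 7392 (-5696) 32 5 12 :=
  SqZ.mk (a := 7552) (b := 7584) (c := (-5312)) (d := (-5280)) (by norm_num) (by norm_num) (by norm_num) (by norm_num)
    (CovZ.topM TT_LL 7 (by decide +kernel) (CovZ.n2 (7568, -5296) (by decide +kernel)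
    (CovZ.n2 (7584, -5296) (by decide +kernel)
     (CovZ.n2 (7576, -5304) (by decide +kernel)
      (CovZ.n2 (7576, -5296) (by decide +kernel)
       (CovZ.leaf K2_ok TT_l2053 _)
       (CovZ.leaf K2_ok TT_l2054 _))
      (CovZ.n1 (7584, -5304) (by decide +kernel)
       (CovZ.n2 (7580, -5308) (by decide +kernel)
        (CovZ.leaf K2_ok TT_l2055 _)
        (CovZ.leaf K2_ok TT_l2056 _))
       (CovZ.leaf K2_ok TT_l2057 _)))
     (CovZ.n1 (7576, -5288) (by decide +kernel)
      (CovZ.n2 (7584, -5288) (by decide +kernel)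
       (CovZ.leaf K2_ok TT_l2058 _)
       (CovZ.leaf K2_ok TT_l2059 _))
      (CovZ.n1 (7576, -5296) (by decide +kernel)
       (CovZ.leaf K2_ok TT_l2060 _)
       (CovZ.leaf K2_ok TT_l2061 _))))
    (CovZ.n1 (7568, -5312) (by decide +kernel)
     (CovZ.n2 (7560, -5304) (by decide +kernel)
      (CovZ.leaf K2_ok TT_l2062 _)
      (CovZ.leaf K2_ok TT_l2063 _))
     (CovZ.n1 (7576, -5304) (by decide +kernel)
      (CovZ.n2 (7576, -5312) (by decide +kernel)
       (CovZ.leaf K2_ok TT_l2064 _)
       (CovZ.n1 (7580, -5308) (by decide +kernel)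
        (CovZ.leaf K2_ok TT_l2065 _)
        (CovZ.leaf K2_ok TT_l2066 _)))
      (CovZ.n1 (7568, -5304) (by decide +kernel)
       (CovZ.leaf K2_ok TT_l2067 _)
       (CovZ.leaf K2_ok TT_l2068 _))))))
    (CovZ.topM TT_LL 0 (by decide +kernel) (CovZ.badM (by decide +kernel)))

theorem TT_s6_12 : SqZ TT_M TT_L [0, 7, 4, 3] 7392 (-5696) 32 6 12 :=
  SqZ.mk (a := 7584) (b := 7616) (c := (-5312)) (d := (-5280)) (by norm_num) (by norm_num) (by norm_num) (by norm_num)
    (CovZ.topM TT_LL 7 (by decide +kernel) (CovZ.n2 (7600, -5296) (by decide +kernel)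
    (CovZ.n2 (7616, -5296) (by decide +kernel)
     (CovZ.n2 (7608, -5304) (by decide +kernel)
      (CovZ.n2 (7608, -5296) (by decide +kernel)
       (CovZ.n2 (7612, -5300) (by decide +kernel)
        (CovZ.n2 (7608, -5300) (by decide +kernel)
         (CovZ.n2 (7610, -5298) (by decide +kernel)
          (CovZ.leaf K2_ok TT_l2513 _)
          (CovZ.leaf K2_ok TT_l2514 _))
         (CovZ.n1 (7610, -5302) (by decide +kernel)
          (CovZ.leaf K2_ok TT_l2515 _)
          (CovZ.leaf K2_ok TT_l2516 _)))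
        (CovZ.n1 (7612, -5296) (by decide +kernel)
         (CovZ.n2 (7614, -5298) (by decide +kernel)
          (CovZ.leaf K2_ok TT_l2517 _)
          (CovZ.n1 (7614, -5296) (by decide +kernel)
           (CovZ.leaf K2_ok TT_l2518 _)
           (CovZ.leaf K2_ok TT_l2519 _)))
         (CovZ.n1 (7610, -5298) (by decide +kernel)
          (CovZ.n2 (7610, -5296) (by decide +kernel)
           (CovZ.leaf K2_ok TT_l2520 _)
           (CovZ.leaf K2_ok TT_l2521 _))
          (CovZ.leaf K2_ok TT_l2522 _))))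
       (CovZ.n1 (7604, -5300) (by decide +kernel)
        (CovZ.n2 (7604, -5296) (by decide +kernel)
         (CovZ.leaf K2_ok TT_l2523 _)
         (CovZ.leaf K2_ok TT_l2524 _))
        (CovZ.n1 (7608, -5300) (by decide +kernel)
         (CovZ.n2 (7606, -5302) (by decide +kernel)
          (CovZ.leaf K2_ok TT_l2525 _)
          (CovZ.leaf K2_ok TT_l2526 _))
         (CovZ.leaf K2_ok TT_l2527 _))))
      (CovZ.n1 (7616, -5304) (by decide +kernel)
       (CovZ.n2 (7612, -5308) (by decide +kernel)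
        (CovZ.n2 (7612, -5304) (by decide +kernel)
         (CovZ.n2 (7614, -5306) (by decide +kernel)
          (CovZ.n2 (7612, -5306) (by decide +kernel)
           (CovZ.leaf K2_ok TT_l2528 _)
           (CovZ.leaf K2_ok TT_l2529 _))
          (CovZ.n1 (7614, -5304) (by decide +kernel)
           (CovZ.leaf K2_ok TT_l2530 _)
           (CovZ.leaf K2_ok TT_l2531 _)))
         (CovZ.n1 (7610, -5306) (by decide +kernel)
          (CovZ.n2 (7610, -5304) (by decide +kernel)
           (CovZ.leaf K2_ok TT_l2532 _)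
           (CovZ.leaf K2_ok TT_l2533 _))
          (CovZ.leaf K2_ok TT_l2534 _)))
        (CovZ.n1 (7616, -5308) (by decide +kernel)
         (CovZ.n2 (7614, -5310) (by decide +kernel)
          (CovZ.n2 (7614, -5308) (by decide +kernel)
           (CovZ.leaf K2_ok TT_l2535 _)
           (CovZ.n1 (7613, -5309) (by decide +kernel)
            (CovZ.leaf K2_ok TT_l2536 _)
            (CovZ.leaf K2_ok TT_l2537 _)))
          (CovZ.n1 (7616, -5310) (by decide +kernel)
           (CovZ.n2 (7615, -5311) (by decide +kernel)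
            (CovZ.n2 (7615, -5310) (by decide +kernel)
             (CovZ.badM (by decide +kernel))
             (CovZ.leaf K2_ok TT_l2538 _))
            (CovZ.badM (by decide +kernel)))
           (CovZ.n1 (7615, -5309) (by decide +kernel)
            (CovZ.leaf K2_ok TT_l2539 _)
            (CovZ.n1 (7615, -5310) (by decide +kernel)
             (CovZ.leaf K2_ok TT_l2540 _)
             (CovZ.leaf K2_ok TT_l2541 _)))))
         (CovZ.n1 (7614, -5306) (by decide +kernel)
          (CovZ.n2 (7616, -5306) (by decide +kernel)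
           (CovZ.n2 (7615, -5307) (by decide +kernel)
            (CovZ.leaf K2_ok TT_l2542 _)
            (CovZ.leaf K2_ok TT_l2543 _))
           (CovZ.leaf K2_ok TT_l2544 _))
          (CovZ.n1 (7614, -5308) (by decide +kernel)
           (CovZ.leaf K2_ok TT_l2545 _)
           (CovZ.n1 (7615, -5307) (by decide +kernel)
            (CovZ.leaf K2_ok TT_l2546 _)
            (CovZ.leaf K2_ok TT_l2547 _))))))
       (CovZ.n1 (7612, -5300) (by decide +kernel)
        (CovZ.n2 (7616, -5300) (by decide +kernel)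
         (CovZ.n2 (7614, -5302) (by decide +kernel)
          (CovZ.n2 (7614, -5300) (by decide +kernel)
           (CovZ.leaf K2_ok TT_l2548 _)
           (CovZ.leaf K2_ok TT_l2549 _))
          (CovZ.n1 (7616, -5302) (by decide +kernel)
           (CovZ.n2 (7615, -5303) (by decide +kernel)
            (CovZ.leaf K2_ok TT_l2550 _)
            (CovZ.leaf K2_ok TT_l2551 _))
           (CovZ.leaf K2_ok TT_l2552 _)))
         (CovZ.n1 (7614, -5298) (by decide +kernel)
          (CovZ.leaf K2_ok TT_l2553 _)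
          (CovZ.n1 (7614, -5300) (by decide +kernel)
           (CovZ.leaf K2_ok TT_l2554 _)
           (CovZ.leaf K2_ok TT_l2555 _))))
        (CovZ.n1 (7612, -5304) (by decide +kernel)
         (CovZ.n2 (7610, -5302) (by decide +kernel)
          (CovZ.leaf K2_ok TT_l2556 _)
          (CovZ.leaf K2_ok TT_l2557 _))
         (CovZ.n1 (7614, -5302) (by decide +kernel)
          (CovZ.n2 (7614, -5304) (by decide +kernel)
           (CovZ.leaf K2_ok TT_l2558 _)
           (CovZ.n1 (7615, -5303) (by decide +kernel)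
            (CovZ.leaf K2_ok TT_l2559 _)
            (CovZ.leaf K2_ok TT_l2560 _)))
          (CovZ.n1 (7612, -5302) (by decide +kernel)
           (CovZ.leaf K2_ok TT_l2561 _)
           (CovZ.leaf K2_ok TT_l2562 _)))))))
     (CovZ.n1 (7608, -5288) (by decide +kernel)
      (CovZ.n2 (7616, -5288) (by decide +kernel)
       (CovZ.n2 (7612, -5292) (by decide +kernel)
        (CovZ.n2 (7612, -5288) (by decide +kernel)
         (CovZ.leaf K2_ok TT_l2563 _)
         (CovZ.n1 (7610, -5290) (by decide +kernel)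
          (CovZ.leaf K2_ok TT_l2564 _)
          (CovZ.leaf K2_ok TT_l2565 _)))
        (CovZ.n1 (7616, -5292) (by decide +kernel)
         (CovZ.n2 (7614, -5294) (by decide +kernel)
          (CovZ.leaf K2_ok TT_l2566 _)
          (CovZ.leaf K2_ok TT_l2567 _))
         (CovZ.n1 (7614, -5290) (by decide +kernel)
          (CovZ.leaf K2_ok TT_l2568 _)
          (CovZ.leaf K2_ok TT_l2569 _))))
       (CovZ.n1 (7612, -5284) (by decide +kernel)
        (CovZ.n2 (7616, -5284) (by decide +kernel)
         (CovZ.n2 (7614, -5286) (by decide +kernel)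
          (CovZ.leaf K2_ok TT_l2570 _)
          (CovZ.leaf K2_ok TT_l2571 _))
         (CovZ.leaf K2_ok TT_l2572 _))
        (CovZ.n1 (7612, -5288) (by decide +kernel)
         (CovZ.leaf K2_ok TT_l2573 _)
         (CovZ.n1 (7614, -5286) (by decide +kernel)
          (CovZ.leaf K2_ok TT_l2574 _)
          (CovZ.leaf K2_ok TT_l2575 _)))))
      (CovZ.n1 (7608, -5296) (by decide +kernel)
       (CovZ.n2 (7604, -5292) (by decide +kernel)
        (CovZ.n2 (7608, -5292) (by decide +kernel)
         (CovZ.leaf K2_ok TT_l2576 _)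
         (CovZ.leaf K2_ok TT_l2577 _))
        (CovZ.n1 (7604, -5296) (by decide +kernel)
         (CovZ.leaf K2_ok TT_l2578 _)
         (CovZ.leaf K2_ok TT_l2579 _)))
       (CovZ.n1 (7612, -5292) (by decide +kernel)
        (CovZ.n2 (7612, -5296) (by decide +kernel)
         (CovZ.n2 (7610, -5294) (by decide +kernel)
          (CovZ.leaf K2_ok TT_l2580 _)
          (CovZ.leaf K2_ok TT_l2581 _))
         (CovZ.n1 (7614, -5294) (by decide +kernel)
          (CovZ.leaf K2_ok TT_l2582 _)
          (CovZ.leaf K2_ok TT_l2583 _)))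
        (CovZ.n1 (7608, -5292) (by decide +kernel)
         (CovZ.n2 (7610, -5290) (by decide +kernel)
          (CovZ.leaf K2_ok TT_l2584 _)
          (CovZ.leaf K2_ok TT_l2585 _))
         (CovZ.leaf K2_ok TT_l2586 _))))))
    (CovZ.n1 (7600, -5312) (by decide +kernel)
     (CovZ.n2 (7592, -5304) (by decide +kernel)
      (CovZ.n2 (7600, -5304) (by decide +kernel)
       (CovZ.n2 (7596, -5308) (by decide +kernel)
        (CovZ.n2 (7596, -5304) (by decide +kernel)
         (CovZ.leaf K2_ok TT_l2587 _)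
         (CovZ.leaf K2_ok TT_l2588 _))
        (CovZ.n1 (7600, -5308) (by decide +kernel)
         (CovZ.leaf K2_ok TT_l2589 _)
         (CovZ.leaf K2_ok TT_l2590 _)))
       (CovZ.n1 (7596, -5300) (by decide +kernel)
        (CovZ.n2 (7600, -5300) (by decide +kernel)
         (CovZ.leaf K2_ok TT_l2591 _)
         (CovZ.leaf K2_ok TT_l2592 _))
        (CovZ.leaf K2_ok TT_l2593 _)))
      (CovZ.n1 (7592, -5312) (by decide +kernel)
       (CovZ.n2 (7588, -5308) (by decide +kernel)
        (CovZ.leaf K2_ok TT_l2594 _)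
        (CovZ.leaf K2_ok TT_l2595 _))
       (CovZ.n1 (7596, -5308) (by decide +kernel)
        (CovZ.n2 (7596, -5312) (by decide +kernel)
         (CovZ.leaf K2_ok TT_l2596 _)
         (CovZ.leaf K2_ok TT_l2597 _))
        (CovZ.leaf K2_ok TT_l2598 _))))
     (CovZ.n1 (7608, -5304) (by decide +kernel)
      (CovZ.n2 (7608, -5312) (by decide +kernel)
       (CovZ.n2 (7604, -5308) (by decide +kernel)
        (CovZ.n2 (7608, -5308) (by decide +kernel)
         (CovZ.n2 (7606, -5310) (by decide +kernel)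
          (CovZ.leaf K2_ok TT_l2599 _)
          (CovZ.leaf K2_ok TT_l2600 _))
         (CovZ.leaf K2_ok TT_l2601 _))
        (CovZ.n1 (7604, -5312) (by decide +kernel)
         (CovZ.leaf K2_ok TT_l2602 _)
         (CovZ.n1 (7606, -5310) (by decide +kernel)
          (CovZ.leaf K2_ok TT_l2603 _)
          (CovZ.leaf K2_ok TT_l2604 _))))
       (CovZ.n1 (7612, -5308) (by decide +kernel)
        (CovZ.n2 (7612, -5312) (by decide +kernel)
         (CovZ.n2 (7610, -5310) (by decide +kernel)
          (CovZ.n2 (7612, -5310) (by decide +kernel)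
           (CovZ.n2 (7611, -5311) (by decide +kernel)
            (CovZ.leaf K2_ok TT_l2605 _)
            (CovZ.leaf K2_ok TT_l2606 _))
           (CovZ.leaf K2_ok TT_l2607 _))
          (CovZ.n1 (7610, -5312) (by decide +kernel)
           (CovZ.leaf K2_ok TT_l2608 _)
           (CovZ.leaf K2_ok TT_l2609 _)))
         (CovZ.n1 (7614, -5310) (by decide +kernel)
          (CovZ.n2 (7614, -5312) (by decide +kernel)
           (CovZ.n2 (7613, -5311) (by decide +kernel)
            (CovZ.leaf K2_ok TT_l2610 _)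
            (CovZ.leaf K2_ok TT_l2611 _))
           (CovZ.n1 (7615, -5311) (by decide +kernel)
            (CovZ.badM (by decide +kernel))
            (CovZ.leaf K2_ok TT_l2612 _)))
          (CovZ.n1 (7612, -5310) (by decide +kernel)
           (CovZ.n2 (7613, -5309) (by decide +kernel)
            (CovZ.leaf K2_ok TT_l2613 _)
            (CovZ.leaf K2_ok TT_l2614 _))
           (CovZ.leaf K2_ok TT_l2615 _))))
        (CovZ.n1 (7608, -5308) (by decide +kernel)
         (CovZ.n2 (7610, -5306) (by decide +kernel)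
          (CovZ.n2 (7610, -5308) (by decide +kernel)
           (CovZ.leaf K2_ok TT_l2616 _)
           (CovZ.leaf K2_ok TT_l2617 _))
          (CovZ.leaf K2_ok TT_l2618 _))
         (CovZ.n1 (7610, -5310) (by decide +kernel)
          (CovZ.n2 (7608, -5310) (by decide +kernel)
           (CovZ.leaf K2_ok TT_l2619 _)
           (CovZ.leaf K2_ok TT_l2620 _))
          (CovZ.n1 (7610, -5308) (by decide +kernel)
           (CovZ.leaf K2_ok TT_l2621 _)
           (CovZ.leaf K2_ok TT_l2622 _))))))
      (CovZ.n1 (7600, -5304) (by decide +kernel)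
       (CovZ.n2 (7604, -5300) (by decide +kernel)
        (CovZ.n2 (7604, -5304) (by decide +kernel)
         (CovZ.leaf K2_ok TT_l2623 _)
         (CovZ.n1 (7606, -5302) (by decide +kernel)
          (CovZ.leaf K2_ok TT_l2624 _)
          (CovZ.leaf K2_ok TT_l2625 _)))
        (CovZ.n1 (7600, -5300) (by decide +kernel)
         (CovZ.leaf K2_ok TT_l2626 _)
         (CovZ.leaf K2_ok TT_l2627 _)))
       (CovZ.n1 (7604, -5308) (by decide +kernel)
        (CovZ.n2 (7600, -5308) (by decide +kernel)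
         (CovZ.n2 (7602, -5306) (by decide +kernel)
          (CovZ.leaf K2_ok TT_l2628 _)
          (CovZ.leaf K2_ok TT_l2629 _))
         (CovZ.leaf K2_ok TT_l2630 _))
        (CovZ.n1 (7604, -5304) (by decide +kernel)
         (CovZ.leaf K2_ok TT_l2631 _)
         (CovZ.leaf K2_ok TT_l2632 _))))))))
    (CovZ.topM TT_LL 7 (by decide +kernel) (CovZ.n0 (7600, -5296) (by decide +kernel)
    (CovZ.n2 (7584, -5296) (by decide +kernel)
     (CovZ.n2 (7592, -5288) (by decide +kernel)
      (CovZ.n2 (7592, -5296) (by decide +kernel)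
       (CovZ.leaf K2_ok TT_l2633 _)
       (CovZ.n1 (7596, -5292) (by decide +kernel)
        (CovZ.leaf K2_ok TT_l2634 _)
        (CovZ.leaf K2_ok TT_l2635 _)))
      (CovZ.n1 (7584, -5288) (by decide +kernel)
       (CovZ.n2 (7588, -5284) (by decide +kernel)
        (CovZ.leaf K2_ok TT_l2636 _)
        (CovZ.leaf K2_ok TT_l2637 _))
       (CovZ.leaf K2_ok TT_l2638 _)))
     (CovZ.n1 (7592, -5304) (by decide +kernel)
      (CovZ.n2 (7584, -5304) (by decide +kernel)
       (CovZ.n2 (7588, -5300) (by decide +kernel)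
        (CovZ.leaf K2_ok TT_l2639 _)
        (CovZ.leaf K2_ok TT_l2640 _))
       (CovZ.leaf K2_ok TT_l2641 _))
      (CovZ.n1 (7592, -5296) (by decide +kernel)
       (CovZ.n2 (7596, -5300) (by decide +kernel)
        (CovZ.leaf K2_ok TT_l2642 _)
        (CovZ.n1 (7596, -5296) (by decide +kernel)
         (CovZ.leaf K2_ok TT_l2643 _)
         (CovZ.leaf K2_ok TT_l2644 _)))
       (CovZ.n1 (7588, -5300) (by decide +kernel)
        (CovZ.leaf K2_ok TT_l2645 _)
        (CovZ.leaf K2_ok TT_l2646 _)))))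
    (CovZ.n1 (7600, -5280) (by decide +kernel)
     (CovZ.n2 (7608, -5288) (by decide +kernel)
      (CovZ.n2 (7600, -5288) (by decide +kernel)
       (CovZ.n2 (7604, -5284) (by decide +kernel)
        (CovZ.n2 (7604, -5288) (by decide +kernel)
         (CovZ.leaf K2_ok TT_l2647 _)
         (CovZ.leaf K2_ok TT_l2648 _))
        (CovZ.leaf K2_ok TT_l2649 _))
       (CovZ.n1 (7604, -5292) (by decide +kernel)
        (CovZ.leaf K2_ok TT_l2650 _)
        (CovZ.n1 (7604, -5288) (by decide +kernel)
         (CovZ.leaf K2_ok TT_l2651 _)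
         (CovZ.leaf K2_ok TT_l2652 _))))
      (CovZ.n1 (7608, -5280) (by decide +kernel)
       (CovZ.n2 (7612, -5284) (by decide +kernel)
        (CovZ.n2 (7608, -5284) (by decide +kernel)
         (CovZ.leaf K2_ok TT_l2653 _)
         (CovZ.leaf K2_ok TT_l2654 _))
        (CovZ.n1 (7612, -5280) (by decide +kernel)
         (CovZ.leaf K2_ok TT_l2655 _)
         (CovZ.leaf K2_ok TT_l2656 _)))
       (CovZ.n1 (7604, -5284) (by decide +kernel)
        (CovZ.n2 (7604, -5280) (by decide +kernel)
         (CovZ.leaf K2_ok TT_l2657 _)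
         (CovZ.leaf K2_ok TT_l2658 _))
        (CovZ.n1 (7608, -5284) (by decide +kernel)
         (CovZ.leaf K2_ok TT_l2659 _)
         (CovZ.leaf K2_ok TT_l2660 _)))))
     (CovZ.n1 (7592, -5288) (by decide +kernel)
      (CovZ.n2 (7592, -5280) (by decide +kernel)
       (CovZ.leaf K2_ok TT_l2661 _)
       (CovZ.n1 (7588, -5284) (by decide +kernel)
        (CovZ.leaf K2_ok TT_l2662 _)
        (CovZ.leaf K2_ok TT_l2663 _)))
      (CovZ.n1 (7600, -5288) (by decide +kernel)
       (CovZ.n2 (7596, -5292) (by decide +kernel)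
        (CovZ.leaf K2_ok TT_l2664 _)
        (CovZ.leaf K2_ok TT_l2665 _))
       (CovZ.leaf K2_ok TT_l2666 _))))))

theorem TT_s7_12 : SqZ TT_M TT_L [0, 7, 4, 3] 7392 (-5696) 32 7 12 :=
  SqZ.mk (a := 7616) (b := 7648) (c := (-5312)) (d := (-5280)) (by norm_num) (by norm_num) (by norm_num) (by norm_num)
    (CovZ.topM TT_LL 0 (by decide +kernel) (CovZ.badM (by decide +kernel)))
    (CovZ.topM TT_LL 6 (by decide +kernel) (CovZ.n0 (7632, -5296) (by decide +kernel)
    TT_u16
    TT_u17))

theorem TT_s8_12 : SqZ TT_M TT_L [0, 7, 4, 3] 7392 (-5696) 32 8 12 :=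
  SqZ.mk (a := 7648) (b := 7680) (c := (-5312)) (d := (-5280)) (by norm_num) (by norm_num) (by norm_num) (by norm_num)
    (CovZ.topM TT_LL 0 (by decide +kernel) (CovZ.badM (by decide +kernel)))
    (CovZ.topM TT_LL 0 (by decide +kernel) (CovZ.badM (by decide +kernel)))

theorem TT_s0_13 : SqZ TT_M TT_L [0, 7, 4, 3] 7392 (-5696) 32 0 13 :=
  SqZ.mk (a := 7392) (b := 7424) (c := (-5280)) (d := (-5248)) (by norm_num) (by norm_num) (by norm_num) (by norm_num)
    (CovZ.topM TT_LL 0 (by decide +kernel) (CovZ.badM (by decide +kernel)))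
    (CovZ.topM TT_LL 0 (by decide +kernel) (CovZ.badM (by decide +kernel)))

theorem TT_s1_13 : SqZ TT_M TT_L [0, 7, 4, 3] 7392 (-5696) 32 1 13 :=
  SqZ.mk (a := 7424) (b := 7456) (c := (-5280)) (d := (-5248)) (by norm_num) (by norm_num) (by norm_num) (by norm_num)
    (CovZ.topM TT_LL 0 (by decide +kernel) (CovZ.badM (by decide +kernel)))
    (CovZ.topM TT_LL 0 (by decide +kernel) (CovZ.badM (by decide +kernel)))

theorem TT_s2_13 : SqZ TT_M TT_L [0, 7, 4, 3] 7392 (-5696) 32 2 13 :=
  SqZ.mk (a := 7456) (b := 7488) (c := (-5280)) (d := (-5248)) (by norm_num) (by norm_num) (by norm_num) (by norm_num)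
    (CovZ.topM TT_LL 0 (by decide +kernel) (CovZ.badM (by decide +kernel)))
    (CovZ.topM TT_LL 0 (by decide +kernel) (CovZ.badM (by decide +kernel)))

theorem TT_s3_13 : SqZ TT_M TT_L [0, 7, 4, 3] 7392 (-5696) 32 3 13 :=
  SqZ.mk (a := 7488) (b := 7520) (c := (-5280)) (d := (-5248)) (by norm_num) (by norm_num) (by norm_num) (by norm_num)
    (CovZ.topM TT_LL 0 (by decide +kernel) (CovZ.badM (by decide +kernel)))
    (CovZ.topM TT_LL 0 (by decide +kernel) (CovZ.badM (by decide +kernel)))

theorem TT_s4_13 : SqZ TT_M TT_L [0, 7, 4, 3] 7392 (-5696) 32 4 13 :=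
  SqZ.mk (a := 7520) (b := 7552) (c := (-5280)) (d := (-5248)) (by norm_num) (by norm_num) (by norm_num) (by norm_num)
    (CovZ.topM TT_LL 0 (by decide +kernel) (CovZ.badM (by decide +kernel)))
    (CovZ.topM TT_LL 0 (by decide +kernel) (CovZ.badM (by decide +kernel)))

theorem TT_s5_13 : SqZ TT_M TT_L [0, 7, 4, 3] 7392 (-5696) 32 5 13 :=
  SqZ.mk (a := 7552) (b := 7584) (c := (-5280)) (d := (-5248)) (by norm_num) (by norm_num) (by norm_num) (by norm_num)
    (CovZ.topM TT_LL 0 (by decide +kernel) (CovZ.badM (by decide +kernel)))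
    (CovZ.topM TT_LL 0 (by decide +kernel) (CovZ.badM (by decide +kernel)))

theorem TT_s6_13 : SqZ TT_M TT_L [0, 7, 4, 3] 7392 (-5696) 32 6 13 :=
  SqZ.mk (a := 7584) (b := 7616) (c := (-5280)) (d := (-5248)) (by norm_num) (by norm_num) (by norm_num) (by norm_num)
    (CovZ.topM TT_LL 7 (by decide +kernel) (CovZ.n2 (7600, -5264) (by decide +kernel)
    (CovZ.n2 (7616, -5264) (by decide +kernel)
     (CovZ.n2 (7608, -5272) (by decide +kernel)
      (CovZ.n2 (7608, -5264) (by decide +kernel)
       (CovZ.n2 (7612, -5268) (by decide +kernel)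
        (CovZ.leaf K2_ok TT_l2667 _)
        (CovZ.n1 (7612, -5264) (by decide +kernel)
         (CovZ.leaf K2_ok TT_l2668 _)
         (CovZ.leaf K2_ok TT_l2669 _)))
       (CovZ.n1 (7604, -5268) (by decide +kernel)
        (CovZ.leaf K2_ok TT_l2670 _)
        (CovZ.leaf K2_ok TT_l2671 _)))
      (CovZ.n1 (7616, -5272) (by decide +kernel)
       (CovZ.n2 (7612, -5276) (by decide +kernel)
        (CovZ.n2 (7612, -5272) (by decide +kernel)
         (CovZ.leaf K2_ok TT_l2672 _)
         (CovZ.leaf K2_ok TT_l2673 _))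
        (CovZ.n1 (7616, -5276) (by decide +kernel)
         (CovZ.n2 (7614, -5278) (by decide +kernel)
          (CovZ.leaf K2_ok TT_l2674 _)
          (CovZ.leaf K2_ok TT_l2675 _))
         (CovZ.leaf K2_ok TT_l2676 _)))
       (CovZ.n1 (7612, -5268) (by decide +kernel)
        (CovZ.n2 (7616, -5268) (by decide +kernel)
         (CovZ.leaf K2_ok TT_l2677 _)
         (CovZ.leaf K2_ok TT_l2678 _))
        (CovZ.n1 (7612, -5272) (by decide +kernel)
         (CovZ.leaf K2_ok TT_l2679 _)
         (CovZ.leaf K2_ok TT_l2680 _)))))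
     (CovZ.n1 (7608, -5256) (by decide +kernel)
      (CovZ.n2 (7616, -5256) (by decide +kernel)
       (CovZ.n2 (7612, -5260) (by decide +kernel)
        (CovZ.leaf K2_ok TT_l2681 _)
        (CovZ.leaf K2_ok TT_l2682 _))
       (CovZ.n1 (7612, -5252) (by decide +kernel)
        (CovZ.leaf K2_ok TT_l2683 _)
        (CovZ.leaf K2_ok TT_l2684 _)))
      (CovZ.n1 (7608, -5264) (by decide +kernel)
       (CovZ.leaf K2_ok TT_l2685 _)
       (CovZ.n1 (7612, -5260) (by decide +kernel)
        (CovZ.leaf K2_ok TT_l2686 _)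
        (CovZ.leaf K2_ok TT_l2687 _)))))
    (CovZ.n1 (7600, -5280) (by decide +kernel)
     (CovZ.n2 (7592, -5272) (by decide +kernel)
      (CovZ.n2 (7600, -5272) (by decide +kernel)
       (CovZ.n2 (7596, -5276) (by decide +kernel)
        (CovZ.leaf K2_ok TT_l2688 _)
        (CovZ.leaf K2_ok TT_l2689 _))
       (CovZ.leaf K2_ok TT_l2690 _))
      (CovZ.n1 (7592, -5280) (by decide +kernel)
       (CovZ.leaf K2_ok TT_l2691 _)
       (CovZ.n1 (7596, -5276) (by decide +kernel)
        (CovZ.leaf K2_ok TT_l2692 _)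
        (CovZ.leaf K2_ok TT_l2693 _))))
     (CovZ.n1 (7608, -5272) (by decide +kernel)
      (CovZ.n2 (7608, -5280) (by decide +kernel)
       (CovZ.n2 (7604, -5276) (by decide +kernel)
        (CovZ.leaf K2_ok TT_l2694 _)
        (CovZ.leaf K2_ok TT_l2695 _))
       (CovZ.n1 (7612, -5276) (by decide +kernel)
        (CovZ.n2 (7612, -5280) (by decide +kernel)
         (CovZ.leaf K2_ok TT_l2696 _)
         (CovZ.n1 (7614, -5278) (by decide +kernel)
          (CovZ.leaf K2_ok TT_l2697 _)
          (CovZ.leaf K2_ok TT_l2698 _)))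
        (CovZ.leaf K2_ok TT_l2699 _)))
      (CovZ.n1 (7600, -5272) (by decide +kernel)
       (CovZ.n2 (7604, -5268) (by decide +kernel)
        (CovZ.leaf K2_ok TT_l2700 _)
        (CovZ.leaf K2_ok TT_l2701 _))
       (CovZ.n1 (7604, -5276) (by decide +kernel)
        (CovZ.leaf K2_ok TT_l2702 _)
        (CovZ.leaf K2_ok TT_l2703 _)))))))
    (CovZ.topM TT_LL 0 (by decide +kernel) (CovZ.badM (by decide +kernel)))

theorem TT_s7_13 : SqZ TT_M TT_L [0, 7, 4, 3] 7392 (-5696) 32 7 13 :=
  SqZ.mk (a := 7616) (b := 7648) (c := (-5280)) (d := (-5248)) (by norm_num) (by norm_num) (by norm_num) (by norm_num)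
    (CovZ.topM TT_LL 6 (by decide +kernel) (CovZ.n2 (7632, -5264) (by decide +kernel)
    TT_u18
    TT_u19))
    (CovZ.topM TT_LL 6 (by decide +kernel) (CovZ.n0 (7632, -5264) (by decide +kernel)
    TT_u20
    TT_u21))

theorem TT_s8_13 : SqZ TT_M TT_L [0, 7, 4, 3] 7392 (-5696) 32 8 13 :=
  SqZ.mk (a := 7648) (b := 7680) (c := (-5280)) (d := (-5248)) (by norm_num) (by norm_num) (by norm_num) (by norm_num)
    (CovZ.topM TT_LL 0 (by decide +kernel) (CovZ.badM (by decide +kernel)))
    (CovZ.topM TT_LL 0 (by decide +kernel) (CovZ.badM (by decide +kernel)))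

theorem TT_s0_14 : SqZ TT_M TT_L [0, 7, 4, 3] 7392 (-5696) 32 0 14 :=
  SqZ.mk (a := 7392) (b := 7424) (c := (-5248)) (d := (-5216)) (by norm_num) (by norm_num) (by norm_num) (by norm_num)
    (CovZ.topM TT_LL 0 (by decide +kernel) (CovZ.badM (by decide +kernel)))
    (CovZ.topM TT_LL 0 (by decide +kernel) (CovZ.badM (by decide +kernel)))

theorem TT_s1_14 : SqZ TT_M TT_L [0, 7, 4, 3] 7392 (-5696) 32 1 14 :=
  SqZ.mk (a := 7424) (b := 7456) (c := (-5248)) (d := (-5216)) (by norm_num) (by norm_num) (by norm_num) (by norm_num)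
    (CovZ.topM TT_LL 0 (by decide +kernel) (CovZ.badM (by decide +kernel)))
    (CovZ.topM TT_LL 0 (by decide +kernel) (CovZ.badM (by decide +kernel)))

theorem TT_s2_14 : SqZ TT_M TT_L [0, 7, 4, 3] 7392 (-5696) 32 2 14 :=
  SqZ.mk (a := 7456) (b := 7488) (c := (-5248)) (d := (-5216)) (by norm_num) (by norm_num) (by norm_num) (by norm_num)
    (CovZ.topM TT_LL 0 (by decide +kernel) (CovZ.badM (by decide +kernel)))
    (CovZ.topM TT_LL 0 (by decide +kernel) (CovZ.badM (by decide +kernel)))

theorem TT_s3_14 : SqZ TT_M TT_L [0, 7, 4, 3] 7392 (-5696) 32 3 14 :=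
  SqZ.mk (a := 7488) (b := 7520) (c := (-5248)) (d := (-5216)) (by norm_num) (by norm_num) (by norm_num) (by norm_num)
    (CovZ.topM TT_LL 0 (by decide +kernel) (CovZ.badM (by decide +kernel)))
    (CovZ.topM TT_LL 0 (by decide +kernel) (CovZ.badM (by decide +kernel)))

theorem TT_s4_14 : SqZ TT_M TT_L [0, 7, 4, 3] 7392 (-5696) 32 4 14 :=
  SqZ.mk (a := 7520) (b := 7552) (c := (-5248)) (d := (-5216)) (by norm_num) (by norm_num) (by norm_num) (by norm_num)
    (CovZ.topM TT_LL 0 (by decide +kernel) (CovZ.badM (by decide +kernel)))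
    (CovZ.topM TT_LL 0 (by decide +kernel) (CovZ.badM (by decide +kernel)))

theorem TT_s5_14 : SqZ TT_M TT_L [0, 7, 4, 3] 7392 (-5696) 32 5 14 :=
  SqZ.mk (a := 7552) (b := 7584) (c := (-5248)) (d := (-5216)) (by norm_num) (by norm_num) (by norm_num) (by norm_num)
    (CovZ.topM TT_LL 0 (by decide +kernel) (CovZ.badM (by decide +kernel)))
    (CovZ.topM TT_LL 0 (by decide +kernel) (CovZ.badM (by decide +kernel)))

theorem TT_s6_14 : SqZ TT_M TT_L [0, 7, 4, 3] 7392 (-5696) 32 6 14 :=
  SqZ.mk (a := 7584) (b := 7616) (c := (-5248)) (d := (-5216)) (by norm_num) (by norm_num) (by norm_num) (by norm_num)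
    (CovZ.topM TT_LL 0 (by decide +kernel) (CovZ.badM (by decide +kernel)))
    (CovZ.topM TT_LL 0 (by decide +kernel) (CovZ.badM (by decide +kernel)))

end Pool.Agent.TET
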