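import Pool.Agent.Helper38_TET.TT_M
import Pool.Agent.Helper38_TET.TT_L
import Pool.Agent.Helper38_TET.TT_21
import Pool.Agent.Helper38_TET.TT_22
import Pool.Agent.Helper38_TET.TT_U1

/-!
# MP_c7c9bf_co: certificates, family TT
-/

set_option autoImplicit false
set_option maxRecDepth 100000

namespace Pool.Agent.TET

theorem TT_s7_14 : SqZ TT_M TT_L [0, 7, 4, 3] 7392 (-5696) 32 7 14 :=
  SqZ.mk (a := 7616) (b := 7648) (c := (-5248)) (d := (-5216)) (by norm_num) (by norm_num) (by norm_num) (by norm_num)
    (CovZ.topM TT_LL 6 (by decide +kernel) (CovZ.n2 (7632, -5232) (by decide +kernel)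
    (CovZ.n2 (7648, -5232) (by decide +kernel)
     TT_u22
     TT_u23)
    (CovZ.n1 (7632, -5248) (by decide +kernel)
     (CovZ.n2 (7624, -5240) (by decide +kernel)
      (CovZ.n2 (7632, -5240) (by decide +kernel)
       (CovZ.n2 (7628, -5244) (by decide +kernel)
        (CovZ.n2 (7628, -5240) (by decide +kernel)
         (CovZ.leaf K2_ok TT_l3214 _)
         (CovZ.leaf K2_ok TT_l3215 _))
        (CovZ.n1 (7632, -5244) (by decide +kernel)
         (CovZ.n2 (7630, -5246) (by decide +kernel)
          (CovZ.leaf K2_ok TT_l3216 _)
          (CovZ.leaf K2_ok TT_l3217 _))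
         (CovZ.leaf K2_ok TT_l3218 _)))
       (CovZ.n1 (7628, -5236) (by decide +kernel)
        (CovZ.n2 (7632, -5236) (by decide +kernel)
         (CovZ.leaf K2_ok TT_l3219 _)
         (CovZ.leaf K2_ok TT_l3220 _))
        (CovZ.n1 (7628, -5240) (by decide +kernel)
         (CovZ.leaf K2_ok TT_l3221 _)
         (CovZ.n1 (7630, -5238) (by decide +kernel)
          (CovZ.leaf K2_ok TT_l3222 _)
          (CovZ.leaf K2_ok TT_l3223 _)))))
      (CovZ.n1 (7624, -5248) (by decide +kernel)
       (CovZ.n2 (7620, -5244) (by decide +kernel)
        (CovZ.leaf K2_ok TT_l3224 _)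
        (CovZ.leaf K2_ok TT_l3225 _))
       (CovZ.n1 (7628, -5244) (by decide +kernel)
        (CovZ.n2 (7628, -5248) (by decide +kernel)
         (CovZ.leaf K2_ok TT_l3226 _)
         (CovZ.n1 (7630, -5246) (by decide +kernel)
          (CovZ.leaf K2_ok TT_l3227 _)
          (CovZ.leaf K2_ok TT_l3228 _)))
        (CovZ.n1 (7624, -5244) (by decide +kernel)
         (CovZ.leaf K2_ok TT_l3229 _)
         (CovZ.leaf K2_ok TT_l3230 _)))))
     (CovZ.n1 (7640, -5240) (by decide +kernel)
      (CovZ.n2 (7640, -5248) (by decide +kernel)
       (CovZ.n2 (7636, -5244) (by decide +kernel)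
        (CovZ.n2 (7640, -5244) (by decide +kernel)
         (CovZ.n2 (7638, -5246) (by decide +kernel)
          (CovZ.n2 (7638, -5244) (by decide +kernel)
           (CovZ.leaf K2_ok TT_l3231 _)
           (CovZ.leaf K2_ok TT_l3232 _))
          (CovZ.n1 (7640, -5246) (by decide +kernel)
           (CovZ.n2 (7639, -5247) (by decide +kernel)
            (CovZ.leaf K2_ok TT_l3233 _)
            (CovZ.leaf K2_ok TT_l3234 _))
           (CovZ.leaf K2_ok TT_l3235 _)))
         (CovZ.n1 (7638, -5242) (by decide +kernel)
          (CovZ.n2 (7640, -5242) (by decide +kernel)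
           (CovZ.leaf K2_ok TT_l3236 _)
           (CovZ.leaf K2_ok TT_l3237 _))
          (CovZ.n1 (7638, -5244) (by decide +kernel)
           (CovZ.leaf K2_ok TT_l3238 _)
           (CovZ.leaf K2_ok TT_l3239 _))))
        (CovZ.n1 (7636, -5248) (by decide +kernel)
         (CovZ.n2 (7634, -5246) (by decide +kernel)
          (CovZ.leaf K2_ok TT_l3240 _)
          (CovZ.n1 (7634, -5248) (by decide +kernel)
           (CovZ.leaf K2_ok TT_l3241 _)
           (CovZ.leaf K2_ok TT_l3242 _)))
         (CovZ.n1 (7638, -5246) (by decide +kernel)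
          (CovZ.n2 (7638, -5248) (by decide +kernel)
           (CovZ.leaf K2_ok TT_l3243 _)
           (CovZ.n1 (7639, -5247) (by decide +kernel)
            (CovZ.leaf K2_ok TT_l3244 _)
            (CovZ.leaf K2_ok TT_l3245 _)))
          (CovZ.n1 (7636, -5246) (by decide +kernel)
           (CovZ.leaf K2_ok TT_l3246 _)
           (CovZ.leaf K2_ok TT_l3247 _)))))
       (CovZ.n1 (7644, -5244) (by decide +kernel)
        (CovZ.n2 (7644, -5248) (by decide +kernel)
         (CovZ.n2 (7642, -5246) (by decide +kernel)
          (CovZ.n2 (7644, -5246) (by decide +kernel)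
           (CovZ.n2 (7643, -5247) (by decide +kernel)
            (CovZ.n2 (7643, -5246) (by decide +kernel)
             (CovZ.badM (by decide +kernel))
             (CovZ.leaf K2_ok TT_l3248 _))
            (CovZ.badM (by decide +kernel)))
           (CovZ.n1 (7643, -5245) (by decide +kernel)
            (CovZ.badM (by decide +kernel))
            (CovZ.leaf K2_ok TT_l3249 _)))
          (CovZ.n1 (7642, -5248) (by decide +kernel)
           (CovZ.n2 (7641, -5247) (by decide +kernel)
            (CovZ.leaf K2_ok TT_l3250 _)
            (CovZ.leaf K2_ok TT_l3251 _))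
           (CovZ.n1 (7643, -5247) (by decide +kernel)
            (CovZ.badM (by decide +kernel))
            (CovZ.leaf K2_ok TT_l3252 _))))
         (CovZ.badM (by decide +kernel)))
        (CovZ.n1 (7640, -5244) (by decide +kernel)
         (CovZ.n2 (7642, -5242) (by decide +kernel)
          (CovZ.n2 (7642, -5244) (by decide +kernel)
           (CovZ.n2 (7641, -5243) (by decide +kernel)
            (CovZ.leaf K2_ok TT_l3253 _)
            (CovZ.leaf K2_ok TT_l3254 _))
           (CovZ.n1 (7643, -5243) (by decide +kernel)
            (CovZ.n2 (7643, -5244) (by decide +kernel)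
             (CovZ.leaf K2_ok TT_l3255 _)
             (CovZ.leaf K2_ok TT_l3256 _))
            (CovZ.leaf K2_ok TT_l3257 _)))
          (CovZ.n1 (7640, -5242) (by decide +kernel)
           (CovZ.n2 (7641, -5241) (by decide +kernel)
            (CovZ.leaf K2_ok TT_l3258 _)
            (CovZ.leaf K2_ok TT_l3259 _))
           (CovZ.leaf K2_ok TT_l3260 _)))
         (CovZ.n1 (7642, -5246) (by decide +kernel)
          (CovZ.n2 (7640, -5246) (by decide +kernel)
           (CovZ.n2 (7641, -5245) (by decide +kernel)
            (CovZ.leaf K2_ok TT_l3261 _)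
            (CovZ.leaf K2_ok TT_l3262 _))
           (CovZ.n1 (7641, -5247) (by decide +kernel)
            (CovZ.leaf K2_ok TT_l3263 _)
            (CovZ.leaf K2_ok TT_l3264 _)))
          (CovZ.n1 (7642, -5244) (by decide +kernel)
           (CovZ.n2 (7643, -5245) (by decide +kernel)
            (CovZ.leaf K2_ok TT_l3265 _)
            (CovZ.n1 (7643, -5244) (by decide +kernel)
             (CovZ.leaf K2_ok TT_l3266 _)
             (CovZ.leaf K2_ok TT_l3267 _)))
           (CovZ.n1 (7641, -5245) (by decide +kernel)
            (CovZ.leaf K2_ok TT_l3268 _)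
            (CovZ.leaf K2_ok TT_l3269 _)))))))
      (CovZ.n1 (7632, -5240) (by decide +kernel)
       (CovZ.n2 (7636, -5236) (by decide +kernel)
        (CovZ.n2 (7636, -5240) (by decide +kernel)
         (CovZ.leaf K2_ok TT_l3270 _)
         (CovZ.n1 (7638, -5238) (by decide +kernel)
          (CovZ.n2 (7638, -5240) (by decide +kernel)
           (CovZ.leaf K2_ok TT_l3271 _)
           (CovZ.leaf K2_ok TT_l3272 _))
          (CovZ.leaf K2_ok TT_l3273 _)))
        (CovZ.n1 (7632, -5236) (by decide +kernel)
         (CovZ.n2 (7634, -5234) (by decide +kernel)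
          (CovZ.leaf K2_ok TT_l3274 _)
          (CovZ.leaf K2_ok TT_l3275 _))
         (CovZ.n1 (7634, -5238) (by decide +kernel)
          (CovZ.leaf K2_ok TT_l3276 _)
          (CovZ.leaf K2_ok TT_l3277 _))))
       (CovZ.n1 (7636, -5244) (by decide +kernel)
        (CovZ.n2 (7632, -5244) (by decide +kernel)
         (CovZ.n2 (7634, -5242) (by decide +kernel)
          (CovZ.leaf K2_ok TT_l3278 _)
          (CovZ.leaf K2_ok TT_l3279 _))
         (CovZ.n1 (7634, -5246) (by decide +kernel)
          (CovZ.leaf K2_ok TT_l3280 _)
          (CovZ.leaf K2_ok TT_l3281 _)))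
        (CovZ.n1 (7636, -5240) (by decide +kernel)
         (CovZ.n2 (7638, -5242) (by decide +kernel)
          (CovZ.leaf K2_ok TT_l3282 _)
          (CovZ.n1 (7638, -5240) (by decide +kernel)
           (CovZ.leaf K2_ok TT_l3283 _)
           (CovZ.leaf K2_ok TT_l3284 _)))
         (CovZ.n1 (7634, -5242) (by decide +kernel)
          (CovZ.leaf K2_ok TT_l3285 _)
          (CovZ.leaf K2_ok TT_l3286 _)))))))))
    (CovZ.topM TT_LL 0 (by decide +kernel) (CovZ.badM (by decide +kernel)))

theorem TT_s8_14 : SqZ TT_M TT_L [0, 7, 4, 3] 7392 (-5696) 32 8 14 :=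
  SqZ.mk (a := 7648) (b := 7680) (c := (-5248)) (d := (-5216)) (by norm_num) (by norm_num) (by norm_num) (by norm_num)
    (CovZ.topM TT_LL 0 (by decide +kernel) (CovZ.badM (by decide +kernel)))
    (CovZ.topM TT_LL 6 (by decide +kernel) (CovZ.n0 (7664, -5232) (by decide +kernel)
    (CovZ.n2 (7648, -5232) (by decide +kernel)
     (CovZ.n2 (7656, -5224) (by decide +kernel)
      (CovZ.n2 (7656, -5232) (by decide +kernel)
       (CovZ.n2 (7652, -5228) (by decide +kernel)
        (CovZ.badM (by decide +kernel))
        (CovZ.n1 (7652, -5232) (by decide +kernel)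
         (CovZ.n2 (7650, -5230) (by decide +kernel)
          (CovZ.badM (by decide +kernel))
          (CovZ.n1 (7650, -5232) (by decide +kernel)
           (CovZ.n2 (7649, -5231) (by decide +kernel)
            (CovZ.badM (by decide +kernel))
            (CovZ.n1 (7649, -5232) (by decide +kernel)
             (CovZ.leaf K2_ok TT_l3287 _)
             (CovZ.badM (by decide +kernel))))
           (CovZ.badM (by decide +kernel))))
         (CovZ.badM (by decide +kernel))))
       (CovZ.badM (by decide +kernel)))
      (CovZ.n1 (7648, -5224) (by decide +kernel)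
       (CovZ.n2 (7652, -5220) (by decide +kernel)
        (CovZ.n2 (7652, -5224) (by decide +kernel)
         (CovZ.n2 (7650, -5222) (by decide +kernel)
          (CovZ.badM (by decide +kernel))
          (CovZ.n1 (7650, -5224) (by decide +kernel)
           (CovZ.leaf K2_ok TT_l3288 _)
           (CovZ.badM (by decide +kernel))))
         (CovZ.badM (by decide +kernel)))
        (CovZ.n1 (7648, -5220) (by decide +kernel)
         (CovZ.badM (by decide +kernel))
         (CovZ.n1 (7650, -5222) (by decide +kernel)
          (CovZ.n2 (7648, -5222) (by decide +kernel)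
           (CovZ.leaf K2_ok TT_l3289 _)
           (CovZ.leaf K2_ok TT_l3290 _))
          (CovZ.badM (by decide +kernel)))))
       (CovZ.n1 (7652, -5228) (by decide +kernel)
        (CovZ.n2 (7648, -5228) (by decide +kernel)
         (CovZ.n2 (7650, -5226) (by decide +kernel)
          (CovZ.n2 (7650, -5228) (by decide +kernel)
           (CovZ.n2 (7649, -5227) (by decide +kernel)
            (CovZ.badM (by decide +kernel))
            (CovZ.n1 (7649, -5228) (by decide +kernel)
             (CovZ.leaf K2_ok TT_l3291 _)
             (CovZ.badM (by decide +kernel))))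
           (CovZ.badM (by decide +kernel)))
          (CovZ.n1 (7648, -5226) (by decide +kernel)
           (CovZ.n2 (7649, -5225) (by decide +kernel)
            (CovZ.leaf K2_ok TT_l3292 _)
            (CovZ.leaf K2_ok TT_l3293 _))
           (CovZ.leaf K2_ok TT_l3294 _)))
         (CovZ.n1 (7650, -5230) (by decide +kernel)
          (CovZ.n2 (7648, -5230) (by decide +kernel)
           (CovZ.n2 (7649, -5229) (by decide +kernel)
            (CovZ.leaf K2_ok TT_l3295 _)
            (CovZ.leaf K2_ok TT_l3296 _))
           (CovZ.n1 (7649, -5231) (by decide +kernel)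
            (CovZ.leaf K2_ok TT_l3297 _)
            (CovZ.leaf K2_ok TT_l3298 _)))
          (CovZ.n1 (7650, -5228) (by decide +kernel)
           (CovZ.badM (by decide +kernel))
           (CovZ.n1 (7649, -5229) (by decide +kernel)
            (CovZ.n2 (7649, -5228) (by decide +kernel)
             (CovZ.badM (by decide +kernel))
             (CovZ.leaf K2_ok TT_l3299 _))
            (CovZ.badM (by decide +kernel))))))
        (CovZ.n1 (7652, -5224) (by decide +kernel)
         (CovZ.badM (by decide +kernel))
         (CovZ.n1 (7650, -5226) (by decide +kernel)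
          (CovZ.n2 (7650, -5224) (by decide +kernel)
           (CovZ.badM (by decide +kernel))
           (CovZ.n1 (7649, -5225) (by decide +kernel)
            (CovZ.leaf K2_ok TT_l3300 _)
            (CovZ.badM (by decide +kernel))))
          (CovZ.badM (by decide +kernel)))))))
     (CovZ.n1 (7656, -5240) (by decide +kernel)
      (CovZ.n2 (7648, -5240) (by decide +kernel)
       (CovZ.n2 (7652, -5236) (by decide +kernel)
        (CovZ.badM (by decide +kernel))
        (CovZ.n1 (7648, -5236) (by decide +kernel)
         (CovZ.n2 (7650, -5234) (by decide +kernel)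
          (CovZ.badM (by decide +kernel))
          (CovZ.n1 (7648, -5234) (by decide +kernel)
           (CovZ.n2 (7649, -5233) (by decide +kernel)
            (CovZ.badM (by decide +kernel))
            (CovZ.n1 (7648, -5233) (by decide +kernel)
             (CovZ.leaf K2_ok TT_l3301 _)
             (CovZ.leaf K2_ok TT_l3302 _)))
           (CovZ.badM (by decide +kernel))))
         (CovZ.badM (by decide +kernel))))
       (CovZ.badM (by decide +kernel)))
      (CovZ.n1 (7656, -5232) (by decide +kernel)
       (CovZ.badM (by decide +kernel))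
       (CovZ.n1 (7652, -5236) (by decide +kernel)
        (CovZ.n2 (7652, -5232) (by decide +kernel)
         (CovZ.badM (by decide +kernel))
         (CovZ.n1 (7650, -5234) (by decide +kernel)
          (CovZ.n2 (7650, -5232) (by decide +kernel)
           (CovZ.badM (by decide +kernel))
           (CovZ.n1 (7649, -5233) (by decide +kernel)
            (CovZ.n2 (7649, -5232) (by decide +kernel)
             (CovZ.badM (by decide +kernel))
             (CovZ.leaf K2_ok TT_l3303 _))
            (CovZ.badM (by decide +kernel))))
          (CovZ.badM (by decide +kernel))))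
        (CovZ.badM (by decide +kernel))))))
    (CovZ.n1 (7664, -5216) (by decide +kernel)
     (CovZ.badM (by decide +kernel))
     (CovZ.n1 (7656, -5224) (by decide +kernel)
      (CovZ.badM (by decide +kernel))
      (CovZ.badM (by decide +kernel))))))

end Pool.Agent.TET
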