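import Pool.Agent.Helper38_TET.TT_C

/-!
# MP_c7c9bf_co: certificates, family TT
-/

set_option autoImplicit false
set_option maxRecDepth 100000

namespace Pool.Agent.TET

theorem TT_rg0 : ROK [.q ⟨-47, 44, -21, 24⟩ ⟨-28796, 15600, 18860, -5664⟩, .q ⟨-47, 44, -21, 24⟩ ⟨-19315, 348, 5215, 13752⟩, .q ⟨-47, 44, -21, 24⟩ ⟨-6431, -15396, -10453, 32280⟩, .q ⟨-47, 44, -21, 24⟩ ⟨20351, -2508, -7451, -10392⟩] := by
  refine rok_w (v := ⟨-47, 44, -21, 24⟩) (q := 16) (by decide) (by decide) (by decide) TT_sc (k := 1) (by decide) (Q := [(1624, 869, -236), (-1554, 1078, 573), (-4661, 1112, 1345), (1034, -1034, -433)])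
    (P := [⟨-7249920, 1624, 869⟩, ⟨17602560, -1554, 1078⟩, ⟨41318400, -4661, 1112⟩, ⟨-13301760, 1034, -1034⟩]) rfl rfl
    (List.mem_of_getElem? (i := 0) rfl) TT_fr TT_cov ?_
  · intro X Y h
    simp only [List.forall_mem_cons, List.not_mem_nil, false_imp_iff, implies_true, and_true] at h
    push_cast at h ⊢
    obtain ⟨h0, h1, h2, h3⟩ := h
    refine ⟨⟨?_, ?_⟩, ?_, ?_⟩ <;> linarith

theorem TT_rg1 : ROK [.q ⟨-47, 44, -21, 24⟩ ⟨-24202, 760, 6786, 16656⟩, .q ⟨-47, 44, -21, 24⟩ ⟨-25181, -7836, 305, 32712⟩, .q ⟨-47, 44, -21, 24⟩ ⟨26908, -4112, -10412, -12384⟩, .q ⟨-47, 44, -21, 24⟩ ⟨-23409, 27012, 25221, -28824⟩] := by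
  refine rok_w (v := ⟨-47, 44, -21, 24⟩) (q := 16) (by decide) (by decide) (by decide) TT_sc (k := 1) (by decide) (Q := [(-1861, 1335, 694), (-4238, 1808, 1363), (1162, -1328, -516), (4991, 0, -1201)])
    (P := [⟨21319680, -1861, 1335⟩, ⟨41871360, -4238, 1808⟩, ⟨-15851520, 1162, -1328⟩, ⟨-36894720, 4991, 0⟩]) rfl rfl
    (List.mem_of_getElem? (i := 1) rfl) TT_fr TT_cov ?_
  · intro X Y h
    simp only [List.forall_mem_cons, List.not_mem_nil, false_imp_iff, implies_true, and_true] at h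
    push_cast at h ⊢
    obtain ⟨h0, h1, h2, h3⟩ := h
    refine ⟨⟨?_, ?_⟩, ?_, ?_⟩ <;> linarith

theorem TT_rg2 : ROK [.q ⟨-47, 44, -21, 24⟩ ⟨-17235, 2076, 6015, 9144⟩, .q ⟨-47, 44, -21, 24⟩ ⟨22523, -22652, -24327, 24456⟩, .q ⟨-47, 44, -21, 24⟩ ⟨20351, -2508, -7451, -10392⟩, .q ⟨-47, 44, -21, 24⟩ ⟨-27438, 29592, 28134, -30288⟩, .q ⟨-47, 44, -21, 24⟩ ⟨-27234, -6296, 2090, 31440⟩] := by
  refine rok_w (v := ⟨-47, 44, -21, 24⟩) (q := 16) (by decide) (by decide) (by decide) TT_sc (k := 1) (by decide) (Q := [(-918, 876, 381), (-4218, -183, 1019), (1034, -1034, -433), (5320, 102, -1262), (-3996, 1850, 1310)])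
    (P := [⟨11704320, -918, 876⟩, ⟨31303680, -4218, -183⟩, ⟨-13301760, 1034, -1034⟩, ⟨-38768640, 5320, 102⟩, ⟨40243200, -3996, 1850⟩]) rfl rfl
    (List.mem_of_getElem? (i := 2) rfl) TT_fr TT_cov ?_
  · intro X Y h
    simp only [List.forall_mem_cons, List.not_mem_nil, false_imp_iff, implies_true, and_true] at h
    push_cast at h ⊢
    obtain ⟨h0, h1, h2, h3, h4⟩ := h
    refine ⟨⟨?_, ?_⟩, ?_, ?_⟩ <;> linarith

end Pool.Agent.TET
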