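import Pool.Agent.Helper38_TET.TU_M

/-!
# MP_c7c9bf_co: certificates, family TU
-/

set_option autoImplicit false
set_option maxRecDepth 100000

namespace Pool.Agent.TET

theorem TU_l1080 : chkZ K2 [0, 7, 4, 3] (uc [0,4,7,3] [[6,7,5,7],[0,4,6,4],[0,0,6,7],[0,0,0,4]] 269964181901639793868367221557153279349674754097766412004349932269813965859646161346547449632557915957577723843937475570462170483039531302993394315896552622499864622828814139406711081407647176648894864737093917891881687780088115533277078025861712241266248462673511957684974364284148754242809686128336858929071741837148639566191958285858789530918471794363400185927030041615277791788698775297737833659651345927871292934899389733222370477605969466230095157786251490641449556448304837287524918444814541174891786310333925774610290336302510587334461928967660533490762512544167883579286956583858994803528226724231011526124727732658951313518740176441516850857748820658095147026794784964880760026147946257891338536705073707903394493285801870107631015855297421582595224195042128876293750617814017026084765271932808570372760328047748110625120826769521292252337639647040510856081786263024867457421706467418842101828345009597555588221114861725945391074203106766730402303391863350407313981765861445530246478172547479712144190933004961003297374792038348482004192042298586521675428437243133087781424916863198395915167281784830931541682149712928821727104733187356789493157172238538994936460569264493268540948997749124207798985074590464804930604754260347340103352199334454510183683653413413954982045556520577131765841894310579154578440154667391764832727351295)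 TU_M (-36, -822) (-36, -824) (-34, -822) = true := by decide +kernel

theorem TU_l1081 : chkZ K2 [0, 7, 4, 3] (uc [0,4,7,3] [[4,9,5,6],[0,4,6,4],[0,0,4,9],[0,0,0,4]] 10567208992318057584209500669298750191646860495278526745201860989075030578979083055717256023153537953357005068686660421662511833993147592076092257750911524840107301172129097415707208058260955930500102390881824415323961134446733694088687367922712628283265964556491175719121334375298047315595031007185135656595245623032057954959242493411219817149353204320616109561914640748646748413976019675301931227000792880143766781668430476222931741118833971459190993405815766715357205737712084841039418766543890603734681368318234949020567824286442862735425467085964462011336932585524711145191793321084927761322071610546794387509993069326202816059799262974013287289073497183028484325800166103229457100324832901990054173750427710656029881803092990966997831973479339076542072919280268795997373184393872828649037112104854700524794305974728220382642519314160524343715242561198602951163819150629183191487037115595156345765502728012212425592681285123633582177397573893713788056462307689084580938762053067538191907245033395977216696666632898783028371485266382044596692424157374461160136439357700893081538860331703252701195289266460827977849774431096633549271695112202689743398379323163432951141522427262729551267172064910030882569177537100109064197041611602559004834360171718579205682458103680656785169772626035635177705544796276757599590576665137392) TU_M (-54, -808) (-52, -808) (-54, -806) = true := by decide +kernel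

end Pool.Agent.TET
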