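import Pool.Agent.Helper38_TET.TU_M
import Pool.Agent.Helper38_TET.TU_L
import Pool.Agent.Helper38_TET.TU_0
import Pool.Agent.Helper38_TET.TU_1
import Pool.Agent.Helper38_TET.TU_4
import Pool.Agent.Helper38_TET.TU_5
import Pool.Agent.Helper38_TET.TU_7

/-!
# MP_c7c9bf_co: certificates, family TU
-/

set_option autoImplicit false
set_option maxRecDepth 100000

namespace Pool.Agent.TET

theorem TU_u0 : CovZ TU_M (toL (selN TU_LN 604333764557220214350047)) [0, 7, 4, 3] (-64, -832) (-80, -848) (-64, -864) :=
    (CovZ.n2 (-64, -848) (by decide +kernel)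
     (CovZ.n2 (-72, -856) (by decide +kernel)
      (CovZ.n2 (-72, -848) (by decide +kernel)
       (CovZ.subM 499701738591034120740995 (by decide +kernel)
        (CovZ.n2 (-68, -852) (by decide +kernel)
         (CovZ.n2 (-72, -852) (by decide +kernel)
          (CovZ.n2 (-70, -850) (by decide +kernel)
           (CovZ.leaf K2_ok TU_l111 _)
           (CovZ.leaf K2_ok TU_l112 _))
          (CovZ.n1 (-70, -854) (by decide +kernel)
           (CovZ.leaf K2_ok TU_l113 _)
           (CovZ.leaf K2_ok TU_l114 _)))
         (CovZ.n1 (-68, -848) (by decide +kernel)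
          (CovZ.n2 (-66, -850) (by decide +kernel)
           (CovZ.leaf K2_ok TU_l115 _)
           (CovZ.leaf K2_ok TU_l116 _))
          (CovZ.n1 (-70, -850) (by decide +kernel)
           (CovZ.leaf K2_ok TU_l117 _)
           (CovZ.leaf K2_ok TU_l118 _)))))
       (CovZ.subM 499107122702732876718219 (by decide +kernel)
        (CovZ.n1 (-76, -852) (by decide +kernel)
         (CovZ.n2 (-76, -848) (by decide +kernel)
          (CovZ.n2 (-74, -850) (by decide +kernel)
           (CovZ.leaf K2_ok TU_l119 _)
           (CovZ.leaf K2_ok TU_l120 _))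
          (CovZ.n1 (-78, -850) (by decide +kernel)
           (CovZ.leaf K2_ok TU_l121 _)
           (CovZ.leaf K2_ok TU_l122 _)))
         (CovZ.n1 (-72, -852) (by decide +kernel)
          (CovZ.n2 (-74, -854) (by decide +kernel)
           (CovZ.leaf K2_ok TU_l123 _)
           (CovZ.n1 (-72, -854) (by decide +kernel)
            (CovZ.leaf K2_ok TU_l124 _)
            (CovZ.leaf K2_ok TU_l125 _)))
          (CovZ.n1 (-74, -850) (by decide +kernel)
           (CovZ.n2 (-72, -850) (by decide +kernel)
            (CovZ.leaf K2_ok TU_l126 _)
            (CovZ.leaf K2_ok TU_l127 _))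
           (CovZ.leaf K2_ok TU_l128 _))))))
      (CovZ.subM 499701738588560219570307 (by decide +kernel)
       (CovZ.n1 (-64, -856) (by decide +kernel)
        (CovZ.n2 (-68, -860) (by decide +kernel)
         (CovZ.n2 (-68, -856) (by decide +kernel)
          (CovZ.n2 (-66, -858) (by decide +kernel)
           (CovZ.leaf K2_ok TU_l129 _)
           (CovZ.leaf K2_ok TU_l130 _))
          (CovZ.n1 (-70, -858) (by decide +kernel)
           (CovZ.leaf K2_ok TU_l131 _)
           (CovZ.n1 (-68, -858) (by decide +kernel)
            (CovZ.leaf K2_ok TU_l132 _)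
            (CovZ.leaf K2_ok TU_l133 _))))
         (CovZ.subM 153774413981065263841283 (by decide +kernel)
          (CovZ.n1 (-64, -860) (by decide +kernel)
           (CovZ.n2 (-66, -862) (by decide +kernel)
            (CovZ.n2 (-66, -860) (by decide +kernel)
             (CovZ.leaf K2_ok TU_l134 _)
             (CovZ.leaf K2_ok TU_l135 _))
            (CovZ.n1 (-64, -862) (by decide +kernel)
             (CovZ.badM (by decide +kernel))
             (CovZ.leaf K2_ok TU_l136 _)))
           (CovZ.n1 (-66, -858) (by decide +kernel)
            (CovZ.n2 (-64, -858) (by decide +kernel)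
             (CovZ.leaf K2_ok TU_l137 _)
             (CovZ.leaf K2_ok TU_l138 _))
            (CovZ.leaf K2_ok TU_l139 _)))))
        (CovZ.n1 (-68, -852) (by decide +kernel)
         (CovZ.n2 (-64, -852) (by decide +kernel)
          (CovZ.n2 (-66, -854) (by decide +kernel)
           (CovZ.leaf K2_ok TU_l140 _)
           (CovZ.n1 (-64, -854) (by decide +kernel)
            (CovZ.leaf K2_ok TU_l141 _)
            (CovZ.leaf K2_ok TU_l142 _)))
          (CovZ.n1 (-66, -850) (by decide +kernel)
           (CovZ.leaf K2_ok TU_l143 _)
           (CovZ.leaf K2_ok TU_l144 _)))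
         (CovZ.n1 (-68, -856) (by decide +kernel)
          (CovZ.n2 (-70, -854) (by decide +kernel)
           (CovZ.n2 (-68, -854) (by decide +kernel)
            (CovZ.leaf K2_ok TU_l145 _)
            (CovZ.leaf K2_ok TU_l146 _))
           (CovZ.leaf K2_ok TU_l147 _))
          (CovZ.n1 (-66, -854) (by decide +kernel)
           (CovZ.leaf K2_ok TU_l148 _)
           (CovZ.leaf K2_ok TU_l149 _)))))))
     (CovZ.n1 (-72, -840) (by decide +kernel)
      (CovZ.n2 (-64, -840) (by decide +kernel)
       (CovZ.n2 (-68, -844) (by decide +kernel)
        (CovZ.n2 (-68, -840) (by decide +kernel)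
         (CovZ.n2 (-66, -842) (by decide +kernel)
          (CovZ.leaf K2_ok TU_l150 _)
          (CovZ.leaf K2_ok TU_l151 _))
         (CovZ.n1 (-70, -842) (by decide +kernel)
          (CovZ.leaf K2_ok TU_l152 _)
          (CovZ.leaf K2_ok TU_l153 _)))
        (CovZ.subM 574079875462126278680579 (by decide +kernel)
         (CovZ.n1 (-64, -844) (by decide +kernel)
          (CovZ.n2 (-66, -846) (by decide +kernel)
           (CovZ.leaf K2_ok TU_l154 _)
           (CovZ.leaf K2_ok TU_l155 _))
          (CovZ.n1 (-66, -842) (by decide +kernel)
           (CovZ.leaf K2_ok TU_l156 _)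
           (CovZ.leaf K2_ok TU_l157 _)))))
       (CovZ.n1 (-68, -836) (by decide +kernel)
        (CovZ.n2 (-64, -836) (by decide +kernel)
         (CovZ.leaf K2_ok TU_l158 _)
         (CovZ.leaf K2_ok TU_l159 _))
        (CovZ.n1 (-68, -840) (by decide +kernel)
         (CovZ.n2 (-70, -838) (by decide +kernel)
          (CovZ.leaf K2_ok TU_l160 _)
          (CovZ.leaf K2_ok TU_l161 _))
         (CovZ.leaf K2_ok TU_l162 _))))
      (CovZ.n1 (-72, -848) (by decide +kernel)
       (CovZ.n2 (-76, -844) (by decide +kernel)
        (CovZ.n2 (-72, -844) (by decide +kernel)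
         (CovZ.n2 (-74, -846) (by decide +kernel)
          (CovZ.leaf K2_ok TU_l163 _)
          (CovZ.leaf K2_ok TU_l164 _))
         (CovZ.n1 (-74, -842) (by decide +kernel)
          (CovZ.leaf K2_ok TU_l165 _)
          (CovZ.leaf K2_ok TU_l166 _)))
        (CovZ.n1 (-76, -848) (by decide +kernel)
         (CovZ.n2 (-78, -846) (by decide +kernel)
          (CovZ.leaf K2_ok TU_l167 _)
          (CovZ.leaf K2_ok TU_l168 _))
         (CovZ.leaf K2_ok TU_l169 _)))
       (CovZ.n1 (-68, -844) (by decide +kernel)
        (CovZ.n2 (-68, -848) (by decide +kernel)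
         (CovZ.n2 (-70, -846) (by decide +kernel)
          (CovZ.leaf K2_ok TU_l170 _)
          (CovZ.leaf K2_ok TU_l171 _))
         (CovZ.leaf K2_ok TU_l172 _))
        (CovZ.n1 (-72, -844) (by decide +kernel)
         (CovZ.leaf K2_ok TU_l173 _)
         (CovZ.n1 (-70, -846) (by decide +kernel)
          (CovZ.leaf K2_ok TU_l174 _)
          (CovZ.leaf K2_ok TU_l175 _)))))))

theorem TU_u1 : CovZ TU_M (toL (selN TU_LN 604333764557220214350047)) [0, 7, 4, 3] (-80, -848) (-96, -864) (-64, -864) :=
    (CovZ.subM 173255764934198867140763 (by decide +kernel)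
     (CovZ.n1 (-80, -864) (by decide +kernel)
      (CovZ.n2 (-88, -856) (by decide +kernel)
       (CovZ.n2 (-80, -856) (by decide +kernel)
        (CovZ.subM 173252012871638289743891 (by decide +kernel)
         (CovZ.n2 (-84, -860) (by decide +kernel)
          (CovZ.n2 (-84, -856) (by decide +kernel)
           (CovZ.n2 (-82, -858) (by decide +kernel)
            (CovZ.leaf K2_ok TU_l176 _)
            (CovZ.leaf K2_ok TU_l177 _))
           (CovZ.n1 (-86, -858) (by decide +kernel)
            (CovZ.leaf K2_ok TU_l178 _)
            (CovZ.n1 (-84, -858) (by decide +kernel)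
             (CovZ.leaf K2_ok TU_l702 _)
             (CovZ.leaf K2_ok TU_l179 _))))
          (CovZ.n1 (-80, -860) (by decide +kernel)
           (CovZ.n2 (-82, -862) (by decide +kernel)
            (CovZ.leaf K2_ok TU_l180 _)
            (CovZ.n1 (-80, -862) (by decide +kernel)
             (CovZ.leaf K2_ok TU_l1056 _)
             (CovZ.leaf K2_ok TU_l181 _)))
           (CovZ.n1 (-82, -858) (by decide +kernel)
            (CovZ.n2 (-80, -858) (by decide +kernel)
             (CovZ.leaf K2_ok TU_l182 _)
             (CovZ.leaf K2_ok TU_l183 _))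
            (CovZ.leaf K2_ok TU_l184 _)))))
        (CovZ.n1 (-84, -852) (by decide +kernel)
         (CovZ.n2 (-80, -852) (by decide +kernel)
          (CovZ.n2 (-82, -854) (by decide +kernel)
           (CovZ.leaf K2_ok TU_l185 _)
           (CovZ.n1 (-80, -854) (by decide +kernel)
            (CovZ.leaf K2_ok TU_l186 _)
            (CovZ.leaf K2_ok TU_l187 _)))
          (CovZ.n1 (-82, -850) (by decide +kernel)
           (CovZ.leaf K2_ok TU_l188 _)
           (CovZ.leaf K2_ok TU_l189 _)))
         (CovZ.n1 (-84, -856) (by decide +kernel)
          (CovZ.n2 (-86, -854) (by decide +kernel)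
           (CovZ.leaf K2_ok TU_l190 _)
           (CovZ.leaf K2_ok TU_l191 _))
          (CovZ.leaf K2_ok TU_l192 _))))
       (CovZ.subM 154362393815302704988163 (by decide +kernel)
        (CovZ.n1 (-88, -864) (by decide +kernel)
         (CovZ.subM 151115763480630103375874 (by decide +kernel)
          (CovZ.n2 (-92, -860) (by decide +kernel)
           (CovZ.n2 (-88, -860) (by decide +kernel)
            (CovZ.subM 36028797153181698 (by decide +kernel)
             (CovZ.n2 (-90, -862) (by decide +kernel)
              (CovZ.n2 (-90, -860) (by decide +kernel)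
               (CovZ.leaf K2_ok TU_l703 _)
               (CovZ.leaf K2_ok TU_l704 _))
              (CovZ.n1 (-88, -862) (by decide +kernel)
               (CovZ.badM (by decide +kernel))
               (CovZ.leaf K2_ok TU_l705 _))))
            (CovZ.n1 (-90, -858) (by decide +kernel)
             (CovZ.n2 (-88, -858) (by decide +kernel)
              (CovZ.leaf K2_ok TU_l706 _)
              (CovZ.leaf K2_ok TU_l707 _))
             (CovZ.n1 (-90, -860) (by decide +kernel)
              (CovZ.leaf K2_ok TU_l708 _)
              (CovZ.leaf K2_ok TU_l709 _))))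
           (CovZ.subM 134217730 (by decide +kernel)
            (CovZ.n1 (-92, -864) (by decide +kernel)
             (CovZ.n2 (-94, -862) (by decide +kernel)
              (CovZ.n2 (-92, -862) (by decide +kernel)
               (CovZ.badM (by decide +kernel))
               (CovZ.n1 (-93, -861) (by decide +kernel)
                (CovZ.leaf K2_ok TU_l710 _)
                (CovZ.badM (by decide +kernel))))
              (CovZ.badM (by decide +kernel)))
             (CovZ.n1 (-90, -862) (by decide +kernel)
              (CovZ.badM (by decide +kernel))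
              (CovZ.n1 (-92, -862) (by decide +kernel)
               (CovZ.leaf K2_ok TU_l711 _)
               (CovZ.badM (by decide +kernel))))))))
         (CovZ.n1 (-84, -860) (by decide +kernel)
          (CovZ.n2 (-84, -864) (by decide +kernel)
           (CovZ.n2 (-86, -862) (by decide +kernel)
            (CovZ.n2 (-84, -862) (by decide +kernel)
             (CovZ.badM (by decide +kernel))
             (CovZ.leaf K2_ok TU_l712 _))
            (CovZ.badM (by decide +kernel)))
           (CovZ.n1 (-82, -862) (by decide +kernel)
            (CovZ.n2 (-82, -864) (by decide +kernel)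
             (CovZ.badM (by decide +kernel))
             (CovZ.leaf K2_ok TU_l1057 _))
            (CovZ.leaf K2_ok TU_l713 _)))
          (CovZ.subM 154067242532419336667138 (by decide +kernel)
           (CovZ.n1 (-88, -860) (by decide +kernel)
            (CovZ.n2 (-86, -858) (by decide +kernel)
             (CovZ.n2 (-86, -860) (by decide +kernel)
              (CovZ.leaf K2_ok TU_l714 _)
              (CovZ.leaf K2_ok TU_l715 _))
             (CovZ.leaf K2_ok TU_l716 _))
            (CovZ.n1 (-86, -862) (by decide +kernel)
             (CovZ.n2 (-88, -862) (by decide +kernel)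
              (CovZ.leaf K2_ok TU_l717 _)
              (CovZ.badM (by decide +kernel)))
             (CovZ.n1 (-86, -860) (by decide +kernel)
              (CovZ.leaf K2_ok TU_l718 _)
              (CovZ.leaf K2_ok TU_l719 _)))))))))
      (CovZ.n1 (-72, -856) (by decide +kernel)
       (CovZ.subM 153772252816176962347139 (by decide +kernel)
        (CovZ.n2 (-72, -864) (by decide +kernel)
         (CovZ.n2 (-76, -860) (by decide +kernel)
          (CovZ.n2 (-72, -860) (by decide +kernel)
           (CovZ.n2 (-74, -862) (by decide +kernel)
            (CovZ.leaf K2_ok TU_l193 _)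
            (CovZ.n1 (-72, -862) (by decide +kernel)
             (CovZ.badM (by decide +kernel))
             (CovZ.leaf K2_ok TU_l194 _)))
           (CovZ.n1 (-74, -858) (by decide +kernel)
            (CovZ.n2 (-72, -858) (by decide +kernel)
             (CovZ.leaf K2_ok TU_l195 _)
             (CovZ.leaf K2_ok TU_l196 _))
            (CovZ.leaf K2_ok TU_l197 _)))
          (CovZ.subM 153772103634439297302531 (by decide +kernel)
           (CovZ.n1 (-76, -864) (by decide +kernel)
            (CovZ.n2 (-78, -862) (by decide +kernel)
             (CovZ.n2 (-76, -862) (by decide +kernel)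
              (CovZ.badM (by decide +kernel))
              (CovZ.leaf K2_ok TU_l198 _))
             (CovZ.badM (by decide +kernel)))
            (CovZ.n1 (-74, -862) (by decide +kernel)
             (CovZ.badM (by decide +kernel))
             (CovZ.leaf K2_ok TU_l199 _)))))
         (CovZ.n1 (-68, -860) (by decide +kernel)
          (CovZ.n2 (-68, -864) (by decide +kernel)
           (CovZ.n2 (-70, -862) (by decide +kernel)
            (CovZ.n2 (-68, -862) (by decide +kernel)
             (CovZ.badM (by decide +kernel))
             (CovZ.leaf K2_ok TU_l200 _))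
            (CovZ.badM (by decide +kernel)))
           (CovZ.n1 (-66, -862) (by decide +kernel)
            (CovZ.badM (by decide +kernel))
            (CovZ.leaf K2_ok TU_l201 _)))
          (CovZ.n1 (-72, -860) (by decide +kernel)
           (CovZ.n2 (-70, -858) (by decide +kernel)
            (CovZ.leaf K2_ok TU_l202 _)
            (CovZ.leaf K2_ok TU_l203 _))
           (CovZ.n1 (-70, -862) (by decide +kernel)
            (CovZ.leaf K2_ok TU_l204 _)
            (CovZ.leaf K2_ok TU_l205 _))))))
       (CovZ.n1 (-80, -856) (by decide +kernel)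
        (CovZ.n2 (-76, -852) (by decide +kernel)
         (CovZ.n2 (-76, -856) (by decide +kernel)
          (CovZ.n2 (-78, -854) (by decide +kernel)
           (CovZ.n2 (-76, -854) (by decide +kernel)
            (CovZ.leaf K2_ok TU_l206 _)
            (CovZ.leaf K2_ok TU_l207 _))
           (CovZ.leaf K2_ok TU_l208 _))
          (CovZ.leaf K2_ok TU_l209 _))
         (CovZ.n1 (-80, -852) (by decide +kernel)
          (CovZ.leaf K2_ok TU_l210 _)
          (CovZ.n1 (-78, -854) (by decide +kernel)
           (CovZ.leaf K2_ok TU_l211 _)
           (CovZ.leaf K2_ok TU_l212 _))))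
        (CovZ.subM 153772255071550188822659 (by decide +kernel)
         (CovZ.n1 (-76, -860) (by decide +kernel)
          (CovZ.n2 (-80, -860) (by decide +kernel)
           (CovZ.leaf K2_ok TU_l213 _)
           (CovZ.n1 (-78, -862) (by decide +kernel)
            (CovZ.leaf K2_ok TU_l214 _)
            (CovZ.leaf K2_ok TU_l215 _)))
          (CovZ.n1 (-76, -856) (by decide +kernel)
           (CovZ.n2 (-74, -858) (by decide +kernel)
            (CovZ.leaf K2_ok TU_l216 _)
            (CovZ.leaf K2_ok TU_l217 _))
           (CovZ.n1 (-78, -858) (by decide +kernel)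
            (CovZ.leaf K2_ok TU_l218 _)
            (CovZ.n1 (-76, -858) (by decide +kernel)
             (CovZ.leaf K2_ok TU_l219 _)
             (CovZ.leaf K2_ok TU_l220 _))))))))))

theorem TU_u2 : CovZ TU_M (toL (selN TU_LN 604167761901035714510845)) [0, 7, 4, 3] (-96, -800) (-112, -816) (-96, -832) :=
    (CovZ.n2 (-96, -816) (by decide +kernel)
     (CovZ.n2 (-104, -824) (by decide +kernel)
      (CovZ.n2 (-104, -816) (by decide +kernel)
       (CovZ.n2 (-100, -820) (by decide +kernel)
        (CovZ.n2 (-104, -820) (by decide +kernel)
         (CovZ.leaf K2_ok TU_l33 _)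
         (CovZ.n1 (-102, -822) (by decide +kernel)
          (CovZ.leaf K2_ok TU_l34 _)
          (CovZ.leaf K2_ok TU_l35 _)))
        (CovZ.n1 (-100, -816) (by decide +kernel)
         (CovZ.leaf K2_ok TU_l36 _)
         (CovZ.leaf K2_ok TU_l37 _)))
       (CovZ.n1 (-108, -820) (by decide +kernel)
        (CovZ.n2 (-108, -816) (by decide +kernel)
         (CovZ.n2 (-106, -818) (by decide +kernel)
          (CovZ.n2 (-108, -818) (by decide +kernel)
           (CovZ.leaf K2_ok TU_l593 _)
           (CovZ.leaf K2_ok TU_l594 _))
          (CovZ.leaf K2_ok TU_l38 _))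
         (CovZ.n1 (-110, -818) (by decide +kernel)
          (CovZ.n2 (-110, -816) (by decide +kernel)
           (CovZ.n2 (-109, -817) (by decide +kernel)
            (CovZ.leaf K2_ok TU_l595 _)
            (CovZ.leaf K2_ok TU_l596 _))
           (CovZ.n1 (-111, -817) (by decide +kernel)
            (CovZ.leaf K2_ok TU_l951 _)
            (CovZ.leaf K2_ok TU_l952 _)))
          (CovZ.n1 (-108, -818) (by decide +kernel)
           (CovZ.leaf K2_ok TU_l597 _)
           (CovZ.leaf K2_ok TU_l598 _))))
        (CovZ.n1 (-104, -820) (by decide +kernel)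
         (CovZ.n2 (-106, -822) (by decide +kernel)
          (CovZ.leaf K2_ok TU_l599 _)
          (CovZ.leaf K2_ok TU_l600 _))
         (CovZ.n1 (-106, -818) (by decide +kernel)
          (CovZ.leaf K2_ok TU_l39 _)
          (CovZ.leaf K2_ok TU_l601 _)))))
      (CovZ.n1 (-96, -824) (by decide +kernel)
       (CovZ.n2 (-100, -828) (by decide +kernel)
        (CovZ.n2 (-100, -824) (by decide +kernel)
         (CovZ.leaf K2_ok TU_l40 _)
         (CovZ.n1 (-102, -826) (by decide +kernel)
          (CovZ.leaf K2_ok TU_l41 _)
          (CovZ.leaf K2_ok TU_l42 _)))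
        (CovZ.n1 (-96, -828) (by decide +kernel)
         (CovZ.leaf K2_ok TU_l43 _)
         (CovZ.leaf K2_ok TU_l44 _)))
       (CovZ.n1 (-100, -820) (by decide +kernel)
        (CovZ.n2 (-96, -820) (by decide +kernel)
         (CovZ.leaf K2_ok TU_l45 _)
         (CovZ.leaf K2_ok TU_l46 _))
        (CovZ.n1 (-100, -824) (by decide +kernel)
         (CovZ.leaf K2_ok TU_l47 _)
         (CovZ.leaf K2_ok TU_l48 _)))))
     (CovZ.n1 (-104, -808) (by decide +kernel)
      (CovZ.n2 (-96, -808) (by decide +kernel)
       (CovZ.n2 (-100, -812) (by decide +kernel)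
        (CovZ.n2 (-100, -808) (by decide +kernel)
         (CovZ.leaf K2_ok TU_l49 _)
         (CovZ.leaf K2_ok TU_l50 _))
        (CovZ.n1 (-96, -812) (by decide +kernel)
         (CovZ.leaf K2_ok TU_l51 _)
         (CovZ.leaf K2_ok TU_l52 _)))
       (CovZ.n1 (-100, -804) (by decide +kernel)
        (CovZ.n2 (-96, -804) (by decide +kernel)
         (CovZ.leaf K2_ok TU_l53 _)
         (CovZ.leaf K2_ok TU_l54 _))
        (CovZ.n1 (-100, -808) (by decide +kernel)
         (CovZ.leaf K2_ok TU_l55 _)
         (CovZ.leaf K2_ok TU_l56 _))))
      (CovZ.n1 (-104, -816) (by decide +kernel)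
       (CovZ.n2 (-108, -812) (by decide +kernel)
        (CovZ.n2 (-104, -812) (by decide +kernel)
         (CovZ.n2 (-106, -814) (by decide +kernel)
          (CovZ.leaf K2_ok TU_l57 _)
          (CovZ.leaf K2_ok TU_l58 _))
         (CovZ.n1 (-106, -810) (by decide +kernel)
          (CovZ.leaf K2_ok TU_l59 _)
          (CovZ.leaf K2_ok TU_l60 _)))
        (CovZ.n1 (-108, -816) (by decide +kernel)
         (CovZ.n2 (-110, -814) (by decide +kernel)
          (CovZ.n2 (-108, -814) (by decide +kernel)
           (CovZ.leaf K2_ok TU_l602 _)
           (CovZ.leaf K2_ok TU_l603 _))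
          (CovZ.n1 (-110, -816) (by decide +kernel)
           (CovZ.n2 (-111, -815) (by decide +kernel)
            (CovZ.leaf K2_ok TU_l953 _)
            (CovZ.leaf K2_ok TU_l954 _))
           (CovZ.leaf K2_ok TU_l604 _)))
         (CovZ.n1 (-106, -814) (by decide +kernel)
          (CovZ.leaf K2_ok TU_l61 _)
          (CovZ.n1 (-108, -814) (by decide +kernel)
           (CovZ.leaf K2_ok TU_l605 _)
           (CovZ.leaf K2_ok TU_l606 _)))))
       (CovZ.n1 (-100, -812) (by decide +kernel)
        (CovZ.n2 (-100, -816) (by decide +kernel)
         (CovZ.leaf K2_ok TU_l62 _)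
         (CovZ.leaf K2_ok TU_l63 _))
        (CovZ.n1 (-104, -812) (by decide +kernel)
         (CovZ.leaf K2_ok TU_l64 _)
         (CovZ.n1 (-102, -814) (by decide +kernel)
          (CovZ.leaf K2_ok TU_l65 _)
          (CovZ.leaf K2_ok TU_l66 _)))))))

theorem TU_u3 : CovZ TU_M (toL (selN TU_LN 604167761901035714510845)) [0, 7, 4, 3] (-112, -816) (-128, -832) (-96, -832) :=
    (CovZ.n1 (-112, -832) (by decide +kernel)
     (CovZ.n2 (-120, -824) (by decide +kernel)
      (CovZ.n2 (-112, -824) (by decide +kernel)
       (CovZ.badM (by decide +kernel))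
       (CovZ.badM (by decide +kernel)))
      (CovZ.badM (by decide +kernel)))
     (CovZ.n1 (-104, -824) (by decide +kernel)
      (CovZ.n2 (-104, -832) (by decide +kernel)
       (CovZ.n2 (-108, -828) (by decide +kernel)
        (CovZ.n2 (-104, -828) (by decide +kernel)
         (CovZ.n2 (-106, -830) (by decide +kernel)
          (CovZ.n2 (-106, -828) (by decide +kernel)
           (CovZ.leaf K2_ok TU_l607 _)
           (CovZ.leaf K2_ok TU_l608 _))
          (CovZ.n1 (-104, -830) (by decide +kernel)
           (CovZ.leaf K2_ok TU_l609 _)
           (CovZ.leaf K2_ok TU_l610 _)))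
         (CovZ.n1 (-106, -826) (by decide +kernel)
          (CovZ.leaf K2_ok TU_l611 _)
          (CovZ.leaf K2_ok TU_l612 _)))
        (CovZ.n1 (-108, -832) (by decide +kernel)
         (CovZ.subM 407566826788163011138296 (by decide +kernel)
          (CovZ.n2 (-110, -830) (by decide +kernel)
           (CovZ.n2 (-108, -830) (by decide +kernel)
            (CovZ.n2 (-109, -831) (by decide +kernel)
             (CovZ.leaf K2_ok TU_l613 _)
             (CovZ.leaf K2_ok TU_l614 _))
            (CovZ.leaf K2_ok TU_l615 _))
           (CovZ.n1 (-110, -832) (by decide +kernel)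
            (CovZ.n2 (-111, -831) (by decide +kernel)
             (CovZ.leaf K2_ok TU_l955 _)
             (CovZ.leaf K2_ok TU_l956 _))
            (CovZ.leaf K2_ok TU_l616 _))))
         (CovZ.n1 (-106, -830) (by decide +kernel)
          (CovZ.n2 (-106, -832) (by decide +kernel)
           (CovZ.leaf K2_ok TU_l617 _)
           (CovZ.leaf K2_ok TU_l618 _))
          (CovZ.n1 (-108, -830) (by decide +kernel)
           (CovZ.leaf K2_ok TU_l619 _)
           (CovZ.leaf K2_ok TU_l620 _)))))
       (CovZ.n1 (-100, -828) (by decide +kernel)
        (CovZ.n2 (-100, -832) (by decide +kernel)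
         (CovZ.n2 (-102, -830) (by decide +kernel)
          (CovZ.leaf K2_ok TU_l67 _)
          (CovZ.leaf K2_ok TU_l68 _))
         (CovZ.leaf K2_ok TU_l69 _))
        (CovZ.n1 (-104, -828) (by decide +kernel)
         (CovZ.leaf K2_ok TU_l70 _)
         (CovZ.n1 (-102, -830) (by decide +kernel)
          (CovZ.leaf K2_ok TU_l71 _)
          (CovZ.leaf K2_ok TU_l72 _)))))
      (CovZ.n1 (-112, -824) (by decide +kernel)
       (CovZ.n2 (-108, -820) (by decide +kernel)
        (CovZ.n2 (-108, -824) (by decide +kernel)
         (CovZ.n2 (-110, -822) (by decide +kernel)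
          (CovZ.n2 (-108, -822) (by decide +kernel)
           (CovZ.n2 (-109, -823) (by decide +kernel)
            (CovZ.leaf K2_ok TU_l621 _)
            (CovZ.leaf K2_ok TU_l622 _))
           (CovZ.leaf K2_ok TU_l623 _))
          (CovZ.n1 (-110, -824) (by decide +kernel)
           (CovZ.n2 (-111, -823) (by decide +kernel)
            (CovZ.leaf K2_ok TU_l957 _)
            (CovZ.leaf K2_ok TU_l958 _))
           (CovZ.leaf K2_ok TU_l624 _)))
         (CovZ.n1 (-106, -822) (by decide +kernel)
          (CovZ.leaf K2_ok TU_l625 _)
          (CovZ.n1 (-108, -822) (by decide +kernel)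
           (CovZ.leaf K2_ok TU_l626 _)
           (CovZ.leaf K2_ok TU_l627 _))))
        (CovZ.n1 (-112, -820) (by decide +kernel)
         (CovZ.n2 (-110, -818) (by decide +kernel)
          (CovZ.n2 (-110, -820) (by decide +kernel)
           (CovZ.n2 (-111, -819) (by decide +kernel)
            (CovZ.leaf K2_ok TU_l959 _)
            (CovZ.leaf K2_ok TU_l960 _))
           (CovZ.leaf K2_ok TU_l628 _))
          (CovZ.subM 445938314231072263884928 (by decide +kernel)
           (CovZ.n1 (-112, -818) (by decide +kernel)
            (CovZ.n2 (-111, -817) (by decide +kernel)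
             (CovZ.leaf K2_ok TU_l961 _)
             (CovZ.leaf K2_ok TU_l962 _))
            (CovZ.n1 (-111, -819) (by decide +kernel)
             (CovZ.leaf K2_ok TU_l963 _)
             (CovZ.leaf K2_ok TU_l964 _)))))
         (CovZ.n1 (-110, -822) (by decide +kernel)
          (CovZ.subM 332006608805367117037760 (by decide +kernel)
           (CovZ.n2 (-112, -822) (by decide +kernel)
            (CovZ.n2 (-111, -821) (by decide +kernel)
             (CovZ.leaf K2_ok TU_l965 _)
             (CovZ.badM (by decide +kernel)))
            (CovZ.n1 (-111, -823) (by decide +kernel)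
             (CovZ.badM (by decide +kernel))
             (CovZ.leaf K2_ok TU_l966 _))))
          (CovZ.n1 (-110, -820) (by decide +kernel)
           (CovZ.n2 (-109, -821) (by decide +kernel)
            (CovZ.leaf K2_ok TU_l629 _)
            (CovZ.leaf K2_ok TU_l630 _))
           (CovZ.n1 (-111, -821) (by decide +kernel)
            (CovZ.leaf K2_ok TU_l967 _)
            (CovZ.leaf K2_ok TU_l968 _))))))
       (CovZ.n1 (-108, -828) (by decide +kernel)
        (CovZ.subM 407566790759365992182520 (by decide +kernel)
         (CovZ.n2 (-112, -828) (by decide +kernel)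
          (CovZ.n2 (-110, -826) (by decide +kernel)
           (CovZ.n2 (-110, -828) (by decide +kernel)
            (CovZ.n2 (-111, -827) (by decide +kernel)
             (CovZ.leaf K2_ok TU_l969 _)
             (CovZ.leaf K2_ok TU_l970 _))
            (CovZ.leaf K2_ok TU_l631 _))
           (CovZ.subM 331932532332063025578112 (by decide +kernel)
            (CovZ.n1 (-112, -826) (by decide +kernel)
             (CovZ.n2 (-111, -825) (by decide +kernel)
              (CovZ.leaf K2_ok TU_l971 _)
              (CovZ.badM (by decide +kernel)))
             (CovZ.n1 (-111, -827) (by decide +kernel)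
              (CovZ.badM (by decide +kernel))
              (CovZ.leaf K2_ok TU_l972 _)))))
          (CovZ.n1 (-110, -830) (by decide +kernel)
           (CovZ.subM 330715056228180709916800 (by decide +kernel)
            (CovZ.n2 (-112, -830) (by decide +kernel)
             (CovZ.n2 (-111, -829) (by decide +kernel)
              (CovZ.leaf K2_ok TU_l973 _)
              (CovZ.badM (by decide +kernel)))
             (CovZ.n1 (-111, -831) (by decide +kernel)
              (CovZ.badM (by decide +kernel))
              (CovZ.leaf K2_ok TU_l974 _))))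
           (CovZ.n1 (-110, -828) (by decide +kernel)
            (CovZ.n2 (-109, -829) (by decide +kernel)
             (CovZ.leaf K2_ok TU_l632 _)
             (CovZ.leaf K2_ok TU_l633 _))
            (CovZ.n1 (-111, -829) (by decide +kernel)
             (CovZ.leaf K2_ok TU_l975 _)
             (CovZ.leaf K2_ok TU_l976 _))))))
        (CovZ.n1 (-108, -824) (by decide +kernel)
         (CovZ.n2 (-106, -826) (by decide +kernel)
          (CovZ.n2 (-108, -826) (by decide +kernel)
           (CovZ.leaf K2_ok TU_l634 _)
           (CovZ.leaf K2_ok TU_l635 _))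
          (CovZ.n1 (-106, -824) (by decide +kernel)
           (CovZ.leaf K2_ok TU_l636 _)
           (CovZ.leaf K2_ok TU_l637 _)))
         (CovZ.n1 (-110, -826) (by decide +kernel)
          (CovZ.n2 (-110, -824) (by decide +kernel)
           (CovZ.n2 (-109, -825) (by decide +kernel)
            (CovZ.leaf K2_ok TU_l638 _)
            (CovZ.leaf K2_ok TU_l639 _))
           (CovZ.n1 (-111, -825) (by decide +kernel)
            (CovZ.n2 (-111, -824) (by decide +kernel)
             (CovZ.leaf K2_ok TU_l977 _)
             (CovZ.badM (by decide +kernel)))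
            (CovZ.leaf K2_ok TU_l978 _)))
          (CovZ.n1 (-108, -826) (by decide +kernel)
           (CovZ.leaf K2_ok TU_l640 _)
           (CovZ.n1 (-109, -825) (by decide +kernel)
            (CovZ.leaf K2_ok TU_l641 _)
            (CovZ.leaf K2_ok TU_l642 _)))))))))

theorem TU_u4 : CovZ TU_M (toL (selN TU_LN 443604671239173477203964)) [0, 7, 4, 3] (-96, -768) (-112, -784) (-96, -800) :=
    (CovZ.n2 (-96, -784) (by decide +kernel)
     (CovZ.n2 (-104, -792) (by decide +kernel)
      (CovZ.subM 139379577123016047604380 (by decide +kernel)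
       (CovZ.n2 (-104, -784) (by decide +kernel)
        (CovZ.n2 (-100, -788) (by decide +kernel)
         (CovZ.n2 (-104, -788) (by decide +kernel)
          (CovZ.leaf K2_ok TU_l658 _)
          (CovZ.leaf K2_ok TU_l89 _))
         (CovZ.n1 (-100, -784) (by decide +kernel)
          (CovZ.leaf K2_ok TU_l659 _)
          (CovZ.leaf K2_ok TU_l660 _)))
        (CovZ.n1 (-108, -788) (by decide +kernel)
         (CovZ.subM 134606477589679945286172 (by decide +kernel)
          (CovZ.n2 (-108, -784) (by decide +kernel)
           (CovZ.n2 (-106, -786) (by decide +kernel)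
            (CovZ.leaf K2_ok TU_l661 _)
            (CovZ.leaf K2_ok TU_l662 _))
           (CovZ.subM 56687430041645650804764 (by decide +kernel)
            (CovZ.n1 (-110, -786) (by decide +kernel)
             (CovZ.n2 (-110, -784) (by decide +kernel)
              (CovZ.leaf K2_ok TU_l663 _)
              (CovZ.n1 (-111, -785) (by decide +kernel)
               (CovZ.badM (by decide +kernel))
               (CovZ.leaf K2_ok TU_l1007 _)))
             (CovZ.n1 (-108, -786) (by decide +kernel)
              (CovZ.leaf K2_ok TU_l664 _)
              (CovZ.leaf K2_ok TU_l665 _))))))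
         (CovZ.n1 (-104, -788) (by decide +kernel)
          (CovZ.n2 (-106, -790) (by decide +kernel)
           (CovZ.leaf K2_ok TU_l666 _)
           (CovZ.leaf K2_ok TU_l90 _))
          (CovZ.n1 (-106, -786) (by decide +kernel)
           (CovZ.leaf K2_ok TU_l667 _)
           (CovZ.leaf K2_ok TU_l668 _))))))
      (CovZ.n1 (-96, -792) (by decide +kernel)
       (CovZ.n2 (-100, -796) (by decide +kernel)
        (CovZ.n2 (-100, -792) (by decide +kernel)
         (CovZ.leaf K2_ok TU_l91 _)
         (CovZ.leaf K2_ok TU_l92 _))
        (CovZ.n1 (-96, -796) (by decide +kernel)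
         (CovZ.leaf K2_ok TU_l93 _)
         (CovZ.leaf K2_ok TU_l94 _)))
       (CovZ.n1 (-100, -788) (by decide +kernel)
        (CovZ.n2 (-96, -788) (by decide +kernel)
         (CovZ.leaf K2_ok TU_l95 _)
         (CovZ.leaf K2_ok TU_l669 _))
        (CovZ.n1 (-100, -792) (by decide +kernel)
         (CovZ.leaf K2_ok TU_l96 _)
         (CovZ.leaf K2_ok TU_l97 _)))))
     (CovZ.subM 134643371079554494898204 (by decide +kernel)
      (CovZ.n1 (-104, -776) (by decide +kernel)
       (CovZ.n2 (-96, -776) (by decide +kernel)
        (CovZ.n2 (-100, -780) (by decide +kernel)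
         (CovZ.subM 75557872787135693586440 (by decide +kernel)
          (CovZ.n2 (-100, -776) (by decide +kernel)
           (CovZ.n2 (-98, -778) (by decide +kernel)
            (CovZ.leaf K2_ok TU_l670 _)
            (CovZ.leaf K2_ok TU_l671 _))
           (CovZ.n1 (-102, -778) (by decide +kernel)
            (CovZ.leaf K2_ok TU_l672 _)
            (CovZ.leaf K2_ok TU_l673 _))))
         (CovZ.n1 (-96, -780) (by decide +kernel)
          (CovZ.leaf K2_ok TU_l674 _)
          (CovZ.n1 (-98, -778) (by decide +kernel)
           (CovZ.leaf K2_ok TU_l675 _)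
           (CovZ.leaf K2_ok TU_l676 _))))
        (CovZ.subM 75557863744752066756616 (by decide +kernel)
         (CovZ.n1 (-100, -772) (by decide +kernel)
          (CovZ.subM 17592186044424 (by decide +kernel)
           (CovZ.n2 (-96, -772) (by decide +kernel)
            (CovZ.n2 (-98, -774) (by decide +kernel)
             (CovZ.badM (by decide +kernel))
             (CovZ.n1 (-96, -774) (by decide +kernel)
              (CovZ.leaf K2_ok TU_l1008 _)
              (CovZ.n1 (-97, -773) (by decide +kernel)
               (CovZ.badM (by decide +kernel))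
               (CovZ.leaf K2_ok TU_l1009 _))))
            (CovZ.badM (by decide +kernel))))
          (CovZ.n1 (-100, -776) (by decide +kernel)
           (CovZ.n2 (-102, -774) (by decide +kernel)
            (CovZ.n2 (-100, -774) (by decide +kernel)
             (CovZ.leaf K2_ok TU_l1010 _)
             (CovZ.badM (by decide +kernel)))
            (CovZ.leaf K2_ok TU_l1011 _))
           (CovZ.n1 (-98, -774) (by decide +kernel)
            (CovZ.leaf K2_ok TU_l1012 _)
            (CovZ.n1 (-100, -774) (by decide +kernel)
             (CovZ.badM (by decide +kernel))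
             (CovZ.leaf K2_ok TU_l1013 _)))))))
       (CovZ.n1 (-104, -784) (by decide +kernel)
        (CovZ.subM 96826969265969406410780 (by decide +kernel)
         (CovZ.n2 (-108, -780) (by decide +kernel)
          (CovZ.n2 (-104, -780) (by decide +kernel)
           (CovZ.n2 (-106, -782) (by decide +kernel)
            (CovZ.leaf K2_ok TU_l677 _)
            (CovZ.leaf K2_ok TU_l678 _))
           (CovZ.n1 (-106, -778) (by decide +kernel)
            (CovZ.leaf K2_ok TU_l679 _)
            (CovZ.leaf K2_ok TU_l680 _)))
          (CovZ.n1 (-108, -784) (by decide +kernel)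
           (CovZ.subM 21250658215297298726936 (by decide +kernel)
            (CovZ.n2 (-110, -782) (by decide +kernel)
             (CovZ.n2 (-108, -782) (by decide +kernel)
              (CovZ.leaf K2_ok TU_l681 _)
              (CovZ.leaf K2_ok TU_l1014 _))
             (CovZ.n1 (-110, -784) (by decide +kernel)
              (CovZ.badM (by decide +kernel))
              (CovZ.leaf K2_ok TU_l682 _))))
           (CovZ.leaf K2_ok TU_l683 _))))
        (CovZ.n1 (-100, -780) (by decide +kernel)
         (CovZ.n2 (-100, -784) (by decide +kernel)
          (CovZ.leaf K2_ok TU_l684 _)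
          (CovZ.leaf K2_ok TU_l685 _))
         (CovZ.n1 (-104, -780) (by decide +kernel)
          (CovZ.leaf K2_ok TU_l686 _)
          (CovZ.leaf K2_ok TU_l687 _)))))))

theorem TU_u5 : CovZ TU_M (toL (selN TU_LN 443604671239173477203964)) [0, 7, 4, 3] (-112, -784) (-128, -800) (-96, -800) :=
    (CovZ.n1 (-112, -800) (by decide +kernel)
     (CovZ.subM 4740817774645855392768 (by decide +kernel)
      (CovZ.n2 (-120, -792) (by decide +kernel)
       (CovZ.n2 (-112, -792) (by decide +kernel)
        (CovZ.n2 (-116, -796) (by decide +kernel)
         (CovZ.subM 18446779309622296576 (by decide +kernel)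
          (CovZ.n2 (-116, -792) (by decide +kernel)
           (CovZ.n2 (-114, -794) (by decide +kernel)
            (CovZ.badM (by decide +kernel))
            (CovZ.n1 (-114, -792) (by decide +kernel)
             (CovZ.n2 (-113, -793) (by decide +kernel)
              (CovZ.badM (by decide +kernel))
              (CovZ.leaf K2_ok TU_l1015 _))
             (CovZ.badM (by decide +kernel))))
           (CovZ.badM (by decide +kernel))))
         (CovZ.n1 (-112, -796) (by decide +kernel)
          (CovZ.subM 4740817730542982135808 (by decide +kernel)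
           (CovZ.n2 (-114, -798) (by decide +kernel)
            (CovZ.n2 (-114, -796) (by decide +kernel)
             (CovZ.n2 (-113, -797) (by decide +kernel)
              (CovZ.badM (by decide +kernel))
              (CovZ.leaf K2_ok TU_l1016 _))
             (CovZ.badM (by decide +kernel)))
            (CovZ.n1 (-112, -798) (by decide +kernel)
             (CovZ.n2 (-113, -799) (by decide +kernel)
              (CovZ.leaf K2_ok TU_l1017 _)
              (CovZ.leaf K2_ok TU_l1018 _))
             (CovZ.n1 (-113, -797) (by decide +kernel)
              (CovZ.leaf K2_ok TU_l1019 _)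
              (CovZ.leaf K2_ok TU_l1020 _)))))
          (CovZ.subM 18451282909249667072 (by decide +kernel)
           (CovZ.n1 (-114, -794) (by decide +kernel)
            (CovZ.n2 (-112, -794) (by decide +kernel)
             (CovZ.n2 (-113, -795) (by decide +kernel)
              (CovZ.leaf K2_ok TU_l1021 _)
              (CovZ.leaf K2_ok TU_l1022 _))
             (CovZ.n1 (-113, -793) (by decide +kernel)
              (CovZ.leaf K2_ok TU_l1023 _)
              (CovZ.leaf K2_ok TU_l1024 _)))
            (CovZ.n1 (-114, -796) (by decide +kernel)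
             (CovZ.badM (by decide +kernel))
             (CovZ.n1 (-113, -795) (by decide +kernel)
              (CovZ.leaf K2_ok TU_l1025 _)
              (CovZ.badM (by decide +kernel))))))))
        (CovZ.subM 18446788140074532864 (by decide +kernel)
         (CovZ.n1 (-116, -788) (by decide +kernel)
          (CovZ.n2 (-112, -788) (by decide +kernel)
           (CovZ.subM 18446779326801117184 (by decide +kernel)
            (CovZ.n2 (-114, -790) (by decide +kernel)
             (CovZ.badM (by decide +kernel))
             (CovZ.n1 (-112, -790) (by decide +kernel)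
              (CovZ.n2 (-113, -791) (by decide +kernel)
               (CovZ.leaf K2_ok TU_l1026 _)
               (CovZ.leaf K2_ok TU_l1027 _))
              (CovZ.n1 (-113, -789) (by decide +kernel)
               (CovZ.leaf K2_ok TU_l1028 _)
               (CovZ.leaf K2_ok TU_l1029 _)))))
           (CovZ.badM (by decide +kernel)))
          (CovZ.subM 18446779275261509632 (by decide +kernel)
           (CovZ.n1 (-116, -792) (by decide +kernel)
            (CovZ.badM (by decide +kernel))
            (CovZ.n1 (-114, -790) (by decide +kernel)
             (CovZ.n2 (-114, -792) (by decide +kernel)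
              (CovZ.badM (by decide +kernel))
              (CovZ.leaf K2_ok TU_l1030 _))
             (CovZ.badM (by decide +kernel))))))))
       (CovZ.badM (by decide +kernel))))
     (CovZ.n1 (-104, -792) (by decide +kernel)
      (CovZ.n2 (-104, -800) (by decide +kernel)
       (CovZ.n2 (-108, -796) (by decide +kernel)
        (CovZ.n2 (-104, -796) (by decide +kernel)
         (CovZ.n2 (-106, -798) (by decide +kernel)
          (CovZ.leaf K2_ok TU_l98 _)
          (CovZ.leaf K2_ok TU_l99 _))
         (CovZ.n1 (-106, -794) (by decide +kernel)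
          (CovZ.leaf K2_ok TU_l100 _)
          (CovZ.leaf K2_ok TU_l101 _)))
        (CovZ.n1 (-108, -800) (by decide +kernel)
         (CovZ.n2 (-110, -798) (by decide +kernel)
          (CovZ.n2 (-108, -798) (by decide +kernel)
           (CovZ.leaf K2_ok TU_l688 _)
           (CovZ.leaf K2_ok TU_l689 _))
          (CovZ.n1 (-110, -800) (by decide +kernel)
           (CovZ.n2 (-111, -799) (by decide +kernel)
            (CovZ.leaf K2_ok TU_l1031 _)
            (CovZ.leaf K2_ok TU_l1032 _))
           (CovZ.leaf K2_ok TU_l690 _)))
         (CovZ.leaf K2_ok TU_l102 _)))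
       (CovZ.n1 (-100, -796) (by decide +kernel)
        (CovZ.n2 (-100, -800) (by decide +kernel)
         (CovZ.leaf K2_ok TU_l103 _)
         (CovZ.leaf K2_ok TU_l104 _))
        (CovZ.n1 (-104, -796) (by decide +kernel)
         (CovZ.leaf K2_ok TU_l105 _)
         (CovZ.n1 (-102, -798) (by decide +kernel)
          (CovZ.leaf K2_ok TU_l106 _)
          (CovZ.leaf K2_ok TU_l107 _)))))
      (CovZ.n1 (-112, -792) (by decide +kernel)
       (CovZ.subM 139932980571127224742556 (by decide +kernel)
        (CovZ.n2 (-108, -788) (by decide +kernel)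
         (CovZ.n2 (-108, -792) (by decide +kernel)
          (CovZ.subM 57291562036033099665564 (by decide +kernel)
           (CovZ.n2 (-110, -790) (by decide +kernel)
            (CovZ.n2 (-108, -790) (by decide +kernel)
             (CovZ.leaf K2_ok TU_l691 _)
             (CovZ.leaf K2_ok TU_l692 _))
            (CovZ.n1 (-110, -792) (by decide +kernel)
             (CovZ.leaf K2_ok TU_l1033 _)
             (CovZ.leaf K2_ok TU_l693 _))))
          (CovZ.leaf K2_ok TU_l108 _))
         (CovZ.subM 57291562036028804694172 (by decide +kernel)
          (CovZ.n1 (-112, -788) (by decide +kernel)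
           (CovZ.subM 56687430041645650804892 (by decide +kernel)
            (CovZ.n2 (-110, -786) (by decide +kernel)
             (CovZ.n2 (-110, -788) (by decide +kernel)
              (CovZ.leaf K2_ok TU_l1034 _)
              (CovZ.leaf K2_ok TU_l694 _))
             (CovZ.n1 (-112, -786) (by decide +kernel)
              (CovZ.leaf K2_ok TU_l1035 _)
              (CovZ.n1 (-111, -787) (by decide +kernel)
               (CovZ.leaf K2_ok TU_l1036 _)
               (CovZ.leaf K2_ok TU_l1037 _)))))
           (CovZ.n1 (-110, -790) (by decide +kernel)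
            (CovZ.n2 (-112, -790) (by decide +kernel)
             (CovZ.leaf K2_ok TU_l1038 _)
             (CovZ.n1 (-111, -791) (by decide +kernel)
              (CovZ.leaf K2_ok TU_l1039 _)
              (CovZ.leaf K2_ok TU_l1040 _)))
            (CovZ.n1 (-110, -788) (by decide +kernel)
             (CovZ.leaf K2_ok TU_l695 _)
             (CovZ.leaf K2_ok TU_l1041 _)))))))
       (CovZ.n1 (-108, -796) (by decide +kernel)
        (CovZ.n2 (-112, -796) (by decide +kernel)
         (CovZ.n2 (-110, -794) (by decide +kernel)
          (CovZ.n2 (-110, -796) (by decide +kernel)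
           (CovZ.leaf K2_ok TU_l1042 _)
           (CovZ.leaf K2_ok TU_l696 _))
          (CovZ.n1 (-112, -794) (by decide +kernel)
           (CovZ.leaf K2_ok TU_l1043 _)
           (CovZ.n1 (-111, -795) (by decide +kernel)
            (CovZ.leaf K2_ok TU_l1044 _)
            (CovZ.leaf K2_ok TU_l1045 _))))
         (CovZ.n1 (-110, -798) (by decide +kernel)
          (CovZ.n2 (-112, -798) (by decide +kernel)
           (CovZ.leaf K2_ok TU_l1046 _)
           (CovZ.n1 (-111, -799) (by decide +kernel)
            (CovZ.leaf K2_ok TU_l1047 _)
            (CovZ.leaf K2_ok TU_l1048 _)))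
          (CovZ.n1 (-110, -796) (by decide +kernel)
           (CovZ.leaf K2_ok TU_l697 _)
           (CovZ.leaf K2_ok TU_l1049 _))))
        (CovZ.n1 (-108, -792) (by decide +kernel)
         (CovZ.n2 (-106, -794) (by decide +kernel)
          (CovZ.leaf K2_ok TU_l109 _)
          (CovZ.leaf K2_ok TU_l110 _))
         (CovZ.subM 364392980263187202781336 (by decide +kernel)
          (CovZ.n1 (-110, -794) (by decide +kernel)
           (CovZ.n2 (-110, -792) (by decide +kernel)
            (CovZ.leaf K2_ok TU_l698 _)
            (CovZ.leaf K2_ok TU_l1050 _))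
           (CovZ.n1 (-108, -794) (by decide +kernel)
            (CovZ.leaf K2_ok TU_l699 _)
            (CovZ.leaf K2_ok TU_l700 _)))))))))

end Pool.Agent.TET
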