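import Pool.Agent.Helper38_TET.TU_M
import Pool.Agent.Helper38_TET.TU_L
import Pool.Agent.Helper38_TET.TU_0
import Pool.Agent.Helper38_TET.TU_1
import Pool.Agent.Helper38_TET.TU_2
import Pool.Agent.Helper38_TET.TU_3
import Pool.Agent.Helper38_TET.TU_4
import Pool.Agent.Helper38_TET.TU_5
import Pool.Agent.Helper38_TET.TU_6
import Pool.Agent.Helper38_TET.TU_7
import Pool.Agent.Helper38_TET.TU_8
import Pool.Agent.Helper38_TET.TU_U0

/-!
# MP_c7c9bf_co: certificates, family TU
-/

set_option autoImplicit false
set_option maxRecDepth 100000

namespace Pool.Agent.TET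

theorem TU_s0_0 : SqZ TU_M TU_L [0, 7, 4, 3] (-128) (-864) 32 0 0 :=
  SqZ.mk (a := (-128)) (b := (-96)) (c := (-864)) (d := (-832)) (by norm_num) (by norm_num) (by norm_num) (by norm_num)
    (CovZ.topM TU_LL 563903131053452247606781 (by decide +kernel) (CovZ.n2 (-112, -848) (by decide +kernel)
    (CovZ.n2 (-96, -848) (by decide +kernel)
     (CovZ.subM 180143989524004868 (by decide +kernel)
      (CovZ.n2 (-104, -856) (by decide +kernel)
       (CovZ.n2 (-104, -848) (by decide +kernel)
        (CovZ.n2 (-100, -852) (by decide +kernel)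
         (CovZ.badM (by decide +kernel))
         (CovZ.n1 (-100, -848) (by decide +kernel)
          (CovZ.n2 (-98, -850) (by decide +kernel)
           (CovZ.n2 (-100, -850) (by decide +kernel)
            (CovZ.n2 (-99, -849) (by decide +kernel)
             (CovZ.leaf K2_ok TU_l930 _)
             (CovZ.badM (by decide +kernel)))
            (CovZ.n1 (-99, -851) (by decide +kernel)
             (CovZ.badM (by decide +kernel))
             (CovZ.leaf K2_ok TU_l931 _)))
           (CovZ.n1 (-98, -848) (by decide +kernel)
            (CovZ.n2 (-97, -849) (by decide +kernel)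
             (CovZ.leaf K2_ok TU_l547 _)
             (CovZ.leaf K2_ok TU_l548 _))
            (CovZ.n1 (-99, -849) (by decide +kernel)
             (CovZ.leaf K2_ok TU_l549 _)
             (CovZ.leaf K2_ok TU_l550 _))))
          (CovZ.badM (by decide +kernel))))
        (CovZ.badM (by decide +kernel)))
       (CovZ.n1 (-96, -856) (by decide +kernel)
        (CovZ.badM (by decide +kernel))
        (CovZ.n1 (-100, -852) (by decide +kernel)
         (CovZ.n2 (-96, -852) (by decide +kernel)
          (CovZ.n2 (-98, -854) (by decide +kernel)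
           (CovZ.n2 (-98, -852) (by decide +kernel)
            (CovZ.n2 (-97, -853) (by decide +kernel)
             (CovZ.badM (by decide +kernel))
             (CovZ.leaf K2_ok TU_l551 _))
            (CovZ.badM (by decide +kernel)))
           (CovZ.n1 (-96, -854) (by decide +kernel)
            (CovZ.badM (by decide +kernel))
            (CovZ.n1 (-97, -853) (by decide +kernel)
             (CovZ.leaf K2_ok TU_l552 _)
             (CovZ.badM (by decide +kernel)))))
          (CovZ.n1 (-98, -850) (by decide +kernel)
           (CovZ.n2 (-96, -850) (by decide +kernel)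
            (CovZ.n2 (-97, -851) (by decide +kernel)
             (CovZ.leaf K2_ok TU_l553 _)
             (CovZ.leaf K2_ok TU_l554 _))
            (CovZ.leaf K2_ok TU_l555 _))
           (CovZ.n1 (-98, -852) (by decide +kernel)
            (CovZ.n2 (-99, -851) (by decide +kernel)
             (CovZ.leaf K2_ok TU_l932 _)
             (CovZ.badM (by decide +kernel)))
            (CovZ.leaf K2_ok TU_l556 _))))
         (CovZ.badM (by decide +kernel))))))
     (CovZ.n1 (-104, -840) (by decide +kernel)
      (CovZ.n2 (-96, -840) (by decide +kernel)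
       (CovZ.subM 33649075838043497203101 (by decide +kernel)
        (CovZ.n2 (-100, -844) (by decide +kernel)
         (CovZ.n2 (-100, -840) (by decide +kernel)
          (CovZ.n2 (-98, -842) (by decide +kernel)
           (CovZ.leaf K2_ok TU_l0 _)
           (CovZ.leaf K2_ok TU_l1 _))
          (CovZ.subM 18890524279596612845712 (by decide +kernel)
           (CovZ.n1 (-102, -842) (by decide +kernel)
            (CovZ.n2 (-102, -840) (by decide +kernel)
             (CovZ.leaf K2_ok TU_l2 _)
             (CovZ.n1 (-103, -841) (by decide +kernel)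
              (CovZ.leaf K2_ok TU_l3 _)
              (CovZ.leaf K2_ok TU_l4 _)))
            (CovZ.n1 (-100, -842) (by decide +kernel)
             (CovZ.leaf K2_ok TU_l5 _)
             (CovZ.leaf K2_ok TU_l6 _)))))
         (CovZ.n1 (-96, -844) (by decide +kernel)
          (CovZ.n2 (-98, -846) (by decide +kernel)
           (CovZ.leaf K2_ok TU_l7 _)
           (CovZ.n1 (-96, -846) (by decide +kernel)
            (CovZ.leaf K2_ok TU_l557 _)
            (CovZ.leaf K2_ok TU_l8 _)))
          (CovZ.n1 (-98, -842) (by decide +kernel)
           (CovZ.leaf K2_ok TU_l9 _)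
           (CovZ.leaf K2_ok TU_l10 _)))))
       (CovZ.n1 (-100, -836) (by decide +kernel)
        (CovZ.n2 (-96, -836) (by decide +kernel)
         (CovZ.n2 (-98, -838) (by decide +kernel)
          (CovZ.leaf K2_ok TU_l11 _)
          (CovZ.leaf K2_ok TU_l12 _))
         (CovZ.n1 (-98, -834) (by decide +kernel)
          (CovZ.leaf K2_ok TU_l13 _)
          (CovZ.leaf K2_ok TU_l14 _)))
        (CovZ.n1 (-100, -840) (by decide +kernel)
         (CovZ.n2 (-102, -838) (by decide +kernel)
          (CovZ.n2 (-100, -838) (by decide +kernel)
           (CovZ.leaf K2_ok TU_l15 _)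
           (CovZ.leaf K2_ok TU_l16 _))
          (CovZ.n1 (-102, -840) (by decide +kernel)
           (CovZ.leaf K2_ok TU_l17 _)
           (CovZ.leaf K2_ok TU_l18 _)))
         (CovZ.leaf K2_ok TU_l19 _))))
      (CovZ.subM 756604743974912260 (by decide +kernel)
       (CovZ.n1 (-104, -848) (by decide +kernel)
        (CovZ.subM 576460758745874432 (by decide +kernel)
         (CovZ.n2 (-108, -844) (by decide +kernel)
          (CovZ.n2 (-104, -844) (by decide +kernel)
           (CovZ.badM (by decide +kernel))
           (CovZ.n1 (-106, -842) (by decide +kernel)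
            (CovZ.n2 (-104, -842) (by decide +kernel)
             (CovZ.badM (by decide +kernel))
             (CovZ.n1 (-105, -841) (by decide +kernel)
              (CovZ.leaf K2_ok TU_l558 _)
              (CovZ.badM (by decide +kernel))))
            (CovZ.badM (by decide +kernel))))
          (CovZ.badM (by decide +kernel))))
        (CovZ.n1 (-100, -844) (by decide +kernel)
         (CovZ.n2 (-100, -848) (by decide +kernel)
          (CovZ.subM 612489553751572480 (by decide +kernel)
           (CovZ.n2 (-102, -846) (by decide +kernel)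
            (CovZ.n2 (-100, -846) (by decide +kernel)
             (CovZ.badM (by decide +kernel))
             (CovZ.n1 (-101, -845) (by decide +kernel)
              (CovZ.leaf K2_ok TU_l559 _)
              (CovZ.badM (by decide +kernel))))
            (CovZ.badM (by decide +kernel))))
          (CovZ.n1 (-98, -846) (by decide +kernel)
           (CovZ.n2 (-98, -848) (by decide +kernel)
            (CovZ.n2 (-99, -847) (by decide +kernel)
             (CovZ.leaf K2_ok TU_l560 _)
             (CovZ.leaf K2_ok TU_l561 _))
            (CovZ.leaf K2_ok TU_l562 _))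
           (CovZ.n1 (-100, -846) (by decide +kernel)
            (CovZ.leaf K2_ok TU_l20 _)
            (CovZ.n1 (-99, -847) (by decide +kernel)
             (CovZ.badM (by decide +kernel))
             (CovZ.leaf K2_ok TU_l563 _)))))
         (CovZ.n1 (-104, -844) (by decide +kernel)
          (CovZ.n2 (-102, -842) (by decide +kernel)
           (CovZ.n2 (-102, -844) (by decide +kernel)
            (CovZ.n2 (-103, -843) (by decide +kernel)
             (CovZ.leaf K2_ok TU_l933 _)
             (CovZ.badM (by decide +kernel)))
            (CovZ.leaf K2_ok TU_l564 _))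
           (CovZ.n1 (-104, -842) (by decide +kernel)
            (CovZ.leaf K2_ok TU_l565 _)
            (CovZ.n1 (-103, -843) (by decide +kernel)
             (CovZ.badM (by decide +kernel))
             (CovZ.leaf K2_ok TU_l934 _))))
          (CovZ.subM 612489553751572480 (by decide +kernel)
           (CovZ.n1 (-102, -846) (by decide +kernel)
            (CovZ.badM (by decide +kernel))
            (CovZ.n1 (-102, -844) (by decide +kernel)
             (CovZ.n2 (-101, -845) (by decide +kernel)
              (CovZ.badM (by decide +kernel))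
              (CovZ.leaf K2_ok TU_l566 _))
             (CovZ.badM (by decide +kernel)))))))))))
    (CovZ.n1 (-112, -864) (by decide +kernel)
     (CovZ.badM (by decide +kernel))
     (CovZ.badM (by decide +kernel)))))
    (CovZ.topM TU_LL 563976918029953245558269 (by decide +kernel) (CovZ.n0 (-112, -848) (by decide +kernel)
    (CovZ.badM (by decide +kernel))
    (CovZ.n1 (-112, -832) (by decide +kernel)
     (CovZ.n2 (-104, -840) (by decide +kernel)
      (CovZ.subM 396919173515103457775848 (by decide +kernel)
       (CovZ.n2 (-112, -840) (by decide +kernel)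
        (CovZ.n2 (-108, -836) (by decide +kernel)
         (CovZ.subM 576777426684608552 (by decide +kernel)
          (CovZ.n2 (-108, -840) (by decide +kernel)
           (CovZ.subM 8 (by decide +kernel)
            (CovZ.n2 (-110, -838) (by decide +kernel)
             (CovZ.n2 (-108, -838) (by decide +kernel)
              (CovZ.badM (by decide +kernel))
              (CovZ.n1 (-109, -837) (by decide +kernel)
               (CovZ.n2 (-108, -837) (by decide +kernel)
                (CovZ.badM (by decide +kernel))
                (CovZ.leaf K2_ok TU_l935 _))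
               (CovZ.badM (by decide +kernel))))
             (CovZ.badM (by decide +kernel))))
           (CovZ.n1 (-106, -838) (by decide +kernel)
            (CovZ.n2 (-106, -840) (by decide +kernel)
             (CovZ.n2 (-107, -839) (by decide +kernel)
              (CovZ.leaf K2_ok TU_l936 _)
              (CovZ.badM (by decide +kernel)))
             (CovZ.leaf K2_ok TU_l567 _))
            (CovZ.subM 576460756598390824 (by decide +kernel)
             (CovZ.n1 (-108, -838) (by decide +kernel)
              (CovZ.n2 (-107, -837) (by decide +kernel)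
               (CovZ.leaf K2_ok TU_l937 _)
               (CovZ.leaf K2_ok TU_l938 _))
              (CovZ.n1 (-107, -839) (by decide +kernel)
               (CovZ.badM (by decide +kernel))
               (CovZ.leaf K2_ok TU_l939 _)))))))
         (CovZ.subM 321342281764089108631688 (by decide +kernel)
          (CovZ.n1 (-112, -836) (by decide +kernel)
           (CovZ.n2 (-110, -834) (by decide +kernel)
            (CovZ.subM 18889465931478580854792 (by decide +kernel)
             (CovZ.n2 (-110, -836) (by decide +kernel)
              (CovZ.n2 (-111, -835) (by decide +kernel)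
               (CovZ.n2 (-110, -835) (by decide +kernel)
                (CovZ.badM (by decide +kernel))
                (CovZ.leaf K2_ok TU_l940 _))
               (CovZ.badM (by decide +kernel)))
              (CovZ.n1 (-109, -835) (by decide +kernel)
               (CovZ.n2 (-109, -836) (by decide +kernel)
                (CovZ.leaf K2_ok TU_l941 _)
                (CovZ.leaf K2_ok TU_l942 _))
               (CovZ.n1 (-110, -835) (by decide +kernel)
                (CovZ.leaf K2_ok TU_l943 _)
                (CovZ.leaf K2_ok TU_l944 _)))))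
            (CovZ.n1 (-112, -834) (by decide +kernel)
             (CovZ.n2 (-111, -833) (by decide +kernel)
              (CovZ.n2 (-111, -834) (by decide +kernel)
               (CovZ.badM (by decide +kernel))
               (CovZ.leaf K2_ok TU_l945 _))
              (CovZ.badM (by decide +kernel)))
             (CovZ.n1 (-111, -835) (by decide +kernel)
              (CovZ.badM (by decide +kernel))
              (CovZ.n1 (-111, -834) (by decide +kernel)
               (CovZ.leaf K2_ok TU_l946 _)
               (CovZ.badM (by decide +kernel))))))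
           (CovZ.subM 8 (by decide +kernel)
            (CovZ.n1 (-110, -838) (by decide +kernel)
             (CovZ.badM (by decide +kernel))
             (CovZ.n1 (-110, -836) (by decide +kernel)
              (CovZ.n2 (-109, -837) (by decide +kernel)
               (CovZ.badM (by decide +kernel))
               (CovZ.n1 (-109, -836) (by decide +kernel)
                (CovZ.leaf K2_ok TU_l947 _)
                (CovZ.badM (by decide +kernel))))
              (CovZ.badM (by decide +kernel))))))))
        (CovZ.subM 576460758745874432 (by decide +kernel)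
         (CovZ.n1 (-108, -844) (by decide +kernel)
          (CovZ.badM (by decide +kernel))
          (CovZ.n1 (-108, -840) (by decide +kernel)
           (CovZ.n2 (-106, -842) (by decide +kernel)
            (CovZ.badM (by decide +kernel))
            (CovZ.n1 (-106, -840) (by decide +kernel)
             (CovZ.n2 (-105, -841) (by decide +kernel)
              (CovZ.badM (by decide +kernel))
              (CovZ.leaf K2_ok TU_l568 _))
             (CovZ.badM (by decide +kernel))))
           (CovZ.badM (by decide +kernel)))))))
      (CovZ.n1 (-104, -832) (by decide +kernel)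
       (CovZ.n2 (-100, -836) (by decide +kernel)
        (CovZ.n2 (-104, -836) (by decide +kernel)
         (CovZ.n2 (-102, -834) (by decide +kernel)
          (CovZ.n2 (-102, -836) (by decide +kernel)
           (CovZ.leaf K2_ok TU_l21 _)
           (CovZ.leaf K2_ok TU_l22 _))
          (CovZ.n1 (-104, -834) (by decide +kernel)
           (CovZ.leaf K2_ok TU_l23 _)
           (CovZ.leaf K2_ok TU_l24 _)))
         (CovZ.subM 411440770450678677012889 (by decide +kernel)
          (CovZ.n1 (-102, -838) (by decide +kernel)
           (CovZ.n2 (-104, -838) (by decide +kernel)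
            (CovZ.leaf K2_ok TU_l25 _)
            (CovZ.leaf K2_ok TU_l26 _))
           (CovZ.n1 (-102, -836) (by decide +kernel)
            (CovZ.leaf K2_ok TU_l27 _)
            (CovZ.leaf K2_ok TU_l28 _)))))
        (CovZ.n1 (-100, -832) (by decide +kernel)
         (CovZ.n2 (-98, -834) (by decide +kernel)
          (CovZ.leaf K2_ok TU_l29 _)
          (CovZ.leaf K2_ok TU_l30 _))
         (CovZ.n1 (-102, -834) (by decide +kernel)
          (CovZ.leaf K2_ok TU_l31 _)
          (CovZ.leaf K2_ok TU_l32 _))))
       (CovZ.n1 (-108, -836) (by decide +kernel)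
        (CovZ.n2 (-108, -832) (by decide +kernel)
         (CovZ.subM 410997921370618217402617 (by decide +kernel)
          (CovZ.n2 (-106, -834) (by decide +kernel)
           (CovZ.n2 (-108, -834) (by decide +kernel)
            (CovZ.leaf K2_ok TU_l569 _)
            (CovZ.n1 (-107, -835) (by decide +kernel)
             (CovZ.leaf K2_ok TU_l570 _)
             (CovZ.leaf K2_ok TU_l571 _)))
           (CovZ.n1 (-106, -832) (by decide +kernel)
            (CovZ.leaf K2_ok TU_l572 _)
            (CovZ.n1 (-107, -833) (by decide +kernel)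
             (CovZ.leaf K2_ok TU_l573 _)
             (CovZ.leaf K2_ok TU_l574 _)))))
         (CovZ.subM 330789153946527642718424 (by decide +kernel)
          (CovZ.n1 (-110, -834) (by decide +kernel)
           (CovZ.n2 (-110, -832) (by decide +kernel)
            (CovZ.n2 (-109, -833) (by decide +kernel)
             (CovZ.leaf K2_ok TU_l948 _)
             (CovZ.leaf K2_ok TU_l575 _))
            (CovZ.n1 (-111, -833) (by decide +kernel)
             (CovZ.leaf K2_ok TU_l949 _)
             (CovZ.leaf K2_ok TU_l950 _)))
           (CovZ.n1 (-108, -834) (by decide +kernel)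
            (CovZ.n2 (-109, -835) (by decide +kernel)
             (CovZ.leaf K2_ok TU_l576 _)
             (CovZ.n1 (-108, -835) (by decide +kernel)
              (CovZ.leaf K2_ok TU_l577 _)
              (CovZ.leaf K2_ok TU_l578 _)))
            (CovZ.n1 (-109, -833) (by decide +kernel)
             (CovZ.leaf K2_ok TU_l579 _)
             (CovZ.leaf K2_ok TU_l580 _))))))
        (CovZ.n1 (-104, -836) (by decide +kernel)
         (CovZ.subM 330567721289569856946360 (by decide +kernel)
          (CovZ.n2 (-106, -838) (by decide +kernel)
           (CovZ.n2 (-106, -836) (by decide +kernel)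
            (CovZ.n2 (-105, -837) (by decide +kernel)
             (CovZ.leaf K2_ok TU_l581 _)
             (CovZ.leaf K2_ok TU_l582 _))
            (CovZ.n1 (-107, -837) (by decide +kernel)
             (CovZ.leaf K2_ok TU_l583 _)
             (CovZ.leaf K2_ok TU_l584 _)))
           (CovZ.n1 (-104, -838) (by decide +kernel)
            (CovZ.n2 (-105, -839) (by decide +kernel)
             (CovZ.leaf K2_ok TU_l585 _)
             (CovZ.leaf K2_ok TU_l586 _))
            (CovZ.leaf K2_ok TU_l587 _))))
         (CovZ.n1 (-106, -834) (by decide +kernel)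
          (CovZ.n2 (-104, -834) (by decide +kernel)
           (CovZ.leaf K2_ok TU_l588 _)
           (CovZ.leaf K2_ok TU_l589 _))
          (CovZ.n1 (-106, -836) (by decide +kernel)
           (CovZ.n2 (-107, -835) (by decide +kernel)
            (CovZ.leaf K2_ok TU_l590 _)
            (CovZ.leaf K2_ok TU_l591 _))
           (CovZ.leaf K2_ok TU_l592 _)))))))
     (CovZ.badM (by decide +kernel)))))

theorem TU_s1_0 : SqZ TU_M TU_L [0, 7, 4, 3] (-128) (-864) 32 1 0 :=
  SqZ.mk (a := (-96)) (b := (-64)) (c := (-864)) (d := (-832)) (by norm_num) (by norm_num) (by norm_num) (by norm_num)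
    (CovZ.topM TU_LL 604333764557220214350047 (by decide +kernel) (CovZ.n2 (-80, -848) (by decide +kernel)
    TU_u0
    TU_u1))
    (CovZ.topM TU_LL 604333782589210909910527 (by decide +kernel) (CovZ.n0 (-80, -848) (by decide +kernel)
    (CovZ.n2 (-96, -848) (by decide +kernel)
     (CovZ.n2 (-88, -840) (by decide +kernel)
      (CovZ.n2 (-88, -848) (by decide +kernel)
       (CovZ.n2 (-92, -844) (by decide +kernel)
        (CovZ.n2 (-88, -844) (by decide +kernel)
         (CovZ.n2 (-90, -846) (by decide +kernel)
          (CovZ.leaf K2_ok TU_l221 _)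
          (CovZ.leaf K2_ok TU_l222 _))
         (CovZ.n1 (-90, -842) (by decide +kernel)
          (CovZ.leaf K2_ok TU_l223 _)
          (CovZ.leaf K2_ok TU_l224 _)))
        (CovZ.n1 (-92, -848) (by decide +kernel)
         (CovZ.n2 (-94, -846) (by decide +kernel)
          (CovZ.leaf K2_ok TU_l225 _)
          (CovZ.leaf K2_ok TU_l226 _))
         (CovZ.leaf K2_ok TU_l227 _)))
       (CovZ.n1 (-84, -844) (by decide +kernel)
        (CovZ.n2 (-84, -848) (by decide +kernel)
         (CovZ.n2 (-86, -846) (by decide +kernel)
          (CovZ.leaf K2_ok TU_l228 _)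
          (CovZ.leaf K2_ok TU_l229 _))
         (CovZ.leaf K2_ok TU_l230 _))
        (CovZ.n1 (-88, -844) (by decide +kernel)
         (CovZ.leaf K2_ok TU_l231 _)
         (CovZ.n1 (-86, -846) (by decide +kernel)
          (CovZ.leaf K2_ok TU_l232 _)
          (CovZ.leaf K2_ok TU_l233 _)))))
      (CovZ.n1 (-96, -840) (by decide +kernel)
       (CovZ.n2 (-92, -836) (by decide +kernel)
        (CovZ.n2 (-92, -840) (by decide +kernel)
         (CovZ.leaf K2_ok TU_l234 _)
         (CovZ.leaf K2_ok TU_l235 _))
        (CovZ.n1 (-96, -836) (by decide +kernel)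
         (CovZ.leaf K2_ok TU_l236 _)
         (CovZ.leaf K2_ok TU_l237 _)))
       (CovZ.n1 (-92, -844) (by decide +kernel)
        (CovZ.n2 (-96, -844) (by decide +kernel)
         (CovZ.leaf K2_ok TU_l238 _)
         (CovZ.n1 (-94, -846) (by decide +kernel)
          (CovZ.leaf K2_ok TU_l239 _)
          (CovZ.leaf K2_ok TU_l240 _)))
        (CovZ.n1 (-92, -840) (by decide +kernel)
         (CovZ.leaf K2_ok TU_l241 _)
         (CovZ.leaf K2_ok TU_l242 _)))))
     (CovZ.subM 182700497899938157601951 (by decide +kernel)
      (CovZ.n1 (-88, -856) (by decide +kernel)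
       (CovZ.subM 151115907595818179232774 (by decide +kernel)
        (CovZ.n2 (-96, -856) (by decide +kernel)
         (CovZ.n2 (-92, -852) (by decide +kernel)
          (CovZ.n2 (-92, -856) (by decide +kernel)
           (CovZ.n2 (-94, -854) (by decide +kernel)
            (CovZ.n2 (-92, -854) (by decide +kernel)
             (CovZ.leaf K2_ok TU_l720 _)
             (CovZ.leaf K2_ok TU_l721 _))
            (CovZ.n1 (-94, -856) (by decide +kernel)
             (CovZ.n2 (-95, -855) (by decide +kernel)
              (CovZ.leaf K2_ok TU_l722 _)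
              (CovZ.leaf K2_ok TU_l723 _))
             (CovZ.leaf K2_ok TU_l724 _)))
           (CovZ.n1 (-90, -854) (by decide +kernel)
            (CovZ.n2 (-90, -856) (by decide +kernel)
             (CovZ.leaf K2_ok TU_l725 _)
             (CovZ.leaf K2_ok TU_l726 _))
            (CovZ.leaf K2_ok TU_l727 _)))
          (CovZ.n1 (-96, -852) (by decide +kernel)
           (CovZ.n2 (-94, -850) (by decide +kernel)
            (CovZ.leaf K2_ok TU_l728 _)
            (CovZ.n1 (-96, -850) (by decide +kernel)
             (CovZ.leaf K2_ok TU_l729 _)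
             (CovZ.leaf K2_ok TU_l730 _)))
           (CovZ.n1 (-94, -854) (by decide +kernel)
            (CovZ.n2 (-96, -854) (by decide +kernel)
             (CovZ.leaf K2_ok TU_l731 _)
             (CovZ.n1 (-95, -855) (by decide +kernel)
              (CovZ.leaf K2_ok TU_l1058 _)
              (CovZ.leaf K2_ok TU_l732 _)))
            (CovZ.n1 (-94, -852) (by decide +kernel)
             (CovZ.leaf K2_ok TU_l733 _)
             (CovZ.leaf K2_ok TU_l734 _)))))
         (CovZ.n1 (-92, -860) (by decide +kernel)
          (CovZ.subM 142607362 (by decide +kernel)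
           (CovZ.n2 (-96, -860) (by decide +kernel)
            (CovZ.n2 (-94, -858) (by decide +kernel)
             (CovZ.n2 (-94, -860) (by decide +kernel)
              (CovZ.badM (by decide +kernel))
              (CovZ.leaf K2_ok TU_l735 _))
             (CovZ.badM (by decide +kernel)))
            (CovZ.n1 (-94, -862) (by decide +kernel)
             (CovZ.badM (by decide +kernel))
             (CovZ.n1 (-94, -860) (by decide +kernel)
              (CovZ.n2 (-93, -861) (by decide +kernel)
               (CovZ.badM (by decide +kernel))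
               (CovZ.leaf K2_ok TU_l736 _))
              (CovZ.badM (by decide +kernel))))))
          (CovZ.n1 (-92, -856) (by decide +kernel)
           (CovZ.subM 151115763480625808408578 (by decide +kernel)
            (CovZ.n2 (-90, -858) (by decide +kernel)
             (CovZ.n2 (-92, -858) (by decide +kernel)
              (CovZ.leaf K2_ok TU_l737 _)
              (CovZ.leaf K2_ok TU_l738 _))
             (CovZ.n1 (-90, -856) (by decide +kernel)
              (CovZ.leaf K2_ok TU_l739 _)
              (CovZ.leaf K2_ok TU_l740 _))))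
           (CovZ.subM 36028797161571330 (by decide +kernel)
            (CovZ.n1 (-94, -858) (by decide +kernel)
             (CovZ.n2 (-94, -856) (by decide +kernel)
              (CovZ.leaf K2_ok TU_l741 _)
              (CovZ.n1 (-95, -857) (by decide +kernel)
               (CovZ.leaf K2_ok TU_l742 _)
               (CovZ.leaf K2_ok TU_l743 _)))
             (CovZ.n1 (-92, -858) (by decide +kernel)
              (CovZ.n2 (-93, -859) (by decide +kernel)
               (CovZ.leaf K2_ok TU_l744 _)
               (CovZ.leaf K2_ok TU_l745 _))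
              (CovZ.leaf K2_ok TU_l746 _))))))))
       (CovZ.n1 (-88, -848) (by decide +kernel)
        (CovZ.n2 (-84, -852) (by decide +kernel)
         (CovZ.n2 (-88, -852) (by decide +kernel)
          (CovZ.leaf K2_ok TU_l243 _)
          (CovZ.n1 (-86, -854) (by decide +kernel)
           (CovZ.leaf K2_ok TU_l747 _)
           (CovZ.leaf K2_ok TU_l244 _)))
         (CovZ.n1 (-84, -848) (by decide +kernel)
          (CovZ.n2 (-82, -850) (by decide +kernel)
           (CovZ.leaf K2_ok TU_l245 _)
           (CovZ.leaf K2_ok TU_l246 _))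
          (CovZ.n1 (-86, -850) (by decide +kernel)
           (CovZ.leaf K2_ok TU_l247 _)
           (CovZ.leaf K2_ok TU_l248 _))))
        (CovZ.n1 (-92, -852) (by decide +kernel)
         (CovZ.n2 (-92, -848) (by decide +kernel)
          (CovZ.n2 (-90, -850) (by decide +kernel)
           (CovZ.leaf K2_ok TU_l748 _)
           (CovZ.leaf K2_ok TU_l249 _))
          (CovZ.n1 (-94, -850) (by decide +kernel)
           (CovZ.leaf K2_ok TU_l749 _)
           (CovZ.leaf K2_ok TU_l750 _)))
         (CovZ.n1 (-88, -852) (by decide +kernel)
          (CovZ.n2 (-90, -854) (by decide +kernel)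
           (CovZ.leaf K2_ok TU_l751 _)
           (CovZ.n1 (-88, -854) (by decide +kernel)
            (CovZ.leaf K2_ok TU_l752 _)
            (CovZ.leaf K2_ok TU_l753 _)))
          (CovZ.n1 (-90, -850) (by decide +kernel)
           (CovZ.leaf K2_ok TU_l250 _)
           (CovZ.leaf K2_ok TU_l754 _))))))))
    (CovZ.n1 (-80, -832) (by decide +kernel)
     (CovZ.n2 (-72, -840) (by decide +kernel)
      (CovZ.n2 (-80, -840) (by decide +kernel)
       (CovZ.n2 (-76, -836) (by decide +kernel)
        (CovZ.n2 (-76, -840) (by decide +kernel)
         (CovZ.n2 (-78, -838) (by decide +kernel)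
          (CovZ.leaf K2_ok TU_l251 _)
          (CovZ.leaf K2_ok TU_l252 _))
         (CovZ.leaf K2_ok TU_l253 _))
        (CovZ.n1 (-80, -836) (by decide +kernel)
         (CovZ.leaf K2_ok TU_l254 _)
         (CovZ.leaf K2_ok TU_l255 _)))
       (CovZ.n1 (-76, -844) (by decide +kernel)
        (CovZ.n2 (-80, -844) (by decide +kernel)
         (CovZ.leaf K2_ok TU_l256 _)
         (CovZ.n1 (-78, -846) (by decide +kernel)
          (CovZ.leaf K2_ok TU_l257 _)
          (CovZ.leaf K2_ok TU_l258 _)))
        (CovZ.n1 (-76, -840) (by decide +kernel)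
         (CovZ.n2 (-74, -842) (by decide +kernel)
          (CovZ.leaf K2_ok TU_l259 _)
          (CovZ.leaf K2_ok TU_l260 _))
         (CovZ.n1 (-78, -842) (by decide +kernel)
          (CovZ.leaf K2_ok TU_l261 _)
          (CovZ.leaf K2_ok TU_l262 _)))))
      (CovZ.n1 (-72, -832) (by decide +kernel)
       (CovZ.n2 (-68, -836) (by decide +kernel)
        (CovZ.n2 (-72, -836) (by decide +kernel)
         (CovZ.leaf K2_ok TU_l263 _)
         (CovZ.leaf K2_ok TU_l264 _))
        (CovZ.n1 (-68, -832) (by decide +kernel)
         (CovZ.leaf K2_ok TU_l265 _)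
         (CovZ.leaf K2_ok TU_l266 _)))
       (CovZ.n1 (-76, -836) (by decide +kernel)
        (CovZ.n2 (-76, -832) (by decide +kernel)
         (CovZ.leaf K2_ok TU_l267 _)
         (CovZ.leaf K2_ok TU_l268 _))
        (CovZ.n1 (-72, -836) (by decide +kernel)
         (CovZ.leaf K2_ok TU_l269 _)
         (CovZ.leaf K2_ok TU_l270 _)))))
     (CovZ.n1 (-88, -840) (by decide +kernel)
      (CovZ.n2 (-88, -832) (by decide +kernel)
       (CovZ.n2 (-84, -836) (by decide +kernel)
        (CovZ.n2 (-88, -836) (by decide +kernel)
         (CovZ.leaf K2_ok TU_l271 _)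
         (CovZ.leaf K2_ok TU_l272 _))
        (CovZ.n1 (-84, -832) (by decide +kernel)
         (CovZ.leaf K2_ok TU_l273 _)
         (CovZ.leaf K2_ok TU_l274 _)))
       (CovZ.n1 (-92, -836) (by decide +kernel)
        (CovZ.n2 (-92, -832) (by decide +kernel)
         (CovZ.leaf K2_ok TU_l275 _)
         (CovZ.leaf K2_ok TU_l276 _))
        (CovZ.n1 (-88, -836) (by decide +kernel)
         (CovZ.leaf K2_ok TU_l277 _)
         (CovZ.leaf K2_ok TU_l278 _))))
      (CovZ.n1 (-80, -840) (by decide +kernel)
       (CovZ.n2 (-84, -844) (by decide +kernel)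
        (CovZ.n2 (-84, -840) (by decide +kernel)
         (CovZ.n2 (-82, -842) (by decide +kernel)
          (CovZ.leaf K2_ok TU_l279 _)
          (CovZ.leaf K2_ok TU_l280 _))
         (CovZ.n1 (-86, -842) (by decide +kernel)
          (CovZ.leaf K2_ok TU_l281 _)
          (CovZ.leaf K2_ok TU_l282 _)))
        (CovZ.n1 (-80, -844) (by decide +kernel)
         (CovZ.n2 (-82, -846) (by decide +kernel)
          (CovZ.leaf K2_ok TU_l283 _)
          (CovZ.leaf K2_ok TU_l284 _))
         (CovZ.n1 (-82, -842) (by decide +kernel)
          (CovZ.leaf K2_ok TU_l285 _)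
          (CovZ.leaf K2_ok TU_l286 _))))
       (CovZ.n1 (-84, -836) (by decide +kernel)
        (CovZ.n2 (-80, -836) (by decide +kernel)
         (CovZ.leaf K2_ok TU_l287 _)
         (CovZ.leaf K2_ok TU_l288 _))
        (CovZ.n1 (-84, -840) (by decide +kernel)
         (CovZ.leaf K2_ok TU_l289 _)
         (CovZ.leaf K2_ok TU_l290 _))))))))

theorem TU_s2_0 : SqZ TU_M TU_L [0, 7, 4, 3] (-128) (-864) 32 2 0 :=
  SqZ.mk (a := (-64)) (b := (-32)) (c := (-864)) (d := (-832)) (by norm_num) (by norm_num) (by norm_num) (by norm_num)
    (CovZ.topM TU_LL 537469857241732659281923 (by decide +kernel) (CovZ.n2 (-48, -848) (by decide +kernel)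
    (CovZ.n2 (-32, -848) (by decide +kernel)
     (CovZ.subM 229329967430722322956291 (by decide +kernel)
      (CovZ.n2 (-40, -856) (by decide +kernel)
       (CovZ.n2 (-40, -848) (by decide +kernel)
        (CovZ.n2 (-36, -852) (by decide +kernel)
         (CovZ.n2 (-40, -852) (by decide +kernel)
          (CovZ.leaf K2_ok TU_l808 _)
          (CovZ.leaf K2_ok TU_l382 _))
         (CovZ.leaf K2_ok TU_l809 _))
        (CovZ.n1 (-44, -852) (by decide +kernel)
         (CovZ.n2 (-44, -848) (by decide +kernel)
          (CovZ.leaf K2_ok TU_l383 _)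
          (CovZ.n1 (-46, -850) (by decide +kernel)
           (CovZ.leaf K2_ok TU_l384 _)
           (CovZ.leaf K2_ok TU_l385 _)))
         (CovZ.n1 (-40, -852) (by decide +kernel)
          (CovZ.leaf K2_ok TU_l386 _)
          (CovZ.n1 (-42, -850) (by decide +kernel)
           (CovZ.leaf K2_ok TU_l810 _)
           (CovZ.leaf K2_ok TU_l387 _)))))
       (CovZ.subM 295193011544504926211 (by decide +kernel)
        (CovZ.n1 (-32, -856) (by decide +kernel)
         (CovZ.n2 (-36, -860) (by decide +kernel)
          (CovZ.leaf K2_ok TU_l388 _)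
          (CovZ.n1 (-32, -860) (by decide +kernel)
           (CovZ.leaf K2_ok TU_l389 _)
           (CovZ.leaf K2_ok TU_l390 _)))
         (CovZ.n1 (-36, -852) (by decide +kernel)
          (CovZ.badM (by decide +kernel))
          (CovZ.n1 (-36, -856) (by decide +kernel)
           (CovZ.leaf K2_ok TU_l391 _)
           (CovZ.badM (by decide +kernel))))))))
     (CovZ.n1 (-40, -840) (by decide +kernel)
      (CovZ.subM 75558728839263967772675 (by decide +kernel)
       (CovZ.n2 (-32, -840) (by decide +kernel)
        (CovZ.n2 (-36, -844) (by decide +kernel)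
         (CovZ.leaf K2_ok TU_l814 _)
         (CovZ.badM (by decide +kernel)))
        (CovZ.n1 (-36, -836) (by decide +kernel)
         (CovZ.n2 (-32, -836) (by decide +kernel)
          (CovZ.leaf K2_ok TU_l817 _)
          (CovZ.leaf K2_ok TU_l818 _))
         (CovZ.n1 (-36, -840) (by decide +kernel)
          (CovZ.n2 (-38, -838) (by decide +kernel)
           (CovZ.leaf K2_ok TU_l819 _)
           (CovZ.leaf K2_ok TU_l820 _))
          (CovZ.leaf K2_ok TU_l821 _)))))
      (CovZ.subM 229329967430722322956291 (by decide +kernel)
       (CovZ.n1 (-40, -848) (by decide +kernel)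
        (CovZ.n2 (-44, -844) (by decide +kernel)
         (CovZ.n2 (-40, -844) (by decide +kernel)
          (CovZ.n2 (-42, -846) (by decide +kernel)
           (CovZ.leaf K2_ok TU_l822 _)
           (CovZ.leaf K2_ok TU_l823 _))
          (CovZ.leaf K2_ok TU_l824 _))
         (CovZ.n1 (-44, -848) (by decide +kernel)
          (CovZ.n2 (-46, -846) (by decide +kernel)
           (CovZ.leaf K2_ok TU_l392 _)
           (CovZ.leaf K2_ok TU_l393 _))
          (CovZ.leaf K2_ok TU_l394 _)))
        (CovZ.subM 75853047659890829426691 (by decide +kernel)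
         (CovZ.n1 (-36, -844) (by decide +kernel)
          (CovZ.n2 (-36, -848) (by decide +kernel)
           (CovZ.leaf K2_ok TU_l825 _)
           (CovZ.badM (by decide +kernel)))
          (CovZ.n1 (-40, -844) (by decide +kernel)
           (CovZ.leaf K2_ok TU_l827 _)
           (CovZ.leaf K2_ok TU_l828 _))))))))
    (CovZ.n1 (-48, -864) (by decide +kernel)
     (CovZ.n2 (-56, -856) (by decide +kernel)
      (CovZ.n2 (-48, -856) (by decide +kernel)
       (CovZ.subM 456008170224114976423939 (by decide +kernel)
        (CovZ.n2 (-52, -860) (by decide +kernel)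
         (CovZ.n2 (-52, -856) (by decide +kernel)
          (CovZ.n2 (-50, -858) (by decide +kernel)
           (CovZ.leaf K2_ok TU_l395 _)
           (CovZ.leaf K2_ok TU_l396 _))
          (CovZ.n1 (-54, -858) (by decide +kernel)
           (CovZ.leaf K2_ok TU_l397 _)
           (CovZ.n1 (-52, -858) (by decide +kernel)
            (CovZ.leaf K2_ok TU_l398 _)
            (CovZ.leaf K2_ok TU_l399 _))))
         (CovZ.n1 (-48, -860) (by decide +kernel)
          (CovZ.n2 (-50, -862) (by decide +kernel)
           (CovZ.leaf K2_ok TU_l400 _)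
           (CovZ.leaf K2_ok TU_l401 _))
          (CovZ.n1 (-50, -858) (by decide +kernel)
           (CovZ.leaf K2_ok TU_l402 _)
           (CovZ.leaf K2_ok TU_l403 _)))))
       (CovZ.n1 (-52, -852) (by decide +kernel)
        (CovZ.subM 531561422334379616632835 (by decide +kernel)
         (CovZ.n2 (-48, -852) (by decide +kernel)
          (CovZ.n2 (-50, -854) (by decide +kernel)
           (CovZ.leaf K2_ok TU_l404 _)
           (CovZ.leaf K2_ok TU_l405 _))
          (CovZ.n1 (-50, -850) (by decide +kernel)
           (CovZ.leaf K2_ok TU_l406 _)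
           (CovZ.leaf K2_ok TU_l407 _))))
        (CovZ.subM 456008170224114976423939 (by decide +kernel)
         (CovZ.n1 (-52, -856) (by decide +kernel)
          (CovZ.n2 (-54, -854) (by decide +kernel)
           (CovZ.n2 (-52, -854) (by decide +kernel)
            (CovZ.leaf K2_ok TU_l408 _)
            (CovZ.leaf K2_ok TU_l409 _))
           (CovZ.leaf K2_ok TU_l410 _))
          (CovZ.n1 (-50, -854) (by decide +kernel)
           (CovZ.leaf K2_ok TU_l411 _)
           (CovZ.leaf K2_ok TU_l412 _))))))
      (CovZ.subM 460725925020966177472515 (by decide +kernel)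
       (CovZ.n1 (-56, -864) (by decide +kernel)
        (CovZ.n2 (-60, -860) (by decide +kernel)
         (CovZ.n2 (-56, -860) (by decide +kernel)
          (CovZ.n2 (-58, -862) (by decide +kernel)
           (CovZ.n2 (-58, -860) (by decide +kernel)
            (CovZ.leaf K2_ok TU_l413 _)
            (CovZ.leaf K2_ok TU_l414 _))
           (CovZ.n1 (-56, -862) (by decide +kernel)
            (CovZ.badM (by decide +kernel))
            (CovZ.leaf K2_ok TU_l415 _)))
          (CovZ.n1 (-58, -858) (by decide +kernel)
           (CovZ.n2 (-56, -858) (by decide +kernel)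
            (CovZ.leaf K2_ok TU_l416 _)
            (CovZ.leaf K2_ok TU_l417 _))
           (CovZ.leaf K2_ok TU_l418 _)))
         (CovZ.n1 (-60, -864) (by decide +kernel)
          (CovZ.n2 (-62, -862) (by decide +kernel)
           (CovZ.n2 (-60, -862) (by decide +kernel)
            (CovZ.badM (by decide +kernel))
            (CovZ.leaf K2_ok TU_l419 _))
           (CovZ.badM (by decide +kernel)))
          (CovZ.n1 (-58, -862) (by decide +kernel)
           (CovZ.badM (by decide +kernel))
           (CovZ.leaf K2_ok TU_l420 _))))
        (CovZ.n1 (-52, -860) (by decide +kernel)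
         (CovZ.n2 (-52, -864) (by decide +kernel)
          (CovZ.n2 (-54, -862) (by decide +kernel)
           (CovZ.leaf K2_ok TU_l421 _)
           (CovZ.badM (by decide +kernel)))
          (CovZ.leaf K2_ok TU_l422 _))
         (CovZ.n1 (-56, -860) (by decide +kernel)
          (CovZ.n2 (-54, -858) (by decide +kernel)
           (CovZ.leaf K2_ok TU_l423 _)
           (CovZ.leaf K2_ok TU_l424 _))
          (CovZ.n1 (-54, -862) (by decide +kernel)
           (CovZ.leaf K2_ok TU_l425 _)
           (CovZ.leaf K2_ok TU_l426 _)))))))
     (CovZ.subM 229329967435120369467395 (by decide +kernel)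
      (CovZ.n1 (-40, -856) (by decide +kernel)
       (CovZ.n2 (-40, -864) (by decide +kernel)
        (CovZ.n2 (-44, -860) (by decide +kernel)
         (CovZ.n2 (-40, -860) (by decide +kernel)
          (CovZ.leaf K2_ok TU_l427 _)
          (CovZ.leaf K2_ok TU_l428 _))
         (CovZ.n1 (-44, -864) (by decide +kernel)
          (CovZ.leaf K2_ok TU_l429 _)
          (CovZ.leaf K2_ok TU_l430 _)))
        (CovZ.subM 295192941175760748547 (by decide +kernel)
         (CovZ.n1 (-36, -860) (by decide +kernel)
          (CovZ.n2 (-36, -864) (by decide +kernel)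
           (CovZ.leaf K2_ok TU_l431 _)
           (CovZ.leaf K2_ok TU_l432 _))
          (CovZ.n1 (-40, -860) (by decide +kernel)
           (CovZ.leaf K2_ok TU_l433 _)
           (CovZ.leaf K2_ok TU_l434 _)))))
       (CovZ.n1 (-48, -856) (by decide +kernel)
        (CovZ.n2 (-44, -852) (by decide +kernel)
         (CovZ.n2 (-44, -856) (by decide +kernel)
          (CovZ.n2 (-46, -854) (by decide +kernel)
           (CovZ.leaf K2_ok TU_l435 _)
           (CovZ.leaf K2_ok TU_l436 _))
          (CovZ.leaf K2_ok TU_l437 _))
         (CovZ.n1 (-48, -852) (by decide +kernel)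
          (CovZ.leaf K2_ok TU_l438 _)
          (CovZ.leaf K2_ok TU_l439 _)))
        (CovZ.n1 (-44, -860) (by decide +kernel)
         (CovZ.n2 (-48, -860) (by decide +kernel)
          (CovZ.leaf K2_ok TU_l440 _)
          (CovZ.leaf K2_ok TU_l441 _))
         (CovZ.n1 (-44, -856) (by decide +kernel)
          (CovZ.leaf K2_ok TU_l442 _)
          (CovZ.n1 (-46, -858) (by decide +kernel)
           (CovZ.leaf K2_ok TU_l443 _)
           (CovZ.leaf K2_ok TU_l444 _))))))))))
    (CovZ.topM TU_LL 585295499658847431303175 (by decide +kernel) (CovZ.n0 (-48, -848) (by decide +kernel)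
    (CovZ.n2 (-64, -848) (by decide +kernel)
     (CovZ.n2 (-56, -840) (by decide +kernel)
      (CovZ.n2 (-56, -848) (by decide +kernel)
       (CovZ.n2 (-60, -844) (by decide +kernel)
        (CovZ.subM 574070075061696995655683 (by decide +kernel)
         (CovZ.n2 (-56, -844) (by decide +kernel)
          (CovZ.n2 (-58, -846) (by decide +kernel)
           (CovZ.leaf K2_ok TU_l445 _)
           (CovZ.leaf K2_ok TU_l446 _))
          (CovZ.n1 (-58, -842) (by decide +kernel)
           (CovZ.leaf K2_ok TU_l447 _)
           (CovZ.leaf K2_ok TU_l448 _))))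
        (CovZ.n1 (-60, -848) (by decide +kernel)
         (CovZ.n2 (-62, -846) (by decide +kernel)
          (CovZ.leaf K2_ok TU_l449 _)
          (CovZ.leaf K2_ok TU_l450 _))
         (CovZ.leaf K2_ok TU_l451 _)))
       (CovZ.subM 574065463375678568267779 (by decide +kernel)
        (CovZ.n1 (-52, -844) (by decide +kernel)
         (CovZ.n2 (-52, -848) (by decide +kernel)
          (CovZ.n2 (-54, -846) (by decide +kernel)
           (CovZ.leaf K2_ok TU_l452 _)
           (CovZ.leaf K2_ok TU_l453 _))
          (CovZ.leaf K2_ok TU_l454 _))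
         (CovZ.n1 (-56, -844) (by decide +kernel)
          (CovZ.leaf K2_ok TU_l455 _)
          (CovZ.n1 (-54, -846) (by decide +kernel)
           (CovZ.leaf K2_ok TU_l456 _)
           (CovZ.leaf K2_ok TU_l457 _))))))
      (CovZ.n1 (-64, -840) (by decide +kernel)
       (CovZ.n2 (-60, -836) (by decide +kernel)
        (CovZ.n2 (-60, -840) (by decide +kernel)
         (CovZ.leaf K2_ok TU_l458 _)
         (CovZ.leaf K2_ok TU_l459 _))
        (CovZ.n1 (-64, -836) (by decide +kernel)
         (CovZ.leaf K2_ok TU_l460 _)
         (CovZ.leaf K2_ok TU_l461 _)))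
       (CovZ.n1 (-60, -844) (by decide +kernel)
        (CovZ.n2 (-64, -844) (by decide +kernel)
         (CovZ.leaf K2_ok TU_l462 _)
         (CovZ.n1 (-62, -846) (by decide +kernel)
          (CovZ.leaf K2_ok TU_l463 _)
          (CovZ.leaf K2_ok TU_l464 _)))
        (CovZ.n1 (-60, -840) (by decide +kernel)
         (CovZ.n2 (-58, -842) (by decide +kernel)
          (CovZ.leaf K2_ok TU_l465 _)
          (CovZ.leaf K2_ok TU_l466 _))
         (CovZ.n1 (-62, -842) (by decide +kernel)
          (CovZ.leaf K2_ok TU_l467 _)
          (CovZ.leaf K2_ok TU_l468 _))))))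
     (CovZ.n1 (-56, -856) (by decide +kernel)
      (CovZ.subM 499701738588542972592131 (by decide +kernel)
       (CovZ.n2 (-64, -856) (by decide +kernel)
        (CovZ.n2 (-60, -852) (by decide +kernel)
         (CovZ.n2 (-60, -856) (by decide +kernel)
          (CovZ.n2 (-62, -854) (by decide +kernel)
           (CovZ.n2 (-60, -854) (by decide +kernel)
            (CovZ.leaf K2_ok TU_l469 _)
            (CovZ.leaf K2_ok TU_l470 _))
           (CovZ.leaf K2_ok TU_l471 _))
          (CovZ.n1 (-58, -854) (by decide +kernel)
           (CovZ.leaf K2_ok TU_l472 _)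
           (CovZ.leaf K2_ok TU_l473 _)))
         (CovZ.n1 (-64, -852) (by decide +kernel)
          (CovZ.leaf K2_ok TU_l474 _)
          (CovZ.n1 (-62, -854) (by decide +kernel)
           (CovZ.leaf K2_ok TU_l475 _)
           (CovZ.leaf K2_ok TU_l476 _))))
        (CovZ.n1 (-60, -860) (by decide +kernel)
         (CovZ.subM 153774413981048083972099 (by decide +kernel)
          (CovZ.n2 (-64, -860) (by decide +kernel)
           (CovZ.n2 (-62, -858) (by decide +kernel)
            (CovZ.leaf K2_ok TU_l477 _)
            (CovZ.leaf K2_ok TU_l478 _))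
           (CovZ.n1 (-62, -862) (by decide +kernel)
            (CovZ.leaf K2_ok TU_l479 _)
            (CovZ.leaf K2_ok TU_l480 _))))
         (CovZ.n1 (-60, -856) (by decide +kernel)
          (CovZ.n2 (-58, -858) (by decide +kernel)
           (CovZ.leaf K2_ok TU_l481 _)
           (CovZ.leaf K2_ok TU_l482 _))
          (CovZ.n1 (-62, -858) (by decide +kernel)
           (CovZ.leaf K2_ok TU_l483 _)
           (CovZ.n1 (-60, -858) (by decide +kernel)
            (CovZ.leaf K2_ok TU_l484 _)
            (CovZ.leaf K2_ok TU_l485 _)))))))
      (CovZ.n1 (-56, -848) (by decide +kernel)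
       (CovZ.subM 574069642717231742844931 (by decide +kernel)
        (CovZ.n2 (-52, -852) (by decide +kernel)
         (CovZ.n2 (-56, -852) (by decide +kernel)
          (CovZ.leaf K2_ok TU_l486 _)
          (CovZ.n1 (-54, -854) (by decide +kernel)
           (CovZ.leaf K2_ok TU_l487 _)
           (CovZ.leaf K2_ok TU_l488 _)))
         (CovZ.n1 (-52, -848) (by decide +kernel)
          (CovZ.n2 (-50, -850) (by decide +kernel)
           (CovZ.leaf K2_ok TU_l489 _)
           (CovZ.leaf K2_ok TU_l490 _))
          (CovZ.n1 (-54, -850) (by decide +kernel)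
           (CovZ.leaf K2_ok TU_l491 _)
           (CovZ.leaf K2_ok TU_l492 _)))))
       (CovZ.subM 498521146972223607799811 (by decide +kernel)
        (CovZ.n1 (-60, -852) (by decide +kernel)
         (CovZ.n2 (-60, -848) (by decide +kernel)
          (CovZ.n2 (-58, -850) (by decide +kernel)
           (CovZ.leaf K2_ok TU_l493 _)
           (CovZ.leaf K2_ok TU_l494 _))
          (CovZ.n1 (-62, -850) (by decide +kernel)
           (CovZ.leaf K2_ok TU_l495 _)
           (CovZ.leaf K2_ok TU_l496 _)))
         (CovZ.n1 (-56, -852) (by decide +kernel)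
          (CovZ.n2 (-58, -854) (by decide +kernel)
           (CovZ.leaf K2_ok TU_l497 _)
           (CovZ.n1 (-56, -854) (by decide +kernel)
            (CovZ.leaf K2_ok TU_l498 _)
            (CovZ.leaf K2_ok TU_l499 _)))
          (CovZ.n1 (-58, -850) (by decide +kernel)
           (CovZ.n2 (-56, -850) (by decide +kernel)
            (CovZ.leaf K2_ok TU_l500 _)
            (CovZ.leaf K2_ok TU_l501 _))
           (CovZ.leaf K2_ok TU_l502 _))))))))
    (CovZ.n1 (-48, -832) (by decide +kernel)
     (CovZ.n2 (-40, -840) (by decide +kernel)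
      (CovZ.n2 (-48, -840) (by decide +kernel)
       (CovZ.subM 267112065749737659301891 (by decide +kernel)
        (CovZ.n2 (-44, -836) (by decide +kernel)
         (CovZ.n2 (-44, -840) (by decide +kernel)
          (CovZ.leaf K2_ok TU_l829 _)
          (CovZ.leaf K2_ok TU_l830 _))
         (CovZ.n1 (-48, -836) (by decide +kernel)
          (CovZ.leaf K2_ok TU_l831 _)
          (CovZ.leaf K2_ok TU_l832 _))))
       (CovZ.subM 267111209641388378554371 (by decide +kernel)
        (CovZ.n1 (-44, -844) (by decide +kernel)
         (CovZ.n2 (-48, -844) (by decide +kernel)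
          (CovZ.leaf K2_ok TU_l503 _)
          (CovZ.n1 (-46, -846) (by decide +kernel)
           (CovZ.leaf K2_ok TU_l504 _)
           (CovZ.leaf K2_ok TU_l505 _)))
         (CovZ.n1 (-44, -840) (by decide +kernel)
          (CovZ.leaf K2_ok TU_l833 _)
          (CovZ.leaf K2_ok TU_l834 _)))))
      (CovZ.subM 267112065677169891737603 (by decide +kernel)
       (CovZ.n1 (-40, -832) (by decide +kernel)
        (CovZ.n2 (-36, -836) (by decide +kernel)
         (CovZ.n2 (-40, -836) (by decide +kernel)
          (CovZ.leaf K2_ok TU_l835 _)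
          (CovZ.leaf K2_ok TU_l836 _))
         (CovZ.n1 (-36, -832) (by decide +kernel)
          (CovZ.leaf K2_ok TU_l837 _)
          (CovZ.n1 (-38, -834) (by decide +kernel)
           (CovZ.leaf K2_ok TU_l838 _)
           (CovZ.leaf K2_ok TU_l839 _))))
        (CovZ.n1 (-44, -836) (by decide +kernel)
         (CovZ.n2 (-44, -832) (by decide +kernel)
          (CovZ.leaf K2_ok TU_l840 _)
          (CovZ.leaf K2_ok TU_l841 _))
         (CovZ.n1 (-40, -836) (by decide +kernel)
          (CovZ.leaf K2_ok TU_l842 _)
          (CovZ.n1 (-42, -834) (by decide +kernel)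
           (CovZ.leaf K2_ok TU_l843 _)
           (CovZ.leaf K2_ok TU_l844 _)))))))
     (CovZ.n1 (-56, -840) (by decide +kernel)
      (CovZ.n2 (-56, -832) (by decide +kernel)
       (CovZ.n2 (-52, -836) (by decide +kernel)
        (CovZ.n2 (-56, -836) (by decide +kernel)
         (CovZ.leaf K2_ok TU_l506 _)
         (CovZ.leaf K2_ok TU_l507 _))
        (CovZ.n1 (-52, -832) (by decide +kernel)
         (CovZ.leaf K2_ok TU_l508 _)
         (CovZ.leaf K2_ok TU_l509 _)))
       (CovZ.n1 (-60, -836) (by decide +kernel)
        (CovZ.n2 (-60, -832) (by decide +kernel)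
         (CovZ.leaf K2_ok TU_l510 _)
         (CovZ.leaf K2_ok TU_l511 _))
        (CovZ.n1 (-56, -836) (by decide +kernel)
         (CovZ.leaf K2_ok TU_l512 _)
         (CovZ.leaf K2_ok TU_l513 _))))
      (CovZ.n1 (-48, -840) (by decide +kernel)
       (CovZ.subM 574065463375678568267779 (by decide +kernel)
        (CovZ.n2 (-52, -844) (by decide +kernel)
         (CovZ.n2 (-52, -840) (by decide +kernel)
          (CovZ.n2 (-50, -842) (by decide +kernel)
           (CovZ.leaf K2_ok TU_l514 _)
           (CovZ.leaf K2_ok TU_l515 _))
          (CovZ.n1 (-54, -842) (by decide +kernel)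
           (CovZ.leaf K2_ok TU_l516 _)
           (CovZ.leaf K2_ok TU_l517 _)))
         (CovZ.n1 (-48, -844) (by decide +kernel)
          (CovZ.n2 (-50, -846) (by decide +kernel)
           (CovZ.leaf K2_ok TU_l518 _)
           (CovZ.leaf K2_ok TU_l519 _))
          (CovZ.n1 (-50, -842) (by decide +kernel)
           (CovZ.leaf K2_ok TU_l520 _)
           (CovZ.leaf K2_ok TU_l521 _)))))
       (CovZ.n1 (-52, -836) (by decide +kernel)
        (CovZ.n2 (-48, -836) (by decide +kernel)
         (CovZ.leaf K2_ok TU_l522 _)
         (CovZ.leaf K2_ok TU_l523 _))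
        (CovZ.n1 (-52, -840) (by decide +kernel)
         (CovZ.n2 (-54, -838) (by decide +kernel)
          (CovZ.leaf K2_ok TU_l524 _)
          (CovZ.leaf K2_ok TU_l525 _))
         (CovZ.leaf K2_ok TU_l526 _))))))))

theorem TU_s0_1 : SqZ TU_M TU_L [0, 7, 4, 3] (-128) (-864) 32 0 1 :=
  SqZ.mk (a := (-128)) (b := (-96)) (c := (-832)) (d := (-800)) (by norm_num) (by norm_num) (by norm_num) (by norm_num)
    (CovZ.topM TU_LL 604167761901035714510845 (by decide +kernel) (CovZ.n2 (-112, -816) (by decide +kernel)
    TU_u2
    TU_u3))
    (CovZ.topM TU_LL 604165419888217111396348 (by decide +kernel) (CovZ.n0 (-112, -816) (by decide +kernel)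
    (CovZ.badM (by decide +kernel))
    (CovZ.n1 (-112, -800) (by decide +kernel)
     (CovZ.n2 (-104, -808) (by decide +kernel)
      (CovZ.n2 (-112, -808) (by decide +kernel)
       (CovZ.n2 (-108, -804) (by decide +kernel)
        (CovZ.n2 (-108, -808) (by decide +kernel)
         (CovZ.n2 (-110, -806) (by decide +kernel)
          (CovZ.n2 (-108, -806) (by decide +kernel)
           (CovZ.leaf K2_ok TU_l643 _)
           (CovZ.leaf K2_ok TU_l644 _))
          (CovZ.n1 (-110, -808) (by decide +kernel)
           (CovZ.n2 (-111, -807) (by decide +kernel)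
            (CovZ.leaf K2_ok TU_l979 _)
            (CovZ.leaf K2_ok TU_l980 _))
           (CovZ.leaf K2_ok TU_l645 _)))
         (CovZ.n1 (-106, -806) (by decide +kernel)
          (CovZ.leaf K2_ok TU_l73 _)
          (CovZ.leaf K2_ok TU_l74 _)))
        (CovZ.n1 (-112, -804) (by decide +kernel)
         (CovZ.n2 (-110, -802) (by decide +kernel)
          (CovZ.n2 (-110, -804) (by decide +kernel)
           (CovZ.n2 (-111, -803) (by decide +kernel)
            (CovZ.leaf K2_ok TU_l981 _)
            (CovZ.leaf K2_ok TU_l982 _))
           (CovZ.leaf K2_ok TU_l646 _))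
          (CovZ.n1 (-112, -802) (by decide +kernel)
           (CovZ.leaf K2_ok TU_l983 _)
           (CovZ.n1 (-111, -803) (by decide +kernel)
            (CovZ.leaf K2_ok TU_l984 _)
            (CovZ.leaf K2_ok TU_l985 _))))
         (CovZ.n1 (-110, -806) (by decide +kernel)
          (CovZ.n2 (-112, -806) (by decide +kernel)
           (CovZ.leaf K2_ok TU_l986 _)
           (CovZ.n1 (-111, -807) (by decide +kernel)
            (CovZ.leaf K2_ok TU_l987 _)
            (CovZ.leaf K2_ok TU_l988 _)))
          (CovZ.n1 (-110, -804) (by decide +kernel)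
           (CovZ.leaf K2_ok TU_l647 _)
           (CovZ.n1 (-111, -805) (by decide +kernel)
            (CovZ.leaf K2_ok TU_l989 _)
            (CovZ.leaf K2_ok TU_l990 _))))))
       (CovZ.n1 (-108, -812) (by decide +kernel)
        (CovZ.n2 (-112, -812) (by decide +kernel)
         (CovZ.n2 (-110, -810) (by decide +kernel)
          (CovZ.n2 (-110, -812) (by decide +kernel)
           (CovZ.n2 (-111, -811) (by decide +kernel)
            (CovZ.leaf K2_ok TU_l991 _)
            (CovZ.leaf K2_ok TU_l992 _))
           (CovZ.leaf K2_ok TU_l648 _))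
          (CovZ.subM 445873754989710242861216 (by decide +kernel)
           (CovZ.n1 (-112, -810) (by decide +kernel)
            (CovZ.n2 (-111, -809) (by decide +kernel)
             (CovZ.leaf K2_ok TU_l993 _)
             (CovZ.n1 (-112, -809) (by decide +kernel)
              (CovZ.leaf K2_ok TU_l994 _)
              (CovZ.leaf K2_ok TU_l995 _)))
            (CovZ.n1 (-111, -811) (by decide +kernel)
             (CovZ.leaf K2_ok TU_l996 _)
             (CovZ.leaf K2_ok TU_l997 _)))))
         (CovZ.n1 (-110, -814) (by decide +kernel)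
          (CovZ.n2 (-112, -814) (by decide +kernel)
           (CovZ.leaf K2_ok TU_l998 _)
           (CovZ.n1 (-111, -815) (by decide +kernel)
            (CovZ.leaf K2_ok TU_l999 _)
            (CovZ.leaf K2_ok TU_l1000 _)))
          (CovZ.n1 (-110, -812) (by decide +kernel)
           (CovZ.n2 (-109, -813) (by decide +kernel)
            (CovZ.leaf K2_ok TU_l649 _)
            (CovZ.leaf K2_ok TU_l650 _))
           (CovZ.n1 (-111, -813) (by decide +kernel)
            (CovZ.leaf K2_ok TU_l1001 _)
            (CovZ.leaf K2_ok TU_l1002 _)))))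
        (CovZ.n1 (-108, -808) (by decide +kernel)
         (CovZ.n2 (-106, -810) (by decide +kernel)
          (CovZ.n2 (-108, -810) (by decide +kernel)
           (CovZ.leaf K2_ok TU_l75 _)
           (CovZ.leaf K2_ok TU_l76 _))
          (CovZ.leaf K2_ok TU_l77 _))
         (CovZ.n1 (-110, -810) (by decide +kernel)
          (CovZ.n2 (-110, -808) (by decide +kernel)
           (CovZ.n2 (-109, -809) (by decide +kernel)
            (CovZ.leaf K2_ok TU_l651 _)
            (CovZ.leaf K2_ok TU_l652 _))
           (CovZ.n1 (-111, -809) (by decide +kernel)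
            (CovZ.leaf K2_ok TU_l1003 _)
            (CovZ.leaf K2_ok TU_l1004 _)))
          (CovZ.n1 (-108, -810) (by decide +kernel)
           (CovZ.leaf K2_ok TU_l653 _)
           (CovZ.leaf K2_ok TU_l654 _))))))
      (CovZ.n1 (-104, -800) (by decide +kernel)
       (CovZ.n2 (-100, -804) (by decide +kernel)
        (CovZ.n2 (-104, -804) (by decide +kernel)
         (CovZ.leaf K2_ok TU_l78 _)
         (CovZ.n1 (-102, -806) (by decide +kernel)
          (CovZ.leaf K2_ok TU_l79 _)
          (CovZ.leaf K2_ok TU_l80 _)))
        (CovZ.n1 (-100, -800) (by decide +kernel)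
         (CovZ.leaf K2_ok TU_l81 _)
         (CovZ.leaf K2_ok TU_l82 _)))
       (CovZ.n1 (-108, -804) (by decide +kernel)
        (CovZ.n2 (-108, -800) (by decide +kernel)
         (CovZ.n2 (-106, -802) (by decide +kernel)
          (CovZ.leaf K2_ok TU_l83 _)
          (CovZ.leaf K2_ok TU_l84 _))
         (CovZ.n1 (-110, -802) (by decide +kernel)
          (CovZ.n2 (-110, -800) (by decide +kernel)
           (CovZ.leaf K2_ok TU_l655 _)
           (CovZ.leaf K2_ok TU_l1005 _))
          (CovZ.n1 (-108, -802) (by decide +kernel)
           (CovZ.leaf K2_ok TU_l656 _)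
           (CovZ.leaf K2_ok TU_l657 _))))
        (CovZ.n1 (-104, -804) (by decide +kernel)
         (CovZ.n2 (-106, -806) (by decide +kernel)
          (CovZ.leaf K2_ok TU_l85 _)
          (CovZ.leaf K2_ok TU_l86 _))
         (CovZ.n1 (-106, -802) (by decide +kernel)
          (CovZ.leaf K2_ok TU_l87 _)
          (CovZ.leaf K2_ok TU_l88 _))))))
     (CovZ.subM 9555845777953388497184 (by decide +kernel)
      (CovZ.n1 (-120, -808) (by decide +kernel)
       (CovZ.badM (by decide +kernel))
       (CovZ.n1 (-112, -808) (by decide +kernel)
        (CovZ.subM 73786976303428143104 (by decide +kernel)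
         (CovZ.n2 (-116, -812) (by decide +kernel)
          (CovZ.badM (by decide +kernel))
          (CovZ.n1 (-112, -812) (by decide +kernel)
           (CovZ.n2 (-114, -814) (by decide +kernel)
            (CovZ.badM (by decide +kernel))
            (CovZ.n1 (-112, -814) (by decide +kernel)
             (CovZ.badM (by decide +kernel))
             (CovZ.n1 (-113, -813) (by decide +kernel)
              (CovZ.n2 (-112, -813) (by decide +kernel)
               (CovZ.leaf K2_ok TU_l1006 _)
               (CovZ.badM (by decide +kernel)))
              (CovZ.badM (by decide +kernel)))))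
           (CovZ.badM (by decide +kernel)))))
        (CovZ.n1 (-116, -804) (by decide +kernel)
         (CovZ.n2 (-112, -804) (by decide +kernel)
          (CovZ.badM (by decide +kernel))
          (CovZ.badM (by decide +kernel)))
         (CovZ.badM (by decide +kernel)))))))))

theorem TU_s1_1 : SqZ TU_M TU_L [0, 7, 4, 3] (-128) (-864) 32 1 1 :=
  SqZ.mk (a := (-96)) (b := (-64)) (c := (-832)) (d := (-800)) (by norm_num) (by norm_num) (by norm_num) (by norm_num)
    (CovZ.topM TU_LL 604443310124144083861503 (by decide +kernel) (CovZ.n2 (-80, -816) (by decide +kernel)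
    (CovZ.n2 (-64, -816) (by decide +kernel)
     (CovZ.n2 (-72, -824) (by decide +kernel)
      (CovZ.n2 (-72, -816) (by decide +kernel)
       (CovZ.n2 (-68, -820) (by decide +kernel)
        (CovZ.leaf K2_ok TU_l291 _)
        (CovZ.leaf K2_ok TU_l292 _))
       (CovZ.n1 (-76, -820) (by decide +kernel)
        (CovZ.leaf K2_ok TU_l293 _)
        (CovZ.n1 (-72, -820) (by decide +kernel)
         (CovZ.leaf K2_ok TU_l294 _)
         (CovZ.leaf K2_ok TU_l295 _))))
      (CovZ.n1 (-64, -824) (by decide +kernel)
       (CovZ.n2 (-68, -828) (by decide +kernel)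
        (CovZ.leaf K2_ok TU_l296 _)
        (CovZ.n1 (-64, -828) (by decide +kernel)
         (CovZ.leaf K2_ok TU_l297 _)
         (CovZ.leaf K2_ok TU_l298 _)))
       (CovZ.n1 (-68, -820) (by decide +kernel)
        (CovZ.n2 (-64, -820) (by decide +kernel)
         (CovZ.leaf K2_ok TU_l299 _)
         (CovZ.leaf K2_ok TU_l300 _))
        (CovZ.leaf K2_ok TU_l301 _))))
     (CovZ.n1 (-72, -808) (by decide +kernel)
      (CovZ.n2 (-64, -808) (by decide +kernel)
       (CovZ.n2 (-68, -812) (by decide +kernel)
        (CovZ.leaf K2_ok TU_l302 _)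
        (CovZ.n1 (-64, -812) (by decide +kernel)
         (CovZ.leaf K2_ok TU_l303 _)
         (CovZ.leaf K2_ok TU_l304 _)))
       (CovZ.n1 (-68, -804) (by decide +kernel)
        (CovZ.n2 (-64, -804) (by decide +kernel)
         (CovZ.leaf K2_ok TU_l305 _)
         (CovZ.leaf K2_ok TU_l306 _))
        (CovZ.leaf K2_ok TU_l307 _)))
      (CovZ.n1 (-72, -816) (by decide +kernel)
       (CovZ.n2 (-76, -812) (by decide +kernel)
        (CovZ.leaf K2_ok TU_l308 _)
        (CovZ.leaf K2_ok TU_l309 _))
       (CovZ.n1 (-68, -812) (by decide +kernel)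
        (CovZ.leaf K2_ok TU_l310 _)
        (CovZ.leaf K2_ok TU_l311 _)))))
    (CovZ.n1 (-80, -832) (by decide +kernel)
     (CovZ.n2 (-88, -824) (by decide +kernel)
      (CovZ.n2 (-80, -824) (by decide +kernel)
       (CovZ.n2 (-84, -828) (by decide +kernel)
        (CovZ.leaf K2_ok TU_l312 _)
        (CovZ.n1 (-80, -828) (by decide +kernel)
         (CovZ.leaf K2_ok TU_l313 _)
         (CovZ.leaf K2_ok TU_l314 _)))
       (CovZ.n1 (-84, -820) (by decide +kernel)
        (CovZ.leaf K2_ok TU_l315 _)
        (CovZ.leaf K2_ok TU_l316 _)))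
      (CovZ.n1 (-88, -832) (by decide +kernel)
       (CovZ.n2 (-92, -828) (by decide +kernel)
        (CovZ.n2 (-88, -828) (by decide +kernel)
         (CovZ.leaf K2_ok TU_l317 _)
         (CovZ.leaf K2_ok TU_l318 _))
        (CovZ.leaf K2_ok TU_l319 _))
       (CovZ.n1 (-84, -828) (by decide +kernel)
        (CovZ.n2 (-84, -832) (by decide +kernel)
         (CovZ.leaf K2_ok TU_l320 _)
         (CovZ.leaf K2_ok TU_l321 _))
        (CovZ.leaf K2_ok TU_l322 _))))
     (CovZ.n1 (-72, -824) (by decide +kernel)
      (CovZ.n2 (-72, -832) (by decide +kernel)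
       (CovZ.n2 (-76, -828) (by decide +kernel)
        (CovZ.n2 (-72, -828) (by decide +kernel)
         (CovZ.leaf K2_ok TU_l323 _)
         (CovZ.leaf K2_ok TU_l324 _))
        (CovZ.n1 (-76, -832) (by decide +kernel)
         (CovZ.leaf K2_ok TU_l325 _)
         (CovZ.leaf K2_ok TU_l326 _)))
       (CovZ.n1 (-68, -828) (by decide +kernel)
        (CovZ.n2 (-68, -832) (by decide +kernel)
         (CovZ.leaf K2_ok TU_l327 _)
         (CovZ.leaf K2_ok TU_l328 _))
        (CovZ.leaf K2_ok TU_l329 _)))
      (CovZ.n1 (-80, -824) (by decide +kernel)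
       (CovZ.n2 (-76, -820) (by decide +kernel)
        (CovZ.leaf K2_ok TU_l330 _)
        (CovZ.leaf K2_ok TU_l331 _))
       (CovZ.n1 (-76, -828) (by decide +kernel)
        (CovZ.leaf K2_ok TU_l332 _)
        (CovZ.leaf K2_ok TU_l333 _)))))))
    (CovZ.topM TU_LL 604461756868217794461695 (by decide +kernel) (CovZ.n0 (-80, -816) (by decide +kernel)
    (CovZ.n2 (-96, -816) (by decide +kernel)
     (CovZ.n2 (-88, -808) (by decide +kernel)
      (CovZ.n2 (-88, -816) (by decide +kernel)
       (CovZ.n2 (-92, -812) (by decide +kernel)
        (CovZ.leaf K2_ok TU_l334 _)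
        (CovZ.leaf K2_ok TU_l335 _))
       (CovZ.leaf K2_ok TU_l336 _))
      (CovZ.n1 (-96, -808) (by decide +kernel)
       (CovZ.leaf K2_ok TU_l337 _)
       (CovZ.n1 (-92, -812) (by decide +kernel)
        (CovZ.leaf K2_ok TU_l338 _)
        (CovZ.leaf K2_ok TU_l339 _))))
     (CovZ.n1 (-88, -824) (by decide +kernel)
      (CovZ.n2 (-96, -824) (by decide +kernel)
       (CovZ.n2 (-92, -820) (by decide +kernel)
        (CovZ.leaf K2_ok TU_l340 _)
        (CovZ.leaf K2_ok TU_l341 _))
       (CovZ.n1 (-92, -828) (by decide +kernel)
        (CovZ.n2 (-96, -828) (by decide +kernel)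
         (CovZ.leaf K2_ok TU_l342 _)
         (CovZ.leaf K2_ok TU_l343 _))
        (CovZ.leaf K2_ok TU_l344 _)))
      (CovZ.n1 (-88, -816) (by decide +kernel)
       (CovZ.n2 (-84, -820) (by decide +kernel)
        (CovZ.leaf K2_ok TU_l345 _)
        (CovZ.leaf K2_ok TU_l346 _))
       (CovZ.n1 (-92, -820) (by decide +kernel)
        (CovZ.leaf K2_ok TU_l347 _)
        (CovZ.leaf K2_ok TU_l348 _)))))
    (CovZ.n1 (-80, -800) (by decide +kernel)
     (CovZ.n2 (-72, -808) (by decide +kernel)
      (CovZ.n2 (-80, -808) (by decide +kernel)
       (CovZ.leaf K2_ok TU_l349 _)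
       (CovZ.n1 (-76, -812) (by decide +kernel)
        (CovZ.leaf K2_ok TU_l350 _)
        (CovZ.leaf K2_ok TU_l351 _)))
      (CovZ.n1 (-72, -800) (by decide +kernel)
       (CovZ.n2 (-68, -804) (by decide +kernel)
        (CovZ.leaf K2_ok TU_l352 _)
        (CovZ.leaf K2_ok TU_l353 _))
       (CovZ.n1 (-76, -804) (by decide +kernel)
        (CovZ.leaf K2_ok TU_l354 _)
        (CovZ.n1 (-72, -804) (by decide +kernel)
         (CovZ.leaf K2_ok TU_l355 _)
         (CovZ.leaf K2_ok TU_l356 _)))))
     (CovZ.n1 (-88, -808) (by decide +kernel)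
      (CovZ.n2 (-88, -800) (by decide +kernel)
       (CovZ.leaf K2_ok TU_l357 _)
       (CovZ.n1 (-92, -804) (by decide +kernel)
        (CovZ.leaf K2_ok TU_l358 _)
        (CovZ.leaf K2_ok TU_l359 _)))
      (CovZ.n1 (-80, -808) (by decide +kernel)
       (CovZ.n2 (-84, -812) (by decide +kernel)
        (CovZ.leaf K2_ok TU_l360 _)
        (CovZ.leaf K2_ok TU_l361 _))
       (CovZ.n1 (-84, -804) (by decide +kernel)
        (CovZ.leaf K2_ok TU_l362 _)
        (CovZ.leaf K2_ok TU_l363 _)))))))

theorem TU_s2_1 : SqZ TU_M TU_L [0, 7, 4, 3] (-128) (-864) 32 2 1 :=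
  SqZ.mk (a := (-64)) (b := (-32)) (c := (-832)) (d := (-800)) (by norm_num) (by norm_num) (by norm_num) (by norm_num)
    (CovZ.topM TU_LL 584225587381312277408007 (by decide +kernel) (CovZ.n2 (-48, -816) (by decide +kernel)
    (CovZ.subM 168015286896528455632899 (by decide +kernel)
     (CovZ.n2 (-32, -816) (by decide +kernel)
      (CovZ.n2 (-40, -824) (by decide +kernel)
       (CovZ.n2 (-40, -816) (by decide +kernel)
        (CovZ.subM 153479216537648146417667 (by decide +kernel)
         (CovZ.n2 (-36, -820) (by decide +kernel)
          (CovZ.n2 (-40, -820) (by decide +kernel)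
           (CovZ.subM 2 (by decide +kernel)
            (CovZ.n2 (-38, -818) (by decide +kernel)
             (CovZ.n2 (-38, -820) (by decide +kernel)
              (CovZ.n2 (-39, -819) (by decide +kernel)
               (CovZ.badM (by decide +kernel))
               (CovZ.leaf K2_ok TU_l1068 _))
              (CovZ.badM (by decide +kernel)))
             (CovZ.n1 (-40, -818) (by decide +kernel)
              (CovZ.badM (by decide +kernel))
              (CovZ.n1 (-39, -819) (by decide +kernel)
               (CovZ.leaf K2_ok TU_l1069 _)
               (CovZ.badM (by decide +kernel))))))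
           (CovZ.n1 (-38, -822) (by decide +kernel)
            (CovZ.n2 (-40, -822) (by decide +kernel)
             (CovZ.leaf K2_ok TU_l845 _)
             (CovZ.leaf K2_ok TU_l846 _))
            (CovZ.n1 (-38, -820) (by decide +kernel)
             (CovZ.leaf K2_ok TU_l1070 _)
             (CovZ.leaf K2_ok TU_l1071 _))))
          (CovZ.badM (by decide +kernel))))
        (CovZ.n1 (-44, -820) (by decide +kernel)
         (CovZ.n2 (-44, -816) (by decide +kernel)
          (CovZ.n2 (-42, -818) (by decide +kernel)
           (CovZ.leaf K2_ok TU_l847 _)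
           (CovZ.badM (by decide +kernel)))
          (CovZ.n1 (-46, -818) (by decide +kernel)
           (CovZ.leaf K2_ok TU_l848 _)
           (CovZ.leaf K2_ok TU_l849 _)))
         (CovZ.subM 153774364442827499243523 (by decide +kernel)
          (CovZ.n1 (-40, -820) (by decide +kernel)
           (CovZ.n2 (-42, -822) (by decide +kernel)
            (CovZ.leaf K2_ok TU_l850 _)
            (CovZ.leaf K2_ok TU_l851 _))
           (CovZ.n1 (-42, -818) (by decide +kernel)
            (CovZ.n2 (-40, -818) (by decide +kernel)
             (CovZ.leaf K2_ok TU_l1072 _)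
             (CovZ.badM (by decide +kernel)))
            (CovZ.leaf K2_ok TU_l852 _))))))
       (CovZ.subM 2363489085544625866755 (by decide +kernel)
        (CovZ.n1 (-32, -824) (by decide +kernel)
         (CovZ.n2 (-36, -828) (by decide +kernel)
          (CovZ.n2 (-36, -824) (by decide +kernel)
           (CovZ.n2 (-34, -826) (by decide +kernel)
            (CovZ.leaf K2_ok TU_l853 _)
            (CovZ.leaf K2_ok TU_l1073 _))
           (CovZ.leaf K2_ok TU_l854 _))
          (CovZ.n1 (-32, -828) (by decide +kernel)
           (CovZ.leaf K2_ok TU_l855 _)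
           (CovZ.leaf K2_ok TU_l856 _)))
         (CovZ.n1 (-36, -820) (by decide +kernel)
          (CovZ.badM (by decide +kernel))
          (CovZ.n1 (-36, -824) (by decide +kernel)
           (CovZ.n2 (-38, -822) (by decide +kernel)
            (CovZ.n2 (-36, -822) (by decide +kernel)
             (CovZ.leaf K2_ok TU_l1074 _)
             (CovZ.leaf K2_ok TU_l1075 _))
            (CovZ.leaf K2_ok TU_l857 _))
           (CovZ.subM 1099511627778 (by decide +kernel)
            (CovZ.n1 (-34, -822) (by decide +kernel)
             (CovZ.n2 (-34, -824) (by decide +kernel)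
              (CovZ.leaf K2_ok TU_l1076 _)
              (CovZ.leaf K2_ok TU_l1077 _))
             (CovZ.n1 (-36, -822) (by decide +kernel)
              (CovZ.n2 (-35, -821) (by decide +kernel)
               (CovZ.leaf K2_ok TU_l1078 _)
               (CovZ.leaf K2_ok TU_l1079 _))
              (CovZ.leaf K2_ok TU_l1080 _)))))))))
      (CovZ.n1 (-40, -808) (by decide +kernel)
       (CovZ.badM (by decide +kernel))
       (CovZ.n1 (-40, -816) (by decide +kernel)
        (CovZ.n2 (-44, -812) (by decide +kernel)
         (CovZ.badM (by decide +kernel))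
         (CovZ.n1 (-44, -816) (by decide +kernel)
          (CovZ.n2 (-46, -814) (by decide +kernel)
           (CovZ.n2 (-44, -814) (by decide +kernel)
            (CovZ.n2 (-45, -815) (by decide +kernel)
             (CovZ.badM (by decide +kernel))
             (CovZ.badM (by decide +kernel)))
            (CovZ.badM (by decide +kernel)))
           (CovZ.leaf K2_ok TU_l858 _))
          (CovZ.badM (by decide +kernel))))
        (CovZ.badM (by decide +kernel))))))
    (CovZ.n1 (-48, -832) (by decide +kernel)
     (CovZ.n2 (-56, -824) (by decide +kernel)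
      (CovZ.n2 (-48, -824) (by decide +kernel)
       (CovZ.n2 (-52, -828) (by decide +kernel)
        (CovZ.n2 (-52, -824) (by decide +kernel)
         (CovZ.leaf K2_ok TU_l859 _)
         (CovZ.leaf K2_ok TU_l860 _))
        (CovZ.n1 (-48, -828) (by decide +kernel)
         (CovZ.leaf K2_ok TU_l861 _)
         (CovZ.leaf K2_ok TU_l862 _)))
       (CovZ.n1 (-52, -820) (by decide +kernel)
        (CovZ.n2 (-48, -820) (by decide +kernel)
         (CovZ.n2 (-50, -822) (by decide +kernel)
          (CovZ.leaf K2_ok TU_l863 _)
          (CovZ.leaf K2_ok TU_l864 _))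
         (CovZ.leaf K2_ok TU_l865 _))
        (CovZ.n1 (-52, -824) (by decide +kernel)
         (CovZ.leaf K2_ok TU_l866 _)
         (CovZ.leaf K2_ok TU_l867 _))))
      (CovZ.n1 (-56, -832) (by decide +kernel)
       (CovZ.n2 (-60, -828) (by decide +kernel)
        (CovZ.n2 (-56, -828) (by decide +kernel)
         (CovZ.leaf K2_ok TU_l527 _)
         (CovZ.leaf K2_ok TU_l528 _))
        (CovZ.n1 (-60, -832) (by decide +kernel)
         (CovZ.leaf K2_ok TU_l529 _)
         (CovZ.leaf K2_ok TU_l530 _)))
       (CovZ.n1 (-52, -828) (by decide +kernel)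
        (CovZ.n2 (-52, -832) (by decide +kernel)
         (CovZ.leaf K2_ok TU_l531 _)
         (CovZ.leaf K2_ok TU_l868 _))
        (CovZ.leaf K2_ok TU_l532 _))))
     (CovZ.n1 (-40, -824) (by decide +kernel)
      (CovZ.subM 267148959165354891821319 (by decide +kernel)
       (CovZ.n2 (-40, -832) (by decide +kernel)
        (CovZ.n2 (-44, -828) (by decide +kernel)
         (CovZ.n2 (-40, -828) (by decide +kernel)
          (CovZ.n2 (-42, -830) (by decide +kernel)
           (CovZ.leaf K2_ok TU_l869 _)
           (CovZ.leaf K2_ok TU_l870 _))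
          (CovZ.n1 (-42, -826) (by decide +kernel)
           (CovZ.leaf K2_ok TU_l871 _)
           (CovZ.leaf K2_ok TU_l872 _)))
         (CovZ.n1 (-44, -832) (by decide +kernel)
          (CovZ.leaf K2_ok TU_l873 _)
          (CovZ.leaf K2_ok TU_l874 _)))
        (CovZ.subM 40179318940283730657543 (by decide +kernel)
         (CovZ.n1 (-36, -828) (by decide +kernel)
          (CovZ.n2 (-36, -832) (by decide +kernel)
           (CovZ.n2 (-38, -830) (by decide +kernel)
            (CovZ.leaf K2_ok TU_l875 _)
            (CovZ.leaf K2_ok TU_l876 _))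
           (CovZ.leaf K2_ok TU_l877 _))
          (CovZ.n1 (-40, -828) (by decide +kernel)
           (CovZ.leaf K2_ok TU_l878 _)
           (CovZ.n1 (-38, -830) (by decide +kernel)
            (CovZ.leaf K2_ok TU_l879 _)
            (CovZ.leaf K2_ok TU_l880 _)))))))
      (CovZ.n1 (-48, -824) (by decide +kernel)
       (CovZ.subM 205766697825149820930055 (by decide +kernel)
        (CovZ.n2 (-44, -820) (by decide +kernel)
         (CovZ.n2 (-44, -824) (by decide +kernel)
          (CovZ.n2 (-46, -822) (by decide +kernel)
           (CovZ.leaf K2_ok TU_l881 _)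
           (CovZ.leaf K2_ok TU_l882 _))
          (CovZ.leaf K2_ok TU_l883 _))
         (CovZ.n1 (-48, -820) (by decide +kernel)
          (CovZ.leaf K2_ok TU_l884 _)
          (CovZ.leaf K2_ok TU_l885 _))))
       (CovZ.n1 (-44, -828) (by decide +kernel)
        (CovZ.n2 (-48, -828) (by decide +kernel)
         (CovZ.leaf K2_ok TU_l886 _)
         (CovZ.leaf K2_ok TU_l887 _))
        (CovZ.n1 (-44, -824) (by decide +kernel)
         (CovZ.n2 (-42, -826) (by decide +kernel)
          (CovZ.leaf K2_ok TU_l888 _)
          (CovZ.leaf K2_ok TU_l889 _))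
         (CovZ.leaf K2_ok TU_l890 _))))))))
    (CovZ.topM TU_LL 584225587381329491392775 (by decide +kernel) (CovZ.n0 (-48, -816) (by decide +kernel)
    (CovZ.n2 (-64, -816) (by decide +kernel)
     (CovZ.n2 (-56, -808) (by decide +kernel)
      (CovZ.n2 (-56, -816) (by decide +kernel)
       (CovZ.n2 (-60, -812) (by decide +kernel)
        (CovZ.n2 (-56, -812) (by decide +kernel)
         (CovZ.leaf K2_ok TU_l891 _)
         (CovZ.leaf K2_ok TU_l892 _))
        (CovZ.n1 (-60, -816) (by decide +kernel)
         (CovZ.leaf K2_ok TU_l533 _)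
         (CovZ.leaf K2_ok TU_l893 _)))
       (CovZ.subM 356956176576388727388166 (by decide +kernel)
        (CovZ.n1 (-52, -812) (by decide +kernel)
         (CovZ.n2 (-52, -816) (by decide +kernel)
          (CovZ.leaf K2_ok TU_l894 _)
          (CovZ.leaf K2_ok TU_l895 _))
         (CovZ.n1 (-56, -812) (by decide +kernel)
          (CovZ.leaf K2_ok TU_l896 _)
          (CovZ.leaf K2_ok TU_l897 _)))))
      (CovZ.n1 (-64, -808) (by decide +kernel)
       (CovZ.n2 (-60, -804) (by decide +kernel)
        (CovZ.n2 (-60, -808) (by decide +kernel)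
         (CovZ.leaf K2_ok TU_l534 _)
         (CovZ.leaf K2_ok TU_l898 _))
        (CovZ.n1 (-64, -804) (by decide +kernel)
         (CovZ.leaf K2_ok TU_l535 _)
         (CovZ.leaf K2_ok TU_l536 _)))
       (CovZ.n1 (-60, -812) (by decide +kernel)
        (CovZ.leaf K2_ok TU_l537 _)
        (CovZ.leaf K2_ok TU_l538 _))))
     (CovZ.n1 (-56, -824) (by decide +kernel)
      (CovZ.n2 (-64, -824) (by decide +kernel)
       (CovZ.n2 (-60, -820) (by decide +kernel)
        (CovZ.leaf K2_ok TU_l539 _)
        (CovZ.leaf K2_ok TU_l540 _))
       (CovZ.n1 (-60, -828) (by decide +kernel)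
        (CovZ.leaf K2_ok TU_l541 _)
        (CovZ.leaf K2_ok TU_l542 _)))
      (CovZ.n1 (-56, -816) (by decide +kernel)
       (CovZ.n2 (-52, -820) (by decide +kernel)
        (CovZ.n2 (-56, -820) (by decide +kernel)
         (CovZ.leaf K2_ok TU_l899 _)
         (CovZ.leaf K2_ok TU_l900 _))
        (CovZ.n1 (-52, -816) (by decide +kernel)
         (CovZ.leaf K2_ok TU_l901 _)
         (CovZ.leaf K2_ok TU_l902 _)))
       (CovZ.n1 (-60, -820) (by decide +kernel)
        (CovZ.n2 (-60, -816) (by decide +kernel)
         (CovZ.leaf K2_ok TU_l903 _)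
         (CovZ.leaf K2_ok TU_l543 _))
        (CovZ.n1 (-56, -820) (by decide +kernel)
         (CovZ.leaf K2_ok TU_l904 _)
         (CovZ.leaf K2_ok TU_l905 _))))))
    (CovZ.subM 319057191343282320871430 (by decide +kernel)
     (CovZ.n1 (-48, -800) (by decide +kernel)
      (CovZ.n2 (-40, -808) (by decide +kernel)
       (CovZ.n2 (-48, -808) (by decide +kernel)
        (CovZ.badM (by decide +kernel))
        (CovZ.n1 (-44, -812) (by decide +kernel)
         (CovZ.n2 (-48, -812) (by decide +kernel)
          (CovZ.badM (by decide +kernel))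
          (CovZ.n1 (-46, -814) (by decide +kernel)
           (CovZ.n2 (-48, -814) (by decide +kernel)
            (CovZ.leaf K2_ok TU_l906 _)
            (CovZ.leaf K2_ok TU_l907 _))
           (CovZ.badM (by decide +kernel))))
         (CovZ.badM (by decide +kernel))))
       (CovZ.badM (by decide +kernel)))
      (CovZ.n1 (-56, -808) (by decide +kernel)
       (CovZ.n2 (-56, -800) (by decide +kernel)
        (CovZ.subM 16825736438508276416516 (by decide +kernel)
         (CovZ.n2 (-52, -804) (by decide +kernel)
          (CovZ.n2 (-56, -804) (by decide +kernel)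
           (CovZ.badM (by decide +kernel))
           (CovZ.n1 (-54, -806) (by decide +kernel)
            (CovZ.n2 (-56, -806) (by decide +kernel)
             (CovZ.badM (by decide +kernel))
             (CovZ.leaf K2_ok TU_l908 _))
            (CovZ.badM (by decide +kernel))))
          (CovZ.badM (by decide +kernel))))
        (CovZ.n1 (-60, -804) (by decide +kernel)
         (CovZ.n2 (-60, -800) (by decide +kernel)
          (CovZ.n2 (-58, -802) (by decide +kernel)
           (CovZ.n2 (-60, -802) (by decide +kernel)
            (CovZ.badM (by decide +kernel))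
            (CovZ.leaf K2_ok TU_l909 _))
           (CovZ.badM (by decide +kernel)))
          (CovZ.n1 (-62, -802) (by decide +kernel)
           (CovZ.n2 (-62, -800) (by decide +kernel)
            (CovZ.leaf K2_ok TU_l910 _)
            (CovZ.leaf K2_ok TU_l544 _))
           (CovZ.n1 (-60, -802) (by decide +kernel)
            (CovZ.leaf K2_ok TU_l911 _)
            (CovZ.leaf K2_ok TU_l912 _))))
         (CovZ.subM 16825736438508276416516 (by decide +kernel)
          (CovZ.n1 (-56, -804) (by decide +kernel)
           (CovZ.n2 (-58, -806) (by decide +kernel)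
            (CovZ.n2 (-58, -804) (by decide +kernel)
             (CovZ.leaf K2_ok TU_l913 _)
             (CovZ.leaf K2_ok TU_l914 _))
            (CovZ.n1 (-56, -806) (by decide +kernel)
             (CovZ.leaf K2_ok TU_l915 _)
             (CovZ.leaf K2_ok TU_l916 _)))
           (CovZ.n1 (-58, -802) (by decide +kernel)
            (CovZ.badM (by decide +kernel))
            (CovZ.n1 (-58, -804) (by decide +kernel)
             (CovZ.leaf K2_ok TU_l917 _)
             (CovZ.badM (by decide +kernel))))))))
       (CovZ.n1 (-48, -808) (by decide +kernel)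
        (CovZ.n2 (-52, -812) (by decide +kernel)
         (CovZ.n2 (-52, -808) (by decide +kernel)
          (CovZ.n2 (-50, -810) (by decide +kernel)
           (CovZ.n2 (-52, -810) (by decide +kernel)
            (CovZ.leaf K2_ok TU_l918 _)
            (CovZ.leaf K2_ok TU_l919 _))
           (CovZ.badM (by decide +kernel)))
          (CovZ.n1 (-54, -810) (by decide +kernel)
           (CovZ.n2 (-54, -808) (by decide +kernel)
            (CovZ.leaf K2_ok TU_l920 _)
            (CovZ.leaf K2_ok TU_l921 _))
           (CovZ.n1 (-52, -810) (by decide +kernel)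
            (CovZ.leaf K2_ok TU_l922 _)
            (CovZ.leaf K2_ok TU_l923 _))))
         (CovZ.n1 (-48, -812) (by decide +kernel)
          (CovZ.n2 (-50, -814) (by decide +kernel)
           (CovZ.leaf K2_ok TU_l924 _)
           (CovZ.n1 (-48, -814) (by decide +kernel)
            (CovZ.leaf K2_ok TU_l925 _)
            (CovZ.leaf K2_ok TU_l926 _)))
          (CovZ.n1 (-50, -810) (by decide +kernel)
           (CovZ.badM (by decide +kernel))
           (CovZ.n1 (-50, -812) (by decide +kernel)
            (CovZ.leaf K2_ok TU_l927 _)
            (CovZ.leaf K2_ok TU_l928 _)))))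
        (CovZ.subM 16825736438508276416516 (by decide +kernel)
         (CovZ.n1 (-52, -804) (by decide +kernel)
          (CovZ.badM (by decide +kernel))
          (CovZ.n1 (-52, -808) (by decide +kernel)
           (CovZ.n2 (-54, -806) (by decide +kernel)
            (CovZ.badM (by decide +kernel))
            (CovZ.n1 (-54, -808) (by decide +kernel)
             (CovZ.leaf K2_ok TU_l929 _)
             (CovZ.leaf K2_ok TU_l1081 _)))
           (CovZ.badM (by decide +kernel)))))))))))

theorem TU_s0_2 : SqZ TU_M TU_L [0, 7, 4, 3] (-128) (-864) 32 0 2 :=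
  SqZ.mk (a := (-128)) (b := (-96)) (c := (-800)) (d := (-768)) (by norm_num) (by norm_num) (by norm_num) (by norm_num)
    (CovZ.topM TU_LL 443604671239173477203964 (by decide +kernel) (CovZ.n2 (-112, -784) (by decide +kernel)
    TU_u4
    TU_u5))
    (CovZ.topM TU_LL 438753026676579725297300 (by decide +kernel) (CovZ.n0 (-112, -784) (by decide +kernel)
    (CovZ.subM 8847634203648 (by decide +kernel)
     (CovZ.n2 (-128, -784) (by decide +kernel)
      (CovZ.n2 (-120, -776) (by decide +kernel)
       (CovZ.n2 (-120, -784) (by decide +kernel)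
        (CovZ.badM (by decide +kernel))
        (CovZ.badM (by decide +kernel)))
       (CovZ.badM (by decide +kernel)))
      (CovZ.n1 (-120, -792) (by decide +kernel)
       (CovZ.badM (by decide +kernel))
       (CovZ.n1 (-120, -784) (by decide +kernel)
        (CovZ.n2 (-116, -788) (by decide +kernel)
         (CovZ.badM (by decide +kernel))
         (CovZ.badM (by decide +kernel)))
        (CovZ.badM (by decide +kernel))))))
    (CovZ.subM 96809747502102459973648 (by decide +kernel)
     (CovZ.n1 (-112, -768) (by decide +kernel)
      (CovZ.n2 (-104, -776) (by decide +kernel)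
       (CovZ.subM 21250658760659562397712 (by decide +kernel)
        (CovZ.n2 (-112, -776) (by decide +kernel)
         (CovZ.subM 134217728 (by decide +kernel)
          (CovZ.n2 (-108, -772) (by decide +kernel)
           (CovZ.n2 (-108, -776) (by decide +kernel)
            (CovZ.badM (by decide +kernel))
            (CovZ.n1 (-106, -774) (by decide +kernel)
             (CovZ.n2 (-106, -776) (by decide +kernel)
              (CovZ.badM (by decide +kernel))
              (CovZ.badM (by decide +kernel)))
             (CovZ.badM (by decide +kernel))))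
           (CovZ.badM (by decide +kernel))))
         (CovZ.n1 (-108, -780) (by decide +kernel)
          (CovZ.subM 21250658180112926638080 (by decide +kernel)
           (CovZ.n2 (-112, -780) (by decide +kernel)
            (CovZ.n2 (-110, -778) (by decide +kernel)
             (CovZ.n2 (-110, -780) (by decide +kernel)
              (CovZ.badM (by decide +kernel))
              (CovZ.leaf K2_ok TU_l1051 _))
             (CovZ.badM (by decide +kernel)))
            (CovZ.n1 (-110, -782) (by decide +kernel)
             (CovZ.badM (by decide +kernel))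
             (CovZ.n1 (-110, -780) (by decide +kernel)
              (CovZ.leaf K2_ok TU_l1052 _)
              (CovZ.badM (by decide +kernel))))))
          (CovZ.subM 2361192266226397609984 (by decide +kernel)
           (CovZ.n1 (-108, -776) (by decide +kernel)
            (CovZ.n2 (-106, -778) (by decide +kernel)
             (CovZ.leaf K2_ok TU_l1053 _)
             (CovZ.n1 (-106, -776) (by decide +kernel)
              (CovZ.leaf K2_ok TU_l701 _)
              (CovZ.badM (by decide +kernel))))
            (CovZ.n1 (-110, -778) (by decide +kernel)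
             (CovZ.badM (by decide +kernel))
             (CovZ.n1 (-108, -778) (by decide +kernel)
              (CovZ.n2 (-109, -779) (by decide +kernel)
               (CovZ.badM (by decide +kernel))
               (CovZ.leaf K2_ok TU_l1054 _))
              (CovZ.badM (by decide +kernel)))))))))
       (CovZ.subM 75557863727159880712192 (by decide +kernel)
        (CovZ.n1 (-104, -768) (by decide +kernel)
         (CovZ.n2 (-100, -772) (by decide +kernel)
          (CovZ.n2 (-104, -772) (by decide +kernel)
           (CovZ.badM (by decide +kernel))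
           (CovZ.n1 (-102, -774) (by decide +kernel)
            (CovZ.n2 (-104, -774) (by decide +kernel)
             (CovZ.badM (by decide +kernel))
             (CovZ.leaf K2_ok TU_l1055 _))
            (CovZ.badM (by decide +kernel))))
          (CovZ.badM (by decide +kernel)))
         (CovZ.badM (by decide +kernel)))))
      (CovZ.badM (by decide +kernel))))))

theorem TU_s1_2 : SqZ TU_M TU_L [0, 7, 4, 3] (-128) (-864) 32 1 2 :=
  SqZ.mk (a := (-96)) (b := (-64)) (c := (-800)) (d := (-768)) (by norm_num) (by norm_num) (by norm_num) (by norm_num)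
    (CovZ.topM TU_LL 433275862638708018593534 (by decide +kernel) (CovZ.n2 (-80, -784) (by decide +kernel)
    (CovZ.subM 16710463146871303308332 (by decide +kernel)
     (CovZ.n2 (-64, -784) (by decide +kernel)
      (CovZ.n2 (-72, -792) (by decide +kernel)
       (CovZ.n2 (-72, -784) (by decide +kernel)
        (CovZ.subM 2517981410487359766532 (by decide +kernel)
         (CovZ.n2 (-68, -788) (by decide +kernel)
          (CovZ.n2 (-72, -788) (by decide +kernel)
           (CovZ.badM (by decide +kernel))
           (CovZ.n1 (-70, -790) (by decide +kernel)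
            (CovZ.n2 (-72, -790) (by decide +kernel)
             (CovZ.leaf K2_ok TU_l1059 _)
             (CovZ.n1 (-71, -791) (by decide +kernel)
              (CovZ.leaf K2_ok TU_l755 _)
              (CovZ.leaf K2_ok TU_l1060 _)))
            (CovZ.badM (by decide +kernel))))
          (CovZ.badM (by decide +kernel))))
        (CovZ.n1 (-76, -788) (by decide +kernel)
         (CovZ.subM 2379629985509874335756 (by decide +kernel)
          (CovZ.n2 (-76, -784) (by decide +kernel)
           (CovZ.n2 (-74, -786) (by decide +kernel)
            (CovZ.n2 (-76, -786) (by decide +kernel)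
             (CovZ.leaf K2_ok TU_l1061 _)
             (CovZ.leaf K2_ok TU_l756 _))
            (CovZ.badM (by decide +kernel)))
           (CovZ.n1 (-78, -786) (by decide +kernel)
            (CovZ.leaf K2_ok TU_l757 _)
            (CovZ.n1 (-76, -786) (by decide +kernel)
             (CovZ.leaf K2_ok TU_l758 _)
             (CovZ.leaf K2_ok TU_l759 _)))))
         (CovZ.subM 2517981410487360028708 (by decide +kernel)
          (CovZ.n1 (-72, -788) (by decide +kernel)
           (CovZ.n2 (-74, -790) (by decide +kernel)
            (CovZ.leaf K2_ok TU_l760 _)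
            (CovZ.n1 (-72, -790) (by decide +kernel)
             (CovZ.leaf K2_ok TU_l761 _)
             (CovZ.leaf K2_ok TU_l762 _)))
           (CovZ.n1 (-74, -786) (by decide +kernel)
            (CovZ.badM (by decide +kernel))
            (CovZ.n1 (-74, -788) (by decide +kernel)
             (CovZ.leaf K2_ok TU_l763 _)
             (CovZ.leaf K2_ok TU_l1062 _)))))))
       (CovZ.n1 (-64, -792) (by decide +kernel)
        (CovZ.n2 (-68, -796) (by decide +kernel)
         (CovZ.subM 2520305267895082943492 (by decide +kernel)
          (CovZ.n2 (-68, -792) (by decide +kernel)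
           (CovZ.n2 (-66, -794) (by decide +kernel)
            (CovZ.n2 (-68, -794) (by decide +kernel)
             (CovZ.badM (by decide +kernel))
             (CovZ.leaf K2_ok TU_l764 _))
            (CovZ.badM (by decide +kernel)))
           (CovZ.n1 (-70, -794) (by decide +kernel)
            (CovZ.leaf K2_ok TU_l765 _)
            (CovZ.n1 (-68, -794) (by decide +kernel)
             (CovZ.leaf K2_ok TU_l766 _)
             (CovZ.leaf K2_ok TU_l767 _)))))
         (CovZ.subM 16539811905365779546116 (by decide +kernel)
          (CovZ.n1 (-64, -796) (by decide +kernel)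
           (CovZ.n2 (-66, -798) (by decide +kernel)
            (CovZ.n2 (-66, -796) (by decide +kernel)
             (CovZ.leaf K2_ok TU_l768 _)
             (CovZ.leaf K2_ok TU_l769 _))
            (CovZ.n1 (-64, -798) (by decide +kernel)
             (CovZ.leaf K2_ok TU_l364 _)
             (CovZ.leaf K2_ok TU_l770 _)))
           (CovZ.n1 (-66, -794) (by decide +kernel)
            (CovZ.badM (by decide +kernel))
            (CovZ.n1 (-66, -796) (by decide +kernel)
             (CovZ.leaf K2_ok TU_l771 _)
             (CovZ.badM (by decide +kernel)))))))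
        (CovZ.subM 2517981410487359766532 (by decide +kernel)
         (CovZ.n1 (-68, -788) (by decide +kernel)
          (CovZ.badM (by decide +kernel))
          (CovZ.n1 (-68, -792) (by decide +kernel)
           (CovZ.n2 (-70, -790) (by decide +kernel)
            (CovZ.badM (by decide +kernel))
            (CovZ.n1 (-70, -792) (by decide +kernel)
             (CovZ.leaf K2_ok TU_l772 _)
             (CovZ.leaf K2_ok TU_l1063 _)))
           (CovZ.badM (by decide +kernel)))))))
      (CovZ.subM 2379629985509874335756 (by decide +kernel)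
       (CovZ.n1 (-72, -776) (by decide +kernel)
        (CovZ.badM (by decide +kernel))
        (CovZ.n1 (-72, -784) (by decide +kernel)
         (CovZ.n2 (-76, -780) (by decide +kernel)
          (CovZ.badM (by decide +kernel))
          (CovZ.n1 (-76, -784) (by decide +kernel)
           (CovZ.n2 (-78, -782) (by decide +kernel)
            (CovZ.badM (by decide +kernel))
            (CovZ.leaf K2_ok TU_l773 _))
           (CovZ.badM (by decide +kernel))))
         (CovZ.badM (by decide +kernel)))))))
    (CovZ.n1 (-80, -800) (by decide +kernel)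
     (CovZ.n2 (-88, -792) (by decide +kernel)
      (CovZ.n2 (-80, -792) (by decide +kernel)
       (CovZ.n2 (-84, -796) (by decide +kernel)
        (CovZ.leaf K2_ok TU_l365 _)
        (CovZ.leaf K2_ok TU_l366 _))
       (CovZ.leaf K2_ok TU_l367 _))
      (CovZ.n1 (-88, -800) (by decide +kernel)
       (CovZ.n2 (-92, -796) (by decide +kernel)
        (CovZ.leaf K2_ok TU_l368 _)
        (CovZ.leaf K2_ok TU_l369 _))
       (CovZ.leaf K2_ok TU_l370 _)))
     (CovZ.n1 (-72, -792) (by decide +kernel)
      (CovZ.n2 (-72, -800) (by decide +kernel)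
       (CovZ.n2 (-76, -796) (by decide +kernel)
        (CovZ.n2 (-72, -796) (by decide +kernel)
         (CovZ.leaf K2_ok TU_l371 _)
         (CovZ.leaf K2_ok TU_l774 _))
        (CovZ.leaf K2_ok TU_l372 _))
       (CovZ.subM 54798526595255051691524 (by decide +kernel)
        (CovZ.n1 (-68, -796) (by decide +kernel)
         (CovZ.n2 (-68, -800) (by decide +kernel)
          (CovZ.leaf K2_ok TU_l373 _)
          (CovZ.leaf K2_ok TU_l374 _))
         (CovZ.n1 (-72, -796) (by decide +kernel)
          (CovZ.leaf K2_ok TU_l775 _)
          (CovZ.leaf K2_ok TU_l375 _)))))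
      (CovZ.n1 (-80, -792) (by decide +kernel)
       (CovZ.subM 54821578267748789919788 (by decide +kernel)
        (CovZ.n2 (-76, -788) (by decide +kernel)
         (CovZ.n2 (-76, -792) (by decide +kernel)
          (CovZ.leaf K2_ok TU_l776 _)
          (CovZ.leaf K2_ok TU_l777 _))
         (CovZ.n1 (-80, -788) (by decide +kernel)
          (CovZ.leaf K2_ok TU_l778 _)
          (CovZ.leaf K2_ok TU_l779 _))))
       (CovZ.n1 (-76, -796) (by decide +kernel)
        (CovZ.leaf K2_ok TU_l376 _)
        (CovZ.leaf K2_ok TU_l780 _)))))))
    (CovZ.topM TU_LL 423830841299656064843518 (by decide +kernel) (CovZ.n0 (-80, -784) (by decide +kernel)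
    (CovZ.n2 (-96, -784) (by decide +kernel)
     (CovZ.subM 120773875669456528613452 (by decide +kernel)
      (CovZ.n2 (-88, -776) (by decide +kernel)
       (CovZ.n2 (-88, -784) (by decide +kernel)
        (CovZ.n2 (-92, -780) (by decide +kernel)
         (CovZ.subM 44917981732801525850124 (by decide +kernel)
          (CovZ.n2 (-88, -780) (by decide +kernel)
           (CovZ.leaf K2_ok TU_l781 _)
           (CovZ.n1 (-90, -778) (by decide +kernel)
            (CovZ.n2 (-88, -778) (by decide +kernel)
             (CovZ.leaf K2_ok TU_l782 _)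
             (CovZ.leaf K2_ok TU_l783 _))
            (CovZ.leaf K2_ok TU_l784 _))))
         (CovZ.leaf K2_ok TU_l785 _))
        (CovZ.n1 (-84, -780) (by decide +kernel)
         (CovZ.leaf K2_ok TU_l786 _)
         (CovZ.n1 (-88, -780) (by decide +kernel)
          (CovZ.leaf K2_ok TU_l787 _)
          (CovZ.leaf K2_ok TU_l788 _))))
       (CovZ.n1 (-96, -776) (by decide +kernel)
        (CovZ.subM 36893488765894402056 (by decide +kernel)
         (CovZ.n2 (-92, -772) (by decide +kernel)
          (CovZ.n2 (-92, -776) (by decide +kernel)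
           (CovZ.n2 (-94, -774) (by decide +kernel)
            (CovZ.badM (by decide +kernel))
            (CovZ.leaf K2_ok TU_l1064 _))
           (CovZ.badM (by decide +kernel)))
          (CovZ.n1 (-96, -772) (by decide +kernel)
           (CovZ.badM (by decide +kernel))
           (CovZ.n1 (-94, -774) (by decide +kernel)
            (CovZ.n2 (-96, -774) (by decide +kernel)
             (CovZ.badM (by decide +kernel))
             (CovZ.n1 (-95, -775) (by decide +kernel)
              (CovZ.leaf K2_ok TU_l1065 _)
              (CovZ.badM (by decide +kernel))))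
            (CovZ.badM (by decide +kernel))))))
        (CovZ.n1 (-92, -780) (by decide +kernel)
         (CovZ.n2 (-96, -780) (by decide +kernel)
          (CovZ.leaf K2_ok TU_l789 _)
          (CovZ.leaf K2_ok TU_l790 _))
         (CovZ.subM 37815834394106682941448 (by decide +kernel)
          (CovZ.n1 (-92, -776) (by decide +kernel)
           (CovZ.n2 (-90, -778) (by decide +kernel)
            (CovZ.leaf K2_ok TU_l791 _)
            (CovZ.n1 (-90, -776) (by decide +kernel)
             (CovZ.leaf K2_ok TU_l792 _)
             (CovZ.leaf K2_ok TU_l793 _)))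
           (CovZ.n1 (-94, -778) (by decide +kernel)
            (CovZ.n2 (-94, -776) (by decide +kernel)
             (CovZ.leaf K2_ok TU_l794 _)
             (CovZ.leaf K2_ok TU_l795 _))
            (CovZ.leaf K2_ok TU_l796 _))))))))
     (CovZ.n1 (-88, -792) (by decide +kernel)
      (CovZ.n2 (-96, -792) (by decide +kernel)
       (CovZ.leaf K2_ok TU_l377 _)
       (CovZ.n1 (-92, -796) (by decide +kernel)
        (CovZ.leaf K2_ok TU_l378 _)
        (CovZ.leaf K2_ok TU_l379 _)))
      (CovZ.n1 (-88, -784) (by decide +kernel)
       (CovZ.n2 (-84, -788) (by decide +kernel)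
        (CovZ.leaf K2_ok TU_l380 _)
        (CovZ.leaf K2_ok TU_l797 _))
       (CovZ.n1 (-92, -788) (by decide +kernel)
        (CovZ.leaf K2_ok TU_l798 _)
        (CovZ.leaf K2_ok TU_l381 _)))))
    (CovZ.subM 2379785394885685673996 (by decide +kernel)
     (CovZ.n1 (-80, -768) (by decide +kernel)
      (CovZ.subM 2379629985509874335756 (by decide +kernel)
       (CovZ.n2 (-72, -776) (by decide +kernel)
        (CovZ.n2 (-80, -776) (by decide +kernel)
         (CovZ.badM (by decide +kernel))
         (CovZ.n1 (-76, -780) (by decide +kernel)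
          (CovZ.n2 (-80, -780) (by decide +kernel)
           (CovZ.badM (by decide +kernel))
           (CovZ.n1 (-78, -782) (by decide +kernel)
            (CovZ.n2 (-80, -782) (by decide +kernel)
             (CovZ.leaf K2_ok TU_l1066 _)
             (CovZ.leaf K2_ok TU_l799 _))
            (CovZ.badM (by decide +kernel))))
          (CovZ.badM (by decide +kernel))))
        (CovZ.badM (by decide +kernel))))
      (CovZ.n1 (-88, -776) (by decide +kernel)
       (CovZ.badM (by decide +kernel))
       (CovZ.n1 (-80, -776) (by decide +kernel)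
        (CovZ.n2 (-84, -780) (by decide +kernel)
         (CovZ.subM 2251799813685252 (by decide +kernel)
          (CovZ.n2 (-84, -776) (by decide +kernel)
           (CovZ.n2 (-82, -778) (by decide +kernel)
            (CovZ.leaf K2_ok TU_l800 _)
            (CovZ.badM (by decide +kernel)))
           (CovZ.n1 (-86, -778) (by decide +kernel)
            (CovZ.badM (by decide +kernel))
            (CovZ.n1 (-84, -778) (by decide +kernel)
             (CovZ.leaf K2_ok TU_l803 _)
             (CovZ.badM (by decide +kernel))))))
         (CovZ.n1 (-80, -780) (by decide +kernel)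
          (CovZ.n2 (-82, -782) (by decide +kernel)
           (CovZ.leaf K2_ok TU_l805 _)
           (CovZ.leaf K2_ok TU_l806 _))
          (CovZ.n1 (-82, -778) (by decide +kernel)
           (CovZ.n2 (-80, -778) (by decide +kernel)
            (CovZ.leaf K2_ok TU_l1067 _)
            (CovZ.badM (by decide +kernel)))
           (CovZ.leaf K2_ok TU_l807 _))))
        (CovZ.n1 (-84, -772) (by decide +kernel)
         (CovZ.badM (by decide +kernel))
         (CovZ.n1 (-84, -776) (by decide +kernel)
          (CovZ.badM (by decide +kernel))
          (CovZ.badM (by decide +kernel))))))))))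

theorem TU_s2_2 : SqZ TU_M TU_L [0, 7, 4, 3] (-128) (-864) 32 2 2 :=
  SqZ.mk (a := (-64)) (b := (-32)) (c := (-800)) (d := (-768)) (by norm_num) (by norm_num) (by norm_num) (by norm_num)
    (CovZ.topM TU_LL 16530588533328924639236 (by decide +kernel) (CovZ.n2 (-48, -784) (by decide +kernel)
    (CovZ.badM (by decide +kernel))
    (CovZ.n1 (-48, -800) (by decide +kernel)
     (CovZ.n2 (-56, -792) (by decide +kernel)
      (CovZ.badM (by decide +kernel))
      (CovZ.n1 (-56, -800) (by decide +kernel)
       (CovZ.n2 (-60, -796) (by decide +kernel)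
        (CovZ.badM (by decide +kernel))
        (CovZ.n1 (-60, -800) (by decide +kernel)
         (CovZ.n2 (-62, -798) (by decide +kernel)
          (CovZ.badM (by decide +kernel))
          (CovZ.n1 (-62, -800) (by decide +kernel)
           (CovZ.leaf K2_ok TU_l545 _)
           (CovZ.badM (by decide +kernel))))
         (CovZ.badM (by decide +kernel))))
       (CovZ.badM (by decide +kernel))))
     (CovZ.badM (by decide +kernel)))))
    (CovZ.topM TU_LL 16530606547727434121220 (by decide +kernel) (CovZ.n0 (-48, -784) (by decide +kernel)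
    (CovZ.n2 (-64, -784) (by decide +kernel)
     (CovZ.badM (by decide +kernel))
     (CovZ.n1 (-56, -792) (by decide +kernel)
      (CovZ.n2 (-64, -792) (by decide +kernel)
       (CovZ.badM (by decide +kernel))
       (CovZ.n1 (-60, -796) (by decide +kernel)
        (CovZ.n2 (-64, -796) (by decide +kernel)
         (CovZ.badM (by decide +kernel))
         (CovZ.n1 (-62, -798) (by decide +kernel)
          (CovZ.n2 (-64, -798) (by decide +kernel)
           (CovZ.badM (by decide +kernel))
           (CovZ.leaf K2_ok TU_l546 _))
          (CovZ.badM (by decide +kernel))))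
        (CovZ.badM (by decide +kernel))))
      (CovZ.badM (by decide +kernel))))
    (CovZ.badM (by decide +kernel))))

end Pool.Agent.TET
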