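import Pool.Agent.Helper38_TET.TU_C

/-!
# MP_c7c9bf_co: certificates, family TU
-/

set_option autoImplicit false
set_option maxRecDepth 100000

namespace Pool.Agent.TET

theorem TU_rg0 : ROK [.q ⟨11, -13, -18, 20⟩ ⟨-2436, -1772, 1988, 2220⟩, .q ⟨11, -13, -18, 20⟩ ⟨3947, -3935, 88, -100⟩, .q ⟨11, -13, -18, 20⟩ ⟨3841, 196, -1957, -2080⟩, .q ⟨11, -13, -18, 20⟩ ⟨-421, 3566, -1725, -1420⟩, .q ⟨11, -13, -18, 20⟩ ⟨-2383, 1104, 519, 760⟩] := by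
  refine rok_w (v := ⟨11, -13, -18, 20⟩) (q := 1) (by decide) (by decide) (by decide) TU_sc (k := 1) (by decide) (Q := [(-329, 3986, 111), (-4000, -2, -5), (-1156, -3829, -104), (2643, -3003, -71), (1598, 1203, 38)])
    (P := [⟨3409920, -329, 3986⟩, ⟨-153600, -4000, -2⟩, ⟨-3194880, -1156, -3829⟩, ⟨-2181120, 2643, -3003⟩, ⟨1167360, 1598, 1203⟩]) rfl rfl
    (List.mem_of_getElem? (i := 0) rfl) TU_fr TU_cov ?_
  · intro X Y h
    simp only [List.forall_mem_cons, List.not_mem_nil, false_imp_iff, implies_true, and_true] at h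
    push_cast at h ⊢
    obtain ⟨h0, h1, h2, h3, h4⟩ := h
    refine ⟨⟨?_, ?_⟩, ?_, ?_⟩ <;> linarith

theorem TU_rg1 : ROK [.q ⟨11, -13, -18, 20⟩ ⟨2189, -341, -888, -960⟩, .q ⟨11, -13, -18, 20⟩ ⟨-967, 961, -54, 60⟩, .q ⟨11, -13, -18, 20⟩ ⟨-173, -91, 124, 140⟩, .q ⟨11, -13, -18, 20⟩ ⟨3599, -4077, 318, 160⟩] := by
  refine rok_w (v := ⟨11, -13, -18, 20⟩) (q := 1) (by decide) (by decide) (by decide) TU_sc (k := 1) (by decide) (Q := [(-965, -1752, -48), (1000, 0, 3), (0, 250, 7), (-3973, 462, 8)])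
    (P := [⟨-1474560, -965, -1752⟩, ⟨92160, 1000, 0⟩, ⟨215040, 0, 250⟩, ⟨245760, -3973, 462⟩]) rfl rfl
    (List.mem_of_getElem? (i := 1) rfl) TU_fr TU_cov ?_
  · intro X Y h
    simp only [List.forall_mem_cons, List.not_mem_nil, false_imp_iff, implies_true, and_true] at h
    push_cast at h ⊢
    obtain ⟨h0, h1, h2, h3⟩ := h
    refine ⟨⟨?_, ?_⟩, ?_, ?_⟩ <;> linarith

theorem TU_rg2 : ROK [.q ⟨11, -13, -18, 20⟩ ⟨4821, -2027, -1294, -1500⟩, .q ⟨11, -13, -18, 20⟩ ⟨1781, 2272, -2153, -1900⟩, .q ⟨11, -13, -18, 20⟩ ⟨-4313, 3501, 152, 660⟩, .q ⟨11, -13, -18, 20⟩ ⟨-758, -3009, 1887, 1880⟩] := by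
  refine rok_w (v := ⟨11, -13, -18, 20⟩) (q := 1) (by decide) (by decide) (by decide) TU_sc (k := 1) (by decide) (Q := [(-3002, -2644, -75), (1037, -3863, -95), (3930, 746, 33), (-1787, 3579, 94)])
    (P := [⟨-2304000, -3002, -2644⟩, ⟨-2918400, 1037, -3863⟩, ⟨1013760, 3930, 746⟩, ⟨2887680, -1787, 3579⟩]) rfl rfl
    (List.mem_of_getElem? (i := 2) rfl) TU_fr TU_cov ?_
  · intro X Y h
    simp only [List.forall_mem_cons, List.not_mem_nil, false_imp_iff, implies_true, and_true] at h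
    push_cast at h ⊢
    obtain ⟨h0, h1, h2, h3⟩ := h
    refine ⟨⟨?_, ?_⟩, ?_, ?_⟩ <;> linarith

theorem TU_rg3 : ROK [.q ⟨11, -13, -18, 20⟩ ⟨-4140, 286, 1754, 2100⟩, .q ⟨11, -13, -18, 20⟩ ⟨389, -387, 18, -20⟩, .q ⟨11, -13, -18, 20⟩ ⟨4360, -634, -1826, -1900⟩, .q ⟨11, -13, -18, 20⟩ ⟨-579, 3597, -1738, -1280⟩, .q ⟨11, -13, -18, 20⟩ ⟨-4040, 3703, -103, 440⟩] := by
  refine rok_w (v := ⟨11, -13, -18, 20⟩) (q := 1) (by decide) (by decide) (by decide) TU_sc (k := 1) (by decide) (Q := [(1651, 3644, 105), (-400, 0, -1), (-1869, -3536, -95), (2765, -2890, -64), (3989, 293, 22)])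
    (P := [⟨3225600, 1651, 3644⟩, ⟨-30720, -400, 0⟩, ⟨-2918400, -1869, -3536⟩, ⟨-1966080, 2765, -2890⟩, ⟨675840, 3989, 293⟩]) rfl rfl
    (List.mem_of_getElem? (i := 3) rfl) TU_fr TU_cov ?_
  · intro X Y h
    simp only [List.forall_mem_cons, List.not_mem_nil, false_imp_iff, implies_true, and_true] at h
    push_cast at h ⊢
    obtain ⟨h0, h1, h2, h3, h4⟩ := h
    refine ⟨⟨?_, ?_⟩, ?_, ?_⟩ <;> linarith

theorem TU_rg4 : ROK [.q ⟨11, -13, -18, 20⟩ ⟨-944, 359, 245, 340⟩, .q ⟨11, -13, -18, 20⟩ ⟨3115, -4083, 668, 300⟩, .q ⟨11, -13, -18, 20⟩ ⟨2350, -763, -727, -860⟩, .q ⟨11, -13, -18, 20⟩ ⟨-3728, 3867, -339, 200⟩] := by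
  refine rok_w (v := ⟨11, -13, -18, 20⟩) (q := 1) (by decide) (by decide) (by decide) TU_sc (k := 1) (by decide) (Q := [(580, 551, 17), (-3888, 938, 15), (-1322, -1501, -43), (3997, -159, 10)])
    (P := [⟨522240, 580, 551⟩, ⟨460800, -3888, 938⟩, ⟨-1320960, -1322, -1501⟩, ⟨307200, 3997, -159⟩]) rfl rfl
    (List.mem_of_getElem? (i := 4) rfl) TU_fr TU_cov ?_
  · intro X Y h
    simp only [List.forall_mem_cons, List.not_mem_nil, false_imp_iff, implies_true, and_true] at h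
    push_cast at h ⊢
    obtain ⟨h0, h1, h2, h3⟩ := h
    refine ⟨⟨?_, ?_⟩, ?_, ?_⟩ <;> linarith

theorem TU_rg5 : ROK [.q ⟨11, -13, -18, 20⟩ ⟨946, 2854, -2020, -1780⟩, .q ⟨11, -13, -18, 20⟩ ⟨-4199, 3584, 35, 580⟩, .q ⟨11, -13, -18, 20⟩ ⟨-1868, -2236, 2044, 2060⟩, .q ⟨11, -13, -18, 20⟩ ⟨3956, -3843, 127, -240⟩] := by
  refine rok_w (v := ⟨11, -13, -18, 20⟩) (q := 1) (by decide) (by decide) (by decide) TU_sc (k := 1) (by decide) (Q := [(1697, -3622, -89), (3961, 557, 29), (-897, 3898, 103), (-3999, -89, -12)])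
    (P := [⟨-2734080, 1697, -3622⟩, ⟨890880, 3961, 557⟩, ⟨3164160, -897, 3898⟩, ⟨-368640, -3999, -89⟩]) rfl rfl
    (List.mem_of_getElem? (i := 5) rfl) TU_fr TU_cov ?_
  · intro X Y h
    simp only [List.forall_mem_cons, List.not_mem_nil, false_imp_iff, implies_true, and_true] at h
    push_cast at h ⊢
    obtain ⟨h0, h1, h2, h3⟩ := h
    refine ⟨⟨?_, ?_⟩, ?_, ?_⟩ <;> linarith

theorem TU_rg6 : ROK [.q ⟨11, -13, -18, 20⟩ ⟨-2416, 4052, -1056, -580⟩, .q ⟨11, -13, -18, 20⟩ ⟨-4357, 3426, 191, 740⟩, .q ⟨11, -13, -18, 20⟩ ⟨-2647, -1566, 2053, 2160⟩, .q ⟨11, -13, -18, 20⟩ ⟨4559, -3249, -450, -860⟩] := by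
  refine rok_w (v := ⟨11, -13, -18, 20⟩) (q := 1) (by decide) (by decide) (by decide) TU_sc (k := 1) (by decide) (Q := [(3675, -1578, -29), (3907, 857, 37), (-162, 3997, 108), (-3808, -1224, -43)])
    (P := [⟨-890880, 3675, -1578⟩, ⟨1136640, 3907, 857⟩, ⟨3317760, -162, 3997⟩, ⟨-1320960, -3808, -1224⟩]) rfl rfl
    (List.mem_of_getElem? (i := 6) rfl) TU_fr TU_cov ?_
  · intro X Y h
    simp only [List.forall_mem_cons, List.not_mem_nil, false_imp_iff, implies_true, and_true] at h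
    push_cast at h ⊢
    obtain ⟨h0, h1, h2, h3⟩ := h
    refine ⟨⟨?_, ?_⟩, ?_, ?_⟩ <;> linarith

theorem TU_rg7 : ROK [.q ⟨11, -13, -18, 20⟩ ⟨4404, -743, -1741, -1920⟩, .q ⟨11, -13, -18, 20⟩ ⟨-1916, 1909, -133, 140⟩, .q ⟨11, -13, -18, 20⟩ ⟨-4441, 882, 1579, 1980⟩, .q ⟨11, -13, -18, 20⟩ ⟨4057, -3785, 48, -320⟩] := by
  refine rok_w (v := ⟨11, -13, -18, 20⟩) (q := 1) (by decide) (by decide) (by decide) TU_sc (k := 1) (by decide) (Q := [(-1991, -3469, -96), (2000, -7, 7), (2169, 3361, 99), (-3993, -240, -16)])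
    (P := [⟨-2949120, -1991, -3469⟩, ⟨215040, 2000, -7⟩, ⟨3041280, 2169, 3361⟩, ⟨-491520, -3993, -240⟩]) rfl rfl
    (List.mem_of_getElem? (i := 7) rfl) TU_fr TU_cov ?_
  · intro X Y h
    simp only [List.forall_mem_cons, List.not_mem_nil, false_imp_iff, implies_true, and_true] at h
    push_cast at h ⊢
    obtain ⟨h0, h1, h2, h3⟩ := h
    refine ⟨⟨?_, ?_⟩, ?_, ?_⟩ <;> linarith

theorem TU_rg8 : ROK [.q ⟨11, -13, -18, 20⟩ ⟨974, 2835, -2029, -1780⟩, .q ⟨11, -13, -18, 20⟩ ⟨-380, 263, 37, 80⟩, .q ⟨11, -13, -18, 20⟩ ⟨-1780, -2307, 2027, 2060⟩, .q ⟨11, -13, -18, 20⟩ ⟨4174, -320, -1834, -2020⟩] := by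
  refine rok_w (v := ⟨11, -13, -18, 20⟩) (q := 1) (by decide) (by decide) (by decide) TU_sc (k := 1) (by decide) (Q := [(1678, -3631, -89), (315, 109, 4), (-968, 3881, 103), (-1633, -3652, -101)])
    (P := [⟨-2734080, 1678, -3631⟩, ⟨122880, 315, 109⟩, ⟨3164160, -968, 3881⟩, ⟨-3102720, -1633, -3652⟩]) rfl rfl
    (List.mem_of_getElem? (i := 8) rfl) TU_fr TU_cov ?_
  · intro X Y h
    simp only [List.forall_mem_cons, List.not_mem_nil, false_imp_iff, implies_true, and_true] at h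
    push_cast at h ⊢
    obtain ⟨h0, h1, h2, h3⟩ := h
    refine ⟨⟨?_, ?_⟩, ?_, ?_⟩ <;> linarith

theorem TU_rg9 : ROK [.q ⟨11, -13, -18, 20⟩ ⟨1300, 39, -659, -680⟩, .q ⟨11, -13, -18, 20⟩ ⟨-3645, 3900, -395, 140⟩, .q ⟨11, -13, -18, 20⟩ ⟨-2581, -1626, 2067, 2140⟩, .q ⟨11, -13, -18, 20⟩ ⟨1352, -3909, 1417, 1140⟩] := by
  refine rok_w (v := ⟨11, -13, -18, 20⟩) (q := 1) (by decide) (by decide) (by decide) TU_sc (k := 1) (by decide) (Q := [(-403, -1271, -34), (3991, -269, 7), (-235, 3993, 107), (-3168, 2443, 57)])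
    (P := [⟨-1044480, -403, -1271⟩, ⟨215040, 3991, -269⟩, ⟨3287040, -235, 3993⟩, ⟨1751040, -3168, 2443⟩]) rfl rfl
    (List.mem_of_getElem? (i := 9) rfl) TU_fr TU_cov ?_
  · intro X Y h
    simp only [List.forall_mem_cons, List.not_mem_nil, false_imp_iff, implies_true, and_true] at h
    push_cast at h ⊢
    obtain ⟨h0, h1, h2, h3⟩ := h
    refine ⟨⟨?_, ?_⟩, ?_, ?_⟩ <;> linarith

theorem TU_rg10 : ROK [.q ⟨11, -13, -18, 20⟩ ⟨2463, 1721, -2144, -2040⟩, .q ⟨11, -13, -18, 20⟩ ⟨-4505, 3256, 369, 880⟩, .q ⟨11, -13, -18, 20⟩ ⟨55, -267, 112, 100⟩, .q ⟨11, -13, -18, 20⟩ ⟨3901, -3883, 162, -180⟩] := by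
  refine rok_w (v := ⟨11, -13, -18, 20⟩) (q := 1) (by decide) (by decide) (by decide) TU_sc (k := 1) (by decide) (Q := [(395, -3980, -102), (3828, 1161, 44), (-202, 202, 5), (-4000, 0, -9)])
    (P := [⟨-3133440, 395, -3980⟩, ⟨1351680, 3828, 1161⟩, ⟨153600, -202, 202⟩, ⟨-276480, -4000, 0⟩]) rfl rfl
    (List.mem_of_getElem? (i := 10) rfl) TU_fr TU_cov ?_
  · intro X Y h
    simp only [List.forall_mem_cons, List.not_mem_nil, false_imp_iff, implies_true, and_true] at h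
    push_cast at h ⊢
    obtain ⟨h0, h1, h2, h3⟩ := h
    refine ⟨⟨?_, ?_⟩, ?_, ?_⟩ <;> linarith

theorem TU_rg11 : ROK [.q ⟨11, -13, -18, 20⟩ ⟨-2311, -1867, 2078, 2100⟩, .q ⟨11, -13, -18, 20⟩ ⟨548, -87, -221, -240⟩, .q ⟨11, -13, -18, 20⟩ ⟨-1268, 3847, -1499, -1080⟩, .q ⟨11, -13, -18, 20⟩ ⟨-4688, 2839, 669, 1180⟩] := by
  refine rok_w (v := ⟨11, -13, -18, 20⟩) (q := 1) (by decide) (by decide) (by decide) TU_sc (k := 1) (by decide) (Q := [(-502, 3968, 105), (-243, -437, -12), (3145, -2471, -54), (3606, 1731, 59)])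
    (P := [⟨3225600, -502, 3968⟩, ⟨-368640, -243, -437⟩, ⟨-1658880, 3145, -2471⟩, ⟨1812480, 3606, 1731⟩]) rfl rfl
    (List.mem_of_getElem? (i := 11) rfl) TU_fr TU_cov ?_
  · intro X Y h
    simp only [List.forall_mem_cons, List.not_mem_nil, false_imp_iff, implies_true, and_true] at h
    push_cast at h ⊢
    obtain ⟨h0, h1, h2, h3⟩ := h
    refine ⟨⟨?_, ?_⟩, ?_, ?_⟩ <;> linarith

theorem TU_rg12 : ROK [.q ⟨11, -13, -18, 20⟩ ⟨-3987, 3734, -147, 400⟩, .q ⟨11, -13, -18, 20⟩ ⟨-2719, -1496, 2055, 2160⟩, .q ⟨11, -13, -18, 20⟩ ⟨55, -267, 112, 100⟩, .q ⟨11, -13, -18, 20⟩ ⟨4053, -115, -1918, -2020⟩, .q ⟨11, -13, -18, 20⟩ ⟨-1768, 3951, -1343, -840⟩] := by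
  refine rok_w (v := ⟨11, -13, -18, 20⟩) (q := 1) (by decide) (by decide) (by decide) TU_sc (k := 1) (by decide) (Q := [(3994, 213, 20), (-92, 3999, 108), (-202, 202, 5), (-1428, -3736, -101), (3405, -2099, -42)])
    (P := [⟨614400, 3994, 213⟩, ⟨3317760, -92, 3999⟩, ⟨153600, -202, 202⟩, ⟨-3102720, -1428, -3736⟩, ⟨-1290240, 3405, -2099⟩]) rfl rfl
    (List.mem_of_getElem? (i := 12) rfl) TU_fr TU_cov ?_
  · intro X Y h
    simp only [List.forall_mem_cons, List.not_mem_nil, false_imp_iff, implies_true, and_true] at h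
    push_cast at h ⊢
    obtain ⟨h0, h1, h2, h3, h4⟩ := h
    refine ⟨⟨?_, ?_⟩, ?_, ?_⟩ <;> linarith

theorem TU_rg13 : ROK [.q ⟨11, -13, -18, 20⟩ ⟨-99, 521, -242, -180⟩, .q ⟨11, -13, -18, 20⟩ ⟨-3841, 3818, -257, 280⟩, .q ⟨11, -13, -18, 20⟩ ⟨-4656, 1481, 1375, 1800⟩, .q ⟨11, -13, -18, 20⟩ ⟨2180, -4109, 1069, 860⟩, .q ⟨11, -13, -18, 20⟩ ⟨1194, -447, -347, -400⟩] := by
  refine rok_w (v := ⟨11, -13, -18, 20⟩) (q := 1) (by decide) (by decide) (by decide) TU_sc (k := 1) (by decide) (Q := [(404, -404, -9), (4000, -5, 14), (2651, 2995, 90), (-3550, 1843, 43), (-707, -707, -20)])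
    (P := [⟨-276480, 404, -404⟩, ⟨430080, 4000, -5⟩, ⟨2764800, 2651, 2995⟩, ⟨1320960, -3550, 1843⟩, ⟨-614400, -707, -707⟩]) rfl rfl
    (List.mem_of_getElem? (i := 13) rfl) TU_fr TU_cov ?_
  · intro X Y h
    simp only [List.forall_mem_cons, List.not_mem_nil, false_imp_iff, implies_true, and_true] at h
    push_cast at h ⊢
    obtain ⟨h0, h1, h2, h3, h4⟩ := h
    refine ⟨⟨?_, ?_⟩, ?_, ?_⟩ <;> linarith

theorem TU_rg14 : ROK [.q ⟨11, -13, -18, 20⟩ ⟨-703, -351, 514, 540⟩, .q ⟨11, -13, -18, 20⟩ ⟨391, -50, -161, -180⟩, .q ⟨11, -13, -18, 20⟩ ⟨-3909, 3778, -209, 340⟩] := by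
  refine rok_w (v := ⟨11, -13, -18, 20⟩) (q := 1) (by decide) (by decide) (by decide) TU_sc (k := 1) (by decide) (Q := [(0, 1000, 27), (-167, -323, -9), (3999, 97, 17)])
    (P := [⟨829440, 0, 1000⟩, ⟨-276480, -167, -323⟩, ⟨522240, 3999, 97⟩]) rfl rfl
    (List.mem_of_getElem? (i := 14) rfl) TU_fr TU_cov ?_
  · intro X Y h
    simp only [List.forall_mem_cons, List.not_mem_nil, false_imp_iff, implies_true, and_true] at h
    push_cast at h ⊢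
    obtain ⟨h0, h1, h2⟩ := h
    refine ⟨⟨?_, ?_⟩, ?_, ?_⟩ <;> linarith

theorem TU_rg15 : ROK [.q ⟨11, -13, -18, 20⟩ ⟨-4533, 1108, 1505, 1920⟩, .q ⟨11, -13, -18, 20⟩ ⟨1359, -3920, 1401, 1160⟩, .q ⟨11, -13, -18, 20⟩ ⟨2717, 1491, -2108, -2100⟩, .q ⟨11, -13, -18, 20⟩ ⟨-4009, 3719, -130, 420⟩] := by
  refine rok_w (v := ⟨11, -13, -18, 20⟩) (q := 1) (by decide) (by decide) (by decide) TU_sc (k := 1) (by decide) (Q := [(2356, 3233, 96), (-3166, 2445, 58), (126, -3998, -105), (3992, 248, 21)])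
    (P := [⟨2949120, 2356, 3233⟩, ⟨1781760, -3166, 2445⟩, ⟨-3225600, 126, -3998⟩, ⟨645120, 3992, 248⟩]) rfl rfl
    (List.mem_of_getElem? (i := 15) rfl) TU_fr TU_cov ?_
  · intro X Y h
    simp only [List.forall_mem_cons, List.not_mem_nil, false_imp_iff, implies_true, and_true] at h
    push_cast at h ⊢
    obtain ⟨h0, h1, h2, h3⟩ := h
    refine ⟨⟨?_, ?_⟩, ?_, ?_⟩ <;> linarith

theorem TU_rg16 : ROK [.q ⟨11, -13, -18, 20⟩ ⟨4777, -1783, -1394, -1600⟩, .q ⟨11, -13, -18, 20⟩ ⟨2737, 1467, -2144, -2060⟩, .q ⟨11, -13, -18, 20⟩ ⟨-485, 474, -29, 40⟩, .q ⟨11, -13, -18, 20⟩ ⟨-3064, -1142, 2066, 2140⟩] := by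
  refine rok_w (v := ⟨11, -13, -18, 20⟩) (q := 1) (by decide) (by decide) (by decide) TU_sc (k := 1) (by decide) (Q := [(-2823, -2834, -80), (128, -3998, -103), (500, 7, 2), (249, 3992, 107)])
    (P := [⟨-2457600, -2823, -2834⟩, ⟨-3164160, 128, -3998⟩, ⟨61440, 500, 7⟩, ⟨3287040, 249, 3992⟩]) rfl rfl
    (List.mem_of_getElem? (i := 16) rfl) TU_fr TU_cov ?_
  · intro X Y h
    simp only [List.forall_mem_cons, List.not_mem_nil, false_imp_iff, implies_true, and_true] at h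
    push_cast at h ⊢
    obtain ⟨h0, h1, h2, h3⟩ := h
    refine ⟨⟨?_, ?_⟩, ?_, ?_⟩ <;> linarith

theorem TU_rg17 : ROK [.q ⟨11, -13, -18, 20⟩ ⟨357, 169, -266, -260⟩, .q ⟨11, -13, -18, 20⟩ ⟨-2990, 4047, -777, -280⟩, .q ⟨11, -13, -18, 20⟩ ⟨-4524, 1075, 1529, 1920⟩, .q ⟨11, -13, -18, 20⟩ ⟨803, -3777, 1514, 1460⟩, .q ⟨11, -13, -18, 20⟩ ⟨4752, -2941, -771, -1040⟩] := by
  refine rok_w (v := ⟨11, -13, -18, 20⟩) (q := 1) (by decide) (by decide) (by decide) TU_sc (k := 1) (by decide) (Q := [(0, -500, -13), (3865, -1029, -14), (2323, 3257, 96), (-2828, 2828, 73), (-3617, -1707, -52)])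
    (P := [⟨-399360, 0, -500⟩, ⟨-430080, 3865, -1029⟩, ⟨2949120, 2323, 3257⟩, ⟨2242560, -2828, 2828⟩, ⟨-1597440, -3617, -1707⟩]) rfl rfl
    (List.mem_of_getElem? (i := 17) rfl) TU_fr TU_cov ?_
  · intro X Y h
    simp only [List.forall_mem_cons, List.not_mem_nil, false_imp_iff, implies_true, and_true] at h
    push_cast at h ⊢
    obtain ⟨h0, h1, h2, h3, h4⟩ := h
    refine ⟨⟨?_, ?_⟩, ?_, ?_⟩ <;> linarith

theorem TU_rg18 : ROK [.q ⟨11, -13, -18, 20⟩ ⟨3762, -3931, 269, -100⟩, .q ⟨11, -13, -18, 20⟩ ⟨2867, 1339, -2146, -2060⟩, .q ⟨11, -13, -18, 20⟩ ⟨-3912, 3778, -206, 340⟩, .q ⟨11, -13, -18, 20⟩ ⟨-2361, -1826, 2067, 2120⟩] := by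
  refine rok_w (v := ⟨11, -13, -18, 20⟩) (q := 1) (by decide) (by decide) (by decide) TU_sc (k := 1) (by decide) (Q := [(-3996, 179, -5), (0, -4000, -103), (3999, 100, 17), (-448, 3975, 106)])
    (P := [⟨-153600, -3996, 179⟩, ⟨-3164160, 0, -4000⟩, ⟨522240, 3999, 100⟩, ⟨3256320, -448, 3975⟩]) rfl rfl
    (List.mem_of_getElem? (i := 18) rfl) TU_fr TU_cov ?_
  · intro X Y h
    simp only [List.forall_mem_cons, List.not_mem_nil, false_imp_iff, implies_true, and_true] at h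
    push_cast at h ⊢
    obtain ⟨h0, h1, h2, h3⟩ := h
    refine ⟨⟨?_, ?_⟩, ?_, ?_⟩ <;> linarith

theorem TU_rg19 : ROK [.q ⟨11, -13, -18, 20⟩ ⟨3513, 629, -2062, -2080⟩, .q ⟨11, -13, -18, 20⟩ ⟨-4038, 3703, -105, 440⟩, .q ⟨11, -13, -18, 20⟩ ⟨-4239, 462, 1717, 2060⟩, .q ⟨11, -13, -18, 20⟩ ⟨2409, -4108, 999, 700⟩] := by
  refine rok_w (v := ⟨11, -13, -18, 20⟩) (q := 1) (by decide) (by decide) (by decide) TU_sc (k := 1) (by decide) (Q := [(-723, -3934, -104), (3989, 291, 22), (1801, 3571, 103), (-3653, 1629, 35)])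
    (P := [⟨-3194880, -723, -3934⟩, ⟨675840, 3989, 291⟩, ⟨3164160, 1801, 3571⟩, ⟨1075200, -3653, 1629⟩]) rfl rfl
    (List.mem_of_getElem? (i := 19) rfl) TU_fr TU_cov ?_
  · intro X Y h
    simp only [List.forall_mem_cons, List.not_mem_nil, false_imp_iff, implies_true, and_true] at h
    push_cast at h ⊢
    obtain ⟨h0, h1, h2, h3⟩ := h
    refine ⟨⟨?_, ?_⟩, ?_, ?_⟩ <;> linarith

theorem TU_rg20 : ROK [.q ⟨11, -13, -18, 20⟩ ⟨2981, 1225, -2126, -2080⟩, .q ⟨11, -13, -18, 20⟩ ⟨-4011, 3719, -128, 420⟩, .q ⟨11, -13, -18, 20⟩ ⟨-18, -3377, 1815, 1580⟩, .q ⟨11, -13, -18, 20⟩ ⟨4788, -1824, -1384, -1580⟩] := by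
  refine rok_w (v := ⟨11, -13, -18, 20⟩) (q := 1) (by decide) (by decide) (by decide) TU_sc (k := 1) (by decide) (Q := [(-127, -3998, -104), (3992, 250, 21), (-2350, 3237, 79), (-2851, -2806, -79)])
    (P := [⟨-3194880, -127, -3998⟩, ⟨645120, 3992, 250⟩, ⟨2426880, -2350, 3237⟩, ⟨-2426880, -2851, -2806⟩]) rfl rfl
    (List.mem_of_getElem? (i := 20) rfl) TU_fr TU_cov ?_
  · intro X Y h
    simp only [List.forall_mem_cons, List.not_mem_nil, false_imp_iff, implies_true, and_true] at h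
    push_cast at h ⊢
    obtain ⟨h0, h1, h2, h3⟩ := h
    refine ⟨⟨?_, ?_⟩, ?_, ?_⟩ <;> linarith

theorem TU_rg21 : ROK [.q ⟨11, -13, -18, 20⟩ ⟨2867, 1339, -2146, -2060⟩, .q ⟨11, -13, -18, 20⟩ ⟨-3935, 3764, -189, 360⟩, .q ⟨11, -13, -18, 20⟩ ⟨-3062, -1147, 2029, 2180⟩, .q ⟨11, -13, -18, 20⟩ ⟨4811, -2674, -937, -1200⟩] := by
  refine rok_w (v := ⟨11, -13, -18, 20⟩) (q := 1) (by decide) (by decide) (by decide) TU_sc (k := 1) (by decide) (Q := [(0, -4000, -103), (3998, 135, 18), (270, 3991, 109), (-3454, -2017, -60)])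
    (P := [⟨-3164160, 0, -4000⟩, ⟨552960, 3998, 135⟩, ⟨3348480, 270, 3991⟩, ⟨-1843200, -3454, -2017⟩]) rfl rfl
    (List.mem_of_getElem? (i := 21) rfl) TU_fr TU_cov ?_
  · intro X Y h
    simp only [List.forall_mem_cons, List.not_mem_nil, false_imp_iff, implies_true, and_true] at h
    push_cast at h ⊢
    obtain ⟨h0, h1, h2, h3⟩ := h
    refine ⟨⟨?_, ?_⟩, ?_, ?_⟩ <;> linarith

theorem TU_rg22 : ROK [.q ⟨11, -13, -18, 20⟩ ⟨-4264, 511, 1693, 2060⟩, .q ⟨11, -13, -18, 20⟩ ⟨803, -3777, 1514, 1460⟩, .q ⟨11, -13, -18, 20⟩ ⟨4477, -895, -1702, -1880⟩, .q ⟨11, -13, -18, 20⟩ ⟨-1373, 2037, -444, -220⟩] := by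
  refine rok_w (v := ⟨11, -13, -18, 20⟩) (q := 1) (by decide) (by decide) (by decide) TU_sc (k := 1) (by decide) (Q := [(1850, 3547, 103), (-2828, 2828, 73), (-2117, -3394, -94), (1894, -642, -11)])
    (P := [⟨3164160, 1850, 3547⟩, ⟨2242560, -2828, 2828⟩, ⟨-2887680, -2117, -3394⟩, ⟨-337920, 1894, -642⟩]) rfl rfl
    (List.mem_of_getElem? (i := 22) rfl) TU_fr TU_cov ?_
  · intro X Y h
    simp only [List.forall_mem_cons, List.not_mem_nil, false_imp_iff, implies_true, and_true] at h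
    push_cast at h ⊢
    obtain ⟨h0, h1, h2, h3⟩ := h
    refine ⟨⟨?_, ?_⟩, ?_, ?_⟩ <;> linarith

theorem TU_rg23 : ROK [.q ⟨11, -13, -18, 20⟩ ⟨-967, 961, -54, 60⟩, .q ⟨11, -13, -18, 20⟩ ⟨-1488, -621, 989, 1120⟩, .q ⟨11, -13, -18, 20⟩ ⟨1967, -1961, 54, -60⟩, .q ⟨11, -13, -18, 20⟩ ⟨4370, -665, -1785, -1920⟩] := by
  refine rok_w (v := ⟨11, -13, -18, 20⟩) (q := 1) (by decide) (by decide) (by decide) TU_sc (k := 1) (by decide) (Q := [(1000, 0, 3), (107, 1997, 56), (-2000, 0, -3), (-1913, -3513, -96)])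
    (P := [⟨92160, 1000, 0⟩, ⟨1720320, 107, 1997⟩, ⟨-92160, -2000, 0⟩, ⟨-2949120, -1913, -3513⟩]) rfl rfl
    (List.mem_of_getElem? (i := 23) rfl) TU_fr TU_cov ?_
  · intro X Y h
    simp only [List.forall_mem_cons, List.not_mem_nil, false_imp_iff, implies_true, and_true] at h
    push_cast at h ⊢
    obtain ⟨h0, h1, h2, h3⟩ := h
    refine ⟨⟨?_, ?_⟩, ?_, ?_⟩ <;> linarith

end Pool.Agent.TET
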