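import Pool.Agent.Helper38_TET.CovN

/-!
# MP_c7c9bf_co: certificates, family TV
-/

set_option autoImplicit false
set_option maxRecDepth 100000

namespace Pool.Agent.TET

/-- the polygons -/
def TV_L : List (List Z3) :=
  [[⟨46940160, 7994, 334⟩, ⟨14131200, 1414, 1414⟩, ⟨21043200, -4662, 6502⟩, ⟨-18094080, -8000, 0⟩, ⟨-4884480, 1146, -3832⟩],
   [⟨12134400, -7950, -886⟩, ⟨22732800, -1384, -7880⟩, ⟨-11059200, 6632, 4474⟩],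
   [⟨20766720, -5656, -5656⟩, ⟨25774080, -648, -7974⟩, ⟨-3747840, 7770, 1904⟩, ⟨-8755200, -4664, 6500⟩],
   [⟨92160, 0, 800⟩, ⟨4915200, -1414, -1414⟩, ⟨15052800, -2298, -7664⟩, ⟨2672640, 3980, 396⟩],
   [⟨5652480, -1414, -1414⟩, ⟨4700160, 0, -4000⟩, ⟨-19814400, 7984, 496⟩, ⟨20674560, -7536, 2686⟩],
   [⟨11796480, 0, -8000⟩, ⟨2795520, 2000, 0⟩, ⟨3655680, 0, 8000⟩, ⟨17664000, -7074, -3736⟩],
   [⟨18247680, -6372, -4838⟩, ⟨5191680, 7878, -1390⟩, ⟨-2979840, 0, 1600⟩],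
   [⟨15390720, -4134, 6848⟩, ⟨17971200, -4764, -6426⟩, ⟨-675840, 5252, -6034⟩, ⟨-4116480, 1530, 1288⟩]]

/-- the polygons in natural numbers -/
def TV_LN : List (List N6) :=
  [[⟨7994, 0, 334, 0, 0, 1044627456⟩, ⟨1414, 0, 1414, 0, 0, 356540416⟩, ⟨0, 4662, 6502, 0, 0, 220129280⟩, ⟨0, 8000, 0, 0, 1030481920, 0⟩, ⟨1146, 0, 0, 3832, 347174912, 0⟩],
   [⟨0, 7950, 0, 886, 1170286592, 0⟩, ⟨0, 1384, 0, 7880, 1236983808, 0⟩, ⟨6632, 0, 4474, 0, 0, 1466744832⟩],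
   [⟨0, 5656, 0, 5656, 1503453184, 0⟩, ⟨0, 648, 0, 7974, 1155876864, 0⟩, ⟨7770, 0, 1904, 0, 0, 1271738368⟩, ⟨0, 4664, 6500, 0, 0, 249403392⟩],
   [⟨0, 0, 800, 0, 0, 104765440⟩, ⟨0, 1414, 0, 1414, 375586816, 0⟩, ⟨0, 2298, 0, 7664, 1320792064, 0⟩, ⟨3980, 0, 396, 0, 0, 570898432⟩],
   [⟨0, 1414, 0, 1414, 376324096, 0⟩, ⟨0, 0, 0, 4000, 528988160, 0⟩, ⟨7984, 0, 496, 0, 0, 1131304960⟩, ⟨0, 7536, 2686, 0, 656373760, 0⟩],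
   [⟨0, 0, 0, 8000, 1060372480, 0⟩, ⟨2000, 0, 0, 0, 0, 259348480⟩, ⟨0, 0, 8000, 0, 0, 1044920320⟩, ⟨0, 7074, 0, 3736, 1434552320, 0⟩],
   [⟨0, 6372, 0, 4838, 1487564800, 0⟩, ⟨7878, 0, 0, 1390, 0, 845203456⟩, ⟨0, 0, 1600, 0, 0, 212695040⟩],
   [⟨0, 4134, 6848, 0, 0, 340338688⟩, ⟨0, 4764, 0, 6426, 1484666880, 0⟩, ⟨5252, 0, 0, 6034, 101822464, 0⟩, ⟨1530, 0, 1288, 0, 0, 373477376⟩]]

theorem TV_LL : toL TV_LN = TV_L := eqLL_eq (by decide +kernel)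

end Pool.Agent.TET
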