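import Pool.Agent.Helper38_TET.TV_M
import Pool.Agent.Helper38_TET.TV_L
import Pool.Agent.Helper38_TET.TV_8
import Pool.Agent.Helper38_TET.TV_9
import Pool.Agent.Helper38_TET.TV_12
import Pool.Agent.Helper38_TET.TV_13
import Pool.Agent.Helper38_TET.TV_14
import Pool.Agent.Helper38_TET.TV_17
import Pool.Agent.Helper38_TET.TV_18
import Pool.Agent.Helper38_TET.TV_19
import Pool.Agent.Helper38_TET.TV_20
import Pool.Agent.Helper38_TET.TV_21
import Pool.Agent.Helper38_TET.TV_22

/-!
# MP_c7c9bf_co: certificates, family TV
-/

set_option autoImplicit false
set_option maxRecDepth 100000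

namespace Pool.Agent.TET

theorem TV_u0 : CovZ TV_M (toL (selN TV_LN 184)) [0, 7, 4, 3] (3200, -640) (3520, -320) (3200, 0) :=
    (CovZ.n2 (3200, -320) (by decide +kernel)
       (CovZ.n2 (3360, -160) (by decide +kernel)
        (CovZ.n2 (3360, -320) (by decide +kernel)
         (CovZ.n2 (3280, -240) (by decide +kernel)
          (CovZ.n2 (3360, -240) (by decide +kernel)
           (CovZ.n2 (3320, -280) (by decide +kernel)
            (CovZ.n2 (3320, -240) (by decide +kernel)
             (CovZ.n2 (3340, -260) (by decide +kernel)
              (CovZ.n2 (3320, -260) (by decide +kernel)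
               (CovZ.leaf K2_ok TV_l2595 _)
               (CovZ.badM (by decide +kernel)))
              (CovZ.n1 (3340, -240) (by decide +kernel)
               (CovZ.badM (by decide +kernel))
               (CovZ.leaf K2_ok TV_l2596 _)))
             (CovZ.n1 (3300, -260) (by decide +kernel)
              (CovZ.n2 (3300, -240) (by decide +kernel)
               (CovZ.leaf K2_ok TV_l2597 _)
               (CovZ.leaf K2_ok TV_l2598 _))
              (CovZ.n1 (3320, -260) (by decide +kernel)
               (CovZ.badM (by decide +kernel))
               (CovZ.leaf K2_ok TV_l2599 _))))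
            (CovZ.badM (by decide +kernel)))
           (CovZ.n1 (3320, -200) (by decide +kernel)
            (CovZ.n2 (3360, -200) (by decide +kernel)
             (CovZ.n2 (3340, -220) (by decide +kernel)
              (CovZ.leaf K2_ok TV_l2600 _)
              (CovZ.n1 (3360, -220) (by decide +kernel)
               (CovZ.leaf K2_ok TV_l2601 _)
               (CovZ.leaf K2_ok TV_l2602 _)))
             (CovZ.leaf K2_ok TV_l2603 _))
            (CovZ.n1 (3320, -240) (by decide +kernel)
             (CovZ.n2 (3300, -220) (by decide +kernel)
              (CovZ.leaf K2_ok TV_l2604 _)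
              (CovZ.leaf K2_ok TV_l2605 _))
             (CovZ.leaf K2_ok TV_l2606 _))))
          (CovZ.n1 (3280, -320) (by decide +kernel)
           (CovZ.n2 (3240, -280) (by decide +kernel)
            (CovZ.n2 (3280, -280) (by decide +kernel)
             (CovZ.n2 (3260, -300) (by decide +kernel)
              (CovZ.n2 (3260, -280) (by decide +kernel)
               (CovZ.badM (by decide +kernel))
               (CovZ.leaf K2_ok TV_l2607 _))
              (CovZ.badM (by decide +kernel)))
             (CovZ.n1 (3260, -260) (by decide +kernel)
              (CovZ.n2 (3280, -260) (by decide +kernel)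
               (CovZ.leaf K2_ok TV_l2608 _)
               (CovZ.leaf K2_ok TV_l2609 _))
              (CovZ.leaf K2_ok TV_l2610 _)))
            (CovZ.n1 (3240, -320) (by decide +kernel)
             (CovZ.n2 (3220, -300) (by decide +kernel)
              (CovZ.n2 (3240, -300) (by decide +kernel)
               (CovZ.leaf K2_ok TV_l2611 _)
               (CovZ.leaf K2_ok TV_l2612 _))
              (CovZ.leaf K2_ok TV_l2613 _))
             (CovZ.n1 (3260, -300) (by decide +kernel)
              (CovZ.badM (by decide +kernel))
              (CovZ.leaf K2_ok TV_l2614 _))))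
           (CovZ.n1 (3320, -280) (by decide +kernel)
            (CovZ.badM (by decide +kernel))
            (CovZ.n1 (3280, -280) (by decide +kernel)
             (CovZ.n2 (3300, -260) (by decide +kernel)
              (CovZ.badM (by decide +kernel))
              (CovZ.leaf K2_ok TV_l2615 _))
             (CovZ.badM (by decide +kernel))))))
         (CovZ.n1 (3440, -240) (by decide +kernel)
          (CovZ.badM (by decide +kernel))
          (CovZ.n1 (3360, -240) (by decide +kernel)
           (CovZ.n2 (3400, -200) (by decide +kernel)
            (CovZ.badM (by decide +kernel))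
            (CovZ.n1 (3360, -200) (by decide +kernel)
             (CovZ.leaf K2_ok TV_l2616 _)
             (CovZ.n1 (3380, -220) (by decide +kernel)
              (CovZ.leaf K2_ok TV_l2617 _)
              (CovZ.leaf K2_ok TV_l2618 _))))
           (CovZ.badM (by decide +kernel)))))
        (CovZ.n1 (3200, -160) (by decide +kernel)
         (CovZ.n2 (3280, -80) (by decide +kernel)
          (CovZ.n2 (3280, -160) (by decide +kernel)
           (CovZ.n2 (3240, -120) (by decide +kernel)
            (CovZ.n2 (3280, -120) (by decide +kernel)
             (CovZ.leaf K2_ok TV_l2619 _)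
             (CovZ.leaf K2_ok TV_l2620 _))
            (CovZ.leaf K2_ok TV_l2621 _))
           (CovZ.leaf K2_ok TV_l2622 _))
          (CovZ.n1 (3200, -80) (by decide +kernel)
           (CovZ.leaf K2_ok TV_l2623 _)
           (CovZ.n1 (3240, -120) (by decide +kernel)
            (CovZ.leaf K2_ok TV_l2624 _)
            (CovZ.leaf K2_ok TV_l2625 _))))
         (CovZ.n1 (3280, -240) (by decide +kernel)
          (CovZ.n2 (3200, -240) (by decide +kernel)
           (CovZ.n2 (3240, -200) (by decide +kernel)
            (CovZ.n2 (3240, -240) (by decide +kernel)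
             (CovZ.leaf K2_ok TV_l2626 _)
             (CovZ.leaf K2_ok TV_l2627 _))
            (CovZ.leaf K2_ok TV_l2628 _))
           (CovZ.n1 (3240, -280) (by decide +kernel)
            (CovZ.n2 (3200, -280) (by decide +kernel)
             (CovZ.leaf K2_ok TV_l2629 _)
             (CovZ.n1 (3220, -300) (by decide +kernel)
              (CovZ.leaf K2_ok TV_l2630 _)
              (CovZ.n1 (3220, -280) (by decide +kernel)
               (CovZ.leaf K2_ok TV_l2631 _)
               (CovZ.leaf K2_ok TV_l2632 _))))
            (CovZ.n1 (3240, -240) (by decide +kernel)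
             (CovZ.n2 (3260, -260) (by decide +kernel)
              (CovZ.leaf K2_ok TV_l2633 _)
              (CovZ.leaf K2_ok TV_l2634 _))
             (CovZ.n1 (3220, -260) (by decide +kernel)
              (CovZ.leaf K2_ok TV_l2635 _)
              (CovZ.leaf K2_ok TV_l2636 _)))))
          (CovZ.n1 (3280, -160) (by decide +kernel)
           (CovZ.n2 (3320, -200) (by decide +kernel)
            (CovZ.n2 (3280, -200) (by decide +kernel)
             (CovZ.leaf K2_ok TV_l2637 _)
             (CovZ.n1 (3300, -220) (by decide +kernel)
              (CovZ.leaf K2_ok TV_l2638 _)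
              (CovZ.leaf K2_ok TV_l2639 _)))
            (CovZ.n1 (3320, -160) (by decide +kernel)
             (CovZ.leaf K2_ok TV_l2640 _)
             (CovZ.leaf K2_ok TV_l2641 _)))
           (CovZ.n1 (3240, -200) (by decide +kernel)
            (CovZ.n2 (3240, -160) (by decide +kernel)
             (CovZ.leaf K2_ok TV_l2642 _)
             (CovZ.leaf K2_ok TV_l2643 _))
            (CovZ.n1 (3280, -200) (by decide +kernel)
             (CovZ.n2 (3260, -220) (by decide +kernel)
              (CovZ.leaf K2_ok TV_l2644 _)
              (CovZ.leaf K2_ok TV_l2645 _))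
             (CovZ.leaf K2_ok TV_l2646 _)))))))
       (CovZ.badM (by decide +kernel)))

theorem TV_u1 : CovZ TV_M (toL (selN TV_LN 184)) [0, 7, 4, 3] (3520, -320) (3840, 0) (3200, 0) :=
    (CovZ.n1 (3520, 0) (by decide +kernel)
       (CovZ.n2 (3680, -160) (by decide +kernel)
        (CovZ.n2 (3520, -160) (by decide +kernel)
         (CovZ.n2 (3600, -80) (by decide +kernel)
          (CovZ.n2 (3600, -160) (by decide +kernel)
           (CovZ.n2 (3560, -120) (by decide +kernel)
            (CovZ.n2 (3600, -120) (by decide +kernel)
             (CovZ.badM (by decide +kernel))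
             (CovZ.n1 (3580, -100) (by decide +kernel)
              (CovZ.badM (by decide +kernel))
              (CovZ.leaf K2_ok TV_l2647 _)))
            (CovZ.badM (by decide +kernel)))
           (CovZ.n1 (3640, -120) (by decide +kernel)
            (CovZ.badM (by decide +kernel))
            (CovZ.n1 (3600, -120) (by decide +kernel)
             (CovZ.badM (by decide +kernel))
             (CovZ.badM (by decide +kernel)))))
          (CovZ.n1 (3520, -80) (by decide +kernel)
           (CovZ.n2 (3560, -40) (by decide +kernel)
            (CovZ.n2 (3560, -80) (by decide +kernel)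
             (CovZ.leaf K2_ok TV_l2648 _)
             (CovZ.leaf K2_ok TV_l2649 _))
            (CovZ.n1 (3520, -40) (by decide +kernel)
             (CovZ.leaf K2_ok TV_l2650 _)
             (CovZ.leaf K2_ok TV_l2651 _)))
           (CovZ.n1 (3560, -120) (by decide +kernel)
            (CovZ.n2 (3520, -120) (by decide +kernel)
             (CovZ.leaf K2_ok TV_l2652 _)
             (CovZ.n1 (3540, -140) (by decide +kernel)
              (CovZ.n2 (3520, -140) (by decide +kernel)
               (CovZ.leaf K2_ok TV_l2653 _)
               (CovZ.badM (by decide +kernel)))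
              (CovZ.n1 (3540, -120) (by decide +kernel)
               (CovZ.badM (by decide +kernel))
               (CovZ.leaf K2_ok TV_l2654 _))))
            (CovZ.n1 (3560, -80) (by decide +kernel)
             (CovZ.n2 (3580, -100) (by decide +kernel)
              (CovZ.leaf K2_ok TV_l2655 _)
              (CovZ.leaf K2_ok TV_l2656 _))
             (CovZ.n1 (3540, -100) (by decide +kernel)
              (CovZ.leaf K2_ok TV_l2657 _)
              (CovZ.n1 (3560, -100) (by decide +kernel)
               (CovZ.leaf K2_ok TV_l2658 _)
               (CovZ.leaf K2_ok TV_l2659 _)))))))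
         (CovZ.badM (by decide +kernel)))
        (CovZ.n1 (3680, 0) (by decide +kernel)
         (CovZ.n2 (3760, -80) (by decide +kernel)
          (CovZ.n2 (3680, -80) (by decide +kernel)
           (CovZ.n2 (3720, -40) (by decide +kernel)
            (CovZ.badM (by decide +kernel))
            (CovZ.n1 (3680, -40) (by decide +kernel)
             (CovZ.n2 (3700, -20) (by decide +kernel)
              (CovZ.badM (by decide +kernel))
              (CovZ.leaf K2_ok TV_l2660 _))
             (CovZ.badM (by decide +kernel))))
           (CovZ.badM (by decide +kernel)))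
          (CovZ.n1 (3760, 0) (by decide +kernel)
           (CovZ.badM (by decide +kernel))
           (CovZ.n1 (3720, -40) (by decide +kernel)
            (CovZ.n2 (3720, 0) (by decide +kernel)
             (CovZ.n2 (3740, -20) (by decide +kernel)
              (CovZ.n2 (3720, -20) (by decide +kernel)
               (CovZ.leaf K2_ok TV_l2661 _)
               (CovZ.badM (by decide +kernel)))
              (CovZ.n1 (3740, 0) (by decide +kernel)
               (CovZ.badM (by decide +kernel))
               (CovZ.leaf K2_ok TV_l2662 _)))
             (CovZ.n1 (3700, -20) (by decide +kernel)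
              (CovZ.leaf K2_ok TV_l2663 _)
              (CovZ.n1 (3720, -20) (by decide +kernel)
               (CovZ.badM (by decide +kernel))
               (CovZ.leaf K2_ok TV_l2664 _))))
            (CovZ.badM (by decide +kernel)))))
         (CovZ.n1 (3600, -80) (by decide +kernel)
          (CovZ.n2 (3600, 0) (by decide +kernel)
           (CovZ.n2 (3640, -40) (by decide +kernel)
            (CovZ.n2 (3600, -40) (by decide +kernel)
             (CovZ.leaf K2_ok TV_l2665 _)
             (CovZ.n1 (3620, -60) (by decide +kernel)
              (CovZ.leaf K2_ok TV_l2666 _)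
              (CovZ.leaf K2_ok TV_l2667 _)))
            (CovZ.n1 (3640, 0) (by decide +kernel)
             (CovZ.n2 (3660, -20) (by decide +kernel)
              (CovZ.leaf K2_ok TV_l2668 _)
              (CovZ.leaf K2_ok TV_l2669 _))
             (CovZ.n1 (3620, -20) (by decide +kernel)
              (CovZ.leaf K2_ok TV_l2670 _)
              (CovZ.leaf K2_ok TV_l2671 _))))
           (CovZ.n1 (3560, -40) (by decide +kernel)
            (CovZ.n2 (3560, 0) (by decide +kernel)
             (CovZ.leaf K2_ok TV_l2672 _)
             (CovZ.leaf K2_ok TV_l2673 _))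
            (CovZ.n1 (3600, -40) (by decide +kernel)
             (CovZ.n2 (3580, -60) (by decide +kernel)
              (CovZ.leaf K2_ok TV_l2674 _)
              (CovZ.leaf K2_ok TV_l2675 _))
             (CovZ.leaf K2_ok TV_l2676 _))))
          (CovZ.n1 (3680, -80) (by decide +kernel)
           (CovZ.badM (by decide +kernel))
           (CovZ.n1 (3640, -40) (by decide +kernel)
            (CovZ.n2 (3680, -40) (by decide +kernel)
             (CovZ.n2 (3660, -60) (by decide +kernel)
              (CovZ.n2 (3660, -40) (by decide +kernel)
               (CovZ.badM (by decide +kernel))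
               (CovZ.leaf K2_ok TV_l2677 _))
              (CovZ.badM (by decide +kernel)))
             (CovZ.n1 (3660, -20) (by decide +kernel)
              (CovZ.n2 (3680, -20) (by decide +kernel)
               (CovZ.leaf K2_ok TV_l2678 _)
               (CovZ.leaf K2_ok TV_l2679 _))
              (CovZ.leaf K2_ok TV_l2680 _)))
            (CovZ.n1 (3640, -80) (by decide +kernel)
             (CovZ.n2 (3620, -60) (by decide +kernel)
              (CovZ.n2 (3640, -60) (by decide +kernel)
               (CovZ.leaf K2_ok TV_l2681 _)
               (CovZ.leaf K2_ok TV_l2682 _))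
              (CovZ.leaf K2_ok TV_l2683 _))
             (CovZ.n1 (3660, -60) (by decide +kernel)
              (CovZ.badM (by decide +kernel))
              (CovZ.leaf K2_ok TV_l2684 _))))))))
       (CovZ.n1 (3360, -160) (by decide +kernel)
        (CovZ.n2 (3360, 0) (by decide +kernel)
         (CovZ.n2 (3440, -80) (by decide +kernel)
          (CovZ.n2 (3360, -80) (by decide +kernel)
           (CovZ.leaf K2_ok TV_l2685 _)
           (CovZ.n1 (3400, -120) (by decide +kernel)
            (CovZ.leaf K2_ok TV_l2686 _)
            (CovZ.n1 (3400, -80) (by decide +kernel)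
             (CovZ.leaf K2_ok TV_l2687 _)
             (CovZ.leaf K2_ok TV_l2688 _))))
          (CovZ.n1 (3440, 0) (by decide +kernel)
           (CovZ.n2 (3480, -40) (by decide +kernel)
            (CovZ.leaf K2_ok TV_l2689 _)
            (CovZ.leaf K2_ok TV_l2690 _))
           (CovZ.n1 (3400, -40) (by decide +kernel)
            (CovZ.leaf K2_ok TV_l2691 _)
            (CovZ.n1 (3440, -40) (by decide +kernel)
             (CovZ.leaf K2_ok TV_l2692 _)
             (CovZ.leaf K2_ok TV_l2693 _)))))
         (CovZ.n1 (3280, -80) (by decide +kernel)
          (CovZ.n2 (3280, 0) (by decide +kernel)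
           (CovZ.n2 (3320, -40) (by decide +kernel)
            (CovZ.leaf K2_ok TV_l2694 _)
            (CovZ.leaf K2_ok TV_l2695 _))
           (CovZ.n1 (3240, -40) (by decide +kernel)
            (CovZ.leaf K2_ok TV_l2696 _)
            (CovZ.leaf K2_ok TV_l2697 _)))
          (CovZ.n1 (3360, -80) (by decide +kernel)
           (CovZ.n2 (3320, -120) (by decide +kernel)
            (CovZ.leaf K2_ok TV_l2698 _)
            (CovZ.n1 (3360, -120) (by decide +kernel)
             (CovZ.leaf K2_ok TV_l2699 _)
             (CovZ.leaf K2_ok TV_l2700 _)))
           (CovZ.n1 (3320, -40) (by decide +kernel)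
            (CovZ.leaf K2_ok TV_l2701 _)
            (CovZ.leaf K2_ok TV_l2702 _)))))
        (CovZ.n1 (3520, -160) (by decide +kernel)
         (CovZ.n2 (3440, -240) (by decide +kernel)
          (CovZ.n2 (3440, -160) (by decide +kernel)
           (CovZ.n2 (3480, -200) (by decide +kernel)
            (CovZ.n2 (3440, -200) (by decide +kernel)
             (CovZ.n2 (3460, -180) (by decide +kernel)
              (CovZ.badM (by decide +kernel))
              (CovZ.leaf K2_ok TV_l2703 _))
             (CovZ.badM (by decide +kernel)))
            (CovZ.n1 (3480, -160) (by decide +kernel)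
             (CovZ.badM (by decide +kernel))
             (CovZ.n1 (3460, -180) (by decide +kernel)
              (CovZ.n2 (3460, -160) (by decide +kernel)
               (CovZ.badM (by decide +kernel))
               (CovZ.leaf K2_ok TV_l2704 _))
              (CovZ.badM (by decide +kernel)))))
           (CovZ.n1 (3400, -200) (by decide +kernel)
            (CovZ.n2 (3400, -160) (by decide +kernel)
             (CovZ.n2 (3420, -180) (by decide +kernel)
              (CovZ.leaf K2_ok TV_l2705 _)
              (CovZ.leaf K2_ok TV_l2706 _))
             (CovZ.n1 (3380, -180) (by decide +kernel)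
              (CovZ.leaf K2_ok TV_l2707 _)
              (CovZ.leaf K2_ok TV_l2708 _)))
            (CovZ.n1 (3440, -200) (by decide +kernel)
             (CovZ.badM (by decide +kernel))
             (CovZ.n1 (3420, -180) (by decide +kernel)
              (CovZ.n2 (3440, -180) (by decide +kernel)
               (CovZ.leaf K2_ok TV_l2709 _)
               (CovZ.leaf K2_ok TV_l2710 _))
              (CovZ.leaf K2_ok TV_l2711 _)))))
          (CovZ.badM (by decide +kernel)))
         (CovZ.n1 (3440, -80) (by decide +kernel)
          (CovZ.n2 (3520, -80) (by decide +kernel)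
           (CovZ.n2 (3480, -120) (by decide +kernel)
            (CovZ.n2 (3480, -80) (by decide +kernel)
             (CovZ.n2 (3500, -100) (by decide +kernel)
              (CovZ.leaf K2_ok TV_l2712 _)
              (CovZ.leaf K2_ok TV_l2713 _))
             (CovZ.n1 (3460, -100) (by decide +kernel)
              (CovZ.leaf K2_ok TV_l2714 _)
              (CovZ.leaf K2_ok TV_l2715 _)))
            (CovZ.n1 (3520, -120) (by decide +kernel)
             (CovZ.n2 (3500, -140) (by decide +kernel)
              (CovZ.leaf K2_ok TV_l2716 _)
              (CovZ.n1 (3520, -140) (by decide +kernel)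
               (CovZ.badM (by decide +kernel))
               (CovZ.leaf K2_ok TV_l2717 _)))
             (CovZ.n1 (3500, -100) (by decide +kernel)
              (CovZ.leaf K2_ok TV_l2718 _)
              (CovZ.leaf K2_ok TV_l2719 _))))
           (CovZ.n1 (3480, -40) (by decide +kernel)
            (CovZ.n2 (3520, -40) (by decide +kernel)
             (CovZ.leaf K2_ok TV_l2720 _)
             (CovZ.leaf K2_ok TV_l2721 _))
            (CovZ.leaf K2_ok TV_l2722 _)))
          (CovZ.n1 (3440, -160) (by decide +kernel)
           (CovZ.n2 (3400, -120) (by decide +kernel)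
            (CovZ.n2 (3440, -120) (by decide +kernel)
             (CovZ.n2 (3420, -140) (by decide +kernel)
              (CovZ.leaf K2_ok TV_l2723 _)
              (CovZ.leaf K2_ok TV_l2724 _))
             (CovZ.leaf K2_ok TV_l2725 _))
            (CovZ.n1 (3400, -160) (by decide +kernel)
             (CovZ.leaf K2_ok TV_l2726 _)
             (CovZ.leaf K2_ok TV_l2727 _)))
           (CovZ.n1 (3480, -120) (by decide +kernel)
            (CovZ.n2 (3480, -160) (by decide +kernel)
             (CovZ.n2 (3460, -140) (by decide +kernel)
              (CovZ.n2 (3480, -140) (by decide +kernel)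
               (CovZ.leaf K2_ok TV_l2728 _)
               (CovZ.leaf K2_ok TV_l2729 _))
              (CovZ.leaf K2_ok TV_l2730 _))
             (CovZ.n1 (3500, -140) (by decide +kernel)
              (CovZ.badM (by decide +kernel))
              (CovZ.leaf K2_ok TV_l2731 _)))
            (CovZ.n1 (3440, -120) (by decide +kernel)
             (CovZ.leaf K2_ok TV_l2732 _)
             (CovZ.n1 (3460, -140) (by decide +kernel)
              (CovZ.leaf K2_ok TV_l2733 _)
              (CovZ.leaf K2_ok TV_l2734 _)))))))))

theorem TV_u2 : CovZ TV_M (toL (selN TV_LN 184)) [0, 7, 4, 3] (3200, -640) (3200, -320) (2880, -320) :=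
    (CovZ.n2 (3040, -480) (by decide +kernel)
        (CovZ.n2 (3040, -320) (by decide +kernel)
         (CovZ.n2 (3120, -400) (by decide +kernel)
          (CovZ.n2 (3040, -400) (by decide +kernel)
           (CovZ.n2 (3080, -360) (by decide +kernel)
            (CovZ.n2 (3080, -400) (by decide +kernel)
             (CovZ.n2 (3060, -380) (by decide +kernel)
              (CovZ.n2 (3080, -380) (by decide +kernel)
               (CovZ.leaf K2_ok TV_l2781 _)
               (CovZ.leaf K2_ok TV_l2782 _))
              (CovZ.leaf K2_ok TV_l2783 _))
             (CovZ.n1 (3100, -380) (by decide +kernel)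
              (CovZ.badM (by decide +kernel))
              (CovZ.leaf K2_ok TV_l2784 _)))
            (CovZ.n1 (3040, -360) (by decide +kernel)
             (CovZ.leaf K2_ok TV_l2785 _)
             (CovZ.n1 (3060, -380) (by decide +kernel)
              (CovZ.leaf K2_ok TV_l2786 _)
              (CovZ.leaf K2_ok TV_l2787 _))))
           (CovZ.n1 (3080, -440) (by decide +kernel)
            (CovZ.n2 (3040, -440) (by decide +kernel)
             (CovZ.n2 (3060, -420) (by decide +kernel)
              (CovZ.badM (by decide +kernel))
              (CovZ.n1 (3040, -420) (by decide +kernel)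
               (CovZ.leaf K2_ok TV_l2788 _)
               (CovZ.badM (by decide +kernel))))
             (CovZ.badM (by decide +kernel)))
            (CovZ.n1 (3080, -400) (by decide +kernel)
             (CovZ.badM (by decide +kernel))
             (CovZ.n1 (3060, -420) (by decide +kernel)
              (CovZ.n2 (3060, -400) (by decide +kernel)
               (CovZ.leaf K2_ok TV_l2789 _)
               (CovZ.leaf K2_ok TV_l2790 _))
              (CovZ.badM (by decide +kernel))))))
          (CovZ.n1 (3120, -320) (by decide +kernel)
           (CovZ.n2 (3160, -360) (by decide +kernel)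
            (CovZ.n2 (3120, -360) (by decide +kernel)
             (CovZ.leaf K2_ok TV_l2791 _)
             (CovZ.n1 (3140, -380) (by decide +kernel)
              (CovZ.n2 (3120, -380) (by decide +kernel)
               (CovZ.leaf K2_ok TV_l2792 _)
               (CovZ.badM (by decide +kernel)))
              (CovZ.n1 (3140, -360) (by decide +kernel)
               (CovZ.badM (by decide +kernel))
               (CovZ.leaf K2_ok TV_l2793 _))))
            (CovZ.n1 (3160, -320) (by decide +kernel)
             (CovZ.n2 (3180, -340) (by decide +kernel)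
              (CovZ.leaf K2_ok TV_l2794 _)
              (CovZ.n1 (3180, -320) (by decide +kernel)
               (CovZ.leaf K2_ok TV_l2795 _)
               (CovZ.leaf K2_ok TV_l2796 _)))
             (CovZ.n1 (3140, -340) (by decide +kernel)
              (CovZ.leaf K2_ok TV_l2797 _)
              (CovZ.n1 (3160, -340) (by decide +kernel)
               (CovZ.leaf K2_ok TV_l2798 _)
               (CovZ.leaf K2_ok TV_l2799 _)))))
           (CovZ.n1 (3080, -360) (by decide +kernel)
            (CovZ.n2 (3080, -320) (by decide +kernel)
             (CovZ.n2 (3100, -340) (by decide +kernel)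
              (CovZ.leaf K2_ok TV_l2800 _)
              (CovZ.leaf K2_ok TV_l2801 _))
             (CovZ.n1 (3060, -340) (by decide +kernel)
              (CovZ.leaf K2_ok TV_l2802 _)
              (CovZ.leaf K2_ok TV_l2803 _)))
            (CovZ.n1 (3120, -360) (by decide +kernel)
             (CovZ.n2 (3100, -380) (by decide +kernel)
              (CovZ.n2 (3100, -360) (by decide +kernel)
               (CovZ.leaf K2_ok TV_l2804 _)
               (CovZ.leaf K2_ok TV_l2805 _))
              (CovZ.n1 (3120, -380) (by decide +kernel)
               (CovZ.badM (by decide +kernel))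
               (CovZ.leaf K2_ok TV_l2806 _)))
             (CovZ.n1 (3100, -340) (by decide +kernel)
              (CovZ.leaf K2_ok TV_l2807 _)
              (CovZ.leaf K2_ok TV_l2808 _))))))
         (CovZ.n1 (2960, -400) (by decide +kernel)
          (CovZ.n2 (2960, -320) (by decide +kernel)
           (CovZ.n2 (3000, -360) (by decide +kernel)
            (CovZ.n2 (2960, -360) (by decide +kernel)
             (CovZ.n2 (2980, -340) (by decide +kernel)
              (CovZ.n2 (2980, -360) (by decide +kernel)
               (CovZ.leaf K2_ok TV_l2809 _)
               (CovZ.leaf K2_ok TV_l2810 _))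
              (CovZ.n1 (2960, -340) (by decide +kernel)
               (CovZ.leaf K2_ok TV_l2811 _)
               (CovZ.leaf K2_ok TV_l2812 _)))
             (CovZ.n1 (2980, -380) (by decide +kernel)
              (CovZ.badM (by decide +kernel))
              (CovZ.n1 (2980, -360) (by decide +kernel)
               (CovZ.leaf K2_ok TV_l2813 _)
               (CovZ.badM (by decide +kernel)))))
            (CovZ.n1 (3000, -320) (by decide +kernel)
             (CovZ.n2 (3020, -340) (by decide +kernel)
              (CovZ.leaf K2_ok TV_l2814 _)
              (CovZ.leaf K2_ok TV_l2815 _))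
             (CovZ.n1 (2980, -340) (by decide +kernel)
              (CovZ.n2 (2980, -320) (by decide +kernel)
               (CovZ.leaf K2_ok TV_l2816 _)
               (CovZ.leaf K2_ok TV_l2817 _))
              (CovZ.n1 (3000, -340) (by decide +kernel)
               (CovZ.leaf K2_ok TV_l2818 _)
               (CovZ.leaf K2_ok TV_l2819 _)))))
           (CovZ.n1 (2920, -360) (by decide +kernel)
            (CovZ.n2 (2920, -320) (by decide +kernel)
             (CovZ.n2 (2940, -340) (by decide +kernel)
              (CovZ.badM (by decide +kernel))
              (CovZ.n1 (2940, -320) (by decide +kernel)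
               (CovZ.leaf K2_ok TV_l2820 _)
               (CovZ.badM (by decide +kernel))))
             (CovZ.badM (by decide +kernel)))
            (CovZ.n1 (2960, -360) (by decide +kernel)
             (CovZ.badM (by decide +kernel))
             (CovZ.n1 (2940, -340) (by decide +kernel)
              (CovZ.n2 (2960, -340) (by decide +kernel)
               (CovZ.badM (by decide +kernel))
               (CovZ.leaf K2_ok TV_l2821 _))
              (CovZ.badM (by decide +kernel))))))
          (CovZ.n1 (3040, -400) (by decide +kernel)
           (CovZ.n2 (3000, -440) (by decide +kernel)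
            (CovZ.n2 (3000, -400) (by decide +kernel)
             (CovZ.n2 (3020, -420) (by decide +kernel)
              (CovZ.badM (by decide +kernel))
              (CovZ.n1 (3020, -400) (by decide +kernel)
               (CovZ.leaf K2_ok TV_l2822 _)
               (CovZ.badM (by decide +kernel))))
             (CovZ.badM (by decide +kernel)))
            (CovZ.n1 (3040, -440) (by decide +kernel)
             (CovZ.badM (by decide +kernel))
             (CovZ.n1 (3020, -420) (by decide +kernel)
              (CovZ.n2 (3040, -420) (by decide +kernel)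
               (CovZ.badM (by decide +kernel))
               (CovZ.leaf K2_ok TV_l2823 _))
              (CovZ.badM (by decide +kernel)))))
           (CovZ.n1 (3000, -360) (by decide +kernel)
            (CovZ.n2 (3040, -360) (by decide +kernel)
             (CovZ.n2 (3020, -380) (by decide +kernel)
              (CovZ.leaf K2_ok TV_l2824 _)
              (CovZ.n1 (3040, -380) (by decide +kernel)
               (CovZ.leaf K2_ok TV_l2825 _)
               (CovZ.leaf K2_ok TV_l2826 _)))
             (CovZ.n1 (3020, -340) (by decide +kernel)
              (CovZ.leaf K2_ok TV_l2827 _)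
              (CovZ.leaf K2_ok TV_l2828 _)))
            (CovZ.n1 (3000, -400) (by decide +kernel)
             (CovZ.n2 (2980, -380) (by decide +kernel)
              (CovZ.n2 (3000, -380) (by decide +kernel)
               (CovZ.badM (by decide +kernel))
               (CovZ.leaf K2_ok TV_l2829 _))
              (CovZ.badM (by decide +kernel)))
             (CovZ.leaf K2_ok TV_l2830 _))))))
        (CovZ.badM (by decide +kernel)))

theorem TV_u3 : CovZ TV_M (toL (selN TV_LN 184)) [0, 7, 4, 3] (3200, -320) (3200, 0) (2880, -320) :=
    (CovZ.n1 (3040, -160) (by decide +kernel)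
        (CovZ.n2 (3200, -160) (by decide +kernel)
         (CovZ.n2 (3120, -240) (by decide +kernel)
          (CovZ.n2 (3120, -160) (by decide +kernel)
           (CovZ.n2 (3160, -200) (by decide +kernel)
            (CovZ.leaf K2_ok TV_l2831 _)
            (CovZ.leaf K2_ok TV_l2832 _))
           (CovZ.n1 (3080, -200) (by decide +kernel)
            (CovZ.n2 (3080, -160) (by decide +kernel)
             (CovZ.leaf K2_ok TV_l2833 _)
             (CovZ.leaf K2_ok TV_l2834 _))
            (CovZ.n1 (3120, -200) (by decide +kernel)
             (CovZ.leaf K2_ok TV_l2835 _)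
             (CovZ.leaf K2_ok TV_l2836 _))))
          (CovZ.n1 (3200, -240) (by decide +kernel)
           (CovZ.n2 (3160, -280) (by decide +kernel)
            (CovZ.n2 (3160, -240) (by decide +kernel)
             (CovZ.leaf K2_ok TV_l2837 _)
             (CovZ.leaf K2_ok TV_l2838 _))
            (CovZ.n1 (3200, -280) (by decide +kernel)
             (CovZ.n2 (3180, -300) (by decide +kernel)
              (CovZ.leaf K2_ok TV_l2839 _)
              (CovZ.n1 (3200, -300) (by decide +kernel)
               (CovZ.leaf K2_ok TV_l2840 _)
               (CovZ.leaf K2_ok TV_l2841 _)))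
             (CovZ.leaf K2_ok TV_l2842 _)))
           (CovZ.n1 (3160, -200) (by decide +kernel)
            (CovZ.n2 (3200, -200) (by decide +kernel)
             (CovZ.leaf K2_ok TV_l2843 _)
             (CovZ.leaf K2_ok TV_l2844 _))
            (CovZ.leaf K2_ok TV_l2845 _))))
         (CovZ.n1 (3120, -80) (by decide +kernel)
          (CovZ.n2 (3200, -80) (by decide +kernel)
           (CovZ.n2 (3160, -120) (by decide +kernel)
            (CovZ.leaf K2_ok TV_l2846 _)
            (CovZ.leaf K2_ok TV_l2847 _))
           (CovZ.n1 (3160, -40) (by decide +kernel)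
            (CovZ.leaf K2_ok TV_l2848 _)
            (CovZ.leaf K2_ok TV_l2849 _)))
          (CovZ.n1 (3120, -160) (by decide +kernel)
           (CovZ.n2 (3080, -120) (by decide +kernel)
            (CovZ.n2 (3120, -120) (by decide +kernel)
             (CovZ.leaf K2_ok TV_l2850 _)
             (CovZ.leaf K2_ok TV_l2851 _))
            (CovZ.n1 (3080, -160) (by decide +kernel)
             (CovZ.leaf K2_ok TV_l2852 _)
             (CovZ.leaf K2_ok TV_l2853 _)))
           (CovZ.leaf K2_ok TV_l2854 _))))
        (CovZ.n1 (3040, -320) (by decide +kernel)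
         (CovZ.n2 (2960, -240) (by decide +kernel)
          (CovZ.n2 (3040, -240) (by decide +kernel)
           (CovZ.n2 (3000, -280) (by decide +kernel)
            (CovZ.n2 (3000, -240) (by decide +kernel)
             (CovZ.n2 (3020, -260) (by decide +kernel)
              (CovZ.leaf K2_ok TV_l2855 _)
              (CovZ.leaf K2_ok TV_l2856 _))
             (CovZ.n1 (2980, -260) (by decide +kernel)
              (CovZ.n2 (2980, -240) (by decide +kernel)
               (CovZ.leaf K2_ok TV_l2857 _)
               (CovZ.leaf K2_ok TV_l2858 _))
              (CovZ.leaf K2_ok TV_l2859 _)))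
            (CovZ.n1 (3040, -280) (by decide +kernel)
             (CovZ.n2 (3020, -300) (by decide +kernel)
              (CovZ.leaf K2_ok TV_l2860 _)
              (CovZ.leaf K2_ok TV_l2861 _))
             (CovZ.n1 (3020, -260) (by decide +kernel)
              (CovZ.leaf K2_ok TV_l2862 _)
              (CovZ.leaf K2_ok TV_l2863 _))))
           (CovZ.n1 (3000, -200) (by decide +kernel)
            (CovZ.n2 (3040, -200) (by decide +kernel)
             (CovZ.n2 (3020, -220) (by decide +kernel)
              (CovZ.leaf K2_ok TV_l2864 _)
              (CovZ.leaf K2_ok TV_l2865 _))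
             (CovZ.n1 (3020, -180) (by decide +kernel)
              (CovZ.leaf K2_ok TV_l2866 _)
              (CovZ.leaf K2_ok TV_l2867 _)))
            (CovZ.n1 (3000, -240) (by decide +kernel)
             (CovZ.n2 (2980, -220) (by decide +kernel)
              (CovZ.leaf K2_ok TV_l2868 _)
              (CovZ.leaf K2_ok TV_l2869 _))
             (CovZ.leaf K2_ok TV_l2870 _))))
          (CovZ.n1 (2960, -320) (by decide +kernel)
           (CovZ.n2 (2920, -280) (by decide +kernel)
            (CovZ.n2 (2960, -280) (by decide +kernel)
             (CovZ.n2 (2940, -300) (by decide +kernel)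
              (CovZ.n2 (2940, -280) (by decide +kernel)
               (CovZ.leaf K2_ok TV_l2871 _)
               (CovZ.leaf K2_ok TV_l2872 _))
              (CovZ.n1 (2960, -300) (by decide +kernel)
               (CovZ.leaf K2_ok TV_l2873 _)
               (CovZ.leaf K2_ok TV_l2874 _)))
             (CovZ.n1 (2940, -260) (by decide +kernel)
              (CovZ.n2 (2960, -260) (by decide +kernel)
               (CovZ.leaf K2_ok TV_l2875 _)
               (CovZ.leaf K2_ok TV_l2876 _))
              (CovZ.leaf K2_ok TV_l2877 _)))
            (CovZ.n1 (2920, -320) (by decide +kernel)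
             (CovZ.badM (by decide +kernel))
             (CovZ.n1 (2940, -300) (by decide +kernel)
              (CovZ.n2 (2940, -320) (by decide +kernel)
               (CovZ.badM (by decide +kernel))
               (CovZ.leaf K2_ok TV_l2878 _))
              (CovZ.badM (by decide +kernel)))))
           (CovZ.n1 (3000, -280) (by decide +kernel)
            (CovZ.n2 (3000, -320) (by decide +kernel)
             (CovZ.n2 (2980, -300) (by decide +kernel)
              (CovZ.n2 (3000, -300) (by decide +kernel)
               (CovZ.leaf K2_ok TV_l2879 _)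
               (CovZ.leaf K2_ok TV_l2880 _))
              (CovZ.leaf K2_ok TV_l2881 _))
             (CovZ.leaf K2_ok TV_l2882 _))
            (CovZ.n1 (2960, -280) (by decide +kernel)
             (CovZ.n2 (2980, -260) (by decide +kernel)
              (CovZ.leaf K2_ok TV_l2883 _)
              (CovZ.leaf K2_ok TV_l2884 _))
             (CovZ.n1 (2980, -300) (by decide +kernel)
              (CovZ.leaf K2_ok TV_l2885 _)
              (CovZ.n1 (2980, -280) (by decide +kernel)
               (CovZ.leaf K2_ok TV_l2886 _)
               (CovZ.leaf K2_ok TV_l2887 _)))))))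
         (CovZ.n1 (3120, -240) (by decide +kernel)
          (CovZ.n2 (3120, -320) (by decide +kernel)
           (CovZ.n2 (3080, -280) (by decide +kernel)
            (CovZ.n2 (3120, -280) (by decide +kernel)
             (CovZ.n2 (3100, -300) (by decide +kernel)
              (CovZ.leaf K2_ok TV_l2888 _)
              (CovZ.leaf K2_ok TV_l2889 _))
             (CovZ.leaf K2_ok TV_l2890 _))
            (CovZ.n1 (3080, -320) (by decide +kernel)
             (CovZ.leaf K2_ok TV_l2891 _)
             (CovZ.leaf K2_ok TV_l2892 _)))
           (CovZ.n1 (3160, -280) (by decide +kernel)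
            (CovZ.n2 (3160, -320) (by decide +kernel)
             (CovZ.n2 (3140, -300) (by decide +kernel)
              (CovZ.leaf K2_ok TV_l2893 _)
              (CovZ.leaf K2_ok TV_l2894 _))
             (CovZ.leaf K2_ok TV_l2895 _))
            (CovZ.n1 (3120, -280) (by decide +kernel)
             (CovZ.leaf K2_ok TV_l2896 _)
             (CovZ.n1 (3140, -300) (by decide +kernel)
              (CovZ.leaf K2_ok TV_l2897 _)
              (CovZ.leaf K2_ok TV_l2898 _)))))
          (CovZ.n1 (3040, -240) (by decide +kernel)
           (CovZ.n2 (3080, -200) (by decide +kernel)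
            (CovZ.n2 (3080, -240) (by decide +kernel)
             (CovZ.leaf K2_ok TV_l2899 _)
             (CovZ.leaf K2_ok TV_l2900 _))
            (CovZ.n1 (3040, -200) (by decide +kernel)
             (CovZ.leaf K2_ok TV_l2901 _)
             (CovZ.leaf K2_ok TV_l2902 _)))
           (CovZ.n1 (3080, -280) (by decide +kernel)
            (CovZ.n2 (3040, -280) (by decide +kernel)
             (CovZ.leaf K2_ok TV_l2903 _)
             (CovZ.leaf K2_ok TV_l2904 _))
            (CovZ.n1 (3080, -240) (by decide +kernel)
             (CovZ.leaf K2_ok TV_l2905 _)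
             (CovZ.n1 (3060, -260) (by decide +kernel)
              (CovZ.leaf K2_ok TV_l2906 _)
              (CovZ.leaf K2_ok TV_l2907 _))))))))

theorem TV_u4 : CovZ TV_M (toL (selN TV_LN 152)) [0, 7, 4, 3] (3840, 0) (3520, 320) (3200, 0) :=
    (CovZ.n2 (3520, 0) (by decide +kernel)
       (CovZ.n2 (3360, 160) (by decide +kernel)
        (CovZ.n2 (3520, 160) (by decide +kernel)
         (CovZ.n2 (3440, 80) (by decide +kernel)
          (CovZ.n2 (3440, 160) (by decide +kernel)
           (CovZ.n2 (3480, 120) (by decide +kernel)
            (CovZ.leaf K2_ok TV_l2994 _)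
            (CovZ.n1 (3480, 160) (by decide +kernel)
             (CovZ.leaf K2_ok TV_l2995 _)
             (CovZ.leaf K2_ok TV_l2996 _)))
           (CovZ.n1 (3400, 120) (by decide +kernel)
            (CovZ.leaf K2_ok TV_l2997 _)
            (CovZ.leaf K2_ok TV_l2998 _)))
          (CovZ.n1 (3520, 80) (by decide +kernel)
           (CovZ.n2 (3480, 40) (by decide +kernel)
            (CovZ.leaf K2_ok TV_l2999 _)
            (CovZ.leaf K2_ok TV_l3000 _))
           (CovZ.n1 (3480, 120) (by decide +kernel)
            (CovZ.n2 (3520, 120) (by decide +kernel)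
             (CovZ.leaf K2_ok TV_l3001 _)
             (CovZ.leaf K2_ok TV_l3002 _))
            (CovZ.leaf K2_ok TV_l3003 _))))
         (CovZ.n1 (3440, 240) (by decide +kernel)
          (CovZ.n2 (3520, 240) (by decide +kernel)
           (CovZ.n2 (3480, 200) (by decide +kernel)
            (CovZ.n2 (3480, 240) (by decide +kernel)
             (CovZ.n2 (3500, 220) (by decide +kernel)
              (CovZ.leaf K2_ok TV_l3004 _)
              (CovZ.badM (by decide +kernel)))
             (CovZ.n1 (3460, 220) (by decide +kernel)
              (CovZ.n2 (3460, 240) (by decide +kernel)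
               (CovZ.leaf K2_ok TV_l3005 _)
               (CovZ.leaf K2_ok TV_l3006 _))
              (CovZ.leaf K2_ok TV_l3007 _)))
            (CovZ.n1 (3520, 200) (by decide +kernel)
             (CovZ.n2 (3500, 180) (by decide +kernel)
              (CovZ.leaf K2_ok TV_l3008 _)
              (CovZ.leaf K2_ok TV_l3009 _))
             (CovZ.n1 (3500, 220) (by decide +kernel)
              (CovZ.badM (by decide +kernel))
              (CovZ.leaf K2_ok TV_l3010 _))))
           (CovZ.n1 (3480, 280) (by decide +kernel)
            (CovZ.badM (by decide +kernel))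
            (CovZ.n1 (3480, 240) (by decide +kernel)
             (CovZ.n2 (3460, 260) (by decide +kernel)
              (CovZ.badM (by decide +kernel))
              (CovZ.leaf K2_ok TV_l3011 _))
             (CovZ.badM (by decide +kernel)))))
          (CovZ.n1 (3440, 160) (by decide +kernel)
           (CovZ.n2 (3400, 200) (by decide +kernel)
            (CovZ.n2 (3440, 200) (by decide +kernel)
             (CovZ.leaf K2_ok TV_l3012 _)
             (CovZ.n1 (3420, 220) (by decide +kernel)
              (CovZ.leaf K2_ok TV_l3013 _)
              (CovZ.leaf K2_ok TV_l3014 _)))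
            (CovZ.n1 (3400, 160) (by decide +kernel)
             (CovZ.leaf K2_ok TV_l3015 _)
             (CovZ.leaf K2_ok TV_l3016 _)))
           (CovZ.n1 (3480, 200) (by decide +kernel)
            (CovZ.n2 (3480, 160) (by decide +kernel)
             (CovZ.n2 (3460, 180) (by decide +kernel)
              (CovZ.leaf K2_ok TV_l3017 _)
              (CovZ.leaf K2_ok TV_l3018 _))
             (CovZ.leaf K2_ok TV_l3019 _))
            (CovZ.n1 (3440, 200) (by decide +kernel)
             (CovZ.leaf K2_ok TV_l3020 _)
             (CovZ.n1 (3460, 180) (by decide +kernel)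
              (CovZ.leaf K2_ok TV_l3021 _)
              (CovZ.leaf K2_ok TV_l3022 _)))))))
        (CovZ.n1 (3360, 0) (by decide +kernel)
         (CovZ.n2 (3280, 80) (by decide +kernel)
          (CovZ.n2 (3360, 80) (by decide +kernel)
           (CovZ.leaf K2_ok TV_l3023 _)
           (CovZ.n1 (3320, 120) (by decide +kernel)
            (CovZ.leaf K2_ok TV_l3024 _)
            (CovZ.leaf K2_ok TV_l3025 _)))
          (CovZ.n1 (3280, 0) (by decide +kernel)
           (CovZ.leaf K2_ok TV_l3026 _)
           (CovZ.leaf K2_ok TV_l3027 _)))
         (CovZ.n1 (3440, 80) (by decide +kernel)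
          (CovZ.n2 (3440, 0) (by decide +kernel)
           (CovZ.leaf K2_ok TV_l3028 _)
           (CovZ.leaf K2_ok TV_l3029 _))
          (CovZ.n1 (3360, 80) (by decide +kernel)
           (CovZ.leaf K2_ok TV_l3030 _)
           (CovZ.leaf K2_ok TV_l3031 _)))))
       (CovZ.n1 (3680, 160) (by decide +kernel)
        (CovZ.n2 (3680, 0) (by decide +kernel)
         (CovZ.n2 (3600, 80) (by decide +kernel)
          (CovZ.n2 (3680, 80) (by decide +kernel)
           (CovZ.n2 (3640, 40) (by decide +kernel)
            (CovZ.n2 (3640, 80) (by decide +kernel)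
             (CovZ.n2 (3660, 60) (by decide +kernel)
              (CovZ.leaf K2_ok TV_l3032 _)
              (CovZ.leaf K2_ok TV_l3033 _))
             (CovZ.n1 (3620, 60) (by decide +kernel)
              (CovZ.leaf K2_ok TV_l3034 _)
              (CovZ.leaf K2_ok TV_l3035 _)))
            (CovZ.n1 (3680, 40) (by decide +kernel)
             (CovZ.leaf K2_ok TV_l3036 _)
             (CovZ.n1 (3660, 60) (by decide +kernel)
              (CovZ.leaf K2_ok TV_l3037 _)
              (CovZ.leaf K2_ok TV_l3038 _))))
           (CovZ.n1 (3640, 120) (by decide +kernel)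
            (CovZ.badM (by decide +kernel))
            (CovZ.n1 (3640, 80) (by decide +kernel)
             (CovZ.n2 (3620, 100) (by decide +kernel)
              (CovZ.leaf K2_ok TV_l3039 _)
              (CovZ.leaf K2_ok TV_l3040 _))
             (CovZ.n1 (3660, 100) (by decide +kernel)
              (CovZ.n2 (3660, 80) (by decide +kernel)
               (CovZ.leaf K2_ok TV_l3041 _)
               (CovZ.leaf K2_ok TV_l3042 _))
              (CovZ.leaf K2_ok TV_l3043 _)))))
          (CovZ.n1 (3600, 0) (by decide +kernel)
           (CovZ.n2 (3560, 40) (by decide +kernel)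
            (CovZ.n2 (3600, 40) (by decide +kernel)
             (CovZ.leaf K2_ok TV_l3044 _)
             (CovZ.leaf K2_ok TV_l3045 _))
            (CovZ.leaf K2_ok TV_l3046 _))
           (CovZ.n1 (3640, 40) (by decide +kernel)
            (CovZ.n2 (3640, 0) (by decide +kernel)
             (CovZ.leaf K2_ok TV_l3047 _)
             (CovZ.leaf K2_ok TV_l3048 _))
            (CovZ.leaf K2_ok TV_l3049 _))))
         (CovZ.n1 (3760, 80) (by decide +kernel)
          (CovZ.n2 (3760, 0) (by decide +kernel)
           (CovZ.n2 (3720, 40) (by decide +kernel)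
            (CovZ.n2 (3760, 40) (by decide +kernel)
             (CovZ.n2 (3740, 20) (by decide +kernel)
              (CovZ.n2 (3740, 40) (by decide +kernel)
               (CovZ.leaf K2_ok TV_l3050 _)
               (CovZ.leaf K2_ok TV_l3051 _))
              (CovZ.n1 (3760, 20) (by decide +kernel)
               (CovZ.leaf K2_ok TV_l3052 _)
               (CovZ.leaf K2_ok TV_l3053 _)))
             (CovZ.badM (by decide +kernel)))
            (CovZ.n1 (3720, 0) (by decide +kernel)
             (CovZ.n2 (3700, 20) (by decide +kernel)
              (CovZ.leaf K2_ok TV_l3054 _)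
              (CovZ.leaf K2_ok TV_l3055 _))
             (CovZ.leaf K2_ok TV_l3056 _)))
           (CovZ.n1 (3800, 40) (by decide +kernel)
            (CovZ.badM (by decide +kernel))
            (CovZ.n1 (3760, 40) (by decide +kernel)
             (CovZ.badM (by decide +kernel))
             (CovZ.n1 (3780, 20) (by decide +kernel)
              (CovZ.leaf K2_ok TV_l3057 _)
              (CovZ.badM (by decide +kernel))))))
          (CovZ.n1 (3680, 80) (by decide +kernel)
           (CovZ.badM (by decide +kernel))
           (CovZ.n1 (3720, 40) (by decide +kernel)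
            (CovZ.n2 (3680, 40) (by decide +kernel)
             (CovZ.n2 (3700, 60) (by decide +kernel)
              (CovZ.leaf K2_ok TV_l3058 _)
              (CovZ.leaf K2_ok TV_l3059 _))
             (CovZ.n1 (3700, 20) (by decide +kernel)
              (CovZ.leaf K2_ok TV_l3060 _)
              (CovZ.leaf K2_ok TV_l3061 _)))
            (CovZ.badM (by decide +kernel))))))
        (CovZ.n1 (3520, 160) (by decide +kernel)
         (CovZ.n2 (3600, 240) (by decide +kernel)
          (CovZ.n2 (3600, 160) (by decide +kernel)
           (CovZ.n2 (3560, 200) (by decide +kernel)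
            (CovZ.badM (by decide +kernel))
            (CovZ.n1 (3560, 160) (by decide +kernel)
             (CovZ.n2 (3540, 180) (by decide +kernel)
              (CovZ.badM (by decide +kernel))
              (CovZ.leaf K2_ok TV_l3062 _))
             (CovZ.badM (by decide +kernel))))
           (CovZ.badM (by decide +kernel)))
          (CovZ.n1 (3520, 240) (by decide +kernel)
           (CovZ.badM (by decide +kernel))
           (CovZ.n1 (3560, 200) (by decide +kernel)
            (CovZ.n2 (3520, 200) (by decide +kernel)
             (CovZ.badM (by decide +kernel))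
             (CovZ.n1 (3540, 180) (by decide +kernel)
              (CovZ.leaf K2_ok TV_l3063 _)
              (CovZ.badM (by decide +kernel))))
            (CovZ.badM (by decide +kernel)))))
         (CovZ.n1 (3600, 80) (by decide +kernel)
          (CovZ.n2 (3520, 80) (by decide +kernel)
           (CovZ.n2 (3560, 120) (by decide +kernel)
            (CovZ.n2 (3560, 80) (by decide +kernel)
             (CovZ.leaf K2_ok TV_l3064 _)
             (CovZ.leaf K2_ok TV_l3065 _))
            (CovZ.leaf K2_ok TV_l3066 _))
           (CovZ.n1 (3560, 40) (by decide +kernel)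
            (CovZ.leaf K2_ok TV_l3067 _)
            (CovZ.n1 (3560, 80) (by decide +kernel)
             (CovZ.leaf K2_ok TV_l3068 _)
             (CovZ.leaf K2_ok TV_l3069 _))))
          (CovZ.n1 (3600, 160) (by decide +kernel)
           (CovZ.n2 (3640, 120) (by decide +kernel)
            (CovZ.n2 (3600, 120) (by decide +kernel)
             (CovZ.n2 (3620, 140) (by decide +kernel)
              (CovZ.n2 (3620, 120) (by decide +kernel)
               (CovZ.leaf K2_ok TV_l3070 _)
               (CovZ.badM (by decide +kernel)))
              (CovZ.leaf K2_ok TV_l3071 _))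
             (CovZ.n1 (3620, 100) (by decide +kernel)
              (CovZ.leaf K2_ok TV_l3072 _)
              (CovZ.n1 (3620, 120) (by decide +kernel)
               (CovZ.leaf K2_ok TV_l3073 _)
               (CovZ.leaf K2_ok TV_l3074 _))))
            (CovZ.badM (by decide +kernel)))
           (CovZ.n1 (3560, 120) (by decide +kernel)
            (CovZ.n2 (3560, 160) (by decide +kernel)
             (CovZ.n2 (3580, 140) (by decide +kernel)
              (CovZ.leaf K2_ok TV_l3075 _)
              (CovZ.n1 (3580, 160) (by decide +kernel)
               (CovZ.leaf K2_ok TV_l3076 _)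
               (CovZ.leaf K2_ok TV_l3077 _)))
             (CovZ.n1 (3540, 140) (by decide +kernel)
              (CovZ.leaf K2_ok TV_l3078 _)
              (CovZ.leaf K2_ok TV_l3079 _)))
            (CovZ.n1 (3600, 120) (by decide +kernel)
             (CovZ.n2 (3580, 100) (by decide +kernel)
              (CovZ.leaf K2_ok TV_l3080 _)
              (CovZ.leaf K2_ok TV_l3081 _))
             (CovZ.n1 (3580, 140) (by decide +kernel)
              (CovZ.n2 (3600, 140) (by decide +kernel)
               (CovZ.leaf K2_ok TV_l3082 _)
               (CovZ.leaf K2_ok TV_l3083 _))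
              (CovZ.leaf K2_ok TV_l3084 _)))))))))

theorem TV_u5 : CovZ TV_M (toL (selN TV_LN 152)) [0, 7, 4, 3] (3520, 320) (3200, 640) (3200, 0) :=
    (CovZ.n1 (3200, 320) (by decide +kernel)
       (CovZ.n2 (3360, 480) (by decide +kernel)
        (CovZ.n2 (3360, 320) (by decide +kernel)
         (CovZ.n2 (3280, 400) (by decide +kernel)
          (CovZ.badM (by decide +kernel))
          (CovZ.n1 (3280, 320) (by decide +kernel)
           (CovZ.n2 (3240, 360) (by decide +kernel)
            (CovZ.n2 (3280, 360) (by decide +kernel)
             (CovZ.leaf K2_ok TV_l3085 _)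
             (CovZ.leaf K2_ok TV_l3086 _))
            (CovZ.n1 (3240, 320) (by decide +kernel)
             (CovZ.leaf K2_ok TV_l3087 _)
             (CovZ.leaf K2_ok TV_l3088 _)))
           (CovZ.n1 (3320, 360) (by decide +kernel)
            (CovZ.n2 (3320, 320) (by decide +kernel)
             (CovZ.n2 (3300, 340) (by decide +kernel)
              (CovZ.leaf K2_ok TV_l3089 _)
              (CovZ.leaf K2_ok TV_l3090 _))
             (CovZ.leaf K2_ok TV_l3091 _))
            (CovZ.n1 (3280, 360) (by decide +kernel)
             (CovZ.leaf K2_ok TV_l3092 _)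
             (CovZ.n1 (3300, 340) (by decide +kernel)
              (CovZ.leaf K2_ok TV_l3093 _)
              (CovZ.leaf K2_ok TV_l3094 _))))))
         (CovZ.badM (by decide +kernel)))
        (CovZ.n1 (3200, 480) (by decide +kernel)
         (CovZ.badM (by decide +kernel))
         (CovZ.n1 (3280, 400) (by decide +kernel)
          (CovZ.n2 (3200, 400) (by decide +kernel)
           (CovZ.n2 (3240, 440) (by decide +kernel)
            (CovZ.n2 (3240, 400) (by decide +kernel)
             (CovZ.leaf K2_ok TV_l3095 _)
             (CovZ.badM (by decide +kernel)))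
            (CovZ.n1 (3200, 440) (by decide +kernel)
             (CovZ.badM (by decide +kernel))
             (CovZ.leaf K2_ok TV_l3096 _)))
           (CovZ.n1 (3240, 360) (by decide +kernel)
            (CovZ.leaf K2_ok TV_l3097 _)
            (CovZ.n1 (3240, 400) (by decide +kernel)
             (CovZ.leaf K2_ok TV_l3098 _)
             (CovZ.leaf K2_ok TV_l3099 _))))
          (CovZ.badM (by decide +kernel)))))
       (CovZ.n1 (3360, 160) (by decide +kernel)
        (CovZ.n2 (3200, 160) (by decide +kernel)
         (CovZ.n2 (3280, 240) (by decide +kernel)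
          (CovZ.n2 (3280, 160) (by decide +kernel)
           (CovZ.n2 (3240, 200) (by decide +kernel)
            (CovZ.leaf K2_ok TV_l3100 _)
            (CovZ.leaf K2_ok TV_l3101 _))
           (CovZ.leaf K2_ok TV_l3102 _))
          (CovZ.n1 (3200, 240) (by decide +kernel)
           (CovZ.leaf K2_ok TV_l3103 _)
           (CovZ.n1 (3240, 200) (by decide +kernel)
            (CovZ.leaf K2_ok TV_l3104 _)
            (CovZ.leaf K2_ok TV_l3105 _))))
         (CovZ.n1 (3280, 80) (by decide +kernel)
          (CovZ.n2 (3200, 80) (by decide +kernel)
           (CovZ.leaf K2_ok TV_l3106 _)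
           (CovZ.leaf K2_ok TV_l3107 _))
          (CovZ.n1 (3280, 160) (by decide +kernel)
           (CovZ.n2 (3320, 120) (by decide +kernel)
            (CovZ.leaf K2_ok TV_l3108 _)
            (CovZ.leaf K2_ok TV_l3109 _))
           (CovZ.n1 (3240, 120) (by decide +kernel)
            (CovZ.leaf K2_ok TV_l3110 _)
            (CovZ.leaf K2_ok TV_l3111 _)))))
        (CovZ.n1 (3360, 320) (by decide +kernel)
         (CovZ.n2 (3440, 240) (by decide +kernel)
          (CovZ.n2 (3360, 240) (by decide +kernel)
           (CovZ.n2 (3400, 280) (by decide +kernel)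
            (CovZ.n2 (3400, 240) (by decide +kernel)
             (CovZ.n2 (3380, 260) (by decide +kernel)
              (CovZ.leaf K2_ok TV_l3112 _)
              (CovZ.leaf K2_ok TV_l3113 _))
             (CovZ.leaf K2_ok TV_l3114 _))
            (CovZ.n1 (3360, 280) (by decide +kernel)
             (CovZ.leaf K2_ok TV_l3115 _)
             (CovZ.n1 (3380, 260) (by decide +kernel)
              (CovZ.leaf K2_ok TV_l3116 _)
              (CovZ.leaf K2_ok TV_l3117 _))))
           (CovZ.n1 (3400, 200) (by decide +kernel)
            (CovZ.leaf K2_ok TV_l3118 _)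
            (CovZ.n1 (3400, 240) (by decide +kernel)
             (CovZ.n2 (3420, 220) (by decide +kernel)
              (CovZ.leaf K2_ok TV_l3119 _)
              (CovZ.leaf K2_ok TV_l3120 _))
             (CovZ.n1 (3380, 220) (by decide +kernel)
              (CovZ.leaf K2_ok TV_l3121 _)
              (CovZ.leaf K2_ok TV_l3122 _)))))
          (CovZ.n1 (3440, 320) (by decide +kernel)
           (CovZ.n2 (3480, 280) (by decide +kernel)
            (CovZ.n2 (3440, 280) (by decide +kernel)
             (CovZ.badM (by decide +kernel))
             (CovZ.n1 (3460, 260) (by decide +kernel)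
              (CovZ.leaf K2_ok TV_l3123 _)
              (CovZ.badM (by decide +kernel))))
            (CovZ.badM (by decide +kernel)))
           (CovZ.n1 (3400, 280) (by decide +kernel)
            (CovZ.badM (by decide +kernel))
            (CovZ.n1 (3440, 280) (by decide +kernel)
             (CovZ.n2 (3420, 260) (by decide +kernel)
              (CovZ.leaf K2_ok TV_l3124 _)
              (CovZ.leaf K2_ok TV_l3125 _))
             (CovZ.badM (by decide +kernel))))))
         (CovZ.n1 (3280, 240) (by decide +kernel)
          (CovZ.n2 (3280, 320) (by decide +kernel)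
           (CovZ.n2 (3320, 280) (by decide +kernel)
            (CovZ.leaf K2_ok TV_l3126 _)
            (CovZ.n1 (3320, 320) (by decide +kernel)
             (CovZ.n2 (3340, 300) (by decide +kernel)
              (CovZ.leaf K2_ok TV_l3127 _)
              (CovZ.leaf K2_ok TV_l3128 _))
             (CovZ.n1 (3300, 300) (by decide +kernel)
              (CovZ.leaf K2_ok TV_l3129 _)
              (CovZ.leaf K2_ok TV_l3130 _))))
           (CovZ.n1 (3240, 280) (by decide +kernel)
            (CovZ.n2 (3240, 320) (by decide +kernel)
             (CovZ.leaf K2_ok TV_l3131 _)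
             (CovZ.leaf K2_ok TV_l3132 _))
            (CovZ.n1 (3280, 280) (by decide +kernel)
             (CovZ.leaf K2_ok TV_l3133 _)
             (CovZ.leaf K2_ok TV_l3134 _))))
          (CovZ.n1 (3360, 240) (by decide +kernel)
           (CovZ.n2 (3320, 200) (by decide +kernel)
            (CovZ.n2 (3320, 240) (by decide +kernel)
             (CovZ.leaf K2_ok TV_l3135 _)
             (CovZ.leaf K2_ok TV_l3136 _))
            (CovZ.leaf K2_ok TV_l3137 _))
           (CovZ.n1 (3320, 280) (by decide +kernel)
            (CovZ.n2 (3360, 280) (by decide +kernel)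
             (CovZ.leaf K2_ok TV_l3138 _)
             (CovZ.n1 (3340, 300) (by decide +kernel)
              (CovZ.leaf K2_ok TV_l3139 _)
              (CovZ.leaf K2_ok TV_l3140 _)))
            (CovZ.n1 (3320, 240) (by decide +kernel)
             (CovZ.leaf K2_ok TV_l3141 _)
             (CovZ.leaf K2_ok TV_l3142 _))))))))

theorem TV_u6 : CovZ TV_M (toL (selN TV_LN 152)) [0, 7, 4, 3] (2560, 0) (3200, 640) (2560, 1280) :=
    (CovZ.n2 (2560, 640) (by decide +kernel)
     (CovZ.n2 (2880, 960) (by decide +kernel)
      (CovZ.n2 (2880, 640) (by decide +kernel)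
       (CovZ.n2 (2720, 800) (by decide +kernel)
        (CovZ.n2 (2880, 800) (by decide +kernel)
         (CovZ.n2 (2800, 720) (by decide +kernel)
          (CovZ.n2 (2800, 800) (by decide +kernel)
           (CovZ.leaf K2_ok TV_l3143 _)
           (CovZ.leaf K2_ok TV_l3144 _))
          (CovZ.n1 (2880, 720) (by decide +kernel)
           (CovZ.leaf K2_ok TV_l3145 _)
           (CovZ.leaf K2_ok TV_l3146 _)))
         (CovZ.n1 (2800, 880) (by decide +kernel)
          (CovZ.n2 (2880, 880) (by decide +kernel)
           (CovZ.n2 (2840, 840) (by decide +kernel)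
            (CovZ.leaf K2_ok TV_l3147 _)
            (CovZ.leaf K2_ok TV_l3148 _))
           (CovZ.leaf K2_ok TV_l3149 _))
          (CovZ.n1 (2800, 800) (by decide +kernel)
           (CovZ.leaf K2_ok TV_l3150 _)
           (CovZ.leaf K2_ok TV_l3151 _))))
        (CovZ.n1 (2720, 640) (by decide +kernel)
         (CovZ.n2 (2640, 720) (by decide +kernel)
          (CovZ.leaf K2_ok TV_l3152 _)
          (CovZ.leaf K2_ok TV_l3153 _))
         (CovZ.n1 (2800, 720) (by decide +kernel)
          (CovZ.leaf K2_ok TV_l3154 _)
          (CovZ.leaf K2_ok TV_l3155 _))))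
       (CovZ.n1 (3040, 800) (by decide +kernel)
        (CovZ.n2 (3040, 640) (by decide +kernel)
         (CovZ.n2 (2960, 720) (by decide +kernel)
          (CovZ.n2 (3040, 720) (by decide +kernel)
           (CovZ.n2 (3000, 680) (by decide +kernel)
            (CovZ.n2 (3000, 720) (by decide +kernel)
             (CovZ.leaf K2_ok TV_l3156 _)
             (CovZ.leaf K2_ok TV_l3157 _))
            (CovZ.badM (by decide +kernel)))
           (CovZ.n1 (3000, 760) (by decide +kernel)
            (CovZ.n2 (3040, 760) (by decide +kernel)
             (CovZ.leaf K2_ok TV_l3158 _)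
             (CovZ.leaf K2_ok TV_l3159 _))
            (CovZ.leaf K2_ok TV_l3160 _)))
          (CovZ.n1 (2960, 640) (by decide +kernel)
           (CovZ.leaf K2_ok TV_l3161 _)
           (CovZ.n1 (3000, 680) (by decide +kernel)
            (CovZ.leaf K2_ok TV_l3162 _)
            (CovZ.leaf K2_ok TV_l3163 _))))
         (CovZ.badM (by decide +kernel)))
        (CovZ.n1 (2880, 800) (by decide +kernel)
         (CovZ.n2 (2960, 880) (by decide +kernel)
          (CovZ.n2 (2960, 800) (by decide +kernel)
           (CovZ.n2 (2920, 840) (by decide +kernel)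
            (CovZ.leaf K2_ok TV_l3164 _)
            (CovZ.leaf K2_ok TV_l3165 _))
           (CovZ.n1 (3000, 840) (by decide +kernel)
            (CovZ.n2 (3000, 800) (by decide +kernel)
             (CovZ.leaf K2_ok TV_l3166 _)
             (CovZ.leaf K2_ok TV_l3167 _))
            (CovZ.leaf K2_ok TV_l3168 _)))
          (CovZ.n1 (2880, 880) (by decide +kernel)
           (CovZ.leaf K2_ok TV_l3169 _)
           (CovZ.n1 (2920, 840) (by decide +kernel)
            (CovZ.leaf K2_ok TV_l3170 _)
            (CovZ.leaf K2_ok TV_l3171 _))))
         (CovZ.n1 (2960, 720) (by decide +kernel)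
          (CovZ.n2 (2880, 720) (by decide +kernel)
           (CovZ.leaf K2_ok TV_l3172 _)
           (CovZ.leaf K2_ok TV_l3173 _))
          (CovZ.n1 (2960, 800) (by decide +kernel)
           (CovZ.n2 (3000, 760) (by decide +kernel)
            (CovZ.leaf K2_ok TV_l3174 _)
            (CovZ.n1 (3000, 800) (by decide +kernel)
             (CovZ.leaf K2_ok TV_l3175 _)
             (CovZ.leaf K2_ok TV_l3176 _)))
           (CovZ.n1 (2920, 760) (by decide +kernel)
            (CovZ.leaf K2_ok TV_l3177 _)
            (CovZ.leaf K2_ok TV_l3178 _)))))))
      (CovZ.n1 (2560, 960) (by decide +kernel)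
       (CovZ.n2 (2720, 1120) (by decide +kernel)
        (CovZ.n2 (2720, 960) (by decide +kernel)
         (CovZ.n2 (2640, 1040) (by decide +kernel)
          (CovZ.leaf K2_ok TV_l3179 _)
          (CovZ.leaf K2_ok TV_l3180 _))
         (CovZ.n1 (2800, 1040) (by decide +kernel)
          (CovZ.n2 (2800, 960) (by decide +kernel)
           (CovZ.leaf K2_ok TV_l3181 _)
           (CovZ.leaf K2_ok TV_l3182 _))
          (CovZ.leaf K2_ok TV_l3183 _)))
        (CovZ.n1 (2560, 1120) (by decide +kernel)
         (CovZ.n2 (2640, 1200) (by decide +kernel)
          (CovZ.n2 (2640, 1120) (by decide +kernel)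
           (CovZ.n2 (2600, 1160) (by decide +kernel)
            (CovZ.leaf K2_ok TV_l3184 _)
            (CovZ.leaf K2_ok TV_l3185 _))
           (CovZ.n1 (2680, 1160) (by decide +kernel)
            (CovZ.n2 (2680, 1120) (by decide +kernel)
             (CovZ.leaf K2_ok TV_l3186 _)
             (CovZ.leaf K2_ok TV_l3187 _))
            (CovZ.leaf K2_ok TV_l3188 _)))
          (CovZ.n1 (2560, 1200) (by decide +kernel)
           (CovZ.badM (by decide +kernel))
           (CovZ.n1 (2600, 1160) (by decide +kernel)
            (CovZ.leaf K2_ok TV_l3189 _)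
            (CovZ.n1 (2600, 1200) (by decide +kernel)
             (CovZ.leaf K2_ok TV_l3190 _)
             (CovZ.leaf K2_ok TV_l3191 _)))))
         (CovZ.n1 (2640, 1040) (by decide +kernel)
          (CovZ.leaf K2_ok TV_l3192 _)
          (CovZ.n1 (2640, 1120) (by decide +kernel)
           (CovZ.leaf K2_ok TV_l3193 _)
           (CovZ.n1 (2600, 1080) (by decide +kernel)
            (CovZ.leaf K2_ok TV_l3194 _)
            (CovZ.leaf K2_ok TV_l3195 _))))))
       (CovZ.n1 (2720, 800) (by decide +kernel)
        (CovZ.n2 (2560, 800) (by decide +kernel)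
         (CovZ.leaf K2_ok TV_l3196 _)
         (CovZ.leaf K2_ok TV_l3197 _))
        (CovZ.n1 (2720, 960) (by decide +kernel)
         (CovZ.n2 (2800, 880) (by decide +kernel)
          (CovZ.leaf K2_ok TV_l3198 _)
          (CovZ.n1 (2800, 960) (by decide +kernel)
           (CovZ.leaf K2_ok TV_l3199 _)
           (CovZ.leaf K2_ok TV_l3200 _)))
         (CovZ.n1 (2640, 880) (by decide +kernel)
          (CovZ.leaf K2_ok TV_l3201 _)
          (CovZ.leaf K2_ok TV_l3202 _))))))
     (CovZ.n1 (2880, 320) (by decide +kernel)
      (CovZ.n2 (2560, 320) (by decide +kernel)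
       (CovZ.n2 (2720, 480) (by decide +kernel)
        (CovZ.n2 (2720, 320) (by decide +kernel)
         (CovZ.leaf K2_ok TV_l3203 _)
         (CovZ.leaf K2_ok TV_l3204 _))
        (CovZ.leaf K2_ok TV_l3205 _))
       (CovZ.n1 (2720, 160) (by decide +kernel)
        (CovZ.leaf K2_ok TV_l3206 _)
        (CovZ.n1 (2720, 320) (by decide +kernel)
         (CovZ.n2 (2800, 240) (by decide +kernel)
          (CovZ.leaf K2_ok TV_l3207 _)
          (CovZ.leaf K2_ok TV_l3208 _))
         (CovZ.n1 (2640, 240) (by decide +kernel)
          (CovZ.leaf K2_ok TV_l3209 _)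
          (CovZ.leaf K2_ok TV_l3210 _)))))
      (CovZ.n1 (2880, 640) (by decide +kernel)
       (CovZ.n2 (3040, 480) (by decide +kernel)
        (CovZ.n2 (2880, 480) (by decide +kernel)
         (CovZ.n2 (2960, 560) (by decide +kernel)
          (CovZ.n2 (2960, 480) (by decide +kernel)
           (CovZ.leaf K2_ok TV_l3211 _)
           (CovZ.leaf K2_ok TV_l3212 _))
          (CovZ.leaf K2_ok TV_l3213 _))
         (CovZ.n1 (2960, 400) (by decide +kernel)
          (CovZ.leaf K2_ok TV_l3214 _)
          (CovZ.n1 (2960, 480) (by decide +kernel)
           (CovZ.n2 (3000, 440) (by decide +kernel)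
            (CovZ.leaf K2_ok TV_l3215 _)
            (CovZ.leaf K2_ok TV_l3216 _))
           (CovZ.n1 (2920, 440) (by decide +kernel)
            (CovZ.leaf K2_ok TV_l3217 _)
            (CovZ.leaf K2_ok TV_l3218 _)))))
        (CovZ.n1 (3040, 640) (by decide +kernel)
         (CovZ.n2 (3120, 560) (by decide +kernel)
          (CovZ.n2 (3040, 560) (by decide +kernel)
           (CovZ.badM (by decide +kernel))
           (CovZ.n1 (3080, 520) (by decide +kernel)
            (CovZ.leaf K2_ok TV_l3219 _)
            (CovZ.badM (by decide +kernel))))
          (CovZ.badM (by decide +kernel)))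
         (CovZ.n1 (2960, 560) (by decide +kernel)
          (CovZ.n2 (2960, 640) (by decide +kernel)
           (CovZ.n2 (3000, 600) (by decide +kernel)
            (CovZ.leaf K2_ok TV_l3220 _)
            (CovZ.n1 (3000, 640) (by decide +kernel)
             (CovZ.badM (by decide +kernel))
             (CovZ.leaf K2_ok TV_l3221 _)))
           (CovZ.n1 (2920, 600) (by decide +kernel)
            (CovZ.leaf K2_ok TV_l3222 _)
            (CovZ.leaf K2_ok TV_l3223 _)))
          (CovZ.n1 (3040, 560) (by decide +kernel)
           (CovZ.n2 (3000, 520) (by decide +kernel)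
            (CovZ.leaf K2_ok TV_l3224 _)
            (CovZ.leaf K2_ok TV_l3225 _))
           (CovZ.n1 (3000, 600) (by decide +kernel)
            (CovZ.badM (by decide +kernel))
            (CovZ.leaf K2_ok TV_l3226 _))))))
       (CovZ.n1 (2720, 480) (by decide +kernel)
        (CovZ.n2 (2720, 640) (by decide +kernel)
         (CovZ.n2 (2800, 560) (by decide +kernel)
          (CovZ.leaf K2_ok TV_l3227 _)
          (CovZ.leaf K2_ok TV_l3228 _))
         (CovZ.n1 (2640, 560) (by decide +kernel)
          (CovZ.leaf K2_ok TV_l3229 _)
          (CovZ.leaf K2_ok TV_l3230 _)))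
        (CovZ.n1 (2880, 480) (by decide +kernel)
         (CovZ.n2 (2800, 400) (by decide +kernel)
          (CovZ.leaf K2_ok TV_l3231 _)
          (CovZ.n1 (2880, 400) (by decide +kernel)
           (CovZ.leaf K2_ok TV_l3232 _)
           (CovZ.leaf K2_ok TV_l3233 _)))
         (CovZ.n1 (2800, 560) (by decide +kernel)
          (CovZ.n2 (2880, 560) (by decide +kernel)
           (CovZ.leaf K2_ok TV_l3234 _)
           (CovZ.leaf K2_ok TV_l3235 _))
          (CovZ.leaf K2_ok TV_l3236 _)))))))

theorem TV_u7 : CovZ TV_M (toL (selN TV_LN 152)) [0, 7, 4, 3] (3200, 640) (3840, 1280) (2560, 1280) :=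
    (CovZ.n1 (3200, 1280) (by decide +kernel)
     (CovZ.badM (by decide +kernel))
     (CovZ.n1 (2880, 960) (by decide +kernel)
      (CovZ.n2 (2880, 1280) (by decide +kernel)
       (CovZ.n2 (3040, 1120) (by decide +kernel)
        (CovZ.n2 (2880, 1120) (by decide +kernel)
         (CovZ.badM (by decide +kernel))
         (CovZ.n1 (2960, 1040) (by decide +kernel)
          (CovZ.n2 (2880, 1040) (by decide +kernel)
           (CovZ.n2 (2920, 1080) (by decide +kernel)
            (CovZ.n2 (2920, 1040) (by decide +kernel)
             (CovZ.leaf K2_ok TV_l3237 _)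
             (CovZ.leaf K2_ok TV_l3238 _))
            (CovZ.leaf K2_ok TV_l3239 _))
           (CovZ.n1 (2920, 1000) (by decide +kernel)
            (CovZ.leaf K2_ok TV_l3240 _)
            (CovZ.n1 (2920, 1040) (by decide +kernel)
             (CovZ.leaf K2_ok TV_l3241 _)
             (CovZ.leaf K2_ok TV_l3242 _))))
          (CovZ.badM (by decide +kernel))))
        (CovZ.badM (by decide +kernel)))
       (CovZ.n1 (2720, 1120) (by decide +kernel)
        (CovZ.n2 (2720, 1280) (by decide +kernel)
         (CovZ.n2 (2800, 1200) (by decide +kernel)
          (CovZ.n2 (2720, 1200) (by decide +kernel)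
           (CovZ.badM (by decide +kernel))
           (CovZ.n1 (2760, 1160) (by decide +kernel)
            (CovZ.n2 (2720, 1160) (by decide +kernel)
             (CovZ.n2 (2740, 1180) (by decide +kernel)
              (CovZ.leaf K2_ok TV_l3243 _)
              (CovZ.leaf K2_ok TV_l3244 _))
             (CovZ.leaf K2_ok TV_l3245 _))
            (CovZ.n1 (2760, 1200) (by decide +kernel)
             (CovZ.n2 (2780, 1180) (by decide +kernel)
              (CovZ.leaf K2_ok TV_l3246 _)
              (CovZ.badM (by decide +kernel)))
             (CovZ.n1 (2740, 1180) (by decide +kernel)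
              (CovZ.badM (by decide +kernel))
              (CovZ.n1 (2760, 1180) (by decide +kernel)
               (CovZ.leaf K2_ok TV_l3247 _)
               (CovZ.badM (by decide +kernel)))))))
          (CovZ.badM (by decide +kernel)))
         (CovZ.n1 (2640, 1200) (by decide +kernel)
          (CovZ.badM (by decide +kernel))
          (CovZ.n1 (2720, 1200) (by decide +kernel)
           (CovZ.n2 (2680, 1160) (by decide +kernel)
            (CovZ.n2 (2680, 1200) (by decide +kernel)
             (CovZ.n2 (2700, 1180) (by decide +kernel)
              (CovZ.leaf K2_ok TV_l3248 _)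
              (CovZ.badM (by decide +kernel)))
             (CovZ.n1 (2660, 1180) (by decide +kernel)
              (CovZ.badM (by decide +kernel))
              (CovZ.leaf K2_ok TV_l3249 _)))
            (CovZ.n1 (2720, 1160) (by decide +kernel)
             (CovZ.leaf K2_ok TV_l3250 _)
             (CovZ.n1 (2700, 1180) (by decide +kernel)
              (CovZ.n2 (2720, 1180) (by decide +kernel)
               (CovZ.leaf K2_ok TV_l3251 _)
               (CovZ.badM (by decide +kernel)))
              (CovZ.leaf K2_ok TV_l3252 _))))
           (CovZ.badM (by decide +kernel)))))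
        (CovZ.n1 (2880, 1120) (by decide +kernel)
         (CovZ.n2 (2800, 1040) (by decide +kernel)
          (CovZ.n2 (2800, 1120) (by decide +kernel)
           (CovZ.n2 (2840, 1080) (by decide +kernel)
            (CovZ.leaf K2_ok TV_l3253 _)
            (CovZ.n1 (2840, 1120) (by decide +kernel)
             (CovZ.leaf K2_ok TV_l3254 _)
             (CovZ.leaf K2_ok TV_l3255 _)))
           (CovZ.n1 (2760, 1080) (by decide +kernel)
            (CovZ.n2 (2760, 1120) (by decide +kernel)
             (CovZ.leaf K2_ok TV_l3256 _)
             (CovZ.leaf K2_ok TV_l3257 _))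
            (CovZ.leaf K2_ok TV_l3258 _)))
          (CovZ.n1 (2880, 1040) (by decide +kernel)
           (CovZ.n2 (2840, 1000) (by decide +kernel)
            (CovZ.leaf K2_ok TV_l3259 _)
            (CovZ.leaf K2_ok TV_l3260 _))
           (CovZ.n1 (2840, 1080) (by decide +kernel)
            (CovZ.n2 (2880, 1080) (by decide +kernel)
             (CovZ.leaf K2_ok TV_l3261 _)
             (CovZ.leaf K2_ok TV_l3262 _))
            (CovZ.leaf K2_ok TV_l3263 _))))
         (CovZ.n1 (2800, 1200) (by decide +kernel)
          (CovZ.badM (by decide +kernel))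
          (CovZ.n1 (2800, 1120) (by decide +kernel)
           (CovZ.n2 (2760, 1160) (by decide +kernel)
            (CovZ.n2 (2800, 1160) (by decide +kernel)
             (CovZ.n2 (2780, 1140) (by decide +kernel)
              (CovZ.leaf K2_ok TV_l3264 _)
              (CovZ.leaf K2_ok TV_l3265 _))
             (CovZ.n1 (2780, 1180) (by decide +kernel)
              (CovZ.n2 (2800, 1180) (by decide +kernel)
               (CovZ.leaf K2_ok TV_l3266 _)
               (CovZ.badM (by decide +kernel)))
              (CovZ.leaf K2_ok TV_l3267 _)))
            (CovZ.n1 (2760, 1120) (by decide +kernel)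
             (CovZ.leaf K2_ok TV_l3268 _)
             (CovZ.leaf K2_ok TV_l3269 _)))
           (CovZ.n1 (2840, 1160) (by decide +kernel)
            (CovZ.n2 (2840, 1120) (by decide +kernel)
             (CovZ.leaf K2_ok TV_l3270 _)
             (CovZ.leaf K2_ok TV_l3271 _))
            (CovZ.n1 (2800, 1160) (by decide +kernel)
             (CovZ.n2 (2820, 1180) (by decide +kernel)
              (CovZ.n2 (2820, 1160) (by decide +kernel)
               (CovZ.leaf K2_ok TV_l3272 _)
               (CovZ.leaf K2_ok TV_l3273 _))
              (CovZ.n1 (2800, 1180) (by decide +kernel)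
               (CovZ.badM (by decide +kernel))
               (CovZ.leaf K2_ok TV_l3274 _)))
             (CovZ.leaf K2_ok TV_l3275 _))))))))
      (CovZ.n1 (3200, 960) (by decide +kernel)
       (CovZ.n2 (3040, 800) (by decide +kernel)
        (CovZ.n2 (3040, 960) (by decide +kernel)
         (CovZ.n2 (3120, 880) (by decide +kernel)
          (CovZ.n2 (3040, 880) (by decide +kernel)
           (CovZ.n2 (3080, 920) (by decide +kernel)
            (CovZ.n2 (3080, 880) (by decide +kernel)
             (CovZ.n2 (3060, 900) (by decide +kernel)
              (CovZ.n2 (3080, 900) (by decide +kernel)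
               (CovZ.leaf K2_ok TV_l3276 _)
               (CovZ.leaf K2_ok TV_l3277 _))
              (CovZ.leaf K2_ok TV_l3278 _))
             (CovZ.badM (by decide +kernel)))
            (CovZ.n1 (3040, 920) (by decide +kernel)
             (CovZ.n2 (3060, 940) (by decide +kernel)
              (CovZ.n2 (3060, 920) (by decide +kernel)
               (CovZ.leaf K2_ok TV_l3279 _)
               (CovZ.leaf K2_ok TV_l3280 _))
              (CovZ.leaf K2_ok TV_l3281 _))
             (CovZ.n1 (3060, 900) (by decide +kernel)
              (CovZ.leaf K2_ok TV_l3282 _)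
              (CovZ.n1 (3060, 920) (by decide +kernel)
               (CovZ.leaf K2_ok TV_l3283 _)
               (CovZ.leaf K2_ok TV_l3284 _)))))
           (CovZ.n1 (3080, 840) (by decide +kernel)
            (CovZ.n2 (3040, 840) (by decide +kernel)
             (CovZ.leaf K2_ok TV_l3285 _)
             (CovZ.n1 (3060, 820) (by decide +kernel)
              (CovZ.leaf K2_ok TV_l3286 _)
              (CovZ.leaf K2_ok TV_l3287 _)))
            (CovZ.n1 (3080, 880) (by decide +kernel)
             (CovZ.badM (by decide +kernel))
             (CovZ.n1 (3060, 860) (by decide +kernel)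
              (CovZ.leaf K2_ok TV_l3288 _)
              (CovZ.badM (by decide +kernel))))))
          (CovZ.badM (by decide +kernel)))
         (CovZ.n1 (2960, 880) (by decide +kernel)
          (CovZ.n2 (2960, 960) (by decide +kernel)
           (CovZ.n2 (3000, 920) (by decide +kernel)
            (CovZ.leaf K2_ok TV_l3289 _)
            (CovZ.n1 (3000, 960) (by decide +kernel)
             (CovZ.n2 (3020, 940) (by decide +kernel)
              (CovZ.leaf K2_ok TV_l3290 _)
              (CovZ.leaf K2_ok TV_l3291 _))
             (CovZ.n1 (2980, 940) (by decide +kernel)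
              (CovZ.leaf K2_ok TV_l3292 _)
              (CovZ.leaf K2_ok TV_l3293 _))))
           (CovZ.n1 (2920, 920) (by decide +kernel)
            (CovZ.n2 (2920, 960) (by decide +kernel)
             (CovZ.leaf K2_ok TV_l3294 _)
             (CovZ.leaf K2_ok TV_l3295 _))
            (CovZ.leaf K2_ok TV_l3296 _)))
          (CovZ.n1 (3040, 880) (by decide +kernel)
           (CovZ.n2 (3000, 840) (by decide +kernel)
            (CovZ.n2 (3000, 880) (by decide +kernel)
             (CovZ.leaf K2_ok TV_l3297 _)
             (CovZ.leaf K2_ok TV_l3298 _))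
            (CovZ.n1 (3040, 840) (by decide +kernel)
             (CovZ.n2 (3020, 820) (by decide +kernel)
              (CovZ.leaf K2_ok TV_l3299 _)
              (CovZ.leaf K2_ok TV_l3300 _))
             (CovZ.leaf K2_ok TV_l3301 _)))
           (CovZ.n1 (3000, 920) (by decide +kernel)
            (CovZ.n2 (3040, 920) (by decide +kernel)
             (CovZ.n2 (3020, 900) (by decide +kernel)
              (CovZ.leaf K2_ok TV_l3302 _)
              (CovZ.leaf K2_ok TV_l3303 _))
             (CovZ.n1 (3020, 940) (by decide +kernel)
              (CovZ.leaf K2_ok TV_l3304 _)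
              (CovZ.leaf K2_ok TV_l3305 _)))
            (CovZ.n1 (3000, 880) (by decide +kernel)
             (CovZ.leaf K2_ok TV_l3306 _)
             (CovZ.leaf K2_ok TV_l3307 _))))))
        (CovZ.badM (by decide +kernel)))
       (CovZ.n1 (3040, 1120) (by decide +kernel)
        (CovZ.badM (by decide +kernel))
        (CovZ.n1 (3040, 960) (by decide +kernel)
         (CovZ.n2 (2960, 1040) (by decide +kernel)
          (CovZ.badM (by decide +kernel))
          (CovZ.n1 (2960, 960) (by decide +kernel)
           (CovZ.n2 (2920, 1000) (by decide +kernel)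
            (CovZ.n2 (2960, 1000) (by decide +kernel)
             (CovZ.leaf K2_ok TV_l3308 _)
             (CovZ.leaf K2_ok TV_l3309 _))
            (CovZ.leaf K2_ok TV_l3310 _))
           (CovZ.n1 (3000, 1000) (by decide +kernel)
            (CovZ.n2 (3000, 960) (by decide +kernel)
             (CovZ.leaf K2_ok TV_l3311 _)
             (CovZ.n1 (3020, 980) (by decide +kernel)
              (CovZ.leaf K2_ok TV_l3312 _)
              (CovZ.leaf K2_ok TV_l3313 _)))
            (CovZ.n1 (2960, 1000) (by decide +kernel)
             (CovZ.leaf K2_ok TV_l3314 _)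
             (CovZ.leaf K2_ok TV_l3315 _)))))
         (CovZ.badM (by decide +kernel)))))))

theorem TV_u8 : CovZ TV_M (toL (selN TV_LN 110)) [0, 7, 4, 3] (-1280, 1280) (-640, 1920) (-1280, 2560) :=
    (CovZ.n2 (-1280, 1920) (by decide +kernel)
     (CovZ.n2 (-960, 2240) (by decide +kernel)
      (CovZ.n2 (-960, 1920) (by decide +kernel)
       (CovZ.badM (by decide +kernel))
       (CovZ.n1 (-800, 2080) (by decide +kernel)
        (CovZ.n2 (-800, 1920) (by decide +kernel)
         (CovZ.n2 (-880, 2000) (by decide +kernel)
          (CovZ.n2 (-800, 2000) (by decide +kernel)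
           (CovZ.n2 (-840, 1960) (by decide +kernel)
            (CovZ.n2 (-840, 2000) (by decide +kernel)
             (CovZ.leaf K2_ok TV_l1242 _)
             (CovZ.n1 (-860, 1980) (by decide +kernel)
              (CovZ.leaf K2_ok TV_l1243 _)
              (CovZ.leaf K2_ok TV_l1244 _)))
            (CovZ.n1 (-800, 1960) (by decide +kernel)
             (CovZ.leaf K2_ok TV_l1245 _)
             (CovZ.leaf K2_ok TV_l1246 _)))
           (CovZ.n1 (-840, 2040) (by decide +kernel)
            (CovZ.n2 (-800, 2040) (by decide +kernel)
             (CovZ.n2 (-820, 2020) (by decide +kernel)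
              (CovZ.leaf K2_ok TV_l1247 _)
              (CovZ.leaf K2_ok TV_l1248 _))
             (CovZ.n1 (-820, 2060) (by decide +kernel)
              (CovZ.leaf K2_ok TV_l1249 _)
              (CovZ.leaf K2_ok TV_l1250 _)))
            (CovZ.n1 (-840, 2000) (by decide +kernel)
             (CovZ.n2 (-860, 2020) (by decide +kernel)
              (CovZ.leaf K2_ok TV_l1251 _)
              (CovZ.leaf K2_ok TV_l1252 _))
             (CovZ.leaf K2_ok TV_l1253 _))))
          (CovZ.n1 (-880, 1920) (by decide +kernel)
           (CovZ.badM (by decide +kernel))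
           (CovZ.n1 (-840, 1960) (by decide +kernel)
            (CovZ.leaf K2_ok TV_l1256 _)
            (CovZ.n1 (-880, 1960) (by decide +kernel)
             (CovZ.leaf K2_ok TV_l1257 _)
             (CovZ.leaf K2_ok TV_l1258 _)))))
         (CovZ.n1 (-720, 2000) (by decide +kernel)
          (CovZ.n2 (-720, 1920) (by decide +kernel)
           (CovZ.leaf K2_ok TV_l1259 _)
           (CovZ.leaf K2_ok TV_l1260 _))
          (CovZ.n1 (-800, 2000) (by decide +kernel)
           (CovZ.n2 (-760, 2040) (by decide +kernel)
            (CovZ.leaf K2_ok TV_l1261 _)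
            (CovZ.leaf K2_ok TV_l1262 _))
           (CovZ.leaf K2_ok TV_l1263 _))))
        (CovZ.n1 (-960, 2080) (by decide +kernel)
         (CovZ.n2 (-880, 2160) (by decide +kernel)
          (CovZ.n2 (-880, 2080) (by decide +kernel)
           (CovZ.n2 (-920, 2120) (by decide +kernel)
            (CovZ.n2 (-880, 2120) (by decide +kernel)
             (CovZ.n2 (-900, 2100) (by decide +kernel)
              (CovZ.n2 (-900, 2120) (by decide +kernel)
               (CovZ.leaf K2_ok TV_l1799 _)
               (CovZ.badM (by decide +kernel)))
              (CovZ.n1 (-880, 2100) (by decide +kernel)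
               (CovZ.leaf K2_ok TV_l1800 _)
               (CovZ.leaf K2_ok TV_l1801 _)))
             (CovZ.n1 (-900, 2140) (by decide +kernel)
              (CovZ.n2 (-880, 2140) (by decide +kernel)
               (CovZ.leaf K2_ok TV_l1802 _)
               (CovZ.leaf K2_ok TV_l1803 _))
              (CovZ.leaf K2_ok TV_l1804 _)))
            (CovZ.badM (by decide +kernel)))
           (CovZ.n1 (-840, 2120) (by decide +kernel)
            (CovZ.n2 (-840, 2080) (by decide +kernel)
             (CovZ.n2 (-860, 2100) (by decide +kernel)
              (CovZ.n2 (-840, 2100) (by decide +kernel)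
               (CovZ.leaf K2_ok TV_l1805 _)
               (CovZ.leaf K2_ok TV_l1806 _))
              (CovZ.n1 (-860, 2080) (by decide +kernel)
               (CovZ.leaf K2_ok TV_l1807 _)
               (CovZ.leaf K2_ok TV_l1808 _)))
             (CovZ.n1 (-820, 2100) (by decide +kernel)
              (CovZ.leaf K2_ok TV_l1809 _)
              (CovZ.n1 (-840, 2100) (by decide +kernel)
               (CovZ.leaf K2_ok TV_l1810 _)
               (CovZ.leaf K2_ok TV_l1811 _))))
            (CovZ.n1 (-880, 2120) (by decide +kernel)
             (CovZ.n2 (-860, 2140) (by decide +kernel)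
              (CovZ.leaf K2_ok TV_l1812 _)
              (CovZ.n1 (-880, 2140) (by decide +kernel)
               (CovZ.leaf K2_ok TV_l1813 _)
               (CovZ.leaf K2_ok TV_l1814 _)))
             (CovZ.n1 (-860, 2100) (by decide +kernel)
              (CovZ.n2 (-880, 2100) (by decide +kernel)
               (CovZ.leaf K2_ok TV_l1815 _)
               (CovZ.leaf K2_ok TV_l1816 _))
              (CovZ.n1 (-860, 2120) (by decide +kernel)
               (CovZ.leaf K2_ok TV_l1817 _)
               (CovZ.leaf K2_ok TV_l1818 _))))))
          (CovZ.n1 (-960, 2160) (by decide +kernel)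
           (CovZ.n2 (-920, 2200) (by decide +kernel)
            (CovZ.n2 (-920, 2160) (by decide +kernel)
             (CovZ.badM (by decide +kernel))
             (CovZ.n1 (-900, 2180) (by decide +kernel)
              (CovZ.leaf K2_ok TV_l1819 _)
              (CovZ.badM (by decide +kernel))))
            (CovZ.badM (by decide +kernel)))
           (CovZ.n1 (-920, 2120) (by decide +kernel)
            (CovZ.badM (by decide +kernel))
            (CovZ.n1 (-920, 2160) (by decide +kernel)
             (CovZ.n2 (-900, 2140) (by decide +kernel)
              (CovZ.badM (by decide +kernel))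
              (CovZ.n1 (-900, 2160) (by decide +kernel)
               (CovZ.leaf K2_ok TV_l1820 _)
               (CovZ.badM (by decide +kernel))))
             (CovZ.badM (by decide +kernel))))))
         (CovZ.n1 (-880, 2000) (by decide +kernel)
          (CovZ.badM (by decide +kernel))
          (CovZ.n1 (-880, 2080) (by decide +kernel)
           (CovZ.n2 (-840, 2040) (by decide +kernel)
            (CovZ.n2 (-880, 2040) (by decide +kernel)
             (CovZ.n2 (-860, 2060) (by decide +kernel)
              (CovZ.n2 (-860, 2040) (by decide +kernel)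
               (CovZ.leaf K2_ok TV_l1821 _)
               (CovZ.leaf K2_ok TV_l1822 _))
              (CovZ.n1 (-880, 2060) (by decide +kernel)
               (CovZ.leaf K2_ok TV_l1823 _)
               (CovZ.leaf K2_ok TV_l1824 _)))
             (CovZ.n1 (-860, 2020) (by decide +kernel)
              (CovZ.leaf K2_ok TV_l1825 _)
              (CovZ.n1 (-860, 2040) (by decide +kernel)
               (CovZ.leaf K2_ok TV_l1826 _)
               (CovZ.leaf K2_ok TV_l1827 _))))
            (CovZ.n1 (-840, 2080) (by decide +kernel)
             (CovZ.n2 (-820, 2060) (by decide +kernel)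
              (CovZ.leaf K2_ok TV_l1828 _)
              (CovZ.n1 (-820, 2080) (by decide +kernel)
               (CovZ.leaf K2_ok TV_l1829 _)
               (CovZ.leaf K2_ok TV_l1830 _)))
             (CovZ.n1 (-860, 2060) (by decide +kernel)
              (CovZ.n2 (-860, 2080) (by decide +kernel)
               (CovZ.leaf K2_ok TV_l1831 _)
               (CovZ.leaf K2_ok TV_l1832 _))
              (CovZ.n1 (-840, 2060) (by decide +kernel)
               (CovZ.leaf K2_ok TV_l1833 _)
               (CovZ.leaf K2_ok TV_l1834 _)))))
           (CovZ.badM (by decide +kernel)))))))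
      (CovZ.badM (by decide +kernel)))
     (CovZ.n1 (-960, 1600) (by decide +kernel)
      (CovZ.n2 (-1280, 1600) (by decide +kernel)
       (CovZ.badM (by decide +kernel))
       (CovZ.n1 (-1120, 1440) (by decide +kernel)
        (CovZ.n2 (-1280, 1440) (by decide +kernel)
         (CovZ.n2 (-1200, 1520) (by decide +kernel)
          (CovZ.n2 (-1200, 1440) (by decide +kernel)
           (CovZ.n2 (-1240, 1480) (by decide +kernel)
            (CovZ.leaf K2_ok TV_l1286 _)
            (CovZ.leaf K2_ok TV_l1287 _))
           (CovZ.leaf K2_ok TV_l1288 _))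
          (CovZ.n1 (-1280, 1520) (by decide +kernel)
           (CovZ.badM (by decide +kernel))
           (CovZ.n1 (-1240, 1480) (by decide +kernel)
            (CovZ.leaf K2_ok TV_l1292 _)
            (CovZ.badM (by decide +kernel)))))
         (CovZ.n1 (-1200, 1360) (by decide +kernel)
          (CovZ.leaf K2_ok TV_l1295 _)
          (CovZ.n1 (-1200, 1440) (by decide +kernel)
           (CovZ.leaf K2_ok TV_l1296 _)
           (CovZ.leaf K2_ok TV_l1297 _))))
        (CovZ.n1 (-1120, 1600) (by decide +kernel)
         (CovZ.n2 (-1040, 1520) (by decide +kernel)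
          (CovZ.n2 (-1120, 1520) (by decide +kernel)
           (CovZ.badM (by decide +kernel))
           (CovZ.leaf K2_ok TV_l1299 _))
          (CovZ.badM (by decide +kernel)))
         (CovZ.n1 (-1200, 1520) (by decide +kernel)
          (CovZ.badM (by decide +kernel))
          (CovZ.n1 (-1120, 1520) (by decide +kernel)
           (CovZ.n2 (-1160, 1480) (by decide +kernel)
            (CovZ.badM (by decide +kernel))
            (CovZ.leaf K2_ok TV_l1314 _))
           (CovZ.badM (by decide +kernel)))))))
      (CovZ.n1 (-960, 1920) (by decide +kernel)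
       (CovZ.n2 (-800, 1760) (by decide +kernel)
        (CovZ.n2 (-960, 1760) (by decide +kernel)
         (CovZ.n2 (-880, 1840) (by decide +kernel)
          (CovZ.n2 (-880, 1760) (by decide +kernel)
           (CovZ.badM (by decide +kernel))
           (CovZ.leaf K2_ok TV_l1320 _))
          (CovZ.badM (by decide +kernel)))
         (CovZ.n1 (-880, 1680) (by decide +kernel)
          (CovZ.badM (by decide +kernel))
          (CovZ.n1 (-880, 1760) (by decide +kernel)
           (CovZ.leaf K2_ok TV_l1329 _)
           (CovZ.badM (by decide +kernel)))))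
        (CovZ.n1 (-800, 1920) (by decide +kernel)
         (CovZ.n2 (-720, 1840) (by decide +kernel)
          (CovZ.leaf K2_ok TV_l1332 _)
          (CovZ.n1 (-720, 1920) (by decide +kernel)
           (CovZ.leaf K2_ok TV_l1333 _)
           (CovZ.leaf K2_ok TV_l1334 _)))
         (CovZ.n1 (-880, 1840) (by decide +kernel)
          (CovZ.n2 (-880, 1920) (by decide +kernel)
           (CovZ.n2 (-840, 1880) (by decide +kernel)
            (CovZ.leaf K2_ok TV_l1335 _)
            (CovZ.n1 (-840, 1920) (by decide +kernel)
             (CovZ.leaf K2_ok TV_l1336 _)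
             (CovZ.leaf K2_ok TV_l1337 _)))
           (CovZ.badM (by decide +kernel)))
          (CovZ.n1 (-800, 1840) (by decide +kernel)
           (CovZ.n2 (-840, 1800) (by decide +kernel)
            (CovZ.leaf K2_ok TV_l1342 _)
            (CovZ.leaf K2_ok TV_l1343 _))
           (CovZ.n1 (-840, 1880) (by decide +kernel)
            (CovZ.leaf K2_ok TV_l1344 _)
            (CovZ.leaf K2_ok TV_l1345 _))))))
       (CovZ.badM (by decide +kernel)))))

theorem TV_u9 : CovZ TV_M (toL (selN TV_LN 110)) [0, 7, 4, 3] (-640, 1920) (0, 2560) (-1280, 2560) :=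
    (CovZ.n1 (-640, 2560) (by decide +kernel)
     (CovZ.n2 (-320, 2240) (by decide +kernel)
      (CovZ.n2 (-640, 2240) (by decide +kernel)
       (CovZ.badM (by decide +kernel))
       (CovZ.n1 (-480, 2080) (by decide +kernel)
        (CovZ.n2 (-640, 2080) (by decide +kernel)
         (CovZ.n2 (-560, 2160) (by decide +kernel)
          (CovZ.leaf K2_ok TV_l1392 _)
          (CovZ.n1 (-640, 2160) (by decide +kernel)
           (CovZ.badM (by decide +kernel))
           (CovZ.leaf K2_ok TV_l1394 _)))
         (CovZ.n1 (-560, 2000) (by decide +kernel)
          (CovZ.leaf K2_ok TV_l1395 _)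
          (CovZ.n1 (-560, 2080) (by decide +kernel)
           (CovZ.leaf K2_ok TV_l1396 _)
           (CovZ.leaf K2_ok TV_l1397 _))))
        (CovZ.n1 (-480, 2240) (by decide +kernel)
         (CovZ.n2 (-400, 2160) (by decide +kernel)
          (CovZ.leaf K2_ok TV_l1398 _)
          (CovZ.badM (by decide +kernel)))
         (CovZ.n1 (-560, 2160) (by decide +kernel)
          (CovZ.badM (by decide +kernel))
          (CovZ.n1 (-480, 2160) (by decide +kernel)
           (CovZ.leaf K2_ok TV_l1405 _)
           (CovZ.badM (by decide +kernel)))))))
      (CovZ.n1 (-320, 2560) (by decide +kernel)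
       (CovZ.n2 (-160, 2400) (by decide +kernel)
        (CovZ.n2 (-320, 2400) (by decide +kernel)
         (CovZ.n2 (-240, 2480) (by decide +kernel)
          (CovZ.leaf K2_ok TV_l1407 _)
          (CovZ.badM (by decide +kernel)))
         (CovZ.leaf K2_ok TV_l1409 _))
        (CovZ.n1 (-160, 2560) (by decide +kernel)
         (CovZ.leaf K2_ok TV_l1410 _)
         (CovZ.n1 (-240, 2480) (by decide +kernel)
          (CovZ.n2 (-240, 2560) (by decide +kernel)
           (CovZ.leaf K2_ok TV_l1411 _)
           (CovZ.badM (by decide +kernel)))
          (CovZ.leaf K2_ok TV_l1413 _))))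
       (CovZ.badM (by decide +kernel))))
     (CovZ.n1 (-960, 2240) (by decide +kernel)
      (CovZ.n2 (-960, 2560) (by decide +kernel)
       (CovZ.n2 (-800, 2400) (by decide +kernel)
        (CovZ.n2 (-960, 2400) (by decide +kernel)
         (CovZ.badM (by decide +kernel))
         (CovZ.n1 (-880, 2320) (by decide +kernel)
          (CovZ.n2 (-960, 2320) (by decide +kernel)
           (CovZ.badM (by decide +kernel))
           (CovZ.n1 (-920, 2280) (by decide +kernel)
            (CovZ.badM (by decide +kernel))
            (CovZ.badM (by decide +kernel))))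
          (CovZ.badM (by decide +kernel))))
        (CovZ.badM (by decide +kernel)))
       (CovZ.badM (by decide +kernel)))
      (CovZ.n1 (-640, 2240) (by decide +kernel)
       (CovZ.n2 (-800, 2080) (by decide +kernel)
        (CovZ.n2 (-800, 2240) (by decide +kernel)
         (CovZ.n2 (-720, 2160) (by decide +kernel)
          (CovZ.n2 (-800, 2160) (by decide +kernel)
           (CovZ.n2 (-760, 2200) (by decide +kernel)
            (CovZ.n2 (-760, 2160) (by decide +kernel)
             (CovZ.n2 (-780, 2180) (by decide +kernel)
              (CovZ.leaf K2_ok TV_l1835 _)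
              (CovZ.leaf K2_ok TV_l1836 _))
             (CovZ.leaf K2_ok TV_l1837 _))
            (CovZ.n1 (-800, 2200) (by decide +kernel)
             (CovZ.leaf K2_ok TV_l1838 _)
             (CovZ.n1 (-780, 2180) (by decide +kernel)
              (CovZ.leaf K2_ok TV_l1839 _)
              (CovZ.leaf K2_ok TV_l1840 _))))
           (CovZ.n1 (-760, 2120) (by decide +kernel)
            (CovZ.n2 (-800, 2120) (by decide +kernel)
             (CovZ.n2 (-780, 2140) (by decide +kernel)
              (CovZ.leaf K2_ok TV_l1841 _)
              (CovZ.leaf K2_ok TV_l1842 _))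
             (CovZ.n1 (-780, 2100) (by decide +kernel)
              (CovZ.leaf K2_ok TV_l1843 _)
              (CovZ.leaf K2_ok TV_l1844 _)))
            (CovZ.n1 (-760, 2160) (by decide +kernel)
             (CovZ.leaf K2_ok TV_l1845 _)
             (CovZ.n1 (-780, 2140) (by decide +kernel)
              (CovZ.leaf K2_ok TV_l1846 _)
              (CovZ.leaf K2_ok TV_l1847 _)))))
          (CovZ.n1 (-720, 2240) (by decide +kernel)
           (CovZ.n2 (-680, 2200) (by decide +kernel)
            (CovZ.n2 (-720, 2200) (by decide +kernel)
             (CovZ.badM (by decide +kernel))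
             (CovZ.leaf K2_ok TV_l1848 _))
            (CovZ.badM (by decide +kernel)))
           (CovZ.n1 (-760, 2200) (by decide +kernel)
            (CovZ.badM (by decide +kernel))
            (CovZ.n1 (-720, 2200) (by decide +kernel)
             (CovZ.n2 (-740, 2180) (by decide +kernel)
              (CovZ.leaf K2_ok TV_l1849 _)
              (CovZ.leaf K2_ok TV_l1850 _))
             (CovZ.badM (by decide +kernel))))))
         (CovZ.n1 (-880, 2160) (by decide +kernel)
          (CovZ.n2 (-880, 2240) (by decide +kernel)
           (CovZ.n2 (-840, 2200) (by decide +kernel)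
            (CovZ.n2 (-880, 2200) (by decide +kernel)
             (CovZ.n2 (-860, 2220) (by decide +kernel)
              (CovZ.leaf K2_ok TV_l1851 _)
              (CovZ.leaf K2_ok TV_l1852 _))
             (CovZ.n1 (-860, 2180) (by decide +kernel)
              (CovZ.n2 (-880, 2180) (by decide +kernel)
               (CovZ.leaf K2_ok TV_l1853 _)
               (CovZ.leaf K2_ok TV_l1854 _))
              (CovZ.n1 (-860, 2200) (by decide +kernel)
               (CovZ.leaf K2_ok TV_l1855 _)
               (CovZ.leaf K2_ok TV_l1856 _))))
            (CovZ.n1 (-840, 2240) (by decide +kernel)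
             (CovZ.n2 (-820, 2220) (by decide +kernel)
              (CovZ.leaf K2_ok TV_l1857 _)
              (CovZ.badM (by decide +kernel)))
             (CovZ.n1 (-860, 2220) (by decide +kernel)
              (CovZ.n2 (-860, 2240) (by decide +kernel)
               (CovZ.leaf K2_ok TV_l1858 _)
               (CovZ.leaf K2_ok TV_l1859 _))
              (CovZ.n1 (-840, 2220) (by decide +kernel)
               (CovZ.leaf K2_ok TV_l1860 _)
               (CovZ.leaf K2_ok TV_l1861 _)))))
           (CovZ.n1 (-920, 2200) (by decide +kernel)
            (CovZ.n2 (-920, 2240) (by decide +kernel)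
             (CovZ.n2 (-900, 2220) (by decide +kernel)
              (CovZ.badM (by decide +kernel))
              (CovZ.n1 (-900, 2240) (by decide +kernel)
               (CovZ.leaf K2_ok TV_l1862 _)
               (CovZ.badM (by decide +kernel))))
             (CovZ.badM (by decide +kernel)))
            (CovZ.n1 (-880, 2200) (by decide +kernel)
             (CovZ.n2 (-900, 2180) (by decide +kernel)
              (CovZ.n2 (-900, 2200) (by decide +kernel)
               (CovZ.leaf K2_ok TV_l1863 _)
               (CovZ.badM (by decide +kernel)))
              (CovZ.n1 (-880, 2180) (by decide +kernel)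
               (CovZ.leaf K2_ok TV_l1864 _)
               (CovZ.leaf K2_ok TV_l1865 _)))
             (CovZ.n1 (-900, 2220) (by decide +kernel)
              (CovZ.n2 (-880, 2220) (by decide +kernel)
               (CovZ.leaf K2_ok TV_l1866 _)
               (CovZ.leaf K2_ok TV_l1867 _))
              (CovZ.leaf K2_ok TV_l1868 _)))))
          (CovZ.n1 (-800, 2160) (by decide +kernel)
           (CovZ.n2 (-840, 2120) (by decide +kernel)
            (CovZ.n2 (-840, 2160) (by decide +kernel)
             (CovZ.n2 (-820, 2140) (by decide +kernel)
              (CovZ.leaf K2_ok TV_l1869 _)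
              (CovZ.n1 (-820, 2160) (by decide +kernel)
               (CovZ.leaf K2_ok TV_l1870 _)
               (CovZ.leaf K2_ok TV_l1871 _)))
             (CovZ.n1 (-860, 2140) (by decide +kernel)
              (CovZ.n2 (-860, 2160) (by decide +kernel)
               (CovZ.leaf K2_ok TV_l1872 _)
               (CovZ.leaf K2_ok TV_l1873 _))
              (CovZ.n1 (-840, 2140) (by decide +kernel)
               (CovZ.leaf K2_ok TV_l1874 _)
               (CovZ.leaf K2_ok TV_l1875 _))))
            (CovZ.n1 (-800, 2120) (by decide +kernel)
             (CovZ.n2 (-820, 2100) (by decide +kernel)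
              (CovZ.n2 (-820, 2120) (by decide +kernel)
               (CovZ.leaf K2_ok TV_l1876 _)
               (CovZ.leaf K2_ok TV_l1877 _))
              (CovZ.n1 (-800, 2100) (by decide +kernel)
               (CovZ.leaf K2_ok TV_l1878 _)
               (CovZ.leaf K2_ok TV_l1879 _)))
             (CovZ.n1 (-820, 2140) (by decide +kernel)
              (CovZ.n2 (-800, 2140) (by decide +kernel)
               (CovZ.leaf K2_ok TV_l1880 _)
               (CovZ.leaf K2_ok TV_l1881 _))
              (CovZ.leaf K2_ok TV_l1882 _))))
           (CovZ.n1 (-840, 2200) (by decide +kernel)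
            (CovZ.n2 (-800, 2200) (by decide +kernel)
             (CovZ.n2 (-820, 2180) (by decide +kernel)
              (CovZ.leaf K2_ok TV_l1883 _)
              (CovZ.leaf K2_ok TV_l1884 _))
             (CovZ.n1 (-820, 2220) (by decide +kernel)
              (CovZ.leaf K2_ok TV_l1885 _)
              (CovZ.leaf K2_ok TV_l1886 _)))
            (CovZ.n1 (-840, 2160) (by decide +kernel)
             (CovZ.n2 (-860, 2180) (by decide +kernel)
              (CovZ.n2 (-840, 2180) (by decide +kernel)
               (CovZ.leaf K2_ok TV_l1887 _)
               (CovZ.leaf K2_ok TV_l1888 _))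
              (CovZ.leaf K2_ok TV_l1889 _))
             (CovZ.n1 (-820, 2180) (by decide +kernel)
              (CovZ.leaf K2_ok TV_l1890 _)
              (CovZ.leaf K2_ok TV_l1891 _)))))))
        (CovZ.n1 (-640, 2080) (by decide +kernel)
         (CovZ.n2 (-720, 2000) (by decide +kernel)
          (CovZ.n2 (-720, 2080) (by decide +kernel)
           (CovZ.leaf K2_ok TV_l1432 _)
           (CovZ.n1 (-760, 2040) (by decide +kernel)
            (CovZ.n2 (-760, 2080) (by decide +kernel)
             (CovZ.leaf K2_ok TV_l1433 _)
             (CovZ.leaf K2_ok TV_l1434 _))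
            (CovZ.leaf K2_ok TV_l1435 _)))
          (CovZ.n1 (-640, 2000) (by decide +kernel)
           (CovZ.leaf K2_ok TV_l1436 _)
           (CovZ.leaf K2_ok TV_l1437 _)))
         (CovZ.n1 (-720, 2160) (by decide +kernel)
          (CovZ.n2 (-640, 2160) (by decide +kernel)
           (CovZ.n2 (-680, 2120) (by decide +kernel)
            (CovZ.n2 (-680, 2160) (by decide +kernel)
             (CovZ.leaf K2_ok TV_l1438 _)
             (CovZ.leaf K2_ok TV_l1439 _))
            (CovZ.leaf K2_ok TV_l1440 _))
           (CovZ.n1 (-680, 2200) (by decide +kernel)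
            (CovZ.badM (by decide +kernel))
            (CovZ.n1 (-680, 2160) (by decide +kernel)
             (CovZ.leaf K2_ok TV_l1443 _)
             (CovZ.leaf K2_ok TV_l1444 _))))
          (CovZ.n1 (-720, 2080) (by decide +kernel)
           (CovZ.n2 (-760, 2120) (by decide +kernel)
            (CovZ.n2 (-720, 2120) (by decide +kernel)
             (CovZ.leaf K2_ok TV_l1445 _)
             (CovZ.leaf K2_ok TV_l1446 _))
            (CovZ.n1 (-760, 2080) (by decide +kernel)
             (CovZ.n2 (-780, 2100) (by decide +kernel)
              (CovZ.leaf K2_ok TV_l1447 _)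
              (CovZ.leaf K2_ok TV_l1448 _))
             (CovZ.leaf K2_ok TV_l1449 _)))
           (CovZ.leaf K2_ok TV_l1450 _)))))
       (CovZ.n1 (-800, 2400) (by decide +kernel)
        (CovZ.badM (by decide +kernel))
        (CovZ.n1 (-800, 2240) (by decide +kernel)
         (CovZ.n2 (-880, 2320) (by decide +kernel)
          (CovZ.badM (by decide +kernel))
          (CovZ.n1 (-880, 2240) (by decide +kernel)
           (CovZ.n2 (-920, 2280) (by decide +kernel)
            (CovZ.badM (by decide +kernel))
            (CovZ.n1 (-920, 2240) (by decide +kernel)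
             (CovZ.badM (by decide +kernel))
             (CovZ.badM (by decide +kernel))))
           (CovZ.badM (by decide +kernel))))
         (CovZ.badM (by decide +kernel)))))))

theorem TV_u10 : CovZ TV_M (toL (selN TV_LN 70)) [0, 7, 4, 3] (-640, 3200) (-320, 2880) (0, 3200) :=
    (CovZ.n2 (-320, 3200) (by decide +kernel)
       (CovZ.n2 (-160, 3040) (by decide +kernel)
        (CovZ.n2 (-320, 3040) (by decide +kernel)
         (CovZ.n2 (-240, 3120) (by decide +kernel)
          (CovZ.n2 (-240, 3040) (by decide +kernel)
           (CovZ.n2 (-280, 3080) (by decide +kernel)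
            (CovZ.n2 (-240, 3080) (by decide +kernel)
             (CovZ.n2 (-260, 3060) (by decide +kernel)
              (CovZ.leaf K2_ok TV_l1892 _)
              (CovZ.leaf K2_ok TV_l1893 _))
             (CovZ.leaf K2_ok TV_l1894 _))
            (CovZ.n1 (-280, 3040) (by decide +kernel)
             (CovZ.badM (by decide +kernel))
             (CovZ.leaf K2_ok TV_l1895 _)))
           (CovZ.n1 (-200, 3080) (by decide +kernel)
            (CovZ.n2 (-200, 3040) (by decide +kernel)
             (CovZ.leaf K2_ok TV_l1896 _)
             (CovZ.leaf K2_ok TV_l1897 _))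
            (CovZ.n1 (-240, 3080) (by decide +kernel)
             (CovZ.leaf K2_ok TV_l1898 _)
             (CovZ.leaf K2_ok TV_l1899 _))))
          (CovZ.n1 (-320, 3120) (by decide +kernel)
           (CovZ.n2 (-280, 3160) (by decide +kernel)
            (CovZ.n2 (-280, 3120) (by decide +kernel)
             (CovZ.n2 (-300, 3140) (by decide +kernel)
              (CovZ.leaf K2_ok TV_l1900 _)
              (CovZ.leaf K2_ok TV_l1901 _))
             (CovZ.leaf K2_ok TV_l1902 _))
            (CovZ.n1 (-320, 3160) (by decide +kernel)
             (CovZ.leaf K2_ok TV_l1903 _)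
             (CovZ.n1 (-300, 3140) (by decide +kernel)
              (CovZ.badM (by decide +kernel))
              (CovZ.leaf K2_ok TV_l1904 _))))
           (CovZ.n1 (-280, 3080) (by decide +kernel)
            (CovZ.badM (by decide +kernel))
            (CovZ.n1 (-280, 3120) (by decide +kernel)
             (CovZ.leaf K2_ok TV_l1905 _)
             (CovZ.n1 (-300, 3100) (by decide +kernel)
              (CovZ.leaf K2_ok TV_l1906 _)
              (CovZ.leaf K2_ok TV_l1907 _))))))
         (CovZ.n1 (-240, 2960) (by decide +kernel)
          (CovZ.n2 (-320, 2960) (by decide +kernel)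
           (CovZ.n2 (-280, 3000) (by decide +kernel)
            (CovZ.n2 (-280, 2960) (by decide +kernel)
             (CovZ.badM (by decide +kernel))
             (CovZ.n1 (-260, 2980) (by decide +kernel)
              (CovZ.leaf K2_ok TV_l1908 _)
              (CovZ.badM (by decide +kernel))))
            (CovZ.badM (by decide +kernel)))
           (CovZ.n1 (-280, 2920) (by decide +kernel)
            (CovZ.n2 (-320, 2920) (by decide +kernel)
             (CovZ.n2 (-300, 2940) (by decide +kernel)
              (CovZ.leaf K2_ok TV_l1909 _)
              (CovZ.n1 (-320, 2940) (by decide +kernel)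
               (CovZ.leaf K2_ok TV_l1910 _)
               (CovZ.leaf K2_ok TV_l1911 _)))
             (CovZ.n1 (-300, 2900) (by decide +kernel)
              (CovZ.badM (by decide +kernel))
              (CovZ.n1 (-300, 2920) (by decide +kernel)
               (CovZ.leaf K2_ok TV_l1912 _)
               (CovZ.leaf K2_ok TV_l1913 _))))
            (CovZ.n1 (-280, 2960) (by decide +kernel)
             (CovZ.n2 (-260, 2940) (by decide +kernel)
              (CovZ.leaf K2_ok TV_l1914 _)
              (CovZ.n1 (-260, 2960) (by decide +kernel)
               (CovZ.leaf K2_ok TV_l1915 _)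
               (CovZ.badM (by decide +kernel))))
             (CovZ.n1 (-300, 2940) (by decide +kernel)
              (CovZ.badM (by decide +kernel))
              (CovZ.n1 (-280, 2940) (by decide +kernel)
               (CovZ.leaf K2_ok TV_l1916 _)
               (CovZ.badM (by decide +kernel)))))))
          (CovZ.n1 (-240, 3040) (by decide +kernel)
           (CovZ.n2 (-200, 3000) (by decide +kernel)
            (CovZ.n2 (-240, 3000) (by decide +kernel)
             (CovZ.leaf K2_ok TV_l1917 _)
             (CovZ.n1 (-220, 2980) (by decide +kernel)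
              (CovZ.leaf K2_ok TV_l1918 _)
              (CovZ.leaf K2_ok TV_l1919 _)))
            (CovZ.n1 (-200, 3040) (by decide +kernel)
             (CovZ.n2 (-180, 3020) (by decide +kernel)
              (CovZ.leaf K2_ok TV_l1920 _)
              (CovZ.leaf K2_ok TV_l1921 _))
             (CovZ.n1 (-220, 3020) (by decide +kernel)
              (CovZ.leaf K2_ok TV_l1922 _)
              (CovZ.leaf K2_ok TV_l1923 _))))
           (CovZ.n1 (-280, 3000) (by decide +kernel)
            (CovZ.n2 (-280, 3040) (by decide +kernel)
             (CovZ.n2 (-260, 3020) (by decide +kernel)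
              (CovZ.badM (by decide +kernel))
              (CovZ.leaf K2_ok TV_l1924 _))
             (CovZ.badM (by decide +kernel)))
            (CovZ.n1 (-240, 3000) (by decide +kernel)
             (CovZ.n2 (-260, 2980) (by decide +kernel)
              (CovZ.leaf K2_ok TV_l1925 _)
              (CovZ.n1 (-240, 2980) (by decide +kernel)
               (CovZ.leaf K2_ok TV_l1926 _)
               (CovZ.leaf K2_ok TV_l1927 _)))
             (CovZ.n1 (-260, 3020) (by decide +kernel)
              (CovZ.leaf K2_ok TV_l1928 _)
              (CovZ.leaf K2_ok TV_l1929 _)))))))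
        (CovZ.n1 (-160, 3200) (by decide +kernel)
         (CovZ.n2 (-80, 3120) (by decide +kernel)
          (CovZ.n2 (-160, 3120) (by decide +kernel)
           (CovZ.leaf K2_ok TV_l1930 _)
           (CovZ.n1 (-120, 3080) (by decide +kernel)
            (CovZ.n2 (-160, 3080) (by decide +kernel)
             (CovZ.leaf K2_ok TV_l1931 _)
             (CovZ.leaf K2_ok TV_l1932 _))
            (CovZ.n1 (-120, 3120) (by decide +kernel)
             (CovZ.leaf K2_ok TV_l1933 _)
             (CovZ.leaf K2_ok TV_l1934 _))))
          (CovZ.n1 (-80, 3200) (by decide +kernel)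
           (CovZ.n2 (-40, 3160) (by decide +kernel)
            (CovZ.leaf K2_ok TV_l1935 _)
            (CovZ.leaf K2_ok TV_l1936 _))
           (CovZ.n1 (-120, 3160) (by decide +kernel)
            (CovZ.leaf K2_ok TV_l1937 _)
            (CovZ.leaf K2_ok TV_l1938 _))))
         (CovZ.n1 (-240, 3120) (by decide +kernel)
          (CovZ.n2 (-240, 3200) (by decide +kernel)
           (CovZ.n2 (-200, 3160) (by decide +kernel)
            (CovZ.leaf K2_ok TV_l1939 _)
            (CovZ.n1 (-200, 3200) (by decide +kernel)
             (CovZ.leaf K2_ok TV_l1940 _)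
             (CovZ.leaf K2_ok TV_l1941 _)))
           (CovZ.n1 (-280, 3160) (by decide +kernel)
            (CovZ.n2 (-280, 3200) (by decide +kernel)
             (CovZ.leaf K2_ok TV_l1942 _)
             (CovZ.n1 (-300, 3180) (by decide +kernel)
              (CovZ.n2 (-300, 3200) (by decide +kernel)
               (CovZ.leaf K2_ok TV_l1943 _)
               (CovZ.leaf K2_ok TV_l1944 _))
              (CovZ.leaf K2_ok TV_l1945 _)))
            (CovZ.n1 (-240, 3160) (by decide +kernel)
             (CovZ.leaf K2_ok TV_l1946 _)
             (CovZ.leaf K2_ok TV_l1947 _))))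
          (CovZ.n1 (-160, 3120) (by decide +kernel)
           (CovZ.n2 (-200, 3080) (by decide +kernel)
            (CovZ.n2 (-200, 3120) (by decide +kernel)
             (CovZ.leaf K2_ok TV_l1948 _)
             (CovZ.leaf K2_ok TV_l1949 _))
            (CovZ.n1 (-160, 3080) (by decide +kernel)
             (CovZ.leaf K2_ok TV_l1950 _)
             (CovZ.leaf K2_ok TV_l1951 _)))
           (CovZ.n1 (-200, 3160) (by decide +kernel)
            (CovZ.leaf K2_ok TV_l1952 _)
            (CovZ.leaf K2_ok TV_l1953 _))))))
       (CovZ.n1 (-480, 3040) (by decide +kernel)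
        (CovZ.badM (by decide +kernel))
        (CovZ.n1 (-320, 3040) (by decide +kernel)
         (CovZ.n2 (-400, 2960) (by decide +kernel)
          (CovZ.badM (by decide +kernel))
          (CovZ.n1 (-320, 2960) (by decide +kernel)
           (CovZ.n2 (-360, 2920) (by decide +kernel)
            (CovZ.n2 (-360, 2960) (by decide +kernel)
             (CovZ.n2 (-340, 2940) (by decide +kernel)
              (CovZ.badM (by decide +kernel))
              (CovZ.n1 (-340, 2960) (by decide +kernel)
               (CovZ.leaf K2_ok TV_l1954 _)
               (CovZ.badM (by decide +kernel))))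
             (CovZ.badM (by decide +kernel)))
            (CovZ.n1 (-320, 2920) (by decide +kernel)
             (CovZ.badM (by decide +kernel))
             (CovZ.n1 (-340, 2940) (by decide +kernel)
              (CovZ.n2 (-320, 2940) (by decide +kernel)
               (CovZ.badM (by decide +kernel))
               (CovZ.leaf K2_ok TV_l1955 _))
              (CovZ.badM (by decide +kernel)))))
           (CovZ.badM (by decide +kernel))))
         (CovZ.badM (by decide +kernel)))))

theorem TV_u11 : CovZ TV_M (toL (selN TV_LN 70)) [0, 7, 4, 3] (-320, 2880) (0, 2560) (0, 3200) :=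
    (CovZ.n1 (0, 2880) (by decide +kernel)
       (CovZ.n2 (-160, 2720) (by decide +kernel)
        (CovZ.n2 (-160, 2880) (by decide +kernel)
         (CovZ.n2 (-80, 2800) (by decide +kernel)
          (CovZ.n2 (-160, 2800) (by decide +kernel)
           (CovZ.leaf K2_ok TV_l1956 _)
           (CovZ.leaf K2_ok TV_l1957 _))
          (CovZ.n1 (-80, 2880) (by decide +kernel)
           (CovZ.leaf K2_ok TV_l1958 _)
           (CovZ.leaf K2_ok TV_l1959 _)))
         (CovZ.n1 (-240, 2800) (by decide +kernel)
          (CovZ.n2 (-240, 2880) (by decide +kernel)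
           (CovZ.n2 (-200, 2840) (by decide +kernel)
            (CovZ.leaf K2_ok TV_l1960 _)
            (CovZ.leaf K2_ok TV_l1961 _))
           (CovZ.n1 (-280, 2840) (by decide +kernel)
            (CovZ.n2 (-280, 2880) (by decide +kernel)
             (CovZ.leaf K2_ok TV_l1962 _)
             (CovZ.badM (by decide +kernel)))
            (CovZ.n1 (-240, 2840) (by decide +kernel)
             (CovZ.leaf K2_ok TV_l1963 _)
             (CovZ.leaf K2_ok TV_l1964 _))))
          (CovZ.n1 (-160, 2800) (by decide +kernel)
           (CovZ.n2 (-200, 2760) (by decide +kernel)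
            (CovZ.leaf K2_ok TV_l1965 _)
            (CovZ.leaf K2_ok TV_l1966 _))
           (CovZ.n1 (-200, 2840) (by decide +kernel)
            (CovZ.leaf K2_ok TV_l1967 _)
            (CovZ.leaf K2_ok TV_l1968 _)))))
        (CovZ.n1 (0, 2720) (by decide +kernel)
         (CovZ.n2 (-80, 2640) (by decide +kernel)
          (CovZ.n2 (-80, 2720) (by decide +kernel)
           (CovZ.leaf K2_ok TV_l1969 _)
           (CovZ.leaf K2_ok TV_l1970 _))
          (CovZ.leaf K2_ok TV_l1451 _))
         (CovZ.n1 (-80, 2800) (by decide +kernel)
          (CovZ.n2 (0, 2800) (by decide +kernel)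
           (CovZ.leaf K2_ok TV_l1971 _)
           (CovZ.leaf K2_ok TV_l1972 _))
          (CovZ.leaf K2_ok TV_l1973 _))))
       (CovZ.n1 (-160, 3040) (by decide +kernel)
        (CovZ.n2 (0, 3040) (by decide +kernel)
         (CovZ.n2 (-80, 2960) (by decide +kernel)
          (CovZ.n2 (-80, 3040) (by decide +kernel)
           (CovZ.leaf K2_ok TV_l1974 _)
           (CovZ.n1 (-120, 3000) (by decide +kernel)
            (CovZ.n2 (-120, 3040) (by decide +kernel)
             (CovZ.leaf K2_ok TV_l1975 _)
             (CovZ.leaf K2_ok TV_l1976 _))
            (CovZ.leaf K2_ok TV_l1977 _)))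
          (CovZ.n1 (0, 2960) (by decide +kernel)
           (CovZ.leaf K2_ok TV_l1978 _)
           (CovZ.leaf K2_ok TV_l1979 _)))
         (CovZ.n1 (-80, 3120) (by decide +kernel)
          (CovZ.n2 (0, 3120) (by decide +kernel)
           (CovZ.n2 (-40, 3080) (by decide +kernel)
            (CovZ.n2 (-40, 3120) (by decide +kernel)
             (CovZ.leaf K2_ok TV_l1980 _)
             (CovZ.leaf K2_ok TV_l1981 _))
            (CovZ.leaf K2_ok TV_l1982 _))
           (CovZ.n1 (-40, 3160) (by decide +kernel)
            (CovZ.leaf K2_ok TV_l1983 _)
            (CovZ.leaf K2_ok TV_l1984 _)))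
          (CovZ.n1 (-80, 3040) (by decide +kernel)
           (CovZ.n2 (-120, 3080) (by decide +kernel)
            (CovZ.n2 (-80, 3080) (by decide +kernel)
             (CovZ.leaf K2_ok TV_l1985 _)
             (CovZ.leaf K2_ok TV_l1986 _))
            (CovZ.leaf K2_ok TV_l1987 _))
           (CovZ.leaf K2_ok TV_l1988 _))))
        (CovZ.n1 (-160, 2880) (by decide +kernel)
         (CovZ.n2 (-240, 2960) (by decide +kernel)
          (CovZ.n2 (-160, 2960) (by decide +kernel)
           (CovZ.n2 (-200, 2920) (by decide +kernel)
            (CovZ.n2 (-200, 2960) (by decide +kernel)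
             (CovZ.leaf K2_ok TV_l1989 _)
             (CovZ.leaf K2_ok TV_l1990 _))
            (CovZ.n1 (-160, 2920) (by decide +kernel)
             (CovZ.leaf K2_ok TV_l1991 _)
             (CovZ.leaf K2_ok TV_l1992 _)))
           (CovZ.n1 (-200, 3000) (by decide +kernel)
            (CovZ.n2 (-160, 3000) (by decide +kernel)
             (CovZ.leaf K2_ok TV_l1993 _)
             (CovZ.n1 (-180, 3020) (by decide +kernel)
              (CovZ.leaf K2_ok TV_l1994 _)
              (CovZ.leaf K2_ok TV_l1995 _)))
            (CovZ.n1 (-200, 2960) (by decide +kernel)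
             (CovZ.n2 (-220, 2980) (by decide +kernel)
              (CovZ.leaf K2_ok TV_l1996 _)
              (CovZ.leaf K2_ok TV_l1997 _))
             (CovZ.leaf K2_ok TV_l1998 _))))
          (CovZ.n1 (-240, 2880) (by decide +kernel)
           (CovZ.n2 (-280, 2920) (by decide +kernel)
            (CovZ.n2 (-240, 2920) (by decide +kernel)
             (CovZ.n2 (-260, 2900) (by decide +kernel)
              (CovZ.leaf K2_ok TV_l1999 _)
              (CovZ.leaf K2_ok TV_l2000 _))
             (CovZ.n1 (-260, 2940) (by decide +kernel)
              (CovZ.leaf K2_ok TV_l2001 _)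
              (CovZ.leaf K2_ok TV_l2002 _)))
            (CovZ.n1 (-280, 2880) (by decide +kernel)
             (CovZ.n2 (-300, 2900) (by decide +kernel)
              (CovZ.leaf K2_ok TV_l2003 _)
              (CovZ.badM (by decide +kernel)))
             (CovZ.leaf K2_ok TV_l2004 _)))
           (CovZ.n1 (-200, 2920) (by decide +kernel)
            (CovZ.leaf K2_ok TV_l2005 _)
            (CovZ.leaf K2_ok TV_l2006 _))))
         (CovZ.n1 (-80, 2960) (by decide +kernel)
          (CovZ.n2 (-80, 2880) (by decide +kernel)
           (CovZ.leaf K2_ok TV_l2007 _)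
           (CovZ.leaf K2_ok TV_l2008 _))
          (CovZ.n1 (-160, 2960) (by decide +kernel)
           (CovZ.n2 (-120, 3000) (by decide +kernel)
            (CovZ.leaf K2_ok TV_l2009 _)
            (CovZ.leaf K2_ok TV_l2010 _))
           (CovZ.leaf K2_ok TV_l2011 _))))))

theorem TV_u12 : CovZ TV_M (toL (selN TV_LN 70)) [0, 7, 4, 3] (640, 3200) (320, 3520) (0, 3200) :=
    (CovZ.n2 (320, 3200) (by decide +kernel)
       (CovZ.n2 (160, 3360) (by decide +kernel)
        (CovZ.n2 (320, 3360) (by decide +kernel)
         (CovZ.n2 (240, 3280) (by decide +kernel)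
          (CovZ.n2 (240, 3360) (by decide +kernel)
           (CovZ.n2 (280, 3320) (by decide +kernel)
            (CovZ.n2 (240, 3320) (by decide +kernel)
             (CovZ.leaf K2_ok TV_l2153 _)
             (CovZ.leaf K2_ok TV_l2154 _))
            (CovZ.n1 (280, 3360) (by decide +kernel)
             (CovZ.n2 (300, 3340) (by decide +kernel)
              (CovZ.leaf K2_ok TV_l2155 _)
              (CovZ.leaf K2_ok TV_l2156 _))
             (CovZ.leaf K2_ok TV_l2157 _)))
           (CovZ.n1 (200, 3320) (by decide +kernel)
            (CovZ.n2 (200, 3360) (by decide +kernel)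
             (CovZ.leaf K2_ok TV_l2158 _)
             (CovZ.leaf K2_ok TV_l2159 _))
            (CovZ.n1 (240, 3320) (by decide +kernel)
             (CovZ.leaf K2_ok TV_l2160 _)
             (CovZ.leaf K2_ok TV_l2161 _))))
          (CovZ.n1 (320, 3280) (by decide +kernel)
           (CovZ.n2 (280, 3240) (by decide +kernel)
            (CovZ.n2 (280, 3280) (by decide +kernel)
             (CovZ.leaf K2_ok TV_l2162 _)
             (CovZ.leaf K2_ok TV_l2163 _))
            (CovZ.n1 (320, 3240) (by decide +kernel)
             (CovZ.leaf K2_ok TV_l2164 _)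
             (CovZ.leaf K2_ok TV_l2165 _)))
           (CovZ.n1 (280, 3320) (by decide +kernel)
            (CovZ.n2 (320, 3320) (by decide +kernel)
             (CovZ.n2 (300, 3300) (by decide +kernel)
              (CovZ.leaf K2_ok TV_l2166 _)
              (CovZ.leaf K2_ok TV_l2167 _))
             (CovZ.n1 (300, 3340) (by decide +kernel)
              (CovZ.leaf K2_ok TV_l2168 _)
              (CovZ.leaf K2_ok TV_l2169 _)))
            (CovZ.leaf K2_ok TV_l2170 _))))
         (CovZ.n1 (240, 3440) (by decide +kernel)
          (CovZ.n2 (320, 3440) (by decide +kernel)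
           (CovZ.n2 (280, 3400) (by decide +kernel)
            (CovZ.n2 (280, 3440) (by decide +kernel)
             (CovZ.n2 (300, 3420) (by decide +kernel)
              (CovZ.leaf K2_ok TV_l2171 _)
              (CovZ.badM (by decide +kernel)))
             (CovZ.n1 (260, 3420) (by decide +kernel)
              (CovZ.leaf K2_ok TV_l2172 _)
              (CovZ.leaf K2_ok TV_l2173 _)))
            (CovZ.n1 (320, 3400) (by decide +kernel)
             (CovZ.n2 (300, 3380) (by decide +kernel)
              (CovZ.leaf K2_ok TV_l2174 _)
              (CovZ.badM (by decide +kernel)))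
             (CovZ.n1 (300, 3420) (by decide +kernel)
              (CovZ.badM (by decide +kernel))
              (CovZ.leaf K2_ok TV_l2175 _))))
           (CovZ.n1 (280, 3480) (by decide +kernel)
            (CovZ.badM (by decide +kernel))
            (CovZ.n1 (280, 3440) (by decide +kernel)
             (CovZ.n2 (260, 3460) (by decide +kernel)
              (CovZ.badM (by decide +kernel))
              (CovZ.leaf K2_ok TV_l2176 _))
             (CovZ.badM (by decide +kernel)))))
          (CovZ.n1 (240, 3360) (by decide +kernel)
           (CovZ.n2 (200, 3400) (by decide +kernel)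
            (CovZ.n2 (240, 3400) (by decide +kernel)
             (CovZ.n2 (220, 3380) (by decide +kernel)
              (CovZ.leaf K2_ok TV_l2177 _)
              (CovZ.leaf K2_ok TV_l2178 _))
             (CovZ.n1 (220, 3420) (by decide +kernel)
              (CovZ.leaf K2_ok TV_l2179 _)
              (CovZ.leaf K2_ok TV_l2180 _)))
            (CovZ.leaf K2_ok TV_l2181 _))
           (CovZ.n1 (280, 3400) (by decide +kernel)
            (CovZ.n2 (280, 3360) (by decide +kernel)
             (CovZ.n2 (260, 3380) (by decide +kernel)
              (CovZ.leaf K2_ok TV_l2182 _)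
              (CovZ.leaf K2_ok TV_l2183 _))
             (CovZ.leaf K2_ok TV_l2184 _))
            (CovZ.n1 (240, 3400) (by decide +kernel)
             (CovZ.leaf K2_ok TV_l2185 _)
             (CovZ.n1 (260, 3380) (by decide +kernel)
              (CovZ.leaf K2_ok TV_l2186 _)
              (CovZ.leaf K2_ok TV_l2187 _)))))))
        (CovZ.n1 (160, 3200) (by decide +kernel)
         (CovZ.n2 (80, 3280) (by decide +kernel)
          (CovZ.n2 (160, 3280) (by decide +kernel)
           (CovZ.n2 (120, 3240) (by decide +kernel)
            (CovZ.leaf K2_ok TV_l2188 _)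
            (CovZ.leaf K2_ok TV_l2189 _))
           (CovZ.n1 (120, 3320) (by decide +kernel)
            (CovZ.leaf K2_ok TV_l2190 _)
            (CovZ.leaf K2_ok TV_l2191 _)))
          (CovZ.n1 (80, 3200) (by decide +kernel)
           (CovZ.leaf K2_ok TV_l2192 _)
           (CovZ.leaf K2_ok TV_l2193 _)))
         (CovZ.n1 (240, 3280) (by decide +kernel)
          (CovZ.n2 (240, 3200) (by decide +kernel)
           (CovZ.n2 (200, 3240) (by decide +kernel)
            (CovZ.leaf K2_ok TV_l2194 _)
            (CovZ.leaf K2_ok TV_l2195 _))
           (CovZ.leaf K2_ok TV_l2196 _))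
          (CovZ.n1 (160, 3280) (by decide +kernel)
           (CovZ.leaf K2_ok TV_l2197 _)
           (CovZ.n1 (200, 3240) (by decide +kernel)
            (CovZ.leaf K2_ok TV_l2198 _)
            (CovZ.leaf K2_ok TV_l2199 _))))))
       (CovZ.n1 (480, 3360) (by decide +kernel)
        (CovZ.n2 (480, 3200) (by decide +kernel)
         (CovZ.n2 (400, 3280) (by decide +kernel)
          (CovZ.badM (by decide +kernel))
          (CovZ.n1 (400, 3200) (by decide +kernel)
           (CovZ.n2 (360, 3240) (by decide +kernel)
            (CovZ.n2 (400, 3240) (by decide +kernel)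
             (CovZ.leaf K2_ok TV_l2200 _)
             (CovZ.leaf K2_ok TV_l2201 _))
            (CovZ.leaf K2_ok TV_l2202 _))
           (CovZ.n1 (440, 3240) (by decide +kernel)
            (CovZ.n2 (440, 3200) (by decide +kernel)
             (CovZ.leaf K2_ok TV_l2203 _)
             (CovZ.badM (by decide +kernel)))
            (CovZ.n1 (400, 3240) (by decide +kernel)
             (CovZ.leaf K2_ok TV_l2204 _)
             (CovZ.leaf K2_ok TV_l2205 _)))))
         (CovZ.badM (by decide +kernel)))
        (CovZ.n1 (320, 3360) (by decide +kernel)
         (CovZ.badM (by decide +kernel))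
         (CovZ.n1 (400, 3280) (by decide +kernel)
          (CovZ.n2 (320, 3280) (by decide +kernel)
           (CovZ.n2 (360, 3320) (by decide +kernel)
            (CovZ.n2 (360, 3280) (by decide +kernel)
             (CovZ.n2 (340, 3300) (by decide +kernel)
              (CovZ.leaf K2_ok TV_l2206 _)
              (CovZ.leaf K2_ok TV_l2207 _))
             (CovZ.leaf K2_ok TV_l2208 _))
            (CovZ.n1 (320, 3320) (by decide +kernel)
             (CovZ.leaf K2_ok TV_l2209 _)
             (CovZ.n1 (340, 3300) (by decide +kernel)
              (CovZ.leaf K2_ok TV_l2210 _)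
              (CovZ.leaf K2_ok TV_l2211 _))))
           (CovZ.n1 (360, 3240) (by decide +kernel)
            (CovZ.n2 (320, 3240) (by decide +kernel)
             (CovZ.leaf K2_ok TV_l2212 _)
             (CovZ.leaf K2_ok TV_l2213 _))
            (CovZ.n1 (360, 3280) (by decide +kernel)
             (CovZ.leaf K2_ok TV_l2214 _)
             (CovZ.leaf K2_ok TV_l2215 _))))
          (CovZ.badM (by decide +kernel))))))

end Pool.Agent.TET
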