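import Pool.Agent.Helper38_TET.TV_M
import Pool.Agent.Helper38_TET.TV_L
import Pool.Agent.Helper38_TET.TV_0
import Pool.Agent.Helper38_TET.TV_1
import Pool.Agent.Helper38_TET.TV_2
import Pool.Agent.Helper38_TET.TV_3
import Pool.Agent.Helper38_TET.TV_4
import Pool.Agent.Helper38_TET.TV_5
import Pool.Agent.Helper38_TET.TV_6
import Pool.Agent.Helper38_TET.TV_7
import Pool.Agent.Helper38_TET.TV_9
import Pool.Agent.Helper38_TET.TV_11
import Pool.Agent.Helper38_TET.TV_12
import Pool.Agent.Helper38_TET.TV_13
import Pool.Agent.Helper38_TET.TV_16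
import Pool.Agent.Helper38_TET.TV_17
import Pool.Agent.Helper38_TET.TV_18
import Pool.Agent.Helper38_TET.TV_U0

/-!
# MP_c7c9bf_co: certificates, family TV
-/

set_option autoImplicit false
set_option maxRecDepth 100000

namespace Pool.Agent.TET

theorem TV_s0_0 : SqZ TV_M TV_L [0, 7, 4, 3] (-6400) (-6400) 1280 0 0 :=
  SqZ.mk (a := (-6400)) (b := (-5120)) (c := (-6400)) (d := (-5120)) (by norm_num) (by norm_num) (by norm_num) (by norm_num)
    (CovZ.topM TV_LL 0 (by decide +kernel) (CovZ.badM (by decide +kernel)))
    (CovZ.topM TV_LL 0 (by decide +kernel) (CovZ.badM (by decide +kernel)))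

theorem TV_s1_0 : SqZ TV_M TV_L [0, 7, 4, 3] (-6400) (-6400) 1280 1 0 :=
  SqZ.mk (a := (-5120)) (b := (-3840)) (c := (-6400)) (d := (-5120)) (by norm_num) (by norm_num) (by norm_num) (by norm_num)
    (CovZ.topM TV_LL 1 (by decide +kernel) (CovZ.n2 (-4480, -5760) (by decide +kernel)
    (CovZ.n2 (-3840, -5760) (by decide +kernel)
     (CovZ.n2 (-4160, -6080) (by decide +kernel)
      (CovZ.n2 (-4160, -5760) (by decide +kernel)
       (CovZ.n2 (-4000, -5920) (by decide +kernel)
        (CovZ.n2 (-4160, -5920) (by decide +kernel)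
         (CovZ.n2 (-4080, -5840) (by decide +kernel)
          (CovZ.n2 (-4080, -5920) (by decide +kernel)
           (CovZ.n2 (-4120, -5880) (by decide +kernel)
            (CovZ.leaf K2_ok TV_l1672 _)
            (CovZ.badM (by decide +kernel)))
           (CovZ.leaf K2_ok TV_l1673 _))
          (CovZ.n1 (-4160, -5840) (by decide +kernel)
           (CovZ.leaf K2_ok TV_l1674 _)
           (CovZ.n1 (-4120, -5880) (by decide +kernel)
            (CovZ.badM (by decide +kernel))
            (CovZ.leaf K2_ok TV_l1675 _))))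
         (CovZ.n1 (-4080, -6000) (by decide +kernel)
          (CovZ.badM (by decide +kernel))
          (CovZ.n1 (-4080, -5920) (by decide +kernel)
           (CovZ.n2 (-4040, -5960) (by decide +kernel)
            (CovZ.badM (by decide +kernel))
            (CovZ.n1 (-4040, -5920) (by decide +kernel)
             (CovZ.leaf K2_ok TV_l1676 _)
             (CovZ.leaf K2_ok TV_l1677 _)))
           (CovZ.badM (by decide +kernel)))))
        (CovZ.n1 (-4000, -5760) (by decide +kernel)
         (CovZ.n2 (-3920, -5840) (by decide +kernel)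
          (CovZ.leaf K2_ok TV_l1678 _)
          (CovZ.leaf K2_ok TV_l1679 _))
         (CovZ.n1 (-4080, -5840) (by decide +kernel)
          (CovZ.n2 (-4080, -5760) (by decide +kernel)
           (CovZ.leaf K2_ok TV_l1680 _)
           (CovZ.leaf K2_ok TV_l1681 _))
          (CovZ.n1 (-4000, -5840) (by decide +kernel)
           (CovZ.n2 (-4040, -5880) (by decide +kernel)
            (CovZ.leaf K2_ok TV_l1682 _)
            (CovZ.leaf K2_ok TV_l1683 _))
           (CovZ.leaf K2_ok TV_l1684 _)))))
       (CovZ.n1 (-4320, -5920) (by decide +kernel)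
        (CovZ.n2 (-4320, -5760) (by decide +kernel)
         (CovZ.n2 (-4240, -5840) (by decide +kernel)
          (CovZ.badM (by decide +kernel))
          (CovZ.n1 (-4240, -5760) (by decide +kernel)
           (CovZ.leaf K2_ok TV_l1685 _)
           (CovZ.badM (by decide +kernel))))
         (CovZ.badM (by decide +kernel)))
        (CovZ.n1 (-4160, -5920) (by decide +kernel)
         (CovZ.badM (by decide +kernel))
         (CovZ.n1 (-4240, -5840) (by decide +kernel)
          (CovZ.n2 (-4160, -5840) (by decide +kernel)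
           (CovZ.badM (by decide +kernel))
           (CovZ.leaf K2_ok TV_l1686 _))
          (CovZ.badM (by decide +kernel))))))
      (CovZ.n1 (-3840, -6080) (by decide +kernel)
       (CovZ.n2 (-4000, -6240) (by decide +kernel)
        (CovZ.n2 (-4000, -6080) (by decide +kernel)
         (CovZ.n2 (-3920, -6160) (by decide +kernel)
          (CovZ.badM (by decide +kernel))
          (CovZ.n1 (-3920, -6080) (by decide +kernel)
           (CovZ.badM (by decide +kernel))
           (CovZ.badM (by decide +kernel))))
         (CovZ.badM (by decide +kernel)))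
        (CovZ.badM (by decide +kernel)))
       (CovZ.n1 (-4000, -5920) (by decide +kernel)
        (CovZ.n2 (-3840, -5920) (by decide +kernel)
         (CovZ.n2 (-3920, -6000) (by decide +kernel)
          (CovZ.n2 (-3920, -5920) (by decide +kernel)
           (CovZ.leaf K2_ok TV_l1687 _)
           (CovZ.n1 (-3960, -5960) (by decide +kernel)
            (CovZ.leaf K2_ok TV_l1688 _)
            (CovZ.leaf K2_ok TV_l1689 _)))
          (CovZ.n1 (-3840, -6000) (by decide +kernel)
           (CovZ.n2 (-3880, -6040) (by decide +kernel)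
            (CovZ.n2 (-3880, -6000) (by decide +kernel)
             (CovZ.leaf K2_ok TV_l1690 _)
             (CovZ.leaf K2_ok TV_l1691 _))
            (CovZ.badM (by decide +kernel)))
           (CovZ.leaf K2_ok TV_l1692 _)))
         (CovZ.n1 (-3920, -5840) (by decide +kernel)
          (CovZ.leaf K2_ok TV_l1693 _)
          (CovZ.n1 (-3920, -5920) (by decide +kernel)
           (CovZ.leaf K2_ok TV_l1694 _)
           (CovZ.leaf K2_ok TV_l1695 _))))
        (CovZ.n1 (-4000, -6080) (by decide +kernel)
         (CovZ.n2 (-4080, -6000) (by decide +kernel)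
          (CovZ.n2 (-4000, -6000) (by decide +kernel)
           (CovZ.badM (by decide +kernel))
           (CovZ.n1 (-4040, -5960) (by decide +kernel)
            (CovZ.n2 (-4000, -5960) (by decide +kernel)
             (CovZ.n2 (-4020, -5980) (by decide +kernel)
              (CovZ.leaf K2_ok TV_l1696 _)
              (CovZ.leaf K2_ok TV_l1697 _))
             (CovZ.leaf K2_ok TV_l1698 _))
            (CovZ.badM (by decide +kernel))))
          (CovZ.badM (by decide +kernel)))
         (CovZ.n1 (-3920, -6000) (by decide +kernel)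
          (CovZ.n2 (-3920, -6080) (by decide +kernel)
           (CovZ.n2 (-3960, -6040) (by decide +kernel)
            (CovZ.n2 (-3920, -6040) (by decide +kernel)
             (CovZ.n2 (-3940, -6060) (by decide +kernel)
              (CovZ.n2 (-3940, -6040) (by decide +kernel)
               (CovZ.leaf K2_ok TV_l1699 _)
               (CovZ.leaf K2_ok TV_l1700 _))
              (CovZ.n1 (-3920, -6060) (by decide +kernel)
               (CovZ.leaf K2_ok TV_l1701 _)
               (CovZ.leaf K2_ok TV_l1702 _)))
             (CovZ.n1 (-3940, -6020) (by decide +kernel)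
              (CovZ.leaf K2_ok TV_l1703 _)
              (CovZ.leaf K2_ok TV_l1704 _)))
            (CovZ.badM (by decide +kernel)))
           (CovZ.n1 (-3880, -6040) (by decide +kernel)
            (CovZ.badM (by decide +kernel))
            (CovZ.n1 (-3920, -6040) (by decide +kernel)
             (CovZ.leaf K2_ok TV_l1705 _)
             (CovZ.n1 (-3900, -6060) (by decide +kernel)
              (CovZ.leaf K2_ok TV_l1706 _)
              (CovZ.leaf K2_ok TV_l1707 _)))))
          (CovZ.n1 (-4000, -6000) (by decide +kernel)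
           (CovZ.n2 (-3960, -5960) (by decide +kernel)
            (CovZ.n2 (-3960, -6000) (by decide +kernel)
             (CovZ.leaf K2_ok TV_l1708 _)
             (CovZ.leaf K2_ok TV_l1709 _))
            (CovZ.leaf K2_ok TV_l1710 _))
           (CovZ.n1 (-3960, -6040) (by decide +kernel)
            (CovZ.badM (by decide +kernel))
            (CovZ.n1 (-3960, -6000) (by decide +kernel)
             (CovZ.leaf K2_ok TV_l1711 _)
             (CovZ.n1 (-3980, -6020) (by decide +kernel)
              (CovZ.leaf K2_ok TV_l1712 _)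
              (CovZ.leaf K2_ok TV_l1713 _))))))))))
     (CovZ.n1 (-4160, -5440) (by decide +kernel)
      (CovZ.n2 (-3840, -5440) (by decide +kernel)
       (CovZ.n2 (-4000, -5600) (by decide +kernel)
        (CovZ.n2 (-4000, -5440) (by decide +kernel)
         (CovZ.leaf K2_ok TV_l227 _)
         (CovZ.leaf K2_ok TV_l1714 _))
        (CovZ.leaf K2_ok TV_l228 _))
       (CovZ.leaf K2_ok TV_l229 _))
      (CovZ.n1 (-4160, -5760) (by decide +kernel)
       (CovZ.n2 (-4320, -5600) (by decide +kernel)
        (CovZ.n2 (-4160, -5600) (by decide +kernel)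
         (CovZ.n2 (-4240, -5680) (by decide +kernel)
          (CovZ.leaf K2_ok TV_l1715 _)
          (CovZ.leaf K2_ok TV_l1716 _))
         (CovZ.leaf K2_ok TV_l1717 _))
        (CovZ.n1 (-4320, -5760) (by decide +kernel)
         (CovZ.n2 (-4400, -5680) (by decide +kernel)
          (CovZ.leaf K2_ok TV_l1718 _)
          (CovZ.badM (by decide +kernel)))
         (CovZ.n1 (-4240, -5680) (by decide +kernel)
          (CovZ.leaf K2_ok TV_l1719 _)
          (CovZ.leaf K2_ok TV_l1720 _))))
       (CovZ.n1 (-4000, -5600) (by decide +kernel)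
        (CovZ.n2 (-4000, -5760) (by decide +kernel)
         (CovZ.n2 (-4080, -5680) (by decide +kernel)
          (CovZ.leaf K2_ok TV_l1721 _)
          (CovZ.leaf K2_ok TV_l1722 _))
         (CovZ.leaf K2_ok TV_l1723 _))
        (CovZ.n1 (-4160, -5600) (by decide +kernel)
         (CovZ.leaf K2_ok TV_l1724 _)
         (CovZ.leaf K2_ok TV_l1725 _))))))
    (CovZ.badM (by decide +kernel))))
    (CovZ.topM TV_LL 1 (by decide +kernel) (CovZ.n0 (-4480, -5760) (by decide +kernel)
    (CovZ.badM (by decide +kernel))
    (CovZ.n1 (-4480, -5120) (by decide +kernel)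
     (CovZ.n2 (-4160, -5440) (by decide +kernel)
      (CovZ.n2 (-4480, -5440) (by decide +kernel)
       (CovZ.leaf K2_ok TV_l231 _)
       (CovZ.n1 (-4320, -5600) (by decide +kernel)
        (CovZ.n2 (-4480, -5600) (by decide +kernel)
         (CovZ.leaf K2_ok TV_l1726 _)
         (CovZ.n1 (-4400, -5680) (by decide +kernel)
          (CovZ.badM (by decide +kernel))
          (CovZ.leaf K2_ok TV_l1727 _)))
        (CovZ.n1 (-4320, -5440) (by decide +kernel)
         (CovZ.leaf K2_ok TV_l1728 _)
         (CovZ.leaf K2_ok TV_l1729 _))))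
      (CovZ.n1 (-4160, -5120) (by decide +kernel)
       (CovZ.leaf K2_ok TV_l232 _)
       (CovZ.n1 (-4320, -5280) (by decide +kernel)
        (CovZ.leaf K2_ok TV_l233 _)
        (CovZ.leaf K2_ok TV_l1730 _))))
     (CovZ.n1 (-4800, -5440) (by decide +kernel)
      (CovZ.n2 (-4800, -5120) (by decide +kernel)
       (CovZ.leaf K2_ok TV_l234 _)
       (CovZ.leaf K2_ok TV_l235 _))
      (CovZ.n1 (-4480, -5440) (by decide +kernel)
       (CovZ.n2 (-4640, -5600) (by decide +kernel)
        (CovZ.n2 (-4640, -5440) (by decide +kernel)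
         (CovZ.leaf K2_ok TV_l1731 _)
         (CovZ.badM (by decide +kernel)))
        (CovZ.n1 (-4480, -5600) (by decide +kernel)
         (CovZ.badM (by decide +kernel))
         (CovZ.leaf K2_ok TV_l1732 _)))
       (CovZ.n1 (-4640, -5280) (by decide +kernel)
        (CovZ.leaf K2_ok TV_l236 _)
        (CovZ.leaf K2_ok TV_l1733 _)))))))

theorem TV_s2_0 : SqZ TV_M TV_L [0, 7, 4, 3] (-6400) (-6400) 1280 2 0 :=
  SqZ.mk (a := (-3840)) (b := (-2560)) (c := (-6400)) (d := (-5120)) (by norm_num) (by norm_num) (by norm_num) (by norm_num)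
    (CovZ.topM TV_LL 0 (by decide +kernel) (CovZ.badM (by decide +kernel)))
    (CovZ.topM TV_LL 1 (by decide +kernel) (CovZ.n0 (-3200, -5760) (by decide +kernel)
    (CovZ.n2 (-3840, -5760) (by decide +kernel)
     (CovZ.n2 (-3520, -5440) (by decide +kernel)
      (CovZ.n2 (-3520, -5760) (by decide +kernel)
       (CovZ.n2 (-3680, -5600) (by decide +kernel)
        (CovZ.leaf K2_ok TV_l386 _)
        (CovZ.n1 (-3680, -5760) (by decide +kernel)
         (CovZ.leaf K2_ok TV_l387 _)
         (CovZ.leaf K2_ok TV_l388 _)))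
       (CovZ.n1 (-3360, -5600) (by decide +kernel)
        (CovZ.n2 (-3360, -5760) (by decide +kernel)
         (CovZ.leaf K2_ok TV_l389 _)
         (CovZ.leaf K2_ok TV_l390 _))
        (CovZ.leaf K2_ok TV_l391 _)))
      (CovZ.n1 (-3840, -5440) (by decide +kernel)
       (CovZ.leaf K2_ok TV_l392 _)
       (CovZ.n1 (-3680, -5600) (by decide +kernel)
        (CovZ.leaf K2_ok TV_l393 _)
        (CovZ.leaf K2_ok TV_l394 _))))
     (CovZ.n1 (-3520, -6080) (by decide +kernel)
      (CovZ.n2 (-3840, -6080) (by decide +kernel)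
       (CovZ.n2 (-3680, -5920) (by decide +kernel)
        (CovZ.badM (by decide +kernel))
        (CovZ.n1 (-3840, -5920) (by decide +kernel)
         (CovZ.leaf K2_ok TV_l403 _)
         (CovZ.n1 (-3760, -6000) (by decide +kernel)
          (CovZ.n2 (-3840, -6000) (by decide +kernel)
           (CovZ.leaf K2_ok TV_l1737 _)
           (CovZ.badM (by decide +kernel)))
          (CovZ.n1 (-3760, -5920) (by decide +kernel)
           (CovZ.leaf K2_ok TV_l404 _)
           (CovZ.leaf K2_ok TV_l1738 _)))))
       (CovZ.badM (by decide +kernel)))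
      (CovZ.n1 (-3520, -5760) (by decide +kernel)
       (CovZ.n2 (-3360, -5920) (by decide +kernel)
        (CovZ.n2 (-3520, -5920) (by decide +kernel)
         (CovZ.leaf K2_ok TV_l415 _)
         (CovZ.badM (by decide +kernel)))
        (CovZ.n1 (-3360, -5760) (by decide +kernel)
         (CovZ.badM (by decide +kernel))
         (CovZ.n1 (-3440, -5840) (by decide +kernel)
          (CovZ.leaf K2_ok TV_l421 _)
          (CovZ.badM (by decide +kernel)))))
       (CovZ.n1 (-3680, -5920) (by decide +kernel)
        (CovZ.n2 (-3680, -5760) (by decide +kernel)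
         (CovZ.leaf K2_ok TV_l423 _)
         (CovZ.n1 (-3760, -5840) (by decide +kernel)
          (CovZ.leaf K2_ok TV_l424 _)
          (CovZ.leaf K2_ok TV_l425 _)))
        (CovZ.n1 (-3520, -5920) (by decide +kernel)
         (CovZ.badM (by decide +kernel))
         (CovZ.n1 (-3600, -5840) (by decide +kernel)
          (CovZ.leaf K2_ok TV_l430 _)
          (CovZ.badM (by decide +kernel))))))))
    (CovZ.n1 (-3200, -5120) (by decide +kernel)
     (CovZ.n2 (-2880, -5440) (by decide +kernel)
      (CovZ.n2 (-3200, -5440) (by decide +kernel)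
       (CovZ.n2 (-3040, -5280) (by decide +kernel)
        (CovZ.n2 (-3040, -5440) (by decide +kernel)
         (CovZ.leaf K2_ok TV_l432 _)
         (CovZ.n1 (-2960, -5360) (by decide +kernel)
          (CovZ.badM (by decide +kernel))
          (CovZ.leaf K2_ok TV_l433 _)))
        (CovZ.n1 (-3200, -5280) (by decide +kernel)
         (CovZ.leaf K2_ok TV_l434 _)
         (CovZ.leaf K2_ok TV_l435 _)))
       (CovZ.n1 (-3040, -5600) (by decide +kernel)
        (CovZ.n2 (-3200, -5600) (by decide +kernel)
         (CovZ.leaf K2_ok TV_l436 _)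
         (CovZ.badM (by decide +kernel)))
        (CovZ.n1 (-3040, -5440) (by decide +kernel)
         (CovZ.badM (by decide +kernel))
         (CovZ.n1 (-3120, -5520) (by decide +kernel)
          (CovZ.leaf K2_ok TV_l439 _)
          (CovZ.badM (by decide +kernel))))))
      (CovZ.n1 (-2880, -5120) (by decide +kernel)
       (CovZ.n2 (-2720, -5280) (by decide +kernel)
        (CovZ.n2 (-2880, -5280) (by decide +kernel)
         (CovZ.n2 (-2800, -5200) (by decide +kernel)
          (CovZ.n2 (-2800, -5280) (by decide +kernel)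
           (CovZ.leaf K2_ok TV_l1739 _)
           (CovZ.leaf K2_ok TV_l1740 _))
          (CovZ.leaf K2_ok TV_l442 _))
         (CovZ.n1 (-2800, -5360) (by decide +kernel)
          (CovZ.n2 (-2880, -5360) (by decide +kernel)
           (CovZ.leaf K2_ok TV_l1741 _)
           (CovZ.badM (by decide +kernel)))
          (CovZ.n1 (-2800, -5280) (by decide +kernel)
           (CovZ.badM (by decide +kernel))
           (CovZ.n1 (-2840, -5320) (by decide +kernel)
            (CovZ.leaf K2_ok TV_l1742 _)
            (CovZ.badM (by decide +kernel))))))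
        (CovZ.n1 (-2720, -5120) (by decide +kernel)
         (CovZ.n2 (-2640, -5200) (by decide +kernel)
          (CovZ.n2 (-2720, -5200) (by decide +kernel)
           (CovZ.leaf K2_ok TV_l1743 _)
           (CovZ.badM (by decide +kernel)))
          (CovZ.n1 (-2640, -5120) (by decide +kernel)
           (CovZ.n2 (-2600, -5160) (by decide +kernel)
            (CovZ.leaf K2_ok TV_l1744 _)
            (CovZ.n1 (-2600, -5120) (by decide +kernel)
             (CovZ.badM (by decide +kernel))
             (CovZ.leaf K2_ok TV_l1745 _)))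
           (CovZ.n1 (-2680, -5160) (by decide +kernel)
            (CovZ.leaf K2_ok TV_l1746 _)
            (CovZ.leaf K2_ok TV_l1747 _))))
         (CovZ.n1 (-2800, -5200) (by decide +kernel)
          (CovZ.n2 (-2800, -5120) (by decide +kernel)
           (CovZ.leaf K2_ok TV_l443 _)
           (CovZ.leaf K2_ok TV_l444 _))
          (CovZ.n1 (-2720, -5200) (by decide +kernel)
           (CovZ.n2 (-2760, -5240) (by decide +kernel)
            (CovZ.leaf K2_ok TV_l1748 _)
            (CovZ.badM (by decide +kernel)))
           (CovZ.leaf K2_ok TV_l1749 _)))))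
       (CovZ.n1 (-3040, -5280) (by decide +kernel)
        (CovZ.n2 (-3040, -5120) (by decide +kernel)
         (CovZ.n2 (-2960, -5200) (by decide +kernel)
          (CovZ.leaf K2_ok TV_l445 _)
          (CovZ.leaf K2_ok TV_l446 _))
         (CovZ.n1 (-3120, -5200) (by decide +kernel)
          (CovZ.leaf K2_ok TV_l447 _)
          (CovZ.leaf K2_ok TV_l448 _)))
        (CovZ.n1 (-2880, -5280) (by decide +kernel)
         (CovZ.n2 (-2960, -5360) (by decide +kernel)
          (CovZ.leaf K2_ok TV_l449 _)
          (CovZ.n1 (-2880, -5360) (by decide +kernel)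
           (CovZ.badM (by decide +kernel))
           (CovZ.leaf K2_ok TV_l1750 _)))
         (CovZ.n1 (-2960, -5200) (by decide +kernel)
          (CovZ.leaf K2_ok TV_l450 _)
          (CovZ.leaf K2_ok TV_l451 _))))))
     (CovZ.n1 (-3520, -5440) (by decide +kernel)
      (CovZ.n2 (-3520, -5120) (by decide +kernel)
       (CovZ.n2 (-3360, -5280) (by decide +kernel)
        (CovZ.leaf K2_ok TV_l452 _)
        (CovZ.leaf K2_ok TV_l453 _))
       (CovZ.leaf K2_ok TV_l454 _))
      (CovZ.n1 (-3200, -5440) (by decide +kernel)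
       (CovZ.n2 (-3360, -5600) (by decide +kernel)
        (CovZ.n2 (-3360, -5440) (by decide +kernel)
         (CovZ.leaf K2_ok TV_l455 _)
         (CovZ.leaf K2_ok TV_l456 _))
        (CovZ.n1 (-3200, -5600) (by decide +kernel)
         (CovZ.n2 (-3280, -5680) (by decide +kernel)
          (CovZ.leaf K2_ok TV_l457 _)
          (CovZ.badM (by decide +kernel)))
         (CovZ.leaf K2_ok TV_l459 _)))
       (CovZ.n1 (-3360, -5280) (by decide +kernel)
        (CovZ.n2 (-3200, -5280) (by decide +kernel)
         (CovZ.leaf K2_ok TV_l460 _)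
         (CovZ.leaf K2_ok TV_l461 _))
        (CovZ.leaf K2_ok TV_l462 _)))))))

theorem TV_s3_0 : SqZ TV_M TV_L [0, 7, 4, 3] (-6400) (-6400) 1280 3 0 :=
  SqZ.mk (a := (-2560)) (b := (-1280)) (c := (-6400)) (d := (-5120)) (by norm_num) (by norm_num) (by norm_num) (by norm_num)
    (CovZ.topM TV_LL 0 (by decide +kernel) (CovZ.badM (by decide +kernel)))
    (CovZ.topM TV_LL 0 (by decide +kernel) (CovZ.badM (by decide +kernel)))

theorem TV_s4_0 : SqZ TV_M TV_L [0, 7, 4, 3] (-6400) (-6400) 1280 4 0 :=
  SqZ.mk (a := (-1280)) (b := 0) (c := (-6400)) (d := (-5120)) (by norm_num) (by norm_num) (by norm_num) (by norm_num)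
    (CovZ.topM TV_LL 0 (by decide +kernel) (CovZ.badM (by decide +kernel)))
    (CovZ.topM TV_LL 0 (by decide +kernel) (CovZ.badM (by decide +kernel)))

theorem TV_s5_0 : SqZ TV_M TV_L [0, 7, 4, 3] (-6400) (-6400) 1280 5 0 :=
  SqZ.mk (a := 0) (b := 1280) (c := (-6400)) (d := (-5120)) (by norm_num) (by norm_num) (by norm_num) (by norm_num)
    (CovZ.topM TV_LL 0 (by decide +kernel) (CovZ.badM (by decide +kernel)))
    (CovZ.topM TV_LL 0 (by decide +kernel) (CovZ.badM (by decide +kernel)))

theorem TV_s6_0 : SqZ TV_M TV_L [0, 7, 4, 3] (-6400) (-6400) 1280 6 0 :=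
  SqZ.mk (a := 1280) (b := 2560) (c := (-6400)) (d := (-5120)) (by norm_num) (by norm_num) (by norm_num) (by norm_num)
    (CovZ.topM TV_LL 0 (by decide +kernel) (CovZ.badM (by decide +kernel)))
    (CovZ.topM TV_LL 0 (by decide +kernel) (CovZ.badM (by decide +kernel)))

theorem TV_s7_0 : SqZ TV_M TV_L [0, 7, 4, 3] (-6400) (-6400) 1280 7 0 :=
  SqZ.mk (a := 2560) (b := 3840) (c := (-6400)) (d := (-5120)) (by norm_num) (by norm_num) (by norm_num) (by norm_num)
    (CovZ.topM TV_LL 0 (by decide +kernel) (CovZ.badM (by decide +kernel)))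
    (CovZ.topM TV_LL 0 (by decide +kernel) (CovZ.badM (by decide +kernel)))

theorem TV_s8_0 : SqZ TV_M TV_L [0, 7, 4, 3] (-6400) (-6400) 1280 8 0 :=
  SqZ.mk (a := 3840) (b := 5120) (c := (-6400)) (d := (-5120)) (by norm_num) (by norm_num) (by norm_num) (by norm_num)
    (CovZ.topM TV_LL 0 (by decide +kernel) (CovZ.badM (by decide +kernel)))
    (CovZ.topM TV_LL 0 (by decide +kernel) (CovZ.badM (by decide +kernel)))

theorem TV_s0_1 : SqZ TV_M TV_L [0, 7, 4, 3] (-6400) (-6400) 1280 0 1 :=
  SqZ.mk (a := (-6400)) (b := (-5120)) (c := (-5120)) (d := (-3840)) (by norm_num) (by norm_num) (by norm_num) (by norm_num)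
    (CovZ.topM TV_LL 1 (by decide +kernel) (CovZ.n2 (-5760, -4480) (by decide +kernel)
    (CovZ.n2 (-5120, -4480) (by decide +kernel)
     (CovZ.n2 (-5440, -4800) (by decide +kernel)
      (CovZ.n2 (-5440, -4480) (by decide +kernel)
       (CovZ.n2 (-5280, -4640) (by decide +kernel)
        (CovZ.leaf K2_ok TV_l19 _)
        (CovZ.leaf K2_ok TV_l20 _))
       (CovZ.n1 (-5600, -4640) (by decide +kernel)
        (CovZ.n2 (-5600, -4480) (by decide +kernel)
         (CovZ.leaf K2_ok TV_l21 _)
         (CovZ.badM (by decide +kernel)))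
        (CovZ.n1 (-5440, -4640) (by decide +kernel)
         (CovZ.badM (by decide +kernel))
         (CovZ.leaf K2_ok TV_l25 _))))
      (CovZ.n1 (-5120, -4800) (by decide +kernel)
       (CovZ.leaf K2_ok TV_l26 _)
       (CovZ.leaf K2_ok TV_l27 _)))
     (CovZ.n1 (-5440, -4160) (by decide +kernel)
      (CovZ.n2 (-5120, -4160) (by decide +kernel)
       (CovZ.n2 (-5280, -4320) (by decide +kernel)
        (CovZ.leaf K2_ok TV_l28 _)
        (CovZ.leaf K2_ok TV_l29 _))
       (CovZ.leaf K2_ok TV_l30 _))
      (CovZ.n1 (-5440, -4480) (by decide +kernel)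
       (CovZ.n2 (-5600, -4320) (by decide +kernel)
        (CovZ.n2 (-5440, -4320) (by decide +kernel)
         (CovZ.leaf K2_ok TV_l31 _)
         (CovZ.leaf K2_ok TV_l32 _))
        (CovZ.n1 (-5600, -4480) (by decide +kernel)
         (CovZ.n2 (-5680, -4400) (by decide +kernel)
          (CovZ.leaf K2_ok TV_l33 _)
          (CovZ.badM (by decide +kernel)))
         (CovZ.leaf K2_ok TV_l35 _)))
       (CovZ.leaf K2_ok TV_l36 _))))
    (CovZ.badM (by decide +kernel))))
    (CovZ.topM TV_LL 1 (by decide +kernel) (CovZ.n0 (-5760, -4480) (by decide +kernel)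
    (CovZ.badM (by decide +kernel))
    (CovZ.n1 (-5760, -3840) (by decide +kernel)
     (CovZ.n2 (-5440, -4160) (by decide +kernel)
      (CovZ.n2 (-5760, -4160) (by decide +kernel)
       (CovZ.n2 (-5600, -4000) (by decide +kernel)
        (CovZ.n2 (-5600, -4160) (by decide +kernel)
         (CovZ.leaf K2_ok TV_l127 _)
         (CovZ.leaf K2_ok TV_l128 _))
        (CovZ.n1 (-5760, -4000) (by decide +kernel)
         (CovZ.leaf K2_ok TV_l129 _)
         (CovZ.n1 (-5680, -4080) (by decide +kernel)
          (CovZ.leaf K2_ok TV_l130 _)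
          (CovZ.leaf K2_ok TV_l131 _))))
       (CovZ.n1 (-5600, -4320) (by decide +kernel)
        (CovZ.n2 (-5760, -4320) (by decide +kernel)
         (CovZ.n2 (-5680, -4240) (by decide +kernel)
          (CovZ.leaf K2_ok TV_l132 _)
          (CovZ.leaf K2_ok TV_l133 _))
         (CovZ.n1 (-5680, -4400) (by decide +kernel)
          (CovZ.badM (by decide +kernel))
          (CovZ.leaf K2_ok TV_l136 _)))
        (CovZ.n1 (-5600, -4160) (by decide +kernel)
         (CovZ.leaf K2_ok TV_l137 _)
         (CovZ.n1 (-5680, -4240) (by decide +kernel)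
          (CovZ.leaf K2_ok TV_l138 _)
          (CovZ.leaf K2_ok TV_l139 _)))))
      (CovZ.n1 (-5440, -3840) (by decide +kernel)
       (CovZ.leaf K2_ok TV_l140 _)
       (CovZ.n1 (-5600, -4000) (by decide +kernel)
        (CovZ.leaf K2_ok TV_l141 _)
        (CovZ.n1 (-5440, -4000) (by decide +kernel)
         (CovZ.leaf K2_ok TV_l142 _)
         (CovZ.leaf K2_ok TV_l143 _)))))
     (CovZ.badM (by decide +kernel)))))

theorem TV_s1_1 : SqZ TV_M TV_L [0, 7, 4, 3] (-6400) (-6400) 1280 1 1 :=
  SqZ.mk (a := (-5120)) (b := (-3840)) (c := (-5120)) (d := (-3840)) (by norm_num) (by norm_num) (by norm_num) (by norm_num)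
    (CovZ.topM TV_LL 1 (by decide +kernel) (CovZ.n2 (-4480, -4480) (by decide +kernel)
    (CovZ.n2 (-3840, -4480) (by decide +kernel)
     (CovZ.n2 (-4160, -4800) (by decide +kernel)
      (CovZ.leaf K2_ok TV_l237 _)
      (CovZ.leaf K2_ok TV_l238 _))
     (CovZ.leaf K2_ok TV_l239 _))
    (CovZ.n1 (-4480, -5120) (by decide +kernel)
     (CovZ.n2 (-4800, -4800) (by decide +kernel)
      (CovZ.leaf K2_ok TV_l240 _)
      (CovZ.leaf K2_ok TV_l241 _))
     (CovZ.n1 (-4160, -4800) (by decide +kernel)
      (CovZ.n2 (-4160, -5120) (by decide +kernel)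
       (CovZ.leaf K2_ok TV_l242 _)
       (CovZ.leaf K2_ok TV_l243 _))
      (CovZ.leaf K2_ok TV_l244 _)))))
    (CovZ.topM TV_LL 1 (by decide +kernel) (CovZ.n0 (-4480, -4480) (by decide +kernel)
    (CovZ.n2 (-5120, -4480) (by decide +kernel)
     (CovZ.n2 (-4800, -4160) (by decide +kernel)
      (CovZ.leaf K2_ok TV_l245 _)
      (CovZ.n1 (-5120, -4160) (by decide +kernel)
       (CovZ.leaf K2_ok TV_l246 _)
       (CovZ.leaf K2_ok TV_l247 _)))
     (CovZ.n1 (-4800, -4800) (by decide +kernel)
      (CovZ.leaf K2_ok TV_l248 _)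
      (CovZ.leaf K2_ok TV_l249 _)))
    (CovZ.n1 (-4480, -3840) (by decide +kernel)
     (CovZ.leaf K2_ok TV_l250 _)
     (CovZ.n1 (-4800, -4160) (by decide +kernel)
      (CovZ.leaf K2_ok TV_l251 _)
      (CovZ.leaf K2_ok TV_l252 _)))))

theorem TV_s2_1 : SqZ TV_M TV_L [0, 7, 4, 3] (-6400) (-6400) 1280 2 1 :=
  SqZ.mk (a := (-3840)) (b := (-2560)) (c := (-5120)) (d := (-3840)) (by norm_num) (by norm_num) (by norm_num) (by norm_num)
    (CovZ.topM TV_LL 1 (by decide +kernel) (CovZ.n2 (-3200, -4480) (by decide +kernel)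
    (CovZ.n2 (-2560, -4480) (by decide +kernel)
     (CovZ.n2 (-2880, -4800) (by decide +kernel)
      (CovZ.n2 (-2880, -4480) (by decide +kernel)
       (CovZ.n2 (-2720, -4640) (by decide +kernel)
        (CovZ.leaf K2_ok TV_l463 _)
        (CovZ.n1 (-2720, -4480) (by decide +kernel)
         (CovZ.leaf K2_ok TV_l464 _)
         (CovZ.leaf K2_ok TV_l465 _)))
       (CovZ.n1 (-3040, -4640) (by decide +kernel)
        (CovZ.leaf K2_ok TV_l466 _)
        (CovZ.leaf K2_ok TV_l467 _)))
      (CovZ.n1 (-2560, -4800) (by decide +kernel)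
       (CovZ.n2 (-2720, -4960) (by decide +kernel)
        (CovZ.n2 (-2720, -4800) (by decide +kernel)
         (CovZ.n2 (-2640, -4880) (by decide +kernel)
          (CovZ.leaf K2_ok TV_l468 _)
          (CovZ.n1 (-2640, -4800) (by decide +kernel)
           (CovZ.leaf K2_ok TV_l469 _)
           (CovZ.leaf K2_ok TV_l470 _)))
         (CovZ.n1 (-2800, -4880) (by decide +kernel)
          (CovZ.leaf K2_ok TV_l471 _)
          (CovZ.leaf K2_ok TV_l472 _)))
        (CovZ.n1 (-2560, -4960) (by decide +kernel)
         (CovZ.n2 (-2640, -5040) (by decide +kernel)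
          (CovZ.n2 (-2640, -4960) (by decide +kernel)
           (CovZ.leaf K2_ok TV_l473 _)
           (CovZ.leaf K2_ok TV_l474 _))
          (CovZ.n1 (-2560, -5040) (by decide +kernel)
           (CovZ.n2 (-2600, -5080) (by decide +kernel)
            (CovZ.leaf K2_ok TV_l475 _)
            (CovZ.leaf K2_ok TV_l476 _))
           (CovZ.leaf K2_ok TV_l477 _)))
         (CovZ.n1 (-2640, -4880) (by decide +kernel)
          (CovZ.n2 (-2560, -4880) (by decide +kernel)
           (CovZ.leaf K2_ok TV_l478 _)
           (CovZ.leaf K2_ok TV_l479 _))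
          (CovZ.leaf K2_ok TV_l480 _))))
       (CovZ.n1 (-2720, -4640) (by decide +kernel)
        (CovZ.n2 (-2560, -4640) (by decide +kernel)
         (CovZ.n2 (-2640, -4720) (by decide +kernel)
          (CovZ.leaf K2_ok TV_l481 _)
          (CovZ.leaf K2_ok TV_l482 _))
         (CovZ.leaf K2_ok TV_l483 _))
        (CovZ.n1 (-2720, -4800) (by decide +kernel)
         (CovZ.leaf K2_ok TV_l484 _)
         (CovZ.leaf K2_ok TV_l485 _)))))
     (CovZ.n1 (-2880, -4160) (by decide +kernel)
      (CovZ.n2 (-2560, -4160) (by decide +kernel)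
       (CovZ.n2 (-2720, -4320) (by decide +kernel)
        (CovZ.leaf K2_ok TV_l486 _)
        (CovZ.leaf K2_ok TV_l487 _))
       (CovZ.leaf K2_ok TV_l488 _))
      (CovZ.n1 (-2880, -4480) (by decide +kernel)
       (CovZ.leaf K2_ok TV_l489 _)
       (CovZ.leaf K2_ok TV_l490 _))))
    (CovZ.n1 (-3200, -5120) (by decide +kernel)
     (CovZ.n2 (-3520, -4800) (by decide +kernel)
      (CovZ.n2 (-3200, -4800) (by decide +kernel)
       (CovZ.leaf K2_ok TV_l491 _)
       (CovZ.leaf K2_ok TV_l492 _))
      (CovZ.n1 (-3520, -5120) (by decide +kernel)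
       (CovZ.leaf K2_ok TV_l493 _)
       (CovZ.leaf K2_ok TV_l494 _)))
     (CovZ.n1 (-2880, -4800) (by decide +kernel)
      (CovZ.n2 (-2880, -5120) (by decide +kernel)
       (CovZ.n2 (-3040, -4960) (by decide +kernel)
        (CovZ.n2 (-2880, -4960) (by decide +kernel)
         (CovZ.n2 (-2960, -5040) (by decide +kernel)
          (CovZ.leaf K2_ok TV_l495 _)
          (CovZ.leaf K2_ok TV_l496 _))
         (CovZ.leaf K2_ok TV_l497 _))
        (CovZ.leaf K2_ok TV_l498 _))
       (CovZ.n1 (-2720, -4960) (by decide +kernel)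
        (CovZ.n2 (-2720, -5120) (by decide +kernel)
         (CovZ.n2 (-2800, -5040) (by decide +kernel)
          (CovZ.leaf K2_ok TV_l499 _)
          (CovZ.leaf K2_ok TV_l500 _))
         (CovZ.n1 (-2640, -5040) (by decide +kernel)
          (CovZ.n2 (-2640, -5120) (by decide +kernel)
           (CovZ.leaf K2_ok TV_l501 _)
           (CovZ.leaf K2_ok TV_l502 _))
          (CovZ.leaf K2_ok TV_l503 _)))
        (CovZ.n1 (-2880, -4960) (by decide +kernel)
         (CovZ.leaf K2_ok TV_l504 _)
         (CovZ.n1 (-2800, -5040) (by decide +kernel)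
          (CovZ.leaf K2_ok TV_l505 _)
          (CovZ.n1 (-2800, -4960) (by decide +kernel)
           (CovZ.leaf K2_ok TV_l506 _)
           (CovZ.leaf K2_ok TV_l507 _))))))
      (CovZ.n1 (-3200, -4800) (by decide +kernel)
       (CovZ.leaf K2_ok TV_l508 _)
       (CovZ.n1 (-3040, -4960) (by decide +kernel)
        (CovZ.leaf K2_ok TV_l509 _)
        (CovZ.leaf K2_ok TV_l510 _)))))))
    (CovZ.topM TV_LL 1 (by decide +kernel) (CovZ.n0 (-3200, -4480) (by decide +kernel)
    (CovZ.n2 (-3840, -4480) (by decide +kernel)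
     (CovZ.leaf K2_ok TV_l511 _)
     (CovZ.n1 (-3520, -4800) (by decide +kernel)
      (CovZ.leaf K2_ok TV_l512 _)
      (CovZ.n1 (-3520, -4480) (by decide +kernel)
       (CovZ.leaf K2_ok TV_l513 _)
       (CovZ.leaf K2_ok TV_l514 _))))
    (CovZ.n1 (-3200, -3840) (by decide +kernel)
     (CovZ.n2 (-2880, -4160) (by decide +kernel)
      (CovZ.leaf K2_ok TV_l515 _)
      (CovZ.n1 (-2880, -3840) (by decide +kernel)
       (CovZ.leaf K2_ok TV_l516 _)
       (CovZ.leaf K2_ok TV_l517 _)))
     (CovZ.n1 (-3520, -4160) (by decide +kernel)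
      (CovZ.leaf K2_ok TV_l518 _)
      (CovZ.leaf K2_ok TV_l519 _)))))

theorem TV_s3_1 : SqZ TV_M TV_L [0, 7, 4, 3] (-6400) (-6400) 1280 3 1 :=
  SqZ.mk (a := (-2560)) (b := (-1280)) (c := (-5120)) (d := (-3840)) (by norm_num) (by norm_num) (by norm_num) (by norm_num)
    (CovZ.topM TV_LL 1 (by decide +kernel) (CovZ.n2 (-1920, -4480) (by decide +kernel)
    (CovZ.badM (by decide +kernel))
    (CovZ.n1 (-1920, -5120) (by decide +kernel)
     (CovZ.n2 (-2240, -4800) (by decide +kernel)
      (CovZ.badM (by decide +kernel))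
      (CovZ.n1 (-2240, -5120) (by decide +kernel)
       (CovZ.n2 (-2400, -4960) (by decide +kernel)
        (CovZ.n2 (-2240, -4960) (by decide +kernel)
         (CovZ.badM (by decide +kernel))
         (CovZ.n1 (-2320, -4880) (by decide +kernel)
          (CovZ.n2 (-2240, -4880) (by decide +kernel)
           (CovZ.n2 (-2280, -4920) (by decide +kernel)
            (CovZ.n2 (-2280, -4880) (by decide +kernel)
             (CovZ.badM (by decide +kernel))
             (CovZ.n1 (-2300, -4900) (by decide +kernel)
              (CovZ.n2 (-2300, -4880) (by decide +kernel)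
               (CovZ.leaf K2_ok TV_l1751 _)
               (CovZ.leaf K2_ok TV_l1752 _))
              (CovZ.badM (by decide +kernel))))
            (CovZ.badM (by decide +kernel)))
           (CovZ.n1 (-2280, -4840) (by decide +kernel)
            (CovZ.n2 (-2240, -4840) (by decide +kernel)
             (CovZ.n2 (-2260, -4860) (by decide +kernel)
              (CovZ.n2 (-2260, -4840) (by decide +kernel)
               (CovZ.badM (by decide +kernel))
               (CovZ.leaf K2_ok TV_l1753 _))
              (CovZ.badM (by decide +kernel)))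
             (CovZ.n1 (-2260, -4820) (by decide +kernel)
              (CovZ.badM (by decide +kernel))
              (CovZ.leaf K2_ok TV_l1754 _)))
            (CovZ.n1 (-2280, -4880) (by decide +kernel)
             (CovZ.n2 (-2300, -4860) (by decide +kernel)
              (CovZ.leaf K2_ok TV_l1755 _)
              (CovZ.leaf K2_ok TV_l1756 _))
             (CovZ.n1 (-2260, -4860) (by decide +kernel)
              (CovZ.badM (by decide +kernel))
              (CovZ.n1 (-2280, -4860) (by decide +kernel)
               (CovZ.leaf K2_ok TV_l1757 _)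
               (CovZ.leaf K2_ok TV_l1758 _))))))
          (CovZ.n1 (-2320, -4960) (by decide +kernel)
           (CovZ.n2 (-2360, -4920) (by decide +kernel)
            (CovZ.n2 (-2320, -4920) (by decide +kernel)
             (CovZ.n2 (-2340, -4940) (by decide +kernel)
              (CovZ.n2 (-2340, -4920) (by decide +kernel)
               (CovZ.badM (by decide +kernel))
               (CovZ.leaf K2_ok TV_l1759 _))
              (CovZ.badM (by decide +kernel)))
             (CovZ.n1 (-2340, -4900) (by decide +kernel)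
              (CovZ.leaf K2_ok TV_l1760 _)
              (CovZ.leaf K2_ok TV_l1761 _)))
            (CovZ.n1 (-2360, -4960) (by decide +kernel)
             (CovZ.n2 (-2380, -4940) (by decide +kernel)
              (CovZ.leaf K2_ok TV_l1762 _)
              (CovZ.leaf K2_ok TV_l742 _))
             (CovZ.n1 (-2340, -4940) (by decide +kernel)
              (CovZ.badM (by decide +kernel))
              (CovZ.leaf K2_ok TV_l1763 _))))
           (CovZ.n1 (-2280, -4920) (by decide +kernel)
            (CovZ.badM (by decide +kernel))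
            (CovZ.n1 (-2320, -4920) (by decide +kernel)
             (CovZ.n2 (-2300, -4900) (by decide +kernel)
              (CovZ.badM (by decide +kernel))
              (CovZ.n1 (-2320, -4900) (by decide +kernel)
               (CovZ.leaf K2_ok TV_l1764 _)
               (CovZ.badM (by decide +kernel))))
             (CovZ.badM (by decide +kernel)))))))
        (CovZ.badM (by decide +kernel)))
       (CovZ.badM (by decide +kernel))))
     (CovZ.badM (by decide +kernel)))))
    (CovZ.topM TV_LL 1 (by decide +kernel) (CovZ.n0 (-1920, -4480) (by decide +kernel)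
    (CovZ.n2 (-2560, -4480) (by decide +kernel)
     (CovZ.n2 (-2240, -4160) (by decide +kernel)
      (CovZ.n2 (-2240, -4480) (by decide +kernel)
       (CovZ.n2 (-2400, -4320) (by decide +kernel)
        (CovZ.n2 (-2240, -4320) (by decide +kernel)
         (CovZ.n2 (-2320, -4400) (by decide +kernel)
          (CovZ.leaf K2_ok TV_l752 _)
          (CovZ.leaf K2_ok TV_l753 _))
         (CovZ.leaf K2_ok TV_l754 _))
        (CovZ.n1 (-2400, -4480) (by decide +kernel)
         (CovZ.leaf K2_ok TV_l755 _)
         (CovZ.leaf K2_ok TV_l756 _)))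
       (CovZ.badM (by decide +kernel)))
      (CovZ.n1 (-2560, -4160) (by decide +kernel)
       (CovZ.leaf K2_ok TV_l760 _)
       (CovZ.n1 (-2400, -4320) (by decide +kernel)
        (CovZ.leaf K2_ok TV_l761 _)
        (CovZ.n1 (-2400, -4160) (by decide +kernel)
         (CovZ.leaf K2_ok TV_l762 _)
         (CovZ.leaf K2_ok TV_l763 _)))))
     (CovZ.n1 (-2240, -4800) (by decide +kernel)
      (CovZ.n2 (-2560, -4800) (by decide +kernel)
       (CovZ.n2 (-2400, -4640) (by decide +kernel)
        (CovZ.n2 (-2400, -4800) (by decide +kernel)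
         (CovZ.n2 (-2480, -4720) (by decide +kernel)
          (CovZ.n2 (-2400, -4720) (by decide +kernel)
           (CovZ.leaf K2_ok TV_l764 _)
           (CovZ.leaf K2_ok TV_l765 _))
          (CovZ.leaf K2_ok TV_l766 _))
         (CovZ.n1 (-2320, -4720) (by decide +kernel)
          (CovZ.n2 (-2320, -4800) (by decide +kernel)
           (CovZ.n2 (-2360, -4760) (by decide +kernel)
            (CovZ.leaf K2_ok TV_l767 _)
            (CovZ.leaf K2_ok TV_l768 _))
           (CovZ.n1 (-2280, -4760) (by decide +kernel)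
            (CovZ.n2 (-2280, -4800) (by decide +kernel)
             (CovZ.leaf K2_ok TV_l1765 _)
             (CovZ.leaf K2_ok TV_l1766 _))
            (CovZ.leaf K2_ok TV_l1767 _)))
          (CovZ.n1 (-2400, -4720) (by decide +kernel)
           (CovZ.leaf K2_ok TV_l769 _)
           (CovZ.n1 (-2360, -4760) (by decide +kernel)
            (CovZ.leaf K2_ok TV_l770 _)
            (CovZ.leaf K2_ok TV_l771 _)))))
        (CovZ.n1 (-2560, -4640) (by decide +kernel)
         (CovZ.leaf K2_ok TV_l772 _)
         (CovZ.n1 (-2480, -4720) (by decide +kernel)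
          (CovZ.leaf K2_ok TV_l773 _)
          (CovZ.n1 (-2480, -4640) (by decide +kernel)
           (CovZ.leaf K2_ok TV_l774 _)
           (CovZ.leaf K2_ok TV_l775 _)))))
       (CovZ.n1 (-2400, -4960) (by decide +kernel)
        (CovZ.n2 (-2560, -4960) (by decide +kernel)
         (CovZ.n2 (-2480, -4880) (by decide +kernel)
          (CovZ.n2 (-2480, -4960) (by decide +kernel)
           (CovZ.leaf K2_ok TV_l776 _)
           (CovZ.n1 (-2440, -4920) (by decide +kernel)
            (CovZ.leaf K2_ok TV_l777 _)
            (CovZ.leaf K2_ok TV_l778 _)))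
          (CovZ.n1 (-2560, -4880) (by decide +kernel)
           (CovZ.leaf K2_ok TV_l779 _)
           (CovZ.leaf K2_ok TV_l780 _)))
         (CovZ.n1 (-2480, -5040) (by decide +kernel)
          (CovZ.n2 (-2560, -5040) (by decide +kernel)
           (CovZ.leaf K2_ok TV_l781 _)
           (CovZ.n1 (-2520, -5080) (by decide +kernel)
            (CovZ.leaf K2_ok TV_l782 _)
            (CovZ.n1 (-2520, -5040) (by decide +kernel)
             (CovZ.leaf K2_ok TV_l783 _)
             (CovZ.leaf K2_ok TV_l784 _))))
          (CovZ.n1 (-2480, -4960) (by decide +kernel)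
           (CovZ.n2 (-2440, -5000) (by decide +kernel)
            (CovZ.n2 (-2480, -5000) (by decide +kernel)
             (CovZ.leaf K2_ok TV_l785 _)
             (CovZ.leaf K2_ok TV_l786 _))
            (CovZ.n1 (-2440, -4960) (by decide +kernel)
             (CovZ.n2 (-2420, -4980) (by decide +kernel)
              (CovZ.leaf K2_ok TV_l787 _)
              (CovZ.leaf K2_ok TV_l788 _))
             (CovZ.leaf K2_ok TV_l789 _)))
           (CovZ.n1 (-2520, -5000) (by decide +kernel)
            (CovZ.leaf K2_ok TV_l790 _)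
            (CovZ.n1 (-2480, -5000) (by decide +kernel)
             (CovZ.leaf K2_ok TV_l791 _)
             (CovZ.leaf K2_ok TV_l792 _))))))
        (CovZ.n1 (-2400, -4800) (by decide +kernel)
         (CovZ.n2 (-2320, -4880) (by decide +kernel)
          (CovZ.n2 (-2400, -4880) (by decide +kernel)
           (CovZ.n2 (-2360, -4840) (by decide +kernel)
            (CovZ.n2 (-2360, -4880) (by decide +kernel)
             (CovZ.leaf K2_ok TV_l793 _)
             (CovZ.leaf K2_ok TV_l1768 _))
            (CovZ.leaf K2_ok TV_l794 _))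
           (CovZ.n1 (-2360, -4920) (by decide +kernel)
            (CovZ.n2 (-2400, -4920) (by decide +kernel)
             (CovZ.leaf K2_ok TV_l795 _)
             (CovZ.n1 (-2380, -4940) (by decide +kernel)
              (CovZ.leaf K2_ok TV_l796 _)
              (CovZ.leaf K2_ok TV_l797 _)))
            (CovZ.n1 (-2360, -4880) (by decide +kernel)
             (CovZ.n2 (-2340, -4900) (by decide +kernel)
              (CovZ.leaf K2_ok TV_l1769 _)
              (CovZ.leaf K2_ok TV_l1770 _))
             (CovZ.n1 (-2380, -4900) (by decide +kernel)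
              (CovZ.leaf K2_ok TV_l798 _)
              (CovZ.leaf K2_ok TV_l1771 _)))))
          (CovZ.n1 (-2320, -4800) (by decide +kernel)
           (CovZ.n2 (-2280, -4840) (by decide +kernel)
            (CovZ.n2 (-2320, -4840) (by decide +kernel)
             (CovZ.leaf K2_ok TV_l1772 _)
             (CovZ.n1 (-2300, -4860) (by decide +kernel)
              (CovZ.leaf K2_ok TV_l1773 _)
              (CovZ.leaf K2_ok TV_l1774 _)))
            (CovZ.n1 (-2280, -4800) (by decide +kernel)
             (CovZ.n2 (-2260, -4820) (by decide +kernel)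
              (CovZ.leaf K2_ok TV_l1775 _)
              (CovZ.n1 (-2260, -4800) (by decide +kernel)
               (CovZ.badM (by decide +kernel))
               (CovZ.leaf K2_ok TV_l1776 _)))
             (CovZ.n1 (-2300, -4820) (by decide +kernel)
              (CovZ.leaf K2_ok TV_l1777 _)
              (CovZ.leaf K2_ok TV_l1778 _))))
           (CovZ.n1 (-2360, -4840) (by decide +kernel)
            (CovZ.n2 (-2360, -4800) (by decide +kernel)
             (CovZ.leaf K2_ok TV_l1779 _)
             (CovZ.leaf K2_ok TV_l799 _))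
            (CovZ.n1 (-2320, -4840) (by decide +kernel)
             (CovZ.n2 (-2340, -4860) (by decide +kernel)
              (CovZ.leaf K2_ok TV_l1780 _)
              (CovZ.leaf K2_ok TV_l1781 _))
             (CovZ.leaf K2_ok TV_l1782 _)))))
         (CovZ.n1 (-2480, -4880) (by decide +kernel)
          (CovZ.n2 (-2480, -4800) (by decide +kernel)
           (CovZ.leaf K2_ok TV_l800 _)
           (CovZ.leaf K2_ok TV_l801 _))
          (CovZ.n1 (-2400, -4880) (by decide +kernel)
           (CovZ.n2 (-2440, -4920) (by decide +kernel)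
            (CovZ.n2 (-2440, -4880) (by decide +kernel)
             (CovZ.leaf K2_ok TV_l802 _)
             (CovZ.leaf K2_ok TV_l803 _))
            (CovZ.n1 (-2400, -4920) (by decide +kernel)
             (CovZ.n2 (-2420, -4940) (by decide +kernel)
              (CovZ.leaf K2_ok TV_l804 _)
              (CovZ.leaf K2_ok TV_l805 _))
             (CovZ.leaf K2_ok TV_l806 _)))
           (CovZ.leaf K2_ok TV_l807 _))))))
      (CovZ.n1 (-2240, -4480) (by decide +kernel)
       (CovZ.badM (by decide +kernel))
       (CovZ.n1 (-2400, -4640) (by decide +kernel)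
        (CovZ.n2 (-2400, -4480) (by decide +kernel)
         (CovZ.n2 (-2320, -4560) (by decide +kernel)
          (CovZ.leaf K2_ok TV_l808 _)
          (CovZ.n1 (-2320, -4480) (by decide +kernel)
           (CovZ.leaf K2_ok TV_l809 _)
           (CovZ.leaf K2_ok TV_l810 _)))
         (CovZ.n1 (-2480, -4560) (by decide +kernel)
          (CovZ.leaf K2_ok TV_l811 _)
          (CovZ.leaf K2_ok TV_l812 _)))
        (CovZ.n1 (-2240, -4640) (by decide +kernel)
         (CovZ.n2 (-2320, -4720) (by decide +kernel)
          (CovZ.n2 (-2320, -4640) (by decide +kernel)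
           (CovZ.n2 (-2280, -4680) (by decide +kernel)
            (CovZ.leaf K2_ok TV_l1783 _)
            (CovZ.n1 (-2280, -4640) (by decide +kernel)
             (CovZ.leaf K2_ok TV_l1784 _)
             (CovZ.leaf K2_ok TV_l1785 _)))
           (CovZ.n1 (-2360, -4680) (by decide +kernel)
            (CovZ.leaf K2_ok TV_l813 _)
            (CovZ.leaf K2_ok TV_l814 _)))
          (CovZ.n1 (-2240, -4720) (by decide +kernel)
           (CovZ.n2 (-2280, -4760) (by decide +kernel)
            (CovZ.n2 (-2280, -4720) (by decide +kernel)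
             (CovZ.leaf K2_ok TV_l1786 _)
             (CovZ.leaf K2_ok TV_l1787 _))
            (CovZ.n1 (-2240, -4760) (by decide +kernel)
             (CovZ.n2 (-2260, -4780) (by decide +kernel)
              (CovZ.leaf K2_ok TV_l1788 _)
              (CovZ.badM (by decide +kernel)))
             (CovZ.leaf K2_ok TV_l1789 _)))
           (CovZ.n1 (-2280, -4680) (by decide +kernel)
            (CovZ.leaf K2_ok TV_l1790 _)
            (CovZ.leaf K2_ok TV_l1791 _))))
         (CovZ.n1 (-2320, -4560) (by decide +kernel)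
          (CovZ.n2 (-2240, -4560) (by decide +kernel)
           (CovZ.n2 (-2280, -4600) (by decide +kernel)
            (CovZ.leaf K2_ok TV_l815 _)
            (CovZ.leaf K2_ok TV_l1792 _))
           (CovZ.leaf K2_ok TV_l816 _))
          (CovZ.leaf K2_ok TV_l817 _)))))))
    (CovZ.n1 (-1920, -3840) (by decide +kernel)
     (CovZ.badM (by decide +kernel))
     (CovZ.n1 (-2240, -4160) (by decide +kernel)
      (CovZ.n2 (-2240, -3840) (by decide +kernel)
       (CovZ.badM (by decide +kernel))
       (CovZ.n1 (-2400, -4000) (by decide +kernel)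
        (CovZ.leaf K2_ok TV_l826 _)
        (CovZ.n1 (-2240, -4000) (by decide +kernel)
         (CovZ.leaf K2_ok TV_l827 _)
         (CovZ.leaf K2_ok TV_l828 _))))
      (CovZ.badM (by decide +kernel))))))

theorem TV_s4_1 : SqZ TV_M TV_L [0, 7, 4, 3] (-6400) (-6400) 1280 4 1 :=
  SqZ.mk (a := (-1280)) (b := 0) (c := (-5120)) (d := (-3840)) (by norm_num) (by norm_num) (by norm_num) (by norm_num)
    (CovZ.topM TV_LL 0 (by decide +kernel) (CovZ.badM (by decide +kernel)))
    (CovZ.topM TV_LL 0 (by decide +kernel) (CovZ.badM (by decide +kernel)))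

theorem TV_s5_1 : SqZ TV_M TV_L [0, 7, 4, 3] (-6400) (-6400) 1280 5 1 :=
  SqZ.mk (a := 0) (b := 1280) (c := (-5120)) (d := (-3840)) (by norm_num) (by norm_num) (by norm_num) (by norm_num)
    (CovZ.topM TV_LL 0 (by decide +kernel) (CovZ.badM (by decide +kernel)))
    (CovZ.topM TV_LL 0 (by decide +kernel) (CovZ.badM (by decide +kernel)))

theorem TV_s6_1 : SqZ TV_M TV_L [0, 7, 4, 3] (-6400) (-6400) 1280 6 1 :=
  SqZ.mk (a := 1280) (b := 2560) (c := (-5120)) (d := (-3840)) (by norm_num) (by norm_num) (by norm_num) (by norm_num)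
    (CovZ.topM TV_LL 0 (by decide +kernel) (CovZ.badM (by decide +kernel)))
    (CovZ.topM TV_LL 0 (by decide +kernel) (CovZ.badM (by decide +kernel)))

theorem TV_s7_1 : SqZ TV_M TV_L [0, 7, 4, 3] (-6400) (-6400) 1280 7 1 :=
  SqZ.mk (a := 2560) (b := 3840) (c := (-5120)) (d := (-3840)) (by norm_num) (by norm_num) (by norm_num) (by norm_num)
    (CovZ.topM TV_LL 0 (by decide +kernel) (CovZ.badM (by decide +kernel)))
    (CovZ.topM TV_LL 0 (by decide +kernel) (CovZ.badM (by decide +kernel)))

theorem TV_s8_1 : SqZ TV_M TV_L [0, 7, 4, 3] (-6400) (-6400) 1280 8 1 :=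
  SqZ.mk (a := 3840) (b := 5120) (c := (-5120)) (d := (-3840)) (by norm_num) (by norm_num) (by norm_num) (by norm_num)
    (CovZ.topM TV_LL 0 (by decide +kernel) (CovZ.badM (by decide +kernel)))
    (CovZ.topM TV_LL 0 (by decide +kernel) (CovZ.badM (by decide +kernel)))

theorem TV_s0_2 : SqZ TV_M TV_L [0, 7, 4, 3] (-6400) (-6400) 1280 0 2 :=
  SqZ.mk (a := (-6400)) (b := (-5120)) (c := (-3840)) (d := (-2560)) (by norm_num) (by norm_num) (by norm_num) (by norm_num)
    (CovZ.topM TV_LL 1 (by decide +kernel) (CovZ.n2 (-5760, -3200) (by decide +kernel)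
    (CovZ.n2 (-5120, -3200) (by decide +kernel)
     (CovZ.n2 (-5440, -3520) (by decide +kernel)
      (CovZ.n2 (-5440, -3200) (by decide +kernel)
       (CovZ.n2 (-5280, -3360) (by decide +kernel)
        (CovZ.leaf K2_ok TV_l161 _)
        (CovZ.n1 (-5280, -3200) (by decide +kernel)
         (CovZ.leaf K2_ok TV_l162 _)
         (CovZ.leaf K2_ok TV_l163 _)))
       (CovZ.n1 (-5600, -3360) (by decide +kernel)
        (CovZ.n2 (-5600, -3200) (by decide +kernel)
         (CovZ.leaf K2_ok TV_l164 _)
         (CovZ.n1 (-5680, -3280) (by decide +kernel)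
          (CovZ.leaf K2_ok TV_l165 _)
          (CovZ.leaf K2_ok TV_l166 _)))
        (CovZ.n1 (-5440, -3360) (by decide +kernel)
         (CovZ.leaf K2_ok TV_l167 _)
         (CovZ.leaf K2_ok TV_l168 _))))
      (CovZ.n1 (-5120, -3520) (by decide +kernel)
       (CovZ.leaf K2_ok TV_l169 _)
       (CovZ.n1 (-5280, -3360) (by decide +kernel)
        (CovZ.leaf K2_ok TV_l170 _)
        (CovZ.leaf K2_ok TV_l171 _))))
     (CovZ.n1 (-5440, -2880) (by decide +kernel)
      (CovZ.n2 (-5120, -2880) (by decide +kernel)
       (CovZ.n2 (-5280, -3040) (by decide +kernel)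
        (CovZ.n2 (-5280, -2880) (by decide +kernel)
         (CovZ.n2 (-5200, -2960) (by decide +kernel)
          (CovZ.leaf K2_ok TV_l1636 _)
          (CovZ.leaf K2_ok TV_l1637 _))
         (CovZ.n1 (-5360, -2960) (by decide +kernel)
          (CovZ.n2 (-5360, -2880) (by decide +kernel)
           (CovZ.leaf K2_ok TV_l1638 _)
           (CovZ.n1 (-5400, -2920) (by decide +kernel)
            (CovZ.leaf K2_ok TV_l1639 _)
            (CovZ.leaf K2_ok TV_l1640 _)))
          (CovZ.leaf K2_ok TV_l1641 _)))
        (CovZ.n1 (-5120, -3040) (by decide +kernel)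
         (CovZ.n2 (-5200, -3120) (by decide +kernel)
          (CovZ.leaf K2_ok TV_l172 _)
          (CovZ.leaf K2_ok TV_l173 _))
         (CovZ.n1 (-5200, -2960) (by decide +kernel)
          (CovZ.leaf K2_ok TV_l174 _)
          (CovZ.leaf K2_ok TV_l175 _))))
       (CovZ.n1 (-5280, -2720) (by decide +kernel)
        (CovZ.n2 (-5120, -2720) (by decide +kernel)
         (CovZ.n2 (-5200, -2800) (by decide +kernel)
          (CovZ.badM (by decide +kernel))
          (CovZ.n1 (-5120, -2800) (by decide +kernel)
           (CovZ.leaf K2_ok TV_l1642 _)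
           (CovZ.badM (by decide +kernel))))
         (CovZ.badM (by decide +kernel)))
        (CovZ.n1 (-5280, -2880) (by decide +kernel)
         (CovZ.n2 (-5360, -2800) (by decide +kernel)
          (CovZ.n2 (-5280, -2800) (by decide +kernel)
           (CovZ.n2 (-5320, -2840) (by decide +kernel)
            (CovZ.badM (by decide +kernel))
            (CovZ.leaf K2_ok TV_l1643 _))
           (CovZ.badM (by decide +kernel)))
          (CovZ.n1 (-5360, -2880) (by decide +kernel)
           (CovZ.n2 (-5400, -2840) (by decide +kernel)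
            (CovZ.leaf K2_ok TV_l1644 _)
            (CovZ.leaf K2_ok TV_l1645 _))
           (CovZ.leaf K2_ok TV_l1646 _)))
         (CovZ.n1 (-5200, -2800) (by decide +kernel)
          (CovZ.leaf K2_ok TV_l1647 _)
          (CovZ.n1 (-5280, -2800) (by decide +kernel)
           (CovZ.badM (by decide +kernel))
           (CovZ.leaf K2_ok TV_l1648 _))))))
      (CovZ.n1 (-5440, -3200) (by decide +kernel)
       (CovZ.n2 (-5600, -3040) (by decide +kernel)
        (CovZ.n2 (-5440, -3040) (by decide +kernel)
         (CovZ.n2 (-5520, -3120) (by decide +kernel)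
          (CovZ.n2 (-5520, -3040) (by decide +kernel)
           (CovZ.leaf K2_ok TV_l176 _)
           (CovZ.leaf K2_ok TV_l177 _))
          (CovZ.leaf K2_ok TV_l178 _))
         (CovZ.n1 (-5520, -2960) (by decide +kernel)
          (CovZ.n2 (-5440, -2960) (by decide +kernel)
           (CovZ.n2 (-5480, -3000) (by decide +kernel)
            (CovZ.leaf K2_ok TV_l1649 _)
            (CovZ.leaf K2_ok TV_l179 _))
           (CovZ.n1 (-5480, -2920) (by decide +kernel)
            (CovZ.leaf K2_ok TV_l1650 _)
            (CovZ.leaf K2_ok TV_l1651 _)))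
          (CovZ.n1 (-5520, -3040) (by decide +kernel)
           (CovZ.leaf K2_ok TV_l180 _)
           (CovZ.leaf K2_ok TV_l181 _))))
        (CovZ.n1 (-5600, -3200) (by decide +kernel)
         (CovZ.n2 (-5680, -3120) (by decide +kernel)
          (CovZ.n2 (-5600, -3120) (by decide +kernel)
           (CovZ.leaf K2_ok TV_l182 _)
           (CovZ.leaf K2_ok TV_l183 _))
          (CovZ.leaf K2_ok TV_l184 _))
         (CovZ.leaf K2_ok TV_l185 _)))
       (CovZ.n1 (-5280, -3040) (by decide +kernel)
        (CovZ.n2 (-5280, -3200) (by decide +kernel)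
         (CovZ.leaf K2_ok TV_l186 _)
         (CovZ.leaf K2_ok TV_l187 _))
        (CovZ.n1 (-5440, -3040) (by decide +kernel)
         (CovZ.n2 (-5360, -2960) (by decide +kernel)
          (CovZ.leaf K2_ok TV_l188 _)
          (CovZ.leaf K2_ok TV_l189 _))
         (CovZ.leaf K2_ok TV_l190 _))))))
    (CovZ.n1 (-5760, -3840) (by decide +kernel)
     (CovZ.badM (by decide +kernel))
     (CovZ.n1 (-5440, -3520) (by decide +kernel)
      (CovZ.n2 (-5440, -3840) (by decide +kernel)
       (CovZ.n2 (-5600, -3680) (by decide +kernel)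
        (CovZ.leaf K2_ok TV_l195 _)
        (CovZ.leaf K2_ok TV_l196 _))
       (CovZ.leaf K2_ok TV_l197 _))
      (CovZ.n1 (-5760, -3520) (by decide +kernel)
       (CovZ.n2 (-5600, -3360) (by decide +kernel)
        (CovZ.leaf K2_ok TV_l198 _)
        (CovZ.n1 (-5760, -3360) (by decide +kernel)
         (CovZ.leaf K2_ok TV_l199 _)
         (CovZ.leaf K2_ok TV_l200 _)))
       (CovZ.n1 (-5600, -3680) (by decide +kernel)
        (CovZ.n2 (-5760, -3680) (by decide +kernel)
         (CovZ.leaf K2_ok TV_l201 _)
         (CovZ.leaf K2_ok TV_l202 _))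
        (CovZ.leaf K2_ok TV_l203 _)))))))
    (CovZ.topM TV_LL 1 (by decide +kernel) (CovZ.n0 (-5760, -3200) (by decide +kernel)
    (CovZ.badM (by decide +kernel))
    (CovZ.n1 (-5760, -2560) (by decide +kernel)
     (CovZ.n2 (-5440, -2880) (by decide +kernel)
      (CovZ.n2 (-5760, -2880) (by decide +kernel)
       (CovZ.badM (by decide +kernel))
       (CovZ.n1 (-5600, -3040) (by decide +kernel)
        (CovZ.n2 (-5760, -3040) (by decide +kernel)
         (CovZ.n2 (-5680, -2960) (by decide +kernel)
          (CovZ.n2 (-5680, -3040) (by decide +kernel)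
           (CovZ.n2 (-5720, -3000) (by decide +kernel)
            (CovZ.n2 (-5680, -3000) (by decide +kernel)
             (CovZ.n2 (-5700, -3020) (by decide +kernel)
              (CovZ.leaf K2_ok TV_l204 _)
              (CovZ.leaf K2_ok TV_l205 _))
             (CovZ.n1 (-5700, -2980) (by decide +kernel)
              (CovZ.leaf K2_ok TV_l206 _)
              (CovZ.leaf K2_ok TV_l207 _)))
            (CovZ.n1 (-5720, -3040) (by decide +kernel)
             (CovZ.n2 (-5740, -3020) (by decide +kernel)
              (CovZ.leaf K2_ok TV_l1652 _)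
              (CovZ.leaf K2_ok TV_l1653 _))
             (CovZ.leaf K2_ok TV_l208 _)))
           (CovZ.n1 (-5640, -3000) (by decide +kernel)
            (CovZ.leaf K2_ok TV_l209 _)
            (CovZ.n1 (-5680, -3000) (by decide +kernel)
             (CovZ.leaf K2_ok TV_l210 _)
             (CovZ.leaf K2_ok TV_l211 _))))
          (CovZ.n1 (-5760, -2960) (by decide +kernel)
           (CovZ.badM (by decide +kernel))
           (CovZ.n1 (-5720, -3000) (by decide +kernel)
            (CovZ.n2 (-5760, -3000) (by decide +kernel)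
             (CovZ.n2 (-5740, -2980) (by decide +kernel)
              (CovZ.n2 (-5740, -3000) (by decide +kernel)
               (CovZ.leaf K2_ok TV_l1654 _)
               (CovZ.leaf K2_ok TV_l1655 _))
              (CovZ.n1 (-5760, -2980) (by decide +kernel)
               (CovZ.badM (by decide +kernel))
               (CovZ.n1 (-5750, -2990) (by decide +kernel)
                (CovZ.badM (by decide +kernel))
                (CovZ.badM (by decide +kernel)))))
             (CovZ.n1 (-5740, -3020) (by decide +kernel)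
              (CovZ.leaf K2_ok TV_l1656 _)
              (CovZ.n1 (-5740, -3000) (by decide +kernel)
               (CovZ.leaf K2_ok TV_l1657 _)
               (CovZ.leaf K2_ok TV_l1658 _))))
            (CovZ.n1 (-5720, -2960) (by decide +kernel)
             (CovZ.n2 (-5700, -2980) (by decide +kernel)
              (CovZ.leaf K2_ok TV_l1659 _)
              (CovZ.n1 (-5700, -2960) (by decide +kernel)
               (CovZ.leaf K2_ok TV_l213 _)
               (CovZ.leaf K2_ok TV_l1660 _)))
             (CovZ.n1 (-5740, -2980) (by decide +kernel)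
              (CovZ.badM (by decide +kernel))
              (CovZ.n1 (-5720, -2980) (by decide +kernel)
               (CovZ.leaf K2_ok TV_l1661 _)
               (CovZ.badM (by decide +kernel))))))))
         (CovZ.n1 (-5680, -3120) (by decide +kernel)
          (CovZ.n2 (-5760, -3120) (by decide +kernel)
           (CovZ.n2 (-5720, -3080) (by decide +kernel)
            (CovZ.leaf K2_ok TV_l214 _)
            (CovZ.leaf K2_ok TV_l1662 _))
           (CovZ.leaf K2_ok TV_l215 _))
          (CovZ.n1 (-5680, -3040) (by decide +kernel)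
           (CovZ.leaf K2_ok TV_l216 _)
           (CovZ.n1 (-5720, -3080) (by decide +kernel)
            (CovZ.n2 (-5720, -3040) (by decide +kernel)
             (CovZ.leaf K2_ok TV_l217 _)
             (CovZ.n1 (-5740, -3060) (by decide +kernel)
              (CovZ.leaf K2_ok TV_l1663 _)
              (CovZ.leaf K2_ok TV_l1664 _)))
            (CovZ.leaf K2_ok TV_l218 _)))))
        (CovZ.n1 (-5600, -2880) (by decide +kernel)
         (CovZ.n2 (-5520, -2960) (by decide +kernel)
          (CovZ.n2 (-5600, -2960) (by decide +kernel)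
           (CovZ.n2 (-5560, -2920) (by decide +kernel)
            (CovZ.leaf K2_ok TV_l1665 _)
            (CovZ.n1 (-5600, -2920) (by decide +kernel)
             (CovZ.badM (by decide +kernel))
             (CovZ.leaf K2_ok TV_l1666 _)))
           (CovZ.leaf K2_ok TV_l219 _))
          (CovZ.n1 (-5520, -2880) (by decide +kernel)
           (CovZ.n2 (-5480, -2920) (by decide +kernel)
            (CovZ.leaf K2_ok TV_l1667 _)
            (CovZ.leaf K2_ok TV_l1668 _))
           (CovZ.n1 (-5560, -2920) (by decide +kernel)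
            (CovZ.badM (by decide +kernel))
            (CovZ.leaf K2_ok TV_l1669 _))))
         (CovZ.n1 (-5680, -2960) (by decide +kernel)
          (CovZ.badM (by decide +kernel))
          (CovZ.n1 (-5600, -2960) (by decide +kernel)
           (CovZ.n2 (-5640, -3000) (by decide +kernel)
            (CovZ.n2 (-5640, -2960) (by decide +kernel)
             (CovZ.leaf K2_ok TV_l222 _)
             (CovZ.n1 (-5660, -2980) (by decide +kernel)
              (CovZ.leaf K2_ok TV_l223 _)
              (CovZ.leaf K2_ok TV_l224 _)))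
            (CovZ.leaf K2_ok TV_l225 _))
           (CovZ.n1 (-5640, -2920) (by decide +kernel)
            (CovZ.n2 (-5600, -2920) (by decide +kernel)
             (CovZ.n2 (-5620, -2940) (by decide +kernel)
              (CovZ.badM (by decide +kernel))
              (CovZ.leaf K2_ok TV_l1670 _))
             (CovZ.badM (by decide +kernel)))
            (CovZ.n1 (-5640, -2960) (by decide +kernel)
             (CovZ.badM (by decide +kernel))
             (CovZ.leaf K2_ok TV_l1671 _))))))))
      (CovZ.badM (by decide +kernel)))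
     (CovZ.n1 (-6080, -2880) (by decide +kernel)
      (CovZ.badM (by decide +kernel))
      (CovZ.n1 (-5760, -2880) (by decide +kernel)
       (CovZ.badM (by decide +kernel))
       (CovZ.badM (by decide +kernel)))))))

theorem TV_s1_2 : SqZ TV_M TV_L [0, 7, 4, 3] (-6400) (-6400) 1280 1 2 :=
  SqZ.mk (a := (-5120)) (b := (-3840)) (c := (-3840)) (d := (-2560)) (by norm_num) (by norm_num) (by norm_num) (by norm_num)
    (CovZ.topM TV_LL 1 (by decide +kernel) (CovZ.n2 (-4480, -3200) (by decide +kernel)
    (CovZ.n2 (-3840, -3200) (by decide +kernel)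
     (CovZ.n2 (-4160, -3520) (by decide +kernel)
      (CovZ.leaf K2_ok TV_l253 _)
      (CovZ.leaf K2_ok TV_l254 _))
     (CovZ.n1 (-4160, -2880) (by decide +kernel)
      (CovZ.n2 (-3840, -2880) (by decide +kernel)
       (CovZ.leaf K2_ok TV_l255 _)
       (CovZ.leaf K2_ok TV_l256 _))
      (CovZ.leaf K2_ok TV_l257 _)))
    (CovZ.n1 (-4480, -3840) (by decide +kernel)
     (CovZ.n2 (-4800, -3520) (by decide +kernel)
      (CovZ.n2 (-4480, -3520) (by decide +kernel)
       (CovZ.leaf K2_ok TV_l258 _)
       (CovZ.leaf K2_ok TV_l259 _))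
      (CovZ.leaf K2_ok TV_l260 _))
     (CovZ.leaf K2_ok TV_l261 _))))
    (CovZ.topM TV_LL 1 (by decide +kernel) (CovZ.n0 (-4480, -3200) (by decide +kernel)
    (CovZ.n2 (-5120, -3200) (by decide +kernel)
     (CovZ.n2 (-4800, -2880) (by decide +kernel)
      (CovZ.n2 (-4800, -3200) (by decide +kernel)
       (CovZ.n2 (-4960, -3040) (by decide +kernel)
        (CovZ.leaf K2_ok TV_l262 _)
        (CovZ.leaf K2_ok TV_l263 _))
       (CovZ.leaf K2_ok TV_l264 _))
      (CovZ.n1 (-5120, -2880) (by decide +kernel)
       (CovZ.n2 (-4960, -2720) (by decide +kernel)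
        (CovZ.n2 (-4960, -2880) (by decide +kernel)
         (CovZ.n2 (-5040, -2800) (by decide +kernel)
          (CovZ.n2 (-4960, -2800) (by decide +kernel)
           (CovZ.leaf K2_ok TV_l265 _)
           (CovZ.leaf K2_ok TV_l1734 _))
          (CovZ.leaf K2_ok TV_l266 _))
         (CovZ.leaf K2_ok TV_l267 _))
        (CovZ.n1 (-5120, -2720) (by decide +kernel)
         (CovZ.badM (by decide +kernel))
         (CovZ.n1 (-5040, -2800) (by decide +kernel)
          (CovZ.leaf K2_ok TV_l1735 _)
          (CovZ.leaf K2_ok TV_l1736 _))))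
       (CovZ.n1 (-4960, -3040) (by decide +kernel)
        (CovZ.leaf K2_ok TV_l268 _)
        (CovZ.n1 (-4960, -2880) (by decide +kernel)
         (CovZ.leaf K2_ok TV_l269 _)
         (CovZ.n1 (-5040, -2960) (by decide +kernel)
          (CovZ.leaf K2_ok TV_l270 _)
          (CovZ.leaf K2_ok TV_l271 _))))))
     (CovZ.n1 (-4800, -3520) (by decide +kernel)
      (CovZ.n2 (-5120, -3520) (by decide +kernel)
       (CovZ.leaf K2_ok TV_l272 _)
       (CovZ.leaf K2_ok TV_l273 _))
      (CovZ.n1 (-4800, -3200) (by decide +kernel)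
       (CovZ.leaf K2_ok TV_l274 _)
       (CovZ.leaf K2_ok TV_l275 _))))
    (CovZ.n1 (-4480, -2560) (by decide +kernel)
     (CovZ.n2 (-4160, -2880) (by decide +kernel)
      (CovZ.n2 (-4480, -2880) (by decide +kernel)
       (CovZ.leaf K2_ok TV_l276 _)
       (CovZ.leaf K2_ok TV_l277 _))
      (CovZ.n1 (-4160, -2560) (by decide +kernel)
       (CovZ.leaf K2_ok TV_l278 _)
       (CovZ.n1 (-4320, -2720) (by decide +kernel)
        (CovZ.leaf K2_ok TV_l279 _)
        (CovZ.leaf K2_ok TV_l280 _))))
     (CovZ.n1 (-4800, -2880) (by decide +kernel)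
      (CovZ.n2 (-4800, -2560) (by decide +kernel)
       (CovZ.n2 (-4640, -2720) (by decide +kernel)
        (CovZ.n2 (-4800, -2720) (by decide +kernel)
         (CovZ.leaf K2_ok TV_l281 _)
         (CovZ.leaf K2_ok TV_l282 _))
        (CovZ.n1 (-4640, -2560) (by decide +kernel)
         (CovZ.leaf K2_ok TV_l283 _)
         (CovZ.n1 (-4720, -2640) (by decide +kernel)
          (CovZ.badM (by decide +kernel))
          (CovZ.leaf K2_ok TV_l285 _))))
       (CovZ.n1 (-4960, -2720) (by decide +kernel)
        (CovZ.badM (by decide +kernel))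
        (CovZ.n1 (-4800, -2720) (by decide +kernel)
         (CovZ.n2 (-4880, -2800) (by decide +kernel)
          (CovZ.leaf K2_ok TV_l286 _)
          (CovZ.leaf K2_ok TV_l287 _))
         (CovZ.n1 (-4880, -2640) (by decide +kernel)
          (CovZ.n2 (-4800, -2640) (by decide +kernel)
           (CovZ.leaf K2_ok TV_l288 _)
           (CovZ.badM (by decide +kernel)))
          (CovZ.leaf K2_ok TV_l290 _)))))
      (CovZ.n1 (-4480, -2880) (by decide +kernel)
       (CovZ.n2 (-4640, -3040) (by decide +kernel)
        (CovZ.leaf K2_ok TV_l291 _)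
        (CovZ.leaf K2_ok TV_l292 _))
       (CovZ.n1 (-4640, -2720) (by decide +kernel)
        (CovZ.n2 (-4480, -2720) (by decide +kernel)
         (CovZ.leaf K2_ok TV_l293 _)
         (CovZ.leaf K2_ok TV_l294 _))
        (CovZ.leaf K2_ok TV_l295 _)))))))

theorem TV_s2_2 : SqZ TV_M TV_L [0, 7, 4, 3] (-6400) (-6400) 1280 2 2 :=
  SqZ.mk (a := (-3840)) (b := (-2560)) (c := (-3840)) (d := (-2560)) (by norm_num) (by norm_num) (by norm_num) (by norm_num)
    (CovZ.topM TV_LL 1 (by decide +kernel) (CovZ.n2 (-3200, -3200) (by decide +kernel)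
    (CovZ.n2 (-2560, -3200) (by decide +kernel)
     (CovZ.n2 (-2880, -3520) (by decide +kernel)
      (CovZ.leaf K2_ok TV_l520 _)
      (CovZ.n1 (-2560, -3520) (by decide +kernel)
       (CovZ.leaf K2_ok TV_l521 _)
       (CovZ.leaf K2_ok TV_l522 _)))
     (CovZ.n1 (-2880, -2880) (by decide +kernel)
      (CovZ.leaf K2_ok TV_l523 _)
      (CovZ.leaf K2_ok TV_l524 _)))
    (CovZ.n1 (-3200, -3840) (by decide +kernel)
     (CovZ.leaf K2_ok TV_l525 _)
     (CovZ.leaf K2_ok TV_l526 _))))
    (CovZ.topM TV_LL 1 (by decide +kernel) (CovZ.n0 (-3200, -3200) (by decide +kernel)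
    (CovZ.n2 (-3840, -3200) (by decide +kernel)
     (CovZ.leaf K2_ok TV_l527 _)
     (CovZ.leaf K2_ok TV_l528 _))
    (CovZ.n1 (-3200, -2560) (by decide +kernel)
     (CovZ.n2 (-2880, -2880) (by decide +kernel)
      (CovZ.leaf K2_ok TV_l529 _)
      (CovZ.leaf K2_ok TV_l530 _))
     (CovZ.n1 (-3520, -2880) (by decide +kernel)
      (CovZ.n2 (-3520, -2560) (by decide +kernel)
       (CovZ.leaf K2_ok TV_l531 _)
       (CovZ.leaf K2_ok TV_l532 _))
      (CovZ.leaf K2_ok TV_l533 _)))))

theorem TV_s3_2 : SqZ TV_M TV_L [0, 7, 4, 3] (-6400) (-6400) 1280 3 2 :=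
  SqZ.mk (a := (-2560)) (b := (-1280)) (c := (-3840)) (d := (-2560)) (by norm_num) (by norm_num) (by norm_num) (by norm_num)
    (CovZ.topM TV_LL 1 (by decide +kernel) (CovZ.n2 (-1920, -3200) (by decide +kernel)
    (CovZ.badM (by decide +kernel))
    (CovZ.n1 (-1920, -3840) (by decide +kernel)
     (CovZ.n2 (-2240, -3520) (by decide +kernel)
      (CovZ.badM (by decide +kernel))
      (CovZ.n1 (-2240, -3840) (by decide +kernel)
       (CovZ.leaf K2_ok TV_l869 _)
       (CovZ.badM (by decide +kernel))))
     (CovZ.badM (by decide +kernel)))))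
    (CovZ.topM TV_LL 1 (by decide +kernel) (CovZ.n0 (-1920, -3200) (by decide +kernel)
    (CovZ.n2 (-2560, -3200) (by decide +kernel)
     (CovZ.n2 (-2240, -2880) (by decide +kernel)
      (CovZ.leaf K2_ok TV_l883 _)
      (CovZ.leaf K2_ok TV_l884 _))
     (CovZ.n1 (-2240, -3520) (by decide +kernel)
      (CovZ.n2 (-2560, -3520) (by decide +kernel)
       (CovZ.leaf K2_ok TV_l885 _)
       (CovZ.leaf K2_ok TV_l886 _))
      (CovZ.n1 (-2240, -3200) (by decide +kernel)
       (CovZ.badM (by decide +kernel))
       (CovZ.leaf K2_ok TV_l889 _))))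
    (CovZ.n1 (-1920, -2560) (by decide +kernel)
     (CovZ.badM (by decide +kernel))
     (CovZ.n1 (-2240, -2880) (by decide +kernel)
      (CovZ.leaf K2_ok TV_l894 _)
      (CovZ.badM (by decide +kernel))))))

theorem TV_s4_2 : SqZ TV_M TV_L [0, 7, 4, 3] (-6400) (-6400) 1280 4 2 :=
  SqZ.mk (a := (-1280)) (b := 0) (c := (-3840)) (d := (-2560)) (by norm_num) (by norm_num) (by norm_num) (by norm_num)
    (CovZ.topM TV_LL 0 (by decide +kernel) (CovZ.badM (by decide +kernel)))
    (CovZ.topM TV_LL 0 (by decide +kernel) (CovZ.badM (by decide +kernel)))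

theorem TV_s5_2 : SqZ TV_M TV_L [0, 7, 4, 3] (-6400) (-6400) 1280 5 2 :=
  SqZ.mk (a := 0) (b := 1280) (c := (-3840)) (d := (-2560)) (by norm_num) (by norm_num) (by norm_num) (by norm_num)
    (CovZ.topM TV_LL 0 (by decide +kernel) (CovZ.badM (by decide +kernel)))
    (CovZ.topM TV_LL 0 (by decide +kernel) (CovZ.badM (by decide +kernel)))

theorem TV_s6_2 : SqZ TV_M TV_L [0, 7, 4, 3] (-6400) (-6400) 1280 6 2 :=
  SqZ.mk (a := 1280) (b := 2560) (c := (-3840)) (d := (-2560)) (by norm_num) (by norm_num) (by norm_num) (by norm_num)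
    (CovZ.topM TV_LL 0 (by decide +kernel) (CovZ.badM (by decide +kernel)))
    (CovZ.topM TV_LL 0 (by decide +kernel) (CovZ.badM (by decide +kernel)))

theorem TV_s7_2 : SqZ TV_M TV_L [0, 7, 4, 3] (-6400) (-6400) 1280 7 2 :=
  SqZ.mk (a := 2560) (b := 3840) (c := (-3840)) (d := (-2560)) (by norm_num) (by norm_num) (by norm_num) (by norm_num)
    (CovZ.topM TV_LL 0 (by decide +kernel) (CovZ.badM (by decide +kernel)))
    (CovZ.topM TV_LL 0 (by decide +kernel) (CovZ.badM (by decide +kernel)))

theorem TV_s8_2 : SqZ TV_M TV_L [0, 7, 4, 3] (-6400) (-6400) 1280 8 2 :=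
  SqZ.mk (a := 3840) (b := 5120) (c := (-3840)) (d := (-2560)) (by norm_num) (by norm_num) (by norm_num) (by norm_num)
    (CovZ.topM TV_LL 0 (by decide +kernel) (CovZ.badM (by decide +kernel)))
    (CovZ.topM TV_LL 0 (by decide +kernel) (CovZ.badM (by decide +kernel)))

theorem TV_s0_3 : SqZ TV_M TV_L [0, 7, 4, 3] (-6400) (-6400) 1280 0 3 :=
  SqZ.mk (a := (-6400)) (b := (-5120)) (c := (-2560)) (d := (-1280)) (by norm_num) (by norm_num) (by norm_num) (by norm_num)
    (CovZ.topM TV_LL 0 (by decide +kernel) (CovZ.badM (by decide +kernel)))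
    (CovZ.topM TV_LL 0 (by decide +kernel) (CovZ.badM (by decide +kernel)))

theorem TV_s1_3 : SqZ TV_M TV_L [0, 7, 4, 3] (-6400) (-6400) 1280 1 3 :=
  SqZ.mk (a := (-5120)) (b := (-3840)) (c := (-2560)) (d := (-1280)) (by norm_num) (by norm_num) (by norm_num) (by norm_num)
    (CovZ.topM TV_LL 1 (by decide +kernel) (CovZ.n2 (-4480, -1920) (by decide +kernel)
    (CovZ.n2 (-3840, -1920) (by decide +kernel)
     (CovZ.n2 (-4160, -2240) (by decide +kernel)
      (CovZ.badM (by decide +kernel))
      (CovZ.n1 (-3840, -2240) (by decide +kernel)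
       (CovZ.n2 (-4000, -2400) (by decide +kernel)
        (CovZ.badM (by decide +kernel))
        (CovZ.leaf K2_ok TV_l324 _))
       (CovZ.badM (by decide +kernel))))
     (CovZ.badM (by decide +kernel)))
    (CovZ.n1 (-4480, -2560) (by decide +kernel)
     (CovZ.badM (by decide +kernel))
     (CovZ.n1 (-4160, -2240) (by decide +kernel)
      (CovZ.n2 (-4160, -2560) (by decide +kernel)
       (CovZ.n2 (-4320, -2400) (by decide +kernel)
        (CovZ.n2 (-4160, -2400) (by decide +kernel)
         (CovZ.leaf K2_ok TV_l368 _)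
         (CovZ.badM (by decide +kernel)))
        (CovZ.leaf K2_ok TV_l370 _))
       (CovZ.leaf K2_ok TV_l371 _))
      (CovZ.badM (by decide +kernel))))))
    (CovZ.topM TV_LL 0 (by decide +kernel) (CovZ.badM (by decide +kernel)))

theorem TV_s2_3 : SqZ TV_M TV_L [0, 7, 4, 3] (-6400) (-6400) 1280 2 3 :=
  SqZ.mk (a := (-3840)) (b := (-2560)) (c := (-2560)) (d := (-1280)) (by norm_num) (by norm_num) (by norm_num) (by norm_num)
    (CovZ.topM TV_LL 1 (by decide +kernel) (CovZ.n2 (-3200, -1920) (by decide +kernel)
    (CovZ.n2 (-2560, -1920) (by decide +kernel)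
     (CovZ.n2 (-2880, -2240) (by decide +kernel)
      (CovZ.n2 (-2880, -1920) (by decide +kernel)
       (CovZ.leaf K2_ok TV_l534 _)
       (CovZ.leaf K2_ok TV_l535 _))
      (CovZ.leaf K2_ok TV_l536 _))
     (CovZ.badM (by decide +kernel)))
    (CovZ.n1 (-3200, -2560) (by decide +kernel)
     (CovZ.n2 (-3520, -2240) (by decide +kernel)
      (CovZ.n2 (-3200, -2240) (by decide +kernel)
       (CovZ.leaf K2_ok TV_l541 _)
       (CovZ.n1 (-3360, -2080) (by decide +kernel)
        (CovZ.leaf K2_ok TV_l542 _)
        (CovZ.leaf K2_ok TV_l543 _)))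
      (CovZ.n1 (-3520, -2560) (by decide +kernel)
       (CovZ.leaf K2_ok TV_l544 _)
       (CovZ.leaf K2_ok TV_l545 _)))
     (CovZ.n1 (-2880, -2240) (by decide +kernel)
      (CovZ.leaf K2_ok TV_l546 _)
      (CovZ.leaf K2_ok TV_l547 _)))))
    (CovZ.topM TV_LL 1 (by decide +kernel) (CovZ.n0 (-3200, -1920) (by decide +kernel)
    (CovZ.n2 (-3840, -1920) (by decide +kernel)
     (CovZ.badM (by decide +kernel))
     (CovZ.n1 (-3520, -2240) (by decide +kernel)
      (CovZ.n2 (-3840, -2240) (by decide +kernel)
       (CovZ.badM (by decide +kernel))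
       (CovZ.leaf K2_ok TV_l567 _))
      (CovZ.badM (by decide +kernel))))
    (CovZ.badM (by decide +kernel))))

theorem TV_s3_3 : SqZ TV_M TV_L [0, 7, 4, 3] (-6400) (-6400) 1280 3 3 :=
  SqZ.mk (a := (-2560)) (b := (-1280)) (c := (-2560)) (d := (-1280)) (by norm_num) (by norm_num) (by norm_num) (by norm_num)
    (CovZ.topM TV_LL 1 (by decide +kernel) (CovZ.n2 (-1920, -1920) (by decide +kernel)
    (CovZ.badM (by decide +kernel))
    (CovZ.n1 (-1920, -2560) (by decide +kernel)
     (CovZ.n2 (-2240, -2240) (by decide +kernel)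
      (CovZ.badM (by decide +kernel))
      (CovZ.leaf K2_ok TV_l902 _))
     (CovZ.badM (by decide +kernel)))))
    (CovZ.topM TV_LL 1 (by decide +kernel) (CovZ.n0 (-1920, -1920) (by decide +kernel)
    (CovZ.n2 (-2560, -1920) (by decide +kernel)
     (CovZ.leaf K2_ok TV_l904 _)
     (CovZ.n1 (-2240, -2240) (by decide +kernel)
      (CovZ.leaf K2_ok TV_l905 _)
      (CovZ.leaf K2_ok TV_l906 _)))
    (CovZ.n1 (-1920, -1280) (by decide +kernel)
     (CovZ.badM (by decide +kernel))
     (CovZ.n1 (-2240, -1600) (by decide +kernel)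
      (CovZ.badM (by decide +kernel))
      (CovZ.badM (by decide +kernel))))))

theorem TV_s4_3 : SqZ TV_M TV_L [0, 7, 4, 3] (-6400) (-6400) 1280 4 3 :=
  SqZ.mk (a := (-1280)) (b := 0) (c := (-2560)) (d := (-1280)) (by norm_num) (by norm_num) (by norm_num) (by norm_num)
    (CovZ.topM TV_LL 0 (by decide +kernel) (CovZ.badM (by decide +kernel)))
    (CovZ.topM TV_LL 0 (by decide +kernel) (CovZ.badM (by decide +kernel)))

theorem TV_s5_3 : SqZ TV_M TV_L [0, 7, 4, 3] (-6400) (-6400) 1280 5 3 :=
  SqZ.mk (a := 0) (b := 1280) (c := (-2560)) (d := (-1280)) (by norm_num) (by norm_num) (by norm_num) (by norm_num)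
    (CovZ.topM TV_LL 0 (by decide +kernel) (CovZ.badM (by decide +kernel)))
    (CovZ.topM TV_LL 0 (by decide +kernel) (CovZ.badM (by decide +kernel)))

theorem TV_s6_3 : SqZ TV_M TV_L [0, 7, 4, 3] (-6400) (-6400) 1280 6 3 :=
  SqZ.mk (a := 1280) (b := 2560) (c := (-2560)) (d := (-1280)) (by norm_num) (by norm_num) (by norm_num) (by norm_num)
    (CovZ.topM TV_LL 2 (by decide +kernel) (CovZ.n2 (1920, -1920) (by decide +kernel)
    (CovZ.badM (by decide +kernel))
    (CovZ.badM (by decide +kernel))))
    (CovZ.topM TV_LL 2 (by decide +kernel) (CovZ.n0 (1920, -1920) (by decide +kernel)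
    (CovZ.badM (by decide +kernel))
    (CovZ.n1 (1920, -1280) (by decide +kernel)
     (CovZ.badM (by decide +kernel))
     (CovZ.badM (by decide +kernel)))))

theorem TV_s7_3 : SqZ TV_M TV_L [0, 7, 4, 3] (-6400) (-6400) 1280 7 3 :=
  SqZ.mk (a := 2560) (b := 3840) (c := (-2560)) (d := (-1280)) (by norm_num) (by norm_num) (by norm_num) (by norm_num)
    (CovZ.topM TV_LL 0 (by decide +kernel) (CovZ.badM (by decide +kernel)))
    (CovZ.topM TV_LL 0 (by decide +kernel) (CovZ.badM (by decide +kernel)))

theorem TV_s8_3 : SqZ TV_M TV_L [0, 7, 4, 3] (-6400) (-6400) 1280 8 3 :=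
  SqZ.mk (a := 3840) (b := 5120) (c := (-2560)) (d := (-1280)) (by norm_num) (by norm_num) (by norm_num) (by norm_num)
    (CovZ.topM TV_LL 0 (by decide +kernel) (CovZ.badM (by decide +kernel)))
    (CovZ.topM TV_LL 0 (by decide +kernel) (CovZ.badM (by decide +kernel)))

theorem TV_s0_4 : SqZ TV_M TV_L [0, 7, 4, 3] (-6400) (-6400) 1280 0 4 :=
  SqZ.mk (a := (-6400)) (b := (-5120)) (c := (-1280)) (d := 0) (by norm_num) (by norm_num) (by norm_num) (by norm_num)
    (CovZ.topM TV_LL 0 (by decide +kernel) (CovZ.badM (by decide +kernel)))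
    (CovZ.topM TV_LL 0 (by decide +kernel) (CovZ.badM (by decide +kernel)))

theorem TV_s1_4 : SqZ TV_M TV_L [0, 7, 4, 3] (-6400) (-6400) 1280 1 4 :=
  SqZ.mk (a := (-5120)) (b := (-3840)) (c := (-1280)) (d := 0) (by norm_num) (by norm_num) (by norm_num) (by norm_num)
    (CovZ.topM TV_LL 0 (by decide +kernel) (CovZ.badM (by decide +kernel)))
    (CovZ.topM TV_LL 0 (by decide +kernel) (CovZ.badM (by decide +kernel)))

theorem TV_s2_4 : SqZ TV_M TV_L [0, 7, 4, 3] (-6400) (-6400) 1280 2 4 :=
  SqZ.mk (a := (-3840)) (b := (-2560)) (c := (-1280)) (d := 0) (by norm_num) (by norm_num) (by norm_num) (by norm_num)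
    (CovZ.topM TV_LL 0 (by decide +kernel) (CovZ.badM (by decide +kernel)))
    (CovZ.topM TV_LL 0 (by decide +kernel) (CovZ.badM (by decide +kernel)))

theorem TV_s3_4 : SqZ TV_M TV_L [0, 7, 4, 3] (-6400) (-6400) 1280 3 4 :=
  SqZ.mk (a := (-2560)) (b := (-1280)) (c := (-1280)) (d := 0) (by norm_num) (by norm_num) (by norm_num) (by norm_num)
    (CovZ.topM TV_LL 32 (by decide +kernel) (CovZ.n2 (-1920, -640) (by decide +kernel)
    (CovZ.n2 (-1280, -640) (by decide +kernel)
     (CovZ.badM (by decide +kernel))
     (CovZ.n1 (-1600, -320) (by decide +kernel)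
      (CovZ.n2 (-1280, -320) (by decide +kernel)
       (CovZ.leaf K2_ok TV_l913 _)
       (CovZ.leaf K2_ok TV_l914 _))
      (CovZ.leaf K2_ok TV_l915 _)))
    (CovZ.badM (by decide +kernel))))
    (CovZ.topM TV_LL 32 (by decide +kernel) (CovZ.n0 (-1920, -640) (by decide +kernel)
    (CovZ.badM (by decide +kernel))
    (CovZ.n1 (-1920, 0) (by decide +kernel)
     (CovZ.n2 (-1600, -320) (by decide +kernel)
      (CovZ.badM (by decide +kernel))
      (CovZ.n1 (-1600, 0) (by decide +kernel)
       (CovZ.leaf K2_ok TV_l943 _)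
       (CovZ.badM (by decide +kernel))))
     (CovZ.badM (by decide +kernel)))))

theorem TV_s4_4 : SqZ TV_M TV_L [0, 7, 4, 3] (-6400) (-6400) 1280 4 4 :=
  SqZ.mk (a := (-1280)) (b := 0) (c := (-1280)) (d := 0) (by norm_num) (by norm_num) (by norm_num) (by norm_num)
    (CovZ.topM TV_LL 40 (by decide +kernel) (CovZ.n2 (-640, -640) (by decide +kernel)
    (CovZ.n2 (0, -640) (by decide +kernel)
     (CovZ.badM (by decide +kernel))
     (CovZ.leaf K2_ok TV_l1149 _))
    (CovZ.badM (by decide +kernel))))
    (CovZ.topM TV_LL 40 (by decide +kernel) (CovZ.n0 (-640, -640) (by decide +kernel)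
    (CovZ.n2 (-1280, -640) (by decide +kernel)
     (CovZ.leaf K2_ok TV_l1152 _)
     (CovZ.badM (by decide +kernel)))
    (CovZ.n1 (-640, 0) (by decide +kernel)
     (CovZ.leaf K2_ok TV_l1154 _)
     (CovZ.n1 (-960, -320) (by decide +kernel)
      (CovZ.leaf K2_ok TV_l1155 _)
      (CovZ.leaf K2_ok TV_l1156 _)))))

theorem TV_s5_4 : SqZ TV_M TV_L [0, 7, 4, 3] (-6400) (-6400) 1280 5 4 :=
  SqZ.mk (a := 0) (b := 1280) (c := (-1280)) (d := 0) (by norm_num) (by norm_num) (by norm_num) (by norm_num)
    (CovZ.topM TV_LL 40 (by decide +kernel) (CovZ.n2 (640, -640) (by decide +kernel)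
    (CovZ.n2 (1280, -640) (by decide +kernel)
     (CovZ.badM (by decide +kernel))
     (CovZ.n1 (960, -320) (by decide +kernel)
      (CovZ.n2 (1280, -320) (by decide +kernel)
       (CovZ.leaf K2_ok TV_l2074 _)
       (CovZ.leaf K2_ok TV_l2075 _))
      (CovZ.leaf K2_ok TV_l1463 _)))
    (CovZ.badM (by decide +kernel))))
    (CovZ.topM TV_LL 40 (by decide +kernel) (CovZ.n0 (640, -640) (by decide +kernel)
    (CovZ.n2 (0, -640) (by decide +kernel)
     (CovZ.leaf K2_ok TV_l1468 _)
     (CovZ.badM (by decide +kernel)))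
    (CovZ.n1 (640, 0) (by decide +kernel)
     (CovZ.n2 (960, -320) (by decide +kernel)
      (CovZ.leaf K2_ok TV_l1471 _)
      (CovZ.leaf K2_ok TV_l1472 _))
     (CovZ.n1 (320, -320) (by decide +kernel)
      (CovZ.leaf K2_ok TV_l1473 _)
      (CovZ.leaf K2_ok TV_l1474 _)))))

theorem TV_s6_4 : SqZ TV_M TV_L [0, 7, 4, 3] (-6400) (-6400) 1280 6 4 :=
  SqZ.mk (a := 1280) (b := 2560) (c := (-1280)) (d := 0) (by norm_num) (by norm_num) (by norm_num) (by norm_num)
    (CovZ.topM TV_LL 58 (by decide +kernel) (CovZ.n2 (1920, -640) (by decide +kernel)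
    (CovZ.n2 (2560, -640) (by decide +kernel)
     (CovZ.n2 (2240, -960) (by decide +kernel)
      (CovZ.n2 (2240, -640) (by decide +kernel)
       (CovZ.n2 (2400, -800) (by decide +kernel)
        (CovZ.badM (by decide +kernel))
        (CovZ.n1 (2400, -640) (by decide +kernel)
         (CovZ.n2 (2480, -720) (by decide +kernel)
          (CovZ.badM (by decide +kernel))
          (CovZ.n1 (2480, -640) (by decide +kernel)
           (CovZ.n2 (2520, -680) (by decide +kernel)
            (CovZ.badM (by decide +kernel))
            (CovZ.n1 (2520, -640) (by decide +kernel)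
             (CovZ.badM (by decide +kernel))
             (CovZ.badM (by decide +kernel))))
           (CovZ.badM (by decide +kernel))))
         (CovZ.badM (by decide +kernel))))
       (CovZ.badM (by decide +kernel)))
      (CovZ.n1 (2560, -960) (by decide +kernel)
       (CovZ.n2 (2400, -1120) (by decide +kernel)
        (CovZ.n2 (2400, -960) (by decide +kernel)
         (CovZ.n2 (2480, -1040) (by decide +kernel)
          (CovZ.badM (by decide +kernel))
          (CovZ.n1 (2480, -960) (by decide +kernel)
           (CovZ.badM (by decide +kernel))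
           (CovZ.badM (by decide +kernel))))
         (CovZ.badM (by decide +kernel)))
        (CovZ.badM (by decide +kernel)))
       (CovZ.n1 (2400, -800) (by decide +kernel)
        (CovZ.n2 (2560, -800) (by decide +kernel)
         (CovZ.n2 (2480, -880) (by decide +kernel)
          (CovZ.n2 (2480, -800) (by decide +kernel)
           (CovZ.badM (by decide +kernel))
           (CovZ.badM (by decide +kernel)))
          (CovZ.badM (by decide +kernel)))
         (CovZ.n1 (2480, -720) (by decide +kernel)
          (CovZ.n2 (2560, -720) (by decide +kernel)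
           (CovZ.n2 (2520, -760) (by decide +kernel)
            (CovZ.n2 (2520, -720) (by decide +kernel)
             (CovZ.badM (by decide +kernel))
             (CovZ.badM (by decide +kernel)))
            (CovZ.badM (by decide +kernel)))
           (CovZ.n1 (2520, -680) (by decide +kernel)
            (CovZ.badM (by decide +kernel))
            (CovZ.n1 (2520, -720) (by decide +kernel)
             (CovZ.badM (by decide +kernel))
             (CovZ.badM (by decide +kernel)))))
          (CovZ.n1 (2480, -800) (by decide +kernel)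
           (CovZ.badM (by decide +kernel))
           (CovZ.n1 (2520, -760) (by decide +kernel)
            (CovZ.badM (by decide +kernel))
            (CovZ.badM (by decide +kernel))))))
        (CovZ.n1 (2400, -960) (by decide +kernel)
         (CovZ.badM (by decide +kernel))
         (CovZ.n1 (2480, -880) (by decide +kernel)
          (CovZ.n2 (2480, -960) (by decide +kernel)
           (CovZ.badM (by decide +kernel))
           (CovZ.badM (by decide +kernel)))
          (CovZ.badM (by decide +kernel)))))))
     (CovZ.n1 (2240, -320) (by decide +kernel)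
      (CovZ.n2 (2560, -320) (by decide +kernel)
       (CovZ.n2 (2400, -480) (by decide +kernel)
        (CovZ.n2 (2400, -320) (by decide +kernel)
         (CovZ.n2 (2480, -400) (by decide +kernel)
          (CovZ.n2 (2400, -400) (by decide +kernel)
           (CovZ.leaf K2_ok TV_l2391 _)
           (CovZ.n1 (2440, -440) (by decide +kernel)
            (CovZ.leaf K2_ok TV_l2392 _)
            (CovZ.leaf K2_ok TV_l2393 _)))
          (CovZ.n1 (2480, -320) (by decide +kernel)
           (CovZ.n2 (2520, -360) (by decide +kernel)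
            (CovZ.leaf K2_ok TV_l2394 _)
            (CovZ.leaf K2_ok TV_l2395 _))
           (CovZ.n1 (2440, -360) (by decide +kernel)
            (CovZ.leaf K2_ok TV_l2396 _)
            (CovZ.leaf K2_ok TV_l2397 _))))
         (CovZ.n1 (2320, -400) (by decide +kernel)
          (CovZ.n2 (2320, -320) (by decide +kernel)
           (CovZ.leaf K2_ok TV_l2398 _)
           (CovZ.leaf K2_ok TV_l2399 _))
          (CovZ.n1 (2400, -400) (by decide +kernel)
           (CovZ.n2 (2360, -440) (by decide +kernel)
            (CovZ.leaf K2_ok TV_l2400 _)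
            (CovZ.leaf K2_ok TV_l2401 _))
           (CovZ.leaf K2_ok TV_l2402 _))))
        (CovZ.n1 (2560, -480) (by decide +kernel)
         (CovZ.n2 (2480, -560) (by decide +kernel)
          (CovZ.n2 (2480, -480) (by decide +kernel)
           (CovZ.n2 (2520, -520) (by decide +kernel)
            (CovZ.leaf K2_ok TV_l2403 _)
            (CovZ.n1 (2520, -480) (by decide +kernel)
             (CovZ.leaf K2_ok TV_l2404 _)
             (CovZ.leaf K2_ok TV_l2405 _)))
           (CovZ.badM (by decide +kernel)))
          (CovZ.n1 (2560, -560) (by decide +kernel)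
           (CovZ.n2 (2520, -600) (by decide +kernel)
            (CovZ.n2 (2520, -560) (by decide +kernel)
             (CovZ.leaf K2_ok TV_l2406 _)
             (CovZ.leaf K2_ok TV_l2407 _))
            (CovZ.n1 (2560, -600) (by decide +kernel)
             (CovZ.n2 (2540, -620) (by decide +kernel)
              (CovZ.n2 (2540, -600) (by decide +kernel)
               (CovZ.badM (by decide +kernel))
               (CovZ.leaf K2_ok TV_l2408 _))
              (CovZ.badM (by decide +kernel)))
             (CovZ.leaf K2_ok TV_l2409 _)))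
           (CovZ.n1 (2520, -520) (by decide +kernel)
            (CovZ.n2 (2560, -520) (by decide +kernel)
             (CovZ.leaf K2_ok TV_l2410 _)
             (CovZ.leaf K2_ok TV_l2411 _))
            (CovZ.leaf K2_ok TV_l2412 _))))
         (CovZ.n1 (2480, -400) (by decide +kernel)
          (CovZ.n2 (2560, -400) (by decide +kernel)
           (CovZ.n2 (2520, -440) (by decide +kernel)
            (CovZ.leaf K2_ok TV_l2413 _)
            (CovZ.leaf K2_ok TV_l2414 _))
           (CovZ.n1 (2520, -360) (by decide +kernel)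
            (CovZ.leaf K2_ok TV_l2415 _)
            (CovZ.leaf K2_ok TV_l2416 _)))
          (CovZ.n1 (2480, -480) (by decide +kernel)
           (CovZ.n2 (2440, -440) (by decide +kernel)
            (CovZ.leaf K2_ok TV_l2417 _)
            (CovZ.leaf K2_ok TV_l2418 _))
           (CovZ.leaf K2_ok TV_l2419 _)))))
       (CovZ.n1 (2400, -160) (by decide +kernel)
        (CovZ.n2 (2560, -160) (by decide +kernel)
         (CovZ.n2 (2480, -240) (by decide +kernel)
          (CovZ.leaf K2_ok TV_l2420 _)
          (CovZ.n1 (2560, -240) (by decide +kernel)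
           (CovZ.leaf K2_ok TV_l2421 _)
           (CovZ.leaf K2_ok TV_l2422 _)))
         (CovZ.leaf K2_ok TV_l2423 _))
        (CovZ.n1 (2400, -320) (by decide +kernel)
         (CovZ.leaf K2_ok TV_l2424 _)
         (CovZ.n1 (2480, -240) (by decide +kernel)
          (CovZ.leaf K2_ok TV_l2425 _)
          (CovZ.leaf K2_ok TV_l2426 _)))))
      (CovZ.n1 (2240, -640) (by decide +kernel)
       (CovZ.n2 (2080, -480) (by decide +kernel)
        (CovZ.n2 (2240, -480) (by decide +kernel)
         (CovZ.badM (by decide +kernel))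
         (CovZ.n1 (2160, -400) (by decide +kernel)
          (CovZ.n2 (2240, -400) (by decide +kernel)
           (CovZ.leaf K2_ok TV_l2427 _)
           (CovZ.leaf K2_ok TV_l2428 _))
          (CovZ.leaf K2_ok TV_l2429 _)))
        (CovZ.badM (by decide +kernel)))
       (CovZ.n1 (2400, -480) (by decide +kernel)
        (CovZ.n2 (2400, -640) (by decide +kernel)
         (CovZ.badM (by decide +kernel))
         (CovZ.n1 (2480, -560) (by decide +kernel)
          (CovZ.n2 (2480, -640) (by decide +kernel)
           (CovZ.badM (by decide +kernel))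
           (CovZ.n1 (2520, -600) (by decide +kernel)
            (CovZ.n2 (2520, -640) (by decide +kernel)
             (CovZ.n2 (2500, -620) (by decide +kernel)
              (CovZ.leaf K2_ok TV_l2430 _)
              (CovZ.badM (by decide +kernel)))
             (CovZ.n1 (2540, -620) (by decide +kernel)
              (CovZ.badM (by decide +kernel))
              (CovZ.leaf K2_ok TV_l2431 _)))
            (CovZ.n1 (2480, -600) (by decide +kernel)
             (CovZ.leaf K2_ok TV_l2432 _)
             (CovZ.n1 (2500, -620) (by decide +kernel)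
              (CovZ.badM (by decide +kernel))
              (CovZ.leaf K2_ok TV_l2433 _)))))
          (CovZ.badM (by decide +kernel))))
        (CovZ.n1 (2240, -480) (by decide +kernel)
         (CovZ.n2 (2320, -400) (by decide +kernel)
          (CovZ.n2 (2320, -480) (by decide +kernel)
           (CovZ.leaf K2_ok TV_l2434 _)
           (CovZ.leaf K2_ok TV_l2435 _))
          (CovZ.leaf K2_ok TV_l2436 _))
         (CovZ.badM (by decide +kernel)))))))
    (CovZ.n1 (1920, -1280) (by decide +kernel)
     (CovZ.badM (by decide +kernel))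
     (CovZ.badM (by decide +kernel)))))
    (CovZ.topM TV_LL 58 (by decide +kernel) (CovZ.n0 (1920, -640) (by decide +kernel)
    (CovZ.n2 (1280, -640) (by decide +kernel)
     (CovZ.n2 (1600, -320) (by decide +kernel)
      (CovZ.n2 (1600, -640) (by decide +kernel)
       (CovZ.n2 (1440, -480) (by decide +kernel)
        (CovZ.n2 (1600, -480) (by decide +kernel)
         (CovZ.badM (by decide +kernel))
         (CovZ.leaf K2_ok TV_l2437 _))
        (CovZ.badM (by decide +kernel)))
       (CovZ.n1 (1760, -480) (by decide +kernel)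
        (CovZ.badM (by decide +kernel))
        (CovZ.leaf K2_ok TV_l2438 _)))
      (CovZ.n1 (1280, -320) (by decide +kernel)
       (CovZ.leaf K2_ok TV_l2439 _)
       (CovZ.n1 (1440, -480) (by decide +kernel)
        (CovZ.leaf K2_ok TV_l2440 _)
        (CovZ.leaf K2_ok TV_l2441 _))))
     (CovZ.badM (by decide +kernel)))
    (CovZ.n1 (1920, 0) (by decide +kernel)
     (CovZ.n2 (2240, -320) (by decide +kernel)
      (CovZ.n2 (1920, -320) (by decide +kernel)
       (CovZ.n2 (2080, -160) (by decide +kernel)
        (CovZ.leaf K2_ok TV_l2442 _)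
        (CovZ.leaf K2_ok TV_l2443 _))
       (CovZ.n1 (2080, -480) (by decide +kernel)
        (CovZ.n2 (1920, -480) (by decide +kernel)
         (CovZ.leaf K2_ok TV_l2444 _)
         (CovZ.badM (by decide +kernel)))
        (CovZ.n1 (2080, -320) (by decide +kernel)
         (CovZ.n2 (2160, -400) (by decide +kernel)
          (CovZ.leaf K2_ok TV_l2445 _)
          (CovZ.leaf K2_ok TV_l2446 _))
         (CovZ.n1 (2000, -400) (by decide +kernel)
          (CovZ.leaf K2_ok TV_l2447 _)
          (CovZ.leaf K2_ok TV_l2448 _)))))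
      (CovZ.n1 (2240, 0) (by decide +kernel)
       (CovZ.n2 (2400, -160) (by decide +kernel)
        (CovZ.n2 (2240, -160) (by decide +kernel)
         (CovZ.leaf K2_ok TV_l2449 _)
         (CovZ.leaf K2_ok TV_l2450 _))
        (CovZ.n1 (2400, 0) (by decide +kernel)
         (CovZ.leaf K2_ok TV_l2451 _)
         (CovZ.leaf K2_ok TV_l2452 _)))
       (CovZ.n1 (2080, -160) (by decide +kernel)
        (CovZ.leaf K2_ok TV_l2453 _)
        (CovZ.n1 (2240, -160) (by decide +kernel)
         (CovZ.leaf K2_ok TV_l2454 _)
         (CovZ.leaf K2_ok TV_l2455 _)))))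
     (CovZ.n1 (1600, -320) (by decide +kernel)
      (CovZ.leaf K2_ok TV_l2456 _)
      (CovZ.n1 (1920, -320) (by decide +kernel)
       (CovZ.n2 (1760, -480) (by decide +kernel)
        (CovZ.leaf K2_ok TV_l2457 _)
        (CovZ.n1 (1920, -480) (by decide +kernel)
         (CovZ.badM (by decide +kernel))
         (CovZ.leaf K2_ok TV_l2458 _)))
       (CovZ.leaf K2_ok TV_l2459 _))))))

theorem TV_s7_4 : SqZ TV_M TV_L [0, 7, 4, 3] (-6400) (-6400) 1280 7 4 :=
  SqZ.mk (a := 2560) (b := 3840) (c := (-1280)) (d := 0) (by norm_num) (by norm_num) (by norm_num) (by norm_num)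
    (CovZ.topM TV_LL 40 (by decide +kernel) (CovZ.n2 (3200, -640) (by decide +kernel)
    (CovZ.n2 (3840, -640) (by decide +kernel)
     (CovZ.badM (by decide +kernel))
     (CovZ.n1 (3520, -320) (by decide +kernel)
      (CovZ.n2 (3840, -320) (by decide +kernel)
       (CovZ.badM (by decide +kernel))
       (CovZ.n1 (3680, -160) (by decide +kernel)
        (CovZ.badM (by decide +kernel))
        (CovZ.badM (by decide +kernel))))
      (CovZ.badM (by decide +kernel))))
    (CovZ.badM (by decide +kernel))))
    (CovZ.topM TV_LL 184 (by decide +kernel) (CovZ.n0 (3200, -640) (by decide +kernel)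
    (CovZ.n2 (2560, -640) (by decide +kernel)
     (CovZ.n2 (2880, -320) (by decide +kernel)
      (CovZ.n2 (2880, -640) (by decide +kernel)
       (CovZ.n2 (2720, -480) (by decide +kernel)
        (CovZ.n2 (2880, -480) (by decide +kernel)
         (CovZ.badM (by decide +kernel))
         (CovZ.n1 (2800, -400) (by decide +kernel)
          (CovZ.badM (by decide +kernel))
          (CovZ.n1 (2800, -480) (by decide +kernel)
           (CovZ.n2 (2760, -440) (by decide +kernel)
            (CovZ.badM (by decide +kernel))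
            (CovZ.n1 (2760, -480) (by decide +kernel)
             (CovZ.n2 (2740, -460) (by decide +kernel)
              (CovZ.badM (by decide +kernel))
              (CovZ.badM (by decide +kernel)))
             (CovZ.badM (by decide +kernel))))
           (CovZ.badM (by decide +kernel)))))
        (CovZ.badM (by decide +kernel)))
       (CovZ.badM (by decide +kernel)))
      (CovZ.n1 (2560, -320) (by decide +kernel)
       (CovZ.n2 (2720, -160) (by decide +kernel)
        (CovZ.n2 (2720, -320) (by decide +kernel)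
         (CovZ.n2 (2640, -240) (by decide +kernel)
          (CovZ.n2 (2720, -240) (by decide +kernel)
           (CovZ.n2 (2680, -280) (by decide +kernel)
            (CovZ.leaf K2_ok TV_l2559 _)
            (CovZ.badM (by decide +kernel)))
           (CovZ.leaf K2_ok TV_l2560 _))
          (CovZ.n1 (2640, -320) (by decide +kernel)
           (CovZ.leaf K2_ok TV_l2561 _)
           (CovZ.leaf K2_ok TV_l2562 _)))
         (CovZ.badM (by decide +kernel)))
        (CovZ.n1 (2560, -160) (by decide +kernel)
         (CovZ.leaf K2_ok TV_l2563 _)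
         (CovZ.n1 (2640, -240) (by decide +kernel)
          (CovZ.n2 (2560, -240) (by decide +kernel)
           (CovZ.leaf K2_ok TV_l2564 _)
           (CovZ.leaf K2_ok TV_l2565 _))
          (CovZ.n1 (2640, -160) (by decide +kernel)
           (CovZ.leaf K2_ok TV_l2566 _)
           (CovZ.leaf K2_ok TV_l2567 _)))))
       (CovZ.n1 (2720, -480) (by decide +kernel)
        (CovZ.n2 (2560, -480) (by decide +kernel)
         (CovZ.n2 (2640, -400) (by decide +kernel)
          (CovZ.n2 (2640, -480) (by decide +kernel)
           (CovZ.n2 (2600, -440) (by decide +kernel)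
            (CovZ.n2 (2640, -440) (by decide +kernel)
             (CovZ.leaf K2_ok TV_l2568 _)
             (CovZ.leaf K2_ok TV_l2569 _))
            (CovZ.leaf K2_ok TV_l2570 _))
           (CovZ.n1 (2680, -440) (by decide +kernel)
            (CovZ.n2 (2680, -480) (by decide +kernel)
             (CovZ.leaf K2_ok TV_l2571 _)
             (CovZ.leaf K2_ok TV_l2572 _))
            (CovZ.n1 (2640, -440) (by decide +kernel)
             (CovZ.leaf K2_ok TV_l2573 _)
             (CovZ.leaf K2_ok TV_l2574 _))))
          (CovZ.n1 (2560, -400) (by decide +kernel)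
           (CovZ.leaf K2_ok TV_l2575 _)
           (CovZ.n1 (2600, -440) (by decide +kernel)
            (CovZ.leaf K2_ok TV_l2576 _)
            (CovZ.leaf K2_ok TV_l2577 _))))
         (CovZ.n1 (2640, -560) (by decide +kernel)
          (CovZ.n2 (2560, -560) (by decide +kernel)
           (CovZ.n2 (2600, -520) (by decide +kernel)
            (CovZ.badM (by decide +kernel))
            (CovZ.n1 (2560, -520) (by decide +kernel)
             (CovZ.leaf K2_ok TV_l2578 _)
             (CovZ.badM (by decide +kernel))))
           (CovZ.badM (by decide +kernel)))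
          (CovZ.n1 (2640, -480) (by decide +kernel)
           (CovZ.badM (by decide +kernel))
           (CovZ.n1 (2600, -520) (by decide +kernel)
            (CovZ.n2 (2600, -480) (by decide +kernel)
             (CovZ.badM (by decide +kernel))
             (CovZ.leaf K2_ok TV_l2579 _))
            (CovZ.badM (by decide +kernel))))))
        (CovZ.n1 (2720, -320) (by decide +kernel)
         (CovZ.n2 (2800, -400) (by decide +kernel)
          (CovZ.n2 (2720, -400) (by decide +kernel)
           (CovZ.badM (by decide +kernel))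
           (CovZ.n1 (2760, -440) (by decide +kernel)
            (CovZ.n2 (2720, -440) (by decide +kernel)
             (CovZ.leaf K2_ok TV_l2580 _)
             (CovZ.n1 (2740, -460) (by decide +kernel)
              (CovZ.leaf K2_ok TV_l2581 _)
              (CovZ.n1 (2740, -440) (by decide +kernel)
               (CovZ.badM (by decide +kernel))
               (CovZ.leaf K2_ok TV_l2582 _))))
            (CovZ.badM (by decide +kernel))))
          (CovZ.badM (by decide +kernel)))
         (CovZ.n1 (2640, -400) (by decide +kernel)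
          (CovZ.n2 (2640, -320) (by decide +kernel)
           (CovZ.n2 (2680, -360) (by decide +kernel)
            (CovZ.leaf K2_ok TV_l2583 _)
            (CovZ.leaf K2_ok TV_l2584 _))
           (CovZ.n1 (2600, -360) (by decide +kernel)
            (CovZ.leaf K2_ok TV_l2585 _)
            (CovZ.leaf K2_ok TV_l2586 _)))
          (CovZ.n1 (2720, -400) (by decide +kernel)
           (CovZ.n2 (2680, -440) (by decide +kernel)
            (CovZ.n2 (2680, -400) (by decide +kernel)
             (CovZ.leaf K2_ok TV_l2587 _)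
             (CovZ.leaf K2_ok TV_l2588 _))
            (CovZ.n1 (2720, -440) (by decide +kernel)
             (CovZ.n2 (2700, -460) (by decide +kernel)
              (CovZ.leaf K2_ok TV_l2589 _)
              (CovZ.leaf K2_ok TV_l2590 _))
             (CovZ.leaf K2_ok TV_l2591 _)))
           (CovZ.n1 (2680, -360) (by decide +kernel)
            (CovZ.n2 (2720, -360) (by decide +kernel)
             (CovZ.leaf K2_ok TV_l2592 _)
             (CovZ.leaf K2_ok TV_l2593 _))
            (CovZ.leaf K2_ok TV_l2594 _))))))))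
     (CovZ.badM (by decide +kernel)))
    (CovZ.n1 (3200, 0) (by decide +kernel)
     (CovZ.n2 (3520, -320) (by decide +kernel)
      TV_u0
      TV_u1)
     (CovZ.n1 (2880, -320) (by decide +kernel)
      (CovZ.n2 (2880, 0) (by decide +kernel)
       (CovZ.n2 (3040, -160) (by decide +kernel)
        (CovZ.n2 (2880, -160) (by decide +kernel)
         (CovZ.n2 (2960, -80) (by decide +kernel)
          (CovZ.n2 (2960, -160) (by decide +kernel)
           (CovZ.leaf K2_ok TV_l2735 _)
           (CovZ.leaf K2_ok TV_l2736 _))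
          (CovZ.n1 (2880, -80) (by decide +kernel)
           (CovZ.leaf K2_ok TV_l2737 _)
           (CovZ.leaf K2_ok TV_l2738 _)))
         (CovZ.n1 (2960, -240) (by decide +kernel)
          (CovZ.n2 (2880, -240) (by decide +kernel)
           (CovZ.n2 (2920, -200) (by decide +kernel)
            (CovZ.leaf K2_ok TV_l2739 _)
            (CovZ.leaf K2_ok TV_l2740 _))
           (CovZ.n1 (2920, -280) (by decide +kernel)
            (CovZ.badM (by decide +kernel))
            (CovZ.n1 (2920, -240) (by decide +kernel)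
             (CovZ.n2 (2940, -260) (by decide +kernel)
              (CovZ.leaf K2_ok TV_l2741 _)
              (CovZ.leaf K2_ok TV_l2742 _))
             (CovZ.n1 (2900, -260) (by decide +kernel)
              (CovZ.leaf K2_ok TV_l2743 _)
              (CovZ.leaf K2_ok TV_l2744 _)))))
          (CovZ.n1 (2960, -160) (by decide +kernel)
           (CovZ.n2 (3000, -200) (by decide +kernel)
            (CovZ.n2 (2960, -200) (by decide +kernel)
             (CovZ.leaf K2_ok TV_l2745 _)
             (CovZ.n1 (2980, -220) (by decide +kernel)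
              (CovZ.leaf K2_ok TV_l2746 _)
              (CovZ.leaf K2_ok TV_l2747 _)))
            (CovZ.n1 (3000, -160) (by decide +kernel)
             (CovZ.leaf K2_ok TV_l2748 _)
             (CovZ.leaf K2_ok TV_l2749 _)))
           (CovZ.n1 (2920, -200) (by decide +kernel)
            (CovZ.n2 (2920, -160) (by decide +kernel)
             (CovZ.leaf K2_ok TV_l2750 _)
             (CovZ.leaf K2_ok TV_l2751 _))
            (CovZ.n1 (2960, -200) (by decide +kernel)
             (CovZ.leaf K2_ok TV_l2752 _)
             (CovZ.leaf K2_ok TV_l2753 _))))))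
        (CovZ.n1 (3040, 0) (by decide +kernel)
         (CovZ.n2 (3120, -80) (by decide +kernel)
          (CovZ.n2 (3040, -80) (by decide +kernel)
           (CovZ.leaf K2_ok TV_l2754 _)
           (CovZ.n1 (3080, -120) (by decide +kernel)
            (CovZ.leaf K2_ok TV_l2755 _)
            (CovZ.n1 (3080, -80) (by decide +kernel)
             (CovZ.leaf K2_ok TV_l2756 _)
             (CovZ.leaf K2_ok TV_l2757 _))))
          (CovZ.n1 (3120, 0) (by decide +kernel)
           (CovZ.n2 (3160, -40) (by decide +kernel)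
            (CovZ.leaf K2_ok TV_l2758 _)
            (CovZ.leaf K2_ok TV_l2759 _))
           (CovZ.n1 (3080, -40) (by decide +kernel)
            (CovZ.leaf K2_ok TV_l2760 _)
            (CovZ.n1 (3120, -40) (by decide +kernel)
             (CovZ.leaf K2_ok TV_l2761 _)
             (CovZ.leaf K2_ok TV_l2762 _)))))
         (CovZ.n1 (2960, -80) (by decide +kernel)
          (CovZ.n2 (2960, 0) (by decide +kernel)
           (CovZ.leaf K2_ok TV_l2763 _)
           (CovZ.leaf K2_ok TV_l2764 _))
          (CovZ.n1 (3040, -80) (by decide +kernel)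
           (CovZ.n2 (3000, -120) (by decide +kernel)
            (CovZ.leaf K2_ok TV_l2765 _)
            (CovZ.n1 (3040, -120) (by decide +kernel)
             (CovZ.leaf K2_ok TV_l2766 _)
             (CovZ.leaf K2_ok TV_l2767 _)))
           (CovZ.leaf K2_ok TV_l2768 _)))))
       (CovZ.n1 (2720, -160) (by decide +kernel)
        (CovZ.n2 (2720, 0) (by decide +kernel)
         (CovZ.n2 (2800, -80) (by decide +kernel)
          (CovZ.leaf K2_ok TV_l2769 _)
          (CovZ.n1 (2800, 0) (by decide +kernel)
           (CovZ.leaf K2_ok TV_l2770 _)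
           (CovZ.leaf K2_ok TV_l2771 _)))
         (CovZ.n1 (2640, -80) (by decide +kernel)
          (CovZ.leaf K2_ok TV_l2772 _)
          (CovZ.n1 (2720, -80) (by decide +kernel)
           (CovZ.leaf K2_ok TV_l2773 _)
           (CovZ.leaf K2_ok TV_l2774 _))))
        (CovZ.n1 (2880, -160) (by decide +kernel)
         (CovZ.n2 (2800, -240) (by decide +kernel)
          (CovZ.n2 (2800, -160) (by decide +kernel)
           (CovZ.n2 (2840, -200) (by decide +kernel)
            (CovZ.badM (by decide +kernel))
            (CovZ.leaf K2_ok TV_l2775 _))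
           (CovZ.badM (by decide +kernel)))
          (CovZ.n1 (2880, -240) (by decide +kernel)
           (CovZ.badM (by decide +kernel))
           (CovZ.n1 (2840, -200) (by decide +kernel)
            (CovZ.leaf K2_ok TV_l2776 _)
            (CovZ.badM (by decide +kernel)))))
         (CovZ.n1 (2800, -80) (by decide +kernel)
          (CovZ.n2 (2880, -80) (by decide +kernel)
           (CovZ.leaf K2_ok TV_l2777 _)
           (CovZ.leaf K2_ok TV_l2778 _))
          (CovZ.n1 (2800, -160) (by decide +kernel)
           (CovZ.leaf K2_ok TV_l2779 _)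
           (CovZ.leaf K2_ok TV_l2780 _))))))
      (CovZ.n1 (3200, -320) (by decide +kernel)
       TV_u2
       TV_u3)))))

theorem TV_s8_4 : SqZ TV_M TV_L [0, 7, 4, 3] (-6400) (-6400) 1280 8 4 :=
  SqZ.mk (a := 3840) (b := 5120) (c := (-1280)) (d := 0) (by norm_num) (by norm_num) (by norm_num) (by norm_num)
    (CovZ.topM TV_LL 8 (by decide +kernel) (CovZ.n2 (4480, -640) (by decide +kernel)
    (CovZ.badM (by decide +kernel))
    (CovZ.badM (by decide +kernel))))
    (CovZ.topM TV_LL 8 (by decide +kernel) (CovZ.n0 (4480, -640) (by decide +kernel)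
    (CovZ.n2 (3840, -640) (by decide +kernel)
     (CovZ.n2 (4160, -320) (by decide +kernel)
      (CovZ.badM (by decide +kernel))
      (CovZ.n1 (3840, -320) (by decide +kernel)
       (CovZ.badM (by decide +kernel))
       (CovZ.badM (by decide +kernel))))
     (CovZ.badM (by decide +kernel)))
    (CovZ.badM (by decide +kernel))))

theorem TV_s0_5 : SqZ TV_M TV_L [0, 7, 4, 3] (-6400) (-6400) 1280 0 5 :=
  SqZ.mk (a := (-6400)) (b := (-5120)) (c := 0) (d := 1280) (by norm_num) (by norm_num) (by norm_num) (by norm_num)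
    (CovZ.topM TV_LL 0 (by decide +kernel) (CovZ.badM (by decide +kernel)))
    (CovZ.topM TV_LL 0 (by decide +kernel) (CovZ.badM (by decide +kernel)))

theorem TV_s1_5 : SqZ TV_M TV_L [0, 7, 4, 3] (-6400) (-6400) 1280 1 5 :=
  SqZ.mk (a := (-5120)) (b := (-3840)) (c := 0) (d := 1280) (by norm_num) (by norm_num) (by norm_num) (by norm_num)
    (CovZ.topM TV_LL 0 (by decide +kernel) (CovZ.badM (by decide +kernel)))
    (CovZ.topM TV_LL 0 (by decide +kernel) (CovZ.badM (by decide +kernel)))

theorem TV_s2_5 : SqZ TV_M TV_L [0, 7, 4, 3] (-6400) (-6400) 1280 2 5 :=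
  SqZ.mk (a := (-3840)) (b := (-2560)) (c := 0) (d := 1280) (by norm_num) (by norm_num) (by norm_num) (by norm_num)
    (CovZ.topM TV_LL 0 (by decide +kernel) (CovZ.badM (by decide +kernel)))
    (CovZ.topM TV_LL 0 (by decide +kernel) (CovZ.badM (by decide +kernel)))

theorem TV_s3_5 : SqZ TV_M TV_L [0, 7, 4, 3] (-6400) (-6400) 1280 3 5 :=
  SqZ.mk (a := (-2560)) (b := (-1280)) (c := 0) (d := 1280) (by norm_num) (by norm_num) (by norm_num) (by norm_num)
    (CovZ.topM TV_LL 32 (by decide +kernel) (CovZ.n2 (-1920, 640) (by decide +kernel)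
    (CovZ.n2 (-1280, 640) (by decide +kernel)
     (CovZ.n2 (-1600, 320) (by decide +kernel)
      (CovZ.n2 (-1600, 640) (by decide +kernel)
       (CovZ.n2 (-1440, 480) (by decide +kernel)
        (CovZ.badM (by decide +kernel))
        (CovZ.leaf K2_ok TV_l961 _))
       (CovZ.badM (by decide +kernel)))
      (CovZ.n1 (-1280, 320) (by decide +kernel)
       (CovZ.leaf K2_ok TV_l967 _)
       (CovZ.n1 (-1440, 480) (by decide +kernel)
        (CovZ.leaf K2_ok TV_l968 _)
        (CovZ.leaf K2_ok TV_l969 _))))
     (CovZ.n1 (-1600, 960) (by decide +kernel)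
      (CovZ.n2 (-1280, 960) (by decide +kernel)
       (CovZ.n2 (-1440, 800) (by decide +kernel)
        (CovZ.n2 (-1440, 960) (by decide +kernel)
         (CovZ.leaf K2_ok TV_l970 _)
         (CovZ.badM (by decide +kernel)))
        (CovZ.n1 (-1280, 800) (by decide +kernel)
         (CovZ.leaf K2_ok TV_l973 _)
         (CovZ.leaf K2_ok TV_l974 _)))
       (CovZ.n1 (-1440, 1120) (by decide +kernel)
        (CovZ.n2 (-1280, 1120) (by decide +kernel)
         (CovZ.n2 (-1360, 1040) (by decide +kernel)
          (CovZ.leaf K2_ok TV_l975 _)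
          (CovZ.leaf K2_ok TV_l976 _))
         (CovZ.n1 (-1360, 1200) (by decide +kernel)
          (CovZ.leaf K2_ok TV_l977 _)
          (CovZ.leaf K2_ok TV_l978 _)))
        (CovZ.n1 (-1440, 960) (by decide +kernel)
         (CovZ.badM (by decide +kernel))
         (CovZ.leaf K2_ok TV_l981 _))))
      (CovZ.n1 (-1600, 640) (by decide +kernel)
       (CovZ.badM (by decide +kernel))
       (CovZ.n1 (-1440, 800) (by decide +kernel)
        (CovZ.leaf K2_ok TV_l990 _)
        (CovZ.badM (by decide +kernel))))))
    (CovZ.n1 (-1920, 0) (by decide +kernel)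
     (CovZ.badM (by decide +kernel))
     (CovZ.n1 (-1600, 320) (by decide +kernel)
      (CovZ.n2 (-1600, 0) (by decide +kernel)
       (CovZ.badM (by decide +kernel))
       (CovZ.leaf K2_ok TV_l1028 _))
      (CovZ.badM (by decide +kernel))))))
    (CovZ.topM TV_LL 32 (by decide +kernel) (CovZ.n0 (-1920, 640) (by decide +kernel)
    (CovZ.badM (by decide +kernel))
    (CovZ.n1 (-1920, 1280) (by decide +kernel)
     (CovZ.n2 (-1600, 960) (by decide +kernel)
      (CovZ.badM (by decide +kernel))
      (CovZ.n1 (-1600, 1280) (by decide +kernel)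
       (CovZ.n2 (-1440, 1120) (by decide +kernel)
        (CovZ.badM (by decide +kernel))
        (CovZ.n1 (-1440, 1280) (by decide +kernel)
         (CovZ.n2 (-1360, 1200) (by decide +kernel)
          (CovZ.leaf K2_ok TV_l1084 _)
          (CovZ.n1 (-1360, 1280) (by decide +kernel)
           (CovZ.leaf K2_ok TV_l1085 _)
           (CovZ.leaf K2_ok TV_l1086 _)))
         (CovZ.badM (by decide +kernel))))
       (CovZ.badM (by decide +kernel))))
     (CovZ.badM (by decide +kernel)))))

end Pool.Agent.TET
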