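import Pool.Agent.Helper38_TET.TV_M
import Pool.Agent.Helper38_TET.TV_L
import Pool.Agent.Helper38_TET.TV_14
import Pool.Agent.Helper38_TET.TV_15

/-!
# MP_c7c9bf_co: certificates, family TV
-/

set_option autoImplicit false
set_option maxRecDepth 100000

namespace Pool.Agent.TET

theorem TV_u13 : CovZ TV_M (toL (selN TV_LN 70)) [0, 7, 4, 3] (320, 3520) (0, 3840) (0, 3200) :=
    (CovZ.n1 (0, 3520) (by decide +kernel)
       (CovZ.n2 (160, 3680) (by decide +kernel)
        (CovZ.n2 (160, 3520) (by decide +kernel)
         (CovZ.n2 (80, 3600) (by decide +kernel)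
          (CovZ.n2 (160, 3600) (by decide +kernel)
           (CovZ.n2 (120, 3560) (by decide +kernel)
            (CovZ.n2 (120, 3600) (by decide +kernel)
             (CovZ.n2 (140, 3580) (by decide +kernel)
              (CovZ.leaf K2_ok TV_l2216 _)
              (CovZ.n1 (140, 3600) (by decide +kernel)
               (CovZ.leaf K2_ok TV_l2217 _)
               (CovZ.leaf K2_ok TV_l2218 _)))
             (CovZ.n1 (100, 3580) (by decide +kernel)
              (CovZ.leaf K2_ok TV_l2219 _)
              (CovZ.leaf K2_ok TV_l2220 _)))
            (CovZ.n1 (160, 3560) (by decide +kernel)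
             (CovZ.n2 (140, 3540) (by decide +kernel)
              (CovZ.leaf K2_ok TV_l2221 _)
              (CovZ.leaf K2_ok TV_l2222 _))
             (CovZ.n1 (140, 3580) (by decide +kernel)
              (CovZ.n2 (160, 3580) (by decide +kernel)
               (CovZ.leaf K2_ok TV_l2223 _)
               (CovZ.leaf K2_ok TV_l2224 _))
              (CovZ.leaf K2_ok TV_l2225 _))))
           (CovZ.n1 (120, 3640) (by decide +kernel)
            (CovZ.badM (by decide +kernel))
            (CovZ.n1 (120, 3600) (by decide +kernel)
             (CovZ.n2 (100, 3620) (by decide +kernel)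
              (CovZ.n2 (120, 3620) (by decide +kernel)
               (CovZ.leaf K2_ok TV_l2226 _)
               (CovZ.leaf K2_ok TV_l2227 _))
              (CovZ.leaf K2_ok TV_l2228 _))
             (CovZ.n1 (140, 3620) (by decide +kernel)
              (CovZ.leaf K2_ok TV_l2229 _)
              (CovZ.n1 (120, 3620) (by decide +kernel)
               (CovZ.badM (by decide +kernel))
               (CovZ.leaf K2_ok TV_l2230 _))))))
          (CovZ.n1 (80, 3520) (by decide +kernel)
           (CovZ.n2 (40, 3560) (by decide +kernel)
            (CovZ.n2 (80, 3560) (by decide +kernel)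
             (CovZ.leaf K2_ok TV_l2231 _)
             (CovZ.leaf K2_ok TV_l2232 _))
            (CovZ.leaf K2_ok TV_l2233 _))
           (CovZ.n1 (120, 3560) (by decide +kernel)
            (CovZ.leaf K2_ok TV_l2234 _)
            (CovZ.n1 (80, 3560) (by decide +kernel)
             (CovZ.leaf K2_ok TV_l2235 _)
             (CovZ.leaf K2_ok TV_l2236 _)))))
         (CovZ.n1 (240, 3600) (by decide +kernel)
          (CovZ.n2 (240, 3520) (by decide +kernel)
           (CovZ.n2 (200, 3560) (by decide +kernel)
            (CovZ.badM (by decide +kernel))
            (CovZ.n1 (200, 3520) (by decide +kernel)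
             (CovZ.n2 (180, 3540) (by decide +kernel)
              (CovZ.badM (by decide +kernel))
              (CovZ.leaf K2_ok TV_l2237 _))
             (CovZ.badM (by decide +kernel))))
           (CovZ.badM (by decide +kernel)))
          (CovZ.n1 (160, 3600) (by decide +kernel)
           (CovZ.badM (by decide +kernel))
           (CovZ.n1 (200, 3560) (by decide +kernel)
            (CovZ.n2 (160, 3560) (by decide +kernel)
             (CovZ.n2 (180, 3580) (by decide +kernel)
              (CovZ.n2 (180, 3560) (by decide +kernel)
               (CovZ.leaf K2_ok TV_l2238 _)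
               (CovZ.badM (by decide +kernel)))
              (CovZ.n1 (160, 3580) (by decide +kernel)
               (CovZ.badM (by decide +kernel))
               (CovZ.leaf K2_ok TV_l2239 _)))
             (CovZ.n1 (180, 3540) (by decide +kernel)
              (CovZ.leaf K2_ok TV_l2240 _)
              (CovZ.n1 (180, 3560) (by decide +kernel)
               (CovZ.badM (by decide +kernel))
               (CovZ.leaf K2_ok TV_l2241 _))))
            (CovZ.badM (by decide +kernel))))))
        (CovZ.n1 (0, 3680) (by decide +kernel)
         (CovZ.n2 (80, 3760) (by decide +kernel)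
          (CovZ.n2 (80, 3680) (by decide +kernel)
           (CovZ.n2 (40, 3720) (by decide +kernel)
            (CovZ.badM (by decide +kernel))
            (CovZ.n1 (40, 3680) (by decide +kernel)
             (CovZ.n2 (20, 3700) (by decide +kernel)
              (CovZ.leaf K2_ok TV_l2242 _)
              (CovZ.leaf K2_ok TV_l2243 _))
             (CovZ.n1 (60, 3700) (by decide +kernel)
              (CovZ.leaf K2_ok TV_l2244 _)
              (CovZ.leaf K2_ok TV_l2245 _))))
           (CovZ.badM (by decide +kernel)))
          (CovZ.n1 (0, 3760) (by decide +kernel)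
           (CovZ.n2 (40, 3800) (by decide +kernel)
            (CovZ.n2 (40, 3760) (by decide +kernel)
             (CovZ.n2 (20, 3780) (by decide +kernel)
              (CovZ.badM (by decide +kernel))
              (CovZ.leaf K2_ok TV_l2246 _))
             (CovZ.badM (by decide +kernel)))
            (CovZ.n1 (0, 3800) (by decide +kernel)
             (CovZ.badM (by decide +kernel))
             (CovZ.n1 (20, 3780) (by decide +kernel)
              (CovZ.n2 (0, 3780) (by decide +kernel)
               (CovZ.badM (by decide +kernel))
               (CovZ.leaf K2_ok TV_l2247 _))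
              (CovZ.badM (by decide +kernel)))))
           (CovZ.n1 (40, 3720) (by decide +kernel)
            (CovZ.n2 (0, 3720) (by decide +kernel)
             (CovZ.leaf K2_ok TV_l2248 _)
             (CovZ.n1 (20, 3700) (by decide +kernel)
              (CovZ.leaf K2_ok TV_l2249 _)
              (CovZ.leaf K2_ok TV_l2250 _)))
            (CovZ.n1 (40, 3760) (by decide +kernel)
             (CovZ.badM (by decide +kernel))
             (CovZ.n1 (20, 3740) (by decide +kernel)
              (CovZ.n2 (20, 3760) (by decide +kernel)
               (CovZ.leaf K2_ok TV_l2251 _)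
               (CovZ.leaf K2_ok TV_l2252 _))
              (CovZ.n1 (40, 3740) (by decide +kernel)
               (CovZ.leaf K2_ok TV_l2253 _)
               (CovZ.leaf K2_ok TV_l2254 _)))))))
         (CovZ.n1 (80, 3600) (by decide +kernel)
          (CovZ.n2 (0, 3600) (by decide +kernel)
           (CovZ.n2 (40, 3640) (by decide +kernel)
            (CovZ.leaf K2_ok TV_l2255 _)
            (CovZ.n1 (0, 3640) (by decide +kernel)
             (CovZ.leaf K2_ok TV_l2256 _)
             (CovZ.leaf K2_ok TV_l2257 _)))
           (CovZ.n1 (40, 3560) (by decide +kernel)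
            (CovZ.leaf K2_ok TV_l2258 _)
            (CovZ.n1 (40, 3600) (by decide +kernel)
             (CovZ.leaf K2_ok TV_l2259 _)
             (CovZ.leaf K2_ok TV_l2260 _))))
          (CovZ.n1 (80, 3680) (by decide +kernel)
           (CovZ.n2 (120, 3640) (by decide +kernel)
            (CovZ.n2 (80, 3640) (by decide +kernel)
             (CovZ.n2 (100, 3660) (by decide +kernel)
              (CovZ.leaf K2_ok TV_l2261 _)
              (CovZ.n1 (80, 3660) (by decide +kernel)
               (CovZ.leaf K2_ok TV_l2262 _)
               (CovZ.leaf K2_ok TV_l2263 _)))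
             (CovZ.n1 (100, 3620) (by decide +kernel)
              (CovZ.leaf K2_ok TV_l2264 _)
              (CovZ.leaf K2_ok TV_l2265 _)))
            (CovZ.badM (by decide +kernel)))
           (CovZ.n1 (40, 3640) (by decide +kernel)
            (CovZ.n2 (40, 3680) (by decide +kernel)
             (CovZ.n2 (60, 3660) (by decide +kernel)
              (CovZ.leaf K2_ok TV_l2266 _)
              (CovZ.leaf K2_ok TV_l2267 _))
             (CovZ.n1 (20, 3660) (by decide +kernel)
              (CovZ.leaf K2_ok TV_l2268 _)
              (CovZ.leaf K2_ok TV_l2269 _)))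
            (CovZ.n1 (80, 3640) (by decide +kernel)
             (CovZ.n2 (60, 3620) (by decide +kernel)
              (CovZ.leaf K2_ok TV_l2270 _)
              (CovZ.leaf K2_ok TV_l2271 _))
             (CovZ.n1 (60, 3660) (by decide +kernel)
              (CovZ.leaf K2_ok TV_l2272 _)
              (CovZ.leaf K2_ok TV_l2273 _))))))))
       (CovZ.n1 (160, 3360) (by decide +kernel)
        (CovZ.n2 (0, 3360) (by decide +kernel)
         (CovZ.n2 (80, 3440) (by decide +kernel)
          (CovZ.n2 (80, 3360) (by decide +kernel)
           (CovZ.leaf K2_ok TV_l2274 _)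
           (CovZ.leaf K2_ok TV_l2275 _))
          (CovZ.n1 (0, 3440) (by decide +kernel)
           (CovZ.leaf K2_ok TV_l2276 _)
           (CovZ.leaf K2_ok TV_l2277 _)))
         (CovZ.n1 (80, 3280) (by decide +kernel)
          (CovZ.n2 (0, 3280) (by decide +kernel)
           (CovZ.leaf K2_ok TV_l2278 _)
           (CovZ.leaf K2_ok TV_l2279 _))
          (CovZ.n1 (80, 3360) (by decide +kernel)
           (CovZ.n2 (120, 3320) (by decide +kernel)
            (CovZ.leaf K2_ok TV_l2280 _)
            (CovZ.leaf K2_ok TV_l2281 _))
           (CovZ.leaf K2_ok TV_l2282 _))))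
        (CovZ.n1 (160, 3520) (by decide +kernel)
         (CovZ.n2 (240, 3440) (by decide +kernel)
          (CovZ.n2 (160, 3440) (by decide +kernel)
           (CovZ.n2 (200, 3480) (by decide +kernel)
            (CovZ.n2 (200, 3440) (by decide +kernel)
             (CovZ.n2 (180, 3460) (by decide +kernel)
              (CovZ.leaf K2_ok TV_l2283 _)
              (CovZ.leaf K2_ok TV_l2284 _))
             (CovZ.leaf K2_ok TV_l2285 _))
            (CovZ.n1 (160, 3480) (by decide +kernel)
             (CovZ.leaf K2_ok TV_l2286 _)
             (CovZ.n1 (180, 3460) (by decide +kernel)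
              (CovZ.leaf K2_ok TV_l2287 _)
              (CovZ.leaf K2_ok TV_l2288 _))))
           (CovZ.n1 (200, 3400) (by decide +kernel)
            (CovZ.leaf K2_ok TV_l2289 _)
            (CovZ.n1 (200, 3440) (by decide +kernel)
             (CovZ.n2 (220, 3420) (by decide +kernel)
              (CovZ.leaf K2_ok TV_l2290 _)
              (CovZ.leaf K2_ok TV_l2291 _))
             (CovZ.leaf K2_ok TV_l2292 _))))
          (CovZ.n1 (240, 3520) (by decide +kernel)
           (CovZ.n2 (280, 3480) (by decide +kernel)
            (CovZ.n2 (240, 3480) (by decide +kernel)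
             (CovZ.badM (by decide +kernel))
             (CovZ.n1 (260, 3460) (by decide +kernel)
              (CovZ.leaf K2_ok TV_l2293 _)
              (CovZ.badM (by decide +kernel))))
            (CovZ.badM (by decide +kernel)))
           (CovZ.n1 (200, 3480) (by decide +kernel)
            (CovZ.n2 (200, 3520) (by decide +kernel)
             (CovZ.n2 (220, 3500) (by decide +kernel)
              (CovZ.leaf K2_ok TV_l2294 _)
              (CovZ.badM (by decide +kernel)))
             (CovZ.n1 (180, 3500) (by decide +kernel)
              (CovZ.leaf K2_ok TV_l2295 _)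
              (CovZ.leaf K2_ok TV_l2296 _)))
            (CovZ.n1 (240, 3480) (by decide +kernel)
             (CovZ.n2 (220, 3460) (by decide +kernel)
              (CovZ.leaf K2_ok TV_l2297 _)
              (CovZ.leaf K2_ok TV_l2298 _))
             (CovZ.n1 (220, 3500) (by decide +kernel)
              (CovZ.badM (by decide +kernel))
              (CovZ.leaf K2_ok TV_l2299 _))))))
         (CovZ.n1 (80, 3440) (by decide +kernel)
          (CovZ.n2 (80, 3520) (by decide +kernel)
           (CovZ.n2 (120, 3480) (by decide +kernel)
            (CovZ.leaf K2_ok TV_l2300 _)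
            (CovZ.n1 (120, 3520) (by decide +kernel)
             (CovZ.leaf K2_ok TV_l2301 _)
             (CovZ.leaf K2_ok TV_l2302 _)))
           (CovZ.n1 (40, 3480) (by decide +kernel)
            (CovZ.leaf K2_ok TV_l2303 _)
            (CovZ.leaf K2_ok TV_l2304 _)))
          (CovZ.n1 (160, 3440) (by decide +kernel)
           (CovZ.n2 (120, 3400) (by decide +kernel)
            (CovZ.leaf K2_ok TV_l2305 _)
            (CovZ.leaf K2_ok TV_l2306 _))
           (CovZ.n1 (120, 3480) (by decide +kernel)
            (CovZ.n2 (160, 3480) (by decide +kernel)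
             (CovZ.leaf K2_ok TV_l2307 _)
             (CovZ.leaf K2_ok TV_l2308 _))
            (CovZ.leaf K2_ok TV_l2309 _)))))))

end Pool.Agent.TET
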