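import Pool.Agent.Helper38_TET.TV_M
import Pool.Agent.Helper38_TET.TV_L
import Pool.Agent.Helper38_TET.TV_7
import Pool.Agent.Helper38_TET.TV_8
import Pool.Agent.Helper38_TET.TV_9
import Pool.Agent.Helper38_TET.TV_10
import Pool.Agent.Helper38_TET.TV_12
import Pool.Agent.Helper38_TET.TV_13
import Pool.Agent.Helper38_TET.TV_14
import Pool.Agent.Helper38_TET.TV_15
import Pool.Agent.Helper38_TET.TV_16
import Pool.Agent.Helper38_TET.TV_17
import Pool.Agent.Helper38_TET.TV_19
import Pool.Agent.Helper38_TET.TV_20
import Pool.Agent.Helper38_TET.TV_U0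
import Pool.Agent.Helper38_TET.TV_U1

/-!
# MP_c7c9bf_co: certificates, family TV
-/

set_option autoImplicit false
set_option maxRecDepth 100000

namespace Pool.Agent.TET

theorem TV_s4_5 : SqZ TV_M TV_L [0, 7, 4, 3] (-6400) (-6400) 1280 4 5 :=
  SqZ.mk (a := (-1280)) (b := 0) (c := 0) (d := 1280) (by norm_num) (by norm_num) (by norm_num) (by norm_num)
    (CovZ.topM TV_LL 40 (by decide +kernel) (CovZ.n2 (-640, 640) (by decide +kernel)
    (CovZ.n2 (0, 640) (by decide +kernel)
     (CovZ.n2 (-320, 320) (by decide +kernel)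
      (CovZ.leaf K2_ok TV_l1157 _)
      (CovZ.leaf K2_ok TV_l1158 _))
     (CovZ.n1 (-320, 960) (by decide +kernel)
      (CovZ.leaf K2_ok TV_l1159 _)
      (CovZ.leaf K2_ok TV_l1160 _)))
    (CovZ.n1 (-640, 0) (by decide +kernel)
     (CovZ.n2 (-960, 320) (by decide +kernel)
      (CovZ.leaf K2_ok TV_l1161 _)
      (CovZ.leaf K2_ok TV_l1162 _))
     (CovZ.leaf K2_ok TV_l1163 _))))
    (CovZ.topM TV_LL 40 (by decide +kernel) (CovZ.n0 (-640, 640) (by decide +kernel)
    (CovZ.n2 (-1280, 640) (by decide +kernel)
     (CovZ.n2 (-960, 960) (by decide +kernel)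
      (CovZ.n2 (-960, 640) (by decide +kernel)
       (CovZ.leaf K2_ok TV_l1164 _)
       (CovZ.leaf K2_ok TV_l1165 _))
      (CovZ.n1 (-1280, 960) (by decide +kernel)
       (CovZ.n2 (-1120, 1120) (by decide +kernel)
        (CovZ.leaf K2_ok TV_l1166 _)
        (CovZ.n1 (-1280, 1120) (by decide +kernel)
         (CovZ.leaf K2_ok TV_l1167 _)
         (CovZ.leaf K2_ok TV_l1168 _)))
       (CovZ.leaf K2_ok TV_l1169 _)))
     (CovZ.n1 (-960, 320) (by decide +kernel)
      (CovZ.leaf K2_ok TV_l1170 _)
      (CovZ.n1 (-960, 640) (by decide +kernel)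
       (CovZ.leaf K2_ok TV_l1171 _)
       (CovZ.leaf K2_ok TV_l1172 _))))
    (CovZ.n1 (-640, 1280) (by decide +kernel)
     (CovZ.n2 (-320, 960) (by decide +kernel)
      (CovZ.leaf K2_ok TV_l1173 _)
      (CovZ.n1 (-320, 1280) (by decide +kernel)
       (CovZ.leaf K2_ok TV_l1174 _)
       (CovZ.leaf K2_ok TV_l1175 _)))
     (CovZ.n1 (-960, 960) (by decide +kernel)
      (CovZ.n2 (-960, 1280) (by decide +kernel)
       (CovZ.n2 (-800, 1120) (by decide +kernel)
        (CovZ.leaf K2_ok TV_l1176 _)
        (CovZ.n1 (-800, 1280) (by decide +kernel)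
         (CovZ.leaf K2_ok TV_l1177 _)
         (CovZ.leaf K2_ok TV_l1178 _)))
       (CovZ.n1 (-1120, 1120) (by decide +kernel)
        (CovZ.n2 (-1120, 1280) (by decide +kernel)
         (CovZ.leaf K2_ok TV_l1179 _)
         (CovZ.n1 (-1200, 1200) (by decide +kernel)
          (CovZ.leaf K2_ok TV_l1180 _)
          (CovZ.leaf K2_ok TV_l1181 _)))
        (CovZ.n1 (-960, 1120) (by decide +kernel)
         (CovZ.leaf K2_ok TV_l1182 _)
         (CovZ.leaf K2_ok TV_l1183 _))))
      (CovZ.n1 (-640, 960) (by decide +kernel)
       (CovZ.leaf K2_ok TV_l1184 _)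
       (CovZ.n1 (-800, 1120) (by decide +kernel)
        (CovZ.leaf K2_ok TV_l1185 _)
        (CovZ.leaf K2_ok TV_l1186 _)))))))

theorem TV_s5_5 : SqZ TV_M TV_L [0, 7, 4, 3] (-6400) (-6400) 1280 5 5 :=
  SqZ.mk (a := 0) (b := 1280) (c := 0) (d := 1280) (by norm_num) (by norm_num) (by norm_num) (by norm_num)
    (CovZ.topM TV_LL 42 (by decide +kernel) (CovZ.n2 (640, 640) (by decide +kernel)
    (CovZ.n2 (1280, 640) (by decide +kernel)
     (CovZ.leaf K2_ok TV_l1475 _)
     (CovZ.n1 (960, 960) (by decide +kernel)
      (CovZ.leaf K2_ok TV_l1476 _)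
      (CovZ.leaf K2_ok TV_l1477 _)))
    (CovZ.leaf K2_ok TV_l1478 _)))
    (CovZ.topM TV_LL 42 (by decide +kernel) (CovZ.n0 (640, 640) (by decide +kernel)
    (CovZ.leaf K2_ok TV_l1479 _)
    (CovZ.n1 (640, 1280) (by decide +kernel)
     (CovZ.n2 (960, 960) (by decide +kernel)
      (CovZ.leaf K2_ok TV_l1480 _)
      (CovZ.leaf K2_ok TV_l1481 _))
     (CovZ.leaf K2_ok TV_l1482 _))))

theorem TV_s6_5 : SqZ TV_M TV_L [0, 7, 4, 3] (-6400) (-6400) 1280 6 5 :=
  SqZ.mk (a := 1280) (b := 2560) (c := 0) (d := 1280) (by norm_num) (by norm_num) (by norm_num) (by norm_num)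
    (CovZ.topM TV_LL 186 (by decide +kernel) (CovZ.n2 (1920, 640) (by decide +kernel)
    (CovZ.n2 (2560, 640) (by decide +kernel)
     (CovZ.n2 (2240, 320) (by decide +kernel)
      (CovZ.n2 (2240, 640) (by decide +kernel)
       (CovZ.n2 (2400, 480) (by decide +kernel)
        (CovZ.leaf K2_ok TV_l2460 _)
        (CovZ.leaf K2_ok TV_l2461 _))
       (CovZ.leaf K2_ok TV_l2462 _))
      (CovZ.n1 (2560, 320) (by decide +kernel)
       (CovZ.n2 (2400, 160) (by decide +kernel)
        (CovZ.n2 (2400, 320) (by decide +kernel)
         (CovZ.leaf K2_ok TV_l2463 _)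
         (CovZ.leaf K2_ok TV_l2464 _))
        (CovZ.n1 (2560, 160) (by decide +kernel)
         (CovZ.leaf K2_ok TV_l2465 _)
         (CovZ.leaf K2_ok TV_l2466 _)))
       (CovZ.n1 (2400, 480) (by decide +kernel)
        (CovZ.n2 (2560, 480) (by decide +kernel)
         (CovZ.leaf K2_ok TV_l2467 _)
         (CovZ.leaf K2_ok TV_l2468 _))
        (CovZ.leaf K2_ok TV_l2469 _))))
     (CovZ.n1 (2240, 960) (by decide +kernel)
      (CovZ.n2 (2560, 960) (by decide +kernel)
       (CovZ.n2 (2400, 800) (by decide +kernel)
        (CovZ.n2 (2400, 960) (by decide +kernel)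
         (CovZ.leaf K2_ok TV_l2470 _)
         (CovZ.leaf K2_ok TV_l2471 _))
        (CovZ.n1 (2560, 800) (by decide +kernel)
         (CovZ.leaf K2_ok TV_l2472 _)
         (CovZ.leaf K2_ok TV_l2473 _)))
       (CovZ.n1 (2400, 1120) (by decide +kernel)
        (CovZ.n2 (2560, 1120) (by decide +kernel)
         (CovZ.n2 (2480, 1040) (by decide +kernel)
          (CovZ.leaf K2_ok TV_l2474 _)
          (CovZ.leaf K2_ok TV_l2475 _))
         (CovZ.n1 (2480, 1200) (by decide +kernel)
          (CovZ.n2 (2560, 1200) (by decide +kernel)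
           (CovZ.n2 (2520, 1160) (by decide +kernel)
            (CovZ.leaf K2_ok TV_l2476 _)
            (CovZ.leaf K2_ok TV_l2477 _))
           (CovZ.badM (by decide +kernel)))
          (CovZ.leaf K2_ok TV_l2478 _)))
        (CovZ.n1 (2400, 960) (by decide +kernel)
         (CovZ.leaf K2_ok TV_l2479 _)
         (CovZ.leaf K2_ok TV_l2480 _))))
      (CovZ.n1 (2240, 640) (by decide +kernel)
       (CovZ.leaf K2_ok TV_l2481 _)
       (CovZ.leaf K2_ok TV_l2482 _))))
    (CovZ.n1 (1920, 0) (by decide +kernel)
     (CovZ.n2 (1600, 320) (by decide +kernel)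
      (CovZ.n2 (1920, 320) (by decide +kernel)
       (CovZ.leaf K2_ok TV_l2483 _)
       (CovZ.leaf K2_ok TV_l2484 _))
      (CovZ.leaf K2_ok TV_l2485 _))
     (CovZ.n1 (2240, 320) (by decide +kernel)
      (CovZ.n2 (2240, 0) (by decide +kernel)
       (CovZ.leaf K2_ok TV_l2486 _)
       (CovZ.leaf K2_ok TV_l2487 _))
      (CovZ.leaf K2_ok TV_l2488 _)))))
    (CovZ.topM TV_LL 186 (by decide +kernel) (CovZ.n0 (1920, 640) (by decide +kernel)
    (CovZ.n2 (1280, 640) (by decide +kernel)
     (CovZ.n2 (1600, 960) (by decide +kernel)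
      (CovZ.leaf K2_ok TV_l1574 _)
      (CovZ.leaf K2_ok TV_l1575 _))
     (CovZ.leaf K2_ok TV_l1576 _))
    (CovZ.n1 (1920, 1280) (by decide +kernel)
     (CovZ.n2 (2240, 960) (by decide +kernel)
      (CovZ.n2 (1920, 960) (by decide +kernel)
       (CovZ.leaf K2_ok TV_l1577 _)
       (CovZ.leaf K2_ok TV_l1578 _))
      (CovZ.n1 (2240, 1280) (by decide +kernel)
       (CovZ.n2 (2400, 1120) (by decide +kernel)
        (CovZ.leaf K2_ok TV_l2489 _)
        (CovZ.n1 (2400, 1280) (by decide +kernel)
         (CovZ.n2 (2480, 1200) (by decide +kernel)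
          (CovZ.leaf K2_ok TV_l2490 _)
          (CovZ.badM (by decide +kernel)))
         (CovZ.badM (by decide +kernel))))
       (CovZ.n1 (2080, 1120) (by decide +kernel)
        (CovZ.n2 (2080, 1280) (by decide +kernel)
         (CovZ.n2 (2160, 1200) (by decide +kernel)
          (CovZ.leaf K2_ok TV_l1579 _)
          (CovZ.n1 (2160, 1280) (by decide +kernel)
           (CovZ.leaf K2_ok TV_l2491 _)
           (CovZ.leaf K2_ok TV_l2492 _)))
         (CovZ.n1 (2000, 1200) (by decide +kernel)
          (CovZ.n2 (2000, 1280) (by decide +kernel)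
           (CovZ.leaf K2_ok TV_l1580 _)
           (CovZ.leaf K2_ok TV_l1581 _))
          (CovZ.leaf K2_ok TV_l1582 _)))
        (CovZ.leaf K2_ok TV_l2493 _))))
     (CovZ.n1 (1600, 960) (by decide +kernel)
      (CovZ.n2 (1600, 1280) (by decide +kernel)
       (CovZ.n2 (1760, 1120) (by decide +kernel)
        (CovZ.leaf K2_ok TV_l1583 _)
        (CovZ.n1 (1760, 1280) (by decide +kernel)
         (CovZ.leaf K2_ok TV_l1584 _)
         (CovZ.leaf K2_ok TV_l1585 _)))
       (CovZ.n1 (1440, 1120) (by decide +kernel)
        (CovZ.leaf K2_ok TV_l1586 _)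
        (CovZ.leaf K2_ok TV_l1587 _)))
      (CovZ.n1 (1920, 960) (by decide +kernel)
       (CovZ.leaf K2_ok TV_l1588 _)
       (CovZ.n1 (1760, 1120) (by decide +kernel)
        (CovZ.leaf K2_ok TV_l1589 _)
        (CovZ.leaf K2_ok TV_l1590 _)))))))

theorem TV_s7_5 : SqZ TV_M TV_L [0, 7, 4, 3] (-6400) (-6400) 1280 7 5 :=
  SqZ.mk (a := 2560) (b := 3840) (c := 0) (d := 1280) (by norm_num) (by norm_num) (by norm_num) (by norm_num)
    (CovZ.topM TV_LL 152 (by decide +kernel) (CovZ.n2 (3200, 640) (by decide +kernel)
    (CovZ.badM (by decide +kernel))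
    (CovZ.n1 (3200, 0) (by decide +kernel)
     (CovZ.n2 (2880, 320) (by decide +kernel)
      (CovZ.n2 (3200, 320) (by decide +kernel)
       (CovZ.n2 (3040, 160) (by decide +kernel)
        (CovZ.n2 (3040, 320) (by decide +kernel)
         (CovZ.n2 (3120, 240) (by decide +kernel)
          (CovZ.n2 (3040, 240) (by decide +kernel)
           (CovZ.leaf K2_ok TV_l2908 _)
           (CovZ.n1 (3080, 200) (by decide +kernel)
            (CovZ.leaf K2_ok TV_l2909 _)
            (CovZ.leaf K2_ok TV_l2910 _)))
          (CovZ.n1 (3120, 320) (by decide +kernel)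
           (CovZ.n2 (3160, 280) (by decide +kernel)
            (CovZ.leaf K2_ok TV_l2911 _)
            (CovZ.leaf K2_ok TV_l2912 _))
           (CovZ.n1 (3080, 280) (by decide +kernel)
            (CovZ.leaf K2_ok TV_l2913 _)
            (CovZ.leaf K2_ok TV_l2914 _))))
         (CovZ.n1 (2960, 240) (by decide +kernel)
          (CovZ.n2 (2960, 320) (by decide +kernel)
           (CovZ.n2 (3000, 280) (by decide +kernel)
            (CovZ.leaf K2_ok TV_l2915 _)
            (CovZ.leaf K2_ok TV_l2916 _))
           (CovZ.n1 (2920, 280) (by decide +kernel)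
            (CovZ.leaf K2_ok TV_l2917 _)
            (CovZ.leaf K2_ok TV_l2918 _)))
          (CovZ.n1 (3040, 240) (by decide +kernel)
           (CovZ.n2 (3000, 200) (by decide +kernel)
            (CovZ.leaf K2_ok TV_l2919 _)
            (CovZ.leaf K2_ok TV_l2920 _))
           (CovZ.n1 (3000, 280) (by decide +kernel)
            (CovZ.leaf K2_ok TV_l2921 _)
            (CovZ.leaf K2_ok TV_l2922 _)))))
        (CovZ.n1 (3200, 160) (by decide +kernel)
         (CovZ.n2 (3120, 80) (by decide +kernel)
          (CovZ.n2 (3120, 160) (by decide +kernel)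
           (CovZ.n2 (3160, 120) (by decide +kernel)
            (CovZ.leaf K2_ok TV_l2923 _)
            (CovZ.leaf K2_ok TV_l2924 _))
           (CovZ.n1 (3080, 120) (by decide +kernel)
            (CovZ.leaf K2_ok TV_l2925 _)
            (CovZ.leaf K2_ok TV_l2926 _)))
          (CovZ.n1 (3200, 80) (by decide +kernel)
           (CovZ.n2 (3160, 40) (by decide +kernel)
            (CovZ.leaf K2_ok TV_l2927 _)
            (CovZ.leaf K2_ok TV_l2928 _))
           (CovZ.n1 (3160, 120) (by decide +kernel)
            (CovZ.leaf K2_ok TV_l2929 _)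
            (CovZ.leaf K2_ok TV_l2930 _))))
         (CovZ.n1 (3120, 240) (by decide +kernel)
          (CovZ.n2 (3200, 240) (by decide +kernel)
           (CovZ.n2 (3160, 200) (by decide +kernel)
            (CovZ.leaf K2_ok TV_l2931 _)
            (CovZ.leaf K2_ok TV_l2932 _))
           (CovZ.n1 (3160, 280) (by decide +kernel)
            (CovZ.leaf K2_ok TV_l2933 _)
            (CovZ.leaf K2_ok TV_l2934 _)))
          (CovZ.n1 (3120, 160) (by decide +kernel)
           (CovZ.n2 (3080, 200) (by decide +kernel)
            (CovZ.leaf K2_ok TV_l2935 _)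
            (CovZ.leaf K2_ok TV_l2936 _))
           (CovZ.leaf K2_ok TV_l2937 _)))))
       (CovZ.n1 (3040, 480) (by decide +kernel)
        (CovZ.n2 (3200, 480) (by decide +kernel)
         (CovZ.n2 (3120, 400) (by decide +kernel)
          (CovZ.n2 (3120, 480) (by decide +kernel)
           (CovZ.n2 (3160, 440) (by decide +kernel)
            (CovZ.leaf K2_ok TV_l2938 _)
            (CovZ.n1 (3160, 480) (by decide +kernel)
             (CovZ.leaf K2_ok TV_l2939 _)
             (CovZ.leaf K2_ok TV_l2940 _)))
           (CovZ.n1 (3080, 440) (by decide +kernel)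
            (CovZ.n2 (3080, 480) (by decide +kernel)
             (CovZ.leaf K2_ok TV_l2941 _)
             (CovZ.leaf K2_ok TV_l2942 _))
            (CovZ.leaf K2_ok TV_l2943 _)))
          (CovZ.n1 (3200, 400) (by decide +kernel)
           (CovZ.n2 (3160, 360) (by decide +kernel)
            (CovZ.n2 (3160, 400) (by decide +kernel)
             (CovZ.leaf K2_ok TV_l2944 _)
             (CovZ.leaf K2_ok TV_l2945 _))
            (CovZ.n1 (3200, 360) (by decide +kernel)
             (CovZ.leaf K2_ok TV_l2946 _)
             (CovZ.leaf K2_ok TV_l2947 _)))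
           (CovZ.n1 (3160, 440) (by decide +kernel)
            (CovZ.n2 (3200, 440) (by decide +kernel)
             (CovZ.leaf K2_ok TV_l2948 _)
             (CovZ.leaf K2_ok TV_l2949 _))
            (CovZ.leaf K2_ok TV_l2950 _))))
         (CovZ.n1 (3120, 560) (by decide +kernel)
          (CovZ.badM (by decide +kernel))
          (CovZ.n1 (3120, 480) (by decide +kernel)
           (CovZ.n2 (3080, 520) (by decide +kernel)
            (CovZ.n2 (3120, 520) (by decide +kernel)
             (CovZ.n2 (3100, 500) (by decide +kernel)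
              (CovZ.badM (by decide +kernel))
              (CovZ.leaf K2_ok TV_l2951 _))
             (CovZ.badM (by decide +kernel)))
            (CovZ.n1 (3080, 480) (by decide +kernel)
             (CovZ.leaf K2_ok TV_l2952 _)
             (CovZ.leaf K2_ok TV_l2953 _)))
           (CovZ.n1 (3160, 520) (by decide +kernel)
            (CovZ.n2 (3160, 480) (by decide +kernel)
             (CovZ.n2 (3140, 500) (by decide +kernel)
              (CovZ.badM (by decide +kernel))
              (CovZ.leaf K2_ok TV_l2954 _))
             (CovZ.badM (by decide +kernel)))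
            (CovZ.n1 (3120, 520) (by decide +kernel)
             (CovZ.badM (by decide +kernel))
             (CovZ.n1 (3140, 500) (by decide +kernel)
              (CovZ.leaf K2_ok TV_l2955 _)
              (CovZ.badM (by decide +kernel))))))))
        (CovZ.n1 (3040, 320) (by decide +kernel)
         (CovZ.n2 (2960, 400) (by decide +kernel)
          (CovZ.n2 (3040, 400) (by decide +kernel)
           (CovZ.n2 (3000, 360) (by decide +kernel)
            (CovZ.leaf K2_ok TV_l2956 _)
            (CovZ.leaf K2_ok TV_l2957 _))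
           (CovZ.n1 (3000, 440) (by decide +kernel)
            (CovZ.leaf K2_ok TV_l2958 _)
            (CovZ.leaf K2_ok TV_l2959 _)))
          (CovZ.n1 (2960, 320) (by decide +kernel)
           (CovZ.n2 (2920, 360) (by decide +kernel)
            (CovZ.leaf K2_ok TV_l2960 _)
            (CovZ.leaf K2_ok TV_l2961 _))
           (CovZ.leaf K2_ok TV_l2962 _)))
         (CovZ.n1 (3120, 400) (by decide +kernel)
          (CovZ.n2 (3120, 320) (by decide +kernel)
           (CovZ.n2 (3080, 360) (by decide +kernel)
            (CovZ.leaf K2_ok TV_l2963 _)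
            (CovZ.leaf K2_ok TV_l2964 _))
           (CovZ.leaf K2_ok TV_l2965 _))
          (CovZ.n1 (3040, 400) (by decide +kernel)
           (CovZ.leaf K2_ok TV_l2966 _)
           (CovZ.n1 (3080, 360) (by decide +kernel)
            (CovZ.leaf K2_ok TV_l2967 _)
            (CovZ.leaf K2_ok TV_l2968 _)))))))
      (CovZ.n1 (2880, 0) (by decide +kernel)
       (CovZ.n2 (2720, 160) (by decide +kernel)
        (CovZ.n2 (2880, 160) (by decide +kernel)
         (CovZ.n2 (2800, 80) (by decide +kernel)
          (CovZ.leaf K2_ok TV_l2969 _)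
          (CovZ.leaf K2_ok TV_l2970 _))
         (CovZ.n1 (2800, 240) (by decide +kernel)
          (CovZ.n2 (2880, 240) (by decide +kernel)
           (CovZ.n2 (2840, 200) (by decide +kernel)
            (CovZ.leaf K2_ok TV_l2971 _)
            (CovZ.leaf K2_ok TV_l2972 _))
           (CovZ.leaf K2_ok TV_l2973 _))
          (CovZ.n1 (2800, 160) (by decide +kernel)
           (CovZ.leaf K2_ok TV_l2974 _)
           (CovZ.leaf K2_ok TV_l2975 _))))
        (CovZ.n1 (2720, 0) (by decide +kernel)
         (CovZ.leaf K2_ok TV_l2976 _)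
         (CovZ.leaf K2_ok TV_l2977 _)))
       (CovZ.n1 (3040, 160) (by decide +kernel)
        (CovZ.n2 (3040, 0) (by decide +kernel)
         (CovZ.n2 (2960, 80) (by decide +kernel)
          (CovZ.n2 (3040, 80) (by decide +kernel)
           (CovZ.leaf K2_ok TV_l2978 _)
           (CovZ.leaf K2_ok TV_l2979 _))
          (CovZ.leaf K2_ok TV_l2980 _))
         (CovZ.n1 (3120, 80) (by decide +kernel)
          (CovZ.n2 (3120, 0) (by decide +kernel)
           (CovZ.leaf K2_ok TV_l2981 _)
           (CovZ.leaf K2_ok TV_l2982 _))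
          (CovZ.n1 (3040, 80) (by decide +kernel)
           (CovZ.leaf K2_ok TV_l2983 _)
           (CovZ.leaf K2_ok TV_l2984 _))))
        (CovZ.n1 (2880, 160) (by decide +kernel)
         (CovZ.n2 (2960, 240) (by decide +kernel)
          (CovZ.n2 (2960, 160) (by decide +kernel)
           (CovZ.n2 (2920, 200) (by decide +kernel)
            (CovZ.leaf K2_ok TV_l2985 _)
            (CovZ.leaf K2_ok TV_l2986 _))
           (CovZ.leaf K2_ok TV_l2987 _))
          (CovZ.n1 (2880, 240) (by decide +kernel)
           (CovZ.leaf K2_ok TV_l2988 _)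
           (CovZ.n1 (2920, 200) (by decide +kernel)
            (CovZ.leaf K2_ok TV_l2989 _)
            (CovZ.leaf K2_ok TV_l2990 _))))
         (CovZ.n1 (2960, 80) (by decide +kernel)
          (CovZ.leaf K2_ok TV_l2991 _)
          (CovZ.n1 (2960, 160) (by decide +kernel)
           (CovZ.leaf K2_ok TV_l2992 _)
           (CovZ.leaf K2_ok TV_l2993 _)))))))
     (CovZ.n1 (3520, 320) (by decide +kernel)
      TV_u4
      TV_u5))))
    (CovZ.topM TV_LL 152 (by decide +kernel) (CovZ.n0 (3200, 640) (by decide +kernel)
    TV_u6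
    TV_u7))

theorem TV_s8_5 : SqZ TV_M TV_L [0, 7, 4, 3] (-6400) (-6400) 1280 8 5 :=
  SqZ.mk (a := 3840) (b := 5120) (c := 0) (d := 1280) (by norm_num) (by norm_num) (by norm_num) (by norm_num)
    (CovZ.topM TV_LL 0 (by decide +kernel) (CovZ.badM (by decide +kernel)))
    (CovZ.topM TV_LL 0 (by decide +kernel) (CovZ.badM (by decide +kernel)))

theorem TV_s0_6 : SqZ TV_M TV_L [0, 7, 4, 3] (-6400) (-6400) 1280 0 6 :=
  SqZ.mk (a := (-6400)) (b := (-5120)) (c := 1280) (d := 2560) (by norm_num) (by norm_num) (by norm_num) (by norm_num)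
    (CovZ.topM TV_LL 0 (by decide +kernel) (CovZ.badM (by decide +kernel)))
    (CovZ.topM TV_LL 0 (by decide +kernel) (CovZ.badM (by decide +kernel)))

theorem TV_s1_6 : SqZ TV_M TV_L [0, 7, 4, 3] (-6400) (-6400) 1280 1 6 :=
  SqZ.mk (a := (-5120)) (b := (-3840)) (c := 1280) (d := 2560) (by norm_num) (by norm_num) (by norm_num) (by norm_num)
    (CovZ.topM TV_LL 0 (by decide +kernel) (CovZ.badM (by decide +kernel)))
    (CovZ.topM TV_LL 0 (by decide +kernel) (CovZ.badM (by decide +kernel)))

theorem TV_s2_6 : SqZ TV_M TV_L [0, 7, 4, 3] (-6400) (-6400) 1280 2 6 :=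
  SqZ.mk (a := (-3840)) (b := (-2560)) (c := 1280) (d := 2560) (by norm_num) (by norm_num) (by norm_num) (by norm_num)
    (CovZ.topM TV_LL 0 (by decide +kernel) (CovZ.badM (by decide +kernel)))
    (CovZ.topM TV_LL 0 (by decide +kernel) (CovZ.badM (by decide +kernel)))

theorem TV_s3_6 : SqZ TV_M TV_L [0, 7, 4, 3] (-6400) (-6400) 1280 3 6 :=
  SqZ.mk (a := (-2560)) (b := (-1280)) (c := 1280) (d := 2560) (by norm_num) (by norm_num) (by norm_num) (by norm_num)
    (CovZ.topM TV_LL 32 (by decide +kernel) (CovZ.n2 (-1920, 1920) (by decide +kernel)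
    (CovZ.n2 (-1280, 1920) (by decide +kernel)
     (CovZ.n2 (-1600, 1600) (by decide +kernel)
      (CovZ.badM (by decide +kernel))
      (CovZ.n1 (-1280, 1600) (by decide +kernel)
       (CovZ.n2 (-1440, 1440) (by decide +kernel)
        (CovZ.n2 (-1440, 1600) (by decide +kernel)
         (CovZ.n2 (-1360, 1520) (by decide +kernel)
          (CovZ.n2 (-1440, 1520) (by decide +kernel)
           (CovZ.badM (by decide +kernel))
           (CovZ.n1 (-1400, 1480) (by decide +kernel)
            (CovZ.badM (by decide +kernel))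
            (CovZ.badM (by decide +kernel))))
          (CovZ.badM (by decide +kernel)))
         (CovZ.badM (by decide +kernel)))
        (CovZ.n1 (-1280, 1440) (by decide +kernel)
         (CovZ.n2 (-1360, 1360) (by decide +kernel)
          (CovZ.n2 (-1360, 1440) (by decide +kernel)
           (CovZ.n2 (-1320, 1400) (by decide +kernel)
            (CovZ.leaf K2_ok TV_l1097 _)
            (CovZ.leaf K2_ok TV_l1098 _))
           (CovZ.n1 (-1400, 1400) (by decide +kernel)
            (CovZ.n2 (-1400, 1440) (by decide +kernel)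
             (CovZ.leaf K2_ok TV_l1793 _)
             (CovZ.badM (by decide +kernel)))
            (CovZ.n1 (-1360, 1400) (by decide +kernel)
             (CovZ.leaf K2_ok TV_l1099 _)
             (CovZ.leaf K2_ok TV_l1794 _))))
          (CovZ.n1 (-1280, 1360) (by decide +kernel)
           (CovZ.leaf K2_ok TV_l1100 _)
           (CovZ.n1 (-1320, 1400) (by decide +kernel)
            (CovZ.leaf K2_ok TV_l1101 _)
            (CovZ.leaf K2_ok TV_l1102 _))))
         (CovZ.n1 (-1360, 1520) (by decide +kernel)
          (CovZ.n2 (-1280, 1520) (by decide +kernel)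
           (CovZ.n2 (-1320, 1480) (by decide +kernel)
            (CovZ.badM (by decide +kernel))
            (CovZ.n1 (-1280, 1480) (by decide +kernel)
             (CovZ.leaf K2_ok TV_l1103 _)
             (CovZ.badM (by decide +kernel))))
           (CovZ.badM (by decide +kernel)))
          (CovZ.n1 (-1360, 1440) (by decide +kernel)
           (CovZ.n2 (-1400, 1480) (by decide +kernel)
            (CovZ.n2 (-1360, 1480) (by decide +kernel)
             (CovZ.n2 (-1380, 1460) (by decide +kernel)
              (CovZ.leaf K2_ok TV_l1795 _)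
              (CovZ.leaf K2_ok TV_l1796 _))
             (CovZ.badM (by decide +kernel)))
            (CovZ.n1 (-1400, 1440) (by decide +kernel)
             (CovZ.badM (by decide +kernel))
             (CovZ.leaf K2_ok TV_l1797 _)))
           (CovZ.n1 (-1320, 1480) (by decide +kernel)
            (CovZ.leaf K2_ok TV_l1105 _)
            (CovZ.n1 (-1360, 1480) (by decide +kernel)
             (CovZ.badM (by decide +kernel))
             (CovZ.leaf K2_ok TV_l1798 _)))))))
       (CovZ.badM (by decide +kernel))))
     (CovZ.badM (by decide +kernel)))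
    (CovZ.n1 (-1920, 1280) (by decide +kernel)
     (CovZ.badM (by decide +kernel))
     (CovZ.n1 (-1600, 1600) (by decide +kernel)
      (CovZ.n2 (-1600, 1280) (by decide +kernel)
       (CovZ.badM (by decide +kernel))
       (CovZ.n1 (-1440, 1440) (by decide +kernel)
        (CovZ.n2 (-1440, 1280) (by decide +kernel)
         (CovZ.badM (by decide +kernel))
         (CovZ.n1 (-1360, 1360) (by decide +kernel)
          (CovZ.n2 (-1360, 1280) (by decide +kernel)
           (CovZ.leaf K2_ok TV_l1108 _)
           (CovZ.leaf K2_ok TV_l1109 _))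
          (CovZ.n1 (-1440, 1360) (by decide +kernel)
           (CovZ.n2 (-1400, 1400) (by decide +kernel)
            (CovZ.leaf K2_ok TV_l1110 _)
            (CovZ.badM (by decide +kernel)))
           (CovZ.leaf K2_ok TV_l1111 _))))
        (CovZ.badM (by decide +kernel))))
      (CovZ.badM (by decide +kernel))))))
    (CovZ.topM TV_LL 32 (by decide +kernel) (CovZ.n0 (-1920, 1920) (by decide +kernel)
    (CovZ.badM (by decide +kernel))
    (CovZ.badM (by decide +kernel))))

theorem TV_s4_6 : SqZ TV_M TV_L [0, 7, 4, 3] (-6400) (-6400) 1280 4 6 :=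
  SqZ.mk (a := (-1280)) (b := 0) (c := 1280) (d := 2560) (by norm_num) (by norm_num) (by norm_num) (by norm_num)
    (CovZ.topM TV_LL 110 (by decide +kernel) (CovZ.n2 (-640, 1920) (by decide +kernel)
    (CovZ.n2 (0, 1920) (by decide +kernel)
     (CovZ.n2 (-320, 1600) (by decide +kernel)
      (CovZ.n2 (-320, 1920) (by decide +kernel)
       (CovZ.leaf K2_ok TV_l1187 _)
       (CovZ.n1 (-480, 1760) (by decide +kernel)
        (CovZ.n2 (-480, 1920) (by decide +kernel)
         (CovZ.leaf K2_ok TV_l1188 _)
         (CovZ.n1 (-560, 1840) (by decide +kernel)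
          (CovZ.leaf K2_ok TV_l1189 _)
          (CovZ.leaf K2_ok TV_l1190 _)))
        (CovZ.leaf K2_ok TV_l1191 _)))
      (CovZ.leaf K2_ok TV_l1192 _))
     (CovZ.n1 (-320, 2240) (by decide +kernel)
      (CovZ.n2 (0, 2240) (by decide +kernel)
       (CovZ.n2 (-160, 2080) (by decide +kernel)
        (CovZ.n2 (-160, 2240) (by decide +kernel)
         (CovZ.leaf K2_ok TV_l1193 _)
         (CovZ.leaf K2_ok TV_l1194 _))
        (CovZ.leaf K2_ok TV_l1195 _))
       (CovZ.n1 (-160, 2400) (by decide +kernel)
        (CovZ.n2 (0, 2400) (by decide +kernel)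
         (CovZ.leaf K2_ok TV_l1196 _)
         (CovZ.leaf K2_ok TV_l1197 _))
        (CovZ.n1 (-160, 2240) (by decide +kernel)
         (CovZ.leaf K2_ok TV_l1198 _)
         (CovZ.leaf K2_ok TV_l1199 _))))
      (CovZ.n1 (-320, 1920) (by decide +kernel)
       (CovZ.n2 (-480, 2080) (by decide +kernel)
        (CovZ.n2 (-320, 2080) (by decide +kernel)
         (CovZ.n2 (-400, 2000) (by decide +kernel)
          (CovZ.leaf K2_ok TV_l1200 _)
          (CovZ.leaf K2_ok TV_l1201 _))
         (CovZ.n1 (-400, 2160) (by decide +kernel)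
          (CovZ.badM (by decide +kernel))
          (CovZ.leaf K2_ok TV_l1203 _)))
        (CovZ.n1 (-480, 1920) (by decide +kernel)
         (CovZ.n2 (-560, 2000) (by decide +kernel)
          (CovZ.leaf K2_ok TV_l1204 _)
          (CovZ.leaf K2_ok TV_l1205 _))
         (CovZ.leaf K2_ok TV_l1206 _)))
       (CovZ.n1 (-160, 2080) (by decide +kernel)
        (CovZ.leaf K2_ok TV_l1207 _)
        (CovZ.leaf K2_ok TV_l1208 _)))))
    (CovZ.n1 (-640, 1280) (by decide +kernel)
     (CovZ.n2 (-960, 1600) (by decide +kernel)
      (CovZ.n2 (-640, 1600) (by decide +kernel)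
       (CovZ.n2 (-800, 1440) (by decide +kernel)
        (CovZ.n2 (-800, 1600) (by decide +kernel)
         (CovZ.leaf K2_ok TV_l1209 _)
         (CovZ.n1 (-880, 1520) (by decide +kernel)
          (CovZ.leaf K2_ok TV_l1210 _)
          (CovZ.leaf K2_ok TV_l1211 _)))
        (CovZ.n1 (-640, 1440) (by decide +kernel)
         (CovZ.leaf K2_ok TV_l1212 _)
         (CovZ.leaf K2_ok TV_l1213 _)))
       (CovZ.n1 (-800, 1760) (by decide +kernel)
        (CovZ.n2 (-640, 1760) (by decide +kernel)
         (CovZ.n2 (-720, 1680) (by decide +kernel)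
          (CovZ.leaf K2_ok TV_l1214 _)
          (CovZ.leaf K2_ok TV_l1215 _))
         (CovZ.n1 (-720, 1840) (by decide +kernel)
          (CovZ.leaf K2_ok TV_l1216 _)
          (CovZ.leaf K2_ok TV_l1217 _)))
        (CovZ.n1 (-800, 1600) (by decide +kernel)
         (CovZ.n2 (-880, 1680) (by decide +kernel)
          (CovZ.n2 (-800, 1680) (by decide +kernel)
           (CovZ.leaf K2_ok TV_l1218 _)
           (CovZ.leaf K2_ok TV_l1219 _))
          (CovZ.leaf K2_ok TV_l1220 _))
         (CovZ.leaf K2_ok TV_l1221 _))))
      (CovZ.n1 (-960, 1280) (by decide +kernel)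
       (CovZ.n2 (-1120, 1440) (by decide +kernel)
        (CovZ.n2 (-960, 1440) (by decide +kernel)
         (CovZ.n2 (-1040, 1360) (by decide +kernel)
          (CovZ.leaf K2_ok TV_l1222 _)
          (CovZ.leaf K2_ok TV_l1223 _))
         (CovZ.n1 (-1040, 1520) (by decide +kernel)
          (CovZ.n2 (-960, 1520) (by decide +kernel)
           (CovZ.leaf K2_ok TV_l1224 _)
           (CovZ.badM (by decide +kernel)))
          (CovZ.leaf K2_ok TV_l1226 _)))
        (CovZ.n1 (-1120, 1280) (by decide +kernel)
         (CovZ.n2 (-1200, 1360) (by decide +kernel)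
          (CovZ.leaf K2_ok TV_l1227 _)
          (CovZ.leaf K2_ok TV_l1228 _))
         (CovZ.leaf K2_ok TV_l1229 _)))
       (CovZ.n1 (-800, 1440) (by decide +kernel)
        (CovZ.leaf K2_ok TV_l1230 _)
        (CovZ.n1 (-960, 1440) (by decide +kernel)
         (CovZ.leaf K2_ok TV_l1231 _)
         (CovZ.leaf K2_ok TV_l1232 _)))))
     (CovZ.n1 (-320, 1600) (by decide +kernel)
      (CovZ.n2 (-320, 1280) (by decide +kernel)
       (CovZ.n2 (-480, 1440) (by decide +kernel)
        (CovZ.leaf K2_ok TV_l1233 _)
        (CovZ.leaf K2_ok TV_l1234 _))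
       (CovZ.leaf K2_ok TV_l1235 _))
      (CovZ.n1 (-640, 1600) (by decide +kernel)
       (CovZ.n2 (-480, 1760) (by decide +kernel)
        (CovZ.leaf K2_ok TV_l1236 _)
        (CovZ.n1 (-640, 1760) (by decide +kernel)
         (CovZ.leaf K2_ok TV_l1237 _)
         (CovZ.leaf K2_ok TV_l1238 _)))
       (CovZ.n1 (-480, 1440) (by decide +kernel)
        (CovZ.leaf K2_ok TV_l1239 _)
        (CovZ.n1 (-480, 1600) (by decide +kernel)
         (CovZ.leaf K2_ok TV_l1240 _)
         (CovZ.leaf K2_ok TV_l1241 _))))))))
    (CovZ.topM TV_LL 110 (by decide +kernel) (CovZ.n0 (-640, 1920) (by decide +kernel)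
    TV_u8
    TV_u9))

theorem TV_s5_6 : SqZ TV_M TV_L [0, 7, 4, 3] (-6400) (-6400) 1280 5 6 :=
  SqZ.mk (a := 0) (b := 1280) (c := 1280) (d := 2560) (by norm_num) (by norm_num) (by norm_num) (by norm_num)
    (CovZ.topM TV_LL 110 (by decide +kernel) (CovZ.n2 (640, 1920) (by decide +kernel)
    (CovZ.n2 (1280, 1920) (by decide +kernel)
     (CovZ.n2 (960, 1600) (by decide +kernel)
      (CovZ.n2 (960, 1920) (by decide +kernel)
       (CovZ.n2 (1120, 1760) (by decide +kernel)
        (CovZ.leaf K2_ok TV_l1483 _)
        (CovZ.leaf K2_ok TV_l1484 _))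
       (CovZ.leaf K2_ok TV_l1485 _))
      (CovZ.n1 (1280, 1600) (by decide +kernel)
       (CovZ.n2 (1120, 1440) (by decide +kernel)
        (CovZ.leaf K2_ok TV_l1486 _)
        (CovZ.leaf K2_ok TV_l1487 _))
       (CovZ.n1 (1120, 1760) (by decide +kernel)
        (CovZ.n2 (1280, 1760) (by decide +kernel)
         (CovZ.leaf K2_ok TV_l1488 _)
         (CovZ.leaf K2_ok TV_l1489 _))
        (CovZ.leaf K2_ok TV_l1490 _))))
     (CovZ.n1 (960, 2240) (by decide +kernel)
      (CovZ.n2 (1280, 2240) (by decide +kernel)
       (CovZ.n2 (1120, 2080) (by decide +kernel)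
        (CovZ.leaf K2_ok TV_l1491 _)
        (CovZ.n1 (1280, 2080) (by decide +kernel)
         (CovZ.n2 (1200, 2000) (by decide +kernel)
          (CovZ.leaf K2_ok TV_l1492 _)
          (CovZ.n1 (1280, 2000) (by decide +kernel)
           (CovZ.leaf K2_ok TV_l2076 _)
           (CovZ.leaf K2_ok TV_l1493 _)))
         (CovZ.n1 (1200, 2160) (by decide +kernel)
          (CovZ.n2 (1280, 2160) (by decide +kernel)
           (CovZ.leaf K2_ok TV_l1494 _)
           (CovZ.leaf K2_ok TV_l1495 _))
          (CovZ.leaf K2_ok TV_l1496 _))))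
       (CovZ.n1 (1120, 2400) (by decide +kernel)
        (CovZ.n2 (1280, 2400) (by decide +kernel)
         (CovZ.n2 (1200, 2320) (by decide +kernel)
          (CovZ.leaf K2_ok TV_l2077 _)
          (CovZ.n1 (1280, 2320) (by decide +kernel)
           (CovZ.leaf K2_ok TV_l2078 _)
           (CovZ.leaf K2_ok TV_l2079 _)))
         (CovZ.n1 (1200, 2480) (by decide +kernel)
          (CovZ.n2 (1280, 2480) (by decide +kernel)
           (CovZ.n2 (1240, 2440) (by decide +kernel)
            (CovZ.leaf K2_ok TV_l2080 _)
            (CovZ.n1 (1280, 2440) (by decide +kernel)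
             (CovZ.leaf K2_ok TV_l2081 _)
             (CovZ.leaf K2_ok TV_l2082 _)))
           (CovZ.n1 (1240, 2520) (by decide +kernel)
            (CovZ.n2 (1280, 2520) (by decide +kernel)
             (CovZ.leaf K2_ok TV_l2083 _)
             (CovZ.leaf K2_ok TV_l2084 _))
            (CovZ.leaf K2_ok TV_l2085 _)))
          (CovZ.leaf K2_ok TV_l2086 _)))
        (CovZ.leaf K2_ok TV_l1497 _)))
      (CovZ.n1 (960, 1920) (by decide +kernel)
       (CovZ.leaf K2_ok TV_l1498 _)
       (CovZ.leaf K2_ok TV_l1499 _))))
    (CovZ.n1 (640, 1280) (by decide +kernel)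
     (CovZ.leaf K2_ok TV_l1500 _)
     (CovZ.n1 (960, 1600) (by decide +kernel)
      (CovZ.leaf K2_ok TV_l1501 _)
      (CovZ.leaf K2_ok TV_l1502 _)))))
    (CovZ.topM TV_LL 110 (by decide +kernel) (CovZ.n0 (640, 1920) (by decide +kernel)
    (CovZ.n2 (0, 1920) (by decide +kernel)
     (CovZ.n2 (320, 2240) (by decide +kernel)
      (CovZ.leaf K2_ok TV_l1503 _)
      (CovZ.n1 (0, 2240) (by decide +kernel)
       (CovZ.leaf K2_ok TV_l1504 _)
       (CovZ.leaf K2_ok TV_l1505 _)))
     (CovZ.n1 (320, 1600) (by decide +kernel)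
      (CovZ.leaf K2_ok TV_l1506 _)
      (CovZ.n1 (320, 1920) (by decide +kernel)
       (CovZ.leaf K2_ok TV_l1507 _)
       (CovZ.leaf K2_ok TV_l1508 _))))
    (CovZ.n1 (640, 2560) (by decide +kernel)
     (CovZ.n2 (960, 2240) (by decide +kernel)
      (CovZ.n2 (640, 2240) (by decide +kernel)
       (CovZ.leaf K2_ok TV_l1509 _)
       (CovZ.leaf K2_ok TV_l1510 _))
      (CovZ.n1 (960, 2560) (by decide +kernel)
       (CovZ.n2 (1120, 2400) (by decide +kernel)
        (CovZ.n2 (960, 2400) (by decide +kernel)
         (CovZ.leaf K2_ok TV_l1511 _)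
         (CovZ.leaf K2_ok TV_l1512 _))
        (CovZ.n1 (1120, 2560) (by decide +kernel)
         (CovZ.n2 (1200, 2480) (by decide +kernel)
          (CovZ.leaf K2_ok TV_l2087 _)
          (CovZ.n1 (1200, 2560) (by decide +kernel)
           (CovZ.leaf K2_ok TV_l2088 _)
           (CovZ.n1 (1160, 2520) (by decide +kernel)
            (CovZ.leaf K2_ok TV_l2089 _)
            (CovZ.leaf K2_ok TV_l2090 _))))
         (CovZ.n1 (1040, 2480) (by decide +kernel)
          (CovZ.leaf K2_ok TV_l2091 _)
          (CovZ.leaf K2_ok TV_l2092 _))))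
       (CovZ.n1 (800, 2400) (by decide +kernel)
        (CovZ.n2 (800, 2560) (by decide +kernel)
         (CovZ.leaf K2_ok TV_l1513 _)
         (CovZ.leaf K2_ok TV_l1514 _))
        (CovZ.n1 (960, 2400) (by decide +kernel)
         (CovZ.leaf K2_ok TV_l1515 _)
         (CovZ.leaf K2_ok TV_l1516 _)))))
     (CovZ.n1 (320, 2240) (by decide +kernel)
      (CovZ.n2 (320, 2560) (by decide +kernel)
       (CovZ.n2 (480, 2400) (by decide +kernel)
        (CovZ.leaf K2_ok TV_l1517 _)
        (CovZ.n1 (480, 2560) (by decide +kernel)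
         (CovZ.leaf K2_ok TV_l1518 _)
         (CovZ.leaf K2_ok TV_l1519 _)))
       (CovZ.n1 (160, 2400) (by decide +kernel)
        (CovZ.n2 (160, 2560) (by decide +kernel)
         (CovZ.leaf K2_ok TV_l1520 _)
         (CovZ.leaf K2_ok TV_l1521 _))
        (CovZ.leaf K2_ok TV_l1522 _)))
      (CovZ.n1 (640, 2240) (by decide +kernel)
       (CovZ.leaf K2_ok TV_l1523 _)
       (CovZ.n1 (480, 2400) (by decide +kernel)
        (CovZ.leaf K2_ok TV_l1524 _)
        (CovZ.leaf K2_ok TV_l1525 _)))))))

theorem TV_s6_6 : SqZ TV_M TV_L [0, 7, 4, 3] (-6400) (-6400) 1280 6 6 :=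
  SqZ.mk (a := 1280) (b := 2560) (c := 1280) (d := 2560) (by norm_num) (by norm_num) (by norm_num) (by norm_num)
    (CovZ.topM TV_LL 234 (by decide +kernel) (CovZ.n2 (1920, 1920) (by decide +kernel)
    (CovZ.badM (by decide +kernel))
    (CovZ.n1 (1920, 1280) (by decide +kernel)
     (CovZ.n2 (1600, 1600) (by decide +kernel)
      (CovZ.n2 (1920, 1600) (by decide +kernel)
       (CovZ.n2 (1760, 1440) (by decide +kernel)
        (CovZ.n2 (1760, 1600) (by decide +kernel)
         (CovZ.badM (by decide +kernel))
         (CovZ.n1 (1680, 1520) (by decide +kernel)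
          (CovZ.badM (by decide +kernel))
          (CovZ.n1 (1760, 1520) (by decide +kernel)
           (CovZ.n2 (1720, 1480) (by decide +kernel)
            (CovZ.badM (by decide +kernel))
            (CovZ.badM (by decide +kernel)))
           (CovZ.badM (by decide +kernel)))))
        (CovZ.n1 (1920, 1440) (by decide +kernel)
         (CovZ.n2 (1840, 1360) (by decide +kernel)
          (CovZ.n2 (1840, 1440) (by decide +kernel)
           (CovZ.n2 (1880, 1400) (by decide +kernel)
            (CovZ.leaf K2_ok TV_l2494 _)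
            (CovZ.n1 (1880, 1440) (by decide +kernel)
             (CovZ.n2 (1900, 1420) (by decide +kernel)
              (CovZ.leaf K2_ok TV_l2495 _)
              (CovZ.badM (by decide +kernel)))
             (CovZ.n1 (1860, 1420) (by decide +kernel)
              (CovZ.badM (by decide +kernel))
              (CovZ.leaf K2_ok TV_l2496 _))))
           (CovZ.n1 (1800, 1400) (by decide +kernel)
            (CovZ.n2 (1800, 1440) (by decide +kernel)
             (CovZ.leaf K2_ok TV_l2497 _)
             (CovZ.leaf K2_ok TV_l2498 _))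
            (CovZ.leaf K2_ok TV_l2499 _)))
          (CovZ.n1 (1920, 1360) (by decide +kernel)
           (CovZ.leaf K2_ok TV_l2500 _)
           (CovZ.n1 (1880, 1400) (by decide +kernel)
            (CovZ.n2 (1920, 1400) (by decide +kernel)
             (CovZ.leaf K2_ok TV_l2501 _)
             (CovZ.leaf K2_ok TV_l2502 _))
            (CovZ.leaf K2_ok TV_l2503 _))))
         (CovZ.n1 (1840, 1520) (by decide +kernel)
          (CovZ.badM (by decide +kernel))
          (CovZ.n1 (1840, 1440) (by decide +kernel)
           (CovZ.n2 (1800, 1480) (by decide +kernel)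
            (CovZ.badM (by decide +kernel))
            (CovZ.n1 (1800, 1440) (by decide +kernel)
             (CovZ.n2 (1780, 1460) (by decide +kernel)
              (CovZ.n2 (1800, 1460) (by decide +kernel)
               (CovZ.leaf K2_ok TV_l2504 _)
               (CovZ.badM (by decide +kernel)))
              (CovZ.leaf K2_ok TV_l2505 _))
             (CovZ.n1 (1820, 1460) (by decide +kernel)
              (CovZ.leaf K2_ok TV_l2506 _)
              (CovZ.leaf K2_ok TV_l2507 _))))
           (CovZ.badM (by decide +kernel))))))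
       (CovZ.n1 (1760, 1760) (by decide +kernel)
        (CovZ.badM (by decide +kernel))
        (CovZ.badM (by decide +kernel))))
      (CovZ.n1 (1600, 1280) (by decide +kernel)
       (CovZ.n2 (1440, 1440) (by decide +kernel)
        (CovZ.n2 (1600, 1440) (by decide +kernel)
         (CovZ.n2 (1520, 1360) (by decide +kernel)
          (CovZ.n2 (1520, 1440) (by decide +kernel)
           (CovZ.leaf K2_ok TV_l1591 _)
           (CovZ.leaf K2_ok TV_l1592 _))
          (CovZ.leaf K2_ok TV_l1593 _))
         (CovZ.n1 (1520, 1520) (by decide +kernel)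
          (CovZ.n2 (1600, 1520) (by decide +kernel)
           (CovZ.n2 (1560, 1480) (by decide +kernel)
            (CovZ.n2 (1560, 1520) (by decide +kernel)
             (CovZ.n2 (1580, 1500) (by decide +kernel)
              (CovZ.leaf K2_ok TV_l1594 _)
              (CovZ.badM (by decide +kernel)))
             (CovZ.n1 (1540, 1500) (by decide +kernel)
              (CovZ.n2 (1540, 1520) (by decide +kernel)
               (CovZ.leaf K2_ok TV_l1595 _)
               (CovZ.leaf K2_ok TV_l1596 _))
              (CovZ.leaf K2_ok TV_l1597 _)))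
            (CovZ.n1 (1600, 1480) (by decide +kernel)
             (CovZ.leaf K2_ok TV_l1598 _)
             (CovZ.n1 (1580, 1500) (by decide +kernel)
              (CovZ.leaf K2_ok TV_l2508 _)
              (CovZ.leaf K2_ok TV_l1599 _))))
           (CovZ.badM (by decide +kernel)))
          (CovZ.n1 (1520, 1440) (by decide +kernel)
           (CovZ.n2 (1480, 1480) (by decide +kernel)
            (CovZ.leaf K2_ok TV_l1600 _)
            (CovZ.leaf K2_ok TV_l1601 _))
           (CovZ.n1 (1560, 1480) (by decide +kernel)
            (CovZ.leaf K2_ok TV_l1602 _)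
            (CovZ.leaf K2_ok TV_l1603 _)))))
        (CovZ.n1 (1440, 1280) (by decide +kernel)
         (CovZ.leaf K2_ok TV_l1604 _)
         (CovZ.leaf K2_ok TV_l1605 _)))
       (CovZ.n1 (1760, 1440) (by decide +kernel)
        (CovZ.n2 (1760, 1280) (by decide +kernel)
         (CovZ.n2 (1680, 1360) (by decide +kernel)
          (CovZ.leaf K2_ok TV_l1606 _)
          (CovZ.leaf K2_ok TV_l1607 _))
         (CovZ.n1 (1840, 1360) (by decide +kernel)
          (CovZ.leaf K2_ok TV_l1608 _)
          (CovZ.leaf K2_ok TV_l1609 _)))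
        (CovZ.n1 (1600, 1440) (by decide +kernel)
         (CovZ.n2 (1680, 1520) (by decide +kernel)
          (CovZ.n2 (1680, 1440) (by decide +kernel)
           (CovZ.n2 (1640, 1480) (by decide +kernel)
            (CovZ.n2 (1680, 1480) (by decide +kernel)
             (CovZ.leaf K2_ok TV_l2509 _)
             (CovZ.badM (by decide +kernel)))
            (CovZ.leaf K2_ok TV_l1610 _))
           (CovZ.n1 (1720, 1480) (by decide +kernel)
            (CovZ.n2 (1720, 1440) (by decide +kernel)
             (CovZ.leaf K2_ok TV_l2510 _)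
             (CovZ.leaf K2_ok TV_l2511 _))
            (CovZ.n1 (1680, 1480) (by decide +kernel)
             (CovZ.badM (by decide +kernel))
             (CovZ.n1 (1700, 1460) (by decide +kernel)
              (CovZ.leaf K2_ok TV_l2512 _)
              (CovZ.n1 (1700, 1480) (by decide +kernel)
               (CovZ.leaf K2_ok TV_l2513 _)
               (CovZ.leaf K2_ok TV_l2514 _))))))
          (CovZ.n1 (1600, 1520) (by decide +kernel)
           (CovZ.badM (by decide +kernel))
           (CovZ.n1 (1640, 1480) (by decide +kernel)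
            (CovZ.n2 (1600, 1480) (by decide +kernel)
             (CovZ.n2 (1620, 1500) (by decide +kernel)
              (CovZ.leaf K2_ok TV_l2515 _)
              (CovZ.leaf K2_ok TV_l2516 _))
             (CovZ.leaf K2_ok TV_l1611 _))
            (CovZ.badM (by decide +kernel)))))
         (CovZ.n1 (1680, 1360) (by decide +kernel)
          (CovZ.leaf K2_ok TV_l1612 _)
          (CovZ.n1 (1680, 1440) (by decide +kernel)
           (CovZ.n2 (1720, 1400) (by decide +kernel)
            (CovZ.leaf K2_ok TV_l1613 _)
            (CovZ.n1 (1720, 1440) (by decide +kernel)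
             (CovZ.leaf K2_ok TV_l2517 _)
             (CovZ.leaf K2_ok TV_l2518 _)))
           (CovZ.n1 (1640, 1400) (by decide +kernel)
            (CovZ.leaf K2_ok TV_l1614 _)
            (CovZ.leaf K2_ok TV_l1615 _))))))))
     (CovZ.n1 (2240, 1600) (by decide +kernel)
      (CovZ.n2 (2240, 1280) (by decide +kernel)
       (CovZ.n2 (2080, 1440) (by decide +kernel)
        (CovZ.badM (by decide +kernel))
        (CovZ.n1 (2080, 1280) (by decide +kernel)
         (CovZ.n2 (2000, 1360) (by decide +kernel)
          (CovZ.n2 (2080, 1360) (by decide +kernel)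
           (CovZ.n2 (2040, 1320) (by decide +kernel)
            (CovZ.n2 (2040, 1360) (by decide +kernel)
             (CovZ.leaf K2_ok TV_l2519 _)
             (CovZ.leaf K2_ok TV_l2520 _))
            (CovZ.leaf K2_ok TV_l2521 _))
           (CovZ.n1 (2040, 1400) (by decide +kernel)
            (CovZ.badM (by decide +kernel))
            (CovZ.n1 (2040, 1360) (by decide +kernel)
             (CovZ.leaf K2_ok TV_l2522 _)
             (CovZ.badM (by decide +kernel)))))
          (CovZ.n1 (2000, 1280) (by decide +kernel)
           (CovZ.leaf K2_ok TV_l2523 _)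
           (CovZ.leaf K2_ok TV_l2524 _)))
         (CovZ.n1 (2160, 1360) (by decide +kernel)
          (CovZ.n2 (2160, 1280) (by decide +kernel)
           (CovZ.leaf K2_ok TV_l2525 _)
           (CovZ.leaf K2_ok TV_l2526 _))
          (CovZ.n1 (2080, 1360) (by decide +kernel)
           (CovZ.badM (by decide +kernel))
           (CovZ.n1 (2120, 1320) (by decide +kernel)
            (CovZ.leaf K2_ok TV_l2527 _)
            (CovZ.n1 (2120, 1360) (by decide +kernel)
             (CovZ.leaf K2_ok TV_l2528 _)
             (CovZ.leaf K2_ok TV_l2529 _)))))))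
       (CovZ.badM (by decide +kernel)))
      (CovZ.n1 (1920, 1600) (by decide +kernel)
       (CovZ.badM (by decide +kernel))
       (CovZ.n1 (2080, 1440) (by decide +kernel)
        (CovZ.n2 (1920, 1440) (by decide +kernel)
         (CovZ.badM (by decide +kernel))
         (CovZ.n1 (2000, 1360) (by decide +kernel)
          (CovZ.n2 (1920, 1360) (by decide +kernel)
           (CovZ.n2 (1960, 1400) (by decide +kernel)
            (CovZ.leaf K2_ok TV_l2530 _)
            (CovZ.leaf K2_ok TV_l2531 _))
           (CovZ.leaf K2_ok TV_l2532 _))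
          (CovZ.n1 (2000, 1440) (by decide +kernel)
           (CovZ.n2 (2040, 1400) (by decide +kernel)
            (CovZ.n2 (2000, 1400) (by decide +kernel)
             (CovZ.badM (by decide +kernel))
             (CovZ.leaf K2_ok TV_l2533 _))
            (CovZ.badM (by decide +kernel)))
           (CovZ.n1 (1960, 1400) (by decide +kernel)
            (CovZ.badM (by decide +kernel))
            (CovZ.n1 (2000, 1400) (by decide +kernel)
             (CovZ.leaf K2_ok TV_l2534 _)
             (CovZ.badM (by decide +kernel)))))))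
        (CovZ.badM (by decide +kernel))))))))
    (CovZ.topM TV_LL 110 (by decide +kernel) (CovZ.n0 (1920, 1920) (by decide +kernel)
    (CovZ.n2 (1280, 1920) (by decide +kernel)
     (CovZ.n2 (1600, 2240) (by decide +kernel)
      (CovZ.n2 (1600, 1920) (by decide +kernel)
       (CovZ.n2 (1440, 2080) (by decide +kernel)
        (CovZ.badM (by decide +kernel))
        (CovZ.n1 (1440, 1920) (by decide +kernel)
         (CovZ.n2 (1360, 2000) (by decide +kernel)
          (CovZ.badM (by decide +kernel))
          (CovZ.n1 (1360, 1920) (by decide +kernel)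
           (CovZ.leaf K2_ok TV_l2535 _)
           (CovZ.n1 (1400, 1960) (by decide +kernel)
            (CovZ.leaf K2_ok TV_l2536 _)
            (CovZ.leaf K2_ok TV_l2537 _))))
         (CovZ.badM (by decide +kernel))))
       (CovZ.badM (by decide +kernel)))
      (CovZ.n1 (1280, 2240) (by decide +kernel)
       (CovZ.n2 (1440, 2400) (by decide +kernel)
        (CovZ.n2 (1440, 2240) (by decide +kernel)
         (CovZ.n2 (1360, 2320) (by decide +kernel)
          (CovZ.badM (by decide +kernel))
          (CovZ.badM (by decide +kernel)))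
         (CovZ.badM (by decide +kernel)))
        (CovZ.n1 (1280, 2400) (by decide +kernel)
         (CovZ.badM (by decide +kernel))
         (CovZ.n1 (1360, 2320) (by decide +kernel)
          (CovZ.n2 (1280, 2320) (by decide +kernel)
           (CovZ.n2 (1320, 2360) (by decide +kernel)
            (CovZ.leaf K2_ok TV_l2538 _)
            (CovZ.leaf K2_ok TV_l2539 _))
           (CovZ.n1 (1320, 2280) (by decide +kernel)
            (CovZ.leaf K2_ok TV_l2540 _)
            (CovZ.n1 (1320, 2320) (by decide +kernel)
             (CovZ.n2 (1340, 2300) (by decide +kernel)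
              (CovZ.leaf K2_ok TV_l2541 _)
              (CovZ.leaf K2_ok TV_l2542 _))
             (CovZ.leaf K2_ok TV_l2543 _))))
          (CovZ.badM (by decide +kernel)))))
       (CovZ.n1 (1440, 2080) (by decide +kernel)
        (CovZ.n2 (1280, 2080) (by decide +kernel)
         (CovZ.n2 (1360, 2160) (by decide +kernel)
          (CovZ.n2 (1360, 2080) (by decide +kernel)
           (CovZ.n2 (1320, 2120) (by decide +kernel)
            (CovZ.badM (by decide +kernel))
            (CovZ.leaf K2_ok TV_l1618 _))
           (CovZ.badM (by decide +kernel)))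
          (CovZ.n1 (1280, 2160) (by decide +kernel)
           (CovZ.leaf K2_ok TV_l1621 _)
           (CovZ.leaf K2_ok TV_l1622 _)))
         (CovZ.n1 (1360, 2000) (by decide +kernel)
          (CovZ.n2 (1280, 2000) (by decide +kernel)
           (CovZ.leaf K2_ok TV_l1623 _)
           (CovZ.leaf K2_ok TV_l2544 _))
          (CovZ.n1 (1360, 2080) (by decide +kernel)
           (CovZ.badM (by decide +kernel))
           (CovZ.n1 (1320, 2040) (by decide +kernel)
            (CovZ.leaf K2_ok TV_l1624 _)
            (CovZ.badM (by decide +kernel))))))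
        (CovZ.badM (by decide +kernel)))))
     (CovZ.n1 (1600, 1600) (by decide +kernel)
      (CovZ.n2 (1280, 1600) (by decide +kernel)
       (CovZ.n2 (1440, 1760) (by decide +kernel)
        (CovZ.n2 (1440, 1600) (by decide +kernel)
         (CovZ.n2 (1360, 1680) (by decide +kernel)
          (CovZ.badM (by decide +kernel))
          (CovZ.leaf K2_ok TV_l1625 _))
         (CovZ.badM (by decide +kernel)))
        (CovZ.n1 (1280, 1760) (by decide +kernel)
         (CovZ.n2 (1360, 1840) (by decide +kernel)
          (CovZ.leaf K2_ok TV_l2545 _)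
          (CovZ.leaf K2_ok TV_l2546 _))
         (CovZ.n1 (1360, 1680) (by decide +kernel)
          (CovZ.leaf K2_ok TV_l1626 _)
          (CovZ.leaf K2_ok TV_l2547 _))))
       (CovZ.n1 (1440, 1440) (by decide +kernel)
        (CovZ.n2 (1280, 1440) (by decide +kernel)
         (CovZ.leaf K2_ok TV_l1627 _)
         (CovZ.leaf K2_ok TV_l1628 _))
        (CovZ.n1 (1440, 1600) (by decide +kernel)
         (CovZ.n2 (1520, 1520) (by decide +kernel)
          (CovZ.n2 (1440, 1520) (by decide +kernel)
           (CovZ.n2 (1480, 1560) (by decide +kernel)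
            (CovZ.leaf K2_ok TV_l1629 _)
            (CovZ.leaf K2_ok TV_l1630 _))
           (CovZ.n1 (1480, 1480) (by decide +kernel)
            (CovZ.leaf K2_ok TV_l1631 _)
            (CovZ.leaf K2_ok TV_l1632 _)))
          (CovZ.badM (by decide +kernel)))
         (CovZ.n1 (1360, 1520) (by decide +kernel)
          (CovZ.leaf K2_ok TV_l1633 _)
          (CovZ.n1 (1440, 1520) (by decide +kernel)
           (CovZ.leaf K2_ok TV_l1634 _)
           (CovZ.leaf K2_ok TV_l1635 _))))))
      (CovZ.n1 (1600, 1920) (by decide +kernel)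
       (CovZ.n2 (1760, 1760) (by decide +kernel)
        (CovZ.n2 (1600, 1760) (by decide +kernel)
         (CovZ.badM (by decide +kernel))
         (CovZ.badM (by decide +kernel)))
        (CovZ.badM (by decide +kernel)))
       (CovZ.n1 (1440, 1760) (by decide +kernel)
        (CovZ.n2 (1440, 1920) (by decide +kernel)
         (CovZ.n2 (1520, 1840) (by decide +kernel)
          (CovZ.n2 (1440, 1840) (by decide +kernel)
           (CovZ.n2 (1480, 1880) (by decide +kernel)
            (CovZ.n2 (1480, 1840) (by decide +kernel)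
             (CovZ.n2 (1460, 1860) (by decide +kernel)
              (CovZ.badM (by decide +kernel))
              (CovZ.badM (by decide +kernel)))
             (CovZ.badM (by decide +kernel)))
            (CovZ.n1 (1440, 1880) (by decide +kernel)
             (CovZ.badM (by decide +kernel))
             (CovZ.n1 (1460, 1860) (by decide +kernel)
              (CovZ.n2 (1440, 1860) (by decide +kernel)
               (CovZ.leaf K2_ok TV_l2548 _)
               (CovZ.badM (by decide +kernel)))
              (CovZ.badM (by decide +kernel)))))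
           (CovZ.badM (by decide +kernel)))
          (CovZ.badM (by decide +kernel)))
         (CovZ.n1 (1360, 1840) (by decide +kernel)
          (CovZ.n2 (1360, 1920) (by decide +kernel)
           (CovZ.n2 (1400, 1880) (by decide +kernel)
            (CovZ.leaf K2_ok TV_l2549 _)
            (CovZ.n1 (1400, 1920) (by decide +kernel)
             (CovZ.leaf K2_ok TV_l2550 _)
             (CovZ.leaf K2_ok TV_l2551 _)))
           (CovZ.leaf K2_ok TV_l2552 _))
          (CovZ.n1 (1440, 1840) (by decide +kernel)
           (CovZ.badM (by decide +kernel))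
           (CovZ.n1 (1400, 1880) (by decide +kernel)
            (CovZ.n2 (1440, 1880) (by decide +kernel)
             (CovZ.n2 (1420, 1860) (by decide +kernel)
              (CovZ.leaf K2_ok TV_l2553 _)
              (CovZ.leaf K2_ok TV_l2554 _))
             (CovZ.n1 (1420, 1900) (by decide +kernel)
              (CovZ.n2 (1440, 1900) (by decide +kernel)
               (CovZ.leaf K2_ok TV_l2555 _)
               (CovZ.leaf K2_ok TV_l2556 _))
              (CovZ.leaf K2_ok TV_l2557 _)))
            (CovZ.leaf K2_ok TV_l2558 _)))))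
        (CovZ.n1 (1600, 1760) (by decide +kernel)
         (CovZ.badM (by decide +kernel))
         (CovZ.n1 (1520, 1840) (by decide +kernel)
          (CovZ.badM (by decide +kernel))
          (CovZ.badM (by decide +kernel))))))))
    (CovZ.badM (by decide +kernel))))

theorem TV_s7_6 : SqZ TV_M TV_L [0, 7, 4, 3] (-6400) (-6400) 1280 7 6 :=
  SqZ.mk (a := 2560) (b := 3840) (c := 1280) (d := 2560) (by norm_num) (by norm_num) (by norm_num) (by norm_num)
    (CovZ.topM TV_LL 0 (by decide +kernel) (CovZ.badM (by decide +kernel)))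
    (CovZ.topM TV_LL 0 (by decide +kernel) (CovZ.badM (by decide +kernel)))

theorem TV_s8_6 : SqZ TV_M TV_L [0, 7, 4, 3] (-6400) (-6400) 1280 8 6 :=
  SqZ.mk (a := 3840) (b := 5120) (c := 1280) (d := 2560) (by norm_num) (by norm_num) (by norm_num) (by norm_num)
    (CovZ.topM TV_LL 0 (by decide +kernel) (CovZ.badM (by decide +kernel)))
    (CovZ.topM TV_LL 0 (by decide +kernel) (CovZ.badM (by decide +kernel)))

theorem TV_s0_7 : SqZ TV_M TV_L [0, 7, 4, 3] (-6400) (-6400) 1280 0 7 :=
  SqZ.mk (a := (-6400)) (b := (-5120)) (c := 2560) (d := 3840) (by norm_num) (by norm_num) (by norm_num) (by norm_num)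
    (CovZ.topM TV_LL 0 (by decide +kernel) (CovZ.badM (by decide +kernel)))
    (CovZ.topM TV_LL 0 (by decide +kernel) (CovZ.badM (by decide +kernel)))

theorem TV_s1_7 : SqZ TV_M TV_L [0, 7, 4, 3] (-6400) (-6400) 1280 1 7 :=
  SqZ.mk (a := (-5120)) (b := (-3840)) (c := 2560) (d := 3840) (by norm_num) (by norm_num) (by norm_num) (by norm_num)
    (CovZ.topM TV_LL 0 (by decide +kernel) (CovZ.badM (by decide +kernel)))
    (CovZ.topM TV_LL 0 (by decide +kernel) (CovZ.badM (by decide +kernel)))

theorem TV_s2_7 : SqZ TV_M TV_L [0, 7, 4, 3] (-6400) (-6400) 1280 2 7 :=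
  SqZ.mk (a := (-3840)) (b := (-2560)) (c := 2560) (d := 3840) (by norm_num) (by norm_num) (by norm_num) (by norm_num)
    (CovZ.topM TV_LL 0 (by decide +kernel) (CovZ.badM (by decide +kernel)))
    (CovZ.topM TV_LL 0 (by decide +kernel) (CovZ.badM (by decide +kernel)))

theorem TV_s3_7 : SqZ TV_M TV_L [0, 7, 4, 3] (-6400) (-6400) 1280 3 7 :=
  SqZ.mk (a := (-2560)) (b := (-1280)) (c := 2560) (d := 3840) (by norm_num) (by norm_num) (by norm_num) (by norm_num)
    (CovZ.topM TV_LL 0 (by decide +kernel) (CovZ.badM (by decide +kernel)))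
    (CovZ.topM TV_LL 0 (by decide +kernel) (CovZ.badM (by decide +kernel)))

theorem TV_s4_7 : SqZ TV_M TV_L [0, 7, 4, 3] (-6400) (-6400) 1280 4 7 :=
  SqZ.mk (a := (-1280)) (b := 0) (c := 2560) (d := 3840) (by norm_num) (by norm_num) (by norm_num) (by norm_num)
    (CovZ.topM TV_LL 70 (by decide +kernel) (CovZ.n2 (-640, 3200) (by decide +kernel)
    (CovZ.n2 (0, 3200) (by decide +kernel)
     (CovZ.n2 (-320, 2880) (by decide +kernel)
      TV_u10
      TV_u11)
     (CovZ.n1 (-320, 3520) (by decide +kernel)
      (CovZ.n2 (0, 3520) (by decide +kernel)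
       (CovZ.n2 (-160, 3360) (by decide +kernel)
        (CovZ.n2 (-160, 3520) (by decide +kernel)
         (CovZ.n2 (-80, 3440) (by decide +kernel)
          (CovZ.badM (by decide +kernel))
          (CovZ.n1 (-80, 3520) (by decide +kernel)
           (CovZ.n2 (-40, 3480) (by decide +kernel)
            (CovZ.leaf K2_ok TV_l2012 _)
            (CovZ.n1 (-40, 3520) (by decide +kernel)
             (CovZ.leaf K2_ok TV_l2013 _)
             (CovZ.leaf K2_ok TV_l2014 _)))
           (CovZ.badM (by decide +kernel))))
         (CovZ.badM (by decide +kernel)))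
        (CovZ.n1 (0, 3360) (by decide +kernel)
         (CovZ.n2 (-80, 3280) (by decide +kernel)
          (CovZ.n2 (-80, 3360) (by decide +kernel)
           (CovZ.n2 (-40, 3320) (by decide +kernel)
            (CovZ.leaf K2_ok TV_l2015 _)
            (CovZ.leaf K2_ok TV_l2016 _))
           (CovZ.n1 (-120, 3320) (by decide +kernel)
            (CovZ.badM (by decide +kernel))
            (CovZ.leaf K2_ok TV_l2017 _)))
          (CovZ.n1 (0, 3280) (by decide +kernel)
           (CovZ.n2 (-40, 3240) (by decide +kernel)
            (CovZ.leaf K2_ok TV_l2018 _)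
            (CovZ.leaf K2_ok TV_l2019 _))
           (CovZ.n1 (-40, 3320) (by decide +kernel)
            (CovZ.leaf K2_ok TV_l2020 _)
            (CovZ.leaf K2_ok TV_l2021 _))))
         (CovZ.n1 (-80, 3440) (by decide +kernel)
          (CovZ.n2 (0, 3440) (by decide +kernel)
           (CovZ.n2 (-40, 3400) (by decide +kernel)
            (CovZ.n2 (-40, 3440) (by decide +kernel)
             (CovZ.leaf K2_ok TV_l2022 _)
             (CovZ.leaf K2_ok TV_l2023 _))
            (CovZ.leaf K2_ok TV_l2024 _))
           (CovZ.n1 (-40, 3480) (by decide +kernel)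
            (CovZ.leaf K2_ok TV_l2025 _)
            (CovZ.leaf K2_ok TV_l2026 _)))
          (CovZ.n1 (-80, 3360) (by decide +kernel)
           (CovZ.badM (by decide +kernel))
           (CovZ.leaf K2_ok TV_l2027 _)))))
       (CovZ.n1 (-160, 3680) (by decide +kernel)
        (CovZ.n2 (0, 3680) (by decide +kernel)
         (CovZ.n2 (-80, 3600) (by decide +kernel)
          (CovZ.n2 (-80, 3680) (by decide +kernel)
           (CovZ.n2 (-40, 3640) (by decide +kernel)
            (CovZ.badM (by decide +kernel))
            (CovZ.n1 (-40, 3680) (by decide +kernel)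
             (CovZ.n2 (-20, 3660) (by decide +kernel)
              (CovZ.badM (by decide +kernel))
              (CovZ.n1 (-20, 3680) (by decide +kernel)
               (CovZ.leaf K2_ok TV_l2028 _)
               (CovZ.badM (by decide +kernel))))
             (CovZ.badM (by decide +kernel))))
           (CovZ.badM (by decide +kernel)))
          (CovZ.n1 (0, 3600) (by decide +kernel)
           (CovZ.n2 (-40, 3560) (by decide +kernel)
            (CovZ.n2 (-40, 3600) (by decide +kernel)
             (CovZ.leaf K2_ok TV_l2029 _)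
             (CovZ.badM (by decide +kernel)))
            (CovZ.n1 (0, 3560) (by decide +kernel)
             (CovZ.leaf K2_ok TV_l2030 _)
             (CovZ.leaf K2_ok TV_l2031 _)))
           (CovZ.n1 (-40, 3640) (by decide +kernel)
            (CovZ.n2 (0, 3640) (by decide +kernel)
             (CovZ.n2 (-20, 3620) (by decide +kernel)
              (CovZ.leaf K2_ok TV_l2032 _)
              (CovZ.leaf K2_ok TV_l2033 _))
             (CovZ.n1 (-20, 3660) (by decide +kernel)
              (CovZ.leaf K2_ok TV_l2034 _)
              (CovZ.leaf K2_ok TV_l2035 _)))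
            (CovZ.n1 (-40, 3600) (by decide +kernel)
             (CovZ.badM (by decide +kernel))
             (CovZ.leaf K2_ok TV_l2036 _)))))
         (CovZ.n1 (-80, 3760) (by decide +kernel)
          (CovZ.n2 (0, 3760) (by decide +kernel)
           (CovZ.n2 (-40, 3720) (by decide +kernel)
            (CovZ.badM (by decide +kernel))
            (CovZ.n1 (0, 3720) (by decide +kernel)
             (CovZ.n2 (-20, 3700) (by decide +kernel)
              (CovZ.n2 (-20, 3720) (by decide +kernel)
               (CovZ.leaf K2_ok TV_l2037 _)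
               (CovZ.badM (by decide +kernel)))
              (CovZ.leaf K2_ok TV_l2038 _))
             (CovZ.n1 (-20, 3740) (by decide +kernel)
              (CovZ.n2 (0, 3740) (by decide +kernel)
               (CovZ.leaf K2_ok TV_l2039 _)
               (CovZ.badM (by decide +kernel)))
              (CovZ.n1 (-20, 3720) (by decide +kernel)
               (CovZ.badM (by decide +kernel))
               (CovZ.leaf K2_ok TV_l2040 _)))))
           (CovZ.badM (by decide +kernel)))
          (CovZ.n1 (-80, 3680) (by decide +kernel)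
           (CovZ.badM (by decide +kernel))
           (CovZ.n1 (-40, 3720) (by decide +kernel)
            (CovZ.n2 (-40, 3680) (by decide +kernel)
             (CovZ.badM (by decide +kernel))
             (CovZ.n1 (-20, 3700) (by decide +kernel)
              (CovZ.leaf K2_ok TV_l2041 _)
              (CovZ.badM (by decide +kernel))))
            (CovZ.badM (by decide +kernel))))))
        (CovZ.n1 (-160, 3520) (by decide +kernel)
         (CovZ.badM (by decide +kernel))
         (CovZ.n1 (-80, 3600) (by decide +kernel)
          (CovZ.n2 (-80, 3520) (by decide +kernel)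
           (CovZ.badM (by decide +kernel))
           (CovZ.n1 (-40, 3560) (by decide +kernel)
            (CovZ.n2 (-40, 3520) (by decide +kernel)
             (CovZ.badM (by decide +kernel))
             (CovZ.leaf K2_ok TV_l2042 _))
            (CovZ.badM (by decide +kernel))))
          (CovZ.badM (by decide +kernel))))))
      (CovZ.n1 (-320, 3200) (by decide +kernel)
       (CovZ.n2 (-480, 3360) (by decide +kernel)
        (CovZ.n2 (-320, 3360) (by decide +kernel)
         (CovZ.n2 (-400, 3280) (by decide +kernel)
          (CovZ.badM (by decide +kernel))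
          (CovZ.n1 (-320, 3280) (by decide +kernel)
           (CovZ.n2 (-360, 3240) (by decide +kernel)
            (CovZ.n2 (-360, 3280) (by decide +kernel)
             (CovZ.n2 (-340, 3260) (by decide +kernel)
              (CovZ.badM (by decide +kernel))
              (CovZ.badM (by decide +kernel)))
             (CovZ.badM (by decide +kernel)))
            (CovZ.n1 (-320, 3240) (by decide +kernel)
             (CovZ.badM (by decide +kernel))
             (CovZ.n1 (-340, 3260) (by decide +kernel)
              (CovZ.n2 (-320, 3260) (by decide +kernel)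
               (CovZ.badM (by decide +kernel))
               (CovZ.badM (by decide +kernel)))
              (CovZ.badM (by decide +kernel)))))
           (CovZ.badM (by decide +kernel))))
         (CovZ.badM (by decide +kernel)))
        (CovZ.badM (by decide +kernel)))
       (CovZ.n1 (-160, 3360) (by decide +kernel)
        (CovZ.n2 (-160, 3200) (by decide +kernel)
         (CovZ.n2 (-240, 3280) (by decide +kernel)
          (CovZ.n2 (-160, 3280) (by decide +kernel)
           (CovZ.n2 (-200, 3240) (by decide +kernel)
            (CovZ.n2 (-200, 3280) (by decide +kernel)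
             (CovZ.leaf K2_ok TV_l2043 _)
             (CovZ.n1 (-220, 3260) (by decide +kernel)
              (CovZ.badM (by decide +kernel))
              (CovZ.leaf K2_ok TV_l2044 _)))
            (CovZ.n1 (-160, 3240) (by decide +kernel)
             (CovZ.leaf K2_ok TV_l2045 _)
             (CovZ.leaf K2_ok TV_l2046 _)))
           (CovZ.badM (by decide +kernel)))
          (CovZ.n1 (-240, 3200) (by decide +kernel)
           (CovZ.n2 (-280, 3240) (by decide +kernel)
            (CovZ.n2 (-240, 3240) (by decide +kernel)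
             (CovZ.n2 (-260, 3220) (by decide +kernel)
              (CovZ.leaf K2_ok TV_l2047 _)
              (CovZ.leaf K2_ok TV_l2048 _))
             (CovZ.n1 (-260, 3260) (by decide +kernel)
              (CovZ.leaf K2_ok TV_l2049 _)
              (CovZ.leaf K2_ok TV_l2050 _)))
            (CovZ.n1 (-280, 3200) (by decide +kernel)
             (CovZ.n2 (-300, 3220) (by decide +kernel)
              (CovZ.leaf K2_ok TV_l2051 _)
              (CovZ.leaf K2_ok TV_l2052 _))
             (CovZ.leaf K2_ok TV_l2053 _)))
           (CovZ.n1 (-200, 3240) (by decide +kernel)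
            (CovZ.leaf K2_ok TV_l2054 _)
            (CovZ.n1 (-240, 3240) (by decide +kernel)
             (CovZ.leaf K2_ok TV_l2055 _)
             (CovZ.leaf K2_ok TV_l2056 _)))))
         (CovZ.n1 (-80, 3280) (by decide +kernel)
          (CovZ.n2 (-80, 3200) (by decide +kernel)
           (CovZ.n2 (-120, 3240) (by decide +kernel)
            (CovZ.leaf K2_ok TV_l2057 _)
            (CovZ.leaf K2_ok TV_l2058 _))
           (CovZ.leaf K2_ok TV_l2059 _))
          (CovZ.n1 (-160, 3280) (by decide +kernel)
           (CovZ.n2 (-120, 3320) (by decide +kernel)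
            (CovZ.leaf K2_ok TV_l2060 _)
            (CovZ.badM (by decide +kernel)))
           (CovZ.n1 (-120, 3240) (by decide +kernel)
            (CovZ.leaf K2_ok TV_l2061 _)
            (CovZ.n1 (-120, 3280) (by decide +kernel)
             (CovZ.leaf K2_ok TV_l2062 _)
             (CovZ.leaf K2_ok TV_l2063 _))))))
        (CovZ.n1 (-320, 3360) (by decide +kernel)
         (CovZ.badM (by decide +kernel))
         (CovZ.n1 (-240, 3280) (by decide +kernel)
          (CovZ.n2 (-320, 3280) (by decide +kernel)
           (CovZ.badM (by decide +kernel))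
           (CovZ.n1 (-280, 3240) (by decide +kernel)
            (CovZ.n2 (-320, 3240) (by decide +kernel)
             (CovZ.n2 (-300, 3260) (by decide +kernel)
              (CovZ.leaf K2_ok TV_l2064 _)
              (CovZ.n1 (-320, 3260) (by decide +kernel)
               (CovZ.badM (by decide +kernel))
               (CovZ.leaf K2_ok TV_l2065 _)))
             (CovZ.n1 (-300, 3220) (by decide +kernel)
              (CovZ.leaf K2_ok TV_l2066 _)
              (CovZ.n1 (-300, 3240) (by decide +kernel)
               (CovZ.leaf K2_ok TV_l2067 _)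
               (CovZ.leaf K2_ok TV_l2068 _))))
            (CovZ.n1 (-280, 3280) (by decide +kernel)
             (CovZ.n2 (-260, 3260) (by decide +kernel)
              (CovZ.leaf K2_ok TV_l2069 _)
              (CovZ.badM (by decide +kernel)))
             (CovZ.n1 (-300, 3260) (by decide +kernel)
              (CovZ.badM (by decide +kernel))
              (CovZ.n1 (-280, 3260) (by decide +kernel)
               (CovZ.leaf K2_ok TV_l2070 _)
               (CovZ.badM (by decide +kernel)))))))
          (CovZ.badM (by decide +kernel))))))))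
    (CovZ.n1 (-640, 2560) (by decide +kernel)
     (CovZ.badM (by decide +kernel))
     (CovZ.n1 (-320, 2880) (by decide +kernel)
      (CovZ.n2 (-320, 2560) (by decide +kernel)
       (CovZ.badM (by decide +kernel))
       (CovZ.n1 (-160, 2720) (by decide +kernel)
        (CovZ.n2 (-160, 2560) (by decide +kernel)
         (CovZ.n2 (-240, 2640) (by decide +kernel)
          (CovZ.n2 (-160, 2640) (by decide +kernel)
           (CovZ.leaf K2_ok TV_l1454 _)
           (CovZ.leaf K2_ok TV_l2071 _))
          (CovZ.n1 (-240, 2560) (by decide +kernel)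
           (CovZ.badM (by decide +kernel))
           (CovZ.leaf K2_ok TV_l1456 _)))
         (CovZ.leaf K2_ok TV_l1457 _))
        (CovZ.n1 (-320, 2720) (by decide +kernel)
         (CovZ.n2 (-240, 2800) (by decide +kernel)
          (CovZ.n2 (-240, 2720) (by decide +kernel)
           (CovZ.badM (by decide +kernel))
           (CovZ.leaf K2_ok TV_l2072 _))
          (CovZ.badM (by decide +kernel)))
         (CovZ.n1 (-240, 2640) (by decide +kernel)
          (CovZ.badM (by decide +kernel))
          (CovZ.n1 (-240, 2720) (by decide +kernel)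
           (CovZ.leaf K2_ok TV_l2073 _)
           (CovZ.badM (by decide +kernel)))))))
      (CovZ.badM (by decide +kernel))))))
    (CovZ.topM TV_LL 6 (by decide +kernel) (CovZ.n0 (-640, 3200) (by decide +kernel)
    (CovZ.badM (by decide +kernel))
    (CovZ.n1 (-640, 3840) (by decide +kernel)
     (CovZ.n2 (-320, 3520) (by decide +kernel)
      (CovZ.n2 (-640, 3520) (by decide +kernel)
       (CovZ.badM (by decide +kernel))
       (CovZ.n1 (-480, 3360) (by decide +kernel)
        (CovZ.badM (by decide +kernel))
        (CovZ.badM (by decide +kernel))))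
      (CovZ.badM (by decide +kernel)))
     (CovZ.badM (by decide +kernel)))))

theorem TV_s5_7 : SqZ TV_M TV_L [0, 7, 4, 3] (-6400) (-6400) 1280 5 7 :=
  SqZ.mk (a := 0) (b := 1280) (c := 2560) (d := 3840) (by norm_num) (by norm_num) (by norm_num) (by norm_num)
    (CovZ.topM TV_LL 70 (by decide +kernel) (CovZ.n2 (640, 3200) (by decide +kernel)
    (CovZ.n2 (1280, 3200) (by decide +kernel)
     (CovZ.n2 (960, 2880) (by decide +kernel)
      (CovZ.badM (by decide +kernel))
      (CovZ.n1 (1280, 2880) (by decide +kernel)
       (CovZ.n2 (1120, 2720) (by decide +kernel)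
        (CovZ.badM (by decide +kernel))
        (CovZ.n1 (1280, 2720) (by decide +kernel)
         (CovZ.n2 (1200, 2640) (by decide +kernel)
          (CovZ.n2 (1200, 2720) (by decide +kernel)
           (CovZ.n2 (1240, 2680) (by decide +kernel)
            (CovZ.n2 (1200, 2680) (by decide +kernel)
             (CovZ.badM (by decide +kernel))
             (CovZ.n1 (1220, 2660) (by decide +kernel)
              (CovZ.leaf K2_ok TV_l2093 _)
              (CovZ.n1 (1220, 2680) (by decide +kernel)
               (CovZ.leaf K2_ok TV_l2094 _)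
               (CovZ.leaf K2_ok TV_l2095 _))))
            (CovZ.badM (by decide +kernel)))
           (CovZ.n1 (1160, 2680) (by decide +kernel)
            (CovZ.n2 (1160, 2720) (by decide +kernel)
             (CovZ.n2 (1180, 2700) (by decide +kernel)
              (CovZ.leaf K2_ok TV_l2096 _)
              (CovZ.badM (by decide +kernel)))
             (CovZ.leaf K2_ok TV_l2097 _))
            (CovZ.n1 (1200, 2680) (by decide +kernel)
             (CovZ.n2 (1180, 2660) (by decide +kernel)
              (CovZ.leaf K2_ok TV_l2098 _)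
              (CovZ.leaf K2_ok TV_l2099 _))
             (CovZ.n1 (1180, 2700) (by decide +kernel)
              (CovZ.badM (by decide +kernel))
              (CovZ.leaf K2_ok TV_l2100 _)))))
          (CovZ.n1 (1280, 2640) (by decide +kernel)
           (CovZ.n2 (1240, 2600) (by decide +kernel)
            (CovZ.n2 (1240, 2640) (by decide +kernel)
             (CovZ.badM (by decide +kernel))
             (CovZ.n1 (1220, 2620) (by decide +kernel)
              (CovZ.leaf K2_ok TV_l2101 _)
              (CovZ.leaf K2_ok TV_l2102 _)))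
            (CovZ.badM (by decide +kernel)))
           (CovZ.n1 (1240, 2680) (by decide +kernel)
            (CovZ.badM (by decide +kernel))
            (CovZ.n1 (1240, 2640) (by decide +kernel)
             (CovZ.n2 (1220, 2660) (by decide +kernel)
              (CovZ.n2 (1240, 2660) (by decide +kernel)
               (CovZ.leaf K2_ok TV_l2103 _)
               (CovZ.leaf K2_ok TV_l2104 _))
              (CovZ.leaf K2_ok TV_l2105 _))
             (CovZ.badM (by decide +kernel))))))
         (CovZ.badM (by decide +kernel))))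
       (CovZ.badM (by decide +kernel))))
     (CovZ.badM (by decide +kernel)))
    (CovZ.n1 (640, 2560) (by decide +kernel)
     (CovZ.n2 (320, 2880) (by decide +kernel)
      (CovZ.n2 (640, 2880) (by decide +kernel)
       (CovZ.n2 (480, 2720) (by decide +kernel)
        (CovZ.n2 (480, 2880) (by decide +kernel)
         (CovZ.n2 (560, 2800) (by decide +kernel)
          (CovZ.leaf K2_ok TV_l1526 _)
          (CovZ.n1 (560, 2880) (by decide +kernel)
           (CovZ.leaf K2_ok TV_l1527 _)
           (CovZ.leaf K2_ok TV_l1528 _)))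
         (CovZ.n1 (400, 2800) (by decide +kernel)
          (CovZ.n2 (400, 2880) (by decide +kernel)
           (CovZ.leaf K2_ok TV_l1529 _)
           (CovZ.leaf K2_ok TV_l1530 _))
          (CovZ.leaf K2_ok TV_l1531 _)))
        (CovZ.n1 (640, 2720) (by decide +kernel)
         (CovZ.n2 (560, 2640) (by decide +kernel)
          (CovZ.leaf K2_ok TV_l1532 _)
          (CovZ.leaf K2_ok TV_l1533 _))
         (CovZ.n1 (560, 2800) (by decide +kernel)
          (CovZ.leaf K2_ok TV_l1534 _)
          (CovZ.leaf K2_ok TV_l1535 _))))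
       (CovZ.n1 (480, 3040) (by decide +kernel)
        (CovZ.n2 (640, 3040) (by decide +kernel)
         (CovZ.n2 (560, 2960) (by decide +kernel)
          (CovZ.n2 (560, 3040) (by decide +kernel)
           (CovZ.n2 (600, 3000) (by decide +kernel)
            (CovZ.leaf K2_ok TV_l2106 _)
            (CovZ.n1 (600, 3040) (by decide +kernel)
             (CovZ.leaf K2_ok TV_l2107 _)
             (CovZ.leaf K2_ok TV_l2108 _)))
           (CovZ.n1 (520, 3000) (by decide +kernel)
            (CovZ.leaf K2_ok TV_l2109 _)
            (CovZ.leaf K2_ok TV_l2110 _)))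
          (CovZ.n1 (640, 2960) (by decide +kernel)
           (CovZ.n2 (600, 2920) (by decide +kernel)
            (CovZ.leaf K2_ok TV_l2111 _)
            (CovZ.leaf K2_ok TV_l2112 _))
           (CovZ.n1 (600, 3000) (by decide +kernel)
            (CovZ.leaf K2_ok TV_l2113 _)
            (CovZ.leaf K2_ok TV_l2114 _))))
         (CovZ.n1 (560, 3120) (by decide +kernel)
          (CovZ.badM (by decide +kernel))
          (CovZ.n1 (560, 3040) (by decide +kernel)
           (CovZ.n2 (520, 3080) (by decide +kernel)
            (CovZ.n2 (560, 3080) (by decide +kernel)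
             (CovZ.n2 (540, 3060) (by decide +kernel)
              (CovZ.leaf K2_ok TV_l2115 _)
              (CovZ.leaf K2_ok TV_l2116 _))
             (CovZ.n1 (540, 3100) (by decide +kernel)
              (CovZ.leaf K2_ok TV_l2117 _)
              (CovZ.leaf K2_ok TV_l2118 _)))
            (CovZ.leaf K2_ok TV_l2119 _))
           (CovZ.n1 (600, 3080) (by decide +kernel)
            (CovZ.leaf K2_ok TV_l2120 _)
            (CovZ.n1 (560, 3080) (by decide +kernel)
             (CovZ.leaf K2_ok TV_l2121 _)
             (CovZ.leaf K2_ok TV_l2122 _))))))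
        (CovZ.n1 (480, 2880) (by decide +kernel)
         (CovZ.n2 (400, 2960) (by decide +kernel)
          (CovZ.n2 (480, 2960) (by decide +kernel)
           (CovZ.n2 (440, 2920) (by decide +kernel)
            (CovZ.leaf K2_ok TV_l1536 _)
            (CovZ.leaf K2_ok TV_l1537 _))
           (CovZ.n1 (440, 3000) (by decide +kernel)
            (CovZ.leaf K2_ok TV_l1538 _)
            (CovZ.leaf K2_ok TV_l1539 _)))
          (CovZ.leaf K2_ok TV_l1540 _))
         (CovZ.n1 (560, 2960) (by decide +kernel)
          (CovZ.leaf K2_ok TV_l1541 _)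
          (CovZ.n1 (480, 2960) (by decide +kernel)
           (CovZ.leaf K2_ok TV_l1542 _)
           (CovZ.leaf K2_ok TV_l1543 _))))))
      (CovZ.n1 (320, 2560) (by decide +kernel)
       (CovZ.n2 (160, 2720) (by decide +kernel)
        (CovZ.n2 (320, 2720) (by decide +kernel)
         (CovZ.n2 (240, 2640) (by decide +kernel)
          (CovZ.leaf K2_ok TV_l1544 _)
          (CovZ.leaf K2_ok TV_l1545 _))
         (CovZ.n1 (240, 2800) (by decide +kernel)
          (CovZ.leaf K2_ok TV_l1546 _)
          (CovZ.leaf K2_ok TV_l1547 _)))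
        (CovZ.leaf K2_ok TV_l1548 _))
       (CovZ.n1 (480, 2720) (by decide +kernel)
        (CovZ.leaf K2_ok TV_l1549 _)
        (CovZ.n1 (320, 2720) (by decide +kernel)
         (CovZ.leaf K2_ok TV_l1550 _)
         (CovZ.leaf K2_ok TV_l1551 _)))))
     (CovZ.n1 (960, 2880) (by decide +kernel)
      (CovZ.n2 (960, 2560) (by decide +kernel)
       (CovZ.n2 (800, 2720) (by decide +kernel)
        (CovZ.n2 (960, 2720) (by decide +kernel)
         (CovZ.n2 (880, 2640) (by decide +kernel)
          (CovZ.leaf K2_ok TV_l2123 _)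
          (CovZ.leaf K2_ok TV_l2124 _))
         (CovZ.n1 (880, 2800) (by decide +kernel)
          (CovZ.badM (by decide +kernel))
          (CovZ.leaf K2_ok TV_l2125 _)))
        (CovZ.n1 (800, 2560) (by decide +kernel)
         (CovZ.leaf K2_ok TV_l1552 _)
         (CovZ.leaf K2_ok TV_l1553 _)))
       (CovZ.n1 (1120, 2720) (by decide +kernel)
        (CovZ.n2 (1120, 2560) (by decide +kernel)
         (CovZ.n2 (1040, 2640) (by decide +kernel)
          (CovZ.n2 (1120, 2640) (by decide +kernel)
           (CovZ.n2 (1080, 2600) (by decide +kernel)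
            (CovZ.leaf K2_ok TV_l2126 _)
            (CovZ.leaf K2_ok TV_l2127 _))
           (CovZ.leaf K2_ok TV_l2128 _))
          (CovZ.leaf K2_ok TV_l2129 _))
         (CovZ.n1 (1200, 2640) (by decide +kernel)
          (CovZ.n2 (1200, 2560) (by decide +kernel)
           (CovZ.n2 (1160, 2600) (by decide +kernel)
            (CovZ.n2 (1200, 2600) (by decide +kernel)
             (CovZ.leaf K2_ok TV_l2130 _)
             (CovZ.leaf K2_ok TV_l2131 _))
            (CovZ.leaf K2_ok TV_l2132 _))
           (CovZ.n1 (1240, 2600) (by decide +kernel)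
            (CovZ.leaf K2_ok TV_l2133 _)
            (CovZ.leaf K2_ok TV_l2134 _)))
          (CovZ.n1 (1120, 2640) (by decide +kernel)
           (CovZ.n2 (1160, 2680) (by decide +kernel)
            (CovZ.leaf K2_ok TV_l2135 _)
            (CovZ.n1 (1120, 2680) (by decide +kernel)
             (CovZ.leaf K2_ok TV_l2136 _)
             (CovZ.leaf K2_ok TV_l2137 _)))
           (CovZ.n1 (1160, 2600) (by decide +kernel)
            (CovZ.leaf K2_ok TV_l2138 _)
            (CovZ.leaf K2_ok TV_l2139 _)))))
        (CovZ.n1 (960, 2720) (by decide +kernel)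
         (CovZ.badM (by decide +kernel))
         (CovZ.n1 (1040, 2640) (by decide +kernel)
          (CovZ.leaf K2_ok TV_l2140 _)
          (CovZ.leaf K2_ok TV_l2141 _)))))
      (CovZ.n1 (640, 2880) (by decide +kernel)
       (CovZ.n2 (800, 3040) (by decide +kernel)
        (CovZ.n2 (800, 2880) (by decide +kernel)
         (CovZ.n2 (720, 2960) (by decide +kernel)
          (CovZ.badM (by decide +kernel))
          (CovZ.n1 (720, 2880) (by decide +kernel)
           (CovZ.leaf K2_ok TV_l2142 _)
           (CovZ.leaf K2_ok TV_l2143 _)))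
         (CovZ.badM (by decide +kernel)))
        (CovZ.n1 (640, 3040) (by decide +kernel)
         (CovZ.badM (by decide +kernel))
         (CovZ.n1 (720, 2960) (by decide +kernel)
          (CovZ.n2 (640, 2960) (by decide +kernel)
           (CovZ.n2 (680, 3000) (by decide +kernel)
            (CovZ.leaf K2_ok TV_l2144 _)
            (CovZ.leaf K2_ok TV_l2145 _))
           (CovZ.leaf K2_ok TV_l2146 _))
          (CovZ.badM (by decide +kernel)))))
       (CovZ.n1 (800, 2720) (by decide +kernel)
        (CovZ.n2 (640, 2720) (by decide +kernel)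
         (CovZ.n2 (720, 2800) (by decide +kernel)
          (CovZ.leaf K2_ok TV_l1554 _)
          (CovZ.leaf K2_ok TV_l1555 _))
         (CovZ.n1 (720, 2640) (by decide +kernel)
          (CovZ.leaf K2_ok TV_l1556 _)
          (CovZ.leaf K2_ok TV_l1557 _)))
        (CovZ.n1 (800, 2880) (by decide +kernel)
         (CovZ.n2 (880, 2800) (by decide +kernel)
          (CovZ.n2 (800, 2800) (by decide +kernel)
           (CovZ.leaf K2_ok TV_l2147 _)
           (CovZ.leaf K2_ok TV_l2148 _))
          (CovZ.badM (by decide +kernel)))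
         (CovZ.n1 (720, 2800) (by decide +kernel)
          (CovZ.n2 (720, 2880) (by decide +kernel)
           (CovZ.leaf K2_ok TV_l2149 _)
           (CovZ.leaf K2_ok TV_l2150 _))
          (CovZ.n1 (800, 2800) (by decide +kernel)
           (CovZ.leaf K2_ok TV_l2151 _)
           (CovZ.leaf K2_ok TV_l2152 _))))))))))
    (CovZ.topM TV_LL 70 (by decide +kernel) (CovZ.n0 (640, 3200) (by decide +kernel)
    (CovZ.n2 (0, 3200) (by decide +kernel)
     (CovZ.n2 (320, 3520) (by decide +kernel)
      TV_u12
      TV_u13)
     (CovZ.n1 (320, 2880) (by decide +kernel)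
      (CovZ.n2 (0, 2880) (by decide +kernel)
       (CovZ.n2 (160, 3040) (by decide +kernel)
        (CovZ.n2 (160, 2880) (by decide +kernel)
         (CovZ.n2 (80, 2960) (by decide +kernel)
          (CovZ.n2 (160, 2960) (by decide +kernel)
           (CovZ.leaf K2_ok TV_l2310 _)
           (CovZ.leaf K2_ok TV_l2311 _))
          (CovZ.leaf K2_ok TV_l2312 _))
         (CovZ.n1 (240, 2960) (by decide +kernel)
          (CovZ.n2 (240, 2880) (by decide +kernel)
           (CovZ.n2 (200, 2920) (by decide +kernel)
            (CovZ.leaf K2_ok TV_l2313 _)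
            (CovZ.leaf K2_ok TV_l2314 _))
           (CovZ.leaf K2_ok TV_l1558 _))
          (CovZ.n1 (160, 2960) (by decide +kernel)
           (CovZ.leaf K2_ok TV_l2315 _)
           (CovZ.n1 (200, 2920) (by decide +kernel)
            (CovZ.leaf K2_ok TV_l2316 _)
            (CovZ.leaf K2_ok TV_l2317 _)))))
        (CovZ.n1 (0, 3040) (by decide +kernel)
         (CovZ.n2 (80, 3120) (by decide +kernel)
          (CovZ.n2 (80, 3040) (by decide +kernel)
           (CovZ.leaf K2_ok TV_l2318 _)
           (CovZ.leaf K2_ok TV_l2319 _))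
          (CovZ.n1 (0, 3120) (by decide +kernel)
           (CovZ.leaf K2_ok TV_l2320 _)
           (CovZ.leaf K2_ok TV_l2321 _)))
         (CovZ.n1 (80, 2960) (by decide +kernel)
          (CovZ.leaf K2_ok TV_l2322 _)
          (CovZ.n1 (80, 3040) (by decide +kernel)
           (CovZ.leaf K2_ok TV_l2323 _)
           (CovZ.leaf K2_ok TV_l2324 _)))))
       (CovZ.n1 (160, 2720) (by decide +kernel)
        (CovZ.n2 (0, 2720) (by decide +kernel)
         (CovZ.leaf K2_ok TV_l1559 _)
         (CovZ.leaf K2_ok TV_l1560 _))
        (CovZ.n1 (160, 2880) (by decide +kernel)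
         (CovZ.n2 (240, 2800) (by decide +kernel)
          (CovZ.n2 (160, 2800) (by decide +kernel)
           (CovZ.leaf K2_ok TV_l1561 _)
           (CovZ.leaf K2_ok TV_l1562 _))
          (CovZ.n1 (240, 2880) (by decide +kernel)
           (CovZ.leaf K2_ok TV_l1563 _)
           (CovZ.n1 (200, 2840) (by decide +kernel)
            (CovZ.leaf K2_ok TV_l2325 _)
            (CovZ.leaf K2_ok TV_l1564 _))))
         (CovZ.n1 (80, 2800) (by decide +kernel)
          (CovZ.leaf K2_ok TV_l2326 _)
          (CovZ.leaf K2_ok TV_l1565 _)))))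
      (CovZ.n1 (320, 3200) (by decide +kernel)
       (CovZ.n2 (480, 3040) (by decide +kernel)
        (CovZ.n2 (320, 3040) (by decide +kernel)
         (CovZ.n2 (400, 3120) (by decide +kernel)
          (CovZ.n2 (400, 3040) (by decide +kernel)
           (CovZ.n2 (360, 3080) (by decide +kernel)
            (CovZ.leaf K2_ok TV_l2327 _)
            (CovZ.leaf K2_ok TV_l2328 _))
           (CovZ.leaf K2_ok TV_l1566 _))
          (CovZ.n1 (320, 3120) (by decide +kernel)
           (CovZ.leaf K2_ok TV_l2329 _)
           (CovZ.n1 (360, 3080) (by decide +kernel)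
            (CovZ.leaf K2_ok TV_l2330 _)
            (CovZ.leaf K2_ok TV_l2331 _))))
         (CovZ.n1 (400, 2960) (by decide +kernel)
          (CovZ.n2 (320, 2960) (by decide +kernel)
           (CovZ.leaf K2_ok TV_l1567 _)
           (CovZ.n1 (360, 2920) (by decide +kernel)
            (CovZ.leaf K2_ok TV_l1568 _)
            (CovZ.leaf K2_ok TV_l1569 _)))
          (CovZ.n1 (400, 3040) (by decide +kernel)
           (CovZ.n2 (440, 3000) (by decide +kernel)
            (CovZ.leaf K2_ok TV_l1570 _)
            (CovZ.leaf K2_ok TV_l1571 _))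
           (CovZ.n1 (360, 3000) (by decide +kernel)
            (CovZ.leaf K2_ok TV_l2332 _)
            (CovZ.leaf K2_ok TV_l1572 _)))))
        (CovZ.n1 (480, 3200) (by decide +kernel)
         (CovZ.n2 (560, 3120) (by decide +kernel)
          (CovZ.n2 (480, 3120) (by decide +kernel)
           (CovZ.n2 (520, 3160) (by decide +kernel)
            (CovZ.n2 (520, 3120) (by decide +kernel)
             (CovZ.n2 (500, 3140) (by decide +kernel)
              (CovZ.n2 (520, 3140) (by decide +kernel)
               (CovZ.leaf K2_ok TV_l2333 _)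
               (CovZ.leaf K2_ok TV_l2334 _))
              (CovZ.leaf K2_ok TV_l2335 _))
             (CovZ.n1 (540, 3140) (by decide +kernel)
              (CovZ.leaf K2_ok TV_l2336 _)
              (CovZ.n1 (520, 3140) (by decide +kernel)
               (CovZ.leaf K2_ok TV_l2337 _)
               (CovZ.leaf K2_ok TV_l2338 _))))
            (CovZ.n1 (480, 3160) (by decide +kernel)
             (CovZ.n2 (500, 3180) (by decide +kernel)
              (CovZ.leaf K2_ok TV_l2339 _)
              (CovZ.leaf K2_ok TV_l2340 _))
             (CovZ.n1 (500, 3140) (by decide +kernel)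
              (CovZ.leaf K2_ok TV_l2341 _)
              (CovZ.leaf K2_ok TV_l2342 _))))
           (CovZ.n1 (520, 3080) (by decide +kernel)
            (CovZ.n2 (480, 3080) (by decide +kernel)
             (CovZ.leaf K2_ok TV_l2343 _)
             (CovZ.leaf K2_ok TV_l2344 _))
            (CovZ.n1 (520, 3120) (by decide +kernel)
             (CovZ.n2 (540, 3100) (by decide +kernel)
              (CovZ.leaf K2_ok TV_l2345 _)
              (CovZ.leaf K2_ok TV_l2346 _))
             (CovZ.n1 (500, 3100) (by decide +kernel)
              (CovZ.leaf K2_ok TV_l2347 _)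
              (CovZ.leaf K2_ok TV_l2348 _)))))
          (CovZ.badM (by decide +kernel)))
         (CovZ.n1 (400, 3120) (by decide +kernel)
          (CovZ.n2 (400, 3200) (by decide +kernel)
           (CovZ.n2 (440, 3160) (by decide +kernel)
            (CovZ.leaf K2_ok TV_l2349 _)
            (CovZ.n1 (440, 3200) (by decide +kernel)
             (CovZ.leaf K2_ok TV_l2350 _)
             (CovZ.leaf K2_ok TV_l2351 _)))
           (CovZ.n1 (360, 3160) (by decide +kernel)
            (CovZ.n2 (360, 3200) (by decide +kernel)
             (CovZ.leaf K2_ok TV_l2352 _)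
             (CovZ.leaf K2_ok TV_l2353 _))
            (CovZ.n1 (400, 3160) (by decide +kernel)
             (CovZ.leaf K2_ok TV_l2354 _)
             (CovZ.leaf K2_ok TV_l2355 _))))
          (CovZ.n1 (480, 3120) (by decide +kernel)
           (CovZ.n2 (440, 3080) (by decide +kernel)
            (CovZ.leaf K2_ok TV_l2356 _)
            (CovZ.n1 (480, 3080) (by decide +kernel)
             (CovZ.leaf K2_ok TV_l2357 _)
             (CovZ.leaf K2_ok TV_l2358 _)))
           (CovZ.n1 (440, 3160) (by decide +kernel)
            (CovZ.n2 (480, 3160) (by decide +kernel)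
             (CovZ.leaf K2_ok TV_l2359 _)
             (CovZ.leaf K2_ok TV_l2360 _))
            (CovZ.leaf K2_ok TV_l2361 _))))))
       (CovZ.n1 (160, 3040) (by decide +kernel)
        (CovZ.n2 (160, 3200) (by decide +kernel)
         (CovZ.n2 (240, 3120) (by decide +kernel)
          (CovZ.n2 (160, 3120) (by decide +kernel)
           (CovZ.leaf K2_ok TV_l2362 _)
           (CovZ.n1 (200, 3080) (by decide +kernel)
            (CovZ.leaf K2_ok TV_l2363 _)
            (CovZ.leaf K2_ok TV_l2364 _)))
          (CovZ.n1 (240, 3200) (by decide +kernel)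
           (CovZ.n2 (280, 3160) (by decide +kernel)
            (CovZ.leaf K2_ok TV_l2365 _)
            (CovZ.leaf K2_ok TV_l2366 _))
           (CovZ.n1 (200, 3160) (by decide +kernel)
            (CovZ.leaf K2_ok TV_l2367 _)
            (CovZ.leaf K2_ok TV_l2368 _))))
         (CovZ.n1 (80, 3120) (by decide +kernel)
          (CovZ.n2 (80, 3200) (by decide +kernel)
           (CovZ.n2 (120, 3160) (by decide +kernel)
            (CovZ.leaf K2_ok TV_l2369 _)
            (CovZ.leaf K2_ok TV_l2370 _))
           (CovZ.n1 (40, 3160) (by decide +kernel)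
            (CovZ.leaf K2_ok TV_l2371 _)
            (CovZ.leaf K2_ok TV_l2372 _)))
          (CovZ.n1 (160, 3120) (by decide +kernel)
           (CovZ.n2 (120, 3080) (by decide +kernel)
            (CovZ.leaf K2_ok TV_l2373 _)
            (CovZ.leaf K2_ok TV_l2374 _))
           (CovZ.n1 (120, 3160) (by decide +kernel)
            (CovZ.leaf K2_ok TV_l2375 _)
            (CovZ.leaf K2_ok TV_l2376 _)))))
        (CovZ.n1 (320, 3040) (by decide +kernel)
         (CovZ.n2 (240, 2960) (by decide +kernel)
          (CovZ.n2 (240, 3040) (by decide +kernel)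
           (CovZ.n2 (280, 3000) (by decide +kernel)
            (CovZ.leaf K2_ok TV_l2377 _)
            (CovZ.leaf K2_ok TV_l2378 _))
           (CovZ.n1 (200, 3000) (by decide +kernel)
            (CovZ.leaf K2_ok TV_l2379 _)
            (CovZ.leaf K2_ok TV_l2380 _)))
          (CovZ.n1 (320, 2960) (by decide +kernel)
           (CovZ.n2 (280, 2920) (by decide +kernel)
            (CovZ.leaf K2_ok TV_l2381 _)
            (CovZ.leaf K2_ok TV_l1573 _))
           (CovZ.n1 (280, 3000) (by decide +kernel)
            (CovZ.leaf K2_ok TV_l2382 _)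
            (CovZ.leaf K2_ok TV_l2383 _))))
         (CovZ.n1 (240, 3120) (by decide +kernel)
          (CovZ.n2 (320, 3120) (by decide +kernel)
           (CovZ.n2 (280, 3080) (by decide +kernel)
            (CovZ.leaf K2_ok TV_l2384 _)
            (CovZ.leaf K2_ok TV_l2385 _))
           (CovZ.n1 (280, 3160) (by decide +kernel)
            (CovZ.leaf K2_ok TV_l2386 _)
            (CovZ.leaf K2_ok TV_l2387 _)))
          (CovZ.n1 (240, 3040) (by decide +kernel)
           (CovZ.n2 (200, 3080) (by decide +kernel)
            (CovZ.leaf K2_ok TV_l2388 _)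
            (CovZ.leaf K2_ok TV_l2389 _))
           (CovZ.leaf K2_ok TV_l2390 _))))))))
    (CovZ.badM (by decide +kernel))))

theorem TV_s6_7 : SqZ TV_M TV_L [0, 7, 4, 3] (-6400) (-6400) 1280 6 7 :=
  SqZ.mk (a := 1280) (b := 2560) (c := 2560) (d := 3840) (by norm_num) (by norm_num) (by norm_num) (by norm_num)
    (CovZ.topM TV_LL 0 (by decide +kernel) (CovZ.badM (by decide +kernel)))
    (CovZ.topM TV_LL 0 (by decide +kernel) (CovZ.badM (by decide +kernel)))

theorem TV_s7_7 : SqZ TV_M TV_L [0, 7, 4, 3] (-6400) (-6400) 1280 7 7 :=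
  SqZ.mk (a := 2560) (b := 3840) (c := 2560) (d := 3840) (by norm_num) (by norm_num) (by norm_num) (by norm_num)
    (CovZ.topM TV_LL 0 (by decide +kernel) (CovZ.badM (by decide +kernel)))
    (CovZ.topM TV_LL 0 (by decide +kernel) (CovZ.badM (by decide +kernel)))

theorem TV_s8_7 : SqZ TV_M TV_L [0, 7, 4, 3] (-6400) (-6400) 1280 8 7 :=
  SqZ.mk (a := 3840) (b := 5120) (c := 2560) (d := 3840) (by norm_num) (by norm_num) (by norm_num) (by norm_num)
    (CovZ.topM TV_LL 0 (by decide +kernel) (CovZ.badM (by decide +kernel)))
    (CovZ.topM TV_LL 0 (by decide +kernel) (CovZ.badM (by decide +kernel)))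

end Pool.Agent.TET
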