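import Pool.Agent.Helper38_TET.RegZ
import Pool.Agent.Helper38_TET.TV_S0
import Pool.Agent.Helper38_TET.TV_S1

/-!
# MP_c7c9bf_co: certificates, family TV
-/

set_option autoImplicit false
set_option maxRecDepth 100000

namespace Pool.Agent.TET

theorem TV_r0 : ∀ i < 9, SqZ TV_M TV_L [0, 7, 4, 3] (-6400) (-6400) 1280 i 0
  | 0, _ => TV_s0_0
  | 1, _ => TV_s1_0
  | 2, _ => TV_s2_0
  | 3, _ => TV_s3_0
  | 4, _ => TV_s4_0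
  | 5, _ => TV_s5_0
  | 6, _ => TV_s6_0
  | 7, _ => TV_s7_0
  | 8, _ => TV_s8_0
  | n + 9, h => absurd h (by omega)

theorem TV_r1 : ∀ i < 9, SqZ TV_M TV_L [0, 7, 4, 3] (-6400) (-6400) 1280 i 1
  | 0, _ => TV_s0_1
  | 1, _ => TV_s1_1
  | 2, _ => TV_s2_1
  | 3, _ => TV_s3_1
  | 4, _ => TV_s4_1
  | 5, _ => TV_s5_1
  | 6, _ => TV_s6_1
  | 7, _ => TV_s7_1
  | 8, _ => TV_s8_1
  | n + 9, h => absurd h (by omega)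

theorem TV_r2 : ∀ i < 9, SqZ TV_M TV_L [0, 7, 4, 3] (-6400) (-6400) 1280 i 2
  | 0, _ => TV_s0_2
  | 1, _ => TV_s1_2
  | 2, _ => TV_s2_2
  | 3, _ => TV_s3_2
  | 4, _ => TV_s4_2
  | 5, _ => TV_s5_2
  | 6, _ => TV_s6_2
  | 7, _ => TV_s7_2
  | 8, _ => TV_s8_2
  | n + 9, h => absurd h (by omega)

theorem TV_r3 : ∀ i < 9, SqZ TV_M TV_L [0, 7, 4, 3] (-6400) (-6400) 1280 i 3
  | 0, _ => TV_s0_3
  | 1, _ => TV_s1_3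
  | 2, _ => TV_s2_3
  | 3, _ => TV_s3_3
  | 4, _ => TV_s4_3
  | 5, _ => TV_s5_3
  | 6, _ => TV_s6_3
  | 7, _ => TV_s7_3
  | 8, _ => TV_s8_3
  | n + 9, h => absurd h (by omega)

theorem TV_r4 : ∀ i < 9, SqZ TV_M TV_L [0, 7, 4, 3] (-6400) (-6400) 1280 i 4
  | 0, _ => TV_s0_4
  | 1, _ => TV_s1_4
  | 2, _ => TV_s2_4
  | 3, _ => TV_s3_4
  | 4, _ => TV_s4_4
  | 5, _ => TV_s5_4
  | 6, _ => TV_s6_4
  | 7, _ => TV_s7_4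
  | 8, _ => TV_s8_4
  | n + 9, h => absurd h (by omega)

theorem TV_r5 : ∀ i < 9, SqZ TV_M TV_L [0, 7, 4, 3] (-6400) (-6400) 1280 i 5
  | 0, _ => TV_s0_5
  | 1, _ => TV_s1_5
  | 2, _ => TV_s2_5
  | 3, _ => TV_s3_5
  | 4, _ => TV_s4_5
  | 5, _ => TV_s5_5
  | 6, _ => TV_s6_5
  | 7, _ => TV_s7_5
  | 8, _ => TV_s8_5
  | n + 9, h => absurd h (by omega)

theorem TV_r6 : ∀ i < 9, SqZ TV_M TV_L [0, 7, 4, 3] (-6400) (-6400) 1280 i 6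
  | 0, _ => TV_s0_6
  | 1, _ => TV_s1_6
  | 2, _ => TV_s2_6
  | 3, _ => TV_s3_6
  | 4, _ => TV_s4_6
  | 5, _ => TV_s5_6
  | 6, _ => TV_s6_6
  | 7, _ => TV_s7_6
  | 8, _ => TV_s8_6
  | n + 9, h => absurd h (by omega)

theorem TV_r7 : ∀ i < 9, SqZ TV_M TV_L [0, 7, 4, 3] (-6400) (-6400) 1280 i 7
  | 0, _ => TV_s0_7
  | 1, _ => TV_s1_7
  | 2, _ => TV_s2_7
  | 3, _ => TV_s3_7
  | 4, _ => TV_s4_7
  | 5, _ => TV_s5_7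
  | 6, _ => TV_s6_7
  | 7, _ => TV_s7_7
  | 8, _ => TV_s8_7
  | n + 9, h => absurd h (by omega)

theorem TV_rows : ∀ j < 8, ∀ i < 9, SqZ TV_M TV_L [0, 7, 4, 3] (-6400) (-6400) 1280 i j
  | 0, _ => TV_r0
  | 1, _ => TV_r1
  | 2, _ => TV_r2
  | 3, _ => TV_r3
  | 4, _ => TV_r4
  | 5, _ => TV_r5
  | 6, _ => TV_r6
  | 7, _ => TV_r7
  | n + 8, h => absurd h (by omega)

theorem TV_cov (X Y : ℝ) (h1 : ((-6400 : ℤ) : ℝ) ≤ X) (h2 : X ≤ (5120 : ℤ)) (h3 : ((-6400 : ℤ) : ℝ) ≤ Y)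
    (h4 : Y ≤ (3840 : ℤ)) : Out TV_L X Y ∨ GoodV [0, 7, 4, 3] (TV_M.v X Y) := by
  push_cast at h1 h2 h3 h4
  refine gridZ (by norm_num) (by norm_num) (by norm_num) TV_rows ?_ ?_ ?_ ?_ <;> push_cast <;> linarith

theorem TV_fr (x y : ℝ) : VV ((-1 : ℤ) : ℝ) ((-1 : ℤ) : ℝ) ((2 : ℤ) : ℝ) x y =
    TV_M.v (30720 * x / (2 : ℤ)) (30720 * y / (2 : ℤ)) := by
  funext i j
  fin_cases i <;> fin_cases j <;> simp [VV, FM.v, Z3.ev, TV_M] <;> ring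

end Pool.Agent.TET
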