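import Pool.Agent.Helper38_TET.TV_C

/-!
# MP_c7c9bf_co: certificates, family TV
-/

set_option autoImplicit false
set_option maxRecDepth 100000

namespace Pool.Agent.TET

theorem TV_rg0 : ROK [.q ⟨0, -1, -1, 2⟩ ⟨-4164, 2469, -1361, 3056⟩, .q ⟨0, -1, -1, 2⟩ ⟨-1414, 247, 247, 920⟩, .q ⟨0, -1, -1, 2⟩ ⟨-920, -3016, 2566, 1370⟩, .q ⟨0, -1, -1, 2⟩ ⟨4000, -3411, 589, -1178⟩, .q ⟨0, -1, -1, 2⟩ ⟨1343, 732, -1757, -318⟩] := by
  refine rok_v (v := ⟨0, -1, -1, 2⟩) (by decide) (by decide) (k := 2) (by decide) (Q := [(3997, 167, 1528), (707, 707, 460), (-2331, 3251, 685), (-4000, 0, -589), (573, -1916, -159)])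
    (P := [⟨46940160, 7994, 334⟩, ⟨14131200, 1414, 1414⟩, ⟨21043200, -4662, 6502⟩, ⟨-18094080, -8000, 0⟩, ⟨-4884480, 1146, -3832⟩]) rfl rfl
    (List.mem_of_getElem? (i := 0) rfl) TV_fr TV_cov ?_
  · intro X Y h
    simp only [List.forall_mem_cons, List.not_mem_nil, false_imp_iff, implies_true, and_true] at h
    push_cast at h ⊢
    obtain ⟨h0, h1, h2, h3, h4⟩ := h
    refine ⟨⟨?_, ?_⟩, ?_, ?_⟩ <;> linarith

theorem TV_rg1 : ROK [.q ⟨0, -1, -1, 2⟩ ⟨4418, -4370, -838, 790⟩, .q ⟨0, -1, -1, 2⟩ ⟨4632, -1432, -4680, 1480⟩, .q ⟨0, -1, -1, 2⟩ ⟨-5553, 3676, 2597, -720⟩] := by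
  refine rok_v (v := ⟨0, -1, -1, 2⟩) (by decide) (by decide) (k := 2) (by decide) (Q := [(-3975, -443, 395), (-692, -3940, 740), (3316, 2237, -360)])
    (P := [⟨12134400, -7950, -886⟩, ⟨22732800, -1384, -7880⟩, ⟨-11059200, 6632, 4474⟩]) rfl rfl
    (List.mem_of_getElem? (i := 1) rfl) TV_fr TV_cov ?_
  · intro X Y h
    simp only [List.forall_mem_cons, List.not_mem_nil, false_imp_iff, implies_true, and_true] at h
    push_cast at h ⊢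
    obtain ⟨h0, h1, h2⟩ := h
    refine ⟨⟨?_, ?_⟩, ?_, ?_⟩ <;> linarith

theorem TV_rg2 : ROK [.q ⟨0, -1, -1, 2⟩ ⟨5656, -3504, -3504, 1352⟩, .q ⟨0, -1, -1, 2⟩ ⟨4311, -1163, -4826, 1678⟩, .q ⟨0, -1, -1, 2⟩ ⟨-4837, 4007, 1074, -244⟩, .q ⟨0, -1, -1, 2⟩ ⟨-918, -2047, 3535, -570⟩] := by
  refine rok_v (v := ⟨0, -1, -1, 2⟩) (by decide) (by decide) (k := 2) (by decide) (Q := [(-2828, -2828, 676), (-324, -3987, 839), (3885, 952, -122), (-2332, 3250, -285)])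
    (P := [⟨20766720, -5656, -5656⟩, ⟨25774080, -648, -7974⟩, ⟨-3747840, 7770, 1904⟩, ⟨-8755200, -4664, 6500⟩]) rfl rfl
    (List.mem_of_getElem? (i := 2) rfl) TV_fr TV_cov ?_
  · intro X Y h
    simp only [List.forall_mem_cons, List.not_mem_nil, false_imp_iff, implies_true, and_true] at h
    push_cast at h ⊢
    obtain ⟨h0, h1, h2, h3⟩ := h
    refine ⟨⟨?_, ?_⟩, ?_, ?_⟩ <;> linarith

theorem TV_rg3 : ROK [.q ⟨0, -1, -1, 2⟩ ⟨-400, -3, 397, 6⟩, .q ⟨0, -1, -1, 2⟩ ⟨1414, -867, -867, 320⟩, .q ⟨0, -1, -1, 2⟩ ⟨4981, -1639, -4322, 980⟩, .q ⟨0, -1, -1, 2⟩ ⟨-2188, 1903, 111, 174⟩] := by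
  refine rok_v (v := ⟨0, -1, -1, 2⟩) (by decide) (by decide) (k := 2) (by decide) (Q := [(0, 400, 3), (-707, -707, 160), (-1149, -3832, 490), (1990, 198, 87)])
    (P := [⟨92160, 0, 800⟩, ⟨4915200, -1414, -1414⟩, ⟨15052800, -2298, -7664⟩, ⟨2672640, 3980, 396⟩]) rfl rfl
    (List.mem_of_getElem? (i := 3) rfl) TV_fr TV_cov ?_
  · intro X Y h
    simp only [List.forall_mem_cons, List.not_mem_nil, false_imp_iff, implies_true, and_true] at h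
    push_cast at h ⊢
    obtain ⟨h0, h1, h2, h3⟩ := h
    refine ⟨⟨?_, ?_⟩, ?_, ?_⟩ <;> linarith

theorem TV_rg4 : ROK [.q ⟨0, -1, -1, 2⟩ ⟨1414, -891, -891, 368⟩, .q ⟨0, -1, -1, 2⟩ ⟨2000, -153, -2153, 306⟩, .q ⟨0, -1, -1, 2⟩ ⟨-4240, 4637, 893, -1290⟩, .q ⟨0, -1, -1, 2⟩ ⟨2425, -4441, 670, 1346⟩] := by
  refine rok_v (v := ⟨0, -1, -1, 2⟩) (by decide) (by decide) (k := 2) (by decide) (Q := [(-707, -707, 184), (0, -2000, 153), (3992, 248, -645), (-3768, 1343, 673)])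
    (P := [⟨5652480, -1414, -1414⟩, ⟨4700160, 0, -4000⟩, ⟨-19814400, 7984, 496⟩, ⟨20674560, -7536, 2686⟩]) rfl rfl
    (List.mem_of_getElem? (i := 4) rfl) TV_fr TV_cov ?_
  · intro X Y h
    simp only [List.forall_mem_cons, List.not_mem_nil, false_imp_iff, implies_true, and_true] at h
    push_cast at h ⊢
    obtain ⟨h0, h1, h2, h3⟩ := h
    refine ⟨⟨?_, ?_⟩, ?_, ?_⟩ <;> linarith

theorem TV_rg5 : ROK [.q ⟨0, -1, -1, 2⟩ ⟨4000, -384, -4384, 768⟩, .q ⟨0, -1, -1, 2⟩ ⟨-1000, 909, -91, 182⟩, .q ⟨0, -1, -1, 2⟩ ⟨-4000, -119, 3881, 238⟩, .q ⟨0, -1, -1, 2⟩ ⟨5405, -4112, -2443, 1150⟩] := by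
  refine rok_v (v := ⟨0, -1, -1, 2⟩) (by decide) (by decide) (k := 2) (by decide) (Q := [(0, -4000, 384), (1000, 0, 91), (0, 4000, 119), (-3537, -1868, 575)])
    (P := [⟨11796480, 0, -8000⟩, ⟨2795520, 2000, 0⟩, ⟨3655680, 0, 8000⟩, ⟨17664000, -7074, -3736⟩]) rfl rfl
    (List.mem_of_getElem? (i := 5) rfl) TV_fr TV_cov ?_
  · intro X Y h
    simp only [List.forall_mem_cons, List.not_mem_nil, false_imp_iff, implies_true, and_true] at h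
    push_cast at h ⊢
    obtain ⟨h0, h1, h2, h3⟩ := h
    refine ⟨⟨?_, ?_⟩, ?_, ?_⟩ <;> linarith

theorem TV_rg6 : ROK [.q ⟨0, -1, -1, 2⟩ ⟨5605, -3780, -3013, 1188⟩, .q ⟨0, -1, -1, 2⟩ ⟨-3244, 3770, -864, 338⟩, .q ⟨0, -1, -1, 2⟩ ⟨-800, 97, 897, -194⟩] := by
  refine rok_v (v := ⟨0, -1, -1, 2⟩) (by decide) (by decide) (k := 2) (by decide) (Q := [(-3186, -2419, 594), (3939, -695, 169), (0, 800, -97)])
    (P := [⟨18247680, -6372, -4838⟩, ⟨5191680, 7878, -1390⟩, ⟨-2979840, 0, 1600⟩]) rfl rfl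
    (List.mem_of_getElem? (i := 6) rfl) TV_fr TV_cov ?_
  · intro X Y h
    simp only [List.forall_mem_cons, List.not_mem_nil, false_imp_iff, implies_true, and_true] at h
    push_cast at h ⊢
    obtain ⟨h0, h1, h2⟩ := h
    refine ⟨⟨?_, ?_⟩, ?_, ?_⟩ <;> linarith

theorem TV_rg7 : ROK [.q ⟨0, -1, -1, 2⟩ ⟨-1357, -2568, 2923, 1002⟩, .q ⟨0, -1, -1, 2⟩ ⟨5595, -2967, -3798, 1170⟩, .q ⟨0, -1, -1, 2⟩ ⟨391, 2648, -2995, -44⟩, .q ⟨0, -1, -1, 2⟩ ⟨-1409, 899, 778, -268⟩] := by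
  refine rok_v (v := ⟨0, -1, -1, 2⟩) (by decide) (by decide) (k := 2) (by decide) (Q := [(-2067, 3424, 501), (-2382, -3213, 585), (2626, -3017, -22), (765, 644, -134)])
    (P := [⟨15390720, -4134, 6848⟩, ⟨17971200, -4764, -6426⟩, ⟨-675840, 5252, -6034⟩, ⟨-4116480, 1530, 1288⟩]) rfl rfl
    (List.mem_of_getElem? (i := 7) rfl) TV_fr TV_cov ?_
  · intro X Y h
    simp only [List.forall_mem_cons, List.not_mem_nil, false_imp_iff, implies_true, and_true] at h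
    push_cast at h ⊢
    obtain ⟨h0, h1, h2, h3⟩ := h
    refine ⟨⟨?_, ?_⟩, ?_, ?_⟩ <;> linarith

end Pool.Agent.TET
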