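import Pool.Agent.Helper38_TET.CovN

/-!
# MP_c7c9bf_co: certificates, family TW
-/

set_option autoImplicit false
set_option maxRecDepth 100000

namespace Pool.Agent.TET

/-- the polygons -/
def TW_L : List (List Z3) :=
  [[⟨3563520, -567, -3960⟩, ⟨5283840, 3522, -1895⟩, ⟨2457600, 3377, 2144⟩, ⟨2211840, -707, 707⟩],
   [⟨21995520, 2789, 2867⟩, ⟨9308160, -1836, 3554⟩, ⟨4177920, -3850, -1085⟩, ⟨5038080, 3279, -2291⟩],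
   [⟨583680, 0, -1000⟩, ⟨2181120, 3577, -1791⟩, ⟨14223360, -1267, 3794⟩, ⟨8079360, -3166, 2445⟩],
   [⟨9000960, -2881, 2774⟩, ⟨-12072960, -3487, -1961⟩, ⟨10106880, 4000, 0⟩, ⟨23193600, 571, 3959⟩],
   [⟨5621760, 2000, 0⟩, ⟨21350400, -132, 3998⟩, ⟨4730880, -3442, 2037⟩, ⟨-7495680, -558, -3961⟩]]

/-- the polygons in natural numbers -/
def TW_LN : List (List N6) :=
  [[⟨0, 567, 0, 3960, 596926464, 0⟩, ⟨3522, 0, 0, 1895, 0, 207970304⟩, ⟨3377, 0, 2144, 0, 0, 721190912⟩, ⟨0, 707, 707, 0, 2211840, 0⟩],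
   [⟨2789, 0, 2867, 0, 0, 719347712⟩, ⟨0, 1836, 3554, 0, 0, 215873536⟩, ⟨0, 3850, 0, 1085, 651018240, 0⟩, ⟨3279, 0, 0, 2291, 0, 124461056⟩],
   [⟨0, 0, 0, 1000, 131655680, 0⟩, ⟨3577, 0, 0, 1791, 0, 231913472⟩, ⟨0, 1267, 3794, 0, 0, 316995584⟩, ⟨0, 3166, 2445, 0, 102582272, 0⟩],
   [⟨0, 2881, 2774, 0, 23025664, 0⟩, ⟨0, 3487, 0, 1961, 702007296, 0⟩, ⟨4000, 0, 0, 0, 0, 514181120⟩, ⟨571, 0, 3959, 0, 0, 570562560⟩],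
   [⟨2000, 0, 0, 0, 0, 256522240⟩, ⟨0, 132, 3998, 0, 0, 485373952⟩, ⟨0, 3442, 2037, 0, 188887040, 0⟩, ⟨0, 558, 0, 3961, 584818688, 0⟩]]

theorem TW_LL : toL TW_LN = TW_L := eqLL_eq (by decide +kernel)

end Pool.Agent.TET
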