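import Pool.Agent.Helper38_TET.TW_M
import Pool.Agent.Helper38_TET.TW_L
import Pool.Agent.Helper38_TET.TW_4
import Pool.Agent.Helper38_TET.TW_6
import Pool.Agent.Helper38_TET.TW_9
import Pool.Agent.Helper38_TET.TW_12
import Pool.Agent.Helper38_TET.TW_13
import Pool.Agent.Helper38_TET.TW_21
import Pool.Agent.Helper38_TET.TW_22
import Pool.Agent.Helper38_TET.TW_23
import Pool.Agent.Helper38_TET.TW_24
import Pool.Agent.Helper38_TET.TW_25
import Pool.Agent.Helper38_TET.TW_26
import Pool.Agent.Helper38_TET.TW_27
import Pool.Agent.Helper38_TET.TW_29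
import Pool.Agent.Helper38_TET.TW_31
import Pool.Agent.Helper38_TET.TW_32

/-!
# MP_c7c9bf_co: certificates, family TW
-/

set_option autoImplicit false
set_option maxRecDepth 100000

namespace Pool.Agent.TET

theorem TW_u0 : CovZ TW_M (toL (selN TW_LN 24)) [0, 7, 4, 3] (-2048, -5120) (-2304, -5376) (-2048, -5632) :=
    (CovZ.n2 (-2048, -5376) (by decide +kernel)
     (CovZ.n2 (-2176, -5504) (by decide +kernel)
      (CovZ.n2 (-2176, -5376) (by decide +kernel)
       (CovZ.n2 (-2112, -5440) (by decide +kernel)
        (CovZ.n2 (-2176, -5440) (by decide +kernel)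
         (CovZ.n2 (-2144, -5408) (by decide +kernel)
          (CovZ.n2 (-2144, -5440) (by decide +kernel)
           (CovZ.leaf K2_ok TW_l3087 _)
           (CovZ.leaf K2_ok TW_l3088 _))
          (CovZ.leaf K2_ok TW_l3089 _))
         (CovZ.n1 (-2144, -5472) (by decide +kernel)
          (CovZ.n2 (-2176, -5472) (by decide +kernel)
           (CovZ.leaf K2_ok TW_l3090 _)
           (CovZ.leaf K2_ok TW_l3091 _))
          (CovZ.n1 (-2144, -5440) (by decide +kernel)
           (CovZ.leaf K2_ok TW_l3092 _)
           (CovZ.leaf K2_ok TW_l3093 _))))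
        (CovZ.n1 (-2112, -5376) (by decide +kernel)
         (CovZ.n2 (-2080, -5408) (by decide +kernel)
          (CovZ.leaf K2_ok TW_l3094 _)
          (CovZ.leaf K2_ok TW_l3095 _))
         (CovZ.n1 (-2144, -5408) (by decide +kernel)
          (CovZ.leaf K2_ok TW_l3096 _)
          (CovZ.leaf K2_ok TW_l3097 _))))
       (CovZ.n1 (-2240, -5440) (by decide +kernel)
        (CovZ.n2 (-2240, -5376) (by decide +kernel)
         (CovZ.n2 (-2208, -5408) (by decide +kernel)
          (CovZ.leaf K2_ok TW_l3098 _)
          (CovZ.leaf K2_ok TW_l3099 _))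
         (CovZ.n1 (-2272, -5408) (by decide +kernel)
          (CovZ.leaf K2_ok TW_l3100 _)
          (CovZ.leaf K2_ok TW_l3101 _)))
        (CovZ.n1 (-2176, -5440) (by decide +kernel)
         (CovZ.n2 (-2208, -5472) (by decide +kernel)
          (CovZ.n2 (-2208, -5440) (by decide +kernel)
           (CovZ.leaf K2_ok TW_l3102 _)
           (CovZ.leaf K2_ok TW_l3103 _))
          (CovZ.n1 (-2176, -5472) (by decide +kernel)
           (CovZ.n2 (-2192, -5488) (by decide +kernel)
            (CovZ.leaf K2_ok TW_l3104 _)
            (CovZ.leaf K2_ok TW_l3105 _))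
           (CovZ.leaf K2_ok TW_l3106 _)))
         (CovZ.n1 (-2208, -5408) (by decide +kernel)
          (CovZ.leaf K2_ok TW_l3107 _)
          (CovZ.n1 (-2208, -5440) (by decide +kernel)
           (CovZ.leaf K2_ok TW_l3108 _)
           (CovZ.leaf K2_ok TW_l3109 _))))))
      (CovZ.n1 (-2048, -5504) (by decide +kernel)
       (CovZ.n2 (-2112, -5568) (by decide +kernel)
        (CovZ.n2 (-2112, -5504) (by decide +kernel)
         (CovZ.badM (by decide +kernel))
         (CovZ.n1 (-2144, -5536) (by decide +kernel)
          (CovZ.n2 (-2144, -5504) (by decide +kernel)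
           (CovZ.badM (by decide +kernel))
           (CovZ.n1 (-2160, -5520) (by decide +kernel)
            (CovZ.leaf K2_ok TW_l3110 _)
            (CovZ.badM (by decide +kernel))))
          (CovZ.badM (by decide +kernel))))
        (CovZ.badM (by decide +kernel)))
       (CovZ.n1 (-2112, -5440) (by decide +kernel)
        (CovZ.n2 (-2048, -5440) (by decide +kernel)
         (CovZ.badM (by decide +kernel))
         (CovZ.n1 (-2080, -5408) (by decide +kernel)
          (CovZ.leaf K2_ok TW_l3111 _)
          (CovZ.leaf K2_ok TW_l3112 _)))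
        (CovZ.n1 (-2112, -5504) (by decide +kernel)
         (CovZ.n2 (-2144, -5472) (by decide +kernel)
          (CovZ.badM (by decide +kernel))
          (CovZ.n1 (-2144, -5504) (by decide +kernel)
           (CovZ.leaf K2_ok TW_l3113 _)
           (CovZ.badM (by decide +kernel))))
         (CovZ.badM (by decide +kernel))))))
     (CovZ.n1 (-2176, -5248) (by decide +kernel)
      (CovZ.n2 (-2048, -5248) (by decide +kernel)
       (CovZ.n2 (-2112, -5312) (by decide +kernel)
        (CovZ.n2 (-2112, -5248) (by decide +kernel)
         (CovZ.leaf K2_ok TW_l3114 _)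
         (CovZ.n1 (-2144, -5280) (by decide +kernel)
          (CovZ.leaf K2_ok TW_l649 _)
          (CovZ.leaf K2_ok TW_l3115 _)))
        (CovZ.n1 (-2048, -5312) (by decide +kernel)
         (CovZ.n2 (-2080, -5344) (by decide +kernel)
          (CovZ.leaf K2_ok TW_l3116 _)
          (CovZ.leaf K2_ok TW_l3117 _))
         (CovZ.leaf K2_ok TW_l3118 _)))
       (CovZ.n1 (-2112, -5184) (by decide +kernel)
        (CovZ.leaf K2_ok TW_l650 _)
        (CovZ.n1 (-2112, -5248) (by decide +kernel)
         (CovZ.leaf K2_ok TW_l651 _)
         (CovZ.leaf K2_ok TW_l652 _))))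
      (CovZ.n1 (-2176, -5376) (by decide +kernel)
       (CovZ.n2 (-2240, -5312) (by decide +kernel)
        (CovZ.n2 (-2176, -5312) (by decide +kernel)
         (CovZ.n2 (-2208, -5344) (by decide +kernel)
          (CovZ.leaf K2_ok TW_l653 _)
          (CovZ.leaf K2_ok TW_l3119 _))
         (CovZ.leaf K2_ok TW_l654 _))
        (CovZ.n1 (-2240, -5376) (by decide +kernel)
         (CovZ.n2 (-2272, -5344) (by decide +kernel)
          (CovZ.leaf K2_ok TW_l3120 _)
          (CovZ.leaf K2_ok TW_l3121 _))
         (CovZ.leaf K2_ok TW_l3122 _)))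
       (CovZ.n1 (-2112, -5312) (by decide +kernel)
        (CovZ.n2 (-2112, -5376) (by decide +kernel)
         (CovZ.n2 (-2144, -5344) (by decide +kernel)
          (CovZ.leaf K2_ok TW_l3123 _)
          (CovZ.leaf K2_ok TW_l3124 _))
         (CovZ.leaf K2_ok TW_l3125 _))
        (CovZ.n1 (-2176, -5312) (by decide +kernel)
         (CovZ.leaf K2_ok TW_l655 _)
         (CovZ.n1 (-2144, -5344) (by decide +kernel)
          (CovZ.leaf K2_ok TW_l3126 _)
          (CovZ.leaf K2_ok TW_l3127 _)))))))

theorem TW_u1 : CovZ TW_M (toL (selN TW_LN 24)) [0, 7, 4, 3] (-2304, -5376) (-2560, -5632) (-2048, -5632) :=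
    (CovZ.n1 (-2304, -5632) (by decide +kernel)
     (CovZ.n2 (-2432, -5504) (by decide +kernel)
      (CovZ.n2 (-2304, -5504) (by decide +kernel)
       (CovZ.n2 (-2368, -5568) (by decide +kernel)
        (CovZ.n2 (-2368, -5504) (by decide +kernel)
         (CovZ.n2 (-2336, -5536) (by decide +kernel)
          (CovZ.n2 (-2368, -5536) (by decide +kernel)
           (CovZ.n2 (-2352, -5520) (by decide +kernel)
            (CovZ.badM (by decide +kernel))
            (CovZ.leaf K2_ok TW_l3128 _))
           (CovZ.badM (by decide +kernel)))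
          (CovZ.n1 (-2336, -5504) (by decide +kernel)
           (CovZ.n2 (-2320, -5520) (by decide +kernel)
            (CovZ.leaf K2_ok TW_l3129 _)
            (CovZ.leaf K2_ok TW_l3130 _))
           (CovZ.n1 (-2352, -5520) (by decide +kernel)
            (CovZ.leaf K2_ok TW_l3131 _)
            (CovZ.n1 (-2336, -5520) (by decide +kernel)
             (CovZ.leaf K2_ok TW_l3132 _)
             (CovZ.leaf K2_ok TW_l3133 _)))))
         (CovZ.n1 (-2400, -5536) (by decide +kernel)
          (CovZ.n2 (-2400, -5504) (by decide +kernel)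
           (CovZ.n2 (-2384, -5520) (by decide +kernel)
            (CovZ.n2 (-2400, -5520) (by decide +kernel)
             (CovZ.leaf K2_ok TW_l3134 _)
             (CovZ.badM (by decide +kernel)))
            (CovZ.n1 (-2384, -5504) (by decide +kernel)
             (CovZ.leaf K2_ok TW_l3135 _)
             (CovZ.leaf K2_ok TW_l3136 _)))
           (CovZ.n1 (-2416, -5520) (by decide +kernel)
            (CovZ.n2 (-2416, -5504) (by decide +kernel)
             (CovZ.leaf K2_ok TW_l3137 _)
             (CovZ.leaf K2_ok TW_l3138 _))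
            (CovZ.n1 (-2400, -5520) (by decide +kernel)
             (CovZ.badM (by decide +kernel))
             (CovZ.leaf K2_ok TW_l3139 _))))
          (CovZ.n1 (-2368, -5536) (by decide +kernel)
           (CovZ.badM (by decide +kernel))
           (CovZ.n1 (-2384, -5520) (by decide +kernel)
            (CovZ.n2 (-2368, -5520) (by decide +kernel)
             (CovZ.badM (by decide +kernel))
             (CovZ.leaf K2_ok TW_l3140 _))
            (CovZ.badM (by decide +kernel))))))
        (CovZ.n1 (-2304, -5568) (by decide +kernel)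
         (CovZ.badM (by decide +kernel))
         (CovZ.n1 (-2336, -5536) (by decide +kernel)
          (CovZ.n2 (-2304, -5536) (by decide +kernel)
           (CovZ.badM (by decide +kernel))
           (CovZ.n1 (-2320, -5520) (by decide +kernel)
            (CovZ.leaf K2_ok TW_l3141 _)
            (CovZ.n1 (-2320, -5536) (by decide +kernel)
             (CovZ.leaf K2_ok TW_l3142 _)
             (CovZ.leaf K2_ok TW_l3143 _))))
          (CovZ.badM (by decide +kernel)))))
       (CovZ.n1 (-2368, -5440) (by decide +kernel)
        (CovZ.n2 (-2304, -5440) (by decide +kernel)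
         (CovZ.n2 (-2336, -5472) (by decide +kernel)
          (CovZ.n2 (-2336, -5440) (by decide +kernel)
           (CovZ.leaf K2_ok TW_l3144 _)
           (CovZ.n1 (-2352, -5456) (by decide +kernel)
            (CovZ.leaf K2_ok TW_l3145 _)
            (CovZ.leaf K2_ok TW_l3146 _)))
          (CovZ.n1 (-2304, -5472) (by decide +kernel)
           (CovZ.n2 (-2320, -5488) (by decide +kernel)
            (CovZ.leaf K2_ok TW_l3147 _)
            (CovZ.leaf K2_ok TW_l3148 _))
           (CovZ.leaf K2_ok TW_l3149 _)))
         (CovZ.n1 (-2336, -5408) (by decide +kernel)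
          (CovZ.n2 (-2304, -5408) (by decide +kernel)
           (CovZ.leaf K2_ok TW_l3150 _)
           (CovZ.leaf K2_ok TW_l3151 _))
          (CovZ.n1 (-2336, -5440) (by decide +kernel)
           (CovZ.leaf K2_ok TW_l3152 _)
           (CovZ.leaf K2_ok TW_l3153 _))))
        (CovZ.n1 (-2368, -5504) (by decide +kernel)
         (CovZ.n2 (-2400, -5472) (by decide +kernel)
          (CovZ.n2 (-2368, -5472) (by decide +kernel)
           (CovZ.n2 (-2384, -5488) (by decide +kernel)
            (CovZ.leaf K2_ok TW_l3154 _)
            (CovZ.leaf K2_ok TW_l3155 _))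
           (CovZ.leaf K2_ok TW_l3156 _))
          (CovZ.n1 (-2400, -5504) (by decide +kernel)
           (CovZ.n2 (-2416, -5488) (by decide +kernel)
            (CovZ.leaf K2_ok TW_l3157 _)
            (CovZ.leaf K2_ok TW_l3158 _))
           (CovZ.n1 (-2384, -5488) (by decide +kernel)
            (CovZ.leaf K2_ok TW_l3159 _)
            (CovZ.leaf K2_ok TW_l3160 _))))
         (CovZ.n1 (-2336, -5472) (by decide +kernel)
          (CovZ.n2 (-2336, -5504) (by decide +kernel)
           (CovZ.n2 (-2352, -5488) (by decide +kernel)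
            (CovZ.leaf K2_ok TW_l3161 _)
            (CovZ.leaf K2_ok TW_l3162 _))
           (CovZ.leaf K2_ok TW_l3163 _))
          (CovZ.n1 (-2368, -5472) (by decide +kernel)
           (CovZ.leaf K2_ok TW_l3164 _)
           (CovZ.n1 (-2352, -5488) (by decide +kernel)
            (CovZ.leaf K2_ok TW_l3165 _)
            (CovZ.leaf K2_ok TW_l3166 _)))))))
      (CovZ.n1 (-2432, -5632) (by decide +kernel)
       (CovZ.n2 (-2496, -5568) (by decide +kernel)
        (CovZ.n2 (-2432, -5568) (by decide +kernel)
         (CovZ.badM (by decide +kernel))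
         (CovZ.n1 (-2464, -5536) (by decide +kernel)
          (CovZ.n2 (-2432, -5536) (by decide +kernel)
           (CovZ.badM (by decide +kernel))
           (CovZ.n1 (-2448, -5520) (by decide +kernel)
            (CovZ.n2 (-2432, -5520) (by decide +kernel)
             (CovZ.badM (by decide +kernel))
             (CovZ.leaf K2_ok TW_l3167 _))
            (CovZ.badM (by decide +kernel))))
          (CovZ.badM (by decide +kernel))))
        (CovZ.badM (by decide +kernel)))
       (CovZ.n1 (-2368, -5568) (by decide +kernel)
        (CovZ.badM (by decide +kernel))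
        (CovZ.n1 (-2432, -5568) (by decide +kernel)
         (CovZ.n2 (-2400, -5536) (by decide +kernel)
          (CovZ.badM (by decide +kernel))
          (CovZ.n1 (-2432, -5536) (by decide +kernel)
           (CovZ.n2 (-2416, -5520) (by decide +kernel)
            (CovZ.badM (by decide +kernel))
            (CovZ.n1 (-2432, -5520) (by decide +kernel)
             (CovZ.leaf K2_ok TW_l3168 _)
             (CovZ.badM (by decide +kernel))))
           (CovZ.badM (by decide +kernel))))
         (CovZ.badM (by decide +kernel))))))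
     (CovZ.n1 (-2176, -5504) (by decide +kernel)
      (CovZ.n2 (-2176, -5632) (by decide +kernel)
       (CovZ.n2 (-2240, -5568) (by decide +kernel)
        (CovZ.n2 (-2176, -5568) (by decide +kernel)
         (CovZ.badM (by decide +kernel))
         (CovZ.n1 (-2208, -5536) (by decide +kernel)
          (CovZ.n2 (-2176, -5536) (by decide +kernel)
           (CovZ.n2 (-2192, -5552) (by decide +kernel)
            (CovZ.n2 (-2192, -5536) (by decide +kernel)
             (CovZ.badM (by decide +kernel))
             (CovZ.leaf K2_ok TW_l3169 _))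
            (CovZ.badM (by decide +kernel)))
           (CovZ.n1 (-2192, -5520) (by decide +kernel)
            (CovZ.leaf K2_ok TW_l3170 _)
            (CovZ.leaf K2_ok TW_l3171 _)))
          (CovZ.n1 (-2208, -5568) (by decide +kernel)
           (CovZ.n2 (-2224, -5552) (by decide +kernel)
            (CovZ.n2 (-2208, -5552) (by decide +kernel)
             (CovZ.badM (by decide +kernel))
             (CovZ.leaf K2_ok TW_l3172 _))
            (CovZ.badM (by decide +kernel)))
           (CovZ.n1 (-2192, -5552) (by decide +kernel)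
            (CovZ.badM (by decide +kernel))
            (CovZ.n1 (-2208, -5552) (by decide +kernel)
             (CovZ.leaf K2_ok TW_l3173 _)
             (CovZ.badM (by decide +kernel)))))))
        (CovZ.badM (by decide +kernel)))
       (CovZ.n1 (-2112, -5568) (by decide +kernel)
        (CovZ.badM (by decide +kernel))
        (CovZ.n1 (-2176, -5568) (by decide +kernel)
         (CovZ.n2 (-2144, -5536) (by decide +kernel)
          (CovZ.badM (by decide +kernel))
          (CovZ.n1 (-2176, -5536) (by decide +kernel)
           (CovZ.n2 (-2160, -5520) (by decide +kernel)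
            (CovZ.badM (by decide +kernel))
            (CovZ.leaf K2_ok TW_l3174 _))
           (CovZ.badM (by decide +kernel))))
         (CovZ.badM (by decide +kernel)))))
      (CovZ.n1 (-2304, -5504) (by decide +kernel)
       (CovZ.n2 (-2240, -5440) (by decide +kernel)
        (CovZ.n2 (-2240, -5504) (by decide +kernel)
         (CovZ.n2 (-2272, -5472) (by decide +kernel)
          (CovZ.n2 (-2240, -5472) (by decide +kernel)
           (CovZ.n2 (-2256, -5488) (by decide +kernel)
            (CovZ.leaf K2_ok TW_l3175 _)
            (CovZ.leaf K2_ok TW_l3176 _))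
           (CovZ.leaf K2_ok TW_l3177 _))
          (CovZ.n1 (-2272, -5504) (by decide +kernel)
           (CovZ.n2 (-2288, -5488) (by decide +kernel)
            (CovZ.leaf K2_ok TW_l3178 _)
            (CovZ.leaf K2_ok TW_l3179 _))
           (CovZ.leaf K2_ok TW_l3180 _)))
         (CovZ.n1 (-2208, -5472) (by decide +kernel)
          (CovZ.n2 (-2208, -5504) (by decide +kernel)
           (CovZ.leaf K2_ok TW_l3181 _)
           (CovZ.leaf K2_ok TW_l3182 _))
          (CovZ.n1 (-2240, -5472) (by decide +kernel)
           (CovZ.leaf K2_ok TW_l3183 _)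
           (CovZ.n1 (-2224, -5488) (by decide +kernel)
            (CovZ.leaf K2_ok TW_l3184 _)
            (CovZ.leaf K2_ok TW_l3185 _)))))
        (CovZ.n1 (-2304, -5440) (by decide +kernel)
         (CovZ.n2 (-2272, -5408) (by decide +kernel)
          (CovZ.n2 (-2272, -5440) (by decide +kernel)
           (CovZ.leaf K2_ok TW_l3186 _)
           (CovZ.leaf K2_ok TW_l3187 _))
          (CovZ.leaf K2_ok TW_l3188 _))
         (CovZ.n1 (-2272, -5472) (by decide +kernel)
          (CovZ.n2 (-2304, -5472) (by decide +kernel)
           (CovZ.leaf K2_ok TW_l3189 _)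
           (CovZ.n1 (-2288, -5488) (by decide +kernel)
            (CovZ.leaf K2_ok TW_l3190 _)
            (CovZ.leaf K2_ok TW_l3191 _)))
          (CovZ.n1 (-2272, -5440) (by decide +kernel)
           (CovZ.leaf K2_ok TW_l3192 _)
           (CovZ.n1 (-2288, -5456) (by decide +kernel)
            (CovZ.leaf K2_ok TW_l3193 _)
            (CovZ.leaf K2_ok TW_l3194 _))))))
       (CovZ.n1 (-2240, -5568) (by decide +kernel)
        (CovZ.n2 (-2304, -5568) (by decide +kernel)
         (CovZ.n2 (-2272, -5536) (by decide +kernel)
          (CovZ.badM (by decide +kernel))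
          (CovZ.n1 (-2304, -5536) (by decide +kernel)
           (CovZ.n2 (-2288, -5520) (by decide +kernel)
            (CovZ.n2 (-2288, -5536) (by decide +kernel)
             (CovZ.leaf K2_ok TW_l3195 _)
             (CovZ.leaf K2_ok TW_l3196 _))
            (CovZ.leaf K2_ok TW_l3197 _))
           (CovZ.badM (by decide +kernel))))
         (CovZ.badM (by decide +kernel)))
        (CovZ.n1 (-2240, -5504) (by decide +kernel)
         (CovZ.n2 (-2208, -5536) (by decide +kernel)
          (CovZ.n2 (-2240, -5536) (by decide +kernel)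
           (CovZ.n2 (-2224, -5520) (by decide +kernel)
            (CovZ.leaf K2_ok TW_l3198 _)
            (CovZ.leaf K2_ok TW_l3199 _))
           (CovZ.n1 (-2224, -5552) (by decide +kernel)
            (CovZ.badM (by decide +kernel))
            (CovZ.n1 (-2224, -5536) (by decide +kernel)
             (CovZ.leaf K2_ok TW_l3200 _)
             (CovZ.leaf K2_ok TW_l3201 _))))
          (CovZ.n1 (-2208, -5504) (by decide +kernel)
           (CovZ.n2 (-2192, -5520) (by decide +kernel)
            (CovZ.leaf K2_ok TW_l3202 _)
            (CovZ.leaf K2_ok TW_l3203 _))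
           (CovZ.n1 (-2224, -5520) (by decide +kernel)
            (CovZ.leaf K2_ok TW_l3204 _)
            (CovZ.leaf K2_ok TW_l3205 _))))
         (CovZ.n1 (-2272, -5536) (by decide +kernel)
          (CovZ.n2 (-2272, -5504) (by decide +kernel)
           (CovZ.n2 (-2256, -5520) (by decide +kernel)
            (CovZ.leaf K2_ok TW_l3206 _)
            (CovZ.leaf K2_ok TW_l3207 _))
           (CovZ.n1 (-2288, -5520) (by decide +kernel)
            (CovZ.leaf K2_ok TW_l3208 _)
            (CovZ.leaf K2_ok TW_l3209 _)))
          (CovZ.n1 (-2240, -5536) (by decide +kernel)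
           (CovZ.badM (by decide +kernel))
           (CovZ.n1 (-2256, -5520) (by decide +kernel)
            (CovZ.leaf K2_ok TW_l3210 _)
            (CovZ.n1 (-2256, -5536) (by decide +kernel)
             (CovZ.leaf K2_ok TW_l3211 _)
             (CovZ.leaf K2_ok TW_l3212 _))))))))))

theorem TW_u2 : CovZ TW_M (toL (selN TW_LN 24)) [0, 7, 4, 3] (-2560, -5632) (-2304, -5376) (-2560, -5120) :=
    (CovZ.n2 (-2560, -5376) (by decide +kernel)
     (CovZ.n2 (-2432, -5248) (by decide +kernel)
      (CovZ.n2 (-2432, -5376) (by decide +kernel)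
       (CovZ.n2 (-2496, -5312) (by decide +kernel)
        (CovZ.n2 (-2432, -5312) (by decide +kernel)
         (CovZ.n2 (-2464, -5344) (by decide +kernel)
          (CovZ.leaf K2_ok TW_l3213 _)
          (CovZ.leaf K2_ok TW_l3214 _))
         (CovZ.leaf K2_ok TW_l3215 _))
        (CovZ.n1 (-2496, -5376) (by decide +kernel)
         (CovZ.n2 (-2528, -5344) (by decide +kernel)
          (CovZ.leaf K2_ok TW_l3216 _)
          (CovZ.n1 (-2528, -5376) (by decide +kernel)
           (CovZ.leaf K2_ok TW_l3217 _)
           (CovZ.leaf K2_ok TW_l3218 _)))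
         (CovZ.n1 (-2464, -5344) (by decide +kernel)
          (CovZ.n2 (-2464, -5376) (by decide +kernel)
           (CovZ.leaf K2_ok TW_l3219 _)
           (CovZ.leaf K2_ok TW_l3220 _))
          (CovZ.leaf K2_ok TW_l3221 _))))
       (CovZ.n1 (-2368, -5312) (by decide +kernel)
        (CovZ.n2 (-2368, -5376) (by decide +kernel)
         (CovZ.n2 (-2400, -5344) (by decide +kernel)
          (CovZ.leaf K2_ok TW_l3222 _)
          (CovZ.leaf K2_ok TW_l3223 _))
         (CovZ.n1 (-2336, -5344) (by decide +kernel)
          (CovZ.leaf K2_ok TW_l3224 _)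
          (CovZ.leaf K2_ok TW_l3225 _)))
        (CovZ.n1 (-2432, -5312) (by decide +kernel)
         (CovZ.leaf K2_ok TW_l3226 _)
         (CovZ.n1 (-2400, -5344) (by decide +kernel)
          (CovZ.leaf K2_ok TW_l3227 _)
          (CovZ.leaf K2_ok TW_l3228 _)))))
      (CovZ.n1 (-2560, -5248) (by decide +kernel)
       (CovZ.n2 (-2496, -5184) (by decide +kernel)
        (CovZ.n2 (-2496, -5248) (by decide +kernel)
         (CovZ.leaf K2_ok TW_l3229 _)
         (CovZ.leaf K2_ok TW_l3230 _))
        (CovZ.n1 (-2560, -5184) (by decide +kernel)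
         (CovZ.leaf K2_ok TW_l3231 _)
         (CovZ.leaf K2_ok TW_l3232 _)))
       (CovZ.n1 (-2496, -5312) (by decide +kernel)
        (CovZ.n2 (-2560, -5312) (by decide +kernel)
         (CovZ.leaf K2_ok TW_l3233 _)
         (CovZ.n1 (-2528, -5344) (by decide +kernel)
          (CovZ.leaf K2_ok TW_l3234 _)
          (CovZ.leaf K2_ok TW_l3235 _)))
        (CovZ.n1 (-2496, -5248) (by decide +kernel)
         (CovZ.n2 (-2464, -5280) (by decide +kernel)
          (CovZ.leaf K2_ok TW_l3236 _)
          (CovZ.leaf K2_ok TW_l3237 _))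
         (CovZ.n1 (-2528, -5280) (by decide +kernel)
          (CovZ.leaf K2_ok TW_l3238 _)
          (CovZ.leaf K2_ok TW_l3239 _))))))
     (CovZ.n1 (-2432, -5504) (by decide +kernel)
      (CovZ.n2 (-2560, -5504) (by decide +kernel)
       (CovZ.n2 (-2496, -5440) (by decide +kernel)
        (CovZ.n2 (-2496, -5504) (by decide +kernel)
         (CovZ.n2 (-2528, -5472) (by decide +kernel)
          (CovZ.n2 (-2496, -5472) (by decide +kernel)
           (CovZ.n2 (-2512, -5488) (by decide +kernel)
            (CovZ.n2 (-2512, -5472) (by decide +kernel)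
             (CovZ.leaf K2_ok TW_l3240 _)
             (CovZ.leaf K2_ok TW_l3241 _))
            (CovZ.n1 (-2496, -5488) (by decide +kernel)
             (CovZ.leaf K2_ok TW_l3242 _)
             (CovZ.leaf K2_ok TW_l3243 _)))
           (CovZ.n1 (-2512, -5456) (by decide +kernel)
            (CovZ.leaf K2_ok TW_l3244 _)
            (CovZ.leaf K2_ok TW_l3245 _)))
          (CovZ.n1 (-2528, -5504) (by decide +kernel)
           (CovZ.badM (by decide +kernel))
           (CovZ.n1 (-2512, -5488) (by decide +kernel)
            (CovZ.n2 (-2512, -5504) (by decide +kernel)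
             (CovZ.leaf K2_ok TW_l3246 _)
             (CovZ.leaf K2_ok TW_l3247 _))
            (CovZ.n1 (-2528, -5488) (by decide +kernel)
             (CovZ.leaf K2_ok TW_l3248 _)
             (CovZ.leaf K2_ok TW_l3249 _)))))
         (CovZ.n1 (-2464, -5472) (by decide +kernel)
          (CovZ.n2 (-2464, -5504) (by decide +kernel)
           (CovZ.n2 (-2480, -5488) (by decide +kernel)
            (CovZ.leaf K2_ok TW_l3250 _)
            (CovZ.n1 (-2480, -5504) (by decide +kernel)
             (CovZ.leaf K2_ok TW_l3251 _)
             (CovZ.leaf K2_ok TW_l3252 _)))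
           (CovZ.n1 (-2448, -5488) (by decide +kernel)
            (CovZ.n2 (-2448, -5504) (by decide +kernel)
             (CovZ.leaf K2_ok TW_l3253 _)
             (CovZ.leaf K2_ok TW_l3254 _))
            (CovZ.leaf K2_ok TW_l3255 _)))
          (CovZ.n1 (-2496, -5472) (by decide +kernel)
           (CovZ.n2 (-2480, -5456) (by decide +kernel)
            (CovZ.leaf K2_ok TW_l3256 _)
            (CovZ.leaf K2_ok TW_l3257 _))
           (CovZ.n1 (-2480, -5488) (by decide +kernel)
            (CovZ.leaf K2_ok TW_l3258 _)
            (CovZ.leaf K2_ok TW_l3259 _)))))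
        (CovZ.n1 (-2560, -5440) (by decide +kernel)
         (CovZ.n2 (-2528, -5408) (by decide +kernel)
          (CovZ.n2 (-2528, -5440) (by decide +kernel)
           (CovZ.leaf K2_ok TW_l3260 _)
           (CovZ.leaf K2_ok TW_l3261 _))
          (CovZ.n1 (-2560, -5408) (by decide +kernel)
           (CovZ.leaf K2_ok TW_l3262 _)
           (CovZ.n1 (-2544, -5424) (by decide +kernel)
            (CovZ.leaf K2_ok TW_l3263 _)
            (CovZ.leaf K2_ok TW_l3264 _))))
         (CovZ.n1 (-2528, -5472) (by decide +kernel)
          (CovZ.badM (by decide +kernel))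
          (CovZ.n1 (-2528, -5440) (by decide +kernel)
           (CovZ.n2 (-2512, -5456) (by decide +kernel)
            (CovZ.leaf K2_ok TW_l3265 _)
            (CovZ.leaf K2_ok TW_l3266 _))
           (CovZ.badM (by decide +kernel))))))
       (CovZ.n1 (-2496, -5568) (by decide +kernel)
        (CovZ.badM (by decide +kernel))
        (CovZ.n1 (-2496, -5504) (by decide +kernel)
         (CovZ.n2 (-2464, -5536) (by decide +kernel)
          (CovZ.badM (by decide +kernel))
          (CovZ.n1 (-2464, -5504) (by decide +kernel)
           (CovZ.n2 (-2448, -5520) (by decide +kernel)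
            (CovZ.badM (by decide +kernel))
            (CovZ.n1 (-2448, -5504) (by decide +kernel)
             (CovZ.leaf K2_ok TW_l3267 _)
             (CovZ.leaf K2_ok TW_l3268 _)))
           (CovZ.badM (by decide +kernel))))
         (CovZ.badM (by decide +kernel)))))
      (CovZ.n1 (-2432, -5376) (by decide +kernel)
       (CovZ.n2 (-2368, -5440) (by decide +kernel)
        (CovZ.n2 (-2432, -5440) (by decide +kernel)
         (CovZ.n2 (-2400, -5408) (by decide +kernel)
          (CovZ.n2 (-2400, -5440) (by decide +kernel)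
           (CovZ.leaf K2_ok TW_l3269 _)
           (CovZ.leaf K2_ok TW_l3270 _))
          (CovZ.n1 (-2432, -5408) (by decide +kernel)
           (CovZ.leaf K2_ok TW_l3271 _)
           (CovZ.leaf K2_ok TW_l3272 _)))
         (CovZ.n1 (-2400, -5472) (by decide +kernel)
          (CovZ.n2 (-2432, -5472) (by decide +kernel)
           (CovZ.leaf K2_ok TW_l3273 _)
           (CovZ.n1 (-2416, -5488) (by decide +kernel)
            (CovZ.leaf K2_ok TW_l3274 _)
            (CovZ.leaf K2_ok TW_l3275 _)))
          (CovZ.n1 (-2400, -5440) (by decide +kernel)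
           (CovZ.n2 (-2384, -5456) (by decide +kernel)
            (CovZ.leaf K2_ok TW_l3276 _)
            (CovZ.leaf K2_ok TW_l3277 _))
           (CovZ.n1 (-2416, -5456) (by decide +kernel)
            (CovZ.leaf K2_ok TW_l3278 _)
            (CovZ.leaf K2_ok TW_l3279 _)))))
        (CovZ.n1 (-2368, -5376) (by decide +kernel)
         (CovZ.n2 (-2336, -5408) (by decide +kernel)
          (CovZ.n2 (-2368, -5408) (by decide +kernel)
           (CovZ.leaf K2_ok TW_l3280 _)
           (CovZ.leaf K2_ok TW_l3281 _))
          (CovZ.n1 (-2336, -5376) (by decide +kernel)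
           (CovZ.leaf K2_ok TW_l3282 _)
           (CovZ.leaf K2_ok TW_l3283 _)))
         (CovZ.n1 (-2400, -5408) (by decide +kernel)
          (CovZ.n2 (-2400, -5376) (by decide +kernel)
           (CovZ.leaf K2_ok TW_l3284 _)
           (CovZ.leaf K2_ok TW_l3285 _))
          (CovZ.n1 (-2368, -5408) (by decide +kernel)
           (CovZ.leaf K2_ok TW_l3286 _)
           (CovZ.leaf K2_ok TW_l3287 _)))))
       (CovZ.n1 (-2496, -5440) (by decide +kernel)
        (CovZ.n2 (-2496, -5376) (by decide +kernel)
         (CovZ.n2 (-2464, -5408) (by decide +kernel)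
          (CovZ.n2 (-2496, -5408) (by decide +kernel)
           (CovZ.leaf K2_ok TW_l3288 _)
           (CovZ.leaf K2_ok TW_l3289 _))
          (CovZ.n1 (-2464, -5376) (by decide +kernel)
           (CovZ.leaf K2_ok TW_l3290 _)
           (CovZ.leaf K2_ok TW_l3291 _)))
         (CovZ.n1 (-2528, -5408) (by decide +kernel)
          (CovZ.n2 (-2528, -5376) (by decide +kernel)
           (CovZ.leaf K2_ok TW_l3292 _)
           (CovZ.leaf K2_ok TW_l3293 _))
          (CovZ.n1 (-2496, -5408) (by decide +kernel)
           (CovZ.n2 (-2512, -5424) (by decide +kernel)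
            (CovZ.leaf K2_ok TW_l3294 _)
            (CovZ.leaf K2_ok TW_l3295 _))
           (CovZ.leaf K2_ok TW_l3296 _))))
        (CovZ.n1 (-2432, -5440) (by decide +kernel)
         (CovZ.n2 (-2464, -5472) (by decide +kernel)
          (CovZ.n2 (-2464, -5440) (by decide +kernel)
           (CovZ.n2 (-2448, -5456) (by decide +kernel)
            (CovZ.leaf K2_ok TW_l3297 _)
            (CovZ.leaf K2_ok TW_l3298 _))
           (CovZ.n1 (-2480, -5456) (by decide +kernel)
            (CovZ.leaf K2_ok TW_l3299 _)
            (CovZ.leaf K2_ok TW_l3300 _)))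
          (CovZ.n1 (-2432, -5472) (by decide +kernel)
           (CovZ.n2 (-2448, -5488) (by decide +kernel)
            (CovZ.leaf K2_ok TW_l3301 _)
            (CovZ.leaf K2_ok TW_l3302 _))
           (CovZ.n1 (-2448, -5456) (by decide +kernel)
            (CovZ.leaf K2_ok TW_l3303 _)
            (CovZ.leaf K2_ok TW_l3304 _))))
         (CovZ.n1 (-2464, -5408) (by decide +kernel)
          (CovZ.n2 (-2432, -5408) (by decide +kernel)
           (CovZ.n2 (-2448, -5424) (by decide +kernel)
            (CovZ.leaf K2_ok TW_l3305 _)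
            (CovZ.leaf K2_ok TW_l3306 _))
           (CovZ.leaf K2_ok TW_l3307 _))
          (CovZ.n1 (-2464, -5440) (by decide +kernel)
           (CovZ.leaf K2_ok TW_l3308 _)
           (CovZ.leaf K2_ok TW_l3309 _))))))))

theorem TW_u3 : CovZ TW_M (toL (selN TW_LN 24)) [0, 7, 4, 3] (-2304, -5376) (-2048, -5120) (-2560, -5120) :=
    (CovZ.n1 (-2304, -5120) (by decide +kernel)
     (CovZ.n2 (-2176, -5248) (by decide +kernel)
      (CovZ.n2 (-2304, -5248) (by decide +kernel)
       (CovZ.n2 (-2240, -5184) (by decide +kernel)
        (CovZ.n2 (-2240, -5248) (by decide +kernel)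
         (CovZ.leaf K2_ok TW_l656 _)
         (CovZ.leaf K2_ok TW_l657 _))
        (CovZ.n1 (-2304, -5184) (by decide +kernel)
         (CovZ.leaf K2_ok TW_l658 _)
         (CovZ.leaf K2_ok TW_l659 _)))
       (CovZ.n1 (-2240, -5312) (by decide +kernel)
        (CovZ.n2 (-2304, -5312) (by decide +kernel)
         (CovZ.leaf K2_ok TW_l660 _)
         (CovZ.n1 (-2272, -5344) (by decide +kernel)
          (CovZ.leaf K2_ok TW_l3310 _)
          (CovZ.leaf K2_ok TW_l3311 _)))
        (CovZ.n1 (-2240, -5248) (by decide +kernel)
         (CovZ.leaf K2_ok TW_l661 _)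
         (CovZ.n1 (-2272, -5280) (by decide +kernel)
          (CovZ.leaf K2_ok TW_l662 _)
          (CovZ.leaf K2_ok TW_l663 _)))))
      (CovZ.n1 (-2176, -5120) (by decide +kernel)
       (CovZ.n2 (-2112, -5184) (by decide +kernel)
        (CovZ.leaf K2_ok TW_l664 _)
        (CovZ.n1 (-2112, -5120) (by decide +kernel)
         (CovZ.leaf K2_ok TW_l665 _)
         (CovZ.leaf K2_ok TW_l666 _)))
       (CovZ.n1 (-2240, -5184) (by decide +kernel)
        (CovZ.n2 (-2240, -5120) (by decide +kernel)
         (CovZ.leaf K2_ok TW_l667 _)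
         (CovZ.leaf K2_ok TW_l668 _))
        (CovZ.n1 (-2176, -5184) (by decide +kernel)
         (CovZ.leaf K2_ok TW_l669 _)
         (CovZ.leaf K2_ok TW_l670 _)))))
     (CovZ.n1 (-2432, -5248) (by decide +kernel)
      (CovZ.n2 (-2432, -5120) (by decide +kernel)
       (CovZ.n2 (-2368, -5184) (by decide +kernel)
        (CovZ.n2 (-2432, -5184) (by decide +kernel)
         (CovZ.leaf K2_ok TW_l671 _)
         (CovZ.leaf K2_ok TW_l672 _))
        (CovZ.n1 (-2368, -5120) (by decide +kernel)
         (CovZ.leaf K2_ok TW_l673 _)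
         (CovZ.leaf K2_ok TW_l674 _)))
       (CovZ.n1 (-2496, -5184) (by decide +kernel)
        (CovZ.n2 (-2496, -5120) (by decide +kernel)
         (CovZ.leaf K2_ok TW_l675 _)
         (CovZ.leaf K2_ok TW_l3312 _))
        (CovZ.n1 (-2432, -5184) (by decide +kernel)
         (CovZ.leaf K2_ok TW_l3313 _)
         (CovZ.leaf K2_ok TW_l676 _))))
      (CovZ.n1 (-2304, -5248) (by decide +kernel)
       (CovZ.n2 (-2368, -5312) (by decide +kernel)
        (CovZ.n2 (-2368, -5248) (by decide +kernel)
         (CovZ.leaf K2_ok TW_l677 _)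
         (CovZ.n1 (-2400, -5280) (by decide +kernel)
          (CovZ.leaf K2_ok TW_l3314 _)
          (CovZ.leaf K2_ok TW_l3315 _)))
        (CovZ.n1 (-2304, -5312) (by decide +kernel)
         (CovZ.n2 (-2336, -5344) (by decide +kernel)
          (CovZ.leaf K2_ok TW_l3316 _)
          (CovZ.leaf K2_ok TW_l3317 _))
         (CovZ.leaf K2_ok TW_l678 _)))
       (CovZ.n1 (-2368, -5184) (by decide +kernel)
        (CovZ.n2 (-2304, -5184) (by decide +kernel)
         (CovZ.leaf K2_ok TW_l679 _)
         (CovZ.leaf K2_ok TW_l680 _))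
        (CovZ.n1 (-2368, -5248) (by decide +kernel)
         (CovZ.leaf K2_ok TW_l681 _)
         (CovZ.leaf K2_ok TW_l682 _))))))

theorem TW_u4 : CovZ TW_M (toL (selN TW_LN 24)) [0, 7, 4, 3] (-2048, -5632) (-1792, -5376) (-2048, -5120) :=
    (CovZ.n2 (-2048, -5376) (by decide +kernel)
     (CovZ.n2 (-1920, -5248) (by decide +kernel)
      (CovZ.n2 (-1920, -5376) (by decide +kernel)
       (CovZ.n2 (-1984, -5312) (by decide +kernel)
        (CovZ.n2 (-1920, -5312) (by decide +kernel)
         (CovZ.n2 (-1952, -5344) (by decide +kernel)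
          (CovZ.leaf K2_ok TW_l3404 _)
          (CovZ.leaf K2_ok TW_l3405 _))
         (CovZ.leaf K2_ok TW_l3406 _))
        (CovZ.n1 (-1984, -5376) (by decide +kernel)
         (CovZ.leaf K2_ok TW_l3407 _)
         (CovZ.leaf K2_ok TW_l3408 _)))
       (CovZ.n1 (-1856, -5312) (by decide +kernel)
        (CovZ.n2 (-1856, -5376) (by decide +kernel)
         (CovZ.n2 (-1888, -5344) (by decide +kernel)
          (CovZ.leaf K2_ok TW_l3409 _)
          (CovZ.leaf K2_ok TW_l3410 _))
         (CovZ.n1 (-1824, -5344) (by decide +kernel)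
          (CovZ.n2 (-1824, -5376) (by decide +kernel)
           (CovZ.leaf K2_ok TW_l3411 _)
           (CovZ.n1 (-1808, -5360) (by decide +kernel)
            (CovZ.leaf K2_ok TW_l3412 _)
            (CovZ.leaf K2_ok TW_l3413 _)))
          (CovZ.n1 (-1856, -5344) (by decide +kernel)
           (CovZ.leaf K2_ok TW_l3414 _)
           (CovZ.leaf K2_ok TW_l3415 _))))
        (CovZ.n1 (-1920, -5312) (by decide +kernel)
         (CovZ.leaf K2_ok TW_l3416 _)
         (CovZ.n1 (-1888, -5344) (by decide +kernel)
          (CovZ.leaf K2_ok TW_l3417 _)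
          (CovZ.leaf K2_ok TW_l3418 _)))))
      (CovZ.n1 (-2048, -5248) (by decide +kernel)
       (CovZ.n2 (-1984, -5184) (by decide +kernel)
        (CovZ.n2 (-1984, -5248) (by decide +kernel)
         (CovZ.leaf K2_ok TW_l3419 _)
         (CovZ.leaf K2_ok TW_l3420 _))
        (CovZ.leaf K2_ok TW_l1039 _))
       (CovZ.n1 (-1984, -5312) (by decide +kernel)
        (CovZ.n2 (-2048, -5312) (by decide +kernel)
         (CovZ.leaf K2_ok TW_l3421 _)
         (CovZ.n1 (-2016, -5344) (by decide +kernel)
          (CovZ.leaf K2_ok TW_l3422 _)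
          (CovZ.leaf K2_ok TW_l3423 _)))
        (CovZ.n1 (-1984, -5248) (by decide +kernel)
         (CovZ.leaf K2_ok TW_l3424 _)
         (CovZ.leaf K2_ok TW_l3425 _)))))
     (CovZ.n1 (-1920, -5504) (by decide +kernel)
      (CovZ.n2 (-2048, -5504) (by decide +kernel)
       (CovZ.n2 (-1984, -5440) (by decide +kernel)
        (CovZ.badM (by decide +kernel))
        (CovZ.n1 (-2048, -5440) (by decide +kernel)
         (CovZ.n2 (-2016, -5408) (by decide +kernel)
          (CovZ.badM (by decide +kernel))
          (CovZ.leaf K2_ok TW_l3426 _))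
         (CovZ.badM (by decide +kernel))))
       (CovZ.badM (by decide +kernel)))
      (CovZ.n1 (-1920, -5376) (by decide +kernel)
       (CovZ.n2 (-1856, -5440) (by decide +kernel)
        (CovZ.n2 (-1920, -5440) (by decide +kernel)
         (CovZ.n2 (-1888, -5408) (by decide +kernel)
          (CovZ.badM (by decide +kernel))
          (CovZ.n1 (-1920, -5408) (by decide +kernel)
           (CovZ.leaf K2_ok TW_l3427 _)
           (CovZ.badM (by decide +kernel))))
         (CovZ.badM (by decide +kernel)))
        (CovZ.n1 (-1856, -5376) (by decide +kernel)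
         (CovZ.n2 (-1824, -5408) (by decide +kernel)
          (CovZ.n2 (-1856, -5408) (by decide +kernel)
           (CovZ.n2 (-1840, -5392) (by decide +kernel)
            (CovZ.leaf K2_ok TW_l3428 _)
            (CovZ.leaf K2_ok TW_l3429 _))
           (CovZ.badM (by decide +kernel)))
          (CovZ.n1 (-1824, -5376) (by decide +kernel)
           (CovZ.n2 (-1808, -5392) (by decide +kernel)
            (CovZ.leaf K2_ok TW_l3430 _)
            (CovZ.n1 (-1808, -5376) (by decide +kernel)
             (CovZ.leaf K2_ok TW_l3431 _)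
             (CovZ.leaf K2_ok TW_l3432 _)))
           (CovZ.n1 (-1840, -5392) (by decide +kernel)
            (CovZ.leaf K2_ok TW_l3433 _)
            (CovZ.leaf K2_ok TW_l3434 _))))
         (CovZ.n1 (-1888, -5408) (by decide +kernel)
          (CovZ.n2 (-1888, -5376) (by decide +kernel)
           (CovZ.leaf K2_ok TW_l3435 _)
           (CovZ.leaf K2_ok TW_l3436 _))
          (CovZ.n1 (-1856, -5408) (by decide +kernel)
           (CovZ.badM (by decide +kernel))
           (CovZ.leaf K2_ok TW_l3437 _)))))
       (CovZ.n1 (-1984, -5440) (by decide +kernel)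
        (CovZ.n2 (-1984, -5376) (by decide +kernel)
         (CovZ.n2 (-1952, -5408) (by decide +kernel)
          (CovZ.leaf K2_ok TW_l3438 _)
          (CovZ.leaf K2_ok TW_l3439 _))
         (CovZ.n1 (-2016, -5408) (by decide +kernel)
          (CovZ.leaf K2_ok TW_l3440 _)
          (CovZ.leaf K2_ok TW_l3441 _)))
        (CovZ.n1 (-1920, -5440) (by decide +kernel)
         (CovZ.badM (by decide +kernel))
         (CovZ.n1 (-1952, -5408) (by decide +kernel)
          (CovZ.n2 (-1920, -5408) (by decide +kernel)
           (CovZ.badM (by decide +kernel))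
           (CovZ.leaf K2_ok TW_l3442 _))
          (CovZ.badM (by decide +kernel))))))))

theorem TW_u5 : CovZ TW_M (toL (selN TW_LN 24)) [0, 7, 4, 3] (-1792, -5376) (-1536, -5120) (-2048, -5120) :=
    (CovZ.n1 (-1792, -5120) (by decide +kernel)
     (CovZ.n2 (-1664, -5248) (by decide +kernel)
      (CovZ.n2 (-1792, -5248) (by decide +kernel)
       (CovZ.n2 (-1728, -5184) (by decide +kernel)
        (CovZ.n2 (-1728, -5248) (by decide +kernel)
         (CovZ.n2 (-1760, -5216) (by decide +kernel)
          (CovZ.n2 (-1728, -5216) (by decide +kernel)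
           (CovZ.leaf K2_ok TW_l3443 _)
           (CovZ.leaf K2_ok TW_l3444 _))
          (CovZ.n1 (-1760, -5248) (by decide +kernel)
           (CovZ.leaf K2_ok TW_l3445 _)
           (CovZ.leaf K2_ok TW_l3446 _)))
         (CovZ.n1 (-1696, -5216) (by decide +kernel)
          (CovZ.badM (by decide +kernel))
          (CovZ.n1 (-1728, -5216) (by decide +kernel)
           (CovZ.leaf K2_ok TW_l3447 _)
           (CovZ.n1 (-1712, -5232) (by decide +kernel)
            (CovZ.leaf K2_ok TW_l3448 _)
            (CovZ.leaf K2_ok TW_l3449 _)))))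
        (CovZ.n1 (-1792, -5184) (by decide +kernel)
         (CovZ.leaf K2_ok TW_l3450 _)
         (CovZ.n1 (-1760, -5216) (by decide +kernel)
          (CovZ.leaf K2_ok TW_l3451 _)
          (CovZ.leaf K2_ok TW_l3452 _))))
       (CovZ.n1 (-1728, -5312) (by decide +kernel)
        (CovZ.n2 (-1792, -5312) (by decide +kernel)
         (CovZ.n2 (-1760, -5280) (by decide +kernel)
          (CovZ.n2 (-1760, -5312) (by decide +kernel)
           (CovZ.n2 (-1776, -5296) (by decide +kernel)
            (CovZ.leaf K2_ok TW_l3453 _)
            (CovZ.leaf K2_ok TW_l3454 _))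
           (CovZ.n1 (-1744, -5296) (by decide +kernel)
            (CovZ.badM (by decide +kernel))
            (CovZ.leaf K2_ok TW_l3455 _)))
          (CovZ.n1 (-1792, -5280) (by decide +kernel)
           (CovZ.leaf K2_ok TW_l3456 _)
           (CovZ.leaf K2_ok TW_l3457 _)))
         (CovZ.n1 (-1760, -5344) (by decide +kernel)
          (CovZ.n2 (-1792, -5344) (by decide +kernel)
           (CovZ.n2 (-1776, -5328) (by decide +kernel)
            (CovZ.leaf K2_ok TW_l3458 _)
            (CovZ.leaf K2_ok TW_l3459 _))
           (CovZ.n1 (-1776, -5360) (by decide +kernel)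
            (CovZ.n2 (-1792, -5360) (by decide +kernel)
             (CovZ.leaf K2_ok TW_l3460 _)
             (CovZ.badM (by decide +kernel)))
            (CovZ.n1 (-1776, -5344) (by decide +kernel)
             (CovZ.badM (by decide +kernel))
             (CovZ.leaf K2_ok TW_l3461 _))))
          (CovZ.n1 (-1760, -5312) (by decide +kernel)
           (CovZ.badM (by decide +kernel))
           (CovZ.n1 (-1776, -5328) (by decide +kernel)
            (CovZ.leaf K2_ok TW_l3462 _)
            (CovZ.badM (by decide +kernel))))))
        (CovZ.n1 (-1728, -5248) (by decide +kernel)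
         (CovZ.badM (by decide +kernel))
         (CovZ.n1 (-1760, -5280) (by decide +kernel)
          (CovZ.n2 (-1760, -5248) (by decide +kernel)
           (CovZ.leaf K2_ok TW_l3463 _)
           (CovZ.leaf K2_ok TW_l3464 _))
          (CovZ.n1 (-1728, -5280) (by decide +kernel)
           (CovZ.n2 (-1744, -5296) (by decide +kernel)
            (CovZ.leaf K2_ok TW_l3465 _)
            (CovZ.badM (by decide +kernel)))
           (CovZ.n1 (-1744, -5264) (by decide +kernel)
            (CovZ.leaf K2_ok TW_l3466 _)
            (CovZ.leaf K2_ok TW_l3467 _)))))))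
      (CovZ.n1 (-1664, -5120) (by decide +kernel)
       (CovZ.n2 (-1600, -5184) (by decide +kernel)
        (CovZ.n2 (-1664, -5184) (by decide +kernel)
         (CovZ.n2 (-1632, -5152) (by decide +kernel)
          (CovZ.badM (by decide +kernel))
          (CovZ.n1 (-1664, -5152) (by decide +kernel)
           (CovZ.leaf K2_ok TW_l3468 _)
           (CovZ.badM (by decide +kernel))))
         (CovZ.badM (by decide +kernel)))
        (CovZ.n1 (-1600, -5120) (by decide +kernel)
         (CovZ.badM (by decide +kernel))
         (CovZ.n1 (-1632, -5152) (by decide +kernel)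
          (CovZ.n2 (-1632, -5120) (by decide +kernel)
           (CovZ.badM (by decide +kernel))
           (CovZ.n1 (-1648, -5136) (by decide +kernel)
            (CovZ.leaf K2_ok TW_l3469 _)
            (CovZ.badM (by decide +kernel))))
          (CovZ.badM (by decide +kernel)))))
       (CovZ.n1 (-1728, -5184) (by decide +kernel)
        (CovZ.n2 (-1728, -5120) (by decide +kernel)
         (CovZ.n2 (-1696, -5152) (by decide +kernel)
          (CovZ.leaf K2_ok TW_l3470 _)
          (CovZ.n1 (-1696, -5120) (by decide +kernel)
           (CovZ.leaf K2_ok TW_l3471 _)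
           (CovZ.leaf K2_ok TW_l3472 _)))
         (CovZ.n1 (-1760, -5152) (by decide +kernel)
          (CovZ.leaf K2_ok TW_l3473 _)
          (CovZ.leaf K2_ok TW_l3474 _)))
        (CovZ.n1 (-1664, -5184) (by decide +kernel)
         (CovZ.n2 (-1696, -5216) (by decide +kernel)
          (CovZ.n2 (-1696, -5184) (by decide +kernel)
           (CovZ.n2 (-1680, -5200) (by decide +kernel)
            (CovZ.leaf K2_ok TW_l3475 _)
            (CovZ.leaf K2_ok TW_l3476 _))
           (CovZ.n1 (-1712, -5200) (by decide +kernel)
            (CovZ.leaf K2_ok TW_l3477 _)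
            (CovZ.leaf K2_ok TW_l3478 _)))
          (CovZ.badM (by decide +kernel)))
         (CovZ.n1 (-1696, -5152) (by decide +kernel)
          (CovZ.n2 (-1664, -5152) (by decide +kernel)
           (CovZ.n2 (-1680, -5168) (by decide +kernel)
            (CovZ.leaf K2_ok TW_l3479 _)
            (CovZ.badM (by decide +kernel)))
           (CovZ.leaf K2_ok TW_l3480 _))
          (CovZ.n1 (-1696, -5184) (by decide +kernel)
           (CovZ.leaf K2_ok TW_l3481 _)
           (CovZ.leaf K2_ok TW_l3482 _)))))))
     (CovZ.n1 (-1920, -5248) (by decide +kernel)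
      (CovZ.n2 (-1920, -5120) (by decide +kernel)
       (CovZ.n2 (-1856, -5184) (by decide +kernel)
        (CovZ.n2 (-1920, -5184) (by decide +kernel)
         (CovZ.leaf K2_ok TW_l3483 _)
         (CovZ.leaf K2_ok TW_l3484 _))
        (CovZ.n1 (-1856, -5120) (by decide +kernel)
         (CovZ.leaf K2_ok TW_l3485 _)
         (CovZ.leaf K2_ok TW_l3486 _)))
       (CovZ.n1 (-1984, -5184) (by decide +kernel)
        (CovZ.leaf K2_ok TW_l1040 _)
        (CovZ.leaf K2_ok TW_l3487 _)))
      (CovZ.n1 (-1792, -5248) (by decide +kernel)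
       (CovZ.n2 (-1856, -5312) (by decide +kernel)
        (CovZ.n2 (-1856, -5248) (by decide +kernel)
         (CovZ.n2 (-1824, -5280) (by decide +kernel)
          (CovZ.leaf K2_ok TW_l3488 _)
          (CovZ.leaf K2_ok TW_l3489 _))
         (CovZ.n1 (-1888, -5280) (by decide +kernel)
          (CovZ.leaf K2_ok TW_l3490 _)
          (CovZ.leaf K2_ok TW_l3491 _)))
        (CovZ.n1 (-1792, -5312) (by decide +kernel)
         (CovZ.n2 (-1824, -5344) (by decide +kernel)
          (CovZ.n2 (-1824, -5312) (by decide +kernel)
           (CovZ.leaf K2_ok TW_l3492 _)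
           (CovZ.leaf K2_ok TW_l3493 _))
          (CovZ.n1 (-1792, -5344) (by decide +kernel)
           (CovZ.n2 (-1808, -5360) (by decide +kernel)
            (CovZ.leaf K2_ok TW_l3494 _)
            (CovZ.leaf K2_ok TW_l3495 _))
           (CovZ.leaf K2_ok TW_l3496 _)))
         (CovZ.n1 (-1824, -5280) (by decide +kernel)
          (CovZ.n2 (-1792, -5280) (by decide +kernel)
           (CovZ.leaf K2_ok TW_l3497 _)
           (CovZ.leaf K2_ok TW_l3498 _))
          (CovZ.leaf K2_ok TW_l3499 _))))
       (CovZ.n1 (-1856, -5184) (by decide +kernel)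
        (CovZ.n2 (-1792, -5184) (by decide +kernel)
         (CovZ.n2 (-1824, -5216) (by decide +kernel)
          (CovZ.leaf K2_ok TW_l3500 _)
          (CovZ.leaf K2_ok TW_l3501 _))
         (CovZ.leaf K2_ok TW_l3502 _))
        (CovZ.n1 (-1856, -5248) (by decide +kernel)
         (CovZ.leaf K2_ok TW_l3503 _)
         (CovZ.leaf K2_ok TW_l3504 _))))))

theorem TW_u6 : CovZ TW_M (toL (selN TW_LN 24)) [0, 7, 4, 3] (-1024, -4096) (-1280, -4352) (-1024, -4608) :=
    (CovZ.n2 (-1024, -4352) (by decide +kernel)
     (CovZ.n2 (-1152, -4480) (by decide +kernel)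
      (CovZ.n2 (-1152, -4352) (by decide +kernel)
       (CovZ.n2 (-1088, -4416) (by decide +kernel)
        (CovZ.n2 (-1152, -4416) (by decide +kernel)
         (CovZ.n2 (-1120, -4384) (by decide +kernel)
          (CovZ.n2 (-1120, -4416) (by decide +kernel)
           (CovZ.leaf K2_ok TW_l3653 _)
           (CovZ.n1 (-1104, -4400) (by decide +kernel)
            (CovZ.badM (by decide +kernel))
            (CovZ.leaf K2_ok TW_l3654 _)))
          (CovZ.n1 (-1152, -4384) (by decide +kernel)
           (CovZ.leaf K2_ok TW_l3655 _)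
           (CovZ.leaf K2_ok TW_l3656 _)))
         (CovZ.n1 (-1120, -4448) (by decide +kernel)
          (CovZ.n2 (-1152, -4448) (by decide +kernel)
           (CovZ.leaf K2_ok TW_l3657 _)
           (CovZ.badM (by decide +kernel)))
          (CovZ.n1 (-1120, -4416) (by decide +kernel)
           (CovZ.badM (by decide +kernel))
           (CovZ.n1 (-1136, -4432) (by decide +kernel)
            (CovZ.leaf K2_ok TW_l3658 _)
            (CovZ.badM (by decide +kernel))))))
        (CovZ.n1 (-1088, -4352) (by decide +kernel)
         (CovZ.n2 (-1056, -4384) (by decide +kernel)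
          (CovZ.n2 (-1088, -4384) (by decide +kernel)
           (CovZ.n2 (-1072, -4368) (by decide +kernel)
            (CovZ.badM (by decide +kernel))
            (CovZ.leaf K2_ok TW_l3659 _))
           (CovZ.badM (by decide +kernel)))
          (CovZ.n1 (-1056, -4352) (by decide +kernel)
           (CovZ.badM (by decide +kernel))
           (CovZ.n1 (-1072, -4368) (by decide +kernel)
            (CovZ.leaf K2_ok TW_l3660 _)
            (CovZ.badM (by decide +kernel)))))
         (CovZ.n1 (-1120, -4384) (by decide +kernel)
          (CovZ.n2 (-1120, -4352) (by decide +kernel)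
           (CovZ.leaf K2_ok TW_l3661 _)
           (CovZ.leaf K2_ok TW_l3662 _))
          (CovZ.n1 (-1088, -4384) (by decide +kernel)
           (CovZ.n2 (-1104, -4400) (by decide +kernel)
            (CovZ.leaf K2_ok TW_l3663 _)
            (CovZ.badM (by decide +kernel)))
           (CovZ.leaf K2_ok TW_l3664 _)))))
       (CovZ.n1 (-1216, -4416) (by decide +kernel)
        (CovZ.n2 (-1216, -4352) (by decide +kernel)
         (CovZ.n2 (-1184, -4384) (by decide +kernel)
          (CovZ.leaf K2_ok TW_l3665 _)
          (CovZ.leaf K2_ok TW_l3666 _))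
         (CovZ.n1 (-1248, -4384) (by decide +kernel)
          (CovZ.leaf K2_ok TW_l1456 _)
          (CovZ.leaf K2_ok TW_l3667 _)))
        (CovZ.n1 (-1152, -4416) (by decide +kernel)
         (CovZ.n2 (-1184, -4448) (by decide +kernel)
          (CovZ.n2 (-1184, -4416) (by decide +kernel)
           (CovZ.leaf K2_ok TW_l3668 _)
           (CovZ.leaf K2_ok TW_l3669 _))
          (CovZ.n1 (-1152, -4448) (by decide +kernel)
           (CovZ.n2 (-1168, -4464) (by decide +kernel)
            (CovZ.leaf K2_ok TW_l3670 _)
            (CovZ.badM (by decide +kernel)))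
           (CovZ.leaf K2_ok TW_l3671 _)))
         (CovZ.n1 (-1184, -4384) (by decide +kernel)
          (CovZ.n2 (-1152, -4384) (by decide +kernel)
           (CovZ.leaf K2_ok TW_l3672 _)
           (CovZ.leaf K2_ok TW_l3673 _))
          (CovZ.leaf K2_ok TW_l3674 _)))))
      (CovZ.badM (by decide +kernel)))
     (CovZ.n1 (-1152, -4224) (by decide +kernel)
      (CovZ.n2 (-1024, -4224) (by decide +kernel)
       (CovZ.n2 (-1088, -4288) (by decide +kernel)
        (CovZ.n2 (-1088, -4224) (by decide +kernel)
         (CovZ.n2 (-1056, -4256) (by decide +kernel)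
          (CovZ.n2 (-1088, -4256) (by decide +kernel)
           (CovZ.leaf K2_ok TW_l3675 _)
           (CovZ.n1 (-1072, -4272) (by decide +kernel)
            (CovZ.leaf K2_ok TW_l3676 _)
            (CovZ.leaf K2_ok TW_l3677 _)))
          (CovZ.n1 (-1056, -4224) (by decide +kernel)
           (CovZ.badM (by decide +kernel))
           (CovZ.n1 (-1072, -4240) (by decide +kernel)
            (CovZ.leaf K2_ok TW_l3678 _)
            (CovZ.badM (by decide +kernel)))))
         (CovZ.n1 (-1120, -4256) (by decide +kernel)
          (CovZ.n2 (-1120, -4224) (by decide +kernel)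
           (CovZ.leaf K2_ok TW_l1457 _)
           (CovZ.leaf K2_ok TW_l1458 _))
          (CovZ.n1 (-1088, -4256) (by decide +kernel)
           (CovZ.n2 (-1104, -4272) (by decide +kernel)
            (CovZ.leaf K2_ok TW_l3679 _)
            (CovZ.leaf K2_ok TW_l3680 _))
           (CovZ.leaf K2_ok TW_l3681 _))))
        (CovZ.n1 (-1024, -4288) (by decide +kernel)
         (CovZ.n2 (-1056, -4320) (by decide +kernel)
          (CovZ.n2 (-1056, -4288) (by decide +kernel)
           (CovZ.n2 (-1040, -4304) (by decide +kernel)
            (CovZ.leaf K2_ok TW_l3682 _)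
            (CovZ.n1 (-1040, -4288) (by decide +kernel)
             (CovZ.badM (by decide +kernel))
             (CovZ.leaf K2_ok TW_l3683 _)))
           (CovZ.n1 (-1072, -4304) (by decide +kernel)
            (CovZ.leaf K2_ok TW_l3684 _)
            (CovZ.leaf K2_ok TW_l3685 _)))
          (CovZ.n1 (-1024, -4320) (by decide +kernel)
           (CovZ.n2 (-1040, -4336) (by decide +kernel)
            (CovZ.n2 (-1040, -4320) (by decide +kernel)
             (CovZ.leaf K2_ok TW_l3686 _)
             (CovZ.leaf K2_ok TW_l3687 _))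
            (CovZ.badM (by decide +kernel)))
           (CovZ.n1 (-1040, -4304) (by decide +kernel)
            (CovZ.badM (by decide +kernel))
            (CovZ.leaf K2_ok TW_l3688 _))))
         (CovZ.n1 (-1056, -4256) (by decide +kernel)
          (CovZ.badM (by decide +kernel))
          (CovZ.n1 (-1056, -4288) (by decide +kernel)
           (CovZ.n2 (-1072, -4272) (by decide +kernel)
            (CovZ.leaf K2_ok TW_l3689 _)
            (CovZ.leaf K2_ok TW_l3690 _))
           (CovZ.n1 (-1040, -4272) (by decide +kernel)
            (CovZ.leaf K2_ok TW_l3691 _)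
            (CovZ.leaf K2_ok TW_l3692 _))))))
       (CovZ.n1 (-1088, -4160) (by decide +kernel)
        (CovZ.n2 (-1024, -4160) (by decide +kernel)
         (CovZ.n2 (-1056, -4192) (by decide +kernel)
          (CovZ.n2 (-1056, -4160) (by decide +kernel)
           (CovZ.badM (by decide +kernel))
           (CovZ.n1 (-1072, -4176) (by decide +kernel)
            (CovZ.leaf K2_ok TW_l1461 _)
            (CovZ.badM (by decide +kernel))))
          (CovZ.badM (by decide +kernel)))
         (CovZ.n1 (-1056, -4128) (by decide +kernel)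
          (CovZ.badM (by decide +kernel))
          (CovZ.n1 (-1056, -4160) (by decide +kernel)
           (CovZ.leaf K2_ok TW_l1467 _)
           (CovZ.badM (by decide +kernel)))))
        (CovZ.n1 (-1088, -4224) (by decide +kernel)
         (CovZ.n2 (-1120, -4192) (by decide +kernel)
          (CovZ.n2 (-1088, -4192) (by decide +kernel)
           (CovZ.leaf K2_ok TW_l1470 _)
           (CovZ.leaf K2_ok TW_l1471 _))
          (CovZ.n1 (-1120, -4224) (by decide +kernel)
           (CovZ.leaf K2_ok TW_l1472 _)
           (CovZ.leaf K2_ok TW_l1473 _)))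
         (CovZ.n1 (-1056, -4192) (by decide +kernel)
          (CovZ.n2 (-1056, -4224) (by decide +kernel)
           (CovZ.n2 (-1072, -4208) (by decide +kernel)
            (CovZ.badM (by decide +kernel))
            (CovZ.leaf K2_ok TW_l3693 _))
           (CovZ.badM (by decide +kernel)))
          (CovZ.n1 (-1088, -4192) (by decide +kernel)
           (CovZ.leaf K2_ok TW_l1474 _)
           (CovZ.n1 (-1072, -4208) (by decide +kernel)
            (CovZ.leaf K2_ok TW_l1475 _)
            (CovZ.badM (by decide +kernel))))))))
      (CovZ.n1 (-1152, -4352) (by decide +kernel)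
       (CovZ.n2 (-1216, -4288) (by decide +kernel)
        (CovZ.n2 (-1152, -4288) (by decide +kernel)
         (CovZ.n2 (-1184, -4320) (by decide +kernel)
          (CovZ.leaf K2_ok TW_l1477 _)
          (CovZ.n1 (-1152, -4320) (by decide +kernel)
           (CovZ.leaf K2_ok TW_l3694 _)
           (CovZ.leaf K2_ok TW_l3695 _)))
         (CovZ.n1 (-1184, -4256) (by decide +kernel)
          (CovZ.leaf K2_ok TW_l1478 _)
          (CovZ.leaf K2_ok TW_l1479 _)))
        (CovZ.n1 (-1216, -4352) (by decide +kernel)
         (CovZ.n2 (-1248, -4320) (by decide +kernel)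
          (CovZ.leaf K2_ok TW_l1480 _)
          (CovZ.leaf K2_ok TW_l1481 _))
         (CovZ.n1 (-1184, -4320) (by decide +kernel)
          (CovZ.leaf K2_ok TW_l3696 _)
          (CovZ.leaf K2_ok TW_l1482 _))))
       (CovZ.n1 (-1088, -4288) (by decide +kernel)
        (CovZ.n2 (-1088, -4352) (by decide +kernel)
         (CovZ.n2 (-1120, -4320) (by decide +kernel)
          (CovZ.n2 (-1088, -4320) (by decide +kernel)
           (CovZ.n2 (-1104, -4336) (by decide +kernel)
            (CovZ.leaf K2_ok TW_l3697 _)
            (CovZ.leaf K2_ok TW_l3698 _))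
           (CovZ.leaf K2_ok TW_l3699 _))
          (CovZ.n1 (-1120, -4352) (by decide +kernel)
           (CovZ.leaf K2_ok TW_l3700 _)
           (CovZ.leaf K2_ok TW_l3701 _)))
         (CovZ.n1 (-1056, -4320) (by decide +kernel)
          (CovZ.n2 (-1056, -4352) (by decide +kernel)
           (CovZ.n2 (-1072, -4336) (by decide +kernel)
            (CovZ.leaf K2_ok TW_l3702 _)
            (CovZ.leaf K2_ok TW_l3703 _))
           (CovZ.n1 (-1040, -4336) (by decide +kernel)
            (CovZ.badM (by decide +kernel))
            (CovZ.leaf K2_ok TW_l3704 _)))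
          (CovZ.n1 (-1088, -4320) (by decide +kernel)
           (CovZ.leaf K2_ok TW_l3705 _)
           (CovZ.n1 (-1072, -4336) (by decide +kernel)
            (CovZ.leaf K2_ok TW_l3706 _)
            (CovZ.leaf K2_ok TW_l3707 _)))))
        (CovZ.n1 (-1152, -4288) (by decide +kernel)
         (CovZ.n2 (-1120, -4256) (by decide +kernel)
          (CovZ.n2 (-1120, -4288) (by decide +kernel)
           (CovZ.leaf K2_ok TW_l3708 _)
           (CovZ.leaf K2_ok TW_l3709 _))
          (CovZ.n1 (-1152, -4256) (by decide +kernel)
           (CovZ.leaf K2_ok TW_l1483 _)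
           (CovZ.leaf K2_ok TW_l1484 _)))
         (CovZ.n1 (-1120, -4320) (by decide +kernel)
          (CovZ.n2 (-1152, -4320) (by decide +kernel)
           (CovZ.leaf K2_ok TW_l3710 _)
           (CovZ.leaf K2_ok TW_l3711 _))
          (CovZ.n1 (-1120, -4288) (by decide +kernel)
           (CovZ.leaf K2_ok TW_l3712 _)
           (CovZ.leaf K2_ok TW_l3713 _))))))))

theorem TW_u7 : CovZ TW_M (toL (selN TW_LN 24)) [0, 7, 4, 3] (-1280, -4352) (-1536, -4608) (-1024, -4608) :=
    (CovZ.n1 (-1280, -4608) (by decide +kernel)
     (CovZ.n2 (-1408, -4480) (by decide +kernel)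
      (CovZ.n2 (-1280, -4480) (by decide +kernel)
       (CovZ.n2 (-1344, -4544) (by decide +kernel)
        (CovZ.n2 (-1344, -4480) (by decide +kernel)
         (CovZ.leaf K2_ok TW_l3714 _)
         (CovZ.leaf K2_ok TW_l1485 _))
        (CovZ.n1 (-1280, -4544) (by decide +kernel)
         (CovZ.n2 (-1312, -4576) (by decide +kernel)
          (CovZ.leaf K2_ok TW_l3715 _)
          (CovZ.n1 (-1280, -4576) (by decide +kernel)
           (CovZ.leaf K2_ok TW_l3716 _)
           (CovZ.leaf K2_ok TW_l3717 _)))
         (CovZ.leaf K2_ok TW_l3718 _)))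
       (CovZ.n1 (-1344, -4416) (by decide +kernel)
        (CovZ.n2 (-1280, -4416) (by decide +kernel)
         (CovZ.n2 (-1312, -4448) (by decide +kernel)
          (CovZ.leaf K2_ok TW_l1486 _)
          (CovZ.leaf K2_ok TW_l3719 _))
         (CovZ.leaf K2_ok TW_l1487 _))
        (CovZ.n1 (-1344, -4480) (by decide +kernel)
         (CovZ.leaf K2_ok TW_l1488 _)
         (CovZ.leaf K2_ok TW_l1489 _))))
      (CovZ.n1 (-1408, -4608) (by decide +kernel)
       (CovZ.n2 (-1472, -4544) (by decide +kernel)
        (CovZ.n2 (-1408, -4544) (by decide +kernel)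
         (CovZ.leaf K2_ok TW_l1490 _)
         (CovZ.leaf K2_ok TW_l1491 _))
        (CovZ.leaf K2_ok TW_l1492 _))
       (CovZ.n1 (-1344, -4544) (by decide +kernel)
        (CovZ.n2 (-1344, -4608) (by decide +kernel)
         (CovZ.leaf K2_ok TW_l3720 _)
         (CovZ.n1 (-1312, -4576) (by decide +kernel)
          (CovZ.leaf K2_ok TW_l3721 _)
          (CovZ.leaf K2_ok TW_l3722 _)))
        (CovZ.n1 (-1408, -4544) (by decide +kernel)
         (CovZ.leaf K2_ok TW_l1493 _)
         (CovZ.leaf K2_ok TW_l3723 _)))))
     (CovZ.n1 (-1152, -4480) (by decide +kernel)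
      (CovZ.badM (by decide +kernel))
      (CovZ.n1 (-1280, -4480) (by decide +kernel)
       (CovZ.n2 (-1216, -4416) (by decide +kernel)
        (CovZ.n2 (-1216, -4480) (by decide +kernel)
         (CovZ.n2 (-1248, -4448) (by decide +kernel)
          (CovZ.leaf K2_ok TW_l3724 _)
          (CovZ.leaf K2_ok TW_l3725 _))
         (CovZ.n1 (-1184, -4448) (by decide +kernel)
          (CovZ.n2 (-1184, -4480) (by decide +kernel)
           (CovZ.leaf K2_ok TW_l3726 _)
           (CovZ.leaf K2_ok TW_l3727 _))
          (CovZ.leaf K2_ok TW_l3728 _)))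
        (CovZ.n1 (-1280, -4416) (by decide +kernel)
         (CovZ.leaf K2_ok TW_l1494 _)
         (CovZ.n1 (-1248, -4448) (by decide +kernel)
          (CovZ.leaf K2_ok TW_l3729 _)
          (CovZ.leaf K2_ok TW_l3730 _))))
       (CovZ.n1 (-1216, -4544) (by decide +kernel)
        (CovZ.n2 (-1280, -4544) (by decide +kernel)
         (CovZ.n2 (-1248, -4512) (by decide +kernel)
          (CovZ.n2 (-1248, -4544) (by decide +kernel)
           (CovZ.leaf K2_ok TW_l3731 _)
           (CovZ.leaf K2_ok TW_l3732 _))
          (CovZ.leaf K2_ok TW_l3733 _))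
         (CovZ.n1 (-1248, -4576) (by decide +kernel)
          (CovZ.n2 (-1280, -4576) (by decide +kernel)
           (CovZ.leaf K2_ok TW_l3734 _)
           (CovZ.badM (by decide +kernel)))
          (CovZ.n1 (-1248, -4544) (by decide +kernel)
           (CovZ.badM (by decide +kernel))
           (CovZ.leaf K2_ok TW_l3735 _))))
        (CovZ.n1 (-1216, -4480) (by decide +kernel)
         (CovZ.n2 (-1184, -4512) (by decide +kernel)
          (CovZ.n2 (-1216, -4512) (by decide +kernel)
           (CovZ.leaf K2_ok TW_l3736 _)
           (CovZ.badM (by decide +kernel)))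
          (CovZ.n1 (-1184, -4480) (by decide +kernel)
           (CovZ.badM (by decide +kernel))
           (CovZ.n1 (-1200, -4496) (by decide +kernel)
            (CovZ.leaf K2_ok TW_l3737 _)
            (CovZ.badM (by decide +kernel)))))
         (CovZ.n1 (-1248, -4512) (by decide +kernel)
          (CovZ.leaf K2_ok TW_l3738 _)
          (CovZ.n1 (-1216, -4512) (by decide +kernel)
           (CovZ.leaf K2_ok TW_l3739 _)
           (CovZ.leaf K2_ok TW_l3740 _))))))))

theorem TW_u8 : CovZ TW_M (toL (selN TW_LN 4)) [0, 7, 4, 3] (-512, -3584) (-768, -3840) (-512, -4096) :=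
    (CovZ.n2 (-512, -3840) (by decide +kernel)
     (CovZ.n2 (-640, -3968) (by decide +kernel)
      (CovZ.n2 (-640, -3840) (by decide +kernel)
       (CovZ.n2 (-576, -3904) (by decide +kernel)
        (CovZ.n2 (-640, -3904) (by decide +kernel)
         (CovZ.n2 (-608, -3872) (by decide +kernel)
          (CovZ.leaf K2_ok TW_l1941 _)
          (CovZ.leaf K2_ok TW_l1942 _))
         (CovZ.n1 (-608, -3936) (by decide +kernel)
          (CovZ.n2 (-640, -3936) (by decide +kernel)
           (CovZ.leaf K2_ok TW_l3802 _)
           (CovZ.leaf K2_ok TW_l3803 _))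
          (CovZ.n1 (-608, -3904) (by decide +kernel)
           (CovZ.leaf K2_ok TW_l3804 _)
           (CovZ.leaf K2_ok TW_l3805 _))))
        (CovZ.n1 (-576, -3840) (by decide +kernel)
         (CovZ.n2 (-544, -3872) (by decide +kernel)
          (CovZ.leaf K2_ok TW_l1943 _)
          (CovZ.leaf K2_ok TW_l1944 _))
         (CovZ.n1 (-608, -3872) (by decide +kernel)
          (CovZ.leaf K2_ok TW_l1945 _)
          (CovZ.leaf K2_ok TW_l1946 _))))
       (CovZ.n1 (-704, -3904) (by decide +kernel)
        (CovZ.n2 (-704, -3840) (by decide +kernel)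
         (CovZ.n2 (-672, -3872) (by decide +kernel)
          (CovZ.leaf K2_ok TW_l1947 _)
          (CovZ.leaf K2_ok TW_l1948 _))
         (CovZ.n1 (-736, -3872) (by decide +kernel)
          (CovZ.leaf K2_ok TW_l1949 _)
          (CovZ.leaf K2_ok TW_l1950 _)))
        (CovZ.n1 (-640, -3904) (by decide +kernel)
         (CovZ.n2 (-672, -3936) (by decide +kernel)
          (CovZ.n2 (-672, -3904) (by decide +kernel)
           (CovZ.leaf K2_ok TW_l3806 _)
           (CovZ.leaf K2_ok TW_l3807 _))
          (CovZ.n1 (-640, -3936) (by decide +kernel)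
           (CovZ.n2 (-656, -3952) (by decide +kernel)
            (CovZ.leaf K2_ok TW_l3808 _)
            (CovZ.leaf K2_ok TW_l3809 _))
           (CovZ.leaf K2_ok TW_l3810 _)))
         (CovZ.n1 (-672, -3872) (by decide +kernel)
          (CovZ.leaf K2_ok TW_l1951 _)
          (CovZ.leaf K2_ok TW_l1952 _)))))
      (CovZ.n1 (-512, -3968) (by decide +kernel)
       (CovZ.badM (by decide +kernel))
       (CovZ.n1 (-576, -3904) (by decide +kernel)
        (CovZ.n2 (-512, -3904) (by decide +kernel)
         (CovZ.n2 (-544, -3936) (by decide +kernel)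
          (CovZ.n2 (-544, -3904) (by decide +kernel)
           (CovZ.leaf K2_ok TW_l3811 _)
           (CovZ.leaf K2_ok TW_l3812 _))
          (CovZ.n1 (-512, -3936) (by decide +kernel)
           (CovZ.badM (by decide +kernel))
           (CovZ.leaf K2_ok TW_l3813 _)))
         (CovZ.n1 (-544, -3872) (by decide +kernel)
          (CovZ.leaf K2_ok TW_l1953 _)
          (CovZ.n1 (-544, -3904) (by decide +kernel)
           (CovZ.leaf K2_ok TW_l1954 _)
           (CovZ.leaf K2_ok TW_l1955 _))))
        (CovZ.n1 (-576, -3968) (by decide +kernel)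
         (CovZ.n2 (-608, -3936) (by decide +kernel)
          (CovZ.n2 (-576, -3936) (by decide +kernel)
           (CovZ.n2 (-592, -3952) (by decide +kernel)
            (CovZ.leaf K2_ok TW_l3814 _)
            (CovZ.leaf K2_ok TW_l3815 _))
           (CovZ.leaf K2_ok TW_l3816 _))
          (CovZ.n1 (-608, -3968) (by decide +kernel)
           (CovZ.leaf K2_ok TW_l3817 _)
           (CovZ.leaf K2_ok TW_l3818 _)))
         (CovZ.n1 (-544, -3936) (by decide +kernel)
          (CovZ.badM (by decide +kernel))
          (CovZ.n1 (-576, -3936) (by decide +kernel)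
           (CovZ.leaf K2_ok TW_l3819 _)
           (CovZ.n1 (-560, -3952) (by decide +kernel)
            (CovZ.leaf K2_ok TW_l3820 _)
            (CovZ.leaf K2_ok TW_l3821 _))))))))
     (CovZ.n1 (-640, -3712) (by decide +kernel)
      (CovZ.n2 (-512, -3712) (by decide +kernel)
       (CovZ.n2 (-576, -3776) (by decide +kernel)
        (CovZ.n2 (-576, -3712) (by decide +kernel)
         (CovZ.leaf K2_ok TW_l1956 _)
         (CovZ.leaf K2_ok TW_l1957 _))
        (CovZ.n1 (-512, -3776) (by decide +kernel)
         (CovZ.n2 (-544, -3808) (by decide +kernel)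
          (CovZ.leaf K2_ok TW_l1958 _)
          (CovZ.leaf K2_ok TW_l1959 _))
         (CovZ.leaf K2_ok TW_l1960 _)))
       (CovZ.n1 (-576, -3648) (by decide +kernel)
        (CovZ.leaf K2_ok TW_l1961 _)
        (CovZ.leaf K2_ok TW_l1962 _)))
      (CovZ.n1 (-640, -3840) (by decide +kernel)
       (CovZ.n2 (-704, -3776) (by decide +kernel)
        (CovZ.n2 (-640, -3776) (by decide +kernel)
         (CovZ.n2 (-672, -3808) (by decide +kernel)
          (CovZ.leaf K2_ok TW_l1963 _)
          (CovZ.leaf K2_ok TW_l1964 _))
         (CovZ.leaf K2_ok TW_l1965 _))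
        (CovZ.n1 (-704, -3840) (by decide +kernel)
         (CovZ.leaf K2_ok TW_l1966 _)
         (CovZ.leaf K2_ok TW_l1967 _)))
       (CovZ.n1 (-576, -3776) (by decide +kernel)
        (CovZ.n2 (-576, -3840) (by decide +kernel)
         (CovZ.leaf K2_ok TW_l1968 _)
         (CovZ.leaf K2_ok TW_l1969 _))
        (CovZ.n1 (-640, -3776) (by decide +kernel)
         (CovZ.leaf K2_ok TW_l1970 _)
         (CovZ.n1 (-608, -3808) (by decide +kernel)
          (CovZ.leaf K2_ok TW_l1971 _)
          (CovZ.leaf K2_ok TW_l1972 _)))))))

theorem TW_u9 : CovZ TW_M (toL (selN TW_LN 4)) [0, 7, 4, 3] (-768, -3840) (-1024, -4096) (-512, -4096) :=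
    (CovZ.n1 (-768, -4096) (by decide +kernel)
     (CovZ.n2 (-896, -3968) (by decide +kernel)
      (CovZ.n2 (-768, -3968) (by decide +kernel)
       (CovZ.n2 (-832, -4032) (by decide +kernel)
        (CovZ.n2 (-832, -3968) (by decide +kernel)
         (CovZ.n2 (-800, -4000) (by decide +kernel)
          (CovZ.n2 (-832, -4000) (by decide +kernel)
           (CovZ.leaf K2_ok TW_l3822 _)
           (CovZ.n1 (-816, -4016) (by decide +kernel)
            (CovZ.leaf K2_ok TW_l3823 _)
            (CovZ.leaf K2_ok TW_l3824 _)))
          (CovZ.n1 (-800, -3968) (by decide +kernel)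
           (CovZ.leaf K2_ok TW_l3825 _)
           (CovZ.n1 (-816, -3984) (by decide +kernel)
            (CovZ.leaf K2_ok TW_l3826 _)
            (CovZ.leaf K2_ok TW_l3827 _))))
         (CovZ.n1 (-864, -4000) (by decide +kernel)
          (CovZ.n2 (-864, -3968) (by decide +kernel)
           (CovZ.leaf K2_ok TW_l1973 _)
           (CovZ.leaf K2_ok TW_l1974 _))
          (CovZ.n1 (-832, -4000) (by decide +kernel)
           (CovZ.n2 (-848, -4016) (by decide +kernel)
            (CovZ.leaf K2_ok TW_l3828 _)
            (CovZ.leaf K2_ok TW_l3829 _))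
           (CovZ.leaf K2_ok TW_l3830 _))))
        (CovZ.n1 (-768, -4032) (by decide +kernel)
         (CovZ.badM (by decide +kernel))
         (CovZ.n1 (-800, -4000) (by decide +kernel)
          (CovZ.n2 (-768, -4000) (by decide +kernel)
           (CovZ.n2 (-784, -4016) (by decide +kernel)
            (CovZ.leaf K2_ok TW_l3831 _)
            (CovZ.leaf K2_ok TW_l3832 _))
           (CovZ.leaf K2_ok TW_l3833 _))
          (CovZ.n1 (-800, -4032) (by decide +kernel)
           (CovZ.leaf K2_ok TW_l3834 _)
           (CovZ.leaf K2_ok TW_l3835 _)))))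
       (CovZ.n1 (-832, -3904) (by decide +kernel)
        (CovZ.n2 (-768, -3904) (by decide +kernel)
         (CovZ.n2 (-800, -3936) (by decide +kernel)
          (CovZ.n2 (-800, -3904) (by decide +kernel)
           (CovZ.leaf K2_ok TW_l1975 _)
           (CovZ.leaf K2_ok TW_l1976 _))
          (CovZ.n1 (-768, -3936) (by decide +kernel)
           (CovZ.leaf K2_ok TW_l3836 _)
           (CovZ.leaf K2_ok TW_l3837 _)))
         (CovZ.n1 (-800, -3872) (by decide +kernel)
          (CovZ.leaf K2_ok TW_l1977 _)
          (CovZ.leaf K2_ok TW_l1978 _)))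
        (CovZ.n1 (-832, -3968) (by decide +kernel)
         (CovZ.n2 (-864, -3936) (by decide +kernel)
          (CovZ.n2 (-832, -3936) (by decide +kernel)
           (CovZ.leaf K2_ok TW_l1979 _)
           (CovZ.leaf K2_ok TW_l1980 _))
          (CovZ.n1 (-864, -3968) (by decide +kernel)
           (CovZ.leaf K2_ok TW_l1981 _)
           (CovZ.leaf K2_ok TW_l1982 _)))
         (CovZ.n1 (-800, -3936) (by decide +kernel)
          (CovZ.n2 (-800, -3968) (by decide +kernel)
           (CovZ.leaf K2_ok TW_l3838 _)
           (CovZ.leaf K2_ok TW_l3839 _))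
          (CovZ.leaf K2_ok TW_l1983 _)))))
      (CovZ.n1 (-896, -4096) (by decide +kernel)
       (CovZ.n2 (-960, -4032) (by decide +kernel)
        (CovZ.n2 (-896, -4032) (by decide +kernel)
         (CovZ.n2 (-928, -4064) (by decide +kernel)
          (CovZ.n2 (-928, -4032) (by decide +kernel)
           (CovZ.n2 (-912, -4048) (by decide +kernel)
            (CovZ.leaf K2_ok TW_l1984 _)
            (CovZ.leaf K2_ok TW_l1985 _))
           (CovZ.n1 (-944, -4048) (by decide +kernel)
            (CovZ.leaf K2_ok TW_l1986 _)
            (CovZ.leaf K2_ok TW_l1987 _)))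
          (CovZ.n1 (-896, -4064) (by decide +kernel)
           (CovZ.badM (by decide +kernel))
           (CovZ.n1 (-912, -4048) (by decide +kernel)
            (CovZ.leaf K2_ok TW_l3840 _)
            (CovZ.leaf K2_ok TW_l3841 _))))
         (CovZ.n1 (-928, -4000) (by decide +kernel)
          (CovZ.n2 (-896, -4000) (by decide +kernel)
           (CovZ.n2 (-912, -4016) (by decide +kernel)
            (CovZ.leaf K2_ok TW_l1988 _)
            (CovZ.leaf K2_ok TW_l1989 _))
           (CovZ.leaf K2_ok TW_l1990 _))
          (CovZ.n1 (-928, -4032) (by decide +kernel)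
           (CovZ.leaf K2_ok TW_l1991 _)
           (CovZ.leaf K2_ok TW_l1992 _))))
        (CovZ.n1 (-960, -4096) (by decide +kernel)
         (CovZ.n2 (-992, -4064) (by decide +kernel)
          (CovZ.n2 (-960, -4064) (by decide +kernel)
           (CovZ.n2 (-976, -4080) (by decide +kernel)
            (CovZ.leaf K2_ok TW_l1993 _)
            (CovZ.leaf K2_ok TW_l1994 _))
           (CovZ.leaf K2_ok TW_l1995 _))
          (CovZ.n1 (-992, -4096) (by decide +kernel)
           (CovZ.n2 (-1008, -4080) (by decide +kernel)
            (CovZ.leaf K2_ok TW_l1996 _)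
            (CovZ.leaf K2_ok TW_l1997 _))
           (CovZ.n1 (-976, -4080) (by decide +kernel)
            (CovZ.badM (by decide +kernel))
            (CovZ.leaf K2_ok TW_l1999 _))))
         (CovZ.n1 (-928, -4064) (by decide +kernel)
          (CovZ.badM (by decide +kernel))
          (CovZ.n1 (-960, -4064) (by decide +kernel)
           (CovZ.leaf K2_ok TW_l2000 _)
           (CovZ.n1 (-944, -4080) (by decide +kernel)
            (CovZ.leaf K2_ok TW_l2001 _)
            (CovZ.leaf K2_ok TW_l2002 _))))))
       (CovZ.n1 (-832, -4032) (by decide +kernel)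
        (CovZ.badM (by decide +kernel))
        (CovZ.n1 (-896, -4032) (by decide +kernel)
         (CovZ.n2 (-864, -4000) (by decide +kernel)
          (CovZ.n2 (-864, -4032) (by decide +kernel)
           (CovZ.leaf K2_ok TW_l3842 _)
           (CovZ.leaf K2_ok TW_l3843 _))
          (CovZ.n1 (-896, -4000) (by decide +kernel)
           (CovZ.leaf K2_ok TW_l2003 _)
           (CovZ.leaf K2_ok TW_l2004 _)))
         (CovZ.n1 (-864, -4064) (by decide +kernel)
          (CovZ.n2 (-896, -4064) (by decide +kernel)
           (CovZ.n2 (-880, -4048) (by decide +kernel)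
            (CovZ.badM (by decide +kernel))
            (CovZ.leaf K2_ok TW_l3844 _))
           (CovZ.badM (by decide +kernel)))
          (CovZ.n1 (-864, -4032) (by decide +kernel)
           (CovZ.n2 (-848, -4048) (by decide +kernel)
            (CovZ.leaf K2_ok TW_l3845 _)
            (CovZ.leaf K2_ok TW_l3846 _))
           (CovZ.n1 (-880, -4048) (by decide +kernel)
            (CovZ.leaf K2_ok TW_l3847 _)
            (CovZ.leaf K2_ok TW_l3848 _))))))))
     (CovZ.n1 (-640, -3968) (by decide +kernel)
      (CovZ.badM (by decide +kernel))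
      (CovZ.n1 (-768, -3968) (by decide +kernel)
       (CovZ.n2 (-704, -3904) (by decide +kernel)
        (CovZ.n2 (-704, -3968) (by decide +kernel)
         (CovZ.n2 (-736, -3936) (by decide +kernel)
          (CovZ.n2 (-704, -3936) (by decide +kernel)
           (CovZ.n2 (-720, -3952) (by decide +kernel)
            (CovZ.leaf K2_ok TW_l3849 _)
            (CovZ.leaf K2_ok TW_l3850 _))
           (CovZ.leaf K2_ok TW_l3851 _))
          (CovZ.n1 (-736, -3968) (by decide +kernel)
           (CovZ.leaf K2_ok TW_l3852 _)
           (CovZ.leaf K2_ok TW_l3853 _)))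
         (CovZ.n1 (-672, -3936) (by decide +kernel)
          (CovZ.n2 (-672, -3968) (by decide +kernel)
           (CovZ.leaf K2_ok TW_l3854 _)
           (CovZ.leaf K2_ok TW_l3855 _))
          (CovZ.n1 (-704, -3936) (by decide +kernel)
           (CovZ.leaf K2_ok TW_l3856 _)
           (CovZ.leaf K2_ok TW_l3857 _))))
        (CovZ.n1 (-768, -3904) (by decide +kernel)
         (CovZ.n2 (-736, -3872) (by decide +kernel)
          (CovZ.leaf K2_ok TW_l2005 _)
          (CovZ.leaf K2_ok TW_l2006 _))
         (CovZ.n1 (-736, -3936) (by decide +kernel)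
          (CovZ.leaf K2_ok TW_l3858 _)
          (CovZ.n1 (-736, -3904) (by decide +kernel)
           (CovZ.leaf K2_ok TW_l3859 _)
           (CovZ.leaf K2_ok TW_l3860 _)))))
       (CovZ.n1 (-704, -4032) (by decide +kernel)
        (CovZ.n2 (-768, -4032) (by decide +kernel)
         (CovZ.n2 (-736, -4000) (by decide +kernel)
          (CovZ.badM (by decide +kernel))
          (CovZ.n1 (-768, -4000) (by decide +kernel)
           (CovZ.leaf K2_ok TW_l3861 _)
           (CovZ.n1 (-752, -4016) (by decide +kernel)
            (CovZ.leaf K2_ok TW_l3862 _)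
            (CovZ.leaf K2_ok TW_l3863 _))))
         (CovZ.badM (by decide +kernel)))
        (CovZ.n1 (-704, -3968) (by decide +kernel)
         (CovZ.n2 (-672, -4000) (by decide +kernel)
          (CovZ.n2 (-704, -4000) (by decide +kernel)
           (CovZ.leaf K2_ok TW_l3864 _)
           (CovZ.badM (by decide +kernel)))
          (CovZ.n1 (-672, -3968) (by decide +kernel)
           (CovZ.n2 (-656, -3984) (by decide +kernel)
            (CovZ.leaf K2_ok TW_l3865 _)
            (CovZ.leaf K2_ok TW_l3866 _))
           (CovZ.n1 (-688, -3984) (by decide +kernel)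
            (CovZ.leaf K2_ok TW_l3867 _)
            (CovZ.leaf K2_ok TW_l3868 _))))
         (CovZ.n1 (-736, -4000) (by decide +kernel)
          (CovZ.n2 (-736, -3968) (by decide +kernel)
           (CovZ.leaf K2_ok TW_l3869 _)
           (CovZ.n1 (-752, -3984) (by decide +kernel)
            (CovZ.leaf K2_ok TW_l3870 _)
            (CovZ.leaf K2_ok TW_l3871 _)))
          (CovZ.n1 (-704, -4000) (by decide +kernel)
           (CovZ.badM (by decide +kernel))
           (CovZ.leaf K2_ok TW_l3872 _))))))))

theorem TW_u10 : CovZ TW_M (toL (selN TW_LN 7)) [0, 7, 4, 3] (1024, -2048) (768, -2304) (1024, -2560) :=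
    (CovZ.n2 (1024, -2304) (by decide +kernel)
     (CovZ.n2 (896, -2432) (by decide +kernel)
      (CovZ.n2 (896, -2304) (by decide +kernel)
       (CovZ.badM (by decide +kernel))
       (CovZ.n1 (832, -2368) (by decide +kernel)
        (CovZ.n2 (832, -2304) (by decide +kernel)
         (CovZ.badM (by decide +kernel))
         (CovZ.n1 (800, -2336) (by decide +kernel)
          (CovZ.n2 (800, -2304) (by decide +kernel)
           (CovZ.n2 (816, -2320) (by decide +kernel)
            (CovZ.leaf K2_ok TW_l4174 _)
            (CovZ.leaf K2_ok TW_l4175 _))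
           (CovZ.n1 (784, -2320) (by decide +kernel)
            (CovZ.leaf K2_ok TW_l4176 _)
            (CovZ.leaf K2_ok TW_l4177 _)))
          (CovZ.badM (by decide +kernel))))
        (CovZ.badM (by decide +kernel))))
      (CovZ.badM (by decide +kernel)))
     (CovZ.n1 (896, -2176) (by decide +kernel)
      (CovZ.n2 (1024, -2176) (by decide +kernel)
       (CovZ.n2 (960, -2240) (by decide +kernel)
        (CovZ.n2 (960, -2176) (by decide +kernel)
         (CovZ.badM (by decide +kernel))
         (CovZ.n1 (928, -2208) (by decide +kernel)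
          (CovZ.n2 (928, -2176) (by decide +kernel)
           (CovZ.n2 (944, -2192) (by decide +kernel)
            (CovZ.leaf K2_ok TW_l4178 _)
            (CovZ.leaf K2_ok TW_l4179 _))
           (CovZ.n1 (912, -2192) (by decide +kernel)
            (CovZ.leaf K2_ok TW_l4180 _)
            (CovZ.leaf K2_ok TW_l4181 _)))
          (CovZ.badM (by decide +kernel))))
        (CovZ.badM (by decide +kernel)))
       (CovZ.n1 (960, -2112) (by decide +kernel)
        (CovZ.n2 (1024, -2112) (by decide +kernel)
         (CovZ.n2 (992, -2144) (by decide +kernel)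
          (CovZ.n2 (992, -2112) (by decide +kernel)
           (CovZ.leaf K2_ok TW_l4182 _)
           (CovZ.n1 (976, -2128) (by decide +kernel)
            (CovZ.leaf K2_ok TW_l4183 _)
            (CovZ.leaf K2_ok TW_l4184 _)))
          (CovZ.badM (by decide +kernel)))
         (CovZ.n1 (992, -2080) (by decide +kernel)
          (CovZ.n2 (1024, -2080) (by decide +kernel)
           (CovZ.leaf K2_ok TW_l4185 _)
           (CovZ.leaf K2_ok TW_l4186 _))
          (CovZ.leaf K2_ok TW_l4187 _)))
        (CovZ.n1 (960, -2176) (by decide +kernel)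
         (CovZ.n2 (928, -2144) (by decide +kernel)
          (CovZ.n2 (960, -2144) (by decide +kernel)
           (CovZ.n2 (944, -2160) (by decide +kernel)
            (CovZ.leaf K2_ok TW_l4188 _)
            (CovZ.leaf K2_ok TW_l4189 _))
           (CovZ.leaf K2_ok TW_l4190 _))
          (CovZ.n1 (928, -2176) (by decide +kernel)
           (CovZ.leaf K2_ok TW_l4191 _)
           (CovZ.leaf K2_ok TW_l4192 _)))
         (CovZ.n1 (992, -2144) (by decide +kernel)
          (CovZ.badM (by decide +kernel))
          (CovZ.n1 (960, -2144) (by decide +kernel)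
           (CovZ.leaf K2_ok TW_l4193 _)
           (CovZ.n1 (976, -2160) (by decide +kernel)
            (CovZ.leaf K2_ok TW_l4194 _)
            (CovZ.leaf K2_ok TW_l4195 _)))))))
      (CovZ.n1 (896, -2304) (by decide +kernel)
       (CovZ.n2 (832, -2240) (by decide +kernel)
        (CovZ.n2 (896, -2240) (by decide +kernel)
         (CovZ.n2 (864, -2272) (by decide +kernel)
          (CovZ.n2 (864, -2240) (by decide +kernel)
           (CovZ.n2 (880, -2256) (by decide +kernel)
            (CovZ.leaf K2_ok TW_l4196 _)
            (CovZ.leaf K2_ok TW_l4197 _))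
           (CovZ.n1 (848, -2256) (by decide +kernel)
            (CovZ.leaf K2_ok TW_l4198 _)
            (CovZ.leaf K2_ok TW_l4199 _)))
          (CovZ.badM (by decide +kernel)))
         (CovZ.n1 (864, -2208) (by decide +kernel)
          (CovZ.n2 (896, -2208) (by decide +kernel)
           (CovZ.n2 (880, -2224) (by decide +kernel)
            (CovZ.leaf K2_ok TW_l4200 _)
            (CovZ.leaf K2_ok TW_l4201 _))
           (CovZ.leaf K2_ok TW_l4202 _))
          (CovZ.n1 (864, -2240) (by decide +kernel)
           (CovZ.leaf K2_ok TW_l4203 _)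
           (CovZ.leaf K2_ok TW_l4204 _))))
        (CovZ.n1 (832, -2304) (by decide +kernel)
         (CovZ.n2 (800, -2272) (by decide +kernel)
          (CovZ.n2 (832, -2272) (by decide +kernel)
           (CovZ.n2 (816, -2288) (by decide +kernel)
            (CovZ.leaf K2_ok TW_l4205 _)
            (CovZ.leaf K2_ok TW_l4206 _))
           (CovZ.leaf K2_ok TW_l4207 _))
          (CovZ.n1 (800, -2304) (by decide +kernel)
           (CovZ.leaf K2_ok TW_l4208 _)
           (CovZ.leaf K2_ok TW_l4209 _)))
         (CovZ.n1 (864, -2272) (by decide +kernel)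
          (CovZ.badM (by decide +kernel))
          (CovZ.n1 (832, -2272) (by decide +kernel)
           (CovZ.leaf K2_ok TW_l4210 _)
           (CovZ.n1 (848, -2288) (by decide +kernel)
            (CovZ.leaf K2_ok TW_l4211 _)
            (CovZ.leaf K2_ok TW_l4212 _))))))
       (CovZ.n1 (960, -2240) (by decide +kernel)
        (CovZ.badM (by decide +kernel))
        (CovZ.n1 (896, -2240) (by decide +kernel)
         (CovZ.n2 (928, -2208) (by decide +kernel)
          (CovZ.badM (by decide +kernel))
          (CovZ.n1 (896, -2208) (by decide +kernel)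
           (CovZ.leaf K2_ok TW_l4213 _)
           (CovZ.n1 (912, -2224) (by decide +kernel)
            (CovZ.leaf K2_ok TW_l4214 _)
            (CovZ.leaf K2_ok TW_l4215 _))))
         (CovZ.badM (by decide +kernel)))))))

theorem TW_u11 : CovZ TW_M (toL (selN TW_LN 7)) [0, 7, 4, 3] (768, -2304) (512, -2560) (1024, -2560) :=
    (CovZ.n1 (768, -2560) (by decide +kernel)
     (CovZ.n2 (640, -2432) (by decide +kernel)
      (CovZ.n2 (768, -2432) (by decide +kernel)
       (CovZ.n2 (704, -2496) (by decide +kernel)
        (CovZ.n2 (704, -2432) (by decide +kernel)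
         (CovZ.badM (by decide +kernel))
         (CovZ.n1 (672, -2464) (by decide +kernel)
          (CovZ.n2 (672, -2432) (by decide +kernel)
           (CovZ.n2 (688, -2448) (by decide +kernel)
            (CovZ.n2 (672, -2448) (by decide +kernel)
             (CovZ.leaf K2_ok TW_l4216 _)
             (CovZ.badM (by decide +kernel)))
            (CovZ.n1 (688, -2432) (by decide +kernel)
             (CovZ.badM (by decide +kernel))
             (CovZ.leaf K2_ok TW_l4217 _)))
           (CovZ.n1 (656, -2448) (by decide +kernel)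
            (CovZ.leaf K2_ok TW_l4218 _)
            (CovZ.leaf K2_ok TW_l4219 _)))
          (CovZ.badM (by decide +kernel))))
        (CovZ.badM (by decide +kernel)))
       (CovZ.n1 (704, -2368) (by decide +kernel)
        (CovZ.n2 (768, -2368) (by decide +kernel)
         (CovZ.n2 (736, -2400) (by decide +kernel)
          (CovZ.n2 (736, -2368) (by decide +kernel)
           (CovZ.badM (by decide +kernel))
           (CovZ.n1 (720, -2384) (by decide +kernel)
            (CovZ.leaf K2_ok TW_l4220 _)
            (CovZ.badM (by decide +kernel))))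
          (CovZ.badM (by decide +kernel)))
         (CovZ.n1 (736, -2336) (by decide +kernel)
          (CovZ.n2 (768, -2336) (by decide +kernel)
           (CovZ.n2 (752, -2352) (by decide +kernel)
            (CovZ.leaf K2_ok TW_l4221 _)
            (CovZ.leaf K2_ok TW_l4222 _))
           (CovZ.leaf K2_ok TW_l4223 _))
          (CovZ.n1 (736, -2368) (by decide +kernel)
           (CovZ.n2 (720, -2352) (by decide +kernel)
            (CovZ.leaf K2_ok TW_l4224 _)
            (CovZ.leaf K2_ok TW_l4225 _))
           (CovZ.leaf K2_ok TW_l4226 _))))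
        (CovZ.n1 (704, -2432) (by decide +kernel)
         (CovZ.n2 (672, -2400) (by decide +kernel)
          (CovZ.n2 (704, -2400) (by decide +kernel)
           (CovZ.n2 (688, -2416) (by decide +kernel)
            (CovZ.leaf K2_ok TW_l4227 _)
            (CovZ.badM (by decide +kernel)))
           (CovZ.n1 (688, -2384) (by decide +kernel)
            (CovZ.leaf K2_ok TW_l4228 _)
            (CovZ.leaf K2_ok TW_l4229 _)))
          (CovZ.n1 (672, -2432) (by decide +kernel)
           (CovZ.n2 (656, -2416) (by decide +kernel)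
            (CovZ.leaf K2_ok TW_l4230 _)
            (CovZ.leaf K2_ok TW_l4231 _))
           (CovZ.n1 (688, -2416) (by decide +kernel)
            (CovZ.leaf K2_ok TW_l4232 _)
            (CovZ.leaf K2_ok TW_l4233 _))))
         (CovZ.n1 (736, -2400) (by decide +kernel)
          (CovZ.badM (by decide +kernel))
          (CovZ.n1 (704, -2400) (by decide +kernel)
           (CovZ.leaf K2_ok TW_l4234 _)
           (CovZ.badM (by decide +kernel)))))))
      (CovZ.n1 (640, -2560) (by decide +kernel)
       (CovZ.n2 (576, -2496) (by decide +kernel)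
        (CovZ.n2 (640, -2496) (by decide +kernel)
         (CovZ.n2 (608, -2528) (by decide +kernel)
          (CovZ.n2 (608, -2496) (by decide +kernel)
           (CovZ.n2 (624, -2512) (by decide +kernel)
            (CovZ.n2 (608, -2512) (by decide +kernel)
             (CovZ.leaf K2_ok TW_l4235 _)
             (CovZ.leaf K2_ok TW_l4236 _))
            (CovZ.n1 (624, -2496) (by decide +kernel)
             (CovZ.leaf K2_ok TW_l4237 _)
             (CovZ.leaf K2_ok TW_l4238 _)))
           (CovZ.n1 (592, -2512) (by decide +kernel)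
            (CovZ.leaf K2_ok TW_l4239 _)
            (CovZ.n1 (608, -2512) (by decide +kernel)
             (CovZ.leaf K2_ok TW_l4240 _)
             (CovZ.leaf K2_ok TW_l4241 _))))
          (CovZ.badM (by decide +kernel)))
         (CovZ.n1 (608, -2464) (by decide +kernel)
          (CovZ.n2 (640, -2464) (by decide +kernel)
           (CovZ.n2 (624, -2480) (by decide +kernel)
            (CovZ.leaf K2_ok TW_l4242 _)
            (CovZ.n1 (640, -2480) (by decide +kernel)
             (CovZ.leaf K2_ok TW_l4243 _)
             (CovZ.leaf K2_ok TW_l4244 _)))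
           (CovZ.n1 (624, -2448) (by decide +kernel)
            (CovZ.leaf K2_ok TW_l4245 _)
            (CovZ.leaf K2_ok TW_l4246 _)))
          (CovZ.n1 (608, -2496) (by decide +kernel)
           (CovZ.leaf K2_ok TW_l4247 _)
           (CovZ.n1 (624, -2480) (by decide +kernel)
            (CovZ.leaf K2_ok TW_l4248 _)
            (CovZ.leaf K2_ok TW_l4249 _)))))
        (CovZ.n1 (576, -2560) (by decide +kernel)
         (CovZ.n2 (544, -2528) (by decide +kernel)
          (CovZ.n2 (576, -2528) (by decide +kernel)
           (CovZ.n2 (560, -2544) (by decide +kernel)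
            (CovZ.leaf K2_ok TW_l4250 _)
            (CovZ.leaf K2_ok TW_l4251 _))
           (CovZ.leaf K2_ok TW_l4252 _))
          (CovZ.n1 (544, -2560) (by decide +kernel)
           (CovZ.leaf K2_ok TW_l4253 _)
           (CovZ.leaf K2_ok TW_l4254 _)))
         (CovZ.n1 (608, -2528) (by decide +kernel)
          (CovZ.badM (by decide +kernel))
          (CovZ.n1 (576, -2528) (by decide +kernel)
           (CovZ.leaf K2_ok TW_l4255 _)
           (CovZ.n1 (592, -2544) (by decide +kernel)
            (CovZ.leaf K2_ok TW_l4256 _)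
            (CovZ.leaf K2_ok TW_l4257 _))))))
       (CovZ.n1 (704, -2496) (by decide +kernel)
        (CovZ.badM (by decide +kernel))
        (CovZ.n1 (640, -2496) (by decide +kernel)
         (CovZ.n2 (672, -2464) (by decide +kernel)
          (CovZ.badM (by decide +kernel))
          (CovZ.n1 (640, -2464) (by decide +kernel)
           (CovZ.n2 (656, -2448) (by decide +kernel)
            (CovZ.leaf K2_ok TW_l4258 _)
            (CovZ.leaf K2_ok TW_l4259 _))
           (CovZ.n1 (656, -2480) (by decide +kernel)
            (CovZ.n2 (640, -2480) (by decide +kernel)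
             (CovZ.leaf K2_ok TW_l4260 _)
             (CovZ.badM (by decide +kernel)))
            (CovZ.n1 (656, -2464) (by decide +kernel)
             (CovZ.badM (by decide +kernel))
             (CovZ.leaf K2_ok TW_l4261 _)))))
         (CovZ.badM (by decide +kernel))))))
     (CovZ.n1 (896, -2432) (by decide +kernel)
      (CovZ.badM (by decide +kernel))
      (CovZ.n1 (768, -2432) (by decide +kernel)
       (CovZ.n2 (832, -2368) (by decide +kernel)
        (CovZ.badM (by decide +kernel))
        (CovZ.n1 (768, -2368) (by decide +kernel)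
         (CovZ.n2 (800, -2336) (by decide +kernel)
          (CovZ.badM (by decide +kernel))
          (CovZ.n1 (768, -2336) (by decide +kernel)
           (CovZ.leaf K2_ok TW_l4262 _)
           (CovZ.n1 (784, -2352) (by decide +kernel)
            (CovZ.leaf K2_ok TW_l4263 _)
            (CovZ.n1 (784, -2336) (by decide +kernel)
             (CovZ.leaf K2_ok TW_l4264 _)
             (CovZ.leaf K2_ok TW_l4265 _)))))
         (CovZ.badM (by decide +kernel))))
       (CovZ.badM (by decide +kernel)))))

theorem TW_u12 : CovZ TW_M (toL (selN TW_LN 3)) [0, 7, 4, 3] (1536, -1536) (1280, -1792) (1536, -2048) :=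
    (CovZ.n2 (1536, -1792) (by decide +kernel)
     (CovZ.n2 (1408, -1920) (by decide +kernel)
      (CovZ.n2 (1408, -1792) (by decide +kernel)
       (CovZ.n2 (1472, -1856) (by decide +kernel)
        (CovZ.n2 (1408, -1856) (by decide +kernel)
         (CovZ.n2 (1440, -1824) (by decide +kernel)
          (CovZ.n2 (1440, -1856) (by decide +kernel)
           (CovZ.leaf K2_ok TW_l4488 _)
           (CovZ.leaf K2_ok TW_l4489 _))
          (CovZ.leaf K2_ok TW_l4490 _))
         (CovZ.n1 (1440, -1888) (by decide +kernel)
          (CovZ.n2 (1408, -1888) (by decide +kernel)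
           (CovZ.leaf K2_ok TW_l4491 _)
           (CovZ.n1 (1424, -1904) (by decide +kernel)
            (CovZ.leaf K2_ok TW_l4492 _)
            (CovZ.leaf K2_ok TW_l4493 _)))
          (CovZ.n1 (1440, -1856) (by decide +kernel)
           (CovZ.n2 (1456, -1872) (by decide +kernel)
            (CovZ.leaf K2_ok TW_l4494 _)
            (CovZ.leaf K2_ok TW_l4495 _))
           (CovZ.n1 (1424, -1872) (by decide +kernel)
            (CovZ.leaf K2_ok TW_l4496 _)
            (CovZ.leaf K2_ok TW_l4497 _)))))
        (CovZ.n1 (1472, -1792) (by decide +kernel)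
         (CovZ.n2 (1504, -1824) (by decide +kernel)
          (CovZ.n2 (1472, -1824) (by decide +kernel)
           (CovZ.leaf K2_ok TW_l4498 _)
           (CovZ.n1 (1488, -1840) (by decide +kernel)
            (CovZ.leaf K2_ok TW_l4499 _)
            (CovZ.leaf K2_ok TW_l4500 _)))
          (CovZ.n1 (1504, -1792) (by decide +kernel)
           (CovZ.n2 (1520, -1808) (by decide +kernel)
            (CovZ.leaf K2_ok TW_l4501 _)
            (CovZ.leaf K2_ok TW_l4502 _))
           (CovZ.n1 (1488, -1808) (by decide +kernel)
            (CovZ.leaf K2_ok TW_l4503 _)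
            (CovZ.leaf K2_ok TW_l4504 _))))
         (CovZ.n1 (1440, -1824) (by decide +kernel)
          (CovZ.n2 (1440, -1792) (by decide +kernel)
           (CovZ.leaf K2_ok TW_l4505 _)
           (CovZ.leaf K2_ok TW_l4506 _))
          (CovZ.n1 (1472, -1824) (by decide +kernel)
           (CovZ.n2 (1456, -1840) (by decide +kernel)
            (CovZ.leaf K2_ok TW_l4507 _)
            (CovZ.leaf K2_ok TW_l4508 _))
           (CovZ.leaf K2_ok TW_l4509 _)))))
       (CovZ.n1 (1344, -1856) (by decide +kernel)
        (CovZ.n2 (1344, -1792) (by decide +kernel)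
         (CovZ.n2 (1376, -1824) (by decide +kernel)
          (CovZ.leaf K2_ok TW_l4510 _)
          (CovZ.leaf K2_ok TW_l4511 _))
         (CovZ.n1 (1312, -1824) (by decide +kernel)
          (CovZ.leaf K2_ok TW_l4512 _)
          (CovZ.leaf K2_ok TW_l4513 _)))
        (CovZ.n1 (1408, -1856) (by decide +kernel)
         (CovZ.n2 (1376, -1888) (by decide +kernel)
          (CovZ.n2 (1376, -1856) (by decide +kernel)
           (CovZ.leaf K2_ok TW_l4514 _)
           (CovZ.leaf K2_ok TW_l4515 _))
          (CovZ.n1 (1408, -1888) (by decide +kernel)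
           (CovZ.n2 (1392, -1904) (by decide +kernel)
            (CovZ.leaf K2_ok TW_l4516 _)
            (CovZ.leaf K2_ok TW_l4517 _))
           (CovZ.leaf K2_ok TW_l4518 _)))
         (CovZ.n1 (1376, -1824) (by decide +kernel)
          (CovZ.n2 (1408, -1824) (by decide +kernel)
           (CovZ.leaf K2_ok TW_l4519 _)
           (CovZ.leaf K2_ok TW_l4520 _))
          (CovZ.leaf K2_ok TW_l4521 _)))))
      (CovZ.n1 (1536, -1920) (by decide +kernel)
       (CovZ.badM (by decide +kernel))
       (CovZ.n1 (1472, -1856) (by decide +kernel)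
        (CovZ.n2 (1536, -1856) (by decide +kernel)
         (CovZ.n2 (1504, -1888) (by decide +kernel)
          (CovZ.n2 (1504, -1856) (by decide +kernel)
           (CovZ.badM (by decide +kernel))
           (CovZ.n1 (1488, -1872) (by decide +kernel)
            (CovZ.leaf K2_ok TW_l4522 _)
            (CovZ.badM (by decide +kernel))))
          (CovZ.badM (by decide +kernel)))
         (CovZ.n1 (1504, -1824) (by decide +kernel)
          (CovZ.n2 (1536, -1824) (by decide +kernel)
           (CovZ.n2 (1520, -1840) (by decide +kernel)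
            (CovZ.leaf K2_ok TW_l4523 _)
            (CovZ.n1 (1536, -1840) (by decide +kernel)
             (CovZ.badM (by decide +kernel))
             (CovZ.leaf K2_ok TW_l4524 _)))
           (CovZ.n1 (1520, -1808) (by decide +kernel)
            (CovZ.leaf K2_ok TW_l4525 _)
            (CovZ.leaf K2_ok TW_l4526 _)))
          (CovZ.n1 (1504, -1856) (by decide +kernel)
           (CovZ.n2 (1488, -1840) (by decide +kernel)
            (CovZ.leaf K2_ok TW_l4527 _)
            (CovZ.leaf K2_ok TW_l4528 _))
           (CovZ.n1 (1520, -1840) (by decide +kernel)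
            (CovZ.badM (by decide +kernel))
            (CovZ.leaf K2_ok TW_l4529 _)))))
        (CovZ.n1 (1472, -1920) (by decide +kernel)
         (CovZ.n2 (1440, -1888) (by decide +kernel)
          (CovZ.n2 (1472, -1888) (by decide +kernel)
           (CovZ.badM (by decide +kernel))
           (CovZ.n1 (1456, -1872) (by decide +kernel)
            (CovZ.n2 (1472, -1872) (by decide +kernel)
             (CovZ.badM (by decide +kernel))
             (CovZ.leaf K2_ok TW_l4530 _))
            (CovZ.badM (by decide +kernel))))
          (CovZ.badM (by decide +kernel)))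
         (CovZ.n1 (1504, -1888) (by decide +kernel)
          (CovZ.badM (by decide +kernel))
          (CovZ.n1 (1472, -1888) (by decide +kernel)
           (CovZ.n2 (1488, -1872) (by decide +kernel)
            (CovZ.badM (by decide +kernel))
            (CovZ.leaf K2_ok TW_l4531 _))
           (CovZ.badM (by decide +kernel))))))))
     (CovZ.n1 (1408, -1664) (by decide +kernel)
      (CovZ.n2 (1536, -1664) (by decide +kernel)
       (CovZ.n2 (1472, -1728) (by decide +kernel)
        (CovZ.n2 (1472, -1664) (by decide +kernel)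
         (CovZ.n2 (1504, -1696) (by decide +kernel)
          (CovZ.leaf K2_ok TW_l4532 _)
          (CovZ.leaf K2_ok TW_l4533 _))
         (CovZ.n1 (1440, -1696) (by decide +kernel)
          (CovZ.leaf K2_ok TW_l4534 _)
          (CovZ.leaf K2_ok TW_l4535 _)))
        (CovZ.n1 (1536, -1728) (by decide +kernel)
         (CovZ.n2 (1504, -1760) (by decide +kernel)
          (CovZ.n2 (1504, -1728) (by decide +kernel)
           (CovZ.leaf K2_ok TW_l4536 _)
           (CovZ.leaf K2_ok TW_l4537 _))
          (CovZ.n1 (1536, -1760) (by decide +kernel)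
           (CovZ.n2 (1520, -1776) (by decide +kernel)
            (CovZ.leaf K2_ok TW_l4538 _)
            (CovZ.leaf K2_ok TW_l4539 _))
           (CovZ.leaf K2_ok TW_l4540 _)))
         (CovZ.n1 (1504, -1696) (by decide +kernel)
          (CovZ.leaf K2_ok TW_l4541 _)
          (CovZ.leaf K2_ok TW_l4542 _))))
       (CovZ.n1 (1472, -1600) (by decide +kernel)
        (CovZ.n2 (1536, -1600) (by decide +kernel)
         (CovZ.n2 (1504, -1632) (by decide +kernel)
          (CovZ.leaf K2_ok TW_l4543 _)
          (CovZ.leaf K2_ok TW_l4544 _))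
         (CovZ.leaf K2_ok TW_l4545 _))
        (CovZ.n1 (1472, -1664) (by decide +kernel)
         (CovZ.leaf K2_ok TW_l4546 _)
         (CovZ.leaf K2_ok TW_l4547 _))))
      (CovZ.n1 (1408, -1792) (by decide +kernel)
       (CovZ.n2 (1344, -1728) (by decide +kernel)
        (CovZ.n2 (1408, -1728) (by decide +kernel)
         (CovZ.n2 (1376, -1760) (by decide +kernel)
          (CovZ.leaf K2_ok TW_l4548 _)
          (CovZ.leaf K2_ok TW_l4549 _))
         (CovZ.leaf K2_ok TW_l4550 _))
        (CovZ.n1 (1344, -1792) (by decide +kernel)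
         (CovZ.leaf K2_ok TW_l4551 _)
         (CovZ.leaf K2_ok TW_l4552 _)))
       (CovZ.n1 (1472, -1728) (by decide +kernel)
        (CovZ.n2 (1472, -1792) (by decide +kernel)
         (CovZ.n2 (1440, -1760) (by decide +kernel)
          (CovZ.leaf K2_ok TW_l4553 _)
          (CovZ.leaf K2_ok TW_l4554 _))
         (CovZ.n1 (1504, -1760) (by decide +kernel)
          (CovZ.n2 (1504, -1792) (by decide +kernel)
           (CovZ.leaf K2_ok TW_l4555 _)
           (CovZ.leaf K2_ok TW_l4556 _))
          (CovZ.leaf K2_ok TW_l4557 _)))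
        (CovZ.n1 (1408, -1728) (by decide +kernel)
         (CovZ.leaf K2_ok TW_l4558 _)
         (CovZ.n1 (1440, -1760) (by decide +kernel)
          (CovZ.leaf K2_ok TW_l4559 _)
          (CovZ.leaf K2_ok TW_l4560 _)))))))

theorem TW_u13 : CovZ TW_M (toL (selN TW_LN 3)) [0, 7, 4, 3] (1280, -1792) (1024, -2048) (1536, -2048) :=
    (CovZ.n1 (1280, -2048) (by decide +kernel)
     (CovZ.n2 (1152, -1920) (by decide +kernel)
      (CovZ.n2 (1280, -1920) (by decide +kernel)
       (CovZ.n2 (1216, -1984) (by decide +kernel)
        (CovZ.n2 (1216, -1920) (by decide +kernel)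
         (CovZ.n2 (1248, -1952) (by decide +kernel)
          (CovZ.n2 (1216, -1952) (by decide +kernel)
           (CovZ.leaf K2_ok TW_l4561 _)
           (CovZ.leaf K2_ok TW_l4562 _))
          (CovZ.n1 (1248, -1920) (by decide +kernel)
           (CovZ.leaf K2_ok TW_l4563 _)
           (CovZ.leaf K2_ok TW_l4564 _)))
         (CovZ.n1 (1184, -1952) (by decide +kernel)
          (CovZ.leaf K2_ok TW_l4565 _)
          (CovZ.n1 (1216, -1952) (by decide +kernel)
           (CovZ.leaf K2_ok TW_l4566 _)
           (CovZ.leaf K2_ok TW_l4567 _))))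
        (CovZ.n1 (1280, -1984) (by decide +kernel)
         (CovZ.n2 (1248, -2016) (by decide +kernel)
          (CovZ.n2 (1248, -1984) (by decide +kernel)
           (CovZ.badM (by decide +kernel))
           (CovZ.n1 (1232, -2000) (by decide +kernel)
            (CovZ.leaf K2_ok TW_l4568 _)
            (CovZ.badM (by decide +kernel))))
          (CovZ.badM (by decide +kernel)))
         (CovZ.n1 (1248, -1952) (by decide +kernel)
          (CovZ.n2 (1280, -1952) (by decide +kernel)
           (CovZ.n2 (1264, -1968) (by decide +kernel)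
            (CovZ.leaf K2_ok TW_l4569 _)
            (CovZ.leaf K2_ok TW_l4570 _))
           (CovZ.leaf K2_ok TW_l4571 _))
          (CovZ.n1 (1248, -1984) (by decide +kernel)
           (CovZ.leaf K2_ok TW_l4572 _)
           (CovZ.leaf K2_ok TW_l4573 _)))))
       (CovZ.n1 (1216, -1856) (by decide +kernel)
        (CovZ.n2 (1280, -1856) (by decide +kernel)
         (CovZ.n2 (1248, -1888) (by decide +kernel)
          (CovZ.leaf K2_ok TW_l4574 _)
          (CovZ.leaf K2_ok TW_l4575 _))
         (CovZ.leaf K2_ok TW_l4576 _))
        (CovZ.n1 (1216, -1920) (by decide +kernel)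
         (CovZ.leaf K2_ok TW_l4577 _)
         (CovZ.leaf K2_ok TW_l4578 _))))
      (CovZ.n1 (1152, -2048) (by decide +kernel)
       (CovZ.n2 (1088, -1984) (by decide +kernel)
        (CovZ.n2 (1152, -1984) (by decide +kernel)
         (CovZ.n2 (1120, -2016) (by decide +kernel)
          (CovZ.n2 (1120, -1984) (by decide +kernel)
           (CovZ.leaf K2_ok TW_l4579 _)
           (CovZ.leaf K2_ok TW_l4580 _))
          (CovZ.n1 (1152, -2016) (by decide +kernel)
           (CovZ.n2 (1136, -2032) (by decide +kernel)
            (CovZ.leaf K2_ok TW_l4581 _)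
            (CovZ.leaf K2_ok TW_l4582 _))
           (CovZ.leaf K2_ok TW_l4583 _)))
         (CovZ.n1 (1120, -1952) (by decide +kernel)
          (CovZ.leaf K2_ok TW_l4584 _)
          (CovZ.leaf K2_ok TW_l4585 _)))
        (CovZ.n1 (1088, -2048) (by decide +kernel)
         (CovZ.n2 (1056, -2016) (by decide +kernel)
          (CovZ.leaf K2_ok TW_l4586 _)
          (CovZ.leaf K2_ok TW_l4587 _))
         (CovZ.n1 (1120, -2016) (by decide +kernel)
          (CovZ.n2 (1120, -2048) (by decide +kernel)
           (CovZ.leaf K2_ok TW_l4588 _)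
           (CovZ.leaf K2_ok TW_l4589 _))
          (CovZ.leaf K2_ok TW_l4590 _))))
       (CovZ.n1 (1216, -1984) (by decide +kernel)
        (CovZ.n2 (1216, -2048) (by decide +kernel)
         (CovZ.n2 (1184, -2016) (by decide +kernel)
          (CovZ.n2 (1216, -2016) (by decide +kernel)
           (CovZ.badM (by decide +kernel))
           (CovZ.leaf K2_ok TW_l4591 _))
          (CovZ.badM (by decide +kernel)))
         (CovZ.n1 (1248, -2016) (by decide +kernel)
          (CovZ.badM (by decide +kernel))
          (CovZ.n1 (1216, -2016) (by decide +kernel)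
           (CovZ.leaf K2_ok TW_l4592 _)
           (CovZ.badM (by decide +kernel)))))
        (CovZ.n1 (1152, -1984) (by decide +kernel)
         (CovZ.n2 (1184, -1952) (by decide +kernel)
          (CovZ.leaf K2_ok TW_l4593 _)
          (CovZ.leaf K2_ok TW_l4594 _))
         (CovZ.n1 (1184, -2016) (by decide +kernel)
          (CovZ.n2 (1152, -2016) (by decide +kernel)
           (CovZ.leaf K2_ok TW_l4595 _)
           (CovZ.n1 (1168, -2032) (by decide +kernel)
            (CovZ.leaf K2_ok TW_l4596 _)
            (CovZ.leaf K2_ok TW_l4597 _)))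
          (CovZ.n1 (1184, -1984) (by decide +kernel)
           (CovZ.leaf K2_ok TW_l4598 _)
           (CovZ.leaf K2_ok TW_l4599 _)))))))
     (CovZ.n1 (1408, -1920) (by decide +kernel)
      (CovZ.badM (by decide +kernel))
      (CovZ.n1 (1280, -1920) (by decide +kernel)
       (CovZ.n2 (1344, -1856) (by decide +kernel)
        (CovZ.n2 (1344, -1920) (by decide +kernel)
         (CovZ.n2 (1312, -1888) (by decide +kernel)
          (CovZ.n2 (1344, -1888) (by decide +kernel)
           (CovZ.leaf K2_ok TW_l4600 _)
           (CovZ.leaf K2_ok TW_l4601 _))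
          (CovZ.n1 (1312, -1920) (by decide +kernel)
           (CovZ.leaf K2_ok TW_l4602 _)
           (CovZ.leaf K2_ok TW_l4603 _)))
         (CovZ.n1 (1376, -1888) (by decide +kernel)
          (CovZ.n2 (1376, -1920) (by decide +kernel)
           (CovZ.leaf K2_ok TW_l4604 _)
           (CovZ.leaf K2_ok TW_l4605 _))
          (CovZ.n1 (1344, -1888) (by decide +kernel)
           (CovZ.leaf K2_ok TW_l4606 _)
           (CovZ.leaf K2_ok TW_l4607 _))))
        (CovZ.n1 (1280, -1856) (by decide +kernel)
         (CovZ.leaf K2_ok TW_l4608 _)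
         (CovZ.n1 (1312, -1888) (by decide +kernel)
          (CovZ.leaf K2_ok TW_l4609 _)
          (CovZ.leaf K2_ok TW_l4610 _))))
       (CovZ.n1 (1344, -1984) (by decide +kernel)
        (CovZ.n2 (1280, -1984) (by decide +kernel)
         (CovZ.n2 (1312, -1952) (by decide +kernel)
          (CovZ.badM (by decide +kernel))
          (CovZ.n1 (1280, -1952) (by decide +kernel)
           (CovZ.leaf K2_ok TW_l4611 _)
           (CovZ.n1 (1296, -1968) (by decide +kernel)
            (CovZ.leaf K2_ok TW_l4612 _)
            (CovZ.leaf K2_ok TW_l4613 _))))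
         (CovZ.badM (by decide +kernel)))
        (CovZ.n1 (1344, -1920) (by decide +kernel)
         (CovZ.n2 (1376, -1952) (by decide +kernel)
          (CovZ.n2 (1344, -1952) (by decide +kernel)
           (CovZ.n2 (1360, -1936) (by decide +kernel)
            (CovZ.badM (by decide +kernel))
            (CovZ.leaf K2_ok TW_l4614 _))
           (CovZ.badM (by decide +kernel)))
          (CovZ.n1 (1376, -1920) (by decide +kernel)
           (CovZ.badM (by decide +kernel))
           (CovZ.n1 (1360, -1936) (by decide +kernel)
            (CovZ.leaf K2_ok TW_l4615 _)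
            (CovZ.badM (by decide +kernel)))))
         (CovZ.n1 (1312, -1952) (by decide +kernel)
          (CovZ.n2 (1312, -1920) (by decide +kernel)
           (CovZ.n2 (1328, -1936) (by decide +kernel)
            (CovZ.leaf K2_ok TW_l4616 _)
            (CovZ.leaf K2_ok TW_l4617 _))
           (CovZ.n1 (1296, -1936) (by decide +kernel)
            (CovZ.leaf K2_ok TW_l4618 _)
            (CovZ.leaf K2_ok TW_l4619 _)))
          (CovZ.n1 (1344, -1952) (by decide +kernel)
           (CovZ.badM (by decide +kernel))
           (CovZ.n1 (1328, -1936) (by decide +kernel)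
            (CovZ.leaf K2_ok TW_l4620 _)
            (CovZ.badM (by decide +kernel))))))))))

end Pool.Agent.TET
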