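import Pool.Agent.Helper38_TET.TW_M
import Pool.Agent.Helper38_TET.TW_L
import Pool.Agent.Helper38_TET.TW_0
import Pool.Agent.Helper38_TET.TW_1
import Pool.Agent.Helper38_TET.TW_2
import Pool.Agent.Helper38_TET.TW_3
import Pool.Agent.Helper38_TET.TW_4
import Pool.Agent.Helper38_TET.TW_5
import Pool.Agent.Helper38_TET.TW_6
import Pool.Agent.Helper38_TET.TW_7
import Pool.Agent.Helper38_TET.TW_9
import Pool.Agent.Helper38_TET.TW_10
import Pool.Agent.Helper38_TET.TW_20
import Pool.Agent.Helper38_TET.TW_21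
import Pool.Agent.Helper38_TET.TW_24
import Pool.Agent.Helper38_TET.TW_25
import Pool.Agent.Helper38_TET.TW_U0

/-!
# MP_c7c9bf_co: certificates, family TW
-/

set_option autoImplicit false
set_option maxRecDepth 100000

namespace Pool.Agent.TET

theorem TW_s0_0 : SqZ TW_M TW_L [0, 7, 4, 3] (-4608) (-5632) 512 0 0 :=
  SqZ.mk (a := (-4608)) (b := (-4096)) (c := (-5632)) (d := (-5120)) (by norm_num) (by norm_num) (by norm_num) (by norm_num)
    (CovZ.topM TW_LL 0 (by decide +kernel) (CovZ.badM (by decide +kernel)))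
    (CovZ.topM TW_LL 0 (by decide +kernel) (CovZ.badM (by decide +kernel)))

theorem TW_s1_0 : SqZ TW_M TW_L [0, 7, 4, 3] (-4608) (-5632) 512 1 0 :=
  SqZ.mk (a := (-4096)) (b := (-3584)) (c := (-5632)) (d := (-5120)) (by norm_num) (by norm_num) (by norm_num) (by norm_num)
    (CovZ.topM TW_LL 0 (by decide +kernel) (CovZ.badM (by decide +kernel)))
    (CovZ.topM TW_LL 0 (by decide +kernel) (CovZ.badM (by decide +kernel)))

theorem TW_s2_0 : SqZ TW_M TW_L [0, 7, 4, 3] (-4608) (-5632) 512 2 0 :=
  SqZ.mk (a := (-3584)) (b := (-3072)) (c := (-5632)) (d := (-5120)) (by norm_num) (by norm_num) (by norm_num) (by norm_num)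
    (CovZ.topM TW_LL 0 (by decide +kernel) (CovZ.badM (by decide +kernel)))
    (CovZ.topM TW_LL 0 (by decide +kernel) (CovZ.badM (by decide +kernel)))

theorem TW_s3_0 : SqZ TW_M TW_L [0, 7, 4, 3] (-4608) (-5632) 512 3 0 :=
  SqZ.mk (a := (-3072)) (b := (-2560)) (c := (-5632)) (d := (-5120)) (by norm_num) (by norm_num) (by norm_num) (by norm_num)
    (CovZ.topM TW_LL 16 (by decide +kernel) (CovZ.n2 (-2816, -5376) (by decide +kernel)
    (CovZ.n2 (-2560, -5376) (by decide +kernel)
     (CovZ.n2 (-2688, -5504) (by decide +kernel)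
      (CovZ.n2 (-2688, -5376) (by decide +kernel)
       (CovZ.n2 (-2624, -5440) (by decide +kernel)
        (CovZ.n2 (-2688, -5440) (by decide +kernel)
         (CovZ.n2 (-2656, -5408) (by decide +kernel)
          (CovZ.n2 (-2656, -5440) (by decide +kernel)
           (CovZ.n2 (-2672, -5424) (by decide +kernel)
            (CovZ.leaf K2_ok TW_l2819 _)
            (CovZ.leaf K2_ok TW_l2820 _))
           (CovZ.n1 (-2640, -5424) (by decide +kernel)
            (CovZ.leaf K2_ok TW_l2821 _)
            (CovZ.leaf K2_ok TW_l2822 _)))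
          (CovZ.n1 (-2688, -5408) (by decide +kernel)
           (CovZ.leaf K2_ok TW_l2823 _)
           (CovZ.n1 (-2672, -5424) (by decide +kernel)
            (CovZ.leaf K2_ok TW_l2824 _)
            (CovZ.leaf K2_ok TW_l2825 _))))
         (CovZ.badM (by decide +kernel)))
        (CovZ.n1 (-2624, -5376) (by decide +kernel)
         (CovZ.n2 (-2592, -5408) (by decide +kernel)
          (CovZ.n2 (-2624, -5408) (by decide +kernel)
           (CovZ.leaf K2_ok TW_l2826 _)
           (CovZ.n1 (-2608, -5424) (by decide +kernel)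
            (CovZ.leaf K2_ok TW_l2827 _)
            (CovZ.leaf K2_ok TW_l2828 _)))
          (CovZ.n1 (-2592, -5376) (by decide +kernel)
           (CovZ.leaf K2_ok TW_l2829 _)
           (CovZ.leaf K2_ok TW_l2830 _)))
         (CovZ.n1 (-2656, -5408) (by decide +kernel)
          (CovZ.n2 (-2656, -5376) (by decide +kernel)
           (CovZ.leaf K2_ok TW_l2831 _)
           (CovZ.n1 (-2672, -5392) (by decide +kernel)
            (CovZ.leaf K2_ok TW_l2832 _)
            (CovZ.leaf K2_ok TW_l2833 _)))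
          (CovZ.n1 (-2624, -5408) (by decide +kernel)
           (CovZ.n2 (-2640, -5424) (by decide +kernel)
            (CovZ.leaf K2_ok TW_l2834 _)
            (CovZ.leaf K2_ok TW_l2835 _))
           (CovZ.leaf K2_ok TW_l2836 _)))))
       (CovZ.n1 (-2752, -5440) (by decide +kernel)
        (CovZ.n2 (-2752, -5376) (by decide +kernel)
         (CovZ.n2 (-2720, -5408) (by decide +kernel)
          (CovZ.n2 (-2752, -5408) (by decide +kernel)
           (CovZ.leaf K2_ok TW_l2837 _)
           (CovZ.n1 (-2736, -5424) (by decide +kernel)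
            (CovZ.leaf K2_ok TW_l2838 _)
            (CovZ.leaf K2_ok TW_l2839 _)))
          (CovZ.n1 (-2720, -5376) (by decide +kernel)
           (CovZ.leaf K2_ok TW_l2840 _)
           (CovZ.n1 (-2736, -5392) (by decide +kernel)
            (CovZ.leaf K2_ok TW_l2841 _)
            (CovZ.leaf K2_ok TW_l2842 _))))
         (CovZ.n1 (-2784, -5408) (by decide +kernel)
          (CovZ.n2 (-2784, -5376) (by decide +kernel)
           (CovZ.n2 (-2768, -5392) (by decide +kernel)
            (CovZ.leaf K2_ok TW_l2843 _)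
            (CovZ.leaf K2_ok TW_l2844 _))
           (CovZ.n1 (-2800, -5392) (by decide +kernel)
            (CovZ.leaf K2_ok TW_l2845 _)
            (CovZ.leaf K2_ok TW_l2846 _)))
          (CovZ.n1 (-2752, -5408) (by decide +kernel)
           (CovZ.n2 (-2768, -5424) (by decide +kernel)
            (CovZ.leaf K2_ok TW_l2847 _)
            (CovZ.leaf K2_ok TW_l2848 _))
           (CovZ.n1 (-2768, -5392) (by decide +kernel)
            (CovZ.leaf K2_ok TW_l2849 _)
            (CovZ.leaf K2_ok TW_l2850 _)))))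
        (CovZ.n1 (-2688, -5440) (by decide +kernel)
         (CovZ.badM (by decide +kernel))
         (CovZ.n1 (-2720, -5408) (by decide +kernel)
          (CovZ.n2 (-2688, -5408) (by decide +kernel)
           (CovZ.n2 (-2704, -5424) (by decide +kernel)
            (CovZ.leaf K2_ok TW_l2851 _)
            (CovZ.leaf K2_ok TW_l2852 _))
           (CovZ.leaf K2_ok TW_l2853 _))
          (CovZ.n1 (-2720, -5440) (by decide +kernel)
           (CovZ.n2 (-2736, -5424) (by decide +kernel)
            (CovZ.leaf K2_ok TW_l2854 _)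
            (CovZ.n1 (-2736, -5440) (by decide +kernel)
             (CovZ.leaf K2_ok TW_l2855 _)
             (CovZ.leaf K2_ok TW_l2856 _)))
           (CovZ.n1 (-2704, -5424) (by decide +kernel)
            (CovZ.leaf K2_ok TW_l2857 _)
            (CovZ.leaf K2_ok TW_l2858 _)))))))
      (CovZ.n1 (-2560, -5504) (by decide +kernel)
       (CovZ.badM (by decide +kernel))
       (CovZ.n1 (-2624, -5440) (by decide +kernel)
        (CovZ.n2 (-2560, -5440) (by decide +kernel)
         (CovZ.badM (by decide +kernel))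
         (CovZ.n1 (-2592, -5408) (by decide +kernel)
          (CovZ.n2 (-2560, -5408) (by decide +kernel)
           (CovZ.n2 (-2576, -5424) (by decide +kernel)
            (CovZ.leaf K2_ok TW_l2859 _)
            (CovZ.leaf K2_ok TW_l2860 _))
           (CovZ.leaf K2_ok TW_l2861 _))
          (CovZ.n1 (-2592, -5440) (by decide +kernel)
           (CovZ.leaf K2_ok TW_l2862 _)
           (CovZ.leaf K2_ok TW_l2863 _))))
        (CovZ.badM (by decide +kernel)))))
     (CovZ.n1 (-2688, -5248) (by decide +kernel)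
      (CovZ.n2 (-2560, -5248) (by decide +kernel)
       (CovZ.n2 (-2624, -5312) (by decide +kernel)
        (CovZ.n2 (-2624, -5248) (by decide +kernel)
         (CovZ.n2 (-2592, -5280) (by decide +kernel)
          (CovZ.leaf K2_ok TW_l2864 _)
          (CovZ.leaf K2_ok TW_l2865 _))
         (CovZ.n1 (-2656, -5280) (by decide +kernel)
          (CovZ.leaf K2_ok TW_l2866 _)
          (CovZ.leaf K2_ok TW_l2867 _)))
        (CovZ.n1 (-2560, -5312) (by decide +kernel)
         (CovZ.n2 (-2592, -5344) (by decide +kernel)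
          (CovZ.leaf K2_ok TW_l2868 _)
          (CovZ.leaf K2_ok TW_l2869 _))
         (CovZ.n1 (-2592, -5280) (by decide +kernel)
          (CovZ.leaf K2_ok TW_l2870 _)
          (CovZ.leaf K2_ok TW_l2871 _))))
       (CovZ.n1 (-2624, -5184) (by decide +kernel)
        (CovZ.n2 (-2560, -5184) (by decide +kernel)
         (CovZ.leaf K2_ok TW_l2872 _)
         (CovZ.leaf K2_ok TW_l2873 _))
        (CovZ.n1 (-2624, -5248) (by decide +kernel)
         (CovZ.leaf K2_ok TW_l2874 _)
         (CovZ.leaf K2_ok TW_l2875 _))))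
      (CovZ.n1 (-2688, -5376) (by decide +kernel)
       (CovZ.n2 (-2752, -5312) (by decide +kernel)
        (CovZ.n2 (-2688, -5312) (by decide +kernel)
         (CovZ.n2 (-2720, -5344) (by decide +kernel)
          (CovZ.n2 (-2720, -5312) (by decide +kernel)
           (CovZ.leaf K2_ok TW_l2876 _)
           (CovZ.leaf K2_ok TW_l2877 _))
          (CovZ.n1 (-2688, -5344) (by decide +kernel)
           (CovZ.leaf K2_ok TW_l2878 _)
           (CovZ.leaf K2_ok TW_l2879 _)))
         (CovZ.n1 (-2720, -5280) (by decide +kernel)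
          (CovZ.leaf K2_ok TW_l2880 _)
          (CovZ.leaf K2_ok TW_l2881 _)))
        (CovZ.n1 (-2752, -5376) (by decide +kernel)
         (CovZ.n2 (-2784, -5344) (by decide +kernel)
          (CovZ.n2 (-2752, -5344) (by decide +kernel)
           (CovZ.n2 (-2768, -5360) (by decide +kernel)
            (CovZ.leaf K2_ok TW_l2882 _)
            (CovZ.leaf K2_ok TW_l2883 _))
           (CovZ.leaf K2_ok TW_l2884 _))
          (CovZ.n1 (-2784, -5376) (by decide +kernel)
           (CovZ.leaf K2_ok TW_l2885 _)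
           (CovZ.leaf K2_ok TW_l2886 _)))
         (CovZ.n1 (-2720, -5344) (by decide +kernel)
          (CovZ.n2 (-2720, -5376) (by decide +kernel)
           (CovZ.leaf K2_ok TW_l2887 _)
           (CovZ.leaf K2_ok TW_l2888 _))
          (CovZ.n1 (-2752, -5344) (by decide +kernel)
           (CovZ.leaf K2_ok TW_l2889 _)
           (CovZ.leaf K2_ok TW_l2890 _)))))
       (CovZ.n1 (-2624, -5312) (by decide +kernel)
        (CovZ.n2 (-2624, -5376) (by decide +kernel)
         (CovZ.n2 (-2656, -5344) (by decide +kernel)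
          (CovZ.leaf K2_ok TW_l2891 _)
          (CovZ.n1 (-2656, -5376) (by decide +kernel)
           (CovZ.leaf K2_ok TW_l2892 _)
           (CovZ.leaf K2_ok TW_l2893 _)))
         (CovZ.n1 (-2592, -5344) (by decide +kernel)
          (CovZ.n2 (-2592, -5376) (by decide +kernel)
           (CovZ.leaf K2_ok TW_l2894 _)
           (CovZ.leaf K2_ok TW_l2895 _))
          (CovZ.leaf K2_ok TW_l2896 _)))
        (CovZ.n1 (-2688, -5312) (by decide +kernel)
         (CovZ.n2 (-2656, -5280) (by decide +kernel)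
          (CovZ.leaf K2_ok TW_l2897 _)
          (CovZ.leaf K2_ok TW_l2898 _))
         (CovZ.n1 (-2656, -5344) (by decide +kernel)
          (CovZ.n2 (-2688, -5344) (by decide +kernel)
           (CovZ.leaf K2_ok TW_l2899 _)
           (CovZ.leaf K2_ok TW_l2900 _))
          (CovZ.leaf K2_ok TW_l2901 _)))))))
    (CovZ.n1 (-2816, -5632) (by decide +kernel)
     (CovZ.badM (by decide +kernel))
     (CovZ.n1 (-2688, -5504) (by decide +kernel)
      (CovZ.badM (by decide +kernel))
      (CovZ.n1 (-2816, -5504) (by decide +kernel)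
       (CovZ.n2 (-2752, -5440) (by decide +kernel)
        (CovZ.badM (by decide +kernel))
        (CovZ.n1 (-2816, -5440) (by decide +kernel)
         (CovZ.n2 (-2784, -5408) (by decide +kernel)
          (CovZ.n2 (-2784, -5440) (by decide +kernel)
           (CovZ.n2 (-2800, -5424) (by decide +kernel)
            (CovZ.leaf K2_ok TW_l2902 _)
            (CovZ.n1 (-2800, -5440) (by decide +kernel)
             (CovZ.leaf K2_ok TW_l2903 _)
             (CovZ.leaf K2_ok TW_l2904 _)))
           (CovZ.n1 (-2768, -5424) (by decide +kernel)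
            (CovZ.n2 (-2768, -5440) (by decide +kernel)
             (CovZ.leaf K2_ok TW_l2905 _)
             (CovZ.leaf K2_ok TW_l2906 _))
            (CovZ.leaf K2_ok TW_l2907 _)))
          (CovZ.n1 (-2816, -5408) (by decide +kernel)
           (CovZ.n2 (-2800, -5392) (by decide +kernel)
            (CovZ.leaf K2_ok TW_l2908 _)
            (CovZ.leaf K2_ok TW_l2909 _))
           (CovZ.n1 (-2800, -5424) (by decide +kernel)
            (CovZ.leaf K2_ok TW_l2910 _)
            (CovZ.leaf K2_ok TW_l2911 _))))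
         (CovZ.badM (by decide +kernel))))
       (CovZ.badM (by decide +kernel)))))))
    (CovZ.topM TW_LL 16 (by decide +kernel) (CovZ.n0 (-2816, -5376) (by decide +kernel)
    (CovZ.badM (by decide +kernel))
    (CovZ.n1 (-2816, -5120) (by decide +kernel)
     (CovZ.n2 (-2688, -5248) (by decide +kernel)
      (CovZ.n2 (-2816, -5248) (by decide +kernel)
       (CovZ.n2 (-2752, -5184) (by decide +kernel)
        (CovZ.n2 (-2752, -5248) (by decide +kernel)
         (CovZ.n2 (-2784, -5216) (by decide +kernel)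
          (CovZ.n2 (-2752, -5216) (by decide +kernel)
           (CovZ.leaf K2_ok TW_l2912 _)
           (CovZ.leaf K2_ok TW_l2913 _))
          (CovZ.n1 (-2784, -5248) (by decide +kernel)
           (CovZ.n2 (-2800, -5232) (by decide +kernel)
            (CovZ.leaf K2_ok TW_l2914 _)
            (CovZ.leaf K2_ok TW_l2915 _))
           (CovZ.leaf K2_ok TW_l2916 _)))
         (CovZ.n1 (-2720, -5216) (by decide +kernel)
          (CovZ.leaf K2_ok TW_l2917 _)
          (CovZ.n1 (-2752, -5216) (by decide +kernel)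
           (CovZ.leaf K2_ok TW_l2918 _)
           (CovZ.leaf K2_ok TW_l2919 _))))
        (CovZ.n1 (-2816, -5184) (by decide +kernel)
         (CovZ.n2 (-2784, -5152) (by decide +kernel)
          (CovZ.n2 (-2784, -5184) (by decide +kernel)
           (CovZ.n2 (-2800, -5168) (by decide +kernel)
            (CovZ.leaf K2_ok TW_l2920 _)
            (CovZ.leaf K2_ok TW_l2921 _))
           (CovZ.leaf K2_ok TW_l2922 _))
          (CovZ.n1 (-2816, -5152) (by decide +kernel)
           (CovZ.n2 (-2800, -5136) (by decide +kernel)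
            (CovZ.leaf K2_ok TW_l2923 _)
            (CovZ.n1 (-2816, -5136) (by decide +kernel)
             (CovZ.leaf K2_ok TW_l2924 _)
             (CovZ.leaf K2_ok TW_l2925 _)))
           (CovZ.n1 (-2800, -5168) (by decide +kernel)
            (CovZ.n2 (-2816, -5168) (by decide +kernel)
             (CovZ.leaf K2_ok TW_l2926 _)
             (CovZ.leaf K2_ok TW_l2927 _))
            (CovZ.leaf K2_ok TW_l2928 _))))
         (CovZ.n1 (-2784, -5216) (by decide +kernel)
          (CovZ.n2 (-2816, -5216) (by decide +kernel)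
           (CovZ.n2 (-2800, -5200) (by decide +kernel)
            (CovZ.leaf K2_ok TW_l2929 _)
            (CovZ.n1 (-2816, -5200) (by decide +kernel)
             (CovZ.leaf K2_ok TW_l2930 _)
             (CovZ.leaf K2_ok TW_l2931 _)))
           (CovZ.n1 (-2800, -5232) (by decide +kernel)
            (CovZ.leaf K2_ok TW_l2932 _)
            (CovZ.leaf K2_ok TW_l2933 _)))
          (CovZ.n1 (-2784, -5184) (by decide +kernel)
           (CovZ.leaf K2_ok TW_l2934 _)
           (CovZ.n1 (-2800, -5200) (by decide +kernel)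
            (CovZ.leaf K2_ok TW_l2935 _)
            (CovZ.leaf K2_ok TW_l2936 _))))))
       (CovZ.n1 (-2752, -5312) (by decide +kernel)
        (CovZ.n2 (-2816, -5312) (by decide +kernel)
         (CovZ.n2 (-2784, -5280) (by decide +kernel)
          (CovZ.n2 (-2784, -5312) (by decide +kernel)
           (CovZ.leaf K2_ok TW_l2937 _)
           (CovZ.leaf K2_ok TW_l2938 _))
          (CovZ.n1 (-2816, -5280) (by decide +kernel)
           (CovZ.leaf K2_ok TW_l2939 _)
           (CovZ.n1 (-2800, -5296) (by decide +kernel)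
            (CovZ.leaf K2_ok TW_l2940 _)
            (CovZ.leaf K2_ok TW_l2941 _))))
         (CovZ.n1 (-2784, -5344) (by decide +kernel)
          (CovZ.n2 (-2816, -5344) (by decide +kernel)
           (CovZ.leaf K2_ok TW_l2942 _)
           (CovZ.leaf K2_ok TW_l2943 _))
          (CovZ.n1 (-2784, -5312) (by decide +kernel)
           (CovZ.leaf K2_ok TW_l2944 _)
           (CovZ.n1 (-2800, -5328) (by decide +kernel)
            (CovZ.leaf K2_ok TW_l2945 _)
            (CovZ.leaf K2_ok TW_l2946 _)))))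
        (CovZ.n1 (-2752, -5248) (by decide +kernel)
         (CovZ.n2 (-2720, -5280) (by decide +kernel)
          (CovZ.leaf K2_ok TW_l2947 _)
          (CovZ.leaf K2_ok TW_l2948 _))
         (CovZ.n1 (-2784, -5280) (by decide +kernel)
          (CovZ.n2 (-2784, -5248) (by decide +kernel)
           (CovZ.leaf K2_ok TW_l2949 _)
           (CovZ.n1 (-2800, -5264) (by decide +kernel)
            (CovZ.leaf K2_ok TW_l2950 _)
            (CovZ.leaf K2_ok TW_l2951 _)))
          (CovZ.n1 (-2752, -5280) (by decide +kernel)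
           (CovZ.leaf K2_ok TW_l2952 _)
           (CovZ.leaf K2_ok TW_l2953 _))))))
      (CovZ.n1 (-2688, -5120) (by decide +kernel)
       (CovZ.n2 (-2624, -5184) (by decide +kernel)
        (CovZ.n2 (-2688, -5184) (by decide +kernel)
         (CovZ.leaf K2_ok TW_l2954 _)
         (CovZ.leaf K2_ok TW_l2955 _))
        (CovZ.n1 (-2624, -5120) (by decide +kernel)
         (CovZ.leaf K2_ok TW_l2956 _)
         (CovZ.n1 (-2656, -5152) (by decide +kernel)
          (CovZ.leaf K2_ok TW_l2957 _)
          (CovZ.leaf K2_ok TW_l2958 _))))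
       (CovZ.n1 (-2752, -5184) (by decide +kernel)
        (CovZ.n2 (-2752, -5120) (by decide +kernel)
         (CovZ.n2 (-2720, -5152) (by decide +kernel)
          (CovZ.n2 (-2752, -5152) (by decide +kernel)
           (CovZ.leaf K2_ok TW_l2959 _)
           (CovZ.leaf K2_ok TW_l2960 _))
          (CovZ.leaf K2_ok TW_l2961 _))
         (CovZ.n1 (-2784, -5152) (by decide +kernel)
          (CovZ.n2 (-2784, -5120) (by decide +kernel)
           (CovZ.leaf K2_ok TW_l2962 _)
           (CovZ.n1 (-2800, -5136) (by decide +kernel)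
            (CovZ.leaf K2_ok TW_l2963 _)
            (CovZ.leaf K2_ok TW_l2964 _)))
          (CovZ.n1 (-2752, -5152) (by decide +kernel)
           (CovZ.leaf K2_ok TW_l2965 _)
           (CovZ.leaf K2_ok TW_l2966 _))))
        (CovZ.n1 (-2688, -5184) (by decide +kernel)
         (CovZ.n2 (-2720, -5216) (by decide +kernel)
          (CovZ.leaf K2_ok TW_l2967 _)
          (CovZ.leaf K2_ok TW_l2968 _))
         (CovZ.n1 (-2720, -5152) (by decide +kernel)
          (CovZ.leaf K2_ok TW_l2969 _)
          (CovZ.leaf K2_ok TW_l2970 _))))))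
     (CovZ.badM (by decide +kernel)))))

theorem TW_s4_0 : SqZ TW_M TW_L [0, 7, 4, 3] (-4608) (-5632) 512 4 0 :=
  SqZ.mk (a := (-2560)) (b := (-2048)) (c := (-5632)) (d := (-5120)) (by norm_num) (by norm_num) (by norm_num) (by norm_num)
    (CovZ.topM TW_LL 24 (by decide +kernel) (CovZ.n2 (-2304, -5376) (by decide +kernel)
    TW_u0
    TW_u1))
    (CovZ.topM TW_LL 24 (by decide +kernel) (CovZ.n0 (-2304, -5376) (by decide +kernel)
    TW_u2
    TW_u3))

theorem TW_s5_0 : SqZ TW_M TW_L [0, 7, 4, 3] (-4608) (-5632) 512 5 0 :=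
  SqZ.mk (a := (-2048)) (b := (-1536)) (c := (-5632)) (d := (-5120)) (by norm_num) (by norm_num) (by norm_num) (by norm_num)
    (CovZ.topM TW_LL 16 (by decide +kernel) (CovZ.n2 (-1792, -5376) (by decide +kernel)
    (CovZ.badM (by decide +kernel))
    (CovZ.n1 (-1792, -5632) (by decide +kernel)
     (CovZ.n2 (-1920, -5504) (by decide +kernel)
      (CovZ.n2 (-1792, -5504) (by decide +kernel)
       (CovZ.badM (by decide +kernel))
       (CovZ.n1 (-1856, -5440) (by decide +kernel)
        (CovZ.n2 (-1792, -5440) (by decide +kernel)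
         (CovZ.badM (by decide +kernel))
         (CovZ.n1 (-1824, -5408) (by decide +kernel)
          (CovZ.badM (by decide +kernel))
          (CovZ.badM (by decide +kernel))))
        (CovZ.badM (by decide +kernel))))
      (CovZ.badM (by decide +kernel)))
     (CovZ.badM (by decide +kernel)))))
    (CovZ.topM TW_LL 24 (by decide +kernel) (CovZ.n0 (-1792, -5376) (by decide +kernel)
    TW_u4
    TW_u5))

theorem TW_s6_0 : SqZ TW_M TW_L [0, 7, 4, 3] (-4608) (-5632) 512 6 0 :=
  SqZ.mk (a := (-1536)) (b := (-1024)) (c := (-5632)) (d := (-5120)) (by norm_num) (by norm_num) (by norm_num) (by norm_num)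
    (CovZ.topM TW_LL 0 (by decide +kernel) (CovZ.badM (by decide +kernel)))
    (CovZ.topM TW_LL 0 (by decide +kernel) (CovZ.badM (by decide +kernel)))

theorem TW_s7_0 : SqZ TW_M TW_L [0, 7, 4, 3] (-4608) (-5632) 512 7 0 :=
  SqZ.mk (a := (-1024)) (b := (-512)) (c := (-5632)) (d := (-5120)) (by norm_num) (by norm_num) (by norm_num) (by norm_num)
    (CovZ.topM TW_LL 0 (by decide +kernel) (CovZ.badM (by decide +kernel)))
    (CovZ.topM TW_LL 0 (by decide +kernel) (CovZ.badM (by decide +kernel)))

theorem TW_s8_0 : SqZ TW_M TW_L [0, 7, 4, 3] (-4608) (-5632) 512 8 0 :=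
  SqZ.mk (a := (-512)) (b := 0) (c := (-5632)) (d := (-5120)) (by norm_num) (by norm_num) (by norm_num) (by norm_num)
    (CovZ.topM TW_LL 0 (by decide +kernel) (CovZ.badM (by decide +kernel)))
    (CovZ.topM TW_LL 0 (by decide +kernel) (CovZ.badM (by decide +kernel)))

theorem TW_s9_0 : SqZ TW_M TW_L [0, 7, 4, 3] (-4608) (-5632) 512 9 0 :=
  SqZ.mk (a := 0) (b := 512) (c := (-5632)) (d := (-5120)) (by norm_num) (by norm_num) (by norm_num) (by norm_num)
    (CovZ.topM TW_LL 0 (by decide +kernel) (CovZ.badM (by decide +kernel)))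
    (CovZ.topM TW_LL 0 (by decide +kernel) (CovZ.badM (by decide +kernel)))

theorem TW_s10_0 : SqZ TW_M TW_L [0, 7, 4, 3] (-4608) (-5632) 512 10 0 :=
  SqZ.mk (a := 512) (b := 1024) (c := (-5632)) (d := (-5120)) (by norm_num) (by norm_num) (by norm_num) (by norm_num)
    (CovZ.topM TW_LL 0 (by decide +kernel) (CovZ.badM (by decide +kernel)))
    (CovZ.topM TW_LL 0 (by decide +kernel) (CovZ.badM (by decide +kernel)))

theorem TW_s11_0 : SqZ TW_M TW_L [0, 7, 4, 3] (-4608) (-5632) 512 11 0 :=
  SqZ.mk (a := 1024) (b := 1536) (c := (-5632)) (d := (-5120)) (by norm_num) (by norm_num) (by norm_num) (by norm_num)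
    (CovZ.topM TW_LL 0 (by decide +kernel) (CovZ.badM (by decide +kernel)))
    (CovZ.topM TW_LL 0 (by decide +kernel) (CovZ.badM (by decide +kernel)))

theorem TW_s12_0 : SqZ TW_M TW_L [0, 7, 4, 3] (-4608) (-5632) 512 12 0 :=
  SqZ.mk (a := 1536) (b := 2048) (c := (-5632)) (d := (-5120)) (by norm_num) (by norm_num) (by norm_num) (by norm_num)
    (CovZ.topM TW_LL 0 (by decide +kernel) (CovZ.badM (by decide +kernel)))
    (CovZ.topM TW_LL 0 (by decide +kernel) (CovZ.badM (by decide +kernel)))

theorem TW_s13_0 : SqZ TW_M TW_L [0, 7, 4, 3] (-4608) (-5632) 512 13 0 :=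
  SqZ.mk (a := 2048) (b := 2560) (c := (-5632)) (d := (-5120)) (by norm_num) (by norm_num) (by norm_num) (by norm_num)
    (CovZ.topM TW_LL 0 (by decide +kernel) (CovZ.badM (by decide +kernel)))
    (CovZ.topM TW_LL 0 (by decide +kernel) (CovZ.badM (by decide +kernel)))

theorem TW_s14_0 : SqZ TW_M TW_L [0, 7, 4, 3] (-4608) (-5632) 512 14 0 :=
  SqZ.mk (a := 2560) (b := 3072) (c := (-5632)) (d := (-5120)) (by norm_num) (by norm_num) (by norm_num) (by norm_num)
    (CovZ.topM TW_LL 0 (by decide +kernel) (CovZ.badM (by decide +kernel)))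
    (CovZ.topM TW_LL 0 (by decide +kernel) (CovZ.badM (by decide +kernel)))

theorem TW_s15_0 : SqZ TW_M TW_L [0, 7, 4, 3] (-4608) (-5632) 512 15 0 :=
  SqZ.mk (a := 3072) (b := 3584) (c := (-5632)) (d := (-5120)) (by norm_num) (by norm_num) (by norm_num) (by norm_num)
    (CovZ.topM TW_LL 0 (by decide +kernel) (CovZ.badM (by decide +kernel)))
    (CovZ.topM TW_LL 0 (by decide +kernel) (CovZ.badM (by decide +kernel)))

theorem TW_s16_0 : SqZ TW_M TW_L [0, 7, 4, 3] (-4608) (-5632) 512 16 0 :=
  SqZ.mk (a := 3584) (b := 4096) (c := (-5632)) (d := (-5120)) (by norm_num) (by norm_num) (by norm_num) (by norm_num)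
    (CovZ.topM TW_LL 0 (by decide +kernel) (CovZ.badM (by decide +kernel)))
    (CovZ.topM TW_LL 0 (by decide +kernel) (CovZ.badM (by decide +kernel)))

theorem TW_s0_1 : SqZ TW_M TW_L [0, 7, 4, 3] (-4608) (-5632) 512 0 1 :=
  SqZ.mk (a := (-4608)) (b := (-4096)) (c := (-5120)) (d := (-4608)) (by norm_num) (by norm_num) (by norm_num) (by norm_num)
    (CovZ.topM TW_LL 0 (by decide +kernel) (CovZ.badM (by decide +kernel)))
    (CovZ.topM TW_LL 0 (by decide +kernel) (CovZ.badM (by decide +kernel)))

theorem TW_s1_1 : SqZ TW_M TW_L [0, 7, 4, 3] (-4608) (-5632) 512 1 1 :=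
  SqZ.mk (a := (-4096)) (b := (-3584)) (c := (-5120)) (d := (-4608)) (by norm_num) (by norm_num) (by norm_num) (by norm_num)
    (CovZ.topM TW_LL 0 (by decide +kernel) (CovZ.badM (by decide +kernel)))
    (CovZ.topM TW_LL 0 (by decide +kernel) (CovZ.badM (by decide +kernel)))

theorem TW_s2_1 : SqZ TW_M TW_L [0, 7, 4, 3] (-4608) (-5632) 512 2 1 :=
  SqZ.mk (a := (-3584)) (b := (-3072)) (c := (-5120)) (d := (-4608)) (by norm_num) (by norm_num) (by norm_num) (by norm_num)
    (CovZ.topM TW_LL 4 (by decide +kernel) (CovZ.n2 (-3328, -4864) (by decide +kernel)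
    (CovZ.n2 (-3072, -4864) (by decide +kernel)
     (CovZ.badM (by decide +kernel))
     (CovZ.badM (by decide +kernel)))
    (CovZ.badM (by decide +kernel))))
    (CovZ.topM TW_LL 0 (by decide +kernel) (CovZ.badM (by decide +kernel)))

theorem TW_s3_1 : SqZ TW_M TW_L [0, 7, 4, 3] (-4608) (-5632) 512 3 1 :=
  SqZ.mk (a := (-3072)) (b := (-2560)) (c := (-5120)) (d := (-4608)) (by norm_num) (by norm_num) (by norm_num) (by norm_num)
    (CovZ.topM TW_LL 16 (by decide +kernel) (CovZ.n2 (-2816, -4864) (by decide +kernel)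
    (CovZ.n2 (-2560, -4864) (by decide +kernel)
     (CovZ.n2 (-2688, -4992) (by decide +kernel)
      (CovZ.n2 (-2688, -4864) (by decide +kernel)
       (CovZ.n2 (-2624, -4928) (by decide +kernel)
        (CovZ.leaf K2_ok TW_l393 _)
        (CovZ.leaf K2_ok TW_l394 _))
       (CovZ.n1 (-2752, -4928) (by decide +kernel)
        (CovZ.leaf K2_ok TW_l395 _)
        (CovZ.leaf K2_ok TW_l396 _)))
      (CovZ.n1 (-2560, -4992) (by decide +kernel)
       (CovZ.n2 (-2624, -5056) (by decide +kernel)
        (CovZ.leaf K2_ok TW_l397 _)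
        (CovZ.n1 (-2560, -5056) (by decide +kernel)
         (CovZ.leaf K2_ok TW_l2971 _)
         (CovZ.leaf K2_ok TW_l398 _)))
       (CovZ.n1 (-2624, -4928) (by decide +kernel)
        (CovZ.leaf K2_ok TW_l399 _)
        (CovZ.leaf K2_ok TW_l400 _))))
     (CovZ.n1 (-2688, -4736) (by decide +kernel)
      (CovZ.n2 (-2560, -4736) (by decide +kernel)
       (CovZ.n2 (-2624, -4800) (by decide +kernel)
        (CovZ.leaf K2_ok TW_l401 _)
        (CovZ.leaf K2_ok TW_l402 _))
       (CovZ.leaf K2_ok TW_l403 _))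
      (CovZ.n1 (-2688, -4864) (by decide +kernel)
       (CovZ.n2 (-2752, -4800) (by decide +kernel)
        (CovZ.leaf K2_ok TW_l404 _)
        (CovZ.leaf K2_ok TW_l405 _))
       (CovZ.leaf K2_ok TW_l406 _))))
    (CovZ.n1 (-2816, -5120) (by decide +kernel)
     (CovZ.badM (by decide +kernel))
     (CovZ.n1 (-2688, -4992) (by decide +kernel)
      (CovZ.n2 (-2688, -5120) (by decide +kernel)
       (CovZ.n2 (-2752, -5056) (by decide +kernel)
        (CovZ.n2 (-2688, -5056) (by decide +kernel)
         (CovZ.n2 (-2720, -5088) (by decide +kernel)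
          (CovZ.leaf K2_ok TW_l2972 _)
          (CovZ.leaf K2_ok TW_l2973 _))
         (CovZ.leaf K2_ok TW_l2974 _))
        (CovZ.n1 (-2752, -5120) (by decide +kernel)
         (CovZ.n2 (-2784, -5088) (by decide +kernel)
          (CovZ.n2 (-2752, -5088) (by decide +kernel)
           (CovZ.n2 (-2768, -5104) (by decide +kernel)
            (CovZ.leaf K2_ok TW_l2975 _)
            (CovZ.leaf K2_ok TW_l2976 _))
           (CovZ.leaf K2_ok TW_l2977 _))
          (CovZ.n1 (-2784, -5120) (by decide +kernel)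
           (CovZ.n2 (-2800, -5104) (by decide +kernel)
            (CovZ.leaf K2_ok TW_l2978 _)
            (CovZ.leaf K2_ok TW_l2979 _))
           (CovZ.leaf K2_ok TW_l2980 _)))
         (CovZ.n1 (-2720, -5088) (by decide +kernel)
          (CovZ.leaf K2_ok TW_l2981 _)
          (CovZ.n1 (-2752, -5088) (by decide +kernel)
           (CovZ.leaf K2_ok TW_l2982 _)
           (CovZ.leaf K2_ok TW_l2983 _)))))
       (CovZ.n1 (-2624, -5056) (by decide +kernel)
        (CovZ.n2 (-2624, -5120) (by decide +kernel)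
         (CovZ.leaf K2_ok TW_l2984 _)
         (CovZ.leaf K2_ok TW_l2985 _))
        (CovZ.leaf K2_ok TW_l2986 _)))
      (CovZ.n1 (-2816, -4992) (by decide +kernel)
       (CovZ.n2 (-2752, -4928) (by decide +kernel)
        (CovZ.n2 (-2752, -4992) (by decide +kernel)
         (CovZ.n2 (-2784, -4960) (by decide +kernel)
          (CovZ.leaf K2_ok TW_l2987 _)
          (CovZ.n1 (-2784, -4992) (by decide +kernel)
           (CovZ.leaf K2_ok TW_l2988 _)
           (CovZ.leaf K2_ok TW_l2989 _)))
         (CovZ.leaf K2_ok TW_l2990 _))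
        (CovZ.n1 (-2816, -4928) (by decide +kernel)
         (CovZ.leaf K2_ok TW_l2991 _)
         (CovZ.n1 (-2784, -4960) (by decide +kernel)
          (CovZ.leaf K2_ok TW_l2992 _)
          (CovZ.leaf K2_ok TW_l2993 _))))
       (CovZ.n1 (-2752, -5056) (by decide +kernel)
        (CovZ.n2 (-2816, -5056) (by decide +kernel)
         (CovZ.n2 (-2784, -5024) (by decide +kernel)
          (CovZ.n2 (-2784, -5056) (by decide +kernel)
           (CovZ.n2 (-2800, -5040) (by decide +kernel)
            (CovZ.leaf K2_ok TW_l2994 _)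
            (CovZ.n1 (-2800, -5056) (by decide +kernel)
             (CovZ.leaf K2_ok TW_l2995 _)
             (CovZ.leaf K2_ok TW_l2996 _)))
           (CovZ.leaf K2_ok TW_l2997 _))
          (CovZ.n1 (-2816, -5024) (by decide +kernel)
           (CovZ.n2 (-2800, -5008) (by decide +kernel)
            (CovZ.n2 (-2800, -5024) (by decide +kernel)
             (CovZ.leaf K2_ok TW_l2998 _)
             (CovZ.leaf K2_ok TW_l2999 _))
            (CovZ.leaf K2_ok TW_l3000 _))
           (CovZ.n1 (-2800, -5040) (by decide +kernel)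
            (CovZ.n2 (-2816, -5040) (by decide +kernel)
             (CovZ.leaf K2_ok TW_l3001 _)
             (CovZ.leaf K2_ok TW_l3002 _))
            (CovZ.leaf K2_ok TW_l3003 _))))
         (CovZ.n1 (-2784, -5088) (by decide +kernel)
          (CovZ.n2 (-2816, -5088) (by decide +kernel)
           (CovZ.n2 (-2800, -5072) (by decide +kernel)
            (CovZ.leaf K2_ok TW_l3004 _)
            (CovZ.n1 (-2816, -5072) (by decide +kernel)
             (CovZ.leaf K2_ok TW_l3005 _)
             (CovZ.leaf K2_ok TW_l3006 _)))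
           (CovZ.n1 (-2800, -5104) (by decide +kernel)
            (CovZ.n2 (-2816, -5104) (by decide +kernel)
             (CovZ.leaf K2_ok TW_l3007 _)
             (CovZ.leaf K2_ok TW_l3008 _))
            (CovZ.leaf K2_ok TW_l3009 _)))
          (CovZ.n1 (-2784, -5056) (by decide +kernel)
           (CovZ.leaf K2_ok TW_l3010 _)
           (CovZ.n1 (-2800, -5072) (by decide +kernel)
            (CovZ.leaf K2_ok TW_l3011 _)
            (CovZ.leaf K2_ok TW_l3012 _)))))
        (CovZ.n1 (-2752, -4992) (by decide +kernel)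
         (CovZ.leaf K2_ok TW_l3013 _)
         (CovZ.n1 (-2784, -5024) (by decide +kernel)
          (CovZ.n2 (-2784, -4992) (by decide +kernel)
           (CovZ.leaf K2_ok TW_l3014 _)
           (CovZ.n1 (-2800, -5008) (by decide +kernel)
            (CovZ.leaf K2_ok TW_l3015 _)
            (CovZ.leaf K2_ok TW_l3016 _)))
          (CovZ.n1 (-2752, -5024) (by decide +kernel)
           (CovZ.n2 (-2768, -5040) (by decide +kernel)
            (CovZ.leaf K2_ok TW_l3017 _)
            (CovZ.leaf K2_ok TW_l3018 _))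
           (CovZ.leaf K2_ok TW_l3019 _))))))))))
    (CovZ.topM TW_LL 20 (by decide +kernel) (CovZ.n0 (-2816, -4864) (by decide +kernel)
    (CovZ.n2 (-3072, -4864) (by decide +kernel)
     (CovZ.n2 (-2944, -4736) (by decide +kernel)
      (CovZ.badM (by decide +kernel))
      (CovZ.n1 (-3072, -4736) (by decide +kernel)
       (CovZ.n2 (-3008, -4672) (by decide +kernel)
        (CovZ.n2 (-3008, -4736) (by decide +kernel)
         (CovZ.badM (by decide +kernel))
         (CovZ.n1 (-2976, -4704) (by decide +kernel)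
          (CovZ.n2 (-2976, -4736) (by decide +kernel)
           (CovZ.n2 (-2992, -4720) (by decide +kernel)
            (CovZ.n2 (-2976, -4720) (by decide +kernel)
             (CovZ.leaf K2_ok TW_l3020 _)
             (CovZ.badM (by decide +kernel)))
            (CovZ.n1 (-2992, -4736) (by decide +kernel)
             (CovZ.badM (by decide +kernel))
             (CovZ.leaf K2_ok TW_l3021 _)))
           (CovZ.leaf K2_ok TW_l3022 _))
          (CovZ.badM (by decide +kernel))))
        (CovZ.badM (by decide +kernel)))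
       (CovZ.n1 (-3008, -4800) (by decide +kernel)
        (CovZ.n2 (-3072, -4800) (by decide +kernel)
         (CovZ.n2 (-3040, -4768) (by decide +kernel)
          (CovZ.badM (by decide +kernel))
          (CovZ.badM (by decide +kernel)))
         (CovZ.badM (by decide +kernel)))
        (CovZ.n1 (-3008, -4736) (by decide +kernel)
         (CovZ.n2 (-2976, -4768) (by decide +kernel)
          (CovZ.n2 (-3008, -4768) (by decide +kernel)
           (CovZ.n2 (-2992, -4752) (by decide +kernel)
            (CovZ.badM (by decide +kernel))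
            (CovZ.badM (by decide +kernel)))
           (CovZ.badM (by decide +kernel)))
          (CovZ.n1 (-2976, -4736) (by decide +kernel)
           (CovZ.n2 (-2960, -4752) (by decide +kernel)
            (CovZ.leaf K2_ok TW_l3023 _)
            (CovZ.leaf K2_ok TW_l3024 _))
           (CovZ.n1 (-2992, -4752) (by decide +kernel)
            (CovZ.n2 (-2992, -4736) (by decide +kernel)
             (CovZ.leaf K2_ok TW_l3025 _)
             (CovZ.badM (by decide +kernel)))
            (CovZ.n1 (-2976, -4752) (by decide +kernel)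
             (CovZ.badM (by decide +kernel))
             (CovZ.leaf K2_ok TW_l3026 _)))))
         (CovZ.n1 (-3040, -4768) (by decide +kernel)
          (CovZ.badM (by decide +kernel))
          (CovZ.n1 (-3008, -4768) (by decide +kernel)
           (CovZ.badM (by decide +kernel))
           (CovZ.badM (by decide +kernel))))))))
     (CovZ.badM (by decide +kernel)))
    (CovZ.n1 (-2816, -4608) (by decide +kernel)
     (CovZ.n2 (-2688, -4736) (by decide +kernel)
      (CovZ.n2 (-2816, -4736) (by decide +kernel)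
       (CovZ.leaf K2_ok TW_l407 _)
       (CovZ.n1 (-2752, -4800) (by decide +kernel)
        (CovZ.leaf K2_ok TW_l408 _)
        (CovZ.leaf K2_ok TW_l409 _)))
      (CovZ.n1 (-2688, -4608) (by decide +kernel)
       (CovZ.leaf K2_ok TW_l410 _)
       (CovZ.n1 (-2752, -4672) (by decide +kernel)
        (CovZ.leaf K2_ok TW_l411 _)
        (CovZ.leaf K2_ok TW_l412 _))))
     (CovZ.n1 (-2944, -4736) (by decide +kernel)
      (CovZ.n2 (-2944, -4608) (by decide +kernel)
       (CovZ.n2 (-2880, -4672) (by decide +kernel)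
        (CovZ.n2 (-2944, -4672) (by decide +kernel)
         (CovZ.leaf K2_ok TW_l413 _)
         (CovZ.leaf K2_ok TW_l414 _))
        (CovZ.leaf K2_ok TW_l415 _))
       (CovZ.n1 (-3008, -4672) (by decide +kernel)
        (CovZ.badM (by decide +kernel))
        (CovZ.n1 (-2944, -4672) (by decide +kernel)
         (CovZ.n2 (-2976, -4704) (by decide +kernel)
          (CovZ.n2 (-2976, -4672) (by decide +kernel)
           (CovZ.leaf K2_ok TW_l420 _)
           (CovZ.badM (by decide +kernel)))
          (CovZ.n1 (-2944, -4704) (by decide +kernel)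
           (CovZ.n2 (-2960, -4720) (by decide +kernel)
            (CovZ.leaf K2_ok TW_l3027 _)
            (CovZ.leaf K2_ok TW_l3028 _))
           (CovZ.leaf K2_ok TW_l421 _)))
         (CovZ.n1 (-2976, -4640) (by decide +kernel)
          (CovZ.leaf K2_ok TW_l422 _)
          (CovZ.n1 (-2976, -4672) (by decide +kernel)
           (CovZ.badM (by decide +kernel))
           (CovZ.leaf K2_ok TW_l424 _))))))
      (CovZ.n1 (-2816, -4736) (by decide +kernel)
       (CovZ.badM (by decide +kernel))
       (CovZ.n1 (-2880, -4672) (by decide +kernel)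
        (CovZ.leaf K2_ok TW_l429 _)
        (CovZ.n1 (-2880, -4736) (by decide +kernel)
         (CovZ.n2 (-2912, -4704) (by decide +kernel)
          (CovZ.leaf K2_ok TW_l430 _)
          (CovZ.leaf K2_ok TW_l431 _))
         (CovZ.leaf K2_ok TW_l432 _))))))))

theorem TW_s4_1 : SqZ TW_M TW_L [0, 7, 4, 3] (-4608) (-5632) 512 4 1 :=
  SqZ.mk (a := (-2560)) (b := (-2048)) (c := (-5120)) (d := (-4608)) (by norm_num) (by norm_num) (by norm_num) (by norm_num)
    (CovZ.topM TW_LL 24 (by decide +kernel) (CovZ.n2 (-2304, -4864) (by decide +kernel)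
    (CovZ.n2 (-2048, -4864) (by decide +kernel)
     (CovZ.n2 (-2176, -4992) (by decide +kernel)
      (CovZ.n2 (-2176, -4864) (by decide +kernel)
       (CovZ.n2 (-2112, -4928) (by decide +kernel)
        (CovZ.leaf K2_ok TW_l683 _)
        (CovZ.leaf K2_ok TW_l684 _))
       (CovZ.n1 (-2240, -4928) (by decide +kernel)
        (CovZ.leaf K2_ok TW_l685 _)
        (CovZ.leaf K2_ok TW_l686 _)))
      (CovZ.n1 (-2048, -4992) (by decide +kernel)
       (CovZ.n2 (-2112, -5056) (by decide +kernel)
        (CovZ.leaf K2_ok TW_l687 _)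
        (CovZ.leaf K2_ok TW_l688 _))
       (CovZ.n1 (-2112, -4928) (by decide +kernel)
        (CovZ.leaf K2_ok TW_l689 _)
        (CovZ.leaf K2_ok TW_l690 _))))
     (CovZ.n1 (-2176, -4736) (by decide +kernel)
      (CovZ.n2 (-2048, -4736) (by decide +kernel)
       (CovZ.n2 (-2112, -4800) (by decide +kernel)
        (CovZ.leaf K2_ok TW_l691 _)
        (CovZ.leaf K2_ok TW_l692 _))
       (CovZ.leaf K2_ok TW_l693 _))
      (CovZ.n1 (-2176, -4864) (by decide +kernel)
       (CovZ.leaf K2_ok TW_l694 _)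
       (CovZ.leaf K2_ok TW_l695 _))))
    (CovZ.n1 (-2304, -5120) (by decide +kernel)
     (CovZ.n2 (-2432, -4992) (by decide +kernel)
      (CovZ.n2 (-2304, -4992) (by decide +kernel)
       (CovZ.n2 (-2368, -5056) (by decide +kernel)
        (CovZ.leaf K2_ok TW_l696 _)
        (CovZ.leaf K2_ok TW_l697 _))
       (CovZ.leaf K2_ok TW_l698 _))
      (CovZ.n1 (-2432, -5120) (by decide +kernel)
       (CovZ.n2 (-2496, -5056) (by decide +kernel)
        (CovZ.leaf K2_ok TW_l699 _)
        (CovZ.leaf K2_ok TW_l700 _))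
       (CovZ.n1 (-2368, -5056) (by decide +kernel)
        (CovZ.leaf K2_ok TW_l701 _)
        (CovZ.leaf K2_ok TW_l702 _))))
     (CovZ.n1 (-2176, -4992) (by decide +kernel)
      (CovZ.n2 (-2176, -5120) (by decide +kernel)
       (CovZ.n2 (-2240, -5056) (by decide +kernel)
        (CovZ.leaf K2_ok TW_l703 _)
        (CovZ.leaf K2_ok TW_l704 _))
       (CovZ.n1 (-2112, -5056) (by decide +kernel)
        (CovZ.leaf K2_ok TW_l705 _)
        (CovZ.leaf K2_ok TW_l706 _)))
      (CovZ.n1 (-2304, -4992) (by decide +kernel)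
       (CovZ.leaf K2_ok TW_l707 _)
       (CovZ.n1 (-2240, -5056) (by decide +kernel)
        (CovZ.leaf K2_ok TW_l708 _)
        (CovZ.leaf K2_ok TW_l709 _)))))))
    (CovZ.topM TW_LL 24 (by decide +kernel) (CovZ.n0 (-2304, -4864) (by decide +kernel)
    (CovZ.n2 (-2560, -4864) (by decide +kernel)
     (CovZ.n2 (-2432, -4736) (by decide +kernel)
      (CovZ.n2 (-2432, -4864) (by decide +kernel)
       (CovZ.leaf K2_ok TW_l710 _)
       (CovZ.leaf K2_ok TW_l711 _))
      (CovZ.n1 (-2560, -4736) (by decide +kernel)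
       (CovZ.leaf K2_ok TW_l712 _)
       (CovZ.leaf K2_ok TW_l713 _)))
     (CovZ.n1 (-2432, -4992) (by decide +kernel)
      (CovZ.n2 (-2560, -4992) (by decide +kernel)
       (CovZ.leaf K2_ok TW_l714 _)
       (CovZ.n1 (-2496, -5056) (by decide +kernel)
        (CovZ.leaf K2_ok TW_l715 _)
        (CovZ.leaf K2_ok TW_l716 _)))
      (CovZ.n1 (-2432, -4864) (by decide +kernel)
       (CovZ.leaf K2_ok TW_l717 _)
       (CovZ.n1 (-2496, -4928) (by decide +kernel)
        (CovZ.leaf K2_ok TW_l718 _)
        (CovZ.leaf K2_ok TW_l719 _)))))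
    (CovZ.n1 (-2304, -4608) (by decide +kernel)
     (CovZ.n2 (-2176, -4736) (by decide +kernel)
      (CovZ.n2 (-2304, -4736) (by decide +kernel)
       (CovZ.leaf K2_ok TW_l720 _)
       (CovZ.leaf K2_ok TW_l721 _))
      (CovZ.n1 (-2176, -4608) (by decide +kernel)
       (CovZ.leaf K2_ok TW_l722 _)
       (CovZ.n1 (-2240, -4672) (by decide +kernel)
        (CovZ.leaf K2_ok TW_l723 _)
        (CovZ.leaf K2_ok TW_l724 _))))
     (CovZ.n1 (-2432, -4736) (by decide +kernel)
      (CovZ.n2 (-2432, -4608) (by decide +kernel)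
       (CovZ.leaf K2_ok TW_l725 _)
       (CovZ.n1 (-2496, -4672) (by decide +kernel)
        (CovZ.leaf K2_ok TW_l726 _)
        (CovZ.leaf K2_ok TW_l727 _)))
      (CovZ.n1 (-2304, -4736) (by decide +kernel)
       (CovZ.n2 (-2368, -4800) (by decide +kernel)
        (CovZ.leaf K2_ok TW_l728 _)
        (CovZ.leaf K2_ok TW_l729 _))
       (CovZ.leaf K2_ok TW_l730 _))))))

theorem TW_s5_1 : SqZ TW_M TW_L [0, 7, 4, 3] (-4608) (-5632) 512 5 1 :=
  SqZ.mk (a := (-2048)) (b := (-1536)) (c := (-5120)) (d := (-4608)) (by norm_num) (by norm_num) (by norm_num) (by norm_num)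
    (CovZ.topM TW_LL 24 (by decide +kernel) (CovZ.n2 (-1792, -4864) (by decide +kernel)
    (CovZ.n2 (-1536, -4864) (by decide +kernel)
     (CovZ.n2 (-1664, -4992) (by decide +kernel)
      (CovZ.n2 (-1664, -4864) (by decide +kernel)
       (CovZ.n2 (-1600, -4928) (by decide +kernel)
        (CovZ.n2 (-1664, -4928) (by decide +kernel)
         (CovZ.leaf K2_ok TW_l3505 _)
         (CovZ.leaf K2_ok TW_l3506 _))
        (CovZ.n1 (-1600, -4864) (by decide +kernel)
         (CovZ.n2 (-1568, -4896) (by decide +kernel)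
          (CovZ.leaf K2_ok TW_l3507 _)
          (CovZ.leaf K2_ok TW_l3508 _))
         (CovZ.n1 (-1632, -4896) (by decide +kernel)
          (CovZ.leaf K2_ok TW_l3509 _)
          (CovZ.leaf K2_ok TW_l3510 _))))
       (CovZ.n1 (-1728, -4928) (by decide +kernel)
        (CovZ.leaf K2_ok TW_l1041 _)
        (CovZ.n1 (-1664, -4928) (by decide +kernel)
         (CovZ.leaf K2_ok TW_l3511 _)
         (CovZ.leaf K2_ok TW_l3512 _))))
      (CovZ.n1 (-1536, -4992) (by decide +kernel)
       (CovZ.n2 (-1600, -5056) (by decide +kernel)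
        (CovZ.n2 (-1600, -4992) (by decide +kernel)
         (CovZ.n2 (-1568, -5024) (by decide +kernel)
          (CovZ.n2 (-1600, -5024) (by decide +kernel)
           (CovZ.leaf K2_ok TW_l3513 _)
           (CovZ.leaf K2_ok TW_l3514 _))
          (CovZ.n1 (-1568, -4992) (by decide +kernel)
           (CovZ.badM (by decide +kernel))
           (CovZ.leaf K2_ok TW_l3515 _)))
         (CovZ.n1 (-1632, -5024) (by decide +kernel)
          (CovZ.leaf K2_ok TW_l3516 _)
          (CovZ.n1 (-1600, -5024) (by decide +kernel)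
           (CovZ.leaf K2_ok TW_l3517 _)
           (CovZ.leaf K2_ok TW_l3518 _))))
        (CovZ.badM (by decide +kernel)))
       (CovZ.n1 (-1600, -4928) (by decide +kernel)
        (CovZ.n2 (-1536, -4928) (by decide +kernel)
         (CovZ.n2 (-1568, -4960) (by decide +kernel)
          (CovZ.leaf K2_ok TW_l3519 _)
          (CovZ.n1 (-1536, -4960) (by decide +kernel)
           (CovZ.n2 (-1552, -4976) (by decide +kernel)
            (CovZ.leaf K2_ok TW_l3520 _)
            (CovZ.badM (by decide +kernel)))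
           (CovZ.leaf K2_ok TW_l3521 _)))
         (CovZ.n1 (-1568, -4896) (by decide +kernel)
          (CovZ.leaf K2_ok TW_l3522 _)
          (CovZ.leaf K2_ok TW_l3523 _)))
        (CovZ.n1 (-1600, -4992) (by decide +kernel)
         (CovZ.n2 (-1632, -4960) (by decide +kernel)
          (CovZ.leaf K2_ok TW_l3524 _)
          (CovZ.leaf K2_ok TW_l3525 _))
         (CovZ.n1 (-1568, -4960) (by decide +kernel)
          (CovZ.n2 (-1568, -4992) (by decide +kernel)
           (CovZ.leaf K2_ok TW_l3526 _)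
           (CovZ.leaf K2_ok TW_l3527 _))
          (CovZ.leaf K2_ok TW_l3528 _))))))
     (CovZ.n1 (-1664, -4736) (by decide +kernel)
      (CovZ.n2 (-1536, -4736) (by decide +kernel)
       (CovZ.n2 (-1600, -4800) (by decide +kernel)
        (CovZ.leaf K2_ok TW_l1042 _)
        (CovZ.n1 (-1536, -4800) (by decide +kernel)
         (CovZ.n2 (-1568, -4832) (by decide +kernel)
          (CovZ.leaf K2_ok TW_l3529 _)
          (CovZ.leaf K2_ok TW_l3530 _))
         (CovZ.leaf K2_ok TW_l3531 _)))
       (CovZ.n1 (-1600, -4672) (by decide +kernel)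
        (CovZ.leaf K2_ok TW_l1043 _)
        (CovZ.leaf K2_ok TW_l1044 _)))
      (CovZ.n1 (-1664, -4864) (by decide +kernel)
       (CovZ.n2 (-1728, -4800) (by decide +kernel)
        (CovZ.leaf K2_ok TW_l1045 _)
        (CovZ.leaf K2_ok TW_l1046 _))
       (CovZ.n1 (-1600, -4800) (by decide +kernel)
        (CovZ.n2 (-1600, -4864) (by decide +kernel)
         (CovZ.leaf K2_ok TW_l3532 _)
         (CovZ.leaf K2_ok TW_l3533 _))
        (CovZ.leaf K2_ok TW_l1047 _)))))
    (CovZ.n1 (-1792, -5120) (by decide +kernel)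
     (CovZ.n2 (-1920, -4992) (by decide +kernel)
      (CovZ.n2 (-1792, -4992) (by decide +kernel)
       (CovZ.n2 (-1856, -5056) (by decide +kernel)
        (CovZ.leaf K2_ok TW_l1048 _)
        (CovZ.n1 (-1792, -5056) (by decide +kernel)
         (CovZ.leaf K2_ok TW_l3534 _)
         (CovZ.leaf K2_ok TW_l3535 _)))
       (CovZ.n1 (-1856, -4928) (by decide +kernel)
        (CovZ.leaf K2_ok TW_l1049 _)
        (CovZ.leaf K2_ok TW_l1050 _)))
      (CovZ.n1 (-1920, -5120) (by decide +kernel)
       (CovZ.n2 (-1984, -5056) (by decide +kernel)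
        (CovZ.leaf K2_ok TW_l1051 _)
        (CovZ.leaf K2_ok TW_l1052 _))
       (CovZ.n1 (-1856, -5056) (by decide +kernel)
        (CovZ.leaf K2_ok TW_l3536 _)
        (CovZ.leaf K2_ok TW_l1053 _))))
     (CovZ.n1 (-1664, -4992) (by decide +kernel)
      (CovZ.n2 (-1664, -5120) (by decide +kernel)
       (CovZ.n2 (-1728, -5056) (by decide +kernel)
        (CovZ.n2 (-1664, -5056) (by decide +kernel)
         (CovZ.n2 (-1696, -5088) (by decide +kernel)
          (CovZ.leaf K2_ok TW_l3537 _)
          (CovZ.n1 (-1664, -5088) (by decide +kernel)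
           (CovZ.leaf K2_ok TW_l3538 _)
           (CovZ.leaf K2_ok TW_l3539 _)))
         (CovZ.n1 (-1696, -5024) (by decide +kernel)
          (CovZ.leaf K2_ok TW_l3540 _)
          (CovZ.leaf K2_ok TW_l3541 _)))
        (CovZ.n1 (-1728, -5120) (by decide +kernel)
         (CovZ.leaf K2_ok TW_l3542 _)
         (CovZ.n1 (-1696, -5088) (by decide +kernel)
          (CovZ.leaf K2_ok TW_l3543 _)
          (CovZ.leaf K2_ok TW_l3544 _))))
       (CovZ.n1 (-1600, -5056) (by decide +kernel)
        (CovZ.n2 (-1600, -5120) (by decide +kernel)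
         (CovZ.n2 (-1632, -5088) (by decide +kernel)
          (CovZ.badM (by decide +kernel))
          (CovZ.n1 (-1632, -5120) (by decide +kernel)
           (CovZ.leaf K2_ok TW_l3545 _)
           (CovZ.badM (by decide +kernel))))
         (CovZ.badM (by decide +kernel)))
        (CovZ.n1 (-1664, -5056) (by decide +kernel)
         (CovZ.n2 (-1632, -5024) (by decide +kernel)
          (CovZ.n2 (-1632, -5056) (by decide +kernel)
           (CovZ.leaf K2_ok TW_l3546 _)
           (CovZ.leaf K2_ok TW_l3547 _))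
          (CovZ.leaf K2_ok TW_l3548 _))
         (CovZ.n1 (-1632, -5088) (by decide +kernel)
          (CovZ.n2 (-1664, -5088) (by decide +kernel)
           (CovZ.leaf K2_ok TW_l3549 _)
           (CovZ.leaf K2_ok TW_l3550 _))
          (CovZ.n1 (-1632, -5056) (by decide +kernel)
           (CovZ.leaf K2_ok TW_l3551 _)
           (CovZ.leaf K2_ok TW_l3552 _))))))
      (CovZ.n1 (-1792, -4992) (by decide +kernel)
       (CovZ.n2 (-1728, -4928) (by decide +kernel)
        (CovZ.n2 (-1728, -4992) (by decide +kernel)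
         (CovZ.leaf K2_ok TW_l3553 _)
         (CovZ.leaf K2_ok TW_l3554 _))
        (CovZ.leaf K2_ok TW_l1054 _))
       (CovZ.n1 (-1728, -5056) (by decide +kernel)
        (CovZ.n2 (-1792, -5056) (by decide +kernel)
         (CovZ.leaf K2_ok TW_l3555 _)
         (CovZ.leaf K2_ok TW_l3556 _))
        (CovZ.n1 (-1728, -4992) (by decide +kernel)
         (CovZ.leaf K2_ok TW_l3557 _)
         (CovZ.leaf K2_ok TW_l3558 _))))))))
    (CovZ.topM TW_LL 24 (by decide +kernel) (CovZ.n0 (-1792, -4864) (by decide +kernel)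
    (CovZ.n2 (-2048, -4864) (by decide +kernel)
     (CovZ.n2 (-1920, -4736) (by decide +kernel)
      (CovZ.n2 (-1920, -4864) (by decide +kernel)
       (CovZ.leaf K2_ok TW_l1055 _)
       (CovZ.leaf K2_ok TW_l1056 _))
      (CovZ.n1 (-2048, -4736) (by decide +kernel)
       (CovZ.leaf K2_ok TW_l1057 _)
       (CovZ.leaf K2_ok TW_l1058 _)))
     (CovZ.n1 (-1920, -4992) (by decide +kernel)
      (CovZ.n2 (-2048, -4992) (by decide +kernel)
       (CovZ.leaf K2_ok TW_l1059 _)
       (CovZ.n1 (-1984, -5056) (by decide +kernel)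
        (CovZ.leaf K2_ok TW_l1060 _)
        (CovZ.leaf K2_ok TW_l1061 _)))
      (CovZ.n1 (-1920, -4864) (by decide +kernel)
       (CovZ.n2 (-1856, -4928) (by decide +kernel)
        (CovZ.leaf K2_ok TW_l1062 _)
        (CovZ.leaf K2_ok TW_l1063 _))
       (CovZ.n1 (-1984, -4928) (by decide +kernel)
        (CovZ.leaf K2_ok TW_l1064 _)
        (CovZ.leaf K2_ok TW_l1065 _)))))
    (CovZ.n1 (-1792, -4608) (by decide +kernel)
     (CovZ.n2 (-1664, -4736) (by decide +kernel)
      (CovZ.n2 (-1792, -4736) (by decide +kernel)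
       (CovZ.leaf K2_ok TW_l1066 _)
       (CovZ.n1 (-1728, -4800) (by decide +kernel)
        (CovZ.leaf K2_ok TW_l1067 _)
        (CovZ.leaf K2_ok TW_l1068 _)))
      (CovZ.n1 (-1664, -4608) (by decide +kernel)
       (CovZ.n2 (-1600, -4672) (by decide +kernel)
        (CovZ.leaf K2_ok TW_l1069 _)
        (CovZ.leaf K2_ok TW_l1070 _))
       (CovZ.n1 (-1728, -4672) (by decide +kernel)
        (CovZ.leaf K2_ok TW_l1071 _)
        (CovZ.leaf K2_ok TW_l1072 _))))
     (CovZ.n1 (-1920, -4736) (by decide +kernel)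
      (CovZ.n2 (-1920, -4608) (by decide +kernel)
       (CovZ.leaf K2_ok TW_l1073 _)
       (CovZ.leaf K2_ok TW_l1074 _))
      (CovZ.n1 (-1792, -4736) (by decide +kernel)
       (CovZ.n2 (-1856, -4800) (by decide +kernel)
        (CovZ.leaf K2_ok TW_l1075 _)
        (CovZ.leaf K2_ok TW_l1076 _))
       (CovZ.leaf K2_ok TW_l1077 _))))))

theorem TW_s6_1 : SqZ TW_M TW_L [0, 7, 4, 3] (-4608) (-5632) 512 6 1 :=
  SqZ.mk (a := (-1536)) (b := (-1024)) (c := (-5120)) (d := (-4608)) (by norm_num) (by norm_num) (by norm_num) (by norm_num)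
    (CovZ.topM TW_LL 0 (by decide +kernel) (CovZ.badM (by decide +kernel)))
    (CovZ.topM TW_LL 24 (by decide +kernel) (CovZ.n0 (-1280, -4864) (by decide +kernel)
    (CovZ.n2 (-1536, -4864) (by decide +kernel)
     (CovZ.n2 (-1408, -4736) (by decide +kernel)
      (CovZ.n2 (-1408, -4864) (by decide +kernel)
       (CovZ.n2 (-1472, -4800) (by decide +kernel)
        (CovZ.n2 (-1408, -4800) (by decide +kernel)
         (CovZ.n2 (-1440, -4832) (by decide +kernel)
          (CovZ.n2 (-1440, -4800) (by decide +kernel)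
           (CovZ.badM (by decide +kernel))
           (CovZ.leaf K2_ok TW_l3624 _))
          (CovZ.badM (by decide +kernel)))
         (CovZ.n1 (-1440, -4768) (by decide +kernel)
          (CovZ.badM (by decide +kernel))
          (CovZ.n1 (-1440, -4800) (by decide +kernel)
           (CovZ.leaf K2_ok TW_l3625 _)
           (CovZ.badM (by decide +kernel)))))
        (CovZ.n1 (-1472, -4864) (by decide +kernel)
         (CovZ.n2 (-1504, -4832) (by decide +kernel)
          (CovZ.n2 (-1472, -4832) (by decide +kernel)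
           (CovZ.leaf K2_ok TW_l3626 _)
           (CovZ.leaf K2_ok TW_l3627 _))
          (CovZ.leaf K2_ok TW_l3628 _))
         (CovZ.n1 (-1440, -4832) (by decide +kernel)
          (CovZ.badM (by decide +kernel))
          (CovZ.n1 (-1472, -4832) (by decide +kernel)
           (CovZ.leaf K2_ok TW_l3629 _)
           (CovZ.badM (by decide +kernel))))))
       (CovZ.badM (by decide +kernel)))
      (CovZ.n1 (-1536, -4736) (by decide +kernel)
       (CovZ.n2 (-1472, -4672) (by decide +kernel)
        (CovZ.n2 (-1472, -4736) (by decide +kernel)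
         (CovZ.leaf K2_ok TW_l3630 _)
         (CovZ.leaf K2_ok TW_l3631 _))
        (CovZ.n1 (-1536, -4672) (by decide +kernel)
         (CovZ.leaf K2_ok TW_l1454 _)
         (CovZ.leaf K2_ok TW_l3632 _)))
       (CovZ.n1 (-1472, -4800) (by decide +kernel)
        (CovZ.n2 (-1536, -4800) (by decide +kernel)
         (CovZ.leaf K2_ok TW_l3633 _)
         (CovZ.n1 (-1504, -4832) (by decide +kernel)
          (CovZ.leaf K2_ok TW_l3634 _)
          (CovZ.leaf K2_ok TW_l3635 _)))
        (CovZ.n1 (-1472, -4736) (by decide +kernel)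
         (CovZ.n2 (-1440, -4768) (by decide +kernel)
          (CovZ.leaf K2_ok TW_l3636 _)
          (CovZ.leaf K2_ok TW_l3637 _))
         (CovZ.n1 (-1504, -4768) (by decide +kernel)
          (CovZ.leaf K2_ok TW_l3638 _)
          (CovZ.leaf K2_ok TW_l3639 _))))))
     (CovZ.n1 (-1408, -4992) (by decide +kernel)
      (CovZ.n2 (-1536, -4992) (by decide +kernel)
       (CovZ.n2 (-1472, -4928) (by decide +kernel)
        (CovZ.badM (by decide +kernel))
        (CovZ.n1 (-1536, -4928) (by decide +kernel)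
         (CovZ.n2 (-1504, -4896) (by decide +kernel)
          (CovZ.badM (by decide +kernel))
          (CovZ.leaf K2_ok TW_l3640 _))
         (CovZ.badM (by decide +kernel))))
       (CovZ.badM (by decide +kernel)))
      (CovZ.n1 (-1408, -4864) (by decide +kernel)
       (CovZ.badM (by decide +kernel))
       (CovZ.n1 (-1472, -4928) (by decide +kernel)
        (CovZ.n2 (-1472, -4864) (by decide +kernel)
         (CovZ.badM (by decide +kernel))
         (CovZ.n1 (-1504, -4896) (by decide +kernel)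
          (CovZ.n2 (-1504, -4864) (by decide +kernel)
           (CovZ.badM (by decide +kernel))
           (CovZ.leaf K2_ok TW_l3641 _))
          (CovZ.badM (by decide +kernel))))
        (CovZ.badM (by decide +kernel))))))
    (CovZ.n1 (-1280, -4608) (by decide +kernel)
     (CovZ.badM (by decide +kernel))
     (CovZ.n1 (-1408, -4736) (by decide +kernel)
      (CovZ.n2 (-1408, -4608) (by decide +kernel)
       (CovZ.n2 (-1344, -4672) (by decide +kernel)
        (CovZ.n2 (-1408, -4672) (by decide +kernel)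
         (CovZ.leaf K2_ok TW_l3642 _)
         (CovZ.n1 (-1376, -4704) (by decide +kernel)
          (CovZ.leaf K2_ok TW_l3643 _)
          (CovZ.leaf K2_ok TW_l3644 _)))
        (CovZ.n1 (-1344, -4608) (by decide +kernel)
         (CovZ.n2 (-1312, -4640) (by decide +kernel)
          (CovZ.leaf K2_ok TW_l3645 _)
          (CovZ.n1 (-1312, -4608) (by decide +kernel)
           (CovZ.badM (by decide +kernel))
           (CovZ.leaf K2_ok TW_l3646 _)))
         (CovZ.n1 (-1376, -4640) (by decide +kernel)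
          (CovZ.leaf K2_ok TW_l3647 _)
          (CovZ.leaf K2_ok TW_l3648 _))))
       (CovZ.n1 (-1472, -4672) (by decide +kernel)
        (CovZ.n2 (-1472, -4608) (by decide +kernel)
         (CovZ.leaf K2_ok TW_l3649 _)
         (CovZ.leaf K2_ok TW_l1455 _))
        (CovZ.n1 (-1408, -4672) (by decide +kernel)
         (CovZ.n2 (-1440, -4704) (by decide +kernel)
          (CovZ.leaf K2_ok TW_l3650 _)
          (CovZ.leaf K2_ok TW_l3651 _))
         (CovZ.leaf K2_ok TW_l3652 _))))
      (CovZ.badM (by decide +kernel))))))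

theorem TW_s7_1 : SqZ TW_M TW_L [0, 7, 4, 3] (-4608) (-5632) 512 7 1 :=
  SqZ.mk (a := (-1024)) (b := (-512)) (c := (-5120)) (d := (-4608)) (by norm_num) (by norm_num) (by norm_num) (by norm_num)
    (CovZ.topM TW_LL 0 (by decide +kernel) (CovZ.badM (by decide +kernel)))
    (CovZ.topM TW_LL 0 (by decide +kernel) (CovZ.badM (by decide +kernel)))

theorem TW_s8_1 : SqZ TW_M TW_L [0, 7, 4, 3] (-4608) (-5632) 512 8 1 :=
  SqZ.mk (a := (-512)) (b := 0) (c := (-5120)) (d := (-4608)) (by norm_num) (by norm_num) (by norm_num) (by norm_num)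
    (CovZ.topM TW_LL 0 (by decide +kernel) (CovZ.badM (by decide +kernel)))
    (CovZ.topM TW_LL 0 (by decide +kernel) (CovZ.badM (by decide +kernel)))

theorem TW_s9_1 : SqZ TW_M TW_L [0, 7, 4, 3] (-4608) (-5632) 512 9 1 :=
  SqZ.mk (a := 0) (b := 512) (c := (-5120)) (d := (-4608)) (by norm_num) (by norm_num) (by norm_num) (by norm_num)
    (CovZ.topM TW_LL 0 (by decide +kernel) (CovZ.badM (by decide +kernel)))
    (CovZ.topM TW_LL 0 (by decide +kernel) (CovZ.badM (by decide +kernel)))

theorem TW_s10_1 : SqZ TW_M TW_L [0, 7, 4, 3] (-4608) (-5632) 512 10 1 :=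
  SqZ.mk (a := 512) (b := 1024) (c := (-5120)) (d := (-4608)) (by norm_num) (by norm_num) (by norm_num) (by norm_num)
    (CovZ.topM TW_LL 0 (by decide +kernel) (CovZ.badM (by decide +kernel)))
    (CovZ.topM TW_LL 0 (by decide +kernel) (CovZ.badM (by decide +kernel)))

theorem TW_s11_1 : SqZ TW_M TW_L [0, 7, 4, 3] (-4608) (-5632) 512 11 1 :=
  SqZ.mk (a := 1024) (b := 1536) (c := (-5120)) (d := (-4608)) (by norm_num) (by norm_num) (by norm_num) (by norm_num)
    (CovZ.topM TW_LL 0 (by decide +kernel) (CovZ.badM (by decide +kernel)))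
    (CovZ.topM TW_LL 0 (by decide +kernel) (CovZ.badM (by decide +kernel)))

theorem TW_s12_1 : SqZ TW_M TW_L [0, 7, 4, 3] (-4608) (-5632) 512 12 1 :=
  SqZ.mk (a := 1536) (b := 2048) (c := (-5120)) (d := (-4608)) (by norm_num) (by norm_num) (by norm_num) (by norm_num)
    (CovZ.topM TW_LL 0 (by decide +kernel) (CovZ.badM (by decide +kernel)))
    (CovZ.topM TW_LL 0 (by decide +kernel) (CovZ.badM (by decide +kernel)))

theorem TW_s13_1 : SqZ TW_M TW_L [0, 7, 4, 3] (-4608) (-5632) 512 13 1 :=
  SqZ.mk (a := 2048) (b := 2560) (c := (-5120)) (d := (-4608)) (by norm_num) (by norm_num) (by norm_num) (by norm_num)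
    (CovZ.topM TW_LL 0 (by decide +kernel) (CovZ.badM (by decide +kernel)))
    (CovZ.topM TW_LL 0 (by decide +kernel) (CovZ.badM (by decide +kernel)))

theorem TW_s14_1 : SqZ TW_M TW_L [0, 7, 4, 3] (-4608) (-5632) 512 14 1 :=
  SqZ.mk (a := 2560) (b := 3072) (c := (-5120)) (d := (-4608)) (by norm_num) (by norm_num) (by norm_num) (by norm_num)
    (CovZ.topM TW_LL 0 (by decide +kernel) (CovZ.badM (by decide +kernel)))
    (CovZ.topM TW_LL 0 (by decide +kernel) (CovZ.badM (by decide +kernel)))

theorem TW_s15_1 : SqZ TW_M TW_L [0, 7, 4, 3] (-4608) (-5632) 512 15 1 :=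
  SqZ.mk (a := 3072) (b := 3584) (c := (-5120)) (d := (-4608)) (by norm_num) (by norm_num) (by norm_num) (by norm_num)
    (CovZ.topM TW_LL 0 (by decide +kernel) (CovZ.badM (by decide +kernel)))
    (CovZ.topM TW_LL 0 (by decide +kernel) (CovZ.badM (by decide +kernel)))

theorem TW_s16_1 : SqZ TW_M TW_L [0, 7, 4, 3] (-4608) (-5632) 512 16 1 :=
  SqZ.mk (a := 3584) (b := 4096) (c := (-5120)) (d := (-4608)) (by norm_num) (by norm_num) (by norm_num) (by norm_num)
    (CovZ.topM TW_LL 0 (by decide +kernel) (CovZ.badM (by decide +kernel)))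
    (CovZ.topM TW_LL 0 (by decide +kernel) (CovZ.badM (by decide +kernel)))

theorem TW_s0_2 : SqZ TW_M TW_L [0, 7, 4, 3] (-4608) (-5632) 512 0 2 :=
  SqZ.mk (a := (-4608)) (b := (-4096)) (c := (-4608)) (d := (-4096)) (by norm_num) (by norm_num) (by norm_num) (by norm_num)
    (CovZ.topM TW_LL 0 (by decide +kernel) (CovZ.badM (by decide +kernel)))
    (CovZ.topM TW_LL 0 (by decide +kernel) (CovZ.badM (by decide +kernel)))

theorem TW_s1_2 : SqZ TW_M TW_L [0, 7, 4, 3] (-4608) (-5632) 512 1 2 :=
  SqZ.mk (a := (-4096)) (b := (-3584)) (c := (-4608)) (d := (-4096)) (by norm_num) (by norm_num) (by norm_num) (by norm_num)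
    (CovZ.topM TW_LL 2 (by decide +kernel) (CovZ.n2 (-3840, -4352) (by decide +kernel)
    (CovZ.n2 (-3584, -4352) (by decide +kernel)
     (CovZ.badM (by decide +kernel))
     (CovZ.n1 (-3712, -4224) (by decide +kernel)
      (CovZ.n2 (-3584, -4224) (by decide +kernel)
       (CovZ.badM (by decide +kernel))
       (CovZ.n1 (-3648, -4160) (by decide +kernel)
        (CovZ.n2 (-3584, -4160) (by decide +kernel)
         (CovZ.n2 (-3616, -4192) (by decide +kernel)
          (CovZ.n2 (-3616, -4160) (by decide +kernel)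
           (CovZ.leaf K2_ok TW_l2793 _)
           (CovZ.badM (by decide +kernel)))
          (CovZ.n1 (-3584, -4192) (by decide +kernel)
           (CovZ.badM (by decide +kernel))
           (CovZ.leaf K2_ok TW_l2794 _)))
         (CovZ.n1 (-3616, -4128) (by decide +kernel)
          (CovZ.leaf K2_ok TW_l126 _)
          (CovZ.leaf K2_ok TW_l2795 _)))
        (CovZ.badM (by decide +kernel))))
      (CovZ.badM (by decide +kernel))))
    (CovZ.badM (by decide +kernel))))
    (CovZ.topM TW_LL 2 (by decide +kernel) (CovZ.n0 (-3840, -4352) (by decide +kernel)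
    (CovZ.badM (by decide +kernel))
    (CovZ.n1 (-3840, -4096) (by decide +kernel)
     (CovZ.n2 (-3712, -4224) (by decide +kernel)
      (CovZ.badM (by decide +kernel))
      (CovZ.n1 (-3712, -4096) (by decide +kernel)
       (CovZ.n2 (-3648, -4160) (by decide +kernel)
        (CovZ.badM (by decide +kernel))
        (CovZ.n1 (-3648, -4096) (by decide +kernel)
         (CovZ.n2 (-3616, -4128) (by decide +kernel)
          (CovZ.leaf K2_ok TW_l2796 _)
          (CovZ.leaf K2_ok TW_l127 _))
         (CovZ.n1 (-3680, -4128) (by decide +kernel)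
          (CovZ.leaf K2_ok TW_l2797 _)
          (CovZ.leaf K2_ok TW_l2798 _))))
       (CovZ.badM (by decide +kernel))))
     (CovZ.badM (by decide +kernel)))))

theorem TW_s2_2 : SqZ TW_M TW_L [0, 7, 4, 3] (-4608) (-5632) 512 2 2 :=
  SqZ.mk (a := (-3584)) (b := (-3072)) (c := (-4608)) (d := (-4096)) (by norm_num) (by norm_num) (by norm_num) (by norm_num)
    (CovZ.topM TW_LL 2 (by decide +kernel) (CovZ.n2 (-3328, -4352) (by decide +kernel)
    (CovZ.n2 (-3072, -4352) (by decide +kernel)
     (CovZ.badM (by decide +kernel))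
     (CovZ.n1 (-3200, -4224) (by decide +kernel)
      (CovZ.n2 (-3072, -4224) (by decide +kernel)
       (CovZ.n2 (-3136, -4288) (by decide +kernel)
        (CovZ.leaf K2_ok TW_l186 _)
        (CovZ.badM (by decide +kernel)))
       (CovZ.n1 (-3136, -4160) (by decide +kernel)
        (CovZ.n2 (-3072, -4160) (by decide +kernel)
         (CovZ.leaf K2_ok TW_l189 _)
         (CovZ.leaf K2_ok TW_l190 _))
        (CovZ.leaf K2_ok TW_l191 _)))
      (CovZ.n1 (-3200, -4352) (by decide +kernel)
       (CovZ.n2 (-3264, -4288) (by decide +kernel)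
        (CovZ.n2 (-3200, -4288) (by decide +kernel)
         (CovZ.leaf K2_ok TW_l192 _)
         (CovZ.leaf K2_ok TW_l193 _))
        (CovZ.n1 (-3264, -4352) (by decide +kernel)
         (CovZ.leaf K2_ok TW_l194 _)
         (CovZ.leaf K2_ok TW_l195 _)))
       (CovZ.leaf K2_ok TW_l196 _))))
    (CovZ.badM (by decide +kernel))))
    (CovZ.topM TW_LL 2 (by decide +kernel) (CovZ.n0 (-3328, -4352) (by decide +kernel)
    (CovZ.n2 (-3584, -4352) (by decide +kernel)
     (CovZ.n2 (-3456, -4224) (by decide +kernel)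
      (CovZ.n2 (-3456, -4352) (by decide +kernel)
       (CovZ.n2 (-3520, -4288) (by decide +kernel)
        (CovZ.n2 (-3456, -4288) (by decide +kernel)
         (CovZ.n2 (-3488, -4320) (by decide +kernel)
          (CovZ.n2 (-3488, -4288) (by decide +kernel)
           (CovZ.n2 (-3472, -4304) (by decide +kernel)
            (CovZ.badM (by decide +kernel))
            (CovZ.leaf K2_ok TW_l2800 _))
           (CovZ.badM (by decide +kernel)))
          (CovZ.n1 (-3456, -4320) (by decide +kernel)
           (CovZ.badM (by decide +kernel))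
           (CovZ.n1 (-3472, -4304) (by decide +kernel)
            (CovZ.leaf K2_ok TW_l2801 _)
            (CovZ.badM (by decide +kernel)))))
         (CovZ.n1 (-3488, -4256) (by decide +kernel)
          (CovZ.leaf K2_ok TW_l197 _)
          (CovZ.n1 (-3488, -4288) (by decide +kernel)
           (CovZ.n2 (-3504, -4272) (by decide +kernel)
            (CovZ.leaf K2_ok TW_l2802 _)
            (CovZ.badM (by decide +kernel)))
           (CovZ.leaf K2_ok TW_l2803 _))))
        (CovZ.badM (by decide +kernel)))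
       (CovZ.n1 (-3392, -4288) (by decide +kernel)
        (CovZ.n2 (-3392, -4352) (by decide +kernel)
         (CovZ.n2 (-3424, -4320) (by decide +kernel)
          (CovZ.n2 (-3392, -4320) (by decide +kernel)
           (CovZ.leaf K2_ok TW_l198 _)
           (CovZ.leaf K2_ok TW_l199 _))
          (CovZ.n1 (-3424, -4352) (by decide +kernel)
           (CovZ.n2 (-3440, -4336) (by decide +kernel)
            (CovZ.leaf K2_ok TW_l2804 _)
            (CovZ.badM (by decide +kernel)))
           (CovZ.leaf K2_ok TW_l200 _)))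
         (CovZ.leaf K2_ok TW_l201 _))
        (CovZ.n1 (-3456, -4288) (by decide +kernel)
         (CovZ.leaf K2_ok TW_l202 _)
         (CovZ.n1 (-3424, -4320) (by decide +kernel)
          (CovZ.n2 (-3456, -4320) (by decide +kernel)
           (CovZ.leaf K2_ok TW_l2805 _)
           (CovZ.n1 (-3440, -4336) (by decide +kernel)
            (CovZ.badM (by decide +kernel))
            (CovZ.leaf K2_ok TW_l2806 _)))
          (CovZ.n1 (-3424, -4288) (by decide +kernel)
           (CovZ.leaf K2_ok TW_l203 _)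
           (CovZ.leaf K2_ok TW_l2807 _))))))
      (CovZ.n1 (-3584, -4224) (by decide +kernel)
       (CovZ.n2 (-3520, -4160) (by decide +kernel)
        (CovZ.n2 (-3520, -4224) (by decide +kernel)
         (CovZ.n2 (-3552, -4192) (by decide +kernel)
          (CovZ.leaf K2_ok TW_l204 _)
          (CovZ.n1 (-3552, -4224) (by decide +kernel)
           (CovZ.leaf K2_ok TW_l2808 _)
           (CovZ.leaf K2_ok TW_l2809 _)))
         (CovZ.leaf K2_ok TW_l205 _))
        (CovZ.n1 (-3584, -4160) (by decide +kernel)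
         (CovZ.leaf K2_ok TW_l206 _)
         (CovZ.n1 (-3552, -4192) (by decide +kernel)
          (CovZ.leaf K2_ok TW_l2810 _)
          (CovZ.leaf K2_ok TW_l207 _))))
       (CovZ.n1 (-3520, -4288) (by decide +kernel)
        (CovZ.badM (by decide +kernel))
        (CovZ.n1 (-3520, -4224) (by decide +kernel)
         (CovZ.n2 (-3488, -4256) (by decide +kernel)
          (CovZ.leaf K2_ok TW_l2811 _)
          (CovZ.leaf K2_ok TW_l208 _))
         (CovZ.n1 (-3552, -4256) (by decide +kernel)
          (CovZ.n2 (-3552, -4224) (by decide +kernel)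
           (CovZ.leaf K2_ok TW_l2812 _)
           (CovZ.badM (by decide +kernel)))
          (CovZ.n1 (-3520, -4256) (by decide +kernel)
           (CovZ.badM (by decide +kernel))
           (CovZ.leaf K2_ok TW_l2813 _)))))))
     (CovZ.n1 (-3456, -4480) (by decide +kernel)
      (CovZ.badM (by decide +kernel))
      (CovZ.n1 (-3456, -4352) (by decide +kernel)
       (CovZ.n2 (-3392, -4416) (by decide +kernel)
        (CovZ.badM (by decide +kernel))
        (CovZ.n1 (-3392, -4352) (by decide +kernel)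
         (CovZ.n2 (-3360, -4384) (by decide +kernel)
          (CovZ.n2 (-3392, -4384) (by decide +kernel)
           (CovZ.leaf K2_ok TW_l2814 _)
           (CovZ.badM (by decide +kernel)))
          (CovZ.n1 (-3360, -4352) (by decide +kernel)
           (CovZ.leaf K2_ok TW_l2815 _)
           (CovZ.leaf K2_ok TW_l2816 _)))
         (CovZ.n1 (-3424, -4384) (by decide +kernel)
          (CovZ.n2 (-3424, -4352) (by decide +kernel)
           (CovZ.n2 (-3408, -4368) (by decide +kernel)
            (CovZ.badM (by decide +kernel))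
            (CovZ.n1 (-3408, -4352) (by decide +kernel)
             (CovZ.leaf K2_ok TW_l210 _)
             (CovZ.leaf K2_ok TW_l211 _)))
           (CovZ.badM (by decide +kernel)))
          (CovZ.n1 (-3392, -4384) (by decide +kernel)
           (CovZ.badM (by decide +kernel))
           (CovZ.n1 (-3408, -4368) (by decide +kernel)
            (CovZ.leaf K2_ok TW_l2817 _)
            (CovZ.badM (by decide +kernel)))))))
       (CovZ.badM (by decide +kernel)))))
    (CovZ.n1 (-3328, -4096) (by decide +kernel)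
     (CovZ.n2 (-3200, -4224) (by decide +kernel)
      (CovZ.n2 (-3328, -4224) (by decide +kernel)
       (CovZ.n2 (-3264, -4160) (by decide +kernel)
        (CovZ.leaf K2_ok TW_l212 _)
        (CovZ.leaf K2_ok TW_l213 _))
       (CovZ.n1 (-3264, -4288) (by decide +kernel)
        (CovZ.leaf K2_ok TW_l214 _)
        (CovZ.leaf K2_ok TW_l215 _)))
      (CovZ.n1 (-3200, -4096) (by decide +kernel)
       (CovZ.n2 (-3136, -4160) (by decide +kernel)
        (CovZ.leaf K2_ok TW_l216 _)
        (CovZ.leaf K2_ok TW_l217 _))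
       (CovZ.n1 (-3264, -4160) (by decide +kernel)
        (CovZ.leaf K2_ok TW_l218 _)
        (CovZ.n1 (-3200, -4160) (by decide +kernel)
         (CovZ.leaf K2_ok TW_l219 _)
         (CovZ.leaf K2_ok TW_l220 _)))))
     (CovZ.n1 (-3456, -4224) (by decide +kernel)
      (CovZ.n2 (-3456, -4096) (by decide +kernel)
       (CovZ.n2 (-3392, -4160) (by decide +kernel)
        (CovZ.n2 (-3456, -4160) (by decide +kernel)
         (CovZ.leaf K2_ok TW_l221 _)
         (CovZ.leaf K2_ok TW_l222 _))
        (CovZ.n1 (-3392, -4096) (by decide +kernel)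
         (CovZ.leaf K2_ok TW_l223 _)
         (CovZ.leaf K2_ok TW_l224 _)))
       (CovZ.n1 (-3520, -4160) (by decide +kernel)
        (CovZ.n2 (-3520, -4096) (by decide +kernel)
         (CovZ.leaf K2_ok TW_l225 _)
         (CovZ.n1 (-3552, -4128) (by decide +kernel)
          (CovZ.leaf K2_ok TW_l226 _)
          (CovZ.leaf K2_ok TW_l227 _)))
        (CovZ.n1 (-3456, -4160) (by decide +kernel)
         (CovZ.leaf K2_ok TW_l228 _)
         (CovZ.leaf K2_ok TW_l229 _))))
      (CovZ.n1 (-3328, -4224) (by decide +kernel)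
       (CovZ.n2 (-3392, -4288) (by decide +kernel)
        (CovZ.n2 (-3392, -4224) (by decide +kernel)
         (CovZ.leaf K2_ok TW_l230 _)
         (CovZ.leaf K2_ok TW_l231 _))
        (CovZ.n1 (-3328, -4288) (by decide +kernel)
         (CovZ.n2 (-3360, -4320) (by decide +kernel)
          (CovZ.leaf K2_ok TW_l232 _)
          (CovZ.leaf K2_ok TW_l233 _))
         (CovZ.leaf K2_ok TW_l234 _)))
       (CovZ.n1 (-3392, -4160) (by decide +kernel)
        (CovZ.n2 (-3328, -4160) (by decide +kernel)
         (CovZ.leaf K2_ok TW_l235 _)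
         (CovZ.leaf K2_ok TW_l236 _))
        (CovZ.leaf K2_ok TW_l237 _)))))))

theorem TW_s3_2 : SqZ TW_M TW_L [0, 7, 4, 3] (-4608) (-5632) 512 3 2 :=
  SqZ.mk (a := (-3072)) (b := (-2560)) (c := (-4608)) (d := (-4096)) (by norm_num) (by norm_num) (by norm_num) (by norm_num)
    (CovZ.topM TW_LL 20 (by decide +kernel) (CovZ.n2 (-2816, -4352) (by decide +kernel)
    (CovZ.n2 (-2560, -4352) (by decide +kernel)
     (CovZ.n2 (-2688, -4480) (by decide +kernel)
      (CovZ.leaf K2_ok TW_l433 _)
      (CovZ.n1 (-2560, -4480) (by decide +kernel)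
       (CovZ.n2 (-2624, -4544) (by decide +kernel)
        (CovZ.leaf K2_ok TW_l434 _)
        (CovZ.leaf K2_ok TW_l435 _))
       (CovZ.leaf K2_ok TW_l436 _)))
     (CovZ.n1 (-2688, -4224) (by decide +kernel)
      (CovZ.n2 (-2560, -4224) (by decide +kernel)
       (CovZ.leaf K2_ok TW_l437 _)
       (CovZ.leaf K2_ok TW_l438 _))
      (CovZ.leaf K2_ok TW_l439 _)))
    (CovZ.n1 (-2816, -4608) (by decide +kernel)
     (CovZ.n2 (-2944, -4480) (by decide +kernel)
      (CovZ.n2 (-2816, -4480) (by decide +kernel)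
       (CovZ.n2 (-2880, -4544) (by decide +kernel)
        (CovZ.leaf K2_ok TW_l440 _)
        (CovZ.leaf K2_ok TW_l441 _))
       (CovZ.leaf K2_ok TW_l442 _))
      (CovZ.n1 (-2944, -4608) (by decide +kernel)
       (CovZ.badM (by decide +kernel))
       (CovZ.leaf K2_ok TW_l451 _)))
     (CovZ.n1 (-2688, -4480) (by decide +kernel)
      (CovZ.n2 (-2688, -4608) (by decide +kernel)
       (CovZ.leaf K2_ok TW_l452 _)
       (CovZ.leaf K2_ok TW_l453 _))
      (CovZ.n1 (-2816, -4480) (by decide +kernel)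
       (CovZ.leaf K2_ok TW_l454 _)
       (CovZ.leaf K2_ok TW_l455 _))))))
    (CovZ.topM TW_LL 22 (by decide +kernel) (CovZ.n0 (-2816, -4352) (by decide +kernel)
    (CovZ.n2 (-3072, -4352) (by decide +kernel)
     (CovZ.n2 (-2944, -4224) (by decide +kernel)
      (CovZ.badM (by decide +kernel))
      (CovZ.n1 (-3072, -4224) (by decide +kernel)
       (CovZ.n2 (-3008, -4160) (by decide +kernel)
        (CovZ.leaf K2_ok TW_l459 _)
        (CovZ.leaf K2_ok TW_l460 _))
       (CovZ.badM (by decide +kernel))))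
     (CovZ.badM (by decide +kernel)))
    (CovZ.n1 (-2816, -4096) (by decide +kernel)
     (CovZ.n2 (-2688, -4224) (by decide +kernel)
      (CovZ.n2 (-2816, -4224) (by decide +kernel)
       (CovZ.leaf K2_ok TW_l476 _)
       (CovZ.leaf K2_ok TW_l477 _))
      (CovZ.n1 (-2688, -4096) (by decide +kernel)
       (CovZ.leaf K2_ok TW_l478 _)
       (CovZ.leaf K2_ok TW_l479 _)))
     (CovZ.n1 (-2944, -4224) (by decide +kernel)
      (CovZ.n2 (-2944, -4096) (by decide +kernel)
       (CovZ.n2 (-2880, -4160) (by decide +kernel)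
        (CovZ.leaf K2_ok TW_l480 _)
        (CovZ.leaf K2_ok TW_l481 _))
       (CovZ.n1 (-3008, -4160) (by decide +kernel)
        (CovZ.leaf K2_ok TW_l482 _)
        (CovZ.leaf K2_ok TW_l483 _)))
      (CovZ.badM (by decide +kernel))))))

theorem TW_s4_2 : SqZ TW_M TW_L [0, 7, 4, 3] (-4608) (-5632) 512 4 2 :=
  SqZ.mk (a := (-2560)) (b := (-2048)) (c := (-4608)) (d := (-4096)) (by norm_num) (by norm_num) (by norm_num) (by norm_num)
    (CovZ.topM TW_LL 28 (by decide +kernel) (CovZ.n2 (-2304, -4352) (by decide +kernel)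
    (CovZ.n2 (-2048, -4352) (by decide +kernel)
     (CovZ.n2 (-2176, -4480) (by decide +kernel)
      (CovZ.leaf K2_ok TW_l731 _)
      (CovZ.n1 (-2048, -4480) (by decide +kernel)
       (CovZ.leaf K2_ok TW_l732 _)
       (CovZ.leaf K2_ok TW_l733 _)))
     (CovZ.n1 (-2176, -4224) (by decide +kernel)
      (CovZ.n2 (-2048, -4224) (by decide +kernel)
       (CovZ.n2 (-2112, -4288) (by decide +kernel)
        (CovZ.leaf K2_ok TW_l734 _)
        (CovZ.leaf K2_ok TW_l735 _))
       (CovZ.leaf K2_ok TW_l736 _))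
      (CovZ.leaf K2_ok TW_l737 _)))
    (CovZ.n1 (-2304, -4608) (by decide +kernel)
     (CovZ.n2 (-2432, -4480) (by decide +kernel)
      (CovZ.n2 (-2304, -4480) (by decide +kernel)
       (CovZ.n2 (-2368, -4544) (by decide +kernel)
        (CovZ.leaf K2_ok TW_l738 _)
        (CovZ.leaf K2_ok TW_l739 _))
       (CovZ.leaf K2_ok TW_l740 _))
      (CovZ.n1 (-2432, -4608) (by decide +kernel)
       (CovZ.leaf K2_ok TW_l741 _)
       (CovZ.leaf K2_ok TW_l742 _)))
     (CovZ.n1 (-2176, -4480) (by decide +kernel)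
      (CovZ.n2 (-2176, -4608) (by decide +kernel)
       (CovZ.leaf K2_ok TW_l743 _)
       (CovZ.leaf K2_ok TW_l744 _))
      (CovZ.n1 (-2304, -4480) (by decide +kernel)
       (CovZ.leaf K2_ok TW_l745 _)
       (CovZ.leaf K2_ok TW_l746 _))))))
    (CovZ.topM TW_LL 28 (by decide +kernel) (CovZ.n0 (-2304, -4352) (by decide +kernel)
    (CovZ.n2 (-2560, -4352) (by decide +kernel)
     (CovZ.n2 (-2432, -4224) (by decide +kernel)
      (CovZ.leaf K2_ok TW_l747 _)
      (CovZ.n1 (-2560, -4224) (by decide +kernel)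
       (CovZ.leaf K2_ok TW_l748 _)
       (CovZ.leaf K2_ok TW_l749 _)))
     (CovZ.n1 (-2432, -4480) (by decide +kernel)
      (CovZ.n2 (-2560, -4480) (by decide +kernel)
       (CovZ.leaf K2_ok TW_l750 _)
       (CovZ.leaf K2_ok TW_l751 _))
      (CovZ.leaf K2_ok TW_l752 _)))
    (CovZ.n1 (-2304, -4096) (by decide +kernel)
     (CovZ.n2 (-2176, -4224) (by decide +kernel)
      (CovZ.n2 (-2304, -4224) (by decide +kernel)
       (CovZ.leaf K2_ok TW_l753 _)
       (CovZ.leaf K2_ok TW_l754 _))
      (CovZ.leaf K2_ok TW_l755 _))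
     (CovZ.n1 (-2432, -4224) (by decide +kernel)
      (CovZ.leaf K2_ok TW_l756 _)
      (CovZ.n1 (-2304, -4224) (by decide +kernel)
       (CovZ.leaf K2_ok TW_l757 _)
       (CovZ.leaf K2_ok TW_l758 _))))))

theorem TW_s5_2 : SqZ TW_M TW_L [0, 7, 4, 3] (-4608) (-5632) 512 5 2 :=
  SqZ.mk (a := (-2048)) (b := (-1536)) (c := (-4608)) (d := (-4096)) (by norm_num) (by norm_num) (by norm_num) (by norm_num)
    (CovZ.topM TW_LL 28 (by decide +kernel) (CovZ.n2 (-1792, -4352) (by decide +kernel)
    (CovZ.n2 (-1536, -4352) (by decide +kernel)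
     (CovZ.n2 (-1664, -4480) (by decide +kernel)
      (CovZ.n2 (-1664, -4352) (by decide +kernel)
       (CovZ.n2 (-1600, -4416) (by decide +kernel)
        (CovZ.leaf K2_ok TW_l1078 _)
        (CovZ.leaf K2_ok TW_l1079 _))
       (CovZ.n1 (-1728, -4416) (by decide +kernel)
        (CovZ.leaf K2_ok TW_l1080 _)
        (CovZ.leaf K2_ok TW_l1081 _)))
      (CovZ.n1 (-1536, -4480) (by decide +kernel)
       (CovZ.n2 (-1600, -4544) (by decide +kernel)
        (CovZ.leaf K2_ok TW_l1082 _)
        (CovZ.leaf K2_ok TW_l1083 _))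
       (CovZ.n1 (-1600, -4416) (by decide +kernel)
        (CovZ.leaf K2_ok TW_l1084 _)
        (CovZ.leaf K2_ok TW_l1085 _))))
     (CovZ.n1 (-1664, -4224) (by decide +kernel)
      (CovZ.n2 (-1536, -4224) (by decide +kernel)
       (CovZ.n2 (-1600, -4288) (by decide +kernel)
        (CovZ.leaf K2_ok TW_l1086 _)
        (CovZ.leaf K2_ok TW_l1087 _))
       (CovZ.leaf K2_ok TW_l1088 _))
      (CovZ.n1 (-1664, -4352) (by decide +kernel)
       (CovZ.leaf K2_ok TW_l1089 _)
       (CovZ.leaf K2_ok TW_l1090 _))))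
    (CovZ.n1 (-1792, -4608) (by decide +kernel)
     (CovZ.n2 (-1920, -4480) (by decide +kernel)
      (CovZ.n2 (-1792, -4480) (by decide +kernel)
       (CovZ.leaf K2_ok TW_l1091 _)
       (CovZ.leaf K2_ok TW_l1092 _))
      (CovZ.n1 (-1920, -4608) (by decide +kernel)
       (CovZ.leaf K2_ok TW_l1093 _)
       (CovZ.leaf K2_ok TW_l1094 _)))
     (CovZ.n1 (-1664, -4480) (by decide +kernel)
      (CovZ.n2 (-1664, -4608) (by decide +kernel)
       (CovZ.leaf K2_ok TW_l1095 _)
       (CovZ.n1 (-1600, -4544) (by decide +kernel)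
        (CovZ.leaf K2_ok TW_l1096 _)
        (CovZ.leaf K2_ok TW_l1097 _)))
      (CovZ.n1 (-1792, -4480) (by decide +kernel)
       (CovZ.leaf K2_ok TW_l1098 _)
       (CovZ.n1 (-1728, -4544) (by decide +kernel)
        (CovZ.leaf K2_ok TW_l1099 _)
        (CovZ.leaf K2_ok TW_l1100 _)))))))
    (CovZ.topM TW_LL 28 (by decide +kernel) (CovZ.n0 (-1792, -4352) (by decide +kernel)
    (CovZ.n2 (-2048, -4352) (by decide +kernel)
     (CovZ.n2 (-1920, -4224) (by decide +kernel)
      (CovZ.n2 (-1920, -4352) (by decide +kernel)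
       (CovZ.leaf K2_ok TW_l1101 _)
       (CovZ.leaf K2_ok TW_l1102 _))
      (CovZ.n1 (-2048, -4224) (by decide +kernel)
       (CovZ.leaf K2_ok TW_l1103 _)
       (CovZ.leaf K2_ok TW_l1104 _)))
     (CovZ.n1 (-1920, -4480) (by decide +kernel)
      (CovZ.n2 (-2048, -4480) (by decide +kernel)
       (CovZ.leaf K2_ok TW_l1105 _)
       (CovZ.leaf K2_ok TW_l1106 _))
      (CovZ.n1 (-1920, -4352) (by decide +kernel)
       (CovZ.leaf K2_ok TW_l1107 _)
       (CovZ.leaf K2_ok TW_l1108 _))))
    (CovZ.n1 (-1792, -4096) (by decide +kernel)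
     (CovZ.n2 (-1664, -4224) (by decide +kernel)
      (CovZ.n2 (-1792, -4224) (by decide +kernel)
       (CovZ.leaf K2_ok TW_l1109 _)
       (CovZ.leaf K2_ok TW_l1110 _))
      (CovZ.n1 (-1664, -4096) (by decide +kernel)
       (CovZ.leaf K2_ok TW_l1111 _)
       (CovZ.n1 (-1728, -4160) (by decide +kernel)
        (CovZ.leaf K2_ok TW_l1112 _)
        (CovZ.leaf K2_ok TW_l1113 _))))
     (CovZ.n1 (-1920, -4224) (by decide +kernel)
      (CovZ.leaf K2_ok TW_l1114 _)
      (CovZ.n1 (-1792, -4224) (by decide +kernel)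
       (CovZ.leaf K2_ok TW_l1115 _)
       (CovZ.leaf K2_ok TW_l1116 _))))))

theorem TW_s6_2 : SqZ TW_M TW_L [0, 7, 4, 3] (-4608) (-5632) 512 6 2 :=
  SqZ.mk (a := (-1536)) (b := (-1024)) (c := (-4608)) (d := (-4096)) (by norm_num) (by norm_num) (by norm_num) (by norm_num)
    (CovZ.topM TW_LL 24 (by decide +kernel) (CovZ.n2 (-1280, -4352) (by decide +kernel)
    TW_u6
    TW_u7))
    (CovZ.topM TW_LL 28 (by decide +kernel) (CovZ.n0 (-1280, -4352) (by decide +kernel)
    (CovZ.n2 (-1536, -4352) (by decide +kernel)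
     (CovZ.n2 (-1408, -4224) (by decide +kernel)
      (CovZ.n2 (-1408, -4352) (by decide +kernel)
       (CovZ.n2 (-1472, -4288) (by decide +kernel)
        (CovZ.leaf K2_ok TW_l1495 _)
        (CovZ.leaf K2_ok TW_l1496 _))
       (CovZ.n1 (-1344, -4288) (by decide +kernel)
        (CovZ.n2 (-1344, -4352) (by decide +kernel)
         (CovZ.leaf K2_ok TW_l1497 _)
         (CovZ.leaf K2_ok TW_l1498 _))
        (CovZ.n1 (-1408, -4288) (by decide +kernel)
         (CovZ.leaf K2_ok TW_l1499 _)
         (CovZ.leaf K2_ok TW_l1500 _))))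
      (CovZ.n1 (-1536, -4224) (by decide +kernel)
       (CovZ.n2 (-1472, -4160) (by decide +kernel)
        (CovZ.leaf K2_ok TW_l1501 _)
        (CovZ.leaf K2_ok TW_l1502 _))
       (CovZ.n1 (-1472, -4288) (by decide +kernel)
        (CovZ.leaf K2_ok TW_l1503 _)
        (CovZ.leaf K2_ok TW_l1504 _))))
     (CovZ.n1 (-1408, -4480) (by decide +kernel)
      (CovZ.n2 (-1536, -4480) (by decide +kernel)
       (CovZ.n2 (-1472, -4416) (by decide +kernel)
        (CovZ.leaf K2_ok TW_l1505 _)
        (CovZ.leaf K2_ok TW_l1506 _))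
       (CovZ.n1 (-1472, -4544) (by decide +kernel)
        (CovZ.leaf K2_ok TW_l1507 _)
        (CovZ.n1 (-1472, -4480) (by decide +kernel)
         (CovZ.leaf K2_ok TW_l1508 _)
         (CovZ.leaf K2_ok TW_l1509 _))))
      (CovZ.n1 (-1408, -4352) (by decide +kernel)
       (CovZ.n2 (-1344, -4416) (by decide +kernel)
        (CovZ.n2 (-1408, -4416) (by decide +kernel)
         (CovZ.leaf K2_ok TW_l1510 _)
         (CovZ.leaf K2_ok TW_l1511 _))
        (CovZ.n1 (-1344, -4352) (by decide +kernel)
         (CovZ.leaf K2_ok TW_l1512 _)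
         (CovZ.leaf K2_ok TW_l1513 _)))
       (CovZ.n1 (-1472, -4416) (by decide +kernel)
        (CovZ.n2 (-1472, -4352) (by decide +kernel)
         (CovZ.leaf K2_ok TW_l1514 _)
         (CovZ.leaf K2_ok TW_l1515 _))
        (CovZ.n1 (-1408, -4416) (by decide +kernel)
         (CovZ.leaf K2_ok TW_l1516 _)
         (CovZ.leaf K2_ok TW_l1517 _))))))
    (CovZ.n1 (-1280, -4096) (by decide +kernel)
     (CovZ.n2 (-1152, -4224) (by decide +kernel)
      (CovZ.n2 (-1280, -4224) (by decide +kernel)
       (CovZ.n2 (-1216, -4160) (by decide +kernel)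
        (CovZ.n2 (-1216, -4224) (by decide +kernel)
         (CovZ.leaf K2_ok TW_l1518 _)
         (CovZ.n1 (-1184, -4192) (by decide +kernel)
          (CovZ.leaf K2_ok TW_l1519 _)
          (CovZ.leaf K2_ok TW_l1520 _)))
        (CovZ.n1 (-1280, -4160) (by decide +kernel)
         (CovZ.leaf K2_ok TW_l1521 _)
         (CovZ.leaf K2_ok TW_l1522 _)))
       (CovZ.n1 (-1216, -4288) (by decide +kernel)
        (CovZ.n2 (-1280, -4288) (by decide +kernel)
         (CovZ.leaf K2_ok TW_l1523 _)
         (CovZ.n1 (-1248, -4320) (by decide +kernel)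
          (CovZ.leaf K2_ok TW_l1524 _)
          (CovZ.leaf K2_ok TW_l1525 _)))
        (CovZ.n1 (-1216, -4224) (by decide +kernel)
         (CovZ.n2 (-1184, -4256) (by decide +kernel)
          (CovZ.leaf K2_ok TW_l1526 _)
          (CovZ.leaf K2_ok TW_l1527 _))
         (CovZ.n1 (-1248, -4256) (by decide +kernel)
          (CovZ.leaf K2_ok TW_l1528 _)
          (CovZ.leaf K2_ok TW_l1529 _)))))
      (CovZ.n1 (-1152, -4096) (by decide +kernel)
       (CovZ.n2 (-1088, -4160) (by decide +kernel)
        (CovZ.n2 (-1152, -4160) (by decide +kernel)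
         (CovZ.n2 (-1120, -4128) (by decide +kernel)
          (CovZ.leaf K2_ok TW_l1530 _)
          (CovZ.leaf K2_ok TW_l1531 _))
         (CovZ.n1 (-1120, -4192) (by decide +kernel)
          (CovZ.leaf K2_ok TW_l1532 _)
          (CovZ.n1 (-1120, -4160) (by decide +kernel)
           (CovZ.leaf K2_ok TW_l1533 _)
           (CovZ.leaf K2_ok TW_l1534 _))))
        (CovZ.n1 (-1088, -4096) (by decide +kernel)
         (CovZ.n2 (-1056, -4128) (by decide +kernel)
          (CovZ.n2 (-1088, -4128) (by decide +kernel)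
           (CovZ.leaf K2_ok TW_l1535 _)
           (CovZ.leaf K2_ok TW_l1536 _))
          (CovZ.n1 (-1056, -4096) (by decide +kernel)
           (CovZ.n2 (-1040, -4112) (by decide +kernel)
            (CovZ.leaf K2_ok TW_l1537 _)
            (CovZ.leaf K2_ok TW_l1538 _))
           (CovZ.n1 (-1072, -4112) (by decide +kernel)
            (CovZ.leaf K2_ok TW_l1539 _)
            (CovZ.leaf K2_ok TW_l1540 _))))
         (CovZ.n1 (-1120, -4128) (by decide +kernel)
          (CovZ.leaf K2_ok TW_l1541 _)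
          (CovZ.n1 (-1088, -4128) (by decide +kernel)
           (CovZ.leaf K2_ok TW_l1542 _)
           (CovZ.leaf K2_ok TW_l1543 _)))))
       (CovZ.n1 (-1216, -4160) (by decide +kernel)
        (CovZ.n2 (-1216, -4096) (by decide +kernel)
         (CovZ.n2 (-1184, -4128) (by decide +kernel)
          (CovZ.leaf K2_ok TW_l1544 _)
          (CovZ.leaf K2_ok TW_l1545 _))
         (CovZ.n1 (-1248, -4128) (by decide +kernel)
          (CovZ.leaf K2_ok TW_l1546 _)
          (CovZ.leaf K2_ok TW_l1547 _)))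
        (CovZ.n1 (-1152, -4160) (by decide +kernel)
         (CovZ.n2 (-1184, -4192) (by decide +kernel)
          (CovZ.leaf K2_ok TW_l1548 _)
          (CovZ.leaf K2_ok TW_l1549 _))
         (CovZ.n1 (-1184, -4128) (by decide +kernel)
          (CovZ.leaf K2_ok TW_l1550 _)
          (CovZ.leaf K2_ok TW_l1551 _))))))
     (CovZ.n1 (-1408, -4224) (by decide +kernel)
      (CovZ.n2 (-1408, -4096) (by decide +kernel)
       (CovZ.n2 (-1344, -4160) (by decide +kernel)
        (CovZ.leaf K2_ok TW_l1552 _)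
        (CovZ.n1 (-1344, -4096) (by decide +kernel)
         (CovZ.leaf K2_ok TW_l1553 _)
         (CovZ.leaf K2_ok TW_l1554 _)))
       (CovZ.n1 (-1472, -4160) (by decide +kernel)
        (CovZ.leaf K2_ok TW_l1555 _)
        (CovZ.leaf K2_ok TW_l1556 _)))
      (CovZ.n1 (-1280, -4224) (by decide +kernel)
       (CovZ.n2 (-1344, -4288) (by decide +kernel)
        (CovZ.n2 (-1344, -4224) (by decide +kernel)
         (CovZ.leaf K2_ok TW_l1557 _)
         (CovZ.leaf K2_ok TW_l1558 _))
        (CovZ.n1 (-1280, -4288) (by decide +kernel)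
         (CovZ.n2 (-1312, -4320) (by decide +kernel)
          (CovZ.leaf K2_ok TW_l1559 _)
          (CovZ.leaf K2_ok TW_l1560 _))
         (CovZ.leaf K2_ok TW_l1561 _)))
       (CovZ.n1 (-1344, -4160) (by decide +kernel)
        (CovZ.n2 (-1280, -4160) (by decide +kernel)
         (CovZ.leaf K2_ok TW_l1562 _)
         (CovZ.leaf K2_ok TW_l1563 _))
        (CovZ.n1 (-1344, -4224) (by decide +kernel)
         (CovZ.leaf K2_ok TW_l1564 _)
         (CovZ.leaf K2_ok TW_l1565 _))))))))

theorem TW_s7_2 : SqZ TW_M TW_L [0, 7, 4, 3] (-4608) (-5632) 512 7 2 :=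
  SqZ.mk (a := (-1024)) (b := (-512)) (c := (-4608)) (d := (-4096)) (by norm_num) (by norm_num) (by norm_num) (by norm_num)
    (CovZ.topM TW_LL 0 (by decide +kernel) (CovZ.badM (by decide +kernel)))
    (CovZ.topM TW_LL 8 (by decide +kernel) (CovZ.n0 (-768, -4352) (by decide +kernel)
    (CovZ.n2 (-1024, -4352) (by decide +kernel)
     (CovZ.n2 (-896, -4224) (by decide +kernel)
      (CovZ.badM (by decide +kernel))
      (CovZ.n1 (-1024, -4224) (by decide +kernel)
       (CovZ.badM (by decide +kernel))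
       (CovZ.n1 (-960, -4288) (by decide +kernel)
        (CovZ.n2 (-1024, -4288) (by decide +kernel)
         (CovZ.badM (by decide +kernel))
         (CovZ.n1 (-992, -4320) (by decide +kernel)
          (CovZ.n2 (-1024, -4320) (by decide +kernel)
           (CovZ.badM (by decide +kernel))
           (CovZ.badM (by decide +kernel)))
          (CovZ.badM (by decide +kernel))))
        (CovZ.badM (by decide +kernel)))))
     (CovZ.badM (by decide +kernel)))
    (CovZ.badM (by decide +kernel))))

theorem TW_s8_2 : SqZ TW_M TW_L [0, 7, 4, 3] (-4608) (-5632) 512 8 2 :=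
  SqZ.mk (a := (-512)) (b := 0) (c := (-4608)) (d := (-4096)) (by norm_num) (by norm_num) (by norm_num) (by norm_num)
    (CovZ.topM TW_LL 0 (by decide +kernel) (CovZ.badM (by decide +kernel)))
    (CovZ.topM TW_LL 0 (by decide +kernel) (CovZ.badM (by decide +kernel)))

theorem TW_s9_2 : SqZ TW_M TW_L [0, 7, 4, 3] (-4608) (-5632) 512 9 2 :=
  SqZ.mk (a := 0) (b := 512) (c := (-4608)) (d := (-4096)) (by norm_num) (by norm_num) (by norm_num) (by norm_num)
    (CovZ.topM TW_LL 0 (by decide +kernel) (CovZ.badM (by decide +kernel)))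
    (CovZ.topM TW_LL 0 (by decide +kernel) (CovZ.badM (by decide +kernel)))

theorem TW_s10_2 : SqZ TW_M TW_L [0, 7, 4, 3] (-4608) (-5632) 512 10 2 :=
  SqZ.mk (a := 512) (b := 1024) (c := (-4608)) (d := (-4096)) (by norm_num) (by norm_num) (by norm_num) (by norm_num)
    (CovZ.topM TW_LL 0 (by decide +kernel) (CovZ.badM (by decide +kernel)))
    (CovZ.topM TW_LL 0 (by decide +kernel) (CovZ.badM (by decide +kernel)))

theorem TW_s11_2 : SqZ TW_M TW_L [0, 7, 4, 3] (-4608) (-5632) 512 11 2 :=
  SqZ.mk (a := 1024) (b := 1536) (c := (-4608)) (d := (-4096)) (by norm_num) (by norm_num) (by norm_num) (by norm_num)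
    (CovZ.topM TW_LL 0 (by decide +kernel) (CovZ.badM (by decide +kernel)))
    (CovZ.topM TW_LL 0 (by decide +kernel) (CovZ.badM (by decide +kernel)))

theorem TW_s12_2 : SqZ TW_M TW_L [0, 7, 4, 3] (-4608) (-5632) 512 12 2 :=
  SqZ.mk (a := 1536) (b := 2048) (c := (-4608)) (d := (-4096)) (by norm_num) (by norm_num) (by norm_num) (by norm_num)
    (CovZ.topM TW_LL 0 (by decide +kernel) (CovZ.badM (by decide +kernel)))
    (CovZ.topM TW_LL 0 (by decide +kernel) (CovZ.badM (by decide +kernel)))

theorem TW_s13_2 : SqZ TW_M TW_L [0, 7, 4, 3] (-4608) (-5632) 512 13 2 :=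
  SqZ.mk (a := 2048) (b := 2560) (c := (-4608)) (d := (-4096)) (by norm_num) (by norm_num) (by norm_num) (by norm_num)
    (CovZ.topM TW_LL 0 (by decide +kernel) (CovZ.badM (by decide +kernel)))
    (CovZ.topM TW_LL 0 (by decide +kernel) (CovZ.badM (by decide +kernel)))

theorem TW_s14_2 : SqZ TW_M TW_L [0, 7, 4, 3] (-4608) (-5632) 512 14 2 :=
  SqZ.mk (a := 2560) (b := 3072) (c := (-4608)) (d := (-4096)) (by norm_num) (by norm_num) (by norm_num) (by norm_num)
    (CovZ.topM TW_LL 0 (by decide +kernel) (CovZ.badM (by decide +kernel)))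
    (CovZ.topM TW_LL 0 (by decide +kernel) (CovZ.badM (by decide +kernel)))

theorem TW_s15_2 : SqZ TW_M TW_L [0, 7, 4, 3] (-4608) (-5632) 512 15 2 :=
  SqZ.mk (a := 3072) (b := 3584) (c := (-4608)) (d := (-4096)) (by norm_num) (by norm_num) (by norm_num) (by norm_num)
    (CovZ.topM TW_LL 0 (by decide +kernel) (CovZ.badM (by decide +kernel)))
    (CovZ.topM TW_LL 0 (by decide +kernel) (CovZ.badM (by decide +kernel)))

theorem TW_s16_2 : SqZ TW_M TW_L [0, 7, 4, 3] (-4608) (-5632) 512 16 2 :=
  SqZ.mk (a := 3584) (b := 4096) (c := (-4608)) (d := (-4096)) (by norm_num) (by norm_num) (by norm_num) (by norm_num)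
    (CovZ.topM TW_LL 0 (by decide +kernel) (CovZ.badM (by decide +kernel)))
    (CovZ.topM TW_LL 0 (by decide +kernel) (CovZ.badM (by decide +kernel)))

theorem TW_s0_3 : SqZ TW_M TW_L [0, 7, 4, 3] (-4608) (-5632) 512 0 3 :=
  SqZ.mk (a := (-4608)) (b := (-4096)) (c := (-4096)) (d := (-3584)) (by norm_num) (by norm_num) (by norm_num) (by norm_num)
    (CovZ.topM TW_LL 2 (by decide +kernel) (CovZ.n2 (-4352, -3840) (by decide +kernel)
    (CovZ.n2 (-4096, -3840) (by decide +kernel)
     (CovZ.badM (by decide +kernel))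
     (CovZ.n1 (-4224, -3712) (by decide +kernel)
      (CovZ.n2 (-4096, -3712) (by decide +kernel)
       (CovZ.badM (by decide +kernel))
       (CovZ.leaf K2_ok TW_l38 _))
      (CovZ.badM (by decide +kernel))))
    (CovZ.badM (by decide +kernel))))
    (CovZ.topM TW_LL 0 (by decide +kernel) (CovZ.badM (by decide +kernel)))

theorem TW_s1_3 : SqZ TW_M TW_L [0, 7, 4, 3] (-4608) (-5632) 512 1 3 :=
  SqZ.mk (a := (-4096)) (b := (-3584)) (c := (-4096)) (d := (-3584)) (by norm_num) (by norm_num) (by norm_num) (by norm_num)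
    (CovZ.topM TW_LL 2 (by decide +kernel) (CovZ.n2 (-3840, -3840) (by decide +kernel)
    (CovZ.n2 (-3584, -3840) (by decide +kernel)
     (CovZ.n2 (-3712, -3968) (by decide +kernel)
      (CovZ.leaf K2_ok TW_l128 _)
      (CovZ.n1 (-3584, -3968) (by decide +kernel)
       (CovZ.n2 (-3648, -4032) (by decide +kernel)
        (CovZ.leaf K2_ok TW_l129 _)
        (CovZ.n1 (-3584, -4032) (by decide +kernel)
         (CovZ.leaf K2_ok TW_l130 _)
         (CovZ.leaf K2_ok TW_l131 _)))
       (CovZ.leaf K2_ok TW_l132 _)))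
     (CovZ.leaf K2_ok TW_l133 _))
    (CovZ.n1 (-3840, -4096) (by decide +kernel)
     (CovZ.n2 (-3968, -3968) (by decide +kernel)
      (CovZ.n2 (-3840, -3968) (by decide +kernel)
       (CovZ.badM (by decide +kernel))
       (CovZ.leaf K2_ok TW_l134 _))
      (CovZ.badM (by decide +kernel)))
     (CovZ.n1 (-3712, -3968) (by decide +kernel)
      (CovZ.n2 (-3712, -4096) (by decide +kernel)
       (CovZ.leaf K2_ok TW_l135 _)
       (CovZ.n1 (-3648, -4032) (by decide +kernel)
        (CovZ.leaf K2_ok TW_l136 _)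
        (CovZ.leaf K2_ok TW_l137 _)))
      (CovZ.n1 (-3840, -3968) (by decide +kernel)
       (CovZ.leaf K2_ok TW_l138 _)
       (CovZ.leaf K2_ok TW_l139 _))))))
    (CovZ.topM TW_LL 2 (by decide +kernel) (CovZ.n0 (-3840, -3840) (by decide +kernel)
    (CovZ.n2 (-4096, -3840) (by decide +kernel)
     (CovZ.leaf K2_ok TW_l140 _)
     (CovZ.n1 (-3968, -3968) (by decide +kernel)
      (CovZ.badM (by decide +kernel))
      (CovZ.leaf K2_ok TW_l142 _)))
    (CovZ.n1 (-3840, -3584) (by decide +kernel)
     (CovZ.leaf K2_ok TW_l143 _)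
     (CovZ.n1 (-3968, -3712) (by decide +kernel)
      (CovZ.leaf K2_ok TW_l144 _)
      (CovZ.leaf K2_ok TW_l145 _)))))

theorem TW_s2_3 : SqZ TW_M TW_L [0, 7, 4, 3] (-4608) (-5632) 512 2 3 :=
  SqZ.mk (a := (-3584)) (b := (-3072)) (c := (-4096)) (d := (-3584)) (by norm_num) (by norm_num) (by norm_num) (by norm_num)
    (CovZ.topM TW_LL 2 (by decide +kernel) (CovZ.n2 (-3328, -3840) (by decide +kernel)
    (CovZ.n2 (-3072, -3840) (by decide +kernel)
     (CovZ.n2 (-3200, -3968) (by decide +kernel)
      (CovZ.n2 (-3200, -3840) (by decide +kernel)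
       (CovZ.leaf K2_ok TW_l238 _)
       (CovZ.leaf K2_ok TW_l239 _))
      (CovZ.n1 (-3072, -3968) (by decide +kernel)
       (CovZ.n2 (-3136, -4032) (by decide +kernel)
        (CovZ.leaf K2_ok TW_l240 _)
        (CovZ.n1 (-3072, -4032) (by decide +kernel)
         (CovZ.leaf K2_ok TW_l241 _)
         (CovZ.leaf K2_ok TW_l242 _)))
       (CovZ.leaf K2_ok TW_l243 _)))
     (CovZ.n1 (-3200, -3712) (by decide +kernel)
      (CovZ.n2 (-3072, -3712) (by decide +kernel)
       (CovZ.leaf K2_ok TW_l244 _)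
       (CovZ.leaf K2_ok TW_l245 _))
      (CovZ.leaf K2_ok TW_l246 _)))
    (CovZ.n1 (-3328, -4096) (by decide +kernel)
     (CovZ.n2 (-3456, -3968) (by decide +kernel)
      (CovZ.n2 (-3328, -3968) (by decide +kernel)
       (CovZ.n2 (-3392, -4032) (by decide +kernel)
        (CovZ.n2 (-3392, -3968) (by decide +kernel)
         (CovZ.leaf K2_ok TW_l247 _)
         (CovZ.leaf K2_ok TW_l248 _))
        (CovZ.n1 (-3328, -4032) (by decide +kernel)
         (CovZ.leaf K2_ok TW_l249 _)
         (CovZ.leaf K2_ok TW_l250 _)))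
       (CovZ.n1 (-3392, -3904) (by decide +kernel)
        (CovZ.leaf K2_ok TW_l251 _)
        (CovZ.leaf K2_ok TW_l252 _)))
      (CovZ.n1 (-3456, -4096) (by decide +kernel)
       (CovZ.n2 (-3520, -4032) (by decide +kernel)
        (CovZ.n2 (-3456, -4032) (by decide +kernel)
         (CovZ.leaf K2_ok TW_l253 _)
         (CovZ.leaf K2_ok TW_l254 _))
        (CovZ.n1 (-3520, -4096) (by decide +kernel)
         (CovZ.n2 (-3552, -4064) (by decide +kernel)
          (CovZ.leaf K2_ok TW_l255 _)
          (CovZ.leaf K2_ok TW_l256 _))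
         (CovZ.leaf K2_ok TW_l257 _)))
       (CovZ.n1 (-3392, -4032) (by decide +kernel)
        (CovZ.leaf K2_ok TW_l258 _)
        (CovZ.n1 (-3456, -4032) (by decide +kernel)
         (CovZ.leaf K2_ok TW_l259 _)
         (CovZ.leaf K2_ok TW_l260 _)))))
     (CovZ.n1 (-3200, -3968) (by decide +kernel)
      (CovZ.n2 (-3200, -4096) (by decide +kernel)
       (CovZ.n2 (-3264, -4032) (by decide +kernel)
        (CovZ.n2 (-3200, -4032) (by decide +kernel)
         (CovZ.leaf K2_ok TW_l261 _)
         (CovZ.leaf K2_ok TW_l262 _))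
        (CovZ.leaf K2_ok TW_l263 _))
       (CovZ.n1 (-3136, -4032) (by decide +kernel)
        (CovZ.leaf K2_ok TW_l264 _)
        (CovZ.n1 (-3200, -4032) (by decide +kernel)
         (CovZ.leaf K2_ok TW_l265 _)
         (CovZ.leaf K2_ok TW_l266 _))))
      (CovZ.n1 (-3328, -3968) (by decide +kernel)
       (CovZ.leaf K2_ok TW_l267 _)
       (CovZ.n1 (-3264, -4032) (by decide +kernel)
        (CovZ.n2 (-3328, -4032) (by decide +kernel)
         (CovZ.leaf K2_ok TW_l268 _)
         (CovZ.leaf K2_ok TW_l269 _))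
        (CovZ.leaf K2_ok TW_l270 _)))))))
    (CovZ.topM TW_LL 2 (by decide +kernel) (CovZ.n0 (-3328, -3840) (by decide +kernel)
    (CovZ.n2 (-3584, -3840) (by decide +kernel)
     (CovZ.leaf K2_ok TW_l271 _)
     (CovZ.n1 (-3456, -3968) (by decide +kernel)
      (CovZ.n2 (-3584, -3968) (by decide +kernel)
       (CovZ.leaf K2_ok TW_l272 _)
       (CovZ.n1 (-3520, -4032) (by decide +kernel)
        (CovZ.n2 (-3584, -4032) (by decide +kernel)
         (CovZ.leaf K2_ok TW_l273 _)
         (CovZ.leaf K2_ok TW_l274 _))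
        (CovZ.leaf K2_ok TW_l275 _)))
      (CovZ.leaf K2_ok TW_l276 _)))
    (CovZ.n1 (-3328, -3584) (by decide +kernel)
     (CovZ.n2 (-3200, -3712) (by decide +kernel)
      (CovZ.leaf K2_ok TW_l277 _)
      (CovZ.leaf K2_ok TW_l278 _))
     (CovZ.leaf K2_ok TW_l279 _))))

theorem TW_s3_3 : SqZ TW_M TW_L [0, 7, 4, 3] (-4608) (-5632) 512 3 3 :=
  SqZ.mk (a := (-3072)) (b := (-2560)) (c := (-4096)) (d := (-3584)) (by norm_num) (by norm_num) (by norm_num) (by norm_num)
    (CovZ.topM TW_LL 22 (by decide +kernel) (CovZ.n2 (-2816, -3840) (by decide +kernel)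
    (CovZ.n2 (-2560, -3840) (by decide +kernel)
     (CovZ.n2 (-2688, -3968) (by decide +kernel)
      (CovZ.n2 (-2688, -3840) (by decide +kernel)
       (CovZ.n2 (-2624, -3904) (by decide +kernel)
        (CovZ.leaf K2_ok TW_l487 _)
        (CovZ.leaf K2_ok TW_l488 _))
       (CovZ.n1 (-2752, -3904) (by decide +kernel)
        (CovZ.leaf K2_ok TW_l489 _)
        (CovZ.leaf K2_ok TW_l490 _)))
      (CovZ.n1 (-2560, -3968) (by decide +kernel)
       (CovZ.leaf K2_ok TW_l491 _)
       (CovZ.n1 (-2624, -3904) (by decide +kernel)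
        (CovZ.leaf K2_ok TW_l492 _)
        (CovZ.leaf K2_ok TW_l493 _))))
     (CovZ.n1 (-2688, -3712) (by decide +kernel)
      (CovZ.n2 (-2560, -3712) (by decide +kernel)
       (CovZ.n2 (-2624, -3776) (by decide +kernel)
        (CovZ.leaf K2_ok TW_l494 _)
        (CovZ.leaf K2_ok TW_l495 _))
       (CovZ.n1 (-2624, -3648) (by decide +kernel)
        (CovZ.leaf K2_ok TW_l496 _)
        (CovZ.leaf K2_ok TW_l497 _)))
      (CovZ.n1 (-2688, -3840) (by decide +kernel)
       (CovZ.n2 (-2752, -3776) (by decide +kernel)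
        (CovZ.leaf K2_ok TW_l498 _)
        (CovZ.leaf K2_ok TW_l499 _))
       (CovZ.leaf K2_ok TW_l500 _))))
    (CovZ.n1 (-2816, -4096) (by decide +kernel)
     (CovZ.n2 (-2944, -3968) (by decide +kernel)
      (CovZ.n2 (-2816, -3968) (by decide +kernel)
       (CovZ.n2 (-2880, -4032) (by decide +kernel)
        (CovZ.leaf K2_ok TW_l501 _)
        (CovZ.leaf K2_ok TW_l502 _))
       (CovZ.n1 (-2880, -3904) (by decide +kernel)
        (CovZ.leaf K2_ok TW_l503 _)
        (CovZ.leaf K2_ok TW_l504 _)))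
      (CovZ.n1 (-2944, -4096) (by decide +kernel)
       (CovZ.n2 (-3008, -4032) (by decide +kernel)
        (CovZ.n2 (-2944, -4032) (by decide +kernel)
         (CovZ.leaf K2_ok TW_l505 _)
         (CovZ.leaf K2_ok TW_l506 _))
        (CovZ.leaf K2_ok TW_l507 _))
       (CovZ.leaf K2_ok TW_l508 _)))
     (CovZ.n1 (-2688, -3968) (by decide +kernel)
      (CovZ.n2 (-2688, -4096) (by decide +kernel)
       (CovZ.n2 (-2752, -4032) (by decide +kernel)
        (CovZ.leaf K2_ok TW_l509 _)
        (CovZ.leaf K2_ok TW_l510 _))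
       (CovZ.leaf K2_ok TW_l511 _))
      (CovZ.n1 (-2816, -3968) (by decide +kernel)
       (CovZ.leaf K2_ok TW_l512 _)
       (CovZ.n1 (-2752, -4032) (by decide +kernel)
        (CovZ.leaf K2_ok TW_l513 _)
        (CovZ.leaf K2_ok TW_l514 _)))))))
    (CovZ.topM TW_LL 18 (by decide +kernel) (CovZ.n0 (-2816, -3840) (by decide +kernel)
    (CovZ.n2 (-3072, -3840) (by decide +kernel)
     (CovZ.n2 (-2944, -3712) (by decide +kernel)
      (CovZ.n2 (-2944, -3840) (by decide +kernel)
       (CovZ.leaf K2_ok TW_l515 _)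
       (CovZ.leaf K2_ok TW_l516 _))
      (CovZ.n1 (-3072, -3712) (by decide +kernel)
       (CovZ.leaf K2_ok TW_l517 _)
       (CovZ.leaf K2_ok TW_l518 _)))
     (CovZ.n1 (-2944, -3968) (by decide +kernel)
      (CovZ.n2 (-3072, -3968) (by decide +kernel)
       (CovZ.leaf K2_ok TW_l519 _)
       (CovZ.n1 (-3008, -4032) (by decide +kernel)
        (CovZ.n2 (-3072, -4032) (by decide +kernel)
         (CovZ.leaf K2_ok TW_l520 _)
         (CovZ.leaf K2_ok TW_l521 _))
        (CovZ.leaf K2_ok TW_l522 _)))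
      (CovZ.n1 (-2944, -3840) (by decide +kernel)
       (CovZ.n2 (-2880, -3904) (by decide +kernel)
        (CovZ.leaf K2_ok TW_l523 _)
        (CovZ.leaf K2_ok TW_l524 _))
       (CovZ.leaf K2_ok TW_l525 _))))
    (CovZ.n1 (-2816, -3584) (by decide +kernel)
     (CovZ.n2 (-2688, -3712) (by decide +kernel)
      (CovZ.n2 (-2816, -3712) (by decide +kernel)
       (CovZ.leaf K2_ok TW_l526 _)
       (CovZ.n1 (-2752, -3776) (by decide +kernel)
        (CovZ.leaf K2_ok TW_l527 _)
        (CovZ.leaf K2_ok TW_l528 _)))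
      (CovZ.n1 (-2688, -3584) (by decide +kernel)
       (CovZ.n2 (-2624, -3648) (by decide +kernel)
        (CovZ.leaf K2_ok TW_l529 _)
        (CovZ.leaf K2_ok TW_l530 _))
       (CovZ.leaf K2_ok TW_l531 _)))
     (CovZ.n1 (-2944, -3712) (by decide +kernel)
      (CovZ.n2 (-2944, -3584) (by decide +kernel)
       (CovZ.leaf K2_ok TW_l532 _)
       (CovZ.leaf K2_ok TW_l533 _))
      (CovZ.n1 (-2816, -3712) (by decide +kernel)
       (CovZ.leaf K2_ok TW_l534 _)
       (CovZ.leaf K2_ok TW_l535 _))))))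

theorem TW_s4_3 : SqZ TW_M TW_L [0, 7, 4, 3] (-4608) (-5632) 512 4 3 :=
  SqZ.mk (a := (-2560)) (b := (-2048)) (c := (-4096)) (d := (-3584)) (by norm_num) (by norm_num) (by norm_num) (by norm_num)
    (CovZ.topM TW_LL 30 (by decide +kernel) (CovZ.n2 (-2304, -3840) (by decide +kernel)
    (CovZ.n2 (-2048, -3840) (by decide +kernel)
     (CovZ.n2 (-2176, -3968) (by decide +kernel)
      (CovZ.leaf K2_ok TW_l759 _)
      (CovZ.n1 (-2048, -3968) (by decide +kernel)
       (CovZ.leaf K2_ok TW_l760 _)
       (CovZ.leaf K2_ok TW_l761 _)))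
     (CovZ.n1 (-2176, -3712) (by decide +kernel)
      (CovZ.n2 (-2048, -3712) (by decide +kernel)
       (CovZ.leaf K2_ok TW_l762 _)
       (CovZ.leaf K2_ok TW_l763 _))
      (CovZ.leaf K2_ok TW_l764 _)))
    (CovZ.n1 (-2304, -4096) (by decide +kernel)
     (CovZ.n2 (-2432, -3968) (by decide +kernel)
      (CovZ.n2 (-2304, -3968) (by decide +kernel)
       (CovZ.leaf K2_ok TW_l765 _)
       (CovZ.leaf K2_ok TW_l766 _))
      (CovZ.leaf K2_ok TW_l767 _))
     (CovZ.n1 (-2176, -3968) (by decide +kernel)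
      (CovZ.leaf K2_ok TW_l768 _)
      (CovZ.n1 (-2304, -3968) (by decide +kernel)
       (CovZ.leaf K2_ok TW_l769 _)
       (CovZ.leaf K2_ok TW_l770 _))))))
    (CovZ.topM TW_LL 30 (by decide +kernel) (CovZ.n0 (-2304, -3840) (by decide +kernel)
    (CovZ.n2 (-2560, -3840) (by decide +kernel)
     (CovZ.n2 (-2432, -3712) (by decide +kernel)
      (CovZ.n2 (-2432, -3840) (by decide +kernel)
       (CovZ.n2 (-2496, -3776) (by decide +kernel)
        (CovZ.leaf K2_ok TW_l771 _)
        (CovZ.leaf K2_ok TW_l772 _))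
       (CovZ.leaf K2_ok TW_l773 _))
      (CovZ.n1 (-2560, -3712) (by decide +kernel)
       (CovZ.leaf K2_ok TW_l774 _)
       (CovZ.n1 (-2496, -3776) (by decide +kernel)
        (CovZ.leaf K2_ok TW_l775 _)
        (CovZ.leaf K2_ok TW_l776 _))))
     (CovZ.n1 (-2432, -3968) (by decide +kernel)
      (CovZ.n2 (-2560, -3968) (by decide +kernel)
       (CovZ.leaf K2_ok TW_l777 _)
       (CovZ.leaf K2_ok TW_l778 _))
      (CovZ.n1 (-2432, -3840) (by decide +kernel)
       (CovZ.leaf K2_ok TW_l779 _)
       (CovZ.leaf K2_ok TW_l780 _))))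
    (CovZ.n1 (-2304, -3584) (by decide +kernel)
     (CovZ.n2 (-2176, -3712) (by decide +kernel)
      (CovZ.n2 (-2304, -3712) (by decide +kernel)
       (CovZ.leaf K2_ok TW_l781 _)
       (CovZ.leaf K2_ok TW_l782 _))
      (CovZ.n1 (-2176, -3584) (by decide +kernel)
       (CovZ.leaf K2_ok TW_l783 _)
       (CovZ.n1 (-2240, -3648) (by decide +kernel)
        (CovZ.leaf K2_ok TW_l784 _)
        (CovZ.leaf K2_ok TW_l785 _))))
     (CovZ.n1 (-2432, -3712) (by decide +kernel)
      (CovZ.n2 (-2432, -3584) (by decide +kernel)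
       (CovZ.n2 (-2368, -3648) (by decide +kernel)
        (CovZ.leaf K2_ok TW_l786 _)
        (CovZ.leaf K2_ok TW_l787 _))
       (CovZ.n1 (-2496, -3648) (by decide +kernel)
        (CovZ.leaf K2_ok TW_l788 _)
        (CovZ.leaf K2_ok TW_l789 _)))
      (CovZ.n1 (-2304, -3712) (by decide +kernel)
       (CovZ.n2 (-2368, -3776) (by decide +kernel)
        (CovZ.leaf K2_ok TW_l790 _)
        (CovZ.leaf K2_ok TW_l791 _))
       (CovZ.n1 (-2368, -3648) (by decide +kernel)
        (CovZ.leaf K2_ok TW_l792 _)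
        (CovZ.leaf K2_ok TW_l793 _)))))))

end Pool.Agent.TET
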