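import Pool.Agent.Helper38_TET.TW_M
import Pool.Agent.Helper38_TET.TW_L
import Pool.Agent.Helper38_TET.TW_0
import Pool.Agent.Helper38_TET.TW_1
import Pool.Agent.Helper38_TET.TW_2
import Pool.Agent.Helper38_TET.TW_3
import Pool.Agent.Helper38_TET.TW_5
import Pool.Agent.Helper38_TET.TW_6
import Pool.Agent.Helper38_TET.TW_7
import Pool.Agent.Helper38_TET.TW_8
import Pool.Agent.Helper38_TET.TW_9
import Pool.Agent.Helper38_TET.TW_10
import Pool.Agent.Helper38_TET.TW_11
import Pool.Agent.Helper38_TET.TW_13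
import Pool.Agent.Helper38_TET.TW_14
import Pool.Agent.Helper38_TET.TW_15
import Pool.Agent.Helper38_TET.TW_16
import Pool.Agent.Helper38_TET.TW_20
import Pool.Agent.Helper38_TET.TW_27
import Pool.Agent.Helper38_TET.TW_U0

/-!
# MP_c7c9bf_co: certificates, family TW
-/

set_option autoImplicit false
set_option maxRecDepth 100000

namespace Pool.Agent.TET

theorem TW_s5_3 : SqZ TW_M TW_L [0, 7, 4, 3] (-4608) (-5632) 512 5 3 :=
  SqZ.mk (a := (-2048)) (b := (-1536)) (c := (-4096)) (d := (-3584)) (by norm_num) (by norm_num) (by norm_num) (by norm_num)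
    (CovZ.topM TW_LL 28 (by decide +kernel) (CovZ.n2 (-1792, -3840) (by decide +kernel)
    (CovZ.n2 (-1536, -3840) (by decide +kernel)
     (CovZ.n2 (-1664, -3968) (by decide +kernel)
      (CovZ.leaf K2_ok TW_l1117 _)
      (CovZ.n1 (-1536, -3968) (by decide +kernel)
       (CovZ.leaf K2_ok TW_l1118 _)
       (CovZ.leaf K2_ok TW_l1119 _)))
     (CovZ.n1 (-1664, -3712) (by decide +kernel)
      (CovZ.n2 (-1536, -3712) (by decide +kernel)
       (CovZ.leaf K2_ok TW_l1120 _)
       (CovZ.leaf K2_ok TW_l1121 _))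
      (CovZ.leaf K2_ok TW_l1122 _)))
    (CovZ.n1 (-1792, -4096) (by decide +kernel)
     (CovZ.n2 (-1920, -3968) (by decide +kernel)
      (CovZ.n2 (-1792, -3968) (by decide +kernel)
       (CovZ.leaf K2_ok TW_l1123 _)
       (CovZ.leaf K2_ok TW_l1124 _))
      (CovZ.leaf K2_ok TW_l1125 _))
     (CovZ.n1 (-1664, -3968) (by decide +kernel)
      (CovZ.leaf K2_ok TW_l1126 _)
      (CovZ.n1 (-1792, -3968) (by decide +kernel)
       (CovZ.leaf K2_ok TW_l1127 _)
       (CovZ.leaf K2_ok TW_l1128 _))))))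
    (CovZ.topM TW_LL 30 (by decide +kernel) (CovZ.n0 (-1792, -3840) (by decide +kernel)
    (CovZ.n2 (-2048, -3840) (by decide +kernel)
     (CovZ.n2 (-1920, -3712) (by decide +kernel)
      (CovZ.leaf K2_ok TW_l1129 _)
      (CovZ.n1 (-2048, -3712) (by decide +kernel)
       (CovZ.leaf K2_ok TW_l1130 _)
       (CovZ.leaf K2_ok TW_l1131 _)))
     (CovZ.n1 (-1920, -3968) (by decide +kernel)
      (CovZ.n2 (-2048, -3968) (by decide +kernel)
       (CovZ.leaf K2_ok TW_l1132 _)
       (CovZ.leaf K2_ok TW_l1133 _))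
      (CovZ.leaf K2_ok TW_l1134 _)))
    (CovZ.n1 (-1792, -3584) (by decide +kernel)
     (CovZ.n2 (-1664, -3712) (by decide +kernel)
      (CovZ.n2 (-1792, -3712) (by decide +kernel)
       (CovZ.leaf K2_ok TW_l1135 _)
       (CovZ.leaf K2_ok TW_l1136 _))
      (CovZ.leaf K2_ok TW_l1137 _))
     (CovZ.n1 (-1920, -3712) (by decide +kernel)
      (CovZ.n2 (-1920, -3584) (by decide +kernel)
       (CovZ.leaf K2_ok TW_l1138 _)
       (CovZ.leaf K2_ok TW_l1139 _))
      (CovZ.n1 (-1792, -3712) (by decide +kernel)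
       (CovZ.leaf K2_ok TW_l1140 _)
       (CovZ.leaf K2_ok TW_l1141 _))))))

theorem TW_s6_3 : SqZ TW_M TW_L [0, 7, 4, 3] (-4608) (-5632) 512 6 3 :=
  SqZ.mk (a := (-1536)) (b := (-1024)) (c := (-4096)) (d := (-3584)) (by norm_num) (by norm_num) (by norm_num) (by norm_num)
    (CovZ.topM TW_LL 28 (by decide +kernel) (CovZ.n2 (-1280, -3840) (by decide +kernel)
    (CovZ.n2 (-1024, -3840) (by decide +kernel)
     (CovZ.n2 (-1152, -3968) (by decide +kernel)
      (CovZ.n2 (-1152, -3840) (by decide +kernel)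
       (CovZ.n2 (-1088, -3904) (by decide +kernel)
        (CovZ.n2 (-1152, -3904) (by decide +kernel)
         (CovZ.n2 (-1120, -3872) (by decide +kernel)
          (CovZ.leaf K2_ok TW_l1566 _)
          (CovZ.leaf K2_ok TW_l1567 _))
         (CovZ.n1 (-1120, -3936) (by decide +kernel)
          (CovZ.leaf K2_ok TW_l1568 _)
          (CovZ.leaf K2_ok TW_l1569 _)))
        (CovZ.n1 (-1088, -3840) (by decide +kernel)
         (CovZ.n2 (-1056, -3872) (by decide +kernel)
          (CovZ.leaf K2_ok TW_l1570 _)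
          (CovZ.leaf K2_ok TW_l1571 _))
         (CovZ.n1 (-1120, -3872) (by decide +kernel)
          (CovZ.leaf K2_ok TW_l1572 _)
          (CovZ.leaf K2_ok TW_l1573 _))))
       (CovZ.n1 (-1216, -3904) (by decide +kernel)
        (CovZ.n2 (-1216, -3840) (by decide +kernel)
         (CovZ.leaf K2_ok TW_l1574 _)
         (CovZ.leaf K2_ok TW_l1575 _))
        (CovZ.n1 (-1152, -3904) (by decide +kernel)
         (CovZ.n2 (-1184, -3936) (by decide +kernel)
          (CovZ.leaf K2_ok TW_l1576 _)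
          (CovZ.leaf K2_ok TW_l1577 _))
         (CovZ.leaf K2_ok TW_l1578 _))))
      (CovZ.n1 (-1024, -3968) (by decide +kernel)
       (CovZ.n2 (-1088, -4032) (by decide +kernel)
        (CovZ.n2 (-1088, -3968) (by decide +kernel)
         (CovZ.n2 (-1056, -4000) (by decide +kernel)
          (CovZ.n2 (-1088, -4000) (by decide +kernel)
           (CovZ.leaf K2_ok TW_l1579 _)
           (CovZ.leaf K2_ok TW_l1580 _))
          (CovZ.n1 (-1056, -3968) (by decide +kernel)
           (CovZ.leaf K2_ok TW_l1581 _)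
           (CovZ.leaf K2_ok TW_l1582 _)))
         (CovZ.n1 (-1120, -4000) (by decide +kernel)
          (CovZ.leaf K2_ok TW_l1583 _)
          (CovZ.n1 (-1088, -4000) (by decide +kernel)
           (CovZ.leaf K2_ok TW_l1584 _)
           (CovZ.leaf K2_ok TW_l1585 _))))
        (CovZ.n1 (-1024, -4032) (by decide +kernel)
         (CovZ.n2 (-1056, -4064) (by decide +kernel)
          (CovZ.n2 (-1056, -4032) (by decide +kernel)
           (CovZ.leaf K2_ok TW_l1586 _)
           (CovZ.leaf K2_ok TW_l1587 _))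
          (CovZ.n1 (-1024, -4064) (by decide +kernel)
           (CovZ.n2 (-1040, -4080) (by decide +kernel)
            (CovZ.leaf K2_ok TW_l1588 _)
            (CovZ.leaf K2_ok TW_l1589 _))
           (CovZ.leaf K2_ok TW_l1590 _)))
         (CovZ.n1 (-1056, -4000) (by decide +kernel)
          (CovZ.n2 (-1024, -4000) (by decide +kernel)
           (CovZ.n2 (-1040, -4016) (by decide +kernel)
            (CovZ.leaf K2_ok TW_l1591 _)
            (CovZ.leaf K2_ok TW_l1592 _))
           (CovZ.leaf K2_ok TW_l1593 _))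
          (CovZ.n1 (-1056, -4032) (by decide +kernel)
           (CovZ.leaf K2_ok TW_l1594 _)
           (CovZ.leaf K2_ok TW_l1595 _)))))
       (CovZ.n1 (-1088, -3904) (by decide +kernel)
        (CovZ.n2 (-1024, -3904) (by decide +kernel)
         (CovZ.n2 (-1056, -3936) (by decide +kernel)
          (CovZ.n2 (-1056, -3904) (by decide +kernel)
           (CovZ.leaf K2_ok TW_l1596 _)
           (CovZ.leaf K2_ok TW_l1597 _))
          (CovZ.leaf K2_ok TW_l1598 _))
         (CovZ.n1 (-1056, -3872) (by decide +kernel)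
          (CovZ.leaf K2_ok TW_l1599 _)
          (CovZ.leaf K2_ok TW_l1600 _)))
        (CovZ.n1 (-1088, -3968) (by decide +kernel)
         (CovZ.n2 (-1120, -3936) (by decide +kernel)
          (CovZ.leaf K2_ok TW_l1601 _)
          (CovZ.leaf K2_ok TW_l1602 _))
         (CovZ.n1 (-1056, -3936) (by decide +kernel)
          (CovZ.leaf K2_ok TW_l1603 _)
          (CovZ.leaf K2_ok TW_l1604 _))))))
     (CovZ.n1 (-1152, -3712) (by decide +kernel)
      (CovZ.n2 (-1024, -3712) (by decide +kernel)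
       (CovZ.n2 (-1088, -3776) (by decide +kernel)
        (CovZ.n2 (-1088, -3712) (by decide +kernel)
         (CovZ.leaf K2_ok TW_l1605 _)
         (CovZ.leaf K2_ok TW_l1606 _))
        (CovZ.n1 (-1024, -3776) (by decide +kernel)
         (CovZ.n2 (-1056, -3808) (by decide +kernel)
          (CovZ.leaf K2_ok TW_l1607 _)
          (CovZ.leaf K2_ok TW_l1608 _))
         (CovZ.leaf K2_ok TW_l1609 _)))
       (CovZ.n1 (-1088, -3648) (by decide +kernel)
        (CovZ.leaf K2_ok TW_l1610 _)
        (CovZ.leaf K2_ok TW_l1611 _)))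
      (CovZ.n1 (-1152, -3840) (by decide +kernel)
       (CovZ.n2 (-1216, -3776) (by decide +kernel)
        (CovZ.n2 (-1152, -3776) (by decide +kernel)
         (CovZ.leaf K2_ok TW_l1612 _)
         (CovZ.leaf K2_ok TW_l1613 _))
        (CovZ.leaf K2_ok TW_l1614 _))
       (CovZ.n1 (-1088, -3776) (by decide +kernel)
        (CovZ.n2 (-1088, -3840) (by decide +kernel)
         (CovZ.leaf K2_ok TW_l1615 _)
         (CovZ.leaf K2_ok TW_l1616 _))
        (CovZ.n1 (-1152, -3776) (by decide +kernel)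
         (CovZ.leaf K2_ok TW_l1617 _)
         (CovZ.leaf K2_ok TW_l1618 _))))))
    (CovZ.n1 (-1280, -4096) (by decide +kernel)
     (CovZ.n2 (-1408, -3968) (by decide +kernel)
      (CovZ.n2 (-1280, -3968) (by decide +kernel)
       (CovZ.n2 (-1344, -4032) (by decide +kernel)
        (CovZ.leaf K2_ok TW_l1619 _)
        (CovZ.n1 (-1280, -4032) (by decide +kernel)
         (CovZ.leaf K2_ok TW_l1620 _)
         (CovZ.leaf K2_ok TW_l1621 _)))
       (CovZ.n1 (-1344, -3904) (by decide +kernel)
        (CovZ.leaf K2_ok TW_l1622 _)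
        (CovZ.leaf K2_ok TW_l1623 _)))
      (CovZ.n1 (-1408, -4096) (by decide +kernel)
       (CovZ.leaf K2_ok TW_l1624 _)
       (CovZ.n1 (-1344, -4032) (by decide +kernel)
        (CovZ.leaf K2_ok TW_l1625 _)
        (CovZ.leaf K2_ok TW_l1626 _))))
     (CovZ.n1 (-1152, -3968) (by decide +kernel)
      (CovZ.n2 (-1152, -4096) (by decide +kernel)
       (CovZ.n2 (-1216, -4032) (by decide +kernel)
        (CovZ.n2 (-1152, -4032) (by decide +kernel)
         (CovZ.n2 (-1184, -4064) (by decide +kernel)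
          (CovZ.leaf K2_ok TW_l1627 _)
          (CovZ.leaf K2_ok TW_l1628 _))
         (CovZ.n1 (-1184, -4000) (by decide +kernel)
          (CovZ.leaf K2_ok TW_l1629 _)
          (CovZ.leaf K2_ok TW_l1630 _)))
        (CovZ.n1 (-1216, -4096) (by decide +kernel)
         (CovZ.leaf K2_ok TW_l1631 _)
         (CovZ.leaf K2_ok TW_l1632 _)))
       (CovZ.n1 (-1088, -4032) (by decide +kernel)
        (CovZ.n2 (-1088, -4096) (by decide +kernel)
         (CovZ.n2 (-1120, -4064) (by decide +kernel)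
          (CovZ.n2 (-1088, -4064) (by decide +kernel)
           (CovZ.leaf K2_ok TW_l1633 _)
           (CovZ.leaf K2_ok TW_l1634 _))
          (CovZ.leaf K2_ok TW_l1635 _))
         (CovZ.n1 (-1056, -4064) (by decide +kernel)
          (CovZ.n2 (-1056, -4096) (by decide +kernel)
           (CovZ.leaf K2_ok TW_l1636 _)
           (CovZ.leaf K2_ok TW_l1637 _))
          (CovZ.n1 (-1088, -4064) (by decide +kernel)
           (CovZ.leaf K2_ok TW_l1638 _)
           (CovZ.leaf K2_ok TW_l1639 _))))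
        (CovZ.n1 (-1152, -4032) (by decide +kernel)
         (CovZ.n2 (-1120, -4000) (by decide +kernel)
          (CovZ.leaf K2_ok TW_l1640 _)
          (CovZ.leaf K2_ok TW_l1641 _))
         (CovZ.n1 (-1120, -4064) (by decide +kernel)
          (CovZ.leaf K2_ok TW_l1642 _)
          (CovZ.leaf K2_ok TW_l1643 _)))))
      (CovZ.n1 (-1280, -3968) (by decide +kernel)
       (CovZ.n2 (-1216, -3904) (by decide +kernel)
        (CovZ.n2 (-1216, -3968) (by decide +kernel)
         (CovZ.leaf K2_ok TW_l1644 _)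
         (CovZ.leaf K2_ok TW_l1645 _))
        (CovZ.n1 (-1280, -3904) (by decide +kernel)
         (CovZ.leaf K2_ok TW_l1646 _)
         (CovZ.leaf K2_ok TW_l1647 _)))
       (CovZ.n1 (-1216, -4032) (by decide +kernel)
        (CovZ.n2 (-1280, -4032) (by decide +kernel)
         (CovZ.leaf K2_ok TW_l1648 _)
         (CovZ.leaf K2_ok TW_l1649 _))
        (CovZ.n1 (-1216, -3968) (by decide +kernel)
         (CovZ.n2 (-1184, -4000) (by decide +kernel)
          (CovZ.leaf K2_ok TW_l1650 _)
          (CovZ.leaf K2_ok TW_l1651 _))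
         (CovZ.n1 (-1248, -4000) (by decide +kernel)
          (CovZ.leaf K2_ok TW_l1652 _)
          (CovZ.leaf K2_ok TW_l1653 _)))))))))
    (CovZ.topM TW_LL 28 (by decide +kernel) (CovZ.n0 (-1280, -3840) (by decide +kernel)
    (CovZ.n2 (-1536, -3840) (by decide +kernel)
     (CovZ.n2 (-1408, -3712) (by decide +kernel)
      (CovZ.n2 (-1408, -3840) (by decide +kernel)
       (CovZ.leaf K2_ok TW_l1654 _)
       (CovZ.leaf K2_ok TW_l1655 _))
      (CovZ.n1 (-1536, -3712) (by decide +kernel)
       (CovZ.leaf K2_ok TW_l1656 _)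
       (CovZ.leaf K2_ok TW_l1657 _)))
     (CovZ.n1 (-1408, -3968) (by decide +kernel)
      (CovZ.n2 (-1536, -3968) (by decide +kernel)
       (CovZ.leaf K2_ok TW_l1658 _)
       (CovZ.leaf K2_ok TW_l1659 _))
      (CovZ.n1 (-1408, -3840) (by decide +kernel)
       (CovZ.leaf K2_ok TW_l1660 _)
       (CovZ.leaf K2_ok TW_l1661 _))))
    (CovZ.n1 (-1280, -3584) (by decide +kernel)
     (CovZ.n2 (-1152, -3712) (by decide +kernel)
      (CovZ.n2 (-1280, -3712) (by decide +kernel)
       (CovZ.n2 (-1216, -3648) (by decide +kernel)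
        (CovZ.leaf K2_ok TW_l1662 _)
        (CovZ.leaf K2_ok TW_l1663 _))
       (CovZ.n1 (-1216, -3776) (by decide +kernel)
        (CovZ.leaf K2_ok TW_l1664 _)
        (CovZ.leaf K2_ok TW_l1665 _)))
      (CovZ.n1 (-1152, -3584) (by decide +kernel)
       (CovZ.n2 (-1088, -3648) (by decide +kernel)
        (CovZ.n2 (-1152, -3648) (by decide +kernel)
         (CovZ.leaf K2_ok TW_l1666 _)
         (CovZ.leaf K2_ok TW_l1667 _))
        (CovZ.n1 (-1088, -3584) (by decide +kernel)
         (CovZ.leaf K2_ok TW_l1668 _)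
         (CovZ.leaf K2_ok TW_l1669 _)))
       (CovZ.n1 (-1216, -3648) (by decide +kernel)
        (CovZ.leaf K2_ok TW_l1670 _)
        (CovZ.n1 (-1152, -3648) (by decide +kernel)
         (CovZ.leaf K2_ok TW_l1671 _)
         (CovZ.leaf K2_ok TW_l1672 _)))))
     (CovZ.n1 (-1408, -3712) (by decide +kernel)
      (CovZ.n2 (-1408, -3584) (by decide +kernel)
       (CovZ.leaf K2_ok TW_l1673 _)
       (CovZ.n1 (-1472, -3648) (by decide +kernel)
        (CovZ.leaf K2_ok TW_l1674 _)
        (CovZ.leaf K2_ok TW_l1675 _)))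
      (CovZ.n1 (-1280, -3712) (by decide +kernel)
       (CovZ.n2 (-1344, -3776) (by decide +kernel)
        (CovZ.leaf K2_ok TW_l1676 _)
        (CovZ.leaf K2_ok TW_l1677 _))
       (CovZ.n1 (-1344, -3648) (by decide +kernel)
        (CovZ.leaf K2_ok TW_l1678 _)
        (CovZ.leaf K2_ok TW_l1679 _)))))))

theorem TW_s7_3 : SqZ TW_M TW_L [0, 7, 4, 3] (-4608) (-5632) 512 7 3 :=
  SqZ.mk (a := (-1024)) (b := (-512)) (c := (-4096)) (d := (-3584)) (by norm_num) (by norm_num) (by norm_num) (by norm_num)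
    (CovZ.topM TW_LL 4 (by decide +kernel) (CovZ.n2 (-768, -3840) (by decide +kernel)
    TW_u8
    TW_u9))
    (CovZ.topM TW_LL 20 (by decide +kernel) (CovZ.n0 (-768, -3840) (by decide +kernel)
    (CovZ.n2 (-1024, -3840) (by decide +kernel)
     (CovZ.n2 (-896, -3712) (by decide +kernel)
      (CovZ.n2 (-896, -3840) (by decide +kernel)
       (CovZ.n2 (-960, -3776) (by decide +kernel)
        (CovZ.n2 (-896, -3776) (by decide +kernel)
         (CovZ.n2 (-928, -3808) (by decide +kernel)
          (CovZ.leaf K2_ok TW_l2007 _)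
          (CovZ.leaf K2_ok TW_l2008 _))
         (CovZ.leaf K2_ok TW_l2009 _))
        (CovZ.n1 (-960, -3840) (by decide +kernel)
         (CovZ.leaf K2_ok TW_l2010 _)
         (CovZ.leaf K2_ok TW_l2011 _)))
       (CovZ.n1 (-832, -3776) (by decide +kernel)
        (CovZ.n2 (-832, -3840) (by decide +kernel)
         (CovZ.n2 (-864, -3808) (by decide +kernel)
          (CovZ.leaf K2_ok TW_l2012 _)
          (CovZ.leaf K2_ok TW_l2013 _))
         (CovZ.leaf K2_ok TW_l2014 _))
        (CovZ.n1 (-896, -3776) (by decide +kernel)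
         (CovZ.leaf K2_ok TW_l2015 _)
         (CovZ.n1 (-864, -3808) (by decide +kernel)
          (CovZ.leaf K2_ok TW_l2016 _)
          (CovZ.leaf K2_ok TW_l2017 _)))))
      (CovZ.n1 (-1024, -3712) (by decide +kernel)
       (CovZ.n2 (-960, -3648) (by decide +kernel)
        (CovZ.n2 (-960, -3712) (by decide +kernel)
         (CovZ.leaf K2_ok TW_l2018 _)
         (CovZ.leaf K2_ok TW_l2019 _))
        (CovZ.n1 (-1024, -3648) (by decide +kernel)
         (CovZ.leaf K2_ok TW_l2020 _)
         (CovZ.leaf K2_ok TW_l2021 _)))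
       (CovZ.n1 (-960, -3776) (by decide +kernel)
        (CovZ.n2 (-1024, -3776) (by decide +kernel)
         (CovZ.leaf K2_ok TW_l2022 _)
         (CovZ.n1 (-992, -3808) (by decide +kernel)
          (CovZ.leaf K2_ok TW_l2023 _)
          (CovZ.leaf K2_ok TW_l2024 _)))
        (CovZ.n1 (-960, -3712) (by decide +kernel)
         (CovZ.leaf K2_ok TW_l2025 _)
         (CovZ.n1 (-992, -3744) (by decide +kernel)
          (CovZ.leaf K2_ok TW_l2026 _)
          (CovZ.leaf K2_ok TW_l2027 _))))))
     (CovZ.n1 (-896, -3968) (by decide +kernel)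
      (CovZ.n2 (-1024, -3968) (by decide +kernel)
       (CovZ.n2 (-960, -3904) (by decide +kernel)
        (CovZ.n2 (-960, -3968) (by decide +kernel)
         (CovZ.n2 (-992, -3936) (by decide +kernel)
          (CovZ.leaf K2_ok TW_l2028 _)
          (CovZ.leaf K2_ok TW_l2029 _))
         (CovZ.n1 (-928, -3936) (by decide +kernel)
          (CovZ.leaf K2_ok TW_l2030 _)
          (CovZ.leaf K2_ok TW_l2031 _)))
        (CovZ.n1 (-1024, -3904) (by decide +kernel)
         (CovZ.n2 (-992, -3872) (by decide +kernel)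
          (CovZ.leaf K2_ok TW_l2032 _)
          (CovZ.leaf K2_ok TW_l2033 _))
         (CovZ.n1 (-992, -3936) (by decide +kernel)
          (CovZ.leaf K2_ok TW_l2034 _)
          (CovZ.n1 (-992, -3904) (by decide +kernel)
           (CovZ.leaf K2_ok TW_l2035 _)
           (CovZ.leaf K2_ok TW_l2036 _)))))
       (CovZ.n1 (-960, -4032) (by decide +kernel)
        (CovZ.n2 (-1024, -4032) (by decide +kernel)
         (CovZ.n2 (-992, -4000) (by decide +kernel)
          (CovZ.n2 (-992, -4032) (by decide +kernel)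
           (CovZ.leaf K2_ok TW_l2037 _)
           (CovZ.leaf K2_ok TW_l2038 _))
          (CovZ.n1 (-1024, -4000) (by decide +kernel)
           (CovZ.leaf K2_ok TW_l2039 _)
           (CovZ.leaf K2_ok TW_l2040 _)))
         (CovZ.n1 (-992, -4064) (by decide +kernel)
          (CovZ.n2 (-1024, -4064) (by decide +kernel)
           (CovZ.leaf K2_ok TW_l2041 _)
           (CovZ.n1 (-1008, -4080) (by decide +kernel)
            (CovZ.leaf K2_ok TW_l2042 _)
            (CovZ.leaf K2_ok TW_l2043 _)))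
          (CovZ.n1 (-992, -4032) (by decide +kernel)
           (CovZ.n2 (-976, -4048) (by decide +kernel)
            (CovZ.leaf K2_ok TW_l2044 _)
            (CovZ.leaf K2_ok TW_l2045 _))
           (CovZ.n1 (-1008, -4048) (by decide +kernel)
            (CovZ.leaf K2_ok TW_l2046 _)
            (CovZ.leaf K2_ok TW_l2047 _)))))
        (CovZ.n1 (-960, -3968) (by decide +kernel)
         (CovZ.n2 (-928, -4000) (by decide +kernel)
          (CovZ.n2 (-960, -4000) (by decide +kernel)
           (CovZ.leaf K2_ok TW_l2048 _)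
           (CovZ.leaf K2_ok TW_l2049 _))
          (CovZ.n1 (-928, -3968) (by decide +kernel)
           (CovZ.leaf K2_ok TW_l2050 _)
           (CovZ.leaf K2_ok TW_l2051 _)))
         (CovZ.n1 (-992, -4000) (by decide +kernel)
          (CovZ.n2 (-992, -3968) (by decide +kernel)
           (CovZ.leaf K2_ok TW_l2052 _)
           (CovZ.leaf K2_ok TW_l2053 _))
          (CovZ.n1 (-960, -4000) (by decide +kernel)
           (CovZ.n2 (-976, -4016) (by decide +kernel)
            (CovZ.leaf K2_ok TW_l2054 _)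
            (CovZ.leaf K2_ok TW_l2055 _))
           (CovZ.leaf K2_ok TW_l2056 _))))))
      (CovZ.n1 (-896, -3840) (by decide +kernel)
       (CovZ.n2 (-832, -3904) (by decide +kernel)
        (CovZ.n2 (-896, -3904) (by decide +kernel)
         (CovZ.n2 (-864, -3872) (by decide +kernel)
          (CovZ.leaf K2_ok TW_l2057 _)
          (CovZ.leaf K2_ok TW_l2058 _))
         (CovZ.n1 (-864, -3936) (by decide +kernel)
          (CovZ.leaf K2_ok TW_l2059 _)
          (CovZ.n1 (-864, -3904) (by decide +kernel)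
           (CovZ.leaf K2_ok TW_l2060 _)
           (CovZ.leaf K2_ok TW_l2061 _))))
        (CovZ.n1 (-832, -3840) (by decide +kernel)
         (CovZ.n2 (-800, -3872) (by decide +kernel)
          (CovZ.leaf K2_ok TW_l2062 _)
          (CovZ.leaf K2_ok TW_l2063 _))
         (CovZ.n1 (-864, -3872) (by decide +kernel)
          (CovZ.leaf K2_ok TW_l2064 _)
          (CovZ.leaf K2_ok TW_l2065 _))))
       (CovZ.n1 (-960, -3904) (by decide +kernel)
        (CovZ.n2 (-960, -3840) (by decide +kernel)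
         (CovZ.n2 (-928, -3872) (by decide +kernel)
          (CovZ.leaf K2_ok TW_l2066 _)
          (CovZ.leaf K2_ok TW_l2067 _))
         (CovZ.n1 (-992, -3872) (by decide +kernel)
          (CovZ.leaf K2_ok TW_l2068 _)
          (CovZ.leaf K2_ok TW_l2069 _)))
        (CovZ.n1 (-896, -3904) (by decide +kernel)
         (CovZ.n2 (-928, -3936) (by decide +kernel)
          (CovZ.n2 (-928, -3904) (by decide +kernel)
           (CovZ.leaf K2_ok TW_l2070 _)
           (CovZ.leaf K2_ok TW_l2071 _))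
          (CovZ.leaf K2_ok TW_l2072 _))
         (CovZ.n1 (-928, -3872) (by decide +kernel)
          (CovZ.leaf K2_ok TW_l2073 _)
          (CovZ.leaf K2_ok TW_l2074 _)))))))
    (CovZ.n1 (-768, -3584) (by decide +kernel)
     (CovZ.n2 (-640, -3712) (by decide +kernel)
      (CovZ.n2 (-768, -3712) (by decide +kernel)
       (CovZ.n2 (-704, -3648) (by decide +kernel)
        (CovZ.leaf K2_ok TW_l2075 _)
        (CovZ.n1 (-768, -3648) (by decide +kernel)
         (CovZ.leaf K2_ok TW_l2076 _)
         (CovZ.leaf K2_ok TW_l2077 _)))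
       (CovZ.n1 (-704, -3776) (by decide +kernel)
        (CovZ.n2 (-768, -3776) (by decide +kernel)
         (CovZ.leaf K2_ok TW_l2078 _)
         (CovZ.n1 (-736, -3808) (by decide +kernel)
          (CovZ.leaf K2_ok TW_l2079 _)
          (CovZ.leaf K2_ok TW_l2080 _)))
        (CovZ.n1 (-704, -3712) (by decide +kernel)
         (CovZ.leaf K2_ok TW_l2081 _)
         (CovZ.n1 (-736, -3744) (by decide +kernel)
          (CovZ.leaf K2_ok TW_l2082 _)
          (CovZ.leaf K2_ok TW_l2083 _)))))
      (CovZ.n1 (-640, -3584) (by decide +kernel)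
       (CovZ.n2 (-576, -3648) (by decide +kernel)
        (CovZ.n2 (-640, -3648) (by decide +kernel)
         (CovZ.leaf K2_ok TW_l2084 _)
         (CovZ.leaf K2_ok TW_l2085 _))
        (CovZ.leaf K2_ok TW_l2086 _))
       (CovZ.n1 (-704, -3648) (by decide +kernel)
        (CovZ.leaf K2_ok TW_l2087 _)
        (CovZ.leaf K2_ok TW_l2088 _))))
     (CovZ.n1 (-896, -3712) (by decide +kernel)
      (CovZ.n2 (-896, -3584) (by decide +kernel)
       (CovZ.n2 (-832, -3648) (by decide +kernel)
        (CovZ.n2 (-896, -3648) (by decide +kernel)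
         (CovZ.leaf K2_ok TW_l2089 _)
         (CovZ.leaf K2_ok TW_l2090 _))
        (CovZ.n1 (-832, -3584) (by decide +kernel)
         (CovZ.leaf K2_ok TW_l2091 _)
         (CovZ.leaf K2_ok TW_l2092 _)))
       (CovZ.n1 (-960, -3648) (by decide +kernel)
        (CovZ.n2 (-960, -3584) (by decide +kernel)
         (CovZ.leaf K2_ok TW_l2093 _)
         (CovZ.leaf K2_ok TW_l2094 _))
        (CovZ.n1 (-896, -3648) (by decide +kernel)
         (CovZ.leaf K2_ok TW_l2095 _)
         (CovZ.leaf K2_ok TW_l2096 _))))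
      (CovZ.n1 (-768, -3712) (by decide +kernel)
       (CovZ.n2 (-832, -3776) (by decide +kernel)
        (CovZ.n2 (-832, -3712) (by decide +kernel)
         (CovZ.leaf K2_ok TW_l2097 _)
         (CovZ.n1 (-864, -3744) (by decide +kernel)
          (CovZ.leaf K2_ok TW_l2098 _)
          (CovZ.leaf K2_ok TW_l2099 _)))
        (CovZ.n1 (-768, -3776) (by decide +kernel)
         (CovZ.n2 (-800, -3808) (by decide +kernel)
          (CovZ.leaf K2_ok TW_l2100 _)
          (CovZ.leaf K2_ok TW_l2101 _))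
         (CovZ.leaf K2_ok TW_l2102 _)))
       (CovZ.n1 (-832, -3648) (by decide +kernel)
        (CovZ.n2 (-768, -3648) (by decide +kernel)
         (CovZ.leaf K2_ok TW_l2103 _)
         (CovZ.leaf K2_ok TW_l2104 _))
        (CovZ.leaf K2_ok TW_l2105 _)))))))

theorem TW_s8_3 : SqZ TW_M TW_L [0, 7, 4, 3] (-4608) (-5632) 512 8 3 :=
  SqZ.mk (a := (-512)) (b := 0) (c := (-4096)) (d := (-3584)) (by norm_num) (by norm_num) (by norm_num) (by norm_num)
    (CovZ.topM TW_LL 0 (by decide +kernel) (CovZ.badM (by decide +kernel)))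
    (CovZ.topM TW_LL 4 (by decide +kernel) (CovZ.n0 (-256, -3840) (by decide +kernel)
    (CovZ.n2 (-512, -3840) (by decide +kernel)
     (CovZ.n2 (-384, -3712) (by decide +kernel)
      (CovZ.n2 (-384, -3840) (by decide +kernel)
       (CovZ.n2 (-448, -3776) (by decide +kernel)
        (CovZ.n2 (-384, -3776) (by decide +kernel)
         (CovZ.n2 (-416, -3808) (by decide +kernel)
          (CovZ.leaf K2_ok TW_l2245 _)
          (CovZ.n1 (-384, -3808) (by decide +kernel)
           (CovZ.leaf K2_ok TW_l2246 _)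
           (CovZ.leaf K2_ok TW_l2247 _)))
         (CovZ.n1 (-416, -3744) (by decide +kernel)
          (CovZ.leaf K2_ok TW_l2248 _)
          (CovZ.leaf K2_ok TW_l2249 _)))
        (CovZ.n1 (-448, -3840) (by decide +kernel)
         (CovZ.n2 (-480, -3808) (by decide +kernel)
          (CovZ.leaf K2_ok TW_l2250 _)
          (CovZ.leaf K2_ok TW_l2251 _))
         (CovZ.n1 (-416, -3808) (by decide +kernel)
          (CovZ.n2 (-416, -3840) (by decide +kernel)
           (CovZ.leaf K2_ok TW_l2252 _)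
           (CovZ.leaf K2_ok TW_l2253 _))
          (CovZ.leaf K2_ok TW_l2254 _))))
       (CovZ.n1 (-320, -3776) (by decide +kernel)
        (CovZ.badM (by decide +kernel))
        (CovZ.n1 (-384, -3776) (by decide +kernel)
         (CovZ.n2 (-352, -3744) (by decide +kernel)
          (CovZ.leaf K2_ok TW_l2265 _)
          (CovZ.leaf K2_ok TW_l2266 _))
         (CovZ.n1 (-352, -3808) (by decide +kernel)
          (CovZ.leaf K2_ok TW_l2267 _)
          (CovZ.n1 (-352, -3776) (by decide +kernel)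
           (CovZ.badM (by decide +kernel))
           (CovZ.leaf K2_ok TW_l2269 _))))))
      (CovZ.n1 (-512, -3712) (by decide +kernel)
       (CovZ.n2 (-448, -3648) (by decide +kernel)
        (CovZ.n2 (-448, -3712) (by decide +kernel)
         (CovZ.leaf K2_ok TW_l2270 _)
         (CovZ.leaf K2_ok TW_l2271 _))
        (CovZ.n1 (-512, -3648) (by decide +kernel)
         (CovZ.leaf K2_ok TW_l2272 _)
         (CovZ.leaf K2_ok TW_l2273 _)))
       (CovZ.n1 (-448, -3776) (by decide +kernel)
        (CovZ.n2 (-512, -3776) (by decide +kernel)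
         (CovZ.leaf K2_ok TW_l2274 _)
         (CovZ.n1 (-480, -3808) (by decide +kernel)
          (CovZ.leaf K2_ok TW_l2275 _)
          (CovZ.leaf K2_ok TW_l2276 _)))
        (CovZ.n1 (-448, -3712) (by decide +kernel)
         (CovZ.n2 (-416, -3744) (by decide +kernel)
          (CovZ.leaf K2_ok TW_l2277 _)
          (CovZ.leaf K2_ok TW_l2278 _))
         (CovZ.n1 (-480, -3744) (by decide +kernel)
          (CovZ.leaf K2_ok TW_l2279 _)
          (CovZ.leaf K2_ok TW_l2280 _))))))
     (CovZ.n1 (-384, -3968) (by decide +kernel)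
      (CovZ.n2 (-512, -3968) (by decide +kernel)
       (CovZ.n2 (-448, -3904) (by decide +kernel)
        (CovZ.badM (by decide +kernel))
        (CovZ.n1 (-512, -3904) (by decide +kernel)
         (CovZ.n2 (-480, -3872) (by decide +kernel)
          (CovZ.n2 (-480, -3904) (by decide +kernel)
           (CovZ.leaf K2_ok TW_l2281 _)
           (CovZ.leaf K2_ok TW_l2282 _))
          (CovZ.n1 (-512, -3872) (by decide +kernel)
           (CovZ.leaf K2_ok TW_l2283 _)
           (CovZ.leaf K2_ok TW_l2284 _)))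
         (CovZ.n1 (-480, -3936) (by decide +kernel)
          (CovZ.n2 (-512, -3936) (by decide +kernel)
           (CovZ.leaf K2_ok TW_l3923 _)
           (CovZ.badM (by decide +kernel)))
          (CovZ.n1 (-480, -3904) (by decide +kernel)
           (CovZ.n2 (-464, -3920) (by decide +kernel)
            (CovZ.leaf K2_ok TW_l3924 _)
            (CovZ.leaf K2_ok TW_l3925 _))
           (CovZ.n1 (-496, -3920) (by decide +kernel)
            (CovZ.leaf K2_ok TW_l3926 _)
            (CovZ.leaf K2_ok TW_l3927 _))))))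
       (CovZ.badM (by decide +kernel)))
      (CovZ.n1 (-384, -3840) (by decide +kernel)
       (CovZ.badM (by decide +kernel))
       (CovZ.n1 (-448, -3904) (by decide +kernel)
        (CovZ.n2 (-448, -3840) (by decide +kernel)
         (CovZ.n2 (-416, -3872) (by decide +kernel)
          (CovZ.n2 (-448, -3872) (by decide +kernel)
           (CovZ.leaf K2_ok TW_l2310 _)
           (CovZ.leaf K2_ok TW_l2311 _))
          (CovZ.n1 (-416, -3840) (by decide +kernel)
           (CovZ.leaf K2_ok TW_l2312 _)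
           (CovZ.leaf K2_ok TW_l2313 _)))
         (CovZ.n1 (-480, -3872) (by decide +kernel)
          (CovZ.leaf K2_ok TW_l2314 _)
          (CovZ.n1 (-448, -3872) (by decide +kernel)
           (CovZ.n2 (-464, -3888) (by decide +kernel)
            (CovZ.leaf K2_ok TW_l2315 _)
            (CovZ.leaf K2_ok TW_l2316 _))
           (CovZ.leaf K2_ok TW_l2317 _))))
        (CovZ.badM (by decide +kernel))))))
    (CovZ.n1 (-256, -3584) (by decide +kernel)
     (CovZ.n2 (-128, -3712) (by decide +kernel)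
      (CovZ.n2 (-256, -3712) (by decide +kernel)
       (CovZ.n2 (-192, -3648) (by decide +kernel)
        (CovZ.badM (by decide +kernel))
        (CovZ.n1 (-256, -3648) (by decide +kernel)
         (CovZ.leaf K2_ok TW_l2325 _)
         (CovZ.badM (by decide +kernel))))
       (CovZ.badM (by decide +kernel)))
      (CovZ.n1 (-128, -3584) (by decide +kernel)
       (CovZ.badM (by decide +kernel))
       (CovZ.n1 (-192, -3648) (by decide +kernel)
        (CovZ.n2 (-192, -3584) (by decide +kernel)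
         (CovZ.badM (by decide +kernel))
         (CovZ.n1 (-224, -3616) (by decide +kernel)
          (CovZ.leaf K2_ok TW_l2333 _)
          (CovZ.badM (by decide +kernel))))
        (CovZ.badM (by decide +kernel)))))
     (CovZ.n1 (-384, -3712) (by decide +kernel)
      (CovZ.n2 (-384, -3584) (by decide +kernel)
       (CovZ.n2 (-320, -3648) (by decide +kernel)
        (CovZ.n2 (-384, -3648) (by decide +kernel)
         (CovZ.leaf K2_ok TW_l2335 _)
         (CovZ.leaf K2_ok TW_l2336 _))
        (CovZ.n1 (-320, -3584) (by decide +kernel)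
         (CovZ.leaf K2_ok TW_l2337 _)
         (CovZ.leaf K2_ok TW_l2338 _)))
       (CovZ.n1 (-448, -3648) (by decide +kernel)
        (CovZ.leaf K2_ok TW_l2339 _)
        (CovZ.n1 (-384, -3648) (by decide +kernel)
         (CovZ.n2 (-416, -3680) (by decide +kernel)
          (CovZ.leaf K2_ok TW_l2340 _)
          (CovZ.leaf K2_ok TW_l2341 _))
         (CovZ.leaf K2_ok TW_l2342 _))))
      (CovZ.n1 (-256, -3712) (by decide +kernel)
       (CovZ.n2 (-320, -3776) (by decide +kernel)
        (CovZ.n2 (-320, -3712) (by decide +kernel)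
         (CovZ.n2 (-288, -3744) (by decide +kernel)
          (CovZ.leaf K2_ok TW_l2343 _)
          (CovZ.leaf K2_ok TW_l2344 _))
         (CovZ.n1 (-352, -3744) (by decide +kernel)
          (CovZ.leaf K2_ok TW_l2345 _)
          (CovZ.leaf K2_ok TW_l2346 _)))
        (CovZ.badM (by decide +kernel)))
       (CovZ.n1 (-320, -3648) (by decide +kernel)
        (CovZ.n2 (-256, -3648) (by decide +kernel)
         (CovZ.n2 (-288, -3680) (by decide +kernel)
          (CovZ.leaf K2_ok TW_l2355 _)
          (CovZ.badM (by decide +kernel)))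
         (CovZ.leaf K2_ok TW_l2357 _))
        (CovZ.n1 (-320, -3712) (by decide +kernel)
         (CovZ.leaf K2_ok TW_l2358 _)
         (CovZ.leaf K2_ok TW_l2359 _))))))))

theorem TW_s9_3 : SqZ TW_M TW_L [0, 7, 4, 3] (-4608) (-5632) 512 9 3 :=
  SqZ.mk (a := 0) (b := 512) (c := (-4096)) (d := (-3584)) (by norm_num) (by norm_num) (by norm_num) (by norm_num)
    (CovZ.topM TW_LL 0 (by decide +kernel) (CovZ.badM (by decide +kernel)))
    (CovZ.topM TW_LL 0 (by decide +kernel) (CovZ.badM (by decide +kernel)))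

theorem TW_s10_3 : SqZ TW_M TW_L [0, 7, 4, 3] (-4608) (-5632) 512 10 3 :=
  SqZ.mk (a := 512) (b := 1024) (c := (-4096)) (d := (-3584)) (by norm_num) (by norm_num) (by norm_num) (by norm_num)
    (CovZ.topM TW_LL 0 (by decide +kernel) (CovZ.badM (by decide +kernel)))
    (CovZ.topM TW_LL 0 (by decide +kernel) (CovZ.badM (by decide +kernel)))

theorem TW_s11_3 : SqZ TW_M TW_L [0, 7, 4, 3] (-4608) (-5632) 512 11 3 :=
  SqZ.mk (a := 1024) (b := 1536) (c := (-4096)) (d := (-3584)) (by norm_num) (by norm_num) (by norm_num) (by norm_num)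
    (CovZ.topM TW_LL 0 (by decide +kernel) (CovZ.badM (by decide +kernel)))
    (CovZ.topM TW_LL 0 (by decide +kernel) (CovZ.badM (by decide +kernel)))

theorem TW_s12_3 : SqZ TW_M TW_L [0, 7, 4, 3] (-4608) (-5632) 512 12 3 :=
  SqZ.mk (a := 1536) (b := 2048) (c := (-4096)) (d := (-3584)) (by norm_num) (by norm_num) (by norm_num) (by norm_num)
    (CovZ.topM TW_LL 0 (by decide +kernel) (CovZ.badM (by decide +kernel)))
    (CovZ.topM TW_LL 0 (by decide +kernel) (CovZ.badM (by decide +kernel)))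

theorem TW_s13_3 : SqZ TW_M TW_L [0, 7, 4, 3] (-4608) (-5632) 512 13 3 :=
  SqZ.mk (a := 2048) (b := 2560) (c := (-4096)) (d := (-3584)) (by norm_num) (by norm_num) (by norm_num) (by norm_num)
    (CovZ.topM TW_LL 0 (by decide +kernel) (CovZ.badM (by decide +kernel)))
    (CovZ.topM TW_LL 0 (by decide +kernel) (CovZ.badM (by decide +kernel)))

theorem TW_s14_3 : SqZ TW_M TW_L [0, 7, 4, 3] (-4608) (-5632) 512 14 3 :=
  SqZ.mk (a := 2560) (b := 3072) (c := (-4096)) (d := (-3584)) (by norm_num) (by norm_num) (by norm_num) (by norm_num)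
    (CovZ.topM TW_LL 0 (by decide +kernel) (CovZ.badM (by decide +kernel)))
    (CovZ.topM TW_LL 0 (by decide +kernel) (CovZ.badM (by decide +kernel)))

theorem TW_s15_3 : SqZ TW_M TW_L [0, 7, 4, 3] (-4608) (-5632) 512 15 3 :=
  SqZ.mk (a := 3072) (b := 3584) (c := (-4096)) (d := (-3584)) (by norm_num) (by norm_num) (by norm_num) (by norm_num)
    (CovZ.topM TW_LL 0 (by decide +kernel) (CovZ.badM (by decide +kernel)))
    (CovZ.topM TW_LL 0 (by decide +kernel) (CovZ.badM (by decide +kernel)))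

theorem TW_s16_3 : SqZ TW_M TW_L [0, 7, 4, 3] (-4608) (-5632) 512 16 3 :=
  SqZ.mk (a := 3584) (b := 4096) (c := (-4096)) (d := (-3584)) (by norm_num) (by norm_num) (by norm_num) (by norm_num)
    (CovZ.topM TW_LL 0 (by decide +kernel) (CovZ.badM (by decide +kernel)))
    (CovZ.topM TW_LL 0 (by decide +kernel) (CovZ.badM (by decide +kernel)))

theorem TW_s0_4 : SqZ TW_M TW_L [0, 7, 4, 3] (-4608) (-5632) 512 0 4 :=
  SqZ.mk (a := (-4608)) (b := (-4096)) (c := (-3584)) (d := (-3072)) (by norm_num) (by norm_num) (by norm_num) (by norm_num)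
    (CovZ.topM TW_LL 0 (by decide +kernel) (CovZ.badM (by decide +kernel)))
    (CovZ.topM TW_LL 0 (by decide +kernel) (CovZ.badM (by decide +kernel)))

theorem TW_s1_4 : SqZ TW_M TW_L [0, 7, 4, 3] (-4608) (-5632) 512 1 4 :=
  SqZ.mk (a := (-4096)) (b := (-3584)) (c := (-3584)) (d := (-3072)) (by norm_num) (by norm_num) (by norm_num) (by norm_num)
    (CovZ.topM TW_LL 2 (by decide +kernel) (CovZ.n2 (-3840, -3328) (by decide +kernel)
    (CovZ.n2 (-3584, -3328) (by decide +kernel)
     (CovZ.leaf K2_ok TW_l146 _)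
     (CovZ.n1 (-3712, -3200) (by decide +kernel)
      (CovZ.leaf K2_ok TW_l147 _)
      (CovZ.leaf K2_ok TW_l148 _)))
    (CovZ.n1 (-3840, -3584) (by decide +kernel)
     (CovZ.n2 (-3968, -3456) (by decide +kernel)
      (CovZ.leaf K2_ok TW_l149 _)
      (CovZ.leaf K2_ok TW_l150 _))
     (CovZ.leaf K2_ok TW_l151 _))))
    (CovZ.topM TW_LL 2 (by decide +kernel) (CovZ.n0 (-3840, -3328) (by decide +kernel)
    (CovZ.n2 (-4096, -3328) (by decide +kernel)
     (CovZ.n2 (-3968, -3200) (by decide +kernel)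
      (CovZ.n2 (-3968, -3328) (by decide +kernel)
       (CovZ.badM (by decide +kernel))
       (CovZ.leaf K2_ok TW_l153 _))
      (CovZ.badM (by decide +kernel)))
     (CovZ.n1 (-3968, -3456) (by decide +kernel)
      (CovZ.badM (by decide +kernel))
      (CovZ.leaf K2_ok TW_l156 _)))
    (CovZ.n1 (-3840, -3072) (by decide +kernel)
     (CovZ.n2 (-3712, -3200) (by decide +kernel)
      (CovZ.leaf K2_ok TW_l157 _)
      (CovZ.leaf K2_ok TW_l158 _))
     (CovZ.n1 (-3968, -3200) (by decide +kernel)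
      (CovZ.badM (by decide +kernel))
      (CovZ.n1 (-3840, -3200) (by decide +kernel)
       (CovZ.leaf K2_ok TW_l159 _)
       (CovZ.badM (by decide +kernel)))))))

theorem TW_s2_4 : SqZ TW_M TW_L [0, 7, 4, 3] (-4608) (-5632) 512 2 4 :=
  SqZ.mk (a := (-3584)) (b := (-3072)) (c := (-3584)) (d := (-3072)) (by norm_num) (by norm_num) (by norm_num) (by norm_num)
    (CovZ.topM TW_LL 2 (by decide +kernel) (CovZ.n2 (-3328, -3328) (by decide +kernel)
    (CovZ.n2 (-3072, -3328) (by decide +kernel)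
     (CovZ.leaf K2_ok TW_l280 _)
     (CovZ.leaf K2_ok TW_l281 _))
    (CovZ.leaf K2_ok TW_l282 _)))
    (CovZ.topM TW_LL 2 (by decide +kernel) (CovZ.n0 (-3328, -3328) (by decide +kernel)
    (CovZ.n2 (-3584, -3328) (by decide +kernel)
     (CovZ.leaf K2_ok TW_l283 _)
     (CovZ.leaf K2_ok TW_l284 _))
    (CovZ.n1 (-3328, -3072) (by decide +kernel)
     (CovZ.leaf K2_ok TW_l285 _)
     (CovZ.leaf K2_ok TW_l286 _))))

theorem TW_s3_4 : SqZ TW_M TW_L [0, 7, 4, 3] (-4608) (-5632) 512 3 4 :=
  SqZ.mk (a := (-3072)) (b := (-2560)) (c := (-3584)) (d := (-3072)) (by norm_num) (by norm_num) (by norm_num) (by norm_num)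
    (CovZ.topM TW_LL 18 (by decide +kernel) (CovZ.n2 (-2816, -3328) (by decide +kernel)
    (CovZ.n2 (-2560, -3328) (by decide +kernel)
     (CovZ.n2 (-2688, -3456) (by decide +kernel)
      (CovZ.n2 (-2688, -3328) (by decide +kernel)
       (CovZ.n2 (-2624, -3392) (by decide +kernel)
        (CovZ.leaf K2_ok TW_l536 _)
        (CovZ.n1 (-2624, -3328) (by decide +kernel)
         (CovZ.leaf K2_ok TW_l537 _)
         (CovZ.leaf K2_ok TW_l538 _)))
       (CovZ.n1 (-2752, -3392) (by decide +kernel)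
        (CovZ.leaf K2_ok TW_l539 _)
        (CovZ.leaf K2_ok TW_l540 _)))
      (CovZ.n1 (-2560, -3456) (by decide +kernel)
       (CovZ.n2 (-2624, -3520) (by decide +kernel)
        (CovZ.leaf K2_ok TW_l541 _)
        (CovZ.leaf K2_ok TW_l542 _))
       (CovZ.n1 (-2624, -3392) (by decide +kernel)
        (CovZ.n2 (-2560, -3392) (by decide +kernel)
         (CovZ.leaf K2_ok TW_l543 _)
         (CovZ.leaf K2_ok TW_l544 _))
        (CovZ.leaf K2_ok TW_l545 _))))
     (CovZ.n1 (-2688, -3200) (by decide +kernel)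
      (CovZ.n2 (-2560, -3200) (by decide +kernel)
       (CovZ.n2 (-2624, -3264) (by decide +kernel)
        (CovZ.leaf K2_ok TW_l546 _)
        (CovZ.n1 (-2560, -3264) (by decide +kernel)
         (CovZ.leaf K2_ok TW_l547 _)
         (CovZ.leaf K2_ok TW_l548 _)))
       (CovZ.leaf K2_ok TW_l549 _))
      (CovZ.n1 (-2688, -3328) (by decide +kernel)
       (CovZ.leaf K2_ok TW_l550 _)
       (CovZ.n1 (-2624, -3264) (by decide +kernel)
        (CovZ.leaf K2_ok TW_l551 _)
        (CovZ.n1 (-2688, -3264) (by decide +kernel)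
         (CovZ.leaf K2_ok TW_l552 _)
         (CovZ.n1 (-2656, -3296) (by decide +kernel)
          (CovZ.leaf K2_ok TW_l553 _)
          (CovZ.leaf K2_ok TW_l554 _)))))))
    (CovZ.n1 (-2816, -3584) (by decide +kernel)
     (CovZ.n2 (-2944, -3456) (by decide +kernel)
      (CovZ.n2 (-2816, -3456) (by decide +kernel)
       (CovZ.leaf K2_ok TW_l555 _)
       (CovZ.leaf K2_ok TW_l556 _))
      (CovZ.leaf K2_ok TW_l557 _))
     (CovZ.n1 (-2688, -3456) (by decide +kernel)
      (CovZ.n2 (-2688, -3584) (by decide +kernel)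
       (CovZ.leaf K2_ok TW_l558 _)
       (CovZ.leaf K2_ok TW_l559 _))
      (CovZ.n1 (-2816, -3456) (by decide +kernel)
       (CovZ.leaf K2_ok TW_l560 _)
       (CovZ.leaf K2_ok TW_l561 _))))))
    (CovZ.topM TW_LL 18 (by decide +kernel) (CovZ.n0 (-2816, -3328) (by decide +kernel)
    (CovZ.n2 (-3072, -3328) (by decide +kernel)
     (CovZ.leaf K2_ok TW_l562 _)
     (CovZ.n1 (-2944, -3456) (by decide +kernel)
      (CovZ.leaf K2_ok TW_l563 _)
      (CovZ.leaf K2_ok TW_l564 _)))
    (CovZ.n1 (-2816, -3072) (by decide +kernel)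
     (CovZ.n2 (-2688, -3200) (by decide +kernel)
      (CovZ.leaf K2_ok TW_l565 _)
      (CovZ.leaf K2_ok TW_l566 _))
     (CovZ.leaf K2_ok TW_l567 _))))

theorem TW_s4_4 : SqZ TW_M TW_L [0, 7, 4, 3] (-4608) (-5632) 512 4 4 :=
  SqZ.mk (a := (-2560)) (b := (-2048)) (c := (-3584)) (d := (-3072)) (by norm_num) (by norm_num) (by norm_num) (by norm_num)
    (CovZ.topM TW_LL 30 (by decide +kernel) (CovZ.n2 (-2304, -3328) (by decide +kernel)
    (CovZ.n2 (-2048, -3328) (by decide +kernel)
     (CovZ.n2 (-2176, -3456) (by decide +kernel)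
      (CovZ.n2 (-2176, -3328) (by decide +kernel)
       (CovZ.n2 (-2112, -3392) (by decide +kernel)
        (CovZ.leaf K2_ok TW_l794 _)
        (CovZ.leaf K2_ok TW_l795 _))
       (CovZ.n1 (-2240, -3392) (by decide +kernel)
        (CovZ.leaf K2_ok TW_l796 _)
        (CovZ.n1 (-2176, -3392) (by decide +kernel)
         (CovZ.leaf K2_ok TW_l797 _)
         (CovZ.leaf K2_ok TW_l798 _))))
      (CovZ.n1 (-2048, -3456) (by decide +kernel)
       (CovZ.n2 (-2112, -3520) (by decide +kernel)
        (CovZ.leaf K2_ok TW_l799 _)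
        (CovZ.leaf K2_ok TW_l800 _))
       (CovZ.n1 (-2112, -3392) (by decide +kernel)
        (CovZ.n2 (-2048, -3392) (by decide +kernel)
         (CovZ.leaf K2_ok TW_l801 _)
         (CovZ.leaf K2_ok TW_l802 _))
        (CovZ.leaf K2_ok TW_l803 _))))
     (CovZ.n1 (-2176, -3200) (by decide +kernel)
      (CovZ.n2 (-2048, -3200) (by decide +kernel)
       (CovZ.n2 (-2112, -3264) (by decide +kernel)
        (CovZ.n2 (-2112, -3200) (by decide +kernel)
         (CovZ.leaf K2_ok TW_l804 _)
         (CovZ.leaf K2_ok TW_l805 _))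
        (CovZ.n1 (-2048, -3264) (by decide +kernel)
         (CovZ.leaf K2_ok TW_l806 _)
         (CovZ.leaf K2_ok TW_l807 _)))
       (CovZ.n1 (-2112, -3136) (by decide +kernel)
        (CovZ.n2 (-2048, -3136) (by decide +kernel)
         (CovZ.n2 (-2080, -3168) (by decide +kernel)
          (CovZ.leaf K2_ok TW_l808 _)
          (CovZ.leaf K2_ok TW_l809 _))
         (CovZ.n1 (-2080, -3104) (by decide +kernel)
          (CovZ.leaf K2_ok TW_l810 _)
          (CovZ.leaf K2_ok TW_l811 _)))
        (CovZ.n1 (-2112, -3200) (by decide +kernel)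
         (CovZ.leaf K2_ok TW_l812 _)
         (CovZ.n1 (-2080, -3168) (by decide +kernel)
          (CovZ.leaf K2_ok TW_l813 _)
          (CovZ.leaf K2_ok TW_l814 _)))))
      (CovZ.n1 (-2176, -3328) (by decide +kernel)
       (CovZ.n2 (-2240, -3264) (by decide +kernel)
        (CovZ.n2 (-2176, -3264) (by decide +kernel)
         (CovZ.leaf K2_ok TW_l815 _)
         (CovZ.leaf K2_ok TW_l816 _))
        (CovZ.leaf K2_ok TW_l817 _))
       (CovZ.n1 (-2112, -3264) (by decide +kernel)
        (CovZ.leaf K2_ok TW_l818 _)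
        (CovZ.n1 (-2176, -3264) (by decide +kernel)
         (CovZ.leaf K2_ok TW_l819 _)
         (CovZ.leaf K2_ok TW_l820 _))))))
    (CovZ.n1 (-2304, -3584) (by decide +kernel)
     (CovZ.n2 (-2432, -3456) (by decide +kernel)
      (CovZ.n2 (-2304, -3456) (by decide +kernel)
       (CovZ.n2 (-2368, -3520) (by decide +kernel)
        (CovZ.leaf K2_ok TW_l821 _)
        (CovZ.leaf K2_ok TW_l822 _))
       (CovZ.n1 (-2368, -3392) (by decide +kernel)
        (CovZ.n2 (-2304, -3392) (by decide +kernel)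
         (CovZ.leaf K2_ok TW_l823 _)
         (CovZ.leaf K2_ok TW_l824 _))
        (CovZ.leaf K2_ok TW_l825 _)))
      (CovZ.n1 (-2432, -3584) (by decide +kernel)
       (CovZ.n2 (-2496, -3520) (by decide +kernel)
        (CovZ.leaf K2_ok TW_l826 _)
        (CovZ.leaf K2_ok TW_l827 _))
       (CovZ.leaf K2_ok TW_l828 _)))
     (CovZ.n1 (-2176, -3456) (by decide +kernel)
      (CovZ.n2 (-2176, -3584) (by decide +kernel)
       (CovZ.n2 (-2240, -3520) (by decide +kernel)
        (CovZ.n2 (-2176, -3520) (by decide +kernel)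
         (CovZ.leaf K2_ok TW_l829 _)
         (CovZ.leaf K2_ok TW_l830 _))
        (CovZ.leaf K2_ok TW_l831 _))
       (CovZ.leaf K2_ok TW_l832 _))
      (CovZ.n1 (-2304, -3456) (by decide +kernel)
       (CovZ.n2 (-2240, -3392) (by decide +kernel)
        (CovZ.leaf K2_ok TW_l833 _)
        (CovZ.leaf K2_ok TW_l834 _))
       (CovZ.n1 (-2240, -3520) (by decide +kernel)
        (CovZ.leaf K2_ok TW_l835 _)
        (CovZ.leaf K2_ok TW_l836 _)))))))
    (CovZ.topM TW_LL 30 (by decide +kernel) (CovZ.n0 (-2304, -3328) (by decide +kernel)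
    (CovZ.n2 (-2560, -3328) (by decide +kernel)
     (CovZ.n2 (-2432, -3200) (by decide +kernel)
      (CovZ.n2 (-2432, -3328) (by decide +kernel)
       (CovZ.n2 (-2496, -3264) (by decide +kernel)
        (CovZ.n2 (-2432, -3264) (by decide +kernel)
         (CovZ.leaf K2_ok TW_l837 _)
         (CovZ.leaf K2_ok TW_l838 _))
        (CovZ.leaf K2_ok TW_l839 _))
       (CovZ.n1 (-2368, -3264) (by decide +kernel)
        (CovZ.leaf K2_ok TW_l840 _)
        (CovZ.n1 (-2432, -3264) (by decide +kernel)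
         (CovZ.leaf K2_ok TW_l841 _)
         (CovZ.leaf K2_ok TW_l842 _))))
      (CovZ.n1 (-2560, -3200) (by decide +kernel)
       (CovZ.leaf K2_ok TW_l843 _)
       (CovZ.n1 (-2496, -3264) (by decide +kernel)
        (CovZ.n2 (-2560, -3264) (by decide +kernel)
         (CovZ.leaf K2_ok TW_l844 _)
         (CovZ.leaf K2_ok TW_l845 _))
        (CovZ.n1 (-2496, -3200) (by decide +kernel)
         (CovZ.leaf K2_ok TW_l846 _)
         (CovZ.leaf K2_ok TW_l847 _)))))
     (CovZ.n1 (-2432, -3456) (by decide +kernel)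
      (CovZ.n2 (-2560, -3456) (by decide +kernel)
       (CovZ.n2 (-2496, -3392) (by decide +kernel)
        (CovZ.leaf K2_ok TW_l848 _)
        (CovZ.n1 (-2560, -3392) (by decide +kernel)
         (CovZ.leaf K2_ok TW_l849 _)
         (CovZ.leaf K2_ok TW_l850 _)))
       (CovZ.n1 (-2496, -3520) (by decide +kernel)
        (CovZ.leaf K2_ok TW_l851 _)
        (CovZ.leaf K2_ok TW_l852 _)))
      (CovZ.n1 (-2432, -3328) (by decide +kernel)
       (CovZ.n2 (-2368, -3392) (by decide +kernel)
        (CovZ.n2 (-2432, -3392) (by decide +kernel)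
         (CovZ.leaf K2_ok TW_l853 _)
         (CovZ.leaf K2_ok TW_l854 _))
        (CovZ.n1 (-2368, -3328) (by decide +kernel)
         (CovZ.leaf K2_ok TW_l855 _)
         (CovZ.leaf K2_ok TW_l856 _)))
       (CovZ.n1 (-2496, -3392) (by decide +kernel)
        (CovZ.n2 (-2496, -3328) (by decide +kernel)
         (CovZ.leaf K2_ok TW_l857 _)
         (CovZ.leaf K2_ok TW_l858 _))
        (CovZ.n1 (-2432, -3392) (by decide +kernel)
         (CovZ.leaf K2_ok TW_l859 _)
         (CovZ.leaf K2_ok TW_l860 _))))))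
    (CovZ.n1 (-2304, -3072) (by decide +kernel)
     (CovZ.n2 (-2176, -3200) (by decide +kernel)
      (CovZ.n2 (-2304, -3200) (by decide +kernel)
       (CovZ.n2 (-2240, -3136) (by decide +kernel)
        (CovZ.n2 (-2240, -3200) (by decide +kernel)
         (CovZ.n2 (-2272, -3168) (by decide +kernel)
          (CovZ.leaf K2_ok TW_l861 _)
          (CovZ.leaf K2_ok TW_l862 _))
         (CovZ.n1 (-2208, -3168) (by decide +kernel)
          (CovZ.leaf K2_ok TW_l863 _)
          (CovZ.leaf K2_ok TW_l864 _)))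
        (CovZ.n1 (-2304, -3136) (by decide +kernel)
         (CovZ.n2 (-2272, -3104) (by decide +kernel)
          (CovZ.leaf K2_ok TW_l865 _)
          (CovZ.n1 (-2304, -3104) (by decide +kernel)
           (CovZ.leaf K2_ok TW_l866 _)
           (CovZ.leaf K2_ok TW_l867 _)))
         (CovZ.n1 (-2272, -3168) (by decide +kernel)
          (CovZ.leaf K2_ok TW_l868 _)
          (CovZ.leaf K2_ok TW_l869 _))))
       (CovZ.n1 (-2240, -3264) (by decide +kernel)
        (CovZ.n2 (-2304, -3264) (by decide +kernel)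
         (CovZ.leaf K2_ok TW_l870 _)
         (CovZ.leaf K2_ok TW_l871 _))
        (CovZ.n1 (-2240, -3200) (by decide +kernel)
         (CovZ.leaf K2_ok TW_l872 _)
         (CovZ.leaf K2_ok TW_l873 _))))
      (CovZ.n1 (-2176, -3072) (by decide +kernel)
       (CovZ.n2 (-2112, -3136) (by decide +kernel)
        (CovZ.n2 (-2176, -3136) (by decide +kernel)
         (CovZ.n2 (-2144, -3104) (by decide +kernel)
          (CovZ.leaf K2_ok TW_l874 _)
          (CovZ.leaf K2_ok TW_l875 _))
         (CovZ.n1 (-2144, -3168) (by decide +kernel)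
          (CovZ.leaf K2_ok TW_l876 _)
          (CovZ.leaf K2_ok TW_l877 _)))
        (CovZ.n1 (-2112, -3072) (by decide +kernel)
         (CovZ.n2 (-2080, -3104) (by decide +kernel)
          (CovZ.leaf K2_ok TW_l878 _)
          (CovZ.leaf K2_ok TW_l879 _))
         (CovZ.n1 (-2144, -3104) (by decide +kernel)
          (CovZ.leaf K2_ok TW_l880 _)
          (CovZ.n1 (-2112, -3104) (by decide +kernel)
           (CovZ.leaf K2_ok TW_l881 _)
           (CovZ.leaf K2_ok TW_l882 _)))))
       (CovZ.n1 (-2240, -3136) (by decide +kernel)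
        (CovZ.n2 (-2240, -3072) (by decide +kernel)
         (CovZ.n2 (-2208, -3104) (by decide +kernel)
          (CovZ.leaf K2_ok TW_l883 _)
          (CovZ.leaf K2_ok TW_l884 _))
         (CovZ.n1 (-2272, -3104) (by decide +kernel)
          (CovZ.leaf K2_ok TW_l885 _)
          (CovZ.n1 (-2240, -3104) (by decide +kernel)
           (CovZ.leaf K2_ok TW_l886 _)
           (CovZ.leaf K2_ok TW_l887 _))))
        (CovZ.n1 (-2176, -3136) (by decide +kernel)
         (CovZ.n2 (-2208, -3168) (by decide +kernel)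
          (CovZ.leaf K2_ok TW_l888 _)
          (CovZ.leaf K2_ok TW_l889 _))
         (CovZ.n1 (-2208, -3104) (by decide +kernel)
          (CovZ.n2 (-2176, -3104) (by decide +kernel)
           (CovZ.leaf K2_ok TW_l890 _)
           (CovZ.leaf K2_ok TW_l891 _))
          (CovZ.leaf K2_ok TW_l892 _))))))
     (CovZ.n1 (-2432, -3200) (by decide +kernel)
      (CovZ.n2 (-2432, -3072) (by decide +kernel)
       (CovZ.n2 (-2368, -3136) (by decide +kernel)
        (CovZ.n2 (-2432, -3136) (by decide +kernel)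
         (CovZ.leaf K2_ok TW_l893 _)
         (CovZ.leaf K2_ok TW_l894 _))
        (CovZ.leaf K2_ok TW_l895 _))
       (CovZ.leaf K2_ok TW_l896 _))
      (CovZ.n1 (-2304, -3200) (by decide +kernel)
       (CovZ.n2 (-2368, -3264) (by decide +kernel)
        (CovZ.n2 (-2368, -3200) (by decide +kernel)
         (CovZ.leaf K2_ok TW_l897 _)
         (CovZ.leaf K2_ok TW_l898 _))
        (CovZ.n1 (-2304, -3264) (by decide +kernel)
         (CovZ.leaf K2_ok TW_l899 _)
         (CovZ.leaf K2_ok TW_l900 _)))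
       (CovZ.n1 (-2368, -3136) (by decide +kernel)
        (CovZ.n2 (-2304, -3136) (by decide +kernel)
         (CovZ.n2 (-2336, -3168) (by decide +kernel)
          (CovZ.leaf K2_ok TW_l901 _)
          (CovZ.leaf K2_ok TW_l902 _))
         (CovZ.n1 (-2336, -3104) (by decide +kernel)
          (CovZ.n2 (-2304, -3104) (by decide +kernel)
           (CovZ.leaf K2_ok TW_l903 _)
           (CovZ.leaf K2_ok TW_l904 _))
          (CovZ.leaf K2_ok TW_l905 _)))
        (CovZ.n1 (-2368, -3200) (by decide +kernel)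
         (CovZ.n2 (-2400, -3168) (by decide +kernel)
          (CovZ.leaf K2_ok TW_l906 _)
          (CovZ.leaf K2_ok TW_l907 _))
         (CovZ.n1 (-2336, -3168) (by decide +kernel)
          (CovZ.leaf K2_ok TW_l908 _)
          (CovZ.leaf K2_ok TW_l909 _)))))))))

theorem TW_s5_4 : SqZ TW_M TW_L [0, 7, 4, 3] (-4608) (-5632) 512 5 4 :=
  SqZ.mk (a := (-2048)) (b := (-1536)) (c := (-3584)) (d := (-3072)) (by norm_num) (by norm_num) (by norm_num) (by norm_num)
    (CovZ.topM TW_LL 30 (by decide +kernel) (CovZ.n2 (-1792, -3328) (by decide +kernel)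
    (CovZ.n2 (-1536, -3328) (by decide +kernel)
     (CovZ.n2 (-1664, -3456) (by decide +kernel)
      (CovZ.n2 (-1664, -3328) (by decide +kernel)
       (CovZ.n2 (-1600, -3392) (by decide +kernel)
        (CovZ.n2 (-1664, -3392) (by decide +kernel)
         (CovZ.leaf K2_ok TW_l1142 _)
         (CovZ.leaf K2_ok TW_l1143 _))
        (CovZ.leaf K2_ok TW_l1144 _))
       (CovZ.n1 (-1728, -3392) (by decide +kernel)
        (CovZ.leaf K2_ok TW_l1145 _)
        (CovZ.n1 (-1664, -3392) (by decide +kernel)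
         (CovZ.leaf K2_ok TW_l1146 _)
         (CovZ.leaf K2_ok TW_l1147 _))))
      (CovZ.n1 (-1536, -3456) (by decide +kernel)
       (CovZ.n2 (-1600, -3520) (by decide +kernel)
        (CovZ.leaf K2_ok TW_l1148 _)
        (CovZ.leaf K2_ok TW_l1149 _))
       (CovZ.n1 (-1600, -3392) (by decide +kernel)
        (CovZ.n2 (-1536, -3392) (by decide +kernel)
         (CovZ.leaf K2_ok TW_l1150 _)
         (CovZ.leaf K2_ok TW_l1151 _))
        (CovZ.leaf K2_ok TW_l1152 _))))
     (CovZ.n1 (-1664, -3200) (by decide +kernel)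
      (CovZ.n2 (-1536, -3200) (by decide +kernel)
       (CovZ.n2 (-1600, -3264) (by decide +kernel)
        (CovZ.n2 (-1600, -3200) (by decide +kernel)
         (CovZ.leaf K2_ok TW_l1153 _)
         (CovZ.n1 (-1632, -3232) (by decide +kernel)
          (CovZ.leaf K2_ok TW_l1154 _)
          (CovZ.leaf K2_ok TW_l1155 _)))
        (CovZ.n1 (-1536, -3264) (by decide +kernel)
         (CovZ.leaf K2_ok TW_l1156 _)
         (CovZ.leaf K2_ok TW_l1157 _)))
       (CovZ.n1 (-1600, -3136) (by decide +kernel)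
        (CovZ.n2 (-1536, -3136) (by decide +kernel)
         (CovZ.leaf K2_ok TW_l1158 _)
         (CovZ.leaf K2_ok TW_l1159 _))
        (CovZ.leaf K2_ok TW_l1160 _)))
      (CovZ.n1 (-1664, -3328) (by decide +kernel)
       (CovZ.n2 (-1728, -3264) (by decide +kernel)
        (CovZ.n2 (-1664, -3264) (by decide +kernel)
         (CovZ.leaf K2_ok TW_l1161 _)
         (CovZ.leaf K2_ok TW_l1162 _))
        (CovZ.leaf K2_ok TW_l1163 _))
       (CovZ.n1 (-1600, -3264) (by decide +kernel)
        (CovZ.n2 (-1600, -3328) (by decide +kernel)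
         (CovZ.leaf K2_ok TW_l1164 _)
         (CovZ.leaf K2_ok TW_l1165 _))
        (CovZ.n1 (-1664, -3264) (by decide +kernel)
         (CovZ.leaf K2_ok TW_l1166 _)
         (CovZ.leaf K2_ok TW_l1167 _))))))
    (CovZ.n1 (-1792, -3584) (by decide +kernel)
     (CovZ.n2 (-1920, -3456) (by decide +kernel)
      (CovZ.n2 (-1792, -3456) (by decide +kernel)
       (CovZ.n2 (-1856, -3520) (by decide +kernel)
        (CovZ.leaf K2_ok TW_l1168 _)
        (CovZ.leaf K2_ok TW_l1169 _))
       (CovZ.n1 (-1856, -3392) (by decide +kernel)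
        (CovZ.n2 (-1792, -3392) (by decide +kernel)
         (CovZ.leaf K2_ok TW_l1170 _)
         (CovZ.leaf K2_ok TW_l1171 _))
        (CovZ.leaf K2_ok TW_l1172 _)))
      (CovZ.leaf K2_ok TW_l1173 _))
     (CovZ.n1 (-1664, -3456) (by decide +kernel)
      (CovZ.n2 (-1664, -3584) (by decide +kernel)
       (CovZ.n2 (-1728, -3520) (by decide +kernel)
        (CovZ.leaf K2_ok TW_l1174 _)
        (CovZ.leaf K2_ok TW_l1175 _))
       (CovZ.leaf K2_ok TW_l1176 _))
      (CovZ.n1 (-1792, -3456) (by decide +kernel)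
       (CovZ.n2 (-1728, -3392) (by decide +kernel)
        (CovZ.leaf K2_ok TW_l1177 _)
        (CovZ.n1 (-1792, -3392) (by decide +kernel)
         (CovZ.leaf K2_ok TW_l1178 _)
         (CovZ.leaf K2_ok TW_l1179 _)))
       (CovZ.leaf K2_ok TW_l1180 _))))))
    (CovZ.topM TW_LL 30 (by decide +kernel) (CovZ.n0 (-1792, -3328) (by decide +kernel)
    (CovZ.n2 (-2048, -3328) (by decide +kernel)
     (CovZ.n2 (-1920, -3200) (by decide +kernel)
      (CovZ.n2 (-1920, -3328) (by decide +kernel)
       (CovZ.n2 (-1984, -3264) (by decide +kernel)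
        (CovZ.n2 (-1920, -3264) (by decide +kernel)
         (CovZ.leaf K2_ok TW_l1181 _)
         (CovZ.leaf K2_ok TW_l1182 _))
        (CovZ.leaf K2_ok TW_l1183 _))
       (CovZ.n1 (-1856, -3264) (by decide +kernel)
        (CovZ.leaf K2_ok TW_l1184 _)
        (CovZ.n1 (-1920, -3264) (by decide +kernel)
         (CovZ.leaf K2_ok TW_l1185 _)
         (CovZ.leaf K2_ok TW_l1186 _))))
      (CovZ.n1 (-2048, -3200) (by decide +kernel)
       (CovZ.n2 (-1984, -3136) (by decide +kernel)
        (CovZ.n2 (-1984, -3200) (by decide +kernel)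
         (CovZ.leaf K2_ok TW_l1187 _)
         (CovZ.leaf K2_ok TW_l1188 _))
        (CovZ.n1 (-2048, -3136) (by decide +kernel)
         (CovZ.leaf K2_ok TW_l1189 _)
         (CovZ.n1 (-2016, -3168) (by decide +kernel)
          (CovZ.leaf K2_ok TW_l1190 _)
          (CovZ.leaf K2_ok TW_l1191 _))))
       (CovZ.n1 (-1984, -3264) (by decide +kernel)
        (CovZ.n2 (-2048, -3264) (by decide +kernel)
         (CovZ.leaf K2_ok TW_l1192 _)
         (CovZ.leaf K2_ok TW_l1193 _))
        (CovZ.n1 (-1984, -3200) (by decide +kernel)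
         (CovZ.leaf K2_ok TW_l1194 _)
         (CovZ.n1 (-2016, -3232) (by decide +kernel)
          (CovZ.leaf K2_ok TW_l1195 _)
          (CovZ.leaf K2_ok TW_l1196 _))))))
     (CovZ.n1 (-1920, -3456) (by decide +kernel)
      (CovZ.n2 (-2048, -3456) (by decide +kernel)
       (CovZ.n2 (-1984, -3392) (by decide +kernel)
        (CovZ.leaf K2_ok TW_l1197 _)
        (CovZ.leaf K2_ok TW_l1198 _))
       (CovZ.leaf K2_ok TW_l1199 _))
      (CovZ.n1 (-1920, -3328) (by decide +kernel)
       (CovZ.n2 (-1856, -3392) (by decide +kernel)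
        (CovZ.leaf K2_ok TW_l1200 _)
        (CovZ.leaf K2_ok TW_l1201 _))
       (CovZ.n1 (-1984, -3392) (by decide +kernel)
        (CovZ.leaf K2_ok TW_l1202 _)
        (CovZ.leaf K2_ok TW_l1203 _)))))
    (CovZ.n1 (-1792, -3072) (by decide +kernel)
     (CovZ.n2 (-1664, -3200) (by decide +kernel)
      (CovZ.n2 (-1792, -3200) (by decide +kernel)
       (CovZ.n2 (-1728, -3136) (by decide +kernel)
        (CovZ.n2 (-1728, -3200) (by decide +kernel)
         (CovZ.leaf K2_ok TW_l1204 _)
         (CovZ.leaf K2_ok TW_l1205 _))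
        (CovZ.n1 (-1792, -3136) (by decide +kernel)
         (CovZ.leaf K2_ok TW_l1206 _)
         (CovZ.leaf K2_ok TW_l1207 _)))
       (CovZ.n1 (-1728, -3264) (by decide +kernel)
        (CovZ.n2 (-1792, -3264) (by decide +kernel)
         (CovZ.leaf K2_ok TW_l1208 _)
         (CovZ.leaf K2_ok TW_l1209 _))
        (CovZ.n1 (-1728, -3200) (by decide +kernel)
         (CovZ.leaf K2_ok TW_l1210 _)
         (CovZ.n1 (-1760, -3232) (by decide +kernel)
          (CovZ.leaf K2_ok TW_l1211 _)
          (CovZ.leaf K2_ok TW_l1212 _)))))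
      (CovZ.n1 (-1664, -3072) (by decide +kernel)
       (CovZ.n2 (-1600, -3136) (by decide +kernel)
        (CovZ.n2 (-1664, -3136) (by decide +kernel)
         (CovZ.leaf K2_ok TW_l1213 _)
         (CovZ.leaf K2_ok TW_l1214 _))
        (CovZ.n1 (-1600, -3072) (by decide +kernel)
         (CovZ.leaf K2_ok TW_l1215 _)
         (CovZ.leaf K2_ok TW_l1216 _)))
       (CovZ.n1 (-1728, -3136) (by decide +kernel)
        (CovZ.n2 (-1728, -3072) (by decide +kernel)
         (CovZ.leaf K2_ok TW_l1217 _)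
         (CovZ.leaf K2_ok TW_l1218 _))
        (CovZ.n1 (-1664, -3136) (by decide +kernel)
         (CovZ.leaf K2_ok TW_l1219 _)
         (CovZ.leaf K2_ok TW_l1220 _)))))
     (CovZ.n1 (-1920, -3200) (by decide +kernel)
      (CovZ.n2 (-1920, -3072) (by decide +kernel)
       (CovZ.n2 (-1856, -3136) (by decide +kernel)
        (CovZ.n2 (-1920, -3136) (by decide +kernel)
         (CovZ.leaf K2_ok TW_l1221 _)
         (CovZ.leaf K2_ok TW_l1222 _))
        (CovZ.n1 (-1856, -3072) (by decide +kernel)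
         (CovZ.leaf K2_ok TW_l1223 _)
         (CovZ.leaf K2_ok TW_l1224 _)))
       (CovZ.n1 (-1984, -3136) (by decide +kernel)
        (CovZ.n2 (-1984, -3072) (by decide +kernel)
         (CovZ.n2 (-1952, -3104) (by decide +kernel)
          (CovZ.leaf K2_ok TW_l1225 _)
          (CovZ.leaf K2_ok TW_l1226 _))
         (CovZ.n1 (-2016, -3104) (by decide +kernel)
          (CovZ.leaf K2_ok TW_l1227 _)
          (CovZ.leaf K2_ok TW_l1228 _)))
        (CovZ.n1 (-1920, -3136) (by decide +kernel)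
         (CovZ.n2 (-1952, -3168) (by decide +kernel)
          (CovZ.leaf K2_ok TW_l1229 _)
          (CovZ.leaf K2_ok TW_l1230 _))
         (CovZ.n1 (-1952, -3104) (by decide +kernel)
          (CovZ.leaf K2_ok TW_l1231 _)
          (CovZ.leaf K2_ok TW_l1232 _)))))
      (CovZ.n1 (-1792, -3200) (by decide +kernel)
       (CovZ.n2 (-1856, -3264) (by decide +kernel)
        (CovZ.n2 (-1856, -3200) (by decide +kernel)
         (CovZ.leaf K2_ok TW_l1233 _)
         (CovZ.n1 (-1888, -3232) (by decide +kernel)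
          (CovZ.leaf K2_ok TW_l1234 _)
          (CovZ.leaf K2_ok TW_l1235 _)))
        (CovZ.n1 (-1792, -3264) (by decide +kernel)
         (CovZ.leaf K2_ok TW_l1236 _)
         (CovZ.leaf K2_ok TW_l1237 _)))
       (CovZ.n1 (-1856, -3136) (by decide +kernel)
        (CovZ.n2 (-1792, -3136) (by decide +kernel)
         (CovZ.leaf K2_ok TW_l1238 _)
         (CovZ.leaf K2_ok TW_l1239 _))
        (CovZ.n1 (-1856, -3200) (by decide +kernel)
         (CovZ.leaf K2_ok TW_l1240 _)
         (CovZ.leaf K2_ok TW_l1241 _))))))))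

theorem TW_s6_4 : SqZ TW_M TW_L [0, 7, 4, 3] (-4608) (-5632) 512 6 4 :=
  SqZ.mk (a := (-1536)) (b := (-1024)) (c := (-3584)) (d := (-3072)) (by norm_num) (by norm_num) (by norm_num) (by norm_num)
    (CovZ.topM TW_LL 30 (by decide +kernel) (CovZ.n2 (-1280, -3328) (by decide +kernel)
    (CovZ.n2 (-1024, -3328) (by decide +kernel)
     (CovZ.n2 (-1152, -3456) (by decide +kernel)
      (CovZ.n2 (-1152, -3328) (by decide +kernel)
       (CovZ.n2 (-1088, -3392) (by decide +kernel)
        (CovZ.n2 (-1152, -3392) (by decide +kernel)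
         (CovZ.leaf K2_ok TW_l1680 _)
         (CovZ.leaf K2_ok TW_l1681 _))
        (CovZ.leaf K2_ok TW_l1682 _))
       (CovZ.n1 (-1216, -3392) (by decide +kernel)
        (CovZ.n2 (-1216, -3328) (by decide +kernel)
         (CovZ.leaf K2_ok TW_l1683 _)
         (CovZ.leaf K2_ok TW_l1684 _))
        (CovZ.n1 (-1152, -3392) (by decide +kernel)
         (CovZ.leaf K2_ok TW_l1685 _)
         (CovZ.leaf K2_ok TW_l1686 _))))
      (CovZ.n1 (-1024, -3456) (by decide +kernel)
       (CovZ.n2 (-1088, -3520) (by decide +kernel)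
        (CovZ.leaf K2_ok TW_l1687 _)
        (CovZ.leaf K2_ok TW_l1688 _))
       (CovZ.n1 (-1088, -3392) (by decide +kernel)
        (CovZ.leaf K2_ok TW_l1689 _)
        (CovZ.leaf K2_ok TW_l1690 _))))
     (CovZ.n1 (-1152, -3200) (by decide +kernel)
      (CovZ.n2 (-1024, -3200) (by decide +kernel)
       (CovZ.n2 (-1088, -3264) (by decide +kernel)
        (CovZ.leaf K2_ok TW_l1691 _)
        (CovZ.leaf K2_ok TW_l1692 _))
       (CovZ.n1 (-1088, -3136) (by decide +kernel)
        (CovZ.leaf K2_ok TW_l1693 _)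
        (CovZ.leaf K2_ok TW_l1694 _)))
      (CovZ.n1 (-1152, -3328) (by decide +kernel)
       (CovZ.n2 (-1216, -3264) (by decide +kernel)
        (CovZ.leaf K2_ok TW_l1695 _)
        (CovZ.leaf K2_ok TW_l1696 _))
       (CovZ.n1 (-1088, -3264) (by decide +kernel)
        (CovZ.leaf K2_ok TW_l1697 _)
        (CovZ.leaf K2_ok TW_l1698 _)))))
    (CovZ.n1 (-1280, -3584) (by decide +kernel)
     (CovZ.n2 (-1408, -3456) (by decide +kernel)
      (CovZ.n2 (-1280, -3456) (by decide +kernel)
       (CovZ.n2 (-1344, -3520) (by decide +kernel)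
        (CovZ.leaf K2_ok TW_l1699 _)
        (CovZ.n1 (-1280, -3520) (by decide +kernel)
         (CovZ.leaf K2_ok TW_l1700 _)
         (CovZ.leaf K2_ok TW_l1701 _)))
       (CovZ.n1 (-1344, -3392) (by decide +kernel)
        (CovZ.n2 (-1280, -3392) (by decide +kernel)
         (CovZ.leaf K2_ok TW_l1702 _)
         (CovZ.leaf K2_ok TW_l1703 _))
        (CovZ.n1 (-1344, -3456) (by decide +kernel)
         (CovZ.leaf K2_ok TW_l1704 _)
         (CovZ.leaf K2_ok TW_l1705 _))))
      (CovZ.n1 (-1408, -3584) (by decide +kernel)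
       (CovZ.n2 (-1472, -3520) (by decide +kernel)
        (CovZ.leaf K2_ok TW_l1706 _)
        (CovZ.leaf K2_ok TW_l1707 _))
       (CovZ.n1 (-1344, -3520) (by decide +kernel)
        (CovZ.leaf K2_ok TW_l1708 _)
        (CovZ.leaf K2_ok TW_l1709 _))))
     (CovZ.n1 (-1152, -3456) (by decide +kernel)
      (CovZ.n2 (-1152, -3584) (by decide +kernel)
       (CovZ.n2 (-1216, -3520) (by decide +kernel)
        (CovZ.n2 (-1152, -3520) (by decide +kernel)
         (CovZ.leaf K2_ok TW_l1710 _)
         (CovZ.leaf K2_ok TW_l1711 _))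
        (CovZ.leaf K2_ok TW_l1712 _))
       (CovZ.n1 (-1088, -3520) (by decide +kernel)
        (CovZ.leaf K2_ok TW_l1713 _)
        (CovZ.n1 (-1152, -3520) (by decide +kernel)
         (CovZ.leaf K2_ok TW_l1714 _)
         (CovZ.leaf K2_ok TW_l1715 _))))
      (CovZ.n1 (-1280, -3456) (by decide +kernel)
       (CovZ.n2 (-1216, -3392) (by decide +kernel)
        (CovZ.leaf K2_ok TW_l1716 _)
        (CovZ.n1 (-1280, -3392) (by decide +kernel)
         (CovZ.leaf K2_ok TW_l1717 _)
         (CovZ.leaf K2_ok TW_l1718 _)))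
       (CovZ.n1 (-1216, -3520) (by decide +kernel)
        (CovZ.n2 (-1280, -3520) (by decide +kernel)
         (CovZ.leaf K2_ok TW_l1719 _)
         (CovZ.leaf K2_ok TW_l1720 _))
        (CovZ.n1 (-1216, -3456) (by decide +kernel)
         (CovZ.leaf K2_ok TW_l1721 _)
         (CovZ.leaf K2_ok TW_l1722 _))))))))
    (CovZ.topM TW_LL 30 (by decide +kernel) (CovZ.n0 (-1280, -3328) (by decide +kernel)
    (CovZ.n2 (-1536, -3328) (by decide +kernel)
     (CovZ.n2 (-1408, -3200) (by decide +kernel)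
      (CovZ.n2 (-1408, -3328) (by decide +kernel)
       (CovZ.n2 (-1472, -3264) (by decide +kernel)
        (CovZ.n2 (-1408, -3264) (by decide +kernel)
         (CovZ.n2 (-1440, -3296) (by decide +kernel)
          (CovZ.leaf K2_ok TW_l1723 _)
          (CovZ.leaf K2_ok TW_l1724 _))
         (CovZ.leaf K2_ok TW_l1725 _))
        (CovZ.n1 (-1472, -3328) (by decide +kernel)
         (CovZ.leaf K2_ok TW_l1726 _)
         (CovZ.leaf K2_ok TW_l1727 _)))
       (CovZ.n1 (-1344, -3264) (by decide +kernel)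
        (CovZ.n2 (-1344, -3328) (by decide +kernel)
         (CovZ.leaf K2_ok TW_l1728 _)
         (CovZ.leaf K2_ok TW_l1729 _))
        (CovZ.n1 (-1408, -3264) (by decide +kernel)
         (CovZ.leaf K2_ok TW_l1730 _)
         (CovZ.leaf K2_ok TW_l1731 _))))
      (CovZ.n1 (-1536, -3200) (by decide +kernel)
       (CovZ.n2 (-1472, -3136) (by decide +kernel)
        (CovZ.n2 (-1472, -3200) (by decide +kernel)
         (CovZ.leaf K2_ok TW_l1732 _)
         (CovZ.leaf K2_ok TW_l1733 _))
        (CovZ.n1 (-1536, -3136) (by decide +kernel)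
         (CovZ.leaf K2_ok TW_l1734 _)
         (CovZ.leaf K2_ok TW_l1735 _)))
       (CovZ.n1 (-1472, -3264) (by decide +kernel)
        (CovZ.n2 (-1536, -3264) (by decide +kernel)
         (CovZ.leaf K2_ok TW_l1736 _)
         (CovZ.leaf K2_ok TW_l1737 _))
        (CovZ.n1 (-1472, -3200) (by decide +kernel)
         (CovZ.leaf K2_ok TW_l1738 _)
         (CovZ.leaf K2_ok TW_l1739 _)))))
     (CovZ.n1 (-1408, -3456) (by decide +kernel)
      (CovZ.n2 (-1536, -3456) (by decide +kernel)
       (CovZ.n2 (-1472, -3392) (by decide +kernel)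
        (CovZ.leaf K2_ok TW_l1740 _)
        (CovZ.n1 (-1536, -3392) (by decide +kernel)
         (CovZ.leaf K2_ok TW_l1741 _)
         (CovZ.leaf K2_ok TW_l1742 _)))
       (CovZ.n1 (-1472, -3520) (by decide +kernel)
        (CovZ.leaf K2_ok TW_l1743 _)
        (CovZ.leaf K2_ok TW_l1744 _)))
      (CovZ.n1 (-1408, -3328) (by decide +kernel)
       (CovZ.n2 (-1344, -3392) (by decide +kernel)
        (CovZ.n2 (-1408, -3392) (by decide +kernel)
         (CovZ.leaf K2_ok TW_l1745 _)
         (CovZ.leaf K2_ok TW_l1746 _))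
        (CovZ.n1 (-1344, -3328) (by decide +kernel)
         (CovZ.leaf K2_ok TW_l1747 _)
         (CovZ.leaf K2_ok TW_l1748 _)))
       (CovZ.n1 (-1472, -3392) (by decide +kernel)
        (CovZ.n2 (-1472, -3328) (by decide +kernel)
         (CovZ.leaf K2_ok TW_l1749 _)
         (CovZ.leaf K2_ok TW_l1750 _))
        (CovZ.n1 (-1408, -3392) (by decide +kernel)
         (CovZ.leaf K2_ok TW_l1751 _)
         (CovZ.leaf K2_ok TW_l1752 _))))))
    (CovZ.n1 (-1280, -3072) (by decide +kernel)
     (CovZ.n2 (-1152, -3200) (by decide +kernel)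
      (CovZ.n2 (-1280, -3200) (by decide +kernel)
       (CovZ.n2 (-1216, -3136) (by decide +kernel)
        (CovZ.leaf K2_ok TW_l1753 _)
        (CovZ.n1 (-1280, -3136) (by decide +kernel)
         (CovZ.leaf K2_ok TW_l1754 _)
         (CovZ.leaf K2_ok TW_l1755 _)))
       (CovZ.n1 (-1216, -3264) (by decide +kernel)
        (CovZ.n2 (-1280, -3264) (by decide +kernel)
         (CovZ.leaf K2_ok TW_l1756 _)
         (CovZ.leaf K2_ok TW_l1757 _))
        (CovZ.leaf K2_ok TW_l1758 _)))
      (CovZ.n1 (-1152, -3072) (by decide +kernel)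
       (CovZ.n2 (-1088, -3136) (by decide +kernel)
        (CovZ.leaf K2_ok TW_l1759 _)
        (CovZ.leaf K2_ok TW_l1760 _))
       (CovZ.n1 (-1216, -3136) (by decide +kernel)
        (CovZ.leaf K2_ok TW_l1761 _)
        (CovZ.leaf K2_ok TW_l1762 _))))
     (CovZ.n1 (-1408, -3200) (by decide +kernel)
      (CovZ.n2 (-1408, -3072) (by decide +kernel)
       (CovZ.n2 (-1344, -3136) (by decide +kernel)
        (CovZ.n2 (-1408, -3136) (by decide +kernel)
         (CovZ.leaf K2_ok TW_l1763 _)
         (CovZ.leaf K2_ok TW_l1764 _))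
        (CovZ.n1 (-1344, -3072) (by decide +kernel)
         (CovZ.leaf K2_ok TW_l1765 _)
         (CovZ.leaf K2_ok TW_l1766 _)))
       (CovZ.n1 (-1472, -3136) (by decide +kernel)
        (CovZ.n2 (-1472, -3072) (by decide +kernel)
         (CovZ.leaf K2_ok TW_l1767 _)
         (CovZ.leaf K2_ok TW_l1768 _))
        (CovZ.n1 (-1408, -3136) (by decide +kernel)
         (CovZ.n2 (-1440, -3168) (by decide +kernel)
          (CovZ.leaf K2_ok TW_l1769 _)
          (CovZ.leaf K2_ok TW_l1770 _))
         (CovZ.leaf K2_ok TW_l1771 _))))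
      (CovZ.n1 (-1280, -3200) (by decide +kernel)
       (CovZ.n2 (-1344, -3264) (by decide +kernel)
        (CovZ.n2 (-1344, -3200) (by decide +kernel)
         (CovZ.leaf K2_ok TW_l1772 _)
         (CovZ.n1 (-1376, -3232) (by decide +kernel)
          (CovZ.leaf K2_ok TW_l1773 _)
          (CovZ.leaf K2_ok TW_l1774 _)))
        (CovZ.n1 (-1280, -3264) (by decide +kernel)
         (CovZ.leaf K2_ok TW_l1775 _)
         (CovZ.leaf K2_ok TW_l1776 _)))
       (CovZ.n1 (-1344, -3136) (by decide +kernel)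
        (CovZ.n2 (-1280, -3136) (by decide +kernel)
         (CovZ.leaf K2_ok TW_l1777 _)
         (CovZ.leaf K2_ok TW_l1778 _))
        (CovZ.leaf K2_ok TW_l1779 _)))))))

theorem TW_s7_4 : SqZ TW_M TW_L [0, 7, 4, 3] (-4608) (-5632) 512 7 4 :=
  SqZ.mk (a := (-1024)) (b := (-512)) (c := (-3584)) (d := (-3072)) (by norm_num) (by norm_num) (by norm_num) (by norm_num)
    (CovZ.topM TW_LL 20 (by decide +kernel) (CovZ.n2 (-768, -3328) (by decide +kernel)
    (CovZ.n2 (-512, -3328) (by decide +kernel)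
     (CovZ.n2 (-640, -3456) (by decide +kernel)
      (CovZ.n2 (-640, -3328) (by decide +kernel)
       (CovZ.leaf K2_ok TW_l2106 _)
       (CovZ.n1 (-704, -3392) (by decide +kernel)
        (CovZ.leaf K2_ok TW_l2107 _)
        (CovZ.leaf K2_ok TW_l2108 _)))
      (CovZ.n1 (-512, -3456) (by decide +kernel)
       (CovZ.n2 (-576, -3520) (by decide +kernel)
        (CovZ.leaf K2_ok TW_l2109 _)
        (CovZ.leaf K2_ok TW_l2110 _))
       (CovZ.leaf K2_ok TW_l2111 _)))
     (CovZ.n1 (-640, -3200) (by decide +kernel)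
      (CovZ.n2 (-512, -3200) (by decide +kernel)
       (CovZ.leaf K2_ok TW_l2112 _)
       (CovZ.leaf K2_ok TW_l2113 _))
      (CovZ.n1 (-640, -3328) (by decide +kernel)
       (CovZ.leaf K2_ok TW_l2114 _)
       (CovZ.leaf K2_ok TW_l2115 _))))
    (CovZ.n1 (-768, -3584) (by decide +kernel)
     (CovZ.n2 (-896, -3456) (by decide +kernel)
      (CovZ.n2 (-768, -3456) (by decide +kernel)
       (CovZ.n2 (-832, -3520) (by decide +kernel)
        (CovZ.leaf K2_ok TW_l2116 _)
        (CovZ.leaf K2_ok TW_l2117 _))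
       (CovZ.leaf K2_ok TW_l2118 _))
      (CovZ.n1 (-896, -3584) (by decide +kernel)
       (CovZ.n2 (-960, -3520) (by decide +kernel)
        (CovZ.leaf K2_ok TW_l2119 _)
        (CovZ.leaf K2_ok TW_l2120 _))
       (CovZ.n1 (-832, -3520) (by decide +kernel)
        (CovZ.leaf K2_ok TW_l2121 _)
        (CovZ.leaf K2_ok TW_l2122 _))))
     (CovZ.n1 (-640, -3456) (by decide +kernel)
      (CovZ.n2 (-640, -3584) (by decide +kernel)
       (CovZ.n2 (-704, -3520) (by decide +kernel)
        (CovZ.leaf K2_ok TW_l2123 _)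
        (CovZ.leaf K2_ok TW_l2124 _))
       (CovZ.n1 (-576, -3520) (by decide +kernel)
        (CovZ.leaf K2_ok TW_l2125 _)
        (CovZ.leaf K2_ok TW_l2126 _)))
      (CovZ.n1 (-768, -3456) (by decide +kernel)
       (CovZ.leaf K2_ok TW_l2127 _)
       (CovZ.n1 (-704, -3520) (by decide +kernel)
        (CovZ.leaf K2_ok TW_l2128 _)
        (CovZ.leaf K2_ok TW_l2129 _)))))))
    (CovZ.topM TW_LL 22 (by decide +kernel) (CovZ.n0 (-768, -3328) (by decide +kernel)
    (CovZ.n2 (-1024, -3328) (by decide +kernel)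
     (CovZ.n2 (-896, -3200) (by decide +kernel)
      (CovZ.n2 (-896, -3328) (by decide +kernel)
       (CovZ.leaf K2_ok TW_l2130 _)
       (CovZ.leaf K2_ok TW_l2131 _))
      (CovZ.n1 (-1024, -3200) (by decide +kernel)
       (CovZ.leaf K2_ok TW_l2132 _)
       (CovZ.n1 (-960, -3264) (by decide +kernel)
        (CovZ.leaf K2_ok TW_l2133 _)
        (CovZ.leaf K2_ok TW_l2134 _))))
     (CovZ.n1 (-896, -3456) (by decide +kernel)
      (CovZ.n2 (-1024, -3456) (by decide +kernel)
       (CovZ.leaf K2_ok TW_l2135 _)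
       (CovZ.n1 (-960, -3520) (by decide +kernel)
        (CovZ.leaf K2_ok TW_l2136 _)
        (CovZ.leaf K2_ok TW_l2137 _)))
      (CovZ.n1 (-896, -3328) (by decide +kernel)
       (CovZ.leaf K2_ok TW_l2138 _)
       (CovZ.n1 (-960, -3392) (by decide +kernel)
        (CovZ.leaf K2_ok TW_l2139 _)
        (CovZ.leaf K2_ok TW_l2140 _)))))
    (CovZ.n1 (-768, -3072) (by decide +kernel)
     (CovZ.n2 (-640, -3200) (by decide +kernel)
      (CovZ.n2 (-768, -3200) (by decide +kernel)
       (CovZ.leaf K2_ok TW_l2141 _)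
       (CovZ.leaf K2_ok TW_l2142 _))
      (CovZ.n1 (-640, -3072) (by decide +kernel)
       (CovZ.leaf K2_ok TW_l2143 _)
       (CovZ.leaf K2_ok TW_l2144 _)))
     (CovZ.n1 (-896, -3200) (by decide +kernel)
      (CovZ.n2 (-896, -3072) (by decide +kernel)
       (CovZ.leaf K2_ok TW_l2145 _)
       (CovZ.n1 (-960, -3136) (by decide +kernel)
        (CovZ.leaf K2_ok TW_l2146 _)
        (CovZ.leaf K2_ok TW_l2147 _)))
      (CovZ.n1 (-768, -3200) (by decide +kernel)
       (CovZ.n2 (-832, -3264) (by decide +kernel)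
        (CovZ.leaf K2_ok TW_l2148 _)
        (CovZ.leaf K2_ok TW_l2149 _))
       (CovZ.leaf K2_ok TW_l2150 _))))))

theorem TW_s8_4 : SqZ TW_M TW_L [0, 7, 4, 3] (-4608) (-5632) 512 8 4 :=
  SqZ.mk (a := (-512)) (b := 0) (c := (-3584)) (d := (-3072)) (by norm_num) (by norm_num) (by norm_num) (by norm_num)
    (CovZ.topM TW_LL 4 (by decide +kernel) (CovZ.n2 (-256, -3328) (by decide +kernel)
    (CovZ.n2 (0, -3328) (by decide +kernel)
     (CovZ.n2 (-128, -3456) (by decide +kernel)
      (CovZ.n2 (-128, -3328) (by decide +kernel)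
       (CovZ.n2 (-64, -3392) (by decide +kernel)
        (CovZ.leaf K2_ok TW_l2360 _)
        (CovZ.leaf K2_ok TW_l2361 _))
       (CovZ.n1 (-192, -3392) (by decide +kernel)
        (CovZ.leaf K2_ok TW_l2362 _)
        (CovZ.leaf K2_ok TW_l2363 _)))
      (CovZ.n1 (0, -3456) (by decide +kernel)
       (CovZ.n2 (-64, -3520) (by decide +kernel)
        (CovZ.n2 (-64, -3456) (by decide +kernel)
         (CovZ.badM (by decide +kernel))
         (CovZ.n1 (-96, -3488) (by decide +kernel)
          (CovZ.leaf K2_ok TW_l3928 _)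
          (CovZ.badM (by decide +kernel))))
        (CovZ.badM (by decide +kernel)))
       (CovZ.n1 (-64, -3392) (by decide +kernel)
        (CovZ.badM (by decide +kernel))
        (CovZ.n1 (-64, -3456) (by decide +kernel)
         (CovZ.leaf K2_ok TW_l3929 _)
         (CovZ.badM (by decide +kernel))))))
     (CovZ.n1 (-128, -3200) (by decide +kernel)
      (CovZ.n2 (0, -3200) (by decide +kernel)
       (CovZ.n2 (-64, -3264) (by decide +kernel)
        (CovZ.leaf K2_ok TW_l2364 _)
        (CovZ.leaf K2_ok TW_l2365 _))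
       (CovZ.leaf K2_ok TW_l2366 _))
      (CovZ.n1 (-128, -3328) (by decide +kernel)
       (CovZ.leaf K2_ok TW_l2367 _)
       (CovZ.leaf K2_ok TW_l2368 _))))
    (CovZ.n1 (-256, -3584) (by decide +kernel)
     (CovZ.n2 (-384, -3456) (by decide +kernel)
      (CovZ.n2 (-256, -3456) (by decide +kernel)
       (CovZ.n2 (-320, -3520) (by decide +kernel)
        (CovZ.leaf K2_ok TW_l2369 _)
        (CovZ.n1 (-256, -3520) (by decide +kernel)
         (CovZ.leaf K2_ok TW_l2370 _)
         (CovZ.leaf K2_ok TW_l2371 _)))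
       (CovZ.leaf K2_ok TW_l2372 _))
      (CovZ.n1 (-384, -3584) (by decide +kernel)
       (CovZ.n2 (-448, -3520) (by decide +kernel)
        (CovZ.leaf K2_ok TW_l2373 _)
        (CovZ.leaf K2_ok TW_l2374 _))
       (CovZ.n1 (-320, -3520) (by decide +kernel)
        (CovZ.leaf K2_ok TW_l2375 _)
        (CovZ.leaf K2_ok TW_l2376 _))))
     (CovZ.n1 (-128, -3456) (by decide +kernel)
      (CovZ.n2 (-128, -3584) (by decide +kernel)
       (CovZ.n2 (-192, -3520) (by decide +kernel)
        (CovZ.n2 (-128, -3520) (by decide +kernel)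
         (CovZ.n2 (-160, -3552) (by decide +kernel)
          (CovZ.leaf K2_ok TW_l2377 _)
          (CovZ.badM (by decide +kernel)))
         (CovZ.leaf K2_ok TW_l2378 _))
        (CovZ.n1 (-192, -3584) (by decide +kernel)
         (CovZ.leaf K2_ok TW_l2379 _)
         (CovZ.leaf K2_ok TW_l2380 _)))
       (CovZ.n1 (-64, -3520) (by decide +kernel)
        (CovZ.badM (by decide +kernel))
        (CovZ.n1 (-128, -3520) (by decide +kernel)
         (CovZ.leaf K2_ok TW_l3930 _)
         (CovZ.badM (by decide +kernel)))))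
      (CovZ.n1 (-256, -3456) (by decide +kernel)
       (CovZ.leaf K2_ok TW_l2381 _)
       (CovZ.n1 (-192, -3520) (by decide +kernel)
        (CovZ.leaf K2_ok TW_l2382 _)
        (CovZ.n1 (-192, -3456) (by decide +kernel)
         (CovZ.leaf K2_ok TW_l2383 _)
         (CovZ.leaf K2_ok TW_l2384 _))))))))
    (CovZ.topM TW_LL 20 (by decide +kernel) (CovZ.n0 (-256, -3328) (by decide +kernel)
    (CovZ.n2 (-512, -3328) (by decide +kernel)
     (CovZ.n2 (-384, -3200) (by decide +kernel)
      (CovZ.n2 (-384, -3328) (by decide +kernel)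
       (CovZ.leaf K2_ok TW_l2385 _)
       (CovZ.leaf K2_ok TW_l2386 _))
      (CovZ.n1 (-512, -3200) (by decide +kernel)
       (CovZ.leaf K2_ok TW_l2387 _)
       (CovZ.leaf K2_ok TW_l2388 _)))
     (CovZ.n1 (-384, -3456) (by decide +kernel)
      (CovZ.n2 (-512, -3456) (by decide +kernel)
       (CovZ.leaf K2_ok TW_l2389 _)
       (CovZ.n1 (-448, -3520) (by decide +kernel)
        (CovZ.leaf K2_ok TW_l2390 _)
        (CovZ.leaf K2_ok TW_l2391 _)))
      (CovZ.n1 (-384, -3328) (by decide +kernel)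
       (CovZ.n2 (-320, -3392) (by decide +kernel)
        (CovZ.leaf K2_ok TW_l2392 _)
        (CovZ.leaf K2_ok TW_l2393 _))
       (CovZ.n1 (-448, -3392) (by decide +kernel)
        (CovZ.leaf K2_ok TW_l2394 _)
        (CovZ.leaf K2_ok TW_l2395 _)))))
    (CovZ.n1 (-256, -3072) (by decide +kernel)
     (CovZ.n2 (-128, -3200) (by decide +kernel)
      (CovZ.n2 (-256, -3200) (by decide +kernel)
       (CovZ.leaf K2_ok TW_l2396 _)
       (CovZ.leaf K2_ok TW_l2397 _))
      (CovZ.n1 (-128, -3072) (by decide +kernel)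
       (CovZ.leaf K2_ok TW_l2398 _)
       (CovZ.leaf K2_ok TW_l2399 _)))
     (CovZ.n1 (-384, -3200) (by decide +kernel)
      (CovZ.n2 (-384, -3072) (by decide +kernel)
       (CovZ.leaf K2_ok TW_l2400 _)
       (CovZ.leaf K2_ok TW_l2401 _))
      (CovZ.n1 (-256, -3200) (by decide +kernel)
       (CovZ.n2 (-320, -3264) (by decide +kernel)
        (CovZ.leaf K2_ok TW_l2402 _)
        (CovZ.leaf K2_ok TW_l2403 _))
       (CovZ.leaf K2_ok TW_l2404 _))))))

theorem TW_s9_4 : SqZ TW_M TW_L [0, 7, 4, 3] (-4608) (-5632) 512 9 4 :=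
  SqZ.mk (a := 0) (b := 512) (c := (-3584)) (d := (-3072)) (by norm_num) (by norm_num) (by norm_num) (by norm_num)
    (CovZ.topM TW_LL 0 (by decide +kernel) (CovZ.badM (by decide +kernel)))
    (CovZ.topM TW_LL 4 (by decide +kernel) (CovZ.n0 (256, -3328) (by decide +kernel)
    (CovZ.n2 (0, -3328) (by decide +kernel)
     (CovZ.n2 (128, -3200) (by decide +kernel)
      (CovZ.badM (by decide +kernel))
      (CovZ.n1 (0, -3200) (by decide +kernel)
       (CovZ.leaf K2_ok TW_l2486 _)
       (CovZ.n1 (64, -3264) (by decide +kernel)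
        (CovZ.leaf K2_ok TW_l3973 _)
        (CovZ.leaf K2_ok TW_l3974 _))))
     (CovZ.badM (by decide +kernel)))
    (CovZ.n1 (256, -3072) (by decide +kernel)
     (CovZ.badM (by decide +kernel))
     (CovZ.n1 (128, -3200) (by decide +kernel)
      (CovZ.n2 (128, -3072) (by decide +kernel)
       (CovZ.n2 (192, -3136) (by decide +kernel)
        (CovZ.leaf K2_ok TW_l3975 _)
        (CovZ.n1 (192, -3072) (by decide +kernel)
         (CovZ.badM (by decide +kernel))
         (CovZ.leaf K2_ok TW_l3976 _)))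
       (CovZ.n1 (64, -3136) (by decide +kernel)
        (CovZ.leaf K2_ok TW_l2487 _)
        (CovZ.leaf K2_ok TW_l3977 _)))
      (CovZ.badM (by decide +kernel))))))

theorem TW_s10_4 : SqZ TW_M TW_L [0, 7, 4, 3] (-4608) (-5632) 512 10 4 :=
  SqZ.mk (a := 512) (b := 1024) (c := (-3584)) (d := (-3072)) (by norm_num) (by norm_num) (by norm_num) (by norm_num)
    (CovZ.topM TW_LL 0 (by decide +kernel) (CovZ.badM (by decide +kernel)))
    (CovZ.topM TW_LL 0 (by decide +kernel) (CovZ.badM (by decide +kernel)))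

theorem TW_s11_4 : SqZ TW_M TW_L [0, 7, 4, 3] (-4608) (-5632) 512 11 4 :=
  SqZ.mk (a := 1024) (b := 1536) (c := (-3584)) (d := (-3072)) (by norm_num) (by norm_num) (by norm_num) (by norm_num)
    (CovZ.topM TW_LL 0 (by decide +kernel) (CovZ.badM (by decide +kernel)))
    (CovZ.topM TW_LL 0 (by decide +kernel) (CovZ.badM (by decide +kernel)))

theorem TW_s12_4 : SqZ TW_M TW_L [0, 7, 4, 3] (-4608) (-5632) 512 12 4 :=
  SqZ.mk (a := 1536) (b := 2048) (c := (-3584)) (d := (-3072)) (by norm_num) (by norm_num) (by norm_num) (by norm_num)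
    (CovZ.topM TW_LL 0 (by decide +kernel) (CovZ.badM (by decide +kernel)))
    (CovZ.topM TW_LL 0 (by decide +kernel) (CovZ.badM (by decide +kernel)))

theorem TW_s13_4 : SqZ TW_M TW_L [0, 7, 4, 3] (-4608) (-5632) 512 13 4 :=
  SqZ.mk (a := 2048) (b := 2560) (c := (-3584)) (d := (-3072)) (by norm_num) (by norm_num) (by norm_num) (by norm_num)
    (CovZ.topM TW_LL 0 (by decide +kernel) (CovZ.badM (by decide +kernel)))
    (CovZ.topM TW_LL 0 (by decide +kernel) (CovZ.badM (by decide +kernel)))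

theorem TW_s14_4 : SqZ TW_M TW_L [0, 7, 4, 3] (-4608) (-5632) 512 14 4 :=
  SqZ.mk (a := 2560) (b := 3072) (c := (-3584)) (d := (-3072)) (by norm_num) (by norm_num) (by norm_num) (by norm_num)
    (CovZ.topM TW_LL 0 (by decide +kernel) (CovZ.badM (by decide +kernel)))
    (CovZ.topM TW_LL 0 (by decide +kernel) (CovZ.badM (by decide +kernel)))

theorem TW_s15_4 : SqZ TW_M TW_L [0, 7, 4, 3] (-4608) (-5632) 512 15 4 :=
  SqZ.mk (a := 3072) (b := 3584) (c := (-3584)) (d := (-3072)) (by norm_num) (by norm_num) (by norm_num) (by norm_num)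
    (CovZ.topM TW_LL 0 (by decide +kernel) (CovZ.badM (by decide +kernel)))
    (CovZ.topM TW_LL 0 (by decide +kernel) (CovZ.badM (by decide +kernel)))

theorem TW_s16_4 : SqZ TW_M TW_L [0, 7, 4, 3] (-4608) (-5632) 512 16 4 :=
  SqZ.mk (a := 3584) (b := 4096) (c := (-3584)) (d := (-3072)) (by norm_num) (by norm_num) (by norm_num) (by norm_num)
    (CovZ.topM TW_LL 0 (by decide +kernel) (CovZ.badM (by decide +kernel)))
    (CovZ.topM TW_LL 0 (by decide +kernel) (CovZ.badM (by decide +kernel)))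

theorem TW_s0_5 : SqZ TW_M TW_L [0, 7, 4, 3] (-4608) (-5632) 512 0 5 :=
  SqZ.mk (a := (-4608)) (b := (-4096)) (c := (-3072)) (d := (-2560)) (by norm_num) (by norm_num) (by norm_num) (by norm_num)
    (CovZ.topM TW_LL 0 (by decide +kernel) (CovZ.badM (by decide +kernel)))
    (CovZ.topM TW_LL 0 (by decide +kernel) (CovZ.badM (by decide +kernel)))

theorem TW_s1_5 : SqZ TW_M TW_L [0, 7, 4, 3] (-4608) (-5632) 512 1 5 :=
  SqZ.mk (a := (-4096)) (b := (-3584)) (c := (-3072)) (d := (-2560)) (by norm_num) (by norm_num) (by norm_num) (by norm_num)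
    (CovZ.topM TW_LL 2 (by decide +kernel) (CovZ.n2 (-3840, -2816) (by decide +kernel)
    (CovZ.n2 (-3584, -2816) (by decide +kernel)
     (CovZ.n2 (-3712, -2944) (by decide +kernel)
      (CovZ.badM (by decide +kernel))
      (CovZ.n1 (-3584, -2944) (by decide +kernel)
       (CovZ.leaf K2_ok TW_l160 _)
       (CovZ.leaf K2_ok TW_l2799 _)))
     (CovZ.badM (by decide +kernel)))
    (CovZ.n1 (-3840, -3072) (by decide +kernel)
     (CovZ.badM (by decide +kernel))
     (CovZ.n1 (-3712, -2944) (by decide +kernel)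
      (CovZ.n2 (-3712, -3072) (by decide +kernel)
       (CovZ.badM (by decide +kernel))
       (CovZ.leaf K2_ok TW_l161 _))
      (CovZ.badM (by decide +kernel))))))
    (CovZ.topM TW_LL 0 (by decide +kernel) (CovZ.badM (by decide +kernel)))

theorem TW_s2_5 : SqZ TW_M TW_L [0, 7, 4, 3] (-4608) (-5632) 512 2 5 :=
  SqZ.mk (a := (-3584)) (b := (-3072)) (c := (-3072)) (d := (-2560)) (by norm_num) (by norm_num) (by norm_num) (by norm_num)
    (CovZ.topM TW_LL 2 (by decide +kernel) (CovZ.n2 (-3328, -2816) (by decide +kernel)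
    (CovZ.n2 (-3072, -2816) (by decide +kernel)
     (CovZ.leaf K2_ok TW_l287 _)
     (CovZ.n1 (-3200, -2688) (by decide +kernel)
      (CovZ.leaf K2_ok TW_l288 _)
      (CovZ.leaf K2_ok TW_l289 _)))
    (CovZ.n1 (-3328, -3072) (by decide +kernel)
     (CovZ.n2 (-3456, -2944) (by decide +kernel)
      (CovZ.leaf K2_ok TW_l290 _)
      (CovZ.leaf K2_ok TW_l291 _))
     (CovZ.leaf K2_ok TW_l292 _))))
    (CovZ.topM TW_LL 2 (by decide +kernel) (CovZ.n0 (-3328, -2816) (by decide +kernel)
    (CovZ.n2 (-3584, -2816) (by decide +kernel)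
     (CovZ.n2 (-3456, -2688) (by decide +kernel)
      (CovZ.n2 (-3456, -2816) (by decide +kernel)
       (CovZ.leaf K2_ok TW_l2818 _)
       (CovZ.leaf K2_ok TW_l293 _))
      (CovZ.badM (by decide +kernel)))
     (CovZ.n1 (-3456, -2944) (by decide +kernel)
      (CovZ.leaf K2_ok TW_l294 _)
      (CovZ.leaf K2_ok TW_l295 _)))
    (CovZ.n1 (-3328, -2560) (by decide +kernel)
     (CovZ.n2 (-3200, -2688) (by decide +kernel)
      (CovZ.leaf K2_ok TW_l296 _)
      (CovZ.n1 (-3200, -2560) (by decide +kernel)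
       (CovZ.leaf K2_ok TW_l297 _)
       (CovZ.leaf K2_ok TW_l298 _)))
     (CovZ.n1 (-3456, -2688) (by decide +kernel)
      (CovZ.badM (by decide +kernel))
      (CovZ.n1 (-3328, -2688) (by decide +kernel)
       (CovZ.leaf K2_ok TW_l300 _)
       (CovZ.leaf K2_ok TW_l301 _))))))

theorem TW_s3_5 : SqZ TW_M TW_L [0, 7, 4, 3] (-4608) (-5632) 512 3 5 :=
  SqZ.mk (a := (-3072)) (b := (-2560)) (c := (-3072)) (d := (-2560)) (by norm_num) (by norm_num) (by norm_num) (by norm_num)
    (CovZ.topM TW_LL 18 (by decide +kernel) (CovZ.n2 (-2816, -2816) (by decide +kernel)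
    (CovZ.n2 (-2560, -2816) (by decide +kernel)
     (CovZ.leaf K2_ok TW_l568 _)
     (CovZ.leaf K2_ok TW_l569 _))
    (CovZ.leaf K2_ok TW_l570 _)))
    (CovZ.topM TW_LL 18 (by decide +kernel) (CovZ.n0 (-2816, -2816) (by decide +kernel)
    (CovZ.leaf K2_ok TW_l571 _)
    (CovZ.n1 (-2816, -2560) (by decide +kernel)
     (CovZ.leaf K2_ok TW_l572 _)
     (CovZ.leaf K2_ok TW_l573 _))))

theorem TW_s4_5 : SqZ TW_M TW_L [0, 7, 4, 3] (-4608) (-5632) 512 4 5 :=
  SqZ.mk (a := (-2560)) (b := (-2048)) (c := (-3072)) (d := (-2560)) (by norm_num) (by norm_num) (by norm_num) (by norm_num)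
    (CovZ.topM TW_LL 30 (by decide +kernel) (CovZ.n2 (-2304, -2816) (by decide +kernel)
    (CovZ.n2 (-2048, -2816) (by decide +kernel)
     (CovZ.n2 (-2176, -2944) (by decide +kernel)
      (CovZ.n2 (-2176, -2816) (by decide +kernel)
       (CovZ.n2 (-2112, -2880) (by decide +kernel)
        (CovZ.n2 (-2176, -2880) (by decide +kernel)
         (CovZ.leaf K2_ok TW_l910 _)
         (CovZ.n1 (-2144, -2912) (by decide +kernel)
          (CovZ.leaf K2_ok TW_l911 _)
          (CovZ.leaf K2_ok TW_l912 _)))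
        (CovZ.n1 (-2112, -2816) (by decide +kernel)
         (CovZ.n2 (-2080, -2848) (by decide +kernel)
          (CovZ.leaf K2_ok TW_l913 _)
          (CovZ.leaf K2_ok TW_l914 _))
         (CovZ.leaf K2_ok TW_l915 _)))
       (CovZ.n1 (-2240, -2880) (by decide +kernel)
        (CovZ.leaf K2_ok TW_l916 _)
        (CovZ.n1 (-2176, -2880) (by decide +kernel)
         (CovZ.n2 (-2208, -2912) (by decide +kernel)
          (CovZ.leaf K2_ok TW_l917 _)
          (CovZ.n1 (-2176, -2912) (by decide +kernel)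
           (CovZ.leaf K2_ok TW_l918 _)
           (CovZ.leaf K2_ok TW_l919 _)))
         (CovZ.leaf K2_ok TW_l920 _))))
      (CovZ.n1 (-2048, -2944) (by decide +kernel)
       (CovZ.n2 (-2112, -3008) (by decide +kernel)
        (CovZ.n2 (-2112, -2944) (by decide +kernel)
         (CovZ.n2 (-2080, -2976) (by decide +kernel)
          (CovZ.leaf K2_ok TW_l921 _)
          (CovZ.leaf K2_ok TW_l922 _))
         (CovZ.n1 (-2144, -2976) (by decide +kernel)
          (CovZ.leaf K2_ok TW_l923 _)
          (CovZ.n1 (-2112, -2976) (by decide +kernel)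
           (CovZ.leaf K2_ok TW_l924 _)
           (CovZ.leaf K2_ok TW_l925 _))))
        (CovZ.n1 (-2048, -3008) (by decide +kernel)
         (CovZ.n2 (-2080, -3040) (by decide +kernel)
          (CovZ.leaf K2_ok TW_l926 _)
          (CovZ.leaf K2_ok TW_l927 _))
         (CovZ.n1 (-2080, -2976) (by decide +kernel)
          (CovZ.leaf K2_ok TW_l928 _)
          (CovZ.leaf K2_ok TW_l929 _))))
       (CovZ.n1 (-2112, -2880) (by decide +kernel)
        (CovZ.n2 (-2048, -2880) (by decide +kernel)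
         (CovZ.n2 (-2080, -2912) (by decide +kernel)
          (CovZ.leaf K2_ok TW_l930 _)
          (CovZ.leaf K2_ok TW_l931 _))
         (CovZ.n1 (-2080, -2848) (by decide +kernel)
          (CovZ.leaf K2_ok TW_l932 _)
          (CovZ.leaf K2_ok TW_l933 _)))
        (CovZ.n1 (-2112, -2944) (by decide +kernel)
         (CovZ.n2 (-2144, -2912) (by decide +kernel)
          (CovZ.n2 (-2112, -2912) (by decide +kernel)
           (CovZ.leaf K2_ok TW_l934 _)
           (CovZ.leaf K2_ok TW_l935 _))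
          (CovZ.leaf K2_ok TW_l936 _))
         (CovZ.leaf K2_ok TW_l937 _)))))
     (CovZ.n1 (-2176, -2688) (by decide +kernel)
      (CovZ.n2 (-2048, -2688) (by decide +kernel)
       (CovZ.n2 (-2112, -2752) (by decide +kernel)
        (CovZ.leaf K2_ok TW_l938 _)
        (CovZ.n1 (-2048, -2752) (by decide +kernel)
         (CovZ.leaf K2_ok TW_l939 _)
         (CovZ.leaf K2_ok TW_l940 _)))
       (CovZ.leaf K2_ok TW_l941 _))
      (CovZ.n1 (-2176, -2816) (by decide +kernel)
       (CovZ.leaf K2_ok TW_l942 _)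
       (CovZ.n1 (-2112, -2752) (by decide +kernel)
        (CovZ.leaf K2_ok TW_l943 _)
        (CovZ.leaf K2_ok TW_l944 _)))))
    (CovZ.n1 (-2304, -3072) (by decide +kernel)
     (CovZ.n2 (-2432, -2944) (by decide +kernel)
      (CovZ.n2 (-2304, -2944) (by decide +kernel)
       (CovZ.n2 (-2368, -3008) (by decide +kernel)
        (CovZ.leaf K2_ok TW_l945 _)
        (CovZ.n1 (-2304, -3008) (by decide +kernel)
         (CovZ.leaf K2_ok TW_l946 _)
         (CovZ.leaf K2_ok TW_l947 _)))
       (CovZ.leaf K2_ok TW_l948 _))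
      (CovZ.n1 (-2432, -3072) (by decide +kernel)
       (CovZ.leaf K2_ok TW_l949 _)
       (CovZ.leaf K2_ok TW_l950 _)))
     (CovZ.n1 (-2176, -2944) (by decide +kernel)
      (CovZ.n2 (-2176, -3072) (by decide +kernel)
       (CovZ.n2 (-2240, -3008) (by decide +kernel)
        (CovZ.n2 (-2176, -3008) (by decide +kernel)
         (CovZ.n2 (-2208, -3040) (by decide +kernel)
          (CovZ.leaf K2_ok TW_l951 _)
          (CovZ.n1 (-2176, -3040) (by decide +kernel)
           (CovZ.leaf K2_ok TW_l952 _)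
           (CovZ.leaf K2_ok TW_l953 _)))
         (CovZ.n1 (-2208, -2976) (by decide +kernel)
          (CovZ.n2 (-2176, -2976) (by decide +kernel)
           (CovZ.leaf K2_ok TW_l954 _)
           (CovZ.leaf K2_ok TW_l955 _))
          (CovZ.leaf K2_ok TW_l956 _)))
        (CovZ.n1 (-2240, -3072) (by decide +kernel)
         (CovZ.n2 (-2272, -3040) (by decide +kernel)
          (CovZ.n2 (-2240, -3040) (by decide +kernel)
           (CovZ.leaf K2_ok TW_l957 _)
           (CovZ.leaf K2_ok TW_l958 _))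
          (CovZ.leaf K2_ok TW_l959 _))
         (CovZ.n1 (-2208, -3040) (by decide +kernel)
          (CovZ.leaf K2_ok TW_l960 _)
          (CovZ.leaf K2_ok TW_l961 _))))
       (CovZ.n1 (-2112, -3008) (by decide +kernel)
        (CovZ.n2 (-2112, -3072) (by decide +kernel)
         (CovZ.n2 (-2144, -3040) (by decide +kernel)
          (CovZ.n2 (-2112, -3040) (by decide +kernel)
           (CovZ.leaf K2_ok TW_l962 _)
           (CovZ.leaf K2_ok TW_l963 _))
          (CovZ.leaf K2_ok TW_l964 _))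
         (CovZ.leaf K2_ok TW_l965 _))
        (CovZ.n1 (-2176, -3008) (by decide +kernel)
         (CovZ.leaf K2_ok TW_l966 _)
         (CovZ.n1 (-2144, -3040) (by decide +kernel)
          (CovZ.leaf K2_ok TW_l967 _)
          (CovZ.leaf K2_ok TW_l968 _)))))
      (CovZ.n1 (-2304, -2944) (by decide +kernel)
       (CovZ.n2 (-2240, -2880) (by decide +kernel)
        (CovZ.n2 (-2240, -2944) (by decide +kernel)
         (CovZ.leaf K2_ok TW_l969 _)
         (CovZ.n1 (-2208, -2912) (by decide +kernel)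
          (CovZ.leaf K2_ok TW_l970 _)
          (CovZ.leaf K2_ok TW_l971 _)))
        (CovZ.leaf K2_ok TW_l972 _))
       (CovZ.n1 (-2240, -3008) (by decide +kernel)
        (CovZ.n2 (-2304, -3008) (by decide +kernel)
         (CovZ.n2 (-2272, -2976) (by decide +kernel)
          (CovZ.leaf K2_ok TW_l973 _)
          (CovZ.n1 (-2304, -2976) (by decide +kernel)
           (CovZ.leaf K2_ok TW_l974 _)
           (CovZ.leaf K2_ok TW_l975 _)))
         (CovZ.n1 (-2272, -3040) (by decide +kernel)
          (CovZ.n2 (-2304, -3040) (by decide +kernel)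
           (CovZ.leaf K2_ok TW_l976 _)
           (CovZ.leaf K2_ok TW_l977 _))
          (CovZ.n1 (-2272, -3008) (by decide +kernel)
           (CovZ.leaf K2_ok TW_l978 _)
           (CovZ.leaf K2_ok TW_l979 _))))
        (CovZ.n1 (-2240, -2944) (by decide +kernel)
         (CovZ.n2 (-2208, -2976) (by decide +kernel)
          (CovZ.leaf K2_ok TW_l980 _)
          (CovZ.n1 (-2208, -2944) (by decide +kernel)
           (CovZ.leaf K2_ok TW_l981 _)
           (CovZ.leaf K2_ok TW_l982 _)))
         (CovZ.n1 (-2272, -2976) (by decide +kernel)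
          (CovZ.leaf K2_ok TW_l983 _)
          (CovZ.n1 (-2240, -2976) (by decide +kernel)
           (CovZ.leaf K2_ok TW_l984 _)
           (CovZ.leaf K2_ok TW_l985 _))))))))))
    (CovZ.topM TW_LL 26 (by decide +kernel) (CovZ.n0 (-2304, -2816) (by decide +kernel)
    (CovZ.n2 (-2560, -2816) (by decide +kernel)
     (CovZ.n2 (-2432, -2688) (by decide +kernel)
      (CovZ.leaf K2_ok TW_l986 _)
      (CovZ.leaf K2_ok TW_l987 _))
     (CovZ.n1 (-2432, -2944) (by decide +kernel)
      (CovZ.n2 (-2560, -2944) (by decide +kernel)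
       (CovZ.leaf K2_ok TW_l988 _)
       (CovZ.leaf K2_ok TW_l989 _))
      (CovZ.leaf K2_ok TW_l990 _)))
    (CovZ.n1 (-2304, -2560) (by decide +kernel)
     (CovZ.n2 (-2176, -2688) (by decide +kernel)
      (CovZ.n2 (-2304, -2688) (by decide +kernel)
       (CovZ.leaf K2_ok TW_l991 _)
       (CovZ.n1 (-2240, -2752) (by decide +kernel)
        (CovZ.leaf K2_ok TW_l992 _)
        (CovZ.leaf K2_ok TW_l993 _)))
      (CovZ.n1 (-2176, -2560) (by decide +kernel)
       (CovZ.n2 (-2112, -2624) (by decide +kernel)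
        (CovZ.leaf K2_ok TW_l994 _)
        (CovZ.leaf K2_ok TW_l995 _))
       (CovZ.leaf K2_ok TW_l996 _)))
     (CovZ.n1 (-2432, -2688) (by decide +kernel)
      (CovZ.leaf K2_ok TW_l997 _)
      (CovZ.n1 (-2304, -2688) (by decide +kernel)
       (CovZ.leaf K2_ok TW_l998 _)
       (CovZ.leaf K2_ok TW_l999 _))))))

theorem TW_s5_5 : SqZ TW_M TW_L [0, 7, 4, 3] (-4608) (-5632) 512 5 5 :=
  SqZ.mk (a := (-2048)) (b := (-1536)) (c := (-3072)) (d := (-2560)) (by norm_num) (by norm_num) (by norm_num) (by norm_num)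
    (CovZ.topM TW_LL 30 (by decide +kernel) (CovZ.n2 (-1792, -2816) (by decide +kernel)
    (CovZ.n2 (-1536, -2816) (by decide +kernel)
     (CovZ.n2 (-1664, -2944) (by decide +kernel)
      (CovZ.n2 (-1664, -2816) (by decide +kernel)
       (CovZ.n2 (-1600, -2880) (by decide +kernel)
        (CovZ.n2 (-1664, -2880) (by decide +kernel)
         (CovZ.leaf K2_ok TW_l1242 _)
         (CovZ.leaf K2_ok TW_l1243 _))
        (CovZ.n1 (-1600, -2816) (by decide +kernel)
         (CovZ.leaf K2_ok TW_l1244 _)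
         (CovZ.leaf K2_ok TW_l1245 _)))
       (CovZ.n1 (-1728, -2880) (by decide +kernel)
        (CovZ.n2 (-1728, -2816) (by decide +kernel)
         (CovZ.leaf K2_ok TW_l1246 _)
         (CovZ.leaf K2_ok TW_l1247 _))
        (CovZ.n1 (-1664, -2880) (by decide +kernel)
         (CovZ.leaf K2_ok TW_l1248 _)
         (CovZ.leaf K2_ok TW_l1249 _))))
      (CovZ.n1 (-1536, -2944) (by decide +kernel)
       (CovZ.n2 (-1600, -3008) (by decide +kernel)
        (CovZ.n2 (-1600, -2944) (by decide +kernel)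
         (CovZ.leaf K2_ok TW_l1250 _)
         (CovZ.leaf K2_ok TW_l1251 _))
        (CovZ.n1 (-1536, -3008) (by decide +kernel)
         (CovZ.leaf K2_ok TW_l1252 _)
         (CovZ.leaf K2_ok TW_l1253 _)))
       (CovZ.n1 (-1600, -2880) (by decide +kernel)
        (CovZ.n2 (-1536, -2880) (by decide +kernel)
         (CovZ.leaf K2_ok TW_l1254 _)
         (CovZ.leaf K2_ok TW_l1255 _))
        (CovZ.n1 (-1600, -2944) (by decide +kernel)
         (CovZ.leaf K2_ok TW_l1256 _)
         (CovZ.leaf K2_ok TW_l1257 _)))))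
     (CovZ.n1 (-1664, -2688) (by decide +kernel)
      (CovZ.n2 (-1536, -2688) (by decide +kernel)
       (CovZ.n2 (-1600, -2752) (by decide +kernel)
        (CovZ.n2 (-1600, -2688) (by decide +kernel)
         (CovZ.leaf K2_ok TW_l1258 _)
         (CovZ.leaf K2_ok TW_l1259 _))
        (CovZ.n1 (-1536, -2752) (by decide +kernel)
         (CovZ.leaf K2_ok TW_l1260 _)
         (CovZ.leaf K2_ok TW_l1261 _)))
       (CovZ.n1 (-1600, -2624) (by decide +kernel)
        (CovZ.n2 (-1536, -2624) (by decide +kernel)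
         (CovZ.leaf K2_ok TW_l1262 _)
         (CovZ.leaf K2_ok TW_l1263 _))
        (CovZ.leaf K2_ok TW_l1264 _)))
      (CovZ.n1 (-1664, -2816) (by decide +kernel)
       (CovZ.n2 (-1728, -2752) (by decide +kernel)
        (CovZ.n2 (-1664, -2752) (by decide +kernel)
         (CovZ.leaf K2_ok TW_l1265 _)
         (CovZ.leaf K2_ok TW_l1266 _))
        (CovZ.n1 (-1728, -2816) (by decide +kernel)
         (CovZ.leaf K2_ok TW_l1267 _)
         (CovZ.leaf K2_ok TW_l1268 _)))
       (CovZ.n1 (-1600, -2752) (by decide +kernel)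
        (CovZ.leaf K2_ok TW_l1269 _)
        (CovZ.n1 (-1664, -2752) (by decide +kernel)
         (CovZ.leaf K2_ok TW_l1270 _)
         (CovZ.leaf K2_ok TW_l1271 _))))))
    (CovZ.n1 (-1792, -3072) (by decide +kernel)
     (CovZ.n2 (-1920, -2944) (by decide +kernel)
      (CovZ.n2 (-1792, -2944) (by decide +kernel)
       (CovZ.n2 (-1856, -3008) (by decide +kernel)
        (CovZ.n2 (-1856, -2944) (by decide +kernel)
         (CovZ.leaf K2_ok TW_l1272 _)
         (CovZ.leaf K2_ok TW_l1273 _))
        (CovZ.n1 (-1792, -3008) (by decide +kernel)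
         (CovZ.leaf K2_ok TW_l1274 _)
         (CovZ.leaf K2_ok TW_l1275 _)))
       (CovZ.n1 (-1856, -2880) (by decide +kernel)
        (CovZ.n2 (-1792, -2880) (by decide +kernel)
         (CovZ.leaf K2_ok TW_l1276 _)
         (CovZ.n1 (-1824, -2848) (by decide +kernel)
          (CovZ.leaf K2_ok TW_l1277 _)
          (CovZ.leaf K2_ok TW_l1278 _)))
        (CovZ.n1 (-1856, -2944) (by decide +kernel)
         (CovZ.leaf K2_ok TW_l1279 _)
         (CovZ.leaf K2_ok TW_l1280 _))))
      (CovZ.n1 (-1920, -3072) (by decide +kernel)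
       (CovZ.n2 (-1984, -3008) (by decide +kernel)
        (CovZ.n2 (-1920, -3008) (by decide +kernel)
         (CovZ.leaf K2_ok TW_l1281 _)
         (CovZ.n1 (-1952, -2976) (by decide +kernel)
          (CovZ.leaf K2_ok TW_l1282 _)
          (CovZ.leaf K2_ok TW_l1283 _)))
        (CovZ.n1 (-1984, -3072) (by decide +kernel)
         (CovZ.n2 (-2016, -3040) (by decide +kernel)
          (CovZ.leaf K2_ok TW_l1284 _)
          (CovZ.leaf K2_ok TW_l1285 _))
         (CovZ.leaf K2_ok TW_l1286 _)))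
       (CovZ.n1 (-1856, -3008) (by decide +kernel)
        (CovZ.n2 (-1856, -3072) (by decide +kernel)
         (CovZ.leaf K2_ok TW_l1287 _)
         (CovZ.leaf K2_ok TW_l1288 _))
        (CovZ.n1 (-1920, -3008) (by decide +kernel)
         (CovZ.leaf K2_ok TW_l1289 _)
         (CovZ.leaf K2_ok TW_l1290 _)))))
     (CovZ.n1 (-1664, -2944) (by decide +kernel)
      (CovZ.n2 (-1664, -3072) (by decide +kernel)
       (CovZ.n2 (-1728, -3008) (by decide +kernel)
        (CovZ.n2 (-1664, -3008) (by decide +kernel)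
         (CovZ.leaf K2_ok TW_l1291 _)
         (CovZ.leaf K2_ok TW_l1292 _))
        (CovZ.n1 (-1728, -3072) (by decide +kernel)
         (CovZ.leaf K2_ok TW_l1293 _)
         (CovZ.leaf K2_ok TW_l1294 _)))
       (CovZ.n1 (-1600, -3008) (by decide +kernel)
        (CovZ.leaf K2_ok TW_l1295 _)
        (CovZ.n1 (-1664, -3008) (by decide +kernel)
         (CovZ.leaf K2_ok TW_l1296 _)
         (CovZ.leaf K2_ok TW_l1297 _))))
      (CovZ.n1 (-1792, -2944) (by decide +kernel)
       (CovZ.n2 (-1728, -2880) (by decide +kernel)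
        (CovZ.n2 (-1728, -2944) (by decide +kernel)
         (CovZ.leaf K2_ok TW_l1298 _)
         (CovZ.leaf K2_ok TW_l1299 _))
        (CovZ.n1 (-1792, -2880) (by decide +kernel)
         (CovZ.leaf K2_ok TW_l1300 _)
         (CovZ.leaf K2_ok TW_l1301 _)))
       (CovZ.n1 (-1728, -3008) (by decide +kernel)
        (CovZ.n2 (-1792, -3008) (by decide +kernel)
         (CovZ.leaf K2_ok TW_l1302 _)
         (CovZ.leaf K2_ok TW_l1303 _))
        (CovZ.n1 (-1728, -2944) (by decide +kernel)
         (CovZ.leaf K2_ok TW_l1304 _)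
         (CovZ.leaf K2_ok TW_l1305 _))))))))
    (CovZ.topM TW_LL 30 (by decide +kernel) (CovZ.n0 (-1792, -2816) (by decide +kernel)
    (CovZ.n2 (-2048, -2816) (by decide +kernel)
     (CovZ.n2 (-1920, -2688) (by decide +kernel)
      (CovZ.n2 (-1920, -2816) (by decide +kernel)
       (CovZ.n2 (-1984, -2752) (by decide +kernel)
        (CovZ.n2 (-1920, -2752) (by decide +kernel)
         (CovZ.n2 (-1952, -2784) (by decide +kernel)
          (CovZ.leaf K2_ok TW_l1306 _)
          (CovZ.leaf K2_ok TW_l1307 _))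
         (CovZ.n1 (-1952, -2720) (by decide +kernel)
          (CovZ.leaf K2_ok TW_l1308 _)
          (CovZ.leaf K2_ok TW_l1309 _)))
        (CovZ.n1 (-1984, -2816) (by decide +kernel)
         (CovZ.n2 (-2016, -2784) (by decide +kernel)
          (CovZ.leaf K2_ok TW_l1310 _)
          (CovZ.leaf K2_ok TW_l1311 _))
         (CovZ.leaf K2_ok TW_l1312 _)))
       (CovZ.n1 (-1856, -2752) (by decide +kernel)
        (CovZ.n2 (-1856, -2816) (by decide +kernel)
         (CovZ.n2 (-1888, -2784) (by decide +kernel)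
          (CovZ.leaf K2_ok TW_l1313 _)
          (CovZ.leaf K2_ok TW_l1314 _))
         (CovZ.leaf K2_ok TW_l1315 _))
        (CovZ.n1 (-1920, -2752) (by decide +kernel)
         (CovZ.leaf K2_ok TW_l1316 _)
         (CovZ.n1 (-1888, -2784) (by decide +kernel)
          (CovZ.leaf K2_ok TW_l1317 _)
          (CovZ.leaf K2_ok TW_l1318 _)))))
      (CovZ.n1 (-2048, -2688) (by decide +kernel)
       (CovZ.n2 (-1984, -2624) (by decide +kernel)
        (CovZ.leaf K2_ok TW_l1319 _)
        (CovZ.leaf K2_ok TW_l1320 _))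
       (CovZ.n1 (-1984, -2752) (by decide +kernel)
        (CovZ.n2 (-2048, -2752) (by decide +kernel)
         (CovZ.leaf K2_ok TW_l1321 _)
         (CovZ.n1 (-2016, -2784) (by decide +kernel)
          (CovZ.leaf K2_ok TW_l1322 _)
          (CovZ.leaf K2_ok TW_l1323 _)))
        (CovZ.n1 (-1984, -2688) (by decide +kernel)
         (CovZ.n2 (-1952, -2720) (by decide +kernel)
          (CovZ.leaf K2_ok TW_l1324 _)
          (CovZ.leaf K2_ok TW_l1325 _))
         (CovZ.leaf K2_ok TW_l1326 _)))))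
     (CovZ.n1 (-1920, -2944) (by decide +kernel)
      (CovZ.n2 (-2048, -2944) (by decide +kernel)
       (CovZ.n2 (-1984, -2880) (by decide +kernel)
        (CovZ.n2 (-1984, -2944) (by decide +kernel)
         (CovZ.n2 (-2016, -2912) (by decide +kernel)
          (CovZ.leaf K2_ok TW_l1327 _)
          (CovZ.leaf K2_ok TW_l1328 _))
         (CovZ.leaf K2_ok TW_l1329 _))
        (CovZ.n1 (-2048, -2880) (by decide +kernel)
         (CovZ.leaf K2_ok TW_l1330 _)
         (CovZ.n1 (-2016, -2912) (by decide +kernel)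
          (CovZ.leaf K2_ok TW_l1331 _)
          (CovZ.leaf K2_ok TW_l1332 _))))
       (CovZ.n1 (-1984, -3008) (by decide +kernel)
        (CovZ.n2 (-2048, -3008) (by decide +kernel)
         (CovZ.leaf K2_ok TW_l1333 _)
         (CovZ.n1 (-2016, -3040) (by decide +kernel)
          (CovZ.leaf K2_ok TW_l1334 _)
          (CovZ.leaf K2_ok TW_l1335 _)))
        (CovZ.n1 (-1984, -2944) (by decide +kernel)
         (CovZ.n2 (-1952, -2976) (by decide +kernel)
          (CovZ.leaf K2_ok TW_l1336 _)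
          (CovZ.leaf K2_ok TW_l1337 _))
         (CovZ.n1 (-2016, -2976) (by decide +kernel)
          (CovZ.leaf K2_ok TW_l1338 _)
          (CovZ.leaf K2_ok TW_l1339 _)))))
      (CovZ.n1 (-1920, -2816) (by decide +kernel)
       (CovZ.n2 (-1856, -2880) (by decide +kernel)
        (CovZ.n2 (-1920, -2880) (by decide +kernel)
         (CovZ.leaf K2_ok TW_l1340 _)
         (CovZ.n1 (-1888, -2912) (by decide +kernel)
          (CovZ.leaf K2_ok TW_l1341 _)
          (CovZ.leaf K2_ok TW_l1342 _)))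
        (CovZ.n1 (-1856, -2816) (by decide +kernel)
         (CovZ.n2 (-1824, -2848) (by decide +kernel)
          (CovZ.leaf K2_ok TW_l1343 _)
          (CovZ.leaf K2_ok TW_l1344 _))
         (CovZ.n1 (-1888, -2848) (by decide +kernel)
          (CovZ.leaf K2_ok TW_l1345 _)
          (CovZ.leaf K2_ok TW_l1346 _))))
       (CovZ.n1 (-1984, -2880) (by decide +kernel)
        (CovZ.n2 (-1984, -2816) (by decide +kernel)
         (CovZ.n2 (-1952, -2848) (by decide +kernel)
          (CovZ.leaf K2_ok TW_l1347 _)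
          (CovZ.leaf K2_ok TW_l1348 _))
         (CovZ.n1 (-2016, -2848) (by decide +kernel)
          (CovZ.leaf K2_ok TW_l1349 _)
          (CovZ.leaf K2_ok TW_l1350 _)))
        (CovZ.n1 (-1920, -2880) (by decide +kernel)
         (CovZ.n2 (-1952, -2912) (by decide +kernel)
          (CovZ.leaf K2_ok TW_l1351 _)
          (CovZ.leaf K2_ok TW_l1352 _))
         (CovZ.n1 (-1952, -2848) (by decide +kernel)
          (CovZ.leaf K2_ok TW_l1353 _)
          (CovZ.leaf K2_ok TW_l1354 _)))))))
    (CovZ.n1 (-1792, -2560) (by decide +kernel)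
     (CovZ.n2 (-1664, -2688) (by decide +kernel)
      (CovZ.n2 (-1792, -2688) (by decide +kernel)
       (CovZ.n2 (-1728, -2624) (by decide +kernel)
        (CovZ.leaf K2_ok TW_l1355 _)
        (CovZ.n1 (-1792, -2624) (by decide +kernel)
         (CovZ.leaf K2_ok TW_l1356 _)
         (CovZ.leaf K2_ok TW_l1357 _)))
       (CovZ.n1 (-1728, -2752) (by decide +kernel)
        (CovZ.n2 (-1792, -2752) (by decide +kernel)
         (CovZ.leaf K2_ok TW_l1358 _)
         (CovZ.leaf K2_ok TW_l1359 _))
        (CovZ.n1 (-1728, -2688) (by decide +kernel)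
         (CovZ.leaf K2_ok TW_l1360 _)
         (CovZ.leaf K2_ok TW_l1361 _))))
      (CovZ.n1 (-1664, -2560) (by decide +kernel)
       (CovZ.n2 (-1600, -2624) (by decide +kernel)
        (CovZ.n2 (-1664, -2624) (by decide +kernel)
         (CovZ.leaf K2_ok TW_l1362 _)
         (CovZ.leaf K2_ok TW_l1363 _))
        (CovZ.n1 (-1600, -2560) (by decide +kernel)
         (CovZ.leaf K2_ok TW_l1364 _)
         (CovZ.leaf K2_ok TW_l1365 _)))
       (CovZ.n1 (-1728, -2624) (by decide +kernel)
        (CovZ.n2 (-1728, -2560) (by decide +kernel)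
         (CovZ.leaf K2_ok TW_l1366 _)
         (CovZ.leaf K2_ok TW_l1367 _))
        (CovZ.n1 (-1664, -2624) (by decide +kernel)
         (CovZ.leaf K2_ok TW_l1368 _)
         (CovZ.leaf K2_ok TW_l1369 _)))))
     (CovZ.n1 (-1920, -2688) (by decide +kernel)
      (CovZ.n2 (-1920, -2560) (by decide +kernel)
       (CovZ.n2 (-1856, -2624) (by decide +kernel)
        (CovZ.n2 (-1920, -2624) (by decide +kernel)
         (CovZ.leaf K2_ok TW_l1370 _)
         (CovZ.leaf K2_ok TW_l1371 _))
        (CovZ.n1 (-1856, -2560) (by decide +kernel)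
         (CovZ.leaf K2_ok TW_l1372 _)
         (CovZ.leaf K2_ok TW_l1373 _)))
       (CovZ.n1 (-1984, -2624) (by decide +kernel)
        (CovZ.n2 (-1984, -2560) (by decide +kernel)
         (CovZ.leaf K2_ok TW_l1374 _)
         (CovZ.leaf K2_ok TW_l1375 _))
        (CovZ.n1 (-1920, -2624) (by decide +kernel)
         (CovZ.leaf K2_ok TW_l1376 _)
         (CovZ.leaf K2_ok TW_l1377 _))))
      (CovZ.n1 (-1792, -2688) (by decide +kernel)
       (CovZ.n2 (-1856, -2752) (by decide +kernel)
        (CovZ.n2 (-1856, -2688) (by decide +kernel)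
         (CovZ.leaf K2_ok TW_l1378 _)
         (CovZ.leaf K2_ok TW_l1379 _))
        (CovZ.n1 (-1792, -2752) (by decide +kernel)
         (CovZ.leaf K2_ok TW_l1380 _)
         (CovZ.leaf K2_ok TW_l1381 _)))
       (CovZ.n1 (-1856, -2624) (by decide +kernel)
        (CovZ.n2 (-1792, -2624) (by decide +kernel)
         (CovZ.leaf K2_ok TW_l1382 _)
         (CovZ.leaf K2_ok TW_l1383 _))
        (CovZ.n1 (-1856, -2688) (by decide +kernel)
         (CovZ.leaf K2_ok TW_l1384 _)
         (CovZ.leaf K2_ok TW_l1385 _))))))))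

end Pool.Agent.TET
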