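import Pool.Agent.Helper38_TET.TW_M
import Pool.Agent.Helper38_TET.TW_L
import Pool.Agent.Helper38_TET.TW_2
import Pool.Agent.Helper38_TET.TW_3
import Pool.Agent.Helper38_TET.TW_4
import Pool.Agent.Helper38_TET.TW_6
import Pool.Agent.Helper38_TET.TW_9
import Pool.Agent.Helper38_TET.TW_11
import Pool.Agent.Helper38_TET.TW_12
import Pool.Agent.Helper38_TET.TW_14
import Pool.Agent.Helper38_TET.TW_16
import Pool.Agent.Helper38_TET.TW_17
import Pool.Agent.Helper38_TET.TW_19
import Pool.Agent.Helper38_TET.TW_21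
import Pool.Agent.Helper38_TET.TW_23
import Pool.Agent.Helper38_TET.TW_27
import Pool.Agent.Helper38_TET.TW_28
import Pool.Agent.Helper38_TET.TW_29
import Pool.Agent.Helper38_TET.TW_30
import Pool.Agent.Helper38_TET.TW_31
import Pool.Agent.Helper38_TET.TW_32
import Pool.Agent.Helper38_TET.TW_U0

/-!
# MP_c7c9bf_co: certificates, family TW
-/

set_option autoImplicit false
set_option maxRecDepth 100000

namespace Pool.Agent.TET

theorem TW_s6_5 : SqZ TW_M TW_L [0, 7, 4, 3] (-4608) (-5632) 512 6 5 :=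
  SqZ.mk (a := (-1536)) (b := (-1024)) (c := (-3072)) (d := (-2560)) (by norm_num) (by norm_num) (by norm_num) (by norm_num)
    (CovZ.topM TW_LL 22 (by decide +kernel) (CovZ.n2 (-1280, -2816) (by decide +kernel)
    (CovZ.n2 (-1024, -2816) (by decide +kernel)
     (CovZ.n2 (-1152, -2944) (by decide +kernel)
      (CovZ.n2 (-1152, -2816) (by decide +kernel)
       (CovZ.n2 (-1088, -2880) (by decide +kernel)
        (CovZ.leaf K2_ok TW_l1780 _)
        (CovZ.leaf K2_ok TW_l1781 _))
       (CovZ.n1 (-1216, -2880) (by decide +kernel)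
        (CovZ.leaf K2_ok TW_l1782 _)
        (CovZ.leaf K2_ok TW_l1783 _)))
      (CovZ.n1 (-1024, -2944) (by decide +kernel)
       (CovZ.n2 (-1088, -3008) (by decide +kernel)
        (CovZ.leaf K2_ok TW_l1784 _)
        (CovZ.leaf K2_ok TW_l1785 _))
       (CovZ.leaf K2_ok TW_l1786 _)))
     (CovZ.n1 (-1152, -2688) (by decide +kernel)
      (CovZ.n2 (-1024, -2688) (by decide +kernel)
       (CovZ.n2 (-1088, -2752) (by decide +kernel)
        (CovZ.leaf K2_ok TW_l1787 _)
        (CovZ.leaf K2_ok TW_l1788 _))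
       (CovZ.leaf K2_ok TW_l1789 _))
      (CovZ.n1 (-1152, -2816) (by decide +kernel)
       (CovZ.n2 (-1216, -2752) (by decide +kernel)
        (CovZ.leaf K2_ok TW_l1790 _)
        (CovZ.leaf K2_ok TW_l1791 _))
       (CovZ.leaf K2_ok TW_l1792 _))))
    (CovZ.n1 (-1280, -3072) (by decide +kernel)
     (CovZ.n2 (-1408, -2944) (by decide +kernel)
      (CovZ.n2 (-1280, -2944) (by decide +kernel)
       (CovZ.n2 (-1344, -3008) (by decide +kernel)
        (CovZ.n2 (-1344, -2944) (by decide +kernel)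
         (CovZ.leaf K2_ok TW_l1793 _)
         (CovZ.leaf K2_ok TW_l1794 _))
        (CovZ.n1 (-1280, -3008) (by decide +kernel)
         (CovZ.leaf K2_ok TW_l1795 _)
         (CovZ.leaf K2_ok TW_l1796 _)))
       (CovZ.n1 (-1344, -2880) (by decide +kernel)
        (CovZ.leaf K2_ok TW_l1797 _)
        (CovZ.leaf K2_ok TW_l1798 _)))
      (CovZ.n1 (-1408, -3072) (by decide +kernel)
       (CovZ.n2 (-1472, -3008) (by decide +kernel)
        (CovZ.n2 (-1408, -3008) (by decide +kernel)
         (CovZ.leaf K2_ok TW_l1799 _)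
         (CovZ.leaf K2_ok TW_l1800 _))
        (CovZ.leaf K2_ok TW_l1801 _))
       (CovZ.n1 (-1344, -3008) (by decide +kernel)
        (CovZ.leaf K2_ok TW_l1802 _)
        (CovZ.n1 (-1408, -3008) (by decide +kernel)
         (CovZ.leaf K2_ok TW_l1803 _)
         (CovZ.leaf K2_ok TW_l1804 _)))))
     (CovZ.n1 (-1152, -2944) (by decide +kernel)
      (CovZ.n2 (-1152, -3072) (by decide +kernel)
       (CovZ.n2 (-1216, -3008) (by decide +kernel)
        (CovZ.leaf K2_ok TW_l1805 _)
        (CovZ.leaf K2_ok TW_l1806 _))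
       (CovZ.leaf K2_ok TW_l1807 _))
      (CovZ.n1 (-1280, -2944) (by decide +kernel)
       (CovZ.n2 (-1216, -2880) (by decide +kernel)
        (CovZ.leaf K2_ok TW_l1808 _)
        (CovZ.leaf K2_ok TW_l1809 _))
       (CovZ.n1 (-1216, -3008) (by decide +kernel)
        (CovZ.n2 (-1280, -3008) (by decide +kernel)
         (CovZ.leaf K2_ok TW_l1810 _)
         (CovZ.leaf K2_ok TW_l1811 _))
        (CovZ.leaf K2_ok TW_l1812 _)))))))
    (CovZ.topM TW_LL 22 (by decide +kernel) (CovZ.n0 (-1280, -2816) (by decide +kernel)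
    (CovZ.n2 (-1536, -2816) (by decide +kernel)
     (CovZ.n2 (-1408, -2688) (by decide +kernel)
      (CovZ.n2 (-1408, -2816) (by decide +kernel)
       (CovZ.n2 (-1472, -2752) (by decide +kernel)
        (CovZ.n2 (-1408, -2752) (by decide +kernel)
         (CovZ.leaf K2_ok TW_l1813 _)
         (CovZ.leaf K2_ok TW_l1814 _))
        (CovZ.leaf K2_ok TW_l1815 _))
       (CovZ.n1 (-1344, -2752) (by decide +kernel)
        (CovZ.leaf K2_ok TW_l1816 _)
        (CovZ.leaf K2_ok TW_l1817 _)))
      (CovZ.n1 (-1536, -2688) (by decide +kernel)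
       (CovZ.n2 (-1472, -2624) (by decide +kernel)
        (CovZ.leaf K2_ok TW_l1818 _)
        (CovZ.n1 (-1536, -2624) (by decide +kernel)
         (CovZ.leaf K2_ok TW_l1819 _)
         (CovZ.leaf K2_ok TW_l1820 _)))
       (CovZ.n1 (-1472, -2752) (by decide +kernel)
        (CovZ.n2 (-1536, -2752) (by decide +kernel)
         (CovZ.leaf K2_ok TW_l1821 _)
         (CovZ.leaf K2_ok TW_l1822 _))
        (CovZ.n1 (-1472, -2688) (by decide +kernel)
         (CovZ.leaf K2_ok TW_l1823 _)
         (CovZ.leaf K2_ok TW_l1824 _)))))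
     (CovZ.n1 (-1408, -2944) (by decide +kernel)
      (CovZ.n2 (-1536, -2944) (by decide +kernel)
       (CovZ.n2 (-1472, -2880) (by decide +kernel)
        (CovZ.leaf K2_ok TW_l1825 _)
        (CovZ.n1 (-1536, -2880) (by decide +kernel)
         (CovZ.leaf K2_ok TW_l1826 _)
         (CovZ.leaf K2_ok TW_l1827 _)))
       (CovZ.n1 (-1472, -3008) (by decide +kernel)
        (CovZ.n2 (-1536, -3008) (by decide +kernel)
         (CovZ.leaf K2_ok TW_l1828 _)
         (CovZ.leaf K2_ok TW_l1829 _))
        (CovZ.n1 (-1472, -2944) (by decide +kernel)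
         (CovZ.leaf K2_ok TW_l1830 _)
         (CovZ.leaf K2_ok TW_l1831 _))))
      (CovZ.n1 (-1408, -2816) (by decide +kernel)
       (CovZ.n2 (-1344, -2880) (by decide +kernel)
        (CovZ.leaf K2_ok TW_l1832 _)
        (CovZ.leaf K2_ok TW_l1833 _))
       (CovZ.n1 (-1472, -2880) (by decide +kernel)
        (CovZ.n2 (-1472, -2816) (by decide +kernel)
         (CovZ.leaf K2_ok TW_l1834 _)
         (CovZ.leaf K2_ok TW_l1835 _))
        (CovZ.n1 (-1408, -2880) (by decide +kernel)
         (CovZ.leaf K2_ok TW_l1836 _)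
         (CovZ.leaf K2_ok TW_l1837 _))))))
    (CovZ.n1 (-1280, -2560) (by decide +kernel)
     (CovZ.n2 (-1152, -2688) (by decide +kernel)
      (CovZ.n2 (-1280, -2688) (by decide +kernel)
       (CovZ.leaf K2_ok TW_l1838 _)
       (CovZ.n1 (-1216, -2752) (by decide +kernel)
        (CovZ.leaf K2_ok TW_l1839 _)
        (CovZ.leaf K2_ok TW_l1840 _)))
      (CovZ.n1 (-1152, -2560) (by decide +kernel)
       (CovZ.leaf K2_ok TW_l1841 _)
       (CovZ.n1 (-1216, -2624) (by decide +kernel)
        (CovZ.leaf K2_ok TW_l1842 _)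
        (CovZ.leaf K2_ok TW_l1843 _))))
     (CovZ.n1 (-1408, -2688) (by decide +kernel)
      (CovZ.n2 (-1408, -2560) (by decide +kernel)
       (CovZ.n2 (-1344, -2624) (by decide +kernel)
        (CovZ.leaf K2_ok TW_l1844 _)
        (CovZ.leaf K2_ok TW_l1845 _))
       (CovZ.n1 (-1472, -2624) (by decide +kernel)
        (CovZ.leaf K2_ok TW_l1846 _)
        (CovZ.leaf K2_ok TW_l1847 _)))
      (CovZ.n1 (-1280, -2688) (by decide +kernel)
       (CovZ.n2 (-1344, -2752) (by decide +kernel)
        (CovZ.leaf K2_ok TW_l1848 _)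
        (CovZ.leaf K2_ok TW_l1849 _))
       (CovZ.n1 (-1344, -2624) (by decide +kernel)
        (CovZ.leaf K2_ok TW_l1850 _)
        (CovZ.leaf K2_ok TW_l1851 _)))))))

theorem TW_s7_5 : SqZ TW_M TW_L [0, 7, 4, 3] (-4608) (-5632) 512 7 5 :=
  SqZ.mk (a := (-1024)) (b := (-512)) (c := (-3072)) (d := (-2560)) (by norm_num) (by norm_num) (by norm_num) (by norm_num)
    (CovZ.topM TW_LL 22 (by decide +kernel) (CovZ.n2 (-768, -2816) (by decide +kernel)
    (CovZ.n2 (-512, -2816) (by decide +kernel)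
     (CovZ.n2 (-640, -2944) (by decide +kernel)
      (CovZ.leaf K2_ok TW_l2151 _)
      (CovZ.leaf K2_ok TW_l2152 _))
     (CovZ.n1 (-640, -2688) (by decide +kernel)
      (CovZ.leaf K2_ok TW_l2153 _)
      (CovZ.leaf K2_ok TW_l2154 _)))
    (CovZ.n1 (-768, -3072) (by decide +kernel)
     (CovZ.n2 (-896, -2944) (by decide +kernel)
      (CovZ.n2 (-768, -2944) (by decide +kernel)
       (CovZ.leaf K2_ok TW_l2155 _)
       (CovZ.leaf K2_ok TW_l2156 _))
      (CovZ.n1 (-896, -3072) (by decide +kernel)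
       (CovZ.leaf K2_ok TW_l2157 _)
       (CovZ.leaf K2_ok TW_l2158 _)))
     (CovZ.n1 (-640, -2944) (by decide +kernel)
      (CovZ.leaf K2_ok TW_l2159 _)
      (CovZ.n1 (-768, -2944) (by decide +kernel)
       (CovZ.leaf K2_ok TW_l2160 _)
       (CovZ.leaf K2_ok TW_l2161 _))))))
    (CovZ.topM TW_LL 22 (by decide +kernel) (CovZ.n0 (-768, -2816) (by decide +kernel)
    (CovZ.n2 (-1024, -2816) (by decide +kernel)
     (CovZ.n2 (-896, -2688) (by decide +kernel)
      (CovZ.leaf K2_ok TW_l2162 _)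
      (CovZ.n1 (-1024, -2688) (by decide +kernel)
       (CovZ.leaf K2_ok TW_l2163 _)
       (CovZ.leaf K2_ok TW_l2164 _)))
     (CovZ.n1 (-896, -2944) (by decide +kernel)
      (CovZ.n2 (-1024, -2944) (by decide +kernel)
       (CovZ.leaf K2_ok TW_l2165 _)
       (CovZ.leaf K2_ok TW_l2166 _))
      (CovZ.n1 (-896, -2816) (by decide +kernel)
       (CovZ.leaf K2_ok TW_l2167 _)
       (CovZ.n1 (-960, -2880) (by decide +kernel)
        (CovZ.leaf K2_ok TW_l2168 _)
        (CovZ.leaf K2_ok TW_l2169 _)))))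
    (CovZ.n1 (-768, -2560) (by decide +kernel)
     (CovZ.n2 (-640, -2688) (by decide +kernel)
      (CovZ.n2 (-768, -2688) (by decide +kernel)
       (CovZ.leaf K2_ok TW_l2170 _)
       (CovZ.leaf K2_ok TW_l2171 _))
      (CovZ.leaf K2_ok TW_l2172 _))
     (CovZ.n1 (-896, -2688) (by decide +kernel)
      (CovZ.n2 (-896, -2560) (by decide +kernel)
       (CovZ.leaf K2_ok TW_l2173 _)
       (CovZ.leaf K2_ok TW_l2174 _))
      (CovZ.n1 (-768, -2688) (by decide +kernel)
       (CovZ.leaf K2_ok TW_l2175 _)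
       (CovZ.leaf K2_ok TW_l2176 _))))))

theorem TW_s8_5 : SqZ TW_M TW_L [0, 7, 4, 3] (-4608) (-5632) 512 8 5 :=
  SqZ.mk (a := (-512)) (b := 0) (c := (-3072)) (d := (-2560)) (by norm_num) (by norm_num) (by norm_num) (by norm_num)
    (CovZ.topM TW_LL 22 (by decide +kernel) (CovZ.n2 (-256, -2816) (by decide +kernel)
    (CovZ.n2 (0, -2816) (by decide +kernel)
     (CovZ.n2 (-128, -2944) (by decide +kernel)
      (CovZ.leaf K2_ok TW_l2405 _)
      (CovZ.n1 (0, -2944) (by decide +kernel)
       (CovZ.leaf K2_ok TW_l2406 _)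
       (CovZ.leaf K2_ok TW_l2407 _)))
     (CovZ.n1 (-128, -2688) (by decide +kernel)
      (CovZ.leaf K2_ok TW_l2408 _)
      (CovZ.leaf K2_ok TW_l2409 _)))
    (CovZ.n1 (-256, -3072) (by decide +kernel)
     (CovZ.n2 (-384, -2944) (by decide +kernel)
      (CovZ.leaf K2_ok TW_l2410 _)
      (CovZ.leaf K2_ok TW_l2411 _))
     (CovZ.n1 (-128, -2944) (by decide +kernel)
      (CovZ.leaf K2_ok TW_l2412 _)
      (CovZ.leaf K2_ok TW_l2413 _)))))
    (CovZ.topM TW_LL 22 (by decide +kernel) (CovZ.n0 (-256, -2816) (by decide +kernel)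
    (CovZ.n2 (-512, -2816) (by decide +kernel)
     (CovZ.leaf K2_ok TW_l2414 _)
     (CovZ.n1 (-384, -2944) (by decide +kernel)
      (CovZ.leaf K2_ok TW_l2415 _)
      (CovZ.leaf K2_ok TW_l2416 _)))
    (CovZ.n1 (-256, -2560) (by decide +kernel)
     (CovZ.n2 (-128, -2688) (by decide +kernel)
      (CovZ.leaf K2_ok TW_l2417 _)
      (CovZ.leaf K2_ok TW_l2418 _))
     (CovZ.n1 (-384, -2688) (by decide +kernel)
      (CovZ.leaf K2_ok TW_l2419 _)
      (CovZ.leaf K2_ok TW_l2420 _)))))

theorem TW_s9_5 : SqZ TW_M TW_L [0, 7, 4, 3] (-4608) (-5632) 512 9 5 :=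
  SqZ.mk (a := 0) (b := 512) (c := (-3072)) (d := (-2560)) (by norm_num) (by norm_num) (by norm_num) (by norm_num)
    (CovZ.topM TW_LL 4 (by decide +kernel) (CovZ.n2 (256, -2816) (by decide +kernel)
    (CovZ.n2 (512, -2816) (by decide +kernel)
     (CovZ.n2 (384, -2944) (by decide +kernel)
      (CovZ.n2 (384, -2816) (by decide +kernel)
       (CovZ.badM (by decide +kernel))
       (CovZ.n1 (320, -2880) (by decide +kernel)
        (CovZ.n2 (320, -2816) (by decide +kernel)
         (CovZ.leaf K2_ok TW_l3978 _)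
         (CovZ.leaf K2_ok TW_l2488 _))
        (CovZ.n1 (384, -2880) (by decide +kernel)
         (CovZ.n2 (352, -2912) (by decide +kernel)
          (CovZ.leaf K2_ok TW_l3979 _)
          (CovZ.badM (by decide +kernel)))
         (CovZ.leaf K2_ok TW_l3980 _))))
      (CovZ.badM (by decide +kernel)))
     (CovZ.n1 (384, -2688) (by decide +kernel)
      (CovZ.n2 (512, -2688) (by decide +kernel)
       (CovZ.n2 (448, -2752) (by decide +kernel)
        (CovZ.n2 (448, -2688) (by decide +kernel)
         (CovZ.n2 (480, -2720) (by decide +kernel)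
          (CovZ.leaf K2_ok TW_l3981 _)
          (CovZ.leaf K2_ok TW_l3982 _))
         (CovZ.n1 (416, -2720) (by decide +kernel)
          (CovZ.leaf K2_ok TW_l3983 _)
          (CovZ.leaf K2_ok TW_l3984 _)))
        (CovZ.badM (by decide +kernel)))
       (CovZ.n1 (448, -2624) (by decide +kernel)
        (CovZ.n2 (512, -2624) (by decide +kernel)
         (CovZ.n2 (480, -2656) (by decide +kernel)
          (CovZ.leaf K2_ok TW_l3985 _)
          (CovZ.n1 (512, -2656) (by decide +kernel)
           (CovZ.leaf K2_ok TW_l3986 _)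
           (CovZ.leaf K2_ok TW_l3987 _)))
         (CovZ.n1 (480, -2592) (by decide +kernel)
          (CovZ.leaf K2_ok TW_l3988 _)
          (CovZ.leaf K2_ok TW_l3989 _)))
        (CovZ.n1 (448, -2688) (by decide +kernel)
         (CovZ.leaf K2_ok TW_l3990 _)
         (CovZ.n1 (480, -2656) (by decide +kernel)
          (CovZ.leaf K2_ok TW_l3991 _)
          (CovZ.leaf K2_ok TW_l3992 _)))))
      (CovZ.n1 (384, -2816) (by decide +kernel)
       (CovZ.n2 (320, -2752) (by decide +kernel)
        (CovZ.n2 (384, -2752) (by decide +kernel)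
         (CovZ.n2 (352, -2784) (by decide +kernel)
          (CovZ.leaf K2_ok TW_l2489 _)
          (CovZ.leaf K2_ok TW_l3993 _))
         (CovZ.leaf K2_ok TW_l3994 _))
        (CovZ.leaf K2_ok TW_l2490 _))
       (CovZ.n1 (448, -2752) (by decide +kernel)
        (CovZ.badM (by decide +kernel))
        (CovZ.n1 (384, -2752) (by decide +kernel)
         (CovZ.leaf K2_ok TW_l3995 _)
         (CovZ.n1 (416, -2784) (by decide +kernel)
          (CovZ.leaf K2_ok TW_l3996 _)
          (CovZ.leaf K2_ok TW_l3997 _)))))))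
    (CovZ.n1 (256, -3072) (by decide +kernel)
     (CovZ.n2 (128, -2944) (by decide +kernel)
      (CovZ.n2 (256, -2944) (by decide +kernel)
       (CovZ.n2 (192, -3008) (by decide +kernel)
        (CovZ.leaf K2_ok TW_l2491 _)
        (CovZ.n1 (256, -3008) (by decide +kernel)
         (CovZ.leaf K2_ok TW_l3998 _)
         (CovZ.leaf K2_ok TW_l3999 _)))
       (CovZ.n1 (192, -2880) (by decide +kernel)
        (CovZ.leaf K2_ok TW_l2492 _)
        (CovZ.leaf K2_ok TW_l2493 _)))
      (CovZ.n1 (128, -3072) (by decide +kernel)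
       (CovZ.leaf K2_ok TW_l2494 _)
       (CovZ.n1 (192, -3008) (by decide +kernel)
        (CovZ.leaf K2_ok TW_l4000 _)
        (CovZ.leaf K2_ok TW_l2495 _))))
     (CovZ.n1 (384, -2944) (by decide +kernel)
      (CovZ.badM (by decide +kernel))
      (CovZ.n1 (256, -2944) (by decide +kernel)
       (CovZ.n2 (320, -2880) (by decide +kernel)
        (CovZ.n2 (320, -2944) (by decide +kernel)
         (CovZ.leaf K2_ok TW_l4001 _)
         (CovZ.leaf K2_ok TW_l4002 _))
        (CovZ.leaf K2_ok TW_l2496 _))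
       (CovZ.n1 (320, -3008) (by decide +kernel)
        (CovZ.n2 (256, -3008) (by decide +kernel)
         (CovZ.leaf K2_ok TW_l4003 _)
         (CovZ.badM (by decide +kernel)))
        (CovZ.n1 (320, -2944) (by decide +kernel)
         (CovZ.badM (by decide +kernel))
         (CovZ.n1 (288, -2976) (by decide +kernel)
          (CovZ.leaf K2_ok TW_l4004 _)
          (CovZ.badM (by decide +kernel))))))))))
    (CovZ.topM TW_LL 6 (by decide +kernel) (CovZ.n0 (256, -2816) (by decide +kernel)
    (CovZ.n2 (0, -2816) (by decide +kernel)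
     (CovZ.n2 (128, -2688) (by decide +kernel)
      (CovZ.n2 (128, -2816) (by decide +kernel)
       (CovZ.leaf K2_ok TW_l2497 _)
       (CovZ.leaf K2_ok TW_l2498 _))
      (CovZ.leaf K2_ok TW_l2499 _))
     (CovZ.n1 (128, -2944) (by decide +kernel)
      (CovZ.n2 (0, -2944) (by decide +kernel)
       (CovZ.leaf K2_ok TW_l2500 _)
       (CovZ.leaf K2_ok TW_l2501 _))
      (CovZ.n1 (128, -2816) (by decide +kernel)
       (CovZ.n2 (192, -2880) (by decide +kernel)
        (CovZ.leaf K2_ok TW_l2502 _)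
        (CovZ.leaf K2_ok TW_l2503 _))
       (CovZ.leaf K2_ok TW_l2504 _))))
    (CovZ.n1 (256, -2560) (by decide +kernel)
     (CovZ.n2 (384, -2688) (by decide +kernel)
      (CovZ.n2 (256, -2688) (by decide +kernel)
       (CovZ.leaf K2_ok TW_l4005 _)
       (CovZ.n1 (320, -2752) (by decide +kernel)
        (CovZ.leaf K2_ok TW_l2505 _)
        (CovZ.leaf K2_ok TW_l4006 _)))
      (CovZ.n1 (384, -2560) (by decide +kernel)
       (CovZ.n2 (448, -2624) (by decide +kernel)
        (CovZ.n2 (384, -2624) (by decide +kernel)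
         (CovZ.leaf K2_ok TW_l4007 _)
         (CovZ.leaf K2_ok TW_l4008 _))
        (CovZ.n1 (448, -2560) (by decide +kernel)
         (CovZ.n2 (480, -2592) (by decide +kernel)
          (CovZ.leaf K2_ok TW_l4009 _)
          (CovZ.leaf K2_ok TW_l4010 _))
         (CovZ.leaf K2_ok TW_l4011 _)))
       (CovZ.n1 (320, -2624) (by decide +kernel)
        (CovZ.leaf K2_ok TW_l4012 _)
        (CovZ.leaf K2_ok TW_l4013 _))))
     (CovZ.n1 (128, -2688) (by decide +kernel)
      (CovZ.leaf K2_ok TW_l2506 _)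
      (CovZ.n1 (256, -2688) (by decide +kernel)
       (CovZ.n2 (192, -2752) (by decide +kernel)
        (CovZ.leaf K2_ok TW_l2507 _)
        (CovZ.leaf K2_ok TW_l2508 _))
       (CovZ.leaf K2_ok TW_l2509 _))))))

theorem TW_s10_5 : SqZ TW_M TW_L [0, 7, 4, 3] (-4608) (-5632) 512 10 5 :=
  SqZ.mk (a := 512) (b := 1024) (c := (-3072)) (d := (-2560)) (by norm_num) (by norm_num) (by norm_num) (by norm_num)
    (CovZ.topM TW_LL 0 (by decide +kernel) (CovZ.badM (by decide +kernel)))
    (CovZ.topM TW_LL 5 (by decide +kernel) (CovZ.n0 (768, -2816) (by decide +kernel)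
    (CovZ.n2 (512, -2816) (by decide +kernel)
     (CovZ.n2 (640, -2688) (by decide +kernel)
      (CovZ.badM (by decide +kernel))
      (CovZ.n1 (512, -2688) (by decide +kernel)
       (CovZ.n2 (576, -2624) (by decide +kernel)
        (CovZ.badM (by decide +kernel))
        (CovZ.n1 (512, -2624) (by decide +kernel)
         (CovZ.n2 (544, -2592) (by decide +kernel)
          (CovZ.n2 (544, -2624) (by decide +kernel)
           (CovZ.leaf K2_ok TW_l4165 _)
           (CovZ.leaf K2_ok TW_l4166 _))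
          (CovZ.leaf K2_ok TW_l4167 _))
         (CovZ.n1 (544, -2656) (by decide +kernel)
          (CovZ.n2 (512, -2656) (by decide +kernel)
           (CovZ.leaf K2_ok TW_l4168 _)
           (CovZ.badM (by decide +kernel)))
          (CovZ.n1 (544, -2624) (by decide +kernel)
           (CovZ.badM (by decide +kernel))
           (CovZ.n1 (528, -2640) (by decide +kernel)
            (CovZ.leaf K2_ok TW_l4169 _)
            (CovZ.badM (by decide +kernel)))))))
       (CovZ.badM (by decide +kernel))))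
     (CovZ.badM (by decide +kernel)))
    (CovZ.n1 (768, -2560) (by decide +kernel)
     (CovZ.badM (by decide +kernel))
     (CovZ.n1 (640, -2688) (by decide +kernel)
      (CovZ.n2 (640, -2560) (by decide +kernel)
       (CovZ.badM (by decide +kernel))
       (CovZ.n1 (576, -2624) (by decide +kernel)
        (CovZ.n2 (576, -2560) (by decide +kernel)
         (CovZ.badM (by decide +kernel))
         (CovZ.n1 (544, -2592) (by decide +kernel)
          (CovZ.n2 (544, -2560) (by decide +kernel)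
           (CovZ.leaf K2_ok TW_l4170 _)
           (CovZ.leaf K2_ok TW_l4171 _))
          (CovZ.n1 (576, -2592) (by decide +kernel)
           (CovZ.n2 (560, -2608) (by decide +kernel)
            (CovZ.leaf K2_ok TW_l4172 _)
            (CovZ.badM (by decide +kernel)))
           (CovZ.leaf K2_ok TW_l4173 _))))
        (CovZ.badM (by decide +kernel))))
      (CovZ.badM (by decide +kernel))))))

theorem TW_s11_5 : SqZ TW_M TW_L [0, 7, 4, 3] (-4608) (-5632) 512 11 5 :=
  SqZ.mk (a := 1024) (b := 1536) (c := (-3072)) (d := (-2560)) (by norm_num) (by norm_num) (by norm_num) (by norm_num)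
    (CovZ.topM TW_LL 0 (by decide +kernel) (CovZ.badM (by decide +kernel)))
    (CovZ.topM TW_LL 0 (by decide +kernel) (CovZ.badM (by decide +kernel)))

theorem TW_s12_5 : SqZ TW_M TW_L [0, 7, 4, 3] (-4608) (-5632) 512 12 5 :=
  SqZ.mk (a := 1536) (b := 2048) (c := (-3072)) (d := (-2560)) (by norm_num) (by norm_num) (by norm_num) (by norm_num)
    (CovZ.topM TW_LL 0 (by decide +kernel) (CovZ.badM (by decide +kernel)))
    (CovZ.topM TW_LL 0 (by decide +kernel) (CovZ.badM (by decide +kernel)))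

theorem TW_s13_5 : SqZ TW_M TW_L [0, 7, 4, 3] (-4608) (-5632) 512 13 5 :=
  SqZ.mk (a := 2048) (b := 2560) (c := (-3072)) (d := (-2560)) (by norm_num) (by norm_num) (by norm_num) (by norm_num)
    (CovZ.topM TW_LL 0 (by decide +kernel) (CovZ.badM (by decide +kernel)))
    (CovZ.topM TW_LL 0 (by decide +kernel) (CovZ.badM (by decide +kernel)))

theorem TW_s14_5 : SqZ TW_M TW_L [0, 7, 4, 3] (-4608) (-5632) 512 14 5 :=
  SqZ.mk (a := 2560) (b := 3072) (c := (-3072)) (d := (-2560)) (by norm_num) (by norm_num) (by norm_num) (by norm_num)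
    (CovZ.topM TW_LL 0 (by decide +kernel) (CovZ.badM (by decide +kernel)))
    (CovZ.topM TW_LL 0 (by decide +kernel) (CovZ.badM (by decide +kernel)))

theorem TW_s15_5 : SqZ TW_M TW_L [0, 7, 4, 3] (-4608) (-5632) 512 15 5 :=
  SqZ.mk (a := 3072) (b := 3584) (c := (-3072)) (d := (-2560)) (by norm_num) (by norm_num) (by norm_num) (by norm_num)
    (CovZ.topM TW_LL 0 (by decide +kernel) (CovZ.badM (by decide +kernel)))
    (CovZ.topM TW_LL 0 (by decide +kernel) (CovZ.badM (by decide +kernel)))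

theorem TW_s16_5 : SqZ TW_M TW_L [0, 7, 4, 3] (-4608) (-5632) 512 16 5 :=
  SqZ.mk (a := 3584) (b := 4096) (c := (-3072)) (d := (-2560)) (by norm_num) (by norm_num) (by norm_num) (by norm_num)
    (CovZ.topM TW_LL 0 (by decide +kernel) (CovZ.badM (by decide +kernel)))
    (CovZ.topM TW_LL 0 (by decide +kernel) (CovZ.badM (by decide +kernel)))

theorem TW_s0_6 : SqZ TW_M TW_L [0, 7, 4, 3] (-4608) (-5632) 512 0 6 :=
  SqZ.mk (a := (-4608)) (b := (-4096)) (c := (-2560)) (d := (-2048)) (by norm_num) (by norm_num) (by norm_num) (by norm_num)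
    (CovZ.topM TW_LL 0 (by decide +kernel) (CovZ.badM (by decide +kernel)))
    (CovZ.topM TW_LL 0 (by decide +kernel) (CovZ.badM (by decide +kernel)))

theorem TW_s1_6 : SqZ TW_M TW_L [0, 7, 4, 3] (-4608) (-5632) 512 1 6 :=
  SqZ.mk (a := (-4096)) (b := (-3584)) (c := (-2560)) (d := (-2048)) (by norm_num) (by norm_num) (by norm_num) (by norm_num)
    (CovZ.topM TW_LL 0 (by decide +kernel) (CovZ.badM (by decide +kernel)))
    (CovZ.topM TW_LL 0 (by decide +kernel) (CovZ.badM (by decide +kernel)))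

theorem TW_s2_6 : SqZ TW_M TW_L [0, 7, 4, 3] (-4608) (-5632) 512 2 6 :=
  SqZ.mk (a := (-3584)) (b := (-3072)) (c := (-2560)) (d := (-2048)) (by norm_num) (by norm_num) (by norm_num) (by norm_num)
    (CovZ.topM TW_LL 2 (by decide +kernel) (CovZ.n2 (-3328, -2304) (by decide +kernel)
    (CovZ.n2 (-3072, -2304) (by decide +kernel)
     (CovZ.n2 (-3200, -2432) (by decide +kernel)
      (CovZ.n2 (-3200, -2304) (by decide +kernel)
       (CovZ.leaf K2_ok TW_l302 _)
       (CovZ.leaf K2_ok TW_l303 _))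
      (CovZ.n1 (-3072, -2432) (by decide +kernel)
       (CovZ.leaf K2_ok TW_l304 _)
       (CovZ.leaf K2_ok TW_l305 _)))
     (CovZ.n1 (-3200, -2176) (by decide +kernel)
      (CovZ.n2 (-3072, -2176) (by decide +kernel)
       (CovZ.n2 (-3136, -2240) (by decide +kernel)
        (CovZ.badM (by decide +kernel))
        (CovZ.leaf K2_ok TW_l307 _))
       (CovZ.badM (by decide +kernel)))
      (CovZ.n1 (-3200, -2304) (by decide +kernel)
       (CovZ.badM (by decide +kernel))
       (CovZ.leaf K2_ok TW_l313 _))))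
    (CovZ.n1 (-3328, -2560) (by decide +kernel)
     (CovZ.badM (by decide +kernel))
     (CovZ.n1 (-3200, -2432) (by decide +kernel)
      (CovZ.leaf K2_ok TW_l319 _)
      (CovZ.n1 (-3328, -2432) (by decide +kernel)
       (CovZ.leaf K2_ok TW_l320 _)
       (CovZ.leaf K2_ok TW_l321 _))))))
    (CovZ.topM TW_LL 0 (by decide +kernel) (CovZ.badM (by decide +kernel)))

theorem TW_s3_6 : SqZ TW_M TW_L [0, 7, 4, 3] (-4608) (-5632) 512 3 6 :=
  SqZ.mk (a := (-3072)) (b := (-2560)) (c := (-2560)) (d := (-2048)) (by norm_num) (by norm_num) (by norm_num) (by norm_num)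
    (CovZ.topM TW_LL 18 (by decide +kernel) (CovZ.n2 (-2816, -2304) (by decide +kernel)
    (CovZ.n2 (-2560, -2304) (by decide +kernel)
     (CovZ.n2 (-2688, -2432) (by decide +kernel)
      (CovZ.leaf K2_ok TW_l574 _)
      (CovZ.leaf K2_ok TW_l575 _))
     (CovZ.n1 (-2688, -2176) (by decide +kernel)
      (CovZ.n2 (-2560, -2176) (by decide +kernel)
       (CovZ.leaf K2_ok TW_l576 _)
       (CovZ.leaf K2_ok TW_l577 _))
      (CovZ.n1 (-2688, -2304) (by decide +kernel)
       (CovZ.leaf K2_ok TW_l578 _)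
       (CovZ.leaf K2_ok TW_l579 _))))
    (CovZ.n1 (-2816, -2560) (by decide +kernel)
     (CovZ.n2 (-2944, -2432) (by decide +kernel)
      (CovZ.leaf K2_ok TW_l580 _)
      (CovZ.leaf K2_ok TW_l581 _))
     (CovZ.leaf K2_ok TW_l582 _))))
    (CovZ.topM TW_LL 18 (by decide +kernel) (CovZ.n0 (-2816, -2304) (by decide +kernel)
    (CovZ.n2 (-3072, -2304) (by decide +kernel)
     (CovZ.n2 (-2944, -2176) (by decide +kernel)
      (CovZ.n2 (-2944, -2304) (by decide +kernel)
       (CovZ.leaf K2_ok TW_l583 _)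
       (CovZ.leaf K2_ok TW_l584 _))
      (CovZ.n1 (-3072, -2176) (by decide +kernel)
       (CovZ.n2 (-3008, -2112) (by decide +kernel)
        (CovZ.leaf K2_ok TW_l585 _)
        (CovZ.leaf K2_ok TW_l586 _))
       (CovZ.leaf K2_ok TW_l587 _)))
     (CovZ.n1 (-2944, -2432) (by decide +kernel)
      (CovZ.leaf K2_ok TW_l588 _)
      (CovZ.n1 (-2944, -2304) (by decide +kernel)
       (CovZ.leaf K2_ok TW_l589 _)
       (CovZ.leaf K2_ok TW_l590 _))))
    (CovZ.n1 (-2816, -2048) (by decide +kernel)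
     (CovZ.n2 (-2688, -2176) (by decide +kernel)
      (CovZ.leaf K2_ok TW_l591 _)
      (CovZ.n1 (-2688, -2048) (by decide +kernel)
       (CovZ.leaf K2_ok TW_l592 _)
       (CovZ.leaf K2_ok TW_l593 _)))
     (CovZ.n1 (-2944, -2176) (by decide +kernel)
      (CovZ.n2 (-2944, -2048) (by decide +kernel)
       (CovZ.n2 (-2880, -2112) (by decide +kernel)
        (CovZ.leaf K2_ok TW_l594 _)
        (CovZ.leaf K2_ok TW_l595 _))
       (CovZ.n1 (-3008, -2112) (by decide +kernel)
        (CovZ.leaf K2_ok TW_l596 _)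
        (CovZ.leaf K2_ok TW_l597 _)))
      (CovZ.n1 (-2816, -2176) (by decide +kernel)
       (CovZ.leaf K2_ok TW_l598 _)
       (CovZ.leaf K2_ok TW_l599 _))))))

theorem TW_s4_6 : SqZ TW_M TW_L [0, 7, 4, 3] (-4608) (-5632) 512 4 6 :=
  SqZ.mk (a := (-2560)) (b := (-2048)) (c := (-2560)) (d := (-2048)) (by norm_num) (by norm_num) (by norm_num) (by norm_num)
    (CovZ.topM TW_LL 26 (by decide +kernel) (CovZ.n2 (-2304, -2304) (by decide +kernel)
    (CovZ.n2 (-2048, -2304) (by decide +kernel)
     (CovZ.n2 (-2176, -2432) (by decide +kernel)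
      (CovZ.leaf K2_ok TW_l1000 _)
      (CovZ.n1 (-2048, -2432) (by decide +kernel)
       (CovZ.leaf K2_ok TW_l1001 _)
       (CovZ.leaf K2_ok TW_l1002 _)))
     (CovZ.leaf K2_ok TW_l1003 _))
    (CovZ.n1 (-2304, -2560) (by decide +kernel)
     (CovZ.leaf K2_ok TW_l1004 _)
     (CovZ.leaf K2_ok TW_l1005 _))))
    (CovZ.topM TW_LL 26 (by decide +kernel) (CovZ.n0 (-2304, -2304) (by decide +kernel)
    (CovZ.n2 (-2560, -2304) (by decide +kernel)
     (CovZ.leaf K2_ok TW_l1006 _)
     (CovZ.leaf K2_ok TW_l1007 _))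
    (CovZ.n1 (-2304, -2048) (by decide +kernel)
     (CovZ.leaf K2_ok TW_l1008 _)
     (CovZ.n1 (-2432, -2176) (by decide +kernel)
      (CovZ.leaf K2_ok TW_l1009 _)
      (CovZ.leaf K2_ok TW_l1010 _)))))

theorem TW_s5_6 : SqZ TW_M TW_L [0, 7, 4, 3] (-4608) (-5632) 512 5 6 :=
  SqZ.mk (a := (-2048)) (b := (-1536)) (c := (-2560)) (d := (-2048)) (by norm_num) (by norm_num) (by norm_num) (by norm_num)
    (CovZ.topM TW_LL 30 (by decide +kernel) (CovZ.n2 (-1792, -2304) (by decide +kernel)
    (CovZ.n2 (-1536, -2304) (by decide +kernel)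
     (CovZ.n2 (-1664, -2432) (by decide +kernel)
      (CovZ.n2 (-1664, -2304) (by decide +kernel)
       (CovZ.n2 (-1600, -2368) (by decide +kernel)
        (CovZ.leaf K2_ok TW_l1386 _)
        (CovZ.leaf K2_ok TW_l1387 _))
       (CovZ.n1 (-1728, -2368) (by decide +kernel)
        (CovZ.leaf K2_ok TW_l1388 _)
        (CovZ.n1 (-1664, -2368) (by decide +kernel)
         (CovZ.leaf K2_ok TW_l1389 _)
         (CovZ.leaf K2_ok TW_l1390 _))))
      (CovZ.n1 (-1536, -2432) (by decide +kernel)
       (CovZ.n2 (-1600, -2496) (by decide +kernel)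
        (CovZ.n2 (-1600, -2432) (by decide +kernel)
         (CovZ.leaf K2_ok TW_l1391 _)
         (CovZ.leaf K2_ok TW_l1392 _))
        (CovZ.n1 (-1536, -2496) (by decide +kernel)
         (CovZ.leaf K2_ok TW_l1393 _)
         (CovZ.leaf K2_ok TW_l1394 _)))
       (CovZ.n1 (-1600, -2368) (by decide +kernel)
        (CovZ.n2 (-1536, -2368) (by decide +kernel)
         (CovZ.leaf K2_ok TW_l1395 _)
         (CovZ.leaf K2_ok TW_l1396 _))
        (CovZ.leaf K2_ok TW_l1397 _))))
     (CovZ.n1 (-1664, -2176) (by decide +kernel)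
      (CovZ.n2 (-1536, -2176) (by decide +kernel)
       (CovZ.n2 (-1600, -2240) (by decide +kernel)
        (CovZ.leaf K2_ok TW_l1398 _)
        (CovZ.leaf K2_ok TW_l1399 _))
       (CovZ.leaf K2_ok TW_l1400 _))
      (CovZ.n1 (-1664, -2304) (by decide +kernel)
       (CovZ.leaf K2_ok TW_l1401 _)
       (CovZ.leaf K2_ok TW_l1402 _))))
    (CovZ.n1 (-1792, -2560) (by decide +kernel)
     (CovZ.n2 (-1920, -2432) (by decide +kernel)
      (CovZ.n2 (-1792, -2432) (by decide +kernel)
       (CovZ.n2 (-1856, -2496) (by decide +kernel)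
        (CovZ.leaf K2_ok TW_l1403 _)
        (CovZ.n1 (-1792, -2496) (by decide +kernel)
         (CovZ.leaf K2_ok TW_l1404 _)
         (CovZ.leaf K2_ok TW_l1405 _)))
       (CovZ.leaf K2_ok TW_l1406 _))
      (CovZ.n1 (-1920, -2560) (by decide +kernel)
       (CovZ.n2 (-1984, -2496) (by decide +kernel)
        (CovZ.leaf K2_ok TW_l1407 _)
        (CovZ.leaf K2_ok TW_l1408 _))
       (CovZ.n1 (-1856, -2496) (by decide +kernel)
        (CovZ.leaf K2_ok TW_l1409 _)
        (CovZ.n1 (-1920, -2496) (by decide +kernel)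
         (CovZ.leaf K2_ok TW_l1410 _)
         (CovZ.leaf K2_ok TW_l1411 _)))))
     (CovZ.n1 (-1664, -2432) (by decide +kernel)
      (CovZ.n2 (-1664, -2560) (by decide +kernel)
       (CovZ.n2 (-1728, -2496) (by decide +kernel)
        (CovZ.n2 (-1664, -2496) (by decide +kernel)
         (CovZ.leaf K2_ok TW_l1412 _)
         (CovZ.leaf K2_ok TW_l1413 _))
        (CovZ.leaf K2_ok TW_l1414 _))
       (CovZ.n1 (-1600, -2496) (by decide +kernel)
        (CovZ.leaf K2_ok TW_l1415 _)
        (CovZ.leaf K2_ok TW_l1416 _)))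
      (CovZ.n1 (-1792, -2432) (by decide +kernel)
       (CovZ.n2 (-1728, -2368) (by decide +kernel)
        (CovZ.leaf K2_ok TW_l1417 _)
        (CovZ.leaf K2_ok TW_l1418 _))
       (CovZ.n1 (-1728, -2496) (by decide +kernel)
        (CovZ.n2 (-1792, -2496) (by decide +kernel)
         (CovZ.leaf K2_ok TW_l1419 _)
         (CovZ.leaf K2_ok TW_l1420 _))
        (CovZ.n1 (-1728, -2432) (by decide +kernel)
         (CovZ.leaf K2_ok TW_l1421 _)
         (CovZ.leaf K2_ok TW_l1422 _))))))))
    (CovZ.topM TW_LL 30 (by decide +kernel) (CovZ.n0 (-1792, -2304) (by decide +kernel)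
    (CovZ.n2 (-2048, -2304) (by decide +kernel)
     (CovZ.leaf K2_ok TW_l1423 _)
     (CovZ.n1 (-1920, -2432) (by decide +kernel)
      (CovZ.n2 (-2048, -2432) (by decide +kernel)
       (CovZ.leaf K2_ok TW_l1424 _)
       (CovZ.leaf K2_ok TW_l1425 _))
      (CovZ.n1 (-1920, -2304) (by decide +kernel)
       (CovZ.leaf K2_ok TW_l1426 _)
       (CovZ.leaf K2_ok TW_l1427 _))))
    (CovZ.n1 (-1792, -2048) (by decide +kernel)
     (CovZ.n2 (-1664, -2176) (by decide +kernel)
      (CovZ.n2 (-1792, -2176) (by decide +kernel)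
       (CovZ.leaf K2_ok TW_l1428 _)
       (CovZ.leaf K2_ok TW_l1429 _))
      (CovZ.leaf K2_ok TW_l1430 _))
     (CovZ.n1 (-1920, -2176) (by decide +kernel)
      (CovZ.leaf K2_ok TW_l1431 _)
      (CovZ.n1 (-1792, -2176) (by decide +kernel)
       (CovZ.leaf K2_ok TW_l1432 _)
       (CovZ.leaf K2_ok TW_l1433 _))))))

theorem TW_s6_6 : SqZ TW_M TW_L [0, 7, 4, 3] (-4608) (-5632) 512 6 6 :=
  SqZ.mk (a := (-1536)) (b := (-1024)) (c := (-2560)) (d := (-2048)) (by norm_num) (by norm_num) (by norm_num) (by norm_num)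
    (CovZ.topM TW_LL 22 (by decide +kernel) (CovZ.n2 (-1280, -2304) (by decide +kernel)
    (CovZ.n2 (-1024, -2304) (by decide +kernel)
     (CovZ.n2 (-1152, -2432) (by decide +kernel)
      (CovZ.n2 (-1152, -2304) (by decide +kernel)
       (CovZ.leaf K2_ok TW_l1852 _)
       (CovZ.n1 (-1216, -2368) (by decide +kernel)
        (CovZ.leaf K2_ok TW_l1853 _)
        (CovZ.leaf K2_ok TW_l1854 _)))
      (CovZ.n1 (-1024, -2432) (by decide +kernel)
       (CovZ.n2 (-1088, -2496) (by decide +kernel)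
        (CovZ.leaf K2_ok TW_l1855 _)
        (CovZ.leaf K2_ok TW_l1856 _))
       (CovZ.leaf K2_ok TW_l1857 _)))
     (CovZ.n1 (-1152, -2176) (by decide +kernel)
      (CovZ.n2 (-1024, -2176) (by decide +kernel)
       (CovZ.leaf K2_ok TW_l1858 _)
       (CovZ.leaf K2_ok TW_l1859 _))
      (CovZ.n1 (-1152, -2304) (by decide +kernel)
       (CovZ.leaf K2_ok TW_l1860 _)
       (CovZ.leaf K2_ok TW_l1861 _))))
    (CovZ.n1 (-1280, -2560) (by decide +kernel)
     (CovZ.n2 (-1408, -2432) (by decide +kernel)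
      (CovZ.n2 (-1280, -2432) (by decide +kernel)
       (CovZ.n2 (-1344, -2496) (by decide +kernel)
        (CovZ.leaf K2_ok TW_l1862 _)
        (CovZ.leaf K2_ok TW_l1863 _))
       (CovZ.n1 (-1344, -2368) (by decide +kernel)
        (CovZ.leaf K2_ok TW_l1864 _)
        (CovZ.leaf K2_ok TW_l1865 _)))
      (CovZ.n1 (-1408, -2560) (by decide +kernel)
       (CovZ.n2 (-1472, -2496) (by decide +kernel)
        (CovZ.leaf K2_ok TW_l1866 _)
        (CovZ.leaf K2_ok TW_l1867 _))
       (CovZ.leaf K2_ok TW_l1868 _)))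
     (CovZ.n1 (-1152, -2432) (by decide +kernel)
      (CovZ.n2 (-1152, -2560) (by decide +kernel)
       (CovZ.leaf K2_ok TW_l1869 _)
       (CovZ.leaf K2_ok TW_l1870 _))
      (CovZ.n1 (-1280, -2432) (by decide +kernel)
       (CovZ.leaf K2_ok TW_l1871 _)
       (CovZ.leaf K2_ok TW_l1872 _))))))
    (CovZ.topM TW_LL 22 (by decide +kernel) (CovZ.n0 (-1280, -2304) (by decide +kernel)
    (CovZ.n2 (-1536, -2304) (by decide +kernel)
     (CovZ.n2 (-1408, -2176) (by decide +kernel)
      (CovZ.n2 (-1408, -2304) (by decide +kernel)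
       (CovZ.n2 (-1472, -2240) (by decide +kernel)
        (CovZ.leaf K2_ok TW_l1873 _)
        (CovZ.leaf K2_ok TW_l1874 _))
       (CovZ.leaf K2_ok TW_l1875 _))
      (CovZ.n1 (-1536, -2176) (by decide +kernel)
       (CovZ.leaf K2_ok TW_l1876 _)
       (CovZ.n1 (-1472, -2240) (by decide +kernel)
        (CovZ.leaf K2_ok TW_l1877 _)
        (CovZ.leaf K2_ok TW_l1878 _))))
     (CovZ.n1 (-1408, -2432) (by decide +kernel)
      (CovZ.n2 (-1536, -2432) (by decide +kernel)
       (CovZ.leaf K2_ok TW_l1879 _)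
       (CovZ.n1 (-1472, -2496) (by decide +kernel)
        (CovZ.leaf K2_ok TW_l1880 _)
        (CovZ.leaf K2_ok TW_l1881 _)))
      (CovZ.n1 (-1408, -2304) (by decide +kernel)
       (CovZ.n2 (-1344, -2368) (by decide +kernel)
        (CovZ.leaf K2_ok TW_l1882 _)
        (CovZ.leaf K2_ok TW_l1883 _))
       (CovZ.n1 (-1472, -2368) (by decide +kernel)
        (CovZ.leaf K2_ok TW_l1884 _)
        (CovZ.leaf K2_ok TW_l1885 _)))))
    (CovZ.n1 (-1280, -2048) (by decide +kernel)
     (CovZ.n2 (-1152, -2176) (by decide +kernel)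
      (CovZ.n2 (-1280, -2176) (by decide +kernel)
       (CovZ.leaf K2_ok TW_l1886 _)
       (CovZ.leaf K2_ok TW_l1887 _))
      (CovZ.n1 (-1152, -2048) (by decide +kernel)
       (CovZ.leaf K2_ok TW_l1888 _)
       (CovZ.n1 (-1216, -2112) (by decide +kernel)
        (CovZ.leaf K2_ok TW_l1889 _)
        (CovZ.leaf K2_ok TW_l1890 _))))
     (CovZ.n1 (-1408, -2176) (by decide +kernel)
      (CovZ.n2 (-1408, -2048) (by decide +kernel)
       (CovZ.leaf K2_ok TW_l1891 _)
       (CovZ.leaf K2_ok TW_l1892 _))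
      (CovZ.n1 (-1280, -2176) (by decide +kernel)
       (CovZ.n2 (-1344, -2240) (by decide +kernel)
        (CovZ.leaf K2_ok TW_l1893 _)
        (CovZ.leaf K2_ok TW_l1894 _))
       (CovZ.leaf K2_ok TW_l1895 _))))))

theorem TW_s7_6 : SqZ TW_M TW_L [0, 7, 4, 3] (-4608) (-5632) 512 7 6 :=
  SqZ.mk (a := (-1024)) (b := (-512)) (c := (-2560)) (d := (-2048)) (by norm_num) (by norm_num) (by norm_num) (by norm_num)
    (CovZ.topM TW_LL 22 (by decide +kernel) (CovZ.n2 (-768, -2304) (by decide +kernel)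
    (CovZ.n2 (-512, -2304) (by decide +kernel)
     (CovZ.n2 (-640, -2432) (by decide +kernel)
      (CovZ.leaf K2_ok TW_l2177 _)
      (CovZ.leaf K2_ok TW_l2178 _))
     (CovZ.n1 (-640, -2176) (by decide +kernel)
      (CovZ.leaf K2_ok TW_l2179 _)
      (CovZ.leaf K2_ok TW_l2180 _)))
    (CovZ.n1 (-768, -2560) (by decide +kernel)
     (CovZ.n2 (-896, -2432) (by decide +kernel)
      (CovZ.n2 (-768, -2432) (by decide +kernel)
       (CovZ.leaf K2_ok TW_l2181 _)
       (CovZ.leaf K2_ok TW_l2182 _))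
      (CovZ.leaf K2_ok TW_l2183 _))
     (CovZ.n1 (-640, -2432) (by decide +kernel)
      (CovZ.leaf K2_ok TW_l2184 _)
      (CovZ.n1 (-768, -2432) (by decide +kernel)
       (CovZ.leaf K2_ok TW_l2185 _)
       (CovZ.leaf K2_ok TW_l2186 _))))))
    (CovZ.topM TW_LL 22 (by decide +kernel) (CovZ.n0 (-768, -2304) (by decide +kernel)
    (CovZ.n2 (-1024, -2304) (by decide +kernel)
     (CovZ.n2 (-896, -2176) (by decide +kernel)
      (CovZ.leaf K2_ok TW_l2187 _)
      (CovZ.n1 (-1024, -2176) (by decide +kernel)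
       (CovZ.leaf K2_ok TW_l2188 _)
       (CovZ.leaf K2_ok TW_l2189 _)))
     (CovZ.n1 (-896, -2432) (by decide +kernel)
      (CovZ.n2 (-1024, -2432) (by decide +kernel)
       (CovZ.leaf K2_ok TW_l2190 _)
       (CovZ.leaf K2_ok TW_l2191 _))
      (CovZ.n1 (-896, -2304) (by decide +kernel)
       (CovZ.leaf K2_ok TW_l2192 _)
       (CovZ.leaf K2_ok TW_l2193 _))))
    (CovZ.n1 (-768, -2048) (by decide +kernel)
     (CovZ.n2 (-640, -2176) (by decide +kernel)
      (CovZ.n2 (-768, -2176) (by decide +kernel)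
       (CovZ.leaf K2_ok TW_l2194 _)
       (CovZ.leaf K2_ok TW_l2195 _))
      (CovZ.leaf K2_ok TW_l2196 _))
     (CovZ.n1 (-896, -2176) (by decide +kernel)
      (CovZ.n2 (-896, -2048) (by decide +kernel)
       (CovZ.leaf K2_ok TW_l2197 _)
       (CovZ.leaf K2_ok TW_l2198 _))
      (CovZ.n1 (-768, -2176) (by decide +kernel)
       (CovZ.leaf K2_ok TW_l2199 _)
       (CovZ.leaf K2_ok TW_l2200 _))))))

theorem TW_s8_6 : SqZ TW_M TW_L [0, 7, 4, 3] (-4608) (-5632) 512 8 6 :=
  SqZ.mk (a := (-512)) (b := 0) (c := (-2560)) (d := (-2048)) (by norm_num) (by norm_num) (by norm_num) (by norm_num)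
    (CovZ.topM TW_LL 22 (by decide +kernel) (CovZ.n2 (-256, -2304) (by decide +kernel)
    (CovZ.n2 (0, -2304) (by decide +kernel)
     (CovZ.n2 (-128, -2432) (by decide +kernel)
      (CovZ.leaf K2_ok TW_l2421 _)
      (CovZ.leaf K2_ok TW_l2422 _))
     (CovZ.n1 (-128, -2176) (by decide +kernel)
      (CovZ.leaf K2_ok TW_l2423 _)
      (CovZ.leaf K2_ok TW_l2424 _)))
    (CovZ.n1 (-256, -2560) (by decide +kernel)
     (CovZ.n2 (-384, -2432) (by decide +kernel)
      (CovZ.leaf K2_ok TW_l2425 _)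
      (CovZ.leaf K2_ok TW_l2426 _))
     (CovZ.leaf K2_ok TW_l2427 _))))
    (CovZ.topM TW_LL 22 (by decide +kernel) (CovZ.n0 (-256, -2304) (by decide +kernel)
    (CovZ.n2 (-512, -2304) (by decide +kernel)
     (CovZ.n2 (-384, -2176) (by decide +kernel)
      (CovZ.leaf K2_ok TW_l2428 _)
      (CovZ.leaf K2_ok TW_l2429 _))
     (CovZ.n1 (-384, -2432) (by decide +kernel)
      (CovZ.leaf K2_ok TW_l2430 _)
      (CovZ.leaf K2_ok TW_l2431 _)))
    (CovZ.n1 (-256, -2048) (by decide +kernel)
     (CovZ.n2 (-128, -2176) (by decide +kernel)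
      (CovZ.leaf K2_ok TW_l2432 _)
      (CovZ.leaf K2_ok TW_l2433 _))
     (CovZ.n1 (-384, -2176) (by decide +kernel)
      (CovZ.leaf K2_ok TW_l2434 _)
      (CovZ.leaf K2_ok TW_l2435 _)))))

theorem TW_s9_6 : SqZ TW_M TW_L [0, 7, 4, 3] (-4608) (-5632) 512 9 6 :=
  SqZ.mk (a := 0) (b := 512) (c := (-2560)) (d := (-2048)) (by norm_num) (by norm_num) (by norm_num) (by norm_num)
    (CovZ.topM TW_LL 6 (by decide +kernel) (CovZ.n2 (256, -2304) (by decide +kernel)
    (CovZ.n2 (512, -2304) (by decide +kernel)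
     (CovZ.n2 (384, -2432) (by decide +kernel)
      (CovZ.n2 (384, -2304) (by decide +kernel)
       (CovZ.n2 (448, -2368) (by decide +kernel)
        (CovZ.leaf K2_ok TW_l4014 _)
        (CovZ.leaf K2_ok TW_l4015 _))
       (CovZ.leaf K2_ok TW_l2510 _))
      (CovZ.n1 (512, -2432) (by decide +kernel)
       (CovZ.n2 (448, -2496) (by decide +kernel)
        (CovZ.leaf K2_ok TW_l4016 _)
        (CovZ.n1 (512, -2496) (by decide +kernel)
         (CovZ.n2 (480, -2528) (by decide +kernel)
          (CovZ.leaf K2_ok TW_l4017 _)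
          (CovZ.leaf K2_ok TW_l4018 _))
         (CovZ.leaf K2_ok TW_l4019 _)))
       (CovZ.n1 (448, -2368) (by decide +kernel)
        (CovZ.leaf K2_ok TW_l4020 _)
        (CovZ.leaf K2_ok TW_l4021 _))))
     (CovZ.n1 (384, -2176) (by decide +kernel)
      (CovZ.n2 (512, -2176) (by decide +kernel)
       (CovZ.leaf K2_ok TW_l2511 _)
       (CovZ.leaf K2_ok TW_l2512 _))
      (CovZ.leaf K2_ok TW_l2513 _)))
    (CovZ.n1 (256, -2560) (by decide +kernel)
     (CovZ.n2 (128, -2432) (by decide +kernel)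
      (CovZ.n2 (256, -2432) (by decide +kernel)
       (CovZ.leaf K2_ok TW_l2514 _)
       (CovZ.leaf K2_ok TW_l2515 _))
      (CovZ.leaf K2_ok TW_l2516 _))
     (CovZ.n1 (384, -2432) (by decide +kernel)
      (CovZ.n2 (384, -2560) (by decide +kernel)
       (CovZ.leaf K2_ok TW_l4022 _)
       (CovZ.n1 (448, -2496) (by decide +kernel)
        (CovZ.n2 (448, -2560) (by decide +kernel)
         (CovZ.leaf K2_ok TW_l4023 _)
         (CovZ.leaf K2_ok TW_l4024 _))
        (CovZ.leaf K2_ok TW_l4025 _)))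
      (CovZ.n1 (256, -2432) (by decide +kernel)
       (CovZ.leaf K2_ok TW_l2517 _)
       (CovZ.leaf K2_ok TW_l2518 _))))))
    (CovZ.topM TW_LL 22 (by decide +kernel) (CovZ.n0 (256, -2304) (by decide +kernel)
    (CovZ.n2 (0, -2304) (by decide +kernel)
     (CovZ.leaf K2_ok TW_l2519 _)
     (CovZ.n1 (128, -2432) (by decide +kernel)
      (CovZ.leaf K2_ok TW_l2520 _)
      (CovZ.leaf K2_ok TW_l2521 _)))
    (CovZ.n1 (256, -2048) (by decide +kernel)
     (CovZ.n2 (384, -2176) (by decide +kernel)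
      (CovZ.leaf K2_ok TW_l2522 _)
      (CovZ.leaf K2_ok TW_l2523 _))
     (CovZ.n1 (128, -2176) (by decide +kernel)
      (CovZ.leaf K2_ok TW_l2524 _)
      (CovZ.leaf K2_ok TW_l2525 _)))))

theorem TW_s10_6 : SqZ TW_M TW_L [0, 7, 4, 3] (-4608) (-5632) 512 10 6 :=
  SqZ.mk (a := 512) (b := 1024) (c := (-2560)) (d := (-2048)) (by norm_num) (by norm_num) (by norm_num) (by norm_num)
    (CovZ.topM TW_LL 7 (by decide +kernel) (CovZ.n2 (768, -2304) (by decide +kernel)
    TW_u10
    TW_u11))
    (CovZ.topM TW_LL 7 (by decide +kernel) (CovZ.n0 (768, -2304) (by decide +kernel)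
    (CovZ.n2 (512, -2304) (by decide +kernel)
     (CovZ.n2 (640, -2176) (by decide +kernel)
      (CovZ.n2 (640, -2304) (by decide +kernel)
       (CovZ.n2 (576, -2240) (by decide +kernel)
        (CovZ.n2 (640, -2240) (by decide +kernel)
         (CovZ.n2 (608, -2272) (by decide +kernel)
          (CovZ.leaf K2_ok TW_l4266 _)
          (CovZ.leaf K2_ok TW_l4267 _))
         (CovZ.leaf K2_ok TW_l4268 _))
        (CovZ.n1 (576, -2304) (by decide +kernel)
         (CovZ.leaf K2_ok TW_l4269 _)
         (CovZ.leaf K2_ok TW_l4270 _)))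
       (CovZ.n1 (704, -2240) (by decide +kernel)
        (CovZ.n2 (704, -2304) (by decide +kernel)
         (CovZ.n2 (672, -2272) (by decide +kernel)
          (CovZ.leaf K2_ok TW_l4271 _)
          (CovZ.leaf K2_ok TW_l4272 _))
         (CovZ.n1 (736, -2272) (by decide +kernel)
          (CovZ.leaf K2_ok TW_l4273 _)
          (CovZ.leaf K2_ok TW_l4274 _)))
        (CovZ.n1 (640, -2240) (by decide +kernel)
         (CovZ.leaf K2_ok TW_l4275 _)
         (CovZ.n1 (672, -2272) (by decide +kernel)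
          (CovZ.leaf K2_ok TW_l4276 _)
          (CovZ.leaf K2_ok TW_l4277 _)))))
      (CovZ.n1 (512, -2176) (by decide +kernel)
       (CovZ.leaf K2_ok TW_l4278 _)
       (CovZ.n1 (576, -2240) (by decide +kernel)
        (CovZ.leaf K2_ok TW_l4279 _)
        (CovZ.leaf K2_ok TW_l4280 _))))
     (CovZ.n1 (640, -2432) (by decide +kernel)
      (CovZ.n2 (512, -2432) (by decide +kernel)
       (CovZ.n2 (576, -2368) (by decide +kernel)
        (CovZ.n2 (576, -2432) (by decide +kernel)
         (CovZ.n2 (544, -2400) (by decide +kernel)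
          (CovZ.leaf K2_ok TW_l4281 _)
          (CovZ.leaf K2_ok TW_l4282 _))
         (CovZ.n1 (608, -2400) (by decide +kernel)
          (CovZ.n2 (608, -2432) (by decide +kernel)
           (CovZ.leaf K2_ok TW_l4283 _)
           (CovZ.leaf K2_ok TW_l4284 _))
          (CovZ.leaf K2_ok TW_l4285 _)))
        (CovZ.n1 (512, -2368) (by decide +kernel)
         (CovZ.leaf K2_ok TW_l4286 _)
         (CovZ.leaf K2_ok TW_l4287 _)))
       (CovZ.n1 (576, -2496) (by decide +kernel)
        (CovZ.n2 (512, -2496) (by decide +kernel)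
         (CovZ.n2 (544, -2464) (by decide +kernel)
          (CovZ.leaf K2_ok TW_l4288 _)
          (CovZ.leaf K2_ok TW_l4289 _))
         (CovZ.n1 (544, -2528) (by decide +kernel)
          (CovZ.leaf K2_ok TW_l4290 _)
          (CovZ.leaf K2_ok TW_l4291 _)))
        (CovZ.n1 (576, -2432) (by decide +kernel)
         (CovZ.n2 (608, -2464) (by decide +kernel)
          (CovZ.n2 (576, -2464) (by decide +kernel)
           (CovZ.leaf K2_ok TW_l4292 _)
           (CovZ.n1 (592, -2480) (by decide +kernel)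
            (CovZ.leaf K2_ok TW_l4293 _)
            (CovZ.leaf K2_ok TW_l4294 _)))
          (CovZ.n1 (608, -2432) (by decide +kernel)
           (CovZ.n2 (624, -2448) (by decide +kernel)
            (CovZ.leaf K2_ok TW_l4295 _)
            (CovZ.leaf K2_ok TW_l4296 _))
           (CovZ.n1 (592, -2448) (by decide +kernel)
            (CovZ.leaf K2_ok TW_l4297 _)
            (CovZ.leaf K2_ok TW_l4298 _))))
         (CovZ.n1 (544, -2464) (by decide +kernel)
          (CovZ.leaf K2_ok TW_l4299 _)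
          (CovZ.n1 (576, -2464) (by decide +kernel)
           (CovZ.leaf K2_ok TW_l4300 _)
           (CovZ.leaf K2_ok TW_l4301 _))))))
      (CovZ.n1 (640, -2304) (by decide +kernel)
       (CovZ.n2 (704, -2368) (by decide +kernel)
        (CovZ.n2 (640, -2368) (by decide +kernel)
         (CovZ.n2 (672, -2336) (by decide +kernel)
          (CovZ.n2 (672, -2368) (by decide +kernel)
           (CovZ.leaf K2_ok TW_l4302 _)
           (CovZ.leaf K2_ok TW_l4303 _))
          (CovZ.leaf K2_ok TW_l4304 _))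
         (CovZ.n1 (672, -2400) (by decide +kernel)
          (CovZ.n2 (640, -2400) (by decide +kernel)
           (CovZ.leaf K2_ok TW_l4305 _)
           (CovZ.n1 (656, -2416) (by decide +kernel)
            (CovZ.leaf K2_ok TW_l4306 _)
            (CovZ.leaf K2_ok TW_l4307 _)))
          (CovZ.n1 (672, -2368) (by decide +kernel)
           (CovZ.n2 (688, -2384) (by decide +kernel)
            (CovZ.leaf K2_ok TW_l4308 _)
            (CovZ.leaf K2_ok TW_l4309 _))
           (CovZ.n1 (656, -2384) (by decide +kernel)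
            (CovZ.leaf K2_ok TW_l4310 _)
            (CovZ.leaf K2_ok TW_l4311 _)))))
        (CovZ.n1 (704, -2304) (by decide +kernel)
         (CovZ.n2 (736, -2336) (by decide +kernel)
          (CovZ.n2 (704, -2336) (by decide +kernel)
           (CovZ.leaf K2_ok TW_l4312 _)
           (CovZ.n1 (720, -2352) (by decide +kernel)
            (CovZ.leaf K2_ok TW_l4313 _)
            (CovZ.leaf K2_ok TW_l4314 _)))
          (CovZ.n1 (736, -2304) (by decide +kernel)
           (CovZ.leaf K2_ok TW_l4315 _)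
           (CovZ.leaf K2_ok TW_l4316 _)))
         (CovZ.n1 (672, -2336) (by decide +kernel)
          (CovZ.n2 (672, -2304) (by decide +kernel)
           (CovZ.leaf K2_ok TW_l4317 _)
           (CovZ.leaf K2_ok TW_l4318 _))
          (CovZ.n1 (704, -2336) (by decide +kernel)
           (CovZ.n2 (688, -2352) (by decide +kernel)
            (CovZ.leaf K2_ok TW_l4319 _)
            (CovZ.leaf K2_ok TW_l4320 _))
           (CovZ.leaf K2_ok TW_l4321 _)))))
       (CovZ.n1 (576, -2368) (by decide +kernel)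
        (CovZ.n2 (576, -2304) (by decide +kernel)
         (CovZ.n2 (608, -2336) (by decide +kernel)
          (CovZ.leaf K2_ok TW_l4322 _)
          (CovZ.leaf K2_ok TW_l4323 _))
         (CovZ.n1 (544, -2336) (by decide +kernel)
          (CovZ.leaf K2_ok TW_l4324 _)
          (CovZ.leaf K2_ok TW_l4325 _)))
        (CovZ.n1 (640, -2368) (by decide +kernel)
         (CovZ.n2 (608, -2400) (by decide +kernel)
          (CovZ.n2 (608, -2368) (by decide +kernel)
           (CovZ.leaf K2_ok TW_l4326 _)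
           (CovZ.leaf K2_ok TW_l4327 _))
          (CovZ.n1 (640, -2400) (by decide +kernel)
           (CovZ.n2 (624, -2416) (by decide +kernel)
            (CovZ.leaf K2_ok TW_l4328 _)
            (CovZ.leaf K2_ok TW_l4329 _))
           (CovZ.leaf K2_ok TW_l4330 _)))
         (CovZ.n1 (608, -2336) (by decide +kernel)
          (CovZ.leaf K2_ok TW_l4331 _)
          (CovZ.leaf K2_ok TW_l4332 _)))))))
    (CovZ.n1 (768, -2048) (by decide +kernel)
     (CovZ.n2 (896, -2176) (by decide +kernel)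
      (CovZ.n2 (768, -2176) (by decide +kernel)
       (CovZ.n2 (832, -2112) (by decide +kernel)
        (CovZ.n2 (832, -2176) (by decide +kernel)
         (CovZ.n2 (800, -2144) (by decide +kernel)
          (CovZ.leaf K2_ok TW_l4333 _)
          (CovZ.leaf K2_ok TW_l4334 _))
         (CovZ.leaf K2_ok TW_l4335 _))
        (CovZ.n1 (768, -2112) (by decide +kernel)
         (CovZ.leaf K2_ok TW_l4336 _)
         (CovZ.n1 (800, -2144) (by decide +kernel)
          (CovZ.leaf K2_ok TW_l4337 _)
          (CovZ.leaf K2_ok TW_l4338 _))))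
       (CovZ.n1 (832, -2240) (by decide +kernel)
        (CovZ.n2 (768, -2240) (by decide +kernel)
         (CovZ.n2 (800, -2208) (by decide +kernel)
          (CovZ.leaf K2_ok TW_l4339 _)
          (CovZ.leaf K2_ok TW_l4340 _))
         (CovZ.n1 (800, -2272) (by decide +kernel)
          (CovZ.n2 (768, -2272) (by decide +kernel)
           (CovZ.leaf K2_ok TW_l4341 _)
           (CovZ.leaf K2_ok TW_l4342 _))
          (CovZ.n1 (800, -2240) (by decide +kernel)
           (CovZ.leaf K2_ok TW_l4343 _)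
           (CovZ.leaf K2_ok TW_l4344 _))))
        (CovZ.n1 (832, -2176) (by decide +kernel)
         (CovZ.n2 (864, -2208) (by decide +kernel)
          (CovZ.leaf K2_ok TW_l4345 _)
          (CovZ.n1 (864, -2176) (by decide +kernel)
           (CovZ.leaf K2_ok TW_l4346 _)
           (CovZ.leaf K2_ok TW_l4347 _)))
         (CovZ.n1 (800, -2208) (by decide +kernel)
          (CovZ.leaf K2_ok TW_l4348 _)
          (CovZ.leaf K2_ok TW_l4349 _)))))
      (CovZ.n1 (896, -2048) (by decide +kernel)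
       (CovZ.n2 (960, -2112) (by decide +kernel)
        (CovZ.n2 (896, -2112) (by decide +kernel)
         (CovZ.leaf K2_ok TW_l4350 _)
         (CovZ.n1 (928, -2144) (by decide +kernel)
          (CovZ.leaf K2_ok TW_l4351 _)
          (CovZ.n1 (928, -2112) (by decide +kernel)
           (CovZ.leaf K2_ok TW_l4352 _)
           (CovZ.leaf K2_ok TW_l4353 _))))
        (CovZ.n1 (960, -2048) (by decide +kernel)
         (CovZ.n2 (992, -2080) (by decide +kernel)
          (CovZ.leaf K2_ok TW_l4354 _)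
          (CovZ.leaf K2_ok TW_l4355 _))
         (CovZ.n1 (928, -2080) (by decide +kernel)
          (CovZ.leaf K2_ok TW_l4356 _)
          (CovZ.leaf K2_ok TW_l4357 _))))
       (CovZ.n1 (832, -2112) (by decide +kernel)
        (CovZ.n2 (832, -2048) (by decide +kernel)
         (CovZ.leaf K2_ok TW_l4358 _)
         (CovZ.leaf K2_ok TW_l4359 _))
        (CovZ.n1 (896, -2112) (by decide +kernel)
         (CovZ.n2 (864, -2144) (by decide +kernel)
          (CovZ.leaf K2_ok TW_l4360 _)
          (CovZ.leaf K2_ok TW_l4361 _))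
         (CovZ.leaf K2_ok TW_l4362 _)))))
     (CovZ.n1 (640, -2176) (by decide +kernel)
      (CovZ.n2 (640, -2048) (by decide +kernel)
       (CovZ.n2 (704, -2112) (by decide +kernel)
        (CovZ.leaf K2_ok TW_l4363 _)
        (CovZ.n1 (704, -2048) (by decide +kernel)
         (CovZ.leaf K2_ok TW_l4364 _)
         (CovZ.leaf K2_ok TW_l4365 _)))
       (CovZ.n1 (576, -2112) (by decide +kernel)
        (CovZ.leaf K2_ok TW_l4366 _)
        (CovZ.leaf K2_ok TW_l4367 _)))
      (CovZ.n1 (768, -2176) (by decide +kernel)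
       (CovZ.n2 (704, -2240) (by decide +kernel)
        (CovZ.n2 (704, -2176) (by decide +kernel)
         (CovZ.n2 (736, -2208) (by decide +kernel)
          (CovZ.leaf K2_ok TW_l4368 _)
          (CovZ.leaf K2_ok TW_l4369 _))
         (CovZ.n1 (672, -2208) (by decide +kernel)
          (CovZ.leaf K2_ok TW_l4370 _)
          (CovZ.leaf K2_ok TW_l4371 _)))
        (CovZ.n1 (768, -2240) (by decide +kernel)
         (CovZ.n2 (736, -2272) (by decide +kernel)
          (CovZ.n2 (736, -2240) (by decide +kernel)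
           (CovZ.leaf K2_ok TW_l4372 _)
           (CovZ.leaf K2_ok TW_l4373 _))
          (CovZ.n1 (768, -2272) (by decide +kernel)
           (CovZ.leaf K2_ok TW_l4374 _)
           (CovZ.leaf K2_ok TW_l4375 _)))
         (CovZ.n1 (736, -2208) (by decide +kernel)
          (CovZ.leaf K2_ok TW_l4376 _)
          (CovZ.leaf K2_ok TW_l4377 _))))
       (CovZ.n1 (704, -2112) (by decide +kernel)
        (CovZ.n2 (768, -2112) (by decide +kernel)
         (CovZ.n2 (736, -2144) (by decide +kernel)
          (CovZ.leaf K2_ok TW_l4378 _)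
          (CovZ.leaf K2_ok TW_l4379 _))
         (CovZ.leaf K2_ok TW_l4380 _))
        (CovZ.n1 (704, -2176) (by decide +kernel)
         (CovZ.leaf K2_ok TW_l4381 _)
         (CovZ.leaf K2_ok TW_l4382 _))))))))

theorem TW_s11_6 : SqZ TW_M TW_L [0, 7, 4, 3] (-4608) (-5632) 512 11 6 :=
  SqZ.mk (a := 1024) (b := 1536) (c := (-2560)) (d := (-2048)) (by norm_num) (by norm_num) (by norm_num) (by norm_num)
    (CovZ.topM TW_LL 0 (by decide +kernel) (CovZ.badM (by decide +kernel)))
    (CovZ.topM TW_LL 3 (by decide +kernel) (CovZ.n0 (1280, -2304) (by decide +kernel)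
    (CovZ.n2 (1024, -2304) (by decide +kernel)
     (CovZ.n2 (1152, -2176) (by decide +kernel)
      (CovZ.badM (by decide +kernel))
      (CovZ.n1 (1024, -2176) (by decide +kernel)
       (CovZ.n2 (1088, -2112) (by decide +kernel)
        (CovZ.badM (by decide +kernel))
        (CovZ.n1 (1024, -2112) (by decide +kernel)
         (CovZ.n2 (1056, -2080) (by decide +kernel)
          (CovZ.badM (by decide +kernel))
          (CovZ.n1 (1024, -2080) (by decide +kernel)
           (CovZ.leaf K2_ok TW_l4481 _)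
           (CovZ.leaf K2_ok TW_l4482 _)))
         (CovZ.badM (by decide +kernel))))
       (CovZ.badM (by decide +kernel))))
     (CovZ.badM (by decide +kernel)))
    (CovZ.n1 (1280, -2048) (by decide +kernel)
     (CovZ.badM (by decide +kernel))
     (CovZ.n1 (1152, -2176) (by decide +kernel)
      (CovZ.n2 (1152, -2048) (by decide +kernel)
       (CovZ.badM (by decide +kernel))
       (CovZ.n1 (1088, -2112) (by decide +kernel)
        (CovZ.n2 (1088, -2048) (by decide +kernel)
         (CovZ.n2 (1120, -2080) (by decide +kernel)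
          (CovZ.n2 (1088, -2080) (by decide +kernel)
           (CovZ.leaf K2_ok TW_l4483 _)
           (CovZ.badM (by decide +kernel)))
          (CovZ.n1 (1120, -2048) (by decide +kernel)
           (CovZ.badM (by decide +kernel))
           (CovZ.n1 (1104, -2064) (by decide +kernel)
            (CovZ.leaf K2_ok TW_l4484 _)
            (CovZ.badM (by decide +kernel)))))
         (CovZ.n1 (1056, -2080) (by decide +kernel)
          (CovZ.n2 (1056, -2048) (by decide +kernel)
           (CovZ.leaf K2_ok TW_l4485 _)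
           (CovZ.leaf K2_ok TW_l4486 _))
          (CovZ.n1 (1088, -2080) (by decide +kernel)
           (CovZ.badM (by decide +kernel))
           (CovZ.leaf K2_ok TW_l4487 _))))
        (CovZ.badM (by decide +kernel))))
      (CovZ.badM (by decide +kernel))))))

theorem TW_s12_6 : SqZ TW_M TW_L [0, 7, 4, 3] (-4608) (-5632) 512 12 6 :=
  SqZ.mk (a := 1536) (b := 2048) (c := (-2560)) (d := (-2048)) (by norm_num) (by norm_num) (by norm_num) (by norm_num)
    (CovZ.topM TW_LL 0 (by decide +kernel) (CovZ.badM (by decide +kernel)))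
    (CovZ.topM TW_LL 0 (by decide +kernel) (CovZ.badM (by decide +kernel)))

theorem TW_s13_6 : SqZ TW_M TW_L [0, 7, 4, 3] (-4608) (-5632) 512 13 6 :=
  SqZ.mk (a := 2048) (b := 2560) (c := (-2560)) (d := (-2048)) (by norm_num) (by norm_num) (by norm_num) (by norm_num)
    (CovZ.topM TW_LL 0 (by decide +kernel) (CovZ.badM (by decide +kernel)))
    (CovZ.topM TW_LL 0 (by decide +kernel) (CovZ.badM (by decide +kernel)))

theorem TW_s14_6 : SqZ TW_M TW_L [0, 7, 4, 3] (-4608) (-5632) 512 14 6 :=
  SqZ.mk (a := 2560) (b := 3072) (c := (-2560)) (d := (-2048)) (by norm_num) (by norm_num) (by norm_num) (by norm_num)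
    (CovZ.topM TW_LL 0 (by decide +kernel) (CovZ.badM (by decide +kernel)))
    (CovZ.topM TW_LL 0 (by decide +kernel) (CovZ.badM (by decide +kernel)))

theorem TW_s15_6 : SqZ TW_M TW_L [0, 7, 4, 3] (-4608) (-5632) 512 15 6 :=
  SqZ.mk (a := 3072) (b := 3584) (c := (-2560)) (d := (-2048)) (by norm_num) (by norm_num) (by norm_num) (by norm_num)
    (CovZ.topM TW_LL 0 (by decide +kernel) (CovZ.badM (by decide +kernel)))
    (CovZ.topM TW_LL 0 (by decide +kernel) (CovZ.badM (by decide +kernel)))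

theorem TW_s16_6 : SqZ TW_M TW_L [0, 7, 4, 3] (-4608) (-5632) 512 16 6 :=
  SqZ.mk (a := 3584) (b := 4096) (c := (-2560)) (d := (-2048)) (by norm_num) (by norm_num) (by norm_num) (by norm_num)
    (CovZ.topM TW_LL 0 (by decide +kernel) (CovZ.badM (by decide +kernel)))
    (CovZ.topM TW_LL 0 (by decide +kernel) (CovZ.badM (by decide +kernel)))

theorem TW_s0_7 : SqZ TW_M TW_L [0, 7, 4, 3] (-4608) (-5632) 512 0 7 :=
  SqZ.mk (a := (-4608)) (b := (-4096)) (c := (-2048)) (d := (-1536)) (by norm_num) (by norm_num) (by norm_num) (by norm_num)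
    (CovZ.topM TW_LL 0 (by decide +kernel) (CovZ.badM (by decide +kernel)))
    (CovZ.topM TW_LL 0 (by decide +kernel) (CovZ.badM (by decide +kernel)))

theorem TW_s1_7 : SqZ TW_M TW_L [0, 7, 4, 3] (-4608) (-5632) 512 1 7 :=
  SqZ.mk (a := (-4096)) (b := (-3584)) (c := (-2048)) (d := (-1536)) (by norm_num) (by norm_num) (by norm_num) (by norm_num)
    (CovZ.topM TW_LL 0 (by decide +kernel) (CovZ.badM (by decide +kernel)))
    (CovZ.topM TW_LL 0 (by decide +kernel) (CovZ.badM (by decide +kernel)))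

theorem TW_s2_7 : SqZ TW_M TW_L [0, 7, 4, 3] (-4608) (-5632) 512 2 7 :=
  SqZ.mk (a := (-3584)) (b := (-3072)) (c := (-2048)) (d := (-1536)) (by norm_num) (by norm_num) (by norm_num) (by norm_num)
    (CovZ.topM TW_LL 0 (by decide +kernel) (CovZ.badM (by decide +kernel)))
    (CovZ.topM TW_LL 0 (by decide +kernel) (CovZ.badM (by decide +kernel)))

theorem TW_s3_7 : SqZ TW_M TW_L [0, 7, 4, 3] (-4608) (-5632) 512 3 7 :=
  SqZ.mk (a := (-3072)) (b := (-2560)) (c := (-2048)) (d := (-1536)) (by norm_num) (by norm_num) (by norm_num) (by norm_num)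
    (CovZ.topM TW_LL 18 (by decide +kernel) (CovZ.n2 (-2816, -1792) (by decide +kernel)
    (CovZ.n2 (-2560, -1792) (by decide +kernel)
     (CovZ.n2 (-2688, -1920) (by decide +kernel)
      (CovZ.n2 (-2688, -1792) (by decide +kernel)
       (CovZ.leaf K2_ok TW_l600 _)
       (CovZ.n1 (-2752, -1856) (by decide +kernel)
        (CovZ.n2 (-2752, -1792) (by decide +kernel)
         (CovZ.leaf K2_ok TW_l601 _)
         (CovZ.leaf K2_ok TW_l602 _))
        (CovZ.leaf K2_ok TW_l603 _)))
      (CovZ.n1 (-2560, -1920) (by decide +kernel)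
       (CovZ.leaf K2_ok TW_l604 _)
       (CovZ.n1 (-2624, -1856) (by decide +kernel)
        (CovZ.leaf K2_ok TW_l605 _)
        (CovZ.leaf K2_ok TW_l606 _))))
     (CovZ.n1 (-2688, -1664) (by decide +kernel)
      (CovZ.n2 (-2560, -1664) (by decide +kernel)
       (CovZ.n2 (-2624, -1728) (by decide +kernel)
        (CovZ.leaf K2_ok TW_l607 _)
        (CovZ.leaf K2_ok TW_l608 _))
       (CovZ.n1 (-2624, -1600) (by decide +kernel)
        (CovZ.n2 (-2560, -1600) (by decide +kernel)
         (CovZ.leaf K2_ok TW_l609 _)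
         (CovZ.leaf K2_ok TW_l3029 _))
        (CovZ.n1 (-2624, -1664) (by decide +kernel)
         (CovZ.leaf K2_ok TW_l3030 _)
         (CovZ.leaf K2_ok TW_l610 _))))
      (CovZ.n1 (-2688, -1792) (by decide +kernel)
       (CovZ.n2 (-2752, -1728) (by decide +kernel)
        (CovZ.n2 (-2688, -1728) (by decide +kernel)
         (CovZ.leaf K2_ok TW_l611 _)
         (CovZ.leaf K2_ok TW_l2786 _))
        (CovZ.n1 (-2752, -1792) (by decide +kernel)
         (CovZ.leaf K2_ok TW_l612 _)
         (CovZ.leaf K2_ok TW_l613 _)))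
       (CovZ.n1 (-2624, -1728) (by decide +kernel)
        (CovZ.leaf K2_ok TW_l614 _)
        (CovZ.leaf K2_ok TW_l615 _)))))
    (CovZ.n1 (-2816, -2048) (by decide +kernel)
     (CovZ.n2 (-2944, -1920) (by decide +kernel)
      (CovZ.n2 (-2816, -1920) (by decide +kernel)
       (CovZ.n2 (-2880, -1984) (by decide +kernel)
        (CovZ.n2 (-2880, -1920) (by decide +kernel)
         (CovZ.leaf K2_ok TW_l616 _)
         (CovZ.leaf K2_ok TW_l617 _))
        (CovZ.n1 (-2816, -1984) (by decide +kernel)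
         (CovZ.leaf K2_ok TW_l618 _)
         (CovZ.leaf K2_ok TW_l619 _)))
       (CovZ.n1 (-2880, -1856) (by decide +kernel)
        (CovZ.n2 (-2816, -1856) (by decide +kernel)
         (CovZ.leaf K2_ok TW_l620 _)
         (CovZ.leaf K2_ok TW_l621 _))
        (CovZ.n1 (-2880, -1920) (by decide +kernel)
         (CovZ.badM (by decide +kernel))
         (CovZ.leaf K2_ok TW_l623 _))))
      (CovZ.n1 (-2944, -2048) (by decide +kernel)
       (CovZ.n2 (-3008, -1984) (by decide +kernel)
        (CovZ.n2 (-2944, -1984) (by decide +kernel)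
         (CovZ.leaf K2_ok TW_l624 _)
         (CovZ.badM (by decide +kernel)))
        (CovZ.n1 (-3008, -2048) (by decide +kernel)
         (CovZ.badM (by decide +kernel))
         (CovZ.leaf K2_ok TW_l627 _)))
       (CovZ.n1 (-2880, -1984) (by decide +kernel)
        (CovZ.leaf K2_ok TW_l628 _)
        (CovZ.leaf K2_ok TW_l629 _))))
     (CovZ.n1 (-2688, -1920) (by decide +kernel)
      (CovZ.n2 (-2688, -2048) (by decide +kernel)
       (CovZ.leaf K2_ok TW_l630 _)
       (CovZ.leaf K2_ok TW_l631 _))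
      (CovZ.n1 (-2816, -1920) (by decide +kernel)
       (CovZ.n2 (-2752, -1856) (by decide +kernel)
        (CovZ.leaf K2_ok TW_l632 _)
        (CovZ.leaf K2_ok TW_l633 _))
       (CovZ.leaf K2_ok TW_l634 _))))))
    (CovZ.topM TW_LL 18 (by decide +kernel) (CovZ.n0 (-2816, -1792) (by decide +kernel)
    (CovZ.badM (by decide +kernel))
    (CovZ.n1 (-2816, -1536) (by decide +kernel)
     (CovZ.n2 (-2688, -1664) (by decide +kernel)
      (CovZ.n2 (-2816, -1664) (by decide +kernel)
       (CovZ.n2 (-2752, -1600) (by decide +kernel)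
        (CovZ.n2 (-2752, -1664) (by decide +kernel)
         (CovZ.n2 (-2784, -1632) (by decide +kernel)
          (CovZ.leaf K2_ok TW_l3031 _)
          (CovZ.leaf K2_ok TW_l3032 _))
         (CovZ.leaf K2_ok TW_l3033 _))
        (CovZ.n1 (-2816, -1600) (by decide +kernel)
         (CovZ.n2 (-2784, -1568) (by decide +kernel)
          (CovZ.n2 (-2784, -1600) (by decide +kernel)
           (CovZ.leaf K2_ok TW_l3034 _)
           (CovZ.leaf K2_ok TW_l3035 _))
          (CovZ.n1 (-2816, -1568) (by decide +kernel)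
           (CovZ.leaf K2_ok TW_l3036 _)
           (CovZ.leaf K2_ok TW_l3037 _)))
         (CovZ.n1 (-2784, -1632) (by decide +kernel)
          (CovZ.leaf K2_ok TW_l3038 _)
          (CovZ.leaf K2_ok TW_l3039 _))))
       (CovZ.n1 (-2752, -1728) (by decide +kernel)
        (CovZ.n2 (-2816, -1728) (by decide +kernel)
         (CovZ.leaf K2_ok TW_l3040 _)
         (CovZ.leaf K2_ok TW_l3041 _))
        (CovZ.n1 (-2752, -1664) (by decide +kernel)
         (CovZ.leaf K2_ok TW_l3042 _)
         (CovZ.n1 (-2784, -1696) (by decide +kernel)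
          (CovZ.leaf K2_ok TW_l3043 _)
          (CovZ.leaf K2_ok TW_l3044 _)))))
      (CovZ.n1 (-2688, -1536) (by decide +kernel)
       (CovZ.n2 (-2624, -1600) (by decide +kernel)
        (CovZ.n2 (-2688, -1600) (by decide +kernel)
         (CovZ.leaf K2_ok TW_l3045 _)
         (CovZ.leaf K2_ok TW_l3046 _))
        (CovZ.n1 (-2624, -1536) (by decide +kernel)
         (CovZ.leaf K2_ok TW_l3047 _)
         (CovZ.n1 (-2656, -1568) (by decide +kernel)
          (CovZ.leaf K2_ok TW_l3048 _)
          (CovZ.leaf K2_ok TW_l3049 _))))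
       (CovZ.n1 (-2752, -1600) (by decide +kernel)
        (CovZ.n2 (-2752, -1536) (by decide +kernel)
         (CovZ.n2 (-2720, -1568) (by decide +kernel)
          (CovZ.leaf K2_ok TW_l3050 _)
          (CovZ.leaf K2_ok TW_l3051 _))
         (CovZ.n1 (-2784, -1568) (by decide +kernel)
          (CovZ.n2 (-2784, -1536) (by decide +kernel)
           (CovZ.leaf K2_ok TW_l3052 _)
           (CovZ.n1 (-2800, -1552) (by decide +kernel)
            (CovZ.leaf K2_ok TW_l3053 _)
            (CovZ.leaf K2_ok TW_l3054 _)))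
          (CovZ.n1 (-2752, -1568) (by decide +kernel)
           (CovZ.leaf K2_ok TW_l3055 _)
           (CovZ.leaf K2_ok TW_l3056 _))))
        (CovZ.n1 (-2688, -1600) (by decide +kernel)
         (CovZ.n2 (-2720, -1632) (by decide +kernel)
          (CovZ.leaf K2_ok TW_l3057 _)
          (CovZ.leaf K2_ok TW_l3058 _))
         (CovZ.n1 (-2720, -1568) (by decide +kernel)
          (CovZ.leaf K2_ok TW_l3059 _)
          (CovZ.leaf K2_ok TW_l3060 _))))))
     (CovZ.badM (by decide +kernel)))))

theorem TW_s4_7 : SqZ TW_M TW_L [0, 7, 4, 3] (-4608) (-5632) 512 4 7 :=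
  SqZ.mk (a := (-2560)) (b := (-2048)) (c := (-2048)) (d := (-1536)) (by norm_num) (by norm_num) (by norm_num) (by norm_num)
    (CovZ.topM TW_LL 26 (by decide +kernel) (CovZ.n2 (-2304, -1792) (by decide +kernel)
    (CovZ.n2 (-2048, -1792) (by decide +kernel)
     (CovZ.n2 (-2176, -1920) (by decide +kernel)
      (CovZ.leaf K2_ok TW_l1011 _)
      (CovZ.leaf K2_ok TW_l1012 _))
     (CovZ.n1 (-2176, -1664) (by decide +kernel)
      (CovZ.leaf K2_ok TW_l1013 _)
      (CovZ.leaf K2_ok TW_l1014 _)))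
    (CovZ.n1 (-2304, -2048) (by decide +kernel)
     (CovZ.n2 (-2432, -1920) (by decide +kernel)
      (CovZ.leaf K2_ok TW_l1015 _)
      (CovZ.leaf K2_ok TW_l1016 _))
     (CovZ.leaf K2_ok TW_l1017 _))))
    (CovZ.topM TW_LL 26 (by decide +kernel) (CovZ.n0 (-2304, -1792) (by decide +kernel)
    (CovZ.n2 (-2560, -1792) (by decide +kernel)
     (CovZ.n2 (-2432, -1664) (by decide +kernel)
      (CovZ.n2 (-2432, -1792) (by decide +kernel)
       (CovZ.leaf K2_ok TW_l1018 _)
       (CovZ.leaf K2_ok TW_l1019 _))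
      (CovZ.n1 (-2560, -1664) (by decide +kernel)
       (CovZ.leaf K2_ok TW_l1020 _)
       (CovZ.leaf K2_ok TW_l1021 _)))
     (CovZ.n1 (-2432, -1920) (by decide +kernel)
      (CovZ.leaf K2_ok TW_l1022 _)
      (CovZ.n1 (-2432, -1792) (by decide +kernel)
       (CovZ.leaf K2_ok TW_l1023 _)
       (CovZ.leaf K2_ok TW_l1024 _))))
    (CovZ.n1 (-2304, -1536) (by decide +kernel)
     (CovZ.n2 (-2176, -1664) (by decide +kernel)
      (CovZ.leaf K2_ok TW_l1025 _)
      (CovZ.n1 (-2176, -1536) (by decide +kernel)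
       (CovZ.leaf K2_ok TW_l1026 _)
       (CovZ.leaf K2_ok TW_l1027 _)))
     (CovZ.n1 (-2432, -1664) (by decide +kernel)
      (CovZ.n2 (-2432, -1536) (by decide +kernel)
       (CovZ.leaf K2_ok TW_l1028 _)
       (CovZ.n1 (-2496, -1600) (by decide +kernel)
        (CovZ.leaf K2_ok TW_l3318 _)
        (CovZ.leaf K2_ok TW_l1029 _)))
      (CovZ.n1 (-2304, -1664) (by decide +kernel)
       (CovZ.leaf K2_ok TW_l1030 _)
       (CovZ.leaf K2_ok TW_l1031 _))))))

theorem TW_s5_7 : SqZ TW_M TW_L [0, 7, 4, 3] (-4608) (-5632) 512 5 7 :=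
  SqZ.mk (a := (-2048)) (b := (-1536)) (c := (-2048)) (d := (-1536)) (by norm_num) (by norm_num) (by norm_num) (by norm_num)
    (CovZ.topM TW_LL 22 (by decide +kernel) (CovZ.n2 (-1792, -1792) (by decide +kernel)
    (CovZ.n2 (-1536, -1792) (by decide +kernel)
     (CovZ.n2 (-1664, -1920) (by decide +kernel)
      (CovZ.leaf K2_ok TW_l1434 _)
      (CovZ.leaf K2_ok TW_l1435 _))
     (CovZ.leaf K2_ok TW_l1436 _))
    (CovZ.leaf K2_ok TW_l1437 _)))
    (CovZ.topM TW_LL 18 (by decide +kernel) (CovZ.n0 (-1792, -1792) (by decide +kernel)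
    (CovZ.n2 (-2048, -1792) (by decide +kernel)
     (CovZ.leaf K2_ok TW_l1438 _)
     (CovZ.leaf K2_ok TW_l1439 _))
    (CovZ.n1 (-1792, -1536) (by decide +kernel)
     (CovZ.leaf K2_ok TW_l1440 _)
     (CovZ.leaf K2_ok TW_l1441 _))))

theorem TW_s6_7 : SqZ TW_M TW_L [0, 7, 4, 3] (-4608) (-5632) 512 6 7 :=
  SqZ.mk (a := (-1536)) (b := (-1024)) (c := (-2048)) (d := (-1536)) (by norm_num) (by norm_num) (by norm_num) (by norm_num)
    (CovZ.topM TW_LL 22 (by decide +kernel) (CovZ.n2 (-1280, -1792) (by decide +kernel)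
    (CovZ.n2 (-1024, -1792) (by decide +kernel)
     (CovZ.n2 (-1152, -1920) (by decide +kernel)
      (CovZ.n2 (-1152, -1792) (by decide +kernel)
       (CovZ.leaf K2_ok TW_l1896 _)
       (CovZ.leaf K2_ok TW_l1897 _))
      (CovZ.n1 (-1024, -1920) (by decide +kernel)
       (CovZ.n2 (-1088, -1984) (by decide +kernel)
        (CovZ.leaf K2_ok TW_l1898 _)
        (CovZ.leaf K2_ok TW_l1899 _))
       (CovZ.leaf K2_ok TW_l1900 _)))
     (CovZ.n1 (-1152, -1664) (by decide +kernel)
      (CovZ.n2 (-1024, -1664) (by decide +kernel)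
       (CovZ.leaf K2_ok TW_l1901 _)
       (CovZ.leaf K2_ok TW_l1902 _))
      (CovZ.leaf K2_ok TW_l1903 _)))
    (CovZ.n1 (-1280, -2048) (by decide +kernel)
     (CovZ.n2 (-1408, -1920) (by decide +kernel)
      (CovZ.n2 (-1280, -1920) (by decide +kernel)
       (CovZ.leaf K2_ok TW_l1904 _)
       (CovZ.leaf K2_ok TW_l1905 _))
      (CovZ.n1 (-1408, -2048) (by decide +kernel)
       (CovZ.leaf K2_ok TW_l1906 _)
       (CovZ.leaf K2_ok TW_l1907 _)))
     (CovZ.n1 (-1152, -1920) (by decide +kernel)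
      (CovZ.n2 (-1152, -2048) (by decide +kernel)
       (CovZ.leaf K2_ok TW_l1908 _)
       (CovZ.leaf K2_ok TW_l1909 _))
      (CovZ.n1 (-1280, -1920) (by decide +kernel)
       (CovZ.leaf K2_ok TW_l1910 _)
       (CovZ.leaf K2_ok TW_l1911 _))))))
    (CovZ.topM TW_LL 22 (by decide +kernel) (CovZ.n0 (-1280, -1792) (by decide +kernel)
    (CovZ.n2 (-1536, -1792) (by decide +kernel)
     (CovZ.leaf K2_ok TW_l1912 _)
     (CovZ.n1 (-1408, -1920) (by decide +kernel)
      (CovZ.n2 (-1536, -1920) (by decide +kernel)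
       (CovZ.leaf K2_ok TW_l1913 _)
       (CovZ.leaf K2_ok TW_l1914 _))
      (CovZ.leaf K2_ok TW_l1915 _)))
    (CovZ.n1 (-1280, -1536) (by decide +kernel)
     (CovZ.n2 (-1152, -1664) (by decide +kernel)
      (CovZ.leaf K2_ok TW_l1916 _)
      (CovZ.leaf K2_ok TW_l1917 _))
     (CovZ.leaf K2_ok TW_l1918 _))))

theorem TW_s7_7 : SqZ TW_M TW_L [0, 7, 4, 3] (-4608) (-5632) 512 7 7 :=
  SqZ.mk (a := (-1024)) (b := (-512)) (c := (-2048)) (d := (-1536)) (by norm_num) (by norm_num) (by norm_num) (by norm_num)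
    (CovZ.topM TW_LL 22 (by decide +kernel) (CovZ.n2 (-768, -1792) (by decide +kernel)
    (CovZ.n2 (-512, -1792) (by decide +kernel)
     (CovZ.n2 (-640, -1920) (by decide +kernel)
      (CovZ.n2 (-640, -1792) (by decide +kernel)
       (CovZ.leaf K2_ok TW_l2201 _)
       (CovZ.leaf K2_ok TW_l2202 _))
      (CovZ.n1 (-512, -1920) (by decide +kernel)
       (CovZ.n2 (-576, -1984) (by decide +kernel)
        (CovZ.leaf K2_ok TW_l2203 _)
        (CovZ.leaf K2_ok TW_l2204 _))
       (CovZ.leaf K2_ok TW_l2205 _)))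
     (CovZ.n1 (-640, -1664) (by decide +kernel)
      (CovZ.n2 (-512, -1664) (by decide +kernel)
       (CovZ.leaf K2_ok TW_l2206 _)
       (CovZ.leaf K2_ok TW_l2207 _))
      (CovZ.leaf K2_ok TW_l2208 _)))
    (CovZ.n1 (-768, -2048) (by decide +kernel)
     (CovZ.n2 (-896, -1920) (by decide +kernel)
      (CovZ.n2 (-768, -1920) (by decide +kernel)
       (CovZ.n2 (-832, -1984) (by decide +kernel)
        (CovZ.leaf K2_ok TW_l2209 _)
        (CovZ.leaf K2_ok TW_l2210 _))
       (CovZ.leaf K2_ok TW_l2211 _))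
      (CovZ.n1 (-896, -2048) (by decide +kernel)
       (CovZ.leaf K2_ok TW_l2212 _)
       (CovZ.leaf K2_ok TW_l2213 _)))
     (CovZ.n1 (-640, -1920) (by decide +kernel)
      (CovZ.n2 (-640, -2048) (by decide +kernel)
       (CovZ.leaf K2_ok TW_l2214 _)
       (CovZ.leaf K2_ok TW_l2215 _))
      (CovZ.n1 (-768, -1920) (by decide +kernel)
       (CovZ.leaf K2_ok TW_l2216 _)
       (CovZ.leaf K2_ok TW_l2217 _))))))
    (CovZ.topM TW_LL 22 (by decide +kernel) (CovZ.n0 (-768, -1792) (by decide +kernel)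
    (CovZ.n2 (-1024, -1792) (by decide +kernel)
     (CovZ.n2 (-896, -1664) (by decide +kernel)
      (CovZ.leaf K2_ok TW_l2218 _)
      (CovZ.leaf K2_ok TW_l2219 _))
     (CovZ.n1 (-896, -1920) (by decide +kernel)
      (CovZ.n2 (-1024, -1920) (by decide +kernel)
       (CovZ.leaf K2_ok TW_l2220 _)
       (CovZ.leaf K2_ok TW_l2221 _))
      (CovZ.n1 (-896, -1792) (by decide +kernel)
       (CovZ.leaf K2_ok TW_l2222 _)
       (CovZ.leaf K2_ok TW_l2223 _))))
    (CovZ.n1 (-768, -1536) (by decide +kernel)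
     (CovZ.n2 (-640, -1664) (by decide +kernel)
      (CovZ.leaf K2_ok TW_l2224 _)
      (CovZ.n1 (-640, -1536) (by decide +kernel)
       (CovZ.leaf K2_ok TW_l2225 _)
       (CovZ.leaf K2_ok TW_l2226 _)))
     (CovZ.n1 (-896, -1664) (by decide +kernel)
      (CovZ.leaf K2_ok TW_l2227 _)
      (CovZ.n1 (-768, -1664) (by decide +kernel)
       (CovZ.leaf K2_ok TW_l2228 _)
       (CovZ.leaf K2_ok TW_l2229 _))))))

theorem TW_s8_7 : SqZ TW_M TW_L [0, 7, 4, 3] (-4608) (-5632) 512 8 7 :=
  SqZ.mk (a := (-512)) (b := 0) (c := (-2048)) (d := (-1536)) (by norm_num) (by norm_num) (by norm_num) (by norm_num)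
    (CovZ.topM TW_LL 22 (by decide +kernel) (CovZ.n2 (-256, -1792) (by decide +kernel)
    (CovZ.n2 (0, -1792) (by decide +kernel)
     (CovZ.n2 (-128, -1920) (by decide +kernel)
      (CovZ.leaf K2_ok TW_l2436 _)
      (CovZ.leaf K2_ok TW_l2437 _))
     (CovZ.n1 (-128, -1664) (by decide +kernel)
      (CovZ.leaf K2_ok TW_l2438 _)
      (CovZ.leaf K2_ok TW_l2439 _)))
    (CovZ.n1 (-256, -2048) (by decide +kernel)
     (CovZ.n2 (-384, -1920) (by decide +kernel)
      (CovZ.n2 (-256, -1920) (by decide +kernel)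
       (CovZ.leaf K2_ok TW_l2440 _)
       (CovZ.leaf K2_ok TW_l2441 _))
      (CovZ.leaf K2_ok TW_l2442 _))
     (CovZ.n1 (-128, -1920) (by decide +kernel)
      (CovZ.leaf K2_ok TW_l2443 _)
      (CovZ.n1 (-256, -1920) (by decide +kernel)
       (CovZ.leaf K2_ok TW_l2444 _)
       (CovZ.leaf K2_ok TW_l2445 _))))))
    (CovZ.topM TW_LL 22 (by decide +kernel) (CovZ.n0 (-256, -1792) (by decide +kernel)
    (CovZ.n2 (-512, -1792) (by decide +kernel)
     (CovZ.n2 (-384, -1664) (by decide +kernel)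
      (CovZ.leaf K2_ok TW_l2446 _)
      (CovZ.leaf K2_ok TW_l2447 _))
     (CovZ.n1 (-384, -1920) (by decide +kernel)
      (CovZ.n2 (-512, -1920) (by decide +kernel)
       (CovZ.leaf K2_ok TW_l2448 _)
       (CovZ.leaf K2_ok TW_l2449 _))
      (CovZ.n1 (-384, -1792) (by decide +kernel)
       (CovZ.leaf K2_ok TW_l2450 _)
       (CovZ.leaf K2_ok TW_l2451 _))))
    (CovZ.n1 (-256, -1536) (by decide +kernel)
     (CovZ.n2 (-128, -1664) (by decide +kernel)
      (CovZ.n2 (-256, -1664) (by decide +kernel)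
       (CovZ.leaf K2_ok TW_l2452 _)
       (CovZ.leaf K2_ok TW_l2453 _))
      (CovZ.leaf K2_ok TW_l2454 _))
     (CovZ.n1 (-384, -1664) (by decide +kernel)
      (CovZ.n2 (-384, -1536) (by decide +kernel)
       (CovZ.leaf K2_ok TW_l2455 _)
       (CovZ.leaf K2_ok TW_l2456 _))
      (CovZ.n1 (-256, -1664) (by decide +kernel)
       (CovZ.leaf K2_ok TW_l2457 _)
       (CovZ.leaf K2_ok TW_l2458 _))))))

theorem TW_s9_7 : SqZ TW_M TW_L [0, 7, 4, 3] (-4608) (-5632) 512 9 7 :=
  SqZ.mk (a := 0) (b := 512) (c := (-2048)) (d := (-1536)) (by norm_num) (by norm_num) (by norm_num) (by norm_num)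
    (CovZ.topM TW_LL 23 (by decide +kernel) (CovZ.n2 (256, -1792) (by decide +kernel)
    (CovZ.n2 (512, -1792) (by decide +kernel)
     (CovZ.n2 (384, -1920) (by decide +kernel)
      (CovZ.leaf K2_ok TW_l2526 _)
      (CovZ.leaf K2_ok TW_l2527 _))
     (CovZ.n1 (384, -1664) (by decide +kernel)
      (CovZ.leaf K2_ok TW_l2528 _)
      (CovZ.leaf K2_ok TW_l2529 _)))
    (CovZ.n1 (256, -2048) (by decide +kernel)
     (CovZ.n2 (128, -1920) (by decide +kernel)
      (CovZ.leaf K2_ok TW_l2530 _)
      (CovZ.leaf K2_ok TW_l2531 _))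
     (CovZ.leaf K2_ok TW_l2532 _))))
    (CovZ.topM TW_LL 23 (by decide +kernel) (CovZ.n0 (256, -1792) (by decide +kernel)
    (CovZ.n2 (0, -1792) (by decide +kernel)
     (CovZ.leaf K2_ok TW_l2533 _)
     (CovZ.n1 (128, -1920) (by decide +kernel)
      (CovZ.leaf K2_ok TW_l2534 _)
      (CovZ.leaf K2_ok TW_l2535 _)))
    (CovZ.n1 (256, -1536) (by decide +kernel)
     (CovZ.n2 (384, -1664) (by decide +kernel)
      (CovZ.leaf K2_ok TW_l2536 _)
      (CovZ.leaf K2_ok TW_l2537 _))
     (CovZ.n1 (128, -1664) (by decide +kernel)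
      (CovZ.leaf K2_ok TW_l2538 _)
      (CovZ.leaf K2_ok TW_l2539 _)))))

theorem TW_s10_7 : SqZ TW_M TW_L [0, 7, 4, 3] (-4608) (-5632) 512 10 7 :=
  SqZ.mk (a := 512) (b := 1024) (c := (-2048)) (d := (-1536)) (by norm_num) (by norm_num) (by norm_num) (by norm_num)
    (CovZ.topM TW_LL 7 (by decide +kernel) (CovZ.n2 (768, -1792) (by decide +kernel)
    (CovZ.n2 (1024, -1792) (by decide +kernel)
     (CovZ.n2 (896, -1920) (by decide +kernel)
      (CovZ.n2 (896, -1792) (by decide +kernel)
       (CovZ.n2 (960, -1856) (by decide +kernel)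
        (CovZ.leaf K2_ok TW_l4383 _)
        (CovZ.leaf K2_ok TW_l4384 _))
       (CovZ.n1 (832, -1856) (by decide +kernel)
        (CovZ.leaf K2_ok TW_l4385 _)
        (CovZ.leaf K2_ok TW_l4386 _)))
      (CovZ.n1 (1024, -1920) (by decide +kernel)
       (CovZ.n2 (960, -1984) (by decide +kernel)
        (CovZ.n2 (960, -1920) (by decide +kernel)
         (CovZ.leaf K2_ok TW_l4387 _)
         (CovZ.leaf K2_ok TW_l4388 _))
        (CovZ.n1 (1024, -1984) (by decide +kernel)
         (CovZ.n2 (992, -2016) (by decide +kernel)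
          (CovZ.leaf K2_ok TW_l4389 _)
          (CovZ.leaf K2_ok TW_l4390 _))
         (CovZ.leaf K2_ok TW_l4391 _)))
       (CovZ.n1 (960, -1856) (by decide +kernel)
        (CovZ.leaf K2_ok TW_l4392 _)
        (CovZ.leaf K2_ok TW_l4393 _))))
     (CovZ.n1 (896, -1664) (by decide +kernel)
      (CovZ.n2 (1024, -1664) (by decide +kernel)
       (CovZ.n2 (960, -1728) (by decide +kernel)
        (CovZ.leaf K2_ok TW_l4394 _)
        (CovZ.leaf K2_ok TW_l4395 _))
       (CovZ.leaf K2_ok TW_l4396 _))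
      (CovZ.n1 (896, -1792) (by decide +kernel)
       (CovZ.leaf K2_ok TW_l4397 _)
       (CovZ.leaf K2_ok TW_l4398 _))))
    (CovZ.n1 (768, -2048) (by decide +kernel)
     (CovZ.n2 (640, -1920) (by decide +kernel)
      (CovZ.n2 (768, -1920) (by decide +kernel)
       (CovZ.n2 (704, -1984) (by decide +kernel)
        (CovZ.leaf K2_ok TW_l4399 _)
        (CovZ.leaf K2_ok TW_l4400 _))
       (CovZ.leaf K2_ok TW_l4401 _))
      (CovZ.n1 (640, -2048) (by decide +kernel)
       (CovZ.leaf K2_ok TW_l4402 _)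
       (CovZ.leaf K2_ok TW_l4403 _)))
     (CovZ.n1 (896, -1920) (by decide +kernel)
      (CovZ.n2 (896, -2048) (by decide +kernel)
       (CovZ.n2 (832, -1984) (by decide +kernel)
        (CovZ.n2 (896, -1984) (by decide +kernel)
         (CovZ.leaf K2_ok TW_l4404 _)
         (CovZ.leaf K2_ok TW_l4405 _))
        (CovZ.leaf K2_ok TW_l4406 _))
       (CovZ.n1 (960, -1984) (by decide +kernel)
        (CovZ.n2 (960, -2048) (by decide +kernel)
         (CovZ.leaf K2_ok TW_l4407 _)
         (CovZ.leaf K2_ok TW_l4408 _))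
        (CovZ.n1 (896, -1984) (by decide +kernel)
         (CovZ.leaf K2_ok TW_l4409 _)
         (CovZ.leaf K2_ok TW_l4410 _))))
      (CovZ.n1 (768, -1920) (by decide +kernel)
       (CovZ.leaf K2_ok TW_l4411 _)
       (CovZ.n1 (832, -1984) (by decide +kernel)
        (CovZ.leaf K2_ok TW_l4412 _)
        (CovZ.leaf K2_ok TW_l4413 _)))))))
    (CovZ.topM TW_LL 7 (by decide +kernel) (CovZ.n0 (768, -1792) (by decide +kernel)
    (CovZ.n2 (512, -1792) (by decide +kernel)
     (CovZ.n2 (640, -1664) (by decide +kernel)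
      (CovZ.leaf K2_ok TW_l2573 _)
      (CovZ.leaf K2_ok TW_l2574 _))
     (CovZ.n1 (640, -1920) (by decide +kernel)
      (CovZ.leaf K2_ok TW_l2575 _)
      (CovZ.n1 (640, -1792) (by decide +kernel)
       (CovZ.leaf K2_ok TW_l4414 _)
       (CovZ.leaf K2_ok TW_l2576 _))))
    (CovZ.n1 (768, -1536) (by decide +kernel)
     (CovZ.n2 (896, -1664) (by decide +kernel)
      (CovZ.n2 (768, -1664) (by decide +kernel)
       (CovZ.leaf K2_ok TW_l2577 _)
       (CovZ.leaf K2_ok TW_l4415 _))
      (CovZ.n1 (896, -1536) (by decide +kernel)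
       (CovZ.leaf K2_ok TW_l2578 _)
       (CovZ.leaf K2_ok TW_l2579 _)))
     (CovZ.n1 (640, -1664) (by decide +kernel)
      (CovZ.leaf K2_ok TW_l2580 _)
      (CovZ.n1 (768, -1664) (by decide +kernel)
       (CovZ.leaf K2_ok TW_l2581 _)
       (CovZ.leaf K2_ok TW_l2582 _))))))

theorem TW_s11_7 : SqZ TW_M TW_L [0, 7, 4, 3] (-4608) (-5632) 512 11 7 :=
  SqZ.mk (a := 1024) (b := 1536) (c := (-2048)) (d := (-1536)) (by norm_num) (by norm_num) (by norm_num) (by norm_num)
    (CovZ.topM TW_LL 3 (by decide +kernel) (CovZ.n2 (1280, -1792) (by decide +kernel)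
    TW_u12
    TW_u13))
    (CovZ.topM TW_LL 7 (by decide +kernel) (CovZ.n0 (1280, -1792) (by decide +kernel)
    (CovZ.n2 (1024, -1792) (by decide +kernel)
     (CovZ.n2 (1152, -1664) (by decide +kernel)
      (CovZ.n2 (1152, -1792) (by decide +kernel)
       (CovZ.n2 (1088, -1728) (by decide +kernel)
        (CovZ.leaf K2_ok TW_l4621 _)
        (CovZ.leaf K2_ok TW_l4622 _))
       (CovZ.n1 (1216, -1728) (by decide +kernel)
        (CovZ.leaf K2_ok TW_l4623 _)
        (CovZ.leaf K2_ok TW_l4624 _)))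
      (CovZ.n1 (1024, -1664) (by decide +kernel)
       (CovZ.leaf K2_ok TW_l4625 _)
       (CovZ.n1 (1088, -1728) (by decide +kernel)
        (CovZ.leaf K2_ok TW_l4626 _)
        (CovZ.leaf K2_ok TW_l4627 _))))
     (CovZ.n1 (1152, -1920) (by decide +kernel)
      (CovZ.n2 (1024, -1920) (by decide +kernel)
       (CovZ.n2 (1088, -1856) (by decide +kernel)
        (CovZ.n2 (1088, -1920) (by decide +kernel)
         (CovZ.leaf K2_ok TW_l4628 _)
         (CovZ.leaf K2_ok TW_l4629 _))
        (CovZ.leaf K2_ok TW_l4630 _))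
       (CovZ.n1 (1088, -1984) (by decide +kernel)
        (CovZ.n2 (1024, -1984) (by decide +kernel)
         (CovZ.leaf K2_ok TW_l4631 _)
         (CovZ.n1 (1056, -2016) (by decide +kernel)
          (CovZ.leaf K2_ok TW_l4632 _)
          (CovZ.leaf K2_ok TW_l4633 _)))
        (CovZ.n1 (1088, -1920) (by decide +kernel)
         (CovZ.n2 (1120, -1952) (by decide +kernel)
          (CovZ.leaf K2_ok TW_l4634 _)
          (CovZ.leaf K2_ok TW_l4635 _))
         (CovZ.n1 (1056, -1952) (by decide +kernel)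
          (CovZ.leaf K2_ok TW_l4636 _)
          (CovZ.leaf K2_ok TW_l4637 _)))))
      (CovZ.n1 (1152, -1792) (by decide +kernel)
       (CovZ.n2 (1216, -1856) (by decide +kernel)
        (CovZ.n2 (1152, -1856) (by decide +kernel)
         (CovZ.leaf K2_ok TW_l4638 _)
         (CovZ.leaf K2_ok TW_l4639 _))
        (CovZ.n1 (1216, -1792) (by decide +kernel)
         (CovZ.leaf K2_ok TW_l4640 _)
         (CovZ.leaf K2_ok TW_l4641 _)))
       (CovZ.n1 (1088, -1856) (by decide +kernel)
        (CovZ.n2 (1088, -1792) (by decide +kernel)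
         (CovZ.leaf K2_ok TW_l4642 _)
         (CovZ.leaf K2_ok TW_l4643 _))
        (CovZ.n1 (1152, -1856) (by decide +kernel)
         (CovZ.n2 (1120, -1888) (by decide +kernel)
          (CovZ.leaf K2_ok TW_l4644 _)
          (CovZ.leaf K2_ok TW_l4645 _))
         (CovZ.leaf K2_ok TW_l4646 _))))))
    (CovZ.n1 (1280, -1536) (by decide +kernel)
     (CovZ.n2 (1408, -1664) (by decide +kernel)
      (CovZ.n2 (1280, -1664) (by decide +kernel)
       (CovZ.leaf K2_ok TW_l4647 _)
       (CovZ.n1 (1344, -1728) (by decide +kernel)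
        (CovZ.leaf K2_ok TW_l4648 _)
        (CovZ.n1 (1344, -1664) (by decide +kernel)
         (CovZ.leaf K2_ok TW_l4649 _)
         (CovZ.leaf K2_ok TW_l4650 _))))
      (CovZ.n1 (1408, -1536) (by decide +kernel)
       (CovZ.n2 (1472, -1600) (by decide +kernel)
        (CovZ.leaf K2_ok TW_l4651 _)
        (CovZ.n1 (1472, -1536) (by decide +kernel)
         (CovZ.leaf K2_ok TW_l4652 _)
         (CovZ.leaf K2_ok TW_l4653 _)))
       (CovZ.n1 (1344, -1600) (by decide +kernel)
        (CovZ.leaf K2_ok TW_l4654 _)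
        (CovZ.n1 (1408, -1600) (by decide +kernel)
         (CovZ.leaf K2_ok TW_l4655 _)
         (CovZ.leaf K2_ok TW_l4656 _)))))
     (CovZ.n1 (1152, -1664) (by decide +kernel)
      (CovZ.n2 (1152, -1536) (by decide +kernel)
       (CovZ.n2 (1216, -1600) (by decide +kernel)
        (CovZ.leaf K2_ok TW_l4657 _)
        (CovZ.leaf K2_ok TW_l4658 _))
       (CovZ.n1 (1088, -1600) (by decide +kernel)
        (CovZ.leaf K2_ok TW_l4659 _)
        (CovZ.leaf K2_ok TW_l4660 _)))
      (CovZ.n1 (1280, -1664) (by decide +kernel)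
       (CovZ.n2 (1216, -1728) (by decide +kernel)
        (CovZ.leaf K2_ok TW_l4661 _)
        (CovZ.n1 (1280, -1728) (by decide +kernel)
         (CovZ.leaf K2_ok TW_l4662 _)
         (CovZ.leaf K2_ok TW_l4663 _)))
       (CovZ.n1 (1216, -1600) (by decide +kernel)
        (CovZ.leaf K2_ok TW_l4664 _)
        (CovZ.leaf K2_ok TW_l4665 _)))))))

theorem TW_s12_7 : SqZ TW_M TW_L [0, 7, 4, 3] (-4608) (-5632) 512 12 7 :=
  SqZ.mk (a := 1536) (b := 2048) (c := (-2048)) (d := (-1536)) (by norm_num) (by norm_num) (by norm_num) (by norm_num)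
    (CovZ.topM TW_LL 2 (by decide +kernel) (CovZ.n2 (1792, -1792) (by decide +kernel)
    (CovZ.badM (by decide +kernel))
    (CovZ.badM (by decide +kernel))))
    (CovZ.topM TW_LL 3 (by decide +kernel) (CovZ.n0 (1792, -1792) (by decide +kernel)
    (CovZ.n2 (1536, -1792) (by decide +kernel)
     (CovZ.n2 (1664, -1664) (by decide +kernel)
      (CovZ.n2 (1664, -1792) (by decide +kernel)
       (CovZ.n2 (1600, -1728) (by decide +kernel)
        (CovZ.badM (by decide +kernel))
        (CovZ.n1 (1600, -1792) (by decide +kernel)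
         (CovZ.n2 (1568, -1760) (by decide +kernel)
          (CovZ.n2 (1600, -1760) (by decide +kernel)
           (CovZ.n2 (1584, -1776) (by decide +kernel)
            (CovZ.leaf K2_ok TW_l4708 _)
            (CovZ.n1 (1600, -1776) (by decide +kernel)
             (CovZ.leaf K2_ok TW_l4709 _)
             (CovZ.leaf K2_ok TW_l4710 _)))
           (CovZ.n1 (1584, -1744) (by decide +kernel)
            (CovZ.badM (by decide +kernel))
            (CovZ.leaf K2_ok TW_l4711 _)))
          (CovZ.n1 (1568, -1792) (by decide +kernel)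
           (CovZ.n2 (1552, -1776) (by decide +kernel)
            (CovZ.leaf K2_ok TW_l4712 _)
            (CovZ.leaf K2_ok TW_l4713 _))
           (CovZ.n1 (1584, -1776) (by decide +kernel)
            (CovZ.leaf K2_ok TW_l4714 _)
            (CovZ.leaf K2_ok TW_l4715 _))))
         (CovZ.badM (by decide +kernel))))
       (CovZ.badM (by decide +kernel)))
      (CovZ.n1 (1536, -1664) (by decide +kernel)
       (CovZ.n2 (1600, -1600) (by decide +kernel)
        (CovZ.n2 (1600, -1664) (by decide +kernel)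
         (CovZ.n2 (1568, -1632) (by decide +kernel)
          (CovZ.badM (by decide +kernel))
          (CovZ.leaf K2_ok TW_l4716 _))
         (CovZ.badM (by decide +kernel)))
        (CovZ.n1 (1536, -1600) (by decide +kernel)
         (CovZ.leaf K2_ok TW_l4717 _)
         (CovZ.n1 (1568, -1632) (by decide +kernel)
          (CovZ.leaf K2_ok TW_l4718 _)
          (CovZ.leaf K2_ok TW_l4719 _))))
       (CovZ.n1 (1600, -1728) (by decide +kernel)
        (CovZ.n2 (1536, -1728) (by decide +kernel)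
         (CovZ.n2 (1568, -1696) (by decide +kernel)
          (CovZ.n2 (1568, -1728) (by decide +kernel)
           (CovZ.leaf K2_ok TW_l4720 _)
           (CovZ.leaf K2_ok TW_l4721 _))
          (CovZ.leaf K2_ok TW_l4722 _))
         (CovZ.n1 (1568, -1760) (by decide +kernel)
          (CovZ.n2 (1536, -1760) (by decide +kernel)
           (CovZ.leaf K2_ok TW_l4723 _)
           (CovZ.n1 (1552, -1776) (by decide +kernel)
            (CovZ.leaf K2_ok TW_l4724 _)
            (CovZ.leaf K2_ok TW_l4725 _)))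
          (CovZ.n1 (1568, -1728) (by decide +kernel)
           (CovZ.n2 (1584, -1744) (by decide +kernel)
            (CovZ.leaf K2_ok TW_l4726 _)
            (CovZ.leaf K2_ok TW_l4727 _))
           (CovZ.n1 (1552, -1744) (by decide +kernel)
            (CovZ.leaf K2_ok TW_l4728 _)
            (CovZ.leaf K2_ok TW_l4729 _)))))
        (CovZ.n1 (1600, -1664) (by decide +kernel)
         (CovZ.badM (by decide +kernel))
         (CovZ.n1 (1568, -1696) (by decide +kernel)
          (CovZ.n2 (1568, -1664) (by decide +kernel)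
           (CovZ.badM (by decide +kernel))
           (CovZ.leaf K2_ok TW_l4730 _))
          (CovZ.badM (by decide +kernel)))))))
     (CovZ.n1 (1664, -1920) (by decide +kernel)
      (CovZ.n2 (1536, -1920) (by decide +kernel)
       (CovZ.n2 (1600, -1856) (by decide +kernel)
        (CovZ.badM (by decide +kernel))
        (CovZ.n1 (1536, -1856) (by decide +kernel)
         (CovZ.n2 (1568, -1824) (by decide +kernel)
          (CovZ.badM (by decide +kernel))
          (CovZ.n1 (1536, -1824) (by decide +kernel)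
           (CovZ.n2 (1552, -1808) (by decide +kernel)
            (CovZ.leaf K2_ok TW_l4731 _)
            (CovZ.leaf K2_ok TW_l4732 _))
           (CovZ.n1 (1552, -1840) (by decide +kernel)
            (CovZ.n2 (1536, -1840) (by decide +kernel)
             (CovZ.leaf K2_ok TW_l4733 _)
             (CovZ.badM (by decide +kernel)))
            (CovZ.n1 (1552, -1824) (by decide +kernel)
             (CovZ.badM (by decide +kernel))
             (CovZ.leaf K2_ok TW_l4734 _)))))
         (CovZ.badM (by decide +kernel))))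
       (CovZ.badM (by decide +kernel)))
      (CovZ.n1 (1664, -1792) (by decide +kernel)
       (CovZ.badM (by decide +kernel))
       (CovZ.n1 (1600, -1856) (by decide +kernel)
        (CovZ.n2 (1600, -1792) (by decide +kernel)
         (CovZ.n2 (1632, -1824) (by decide +kernel)
          (CovZ.n2 (1600, -1824) (by decide +kernel)
           (CovZ.badM (by decide +kernel))
           (CovZ.badM (by decide +kernel)))
          (CovZ.badM (by decide +kernel)))
         (CovZ.n1 (1568, -1824) (by decide +kernel)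
          (CovZ.n2 (1568, -1792) (by decide +kernel)
           (CovZ.n2 (1584, -1808) (by decide +kernel)
            (CovZ.leaf K2_ok TW_l4735 _)
            (CovZ.n1 (1584, -1792) (by decide +kernel)
             (CovZ.leaf K2_ok TW_l4736 _)
             (CovZ.leaf K2_ok TW_l4737 _)))
           (CovZ.n1 (1552, -1808) (by decide +kernel)
            (CovZ.leaf K2_ok TW_l4738 _)
            (CovZ.n1 (1568, -1808) (by decide +kernel)
             (CovZ.leaf K2_ok TW_l4739 _)
             (CovZ.leaf K2_ok TW_l4740 _))))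
          (CovZ.n1 (1600, -1824) (by decide +kernel)
           (CovZ.badM (by decide +kernel))
           (CovZ.n1 (1584, -1808) (by decide +kernel)
            (CovZ.n2 (1600, -1808) (by decide +kernel)
             (CovZ.badM (by decide +kernel))
             (CovZ.leaf K2_ok TW_l4741 _))
            (CovZ.badM (by decide +kernel))))))
        (CovZ.badM (by decide +kernel))))))
    (CovZ.n1 (1792, -1536) (by decide +kernel)
     (CovZ.badM (by decide +kernel))
     (CovZ.n1 (1664, -1664) (by decide +kernel)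
      (CovZ.n2 (1664, -1536) (by decide +kernel)
       (CovZ.badM (by decide +kernel))
       (CovZ.n1 (1600, -1600) (by decide +kernel)
        (CovZ.n2 (1600, -1536) (by decide +kernel)
         (CovZ.badM (by decide +kernel))
         (CovZ.n1 (1568, -1568) (by decide +kernel)
          (CovZ.leaf K2_ok TW_l4742 _)
          (CovZ.badM (by decide +kernel))))
        (CovZ.badM (by decide +kernel))))
      (CovZ.badM (by decide +kernel))))))

theorem TW_s13_7 : SqZ TW_M TW_L [0, 7, 4, 3] (-4608) (-5632) 512 13 7 :=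
  SqZ.mk (a := 2048) (b := 2560) (c := (-2048)) (d := (-1536)) (by norm_num) (by norm_num) (by norm_num) (by norm_num)
    (CovZ.topM TW_LL 0 (by decide +kernel) (CovZ.badM (by decide +kernel)))
    (CovZ.topM TW_LL 0 (by decide +kernel) (CovZ.badM (by decide +kernel)))

theorem TW_s14_7 : SqZ TW_M TW_L [0, 7, 4, 3] (-4608) (-5632) 512 14 7 :=
  SqZ.mk (a := 2560) (b := 3072) (c := (-2048)) (d := (-1536)) (by norm_num) (by norm_num) (by norm_num) (by norm_num)
    (CovZ.topM TW_LL 0 (by decide +kernel) (CovZ.badM (by decide +kernel)))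
    (CovZ.topM TW_LL 0 (by decide +kernel) (CovZ.badM (by decide +kernel)))

theorem TW_s15_7 : SqZ TW_M TW_L [0, 7, 4, 3] (-4608) (-5632) 512 15 7 :=
  SqZ.mk (a := 3072) (b := 3584) (c := (-2048)) (d := (-1536)) (by norm_num) (by norm_num) (by norm_num) (by norm_num)
    (CovZ.topM TW_LL 0 (by decide +kernel) (CovZ.badM (by decide +kernel)))
    (CovZ.topM TW_LL 0 (by decide +kernel) (CovZ.badM (by decide +kernel)))

theorem TW_s16_7 : SqZ TW_M TW_L [0, 7, 4, 3] (-4608) (-5632) 512 16 7 :=
  SqZ.mk (a := 3584) (b := 4096) (c := (-2048)) (d := (-1536)) (by norm_num) (by norm_num) (by norm_num) (by norm_num)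
    (CovZ.topM TW_LL 0 (by decide +kernel) (CovZ.badM (by decide +kernel)))
    (CovZ.topM TW_LL 0 (by decide +kernel) (CovZ.badM (by decide +kernel)))

theorem TW_s0_8 : SqZ TW_M TW_L [0, 7, 4, 3] (-4608) (-5632) 512 0 8 :=
  SqZ.mk (a := (-4608)) (b := (-4096)) (c := (-1536)) (d := (-1024)) (by norm_num) (by norm_num) (by norm_num) (by norm_num)
    (CovZ.topM TW_LL 0 (by decide +kernel) (CovZ.badM (by decide +kernel)))
    (CovZ.topM TW_LL 0 (by decide +kernel) (CovZ.badM (by decide +kernel)))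

theorem TW_s1_8 : SqZ TW_M TW_L [0, 7, 4, 3] (-4608) (-5632) 512 1 8 :=
  SqZ.mk (a := (-4096)) (b := (-3584)) (c := (-1536)) (d := (-1024)) (by norm_num) (by norm_num) (by norm_num) (by norm_num)
    (CovZ.topM TW_LL 0 (by decide +kernel) (CovZ.badM (by decide +kernel)))
    (CovZ.topM TW_LL 0 (by decide +kernel) (CovZ.badM (by decide +kernel)))

theorem TW_s2_8 : SqZ TW_M TW_L [0, 7, 4, 3] (-4608) (-5632) 512 2 8 :=
  SqZ.mk (a := (-3584)) (b := (-3072)) (c := (-1536)) (d := (-1024)) (by norm_num) (by norm_num) (by norm_num) (by norm_num)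
    (CovZ.topM TW_LL 0 (by decide +kernel) (CovZ.badM (by decide +kernel)))
    (CovZ.topM TW_LL 0 (by decide +kernel) (CovZ.badM (by decide +kernel)))

theorem TW_s3_8 : SqZ TW_M TW_L [0, 7, 4, 3] (-4608) (-5632) 512 3 8 :=
  SqZ.mk (a := (-3072)) (b := (-2560)) (c := (-1536)) (d := (-1024)) (by norm_num) (by norm_num) (by norm_num) (by norm_num)
    (CovZ.topM TW_LL 18 (by decide +kernel) (CovZ.n2 (-2816, -1280) (by decide +kernel)
    (CovZ.n2 (-2560, -1280) (by decide +kernel)
     (CovZ.n2 (-2688, -1408) (by decide +kernel)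
      (CovZ.badM (by decide +kernel))
      (CovZ.n1 (-2560, -1408) (by decide +kernel)
       (CovZ.n2 (-2624, -1472) (by decide +kernel)
        (CovZ.badM (by decide +kernel))
        (CovZ.n1 (-2560, -1472) (by decide +kernel)
         (CovZ.n2 (-2592, -1504) (by decide +kernel)
          (CovZ.leaf K2_ok TW_l3061 _)
          (CovZ.leaf K2_ok TW_l3062 _))
         (CovZ.n1 (-2592, -1440) (by decide +kernel)
          (CovZ.leaf K2_ok TW_l3063 _)
          (CovZ.leaf K2_ok TW_l3064 _))))
       (CovZ.badM (by decide +kernel))))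
     (CovZ.badM (by decide +kernel)))
    (CovZ.n1 (-2816, -1536) (by decide +kernel)
     (CovZ.badM (by decide +kernel))
     (CovZ.n1 (-2688, -1408) (by decide +kernel)
      (CovZ.n2 (-2688, -1536) (by decide +kernel)
       (CovZ.n2 (-2752, -1472) (by decide +kernel)
        (CovZ.n2 (-2688, -1472) (by decide +kernel)
         (CovZ.n2 (-2720, -1504) (by decide +kernel)
          (CovZ.badM (by decide +kernel))
          (CovZ.n1 (-2688, -1504) (by decide +kernel)
           (CovZ.leaf K2_ok TW_l3065 _)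
           (CovZ.badM (by decide +kernel))))
         (CovZ.badM (by decide +kernel)))
        (CovZ.n1 (-2752, -1536) (by decide +kernel)
         (CovZ.n2 (-2784, -1504) (by decide +kernel)
          (CovZ.n2 (-2752, -1504) (by decide +kernel)
           (CovZ.n2 (-2768, -1520) (by decide +kernel)
            (CovZ.leaf K2_ok TW_l3066 _)
            (CovZ.leaf K2_ok TW_l3067 _))
           (CovZ.n1 (-2768, -1488) (by decide +kernel)
            (CovZ.badM (by decide +kernel))
            (CovZ.leaf K2_ok TW_l3068 _)))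
          (CovZ.n1 (-2784, -1536) (by decide +kernel)
           (CovZ.n2 (-2800, -1520) (by decide +kernel)
            (CovZ.leaf K2_ok TW_l3069 _)
            (CovZ.leaf K2_ok TW_l3070 _))
           (CovZ.leaf K2_ok TW_l3071 _)))
         (CovZ.n1 (-2720, -1504) (by decide +kernel)
          (CovZ.n2 (-2720, -1536) (by decide +kernel)
           (CovZ.leaf K2_ok TW_l3072 _)
           (CovZ.leaf K2_ok TW_l3073 _))
          (CovZ.n1 (-2752, -1504) (by decide +kernel)
           (CovZ.badM (by decide +kernel))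
           (CovZ.leaf K2_ok TW_l3074 _)))))
       (CovZ.n1 (-2624, -1472) (by decide +kernel)
        (CovZ.n2 (-2624, -1536) (by decide +kernel)
         (CovZ.n2 (-2656, -1504) (by decide +kernel)
          (CovZ.leaf K2_ok TW_l3075 _)
          (CovZ.leaf K2_ok TW_l3076 _))
         (CovZ.leaf K2_ok TW_l3077 _))
        (CovZ.n1 (-2688, -1472) (by decide +kernel)
         (CovZ.badM (by decide +kernel))
         (CovZ.n1 (-2656, -1504) (by decide +kernel)
          (CovZ.leaf K2_ok TW_l3078 _)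
          (CovZ.badM (by decide +kernel))))))
      (CovZ.n1 (-2816, -1408) (by decide +kernel)
       (CovZ.badM (by decide +kernel))
       (CovZ.n1 (-2752, -1472) (by decide +kernel)
        (CovZ.n2 (-2816, -1472) (by decide +kernel)
         (CovZ.badM (by decide +kernel))
         (CovZ.n1 (-2784, -1504) (by decide +kernel)
          (CovZ.n2 (-2816, -1504) (by decide +kernel)
           (CovZ.n2 (-2800, -1488) (by decide +kernel)
            (CovZ.n2 (-2800, -1504) (by decide +kernel)
             (CovZ.leaf K2_ok TW_l3079 _)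
             (CovZ.leaf K2_ok TW_l3080 _))
            (CovZ.n1 (-2816, -1488) (by decide +kernel)
             (CovZ.badM (by decide +kernel))
             (CovZ.leaf K2_ok TW_l3081 _)))
           (CovZ.n1 (-2800, -1520) (by decide +kernel)
            (CovZ.leaf K2_ok TW_l3082 _)
            (CovZ.n1 (-2800, -1504) (by decide +kernel)
             (CovZ.leaf K2_ok TW_l3083 _)
             (CovZ.leaf K2_ok TW_l3084 _))))
          (CovZ.n1 (-2784, -1472) (by decide +kernel)
           (CovZ.n2 (-2768, -1488) (by decide +kernel)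
            (CovZ.leaf K2_ok TW_l3085 _)
            (CovZ.badM (by decide +kernel)))
           (CovZ.n1 (-2800, -1488) (by decide +kernel)
            (CovZ.badM (by decide +kernel))
            (CovZ.n1 (-2784, -1488) (by decide +kernel)
             (CovZ.leaf K2_ok TW_l3086 _)
             (CovZ.badM (by decide +kernel)))))))
        (CovZ.badM (by decide +kernel))))))))
    (CovZ.topM TW_LL 16 (by decide +kernel) (CovZ.n0 (-2816, -1280) (by decide +kernel)
    (CovZ.badM (by decide +kernel))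
    (CovZ.badM (by decide +kernel))))

end Pool.Agent.TET
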