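import Pool.Agent.Helper38_TET.TW_M
import Pool.Agent.Helper38_TET.TW_L
import Pool.Agent.Helper38_TET.TW_6
import Pool.Agent.Helper38_TET.TW_9
import Pool.Agent.Helper38_TET.TW_12
import Pool.Agent.Helper38_TET.TW_14
import Pool.Agent.Helper38_TET.TW_16
import Pool.Agent.Helper38_TET.TW_17
import Pool.Agent.Helper38_TET.TW_18
import Pool.Agent.Helper38_TET.TW_23
import Pool.Agent.Helper38_TET.TW_24
import Pool.Agent.Helper38_TET.TW_25
import Pool.Agent.Helper38_TET.TW_26
import Pool.Agent.Helper38_TET.TW_27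
import Pool.Agent.Helper38_TET.TW_28
import Pool.Agent.Helper38_TET.TW_30
import Pool.Agent.Helper38_TET.TW_32
import Pool.Agent.Helper38_TET.TW_33
import Pool.Agent.Helper38_TET.TW_34
import Pool.Agent.Helper38_TET.TW_35

/-!
# MP_c7c9bf_co: certificates, family TW
-/

set_option autoImplicit false
set_option maxRecDepth 100000

namespace Pool.Agent.TET

theorem TW_s4_8 : SqZ TW_M TW_L [0, 7, 4, 3] (-4608) (-5632) 512 4 8 :=
  SqZ.mk (a := (-2560)) (b := (-2048)) (c := (-1536)) (d := (-1024)) (by norm_num) (by norm_num) (by norm_num) (by norm_num)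
    (CovZ.topM TW_LL 18 (by decide +kernel) (CovZ.n2 (-2304, -1280) (by decide +kernel)
    (CovZ.n2 (-2048, -1280) (by decide +kernel)
     (CovZ.n2 (-2176, -1408) (by decide +kernel)
      (CovZ.n2 (-2176, -1280) (by decide +kernel)
       (CovZ.leaf K2_ok TW_l3319 _)
       (CovZ.n1 (-2240, -1344) (by decide +kernel)
        (CovZ.leaf K2_ok TW_l3320 _)
        (CovZ.leaf K2_ok TW_l3321 _)))
      (CovZ.n1 (-2048, -1408) (by decide +kernel)
       (CovZ.leaf K2_ok TW_l1032 _)
       (CovZ.leaf K2_ok TW_l1033 _)))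
     (CovZ.n1 (-2176, -1152) (by decide +kernel)
      (CovZ.n2 (-2048, -1152) (by decide +kernel)
       (CovZ.n2 (-2112, -1216) (by decide +kernel)
        (CovZ.leaf K2_ok TW_l3322 _)
        (CovZ.leaf K2_ok TW_l3323 _))
       (CovZ.leaf K2_ok TW_l3324 _))
      (CovZ.n1 (-2176, -1280) (by decide +kernel)
       (CovZ.n2 (-2240, -1216) (by decide +kernel)
        (CovZ.leaf K2_ok TW_l3325 _)
        (CovZ.leaf K2_ok TW_l3326 _))
       (CovZ.leaf K2_ok TW_l3327 _))))
    (CovZ.n1 (-2304, -1536) (by decide +kernel)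
     (CovZ.n2 (-2432, -1408) (by decide +kernel)
      (CovZ.n2 (-2304, -1408) (by decide +kernel)
       (CovZ.n2 (-2368, -1472) (by decide +kernel)
        (CovZ.leaf K2_ok TW_l3328 _)
        (CovZ.leaf K2_ok TW_l1034 _))
       (CovZ.n1 (-2368, -1344) (by decide +kernel)
        (CovZ.n2 (-2304, -1344) (by decide +kernel)
         (CovZ.leaf K2_ok TW_l3329 _)
         (CovZ.leaf K2_ok TW_l3330 _))
        (CovZ.leaf K2_ok TW_l3331 _)))
      (CovZ.n1 (-2432, -1536) (by decide +kernel)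
       (CovZ.n2 (-2496, -1472) (by decide +kernel)
        (CovZ.n2 (-2432, -1472) (by decide +kernel)
         (CovZ.leaf K2_ok TW_l3332 _)
         (CovZ.leaf K2_ok TW_l3333 _))
        (CovZ.leaf K2_ok TW_l3334 _))
       (CovZ.leaf K2_ok TW_l1035 _)))
     (CovZ.n1 (-2176, -1408) (by decide +kernel)
      (CovZ.n2 (-2176, -1536) (by decide +kernel)
       (CovZ.leaf K2_ok TW_l1036 _)
       (CovZ.leaf K2_ok TW_l1037 _))
      (CovZ.n1 (-2304, -1408) (by decide +kernel)
       (CovZ.leaf K2_ok TW_l3335 _)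
       (CovZ.leaf K2_ok TW_l1038 _))))))
    (CovZ.topM TW_LL 18 (by decide +kernel) (CovZ.n0 (-2304, -1280) (by decide +kernel)
    (CovZ.n2 (-2560, -1280) (by decide +kernel)
     (CovZ.n2 (-2432, -1152) (by decide +kernel)
      (CovZ.n2 (-2432, -1280) (by decide +kernel)
       (CovZ.badM (by decide +kernel))
       (CovZ.n1 (-2368, -1216) (by decide +kernel)
        (CovZ.n2 (-2368, -1280) (by decide +kernel)
         (CovZ.leaf K2_ok TW_l3336 _)
         (CovZ.leaf K2_ok TW_l3337 _))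
        (CovZ.n1 (-2432, -1216) (by decide +kernel)
         (CovZ.n2 (-2400, -1184) (by decide +kernel)
          (CovZ.leaf K2_ok TW_l3338 _)
          (CovZ.badM (by decide +kernel)))
         (CovZ.leaf K2_ok TW_l3339 _))))
      (CovZ.badM (by decide +kernel)))
     (CovZ.n1 (-2432, -1408) (by decide +kernel)
      (CovZ.n2 (-2560, -1408) (by decide +kernel)
       (CovZ.n2 (-2496, -1344) (by decide +kernel)
        (CovZ.n2 (-2496, -1408) (by decide +kernel)
         (CovZ.n2 (-2528, -1376) (by decide +kernel)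
          (CovZ.leaf K2_ok TW_l3340 _)
          (CovZ.leaf K2_ok TW_l3341 _))
         (CovZ.leaf K2_ok TW_l3342 _))
        (CovZ.badM (by decide +kernel)))
       (CovZ.n1 (-2496, -1472) (by decide +kernel)
        (CovZ.n2 (-2560, -1472) (by decide +kernel)
         (CovZ.leaf K2_ok TW_l3343 _)
         (CovZ.leaf K2_ok TW_l3344 _))
        (CovZ.n1 (-2496, -1408) (by decide +kernel)
         (CovZ.leaf K2_ok TW_l3345 _)
         (CovZ.n1 (-2528, -1440) (by decide +kernel)
          (CovZ.leaf K2_ok TW_l3346 _)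
          (CovZ.leaf K2_ok TW_l3347 _)))))
      (CovZ.n1 (-2432, -1280) (by decide +kernel)
       (CovZ.n2 (-2368, -1344) (by decide +kernel)
        (CovZ.leaf K2_ok TW_l3348 _)
        (CovZ.n1 (-2368, -1280) (by decide +kernel)
         (CovZ.leaf K2_ok TW_l3349 _)
         (CovZ.leaf K2_ok TW_l3350 _)))
       (CovZ.n1 (-2496, -1344) (by decide +kernel)
        (CovZ.badM (by decide +kernel))
        (CovZ.n1 (-2432, -1344) (by decide +kernel)
         (CovZ.n2 (-2464, -1376) (by decide +kernel)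
          (CovZ.leaf K2_ok TW_l3351 _)
          (CovZ.leaf K2_ok TW_l3352 _))
         (CovZ.n1 (-2464, -1312) (by decide +kernel)
          (CovZ.leaf K2_ok TW_l3353 _)
          (CovZ.leaf K2_ok TW_l3354 _)))))))
    (CovZ.n1 (-2304, -1024) (by decide +kernel)
     (CovZ.n2 (-2176, -1152) (by decide +kernel)
      (CovZ.n2 (-2304, -1152) (by decide +kernel)
       (CovZ.n2 (-2240, -1088) (by decide +kernel)
        (CovZ.n2 (-2240, -1152) (by decide +kernel)
         (CovZ.leaf K2_ok TW_l3355 _)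
         (CovZ.leaf K2_ok TW_l3356 _))
        (CovZ.n1 (-2304, -1088) (by decide +kernel)
         (CovZ.leaf K2_ok TW_l3357 _)
         (CovZ.leaf K2_ok TW_l3358 _)))
       (CovZ.n1 (-2240, -1216) (by decide +kernel)
        (CovZ.leaf K2_ok TW_l3359 _)
        (CovZ.n1 (-2240, -1152) (by decide +kernel)
         (CovZ.leaf K2_ok TW_l3360 _)
         (CovZ.leaf K2_ok TW_l3361 _))))
      (CovZ.n1 (-2176, -1024) (by decide +kernel)
       (CovZ.leaf K2_ok TW_l3362 _)
       (CovZ.n1 (-2240, -1088) (by decide +kernel)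
        (CovZ.n2 (-2240, -1024) (by decide +kernel)
         (CovZ.leaf K2_ok TW_l3363 _)
         (CovZ.n1 (-2272, -1056) (by decide +kernel)
          (CovZ.leaf K2_ok TW_l3364 _)
          (CovZ.leaf K2_ok TW_l3365 _)))
        (CovZ.n1 (-2176, -1088) (by decide +kernel)
         (CovZ.leaf K2_ok TW_l3366 _)
         (CovZ.leaf K2_ok TW_l3367 _)))))
     (CovZ.n1 (-2432, -1152) (by decide +kernel)
      (CovZ.badM (by decide +kernel))
      (CovZ.n1 (-2304, -1152) (by decide +kernel)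
       (CovZ.n2 (-2368, -1216) (by decide +kernel)
        (CovZ.n2 (-2368, -1152) (by decide +kernel)
         (CovZ.leaf K2_ok TW_l3368 _)
         (CovZ.n1 (-2400, -1184) (by decide +kernel)
          (CovZ.badM (by decide +kernel))
          (CovZ.leaf K2_ok TW_l3369 _)))
        (CovZ.n1 (-2304, -1216) (by decide +kernel)
         (CovZ.leaf K2_ok TW_l3370 _)
         (CovZ.leaf K2_ok TW_l3371 _)))
       (CovZ.n1 (-2368, -1088) (by decide +kernel)
        (CovZ.n2 (-2304, -1088) (by decide +kernel)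
         (CovZ.n2 (-2336, -1120) (by decide +kernel)
          (CovZ.badM (by decide +kernel))
          (CovZ.leaf K2_ok TW_l3372 _))
         (CovZ.badM (by decide +kernel)))
        (CovZ.n1 (-2368, -1152) (by decide +kernel)
         (CovZ.badM (by decide +kernel))
         (CovZ.leaf K2_ok TW_l3373 _))))))))

theorem TW_s5_8 : SqZ TW_M TW_L [0, 7, 4, 3] (-4608) (-5632) 512 5 8 :=
  SqZ.mk (a := (-2048)) (b := (-1536)) (c := (-1536)) (d := (-1024)) (by norm_num) (by norm_num) (by norm_num) (by norm_num)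
    (CovZ.topM TW_LL 2 (by decide +kernel) (CovZ.n2 (-1792, -1280) (by decide +kernel)
    (CovZ.n2 (-1536, -1280) (by decide +kernel)
     (CovZ.leaf K2_ok TW_l1442 _)
     (CovZ.n1 (-1664, -1152) (by decide +kernel)
      (CovZ.leaf K2_ok TW_l1443 _)
      (CovZ.leaf K2_ok TW_l1444 _)))
    (CovZ.n1 (-1792, -1536) (by decide +kernel)
     (CovZ.n2 (-1920, -1408) (by decide +kernel)
      (CovZ.leaf K2_ok TW_l1445 _)
      (CovZ.leaf K2_ok TW_l1446 _))
     (CovZ.leaf K2_ok TW_l1447 _))))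
    (CovZ.topM TW_LL 2 (by decide +kernel) (CovZ.n0 (-1792, -1280) (by decide +kernel)
    (CovZ.n2 (-2048, -1280) (by decide +kernel)
     (CovZ.n2 (-1920, -1152) (by decide +kernel)
      (CovZ.leaf K2_ok TW_l1448 _)
      (CovZ.leaf K2_ok TW_l3559 _))
     (CovZ.n1 (-1920, -1408) (by decide +kernel)
      (CovZ.leaf K2_ok TW_l1449 _)
      (CovZ.leaf K2_ok TW_l1450 _)))
    (CovZ.n1 (-1792, -1024) (by decide +kernel)
     (CovZ.n2 (-1664, -1152) (by decide +kernel)
      (CovZ.leaf K2_ok TW_l1451 _)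
      (CovZ.leaf K2_ok TW_l1452 _))
     (CovZ.n1 (-1920, -1152) (by decide +kernel)
      (CovZ.n2 (-1920, -1024) (by decide +kernel)
       (CovZ.leaf K2_ok TW_l3560 _)
       (CovZ.leaf K2_ok TW_l3561 _))
      (CovZ.n1 (-1792, -1152) (by decide +kernel)
       (CovZ.leaf K2_ok TW_l1453 _)
       (CovZ.leaf K2_ok TW_l3562 _))))))

theorem TW_s6_8 : SqZ TW_M TW_L [0, 7, 4, 3] (-4608) (-5632) 512 6 8 :=
  SqZ.mk (a := (-1536)) (b := (-1024)) (c := (-1536)) (d := (-1024)) (by norm_num) (by norm_num) (by norm_num) (by norm_num)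
    (CovZ.topM TW_LL 6 (by decide +kernel) (CovZ.n2 (-1280, -1280) (by decide +kernel)
    (CovZ.n2 (-1024, -1280) (by decide +kernel)
     (CovZ.leaf K2_ok TW_l1919 _)
     (CovZ.leaf K2_ok TW_l1920 _))
    (CovZ.leaf K2_ok TW_l1921 _)))
    (CovZ.topM TW_LL 6 (by decide +kernel) (CovZ.n0 (-1280, -1280) (by decide +kernel)
    (CovZ.leaf K2_ok TW_l1922 _)
    (CovZ.n1 (-1280, -1024) (by decide +kernel)
     (CovZ.leaf K2_ok TW_l1923 _)
     (CovZ.leaf K2_ok TW_l1924 _))))

theorem TW_s7_8 : SqZ TW_M TW_L [0, 7, 4, 3] (-4608) (-5632) 512 7 8 :=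
  SqZ.mk (a := (-1024)) (b := (-512)) (c := (-1536)) (d := (-1024)) (by norm_num) (by norm_num) (by norm_num) (by norm_num)
    (CovZ.topM TW_LL 6 (by decide +kernel) (CovZ.n2 (-768, -1280) (by decide +kernel)
    (CovZ.n2 (-512, -1280) (by decide +kernel)
     (CovZ.n2 (-640, -1408) (by decide +kernel)
      (CovZ.n2 (-640, -1280) (by decide +kernel)
       (CovZ.leaf K2_ok TW_l2230 _)
       (CovZ.leaf K2_ok TW_l2231 _))
      (CovZ.leaf K2_ok TW_l2232 _))
     (CovZ.leaf K2_ok TW_l2233 _))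
    (CovZ.n1 (-768, -1536) (by decide +kernel)
     (CovZ.leaf K2_ok TW_l2234 _)
     (CovZ.leaf K2_ok TW_l2235 _))))
    (CovZ.topM TW_LL 6 (by decide +kernel) (CovZ.n0 (-768, -1280) (by decide +kernel)
    (CovZ.n2 (-1024, -1280) (by decide +kernel)
     (CovZ.leaf K2_ok TW_l2236 _)
     (CovZ.leaf K2_ok TW_l2237 _))
    (CovZ.leaf K2_ok TW_l2238 _)))

theorem TW_s8_8 : SqZ TW_M TW_L [0, 7, 4, 3] (-4608) (-5632) 512 8 8 :=
  SqZ.mk (a := (-512)) (b := 0) (c := (-1536)) (d := (-1024)) (by norm_num) (by norm_num) (by norm_num) (by norm_num)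
    (CovZ.topM TW_LL 7 (by decide +kernel) (CovZ.n2 (-256, -1280) (by decide +kernel)
    (CovZ.n2 (0, -1280) (by decide +kernel)
     (CovZ.n2 (-128, -1408) (by decide +kernel)
      (CovZ.leaf K2_ok TW_l2459 _)
      (CovZ.leaf K2_ok TW_l2460 _))
     (CovZ.n1 (-128, -1152) (by decide +kernel)
      (CovZ.leaf K2_ok TW_l2461 _)
      (CovZ.leaf K2_ok TW_l2462 _)))
    (CovZ.n1 (-256, -1536) (by decide +kernel)
     (CovZ.n2 (-384, -1408) (by decide +kernel)
      (CovZ.leaf K2_ok TW_l2463 _)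
      (CovZ.leaf K2_ok TW_l2464 _))
     (CovZ.leaf K2_ok TW_l2465 _))))
    (CovZ.topM TW_LL 7 (by decide +kernel) (CovZ.n0 (-256, -1280) (by decide +kernel)
    (CovZ.n2 (-512, -1280) (by decide +kernel)
     (CovZ.leaf K2_ok TW_l2466 _)
     (CovZ.n1 (-384, -1408) (by decide +kernel)
      (CovZ.leaf K2_ok TW_l2467 _)
      (CovZ.n1 (-384, -1280) (by decide +kernel)
       (CovZ.leaf K2_ok TW_l2468 _)
       (CovZ.leaf K2_ok TW_l2469 _))))
    (CovZ.n1 (-256, -1024) (by decide +kernel)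
     (CovZ.n2 (-128, -1152) (by decide +kernel)
      (CovZ.leaf K2_ok TW_l2470 _)
      (CovZ.leaf K2_ok TW_l2471 _))
     (CovZ.n1 (-384, -1152) (by decide +kernel)
      (CovZ.leaf K2_ok TW_l2472 _)
      (CovZ.leaf K2_ok TW_l2473 _)))))

theorem TW_s9_8 : SqZ TW_M TW_L [0, 7, 4, 3] (-4608) (-5632) 512 9 8 :=
  SqZ.mk (a := 0) (b := 512) (c := (-1536)) (d := (-1024)) (by norm_num) (by norm_num) (by norm_num) (by norm_num)
    (CovZ.topM TW_LL 7 (by decide +kernel) (CovZ.n2 (256, -1280) (by decide +kernel)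
    (CovZ.n2 (512, -1280) (by decide +kernel)
     (CovZ.n2 (384, -1408) (by decide +kernel)
      (CovZ.leaf K2_ok TW_l2540 _)
      (CovZ.leaf K2_ok TW_l2541 _))
     (CovZ.n1 (384, -1152) (by decide +kernel)
      (CovZ.leaf K2_ok TW_l2542 _)
      (CovZ.leaf K2_ok TW_l2543 _)))
    (CovZ.n1 (256, -1536) (by decide +kernel)
     (CovZ.n2 (128, -1408) (by decide +kernel)
      (CovZ.leaf K2_ok TW_l2544 _)
      (CovZ.leaf K2_ok TW_l2545 _))
     (CovZ.leaf K2_ok TW_l2546 _))))
    (CovZ.topM TW_LL 7 (by decide +kernel) (CovZ.n0 (256, -1280) (by decide +kernel)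
    (CovZ.n2 (0, -1280) (by decide +kernel)
     (CovZ.leaf K2_ok TW_l2547 _)
     (CovZ.n1 (128, -1408) (by decide +kernel)
      (CovZ.leaf K2_ok TW_l2548 _)
      (CovZ.leaf K2_ok TW_l2549 _)))
    (CovZ.n1 (256, -1024) (by decide +kernel)
     (CovZ.n2 (384, -1152) (by decide +kernel)
      (CovZ.leaf K2_ok TW_l2550 _)
      (CovZ.leaf K2_ok TW_l2551 _))
     (CovZ.n1 (128, -1152) (by decide +kernel)
      (CovZ.leaf K2_ok TW_l2552 _)
      (CovZ.leaf K2_ok TW_l2553 _)))))

theorem TW_s10_8 : SqZ TW_M TW_L [0, 7, 4, 3] (-4608) (-5632) 512 10 8 :=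
  SqZ.mk (a := 512) (b := 1024) (c := (-1536)) (d := (-1024)) (by norm_num) (by norm_num) (by norm_num) (by norm_num)
    (CovZ.topM TW_LL 7 (by decide +kernel) (CovZ.n2 (768, -1280) (by decide +kernel)
    (CovZ.n2 (1024, -1280) (by decide +kernel)
     (CovZ.n2 (896, -1408) (by decide +kernel)
      (CovZ.leaf K2_ok TW_l2583 _)
      (CovZ.n1 (1024, -1408) (by decide +kernel)
       (CovZ.leaf K2_ok TW_l2584 _)
       (CovZ.leaf K2_ok TW_l2585 _)))
     (CovZ.n1 (896, -1152) (by decide +kernel)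
      (CovZ.n2 (1024, -1152) (by decide +kernel)
       (CovZ.leaf K2_ok TW_l2586 _)
       (CovZ.leaf K2_ok TW_l2587 _))
      (CovZ.leaf K2_ok TW_l2588 _)))
    (CovZ.n1 (768, -1536) (by decide +kernel)
     (CovZ.n2 (640, -1408) (by decide +kernel)
      (CovZ.leaf K2_ok TW_l2589 _)
      (CovZ.leaf K2_ok TW_l2590 _))
     (CovZ.n1 (896, -1408) (by decide +kernel)
      (CovZ.leaf K2_ok TW_l2591 _)
      (CovZ.leaf K2_ok TW_l2592 _)))))
    (CovZ.topM TW_LL 7 (by decide +kernel) (CovZ.n0 (768, -1280) (by decide +kernel)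
    (CovZ.n2 (512, -1280) (by decide +kernel)
     (CovZ.leaf K2_ok TW_l2593 _)
     (CovZ.n1 (640, -1408) (by decide +kernel)
      (CovZ.leaf K2_ok TW_l2594 _)
      (CovZ.leaf K2_ok TW_l2595 _)))
    (CovZ.n1 (768, -1024) (by decide +kernel)
     (CovZ.n2 (896, -1152) (by decide +kernel)
      (CovZ.leaf K2_ok TW_l2596 _)
      (CovZ.leaf K2_ok TW_l2597 _))
     (CovZ.n1 (640, -1152) (by decide +kernel)
      (CovZ.leaf K2_ok TW_l2598 _)
      (CovZ.leaf K2_ok TW_l2599 _)))))

theorem TW_s11_8 : SqZ TW_M TW_L [0, 7, 4, 3] (-4608) (-5632) 512 11 8 :=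
  SqZ.mk (a := 1024) (b := 1536) (c := (-1536)) (d := (-1024)) (by norm_num) (by norm_num) (by norm_num) (by norm_num)
    (CovZ.topM TW_LL 7 (by decide +kernel) (CovZ.n2 (1280, -1280) (by decide +kernel)
    (CovZ.n2 (1536, -1280) (by decide +kernel)
     (CovZ.n2 (1408, -1408) (by decide +kernel)
      (CovZ.n2 (1408, -1280) (by decide +kernel)
       (CovZ.leaf K2_ok TW_l4666 _)
       (CovZ.leaf K2_ok TW_l2628 _))
      (CovZ.n1 (1536, -1408) (by decide +kernel)
       (CovZ.n2 (1472, -1472) (by decide +kernel)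
        (CovZ.leaf K2_ok TW_l4667 _)
        (CovZ.n1 (1536, -1472) (by decide +kernel)
         (CovZ.leaf K2_ok TW_l4668 _)
         (CovZ.leaf K2_ok TW_l4669 _)))
       (CovZ.leaf K2_ok TW_l4670 _)))
     (CovZ.n1 (1408, -1152) (by decide +kernel)
      (CovZ.n2 (1536, -1152) (by decide +kernel)
       (CovZ.leaf K2_ok TW_l2629 _)
       (CovZ.leaf K2_ok TW_l2630 _))
      (CovZ.leaf K2_ok TW_l2631 _)))
    (CovZ.n1 (1280, -1536) (by decide +kernel)
     (CovZ.n2 (1152, -1408) (by decide +kernel)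
      (CovZ.n2 (1280, -1408) (by decide +kernel)
       (CovZ.n2 (1216, -1472) (by decide +kernel)
        (CovZ.leaf K2_ok TW_l4671 _)
        (CovZ.leaf K2_ok TW_l4672 _))
       (CovZ.leaf K2_ok TW_l2632 _))
      (CovZ.n1 (1152, -1536) (by decide +kernel)
       (CovZ.leaf K2_ok TW_l4673 _)
       (CovZ.leaf K2_ok TW_l4674 _)))
     (CovZ.n1 (1408, -1408) (by decide +kernel)
      (CovZ.n2 (1408, -1536) (by decide +kernel)
       (CovZ.leaf K2_ok TW_l4675 _)
       (CovZ.leaf K2_ok TW_l4676 _))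
      (CovZ.n1 (1280, -1408) (by decide +kernel)
       (CovZ.leaf K2_ok TW_l2633 _)
       (CovZ.n1 (1344, -1472) (by decide +kernel)
        (CovZ.leaf K2_ok TW_l4677 _)
        (CovZ.leaf K2_ok TW_l4678 _)))))))
    (CovZ.topM TW_LL 7 (by decide +kernel) (CovZ.n0 (1280, -1280) (by decide +kernel)
    (CovZ.n2 (1024, -1280) (by decide +kernel)
     (CovZ.n2 (1152, -1152) (by decide +kernel)
      (CovZ.leaf K2_ok TW_l2634 _)
      (CovZ.leaf K2_ok TW_l2635 _))
     (CovZ.n1 (1152, -1408) (by decide +kernel)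
      (CovZ.n2 (1024, -1408) (by decide +kernel)
       (CovZ.leaf K2_ok TW_l2636 _)
       (CovZ.leaf K2_ok TW_l2637 _))
      (CovZ.n1 (1152, -1280) (by decide +kernel)
       (CovZ.leaf K2_ok TW_l2638 _)
       (CovZ.leaf K2_ok TW_l2639 _))))
    (CovZ.n1 (1280, -1024) (by decide +kernel)
     (CovZ.n2 (1408, -1152) (by decide +kernel)
      (CovZ.leaf K2_ok TW_l2640 _)
      (CovZ.n1 (1408, -1024) (by decide +kernel)
       (CovZ.leaf K2_ok TW_l2641 _)
       (CovZ.leaf K2_ok TW_l2642 _)))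
     (CovZ.n1 (1152, -1152) (by decide +kernel)
      (CovZ.n2 (1152, -1024) (by decide +kernel)
       (CovZ.leaf K2_ok TW_l2643 _)
       (CovZ.leaf K2_ok TW_l2644 _))
      (CovZ.n1 (1280, -1152) (by decide +kernel)
       (CovZ.leaf K2_ok TW_l2645 _)
       (CovZ.leaf K2_ok TW_l2646 _))))))

theorem TW_s12_8 : SqZ TW_M TW_L [0, 7, 4, 3] (-4608) (-5632) 512 12 8 :=
  SqZ.mk (a := 1536) (b := 2048) (c := (-1536)) (d := (-1024)) (by norm_num) (by norm_num) (by norm_num) (by norm_num)
    (CovZ.topM TW_LL 1 (by decide +kernel) (CovZ.n2 (1792, -1280) (by decide +kernel)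
    (CovZ.n2 (2048, -1280) (by decide +kernel)
     (CovZ.n2 (1920, -1408) (by decide +kernel)
      (CovZ.n2 (1920, -1280) (by decide +kernel)
       (CovZ.badM (by decide +kernel))
       (CovZ.n1 (1856, -1344) (by decide +kernel)
        (CovZ.n2 (1856, -1280) (by decide +kernel)
         (CovZ.badM (by decide +kernel))
         (CovZ.leaf K2_ok TW_l4743 _))
        (CovZ.badM (by decide +kernel))))
      (CovZ.badM (by decide +kernel)))
     (CovZ.n1 (1920, -1152) (by decide +kernel)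
      (CovZ.n2 (2048, -1152) (by decide +kernel)
       (CovZ.n2 (1984, -1216) (by decide +kernel)
        (CovZ.n2 (1984, -1152) (by decide +kernel)
         (CovZ.badM (by decide +kernel))
         (CovZ.leaf K2_ok TW_l4744 _))
        (CovZ.badM (by decide +kernel)))
       (CovZ.n1 (1984, -1088) (by decide +kernel)
        (CovZ.n2 (2048, -1088) (by decide +kernel)
         (CovZ.leaf K2_ok TW_l4745 _)
         (CovZ.leaf K2_ok TW_l4746 _))
        (CovZ.leaf K2_ok TW_l4747 _)))
      (CovZ.n1 (1920, -1280) (by decide +kernel)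
       (CovZ.n2 (1856, -1216) (by decide +kernel)
        (CovZ.n2 (1920, -1216) (by decide +kernel)
         (CovZ.leaf K2_ok TW_l4748 _)
         (CovZ.leaf K2_ok TW_l4749 _))
        (CovZ.leaf K2_ok TW_l4750 _))
       (CovZ.n1 (1984, -1216) (by decide +kernel)
        (CovZ.badM (by decide +kernel))
        (CovZ.n1 (1920, -1216) (by decide +kernel)
         (CovZ.leaf K2_ok TW_l4751 _)
         (CovZ.badM (by decide +kernel)))))))
    (CovZ.n1 (1792, -1536) (by decide +kernel)
     (CovZ.n2 (1664, -1408) (by decide +kernel)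
      (CovZ.n2 (1792, -1408) (by decide +kernel)
       (CovZ.n2 (1728, -1472) (by decide +kernel)
        (CovZ.n2 (1728, -1408) (by decide +kernel)
         (CovZ.badM (by decide +kernel))
         (CovZ.n1 (1696, -1440) (by decide +kernel)
          (CovZ.leaf K2_ok TW_l4752 _)
          (CovZ.badM (by decide +kernel))))
        (CovZ.badM (by decide +kernel)))
       (CovZ.n1 (1728, -1344) (by decide +kernel)
        (CovZ.n2 (1792, -1344) (by decide +kernel)
         (CovZ.n2 (1760, -1376) (by decide +kernel)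
          (CovZ.leaf K2_ok TW_l4753 _)
          (CovZ.badM (by decide +kernel)))
         (CovZ.leaf K2_ok TW_l4754 _))
        (CovZ.n1 (1728, -1408) (by decide +kernel)
         (CovZ.leaf K2_ok TW_l4755 _)
         (CovZ.leaf K2_ok TW_l4756 _))))
      (CovZ.n1 (1664, -1536) (by decide +kernel)
       (CovZ.n2 (1600, -1472) (by decide +kernel)
        (CovZ.n2 (1664, -1472) (by decide +kernel)
         (CovZ.n2 (1632, -1504) (by decide +kernel)
          (CovZ.leaf K2_ok TW_l4757 _)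
          (CovZ.badM (by decide +kernel)))
         (CovZ.leaf K2_ok TW_l4758 _))
        (CovZ.n1 (1600, -1536) (by decide +kernel)
         (CovZ.leaf K2_ok TW_l4759 _)
         (CovZ.leaf K2_ok TW_l4760 _)))
       (CovZ.n1 (1728, -1472) (by decide +kernel)
        (CovZ.badM (by decide +kernel))
        (CovZ.n1 (1664, -1472) (by decide +kernel)
         (CovZ.leaf K2_ok TW_l4761 _)
         (CovZ.badM (by decide +kernel))))))
     (CovZ.n1 (1920, -1408) (by decide +kernel)
      (CovZ.badM (by decide +kernel))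
      (CovZ.n1 (1792, -1408) (by decide +kernel)
       (CovZ.n2 (1856, -1344) (by decide +kernel)
        (CovZ.badM (by decide +kernel))
        (CovZ.n1 (1792, -1344) (by decide +kernel)
         (CovZ.leaf K2_ok TW_l4762 _)
         (CovZ.badM (by decide +kernel))))
       (CovZ.badM (by decide +kernel)))))))
    (CovZ.topM TW_LL 5 (by decide +kernel) (CovZ.n0 (1792, -1280) (by decide +kernel)
    (CovZ.n2 (1536, -1280) (by decide +kernel)
     (CovZ.n2 (1664, -1152) (by decide +kernel)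
      (CovZ.n2 (1664, -1280) (by decide +kernel)
       (CovZ.leaf K2_ok TW_l4763 _)
       (CovZ.leaf K2_ok TW_l4764 _))
      (CovZ.n1 (1536, -1152) (by decide +kernel)
       (CovZ.leaf K2_ok TW_l2693 _)
       (CovZ.leaf K2_ok TW_l4765 _)))
     (CovZ.n1 (1664, -1408) (by decide +kernel)
      (CovZ.n2 (1536, -1408) (by decide +kernel)
       (CovZ.leaf K2_ok TW_l4766 _)
       (CovZ.n1 (1600, -1472) (by decide +kernel)
        (CovZ.leaf K2_ok TW_l4767 _)
        (CovZ.n1 (1600, -1408) (by decide +kernel)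
         (CovZ.leaf K2_ok TW_l4768 _)
         (CovZ.leaf K2_ok TW_l4769 _))))
      (CovZ.n1 (1664, -1280) (by decide +kernel)
       (CovZ.n2 (1728, -1344) (by decide +kernel)
        (CovZ.leaf K2_ok TW_l4770 _)
        (CovZ.leaf K2_ok TW_l4771 _))
       (CovZ.n1 (1600, -1344) (by decide +kernel)
        (CovZ.leaf K2_ok TW_l4772 _)
        (CovZ.leaf K2_ok TW_l4773 _)))))
    (CovZ.n1 (1792, -1024) (by decide +kernel)
     (CovZ.n2 (1920, -1152) (by decide +kernel)
      (CovZ.n2 (1792, -1152) (by decide +kernel)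
       (CovZ.leaf K2_ok TW_l4774 _)
       (CovZ.n1 (1856, -1216) (by decide +kernel)
        (CovZ.leaf K2_ok TW_l4775 _)
        (CovZ.leaf K2_ok TW_l4776 _)))
      (CovZ.n1 (1920, -1024) (by decide +kernel)
       (CovZ.n2 (1984, -1088) (by decide +kernel)
        (CovZ.leaf K2_ok TW_l4777 _)
        (CovZ.leaf K2_ok TW_l4778 _))
       (CovZ.n1 (1856, -1088) (by decide +kernel)
        (CovZ.leaf K2_ok TW_l4779 _)
        (CovZ.leaf K2_ok TW_l4780 _))))
     (CovZ.n1 (1664, -1152) (by decide +kernel)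
      (CovZ.n2 (1664, -1024) (by decide +kernel)
       (CovZ.leaf K2_ok TW_l2694 _)
       (CovZ.leaf K2_ok TW_l2695 _))
      (CovZ.n1 (1792, -1152) (by decide +kernel)
       (CovZ.n2 (1728, -1216) (by decide +kernel)
        (CovZ.leaf K2_ok TW_l4781 _)
        (CovZ.leaf K2_ok TW_l4782 _))
       (CovZ.leaf K2_ok TW_l4783 _))))))

theorem TW_s13_8 : SqZ TW_M TW_L [0, 7, 4, 3] (-4608) (-5632) 512 13 8 :=
  SqZ.mk (a := 2048) (b := 2560) (c := (-1536)) (d := (-1024)) (by norm_num) (by norm_num) (by norm_num) (by norm_num)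
    (CovZ.topM TW_LL 0 (by decide +kernel) (CovZ.badM (by decide +kernel)))
    (CovZ.topM TW_LL 1 (by decide +kernel) (CovZ.n0 (2304, -1280) (by decide +kernel)
    (CovZ.n2 (2048, -1280) (by decide +kernel)
     (CovZ.n2 (2176, -1152) (by decide +kernel)
      (CovZ.badM (by decide +kernel))
      (CovZ.n1 (2048, -1152) (by decide +kernel)
       (CovZ.n2 (2112, -1088) (by decide +kernel)
        (CovZ.badM (by decide +kernel))
        (CovZ.leaf K2_ok TW_l4810 _))
       (CovZ.badM (by decide +kernel))))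
     (CovZ.badM (by decide +kernel)))
    (CovZ.n1 (2304, -1024) (by decide +kernel)
     (CovZ.badM (by decide +kernel))
     (CovZ.n1 (2176, -1152) (by decide +kernel)
      (CovZ.n2 (2176, -1024) (by decide +kernel)
       (CovZ.badM (by decide +kernel))
       (CovZ.n1 (2112, -1088) (by decide +kernel)
        (CovZ.n2 (2112, -1024) (by decide +kernel)
         (CovZ.badM (by decide +kernel))
         (CovZ.leaf K2_ok TW_l4811 _))
        (CovZ.badM (by decide +kernel))))
      (CovZ.badM (by decide +kernel))))))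

theorem TW_s14_8 : SqZ TW_M TW_L [0, 7, 4, 3] (-4608) (-5632) 512 14 8 :=
  SqZ.mk (a := 2560) (b := 3072) (c := (-1536)) (d := (-1024)) (by norm_num) (by norm_num) (by norm_num) (by norm_num)
    (CovZ.topM TW_LL 0 (by decide +kernel) (CovZ.badM (by decide +kernel)))
    (CovZ.topM TW_LL 0 (by decide +kernel) (CovZ.badM (by decide +kernel)))

theorem TW_s15_8 : SqZ TW_M TW_L [0, 7, 4, 3] (-4608) (-5632) 512 15 8 :=
  SqZ.mk (a := 3072) (b := 3584) (c := (-1536)) (d := (-1024)) (by norm_num) (by norm_num) (by norm_num) (by norm_num)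
    (CovZ.topM TW_LL 0 (by decide +kernel) (CovZ.badM (by decide +kernel)))
    (CovZ.topM TW_LL 0 (by decide +kernel) (CovZ.badM (by decide +kernel)))

theorem TW_s16_8 : SqZ TW_M TW_L [0, 7, 4, 3] (-4608) (-5632) 512 16 8 :=
  SqZ.mk (a := 3584) (b := 4096) (c := (-1536)) (d := (-1024)) (by norm_num) (by norm_num) (by norm_num) (by norm_num)
    (CovZ.topM TW_LL 0 (by decide +kernel) (CovZ.badM (by decide +kernel)))
    (CovZ.topM TW_LL 0 (by decide +kernel) (CovZ.badM (by decide +kernel)))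

theorem TW_s0_9 : SqZ TW_M TW_L [0, 7, 4, 3] (-4608) (-5632) 512 0 9 :=
  SqZ.mk (a := (-4608)) (b := (-4096)) (c := (-1024)) (d := (-512)) (by norm_num) (by norm_num) (by norm_num) (by norm_num)
    (CovZ.topM TW_LL 0 (by decide +kernel) (CovZ.badM (by decide +kernel)))
    (CovZ.topM TW_LL 0 (by decide +kernel) (CovZ.badM (by decide +kernel)))

theorem TW_s1_9 : SqZ TW_M TW_L [0, 7, 4, 3] (-4608) (-5632) 512 1 9 :=
  SqZ.mk (a := (-4096)) (b := (-3584)) (c := (-1024)) (d := (-512)) (by norm_num) (by norm_num) (by norm_num) (by norm_num)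
    (CovZ.topM TW_LL 0 (by decide +kernel) (CovZ.badM (by decide +kernel)))
    (CovZ.topM TW_LL 0 (by decide +kernel) (CovZ.badM (by decide +kernel)))

theorem TW_s2_9 : SqZ TW_M TW_L [0, 7, 4, 3] (-4608) (-5632) 512 2 9 :=
  SqZ.mk (a := (-3584)) (b := (-3072)) (c := (-1024)) (d := (-512)) (by norm_num) (by norm_num) (by norm_num) (by norm_num)
    (CovZ.topM TW_LL 0 (by decide +kernel) (CovZ.badM (by decide +kernel)))
    (CovZ.topM TW_LL 0 (by decide +kernel) (CovZ.badM (by decide +kernel)))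

theorem TW_s3_9 : SqZ TW_M TW_L [0, 7, 4, 3] (-4608) (-5632) 512 3 9 :=
  SqZ.mk (a := (-3072)) (b := (-2560)) (c := (-1024)) (d := (-512)) (by norm_num) (by norm_num) (by norm_num) (by norm_num)
    (CovZ.topM TW_LL 0 (by decide +kernel) (CovZ.badM (by decide +kernel)))
    (CovZ.topM TW_LL 0 (by decide +kernel) (CovZ.badM (by decide +kernel)))

theorem TW_s4_9 : SqZ TW_M TW_L [0, 7, 4, 3] (-4608) (-5632) 512 4 9 :=
  SqZ.mk (a := (-2560)) (b := (-2048)) (c := (-1024)) (d := (-512)) (by norm_num) (by norm_num) (by norm_num) (by norm_num)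
    (CovZ.topM TW_LL 2 (by decide +kernel) (CovZ.n2 (-2304, -768) (by decide +kernel)
    (CovZ.n2 (-2048, -768) (by decide +kernel)
     (CovZ.n2 (-2176, -896) (by decide +kernel)
      (CovZ.n2 (-2176, -768) (by decide +kernel)
       (CovZ.n2 (-2112, -832) (by decide +kernel)
        (CovZ.n2 (-2176, -832) (by decide +kernel)
         (CovZ.n2 (-2144, -800) (by decide +kernel)
          (CovZ.leaf K2_ok TW_l3374 _)
          (CovZ.badM (by decide +kernel)))
         (CovZ.n1 (-2144, -864) (by decide +kernel)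
          (CovZ.badM (by decide +kernel))
          (CovZ.n1 (-2144, -832) (by decide +kernel)
           (CovZ.leaf K2_ok TW_l3375 _)
           (CovZ.badM (by decide +kernel)))))
        (CovZ.n1 (-2112, -768) (by decide +kernel)
         (CovZ.n2 (-2080, -800) (by decide +kernel)
          (CovZ.leaf K2_ok TW_l3376 _)
          (CovZ.leaf K2_ok TW_l3377 _))
         (CovZ.n1 (-2144, -800) (by decide +kernel)
          (CovZ.badM (by decide +kernel))
          (CovZ.n1 (-2112, -800) (by decide +kernel)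
           (CovZ.leaf K2_ok TW_l3378 _)
           (CovZ.badM (by decide +kernel))))))
       (CovZ.badM (by decide +kernel)))
      (CovZ.n1 (-2048, -896) (by decide +kernel)
       (CovZ.n2 (-2112, -960) (by decide +kernel)
        (CovZ.n2 (-2112, -896) (by decide +kernel)
         (CovZ.leaf K2_ok TW_l3379 _)
         (CovZ.n1 (-2144, -928) (by decide +kernel)
          (CovZ.leaf K2_ok TW_l3380 _)
          (CovZ.leaf K2_ok TW_l3381 _)))
        (CovZ.leaf K2_ok TW_l3382 _))
       (CovZ.n1 (-2112, -832) (by decide +kernel)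
        (CovZ.n2 (-2048, -832) (by decide +kernel)
         (CovZ.n2 (-2080, -864) (by decide +kernel)
          (CovZ.leaf K2_ok TW_l3383 _)
          (CovZ.leaf K2_ok TW_l3384 _))
         (CovZ.n1 (-2080, -800) (by decide +kernel)
          (CovZ.leaf K2_ok TW_l3385 _)
          (CovZ.leaf K2_ok TW_l3386 _)))
        (CovZ.n1 (-2112, -896) (by decide +kernel)
         (CovZ.n2 (-2144, -864) (by decide +kernel)
          (CovZ.leaf K2_ok TW_l3387 _)
          (CovZ.leaf K2_ok TW_l3388 _))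
         (CovZ.leaf K2_ok TW_l3389 _)))))
     (CovZ.n1 (-2176, -640) (by decide +kernel)
      (CovZ.n2 (-2048, -640) (by decide +kernel)
       (CovZ.n2 (-2112, -704) (by decide +kernel)
        (CovZ.badM (by decide +kernel))
        (CovZ.n1 (-2048, -704) (by decide +kernel)
         (CovZ.n2 (-2080, -736) (by decide +kernel)
          (CovZ.badM (by decide +kernel))
          (CovZ.n1 (-2048, -736) (by decide +kernel)
           (CovZ.leaf K2_ok TW_l3390 _)
           (CovZ.leaf K2_ok TW_l3391 _)))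
         (CovZ.badM (by decide +kernel))))
       (CovZ.badM (by decide +kernel)))
      (CovZ.n1 (-2176, -768) (by decide +kernel)
       (CovZ.badM (by decide +kernel))
       (CovZ.n1 (-2112, -704) (by decide +kernel)
        (CovZ.n2 (-2112, -768) (by decide +kernel)
         (CovZ.badM (by decide +kernel))
         (CovZ.n1 (-2080, -736) (by decide +kernel)
          (CovZ.leaf K2_ok TW_l3392 _)
          (CovZ.badM (by decide +kernel))))
        (CovZ.badM (by decide +kernel))))))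
    (CovZ.n1 (-2304, -1024) (by decide +kernel)
     (CovZ.badM (by decide +kernel))
     (CovZ.n1 (-2176, -896) (by decide +kernel)
      (CovZ.n2 (-2176, -1024) (by decide +kernel)
       (CovZ.n2 (-2240, -960) (by decide +kernel)
        (CovZ.n2 (-2176, -960) (by decide +kernel)
         (CovZ.n2 (-2208, -992) (by decide +kernel)
          (CovZ.leaf K2_ok TW_l3393 _)
          (CovZ.leaf K2_ok TW_l3394 _))
         (CovZ.n1 (-2208, -928) (by decide +kernel)
          (CovZ.n2 (-2176, -928) (by decide +kernel)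
           (CovZ.leaf K2_ok TW_l3395 _)
           (CovZ.leaf K2_ok TW_l3396 _))
          (CovZ.leaf K2_ok TW_l3397 _)))
        (CovZ.n1 (-2240, -1024) (by decide +kernel)
         (CovZ.n2 (-2272, -992) (by decide +kernel)
          (CovZ.n2 (-2240, -992) (by decide +kernel)
           (CovZ.leaf K2_ok TW_l3398 _)
           (CovZ.badM (by decide +kernel)))
          (CovZ.leaf K2_ok TW_l3399 _))
         (CovZ.leaf K2_ok TW_l3400 _)))
       (CovZ.n1 (-2112, -960) (by decide +kernel)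
        (CovZ.leaf K2_ok TW_l3401 _)
        (CovZ.n1 (-2176, -960) (by decide +kernel)
         (CovZ.leaf K2_ok TW_l3402 _)
         (CovZ.leaf K2_ok TW_l3403 _))))
      (CovZ.badM (by decide +kernel))))))
    (CovZ.topM TW_LL 0 (by decide +kernel) (CovZ.badM (by decide +kernel)))

theorem TW_s5_9 : SqZ TW_M TW_L [0, 7, 4, 3] (-4608) (-5632) 512 5 9 :=
  SqZ.mk (a := (-2048)) (b := (-1536)) (c := (-1024)) (d := (-512)) (by norm_num) (by norm_num) (by norm_num) (by norm_num)
    (CovZ.topM TW_LL 2 (by decide +kernel) (CovZ.n2 (-1792, -768) (by decide +kernel)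
    (CovZ.n2 (-1536, -768) (by decide +kernel)
     (CovZ.n2 (-1664, -896) (by decide +kernel)
      (CovZ.leaf K2_ok TW_l3563 _)
      (CovZ.leaf K2_ok TW_l3564 _))
     (CovZ.n1 (-1664, -640) (by decide +kernel)
      (CovZ.leaf K2_ok TW_l3565 _)
      (CovZ.leaf K2_ok TW_l3566 _)))
    (CovZ.n1 (-1792, -1024) (by decide +kernel)
     (CovZ.n2 (-1920, -896) (by decide +kernel)
      (CovZ.n2 (-1792, -896) (by decide +kernel)
       (CovZ.leaf K2_ok TW_l3567 _)
       (CovZ.leaf K2_ok TW_l3568 _))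
      (CovZ.leaf K2_ok TW_l3569 _))
     (CovZ.leaf K2_ok TW_l3570 _))))
    (CovZ.topM TW_LL 2 (by decide +kernel) (CovZ.n0 (-1792, -768) (by decide +kernel)
    (CovZ.n2 (-2048, -768) (by decide +kernel)
     (CovZ.n2 (-1920, -640) (by decide +kernel)
      (CovZ.n2 (-1920, -768) (by decide +kernel)
       (CovZ.n2 (-1984, -704) (by decide +kernel)
        (CovZ.leaf K2_ok TW_l3571 _)
        (CovZ.leaf K2_ok TW_l3572 _))
       (CovZ.leaf K2_ok TW_l3573 _))
      (CovZ.n1 (-2048, -640) (by decide +kernel)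
       (CovZ.n2 (-1984, -576) (by decide +kernel)
        (CovZ.n2 (-1984, -640) (by decide +kernel)
         (CovZ.badM (by decide +kernel))
         (CovZ.leaf K2_ok TW_l3574 _))
        (CovZ.badM (by decide +kernel)))
       (CovZ.n1 (-1984, -704) (by decide +kernel)
        (CovZ.n2 (-2048, -704) (by decide +kernel)
         (CovZ.leaf K2_ok TW_l3575 _)
         (CovZ.leaf K2_ok TW_l3576 _))
        (CovZ.n1 (-1984, -640) (by decide +kernel)
         (CovZ.leaf K2_ok TW_l3577 _)
         (CovZ.n1 (-2016, -672) (by decide +kernel)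
          (CovZ.badM (by decide +kernel))
          (CovZ.leaf K2_ok TW_l3578 _))))))
     (CovZ.n1 (-1920, -896) (by decide +kernel)
      (CovZ.n2 (-2048, -896) (by decide +kernel)
       (CovZ.leaf K2_ok TW_l3579 _)
       (CovZ.leaf K2_ok TW_l3580 _))
      (CovZ.n1 (-1920, -768) (by decide +kernel)
       (CovZ.leaf K2_ok TW_l3581 _)
       (CovZ.n1 (-1984, -832) (by decide +kernel)
        (CovZ.leaf K2_ok TW_l3582 _)
        (CovZ.leaf K2_ok TW_l3583 _)))))
    (CovZ.n1 (-1792, -512) (by decide +kernel)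
     (CovZ.n2 (-1664, -640) (by decide +kernel)
      (CovZ.leaf K2_ok TW_l3584 _)
      (CovZ.leaf K2_ok TW_l3585 _))
     (CovZ.n1 (-1920, -640) (by decide +kernel)
      (CovZ.n2 (-1920, -512) (by decide +kernel)
       (CovZ.n2 (-1856, -576) (by decide +kernel)
        (CovZ.leaf K2_ok TW_l3586 _)
        (CovZ.n1 (-1856, -512) (by decide +kernel)
         (CovZ.leaf K2_ok TW_l3587 _)
         (CovZ.leaf K2_ok TW_l3588 _)))
       (CovZ.n1 (-1984, -576) (by decide +kernel)
        (CovZ.badM (by decide +kernel))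
        (CovZ.n1 (-1920, -576) (by decide +kernel)
         (CovZ.n2 (-1952, -608) (by decide +kernel)
          (CovZ.leaf K2_ok TW_l3589 _)
          (CovZ.leaf K2_ok TW_l3590 _))
         (CovZ.n1 (-1952, -544) (by decide +kernel)
          (CovZ.leaf K2_ok TW_l3591 _)
          (CovZ.leaf K2_ok TW_l3592 _)))))
      (CovZ.n1 (-1792, -640) (by decide +kernel)
       (CovZ.n2 (-1856, -704) (by decide +kernel)
        (CovZ.leaf K2_ok TW_l3593 _)
        (CovZ.leaf K2_ok TW_l3594 _))
       (CovZ.n1 (-1856, -576) (by decide +kernel)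
        (CovZ.leaf K2_ok TW_l3595 _)
        (CovZ.leaf K2_ok TW_l3596 _)))))))

theorem TW_s6_9 : SqZ TW_M TW_L [0, 7, 4, 3] (-4608) (-5632) 512 6 9 :=
  SqZ.mk (a := (-1536)) (b := (-1024)) (c := (-1024)) (d := (-512)) (by norm_num) (by norm_num) (by norm_num) (by norm_num)
    (CovZ.topM TW_LL 6 (by decide +kernel) (CovZ.n2 (-1280, -768) (by decide +kernel)
    (CovZ.n2 (-1024, -768) (by decide +kernel)
     (CovZ.leaf K2_ok TW_l1925 _)
     (CovZ.leaf K2_ok TW_l3741 _))
    (CovZ.n1 (-1280, -1024) (by decide +kernel)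
     (CovZ.leaf K2_ok TW_l1926 _)
     (CovZ.leaf K2_ok TW_l1927 _))))
    (CovZ.topM TW_LL 2 (by decide +kernel) (CovZ.n0 (-1280, -768) (by decide +kernel)
    (CovZ.leaf K2_ok TW_l3742 _)
    (CovZ.n1 (-1280, -512) (by decide +kernel)
     (CovZ.leaf K2_ok TW_l3743 _)
     (CovZ.n1 (-1408, -640) (by decide +kernel)
      (CovZ.leaf K2_ok TW_l3744 _)
      (CovZ.leaf K2_ok TW_l3745 _)))))

theorem TW_s7_9 : SqZ TW_M TW_L [0, 7, 4, 3] (-4608) (-5632) 512 7 9 :=
  SqZ.mk (a := (-1024)) (b := (-512)) (c := (-1024)) (d := (-512)) (by norm_num) (by norm_num) (by norm_num) (by norm_num)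
    (CovZ.topM TW_LL 6 (by decide +kernel) (CovZ.n2 (-768, -768) (by decide +kernel)
    (CovZ.leaf K2_ok TW_l2239 _)
    (CovZ.leaf K2_ok TW_l2240 _)))
    (CovZ.topM TW_LL 6 (by decide +kernel) (CovZ.n0 (-768, -768) (by decide +kernel)
    (CovZ.leaf K2_ok TW_l2241 _)
    (CovZ.leaf K2_ok TW_l2242 _)))

theorem TW_s8_9 : SqZ TW_M TW_L [0, 7, 4, 3] (-4608) (-5632) 512 8 9 :=
  SqZ.mk (a := (-512)) (b := 0) (c := (-1024)) (d := (-512)) (by norm_num) (by norm_num) (by norm_num) (by norm_num)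
    (CovZ.topM TW_LL 7 (by decide +kernel) (CovZ.n2 (-256, -768) (by decide +kernel)
    (CovZ.n2 (0, -768) (by decide +kernel)
     (CovZ.n2 (-128, -896) (by decide +kernel)
      (CovZ.leaf K2_ok TW_l2474 _)
      (CovZ.leaf K2_ok TW_l2475 _))
     (CovZ.leaf K2_ok TW_l2476 _))
    (CovZ.n1 (-256, -1024) (by decide +kernel)
     (CovZ.leaf K2_ok TW_l2477 _)
     (CovZ.leaf K2_ok TW_l2478 _))))
    (CovZ.topM TW_LL 7 (by decide +kernel) (CovZ.n0 (-256, -768) (by decide +kernel)
    (CovZ.n2 (-512, -768) (by decide +kernel)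
     (CovZ.leaf K2_ok TW_l2479 _)
     (CovZ.leaf K2_ok TW_l2480 _))
    (CovZ.leaf K2_ok TW_l2481 _)))

theorem TW_s9_9 : SqZ TW_M TW_L [0, 7, 4, 3] (-4608) (-5632) 512 9 9 :=
  SqZ.mk (a := 0) (b := 512) (c := (-1024)) (d := (-512)) (by norm_num) (by norm_num) (by norm_num) (by norm_num)
    (CovZ.topM TW_LL 7 (by decide +kernel) (CovZ.n2 (256, -768) (by decide +kernel)
    (CovZ.n2 (512, -768) (by decide +kernel)
     (CovZ.n2 (384, -896) (by decide +kernel)
      (CovZ.leaf K2_ok TW_l2554 _)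
      (CovZ.leaf K2_ok TW_l2555 _))
     (CovZ.leaf K2_ok TW_l2556 _))
    (CovZ.n1 (256, -1024) (by decide +kernel)
     (CovZ.n2 (128, -896) (by decide +kernel)
      (CovZ.leaf K2_ok TW_l2557 _)
      (CovZ.leaf K2_ok TW_l2558 _))
     (CovZ.leaf K2_ok TW_l2559 _))))
    (CovZ.topM TW_LL 7 (by decide +kernel) (CovZ.n0 (256, -768) (by decide +kernel)
    (CovZ.n2 (0, -768) (by decide +kernel)
     (CovZ.leaf K2_ok TW_l2560 _)
     (CovZ.n1 (128, -896) (by decide +kernel)
      (CovZ.leaf K2_ok TW_l2561 _)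
      (CovZ.leaf K2_ok TW_l2562 _)))
    (CovZ.n1 (256, -512) (by decide +kernel)
     (CovZ.leaf K2_ok TW_l2563 _)
     (CovZ.n1 (128, -640) (by decide +kernel)
      (CovZ.leaf K2_ok TW_l2564 _)
      (CovZ.leaf K2_ok TW_l2565 _)))))

theorem TW_s10_9 : SqZ TW_M TW_L [0, 7, 4, 3] (-4608) (-5632) 512 10 9 :=
  SqZ.mk (a := 512) (b := 1024) (c := (-1024)) (d := (-512)) (by norm_num) (by norm_num) (by norm_num) (by norm_num)
    (CovZ.topM TW_LL 7 (by decide +kernel) (CovZ.n2 (768, -768) (by decide +kernel)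
    (CovZ.n2 (1024, -768) (by decide +kernel)
     (CovZ.n2 (896, -896) (by decide +kernel)
      (CovZ.leaf K2_ok TW_l2600 _)
      (CovZ.leaf K2_ok TW_l2601 _))
     (CovZ.n1 (896, -640) (by decide +kernel)
      (CovZ.leaf K2_ok TW_l2602 _)
      (CovZ.leaf K2_ok TW_l2603 _)))
    (CovZ.n1 (768, -1024) (by decide +kernel)
     (CovZ.n2 (640, -896) (by decide +kernel)
      (CovZ.leaf K2_ok TW_l2604 _)
      (CovZ.leaf K2_ok TW_l2605 _))
     (CovZ.leaf K2_ok TW_l2606 _))))
    (CovZ.topM TW_LL 7 (by decide +kernel) (CovZ.n0 (768, -768) (by decide +kernel)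
    (CovZ.n2 (512, -768) (by decide +kernel)
     (CovZ.leaf K2_ok TW_l2607 _)
     (CovZ.n1 (640, -896) (by decide +kernel)
      (CovZ.leaf K2_ok TW_l2608 _)
      (CovZ.leaf K2_ok TW_l2609 _)))
    (CovZ.n1 (768, -512) (by decide +kernel)
     (CovZ.n2 (896, -640) (by decide +kernel)
      (CovZ.leaf K2_ok TW_l2610 _)
      (CovZ.leaf K2_ok TW_l2611 _))
     (CovZ.n1 (640, -640) (by decide +kernel)
      (CovZ.leaf K2_ok TW_l2612 _)
      (CovZ.leaf K2_ok TW_l2613 _)))))

theorem TW_s11_9 : SqZ TW_M TW_L [0, 7, 4, 3] (-4608) (-5632) 512 11 9 :=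
  SqZ.mk (a := 1024) (b := 1536) (c := (-1024)) (d := (-512)) (by norm_num) (by norm_num) (by norm_num) (by norm_num)
    (CovZ.topM TW_LL 7 (by decide +kernel) (CovZ.n2 (1280, -768) (by decide +kernel)
    (CovZ.n2 (1536, -768) (by decide +kernel)
     (CovZ.n2 (1408, -896) (by decide +kernel)
      (CovZ.n2 (1408, -768) (by decide +kernel)
       (CovZ.leaf K2_ok TW_l2647 _)
       (CovZ.leaf K2_ok TW_l2648 _))
      (CovZ.n1 (1536, -896) (by decide +kernel)
       (CovZ.leaf K2_ok TW_l2649 _)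
       (CovZ.leaf K2_ok TW_l2650 _)))
     (CovZ.n1 (1408, -640) (by decide +kernel)
      (CovZ.leaf K2_ok TW_l2651 _)
      (CovZ.leaf K2_ok TW_l2652 _)))
    (CovZ.n1 (1280, -1024) (by decide +kernel)
     (CovZ.n2 (1152, -896) (by decide +kernel)
      (CovZ.leaf K2_ok TW_l2653 _)
      (CovZ.leaf K2_ok TW_l2654 _))
     (CovZ.leaf K2_ok TW_l2655 _))))
    (CovZ.topM TW_LL 7 (by decide +kernel) (CovZ.n0 (1280, -768) (by decide +kernel)
    (CovZ.n2 (1024, -768) (by decide +kernel)
     (CovZ.leaf K2_ok TW_l2656 _)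
     (CovZ.n1 (1152, -896) (by decide +kernel)
      (CovZ.leaf K2_ok TW_l2657 _)
      (CovZ.leaf K2_ok TW_l2658 _)))
    (CovZ.n1 (1280, -512) (by decide +kernel)
     (CovZ.n2 (1408, -640) (by decide +kernel)
      (CovZ.leaf K2_ok TW_l2659 _)
      (CovZ.leaf K2_ok TW_l2660 _))
     (CovZ.n1 (1152, -640) (by decide +kernel)
      (CovZ.leaf K2_ok TW_l2661 _)
      (CovZ.leaf K2_ok TW_l2662 _)))))

theorem TW_s12_9 : SqZ TW_M TW_L [0, 7, 4, 3] (-4608) (-5632) 512 12 9 :=
  SqZ.mk (a := 1536) (b := 2048) (c := (-1024)) (d := (-512)) (by norm_num) (by norm_num) (by norm_num) (by norm_num)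
    (CovZ.topM TW_LL 5 (by decide +kernel) (CovZ.n2 (1792, -768) (by decide +kernel)
    (CovZ.n2 (2048, -768) (by decide +kernel)
     (CovZ.n2 (1920, -896) (by decide +kernel)
      (CovZ.n2 (1920, -768) (by decide +kernel)
       (CovZ.leaf K2_ok TW_l2696 _)
       (CovZ.leaf K2_ok TW_l2697 _))
      (CovZ.n1 (2048, -896) (by decide +kernel)
       (CovZ.n2 (1984, -960) (by decide +kernel)
        (CovZ.leaf K2_ok TW_l4784 _)
        (CovZ.leaf K2_ok TW_l4785 _))
       (CovZ.leaf K2_ok TW_l2698 _)))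
     (CovZ.n1 (1920, -640) (by decide +kernel)
      (CovZ.leaf K2_ok TW_l2699 _)
      (CovZ.leaf K2_ok TW_l2700 _)))
    (CovZ.n1 (1792, -1024) (by decide +kernel)
     (CovZ.n2 (1664, -896) (by decide +kernel)
      (CovZ.n2 (1792, -896) (by decide +kernel)
       (CovZ.leaf K2_ok TW_l2701 _)
       (CovZ.leaf K2_ok TW_l2702 _))
      (CovZ.leaf K2_ok TW_l2703 _))
     (CovZ.n1 (1920, -896) (by decide +kernel)
      (CovZ.n2 (1920, -1024) (by decide +kernel)
       (CovZ.leaf K2_ok TW_l4786 _)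
       (CovZ.leaf K2_ok TW_l4787 _))
      (CovZ.leaf K2_ok TW_l2704 _)))))
    (CovZ.topM TW_LL 5 (by decide +kernel) (CovZ.n0 (1792, -768) (by decide +kernel)
    (CovZ.n2 (1536, -768) (by decide +kernel)
     (CovZ.leaf K2_ok TW_l2705 _)
     (CovZ.n1 (1664, -896) (by decide +kernel)
      (CovZ.leaf K2_ok TW_l2706 _)
      (CovZ.leaf K2_ok TW_l2707 _)))
    (CovZ.n1 (1792, -512) (by decide +kernel)
     (CovZ.n2 (1920, -640) (by decide +kernel)
      (CovZ.leaf K2_ok TW_l2708 _)
      (CovZ.leaf K2_ok TW_l2709 _))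
     (CovZ.n1 (1664, -640) (by decide +kernel)
      (CovZ.leaf K2_ok TW_l2710 _)
      (CovZ.leaf K2_ok TW_l2711 _)))))

theorem TW_s13_9 : SqZ TW_M TW_L [0, 7, 4, 3] (-4608) (-5632) 512 13 9 :=
  SqZ.mk (a := 2048) (b := 2560) (c := (-1024)) (d := (-512)) (by norm_num) (by norm_num) (by norm_num) (by norm_num)
    (CovZ.topM TW_LL 1 (by decide +kernel) (CovZ.n2 (2304, -768) (by decide +kernel)
    (CovZ.n2 (2560, -768) (by decide +kernel)
     (CovZ.n2 (2432, -896) (by decide +kernel)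
      (CovZ.n2 (2432, -768) (by decide +kernel)
       (CovZ.badM (by decide +kernel))
       (CovZ.n1 (2368, -832) (by decide +kernel)
        (CovZ.leaf K2_ok TW_l4812 _)
        (CovZ.badM (by decide +kernel))))
      (CovZ.badM (by decide +kernel)))
     (CovZ.n1 (2432, -640) (by decide +kernel)
      (CovZ.n2 (2560, -640) (by decide +kernel)
       (CovZ.n2 (2496, -704) (by decide +kernel)
        (CovZ.leaf K2_ok TW_l4813 _)
        (CovZ.badM (by decide +kernel)))
       (CovZ.leaf K2_ok TW_l4814 _))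
      (CovZ.n1 (2432, -768) (by decide +kernel)
       (CovZ.n2 (2368, -704) (by decide +kernel)
        (CovZ.leaf K2_ok TW_l4815 _)
        (CovZ.leaf K2_ok TW_l4816 _))
       (CovZ.n1 (2496, -704) (by decide +kernel)
        (CovZ.badM (by decide +kernel))
        (CovZ.leaf K2_ok TW_l4817 _)))))
    (CovZ.n1 (2304, -1024) (by decide +kernel)
     (CovZ.n2 (2176, -896) (by decide +kernel)
      (CovZ.n2 (2304, -896) (by decide +kernel)
       (CovZ.n2 (2240, -960) (by decide +kernel)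
        (CovZ.n2 (2240, -896) (by decide +kernel)
         (CovZ.badM (by decide +kernel))
         (CovZ.leaf K2_ok TW_l4818 _))
        (CovZ.badM (by decide +kernel)))
       (CovZ.n1 (2240, -832) (by decide +kernel)
        (CovZ.leaf K2_ok TW_l4819 _)
        (CovZ.leaf K2_ok TW_l4820 _)))
      (CovZ.n1 (2176, -1024) (by decide +kernel)
       (CovZ.n2 (2112, -960) (by decide +kernel)
        (CovZ.n2 (2176, -960) (by decide +kernel)
         (CovZ.leaf K2_ok TW_l4821 _)
         (CovZ.leaf K2_ok TW_l4822 _))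
        (CovZ.leaf K2_ok TW_l4823 _))
       (CovZ.n1 (2240, -960) (by decide +kernel)
        (CovZ.badM (by decide +kernel))
        (CovZ.leaf K2_ok TW_l4824 _))))
     (CovZ.n1 (2432, -896) (by decide +kernel)
      (CovZ.badM (by decide +kernel))
      (CovZ.n1 (2304, -896) (by decide +kernel)
       (CovZ.n2 (2368, -832) (by decide +kernel)
        (CovZ.badM (by decide +kernel))
        (CovZ.leaf K2_ok TW_l4825 _))
       (CovZ.badM (by decide +kernel)))))))
    (CovZ.topM TW_LL 5 (by decide +kernel) (CovZ.n0 (2304, -768) (by decide +kernel)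
    (CovZ.n2 (2048, -768) (by decide +kernel)
     (CovZ.n2 (2176, -640) (by decide +kernel)
      (CovZ.n2 (2176, -768) (by decide +kernel)
       (CovZ.leaf K2_ok TW_l2759 _)
       (CovZ.leaf K2_ok TW_l2760 _))
      (CovZ.leaf K2_ok TW_l2761 _))
     (CovZ.n1 (2176, -896) (by decide +kernel)
      (CovZ.n2 (2048, -896) (by decide +kernel)
       (CovZ.leaf K2_ok TW_l2762 _)
       (CovZ.n1 (2112, -960) (by decide +kernel)
        (CovZ.leaf K2_ok TW_l4826 _)
        (CovZ.leaf K2_ok TW_l4827 _)))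
      (CovZ.n1 (2176, -768) (by decide +kernel)
       (CovZ.n2 (2240, -832) (by decide +kernel)
        (CovZ.leaf K2_ok TW_l4828 _)
        (CovZ.leaf K2_ok TW_l4829 _))
       (CovZ.n1 (2112, -832) (by decide +kernel)
        (CovZ.leaf K2_ok TW_l2763 _)
        (CovZ.leaf K2_ok TW_l4830 _)))))
    (CovZ.n1 (2304, -512) (by decide +kernel)
     (CovZ.n2 (2432, -640) (by decide +kernel)
      (CovZ.n2 (2304, -640) (by decide +kernel)
       (CovZ.leaf K2_ok TW_l2764 _)
       (CovZ.n1 (2368, -704) (by decide +kernel)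
        (CovZ.leaf K2_ok TW_l4831 _)
        (CovZ.leaf K2_ok TW_l4832 _)))
      (CovZ.n1 (2432, -512) (by decide +kernel)
       (CovZ.leaf K2_ok TW_l2765 _)
       (CovZ.leaf K2_ok TW_l2766 _)))
     (CovZ.n1 (2176, -640) (by decide +kernel)
      (CovZ.n2 (2176, -512) (by decide +kernel)
       (CovZ.leaf K2_ok TW_l2767 _)
       (CovZ.leaf K2_ok TW_l2768 _))
      (CovZ.n1 (2304, -640) (by decide +kernel)
       (CovZ.n2 (2240, -704) (by decide +kernel)
        (CovZ.leaf K2_ok TW_l2769 _)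
        (CovZ.leaf K2_ok TW_l4833 _))
       (CovZ.leaf K2_ok TW_l2770 _))))))

theorem TW_s14_9 : SqZ TW_M TW_L [0, 7, 4, 3] (-4608) (-5632) 512 14 9 :=
  SqZ.mk (a := 2560) (b := 3072) (c := (-1024)) (d := (-512)) (by norm_num) (by norm_num) (by norm_num) (by norm_num)
    (CovZ.topM TW_LL 0 (by decide +kernel) (CovZ.badM (by decide +kernel)))
    (CovZ.topM TW_LL 1 (by decide +kernel) (CovZ.n0 (2816, -768) (by decide +kernel)
    (CovZ.n2 (2560, -768) (by decide +kernel)
     (CovZ.n2 (2688, -640) (by decide +kernel)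
      (CovZ.badM (by decide +kernel))
      (CovZ.n1 (2560, -640) (by decide +kernel)
       (CovZ.leaf K2_ok TW_l4897 _)
       (CovZ.badM (by decide +kernel))))
     (CovZ.badM (by decide +kernel)))
    (CovZ.n1 (2816, -512) (by decide +kernel)
     (CovZ.badM (by decide +kernel))
     (CovZ.n1 (2688, -640) (by decide +kernel)
      (CovZ.n2 (2688, -512) (by decide +kernel)
       (CovZ.badM (by decide +kernel))
       (CovZ.n1 (2624, -576) (by decide +kernel)
        (CovZ.leaf K2_ok TW_l4898 _)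
        (CovZ.badM (by decide +kernel))))
      (CovZ.badM (by decide +kernel))))))

theorem TW_s15_9 : SqZ TW_M TW_L [0, 7, 4, 3] (-4608) (-5632) 512 15 9 :=
  SqZ.mk (a := 3072) (b := 3584) (c := (-1024)) (d := (-512)) (by norm_num) (by norm_num) (by norm_num) (by norm_num)
    (CovZ.topM TW_LL 0 (by decide +kernel) (CovZ.badM (by decide +kernel)))
    (CovZ.topM TW_LL 0 (by decide +kernel) (CovZ.badM (by decide +kernel)))

theorem TW_s16_9 : SqZ TW_M TW_L [0, 7, 4, 3] (-4608) (-5632) 512 16 9 :=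
  SqZ.mk (a := 3584) (b := 4096) (c := (-1024)) (d := (-512)) (by norm_num) (by norm_num) (by norm_num) (by norm_num)
    (CovZ.topM TW_LL 0 (by decide +kernel) (CovZ.badM (by decide +kernel)))
    (CovZ.topM TW_LL 0 (by decide +kernel) (CovZ.badM (by decide +kernel)))

theorem TW_s0_10 : SqZ TW_M TW_L [0, 7, 4, 3] (-4608) (-5632) 512 0 10 :=
  SqZ.mk (a := (-4608)) (b := (-4096)) (c := (-512)) (d := 0) (by norm_num) (by norm_num) (by norm_num) (by norm_num)
    (CovZ.topM TW_LL 0 (by decide +kernel) (CovZ.badM (by decide +kernel)))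
    (CovZ.topM TW_LL 0 (by decide +kernel) (CovZ.badM (by decide +kernel)))

theorem TW_s1_10 : SqZ TW_M TW_L [0, 7, 4, 3] (-4608) (-5632) 512 1 10 :=
  SqZ.mk (a := (-4096)) (b := (-3584)) (c := (-512)) (d := 0) (by norm_num) (by norm_num) (by norm_num) (by norm_num)
    (CovZ.topM TW_LL 0 (by decide +kernel) (CovZ.badM (by decide +kernel)))
    (CovZ.topM TW_LL 0 (by decide +kernel) (CovZ.badM (by decide +kernel)))

theorem TW_s2_10 : SqZ TW_M TW_L [0, 7, 4, 3] (-4608) (-5632) 512 2 10 :=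
  SqZ.mk (a := (-3584)) (b := (-3072)) (c := (-512)) (d := 0) (by norm_num) (by norm_num) (by norm_num) (by norm_num)
    (CovZ.topM TW_LL 0 (by decide +kernel) (CovZ.badM (by decide +kernel)))
    (CovZ.topM TW_LL 0 (by decide +kernel) (CovZ.badM (by decide +kernel)))

theorem TW_s3_10 : SqZ TW_M TW_L [0, 7, 4, 3] (-4608) (-5632) 512 3 10 :=
  SqZ.mk (a := (-3072)) (b := (-2560)) (c := (-512)) (d := 0) (by norm_num) (by norm_num) (by norm_num) (by norm_num)
    (CovZ.topM TW_LL 0 (by decide +kernel) (CovZ.badM (by decide +kernel)))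
    (CovZ.topM TW_LL 0 (by decide +kernel) (CovZ.badM (by decide +kernel)))

theorem TW_s4_10 : SqZ TW_M TW_L [0, 7, 4, 3] (-4608) (-5632) 512 4 10 :=
  SqZ.mk (a := (-2560)) (b := (-2048)) (c := (-512)) (d := 0) (by norm_num) (by norm_num) (by norm_num) (by norm_num)
    (CovZ.topM TW_LL 0 (by decide +kernel) (CovZ.badM (by decide +kernel)))
    (CovZ.topM TW_LL 0 (by decide +kernel) (CovZ.badM (by decide +kernel)))

theorem TW_s5_10 : SqZ TW_M TW_L [0, 7, 4, 3] (-4608) (-5632) 512 5 10 :=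
  SqZ.mk (a := (-2048)) (b := (-1536)) (c := (-512)) (d := 0) (by norm_num) (by norm_num) (by norm_num) (by norm_num)
    (CovZ.topM TW_LL 2 (by decide +kernel) (CovZ.n2 (-1792, -256) (by decide +kernel)
    (CovZ.n2 (-1536, -256) (by decide +kernel)
     (CovZ.n2 (-1664, -384) (by decide +kernel)
      (CovZ.n2 (-1664, -256) (by decide +kernel)
       (CovZ.leaf K2_ok TW_l3597 _)
       (CovZ.n1 (-1728, -320) (by decide +kernel)
        (CovZ.n2 (-1728, -256) (by decide +kernel)
         (CovZ.leaf K2_ok TW_l3598 _)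
         (CovZ.n1 (-1760, -288) (by decide +kernel)
          (CovZ.badM (by decide +kernel))
          (CovZ.leaf K2_ok TW_l3599 _)))
        (CovZ.leaf K2_ok TW_l3600 _)))
      (CovZ.n1 (-1536, -384) (by decide +kernel)
       (CovZ.leaf K2_ok TW_l3601 _)
       (CovZ.leaf K2_ok TW_l3602 _)))
     (CovZ.n1 (-1664, -128) (by decide +kernel)
      (CovZ.n2 (-1536, -128) (by decide +kernel)
       (CovZ.n2 (-1600, -192) (by decide +kernel)
        (CovZ.leaf K2_ok TW_l3603 _)
        (CovZ.leaf K2_ok TW_l3604 _))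
       (CovZ.n1 (-1600, -64) (by decide +kernel)
        (CovZ.leaf K2_ok TW_l3605 _)
        (CovZ.leaf K2_ok TW_l3606 _)))
      (CovZ.n1 (-1664, -256) (by decide +kernel)
       (CovZ.n2 (-1728, -192) (by decide +kernel)
        (CovZ.n2 (-1664, -192) (by decide +kernel)
         (CovZ.leaf K2_ok TW_l3607 _)
         (CovZ.leaf K2_ok TW_l3608 _))
        (CovZ.n1 (-1728, -256) (by decide +kernel)
         (CovZ.badM (by decide +kernel))
         (CovZ.leaf K2_ok TW_l3609 _)))
       (CovZ.leaf K2_ok TW_l3610 _))))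
    (CovZ.n1 (-1792, -512) (by decide +kernel)
     (CovZ.n2 (-1920, -384) (by decide +kernel)
      (CovZ.n2 (-1792, -384) (by decide +kernel)
       (CovZ.n2 (-1856, -448) (by decide +kernel)
        (CovZ.n2 (-1856, -384) (by decide +kernel)
         (CovZ.leaf K2_ok TW_l3611 _)
         (CovZ.badM (by decide +kernel)))
        (CovZ.n1 (-1792, -448) (by decide +kernel)
         (CovZ.leaf K2_ok TW_l3612 _)
         (CovZ.leaf K2_ok TW_l3613 _)))
       (CovZ.n1 (-1856, -320) (by decide +kernel)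
        (CovZ.n2 (-1792, -320) (by decide +kernel)
         (CovZ.n2 (-1824, -352) (by decide +kernel)
          (CovZ.badM (by decide +kernel))
          (CovZ.leaf K2_ok TW_l3614 _))
         (CovZ.badM (by decide +kernel)))
        (CovZ.n1 (-1856, -384) (by decide +kernel)
         (CovZ.badM (by decide +kernel))
         (CovZ.leaf K2_ok TW_l3615 _))))
      (CovZ.n1 (-1920, -512) (by decide +kernel)
       (CovZ.badM (by decide +kernel))
       (CovZ.n1 (-1856, -448) (by decide +kernel)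
        (CovZ.leaf K2_ok TW_l3616 _)
        (CovZ.badM (by decide +kernel)))))
     (CovZ.n1 (-1664, -384) (by decide +kernel)
      (CovZ.leaf K2_ok TW_l3617 _)
      (CovZ.n1 (-1792, -384) (by decide +kernel)
       (CovZ.n2 (-1728, -320) (by decide +kernel)
        (CovZ.leaf K2_ok TW_l3618 _)
        (CovZ.leaf K2_ok TW_l3619 _))
       (CovZ.leaf K2_ok TW_l3620 _))))))
    (CovZ.topM TW_LL 2 (by decide +kernel) (CovZ.n0 (-1792, -256) (by decide +kernel)
    (CovZ.badM (by decide +kernel))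
    (CovZ.n1 (-1792, 0) (by decide +kernel)
     (CovZ.n2 (-1664, -128) (by decide +kernel)
      (CovZ.badM (by decide +kernel))
      (CovZ.n1 (-1664, 0) (by decide +kernel)
       (CovZ.n2 (-1600, -64) (by decide +kernel)
        (CovZ.badM (by decide +kernel))
        (CovZ.n1 (-1600, 0) (by decide +kernel)
         (CovZ.leaf K2_ok TW_l3621 _)
         (CovZ.badM (by decide +kernel))))
       (CovZ.badM (by decide +kernel))))
     (CovZ.badM (by decide +kernel)))))

theorem TW_s6_10 : SqZ TW_M TW_L [0, 7, 4, 3] (-4608) (-5632) 512 6 10 :=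
  SqZ.mk (a := (-1536)) (b := (-1024)) (c := (-512)) (d := 0) (by norm_num) (by norm_num) (by norm_num) (by norm_num)
    (CovZ.topM TW_LL 2 (by decide +kernel) (CovZ.n2 (-1280, -256) (by decide +kernel)
    (CovZ.n2 (-1024, -256) (by decide +kernel)
     (CovZ.leaf K2_ok TW_l3746 _)
     (CovZ.leaf K2_ok TW_l3747 _))
    (CovZ.n1 (-1280, -512) (by decide +kernel)
     (CovZ.leaf K2_ok TW_l3748 _)
     (CovZ.leaf K2_ok TW_l3749 _))))
    (CovZ.topM TW_LL 2 (by decide +kernel) (CovZ.n0 (-1280, -256) (by decide +kernel)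
    (CovZ.n2 (-1536, -256) (by decide +kernel)
     (CovZ.leaf K2_ok TW_l3750 _)
     (CovZ.leaf K2_ok TW_l3751 _))
    (CovZ.n1 (-1280, 0) (by decide +kernel)
     (CovZ.leaf K2_ok TW_l3752 _)
     (CovZ.n1 (-1408, -128) (by decide +kernel)
      (CovZ.n2 (-1408, 0) (by decide +kernel)
       (CovZ.leaf K2_ok TW_l3753 _)
       (CovZ.n1 (-1472, -64) (by decide +kernel)
        (CovZ.leaf K2_ok TW_l3754 _)
        (CovZ.leaf K2_ok TW_l3755 _)))
      (CovZ.leaf K2_ok TW_l3756 _)))))

theorem TW_s7_10 : SqZ TW_M TW_L [0, 7, 4, 3] (-4608) (-5632) 512 7 10 :=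
  SqZ.mk (a := (-1024)) (b := (-512)) (c := (-512)) (d := 0) (by norm_num) (by norm_num) (by norm_num) (by norm_num)
    (CovZ.topM TW_LL 7 (by decide +kernel) (CovZ.n2 (-768, -256) (by decide +kernel)
    (CovZ.leaf K2_ok TW_l2243 _)
    (CovZ.leaf K2_ok TW_l2244 _)))
    (CovZ.topM TW_LL 7 (by decide +kernel) (CovZ.n0 (-768, -256) (by decide +kernel)
    (CovZ.leaf K2_ok TW_l3873 _)
    (CovZ.n1 (-768, 0) (by decide +kernel)
     (CovZ.leaf K2_ok TW_l3874 _)
     (CovZ.leaf K2_ok TW_l3875 _))))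

theorem TW_s8_10 : SqZ TW_M TW_L [0, 7, 4, 3] (-4608) (-5632) 512 8 10 :=
  SqZ.mk (a := (-512)) (b := 0) (c := (-512)) (d := 0) (by norm_num) (by norm_num) (by norm_num) (by norm_num)
    (CovZ.topM TW_LL 7 (by decide +kernel) (CovZ.n2 (-256, -256) (by decide +kernel)
    (CovZ.n2 (0, -256) (by decide +kernel)
     (CovZ.leaf K2_ok TW_l2482 _)
     (CovZ.leaf K2_ok TW_l2483 _))
    (CovZ.leaf K2_ok TW_l2484 _)))
    (CovZ.topM TW_LL 7 (by decide +kernel) (CovZ.n0 (-256, -256) (by decide +kernel)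
    (CovZ.leaf K2_ok TW_l2485 _)
    (CovZ.n1 (-256, 0) (by decide +kernel)
     (CovZ.leaf K2_ok TW_l3931 _)
     (CovZ.leaf K2_ok TW_l3932 _))))

theorem TW_s9_10 : SqZ TW_M TW_L [0, 7, 4, 3] (-4608) (-5632) 512 9 10 :=
  SqZ.mk (a := 0) (b := 512) (c := (-512)) (d := 0) (by norm_num) (by norm_num) (by norm_num) (by norm_num)
    (CovZ.topM TW_LL 7 (by decide +kernel) (CovZ.n2 (256, -256) (by decide +kernel)
    (CovZ.n2 (512, -256) (by decide +kernel)
     (CovZ.leaf K2_ok TW_l2566 _)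
     (CovZ.leaf K2_ok TW_l2567 _))
    (CovZ.leaf K2_ok TW_l2568 _)))
    (CovZ.topM TW_LL 7 (by decide +kernel) (CovZ.n0 (256, -256) (by decide +kernel)
    (CovZ.n2 (0, -256) (by decide +kernel)
     (CovZ.leaf K2_ok TW_l2569 _)
     (CovZ.leaf K2_ok TW_l2570 _))
    (CovZ.leaf K2_ok TW_l2571 _)))

theorem TW_s10_10 : SqZ TW_M TW_L [0, 7, 4, 3] (-4608) (-5632) 512 10 10 :=
  SqZ.mk (a := 512) (b := 1024) (c := (-512)) (d := 0) (by norm_num) (by norm_num) (by norm_num) (by norm_num)
    (CovZ.topM TW_LL 7 (by decide +kernel) (CovZ.n2 (768, -256) (by decide +kernel)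
    (CovZ.n2 (1024, -256) (by decide +kernel)
     (CovZ.n2 (896, -384) (by decide +kernel)
      (CovZ.leaf K2_ok TW_l2614 _)
      (CovZ.leaf K2_ok TW_l2615 _))
     (CovZ.leaf K2_ok TW_l2616 _))
    (CovZ.n1 (768, -512) (by decide +kernel)
     (CovZ.leaf K2_ok TW_l2617 _)
     (CovZ.leaf K2_ok TW_l2618 _))))
    (CovZ.topM TW_LL 7 (by decide +kernel) (CovZ.n0 (768, -256) (by decide +kernel)
    (CovZ.n2 (512, -256) (by decide +kernel)
     (CovZ.leaf K2_ok TW_l2619 _)
     (CovZ.leaf K2_ok TW_l2620 _))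
    (CovZ.n1 (768, 0) (by decide +kernel)
     (CovZ.leaf K2_ok TW_l2621 _)
     (CovZ.leaf K2_ok TW_l2622 _))))

theorem TW_s11_10 : SqZ TW_M TW_L [0, 7, 4, 3] (-4608) (-5632) 512 11 10 :=
  SqZ.mk (a := 1024) (b := 1536) (c := (-512)) (d := 0) (by norm_num) (by norm_num) (by norm_num) (by norm_num)
    (CovZ.topM TW_LL 7 (by decide +kernel) (CovZ.n2 (1280, -256) (by decide +kernel)
    (CovZ.n2 (1536, -256) (by decide +kernel)
     (CovZ.n2 (1408, -384) (by decide +kernel)
      (CovZ.leaf K2_ok TW_l2663 _)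
      (CovZ.leaf K2_ok TW_l2664 _))
     (CovZ.leaf K2_ok TW_l2665 _))
    (CovZ.n1 (1280, -512) (by decide +kernel)
     (CovZ.leaf K2_ok TW_l2666 _)
     (CovZ.leaf K2_ok TW_l2667 _))))
    (CovZ.topM TW_LL 7 (by decide +kernel) (CovZ.n0 (1280, -256) (by decide +kernel)
    (CovZ.n2 (1024, -256) (by decide +kernel)
     (CovZ.leaf K2_ok TW_l2668 _)
     (CovZ.leaf K2_ok TW_l2669 _))
    (CovZ.n1 (1280, 0) (by decide +kernel)
     (CovZ.leaf K2_ok TW_l2670 _)
     (CovZ.leaf K2_ok TW_l2671 _))))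

theorem TW_s12_10 : SqZ TW_M TW_L [0, 7, 4, 3] (-4608) (-5632) 512 12 10 :=
  SqZ.mk (a := 1536) (b := 2048) (c := (-512)) (d := 0) (by norm_num) (by norm_num) (by norm_num) (by norm_num)
    (CovZ.topM TW_LL 5 (by decide +kernel) (CovZ.n2 (1792, -256) (by decide +kernel)
    (CovZ.n2 (2048, -256) (by decide +kernel)
     (CovZ.n2 (1920, -384) (by decide +kernel)
      (CovZ.leaf K2_ok TW_l2712 _)
      (CovZ.leaf K2_ok TW_l2713 _))
     (CovZ.leaf K2_ok TW_l2714 _))
    (CovZ.n1 (1792, -512) (by decide +kernel)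
     (CovZ.n2 (1664, -384) (by decide +kernel)
      (CovZ.leaf K2_ok TW_l2715 _)
      (CovZ.leaf K2_ok TW_l2716 _))
     (CovZ.leaf K2_ok TW_l2717 _))))
    (CovZ.topM TW_LL 5 (by decide +kernel) (CovZ.n0 (1792, -256) (by decide +kernel)
    (CovZ.n2 (1536, -256) (by decide +kernel)
     (CovZ.leaf K2_ok TW_l2718 _)
     (CovZ.n1 (1664, -384) (by decide +kernel)
      (CovZ.leaf K2_ok TW_l2719 _)
      (CovZ.leaf K2_ok TW_l2720 _)))
    (CovZ.n1 (1792, 0) (by decide +kernel)
     (CovZ.n2 (1920, -128) (by decide +kernel)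
      (CovZ.leaf K2_ok TW_l2721 _)
      (CovZ.leaf K2_ok TW_l2722 _))
     (CovZ.n1 (1664, -128) (by decide +kernel)
      (CovZ.leaf K2_ok TW_l2723 _)
      (CovZ.leaf K2_ok TW_l2724 _)))))

theorem TW_s13_10 : SqZ TW_M TW_L [0, 7, 4, 3] (-4608) (-5632) 512 13 10 :=
  SqZ.mk (a := 2048) (b := 2560) (c := (-512)) (d := 0) (by norm_num) (by norm_num) (by norm_num) (by norm_num)
    (CovZ.topM TW_LL 5 (by decide +kernel) (CovZ.n2 (2304, -256) (by decide +kernel)
    (CovZ.n2 (2560, -256) (by decide +kernel)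
     (CovZ.n2 (2432, -384) (by decide +kernel)
      (CovZ.leaf K2_ok TW_l4834 _)
      (CovZ.n1 (2560, -384) (by decide +kernel)
       (CovZ.leaf K2_ok TW_l4835 _)
       (CovZ.leaf K2_ok TW_l4836 _)))
     (CovZ.n1 (2432, -128) (by decide +kernel)
      (CovZ.leaf K2_ok TW_l4837 _)
      (CovZ.leaf K2_ok TW_l4838 _)))
    (CovZ.n1 (2304, -512) (by decide +kernel)
     (CovZ.n2 (2176, -384) (by decide +kernel)
      (CovZ.leaf K2_ok TW_l2771 _)
      (CovZ.leaf K2_ok TW_l2772 _))
     (CovZ.n1 (2432, -384) (by decide +kernel)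
      (CovZ.leaf K2_ok TW_l2773 _)
      (CovZ.leaf K2_ok TW_l2774 _)))))
    (CovZ.topM TW_LL 5 (by decide +kernel) (CovZ.n0 (2304, -256) (by decide +kernel)
    (CovZ.n2 (2048, -256) (by decide +kernel)
     (CovZ.leaf K2_ok TW_l2775 _)
     (CovZ.n1 (2176, -384) (by decide +kernel)
      (CovZ.leaf K2_ok TW_l2776 _)
      (CovZ.leaf K2_ok TW_l2777 _)))
    (CovZ.n1 (2304, 0) (by decide +kernel)
     (CovZ.n2 (2432, -128) (by decide +kernel)
      (CovZ.leaf K2_ok TW_l4839 _)
      (CovZ.leaf K2_ok TW_l4840 _))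
     (CovZ.n1 (2176, -128) (by decide +kernel)
      (CovZ.leaf K2_ok TW_l2778 _)
      (CovZ.leaf K2_ok TW_l4841 _)))))

theorem TW_s14_10 : SqZ TW_M TW_L [0, 7, 4, 3] (-4608) (-5632) 512 14 10 :=
  SqZ.mk (a := 2560) (b := 3072) (c := (-512)) (d := 0) (by norm_num) (by norm_num) (by norm_num) (by norm_num)
    (CovZ.topM TW_LL 1 (by decide +kernel) (CovZ.n2 (2816, -256) (by decide +kernel)
    (CovZ.n2 (3072, -256) (by decide +kernel)
     (CovZ.n2 (2944, -384) (by decide +kernel)
      (CovZ.n2 (2944, -256) (by decide +kernel)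
       (CovZ.badM (by decide +kernel))
       (CovZ.n1 (2880, -320) (by decide +kernel)
        (CovZ.leaf K2_ok TW_l4899 _)
        (CovZ.badM (by decide +kernel))))
      (CovZ.badM (by decide +kernel)))
     (CovZ.n1 (2944, -128) (by decide +kernel)
      (CovZ.n2 (3072, -128) (by decide +kernel)
       (CovZ.n2 (3008, -192) (by decide +kernel)
        (CovZ.leaf K2_ok TW_l4900 _)
        (CovZ.badM (by decide +kernel)))
       (CovZ.leaf K2_ok TW_l4901 _))
      (CovZ.n1 (2944, -256) (by decide +kernel)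
       (CovZ.leaf K2_ok TW_l4902 _)
       (CovZ.leaf K2_ok TW_l4903 _))))
    (CovZ.n1 (2816, -512) (by decide +kernel)
     (CovZ.n2 (2688, -384) (by decide +kernel)
      (CovZ.n2 (2816, -384) (by decide +kernel)
       (CovZ.n2 (2752, -448) (by decide +kernel)
        (CovZ.leaf K2_ok TW_l4904 _)
        (CovZ.badM (by decide +kernel)))
       (CovZ.leaf K2_ok TW_l4905 _))
      (CovZ.n1 (2688, -512) (by decide +kernel)
       (CovZ.leaf K2_ok TW_l4906 _)
       (CovZ.leaf K2_ok TW_l4907 _)))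
     (CovZ.n1 (2944, -384) (by decide +kernel)
      (CovZ.badM (by decide +kernel))
      (CovZ.n1 (2816, -384) (by decide +kernel)
       (CovZ.leaf K2_ok TW_l4908 _)
       (CovZ.badM (by decide +kernel)))))))
    (CovZ.topM TW_LL 1 (by decide +kernel) (CovZ.n0 (2816, -256) (by decide +kernel)
    (CovZ.n2 (2560, -256) (by decide +kernel)
     (CovZ.n2 (2688, -128) (by decide +kernel)
      (CovZ.leaf K2_ok TW_l4909 _)
      (CovZ.leaf K2_ok TW_l4910 _))
     (CovZ.n1 (2688, -384) (by decide +kernel)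
      (CovZ.n2 (2560, -384) (by decide +kernel)
       (CovZ.leaf K2_ok TW_l4911 _)
       (CovZ.leaf K2_ok TW_l4912 _))
      (CovZ.n1 (2688, -256) (by decide +kernel)
       (CovZ.leaf K2_ok TW_l4913 _)
       (CovZ.leaf K2_ok TW_l4914 _))))
    (CovZ.n1 (2816, 0) (by decide +kernel)
     (CovZ.n2 (2944, -128) (by decide +kernel)
      (CovZ.leaf K2_ok TW_l4915 _)
      (CovZ.n1 (2944, 0) (by decide +kernel)
       (CovZ.leaf K2_ok TW_l4916 _)
       (CovZ.leaf K2_ok TW_l4917 _)))
     (CovZ.n1 (2688, -128) (by decide +kernel)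
      (CovZ.leaf K2_ok TW_l4918 _)
      (CovZ.n1 (2816, -128) (by decide +kernel)
       (CovZ.leaf K2_ok TW_l4919 _)
       (CovZ.leaf K2_ok TW_l4920 _))))))

theorem TW_s15_10 : SqZ TW_M TW_L [0, 7, 4, 3] (-4608) (-5632) 512 15 10 :=
  SqZ.mk (a := 3072) (b := 3584) (c := (-512)) (d := 0) (by norm_num) (by norm_num) (by norm_num) (by norm_num)
    (CovZ.topM TW_LL 0 (by decide +kernel) (CovZ.badM (by decide +kernel)))
    (CovZ.topM TW_LL 1 (by decide +kernel) (CovZ.n0 (3328, -256) (by decide +kernel)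
    (CovZ.n2 (3072, -256) (by decide +kernel)
     (CovZ.n2 (3200, -128) (by decide +kernel)
      (CovZ.badM (by decide +kernel))
      (CovZ.n1 (3072, -128) (by decide +kernel)
       (CovZ.leaf K2_ok TW_l5028 _)
       (CovZ.badM (by decide +kernel))))
     (CovZ.badM (by decide +kernel)))
    (CovZ.n1 (3328, 0) (by decide +kernel)
     (CovZ.badM (by decide +kernel))
     (CovZ.n1 (3200, -128) (by decide +kernel)
      (CovZ.n2 (3200, 0) (by decide +kernel)
       (CovZ.badM (by decide +kernel))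
       (CovZ.n1 (3136, -64) (by decide +kernel)
        (CovZ.leaf K2_ok TW_l5029 _)
        (CovZ.badM (by decide +kernel))))
      (CovZ.badM (by decide +kernel))))))

theorem TW_s16_10 : SqZ TW_M TW_L [0, 7, 4, 3] (-4608) (-5632) 512 16 10 :=
  SqZ.mk (a := 3584) (b := 4096) (c := (-512)) (d := 0) (by norm_num) (by norm_num) (by norm_num) (by norm_num)
    (CovZ.topM TW_LL 0 (by decide +kernel) (CovZ.badM (by decide +kernel)))
    (CovZ.topM TW_LL 0 (by decide +kernel) (CovZ.badM (by decide +kernel)))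

theorem TW_s0_11 : SqZ TW_M TW_L [0, 7, 4, 3] (-4608) (-5632) 512 0 11 :=
  SqZ.mk (a := (-4608)) (b := (-4096)) (c := 0) (d := 512) (by norm_num) (by norm_num) (by norm_num) (by norm_num)
    (CovZ.topM TW_LL 0 (by decide +kernel) (CovZ.badM (by decide +kernel)))
    (CovZ.topM TW_LL 0 (by decide +kernel) (CovZ.badM (by decide +kernel)))

theorem TW_s1_11 : SqZ TW_M TW_L [0, 7, 4, 3] (-4608) (-5632) 512 1 11 :=
  SqZ.mk (a := (-4096)) (b := (-3584)) (c := 0) (d := 512) (by norm_num) (by norm_num) (by norm_num) (by norm_num)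
    (CovZ.topM TW_LL 0 (by decide +kernel) (CovZ.badM (by decide +kernel)))
    (CovZ.topM TW_LL 0 (by decide +kernel) (CovZ.badM (by decide +kernel)))

theorem TW_s2_11 : SqZ TW_M TW_L [0, 7, 4, 3] (-4608) (-5632) 512 2 11 :=
  SqZ.mk (a := (-3584)) (b := (-3072)) (c := 0) (d := 512) (by norm_num) (by norm_num) (by norm_num) (by norm_num)
    (CovZ.topM TW_LL 0 (by decide +kernel) (CovZ.badM (by decide +kernel)))
    (CovZ.topM TW_LL 0 (by decide +kernel) (CovZ.badM (by decide +kernel)))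

theorem TW_s3_11 : SqZ TW_M TW_L [0, 7, 4, 3] (-4608) (-5632) 512 3 11 :=
  SqZ.mk (a := (-3072)) (b := (-2560)) (c := 0) (d := 512) (by norm_num) (by norm_num) (by norm_num) (by norm_num)
    (CovZ.topM TW_LL 0 (by decide +kernel) (CovZ.badM (by decide +kernel)))
    (CovZ.topM TW_LL 0 (by decide +kernel) (CovZ.badM (by decide +kernel)))

theorem TW_s4_11 : SqZ TW_M TW_L [0, 7, 4, 3] (-4608) (-5632) 512 4 11 :=
  SqZ.mk (a := (-2560)) (b := (-2048)) (c := 0) (d := 512) (by norm_num) (by norm_num) (by norm_num) (by norm_num)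
    (CovZ.topM TW_LL 0 (by decide +kernel) (CovZ.badM (by decide +kernel)))
    (CovZ.topM TW_LL 0 (by decide +kernel) (CovZ.badM (by decide +kernel)))

theorem TW_s5_11 : SqZ TW_M TW_L [0, 7, 4, 3] (-4608) (-5632) 512 5 11 :=
  SqZ.mk (a := (-2048)) (b := (-1536)) (c := 0) (d := 512) (by norm_num) (by norm_num) (by norm_num) (by norm_num)
    (CovZ.topM TW_LL 2 (by decide +kernel) (CovZ.n2 (-1792, 256) (by decide +kernel)
    (CovZ.n2 (-1536, 256) (by decide +kernel)
     (CovZ.n2 (-1664, 128) (by decide +kernel)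
      (CovZ.badM (by decide +kernel))
      (CovZ.n1 (-1536, 128) (by decide +kernel)
       (CovZ.n2 (-1600, 64) (by decide +kernel)
        (CovZ.badM (by decide +kernel))
        (CovZ.n1 (-1536, 64) (by decide +kernel)
         (CovZ.leaf K2_ok TW_l3622 _)
         (CovZ.badM (by decide +kernel))))
       (CovZ.badM (by decide +kernel))))
     (CovZ.badM (by decide +kernel)))
    (CovZ.n1 (-1792, 0) (by decide +kernel)
     (CovZ.badM (by decide +kernel))
     (CovZ.n1 (-1664, 128) (by decide +kernel)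
      (CovZ.n2 (-1664, 0) (by decide +kernel)
       (CovZ.badM (by decide +kernel))
       (CovZ.n1 (-1600, 64) (by decide +kernel)
        (CovZ.n2 (-1600, 0) (by decide +kernel)
         (CovZ.badM (by decide +kernel))
         (CovZ.leaf K2_ok TW_l3623 _))
        (CovZ.badM (by decide +kernel))))
      (CovZ.badM (by decide +kernel))))))
    (CovZ.topM TW_LL 0 (by decide +kernel) (CovZ.badM (by decide +kernel)))

theorem TW_s6_11 : SqZ TW_M TW_L [0, 7, 4, 3] (-4608) (-5632) 512 6 11 :=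
  SqZ.mk (a := (-1536)) (b := (-1024)) (c := 0) (d := 512) (by norm_num) (by norm_num) (by norm_num) (by norm_num)
    (CovZ.topM TW_LL 3 (by decide +kernel) (CovZ.n2 (-1280, 256) (by decide +kernel)
    (CovZ.n2 (-1024, 256) (by decide +kernel)
     (CovZ.n2 (-1152, 128) (by decide +kernel)
      (CovZ.n2 (-1152, 256) (by decide +kernel)
       (CovZ.leaf K2_ok TW_l3757 _)
       (CovZ.leaf K2_ok TW_l3758 _))
      (CovZ.leaf K2_ok TW_l3759 _))
     (CovZ.n1 (-1152, 384) (by decide +kernel)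
      (CovZ.leaf K2_ok TW_l3760 _)
      (CovZ.leaf K2_ok TW_l3761 _)))
    (CovZ.n1 (-1280, 0) (by decide +kernel)
     (CovZ.n2 (-1408, 128) (by decide +kernel)
      (CovZ.n2 (-1280, 128) (by decide +kernel)
       (CovZ.leaf K2_ok TW_l3762 _)
       (CovZ.leaf K2_ok TW_l3763 _))
      (CovZ.n1 (-1408, 0) (by decide +kernel)
       (CovZ.n2 (-1472, 64) (by decide +kernel)
        (CovZ.leaf K2_ok TW_l3764 _)
        (CovZ.leaf K2_ok TW_l3765 _))
       (CovZ.leaf K2_ok TW_l3766 _)))
     (CovZ.leaf K2_ok TW_l3767 _))))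
    (CovZ.topM TW_LL 3 (by decide +kernel) (CovZ.n0 (-1280, 256) (by decide +kernel)
    (CovZ.n2 (-1536, 256) (by decide +kernel)
     (CovZ.n2 (-1408, 384) (by decide +kernel)
      (CovZ.n2 (-1408, 256) (by decide +kernel)
       (CovZ.badM (by decide +kernel))
       (CovZ.n1 (-1344, 320) (by decide +kernel)
        (CovZ.leaf K2_ok TW_l3768 _)
        (CovZ.badM (by decide +kernel))))
      (CovZ.badM (by decide +kernel)))
     (CovZ.n1 (-1408, 128) (by decide +kernel)
      (CovZ.n2 (-1536, 128) (by decide +kernel)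
       (CovZ.n2 (-1472, 192) (by decide +kernel)
        (CovZ.n2 (-1472, 128) (by decide +kernel)
         (CovZ.badM (by decide +kernel))
         (CovZ.leaf K2_ok TW_l3769 _))
        (CovZ.badM (by decide +kernel)))
       (CovZ.n1 (-1472, 64) (by decide +kernel)
        (CovZ.leaf K2_ok TW_l3770 _)
        (CovZ.n1 (-1472, 128) (by decide +kernel)
         (CovZ.leaf K2_ok TW_l3771 _)
         (CovZ.leaf K2_ok TW_l3772 _))))
      (CovZ.n1 (-1408, 256) (by decide +kernel)
       (CovZ.leaf K2_ok TW_l3773 _)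
       (CovZ.n1 (-1472, 192) (by decide +kernel)
        (CovZ.badM (by decide +kernel))
        (CovZ.leaf K2_ok TW_l3774 _)))))
    (CovZ.n1 (-1280, 512) (by decide +kernel)
     (CovZ.n2 (-1152, 384) (by decide +kernel)
      (CovZ.n2 (-1280, 384) (by decide +kernel)
       (CovZ.n2 (-1216, 448) (by decide +kernel)
        (CovZ.n2 (-1216, 384) (by decide +kernel)
         (CovZ.n2 (-1248, 416) (by decide +kernel)
          (CovZ.leaf K2_ok TW_l3775 _)
          (CovZ.leaf K2_ok TW_l3776 _))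
         (CovZ.leaf K2_ok TW_l3777 _))
        (CovZ.n1 (-1280, 448) (by decide +kernel)
         (CovZ.leaf K2_ok TW_l3778 _)
         (CovZ.n1 (-1248, 416) (by decide +kernel)
          (CovZ.badM (by decide +kernel))
          (CovZ.leaf K2_ok TW_l3779 _))))
       (CovZ.n1 (-1216, 320) (by decide +kernel)
        (CovZ.n2 (-1280, 320) (by decide +kernel)
         (CovZ.leaf K2_ok TW_l3780 _)
         (CovZ.leaf K2_ok TW_l3781 _))
        (CovZ.n1 (-1216, 384) (by decide +kernel)
         (CovZ.leaf K2_ok TW_l3782 _)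
         (CovZ.n1 (-1248, 352) (by decide +kernel)
          (CovZ.leaf K2_ok TW_l3783 _)
          (CovZ.leaf K2_ok TW_l3784 _)))))
      (CovZ.n1 (-1152, 512) (by decide +kernel)
       (CovZ.leaf K2_ok TW_l3785 _)
       (CovZ.n1 (-1216, 448) (by decide +kernel)
        (CovZ.leaf K2_ok TW_l3786 _)
        (CovZ.leaf K2_ok TW_l3787 _))))
     (CovZ.n1 (-1408, 384) (by decide +kernel)
      (CovZ.badM (by decide +kernel))
      (CovZ.n1 (-1280, 384) (by decide +kernel)
       (CovZ.n2 (-1344, 320) (by decide +kernel)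
        (CovZ.badM (by decide +kernel))
        (CovZ.leaf K2_ok TW_l3788 _))
       (CovZ.badM (by decide +kernel)))))))

theorem TW_s7_11 : SqZ TW_M TW_L [0, 7, 4, 3] (-4608) (-5632) 512 7 11 :=
  SqZ.mk (a := (-1024)) (b := (-512)) (c := 0) (d := 512) (by norm_num) (by norm_num) (by norm_num) (by norm_num)
    (CovZ.topM TW_LL 7 (by decide +kernel) (CovZ.n2 (-768, 256) (by decide +kernel)
    (CovZ.leaf K2_ok TW_l3876 _)
    (CovZ.leaf K2_ok TW_l3877 _)))
    (CovZ.topM TW_LL 3 (by decide +kernel) (CovZ.n0 (-768, 256) (by decide +kernel)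
    (CovZ.leaf K2_ok TW_l3878 _)
    (CovZ.n1 (-768, 512) (by decide +kernel)
     (CovZ.leaf K2_ok TW_l3879 _)
     (CovZ.n1 (-896, 384) (by decide +kernel)
      (CovZ.leaf K2_ok TW_l3880 _)
      (CovZ.leaf K2_ok TW_l3881 _)))))

theorem TW_s8_11 : SqZ TW_M TW_L [0, 7, 4, 3] (-4608) (-5632) 512 8 11 :=
  SqZ.mk (a := (-512)) (b := 0) (c := 0) (d := 512) (by norm_num) (by norm_num) (by norm_num) (by norm_num)
    (CovZ.topM TW_LL 7 (by decide +kernel) (CovZ.n2 (-256, 256) (by decide +kernel)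
    (CovZ.leaf K2_ok TW_l3933 _)
    (CovZ.leaf K2_ok TW_l3934 _)))
    (CovZ.topM TW_LL 7 (by decide +kernel) (CovZ.leaf K2_ok TW_l3935 _))

theorem TW_s9_11 : SqZ TW_M TW_L [0, 7, 4, 3] (-4608) (-5632) 512 9 11 :=
  SqZ.mk (a := 0) (b := 512) (c := 0) (d := 512) (by norm_num) (by norm_num) (by norm_num) (by norm_num)
    (CovZ.topM TW_LL 7 (by decide +kernel) (CovZ.leaf K2_ok TW_l2572 _))
    (CovZ.topM TW_LL 7 (by decide +kernel) (CovZ.leaf K2_ok TW_l4026 _))

theorem TW_s10_11 : SqZ TW_M TW_L [0, 7, 4, 3] (-4608) (-5632) 512 10 11 :=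
  SqZ.mk (a := 512) (b := 1024) (c := 0) (d := 512) (by norm_num) (by norm_num) (by norm_num) (by norm_num)
    (CovZ.topM TW_LL 7 (by decide +kernel) (CovZ.n2 (768, 256) (by decide +kernel)
    (CovZ.n2 (1024, 256) (by decide +kernel)
     (CovZ.leaf K2_ok TW_l2623 _)
     (CovZ.n1 (896, 384) (by decide +kernel)
      (CovZ.leaf K2_ok TW_l2624 _)
      (CovZ.leaf K2_ok TW_l2625 _)))
    (CovZ.leaf K2_ok TW_l2626 _)))
    (CovZ.topM TW_LL 7 (by decide +kernel) (CovZ.n0 (768, 256) (by decide +kernel)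
    (CovZ.leaf K2_ok TW_l2627 _)
    (CovZ.n1 (768, 512) (by decide +kernel)
     (CovZ.leaf K2_ok TW_l4416 _)
     (CovZ.leaf K2_ok TW_l4417 _))))

theorem TW_s11_11 : SqZ TW_M TW_L [0, 7, 4, 3] (-4608) (-5632) 512 11 11 :=
  SqZ.mk (a := 1024) (b := 1536) (c := 0) (d := 512) (by norm_num) (by norm_num) (by norm_num) (by norm_num)
    (CovZ.topM TW_LL 7 (by decide +kernel) (CovZ.n2 (1280, 256) (by decide +kernel)
    (CovZ.n2 (1536, 256) (by decide +kernel)
     (CovZ.leaf K2_ok TW_l2672 _)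
     (CovZ.n1 (1408, 384) (by decide +kernel)
      (CovZ.leaf K2_ok TW_l2673 _)
      (CovZ.leaf K2_ok TW_l2674 _)))
    (CovZ.leaf K2_ok TW_l2675 _)))
    (CovZ.topM TW_LL 7 (by decide +kernel) (CovZ.n0 (1280, 256) (by decide +kernel)
    (CovZ.leaf K2_ok TW_l2676 _)
    (CovZ.n1 (1280, 512) (by decide +kernel)
     (CovZ.n2 (1408, 384) (by decide +kernel)
      (CovZ.leaf K2_ok TW_l2677 _)
      (CovZ.n1 (1408, 512) (by decide +kernel)
       (CovZ.leaf K2_ok TW_l2678 _)
       (CovZ.leaf K2_ok TW_l2679 _)))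
     (CovZ.n1 (1152, 384) (by decide +kernel)
      (CovZ.leaf K2_ok TW_l2680 _)
      (CovZ.leaf K2_ok TW_l2681 _)))))

theorem TW_s12_11 : SqZ TW_M TW_L [0, 7, 4, 3] (-4608) (-5632) 512 12 11 :=
  SqZ.mk (a := 1536) (b := 2048) (c := 0) (d := 512) (by norm_num) (by norm_num) (by norm_num) (by norm_num)
    (CovZ.topM TW_LL 5 (by decide +kernel) (CovZ.n2 (1792, 256) (by decide +kernel)
    (CovZ.n2 (2048, 256) (by decide +kernel)
     (CovZ.n2 (1920, 128) (by decide +kernel)
      (CovZ.leaf K2_ok TW_l2725 _)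
      (CovZ.leaf K2_ok TW_l2726 _))
     (CovZ.n1 (1920, 384) (by decide +kernel)
      (CovZ.n2 (2048, 384) (by decide +kernel)
       (CovZ.leaf K2_ok TW_l4788 _)
       (CovZ.leaf K2_ok TW_l4789 _))
      (CovZ.leaf K2_ok TW_l2727 _)))
    (CovZ.n1 (1792, 0) (by decide +kernel)
     (CovZ.leaf K2_ok TW_l2728 _)
     (CovZ.leaf K2_ok TW_l2729 _))))
    (CovZ.topM TW_LL 5 (by decide +kernel) (CovZ.n0 (1792, 256) (by decide +kernel)
    (CovZ.leaf K2_ok TW_l2730 _)
    (CovZ.n1 (1792, 512) (by decide +kernel)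
     (CovZ.n2 (1920, 384) (by decide +kernel)
      (CovZ.leaf K2_ok TW_l2731 _)
      (CovZ.n1 (1920, 512) (by decide +kernel)
       (CovZ.leaf K2_ok TW_l4790 _)
       (CovZ.leaf K2_ok TW_l4791 _)))
     (CovZ.n1 (1664, 384) (by decide +kernel)
      (CovZ.n2 (1664, 512) (by decide +kernel)
       (CovZ.leaf K2_ok TW_l2732 _)
       (CovZ.leaf K2_ok TW_l2733 _))
      (CovZ.leaf K2_ok TW_l2734 _)))))

theorem TW_s13_11 : SqZ TW_M TW_L [0, 7, 4, 3] (-4608) (-5632) 512 13 11 :=
  SqZ.mk (a := 2048) (b := 2560) (c := 0) (d := 512) (by norm_num) (by norm_num) (by norm_num) (by norm_num)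
    (CovZ.topM TW_LL 5 (by decide +kernel) (CovZ.n2 (2304, 256) (by decide +kernel)
    (CovZ.n2 (2560, 256) (by decide +kernel)
     (CovZ.n2 (2432, 128) (by decide +kernel)
      (CovZ.leaf K2_ok TW_l4842 _)
      (CovZ.leaf K2_ok TW_l4843 _))
     (CovZ.n1 (2432, 384) (by decide +kernel)
      (CovZ.n2 (2560, 384) (by decide +kernel)
       (CovZ.leaf K2_ok TW_l4844 _)
       (CovZ.n1 (2496, 448) (by decide +kernel)
        (CovZ.leaf K2_ok TW_l4845 _)
        (CovZ.leaf K2_ok TW_l4846 _)))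
      (CovZ.leaf K2_ok TW_l4847 _)))
    (CovZ.n1 (2304, 0) (by decide +kernel)
     (CovZ.leaf K2_ok TW_l2779 _)
     (CovZ.leaf K2_ok TW_l4848 _))))
    (CovZ.topM TW_LL 5 (by decide +kernel) (CovZ.n0 (2304, 256) (by decide +kernel)
    (CovZ.n2 (2048, 256) (by decide +kernel)
     (CovZ.n2 (2176, 384) (by decide +kernel)
      (CovZ.leaf K2_ok TW_l4849 _)
      (CovZ.leaf K2_ok TW_l4850 _))
     (CovZ.leaf K2_ok TW_l2780 _))
    (CovZ.n1 (2304, 512) (by decide +kernel)
     (CovZ.n2 (2432, 384) (by decide +kernel)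
      (CovZ.leaf K2_ok TW_l4851 _)
      (CovZ.n1 (2432, 512) (by decide +kernel)
       (CovZ.n2 (2496, 448) (by decide +kernel)
        (CovZ.leaf K2_ok TW_l4852 _)
        (CovZ.n1 (2496, 512) (by decide +kernel)
         (CovZ.leaf K2_ok TW_l4853 _)
         (CovZ.leaf K2_ok TW_l4854 _)))
       (CovZ.n1 (2368, 448) (by decide +kernel)
        (CovZ.leaf K2_ok TW_l4855 _)
        (CovZ.leaf K2_ok TW_l4856 _))))
     (CovZ.n1 (2176, 384) (by decide +kernel)
      (CovZ.n2 (2176, 512) (by decide +kernel)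
       (CovZ.leaf K2_ok TW_l4857 _)
       (CovZ.n1 (2112, 448) (by decide +kernel)
        (CovZ.leaf K2_ok TW_l4858 _)
        (CovZ.leaf K2_ok TW_l4859 _)))
      (CovZ.n1 (2304, 384) (by decide +kernel)
       (CovZ.leaf K2_ok TW_l4860 _)
       (CovZ.leaf K2_ok TW_l4861 _))))))

theorem TW_s14_11 : SqZ TW_M TW_L [0, 7, 4, 3] (-4608) (-5632) 512 14 11 :=
  SqZ.mk (a := 2560) (b := 3072) (c := 0) (d := 512) (by norm_num) (by norm_num) (by norm_num) (by norm_num)
    (CovZ.topM TW_LL 1 (by decide +kernel) (CovZ.n2 (2816, 256) (by decide +kernel)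
    (CovZ.n2 (3072, 256) (by decide +kernel)
     (CovZ.n2 (2944, 128) (by decide +kernel)
      (CovZ.n2 (2944, 256) (by decide +kernel)
       (CovZ.leaf K2_ok TW_l4921 _)
       (CovZ.leaf K2_ok TW_l4922 _))
      (CovZ.leaf K2_ok TW_l4923 _))
     (CovZ.n1 (2944, 384) (by decide +kernel)
      (CovZ.n2 (3072, 384) (by decide +kernel)
       (CovZ.n2 (3008, 320) (by decide +kernel)
        (CovZ.leaf K2_ok TW_l4924 _)
        (CovZ.leaf K2_ok TW_l4925 _))
       (CovZ.n1 (3008, 448) (by decide +kernel)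
        (CovZ.leaf K2_ok TW_l4926 _)
        (CovZ.leaf K2_ok TW_l4927 _)))
      (CovZ.n1 (2944, 256) (by decide +kernel)
       (CovZ.leaf K2_ok TW_l4928 _)
       (CovZ.leaf K2_ok TW_l4929 _))))
    (CovZ.n1 (2816, 0) (by decide +kernel)
     (CovZ.leaf K2_ok TW_l4930 _)
     (CovZ.leaf K2_ok TW_l4931 _))))
    (CovZ.topM TW_LL 5 (by decide +kernel) (CovZ.n0 (2816, 256) (by decide +kernel)
    (CovZ.n2 (2560, 256) (by decide +kernel)
     (CovZ.n2 (2688, 384) (by decide +kernel)
      (CovZ.leaf K2_ok TW_l4932 _)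
      (CovZ.leaf K2_ok TW_l4933 _))
     (CovZ.n1 (2688, 128) (by decide +kernel)
      (CovZ.leaf K2_ok TW_l4934 _)
      (CovZ.leaf K2_ok TW_l4935 _)))
    (CovZ.n1 (2816, 512) (by decide +kernel)
     (CovZ.n2 (2944, 384) (by decide +kernel)
      (CovZ.n2 (2816, 384) (by decide +kernel)
       (CovZ.leaf K2_ok TW_l4936 _)
       (CovZ.leaf K2_ok TW_l4937 _))
      (CovZ.n1 (2944, 512) (by decide +kernel)
       (CovZ.n2 (3008, 448) (by decide +kernel)
        (CovZ.leaf K2_ok TW_l4938 _)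
        (CovZ.n1 (3008, 512) (by decide +kernel)
         (CovZ.leaf K2_ok TW_l4939 _)
         (CovZ.leaf K2_ok TW_l4940 _)))
       (CovZ.n1 (2880, 448) (by decide +kernel)
        (CovZ.n2 (2880, 512) (by decide +kernel)
         (CovZ.leaf K2_ok TW_l4941 _)
         (CovZ.leaf K2_ok TW_l4942 _))
        (CovZ.leaf K2_ok TW_l4943 _))))
     (CovZ.n1 (2688, 384) (by decide +kernel)
      (CovZ.n2 (2688, 512) (by decide +kernel)
       (CovZ.n2 (2752, 448) (by decide +kernel)
        (CovZ.leaf K2_ok TW_l4944 _)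
        (CovZ.n1 (2752, 512) (by decide +kernel)
         (CovZ.leaf K2_ok TW_l4945 _)
         (CovZ.leaf K2_ok TW_l4946 _)))
       (CovZ.n1 (2624, 448) (by decide +kernel)
        (CovZ.n2 (2624, 512) (by decide +kernel)
         (CovZ.leaf K2_ok TW_l4947 _)
         (CovZ.leaf K2_ok TW_l4948 _))
        (CovZ.leaf K2_ok TW_l4949 _)))
      (CovZ.n1 (2816, 384) (by decide +kernel)
       (CovZ.leaf K2_ok TW_l4950 _)
       (CovZ.n1 (2752, 448) (by decide +kernel)
        (CovZ.leaf K2_ok TW_l4951 _)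
        (CovZ.leaf K2_ok TW_l4952 _)))))))

theorem TW_s15_11 : SqZ TW_M TW_L [0, 7, 4, 3] (-4608) (-5632) 512 15 11 :=
  SqZ.mk (a := 3072) (b := 3584) (c := 0) (d := 512) (by norm_num) (by norm_num) (by norm_num) (by norm_num)
    (CovZ.topM TW_LL 1 (by decide +kernel) (CovZ.n2 (3328, 256) (by decide +kernel)
    (CovZ.n2 (3584, 256) (by decide +kernel)
     (CovZ.n2 (3456, 128) (by decide +kernel)
      (CovZ.n2 (3456, 256) (by decide +kernel)
       (CovZ.badM (by decide +kernel))
       (CovZ.n1 (3392, 192) (by decide +kernel)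
        (CovZ.leaf K2_ok TW_l5030 _)
        (CovZ.badM (by decide +kernel))))
      (CovZ.badM (by decide +kernel)))
     (CovZ.n1 (3456, 384) (by decide +kernel)
      (CovZ.n2 (3584, 384) (by decide +kernel)
       (CovZ.n2 (3520, 320) (by decide +kernel)
        (CovZ.n2 (3520, 384) (by decide +kernel)
         (CovZ.badM (by decide +kernel))
         (CovZ.n1 (3488, 352) (by decide +kernel)
          (CovZ.n2 (3488, 384) (by decide +kernel)
           (CovZ.leaf K2_ok TW_l5031 _)
           (CovZ.leaf K2_ok TW_l5032 _))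
          (CovZ.badM (by decide +kernel))))
        (CovZ.badM (by decide +kernel)))
       (CovZ.n1 (3520, 448) (by decide +kernel)
        (CovZ.n2 (3584, 448) (by decide +kernel)
         (CovZ.n2 (3552, 416) (by decide +kernel)
          (CovZ.badM (by decide +kernel))
          (CovZ.badM (by decide +kernel)))
         (CovZ.badM (by decide +kernel)))
        (CovZ.n1 (3520, 384) (by decide +kernel)
         (CovZ.n2 (3488, 416) (by decide +kernel)
          (CovZ.n2 (3520, 416) (by decide +kernel)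
           (CovZ.n2 (3504, 400) (by decide +kernel)
            (CovZ.badM (by decide +kernel))
            (CovZ.leaf K2_ok TW_l5033 _))
           (CovZ.badM (by decide +kernel)))
          (CovZ.n1 (3488, 384) (by decide +kernel)
           (CovZ.n2 (3472, 400) (by decide +kernel)
            (CovZ.leaf K2_ok TW_l5034 _)
            (CovZ.leaf K2_ok TW_l5035 _))
           (CovZ.leaf K2_ok TW_l5036 _)))
         (CovZ.n1 (3552, 416) (by decide +kernel)
          (CovZ.badM (by decide +kernel))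
          (CovZ.n1 (3520, 416) (by decide +kernel)
           (CovZ.badM (by decide +kernel))
           (CovZ.n1 (3536, 400) (by decide +kernel)
            (CovZ.leaf K2_ok TW_l5037 _)
            (CovZ.badM (by decide +kernel))))))))
      (CovZ.n1 (3456, 256) (by decide +kernel)
       (CovZ.n2 (3392, 320) (by decide +kernel)
        (CovZ.n2 (3456, 320) (by decide +kernel)
         (CovZ.leaf K2_ok TW_l5038 _)
         (CovZ.n1 (3424, 352) (by decide +kernel)
          (CovZ.leaf K2_ok TW_l5039 _)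
          (CovZ.leaf K2_ok TW_l5040 _)))
        (CovZ.n1 (3392, 256) (by decide +kernel)
         (CovZ.leaf K2_ok TW_l5041 _)
         (CovZ.leaf K2_ok TW_l5042 _)))
       (CovZ.n1 (3520, 320) (by decide +kernel)
        (CovZ.badM (by decide +kernel))
        (CovZ.n1 (3456, 320) (by decide +kernel)
         (CovZ.n2 (3488, 352) (by decide +kernel)
          (CovZ.badM (by decide +kernel))
          (CovZ.leaf K2_ok TW_l5043 _))
         (CovZ.badM (by decide +kernel)))))))
    (CovZ.n1 (3328, 0) (by decide +kernel)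
     (CovZ.n2 (3200, 128) (by decide +kernel)
      (CovZ.n2 (3328, 128) (by decide +kernel)
       (CovZ.n2 (3264, 64) (by decide +kernel)
        (CovZ.leaf K2_ok TW_l5044 _)
        (CovZ.badM (by decide +kernel)))
       (CovZ.n1 (3264, 192) (by decide +kernel)
        (CovZ.leaf K2_ok TW_l5045 _)
        (CovZ.leaf K2_ok TW_l5046 _)))
      (CovZ.n1 (3200, 0) (by decide +kernel)
       (CovZ.leaf K2_ok TW_l5047 _)
       (CovZ.leaf K2_ok TW_l5048 _)))
     (CovZ.n1 (3456, 128) (by decide +kernel)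
      (CovZ.badM (by decide +kernel))
      (CovZ.n1 (3328, 128) (by decide +kernel)
       (CovZ.leaf K2_ok TW_l5049 _)
       (CovZ.badM (by decide +kernel)))))))
    (CovZ.topM TW_LL 1 (by decide +kernel) (CovZ.n0 (3328, 256) (by decide +kernel)
    (CovZ.n2 (3072, 256) (by decide +kernel)
     (CovZ.n2 (3200, 384) (by decide +kernel)
      (CovZ.n2 (3200, 256) (by decide +kernel)
       (CovZ.n2 (3136, 320) (by decide +kernel)
        (CovZ.leaf K2_ok TW_l5050 _)
        (CovZ.leaf K2_ok TW_l5051 _))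
       (CovZ.leaf K2_ok TW_l5052 _))
      (CovZ.n1 (3072, 384) (by decide +kernel)
       (CovZ.n2 (3136, 448) (by decide +kernel)
        (CovZ.n2 (3136, 384) (by decide +kernel)
         (CovZ.leaf K2_ok TW_l5053 _)
         (CovZ.leaf K2_ok TW_l5054 _))
        (CovZ.leaf K2_ok TW_l5055 _))
       (CovZ.n1 (3136, 320) (by decide +kernel)
        (CovZ.leaf K2_ok TW_l5056 _)
        (CovZ.leaf K2_ok TW_l5057 _))))
     (CovZ.n1 (3200, 128) (by decide +kernel)
      (CovZ.leaf K2_ok TW_l5058 _)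
      (CovZ.n1 (3200, 256) (by decide +kernel)
       (CovZ.n2 (3264, 192) (by decide +kernel)
        (CovZ.leaf K2_ok TW_l5059 _)
        (CovZ.leaf K2_ok TW_l5060 _))
       (CovZ.leaf K2_ok TW_l5061 _))))
    (CovZ.n1 (3328, 512) (by decide +kernel)
     (CovZ.n2 (3456, 384) (by decide +kernel)
      (CovZ.n2 (3328, 384) (by decide +kernel)
       (CovZ.n2 (3392, 448) (by decide +kernel)
        (CovZ.n2 (3392, 384) (by decide +kernel)
         (CovZ.n2 (3360, 416) (by decide +kernel)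
          (CovZ.n2 (3392, 416) (by decide +kernel)
           (CovZ.leaf K2_ok TW_l5062 _)
           (CovZ.leaf K2_ok TW_l5063 _))
          (CovZ.leaf K2_ok TW_l5064 _))
         (CovZ.n1 (3424, 416) (by decide +kernel)
          (CovZ.n2 (3424, 384) (by decide +kernel)
           (CovZ.leaf K2_ok TW_l5065 _)
           (CovZ.leaf K2_ok TW_l5066 _))
          (CovZ.leaf K2_ok TW_l5067 _)))
        (CovZ.n1 (3328, 448) (by decide +kernel)
         (CovZ.badM (by decide +kernel))
         (CovZ.n1 (3360, 416) (by decide +kernel)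
          (CovZ.leaf K2_ok TW_l5068 _)
          (CovZ.n1 (3360, 448) (by decide +kernel)
           (CovZ.leaf K2_ok TW_l5069 _)
           (CovZ.leaf K2_ok TW_l5070 _)))))
       (CovZ.n1 (3392, 320) (by decide +kernel)
        (CovZ.leaf K2_ok TW_l5071 _)
        (CovZ.n1 (3392, 384) (by decide +kernel)
         (CovZ.n2 (3424, 352) (by decide +kernel)
          (CovZ.leaf K2_ok TW_l5072 _)
          (CovZ.n1 (3424, 384) (by decide +kernel)
           (CovZ.leaf K2_ok TW_l5073 _)
           (CovZ.leaf K2_ok TW_l5074 _)))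
         (CovZ.n1 (3360, 352) (by decide +kernel)
          (CovZ.leaf K2_ok TW_l5075 _)
          (CovZ.leaf K2_ok TW_l5076 _)))))
      (CovZ.n1 (3456, 512) (by decide +kernel)
       (CovZ.n2 (3520, 448) (by decide +kernel)
        (CovZ.n2 (3456, 448) (by decide +kernel)
         (CovZ.badM (by decide +kernel))
         (CovZ.n1 (3488, 416) (by decide +kernel)
          (CovZ.n2 (3456, 416) (by decide +kernel)
           (CovZ.badM (by decide +kernel))
           (CovZ.n1 (3472, 400) (by decide +kernel)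
            (CovZ.leaf K2_ok TW_l5077 _)
            (CovZ.leaf K2_ok TW_l5078 _)))
          (CovZ.badM (by decide +kernel))))
        (CovZ.badM (by decide +kernel)))
       (CovZ.n1 (3392, 448) (by decide +kernel)
        (CovZ.badM (by decide +kernel))
        (CovZ.n1 (3456, 448) (by decide +kernel)
         (CovZ.n2 (3424, 416) (by decide +kernel)
          (CovZ.badM (by decide +kernel))
          (CovZ.n1 (3456, 416) (by decide +kernel)
           (CovZ.leaf K2_ok TW_l5079 _)
           (CovZ.badM (by decide +kernel))))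
         (CovZ.badM (by decide +kernel))))))
     (CovZ.n1 (3200, 384) (by decide +kernel)
      (CovZ.n2 (3200, 512) (by decide +kernel)
       (CovZ.n2 (3264, 448) (by decide +kernel)
        (CovZ.n2 (3200, 448) (by decide +kernel)
         (CovZ.badM (by decide +kernel))
         (CovZ.n1 (3232, 416) (by decide +kernel)
          (CovZ.leaf K2_ok TW_l5080 _)
          (CovZ.leaf K2_ok TW_l5081 _)))
        (CovZ.badM (by decide +kernel)))
       (CovZ.n1 (3136, 448) (by decide +kernel)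
        (CovZ.n2 (3136, 512) (by decide +kernel)
         (CovZ.n2 (3168, 480) (by decide +kernel)
          (CovZ.leaf K2_ok TW_l5082 _)
          (CovZ.badM (by decide +kernel)))
         (CovZ.n1 (3104, 480) (by decide +kernel)
          (CovZ.badM (by decide +kernel))
          (CovZ.leaf K2_ok TW_l5083 _)))
        (CovZ.n1 (3200, 448) (by decide +kernel)
         (CovZ.leaf K2_ok TW_l5084 _)
         (CovZ.n1 (3168, 480) (by decide +kernel)
          (CovZ.badM (by decide +kernel))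
          (CovZ.leaf K2_ok TW_l5085 _)))))
      (CovZ.n1 (3328, 384) (by decide +kernel)
       (CovZ.n2 (3264, 320) (by decide +kernel)
        (CovZ.n2 (3264, 384) (by decide +kernel)
         (CovZ.leaf K2_ok TW_l5086 _)
         (CovZ.leaf K2_ok TW_l5087 _))
        (CovZ.leaf K2_ok TW_l5088 _))
       (CovZ.n1 (3264, 448) (by decide +kernel)
        (CovZ.n2 (3328, 448) (by decide +kernel)
         (CovZ.n2 (3296, 416) (by decide +kernel)
          (CovZ.n2 (3296, 448) (by decide +kernel)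
           (CovZ.leaf K2_ok TW_l5089 _)
           (CovZ.leaf K2_ok TW_l5090 _))
          (CovZ.leaf K2_ok TW_l5091 _))
         (CovZ.badM (by decide +kernel)))
        (CovZ.n1 (3264, 384) (by decide +kernel)
         (CovZ.leaf K2_ok TW_l5092 _)
         (CovZ.leaf K2_ok TW_l5093 _))))))))

theorem TW_s16_11 : SqZ TW_M TW_L [0, 7, 4, 3] (-4608) (-5632) 512 16 11 :=
  SqZ.mk (a := 3584) (b := 4096) (c := 0) (d := 512) (by norm_num) (by norm_num) (by norm_num) (by norm_num)
    (CovZ.topM TW_LL 0 (by decide +kernel) (CovZ.badM (by decide +kernel)))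
    (CovZ.topM TW_LL 1 (by decide +kernel) (CovZ.n0 (3840, 256) (by decide +kernel)
    (CovZ.n2 (3584, 256) (by decide +kernel)
     (CovZ.n2 (3712, 384) (by decide +kernel)
      (CovZ.badM (by decide +kernel))
      (CovZ.n1 (3584, 384) (by decide +kernel)
       (CovZ.n2 (3648, 448) (by decide +kernel)
        (CovZ.badM (by decide +kernel))
        (CovZ.n1 (3584, 448) (by decide +kernel)
         (CovZ.badM (by decide +kernel))
         (CovZ.badM (by decide +kernel))))
       (CovZ.badM (by decide +kernel))))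
     (CovZ.badM (by decide +kernel)))
    (CovZ.n1 (3840, 512) (by decide +kernel)
     (CovZ.badM (by decide +kernel))
     (CovZ.n1 (3712, 384) (by decide +kernel)
      (CovZ.badM (by decide +kernel))
      (CovZ.badM (by decide +kernel))))))

theorem TW_s0_12 : SqZ TW_M TW_L [0, 7, 4, 3] (-4608) (-5632) 512 0 12 :=
  SqZ.mk (a := (-4608)) (b := (-4096)) (c := 512) (d := 1024) (by norm_num) (by norm_num) (by norm_num) (by norm_num)
    (CovZ.topM TW_LL 0 (by decide +kernel) (CovZ.badM (by decide +kernel)))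
    (CovZ.topM TW_LL 0 (by decide +kernel) (CovZ.badM (by decide +kernel)))

theorem TW_s1_12 : SqZ TW_M TW_L [0, 7, 4, 3] (-4608) (-5632) 512 1 12 :=
  SqZ.mk (a := (-4096)) (b := (-3584)) (c := 512) (d := 1024) (by norm_num) (by norm_num) (by norm_num) (by norm_num)
    (CovZ.topM TW_LL 0 (by decide +kernel) (CovZ.badM (by decide +kernel)))
    (CovZ.topM TW_LL 0 (by decide +kernel) (CovZ.badM (by decide +kernel)))

theorem TW_s2_12 : SqZ TW_M TW_L [0, 7, 4, 3] (-4608) (-5632) 512 2 12 :=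
  SqZ.mk (a := (-3584)) (b := (-3072)) (c := 512) (d := 1024) (by norm_num) (by norm_num) (by norm_num) (by norm_num)
    (CovZ.topM TW_LL 0 (by decide +kernel) (CovZ.badM (by decide +kernel)))
    (CovZ.topM TW_LL 0 (by decide +kernel) (CovZ.badM (by decide +kernel)))

theorem TW_s3_12 : SqZ TW_M TW_L [0, 7, 4, 3] (-4608) (-5632) 512 3 12 :=
  SqZ.mk (a := (-3072)) (b := (-2560)) (c := 512) (d := 1024) (by norm_num) (by norm_num) (by norm_num) (by norm_num)
    (CovZ.topM TW_LL 0 (by decide +kernel) (CovZ.badM (by decide +kernel)))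
    (CovZ.topM TW_LL 0 (by decide +kernel) (CovZ.badM (by decide +kernel)))

theorem TW_s4_12 : SqZ TW_M TW_L [0, 7, 4, 3] (-4608) (-5632) 512 4 12 :=
  SqZ.mk (a := (-2560)) (b := (-2048)) (c := 512) (d := 1024) (by norm_num) (by norm_num) (by norm_num) (by norm_num)
    (CovZ.topM TW_LL 0 (by decide +kernel) (CovZ.badM (by decide +kernel)))
    (CovZ.topM TW_LL 0 (by decide +kernel) (CovZ.badM (by decide +kernel)))

theorem TW_s5_12 : SqZ TW_M TW_L [0, 7, 4, 3] (-4608) (-5632) 512 5 12 :=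
  SqZ.mk (a := (-2048)) (b := (-1536)) (c := 512) (d := 1024) (by norm_num) (by norm_num) (by norm_num) (by norm_num)
    (CovZ.topM TW_LL 0 (by decide +kernel) (CovZ.badM (by decide +kernel)))
    (CovZ.topM TW_LL 0 (by decide +kernel) (CovZ.badM (by decide +kernel)))

end Pool.Agent.TET
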