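import Pool.Agent.Helper38_TET.TW_M
import Pool.Agent.Helper38_TET.TW_L
import Pool.Agent.Helper38_TET.TW_17
import Pool.Agent.Helper38_TET.TW_18
import Pool.Agent.Helper38_TET.TW_19
import Pool.Agent.Helper38_TET.TW_26
import Pool.Agent.Helper38_TET.TW_27
import Pool.Agent.Helper38_TET.TW_28
import Pool.Agent.Helper38_TET.TW_29
import Pool.Agent.Helper38_TET.TW_30
import Pool.Agent.Helper38_TET.TW_31
import Pool.Agent.Helper38_TET.TW_32
import Pool.Agent.Helper38_TET.TW_33
import Pool.Agent.Helper38_TET.TW_34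

/-!
# MP_c7c9bf_co: certificates, family TW
-/

set_option autoImplicit false
set_option maxRecDepth 100000

namespace Pool.Agent.TET

theorem TW_s6_12 : SqZ TW_M TW_L [0, 7, 4, 3] (-4608) (-5632) 512 6 12 :=
  SqZ.mk (a := (-1536)) (b := (-1024)) (c := 512) (d := 1024) (by norm_num) (by norm_num) (by norm_num) (by norm_num)
    (CovZ.topM TW_LL 3 (by decide +kernel) (CovZ.n2 (-1280, 768) (by decide +kernel)
    (CovZ.n2 (-1024, 768) (by decide +kernel)
     (CovZ.n2 (-1152, 640) (by decide +kernel)
      (CovZ.n2 (-1152, 768) (by decide +kernel)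
       (CovZ.n2 (-1088, 704) (by decide +kernel)
        (CovZ.leaf K2_ok TW_l3789 _)
        (CovZ.n1 (-1088, 768) (by decide +kernel)
         (CovZ.leaf K2_ok TW_l3790 _)
         (CovZ.leaf K2_ok TW_l3791 _)))
       (CovZ.n1 (-1216, 704) (by decide +kernel)
        (CovZ.badM (by decide +kernel))
        (CovZ.n1 (-1152, 704) (by decide +kernel)
         (CovZ.n2 (-1184, 672) (by decide +kernel)
          (CovZ.badM (by decide +kernel))
          (CovZ.n1 (-1152, 672) (by decide +kernel)
           (CovZ.n2 (-1168, 656) (by decide +kernel)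
            (CovZ.badM (by decide +kernel))
            (CovZ.n1 (-1152, 656) (by decide +kernel)
             (CovZ.badM (by decide +kernel))
             (CovZ.badM (by decide +kernel))))
           (CovZ.badM (by decide +kernel))))
         (CovZ.badM (by decide +kernel)))))
      (CovZ.n1 (-1024, 640) (by decide +kernel)
       (CovZ.n2 (-1088, 576) (by decide +kernel)
        (CovZ.leaf K2_ok TW_l3792 _)
        (CovZ.leaf K2_ok TW_l3793 _))
       (CovZ.n1 (-1088, 704) (by decide +kernel)
        (CovZ.leaf K2_ok TW_l3794 _)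
        (CovZ.leaf K2_ok TW_l3795 _))))
     (CovZ.n1 (-1152, 896) (by decide +kernel)
      (CovZ.n2 (-1024, 896) (by decide +kernel)
       (CovZ.n2 (-1088, 832) (by decide +kernel)
        (CovZ.badM (by decide +kernel))
        (CovZ.n1 (-1024, 832) (by decide +kernel)
         (CovZ.leaf K2_ok TW_l3796 _)
         (CovZ.leaf K2_ok TW_l3797 _)))
       (CovZ.badM (by decide +kernel)))
      (CovZ.n1 (-1152, 768) (by decide +kernel)
       (CovZ.badM (by decide +kernel))
       (CovZ.n1 (-1088, 832) (by decide +kernel)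
        (CovZ.leaf K2_ok TW_l3798 _)
        (CovZ.badM (by decide +kernel))))))
    (CovZ.n1 (-1280, 512) (by decide +kernel)
     (CovZ.badM (by decide +kernel))
     (CovZ.n1 (-1152, 640) (by decide +kernel)
      (CovZ.n2 (-1152, 512) (by decide +kernel)
       (CovZ.n2 (-1216, 576) (by decide +kernel)
        (CovZ.leaf K2_ok TW_l3799 _)
        (CovZ.leaf K2_ok TW_l3800 _))
       (CovZ.leaf K2_ok TW_l3801 _))
      (CovZ.badM (by decide +kernel))))))
    (CovZ.topM TW_LL 0 (by decide +kernel) (CovZ.badM (by decide +kernel)))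

theorem TW_s7_12 : SqZ TW_M TW_L [0, 7, 4, 3] (-4608) (-5632) 512 7 12 :=
  SqZ.mk (a := (-1024)) (b := (-512)) (c := 512) (d := 1024) (by norm_num) (by norm_num) (by norm_num) (by norm_num)
    (CovZ.topM TW_LL 3 (by decide +kernel) (CovZ.n2 (-768, 768) (by decide +kernel)
    (CovZ.n2 (-512, 768) (by decide +kernel)
     (CovZ.n2 (-640, 640) (by decide +kernel)
      (CovZ.leaf K2_ok TW_l3882 _)
      (CovZ.leaf K2_ok TW_l3883 _))
     (CovZ.leaf K2_ok TW_l3884 _))
    (CovZ.n1 (-768, 512) (by decide +kernel)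
     (CovZ.n2 (-896, 640) (by decide +kernel)
      (CovZ.leaf K2_ok TW_l3885 _)
      (CovZ.leaf K2_ok TW_l3886 _))
     (CovZ.leaf K2_ok TW_l3887 _))))
    (CovZ.topM TW_LL 3 (by decide +kernel) (CovZ.n0 (-768, 768) (by decide +kernel)
    (CovZ.n2 (-1024, 768) (by decide +kernel)
     (CovZ.n2 (-896, 896) (by decide +kernel)
      (CovZ.n2 (-896, 768) (by decide +kernel)
       (CovZ.leaf K2_ok TW_l3888 _)
       (CovZ.leaf K2_ok TW_l3889 _))
      (CovZ.n1 (-1024, 896) (by decide +kernel)
       (CovZ.n2 (-960, 960) (by decide +kernel)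
        (CovZ.leaf K2_ok TW_l3890 _)
        (CovZ.leaf K2_ok TW_l3891 _))
       (CovZ.leaf K2_ok TW_l3892 _)))
     (CovZ.n1 (-896, 640) (by decide +kernel)
      (CovZ.leaf K2_ok TW_l3893 _)
      (CovZ.n1 (-896, 768) (by decide +kernel)
       (CovZ.leaf K2_ok TW_l3894 _)
       (CovZ.leaf K2_ok TW_l3895 _))))
    (CovZ.n1 (-768, 1024) (by decide +kernel)
     (CovZ.n2 (-640, 896) (by decide +kernel)
      (CovZ.leaf K2_ok TW_l3896 _)
      (CovZ.n1 (-640, 1024) (by decide +kernel)
       (CovZ.leaf K2_ok TW_l3897 _)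
       (CovZ.leaf K2_ok TW_l3898 _)))
     (CovZ.n1 (-896, 896) (by decide +kernel)
      (CovZ.n2 (-896, 1024) (by decide +kernel)
       (CovZ.leaf K2_ok TW_l3899 _)
       (CovZ.n1 (-960, 960) (by decide +kernel)
        (CovZ.n2 (-960, 1024) (by decide +kernel)
         (CovZ.leaf K2_ok TW_l3900 _)
         (CovZ.n1 (-992, 992) (by decide +kernel)
          (CovZ.badM (by decide +kernel))
          (CovZ.leaf K2_ok TW_l3901 _)))
        (CovZ.leaf K2_ok TW_l3902 _)))
      (CovZ.n1 (-768, 896) (by decide +kernel)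
       (CovZ.leaf K2_ok TW_l3903 _)
       (CovZ.leaf K2_ok TW_l3904 _))))))

theorem TW_s8_12 : SqZ TW_M TW_L [0, 7, 4, 3] (-4608) (-5632) 512 8 12 :=
  SqZ.mk (a := (-512)) (b := 0) (c := 512) (d := 1024) (by norm_num) (by norm_num) (by norm_num) (by norm_num)
    (CovZ.topM TW_LL 7 (by decide +kernel) (CovZ.n2 (-256, 768) (by decide +kernel)
    (CovZ.leaf K2_ok TW_l3936 _)
    (CovZ.leaf K2_ok TW_l3937 _)))
    (CovZ.topM TW_LL 7 (by decide +kernel) (CovZ.n0 (-256, 768) (by decide +kernel)
    (CovZ.leaf K2_ok TW_l3938 _)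
    (CovZ.n1 (-256, 1024) (by decide +kernel)
     (CovZ.leaf K2_ok TW_l3939 _)
     (CovZ.leaf K2_ok TW_l3940 _))))

theorem TW_s9_12 : SqZ TW_M TW_L [0, 7, 4, 3] (-4608) (-5632) 512 9 12 :=
  SqZ.mk (a := 0) (b := 512) (c := 512) (d := 1024) (by norm_num) (by norm_num) (by norm_num) (by norm_num)
    (CovZ.topM TW_LL 7 (by decide +kernel) (CovZ.leaf K2_ok TW_l4027 _))
    (CovZ.topM TW_LL 7 (by decide +kernel) (CovZ.leaf K2_ok TW_l4028 _))

theorem TW_s10_12 : SqZ TW_M TW_L [0, 7, 4, 3] (-4608) (-5632) 512 10 12 :=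
  SqZ.mk (a := 512) (b := 1024) (c := 512) (d := 1024) (by norm_num) (by norm_num) (by norm_num) (by norm_num)
    (CovZ.topM TW_LL 7 (by decide +kernel) (CovZ.n2 (768, 768) (by decide +kernel)
    (CovZ.n2 (1024, 768) (by decide +kernel)
     (CovZ.n2 (896, 640) (by decide +kernel)
      (CovZ.n2 (896, 768) (by decide +kernel)
       (CovZ.n2 (960, 704) (by decide +kernel)
        (CovZ.leaf K2_ok TW_l4418 _)
        (CovZ.leaf K2_ok TW_l4419 _))
       (CovZ.leaf K2_ok TW_l4420 _))
      (CovZ.n1 (1024, 640) (by decide +kernel)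
       (CovZ.leaf K2_ok TW_l4421 _)
       (CovZ.n1 (960, 704) (by decide +kernel)
        (CovZ.leaf K2_ok TW_l4422 _)
        (CovZ.leaf K2_ok TW_l4423 _))))
     (CovZ.n1 (896, 896) (by decide +kernel)
      (CovZ.badM (by decide +kernel))
      (CovZ.n1 (896, 768) (by decide +kernel)
       (CovZ.leaf K2_ok TW_l4424 _)
       (CovZ.n1 (960, 832) (by decide +kernel)
        (CovZ.leaf K2_ok TW_l4425 _)
        (CovZ.leaf K2_ok TW_l4426 _)))))
    (CovZ.n1 (768, 512) (by decide +kernel)
     (CovZ.leaf K2_ok TW_l4427 _)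
     (CovZ.n1 (896, 640) (by decide +kernel)
      (CovZ.leaf K2_ok TW_l4428 _)
      (CovZ.leaf K2_ok TW_l4429 _)))))
    (CovZ.topM TW_LL 7 (by decide +kernel) (CovZ.n0 (768, 768) (by decide +kernel)
    (CovZ.n2 (512, 768) (by decide +kernel)
     (CovZ.leaf K2_ok TW_l4430 _)
     (CovZ.leaf K2_ok TW_l4431 _))
    (CovZ.n1 (768, 1024) (by decide +kernel)
     (CovZ.n2 (896, 896) (by decide +kernel)
      (CovZ.n2 (768, 896) (by decide +kernel)
       (CovZ.leaf K2_ok TW_l4432 _)
       (CovZ.leaf K2_ok TW_l4433 _))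
      (CovZ.n1 (896, 1024) (by decide +kernel)
       (CovZ.badM (by decide +kernel))
       (CovZ.n1 (832, 960) (by decide +kernel)
        (CovZ.leaf K2_ok TW_l4434 _)
        (CovZ.badM (by decide +kernel)))))
     (CovZ.leaf K2_ok TW_l4435 _))))

theorem TW_s11_12 : SqZ TW_M TW_L [0, 7, 4, 3] (-4608) (-5632) 512 11 12 :=
  SqZ.mk (a := 1024) (b := 1536) (c := 512) (d := 1024) (by norm_num) (by norm_num) (by norm_num) (by norm_num)
    (CovZ.topM TW_LL 5 (by decide +kernel) (CovZ.n2 (1280, 768) (by decide +kernel)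
    (CovZ.n2 (1536, 768) (by decide +kernel)
     (CovZ.n2 (1408, 640) (by decide +kernel)
      (CovZ.n2 (1408, 768) (by decide +kernel)
       (CovZ.n2 (1472, 704) (by decide +kernel)
        (CovZ.n2 (1408, 704) (by decide +kernel)
         (CovZ.badM (by decide +kernel))
         (CovZ.n1 (1440, 672) (by decide +kernel)
          (CovZ.leaf K2_ok TW_l4679 _)
          (CovZ.leaf K2_ok TW_l4680 _)))
        (CovZ.badM (by decide +kernel)))
       (CovZ.n1 (1344, 704) (by decide +kernel)
        (CovZ.n2 (1344, 768) (by decide +kernel)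
         (CovZ.n2 (1376, 736) (by decide +kernel)
          (CovZ.leaf K2_ok TW_l4681 _)
          (CovZ.badM (by decide +kernel)))
         (CovZ.n1 (1312, 736) (by decide +kernel)
          (CovZ.badM (by decide +kernel))
          (CovZ.leaf K2_ok TW_l4682 _)))
        (CovZ.n1 (1408, 704) (by decide +kernel)
         (CovZ.n2 (1376, 672) (by decide +kernel)
          (CovZ.leaf K2_ok TW_l4683 _)
          (CovZ.leaf K2_ok TW_l4684 _))
         (CovZ.n1 (1376, 736) (by decide +kernel)
          (CovZ.badM (by decide +kernel))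
          (CovZ.leaf K2_ok TW_l4685 _)))))
      (CovZ.n1 (1536, 640) (by decide +kernel)
       (CovZ.n2 (1472, 576) (by decide +kernel)
        (CovZ.n2 (1472, 640) (by decide +kernel)
         (CovZ.leaf K2_ok TW_l2682 _)
         (CovZ.leaf K2_ok TW_l2683 _))
        (CovZ.leaf K2_ok TW_l2684 _))
       (CovZ.n1 (1472, 704) (by decide +kernel)
        (CovZ.n2 (1536, 704) (by decide +kernel)
         (CovZ.n2 (1504, 672) (by decide +kernel)
          (CovZ.n2 (1504, 704) (by decide +kernel)
           (CovZ.leaf K2_ok TW_l4686 _)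
           (CovZ.leaf K2_ok TW_l4687 _))
          (CovZ.leaf K2_ok TW_l2685 _))
         (CovZ.badM (by decide +kernel)))
        (CovZ.n1 (1472, 640) (by decide +kernel)
         (CovZ.n2 (1440, 672) (by decide +kernel)
          (CovZ.leaf K2_ok TW_l2789 _)
          (CovZ.leaf K2_ok TW_l2790 _))
         (CovZ.leaf K2_ok TW_l2686 _)))))
     (CovZ.badM (by decide +kernel)))
    (CovZ.n1 (1280, 512) (by decide +kernel)
     (CovZ.n2 (1152, 640) (by decide +kernel)
      (CovZ.n2 (1280, 640) (by decide +kernel)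
       (CovZ.n2 (1216, 576) (by decide +kernel)
        (CovZ.leaf K2_ok TW_l4688 _)
        (CovZ.leaf K2_ok TW_l2687 _))
       (CovZ.n1 (1216, 704) (by decide +kernel)
        (CovZ.n2 (1280, 704) (by decide +kernel)
         (CovZ.leaf K2_ok TW_l4689 _)
         (CovZ.leaf K2_ok TW_l4690 _))
        (CovZ.leaf K2_ok TW_l4691 _)))
      (CovZ.n1 (1152, 512) (by decide +kernel)
       (CovZ.leaf K2_ok TW_l4692 _)
       (CovZ.leaf K2_ok TW_l2688 _)))
     (CovZ.n1 (1408, 640) (by decide +kernel)
      (CovZ.n2 (1408, 512) (by decide +kernel)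
       (CovZ.n2 (1344, 576) (by decide +kernel)
        (CovZ.leaf K2_ok TW_l2689 _)
        (CovZ.leaf K2_ok TW_l2690 _))
       (CovZ.leaf K2_ok TW_l2691 _))
      (CovZ.n1 (1280, 640) (by decide +kernel)
       (CovZ.n2 (1344, 704) (by decide +kernel)
        (CovZ.n2 (1344, 640) (by decide +kernel)
         (CovZ.leaf K2_ok TW_l4693 _)
         (CovZ.leaf K2_ok TW_l4694 _))
        (CovZ.n1 (1280, 704) (by decide +kernel)
         (CovZ.leaf K2_ok TW_l4695 _)
         (CovZ.leaf K2_ok TW_l4696 _)))
       (CovZ.n1 (1344, 576) (by decide +kernel)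
        (CovZ.leaf K2_ok TW_l2692 _)
        (CovZ.n1 (1344, 640) (by decide +kernel)
         (CovZ.leaf K2_ok TW_l4697 _)
         (CovZ.leaf K2_ok TW_l4698 _))))))))
    (CovZ.topM TW_LL 5 (by decide +kernel) (CovZ.n0 (1280, 768) (by decide +kernel)
    (CovZ.n2 (1024, 768) (by decide +kernel)
     (CovZ.badM (by decide +kernel))
     (CovZ.n1 (1152, 640) (by decide +kernel)
      (CovZ.n2 (1024, 640) (by decide +kernel)
       (CovZ.n2 (1088, 704) (by decide +kernel)
        (CovZ.leaf K2_ok TW_l4699 _)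
        (CovZ.leaf K2_ok TW_l4700 _))
       (CovZ.leaf K2_ok TW_l4701 _))
      (CovZ.n1 (1152, 768) (by decide +kernel)
       (CovZ.n2 (1216, 704) (by decide +kernel)
        (CovZ.leaf K2_ok TW_l4702 _)
        (CovZ.n1 (1216, 768) (by decide +kernel)
         (CovZ.leaf K2_ok TW_l4703 _)
         (CovZ.leaf K2_ok TW_l4704 _)))
       (CovZ.n1 (1088, 704) (by decide +kernel)
        (CovZ.n2 (1088, 768) (by decide +kernel)
         (CovZ.leaf K2_ok TW_l4705 _)
         (CovZ.leaf K2_ok TW_l4706 _))
        (CovZ.leaf K2_ok TW_l4707 _)))))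
    (CovZ.badM (by decide +kernel))))

theorem TW_s12_12 : SqZ TW_M TW_L [0, 7, 4, 3] (-4608) (-5632) 512 12 12 :=
  SqZ.mk (a := 1536) (b := 2048) (c := 512) (d := 1024) (by norm_num) (by norm_num) (by norm_num) (by norm_num)
    (CovZ.topM TW_LL 5 (by decide +kernel) (CovZ.n2 (1792, 768) (by decide +kernel)
    (CovZ.n2 (2048, 768) (by decide +kernel)
     (CovZ.n2 (1920, 640) (by decide +kernel)
      (CovZ.badM (by decide +kernel))
      (CovZ.n1 (2048, 640) (by decide +kernel)
       (CovZ.n2 (1984, 576) (by decide +kernel)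
        (CovZ.n2 (1984, 640) (by decide +kernel)
         (CovZ.leaf K2_ok TW_l4792 _)
         (CovZ.leaf K2_ok TW_l4793 _))
        (CovZ.n1 (2048, 576) (by decide +kernel)
         (CovZ.leaf K2_ok TW_l4794 _)
         (CovZ.leaf K2_ok TW_l4795 _)))
       (CovZ.badM (by decide +kernel))))
     (CovZ.badM (by decide +kernel)))
    (CovZ.n1 (1792, 512) (by decide +kernel)
     (CovZ.n2 (1664, 640) (by decide +kernel)
      (CovZ.n2 (1792, 640) (by decide +kernel)
       (CovZ.n2 (1728, 576) (by decide +kernel)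
        (CovZ.n2 (1728, 640) (by decide +kernel)
         (CovZ.leaf K2_ok TW_l4796 _)
         (CovZ.leaf K2_ok TW_l2735 _))
        (CovZ.leaf K2_ok TW_l4797 _))
       (CovZ.n1 (1728, 704) (by decide +kernel)
        (CovZ.n2 (1792, 704) (by decide +kernel)
         (CovZ.n2 (1760, 672) (by decide +kernel)
          (CovZ.badM (by decide +kernel))
          (CovZ.leaf K2_ok TW_l4798 _))
         (CovZ.badM (by decide +kernel)))
        (CovZ.n1 (1728, 640) (by decide +kernel)
         (CovZ.n2 (1696, 672) (by decide +kernel)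
          (CovZ.leaf K2_ok TW_l4799 _)
          (CovZ.leaf K2_ok TW_l2736 _))
         (CovZ.leaf K2_ok TW_l4800 _))))
      (CovZ.n1 (1664, 512) (by decide +kernel)
       (CovZ.n2 (1600, 576) (by decide +kernel)
        (CovZ.leaf K2_ok TW_l2737 _)
        (CovZ.leaf K2_ok TW_l2738 _))
       (CovZ.leaf K2_ok TW_l2739 _)))
     (CovZ.n1 (1920, 640) (by decide +kernel)
      (CovZ.n2 (1920, 512) (by decide +kernel)
       (CovZ.n2 (1856, 576) (by decide +kernel)
        (CovZ.leaf K2_ok TW_l4801 _)
        (CovZ.leaf K2_ok TW_l4802 _))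
       (CovZ.n1 (1984, 576) (by decide +kernel)
        (CovZ.leaf K2_ok TW_l4803 _)
        (CovZ.leaf K2_ok TW_l4804 _)))
      (CovZ.n1 (1792, 640) (by decide +kernel)
       (CovZ.n2 (1856, 704) (by decide +kernel)
        (CovZ.n2 (1856, 640) (by decide +kernel)
         (CovZ.n2 (1824, 672) (by decide +kernel)
          (CovZ.badM (by decide +kernel))
          (CovZ.leaf K2_ok TW_l4805 _))
         (CovZ.badM (by decide +kernel)))
        (CovZ.n1 (1792, 704) (by decide +kernel)
         (CovZ.badM (by decide +kernel))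
         (CovZ.n1 (1824, 672) (by decide +kernel)
          (CovZ.leaf K2_ok TW_l4806 _)
          (CovZ.badM (by decide +kernel)))))
       (CovZ.n1 (1856, 576) (by decide +kernel)
        (CovZ.leaf K2_ok TW_l4807 _)
        (CovZ.n1 (1856, 640) (by decide +kernel)
         (CovZ.leaf K2_ok TW_l4808 _)
         (CovZ.leaf K2_ok TW_l4809 _))))))))
    (CovZ.topM TW_LL 5 (by decide +kernel) (CovZ.n0 (1792, 768) (by decide +kernel)
    (CovZ.n2 (1536, 768) (by decide +kernel)
     (CovZ.badM (by decide +kernel))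
     (CovZ.n1 (1664, 640) (by decide +kernel)
      (CovZ.n2 (1536, 640) (by decide +kernel)
       (CovZ.n2 (1600, 704) (by decide +kernel)
        (CovZ.n2 (1600, 640) (by decide +kernel)
         (CovZ.n2 (1568, 672) (by decide +kernel)
          (CovZ.leaf K2_ok TW_l2740 _)
          (CovZ.leaf K2_ok TW_l2741 _))
         (CovZ.leaf K2_ok TW_l2742 _))
        (CovZ.n1 (1536, 704) (by decide +kernel)
         (CovZ.badM (by decide +kernel))
         (CovZ.n1 (1568, 672) (by decide +kernel)
          (CovZ.leaf K2_ok TW_l2744 _)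
          (CovZ.n1 (1568, 704) (by decide +kernel)
           (CovZ.leaf K2_ok TW_l2745 _)
           (CovZ.leaf K2_ok TW_l2746 _)))))
       (CovZ.n1 (1600, 576) (by decide +kernel)
        (CovZ.leaf K2_ok TW_l2747 _)
        (CovZ.n1 (1600, 640) (by decide +kernel)
         (CovZ.leaf K2_ok TW_l2748 _)
         (CovZ.leaf K2_ok TW_l2749 _))))
      (CovZ.n1 (1664, 768) (by decide +kernel)
       (CovZ.n2 (1728, 704) (by decide +kernel)
        (CovZ.n2 (1664, 704) (by decide +kernel)
         (CovZ.badM (by decide +kernel))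
         (CovZ.n1 (1696, 672) (by decide +kernel)
          (CovZ.leaf K2_ok TW_l2750 _)
          (CovZ.badM (by decide +kernel))))
        (CovZ.badM (by decide +kernel)))
       (CovZ.n1 (1600, 704) (by decide +kernel)
        (CovZ.badM (by decide +kernel))
        (CovZ.n1 (1664, 704) (by decide +kernel)
         (CovZ.n2 (1632, 672) (by decide +kernel)
          (CovZ.badM (by decide +kernel))
          (CovZ.leaf K2_ok TW_l2755 _))
         (CovZ.badM (by decide +kernel)))))))
    (CovZ.badM (by decide +kernel))))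

theorem TW_s13_12 : SqZ TW_M TW_L [0, 7, 4, 3] (-4608) (-5632) 512 13 12 :=
  SqZ.mk (a := 2048) (b := 2560) (c := 512) (d := 1024) (by norm_num) (by norm_num) (by norm_num) (by norm_num)
    (CovZ.topM TW_LL 5 (by decide +kernel) (CovZ.n2 (2304, 768) (by decide +kernel)
    (CovZ.n2 (2560, 768) (by decide +kernel)
     (CovZ.n2 (2432, 640) (by decide +kernel)
      (CovZ.badM (by decide +kernel))
      (CovZ.n1 (2560, 640) (by decide +kernel)
       (CovZ.n2 (2496, 576) (by decide +kernel)
        (CovZ.n2 (2496, 640) (by decide +kernel)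
         (CovZ.n2 (2528, 608) (by decide +kernel)
          (CovZ.leaf K2_ok TW_l4862 _)
          (CovZ.badM (by decide +kernel)))
         (CovZ.n1 (2464, 608) (by decide +kernel)
          (CovZ.badM (by decide +kernel))
          (CovZ.n1 (2496, 608) (by decide +kernel)
           (CovZ.leaf K2_ok TW_l4863 _)
           (CovZ.badM (by decide +kernel)))))
        (CovZ.n1 (2560, 576) (by decide +kernel)
         (CovZ.n2 (2528, 544) (by decide +kernel)
          (CovZ.leaf K2_ok TW_l4864 _)
          (CovZ.leaf K2_ok TW_l4865 _))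
         (CovZ.n1 (2528, 608) (by decide +kernel)
          (CovZ.n2 (2560, 608) (by decide +kernel)
           (CovZ.leaf K2_ok TW_l4866 _)
           (CovZ.badM (by decide +kernel)))
          (CovZ.n1 (2528, 576) (by decide +kernel)
           (CovZ.leaf K2_ok TW_l4867 _)
           (CovZ.leaf K2_ok TW_l4868 _)))))
       (CovZ.badM (by decide +kernel))))
     (CovZ.badM (by decide +kernel)))
    (CovZ.n1 (2304, 512) (by decide +kernel)
     (CovZ.n2 (2176, 640) (by decide +kernel)
      (CovZ.n2 (2304, 640) (by decide +kernel)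
       (CovZ.n2 (2240, 576) (by decide +kernel)
        (CovZ.n2 (2240, 640) (by decide +kernel)
         (CovZ.n2 (2272, 608) (by decide +kernel)
          (CovZ.leaf K2_ok TW_l4869 _)
          (CovZ.badM (by decide +kernel)))
         (CovZ.n1 (2208, 608) (by decide +kernel)
          (CovZ.badM (by decide +kernel))
          (CovZ.leaf K2_ok TW_l4870 _)))
        (CovZ.n1 (2304, 576) (by decide +kernel)
         (CovZ.leaf K2_ok TW_l4871 _)
         (CovZ.n1 (2272, 608) (by decide +kernel)
          (CovZ.leaf K2_ok TW_l4872 _)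
          (CovZ.leaf K2_ok TW_l4873 _))))
       (CovZ.badM (by decide +kernel)))
      (CovZ.n1 (2176, 512) (by decide +kernel)
       (CovZ.n2 (2112, 576) (by decide +kernel)
        (CovZ.n2 (2176, 576) (by decide +kernel)
         (CovZ.leaf K2_ok TW_l4874 _)
         (CovZ.n1 (2144, 608) (by decide +kernel)
          (CovZ.leaf K2_ok TW_l4875 _)
          (CovZ.leaf K2_ok TW_l4876 _)))
        (CovZ.leaf K2_ok TW_l4877 _))
       (CovZ.n1 (2240, 576) (by decide +kernel)
        (CovZ.leaf K2_ok TW_l4878 _)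
        (CovZ.leaf K2_ok TW_l4879 _))))
     (CovZ.n1 (2432, 640) (by decide +kernel)
      (CovZ.n2 (2432, 512) (by decide +kernel)
       (CovZ.n2 (2368, 576) (by decide +kernel)
        (CovZ.n2 (2432, 576) (by decide +kernel)
         (CovZ.leaf K2_ok TW_l4880 _)
         (CovZ.n1 (2400, 608) (by decide +kernel)
          (CovZ.n2 (2432, 608) (by decide +kernel)
           (CovZ.leaf K2_ok TW_l4881 _)
           (CovZ.badM (by decide +kernel)))
          (CovZ.leaf K2_ok TW_l4882 _)))
        (CovZ.n1 (2368, 512) (by decide +kernel)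
         (CovZ.leaf K2_ok TW_l4883 _)
         (CovZ.leaf K2_ok TW_l4884 _)))
       (CovZ.n1 (2496, 576) (by decide +kernel)
        (CovZ.n2 (2496, 512) (by decide +kernel)
         (CovZ.leaf K2_ok TW_l4885 _)
         (CovZ.leaf K2_ok TW_l4886 _))
        (CovZ.n1 (2432, 576) (by decide +kernel)
         (CovZ.n2 (2464, 608) (by decide +kernel)
          (CovZ.leaf K2_ok TW_l4887 _)
          (CovZ.leaf K2_ok TW_l4888 _))
         (CovZ.leaf K2_ok TW_l4889 _))))
      (CovZ.n1 (2304, 640) (by decide +kernel)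
       (CovZ.badM (by decide +kernel))
       (CovZ.n1 (2368, 576) (by decide +kernel)
        (CovZ.n2 (2304, 576) (by decide +kernel)
         (CovZ.leaf K2_ok TW_l4890 _)
         (CovZ.leaf K2_ok TW_l4891 _))
        (CovZ.n1 (2368, 640) (by decide +kernel)
         (CovZ.n2 (2400, 608) (by decide +kernel)
          (CovZ.leaf K2_ok TW_l4892 _)
          (CovZ.badM (by decide +kernel)))
         (CovZ.n1 (2336, 608) (by decide +kernel)
          (CovZ.badM (by decide +kernel))
          (CovZ.leaf K2_ok TW_l4893 _)))))))))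
    (CovZ.topM TW_LL 5 (by decide +kernel) (CovZ.n0 (2304, 768) (by decide +kernel)
    (CovZ.n2 (2048, 768) (by decide +kernel)
     (CovZ.badM (by decide +kernel))
     (CovZ.n1 (2176, 640) (by decide +kernel)
      (CovZ.n2 (2048, 640) (by decide +kernel)
       (CovZ.badM (by decide +kernel))
       (CovZ.n1 (2112, 576) (by decide +kernel)
        (CovZ.leaf K2_ok TW_l4894 _)
        (CovZ.n1 (2112, 640) (by decide +kernel)
         (CovZ.n2 (2144, 608) (by decide +kernel)
          (CovZ.leaf K2_ok TW_l4895 _)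
          (CovZ.badM (by decide +kernel)))
         (CovZ.n1 (2080, 608) (by decide +kernel)
          (CovZ.badM (by decide +kernel))
          (CovZ.leaf K2_ok TW_l4896 _)))))
      (CovZ.badM (by decide +kernel))))
    (CovZ.badM (by decide +kernel))))

theorem TW_s14_12 : SqZ TW_M TW_L [0, 7, 4, 3] (-4608) (-5632) 512 14 12 :=
  SqZ.mk (a := 2560) (b := 3072) (c := 512) (d := 1024) (by norm_num) (by norm_num) (by norm_num) (by norm_num)
    (CovZ.topM TW_LL 5 (by decide +kernel) (CovZ.n2 (2816, 768) (by decide +kernel)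
    (CovZ.n2 (3072, 768) (by decide +kernel)
     (CovZ.n2 (2944, 640) (by decide +kernel)
      (CovZ.badM (by decide +kernel))
      (CovZ.n1 (3072, 640) (by decide +kernel)
       (CovZ.n2 (3008, 576) (by decide +kernel)
        (CovZ.n2 (3008, 640) (by decide +kernel)
         (CovZ.n2 (3040, 608) (by decide +kernel)
          (CovZ.n2 (3008, 608) (by decide +kernel)
           (CovZ.badM (by decide +kernel))
           (CovZ.n1 (3024, 592) (by decide +kernel)
            (CovZ.n2 (3008, 592) (by decide +kernel)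
             (CovZ.badM (by decide +kernel))
             (CovZ.leaf K2_ok TW_l4953 _))
            (CovZ.badM (by decide +kernel))))
          (CovZ.badM (by decide +kernel)))
         (CovZ.n1 (2976, 608) (by decide +kernel)
          (CovZ.badM (by decide +kernel))
          (CovZ.n1 (3008, 608) (by decide +kernel)
           (CovZ.n2 (2992, 592) (by decide +kernel)
            (CovZ.badM (by decide +kernel))
            (CovZ.n1 (3008, 592) (by decide +kernel)
             (CovZ.leaf K2_ok TW_l4954 _)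
             (CovZ.badM (by decide +kernel))))
           (CovZ.badM (by decide +kernel)))))
        (CovZ.badM (by decide +kernel)))
       (CovZ.badM (by decide +kernel))))
     (CovZ.badM (by decide +kernel)))
    (CovZ.n1 (2816, 512) (by decide +kernel)
     (CovZ.n2 (2688, 640) (by decide +kernel)
      (CovZ.n2 (2816, 640) (by decide +kernel)
       (CovZ.n2 (2752, 576) (by decide +kernel)
        (CovZ.n2 (2752, 640) (by decide +kernel)
         (CovZ.n2 (2784, 608) (by decide +kernel)
          (CovZ.n2 (2752, 608) (by decide +kernel)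
           (CovZ.badM (by decide +kernel))
           (CovZ.n1 (2768, 592) (by decide +kernel)
            (CovZ.leaf K2_ok TW_l4955 _)
            (CovZ.badM (by decide +kernel))))
          (CovZ.badM (by decide +kernel)))
         (CovZ.n1 (2720, 608) (by decide +kernel)
          (CovZ.badM (by decide +kernel))
          (CovZ.n1 (2752, 608) (by decide +kernel)
           (CovZ.n2 (2736, 592) (by decide +kernel)
            (CovZ.badM (by decide +kernel))
            (CovZ.leaf K2_ok TW_l4956 _))
           (CovZ.badM (by decide +kernel)))))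
        (CovZ.n1 (2816, 576) (by decide +kernel)
         (CovZ.n2 (2784, 544) (by decide +kernel)
          (CovZ.n2 (2784, 576) (by decide +kernel)
           (CovZ.leaf K2_ok TW_l4957 _)
           (CovZ.leaf K2_ok TW_l4958 _))
          (CovZ.leaf K2_ok TW_l4959 _))
         (CovZ.n1 (2784, 608) (by decide +kernel)
          (CovZ.n2 (2816, 608) (by decide +kernel)
           (CovZ.n2 (2800, 592) (by decide +kernel)
            (CovZ.badM (by decide +kernel))
            (CovZ.leaf K2_ok TW_l4960 _))
           (CovZ.badM (by decide +kernel)))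
          (CovZ.n1 (2784, 576) (by decide +kernel)
           (CovZ.n2 (2768, 592) (by decide +kernel)
            (CovZ.leaf K2_ok TW_l4961 _)
            (CovZ.leaf K2_ok TW_l4962 _))
           (CovZ.leaf K2_ok TW_l4963 _)))))
       (CovZ.badM (by decide +kernel)))
      (CovZ.n1 (2688, 512) (by decide +kernel)
       (CovZ.n2 (2624, 576) (by decide +kernel)
        (CovZ.n2 (2688, 576) (by decide +kernel)
         (CovZ.n2 (2656, 544) (by decide +kernel)
          (CovZ.n2 (2656, 576) (by decide +kernel)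
           (CovZ.leaf K2_ok TW_l4964 _)
           (CovZ.leaf K2_ok TW_l4965 _))
          (CovZ.leaf K2_ok TW_l4966 _))
         (CovZ.n1 (2656, 608) (by decide +kernel)
          (CovZ.n2 (2688, 608) (by decide +kernel)
           (CovZ.n2 (2672, 592) (by decide +kernel)
            (CovZ.badM (by decide +kernel))
            (CovZ.leaf K2_ok TW_l4967 _))
           (CovZ.badM (by decide +kernel)))
          (CovZ.n1 (2656, 576) (by decide +kernel)
           (CovZ.leaf K2_ok TW_l4968 _)
           (CovZ.leaf K2_ok TW_l4969 _))))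
        (CovZ.n1 (2624, 512) (by decide +kernel)
         (CovZ.n2 (2592, 544) (by decide +kernel)
          (CovZ.leaf K2_ok TW_l4970 _)
          (CovZ.leaf K2_ok TW_l4971 _))
         (CovZ.leaf K2_ok TW_l4972 _)))
       (CovZ.n1 (2752, 576) (by decide +kernel)
        (CovZ.n2 (2752, 512) (by decide +kernel)
         (CovZ.n2 (2720, 544) (by decide +kernel)
          (CovZ.leaf K2_ok TW_l4973 _)
          (CovZ.leaf K2_ok TW_l4974 _))
         (CovZ.leaf K2_ok TW_l4975 _))
        (CovZ.n1 (2688, 576) (by decide +kernel)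
         (CovZ.n2 (2720, 608) (by decide +kernel)
          (CovZ.n2 (2720, 576) (by decide +kernel)
           (CovZ.n2 (2704, 592) (by decide +kernel)
            (CovZ.leaf K2_ok TW_l4976 _)
            (CovZ.leaf K2_ok TW_l4977 _))
           (CovZ.leaf K2_ok TW_l4978 _))
          (CovZ.n1 (2688, 608) (by decide +kernel)
           (CovZ.badM (by decide +kernel))
           (CovZ.n1 (2704, 592) (by decide +kernel)
            (CovZ.leaf K2_ok TW_l4979 _)
            (CovZ.badM (by decide +kernel)))))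
         (CovZ.n1 (2720, 544) (by decide +kernel)
          (CovZ.leaf K2_ok TW_l4980 _)
          (CovZ.n1 (2720, 576) (by decide +kernel)
           (CovZ.leaf K2_ok TW_l4981 _)
           (CovZ.leaf K2_ok TW_l4982 _)))))))
     (CovZ.n1 (2944, 640) (by decide +kernel)
      (CovZ.n2 (2944, 512) (by decide +kernel)
       (CovZ.n2 (2880, 576) (by decide +kernel)
        (CovZ.n2 (2944, 576) (by decide +kernel)
         (CovZ.n2 (2912, 544) (by decide +kernel)
          (CovZ.n2 (2912, 576) (by decide +kernel)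
           (CovZ.leaf K2_ok TW_l4983 _)
           (CovZ.n1 (2896, 560) (by decide +kernel)
            (CovZ.leaf K2_ok TW_l4984 _)
            (CovZ.leaf K2_ok TW_l4985 _)))
          (CovZ.n1 (2944, 544) (by decide +kernel)
           (CovZ.leaf K2_ok TW_l4986 _)
           (CovZ.leaf K2_ok TW_l4987 _)))
         (CovZ.n1 (2912, 608) (by decide +kernel)
          (CovZ.n2 (2944, 608) (by decide +kernel)
           (CovZ.n2 (2928, 592) (by decide +kernel)
            (CovZ.badM (by decide +kernel))
            (CovZ.n1 (2944, 592) (by decide +kernel)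
             (CovZ.leaf K2_ok TW_l4988 _)
             (CovZ.badM (by decide +kernel))))
           (CovZ.badM (by decide +kernel)))
          (CovZ.n1 (2912, 576) (by decide +kernel)
           (CovZ.n2 (2896, 592) (by decide +kernel)
            (CovZ.n2 (2912, 592) (by decide +kernel)
             (CovZ.leaf K2_ok TW_l4989 _)
             (CovZ.badM (by decide +kernel)))
            (CovZ.leaf K2_ok TW_l4990 _))
           (CovZ.n1 (2928, 592) (by decide +kernel)
            (CovZ.leaf K2_ok TW_l4991 _)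
            (CovZ.n1 (2912, 592) (by decide +kernel)
             (CovZ.badM (by decide +kernel))
             (CovZ.leaf K2_ok TW_l4992 _))))))
        (CovZ.n1 (2880, 512) (by decide +kernel)
         (CovZ.n2 (2848, 544) (by decide +kernel)
          (CovZ.n2 (2880, 544) (by decide +kernel)
           (CovZ.leaf K2_ok TW_l4993 _)
           (CovZ.leaf K2_ok TW_l4994 _))
          (CovZ.leaf K2_ok TW_l4995 _))
         (CovZ.n1 (2912, 544) (by decide +kernel)
          (CovZ.leaf K2_ok TW_l4996 _)
          (CovZ.leaf K2_ok TW_l4997 _))))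
       (CovZ.n1 (3008, 576) (by decide +kernel)
        (CovZ.n2 (3008, 512) (by decide +kernel)
         (CovZ.n2 (2976, 544) (by decide +kernel)
          (CovZ.badM (by decide +kernel))
          (CovZ.leaf K2_ok TW_l4998 _))
         (CovZ.badM (by decide +kernel)))
        (CovZ.n1 (2944, 576) (by decide +kernel)
         (CovZ.n2 (2976, 608) (by decide +kernel)
          (CovZ.n2 (2976, 576) (by decide +kernel)
           (CovZ.n2 (2960, 592) (by decide +kernel)
            (CovZ.n2 (2976, 592) (by decide +kernel)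
             (CovZ.leaf K2_ok TW_l4999 _)
             (CovZ.badM (by decide +kernel)))
            (CovZ.n1 (2960, 576) (by decide +kernel)
             (CovZ.leaf K2_ok TW_l5000 _)
             (CovZ.leaf K2_ok TW_l5001 _)))
           (CovZ.n1 (2992, 592) (by decide +kernel)
            (CovZ.n2 (2992, 576) (by decide +kernel)
             (CovZ.leaf K2_ok TW_l5002 _)
             (CovZ.leaf K2_ok TW_l5003 _))
            (CovZ.n1 (2976, 592) (by decide +kernel)
             (CovZ.badM (by decide +kernel))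
             (CovZ.leaf K2_ok TW_l5004 _))))
          (CovZ.n1 (2944, 608) (by decide +kernel)
           (CovZ.badM (by decide +kernel))
           (CovZ.n1 (2960, 592) (by decide +kernel)
            (CovZ.n2 (2944, 592) (by decide +kernel)
             (CovZ.badM (by decide +kernel))
             (CovZ.leaf K2_ok TW_l5005 _))
            (CovZ.badM (by decide +kernel)))))
         (CovZ.n1 (2976, 544) (by decide +kernel)
          (CovZ.leaf K2_ok TW_l5006 _)
          (CovZ.n1 (2976, 576) (by decide +kernel)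
           (CovZ.n2 (2992, 560) (by decide +kernel)
            (CovZ.leaf K2_ok TW_l5007 _)
            (CovZ.leaf K2_ok TW_l5008 _))
           (CovZ.n1 (2960, 560) (by decide +kernel)
            (CovZ.leaf K2_ok TW_l5009 _)
            (CovZ.leaf K2_ok TW_l5010 _)))))))
      (CovZ.n1 (2816, 640) (by decide +kernel)
       (CovZ.badM (by decide +kernel))
       (CovZ.n1 (2880, 576) (by decide +kernel)
        (CovZ.n2 (2816, 576) (by decide +kernel)
         (CovZ.n2 (2848, 608) (by decide +kernel)
          (CovZ.n2 (2848, 576) (by decide +kernel)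
           (CovZ.n2 (2832, 592) (by decide +kernel)
            (CovZ.n2 (2848, 592) (by decide +kernel)
             (CovZ.leaf K2_ok TW_l5011 _)
             (CovZ.badM (by decide +kernel)))
            (CovZ.leaf K2_ok TW_l5012 _))
           (CovZ.n1 (2864, 592) (by decide +kernel)
            (CovZ.leaf K2_ok TW_l5013 _)
            (CovZ.leaf K2_ok TW_l5014 _)))
          (CovZ.n1 (2816, 608) (by decide +kernel)
           (CovZ.badM (by decide +kernel))
           (CovZ.n1 (2832, 592) (by decide +kernel)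
            (CovZ.leaf K2_ok TW_l5015 _)
            (CovZ.badM (by decide +kernel)))))
         (CovZ.n1 (2848, 544) (by decide +kernel)
          (CovZ.leaf K2_ok TW_l5016 _)
          (CovZ.n1 (2848, 576) (by decide +kernel)
           (CovZ.leaf K2_ok TW_l5017 _)
           (CovZ.leaf K2_ok TW_l5018 _))))
        (CovZ.n1 (2880, 640) (by decide +kernel)
         (CovZ.n2 (2912, 608) (by decide +kernel)
          (CovZ.n2 (2880, 608) (by decide +kernel)
           (CovZ.badM (by decide +kernel))
           (CovZ.n1 (2896, 592) (by decide +kernel)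
            (CovZ.leaf K2_ok TW_l5019 _)
            (CovZ.badM (by decide +kernel))))
          (CovZ.badM (by decide +kernel)))
         (CovZ.n1 (2848, 608) (by decide +kernel)
          (CovZ.badM (by decide +kernel))
          (CovZ.n1 (2880, 608) (by decide +kernel)
           (CovZ.n2 (2864, 592) (by decide +kernel)
            (CovZ.badM (by decide +kernel))
            (CovZ.n1 (2880, 592) (by decide +kernel)
             (CovZ.leaf K2_ok TW_l5020 _)
             (CovZ.badM (by decide +kernel))))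
           (CovZ.badM (by decide +kernel)))))))))))
    (CovZ.topM TW_LL 5 (by decide +kernel) (CovZ.n0 (2816, 768) (by decide +kernel)
    (CovZ.n2 (2560, 768) (by decide +kernel)
     (CovZ.badM (by decide +kernel))
     (CovZ.n1 (2688, 640) (by decide +kernel)
      (CovZ.n2 (2560, 640) (by decide +kernel)
       (CovZ.badM (by decide +kernel))
       (CovZ.n1 (2624, 576) (by decide +kernel)
        (CovZ.n2 (2560, 576) (by decide +kernel)
         (CovZ.n2 (2592, 608) (by decide +kernel)
          (CovZ.n2 (2592, 576) (by decide +kernel)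
           (CovZ.leaf K2_ok TW_l5021 _)
           (CovZ.leaf K2_ok TW_l5022 _))
          (CovZ.n1 (2560, 608) (by decide +kernel)
           (CovZ.badM (by decide +kernel))
           (CovZ.leaf K2_ok TW_l5023 _)))
         (CovZ.n1 (2592, 544) (by decide +kernel)
          (CovZ.leaf K2_ok TW_l5024 _)
          (CovZ.leaf K2_ok TW_l5025 _)))
        (CovZ.n1 (2624, 640) (by decide +kernel)
         (CovZ.n2 (2656, 608) (by decide +kernel)
          (CovZ.n2 (2624, 608) (by decide +kernel)
           (CovZ.badM (by decide +kernel))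
           (CovZ.leaf K2_ok TW_l5026 _))
          (CovZ.badM (by decide +kernel)))
         (CovZ.n1 (2592, 608) (by decide +kernel)
          (CovZ.badM (by decide +kernel))
          (CovZ.n1 (2624, 608) (by decide +kernel)
           (CovZ.n2 (2608, 592) (by decide +kernel)
            (CovZ.badM (by decide +kernel))
            (CovZ.leaf K2_ok TW_l5027 _))
           (CovZ.badM (by decide +kernel)))))))
      (CovZ.badM (by decide +kernel))))
    (CovZ.badM (by decide +kernel))))

theorem TW_s15_12 : SqZ TW_M TW_L [0, 7, 4, 3] (-4608) (-5632) 512 15 12 :=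
  SqZ.mk (a := 3072) (b := 3584) (c := 512) (d := 1024) (by norm_num) (by norm_num) (by norm_num) (by norm_num)
    (CovZ.topM TW_LL 0 (by decide +kernel) (CovZ.badM (by decide +kernel)))
    (CovZ.topM TW_LL 4 (by decide +kernel) (CovZ.n0 (3328, 768) (by decide +kernel)
    (CovZ.n2 (3072, 768) (by decide +kernel)
     (CovZ.badM (by decide +kernel))
     (CovZ.n1 (3200, 640) (by decide +kernel)
      (CovZ.n2 (3072, 640) (by decide +kernel)
       (CovZ.badM (by decide +kernel))
       (CovZ.badM (by decide +kernel)))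
      (CovZ.badM (by decide +kernel))))
    (CovZ.badM (by decide +kernel))))

theorem TW_s16_12 : SqZ TW_M TW_L [0, 7, 4, 3] (-4608) (-5632) 512 16 12 :=
  SqZ.mk (a := 3584) (b := 4096) (c := 512) (d := 1024) (by norm_num) (by norm_num) (by norm_num) (by norm_num)
    (CovZ.topM TW_LL 0 (by decide +kernel) (CovZ.badM (by decide +kernel)))
    (CovZ.topM TW_LL 0 (by decide +kernel) (CovZ.badM (by decide +kernel)))

theorem TW_s0_13 : SqZ TW_M TW_L [0, 7, 4, 3] (-4608) (-5632) 512 0 13 :=
  SqZ.mk (a := (-4608)) (b := (-4096)) (c := 1024) (d := 1536) (by norm_num) (by norm_num) (by norm_num) (by norm_num)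
    (CovZ.topM TW_LL 0 (by decide +kernel) (CovZ.badM (by decide +kernel)))
    (CovZ.topM TW_LL 0 (by decide +kernel) (CovZ.badM (by decide +kernel)))

theorem TW_s1_13 : SqZ TW_M TW_L [0, 7, 4, 3] (-4608) (-5632) 512 1 13 :=
  SqZ.mk (a := (-4096)) (b := (-3584)) (c := 1024) (d := 1536) (by norm_num) (by norm_num) (by norm_num) (by norm_num)
    (CovZ.topM TW_LL 0 (by decide +kernel) (CovZ.badM (by decide +kernel)))
    (CovZ.topM TW_LL 0 (by decide +kernel) (CovZ.badM (by decide +kernel)))

theorem TW_s2_13 : SqZ TW_M TW_L [0, 7, 4, 3] (-4608) (-5632) 512 2 13 :=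
  SqZ.mk (a := (-3584)) (b := (-3072)) (c := 1024) (d := 1536) (by norm_num) (by norm_num) (by norm_num) (by norm_num)
    (CovZ.topM TW_LL 0 (by decide +kernel) (CovZ.badM (by decide +kernel)))
    (CovZ.topM TW_LL 0 (by decide +kernel) (CovZ.badM (by decide +kernel)))

theorem TW_s3_13 : SqZ TW_M TW_L [0, 7, 4, 3] (-4608) (-5632) 512 3 13 :=
  SqZ.mk (a := (-3072)) (b := (-2560)) (c := 1024) (d := 1536) (by norm_num) (by norm_num) (by norm_num) (by norm_num)
    (CovZ.topM TW_LL 0 (by decide +kernel) (CovZ.badM (by decide +kernel)))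
    (CovZ.topM TW_LL 0 (by decide +kernel) (CovZ.badM (by decide +kernel)))

theorem TW_s4_13 : SqZ TW_M TW_L [0, 7, 4, 3] (-4608) (-5632) 512 4 13 :=
  SqZ.mk (a := (-2560)) (b := (-2048)) (c := 1024) (d := 1536) (by norm_num) (by norm_num) (by norm_num) (by norm_num)
    (CovZ.topM TW_LL 0 (by decide +kernel) (CovZ.badM (by decide +kernel)))
    (CovZ.topM TW_LL 0 (by decide +kernel) (CovZ.badM (by decide +kernel)))

theorem TW_s5_13 : SqZ TW_M TW_L [0, 7, 4, 3] (-4608) (-5632) 512 5 13 :=
  SqZ.mk (a := (-2048)) (b := (-1536)) (c := 1024) (d := 1536) (by norm_num) (by norm_num) (by norm_num) (by norm_num)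
    (CovZ.topM TW_LL 0 (by decide +kernel) (CovZ.badM (by decide +kernel)))
    (CovZ.topM TW_LL 0 (by decide +kernel) (CovZ.badM (by decide +kernel)))

theorem TW_s6_13 : SqZ TW_M TW_L [0, 7, 4, 3] (-4608) (-5632) 512 6 13 :=
  SqZ.mk (a := (-1536)) (b := (-1024)) (c := 1024) (d := 1536) (by norm_num) (by norm_num) (by norm_num) (by norm_num)
    (CovZ.topM TW_LL 0 (by decide +kernel) (CovZ.badM (by decide +kernel)))
    (CovZ.topM TW_LL 0 (by decide +kernel) (CovZ.badM (by decide +kernel)))

theorem TW_s7_13 : SqZ TW_M TW_L [0, 7, 4, 3] (-4608) (-5632) 512 7 13 :=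
  SqZ.mk (a := (-1024)) (b := (-512)) (c := 1024) (d := 1536) (by norm_num) (by norm_num) (by norm_num) (by norm_num)
    (CovZ.topM TW_LL 3 (by decide +kernel) (CovZ.n2 (-768, 1280) (by decide +kernel)
    (CovZ.n2 (-512, 1280) (by decide +kernel)
     (CovZ.n2 (-640, 1152) (by decide +kernel)
      (CovZ.n2 (-640, 1280) (by decide +kernel)
       (CovZ.leaf K2_ok TW_l3905 _)
       (CovZ.n1 (-704, 1216) (by decide +kernel)
        (CovZ.leaf K2_ok TW_l3906 _)
        (CovZ.leaf K2_ok TW_l3907 _)))
      (CovZ.leaf K2_ok TW_l3908 _))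
     (CovZ.n1 (-640, 1408) (by decide +kernel)
      (CovZ.n2 (-512, 1408) (by decide +kernel)
       (CovZ.n2 (-576, 1344) (by decide +kernel)
        (CovZ.leaf K2_ok TW_l3909 _)
        (CovZ.leaf K2_ok TW_l3910 _))
       (CovZ.n1 (-576, 1472) (by decide +kernel)
        (CovZ.leaf K2_ok TW_l3911 _)
        (CovZ.leaf K2_ok TW_l3912 _)))
      (CovZ.n1 (-640, 1280) (by decide +kernel)
       (CovZ.n2 (-704, 1344) (by decide +kernel)
        (CovZ.leaf K2_ok TW_l3913 _)
        (CovZ.leaf K2_ok TW_l3914 _))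
       (CovZ.leaf K2_ok TW_l3915 _))))
    (CovZ.n1 (-768, 1024) (by decide +kernel)
     (CovZ.n2 (-896, 1152) (by decide +kernel)
      (CovZ.n2 (-768, 1152) (by decide +kernel)
       (CovZ.n2 (-832, 1088) (by decide +kernel)
        (CovZ.badM (by decide +kernel))
        (CovZ.leaf K2_ok TW_l3916 _))
       (CovZ.badM (by decide +kernel)))
      (CovZ.n1 (-896, 1024) (by decide +kernel)
       (CovZ.n2 (-960, 1088) (by decide +kernel)
        (CovZ.n2 (-896, 1088) (by decide +kernel)
         (CovZ.leaf K2_ok TW_l3917 _)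
         (CovZ.badM (by decide +kernel)))
        (CovZ.n1 (-960, 1024) (by decide +kernel)
         (CovZ.badM (by decide +kernel))
         (CovZ.leaf K2_ok TW_l3918 _)))
       (CovZ.leaf K2_ok TW_l3919 _)))
     (CovZ.n1 (-640, 1152) (by decide +kernel)
      (CovZ.leaf K2_ok TW_l3920 _)
      (CovZ.n1 (-768, 1152) (by decide +kernel)
       (CovZ.leaf K2_ok TW_l3921 _)
       (CovZ.leaf K2_ok TW_l3922 _))))))
    (CovZ.topM TW_LL 1 (by decide +kernel) (CovZ.n0 (-768, 1280) (by decide +kernel)
    (CovZ.n2 (-1024, 1280) (by decide +kernel)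
     (CovZ.badM (by decide +kernel))
     (CovZ.n1 (-896, 1152) (by decide +kernel)
      (CovZ.badM (by decide +kernel))
      (CovZ.badM (by decide +kernel))))
    (CovZ.badM (by decide +kernel))))

theorem TW_s8_13 : SqZ TW_M TW_L [0, 7, 4, 3] (-4608) (-5632) 512 8 13 :=
  SqZ.mk (a := (-512)) (b := 0) (c := 1024) (d := 1536) (by norm_num) (by norm_num) (by norm_num) (by norm_num)
    (CovZ.topM TW_LL 2 (by decide +kernel) (CovZ.n2 (-256, 1280) (by decide +kernel)
    (CovZ.n2 (0, 1280) (by decide +kernel)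
     (CovZ.leaf K2_ok TW_l3941 _)
     (CovZ.leaf K2_ok TW_l3942 _))
    (CovZ.n1 (-256, 1024) (by decide +kernel)
     (CovZ.leaf K2_ok TW_l3943 _)
     (CovZ.leaf K2_ok TW_l3944 _))))
    (CovZ.topM TW_LL 2 (by decide +kernel) (CovZ.n0 (-256, 1280) (by decide +kernel)
    (CovZ.n2 (-512, 1280) (by decide +kernel)
     (CovZ.leaf K2_ok TW_l3945 _)
     (CovZ.leaf K2_ok TW_l3946 _))
    (CovZ.n1 (-256, 1536) (by decide +kernel)
     (CovZ.leaf K2_ok TW_l3947 _)
     (CovZ.n1 (-384, 1408) (by decide +kernel)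
      (CovZ.n2 (-384, 1536) (by decide +kernel)
       (CovZ.leaf K2_ok TW_l3948 _)
       (CovZ.leaf K2_ok TW_l3949 _))
      (CovZ.leaf K2_ok TW_l3950 _)))))

theorem TW_s9_13 : SqZ TW_M TW_L [0, 7, 4, 3] (-4608) (-5632) 512 9 13 :=
  SqZ.mk (a := 0) (b := 512) (c := 1024) (d := 1536) (by norm_num) (by norm_num) (by norm_num) (by norm_num)
    (CovZ.topM TW_LL 2 (by decide +kernel) (CovZ.n2 (256, 1280) (by decide +kernel)
    (CovZ.n2 (512, 1280) (by decide +kernel)
     (CovZ.leaf K2_ok TW_l4029 _)
     (CovZ.leaf K2_ok TW_l4030 _))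
    (CovZ.leaf K2_ok TW_l4031 _)))
    (CovZ.topM TW_LL 2 (by decide +kernel) (CovZ.n0 (256, 1280) (by decide +kernel)
    (CovZ.leaf K2_ok TW_l4032 _)
    (CovZ.n1 (256, 1536) (by decide +kernel)
     (CovZ.leaf K2_ok TW_l4033 _)
     (CovZ.leaf K2_ok TW_l4034 _))))

theorem TW_s10_13 : SqZ TW_M TW_L [0, 7, 4, 3] (-4608) (-5632) 512 10 13 :=
  SqZ.mk (a := 512) (b := 1024) (c := 1024) (d := 1536) (by norm_num) (by norm_num) (by norm_num) (by norm_num)
    (CovZ.topM TW_LL 2 (by decide +kernel) (CovZ.n2 (768, 1280) (by decide +kernel)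
    (CovZ.badM (by decide +kernel))
    (CovZ.n1 (768, 1024) (by decide +kernel)
     (CovZ.n2 (640, 1152) (by decide +kernel)
      (CovZ.n2 (768, 1152) (by decide +kernel)
       (CovZ.leaf K2_ok TW_l4436 _)
       (CovZ.leaf K2_ok TW_l4437 _))
      (CovZ.leaf K2_ok TW_l4438 _))
     (CovZ.n1 (896, 1152) (by decide +kernel)
      (CovZ.n2 (896, 1024) (by decide +kernel)
       (CovZ.n2 (832, 1088) (by decide +kernel)
        (CovZ.badM (by decide +kernel))
        (CovZ.leaf K2_ok TW_l4439 _))
       (CovZ.badM (by decide +kernel)))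
      (CovZ.n1 (768, 1152) (by decide +kernel)
       (CovZ.badM (by decide +kernel))
       (CovZ.n1 (832, 1088) (by decide +kernel)
        (CovZ.leaf K2_ok TW_l4440 _)
        (CovZ.badM (by decide +kernel))))))))
    (CovZ.topM TW_LL 2 (by decide +kernel) (CovZ.n0 (768, 1280) (by decide +kernel)
    (CovZ.n2 (512, 1280) (by decide +kernel)
     (CovZ.n2 (640, 1408) (by decide +kernel)
      (CovZ.leaf K2_ok TW_l4441 _)
      (CovZ.leaf K2_ok TW_l4442 _))
     (CovZ.n1 (640, 1152) (by decide +kernel)
      (CovZ.leaf K2_ok TW_l4443 _)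
      (CovZ.leaf K2_ok TW_l4444 _)))
    (CovZ.n1 (768, 1536) (by decide +kernel)
     (CovZ.badM (by decide +kernel))
     (CovZ.n1 (640, 1408) (by decide +kernel)
      (CovZ.n2 (640, 1536) (by decide +kernel)
       (CovZ.n2 (704, 1472) (by decide +kernel)
        (CovZ.leaf K2_ok TW_l4445 _)
        (CovZ.n1 (704, 1536) (by decide +kernel)
         (CovZ.badM (by decide +kernel))
         (CovZ.n1 (672, 1504) (by decide +kernel)
          (CovZ.leaf K2_ok TW_l4446 _)
          (CovZ.badM (by decide +kernel)))))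
       (CovZ.n1 (576, 1472) (by decide +kernel)
        (CovZ.leaf K2_ok TW_l4447 _)
        (CovZ.leaf K2_ok TW_l4448 _)))
      (CovZ.n1 (768, 1408) (by decide +kernel)
       (CovZ.n2 (704, 1344) (by decide +kernel)
        (CovZ.leaf K2_ok TW_l4449 _)
        (CovZ.n1 (768, 1344) (by decide +kernel)
         (CovZ.leaf K2_ok TW_l4450 _)
         (CovZ.leaf K2_ok TW_l4451 _)))
       (CovZ.n1 (704, 1472) (by decide +kernel)
        (CovZ.badM (by decide +kernel))
        (CovZ.leaf K2_ok TW_l4452 _)))))))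

theorem TW_s11_13 : SqZ TW_M TW_L [0, 7, 4, 3] (-4608) (-5632) 512 11 13 :=
  SqZ.mk (a := 1024) (b := 1536) (c := 1024) (d := 1536) (by norm_num) (by norm_num) (by norm_num) (by norm_num)
    (CovZ.topM TW_LL 0 (by decide +kernel) (CovZ.badM (by decide +kernel)))
    (CovZ.topM TW_LL 0 (by decide +kernel) (CovZ.badM (by decide +kernel)))

theorem TW_s12_13 : SqZ TW_M TW_L [0, 7, 4, 3] (-4608) (-5632) 512 12 13 :=
  SqZ.mk (a := 1536) (b := 2048) (c := 1024) (d := 1536) (by norm_num) (by norm_num) (by norm_num) (by norm_num)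
    (CovZ.topM TW_LL 0 (by decide +kernel) (CovZ.badM (by decide +kernel)))
    (CovZ.topM TW_LL 0 (by decide +kernel) (CovZ.badM (by decide +kernel)))

theorem TW_s13_13 : SqZ TW_M TW_L [0, 7, 4, 3] (-4608) (-5632) 512 13 13 :=
  SqZ.mk (a := 2048) (b := 2560) (c := 1024) (d := 1536) (by norm_num) (by norm_num) (by norm_num) (by norm_num)
    (CovZ.topM TW_LL 0 (by decide +kernel) (CovZ.badM (by decide +kernel)))
    (CovZ.topM TW_LL 0 (by decide +kernel) (CovZ.badM (by decide +kernel)))

theorem TW_s14_13 : SqZ TW_M TW_L [0, 7, 4, 3] (-4608) (-5632) 512 14 13 :=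
  SqZ.mk (a := 2560) (b := 3072) (c := 1024) (d := 1536) (by norm_num) (by norm_num) (by norm_num) (by norm_num)
    (CovZ.topM TW_LL 0 (by decide +kernel) (CovZ.badM (by decide +kernel)))
    (CovZ.topM TW_LL 0 (by decide +kernel) (CovZ.badM (by decide +kernel)))

theorem TW_s15_13 : SqZ TW_M TW_L [0, 7, 4, 3] (-4608) (-5632) 512 15 13 :=
  SqZ.mk (a := 3072) (b := 3584) (c := 1024) (d := 1536) (by norm_num) (by norm_num) (by norm_num) (by norm_num)
    (CovZ.topM TW_LL 0 (by decide +kernel) (CovZ.badM (by decide +kernel)))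
    (CovZ.topM TW_LL 0 (by decide +kernel) (CovZ.badM (by decide +kernel)))

theorem TW_s16_13 : SqZ TW_M TW_L [0, 7, 4, 3] (-4608) (-5632) 512 16 13 :=
  SqZ.mk (a := 3584) (b := 4096) (c := 1024) (d := 1536) (by norm_num) (by norm_num) (by norm_num) (by norm_num)
    (CovZ.topM TW_LL 0 (by decide +kernel) (CovZ.badM (by decide +kernel)))
    (CovZ.topM TW_LL 0 (by decide +kernel) (CovZ.badM (by decide +kernel)))

theorem TW_s0_14 : SqZ TW_M TW_L [0, 7, 4, 3] (-4608) (-5632) 512 0 14 :=
  SqZ.mk (a := (-4608)) (b := (-4096)) (c := 1536) (d := 2048) (by norm_num) (by norm_num) (by norm_num) (by norm_num)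
    (CovZ.topM TW_LL 0 (by decide +kernel) (CovZ.badM (by decide +kernel)))
    (CovZ.topM TW_LL 0 (by decide +kernel) (CovZ.badM (by decide +kernel)))

theorem TW_s1_14 : SqZ TW_M TW_L [0, 7, 4, 3] (-4608) (-5632) 512 1 14 :=
  SqZ.mk (a := (-4096)) (b := (-3584)) (c := 1536) (d := 2048) (by norm_num) (by norm_num) (by norm_num) (by norm_num)
    (CovZ.topM TW_LL 0 (by decide +kernel) (CovZ.badM (by decide +kernel)))
    (CovZ.topM TW_LL 0 (by decide +kernel) (CovZ.badM (by decide +kernel)))

theorem TW_s2_14 : SqZ TW_M TW_L [0, 7, 4, 3] (-4608) (-5632) 512 2 14 :=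
  SqZ.mk (a := (-3584)) (b := (-3072)) (c := 1536) (d := 2048) (by norm_num) (by norm_num) (by norm_num) (by norm_num)
    (CovZ.topM TW_LL 0 (by decide +kernel) (CovZ.badM (by decide +kernel)))
    (CovZ.topM TW_LL 0 (by decide +kernel) (CovZ.badM (by decide +kernel)))

theorem TW_s3_14 : SqZ TW_M TW_L [0, 7, 4, 3] (-4608) (-5632) 512 3 14 :=
  SqZ.mk (a := (-3072)) (b := (-2560)) (c := 1536) (d := 2048) (by norm_num) (by norm_num) (by norm_num) (by norm_num)
    (CovZ.topM TW_LL 0 (by decide +kernel) (CovZ.badM (by decide +kernel)))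
    (CovZ.topM TW_LL 0 (by decide +kernel) (CovZ.badM (by decide +kernel)))

theorem TW_s4_14 : SqZ TW_M TW_L [0, 7, 4, 3] (-4608) (-5632) 512 4 14 :=
  SqZ.mk (a := (-2560)) (b := (-2048)) (c := 1536) (d := 2048) (by norm_num) (by norm_num) (by norm_num) (by norm_num)
    (CovZ.topM TW_LL 0 (by decide +kernel) (CovZ.badM (by decide +kernel)))
    (CovZ.topM TW_LL 0 (by decide +kernel) (CovZ.badM (by decide +kernel)))

theorem TW_s5_14 : SqZ TW_M TW_L [0, 7, 4, 3] (-4608) (-5632) 512 5 14 :=
  SqZ.mk (a := (-2048)) (b := (-1536)) (c := 1536) (d := 2048) (by norm_num) (by norm_num) (by norm_num) (by norm_num)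
    (CovZ.topM TW_LL 0 (by decide +kernel) (CovZ.badM (by decide +kernel)))
    (CovZ.topM TW_LL 0 (by decide +kernel) (CovZ.badM (by decide +kernel)))

theorem TW_s6_14 : SqZ TW_M TW_L [0, 7, 4, 3] (-4608) (-5632) 512 6 14 :=
  SqZ.mk (a := (-1536)) (b := (-1024)) (c := 1536) (d := 2048) (by norm_num) (by norm_num) (by norm_num) (by norm_num)
    (CovZ.topM TW_LL 0 (by decide +kernel) (CovZ.badM (by decide +kernel)))
    (CovZ.topM TW_LL 0 (by decide +kernel) (CovZ.badM (by decide +kernel)))

theorem TW_s7_14 : SqZ TW_M TW_L [0, 7, 4, 3] (-4608) (-5632) 512 7 14 :=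
  SqZ.mk (a := (-1024)) (b := (-512)) (c := 1536) (d := 2048) (by norm_num) (by norm_num) (by norm_num) (by norm_num)
    (CovZ.topM TW_LL 0 (by decide +kernel) (CovZ.badM (by decide +kernel)))
    (CovZ.topM TW_LL 0 (by decide +kernel) (CovZ.badM (by decide +kernel)))

theorem TW_s8_14 : SqZ TW_M TW_L [0, 7, 4, 3] (-4608) (-5632) 512 8 14 :=
  SqZ.mk (a := (-512)) (b := 0) (c := 1536) (d := 2048) (by norm_num) (by norm_num) (by norm_num) (by norm_num)
    (CovZ.topM TW_LL 2 (by decide +kernel) (CovZ.n2 (-256, 1792) (by decide +kernel)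
    (CovZ.n2 (0, 1792) (by decide +kernel)
     (CovZ.n2 (-128, 1664) (by decide +kernel)
      (CovZ.n2 (-128, 1792) (by decide +kernel)
       (CovZ.leaf K2_ok TW_l3951 _)
       (CovZ.leaf K2_ok TW_l3952 _))
      (CovZ.leaf K2_ok TW_l3953 _))
     (CovZ.n1 (-128, 1920) (by decide +kernel)
      (CovZ.leaf K2_ok TW_l3954 _)
      (CovZ.leaf K2_ok TW_l3955 _)))
    (CovZ.n1 (-256, 1536) (by decide +kernel)
     (CovZ.n2 (-384, 1664) (by decide +kernel)
      (CovZ.n2 (-256, 1664) (by decide +kernel)
       (CovZ.leaf K2_ok TW_l3956 _)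
       (CovZ.leaf K2_ok TW_l3957 _))
      (CovZ.n1 (-384, 1536) (by decide +kernel)
       (CovZ.leaf K2_ok TW_l3958 _)
       (CovZ.leaf K2_ok TW_l3959 _)))
     (CovZ.leaf K2_ok TW_l3960 _))))
    (CovZ.topM TW_LL 2 (by decide +kernel) (CovZ.n0 (-256, 1792) (by decide +kernel)
    (CovZ.n2 (-512, 1792) (by decide +kernel)
     (CovZ.n2 (-384, 1920) (by decide +kernel)
      (CovZ.n2 (-384, 1792) (by decide +kernel)
       (CovZ.badM (by decide +kernel))
       (CovZ.leaf K2_ok TW_l3961 _))
      (CovZ.badM (by decide +kernel)))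
     (CovZ.n1 (-384, 1664) (by decide +kernel)
      (CovZ.badM (by decide +kernel))
      (CovZ.n1 (-384, 1792) (by decide +kernel)
       (CovZ.leaf K2_ok TW_l3962 _)
       (CovZ.badM (by decide +kernel)))))
    (CovZ.n1 (-256, 2048) (by decide +kernel)
     (CovZ.n2 (-128, 1920) (by decide +kernel)
      (CovZ.n2 (-256, 1920) (by decide +kernel)
       (CovZ.leaf K2_ok TW_l3963 _)
       (CovZ.leaf K2_ok TW_l3964 _))
      (CovZ.n1 (-128, 2048) (by decide +kernel)
       (CovZ.leaf K2_ok TW_l3965 _)
       (CovZ.n1 (-192, 1984) (by decide +kernel)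
        (CovZ.badM (by decide +kernel))
        (CovZ.leaf K2_ok TW_l3966 _))))
     (CovZ.n1 (-384, 1920) (by decide +kernel)
      (CovZ.badM (by decide +kernel))
      (CovZ.n1 (-256, 1920) (by decide +kernel)
       (CovZ.n2 (-320, 1856) (by decide +kernel)
        (CovZ.badM (by decide +kernel))
        (CovZ.leaf K2_ok TW_l3967 _))
       (CovZ.badM (by decide +kernel)))))))

theorem TW_s9_14 : SqZ TW_M TW_L [0, 7, 4, 3] (-4608) (-5632) 512 9 14 :=
  SqZ.mk (a := 0) (b := 512) (c := 1536) (d := 2048) (by norm_num) (by norm_num) (by norm_num) (by norm_num)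
    (CovZ.topM TW_LL 2 (by decide +kernel) (CovZ.n2 (256, 1792) (by decide +kernel)
    (CovZ.n2 (512, 1792) (by decide +kernel)
     (CovZ.n2 (384, 1664) (by decide +kernel)
      (CovZ.leaf K2_ok TW_l4035 _)
      (CovZ.n1 (512, 1664) (by decide +kernel)
       (CovZ.leaf K2_ok TW_l4036 _)
       (CovZ.leaf K2_ok TW_l4037 _)))
     (CovZ.n1 (384, 1920) (by decide +kernel)
      (CovZ.n2 (512, 1920) (by decide +kernel)
       (CovZ.n2 (448, 1856) (by decide +kernel)
        (CovZ.leaf K2_ok TW_l4038 _)
        (CovZ.n1 (512, 1856) (by decide +kernel)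
         (CovZ.leaf K2_ok TW_l4039 _)
         (CovZ.leaf K2_ok TW_l4040 _)))
       (CovZ.n1 (448, 1984) (by decide +kernel)
        (CovZ.n2 (512, 1984) (by decide +kernel)
         (CovZ.n2 (480, 1952) (by decide +kernel)
          (CovZ.leaf K2_ok TW_l4041 _)
          (CovZ.leaf K2_ok TW_l4042 _))
         (CovZ.n1 (480, 2016) (by decide +kernel)
          (CovZ.n2 (512, 2016) (by decide +kernel)
           (CovZ.leaf K2_ok TW_l4043 _)
           (CovZ.leaf K2_ok TW_l4044 _))
          (CovZ.leaf K2_ok TW_l4045 _)))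
        (CovZ.leaf K2_ok TW_l4046 _)))
      (CovZ.leaf K2_ok TW_l4047 _)))
    (CovZ.leaf K2_ok TW_l4048 _)))
    (CovZ.topM TW_LL 2 (by decide +kernel) (CovZ.n0 (256, 1792) (by decide +kernel)
    (CovZ.n2 (0, 1792) (by decide +kernel)
     (CovZ.leaf K2_ok TW_l4049 _)
     (CovZ.leaf K2_ok TW_l4050 _))
    (CovZ.n1 (256, 2048) (by decide +kernel)
     (CovZ.n2 (384, 1920) (by decide +kernel)
      (CovZ.leaf K2_ok TW_l4051 _)
      (CovZ.n1 (384, 2048) (by decide +kernel)
       (CovZ.n2 (448, 1984) (by decide +kernel)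
        (CovZ.leaf K2_ok TW_l4052 _)
        (CovZ.n1 (448, 2048) (by decide +kernel)
         (CovZ.n2 (480, 2016) (by decide +kernel)
          (CovZ.leaf K2_ok TW_l4053 _)
          (CovZ.leaf K2_ok TW_l4054 _))
         (CovZ.leaf K2_ok TW_l4055 _)))
       (CovZ.n1 (320, 1984) (by decide +kernel)
        (CovZ.leaf K2_ok TW_l4056 _)
        (CovZ.leaf K2_ok TW_l4057 _))))
     (CovZ.n1 (128, 1920) (by decide +kernel)
      (CovZ.leaf K2_ok TW_l4058 _)
      (CovZ.leaf K2_ok TW_l4059 _)))))

theorem TW_s10_14 : SqZ TW_M TW_L [0, 7, 4, 3] (-4608) (-5632) 512 10 14 :=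
  SqZ.mk (a := 512) (b := 1024) (c := 1536) (d := 2048) (by norm_num) (by norm_num) (by norm_num) (by norm_num)
    (CovZ.topM TW_LL 2 (by decide +kernel) (CovZ.n2 (768, 1792) (by decide +kernel)
    (CovZ.badM (by decide +kernel))
    (CovZ.n1 (768, 1536) (by decide +kernel)
     (CovZ.n2 (640, 1664) (by decide +kernel)
      (CovZ.badM (by decide +kernel))
      (CovZ.n1 (640, 1536) (by decide +kernel)
       (CovZ.n2 (576, 1600) (by decide +kernel)
        (CovZ.n2 (640, 1600) (by decide +kernel)
         (CovZ.leaf K2_ok TW_l4453 _)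
         (CovZ.leaf K2_ok TW_l4454 _))
        (CovZ.leaf K2_ok TW_l4455 _))
       (CovZ.n1 (704, 1600) (by decide +kernel)
        (CovZ.n2 (704, 1536) (by decide +kernel)
         (CovZ.n2 (672, 1568) (by decide +kernel)
          (CovZ.badM (by decide +kernel))
          (CovZ.leaf K2_ok TW_l4456 _))
         (CovZ.badM (by decide +kernel)))
        (CovZ.n1 (640, 1600) (by decide +kernel)
         (CovZ.badM (by decide +kernel))
         (CovZ.leaf K2_ok TW_l4457 _)))))
     (CovZ.badM (by decide +kernel)))))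
    (CovZ.topM TW_LL 2 (by decide +kernel) (CovZ.n0 (768, 1792) (by decide +kernel)
    (CovZ.n2 (512, 1792) (by decide +kernel)
     (CovZ.n2 (640, 1920) (by decide +kernel)
      (CovZ.n2 (640, 1792) (by decide +kernel)
       (CovZ.n2 (576, 1856) (by decide +kernel)
        (CovZ.badM (by decide +kernel))
        (CovZ.n1 (576, 1792) (by decide +kernel)
         (CovZ.leaf K2_ok TW_l4458 _)
         (CovZ.n1 (608, 1824) (by decide +kernel)
          (CovZ.leaf K2_ok TW_l4459 _)
          (CovZ.leaf K2_ok TW_l4460 _))))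
       (CovZ.badM (by decide +kernel)))
      (CovZ.n1 (512, 1920) (by decide +kernel)
       (CovZ.n2 (576, 1984) (by decide +kernel)
        (CovZ.n2 (576, 1920) (by decide +kernel)
         (CovZ.n2 (544, 1952) (by decide +kernel)
          (CovZ.badM (by decide +kernel))
          (CovZ.leaf K2_ok TW_l4461 _))
         (CovZ.badM (by decide +kernel)))
        (CovZ.n1 (512, 1984) (by decide +kernel)
         (CovZ.n2 (544, 2016) (by decide +kernel)
          (CovZ.n2 (544, 1984) (by decide +kernel)
           (CovZ.leaf K2_ok TW_l4462 _)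
           (CovZ.badM (by decide +kernel)))
          (CovZ.n1 (512, 2016) (by decide +kernel)
           (CovZ.leaf K2_ok TW_l4463 _)
           (CovZ.leaf K2_ok TW_l4464 _)))
         (CovZ.n1 (544, 1952) (by decide +kernel)
          (CovZ.leaf K2_ok TW_l4465 _)
          (CovZ.n1 (544, 1984) (by decide +kernel)
           (CovZ.badM (by decide +kernel))
           (CovZ.leaf K2_ok TW_l4466 _)))))
       (CovZ.n1 (576, 1856) (by decide +kernel)
        (CovZ.n2 (512, 1856) (by decide +kernel)
         (CovZ.leaf K2_ok TW_l4467 _)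
         (CovZ.leaf K2_ok TW_l4468 _))
        (CovZ.n1 (576, 1920) (by decide +kernel)
         (CovZ.badM (by decide +kernel))
         (CovZ.n1 (544, 1888) (by decide +kernel)
          (CovZ.leaf K2_ok TW_l4469 _)
          (CovZ.n1 (576, 1888) (by decide +kernel)
           (CovZ.leaf K2_ok TW_l4470 _)
           (CovZ.leaf K2_ok TW_l4471 _)))))))
     (CovZ.n1 (640, 1664) (by decide +kernel)
      (CovZ.n2 (512, 1664) (by decide +kernel)
       (CovZ.n2 (576, 1728) (by decide +kernel)
        (CovZ.leaf K2_ok TW_l4472 _)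
        (CovZ.leaf K2_ok TW_l4473 _))
       (CovZ.n1 (576, 1600) (by decide +kernel)
        (CovZ.leaf K2_ok TW_l4474 _)
        (CovZ.leaf K2_ok TW_l4475 _)))
      (CovZ.n1 (640, 1792) (by decide +kernel)
       (CovZ.badM (by decide +kernel))
       (CovZ.n1 (576, 1728) (by decide +kernel)
        (CovZ.n2 (576, 1792) (by decide +kernel)
         (CovZ.n2 (608, 1760) (by decide +kernel)
          (CovZ.leaf K2_ok TW_l4476 _)
          (CovZ.leaf K2_ok TW_l4477 _))
         (CovZ.leaf K2_ok TW_l4478 _))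
        (CovZ.n1 (640, 1728) (by decide +kernel)
         (CovZ.n2 (608, 1696) (by decide +kernel)
          (CovZ.leaf K2_ok TW_l4479 _)
          (CovZ.badM (by decide +kernel)))
         (CovZ.n1 (608, 1760) (by decide +kernel)
          (CovZ.badM (by decide +kernel))
          (CovZ.leaf K2_ok TW_l4480 _)))))))
    (CovZ.badM (by decide +kernel))))

theorem TW_s11_14 : SqZ TW_M TW_L [0, 7, 4, 3] (-4608) (-5632) 512 11 14 :=
  SqZ.mk (a := 1024) (b := 1536) (c := 1536) (d := 2048) (by norm_num) (by norm_num) (by norm_num) (by norm_num)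
    (CovZ.topM TW_LL 0 (by decide +kernel) (CovZ.badM (by decide +kernel)))
    (CovZ.topM TW_LL 0 (by decide +kernel) (CovZ.badM (by decide +kernel)))

theorem TW_s12_14 : SqZ TW_M TW_L [0, 7, 4, 3] (-4608) (-5632) 512 12 14 :=
  SqZ.mk (a := 1536) (b := 2048) (c := 1536) (d := 2048) (by norm_num) (by norm_num) (by norm_num) (by norm_num)
    (CovZ.topM TW_LL 0 (by decide +kernel) (CovZ.badM (by decide +kernel)))
    (CovZ.topM TW_LL 0 (by decide +kernel) (CovZ.badM (by decide +kernel)))

theorem TW_s13_14 : SqZ TW_M TW_L [0, 7, 4, 3] (-4608) (-5632) 512 13 14 :=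
  SqZ.mk (a := 2048) (b := 2560) (c := 1536) (d := 2048) (by norm_num) (by norm_num) (by norm_num) (by norm_num)
    (CovZ.topM TW_LL 0 (by decide +kernel) (CovZ.badM (by decide +kernel)))
    (CovZ.topM TW_LL 0 (by decide +kernel) (CovZ.badM (by decide +kernel)))

theorem TW_s14_14 : SqZ TW_M TW_L [0, 7, 4, 3] (-4608) (-5632) 512 14 14 :=
  SqZ.mk (a := 2560) (b := 3072) (c := 1536) (d := 2048) (by norm_num) (by norm_num) (by norm_num) (by norm_num)
    (CovZ.topM TW_LL 0 (by decide +kernel) (CovZ.badM (by decide +kernel)))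
    (CovZ.topM TW_LL 0 (by decide +kernel) (CovZ.badM (by decide +kernel)))

theorem TW_s15_14 : SqZ TW_M TW_L [0, 7, 4, 3] (-4608) (-5632) 512 15 14 :=
  SqZ.mk (a := 3072) (b := 3584) (c := 1536) (d := 2048) (by norm_num) (by norm_num) (by norm_num) (by norm_num)
    (CovZ.topM TW_LL 0 (by decide +kernel) (CovZ.badM (by decide +kernel)))
    (CovZ.topM TW_LL 0 (by decide +kernel) (CovZ.badM (by decide +kernel)))

theorem TW_s16_14 : SqZ TW_M TW_L [0, 7, 4, 3] (-4608) (-5632) 512 16 14 :=
  SqZ.mk (a := 3584) (b := 4096) (c := 1536) (d := 2048) (by norm_num) (by norm_num) (by norm_num) (by norm_num)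
    (CovZ.topM TW_LL 0 (by decide +kernel) (CovZ.badM (by decide +kernel)))
    (CovZ.topM TW_LL 0 (by decide +kernel) (CovZ.badM (by decide +kernel)))

theorem TW_s0_15 : SqZ TW_M TW_L [0, 7, 4, 3] (-4608) (-5632) 512 0 15 :=
  SqZ.mk (a := (-4608)) (b := (-4096)) (c := 2048) (d := 2560) (by norm_num) (by norm_num) (by norm_num) (by norm_num)
    (CovZ.topM TW_LL 0 (by decide +kernel) (CovZ.badM (by decide +kernel)))
    (CovZ.topM TW_LL 0 (by decide +kernel) (CovZ.badM (by decide +kernel)))

theorem TW_s1_15 : SqZ TW_M TW_L [0, 7, 4, 3] (-4608) (-5632) 512 1 15 :=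
  SqZ.mk (a := (-4096)) (b := (-3584)) (c := 2048) (d := 2560) (by norm_num) (by norm_num) (by norm_num) (by norm_num)
    (CovZ.topM TW_LL 0 (by decide +kernel) (CovZ.badM (by decide +kernel)))
    (CovZ.topM TW_LL 0 (by decide +kernel) (CovZ.badM (by decide +kernel)))

theorem TW_s2_15 : SqZ TW_M TW_L [0, 7, 4, 3] (-4608) (-5632) 512 2 15 :=
  SqZ.mk (a := (-3584)) (b := (-3072)) (c := 2048) (d := 2560) (by norm_num) (by norm_num) (by norm_num) (by norm_num)
    (CovZ.topM TW_LL 0 (by decide +kernel) (CovZ.badM (by decide +kernel)))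
    (CovZ.topM TW_LL 0 (by decide +kernel) (CovZ.badM (by decide +kernel)))

theorem TW_s3_15 : SqZ TW_M TW_L [0, 7, 4, 3] (-4608) (-5632) 512 3 15 :=
  SqZ.mk (a := (-3072)) (b := (-2560)) (c := 2048) (d := 2560) (by norm_num) (by norm_num) (by norm_num) (by norm_num)
    (CovZ.topM TW_LL 0 (by decide +kernel) (CovZ.badM (by decide +kernel)))
    (CovZ.topM TW_LL 0 (by decide +kernel) (CovZ.badM (by decide +kernel)))

theorem TW_s4_15 : SqZ TW_M TW_L [0, 7, 4, 3] (-4608) (-5632) 512 4 15 :=
  SqZ.mk (a := (-2560)) (b := (-2048)) (c := 2048) (d := 2560) (by norm_num) (by norm_num) (by norm_num) (by norm_num)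
    (CovZ.topM TW_LL 0 (by decide +kernel) (CovZ.badM (by decide +kernel)))
    (CovZ.topM TW_LL 0 (by decide +kernel) (CovZ.badM (by decide +kernel)))

theorem TW_s5_15 : SqZ TW_M TW_L [0, 7, 4, 3] (-4608) (-5632) 512 5 15 :=
  SqZ.mk (a := (-2048)) (b := (-1536)) (c := 2048) (d := 2560) (by norm_num) (by norm_num) (by norm_num) (by norm_num)
    (CovZ.topM TW_LL 0 (by decide +kernel) (CovZ.badM (by decide +kernel)))
    (CovZ.topM TW_LL 0 (by decide +kernel) (CovZ.badM (by decide +kernel)))

theorem TW_s6_15 : SqZ TW_M TW_L [0, 7, 4, 3] (-4608) (-5632) 512 6 15 :=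
  SqZ.mk (a := (-1536)) (b := (-1024)) (c := 2048) (d := 2560) (by norm_num) (by norm_num) (by norm_num) (by norm_num)
    (CovZ.topM TW_LL 0 (by decide +kernel) (CovZ.badM (by decide +kernel)))
    (CovZ.topM TW_LL 0 (by decide +kernel) (CovZ.badM (by decide +kernel)))

theorem TW_s7_15 : SqZ TW_M TW_L [0, 7, 4, 3] (-4608) (-5632) 512 7 15 :=
  SqZ.mk (a := (-1024)) (b := (-512)) (c := 2048) (d := 2560) (by norm_num) (by norm_num) (by norm_num) (by norm_num)
    (CovZ.topM TW_LL 0 (by decide +kernel) (CovZ.badM (by decide +kernel)))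
    (CovZ.topM TW_LL 0 (by decide +kernel) (CovZ.badM (by decide +kernel)))

theorem TW_s8_15 : SqZ TW_M TW_L [0, 7, 4, 3] (-4608) (-5632) 512 8 15 :=
  SqZ.mk (a := (-512)) (b := 0) (c := 2048) (d := 2560) (by norm_num) (by norm_num) (by norm_num) (by norm_num)
    (CovZ.topM TW_LL 2 (by decide +kernel) (CovZ.n2 (-256, 2304) (by decide +kernel)
    (CovZ.n2 (0, 2304) (by decide +kernel)
     (CovZ.n2 (-128, 2176) (by decide +kernel)
      (CovZ.badM (by decide +kernel))
      (CovZ.n1 (0, 2176) (by decide +kernel)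
       (CovZ.n2 (-64, 2112) (by decide +kernel)
        (CovZ.leaf K2_ok TW_l3968 _)
        (CovZ.leaf K2_ok TW_l3969 _))
       (CovZ.n1 (-64, 2240) (by decide +kernel)
        (CovZ.leaf K2_ok TW_l3970 _)
        (CovZ.leaf K2_ok TW_l3971 _))))
     (CovZ.badM (by decide +kernel)))
    (CovZ.n1 (-256, 2048) (by decide +kernel)
     (CovZ.badM (by decide +kernel))
     (CovZ.n1 (-128, 2176) (by decide +kernel)
      (CovZ.n2 (-128, 2048) (by decide +kernel)
       (CovZ.badM (by decide +kernel))
       (CovZ.leaf K2_ok TW_l3972 _))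
      (CovZ.badM (by decide +kernel))))))
    (CovZ.topM TW_LL 0 (by decide +kernel) (CovZ.badM (by decide +kernel)))

theorem TW_s9_15 : SqZ TW_M TW_L [0, 7, 4, 3] (-4608) (-5632) 512 9 15 :=
  SqZ.mk (a := 0) (b := 512) (c := 2048) (d := 2560) (by norm_num) (by norm_num) (by norm_num) (by norm_num)
    (CovZ.topM TW_LL 2 (by decide +kernel) (CovZ.n2 (256, 2304) (by decide +kernel)
    (CovZ.n2 (512, 2304) (by decide +kernel)
     (CovZ.n2 (384, 2176) (by decide +kernel)
      (CovZ.n2 (384, 2304) (by decide +kernel)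
       (CovZ.n2 (448, 2240) (by decide +kernel)
        (CovZ.n2 (384, 2240) (by decide +kernel)
         (CovZ.leaf K2_ok TW_l4060 _)
         (CovZ.leaf K2_ok TW_l4061 _))
        (CovZ.n1 (448, 2304) (by decide +kernel)
         (CovZ.n2 (480, 2272) (by decide +kernel)
          (CovZ.n2 (448, 2272) (by decide +kernel)
           (CovZ.badM (by decide +kernel))
           (CovZ.leaf K2_ok TW_l4062 _))
          (CovZ.badM (by decide +kernel)))
         (CovZ.n1 (416, 2272) (by decide +kernel)
          (CovZ.leaf K2_ok TW_l4063 _)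
          (CovZ.n1 (448, 2272) (by decide +kernel)
           (CovZ.leaf K2_ok TW_l4064 _)
           (CovZ.leaf K2_ok TW_l4065 _)))))
       (CovZ.n1 (320, 2240) (by decide +kernel)
        (CovZ.leaf K2_ok TW_l4066 _)
        (CovZ.n1 (384, 2240) (by decide +kernel)
         (CovZ.leaf K2_ok TW_l4067 _)
         (CovZ.leaf K2_ok TW_l4068 _))))
      (CovZ.n1 (512, 2176) (by decide +kernel)
       (CovZ.n2 (448, 2112) (by decide +kernel)
        (CovZ.n2 (448, 2176) (by decide +kernel)
         (CovZ.n2 (480, 2144) (by decide +kernel)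
          (CovZ.n2 (448, 2144) (by decide +kernel)
           (CovZ.leaf K2_ok TW_l4069 _)
           (CovZ.leaf K2_ok TW_l4070 _))
          (CovZ.n1 (480, 2176) (by decide +kernel)
           (CovZ.n2 (496, 2160) (by decide +kernel)
            (CovZ.n2 (480, 2160) (by decide +kernel)
             (CovZ.badM (by decide +kernel))
             (CovZ.leaf K2_ok TW_l4071 _))
            (CovZ.badM (by decide +kernel)))
           (CovZ.n1 (464, 2160) (by decide +kernel)
            (CovZ.leaf K2_ok TW_l4072 _)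
            (CovZ.leaf K2_ok TW_l4073 _))))
         (CovZ.n1 (416, 2144) (by decide +kernel)
          (CovZ.leaf K2_ok TW_l4074 _)
          (CovZ.leaf K2_ok TW_l4075 _)))
        (CovZ.n1 (512, 2112) (by decide +kernel)
         (CovZ.n2 (480, 2080) (by decide +kernel)
          (CovZ.n2 (480, 2112) (by decide +kernel)
           (CovZ.n2 (496, 2096) (by decide +kernel)
            (CovZ.leaf K2_ok TW_l4076 _)
            (CovZ.leaf K2_ok TW_l4077 _))
           (CovZ.leaf K2_ok TW_l4078 _))
          (CovZ.n1 (512, 2080) (by decide +kernel)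
           (CovZ.n2 (496, 2064) (by decide +kernel)
            (CovZ.leaf K2_ok TW_l4079 _)
            (CovZ.leaf K2_ok TW_l4080 _))
           (CovZ.n1 (496, 2096) (by decide +kernel)
            (CovZ.badM (by decide +kernel))
            (CovZ.leaf K2_ok TW_l4081 _))))
         (CovZ.n1 (480, 2144) (by decide +kernel)
          (CovZ.n2 (512, 2144) (by decide +kernel)
           (CovZ.n2 (496, 2128) (by decide +kernel)
            (CovZ.n2 (496, 2144) (by decide +kernel)
             (CovZ.badM (by decide +kernel))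
             (CovZ.leaf K2_ok TW_l4082 _))
            (CovZ.badM (by decide +kernel)))
           (CovZ.n1 (496, 2160) (by decide +kernel)
            (CovZ.badM (by decide +kernel))
            (CovZ.n1 (496, 2144) (by decide +kernel)
             (CovZ.leaf K2_ok TW_l4083 _)
             (CovZ.badM (by decide +kernel)))))
          (CovZ.n1 (480, 2112) (by decide +kernel)
           (CovZ.leaf K2_ok TW_l4084 _)
           (CovZ.n1 (496, 2128) (by decide +kernel)
            (CovZ.leaf K2_ok TW_l4085 _)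
            (CovZ.leaf K2_ok TW_l4086 _))))))
       (CovZ.n1 (448, 2240) (by decide +kernel)
        (CovZ.n2 (512, 2240) (by decide +kernel)
         (CovZ.n2 (480, 2208) (by decide +kernel)
          (CovZ.n2 (480, 2240) (by decide +kernel)
           (CovZ.badM (by decide +kernel))
           (CovZ.n1 (464, 2224) (by decide +kernel)
            (CovZ.leaf K2_ok TW_l4087 _)
            (CovZ.badM (by decide +kernel))))
          (CovZ.badM (by decide +kernel)))
         (CovZ.n1 (480, 2272) (by decide +kernel)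
          (CovZ.badM (by decide +kernel))
          (CovZ.n1 (480, 2240) (by decide +kernel)
           (CovZ.n2 (464, 2256) (by decide +kernel)
            (CovZ.badM (by decide +kernel))
            (CovZ.leaf K2_ok TW_l4088 _))
           (CovZ.badM (by decide +kernel)))))
        (CovZ.n1 (448, 2176) (by decide +kernel)
         (CovZ.n2 (416, 2208) (by decide +kernel)
          (CovZ.n2 (448, 2208) (by decide +kernel)
           (CovZ.leaf K2_ok TW_l4089 _)
           (CovZ.leaf K2_ok TW_l4090 _))
          (CovZ.leaf K2_ok TW_l4091 _))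
         (CovZ.n1 (480, 2208) (by decide +kernel)
          (CovZ.n2 (480, 2176) (by decide +kernel)
           (CovZ.n2 (464, 2192) (by decide +kernel)
            (CovZ.n2 (480, 2192) (by decide +kernel)
             (CovZ.leaf K2_ok TW_l4092 _)
             (CovZ.leaf K2_ok TW_l4093 _))
            (CovZ.leaf K2_ok TW_l4094 _))
           (CovZ.badM (by decide +kernel)))
          (CovZ.n1 (448, 2208) (by decide +kernel)
           (CovZ.leaf K2_ok TW_l4095 _)
           (CovZ.leaf K2_ok TW_l4096 _)))))))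
     (CovZ.n1 (384, 2432) (by decide +kernel)
      (CovZ.n2 (512, 2432) (by decide +kernel)
       (CovZ.n2 (448, 2368) (by decide +kernel)
        (CovZ.n2 (448, 2432) (by decide +kernel)
         (CovZ.badM (by decide +kernel))
         (CovZ.n1 (416, 2400) (by decide +kernel)
          (CovZ.n2 (416, 2432) (by decide +kernel)
           (CovZ.badM (by decide +kernel))
           (CovZ.leaf K2_ok TW_l4097 _))
          (CovZ.badM (by decide +kernel))))
        (CovZ.badM (by decide +kernel)))
       (CovZ.n1 (448, 2496) (by decide +kernel)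
        (CovZ.badM (by decide +kernel))
        (CovZ.n1 (448, 2432) (by decide +kernel)
         (CovZ.n2 (416, 2464) (by decide +kernel)
          (CovZ.badM (by decide +kernel))
          (CovZ.n1 (416, 2432) (by decide +kernel)
           (CovZ.leaf K2_ok TW_l4098 _)
           (CovZ.badM (by decide +kernel))))
         (CovZ.badM (by decide +kernel)))))
      (CovZ.n1 (384, 2304) (by decide +kernel)
       (CovZ.n2 (320, 2368) (by decide +kernel)
        (CovZ.n2 (384, 2368) (by decide +kernel)
         (CovZ.n2 (352, 2336) (by decide +kernel)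
          (CovZ.leaf K2_ok TW_l4099 _)
          (CovZ.leaf K2_ok TW_l4100 _))
         (CovZ.leaf K2_ok TW_l4101 _))
        (CovZ.leaf K2_ok TW_l4102 _))
       (CovZ.n1 (448, 2368) (by decide +kernel)
        (CovZ.n2 (448, 2304) (by decide +kernel)
         (CovZ.n2 (416, 2336) (by decide +kernel)
          (CovZ.n2 (448, 2336) (by decide +kernel)
           (CovZ.leaf K2_ok TW_l4103 _)
           (CovZ.leaf K2_ok TW_l4104 _))
          (CovZ.leaf K2_ok TW_l4105 _))
         (CovZ.badM (by decide +kernel)))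
        (CovZ.n1 (384, 2368) (by decide +kernel)
         (CovZ.n2 (416, 2400) (by decide +kernel)
          (CovZ.leaf K2_ok TW_l4106 _)
          (CovZ.leaf K2_ok TW_l4107 _))
         (CovZ.n1 (416, 2336) (by decide +kernel)
          (CovZ.leaf K2_ok TW_l4108 _)
          (CovZ.leaf K2_ok TW_l4109 _)))))))
    (CovZ.n1 (256, 2048) (by decide +kernel)
     (CovZ.n2 (128, 2176) (by decide +kernel)
      (CovZ.n2 (256, 2176) (by decide +kernel)
       (CovZ.leaf K2_ok TW_l4110 _)
       (CovZ.leaf K2_ok TW_l4111 _))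
      (CovZ.leaf K2_ok TW_l4112 _))
     (CovZ.n1 (384, 2176) (by decide +kernel)
      (CovZ.n2 (384, 2048) (by decide +kernel)
       (CovZ.n2 (320, 2112) (by decide +kernel)
        (CovZ.n2 (384, 2112) (by decide +kernel)
         (CovZ.leaf K2_ok TW_l4113 _)
         (CovZ.leaf K2_ok TW_l4114 _))
        (CovZ.leaf K2_ok TW_l4115 _))
       (CovZ.n1 (448, 2112) (by decide +kernel)
        (CovZ.n2 (448, 2048) (by decide +kernel)
         (CovZ.leaf K2_ok TW_l4116 _)
         (CovZ.n1 (480, 2080) (by decide +kernel)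
          (CovZ.leaf K2_ok TW_l4117 _)
          (CovZ.leaf K2_ok TW_l4118 _)))
        (CovZ.n1 (384, 2112) (by decide +kernel)
         (CovZ.leaf K2_ok TW_l4119 _)
         (CovZ.leaf K2_ok TW_l4120 _))))
      (CovZ.n1 (256, 2176) (by decide +kernel)
       (CovZ.leaf K2_ok TW_l4121 _)
       (CovZ.leaf K2_ok TW_l4122 _))))))
    (CovZ.topM TW_LL 2 (by decide +kernel) (CovZ.n0 (256, 2304) (by decide +kernel)
    (CovZ.n2 (0, 2304) (by decide +kernel)
     (CovZ.n2 (128, 2432) (by decide +kernel)
      (CovZ.n2 (128, 2304) (by decide +kernel)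
       (CovZ.leaf K2_ok TW_l4123 _)
       (CovZ.leaf K2_ok TW_l4124 _))
      (CovZ.badM (by decide +kernel)))
     (CovZ.n1 (128, 2176) (by decide +kernel)
      (CovZ.leaf K2_ok TW_l4125 _)
      (CovZ.n1 (128, 2304) (by decide +kernel)
       (CovZ.leaf K2_ok TW_l4126 _)
       (CovZ.leaf K2_ok TW_l4127 _))))
    (CovZ.n1 (256, 2560) (by decide +kernel)
     (CovZ.n2 (384, 2432) (by decide +kernel)
      (CovZ.n2 (256, 2432) (by decide +kernel)
       (CovZ.n2 (320, 2496) (by decide +kernel)
        (CovZ.leaf K2_ok TW_l4128 _)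
        (CovZ.leaf K2_ok TW_l4129 _))
       (CovZ.n1 (320, 2368) (by decide +kernel)
        (CovZ.leaf K2_ok TW_l4130 _)
        (CovZ.leaf K2_ok TW_l4131 _)))
      (CovZ.n1 (384, 2560) (by decide +kernel)
       (CovZ.n2 (448, 2496) (by decide +kernel)
        (CovZ.n2 (384, 2496) (by decide +kernel)
         (CovZ.badM (by decide +kernel))
         (CovZ.n1 (416, 2464) (by decide +kernel)
          (CovZ.leaf K2_ok TW_l4132 _)
          (CovZ.badM (by decide +kernel))))
        (CovZ.badM (by decide +kernel)))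
       (CovZ.n1 (320, 2496) (by decide +kernel)
        (CovZ.n2 (320, 2560) (by decide +kernel)
         (CovZ.leaf K2_ok TW_l4133 _)
         (CovZ.n1 (288, 2528) (by decide +kernel)
          (CovZ.leaf K2_ok TW_l4134 _)
          (CovZ.leaf K2_ok TW_l4135 _)))
        (CovZ.n1 (384, 2496) (by decide +kernel)
         (CovZ.n2 (352, 2464) (by decide +kernel)
          (CovZ.leaf K2_ok TW_l4136 _)
          (CovZ.leaf K2_ok TW_l4137 _))
         (CovZ.n1 (352, 2528) (by decide +kernel)
          (CovZ.n2 (384, 2528) (by decide +kernel)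
           (CovZ.leaf K2_ok TW_l4138 _)
           (CovZ.leaf K2_ok TW_l4139 _))
          (CovZ.leaf K2_ok TW_l4140 _))))))
     (CovZ.n1 (128, 2432) (by decide +kernel)
      (CovZ.n2 (128, 2560) (by decide +kernel)
       (CovZ.n2 (192, 2496) (by decide +kernel)
        (CovZ.badM (by decide +kernel))
        (CovZ.n1 (192, 2560) (by decide +kernel)
         (CovZ.leaf K2_ok TW_l4141 _)
         (CovZ.badM (by decide +kernel))))
       (CovZ.badM (by decide +kernel)))
      (CovZ.n1 (256, 2432) (by decide +kernel)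
       (CovZ.n2 (192, 2368) (by decide +kernel)
        (CovZ.leaf K2_ok TW_l4142 _)
        (CovZ.leaf K2_ok TW_l4143 _))
       (CovZ.n1 (192, 2496) (by decide +kernel)
        (CovZ.n2 (256, 2496) (by decide +kernel)
         (CovZ.leaf K2_ok TW_l4144 _)
         (CovZ.leaf K2_ok TW_l4145 _))
        (CovZ.leaf K2_ok TW_l4146 _)))))))

theorem TW_s10_15 : SqZ TW_M TW_L [0, 7, 4, 3] (-4608) (-5632) 512 10 15 :=
  SqZ.mk (a := 512) (b := 1024) (c := 2048) (d := 2560) (by norm_num) (by norm_num) (by norm_num) (by norm_num)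
    (CovZ.topM TW_LL 0 (by decide +kernel) (CovZ.badM (by decide +kernel)))
    (CovZ.topM TW_LL 0 (by decide +kernel) (CovZ.badM (by decide +kernel)))

theorem TW_s11_15 : SqZ TW_M TW_L [0, 7, 4, 3] (-4608) (-5632) 512 11 15 :=
  SqZ.mk (a := 1024) (b := 1536) (c := 2048) (d := 2560) (by norm_num) (by norm_num) (by norm_num) (by norm_num)
    (CovZ.topM TW_LL 0 (by decide +kernel) (CovZ.badM (by decide +kernel)))
    (CovZ.topM TW_LL 0 (by decide +kernel) (CovZ.badM (by decide +kernel)))

theorem TW_s12_15 : SqZ TW_M TW_L [0, 7, 4, 3] (-4608) (-5632) 512 12 15 :=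
  SqZ.mk (a := 1536) (b := 2048) (c := 2048) (d := 2560) (by norm_num) (by norm_num) (by norm_num) (by norm_num)
    (CovZ.topM TW_LL 0 (by decide +kernel) (CovZ.badM (by decide +kernel)))
    (CovZ.topM TW_LL 0 (by decide +kernel) (CovZ.badM (by decide +kernel)))

theorem TW_s13_15 : SqZ TW_M TW_L [0, 7, 4, 3] (-4608) (-5632) 512 13 15 :=
  SqZ.mk (a := 2048) (b := 2560) (c := 2048) (d := 2560) (by norm_num) (by norm_num) (by norm_num) (by norm_num)
    (CovZ.topM TW_LL 0 (by decide +kernel) (CovZ.badM (by decide +kernel)))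
    (CovZ.topM TW_LL 0 (by decide +kernel) (CovZ.badM (by decide +kernel)))

theorem TW_s14_15 : SqZ TW_M TW_L [0, 7, 4, 3] (-4608) (-5632) 512 14 15 :=
  SqZ.mk (a := 2560) (b := 3072) (c := 2048) (d := 2560) (by norm_num) (by norm_num) (by norm_num) (by norm_num)
    (CovZ.topM TW_LL 0 (by decide +kernel) (CovZ.badM (by decide +kernel)))
    (CovZ.topM TW_LL 0 (by decide +kernel) (CovZ.badM (by decide +kernel)))

theorem TW_s15_15 : SqZ TW_M TW_L [0, 7, 4, 3] (-4608) (-5632) 512 15 15 :=
  SqZ.mk (a := 3072) (b := 3584) (c := 2048) (d := 2560) (by norm_num) (by norm_num) (by norm_num) (by norm_num)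
    (CovZ.topM TW_LL 0 (by decide +kernel) (CovZ.badM (by decide +kernel)))
    (CovZ.topM TW_LL 0 (by decide +kernel) (CovZ.badM (by decide +kernel)))

theorem TW_s16_15 : SqZ TW_M TW_L [0, 7, 4, 3] (-4608) (-5632) 512 16 15 :=
  SqZ.mk (a := 3584) (b := 4096) (c := 2048) (d := 2560) (by norm_num) (by norm_num) (by norm_num) (by norm_num)
    (CovZ.topM TW_LL 0 (by decide +kernel) (CovZ.badM (by decide +kernel)))
    (CovZ.topM TW_LL 0 (by decide +kernel) (CovZ.badM (by decide +kernel)))

theorem TW_s0_16 : SqZ TW_M TW_L [0, 7, 4, 3] (-4608) (-5632) 512 0 16 :=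
  SqZ.mk (a := (-4608)) (b := (-4096)) (c := 2560) (d := 3072) (by norm_num) (by norm_num) (by norm_num) (by norm_num)
    (CovZ.topM TW_LL 0 (by decide +kernel) (CovZ.badM (by decide +kernel)))
    (CovZ.topM TW_LL 0 (by decide +kernel) (CovZ.badM (by decide +kernel)))

theorem TW_s1_16 : SqZ TW_M TW_L [0, 7, 4, 3] (-4608) (-5632) 512 1 16 :=
  SqZ.mk (a := (-4096)) (b := (-3584)) (c := 2560) (d := 3072) (by norm_num) (by norm_num) (by norm_num) (by norm_num)
    (CovZ.topM TW_LL 0 (by decide +kernel) (CovZ.badM (by decide +kernel)))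
    (CovZ.topM TW_LL 0 (by decide +kernel) (CovZ.badM (by decide +kernel)))

theorem TW_s2_16 : SqZ TW_M TW_L [0, 7, 4, 3] (-4608) (-5632) 512 2 16 :=
  SqZ.mk (a := (-3584)) (b := (-3072)) (c := 2560) (d := 3072) (by norm_num) (by norm_num) (by norm_num) (by norm_num)
    (CovZ.topM TW_LL 0 (by decide +kernel) (CovZ.badM (by decide +kernel)))
    (CovZ.topM TW_LL 0 (by decide +kernel) (CovZ.badM (by decide +kernel)))

theorem TW_s3_16 : SqZ TW_M TW_L [0, 7, 4, 3] (-4608) (-5632) 512 3 16 :=
  SqZ.mk (a := (-3072)) (b := (-2560)) (c := 2560) (d := 3072) (by norm_num) (by norm_num) (by norm_num) (by norm_num)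
    (CovZ.topM TW_LL 0 (by decide +kernel) (CovZ.badM (by decide +kernel)))
    (CovZ.topM TW_LL 0 (by decide +kernel) (CovZ.badM (by decide +kernel)))

theorem TW_s4_16 : SqZ TW_M TW_L [0, 7, 4, 3] (-4608) (-5632) 512 4 16 :=
  SqZ.mk (a := (-2560)) (b := (-2048)) (c := 2560) (d := 3072) (by norm_num) (by norm_num) (by norm_num) (by norm_num)
    (CovZ.topM TW_LL 0 (by decide +kernel) (CovZ.badM (by decide +kernel)))
    (CovZ.topM TW_LL 0 (by decide +kernel) (CovZ.badM (by decide +kernel)))

theorem TW_s5_16 : SqZ TW_M TW_L [0, 7, 4, 3] (-4608) (-5632) 512 5 16 :=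
  SqZ.mk (a := (-2048)) (b := (-1536)) (c := 2560) (d := 3072) (by norm_num) (by norm_num) (by norm_num) (by norm_num)
    (CovZ.topM TW_LL 0 (by decide +kernel) (CovZ.badM (by decide +kernel)))
    (CovZ.topM TW_LL 0 (by decide +kernel) (CovZ.badM (by decide +kernel)))

theorem TW_s6_16 : SqZ TW_M TW_L [0, 7, 4, 3] (-4608) (-5632) 512 6 16 :=
  SqZ.mk (a := (-1536)) (b := (-1024)) (c := 2560) (d := 3072) (by norm_num) (by norm_num) (by norm_num) (by norm_num)
    (CovZ.topM TW_LL 0 (by decide +kernel) (CovZ.badM (by decide +kernel)))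
    (CovZ.topM TW_LL 0 (by decide +kernel) (CovZ.badM (by decide +kernel)))

theorem TW_s7_16 : SqZ TW_M TW_L [0, 7, 4, 3] (-4608) (-5632) 512 7 16 :=
  SqZ.mk (a := (-1024)) (b := (-512)) (c := 2560) (d := 3072) (by norm_num) (by norm_num) (by norm_num) (by norm_num)
    (CovZ.topM TW_LL 0 (by decide +kernel) (CovZ.badM (by decide +kernel)))
    (CovZ.topM TW_LL 0 (by decide +kernel) (CovZ.badM (by decide +kernel)))

theorem TW_s8_16 : SqZ TW_M TW_L [0, 7, 4, 3] (-4608) (-5632) 512 8 16 :=
  SqZ.mk (a := (-512)) (b := 0) (c := 2560) (d := 3072) (by norm_num) (by norm_num) (by norm_num) (by norm_num)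
    (CovZ.topM TW_LL 0 (by decide +kernel) (CovZ.badM (by decide +kernel)))
    (CovZ.topM TW_LL 0 (by decide +kernel) (CovZ.badM (by decide +kernel)))

theorem TW_s9_16 : SqZ TW_M TW_L [0, 7, 4, 3] (-4608) (-5632) 512 9 16 :=
  SqZ.mk (a := 0) (b := 512) (c := 2560) (d := 3072) (by norm_num) (by norm_num) (by norm_num) (by norm_num)
    (CovZ.topM TW_LL 2 (by decide +kernel) (CovZ.n2 (256, 2816) (by decide +kernel)
    (CovZ.n2 (512, 2816) (by decide +kernel)
     (CovZ.n2 (384, 2688) (by decide +kernel)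
      (CovZ.n2 (384, 2816) (by decide +kernel)
       (CovZ.badM (by decide +kernel))
       (CovZ.n1 (320, 2752) (by decide +kernel)
        (CovZ.badM (by decide +kernel))
        (CovZ.badM (by decide +kernel))))
      (CovZ.badM (by decide +kernel)))
     (CovZ.n1 (384, 2944) (by decide +kernel)
      (CovZ.badM (by decide +kernel))
      (CovZ.n1 (384, 2816) (by decide +kernel)
       (CovZ.badM (by decide +kernel))
       (CovZ.badM (by decide +kernel)))))
    (CovZ.n1 (256, 2560) (by decide +kernel)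
     (CovZ.n2 (128, 2688) (by decide +kernel)
      (CovZ.n2 (256, 2688) (by decide +kernel)
       (CovZ.n2 (192, 2624) (by decide +kernel)
        (CovZ.badM (by decide +kernel))
        (CovZ.n1 (256, 2624) (by decide +kernel)
         (CovZ.n2 (224, 2592) (by decide +kernel)
          (CovZ.badM (by decide +kernel))
          (CovZ.leaf K2_ok TW_l4147 _))
         (CovZ.badM (by decide +kernel))))
       (CovZ.badM (by decide +kernel)))
      (CovZ.n1 (128, 2560) (by decide +kernel)
       (CovZ.badM (by decide +kernel))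
       (CovZ.n1 (192, 2624) (by decide +kernel)
        (CovZ.n2 (192, 2560) (by decide +kernel)
         (CovZ.badM (by decide +kernel))
         (CovZ.leaf K2_ok TW_l4148 _))
        (CovZ.badM (by decide +kernel)))))
     (CovZ.n1 (384, 2688) (by decide +kernel)
      (CovZ.n2 (384, 2560) (by decide +kernel)
       (CovZ.n2 (320, 2624) (by decide +kernel)
        (CovZ.n2 (384, 2624) (by decide +kernel)
         (CovZ.n2 (352, 2592) (by decide +kernel)
          (CovZ.leaf K2_ok TW_l4149 _)
          (CovZ.n1 (384, 2592) (by decide +kernel)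
           (CovZ.leaf K2_ok TW_l4150 _)
           (CovZ.leaf K2_ok TW_l4151 _)))
         (CovZ.n1 (352, 2656) (by decide +kernel)
          (CovZ.badM (by decide +kernel))
          (CovZ.leaf K2_ok TW_l4152 _)))
        (CovZ.n1 (320, 2560) (by decide +kernel)
         (CovZ.n2 (288, 2592) (by decide +kernel)
          (CovZ.leaf K2_ok TW_l4153 _)
          (CovZ.leaf K2_ok TW_l4154 _))
         (CovZ.leaf K2_ok TW_l4155 _)))
       (CovZ.badM (by decide +kernel)))
      (CovZ.n1 (256, 2688) (by decide +kernel)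
       (CovZ.n2 (320, 2752) (by decide +kernel)
        (CovZ.n2 (320, 2688) (by decide +kernel)
         (CovZ.badM (by decide +kernel))
         (CovZ.n1 (352, 2720) (by decide +kernel)
          (CovZ.n2 (352, 2688) (by decide +kernel)
           (CovZ.n2 (336, 2704) (by decide +kernel)
            (CovZ.badM (by decide +kernel))
            (CovZ.leaf K2_ok TW_l4156 _))
           (CovZ.badM (by decide +kernel)))
          (CovZ.badM (by decide +kernel))))
        (CovZ.badM (by decide +kernel)))
       (CovZ.n1 (320, 2624) (by decide +kernel)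
        (CovZ.n2 (256, 2624) (by decide +kernel)
         (CovZ.n2 (288, 2656) (by decide +kernel)
          (CovZ.leaf K2_ok TW_l4157 _)
          (CovZ.badM (by decide +kernel)))
         (CovZ.n1 (288, 2592) (by decide +kernel)
          (CovZ.leaf K2_ok TW_l4158 _)
          (CovZ.leaf K2_ok TW_l4159 _)))
        (CovZ.n1 (320, 2688) (by decide +kernel)
         (CovZ.n2 (352, 2656) (by decide +kernel)
          (CovZ.n2 (320, 2656) (by decide +kernel)
           (CovZ.leaf K2_ok TW_l4160 _)
           (CovZ.leaf K2_ok TW_l4161 _))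
          (CovZ.n1 (352, 2688) (by decide +kernel)
           (CovZ.badM (by decide +kernel))
           (CovZ.n1 (336, 2672) (by decide +kernel)
            (CovZ.leaf K2_ok TW_l4162 _)
            (CovZ.badM (by decide +kernel)))))
         (CovZ.n1 (288, 2656) (by decide +kernel)
          (CovZ.badM (by decide +kernel))
          (CovZ.n1 (320, 2656) (by decide +kernel)
           (CovZ.leaf K2_ok TW_l4163 _)
           (CovZ.leaf K2_ok TW_l4164 _))))))))))
    (CovZ.topM TW_LL 0 (by decide +kernel) (CovZ.badM (by decide +kernel)))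

theorem TW_s10_16 : SqZ TW_M TW_L [0, 7, 4, 3] (-4608) (-5632) 512 10 16 :=
  SqZ.mk (a := 512) (b := 1024) (c := 2560) (d := 3072) (by norm_num) (by norm_num) (by norm_num) (by norm_num)
    (CovZ.topM TW_LL 0 (by decide +kernel) (CovZ.badM (by decide +kernel)))
    (CovZ.topM TW_LL 0 (by decide +kernel) (CovZ.badM (by decide +kernel)))

theorem TW_s11_16 : SqZ TW_M TW_L [0, 7, 4, 3] (-4608) (-5632) 512 11 16 :=
  SqZ.mk (a := 1024) (b := 1536) (c := 2560) (d := 3072) (by norm_num) (by norm_num) (by norm_num) (by norm_num)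
    (CovZ.topM TW_LL 0 (by decide +kernel) (CovZ.badM (by decide +kernel)))
    (CovZ.topM TW_LL 0 (by decide +kernel) (CovZ.badM (by decide +kernel)))

theorem TW_s12_16 : SqZ TW_M TW_L [0, 7, 4, 3] (-4608) (-5632) 512 12 16 :=
  SqZ.mk (a := 1536) (b := 2048) (c := 2560) (d := 3072) (by norm_num) (by norm_num) (by norm_num) (by norm_num)
    (CovZ.topM TW_LL 0 (by decide +kernel) (CovZ.badM (by decide +kernel)))
    (CovZ.topM TW_LL 0 (by decide +kernel) (CovZ.badM (by decide +kernel)))

theorem TW_s13_16 : SqZ TW_M TW_L [0, 7, 4, 3] (-4608) (-5632) 512 13 16 :=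
  SqZ.mk (a := 2048) (b := 2560) (c := 2560) (d := 3072) (by norm_num) (by norm_num) (by norm_num) (by norm_num)
    (CovZ.topM TW_LL 0 (by decide +kernel) (CovZ.badM (by decide +kernel)))
    (CovZ.topM TW_LL 0 (by decide +kernel) (CovZ.badM (by decide +kernel)))

theorem TW_s14_16 : SqZ TW_M TW_L [0, 7, 4, 3] (-4608) (-5632) 512 14 16 :=
  SqZ.mk (a := 2560) (b := 3072) (c := 2560) (d := 3072) (by norm_num) (by norm_num) (by norm_num) (by norm_num)
    (CovZ.topM TW_LL 0 (by decide +kernel) (CovZ.badM (by decide +kernel)))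
    (CovZ.topM TW_LL 0 (by decide +kernel) (CovZ.badM (by decide +kernel)))

theorem TW_s15_16 : SqZ TW_M TW_L [0, 7, 4, 3] (-4608) (-5632) 512 15 16 :=
  SqZ.mk (a := 3072) (b := 3584) (c := 2560) (d := 3072) (by norm_num) (by norm_num) (by norm_num) (by norm_num)
    (CovZ.topM TW_LL 0 (by decide +kernel) (CovZ.badM (by decide +kernel)))
    (CovZ.topM TW_LL 0 (by decide +kernel) (CovZ.badM (by decide +kernel)))

theorem TW_s16_16 : SqZ TW_M TW_L [0, 7, 4, 3] (-4608) (-5632) 512 16 16 :=
  SqZ.mk (a := 3584) (b := 4096) (c := 2560) (d := 3072) (by norm_num) (by norm_num) (by norm_num) (by norm_num)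
    (CovZ.topM TW_LL 0 (by decide +kernel) (CovZ.badM (by decide +kernel)))
    (CovZ.topM TW_LL 0 (by decide +kernel) (CovZ.badM (by decide +kernel)))

end Pool.Agent.TET
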