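import Pool.Agent.Helper38_TET.RegS
import Pool.Agent.Helper38_TET.TW_S0
import Pool.Agent.Helper38_TET.TW_S1
import Pool.Agent.Helper38_TET.TW_S2
import Pool.Agent.Helper38_TET.TW_S3
import Pool.Agent.Helper38_TET.TW_S4

/-!
# MP_c7c9bf_co: certificates, family TW
-/

set_option autoImplicit false
set_option maxRecDepth 100000

namespace Pool.Agent.TET

theorem TW_r0 : ∀ i < 17, SqZ TW_M TW_L [0, 7, 4, 3] (-4608) (-5632) 512 i 0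
  | 0, _ => TW_s0_0
  | 1, _ => TW_s1_0
  | 2, _ => TW_s2_0
  | 3, _ => TW_s3_0
  | 4, _ => TW_s4_0
  | 5, _ => TW_s5_0
  | 6, _ => TW_s6_0
  | 7, _ => TW_s7_0
  | 8, _ => TW_s8_0
  | 9, _ => TW_s9_0
  | 10, _ => TW_s10_0
  | 11, _ => TW_s11_0
  | 12, _ => TW_s12_0
  | 13, _ => TW_s13_0
  | 14, _ => TW_s14_0
  | 15, _ => TW_s15_0
  | 16, _ => TW_s16_0
  | n + 17, h => absurd h (by omega)

theorem TW_r1 : ∀ i < 17, SqZ TW_M TW_L [0, 7, 4, 3] (-4608) (-5632) 512 i 1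
  | 0, _ => TW_s0_1
  | 1, _ => TW_s1_1
  | 2, _ => TW_s2_1
  | 3, _ => TW_s3_1
  | 4, _ => TW_s4_1
  | 5, _ => TW_s5_1
  | 6, _ => TW_s6_1
  | 7, _ => TW_s7_1
  | 8, _ => TW_s8_1
  | 9, _ => TW_s9_1
  | 10, _ => TW_s10_1
  | 11, _ => TW_s11_1
  | 12, _ => TW_s12_1
  | 13, _ => TW_s13_1
  | 14, _ => TW_s14_1
  | 15, _ => TW_s15_1
  | 16, _ => TW_s16_1
  | n + 17, h => absurd h (by omega)

theorem TW_r2 : ∀ i < 17, SqZ TW_M TW_L [0, 7, 4, 3] (-4608) (-5632) 512 i 2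
  | 0, _ => TW_s0_2
  | 1, _ => TW_s1_2
  | 2, _ => TW_s2_2
  | 3, _ => TW_s3_2
  | 4, _ => TW_s4_2
  | 5, _ => TW_s5_2
  | 6, _ => TW_s6_2
  | 7, _ => TW_s7_2
  | 8, _ => TW_s8_2
  | 9, _ => TW_s9_2
  | 10, _ => TW_s10_2
  | 11, _ => TW_s11_2
  | 12, _ => TW_s12_2
  | 13, _ => TW_s13_2
  | 14, _ => TW_s14_2
  | 15, _ => TW_s15_2
  | 16, _ => TW_s16_2
  | n + 17, h => absurd h (by omega)

theorem TW_r3 : ∀ i < 17, SqZ TW_M TW_L [0, 7, 4, 3] (-4608) (-5632) 512 i 3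
  | 0, _ => TW_s0_3
  | 1, _ => TW_s1_3
  | 2, _ => TW_s2_3
  | 3, _ => TW_s3_3
  | 4, _ => TW_s4_3
  | 5, _ => TW_s5_3
  | 6, _ => TW_s6_3
  | 7, _ => TW_s7_3
  | 8, _ => TW_s8_3
  | 9, _ => TW_s9_3
  | 10, _ => TW_s10_3
  | 11, _ => TW_s11_3
  | 12, _ => TW_s12_3
  | 13, _ => TW_s13_3
  | 14, _ => TW_s14_3
  | 15, _ => TW_s15_3
  | 16, _ => TW_s16_3
  | n + 17, h => absurd h (by omega)

theorem TW_r4 : ∀ i < 17, SqZ TW_M TW_L [0, 7, 4, 3] (-4608) (-5632) 512 i 4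
  | 0, _ => TW_s0_4
  | 1, _ => TW_s1_4
  | 2, _ => TW_s2_4
  | 3, _ => TW_s3_4
  | 4, _ => TW_s4_4
  | 5, _ => TW_s5_4
  | 6, _ => TW_s6_4
  | 7, _ => TW_s7_4
  | 8, _ => TW_s8_4
  | 9, _ => TW_s9_4
  | 10, _ => TW_s10_4
  | 11, _ => TW_s11_4
  | 12, _ => TW_s12_4
  | 13, _ => TW_s13_4
  | 14, _ => TW_s14_4
  | 15, _ => TW_s15_4
  | 16, _ => TW_s16_4
  | n + 17, h => absurd h (by omega)

theorem TW_r5 : ∀ i < 17, SqZ TW_M TW_L [0, 7, 4, 3] (-4608) (-5632) 512 i 5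
  | 0, _ => TW_s0_5
  | 1, _ => TW_s1_5
  | 2, _ => TW_s2_5
  | 3, _ => TW_s3_5
  | 4, _ => TW_s4_5
  | 5, _ => TW_s5_5
  | 6, _ => TW_s6_5
  | 7, _ => TW_s7_5
  | 8, _ => TW_s8_5
  | 9, _ => TW_s9_5
  | 10, _ => TW_s10_5
  | 11, _ => TW_s11_5
  | 12, _ => TW_s12_5
  | 13, _ => TW_s13_5
  | 14, _ => TW_s14_5
  | 15, _ => TW_s15_5
  | 16, _ => TW_s16_5
  | n + 17, h => absurd h (by omega)

theorem TW_r6 : ∀ i < 17, SqZ TW_M TW_L [0, 7, 4, 3] (-4608) (-5632) 512 i 6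
  | 0, _ => TW_s0_6
  | 1, _ => TW_s1_6
  | 2, _ => TW_s2_6
  | 3, _ => TW_s3_6
  | 4, _ => TW_s4_6
  | 5, _ => TW_s5_6
  | 6, _ => TW_s6_6
  | 7, _ => TW_s7_6
  | 8, _ => TW_s8_6
  | 9, _ => TW_s9_6
  | 10, _ => TW_s10_6
  | 11, _ => TW_s11_6
  | 12, _ => TW_s12_6
  | 13, _ => TW_s13_6
  | 14, _ => TW_s14_6
  | 15, _ => TW_s15_6
  | 16, _ => TW_s16_6
  | n + 17, h => absurd h (by omega)

theorem TW_r7 : ∀ i < 17, SqZ TW_M TW_L [0, 7, 4, 3] (-4608) (-5632) 512 i 7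
  | 0, _ => TW_s0_7
  | 1, _ => TW_s1_7
  | 2, _ => TW_s2_7
  | 3, _ => TW_s3_7
  | 4, _ => TW_s4_7
  | 5, _ => TW_s5_7
  | 6, _ => TW_s6_7
  | 7, _ => TW_s7_7
  | 8, _ => TW_s8_7
  | 9, _ => TW_s9_7
  | 10, _ => TW_s10_7
  | 11, _ => TW_s11_7
  | 12, _ => TW_s12_7
  | 13, _ => TW_s13_7
  | 14, _ => TW_s14_7
  | 15, _ => TW_s15_7
  | 16, _ => TW_s16_7
  | n + 17, h => absurd h (by omega)

theorem TW_r8 : ∀ i < 17, SqZ TW_M TW_L [0, 7, 4, 3] (-4608) (-5632) 512 i 8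
  | 0, _ => TW_s0_8
  | 1, _ => TW_s1_8
  | 2, _ => TW_s2_8
  | 3, _ => TW_s3_8
  | 4, _ => TW_s4_8
  | 5, _ => TW_s5_8
  | 6, _ => TW_s6_8
  | 7, _ => TW_s7_8
  | 8, _ => TW_s8_8
  | 9, _ => TW_s9_8
  | 10, _ => TW_s10_8
  | 11, _ => TW_s11_8
  | 12, _ => TW_s12_8
  | 13, _ => TW_s13_8
  | 14, _ => TW_s14_8
  | 15, _ => TW_s15_8
  | 16, _ => TW_s16_8
  | n + 17, h => absurd h (by omega)

theorem TW_r9 : ∀ i < 17, SqZ TW_M TW_L [0, 7, 4, 3] (-4608) (-5632) 512 i 9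
  | 0, _ => TW_s0_9
  | 1, _ => TW_s1_9
  | 2, _ => TW_s2_9
  | 3, _ => TW_s3_9
  | 4, _ => TW_s4_9
  | 5, _ => TW_s5_9
  | 6, _ => TW_s6_9
  | 7, _ => TW_s7_9
  | 8, _ => TW_s8_9
  | 9, _ => TW_s9_9
  | 10, _ => TW_s10_9
  | 11, _ => TW_s11_9
  | 12, _ => TW_s12_9
  | 13, _ => TW_s13_9
  | 14, _ => TW_s14_9
  | 15, _ => TW_s15_9
  | 16, _ => TW_s16_9
  | n + 17, h => absurd h (by omega)

theorem TW_r10 : ∀ i < 17, SqZ TW_M TW_L [0, 7, 4, 3] (-4608) (-5632) 512 i 10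
  | 0, _ => TW_s0_10
  | 1, _ => TW_s1_10
  | 2, _ => TW_s2_10
  | 3, _ => TW_s3_10
  | 4, _ => TW_s4_10
  | 5, _ => TW_s5_10
  | 6, _ => TW_s6_10
  | 7, _ => TW_s7_10
  | 8, _ => TW_s8_10
  | 9, _ => TW_s9_10
  | 10, _ => TW_s10_10
  | 11, _ => TW_s11_10
  | 12, _ => TW_s12_10
  | 13, _ => TW_s13_10
  | 14, _ => TW_s14_10
  | 15, _ => TW_s15_10
  | 16, _ => TW_s16_10
  | n + 17, h => absurd h (by omega)

theorem TW_r11 : ∀ i < 17, SqZ TW_M TW_L [0, 7, 4, 3] (-4608) (-5632) 512 i 11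
  | 0, _ => TW_s0_11
  | 1, _ => TW_s1_11
  | 2, _ => TW_s2_11
  | 3, _ => TW_s3_11
  | 4, _ => TW_s4_11
  | 5, _ => TW_s5_11
  | 6, _ => TW_s6_11
  | 7, _ => TW_s7_11
  | 8, _ => TW_s8_11
  | 9, _ => TW_s9_11
  | 10, _ => TW_s10_11
  | 11, _ => TW_s11_11
  | 12, _ => TW_s12_11
  | 13, _ => TW_s13_11
  | 14, _ => TW_s14_11
  | 15, _ => TW_s15_11
  | 16, _ => TW_s16_11
  | n + 17, h => absurd h (by omega)

theorem TW_r12 : ∀ i < 17, SqZ TW_M TW_L [0, 7, 4, 3] (-4608) (-5632) 512 i 12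
  | 0, _ => TW_s0_12
  | 1, _ => TW_s1_12
  | 2, _ => TW_s2_12
  | 3, _ => TW_s3_12
  | 4, _ => TW_s4_12
  | 5, _ => TW_s5_12
  | 6, _ => TW_s6_12
  | 7, _ => TW_s7_12
  | 8, _ => TW_s8_12
  | 9, _ => TW_s9_12
  | 10, _ => TW_s10_12
  | 11, _ => TW_s11_12
  | 12, _ => TW_s12_12
  | 13, _ => TW_s13_12
  | 14, _ => TW_s14_12
  | 15, _ => TW_s15_12
  | 16, _ => TW_s16_12
  | n + 17, h => absurd h (by omega)

theorem TW_r13 : ∀ i < 17, SqZ TW_M TW_L [0, 7, 4, 3] (-4608) (-5632) 512 i 13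
  | 0, _ => TW_s0_13
  | 1, _ => TW_s1_13
  | 2, _ => TW_s2_13
  | 3, _ => TW_s3_13
  | 4, _ => TW_s4_13
  | 5, _ => TW_s5_13
  | 6, _ => TW_s6_13
  | 7, _ => TW_s7_13
  | 8, _ => TW_s8_13
  | 9, _ => TW_s9_13
  | 10, _ => TW_s10_13
  | 11, _ => TW_s11_13
  | 12, _ => TW_s12_13
  | 13, _ => TW_s13_13
  | 14, _ => TW_s14_13
  | 15, _ => TW_s15_13
  | 16, _ => TW_s16_13
  | n + 17, h => absurd h (by omega)

theorem TW_r14 : ∀ i < 17, SqZ TW_M TW_L [0, 7, 4, 3] (-4608) (-5632) 512 i 14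
  | 0, _ => TW_s0_14
  | 1, _ => TW_s1_14
  | 2, _ => TW_s2_14
  | 3, _ => TW_s3_14
  | 4, _ => TW_s4_14
  | 5, _ => TW_s5_14
  | 6, _ => TW_s6_14
  | 7, _ => TW_s7_14
  | 8, _ => TW_s8_14
  | 9, _ => TW_s9_14
  | 10, _ => TW_s10_14
  | 11, _ => TW_s11_14
  | 12, _ => TW_s12_14
  | 13, _ => TW_s13_14
  | 14, _ => TW_s14_14
  | 15, _ => TW_s15_14
  | 16, _ => TW_s16_14
  | n + 17, h => absurd h (by omega)

theorem TW_r15 : ∀ i < 17, SqZ TW_M TW_L [0, 7, 4, 3] (-4608) (-5632) 512 i 15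
  | 0, _ => TW_s0_15
  | 1, _ => TW_s1_15
  | 2, _ => TW_s2_15
  | 3, _ => TW_s3_15
  | 4, _ => TW_s4_15
  | 5, _ => TW_s5_15
  | 6, _ => TW_s6_15
  | 7, _ => TW_s7_15
  | 8, _ => TW_s8_15
  | 9, _ => TW_s9_15
  | 10, _ => TW_s10_15
  | 11, _ => TW_s11_15
  | 12, _ => TW_s12_15
  | 13, _ => TW_s13_15
  | 14, _ => TW_s14_15
  | 15, _ => TW_s15_15
  | 16, _ => TW_s16_15
  | n + 17, h => absurd h (by omega)

theorem TW_r16 : ∀ i < 17, SqZ TW_M TW_L [0, 7, 4, 3] (-4608) (-5632) 512 i 16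
  | 0, _ => TW_s0_16
  | 1, _ => TW_s1_16
  | 2, _ => TW_s2_16
  | 3, _ => TW_s3_16
  | 4, _ => TW_s4_16
  | 5, _ => TW_s5_16
  | 6, _ => TW_s6_16
  | 7, _ => TW_s7_16
  | 8, _ => TW_s8_16
  | 9, _ => TW_s9_16
  | 10, _ => TW_s10_16
  | 11, _ => TW_s11_16
  | 12, _ => TW_s12_16
  | 13, _ => TW_s13_16
  | 14, _ => TW_s14_16
  | 15, _ => TW_s15_16
  | 16, _ => TW_s16_16
  | n + 17, h => absurd h (by omega)

theorem TW_rows : ∀ j < 17, ∀ i < 17, SqZ TW_M TW_L [0, 7, 4, 3] (-4608) (-5632) 512 i j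
  | 0, _ => TW_r0
  | 1, _ => TW_r1
  | 2, _ => TW_r2
  | 3, _ => TW_r3
  | 4, _ => TW_r4
  | 5, _ => TW_r5
  | 6, _ => TW_r6
  | 7, _ => TW_r7
  | 8, _ => TW_r8
  | 9, _ => TW_r9
  | 10, _ => TW_r10
  | 11, _ => TW_r11
  | 12, _ => TW_r12
  | 13, _ => TW_r13
  | 14, _ => TW_r14
  | 15, _ => TW_r15
  | 16, _ => TW_r16
  | n + 17, h => absurd h (by omega)

theorem TW_cov (X Y : ℝ) (h1 : ((-4608 : ℤ) : ℝ) ≤ X) (h2 : X ≤ (4096 : ℤ)) (h3 : ((-5632 : ℤ) : ℝ) ≤ Y)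
    (h4 : Y ≤ (3072 : ℤ)) : Out TW_L X Y ∨ GoodV [0, 7, 4, 3] (TW_M.v X Y) := by
  push_cast at h1 h2 h3 h4
  refine gridZ (by norm_num) (by norm_num) (by norm_num) TW_rows ?_ ?_ ?_ ?_ <;> push_cast <;> linarith

theorem TW_sc : ∀ a : Fin 3, (![1, 1, 5] : Fin 3 → ℝ) a ≠ 0 := by
  intro a
  fin_cases a <;> simp

theorem TW_fr (x y : ℝ) : scl ![1, 1, 5] (VV ((-3 : ℤ) : ℝ) ((-2 : ℤ) : ℝ) ((5 : ℤ) : ℝ) (x / (1 : ℤ)) (y / (1 : ℤ))) =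
    TW_M.v (30720 * x / (1 : ℤ)) (30720 * y / (1 : ℤ)) := by
  funext i j
  fin_cases i <;> fin_cases j <;> simp [scl, VV, FM.v, Z3.ev, TW_M] <;> ring

end Pool.Agent.TET
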