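import Pool.Agent.Helper38_TET.TW_C

/-!
# MP_c7c9bf_co: certificates, family TW
-/

set_option autoImplicit false
set_option maxRecDepth 100000

namespace Pool.Agent.TET

theorem TW_rg0 : ROK [.q ⟨0, -3, -2, 5⟩ ⟨4527, -915, -4192, 580⟩, .q ⟨0, -3, -2, 5⟩ ⟨-1627, 3006, -2239, 860⟩, .q ⟨0, -3, -2, 5⟩ ⟨-5521, 3137, 1984, 400⟩, .q ⟨0, -3, -2, 5⟩ ⟨0, -923, 563, 360⟩] := by
  refine rok_w (v := ⟨0, -3, -2, 5⟩) (q := 1) (by decide) (by decide) (by decide) TW_sc (k := 1) (by decide) (Q := [(-567, -3960, 116), (3522, -1895, 172), (3377, 2144, 80), (-707, 707, 72)])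
    (P := [⟨3563520, -567, -3960⟩, ⟨5283840, 3522, -1895⟩, ⟨2457600, 3377, 2144⟩, ⟨2211840, -707, 707⟩]) rfl rfl
    (List.mem_of_getElem? (i := 0) rfl) TW_fr TW_cov ?_
  · intro X Y h
    simp only [List.forall_mem_cons, List.not_mem_nil, false_imp_iff, implies_true, and_true] at h
    push_cast at h ⊢
    obtain ⟨h0, h1, h2, h3⟩ := h
    refine ⟨⟨?_, ?_⟩, ?_, ?_⟩ <;> linarith

theorem TW_rg1 : ROK [.q ⟨0, -3, -2, 5⟩ ⟨-5656, 641, 1435, 3580⟩, .q ⟨0, -3, -2, 5⟩ ⟨-1718, -2745, 2948, 1515⟩, .q ⟨0, -3, -2, 5⟩ ⟨4935, -4258, -1357, 680⟩, .q ⟨0, -3, -2, 5⟩ ⟨-988, 2787, -2619, 820⟩] := by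
  refine rok_w (v := ⟨0, -3, -2, 5⟩) (q := 1) (by decide) (by decide) (by decide) TW_sc (k := 1) (by decide) (Q := [(2789, 2867, 716), (-1836, 3554, 303), (-3850, -1085, 136), (3279, -2291, 164)])
    (P := [⟨21995520, 2789, 2867⟩, ⟨9308160, -1836, 3554⟩, ⟨4177920, -3850, -1085⟩, ⟨5038080, 3279, -2291⟩]) rfl rfl
    (List.mem_of_getElem? (i := 1) rfl) TW_fr TW_cov ?_
  · intro X Y h
    simp only [List.forall_mem_cons, List.not_mem_nil, false_imp_iff, implies_true, and_true] at h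
    push_cast at h ⊢
    obtain ⟨h0, h1, h2, h3⟩ := h
    refine ⟨⟨?_, ?_⟩, ?_, ?_⟩ <;> linarith

theorem TW_rg2 : ROK [.q ⟨0, -3, -2, 5⟩ ⟨1000, -57, -1038, 95⟩, .q ⟨0, -3, -2, 5⟩ ⟨-1786, 3364, -1933, 355⟩, .q ⟨0, -3, -2, 5⟩ ⟨-2527, -2656, 2868, 2315⟩, .q ⟨0, -3, -2, 5⟩ ⟨721, -3955, 1919, 1315⟩] := by
  refine rok_w (v := ⟨0, -3, -2, 5⟩) (q := 1) (by decide) (by decide) (by decide) TW_sc (k := 1) (by decide) (Q := [(0, -1000, 19), (3577, -1791, 71), (-1267, 3794, 463), (-3166, 2445, 263)])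
    (P := [⟨583680, 0, -1000⟩, ⟨2181120, 3577, -1791⟩, ⟨14223360, -1267, 3794⟩, ⟨8079360, -3166, 2445⟩]) rfl rfl
    (List.mem_of_getElem? (i := 2) rfl) TW_fr TW_cov ?_
  · intro X Y h
    simp only [List.forall_mem_cons, List.not_mem_nil, false_imp_iff, implies_true, and_true] at h
    push_cast at h ⊢
    obtain ⟨h0, h1, h2, h3⟩ := h
    refine ⟨⟨?_, ?_⟩, ?_, ?_⟩ <;> linarith

theorem TW_rg3 : ROK [.q ⟨0, -3, -2, 5⟩ ⟨107, -3760, 2188, 1465⟩, .q ⟨0, -3, -2, 5⟩ ⟨5448, -2308, -1175, -1965⟩, .q ⟨0, -3, -2, 5⟩ ⟨-4000, 3013, -658, 1645⟩, .q ⟨0, -3, -2, 5⟩ ⟨-4530, -1694, 2449, 3775⟩] := by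
  refine rok_w (v := ⟨0, -3, -2, 5⟩) (q := 1) (by decide) (by decide) (by decide) TW_sc (k := 1) (by decide) (Q := [(-2881, 2774, 293), (-3487, -1961, -393), (4000, 0, 329), (571, 3959, 755)])
    (P := [⟨9000960, -2881, 2774⟩, ⟨-12072960, -3487, -1961⟩, ⟨10106880, 4000, 0⟩, ⟨23193600, 571, 3959⟩]) rfl rfl
    (List.mem_of_getElem? (i := 3) rfl) TW_fr TW_cov ?_
  · intro X Y h
    simp only [List.forall_mem_cons, List.not_mem_nil, false_imp_iff, implies_true, and_true] at h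
    push_cast at h ⊢
    obtain ⟨h0, h1, h2, h3⟩ := h
    refine ⟨⟨?_, ?_⟩, ?_, ?_⟩ <;> linarith

theorem TW_rg4 : ROK [.q ⟨0, -3, -2, 5⟩ ⟨-2000, 1451, -366, 915⟩, .q ⟨0, -3, -2, 5⟩ ⟨-3866, -2217, 2608, 3475⟩, .q ⟨0, -3, -2, 5⟩ ⟨1405, -3904, 1729, 770⟩, .q ⟨0, -3, -2, 5⟩ ⟨4519, 174, -3473, -1220⟩] := by
  refine rok_w (v := ⟨0, -3, -2, 5⟩) (q := 1) (by decide) (by decide) (by decide) TW_sc (k := 1) (by decide) (Q := [(2000, 0, 183), (-132, 3998, 695), (-3442, 2037, 154), (-558, -3961, -244)])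
    (P := [⟨5621760, 2000, 0⟩, ⟨21350400, -132, 3998⟩, ⟨4730880, -3442, 2037⟩, ⟨-7495680, -558, -3961⟩]) rfl rfl
    (List.mem_of_getElem? (i := 4) rfl) TW_fr TW_cov ?_
  · intro X Y h
    simp only [List.forall_mem_cons, List.not_mem_nil, false_imp_iff, implies_true, and_true] at h
    push_cast at h ⊢
    obtain ⟨h0, h1, h2, h3⟩ := h
    refine ⟨⟨?_, ?_⟩, ?_, ?_⟩ <;> linarith

end Pool.Agent.TET
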