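import Pool.Agent.Helper38_TET.CovN

/-!
# MP_c7c9bf_co: certificates, family TX
-/

set_option autoImplicit false
set_option maxRecDepth 100000

namespace Pool.Agent.TET

/-- the polygons -/
def TX_L : List (List Z3) :=
  [[⟨-19077120, 2114, 3171⟩, ⟨-26787840, -2022, 3033⟩, ⟨28692480, -2256, -4373⟩, ⟨17111040, 2815, -1407⟩, ⟨23347200, -233, -3108⟩],
   [⟨-45189120, 689, 6265⟩, ⟨-6174720, -3196, 5⟩, ⟨50380800, -2373, -7272⟩, ⟨5068800, 2227, 8⟩]]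

/-- the polygons in natural numbers -/
def TX_LN : List (List N6) :=
  [[⟨2114, 0, 3171, 0, 0, 711792640⟩, ⟨0, 2022, 3033, 0, 0, 159301632⟩, ⟨0, 2256, 0, 4373, 897568768, 0⟩, ⟨2815, 0, 0, 1407, 0, 167438336⟩, ⟨0, 233, 0, 3108, 461258752, 0⟩],
   [⟨689, 0, 6265, 0, 0, 956663808⟩, ⟨0, 3196, 5, 0, 412076032, 0⟩, ⟨0, 2373, 0, 7272, 1314570240, 0⟩, ⟨2227, 0, 8, 0, 0, 287877120⟩]]

theorem TX_LL : toL TX_LN = TX_L := eqLL_eq (by decide +kernel)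

end Pool.Agent.TET
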