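import Pool.Agent.Helper38_TET.TX_M
import Pool.Agent.Helper38_TET.TX_L
import Pool.Agent.Helper38_TET.TX_1
import Pool.Agent.Helper38_TET.TX_2
import Pool.Agent.Helper38_TET.TX_11
import Pool.Agent.Helper38_TET.TX_12
import Pool.Agent.Helper38_TET.TX_13
import Pool.Agent.Helper38_TET.TX_20
import Pool.Agent.Helper38_TET.TX_21
import Pool.Agent.Helper38_TET.TX_22
import Pool.Agent.Helper38_TET.TX_23
import Pool.Agent.Helper38_TET.TX_26
import Pool.Agent.Helper38_TET.TX_27

/-!
# MP_c7c9bf_co: certificates, family TX
-/

set_option autoImplicit false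
set_option maxRecDepth 100000

namespace Pool.Agent.TET

theorem TX_u0 : CovZ TX_M (toL (selN TX_LN 2)) [0, 7, 4, 3] (-2304, 7424) (-2272, 7456) (-2304, 7488) :=
    (CovZ.n2 (-2304, 7456) (by decide +kernel)
     (CovZ.n2 (-2288, 7472) (by decide +kernel)
      (CovZ.n2 (-2288, 7456) (by decide +kernel)
       (CovZ.n2 (-2296, 7464) (by decide +kernel)
        (CovZ.n2 (-2288, 7464) (by decide +kernel)
         (CovZ.badM (by decide +kernel))
         (CovZ.n1 (-2292, 7468) (by decide +kernel)
          (CovZ.n2 (-2288, 7468) (by decide +kernel)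
           (CovZ.n2 (-2290, 7466) (by decide +kernel)
            (CovZ.leaf K2_ok TX_l205 _)
            (CovZ.leaf K2_ok TX_l206 _))
           (CovZ.n1 (-2290, 7470) (by decide +kernel)
            (CovZ.leaf K2_ok TX_l207 _)
            (CovZ.leaf K2_ok TX_l208 _)))
          (CovZ.n1 (-2292, 7464) (by decide +kernel)
           (CovZ.n2 (-2294, 7466) (by decide +kernel)
            (CovZ.n2 (-2292, 7466) (by decide +kernel)
             (CovZ.leaf K2_ok TX_l209 _)
             (CovZ.leaf K2_ok TX_l210 _))
            (CovZ.n1 (-2294, 7464) (by decide +kernel)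
             (CovZ.leaf K2_ok TX_l211 _)
             (CovZ.n1 (-2293, 7465) (by decide +kernel)
              (CovZ.badM (by decide +kernel))
              (CovZ.leaf K2_ok TX_l213 _))))
           (CovZ.n1 (-2290, 7466) (by decide +kernel)
            (CovZ.leaf K2_ok TX_l214 _)
            (CovZ.n1 (-2292, 7466) (by decide +kernel)
             (CovZ.leaf K2_ok TX_l215 _)
             (CovZ.leaf K2_ok TX_l216 _))))))
        (CovZ.badM (by decide +kernel)))
       (CovZ.n1 (-2280, 7464) (by decide +kernel)
        (CovZ.n2 (-2280, 7456) (by decide +kernel)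
         (CovZ.n2 (-2284, 7460) (by decide +kernel)
          (CovZ.n2 (-2280, 7460) (by decide +kernel)
           (CovZ.badM (by decide +kernel))
           (CovZ.n1 (-2282, 7462) (by decide +kernel)
            (CovZ.n2 (-2280, 7462) (by decide +kernel)
             (CovZ.badM (by decide +kernel))
             (CovZ.leaf K2_ok TX_l221 _))
            (CovZ.badM (by decide +kernel))))
          (CovZ.badM (by decide +kernel)))
         (CovZ.n1 (-2276, 7460) (by decide +kernel)
          (CovZ.badM (by decide +kernel))
          (CovZ.n1 (-2280, 7460) (by decide +kernel)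
           (CovZ.n2 (-2278, 7462) (by decide +kernel)
            (CovZ.badM (by decide +kernel))
            (CovZ.n1 (-2280, 7462) (by decide +kernel)
             (CovZ.leaf K2_ok TX_l238 _)
             (CovZ.badM (by decide +kernel))))
           (CovZ.badM (by decide +kernel)))))
        (CovZ.n1 (-2288, 7464) (by decide +kernel)
         (CovZ.n2 (-2284, 7468) (by decide +kernel)
          (CovZ.n2 (-2284, 7464) (by decide +kernel)
           (CovZ.n2 (-2286, 7466) (by decide +kernel)
            (CovZ.n2 (-2284, 7466) (by decide +kernel)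
             (CovZ.leaf K2_ok TX_l243 _)
             (CovZ.leaf K2_ok TX_l244 _))
            (CovZ.leaf K2_ok TX_l245 _))
           (CovZ.leaf K2_ok TX_l246 _))
          (CovZ.n1 (-2288, 7468) (by decide +kernel)
           (CovZ.leaf K2_ok TX_l247 _)
           (CovZ.leaf K2_ok TX_l248 _)))
         (CovZ.n1 (-2284, 7460) (by decide +kernel)
          (CovZ.badM (by decide +kernel))
          (CovZ.n1 (-2284, 7464) (by decide +kernel)
           (CovZ.n2 (-2282, 7462) (by decide +kernel)
            (CovZ.badM (by decide +kernel))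
            (CovZ.leaf K2_ok TX_l264 _))
           (CovZ.badM (by decide +kernel)))))))
      (CovZ.n1 (-2304, 7472) (by decide +kernel)
       (CovZ.n2 (-2296, 7480) (by decide +kernel)
        (CovZ.n2 (-2296, 7472) (by decide +kernel)
         (CovZ.n2 (-2300, 7476) (by decide +kernel)
          (CovZ.n2 (-2296, 7476) (by decide +kernel)
           (CovZ.leaf K2_ok TX_l268 _)
           (CovZ.leaf K2_ok TX_l269 _))
          (CovZ.n1 (-2300, 7472) (by decide +kernel)
           (CovZ.n2 (-2302, 7474) (by decide +kernel)
            (CovZ.n2 (-2300, 7474) (by decide +kernel)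
             (CovZ.leaf K2_ok TX_l270 _)
             (CovZ.leaf K2_ok TX_l271 _))
            (CovZ.n1 (-2302, 7472) (by decide +kernel)
             (CovZ.leaf K2_ok TX_l272 _)
             (CovZ.leaf K2_ok TX_l273 _)))
           (CovZ.n1 (-2298, 7474) (by decide +kernel)
            (CovZ.leaf K2_ok TX_l274 _)
            (CovZ.n1 (-2300, 7474) (by decide +kernel)
             (CovZ.leaf K2_ok TX_l275 _)
             (CovZ.leaf K2_ok TX_l276 _)))))
         (CovZ.n1 (-2292, 7476) (by decide +kernel)
          (CovZ.n2 (-2292, 7472) (by decide +kernel)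
           (CovZ.leaf K2_ok TX_l277 _)
           (CovZ.leaf K2_ok TX_l278 _))
          (CovZ.n1 (-2296, 7476) (by decide +kernel)
           (CovZ.leaf K2_ok TX_l279 _)
           (CovZ.n1 (-2294, 7474) (by decide +kernel)
            (CovZ.leaf K2_ok TX_l280 _)
            (CovZ.leaf K2_ok TX_l281 _)))))
        (CovZ.n1 (-2304, 7480) (by decide +kernel)
         (CovZ.n2 (-2300, 7484) (by decide +kernel)
          (CovZ.n2 (-2300, 7480) (by decide +kernel)
           (CovZ.leaf K2_ok TX_l282 _)
           (CovZ.leaf K2_ok TX_l283 _))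
          (CovZ.n1 (-2304, 7484) (by decide +kernel)
           (CovZ.leaf K2_ok TX_l284 _)
           (CovZ.leaf K2_ok TX_l285 _)))
         (CovZ.n1 (-2300, 7476) (by decide +kernel)
          (CovZ.n2 (-2304, 7476) (by decide +kernel)
           (CovZ.n2 (-2302, 7478) (by decide +kernel)
            (CovZ.leaf K2_ok TX_l286 _)
            (CovZ.leaf K2_ok TX_l287 _))
           (CovZ.n1 (-2302, 7474) (by decide +kernel)
            (CovZ.n2 (-2304, 7474) (by decide +kernel)
             (CovZ.leaf K2_ok TX_l288 _)
             (CovZ.leaf K2_ok TX_l289 _))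
            (CovZ.leaf K2_ok TX_l290 _)))
          (CovZ.n1 (-2300, 7480) (by decide +kernel)
           (CovZ.leaf K2_ok TX_l291 _)
           (CovZ.n1 (-2302, 7478) (by decide +kernel)
            (CovZ.leaf K2_ok TX_l292 _)
            (CovZ.leaf K2_ok TX_l293 _))))))
       (CovZ.n1 (-2296, 7464) (by decide +kernel)
        (CovZ.n2 (-2304, 7464) (by decide +kernel)
         (CovZ.n2 (-2300, 7468) (by decide +kernel)
          (CovZ.n2 (-2300, 7464) (by decide +kernel)
           (CovZ.n2 (-2302, 7466) (by decide +kernel)
            (CovZ.n2 (-2300, 7466) (by decide +kernel)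
             (CovZ.n2 (-2301, 7465) (by decide +kernel)
              (CovZ.leaf K2_ok TX_l294 _)
              (CovZ.n1 (-2300, 7465) (by decide +kernel)
               (CovZ.badM (by decide +kernel))
               (CovZ.leaf K2_ok TX_l295 _)))
             (CovZ.n1 (-2301, 7467) (by decide +kernel)
              (CovZ.leaf K2_ok TX_l296 _)
              (CovZ.leaf K2_ok TX_l297 _)))
            (CovZ.badM (by decide +kernel)))
           (CovZ.n1 (-2298, 7466) (by decide +kernel)
            (CovZ.n2 (-2298, 7464) (by decide +kernel)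
             (CovZ.leaf K2_ok TX_l298 _)
             (CovZ.leaf K2_ok TX_l299 _))
            (CovZ.n1 (-2300, 7466) (by decide +kernel)
             (CovZ.leaf K2_ok TX_l300 _)
             (CovZ.n1 (-2299, 7465) (by decide +kernel)
              (CovZ.n2 (-2300, 7465) (by decide +kernel)
               (CovZ.leaf K2_ok TX_l301 _)
               (CovZ.badM (by decide +kernel)))
              (CovZ.leaf K2_ok TX_l302 _)))))
          (CovZ.n1 (-2304, 7468) (by decide +kernel)
           (CovZ.n2 (-2302, 7470) (by decide +kernel)
            (CovZ.n2 (-2302, 7468) (by decide +kernel)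
             (CovZ.n2 (-2303, 7469) (by decide +kernel)
              (CovZ.leaf K2_ok TX_l303 _)
              (CovZ.leaf K2_ok TX_l304 _))
             (CovZ.leaf K2_ok TX_l305 _))
            (CovZ.n1 (-2304, 7470) (by decide +kernel)
             (CovZ.leaf K2_ok TX_l306 _)
             (CovZ.leaf K2_ok TX_l307 _)))
           (CovZ.n1 (-2302, 7466) (by decide +kernel)
            (CovZ.n2 (-2304, 7466) (by decide +kernel)
             (CovZ.n2 (-2303, 7467) (by decide +kernel)
              (CovZ.leaf K2_ok TX_l308 _)
              (CovZ.badM (by decide +kernel)))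
             (CovZ.badM (by decide +kernel)))
            (CovZ.n1 (-2302, 7468) (by decide +kernel)
             (CovZ.n2 (-2301, 7467) (by decide +kernel)
              (CovZ.n2 (-2302, 7467) (by decide +kernel)
               (CovZ.leaf K2_ok TX_l309 _)
               (CovZ.leaf K2_ok TX_l310 _))
              (CovZ.leaf K2_ok TX_l311 _))
             (CovZ.n1 (-2303, 7467) (by decide +kernel)
              (CovZ.leaf K2_ok TX_l312 _)
              (CovZ.leaf K2_ok TX_l313 _))))))
         (CovZ.badM (by decide +kernel)))
        (CovZ.n1 (-2296, 7472) (by decide +kernel)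
         (CovZ.n2 (-2292, 7468) (by decide +kernel)
          (CovZ.n2 (-2296, 7468) (by decide +kernel)
           (CovZ.n2 (-2294, 7470) (by decide +kernel)
            (CovZ.leaf K2_ok TX_l314 _)
            (CovZ.n1 (-2296, 7470) (by decide +kernel)
             (CovZ.leaf K2_ok TX_l315 _)
             (CovZ.n1 (-2295, 7469) (by decide +kernel)
              (CovZ.n2 (-2296, 7469) (by decide +kernel)
               (CovZ.leaf K2_ok TX_l316 _)
               (CovZ.leaf K2_ok TX_l317 _))
              (CovZ.leaf K2_ok TX_l318 _))))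
           (CovZ.n1 (-2294, 7466) (by decide +kernel)
            (CovZ.n2 (-2296, 7466) (by decide +kernel)
             (CovZ.n2 (-2295, 7467) (by decide +kernel)
              (CovZ.n2 (-2295, 7466) (by decide +kernel)
               (CovZ.leaf K2_ok TX_l319 _)
               (CovZ.leaf K2_ok TX_l320 _))
              (CovZ.leaf K2_ok TX_l321 _))
             (CovZ.n1 (-2295, 7465) (by decide +kernel)
              (CovZ.leaf K2_ok TX_l322 _)
              (CovZ.n1 (-2295, 7466) (by decide +kernel)
               (CovZ.leaf K2_ok TX_l323 _)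
               (CovZ.leaf K2_ok TX_l324 _))))
            (CovZ.n1 (-2294, 7468) (by decide +kernel)
             (CovZ.leaf K2_ok TX_l325 _)
             (CovZ.leaf K2_ok TX_l326 _))))
          (CovZ.n1 (-2292, 7472) (by decide +kernel)
           (CovZ.n2 (-2290, 7470) (by decide +kernel)
            (CovZ.leaf K2_ok TX_l327 _)
            (CovZ.leaf K2_ok TX_l328 _))
           (CovZ.n1 (-2294, 7470) (by decide +kernel)
            (CovZ.leaf K2_ok TX_l329 _)
            (CovZ.leaf K2_ok TX_l330 _))))
         (CovZ.n1 (-2300, 7468) (by decide +kernel)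
          (CovZ.n2 (-2300, 7472) (by decide +kernel)
           (CovZ.n2 (-2298, 7470) (by decide +kernel)
            (CovZ.n2 (-2300, 7470) (by decide +kernel)
             (CovZ.leaf K2_ok TX_l331 _)
             (CovZ.leaf K2_ok TX_l332 _))
            (CovZ.leaf K2_ok TX_l333 _))
           (CovZ.n1 (-2302, 7470) (by decide +kernel)
            (CovZ.leaf K2_ok TX_l334 _)
            (CovZ.n1 (-2300, 7470) (by decide +kernel)
             (CovZ.leaf K2_ok TX_l335 _)
             (CovZ.leaf K2_ok TX_l336 _))))
          (CovZ.n1 (-2296, 7468) (by decide +kernel)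
           (CovZ.n2 (-2298, 7466) (by decide +kernel)
            (CovZ.n2 (-2298, 7468) (by decide +kernel)
             (CovZ.leaf K2_ok TX_l337 _)
             (CovZ.leaf K2_ok TX_l338 _))
            (CovZ.n1 (-2296, 7466) (by decide +kernel)
             (CovZ.leaf K2_ok TX_l339 _)
             (CovZ.leaf K2_ok TX_l340 _)))
           (CovZ.n1 (-2298, 7470) (by decide +kernel)
            (CovZ.n2 (-2296, 7470) (by decide +kernel)
             (CovZ.n2 (-2297, 7469) (by decide +kernel)
              (CovZ.leaf K2_ok TX_l341 _)
              (CovZ.leaf K2_ok TX_l342 _))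
             (CovZ.leaf K2_ok TX_l343 _))
            (CovZ.n1 (-2298, 7468) (by decide +kernel)
             (CovZ.leaf K2_ok TX_l344 _)
             (CovZ.n1 (-2297, 7469) (by decide +kernel)
              (CovZ.leaf K2_ok TX_l345 _)
              (CovZ.leaf K2_ok TX_l346 _))))))))))
     (CovZ.badM (by decide +kernel)))

theorem TX_u1 : CovZ TX_M (toL (selN TX_LN 2)) [0, 7, 4, 3] (-2272, 7456) (-2240, 7488) (-2304, 7488) :=
    (CovZ.n1 (-2272, 7488) (by decide +kernel)
     (CovZ.n2 (-2256, 7472) (by decide +kernel)
      (CovZ.n2 (-2272, 7472) (by decide +kernel)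
       (CovZ.n2 (-2264, 7480) (by decide +kernel)
        (CovZ.n2 (-2264, 7472) (by decide +kernel)
         (CovZ.n2 (-2268, 7476) (by decide +kernel)
          (CovZ.leaf K2_ok TX_l351 _)
          (CovZ.leaf K2_ok TX_l352 _))
         (CovZ.n1 (-2260, 7476) (by decide +kernel)
          (CovZ.leaf K2_ok TX_l353 _)
          (CovZ.leaf K2_ok TX_l354 _)))
        (CovZ.n1 (-2272, 7480) (by decide +kernel)
         (CovZ.leaf K2_ok TX_l355 _)
         (CovZ.n1 (-2268, 7476) (by decide +kernel)
          (CovZ.leaf K2_ok TX_l356 _)
          (CovZ.leaf K2_ok TX_l357 _))))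
       (CovZ.n1 (-2264, 7464) (by decide +kernel)
        (CovZ.n2 (-2272, 7464) (by decide +kernel)
         (CovZ.n2 (-2268, 7468) (by decide +kernel)
          (CovZ.n2 (-2268, 7464) (by decide +kernel)
           (CovZ.leaf K2_ok TX_l358 _)
           (CovZ.leaf K2_ok TX_l359 _))
          (CovZ.n1 (-2272, 7468) (by decide +kernel)
           (CovZ.leaf K2_ok TX_l360 _)
           (CovZ.leaf K2_ok TX_l361 _)))
         (CovZ.n1 (-2268, 7460) (by decide +kernel)
          (CovZ.n2 (-2272, 7460) (by decide +kernel)
           (CovZ.n2 (-2270, 7462) (by decide +kernel)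
            (CovZ.badM (by decide +kernel))
            (CovZ.leaf K2_ok TX_l363 _))
           (CovZ.badM (by decide +kernel)))
          (CovZ.leaf K2_ok TX_l366 _)))
        (CovZ.n1 (-2264, 7472) (by decide +kernel)
         (CovZ.n2 (-2260, 7468) (by decide +kernel)
          (CovZ.leaf K2_ok TX_l367 _)
          (CovZ.leaf K2_ok TX_l368 _))
         (CovZ.n1 (-2268, 7468) (by decide +kernel)
          (CovZ.leaf K2_ok TX_l369 _)
          (CovZ.n1 (-2264, 7468) (by decide +kernel)
           (CovZ.leaf K2_ok TX_l370 _)
           (CovZ.leaf K2_ok TX_l371 _))))))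
      (CovZ.n1 (-2256, 7488) (by decide +kernel)
       (CovZ.n2 (-2248, 7480) (by decide +kernel)
        (CovZ.n2 (-2256, 7480) (by decide +kernel)
         (CovZ.leaf K2_ok TX_l372 _)
         (CovZ.leaf K2_ok TX_l373 _))
        (CovZ.n1 (-2248, 7488) (by decide +kernel)
         (CovZ.leaf K2_ok TX_l374 _)
         (CovZ.leaf K2_ok TX_l375 _)))
       (CovZ.n1 (-2264, 7480) (by decide +kernel)
        (CovZ.n2 (-2264, 7488) (by decide +kernel)
         (CovZ.leaf K2_ok TX_l376 _)
         (CovZ.leaf K2_ok TX_l377 _))
        (CovZ.n1 (-2256, 7480) (by decide +kernel)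
         (CovZ.n2 (-2260, 7476) (by decide +kernel)
          (CovZ.leaf K2_ok TX_l378 _)
          (CovZ.leaf K2_ok TX_l379 _))
         (CovZ.leaf K2_ok TX_l380 _)))))
     (CovZ.n1 (-2288, 7472) (by decide +kernel)
      (CovZ.n2 (-2288, 7488) (by decide +kernel)
       (CovZ.n2 (-2280, 7480) (by decide +kernel)
        (CovZ.n2 (-2288, 7480) (by decide +kernel)
         (CovZ.n2 (-2284, 7484) (by decide +kernel)
          (CovZ.leaf K2_ok TX_l381 _)
          (CovZ.leaf K2_ok TX_l382 _))
         (CovZ.n1 (-2284, 7476) (by decide +kernel)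
          (CovZ.n2 (-2288, 7476) (by decide +kernel)
           (CovZ.leaf K2_ok TX_l383 _)
           (CovZ.leaf K2_ok TX_l384 _))
          (CovZ.leaf K2_ok TX_l385 _)))
        (CovZ.n1 (-2280, 7488) (by decide +kernel)
         (CovZ.leaf K2_ok TX_l386 _)
         (CovZ.n1 (-2284, 7484) (by decide +kernel)
          (CovZ.leaf K2_ok TX_l387 _)
          (CovZ.leaf K2_ok TX_l388 _))))
       (CovZ.n1 (-2296, 7480) (by decide +kernel)
        (CovZ.n2 (-2296, 7488) (by decide +kernel)
         (CovZ.n2 (-2292, 7484) (by decide +kernel)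
          (CovZ.n2 (-2296, 7484) (by decide +kernel)
           (CovZ.leaf K2_ok TX_l389 _)
           (CovZ.leaf K2_ok TX_l390 _))
          (CovZ.leaf K2_ok TX_l391 _))
         (CovZ.n1 (-2300, 7484) (by decide +kernel)
          (CovZ.leaf K2_ok TX_l392 _)
          (CovZ.n1 (-2296, 7484) (by decide +kernel)
           (CovZ.leaf K2_ok TX_l393 _)
           (CovZ.leaf K2_ok TX_l394 _))))
        (CovZ.n1 (-2288, 7480) (by decide +kernel)
         (CovZ.n2 (-2292, 7476) (by decide +kernel)
          (CovZ.leaf K2_ok TX_l395 _)
          (CovZ.n1 (-2288, 7476) (by decide +kernel)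
           (CovZ.leaf K2_ok TX_l396 _)
           (CovZ.leaf K2_ok TX_l397 _)))
         (CovZ.n1 (-2292, 7484) (by decide +kernel)
          (CovZ.n2 (-2288, 7484) (by decide +kernel)
           (CovZ.leaf K2_ok TX_l398 _)
           (CovZ.leaf K2_ok TX_l399 _))
          (CovZ.leaf K2_ok TX_l400 _)))))
      (CovZ.n1 (-2272, 7472) (by decide +kernel)
       (CovZ.n2 (-2280, 7464) (by decide +kernel)
        (CovZ.n2 (-2280, 7472) (by decide +kernel)
         (CovZ.n2 (-2276, 7468) (by decide +kernel)
          (CovZ.n2 (-2280, 7468) (by decide +kernel)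
           (CovZ.leaf K2_ok TX_l401 _)
           (CovZ.leaf K2_ok TX_l402 _))
          (CovZ.leaf K2_ok TX_l403 _))
         (CovZ.n1 (-2284, 7468) (by decide +kernel)
          (CovZ.leaf K2_ok TX_l404 _)
          (CovZ.n1 (-2280, 7468) (by decide +kernel)
           (CovZ.n2 (-2282, 7466) (by decide +kernel)
            (CovZ.leaf K2_ok TX_l405 _)
            (CovZ.leaf K2_ok TX_l406 _))
           (CovZ.leaf K2_ok TX_l407 _))))
        (CovZ.n1 (-2272, 7464) (by decide +kernel)
         (CovZ.n2 (-2276, 7460) (by decide +kernel)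
          (CovZ.n2 (-2276, 7464) (by decide +kernel)
           (CovZ.n2 (-2274, 7462) (by decide +kernel)
            (CovZ.leaf K2_ok TX_l408 _)
            (CovZ.n1 (-2274, 7464) (by decide +kernel)
             (CovZ.leaf K2_ok TX_l409 _)
             (CovZ.leaf K2_ok TX_l410 _)))
           (CovZ.n1 (-2278, 7462) (by decide +kernel)
            (CovZ.leaf K2_ok TX_l411 _)
            (CovZ.leaf K2_ok TX_l412 _)))
          (CovZ.n1 (-2272, 7460) (by decide +kernel)
           (CovZ.badM (by decide +kernel))
           (CovZ.n1 (-2274, 7462) (by decide +kernel)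
            (CovZ.leaf K2_ok TX_l416 _)
            (CovZ.badM (by decide +kernel)))))
         (CovZ.n1 (-2276, 7468) (by decide +kernel)
          (CovZ.n2 (-2272, 7468) (by decide +kernel)
           (CovZ.leaf K2_ok TX_l418 _)
           (CovZ.leaf K2_ok TX_l419 _))
          (CovZ.n1 (-2276, 7464) (by decide +kernel)
           (CovZ.n2 (-2278, 7466) (by decide +kernel)
            (CovZ.leaf K2_ok TX_l420 _)
            (CovZ.leaf K2_ok TX_l421 _))
           (CovZ.leaf K2_ok TX_l422 _)))))
       (CovZ.n1 (-2280, 7480) (by decide +kernel)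
        (CovZ.n2 (-2272, 7480) (by decide +kernel)
         (CovZ.n2 (-2276, 7476) (by decide +kernel)
          (CovZ.leaf K2_ok TX_l423 _)
          (CovZ.leaf K2_ok TX_l424 _))
         (CovZ.n1 (-2276, 7484) (by decide +kernel)
          (CovZ.leaf K2_ok TX_l425 _)
          (CovZ.leaf K2_ok TX_l426 _)))
        (CovZ.n1 (-2280, 7472) (by decide +kernel)
         (CovZ.n2 (-2284, 7476) (by decide +kernel)
          (CovZ.n2 (-2280, 7476) (by decide +kernel)
           (CovZ.leaf K2_ok TX_l427 _)
           (CovZ.leaf K2_ok TX_l428 _))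
          (CovZ.n1 (-2284, 7472) (by decide +kernel)
           (CovZ.leaf K2_ok TX_l429 _)
           (CovZ.leaf K2_ok TX_l430 _)))
         (CovZ.n1 (-2276, 7476) (by decide +kernel)
          (CovZ.n2 (-2276, 7472) (by decide +kernel)
           (CovZ.leaf K2_ok TX_l431 _)
           (CovZ.leaf K2_ok TX_l432 _))
          (CovZ.n1 (-2280, 7476) (by decide +kernel)
           (CovZ.leaf K2_ok TX_l433 _)
           (CovZ.leaf K2_ok TX_l434 _))))))))

theorem TX_u2 : CovZ TX_M (toL (selN TX_LN 3)) [0, 7, 4, 3] (-1984, 7552) (-1984, 7584) (-2016, 7584) :=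
    (CovZ.n2 (-2000, 7568) (by decide +kernel)
      (CovZ.n2 (-2000, 7584) (by decide +kernel)
       (CovZ.n2 (-1992, 7576) (by decide +kernel)
        (CovZ.n2 (-2000, 7576) (by decide +kernel)
         (CovZ.n2 (-1996, 7580) (by decide +kernel)
          (CovZ.n2 (-1996, 7576) (by decide +kernel)
           (CovZ.leaf K2_ok TX_l3102 _)
           (CovZ.leaf K2_ok TX_l3103 _))
          (CovZ.n1 (-2000, 7580) (by decide +kernel)
           (CovZ.leaf K2_ok TX_l3104 _)
           (CovZ.leaf K2_ok TX_l3105 _)))
         (CovZ.n1 (-1996, 7572) (by decide +kernel)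
          (CovZ.n2 (-2000, 7572) (by decide +kernel)
           (CovZ.leaf K2_ok TX_l3106 _)
           (CovZ.leaf K2_ok TX_l3107 _))
          (CovZ.leaf K2_ok TX_l3108 _)))
        (CovZ.n1 (-1992, 7584) (by decide +kernel)
         (CovZ.n2 (-1988, 7580) (by decide +kernel)
          (CovZ.n2 (-1992, 7580) (by decide +kernel)
           (CovZ.n2 (-1990, 7582) (by decide +kernel)
            (CovZ.leaf K2_ok TX_l3109 _)
            (CovZ.leaf K2_ok TX_l3110 _))
           (CovZ.leaf K2_ok TX_l3111 _))
          (CovZ.n1 (-1988, 7584) (by decide +kernel)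
           (CovZ.n2 (-1986, 7582) (by decide +kernel)
            (CovZ.n2 (-1988, 7582) (by decide +kernel)
             (CovZ.leaf K2_ok TX_l3112 _)
             (CovZ.leaf K2_ok TX_l3113 _))
            (CovZ.n1 (-1986, 7584) (by decide +kernel)
             (CovZ.leaf K2_ok TX_l3114 _)
             (CovZ.leaf K2_ok TX_l3115 _)))
           (CovZ.n1 (-1990, 7582) (by decide +kernel)
            (CovZ.leaf K2_ok TX_l3116 _)
            (CovZ.n1 (-1988, 7582) (by decide +kernel)
             (CovZ.leaf K2_ok TX_l3117 _)
             (CovZ.leaf K2_ok TX_l3118 _)))))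
         (CovZ.n1 (-1996, 7580) (by decide +kernel)
          (CovZ.n2 (-1996, 7584) (by decide +kernel)
           (CovZ.n2 (-1994, 7582) (by decide +kernel)
            (CovZ.leaf K2_ok TX_l3119 _)
            (CovZ.leaf K2_ok TX_l3120 _))
           (CovZ.n1 (-1998, 7582) (by decide +kernel)
            (CovZ.leaf K2_ok TX_l3121 _)
            (CovZ.leaf K2_ok TX_l3122 _)))
          (CovZ.n1 (-1992, 7580) (by decide +kernel)
           (CovZ.n2 (-1994, 7578) (by decide +kernel)
            (CovZ.leaf K2_ok TX_l3123 _)
            (CovZ.leaf K2_ok TX_l3124 _))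
           (CovZ.leaf K2_ok TX_l3125 _)))))
       (CovZ.n1 (-2008, 7576) (by decide +kernel)
        (CovZ.n2 (-2008, 7584) (by decide +kernel)
         (CovZ.n2 (-2004, 7580) (by decide +kernel)
          (CovZ.n2 (-2008, 7580) (by decide +kernel)
           (CovZ.leaf K2_ok TX_l3126 _)
           (CovZ.leaf K2_ok TX_l3127 _))
          (CovZ.leaf K2_ok TX_l3128 _))
         (CovZ.n1 (-2012, 7580) (by decide +kernel)
          (CovZ.leaf K2_ok TX_l3129 _)
          (CovZ.n1 (-2008, 7580) (by decide +kernel)
           (CovZ.leaf K2_ok TX_l3130 _)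
           (CovZ.leaf K2_ok TX_l3131 _))))
        (CovZ.n1 (-2000, 7576) (by decide +kernel)
         (CovZ.n2 (-2004, 7572) (by decide +kernel)
          (CovZ.leaf K2_ok TX_l3132 _)
          (CovZ.n1 (-2000, 7572) (by decide +kernel)
           (CovZ.leaf K2_ok TX_l3133 _)
           (CovZ.leaf K2_ok TX_l3134 _)))
         (CovZ.n1 (-2004, 7580) (by decide +kernel)
          (CovZ.n2 (-2000, 7580) (by decide +kernel)
           (CovZ.leaf K2_ok TX_l3135 _)
           (CovZ.n1 (-2002, 7582) (by decide +kernel)
            (CovZ.leaf K2_ok TX_l3136 _)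
            (CovZ.leaf K2_ok TX_l3137 _)))
          (CovZ.leaf K2_ok TX_l3138 _)))))
      (CovZ.n1 (-1984, 7568) (by decide +kernel)
       (CovZ.n2 (-1992, 7560) (by decide +kernel)
        (CovZ.n2 (-1992, 7568) (by decide +kernel)
         (CovZ.n2 (-1988, 7564) (by decide +kernel)
          (CovZ.leaf K2_ok TX_l3139 _)
          (CovZ.leaf K2_ok TX_l3140 _))
         (CovZ.n1 (-1996, 7564) (by decide +kernel)
          (CovZ.leaf K2_ok TX_l3141 _)
          (CovZ.n1 (-1992, 7564) (by decide +kernel)
           (CovZ.leaf K2_ok TX_l3142 _)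
           (CovZ.leaf K2_ok TX_l3143 _))))
        (CovZ.n1 (-1984, 7560) (by decide +kernel)
         (CovZ.n2 (-1988, 7556) (by decide +kernel)
          (CovZ.leaf K2_ok TX_l3144 _)
          (CovZ.leaf K2_ok TX_l3145 _))
         (CovZ.n1 (-1988, 7564) (by decide +kernel)
          (CovZ.n2 (-1984, 7564) (by decide +kernel)
           (CovZ.leaf K2_ok TX_l3146 _)
           (CovZ.leaf K2_ok TX_l3147 _))
          (CovZ.leaf K2_ok TX_l3148 _))))
       (CovZ.n1 (-1992, 7576) (by decide +kernel)
        (CovZ.n2 (-1984, 7576) (by decide +kernel)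
         (CovZ.n2 (-1988, 7572) (by decide +kernel)
          (CovZ.n2 (-1988, 7576) (by decide +kernel)
           (CovZ.leaf K2_ok TX_l3149 _)
           (CovZ.n1 (-1990, 7574) (by decide +kernel)
            (CovZ.leaf K2_ok TX_l3150 _)
            (CovZ.leaf K2_ok TX_l3151 _)))
          (CovZ.n1 (-1984, 7572) (by decide +kernel)
           (CovZ.leaf K2_ok TX_l3152 _)
           (CovZ.leaf K2_ok TX_l3153 _)))
         (CovZ.n1 (-1988, 7580) (by decide +kernel)
          (CovZ.n2 (-1984, 7580) (by decide +kernel)
           (CovZ.n2 (-1986, 7578) (by decide +kernel)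
            (CovZ.leaf K2_ok TX_l3154 _)
            (CovZ.n1 (-1984, 7578) (by decide +kernel)
             (CovZ.leaf K2_ok TX_l3155 _)
             (CovZ.leaf K2_ok TX_l3156 _)))
           (CovZ.n1 (-1986, 7582) (by decide +kernel)
            (CovZ.n2 (-1984, 7582) (by decide +kernel)
             (CovZ.leaf K2_ok TX_l3157 _)
             (CovZ.leaf K2_ok TX_l3158 _))
            (CovZ.leaf K2_ok TX_l3159 _)))
          (CovZ.n1 (-1988, 7576) (by decide +kernel)
           (CovZ.leaf K2_ok TX_l3160 _)
           (CovZ.n1 (-1986, 7578) (by decide +kernel)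
            (CovZ.leaf K2_ok TX_l3161 _)
            (CovZ.n1 (-1988, 7578) (by decide +kernel)
             (CovZ.leaf K2_ok TX_l3162 _)
             (CovZ.leaf K2_ok TX_l3163 _))))))
        (CovZ.n1 (-1992, 7568) (by decide +kernel)
         (CovZ.n2 (-1996, 7572) (by decide +kernel)
          (CovZ.n2 (-1992, 7572) (by decide +kernel)
           (CovZ.leaf K2_ok TX_l3164 _)
           (CovZ.leaf K2_ok TX_l3165 _))
          (CovZ.leaf K2_ok TX_l3166 _))
         (CovZ.n1 (-1988, 7572) (by decide +kernel)
          (CovZ.leaf K2_ok TX_l3167 _)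
          (CovZ.n1 (-1992, 7572) (by decide +kernel)
           (CovZ.n2 (-1990, 7574) (by decide +kernel)
            (CovZ.leaf K2_ok TX_l3168 _)
            (CovZ.n1 (-1992, 7574) (by decide +kernel)
             (CovZ.leaf K2_ok TX_l3169 _)
             (CovZ.leaf K2_ok TX_l3170 _)))
           (CovZ.leaf K2_ok TX_l3171 _)))))))

theorem TX_u3 : CovZ TX_M (toL (selN TX_LN 3)) [0, 7, 4, 3] (-1984, 7584) (-1984, 7616) (-2016, 7584) :=
    (CovZ.n1 (-2000, 7600) (by decide +kernel)
      (CovZ.n2 (-1984, 7600) (by decide +kernel)
       (CovZ.n2 (-1992, 7592) (by decide +kernel)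
        (CovZ.badM (by decide +kernel))
        (CovZ.n1 (-1984, 7592) (by decide +kernel)
         (CovZ.n2 (-1988, 7588) (by decide +kernel)
          (CovZ.badM (by decide +kernel))
          (CovZ.n1 (-1984, 7588) (by decide +kernel)
           (CovZ.n2 (-1986, 7586) (by decide +kernel)
            (CovZ.badM (by decide +kernel))
            (CovZ.n1 (-1984, 7586) (by decide +kernel)
             (CovZ.n2 (-1985, 7585) (by decide +kernel)
              (CovZ.leaf K2_ok TX_l3172 _)
              (CovZ.leaf K2_ok TX_l3173 _))
             (CovZ.badM (by decide +kernel))))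
           (CovZ.badM (by decide +kernel))))
         (CovZ.badM (by decide +kernel))))
       (CovZ.badM (by decide +kernel)))
      (CovZ.n1 (-2000, 7584) (by decide +kernel)
       (CovZ.n2 (-2008, 7592) (by decide +kernel)
        (CovZ.n2 (-2000, 7592) (by decide +kernel)
         (CovZ.n2 (-2004, 7588) (by decide +kernel)
          (CovZ.n2 (-2004, 7592) (by decide +kernel)
           (CovZ.n2 (-2002, 7590) (by decide +kernel)
            (CovZ.n2 (-2004, 7590) (by decide +kernel)
             (CovZ.leaf K2_ok TX_l3174 _)
             (CovZ.leaf K2_ok TX_l3175 _))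
            (CovZ.n1 (-2002, 7592) (by decide +kernel)
             (CovZ.leaf K2_ok TX_l3176 _)
             (CovZ.leaf K2_ok TX_l3177 _)))
           (CovZ.n1 (-2006, 7590) (by decide +kernel)
            (CovZ.leaf K2_ok TX_l3178 _)
            (CovZ.n1 (-2004, 7590) (by decide +kernel)
             (CovZ.leaf K2_ok TX_l3179 _)
             (CovZ.leaf K2_ok TX_l3180 _))))
          (CovZ.n1 (-2000, 7588) (by decide +kernel)
           (CovZ.n2 (-2002, 7586) (by decide +kernel)
            (CovZ.n2 (-2002, 7588) (by decide +kernel)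
             (CovZ.leaf K2_ok TX_l3181 _)
             (CovZ.leaf K2_ok TX_l3182 _))
            (CovZ.n1 (-2000, 7586) (by decide +kernel)
             (CovZ.leaf K2_ok TX_l3183 _)
             (CovZ.leaf K2_ok TX_l3184 _)))
           (CovZ.n1 (-2002, 7590) (by decide +kernel)
            (CovZ.n2 (-2000, 7590) (by decide +kernel)
             (CovZ.leaf K2_ok TX_l3185 _)
             (CovZ.leaf K2_ok TX_l3186 _))
            (CovZ.leaf K2_ok TX_l3187 _))))
         (CovZ.n1 (-2004, 7596) (by decide +kernel)
          (CovZ.n2 (-2000, 7596) (by decide +kernel)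
           (CovZ.n2 (-2002, 7594) (by decide +kernel)
            (CovZ.n2 (-2002, 7596) (by decide +kernel)
             (CovZ.n2 (-2001, 7595) (by decide +kernel)
              (CovZ.n2 (-2002, 7595) (by decide +kernel)
               (CovZ.badM (by decide +kernel))
               (CovZ.leaf K2_ok TX_l3188 _))
              (CovZ.badM (by decide +kernel)))
             (CovZ.leaf K2_ok TX_l3189 _))
            (CovZ.n1 (-2000, 7594) (by decide +kernel)
             (CovZ.n2 (-2001, 7593) (by decide +kernel)
              (CovZ.leaf K2_ok TX_l3190 _)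
              (CovZ.leaf K2_ok TX_l3191 _))
             (CovZ.n1 (-2001, 7595) (by decide +kernel)
              (CovZ.badM (by decide +kernel))
              (CovZ.leaf K2_ok TX_l3192 _))))
           (CovZ.badM (by decide +kernel)))
          (CovZ.n1 (-2004, 7592) (by decide +kernel)
           (CovZ.n2 (-2006, 7594) (by decide +kernel)
            (CovZ.n2 (-2004, 7594) (by decide +kernel)
             (CovZ.leaf K2_ok TX_l3193 _)
             (CovZ.n1 (-2005, 7595) (by decide +kernel)
              (CovZ.leaf K2_ok TX_l3194 _)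
              (CovZ.leaf K2_ok TX_l3195 _)))
            (CovZ.n1 (-2006, 7592) (by decide +kernel)
             (CovZ.leaf K2_ok TX_l3196 _)
             (CovZ.leaf K2_ok TX_l3197 _)))
           (CovZ.n1 (-2002, 7594) (by decide +kernel)
            (CovZ.leaf K2_ok TX_l3198 _)
            (CovZ.n1 (-2004, 7594) (by decide +kernel)
             (CovZ.n2 (-2003, 7595) (by decide +kernel)
              (CovZ.leaf K2_ok TX_l3199 _)
              (CovZ.leaf K2_ok TX_l3200 _))
             (CovZ.n1 (-2003, 7593) (by decide +kernel)
              (CovZ.leaf K2_ok TX_l3201 _)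
              (CovZ.leaf K2_ok TX_l3202 _)))))))
        (CovZ.n1 (-2008, 7584) (by decide +kernel)
         (CovZ.n2 (-2012, 7588) (by decide +kernel)
          (CovZ.n2 (-2008, 7588) (by decide +kernel)
           (CovZ.leaf K2_ok TX_l3203 _)
           (CovZ.leaf K2_ok TX_l3204 _))
          (CovZ.n1 (-2012, 7584) (by decide +kernel)
           (CovZ.leaf K2_ok TX_l3205 _)
           (CovZ.leaf K2_ok TX_l3206 _)))
         (CovZ.n1 (-2004, 7588) (by decide +kernel)
          (CovZ.n2 (-2004, 7584) (by decide +kernel)
           (CovZ.n2 (-2006, 7586) (by decide +kernel)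
            (CovZ.leaf K2_ok TX_l3207 _)
            (CovZ.leaf K2_ok TX_l3208 _))
           (CovZ.n1 (-2002, 7586) (by decide +kernel)
            (CovZ.leaf K2_ok TX_l3209 _)
            (CovZ.n1 (-2004, 7586) (by decide +kernel)
             (CovZ.leaf K2_ok TX_l3210 _)
             (CovZ.leaf K2_ok TX_l3211 _))))
          (CovZ.n1 (-2008, 7588) (by decide +kernel)
           (CovZ.n2 (-2006, 7590) (by decide +kernel)
            (CovZ.leaf K2_ok TX_l3212 _)
            (CovZ.n1 (-2008, 7590) (by decide +kernel)
             (CovZ.leaf K2_ok TX_l3213 _)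
             (CovZ.leaf K2_ok TX_l3214 _)))
           (CovZ.leaf K2_ok TX_l3215 _)))))
       (CovZ.n1 (-1992, 7592) (by decide +kernel)
        (CovZ.n2 (-1992, 7584) (by decide +kernel)
         (CovZ.n2 (-1996, 7588) (by decide +kernel)
          (CovZ.n2 (-1992, 7588) (by decide +kernel)
           (CovZ.n2 (-1994, 7586) (by decide +kernel)
            (CovZ.leaf K2_ok TX_l3216 _)
            (CovZ.n1 (-1992, 7586) (by decide +kernel)
             (CovZ.leaf K2_ok TX_l3217 _)
             (CovZ.leaf K2_ok TX_l3218 _)))
           (CovZ.n1 (-1994, 7590) (by decide +kernel)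
            (CovZ.n2 (-1992, 7590) (by decide +kernel)
             (CovZ.leaf K2_ok TX_l3219 _)
             (CovZ.badM (by decide +kernel)))
            (CovZ.n1 (-1994, 7588) (by decide +kernel)
             (CovZ.leaf K2_ok TX_l3220 _)
             (CovZ.leaf K2_ok TX_l3221 _))))
          (CovZ.n1 (-1996, 7584) (by decide +kernel)
           (CovZ.n2 (-1998, 7586) (by decide +kernel)
            (CovZ.n2 (-1996, 7586) (by decide +kernel)
             (CovZ.leaf K2_ok TX_l3222 _)
             (CovZ.n1 (-1997, 7587) (by decide +kernel)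
              (CovZ.leaf K2_ok TX_l3223 _)
              (CovZ.leaf K2_ok TX_l3224 _)))
            (CovZ.leaf K2_ok TX_l3225 _))
           (CovZ.n1 (-1994, 7586) (by decide +kernel)
            (CovZ.leaf K2_ok TX_l3226 _)
            (CovZ.n1 (-1996, 7586) (by decide +kernel)
             (CovZ.leaf K2_ok TX_l3227 _)
             (CovZ.leaf K2_ok TX_l3228 _)))))
         (CovZ.n1 (-1988, 7588) (by decide +kernel)
          (CovZ.n2 (-1988, 7584) (by decide +kernel)
           (CovZ.n2 (-1990, 7586) (by decide +kernel)
            (CovZ.n2 (-1988, 7586) (by decide +kernel)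
             (CovZ.leaf K2_ok TX_l3229 _)
             (CovZ.leaf K2_ok TX_l3230 _))
            (CovZ.leaf K2_ok TX_l3231 _))
           (CovZ.n1 (-1986, 7586) (by decide +kernel)
            (CovZ.n2 (-1986, 7584) (by decide +kernel)
             (CovZ.n2 (-1987, 7585) (by decide +kernel)
              (CovZ.n2 (-1986, 7585) (by decide +kernel)
               (CovZ.leaf K2_ok TX_l3232 _)
               (CovZ.leaf K2_ok TX_l3233 _))
              (CovZ.leaf K2_ok TX_l3234 _))
             (CovZ.leaf K2_ok TX_l3235 _))
            (CovZ.n1 (-1988, 7586) (by decide +kernel)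
             (CovZ.n2 (-1987, 7587) (by decide +kernel)
              (CovZ.leaf K2_ok TX_l3236 _)
              (CovZ.leaf K2_ok TX_l3237 _))
             (CovZ.leaf K2_ok TX_l3238 _))))
          (CovZ.n1 (-1992, 7588) (by decide +kernel)
           (CovZ.n2 (-1990, 7590) (by decide +kernel)
            (CovZ.leaf K2_ok TX_l3239 _)
            (CovZ.n1 (-1992, 7590) (by decide +kernel)
             (CovZ.badM (by decide +kernel))
             (CovZ.n1 (-1991, 7589) (by decide +kernel)
              (CovZ.leaf K2_ok TX_l3240 _)
              (CovZ.badM (by decide +kernel)))))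
           (CovZ.n1 (-1990, 7586) (by decide +kernel)
            (CovZ.n2 (-1992, 7586) (by decide +kernel)
             (CovZ.leaf K2_ok TX_l3241 _)
             (CovZ.leaf K2_ok TX_l3242 _))
            (CovZ.n1 (-1990, 7588) (by decide +kernel)
             (CovZ.n2 (-1989, 7587) (by decide +kernel)
              (CovZ.leaf K2_ok TX_l3243 _)
              (CovZ.leaf K2_ok TX_l3244 _))
             (CovZ.leaf K2_ok TX_l3245 _))))))
        (CovZ.n1 (-2000, 7592) (by decide +kernel)
         (CovZ.n2 (-1996, 7596) (by decide +kernel)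
          (CovZ.n2 (-1996, 7592) (by decide +kernel)
           (CovZ.n2 (-1998, 7594) (by decide +kernel)
            (CovZ.badM (by decide +kernel))
            (CovZ.n1 (-1998, 7592) (by decide +kernel)
             (CovZ.leaf K2_ok TX_l3246 _)
             (CovZ.n1 (-1997, 7593) (by decide +kernel)
              (CovZ.leaf K2_ok TX_l3247 _)
              (CovZ.leaf K2_ok TX_l3248 _))))
           (CovZ.badM (by decide +kernel)))
          (CovZ.n1 (-2000, 7596) (by decide +kernel)
           (CovZ.badM (by decide +kernel))
           (CovZ.n1 (-1998, 7594) (by decide +kernel)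
            (CovZ.n2 (-2000, 7594) (by decide +kernel)
             (CovZ.badM (by decide +kernel))
             (CovZ.n1 (-1999, 7593) (by decide +kernel)
              (CovZ.leaf K2_ok TX_l3249 _)
              (CovZ.badM (by decide +kernel))))
            (CovZ.badM (by decide +kernel)))))
         (CovZ.n1 (-1996, 7588) (by decide +kernel)
          (CovZ.n2 (-2000, 7588) (by decide +kernel)
           (CovZ.n2 (-1998, 7590) (by decide +kernel)
            (CovZ.n2 (-1998, 7588) (by decide +kernel)
             (CovZ.leaf K2_ok TX_l3250 _)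
             (CovZ.n1 (-1997, 7589) (by decide +kernel)
              (CovZ.leaf K2_ok TX_l3251 _)
              (CovZ.leaf K2_ok TX_l3252 _)))
            (CovZ.n1 (-2000, 7590) (by decide +kernel)
             (CovZ.leaf K2_ok TX_l3253 _)
             (CovZ.leaf K2_ok TX_l3254 _)))
           (CovZ.n1 (-1998, 7586) (by decide +kernel)
            (CovZ.leaf K2_ok TX_l3255 _)
            (CovZ.leaf K2_ok TX_l3256 _)))
          (CovZ.n1 (-1996, 7592) (by decide +kernel)
           (CovZ.n2 (-1994, 7590) (by decide +kernel)
            (CovZ.n2 (-1996, 7590) (by decide +kernel)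
             (CovZ.leaf K2_ok TX_l3257 _)
             (CovZ.leaf K2_ok TX_l3258 _))
            (CovZ.badM (by decide +kernel)))
           (CovZ.n1 (-1998, 7590) (by decide +kernel)
            (CovZ.n2 (-1998, 7592) (by decide +kernel)
             (CovZ.n2 (-1997, 7591) (by decide +kernel)
              (CovZ.leaf K2_ok TX_l3259 _)
              (CovZ.leaf K2_ok TX_l3260 _))
             (CovZ.leaf K2_ok TX_l3261 _))
            (CovZ.n1 (-1996, 7590) (by decide +kernel)
             (CovZ.leaf K2_ok TX_l3262 _)
             (CovZ.leaf K2_ok TX_l3263 _)))))))))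

theorem TX_u4 : CovZ TX_M (toL (selN TX_LN 3)) [0, 7, 4, 3] (-2048, 7616) (-2032, 7600) (-2016, 7616) :=
    (CovZ.n2 (-2032, 7616) (by decide +kernel)
       (CovZ.n2 (-2024, 7608) (by decide +kernel)
        (CovZ.n2 (-2032, 7608) (by decide +kernel)
         (CovZ.n2 (-2028, 7612) (by decide +kernel)
          (CovZ.n2 (-2028, 7608) (by decide +kernel)
           (CovZ.n2 (-2030, 7610) (by decide +kernel)
            (CovZ.badM (by decide +kernel))
            (CovZ.leaf K2_ok TX_l3436 _))
           (CovZ.badM (by decide +kernel)))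
          (CovZ.n1 (-2032, 7612) (by decide +kernel)
           (CovZ.badM (by decide +kernel))
           (CovZ.n1 (-2030, 7610) (by decide +kernel)
            (CovZ.n2 (-2032, 7610) (by decide +kernel)
             (CovZ.badM (by decide +kernel))
             (CovZ.n1 (-2031, 7609) (by decide +kernel)
              (CovZ.leaf K2_ok TX_l3437 _)
              (CovZ.leaf K2_ok TX_l3438 _)))
            (CovZ.badM (by decide +kernel)))))
         (CovZ.n1 (-2028, 7604) (by decide +kernel)
          (CovZ.n2 (-2032, 7604) (by decide +kernel)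
           (CovZ.n2 (-2030, 7606) (by decide +kernel)
            (CovZ.n2 (-2030, 7604) (by decide +kernel)
             (CovZ.leaf K2_ok TX_l3439 _)
             (CovZ.leaf K2_ok TX_l3440 _))
            (CovZ.n1 (-2032, 7606) (by decide +kernel)
             (CovZ.leaf K2_ok TX_l3441 _)
             (CovZ.leaf K2_ok TX_l3442 _)))
           (CovZ.n1 (-2030, 7602) (by decide +kernel)
            (CovZ.leaf K2_ok TX_l3443 _)
            (CovZ.leaf K2_ok TX_l3444 _)))
          (CovZ.n1 (-2028, 7608) (by decide +kernel)
           (CovZ.n2 (-2026, 7606) (by decide +kernel)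
            (CovZ.n2 (-2028, 7606) (by decide +kernel)
             (CovZ.n2 (-2027, 7607) (by decide +kernel)
              (CovZ.leaf K2_ok TX_l3445 _)
              (CovZ.leaf K2_ok TX_l3446 _))
             (CovZ.leaf K2_ok TX_l3447 _))
            (CovZ.n1 (-2026, 7608) (by decide +kernel)
             (CovZ.n2 (-2025, 7607) (by decide +kernel)
              (CovZ.leaf K2_ok TX_l3448 _)
              (CovZ.badM (by decide +kernel)))
             (CovZ.n1 (-2027, 7607) (by decide +kernel)
              (CovZ.badM (by decide +kernel))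
              (CovZ.n1 (-2026, 7607) (by decide +kernel)
               (CovZ.leaf K2_ok TX_l3449 _)
               (CovZ.badM (by decide +kernel))))))
           (CovZ.n1 (-2030, 7606) (by decide +kernel)
            (CovZ.n2 (-2030, 7608) (by decide +kernel)
             (CovZ.n2 (-2029, 7607) (by decide +kernel)
              (CovZ.leaf K2_ok TX_l3450 _)
              (CovZ.leaf K2_ok TX_l3451 _))
             (CovZ.leaf K2_ok TX_l3452 _))
            (CovZ.n1 (-2028, 7606) (by decide +kernel)
             (CovZ.leaf K2_ok TX_l3453 _)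
             (CovZ.leaf K2_ok TX_l3454 _))))))
        (CovZ.badM (by decide +kernel)))
       (CovZ.n1 (-2040, 7608) (by decide +kernel)
        (CovZ.n2 (-2040, 7616) (by decide +kernel)
         (CovZ.n2 (-2036, 7612) (by decide +kernel)
          (CovZ.n2 (-2040, 7612) (by decide +kernel)
           (CovZ.n2 (-2038, 7614) (by decide +kernel)
            (CovZ.n2 (-2038, 7612) (by decide +kernel)
             (CovZ.n2 (-2039, 7613) (by decide +kernel)
              (CovZ.leaf K2_ok TX_l3455 _)
              (CovZ.leaf K2_ok TX_l3456 _))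
             (CovZ.n1 (-2037, 7613) (by decide +kernel)
              (CovZ.leaf K2_ok TX_l3457 _)
              (CovZ.leaf K2_ok TX_l3458 _)))
            (CovZ.n1 (-2040, 7614) (by decide +kernel)
             (CovZ.badM (by decide +kernel))
             (CovZ.n1 (-2039, 7613) (by decide +kernel)
              (CovZ.leaf K2_ok TX_l3459 _)
              (CovZ.leaf K2_ok TX_l3460 _))))
           (CovZ.n1 (-2038, 7610) (by decide +kernel)
            (CovZ.n2 (-2040, 7610) (by decide +kernel)
             (CovZ.leaf K2_ok TX_l3461 _)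
             (CovZ.leaf K2_ok TX_l3462 _))
            (CovZ.n1 (-2038, 7612) (by decide +kernel)
             (CovZ.n2 (-2037, 7611) (by decide +kernel)
              (CovZ.leaf K2_ok TX_l3463 _)
              (CovZ.leaf K2_ok TX_l3464 _))
             (CovZ.n1 (-2039, 7611) (by decide +kernel)
              (CovZ.n2 (-2039, 7612) (by decide +kernel)
               (CovZ.leaf K2_ok TX_l3465 _)
               (CovZ.leaf K2_ok TX_l3466 _))
              (CovZ.n1 (-2038, 7611) (by decide +kernel)
               (CovZ.leaf K2_ok TX_l3467 _)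
               (CovZ.leaf K2_ok TX_l3468 _))))))
          (CovZ.badM (by decide +kernel)))
         (CovZ.n1 (-2044, 7612) (by decide +kernel)
          (CovZ.n2 (-2044, 7616) (by decide +kernel)
           (CovZ.n2 (-2042, 7614) (by decide +kernel)
            (CovZ.n2 (-2044, 7614) (by decide +kernel)
             (CovZ.leaf K2_ok TX_l3469 _)
             (CovZ.leaf K2_ok TX_l3470 _))
            (CovZ.n1 (-2042, 7616) (by decide +kernel)
             (CovZ.n2 (-2041, 7615) (by decide +kernel)
              (CovZ.leaf K2_ok TX_l3471 _)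
              (CovZ.badM (by decide +kernel)))
             (CovZ.n1 (-2043, 7615) (by decide +kernel)
              (CovZ.n2 (-2043, 7616) (by decide +kernel)
               (CovZ.leaf K2_ok TX_l3472 _)
               (CovZ.leaf K2_ok TX_l3473 _))
              (CovZ.leaf K2_ok TX_l3474 _))))
           (CovZ.n1 (-2046, 7614) (by decide +kernel)
            (CovZ.n2 (-2046, 7616) (by decide +kernel)
             (CovZ.leaf K2_ok TX_l3475 _)
             (CovZ.leaf K2_ok TX_l3476 _))
            (CovZ.n1 (-2044, 7614) (by decide +kernel)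
             (CovZ.leaf K2_ok TX_l3477 _)
             (CovZ.leaf K2_ok TX_l3478 _))))
          (CovZ.n1 (-2040, 7612) (by decide +kernel)
           (CovZ.n2 (-2042, 7610) (by decide +kernel)
            (CovZ.leaf K2_ok TX_l3479 _)
            (CovZ.n1 (-2040, 7610) (by decide +kernel)
             (CovZ.leaf K2_ok TX_l3480 _)
             (CovZ.leaf K2_ok TX_l3481 _)))
           (CovZ.n1 (-2042, 7614) (by decide +kernel)
            (CovZ.n2 (-2040, 7614) (by decide +kernel)
             (CovZ.leaf K2_ok TX_l3482 _)
             (CovZ.n1 (-2041, 7615) (by decide +kernel)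
              (CovZ.badM (by decide +kernel))
              (CovZ.leaf K2_ok TX_l3483 _)))
            (CovZ.leaf K2_ok TX_l3484 _)))))
        (CovZ.n1 (-2032, 7608) (by decide +kernel)
         (CovZ.n2 (-2036, 7604) (by decide +kernel)
          (CovZ.n2 (-2036, 7608) (by decide +kernel)
           (CovZ.n2 (-2034, 7606) (by decide +kernel)
            (CovZ.leaf K2_ok TX_l3485 _)
            (CovZ.n1 (-2034, 7608) (by decide +kernel)
             (CovZ.leaf K2_ok TX_l3486 _)
             (CovZ.leaf K2_ok TX_l3487 _)))
           (CovZ.n1 (-2038, 7606) (by decide +kernel)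
            (CovZ.leaf K2_ok TX_l3488 _)
            (CovZ.leaf K2_ok TX_l3489 _)))
          (CovZ.n1 (-2032, 7604) (by decide +kernel)
           (CovZ.n2 (-2034, 7602) (by decide +kernel)
            (CovZ.leaf K2_ok TX_l3490 _)
            (CovZ.leaf K2_ok TX_l3491 _))
           (CovZ.n1 (-2034, 7606) (by decide +kernel)
            (CovZ.leaf K2_ok TX_l3492 _)
            (CovZ.leaf K2_ok TX_l3493 _))))
         (CovZ.n1 (-2036, 7612) (by decide +kernel)
          (CovZ.n2 (-2032, 7612) (by decide +kernel)
           (CovZ.n2 (-2034, 7610) (by decide +kernel)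
            (CovZ.n2 (-2034, 7612) (by decide +kernel)
             (CovZ.n2 (-2033, 7611) (by decide +kernel)
              (CovZ.leaf K2_ok TX_l3494 _)
              (CovZ.badM (by decide +kernel)))
             (CovZ.n1 (-2035, 7611) (by decide +kernel)
              (CovZ.leaf K2_ok TX_l3495 _)
              (CovZ.leaf K2_ok TX_l3496 _)))
            (CovZ.n1 (-2032, 7610) (by decide +kernel)
             (CovZ.n2 (-2033, 7609) (by decide +kernel)
              (CovZ.leaf K2_ok TX_l3497 _)
              (CovZ.leaf K2_ok TX_l3498 _))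
             (CovZ.leaf K2_ok TX_l3499 _)))
           (CovZ.badM (by decide +kernel)))
          (CovZ.n1 (-2036, 7608) (by decide +kernel)
           (CovZ.n2 (-2038, 7610) (by decide +kernel)
            (CovZ.n2 (-2036, 7610) (by decide +kernel)
             (CovZ.leaf K2_ok TX_l3500 _)
             (CovZ.n1 (-2037, 7611) (by decide +kernel)
              (CovZ.leaf K2_ok TX_l3501 _)
              (CovZ.leaf K2_ok TX_l3502 _)))
            (CovZ.leaf K2_ok TX_l3503 _))
           (CovZ.n1 (-2034, 7610) (by decide +kernel)
            (CovZ.n2 (-2034, 7608) (by decide +kernel)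
             (CovZ.n2 (-2035, 7609) (by decide +kernel)
              (CovZ.leaf K2_ok TX_l3504 _)
              (CovZ.leaf K2_ok TX_l3505 _))
             (CovZ.leaf K2_ok TX_l3506 _))
            (CovZ.n1 (-2036, 7610) (by decide +kernel)
             (CovZ.n2 (-2035, 7611) (by decide +kernel)
              (CovZ.leaf K2_ok TX_l3507 _)
              (CovZ.n1 (-2036, 7611) (by decide +kernel)
               (CovZ.leaf K2_ok TX_l3508 _)
               (CovZ.leaf K2_ok TX_l3509 _)))
             (CovZ.leaf K2_ok TX_l3510 _))))))))

theorem TX_u5 : CovZ TX_M (toL (selN TX_LN 3)) [0, 7, 4, 3] (-2032, 7600) (-2016, 7584) (-2016, 7616) :=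
    (CovZ.n1 (-2016, 7600) (by decide +kernel)
       (CovZ.n2 (-2024, 7592) (by decide +kernel)
        (CovZ.n2 (-2024, 7600) (by decide +kernel)
         (CovZ.n2 (-2020, 7596) (by decide +kernel)
          (CovZ.n2 (-2024, 7596) (by decide +kernel)
           (CovZ.n2 (-2022, 7598) (by decide +kernel)
            (CovZ.leaf K2_ok TX_l3511 _)
            (CovZ.n1 (-2024, 7598) (by decide +kernel)
             (CovZ.leaf K2_ok TX_l3512 _)
             (CovZ.leaf K2_ok TX_l3513 _)))
           (CovZ.n1 (-2022, 7594) (by decide +kernel)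
            (CovZ.n2 (-2024, 7594) (by decide +kernel)
             (CovZ.leaf K2_ok TX_l3514 _)
             (CovZ.leaf K2_ok TX_l3515 _))
            (CovZ.leaf K2_ok TX_l3516 _)))
          (CovZ.n1 (-2020, 7600) (by decide +kernel)
           (CovZ.n2 (-2018, 7598) (by decide +kernel)
            (CovZ.n2 (-2020, 7598) (by decide +kernel)
             (CovZ.leaf K2_ok TX_l3517 _)
             (CovZ.leaf K2_ok TX_l3518 _))
            (CovZ.n1 (-2018, 7600) (by decide +kernel)
             (CovZ.leaf K2_ok TX_l3519 _)
             (CovZ.n1 (-2019, 7599) (by decide +kernel)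
              (CovZ.leaf K2_ok TX_l3520 _)
              (CovZ.leaf K2_ok TX_l3521 _))))
           (CovZ.n1 (-2022, 7598) (by decide +kernel)
            (CovZ.n2 (-2022, 7600) (by decide +kernel)
             (CovZ.leaf K2_ok TX_l3522 _)
             (CovZ.leaf K2_ok TX_l3523 _))
            (CovZ.n1 (-2020, 7598) (by decide +kernel)
             (CovZ.leaf K2_ok TX_l3524 _)
             (CovZ.leaf K2_ok TX_l3525 _)))))
         (CovZ.n1 (-2028, 7596) (by decide +kernel)
          (CovZ.n2 (-2028, 7600) (by decide +kernel)
           (CovZ.n2 (-2026, 7598) (by decide +kernel)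
            (CovZ.leaf K2_ok TX_l3526 _)
            (CovZ.leaf K2_ok TX_l3527 _))
           (CovZ.leaf K2_ok TX_l3528 _))
          (CovZ.n1 (-2024, 7596) (by decide +kernel)
           (CovZ.leaf K2_ok TX_l3529 _)
           (CovZ.n1 (-2026, 7598) (by decide +kernel)
            (CovZ.n2 (-2024, 7598) (by decide +kernel)
             (CovZ.leaf K2_ok TX_l3530 _)
             (CovZ.leaf K2_ok TX_l3531 _))
            (CovZ.leaf K2_ok TX_l3532 _)))))
        (CovZ.n1 (-2016, 7592) (by decide +kernel)
         (CovZ.n2 (-2020, 7588) (by decide +kernel)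
          (CovZ.n2 (-2020, 7592) (by decide +kernel)
           (CovZ.leaf K2_ok TX_l3533 _)
           (CovZ.leaf K2_ok TX_l3534 _))
          (CovZ.n1 (-2016, 7588) (by decide +kernel)
           (CovZ.leaf K2_ok TX_l3535 _)
           (CovZ.leaf K2_ok TX_l3536 _)))
         (CovZ.n1 (-2020, 7596) (by decide +kernel)
          (CovZ.n2 (-2016, 7596) (by decide +kernel)
           (CovZ.n2 (-2018, 7594) (by decide +kernel)
            (CovZ.leaf K2_ok TX_l3537 _)
            (CovZ.leaf K2_ok TX_l3538 _))
           (CovZ.n1 (-2018, 7598) (by decide +kernel)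
            (CovZ.n2 (-2016, 7598) (by decide +kernel)
             (CovZ.leaf K2_ok TX_l3539 _)
             (CovZ.n1 (-2017, 7599) (by decide +kernel)
              (CovZ.n2 (-2016, 7599) (by decide +kernel)
               (CovZ.leaf K2_ok TX_l3540 _)
               (CovZ.leaf K2_ok TX_l3541 _))
              (CovZ.leaf K2_ok TX_l3542 _)))
            (CovZ.leaf K2_ok TX_l3543 _)))
          (CovZ.n1 (-2020, 7592) (by decide +kernel)
           (CovZ.leaf K2_ok TX_l3544 _)
           (CovZ.n1 (-2018, 7594) (by decide +kernel)
            (CovZ.leaf K2_ok TX_l3545 _)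
            (CovZ.leaf K2_ok TX_l3546 _))))))
       (CovZ.n1 (-2024, 7608) (by decide +kernel)
        (CovZ.n2 (-2016, 7608) (by decide +kernel)
         (CovZ.n2 (-2020, 7604) (by decide +kernel)
          (CovZ.badM (by decide +kernel))
          (CovZ.n1 (-2016, 7604) (by decide +kernel)
           (CovZ.n2 (-2018, 7602) (by decide +kernel)
            (CovZ.n2 (-2018, 7604) (by decide +kernel)
             (CovZ.n2 (-2017, 7603) (by decide +kernel)
              (CovZ.leaf K2_ok TX_l3547 _)
              (CovZ.badM (by decide +kernel)))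
             (CovZ.leaf K2_ok TX_l3548 _))
            (CovZ.n1 (-2016, 7602) (by decide +kernel)
             (CovZ.leaf K2_ok TX_l3549 _)
             (CovZ.n1 (-2017, 7603) (by decide +kernel)
              (CovZ.badM (by decide +kernel))
              (CovZ.leaf K2_ok TX_l3550 _))))
           (CovZ.badM (by decide +kernel))))
         (CovZ.badM (by decide +kernel)))
        (CovZ.n1 (-2024, 7600) (by decide +kernel)
         (CovZ.n2 (-2028, 7604) (by decide +kernel)
          (CovZ.n2 (-2024, 7604) (by decide +kernel)
           (CovZ.n2 (-2026, 7602) (by decide +kernel)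
            (CovZ.leaf K2_ok TX_l3551 _)
            (CovZ.n1 (-2024, 7602) (by decide +kernel)
             (CovZ.leaf K2_ok TX_l3552 _)
             (CovZ.leaf K2_ok TX_l3553 _)))
           (CovZ.n1 (-2026, 7606) (by decide +kernel)
            (CovZ.n2 (-2024, 7606) (by decide +kernel)
             (CovZ.n2 (-2025, 7605) (by decide +kernel)
              (CovZ.leaf K2_ok TX_l3554 _)
              (CovZ.n1 (-2024, 7605) (by decide +kernel)
               (CovZ.leaf K2_ok TX_l3555 _)
               (CovZ.leaf K2_ok TX_l3556 _)))
             (CovZ.n1 (-2025, 7607) (by decide +kernel)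
              (CovZ.badM (by decide +kernel))
              (CovZ.leaf K2_ok TX_l3557 _)))
            (CovZ.n1 (-2026, 7604) (by decide +kernel)
             (CovZ.leaf K2_ok TX_l3558 _)
             (CovZ.leaf K2_ok TX_l3559 _))))
          (CovZ.n1 (-2028, 7600) (by decide +kernel)
           (CovZ.n2 (-2030, 7602) (by decide +kernel)
            (CovZ.n2 (-2028, 7602) (by decide +kernel)
             (CovZ.leaf K2_ok TX_l3560 _)
             (CovZ.leaf K2_ok TX_l3561 _))
            (CovZ.leaf K2_ok TX_l3562 _))
           (CovZ.n1 (-2026, 7602) (by decide +kernel)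
            (CovZ.leaf K2_ok TX_l3563 _)
            (CovZ.n1 (-2028, 7602) (by decide +kernel)
             (CovZ.leaf K2_ok TX_l3564 _)
             (CovZ.leaf K2_ok TX_l3565 _)))))
         (CovZ.n1 (-2020, 7604) (by decide +kernel)
          (CovZ.n2 (-2020, 7600) (by decide +kernel)
           (CovZ.n2 (-2022, 7602) (by decide +kernel)
            (CovZ.n2 (-2020, 7602) (by decide +kernel)
             (CovZ.leaf K2_ok TX_l3566 _)
             (CovZ.n1 (-2021, 7603) (by decide +kernel)
              (CovZ.leaf K2_ok TX_l3567 _)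
              (CovZ.leaf K2_ok TX_l3568 _)))
            (CovZ.leaf K2_ok TX_l3569 _))
           (CovZ.n1 (-2018, 7602) (by decide +kernel)
            (CovZ.leaf K2_ok TX_l3570 _)
            (CovZ.n1 (-2020, 7602) (by decide +kernel)
             (CovZ.leaf K2_ok TX_l3571 _)
             (CovZ.n1 (-2019, 7601) (by decide +kernel)
              (CovZ.leaf K2_ok TX_l3572 _)
              (CovZ.leaf K2_ok TX_l3573 _)))))
          (CovZ.n1 (-2024, 7604) (by decide +kernel)
           (CovZ.n2 (-2022, 7606) (by decide +kernel)
            (CovZ.n2 (-2022, 7604) (by decide +kernel)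
             (CovZ.n2 (-2023, 7605) (by decide +kernel)
              (CovZ.leaf K2_ok TX_l3574 _)
              (CovZ.leaf K2_ok TX_l3575 _))
             (CovZ.n1 (-2021, 7605) (by decide +kernel)
              (CovZ.leaf K2_ok TX_l3576 _)
              (CovZ.n1 (-2022, 7605) (by decide +kernel)
               (CovZ.badM (by decide +kernel))
               (CovZ.leaf K2_ok TX_l3577 _))))
            (CovZ.n1 (-2024, 7606) (by decide +kernel)
             (CovZ.badM (by decide +kernel))
             (CovZ.n1 (-2023, 7605) (by decide +kernel)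
              (CovZ.leaf K2_ok TX_l3578 _)
              (CovZ.badM (by decide +kernel)))))
           (CovZ.n1 (-2022, 7602) (by decide +kernel)
            (CovZ.n2 (-2024, 7602) (by decide +kernel)
             (CovZ.leaf K2_ok TX_l3579 _)
             (CovZ.leaf K2_ok TX_l3580 _))
            (CovZ.n1 (-2022, 7604) (by decide +kernel)
             (CovZ.n2 (-2021, 7603) (by decide +kernel)
              (CovZ.leaf K2_ok TX_l3581 _)
              (CovZ.n1 (-2021, 7604) (by decide +kernel)
               (CovZ.leaf K2_ok TX_l3582 _)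
               (CovZ.leaf K2_ok TX_l3583 _)))
             (CovZ.leaf K2_ok TX_l3584 _))))))))

theorem TX_u6 : CovZ TX_M (toL (selN TX_LN 3)) [0, 7, 4, 3] (-2048, 7552) (-2016, 7584) (-2048, 7616) :=
    (CovZ.n2 (-2048, 7584) (by decide +kernel)
     (CovZ.n2 (-2032, 7600) (by decide +kernel)
      (CovZ.n2 (-2032, 7584) (by decide +kernel)
       (CovZ.n2 (-2040, 7592) (by decide +kernel)
        (CovZ.n2 (-2032, 7592) (by decide +kernel)
         (CovZ.n2 (-2036, 7588) (by decide +kernel)
          (CovZ.leaf K2_ok TX_l3305 _)
          (CovZ.n1 (-2032, 7588) (by decide +kernel)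
           (CovZ.leaf K2_ok TX_l3306 _)
           (CovZ.leaf K2_ok TX_l3307 _)))
         (CovZ.n1 (-2036, 7596) (by decide +kernel)
          (CovZ.n2 (-2032, 7596) (by decide +kernel)
           (CovZ.leaf K2_ok TX_l3308 _)
           (CovZ.leaf K2_ok TX_l3309 _))
          (CovZ.leaf K2_ok TX_l3310 _)))
        (CovZ.n1 (-2040, 7584) (by decide +kernel)
         (CovZ.n2 (-2044, 7588) (by decide +kernel)
          (CovZ.leaf K2_ok TX_l3311 _)
          (CovZ.leaf K2_ok TX_l3312 _))
         (CovZ.n1 (-2036, 7588) (by decide +kernel)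
          (CovZ.leaf K2_ok TX_l3313 _)
          (CovZ.leaf K2_ok TX_l3314 _))))
       (CovZ.n1 (-2024, 7592) (by decide +kernel)
        (CovZ.n2 (-2024, 7584) (by decide +kernel)
         (CovZ.n2 (-2028, 7588) (by decide +kernel)
          (CovZ.n2 (-2024, 7588) (by decide +kernel)
           (CovZ.leaf K2_ok TX_l3315 _)
           (CovZ.leaf K2_ok TX_l3316 _))
          (CovZ.leaf K2_ok TX_l3317 _))
         (CovZ.n1 (-2020, 7588) (by decide +kernel)
          (CovZ.leaf K2_ok TX_l3318 _)
          (CovZ.n1 (-2024, 7588) (by decide +kernel)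
           (CovZ.leaf K2_ok TX_l3319 _)
           (CovZ.leaf K2_ok TX_l3320 _))))
        (CovZ.n1 (-2032, 7592) (by decide +kernel)
         (CovZ.n2 (-2028, 7596) (by decide +kernel)
          (CovZ.n2 (-2028, 7592) (by decide +kernel)
           (CovZ.leaf K2_ok TX_l3321 _)
           (CovZ.leaf K2_ok TX_l3322 _))
          (CovZ.n1 (-2032, 7596) (by decide +kernel)
           (CovZ.leaf K2_ok TX_l3323 _)
           (CovZ.leaf K2_ok TX_l3324 _)))
         (CovZ.n1 (-2028, 7588) (by decide +kernel)
          (CovZ.n2 (-2032, 7588) (by decide +kernel)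
           (CovZ.leaf K2_ok TX_l3325 _)
           (CovZ.leaf K2_ok TX_l3326 _))
          (CovZ.n1 (-2028, 7592) (by decide +kernel)
           (CovZ.leaf K2_ok TX_l3327 _)
           (CovZ.leaf K2_ok TX_l3328 _))))))
      (CovZ.n1 (-2048, 7600) (by decide +kernel)
       (CovZ.n2 (-2040, 7608) (by decide +kernel)
        (CovZ.n2 (-2040, 7600) (by decide +kernel)
         (CovZ.n2 (-2044, 7604) (by decide +kernel)
          (CovZ.n2 (-2040, 7604) (by decide +kernel)
           (CovZ.leaf K2_ok TX_l3329 _)
           (CovZ.leaf K2_ok TX_l3330 _))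
          (CovZ.leaf K2_ok TX_l3331 _))
         (CovZ.n1 (-2036, 7604) (by decide +kernel)
          (CovZ.n2 (-2036, 7600) (by decide +kernel)
           (CovZ.leaf K2_ok TX_l3332 _)
           (CovZ.n1 (-2034, 7602) (by decide +kernel)
            (CovZ.leaf K2_ok TX_l3333 _)
            (CovZ.leaf K2_ok TX_l3334 _)))
          (CovZ.n1 (-2040, 7604) (by decide +kernel)
           (CovZ.n2 (-2038, 7606) (by decide +kernel)
            (CovZ.leaf K2_ok TX_l3335 _)
            (CovZ.n1 (-2040, 7606) (by decide +kernel)
             (CovZ.leaf K2_ok TX_l3336 _)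
             (CovZ.leaf K2_ok TX_l3337 _)))
           (CovZ.n1 (-2038, 7602) (by decide +kernel)
            (CovZ.leaf K2_ok TX_l3338 _)
            (CovZ.leaf K2_ok TX_l3339 _)))))
        (CovZ.n1 (-2048, 7608) (by decide +kernel)
         (CovZ.n2 (-2044, 7612) (by decide +kernel)
          (CovZ.n2 (-2044, 7608) (by decide +kernel)
           (CovZ.n2 (-2046, 7610) (by decide +kernel)
            (CovZ.n2 (-2044, 7610) (by decide +kernel)
             (CovZ.leaf K2_ok TX_l3340 _)
             (CovZ.n1 (-2045, 7611) (by decide +kernel)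
              (CovZ.leaf K2_ok TX_l3341 _)
              (CovZ.leaf K2_ok TX_l3342 _)))
            (CovZ.leaf K2_ok TX_l3343 _))
           (CovZ.n1 (-2042, 7610) (by decide +kernel)
            (CovZ.leaf K2_ok TX_l3344 _)
            (CovZ.n1 (-2044, 7610) (by decide +kernel)
             (CovZ.leaf K2_ok TX_l3345 _)
             (CovZ.leaf K2_ok TX_l3346 _))))
          (CovZ.n1 (-2048, 7612) (by decide +kernel)
           (CovZ.n2 (-2046, 7614) (by decide +kernel)
            (CovZ.leaf K2_ok TX_l3347 _)
            (CovZ.n1 (-2048, 7614) (by decide +kernel)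
             (CovZ.leaf K2_ok TX_l3348 _)
             (CovZ.leaf K2_ok TX_l3349 _)))
           (CovZ.n1 (-2046, 7610) (by decide +kernel)
            (CovZ.n2 (-2048, 7610) (by decide +kernel)
             (CovZ.leaf K2_ok TX_l3350 _)
             (CovZ.leaf K2_ok TX_l3351 _))
            (CovZ.leaf K2_ok TX_l3352 _))))
         (CovZ.n1 (-2044, 7604) (by decide +kernel)
          (CovZ.n2 (-2048, 7604) (by decide +kernel)
           (CovZ.n2 (-2046, 7606) (by decide +kernel)
            (CovZ.leaf K2_ok TX_l3353 _)
            (CovZ.leaf K2_ok TX_l3354 _))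
           (CovZ.n1 (-2046, 7602) (by decide +kernel)
            (CovZ.leaf K2_ok TX_l3355 _)
            (CovZ.leaf K2_ok TX_l3356 _)))
          (CovZ.n1 (-2044, 7608) (by decide +kernel)
           (CovZ.leaf K2_ok TX_l3357 _)
           (CovZ.leaf K2_ok TX_l3358 _)))))
       (CovZ.n1 (-2040, 7592) (by decide +kernel)
        (CovZ.n2 (-2048, 7592) (by decide +kernel)
         (CovZ.n2 (-2044, 7596) (by decide +kernel)
          (CovZ.leaf K2_ok TX_l3359 _)
          (CovZ.n1 (-2048, 7596) (by decide +kernel)
           (CovZ.leaf K2_ok TX_l3360 _)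
           (CovZ.leaf K2_ok TX_l3361 _)))
         (CovZ.n1 (-2044, 7588) (by decide +kernel)
          (CovZ.leaf K2_ok TX_l3362 _)
          (CovZ.leaf K2_ok TX_l3363 _)))
        (CovZ.n1 (-2040, 7600) (by decide +kernel)
         (CovZ.n2 (-2036, 7596) (by decide +kernel)
          (CovZ.n2 (-2040, 7596) (by decide +kernel)
           (CovZ.leaf K2_ok TX_l3364 _)
           (CovZ.leaf K2_ok TX_l3365 _))
          (CovZ.n1 (-2036, 7600) (by decide +kernel)
           (CovZ.leaf K2_ok TX_l3366 _)
           (CovZ.leaf K2_ok TX_l3367 _)))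
         (CovZ.n1 (-2044, 7596) (by decide +kernel)
          (CovZ.n2 (-2044, 7600) (by decide +kernel)
           (CovZ.leaf K2_ok TX_l3368 _)
           (CovZ.leaf K2_ok TX_l3369 _))
          (CovZ.n1 (-2040, 7596) (by decide +kernel)
           (CovZ.leaf K2_ok TX_l3370 _)
           (CovZ.leaf K2_ok TX_l3371 _)))))))
     (CovZ.n1 (-2032, 7568) (by decide +kernel)
      (CovZ.n2 (-2048, 7568) (by decide +kernel)
       (CovZ.n2 (-2040, 7576) (by decide +kernel)
        (CovZ.leaf K2_ok TX_l3372 _)
        (CovZ.n1 (-2048, 7576) (by decide +kernel)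
         (CovZ.leaf K2_ok TX_l3373 _)
         (CovZ.leaf K2_ok TX_l3374 _)))
       (CovZ.n1 (-2040, 7560) (by decide +kernel)
        (CovZ.n2 (-2048, 7560) (by decide +kernel)
         (CovZ.leaf K2_ok TX_l3375 _)
         (CovZ.leaf K2_ok TX_l3376 _))
        (CovZ.leaf K2_ok TX_l3377 _)))
      (CovZ.n1 (-2032, 7584) (by decide +kernel)
       (CovZ.n2 (-2024, 7576) (by decide +kernel)
        (CovZ.n2 (-2032, 7576) (by decide +kernel)
         (CovZ.leaf K2_ok TX_l3378 _)
         (CovZ.n1 (-2028, 7572) (by decide +kernel)
          (CovZ.leaf K2_ok TX_l3379 _)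
          (CovZ.leaf K2_ok TX_l3380 _)))
        (CovZ.n1 (-2024, 7584) (by decide +kernel)
         (CovZ.n2 (-2020, 7580) (by decide +kernel)
          (CovZ.n2 (-2024, 7580) (by decide +kernel)
           (CovZ.leaf K2_ok TX_l3381 _)
           (CovZ.leaf K2_ok TX_l3382 _))
          (CovZ.leaf K2_ok TX_l3383 _))
         (CovZ.n1 (-2028, 7580) (by decide +kernel)
          (CovZ.leaf K2_ok TX_l3384 _)
          (CovZ.leaf K2_ok TX_l3385 _))))
       (CovZ.n1 (-2040, 7576) (by decide +kernel)
        (CovZ.n2 (-2040, 7584) (by decide +kernel)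
         (CovZ.n2 (-2036, 7580) (by decide +kernel)
          (CovZ.leaf K2_ok TX_l3386 _)
          (CovZ.leaf K2_ok TX_l3387 _))
         (CovZ.leaf K2_ok TX_l3388 _))
        (CovZ.n1 (-2032, 7576) (by decide +kernel)
         (CovZ.leaf K2_ok TX_l3389 _)
         (CovZ.leaf K2_ok TX_l3390 _))))))

theorem TX_u7 : CovZ TX_M (toL (selN TX_LN 3)) [0, 7, 4, 3] (-2016, 7584) (-1984, 7616) (-2048, 7616) :=
    (CovZ.n1 (-2016, 7616) (by decide +kernel)
     (CovZ.n2 (-2000, 7600) (by decide +kernel)
      (CovZ.n2 (-2016, 7600) (by decide +kernel)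
       (CovZ.n2 (-2008, 7608) (by decide +kernel)
        (CovZ.n2 (-2008, 7600) (by decide +kernel)
         (CovZ.n2 (-2012, 7604) (by decide +kernel)
          (CovZ.badM (by decide +kernel))
          (CovZ.n1 (-2012, 7600) (by decide +kernel)
           (CovZ.n2 (-2014, 7602) (by decide +kernel)
            (CovZ.badM (by decide +kernel))
            (CovZ.n1 (-2014, 7600) (by decide +kernel)
             (CovZ.leaf K2_ok TX_l3391 _)
             (CovZ.n1 (-2013, 7601) (by decide +kernel)
              (CovZ.leaf K2_ok TX_l3392 _)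
              (CovZ.leaf K2_ok TX_l3393 _))))
           (CovZ.badM (by decide +kernel))))
         (CovZ.badM (by decide +kernel)))
        (CovZ.n1 (-2016, 7608) (by decide +kernel)
         (CovZ.badM (by decide +kernel))
         (CovZ.n1 (-2012, 7604) (by decide +kernel)
          (CovZ.n2 (-2016, 7604) (by decide +kernel)
           (CovZ.badM (by decide +kernel))
           (CovZ.n1 (-2014, 7602) (by decide +kernel)
            (CovZ.n2 (-2016, 7602) (by decide +kernel)
             (CovZ.badM (by decide +kernel))
             (CovZ.n1 (-2015, 7601) (by decide +kernel)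
              (CovZ.leaf K2_ok TX_l3394 _)
              (CovZ.badM (by decide +kernel))))
            (CovZ.badM (by decide +kernel))))
          (CovZ.badM (by decide +kernel)))))
       (CovZ.n1 (-2008, 7592) (by decide +kernel)
        (CovZ.n2 (-2016, 7592) (by decide +kernel)
         (CovZ.n2 (-2012, 7596) (by decide +kernel)
          (CovZ.n2 (-2012, 7592) (by decide +kernel)
           (CovZ.n2 (-2014, 7594) (by decide +kernel)
            (CovZ.leaf K2_ok TX_l3395 _)
            (CovZ.leaf K2_ok TX_l3396 _))
           (CovZ.n1 (-2010, 7594) (by decide +kernel)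
            (CovZ.leaf K2_ok TX_l3397 _)
            (CovZ.leaf K2_ok TX_l3398 _)))
          (CovZ.n1 (-2016, 7596) (by decide +kernel)
           (CovZ.n2 (-2014, 7598) (by decide +kernel)
            (CovZ.leaf K2_ok TX_l3399 _)
            (CovZ.n1 (-2016, 7598) (by decide +kernel)
             (CovZ.leaf K2_ok TX_l3400 _)
             (CovZ.leaf K2_ok TX_l3401 _)))
           (CovZ.n1 (-2014, 7594) (by decide +kernel)
            (CovZ.leaf K2_ok TX_l3402 _)
            (CovZ.leaf K2_ok TX_l3403 _))))
         (CovZ.n1 (-2012, 7588) (by decide +kernel)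
          (CovZ.n2 (-2016, 7588) (by decide +kernel)
           (CovZ.leaf K2_ok TX_l3404 _)
           (CovZ.leaf K2_ok TX_l3405 _))
          (CovZ.n1 (-2012, 7592) (by decide +kernel)
           (CovZ.n2 (-2010, 7590) (by decide +kernel)
            (CovZ.leaf K2_ok TX_l3406 _)
            (CovZ.leaf K2_ok TX_l3407 _))
           (CovZ.n1 (-2014, 7590) (by decide +kernel)
            (CovZ.leaf K2_ok TX_l3408 _)
            (CovZ.leaf K2_ok TX_l3409 _)))))
        (CovZ.n1 (-2008, 7600) (by decide +kernel)
         (CovZ.n2 (-2004, 7596) (by decide +kernel)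
          (CovZ.n2 (-2008, 7596) (by decide +kernel)
           (CovZ.n2 (-2006, 7598) (by decide +kernel)
            (CovZ.n2 (-2006, 7596) (by decide +kernel)
             (CovZ.n2 (-2007, 7597) (by decide +kernel)
              (CovZ.leaf K2_ok TX_l3410 _)
              (CovZ.leaf K2_ok TX_l3411 _))
             (CovZ.n1 (-2005, 7597) (by decide +kernel)
              (CovZ.leaf K2_ok TX_l3412 _)
              (CovZ.leaf K2_ok TX_l3413 _)))
            (CovZ.n1 (-2008, 7598) (by decide +kernel)
             (CovZ.badM (by decide +kernel))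
             (CovZ.leaf K2_ok TX_l3414 _)))
           (CovZ.n1 (-2006, 7594) (by decide +kernel)
            (CovZ.n2 (-2008, 7594) (by decide +kernel)
             (CovZ.leaf K2_ok TX_l3415 _)
             (CovZ.leaf K2_ok TX_l3416 _))
            (CovZ.n1 (-2006, 7596) (by decide +kernel)
             (CovZ.leaf K2_ok TX_l3417 _)
             (CovZ.leaf K2_ok TX_l3418 _))))
          (CovZ.badM (by decide +kernel)))
         (CovZ.n1 (-2012, 7596) (by decide +kernel)
          (CovZ.n2 (-2012, 7600) (by decide +kernel)
           (CovZ.n2 (-2010, 7598) (by decide +kernel)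
            (CovZ.n2 (-2012, 7598) (by decide +kernel)
             (CovZ.leaf K2_ok TX_l3419 _)
             (CovZ.n1 (-2011, 7597) (by decide +kernel)
              (CovZ.leaf K2_ok TX_l3420 _)
              (CovZ.leaf K2_ok TX_l3421 _)))
            (CovZ.n1 (-2010, 7600) (by decide +kernel)
             (CovZ.n2 (-2009, 7599) (by decide +kernel)
              (CovZ.leaf K2_ok TX_l3422 _)
              (CovZ.badM (by decide +kernel)))
             (CovZ.leaf K2_ok TX_l3423 _)))
           (CovZ.n1 (-2014, 7598) (by decide +kernel)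
            (CovZ.leaf K2_ok TX_l3424 _)
            (CovZ.n1 (-2012, 7598) (by decide +kernel)
             (CovZ.leaf K2_ok TX_l3425 _)
             (CovZ.n1 (-2013, 7599) (by decide +kernel)
              (CovZ.leaf K2_ok TX_l3426 _)
              (CovZ.leaf K2_ok TX_l3427 _)))))
          (CovZ.n1 (-2008, 7596) (by decide +kernel)
           (CovZ.n2 (-2010, 7594) (by decide +kernel)
            (CovZ.leaf K2_ok TX_l3428 _)
            (CovZ.n1 (-2008, 7594) (by decide +kernel)
             (CovZ.leaf K2_ok TX_l3429 _)
             (CovZ.leaf K2_ok TX_l3430 _)))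
           (CovZ.n1 (-2010, 7598) (by decide +kernel)
            (CovZ.n2 (-2008, 7598) (by decide +kernel)
             (CovZ.leaf K2_ok TX_l3431 _)
             (CovZ.leaf K2_ok TX_l3432 _))
            (CovZ.n1 (-2010, 7596) (by decide +kernel)
             (CovZ.n2 (-2011, 7597) (by decide +kernel)
              (CovZ.leaf K2_ok TX_l3433 _)
              (CovZ.leaf K2_ok TX_l3434 _))
             (CovZ.leaf K2_ok TX_l3435 _))))))))
      (CovZ.badM (by decide +kernel)))
     (CovZ.n1 (-2032, 7600) (by decide +kernel)
      TX_u4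
      TX_u5))

theorem TX_u8 : CovZ TX_M (toL (selN TX_LN 3)) [0, 7, 4, 3] (-1920, 7552) (-1936, 7568) (-1952, 7552) :=
    (CovZ.n2 (-1936, 7552) (by decide +kernel)
       (CovZ.n2 (-1944, 7560) (by decide +kernel)
        (CovZ.n2 (-1936, 7560) (by decide +kernel)
         (CovZ.n2 (-1940, 7556) (by decide +kernel)
          (CovZ.n2 (-1940, 7560) (by decide +kernel)
           (CovZ.n2 (-1938, 7558) (by decide +kernel)
            (CovZ.n2 (-1940, 7558) (by decide +kernel)
             (CovZ.leaf K2_ok TX_l3944 _)
             (CovZ.n1 (-1939, 7557) (by decide +kernel)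
              (CovZ.leaf K2_ok TX_l3945 _)
              (CovZ.leaf K2_ok TX_l3946 _)))
            (CovZ.n1 (-1938, 7560) (by decide +kernel)
             (CovZ.leaf K2_ok TX_l3947 _)
             (CovZ.leaf K2_ok TX_l3948 _)))
           (CovZ.n1 (-1942, 7558) (by decide +kernel)
            (CovZ.n2 (-1942, 7560) (by decide +kernel)
             (CovZ.leaf K2_ok TX_l3949 _)
             (CovZ.leaf K2_ok TX_l3950 _))
            (CovZ.n1 (-1940, 7558) (by decide +kernel)
             (CovZ.leaf K2_ok TX_l3951 _)
             (CovZ.leaf K2_ok TX_l3952 _))))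
          (CovZ.n1 (-1936, 7556) (by decide +kernel)
           (CovZ.n2 (-1938, 7554) (by decide +kernel)
            (CovZ.leaf K2_ok TX_l3953 _)
            (CovZ.n1 (-1936, 7554) (by decide +kernel)
             (CovZ.leaf K2_ok TX_l3954 _)
             (CovZ.leaf K2_ok TX_l3955 _)))
           (CovZ.n1 (-1938, 7558) (by decide +kernel)
            (CovZ.n2 (-1936, 7558) (by decide +kernel)
             (CovZ.leaf K2_ok TX_l3956 _)
             (CovZ.leaf K2_ok TX_l3957 _))
            (CovZ.leaf K2_ok TX_l3958 _))))
         (CovZ.n1 (-1940, 7564) (by decide +kernel)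
          (CovZ.n2 (-1936, 7564) (by decide +kernel)
           (CovZ.n2 (-1938, 7562) (by decide +kernel)
            (CovZ.badM (by decide +kernel))
            (CovZ.n1 (-1936, 7562) (by decide +kernel)
             (CovZ.leaf K2_ok TX_l3959 _)
             (CovZ.badM (by decide +kernel))))
           (CovZ.badM (by decide +kernel)))
          (CovZ.n1 (-1940, 7560) (by decide +kernel)
           (CovZ.n2 (-1942, 7562) (by decide +kernel)
            (CovZ.n2 (-1940, 7562) (by decide +kernel)
             (CovZ.leaf K2_ok TX_l3960 _)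
             (CovZ.leaf K2_ok TX_l3961 _))
            (CovZ.leaf K2_ok TX_l3962 _))
           (CovZ.n1 (-1938, 7562) (by decide +kernel)
            (CovZ.leaf K2_ok TX_l3963 _)
            (CovZ.n1 (-1940, 7562) (by decide +kernel)
             (CovZ.n2 (-1939, 7563) (by decide +kernel)
              (CovZ.leaf K2_ok TX_l3964 _)
              (CovZ.leaf K2_ok TX_l3965 _))
             (CovZ.leaf K2_ok TX_l3966 _))))))
        (CovZ.n1 (-1944, 7552) (by decide +kernel)
         (CovZ.n2 (-1948, 7556) (by decide +kernel)
          (CovZ.n2 (-1944, 7556) (by decide +kernel)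
           (CovZ.leaf K2_ok TX_l3967 _)
           (CovZ.leaf K2_ok TX_l3968 _))
          (CovZ.n1 (-1948, 7552) (by decide +kernel)
           (CovZ.leaf K2_ok TX_l3969 _)
           (CovZ.leaf K2_ok TX_l3970 _)))
         (CovZ.n1 (-1940, 7556) (by decide +kernel)
          (CovZ.n2 (-1940, 7552) (by decide +kernel)
           (CovZ.leaf K2_ok TX_l3971 _)
           (CovZ.leaf K2_ok TX_l3972 _))
          (CovZ.n1 (-1944, 7556) (by decide +kernel)
           (CovZ.leaf K2_ok TX_l3973 _)
           (CovZ.n1 (-1942, 7554) (by decide +kernel)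
            (CovZ.n2 (-1944, 7554) (by decide +kernel)
             (CovZ.leaf K2_ok TX_l3974 _)
             (CovZ.n1 (-1943, 7553) (by decide +kernel)
              (CovZ.leaf K2_ok TX_l3975 _)
              (CovZ.leaf K2_ok TX_l3976 _)))
            (CovZ.leaf K2_ok TX_l3977 _))))))
       (CovZ.n1 (-1928, 7560) (by decide +kernel)
        (CovZ.n2 (-1928, 7552) (by decide +kernel)
         (CovZ.n2 (-1932, 7556) (by decide +kernel)
          (CovZ.n2 (-1928, 7556) (by decide +kernel)
           (CovZ.n2 (-1930, 7554) (by decide +kernel)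
            (CovZ.n2 (-1930, 7556) (by decide +kernel)
             (CovZ.n2 (-1929, 7555) (by decide +kernel)
              (CovZ.leaf K2_ok TX_l3978 _)
              (CovZ.leaf K2_ok TX_l3979 _))
             (CovZ.leaf K2_ok TX_l3980 _))
            (CovZ.n1 (-1928, 7554) (by decide +kernel)
             (CovZ.leaf K2_ok TX_l3981 _)
             (CovZ.leaf K2_ok TX_l3982 _)))
           (CovZ.n1 (-1930, 7558) (by decide +kernel)
            (CovZ.n2 (-1928, 7558) (by decide +kernel)
             (CovZ.n2 (-1929, 7557) (by decide +kernel)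
              (CovZ.leaf K2_ok TX_l3983 _)
              (CovZ.leaf K2_ok TX_l3984 _))
             (CovZ.badM (by decide +kernel)))
            (CovZ.n1 (-1930, 7556) (by decide +kernel)
             (CovZ.n2 (-1931, 7557) (by decide +kernel)
              (CovZ.leaf K2_ok TX_l3985 _)
              (CovZ.leaf K2_ok TX_l3986 _))
             (CovZ.n1 (-1929, 7557) (by decide +kernel)
              (CovZ.leaf K2_ok TX_l3987 _)
              (CovZ.n1 (-1930, 7557) (by decide +kernel)
               (CovZ.leaf K2_ok TX_l3988 _)
               (CovZ.leaf K2_ok TX_l3989 _))))))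
          (CovZ.n1 (-1932, 7552) (by decide +kernel)
           (CovZ.n2 (-1934, 7554) (by decide +kernel)
            (CovZ.n2 (-1932, 7554) (by decide +kernel)
             (CovZ.leaf K2_ok TX_l3990 _)
             (CovZ.leaf K2_ok TX_l3991 _))
            (CovZ.leaf K2_ok TX_l3992 _))
           (CovZ.n1 (-1930, 7554) (by decide +kernel)
            (CovZ.leaf K2_ok TX_l3993 _)
            (CovZ.n1 (-1932, 7554) (by decide +kernel)
             (CovZ.leaf K2_ok TX_l3994 _)
             (CovZ.leaf K2_ok TX_l3995 _)))))
         (CovZ.n1 (-1924, 7556) (by decide +kernel)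
          (CovZ.n2 (-1924, 7552) (by decide +kernel)
           (CovZ.n2 (-1926, 7554) (by decide +kernel)
            (CovZ.n2 (-1924, 7554) (by decide +kernel)
             (CovZ.leaf K2_ok TX_l3996 _)
             (CovZ.n1 (-1925, 7555) (by decide +kernel)
              (CovZ.n2 (-1924, 7555) (by decide +kernel)
               (CovZ.leaf K2_ok TX_l3997 _)
               (CovZ.leaf K2_ok TX_l3998 _))
              (CovZ.leaf K2_ok TX_l3999 _)))
            (CovZ.leaf K2_ok TX_l4000 _))
           (CovZ.n1 (-1922, 7554) (by decide +kernel)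
            (CovZ.leaf K2_ok TX_l4001 _)
            (CovZ.n1 (-1924, 7554) (by decide +kernel)
             (CovZ.n2 (-1923, 7555) (by decide +kernel)
              (CovZ.leaf K2_ok TX_l4002 _)
              (CovZ.n1 (-1924, 7555) (by decide +kernel)
               (CovZ.leaf K2_ok TX_l4003 _)
               (CovZ.leaf K2_ok TX_l4004 _)))
             (CovZ.leaf K2_ok TX_l4005 _))))
          (CovZ.n1 (-1928, 7556) (by decide +kernel)
           (CovZ.n2 (-1926, 7558) (by decide +kernel)
            (CovZ.n2 (-1926, 7556) (by decide +kernel)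
             (CovZ.n2 (-1927, 7557) (by decide +kernel)
              (CovZ.leaf K2_ok TX_l4006 _)
              (CovZ.leaf K2_ok TX_l4007 _))
             (CovZ.n1 (-1925, 7557) (by decide +kernel)
              (CovZ.leaf K2_ok TX_l4008 _)
              (CovZ.leaf K2_ok TX_l4009 _)))
            (CovZ.n1 (-1928, 7558) (by decide +kernel)
             (CovZ.badM (by decide +kernel))
             (CovZ.n1 (-1927, 7557) (by decide +kernel)
              (CovZ.leaf K2_ok TX_l4010 _)
              (CovZ.badM (by decide +kernel)))))
           (CovZ.n1 (-1926, 7554) (by decide +kernel)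
            (CovZ.n2 (-1928, 7554) (by decide +kernel)
             (CovZ.leaf K2_ok TX_l4011 _)
             (CovZ.n1 (-1927, 7553) (by decide +kernel)
              (CovZ.leaf K2_ok TX_l4012 _)
              (CovZ.leaf K2_ok TX_l4013 _)))
            (CovZ.n1 (-1926, 7556) (by decide +kernel)
             (CovZ.leaf K2_ok TX_l4014 _)
             (CovZ.leaf K2_ok TX_l4015 _))))))
        (CovZ.n1 (-1936, 7560) (by decide +kernel)
         (CovZ.n2 (-1932, 7564) (by decide +kernel)
          (CovZ.n2 (-1932, 7560) (by decide +kernel)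
           (CovZ.n2 (-1934, 7562) (by decide +kernel)
            (CovZ.badM (by decide +kernel))
            (CovZ.n1 (-1934, 7560) (by decide +kernel)
             (CovZ.n2 (-1935, 7561) (by decide +kernel)
              (CovZ.badM (by decide +kernel))
              (CovZ.leaf K2_ok TX_l4016 _))
             (CovZ.badM (by decide +kernel))))
           (CovZ.badM (by decide +kernel)))
          (CovZ.n1 (-1936, 7564) (by decide +kernel)
           (CovZ.badM (by decide +kernel))
           (CovZ.n1 (-1934, 7562) (by decide +kernel)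
            (CovZ.n2 (-1936, 7562) (by decide +kernel)
             (CovZ.badM (by decide +kernel))
             (CovZ.n1 (-1935, 7561) (by decide +kernel)
              (CovZ.leaf K2_ok TX_l4017 _)
              (CovZ.badM (by decide +kernel))))
            (CovZ.badM (by decide +kernel)))))
         (CovZ.n1 (-1932, 7556) (by decide +kernel)
          (CovZ.n2 (-1936, 7556) (by decide +kernel)
           (CovZ.n2 (-1934, 7558) (by decide +kernel)
            (CovZ.leaf K2_ok TX_l4018 _)
            (CovZ.n1 (-1936, 7558) (by decide +kernel)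
             (CovZ.leaf K2_ok TX_l4019 _)
             (CovZ.leaf K2_ok TX_l4020 _)))
           (CovZ.n1 (-1934, 7554) (by decide +kernel)
            (CovZ.n2 (-1936, 7554) (by decide +kernel)
             (CovZ.leaf K2_ok TX_l4021 _)
             (CovZ.leaf K2_ok TX_l4022 _))
            (CovZ.leaf K2_ok TX_l4023 _)))
          (CovZ.n1 (-1932, 7560) (by decide +kernel)
           (CovZ.n2 (-1930, 7558) (by decide +kernel)
            (CovZ.n2 (-1932, 7558) (by decide +kernel)
             (CovZ.n2 (-1931, 7559) (by decide +kernel)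
              (CovZ.leaf K2_ok TX_l4024 _)
              (CovZ.leaf K2_ok TX_l4025 _))
             (CovZ.n1 (-1931, 7557) (by decide +kernel)
              (CovZ.leaf K2_ok TX_l4026 _)
              (CovZ.leaf K2_ok TX_l4027 _)))
            (CovZ.badM (by decide +kernel)))
           (CovZ.n1 (-1934, 7558) (by decide +kernel)
            (CovZ.n2 (-1934, 7560) (by decide +kernel)
             (CovZ.n2 (-1933, 7559) (by decide +kernel)
              (CovZ.leaf K2_ok TX_l4028 _)
              (CovZ.badM (by decide +kernel)))
             (CovZ.leaf K2_ok TX_l4029 _))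
            (CovZ.n1 (-1932, 7558) (by decide +kernel)
             (CovZ.leaf K2_ok TX_l4030 _)
             (CovZ.n1 (-1933, 7559) (by decide +kernel)
              (CovZ.n2 (-1932, 7559) (by decide +kernel)
               (CovZ.leaf K2_ok TX_l4031 _)
               (CovZ.badM (by decide +kernel)))
              (CovZ.leaf K2_ok TX_l4032 _)))))))))

theorem TX_u9 : CovZ TX_M (toL (selN TX_LN 3)) [0, 7, 4, 3] (-1936, 7568) (-1952, 7584) (-1952, 7552) :=
    (CovZ.n1 (-1952, 7568) (by decide +kernel)
       (CovZ.n2 (-1944, 7576) (by decide +kernel)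
        (CovZ.n2 (-1944, 7568) (by decide +kernel)
         (CovZ.n2 (-1948, 7572) (by decide +kernel)
          (CovZ.badM (by decide +kernel))
          (CovZ.n1 (-1948, 7568) (by decide +kernel)
           (CovZ.n2 (-1950, 7570) (by decide +kernel)
            (CovZ.badM (by decide +kernel))
            (CovZ.leaf K2_ok TX_l4033 _))
           (CovZ.badM (by decide +kernel))))
         (CovZ.badM (by decide +kernel)))
        (CovZ.n1 (-1952, 7576) (by decide +kernel)
         (CovZ.badM (by decide +kernel))
         (CovZ.n1 (-1948, 7572) (by decide +kernel)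
          (CovZ.n2 (-1952, 7572) (by decide +kernel)
           (CovZ.badM (by decide +kernel))
           (CovZ.n1 (-1950, 7570) (by decide +kernel)
            (CovZ.n2 (-1952, 7570) (by decide +kernel)
             (CovZ.badM (by decide +kernel))
             (CovZ.n1 (-1951, 7569) (by decide +kernel)
              (CovZ.leaf K2_ok TX_l4034 _)
              (CovZ.badM (by decide +kernel))))
            (CovZ.badM (by decide +kernel))))
          (CovZ.badM (by decide +kernel)))))
       (CovZ.n1 (-1944, 7560) (by decide +kernel)
        (CovZ.n2 (-1952, 7560) (by decide +kernel)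
         (CovZ.n2 (-1948, 7564) (by decide +kernel)
          (CovZ.n2 (-1948, 7560) (by decide +kernel)
           (CovZ.n2 (-1950, 7562) (by decide +kernel)
            (CovZ.n2 (-1948, 7562) (by decide +kernel)
             (CovZ.leaf K2_ok TX_l4035 _)
             (CovZ.leaf K2_ok TX_l4036 _))
            (CovZ.leaf K2_ok TX_l4037 _))
           (CovZ.n1 (-1946, 7562) (by decide +kernel)
            (CovZ.leaf K2_ok TX_l4038 _)
            (CovZ.n1 (-1948, 7562) (by decide +kernel)
             (CovZ.leaf K2_ok TX_l4039 _)
             (CovZ.leaf K2_ok TX_l4040 _))))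
          (CovZ.n1 (-1952, 7564) (by decide +kernel)
           (CovZ.n2 (-1950, 7566) (by decide +kernel)
            (CovZ.n2 (-1950, 7564) (by decide +kernel)
             (CovZ.leaf K2_ok TX_l4041 _)
             (CovZ.leaf K2_ok TX_l4042 _))
            (CovZ.n1 (-1952, 7566) (by decide +kernel)
             (CovZ.leaf K2_ok TX_l4043 _)
             (CovZ.leaf K2_ok TX_l4044 _)))
           (CovZ.n1 (-1950, 7562) (by decide +kernel)
            (CovZ.n2 (-1952, 7562) (by decide +kernel)
             (CovZ.leaf K2_ok TX_l4045 _)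
             (CovZ.n1 (-1951, 7561) (by decide +kernel)
              (CovZ.leaf K2_ok TX_l4046 _)
              (CovZ.leaf K2_ok TX_l4047 _)))
            (CovZ.leaf K2_ok TX_l4048 _))))
         (CovZ.n1 (-1948, 7556) (by decide +kernel)
          (CovZ.n2 (-1952, 7556) (by decide +kernel)
           (CovZ.leaf K2_ok TX_l4049 _)
           (CovZ.leaf K2_ok TX_l4050 _))
          (CovZ.n1 (-1948, 7560) (by decide +kernel)
           (CovZ.n2 (-1946, 7558) (by decide +kernel)
            (CovZ.leaf K2_ok TX_l4051 _)
            (CovZ.leaf K2_ok TX_l4052 _))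
           (CovZ.n1 (-1950, 7558) (by decide +kernel)
            (CovZ.leaf K2_ok TX_l4053 _)
            (CovZ.n1 (-1948, 7558) (by decide +kernel)
             (CovZ.leaf K2_ok TX_l4054 _)
             (CovZ.leaf K2_ok TX_l4055 _))))))
        (CovZ.n1 (-1944, 7568) (by decide +kernel)
         (CovZ.n2 (-1940, 7564) (by decide +kernel)
          (CovZ.n2 (-1944, 7564) (by decide +kernel)
           (CovZ.n2 (-1942, 7566) (by decide +kernel)
            (CovZ.leaf K2_ok TX_l4056 _)
            (CovZ.n1 (-1944, 7566) (by decide +kernel)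
             (CovZ.badM (by decide +kernel))
             (CovZ.n1 (-1943, 7565) (by decide +kernel)
              (CovZ.leaf K2_ok TX_l4057 _)
              (CovZ.badM (by decide +kernel)))))
           (CovZ.n1 (-1942, 7562) (by decide +kernel)
            (CovZ.n2 (-1944, 7562) (by decide +kernel)
             (CovZ.leaf K2_ok TX_l4058 _)
             (CovZ.n1 (-1943, 7561) (by decide +kernel)
              (CovZ.leaf K2_ok TX_l4059 _)
              (CovZ.leaf K2_ok TX_l4060 _)))
            (CovZ.leaf K2_ok TX_l4061 _)))
          (CovZ.badM (by decide +kernel)))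
         (CovZ.n1 (-1948, 7564) (by decide +kernel)
          (CovZ.n2 (-1948, 7568) (by decide +kernel)
           (CovZ.n2 (-1946, 7566) (by decide +kernel)
            (CovZ.n2 (-1948, 7566) (by decide +kernel)
             (CovZ.n2 (-1947, 7567) (by decide +kernel)
              (CovZ.leaf K2_ok TX_l4062 _)
              (CovZ.leaf K2_ok TX_l4063 _))
             (CovZ.n1 (-1947, 7565) (by decide +kernel)
              (CovZ.leaf K2_ok TX_l4064 _)
              (CovZ.leaf K2_ok TX_l4065 _)))
            (CovZ.badM (by decide +kernel)))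
           (CovZ.n1 (-1950, 7566) (by decide +kernel)
            (CovZ.n2 (-1950, 7568) (by decide +kernel)
             (CovZ.n2 (-1949, 7567) (by decide +kernel)
              (CovZ.leaf K2_ok TX_l4066 _)
              (CovZ.badM (by decide +kernel)))
             (CovZ.n1 (-1951, 7567) (by decide +kernel)
              (CovZ.leaf K2_ok TX_l4067 _)
              (CovZ.leaf K2_ok TX_l4068 _)))
            (CovZ.n1 (-1948, 7566) (by decide +kernel)
             (CovZ.n2 (-1949, 7565) (by decide +kernel)
              (CovZ.leaf K2_ok TX_l4069 _)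
              (CovZ.leaf K2_ok TX_l4070 _))
             (CovZ.n1 (-1949, 7567) (by decide +kernel)
              (CovZ.n2 (-1948, 7567) (by decide +kernel)
               (CovZ.leaf K2_ok TX_l4071 _)
               (CovZ.badM (by decide +kernel)))
              (CovZ.leaf K2_ok TX_l4072 _)))))
          (CovZ.n1 (-1944, 7564) (by decide +kernel)
           (CovZ.n2 (-1946, 7562) (by decide +kernel)
            (CovZ.n2 (-1946, 7564) (by decide +kernel)
             (CovZ.leaf K2_ok TX_l4073 _)
             (CovZ.leaf K2_ok TX_l4074 _))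
            (CovZ.n1 (-1944, 7562) (by decide +kernel)
             (CovZ.leaf K2_ok TX_l4075 _)
             (CovZ.n1 (-1945, 7563) (by decide +kernel)
              (CovZ.leaf K2_ok TX_l4076 _)
              (CovZ.leaf K2_ok TX_l4077 _))))
           (CovZ.n1 (-1946, 7566) (by decide +kernel)
            (CovZ.n2 (-1944, 7566) (by decide +kernel)
             (CovZ.n2 (-1945, 7565) (by decide +kernel)
              (CovZ.badM (by decide +kernel))
              (CovZ.leaf K2_ok TX_l4078 _))
             (CovZ.badM (by decide +kernel)))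
            (CovZ.n1 (-1946, 7564) (by decide +kernel)
             (CovZ.leaf K2_ok TX_l4079 _)
             (CovZ.leaf K2_ok TX_l4080 _))))))))

theorem TX_u10 : CovZ TX_M (toL (selN TX_LN 3)) [0, 7, 4, 3] (-1984, 7552) (-1968, 7568) (-1984, 7584) :=
    (CovZ.n2 (-1984, 7568) (by decide +kernel)
       (CovZ.n2 (-1976, 7576) (by decide +kernel)
        (CovZ.n2 (-1976, 7568) (by decide +kernel)
         (CovZ.n2 (-1980, 7572) (by decide +kernel)
          (CovZ.n2 (-1976, 7572) (by decide +kernel)
           (CovZ.leaf K2_ok TX_l4083 _)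
           (CovZ.n1 (-1978, 7574) (by decide +kernel)
            (CovZ.leaf K2_ok TX_l4084 _)
            (CovZ.leaf K2_ok TX_l4085 _)))
          (CovZ.n1 (-1980, 7568) (by decide +kernel)
           (CovZ.leaf K2_ok TX_l4086 _)
           (CovZ.leaf K2_ok TX_l4087 _)))
         (CovZ.n1 (-1972, 7572) (by decide +kernel)
          (CovZ.n2 (-1972, 7568) (by decide +kernel)
           (CovZ.leaf K2_ok TX_l4088 _)
           (CovZ.n1 (-1970, 7570) (by decide +kernel)
            (CovZ.leaf K2_ok TX_l4089 _)
            (CovZ.leaf K2_ok TX_l4090 _)))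
          (CovZ.n1 (-1976, 7572) (by decide +kernel)
           (CovZ.n2 (-1974, 7574) (by decide +kernel)
            (CovZ.leaf K2_ok TX_l4091 _)
            (CovZ.leaf K2_ok TX_l4092 _))
           (CovZ.n1 (-1974, 7570) (by decide +kernel)
            (CovZ.leaf K2_ok TX_l4093 _)
            (CovZ.leaf K2_ok TX_l4094 _)))))
        (CovZ.n1 (-1984, 7576) (by decide +kernel)
         (CovZ.n2 (-1980, 7580) (by decide +kernel)
          (CovZ.n2 (-1980, 7576) (by decide +kernel)
           (CovZ.n2 (-1982, 7578) (by decide +kernel)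
            (CovZ.leaf K2_ok TX_l4095 _)
            (CovZ.leaf K2_ok TX_l4096 _))
           (CovZ.n1 (-1978, 7578) (by decide +kernel)
            (CovZ.leaf K2_ok TX_l4097 _)
            (CovZ.n1 (-1980, 7578) (by decide +kernel)
             (CovZ.leaf K2_ok TX_l4098 _)
             (CovZ.leaf K2_ok TX_l4099 _))))
          (CovZ.n1 (-1984, 7580) (by decide +kernel)
           (CovZ.n2 (-1982, 7582) (by decide +kernel)
            (CovZ.leaf K2_ok TX_l4100 _)
            (CovZ.n1 (-1984, 7582) (by decide +kernel)
             (CovZ.leaf K2_ok TX_l4101 _)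
             (CovZ.n1 (-1983, 7581) (by decide +kernel)
              (CovZ.leaf K2_ok TX_l4102 _)
              (CovZ.leaf K2_ok TX_l4103 _))))
           (CovZ.n1 (-1982, 7578) (by decide +kernel)
            (CovZ.n2 (-1984, 7578) (by decide +kernel)
             (CovZ.leaf K2_ok TX_l4104 _)
             (CovZ.leaf K2_ok TX_l4105 _))
            (CovZ.leaf K2_ok TX_l4106 _))))
         (CovZ.n1 (-1980, 7572) (by decide +kernel)
          (CovZ.n2 (-1984, 7572) (by decide +kernel)
           (CovZ.leaf K2_ok TX_l4107 _)
           (CovZ.leaf K2_ok TX_l4108 _))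
          (CovZ.n1 (-1980, 7576) (by decide +kernel)
           (CovZ.leaf K2_ok TX_l4109 _)
           (CovZ.n1 (-1982, 7574) (by decide +kernel)
            (CovZ.leaf K2_ok TX_l4110 _)
            (CovZ.leaf K2_ok TX_l4111 _))))))
       (CovZ.n1 (-1976, 7560) (by decide +kernel)
        (CovZ.n2 (-1984, 7560) (by decide +kernel)
         (CovZ.n2 (-1980, 7564) (by decide +kernel)
          (CovZ.leaf K2_ok TX_l4112 _)
          (CovZ.n1 (-1984, 7564) (by decide +kernel)
           (CovZ.leaf K2_ok TX_l4113 _)
           (CovZ.leaf K2_ok TX_l4114 _)))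
         (CovZ.n1 (-1980, 7556) (by decide +kernel)
          (CovZ.leaf K2_ok TX_l4115 _)
          (CovZ.leaf K2_ok TX_l4116 _)))
        (CovZ.n1 (-1976, 7568) (by decide +kernel)
         (CovZ.n2 (-1972, 7564) (by decide +kernel)
          (CovZ.n2 (-1976, 7564) (by decide +kernel)
           (CovZ.leaf K2_ok TX_l4117 _)
           (CovZ.leaf K2_ok TX_l4118 _))
          (CovZ.n1 (-1972, 7568) (by decide +kernel)
           (CovZ.leaf K2_ok TX_l4119 _)
           (CovZ.leaf K2_ok TX_l4120 _)))
         (CovZ.n1 (-1980, 7564) (by decide +kernel)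
          (CovZ.leaf K2_ok TX_l4121 _)
          (CovZ.n1 (-1976, 7564) (by decide +kernel)
           (CovZ.leaf K2_ok TX_l4122 _)
           (CovZ.leaf K2_ok TX_l4123 _))))))

theorem TX_u11 : CovZ TX_M (toL (selN TX_LN 3)) [0, 7, 4, 3] (-1968, 7568) (-1952, 7584) (-1984, 7584) :=
    (CovZ.n1 (-1968, 7584) (by decide +kernel)
       (CovZ.n2 (-1960, 7576) (by decide +kernel)
        (CovZ.n2 (-1968, 7576) (by decide +kernel)
         (CovZ.n2 (-1964, 7580) (by decide +kernel)
          (CovZ.n2 (-1964, 7576) (by decide +kernel)
           (CovZ.n2 (-1966, 7578) (by decide +kernel)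
            (CovZ.badM (by decide +kernel))
            (CovZ.n1 (-1966, 7576) (by decide +kernel)
             (CovZ.n2 (-1967, 7577) (by decide +kernel)
              (CovZ.badM (by decide +kernel))
              (CovZ.leaf K2_ok TX_l4124 _))
             (CovZ.badM (by decide +kernel))))
           (CovZ.badM (by decide +kernel)))
          (CovZ.n1 (-1968, 7580) (by decide +kernel)
           (CovZ.badM (by decide +kernel))
           (CovZ.n1 (-1966, 7578) (by decide +kernel)
            (CovZ.n2 (-1968, 7578) (by decide +kernel)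
             (CovZ.badM (by decide +kernel))
             (CovZ.n1 (-1967, 7577) (by decide +kernel)
              (CovZ.n2 (-1968, 7577) (by decide +kernel)
               (CovZ.badM (by decide +kernel))
               (CovZ.leaf K2_ok TX_l4125 _))
              (CovZ.badM (by decide +kernel))))
            (CovZ.badM (by decide +kernel)))))
         (CovZ.n1 (-1964, 7572) (by decide +kernel)
          (CovZ.n2 (-1968, 7572) (by decide +kernel)
           (CovZ.n2 (-1966, 7574) (by decide +kernel)
            (CovZ.leaf K2_ok TX_l4126 _)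
            (CovZ.n1 (-1968, 7574) (by decide +kernel)
             (CovZ.leaf K2_ok TX_l4127 _)
             (CovZ.leaf K2_ok TX_l4128 _)))
           (CovZ.n1 (-1966, 7570) (by decide +kernel)
            (CovZ.n2 (-1968, 7570) (by decide +kernel)
             (CovZ.leaf K2_ok TX_l4129 _)
             (CovZ.leaf K2_ok TX_l4130 _))
            (CovZ.n1 (-1966, 7572) (by decide +kernel)
             (CovZ.leaf K2_ok TX_l4131 _)
             (CovZ.leaf K2_ok TX_l4132 _))))
          (CovZ.n1 (-1964, 7576) (by decide +kernel)
           (CovZ.n2 (-1962, 7574) (by decide +kernel)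
            (CovZ.n2 (-1964, 7574) (by decide +kernel)
             (CovZ.leaf K2_ok TX_l4133 _)
             (CovZ.n1 (-1963, 7573) (by decide +kernel)
              (CovZ.leaf K2_ok TX_l4134 _)
              (CovZ.leaf K2_ok TX_l4135 _)))
            (CovZ.badM (by decide +kernel)))
           (CovZ.n1 (-1966, 7574) (by decide +kernel)
            (CovZ.n2 (-1966, 7576) (by decide +kernel)
             (CovZ.leaf K2_ok TX_l4136 _)
             (CovZ.n1 (-1967, 7575) (by decide +kernel)
              (CovZ.leaf K2_ok TX_l4137 _)
              (CovZ.n1 (-1966, 7575) (by decide +kernel)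
               (CovZ.leaf K2_ok TX_l4138 _)
               (CovZ.leaf K2_ok TX_l4139 _))))
            (CovZ.n1 (-1964, 7574) (by decide +kernel)
             (CovZ.leaf K2_ok TX_l4140 _)
             (CovZ.n1 (-1965, 7575) (by decide +kernel)
              (CovZ.leaf K2_ok TX_l4141 _)
              (CovZ.leaf K2_ok TX_l4142 _)))))))
        (CovZ.badM (by decide +kernel)))
       (CovZ.n1 (-1976, 7576) (by decide +kernel)
        (CovZ.n2 (-1976, 7584) (by decide +kernel)
         (CovZ.n2 (-1972, 7580) (by decide +kernel)
          (CovZ.n2 (-1976, 7580) (by decide +kernel)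
           (CovZ.n2 (-1974, 7582) (by decide +kernel)
            (CovZ.n2 (-1974, 7580) (by decide +kernel)
             (CovZ.n2 (-1975, 7581) (by decide +kernel)
              (CovZ.badM (by decide +kernel))
              (CovZ.leaf K2_ok TX_l4143 _))
             (CovZ.badM (by decide +kernel)))
            (CovZ.n1 (-1976, 7582) (by decide +kernel)
             (CovZ.badM (by decide +kernel))
             (CovZ.leaf K2_ok TX_l4144 _)))
           (CovZ.n1 (-1974, 7578) (by decide +kernel)
            (CovZ.n2 (-1976, 7578) (by decide +kernel)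
             (CovZ.leaf K2_ok TX_l4145 _)
             (CovZ.leaf K2_ok TX_l4146 _))
            (CovZ.n1 (-1974, 7580) (by decide +kernel)
             (CovZ.n2 (-1973, 7579) (by decide +kernel)
              (CovZ.leaf K2_ok TX_l4147 _)
              (CovZ.leaf K2_ok TX_l4148 _))
             (CovZ.leaf K2_ok TX_l4149 _))))
          (CovZ.badM (by decide +kernel)))
         (CovZ.n1 (-1980, 7580) (by decide +kernel)
          (CovZ.n2 (-1980, 7584) (by decide +kernel)
           (CovZ.n2 (-1978, 7582) (by decide +kernel)
            (CovZ.n2 (-1980, 7582) (by decide +kernel)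
             (CovZ.n2 (-1979, 7583) (by decide +kernel)
              (CovZ.leaf K2_ok TX_l4150 _)
              (CovZ.leaf K2_ok TX_l4151 _))
             (CovZ.n1 (-1979, 7581) (by decide +kernel)
              (CovZ.leaf K2_ok TX_l4152 _)
              (CovZ.leaf K2_ok TX_l4153 _)))
            (CovZ.badM (by decide +kernel)))
           (CovZ.n1 (-1982, 7582) (by decide +kernel)
            (CovZ.n2 (-1982, 7584) (by decide +kernel)
             (CovZ.n2 (-1981, 7583) (by decide +kernel)
              (CovZ.leaf K2_ok TX_l4154 _)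
              (CovZ.leaf K2_ok TX_l4155 _))
             (CovZ.n1 (-1983, 7583) (by decide +kernel)
              (CovZ.leaf K2_ok TX_l4156 _)
              (CovZ.n1 (-1982, 7583) (by decide +kernel)
               (CovZ.leaf K2_ok TX_l4157 _)
               (CovZ.leaf K2_ok TX_l4158 _))))
            (CovZ.n1 (-1980, 7582) (by decide +kernel)
             (CovZ.leaf K2_ok TX_l4159 _)
             (CovZ.leaf K2_ok TX_l4160 _))))
          (CovZ.n1 (-1976, 7580) (by decide +kernel)
           (CovZ.n2 (-1978, 7578) (by decide +kernel)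
            (CovZ.n2 (-1978, 7580) (by decide +kernel)
             (CovZ.leaf K2_ok TX_l4161 _)
             (CovZ.n1 (-1979, 7579) (by decide +kernel)
              (CovZ.leaf K2_ok TX_l4162 _)
              (CovZ.leaf K2_ok TX_l4163 _)))
            (CovZ.n1 (-1976, 7578) (by decide +kernel)
             (CovZ.leaf K2_ok TX_l4164 _)
             (CovZ.leaf K2_ok TX_l4165 _)))
           (CovZ.n1 (-1978, 7582) (by decide +kernel)
            (CovZ.n2 (-1976, 7582) (by decide +kernel)
             (CovZ.leaf K2_ok TX_l4166 _)
             (CovZ.badM (by decide +kernel)))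
            (CovZ.leaf K2_ok TX_l4167 _)))))
        (CovZ.n1 (-1968, 7576) (by decide +kernel)
         (CovZ.n2 (-1972, 7572) (by decide +kernel)
          (CovZ.n2 (-1972, 7576) (by decide +kernel)
           (CovZ.n2 (-1970, 7574) (by decide +kernel)
            (CovZ.n2 (-1972, 7574) (by decide +kernel)
             (CovZ.leaf K2_ok TX_l4168 _)
             (CovZ.leaf K2_ok TX_l4169 _))
            (CovZ.n1 (-1970, 7576) (by decide +kernel)
             (CovZ.leaf K2_ok TX_l4170 _)
             (CovZ.leaf K2_ok TX_l4171 _)))
           (CovZ.n1 (-1974, 7574) (by decide +kernel)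
            (CovZ.leaf K2_ok TX_l4172 _)
            (CovZ.n1 (-1972, 7574) (by decide +kernel)
             (CovZ.leaf K2_ok TX_l4173 _)
             (CovZ.n1 (-1973, 7575) (by decide +kernel)
              (CovZ.leaf K2_ok TX_l4174 _)
              (CovZ.leaf K2_ok TX_l4175 _)))))
          (CovZ.n1 (-1968, 7572) (by decide +kernel)
           (CovZ.n2 (-1970, 7570) (by decide +kernel)
            (CovZ.leaf K2_ok TX_l4176 _)
            (CovZ.n1 (-1968, 7570) (by decide +kernel)
             (CovZ.leaf K2_ok TX_l4177 _)
             (CovZ.leaf K2_ok TX_l4178 _)))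
           (CovZ.n1 (-1970, 7574) (by decide +kernel)
            (CovZ.n2 (-1968, 7574) (by decide +kernel)
             (CovZ.leaf K2_ok TX_l4179 _)
             (CovZ.leaf K2_ok TX_l4180 _))
            (CovZ.leaf K2_ok TX_l4181 _))))
         (CovZ.n1 (-1972, 7580) (by decide +kernel)
          (CovZ.n2 (-1968, 7580) (by decide +kernel)
           (CovZ.n2 (-1970, 7578) (by decide +kernel)
            (CovZ.badM (by decide +kernel))
            (CovZ.n1 (-1968, 7578) (by decide +kernel)
             (CovZ.n2 (-1969, 7577) (by decide +kernel)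
              (CovZ.leaf K2_ok TX_l4182 _)
              (CovZ.n1 (-1968, 7577) (by decide +kernel)
               (CovZ.leaf K2_ok TX_l4183 _)
               (CovZ.leaf K2_ok TX_l4184 _)))
             (CovZ.badM (by decide +kernel))))
           (CovZ.badM (by decide +kernel)))
          (CovZ.n1 (-1972, 7576) (by decide +kernel)
           (CovZ.n2 (-1974, 7578) (by decide +kernel)
            (CovZ.n2 (-1972, 7578) (by decide +kernel)
             (CovZ.leaf K2_ok TX_l4185 _)
             (CovZ.leaf K2_ok TX_l4186 _))
            (CovZ.leaf K2_ok TX_l4187 _))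
           (CovZ.n1 (-1970, 7578) (by decide +kernel)
            (CovZ.n2 (-1970, 7576) (by decide +kernel)
             (CovZ.leaf K2_ok TX_l4188 _)
             (CovZ.leaf K2_ok TX_l4189 _))
            (CovZ.n1 (-1972, 7578) (by decide +kernel)
             (CovZ.n2 (-1971, 7579) (by decide +kernel)
              (CovZ.leaf K2_ok TX_l4190 _)
              (CovZ.n1 (-1972, 7579) (by decide +kernel)
               (CovZ.badM (by decide +kernel))
               (CovZ.leaf K2_ok TX_l4191 _)))
             (CovZ.leaf K2_ok TX_l4192 _))))))))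

theorem TX_u12 : CovZ TX_M (toL (selN TX_LN 3)) [0, 7, 4, 3] (-2112, 7616) (-2112, 7648) (-2144, 7648) :=
    (CovZ.n2 (-2128, 7632) (by decide +kernel)
      (CovZ.n2 (-2128, 7648) (by decide +kernel)
       (CovZ.n2 (-2120, 7640) (by decide +kernel)
        (CovZ.n2 (-2128, 7640) (by decide +kernel)
         (CovZ.n2 (-2124, 7644) (by decide +kernel)
          (CovZ.n2 (-2124, 7640) (by decide +kernel)
           (CovZ.leaf K2_ok TX_l1672 _)
           (CovZ.leaf K2_ok TX_l1673 _))
          (CovZ.n1 (-2128, 7644) (by decide +kernel)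
           (CovZ.leaf K2_ok TX_l1674 _)
           (CovZ.leaf K2_ok TX_l1675 _)))
         (CovZ.n1 (-2124, 7636) (by decide +kernel)
          (CovZ.n2 (-2128, 7636) (by decide +kernel)
           (CovZ.leaf K2_ok TX_l1676 _)
           (CovZ.leaf K2_ok TX_l1677 _))
          (CovZ.leaf K2_ok TX_l1678 _)))
        (CovZ.n1 (-2120, 7648) (by decide +kernel)
         (CovZ.n2 (-2116, 7644) (by decide +kernel)
          (CovZ.n2 (-2120, 7644) (by decide +kernel)
           (CovZ.leaf K2_ok TX_l1679 _)
           (CovZ.n1 (-2118, 7642) (by decide +kernel)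
            (CovZ.leaf K2_ok TX_l1680 _)
            (CovZ.leaf K2_ok TX_l1681 _)))
          (CovZ.n1 (-2116, 7648) (by decide +kernel)
           (CovZ.n2 (-2114, 7646) (by decide +kernel)
            (CovZ.leaf K2_ok TX_l1682 _)
            (CovZ.n1 (-2114, 7648) (by decide +kernel)
             (CovZ.leaf K2_ok TX_l1683 _)
             (CovZ.leaf K2_ok TX_l1684 _)))
           (CovZ.n1 (-2118, 7646) (by decide +kernel)
            (CovZ.leaf K2_ok TX_l1685 _)
            (CovZ.leaf K2_ok TX_l1686 _))))
         (CovZ.n1 (-2124, 7644) (by decide +kernel)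
          (CovZ.n2 (-2124, 7648) (by decide +kernel)
           (CovZ.n2 (-2122, 7646) (by decide +kernel)
            (CovZ.leaf K2_ok TX_l1687 _)
            (CovZ.leaf K2_ok TX_l1688 _))
           (CovZ.leaf K2_ok TX_l1689 _))
          (CovZ.n1 (-2120, 7644) (by decide +kernel)
           (CovZ.leaf K2_ok TX_l1690 _)
           (CovZ.n1 (-2122, 7646) (by decide +kernel)
            (CovZ.n2 (-2120, 7646) (by decide +kernel)
             (CovZ.leaf K2_ok TX_l1691 _)
             (CovZ.leaf K2_ok TX_l1692 _))
            (CovZ.leaf K2_ok TX_l1693 _))))))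
       (CovZ.n1 (-2136, 7640) (by decide +kernel)
        (CovZ.n2 (-2136, 7648) (by decide +kernel)
         (CovZ.n2 (-2132, 7644) (by decide +kernel)
          (CovZ.n2 (-2136, 7644) (by decide +kernel)
           (CovZ.leaf K2_ok TX_l1694 _)
           (CovZ.leaf K2_ok TX_l1695 _))
          (CovZ.leaf K2_ok TX_l1696 _))
         (CovZ.n1 (-2140, 7644) (by decide +kernel)
          (CovZ.leaf K2_ok TX_l1697 _)
          (CovZ.n1 (-2136, 7644) (by decide +kernel)
           (CovZ.leaf K2_ok TX_l1698 _)
           (CovZ.leaf K2_ok TX_l1699 _))))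
        (CovZ.n1 (-2128, 7640) (by decide +kernel)
         (CovZ.n2 (-2132, 7636) (by decide +kernel)
          (CovZ.leaf K2_ok TX_l1700 _)
          (CovZ.n1 (-2128, 7636) (by decide +kernel)
           (CovZ.leaf K2_ok TX_l1701 _)
           (CovZ.leaf K2_ok TX_l1702 _)))
         (CovZ.n1 (-2132, 7644) (by decide +kernel)
          (CovZ.n2 (-2128, 7644) (by decide +kernel)
           (CovZ.leaf K2_ok TX_l1703 _)
           (CovZ.leaf K2_ok TX_l1704 _))
          (CovZ.n1 (-2132, 7640) (by decide +kernel)
           (CovZ.leaf K2_ok TX_l1705 _)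
           (CovZ.leaf K2_ok TX_l1706 _))))))
      (CovZ.n1 (-2112, 7632) (by decide +kernel)
       (CovZ.n2 (-2120, 7624) (by decide +kernel)
        (CovZ.n2 (-2120, 7632) (by decide +kernel)
         (CovZ.n2 (-2116, 7628) (by decide +kernel)
          (CovZ.n2 (-2120, 7628) (by decide +kernel)
           (CovZ.leaf K2_ok TX_l1707 _)
           (CovZ.leaf K2_ok TX_l1708 _))
          (CovZ.leaf K2_ok TX_l1709 _))
         (CovZ.n1 (-2124, 7628) (by decide +kernel)
          (CovZ.leaf K2_ok TX_l1710 _)
          (CovZ.leaf K2_ok TX_l1711 _)))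
        (CovZ.n1 (-2112, 7624) (by decide +kernel)
         (CovZ.n2 (-2116, 7620) (by decide +kernel)
          (CovZ.leaf K2_ok TX_l1712 _)
          (CovZ.leaf K2_ok TX_l1713 _))
         (CovZ.n1 (-2116, 7628) (by decide +kernel)
          (CovZ.n2 (-2112, 7628) (by decide +kernel)
           (CovZ.leaf K2_ok TX_l1714 _)
           (CovZ.leaf K2_ok TX_l1715 _))
          (CovZ.leaf K2_ok TX_l1716 _))))
       (CovZ.n1 (-2120, 7640) (by decide +kernel)
        (CovZ.n2 (-2112, 7640) (by decide +kernel)
         (CovZ.n2 (-2116, 7636) (by decide +kernel)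
          (CovZ.n2 (-2116, 7640) (by decide +kernel)
           (CovZ.n2 (-2114, 7638) (by decide +kernel)
            (CovZ.leaf K2_ok TX_l1717 _)
            (CovZ.leaf K2_ok TX_l1718 _))
           (CovZ.leaf K2_ok TX_l1719 _))
          (CovZ.n1 (-2112, 7636) (by decide +kernel)
           (CovZ.leaf K2_ok TX_l1720 _)
           (CovZ.leaf K2_ok TX_l1721 _)))
         (CovZ.n1 (-2116, 7644) (by decide +kernel)
          (CovZ.n2 (-2112, 7644) (by decide +kernel)
           (CovZ.leaf K2_ok TX_l1722 _)
           (CovZ.n1 (-2114, 7646) (by decide +kernel)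
            (CovZ.n2 (-2112, 7646) (by decide +kernel)
             (CovZ.leaf K2_ok TX_l1723 _)
             (CovZ.leaf K2_ok TX_l1724 _))
            (CovZ.leaf K2_ok TX_l1725 _)))
          (CovZ.n1 (-2116, 7640) (by decide +kernel)
           (CovZ.n2 (-2118, 7642) (by decide +kernel)
            (CovZ.leaf K2_ok TX_l1726 _)
            (CovZ.leaf K2_ok TX_l1727 _))
           (CovZ.leaf K2_ok TX_l1728 _))))
        (CovZ.n1 (-2120, 7632) (by decide +kernel)
         (CovZ.n2 (-2124, 7636) (by decide +kernel)
          (CovZ.n2 (-2120, 7636) (by decide +kernel)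
           (CovZ.leaf K2_ok TX_l1729 _)
           (CovZ.leaf K2_ok TX_l1730 _))
          (CovZ.leaf K2_ok TX_l1731 _))
         (CovZ.n1 (-2116, 7636) (by decide +kernel)
          (CovZ.leaf K2_ok TX_l1732 _)
          (CovZ.n1 (-2120, 7636) (by decide +kernel)
           (CovZ.leaf K2_ok TX_l1733 _)
           (CovZ.leaf K2_ok TX_l1734 _)))))))

theorem TX_u13 : CovZ TX_M (toL (selN TX_LN 3)) [0, 7, 4, 3] (-2112, 7648) (-2112, 7680) (-2144, 7648) :=
    (CovZ.n1 (-2128, 7664) (by decide +kernel)
      (CovZ.n2 (-2112, 7664) (by decide +kernel)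
       (CovZ.n2 (-2120, 7656) (by decide +kernel)
        (CovZ.badM (by decide +kernel))
        (CovZ.n1 (-2112, 7656) (by decide +kernel)
         (CovZ.n2 (-2116, 7652) (by decide +kernel)
          (CovZ.n2 (-2116, 7656) (by decide +kernel)
           (CovZ.n2 (-2114, 7654) (by decide +kernel)
            (CovZ.n2 (-2116, 7654) (by decide +kernel)
             (CovZ.badM (by decide +kernel))
             (CovZ.leaf K2_ok TX_l1735 _))
            (CovZ.badM (by decide +kernel)))
           (CovZ.n1 (-2118, 7654) (by decide +kernel)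
            (CovZ.badM (by decide +kernel))
            (CovZ.n1 (-2116, 7654) (by decide +kernel)
             (CovZ.n2 (-2117, 7653) (by decide +kernel)
              (CovZ.leaf K2_ok TX_l1738 _)
              (CovZ.leaf K2_ok TX_l1739 _))
             (CovZ.badM (by decide +kernel)))))
          (CovZ.n1 (-2112, 7652) (by decide +kernel)
           (CovZ.n2 (-2114, 7650) (by decide +kernel)
            (CovZ.n2 (-2114, 7652) (by decide +kernel)
             (CovZ.leaf K2_ok TX_l1741 _)
             (CovZ.leaf K2_ok TX_l1742 _))
            (CovZ.n1 (-2112, 7650) (by decide +kernel)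
             (CovZ.leaf K2_ok TX_l1743 _)
             (CovZ.leaf K2_ok TX_l1744 _)))
           (CovZ.n1 (-2114, 7654) (by decide +kernel)
            (CovZ.badM (by decide +kernel))
            (CovZ.n1 (-2114, 7652) (by decide +kernel)
             (CovZ.leaf K2_ok TX_l1745 _)
             (CovZ.badM (by decide +kernel))))))
         (CovZ.badM (by decide +kernel))))
       (CovZ.badM (by decide +kernel)))
      (CovZ.n1 (-2128, 7648) (by decide +kernel)
       (CovZ.n2 (-2136, 7656) (by decide +kernel)
        (CovZ.n2 (-2128, 7656) (by decide +kernel)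
         (CovZ.n2 (-2132, 7652) (by decide +kernel)
          (CovZ.n2 (-2132, 7656) (by decide +kernel)
           (CovZ.n2 (-2130, 7654) (by decide +kernel)
            (CovZ.n2 (-2132, 7654) (by decide +kernel)
             (CovZ.leaf K2_ok TX_l1746 _)
             (CovZ.leaf K2_ok TX_l1747 _))
            (CovZ.leaf K2_ok TX_l1748 _))
           (CovZ.n1 (-2134, 7654) (by decide +kernel)
            (CovZ.leaf K2_ok TX_l1749 _)
            (CovZ.leaf K2_ok TX_l1750 _)))
          (CovZ.n1 (-2128, 7652) (by decide +kernel)
           (CovZ.leaf K2_ok TX_l1751 _)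
           (CovZ.n1 (-2130, 7654) (by decide +kernel)
            (CovZ.n2 (-2128, 7654) (by decide +kernel)
             (CovZ.leaf K2_ok TX_l1752 _)
             (CovZ.leaf K2_ok TX_l1753 _))
            (CovZ.leaf K2_ok TX_l1754 _))))
         (CovZ.n1 (-2132, 7660) (by decide +kernel)
          (CovZ.n2 (-2128, 7660) (by decide +kernel)
           (CovZ.n2 (-2130, 7658) (by decide +kernel)
            (CovZ.n2 (-2130, 7660) (by decide +kernel)
             (CovZ.n2 (-2129, 7659) (by decide +kernel)
              (CovZ.leaf K2_ok TX_l1755 _)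
              (CovZ.leaf K2_ok TX_l1756 _))
             (CovZ.leaf K2_ok TX_l1757 _))
            (CovZ.n1 (-2128, 7658) (by decide +kernel)
             (CovZ.n2 (-2129, 7657) (by decide +kernel)
              (CovZ.leaf K2_ok TX_l1758 _)
              (CovZ.leaf K2_ok TX_l1759 _))
             (CovZ.n1 (-2129, 7659) (by decide +kernel)
              (CovZ.leaf K2_ok TX_l1760 _)
              (CovZ.leaf K2_ok TX_l1761 _))))
           (CovZ.n1 (-2130, 7662) (by decide +kernel)
            (CovZ.badM (by decide +kernel))
            (CovZ.n1 (-2130, 7660) (by decide +kernel)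
             (CovZ.leaf K2_ok TX_l1762 _)
             (CovZ.n1 (-2129, 7661) (by decide +kernel)
              (CovZ.leaf K2_ok TX_l1763 _)
              (CovZ.n1 (-2130, 7661) (by decide +kernel)
               (CovZ.badM (by decide +kernel))
               (CovZ.leaf K2_ok TX_l1764 _))))))
          (CovZ.n1 (-2132, 7656) (by decide +kernel)
           (CovZ.n2 (-2134, 7658) (by decide +kernel)
            (CovZ.n2 (-2132, 7658) (by decide +kernel)
             (CovZ.leaf K2_ok TX_l1765 _)
             (CovZ.n1 (-2133, 7659) (by decide +kernel)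
              (CovZ.leaf K2_ok TX_l1766 _)
              (CovZ.leaf K2_ok TX_l1767 _)))
            (CovZ.n1 (-2134, 7656) (by decide +kernel)
             (CovZ.n2 (-2135, 7657) (by decide +kernel)
              (CovZ.leaf K2_ok TX_l1768 _)
              (CovZ.leaf K2_ok TX_l1769 _))
             (CovZ.n1 (-2133, 7657) (by decide +kernel)
              (CovZ.leaf K2_ok TX_l1770 _)
              (CovZ.leaf K2_ok TX_l1771 _))))
           (CovZ.n1 (-2130, 7658) (by decide +kernel)
            (CovZ.n2 (-2130, 7656) (by decide +kernel)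
             (CovZ.leaf K2_ok TX_l1772 _)
             (CovZ.leaf K2_ok TX_l1773 _))
            (CovZ.n1 (-2132, 7658) (by decide +kernel)
             (CovZ.leaf K2_ok TX_l1774 _)
             (CovZ.leaf K2_ok TX_l1775 _))))))
        (CovZ.n1 (-2136, 7648) (by decide +kernel)
         (CovZ.n2 (-2140, 7652) (by decide +kernel)
          (CovZ.n2 (-2136, 7652) (by decide +kernel)
           (CovZ.leaf K2_ok TX_l1776 _)
           (CovZ.n1 (-2138, 7654) (by decide +kernel)
            (CovZ.leaf K2_ok TX_l1777 _)
            (CovZ.leaf K2_ok TX_l1778 _)))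
          (CovZ.leaf K2_ok TX_l1779 _))
         (CovZ.n1 (-2132, 7652) (by decide +kernel)
          (CovZ.n2 (-2132, 7648) (by decide +kernel)
           (CovZ.n2 (-2134, 7650) (by decide +kernel)
            (CovZ.leaf K2_ok TX_l1780 _)
            (CovZ.leaf K2_ok TX_l1781 _))
           (CovZ.leaf K2_ok TX_l1782 _))
          (CovZ.n1 (-2136, 7652) (by decide +kernel)
           (CovZ.leaf K2_ok TX_l1783 _)
           (CovZ.n1 (-2134, 7650) (by decide +kernel)
            (CovZ.leaf K2_ok TX_l1784 _)
            (CovZ.leaf K2_ok TX_l1785 _))))))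
       (CovZ.n1 (-2120, 7656) (by decide +kernel)
        (CovZ.n2 (-2120, 7648) (by decide +kernel)
         (CovZ.n2 (-2124, 7652) (by decide +kernel)
          (CovZ.n2 (-2120, 7652) (by decide +kernel)
           (CovZ.n2 (-2122, 7650) (by decide +kernel)
            (CovZ.leaf K2_ok TX_l1786 _)
            (CovZ.n1 (-2120, 7650) (by decide +kernel)
             (CovZ.leaf K2_ok TX_l1787 _)
             (CovZ.leaf K2_ok TX_l1788 _)))
           (CovZ.n1 (-2122, 7654) (by decide +kernel)
            (CovZ.n2 (-2120, 7654) (by decide +kernel)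
             (CovZ.leaf K2_ok TX_l1789 _)
             (CovZ.n1 (-2121, 7655) (by decide +kernel)
              (CovZ.leaf K2_ok TX_l1790 _)
              (CovZ.leaf K2_ok TX_l1791 _)))
            (CovZ.leaf K2_ok TX_l1792 _)))
          (CovZ.n1 (-2124, 7648) (by decide +kernel)
           (CovZ.n2 (-2126, 7650) (by decide +kernel)
            (CovZ.n2 (-2124, 7650) (by decide +kernel)
             (CovZ.leaf K2_ok TX_l1793 _)
             (CovZ.leaf K2_ok TX_l1794 _))
            (CovZ.leaf K2_ok TX_l1795 _))
           (CovZ.n1 (-2122, 7650) (by decide +kernel)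
            (CovZ.leaf K2_ok TX_l1796 _)
            (CovZ.n1 (-2124, 7650) (by decide +kernel)
             (CovZ.leaf K2_ok TX_l1797 _)
             (CovZ.leaf K2_ok TX_l1798 _)))))
         (CovZ.n1 (-2116, 7652) (by decide +kernel)
          (CovZ.n2 (-2116, 7648) (by decide +kernel)
           (CovZ.n2 (-2118, 7650) (by decide +kernel)
            (CovZ.n2 (-2116, 7650) (by decide +kernel)
             (CovZ.leaf K2_ok TX_l1799 _)
             (CovZ.n1 (-2117, 7651) (by decide +kernel)
              (CovZ.leaf K2_ok TX_l1800 _)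
              (CovZ.leaf K2_ok TX_l1801 _)))
            (CovZ.leaf K2_ok TX_l1802 _))
           (CovZ.n1 (-2114, 7650) (by decide +kernel)
            (CovZ.leaf K2_ok TX_l1803 _)
            (CovZ.n1 (-2116, 7650) (by decide +kernel)
             (CovZ.leaf K2_ok TX_l1804 _)
             (CovZ.n1 (-2115, 7649) (by decide +kernel)
              (CovZ.leaf K2_ok TX_l1805 _)
              (CovZ.leaf K2_ok TX_l1806 _)))))
          (CovZ.n1 (-2120, 7652) (by decide +kernel)
           (CovZ.n2 (-2118, 7654) (by decide +kernel)
            (CovZ.n2 (-2118, 7652) (by decide +kernel)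
             (CovZ.leaf K2_ok TX_l1807 _)
             (CovZ.leaf K2_ok TX_l1808 _))
            (CovZ.n1 (-2120, 7654) (by decide +kernel)
             (CovZ.leaf K2_ok TX_l1809 _)
             (CovZ.n1 (-2119, 7653) (by decide +kernel)
              (CovZ.leaf K2_ok TX_l1810 _)
              (CovZ.leaf K2_ok TX_l1811 _))))
           (CovZ.n1 (-2118, 7650) (by decide +kernel)
            (CovZ.n2 (-2120, 7650) (by decide +kernel)
             (CovZ.leaf K2_ok TX_l1812 _)
             (CovZ.leaf K2_ok TX_l1813 _))
            (CovZ.n1 (-2118, 7652) (by decide +kernel)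
             (CovZ.leaf K2_ok TX_l1814 _)
             (CovZ.leaf K2_ok TX_l1815 _))))))
        (CovZ.n1 (-2128, 7656) (by decide +kernel)
         (CovZ.n2 (-2124, 7660) (by decide +kernel)
          (CovZ.n2 (-2124, 7656) (by decide +kernel)
           (CovZ.n2 (-2126, 7658) (by decide +kernel)
            (CovZ.n2 (-2124, 7658) (by decide +kernel)
             (CovZ.n2 (-2125, 7657) (by decide +kernel)
              (CovZ.leaf K2_ok TX_l1816 _)
              (CovZ.n1 (-2124, 7657) (by decide +kernel)
               (CovZ.leaf K2_ok TX_l1817 _)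
               (CovZ.leaf K2_ok TX_l1818 _)))
             (CovZ.n1 (-2125, 7659) (by decide +kernel)
              (CovZ.badM (by decide +kernel))
              (CovZ.leaf K2_ok TX_l1819 _)))
            (CovZ.n1 (-2126, 7656) (by decide +kernel)
             (CovZ.leaf K2_ok TX_l1820 _)
             (CovZ.n1 (-2125, 7657) (by decide +kernel)
              (CovZ.leaf K2_ok TX_l1821 _)
              (CovZ.leaf K2_ok TX_l1822 _))))
           (CovZ.n1 (-2122, 7658) (by decide +kernel)
            (CovZ.n2 (-2122, 7656) (by decide +kernel)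
             (CovZ.n2 (-2123, 7657) (by decide +kernel)
              (CovZ.leaf K2_ok TX_l1823 _)
              (CovZ.leaf K2_ok TX_l1824 _))
             (CovZ.leaf K2_ok TX_l1825 _))
            (CovZ.n1 (-2124, 7658) (by decide +kernel)
             (CovZ.badM (by decide +kernel))
             (CovZ.n1 (-2123, 7657) (by decide +kernel)
              (CovZ.n2 (-2124, 7657) (by decide +kernel)
               (CovZ.leaf K2_ok TX_l1826 _)
               (CovZ.leaf K2_ok TX_l1827 _))
              (CovZ.badM (by decide +kernel))))))
          (CovZ.n1 (-2128, 7660) (by decide +kernel)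
           (CovZ.badM (by decide +kernel))
           (CovZ.n1 (-2126, 7658) (by decide +kernel)
            (CovZ.n2 (-2128, 7658) (by decide +kernel)
             (CovZ.leaf K2_ok TX_l1828 _)
             (CovZ.leaf K2_ok TX_l1829 _))
            (CovZ.n1 (-2126, 7660) (by decide +kernel)
             (CovZ.n2 (-2125, 7659) (by decide +kernel)
              (CovZ.n2 (-2126, 7659) (by decide +kernel)
               (CovZ.badM (by decide +kernel))
               (CovZ.leaf K2_ok TX_l1830 _))
              (CovZ.badM (by decide +kernel)))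
             (CovZ.n1 (-2127, 7659) (by decide +kernel)
              (CovZ.badM (by decide +kernel))
              (CovZ.n1 (-2126, 7659) (by decide +kernel)
               (CovZ.leaf K2_ok TX_l1831 _)
               (CovZ.badM (by decide +kernel))))))))
         (CovZ.n1 (-2124, 7652) (by decide +kernel)
          (CovZ.n2 (-2128, 7652) (by decide +kernel)
           (CovZ.n2 (-2126, 7654) (by decide +kernel)
            (CovZ.leaf K2_ok TX_l1832 _)
            (CovZ.n1 (-2128, 7654) (by decide +kernel)
             (CovZ.leaf K2_ok TX_l1833 _)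
             (CovZ.leaf K2_ok TX_l1834 _)))
           (CovZ.n1 (-2126, 7650) (by decide +kernel)
            (CovZ.leaf K2_ok TX_l1835 _)
            (CovZ.leaf K2_ok TX_l1836 _)))
          (CovZ.n1 (-2124, 7656) (by decide +kernel)
           (CovZ.n2 (-2122, 7654) (by decide +kernel)
            (CovZ.n2 (-2124, 7654) (by decide +kernel)
             (CovZ.leaf K2_ok TX_l1837 _)
             (CovZ.leaf K2_ok TX_l1838 _))
            (CovZ.leaf K2_ok TX_l1839 _))
           (CovZ.n1 (-2126, 7654) (by decide +kernel)
            (CovZ.leaf K2_ok TX_l1840 _)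
            (CovZ.n1 (-2124, 7654) (by decide +kernel)
             (CovZ.leaf K2_ok TX_l1841 _)
             (CovZ.leaf K2_ok TX_l1842 _)))))))))

theorem TX_u14 : CovZ TX_M (toL (selN TX_LN 3)) [0, 7, 4, 3] (-2176, 7680) (-2160, 7664) (-2144, 7680) :=
    (CovZ.n2 (-2160, 7680) (by decide +kernel)
       (CovZ.n2 (-2152, 7672) (by decide +kernel)
        (CovZ.n2 (-2160, 7672) (by decide +kernel)
         (CovZ.n2 (-2156, 7676) (by decide +kernel)
          (CovZ.n2 (-2156, 7672) (by decide +kernel)
           (CovZ.n2 (-2158, 7674) (by decide +kernel)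
            (CovZ.n2 (-2156, 7674) (by decide +kernel)
             (CovZ.n2 (-2157, 7673) (by decide +kernel)
              (CovZ.leaf K2_ok TX_l2042 _)
              (CovZ.leaf K2_ok TX_l2043 _))
             (CovZ.badM (by decide +kernel)))
            (CovZ.n1 (-2158, 7672) (by decide +kernel)
             (CovZ.leaf K2_ok TX_l2044 _)
             (CovZ.n1 (-2157, 7673) (by decide +kernel)
              (CovZ.leaf K2_ok TX_l2045 _)
              (CovZ.leaf K2_ok TX_l2046 _))))
           (CovZ.n1 (-2154, 7674) (by decide +kernel)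
            (CovZ.n2 (-2154, 7672) (by decide +kernel)
             (CovZ.leaf K2_ok TX_l2047 _)
             (CovZ.leaf K2_ok TX_l2048 _))
            (CovZ.n1 (-2156, 7674) (by decide +kernel)
             (CovZ.badM (by decide +kernel))
             (CovZ.leaf K2_ok TX_l2049 _))))
          (CovZ.n1 (-2160, 7676) (by decide +kernel)
           (CovZ.badM (by decide +kernel))
           (CovZ.n1 (-2158, 7674) (by decide +kernel)
            (CovZ.n2 (-2160, 7674) (by decide +kernel)
             (CovZ.badM (by decide +kernel))
             (CovZ.n1 (-2159, 7673) (by decide +kernel)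
              (CovZ.leaf K2_ok TX_l2050 _)
              (CovZ.leaf K2_ok TX_l2051 _)))
            (CovZ.badM (by decide +kernel)))))
         (CovZ.n1 (-2156, 7668) (by decide +kernel)
          (CovZ.n2 (-2160, 7668) (by decide +kernel)
           (CovZ.n2 (-2158, 7670) (by decide +kernel)
            (CovZ.n2 (-2158, 7668) (by decide +kernel)
             (CovZ.leaf K2_ok TX_l2052 _)
             (CovZ.leaf K2_ok TX_l2053 _))
            (CovZ.leaf K2_ok TX_l2054 _))
           (CovZ.n1 (-2158, 7666) (by decide +kernel)
            (CovZ.n2 (-2160, 7666) (by decide +kernel)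
             (CovZ.leaf K2_ok TX_l2055 _)
             (CovZ.leaf K2_ok TX_l2056 _))
            (CovZ.leaf K2_ok TX_l2057 _)))
          (CovZ.n1 (-2156, 7672) (by decide +kernel)
           (CovZ.n2 (-2154, 7670) (by decide +kernel)
            (CovZ.n2 (-2156, 7670) (by decide +kernel)
             (CovZ.leaf K2_ok TX_l2058 _)
             (CovZ.leaf K2_ok TX_l2059 _))
            (CovZ.leaf K2_ok TX_l2060 _))
           (CovZ.n1 (-2158, 7670) (by decide +kernel)
            (CovZ.leaf K2_ok TX_l2061 _)
            (CovZ.n1 (-2156, 7670) (by decide +kernel)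
             (CovZ.leaf K2_ok TX_l2062 _)
             (CovZ.leaf K2_ok TX_l2063 _))))))
        (CovZ.badM (by decide +kernel)))
       (CovZ.n1 (-2168, 7672) (by decide +kernel)
        (CovZ.n2 (-2168, 7680) (by decide +kernel)
         (CovZ.n2 (-2164, 7676) (by decide +kernel)
          (CovZ.n2 (-2168, 7676) (by decide +kernel)
           (CovZ.badM (by decide +kernel))
           (CovZ.n1 (-2166, 7674) (by decide +kernel)
            (CovZ.n2 (-2168, 7674) (by decide +kernel)
             (CovZ.leaf K2_ok TX_l2066 _)
             (CovZ.leaf K2_ok TX_l2067 _))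
            (CovZ.leaf K2_ok TX_l2068 _)))
          (CovZ.badM (by decide +kernel)))
         (CovZ.n1 (-2172, 7676) (by decide +kernel)
          (CovZ.badM (by decide +kernel))
          (CovZ.n1 (-2168, 7676) (by decide +kernel)
           (CovZ.n2 (-2170, 7674) (by decide +kernel)
            (CovZ.leaf K2_ok TX_l2069 _)
            (CovZ.n1 (-2168, 7674) (by decide +kernel)
             (CovZ.leaf K2_ok TX_l2070 _)
             (CovZ.leaf K2_ok TX_l2071 _)))
           (CovZ.badM (by decide +kernel)))))
        (CovZ.n1 (-2160, 7672) (by decide +kernel)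
         (CovZ.n2 (-2164, 7668) (by decide +kernel)
          (CovZ.n2 (-2164, 7672) (by decide +kernel)
           (CovZ.n2 (-2162, 7670) (by decide +kernel)
            (CovZ.n2 (-2164, 7670) (by decide +kernel)
             (CovZ.leaf K2_ok TX_l2072 _)
             (CovZ.leaf K2_ok TX_l2073 _))
            (CovZ.leaf K2_ok TX_l2074 _))
           (CovZ.n1 (-2166, 7670) (by decide +kernel)
            (CovZ.leaf K2_ok TX_l2075 _)
            (CovZ.leaf K2_ok TX_l2076 _)))
          (CovZ.n1 (-2160, 7668) (by decide +kernel)
           (CovZ.leaf K2_ok TX_l2077 _)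
           (CovZ.n1 (-2162, 7670) (by decide +kernel)
            (CovZ.n2 (-2160, 7670) (by decide +kernel)
             (CovZ.leaf K2_ok TX_l2078 _)
             (CovZ.leaf K2_ok TX_l2079 _))
            (CovZ.n1 (-2162, 7668) (by decide +kernel)
             (CovZ.leaf K2_ok TX_l2080 _)
             (CovZ.leaf K2_ok TX_l2081 _)))))
         (CovZ.n1 (-2164, 7676) (by decide +kernel)
          (CovZ.n2 (-2160, 7676) (by decide +kernel)
           (CovZ.n2 (-2162, 7674) (by decide +kernel)
            (CovZ.n2 (-2162, 7676) (by decide +kernel)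
             (CovZ.n2 (-2161, 7675) (by decide +kernel)
              (CovZ.leaf K2_ok TX_l2082 _)
              (CovZ.badM (by decide +kernel)))
             (CovZ.leaf K2_ok TX_l2083 _))
            (CovZ.n1 (-2160, 7674) (by decide +kernel)
             (CovZ.leaf K2_ok TX_l2084 _)
             (CovZ.n1 (-2161, 7675) (by decide +kernel)
              (CovZ.badM (by decide +kernel))
              (CovZ.leaf K2_ok TX_l2085 _))))
           (CovZ.badM (by decide +kernel)))
          (CovZ.n1 (-2164, 7672) (by decide +kernel)
           (CovZ.n2 (-2166, 7674) (by decide +kernel)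
            (CovZ.n2 (-2164, 7674) (by decide +kernel)
             (CovZ.leaf K2_ok TX_l2086 _)
             (CovZ.leaf K2_ok TX_l2087 _))
            (CovZ.leaf K2_ok TX_l2088 _))
           (CovZ.n1 (-2162, 7674) (by decide +kernel)
            (CovZ.leaf K2_ok TX_l2089 _)
            (CovZ.n1 (-2164, 7674) (by decide +kernel)
             (CovZ.leaf K2_ok TX_l2090 _)
             (CovZ.leaf K2_ok TX_l2091 _))))))))

end Pool.Agent.TET
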