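import Pool.Agent.Helper38_TET.TX_M
import Pool.Agent.Helper38_TET.TX_L
import Pool.Agent.Helper38_TET.TX_0
import Pool.Agent.Helper38_TET.TX_1
import Pool.Agent.Helper38_TET.TX_2
import Pool.Agent.Helper38_TET.TX_3
import Pool.Agent.Helper38_TET.TX_5
import Pool.Agent.Helper38_TET.TX_6
import Pool.Agent.Helper38_TET.TX_7
import Pool.Agent.Helper38_TET.TX_9
import Pool.Agent.Helper38_TET.TX_10
import Pool.Agent.Helper38_TET.TX_14
import Pool.Agent.Helper38_TET.TX_15
import Pool.Agent.Helper38_TET.TX_19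
import Pool.Agent.Helper38_TET.TX_20
import Pool.Agent.Helper38_TET.TX_23
import Pool.Agent.Helper38_TET.TX_24
import Pool.Agent.Helper38_TET.TX_25
import Pool.Agent.Helper38_TET.TX_U0

/-!
# MP_c7c9bf_co: certificates, family TX
-/

set_option autoImplicit false
set_option maxRecDepth 100000

namespace Pool.Agent.TET

theorem TX_s0_0 : SqZ TX_M TX_L [0, 7, 4, 3] (-2304) 7424 64 0 0 :=
  SqZ.mk (a := (-2304)) (b := (-2240)) (c := 7424) (d := 7488) (by norm_num) (by norm_num) (by norm_num) (by norm_num)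
    (CovZ.topM TX_LL 2 (by decide +kernel) (CovZ.n2 (-2272, 7456) (by decide +kernel)
    (CovZ.n2 (-2240, 7456) (by decide +kernel)
     (CovZ.badM (by decide +kernel))
     (CovZ.n1 (-2256, 7472) (by decide +kernel)
      (CovZ.n2 (-2240, 7472) (by decide +kernel)
       (CovZ.n2 (-2248, 7464) (by decide +kernel)
        (CovZ.n2 (-2248, 7472) (by decide +kernel)
         (CovZ.n2 (-2244, 7468) (by decide +kernel)
          (CovZ.leaf K2_ok TX_l128 _)
          (CovZ.leaf K2_ok TX_l129 _))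
         (CovZ.n1 (-2252, 7468) (by decide +kernel)
          (CovZ.leaf K2_ok TX_l130 _)
          (CovZ.leaf K2_ok TX_l131 _)))
        (CovZ.n1 (-2240, 7464) (by decide +kernel)
         (CovZ.n2 (-2244, 7460) (by decide +kernel)
          (CovZ.leaf K2_ok TX_l132 _)
          (CovZ.leaf K2_ok TX_l133 _))
         (CovZ.leaf K2_ok TX_l134 _)))
       (CovZ.n1 (-2248, 7480) (by decide +kernel)
        (CovZ.n2 (-2240, 7480) (by decide +kernel)
         (CovZ.leaf K2_ok TX_l135 _)
         (CovZ.n1 (-2244, 7484) (by decide +kernel)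
          (CovZ.leaf K2_ok TX_l136 _)
          (CovZ.leaf K2_ok TX_l137 _)))
        (CovZ.n1 (-2248, 7472) (by decide +kernel)
         (CovZ.n2 (-2252, 7476) (by decide +kernel)
          (CovZ.leaf K2_ok TX_l138 _)
          (CovZ.leaf K2_ok TX_l139 _))
         (CovZ.leaf K2_ok TX_l140 _))))
      (CovZ.n1 (-2256, 7456) (by decide +kernel)
       (CovZ.n2 (-2264, 7464) (by decide +kernel)
        (CovZ.n2 (-2256, 7464) (by decide +kernel)
         (CovZ.n2 (-2260, 7460) (by decide +kernel)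
          (CovZ.leaf K2_ok TX_l141 _)
          (CovZ.n1 (-2256, 7460) (by decide +kernel)
           (CovZ.badM (by decide +kernel))
           (CovZ.leaf K2_ok TX_l143 _)))
         (CovZ.n1 (-2260, 7468) (by decide +kernel)
          (CovZ.leaf K2_ok TX_l144 _)
          (CovZ.n1 (-2260, 7464) (by decide +kernel)
           (CovZ.leaf K2_ok TX_l145 _)
           (CovZ.leaf K2_ok TX_l146 _))))
        (CovZ.n1 (-2264, 7456) (by decide +kernel)
         (CovZ.n2 (-2268, 7460) (by decide +kernel)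
          (CovZ.n2 (-2264, 7460) (by decide +kernel)
           (CovZ.badM (by decide +kernel))
           (CovZ.leaf K2_ok TX_l148 _))
          (CovZ.badM (by decide +kernel)))
         (CovZ.n1 (-2260, 7460) (by decide +kernel)
          (CovZ.badM (by decide +kernel))
          (CovZ.n1 (-2264, 7460) (by decide +kernel)
           (CovZ.leaf K2_ok TX_l155 _)
           (CovZ.badM (by decide +kernel))))))
       (CovZ.n1 (-2248, 7464) (by decide +kernel)
        (CovZ.n2 (-2248, 7456) (by decide +kernel)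
         (CovZ.n2 (-2252, 7460) (by decide +kernel)
          (CovZ.n2 (-2248, 7460) (by decide +kernel)
           (CovZ.badM (by decide +kernel))
           (CovZ.leaf K2_ok TX_l158 _))
          (CovZ.badM (by decide +kernel)))
         (CovZ.n1 (-2244, 7460) (by decide +kernel)
          (CovZ.leaf K2_ok TX_l161 _)
          (CovZ.n1 (-2248, 7460) (by decide +kernel)
           (CovZ.leaf K2_ok TX_l162 _)
           (CovZ.leaf K2_ok TX_l163 _))))
        (CovZ.n1 (-2256, 7464) (by decide +kernel)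
         (CovZ.n2 (-2252, 7468) (by decide +kernel)
          (CovZ.leaf K2_ok TX_l164 _)
          (CovZ.n1 (-2256, 7468) (by decide +kernel)
           (CovZ.leaf K2_ok TX_l165 _)
           (CovZ.leaf K2_ok TX_l166 _)))
         (CovZ.n1 (-2252, 7460) (by decide +kernel)
          (CovZ.n2 (-2256, 7460) (by decide +kernel)
           (CovZ.leaf K2_ok TX_l167 _)
           (CovZ.badM (by decide +kernel)))
          (CovZ.leaf K2_ok TX_l169 _)))))))
    (CovZ.badM (by decide +kernel))))
    (CovZ.topM TX_LL 2 (by decide +kernel) (CovZ.n0 (-2272, 7456) (by decide +kernel)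
    TX_u0
    TX_u1))

theorem TX_s1_0 : SqZ TX_M TX_L [0, 7, 4, 3] (-2304) 7424 64 1 0 :=
  SqZ.mk (a := (-2240)) (b := (-2176)) (c := 7424) (d := 7488) (by norm_num) (by norm_num) (by norm_num) (by norm_num)
    (CovZ.topM TX_LL 3 (by decide +kernel) (CovZ.n2 (-2208, 7456) (by decide +kernel)
    (CovZ.n2 (-2176, 7456) (by decide +kernel)
     (CovZ.n2 (-2192, 7440) (by decide +kernel)
      (CovZ.n2 (-2192, 7456) (by decide +kernel)
       (CovZ.n2 (-2184, 7448) (by decide +kernel)
        (CovZ.n2 (-2192, 7448) (by decide +kernel)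
         (CovZ.n2 (-2188, 7452) (by decide +kernel)
          (CovZ.badM (by decide +kernel))
          (CovZ.leaf K2_ok TX_l757 _))
         (CovZ.badM (by decide +kernel)))
        (CovZ.n1 (-2184, 7456) (by decide +kernel)
         (CovZ.leaf K2_ok TX_l760 _)
         (CovZ.leaf K2_ok TX_l761 _)))
       (CovZ.n1 (-2200, 7448) (by decide +kernel)
        (CovZ.n2 (-2200, 7456) (by decide +kernel)
         (CovZ.leaf K2_ok TX_l762 _)
         (CovZ.leaf K2_ok TX_l763 _))
        (CovZ.n1 (-2192, 7448) (by decide +kernel)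
         (CovZ.badM (by decide +kernel))
         (CovZ.leaf K2_ok TX_l766 _))))
      (CovZ.n1 (-2176, 7440) (by decide +kernel)
       (CovZ.badM (by decide +kernel))
       (CovZ.n1 (-2184, 7448) (by decide +kernel)
        (CovZ.n2 (-2176, 7448) (by decide +kernel)
         (CovZ.badM (by decide +kernel))
         (CovZ.leaf K2_ok TX_l772 _))
        (CovZ.badM (by decide +kernel)))))
     (CovZ.n1 (-2192, 7472) (by decide +kernel)
      (CovZ.n2 (-2176, 7472) (by decide +kernel)
       (CovZ.n2 (-2184, 7464) (by decide +kernel)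
        (CovZ.n2 (-2184, 7472) (by decide +kernel)
         (CovZ.leaf K2_ok TX_l775 _)
         (CovZ.leaf K2_ok TX_l776 _))
        (CovZ.n1 (-2176, 7464) (by decide +kernel)
         (CovZ.leaf K2_ok TX_l777 _)
         (CovZ.leaf K2_ok TX_l778 _)))
       (CovZ.n1 (-2184, 7480) (by decide +kernel)
        (CovZ.n2 (-2176, 7480) (by decide +kernel)
         (CovZ.leaf K2_ok TX_l779 _)
         (CovZ.leaf K2_ok TX_l780 _))
        (CovZ.leaf K2_ok TX_l781 _)))
      (CovZ.n1 (-2192, 7456) (by decide +kernel)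
       (CovZ.n2 (-2200, 7464) (by decide +kernel)
        (CovZ.n2 (-2192, 7464) (by decide +kernel)
         (CovZ.leaf K2_ok TX_l782 _)
         (CovZ.leaf K2_ok TX_l783 _))
        (CovZ.n1 (-2200, 7456) (by decide +kernel)
         (CovZ.leaf K2_ok TX_l784 _)
         (CovZ.leaf K2_ok TX_l785 _)))
       (CovZ.n1 (-2184, 7464) (by decide +kernel)
        (CovZ.n2 (-2184, 7456) (by decide +kernel)
         (CovZ.leaf K2_ok TX_l786 _)
         (CovZ.leaf K2_ok TX_l787 _))
        (CovZ.n1 (-2192, 7464) (by decide +kernel)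
         (CovZ.leaf K2_ok TX_l788 _)
         (CovZ.leaf K2_ok TX_l789 _))))))
    (CovZ.n1 (-2208, 7424) (by decide +kernel)
     (CovZ.n2 (-2224, 7440) (by decide +kernel)
      (CovZ.n2 (-2208, 7440) (by decide +kernel)
       (CovZ.badM (by decide +kernel))
       (CovZ.n1 (-2216, 7448) (by decide +kernel)
        (CovZ.n2 (-2208, 7448) (by decide +kernel)
         (CovZ.badM (by decide +kernel))
         (CovZ.n1 (-2212, 7452) (by decide +kernel)
          (CovZ.leaf K2_ok TX_l807 _)
          (CovZ.badM (by decide +kernel))))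
        (CovZ.badM (by decide +kernel))))
      (CovZ.badM (by decide +kernel)))
     (CovZ.n1 (-2192, 7440) (by decide +kernel)
      (CovZ.badM (by decide +kernel))
      (CovZ.n1 (-2208, 7440) (by decide +kernel)
       (CovZ.n2 (-2200, 7448) (by decide +kernel)
        (CovZ.badM (by decide +kernel))
        (CovZ.n1 (-2208, 7448) (by decide +kernel)
         (CovZ.leaf K2_ok TX_l906 _)
         (CovZ.badM (by decide +kernel))))
       (CovZ.badM (by decide +kernel)))))))
    (CovZ.topM TX_LL 3 (by decide +kernel) (CovZ.n0 (-2208, 7456) (by decide +kernel)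
    (CovZ.n2 (-2240, 7456) (by decide +kernel)
     (CovZ.n2 (-2224, 7472) (by decide +kernel)
      (CovZ.n2 (-2224, 7456) (by decide +kernel)
       (CovZ.n2 (-2232, 7464) (by decide +kernel)
        (CovZ.n2 (-2224, 7464) (by decide +kernel)
         (CovZ.leaf K2_ok TX_l921 _)
         (CovZ.n1 (-2228, 7468) (by decide +kernel)
          (CovZ.leaf K2_ok TX_l922 _)
          (CovZ.leaf K2_ok TX_l923 _)))
        (CovZ.n1 (-2232, 7456) (by decide +kernel)
         (CovZ.n2 (-2236, 7460) (by decide +kernel)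
          (CovZ.leaf K2_ok TX_l924 _)
          (CovZ.leaf K2_ok TX_l925 _))
         (CovZ.leaf K2_ok TX_l926 _)))
       (CovZ.n1 (-2216, 7464) (by decide +kernel)
        (CovZ.n2 (-2216, 7456) (by decide +kernel)
         (CovZ.n2 (-2220, 7460) (by decide +kernel)
          (CovZ.leaf K2_ok TX_l927 _)
          (CovZ.leaf K2_ok TX_l928 _))
         (CovZ.n1 (-2212, 7460) (by decide +kernel)
          (CovZ.leaf K2_ok TX_l929 _)
          (CovZ.leaf K2_ok TX_l930 _)))
        (CovZ.n1 (-2224, 7464) (by decide +kernel)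
         (CovZ.leaf K2_ok TX_l931 _)
         (CovZ.leaf K2_ok TX_l932 _))))
      (CovZ.n1 (-2240, 7472) (by decide +kernel)
       (CovZ.n2 (-2232, 7480) (by decide +kernel)
        (CovZ.n2 (-2232, 7472) (by decide +kernel)
         (CovZ.leaf K2_ok TX_l933 _)
         (CovZ.n1 (-2228, 7476) (by decide +kernel)
          (CovZ.leaf K2_ok TX_l934 _)
          (CovZ.leaf K2_ok TX_l935 _)))
        (CovZ.n1 (-2240, 7480) (by decide +kernel)
         (CovZ.leaf K2_ok TX_l936 _)
         (CovZ.leaf K2_ok TX_l937 _)))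
       (CovZ.n1 (-2232, 7464) (by decide +kernel)
        (CovZ.n2 (-2240, 7464) (by decide +kernel)
         (CovZ.n2 (-2236, 7468) (by decide +kernel)
          (CovZ.leaf K2_ok TX_l938 _)
          (CovZ.leaf K2_ok TX_l939 _))
         (CovZ.n1 (-2236, 7460) (by decide +kernel)
          (CovZ.n2 (-2240, 7460) (by decide +kernel)
           (CovZ.leaf K2_ok TX_l940 _)
           (CovZ.leaf K2_ok TX_l941 _))
          (CovZ.leaf K2_ok TX_l942 _)))
        (CovZ.n1 (-2232, 7472) (by decide +kernel)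
         (CovZ.leaf K2_ok TX_l943 _)
         (CovZ.leaf K2_ok TX_l944 _)))))
     (CovZ.n1 (-2224, 7440) (by decide +kernel)
      (CovZ.badM (by decide +kernel))
      (CovZ.n1 (-2224, 7456) (by decide +kernel)
       (CovZ.n2 (-2216, 7448) (by decide +kernel)
        (CovZ.badM (by decide +kernel))
        (CovZ.n1 (-2216, 7456) (by decide +kernel)
         (CovZ.n2 (-2212, 7452) (by decide +kernel)
          (CovZ.badM (by decide +kernel))
          (CovZ.leaf K2_ok TX_l1001 _))
         (CovZ.badM (by decide +kernel))))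
       (CovZ.badM (by decide +kernel)))))
    (CovZ.n1 (-2208, 7488) (by decide +kernel)
     (CovZ.n2 (-2192, 7472) (by decide +kernel)
      (CovZ.n2 (-2208, 7472) (by decide +kernel)
       (CovZ.n2 (-2200, 7480) (by decide +kernel)
        (CovZ.n2 (-2200, 7472) (by decide +kernel)
         (CovZ.leaf K2_ok TX_l1014 _)
         (CovZ.leaf K2_ok TX_l1015 _))
        (CovZ.n1 (-2208, 7480) (by decide +kernel)
         (CovZ.leaf K2_ok TX_l1016 _)
         (CovZ.leaf K2_ok TX_l1017 _)))
       (CovZ.n1 (-2200, 7464) (by decide +kernel)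
        (CovZ.n2 (-2208, 7464) (by decide +kernel)
         (CovZ.leaf K2_ok TX_l1018 _)
         (CovZ.leaf K2_ok TX_l1019 _))
        (CovZ.n1 (-2200, 7472) (by decide +kernel)
         (CovZ.leaf K2_ok TX_l1020 _)
         (CovZ.leaf K2_ok TX_l1021 _))))
      (CovZ.n1 (-2192, 7488) (by decide +kernel)
       (CovZ.n2 (-2184, 7480) (by decide +kernel)
        (CovZ.n2 (-2192, 7480) (by decide +kernel)
         (CovZ.leaf K2_ok TX_l1022 _)
         (CovZ.leaf K2_ok TX_l1023 _))
        (CovZ.n1 (-2184, 7488) (by decide +kernel)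
         (CovZ.leaf K2_ok TX_l1024 _)
         (CovZ.leaf K2_ok TX_l1025 _)))
       (CovZ.n1 (-2200, 7480) (by decide +kernel)
        (CovZ.n2 (-2200, 7488) (by decide +kernel)
         (CovZ.leaf K2_ok TX_l1026 _)
         (CovZ.leaf K2_ok TX_l1027 _))
        (CovZ.n1 (-2192, 7480) (by decide +kernel)
         (CovZ.leaf K2_ok TX_l1028 _)
         (CovZ.leaf K2_ok TX_l1029 _)))))
     (CovZ.n1 (-2224, 7472) (by decide +kernel)
      (CovZ.n2 (-2224, 7488) (by decide +kernel)
       (CovZ.n2 (-2216, 7480) (by decide +kernel)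
        (CovZ.n2 (-2224, 7480) (by decide +kernel)
         (CovZ.leaf K2_ok TX_l1030 _)
         (CovZ.leaf K2_ok TX_l1031 _))
        (CovZ.n1 (-2216, 7488) (by decide +kernel)
         (CovZ.leaf K2_ok TX_l1032 _)
         (CovZ.leaf K2_ok TX_l1033 _)))
       (CovZ.n1 (-2232, 7480) (by decide +kernel)
        (CovZ.n2 (-2232, 7488) (by decide +kernel)
         (CovZ.leaf K2_ok TX_l1034 _)
         (CovZ.leaf K2_ok TX_l1035 _))
        (CovZ.n1 (-2224, 7480) (by decide +kernel)
         (CovZ.leaf K2_ok TX_l1036 _)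
         (CovZ.leaf K2_ok TX_l1037 _))))
      (CovZ.n1 (-2208, 7472) (by decide +kernel)
       (CovZ.n2 (-2216, 7464) (by decide +kernel)
        (CovZ.n2 (-2216, 7472) (by decide +kernel)
         (CovZ.leaf K2_ok TX_l1038 _)
         (CovZ.leaf K2_ok TX_l1039 _))
        (CovZ.n1 (-2208, 7464) (by decide +kernel)
         (CovZ.leaf K2_ok TX_l1040 _)
         (CovZ.leaf K2_ok TX_l1041 _)))
       (CovZ.n1 (-2216, 7480) (by decide +kernel)
        (CovZ.n2 (-2208, 7480) (by decide +kernel)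
         (CovZ.leaf K2_ok TX_l1042 _)
         (CovZ.leaf K2_ok TX_l1043 _))
        (CovZ.n1 (-2216, 7472) (by decide +kernel)
         (CovZ.leaf K2_ok TX_l1044 _)
         (CovZ.leaf K2_ok TX_l1045 _))))))))

theorem TX_s2_0 : SqZ TX_M TX_L [0, 7, 4, 3] (-2304) 7424 64 2 0 :=
  SqZ.mk (a := (-2176)) (b := (-2112)) (c := 7424) (d := 7488) (by norm_num) (by norm_num) (by norm_num) (by norm_num)
    (CovZ.topM TX_LL 3 (by decide +kernel) (CovZ.n2 (-2144, 7456) (by decide +kernel)
    (CovZ.n2 (-2112, 7456) (by decide +kernel)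
     (CovZ.n2 (-2128, 7440) (by decide +kernel)
      (CovZ.n2 (-2128, 7456) (by decide +kernel)
       (CovZ.n2 (-2120, 7448) (by decide +kernel)
        (CovZ.n2 (-2128, 7448) (by decide +kernel)
         (CovZ.leaf K2_ok TX_l1381 _)
         (CovZ.leaf K2_ok TX_l1382 _))
        (CovZ.leaf K2_ok TX_l1383 _))
       (CovZ.n1 (-2136, 7448) (by decide +kernel)
        (CovZ.n2 (-2136, 7456) (by decide +kernel)
         (CovZ.leaf K2_ok TX_l1384 _)
         (CovZ.leaf K2_ok TX_l1385 _))
        (CovZ.n1 (-2128, 7448) (by decide +kernel)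
         (CovZ.leaf K2_ok TX_l1386 _)
         (CovZ.leaf K2_ok TX_l1387 _))))
      (CovZ.n1 (-2112, 7440) (by decide +kernel)
       (CovZ.n2 (-2120, 7432) (by decide +kernel)
        (CovZ.n2 (-2120, 7440) (by decide +kernel)
         (CovZ.leaf K2_ok TX_l1388 _)
         (CovZ.leaf K2_ok TX_l1389 _))
        (CovZ.n1 (-2112, 7432) (by decide +kernel)
         (CovZ.leaf K2_ok TX_l1390 _)
         (CovZ.leaf K2_ok TX_l1391 _)))
       (CovZ.n1 (-2120, 7448) (by decide +kernel)
        (CovZ.n2 (-2112, 7448) (by decide +kernel)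
         (CovZ.leaf K2_ok TX_l1392 _)
         (CovZ.leaf K2_ok TX_l1393 _))
        (CovZ.leaf K2_ok TX_l1394 _))))
     (CovZ.n1 (-2128, 7472) (by decide +kernel)
      (CovZ.n2 (-2112, 7472) (by decide +kernel)
       (CovZ.n2 (-2120, 7464) (by decide +kernel)
        (CovZ.leaf K2_ok TX_l1395 _)
        (CovZ.n1 (-2112, 7464) (by decide +kernel)
         (CovZ.leaf K2_ok TX_l1396 _)
         (CovZ.leaf K2_ok TX_l1397 _)))
       (CovZ.n1 (-2120, 7480) (by decide +kernel)
        (CovZ.n2 (-2112, 7480) (by decide +kernel)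
         (CovZ.leaf K2_ok TX_l1398 _)
         (CovZ.leaf K2_ok TX_l1399 _))
        (CovZ.leaf K2_ok TX_l1400 _)))
      (CovZ.n1 (-2128, 7456) (by decide +kernel)
       (CovZ.n2 (-2136, 7464) (by decide +kernel)
        (CovZ.n2 (-2128, 7464) (by decide +kernel)
         (CovZ.leaf K2_ok TX_l1401 _)
         (CovZ.leaf K2_ok TX_l1402 _))
        (CovZ.leaf K2_ok TX_l1403 _))
       (CovZ.n1 (-2120, 7464) (by decide +kernel)
        (CovZ.leaf K2_ok TX_l1404 _)
        (CovZ.n1 (-2128, 7464) (by decide +kernel)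
         (CovZ.leaf K2_ok TX_l1405 _)
         (CovZ.leaf K2_ok TX_l1406 _))))))
    (CovZ.n1 (-2144, 7424) (by decide +kernel)
     (CovZ.n2 (-2160, 7440) (by decide +kernel)
      (CovZ.n2 (-2144, 7440) (by decide +kernel)
       (CovZ.badM (by decide +kernel))
       (CovZ.n1 (-2152, 7448) (by decide +kernel)
        (CovZ.n2 (-2144, 7448) (by decide +kernel)
         (CovZ.leaf K2_ok TX_l1412 _)
         (CovZ.leaf K2_ok TX_l1413 _))
        (CovZ.badM (by decide +kernel))))
      (CovZ.badM (by decide +kernel)))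
     (CovZ.n1 (-2128, 7440) (by decide +kernel)
      (CovZ.n2 (-2128, 7424) (by decide +kernel)
       (CovZ.n2 (-2136, 7432) (by decide +kernel)
        (CovZ.n2 (-2128, 7432) (by decide +kernel)
         (CovZ.badM (by decide +kernel))
         (CovZ.n1 (-2132, 7436) (by decide +kernel)
          (CovZ.leaf K2_ok TX_l1426 _)
          (CovZ.badM (by decide +kernel))))
        (CovZ.badM (by decide +kernel)))
       (CovZ.n1 (-2120, 7432) (by decide +kernel)
        (CovZ.leaf K2_ok TX_l1431 _)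
        (CovZ.n1 (-2128, 7432) (by decide +kernel)
         (CovZ.leaf K2_ok TX_l1432 _)
         (CovZ.leaf K2_ok TX_l1433 _))))
      (CovZ.n1 (-2144, 7440) (by decide +kernel)
       (CovZ.n2 (-2136, 7448) (by decide +kernel)
        (CovZ.leaf K2_ok TX_l1434 _)
        (CovZ.n1 (-2144, 7448) (by decide +kernel)
         (CovZ.leaf K2_ok TX_l1435 _)
         (CovZ.n1 (-2140, 7444) (by decide +kernel)
          (CovZ.leaf K2_ok TX_l1436 _)
          (CovZ.leaf K2_ok TX_l1437 _))))
       (CovZ.n1 (-2136, 7432) (by decide +kernel)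
        (CovZ.badM (by decide +kernel))
        (CovZ.n1 (-2136, 7440) (by decide +kernel)
         (CovZ.leaf K2_ok TX_l1440 _)
         (CovZ.badM (by decide +kernel)))))))))
    (CovZ.topM TX_LL 3 (by decide +kernel) (CovZ.n0 (-2144, 7456) (by decide +kernel)
    (CovZ.n2 (-2176, 7456) (by decide +kernel)
     (CovZ.n2 (-2160, 7472) (by decide +kernel)
      (CovZ.n2 (-2160, 7456) (by decide +kernel)
       (CovZ.n2 (-2168, 7464) (by decide +kernel)
        (CovZ.n2 (-2160, 7464) (by decide +kernel)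
         (CovZ.leaf K2_ok TX_l1442 _)
         (CovZ.n1 (-2164, 7468) (by decide +kernel)
          (CovZ.leaf K2_ok TX_l1443 _)
          (CovZ.leaf K2_ok TX_l1444 _)))
        (CovZ.n1 (-2168, 7456) (by decide +kernel)
         (CovZ.n2 (-2172, 7460) (by decide +kernel)
          (CovZ.leaf K2_ok TX_l1445 _)
          (CovZ.leaf K2_ok TX_l1446 _))
         (CovZ.leaf K2_ok TX_l1447 _)))
       (CovZ.n1 (-2152, 7464) (by decide +kernel)
        (CovZ.leaf K2_ok TX_l1448 _)
        (CovZ.n1 (-2160, 7464) (by decide +kernel)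
         (CovZ.leaf K2_ok TX_l1449 _)
         (CovZ.leaf K2_ok TX_l1450 _))))
      (CovZ.n1 (-2176, 7472) (by decide +kernel)
       (CovZ.n2 (-2168, 7480) (by decide +kernel)
        (CovZ.leaf K2_ok TX_l1451 _)
        (CovZ.n1 (-2176, 7480) (by decide +kernel)
         (CovZ.leaf K2_ok TX_l1452 _)
         (CovZ.leaf K2_ok TX_l1453 _)))
       (CovZ.n1 (-2168, 7464) (by decide +kernel)
        (CovZ.n2 (-2176, 7464) (by decide +kernel)
         (CovZ.leaf K2_ok TX_l1454 _)
         (CovZ.leaf K2_ok TX_l1455 _))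
        (CovZ.n1 (-2168, 7472) (by decide +kernel)
         (CovZ.leaf K2_ok TX_l1456 _)
         (CovZ.leaf K2_ok TX_l1457 _)))))
     (CovZ.n1 (-2160, 7440) (by decide +kernel)
      (CovZ.n2 (-2176, 7440) (by decide +kernel)
       (CovZ.n2 (-2168, 7448) (by decide +kernel)
        (CovZ.badM (by decide +kernel))
        (CovZ.n1 (-2176, 7448) (by decide +kernel)
         (CovZ.leaf K2_ok TX_l1460 _)
         (CovZ.badM (by decide +kernel))))
       (CovZ.badM (by decide +kernel)))
      (CovZ.n1 (-2160, 7456) (by decide +kernel)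
       (CovZ.n2 (-2152, 7448) (by decide +kernel)
        (CovZ.n2 (-2160, 7448) (by decide +kernel)
         (CovZ.leaf K2_ok TX_l1469 _)
         (CovZ.badM (by decide +kernel)))
        (CovZ.n1 (-2152, 7456) (by decide +kernel)
         (CovZ.leaf K2_ok TX_l1471 _)
         (CovZ.leaf K2_ok TX_l1472 _)))
       (CovZ.n1 (-2168, 7448) (by decide +kernel)
        (CovZ.n2 (-2168, 7456) (by decide +kernel)
         (CovZ.leaf K2_ok TX_l1473 _)
         (CovZ.leaf K2_ok TX_l1474 _))
        (CovZ.n1 (-2160, 7448) (by decide +kernel)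
         (CovZ.badM (by decide +kernel))
         (CovZ.leaf K2_ok TX_l1476 _))))))
    (CovZ.n1 (-2144, 7488) (by decide +kernel)
     (CovZ.n2 (-2128, 7472) (by decide +kernel)
      (CovZ.n2 (-2144, 7472) (by decide +kernel)
       (CovZ.n2 (-2136, 7480) (by decide +kernel)
        (CovZ.leaf K2_ok TX_l1477 _)
        (CovZ.n1 (-2144, 7480) (by decide +kernel)
         (CovZ.leaf K2_ok TX_l1478 _)
         (CovZ.leaf K2_ok TX_l1479 _)))
       (CovZ.n1 (-2136, 7464) (by decide +kernel)
        (CovZ.n2 (-2144, 7464) (by decide +kernel)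
         (CovZ.leaf K2_ok TX_l1480 _)
         (CovZ.leaf K2_ok TX_l1481 _))
        (CovZ.n1 (-2136, 7472) (by decide +kernel)
         (CovZ.leaf K2_ok TX_l1482 _)
         (CovZ.leaf K2_ok TX_l1483 _))))
      (CovZ.n1 (-2128, 7488) (by decide +kernel)
       (CovZ.n2 (-2120, 7480) (by decide +kernel)
        (CovZ.n2 (-2128, 7480) (by decide +kernel)
         (CovZ.leaf K2_ok TX_l1484 _)
         (CovZ.leaf K2_ok TX_l1485 _))
        (CovZ.leaf K2_ok TX_l1486 _))
       (CovZ.n1 (-2136, 7480) (by decide +kernel)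
        (CovZ.leaf K2_ok TX_l1487 _)
        (CovZ.n1 (-2128, 7480) (by decide +kernel)
         (CovZ.leaf K2_ok TX_l1488 _)
         (CovZ.leaf K2_ok TX_l1489 _)))))
     (CovZ.n1 (-2160, 7472) (by decide +kernel)
      (CovZ.n2 (-2160, 7488) (by decide +kernel)
       (CovZ.n2 (-2152, 7480) (by decide +kernel)
        (CovZ.n2 (-2160, 7480) (by decide +kernel)
         (CovZ.leaf K2_ok TX_l1490 _)
         (CovZ.leaf K2_ok TX_l1491 _))
        (CovZ.leaf K2_ok TX_l1492 _))
       (CovZ.n1 (-2168, 7480) (by decide +kernel)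
        (CovZ.n2 (-2168, 7488) (by decide +kernel)
         (CovZ.leaf K2_ok TX_l1493 _)
         (CovZ.leaf K2_ok TX_l1494 _))
        (CovZ.n1 (-2160, 7480) (by decide +kernel)
         (CovZ.leaf K2_ok TX_l1495 _)
         (CovZ.leaf K2_ok TX_l1496 _))))
      (CovZ.n1 (-2144, 7472) (by decide +kernel)
       (CovZ.n2 (-2152, 7464) (by decide +kernel)
        (CovZ.n2 (-2152, 7472) (by decide +kernel)
         (CovZ.leaf K2_ok TX_l1497 _)
         (CovZ.leaf K2_ok TX_l1498 _))
        (CovZ.n1 (-2144, 7464) (by decide +kernel)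
         (CovZ.leaf K2_ok TX_l1499 _)
         (CovZ.leaf K2_ok TX_l1500 _)))
       (CovZ.n1 (-2152, 7480) (by decide +kernel)
        (CovZ.n2 (-2144, 7480) (by decide +kernel)
         (CovZ.leaf K2_ok TX_l1501 _)
         (CovZ.leaf K2_ok TX_l1502 _))
        (CovZ.leaf K2_ok TX_l1503 _)))))))

theorem TX_s3_0 : SqZ TX_M TX_L [0, 7, 4, 3] (-2304) 7424 64 3 0 :=
  SqZ.mk (a := (-2112)) (b := (-2048)) (c := 7424) (d := 7488) (by norm_num) (by norm_num) (by norm_num) (by norm_num)
    (CovZ.topM TX_LL 3 (by decide +kernel) (CovZ.n2 (-2080, 7456) (by decide +kernel)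
    (CovZ.n2 (-2048, 7456) (by decide +kernel)
     (CovZ.n2 (-2064, 7440) (by decide +kernel)
      (CovZ.n2 (-2064, 7456) (by decide +kernel)
       (CovZ.n2 (-2056, 7448) (by decide +kernel)
        (CovZ.n2 (-2064, 7448) (by decide +kernel)
         (CovZ.leaf K2_ok TX_l2170 _)
         (CovZ.leaf K2_ok TX_l2171 _))
        (CovZ.leaf K2_ok TX_l2172 _))
       (CovZ.n1 (-2072, 7448) (by decide +kernel)
        (CovZ.leaf K2_ok TX_l2173 _)
        (CovZ.n1 (-2064, 7448) (by decide +kernel)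
         (CovZ.leaf K2_ok TX_l2174 _)
         (CovZ.leaf K2_ok TX_l2175 _))))
      (CovZ.n1 (-2048, 7440) (by decide +kernel)
       (CovZ.n2 (-2056, 7432) (by decide +kernel)
        (CovZ.leaf K2_ok TX_l2176 _)
        (CovZ.n1 (-2048, 7432) (by decide +kernel)
         (CovZ.badM (by decide +kernel))
         (CovZ.leaf K2_ok TX_l2178 _)))
       (CovZ.n1 (-2056, 7448) (by decide +kernel)
        (CovZ.n2 (-2048, 7448) (by decide +kernel)
         (CovZ.leaf K2_ok TX_l2179 _)
         (CovZ.leaf K2_ok TX_l2180 _))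
        (CovZ.leaf K2_ok TX_l2181 _))))
     (CovZ.n1 (-2064, 7472) (by decide +kernel)
      (CovZ.n2 (-2048, 7472) (by decide +kernel)
       (CovZ.n2 (-2056, 7464) (by decide +kernel)
        (CovZ.leaf K2_ok TX_l2182 _)
        (CovZ.n1 (-2048, 7464) (by decide +kernel)
         (CovZ.leaf K2_ok TX_l2183 _)
         (CovZ.leaf K2_ok TX_l2184 _)))
       (CovZ.n1 (-2056, 7480) (by decide +kernel)
        (CovZ.n2 (-2048, 7480) (by decide +kernel)
         (CovZ.leaf K2_ok TX_l2185 _)
         (CovZ.leaf K2_ok TX_l2186 _))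
        (CovZ.leaf K2_ok TX_l2187 _)))
      (CovZ.n1 (-2064, 7456) (by decide +kernel)
       (CovZ.n2 (-2072, 7464) (by decide +kernel)
        (CovZ.n2 (-2064, 7464) (by decide +kernel)
         (CovZ.leaf K2_ok TX_l2188 _)
         (CovZ.leaf K2_ok TX_l2189 _))
        (CovZ.leaf K2_ok TX_l2190 _))
       (CovZ.n1 (-2056, 7464) (by decide +kernel)
        (CovZ.leaf K2_ok TX_l2191 _)
        (CovZ.n1 (-2064, 7464) (by decide +kernel)
         (CovZ.leaf K2_ok TX_l2192 _)
         (CovZ.leaf K2_ok TX_l2193 _))))))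
    (CovZ.n1 (-2080, 7424) (by decide +kernel)
     (CovZ.n2 (-2096, 7440) (by decide +kernel)
      (CovZ.n2 (-2080, 7440) (by decide +kernel)
       (CovZ.n2 (-2088, 7432) (by decide +kernel)
        (CovZ.leaf K2_ok TX_l2194 _)
        (CovZ.badM (by decide +kernel)))
       (CovZ.n1 (-2088, 7448) (by decide +kernel)
        (CovZ.n2 (-2080, 7448) (by decide +kernel)
         (CovZ.leaf K2_ok TX_l2197 _)
         (CovZ.leaf K2_ok TX_l2198 _))
        (CovZ.leaf K2_ok TX_l2199 _)))
      (CovZ.n1 (-2096, 7424) (by decide +kernel)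
       (CovZ.n2 (-2104, 7432) (by decide +kernel)
        (CovZ.n2 (-2096, 7432) (by decide +kernel)
         (CovZ.leaf K2_ok TX_l2200 _)
         (CovZ.leaf K2_ok TX_l2201 _))
        (CovZ.n1 (-2104, 7424) (by decide +kernel)
         (CovZ.leaf K2_ok TX_l2202 _)
         (CovZ.leaf K2_ok TX_l2203 _)))
       (CovZ.n1 (-2088, 7432) (by decide +kernel)
        (CovZ.badM (by decide +kernel))
        (CovZ.n1 (-2096, 7432) (by decide +kernel)
         (CovZ.leaf K2_ok TX_l2206 _)
         (CovZ.badM (by decide +kernel))))))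
     (CovZ.n1 (-2064, 7440) (by decide +kernel)
      (CovZ.n2 (-2064, 7424) (by decide +kernel)
       (CovZ.n2 (-2072, 7432) (by decide +kernel)
        (CovZ.n2 (-2064, 7432) (by decide +kernel)
         (CovZ.badM (by decide +kernel))
         (CovZ.leaf K2_ok TX_l2209 _))
        (CovZ.badM (by decide +kernel)))
       (CovZ.n1 (-2056, 7432) (by decide +kernel)
        (CovZ.badM (by decide +kernel))
        (CovZ.n1 (-2064, 7432) (by decide +kernel)
         (CovZ.leaf K2_ok TX_l2212 _)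
         (CovZ.badM (by decide +kernel)))))
      (CovZ.n1 (-2080, 7440) (by decide +kernel)
       (CovZ.n2 (-2072, 7448) (by decide +kernel)
        (CovZ.leaf K2_ok TX_l2214 _)
        (CovZ.n1 (-2080, 7448) (by decide +kernel)
         (CovZ.leaf K2_ok TX_l2215 _)
         (CovZ.leaf K2_ok TX_l2216 _)))
       (CovZ.n1 (-2072, 7432) (by decide +kernel)
        (CovZ.badM (by decide +kernel))
        (CovZ.leaf K2_ok TX_l2219 _)))))))
    (CovZ.topM TX_LL 3 (by decide +kernel) (CovZ.n0 (-2080, 7456) (by decide +kernel)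
    (CovZ.n2 (-2112, 7456) (by decide +kernel)
     (CovZ.n2 (-2096, 7472) (by decide +kernel)
      (CovZ.n2 (-2096, 7456) (by decide +kernel)
       (CovZ.n2 (-2104, 7464) (by decide +kernel)
        (CovZ.n2 (-2096, 7464) (by decide +kernel)
         (CovZ.leaf K2_ok TX_l2220 _)
         (CovZ.leaf K2_ok TX_l2221 _))
        (CovZ.leaf K2_ok TX_l2222 _))
       (CovZ.n1 (-2088, 7464) (by decide +kernel)
        (CovZ.leaf K2_ok TX_l2223 _)
        (CovZ.n1 (-2096, 7464) (by decide +kernel)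
         (CovZ.leaf K2_ok TX_l2224 _)
         (CovZ.leaf K2_ok TX_l2225 _))))
      (CovZ.n1 (-2112, 7472) (by decide +kernel)
       (CovZ.n2 (-2104, 7480) (by decide +kernel)
        (CovZ.leaf K2_ok TX_l2226 _)
        (CovZ.n1 (-2112, 7480) (by decide +kernel)
         (CovZ.leaf K2_ok TX_l2227 _)
         (CovZ.leaf K2_ok TX_l2228 _)))
       (CovZ.n1 (-2104, 7464) (by decide +kernel)
        (CovZ.n2 (-2112, 7464) (by decide +kernel)
         (CovZ.leaf K2_ok TX_l2229 _)
         (CovZ.leaf K2_ok TX_l2230 _))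
        (CovZ.leaf K2_ok TX_l2231 _))))
     (CovZ.n1 (-2096, 7440) (by decide +kernel)
      (CovZ.n2 (-2112, 7440) (by decide +kernel)
       (CovZ.n2 (-2104, 7448) (by decide +kernel)
        (CovZ.leaf K2_ok TX_l2232 _)
        (CovZ.n1 (-2112, 7448) (by decide +kernel)
         (CovZ.leaf K2_ok TX_l2233 _)
         (CovZ.leaf K2_ok TX_l2234 _)))
       (CovZ.n1 (-2104, 7432) (by decide +kernel)
        (CovZ.n2 (-2112, 7432) (by decide +kernel)
         (CovZ.leaf K2_ok TX_l2235 _)
         (CovZ.leaf K2_ok TX_l2236 _))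
        (CovZ.n1 (-2104, 7440) (by decide +kernel)
         (CovZ.leaf K2_ok TX_l2237 _)
         (CovZ.leaf K2_ok TX_l2238 _))))
      (CovZ.n1 (-2096, 7456) (by decide +kernel)
       (CovZ.n2 (-2088, 7448) (by decide +kernel)
        (CovZ.n2 (-2096, 7448) (by decide +kernel)
         (CovZ.leaf K2_ok TX_l2239 _)
         (CovZ.leaf K2_ok TX_l2240 _))
        (CovZ.leaf K2_ok TX_l2241 _))
       (CovZ.n1 (-2104, 7448) (by decide +kernel)
        (CovZ.leaf K2_ok TX_l2242 _)
        (CovZ.n1 (-2096, 7448) (by decide +kernel)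
         (CovZ.leaf K2_ok TX_l2243 _)
         (CovZ.leaf K2_ok TX_l2244 _))))))
    (CovZ.n1 (-2080, 7488) (by decide +kernel)
     (CovZ.n2 (-2064, 7472) (by decide +kernel)
      (CovZ.n2 (-2080, 7472) (by decide +kernel)
       (CovZ.n2 (-2072, 7480) (by decide +kernel)
        (CovZ.leaf K2_ok TX_l2245 _)
        (CovZ.n1 (-2080, 7480) (by decide +kernel)
         (CovZ.leaf K2_ok TX_l2246 _)
         (CovZ.leaf K2_ok TX_l2247 _)))
       (CovZ.n1 (-2072, 7464) (by decide +kernel)
        (CovZ.n2 (-2080, 7464) (by decide +kernel)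
         (CovZ.leaf K2_ok TX_l2248 _)
         (CovZ.leaf K2_ok TX_l2249 _))
        (CovZ.leaf K2_ok TX_l2250 _)))
      (CovZ.n1 (-2064, 7488) (by decide +kernel)
       (CovZ.n2 (-2056, 7480) (by decide +kernel)
        (CovZ.n2 (-2064, 7480) (by decide +kernel)
         (CovZ.leaf K2_ok TX_l2251 _)
         (CovZ.leaf K2_ok TX_l2252 _))
        (CovZ.leaf K2_ok TX_l2253 _))
       (CovZ.n1 (-2072, 7480) (by decide +kernel)
        (CovZ.leaf K2_ok TX_l2254 _)
        (CovZ.n1 (-2064, 7480) (by decide +kernel)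
         (CovZ.leaf K2_ok TX_l2255 _)
         (CovZ.leaf K2_ok TX_l2256 _)))))
     (CovZ.n1 (-2096, 7472) (by decide +kernel)
      (CovZ.n2 (-2096, 7488) (by decide +kernel)
       (CovZ.n2 (-2088, 7480) (by decide +kernel)
        (CovZ.n2 (-2096, 7480) (by decide +kernel)
         (CovZ.leaf K2_ok TX_l2257 _)
         (CovZ.leaf K2_ok TX_l2258 _))
        (CovZ.leaf K2_ok TX_l2259 _))
       (CovZ.n1 (-2104, 7480) (by decide +kernel)
        (CovZ.leaf K2_ok TX_l2260 _)
        (CovZ.n1 (-2096, 7480) (by decide +kernel)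
         (CovZ.leaf K2_ok TX_l2261 _)
         (CovZ.leaf K2_ok TX_l2262 _))))
      (CovZ.n1 (-2080, 7472) (by decide +kernel)
       (CovZ.n2 (-2088, 7464) (by decide +kernel)
        (CovZ.leaf K2_ok TX_l2263 _)
        (CovZ.n1 (-2080, 7464) (by decide +kernel)
         (CovZ.leaf K2_ok TX_l2264 _)
         (CovZ.leaf K2_ok TX_l2265 _)))
       (CovZ.n1 (-2088, 7480) (by decide +kernel)
        (CovZ.n2 (-2080, 7480) (by decide +kernel)
         (CovZ.leaf K2_ok TX_l2266 _)
         (CovZ.leaf K2_ok TX_l2267 _))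
        (CovZ.leaf K2_ok TX_l2268 _)))))))

theorem TX_s4_0 : SqZ TX_M TX_L [0, 7, 4, 3] (-2304) 7424 64 4 0 :=
  SqZ.mk (a := (-2048)) (b := (-1984)) (c := 7424) (d := 7488) (by norm_num) (by norm_num) (by norm_num) (by norm_num)
    (CovZ.topM TX_LL 2 (by decide +kernel) (CovZ.n2 (-2016, 7456) (by decide +kernel)
    (CovZ.n2 (-1984, 7456) (by decide +kernel)
     (CovZ.n2 (-2000, 7440) (by decide +kernel)
      (CovZ.n2 (-2000, 7456) (by decide +kernel)
       (CovZ.n2 (-1992, 7448) (by decide +kernel)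
        (CovZ.n2 (-2000, 7448) (by decide +kernel)
         (CovZ.leaf K2_ok TX_l2936 _)
         (CovZ.leaf K2_ok TX_l2937 _))
        (CovZ.leaf K2_ok TX_l2938 _))
       (CovZ.n1 (-2008, 7448) (by decide +kernel)
        (CovZ.leaf K2_ok TX_l2939 _)
        (CovZ.n1 (-2000, 7448) (by decide +kernel)
         (CovZ.leaf K2_ok TX_l2940 _)
         (CovZ.leaf K2_ok TX_l2941 _))))
      (CovZ.n1 (-1984, 7440) (by decide +kernel)
       (CovZ.n2 (-1992, 7432) (by decide +kernel)
        (CovZ.leaf K2_ok TX_l2942 _)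
        (CovZ.n1 (-1984, 7432) (by decide +kernel)
         (CovZ.leaf K2_ok TX_l2943 _)
         (CovZ.leaf K2_ok TX_l2944 _)))
       (CovZ.n1 (-1992, 7448) (by decide +kernel)
        (CovZ.n2 (-1984, 7448) (by decide +kernel)
         (CovZ.leaf K2_ok TX_l2945 _)
         (CovZ.leaf K2_ok TX_l2946 _))
        (CovZ.leaf K2_ok TX_l2947 _))))
     (CovZ.n1 (-2000, 7472) (by decide +kernel)
      (CovZ.n2 (-1984, 7472) (by decide +kernel)
       (CovZ.n2 (-1992, 7464) (by decide +kernel)
        (CovZ.leaf K2_ok TX_l2948 _)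
        (CovZ.n1 (-1984, 7464) (by decide +kernel)
         (CovZ.leaf K2_ok TX_l2949 _)
         (CovZ.leaf K2_ok TX_l2950 _)))
       (CovZ.n1 (-1992, 7480) (by decide +kernel)
        (CovZ.n2 (-1984, 7480) (by decide +kernel)
         (CovZ.leaf K2_ok TX_l2951 _)
         (CovZ.leaf K2_ok TX_l2952 _))
        (CovZ.leaf K2_ok TX_l2953 _)))
      (CovZ.n1 (-2000, 7456) (by decide +kernel)
       (CovZ.n2 (-2008, 7464) (by decide +kernel)
        (CovZ.n2 (-2000, 7464) (by decide +kernel)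
         (CovZ.leaf K2_ok TX_l2954 _)
         (CovZ.leaf K2_ok TX_l2955 _))
        (CovZ.leaf K2_ok TX_l2956 _))
       (CovZ.n1 (-1992, 7464) (by decide +kernel)
        (CovZ.leaf K2_ok TX_l2957 _)
        (CovZ.n1 (-2000, 7464) (by decide +kernel)
         (CovZ.leaf K2_ok TX_l2958 _)
         (CovZ.leaf K2_ok TX_l2959 _))))))
    (CovZ.n1 (-2016, 7424) (by decide +kernel)
     (CovZ.n2 (-2032, 7440) (by decide +kernel)
      (CovZ.n2 (-2016, 7440) (by decide +kernel)
       (CovZ.n2 (-2024, 7432) (by decide +kernel)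
        (CovZ.leaf K2_ok TX_l2960 _)
        (CovZ.n1 (-2016, 7432) (by decide +kernel)
         (CovZ.badM (by decide +kernel))
         (CovZ.leaf K2_ok TX_l2962 _)))
       (CovZ.n1 (-2024, 7448) (by decide +kernel)
        (CovZ.n2 (-2016, 7448) (by decide +kernel)
         (CovZ.leaf K2_ok TX_l2963 _)
         (CovZ.leaf K2_ok TX_l2964 _))
        (CovZ.leaf K2_ok TX_l2965 _)))
      (CovZ.n1 (-2032, 7424) (by decide +kernel)
       (CovZ.n2 (-2040, 7432) (by decide +kernel)
        (CovZ.n2 (-2032, 7432) (by decide +kernel)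
         (CovZ.badM (by decide +kernel))
         (CovZ.leaf K2_ok TX_l2967 _))
        (CovZ.badM (by decide +kernel)))
       (CovZ.n1 (-2024, 7432) (by decide +kernel)
        (CovZ.badM (by decide +kernel))
        (CovZ.n1 (-2032, 7432) (by decide +kernel)
         (CovZ.leaf K2_ok TX_l2971 _)
         (CovZ.badM (by decide +kernel))))))
     (CovZ.n1 (-2000, 7440) (by decide +kernel)
      (CovZ.n2 (-2000, 7424) (by decide +kernel)
       (CovZ.n2 (-2008, 7432) (by decide +kernel)
        (CovZ.n2 (-2000, 7432) (by decide +kernel)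
         (CovZ.badM (by decide +kernel))
         (CovZ.leaf K2_ok TX_l2974 _))
        (CovZ.badM (by decide +kernel)))
       (CovZ.n1 (-1992, 7432) (by decide +kernel)
        (CovZ.badM (by decide +kernel))
        (CovZ.n1 (-2000, 7432) (by decide +kernel)
         (CovZ.leaf K2_ok TX_l2977 _)
         (CovZ.badM (by decide +kernel)))))
      (CovZ.n1 (-2016, 7440) (by decide +kernel)
       (CovZ.n2 (-2008, 7448) (by decide +kernel)
        (CovZ.leaf K2_ok TX_l2979 _)
        (CovZ.n1 (-2016, 7448) (by decide +kernel)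
         (CovZ.leaf K2_ok TX_l2980 _)
         (CovZ.leaf K2_ok TX_l2981 _)))
       (CovZ.n1 (-2008, 7432) (by decide +kernel)
        (CovZ.n2 (-2016, 7432) (by decide +kernel)
         (CovZ.leaf K2_ok TX_l2982 _)
         (CovZ.badM (by decide +kernel)))
        (CovZ.leaf K2_ok TX_l2984 _)))))))
    (CovZ.topM TX_LL 3 (by decide +kernel) (CovZ.n0 (-2016, 7456) (by decide +kernel)
    (CovZ.n2 (-2048, 7456) (by decide +kernel)
     (CovZ.n2 (-2032, 7472) (by decide +kernel)
      (CovZ.n2 (-2032, 7456) (by decide +kernel)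
       (CovZ.n2 (-2040, 7464) (by decide +kernel)
        (CovZ.n2 (-2032, 7464) (by decide +kernel)
         (CovZ.leaf K2_ok TX_l2985 _)
         (CovZ.leaf K2_ok TX_l2986 _))
        (CovZ.leaf K2_ok TX_l2987 _))
       (CovZ.n1 (-2024, 7464) (by decide +kernel)
        (CovZ.leaf K2_ok TX_l2988 _)
        (CovZ.n1 (-2032, 7464) (by decide +kernel)
         (CovZ.leaf K2_ok TX_l2989 _)
         (CovZ.leaf K2_ok TX_l2990 _))))
      (CovZ.n1 (-2048, 7472) (by decide +kernel)
       (CovZ.n2 (-2040, 7480) (by decide +kernel)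
        (CovZ.leaf K2_ok TX_l2991 _)
        (CovZ.n1 (-2048, 7480) (by decide +kernel)
         (CovZ.leaf K2_ok TX_l2992 _)
         (CovZ.leaf K2_ok TX_l2993 _)))
       (CovZ.n1 (-2040, 7464) (by decide +kernel)
        (CovZ.n2 (-2048, 7464) (by decide +kernel)
         (CovZ.leaf K2_ok TX_l2994 _)
         (CovZ.leaf K2_ok TX_l2995 _))
        (CovZ.leaf K2_ok TX_l2996 _))))
     (CovZ.n1 (-2032, 7440) (by decide +kernel)
      (CovZ.n2 (-2048, 7440) (by decide +kernel)
       (CovZ.n2 (-2040, 7448) (by decide +kernel)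
        (CovZ.leaf K2_ok TX_l2997 _)
        (CovZ.n1 (-2048, 7448) (by decide +kernel)
         (CovZ.leaf K2_ok TX_l2998 _)
         (CovZ.leaf K2_ok TX_l2999 _)))
       (CovZ.n1 (-2040, 7432) (by decide +kernel)
        (CovZ.n2 (-2048, 7432) (by decide +kernel)
         (CovZ.leaf K2_ok TX_l3000 _)
         (CovZ.badM (by decide +kernel)))
        (CovZ.leaf K2_ok TX_l3002 _)))
      (CovZ.n1 (-2032, 7456) (by decide +kernel)
       (CovZ.n2 (-2024, 7448) (by decide +kernel)
        (CovZ.n2 (-2032, 7448) (by decide +kernel)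
         (CovZ.leaf K2_ok TX_l3003 _)
         (CovZ.leaf K2_ok TX_l3004 _))
        (CovZ.leaf K2_ok TX_l3005 _))
       (CovZ.n1 (-2040, 7448) (by decide +kernel)
        (CovZ.leaf K2_ok TX_l3006 _)
        (CovZ.n1 (-2032, 7448) (by decide +kernel)
         (CovZ.leaf K2_ok TX_l3007 _)
         (CovZ.leaf K2_ok TX_l3008 _))))))
    (CovZ.n1 (-2016, 7488) (by decide +kernel)
     (CovZ.n2 (-2000, 7472) (by decide +kernel)
      (CovZ.n2 (-2016, 7472) (by decide +kernel)
       (CovZ.n2 (-2008, 7480) (by decide +kernel)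
        (CovZ.leaf K2_ok TX_l3009 _)
        (CovZ.leaf K2_ok TX_l3010 _))
       (CovZ.n1 (-2008, 7464) (by decide +kernel)
        (CovZ.n2 (-2016, 7464) (by decide +kernel)
         (CovZ.leaf K2_ok TX_l3011 _)
         (CovZ.leaf K2_ok TX_l3012 _))
        (CovZ.leaf K2_ok TX_l3013 _)))
      (CovZ.n1 (-2000, 7488) (by decide +kernel)
       (CovZ.n2 (-1992, 7480) (by decide +kernel)
        (CovZ.n2 (-2000, 7480) (by decide +kernel)
         (CovZ.leaf K2_ok TX_l3014 _)
         (CovZ.leaf K2_ok TX_l3015 _))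
        (CovZ.leaf K2_ok TX_l3016 _))
       (CovZ.n1 (-2008, 7480) (by decide +kernel)
        (CovZ.leaf K2_ok TX_l3017 _)
        (CovZ.leaf K2_ok TX_l3018 _))))
     (CovZ.n1 (-2032, 7472) (by decide +kernel)
      (CovZ.n2 (-2032, 7488) (by decide +kernel)
       (CovZ.n2 (-2024, 7480) (by decide +kernel)
        (CovZ.n2 (-2032, 7480) (by decide +kernel)
         (CovZ.leaf K2_ok TX_l3019 _)
         (CovZ.leaf K2_ok TX_l3020 _))
        (CovZ.leaf K2_ok TX_l3021 _))
       (CovZ.n1 (-2040, 7480) (by decide +kernel)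
        (CovZ.leaf K2_ok TX_l3022 _)
        (CovZ.n1 (-2032, 7480) (by decide +kernel)
         (CovZ.leaf K2_ok TX_l3023 _)
         (CovZ.leaf K2_ok TX_l3024 _))))
      (CovZ.n1 (-2016, 7472) (by decide +kernel)
       (CovZ.n2 (-2024, 7464) (by decide +kernel)
        (CovZ.leaf K2_ok TX_l3025 _)
        (CovZ.n1 (-2016, 7464) (by decide +kernel)
         (CovZ.leaf K2_ok TX_l3026 _)
         (CovZ.leaf K2_ok TX_l3027 _)))
       (CovZ.n1 (-2024, 7480) (by decide +kernel)
        (CovZ.n2 (-2016, 7480) (by decide +kernel)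
         (CovZ.leaf K2_ok TX_l3028 _)
         (CovZ.leaf K2_ok TX_l3029 _))
        (CovZ.leaf K2_ok TX_l3030 _)))))))

theorem TX_s5_0 : SqZ TX_M TX_L [0, 7, 4, 3] (-2304) 7424 64 5 0 :=
  SqZ.mk (a := (-1984)) (b := (-1920)) (c := 7424) (d := 7488) (by norm_num) (by norm_num) (by norm_num) (by norm_num)
    (CovZ.topM TX_LL 2 (by decide +kernel) (CovZ.n2 (-1952, 7456) (by decide +kernel)
    (CovZ.n2 (-1920, 7456) (by decide +kernel)
     (CovZ.n2 (-1936, 7440) (by decide +kernel)
      (CovZ.n2 (-1936, 7456) (by decide +kernel)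
       (CovZ.n2 (-1928, 7448) (by decide +kernel)
        (CovZ.leaf K2_ok TX_l3589 _)
        (CovZ.leaf K2_ok TX_l3590 _))
       (CovZ.n1 (-1944, 7448) (by decide +kernel)
        (CovZ.leaf K2_ok TX_l3591 _)
        (CovZ.leaf K2_ok TX_l3592 _)))
      (CovZ.n1 (-1920, 7440) (by decide +kernel)
       (CovZ.n2 (-1928, 7432) (by decide +kernel)
        (CovZ.leaf K2_ok TX_l3593 _)
        (CovZ.leaf K2_ok TX_l3594 _))
       (CovZ.n1 (-1928, 7448) (by decide +kernel)
        (CovZ.leaf K2_ok TX_l3595 _)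
        (CovZ.leaf K2_ok TX_l3596 _))))
     (CovZ.n1 (-1936, 7472) (by decide +kernel)
      (CovZ.n2 (-1920, 7472) (by decide +kernel)
       (CovZ.n2 (-1928, 7464) (by decide +kernel)
        (CovZ.leaf K2_ok TX_l3597 _)
        (CovZ.leaf K2_ok TX_l3598 _))
       (CovZ.n1 (-1928, 7480) (by decide +kernel)
        (CovZ.leaf K2_ok TX_l3599 _)
        (CovZ.leaf K2_ok TX_l3600 _)))
      (CovZ.n1 (-1936, 7456) (by decide +kernel)
       (CovZ.n2 (-1944, 7464) (by decide +kernel)
        (CovZ.leaf K2_ok TX_l3601 _)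
        (CovZ.leaf K2_ok TX_l3602 _))
       (CovZ.n1 (-1928, 7464) (by decide +kernel)
        (CovZ.leaf K2_ok TX_l3603 _)
        (CovZ.leaf K2_ok TX_l3604 _)))))
    (CovZ.n1 (-1952, 7424) (by decide +kernel)
     (CovZ.n2 (-1968, 7440) (by decide +kernel)
      (CovZ.n2 (-1952, 7440) (by decide +kernel)
       (CovZ.n2 (-1960, 7432) (by decide +kernel)
        (CovZ.leaf K2_ok TX_l3605 _)
        (CovZ.n1 (-1952, 7432) (by decide +kernel)
         (CovZ.leaf K2_ok TX_l3606 _)
         (CovZ.leaf K2_ok TX_l3607 _)))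
       (CovZ.n1 (-1960, 7448) (by decide +kernel)
        (CovZ.n2 (-1952, 7448) (by decide +kernel)
         (CovZ.leaf K2_ok TX_l3608 _)
         (CovZ.leaf K2_ok TX_l3609 _))
        (CovZ.leaf K2_ok TX_l3610 _)))
      (CovZ.n1 (-1968, 7424) (by decide +kernel)
       (CovZ.n2 (-1976, 7432) (by decide +kernel)
        (CovZ.n2 (-1968, 7432) (by decide +kernel)
         (CovZ.leaf K2_ok TX_l3611 _)
         (CovZ.leaf K2_ok TX_l3612 _))
        (CovZ.leaf K2_ok TX_l3613 _))
       (CovZ.n1 (-1960, 7432) (by decide +kernel)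
        (CovZ.leaf K2_ok TX_l3614 _)
        (CovZ.n1 (-1968, 7432) (by decide +kernel)
         (CovZ.leaf K2_ok TX_l3615 _)
         (CovZ.leaf K2_ok TX_l3616 _)))))
     (CovZ.n1 (-1936, 7440) (by decide +kernel)
      (CovZ.n2 (-1936, 7424) (by decide +kernel)
       (CovZ.n2 (-1944, 7432) (by decide +kernel)
        (CovZ.n2 (-1936, 7432) (by decide +kernel)
         (CovZ.leaf K2_ok TX_l3617 _)
         (CovZ.leaf K2_ok TX_l3618 _))
        (CovZ.leaf K2_ok TX_l3619 _))
       (CovZ.n1 (-1928, 7432) (by decide +kernel)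
        (CovZ.leaf K2_ok TX_l3620 _)
        (CovZ.n1 (-1936, 7432) (by decide +kernel)
         (CovZ.leaf K2_ok TX_l3621 _)
         (CovZ.leaf K2_ok TX_l3622 _))))
      (CovZ.n1 (-1952, 7440) (by decide +kernel)
       (CovZ.n2 (-1944, 7448) (by decide +kernel)
        (CovZ.leaf K2_ok TX_l3623 _)
        (CovZ.leaf K2_ok TX_l3624 _))
       (CovZ.n1 (-1944, 7432) (by decide +kernel)
        (CovZ.n2 (-1952, 7432) (by decide +kernel)
         (CovZ.leaf K2_ok TX_l3625 _)
         (CovZ.leaf K2_ok TX_l3626 _))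
        (CovZ.leaf K2_ok TX_l3627 _)))))))
    (CovZ.topM TX_LL 2 (by decide +kernel) (CovZ.n0 (-1952, 7456) (by decide +kernel)
    (CovZ.n2 (-1984, 7456) (by decide +kernel)
     (CovZ.n2 (-1968, 7472) (by decide +kernel)
      (CovZ.n2 (-1968, 7456) (by decide +kernel)
       (CovZ.n2 (-1976, 7464) (by decide +kernel)
        (CovZ.leaf K2_ok TX_l3628 _)
        (CovZ.leaf K2_ok TX_l3629 _))
       (CovZ.n1 (-1960, 7464) (by decide +kernel)
        (CovZ.leaf K2_ok TX_l3630 _)
        (CovZ.n1 (-1968, 7464) (by decide +kernel)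
         (CovZ.leaf K2_ok TX_l3631 _)
         (CovZ.leaf K2_ok TX_l3632 _))))
      (CovZ.n1 (-1984, 7472) (by decide +kernel)
       (CovZ.n2 (-1976, 7480) (by decide +kernel)
        (CovZ.leaf K2_ok TX_l3633 _)
        (CovZ.leaf K2_ok TX_l3634 _))
       (CovZ.n1 (-1976, 7464) (by decide +kernel)
        (CovZ.n2 (-1984, 7464) (by decide +kernel)
         (CovZ.leaf K2_ok TX_l3635 _)
         (CovZ.leaf K2_ok TX_l3636 _))
        (CovZ.leaf K2_ok TX_l3637 _))))
     (CovZ.n1 (-1968, 7440) (by decide +kernel)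
      (CovZ.n2 (-1984, 7440) (by decide +kernel)
       (CovZ.n2 (-1976, 7448) (by decide +kernel)
        (CovZ.leaf K2_ok TX_l3638 _)
        (CovZ.n1 (-1984, 7448) (by decide +kernel)
         (CovZ.leaf K2_ok TX_l3639 _)
         (CovZ.leaf K2_ok TX_l3640 _)))
       (CovZ.n1 (-1976, 7432) (by decide +kernel)
        (CovZ.n2 (-1984, 7432) (by decide +kernel)
         (CovZ.leaf K2_ok TX_l3641 _)
         (CovZ.leaf K2_ok TX_l3642 _))
        (CovZ.leaf K2_ok TX_l3643 _)))
      (CovZ.n1 (-1968, 7456) (by decide +kernel)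
       (CovZ.n2 (-1960, 7448) (by decide +kernel)
        (CovZ.n2 (-1968, 7448) (by decide +kernel)
         (CovZ.leaf K2_ok TX_l3644 _)
         (CovZ.leaf K2_ok TX_l3645 _))
        (CovZ.leaf K2_ok TX_l3646 _))
       (CovZ.n1 (-1976, 7448) (by decide +kernel)
        (CovZ.leaf K2_ok TX_l3647 _)
        (CovZ.n1 (-1968, 7448) (by decide +kernel)
         (CovZ.leaf K2_ok TX_l3648 _)
         (CovZ.leaf K2_ok TX_l3649 _))))))
    (CovZ.n1 (-1952, 7488) (by decide +kernel)
     (CovZ.n2 (-1936, 7472) (by decide +kernel)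
      (CovZ.n2 (-1952, 7472) (by decide +kernel)
       (CovZ.n2 (-1944, 7480) (by decide +kernel)
        (CovZ.leaf K2_ok TX_l3650 _)
        (CovZ.leaf K2_ok TX_l3651 _))
       (CovZ.n1 (-1944, 7464) (by decide +kernel)
        (CovZ.leaf K2_ok TX_l3652 _)
        (CovZ.leaf K2_ok TX_l3653 _)))
      (CovZ.n1 (-1936, 7488) (by decide +kernel)
       (CovZ.n2 (-1928, 7480) (by decide +kernel)
        (CovZ.leaf K2_ok TX_l3654 _)
        (CovZ.leaf K2_ok TX_l3655 _))
       (CovZ.leaf K2_ok TX_l3656 _)))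
     (CovZ.n1 (-1968, 7472) (by decide +kernel)
      (CovZ.n2 (-1968, 7488) (by decide +kernel)
       (CovZ.n2 (-1960, 7480) (by decide +kernel)
        (CovZ.leaf K2_ok TX_l3657 _)
        (CovZ.leaf K2_ok TX_l3658 _))
       (CovZ.n1 (-1976, 7480) (by decide +kernel)
        (CovZ.leaf K2_ok TX_l3659 _)
        (CovZ.leaf K2_ok TX_l3660 _)))
      (CovZ.n1 (-1952, 7472) (by decide +kernel)
       (CovZ.n2 (-1960, 7464) (by decide +kernel)
        (CovZ.leaf K2_ok TX_l3661 _)
        (CovZ.n1 (-1952, 7464) (by decide +kernel)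
         (CovZ.leaf K2_ok TX_l3662 _)
         (CovZ.leaf K2_ok TX_l3663 _)))
       (CovZ.n1 (-1960, 7480) (by decide +kernel)
        (CovZ.leaf K2_ok TX_l3664 _)
        (CovZ.leaf K2_ok TX_l3665 _)))))))

theorem TX_s0_1 : SqZ TX_M TX_L [0, 7, 4, 3] (-2304) 7424 64 0 1 :=
  SqZ.mk (a := (-2304)) (b := (-2240)) (c := 7488) (d := 7552) (by norm_num) (by norm_num) (by norm_num) (by norm_num)
    (CovZ.topM TX_LL 3 (by decide +kernel) (CovZ.n2 (-2272, 7520) (by decide +kernel)
    (CovZ.n2 (-2240, 7520) (by decide +kernel)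
     (CovZ.n2 (-2256, 7504) (by decide +kernel)
      (CovZ.n2 (-2256, 7520) (by decide +kernel)
       (CovZ.n2 (-2248, 7512) (by decide +kernel)
        (CovZ.n2 (-2256, 7512) (by decide +kernel)
         (CovZ.leaf K2_ok TX_l435 _)
         (CovZ.leaf K2_ok TX_l436 _))
        (CovZ.leaf K2_ok TX_l437 _))
       (CovZ.n1 (-2264, 7512) (by decide +kernel)
        (CovZ.n2 (-2264, 7520) (by decide +kernel)
         (CovZ.leaf K2_ok TX_l438 _)
         (CovZ.leaf K2_ok TX_l439 _))
        (CovZ.n1 (-2256, 7512) (by decide +kernel)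
         (CovZ.leaf K2_ok TX_l440 _)
         (CovZ.leaf K2_ok TX_l441 _))))
      (CovZ.n1 (-2240, 7504) (by decide +kernel)
       (CovZ.n2 (-2248, 7496) (by decide +kernel)
        (CovZ.n2 (-2248, 7504) (by decide +kernel)
         (CovZ.leaf K2_ok TX_l442 _)
         (CovZ.leaf K2_ok TX_l443 _))
        (CovZ.n1 (-2240, 7496) (by decide +kernel)
         (CovZ.leaf K2_ok TX_l444 _)
         (CovZ.leaf K2_ok TX_l445 _)))
       (CovZ.n1 (-2248, 7512) (by decide +kernel)
        (CovZ.n2 (-2240, 7512) (by decide +kernel)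
         (CovZ.leaf K2_ok TX_l446 _)
         (CovZ.leaf K2_ok TX_l447 _))
        (CovZ.n1 (-2248, 7504) (by decide +kernel)
         (CovZ.leaf K2_ok TX_l448 _)
         (CovZ.leaf K2_ok TX_l449 _)))))
     (CovZ.n1 (-2256, 7536) (by decide +kernel)
      (CovZ.n2 (-2240, 7536) (by decide +kernel)
       (CovZ.n2 (-2248, 7528) (by decide +kernel)
        (CovZ.leaf K2_ok TX_l450 _)
        (CovZ.n1 (-2240, 7528) (by decide +kernel)
         (CovZ.leaf K2_ok TX_l451 _)
         (CovZ.leaf K2_ok TX_l452 _)))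
       (CovZ.n1 (-2248, 7544) (by decide +kernel)
        (CovZ.n2 (-2240, 7544) (by decide +kernel)
         (CovZ.leaf K2_ok TX_l453 _)
         (CovZ.leaf K2_ok TX_l454 _))
        (CovZ.leaf K2_ok TX_l455 _)))
      (CovZ.n1 (-2256, 7520) (by decide +kernel)
       (CovZ.n2 (-2264, 7528) (by decide +kernel)
        (CovZ.n2 (-2256, 7528) (by decide +kernel)
         (CovZ.leaf K2_ok TX_l456 _)
         (CovZ.leaf K2_ok TX_l457 _))
        (CovZ.n1 (-2264, 7520) (by decide +kernel)
         (CovZ.leaf K2_ok TX_l458 _)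
         (CovZ.leaf K2_ok TX_l459 _)))
       (CovZ.n1 (-2248, 7528) (by decide +kernel)
        (CovZ.leaf K2_ok TX_l460 _)
        (CovZ.n1 (-2256, 7528) (by decide +kernel)
         (CovZ.leaf K2_ok TX_l461 _)
         (CovZ.leaf K2_ok TX_l462 _))))))
    (CovZ.n1 (-2272, 7488) (by decide +kernel)
     (CovZ.n2 (-2288, 7504) (by decide +kernel)
      (CovZ.n2 (-2272, 7504) (by decide +kernel)
       (CovZ.n2 (-2280, 7496) (by decide +kernel)
        (CovZ.n2 (-2280, 7504) (by decide +kernel)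
         (CovZ.leaf K2_ok TX_l463 _)
         (CovZ.leaf K2_ok TX_l464 _))
        (CovZ.n1 (-2272, 7496) (by decide +kernel)
         (CovZ.leaf K2_ok TX_l465 _)
         (CovZ.n1 (-2276, 7500) (by decide +kernel)
          (CovZ.leaf K2_ok TX_l466 _)
          (CovZ.leaf K2_ok TX_l467 _))))
       (CovZ.n1 (-2280, 7512) (by decide +kernel)
        (CovZ.n2 (-2272, 7512) (by decide +kernel)
         (CovZ.leaf K2_ok TX_l468 _)
         (CovZ.leaf K2_ok TX_l469 _))
        (CovZ.n1 (-2280, 7504) (by decide +kernel)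
         (CovZ.leaf K2_ok TX_l470 _)
         (CovZ.leaf K2_ok TX_l471 _))))
      (CovZ.n1 (-2288, 7488) (by decide +kernel)
       (CovZ.n2 (-2296, 7496) (by decide +kernel)
        (CovZ.n2 (-2288, 7496) (by decide +kernel)
         (CovZ.n2 (-2292, 7492) (by decide +kernel)
          (CovZ.leaf K2_ok TX_l472 _)
          (CovZ.leaf K2_ok TX_l473 _))
         (CovZ.n1 (-2292, 7500) (by decide +kernel)
          (CovZ.leaf K2_ok TX_l474 _)
          (CovZ.leaf K2_ok TX_l475 _)))
        (CovZ.n1 (-2296, 7488) (by decide +kernel)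
         (CovZ.n2 (-2300, 7492) (by decide +kernel)
          (CovZ.leaf K2_ok TX_l476 _)
          (CovZ.leaf K2_ok TX_l477 _))
         (CovZ.leaf K2_ok TX_l478 _)))
       (CovZ.n1 (-2280, 7496) (by decide +kernel)
        (CovZ.n2 (-2280, 7488) (by decide +kernel)
         (CovZ.n2 (-2284, 7492) (by decide +kernel)
          (CovZ.leaf K2_ok TX_l479 _)
          (CovZ.leaf K2_ok TX_l480 _))
         (CovZ.n1 (-2276, 7492) (by decide +kernel)
          (CovZ.leaf K2_ok TX_l481 _)
          (CovZ.leaf K2_ok TX_l482 _)))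
        (CovZ.n1 (-2288, 7496) (by decide +kernel)
         (CovZ.leaf K2_ok TX_l483 _)
         (CovZ.leaf K2_ok TX_l484 _)))))
     (CovZ.n1 (-2256, 7504) (by decide +kernel)
      (CovZ.n2 (-2256, 7488) (by decide +kernel)
       (CovZ.n2 (-2264, 7496) (by decide +kernel)
        (CovZ.n2 (-2256, 7496) (by decide +kernel)
         (CovZ.leaf K2_ok TX_l485 _)
         (CovZ.leaf K2_ok TX_l486 _))
        (CovZ.n1 (-2264, 7488) (by decide +kernel)
         (CovZ.n2 (-2268, 7492) (by decide +kernel)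
          (CovZ.leaf K2_ok TX_l487 _)
          (CovZ.leaf K2_ok TX_l488 _))
         (CovZ.leaf K2_ok TX_l489 _)))
       (CovZ.n1 (-2248, 7496) (by decide +kernel)
        (CovZ.n2 (-2248, 7488) (by decide +kernel)
         (CovZ.leaf K2_ok TX_l490 _)
         (CovZ.leaf K2_ok TX_l491 _))
        (CovZ.n1 (-2256, 7496) (by decide +kernel)
         (CovZ.leaf K2_ok TX_l492 _)
         (CovZ.leaf K2_ok TX_l493 _))))
      (CovZ.n1 (-2272, 7504) (by decide +kernel)
       (CovZ.n2 (-2264, 7512) (by decide +kernel)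
        (CovZ.n2 (-2264, 7504) (by decide +kernel)
         (CovZ.n2 (-2268, 7508) (by decide +kernel)
          (CovZ.leaf K2_ok TX_l494 _)
          (CovZ.leaf K2_ok TX_l495 _))
         (CovZ.leaf K2_ok TX_l496 _))
        (CovZ.n1 (-2272, 7512) (by decide +kernel)
         (CovZ.leaf K2_ok TX_l497 _)
         (CovZ.leaf K2_ok TX_l498 _)))
       (CovZ.n1 (-2264, 7496) (by decide +kernel)
        (CovZ.n2 (-2272, 7496) (by decide +kernel)
         (CovZ.n2 (-2268, 7500) (by decide +kernel)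
          (CovZ.leaf K2_ok TX_l499 _)
          (CovZ.leaf K2_ok TX_l500 _))
         (CovZ.n1 (-2268, 7492) (by decide +kernel)
          (CovZ.leaf K2_ok TX_l501 _)
          (CovZ.leaf K2_ok TX_l502 _)))
        (CovZ.n1 (-2264, 7504) (by decide +kernel)
         (CovZ.leaf K2_ok TX_l503 _)
         (CovZ.leaf K2_ok TX_l504 _))))))))
    (CovZ.topM TX_LL 3 (by decide +kernel) (CovZ.n0 (-2272, 7520) (by decide +kernel)
    (CovZ.n2 (-2304, 7520) (by decide +kernel)
     (CovZ.n2 (-2288, 7536) (by decide +kernel)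
      (CovZ.n2 (-2288, 7520) (by decide +kernel)
       (CovZ.n2 (-2296, 7528) (by decide +kernel)
        (CovZ.n2 (-2288, 7528) (by decide +kernel)
         (CovZ.leaf K2_ok TX_l505 _)
         (CovZ.leaf K2_ok TX_l506 _))
        (CovZ.n1 (-2296, 7520) (by decide +kernel)
         (CovZ.leaf K2_ok TX_l507 _)
         (CovZ.leaf K2_ok TX_l508 _)))
       (CovZ.n1 (-2280, 7528) (by decide +kernel)
        (CovZ.leaf K2_ok TX_l509 _)
        (CovZ.n1 (-2288, 7528) (by decide +kernel)
         (CovZ.leaf K2_ok TX_l510 _)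
         (CovZ.leaf K2_ok TX_l511 _))))
      (CovZ.n1 (-2304, 7536) (by decide +kernel)
       (CovZ.n2 (-2296, 7544) (by decide +kernel)
        (CovZ.n2 (-2296, 7536) (by decide +kernel)
         (CovZ.leaf K2_ok TX_l512 _)
         (CovZ.leaf K2_ok TX_l513 _))
        (CovZ.n1 (-2304, 7544) (by decide +kernel)
         (CovZ.leaf K2_ok TX_l514 _)
         (CovZ.leaf K2_ok TX_l515 _)))
       (CovZ.n1 (-2296, 7528) (by decide +kernel)
        (CovZ.n2 (-2304, 7528) (by decide +kernel)
         (CovZ.n2 (-2300, 7532) (by decide +kernel)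
          (CovZ.leaf K2_ok TX_l516 _)
          (CovZ.leaf K2_ok TX_l517 _))
         (CovZ.leaf K2_ok TX_l518 _))
        (CovZ.leaf K2_ok TX_l519 _))))
     (CovZ.n1 (-2288, 7504) (by decide +kernel)
      (CovZ.n2 (-2304, 7504) (by decide +kernel)
       (CovZ.n2 (-2296, 7512) (by decide +kernel)
        (CovZ.n2 (-2296, 7504) (by decide +kernel)
         (CovZ.n2 (-2300, 7508) (by decide +kernel)
          (CovZ.leaf K2_ok TX_l520 _)
          (CovZ.leaf K2_ok TX_l521 _))
         (CovZ.leaf K2_ok TX_l522 _))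
        (CovZ.n1 (-2304, 7512) (by decide +kernel)
         (CovZ.leaf K2_ok TX_l523 _)
         (CovZ.n1 (-2300, 7508) (by decide +kernel)
          (CovZ.leaf K2_ok TX_l524 _)
          (CovZ.leaf K2_ok TX_l525 _))))
       (CovZ.n1 (-2296, 7496) (by decide +kernel)
        (CovZ.n2 (-2304, 7496) (by decide +kernel)
         (CovZ.n2 (-2300, 7500) (by decide +kernel)
          (CovZ.leaf K2_ok TX_l526 _)
          (CovZ.leaf K2_ok TX_l527 _))
         (CovZ.n1 (-2300, 7492) (by decide +kernel)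
          (CovZ.n2 (-2304, 7492) (by decide +kernel)
           (CovZ.leaf K2_ok TX_l528 _)
           (CovZ.leaf K2_ok TX_l529 _))
          (CovZ.leaf K2_ok TX_l530 _)))
        (CovZ.n1 (-2296, 7504) (by decide +kernel)
         (CovZ.leaf K2_ok TX_l531 _)
         (CovZ.leaf K2_ok TX_l532 _))))
      (CovZ.n1 (-2288, 7520) (by decide +kernel)
       (CovZ.n2 (-2280, 7512) (by decide +kernel)
        (CovZ.n2 (-2288, 7512) (by decide +kernel)
         (CovZ.leaf K2_ok TX_l533 _)
         (CovZ.leaf K2_ok TX_l534 _))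
        (CovZ.n1 (-2280, 7520) (by decide +kernel)
         (CovZ.leaf K2_ok TX_l535 _)
         (CovZ.leaf K2_ok TX_l536 _)))
       (CovZ.n1 (-2296, 7512) (by decide +kernel)
        (CovZ.n2 (-2296, 7520) (by decide +kernel)
         (CovZ.leaf K2_ok TX_l537 _)
         (CovZ.n1 (-2300, 7516) (by decide +kernel)
          (CovZ.leaf K2_ok TX_l538 _)
          (CovZ.leaf K2_ok TX_l539 _)))
        (CovZ.n1 (-2288, 7512) (by decide +kernel)
         (CovZ.n2 (-2292, 7508) (by decide +kernel)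
          (CovZ.leaf K2_ok TX_l540 _)
          (CovZ.leaf K2_ok TX_l541 _))
         (CovZ.leaf K2_ok TX_l542 _))))))
    (CovZ.n1 (-2272, 7552) (by decide +kernel)
     (CovZ.n2 (-2256, 7536) (by decide +kernel)
      (CovZ.n2 (-2272, 7536) (by decide +kernel)
       (CovZ.n2 (-2264, 7544) (by decide +kernel)
        (CovZ.leaf K2_ok TX_l543 _)
        (CovZ.n1 (-2272, 7544) (by decide +kernel)
         (CovZ.leaf K2_ok TX_l544 _)
         (CovZ.leaf K2_ok TX_l545 _)))
       (CovZ.n1 (-2264, 7528) (by decide +kernel)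
        (CovZ.n2 (-2272, 7528) (by decide +kernel)
         (CovZ.leaf K2_ok TX_l546 _)
         (CovZ.leaf K2_ok TX_l547 _))
        (CovZ.leaf K2_ok TX_l548 _)))
      (CovZ.n1 (-2256, 7552) (by decide +kernel)
       (CovZ.n2 (-2248, 7544) (by decide +kernel)
        (CovZ.n2 (-2256, 7544) (by decide +kernel)
         (CovZ.leaf K2_ok TX_l549 _)
         (CovZ.leaf K2_ok TX_l550 _))
        (CovZ.n1 (-2248, 7552) (by decide +kernel)
         (CovZ.leaf K2_ok TX_l551 _)
         (CovZ.leaf K2_ok TX_l552 _)))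
       (CovZ.n1 (-2264, 7544) (by decide +kernel)
        (CovZ.leaf K2_ok TX_l553 _)
        (CovZ.n1 (-2256, 7544) (by decide +kernel)
         (CovZ.leaf K2_ok TX_l554 _)
         (CovZ.leaf K2_ok TX_l555 _)))))
     (CovZ.n1 (-2288, 7536) (by decide +kernel)
      (CovZ.n2 (-2288, 7552) (by decide +kernel)
       (CovZ.n2 (-2280, 7544) (by decide +kernel)
        (CovZ.n2 (-2288, 7544) (by decide +kernel)
         (CovZ.leaf K2_ok TX_l556 _)
         (CovZ.leaf K2_ok TX_l557 _))
        (CovZ.leaf K2_ok TX_l558 _))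
       (CovZ.n1 (-2296, 7544) (by decide +kernel)
        (CovZ.n2 (-2296, 7552) (by decide +kernel)
         (CovZ.leaf K2_ok TX_l559 _)
         (CovZ.leaf K2_ok TX_l560 _))
        (CovZ.n1 (-2288, 7544) (by decide +kernel)
         (CovZ.leaf K2_ok TX_l561 _)
         (CovZ.leaf K2_ok TX_l562 _))))
      (CovZ.n1 (-2272, 7536) (by decide +kernel)
       (CovZ.n2 (-2280, 7528) (by decide +kernel)
        (CovZ.n2 (-2280, 7536) (by decide +kernel)
         (CovZ.leaf K2_ok TX_l563 _)
         (CovZ.leaf K2_ok TX_l564 _))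
        (CovZ.n1 (-2272, 7528) (by decide +kernel)
         (CovZ.leaf K2_ok TX_l565 _)
         (CovZ.leaf K2_ok TX_l566 _)))
       (CovZ.n1 (-2280, 7544) (by decide +kernel)
        (CovZ.n2 (-2272, 7544) (by decide +kernel)
         (CovZ.leaf K2_ok TX_l567 _)
         (CovZ.leaf K2_ok TX_l568 _))
        (CovZ.leaf K2_ok TX_l569 _)))))))

theorem TX_s1_1 : SqZ TX_M TX_L [0, 7, 4, 3] (-2304) 7424 64 1 1 :=
  SqZ.mk (a := (-2240)) (b := (-2176)) (c := 7488) (d := 7552) (by norm_num) (by norm_num) (by norm_num) (by norm_num)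
    (CovZ.topM TX_LL 3 (by decide +kernel) (CovZ.n2 (-2208, 7520) (by decide +kernel)
    (CovZ.n2 (-2176, 7520) (by decide +kernel)
     (CovZ.n2 (-2192, 7504) (by decide +kernel)
      (CovZ.n2 (-2192, 7520) (by decide +kernel)
       (CovZ.n2 (-2184, 7512) (by decide +kernel)
        (CovZ.n2 (-2192, 7512) (by decide +kernel)
         (CovZ.leaf K2_ok TX_l1046 _)
         (CovZ.leaf K2_ok TX_l1047 _))
        (CovZ.leaf K2_ok TX_l1048 _))
       (CovZ.n1 (-2200, 7512) (by decide +kernel)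
        (CovZ.n2 (-2200, 7520) (by decide +kernel)
         (CovZ.leaf K2_ok TX_l1049 _)
         (CovZ.leaf K2_ok TX_l1050 _))
        (CovZ.n1 (-2192, 7512) (by decide +kernel)
         (CovZ.leaf K2_ok TX_l1051 _)
         (CovZ.leaf K2_ok TX_l1052 _))))
      (CovZ.n1 (-2176, 7504) (by decide +kernel)
       (CovZ.n2 (-2184, 7496) (by decide +kernel)
        (CovZ.leaf K2_ok TX_l1053 _)
        (CovZ.n1 (-2176, 7496) (by decide +kernel)
         (CovZ.leaf K2_ok TX_l1054 _)
         (CovZ.leaf K2_ok TX_l1055 _)))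
       (CovZ.n1 (-2184, 7512) (by decide +kernel)
        (CovZ.n2 (-2176, 7512) (by decide +kernel)
         (CovZ.leaf K2_ok TX_l1056 _)
         (CovZ.leaf K2_ok TX_l1057 _))
        (CovZ.leaf K2_ok TX_l1058 _))))
     (CovZ.n1 (-2192, 7536) (by decide +kernel)
      (CovZ.n2 (-2176, 7536) (by decide +kernel)
       (CovZ.n2 (-2184, 7528) (by decide +kernel)
        (CovZ.leaf K2_ok TX_l1059 _)
        (CovZ.n1 (-2176, 7528) (by decide +kernel)
         (CovZ.leaf K2_ok TX_l1060 _)
         (CovZ.leaf K2_ok TX_l1061 _)))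
       (CovZ.n1 (-2184, 7544) (by decide +kernel)
        (CovZ.n2 (-2176, 7544) (by decide +kernel)
         (CovZ.leaf K2_ok TX_l1062 _)
         (CovZ.leaf K2_ok TX_l1063 _))
        (CovZ.leaf K2_ok TX_l1064 _)))
      (CovZ.n1 (-2192, 7520) (by decide +kernel)
       (CovZ.n2 (-2200, 7528) (by decide +kernel)
        (CovZ.n2 (-2192, 7528) (by decide +kernel)
         (CovZ.leaf K2_ok TX_l1065 _)
         (CovZ.leaf K2_ok TX_l1066 _))
        (CovZ.leaf K2_ok TX_l1067 _))
       (CovZ.n1 (-2184, 7528) (by decide +kernel)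
        (CovZ.leaf K2_ok TX_l1068 _)
        (CovZ.n1 (-2192, 7528) (by decide +kernel)
         (CovZ.leaf K2_ok TX_l1069 _)
         (CovZ.leaf K2_ok TX_l1070 _))))))
    (CovZ.n1 (-2208, 7488) (by decide +kernel)
     (CovZ.n2 (-2224, 7504) (by decide +kernel)
      (CovZ.n2 (-2208, 7504) (by decide +kernel)
       (CovZ.n2 (-2216, 7496) (by decide +kernel)
        (CovZ.n2 (-2216, 7504) (by decide +kernel)
         (CovZ.leaf K2_ok TX_l1071 _)
         (CovZ.leaf K2_ok TX_l1072 _))
        (CovZ.n1 (-2208, 7496) (by decide +kernel)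
         (CovZ.leaf K2_ok TX_l1073 _)
         (CovZ.leaf K2_ok TX_l1074 _)))
       (CovZ.n1 (-2216, 7512) (by decide +kernel)
        (CovZ.n2 (-2208, 7512) (by decide +kernel)
         (CovZ.leaf K2_ok TX_l1075 _)
         (CovZ.leaf K2_ok TX_l1076 _))
        (CovZ.leaf K2_ok TX_l1077 _)))
      (CovZ.n1 (-2224, 7488) (by decide +kernel)
       (CovZ.n2 (-2232, 7496) (by decide +kernel)
        (CovZ.n2 (-2224, 7496) (by decide +kernel)
         (CovZ.leaf K2_ok TX_l1078 _)
         (CovZ.leaf K2_ok TX_l1079 _))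
        (CovZ.n1 (-2232, 7488) (by decide +kernel)
         (CovZ.leaf K2_ok TX_l1080 _)
         (CovZ.leaf K2_ok TX_l1081 _)))
       (CovZ.n1 (-2216, 7496) (by decide +kernel)
        (CovZ.n2 (-2216, 7488) (by decide +kernel)
         (CovZ.leaf K2_ok TX_l1082 _)
         (CovZ.leaf K2_ok TX_l1083 _))
        (CovZ.n1 (-2224, 7496) (by decide +kernel)
         (CovZ.leaf K2_ok TX_l1084 _)
         (CovZ.leaf K2_ok TX_l1085 _)))))
     (CovZ.n1 (-2192, 7504) (by decide +kernel)
      (CovZ.n2 (-2192, 7488) (by decide +kernel)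
       (CovZ.n2 (-2200, 7496) (by decide +kernel)
        (CovZ.n2 (-2192, 7496) (by decide +kernel)
         (CovZ.leaf K2_ok TX_l1086 _)
         (CovZ.leaf K2_ok TX_l1087 _))
        (CovZ.leaf K2_ok TX_l1088 _))
       (CovZ.n1 (-2184, 7496) (by decide +kernel)
        (CovZ.leaf K2_ok TX_l1089 _)
        (CovZ.n1 (-2192, 7496) (by decide +kernel)
         (CovZ.leaf K2_ok TX_l1090 _)
         (CovZ.leaf K2_ok TX_l1091 _))))
      (CovZ.n1 (-2208, 7504) (by decide +kernel)
       (CovZ.n2 (-2200, 7512) (by decide +kernel)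
        (CovZ.leaf K2_ok TX_l1092 _)
        (CovZ.n1 (-2208, 7512) (by decide +kernel)
         (CovZ.leaf K2_ok TX_l1093 _)
         (CovZ.leaf K2_ok TX_l1094 _)))
       (CovZ.n1 (-2200, 7496) (by decide +kernel)
        (CovZ.n2 (-2208, 7496) (by decide +kernel)
         (CovZ.leaf K2_ok TX_l1095 _)
         (CovZ.leaf K2_ok TX_l1096 _))
        (CovZ.leaf K2_ok TX_l1097 _)))))))
    (CovZ.topM TX_LL 3 (by decide +kernel) (CovZ.n0 (-2208, 7520) (by decide +kernel)
    (CovZ.n2 (-2240, 7520) (by decide +kernel)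
     (CovZ.n2 (-2224, 7536) (by decide +kernel)
      (CovZ.n2 (-2224, 7520) (by decide +kernel)
       (CovZ.n2 (-2232, 7528) (by decide +kernel)
        (CovZ.n2 (-2224, 7528) (by decide +kernel)
         (CovZ.leaf K2_ok TX_l1098 _)
         (CovZ.leaf K2_ok TX_l1099 _))
        (CovZ.leaf K2_ok TX_l1100 _))
       (CovZ.n1 (-2216, 7528) (by decide +kernel)
        (CovZ.leaf K2_ok TX_l1101 _)
        (CovZ.n1 (-2224, 7528) (by decide +kernel)
         (CovZ.leaf K2_ok TX_l1102 _)
         (CovZ.leaf K2_ok TX_l1103 _))))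
      (CovZ.n1 (-2240, 7536) (by decide +kernel)
       (CovZ.n2 (-2232, 7544) (by decide +kernel)
        (CovZ.leaf K2_ok TX_l1104 _)
        (CovZ.n1 (-2240, 7544) (by decide +kernel)
         (CovZ.leaf K2_ok TX_l1105 _)
         (CovZ.leaf K2_ok TX_l1106 _)))
       (CovZ.n1 (-2232, 7528) (by decide +kernel)
        (CovZ.n2 (-2240, 7528) (by decide +kernel)
         (CovZ.leaf K2_ok TX_l1107 _)
         (CovZ.leaf K2_ok TX_l1108 _))
        (CovZ.leaf K2_ok TX_l1109 _))))
     (CovZ.n1 (-2224, 7504) (by decide +kernel)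
      (CovZ.n2 (-2240, 7504) (by decide +kernel)
       (CovZ.n2 (-2232, 7512) (by decide +kernel)
        (CovZ.leaf K2_ok TX_l1110 _)
        (CovZ.n1 (-2240, 7512) (by decide +kernel)
         (CovZ.leaf K2_ok TX_l1111 _)
         (CovZ.leaf K2_ok TX_l1112 _)))
       (CovZ.n1 (-2232, 7496) (by decide +kernel)
        (CovZ.n2 (-2240, 7496) (by decide +kernel)
         (CovZ.leaf K2_ok TX_l1113 _)
         (CovZ.leaf K2_ok TX_l1114 _))
        (CovZ.leaf K2_ok TX_l1115 _)))
      (CovZ.n1 (-2224, 7520) (by decide +kernel)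
       (CovZ.n2 (-2216, 7512) (by decide +kernel)
        (CovZ.n2 (-2224, 7512) (by decide +kernel)
         (CovZ.leaf K2_ok TX_l1116 _)
         (CovZ.leaf K2_ok TX_l1117 _))
        (CovZ.leaf K2_ok TX_l1118 _))
       (CovZ.n1 (-2232, 7512) (by decide +kernel)
        (CovZ.leaf K2_ok TX_l1119 _)
        (CovZ.n1 (-2224, 7512) (by decide +kernel)
         (CovZ.leaf K2_ok TX_l1120 _)
         (CovZ.leaf K2_ok TX_l1121 _))))))
    (CovZ.n1 (-2208, 7552) (by decide +kernel)
     (CovZ.n2 (-2192, 7536) (by decide +kernel)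
      (CovZ.n2 (-2208, 7536) (by decide +kernel)
       (CovZ.n2 (-2200, 7544) (by decide +kernel)
        (CovZ.leaf K2_ok TX_l1122 _)
        (CovZ.n1 (-2208, 7544) (by decide +kernel)
         (CovZ.leaf K2_ok TX_l1123 _)
         (CovZ.leaf K2_ok TX_l1124 _)))
       (CovZ.n1 (-2200, 7528) (by decide +kernel)
        (CovZ.n2 (-2208, 7528) (by decide +kernel)
         (CovZ.leaf K2_ok TX_l1125 _)
         (CovZ.leaf K2_ok TX_l1126 _))
        (CovZ.leaf K2_ok TX_l1127 _)))
      (CovZ.n1 (-2192, 7552) (by decide +kernel)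
       (CovZ.n2 (-2184, 7544) (by decide +kernel)
        (CovZ.n2 (-2192, 7544) (by decide +kernel)
         (CovZ.leaf K2_ok TX_l1128 _)
         (CovZ.leaf K2_ok TX_l1129 _))
        (CovZ.leaf K2_ok TX_l1130 _))
       (CovZ.n1 (-2200, 7544) (by decide +kernel)
        (CovZ.leaf K2_ok TX_l1131 _)
        (CovZ.n1 (-2192, 7544) (by decide +kernel)
         (CovZ.leaf K2_ok TX_l1132 _)
         (CovZ.leaf K2_ok TX_l1133 _)))))
     (CovZ.n1 (-2224, 7536) (by decide +kernel)
      (CovZ.n2 (-2224, 7552) (by decide +kernel)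
       (CovZ.n2 (-2216, 7544) (by decide +kernel)
        (CovZ.n2 (-2224, 7544) (by decide +kernel)
         (CovZ.leaf K2_ok TX_l1134 _)
         (CovZ.leaf K2_ok TX_l1135 _))
        (CovZ.leaf K2_ok TX_l1136 _))
       (CovZ.n1 (-2232, 7544) (by decide +kernel)
        (CovZ.leaf K2_ok TX_l1137 _)
        (CovZ.n1 (-2224, 7544) (by decide +kernel)
         (CovZ.leaf K2_ok TX_l1138 _)
         (CovZ.leaf K2_ok TX_l1139 _))))
      (CovZ.n1 (-2208, 7536) (by decide +kernel)
       (CovZ.n2 (-2216, 7528) (by decide +kernel)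
        (CovZ.leaf K2_ok TX_l1140 _)
        (CovZ.n1 (-2208, 7528) (by decide +kernel)
         (CovZ.leaf K2_ok TX_l1141 _)
         (CovZ.leaf K2_ok TX_l1142 _)))
       (CovZ.n1 (-2216, 7544) (by decide +kernel)
        (CovZ.n2 (-2208, 7544) (by decide +kernel)
         (CovZ.leaf K2_ok TX_l1143 _)
         (CovZ.leaf K2_ok TX_l1144 _))
        (CovZ.leaf K2_ok TX_l1145 _)))))))

theorem TX_s2_1 : SqZ TX_M TX_L [0, 7, 4, 3] (-2304) 7424 64 2 1 :=
  SqZ.mk (a := (-2176)) (b := (-2112)) (c := 7488) (d := 7552) (by norm_num) (by norm_num) (by norm_num) (by norm_num)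
    (CovZ.topM TX_LL 3 (by decide +kernel) (CovZ.n2 (-2144, 7520) (by decide +kernel)
    (CovZ.n2 (-2112, 7520) (by decide +kernel)
     (CovZ.n2 (-2128, 7504) (by decide +kernel)
      (CovZ.n2 (-2128, 7520) (by decide +kernel)
       (CovZ.n2 (-2120, 7512) (by decide +kernel)
        (CovZ.n2 (-2128, 7512) (by decide +kernel)
         (CovZ.leaf K2_ok TX_l1504 _)
         (CovZ.leaf K2_ok TX_l1505 _))
        (CovZ.leaf K2_ok TX_l1506 _))
       (CovZ.n1 (-2136, 7512) (by decide +kernel)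
        (CovZ.leaf K2_ok TX_l1507 _)
        (CovZ.n1 (-2128, 7512) (by decide +kernel)
         (CovZ.leaf K2_ok TX_l1508 _)
         (CovZ.leaf K2_ok TX_l1509 _))))
      (CovZ.n1 (-2112, 7504) (by decide +kernel)
       (CovZ.n2 (-2120, 7496) (by decide +kernel)
        (CovZ.leaf K2_ok TX_l1510 _)
        (CovZ.n1 (-2112, 7496) (by decide +kernel)
         (CovZ.leaf K2_ok TX_l1511 _)
         (CovZ.leaf K2_ok TX_l1512 _)))
       (CovZ.n1 (-2120, 7512) (by decide +kernel)
        (CovZ.n2 (-2112, 7512) (by decide +kernel)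
         (CovZ.leaf K2_ok TX_l1513 _)
         (CovZ.leaf K2_ok TX_l1514 _))
        (CovZ.leaf K2_ok TX_l1515 _))))
     (CovZ.n1 (-2128, 7536) (by decide +kernel)
      (CovZ.n2 (-2112, 7536) (by decide +kernel)
       (CovZ.n2 (-2120, 7528) (by decide +kernel)
        (CovZ.leaf K2_ok TX_l1516 _)
        (CovZ.n1 (-2112, 7528) (by decide +kernel)
         (CovZ.leaf K2_ok TX_l1517 _)
         (CovZ.leaf K2_ok TX_l1518 _)))
       (CovZ.n1 (-2120, 7544) (by decide +kernel)
        (CovZ.leaf K2_ok TX_l1519 _)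
        (CovZ.leaf K2_ok TX_l1520 _)))
      (CovZ.n1 (-2128, 7520) (by decide +kernel)
       (CovZ.n2 (-2136, 7528) (by decide +kernel)
        (CovZ.n2 (-2128, 7528) (by decide +kernel)
         (CovZ.leaf K2_ok TX_l1521 _)
         (CovZ.leaf K2_ok TX_l1522 _))
        (CovZ.leaf K2_ok TX_l1523 _))
       (CovZ.n1 (-2120, 7528) (by decide +kernel)
        (CovZ.leaf K2_ok TX_l1524 _)
        (CovZ.n1 (-2128, 7528) (by decide +kernel)
         (CovZ.leaf K2_ok TX_l1525 _)
         (CovZ.leaf K2_ok TX_l1526 _))))))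
    (CovZ.n1 (-2144, 7488) (by decide +kernel)
     (CovZ.n2 (-2160, 7504) (by decide +kernel)
      (CovZ.n2 (-2144, 7504) (by decide +kernel)
       (CovZ.n2 (-2152, 7496) (by decide +kernel)
        (CovZ.leaf K2_ok TX_l1527 _)
        (CovZ.n1 (-2144, 7496) (by decide +kernel)
         (CovZ.leaf K2_ok TX_l1528 _)
         (CovZ.leaf K2_ok TX_l1529 _)))
       (CovZ.n1 (-2152, 7512) (by decide +kernel)
        (CovZ.n2 (-2144, 7512) (by decide +kernel)
         (CovZ.leaf K2_ok TX_l1530 _)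
         (CovZ.leaf K2_ok TX_l1531 _))
        (CovZ.leaf K2_ok TX_l1532 _)))
      (CovZ.n1 (-2160, 7488) (by decide +kernel)
       (CovZ.n2 (-2168, 7496) (by decide +kernel)
        (CovZ.n2 (-2160, 7496) (by decide +kernel)
         (CovZ.leaf K2_ok TX_l1533 _)
         (CovZ.leaf K2_ok TX_l1534 _))
        (CovZ.leaf K2_ok TX_l1535 _))
       (CovZ.n1 (-2152, 7496) (by decide +kernel)
        (CovZ.leaf K2_ok TX_l1536 _)
        (CovZ.n1 (-2160, 7496) (by decide +kernel)
         (CovZ.leaf K2_ok TX_l1537 _)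
         (CovZ.leaf K2_ok TX_l1538 _)))))
     (CovZ.n1 (-2128, 7504) (by decide +kernel)
      (CovZ.n2 (-2128, 7488) (by decide +kernel)
       (CovZ.n2 (-2136, 7496) (by decide +kernel)
        (CovZ.n2 (-2128, 7496) (by decide +kernel)
         (CovZ.leaf K2_ok TX_l1539 _)
         (CovZ.leaf K2_ok TX_l1540 _))
        (CovZ.leaf K2_ok TX_l1541 _))
       (CovZ.n1 (-2120, 7496) (by decide +kernel)
        (CovZ.leaf K2_ok TX_l1542 _)
        (CovZ.n1 (-2128, 7496) (by decide +kernel)
         (CovZ.leaf K2_ok TX_l1543 _)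
         (CovZ.leaf K2_ok TX_l1544 _))))
      (CovZ.n1 (-2144, 7504) (by decide +kernel)
       (CovZ.n2 (-2136, 7512) (by decide +kernel)
        (CovZ.leaf K2_ok TX_l1545 _)
        (CovZ.n1 (-2144, 7512) (by decide +kernel)
         (CovZ.leaf K2_ok TX_l1546 _)
         (CovZ.leaf K2_ok TX_l1547 _)))
       (CovZ.n1 (-2136, 7496) (by decide +kernel)
        (CovZ.n2 (-2144, 7496) (by decide +kernel)
         (CovZ.leaf K2_ok TX_l1548 _)
         (CovZ.leaf K2_ok TX_l1549 _))
        (CovZ.leaf K2_ok TX_l1550 _)))))))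
    (CovZ.topM TX_LL 3 (by decide +kernel) (CovZ.n0 (-2144, 7520) (by decide +kernel)
    (CovZ.n2 (-2176, 7520) (by decide +kernel)
     (CovZ.n2 (-2160, 7536) (by decide +kernel)
      (CovZ.n2 (-2160, 7520) (by decide +kernel)
       (CovZ.n2 (-2168, 7528) (by decide +kernel)
        (CovZ.n2 (-2160, 7528) (by decide +kernel)
         (CovZ.leaf K2_ok TX_l1551 _)
         (CovZ.leaf K2_ok TX_l1552 _))
        (CovZ.leaf K2_ok TX_l1553 _))
       (CovZ.n1 (-2152, 7528) (by decide +kernel)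
        (CovZ.leaf K2_ok TX_l1554 _)
        (CovZ.n1 (-2160, 7528) (by decide +kernel)
         (CovZ.leaf K2_ok TX_l1555 _)
         (CovZ.leaf K2_ok TX_l1556 _))))
      (CovZ.n1 (-2176, 7536) (by decide +kernel)
       (CovZ.n2 (-2168, 7544) (by decide +kernel)
        (CovZ.leaf K2_ok TX_l1557 _)
        (CovZ.n1 (-2176, 7544) (by decide +kernel)
         (CovZ.leaf K2_ok TX_l1558 _)
         (CovZ.leaf K2_ok TX_l1559 _)))
       (CovZ.n1 (-2168, 7528) (by decide +kernel)
        (CovZ.n2 (-2176, 7528) (by decide +kernel)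
         (CovZ.leaf K2_ok TX_l1560 _)
         (CovZ.leaf K2_ok TX_l1561 _))
        (CovZ.leaf K2_ok TX_l1562 _))))
     (CovZ.n1 (-2160, 7504) (by decide +kernel)
      (CovZ.n2 (-2176, 7504) (by decide +kernel)
       (CovZ.n2 (-2168, 7512) (by decide +kernel)
        (CovZ.leaf K2_ok TX_l1563 _)
        (CovZ.n1 (-2176, 7512) (by decide +kernel)
         (CovZ.leaf K2_ok TX_l1564 _)
         (CovZ.leaf K2_ok TX_l1565 _)))
       (CovZ.n1 (-2168, 7496) (by decide +kernel)
        (CovZ.n2 (-2176, 7496) (by decide +kernel)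
         (CovZ.leaf K2_ok TX_l1566 _)
         (CovZ.leaf K2_ok TX_l1567 _))
        (CovZ.leaf K2_ok TX_l1568 _)))
      (CovZ.n1 (-2160, 7520) (by decide +kernel)
       (CovZ.n2 (-2152, 7512) (by decide +kernel)
        (CovZ.n2 (-2160, 7512) (by decide +kernel)
         (CovZ.leaf K2_ok TX_l1569 _)
         (CovZ.leaf K2_ok TX_l1570 _))
        (CovZ.leaf K2_ok TX_l1571 _))
       (CovZ.n1 (-2168, 7512) (by decide +kernel)
        (CovZ.leaf K2_ok TX_l1572 _)
        (CovZ.n1 (-2160, 7512) (by decide +kernel)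
         (CovZ.leaf K2_ok TX_l1573 _)
         (CovZ.leaf K2_ok TX_l1574 _))))))
    (CovZ.n1 (-2144, 7552) (by decide +kernel)
     (CovZ.n2 (-2128, 7536) (by decide +kernel)
      (CovZ.n2 (-2144, 7536) (by decide +kernel)
       (CovZ.n2 (-2136, 7544) (by decide +kernel)
        (CovZ.leaf K2_ok TX_l1575 _)
        (CovZ.n1 (-2144, 7544) (by decide +kernel)
         (CovZ.leaf K2_ok TX_l1576 _)
         (CovZ.leaf K2_ok TX_l1577 _)))
       (CovZ.n1 (-2136, 7528) (by decide +kernel)
        (CovZ.n2 (-2144, 7528) (by decide +kernel)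
         (CovZ.leaf K2_ok TX_l1578 _)
         (CovZ.leaf K2_ok TX_l1579 _))
        (CovZ.leaf K2_ok TX_l1580 _)))
      (CovZ.n1 (-2128, 7552) (by decide +kernel)
       (CovZ.n2 (-2120, 7544) (by decide +kernel)
        (CovZ.leaf K2_ok TX_l1581 _)
        (CovZ.leaf K2_ok TX_l1582 _))
       (CovZ.n1 (-2136, 7544) (by decide +kernel)
        (CovZ.leaf K2_ok TX_l1583 _)
        (CovZ.n1 (-2128, 7544) (by decide +kernel)
         (CovZ.leaf K2_ok TX_l1584 _)
         (CovZ.leaf K2_ok TX_l1585 _)))))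
     (CovZ.n1 (-2160, 7536) (by decide +kernel)
      (CovZ.n2 (-2160, 7552) (by decide +kernel)
       (CovZ.n2 (-2152, 7544) (by decide +kernel)
        (CovZ.n2 (-2160, 7544) (by decide +kernel)
         (CovZ.leaf K2_ok TX_l1586 _)
         (CovZ.leaf K2_ok TX_l1587 _))
        (CovZ.leaf K2_ok TX_l1588 _))
       (CovZ.n1 (-2168, 7544) (by decide +kernel)
        (CovZ.leaf K2_ok TX_l1589 _)
        (CovZ.n1 (-2160, 7544) (by decide +kernel)
         (CovZ.leaf K2_ok TX_l1590 _)
         (CovZ.leaf K2_ok TX_l1591 _))))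
      (CovZ.n1 (-2144, 7536) (by decide +kernel)
       (CovZ.n2 (-2152, 7528) (by decide +kernel)
        (CovZ.leaf K2_ok TX_l1592 _)
        (CovZ.n1 (-2144, 7528) (by decide +kernel)
         (CovZ.leaf K2_ok TX_l1593 _)
         (CovZ.leaf K2_ok TX_l1594 _)))
       (CovZ.n1 (-2152, 7544) (by decide +kernel)
        (CovZ.n2 (-2144, 7544) (by decide +kernel)
         (CovZ.leaf K2_ok TX_l1595 _)
         (CovZ.leaf K2_ok TX_l1596 _))
        (CovZ.leaf K2_ok TX_l1597 _)))))))

theorem TX_s3_1 : SqZ TX_M TX_L [0, 7, 4, 3] (-2304) 7424 64 3 1 :=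
  SqZ.mk (a := (-2112)) (b := (-2048)) (c := 7488) (d := 7552) (by norm_num) (by norm_num) (by norm_num) (by norm_num)
    (CovZ.topM TX_LL 3 (by decide +kernel) (CovZ.n2 (-2080, 7520) (by decide +kernel)
    (CovZ.n2 (-2048, 7520) (by decide +kernel)
     (CovZ.n2 (-2064, 7504) (by decide +kernel)
      (CovZ.n2 (-2064, 7520) (by decide +kernel)
       (CovZ.n2 (-2056, 7512) (by decide +kernel)
        (CovZ.leaf K2_ok TX_l2269 _)
        (CovZ.leaf K2_ok TX_l2270 _))
       (CovZ.n1 (-2072, 7512) (by decide +kernel)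
        (CovZ.leaf K2_ok TX_l2271 _)
        (CovZ.leaf K2_ok TX_l2272 _)))
      (CovZ.n1 (-2048, 7504) (by decide +kernel)
       (CovZ.n2 (-2056, 7496) (by decide +kernel)
        (CovZ.leaf K2_ok TX_l2273 _)
        (CovZ.n1 (-2048, 7496) (by decide +kernel)
         (CovZ.leaf K2_ok TX_l2274 _)
         (CovZ.leaf K2_ok TX_l2275 _)))
       (CovZ.n1 (-2056, 7512) (by decide +kernel)
        (CovZ.leaf K2_ok TX_l2276 _)
        (CovZ.leaf K2_ok TX_l2277 _))))
     (CovZ.n1 (-2064, 7536) (by decide +kernel)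
      (CovZ.n2 (-2048, 7536) (by decide +kernel)
       (CovZ.n2 (-2056, 7528) (by decide +kernel)
        (CovZ.leaf K2_ok TX_l2278 _)
        (CovZ.leaf K2_ok TX_l2279 _))
       (CovZ.n1 (-2056, 7544) (by decide +kernel)
        (CovZ.leaf K2_ok TX_l2280 _)
        (CovZ.leaf K2_ok TX_l2281 _)))
      (CovZ.n1 (-2064, 7520) (by decide +kernel)
       (CovZ.n2 (-2072, 7528) (by decide +kernel)
        (CovZ.leaf K2_ok TX_l2282 _)
        (CovZ.leaf K2_ok TX_l2283 _))
       (CovZ.n1 (-2056, 7528) (by decide +kernel)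
        (CovZ.leaf K2_ok TX_l2284 _)
        (CovZ.leaf K2_ok TX_l2285 _)))))
    (CovZ.n1 (-2080, 7488) (by decide +kernel)
     (CovZ.n2 (-2096, 7504) (by decide +kernel)
      (CovZ.n2 (-2080, 7504) (by decide +kernel)
       (CovZ.n2 (-2088, 7496) (by decide +kernel)
        (CovZ.leaf K2_ok TX_l2286 _)
        (CovZ.n1 (-2080, 7496) (by decide +kernel)
         (CovZ.leaf K2_ok TX_l2287 _)
         (CovZ.leaf K2_ok TX_l2288 _)))
       (CovZ.n1 (-2088, 7512) (by decide +kernel)
        (CovZ.n2 (-2080, 7512) (by decide +kernel)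
         (CovZ.leaf K2_ok TX_l2289 _)
         (CovZ.leaf K2_ok TX_l2290 _))
        (CovZ.leaf K2_ok TX_l2291 _)))
      (CovZ.n1 (-2096, 7488) (by decide +kernel)
       (CovZ.n2 (-2104, 7496) (by decide +kernel)
        (CovZ.n2 (-2096, 7496) (by decide +kernel)
         (CovZ.leaf K2_ok TX_l2292 _)
         (CovZ.leaf K2_ok TX_l2293 _))
        (CovZ.leaf K2_ok TX_l2294 _))
       (CovZ.n1 (-2088, 7496) (by decide +kernel)
        (CovZ.leaf K2_ok TX_l2295 _)
        (CovZ.n1 (-2096, 7496) (by decide +kernel)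
         (CovZ.leaf K2_ok TX_l2296 _)
         (CovZ.leaf K2_ok TX_l2297 _)))))
     (CovZ.n1 (-2064, 7504) (by decide +kernel)
      (CovZ.n2 (-2064, 7488) (by decide +kernel)
       (CovZ.n2 (-2072, 7496) (by decide +kernel)
        (CovZ.n2 (-2064, 7496) (by decide +kernel)
         (CovZ.leaf K2_ok TX_l2298 _)
         (CovZ.leaf K2_ok TX_l2299 _))
        (CovZ.leaf K2_ok TX_l2300 _))
       (CovZ.n1 (-2056, 7496) (by decide +kernel)
        (CovZ.leaf K2_ok TX_l2301 _)
        (CovZ.n1 (-2064, 7496) (by decide +kernel)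
         (CovZ.leaf K2_ok TX_l2302 _)
         (CovZ.leaf K2_ok TX_l2303 _))))
      (CovZ.n1 (-2080, 7504) (by decide +kernel)
       (CovZ.n2 (-2072, 7512) (by decide +kernel)
        (CovZ.leaf K2_ok TX_l2304 _)
        (CovZ.n1 (-2080, 7512) (by decide +kernel)
         (CovZ.leaf K2_ok TX_l2305 _)
         (CovZ.leaf K2_ok TX_l2306 _)))
       (CovZ.n1 (-2072, 7496) (by decide +kernel)
        (CovZ.n2 (-2080, 7496) (by decide +kernel)
         (CovZ.leaf K2_ok TX_l2307 _)
         (CovZ.leaf K2_ok TX_l2308 _))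
        (CovZ.leaf K2_ok TX_l2309 _)))))))
    (CovZ.topM TX_LL 3 (by decide +kernel) (CovZ.n0 (-2080, 7520) (by decide +kernel)
    (CovZ.n2 (-2112, 7520) (by decide +kernel)
     (CovZ.n2 (-2096, 7536) (by decide +kernel)
      (CovZ.n2 (-2096, 7520) (by decide +kernel)
       (CovZ.n2 (-2104, 7528) (by decide +kernel)
        (CovZ.leaf K2_ok TX_l2310 _)
        (CovZ.leaf K2_ok TX_l2311 _))
       (CovZ.n1 (-2088, 7528) (by decide +kernel)
        (CovZ.leaf K2_ok TX_l2312 _)
        (CovZ.leaf K2_ok TX_l2313 _)))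
      (CovZ.n1 (-2112, 7536) (by decide +kernel)
       (CovZ.n2 (-2104, 7544) (by decide +kernel)
        (CovZ.leaf K2_ok TX_l2314 _)
        (CovZ.leaf K2_ok TX_l2315 _))
       (CovZ.n1 (-2104, 7528) (by decide +kernel)
        (CovZ.n2 (-2112, 7528) (by decide +kernel)
         (CovZ.leaf K2_ok TX_l2316 _)
         (CovZ.leaf K2_ok TX_l2317 _))
        (CovZ.leaf K2_ok TX_l2318 _))))
     (CovZ.n1 (-2096, 7504) (by decide +kernel)
      (CovZ.n2 (-2112, 7504) (by decide +kernel)
       (CovZ.n2 (-2104, 7512) (by decide +kernel)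
        (CovZ.leaf K2_ok TX_l2319 _)
        (CovZ.n1 (-2112, 7512) (by decide +kernel)
         (CovZ.leaf K2_ok TX_l2320 _)
         (CovZ.leaf K2_ok TX_l2321 _)))
       (CovZ.n1 (-2104, 7496) (by decide +kernel)
        (CovZ.n2 (-2112, 7496) (by decide +kernel)
         (CovZ.leaf K2_ok TX_l2322 _)
         (CovZ.leaf K2_ok TX_l2323 _))
        (CovZ.leaf K2_ok TX_l2324 _)))
      (CovZ.n1 (-2096, 7520) (by decide +kernel)
       (CovZ.n2 (-2088, 7512) (by decide +kernel)
        (CovZ.n2 (-2096, 7512) (by decide +kernel)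
         (CovZ.leaf K2_ok TX_l2325 _)
         (CovZ.leaf K2_ok TX_l2326 _))
        (CovZ.leaf K2_ok TX_l2327 _))
       (CovZ.n1 (-2104, 7512) (by decide +kernel)
        (CovZ.leaf K2_ok TX_l2328 _)
        (CovZ.n1 (-2096, 7512) (by decide +kernel)
         (CovZ.leaf K2_ok TX_l2329 _)
         (CovZ.leaf K2_ok TX_l2330 _))))))
    (CovZ.n1 (-2080, 7552) (by decide +kernel)
     (CovZ.n2 (-2064, 7536) (by decide +kernel)
      (CovZ.n2 (-2080, 7536) (by decide +kernel)
       (CovZ.n2 (-2072, 7544) (by decide +kernel)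
        (CovZ.leaf K2_ok TX_l2331 _)
        (CovZ.leaf K2_ok TX_l2332 _))
       (CovZ.n1 (-2072, 7528) (by decide +kernel)
        (CovZ.leaf K2_ok TX_l2333 _)
        (CovZ.leaf K2_ok TX_l2334 _)))
      (CovZ.n1 (-2064, 7552) (by decide +kernel)
       (CovZ.n2 (-2056, 7544) (by decide +kernel)
        (CovZ.leaf K2_ok TX_l2335 _)
        (CovZ.leaf K2_ok TX_l2336 _))
       (CovZ.n1 (-2072, 7544) (by decide +kernel)
        (CovZ.leaf K2_ok TX_l2337 _)
        (CovZ.leaf K2_ok TX_l2338 _))))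
     (CovZ.n1 (-2096, 7536) (by decide +kernel)
      (CovZ.n2 (-2096, 7552) (by decide +kernel)
       (CovZ.n2 (-2088, 7544) (by decide +kernel)
        (CovZ.leaf K2_ok TX_l2339 _)
        (CovZ.leaf K2_ok TX_l2340 _))
       (CovZ.n1 (-2104, 7544) (by decide +kernel)
        (CovZ.leaf K2_ok TX_l2341 _)
        (CovZ.n1 (-2096, 7544) (by decide +kernel)
         (CovZ.leaf K2_ok TX_l2342 _)
         (CovZ.leaf K2_ok TX_l2343 _))))
      (CovZ.n1 (-2080, 7536) (by decide +kernel)
       (CovZ.n2 (-2088, 7528) (by decide +kernel)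
        (CovZ.leaf K2_ok TX_l2344 _)
        (CovZ.leaf K2_ok TX_l2345 _))
       (CovZ.n1 (-2088, 7544) (by decide +kernel)
        (CovZ.leaf K2_ok TX_l2346 _)
        (CovZ.leaf K2_ok TX_l2347 _)))))))

theorem TX_s4_1 : SqZ TX_M TX_L [0, 7, 4, 3] (-2304) 7424 64 4 1 :=
  SqZ.mk (a := (-2048)) (b := (-1984)) (c := 7488) (d := 7552) (by norm_num) (by norm_num) (by norm_num) (by norm_num)
    (CovZ.topM TX_LL 3 (by decide +kernel) (CovZ.n2 (-2016, 7520) (by decide +kernel)
    (CovZ.n2 (-1984, 7520) (by decide +kernel)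
     (CovZ.n2 (-2000, 7504) (by decide +kernel)
      (CovZ.n2 (-2000, 7520) (by decide +kernel)
       (CovZ.n2 (-1992, 7512) (by decide +kernel)
        (CovZ.leaf K2_ok TX_l3031 _)
        (CovZ.leaf K2_ok TX_l3032 _))
       (CovZ.n1 (-2008, 7512) (by decide +kernel)
        (CovZ.leaf K2_ok TX_l3033 _)
        (CovZ.leaf K2_ok TX_l3034 _)))
      (CovZ.n1 (-1984, 7504) (by decide +kernel)
       (CovZ.n2 (-1992, 7496) (by decide +kernel)
        (CovZ.leaf K2_ok TX_l3035 _)
        (CovZ.leaf K2_ok TX_l3036 _))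
       (CovZ.n1 (-1992, 7512) (by decide +kernel)
        (CovZ.leaf K2_ok TX_l3037 _)
        (CovZ.leaf K2_ok TX_l3038 _))))
     (CovZ.n1 (-2000, 7536) (by decide +kernel)
      (CovZ.n2 (-1984, 7536) (by decide +kernel)
       (CovZ.n2 (-1992, 7528) (by decide +kernel)
        (CovZ.leaf K2_ok TX_l3039 _)
        (CovZ.n1 (-1984, 7528) (by decide +kernel)
         (CovZ.leaf K2_ok TX_l3040 _)
         (CovZ.leaf K2_ok TX_l3041 _)))
       (CovZ.n1 (-1992, 7544) (by decide +kernel)
        (CovZ.n2 (-1984, 7544) (by decide +kernel)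
         (CovZ.leaf K2_ok TX_l3042 _)
         (CovZ.leaf K2_ok TX_l3043 _))
        (CovZ.leaf K2_ok TX_l3044 _)))
      (CovZ.n1 (-2000, 7520) (by decide +kernel)
       (CovZ.n2 (-2008, 7528) (by decide +kernel)
        (CovZ.leaf K2_ok TX_l3045 _)
        (CovZ.leaf K2_ok TX_l3046 _))
       (CovZ.n1 (-1992, 7528) (by decide +kernel)
        (CovZ.leaf K2_ok TX_l3047 _)
        (CovZ.leaf K2_ok TX_l3048 _)))))
    (CovZ.n1 (-2016, 7488) (by decide +kernel)
     (CovZ.n2 (-2032, 7504) (by decide +kernel)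
      (CovZ.n2 (-2016, 7504) (by decide +kernel)
       (CovZ.n2 (-2024, 7496) (by decide +kernel)
        (CovZ.leaf K2_ok TX_l3049 _)
        (CovZ.leaf K2_ok TX_l3050 _))
       (CovZ.n1 (-2024, 7512) (by decide +kernel)
        (CovZ.leaf K2_ok TX_l3051 _)
        (CovZ.leaf K2_ok TX_l3052 _)))
      (CovZ.n1 (-2032, 7488) (by decide +kernel)
       (CovZ.n2 (-2040, 7496) (by decide +kernel)
        (CovZ.leaf K2_ok TX_l3053 _)
        (CovZ.leaf K2_ok TX_l3054 _))
       (CovZ.n1 (-2024, 7496) (by decide +kernel)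
        (CovZ.leaf K2_ok TX_l3055 _)
        (CovZ.leaf K2_ok TX_l3056 _))))
     (CovZ.n1 (-2000, 7504) (by decide +kernel)
      (CovZ.n2 (-2000, 7488) (by decide +kernel)
       (CovZ.n2 (-2008, 7496) (by decide +kernel)
        (CovZ.leaf K2_ok TX_l3057 _)
        (CovZ.leaf K2_ok TX_l3058 _))
       (CovZ.n1 (-1992, 7496) (by decide +kernel)
        (CovZ.leaf K2_ok TX_l3059 _)
        (CovZ.leaf K2_ok TX_l3060 _)))
      (CovZ.n1 (-2016, 7504) (by decide +kernel)
       (CovZ.n2 (-2008, 7512) (by decide +kernel)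
        (CovZ.leaf K2_ok TX_l3061 _)
        (CovZ.leaf K2_ok TX_l3062 _))
       (CovZ.n1 (-2008, 7496) (by decide +kernel)
        (CovZ.leaf K2_ok TX_l3063 _)
        (CovZ.leaf K2_ok TX_l3064 _)))))))
    (CovZ.topM TX_LL 3 (by decide +kernel) (CovZ.n0 (-2016, 7520) (by decide +kernel)
    (CovZ.n2 (-2048, 7520) (by decide +kernel)
     (CovZ.n2 (-2032, 7536) (by decide +kernel)
      (CovZ.n2 (-2032, 7520) (by decide +kernel)
       (CovZ.n2 (-2040, 7528) (by decide +kernel)
        (CovZ.leaf K2_ok TX_l3065 _)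
        (CovZ.leaf K2_ok TX_l3066 _))
       (CovZ.n1 (-2024, 7528) (by decide +kernel)
        (CovZ.leaf K2_ok TX_l3067 _)
        (CovZ.leaf K2_ok TX_l3068 _)))
      (CovZ.n1 (-2048, 7536) (by decide +kernel)
       (CovZ.n2 (-2040, 7544) (by decide +kernel)
        (CovZ.leaf K2_ok TX_l3069 _)
        (CovZ.leaf K2_ok TX_l3070 _))
       (CovZ.n1 (-2040, 7528) (by decide +kernel)
        (CovZ.leaf K2_ok TX_l3071 _)
        (CovZ.leaf K2_ok TX_l3072 _))))
     (CovZ.n1 (-2032, 7504) (by decide +kernel)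
      (CovZ.n2 (-2048, 7504) (by decide +kernel)
       (CovZ.n2 (-2040, 7512) (by decide +kernel)
        (CovZ.leaf K2_ok TX_l3073 _)
        (CovZ.leaf K2_ok TX_l3074 _))
       (CovZ.n1 (-2040, 7496) (by decide +kernel)
        (CovZ.n2 (-2048, 7496) (by decide +kernel)
         (CovZ.leaf K2_ok TX_l3075 _)
         (CovZ.leaf K2_ok TX_l3076 _))
        (CovZ.leaf K2_ok TX_l3077 _)))
      (CovZ.n1 (-2032, 7520) (by decide +kernel)
       (CovZ.n2 (-2024, 7512) (by decide +kernel)
        (CovZ.leaf K2_ok TX_l3078 _)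
        (CovZ.leaf K2_ok TX_l3079 _))
       (CovZ.n1 (-2040, 7512) (by decide +kernel)
        (CovZ.leaf K2_ok TX_l3080 _)
        (CovZ.leaf K2_ok TX_l3081 _)))))
    (CovZ.n1 (-2016, 7552) (by decide +kernel)
     (CovZ.n2 (-2000, 7536) (by decide +kernel)
      (CovZ.n2 (-2016, 7536) (by decide +kernel)
       (CovZ.n2 (-2008, 7544) (by decide +kernel)
        (CovZ.leaf K2_ok TX_l3082 _)
        (CovZ.n1 (-2016, 7544) (by decide +kernel)
         (CovZ.leaf K2_ok TX_l3083 _)
         (CovZ.leaf K2_ok TX_l3084 _)))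
       (CovZ.n1 (-2008, 7528) (by decide +kernel)
        (CovZ.leaf K2_ok TX_l3085 _)
        (CovZ.leaf K2_ok TX_l3086 _)))
      (CovZ.n1 (-2000, 7552) (by decide +kernel)
       (CovZ.n2 (-1992, 7544) (by decide +kernel)
        (CovZ.n2 (-2000, 7544) (by decide +kernel)
         (CovZ.leaf K2_ok TX_l3087 _)
         (CovZ.leaf K2_ok TX_l3088 _))
        (CovZ.leaf K2_ok TX_l3089 _))
       (CovZ.n1 (-2008, 7544) (by decide +kernel)
        (CovZ.leaf K2_ok TX_l3090 _)
        (CovZ.n1 (-2000, 7544) (by decide +kernel)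
         (CovZ.leaf K2_ok TX_l3091 _)
         (CovZ.leaf K2_ok TX_l3092 _)))))
     (CovZ.n1 (-2032, 7536) (by decide +kernel)
      (CovZ.n2 (-2032, 7552) (by decide +kernel)
       (CovZ.n2 (-2024, 7544) (by decide +kernel)
        (CovZ.leaf K2_ok TX_l3093 _)
        (CovZ.leaf K2_ok TX_l3094 _))
       (CovZ.n1 (-2040, 7544) (by decide +kernel)
        (CovZ.leaf K2_ok TX_l3095 _)
        (CovZ.leaf K2_ok TX_l3096 _)))
      (CovZ.n1 (-2016, 7536) (by decide +kernel)
       (CovZ.n2 (-2024, 7528) (by decide +kernel)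
        (CovZ.leaf K2_ok TX_l3097 _)
        (CovZ.leaf K2_ok TX_l3098 _))
       (CovZ.n1 (-2024, 7544) (by decide +kernel)
        (CovZ.n2 (-2016, 7544) (by decide +kernel)
         (CovZ.leaf K2_ok TX_l3099 _)
         (CovZ.leaf K2_ok TX_l3100 _))
        (CovZ.leaf K2_ok TX_l3101 _)))))))

theorem TX_s5_1 : SqZ TX_M TX_L [0, 7, 4, 3] (-2304) 7424 64 5 1 :=
  SqZ.mk (a := (-1984)) (b := (-1920)) (c := 7488) (d := 7552) (by norm_num) (by norm_num) (by norm_num) (by norm_num)
    (CovZ.topM TX_LL 2 (by decide +kernel) (CovZ.n2 (-1952, 7520) (by decide +kernel)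
    (CovZ.n2 (-1920, 7520) (by decide +kernel)
     (CovZ.n2 (-1936, 7504) (by decide +kernel)
      (CovZ.n2 (-1936, 7520) (by decide +kernel)
       (CovZ.n2 (-1928, 7512) (by decide +kernel)
        (CovZ.n2 (-1936, 7512) (by decide +kernel)
         (CovZ.leaf K2_ok TX_l3666 _)
         (CovZ.leaf K2_ok TX_l3667 _))
        (CovZ.leaf K2_ok TX_l3668 _))
       (CovZ.n1 (-1944, 7512) (by decide +kernel)
        (CovZ.leaf K2_ok TX_l3669 _)
        (CovZ.n1 (-1936, 7512) (by decide +kernel)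
         (CovZ.leaf K2_ok TX_l3670 _)
         (CovZ.leaf K2_ok TX_l3671 _))))
      (CovZ.n1 (-1920, 7504) (by decide +kernel)
       (CovZ.n2 (-1928, 7496) (by decide +kernel)
        (CovZ.leaf K2_ok TX_l3672 _)
        (CovZ.n1 (-1920, 7496) (by decide +kernel)
         (CovZ.leaf K2_ok TX_l3673 _)
         (CovZ.leaf K2_ok TX_l3674 _)))
       (CovZ.n1 (-1928, 7512) (by decide +kernel)
        (CovZ.n2 (-1920, 7512) (by decide +kernel)
         (CovZ.leaf K2_ok TX_l3675 _)
         (CovZ.leaf K2_ok TX_l3676 _))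
        (CovZ.leaf K2_ok TX_l3677 _))))
     (CovZ.n1 (-1936, 7536) (by decide +kernel)
      (CovZ.n2 (-1920, 7536) (by decide +kernel)
       (CovZ.n2 (-1928, 7528) (by decide +kernel)
        (CovZ.n2 (-1928, 7536) (by decide +kernel)
         (CovZ.n2 (-1924, 7532) (by decide +kernel)
          (CovZ.leaf K2_ok TX_l3678 _)
          (CovZ.leaf K2_ok TX_l3679 _))
         (CovZ.n1 (-1932, 7532) (by decide +kernel)
          (CovZ.leaf K2_ok TX_l3680 _)
          (CovZ.leaf K2_ok TX_l3681 _)))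
        (CovZ.n1 (-1920, 7528) (by decide +kernel)
         (CovZ.n2 (-1924, 7524) (by decide +kernel)
          (CovZ.leaf K2_ok TX_l3682 _)
          (CovZ.leaf K2_ok TX_l3683 _))
         (CovZ.n1 (-1924, 7532) (by decide +kernel)
          (CovZ.n2 (-1920, 7532) (by decide +kernel)
           (CovZ.leaf K2_ok TX_l3684 _)
           (CovZ.leaf K2_ok TX_l3685 _))
          (CovZ.leaf K2_ok TX_l3686 _))))
       (CovZ.n1 (-1928, 7544) (by decide +kernel)
        (CovZ.n2 (-1920, 7544) (by decide +kernel)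
         (CovZ.n2 (-1924, 7540) (by decide +kernel)
          (CovZ.leaf K2_ok TX_l3687 _)
          (CovZ.n1 (-1920, 7540) (by decide +kernel)
           (CovZ.n2 (-1922, 7538) (by decide +kernel)
            (CovZ.leaf K2_ok TX_l3688 _)
            (CovZ.leaf K2_ok TX_l3689 _))
           (CovZ.leaf K2_ok TX_l3690 _)))
         (CovZ.n1 (-1924, 7548) (by decide +kernel)
          (CovZ.n2 (-1920, 7548) (by decide +kernel)
           (CovZ.n2 (-1922, 7546) (by decide +kernel)
            (CovZ.n2 (-1922, 7548) (by decide +kernel)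
             (CovZ.leaf K2_ok TX_l3691 _)
             (CovZ.leaf K2_ok TX_l3692 _))
            (CovZ.n1 (-1920, 7546) (by decide +kernel)
             (CovZ.leaf K2_ok TX_l3693 _)
             (CovZ.n1 (-1921, 7547) (by decide +kernel)
              (CovZ.leaf K2_ok TX_l3694 _)
              (CovZ.leaf K2_ok TX_l3695 _))))
           (CovZ.n1 (-1922, 7550) (by decide +kernel)
            (CovZ.n2 (-1920, 7550) (by decide +kernel)
             (CovZ.leaf K2_ok TX_l3696 _)
             (CovZ.leaf K2_ok TX_l3697 _))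
            (CovZ.leaf K2_ok TX_l3698 _)))
          (CovZ.n1 (-1924, 7544) (by decide +kernel)
           (CovZ.n2 (-1926, 7546) (by decide +kernel)
            (CovZ.leaf K2_ok TX_l3699 _)
            (CovZ.leaf K2_ok TX_l3700 _))
           (CovZ.leaf K2_ok TX_l3701 _))))
        (CovZ.n1 (-1928, 7536) (by decide +kernel)
         (CovZ.n2 (-1932, 7540) (by decide +kernel)
          (CovZ.n2 (-1928, 7540) (by decide +kernel)
           (CovZ.leaf K2_ok TX_l3702 _)
           (CovZ.leaf K2_ok TX_l3703 _))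
          (CovZ.leaf K2_ok TX_l3704 _))
         (CovZ.n1 (-1924, 7540) (by decide +kernel)
          (CovZ.leaf K2_ok TX_l3705 _)
          (CovZ.n1 (-1928, 7540) (by decide +kernel)
           (CovZ.leaf K2_ok TX_l3706 _)
           (CovZ.leaf K2_ok TX_l3707 _))))))
      (CovZ.n1 (-1936, 7520) (by decide +kernel)
       (CovZ.n2 (-1944, 7528) (by decide +kernel)
        (CovZ.n2 (-1936, 7528) (by decide +kernel)
         (CovZ.leaf K2_ok TX_l3708 _)
         (CovZ.n1 (-1940, 7532) (by decide +kernel)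
          (CovZ.leaf K2_ok TX_l3709 _)
          (CovZ.leaf K2_ok TX_l3710 _)))
        (CovZ.n1 (-1944, 7520) (by decide +kernel)
         (CovZ.leaf K2_ok TX_l3711 _)
         (CovZ.leaf K2_ok TX_l3712 _)))
       (CovZ.n1 (-1928, 7528) (by decide +kernel)
        (CovZ.n2 (-1928, 7520) (by decide +kernel)
         (CovZ.leaf K2_ok TX_l3713 _)
         (CovZ.leaf K2_ok TX_l3714 _))
        (CovZ.n1 (-1936, 7528) (by decide +kernel)
         (CovZ.n2 (-1932, 7532) (by decide +kernel)
          (CovZ.leaf K2_ok TX_l3715 _)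
          (CovZ.leaf K2_ok TX_l3716 _))
         (CovZ.n1 (-1932, 7524) (by decide +kernel)
          (CovZ.leaf K2_ok TX_l3717 _)
          (CovZ.leaf K2_ok TX_l3718 _)))))))
    (CovZ.n1 (-1952, 7488) (by decide +kernel)
     (CovZ.n2 (-1968, 7504) (by decide +kernel)
      (CovZ.n2 (-1952, 7504) (by decide +kernel)
       (CovZ.n2 (-1960, 7496) (by decide +kernel)
        (CovZ.leaf K2_ok TX_l3719 _)
        (CovZ.leaf K2_ok TX_l3720 _))
       (CovZ.n1 (-1960, 7512) (by decide +kernel)
        (CovZ.n2 (-1952, 7512) (by decide +kernel)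
         (CovZ.leaf K2_ok TX_l3721 _)
         (CovZ.leaf K2_ok TX_l3722 _))
        (CovZ.leaf K2_ok TX_l3723 _)))
      (CovZ.n1 (-1968, 7488) (by decide +kernel)
       (CovZ.n2 (-1976, 7496) (by decide +kernel)
        (CovZ.leaf K2_ok TX_l3724 _)
        (CovZ.leaf K2_ok TX_l3725 _))
       (CovZ.n1 (-1960, 7496) (by decide +kernel)
        (CovZ.leaf K2_ok TX_l3726 _)
        (CovZ.leaf K2_ok TX_l3727 _))))
     (CovZ.n1 (-1936, 7504) (by decide +kernel)
      (CovZ.n2 (-1936, 7488) (by decide +kernel)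
       (CovZ.n2 (-1944, 7496) (by decide +kernel)
        (CovZ.leaf K2_ok TX_l3728 _)
        (CovZ.leaf K2_ok TX_l3729 _))
       (CovZ.n1 (-1928, 7496) (by decide +kernel)
        (CovZ.leaf K2_ok TX_l3730 _)
        (CovZ.n1 (-1936, 7496) (by decide +kernel)
         (CovZ.leaf K2_ok TX_l3731 _)
         (CovZ.leaf K2_ok TX_l3732 _))))
      (CovZ.n1 (-1952, 7504) (by decide +kernel)
       (CovZ.n2 (-1944, 7512) (by decide +kernel)
        (CovZ.leaf K2_ok TX_l3733 _)
        (CovZ.n1 (-1952, 7512) (by decide +kernel)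
         (CovZ.leaf K2_ok TX_l3734 _)
         (CovZ.leaf K2_ok TX_l3735 _)))
       (CovZ.n1 (-1944, 7496) (by decide +kernel)
        (CovZ.leaf K2_ok TX_l3736 _)
        (CovZ.leaf K2_ok TX_l3737 _)))))))
    (CovZ.topM TX_LL 3 (by decide +kernel) (CovZ.n0 (-1952, 7520) (by decide +kernel)
    (CovZ.n2 (-1984, 7520) (by decide +kernel)
     (CovZ.n2 (-1968, 7536) (by decide +kernel)
      (CovZ.n2 (-1968, 7520) (by decide +kernel)
       (CovZ.n2 (-1976, 7528) (by decide +kernel)
        (CovZ.n2 (-1968, 7528) (by decide +kernel)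
         (CovZ.leaf K2_ok TX_l3738 _)
         (CovZ.leaf K2_ok TX_l3739 _))
        (CovZ.leaf K2_ok TX_l3740 _))
       (CovZ.n1 (-1960, 7528) (by decide +kernel)
        (CovZ.leaf K2_ok TX_l3741 _)
        (CovZ.n1 (-1968, 7528) (by decide +kernel)
         (CovZ.leaf K2_ok TX_l3742 _)
         (CovZ.leaf K2_ok TX_l3743 _))))
      (CovZ.n1 (-1984, 7536) (by decide +kernel)
       (CovZ.n2 (-1976, 7544) (by decide +kernel)
        (CovZ.n2 (-1976, 7536) (by decide +kernel)
         (CovZ.leaf K2_ok TX_l3744 _)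
         (CovZ.leaf K2_ok TX_l3745 _))
        (CovZ.n1 (-1984, 7544) (by decide +kernel)
         (CovZ.leaf K2_ok TX_l3746 _)
         (CovZ.leaf K2_ok TX_l3747 _)))
       (CovZ.n1 (-1976, 7528) (by decide +kernel)
        (CovZ.n2 (-1984, 7528) (by decide +kernel)
         (CovZ.leaf K2_ok TX_l3748 _)
         (CovZ.leaf K2_ok TX_l3749 _))
        (CovZ.leaf K2_ok TX_l3750 _))))
     (CovZ.n1 (-1968, 7504) (by decide +kernel)
      (CovZ.n2 (-1984, 7504) (by decide +kernel)
       (CovZ.n2 (-1976, 7512) (by decide +kernel)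
        (CovZ.leaf K2_ok TX_l3751 _)
        (CovZ.leaf K2_ok TX_l3752 _))
       (CovZ.n1 (-1976, 7496) (by decide +kernel)
        (CovZ.leaf K2_ok TX_l3753 _)
        (CovZ.n1 (-1976, 7504) (by decide +kernel)
         (CovZ.leaf K2_ok TX_l3754 _)
         (CovZ.leaf K2_ok TX_l3755 _))))
      (CovZ.n1 (-1968, 7520) (by decide +kernel)
       (CovZ.n2 (-1960, 7512) (by decide +kernel)
        (CovZ.n2 (-1968, 7512) (by decide +kernel)
         (CovZ.leaf K2_ok TX_l3756 _)
         (CovZ.leaf K2_ok TX_l3757 _))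
        (CovZ.leaf K2_ok TX_l3758 _))
       (CovZ.n1 (-1976, 7512) (by decide +kernel)
        (CovZ.leaf K2_ok TX_l3759 _)
        (CovZ.n1 (-1968, 7512) (by decide +kernel)
         (CovZ.leaf K2_ok TX_l3760 _)
         (CovZ.leaf K2_ok TX_l3761 _))))))
    (CovZ.n1 (-1952, 7552) (by decide +kernel)
     (CovZ.n2 (-1936, 7536) (by decide +kernel)
      (CovZ.n2 (-1952, 7536) (by decide +kernel)
       (CovZ.n2 (-1944, 7544) (by decide +kernel)
        (CovZ.n2 (-1944, 7536) (by decide +kernel)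
         (CovZ.n2 (-1948, 7540) (by decide +kernel)
          (CovZ.n2 (-1944, 7540) (by decide +kernel)
           (CovZ.leaf K2_ok TX_l3762 _)
           (CovZ.leaf K2_ok TX_l3763 _))
          (CovZ.leaf K2_ok TX_l3764 _))
         (CovZ.n1 (-1940, 7540) (by decide +kernel)
          (CovZ.leaf K2_ok TX_l3765 _)
          (CovZ.leaf K2_ok TX_l3766 _)))
        (CovZ.n1 (-1952, 7544) (by decide +kernel)
         (CovZ.n2 (-1948, 7548) (by decide +kernel)
          (CovZ.leaf K2_ok TX_l3767 _)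
          (CovZ.n1 (-1952, 7548) (by decide +kernel)
           (CovZ.leaf K2_ok TX_l3768 _)
           (CovZ.leaf K2_ok TX_l3769 _)))
         (CovZ.n1 (-1948, 7540) (by decide +kernel)
          (CovZ.leaf K2_ok TX_l3770 _)
          (CovZ.leaf K2_ok TX_l3771 _))))
       (CovZ.n1 (-1944, 7528) (by decide +kernel)
        (CovZ.n2 (-1952, 7528) (by decide +kernel)
         (CovZ.leaf K2_ok TX_l3772 _)
         (CovZ.leaf K2_ok TX_l3773 _))
        (CovZ.n1 (-1944, 7536) (by decide +kernel)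
         (CovZ.n2 (-1940, 7532) (by decide +kernel)
          (CovZ.leaf K2_ok TX_l3774 _)
          (CovZ.leaf K2_ok TX_l3775 _))
         (CovZ.leaf K2_ok TX_l3776 _))))
      (CovZ.n1 (-1936, 7552) (by decide +kernel)
       (CovZ.n2 (-1928, 7544) (by decide +kernel)
        (CovZ.n2 (-1936, 7544) (by decide +kernel)
         (CovZ.n2 (-1932, 7548) (by decide +kernel)
          (CovZ.n2 (-1932, 7544) (by decide +kernel)
           (CovZ.leaf K2_ok TX_l3777 _)
           (CovZ.leaf K2_ok TX_l3778 _))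
          (CovZ.n1 (-1936, 7548) (by decide +kernel)
           (CovZ.leaf K2_ok TX_l3779 _)
           (CovZ.leaf K2_ok TX_l3780 _)))
         (CovZ.n1 (-1932, 7540) (by decide +kernel)
          (CovZ.n2 (-1936, 7540) (by decide +kernel)
           (CovZ.leaf K2_ok TX_l3781 _)
           (CovZ.leaf K2_ok TX_l3782 _))
          (CovZ.leaf K2_ok TX_l3783 _)))
        (CovZ.n1 (-1928, 7552) (by decide +kernel)
         (CovZ.n2 (-1924, 7548) (by decide +kernel)
          (CovZ.n2 (-1928, 7548) (by decide +kernel)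
           (CovZ.n2 (-1926, 7550) (by decide +kernel)
            (CovZ.leaf K2_ok TX_l3784 _)
            (CovZ.n1 (-1928, 7550) (by decide +kernel)
             (CovZ.leaf K2_ok TX_l3785 _)
             (CovZ.leaf K2_ok TX_l3786 _)))
           (CovZ.n1 (-1926, 7546) (by decide +kernel)
            (CovZ.leaf K2_ok TX_l3787 _)
            (CovZ.leaf K2_ok TX_l3788 _)))
          (CovZ.n1 (-1924, 7552) (by decide +kernel)
           (CovZ.n2 (-1922, 7550) (by decide +kernel)
            (CovZ.n2 (-1924, 7550) (by decide +kernel)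
             (CovZ.leaf K2_ok TX_l3789 _)
             (CovZ.n1 (-1923, 7549) (by decide +kernel)
              (CovZ.leaf K2_ok TX_l3790 _)
              (CovZ.leaf K2_ok TX_l3791 _)))
            (CovZ.leaf K2_ok TX_l3792 _))
           (CovZ.n1 (-1926, 7550) (by decide +kernel)
            (CovZ.n2 (-1926, 7552) (by decide +kernel)
             (CovZ.n2 (-1925, 7551) (by decide +kernel)
              (CovZ.leaf K2_ok TX_l3793 _)
              (CovZ.leaf K2_ok TX_l3794 _))
             (CovZ.leaf K2_ok TX_l3795 _))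
            (CovZ.n1 (-1924, 7550) (by decide +kernel)
             (CovZ.leaf K2_ok TX_l3796 _)
             (CovZ.n1 (-1925, 7551) (by decide +kernel)
              (CovZ.leaf K2_ok TX_l3797 _)
              (CovZ.leaf K2_ok TX_l3798 _))))))
         (CovZ.n1 (-1932, 7548) (by decide +kernel)
          (CovZ.n2 (-1932, 7552) (by decide +kernel)
           (CovZ.n2 (-1930, 7550) (by decide +kernel)
            (CovZ.n2 (-1932, 7550) (by decide +kernel)
             (CovZ.leaf K2_ok TX_l3799 _)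
             (CovZ.leaf K2_ok TX_l3800 _))
            (CovZ.n1 (-1930, 7552) (by decide +kernel)
             (CovZ.leaf K2_ok TX_l3801 _)
             (CovZ.leaf K2_ok TX_l3802 _)))
           (CovZ.leaf K2_ok TX_l3803 _))
          (CovZ.n1 (-1928, 7548) (by decide +kernel)
           (CovZ.leaf K2_ok TX_l3804 _)
           (CovZ.leaf K2_ok TX_l3805 _)))))
       (CovZ.n1 (-1944, 7544) (by decide +kernel)
        (CovZ.n2 (-1944, 7552) (by decide +kernel)
         (CovZ.n2 (-1940, 7548) (by decide +kernel)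
          (CovZ.n2 (-1944, 7548) (by decide +kernel)
           (CovZ.leaf K2_ok TX_l3806 _)
           (CovZ.leaf K2_ok TX_l3807 _))
          (CovZ.leaf K2_ok TX_l3808 _))
         (CovZ.n1 (-1948, 7548) (by decide +kernel)
          (CovZ.leaf K2_ok TX_l3809 _)
          (CovZ.n1 (-1944, 7548) (by decide +kernel)
           (CovZ.leaf K2_ok TX_l3810 _)
           (CovZ.leaf K2_ok TX_l3811 _))))
        (CovZ.n1 (-1936, 7544) (by decide +kernel)
         (CovZ.n2 (-1940, 7540) (by decide +kernel)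
          (CovZ.leaf K2_ok TX_l3812 _)
          (CovZ.n1 (-1936, 7540) (by decide +kernel)
           (CovZ.leaf K2_ok TX_l3813 _)
           (CovZ.leaf K2_ok TX_l3814 _)))
         (CovZ.n1 (-1940, 7548) (by decide +kernel)
          (CovZ.n2 (-1936, 7548) (by decide +kernel)
           (CovZ.n2 (-1938, 7546) (by decide +kernel)
            (CovZ.leaf K2_ok TX_l3815 _)
            (CovZ.leaf K2_ok TX_l3816 _))
           (CovZ.leaf K2_ok TX_l3817 _))
          (CovZ.leaf K2_ok TX_l3818 _))))))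
     (CovZ.n1 (-1968, 7536) (by decide +kernel)
      (CovZ.n2 (-1968, 7552) (by decide +kernel)
       (CovZ.n2 (-1960, 7544) (by decide +kernel)
        (CovZ.n2 (-1968, 7544) (by decide +kernel)
         (CovZ.n2 (-1964, 7548) (by decide +kernel)
          (CovZ.leaf K2_ok TX_l3819 _)
          (CovZ.leaf K2_ok TX_l3820 _))
         (CovZ.n1 (-1964, 7540) (by decide +kernel)
          (CovZ.leaf K2_ok TX_l3821 _)
          (CovZ.leaf K2_ok TX_l3822 _)))
        (CovZ.n1 (-1960, 7552) (by decide +kernel)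
         (CovZ.n2 (-1956, 7548) (by decide +kernel)
          (CovZ.n2 (-1960, 7548) (by decide +kernel)
           (CovZ.leaf K2_ok TX_l3823 _)
           (CovZ.leaf K2_ok TX_l3824 _))
          (CovZ.leaf K2_ok TX_l3825 _))
         (CovZ.n1 (-1964, 7548) (by decide +kernel)
          (CovZ.leaf K2_ok TX_l3826 _)
          (CovZ.n1 (-1960, 7548) (by decide +kernel)
           (CovZ.leaf K2_ok TX_l3827 _)
           (CovZ.leaf K2_ok TX_l3828 _)))))
       (CovZ.n1 (-1976, 7544) (by decide +kernel)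
        (CovZ.n2 (-1976, 7552) (by decide +kernel)
         (CovZ.n2 (-1972, 7548) (by decide +kernel)
          (CovZ.leaf K2_ok TX_l3829 _)
          (CovZ.leaf K2_ok TX_l3830 _))
         (CovZ.leaf K2_ok TX_l3831 _))
        (CovZ.n1 (-1968, 7544) (by decide +kernel)
         (CovZ.leaf K2_ok TX_l3832 _)
         (CovZ.n1 (-1972, 7548) (by decide +kernel)
          (CovZ.leaf K2_ok TX_l3833 _)
          (CovZ.leaf K2_ok TX_l3834 _)))))
      (CovZ.n1 (-1952, 7536) (by decide +kernel)
       (CovZ.n2 (-1960, 7528) (by decide +kernel)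
        (CovZ.n2 (-1960, 7536) (by decide +kernel)
         (CovZ.n2 (-1956, 7532) (by decide +kernel)
          (CovZ.leaf K2_ok TX_l3835 _)
          (CovZ.leaf K2_ok TX_l3836 _))
         (CovZ.leaf K2_ok TX_l3837 _))
        (CovZ.n1 (-1952, 7528) (by decide +kernel)
         (CovZ.leaf K2_ok TX_l3838 _)
         (CovZ.n1 (-1956, 7532) (by decide +kernel)
          (CovZ.leaf K2_ok TX_l3839 _)
          (CovZ.leaf K2_ok TX_l3840 _))))
       (CovZ.n1 (-1960, 7544) (by decide +kernel)
        (CovZ.n2 (-1952, 7544) (by decide +kernel)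
         (CovZ.leaf K2_ok TX_l3841 _)
         (CovZ.n1 (-1956, 7548) (by decide +kernel)
          (CovZ.n2 (-1952, 7548) (by decide +kernel)
           (CovZ.leaf K2_ok TX_l3842 _)
           (CovZ.leaf K2_ok TX_l3843 _))
          (CovZ.leaf K2_ok TX_l3844 _)))
        (CovZ.n1 (-1960, 7536) (by decide +kernel)
         (CovZ.leaf K2_ok TX_l3845 _)
         (CovZ.leaf K2_ok TX_l3846 _))))))))

end Pool.Agent.TET
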