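import Pool.Agent.Helper38_TET.TX_M
import Pool.Agent.Helper38_TET.TX_L
import Pool.Agent.Helper38_TET.TX_12
import Pool.Agent.Helper38_TET.TX_13
import Pool.Agent.Helper38_TET.TX_14
import Pool.Agent.Helper38_TET.TX_17
import Pool.Agent.Helper38_TET.TX_18
import Pool.Agent.Helper38_TET.TX_19
import Pool.Agent.Helper38_TET.TX_U0

/-!
# MP_c7c9bf_co: certificates, family TX
-/

set_option autoImplicit false
set_option maxRecDepth 100000

namespace Pool.Agent.TET

theorem TX_u15 : CovZ TX_M (toL (selN TX_LN 3)) [0, 7, 4, 3] (-2160, 7664) (-2144, 7648) (-2144, 7680) :=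
    (CovZ.n1 (-2144, 7664) (by decide +kernel)
       (CovZ.n2 (-2152, 7656) (by decide +kernel)
        (CovZ.n2 (-2152, 7664) (by decide +kernel)
         (CovZ.n2 (-2148, 7660) (by decide +kernel)
          (CovZ.n2 (-2152, 7660) (by decide +kernel)
           (CovZ.leaf K2_ok TX_l2092 _)
           (CovZ.n1 (-2150, 7658) (by decide +kernel)
            (CovZ.leaf K2_ok TX_l2093 _)
            (CovZ.leaf K2_ok TX_l2094 _)))
          (CovZ.n1 (-2148, 7664) (by decide +kernel)
           (CovZ.n2 (-2146, 7662) (by decide +kernel)
            (CovZ.n2 (-2148, 7662) (by decide +kernel)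
             (CovZ.leaf K2_ok TX_l2095 _)
             (CovZ.leaf K2_ok TX_l2096 _))
            (CovZ.leaf K2_ok TX_l2097 _))
           (CovZ.n1 (-2150, 7662) (by decide +kernel)
            (CovZ.leaf K2_ok TX_l2098 _)
            (CovZ.n1 (-2148, 7662) (by decide +kernel)
             (CovZ.leaf K2_ok TX_l2099 _)
             (CovZ.leaf K2_ok TX_l2100 _)))))
         (CovZ.n1 (-2156, 7660) (by decide +kernel)
          (CovZ.n2 (-2156, 7664) (by decide +kernel)
           (CovZ.n2 (-2154, 7662) (by decide +kernel)
            (CovZ.leaf K2_ok TX_l2101 _)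
            (CovZ.leaf K2_ok TX_l2102 _))
           (CovZ.leaf K2_ok TX_l2103 _))
          (CovZ.n1 (-2152, 7660) (by decide +kernel)
           (CovZ.leaf K2_ok TX_l2104 _)
           (CovZ.n1 (-2154, 7662) (by decide +kernel)
            (CovZ.leaf K2_ok TX_l2105 _)
            (CovZ.leaf K2_ok TX_l2106 _)))))
        (CovZ.n1 (-2144, 7656) (by decide +kernel)
         (CovZ.n2 (-2148, 7652) (by decide +kernel)
          (CovZ.n2 (-2148, 7656) (by decide +kernel)
           (CovZ.leaf K2_ok TX_l2107 _)
           (CovZ.leaf K2_ok TX_l2108 _))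
          (CovZ.n1 (-2144, 7652) (by decide +kernel)
           (CovZ.leaf K2_ok TX_l2109 _)
           (CovZ.leaf K2_ok TX_l2110 _)))
         (CovZ.n1 (-2148, 7660) (by decide +kernel)
          (CovZ.n2 (-2144, 7660) (by decide +kernel)
           (CovZ.leaf K2_ok TX_l2111 _)
           (CovZ.n1 (-2146, 7662) (by decide +kernel)
            (CovZ.n2 (-2144, 7662) (by decide +kernel)
             (CovZ.leaf K2_ok TX_l2112 _)
             (CovZ.leaf K2_ok TX_l2113 _))
            (CovZ.leaf K2_ok TX_l2114 _)))
          (CovZ.n1 (-2148, 7656) (by decide +kernel)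
           (CovZ.n2 (-2150, 7658) (by decide +kernel)
            (CovZ.leaf K2_ok TX_l2115 _)
            (CovZ.leaf K2_ok TX_l2116 _))
           (CovZ.leaf K2_ok TX_l2117 _)))))
       (CovZ.n1 (-2152, 7672) (by decide +kernel)
        (CovZ.n2 (-2144, 7672) (by decide +kernel)
         (CovZ.n2 (-2148, 7668) (by decide +kernel)
          (CovZ.n2 (-2148, 7672) (by decide +kernel)
           (CovZ.n2 (-2146, 7670) (by decide +kernel)
            (CovZ.n2 (-2148, 7670) (by decide +kernel)
             (CovZ.badM (by decide +kernel))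
             (CovZ.n1 (-2147, 7669) (by decide +kernel)
              (CovZ.leaf K2_ok TX_l2120 _)
              (CovZ.badM (by decide +kernel))))
            (CovZ.badM (by decide +kernel)))
           (CovZ.n1 (-2150, 7670) (by decide +kernel)
            (CovZ.n2 (-2150, 7672) (by decide +kernel)
             (CovZ.n2 (-2149, 7671) (by decide +kernel)
              (CovZ.leaf K2_ok TX_l2123 _)
              (CovZ.badM (by decide +kernel)))
             (CovZ.n1 (-2151, 7671) (by decide +kernel)
              (CovZ.badM (by decide +kernel))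
              (CovZ.leaf K2_ok TX_l2126 _)))
            (CovZ.n1 (-2148, 7670) (by decide +kernel)
             (CovZ.leaf K2_ok TX_l2127 _)
             (CovZ.n1 (-2149, 7671) (by decide +kernel)
              (CovZ.badM (by decide +kernel))
              (CovZ.leaf K2_ok TX_l2129 _)))))
          (CovZ.n1 (-2144, 7668) (by decide +kernel)
           (CovZ.n2 (-2146, 7666) (by decide +kernel)
            (CovZ.n2 (-2146, 7668) (by decide +kernel)
             (CovZ.n2 (-2145, 7667) (by decide +kernel)
              (CovZ.leaf K2_ok TX_l2130 _)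
              (CovZ.leaf K2_ok TX_l2131 _))
             (CovZ.leaf K2_ok TX_l2132 _))
            (CovZ.n1 (-2144, 7666) (by decide +kernel)
             (CovZ.leaf K2_ok TX_l2133 _)
             (CovZ.leaf K2_ok TX_l2134 _)))
           (CovZ.n1 (-2146, 7670) (by decide +kernel)
            (CovZ.badM (by decide +kernel))
            (CovZ.n1 (-2146, 7668) (by decide +kernel)
             (CovZ.n2 (-2147, 7669) (by decide +kernel)
              (CovZ.leaf K2_ok TX_l2135 _)
              (CovZ.leaf K2_ok TX_l2136 _))
             (CovZ.n1 (-2145, 7669) (by decide +kernel)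
              (CovZ.leaf K2_ok TX_l2137 _)
              (CovZ.leaf K2_ok TX_l2138 _))))))
         (CovZ.badM (by decide +kernel)))
        (CovZ.n1 (-2152, 7664) (by decide +kernel)
         (CovZ.n2 (-2156, 7668) (by decide +kernel)
          (CovZ.n2 (-2152, 7668) (by decide +kernel)
           (CovZ.n2 (-2154, 7666) (by decide +kernel)
            (CovZ.n2 (-2154, 7668) (by decide +kernel)
             (CovZ.n2 (-2153, 7667) (by decide +kernel)
              (CovZ.leaf K2_ok TX_l2140 _)
              (CovZ.leaf K2_ok TX_l2141 _))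
             (CovZ.leaf K2_ok TX_l2142 _))
            (CovZ.n1 (-2152, 7666) (by decide +kernel)
             (CovZ.leaf K2_ok TX_l2143 _)
             (CovZ.leaf K2_ok TX_l2144 _)))
           (CovZ.n1 (-2154, 7670) (by decide +kernel)
            (CovZ.n2 (-2152, 7670) (by decide +kernel)
             (CovZ.leaf K2_ok TX_l2145 _)
             (CovZ.n1 (-2153, 7671) (by decide +kernel)
              (CovZ.n2 (-2152, 7671) (by decide +kernel)
               (CovZ.leaf K2_ok TX_l2146 _)
               (CovZ.leaf K2_ok TX_l2147 _))
              (CovZ.leaf K2_ok TX_l2148 _)))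
            (CovZ.n1 (-2154, 7668) (by decide +kernel)
             (CovZ.leaf K2_ok TX_l2149 _)
             (CovZ.leaf K2_ok TX_l2150 _))))
          (CovZ.n1 (-2156, 7664) (by decide +kernel)
           (CovZ.n2 (-2158, 7666) (by decide +kernel)
            (CovZ.n2 (-2156, 7666) (by decide +kernel)
             (CovZ.leaf K2_ok TX_l2151 _)
             (CovZ.leaf K2_ok TX_l2152 _))
            (CovZ.leaf K2_ok TX_l2153 _))
           (CovZ.n1 (-2154, 7666) (by decide +kernel)
            (CovZ.leaf K2_ok TX_l2154 _)
            (CovZ.n1 (-2156, 7666) (by decide +kernel)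
             (CovZ.leaf K2_ok TX_l2155 _)
             (CovZ.leaf K2_ok TX_l2156 _)))))
         (CovZ.n1 (-2148, 7668) (by decide +kernel)
          (CovZ.n2 (-2148, 7664) (by decide +kernel)
           (CovZ.n2 (-2150, 7666) (by decide +kernel)
            (CovZ.n2 (-2148, 7666) (by decide +kernel)
             (CovZ.leaf K2_ok TX_l2157 _)
             (CovZ.leaf K2_ok TX_l2158 _))
            (CovZ.leaf K2_ok TX_l2159 _))
           (CovZ.n1 (-2146, 7666) (by decide +kernel)
            (CovZ.leaf K2_ok TX_l2160 _)
            (CovZ.n1 (-2148, 7666) (by decide +kernel)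
             (CovZ.leaf K2_ok TX_l2161 _)
             (CovZ.leaf K2_ok TX_l2162 _))))
          (CovZ.n1 (-2152, 7668) (by decide +kernel)
           (CovZ.n2 (-2150, 7670) (by decide +kernel)
            (CovZ.leaf K2_ok TX_l2163 _)
            (CovZ.n1 (-2152, 7670) (by decide +kernel)
             (CovZ.n2 (-2151, 7671) (by decide +kernel)
              (CovZ.leaf K2_ok TX_l2164 _)
              (CovZ.leaf K2_ok TX_l2165 _))
             (CovZ.leaf K2_ok TX_l2166 _)))
           (CovZ.n1 (-2150, 7666) (by decide +kernel)
            (CovZ.n2 (-2152, 7666) (by decide +kernel)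
             (CovZ.leaf K2_ok TX_l2167 _)
             (CovZ.leaf K2_ok TX_l2168 _))
            (CovZ.leaf K2_ok TX_l2169 _)))))))

theorem TX_u16 : CovZ TX_M (toL (selN TX_LN 3)) [0, 7, 4, 3] (-2176, 7616) (-2144, 7648) (-2176, 7680) :=
    (CovZ.n2 (-2176, 7648) (by decide +kernel)
     (CovZ.n2 (-2160, 7664) (by decide +kernel)
      (CovZ.n2 (-2160, 7648) (by decide +kernel)
       (CovZ.n2 (-2168, 7656) (by decide +kernel)
        (CovZ.n2 (-2160, 7656) (by decide +kernel)
         (CovZ.n2 (-2164, 7652) (by decide +kernel)
          (CovZ.leaf K2_ok TX_l1881 _)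
          (CovZ.n1 (-2160, 7652) (by decide +kernel)
           (CovZ.leaf K2_ok TX_l1882 _)
           (CovZ.leaf K2_ok TX_l1883 _)))
         (CovZ.n1 (-2164, 7660) (by decide +kernel)
          (CovZ.n2 (-2160, 7660) (by decide +kernel)
           (CovZ.leaf K2_ok TX_l1884 _)
           (CovZ.leaf K2_ok TX_l1885 _))
          (CovZ.leaf K2_ok TX_l1886 _)))
        (CovZ.n1 (-2168, 7648) (by decide +kernel)
         (CovZ.n2 (-2172, 7652) (by decide +kernel)
          (CovZ.leaf K2_ok TX_l1887 _)
          (CovZ.leaf K2_ok TX_l1888 _))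
         (CovZ.n1 (-2164, 7652) (by decide +kernel)
          (CovZ.leaf K2_ok TX_l1889 _)
          (CovZ.leaf K2_ok TX_l1890 _))))
       (CovZ.n1 (-2152, 7656) (by decide +kernel)
        (CovZ.n2 (-2152, 7648) (by decide +kernel)
         (CovZ.n2 (-2156, 7652) (by decide +kernel)
          (CovZ.n2 (-2152, 7652) (by decide +kernel)
           (CovZ.leaf K2_ok TX_l1891 _)
           (CovZ.leaf K2_ok TX_l1892 _))
          (CovZ.leaf K2_ok TX_l1893 _))
         (CovZ.n1 (-2148, 7652) (by decide +kernel)
          (CovZ.leaf K2_ok TX_l1894 _)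
          (CovZ.n1 (-2152, 7652) (by decide +kernel)
           (CovZ.leaf K2_ok TX_l1895 _)
           (CovZ.leaf K2_ok TX_l1896 _))))
        (CovZ.n1 (-2160, 7656) (by decide +kernel)
         (CovZ.n2 (-2156, 7660) (by decide +kernel)
          (CovZ.n2 (-2156, 7656) (by decide +kernel)
           (CovZ.leaf K2_ok TX_l1897 _)
           (CovZ.leaf K2_ok TX_l1898 _))
          (CovZ.n1 (-2160, 7660) (by decide +kernel)
           (CovZ.leaf K2_ok TX_l1899 _)
           (CovZ.n1 (-2158, 7658) (by decide +kernel)
            (CovZ.leaf K2_ok TX_l1900 _)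
            (CovZ.leaf K2_ok TX_l1901 _))))
         (CovZ.n1 (-2156, 7652) (by decide +kernel)
          (CovZ.n2 (-2160, 7652) (by decide +kernel)
           (CovZ.leaf K2_ok TX_l1902 _)
           (CovZ.leaf K2_ok TX_l1903 _))
          (CovZ.leaf K2_ok TX_l1904 _)))))
      (CovZ.n1 (-2176, 7664) (by decide +kernel)
       (CovZ.n2 (-2168, 7672) (by decide +kernel)
        (CovZ.n2 (-2168, 7664) (by decide +kernel)
         (CovZ.n2 (-2172, 7668) (by decide +kernel)
          (CovZ.n2 (-2168, 7668) (by decide +kernel)
           (CovZ.leaf K2_ok TX_l1905 _)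
           (CovZ.n1 (-2170, 7670) (by decide +kernel)
            (CovZ.leaf K2_ok TX_l1906 _)
            (CovZ.leaf K2_ok TX_l1907 _)))
          (CovZ.leaf K2_ok TX_l1908 _))
         (CovZ.n1 (-2164, 7668) (by decide +kernel)
          (CovZ.n2 (-2164, 7664) (by decide +kernel)
           (CovZ.n2 (-2166, 7666) (by decide +kernel)
            (CovZ.leaf K2_ok TX_l1909 _)
            (CovZ.leaf K2_ok TX_l1910 _))
           (CovZ.leaf K2_ok TX_l1911 _))
          (CovZ.n1 (-2168, 7668) (by decide +kernel)
           (CovZ.n2 (-2166, 7670) (by decide +kernel)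
            (CovZ.leaf K2_ok TX_l1912 _)
            (CovZ.leaf K2_ok TX_l1913 _))
           (CovZ.n1 (-2166, 7666) (by decide +kernel)
            (CovZ.leaf K2_ok TX_l1914 _)
            (CovZ.leaf K2_ok TX_l1915 _)))))
        (CovZ.n1 (-2176, 7672) (by decide +kernel)
         (CovZ.n2 (-2172, 7676) (by decide +kernel)
          (CovZ.n2 (-2172, 7672) (by decide +kernel)
           (CovZ.n2 (-2174, 7674) (by decide +kernel)
            (CovZ.n2 (-2172, 7674) (by decide +kernel)
             (CovZ.leaf K2_ok TX_l1916 _)
             (CovZ.leaf K2_ok TX_l1917 _))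
            (CovZ.leaf K2_ok TX_l1918 _))
           (CovZ.n1 (-2170, 7674) (by decide +kernel)
            (CovZ.leaf K2_ok TX_l1919 _)
            (CovZ.n1 (-2172, 7674) (by decide +kernel)
             (CovZ.leaf K2_ok TX_l1920 _)
             (CovZ.leaf K2_ok TX_l1921 _))))
          (CovZ.n1 (-2176, 7676) (by decide +kernel)
           (CovZ.badM (by decide +kernel))
           (CovZ.n1 (-2174, 7674) (by decide +kernel)
            (CovZ.leaf K2_ok TX_l1922 _)
            (CovZ.leaf K2_ok TX_l1923 _))))
         (CovZ.n1 (-2172, 7668) (by decide +kernel)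
          (CovZ.n2 (-2176, 7668) (by decide +kernel)
           (CovZ.leaf K2_ok TX_l1924 _)
           (CovZ.n1 (-2174, 7666) (by decide +kernel)
            (CovZ.leaf K2_ok TX_l1925 _)
            (CovZ.leaf K2_ok TX_l1926 _)))
          (CovZ.n1 (-2172, 7672) (by decide +kernel)
           (CovZ.n2 (-2170, 7670) (by decide +kernel)
            (CovZ.leaf K2_ok TX_l1927 _)
            (CovZ.leaf K2_ok TX_l1928 _))
           (CovZ.leaf K2_ok TX_l1929 _)))))
       (CovZ.n1 (-2168, 7656) (by decide +kernel)
        (CovZ.n2 (-2176, 7656) (by decide +kernel)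
         (CovZ.n2 (-2172, 7660) (by decide +kernel)
          (CovZ.leaf K2_ok TX_l1930 _)
          (CovZ.n1 (-2176, 7660) (by decide +kernel)
           (CovZ.leaf K2_ok TX_l1931 _)
           (CovZ.leaf K2_ok TX_l1932 _)))
         (CovZ.n1 (-2172, 7652) (by decide +kernel)
          (CovZ.leaf K2_ok TX_l1933 _)
          (CovZ.leaf K2_ok TX_l1934 _)))
        (CovZ.n1 (-2168, 7664) (by decide +kernel)
         (CovZ.n2 (-2164, 7660) (by decide +kernel)
          (CovZ.n2 (-2168, 7660) (by decide +kernel)
           (CovZ.leaf K2_ok TX_l1935 _)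
           (CovZ.leaf K2_ok TX_l1936 _))
          (CovZ.n1 (-2164, 7664) (by decide +kernel)
           (CovZ.leaf K2_ok TX_l1937 _)
           (CovZ.leaf K2_ok TX_l1938 _)))
         (CovZ.n1 (-2172, 7660) (by decide +kernel)
          (CovZ.leaf K2_ok TX_l1939 _)
          (CovZ.n1 (-2168, 7660) (by decide +kernel)
           (CovZ.leaf K2_ok TX_l1940 _)
           (CovZ.leaf K2_ok TX_l1941 _)))))))
     (CovZ.n1 (-2160, 7632) (by decide +kernel)
      (CovZ.n2 (-2176, 7632) (by decide +kernel)
       (CovZ.n2 (-2168, 7640) (by decide +kernel)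
        (CovZ.n2 (-2168, 7632) (by decide +kernel)
         (CovZ.leaf K2_ok TX_l1942 _)
         (CovZ.leaf K2_ok TX_l1943 _))
        (CovZ.n1 (-2176, 7640) (by decide +kernel)
         (CovZ.leaf K2_ok TX_l1944 _)
         (CovZ.leaf K2_ok TX_l1945 _)))
       (CovZ.n1 (-2168, 7624) (by decide +kernel)
        (CovZ.n2 (-2176, 7624) (by decide +kernel)
         (CovZ.leaf K2_ok TX_l1946 _)
         (CovZ.leaf K2_ok TX_l1947 _))
        (CovZ.leaf K2_ok TX_l1948 _)))
      (CovZ.n1 (-2160, 7648) (by decide +kernel)
       (CovZ.n2 (-2152, 7640) (by decide +kernel)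
        (CovZ.n2 (-2160, 7640) (by decide +kernel)
         (CovZ.n2 (-2156, 7644) (by decide +kernel)
          (CovZ.leaf K2_ok TX_l1949 _)
          (CovZ.leaf K2_ok TX_l1950 _))
         (CovZ.leaf K2_ok TX_l1951 _))
        (CovZ.n1 (-2152, 7648) (by decide +kernel)
         (CovZ.n2 (-2148, 7644) (by decide +kernel)
          (CovZ.leaf K2_ok TX_l1952 _)
          (CovZ.n1 (-2148, 7648) (by decide +kernel)
           (CovZ.leaf K2_ok TX_l1953 _)
           (CovZ.leaf K2_ok TX_l1954 _)))
         (CovZ.n1 (-2156, 7644) (by decide +kernel)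
          (CovZ.leaf K2_ok TX_l1955 _)
          (CovZ.leaf K2_ok TX_l1956 _))))
       (CovZ.n1 (-2168, 7640) (by decide +kernel)
        (CovZ.n2 (-2168, 7648) (by decide +kernel)
         (CovZ.leaf K2_ok TX_l1957 _)
         (CovZ.leaf K2_ok TX_l1958 _))
        (CovZ.n1 (-2160, 7640) (by decide +kernel)
         (CovZ.leaf K2_ok TX_l1959 _)
         (CovZ.n1 (-2164, 7644) (by decide +kernel)
          (CovZ.leaf K2_ok TX_l1960 _)
          (CovZ.leaf K2_ok TX_l1961 _)))))))

theorem TX_u17 : CovZ TX_M (toL (selN TX_LN 3)) [0, 7, 4, 3] (-2144, 7648) (-2112, 7680) (-2176, 7680) :=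
    (CovZ.n1 (-2144, 7680) (by decide +kernel)
     (CovZ.n2 (-2128, 7664) (by decide +kernel)
      (CovZ.n2 (-2144, 7664) (by decide +kernel)
       (CovZ.n2 (-2136, 7672) (by decide +kernel)
        (CovZ.n2 (-2136, 7664) (by decide +kernel)
         (CovZ.n2 (-2140, 7668) (by decide +kernel)
          (CovZ.badM (by decide +kernel))
          (CovZ.n1 (-2140, 7664) (by decide +kernel)
           (CovZ.n2 (-2142, 7666) (by decide +kernel)
            (CovZ.n2 (-2140, 7666) (by decide +kernel)
             (CovZ.n2 (-2141, 7665) (by decide +kernel)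
              (CovZ.leaf K2_ok TX_l1962 _)
              (CovZ.leaf K2_ok TX_l1963 _))
             (CovZ.n1 (-2141, 7667) (by decide +kernel)
              (CovZ.badM (by decide +kernel))
              (CovZ.n1 (-2141, 7666) (by decide +kernel)
               (CovZ.leaf K2_ok TX_l1964 _)
               (CovZ.badM (by decide +kernel)))))
            (CovZ.leaf K2_ok TX_l1966 _))
           (CovZ.n1 (-2138, 7666) (by decide +kernel)
            (CovZ.n2 (-2138, 7664) (by decide +kernel)
             (CovZ.n2 (-2139, 7665) (by decide +kernel)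
              (CovZ.n2 (-2138, 7665) (by decide +kernel)
               (CovZ.leaf K2_ok TX_l1967 _)
               (CovZ.badM (by decide +kernel)))
              (CovZ.leaf K2_ok TX_l1969 _))
             (CovZ.n1 (-2137, 7665) (by decide +kernel)
              (CovZ.leaf K2_ok TX_l1970 _)
              (CovZ.leaf K2_ok TX_l1971 _)))
            (CovZ.n1 (-2140, 7666) (by decide +kernel)
             (CovZ.badM (by decide +kernel))
             (CovZ.n1 (-2139, 7665) (by decide +kernel)
              (CovZ.leaf K2_ok TX_l1972 _)
              (CovZ.badM (by decide +kernel)))))))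
         (CovZ.badM (by decide +kernel)))
        (CovZ.n1 (-2144, 7672) (by decide +kernel)
         (CovZ.badM (by decide +kernel))
         (CovZ.n1 (-2140, 7668) (by decide +kernel)
          (CovZ.n2 (-2144, 7668) (by decide +kernel)
           (CovZ.badM (by decide +kernel))
           (CovZ.n1 (-2142, 7666) (by decide +kernel)
            (CovZ.n2 (-2144, 7666) (by decide +kernel)
             (CovZ.n2 (-2143, 7667) (by decide +kernel)
              (CovZ.leaf K2_ok TX_l1974 _)
              (CovZ.leaf K2_ok TX_l1975 _))
             (CovZ.n1 (-2143, 7665) (by decide +kernel)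
              (CovZ.leaf K2_ok TX_l1976 _)
              (CovZ.leaf K2_ok TX_l1977 _)))
            (CovZ.n1 (-2142, 7668) (by decide +kernel)
             (CovZ.n2 (-2141, 7667) (by decide +kernel)
              (CovZ.leaf K2_ok TX_l1978 _)
              (CovZ.badM (by decide +kernel)))
             (CovZ.n1 (-2143, 7667) (by decide +kernel)
              (CovZ.badM (by decide +kernel))
              (CovZ.leaf K2_ok TX_l1980 _)))))
          (CovZ.badM (by decide +kernel)))))
       (CovZ.n1 (-2136, 7656) (by decide +kernel)
        (CovZ.n2 (-2144, 7656) (by decide +kernel)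
         (CovZ.n2 (-2140, 7660) (by decide +kernel)
          (CovZ.n2 (-2140, 7656) (by decide +kernel)
           (CovZ.n2 (-2142, 7658) (by decide +kernel)
            (CovZ.n2 (-2140, 7658) (by decide +kernel)
             (CovZ.leaf K2_ok TX_l1981 _)
             (CovZ.leaf K2_ok TX_l1982 _))
            (CovZ.leaf K2_ok TX_l1983 _))
           (CovZ.n1 (-2138, 7658) (by decide +kernel)
            (CovZ.leaf K2_ok TX_l1984 _)
            (CovZ.n1 (-2140, 7658) (by decide +kernel)
             (CovZ.leaf K2_ok TX_l1985 _)
             (CovZ.leaf K2_ok TX_l1986 _))))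
          (CovZ.n1 (-2144, 7660) (by decide +kernel)
           (CovZ.n2 (-2142, 7662) (by decide +kernel)
            (CovZ.leaf K2_ok TX_l1987 _)
            (CovZ.n1 (-2144, 7662) (by decide +kernel)
             (CovZ.leaf K2_ok TX_l1988 _)
             (CovZ.leaf K2_ok TX_l1989 _)))
           (CovZ.n1 (-2142, 7658) (by decide +kernel)
            (CovZ.leaf K2_ok TX_l1990 _)
            (CovZ.leaf K2_ok TX_l1991 _))))
         (CovZ.n1 (-2140, 7652) (by decide +kernel)
          (CovZ.n2 (-2144, 7652) (by decide +kernel)
           (CovZ.leaf K2_ok TX_l1992 _)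
           (CovZ.leaf K2_ok TX_l1993 _))
          (CovZ.n1 (-2140, 7656) (by decide +kernel)
           (CovZ.n2 (-2138, 7654) (by decide +kernel)
            (CovZ.n2 (-2140, 7654) (by decide +kernel)
             (CovZ.leaf K2_ok TX_l1994 _)
             (CovZ.leaf K2_ok TX_l1995 _))
            (CovZ.leaf K2_ok TX_l1996 _))
           (CovZ.leaf K2_ok TX_l1997 _))))
        (CovZ.n1 (-2136, 7664) (by decide +kernel)
         (CovZ.n2 (-2132, 7660) (by decide +kernel)
          (CovZ.n2 (-2136, 7660) (by decide +kernel)
           (CovZ.n2 (-2134, 7662) (by decide +kernel)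
            (CovZ.n2 (-2134, 7660) (by decide +kernel)
             (CovZ.n2 (-2135, 7661) (by decide +kernel)
              (CovZ.leaf K2_ok TX_l1998 _)
              (CovZ.leaf K2_ok TX_l1999 _))
             (CovZ.leaf K2_ok TX_l2000 _))
            (CovZ.n1 (-2136, 7662) (by decide +kernel)
             (CovZ.n2 (-2135, 7663) (by decide +kernel)
              (CovZ.leaf K2_ok TX_l2001 _)
              (CovZ.n1 (-2136, 7663) (by decide +kernel)
               (CovZ.leaf K2_ok TX_l2002 _)
               (CovZ.leaf K2_ok TX_l2003 _)))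
             (CovZ.n1 (-2135, 7661) (by decide +kernel)
              (CovZ.leaf K2_ok TX_l2004 _)
              (CovZ.leaf K2_ok TX_l2005 _))))
           (CovZ.n1 (-2134, 7658) (by decide +kernel)
            (CovZ.n2 (-2136, 7658) (by decide +kernel)
             (CovZ.leaf K2_ok TX_l2006 _)
             (CovZ.n1 (-2135, 7657) (by decide +kernel)
              (CovZ.leaf K2_ok TX_l2007 _)
              (CovZ.leaf K2_ok TX_l2008 _)))
            (CovZ.n1 (-2134, 7660) (by decide +kernel)
             (CovZ.n2 (-2133, 7659) (by decide +kernel)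
              (CovZ.leaf K2_ok TX_l2009 _)
              (CovZ.leaf K2_ok TX_l2010 _))
             (CovZ.leaf K2_ok TX_l2011 _))))
          (CovZ.n1 (-2132, 7664) (by decide +kernel)
           (CovZ.n2 (-2130, 7662) (by decide +kernel)
            (CovZ.n2 (-2132, 7662) (by decide +kernel)
             (CovZ.badM (by decide +kernel))
             (CovZ.n1 (-2131, 7661) (by decide +kernel)
              (CovZ.leaf K2_ok TX_l2012 _)
              (CovZ.badM (by decide +kernel))))
            (CovZ.badM (by decide +kernel)))
           (CovZ.n1 (-2134, 7662) (by decide +kernel)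
            (CovZ.n2 (-2134, 7664) (by decide +kernel)
             (CovZ.n2 (-2133, 7663) (by decide +kernel)
              (CovZ.n2 (-2134, 7663) (by decide +kernel)
               (CovZ.badM (by decide +kernel))
               (CovZ.leaf K2_ok TX_l2015 _))
              (CovZ.badM (by decide +kernel)))
             (CovZ.leaf K2_ok TX_l2016 _))
            (CovZ.n1 (-2132, 7662) (by decide +kernel)
             (CovZ.n2 (-2133, 7661) (by decide +kernel)
              (CovZ.leaf K2_ok TX_l2017 _)
              (CovZ.leaf K2_ok TX_l2018 _))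
             (CovZ.n1 (-2133, 7663) (by decide +kernel)
              (CovZ.badM (by decide +kernel))
              (CovZ.leaf K2_ok TX_l2019 _))))))
         (CovZ.n1 (-2140, 7660) (by decide +kernel)
          (CovZ.n2 (-2140, 7664) (by decide +kernel)
           (CovZ.n2 (-2138, 7662) (by decide +kernel)
            (CovZ.n2 (-2140, 7662) (by decide +kernel)
             (CovZ.n2 (-2139, 7663) (by decide +kernel)
              (CovZ.leaf K2_ok TX_l2020 _)
              (CovZ.n1 (-2140, 7663) (by decide +kernel)
               (CovZ.leaf K2_ok TX_l2021 _)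
               (CovZ.leaf K2_ok TX_l2022 _)))
             (CovZ.n1 (-2139, 7661) (by decide +kernel)
              (CovZ.leaf K2_ok TX_l2023 _)
              (CovZ.leaf K2_ok TX_l2024 _)))
            (CovZ.n1 (-2138, 7664) (by decide +kernel)
             (CovZ.n2 (-2137, 7663) (by decide +kernel)
              (CovZ.n2 (-2138, 7663) (by decide +kernel)
               (CovZ.leaf K2_ok TX_l2025 _)
               (CovZ.leaf K2_ok TX_l2026 _))
              (CovZ.leaf K2_ok TX_l2027 _))
             (CovZ.leaf K2_ok TX_l2028 _)))
           (CovZ.n1 (-2142, 7662) (by decide +kernel)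
            (CovZ.n2 (-2142, 7664) (by decide +kernel)
             (CovZ.n2 (-2141, 7663) (by decide +kernel)
              (CovZ.leaf K2_ok TX_l2029 _)
              (CovZ.leaf K2_ok TX_l2030 _))
             (CovZ.leaf K2_ok TX_l2031 _))
            (CovZ.n1 (-2140, 7662) (by decide +kernel)
             (CovZ.leaf K2_ok TX_l2032 _)
             (CovZ.n1 (-2141, 7663) (by decide +kernel)
              (CovZ.n2 (-2140, 7663) (by decide +kernel)
               (CovZ.leaf K2_ok TX_l2033 _)
               (CovZ.leaf K2_ok TX_l2034 _))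
              (CovZ.leaf K2_ok TX_l2035 _)))))
          (CovZ.n1 (-2136, 7660) (by decide +kernel)
           (CovZ.n2 (-2138, 7658) (by decide +kernel)
            (CovZ.leaf K2_ok TX_l2036 _)
            (CovZ.n1 (-2136, 7658) (by decide +kernel)
             (CovZ.leaf K2_ok TX_l2037 _)
             (CovZ.leaf K2_ok TX_l2038 _)))
           (CovZ.n1 (-2138, 7662) (by decide +kernel)
            (CovZ.n2 (-2136, 7662) (by decide +kernel)
             (CovZ.leaf K2_ok TX_l2039 _)
             (CovZ.leaf K2_ok TX_l2040 _))
            (CovZ.leaf K2_ok TX_l2041 _)))))))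
      (CovZ.badM (by decide +kernel)))
     (CovZ.n1 (-2160, 7664) (by decide +kernel)
      TX_u14
      TX_u15))

theorem TX_u18 : CovZ TX_M (toL (selN TX_LN 3)) [0, 7, 4, 3] (-2048, 7616) (-2064, 7632) (-2080, 7616) :=
    (CovZ.n2 (-2064, 7616) (by decide +kernel)
       (CovZ.n2 (-2072, 7624) (by decide +kernel)
        (CovZ.n2 (-2064, 7624) (by decide +kernel)
         (CovZ.n2 (-2068, 7620) (by decide +kernel)
          (CovZ.n2 (-2068, 7624) (by decide +kernel)
           (CovZ.n2 (-2066, 7622) (by decide +kernel)
            (CovZ.n2 (-2068, 7622) (by decide +kernel)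
             (CovZ.leaf K2_ok TX_l2635 _)
             (CovZ.leaf K2_ok TX_l2636 _))
            (CovZ.n1 (-2066, 7624) (by decide +kernel)
             (CovZ.n2 (-2065, 7623) (by decide +kernel)
              (CovZ.leaf K2_ok TX_l2637 _)
              (CovZ.leaf K2_ok TX_l2638 _))
             (CovZ.n1 (-2067, 7623) (by decide +kernel)
              (CovZ.leaf K2_ok TX_l2639 _)
              (CovZ.leaf K2_ok TX_l2640 _))))
           (CovZ.n1 (-2070, 7622) (by decide +kernel)
            (CovZ.leaf K2_ok TX_l2641 _)
            (CovZ.n1 (-2068, 7622) (by decide +kernel)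
             (CovZ.leaf K2_ok TX_l2642 _)
             (CovZ.leaf K2_ok TX_l2643 _))))
          (CovZ.n1 (-2064, 7620) (by decide +kernel)
           (CovZ.n2 (-2066, 7618) (by decide +kernel)
            (CovZ.leaf K2_ok TX_l2644 _)
            (CovZ.leaf K2_ok TX_l2645 _))
           (CovZ.n1 (-2066, 7622) (by decide +kernel)
            (CovZ.n2 (-2064, 7622) (by decide +kernel)
             (CovZ.leaf K2_ok TX_l2646 _)
             (CovZ.leaf K2_ok TX_l2647 _))
            (CovZ.leaf K2_ok TX_l2648 _))))
         (CovZ.n1 (-2068, 7628) (by decide +kernel)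
          (CovZ.n2 (-2064, 7628) (by decide +kernel)
           (CovZ.n2 (-2066, 7626) (by decide +kernel)
            (CovZ.n2 (-2066, 7628) (by decide +kernel)
             (CovZ.leaf K2_ok TX_l2649 _)
             (CovZ.leaf K2_ok TX_l2650 _))
            (CovZ.n1 (-2064, 7626) (by decide +kernel)
             (CovZ.leaf K2_ok TX_l2651 _)
             (CovZ.n1 (-2065, 7627) (by decide +kernel)
              (CovZ.leaf K2_ok TX_l2652 _)
              (CovZ.leaf K2_ok TX_l2653 _))))
           (CovZ.n1 (-2066, 7630) (by decide +kernel)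
            (CovZ.badM (by decide +kernel))
            (CovZ.n1 (-2066, 7628) (by decide +kernel)
             (CovZ.leaf K2_ok TX_l2654 _)
             (CovZ.badM (by decide +kernel)))))
          (CovZ.n1 (-2068, 7624) (by decide +kernel)
           (CovZ.n2 (-2070, 7626) (by decide +kernel)
            (CovZ.n2 (-2068, 7626) (by decide +kernel)
             (CovZ.leaf K2_ok TX_l2655 _)
             (CovZ.n1 (-2069, 7627) (by decide +kernel)
              (CovZ.leaf K2_ok TX_l2656 _)
              (CovZ.leaf K2_ok TX_l2657 _)))
            (CovZ.n1 (-2070, 7624) (by decide +kernel)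
             (CovZ.leaf K2_ok TX_l2658 _)
             (CovZ.leaf K2_ok TX_l2659 _)))
           (CovZ.n1 (-2066, 7626) (by decide +kernel)
            (CovZ.leaf K2_ok TX_l2660 _)
            (CovZ.n1 (-2068, 7626) (by decide +kernel)
             (CovZ.n2 (-2067, 7627) (by decide +kernel)
              (CovZ.leaf K2_ok TX_l2661 _)
              (CovZ.leaf K2_ok TX_l2662 _))
             (CovZ.n1 (-2067, 7625) (by decide +kernel)
              (CovZ.leaf K2_ok TX_l2663 _)
              (CovZ.leaf K2_ok TX_l2664 _)))))))
        (CovZ.n1 (-2072, 7616) (by decide +kernel)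
         (CovZ.n2 (-2076, 7620) (by decide +kernel)
          (CovZ.n2 (-2072, 7620) (by decide +kernel)
           (CovZ.leaf K2_ok TX_l2665 _)
           (CovZ.n1 (-2074, 7622) (by decide +kernel)
            (CovZ.n2 (-2072, 7622) (by decide +kernel)
             (CovZ.leaf K2_ok TX_l2666 _)
             (CovZ.leaf K2_ok TX_l2667 _))
            (CovZ.leaf K2_ok TX_l2668 _)))
          (CovZ.leaf K2_ok TX_l2669 _))
         (CovZ.n1 (-2068, 7620) (by decide +kernel)
          (CovZ.n2 (-2068, 7616) (by decide +kernel)
           (CovZ.leaf K2_ok TX_l2670 _)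
           (CovZ.n1 (-2066, 7618) (by decide +kernel)
            (CovZ.leaf K2_ok TX_l2671 _)
            (CovZ.n1 (-2068, 7618) (by decide +kernel)
             (CovZ.leaf K2_ok TX_l2672 _)
             (CovZ.leaf K2_ok TX_l2673 _))))
          (CovZ.n1 (-2072, 7620) (by decide +kernel)
           (CovZ.n2 (-2070, 7622) (by decide +kernel)
            (CovZ.leaf K2_ok TX_l2674 _)
            (CovZ.n1 (-2072, 7622) (by decide +kernel)
             (CovZ.leaf K2_ok TX_l2675 _)
             (CovZ.leaf K2_ok TX_l2676 _)))
           (CovZ.n1 (-2070, 7618) (by decide +kernel)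
            (CovZ.leaf K2_ok TX_l2677 _)
            (CovZ.leaf K2_ok TX_l2678 _))))))
       (CovZ.n1 (-2056, 7624) (by decide +kernel)
        (CovZ.n2 (-2056, 7616) (by decide +kernel)
         (CovZ.n2 (-2060, 7620) (by decide +kernel)
          (CovZ.n2 (-2056, 7620) (by decide +kernel)
           (CovZ.n2 (-2058, 7618) (by decide +kernel)
            (CovZ.leaf K2_ok TX_l2679 _)
            (CovZ.n1 (-2056, 7618) (by decide +kernel)
             (CovZ.leaf K2_ok TX_l2680 _)
             (CovZ.leaf K2_ok TX_l2681 _)))
           (CovZ.n1 (-2058, 7622) (by decide +kernel)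
            (CovZ.n2 (-2056, 7622) (by decide +kernel)
             (CovZ.n2 (-2057, 7621) (by decide +kernel)
              (CovZ.leaf K2_ok TX_l2682 _)
              (CovZ.leaf K2_ok TX_l2683 _))
             (CovZ.n1 (-2057, 7623) (by decide +kernel)
              (CovZ.badM (by decide +kernel))
              (CovZ.leaf K2_ok TX_l2684 _)))
            (CovZ.n1 (-2058, 7620) (by decide +kernel)
             (CovZ.leaf K2_ok TX_l2685 _)
             (CovZ.leaf K2_ok TX_l2686 _))))
          (CovZ.n1 (-2060, 7616) (by decide +kernel)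
           (CovZ.n2 (-2062, 7618) (by decide +kernel)
            (CovZ.n2 (-2060, 7618) (by decide +kernel)
             (CovZ.leaf K2_ok TX_l2687 _)
             (CovZ.leaf K2_ok TX_l2688 _))
            (CovZ.leaf K2_ok TX_l2689 _))
           (CovZ.n1 (-2058, 7618) (by decide +kernel)
            (CovZ.leaf K2_ok TX_l2690 _)
            (CovZ.n1 (-2060, 7618) (by decide +kernel)
             (CovZ.leaf K2_ok TX_l2691 _)
             (CovZ.leaf K2_ok TX_l2692 _)))))
         (CovZ.n1 (-2052, 7620) (by decide +kernel)
          (CovZ.n2 (-2052, 7616) (by decide +kernel)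
           (CovZ.n2 (-2054, 7618) (by decide +kernel)
            (CovZ.n2 (-2052, 7618) (by decide +kernel)
             (CovZ.n2 (-2053, 7617) (by decide +kernel)
              (CovZ.leaf K2_ok TX_l2693 _)
              (CovZ.leaf K2_ok TX_l2694 _))
             (CovZ.leaf K2_ok TX_l2695 _))
            (CovZ.leaf K2_ok TX_l2696 _))
           (CovZ.n1 (-2050, 7618) (by decide +kernel)
            (CovZ.n2 (-2050, 7616) (by decide +kernel)
             (CovZ.leaf K2_ok TX_l2697 _)
             (CovZ.n1 (-2049, 7617) (by decide +kernel)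
              (CovZ.leaf K2_ok TX_l2698 _)
              (CovZ.leaf K2_ok TX_l2699 _)))
            (CovZ.n1 (-2052, 7618) (by decide +kernel)
             (CovZ.leaf K2_ok TX_l2700 _)
             (CovZ.leaf K2_ok TX_l2701 _))))
          (CovZ.n1 (-2056, 7620) (by decide +kernel)
           (CovZ.n2 (-2054, 7622) (by decide +kernel)
            (CovZ.n2 (-2054, 7620) (by decide +kernel)
             (CovZ.n2 (-2055, 7621) (by decide +kernel)
              (CovZ.n2 (-2054, 7621) (by decide +kernel)
               (CovZ.leaf K2_ok TX_l2702 _)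
               (CovZ.leaf K2_ok TX_l2703 _))
              (CovZ.leaf K2_ok TX_l2704 _))
             (CovZ.leaf K2_ok TX_l2705 _))
            (CovZ.n1 (-2056, 7622) (by decide +kernel)
             (CovZ.badM (by decide +kernel))
             (CovZ.leaf K2_ok TX_l2706 _)))
           (CovZ.n1 (-2054, 7618) (by decide +kernel)
            (CovZ.n2 (-2056, 7618) (by decide +kernel)
             (CovZ.leaf K2_ok TX_l2707 _)
             (CovZ.leaf K2_ok TX_l2708 _))
            (CovZ.n1 (-2054, 7620) (by decide +kernel)
             (CovZ.leaf K2_ok TX_l2709 _)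
             (CovZ.leaf K2_ok TX_l2710 _))))))
        (CovZ.n1 (-2064, 7624) (by decide +kernel)
         (CovZ.n2 (-2060, 7628) (by decide +kernel)
          (CovZ.n2 (-2060, 7624) (by decide +kernel)
           (CovZ.n2 (-2062, 7626) (by decide +kernel)
            (CovZ.n2 (-2060, 7626) (by decide +kernel)
             (CovZ.n2 (-2061, 7625) (by decide +kernel)
              (CovZ.badM (by decide +kernel))
              (CovZ.leaf K2_ok TX_l2711 _))
             (CovZ.badM (by decide +kernel)))
            (CovZ.n1 (-2062, 7624) (by decide +kernel)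
             (CovZ.leaf K2_ok TX_l2712 _)
             (CovZ.n1 (-2061, 7625) (by decide +kernel)
              (CovZ.leaf K2_ok TX_l2713 _)
              (CovZ.leaf K2_ok TX_l2714 _))))
           (CovZ.n1 (-2058, 7626) (by decide +kernel)
            (CovZ.n2 (-2058, 7624) (by decide +kernel)
             (CovZ.n2 (-2059, 7625) (by decide +kernel)
              (CovZ.badM (by decide +kernel))
              (CovZ.leaf K2_ok TX_l2715 _))
             (CovZ.badM (by decide +kernel)))
            (CovZ.n1 (-2060, 7626) (by decide +kernel)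
             (CovZ.badM (by decide +kernel))
             (CovZ.n1 (-2059, 7625) (by decide +kernel)
              (CovZ.leaf K2_ok TX_l2716 _)
              (CovZ.badM (by decide +kernel))))))
          (CovZ.n1 (-2064, 7628) (by decide +kernel)
           (CovZ.badM (by decide +kernel))
           (CovZ.n1 (-2062, 7626) (by decide +kernel)
            (CovZ.n2 (-2064, 7626) (by decide +kernel)
             (CovZ.leaf K2_ok TX_l2717 _)
             (CovZ.leaf K2_ok TX_l2718 _))
            (CovZ.badM (by decide +kernel)))))
         (CovZ.n1 (-2060, 7620) (by decide +kernel)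
          (CovZ.n2 (-2064, 7620) (by decide +kernel)
           (CovZ.n2 (-2062, 7622) (by decide +kernel)
            (CovZ.n2 (-2062, 7620) (by decide +kernel)
             (CovZ.leaf K2_ok TX_l2719 _)
             (CovZ.leaf K2_ok TX_l2720 _))
            (CovZ.n1 (-2064, 7622) (by decide +kernel)
             (CovZ.leaf K2_ok TX_l2721 _)
             (CovZ.leaf K2_ok TX_l2722 _)))
           (CovZ.n1 (-2062, 7618) (by decide +kernel)
            (CovZ.leaf K2_ok TX_l2723 _)
            (CovZ.leaf K2_ok TX_l2724 _)))
          (CovZ.n1 (-2060, 7624) (by decide +kernel)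
           (CovZ.n2 (-2058, 7622) (by decide +kernel)
            (CovZ.n2 (-2060, 7622) (by decide +kernel)
             (CovZ.n2 (-2059, 7623) (by decide +kernel)
              (CovZ.leaf K2_ok TX_l2725 _)
              (CovZ.leaf K2_ok TX_l2726 _))
             (CovZ.leaf K2_ok TX_l2727 _))
            (CovZ.n1 (-2058, 7624) (by decide +kernel)
             (CovZ.n2 (-2057, 7623) (by decide +kernel)
              (CovZ.leaf K2_ok TX_l2728 _)
              (CovZ.badM (by decide +kernel)))
             (CovZ.n1 (-2059, 7623) (by decide +kernel)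
              (CovZ.leaf K2_ok TX_l2729 _)
              (CovZ.n1 (-2058, 7623) (by decide +kernel)
               (CovZ.leaf K2_ok TX_l2730 _)
               (CovZ.leaf K2_ok TX_l2731 _)))))
           (CovZ.n1 (-2062, 7622) (by decide +kernel)
            (CovZ.leaf K2_ok TX_l2732 _)
            (CovZ.n1 (-2060, 7622) (by decide +kernel)
             (CovZ.leaf K2_ok TX_l2733 _)
             (CovZ.leaf K2_ok TX_l2734 _))))))))

theorem TX_u19 : CovZ TX_M (toL (selN TX_LN 3)) [0, 7, 4, 3] (-2064, 7632) (-2080, 7648) (-2080, 7616) :=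
    (CovZ.n1 (-2080, 7632) (by decide +kernel)
       (CovZ.n2 (-2072, 7640) (by decide +kernel)
        (CovZ.n2 (-2072, 7632) (by decide +kernel)
         (CovZ.n2 (-2076, 7636) (by decide +kernel)
          (CovZ.badM (by decide +kernel))
          (CovZ.n1 (-2076, 7632) (by decide +kernel)
           (CovZ.n2 (-2078, 7634) (by decide +kernel)
            (CovZ.n2 (-2076, 7634) (by decide +kernel)
             (CovZ.leaf K2_ok TX_l2735 _)
             (CovZ.badM (by decide +kernel)))
            (CovZ.n1 (-2078, 7632) (by decide +kernel)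
             (CovZ.n2 (-2079, 7633) (by decide +kernel)
              (CovZ.leaf K2_ok TX_l2736 _)
              (CovZ.leaf K2_ok TX_l2737 _))
             (CovZ.leaf K2_ok TX_l2738 _)))
           (CovZ.n1 (-2074, 7634) (by decide +kernel)
            (CovZ.n2 (-2074, 7632) (by decide +kernel)
             (CovZ.n2 (-2075, 7633) (by decide +kernel)
              (CovZ.badM (by decide +kernel))
              (CovZ.leaf K2_ok TX_l2739 _))
             (CovZ.badM (by decide +kernel)))
            (CovZ.n1 (-2076, 7634) (by decide +kernel)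
             (CovZ.badM (by decide +kernel))
             (CovZ.n1 (-2075, 7633) (by decide +kernel)
              (CovZ.leaf K2_ok TX_l2740 _)
              (CovZ.badM (by decide +kernel)))))))
         (CovZ.badM (by decide +kernel)))
        (CovZ.n1 (-2080, 7640) (by decide +kernel)
         (CovZ.badM (by decide +kernel))
         (CovZ.n1 (-2076, 7636) (by decide +kernel)
          (CovZ.n2 (-2080, 7636) (by decide +kernel)
           (CovZ.badM (by decide +kernel))
           (CovZ.n1 (-2078, 7634) (by decide +kernel)
            (CovZ.n2 (-2080, 7634) (by decide +kernel)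
             (CovZ.n2 (-2079, 7635) (by decide +kernel)
              (CovZ.leaf K2_ok TX_l2741 _)
              (CovZ.n1 (-2080, 7635) (by decide +kernel)
               (CovZ.badM (by decide +kernel))
               (CovZ.leaf K2_ok TX_l2742 _)))
             (CovZ.leaf K2_ok TX_l2743 _))
            (CovZ.badM (by decide +kernel))))
          (CovZ.badM (by decide +kernel)))))
       (CovZ.n1 (-2072, 7624) (by decide +kernel)
        (CovZ.n2 (-2080, 7624) (by decide +kernel)
         (CovZ.n2 (-2076, 7628) (by decide +kernel)
          (CovZ.n2 (-2076, 7624) (by decide +kernel)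
           (CovZ.n2 (-2078, 7626) (by decide +kernel)
            (CovZ.n2 (-2076, 7626) (by decide +kernel)
             (CovZ.leaf K2_ok TX_l2744 _)
             (CovZ.leaf K2_ok TX_l2745 _))
            (CovZ.leaf K2_ok TX_l2746 _))
           (CovZ.n1 (-2074, 7626) (by decide +kernel)
            (CovZ.leaf K2_ok TX_l2747 _)
            (CovZ.leaf K2_ok TX_l2748 _)))
          (CovZ.n1 (-2080, 7628) (by decide +kernel)
           (CovZ.n2 (-2078, 7630) (by decide +kernel)
            (CovZ.leaf K2_ok TX_l2749 _)
            (CovZ.n1 (-2080, 7630) (by decide +kernel)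
             (CovZ.leaf K2_ok TX_l2750 _)
             (CovZ.leaf K2_ok TX_l2751 _)))
           (CovZ.n1 (-2078, 7626) (by decide +kernel)
            (CovZ.n2 (-2080, 7626) (by decide +kernel)
             (CovZ.leaf K2_ok TX_l2752 _)
             (CovZ.leaf K2_ok TX_l2753 _))
            (CovZ.n1 (-2078, 7628) (by decide +kernel)
             (CovZ.leaf K2_ok TX_l2754 _)
             (CovZ.leaf K2_ok TX_l2755 _)))))
         (CovZ.n1 (-2076, 7620) (by decide +kernel)
          (CovZ.n2 (-2080, 7620) (by decide +kernel)
           (CovZ.leaf K2_ok TX_l2756 _)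
           (CovZ.n1 (-2078, 7618) (by decide +kernel)
            (CovZ.leaf K2_ok TX_l2757 _)
            (CovZ.leaf K2_ok TX_l2758 _)))
          (CovZ.n1 (-2076, 7624) (by decide +kernel)
           (CovZ.n2 (-2074, 7622) (by decide +kernel)
            (CovZ.leaf K2_ok TX_l2759 _)
            (CovZ.leaf K2_ok TX_l2760 _))
           (CovZ.leaf K2_ok TX_l2761 _))))
        (CovZ.n1 (-2072, 7632) (by decide +kernel)
         (CovZ.n2 (-2068, 7628) (by decide +kernel)
          (CovZ.n2 (-2072, 7628) (by decide +kernel)
           (CovZ.n2 (-2070, 7630) (by decide +kernel)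
            (CovZ.n2 (-2070, 7628) (by decide +kernel)
             (CovZ.n2 (-2071, 7629) (by decide +kernel)
              (CovZ.n2 (-2070, 7629) (by decide +kernel)
               (CovZ.leaf K2_ok TX_l2762 _)
               (CovZ.leaf K2_ok TX_l2763 _))
              (CovZ.leaf K2_ok TX_l2764 _))
             (CovZ.n1 (-2069, 7629) (by decide +kernel)
              (CovZ.leaf K2_ok TX_l2765 _)
              (CovZ.n1 (-2070, 7629) (by decide +kernel)
               (CovZ.leaf K2_ok TX_l2766 _)
               (CovZ.leaf K2_ok TX_l2767 _))))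
            (CovZ.n1 (-2072, 7630) (by decide +kernel)
             (CovZ.leaf K2_ok TX_l2768 _)
             (CovZ.n1 (-2071, 7629) (by decide +kernel)
              (CovZ.n2 (-2072, 7629) (by decide +kernel)
               (CovZ.leaf K2_ok TX_l2769 _)
               (CovZ.leaf K2_ok TX_l2770 _))
              (CovZ.leaf K2_ok TX_l2771 _))))
           (CovZ.n1 (-2070, 7626) (by decide +kernel)
            (CovZ.n2 (-2072, 7626) (by decide +kernel)
             (CovZ.leaf K2_ok TX_l2772 _)
             (CovZ.leaf K2_ok TX_l2773 _))
            (CovZ.n1 (-2070, 7628) (by decide +kernel)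
             (CovZ.n2 (-2069, 7627) (by decide +kernel)
              (CovZ.leaf K2_ok TX_l2774 _)
              (CovZ.leaf K2_ok TX_l2775 _))
             (CovZ.leaf K2_ok TX_l2776 _))))
          (CovZ.n1 (-2068, 7632) (by decide +kernel)
           (CovZ.n2 (-2066, 7630) (by decide +kernel)
            (CovZ.n2 (-2068, 7630) (by decide +kernel)
             (CovZ.badM (by decide +kernel))
             (CovZ.leaf K2_ok TX_l2777 _))
            (CovZ.badM (by decide +kernel)))
           (CovZ.n1 (-2070, 7630) (by decide +kernel)
            (CovZ.badM (by decide +kernel))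
            (CovZ.n1 (-2068, 7630) (by decide +kernel)
             (CovZ.leaf K2_ok TX_l2778 _)
             (CovZ.badM (by decide +kernel))))))
         (CovZ.n1 (-2076, 7628) (by decide +kernel)
          (CovZ.n2 (-2076, 7632) (by decide +kernel)
           (CovZ.n2 (-2074, 7630) (by decide +kernel)
            (CovZ.n2 (-2076, 7630) (by decide +kernel)
             (CovZ.n2 (-2075, 7631) (by decide +kernel)
              (CovZ.leaf K2_ok TX_l2779 _)
              (CovZ.leaf K2_ok TX_l2780 _))
             (CovZ.leaf K2_ok TX_l2781 _))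
            (CovZ.n1 (-2074, 7632) (by decide +kernel)
             (CovZ.n2 (-2073, 7631) (by decide +kernel)
              (CovZ.leaf K2_ok TX_l2782 _)
              (CovZ.badM (by decide +kernel)))
             (CovZ.n1 (-2075, 7631) (by decide +kernel)
              (CovZ.leaf K2_ok TX_l2783 _)
              (CovZ.leaf K2_ok TX_l2784 _))))
           (CovZ.n1 (-2078, 7630) (by decide +kernel)
            (CovZ.leaf K2_ok TX_l2785 _)
            (CovZ.n1 (-2076, 7630) (by decide +kernel)
             (CovZ.leaf K2_ok TX_l2786 _)
             (CovZ.leaf K2_ok TX_l2787 _))))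
          (CovZ.n1 (-2072, 7628) (by decide +kernel)
           (CovZ.n2 (-2074, 7626) (by decide +kernel)
            (CovZ.leaf K2_ok TX_l2788 _)
            (CovZ.n1 (-2072, 7626) (by decide +kernel)
             (CovZ.leaf K2_ok TX_l2789 _)
             (CovZ.leaf K2_ok TX_l2790 _)))
           (CovZ.n1 (-2074, 7630) (by decide +kernel)
            (CovZ.n2 (-2072, 7630) (by decide +kernel)
             (CovZ.n2 (-2073, 7629) (by decide +kernel)
              (CovZ.leaf K2_ok TX_l2791 _)
              (CovZ.n1 (-2072, 7629) (by decide +kernel)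
               (CovZ.leaf K2_ok TX_l2792 _)
               (CovZ.leaf K2_ok TX_l2793 _)))
             (CovZ.n1 (-2073, 7631) (by decide +kernel)
              (CovZ.leaf K2_ok TX_l2794 _)
              (CovZ.leaf K2_ok TX_l2795 _)))
            (CovZ.n1 (-2074, 7628) (by decide +kernel)
             (CovZ.leaf K2_ok TX_l2796 _)
             (CovZ.n1 (-2073, 7629) (by decide +kernel)
              (CovZ.leaf K2_ok TX_l2797 _)
              (CovZ.leaf K2_ok TX_l2798 _)))))))))

theorem TX_u20 : CovZ TX_M (toL (selN TX_LN 3)) [0, 7, 4, 3] (-2112, 7616) (-2096, 7632) (-2112, 7648) :=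
    (CovZ.n2 (-2112, 7632) (by decide +kernel)
       (CovZ.n2 (-2104, 7640) (by decide +kernel)
        (CovZ.n2 (-2104, 7632) (by decide +kernel)
         (CovZ.n2 (-2108, 7636) (by decide +kernel)
          (CovZ.n2 (-2104, 7636) (by decide +kernel)
           (CovZ.leaf K2_ok TX_l2807 _)
           (CovZ.n1 (-2106, 7638) (by decide +kernel)
            (CovZ.n2 (-2104, 7638) (by decide +kernel)
             (CovZ.leaf K2_ok TX_l2808 _)
             (CovZ.leaf K2_ok TX_l2809 _))
            (CovZ.leaf K2_ok TX_l2810 _)))
          (CovZ.leaf K2_ok TX_l2811 _))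
         (CovZ.n1 (-2100, 7636) (by decide +kernel)
          (CovZ.n2 (-2100, 7632) (by decide +kernel)
           (CovZ.n2 (-2102, 7634) (by decide +kernel)
            (CovZ.leaf K2_ok TX_l2812 _)
            (CovZ.leaf K2_ok TX_l2813 _))
           (CovZ.n1 (-2098, 7634) (by decide +kernel)
            (CovZ.leaf K2_ok TX_l2814 _)
            (CovZ.leaf K2_ok TX_l2815 _)))
          (CovZ.n1 (-2104, 7636) (by decide +kernel)
           (CovZ.n2 (-2102, 7638) (by decide +kernel)
            (CovZ.leaf K2_ok TX_l2816 _)
            (CovZ.n1 (-2104, 7638) (by decide +kernel)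
             (CovZ.leaf K2_ok TX_l2817 _)
             (CovZ.leaf K2_ok TX_l2818 _)))
           (CovZ.n1 (-2102, 7634) (by decide +kernel)
            (CovZ.leaf K2_ok TX_l2819 _)
            (CovZ.leaf K2_ok TX_l2820 _)))))
        (CovZ.n1 (-2112, 7640) (by decide +kernel)
         (CovZ.n2 (-2108, 7644) (by decide +kernel)
          (CovZ.n2 (-2108, 7640) (by decide +kernel)
           (CovZ.n2 (-2110, 7642) (by decide +kernel)
            (CovZ.n2 (-2108, 7642) (by decide +kernel)
             (CovZ.leaf K2_ok TX_l2821 _)
             (CovZ.leaf K2_ok TX_l2822 _))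
            (CovZ.leaf K2_ok TX_l2823 _))
           (CovZ.n1 (-2106, 7642) (by decide +kernel)
            (CovZ.leaf K2_ok TX_l2824 _)
            (CovZ.leaf K2_ok TX_l2825 _)))
          (CovZ.n1 (-2112, 7644) (by decide +kernel)
           (CovZ.n2 (-2110, 7646) (by decide +kernel)
            (CovZ.leaf K2_ok TX_l2826 _)
            (CovZ.n1 (-2112, 7646) (by decide +kernel)
             (CovZ.leaf K2_ok TX_l2827 _)
             (CovZ.leaf K2_ok TX_l2828 _)))
           (CovZ.n1 (-2110, 7642) (by decide +kernel)
            (CovZ.n2 (-2112, 7642) (by decide +kernel)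
             (CovZ.leaf K2_ok TX_l2829 _)
             (CovZ.leaf K2_ok TX_l2830 _))
            (CovZ.leaf K2_ok TX_l2831 _))))
         (CovZ.n1 (-2108, 7636) (by decide +kernel)
          (CovZ.n2 (-2112, 7636) (by decide +kernel)
           (CovZ.leaf K2_ok TX_l2832 _)
           (CovZ.leaf K2_ok TX_l2833 _))
          (CovZ.n1 (-2108, 7640) (by decide +kernel)
           (CovZ.n2 (-2106, 7638) (by decide +kernel)
            (CovZ.leaf K2_ok TX_l2834 _)
            (CovZ.leaf K2_ok TX_l2835 _))
           (CovZ.n1 (-2110, 7638) (by decide +kernel)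
            (CovZ.leaf K2_ok TX_l2836 _)
            (CovZ.leaf K2_ok TX_l2837 _))))))
       (CovZ.n1 (-2104, 7624) (by decide +kernel)
        (CovZ.n2 (-2112, 7624) (by decide +kernel)
         (CovZ.n2 (-2108, 7628) (by decide +kernel)
          (CovZ.leaf K2_ok TX_l2838 _)
          (CovZ.n1 (-2112, 7628) (by decide +kernel)
           (CovZ.leaf K2_ok TX_l2839 _)
           (CovZ.leaf K2_ok TX_l2840 _)))
         (CovZ.n1 (-2108, 7620) (by decide +kernel)
          (CovZ.leaf K2_ok TX_l2841 _)
          (CovZ.leaf K2_ok TX_l2842 _)))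
        (CovZ.n1 (-2104, 7632) (by decide +kernel)
         (CovZ.n2 (-2100, 7628) (by decide +kernel)
          (CovZ.n2 (-2104, 7628) (by decide +kernel)
           (CovZ.leaf K2_ok TX_l2843 _)
           (CovZ.leaf K2_ok TX_l2844 _))
          (CovZ.n1 (-2100, 7632) (by decide +kernel)
           (CovZ.n2 (-2098, 7630) (by decide +kernel)
            (CovZ.leaf K2_ok TX_l2845 _)
            (CovZ.leaf K2_ok TX_l2846 _))
           (CovZ.leaf K2_ok TX_l2847 _)))
         (CovZ.n1 (-2108, 7628) (by decide +kernel)
          (CovZ.n2 (-2108, 7632) (by decide +kernel)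
           (CovZ.leaf K2_ok TX_l2848 _)
           (CovZ.leaf K2_ok TX_l2849 _))
          (CovZ.n1 (-2104, 7628) (by decide +kernel)
           (CovZ.leaf K2_ok TX_l2850 _)
           (CovZ.leaf K2_ok TX_l2851 _))))))

theorem TX_u21 : CovZ TX_M (toL (selN TX_LN 3)) [0, 7, 4, 3] (-2096, 7632) (-2080, 7648) (-2112, 7648) :=
    (CovZ.n1 (-2096, 7648) (by decide +kernel)
       (CovZ.n2 (-2088, 7640) (by decide +kernel)
        (CovZ.n2 (-2096, 7640) (by decide +kernel)
         (CovZ.n2 (-2092, 7644) (by decide +kernel)
          (CovZ.n2 (-2092, 7640) (by decide +kernel)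
           (CovZ.n2 (-2094, 7642) (by decide +kernel)
            (CovZ.n2 (-2092, 7642) (by decide +kernel)
             (CovZ.n2 (-2093, 7641) (by decide +kernel)
              (CovZ.leaf K2_ok TX_l2852 _)
              (CovZ.n1 (-2092, 7641) (by decide +kernel)
               (CovZ.leaf K2_ok TX_l2853 _)
               (CovZ.leaf K2_ok TX_l2854 _)))
             (CovZ.badM (by decide +kernel)))
            (CovZ.n1 (-2094, 7640) (by decide +kernel)
             (CovZ.leaf K2_ok TX_l2855 _)
             (CovZ.n1 (-2093, 7641) (by decide +kernel)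
              (CovZ.leaf K2_ok TX_l2856 _)
              (CovZ.n1 (-2094, 7641) (by decide +kernel)
               (CovZ.leaf K2_ok TX_l2857 _)
               (CovZ.leaf K2_ok TX_l2858 _)))))
           (CovZ.n1 (-2090, 7642) (by decide +kernel)
            (CovZ.n2 (-2090, 7640) (by decide +kernel)
             (CovZ.leaf K2_ok TX_l2859 _)
             (CovZ.badM (by decide +kernel)))
            (CovZ.n1 (-2092, 7642) (by decide +kernel)
             (CovZ.badM (by decide +kernel))
             (CovZ.n1 (-2091, 7641) (by decide +kernel)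
              (CovZ.n2 (-2092, 7641) (by decide +kernel)
               (CovZ.badM (by decide +kernel))
               (CovZ.leaf K2_ok TX_l2860 _))
              (CovZ.badM (by decide +kernel))))))
          (CovZ.n1 (-2096, 7644) (by decide +kernel)
           (CovZ.badM (by decide +kernel))
           (CovZ.n1 (-2094, 7642) (by decide +kernel)
            (CovZ.n2 (-2096, 7642) (by decide +kernel)
             (CovZ.leaf K2_ok TX_l2861 _)
             (CovZ.leaf K2_ok TX_l2862 _))
            (CovZ.badM (by decide +kernel)))))
         (CovZ.n1 (-2092, 7636) (by decide +kernel)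
          (CovZ.n2 (-2096, 7636) (by decide +kernel)
           (CovZ.n2 (-2094, 7638) (by decide +kernel)
            (CovZ.leaf K2_ok TX_l2863 _)
            (CovZ.n1 (-2096, 7638) (by decide +kernel)
             (CovZ.leaf K2_ok TX_l2864 _)
             (CovZ.leaf K2_ok TX_l2865 _)))
           (CovZ.n1 (-2094, 7634) (by decide +kernel)
            (CovZ.leaf K2_ok TX_l2866 _)
            (CovZ.leaf K2_ok TX_l2867 _)))
          (CovZ.n1 (-2092, 7640) (by decide +kernel)
           (CovZ.n2 (-2090, 7638) (by decide +kernel)
            (CovZ.n2 (-2092, 7638) (by decide +kernel)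
             (CovZ.leaf K2_ok TX_l2868 _)
             (CovZ.leaf K2_ok TX_l2869 _))
            (CovZ.n1 (-2090, 7640) (by decide +kernel)
             (CovZ.n2 (-2089, 7639) (by decide +kernel)
              (CovZ.leaf K2_ok TX_l2870 _)
              (CovZ.badM (by decide +kernel)))
             (CovZ.n1 (-2091, 7639) (by decide +kernel)
              (CovZ.leaf K2_ok TX_l2872 _)
              (CovZ.leaf K2_ok TX_l2873 _))))
           (CovZ.n1 (-2094, 7638) (by decide +kernel)
            (CovZ.leaf K2_ok TX_l2874 _)
            (CovZ.n1 (-2092, 7638) (by decide +kernel)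
             (CovZ.leaf K2_ok TX_l2875 _)
             (CovZ.n1 (-2093, 7639) (by decide +kernel)
              (CovZ.leaf K2_ok TX_l2876 _)
              (CovZ.leaf K2_ok TX_l2877 _)))))))
        (CovZ.badM (by decide +kernel)))
       (CovZ.n1 (-2104, 7640) (by decide +kernel)
        (CovZ.n2 (-2104, 7648) (by decide +kernel)
         (CovZ.n2 (-2100, 7644) (by decide +kernel)
          (CovZ.n2 (-2104, 7644) (by decide +kernel)
           (CovZ.n2 (-2102, 7646) (by decide +kernel)
            (CovZ.n2 (-2102, 7644) (by decide +kernel)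
             (CovZ.n2 (-2103, 7645) (by decide +kernel)
              (CovZ.n2 (-2102, 7645) (by decide +kernel)
               (CovZ.leaf K2_ok TX_l2878 _)
               (CovZ.leaf K2_ok TX_l2879 _))
              (CovZ.leaf K2_ok TX_l2880 _))
             (CovZ.leaf K2_ok TX_l2881 _))
            (CovZ.n1 (-2104, 7646) (by decide +kernel)
             (CovZ.leaf K2_ok TX_l2882 _)
             (CovZ.n1 (-2103, 7645) (by decide +kernel)
              (CovZ.leaf K2_ok TX_l2883 _)
              (CovZ.leaf K2_ok TX_l2884 _))))
           (CovZ.n1 (-2102, 7642) (by decide +kernel)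
            (CovZ.n2 (-2104, 7642) (by decide +kernel)
             (CovZ.leaf K2_ok TX_l2885 _)
             (CovZ.leaf K2_ok TX_l2886 _))
            (CovZ.leaf K2_ok TX_l2887 _)))
          (CovZ.n1 (-2100, 7648) (by decide +kernel)
           (CovZ.n2 (-2098, 7646) (by decide +kernel)
            (CovZ.n2 (-2100, 7646) (by decide +kernel)
             (CovZ.badM (by decide +kernel))
             (CovZ.leaf K2_ok TX_l2888 _))
            (CovZ.badM (by decide +kernel)))
           (CovZ.n1 (-2102, 7646) (by decide +kernel)
            (CovZ.badM (by decide +kernel))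
            (CovZ.n1 (-2100, 7646) (by decide +kernel)
             (CovZ.leaf K2_ok TX_l2889 _)
             (CovZ.badM (by decide +kernel))))))
         (CovZ.n1 (-2108, 7644) (by decide +kernel)
          (CovZ.n2 (-2108, 7648) (by decide +kernel)
           (CovZ.n2 (-2106, 7646) (by decide +kernel)
            (CovZ.n2 (-2108, 7646) (by decide +kernel)
             (CovZ.leaf K2_ok TX_l2890 _)
             (CovZ.leaf K2_ok TX_l2891 _))
            (CovZ.n1 (-2106, 7648) (by decide +kernel)
             (CovZ.n2 (-2105, 7647) (by decide +kernel)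
              (CovZ.leaf K2_ok TX_l2892 _)
              (CovZ.leaf K2_ok TX_l2893 _))
             (CovZ.n1 (-2107, 7647) (by decide +kernel)
              (CovZ.leaf K2_ok TX_l2894 _)
              (CovZ.n1 (-2106, 7647) (by decide +kernel)
               (CovZ.leaf K2_ok TX_l2895 _)
               (CovZ.leaf K2_ok TX_l2896 _)))))
           (CovZ.n1 (-2110, 7646) (by decide +kernel)
            (CovZ.leaf K2_ok TX_l2897 _)
            (CovZ.n1 (-2108, 7646) (by decide +kernel)
             (CovZ.leaf K2_ok TX_l2898 _)
             (CovZ.leaf K2_ok TX_l2899 _))))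
          (CovZ.n1 (-2104, 7644) (by decide +kernel)
           (CovZ.n2 (-2106, 7642) (by decide +kernel)
            (CovZ.leaf K2_ok TX_l2900 _)
            (CovZ.n1 (-2104, 7642) (by decide +kernel)
             (CovZ.leaf K2_ok TX_l2901 _)
             (CovZ.leaf K2_ok TX_l2902 _)))
           (CovZ.n1 (-2106, 7646) (by decide +kernel)
            (CovZ.n2 (-2104, 7646) (by decide +kernel)
             (CovZ.leaf K2_ok TX_l2903 _)
             (CovZ.n1 (-2105, 7647) (by decide +kernel)
              (CovZ.leaf K2_ok TX_l2904 _)
              (CovZ.n1 (-2105, 7646) (by decide +kernel)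
               (CovZ.leaf K2_ok TX_l2905 _)
               (CovZ.leaf K2_ok TX_l2906 _))))
            (CovZ.n1 (-2106, 7644) (by decide +kernel)
             (CovZ.leaf K2_ok TX_l2907 _)
             (CovZ.n1 (-2105, 7645) (by decide +kernel)
              (CovZ.leaf K2_ok TX_l2908 _)
              (CovZ.leaf K2_ok TX_l2909 _)))))))
        (CovZ.n1 (-2096, 7640) (by decide +kernel)
         (CovZ.n2 (-2100, 7636) (by decide +kernel)
          (CovZ.n2 (-2100, 7640) (by decide +kernel)
           (CovZ.n2 (-2098, 7638) (by decide +kernel)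
            (CovZ.n2 (-2100, 7638) (by decide +kernel)
             (CovZ.leaf K2_ok TX_l2910 _)
             (CovZ.leaf K2_ok TX_l2911 _))
            (CovZ.leaf K2_ok TX_l2912 _))
           (CovZ.n1 (-2102, 7638) (by decide +kernel)
            (CovZ.leaf K2_ok TX_l2913 _)
            (CovZ.n1 (-2100, 7638) (by decide +kernel)
             (CovZ.leaf K2_ok TX_l2914 _)
             (CovZ.leaf K2_ok TX_l2915 _))))
          (CovZ.n1 (-2096, 7636) (by decide +kernel)
           (CovZ.n2 (-2098, 7634) (by decide +kernel)
            (CovZ.leaf K2_ok TX_l2916 _)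
            (CovZ.leaf K2_ok TX_l2917 _))
           (CovZ.n1 (-2098, 7638) (by decide +kernel)
            (CovZ.n2 (-2096, 7638) (by decide +kernel)
             (CovZ.leaf K2_ok TX_l2918 _)
             (CovZ.n1 (-2097, 7639) (by decide +kernel)
              (CovZ.leaf K2_ok TX_l2919 _)
              (CovZ.leaf K2_ok TX_l2920 _)))
            (CovZ.leaf K2_ok TX_l2921 _))))
         (CovZ.n1 (-2100, 7644) (by decide +kernel)
          (CovZ.n2 (-2096, 7644) (by decide +kernel)
           (CovZ.n2 (-2098, 7642) (by decide +kernel)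
            (CovZ.leaf K2_ok TX_l2922 _)
            (CovZ.n1 (-2096, 7642) (by decide +kernel)
             (CovZ.leaf K2_ok TX_l2923 _)
             (CovZ.n1 (-2097, 7643) (by decide +kernel)
              (CovZ.leaf K2_ok TX_l2924 _)
              (CovZ.leaf K2_ok TX_l2925 _))))
           (CovZ.n1 (-2098, 7646) (by decide +kernel)
            (CovZ.badM (by decide +kernel))
            (CovZ.n1 (-2098, 7644) (by decide +kernel)
             (CovZ.leaf K2_ok TX_l2926 _)
             (CovZ.badM (by decide +kernel)))))
          (CovZ.n1 (-2100, 7640) (by decide +kernel)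
           (CovZ.n2 (-2102, 7642) (by decide +kernel)
            (CovZ.n2 (-2100, 7642) (by decide +kernel)
             (CovZ.leaf K2_ok TX_l2927 _)
             (CovZ.leaf K2_ok TX_l2928 _))
            (CovZ.leaf K2_ok TX_l2929 _))
           (CovZ.n1 (-2098, 7642) (by decide +kernel)
            (CovZ.leaf K2_ok TX_l2930 _)
            (CovZ.n1 (-2100, 7642) (by decide +kernel)
             (CovZ.n2 (-2099, 7643) (by decide +kernel)
              (CovZ.leaf K2_ok TX_l2931 _)
              (CovZ.n1 (-2100, 7643) (by decide +kernel)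
               (CovZ.leaf K2_ok TX_l2932 _)
               (CovZ.leaf K2_ok TX_l2933 _)))
             (CovZ.n1 (-2099, 7641) (by decide +kernel)
              (CovZ.leaf K2_ok TX_l2934 _)
              (CovZ.leaf K2_ok TX_l2935 _)))))))))

end Pool.Agent.TET
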