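import Pool.Agent.Helper38_TET.TX_M
import Pool.Agent.Helper38_TET.TX_L
import Pool.Agent.Helper38_TET.TX_3
import Pool.Agent.Helper38_TET.TX_4
import Pool.Agent.Helper38_TET.TX_5
import Pool.Agent.Helper38_TET.TX_7
import Pool.Agent.Helper38_TET.TX_8
import Pool.Agent.Helper38_TET.TX_9
import Pool.Agent.Helper38_TET.TX_10
import Pool.Agent.Helper38_TET.TX_11
import Pool.Agent.Helper38_TET.TX_12
import Pool.Agent.Helper38_TET.TX_15
import Pool.Agent.Helper38_TET.TX_16
import Pool.Agent.Helper38_TET.TX_17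
import Pool.Agent.Helper38_TET.TX_18
import Pool.Agent.Helper38_TET.TX_21
import Pool.Agent.Helper38_TET.TX_22
import Pool.Agent.Helper38_TET.TX_23
import Pool.Agent.Helper38_TET.TX_25
import Pool.Agent.Helper38_TET.TX_26
import Pool.Agent.Helper38_TET.TX_27
import Pool.Agent.Helper38_TET.TX_U0
import Pool.Agent.Helper38_TET.TX_U1

/-!
# MP_c7c9bf_co: certificates, family TX
-/

set_option autoImplicit false
set_option maxRecDepth 100000

namespace Pool.Agent.TET

theorem TX_s0_2 : SqZ TX_M TX_L [0, 7, 4, 3] (-2304) 7424 64 0 2 :=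
  SqZ.mk (a := (-2304)) (b := (-2240)) (c := 7552) (d := 7616) (by norm_num) (by norm_num) (by norm_num) (by norm_num)
    (CovZ.topM TX_LL 3 (by decide +kernel) (CovZ.n2 (-2272, 7584) (by decide +kernel)
    (CovZ.n2 (-2240, 7584) (by decide +kernel)
     (CovZ.n2 (-2256, 7568) (by decide +kernel)
      (CovZ.n2 (-2256, 7584) (by decide +kernel)
       (CovZ.n2 (-2248, 7576) (by decide +kernel)
        (CovZ.n2 (-2256, 7576) (by decide +kernel)
         (CovZ.leaf K2_ok TX_l570 _)
         (CovZ.leaf K2_ok TX_l571 _))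
        (CovZ.leaf K2_ok TX_l572 _))
       (CovZ.n1 (-2264, 7576) (by decide +kernel)
        (CovZ.leaf K2_ok TX_l573 _)
        (CovZ.n1 (-2256, 7576) (by decide +kernel)
         (CovZ.leaf K2_ok TX_l574 _)
         (CovZ.leaf K2_ok TX_l575 _))))
      (CovZ.n1 (-2240, 7568) (by decide +kernel)
       (CovZ.n2 (-2248, 7560) (by decide +kernel)
        (CovZ.leaf K2_ok TX_l576 _)
        (CovZ.n1 (-2240, 7560) (by decide +kernel)
         (CovZ.leaf K2_ok TX_l577 _)
         (CovZ.leaf K2_ok TX_l578 _)))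
       (CovZ.n1 (-2248, 7576) (by decide +kernel)
        (CovZ.n2 (-2240, 7576) (by decide +kernel)
         (CovZ.leaf K2_ok TX_l579 _)
         (CovZ.leaf K2_ok TX_l580 _))
        (CovZ.leaf K2_ok TX_l581 _))))
     (CovZ.n1 (-2256, 7600) (by decide +kernel)
      (CovZ.n2 (-2240, 7600) (by decide +kernel)
       (CovZ.n2 (-2248, 7592) (by decide +kernel)
        (CovZ.leaf K2_ok TX_l582 _)
        (CovZ.n1 (-2240, 7592) (by decide +kernel)
         (CovZ.leaf K2_ok TX_l583 _)
         (CovZ.leaf K2_ok TX_l584 _)))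
       (CovZ.n1 (-2248, 7608) (by decide +kernel)
        (CovZ.n2 (-2240, 7608) (by decide +kernel)
         (CovZ.leaf K2_ok TX_l585 _)
         (CovZ.leaf K2_ok TX_l586 _))
        (CovZ.leaf K2_ok TX_l587 _)))
      (CovZ.n1 (-2256, 7584) (by decide +kernel)
       (CovZ.n2 (-2264, 7592) (by decide +kernel)
        (CovZ.n2 (-2256, 7592) (by decide +kernel)
         (CovZ.leaf K2_ok TX_l588 _)
         (CovZ.leaf K2_ok TX_l589 _))
        (CovZ.leaf K2_ok TX_l590 _))
       (CovZ.n1 (-2248, 7592) (by decide +kernel)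
        (CovZ.leaf K2_ok TX_l591 _)
        (CovZ.n1 (-2256, 7592) (by decide +kernel)
         (CovZ.leaf K2_ok TX_l592 _)
         (CovZ.leaf K2_ok TX_l593 _))))))
    (CovZ.n1 (-2272, 7552) (by decide +kernel)
     (CovZ.n2 (-2288, 7568) (by decide +kernel)
      (CovZ.n2 (-2272, 7568) (by decide +kernel)
       (CovZ.n2 (-2280, 7560) (by decide +kernel)
        (CovZ.leaf K2_ok TX_l594 _)
        (CovZ.n1 (-2272, 7560) (by decide +kernel)
         (CovZ.leaf K2_ok TX_l595 _)
         (CovZ.leaf K2_ok TX_l596 _)))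
       (CovZ.n1 (-2280, 7576) (by decide +kernel)
        (CovZ.n2 (-2272, 7576) (by decide +kernel)
         (CovZ.leaf K2_ok TX_l597 _)
         (CovZ.leaf K2_ok TX_l598 _))
        (CovZ.leaf K2_ok TX_l599 _)))
      (CovZ.n1 (-2288, 7552) (by decide +kernel)
       (CovZ.n2 (-2296, 7560) (by decide +kernel)
        (CovZ.n2 (-2288, 7560) (by decide +kernel)
         (CovZ.leaf K2_ok TX_l600 _)
         (CovZ.leaf K2_ok TX_l601 _))
        (CovZ.leaf K2_ok TX_l602 _))
       (CovZ.n1 (-2280, 7560) (by decide +kernel)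
        (CovZ.leaf K2_ok TX_l603 _)
        (CovZ.n1 (-2288, 7560) (by decide +kernel)
         (CovZ.leaf K2_ok TX_l604 _)
         (CovZ.leaf K2_ok TX_l605 _)))))
     (CovZ.n1 (-2256, 7568) (by decide +kernel)
      (CovZ.n2 (-2256, 7552) (by decide +kernel)
       (CovZ.n2 (-2264, 7560) (by decide +kernel)
        (CovZ.n2 (-2256, 7560) (by decide +kernel)
         (CovZ.leaf K2_ok TX_l606 _)
         (CovZ.leaf K2_ok TX_l607 _))
        (CovZ.leaf K2_ok TX_l608 _))
       (CovZ.n1 (-2248, 7560) (by decide +kernel)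
        (CovZ.leaf K2_ok TX_l609 _)
        (CovZ.n1 (-2256, 7560) (by decide +kernel)
         (CovZ.leaf K2_ok TX_l610 _)
         (CovZ.leaf K2_ok TX_l611 _))))
      (CovZ.n1 (-2272, 7568) (by decide +kernel)
       (CovZ.n2 (-2264, 7576) (by decide +kernel)
        (CovZ.leaf K2_ok TX_l612 _)
        (CovZ.n1 (-2272, 7576) (by decide +kernel)
         (CovZ.leaf K2_ok TX_l613 _)
         (CovZ.leaf K2_ok TX_l614 _)))
       (CovZ.n1 (-2264, 7560) (by decide +kernel)
        (CovZ.n2 (-2272, 7560) (by decide +kernel)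
         (CovZ.leaf K2_ok TX_l615 _)
         (CovZ.leaf K2_ok TX_l616 _))
        (CovZ.n1 (-2264, 7568) (by decide +kernel)
         (CovZ.leaf K2_ok TX_l617 _)
         (CovZ.leaf K2_ok TX_l618 _))))))))
    (CovZ.topM TX_LL 3 (by decide +kernel) (CovZ.n0 (-2272, 7584) (by decide +kernel)
    (CovZ.n2 (-2304, 7584) (by decide +kernel)
     (CovZ.n2 (-2288, 7600) (by decide +kernel)
      (CovZ.n2 (-2288, 7584) (by decide +kernel)
       (CovZ.n2 (-2296, 7592) (by decide +kernel)
        (CovZ.n2 (-2288, 7592) (by decide +kernel)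
         (CovZ.leaf K2_ok TX_l619 _)
         (CovZ.leaf K2_ok TX_l620 _))
        (CovZ.leaf K2_ok TX_l621 _))
       (CovZ.n1 (-2280, 7592) (by decide +kernel)
        (CovZ.leaf K2_ok TX_l622 _)
        (CovZ.n1 (-2288, 7592) (by decide +kernel)
         (CovZ.leaf K2_ok TX_l623 _)
         (CovZ.leaf K2_ok TX_l624 _))))
      (CovZ.n1 (-2304, 7600) (by decide +kernel)
       (CovZ.n2 (-2296, 7608) (by decide +kernel)
        (CovZ.leaf K2_ok TX_l625 _)
        (CovZ.n1 (-2304, 7608) (by decide +kernel)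
         (CovZ.leaf K2_ok TX_l626 _)
         (CovZ.leaf K2_ok TX_l627 _)))
       (CovZ.n1 (-2296, 7592) (by decide +kernel)
        (CovZ.n2 (-2304, 7592) (by decide +kernel)
         (CovZ.leaf K2_ok TX_l628 _)
         (CovZ.leaf K2_ok TX_l629 _))
        (CovZ.leaf K2_ok TX_l630 _))))
     (CovZ.n1 (-2288, 7568) (by decide +kernel)
      (CovZ.n2 (-2304, 7568) (by decide +kernel)
       (CovZ.n2 (-2296, 7576) (by decide +kernel)
        (CovZ.leaf K2_ok TX_l631 _)
        (CovZ.n1 (-2304, 7576) (by decide +kernel)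
         (CovZ.leaf K2_ok TX_l632 _)
         (CovZ.leaf K2_ok TX_l633 _)))
       (CovZ.n1 (-2296, 7560) (by decide +kernel)
        (CovZ.n2 (-2304, 7560) (by decide +kernel)
         (CovZ.leaf K2_ok TX_l634 _)
         (CovZ.leaf K2_ok TX_l635 _))
        (CovZ.leaf K2_ok TX_l636 _)))
      (CovZ.n1 (-2288, 7584) (by decide +kernel)
       (CovZ.n2 (-2280, 7576) (by decide +kernel)
        (CovZ.n2 (-2288, 7576) (by decide +kernel)
         (CovZ.leaf K2_ok TX_l637 _)
         (CovZ.leaf K2_ok TX_l638 _))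
        (CovZ.n1 (-2280, 7584) (by decide +kernel)
         (CovZ.leaf K2_ok TX_l639 _)
         (CovZ.leaf K2_ok TX_l640 _)))
       (CovZ.n1 (-2296, 7576) (by decide +kernel)
        (CovZ.leaf K2_ok TX_l641 _)
        (CovZ.n1 (-2288, 7576) (by decide +kernel)
         (CovZ.leaf K2_ok TX_l642 _)
         (CovZ.leaf K2_ok TX_l643 _))))))
    (CovZ.n1 (-2272, 7616) (by decide +kernel)
     (CovZ.n2 (-2256, 7600) (by decide +kernel)
      (CovZ.n2 (-2272, 7600) (by decide +kernel)
       (CovZ.n2 (-2264, 7608) (by decide +kernel)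
        (CovZ.leaf K2_ok TX_l644 _)
        (CovZ.n1 (-2272, 7608) (by decide +kernel)
         (CovZ.leaf K2_ok TX_l645 _)
         (CovZ.leaf K2_ok TX_l646 _)))
       (CovZ.n1 (-2264, 7592) (by decide +kernel)
        (CovZ.n2 (-2272, 7592) (by decide +kernel)
         (CovZ.leaf K2_ok TX_l647 _)
         (CovZ.leaf K2_ok TX_l648 _))
        (CovZ.leaf K2_ok TX_l649 _)))
      (CovZ.n1 (-2256, 7616) (by decide +kernel)
       (CovZ.n2 (-2248, 7608) (by decide +kernel)
        (CovZ.n2 (-2256, 7608) (by decide +kernel)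
         (CovZ.leaf K2_ok TX_l650 _)
         (CovZ.leaf K2_ok TX_l651 _))
        (CovZ.leaf K2_ok TX_l652 _))
       (CovZ.n1 (-2264, 7608) (by decide +kernel)
        (CovZ.leaf K2_ok TX_l653 _)
        (CovZ.n1 (-2256, 7608) (by decide +kernel)
         (CovZ.leaf K2_ok TX_l654 _)
         (CovZ.leaf K2_ok TX_l655 _)))))
     (CovZ.n1 (-2288, 7600) (by decide +kernel)
      (CovZ.n2 (-2288, 7616) (by decide +kernel)
       (CovZ.n2 (-2280, 7608) (by decide +kernel)
        (CovZ.n2 (-2288, 7608) (by decide +kernel)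
         (CovZ.leaf K2_ok TX_l656 _)
         (CovZ.leaf K2_ok TX_l657 _))
        (CovZ.leaf K2_ok TX_l658 _))
       (CovZ.n1 (-2296, 7608) (by decide +kernel)
        (CovZ.leaf K2_ok TX_l659 _)
        (CovZ.n1 (-2288, 7608) (by decide +kernel)
         (CovZ.leaf K2_ok TX_l660 _)
         (CovZ.leaf K2_ok TX_l661 _))))
      (CovZ.n1 (-2272, 7600) (by decide +kernel)
       (CovZ.n2 (-2280, 7592) (by decide +kernel)
        (CovZ.leaf K2_ok TX_l662 _)
        (CovZ.n1 (-2272, 7592) (by decide +kernel)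
         (CovZ.leaf K2_ok TX_l663 _)
         (CovZ.leaf K2_ok TX_l664 _)))
       (CovZ.n1 (-2280, 7608) (by decide +kernel)
        (CovZ.n2 (-2272, 7608) (by decide +kernel)
         (CovZ.leaf K2_ok TX_l665 _)
         (CovZ.leaf K2_ok TX_l666 _))
        (CovZ.leaf K2_ok TX_l667 _)))))))

theorem TX_s1_2 : SqZ TX_M TX_L [0, 7, 4, 3] (-2304) 7424 64 1 2 :=
  SqZ.mk (a := (-2240)) (b := (-2176)) (c := 7552) (d := 7616) (by norm_num) (by norm_num) (by norm_num) (by norm_num)
    (CovZ.topM TX_LL 3 (by decide +kernel) (CovZ.n2 (-2208, 7584) (by decide +kernel)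
    (CovZ.n2 (-2176, 7584) (by decide +kernel)
     (CovZ.n2 (-2192, 7568) (by decide +kernel)
      (CovZ.n2 (-2192, 7584) (by decide +kernel)
       (CovZ.n2 (-2184, 7576) (by decide +kernel)
        (CovZ.n2 (-2192, 7576) (by decide +kernel)
         (CovZ.leaf K2_ok TX_l1146 _)
         (CovZ.leaf K2_ok TX_l1147 _))
        (CovZ.leaf K2_ok TX_l1148 _))
       (CovZ.n1 (-2200, 7576) (by decide +kernel)
        (CovZ.leaf K2_ok TX_l1149 _)
        (CovZ.n1 (-2192, 7576) (by decide +kernel)
         (CovZ.leaf K2_ok TX_l1150 _)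
         (CovZ.leaf K2_ok TX_l1151 _))))
      (CovZ.n1 (-2176, 7568) (by decide +kernel)
       (CovZ.n2 (-2184, 7560) (by decide +kernel)
        (CovZ.leaf K2_ok TX_l1152 _)
        (CovZ.n1 (-2176, 7560) (by decide +kernel)
         (CovZ.leaf K2_ok TX_l1153 _)
         (CovZ.leaf K2_ok TX_l1154 _)))
       (CovZ.n1 (-2184, 7576) (by decide +kernel)
        (CovZ.n2 (-2176, 7576) (by decide +kernel)
         (CovZ.leaf K2_ok TX_l1155 _)
         (CovZ.leaf K2_ok TX_l1156 _))
        (CovZ.leaf K2_ok TX_l1157 _))))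
     (CovZ.n1 (-2192, 7600) (by decide +kernel)
      (CovZ.n2 (-2176, 7600) (by decide +kernel)
       (CovZ.n2 (-2184, 7592) (by decide +kernel)
        (CovZ.leaf K2_ok TX_l1158 _)
        (CovZ.leaf K2_ok TX_l1159 _))
       (CovZ.leaf K2_ok TX_l1160 _))
      (CovZ.n1 (-2192, 7584) (by decide +kernel)
       (CovZ.n2 (-2200, 7592) (by decide +kernel)
        (CovZ.n2 (-2192, 7592) (by decide +kernel)
         (CovZ.leaf K2_ok TX_l1161 _)
         (CovZ.leaf K2_ok TX_l1162 _))
        (CovZ.leaf K2_ok TX_l1163 _))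
       (CovZ.n1 (-2184, 7592) (by decide +kernel)
        (CovZ.leaf K2_ok TX_l1164 _)
        (CovZ.leaf K2_ok TX_l1165 _)))))
    (CovZ.n1 (-2208, 7552) (by decide +kernel)
     (CovZ.n2 (-2224, 7568) (by decide +kernel)
      (CovZ.n2 (-2208, 7568) (by decide +kernel)
       (CovZ.n2 (-2216, 7560) (by decide +kernel)
        (CovZ.leaf K2_ok TX_l1166 _)
        (CovZ.n1 (-2208, 7560) (by decide +kernel)
         (CovZ.leaf K2_ok TX_l1167 _)
         (CovZ.leaf K2_ok TX_l1168 _)))
       (CovZ.n1 (-2216, 7576) (by decide +kernel)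
        (CovZ.n2 (-2208, 7576) (by decide +kernel)
         (CovZ.leaf K2_ok TX_l1169 _)
         (CovZ.leaf K2_ok TX_l1170 _))
        (CovZ.leaf K2_ok TX_l1171 _)))
      (CovZ.n1 (-2224, 7552) (by decide +kernel)
       (CovZ.n2 (-2232, 7560) (by decide +kernel)
        (CovZ.n2 (-2224, 7560) (by decide +kernel)
         (CovZ.leaf K2_ok TX_l1172 _)
         (CovZ.leaf K2_ok TX_l1173 _))
        (CovZ.leaf K2_ok TX_l1174 _))
       (CovZ.n1 (-2216, 7560) (by decide +kernel)
        (CovZ.leaf K2_ok TX_l1175 _)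
        (CovZ.n1 (-2224, 7560) (by decide +kernel)
         (CovZ.leaf K2_ok TX_l1176 _)
         (CovZ.leaf K2_ok TX_l1177 _)))))
     (CovZ.n1 (-2192, 7568) (by decide +kernel)
      (CovZ.n2 (-2192, 7552) (by decide +kernel)
       (CovZ.n2 (-2200, 7560) (by decide +kernel)
        (CovZ.n2 (-2192, 7560) (by decide +kernel)
         (CovZ.leaf K2_ok TX_l1178 _)
         (CovZ.leaf K2_ok TX_l1179 _))
        (CovZ.leaf K2_ok TX_l1180 _))
       (CovZ.n1 (-2184, 7560) (by decide +kernel)
        (CovZ.leaf K2_ok TX_l1181 _)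
        (CovZ.n1 (-2192, 7560) (by decide +kernel)
         (CovZ.leaf K2_ok TX_l1182 _)
         (CovZ.leaf K2_ok TX_l1183 _))))
      (CovZ.n1 (-2208, 7568) (by decide +kernel)
       (CovZ.n2 (-2200, 7576) (by decide +kernel)
        (CovZ.leaf K2_ok TX_l1184 _)
        (CovZ.n1 (-2208, 7576) (by decide +kernel)
         (CovZ.leaf K2_ok TX_l1185 _)
         (CovZ.leaf K2_ok TX_l1186 _)))
       (CovZ.n1 (-2200, 7560) (by decide +kernel)
        (CovZ.n2 (-2208, 7560) (by decide +kernel)
         (CovZ.leaf K2_ok TX_l1187 _)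
         (CovZ.leaf K2_ok TX_l1188 _))
        (CovZ.leaf K2_ok TX_l1189 _)))))))
    (CovZ.topM TX_LL 3 (by decide +kernel) (CovZ.n0 (-2208, 7584) (by decide +kernel)
    (CovZ.n2 (-2240, 7584) (by decide +kernel)
     (CovZ.n2 (-2224, 7600) (by decide +kernel)
      (CovZ.n2 (-2224, 7584) (by decide +kernel)
       (CovZ.n2 (-2232, 7592) (by decide +kernel)
        (CovZ.n2 (-2224, 7592) (by decide +kernel)
         (CovZ.leaf K2_ok TX_l1190 _)
         (CovZ.leaf K2_ok TX_l1191 _))
        (CovZ.leaf K2_ok TX_l1192 _))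
       (CovZ.n1 (-2216, 7592) (by decide +kernel)
        (CovZ.leaf K2_ok TX_l1193 _)
        (CovZ.n1 (-2224, 7592) (by decide +kernel)
         (CovZ.leaf K2_ok TX_l1194 _)
         (CovZ.leaf K2_ok TX_l1195 _))))
      (CovZ.n1 (-2240, 7600) (by decide +kernel)
       (CovZ.n2 (-2232, 7608) (by decide +kernel)
        (CovZ.leaf K2_ok TX_l1196 _)
        (CovZ.n1 (-2240, 7608) (by decide +kernel)
         (CovZ.leaf K2_ok TX_l1197 _)
         (CovZ.leaf K2_ok TX_l1198 _)))
       (CovZ.n1 (-2232, 7592) (by decide +kernel)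
        (CovZ.n2 (-2240, 7592) (by decide +kernel)
         (CovZ.leaf K2_ok TX_l1199 _)
         (CovZ.leaf K2_ok TX_l1200 _))
        (CovZ.leaf K2_ok TX_l1201 _))))
     (CovZ.n1 (-2224, 7568) (by decide +kernel)
      (CovZ.n2 (-2240, 7568) (by decide +kernel)
       (CovZ.n2 (-2232, 7576) (by decide +kernel)
        (CovZ.leaf K2_ok TX_l1202 _)
        (CovZ.n1 (-2240, 7576) (by decide +kernel)
         (CovZ.leaf K2_ok TX_l1203 _)
         (CovZ.leaf K2_ok TX_l1204 _)))
       (CovZ.n1 (-2232, 7560) (by decide +kernel)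
        (CovZ.n2 (-2240, 7560) (by decide +kernel)
         (CovZ.leaf K2_ok TX_l1205 _)
         (CovZ.leaf K2_ok TX_l1206 _))
        (CovZ.leaf K2_ok TX_l1207 _)))
      (CovZ.n1 (-2224, 7584) (by decide +kernel)
       (CovZ.n2 (-2216, 7576) (by decide +kernel)
        (CovZ.n2 (-2224, 7576) (by decide +kernel)
         (CovZ.leaf K2_ok TX_l1208 _)
         (CovZ.leaf K2_ok TX_l1209 _))
        (CovZ.leaf K2_ok TX_l1210 _))
       (CovZ.n1 (-2232, 7576) (by decide +kernel)
        (CovZ.leaf K2_ok TX_l1211 _)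
        (CovZ.n1 (-2224, 7576) (by decide +kernel)
         (CovZ.leaf K2_ok TX_l1212 _)
         (CovZ.leaf K2_ok TX_l1213 _))))))
    (CovZ.n1 (-2208, 7616) (by decide +kernel)
     (CovZ.n2 (-2192, 7600) (by decide +kernel)
      (CovZ.n2 (-2208, 7600) (by decide +kernel)
       (CovZ.n2 (-2200, 7608) (by decide +kernel)
        (CovZ.leaf K2_ok TX_l1214 _)
        (CovZ.leaf K2_ok TX_l1215 _))
       (CovZ.n1 (-2200, 7592) (by decide +kernel)
        (CovZ.n2 (-2208, 7592) (by decide +kernel)
         (CovZ.leaf K2_ok TX_l1216 _)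
         (CovZ.leaf K2_ok TX_l1217 _))
        (CovZ.leaf K2_ok TX_l1218 _)))
      (CovZ.n1 (-2192, 7616) (by decide +kernel)
       (CovZ.n2 (-2184, 7608) (by decide +kernel)
        (CovZ.leaf K2_ok TX_l1219 _)
        (CovZ.leaf K2_ok TX_l1220 _))
       (CovZ.n1 (-2200, 7608) (by decide +kernel)
        (CovZ.leaf K2_ok TX_l1221 _)
        (CovZ.leaf K2_ok TX_l1222 _))))
     (CovZ.n1 (-2224, 7600) (by decide +kernel)
      (CovZ.n2 (-2224, 7616) (by decide +kernel)
       (CovZ.n2 (-2216, 7608) (by decide +kernel)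
        (CovZ.leaf K2_ok TX_l1223 _)
        (CovZ.leaf K2_ok TX_l1224 _))
       (CovZ.n1 (-2232, 7608) (by decide +kernel)
        (CovZ.leaf K2_ok TX_l1225 _)
        (CovZ.n1 (-2224, 7608) (by decide +kernel)
         (CovZ.leaf K2_ok TX_l1226 _)
         (CovZ.leaf K2_ok TX_l1227 _))))
      (CovZ.n1 (-2208, 7600) (by decide +kernel)
       (CovZ.n2 (-2216, 7592) (by decide +kernel)
        (CovZ.leaf K2_ok TX_l1228 _)
        (CovZ.n1 (-2208, 7592) (by decide +kernel)
         (CovZ.leaf K2_ok TX_l1229 _)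
         (CovZ.leaf K2_ok TX_l1230 _)))
       (CovZ.n1 (-2216, 7608) (by decide +kernel)
        (CovZ.n2 (-2208, 7608) (by decide +kernel)
         (CovZ.leaf K2_ok TX_l1231 _)
         (CovZ.leaf K2_ok TX_l1232 _))
        (CovZ.leaf K2_ok TX_l1233 _)))))))

theorem TX_s2_2 : SqZ TX_M TX_L [0, 7, 4, 3] (-2304) 7424 64 2 2 :=
  SqZ.mk (a := (-2176)) (b := (-2112)) (c := 7552) (d := 7616) (by norm_num) (by norm_num) (by norm_num) (by norm_num)
    (CovZ.topM TX_LL 3 (by decide +kernel) (CovZ.n2 (-2144, 7584) (by decide +kernel)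
    (CovZ.n2 (-2112, 7584) (by decide +kernel)
     (CovZ.n2 (-2128, 7568) (by decide +kernel)
      (CovZ.n2 (-2128, 7584) (by decide +kernel)
       (CovZ.n2 (-2120, 7576) (by decide +kernel)
        (CovZ.leaf K2_ok TX_l1598 _)
        (CovZ.leaf K2_ok TX_l1599 _))
       (CovZ.n1 (-2136, 7576) (by decide +kernel)
        (CovZ.leaf K2_ok TX_l1600 _)
        (CovZ.leaf K2_ok TX_l1601 _)))
      (CovZ.n1 (-2112, 7568) (by decide +kernel)
       (CovZ.n2 (-2120, 7560) (by decide +kernel)
        (CovZ.leaf K2_ok TX_l1602 _)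
        (CovZ.leaf K2_ok TX_l1603 _))
       (CovZ.leaf K2_ok TX_l1604 _)))
     (CovZ.n1 (-2128, 7600) (by decide +kernel)
      (CovZ.n2 (-2112, 7600) (by decide +kernel)
       (CovZ.n2 (-2120, 7592) (by decide +kernel)
        (CovZ.leaf K2_ok TX_l1605 _)
        (CovZ.n1 (-2112, 7592) (by decide +kernel)
         (CovZ.leaf K2_ok TX_l1606 _)
         (CovZ.leaf K2_ok TX_l1607 _)))
       (CovZ.n1 (-2120, 7608) (by decide +kernel)
        (CovZ.n2 (-2112, 7608) (by decide +kernel)
         (CovZ.leaf K2_ok TX_l1608 _)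
         (CovZ.leaf K2_ok TX_l1609 _))
        (CovZ.leaf K2_ok TX_l1610 _)))
      (CovZ.n1 (-2128, 7584) (by decide +kernel)
       (CovZ.n2 (-2136, 7592) (by decide +kernel)
        (CovZ.leaf K2_ok TX_l1611 _)
        (CovZ.leaf K2_ok TX_l1612 _))
       (CovZ.n1 (-2120, 7592) (by decide +kernel)
        (CovZ.leaf K2_ok TX_l1613 _)
        (CovZ.leaf K2_ok TX_l1614 _)))))
    (CovZ.n1 (-2144, 7552) (by decide +kernel)
     (CovZ.n2 (-2160, 7568) (by decide +kernel)
      (CovZ.n2 (-2144, 7568) (by decide +kernel)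
       (CovZ.n2 (-2152, 7560) (by decide +kernel)
        (CovZ.leaf K2_ok TX_l1615 _)
        (CovZ.n1 (-2144, 7560) (by decide +kernel)
         (CovZ.leaf K2_ok TX_l1616 _)
         (CovZ.leaf K2_ok TX_l1617 _)))
       (CovZ.n1 (-2152, 7576) (by decide +kernel)
        (CovZ.leaf K2_ok TX_l1618 _)
        (CovZ.leaf K2_ok TX_l1619 _)))
      (CovZ.n1 (-2160, 7552) (by decide +kernel)
       (CovZ.n2 (-2168, 7560) (by decide +kernel)
        (CovZ.n2 (-2160, 7560) (by decide +kernel)
         (CovZ.leaf K2_ok TX_l1620 _)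
         (CovZ.leaf K2_ok TX_l1621 _))
        (CovZ.leaf K2_ok TX_l1622 _))
       (CovZ.n1 (-2152, 7560) (by decide +kernel)
        (CovZ.leaf K2_ok TX_l1623 _)
        (CovZ.n1 (-2160, 7560) (by decide +kernel)
         (CovZ.leaf K2_ok TX_l1624 _)
         (CovZ.leaf K2_ok TX_l1625 _)))))
     (CovZ.n1 (-2128, 7568) (by decide +kernel)
      (CovZ.n2 (-2128, 7552) (by decide +kernel)
       (CovZ.n2 (-2136, 7560) (by decide +kernel)
        (CovZ.leaf K2_ok TX_l1626 _)
        (CovZ.leaf K2_ok TX_l1627 _))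
       (CovZ.n1 (-2120, 7560) (by decide +kernel)
        (CovZ.leaf K2_ok TX_l1628 _)
        (CovZ.leaf K2_ok TX_l1629 _)))
      (CovZ.n1 (-2144, 7568) (by decide +kernel)
       (CovZ.n2 (-2136, 7576) (by decide +kernel)
        (CovZ.leaf K2_ok TX_l1630 _)
        (CovZ.leaf K2_ok TX_l1631 _))
       (CovZ.n1 (-2136, 7560) (by decide +kernel)
        (CovZ.n2 (-2144, 7560) (by decide +kernel)
         (CovZ.leaf K2_ok TX_l1632 _)
         (CovZ.leaf K2_ok TX_l1633 _))
        (CovZ.leaf K2_ok TX_l1634 _)))))))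
    (CovZ.topM TX_LL 3 (by decide +kernel) (CovZ.n0 (-2144, 7584) (by decide +kernel)
    (CovZ.n2 (-2176, 7584) (by decide +kernel)
     (CovZ.n2 (-2160, 7600) (by decide +kernel)
      (CovZ.n2 (-2160, 7584) (by decide +kernel)
       (CovZ.n2 (-2168, 7592) (by decide +kernel)
        (CovZ.leaf K2_ok TX_l1635 _)
        (CovZ.leaf K2_ok TX_l1636 _))
       (CovZ.n1 (-2152, 7592) (by decide +kernel)
        (CovZ.leaf K2_ok TX_l1637 _)
        (CovZ.leaf K2_ok TX_l1638 _)))
      (CovZ.n1 (-2176, 7600) (by decide +kernel)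
       (CovZ.n2 (-2168, 7608) (by decide +kernel)
        (CovZ.leaf K2_ok TX_l1639 _)
        (CovZ.leaf K2_ok TX_l1640 _))
       (CovZ.n1 (-2168, 7592) (by decide +kernel)
        (CovZ.leaf K2_ok TX_l1641 _)
        (CovZ.leaf K2_ok TX_l1642 _))))
     (CovZ.n1 (-2160, 7568) (by decide +kernel)
      (CovZ.n2 (-2176, 7568) (by decide +kernel)
       (CovZ.n2 (-2168, 7576) (by decide +kernel)
        (CovZ.leaf K2_ok TX_l1643 _)
        (CovZ.n1 (-2176, 7576) (by decide +kernel)
         (CovZ.leaf K2_ok TX_l1644 _)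
         (CovZ.leaf K2_ok TX_l1645 _)))
       (CovZ.n1 (-2168, 7560) (by decide +kernel)
        (CovZ.n2 (-2176, 7560) (by decide +kernel)
         (CovZ.leaf K2_ok TX_l1646 _)
         (CovZ.leaf K2_ok TX_l1647 _))
        (CovZ.leaf K2_ok TX_l1648 _)))
      (CovZ.n1 (-2160, 7584) (by decide +kernel)
       (CovZ.n2 (-2152, 7576) (by decide +kernel)
        (CovZ.leaf K2_ok TX_l1649 _)
        (CovZ.leaf K2_ok TX_l1650 _))
       (CovZ.n1 (-2168, 7576) (by decide +kernel)
        (CovZ.leaf K2_ok TX_l1651 _)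
        (CovZ.leaf K2_ok TX_l1652 _)))))
    (CovZ.n1 (-2144, 7616) (by decide +kernel)
     (CovZ.n2 (-2128, 7600) (by decide +kernel)
      (CovZ.n2 (-2144, 7600) (by decide +kernel)
       (CovZ.n2 (-2136, 7608) (by decide +kernel)
        (CovZ.leaf K2_ok TX_l1653 _)
        (CovZ.n1 (-2144, 7608) (by decide +kernel)
         (CovZ.leaf K2_ok TX_l1654 _)
         (CovZ.leaf K2_ok TX_l1655 _)))
       (CovZ.n1 (-2136, 7592) (by decide +kernel)
        (CovZ.leaf K2_ok TX_l1656 _)
        (CovZ.leaf K2_ok TX_l1657 _)))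
      (CovZ.n1 (-2128, 7616) (by decide +kernel)
       (CovZ.n2 (-2120, 7608) (by decide +kernel)
        (CovZ.n2 (-2128, 7608) (by decide +kernel)
         (CovZ.leaf K2_ok TX_l1658 _)
         (CovZ.leaf K2_ok TX_l1659 _))
        (CovZ.leaf K2_ok TX_l1660 _))
       (CovZ.n1 (-2136, 7608) (by decide +kernel)
        (CovZ.leaf K2_ok TX_l1661 _)
        (CovZ.n1 (-2128, 7608) (by decide +kernel)
         (CovZ.leaf K2_ok TX_l1662 _)
         (CovZ.leaf K2_ok TX_l1663 _)))))
     (CovZ.n1 (-2160, 7600) (by decide +kernel)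
      (CovZ.n2 (-2160, 7616) (by decide +kernel)
       (CovZ.n2 (-2152, 7608) (by decide +kernel)
        (CovZ.leaf K2_ok TX_l1664 _)
        (CovZ.leaf K2_ok TX_l1665 _))
       (CovZ.n1 (-2168, 7608) (by decide +kernel)
        (CovZ.leaf K2_ok TX_l1666 _)
        (CovZ.leaf K2_ok TX_l1667 _)))
      (CovZ.n1 (-2144, 7600) (by decide +kernel)
       (CovZ.leaf K2_ok TX_l1668 _)
       (CovZ.n1 (-2152, 7608) (by decide +kernel)
        (CovZ.n2 (-2144, 7608) (by decide +kernel)
         (CovZ.leaf K2_ok TX_l1669 _)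
         (CovZ.leaf K2_ok TX_l1670 _))
        (CovZ.leaf K2_ok TX_l1671 _)))))))

theorem TX_s3_2 : SqZ TX_M TX_L [0, 7, 4, 3] (-2304) 7424 64 3 2 :=
  SqZ.mk (a := (-2112)) (b := (-2048)) (c := 7552) (d := 7616) (by norm_num) (by norm_num) (by norm_num) (by norm_num)
    (CovZ.topM TX_LL 3 (by decide +kernel) (CovZ.n2 (-2080, 7584) (by decide +kernel)
    (CovZ.n2 (-2048, 7584) (by decide +kernel)
     (CovZ.n2 (-2064, 7568) (by decide +kernel)
      (CovZ.n2 (-2064, 7584) (by decide +kernel)
       (CovZ.n2 (-2056, 7576) (by decide +kernel)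
        (CovZ.n2 (-2064, 7576) (by decide +kernel)
         (CovZ.leaf K2_ok TX_l2348 _)
         (CovZ.leaf K2_ok TX_l2349 _))
        (CovZ.leaf K2_ok TX_l2350 _))
       (CovZ.n1 (-2072, 7576) (by decide +kernel)
        (CovZ.leaf K2_ok TX_l2351 _)
        (CovZ.n1 (-2064, 7576) (by decide +kernel)
         (CovZ.leaf K2_ok TX_l2352 _)
         (CovZ.leaf K2_ok TX_l2353 _))))
      (CovZ.n1 (-2048, 7568) (by decide +kernel)
       (CovZ.n2 (-2056, 7560) (by decide +kernel)
        (CovZ.leaf K2_ok TX_l2354 _)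
        (CovZ.n1 (-2048, 7560) (by decide +kernel)
         (CovZ.leaf K2_ok TX_l2355 _)
         (CovZ.leaf K2_ok TX_l2356 _)))
       (CovZ.n1 (-2056, 7576) (by decide +kernel)
        (CovZ.n2 (-2048, 7576) (by decide +kernel)
         (CovZ.leaf K2_ok TX_l2357 _)
         (CovZ.leaf K2_ok TX_l2358 _))
        (CovZ.leaf K2_ok TX_l2359 _))))
     (CovZ.n1 (-2064, 7600) (by decide +kernel)
      (CovZ.n2 (-2048, 7600) (by decide +kernel)
       (CovZ.n2 (-2056, 7592) (by decide +kernel)
        (CovZ.n2 (-2056, 7600) (by decide +kernel)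
         (CovZ.n2 (-2052, 7596) (by decide +kernel)
          (CovZ.n2 (-2056, 7596) (by decide +kernel)
           (CovZ.leaf K2_ok TX_l2360 _)
           (CovZ.leaf K2_ok TX_l2361 _))
          (CovZ.leaf K2_ok TX_l2362 _))
         (CovZ.n1 (-2060, 7596) (by decide +kernel)
          (CovZ.leaf K2_ok TX_l2363 _)
          (CovZ.leaf K2_ok TX_l2364 _)))
        (CovZ.n1 (-2048, 7592) (by decide +kernel)
         (CovZ.n2 (-2052, 7588) (by decide +kernel)
          (CovZ.leaf K2_ok TX_l2365 _)
          (CovZ.leaf K2_ok TX_l2366 _))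
         (CovZ.n1 (-2052, 7596) (by decide +kernel)
          (CovZ.n2 (-2048, 7596) (by decide +kernel)
           (CovZ.leaf K2_ok TX_l2367 _)
           (CovZ.leaf K2_ok TX_l2368 _))
          (CovZ.leaf K2_ok TX_l2369 _))))
       (CovZ.n1 (-2056, 7608) (by decide +kernel)
        (CovZ.n2 (-2048, 7608) (by decide +kernel)
         (CovZ.n2 (-2052, 7604) (by decide +kernel)
          (CovZ.n2 (-2052, 7608) (by decide +kernel)
           (CovZ.n2 (-2050, 7606) (by decide +kernel)
            (CovZ.leaf K2_ok TX_l2370 _)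
            (CovZ.leaf K2_ok TX_l2371 _))
           (CovZ.leaf K2_ok TX_l2372 _))
          (CovZ.n1 (-2048, 7604) (by decide +kernel)
           (CovZ.leaf K2_ok TX_l2373 _)
           (CovZ.leaf K2_ok TX_l2374 _)))
         (CovZ.n1 (-2052, 7612) (by decide +kernel)
          (CovZ.n2 (-2048, 7612) (by decide +kernel)
           (CovZ.n2 (-2050, 7610) (by decide +kernel)
            (CovZ.leaf K2_ok TX_l2375 _)
            (CovZ.n1 (-2048, 7610) (by decide +kernel)
             (CovZ.leaf K2_ok TX_l2376 _)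
             (CovZ.leaf K2_ok TX_l2377 _)))
           (CovZ.n1 (-2050, 7614) (by decide +kernel)
            (CovZ.n2 (-2048, 7614) (by decide +kernel)
             (CovZ.leaf K2_ok TX_l2378 _)
             (CovZ.leaf K2_ok TX_l2379 _))
            (CovZ.leaf K2_ok TX_l2380 _)))
          (CovZ.n1 (-2052, 7608) (by decide +kernel)
           (CovZ.n2 (-2054, 7610) (by decide +kernel)
            (CovZ.leaf K2_ok TX_l2381 _)
            (CovZ.leaf K2_ok TX_l2382 _))
           (CovZ.n1 (-2050, 7610) (by decide +kernel)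
            (CovZ.leaf K2_ok TX_l2383 _)
            (CovZ.n1 (-2052, 7610) (by decide +kernel)
             (CovZ.leaf K2_ok TX_l2384 _)
             (CovZ.leaf K2_ok TX_l2385 _))))))
        (CovZ.n1 (-2056, 7600) (by decide +kernel)
         (CovZ.n2 (-2060, 7604) (by decide +kernel)
          (CovZ.n2 (-2056, 7604) (by decide +kernel)
           (CovZ.leaf K2_ok TX_l2386 _)
           (CovZ.leaf K2_ok TX_l2387 _))
          (CovZ.leaf K2_ok TX_l2388 _))
         (CovZ.n1 (-2052, 7604) (by decide +kernel)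
          (CovZ.leaf K2_ok TX_l2389 _)
          (CovZ.n1 (-2056, 7604) (by decide +kernel)
           (CovZ.leaf K2_ok TX_l2390 _)
           (CovZ.leaf K2_ok TX_l2391 _))))))
      (CovZ.n1 (-2064, 7584) (by decide +kernel)
       (CovZ.n2 (-2072, 7592) (by decide +kernel)
        (CovZ.n2 (-2064, 7592) (by decide +kernel)
         (CovZ.leaf K2_ok TX_l2392 _)
         (CovZ.n1 (-2068, 7596) (by decide +kernel)
          (CovZ.leaf K2_ok TX_l2393 _)
          (CovZ.leaf K2_ok TX_l2394 _)))
        (CovZ.n1 (-2072, 7584) (by decide +kernel)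
         (CovZ.leaf K2_ok TX_l2395 _)
         (CovZ.leaf K2_ok TX_l2396 _)))
       (CovZ.n1 (-2056, 7592) (by decide +kernel)
        (CovZ.n2 (-2056, 7584) (by decide +kernel)
         (CovZ.leaf K2_ok TX_l2397 _)
         (CovZ.leaf K2_ok TX_l2398 _))
        (CovZ.n1 (-2064, 7592) (by decide +kernel)
         (CovZ.n2 (-2060, 7596) (by decide +kernel)
          (CovZ.leaf K2_ok TX_l2399 _)
          (CovZ.n1 (-2064, 7596) (by decide +kernel)
           (CovZ.leaf K2_ok TX_l2400 _)
           (CovZ.leaf K2_ok TX_l2401 _)))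
         (CovZ.n1 (-2060, 7588) (by decide +kernel)
          (CovZ.leaf K2_ok TX_l2402 _)
          (CovZ.leaf K2_ok TX_l2403 _)))))))
    (CovZ.n1 (-2080, 7552) (by decide +kernel)
     (CovZ.n2 (-2096, 7568) (by decide +kernel)
      (CovZ.n2 (-2080, 7568) (by decide +kernel)
       (CovZ.n2 (-2088, 7560) (by decide +kernel)
        (CovZ.leaf K2_ok TX_l2404 _)
        (CovZ.leaf K2_ok TX_l2405 _))
       (CovZ.n1 (-2088, 7576) (by decide +kernel)
        (CovZ.n2 (-2080, 7576) (by decide +kernel)
         (CovZ.leaf K2_ok TX_l2406 _)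
         (CovZ.leaf K2_ok TX_l2407 _))
        (CovZ.leaf K2_ok TX_l2408 _)))
      (CovZ.n1 (-2096, 7552) (by decide +kernel)
       (CovZ.n2 (-2104, 7560) (by decide +kernel)
        (CovZ.leaf K2_ok TX_l2409 _)
        (CovZ.leaf K2_ok TX_l2410 _))
       (CovZ.n1 (-2088, 7560) (by decide +kernel)
        (CovZ.leaf K2_ok TX_l2411 _)
        (CovZ.leaf K2_ok TX_l2412 _))))
     (CovZ.n1 (-2064, 7568) (by decide +kernel)
      (CovZ.n2 (-2064, 7552) (by decide +kernel)
       (CovZ.n2 (-2072, 7560) (by decide +kernel)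
        (CovZ.leaf K2_ok TX_l2413 _)
        (CovZ.leaf K2_ok TX_l2414 _))
       (CovZ.n1 (-2056, 7560) (by decide +kernel)
        (CovZ.leaf K2_ok TX_l2415 _)
        (CovZ.leaf K2_ok TX_l2416 _)))
      (CovZ.n1 (-2080, 7568) (by decide +kernel)
       (CovZ.n2 (-2072, 7576) (by decide +kernel)
        (CovZ.leaf K2_ok TX_l2417 _)
        (CovZ.n1 (-2080, 7576) (by decide +kernel)
         (CovZ.leaf K2_ok TX_l2418 _)
         (CovZ.leaf K2_ok TX_l2419 _)))
       (CovZ.n1 (-2072, 7560) (by decide +kernel)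
        (CovZ.leaf K2_ok TX_l2420 _)
        (CovZ.leaf K2_ok TX_l2421 _)))))))
    (CovZ.topM TX_LL 3 (by decide +kernel) (CovZ.n0 (-2080, 7584) (by decide +kernel)
    (CovZ.n2 (-2112, 7584) (by decide +kernel)
     (CovZ.n2 (-2096, 7600) (by decide +kernel)
      (CovZ.n2 (-2096, 7584) (by decide +kernel)
       (CovZ.n2 (-2104, 7592) (by decide +kernel)
        (CovZ.n2 (-2096, 7592) (by decide +kernel)
         (CovZ.leaf K2_ok TX_l2422 _)
         (CovZ.leaf K2_ok TX_l2423 _))
        (CovZ.leaf K2_ok TX_l2424 _))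
       (CovZ.n1 (-2088, 7592) (by decide +kernel)
        (CovZ.leaf K2_ok TX_l2425 _)
        (CovZ.n1 (-2096, 7592) (by decide +kernel)
         (CovZ.leaf K2_ok TX_l2426 _)
         (CovZ.leaf K2_ok TX_l2427 _))))
      (CovZ.n1 (-2112, 7600) (by decide +kernel)
       (CovZ.n2 (-2104, 7608) (by decide +kernel)
        (CovZ.n2 (-2104, 7600) (by decide +kernel)
         (CovZ.leaf K2_ok TX_l2428 _)
         (CovZ.leaf K2_ok TX_l2429 _))
        (CovZ.n1 (-2112, 7608) (by decide +kernel)
         (CovZ.leaf K2_ok TX_l2430 _)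
         (CovZ.leaf K2_ok TX_l2431 _)))
       (CovZ.n1 (-2104, 7592) (by decide +kernel)
        (CovZ.n2 (-2112, 7592) (by decide +kernel)
         (CovZ.leaf K2_ok TX_l2432 _)
         (CovZ.leaf K2_ok TX_l2433 _))
        (CovZ.leaf K2_ok TX_l2434 _))))
     (CovZ.n1 (-2096, 7568) (by decide +kernel)
      (CovZ.n2 (-2112, 7568) (by decide +kernel)
       (CovZ.n2 (-2104, 7576) (by decide +kernel)
        (CovZ.leaf K2_ok TX_l2435 _)
        (CovZ.leaf K2_ok TX_l2436 _))
       (CovZ.n1 (-2104, 7560) (by decide +kernel)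
        (CovZ.leaf K2_ok TX_l2437 _)
        (CovZ.leaf K2_ok TX_l2438 _)))
      (CovZ.n1 (-2096, 7584) (by decide +kernel)
       (CovZ.n2 (-2088, 7576) (by decide +kernel)
        (CovZ.leaf K2_ok TX_l2439 _)
        (CovZ.leaf K2_ok TX_l2440 _))
       (CovZ.n1 (-2104, 7576) (by decide +kernel)
        (CovZ.leaf K2_ok TX_l2441 _)
        (CovZ.leaf K2_ok TX_l2442 _)))))
    (CovZ.n1 (-2080, 7616) (by decide +kernel)
     (CovZ.n2 (-2064, 7600) (by decide +kernel)
      (CovZ.n2 (-2080, 7600) (by decide +kernel)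
       (CovZ.n2 (-2072, 7608) (by decide +kernel)
        (CovZ.n2 (-2072, 7600) (by decide +kernel)
         (CovZ.n2 (-2076, 7604) (by decide +kernel)
          (CovZ.n2 (-2072, 7604) (by decide +kernel)
           (CovZ.leaf K2_ok TX_l2443 _)
           (CovZ.leaf K2_ok TX_l2444 _))
          (CovZ.leaf K2_ok TX_l2445 _))
         (CovZ.n1 (-2068, 7604) (by decide +kernel)
          (CovZ.leaf K2_ok TX_l2446 _)
          (CovZ.n1 (-2072, 7604) (by decide +kernel)
           (CovZ.leaf K2_ok TX_l2447 _)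
           (CovZ.leaf K2_ok TX_l2448 _))))
        (CovZ.n1 (-2080, 7608) (by decide +kernel)
         (CovZ.n2 (-2076, 7612) (by decide +kernel)
          (CovZ.leaf K2_ok TX_l2449 _)
          (CovZ.n1 (-2080, 7612) (by decide +kernel)
           (CovZ.leaf K2_ok TX_l2450 _)
           (CovZ.leaf K2_ok TX_l2451 _)))
         (CovZ.n1 (-2076, 7604) (by decide +kernel)
          (CovZ.leaf K2_ok TX_l2452 _)
          (CovZ.leaf K2_ok TX_l2453 _))))
       (CovZ.n1 (-2072, 7592) (by decide +kernel)
        (CovZ.n2 (-2080, 7592) (by decide +kernel)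
         (CovZ.leaf K2_ok TX_l2454 _)
         (CovZ.leaf K2_ok TX_l2455 _))
        (CovZ.n1 (-2072, 7600) (by decide +kernel)
         (CovZ.n2 (-2068, 7596) (by decide +kernel)
          (CovZ.leaf K2_ok TX_l2456 _)
          (CovZ.leaf K2_ok TX_l2457 _))
         (CovZ.leaf K2_ok TX_l2458 _))))
      (CovZ.n1 (-2064, 7616) (by decide +kernel)
       (CovZ.n2 (-2056, 7608) (by decide +kernel)
        (CovZ.n2 (-2064, 7608) (by decide +kernel)
         (CovZ.n2 (-2060, 7612) (by decide +kernel)
          (CovZ.leaf K2_ok TX_l2459 _)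
          (CovZ.n1 (-2064, 7612) (by decide +kernel)
           (CovZ.leaf K2_ok TX_l2460 _)
           (CovZ.leaf K2_ok TX_l2461 _)))
         (CovZ.n1 (-2060, 7604) (by decide +kernel)
          (CovZ.n2 (-2064, 7604) (by decide +kernel)
           (CovZ.leaf K2_ok TX_l2462 _)
           (CovZ.leaf K2_ok TX_l2463 _))
          (CovZ.leaf K2_ok TX_l2464 _)))
        (CovZ.n1 (-2056, 7616) (by decide +kernel)
         (CovZ.n2 (-2052, 7612) (by decide +kernel)
          (CovZ.n2 (-2056, 7612) (by decide +kernel)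
           (CovZ.n2 (-2054, 7614) (by decide +kernel)
            (CovZ.leaf K2_ok TX_l2465 _)
            (CovZ.n1 (-2056, 7614) (by decide +kernel)
             (CovZ.leaf K2_ok TX_l2466 _)
             (CovZ.leaf K2_ok TX_l2467 _)))
           (CovZ.n1 (-2054, 7610) (by decide +kernel)
            (CovZ.leaf K2_ok TX_l2468 _)
            (CovZ.leaf K2_ok TX_l2469 _)))
          (CovZ.n1 (-2052, 7616) (by decide +kernel)
           (CovZ.n2 (-2050, 7614) (by decide +kernel)
            (CovZ.n2 (-2052, 7614) (by decide +kernel)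
             (CovZ.leaf K2_ok TX_l2470 _)
             (CovZ.leaf K2_ok TX_l2471 _))
            (CovZ.n1 (-2050, 7616) (by decide +kernel)
             (CovZ.n2 (-2049, 7615) (by decide +kernel)
              (CovZ.leaf K2_ok TX_l2472 _)
              (CovZ.leaf K2_ok TX_l2473 _))
             (CovZ.leaf K2_ok TX_l2474 _)))
           (CovZ.n1 (-2054, 7614) (by decide +kernel)
            (CovZ.leaf K2_ok TX_l2475 _)
            (CovZ.n1 (-2052, 7614) (by decide +kernel)
             (CovZ.leaf K2_ok TX_l2476 _)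
             (CovZ.leaf K2_ok TX_l2477 _)))))
         (CovZ.n1 (-2060, 7612) (by decide +kernel)
          (CovZ.n2 (-2060, 7616) (by decide +kernel)
           (CovZ.n2 (-2058, 7614) (by decide +kernel)
            (CovZ.leaf K2_ok TX_l2478 _)
            (CovZ.n1 (-2058, 7616) (by decide +kernel)
             (CovZ.leaf K2_ok TX_l2479 _)
             (CovZ.leaf K2_ok TX_l2480 _)))
           (CovZ.leaf K2_ok TX_l2481 _))
          (CovZ.n1 (-2056, 7612) (by decide +kernel)
           (CovZ.leaf K2_ok TX_l2482 _)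
           (CovZ.n1 (-2058, 7614) (by decide +kernel)
            (CovZ.n2 (-2056, 7614) (by decide +kernel)
             (CovZ.leaf K2_ok TX_l2483 _)
             (CovZ.leaf K2_ok TX_l2484 _))
            (CovZ.leaf K2_ok TX_l2485 _))))))
       (CovZ.n1 (-2072, 7608) (by decide +kernel)
        (CovZ.n2 (-2072, 7616) (by decide +kernel)
         (CovZ.n2 (-2068, 7612) (by decide +kernel)
          (CovZ.n2 (-2072, 7612) (by decide +kernel)
           (CovZ.leaf K2_ok TX_l2486 _)
           (CovZ.leaf K2_ok TX_l2487 _))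
          (CovZ.n1 (-2068, 7616) (by decide +kernel)
           (CovZ.leaf K2_ok TX_l2488 _)
           (CovZ.leaf K2_ok TX_l2489 _)))
         (CovZ.n1 (-2076, 7612) (by decide +kernel)
          (CovZ.n2 (-2076, 7616) (by decide +kernel)
           (CovZ.leaf K2_ok TX_l2490 _)
           (CovZ.leaf K2_ok TX_l2491 _))
          (CovZ.n1 (-2072, 7612) (by decide +kernel)
           (CovZ.leaf K2_ok TX_l2492 _)
           (CovZ.leaf K2_ok TX_l2493 _))))
        (CovZ.n1 (-2064, 7608) (by decide +kernel)
         (CovZ.n2 (-2068, 7604) (by decide +kernel)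
          (CovZ.leaf K2_ok TX_l2494 _)
          (CovZ.n1 (-2064, 7604) (by decide +kernel)
           (CovZ.leaf K2_ok TX_l2495 _)
           (CovZ.leaf K2_ok TX_l2496 _)))
         (CovZ.n1 (-2068, 7612) (by decide +kernel)
          (CovZ.n2 (-2064, 7612) (by decide +kernel)
           (CovZ.leaf K2_ok TX_l2497 _)
           (CovZ.leaf K2_ok TX_l2498 _))
          (CovZ.leaf K2_ok TX_l2499 _))))))
     (CovZ.n1 (-2096, 7600) (by decide +kernel)
      (CovZ.n2 (-2096, 7616) (by decide +kernel)
       (CovZ.n2 (-2088, 7608) (by decide +kernel)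
        (CovZ.n2 (-2096, 7608) (by decide +kernel)
         (CovZ.n2 (-2092, 7612) (by decide +kernel)
          (CovZ.leaf K2_ok TX_l2500 _)
          (CovZ.leaf K2_ok TX_l2501 _))
         (CovZ.n1 (-2092, 7604) (by decide +kernel)
          (CovZ.leaf K2_ok TX_l2502 _)
          (CovZ.leaf K2_ok TX_l2503 _)))
        (CovZ.n1 (-2088, 7616) (by decide +kernel)
         (CovZ.n2 (-2084, 7612) (by decide +kernel)
          (CovZ.leaf K2_ok TX_l2504 _)
          (CovZ.leaf K2_ok TX_l2505 _))
         (CovZ.n1 (-2092, 7612) (by decide +kernel)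
          (CovZ.leaf K2_ok TX_l2506 _)
          (CovZ.leaf K2_ok TX_l2507 _))))
       (CovZ.n1 (-2104, 7608) (by decide +kernel)
        (CovZ.n2 (-2104, 7616) (by decide +kernel)
         (CovZ.leaf K2_ok TX_l2508 _)
         (CovZ.leaf K2_ok TX_l2509 _))
        (CovZ.n1 (-2096, 7608) (by decide +kernel)
         (CovZ.leaf K2_ok TX_l2510 _)
         (CovZ.n1 (-2100, 7612) (by decide +kernel)
          (CovZ.leaf K2_ok TX_l2511 _)
          (CovZ.leaf K2_ok TX_l2512 _)))))
      (CovZ.n1 (-2080, 7600) (by decide +kernel)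
       (CovZ.n2 (-2088, 7592) (by decide +kernel)
        (CovZ.leaf K2_ok TX_l2513 _)
        (CovZ.n1 (-2080, 7592) (by decide +kernel)
         (CovZ.leaf K2_ok TX_l2514 _)
         (CovZ.leaf K2_ok TX_l2515 _)))
       (CovZ.n1 (-2088, 7608) (by decide +kernel)
        (CovZ.n2 (-2080, 7608) (by decide +kernel)
         (CovZ.n2 (-2084, 7604) (by decide +kernel)
          (CovZ.leaf K2_ok TX_l2516 _)
          (CovZ.leaf K2_ok TX_l2517 _))
         (CovZ.n1 (-2084, 7612) (by decide +kernel)
          (CovZ.n2 (-2080, 7612) (by decide +kernel)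
           (CovZ.leaf K2_ok TX_l2518 _)
           (CovZ.leaf K2_ok TX_l2519 _))
          (CovZ.leaf K2_ok TX_l2520 _)))
        (CovZ.n1 (-2088, 7600) (by decide +kernel)
         (CovZ.leaf K2_ok TX_l2521 _)
         (CovZ.leaf K2_ok TX_l2522 _))))))))

theorem TX_s4_2 : SqZ TX_M TX_L [0, 7, 4, 3] (-2304) 7424 64 4 2 :=
  SqZ.mk (a := (-2048)) (b := (-1984)) (c := 7552) (d := 7616) (by norm_num) (by norm_num) (by norm_num) (by norm_num)
    (CovZ.topM TX_LL 3 (by decide +kernel) (CovZ.n2 (-2016, 7584) (by decide +kernel)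
    (CovZ.n2 (-1984, 7584) (by decide +kernel)
     TX_u2
     TX_u3)
    (CovZ.n1 (-2016, 7552) (by decide +kernel)
     (CovZ.n2 (-2032, 7568) (by decide +kernel)
      (CovZ.n2 (-2016, 7568) (by decide +kernel)
       (CovZ.n2 (-2024, 7560) (by decide +kernel)
        (CovZ.leaf K2_ok TX_l3264 _)
        (CovZ.n1 (-2016, 7560) (by decide +kernel)
         (CovZ.leaf K2_ok TX_l3265 _)
         (CovZ.leaf K2_ok TX_l3266 _)))
       (CovZ.n1 (-2024, 7576) (by decide +kernel)
        (CovZ.n2 (-2016, 7576) (by decide +kernel)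
         (CovZ.leaf K2_ok TX_l3267 _)
         (CovZ.n1 (-2020, 7580) (by decide +kernel)
          (CovZ.n2 (-2016, 7580) (by decide +kernel)
           (CovZ.leaf K2_ok TX_l3268 _)
           (CovZ.leaf K2_ok TX_l3269 _))
          (CovZ.leaf K2_ok TX_l3270 _)))
        (CovZ.n1 (-2024, 7568) (by decide +kernel)
         (CovZ.n2 (-2028, 7572) (by decide +kernel)
          (CovZ.leaf K2_ok TX_l3271 _)
          (CovZ.leaf K2_ok TX_l3272 _))
         (CovZ.leaf K2_ok TX_l3273 _))))
      (CovZ.n1 (-2032, 7552) (by decide +kernel)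
       (CovZ.n2 (-2040, 7560) (by decide +kernel)
        (CovZ.n2 (-2032, 7560) (by decide +kernel)
         (CovZ.leaf K2_ok TX_l3274 _)
         (CovZ.leaf K2_ok TX_l3275 _))
        (CovZ.leaf K2_ok TX_l3276 _))
       (CovZ.n1 (-2024, 7560) (by decide +kernel)
        (CovZ.leaf K2_ok TX_l3277 _)
        (CovZ.n1 (-2032, 7560) (by decide +kernel)
         (CovZ.leaf K2_ok TX_l3278 _)
         (CovZ.leaf K2_ok TX_l3279 _)))))
     (CovZ.n1 (-2000, 7568) (by decide +kernel)
      (CovZ.n2 (-2000, 7552) (by decide +kernel)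
       (CovZ.n2 (-2008, 7560) (by decide +kernel)
        (CovZ.n2 (-2000, 7560) (by decide +kernel)
         (CovZ.leaf K2_ok TX_l3280 _)
         (CovZ.leaf K2_ok TX_l3281 _))
        (CovZ.n1 (-2008, 7552) (by decide +kernel)
         (CovZ.leaf K2_ok TX_l3282 _)
         (CovZ.leaf K2_ok TX_l3283 _)))
       (CovZ.n1 (-1992, 7560) (by decide +kernel)
        (CovZ.n2 (-1992, 7552) (by decide +kernel)
         (CovZ.leaf K2_ok TX_l3284 _)
         (CovZ.leaf K2_ok TX_l3285 _))
        (CovZ.n1 (-2000, 7560) (by decide +kernel)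
         (CovZ.n2 (-1996, 7564) (by decide +kernel)
          (CovZ.leaf K2_ok TX_l3286 _)
          (CovZ.n1 (-2000, 7564) (by decide +kernel)
           (CovZ.leaf K2_ok TX_l3287 _)
           (CovZ.leaf K2_ok TX_l3288 _)))
         (CovZ.leaf K2_ok TX_l3289 _))))
      (CovZ.n1 (-2016, 7568) (by decide +kernel)
       (CovZ.n2 (-2008, 7576) (by decide +kernel)
        (CovZ.n2 (-2008, 7568) (by decide +kernel)
         (CovZ.n2 (-2012, 7572) (by decide +kernel)
          (CovZ.n2 (-2008, 7572) (by decide +kernel)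
           (CovZ.leaf K2_ok TX_l3290 _)
           (CovZ.leaf K2_ok TX_l3291 _))
          (CovZ.leaf K2_ok TX_l3292 _))
         (CovZ.n1 (-2004, 7572) (by decide +kernel)
          (CovZ.leaf K2_ok TX_l3293 _)
          (CovZ.leaf K2_ok TX_l3294 _)))
        (CovZ.n1 (-2016, 7576) (by decide +kernel)
         (CovZ.n2 (-2012, 7580) (by decide +kernel)
          (CovZ.leaf K2_ok TX_l3295 _)
          (CovZ.n1 (-2016, 7580) (by decide +kernel)
           (CovZ.leaf K2_ok TX_l3296 _)
           (CovZ.leaf K2_ok TX_l3297 _)))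
         (CovZ.n1 (-2012, 7572) (by decide +kernel)
          (CovZ.leaf K2_ok TX_l3298 _)
          (CovZ.leaf K2_ok TX_l3299 _))))
       (CovZ.n1 (-2008, 7560) (by decide +kernel)
        (CovZ.n2 (-2016, 7560) (by decide +kernel)
         (CovZ.leaf K2_ok TX_l3300 _)
         (CovZ.leaf K2_ok TX_l3301 _))
        (CovZ.n1 (-2008, 7568) (by decide +kernel)
         (CovZ.n2 (-2004, 7564) (by decide +kernel)
          (CovZ.leaf K2_ok TX_l3302 _)
          (CovZ.leaf K2_ok TX_l3303 _))
         (CovZ.leaf K2_ok TX_l3304 _))))))))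
    (CovZ.topM TX_LL 3 (by decide +kernel) (CovZ.n0 (-2016, 7584) (by decide +kernel)
    TX_u6
    TX_u7))

theorem TX_s5_2 : SqZ TX_M TX_L [0, 7, 4, 3] (-2304) 7424 64 5 2 :=
  SqZ.mk (a := (-1984)) (b := (-1920)) (c := 7552) (d := 7616) (by norm_num) (by norm_num) (by norm_num) (by norm_num)
    (CovZ.topM TX_LL 3 (by decide +kernel) (CovZ.n2 (-1952, 7584) (by decide +kernel)
    (CovZ.n2 (-1920, 7584) (by decide +kernel)
     (CovZ.n2 (-1936, 7568) (by decide +kernel)
      (CovZ.badM (by decide +kernel))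
      (CovZ.n1 (-1920, 7568) (by decide +kernel)
       (CovZ.n2 (-1928, 7560) (by decide +kernel)
        (CovZ.badM (by decide +kernel))
        (CovZ.n1 (-1920, 7560) (by decide +kernel)
         (CovZ.n2 (-1924, 7556) (by decide +kernel)
          (CovZ.badM (by decide +kernel))
          (CovZ.n1 (-1920, 7556) (by decide +kernel)
           (CovZ.n2 (-1922, 7554) (by decide +kernel)
            (CovZ.n2 (-1922, 7556) (by decide +kernel)
             (CovZ.n2 (-1921, 7555) (by decide +kernel)
              (CovZ.n2 (-1922, 7555) (by decide +kernel)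
               (CovZ.leaf K2_ok TX_l3847 _)
               (CovZ.leaf K2_ok TX_l3848 _))
              (CovZ.badM (by decide +kernel)))
             (CovZ.n1 (-1923, 7555) (by decide +kernel)
              (CovZ.n2 (-1923, 7556) (by decide +kernel)
               (CovZ.leaf K2_ok TX_l3849 _)
               (CovZ.leaf K2_ok TX_l3850 _))
              (CovZ.n1 (-1922, 7555) (by decide +kernel)
               (CovZ.leaf K2_ok TX_l3851 _)
               (CovZ.leaf K2_ok TX_l3852 _))))
            (CovZ.n1 (-1920, 7554) (by decide +kernel)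
             (CovZ.leaf K2_ok TX_l3853 _)
             (CovZ.n1 (-1921, 7555) (by decide +kernel)
              (CovZ.n2 (-1920, 7555) (by decide +kernel)
               (CovZ.leaf K2_ok TX_l3854 _)
               (CovZ.badM (by decide +kernel)))
              (CovZ.leaf K2_ok TX_l3855 _))))
           (CovZ.badM (by decide +kernel))))
         (CovZ.badM (by decide +kernel))))
       (CovZ.badM (by decide +kernel))))
     (CovZ.badM (by decide +kernel)))
    (CovZ.n1 (-1952, 7552) (by decide +kernel)
     (CovZ.n2 (-1968, 7568) (by decide +kernel)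
      (CovZ.n2 (-1952, 7568) (by decide +kernel)
       (CovZ.n2 (-1960, 7560) (by decide +kernel)
        (CovZ.n2 (-1960, 7568) (by decide +kernel)
         (CovZ.n2 (-1956, 7564) (by decide +kernel)
          (CovZ.n2 (-1960, 7564) (by decide +kernel)
           (CovZ.n2 (-1958, 7566) (by decide +kernel)
            (CovZ.leaf K2_ok TX_l3856 _)
            (CovZ.n1 (-1960, 7566) (by decide +kernel)
             (CovZ.leaf K2_ok TX_l3857 _)
             (CovZ.leaf K2_ok TX_l3858 _)))
           (CovZ.leaf K2_ok TX_l3859 _))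
          (CovZ.n1 (-1956, 7568) (by decide +kernel)
           (CovZ.n2 (-1954, 7566) (by decide +kernel)
            (CovZ.n2 (-1956, 7566) (by decide +kernel)
             (CovZ.leaf K2_ok TX_l3860 _)
             (CovZ.leaf K2_ok TX_l3861 _))
            (CovZ.leaf K2_ok TX_l3862 _))
           (CovZ.n1 (-1958, 7566) (by decide +kernel)
            (CovZ.leaf K2_ok TX_l3863 _)
            (CovZ.n1 (-1956, 7566) (by decide +kernel)
             (CovZ.leaf K2_ok TX_l3864 _)
             (CovZ.leaf K2_ok TX_l3865 _)))))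
         (CovZ.n1 (-1964, 7564) (by decide +kernel)
          (CovZ.n2 (-1964, 7568) (by decide +kernel)
           (CovZ.n2 (-1962, 7566) (by decide +kernel)
            (CovZ.n2 (-1964, 7566) (by decide +kernel)
             (CovZ.leaf K2_ok TX_l3866 _)
             (CovZ.leaf K2_ok TX_l3867 _))
            (CovZ.leaf K2_ok TX_l3868 _))
           (CovZ.n1 (-1966, 7566) (by decide +kernel)
            (CovZ.leaf K2_ok TX_l3869 _)
            (CovZ.n1 (-1964, 7566) (by decide +kernel)
             (CovZ.leaf K2_ok TX_l3870 _)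
             (CovZ.leaf K2_ok TX_l3871 _))))
          (CovZ.n1 (-1960, 7564) (by decide +kernel)
           (CovZ.leaf K2_ok TX_l3872 _)
           (CovZ.leaf K2_ok TX_l3873 _))))
        (CovZ.n1 (-1952, 7560) (by decide +kernel)
         (CovZ.n2 (-1956, 7556) (by decide +kernel)
          (CovZ.leaf K2_ok TX_l3874 _)
          (CovZ.n1 (-1952, 7556) (by decide +kernel)
           (CovZ.leaf K2_ok TX_l3875 _)
           (CovZ.leaf K2_ok TX_l3876 _)))
         (CovZ.n1 (-1956, 7564) (by decide +kernel)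
          (CovZ.n2 (-1952, 7564) (by decide +kernel)
           (CovZ.n2 (-1954, 7562) (by decide +kernel)
            (CovZ.leaf K2_ok TX_l3877 _)
            (CovZ.n1 (-1952, 7562) (by decide +kernel)
             (CovZ.leaf K2_ok TX_l3878 _)
             (CovZ.leaf K2_ok TX_l3879 _)))
           (CovZ.n1 (-1954, 7566) (by decide +kernel)
            (CovZ.n2 (-1952, 7566) (by decide +kernel)
             (CovZ.leaf K2_ok TX_l3880 _)
             (CovZ.leaf K2_ok TX_l3881 _))
            (CovZ.leaf K2_ok TX_l3882 _)))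
          (CovZ.n1 (-1956, 7560) (by decide +kernel)
           (CovZ.leaf K2_ok TX_l3883 _)
           (CovZ.n1 (-1954, 7562) (by decide +kernel)
            (CovZ.leaf K2_ok TX_l3884 _)
            (CovZ.leaf K2_ok TX_l3885 _))))))
       (CovZ.n1 (-1960, 7576) (by decide +kernel)
        (CovZ.n2 (-1952, 7576) (by decide +kernel)
         (CovZ.n2 (-1956, 7572) (by decide +kernel)
          (CovZ.badM (by decide +kernel))
          (CovZ.n1 (-1952, 7572) (by decide +kernel)
           (CovZ.n2 (-1954, 7570) (by decide +kernel)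
            (CovZ.badM (by decide +kernel))
            (CovZ.n1 (-1952, 7570) (by decide +kernel)
             (CovZ.leaf K2_ok TX_l3886 _)
             (CovZ.badM (by decide +kernel))))
           (CovZ.badM (by decide +kernel))))
         (CovZ.badM (by decide +kernel)))
        (CovZ.n1 (-1960, 7568) (by decide +kernel)
         (CovZ.n2 (-1964, 7572) (by decide +kernel)
          (CovZ.n2 (-1960, 7572) (by decide +kernel)
           (CovZ.n2 (-1962, 7570) (by decide +kernel)
            (CovZ.n2 (-1962, 7572) (by decide +kernel)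
             (CovZ.n2 (-1961, 7571) (by decide +kernel)
              (CovZ.leaf K2_ok TX_l3887 _)
              (CovZ.leaf K2_ok TX_l3888 _))
             (CovZ.n1 (-1963, 7571) (by decide +kernel)
              (CovZ.leaf K2_ok TX_l3889 _)
              (CovZ.leaf K2_ok TX_l3890 _)))
            (CovZ.n1 (-1960, 7570) (by decide +kernel)
             (CovZ.leaf K2_ok TX_l3891 _)
             (CovZ.leaf K2_ok TX_l3892 _)))
           (CovZ.n1 (-1962, 7574) (by decide +kernel)
            (CovZ.n2 (-1960, 7574) (by decide +kernel)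
             (CovZ.n2 (-1961, 7573) (by decide +kernel)
              (CovZ.badM (by decide +kernel))
              (CovZ.leaf K2_ok TX_l3893 _))
             (CovZ.badM (by decide +kernel)))
            (CovZ.leaf K2_ok TX_l3894 _)))
          (CovZ.n1 (-1964, 7568) (by decide +kernel)
           (CovZ.n2 (-1966, 7570) (by decide +kernel)
            (CovZ.n2 (-1964, 7570) (by decide +kernel)
             (CovZ.leaf K2_ok TX_l3895 _)
             (CovZ.leaf K2_ok TX_l3896 _))
            (CovZ.leaf K2_ok TX_l3897 _))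
           (CovZ.n1 (-1962, 7570) (by decide +kernel)
            (CovZ.leaf K2_ok TX_l3898 _)
            (CovZ.n1 (-1964, 7570) (by decide +kernel)
             (CovZ.leaf K2_ok TX_l3899 _)
             (CovZ.leaf K2_ok TX_l3900 _)))))
         (CovZ.n1 (-1956, 7572) (by decide +kernel)
          (CovZ.n2 (-1956, 7568) (by decide +kernel)
           (CovZ.n2 (-1958, 7570) (by decide +kernel)
            (CovZ.n2 (-1956, 7570) (by decide +kernel)
             (CovZ.leaf K2_ok TX_l3901 _)
             (CovZ.n1 (-1957, 7571) (by decide +kernel)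
              (CovZ.n2 (-1956, 7571) (by decide +kernel)
               (CovZ.leaf K2_ok TX_l3902 _)
               (CovZ.badM (by decide +kernel)))
              (CovZ.leaf K2_ok TX_l3903 _)))
            (CovZ.leaf K2_ok TX_l3904 _))
           (CovZ.n1 (-1954, 7570) (by decide +kernel)
            (CovZ.n2 (-1954, 7568) (by decide +kernel)
             (CovZ.leaf K2_ok TX_l3905 _)
             (CovZ.n1 (-1953, 7569) (by decide +kernel)
              (CovZ.leaf K2_ok TX_l3906 _)
              (CovZ.leaf K2_ok TX_l3907 _)))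
            (CovZ.n1 (-1956, 7570) (by decide +kernel)
             (CovZ.leaf K2_ok TX_l3908 _)
             (CovZ.n1 (-1955, 7569) (by decide +kernel)
              (CovZ.leaf K2_ok TX_l3909 _)
              (CovZ.n1 (-1955, 7570) (by decide +kernel)
               (CovZ.leaf K2_ok TX_l3910 _)
               (CovZ.leaf K2_ok TX_l3911 _))))))
          (CovZ.n1 (-1960, 7572) (by decide +kernel)
           (CovZ.n2 (-1958, 7574) (by decide +kernel)
            (CovZ.n2 (-1958, 7572) (by decide +kernel)
             (CovZ.n2 (-1959, 7573) (by decide +kernel)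
              (CovZ.badM (by decide +kernel))
              (CovZ.leaf K2_ok TX_l3912 _))
             (CovZ.badM (by decide +kernel)))
            (CovZ.n1 (-1960, 7574) (by decide +kernel)
             (CovZ.badM (by decide +kernel))
             (CovZ.n1 (-1959, 7573) (by decide +kernel)
              (CovZ.leaf K2_ok TX_l3913 _)
              (CovZ.badM (by decide +kernel)))))
           (CovZ.n1 (-1958, 7570) (by decide +kernel)
            (CovZ.n2 (-1960, 7570) (by decide +kernel)
             (CovZ.leaf K2_ok TX_l3914 _)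
             (CovZ.leaf K2_ok TX_l3915 _))
            (CovZ.n1 (-1958, 7572) (by decide +kernel)
             (CovZ.n2 (-1957, 7571) (by decide +kernel)
              (CovZ.n2 (-1958, 7571) (by decide +kernel)
               (CovZ.leaf K2_ok TX_l3916 _)
               (CovZ.leaf K2_ok TX_l3917 _))
              (CovZ.badM (by decide +kernel)))
             (CovZ.leaf K2_ok TX_l3918 _))))))))
      (CovZ.n1 (-1968, 7552) (by decide +kernel)
       (CovZ.n2 (-1976, 7560) (by decide +kernel)
        (CovZ.n2 (-1968, 7560) (by decide +kernel)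
         (CovZ.n2 (-1972, 7556) (by decide +kernel)
          (CovZ.leaf K2_ok TX_l3919 _)
          (CovZ.n1 (-1968, 7556) (by decide +kernel)
           (CovZ.leaf K2_ok TX_l3920 _)
           (CovZ.leaf K2_ok TX_l3921 _)))
         (CovZ.n1 (-1972, 7564) (by decide +kernel)
          (CovZ.n2 (-1968, 7564) (by decide +kernel)
           (CovZ.leaf K2_ok TX_l3922 _)
           (CovZ.leaf K2_ok TX_l3923 _))
          (CovZ.leaf K2_ok TX_l3924 _)))
        (CovZ.n1 (-1976, 7552) (by decide +kernel)
         (CovZ.n2 (-1980, 7556) (by decide +kernel)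
          (CovZ.n2 (-1976, 7556) (by decide +kernel)
           (CovZ.leaf K2_ok TX_l3925 _)
           (CovZ.leaf K2_ok TX_l3926 _))
          (CovZ.leaf K2_ok TX_l3927 _))
         (CovZ.n1 (-1972, 7556) (by decide +kernel)
          (CovZ.leaf K2_ok TX_l3928 _)
          (CovZ.leaf K2_ok TX_l3929 _))))
       (CovZ.n1 (-1960, 7560) (by decide +kernel)
        (CovZ.n2 (-1960, 7552) (by decide +kernel)
         (CovZ.n2 (-1964, 7556) (by decide +kernel)
          (CovZ.n2 (-1960, 7556) (by decide +kernel)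
           (CovZ.leaf K2_ok TX_l3930 _)
           (CovZ.leaf K2_ok TX_l3931 _))
          (CovZ.leaf K2_ok TX_l3932 _))
         (CovZ.n1 (-1956, 7556) (by decide +kernel)
          (CovZ.leaf K2_ok TX_l3933 _)
          (CovZ.n1 (-1960, 7556) (by decide +kernel)
           (CovZ.leaf K2_ok TX_l3934 _)
           (CovZ.leaf K2_ok TX_l3935 _))))
        (CovZ.n1 (-1968, 7560) (by decide +kernel)
         (CovZ.n2 (-1964, 7564) (by decide +kernel)
          (CovZ.n2 (-1964, 7560) (by decide +kernel)
           (CovZ.leaf K2_ok TX_l3936 _)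
           (CovZ.leaf K2_ok TX_l3937 _))
          (CovZ.n1 (-1968, 7564) (by decide +kernel)
           (CovZ.n2 (-1966, 7566) (by decide +kernel)
            (CovZ.leaf K2_ok TX_l3938 _)
            (CovZ.leaf K2_ok TX_l3939 _))
           (CovZ.leaf K2_ok TX_l3940 _)))
         (CovZ.n1 (-1964, 7556) (by decide +kernel)
          (CovZ.n2 (-1968, 7556) (by decide +kernel)
           (CovZ.leaf K2_ok TX_l3941 _)
           (CovZ.leaf K2_ok TX_l3942 _))
          (CovZ.leaf K2_ok TX_l3943 _))))))
     (CovZ.n1 (-1936, 7568) (by decide +kernel)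
      TX_u8
      TX_u9))))
    (CovZ.topM TX_LL 3 (by decide +kernel) (CovZ.n0 (-1952, 7584) (by decide +kernel)
    (CovZ.n2 (-1984, 7584) (by decide +kernel)
     (CovZ.n2 (-1968, 7600) (by decide +kernel)
      (CovZ.n2 (-1968, 7584) (by decide +kernel)
       (CovZ.n2 (-1976, 7592) (by decide +kernel)
        (CovZ.badM (by decide +kernel))
        (CovZ.n1 (-1976, 7584) (by decide +kernel)
         (CovZ.n2 (-1980, 7588) (by decide +kernel)
          (CovZ.badM (by decide +kernel))
          (CovZ.n1 (-1980, 7584) (by decide +kernel)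
           (CovZ.n2 (-1982, 7586) (by decide +kernel)
            (CovZ.badM (by decide +kernel))
            (CovZ.n1 (-1982, 7584) (by decide +kernel)
             (CovZ.leaf K2_ok TX_l4081 _)
             (CovZ.badM (by decide +kernel))))
           (CovZ.badM (by decide +kernel))))
         (CovZ.badM (by decide +kernel))))
       (CovZ.badM (by decide +kernel)))
      (CovZ.n1 (-1984, 7600) (by decide +kernel)
       (CovZ.badM (by decide +kernel))
       (CovZ.n1 (-1976, 7592) (by decide +kernel)
        (CovZ.n2 (-1984, 7592) (by decide +kernel)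
         (CovZ.badM (by decide +kernel))
         (CovZ.n1 (-1980, 7588) (by decide +kernel)
          (CovZ.n2 (-1984, 7588) (by decide +kernel)
           (CovZ.badM (by decide +kernel))
           (CovZ.n1 (-1982, 7586) (by decide +kernel)
            (CovZ.n2 (-1984, 7586) (by decide +kernel)
             (CovZ.badM (by decide +kernel))
             (CovZ.leaf K2_ok TX_l4082 _))
            (CovZ.badM (by decide +kernel))))
          (CovZ.badM (by decide +kernel))))
        (CovZ.badM (by decide +kernel)))))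
     (CovZ.n1 (-1968, 7568) (by decide +kernel)
      TX_u10
      TX_u11))
    (CovZ.badM (by decide +kernel))))

theorem TX_s0_3 : SqZ TX_M TX_L [0, 7, 4, 3] (-2304) 7424 64 0 3 :=
  SqZ.mk (a := (-2304)) (b := (-2240)) (c := 7616) (d := 7680) (by norm_num) (by norm_num) (by norm_num) (by norm_num)
    (CovZ.topM TX_LL 3 (by decide +kernel) (CovZ.n2 (-2272, 7648) (by decide +kernel)
    (CovZ.n2 (-2240, 7648) (by decide +kernel)
     (CovZ.n2 (-2256, 7632) (by decide +kernel)
      (CovZ.n2 (-2256, 7648) (by decide +kernel)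
       (CovZ.n2 (-2248, 7640) (by decide +kernel)
        (CovZ.leaf K2_ok TX_l668 _)
        (CovZ.leaf K2_ok TX_l669 _))
       (CovZ.n1 (-2264, 7640) (by decide +kernel)
        (CovZ.leaf K2_ok TX_l670 _)
        (CovZ.leaf K2_ok TX_l671 _)))
      (CovZ.n1 (-2240, 7632) (by decide +kernel)
       (CovZ.n2 (-2248, 7624) (by decide +kernel)
        (CovZ.leaf K2_ok TX_l672 _)
        (CovZ.n1 (-2240, 7624) (by decide +kernel)
         (CovZ.leaf K2_ok TX_l673 _)
         (CovZ.leaf K2_ok TX_l674 _)))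
       (CovZ.n1 (-2248, 7640) (by decide +kernel)
        (CovZ.leaf K2_ok TX_l675 _)
        (CovZ.leaf K2_ok TX_l676 _))))
     (CovZ.n1 (-2256, 7664) (by decide +kernel)
      (CovZ.n2 (-2240, 7664) (by decide +kernel)
       (CovZ.n2 (-2248, 7656) (by decide +kernel)
        (CovZ.leaf K2_ok TX_l677 _)
        (CovZ.n1 (-2240, 7656) (by decide +kernel)
         (CovZ.leaf K2_ok TX_l678 _)
         (CovZ.leaf K2_ok TX_l679 _)))
       (CovZ.n1 (-2248, 7672) (by decide +kernel)
        (CovZ.n2 (-2240, 7672) (by decide +kernel)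
         (CovZ.leaf K2_ok TX_l680 _)
         (CovZ.leaf K2_ok TX_l681 _))
        (CovZ.leaf K2_ok TX_l682 _)))
      (CovZ.n1 (-2256, 7648) (by decide +kernel)
       (CovZ.n2 (-2264, 7656) (by decide +kernel)
        (CovZ.n2 (-2256, 7656) (by decide +kernel)
         (CovZ.leaf K2_ok TX_l683 _)
         (CovZ.leaf K2_ok TX_l684 _))
        (CovZ.leaf K2_ok TX_l685 _))
       (CovZ.n1 (-2248, 7656) (by decide +kernel)
        (CovZ.leaf K2_ok TX_l686 _)
        (CovZ.leaf K2_ok TX_l687 _)))))
    (CovZ.n1 (-2272, 7616) (by decide +kernel)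
     (CovZ.n2 (-2288, 7632) (by decide +kernel)
      (CovZ.n2 (-2272, 7632) (by decide +kernel)
       (CovZ.n2 (-2280, 7624) (by decide +kernel)
        (CovZ.leaf K2_ok TX_l688 _)
        (CovZ.n1 (-2272, 7624) (by decide +kernel)
         (CovZ.leaf K2_ok TX_l689 _)
         (CovZ.leaf K2_ok TX_l690 _)))
       (CovZ.n1 (-2280, 7640) (by decide +kernel)
        (CovZ.n2 (-2272, 7640) (by decide +kernel)
         (CovZ.leaf K2_ok TX_l691 _)
         (CovZ.leaf K2_ok TX_l692 _))
        (CovZ.leaf K2_ok TX_l693 _)))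
      (CovZ.n1 (-2288, 7616) (by decide +kernel)
       (CovZ.n2 (-2296, 7624) (by decide +kernel)
        (CovZ.n2 (-2288, 7624) (by decide +kernel)
         (CovZ.leaf K2_ok TX_l694 _)
         (CovZ.leaf K2_ok TX_l695 _))
        (CovZ.leaf K2_ok TX_l696 _))
       (CovZ.n1 (-2280, 7624) (by decide +kernel)
        (CovZ.leaf K2_ok TX_l697 _)
        (CovZ.n1 (-2288, 7624) (by decide +kernel)
         (CovZ.leaf K2_ok TX_l698 _)
         (CovZ.leaf K2_ok TX_l699 _)))))
     (CovZ.n1 (-2256, 7632) (by decide +kernel)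
      (CovZ.n2 (-2256, 7616) (by decide +kernel)
       (CovZ.n2 (-2264, 7624) (by decide +kernel)
        (CovZ.n2 (-2256, 7624) (by decide +kernel)
         (CovZ.leaf K2_ok TX_l700 _)
         (CovZ.leaf K2_ok TX_l701 _))
        (CovZ.leaf K2_ok TX_l702 _))
       (CovZ.n1 (-2248, 7624) (by decide +kernel)
        (CovZ.leaf K2_ok TX_l703 _)
        (CovZ.n1 (-2256, 7624) (by decide +kernel)
         (CovZ.leaf K2_ok TX_l704 _)
         (CovZ.leaf K2_ok TX_l705 _))))
      (CovZ.n1 (-2272, 7632) (by decide +kernel)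
       (CovZ.n2 (-2264, 7640) (by decide +kernel)
        (CovZ.leaf K2_ok TX_l706 _)
        (CovZ.n1 (-2272, 7640) (by decide +kernel)
         (CovZ.leaf K2_ok TX_l707 _)
         (CovZ.leaf K2_ok TX_l708 _)))
       (CovZ.n1 (-2264, 7624) (by decide +kernel)
        (CovZ.n2 (-2272, 7624) (by decide +kernel)
         (CovZ.leaf K2_ok TX_l709 _)
         (CovZ.leaf K2_ok TX_l710 _))
        (CovZ.leaf K2_ok TX_l711 _)))))))
    (CovZ.topM TX_LL 2 (by decide +kernel) (CovZ.n0 (-2272, 7648) (by decide +kernel)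
    (CovZ.n2 (-2304, 7648) (by decide +kernel)
     (CovZ.n2 (-2288, 7664) (by decide +kernel)
      (CovZ.n2 (-2288, 7648) (by decide +kernel)
       (CovZ.n2 (-2296, 7656) (by decide +kernel)
        (CovZ.n2 (-2288, 7656) (by decide +kernel)
         (CovZ.leaf K2_ok TX_l712 _)
         (CovZ.leaf K2_ok TX_l713 _))
        (CovZ.leaf K2_ok TX_l714 _))
       (CovZ.n1 (-2280, 7656) (by decide +kernel)
        (CovZ.leaf K2_ok TX_l715 _)
        (CovZ.n1 (-2288, 7656) (by decide +kernel)
         (CovZ.leaf K2_ok TX_l716 _)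
         (CovZ.leaf K2_ok TX_l717 _))))
      (CovZ.n1 (-2304, 7664) (by decide +kernel)
       (CovZ.n2 (-2296, 7672) (by decide +kernel)
        (CovZ.leaf K2_ok TX_l718 _)
        (CovZ.leaf K2_ok TX_l719 _))
       (CovZ.n1 (-2296, 7656) (by decide +kernel)
        (CovZ.leaf K2_ok TX_l720 _)
        (CovZ.leaf K2_ok TX_l721 _))))
     (CovZ.n1 (-2288, 7632) (by decide +kernel)
      (CovZ.n2 (-2304, 7632) (by decide +kernel)
       (CovZ.n2 (-2296, 7640) (by decide +kernel)
        (CovZ.leaf K2_ok TX_l722 _)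
        (CovZ.n1 (-2304, 7640) (by decide +kernel)
         (CovZ.leaf K2_ok TX_l723 _)
         (CovZ.leaf K2_ok TX_l724 _)))
       (CovZ.n1 (-2296, 7624) (by decide +kernel)
        (CovZ.n2 (-2304, 7624) (by decide +kernel)
         (CovZ.leaf K2_ok TX_l725 _)
         (CovZ.leaf K2_ok TX_l726 _))
        (CovZ.leaf K2_ok TX_l727 _)))
      (CovZ.n1 (-2288, 7648) (by decide +kernel)
       (CovZ.n2 (-2280, 7640) (by decide +kernel)
        (CovZ.n2 (-2288, 7640) (by decide +kernel)
         (CovZ.leaf K2_ok TX_l728 _)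
         (CovZ.leaf K2_ok TX_l729 _))
        (CovZ.leaf K2_ok TX_l730 _))
       (CovZ.n1 (-2296, 7640) (by decide +kernel)
        (CovZ.leaf K2_ok TX_l731 _)
        (CovZ.n1 (-2288, 7640) (by decide +kernel)
         (CovZ.leaf K2_ok TX_l732 _)
         (CovZ.leaf K2_ok TX_l733 _))))))
    (CovZ.n1 (-2272, 7680) (by decide +kernel)
     (CovZ.n2 (-2256, 7664) (by decide +kernel)
      (CovZ.n2 (-2272, 7664) (by decide +kernel)
       (CovZ.n2 (-2264, 7672) (by decide +kernel)
        (CovZ.leaf K2_ok TX_l734 _)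
        (CovZ.n1 (-2272, 7672) (by decide +kernel)
         (CovZ.badM (by decide +kernel))
         (CovZ.leaf K2_ok TX_l736 _)))
       (CovZ.n1 (-2264, 7656) (by decide +kernel)
        (CovZ.leaf K2_ok TX_l737 _)
        (CovZ.leaf K2_ok TX_l738 _)))
      (CovZ.n1 (-2256, 7680) (by decide +kernel)
       (CovZ.n2 (-2248, 7672) (by decide +kernel)
        (CovZ.n2 (-2256, 7672) (by decide +kernel)
         (CovZ.badM (by decide +kernel))
         (CovZ.leaf K2_ok TX_l740 _))
        (CovZ.badM (by decide +kernel)))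
       (CovZ.n1 (-2264, 7672) (by decide +kernel)
        (CovZ.badM (by decide +kernel))
        (CovZ.n1 (-2256, 7672) (by decide +kernel)
         (CovZ.leaf K2_ok TX_l744 _)
         (CovZ.badM (by decide +kernel))))))
     (CovZ.n1 (-2288, 7664) (by decide +kernel)
      (CovZ.n2 (-2288, 7680) (by decide +kernel)
       (CovZ.n2 (-2280, 7672) (by decide +kernel)
        (CovZ.leaf K2_ok TX_l746 _)
        (CovZ.leaf K2_ok TX_l747 _))
       (CovZ.n1 (-2296, 7672) (by decide +kernel)
        (CovZ.leaf K2_ok TX_l748 _)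
        (CovZ.leaf K2_ok TX_l749 _)))
      (CovZ.n1 (-2272, 7664) (by decide +kernel)
       (CovZ.n2 (-2280, 7656) (by decide +kernel)
        (CovZ.leaf K2_ok TX_l750 _)
        (CovZ.n1 (-2272, 7656) (by decide +kernel)
         (CovZ.leaf K2_ok TX_l751 _)
         (CovZ.leaf K2_ok TX_l752 _)))
       (CovZ.n1 (-2280, 7672) (by decide +kernel)
        (CovZ.n2 (-2272, 7672) (by decide +kernel)
         (CovZ.leaf K2_ok TX_l753 _)
         (CovZ.leaf K2_ok TX_l754 _))
        (CovZ.leaf K2_ok TX_l755 _)))))))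

theorem TX_s1_3 : SqZ TX_M TX_L [0, 7, 4, 3] (-2304) 7424 64 1 3 :=
  SqZ.mk (a := (-2240)) (b := (-2176)) (c := 7616) (d := 7680) (by norm_num) (by norm_num) (by norm_num) (by norm_num)
    (CovZ.topM TX_LL 3 (by decide +kernel) (CovZ.n2 (-2208, 7648) (by decide +kernel)
    (CovZ.n2 (-2176, 7648) (by decide +kernel)
     (CovZ.n2 (-2192, 7632) (by decide +kernel)
      (CovZ.n2 (-2192, 7648) (by decide +kernel)
       (CovZ.n2 (-2184, 7640) (by decide +kernel)
        (CovZ.n2 (-2192, 7640) (by decide +kernel)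
         (CovZ.leaf K2_ok TX_l1234 _)
         (CovZ.leaf K2_ok TX_l1235 _))
        (CovZ.n1 (-2184, 7648) (by decide +kernel)
         (CovZ.leaf K2_ok TX_l1236 _)
         (CovZ.leaf K2_ok TX_l1237 _)))
       (CovZ.n1 (-2200, 7640) (by decide +kernel)
        (CovZ.leaf K2_ok TX_l1238 _)
        (CovZ.n1 (-2192, 7640) (by decide +kernel)
         (CovZ.leaf K2_ok TX_l1239 _)
         (CovZ.leaf K2_ok TX_l1240 _))))
      (CovZ.n1 (-2176, 7632) (by decide +kernel)
       (CovZ.n2 (-2184, 7624) (by decide +kernel)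
        (CovZ.leaf K2_ok TX_l1241 _)
        (CovZ.n1 (-2176, 7624) (by decide +kernel)
         (CovZ.leaf K2_ok TX_l1242 _)
         (CovZ.leaf K2_ok TX_l1243 _)))
       (CovZ.n1 (-2184, 7640) (by decide +kernel)
        (CovZ.n2 (-2176, 7640) (by decide +kernel)
         (CovZ.leaf K2_ok TX_l1244 _)
         (CovZ.leaf K2_ok TX_l1245 _))
        (CovZ.leaf K2_ok TX_l1246 _))))
     (CovZ.n1 (-2192, 7664) (by decide +kernel)
      (CovZ.n2 (-2176, 7664) (by decide +kernel)
       (CovZ.n2 (-2184, 7656) (by decide +kernel)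
        (CovZ.n2 (-2184, 7664) (by decide +kernel)
         (CovZ.n2 (-2180, 7660) (by decide +kernel)
          (CovZ.leaf K2_ok TX_l1247 _)
          (CovZ.leaf K2_ok TX_l1248 _))
         (CovZ.n1 (-2188, 7660) (by decide +kernel)
          (CovZ.leaf K2_ok TX_l1249 _)
          (CovZ.leaf K2_ok TX_l1250 _)))
        (CovZ.n1 (-2176, 7656) (by decide +kernel)
         (CovZ.leaf K2_ok TX_l1251 _)
         (CovZ.n1 (-2180, 7660) (by decide +kernel)
          (CovZ.n2 (-2176, 7660) (by decide +kernel)
           (CovZ.leaf K2_ok TX_l1252 _)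
           (CovZ.leaf K2_ok TX_l1253 _))
          (CovZ.leaf K2_ok TX_l1254 _))))
       (CovZ.n1 (-2184, 7672) (by decide +kernel)
        (CovZ.n2 (-2176, 7672) (by decide +kernel)
         (CovZ.n2 (-2180, 7668) (by decide +kernel)
          (CovZ.leaf K2_ok TX_l1255 _)
          (CovZ.n1 (-2176, 7668) (by decide +kernel)
           (CovZ.leaf K2_ok TX_l1256 _)
           (CovZ.n1 (-2178, 7670) (by decide +kernel)
            (CovZ.leaf K2_ok TX_l1257 _)
            (CovZ.leaf K2_ok TX_l1258 _))))
         (CovZ.n1 (-2180, 7676) (by decide +kernel)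
          (CovZ.n2 (-2176, 7676) (by decide +kernel)
           (CovZ.leaf K2_ok TX_l1259 _)
           (CovZ.badM (by decide +kernel)))
          (CovZ.n1 (-2180, 7672) (by decide +kernel)
           (CovZ.leaf K2_ok TX_l1260 _)
           (CovZ.n1 (-2178, 7674) (by decide +kernel)
            (CovZ.leaf K2_ok TX_l1261 _)
            (CovZ.leaf K2_ok TX_l1262 _)))))
        (CovZ.n1 (-2184, 7664) (by decide +kernel)
         (CovZ.n2 (-2188, 7668) (by decide +kernel)
          (CovZ.n2 (-2184, 7668) (by decide +kernel)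
           (CovZ.leaf K2_ok TX_l1263 _)
           (CovZ.leaf K2_ok TX_l1264 _))
          (CovZ.leaf K2_ok TX_l1265 _))
         (CovZ.n1 (-2180, 7668) (by decide +kernel)
          (CovZ.leaf K2_ok TX_l1266 _)
          (CovZ.n1 (-2184, 7668) (by decide +kernel)
           (CovZ.leaf K2_ok TX_l1267 _)
           (CovZ.leaf K2_ok TX_l1268 _))))))
      (CovZ.n1 (-2192, 7648) (by decide +kernel)
       (CovZ.n2 (-2200, 7656) (by decide +kernel)
        (CovZ.n2 (-2192, 7656) (by decide +kernel)
         (CovZ.leaf K2_ok TX_l1269 _)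
         (CovZ.n1 (-2196, 7660) (by decide +kernel)
          (CovZ.leaf K2_ok TX_l1270 _)
          (CovZ.leaf K2_ok TX_l1271 _)))
        (CovZ.leaf K2_ok TX_l1272 _))
       (CovZ.n1 (-2184, 7656) (by decide +kernel)
        (CovZ.n2 (-2184, 7648) (by decide +kernel)
         (CovZ.leaf K2_ok TX_l1273 _)
         (CovZ.leaf K2_ok TX_l1274 _))
        (CovZ.n1 (-2192, 7656) (by decide +kernel)
         (CovZ.n2 (-2188, 7660) (by decide +kernel)
          (CovZ.leaf K2_ok TX_l1275 _)
          (CovZ.leaf K2_ok TX_l1276 _))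
         (CovZ.leaf K2_ok TX_l1277 _))))))
    (CovZ.n1 (-2208, 7616) (by decide +kernel)
     (CovZ.n2 (-2224, 7632) (by decide +kernel)
      (CovZ.n2 (-2208, 7632) (by decide +kernel)
       (CovZ.n2 (-2216, 7624) (by decide +kernel)
        (CovZ.leaf K2_ok TX_l1278 _)
        (CovZ.leaf K2_ok TX_l1279 _))
       (CovZ.n1 (-2216, 7640) (by decide +kernel)
        (CovZ.n2 (-2208, 7640) (by decide +kernel)
         (CovZ.leaf K2_ok TX_l1280 _)
         (CovZ.leaf K2_ok TX_l1281 _))
        (CovZ.leaf K2_ok TX_l1282 _)))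
      (CovZ.n1 (-2224, 7616) (by decide +kernel)
       (CovZ.n2 (-2232, 7624) (by decide +kernel)
        (CovZ.leaf K2_ok TX_l1283 _)
        (CovZ.leaf K2_ok TX_l1284 _))
       (CovZ.n1 (-2216, 7624) (by decide +kernel)
        (CovZ.leaf K2_ok TX_l1285 _)
        (CovZ.leaf K2_ok TX_l1286 _))))
     (CovZ.n1 (-2192, 7632) (by decide +kernel)
      (CovZ.n2 (-2192, 7616) (by decide +kernel)
       (CovZ.n2 (-2200, 7624) (by decide +kernel)
        (CovZ.leaf K2_ok TX_l1287 _)
        (CovZ.leaf K2_ok TX_l1288 _))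
       (CovZ.n1 (-2184, 7624) (by decide +kernel)
        (CovZ.leaf K2_ok TX_l1289 _)
        (CovZ.leaf K2_ok TX_l1290 _)))
      (CovZ.n1 (-2208, 7632) (by decide +kernel)
       (CovZ.n2 (-2200, 7640) (by decide +kernel)
        (CovZ.leaf K2_ok TX_l1291 _)
        (CovZ.n1 (-2208, 7640) (by decide +kernel)
         (CovZ.leaf K2_ok TX_l1292 _)
         (CovZ.leaf K2_ok TX_l1293 _)))
       (CovZ.n1 (-2200, 7624) (by decide +kernel)
        (CovZ.leaf K2_ok TX_l1294 _)
        (CovZ.leaf K2_ok TX_l1295 _)))))))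
    (CovZ.topM TX_LL 3 (by decide +kernel) (CovZ.n0 (-2208, 7648) (by decide +kernel)
    (CovZ.n2 (-2240, 7648) (by decide +kernel)
     (CovZ.n2 (-2224, 7664) (by decide +kernel)
      (CovZ.n2 (-2224, 7648) (by decide +kernel)
       (CovZ.n2 (-2232, 7656) (by decide +kernel)
        (CovZ.n2 (-2224, 7656) (by decide +kernel)
         (CovZ.leaf K2_ok TX_l1296 _)
         (CovZ.leaf K2_ok TX_l1297 _))
        (CovZ.leaf K2_ok TX_l1298 _))
       (CovZ.n1 (-2216, 7656) (by decide +kernel)
        (CovZ.leaf K2_ok TX_l1299 _)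
        (CovZ.n1 (-2224, 7656) (by decide +kernel)
         (CovZ.leaf K2_ok TX_l1300 _)
         (CovZ.leaf K2_ok TX_l1301 _))))
      (CovZ.n1 (-2240, 7664) (by decide +kernel)
       (CovZ.n2 (-2232, 7672) (by decide +kernel)
        (CovZ.n2 (-2232, 7664) (by decide +kernel)
         (CovZ.leaf K2_ok TX_l1302 _)
         (CovZ.leaf K2_ok TX_l1303 _))
        (CovZ.n1 (-2240, 7672) (by decide +kernel)
         (CovZ.leaf K2_ok TX_l1304 _)
         (CovZ.leaf K2_ok TX_l1305 _)))
       (CovZ.n1 (-2232, 7656) (by decide +kernel)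
        (CovZ.n2 (-2240, 7656) (by decide +kernel)
         (CovZ.leaf K2_ok TX_l1306 _)
         (CovZ.leaf K2_ok TX_l1307 _))
        (CovZ.leaf K2_ok TX_l1308 _))))
     (CovZ.n1 (-2224, 7632) (by decide +kernel)
      (CovZ.n2 (-2240, 7632) (by decide +kernel)
       (CovZ.n2 (-2232, 7640) (by decide +kernel)
        (CovZ.leaf K2_ok TX_l1309 _)
        (CovZ.leaf K2_ok TX_l1310 _))
       (CovZ.n1 (-2232, 7624) (by decide +kernel)
        (CovZ.n2 (-2240, 7624) (by decide +kernel)
         (CovZ.leaf K2_ok TX_l1311 _)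
         (CovZ.leaf K2_ok TX_l1312 _))
        (CovZ.leaf K2_ok TX_l1313 _)))
      (CovZ.n1 (-2224, 7648) (by decide +kernel)
       (CovZ.n2 (-2216, 7640) (by decide +kernel)
        (CovZ.leaf K2_ok TX_l1314 _)
        (CovZ.leaf K2_ok TX_l1315 _))
       (CovZ.n1 (-2232, 7640) (by decide +kernel)
        (CovZ.leaf K2_ok TX_l1316 _)
        (CovZ.n1 (-2224, 7640) (by decide +kernel)
         (CovZ.leaf K2_ok TX_l1317 _)
         (CovZ.leaf K2_ok TX_l1318 _))))))
    (CovZ.n1 (-2208, 7680) (by decide +kernel)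
     (CovZ.n2 (-2192, 7664) (by decide +kernel)
      (CovZ.n2 (-2208, 7664) (by decide +kernel)
       (CovZ.n2 (-2200, 7672) (by decide +kernel)
        (CovZ.n2 (-2200, 7664) (by decide +kernel)
         (CovZ.n2 (-2204, 7668) (by decide +kernel)
          (CovZ.n2 (-2200, 7668) (by decide +kernel)
           (CovZ.leaf K2_ok TX_l1319 _)
           (CovZ.leaf K2_ok TX_l1320 _))
          (CovZ.leaf K2_ok TX_l1321 _))
         (CovZ.n1 (-2196, 7668) (by decide +kernel)
          (CovZ.leaf K2_ok TX_l1322 _)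
          (CovZ.leaf K2_ok TX_l1323 _)))
        (CovZ.n1 (-2208, 7672) (by decide +kernel)
         (CovZ.n2 (-2204, 7676) (by decide +kernel)
          (CovZ.leaf K2_ok TX_l1324 _)
          (CovZ.n1 (-2208, 7676) (by decide +kernel)
           (CovZ.leaf K2_ok TX_l1325 _)
           (CovZ.leaf K2_ok TX_l1326 _)))
         (CovZ.n1 (-2204, 7668) (by decide +kernel)
          (CovZ.leaf K2_ok TX_l1327 _)
          (CovZ.leaf K2_ok TX_l1328 _))))
       (CovZ.n1 (-2200, 7656) (by decide +kernel)
        (CovZ.n2 (-2208, 7656) (by decide +kernel)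
         (CovZ.leaf K2_ok TX_l1329 _)
         (CovZ.leaf K2_ok TX_l1330 _))
        (CovZ.n1 (-2200, 7664) (by decide +kernel)
         (CovZ.leaf K2_ok TX_l1331 _)
         (CovZ.leaf K2_ok TX_l1332 _))))
      (CovZ.n1 (-2192, 7680) (by decide +kernel)
       (CovZ.n2 (-2184, 7672) (by decide +kernel)
        (CovZ.n2 (-2192, 7672) (by decide +kernel)
         (CovZ.n2 (-2188, 7676) (by decide +kernel)
          (CovZ.n2 (-2188, 7672) (by decide +kernel)
           (CovZ.leaf K2_ok TX_l1333 _)
           (CovZ.leaf K2_ok TX_l1334 _))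
          (CovZ.n1 (-2192, 7676) (by decide +kernel)
           (CovZ.n2 (-2190, 7678) (by decide +kernel)
            (CovZ.leaf K2_ok TX_l1335 _)
            (CovZ.leaf K2_ok TX_l1336 _))
           (CovZ.leaf K2_ok TX_l1337 _)))
         (CovZ.n1 (-2188, 7668) (by decide +kernel)
          (CovZ.n2 (-2192, 7668) (by decide +kernel)
           (CovZ.leaf K2_ok TX_l1338 _)
           (CovZ.leaf K2_ok TX_l1339 _))
          (CovZ.leaf K2_ok TX_l1340 _)))
        (CovZ.n1 (-2184, 7680) (by decide +kernel)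
         (CovZ.n2 (-2180, 7676) (by decide +kernel)
          (CovZ.n2 (-2184, 7676) (by decide +kernel)
           (CovZ.badM (by decide +kernel))
           (CovZ.n1 (-2182, 7674) (by decide +kernel)
            (CovZ.leaf K2_ok TX_l1341 _)
            (CovZ.leaf K2_ok TX_l1342 _)))
          (CovZ.badM (by decide +kernel)))
         (CovZ.n1 (-2188, 7676) (by decide +kernel)
          (CovZ.badM (by decide +kernel))
          (CovZ.n1 (-2184, 7676) (by decide +kernel)
           (CovZ.leaf K2_ok TX_l1343 _)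
           (CovZ.badM (by decide +kernel))))))
       (CovZ.n1 (-2200, 7672) (by decide +kernel)
        (CovZ.n2 (-2200, 7680) (by decide +kernel)
         (CovZ.n2 (-2196, 7676) (by decide +kernel)
          (CovZ.n2 (-2200, 7676) (by decide +kernel)
           (CovZ.leaf K2_ok TX_l1344 _)
           (CovZ.leaf K2_ok TX_l1345 _))
          (CovZ.n1 (-2196, 7680) (by decide +kernel)
           (CovZ.leaf K2_ok TX_l1346 _)
           (CovZ.leaf K2_ok TX_l1347 _)))
         (CovZ.n1 (-2204, 7676) (by decide +kernel)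
          (CovZ.n2 (-2204, 7680) (by decide +kernel)
           (CovZ.leaf K2_ok TX_l1348 _)
           (CovZ.leaf K2_ok TX_l1349 _))
          (CovZ.n1 (-2200, 7676) (by decide +kernel)
           (CovZ.leaf K2_ok TX_l1350 _)
           (CovZ.leaf K2_ok TX_l1351 _))))
        (CovZ.n1 (-2192, 7672) (by decide +kernel)
         (CovZ.n2 (-2196, 7668) (by decide +kernel)
          (CovZ.leaf K2_ok TX_l1352 _)
          (CovZ.n1 (-2192, 7668) (by decide +kernel)
           (CovZ.leaf K2_ok TX_l1353 _)
           (CovZ.leaf K2_ok TX_l1354 _)))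
         (CovZ.n1 (-2196, 7676) (by decide +kernel)
          (CovZ.n2 (-2192, 7676) (by decide +kernel)
           (CovZ.leaf K2_ok TX_l1355 _)
           (CovZ.leaf K2_ok TX_l1356 _))
          (CovZ.leaf K2_ok TX_l1357 _))))))
     (CovZ.n1 (-2224, 7664) (by decide +kernel)
      (CovZ.n2 (-2224, 7680) (by decide +kernel)
       (CovZ.n2 (-2216, 7672) (by decide +kernel)
        (CovZ.n2 (-2224, 7672) (by decide +kernel)
         (CovZ.n2 (-2220, 7676) (by decide +kernel)
          (CovZ.leaf K2_ok TX_l1358 _)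
          (CovZ.leaf K2_ok TX_l1359 _))
         (CovZ.leaf K2_ok TX_l1360 _))
        (CovZ.n1 (-2216, 7680) (by decide +kernel)
         (CovZ.n2 (-2212, 7676) (by decide +kernel)
          (CovZ.leaf K2_ok TX_l1361 _)
          (CovZ.leaf K2_ok TX_l1362 _))
         (CovZ.n1 (-2220, 7676) (by decide +kernel)
          (CovZ.leaf K2_ok TX_l1363 _)
          (CovZ.leaf K2_ok TX_l1364 _))))
       (CovZ.n1 (-2232, 7672) (by decide +kernel)
        (CovZ.n2 (-2232, 7680) (by decide +kernel)
         (CovZ.n2 (-2228, 7676) (by decide +kernel)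
          (CovZ.leaf K2_ok TX_l1365 _)
          (CovZ.leaf K2_ok TX_l1366 _))
         (CovZ.n1 (-2236, 7676) (by decide +kernel)
          (CovZ.leaf K2_ok TX_l1367 _)
          (CovZ.leaf K2_ok TX_l1368 _)))
        (CovZ.n1 (-2224, 7672) (by decide +kernel)
         (CovZ.leaf K2_ok TX_l1369 _)
         (CovZ.leaf K2_ok TX_l1370 _))))
      (CovZ.n1 (-2208, 7664) (by decide +kernel)
       (CovZ.n2 (-2216, 7656) (by decide +kernel)
        (CovZ.leaf K2_ok TX_l1371 _)
        (CovZ.n1 (-2208, 7656) (by decide +kernel)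
         (CovZ.leaf K2_ok TX_l1372 _)
         (CovZ.leaf K2_ok TX_l1373 _)))
       (CovZ.n1 (-2216, 7672) (by decide +kernel)
        (CovZ.n2 (-2208, 7672) (by decide +kernel)
         (CovZ.leaf K2_ok TX_l1374 _)
         (CovZ.n1 (-2212, 7676) (by decide +kernel)
          (CovZ.n2 (-2208, 7676) (by decide +kernel)
           (CovZ.leaf K2_ok TX_l1375 _)
           (CovZ.leaf K2_ok TX_l1376 _))
          (CovZ.leaf K2_ok TX_l1377 _)))
        (CovZ.n1 (-2216, 7664) (by decide +kernel)
         (CovZ.leaf K2_ok TX_l1378 _)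
         (CovZ.n1 (-2212, 7668) (by decide +kernel)
          (CovZ.leaf K2_ok TX_l1379 _)
          (CovZ.leaf K2_ok TX_l1380 _)))))))))

theorem TX_s2_3 : SqZ TX_M TX_L [0, 7, 4, 3] (-2304) 7424 64 2 3 :=
  SqZ.mk (a := (-2176)) (b := (-2112)) (c := 7616) (d := 7680) (by norm_num) (by norm_num) (by norm_num) (by norm_num)
    (CovZ.topM TX_LL 3 (by decide +kernel) (CovZ.n2 (-2144, 7648) (by decide +kernel)
    (CovZ.n2 (-2112, 7648) (by decide +kernel)
     TX_u12
     TX_u13)
    (CovZ.n1 (-2144, 7616) (by decide +kernel)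
     (CovZ.n2 (-2160, 7632) (by decide +kernel)
      (CovZ.n2 (-2144, 7632) (by decide +kernel)
       (CovZ.n2 (-2152, 7624) (by decide +kernel)
        (CovZ.leaf K2_ok TX_l1843 _)
        (CovZ.n1 (-2144, 7624) (by decide +kernel)
         (CovZ.leaf K2_ok TX_l1844 _)
         (CovZ.leaf K2_ok TX_l1845 _)))
       (CovZ.n1 (-2152, 7640) (by decide +kernel)
        (CovZ.n2 (-2144, 7640) (by decide +kernel)
         (CovZ.leaf K2_ok TX_l1846 _)
         (CovZ.n1 (-2148, 7644) (by decide +kernel)
          (CovZ.n2 (-2144, 7644) (by decide +kernel)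
           (CovZ.leaf K2_ok TX_l1847 _)
           (CovZ.leaf K2_ok TX_l1848 _))
          (CovZ.leaf K2_ok TX_l1849 _)))
        (CovZ.n1 (-2152, 7632) (by decide +kernel)
         (CovZ.leaf K2_ok TX_l1850 _)
         (CovZ.leaf K2_ok TX_l1851 _))))
      (CovZ.n1 (-2160, 7616) (by decide +kernel)
       (CovZ.n2 (-2168, 7624) (by decide +kernel)
        (CovZ.n2 (-2160, 7624) (by decide +kernel)
         (CovZ.leaf K2_ok TX_l1852 _)
         (CovZ.leaf K2_ok TX_l1853 _))
        (CovZ.leaf K2_ok TX_l1854 _))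
       (CovZ.n1 (-2152, 7624) (by decide +kernel)
        (CovZ.leaf K2_ok TX_l1855 _)
        (CovZ.n1 (-2160, 7624) (by decide +kernel)
         (CovZ.leaf K2_ok TX_l1856 _)
         (CovZ.leaf K2_ok TX_l1857 _)))))
     (CovZ.n1 (-2128, 7632) (by decide +kernel)
      (CovZ.n2 (-2128, 7616) (by decide +kernel)
       (CovZ.n2 (-2136, 7624) (by decide +kernel)
        (CovZ.n2 (-2128, 7624) (by decide +kernel)
         (CovZ.leaf K2_ok TX_l1858 _)
         (CovZ.n1 (-2132, 7628) (by decide +kernel)
          (CovZ.leaf K2_ok TX_l1859 _)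
          (CovZ.leaf K2_ok TX_l1860 _)))
        (CovZ.n1 (-2136, 7616) (by decide +kernel)
         (CovZ.leaf K2_ok TX_l1861 _)
         (CovZ.leaf K2_ok TX_l1862 _)))
       (CovZ.n1 (-2120, 7624) (by decide +kernel)
        (CovZ.n2 (-2120, 7616) (by decide +kernel)
         (CovZ.leaf K2_ok TX_l1863 _)
         (CovZ.leaf K2_ok TX_l1864 _))
        (CovZ.n1 (-2128, 7624) (by decide +kernel)
         (CovZ.leaf K2_ok TX_l1865 _)
         (CovZ.leaf K2_ok TX_l1866 _))))
      (CovZ.n1 (-2144, 7632) (by decide +kernel)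
       (CovZ.n2 (-2136, 7640) (by decide +kernel)
        (CovZ.n2 (-2136, 7632) (by decide +kernel)
         (CovZ.n2 (-2140, 7636) (by decide +kernel)
          (CovZ.leaf K2_ok TX_l1867 _)
          (CovZ.leaf K2_ok TX_l1868 _))
         (CovZ.n1 (-2132, 7636) (by decide +kernel)
          (CovZ.leaf K2_ok TX_l1869 _)
          (CovZ.leaf K2_ok TX_l1870 _)))
        (CovZ.n1 (-2144, 7640) (by decide +kernel)
         (CovZ.n2 (-2140, 7644) (by decide +kernel)
          (CovZ.leaf K2_ok TX_l1871 _)
          (CovZ.n1 (-2144, 7644) (by decide +kernel)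
           (CovZ.leaf K2_ok TX_l1872 _)
           (CovZ.leaf K2_ok TX_l1873 _)))
         (CovZ.n1 (-2140, 7636) (by decide +kernel)
          (CovZ.leaf K2_ok TX_l1874 _)
          (CovZ.leaf K2_ok TX_l1875 _))))
       (CovZ.n1 (-2136, 7624) (by decide +kernel)
        (CovZ.n2 (-2144, 7624) (by decide +kernel)
         (CovZ.leaf K2_ok TX_l1876 _)
         (CovZ.leaf K2_ok TX_l1877 _))
        (CovZ.n1 (-2136, 7632) (by decide +kernel)
         (CovZ.n2 (-2132, 7628) (by decide +kernel)
          (CovZ.leaf K2_ok TX_l1878 _)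
          (CovZ.leaf K2_ok TX_l1879 _))
         (CovZ.leaf K2_ok TX_l1880 _))))))))
    (CovZ.topM TX_LL 3 (by decide +kernel) (CovZ.n0 (-2144, 7648) (by decide +kernel)
    TX_u16
    TX_u17))

theorem TX_s3_3 : SqZ TX_M TX_L [0, 7, 4, 3] (-2304) 7424 64 3 3 :=
  SqZ.mk (a := (-2112)) (b := (-2048)) (c := 7616) (d := 7680) (by norm_num) (by norm_num) (by norm_num) (by norm_num)
    (CovZ.topM TX_LL 3 (by decide +kernel) (CovZ.n2 (-2080, 7648) (by decide +kernel)
    (CovZ.n2 (-2048, 7648) (by decide +kernel)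
     (CovZ.n2 (-2064, 7632) (by decide +kernel)
      (CovZ.badM (by decide +kernel))
      (CovZ.n1 (-2048, 7632) (by decide +kernel)
       (CovZ.n2 (-2056, 7624) (by decide +kernel)
        (CovZ.badM (by decide +kernel))
        (CovZ.n1 (-2048, 7624) (by decide +kernel)
         (CovZ.n2 (-2052, 7620) (by decide +kernel)
          (CovZ.badM (by decide +kernel))
          (CovZ.n1 (-2048, 7620) (by decide +kernel)
           (CovZ.n2 (-2050, 7618) (by decide +kernel)
            (CovZ.n2 (-2050, 7620) (by decide +kernel)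
             (CovZ.leaf K2_ok TX_l2523 _)
             (CovZ.n1 (-2051, 7619) (by decide +kernel)
              (CovZ.leaf K2_ok TX_l2524 _)
              (CovZ.leaf K2_ok TX_l2525 _)))
            (CovZ.n1 (-2048, 7618) (by decide +kernel)
             (CovZ.leaf K2_ok TX_l2526 _)
             (CovZ.leaf K2_ok TX_l2527 _)))
           (CovZ.badM (by decide +kernel))))
         (CovZ.badM (by decide +kernel))))
       (CovZ.badM (by decide +kernel))))
     (CovZ.badM (by decide +kernel)))
    (CovZ.n1 (-2080, 7616) (by decide +kernel)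
     (CovZ.n2 (-2096, 7632) (by decide +kernel)
      (CovZ.n2 (-2080, 7632) (by decide +kernel)
       (CovZ.n2 (-2088, 7624) (by decide +kernel)
        (CovZ.n2 (-2088, 7632) (by decide +kernel)
         (CovZ.n2 (-2084, 7628) (by decide +kernel)
          (CovZ.n2 (-2088, 7628) (by decide +kernel)
           (CovZ.n2 (-2086, 7630) (by decide +kernel)
            (CovZ.leaf K2_ok TX_l2528 _)
            (CovZ.n1 (-2088, 7630) (by decide +kernel)
             (CovZ.leaf K2_ok TX_l2529 _)
             (CovZ.leaf K2_ok TX_l2530 _)))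
           (CovZ.n1 (-2086, 7626) (by decide +kernel)
            (CovZ.leaf K2_ok TX_l2531 _)
            (CovZ.leaf K2_ok TX_l2532 _)))
          (CovZ.n1 (-2084, 7632) (by decide +kernel)
           (CovZ.n2 (-2082, 7630) (by decide +kernel)
            (CovZ.leaf K2_ok TX_l2533 _)
            (CovZ.leaf K2_ok TX_l2534 _))
           (CovZ.n1 (-2086, 7630) (by decide +kernel)
            (CovZ.leaf K2_ok TX_l2535 _)
            (CovZ.n1 (-2084, 7630) (by decide +kernel)
             (CovZ.leaf K2_ok TX_l2536 _)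
             (CovZ.leaf K2_ok TX_l2537 _)))))
         (CovZ.n1 (-2092, 7628) (by decide +kernel)
          (CovZ.n2 (-2092, 7632) (by decide +kernel)
           (CovZ.n2 (-2090, 7630) (by decide +kernel)
            (CovZ.leaf K2_ok TX_l2538 _)
            (CovZ.leaf K2_ok TX_l2539 _))
           (CovZ.leaf K2_ok TX_l2540 _))
          (CovZ.n1 (-2088, 7628) (by decide +kernel)
           (CovZ.leaf K2_ok TX_l2541 _)
           (CovZ.n1 (-2090, 7630) (by decide +kernel)
            (CovZ.leaf K2_ok TX_l2542 _)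
            (CovZ.leaf K2_ok TX_l2543 _)))))
        (CovZ.n1 (-2080, 7624) (by decide +kernel)
         (CovZ.n2 (-2084, 7620) (by decide +kernel)
          (CovZ.n2 (-2084, 7624) (by decide +kernel)
           (CovZ.n2 (-2082, 7622) (by decide +kernel)
            (CovZ.leaf K2_ok TX_l2544 _)
            (CovZ.leaf K2_ok TX_l2545 _))
           (CovZ.leaf K2_ok TX_l2546 _))
          (CovZ.n1 (-2080, 7620) (by decide +kernel)
           (CovZ.leaf K2_ok TX_l2547 _)
           (CovZ.leaf K2_ok TX_l2548 _)))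
         (CovZ.n1 (-2084, 7628) (by decide +kernel)
          (CovZ.n2 (-2080, 7628) (by decide +kernel)
           (CovZ.n2 (-2082, 7626) (by decide +kernel)
            (CovZ.leaf K2_ok TX_l2549 _)
            (CovZ.leaf K2_ok TX_l2550 _))
           (CovZ.n1 (-2082, 7630) (by decide +kernel)
            (CovZ.n2 (-2080, 7630) (by decide +kernel)
             (CovZ.leaf K2_ok TX_l2551 _)
             (CovZ.leaf K2_ok TX_l2552 _))
            (CovZ.leaf K2_ok TX_l2553 _)))
          (CovZ.n1 (-2084, 7624) (by decide +kernel)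
           (CovZ.n2 (-2086, 7626) (by decide +kernel)
            (CovZ.n2 (-2084, 7626) (by decide +kernel)
             (CovZ.leaf K2_ok TX_l2554 _)
             (CovZ.leaf K2_ok TX_l2555 _))
            (CovZ.leaf K2_ok TX_l2556 _))
           (CovZ.leaf K2_ok TX_l2557 _)))))
       (CovZ.n1 (-2088, 7640) (by decide +kernel)
        (CovZ.n2 (-2080, 7640) (by decide +kernel)
         (CovZ.n2 (-2084, 7636) (by decide +kernel)
          (CovZ.n2 (-2084, 7640) (by decide +kernel)
           (CovZ.n2 (-2082, 7638) (by decide +kernel)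
            (CovZ.n2 (-2084, 7638) (by decide +kernel)
             (CovZ.badM (by decide +kernel))
             (CovZ.n1 (-2083, 7637) (by decide +kernel)
              (CovZ.leaf K2_ok TX_l2560 _)
              (CovZ.badM (by decide +kernel))))
            (CovZ.badM (by decide +kernel)))
           (CovZ.n1 (-2086, 7638) (by decide +kernel)
            (CovZ.badM (by decide +kernel))
            (CovZ.n1 (-2084, 7638) (by decide +kernel)
             (CovZ.n2 (-2085, 7637) (by decide +kernel)
              (CovZ.badM (by decide +kernel))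
              (CovZ.leaf K2_ok TX_l2565 _))
             (CovZ.badM (by decide +kernel)))))
          (CovZ.n1 (-2080, 7636) (by decide +kernel)
           (CovZ.n2 (-2082, 7634) (by decide +kernel)
            (CovZ.n2 (-2082, 7636) (by decide +kernel)
             (CovZ.n2 (-2081, 7635) (by decide +kernel)
              (CovZ.n2 (-2082, 7635) (by decide +kernel)
               (CovZ.leaf K2_ok TX_l2567 _)
               (CovZ.leaf K2_ok TX_l2568 _))
              (CovZ.badM (by decide +kernel)))
             (CovZ.leaf K2_ok TX_l2570 _))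
            (CovZ.n1 (-2080, 7634) (by decide +kernel)
             (CovZ.leaf K2_ok TX_l2571 _)
             (CovZ.leaf K2_ok TX_l2572 _)))
           (CovZ.n1 (-2082, 7638) (by decide +kernel)
            (CovZ.badM (by decide +kernel))
            (CovZ.n1 (-2082, 7636) (by decide +kernel)
             (CovZ.n2 (-2083, 7637) (by decide +kernel)
              (CovZ.badM (by decide +kernel))
              (CovZ.leaf K2_ok TX_l2574 _))
             (CovZ.badM (by decide +kernel))))))
         (CovZ.badM (by decide +kernel)))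
        (CovZ.n1 (-2088, 7632) (by decide +kernel)
         (CovZ.n2 (-2092, 7636) (by decide +kernel)
          (CovZ.n2 (-2088, 7636) (by decide +kernel)
           (CovZ.n2 (-2090, 7634) (by decide +kernel)
            (CovZ.leaf K2_ok TX_l2578 _)
            (CovZ.n1 (-2088, 7634) (by decide +kernel)
             (CovZ.leaf K2_ok TX_l2579 _)
             (CovZ.leaf K2_ok TX_l2580 _)))
           (CovZ.n1 (-2090, 7638) (by decide +kernel)
            (CovZ.n2 (-2088, 7638) (by decide +kernel)
             (CovZ.leaf K2_ok TX_l2581 _)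
             (CovZ.n1 (-2089, 7639) (by decide +kernel)
              (CovZ.leaf K2_ok TX_l2582 _)
              (CovZ.leaf K2_ok TX_l2583 _)))
            (CovZ.leaf K2_ok TX_l2584 _)))
          (CovZ.n1 (-2092, 7632) (by decide +kernel)
           (CovZ.n2 (-2094, 7634) (by decide +kernel)
            (CovZ.n2 (-2092, 7634) (by decide +kernel)
             (CovZ.leaf K2_ok TX_l2585 _)
             (CovZ.n1 (-2093, 7635) (by decide +kernel)
              (CovZ.leaf K2_ok TX_l2586 _)
              (CovZ.leaf K2_ok TX_l2587 _)))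
            (CovZ.leaf K2_ok TX_l2588 _))
           (CovZ.n1 (-2090, 7634) (by decide +kernel)
            (CovZ.leaf K2_ok TX_l2589 _)
            (CovZ.n1 (-2092, 7634) (by decide +kernel)
             (CovZ.leaf K2_ok TX_l2590 _)
             (CovZ.leaf K2_ok TX_l2591 _)))))
         (CovZ.n1 (-2084, 7636) (by decide +kernel)
          (CovZ.n2 (-2084, 7632) (by decide +kernel)
           (CovZ.n2 (-2086, 7634) (by decide +kernel)
            (CovZ.n2 (-2084, 7634) (by decide +kernel)
             (CovZ.leaf K2_ok TX_l2592 _)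
             (CovZ.n1 (-2085, 7635) (by decide +kernel)
              (CovZ.n2 (-2084, 7635) (by decide +kernel)
               (CovZ.leaf K2_ok TX_l2593 _)
               (CovZ.leaf K2_ok TX_l2594 _))
              (CovZ.leaf K2_ok TX_l2595 _)))
            (CovZ.leaf K2_ok TX_l2596 _))
           (CovZ.n1 (-2082, 7634) (by decide +kernel)
            (CovZ.leaf K2_ok TX_l2597 _)
            (CovZ.n1 (-2084, 7634) (by decide +kernel)
             (CovZ.leaf K2_ok TX_l2598 _)
             (CovZ.leaf K2_ok TX_l2599 _))))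
          (CovZ.n1 (-2088, 7636) (by decide +kernel)
           (CovZ.n2 (-2086, 7638) (by decide +kernel)
            (CovZ.n2 (-2086, 7636) (by decide +kernel)
             (CovZ.leaf K2_ok TX_l2600 _)
             (CovZ.n1 (-2085, 7637) (by decide +kernel)
              (CovZ.leaf K2_ok TX_l2601 _)
              (CovZ.leaf K2_ok TX_l2602 _)))
            (CovZ.n1 (-2088, 7638) (by decide +kernel)
             (CovZ.n2 (-2087, 7639) (by decide +kernel)
              (CovZ.leaf K2_ok TX_l2603 _)
              (CovZ.n1 (-2088, 7639) (by decide +kernel)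
               (CovZ.badM (by decide +kernel))
               (CovZ.leaf K2_ok TX_l2605 _)))
             (CovZ.leaf K2_ok TX_l2606 _)))
           (CovZ.n1 (-2086, 7634) (by decide +kernel)
            (CovZ.leaf K2_ok TX_l2607 _)
            (CovZ.n1 (-2086, 7636) (by decide +kernel)
             (CovZ.leaf K2_ok TX_l2608 _)
             (CovZ.leaf K2_ok TX_l2609 _))))))))
      (CovZ.n1 (-2096, 7616) (by decide +kernel)
       (CovZ.n2 (-2104, 7624) (by decide +kernel)
        (CovZ.n2 (-2096, 7624) (by decide +kernel)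
         (CovZ.n2 (-2100, 7620) (by decide +kernel)
          (CovZ.leaf K2_ok TX_l2610 _)
          (CovZ.n1 (-2096, 7620) (by decide +kernel)
           (CovZ.leaf K2_ok TX_l2611 _)
           (CovZ.leaf K2_ok TX_l2612 _)))
         (CovZ.n1 (-2100, 7628) (by decide +kernel)
          (CovZ.n2 (-2096, 7628) (by decide +kernel)
           (CovZ.leaf K2_ok TX_l2613 _)
           (CovZ.leaf K2_ok TX_l2614 _))
          (CovZ.leaf K2_ok TX_l2615 _)))
        (CovZ.n1 (-2104, 7616) (by decide +kernel)
         (CovZ.n2 (-2108, 7620) (by decide +kernel)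
          (CovZ.leaf K2_ok TX_l2616 _)
          (CovZ.leaf K2_ok TX_l2617 _))
         (CovZ.n1 (-2100, 7620) (by decide +kernel)
          (CovZ.leaf K2_ok TX_l2618 _)
          (CovZ.n1 (-2104, 7620) (by decide +kernel)
           (CovZ.leaf K2_ok TX_l2619 _)
           (CovZ.leaf K2_ok TX_l2620 _)))))
       (CovZ.n1 (-2088, 7624) (by decide +kernel)
        (CovZ.n2 (-2088, 7616) (by decide +kernel)
         (CovZ.n2 (-2092, 7620) (by decide +kernel)
          (CovZ.n2 (-2088, 7620) (by decide +kernel)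
           (CovZ.leaf K2_ok TX_l2621 _)
           (CovZ.leaf K2_ok TX_l2622 _))
          (CovZ.leaf K2_ok TX_l2623 _))
         (CovZ.n1 (-2084, 7620) (by decide +kernel)
          (CovZ.leaf K2_ok TX_l2624 _)
          (CovZ.n1 (-2088, 7620) (by decide +kernel)
           (CovZ.leaf K2_ok TX_l2625 _)
           (CovZ.leaf K2_ok TX_l2626 _))))
        (CovZ.n1 (-2096, 7624) (by decide +kernel)
         (CovZ.n2 (-2092, 7628) (by decide +kernel)
          (CovZ.n2 (-2092, 7624) (by decide +kernel)
           (CovZ.leaf K2_ok TX_l2627 _)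
           (CovZ.leaf K2_ok TX_l2628 _))
          (CovZ.n1 (-2096, 7628) (by decide +kernel)
           (CovZ.leaf K2_ok TX_l2629 _)
           (CovZ.n1 (-2094, 7626) (by decide +kernel)
            (CovZ.leaf K2_ok TX_l2630 _)
            (CovZ.leaf K2_ok TX_l2631 _))))
         (CovZ.n1 (-2092, 7620) (by decide +kernel)
          (CovZ.n2 (-2096, 7620) (by decide +kernel)
           (CovZ.leaf K2_ok TX_l2632 _)
           (CovZ.leaf K2_ok TX_l2633 _))
          (CovZ.leaf K2_ok TX_l2634 _))))))
     (CovZ.n1 (-2064, 7632) (by decide +kernel)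
      TX_u18
      TX_u19))))
    (CovZ.topM TX_LL 3 (by decide +kernel) (CovZ.n0 (-2080, 7648) (by decide +kernel)
    (CovZ.n2 (-2112, 7648) (by decide +kernel)
     (CovZ.n2 (-2096, 7664) (by decide +kernel)
      (CovZ.n2 (-2096, 7648) (by decide +kernel)
       (CovZ.n2 (-2104, 7656) (by decide +kernel)
        (CovZ.badM (by decide +kernel))
        (CovZ.n1 (-2104, 7648) (by decide +kernel)
         (CovZ.n2 (-2108, 7652) (by decide +kernel)
          (CovZ.badM (by decide +kernel))
          (CovZ.n1 (-2108, 7648) (by decide +kernel)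
           (CovZ.n2 (-2110, 7650) (by decide +kernel)
            (CovZ.n2 (-2108, 7650) (by decide +kernel)
             (CovZ.leaf K2_ok TX_l2799 _)
             (CovZ.badM (by decide +kernel)))
            (CovZ.n1 (-2110, 7648) (by decide +kernel)
             (CovZ.leaf K2_ok TX_l2800 _)
             (CovZ.leaf K2_ok TX_l2801 _)))
           (CovZ.n1 (-2106, 7650) (by decide +kernel)
            (CovZ.n2 (-2106, 7648) (by decide +kernel)
             (CovZ.n2 (-2107, 7649) (by decide +kernel)
              (CovZ.badM (by decide +kernel))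
              (CovZ.leaf K2_ok TX_l2802 _))
             (CovZ.badM (by decide +kernel)))
            (CovZ.n1 (-2108, 7650) (by decide +kernel)
             (CovZ.badM (by decide +kernel))
             (CovZ.n1 (-2107, 7649) (by decide +kernel)
              (CovZ.n2 (-2108, 7649) (by decide +kernel)
               (CovZ.badM (by decide +kernel))
               (CovZ.leaf K2_ok TX_l2803 _))
              (CovZ.badM (by decide +kernel)))))))
         (CovZ.badM (by decide +kernel))))
       (CovZ.badM (by decide +kernel)))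
      (CovZ.n1 (-2112, 7664) (by decide +kernel)
       (CovZ.badM (by decide +kernel))
       (CovZ.n1 (-2104, 7656) (by decide +kernel)
        (CovZ.n2 (-2112, 7656) (by decide +kernel)
         (CovZ.badM (by decide +kernel))
         (CovZ.n1 (-2108, 7652) (by decide +kernel)
          (CovZ.n2 (-2112, 7652) (by decide +kernel)
           (CovZ.badM (by decide +kernel))
           (CovZ.n1 (-2110, 7650) (by decide +kernel)
            (CovZ.n2 (-2112, 7650) (by decide +kernel)
             (CovZ.n2 (-2111, 7651) (by decide +kernel)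
              (CovZ.leaf K2_ok TX_l2804 _)
              (CovZ.leaf K2_ok TX_l2805 _))
             (CovZ.leaf K2_ok TX_l2806 _))
            (CovZ.badM (by decide +kernel))))
          (CovZ.badM (by decide +kernel))))
        (CovZ.badM (by decide +kernel)))))
     (CovZ.n1 (-2096, 7632) (by decide +kernel)
      TX_u20
      TX_u21))
    (CovZ.badM (by decide +kernel))))

theorem TX_s4_3 : SqZ TX_M TX_L [0, 7, 4, 3] (-2304) 7424 64 4 3 :=
  SqZ.mk (a := (-2048)) (b := (-1984)) (c := 7616) (d := 7680) (by norm_num) (by norm_num) (by norm_num) (by norm_num)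
    (CovZ.topM TX_LL 1 (by decide +kernel) (CovZ.n2 (-2016, 7648) (by decide +kernel)
    (CovZ.badM (by decide +kernel))
    (CovZ.n1 (-2016, 7616) (by decide +kernel)
     (CovZ.n2 (-2032, 7632) (by decide +kernel)
      (CovZ.badM (by decide +kernel))
      (CovZ.n1 (-2032, 7616) (by decide +kernel)
       (CovZ.n2 (-2040, 7624) (by decide +kernel)
        (CovZ.badM (by decide +kernel))
        (CovZ.n1 (-2040, 7616) (by decide +kernel)
         (CovZ.n2 (-2044, 7620) (by decide +kernel)
          (CovZ.badM (by decide +kernel))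
          (CovZ.n1 (-2044, 7616) (by decide +kernel)
           (CovZ.n2 (-2046, 7618) (by decide +kernel)
            (CovZ.badM (by decide +kernel))
            (CovZ.n1 (-2046, 7616) (by decide +kernel)
             (CovZ.leaf K2_ok TX_l3585 _)
             (CovZ.n1 (-2045, 7617) (by decide +kernel)
              (CovZ.leaf K2_ok TX_l3586 _)
              (CovZ.leaf K2_ok TX_l3587 _))))
           (CovZ.badM (by decide +kernel))))
         (CovZ.badM (by decide +kernel))))
       (CovZ.badM (by decide +kernel))))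
     (CovZ.badM (by decide +kernel)))))
    (CovZ.topM TX_LL 1 (by decide +kernel) (CovZ.n0 (-2016, 7648) (by decide +kernel)
    (CovZ.n2 (-2048, 7648) (by decide +kernel)
     (CovZ.badM (by decide +kernel))
     (CovZ.n1 (-2032, 7632) (by decide +kernel)
      (CovZ.n2 (-2048, 7632) (by decide +kernel)
       (CovZ.badM (by decide +kernel))
       (CovZ.n1 (-2040, 7624) (by decide +kernel)
        (CovZ.n2 (-2048, 7624) (by decide +kernel)
         (CovZ.badM (by decide +kernel))
         (CovZ.n1 (-2044, 7620) (by decide +kernel)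
          (CovZ.n2 (-2048, 7620) (by decide +kernel)
           (CovZ.badM (by decide +kernel))
           (CovZ.n1 (-2046, 7618) (by decide +kernel)
            (CovZ.n2 (-2048, 7618) (by decide +kernel)
             (CovZ.badM (by decide +kernel))
             (CovZ.leaf K2_ok TX_l3588 _))
            (CovZ.badM (by decide +kernel))))
          (CovZ.badM (by decide +kernel))))
        (CovZ.badM (by decide +kernel))))
      (CovZ.badM (by decide +kernel))))
    (CovZ.badM (by decide +kernel))))

theorem TX_s5_3 : SqZ TX_M TX_L [0, 7, 4, 3] (-2304) 7424 64 5 3 :=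
  SqZ.mk (a := (-1984)) (b := (-1920)) (c := 7616) (d := 7680) (by norm_num) (by norm_num) (by norm_num) (by norm_num)
    (CovZ.topM TX_LL 0 (by decide +kernel) (CovZ.badM (by decide +kernel)))
    (CovZ.topM TX_LL 0 (by decide +kernel) (CovZ.badM (by decide +kernel)))

end Pool.Agent.TET
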