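import Pool.Agent.Helper38_TET.TX_C

/-!
# MP_c7c9bf_co: certificates, family TX
-/

set_option autoImplicit false
set_option maxRecDepth 100000

namespace Pool.Agent.TET

theorem TX_rg0 : ROK [.q ⟨-29, 0, 19, 10⟩ ⟨-24271, 16912, 13569, -6210⟩, .q ⟨-29, 0, 19, 10⟩ ⟨17200, -16176, 7696, -8720⟩, .q ⟨-29, 0, 19, 10⟩ ⟨25946, -18048, -17238, 9340⟩, .q ⟨-29, 0, 19, 10⟩ ⟨-27417, 22520, -673, 5570⟩, .q ⟨-29, 0, 19, 10⟩ ⟨4688, -1864, -10424, 7600⟩] := by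
  refine rok_w (v := ⟨-29, 0, 19, 10⟩) (q := 8) (by decide) (by decide) (by decide) TX_sc (k := 1) (by decide) (Q := [(2114, 3171, -621), (-2022, 3033, -872), (-2256, -4373, 934), (2815, -1407, 557), (-233, -3108, 760)])
    (P := [⟨-19077120, 2114, 3171⟩, ⟨-26787840, -2022, 3033⟩, ⟨28692480, -2256, -4373⟩, ⟨17111040, 2815, -1407⟩, ⟨23347200, -233, -3108⟩]) rfl rfl
    (List.mem_of_getElem? (i := 0) rfl) TX_fr TX_cov ?_
  · intro X Y h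
    simp only [List.forall_mem_cons, List.not_mem_nil, false_imp_iff, implies_true, and_true] at h
    push_cast at h ⊢
    obtain ⟨h0, h1, h2, h3, h4⟩ := h
    refine ⟨⟨?_, ?_⟩, ?_, ?_⟩ <;> linarith

theorem TX_rg1 : ROK [.q ⟨-29, 0, 19, 10⟩ ⟨-12973, 5512, 22171, -14710⟩, .q ⟨-29, 0, 19, 10⟩ ⟨31357, -25568, -3779, -2010⟩, .q ⟨-29, 0, 19, 10⟩ ⟨29600, -18984, -27016, 16400⟩, .q ⟨-29, 0, 19, 10⟩ ⟨-22665, 17816, 3199, 1650⟩] := by
  refine rok_w (v := ⟨-29, 0, 19, 10⟩) (q := 8) (by decide) (by decide) (by decide) TX_sc (k := 1) (by decide) (Q := [(689, 6265, -1471), (-3196, 5, -201), (-2373, -7272, 1640), (2227, 8, 165)])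
    (P := [⟨-45189120, 689, 6265⟩, ⟨-6174720, -3196, 5⟩, ⟨50380800, -2373, -7272⟩, ⟨5068800, 2227, 8⟩]) rfl rfl
    (List.mem_of_getElem? (i := 1) rfl) TX_fr TX_cov ?_
  · intro X Y h
    simp only [List.forall_mem_cons, List.not_mem_nil, false_imp_iff, implies_true, and_true] at h
    push_cast at h ⊢
    obtain ⟨h0, h1, h2, h3⟩ := h
    refine ⟨⟨?_, ?_⟩, ?_, ?_⟩ <;> linarith

end Pool.Agent.TET
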