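import Pool.Agent.Helper38_TET.CovN

/-!
# MP_c7c9bf_co: certificates, family TY
-/

set_option autoImplicit false
set_option maxRecDepth 100000

namespace Pool.Agent.TET

/-- the polygons -/
def TY_L : List (List Z3) :=
  [[⟨-40980480, -3122, 3122⟩, ⟨-11397120, -4343, 0⟩, ⟨42270720, 2920, -3251⟩, ⟨8540160, 3033, 0⟩],
   [⟨-38123520, -3009, 2878⟩, ⟨-11397120, -4343, 0⟩, ⟨27463680, 1822, -2131⟩, ⟨-19998720, 3850, 2929⟩],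
   [⟨-45496320, -3512, 3454⟩, ⟨-14807040, -3807, 452⟩, ⟨42270720, 2920, -3251⟩, ⟨8540160, 3033, 0⟩]]

/-- the polygons in natural numbers -/
def TY_LN : List (List N6) :=
  [[⟨0, 3122, 3122, 0, 0, 40980480⟩, ⟨0, 4343, 0, 0, 557848576, 0⟩, ⟨2920, 0, 0, 3251, 85655552, 0⟩, ⟨3033, 0, 0, 0, 0, 389001216⟩],
   [⟨0, 3009, 2878, 0, 0, 20953088⟩, ⟨0, 4343, 0, 0, 557848576, 0⟩, ⟨1822, 0, 0, 2131, 67964928, 0⟩, ⟨3850, 0, 2929, 0, 0, 908535808⟩],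
   [⟨0, 3512, 3454, 0, 0, 37894144⟩, ⟨0, 3807, 452, 0, 424939520, 0⟩, ⟨2920, 0, 0, 3251, 85655552, 0⟩, ⟨3033, 0, 0, 0, 0, 389001216⟩]]

theorem TY_LL : toL TY_LN = TY_L := eqLL_eq (by decide +kernel)

end Pool.Agent.TET
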