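import Pool.Agent.Helper38_TET.TY_M
import Pool.Agent.Helper38_TET.TY_L
import Pool.Agent.Helper38_TET.TY_3
import Pool.Agent.Helper38_TET.TY_4
import Pool.Agent.Helper38_TET.TY_5
import Pool.Agent.Helper38_TET.TY_6
import Pool.Agent.Helper38_TET.TY_7
import Pool.Agent.Helper38_TET.TY_8
import Pool.Agent.Helper38_TET.TY_15
import Pool.Agent.Helper38_TET.TY_23
import Pool.Agent.Helper38_TET.TY_24
import Pool.Agent.Helper38_TET.TY_31
import Pool.Agent.Helper38_TET.TY_32

/-!
# MP_c7c9bf_co: certificates, family TY
-/

set_option autoImplicit false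
set_option maxRecDepth 100000

namespace Pool.Agent.TET

theorem TY_u0 : CovZ TY_M (toL (selN TY_LN 5)) [0, 7, 4, 3] (-2784, 10336) (-2768, 10352) (-2784, 10368) :=
    (CovZ.n2 (-2784, 10352) (by decide +kernel)
     (CovZ.n2 (-2776, 10360) (by decide +kernel)
      (CovZ.n2 (-2776, 10352) (by decide +kernel)
       (CovZ.n2 (-2780, 10356) (by decide +kernel)
        (CovZ.n2 (-2776, 10356) (by decide +kernel)
         (CovZ.n2 (-2778, 10354) (by decide +kernel)
          (CovZ.leaf K3_ok TY_l1132 _)
          (CovZ.leaf K3_ok TY_l1133 _))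
         (CovZ.n1 (-2778, 10358) (by decide +kernel)
          (CovZ.leaf K3_ok TY_l1134 _)
          (CovZ.leaf K3_ok TY_l1135 _)))
        (CovZ.n1 (-2780, 10352) (by decide +kernel)
         (CovZ.leaf K2_ok TY_l1136 _)
         (CovZ.n1 (-2778, 10354) (by decide +kernel)
          (CovZ.leaf K3_ok TY_l1137 _)
          (CovZ.leaf K3_ok TY_l1138 _))))
       (CovZ.n1 (-2772, 10356) (by decide +kernel)
        (CovZ.n2 (-2772, 10352) (by decide +kernel)
         (CovZ.n2 (-2774, 10354) (by decide +kernel)
          (CovZ.leaf K3_ok TY_l1139 _)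
          (CovZ.n1 (-2774, 10352) (by decide +kernel)
           (CovZ.leaf K3_ok TY_l1140 _)
           (CovZ.leaf K3_ok TY_l1141 _)))
         (CovZ.n1 (-2770, 10354) (by decide +kernel)
          (CovZ.badM (by decide +kernel))
          (CovZ.n1 (-2772, 10354) (by decide +kernel)
           (CovZ.leaf K3_ok TY_l1142 _)
           (CovZ.leaf K3_ok TY_l1143 _))))
        (CovZ.n1 (-2776, 10356) (by decide +kernel)
         (CovZ.n2 (-2774, 10358) (by decide +kernel)
          (CovZ.n2 (-2774, 10356) (by decide +kernel)
           (CovZ.leaf K3_ok TY_l1144 _)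
           (CovZ.leaf K2_ok TY_l1145 _))
          (CovZ.leaf K3_ok TY_l1146 _))
         (CovZ.n1 (-2774, 10354) (by decide +kernel)
          (CovZ.leaf K3_ok TY_l1147 _)
          (CovZ.leaf K3_ok TY_l1148 _)))))
      (CovZ.n1 (-2784, 10360) (by decide +kernel)
       (CovZ.n2 (-2780, 10364) (by decide +kernel)
        (CovZ.n2 (-2780, 10360) (by decide +kernel)
         (CovZ.leaf K3_ok TY_l1149 _)
         (CovZ.leaf K3_ok TY_l1150 _))
        (CovZ.leaf K3_ok TY_l1151 _))
       (CovZ.n1 (-2780, 10356) (by decide +kernel)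
        (CovZ.n2 (-2784, 10356) (by decide +kernel)
         (CovZ.leaf K3_ok TY_l1152 _)
         (CovZ.leaf K3_ok TY_l1153 _))
        (CovZ.n1 (-2780, 10360) (by decide +kernel)
         (CovZ.leaf K3_ok TY_l1154 _)
         (CovZ.n1 (-2782, 10358) (by decide +kernel)
          (CovZ.leaf K3_ok TY_l1155 _)
          (CovZ.leaf K3_ok TY_l1156 _))))))
     (CovZ.n1 (-2776, 10344) (by decide +kernel)
      (CovZ.n2 (-2784, 10344) (by decide +kernel)
       (CovZ.n2 (-2780, 10348) (by decide +kernel)
        (CovZ.n2 (-2780, 10344) (by decide +kernel)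
         (CovZ.n2 (-2782, 10346) (by decide +kernel)
          (CovZ.leaf K3_ok TY_l1157 _)
          (CovZ.n1 (-2782, 10344) (by decide +kernel)
           (CovZ.leaf K3_ok TY_l1158 _)
           (CovZ.leaf K3_ok TY_l1159 _)))
         (CovZ.n1 (-2778, 10346) (by decide +kernel)
          (CovZ.badM (by decide +kernel))
          (CovZ.leaf K3_ok TY_l1160 _)))
        (CovZ.n1 (-2784, 10348) (by decide +kernel)
         (CovZ.n2 (-2782, 10350) (by decide +kernel)
          (CovZ.leaf K2_ok TY_l1161 _)
          (CovZ.leaf K2_ok TY_l1162 _))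
         (CovZ.n1 (-2782, 10346) (by decide +kernel)
          (CovZ.leaf K3_ok TY_l1163 _)
          (CovZ.leaf K3_ok TY_l1164 _))))
       (CovZ.n1 (-2780, 10340) (by decide +kernel)
        (CovZ.n2 (-2784, 10340) (by decide +kernel)
         (CovZ.n2 (-2782, 10342) (by decide +kernel)
          (CovZ.badM (by decide +kernel))
          (CovZ.leaf K3_ok TY_l1165 _))
         (CovZ.badM (by decide +kernel)))
        (CovZ.n1 (-2780, 10344) (by decide +kernel)
         (CovZ.badM (by decide +kernel))
         (CovZ.n1 (-2782, 10342) (by decide +kernel)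
          (CovZ.n2 (-2782, 10344) (by decide +kernel)
           (CovZ.n2 (-2781, 10343) (by decide +kernel)
            (CovZ.leaf K3_ok TY_l1166 _)
            (CovZ.leaf K3_ok TY_l1167 _))
           (CovZ.leaf K2_ok TY_l1168 _))
          (CovZ.badM (by decide +kernel))))))
      (CovZ.n1 (-2776, 10352) (by decide +kernel)
       (CovZ.n2 (-2772, 10348) (by decide +kernel)
        (CovZ.n2 (-2776, 10348) (by decide +kernel)
         (CovZ.n2 (-2774, 10350) (by decide +kernel)
          (CovZ.badM (by decide +kernel))
          (CovZ.leaf K3_ok TY_l1169 _))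
         (CovZ.badM (by decide +kernel)))
        (CovZ.n1 (-2772, 10352) (by decide +kernel)
         (CovZ.badM (by decide +kernel))
         (CovZ.n1 (-2774, 10350) (by decide +kernel)
          (CovZ.n2 (-2774, 10352) (by decide +kernel)
           (CovZ.leaf K3_ok TY_l1170 _)
           (CovZ.leaf K3_ok TY_l1171 _))
          (CovZ.badM (by decide +kernel)))))
       (CovZ.n1 (-2780, 10348) (by decide +kernel)
        (CovZ.n2 (-2780, 10352) (by decide +kernel)
         (CovZ.n2 (-2778, 10350) (by decide +kernel)
          (CovZ.leaf K3_ok TY_l1172 _)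
          (CovZ.n1 (-2778, 10352) (by decide +kernel)
           (CovZ.leaf K3_ok TY_l1173 _)
           (CovZ.leaf K3_ok TY_l1174 _)))
         (CovZ.n1 (-2782, 10350) (by decide +kernel)
          (CovZ.leaf K3_ok TY_l1175 _)
          (CovZ.leaf K3_ok TY_l1176 _)))
        (CovZ.n1 (-2776, 10348) (by decide +kernel)
         (CovZ.n2 (-2778, 10346) (by decide +kernel)
          (CovZ.n2 (-2778, 10348) (by decide +kernel)
           (CovZ.leaf K3_ok TY_l1177 _)
           (CovZ.n1 (-2779, 10347) (by decide +kernel)
            (CovZ.leaf K3_ok TY_l1178 _)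
            (CovZ.leaf K3_ok TY_l1179 _)))
          (CovZ.badM (by decide +kernel)))
         (CovZ.n1 (-2778, 10350) (by decide +kernel)
          (CovZ.leaf K3_ok TY_l1180 _)
          (CovZ.n1 (-2778, 10348) (by decide +kernel)
           (CovZ.leaf K2_ok TY_l1181 _)
           (CovZ.leaf K3_ok TY_l1182 _))))))))

theorem TY_u1 : CovZ TY_M (toL (selN TY_LN 5)) [0, 7, 4, 3] (-2768, 10352) (-2752, 10368) (-2784, 10368) :=
    (CovZ.n1 (-2768, 10368) (by decide +kernel)
     (CovZ.n2 (-2760, 10360) (by decide +kernel)
      (CovZ.n2 (-2768, 10360) (by decide +kernel)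
       (CovZ.n2 (-2764, 10364) (by decide +kernel)
        (CovZ.n2 (-2764, 10360) (by decide +kernel)
         (CovZ.n2 (-2766, 10362) (by decide +kernel)
          (CovZ.leaf K3_ok TY_l1183 _)
          (CovZ.n1 (-2766, 10360) (by decide +kernel)
           (CovZ.leaf K3_ok TY_l1184 _)
           (CovZ.leaf K3_ok TY_l1185 _)))
         (CovZ.n1 (-2762, 10362) (by decide +kernel)
          (CovZ.badM (by decide +kernel))
          (CovZ.leaf K3_ok TY_l1186 _)))
        (CovZ.n1 (-2768, 10364) (by decide +kernel)
         (CovZ.n2 (-2766, 10366) (by decide +kernel)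
          (CovZ.n2 (-2766, 10364) (by decide +kernel)
           (CovZ.leaf K3_ok TY_l1187 _)
           (CovZ.leaf K3_ok TY_l1188 _))
          (CovZ.leaf K3_ok TY_l1189 _))
         (CovZ.n1 (-2766, 10362) (by decide +kernel)
          (CovZ.leaf K3_ok TY_l1190 _)
          (CovZ.leaf K3_ok TY_l1191 _))))
       (CovZ.n1 (-2764, 10356) (by decide +kernel)
        (CovZ.n2 (-2768, 10356) (by decide +kernel)
         (CovZ.n2 (-2766, 10358) (by decide +kernel)
          (CovZ.badM (by decide +kernel))
          (CovZ.leaf K3_ok TY_l1192 _))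
         (CovZ.badM (by decide +kernel)))
        (CovZ.n1 (-2764, 10360) (by decide +kernel)
         (CovZ.badM (by decide +kernel))
         (CovZ.n1 (-2766, 10358) (by decide +kernel)
          (CovZ.n2 (-2766, 10360) (by decide +kernel)
           (CovZ.leaf K3_ok TY_l1193 _)
           (CovZ.leaf K3_ok TY_l1194 _))
          (CovZ.badM (by decide +kernel))))))
      (CovZ.n1 (-2760, 10368) (by decide +kernel)
       (CovZ.n2 (-2756, 10364) (by decide +kernel)
        (CovZ.n2 (-2760, 10364) (by decide +kernel)
         (CovZ.n2 (-2758, 10366) (by decide +kernel)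
          (CovZ.badM (by decide +kernel))
          (CovZ.n1 (-2760, 10366) (by decide +kernel)
           (CovZ.leaf K3_ok TY_l1195 _)
           (CovZ.leaf K3_ok TY_l1196 _)))
         (CovZ.badM (by decide +kernel)))
        (CovZ.n1 (-2756, 10368) (by decide +kernel)
         (CovZ.badM (by decide +kernel))
         (CovZ.n1 (-2758, 10366) (by decide +kernel)
          (CovZ.n2 (-2758, 10368) (by decide +kernel)
           (CovZ.leaf K3_ok TY_l1197 _)
           (CovZ.leaf K3_ok TY_l1198 _))
          (CovZ.badM (by decide +kernel)))))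
       (CovZ.n1 (-2764, 10364) (by decide +kernel)
        (CovZ.n2 (-2764, 10368) (by decide +kernel)
         (CovZ.n2 (-2762, 10366) (by decide +kernel)
          (CovZ.leaf K3_ok TY_l1199 _)
          (CovZ.n1 (-2762, 10368) (by decide +kernel)
           (CovZ.leaf K3_ok TY_l1200 _)
           (CovZ.leaf K3_ok TY_l1201 _)))
         (CovZ.n1 (-2766, 10366) (by decide +kernel)
          (CovZ.leaf K2_ok TY_l1202 _)
          (CovZ.leaf K2_ok TY_l1203 _)))
        (CovZ.n1 (-2760, 10364) (by decide +kernel)
         (CovZ.n2 (-2762, 10362) (by decide +kernel)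
          (CovZ.n2 (-2762, 10364) (by decide +kernel)
           (CovZ.leaf K3_ok TY_l1204 _)
           (CovZ.n1 (-2763, 10363) (by decide +kernel)
            (CovZ.leaf K3_ok TY_l1205 _)
            (CovZ.leaf K2_ok TY_l1206 _)))
          (CovZ.badM (by decide +kernel)))
         (CovZ.n1 (-2762, 10366) (by decide +kernel)
          (CovZ.n2 (-2760, 10366) (by decide +kernel)
           (CovZ.leaf K3_ok TY_l1207 _)
           (CovZ.leaf K3_ok TY_l1208 _))
          (CovZ.n1 (-2762, 10364) (by decide +kernel)
           (CovZ.leaf K3_ok TY_l1209 _)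
           (CovZ.leaf K3_ok TY_l1210 _)))))))
     (CovZ.n1 (-2776, 10360) (by decide +kernel)
      (CovZ.n2 (-2776, 10368) (by decide +kernel)
       (CovZ.n2 (-2772, 10364) (by decide +kernel)
        (CovZ.n2 (-2776, 10364) (by decide +kernel)
         (CovZ.leaf K3_ok TY_l1211 _)
         (CovZ.leaf K3_ok TY_l1212 _))
        (CovZ.n1 (-2772, 10368) (by decide +kernel)
         (CovZ.leaf K3_ok TY_l1213 _)
         (CovZ.n1 (-2774, 10366) (by decide +kernel)
          (CovZ.leaf K3_ok TY_l1214 _)
          (CovZ.leaf K3_ok TY_l1215 _))))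
       (CovZ.n1 (-2780, 10364) (by decide +kernel)
        (CovZ.n2 (-2780, 10368) (by decide +kernel)
         (CovZ.leaf K3_ok TY_l1216 _)
         (CovZ.leaf K3_ok TY_l1217 _))
        (CovZ.n1 (-2776, 10364) (by decide +kernel)
         (CovZ.leaf K3_ok TY_l1218 _)
         (CovZ.leaf K3_ok TY_l1219 _))))
      (CovZ.n1 (-2768, 10360) (by decide +kernel)
       (CovZ.n2 (-2772, 10356) (by decide +kernel)
        (CovZ.n2 (-2772, 10360) (by decide +kernel)
         (CovZ.n2 (-2770, 10358) (by decide +kernel)
          (CovZ.leaf K3_ok TY_l1220 _)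
          (CovZ.leaf K3_ok TY_l1221 _))
         (CovZ.n1 (-2774, 10358) (by decide +kernel)
          (CovZ.leaf K3_ok TY_l1222 _)
          (CovZ.leaf K2_ok TY_l1223 _)))
        (CovZ.n1 (-2768, 10356) (by decide +kernel)
         (CovZ.n2 (-2770, 10354) (by decide +kernel)
          (CovZ.leaf K3_ok TY_l1224 _)
          (CovZ.badM (by decide +kernel)))
         (CovZ.n1 (-2770, 10358) (by decide +kernel)
          (CovZ.leaf K3_ok TY_l1225 _)
          (CovZ.n1 (-2770, 10356) (by decide +kernel)
           (CovZ.leaf K3_ok TY_l1226 _)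
           (CovZ.leaf K3_ok TY_l1227 _)))))
       (CovZ.n1 (-2772, 10364) (by decide +kernel)
        (CovZ.n2 (-2768, 10364) (by decide +kernel)
         (CovZ.n2 (-2770, 10362) (by decide +kernel)
          (CovZ.n2 (-2770, 10364) (by decide +kernel)
           (CovZ.leaf K3_ok TY_l1228 _)
           (CovZ.leaf K2_ok TY_l1229 _))
          (CovZ.leaf K2_ok TY_l1230 _))
         (CovZ.leaf K2_ok TY_l1231 _))
        (CovZ.n1 (-2772, 10360) (by decide +kernel)
         (CovZ.n2 (-2774, 10362) (by decide +kernel)
          (CovZ.leaf K3_ok TY_l1232 _)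
          (CovZ.leaf K3_ok TY_l1233 _))
         (CovZ.n1 (-2770, 10362) (by decide +kernel)
          (CovZ.n2 (-2770, 10360) (by decide +kernel)
           (CovZ.leaf K3_ok TY_l1234 _)
           (CovZ.leaf K3_ok TY_l1235 _))
          (CovZ.leaf K2_ok TY_l1236 _)))))))

theorem TY_u2 : CovZ TY_M (toL (selN TY_LN 5)) [0, 7, 4, 3] (-2752, 10368) (-2736, 10384) (-2752, 10400) :=
    (CovZ.n2 (-2752, 10384) (by decide +kernel)
     (CovZ.n2 (-2744, 10392) (by decide +kernel)
      (CovZ.n2 (-2744, 10384) (by decide +kernel)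
       (CovZ.n2 (-2748, 10388) (by decide +kernel)
        (CovZ.n2 (-2744, 10388) (by decide +kernel)
         (CovZ.n2 (-2746, 10386) (by decide +kernel)
          (CovZ.leaf K3_ok TY_l2289 _)
          (CovZ.leaf K2_ok TY_l2290 _))
         (CovZ.leaf K3_ok TY_l2291 _))
        (CovZ.n1 (-2748, 10384) (by decide +kernel)
         (CovZ.leaf K2_ok TY_l2292 _)
         (CovZ.n1 (-2746, 10386) (by decide +kernel)
          (CovZ.n2 (-2746, 10384) (by decide +kernel)
           (CovZ.leaf K2_ok TY_l2293 _)
           (CovZ.leaf K3_ok TY_l2294 _))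
          (CovZ.leaf K2_ok TY_l2295 _))))
       (CovZ.n1 (-2740, 10388) (by decide +kernel)
        (CovZ.n2 (-2740, 10384) (by decide +kernel)
         (CovZ.n2 (-2742, 10386) (by decide +kernel)
          (CovZ.leaf K3_ok TY_l2296 _)
          (CovZ.n1 (-2742, 10384) (by decide +kernel)
           (CovZ.leaf K3_ok TY_l2297 _)
           (CovZ.leaf K3_ok TY_l2298 _)))
         (CovZ.n1 (-2738, 10386) (by decide +kernel)
          (CovZ.badM (by decide +kernel))
          (CovZ.n1 (-2740, 10386) (by decide +kernel)
           (CovZ.leaf K3_ok TY_l2299 _)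
           (CovZ.badM (by decide +kernel)))))
        (CovZ.n1 (-2744, 10388) (by decide +kernel)
         (CovZ.n2 (-2742, 10390) (by decide +kernel)
          (CovZ.n2 (-2742, 10388) (by decide +kernel)
           (CovZ.leaf K3_ok TY_l2300 _)
           (CovZ.leaf K3_ok TY_l2301 _))
          (CovZ.leaf K2_ok TY_l2302 _))
         (CovZ.n1 (-2742, 10386) (by decide +kernel)
          (CovZ.leaf K2_ok TY_l2303 _)
          (CovZ.leaf K3_ok TY_l2304 _)))))
      (CovZ.n1 (-2752, 10392) (by decide +kernel)
       (CovZ.n2 (-2748, 10396) (by decide +kernel)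
        (CovZ.n2 (-2748, 10392) (by decide +kernel)
         (CovZ.leaf K3_ok TY_l2305 _)
         (CovZ.leaf K2_ok TY_l2306 _))
        (CovZ.leaf K3_ok TY_l2307 _))
       (CovZ.n1 (-2748, 10388) (by decide +kernel)
        (CovZ.n2 (-2752, 10388) (by decide +kernel)
         (CovZ.leaf K2_ok TY_l2308 _)
         (CovZ.leaf K3_ok TY_l2309 _))
        (CovZ.n1 (-2748, 10392) (by decide +kernel)
         (CovZ.n2 (-2746, 10390) (by decide +kernel)
          (CovZ.leaf K2_ok TY_l2310 _)
          (CovZ.leaf K2_ok TY_l2311 _))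
         (CovZ.n1 (-2750, 10390) (by decide +kernel)
          (CovZ.leaf K2_ok TY_l2312 _)
          (CovZ.leaf K2_ok TY_l2313 _))))))
     (CovZ.n1 (-2744, 10376) (by decide +kernel)
      (CovZ.n2 (-2752, 10376) (by decide +kernel)
       (CovZ.n2 (-2748, 10380) (by decide +kernel)
        (CovZ.n2 (-2748, 10376) (by decide +kernel)
         (CovZ.n2 (-2750, 10378) (by decide +kernel)
          (CovZ.n2 (-2748, 10378) (by decide +kernel)
           (CovZ.n2 (-2749, 10377) (by decide +kernel)
            (CovZ.leaf K3_ok TY_l2314 _)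
            (CovZ.leaf K3_ok TY_l2315 _))
           (CovZ.leaf K3_ok TY_l2316 _))
          (CovZ.n1 (-2750, 10376) (by decide +kernel)
           (CovZ.leaf K3_ok TY_l2317 _)
           (CovZ.leaf K3_ok TY_l2318 _)))
         (CovZ.n1 (-2746, 10378) (by decide +kernel)
          (CovZ.badM (by decide +kernel))
          (CovZ.n1 (-2748, 10378) (by decide +kernel)
           (CovZ.leaf K3_ok TY_l2319 _)
           (CovZ.n1 (-2747, 10377) (by decide +kernel)
            (CovZ.leaf K3_ok TY_l2320 _)
            (CovZ.leaf K3_ok TY_l2321 _)))))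
        (CovZ.n1 (-2752, 10380) (by decide +kernel)
         (CovZ.n2 (-2750, 10382) (by decide +kernel)
          (CovZ.n2 (-2750, 10380) (by decide +kernel)
           (CovZ.leaf K3_ok TY_l2322 _)
           (CovZ.leaf K3_ok TY_l2323 _))
          (CovZ.leaf K2_ok TY_l2324 _))
         (CovZ.n1 (-2750, 10378) (by decide +kernel)
          (CovZ.leaf K2_ok TY_l2325 _)
          (CovZ.leaf K2_ok TY_l2326 _))))
       (CovZ.n1 (-2748, 10372) (by decide +kernel)
        (CovZ.n2 (-2752, 10372) (by decide +kernel)
         (CovZ.n2 (-2750, 10374) (by decide +kernel)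
          (CovZ.badM (by decide +kernel))
          (CovZ.n1 (-2752, 10374) (by decide +kernel)
           (CovZ.leaf K3_ok TY_l2327 _)
           (CovZ.leaf K3_ok TY_l2328 _)))
         (CovZ.badM (by decide +kernel)))
        (CovZ.n1 (-2748, 10376) (by decide +kernel)
         (CovZ.badM (by decide +kernel))
         (CovZ.n1 (-2750, 10374) (by decide +kernel)
          (CovZ.n2 (-2750, 10376) (by decide +kernel)
           (CovZ.leaf K2_ok TY_l2329 _)
           (CovZ.leaf K3_ok TY_l2330 _))
          (CovZ.badM (by decide +kernel))))))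
      (CovZ.n1 (-2744, 10384) (by decide +kernel)
       (CovZ.n2 (-2740, 10380) (by decide +kernel)
        (CovZ.n2 (-2744, 10380) (by decide +kernel)
         (CovZ.n2 (-2742, 10382) (by decide +kernel)
          (CovZ.badM (by decide +kernel))
          (CovZ.leaf K2_ok TY_l2331 _))
         (CovZ.badM (by decide +kernel)))
        (CovZ.n1 (-2740, 10384) (by decide +kernel)
         (CovZ.badM (by decide +kernel))
         (CovZ.n1 (-2742, 10382) (by decide +kernel)
          (CovZ.n2 (-2742, 10384) (by decide +kernel)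
           (CovZ.badM (by decide +kernel))
           (CovZ.n1 (-2743, 10383) (by decide +kernel)
            (CovZ.leaf K3_ok TY_l2332 _)
            (CovZ.badM (by decide +kernel))))
          (CovZ.badM (by decide +kernel)))))
       (CovZ.n1 (-2748, 10380) (by decide +kernel)
        (CovZ.n2 (-2748, 10384) (by decide +kernel)
         (CovZ.n2 (-2746, 10382) (by decide +kernel)
          (CovZ.leaf K3_ok TY_l2333 _)
          (CovZ.n1 (-2746, 10384) (by decide +kernel)
           (CovZ.leaf K3_ok TY_l2334 _)
           (CovZ.leaf K2_ok TY_l2335 _)))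
         (CovZ.n1 (-2750, 10382) (by decide +kernel)
          (CovZ.leaf K3_ok TY_l2336 _)
          (CovZ.leaf K2_ok TY_l2337 _)))
        (CovZ.n1 (-2744, 10380) (by decide +kernel)
         (CovZ.n2 (-2746, 10378) (by decide +kernel)
          (CovZ.n2 (-2746, 10380) (by decide +kernel)
           (CovZ.leaf K3_ok TY_l2338 _)
           (CovZ.leaf K3_ok TY_l2339 _))
          (CovZ.badM (by decide +kernel)))
         (CovZ.n1 (-2746, 10382) (by decide +kernel)
          (CovZ.leaf K3_ok TY_l2340 _)
          (CovZ.n1 (-2746, 10380) (by decide +kernel)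
           (CovZ.leaf K2_ok TY_l2341 _)
           (CovZ.leaf K2_ok TY_l2342 _))))))))

theorem TY_u3 : CovZ TY_M (toL (selN TY_LN 5)) [0, 7, 4, 3] (-2736, 10384) (-2720, 10400) (-2752, 10400) :=
    (CovZ.n1 (-2736, 10400) (by decide +kernel)
     (CovZ.n2 (-2728, 10392) (by decide +kernel)
      (CovZ.n2 (-2736, 10392) (by decide +kernel)
       (CovZ.n2 (-2732, 10396) (by decide +kernel)
        (CovZ.n2 (-2732, 10392) (by decide +kernel)
         (CovZ.n2 (-2734, 10394) (by decide +kernel)
          (CovZ.n2 (-2732, 10394) (by decide +kernel)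
           (CovZ.leaf K3_ok TY_l2343 _)
           (CovZ.leaf K3_ok TY_l2344 _))
          (CovZ.n1 (-2734, 10392) (by decide +kernel)
           (CovZ.leaf K3_ok TY_l2345 _)
           (CovZ.leaf K3_ok TY_l2346 _)))
         (CovZ.n1 (-2730, 10394) (by decide +kernel)
          (CovZ.badM (by decide +kernel))
          (CovZ.leaf K3_ok TY_l2347 _)))
        (CovZ.n1 (-2736, 10396) (by decide +kernel)
         (CovZ.n2 (-2734, 10398) (by decide +kernel)
          (CovZ.n2 (-2734, 10396) (by decide +kernel)
           (CovZ.leaf K2_ok TY_l2348 _)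
           (CovZ.leaf K3_ok TY_l2349 _))
          (CovZ.leaf K2_ok TY_l2350 _))
         (CovZ.n1 (-2734, 10394) (by decide +kernel)
          (CovZ.leaf K3_ok TY_l2351 _)
          (CovZ.n1 (-2734, 10396) (by decide +kernel)
           (CovZ.leaf K3_ok TY_l2352 _)
           (CovZ.leaf K3_ok TY_l2353 _)))))
       (CovZ.n1 (-2732, 10388) (by decide +kernel)
        (CovZ.n2 (-2736, 10388) (by decide +kernel)
         (CovZ.n2 (-2734, 10390) (by decide +kernel)
          (CovZ.badM (by decide +kernel))
          (CovZ.n1 (-2736, 10390) (by decide +kernel)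
           (CovZ.leaf K3_ok TY_l2354 _)
           (CovZ.badM (by decide +kernel))))
         (CovZ.badM (by decide +kernel)))
        (CovZ.n1 (-2732, 10392) (by decide +kernel)
         (CovZ.badM (by decide +kernel))
         (CovZ.n1 (-2734, 10390) (by decide +kernel)
          (CovZ.n2 (-2734, 10392) (by decide +kernel)
           (CovZ.badM (by decide +kernel))
           (CovZ.n1 (-2735, 10391) (by decide +kernel)
            (CovZ.leaf K2_ok TY_l2355 _)
            (CovZ.badM (by decide +kernel))))
          (CovZ.badM (by decide +kernel))))))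
      (CovZ.n1 (-2728, 10400) (by decide +kernel)
       (CovZ.n2 (-2724, 10396) (by decide +kernel)
        (CovZ.n2 (-2728, 10396) (by decide +kernel)
         (CovZ.n2 (-2726, 10398) (by decide +kernel)
          (CovZ.badM (by decide +kernel))
          (CovZ.n1 (-2728, 10398) (by decide +kernel)
           (CovZ.leaf K3_ok TY_l2356 _)
           (CovZ.badM (by decide +kernel))))
         (CovZ.badM (by decide +kernel)))
        (CovZ.n1 (-2724, 10400) (by decide +kernel)
         (CovZ.badM (by decide +kernel))
         (CovZ.n1 (-2726, 10398) (by decide +kernel)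
          (CovZ.n2 (-2726, 10400) (by decide +kernel)
           (CovZ.badM (by decide +kernel))
           (CovZ.leaf K3_ok TY_l2357 _))
          (CovZ.badM (by decide +kernel)))))
       (CovZ.n1 (-2732, 10396) (by decide +kernel)
        (CovZ.n2 (-2732, 10400) (by decide +kernel)
         (CovZ.n2 (-2730, 10398) (by decide +kernel)
          (CovZ.leaf K3_ok TY_l2358 _)
          (CovZ.n1 (-2730, 10400) (by decide +kernel)
           (CovZ.leaf K3_ok TY_l2359 _)
           (CovZ.n1 (-2731, 10399) (by decide +kernel)
            (CovZ.leaf K2_ok TY_l2360 _)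
            (CovZ.leaf K3_ok TY_l2361 _))))
         (CovZ.n1 (-2734, 10398) (by decide +kernel)
          (CovZ.leaf K3_ok TY_l2362 _)
          (CovZ.leaf K2_ok TY_l2363 _)))
        (CovZ.n1 (-2728, 10396) (by decide +kernel)
         (CovZ.n2 (-2730, 10394) (by decide +kernel)
          (CovZ.n2 (-2730, 10396) (by decide +kernel)
           (CovZ.badM (by decide +kernel))
           (CovZ.n1 (-2731, 10395) (by decide +kernel)
            (CovZ.leaf K3_ok TY_l2364 _)
            (CovZ.badM (by decide +kernel))))
          (CovZ.badM (by decide +kernel)))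
         (CovZ.n1 (-2730, 10398) (by decide +kernel)
          (CovZ.leaf K3_ok TY_l2365 _)
          (CovZ.n1 (-2730, 10396) (by decide +kernel)
           (CovZ.n2 (-2731, 10397) (by decide +kernel)
            (CovZ.leaf K3_ok TY_l2366 _)
            (CovZ.leaf K3_ok TY_l2367 _))
           (CovZ.leaf K2_ok TY_l2368 _)))))))
     (CovZ.n1 (-2744, 10392) (by decide +kernel)
      (CovZ.n2 (-2744, 10400) (by decide +kernel)
       (CovZ.n2 (-2740, 10396) (by decide +kernel)
        (CovZ.n2 (-2744, 10396) (by decide +kernel)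
         (CovZ.leaf K2_ok TY_l2369 _)
         (CovZ.leaf K3_ok TY_l2370 _))
        (CovZ.n1 (-2740, 10400) (by decide +kernel)
         (CovZ.n2 (-2738, 10398) (by decide +kernel)
          (CovZ.leaf K2_ok TY_l2371 _)
          (CovZ.leaf K3_ok TY_l2372 _))
         (CovZ.n1 (-2742, 10398) (by decide +kernel)
          (CovZ.leaf K3_ok TY_l2373 _)
          (CovZ.leaf K2_ok TY_l2374 _))))
       (CovZ.n1 (-2748, 10396) (by decide +kernel)
        (CovZ.n2 (-2748, 10400) (by decide +kernel)
         (CovZ.leaf K3_ok TY_l2375 _)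
         (CovZ.leaf K3_ok TY_l2376 _))
        (CovZ.n1 (-2744, 10396) (by decide +kernel)
         (CovZ.n2 (-2746, 10394) (by decide +kernel)
          (CovZ.leaf K3_ok TY_l2377 _)
          (CovZ.leaf K3_ok TY_l2378 _))
         (CovZ.leaf K2_ok TY_l2379 _))))
      (CovZ.n1 (-2736, 10392) (by decide +kernel)
       (CovZ.n2 (-2740, 10388) (by decide +kernel)
        (CovZ.n2 (-2740, 10392) (by decide +kernel)
         (CovZ.n2 (-2738, 10390) (by decide +kernel)
          (CovZ.leaf K3_ok TY_l2380 _)
          (CovZ.n1 (-2738, 10392) (by decide +kernel)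
           (CovZ.leaf K3_ok TY_l2381 _)
           (CovZ.leaf K3_ok TY_l2382 _)))
         (CovZ.n1 (-2742, 10390) (by decide +kernel)
          (CovZ.leaf K3_ok TY_l2383 _)
          (CovZ.leaf K2_ok TY_l2384 _)))
        (CovZ.n1 (-2736, 10388) (by decide +kernel)
         (CovZ.n2 (-2738, 10386) (by decide +kernel)
          (CovZ.n2 (-2738, 10388) (by decide +kernel)
           (CovZ.badM (by decide +kernel))
           (CovZ.leaf K3_ok TY_l2385 _))
          (CovZ.badM (by decide +kernel)))
         (CovZ.n1 (-2738, 10390) (by decide +kernel)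
          (CovZ.n2 (-2736, 10390) (by decide +kernel)
           (CovZ.leaf K3_ok TY_l2386 _)
           (CovZ.leaf K3_ok TY_l2387 _))
          (CovZ.n1 (-2738, 10388) (by decide +kernel)
           (CovZ.leaf K2_ok TY_l2388 _)
           (CovZ.leaf K2_ok TY_l2389 _)))))
       (CovZ.n1 (-2740, 10396) (by decide +kernel)
        (CovZ.n2 (-2736, 10396) (by decide +kernel)
         (CovZ.n2 (-2738, 10394) (by decide +kernel)
          (CovZ.leaf K3_ok TY_l2390 _)
          (CovZ.leaf K2_ok TY_l2391 _))
         (CovZ.n1 (-2738, 10398) (by decide +kernel)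
          (CovZ.leaf K3_ok TY_l2392 _)
          (CovZ.leaf K2_ok TY_l2393 _)))
        (CovZ.n1 (-2740, 10392) (by decide +kernel)
         (CovZ.n2 (-2742, 10394) (by decide +kernel)
          (CovZ.leaf K3_ok TY_l2394 _)
          (CovZ.leaf K3_ok TY_l2395 _))
         (CovZ.n1 (-2738, 10394) (by decide +kernel)
          (CovZ.n2 (-2738, 10392) (by decide +kernel)
           (CovZ.leaf K2_ok TY_l2396 _)
           (CovZ.leaf K3_ok TY_l2397 _))
          (CovZ.leaf K2_ok TY_l2398 _)))))))

theorem TY_u4 : CovZ TY_M (toL (selN TY_LN 7)) [0, 7, 4, 3] (-2720, 10432) (-2720, 10416) (-2704, 10416) :=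
    (CovZ.n2 (-2712, 10424) (by decide +kernel)
      (CovZ.n2 (-2712, 10416) (by decide +kernel)
       (CovZ.n2 (-2716, 10420) (by decide +kernel)
        (CovZ.n2 (-2712, 10420) (by decide +kernel)
         (CovZ.n2 (-2714, 10418) (by decide +kernel)
          (CovZ.leaf K3_ok TY_l3451 _)
          (CovZ.leaf K2_ok TY_l3452 _))
         (CovZ.n1 (-2714, 10422) (by decide +kernel)
          (CovZ.leaf K3_ok TY_l3453 _)
          (CovZ.leaf K2_ok TY_l3454 _)))
        (CovZ.n1 (-2716, 10416) (by decide +kernel)
         (CovZ.n2 (-2718, 10418) (by decide +kernel)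
          (CovZ.leaf K3_ok TY_l3455 _)
          (CovZ.n1 (-2718, 10416) (by decide +kernel)
           (CovZ.leaf K3_ok TY_l3456 _)
           (CovZ.leaf K3_ok TY_l3457 _)))
         (CovZ.n1 (-2714, 10418) (by decide +kernel)
          (CovZ.n2 (-2714, 10416) (by decide +kernel)
           (CovZ.leaf K2_ok TY_l3458 _)
           (CovZ.leaf K3_ok TY_l3459 _))
          (CovZ.leaf K2_ok TY_l3460 _))))
       (CovZ.n1 (-2708, 10420) (by decide +kernel)
        (CovZ.n2 (-2708, 10416) (by decide +kernel)
         (CovZ.n2 (-2710, 10418) (by decide +kernel)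
          (CovZ.n2 (-2708, 10418) (by decide +kernel)
           (CovZ.n2 (-2709, 10417) (by decide +kernel)
            (CovZ.leaf K3_ok TY_l3461 _)
            (CovZ.leaf K2_ok TY_l3462 _))
           (CovZ.leaf K3_ok TY_l3463 _))
          (CovZ.n1 (-2710, 10416) (by decide +kernel)
           (CovZ.leaf K3_ok TY_l3464 _)
           (CovZ.leaf K2_ok TY_l3465 _)))
         (CovZ.n1 (-2706, 10418) (by decide +kernel)
          (CovZ.n2 (-2706, 10416) (by decide +kernel)
           (CovZ.n2 (-2707, 10417) (by decide +kernel)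
            (CovZ.leaf K2_ok TY_l3466 _)
            (CovZ.leaf K2_ok TY_l3467 _))
           (CovZ.n1 (-2705, 10417) (by decide +kernel)
            (CovZ.badM (by decide +kernel))
            (CovZ.leaf K2_ok TY_l3468 _)))
          (CovZ.n1 (-2708, 10418) (by decide +kernel)
           (CovZ.n2 (-2707, 10419) (by decide +kernel)
            (CovZ.leaf K3_ok TY_l3469 _)
            (CovZ.leaf K2_ok TY_l3470 _))
           (CovZ.leaf K2_ok TY_l3471 _))))
        (CovZ.n1 (-2712, 10420) (by decide +kernel)
         (CovZ.n2 (-2710, 10422) (by decide +kernel)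
          (CovZ.n2 (-2710, 10420) (by decide +kernel)
           (CovZ.leaf K3_ok TY_l3472 _)
           (CovZ.leaf K2_ok TY_l3473 _))
          (CovZ.leaf K3_ok TY_l3474 _))
         (CovZ.n1 (-2710, 10418) (by decide +kernel)
          (CovZ.n2 (-2712, 10418) (by decide +kernel)
           (CovZ.leaf K3_ok TY_l3475 _)
           (CovZ.leaf K3_ok TY_l3476 _))
          (CovZ.n1 (-2710, 10420) (by decide +kernel)
           (CovZ.leaf K2_ok TY_l3477 _)
           (CovZ.leaf K2_ok TY_l3478 _))))))
      (CovZ.n1 (-2720, 10424) (by decide +kernel)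
       (CovZ.n2 (-2716, 10428) (by decide +kernel)
        (CovZ.n2 (-2716, 10424) (by decide +kernel)
         (CovZ.leaf K2_ok TY_l3479 _)
         (CovZ.n1 (-2714, 10426) (by decide +kernel)
          (CovZ.leaf K3_ok TY_l3480 _)
          (CovZ.leaf K2_ok TY_l3481 _)))
        (CovZ.n1 (-2720, 10428) (by decide +kernel)
         (CovZ.leaf K3_ok TY_l3482 _)
         (CovZ.leaf K3_ok TY_l3483 _)))
       (CovZ.n1 (-2716, 10420) (by decide +kernel)
        (CovZ.n2 (-2720, 10420) (by decide +kernel)
         (CovZ.n2 (-2718, 10422) (by decide +kernel)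
          (CovZ.leaf K3_ok TY_l3484 _)
          (CovZ.leaf K2_ok TY_l3485 _))
         (CovZ.leaf K3_ok TY_l3486 _))
        (CovZ.n1 (-2716, 10424) (by decide +kernel)
         (CovZ.leaf K3_ok TY_l3487 _)
         (CovZ.n1 (-2718, 10422) (by decide +kernel)
          (CovZ.leaf K2_ok TY_l3488 _)
          (CovZ.leaf K2_ok TY_l3489 _))))))

theorem TY_u5 : CovZ TY_M (toL (selN TY_LN 7)) [0, 7, 4, 3] (-2720, 10416) (-2720, 10400) (-2704, 10416) :=
    (CovZ.n1 (-2712, 10408) (by decide +kernel)
      (CovZ.n2 (-2720, 10408) (by decide +kernel)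
       (CovZ.n2 (-2716, 10412) (by decide +kernel)
        (CovZ.n2 (-2716, 10408) (by decide +kernel)
         (CovZ.n2 (-2718, 10410) (by decide +kernel)
          (CovZ.n2 (-2716, 10410) (by decide +kernel)
           (CovZ.n2 (-2717, 10409) (by decide +kernel)
            (CovZ.leaf K3_ok TY_l3490 _)
            (CovZ.leaf K2_ok TY_l3491 _))
           (CovZ.leaf K3_ok TY_l3492 _))
          (CovZ.n1 (-2718, 10408) (by decide +kernel)
           (CovZ.leaf K3_ok TY_l3493 _)
           (CovZ.n1 (-2717, 10409) (by decide +kernel)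
            (CovZ.leaf K2_ok TY_l3494 _)
            (CovZ.leaf K3_ok TY_l3495 _))))
         (CovZ.n1 (-2714, 10410) (by decide +kernel)
          (CovZ.n2 (-2714, 10408) (by decide +kernel)
           (CovZ.leaf K3_ok TY_l3496 _)
           (CovZ.n1 (-2713, 10409) (by decide +kernel)
            (CovZ.badM (by decide +kernel))
            (CovZ.leaf K3_ok TY_l3497 _)))
          (CovZ.n1 (-2716, 10410) (by decide +kernel)
           (CovZ.leaf K3_ok TY_l3498 _)
           (CovZ.leaf K3_ok TY_l3499 _))))
        (CovZ.n1 (-2720, 10412) (by decide +kernel)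
         (CovZ.n2 (-2718, 10414) (by decide +kernel)
          (CovZ.n2 (-2718, 10412) (by decide +kernel)
           (CovZ.leaf K3_ok TY_l3500 _)
           (CovZ.leaf K3_ok TY_l3501 _))
          (CovZ.leaf K2_ok TY_l3502 _))
         (CovZ.n1 (-2718, 10410) (by decide +kernel)
          (CovZ.n2 (-2720, 10410) (by decide +kernel)
           (CovZ.leaf K2_ok TY_l3503 _)
           (CovZ.leaf K3_ok TY_l3504 _))
          (CovZ.n1 (-2718, 10412) (by decide +kernel)
           (CovZ.leaf K3_ok TY_l3505 _)
           (CovZ.leaf K2_ok TY_l3506 _)))))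
       (CovZ.n1 (-2716, 10404) (by decide +kernel)
        (CovZ.n2 (-2720, 10404) (by decide +kernel)
         (CovZ.n2 (-2718, 10406) (by decide +kernel)
          (CovZ.n2 (-2718, 10404) (by decide +kernel)
           (CovZ.leaf K3_ok TY_l3507 _)
           (CovZ.n1 (-2717, 10405) (by decide +kernel)
            (CovZ.badM (by decide +kernel))
            (CovZ.leaf K3_ok TY_l3508 _)))
          (CovZ.n1 (-2720, 10406) (by decide +kernel)
           (CovZ.n2 (-2719, 10407) (by decide +kernel)
            (CovZ.leaf K3_ok TY_l3509 _)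
            (CovZ.leaf K2_ok TY_l3510 _))
           (CovZ.leaf K3_ok TY_l3511 _)))
         (CovZ.n1 (-2718, 10402) (by decide +kernel)
          (CovZ.n2 (-2720, 10402) (by decide +kernel)
           (CovZ.n2 (-2719, 10403) (by decide +kernel)
            (CovZ.badM (by decide +kernel))
            (CovZ.leaf K3_ok TY_l3512 _))
           (CovZ.badM (by decide +kernel)))
          (CovZ.n1 (-2718, 10404) (by decide +kernel)
           (CovZ.badM (by decide +kernel))
           (CovZ.n1 (-2719, 10403) (by decide +kernel)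
            (CovZ.leaf K3_ok TY_l3513 _)
            (CovZ.badM (by decide +kernel))))))
        (CovZ.n1 (-2716, 10408) (by decide +kernel)
         (CovZ.n2 (-2714, 10406) (by decide +kernel)
          (CovZ.n2 (-2716, 10406) (by decide +kernel)
           (CovZ.n2 (-2715, 10407) (by decide +kernel)
            (CovZ.badM (by decide +kernel))
            (CovZ.leaf K2_ok TY_l3514 _))
           (CovZ.badM (by decide +kernel)))
          (CovZ.n1 (-2714, 10408) (by decide +kernel)
           (CovZ.badM (by decide +kernel))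
           (CovZ.n1 (-2715, 10407) (by decide +kernel)
            (CovZ.leaf K2_ok TY_l3515 _)
            (CovZ.badM (by decide +kernel)))))
         (CovZ.n1 (-2718, 10406) (by decide +kernel)
          (CovZ.n2 (-2718, 10408) (by decide +kernel)
           (CovZ.leaf K2_ok TY_l3516 _)
           (CovZ.n1 (-2719, 10407) (by decide +kernel)
            (CovZ.leaf K3_ok TY_l3517 _)
            (CovZ.leaf K2_ok TY_l3518 _)))
          (CovZ.n1 (-2716, 10406) (by decide +kernel)
           (CovZ.n2 (-2717, 10405) (by decide +kernel)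
            (CovZ.leaf K2_ok TY_l3519 _)
            (CovZ.badM (by decide +kernel)))
           (CovZ.n1 (-2717, 10407) (by decide +kernel)
            (CovZ.leaf K2_ok TY_l3520 _)
            (CovZ.n1 (-2717, 10406) (by decide +kernel)
             (CovZ.leaf K2_ok TY_l3521 _)
             (CovZ.leaf K2_ok TY_l3522 _))))))))
      (CovZ.n1 (-2712, 10416) (by decide +kernel)
       (CovZ.n2 (-2708, 10412) (by decide +kernel)
        (CovZ.n2 (-2712, 10412) (by decide +kernel)
         (CovZ.n2 (-2710, 10414) (by decide +kernel)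
          (CovZ.n2 (-2710, 10412) (by decide +kernel)
           (CovZ.n2 (-2711, 10413) (by decide +kernel)
            (CovZ.leaf K3_ok TY_l3523 _)
            (CovZ.leaf K2_ok TY_l3524 _))
           (CovZ.n1 (-2709, 10413) (by decide +kernel)
            (CovZ.badM (by decide +kernel))
            (CovZ.leaf K2_ok TY_l3525 _)))
          (CovZ.n1 (-2712, 10414) (by decide +kernel)
           (CovZ.n2 (-2711, 10415) (by decide +kernel)
            (CovZ.n2 (-2711, 10414) (by decide +kernel)
             (CovZ.leaf K3_ok TY_l3526 _)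
             (CovZ.leaf K2_ok TY_l3527 _))
            (CovZ.leaf K2_ok TY_l3528 _))
           (CovZ.n1 (-2711, 10413) (by decide +kernel)
            (CovZ.leaf K3_ok TY_l3529 _)
            (CovZ.leaf K2_ok TY_l3530 _))))
         (CovZ.n1 (-2710, 10410) (by decide +kernel)
          (CovZ.n2 (-2712, 10410) (by decide +kernel)
           (CovZ.leaf K3_ok TY_l3531 _)
           (CovZ.badM (by decide +kernel)))
          (CovZ.n1 (-2710, 10412) (by decide +kernel)
           (CovZ.badM (by decide +kernel))
           (CovZ.n1 (-2711, 10411) (by decide +kernel)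
            (CovZ.leaf K3_ok TY_l3532 _)
            (CovZ.badM (by decide +kernel))))))
        (CovZ.n1 (-2708, 10416) (by decide +kernel)
         (CovZ.n2 (-2706, 10414) (by decide +kernel)
          (CovZ.n2 (-2708, 10414) (by decide +kernel)
           (CovZ.n2 (-2707, 10415) (by decide +kernel)
            (CovZ.badM (by decide +kernel))
            (CovZ.leaf K3_ok TY_l3533 _))
           (CovZ.badM (by decide +kernel)))
          (CovZ.n1 (-2706, 10416) (by decide +kernel)
           (CovZ.badM (by decide +kernel))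
           (CovZ.n1 (-2707, 10415) (by decide +kernel)
            (CovZ.n2 (-2707, 10416) (by decide +kernel)
             (CovZ.badM (by decide +kernel))
             (CovZ.leaf K2_ok TY_l3534 _))
            (CovZ.badM (by decide +kernel)))))
         (CovZ.n1 (-2710, 10414) (by decide +kernel)
          (CovZ.n2 (-2710, 10416) (by decide +kernel)
           (CovZ.leaf K3_ok TY_l3535 _)
           (CovZ.n1 (-2711, 10415) (by decide +kernel)
            (CovZ.n2 (-2711, 10416) (by decide +kernel)
             (CovZ.leaf K2_ok TY_l3536 _)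
             (CovZ.leaf K3_ok TY_l3537 _))
            (CovZ.leaf K2_ok TY_l3538 _)))
          (CovZ.n1 (-2708, 10414) (by decide +kernel)
           (CovZ.n2 (-2709, 10413) (by decide +kernel)
            (CovZ.n2 (-2709, 10414) (by decide +kernel)
             (CovZ.badM (by decide +kernel))
             (CovZ.leaf K2_ok TY_l3539 _))
            (CovZ.badM (by decide +kernel)))
           (CovZ.n1 (-2709, 10415) (by decide +kernel)
            (CovZ.leaf K2_ok TY_l3540 _)
            (CovZ.leaf K3_ok TY_l3541 _))))))
       (CovZ.n1 (-2716, 10412) (by decide +kernel)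
        (CovZ.n2 (-2716, 10416) (by decide +kernel)
         (CovZ.n2 (-2714, 10414) (by decide +kernel)
          (CovZ.leaf K2_ok TY_l3542 _)
          (CovZ.leaf K3_ok TY_l3543 _))
         (CovZ.n1 (-2718, 10414) (by decide +kernel)
          (CovZ.leaf K3_ok TY_l3544 _)
          (CovZ.leaf K3_ok TY_l3545 _)))
        (CovZ.n1 (-2712, 10412) (by decide +kernel)
         (CovZ.n2 (-2714, 10410) (by decide +kernel)
          (CovZ.n2 (-2714, 10412) (by decide +kernel)
           (CovZ.leaf K2_ok TY_l3546 _)
           (CovZ.n1 (-2715, 10411) (by decide +kernel)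
            (CovZ.leaf K3_ok TY_l3547 _)
            (CovZ.leaf K2_ok TY_l3548 _)))
          (CovZ.n1 (-2712, 10410) (by decide +kernel)
           (CovZ.n2 (-2713, 10409) (by decide +kernel)
            (CovZ.leaf K2_ok TY_l3549 _)
            (CovZ.badM (by decide +kernel)))
           (CovZ.leaf K2_ok TY_l3550 _)))
         (CovZ.n1 (-2714, 10414) (by decide +kernel)
          (CovZ.n2 (-2712, 10414) (by decide +kernel)
           (CovZ.n2 (-2713, 10413) (by decide +kernel)
            (CovZ.leaf K2_ok TY_l3551 _)
            (CovZ.leaf K3_ok TY_l3552 _))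
           (CovZ.leaf K2_ok TY_l3553 _))
          (CovZ.n1 (-2714, 10412) (by decide +kernel)
           (CovZ.leaf K3_ok TY_l3554 _)
           (CovZ.n1 (-2713, 10413) (by decide +kernel)
            (CovZ.n2 (-2713, 10412) (by decide +kernel)
             (CovZ.leaf K3_ok TY_l3555 _)
             (CovZ.leaf K3_ok TY_l3556 _))
            (CovZ.leaf K2_ok TY_l3557 _))))))))

theorem TY_u6 : CovZ TY_M (toL (selN TY_LN 7)) [0, 7, 4, 3] (-2688, 10432) (-2704, 10432) (-2704, 10416) :=
    (CovZ.n2 (-2696, 10424) (by decide +kernel)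
      (CovZ.n2 (-2704, 10424) (by decide +kernel)
       (CovZ.n2 (-2700, 10428) (by decide +kernel)
        (CovZ.n2 (-2700, 10424) (by decide +kernel)
         (CovZ.n2 (-2702, 10426) (by decide +kernel)
          (CovZ.leaf K2_ok TY_l3558 _)
          (CovZ.n1 (-2702, 10424) (by decide +kernel)
           (CovZ.leaf K2_ok TY_l3559 _)
           (CovZ.n1 (-2701, 10425) (by decide +kernel)
            (CovZ.n2 (-2701, 10424) (by decide +kernel)
             (CovZ.leaf K3_ok TY_l3560 _)
             (CovZ.leaf K3_ok TY_l3561 _))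
            (CovZ.leaf K3_ok TY_l3562 _))))
         (CovZ.n1 (-2698, 10426) (by decide +kernel)
          (CovZ.n2 (-2698, 10424) (by decide +kernel)
           (CovZ.n2 (-2699, 10425) (by decide +kernel)
            (CovZ.leaf K2_ok TY_l3563 _)
            (CovZ.leaf K2_ok TY_l3564 _))
           (CovZ.n1 (-2697, 10425) (by decide +kernel)
            (CovZ.badM (by decide +kernel))
            (CovZ.leaf K2_ok TY_l3565 _)))
          (CovZ.n1 (-2700, 10426) (by decide +kernel)
           (CovZ.leaf K2_ok TY_l3566 _)
           (CovZ.n1 (-2699, 10425) (by decide +kernel)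
            (CovZ.leaf K2_ok TY_l3567 _)
            (CovZ.leaf K2_ok TY_l3568 _)))))
        (CovZ.n1 (-2704, 10428) (by decide +kernel)
         (CovZ.n2 (-2702, 10430) (by decide +kernel)
          (CovZ.n2 (-2702, 10428) (by decide +kernel)
           (CovZ.leaf K2_ok TY_l3569 _)
           (CovZ.leaf K3_ok TY_l3570 _))
          (CovZ.leaf K3_ok TY_l3571 _))
         (CovZ.n1 (-2702, 10426) (by decide +kernel)
          (CovZ.leaf K2_ok TY_l3572 _)
          (CovZ.n1 (-2702, 10428) (by decide +kernel)
           (CovZ.leaf K2_ok TY_l3573 _)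
           (CovZ.leaf K2_ok TY_l3574 _)))))
       (CovZ.n1 (-2700, 10420) (by decide +kernel)
        (CovZ.n2 (-2704, 10420) (by decide +kernel)
         (CovZ.n2 (-2702, 10422) (by decide +kernel)
          (CovZ.n2 (-2702, 10420) (by decide +kernel)
           (CovZ.n2 (-2703, 10421) (by decide +kernel)
            (CovZ.leaf K2_ok TY_l3575 _)
            (CovZ.leaf K2_ok TY_l3576 _))
           (CovZ.n1 (-2701, 10421) (by decide +kernel)
            (CovZ.badM (by decide +kernel))
            (CovZ.leaf K2_ok TY_l3577 _)))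
          (CovZ.n1 (-2704, 10422) (by decide +kernel)
           (CovZ.leaf K2_ok TY_l3578 _)
           (CovZ.leaf K3_ok TY_l3579 _)))
         (CovZ.n1 (-2702, 10418) (by decide +kernel)
          (CovZ.n2 (-2704, 10418) (by decide +kernel)
           (CovZ.n2 (-2703, 10419) (by decide +kernel)
            (CovZ.badM (by decide +kernel))
            (CovZ.leaf K2_ok TY_l3580 _))
           (CovZ.badM (by decide +kernel)))
          (CovZ.n1 (-2702, 10420) (by decide +kernel)
           (CovZ.badM (by decide +kernel))
           (CovZ.n1 (-2703, 10419) (by decide +kernel)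
            (CovZ.leaf K2_ok TY_l3581 _)
            (CovZ.badM (by decide +kernel))))))
        (CovZ.n1 (-2700, 10424) (by decide +kernel)
         (CovZ.n2 (-2698, 10422) (by decide +kernel)
          (CovZ.n2 (-2700, 10422) (by decide +kernel)
           (CovZ.n2 (-2699, 10423) (by decide +kernel)
            (CovZ.badM (by decide +kernel))
            (CovZ.leaf K2_ok TY_l3582 _))
           (CovZ.badM (by decide +kernel)))
          (CovZ.n1 (-2698, 10424) (by decide +kernel)
           (CovZ.badM (by decide +kernel))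
           (CovZ.n1 (-2699, 10423) (by decide +kernel)
            (CovZ.n2 (-2699, 10424) (by decide +kernel)
             (CovZ.badM (by decide +kernel))
             (CovZ.leaf K2_ok TY_l3583 _))
            (CovZ.badM (by decide +kernel)))))
         (CovZ.n1 (-2702, 10422) (by decide +kernel)
          (CovZ.n2 (-2702, 10424) (by decide +kernel)
           (CovZ.n2 (-2701, 10423) (by decide +kernel)
            (CovZ.leaf K2_ok TY_l3584 _)
            (CovZ.leaf K3_ok TY_l3585 _))
           (CovZ.n1 (-2703, 10423) (by decide +kernel)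
            (CovZ.leaf K2_ok TY_l3586 _)
            (CovZ.leaf K2_ok TY_l3587 _)))
          (CovZ.n1 (-2700, 10422) (by decide +kernel)
           (CovZ.n2 (-2701, 10421) (by decide +kernel)
            (CovZ.n2 (-2701, 10422) (by decide +kernel)
             (CovZ.badM (by decide +kernel))
             (CovZ.leaf K2_ok TY_l3588 _))
            (CovZ.badM (by decide +kernel)))
           (CovZ.n1 (-2701, 10423) (by decide +kernel)
            (CovZ.leaf K3_ok TY_l3589 _)
            (CovZ.leaf K3_ok TY_l3590 _)))))))
      (CovZ.n1 (-2696, 10432) (by decide +kernel)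
       (CovZ.n2 (-2692, 10428) (by decide +kernel)
        (CovZ.n2 (-2696, 10428) (by decide +kernel)
         (CovZ.n2 (-2694, 10430) (by decide +kernel)
          (CovZ.n2 (-2694, 10428) (by decide +kernel)
           (CovZ.n2 (-2695, 10429) (by decide +kernel)
            (CovZ.leaf K2_ok TY_l3591 _)
            (CovZ.leaf K2_ok TY_l3592 _))
           (CovZ.n1 (-2693, 10429) (by decide +kernel)
            (CovZ.badM (by decide +kernel))
            (CovZ.leaf K2_ok TY_l3593 _)))
          (CovZ.n1 (-2696, 10430) (by decide +kernel)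
           (CovZ.leaf K2_ok TY_l3594 _)
           (CovZ.leaf K2_ok TY_l3595 _)))
         (CovZ.n1 (-2694, 10426) (by decide +kernel)
          (CovZ.n2 (-2696, 10426) (by decide +kernel)
           (CovZ.n2 (-2695, 10427) (by decide +kernel)
            (CovZ.badM (by decide +kernel))
            (CovZ.leaf K2_ok TY_l3596 _))
           (CovZ.badM (by decide +kernel)))
          (CovZ.n1 (-2694, 10428) (by decide +kernel)
           (CovZ.badM (by decide +kernel))
           (CovZ.n1 (-2695, 10427) (by decide +kernel)
            (CovZ.leaf K2_ok TY_l3597 _)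
            (CovZ.badM (by decide +kernel))))))
        (CovZ.n1 (-2692, 10432) (by decide +kernel)
         (CovZ.n2 (-2690, 10430) (by decide +kernel)
          (CovZ.n2 (-2692, 10430) (by decide +kernel)
           (CovZ.n2 (-2691, 10431) (by decide +kernel)
            (CovZ.badM (by decide +kernel))
            (CovZ.leaf K2_ok TY_l3598 _))
           (CovZ.badM (by decide +kernel)))
          (CovZ.n1 (-2690, 10432) (by decide +kernel)
           (CovZ.badM (by decide +kernel))
           (CovZ.n1 (-2691, 10431) (by decide +kernel)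
            (CovZ.n2 (-2691, 10432) (by decide +kernel)
             (CovZ.badM (by decide +kernel))
             (CovZ.leaf K2_ok TY_l3599 _))
            (CovZ.badM (by decide +kernel)))))
         (CovZ.n1 (-2694, 10430) (by decide +kernel)
          (CovZ.n2 (-2694, 10432) (by decide +kernel)
           (CovZ.n2 (-2693, 10431) (by decide +kernel)
            (CovZ.n2 (-2694, 10431) (by decide +kernel)
             (CovZ.leaf K2_ok TY_l3600 _)
             (CovZ.leaf K2_ok TY_l3601 _))
            (CovZ.leaf K2_ok TY_l3602 _))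
           (CovZ.n1 (-2695, 10431) (by decide +kernel)
            (CovZ.leaf K3_ok TY_l3603 _)
            (CovZ.leaf K2_ok TY_l3604 _)))
          (CovZ.n1 (-2692, 10430) (by decide +kernel)
           (CovZ.n2 (-2693, 10429) (by decide +kernel)
            (CovZ.leaf K2_ok TY_l3605 _)
            (CovZ.badM (by decide +kernel)))
           (CovZ.n1 (-2693, 10431) (by decide +kernel)
            (CovZ.leaf K2_ok TY_l3606 _)
            (CovZ.leaf K2_ok TY_l3607 _))))))
       (CovZ.n1 (-2700, 10428) (by decide +kernel)
        (CovZ.n2 (-2700, 10432) (by decide +kernel)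
         (CovZ.n2 (-2698, 10430) (by decide +kernel)
          (CovZ.n2 (-2700, 10430) (by decide +kernel)
           (CovZ.leaf K3_ok TY_l3608 _)
           (CovZ.leaf K3_ok TY_l3609 _))
          (CovZ.n1 (-2698, 10432) (by decide +kernel)
           (CovZ.leaf K2_ok TY_l3610 _)
           (CovZ.leaf K2_ok TY_l3611 _)))
         (CovZ.n1 (-2702, 10430) (by decide +kernel)
          (CovZ.leaf K2_ok TY_l3612 _)
          (CovZ.leaf K2_ok TY_l3613 _)))
        (CovZ.n1 (-2696, 10428) (by decide +kernel)
         (CovZ.n2 (-2698, 10426) (by decide +kernel)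
          (CovZ.n2 (-2698, 10428) (by decide +kernel)
           (CovZ.leaf K2_ok TY_l3614 _)
           (CovZ.n1 (-2699, 10427) (by decide +kernel)
            (CovZ.leaf K2_ok TY_l3615 _)
            (CovZ.leaf K2_ok TY_l3616 _)))
          (CovZ.n1 (-2696, 10426) (by decide +kernel)
           (CovZ.n2 (-2697, 10425) (by decide +kernel)
            (CovZ.leaf K3_ok TY_l3617 _)
            (CovZ.badM (by decide +kernel)))
           (CovZ.n1 (-2697, 10427) (by decide +kernel)
            (CovZ.leaf K2_ok TY_l3618 _)
            (CovZ.leaf K2_ok TY_l3619 _))))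
         (CovZ.n1 (-2698, 10430) (by decide +kernel)
          (CovZ.n2 (-2696, 10430) (by decide +kernel)
           (CovZ.n2 (-2697, 10429) (by decide +kernel)
            (CovZ.leaf K2_ok TY_l3620 _)
            (CovZ.leaf K3_ok TY_l3621 _))
           (CovZ.leaf K3_ok TY_l3622 _))
          (CovZ.n1 (-2698, 10428) (by decide +kernel)
           (CovZ.leaf K2_ok TY_l3623 _)
           (CovZ.n1 (-2697, 10429) (by decide +kernel)
            (CovZ.leaf K3_ok TY_l3624 _)
            (CovZ.leaf K2_ok TY_l3625 _))))))))

theorem TY_u7 : CovZ TY_M (toL (selN TY_LN 7)) [0, 7, 4, 3] (-2704, 10432) (-2720, 10432) (-2704, 10416) :=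
    (CovZ.n1 (-2712, 10424) (by decide +kernel)
      (CovZ.n2 (-2712, 10432) (by decide +kernel)
       (CovZ.n2 (-2708, 10428) (by decide +kernel)
        (CovZ.n2 (-2712, 10428) (by decide +kernel)
         (CovZ.n2 (-2710, 10430) (by decide +kernel)
          (CovZ.leaf K2_ok TY_l3626 _)
          (CovZ.leaf K3_ok TY_l3627 _))
         (CovZ.n1 (-2710, 10426) (by decide +kernel)
          (CovZ.leaf K3_ok TY_l3628 _)
          (CovZ.leaf K3_ok TY_l3629 _)))
        (CovZ.n1 (-2708, 10432) (by decide +kernel)
         (CovZ.n2 (-2706, 10430) (by decide +kernel)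
          (CovZ.leaf K2_ok TY_l3630 _)
          (CovZ.leaf K2_ok TY_l3631 _))
         (CovZ.n1 (-2710, 10430) (by decide +kernel)
          (CovZ.leaf K2_ok TY_l3632 _)
          (CovZ.leaf K3_ok TY_l3633 _))))
       (CovZ.n1 (-2716, 10428) (by decide +kernel)
        (CovZ.n2 (-2716, 10432) (by decide +kernel)
         (CovZ.leaf K3_ok TY_l3634 _)
         (CovZ.leaf K2_ok TY_l3635 _))
        (CovZ.n1 (-2712, 10428) (by decide +kernel)
         (CovZ.n2 (-2714, 10426) (by decide +kernel)
          (CovZ.leaf K3_ok TY_l3636 _)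
          (CovZ.leaf K3_ok TY_l3637 _))
         (CovZ.leaf K3_ok TY_l3638 _))))
      (CovZ.n1 (-2704, 10424) (by decide +kernel)
       (CovZ.n2 (-2708, 10420) (by decide +kernel)
        (CovZ.n2 (-2708, 10424) (by decide +kernel)
         (CovZ.n2 (-2706, 10422) (by decide +kernel)
          (CovZ.n2 (-2708, 10422) (by decide +kernel)
           (CovZ.leaf K2_ok TY_l3639 _)
           (CovZ.leaf K2_ok TY_l3640 _))
          (CovZ.n1 (-2706, 10424) (by decide +kernel)
           (CovZ.leaf K2_ok TY_l3641 _)
           (CovZ.n1 (-2707, 10423) (by decide +kernel)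
            (CovZ.leaf K3_ok TY_l3642 _)
            (CovZ.leaf K3_ok TY_l3643 _))))
         (CovZ.n1 (-2710, 10422) (by decide +kernel)
          (CovZ.leaf K2_ok TY_l3644 _)
          (CovZ.leaf K3_ok TY_l3645 _)))
        (CovZ.n1 (-2704, 10420) (by decide +kernel)
         (CovZ.n2 (-2706, 10418) (by decide +kernel)
          (CovZ.n2 (-2706, 10420) (by decide +kernel)
           (CovZ.leaf K2_ok TY_l3646 _)
           (CovZ.n1 (-2707, 10419) (by decide +kernel)
            (CovZ.leaf K2_ok TY_l3647 _)
            (CovZ.leaf K2_ok TY_l3648 _)))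
          (CovZ.n1 (-2704, 10418) (by decide +kernel)
           (CovZ.n2 (-2705, 10417) (by decide +kernel)
            (CovZ.leaf K2_ok TY_l3649 _)
            (CovZ.badM (by decide +kernel)))
           (CovZ.leaf K3_ok TY_l3650 _)))
         (CovZ.n1 (-2706, 10422) (by decide +kernel)
          (CovZ.n2 (-2704, 10422) (by decide +kernel)
           (CovZ.n2 (-2705, 10421) (by decide +kernel)
            (CovZ.leaf K3_ok TY_l3651 _)
            (CovZ.leaf K2_ok TY_l3652 _))
           (CovZ.leaf K2_ok TY_l3653 _))
          (CovZ.n1 (-2706, 10420) (by decide +kernel)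
           (CovZ.leaf K3_ok TY_l3654 _)
           (CovZ.leaf K2_ok TY_l3655 _)))))
       (CovZ.n1 (-2708, 10428) (by decide +kernel)
        (CovZ.n2 (-2704, 10428) (by decide +kernel)
         (CovZ.n2 (-2706, 10426) (by decide +kernel)
          (CovZ.n2 (-2706, 10428) (by decide +kernel)
           (CovZ.leaf K3_ok TY_l3656 _)
           (CovZ.leaf K3_ok TY_l3657 _))
          (CovZ.leaf K2_ok TY_l3658 _))
         (CovZ.n1 (-2706, 10430) (by decide +kernel)
          (CovZ.leaf K2_ok TY_l3659 _)
          (CovZ.leaf K3_ok TY_l3660 _)))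
        (CovZ.n1 (-2708, 10424) (by decide +kernel)
         (CovZ.n2 (-2710, 10426) (by decide +kernel)
          (CovZ.leaf K2_ok TY_l3661 _)
          (CovZ.leaf K2_ok TY_l3662 _))
         (CovZ.n1 (-2706, 10426) (by decide +kernel)
          (CovZ.leaf K2_ok TY_l3663 _)
          (CovZ.leaf K2_ok TY_l3664 _))))))

theorem TY_u8 : CovZ TY_M (toL (selN TY_LN 5)) [0, 7, 4, 3] (-2816, 10432) (-2800, 10448) (-2816, 10464) :=
    (CovZ.n2 (-2816, 10448) (by decide +kernel)
     (CovZ.n2 (-2808, 10456) (by decide +kernel)
      (CovZ.n2 (-2808, 10448) (by decide +kernel)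
       (CovZ.n2 (-2812, 10452) (by decide +kernel)
        (CovZ.n2 (-2808, 10452) (by decide +kernel)
         (CovZ.n2 (-2810, 10450) (by decide +kernel)
          (CovZ.leaf K3_ok TY_l479 _)
          (CovZ.leaf K3_ok TY_l480 _))
         (CovZ.n1 (-2810, 10454) (by decide +kernel)
          (CovZ.leaf K2_ok TY_l481 _)
          (CovZ.n1 (-2810, 10452) (by decide +kernel)
           (CovZ.leaf K3_ok TY_l482 _)
           (CovZ.leaf K3_ok TY_l483 _))))
        (CovZ.n1 (-2812, 10448) (by decide +kernel)
         (CovZ.n2 (-2814, 10450) (by decide +kernel)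
          (CovZ.leaf K3_ok TY_l484 _)
          (CovZ.leaf K2_ok TY_l485 _))
         (CovZ.n1 (-2810, 10450) (by decide +kernel)
          (CovZ.n2 (-2810, 10448) (by decide +kernel)
           (CovZ.leaf K3_ok TY_l486 _)
           (CovZ.leaf K3_ok TY_l487 _))
          (CovZ.leaf K3_ok TY_l488 _))))
       (CovZ.n1 (-2804, 10452) (by decide +kernel)
        (CovZ.n2 (-2804, 10448) (by decide +kernel)
         (CovZ.n2 (-2806, 10450) (by decide +kernel)
          (CovZ.leaf K3_ok TY_l489 _)
          (CovZ.leaf K2_ok TY_l490 _))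
         (CovZ.n1 (-2802, 10450) (by decide +kernel)
          (CovZ.leaf K3_ok TY_l491 _)
          (CovZ.leaf K3_ok TY_l492 _)))
        (CovZ.n1 (-2808, 10452) (by decide +kernel)
         (CovZ.n2 (-2806, 10454) (by decide +kernel)
          (CovZ.leaf K3_ok TY_l493 _)
          (CovZ.leaf K3_ok TY_l494 _))
         (CovZ.leaf K3_ok TY_l495 _))))
      (CovZ.n1 (-2816, 10456) (by decide +kernel)
       (CovZ.n2 (-2812, 10460) (by decide +kernel)
        (CovZ.n2 (-2812, 10456) (by decide +kernel)
         (CovZ.n2 (-2814, 10458) (by decide +kernel)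
          (CovZ.leaf K3_ok TY_l496 _)
          (CovZ.n1 (-2814, 10456) (by decide +kernel)
           (CovZ.leaf K3_ok TY_l497 _)
           (CovZ.leaf K2_ok TY_l498 _)))
         (CovZ.n1 (-2810, 10458) (by decide +kernel)
          (CovZ.n2 (-2810, 10456) (by decide +kernel)
           (CovZ.leaf K3_ok TY_l499 _)
           (CovZ.leaf K2_ok TY_l500 _))
          (CovZ.leaf K3_ok TY_l501 _)))
        (CovZ.n1 (-2816, 10460) (by decide +kernel)
         (CovZ.n2 (-2814, 10462) (by decide +kernel)
          (CovZ.n2 (-2814, 10460) (by decide +kernel)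
           (CovZ.leaf K3_ok TY_l502 _)
           (CovZ.leaf K3_ok TY_l503 _))
          (CovZ.n1 (-2816, 10462) (by decide +kernel)
           (CovZ.leaf K3_ok TY_l504 _)
           (CovZ.leaf K2_ok TY_l505 _)))
         (CovZ.n1 (-2814, 10458) (by decide +kernel)
          (CovZ.leaf K3_ok TY_l506 _)
          (CovZ.n1 (-2814, 10460) (by decide +kernel)
           (CovZ.leaf K3_ok TY_l507 _)
           (CovZ.leaf K3_ok TY_l508 _)))))
       (CovZ.n1 (-2812, 10452) (by decide +kernel)
        (CovZ.n2 (-2816, 10452) (by decide +kernel)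
         (CovZ.n2 (-2814, 10454) (by decide +kernel)
          (CovZ.n2 (-2814, 10452) (by decide +kernel)
           (CovZ.leaf K3_ok TY_l509 _)
           (CovZ.leaf K3_ok TY_l510 _))
          (CovZ.leaf K3_ok TY_l511 _))
         (CovZ.n1 (-2814, 10450) (by decide +kernel)
          (CovZ.leaf K2_ok TY_l512 _)
          (CovZ.leaf K3_ok TY_l513 _)))
        (CovZ.n1 (-2812, 10456) (by decide +kernel)
         (CovZ.n2 (-2810, 10454) (by decide +kernel)
          (CovZ.leaf K3_ok TY_l514 _)
          (CovZ.leaf K3_ok TY_l515 _))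
         (CovZ.n1 (-2814, 10454) (by decide +kernel)
          (CovZ.leaf K3_ok TY_l516 _)
          (CovZ.leaf K3_ok TY_l517 _))))))
     (CovZ.n1 (-2808, 10440) (by decide +kernel)
      (CovZ.n2 (-2816, 10440) (by decide +kernel)
       (CovZ.n2 (-2812, 10444) (by decide +kernel)
        (CovZ.n2 (-2812, 10440) (by decide +kernel)
         (CovZ.n2 (-2814, 10442) (by decide +kernel)
          (CovZ.leaf K3_ok TY_l518 _)
          (CovZ.leaf K3_ok TY_l519 _))
         (CovZ.n1 (-2810, 10442) (by decide +kernel)
          (CovZ.leaf K2_ok TY_l520 _)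
          (CovZ.leaf K3_ok TY_l521 _)))
        (CovZ.n1 (-2816, 10444) (by decide +kernel)
         (CovZ.n2 (-2814, 10446) (by decide +kernel)
          (CovZ.leaf K3_ok TY_l522 _)
          (CovZ.leaf K3_ok TY_l523 _))
         (CovZ.leaf K3_ok TY_l524 _)))
       (CovZ.n1 (-2812, 10436) (by decide +kernel)
        (CovZ.n2 (-2816, 10436) (by decide +kernel)
         (CovZ.n2 (-2814, 10438) (by decide +kernel)
          (CovZ.leaf K2_ok TY_l525 _)
          (CovZ.leaf K2_ok TY_l526 _))
         (CovZ.leaf K3_ok TY_l527 _))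
        (CovZ.n1 (-2812, 10440) (by decide +kernel)
         (CovZ.leaf K3_ok TY_l528 _)
         (CovZ.n1 (-2814, 10438) (by decide +kernel)
          (CovZ.leaf K3_ok TY_l529 _)
          (CovZ.leaf K3_ok TY_l530 _)))))
      (CovZ.n1 (-2808, 10448) (by decide +kernel)
       (CovZ.n2 (-2804, 10444) (by decide +kernel)
        (CovZ.n2 (-2808, 10444) (by decide +kernel)
         (CovZ.n2 (-2806, 10446) (by decide +kernel)
          (CovZ.leaf K3_ok TY_l531 _)
          (CovZ.leaf K3_ok TY_l532 _))
         (CovZ.leaf K2_ok TY_l533 _))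
        (CovZ.n1 (-2804, 10448) (by decide +kernel)
         (CovZ.leaf K3_ok TY_l534 _)
         (CovZ.n1 (-2806, 10446) (by decide +kernel)
          (CovZ.leaf K3_ok TY_l535 _)
          (CovZ.leaf K2_ok TY_l536 _))))
       (CovZ.n1 (-2812, 10444) (by decide +kernel)
        (CovZ.n2 (-2812, 10448) (by decide +kernel)
         (CovZ.leaf K3_ok TY_l537 _)
         (CovZ.n1 (-2814, 10446) (by decide +kernel)
          (CovZ.leaf K3_ok TY_l538 _)
          (CovZ.leaf K3_ok TY_l539 _)))
        (CovZ.n1 (-2808, 10444) (by decide +kernel)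
         (CovZ.n2 (-2810, 10442) (by decide +kernel)
          (CovZ.leaf K3_ok TY_l540 _)
          (CovZ.leaf K3_ok TY_l541 _))
         (CovZ.n1 (-2810, 10446) (by decide +kernel)
          (CovZ.leaf K3_ok TY_l542 _)
          (CovZ.leaf K3_ok TY_l543 _)))))))

theorem TY_u9 : CovZ TY_M (toL (selN TY_LN 5)) [0, 7, 4, 3] (-2800, 10448) (-2784, 10464) (-2816, 10464) :=
    (CovZ.n1 (-2800, 10464) (by decide +kernel)
     (CovZ.n2 (-2792, 10456) (by decide +kernel)
      (CovZ.n2 (-2800, 10456) (by decide +kernel)
       (CovZ.n2 (-2796, 10460) (by decide +kernel)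
        (CovZ.n2 (-2796, 10456) (by decide +kernel)
         (CovZ.n2 (-2798, 10458) (by decide +kernel)
          (CovZ.leaf K3_ok TY_l544 _)
          (CovZ.leaf K3_ok TY_l545 _))
         (CovZ.n1 (-2794, 10458) (by decide +kernel)
          (CovZ.leaf K3_ok TY_l546 _)
          (CovZ.leaf K2_ok TY_l547 _)))
        (CovZ.n1 (-2800, 10460) (by decide +kernel)
         (CovZ.n2 (-2798, 10462) (by decide +kernel)
          (CovZ.leaf K3_ok TY_l548 _)
          (CovZ.n1 (-2800, 10462) (by decide +kernel)
           (CovZ.leaf K3_ok TY_l549 _)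
           (CovZ.leaf K3_ok TY_l550 _)))
         (CovZ.n1 (-2798, 10458) (by decide +kernel)
          (CovZ.leaf K3_ok TY_l551 _)
          (CovZ.leaf K2_ok TY_l552 _))))
       (CovZ.n1 (-2796, 10452) (by decide +kernel)
        (CovZ.n2 (-2800, 10452) (by decide +kernel)
         (CovZ.n2 (-2798, 10454) (by decide +kernel)
          (CovZ.leaf K2_ok TY_l553 _)
          (CovZ.leaf K3_ok TY_l554 _))
         (CovZ.leaf K3_ok TY_l555 _))
        (CovZ.n1 (-2796, 10456) (by decide +kernel)
         (CovZ.leaf K3_ok TY_l556 _)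
         (CovZ.n1 (-2798, 10454) (by decide +kernel)
          (CovZ.n2 (-2798, 10456) (by decide +kernel)
           (CovZ.leaf K3_ok TY_l557 _)
           (CovZ.leaf K2_ok TY_l558 _))
          (CovZ.leaf K3_ok TY_l559 _)))))
      (CovZ.n1 (-2792, 10464) (by decide +kernel)
       (CovZ.n2 (-2788, 10460) (by decide +kernel)
        (CovZ.n2 (-2792, 10460) (by decide +kernel)
         (CovZ.n2 (-2790, 10462) (by decide +kernel)
          (CovZ.leaf K2_ok TY_l560 _)
          (CovZ.leaf K3_ok TY_l561 _))
         (CovZ.leaf K2_ok TY_l562 _))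
        (CovZ.n1 (-2788, 10464) (by decide +kernel)
         (CovZ.n2 (-2786, 10462) (by decide +kernel)
          (CovZ.leaf K3_ok TY_l563 _)
          (CovZ.leaf K2_ok TY_l564 _))
         (CovZ.n1 (-2790, 10462) (by decide +kernel)
          (CovZ.leaf K3_ok TY_l565 _)
          (CovZ.leaf K3_ok TY_l566 _))))
       (CovZ.n1 (-2796, 10460) (by decide +kernel)
        (CovZ.n2 (-2796, 10464) (by decide +kernel)
         (CovZ.n2 (-2794, 10462) (by decide +kernel)
          (CovZ.n2 (-2796, 10462) (by decide +kernel)
           (CovZ.leaf K3_ok TY_l567 _)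
           (CovZ.leaf K3_ok TY_l568 _))
          (CovZ.leaf K2_ok TY_l569 _))
         (CovZ.n1 (-2798, 10462) (by decide +kernel)
          (CovZ.leaf K2_ok TY_l570 _)
          (CovZ.leaf K2_ok TY_l571 _)))
        (CovZ.n1 (-2792, 10460) (by decide +kernel)
         (CovZ.n2 (-2794, 10458) (by decide +kernel)
          (CovZ.leaf K3_ok TY_l572 _)
          (CovZ.leaf K2_ok TY_l573 _))
         (CovZ.n1 (-2794, 10462) (by decide +kernel)
          (CovZ.leaf K3_ok TY_l574 _)
          (CovZ.n1 (-2794, 10460) (by decide +kernel)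
           (CovZ.leaf K3_ok TY_l575 _)
           (CovZ.leaf K3_ok TY_l576 _)))))))
     (CovZ.n1 (-2808, 10456) (by decide +kernel)
      (CovZ.n2 (-2808, 10464) (by decide +kernel)
       (CovZ.n2 (-2804, 10460) (by decide +kernel)
        (CovZ.n2 (-2808, 10460) (by decide +kernel)
         (CovZ.n2 (-2806, 10462) (by decide +kernel)
          (CovZ.n2 (-2806, 10460) (by decide +kernel)
           (CovZ.leaf K2_ok TY_l577 _)
           (CovZ.leaf K3_ok TY_l578 _))
          (CovZ.leaf K3_ok TY_l579 _))
         (CovZ.leaf K3_ok TY_l580 _))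
        (CovZ.n1 (-2804, 10464) (by decide +kernel)
         (CovZ.n2 (-2802, 10462) (by decide +kernel)
          (CovZ.leaf K2_ok TY_l581 _)
          (CovZ.leaf K3_ok TY_l582 _))
         (CovZ.n1 (-2806, 10462) (by decide +kernel)
          (CovZ.leaf K2_ok TY_l583 _)
          (CovZ.leaf K3_ok TY_l584 _))))
       (CovZ.n1 (-2812, 10460) (by decide +kernel)
        (CovZ.n2 (-2812, 10464) (by decide +kernel)
         (CovZ.n2 (-2810, 10462) (by decide +kernel)
          (CovZ.n2 (-2812, 10462) (by decide +kernel)
           (CovZ.leaf K3_ok TY_l585 _)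
           (CovZ.leaf K3_ok TY_l586 _))
          (CovZ.n1 (-2810, 10464) (by decide +kernel)
           (CovZ.leaf K2_ok TY_l587 _)
           (CovZ.leaf K2_ok TY_l588 _)))
         (CovZ.n1 (-2814, 10462) (by decide +kernel)
          (CovZ.n2 (-2814, 10464) (by decide +kernel)
           (CovZ.leaf K3_ok TY_l589 _)
           (CovZ.leaf K3_ok TY_l590 _))
          (CovZ.leaf K3_ok TY_l591 _)))
        (CovZ.n1 (-2808, 10460) (by decide +kernel)
         (CovZ.n2 (-2810, 10458) (by decide +kernel)
          (CovZ.leaf K3_ok TY_l592 _)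
          (CovZ.leaf K3_ok TY_l593 _))
         (CovZ.n1 (-2810, 10462) (by decide +kernel)
          (CovZ.leaf K3_ok TY_l594 _)
          (CovZ.n1 (-2810, 10460) (by decide +kernel)
           (CovZ.leaf K3_ok TY_l595 _)
           (CovZ.leaf K3_ok TY_l596 _))))))
      (CovZ.n1 (-2800, 10456) (by decide +kernel)
       (CovZ.n2 (-2804, 10452) (by decide +kernel)
        (CovZ.n2 (-2804, 10456) (by decide +kernel)
         (CovZ.n2 (-2802, 10454) (by decide +kernel)
          (CovZ.leaf K3_ok TY_l597 _)
          (CovZ.leaf K3_ok TY_l598 _))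
         (CovZ.n1 (-2806, 10454) (by decide +kernel)
          (CovZ.n2 (-2806, 10456) (by decide +kernel)
           (CovZ.leaf K3_ok TY_l599 _)
           (CovZ.leaf K2_ok TY_l600 _))
          (CovZ.leaf K2_ok TY_l601 _)))
        (CovZ.n1 (-2800, 10452) (by decide +kernel)
         (CovZ.n2 (-2802, 10450) (by decide +kernel)
          (CovZ.leaf K3_ok TY_l602 _)
          (CovZ.leaf K2_ok TY_l603 _))
         (CovZ.leaf K3_ok TY_l604 _)))
       (CovZ.n1 (-2804, 10460) (by decide +kernel)
        (CovZ.n2 (-2800, 10460) (by decide +kernel)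
         (CovZ.n2 (-2802, 10458) (by decide +kernel)
          (CovZ.leaf K3_ok TY_l605 _)
          (CovZ.n1 (-2800, 10458) (by decide +kernel)
           (CovZ.leaf K2_ok TY_l606 _)
           (CovZ.leaf K2_ok TY_l607 _)))
         (CovZ.n1 (-2802, 10462) (by decide +kernel)
          (CovZ.leaf K3_ok TY_l608 _)
          (CovZ.leaf K3_ok TY_l609 _)))
        (CovZ.n1 (-2804, 10456) (by decide +kernel)
         (CovZ.n2 (-2806, 10458) (by decide +kernel)
          (CovZ.leaf K2_ok TY_l610 _)
          (CovZ.leaf K2_ok TY_l611 _))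
         (CovZ.n1 (-2802, 10458) (by decide +kernel)
          (CovZ.leaf K3_ok TY_l612 _)
          (CovZ.n1 (-2804, 10458) (by decide +kernel)
           (CovZ.leaf K3_ok TY_l613 _)
           (CovZ.leaf K3_ok TY_l614 _))))))))

theorem TY_u10 : CovZ TY_M (toL (selN TY_LN 7)) [0, 7, 4, 3] (-2688, 10432) (-2672, 10448) (-2688, 10464) :=
    (CovZ.n2 (-2688, 10448) (by decide +kernel)
     (CovZ.n2 (-2680, 10456) (by decide +kernel)
      (CovZ.n2 (-2680, 10448) (by decide +kernel)
       (CovZ.n2 (-2684, 10452) (by decide +kernel)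
        (CovZ.n2 (-2680, 10452) (by decide +kernel)
         (CovZ.n2 (-2682, 10450) (by decide +kernel)
          (CovZ.n2 (-2682, 10452) (by decide +kernel)
           (CovZ.leaf K3_ok TY_l4740 _)
           (CovZ.leaf K3_ok TY_l4741 _))
          (CovZ.n1 (-2680, 10450) (by decide +kernel)
           (CovZ.n2 (-2681, 10449) (by decide +kernel)
            (CovZ.leaf K3_ok TY_l4742 _)
            (CovZ.leaf K3_ok TY_l4743 _))
           (CovZ.leaf K3_ok TY_l4744 _)))
         (CovZ.n1 (-2682, 10454) (by decide +kernel)
          (CovZ.leaf K2_ok TY_l4745 _)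
          (CovZ.leaf K2_ok TY_l4746 _)))
        (CovZ.n1 (-2684, 10448) (by decide +kernel)
         (CovZ.n2 (-2686, 10450) (by decide +kernel)
          (CovZ.leaf K3_ok TY_l4747 _)
          (CovZ.n1 (-2686, 10448) (by decide +kernel)
           (CovZ.leaf K2_ok TY_l4748 _)
           (CovZ.leaf K3_ok TY_l4749 _)))
         (CovZ.n1 (-2682, 10450) (by decide +kernel)
          (CovZ.n2 (-2682, 10448) (by decide +kernel)
           (CovZ.leaf K2_ok TY_l4750 _)
           (CovZ.leaf K2_ok TY_l4751 _))
          (CovZ.leaf K3_ok TY_l4752 _))))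
       (CovZ.n1 (-2676, 10452) (by decide +kernel)
        (CovZ.n2 (-2676, 10448) (by decide +kernel)
         (CovZ.n2 (-2678, 10450) (by decide +kernel)
          (CovZ.n2 (-2676, 10450) (by decide +kernel)
           (CovZ.n2 (-2677, 10449) (by decide +kernel)
            (CovZ.leaf K2_ok TY_l4753 _)
            (CovZ.leaf K3_ok TY_l4754 _))
           (CovZ.leaf K3_ok TY_l4755 _))
          (CovZ.n1 (-2678, 10448) (by decide +kernel)
           (CovZ.n2 (-2679, 10449) (by decide +kernel)
            (CovZ.leaf K3_ok TY_l4756 _)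
            (CovZ.leaf K3_ok TY_l4757 _))
           (CovZ.n1 (-2677, 10449) (by decide +kernel)
            (CovZ.leaf K3_ok TY_l4758 _)
            (CovZ.leaf K2_ok TY_l4759 _))))
         (CovZ.n1 (-2674, 10450) (by decide +kernel)
          (CovZ.badM (by decide +kernel))
          (CovZ.n1 (-2676, 10450) (by decide +kernel)
           (CovZ.n2 (-2675, 10451) (by decide +kernel)
            (CovZ.n2 (-2675, 10450) (by decide +kernel)
             (CovZ.leaf K2_ok TY_l4760 _)
             (CovZ.leaf K3_ok TY_l4761 _))
            (CovZ.leaf K3_ok TY_l4762 _))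
           (CovZ.n1 (-2675, 10449) (by decide +kernel)
            (CovZ.leaf K2_ok TY_l4763 _)
            (CovZ.leaf K3_ok TY_l4764 _)))))
        (CovZ.n1 (-2680, 10452) (by decide +kernel)
         (CovZ.n2 (-2678, 10454) (by decide +kernel)
          (CovZ.n2 (-2678, 10452) (by decide +kernel)
           (CovZ.leaf K2_ok TY_l4765 _)
           (CovZ.leaf K2_ok TY_l4766 _))
          (CovZ.leaf K2_ok TY_l4767 _))
         (CovZ.n1 (-2678, 10450) (by decide +kernel)
          (CovZ.leaf K3_ok TY_l4768 _)
          (CovZ.n1 (-2678, 10452) (by decide +kernel)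
           (CovZ.leaf K2_ok TY_l4769 _)
           (CovZ.leaf K3_ok TY_l4770 _))))))
      (CovZ.n1 (-2688, 10456) (by decide +kernel)
       (CovZ.n2 (-2684, 10460) (by decide +kernel)
        (CovZ.n2 (-2684, 10456) (by decide +kernel)
         (CovZ.leaf K3_ok TY_l4771 _)
         (CovZ.n1 (-2682, 10458) (by decide +kernel)
          (CovZ.leaf K3_ok TY_l4772 _)
          (CovZ.leaf K3_ok TY_l4773 _)))
        (CovZ.leaf K2_ok TY_l4774 _))
       (CovZ.n1 (-2684, 10452) (by decide +kernel)
        (CovZ.n2 (-2688, 10452) (by decide +kernel)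
         (CovZ.n2 (-2686, 10454) (by decide +kernel)
          (CovZ.leaf K3_ok TY_l4775 _)
          (CovZ.leaf K3_ok TY_l4776 _))
         (CovZ.n1 (-2686, 10450) (by decide +kernel)
          (CovZ.leaf K2_ok TY_l4777 _)
          (CovZ.leaf K3_ok TY_l4778 _)))
        (CovZ.n1 (-2684, 10456) (by decide +kernel)
         (CovZ.n2 (-2682, 10454) (by decide +kernel)
          (CovZ.leaf K2_ok TY_l4779 _)
          (CovZ.leaf K2_ok TY_l4780 _))
         (CovZ.n1 (-2686, 10454) (by decide +kernel)
          (CovZ.leaf K3_ok TY_l4781 _)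
          (CovZ.leaf K3_ok TY_l4782 _))))))
     (CovZ.n1 (-2680, 10440) (by decide +kernel)
      (CovZ.n2 (-2688, 10440) (by decide +kernel)
       (CovZ.n2 (-2684, 10444) (by decide +kernel)
        (CovZ.n2 (-2684, 10440) (by decide +kernel)
         (CovZ.n2 (-2686, 10442) (by decide +kernel)
          (CovZ.n2 (-2684, 10442) (by decide +kernel)
           (CovZ.n2 (-2685, 10441) (by decide +kernel)
            (CovZ.leaf K2_ok TY_l4783 _)
            (CovZ.leaf K3_ok TY_l4784 _))
           (CovZ.leaf K2_ok TY_l4785 _))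
          (CovZ.n1 (-2686, 10440) (by decide +kernel)
           (CovZ.leaf K3_ok TY_l4786 _)
           (CovZ.leaf K3_ok TY_l4787 _)))
         (CovZ.n1 (-2682, 10442) (by decide +kernel)
          (CovZ.badM (by decide +kernel))
          (CovZ.n1 (-2684, 10442) (by decide +kernel)
           (CovZ.n2 (-2683, 10443) (by decide +kernel)
            (CovZ.n2 (-2683, 10442) (by decide +kernel)
             (CovZ.leaf K2_ok TY_l4788 _)
             (CovZ.leaf K2_ok TY_l4789 _))
            (CovZ.leaf K3_ok TY_l4790 _))
           (CovZ.n1 (-2683, 10441) (by decide +kernel)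
            (CovZ.leaf K3_ok TY_l4791 _)
            (CovZ.n1 (-2683, 10442) (by decide +kernel)
             (CovZ.leaf K2_ok TY_l4792 _)
             (CovZ.leaf K3_ok TY_l4793 _))))))
        (CovZ.n1 (-2688, 10444) (by decide +kernel)
         (CovZ.n2 (-2686, 10446) (by decide +kernel)
          (CovZ.n2 (-2686, 10444) (by decide +kernel)
           (CovZ.leaf K2_ok TY_l4794 _)
           (CovZ.leaf K3_ok TY_l4795 _))
          (CovZ.leaf K2_ok TY_l4796 _))
         (CovZ.n1 (-2686, 10442) (by decide +kernel)
          (CovZ.leaf K3_ok TY_l4797 _)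
          (CovZ.n1 (-2686, 10444) (by decide +kernel)
           (CovZ.leaf K3_ok TY_l4798 _)
           (CovZ.n1 (-2687, 10443) (by decide +kernel)
            (CovZ.leaf K3_ok TY_l4799 _)
            (CovZ.leaf K3_ok TY_l4800 _))))))
       (CovZ.n1 (-2684, 10436) (by decide +kernel)
        (CovZ.n2 (-2688, 10436) (by decide +kernel)
         (CovZ.n2 (-2686, 10438) (by decide +kernel)
          (CovZ.badM (by decide +kernel))
          (CovZ.n1 (-2688, 10438) (by decide +kernel)
           (CovZ.n2 (-2687, 10439) (by decide +kernel)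
            (CovZ.leaf K3_ok TY_l4801 _)
            (CovZ.leaf K2_ok TY_l4802 _))
           (CovZ.n1 (-2687, 10437) (by decide +kernel)
            (CovZ.leaf K2_ok TY_l4803 _)
            (CovZ.leaf K2_ok TY_l4804 _))))
         (CovZ.badM (by decide +kernel)))
        (CovZ.n1 (-2684, 10440) (by decide +kernel)
         (CovZ.badM (by decide +kernel))
         (CovZ.n1 (-2686, 10438) (by decide +kernel)
          (CovZ.n2 (-2686, 10440) (by decide +kernel)
           (CovZ.leaf K3_ok TY_l4805 _)
           (CovZ.n1 (-2687, 10439) (by decide +kernel)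
            (CovZ.leaf K3_ok TY_l4806 _)
            (CovZ.leaf K2_ok TY_l4807 _)))
          (CovZ.badM (by decide +kernel))))))
      (CovZ.n1 (-2680, 10448) (by decide +kernel)
       (CovZ.n2 (-2676, 10444) (by decide +kernel)
        (CovZ.n2 (-2680, 10444) (by decide +kernel)
         (CovZ.n2 (-2678, 10446) (by decide +kernel)
          (CovZ.badM (by decide +kernel))
          (CovZ.n1 (-2680, 10446) (by decide +kernel)
           (CovZ.n2 (-2679, 10447) (by decide +kernel)
            (CovZ.leaf K3_ok TY_l4808 _)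
            (CovZ.leaf K3_ok TY_l4809 _))
           (CovZ.n1 (-2679, 10445) (by decide +kernel)
            (CovZ.leaf K3_ok TY_l4810 _)
            (CovZ.leaf K2_ok TY_l4811 _))))
         (CovZ.badM (by decide +kernel)))
        (CovZ.n1 (-2676, 10448) (by decide +kernel)
         (CovZ.badM (by decide +kernel))
         (CovZ.n1 (-2678, 10446) (by decide +kernel)
          (CovZ.n2 (-2678, 10448) (by decide +kernel)
           (CovZ.n2 (-2677, 10447) (by decide +kernel)
            (CovZ.leaf K3_ok TY_l4812 _)
            (CovZ.n1 (-2677, 10448) (by decide +kernel)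
             (CovZ.leaf K3_ok TY_l4813 _)
             (CovZ.leaf K3_ok TY_l4814 _)))
           (CovZ.n1 (-2679, 10447) (by decide +kernel)
            (CovZ.leaf K3_ok TY_l4815 _)
            (CovZ.leaf K3_ok TY_l4816 _)))
          (CovZ.badM (by decide +kernel)))))
       (CovZ.n1 (-2684, 10444) (by decide +kernel)
        (CovZ.n2 (-2684, 10448) (by decide +kernel)
         (CovZ.n2 (-2682, 10446) (by decide +kernel)
          (CovZ.n2 (-2684, 10446) (by decide +kernel)
           (CovZ.leaf K3_ok TY_l4817 _)
           (CovZ.leaf K3_ok TY_l4818 _))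
          (CovZ.n1 (-2682, 10448) (by decide +kernel)
           (CovZ.leaf K3_ok TY_l4819 _)
           (CovZ.n1 (-2683, 10447) (by decide +kernel)
            (CovZ.leaf K3_ok TY_l4820 _)
            (CovZ.leaf K3_ok TY_l4821 _))))
         (CovZ.n1 (-2686, 10446) (by decide +kernel)
          (CovZ.n2 (-2686, 10448) (by decide +kernel)
           (CovZ.leaf K3_ok TY_l4822 _)
           (CovZ.leaf K3_ok TY_l4823 _))
          (CovZ.n1 (-2684, 10446) (by decide +kernel)
           (CovZ.leaf K2_ok TY_l4824 _)
           (CovZ.leaf K3_ok TY_l4825 _))))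
        (CovZ.n1 (-2680, 10444) (by decide +kernel)
         (CovZ.n2 (-2682, 10442) (by decide +kernel)
          (CovZ.n2 (-2682, 10444) (by decide +kernel)
           (CovZ.leaf K3_ok TY_l4826 _)
           (CovZ.n1 (-2683, 10443) (by decide +kernel)
            (CovZ.leaf K3_ok TY_l4827 _)
            (CovZ.leaf K2_ok TY_l4828 _)))
          (CovZ.badM (by decide +kernel)))
         (CovZ.n1 (-2682, 10446) (by decide +kernel)
          (CovZ.leaf K3_ok TY_l4829 _)
          (CovZ.n1 (-2682, 10444) (by decide +kernel)
           (CovZ.leaf K3_ok TY_l4830 _)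
           (CovZ.n1 (-2681, 10445) (by decide +kernel)
            (CovZ.leaf K2_ok TY_l4831 _)
            (CovZ.n1 (-2682, 10445) (by decide +kernel)
             (CovZ.leaf K3_ok TY_l4832 _)
             (CovZ.leaf K3_ok TY_l4833 _))))))))))

theorem TY_u11 : CovZ TY_M (toL (selN TY_LN 7)) [0, 7, 4, 3] (-2672, 10448) (-2656, 10464) (-2688, 10464) :=
    (CovZ.n1 (-2672, 10464) (by decide +kernel)
     (CovZ.n2 (-2664, 10456) (by decide +kernel)
      (CovZ.n2 (-2672, 10456) (by decide +kernel)
       (CovZ.n2 (-2668, 10460) (by decide +kernel)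
        (CovZ.n2 (-2668, 10456) (by decide +kernel)
         (CovZ.n2 (-2670, 10458) (by decide +kernel)
          (CovZ.n2 (-2668, 10458) (by decide +kernel)
           (CovZ.n2 (-2669, 10457) (by decide +kernel)
            (CovZ.leaf K3_ok TY_l4834 _)
            (CovZ.n1 (-2668, 10457) (by decide +kernel)
             (CovZ.leaf K3_ok TY_l4835 _)
             (CovZ.leaf K3_ok TY_l4836 _)))
           (CovZ.leaf K3_ok TY_l4837 _))
          (CovZ.n1 (-2670, 10456) (by decide +kernel)
           (CovZ.leaf K3_ok TY_l4838 _)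
           (CovZ.leaf K3_ok TY_l4839 _)))
         (CovZ.n1 (-2666, 10458) (by decide +kernel)
          (CovZ.badM (by decide +kernel))
          (CovZ.n1 (-2668, 10458) (by decide +kernel)
           (CovZ.leaf K3_ok TY_l4840 _)
           (CovZ.n1 (-2667, 10457) (by decide +kernel)
            (CovZ.leaf K2_ok TY_l4841 _)
            (CovZ.n1 (-2667, 10458) (by decide +kernel)
             (CovZ.badM (by decide +kernel))
             (CovZ.leaf K3_ok TY_l4842 _))))))
        (CovZ.n1 (-2672, 10460) (by decide +kernel)
         (CovZ.n2 (-2670, 10462) (by decide +kernel)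
          (CovZ.n2 (-2670, 10460) (by decide +kernel)
           (CovZ.leaf K3_ok TY_l4843 _)
           (CovZ.leaf K3_ok TY_l4844 _))
          (CovZ.leaf K3_ok TY_l4845 _))
         (CovZ.n1 (-2670, 10458) (by decide +kernel)
          (CovZ.leaf K3_ok TY_l4846 _)
          (CovZ.n1 (-2670, 10460) (by decide +kernel)
           (CovZ.n2 (-2669, 10459) (by decide +kernel)
            (CovZ.leaf K2_ok TY_l4847 _)
            (CovZ.leaf K3_ok TY_l4848 _))
           (CovZ.leaf K3_ok TY_l4849 _)))))
       (CovZ.n1 (-2668, 10452) (by decide +kernel)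
        (CovZ.n2 (-2672, 10452) (by decide +kernel)
         (CovZ.n2 (-2670, 10454) (by decide +kernel)
          (CovZ.badM (by decide +kernel))
          (CovZ.n1 (-2672, 10454) (by decide +kernel)
           (CovZ.leaf K3_ok TY_l4850 _)
           (CovZ.leaf K3_ok TY_l4851 _)))
         (CovZ.badM (by decide +kernel)))
        (CovZ.n1 (-2668, 10456) (by decide +kernel)
         (CovZ.badM (by decide +kernel))
         (CovZ.n1 (-2670, 10454) (by decide +kernel)
          (CovZ.n2 (-2670, 10456) (by decide +kernel)
           (CovZ.n2 (-2669, 10455) (by decide +kernel)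
            (CovZ.leaf K3_ok TY_l4852 _)
            (CovZ.n1 (-2669, 10456) (by decide +kernel)
             (CovZ.badM (by decide +kernel))
             (CovZ.leaf K3_ok TY_l4853 _)))
           (CovZ.n1 (-2671, 10455) (by decide +kernel)
            (CovZ.n2 (-2671, 10456) (by decide +kernel)
             (CovZ.leaf K3_ok TY_l4854 _)
             (CovZ.leaf K3_ok TY_l4855 _))
            (CovZ.leaf K3_ok TY_l4856 _)))
          (CovZ.badM (by decide +kernel))))))
      (CovZ.n1 (-2664, 10464) (by decide +kernel)
       (CovZ.n2 (-2660, 10460) (by decide +kernel)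
        (CovZ.n2 (-2664, 10460) (by decide +kernel)
         (CovZ.n2 (-2662, 10462) (by decide +kernel)
          (CovZ.badM (by decide +kernel))
          (CovZ.n1 (-2664, 10462) (by decide +kernel)
           (CovZ.n2 (-2663, 10463) (by decide +kernel)
            (CovZ.leaf K2_ok TY_l4857 _)
            (CovZ.leaf K3_ok TY_l4858 _))
           (CovZ.n1 (-2663, 10461) (by decide +kernel)
            (CovZ.leaf K3_ok TY_l4859 _)
            (CovZ.leaf K3_ok TY_l4860 _))))
         (CovZ.badM (by decide +kernel)))
        (CovZ.n1 (-2660, 10464) (by decide +kernel)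
         (CovZ.badM (by decide +kernel))
         (CovZ.n1 (-2662, 10462) (by decide +kernel)
          (CovZ.n2 (-2662, 10464) (by decide +kernel)
           (CovZ.n2 (-2661, 10463) (by decide +kernel)
            (CovZ.leaf K3_ok TY_l4861 _)
            (CovZ.leaf K2_ok TY_l4862 _))
           (CovZ.n1 (-2663, 10463) (by decide +kernel)
            (CovZ.leaf K3_ok TY_l4863 _)
            (CovZ.n1 (-2662, 10463) (by decide +kernel)
             (CovZ.leaf K2_ok TY_l4864 _)
             (CovZ.leaf K3_ok TY_l4865 _))))
          (CovZ.badM (by decide +kernel)))))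
       (CovZ.n1 (-2668, 10460) (by decide +kernel)
        (CovZ.n2 (-2668, 10464) (by decide +kernel)
         (CovZ.n2 (-2666, 10462) (by decide +kernel)
          (CovZ.leaf K3_ok TY_l4866 _)
          (CovZ.n1 (-2666, 10464) (by decide +kernel)
           (CovZ.leaf K3_ok TY_l4867 _)
           (CovZ.leaf K3_ok TY_l4868 _)))
         (CovZ.n1 (-2670, 10462) (by decide +kernel)
          (CovZ.leaf K3_ok TY_l4869 _)
          (CovZ.leaf K2_ok TY_l4870 _)))
        (CovZ.n1 (-2664, 10460) (by decide +kernel)
         (CovZ.n2 (-2666, 10458) (by decide +kernel)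
          (CovZ.n2 (-2666, 10460) (by decide +kernel)
           (CovZ.n2 (-2665, 10459) (by decide +kernel)
            (CovZ.leaf K3_ok TY_l4871 _)
            (CovZ.leaf K2_ok TY_l4872 _))
           (CovZ.leaf K3_ok TY_l4873 _))
          (CovZ.badM (by decide +kernel)))
         (CovZ.n1 (-2666, 10462) (by decide +kernel)
          (CovZ.n2 (-2664, 10462) (by decide +kernel)
           (CovZ.n2 (-2665, 10461) (by decide +kernel)
            (CovZ.leaf K3_ok TY_l4874 _)
            (CovZ.leaf K3_ok TY_l4875 _))
           (CovZ.n1 (-2665, 10463) (by decide +kernel)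
            (CovZ.leaf K3_ok TY_l4876 _)
            (CovZ.leaf K2_ok TY_l4877 _)))
          (CovZ.n1 (-2666, 10460) (by decide +kernel)
           (CovZ.leaf K3_ok TY_l4878 _)
           (CovZ.n1 (-2665, 10461) (by decide +kernel)
            (CovZ.leaf K3_ok TY_l4879 _)
            (CovZ.leaf K3_ok TY_l4880 _))))))))
     (CovZ.n1 (-2680, 10456) (by decide +kernel)
      (CovZ.n2 (-2680, 10464) (by decide +kernel)
       (CovZ.n2 (-2676, 10460) (by decide +kernel)
        (CovZ.n2 (-2680, 10460) (by decide +kernel)
         (CovZ.n2 (-2678, 10462) (by decide +kernel)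
          (CovZ.leaf K3_ok TY_l4881 _)
          (CovZ.leaf K3_ok TY_l4882 _))
         (CovZ.n1 (-2678, 10458) (by decide +kernel)
          (CovZ.leaf K2_ok TY_l4883 _)
          (CovZ.leaf K2_ok TY_l4884 _)))
        (CovZ.n1 (-2676, 10464) (by decide +kernel)
         (CovZ.n2 (-2674, 10462) (by decide +kernel)
          (CovZ.leaf K3_ok TY_l4885 _)
          (CovZ.leaf K3_ok TY_l4886 _))
         (CovZ.n1 (-2678, 10462) (by decide +kernel)
          (CovZ.leaf K3_ok TY_l4887 _)
          (CovZ.leaf K3_ok TY_l4888 _))))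
       (CovZ.n1 (-2684, 10460) (by decide +kernel)
        (CovZ.n2 (-2684, 10464) (by decide +kernel)
         (CovZ.leaf K3_ok TY_l4889 _)
         (CovZ.leaf K2_ok TY_l4890 _))
        (CovZ.n1 (-2680, 10460) (by decide +kernel)
         (CovZ.n2 (-2682, 10458) (by decide +kernel)
          (CovZ.leaf K3_ok TY_l4891 _)
          (CovZ.leaf K3_ok TY_l4892 _))
         (CovZ.leaf K3_ok TY_l4893 _))))
      (CovZ.n1 (-2672, 10456) (by decide +kernel)
       (CovZ.n2 (-2676, 10452) (by decide +kernel)
        (CovZ.n2 (-2676, 10456) (by decide +kernel)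
         (CovZ.n2 (-2674, 10454) (by decide +kernel)
          (CovZ.leaf K3_ok TY_l4894 _)
          (CovZ.n1 (-2674, 10456) (by decide +kernel)
           (CovZ.leaf K3_ok TY_l4895 _)
           (CovZ.n1 (-2675, 10455) (by decide +kernel)
            (CovZ.leaf K3_ok TY_l4896 _)
            (CovZ.leaf K3_ok TY_l4897 _))))
         (CovZ.n1 (-2678, 10454) (by decide +kernel)
          (CovZ.leaf K2_ok TY_l4898 _)
          (CovZ.leaf K2_ok TY_l4899 _)))
        (CovZ.n1 (-2672, 10452) (by decide +kernel)
         (CovZ.n2 (-2674, 10450) (by decide +kernel)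
          (CovZ.n2 (-2674, 10452) (by decide +kernel)
           (CovZ.n2 (-2673, 10451) (by decide +kernel)
            (CovZ.leaf K3_ok TY_l4900 _)
            (CovZ.n1 (-2673, 10452) (by decide +kernel)
             (CovZ.leaf K2_ok TY_l4901 _)
             (CovZ.leaf K3_ok TY_l4902 _)))
           (CovZ.n1 (-2675, 10451) (by decide +kernel)
            (CovZ.leaf K3_ok TY_l4903 _)
            (CovZ.leaf K3_ok TY_l4904 _)))
          (CovZ.badM (by decide +kernel)))
         (CovZ.n1 (-2674, 10454) (by decide +kernel)
          (CovZ.n2 (-2672, 10454) (by decide +kernel)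
           (CovZ.n2 (-2673, 10453) (by decide +kernel)
            (CovZ.leaf K3_ok TY_l4905 _)
            (CovZ.leaf K3_ok TY_l4906 _))
           (CovZ.leaf K3_ok TY_l4907 _))
          (CovZ.n1 (-2674, 10452) (by decide +kernel)
           (CovZ.leaf K3_ok TY_l4908 _)
           (CovZ.leaf K3_ok TY_l4909 _)))))
       (CovZ.n1 (-2676, 10460) (by decide +kernel)
        (CovZ.n2 (-2672, 10460) (by decide +kernel)
         (CovZ.n2 (-2674, 10458) (by decide +kernel)
          (CovZ.n2 (-2674, 10460) (by decide +kernel)
           (CovZ.leaf K3_ok TY_l4910 _)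
           (CovZ.leaf K3_ok TY_l4911 _))
          (CovZ.leaf K3_ok TY_l4912 _))
         (CovZ.n1 (-2674, 10462) (by decide +kernel)
          (CovZ.leaf K3_ok TY_l4913 _)
          (CovZ.leaf K3_ok TY_l4914 _)))
        (CovZ.n1 (-2676, 10456) (by decide +kernel)
         (CovZ.n2 (-2678, 10458) (by decide +kernel)
          (CovZ.leaf K3_ok TY_l4915 _)
          (CovZ.n1 (-2678, 10456) (by decide +kernel)
           (CovZ.leaf K3_ok TY_l4916 _)
           (CovZ.leaf K3_ok TY_l4917 _)))
         (CovZ.n1 (-2674, 10458) (by decide +kernel)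
          (CovZ.n2 (-2674, 10456) (by decide +kernel)
           (CovZ.leaf K2_ok TY_l4918 _)
           (CovZ.leaf K3_ok TY_l4919 _))
          (CovZ.leaf K3_ok TY_l4920 _)))))))

theorem TY_u12 : CovZ TY_M (toL (selN TY_LN 7)) [0, 7, 4, 3] (-2784, 10496) (-2800, 10480) (-2784, 10464) :=
    (CovZ.n2 (-2784, 10480) (by decide +kernel)
     (CovZ.n2 (-2792, 10472) (by decide +kernel)
      (CovZ.n2 (-2792, 10480) (by decide +kernel)
       (CovZ.n2 (-2788, 10476) (by decide +kernel)
        (CovZ.n2 (-2792, 10476) (by decide +kernel)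
         (CovZ.n2 (-2790, 10478) (by decide +kernel)
          (CovZ.n2 (-2790, 10476) (by decide +kernel)
           (CovZ.leaf K3_ok TY_l615 _)
           (CovZ.leaf K3_ok TY_l616 _))
          (CovZ.leaf K2_ok TY_l617 _))
         (CovZ.n1 (-2790, 10474) (by decide +kernel)
          (CovZ.leaf K3_ok TY_l618 _)
          (CovZ.n1 (-2790, 10476) (by decide +kernel)
           (CovZ.leaf K3_ok TY_l619 _)
           (CovZ.leaf K2_ok TY_l620 _))))
        (CovZ.n1 (-2788, 10480) (by decide +kernel)
         (CovZ.n2 (-2786, 10478) (by decide +kernel)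
          (CovZ.leaf K3_ok TY_l621 _)
          (CovZ.n1 (-2786, 10480) (by decide +kernel)
           (CovZ.leaf K3_ok TY_l622 _)
           (CovZ.leaf K2_ok TY_l623 _)))
         (CovZ.n1 (-2790, 10478) (by decide +kernel)
          (CovZ.n2 (-2790, 10480) (by decide +kernel)
           (CovZ.leaf K3_ok TY_l624 _)
           (CovZ.leaf K3_ok TY_l625 _))
          (CovZ.leaf K3_ok TY_l626 _))))
       (CovZ.n1 (-2796, 10476) (by decide +kernel)
        (CovZ.n2 (-2796, 10480) (by decide +kernel)
         (CovZ.n2 (-2794, 10478) (by decide +kernel)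
          (CovZ.leaf K3_ok TY_l627 _)
          (CovZ.n1 (-2794, 10480) (by decide +kernel)
           (CovZ.leaf K3_ok TY_l628 _)
           (CovZ.n1 (-2795, 10479) (by decide +kernel)
            (CovZ.leaf K3_ok TY_l629 _)
            (CovZ.leaf K3_ok TY_l630 _))))
         (CovZ.n1 (-2798, 10478) (by decide +kernel)
          (CovZ.n2 (-2798, 10480) (by decide +kernel)
           (CovZ.leaf K3_ok TY_l631 _)
           (CovZ.n1 (-2799, 10479) (by decide +kernel)
            (CovZ.leaf K3_ok TY_l632 _)
            (CovZ.leaf K3_ok TY_l633 _)))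
          (CovZ.n1 (-2796, 10478) (by decide +kernel)
           (CovZ.leaf K2_ok TY_l634 _)
           (CovZ.leaf K2_ok TY_l635 _))))
        (CovZ.n1 (-2792, 10476) (by decide +kernel)
         (CovZ.n2 (-2794, 10474) (by decide +kernel)
          (CovZ.n2 (-2794, 10476) (by decide +kernel)
           (CovZ.leaf K3_ok TY_l636 _)
           (CovZ.n1 (-2795, 10475) (by decide +kernel)
            (CovZ.leaf K3_ok TY_l637 _)
            (CovZ.leaf K3_ok TY_l638 _)))
          (CovZ.n1 (-2792, 10474) (by decide +kernel)
           (CovZ.leaf K2_ok TY_l639 _)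
           (CovZ.leaf K3_ok TY_l640 _)))
         (CovZ.n1 (-2794, 10478) (by decide +kernel)
          (CovZ.n2 (-2792, 10478) (by decide +kernel)
           (CovZ.n2 (-2793, 10477) (by decide +kernel)
            (CovZ.leaf K3_ok TY_l641 _)
            (CovZ.leaf K3_ok TY_l642 _))
           (CovZ.leaf K2_ok TY_l643 _))
          (CovZ.n1 (-2794, 10476) (by decide +kernel)
           (CovZ.leaf K3_ok TY_l644 _)
           (CovZ.leaf K3_ok TY_l645 _))))))
      (CovZ.n1 (-2784, 10472) (by decide +kernel)
       (CovZ.n2 (-2788, 10468) (by decide +kernel)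
        (CovZ.n2 (-2788, 10472) (by decide +kernel)
         (CovZ.n2 (-2786, 10470) (by decide +kernel)
          (CovZ.leaf K2_ok TY_l646 _)
          (CovZ.leaf K3_ok TY_l647 _))
         (CovZ.n1 (-2790, 10470) (by decide +kernel)
          (CovZ.leaf K3_ok TY_l648 _)
          (CovZ.leaf K3_ok TY_l649 _)))
        (CovZ.n1 (-2784, 10468) (by decide +kernel)
         (CovZ.n2 (-2786, 10466) (by decide +kernel)
          (CovZ.leaf K2_ok TY_l650 _)
          (CovZ.leaf K3_ok TY_l651 _))
         (CovZ.n1 (-2786, 10470) (by decide +kernel)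
          (CovZ.leaf K2_ok TY_l652 _)
          (CovZ.leaf K3_ok TY_l653 _))))
       (CovZ.n1 (-2788, 10476) (by decide +kernel)
        (CovZ.n2 (-2784, 10476) (by decide +kernel)
         (CovZ.n2 (-2786, 10474) (by decide +kernel)
          (CovZ.leaf K3_ok TY_l654 _)
          (CovZ.leaf K3_ok TY_l655 _))
         (CovZ.n1 (-2786, 10478) (by decide +kernel)
          (CovZ.leaf K2_ok TY_l656 _)
          (CovZ.leaf K3_ok TY_l657 _)))
        (CovZ.n1 (-2788, 10472) (by decide +kernel)
         (CovZ.n2 (-2790, 10474) (by decide +kernel)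
          (CovZ.leaf K2_ok TY_l658 _)
          (CovZ.n1 (-2790, 10472) (by decide +kernel)
           (CovZ.leaf K2_ok TY_l659 _)
           (CovZ.leaf K3_ok TY_l660 _)))
         (CovZ.n1 (-2786, 10474) (by decide +kernel)
          (CovZ.leaf K2_ok TY_l661 _)
          (CovZ.leaf K3_ok TY_l662 _))))))
     (CovZ.n1 (-2792, 10488) (by decide +kernel)
      (CovZ.n2 (-2784, 10488) (by decide +kernel)
       (CovZ.n2 (-2788, 10484) (by decide +kernel)
        (CovZ.n2 (-2788, 10488) (by decide +kernel)
         (CovZ.n2 (-2786, 10486) (by decide +kernel)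
          (CovZ.n2 (-2788, 10486) (by decide +kernel)
           (CovZ.leaf K3_ok TY_l663 _)
           (CovZ.leaf K2_ok TY_l664 _))
          (CovZ.n1 (-2786, 10488) (by decide +kernel)
           (CovZ.leaf K3_ok TY_l665 _)
           (CovZ.leaf K2_ok TY_l666 _)))
         (CovZ.n1 (-2790, 10486) (by decide +kernel)
          (CovZ.n2 (-2790, 10488) (by decide +kernel)
           (CovZ.leaf K3_ok TY_l667 _)
           (CovZ.leaf K3_ok TY_l668 _))
          (CovZ.n1 (-2788, 10486) (by decide +kernel)
           (CovZ.leaf K3_ok TY_l669 _)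
           (CovZ.leaf K3_ok TY_l670 _))))
        (CovZ.n1 (-2784, 10484) (by decide +kernel)
         (CovZ.n2 (-2786, 10482) (by decide +kernel)
          (CovZ.n2 (-2786, 10484) (by decide +kernel)
           (CovZ.leaf K3_ok TY_l671 _)
           (CovZ.leaf K3_ok TY_l672 _))
          (CovZ.leaf K3_ok TY_l673 _))
         (CovZ.n1 (-2786, 10486) (by decide +kernel)
          (CovZ.leaf K3_ok TY_l674 _)
          (CovZ.n1 (-2786, 10484) (by decide +kernel)
           (CovZ.leaf K3_ok TY_l675 _)
           (CovZ.leaf K3_ok TY_l676 _)))))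
       (CovZ.n1 (-2788, 10492) (by decide +kernel)
        (CovZ.n2 (-2784, 10492) (by decide +kernel)
         (CovZ.n2 (-2786, 10490) (by decide +kernel)
          (CovZ.n2 (-2786, 10492) (by decide +kernel)
           (CovZ.leaf K3_ok TY_l677 _)
           (CovZ.n1 (-2787, 10491) (by decide +kernel)
            (CovZ.leaf K3_ok TY_l678 _)
            (CovZ.leaf K3_ok TY_l679 _)))
          (CovZ.n1 (-2784, 10490) (by decide +kernel)
           (CovZ.leaf K3_ok TY_l680 _)
           (CovZ.leaf K3_ok TY_l681 _)))
         (CovZ.n1 (-2786, 10494) (by decide +kernel)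
          (CovZ.n2 (-2784, 10494) (by decide +kernel)
           (CovZ.n2 (-2785, 10493) (by decide +kernel)
            (CovZ.leaf K3_ok TY_l682 _)
            (CovZ.leaf K3_ok TY_l683 _))
           (CovZ.leaf K3_ok TY_l684 _))
          (CovZ.n1 (-2786, 10492) (by decide +kernel)
           (CovZ.n2 (-2787, 10493) (by decide +kernel)
            (CovZ.leaf K2_ok TY_l685 _)
            (CovZ.leaf K3_ok TY_l686 _))
           (CovZ.n1 (-2785, 10493) (by decide +kernel)
            (CovZ.leaf K2_ok TY_l687 _)
            (CovZ.leaf K2_ok TY_l688 _)))))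
        (CovZ.n1 (-2788, 10488) (by decide +kernel)
         (CovZ.n2 (-2790, 10490) (by decide +kernel)
          (CovZ.leaf K3_ok TY_l689 _)
          (CovZ.n1 (-2790, 10488) (by decide +kernel)
           (CovZ.leaf K3_ok TY_l690 _)
           (CovZ.leaf K3_ok TY_l691 _)))
         (CovZ.n1 (-2786, 10490) (by decide +kernel)
          (CovZ.n2 (-2786, 10488) (by decide +kernel)
           (CovZ.leaf K3_ok TY_l692 _)
           (CovZ.leaf K2_ok TY_l693 _))
          (CovZ.n1 (-2788, 10490) (by decide +kernel)
           (CovZ.leaf K3_ok TY_l694 _)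
           (CovZ.leaf K2_ok TY_l695 _))))))
      (CovZ.n1 (-2792, 10480) (by decide +kernel)
       (CovZ.n2 (-2796, 10484) (by decide +kernel)
        (CovZ.n2 (-2792, 10484) (by decide +kernel)
         (CovZ.n2 (-2794, 10482) (by decide +kernel)
          (CovZ.n2 (-2794, 10484) (by decide +kernel)
           (CovZ.leaf K3_ok TY_l696 _)
           (CovZ.leaf K3_ok TY_l697 _))
          (CovZ.leaf K2_ok TY_l698 _))
         (CovZ.n1 (-2794, 10486) (by decide +kernel)
          (CovZ.n2 (-2792, 10486) (by decide +kernel)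
           (CovZ.leaf K3_ok TY_l699 _)
           (CovZ.leaf K3_ok TY_l700 _))
          (CovZ.n1 (-2794, 10484) (by decide +kernel)
           (CovZ.n2 (-2795, 10485) (by decide +kernel)
            (CovZ.leaf K2_ok TY_l701 _)
            (CovZ.leaf K3_ok TY_l702 _))
           (CovZ.leaf K3_ok TY_l703 _))))
        (CovZ.n1 (-2796, 10480) (by decide +kernel)
         (CovZ.n2 (-2798, 10482) (by decide +kernel)
          (CovZ.n2 (-2796, 10482) (by decide +kernel)
           (CovZ.n2 (-2797, 10481) (by decide +kernel)
            (CovZ.leaf K3_ok TY_l704 _)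
            (CovZ.leaf K2_ok TY_l705 _))
           (CovZ.leaf K3_ok TY_l706 _))
          (CovZ.n1 (-2798, 10480) (by decide +kernel)
           (CovZ.n2 (-2799, 10481) (by decide +kernel)
            (CovZ.leaf K3_ok TY_l707 _)
            (CovZ.leaf K3_ok TY_l708 _))
           (CovZ.n1 (-2797, 10481) (by decide +kernel)
            (CovZ.leaf K3_ok TY_l709 _)
            (CovZ.leaf K2_ok TY_l710 _))))
         (CovZ.n1 (-2794, 10482) (by decide +kernel)
          (CovZ.n2 (-2794, 10480) (by decide +kernel)
           (CovZ.leaf K3_ok TY_l711 _)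
           (CovZ.leaf K3_ok TY_l712 _))
          (CovZ.leaf K3_ok TY_l713 _))))
       (CovZ.n1 (-2788, 10484) (by decide +kernel)
        (CovZ.n2 (-2788, 10480) (by decide +kernel)
         (CovZ.n2 (-2790, 10482) (by decide +kernel)
          (CovZ.n2 (-2788, 10482) (by decide +kernel)
           (CovZ.leaf K3_ok TY_l714 _)
           (CovZ.leaf K2_ok TY_l715 _))
          (CovZ.n1 (-2790, 10480) (by decide +kernel)
           (CovZ.n2 (-2791, 10481) (by decide +kernel)
            (CovZ.leaf K3_ok TY_l716 _)
            (CovZ.leaf K3_ok TY_l717 _))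
           (CovZ.leaf K3_ok TY_l718 _)))
         (CovZ.n1 (-2786, 10482) (by decide +kernel)
          (CovZ.leaf K3_ok TY_l719 _)
          (CovZ.leaf K2_ok TY_l720 _)))
        (CovZ.n1 (-2792, 10484) (by decide +kernel)
         (CovZ.n2 (-2790, 10486) (by decide +kernel)
          (CovZ.n2 (-2790, 10484) (by decide +kernel)
           (CovZ.leaf K2_ok TY_l721 _)
           (CovZ.leaf K3_ok TY_l722 _))
          (CovZ.n1 (-2792, 10486) (by decide +kernel)
           (CovZ.leaf K3_ok TY_l723 _)
           (CovZ.leaf K3_ok TY_l724 _)))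
         (CovZ.n1 (-2790, 10482) (by decide +kernel)
          (CovZ.leaf K3_ok TY_l725 _)
          (CovZ.leaf K3_ok TY_l726 _)))))))

theorem TY_u13 : CovZ TY_M (toL (selN TY_LN 7)) [0, 7, 4, 3] (-2800, 10480) (-2816, 10464) (-2784, 10464) :=
    (CovZ.n1 (-2800, 10464) (by decide +kernel)
     (CovZ.n2 (-2808, 10472) (by decide +kernel)
      (CovZ.n2 (-2800, 10472) (by decide +kernel)
       (CovZ.n2 (-2804, 10468) (by decide +kernel)
        (CovZ.n2 (-2804, 10472) (by decide +kernel)
         (CovZ.n2 (-2802, 10470) (by decide +kernel)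
          (CovZ.leaf K3_ok TY_l727 _)
          (CovZ.n1 (-2802, 10472) (by decide +kernel)
           (CovZ.leaf K3_ok TY_l728 _)
           (CovZ.leaf K3_ok TY_l729 _)))
         (CovZ.n1 (-2806, 10470) (by decide +kernel)
          (CovZ.n2 (-2806, 10472) (by decide +kernel)
           (CovZ.leaf K3_ok TY_l730 _)
           (CovZ.leaf K3_ok TY_l731 _))
          (CovZ.leaf K3_ok TY_l732 _)))
        (CovZ.n1 (-2800, 10468) (by decide +kernel)
         (CovZ.n2 (-2802, 10466) (by decide +kernel)
          (CovZ.leaf K3_ok TY_l733 _)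
          (CovZ.leaf K3_ok TY_l734 _))
         (CovZ.n1 (-2802, 10470) (by decide +kernel)
          (CovZ.n2 (-2800, 10470) (by decide +kernel)
           (CovZ.n2 (-2801, 10469) (by decide +kernel)
            (CovZ.leaf K3_ok TY_l735 _)
            (CovZ.leaf K2_ok TY_l736 _))
           (CovZ.leaf K2_ok TY_l737 _))
          (CovZ.n1 (-2802, 10468) (by decide +kernel)
           (CovZ.leaf K3_ok TY_l738 _)
           (CovZ.leaf K2_ok TY_l739 _)))))
       (CovZ.n1 (-2804, 10476) (by decide +kernel)
        (CovZ.n2 (-2800, 10476) (by decide +kernel)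
         (CovZ.n2 (-2802, 10474) (by decide +kernel)
          (CovZ.n2 (-2802, 10476) (by decide +kernel)
           (CovZ.leaf K2_ok TY_l740 _)
           (CovZ.n1 (-2803, 10475) (by decide +kernel)
            (CovZ.leaf K2_ok TY_l741 _)
            (CovZ.leaf K3_ok TY_l742 _)))
          (CovZ.n1 (-2800, 10474) (by decide +kernel)
           (CovZ.leaf K2_ok TY_l743 _)
           (CovZ.leaf K3_ok TY_l744 _)))
         (CovZ.n1 (-2802, 10478) (by decide +kernel)
          (CovZ.leaf K3_ok TY_l745 _)
          (CovZ.n1 (-2802, 10476) (by decide +kernel)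
           (CovZ.leaf K3_ok TY_l746 _)
           (CovZ.leaf K3_ok TY_l747 _))))
        (CovZ.n1 (-2804, 10472) (by decide +kernel)
         (CovZ.n2 (-2806, 10474) (by decide +kernel)
          (CovZ.n2 (-2804, 10474) (by decide +kernel)
           (CovZ.n2 (-2805, 10473) (by decide +kernel)
            (CovZ.leaf K3_ok TY_l748 _)
            (CovZ.leaf K3_ok TY_l749 _))
           (CovZ.leaf K3_ok TY_l750 _))
          (CovZ.n1 (-2806, 10472) (by decide +kernel)
           (CovZ.leaf K3_ok TY_l751 _)
           (CovZ.n1 (-2805, 10473) (by decide +kernel)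
            (CovZ.leaf K3_ok TY_l752 _)
            (CovZ.leaf K3_ok TY_l753 _))))
         (CovZ.n1 (-2802, 10474) (by decide +kernel)
          (CovZ.n2 (-2802, 10472) (by decide +kernel)
           (CovZ.leaf K3_ok TY_l754 _)
           (CovZ.leaf K3_ok TY_l755 _))
          (CovZ.n1 (-2804, 10474) (by decide +kernel)
           (CovZ.n2 (-2803, 10475) (by decide +kernel)
            (CovZ.leaf K3_ok TY_l756 _)
            (CovZ.leaf K3_ok TY_l757 _))
           (CovZ.leaf K3_ok TY_l758 _))))))
      (CovZ.n1 (-2808, 10464) (by decide +kernel)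
       (CovZ.n2 (-2812, 10468) (by decide +kernel)
        (CovZ.n2 (-2808, 10468) (by decide +kernel)
         (CovZ.n2 (-2810, 10466) (by decide +kernel)
          (CovZ.n2 (-2810, 10468) (by decide +kernel)
           (CovZ.leaf K2_ok TY_l759 _)
           (CovZ.leaf K3_ok TY_l760 _))
          (CovZ.leaf K3_ok TY_l761 _))
         (CovZ.n1 (-2810, 10470) (by decide +kernel)
          (CovZ.leaf K3_ok TY_l762 _)
          (CovZ.n1 (-2810, 10468) (by decide +kernel)
           (CovZ.leaf K3_ok TY_l763 _)
           (CovZ.leaf K3_ok TY_l764 _))))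
        (CovZ.n1 (-2812, 10464) (by decide +kernel)
         (CovZ.n2 (-2814, 10466) (by decide +kernel)
          (CovZ.n2 (-2812, 10466) (by decide +kernel)
           (CovZ.leaf K3_ok TY_l765 _)
           (CovZ.leaf K3_ok TY_l766 _))
          (CovZ.n1 (-2814, 10464) (by decide +kernel)
           (CovZ.leaf K3_ok TY_l767 _)
           (CovZ.leaf K3_ok TY_l768 _)))
         (CovZ.n1 (-2810, 10466) (by decide +kernel)
          (CovZ.n2 (-2810, 10464) (by decide +kernel)
           (CovZ.leaf K2_ok TY_l769 _)
           (CovZ.leaf K2_ok TY_l770 _))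
          (CovZ.leaf K3_ok TY_l771 _))))
       (CovZ.n1 (-2804, 10468) (by decide +kernel)
        (CovZ.n2 (-2804, 10464) (by decide +kernel)
         (CovZ.n2 (-2806, 10466) (by decide +kernel)
          (CovZ.leaf K2_ok TY_l772 _)
          (CovZ.n1 (-2806, 10464) (by decide +kernel)
           (CovZ.leaf K3_ok TY_l773 _)
           (CovZ.leaf K3_ok TY_l774 _)))
         (CovZ.n1 (-2802, 10466) (by decide +kernel)
          (CovZ.leaf K3_ok TY_l775 _)
          (CovZ.leaf K3_ok TY_l776 _)))
        (CovZ.n1 (-2808, 10468) (by decide +kernel)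
         (CovZ.n2 (-2806, 10470) (by decide +kernel)
          (CovZ.n2 (-2806, 10468) (by decide +kernel)
           (CovZ.leaf K3_ok TY_l777 _)
           (CovZ.leaf K3_ok TY_l778 _))
          (CovZ.leaf K3_ok TY_l779 _))
         (CovZ.n1 (-2806, 10466) (by decide +kernel)
          (CovZ.leaf K3_ok TY_l780 _)
          (CovZ.n1 (-2806, 10468) (by decide +kernel)
           (CovZ.leaf K3_ok TY_l781 _)
           (CovZ.n1 (-2807, 10467) (by decide +kernel)
            (CovZ.leaf K3_ok TY_l782 _)
            (CovZ.leaf K3_ok TY_l783 _))))))))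
     (CovZ.n1 (-2792, 10472) (by decide +kernel)
      (CovZ.n2 (-2792, 10464) (by decide +kernel)
       (CovZ.n2 (-2796, 10468) (by decide +kernel)
        (CovZ.n2 (-2792, 10468) (by decide +kernel)
         (CovZ.n2 (-2794, 10466) (by decide +kernel)
          (CovZ.leaf K3_ok TY_l784 _)
          (CovZ.leaf K3_ok TY_l785 _))
         (CovZ.n1 (-2794, 10470) (by decide +kernel)
          (CovZ.leaf K2_ok TY_l786 _)
          (CovZ.leaf K3_ok TY_l787 _)))
        (CovZ.n1 (-2796, 10464) (by decide +kernel)
         (CovZ.n2 (-2798, 10466) (by decide +kernel)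
          (CovZ.n2 (-2796, 10466) (by decide +kernel)
           (CovZ.leaf K2_ok TY_l788 _)
           (CovZ.leaf K3_ok TY_l789 _))
          (CovZ.leaf K2_ok TY_l790 _))
         (CovZ.n1 (-2794, 10466) (by decide +kernel)
          (CovZ.leaf K3_ok TY_l791 _)
          (CovZ.n1 (-2796, 10466) (by decide +kernel)
           (CovZ.leaf K3_ok TY_l792 _)
           (CovZ.leaf K3_ok TY_l793 _)))))
       (CovZ.n1 (-2788, 10468) (by decide +kernel)
        (CovZ.n2 (-2788, 10464) (by decide +kernel)
         (CovZ.n2 (-2790, 10466) (by decide +kernel)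
          (CovZ.leaf K3_ok TY_l794 _)
          (CovZ.leaf K2_ok TY_l795 _))
         (CovZ.n1 (-2786, 10466) (by decide +kernel)
          (CovZ.leaf K2_ok TY_l796 _)
          (CovZ.leaf K3_ok TY_l797 _)))
        (CovZ.n1 (-2792, 10468) (by decide +kernel)
         (CovZ.n2 (-2790, 10470) (by decide +kernel)
          (CovZ.n2 (-2790, 10468) (by decide +kernel)
           (CovZ.leaf K2_ok TY_l798 _)
           (CovZ.leaf K2_ok TY_l799 _))
          (CovZ.leaf K3_ok TY_l800 _))
         (CovZ.leaf K2_ok TY_l801 _))))
      (CovZ.n1 (-2800, 10472) (by decide +kernel)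
       (CovZ.n2 (-2796, 10476) (by decide +kernel)
        (CovZ.n2 (-2796, 10472) (by decide +kernel)
         (CovZ.n2 (-2798, 10474) (by decide +kernel)
          (CovZ.leaf K3_ok TY_l802 _)
          (CovZ.leaf K3_ok TY_l803 _))
         (CovZ.n1 (-2794, 10474) (by decide +kernel)
          (CovZ.leaf K3_ok TY_l804 _)
          (CovZ.n1 (-2796, 10474) (by decide +kernel)
           (CovZ.n2 (-2795, 10475) (by decide +kernel)
            (CovZ.leaf K2_ok TY_l805 _)
            (CovZ.leaf K3_ok TY_l806 _))
           (CovZ.leaf K3_ok TY_l807 _))))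
        (CovZ.n1 (-2800, 10476) (by decide +kernel)
         (CovZ.n2 (-2798, 10478) (by decide +kernel)
          (CovZ.n2 (-2798, 10476) (by decide +kernel)
           (CovZ.leaf K3_ok TY_l808 _)
           (CovZ.n1 (-2797, 10477) (by decide +kernel)
            (CovZ.leaf K3_ok TY_l809 _)
            (CovZ.leaf K3_ok TY_l810 _)))
          (CovZ.n1 (-2800, 10478) (by decide +kernel)
           (CovZ.n2 (-2799, 10479) (by decide +kernel)
            (CovZ.leaf K3_ok TY_l811 _)
            (CovZ.leaf K3_ok TY_l812 _))
           (CovZ.leaf K3_ok TY_l813 _)))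
         (CovZ.n1 (-2798, 10474) (by decide +kernel)
          (CovZ.n2 (-2800, 10474) (by decide +kernel)
           (CovZ.leaf K3_ok TY_l814 _)
           (CovZ.leaf K3_ok TY_l815 _))
          (CovZ.n1 (-2798, 10476) (by decide +kernel)
           (CovZ.leaf K3_ok TY_l816 _)
           (CovZ.n1 (-2799, 10475) (by decide +kernel)
            (CovZ.leaf K2_ok TY_l817 _)
            (CovZ.leaf K3_ok TY_l818 _))))))
       (CovZ.n1 (-2796, 10468) (by decide +kernel)
        (CovZ.n2 (-2800, 10468) (by decide +kernel)
         (CovZ.n2 (-2798, 10470) (by decide +kernel)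
          (CovZ.n2 (-2798, 10468) (by decide +kernel)
           (CovZ.leaf K3_ok TY_l819 _)
           (CovZ.leaf K3_ok TY_l820 _))
          (CovZ.leaf K3_ok TY_l821 _))
         (CovZ.n1 (-2798, 10466) (by decide +kernel)
          (CovZ.leaf K3_ok TY_l822 _)
          (CovZ.n1 (-2798, 10468) (by decide +kernel)
           (CovZ.leaf K2_ok TY_l823 _)
           (CovZ.leaf K3_ok TY_l824 _))))
        (CovZ.n1 (-2796, 10472) (by decide +kernel)
         (CovZ.n2 (-2794, 10470) (by decide +kernel)
          (CovZ.leaf K3_ok TY_l825 _)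
          (CovZ.n1 (-2794, 10472) (by decide +kernel)
           (CovZ.leaf K3_ok TY_l826 _)
           (CovZ.leaf K3_ok TY_l827 _)))
         (CovZ.n1 (-2798, 10470) (by decide +kernel)
          (CovZ.n2 (-2798, 10472) (by decide +kernel)
           (CovZ.leaf K3_ok TY_l828 _)
           (CovZ.leaf K3_ok TY_l829 _))
          (CovZ.leaf K2_ok TY_l830 _)))))))

theorem TY_u14 : CovZ TY_M (toL (selN TY_LN 7)) [0, 7, 4, 3] (-2816, 10464) (-2800, 10480) (-2816, 10496) :=
    (CovZ.n2 (-2816, 10480) (by decide +kernel)
     (CovZ.n2 (-2808, 10488) (by decide +kernel)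
      (CovZ.n2 (-2808, 10480) (by decide +kernel)
       (CovZ.n2 (-2812, 10484) (by decide +kernel)
        (CovZ.n2 (-2808, 10484) (by decide +kernel)
         (CovZ.n2 (-2810, 10482) (by decide +kernel)
          (CovZ.badM (by decide +kernel))
          (CovZ.n1 (-2808, 10482) (by decide +kernel)
           (CovZ.n2 (-2809, 10481) (by decide +kernel)
            (CovZ.badM (by decide +kernel))
            (CovZ.leaf K3_ok TY_l831 _))
           (CovZ.badM (by decide +kernel))))
         (CovZ.badM (by decide +kernel)))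
        (CovZ.n1 (-2812, 10480) (by decide +kernel)
         (CovZ.badM (by decide +kernel))
         (CovZ.n1 (-2810, 10482) (by decide +kernel)
          (CovZ.n2 (-2810, 10480) (by decide +kernel)
           (CovZ.badM (by decide +kernel))
           (CovZ.n1 (-2809, 10481) (by decide +kernel)
            (CovZ.leaf K3_ok TY_l832 _)
            (CovZ.badM (by decide +kernel))))
          (CovZ.badM (by decide +kernel)))))
       (CovZ.n1 (-2804, 10484) (by decide +kernel)
        (CovZ.n2 (-2804, 10480) (by decide +kernel)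
         (CovZ.n2 (-2806, 10482) (by decide +kernel)
          (CovZ.n2 (-2804, 10482) (by decide +kernel)
           (CovZ.n2 (-2805, 10481) (by decide +kernel)
            (CovZ.leaf K3_ok TY_l833 _)
            (CovZ.leaf K3_ok TY_l834 _))
           (CovZ.leaf K3_ok TY_l835 _))
          (CovZ.n1 (-2806, 10480) (by decide +kernel)
           (CovZ.leaf K3_ok TY_l836 _)
           (CovZ.n1 (-2805, 10481) (by decide +kernel)
            (CovZ.leaf K3_ok TY_l837 _)
            (CovZ.leaf K3_ok TY_l838 _))))
         (CovZ.n1 (-2802, 10482) (by decide +kernel)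
          (CovZ.n2 (-2802, 10480) (by decide +kernel)
           (CovZ.n2 (-2803, 10481) (by decide +kernel)
            (CovZ.leaf K2_ok TY_l839 _)
            (CovZ.leaf K3_ok TY_l840 _))
           (CovZ.n1 (-2801, 10481) (by decide +kernel)
            (CovZ.leaf K3_ok TY_l841 _)
            (CovZ.leaf K3_ok TY_l842 _)))
          (CovZ.n1 (-2804, 10482) (by decide +kernel)
           (CovZ.n2 (-2803, 10483) (by decide +kernel)
            (CovZ.leaf K3_ok TY_l843 _)
            (CovZ.leaf K2_ok TY_l844 _))
           (CovZ.leaf K3_ok TY_l845 _))))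
        (CovZ.n1 (-2808, 10484) (by decide +kernel)
         (CovZ.badM (by decide +kernel))
         (CovZ.n1 (-2806, 10482) (by decide +kernel)
          (CovZ.n2 (-2808, 10482) (by decide +kernel)
           (CovZ.n2 (-2807, 10483) (by decide +kernel)
            (CovZ.leaf K3_ok TY_l846 _)
            (CovZ.badM (by decide +kernel)))
           (CovZ.leaf K3_ok TY_l847 _))
          (CovZ.n1 (-2806, 10484) (by decide +kernel)
           (CovZ.leaf K3_ok TY_l848 _)
           (CovZ.n1 (-2807, 10483) (by decide +kernel)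
            (CovZ.badM (by decide +kernel))
            (CovZ.leaf K3_ok TY_l849 _)))))))
      (CovZ.badM (by decide +kernel)))
     (CovZ.n1 (-2808, 10472) (by decide +kernel)
      (CovZ.n2 (-2816, 10472) (by decide +kernel)
       (CovZ.n2 (-2812, 10476) (by decide +kernel)
        (CovZ.n2 (-2812, 10472) (by decide +kernel)
         (CovZ.n2 (-2814, 10474) (by decide +kernel)
          (CovZ.n2 (-2812, 10474) (by decide +kernel)
           (CovZ.leaf K3_ok TY_l850 _)
           (CovZ.n1 (-2813, 10475) (by decide +kernel)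
            (CovZ.leaf K3_ok TY_l851 _)
            (CovZ.leaf K3_ok TY_l852 _)))
          (CovZ.n1 (-2814, 10472) (by decide +kernel)
           (CovZ.n2 (-2815, 10473) (by decide +kernel)
            (CovZ.leaf K3_ok TY_l853 _)
            (CovZ.leaf K3_ok TY_l854 _))
           (CovZ.n1 (-2813, 10473) (by decide +kernel)
            (CovZ.leaf K3_ok TY_l855 _)
            (CovZ.leaf K3_ok TY_l856 _))))
         (CovZ.n1 (-2810, 10474) (by decide +kernel)
          (CovZ.n2 (-2810, 10472) (by decide +kernel)
           (CovZ.leaf K3_ok TY_l857 _)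
           (CovZ.n1 (-2809, 10473) (by decide +kernel)
            (CovZ.leaf K3_ok TY_l858 _)
            (CovZ.leaf K3_ok TY_l859 _)))
          (CovZ.n1 (-2812, 10474) (by decide +kernel)
           (CovZ.leaf K3_ok TY_l860 _)
           (CovZ.leaf K3_ok TY_l861 _))))
        (CovZ.n1 (-2816, 10476) (by decide +kernel)
         (CovZ.n2 (-2814, 10478) (by decide +kernel)
          (CovZ.n2 (-2814, 10476) (by decide +kernel)
           (CovZ.badM (by decide +kernel))
           (CovZ.leaf K3_ok TY_l862 _))
          (CovZ.badM (by decide +kernel)))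
         (CovZ.n1 (-2814, 10474) (by decide +kernel)
          (CovZ.n2 (-2816, 10474) (by decide +kernel)
           (CovZ.n2 (-2815, 10475) (by decide +kernel)
            (CovZ.leaf K3_ok TY_l863 _)
            (CovZ.badM (by decide +kernel)))
           (CovZ.leaf K3_ok TY_l864 _))
          (CovZ.n1 (-2814, 10476) (by decide +kernel)
           (CovZ.leaf K2_ok TY_l865 _)
           (CovZ.n1 (-2815, 10475) (by decide +kernel)
            (CovZ.badM (by decide +kernel))
            (CovZ.leaf K3_ok TY_l866 _))))))
       (CovZ.n1 (-2812, 10468) (by decide +kernel)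
        (CovZ.n2 (-2816, 10468) (by decide +kernel)
         (CovZ.n2 (-2814, 10470) (by decide +kernel)
          (CovZ.n2 (-2814, 10468) (by decide +kernel)
           (CovZ.leaf K2_ok TY_l867 _)
           (CovZ.leaf K3_ok TY_l868 _))
          (CovZ.n1 (-2816, 10470) (by decide +kernel)
           (CovZ.n2 (-2815, 10471) (by decide +kernel)
            (CovZ.leaf K3_ok TY_l869 _)
            (CovZ.leaf K3_ok TY_l870 _))
           (CovZ.leaf K3_ok TY_l871 _)))
         (CovZ.n1 (-2814, 10466) (by decide +kernel)
          (CovZ.n2 (-2816, 10466) (by decide +kernel)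
           (CovZ.leaf K3_ok TY_l872 _)
           (CovZ.leaf K3_ok TY_l873 _))
          (CovZ.n1 (-2814, 10468) (by decide +kernel)
           (CovZ.n2 (-2813, 10467) (by decide +kernel)
            (CovZ.leaf K3_ok TY_l874 _)
            (CovZ.leaf K3_ok TY_l875 _))
           (CovZ.leaf K3_ok TY_l876 _))))
        (CovZ.n1 (-2812, 10472) (by decide +kernel)
         (CovZ.n2 (-2810, 10470) (by decide +kernel)
          (CovZ.n2 (-2812, 10470) (by decide +kernel)
           (CovZ.leaf K2_ok TY_l877 _)
           (CovZ.leaf K2_ok TY_l878 _))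
          (CovZ.n1 (-2810, 10472) (by decide +kernel)
           (CovZ.leaf K3_ok TY_l879 _)
           (CovZ.n1 (-2811, 10471) (by decide +kernel)
            (CovZ.leaf K3_ok TY_l880 _)
            (CovZ.leaf K3_ok TY_l881 _))))
         (CovZ.n1 (-2814, 10470) (by decide +kernel)
          (CovZ.n2 (-2814, 10472) (by decide +kernel)
           (CovZ.leaf K2_ok TY_l882 _)
           (CovZ.n1 (-2815, 10471) (by decide +kernel)
            (CovZ.leaf K3_ok TY_l883 _)
            (CovZ.leaf K3_ok TY_l884 _)))
          (CovZ.n1 (-2812, 10470) (by decide +kernel)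
           (CovZ.leaf K2_ok TY_l885 _)
           (CovZ.n1 (-2813, 10471) (by decide +kernel)
            (CovZ.leaf K3_ok TY_l886 _)
            (CovZ.leaf K3_ok TY_l887 _)))))))
      (CovZ.n1 (-2808, 10480) (by decide +kernel)
       (CovZ.n2 (-2804, 10476) (by decide +kernel)
        (CovZ.n2 (-2808, 10476) (by decide +kernel)
         (CovZ.n2 (-2806, 10478) (by decide +kernel)
          (CovZ.n2 (-2806, 10476) (by decide +kernel)
           (CovZ.leaf K2_ok TY_l888 _)
           (CovZ.n1 (-2805, 10477) (by decide +kernel)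
            (CovZ.n2 (-2805, 10476) (by decide +kernel)
             (CovZ.leaf K2_ok TY_l889 _)
             (CovZ.leaf K2_ok TY_l890 _))
            (CovZ.leaf K3_ok TY_l891 _)))
          (CovZ.n1 (-2808, 10478) (by decide +kernel)
           (CovZ.n2 (-2807, 10479) (by decide +kernel)
            (CovZ.leaf K2_ok TY_l892 _)
            (CovZ.leaf K3_ok TY_l893 _))
           (CovZ.leaf K3_ok TY_l894 _)))
         (CovZ.n1 (-2806, 10474) (by decide +kernel)
          (CovZ.n2 (-2808, 10474) (by decide +kernel)
           (CovZ.leaf K3_ok TY_l895 _)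
           (CovZ.leaf K3_ok TY_l896 _))
          (CovZ.n1 (-2806, 10476) (by decide +kernel)
           (CovZ.leaf K3_ok TY_l897 _)
           (CovZ.n1 (-2807, 10475) (by decide +kernel)
            (CovZ.leaf K3_ok TY_l898 _)
            (CovZ.leaf K3_ok TY_l899 _)))))
        (CovZ.n1 (-2804, 10480) (by decide +kernel)
         (CovZ.n2 (-2802, 10478) (by decide +kernel)
          (CovZ.n2 (-2804, 10478) (by decide +kernel)
           (CovZ.leaf K3_ok TY_l900 _)
           (CovZ.leaf K3_ok TY_l901 _))
          (CovZ.n1 (-2802, 10480) (by decide +kernel)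
           (CovZ.leaf K3_ok TY_l902 _)
           (CovZ.n1 (-2803, 10479) (by decide +kernel)
            (CovZ.leaf K3_ok TY_l903 _)
            (CovZ.leaf K3_ok TY_l904 _))))
         (CovZ.n1 (-2806, 10478) (by decide +kernel)
          (CovZ.n2 (-2806, 10480) (by decide +kernel)
           (CovZ.leaf K3_ok TY_l905 _)
           (CovZ.n1 (-2807, 10479) (by decide +kernel)
            (CovZ.leaf K3_ok TY_l906 _)
            (CovZ.n1 (-2806, 10479) (by decide +kernel)
             (CovZ.leaf K3_ok TY_l907 _)
             (CovZ.leaf K3_ok TY_l908 _))))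
          (CovZ.n1 (-2804, 10478) (by decide +kernel)
           (CovZ.n2 (-2805, 10477) (by decide +kernel)
            (CovZ.leaf K3_ok TY_l909 _)
            (CovZ.leaf K3_ok TY_l910 _))
           (CovZ.leaf K3_ok TY_l911 _)))))
       (CovZ.n1 (-2812, 10476) (by decide +kernel)
        (CovZ.n2 (-2812, 10480) (by decide +kernel)
         (CovZ.n2 (-2810, 10478) (by decide +kernel)
          (CovZ.n2 (-2812, 10478) (by decide +kernel)
           (CovZ.n2 (-2811, 10479) (by decide +kernel)
            (CovZ.leaf K3_ok TY_l912 _)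
            (CovZ.badM (by decide +kernel)))
           (CovZ.leaf K3_ok TY_l913 _))
          (CovZ.n1 (-2810, 10480) (by decide +kernel)
           (CovZ.leaf K3_ok TY_l914 _)
           (CovZ.n1 (-2811, 10479) (by decide +kernel)
            (CovZ.badM (by decide +kernel))
            (CovZ.leaf K3_ok TY_l915 _))))
         (CovZ.n1 (-2814, 10478) (by decide +kernel)
          (CovZ.badM (by decide +kernel))
          (CovZ.n1 (-2812, 10478) (by decide +kernel)
           (CovZ.n2 (-2813, 10477) (by decide +kernel)
            (CovZ.badM (by decide +kernel))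
            (CovZ.leaf K3_ok TY_l916 _))
           (CovZ.badM (by decide +kernel)))))
        (CovZ.n1 (-2808, 10476) (by decide +kernel)
         (CovZ.n2 (-2810, 10474) (by decide +kernel)
          (CovZ.n2 (-2810, 10476) (by decide +kernel)
           (CovZ.leaf K3_ok TY_l917 _)
           (CovZ.n1 (-2811, 10475) (by decide +kernel)
            (CovZ.leaf K3_ok TY_l918 _)
            (CovZ.leaf K3_ok TY_l919 _)))
          (CovZ.n1 (-2808, 10474) (by decide +kernel)
           (CovZ.leaf K3_ok TY_l920 _)
           (CovZ.leaf K3_ok TY_l921 _)))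
         (CovZ.n1 (-2810, 10478) (by decide +kernel)
          (CovZ.n2 (-2808, 10478) (by decide +kernel)
           (CovZ.leaf K3_ok TY_l922 _)
           (CovZ.n1 (-2809, 10479) (by decide +kernel)
            (CovZ.leaf K3_ok TY_l923 _)
            (CovZ.leaf K3_ok TY_l924 _)))
          (CovZ.n1 (-2810, 10476) (by decide +kernel)
           (CovZ.n2 (-2811, 10477) (by decide +kernel)
            (CovZ.leaf K2_ok TY_l925 _)
            (CovZ.leaf K2_ok TY_l926 _))
           (CovZ.n1 (-2809, 10477) (by decide +kernel)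
            (CovZ.n2 (-2809, 10476) (by decide +kernel)
             (CovZ.leaf K2_ok TY_l927 _)
             (CovZ.leaf K3_ok TY_l928 _))
            (CovZ.leaf K3_ok TY_l929 _)))))))))

end Pool.Agent.TET
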