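import Pool.Agent.Helper38_TET.TY_M
import Pool.Agent.Helper38_TET.TY_L
import Pool.Agent.Helper38_TET.TY_0
import Pool.Agent.Helper38_TET.TY_1
import Pool.Agent.Helper38_TET.TY_2
import Pool.Agent.Helper38_TET.TY_3
import Pool.Agent.Helper38_TET.TY_8
import Pool.Agent.Helper38_TET.TY_9
import Pool.Agent.Helper38_TET.TY_10
import Pool.Agent.Helper38_TET.TY_15
import Pool.Agent.Helper38_TET.TY_16
import Pool.Agent.Helper38_TET.TY_17
import Pool.Agent.Helper38_TET.TY_U0

/-!
# MP_c7c9bf_co: certificates, family TY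
-/

set_option autoImplicit false
set_option maxRecDepth 100000

namespace Pool.Agent.TET

theorem TY_s0_0 : SqZ TY_M TY_L [0, 7, 4, 3] (-2816) 10304 32 0 0 :=
  SqZ.mk (a := (-2816)) (b := (-2784)) (c := 10304) (d := 10336) (by norm_num) (by norm_num) (by norm_num) (by norm_num)
    (CovZ.topM TY_LL 0 (by decide +kernel) (CovZ.badM (by decide +kernel)))
    (CovZ.topM TY_LL 5 (by decide +kernel) (CovZ.n0 (-2800, 10320) (by decide +kernel)
    (CovZ.n2 (-2816, 10320) (by decide +kernel)
     (CovZ.n2 (-2808, 10328) (by decide +kernel)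
      (CovZ.n2 (-2808, 10320) (by decide +kernel)
       (CovZ.n2 (-2812, 10324) (by decide +kernel)
        (CovZ.n2 (-2808, 10324) (by decide +kernel)
         (CovZ.n2 (-2810, 10322) (by decide +kernel)
          (CovZ.leaf K2_ok TY_l0 _)
          (CovZ.leaf K2_ok TY_l1 _))
         (CovZ.leaf K2_ok TY_l2 _))
        (CovZ.n1 (-2812, 10320) (by decide +kernel)
         (CovZ.leaf K2_ok TY_l3 _)
         (CovZ.n1 (-2810, 10322) (by decide +kernel)
          (CovZ.leaf K2_ok TY_l4 _)
          (CovZ.leaf K2_ok TY_l5 _))))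
       (CovZ.n1 (-2804, 10324) (by decide +kernel)
        (CovZ.n2 (-2804, 10320) (by decide +kernel)
         (CovZ.n2 (-2806, 10322) (by decide +kernel)
          (CovZ.leaf K2_ok TY_l6 _)
          (CovZ.leaf K2_ok TY_l7 _))
         (CovZ.n1 (-2802, 10322) (by decide +kernel)
          (CovZ.badM (by decide +kernel))
          (CovZ.leaf K2_ok TY_l8 _)))
        (CovZ.n1 (-2808, 10324) (by decide +kernel)
         (CovZ.n2 (-2806, 10326) (by decide +kernel)
          (CovZ.leaf K3_ok TY_l9 _)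
          (CovZ.leaf K2_ok TY_l10 _))
         (CovZ.n1 (-2806, 10322) (by decide +kernel)
          (CovZ.leaf K2_ok TY_l11 _)
          (CovZ.n1 (-2806, 10324) (by decide +kernel)
           (CovZ.leaf K2_ok TY_l12 _)
           (CovZ.leaf K2_ok TY_l13 _))))))
      (CovZ.n1 (-2816, 10328) (by decide +kernel)
       (CovZ.n2 (-2812, 10332) (by decide +kernel)
        (CovZ.n2 (-2812, 10328) (by decide +kernel)
         (CovZ.leaf K2_ok TY_l14 _)
         (CovZ.leaf K2_ok TY_l15 _))
        (CovZ.leaf K2_ok TY_l16 _))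
       (CovZ.n1 (-2812, 10324) (by decide +kernel)
        (CovZ.n2 (-2816, 10324) (by decide +kernel)
         (CovZ.leaf K2_ok TY_l17 _)
         (CovZ.n1 (-2814, 10322) (by decide +kernel)
          (CovZ.leaf K2_ok TY_l18 _)
          (CovZ.leaf K2_ok TY_l19 _)))
        (CovZ.n1 (-2812, 10328) (by decide +kernel)
         (CovZ.leaf K2_ok TY_l20 _)
         (CovZ.n1 (-2814, 10326) (by decide +kernel)
          (CovZ.leaf K2_ok TY_l21 _)
          (CovZ.leaf K2_ok TY_l22 _))))))
     (CovZ.n1 (-2808, 10312) (by decide +kernel)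
      (CovZ.n2 (-2816, 10312) (by decide +kernel)
       (CovZ.n2 (-2812, 10316) (by decide +kernel)
        (CovZ.n2 (-2812, 10312) (by decide +kernel)
         (CovZ.n2 (-2814, 10314) (by decide +kernel)
          (CovZ.leaf K2_ok TY_l23 _)
          (CovZ.leaf K2_ok TY_l24 _))
         (CovZ.n1 (-2810, 10314) (by decide +kernel)
          (CovZ.badM (by decide +kernel))
          (CovZ.leaf K2_ok TY_l25 _)))
        (CovZ.n1 (-2816, 10316) (by decide +kernel)
         (CovZ.n2 (-2814, 10318) (by decide +kernel)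
          (CovZ.leaf K2_ok TY_l26 _)
          (CovZ.leaf K2_ok TY_l27 _))
         (CovZ.n1 (-2814, 10314) (by decide +kernel)
          (CovZ.leaf K2_ok TY_l28 _)
          (CovZ.leaf K2_ok TY_l29 _))))
       (CovZ.n1 (-2812, 10308) (by decide +kernel)
        (CovZ.n2 (-2816, 10308) (by decide +kernel)
         (CovZ.n2 (-2814, 10310) (by decide +kernel)
          (CovZ.badM (by decide +kernel))
          (CovZ.leaf K3_ok TY_l30 _))
         (CovZ.badM (by decide +kernel)))
        (CovZ.n1 (-2812, 10312) (by decide +kernel)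
         (CovZ.badM (by decide +kernel))
         (CovZ.n1 (-2814, 10310) (by decide +kernel)
          (CovZ.n2 (-2814, 10312) (by decide +kernel)
           (CovZ.leaf K2_ok TY_l31 _)
           (CovZ.leaf K3_ok TY_l32 _))
          (CovZ.badM (by decide +kernel))))))
      (CovZ.n1 (-2808, 10320) (by decide +kernel)
       (CovZ.n2 (-2804, 10316) (by decide +kernel)
        (CovZ.n2 (-2808, 10316) (by decide +kernel)
         (CovZ.n2 (-2806, 10318) (by decide +kernel)
          (CovZ.badM (by decide +kernel))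
          (CovZ.n1 (-2808, 10318) (by decide +kernel)
           (CovZ.leaf K2_ok TY_l33 _)
           (CovZ.leaf K2_ok TY_l34 _)))
         (CovZ.badM (by decide +kernel)))
        (CovZ.n1 (-2804, 10320) (by decide +kernel)
         (CovZ.badM (by decide +kernel))
         (CovZ.n1 (-2806, 10318) (by decide +kernel)
          (CovZ.leaf K3_ok TY_l35 _)
          (CovZ.badM (by decide +kernel)))))
       (CovZ.n1 (-2812, 10316) (by decide +kernel)
        (CovZ.n2 (-2812, 10320) (by decide +kernel)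
         (CovZ.n2 (-2810, 10318) (by decide +kernel)
          (CovZ.leaf K2_ok TY_l36 _)
          (CovZ.leaf K2_ok TY_l37 _))
         (CovZ.n1 (-2814, 10318) (by decide +kernel)
          (CovZ.leaf K2_ok TY_l38 _)
          (CovZ.leaf K2_ok TY_l39 _)))
        (CovZ.n1 (-2808, 10316) (by decide +kernel)
         (CovZ.n2 (-2810, 10314) (by decide +kernel)
          (CovZ.n2 (-2810, 10316) (by decide +kernel)
           (CovZ.leaf K2_ok TY_l40 _)
           (CovZ.leaf K2_ok TY_l41 _))
          (CovZ.badM (by decide +kernel)))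
         (CovZ.n1 (-2810, 10318) (by decide +kernel)
          (CovZ.leaf K2_ok TY_l42 _)
          (CovZ.leaf K2_ok TY_l43 _)))))))
    (CovZ.n1 (-2800, 10336) (by decide +kernel)
     (CovZ.n2 (-2792, 10328) (by decide +kernel)
      (CovZ.n2 (-2800, 10328) (by decide +kernel)
       (CovZ.n2 (-2796, 10332) (by decide +kernel)
        (CovZ.n2 (-2796, 10328) (by decide +kernel)
         (CovZ.n2 (-2798, 10330) (by decide +kernel)
          (CovZ.leaf K3_ok TY_l44 _)
          (CovZ.n1 (-2798, 10328) (by decide +kernel)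
           (CovZ.leaf K2_ok TY_l45 _)
           (CovZ.n1 (-2797, 10329) (by decide +kernel)
            (CovZ.leaf K2_ok TY_l46 _)
            (CovZ.leaf K2_ok TY_l47 _))))
         (CovZ.n1 (-2794, 10330) (by decide +kernel)
          (CovZ.badM (by decide +kernel))
          (CovZ.n1 (-2796, 10330) (by decide +kernel)
           (CovZ.leaf K2_ok TY_l48 _)
           (CovZ.leaf K2_ok TY_l49 _))))
        (CovZ.n1 (-2800, 10332) (by decide +kernel)
         (CovZ.n2 (-2798, 10334) (by decide +kernel)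
          (CovZ.leaf K2_ok TY_l50 _)
          (CovZ.leaf K2_ok TY_l51 _))
         (CovZ.n1 (-2798, 10330) (by decide +kernel)
          (CovZ.leaf K2_ok TY_l52 _)
          (CovZ.leaf K2_ok TY_l53 _))))
       (CovZ.n1 (-2796, 10324) (by decide +kernel)
        (CovZ.n2 (-2800, 10324) (by decide +kernel)
         (CovZ.n2 (-2798, 10326) (by decide +kernel)
          (CovZ.badM (by decide +kernel))
          (CovZ.leaf K2_ok TY_l54 _))
         (CovZ.badM (by decide +kernel)))
        (CovZ.n1 (-2796, 10328) (by decide +kernel)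
         (CovZ.badM (by decide +kernel))
         (CovZ.n1 (-2798, 10326) (by decide +kernel)
          (CovZ.n2 (-2798, 10328) (by decide +kernel)
           (CovZ.leaf K2_ok TY_l55 _)
           (CovZ.leaf K2_ok TY_l56 _))
          (CovZ.badM (by decide +kernel))))))
      (CovZ.n1 (-2792, 10336) (by decide +kernel)
       (CovZ.n2 (-2788, 10332) (by decide +kernel)
        (CovZ.n2 (-2792, 10332) (by decide +kernel)
         (CovZ.n2 (-2790, 10334) (by decide +kernel)
          (CovZ.badM (by decide +kernel))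
          (CovZ.n1 (-2792, 10334) (by decide +kernel)
           (CovZ.leaf K2_ok TY_l57 _)
           (CovZ.leaf K3_ok TY_l58 _)))
         (CovZ.badM (by decide +kernel)))
        (CovZ.n1 (-2788, 10336) (by decide +kernel)
         (CovZ.badM (by decide +kernel))
         (CovZ.n1 (-2790, 10334) (by decide +kernel)
          (CovZ.leaf K2_ok TY_l59 _)
          (CovZ.badM (by decide +kernel)))))
       (CovZ.n1 (-2796, 10332) (by decide +kernel)
        (CovZ.n2 (-2796, 10336) (by decide +kernel)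
         (CovZ.n2 (-2794, 10334) (by decide +kernel)
          (CovZ.n2 (-2796, 10334) (by decide +kernel)
           (CovZ.leaf K2_ok TY_l60 _)
           (CovZ.leaf K3_ok TY_l61 _))
          (CovZ.leaf K2_ok TY_l62 _))
         (CovZ.n1 (-2798, 10334) (by decide +kernel)
          (CovZ.leaf K2_ok TY_l63 _)
          (CovZ.leaf K2_ok TY_l64 _)))
        (CovZ.n1 (-2792, 10332) (by decide +kernel)
         (CovZ.n2 (-2794, 10330) (by decide +kernel)
          (CovZ.n2 (-2794, 10332) (by decide +kernel)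
           (CovZ.leaf K2_ok TY_l65 _)
           (CovZ.leaf K2_ok TY_l66 _))
          (CovZ.badM (by decide +kernel)))
         (CovZ.n1 (-2794, 10334) (by decide +kernel)
          (CovZ.n2 (-2792, 10334) (by decide +kernel)
           (CovZ.leaf K2_ok TY_l67 _)
           (CovZ.leaf K2_ok TY_l68 _))
          (CovZ.n1 (-2794, 10332) (by decide +kernel)
           (CovZ.leaf K2_ok TY_l69 _)
           (CovZ.leaf K2_ok TY_l70 _)))))))
     (CovZ.n1 (-2808, 10328) (by decide +kernel)
      (CovZ.n2 (-2808, 10336) (by decide +kernel)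
       (CovZ.n2 (-2804, 10332) (by decide +kernel)
        (CovZ.n2 (-2808, 10332) (by decide +kernel)
         (CovZ.leaf K2_ok TY_l71 _)
         (CovZ.leaf K2_ok TY_l72 _))
        (CovZ.n1 (-2804, 10336) (by decide +kernel)
         (CovZ.n2 (-2802, 10334) (by decide +kernel)
          (CovZ.leaf K2_ok TY_l73 _)
          (CovZ.leaf K2_ok TY_l74 _))
         (CovZ.n1 (-2806, 10334) (by decide +kernel)
          (CovZ.leaf K2_ok TY_l75 _)
          (CovZ.leaf K2_ok TY_l76 _))))
       (CovZ.n1 (-2812, 10332) (by decide +kernel)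
        (CovZ.n2 (-2812, 10336) (by decide +kernel)
         (CovZ.leaf K2_ok TY_l77 _)
         (CovZ.leaf K2_ok TY_l78 _))
        (CovZ.n1 (-2808, 10332) (by decide +kernel)
         (CovZ.leaf K2_ok TY_l79 _)
         (CovZ.leaf K2_ok TY_l80 _))))
      (CovZ.n1 (-2800, 10328) (by decide +kernel)
       (CovZ.n2 (-2804, 10324) (by decide +kernel)
        (CovZ.n2 (-2804, 10328) (by decide +kernel)
         (CovZ.n2 (-2802, 10326) (by decide +kernel)
          (CovZ.leaf K2_ok TY_l81 _)
          (CovZ.leaf K3_ok TY_l82 _))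
         (CovZ.n1 (-2806, 10326) (by decide +kernel)
          (CovZ.leaf K2_ok TY_l83 _)
          (CovZ.leaf K2_ok TY_l84 _)))
        (CovZ.n1 (-2800, 10324) (by decide +kernel)
         (CovZ.n2 (-2802, 10322) (by decide +kernel)
          (CovZ.leaf K2_ok TY_l85 _)
          (CovZ.badM (by decide +kernel)))
         (CovZ.n1 (-2802, 10326) (by decide +kernel)
          (CovZ.leaf K2_ok TY_l86 _)
          (CovZ.n1 (-2802, 10324) (by decide +kernel)
           (CovZ.leaf K2_ok TY_l87 _)
           (CovZ.leaf K2_ok TY_l88 _)))))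
       (CovZ.n1 (-2804, 10332) (by decide +kernel)
        (CovZ.n2 (-2800, 10332) (by decide +kernel)
         (CovZ.n2 (-2802, 10330) (by decide +kernel)
          (CovZ.leaf K2_ok TY_l89 _)
          (CovZ.leaf K2_ok TY_l90 _))
         (CovZ.leaf K3_ok TY_l91 _))
        (CovZ.n1 (-2804, 10328) (by decide +kernel)
         (CovZ.n2 (-2806, 10330) (by decide +kernel)
          (CovZ.leaf K2_ok TY_l92 _)
          (CovZ.leaf K2_ok TY_l93 _))
         (CovZ.n1 (-2802, 10330) (by decide +kernel)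
          (CovZ.n2 (-2802, 10328) (by decide +kernel)
           (CovZ.leaf K2_ok TY_l94 _)
           (CovZ.leaf K3_ok TY_l95 _))
          (CovZ.leaf K2_ok TY_l96 _)))))))))

theorem TY_s1_0 : SqZ TY_M TY_L [0, 7, 4, 3] (-2816) 10304 32 1 0 :=
  SqZ.mk (a := (-2784)) (b := (-2752)) (c := 10304) (d := 10336) (by norm_num) (by norm_num) (by norm_num) (by norm_num)
    (CovZ.topM TY_LL 0 (by decide +kernel) (CovZ.badM (by decide +kernel)))
    (CovZ.topM TY_LL 0 (by decide +kernel) (CovZ.badM (by decide +kernel)))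

theorem TY_s2_0 : SqZ TY_M TY_L [0, 7, 4, 3] (-2816) 10304 32 2 0 :=
  SqZ.mk (a := (-2752)) (b := (-2720)) (c := 10304) (d := 10336) (by norm_num) (by norm_num) (by norm_num) (by norm_num)
    (CovZ.topM TY_LL 0 (by decide +kernel) (CovZ.badM (by decide +kernel)))
    (CovZ.topM TY_LL 0 (by decide +kernel) (CovZ.badM (by decide +kernel)))

theorem TY_s3_0 : SqZ TY_M TY_L [0, 7, 4, 3] (-2816) 10304 32 3 0 :=
  SqZ.mk (a := (-2720)) (b := (-2688)) (c := 10304) (d := 10336) (by norm_num) (by norm_num) (by norm_num) (by norm_num)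
    (CovZ.topM TY_LL 0 (by decide +kernel) (CovZ.badM (by decide +kernel)))
    (CovZ.topM TY_LL 0 (by decide +kernel) (CovZ.badM (by decide +kernel)))

theorem TY_s4_0 : SqZ TY_M TY_L [0, 7, 4, 3] (-2816) 10304 32 4 0 :=
  SqZ.mk (a := (-2688)) (b := (-2656)) (c := 10304) (d := 10336) (by norm_num) (by norm_num) (by norm_num) (by norm_num)
    (CovZ.topM TY_LL 0 (by decide +kernel) (CovZ.badM (by decide +kernel)))
    (CovZ.topM TY_LL 0 (by decide +kernel) (CovZ.badM (by decide +kernel)))

theorem TY_s5_0 : SqZ TY_M TY_L [0, 7, 4, 3] (-2816) 10304 32 5 0 :=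
  SqZ.mk (a := (-2656)) (b := (-2624)) (c := 10304) (d := 10336) (by norm_num) (by norm_num) (by norm_num) (by norm_num)
    (CovZ.topM TY_LL 0 (by decide +kernel) (CovZ.badM (by decide +kernel)))
    (CovZ.topM TY_LL 0 (by decide +kernel) (CovZ.badM (by decide +kernel)))

theorem TY_s0_1 : SqZ TY_M TY_L [0, 7, 4, 3] (-2816) 10304 32 0 1 :=
  SqZ.mk (a := (-2816)) (b := (-2784)) (c := 10336) (d := 10368) (by norm_num) (by norm_num) (by norm_num) (by norm_num)
    (CovZ.topM TY_LL 5 (by decide +kernel) (CovZ.n2 (-2800, 10352) (by decide +kernel)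
    (CovZ.n2 (-2784, 10352) (by decide +kernel)
     (CovZ.n2 (-2792, 10344) (by decide +kernel)
      (CovZ.n2 (-2792, 10352) (by decide +kernel)
       (CovZ.n2 (-2788, 10348) (by decide +kernel)
        (CovZ.n2 (-2792, 10348) (by decide +kernel)
         (CovZ.leaf K3_ok TY_l97 _)
         (CovZ.leaf K3_ok TY_l98 _))
        (CovZ.n1 (-2788, 10352) (by decide +kernel)
         (CovZ.leaf K2_ok TY_l99 _)
         (CovZ.n1 (-2790, 10350) (by decide +kernel)
          (CovZ.leaf K2_ok TY_l100 _)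
          (CovZ.leaf K3_ok TY_l101 _))))
       (CovZ.n1 (-2796, 10348) (by decide +kernel)
        (CovZ.n2 (-2796, 10352) (by decide +kernel)
         (CovZ.leaf K2_ok TY_l102 _)
         (CovZ.leaf K3_ok TY_l103 _))
        (CovZ.leaf K3_ok TY_l104 _)))
      (CovZ.n1 (-2784, 10344) (by decide +kernel)
       (CovZ.n2 (-2788, 10340) (by decide +kernel)
        (CovZ.n2 (-2788, 10344) (by decide +kernel)
         (CovZ.n2 (-2786, 10342) (by decide +kernel)
          (CovZ.leaf K3_ok TY_l105 _)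
          (CovZ.leaf K3_ok TY_l106 _))
         (CovZ.n1 (-2790, 10342) (by decide +kernel)
          (CovZ.leaf K3_ok TY_l107 _)
          (CovZ.leaf K3_ok TY_l108 _)))
        (CovZ.n1 (-2784, 10340) (by decide +kernel)
         (CovZ.n2 (-2786, 10338) (by decide +kernel)
          (CovZ.n2 (-2786, 10340) (by decide +kernel)
           (CovZ.leaf K3_ok TY_l109 _)
           (CovZ.n1 (-2787, 10339) (by decide +kernel)
            (CovZ.leaf K3_ok TY_l110 _)
            (CovZ.leaf K3_ok TY_l111 _)))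
          (CovZ.badM (by decide +kernel)))
         (CovZ.n1 (-2786, 10342) (by decide +kernel)
          (CovZ.leaf K2_ok TY_l112 _)
          (CovZ.leaf K3_ok TY_l113 _))))
       (CovZ.n1 (-2788, 10348) (by decide +kernel)
        (CovZ.n2 (-2784, 10348) (by decide +kernel)
         (CovZ.n2 (-2786, 10346) (by decide +kernel)
          (CovZ.leaf K3_ok TY_l114 _)
          (CovZ.leaf K3_ok TY_l115 _))
         (CovZ.n1 (-2786, 10350) (by decide +kernel)
          (CovZ.leaf K3_ok TY_l116 _)
          (CovZ.leaf K3_ok TY_l117 _)))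
        (CovZ.n1 (-2788, 10344) (by decide +kernel)
         (CovZ.leaf K3_ok TY_l118 _)
         (CovZ.n1 (-2786, 10346) (by decide +kernel)
          (CovZ.leaf K3_ok TY_l119 _)
          (CovZ.leaf K3_ok TY_l120 _))))))
     (CovZ.n1 (-2792, 10360) (by decide +kernel)
      (CovZ.n2 (-2784, 10360) (by decide +kernel)
       (CovZ.n2 (-2788, 10356) (by decide +kernel)
        (CovZ.n2 (-2788, 10360) (by decide +kernel)
         (CovZ.leaf K3_ok TY_l121 _)
         (CovZ.leaf K3_ok TY_l122 _))
        (CovZ.n1 (-2784, 10356) (by decide +kernel)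
         (CovZ.n2 (-2786, 10354) (by decide +kernel)
          (CovZ.leaf K2_ok TY_l123 _)
          (CovZ.leaf K3_ok TY_l124 _))
         (CovZ.leaf K3_ok TY_l125 _)))
       (CovZ.n1 (-2788, 10364) (by decide +kernel)
        (CovZ.leaf K3_ok TY_l126 _)
        (CovZ.n1 (-2788, 10360) (by decide +kernel)
         (CovZ.leaf K3_ok TY_l127 _)
         (CovZ.leaf K3_ok TY_l128 _))))
      (CovZ.n1 (-2792, 10352) (by decide +kernel)
       (CovZ.n2 (-2796, 10356) (by decide +kernel)
        (CovZ.leaf K2_ok TY_l129 _)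
        (CovZ.n1 (-2796, 10352) (by decide +kernel)
         (CovZ.leaf K2_ok TY_l130 _)
         (CovZ.leaf K2_ok TY_l131 _)))
       (CovZ.n1 (-2788, 10356) (by decide +kernel)
        (CovZ.n2 (-2788, 10352) (by decide +kernel)
         (CovZ.n2 (-2790, 10354) (by decide +kernel)
          (CovZ.leaf K2_ok TY_l132 _)
          (CovZ.leaf K3_ok TY_l133 _))
         (CovZ.leaf K3_ok TY_l134 _))
        (CovZ.leaf K2_ok TY_l135 _)))))
    (CovZ.n1 (-2800, 10336) (by decide +kernel)
     (CovZ.n2 (-2808, 10344) (by decide +kernel)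
      (CovZ.n2 (-2800, 10344) (by decide +kernel)
       (CovZ.n2 (-2804, 10340) (by decide +kernel)
        (CovZ.n2 (-2804, 10344) (by decide +kernel)
         (CovZ.leaf K2_ok TY_l136 _)
         (CovZ.leaf K2_ok TY_l137 _))
        (CovZ.n1 (-2800, 10340) (by decide +kernel)
         (CovZ.n2 (-2802, 10338) (by decide +kernel)
          (CovZ.leaf K2_ok TY_l138 _)
          (CovZ.leaf K2_ok TY_l139 _))
         (CovZ.leaf K2_ok TY_l140 _)))
       (CovZ.n1 (-2804, 10348) (by decide +kernel)
        (CovZ.leaf K2_ok TY_l141 _)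
        (CovZ.n1 (-2804, 10344) (by decide +kernel)
         (CovZ.leaf K2_ok TY_l142 _)
         (CovZ.leaf K3_ok TY_l143 _))))
      (CovZ.n1 (-2808, 10336) (by decide +kernel)
       (CovZ.n2 (-2812, 10340) (by decide +kernel)
        (CovZ.leaf K2_ok TY_l144 _)
        (CovZ.n1 (-2812, 10336) (by decide +kernel)
         (CovZ.leaf K2_ok TY_l145 _)
         (CovZ.leaf K2_ok TY_l146 _)))
       (CovZ.n1 (-2804, 10340) (by decide +kernel)
        (CovZ.n2 (-2804, 10336) (by decide +kernel)
         (CovZ.n2 (-2806, 10338) (by decide +kernel)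
          (CovZ.leaf K3_ok TY_l147 _)
          (CovZ.leaf K3_ok TY_l148 _))
         (CovZ.leaf K3_ok TY_l149 _))
        (CovZ.leaf K3_ok TY_l150 _))))
     (CovZ.n1 (-2792, 10344) (by decide +kernel)
      (CovZ.n2 (-2792, 10336) (by decide +kernel)
       (CovZ.n2 (-2796, 10340) (by decide +kernel)
        (CovZ.n2 (-2792, 10340) (by decide +kernel)
         (CovZ.n2 (-2794, 10338) (by decide +kernel)
          (CovZ.leaf K3_ok TY_l151 _)
          (CovZ.leaf K3_ok TY_l152 _))
         (CovZ.leaf K3_ok TY_l153 _))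
        (CovZ.n1 (-2796, 10336) (by decide +kernel)
         (CovZ.leaf K2_ok TY_l154 _)
         (CovZ.n1 (-2794, 10338) (by decide +kernel)
          (CovZ.leaf K3_ok TY_l155 _)
          (CovZ.leaf K3_ok TY_l156 _))))
       (CovZ.n1 (-2788, 10340) (by decide +kernel)
        (CovZ.n2 (-2788, 10336) (by decide +kernel)
         (CovZ.n2 (-2790, 10338) (by decide +kernel)
          (CovZ.leaf K2_ok TY_l157 _)
          (CovZ.n1 (-2790, 10336) (by decide +kernel)
           (CovZ.n2 (-2791, 10337) (by decide +kernel)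
            (CovZ.leaf K3_ok TY_l158 _)
            (CovZ.leaf K2_ok TY_l159 _))
           (CovZ.leaf K3_ok TY_l160 _)))
         (CovZ.n1 (-2786, 10338) (by decide +kernel)
          (CovZ.badM (by decide +kernel))
          (CovZ.n1 (-2788, 10338) (by decide +kernel)
           (CovZ.leaf K2_ok TY_l161 _)
           (CovZ.n1 (-2787, 10337) (by decide +kernel)
            (CovZ.leaf K3_ok TY_l162 _)
            (CovZ.leaf K3_ok TY_l163 _)))))
        (CovZ.n1 (-2792, 10340) (by decide +kernel)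
         (CovZ.n2 (-2790, 10342) (by decide +kernel)
          (CovZ.leaf K2_ok TY_l164 _)
          (CovZ.leaf K3_ok TY_l165 _))
         (CovZ.n1 (-2790, 10338) (by decide +kernel)
          (CovZ.leaf K2_ok TY_l166 _)
          (CovZ.n1 (-2790, 10340) (by decide +kernel)
           (CovZ.leaf K3_ok TY_l167 _)
           (CovZ.n1 (-2791, 10339) (by decide +kernel)
            (CovZ.leaf K3_ok TY_l168 _)
            (CovZ.leaf K3_ok TY_l169 _)))))))
      (CovZ.n1 (-2800, 10344) (by decide +kernel)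
       (CovZ.n2 (-2796, 10348) (by decide +kernel)
        (CovZ.n2 (-2796, 10344) (by decide +kernel)
         (CovZ.leaf K3_ok TY_l170 _)
         (CovZ.leaf K2_ok TY_l171 _))
        (CovZ.leaf K2_ok TY_l172 _))
       (CovZ.n1 (-2796, 10340) (by decide +kernel)
        (CovZ.n2 (-2800, 10340) (by decide +kernel)
         (CovZ.leaf K2_ok TY_l173 _)
         (CovZ.leaf K3_ok TY_l174 _))
        (CovZ.n1 (-2796, 10344) (by decide +kernel)
         (CovZ.leaf K3_ok TY_l175 _)
         (CovZ.leaf K3_ok TY_l176 _))))))))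
    (CovZ.topM TY_LL 5 (by decide +kernel) (CovZ.n0 (-2800, 10352) (by decide +kernel)
    (CovZ.n2 (-2816, 10352) (by decide +kernel)
     (CovZ.n2 (-2808, 10360) (by decide +kernel)
      (CovZ.n2 (-2808, 10352) (by decide +kernel)
       (CovZ.n2 (-2812, 10356) (by decide +kernel)
        (CovZ.leaf K2_ok TY_l177 _)
        (CovZ.leaf K3_ok TY_l178 _))
       (CovZ.n1 (-2804, 10356) (by decide +kernel)
        (CovZ.n2 (-2804, 10352) (by decide +kernel)
         (CovZ.leaf K2_ok TY_l179 _)
         (CovZ.leaf K2_ok TY_l180 _))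
        (CovZ.leaf K2_ok TY_l181 _)))
      (CovZ.n1 (-2816, 10360) (by decide +kernel)
       (CovZ.n2 (-2812, 10364) (by decide +kernel)
        (CovZ.leaf K3_ok TY_l182 _)
        (CovZ.n1 (-2816, 10364) (by decide +kernel)
         (CovZ.leaf K3_ok TY_l183 _)
         (CovZ.leaf K2_ok TY_l184 _)))
       (CovZ.leaf K2_ok TY_l185 _)))
     (CovZ.n1 (-2808, 10344) (by decide +kernel)
      (CovZ.n2 (-2816, 10344) (by decide +kernel)
       (CovZ.n2 (-2812, 10348) (by decide +kernel)
        (CovZ.leaf K2_ok TY_l186 _)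
        (CovZ.leaf K2_ok TY_l187 _))
       (CovZ.n1 (-2812, 10340) (by decide +kernel)
        (CovZ.leaf K3_ok TY_l188 _)
        (CovZ.n1 (-2812, 10344) (by decide +kernel)
         (CovZ.leaf K3_ok TY_l189 _)
         (CovZ.leaf K2_ok TY_l190 _))))
      (CovZ.n1 (-2808, 10352) (by decide +kernel)
       (CovZ.n2 (-2804, 10348) (by decide +kernel)
        (CovZ.leaf K2_ok TY_l191 _)
        (CovZ.n1 (-2804, 10352) (by decide +kernel)
         (CovZ.leaf K2_ok TY_l192 _)
         (CovZ.leaf K2_ok TY_l193 _)))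
       (CovZ.n1 (-2812, 10348) (by decide +kernel)
        (CovZ.leaf K2_ok TY_l194 _)
        (CovZ.leaf K2_ok TY_l195 _)))))
    (CovZ.n1 (-2800, 10368) (by decide +kernel)
     (CovZ.n2 (-2792, 10360) (by decide +kernel)
      (CovZ.n2 (-2800, 10360) (by decide +kernel)
       (CovZ.n2 (-2796, 10364) (by decide +kernel)
        (CovZ.leaf K2_ok TY_l196 _)
        (CovZ.leaf K3_ok TY_l197 _))
       (CovZ.n1 (-2796, 10356) (by decide +kernel)
        (CovZ.leaf K3_ok TY_l198 _)
        (CovZ.leaf K2_ok TY_l199 _)))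
      (CovZ.n1 (-2792, 10368) (by decide +kernel)
       (CovZ.n2 (-2788, 10364) (by decide +kernel)
        (CovZ.leaf K2_ok TY_l200 _)
        (CovZ.leaf K2_ok TY_l201 _))
       (CovZ.n1 (-2796, 10364) (by decide +kernel)
        (CovZ.leaf K3_ok TY_l202 _)
        (CovZ.leaf K3_ok TY_l203 _))))
     (CovZ.n1 (-2808, 10360) (by decide +kernel)
      (CovZ.n2 (-2808, 10368) (by decide +kernel)
       (CovZ.leaf K3_ok TY_l204 _)
       (CovZ.n1 (-2812, 10364) (by decide +kernel)
        (CovZ.leaf K3_ok TY_l205 _)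
        (CovZ.leaf K2_ok TY_l206 _)))
      (CovZ.n1 (-2800, 10360) (by decide +kernel)
       (CovZ.n2 (-2804, 10356) (by decide +kernel)
        (CovZ.leaf K2_ok TY_l207 _)
        (CovZ.leaf K3_ok TY_l208 _))
       (CovZ.n1 (-2804, 10364) (by decide +kernel)
        (CovZ.leaf K2_ok TY_l209 _)
        (CovZ.leaf K2_ok TY_l210 _)))))))

theorem TY_s1_1 : SqZ TY_M TY_L [0, 7, 4, 3] (-2816) 10304 32 1 1 :=
  SqZ.mk (a := (-2784)) (b := (-2752)) (c := 10336) (d := 10368) (by norm_num) (by norm_num) (by norm_num) (by norm_num)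
    (CovZ.topM TY_LL 0 (by decide +kernel) (CovZ.badM (by decide +kernel)))
    (CovZ.topM TY_LL 5 (by decide +kernel) (CovZ.n0 (-2768, 10352) (by decide +kernel)
    TY_u0
    TY_u1))

theorem TY_s2_1 : SqZ TY_M TY_L [0, 7, 4, 3] (-2816) 10304 32 2 1 :=
  SqZ.mk (a := (-2752)) (b := (-2720)) (c := 10336) (d := 10368) (by norm_num) (by norm_num) (by norm_num) (by norm_num)
    (CovZ.topM TY_LL 0 (by decide +kernel) (CovZ.badM (by decide +kernel)))
    (CovZ.topM TY_LL 0 (by decide +kernel) (CovZ.badM (by decide +kernel)))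

theorem TY_s3_1 : SqZ TY_M TY_L [0, 7, 4, 3] (-2816) 10304 32 3 1 :=
  SqZ.mk (a := (-2720)) (b := (-2688)) (c := 10336) (d := 10368) (by norm_num) (by norm_num) (by norm_num) (by norm_num)
    (CovZ.topM TY_LL 0 (by decide +kernel) (CovZ.badM (by decide +kernel)))
    (CovZ.topM TY_LL 0 (by decide +kernel) (CovZ.badM (by decide +kernel)))

theorem TY_s4_1 : SqZ TY_M TY_L [0, 7, 4, 3] (-2816) 10304 32 4 1 :=
  SqZ.mk (a := (-2688)) (b := (-2656)) (c := 10336) (d := 10368) (by norm_num) (by norm_num) (by norm_num) (by norm_num)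
    (CovZ.topM TY_LL 0 (by decide +kernel) (CovZ.badM (by decide +kernel)))
    (CovZ.topM TY_LL 0 (by decide +kernel) (CovZ.badM (by decide +kernel)))

theorem TY_s5_1 : SqZ TY_M TY_L [0, 7, 4, 3] (-2816) 10304 32 5 1 :=
  SqZ.mk (a := (-2656)) (b := (-2624)) (c := 10336) (d := 10368) (by norm_num) (by norm_num) (by norm_num) (by norm_num)
    (CovZ.topM TY_LL 0 (by decide +kernel) (CovZ.badM (by decide +kernel)))
    (CovZ.topM TY_LL 0 (by decide +kernel) (CovZ.badM (by decide +kernel)))

theorem TY_s0_2 : SqZ TY_M TY_L [0, 7, 4, 3] (-2816) 10304 32 0 2 :=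
  SqZ.mk (a := (-2816)) (b := (-2784)) (c := 10368) (d := 10400) (by norm_num) (by norm_num) (by norm_num) (by norm_num)
    (CovZ.topM TY_LL 5 (by decide +kernel) (CovZ.n2 (-2800, 10384) (by decide +kernel)
    (CovZ.n2 (-2784, 10384) (by decide +kernel)
     (CovZ.n2 (-2792, 10376) (by decide +kernel)
      (CovZ.n2 (-2792, 10384) (by decide +kernel)
       (CovZ.leaf K3_ok TY_l211 _)
       (CovZ.n1 (-2796, 10380) (by decide +kernel)
        (CovZ.leaf K2_ok TY_l212 _)
        (CovZ.leaf K3_ok TY_l213 _)))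
      (CovZ.n1 (-2784, 10376) (by decide +kernel)
       (CovZ.n2 (-2788, 10372) (by decide +kernel)
        (CovZ.leaf K2_ok TY_l214 _)
        (CovZ.leaf K3_ok TY_l215 _))
       (CovZ.leaf K3_ok TY_l216 _)))
     (CovZ.n1 (-2792, 10392) (by decide +kernel)
      (CovZ.n2 (-2784, 10392) (by decide +kernel)
       (CovZ.n2 (-2788, 10388) (by decide +kernel)
        (CovZ.leaf K3_ok TY_l217 _)
        (CovZ.leaf K3_ok TY_l218 _))
       (CovZ.n1 (-2788, 10396) (by decide +kernel)
        (CovZ.leaf K2_ok TY_l219 _)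
        (CovZ.leaf K3_ok TY_l220 _)))
      (CovZ.n1 (-2792, 10384) (by decide +kernel)
       (CovZ.n2 (-2796, 10388) (by decide +kernel)
        (CovZ.leaf K3_ok TY_l221 _)
        (CovZ.leaf K3_ok TY_l222 _))
       (CovZ.n1 (-2788, 10388) (by decide +kernel)
        (CovZ.leaf K3_ok TY_l223 _)
        (CovZ.leaf K3_ok TY_l224 _)))))
    (CovZ.n1 (-2800, 10368) (by decide +kernel)
     (CovZ.n2 (-2808, 10376) (by decide +kernel)
      (CovZ.n2 (-2800, 10376) (by decide +kernel)
       (CovZ.n2 (-2804, 10372) (by decide +kernel)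
        (CovZ.leaf K3_ok TY_l225 _)
        (CovZ.leaf K3_ok TY_l226 _))
       (CovZ.n1 (-2804, 10380) (by decide +kernel)
        (CovZ.leaf K3_ok TY_l227 _)
        (CovZ.leaf K3_ok TY_l228 _)))
      (CovZ.n1 (-2808, 10368) (by decide +kernel)
       (CovZ.n2 (-2812, 10372) (by decide +kernel)
        (CovZ.leaf K3_ok TY_l229 _)
        (CovZ.leaf K3_ok TY_l230 _))
       (CovZ.n1 (-2804, 10372) (by decide +kernel)
        (CovZ.leaf K3_ok TY_l231 _)
        (CovZ.leaf K3_ok TY_l232 _))))
     (CovZ.n1 (-2792, 10376) (by decide +kernel)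
      (CovZ.n2 (-2792, 10368) (by decide +kernel)
       (CovZ.leaf K3_ok TY_l233 _)
       (CovZ.n1 (-2788, 10372) (by decide +kernel)
        (CovZ.n2 (-2788, 10368) (by decide +kernel)
         (CovZ.leaf K3_ok TY_l234 _)
         (CovZ.leaf K3_ok TY_l235 _))
        (CovZ.leaf K3_ok TY_l236 _)))
      (CovZ.n1 (-2800, 10376) (by decide +kernel)
       (CovZ.n2 (-2796, 10380) (by decide +kernel)
        (CovZ.leaf K3_ok TY_l237 _)
        (CovZ.leaf K3_ok TY_l238 _))
       (CovZ.leaf K3_ok TY_l239 _))))))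
    (CovZ.topM TY_LL 5 (by decide +kernel) (CovZ.n0 (-2800, 10384) (by decide +kernel)
    (CovZ.n2 (-2816, 10384) (by decide +kernel)
     (CovZ.n2 (-2808, 10392) (by decide +kernel)
      (CovZ.n2 (-2808, 10384) (by decide +kernel)
       (CovZ.n2 (-2812, 10388) (by decide +kernel)
        (CovZ.leaf K3_ok TY_l240 _)
        (CovZ.n1 (-2812, 10384) (by decide +kernel)
         (CovZ.leaf K2_ok TY_l241 _)
         (CovZ.leaf K2_ok TY_l242 _)))
       (CovZ.n1 (-2804, 10388) (by decide +kernel)
        (CovZ.leaf K3_ok TY_l243 _)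
        (CovZ.leaf K2_ok TY_l244 _)))
      (CovZ.n1 (-2816, 10392) (by decide +kernel)
       (CovZ.n2 (-2812, 10396) (by decide +kernel)
        (CovZ.n2 (-2812, 10392) (by decide +kernel)
         (CovZ.leaf K2_ok TY_l245 _)
         (CovZ.leaf K3_ok TY_l246 _))
        (CovZ.n1 (-2816, 10396) (by decide +kernel)
         (CovZ.leaf K2_ok TY_l247 _)
         (CovZ.leaf K2_ok TY_l248 _)))
       (CovZ.n1 (-2812, 10388) (by decide +kernel)
        (CovZ.leaf K2_ok TY_l249 _)
        (CovZ.leaf K2_ok TY_l250 _))))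
     (CovZ.n1 (-2808, 10376) (by decide +kernel)
      (CovZ.n2 (-2816, 10376) (by decide +kernel)
       (CovZ.n2 (-2812, 10380) (by decide +kernel)
        (CovZ.leaf K3_ok TY_l251 _)
        (CovZ.leaf K2_ok TY_l252 _))
       (CovZ.leaf K3_ok TY_l253 _))
      (CovZ.n1 (-2808, 10384) (by decide +kernel)
       (CovZ.leaf K3_ok TY_l254 _)
       (CovZ.n1 (-2812, 10380) (by decide +kernel)
        (CovZ.leaf K2_ok TY_l255 _)
        (CovZ.leaf K2_ok TY_l256 _)))))
    (CovZ.n1 (-2800, 10400) (by decide +kernel)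
     (CovZ.n2 (-2792, 10392) (by decide +kernel)
      (CovZ.n2 (-2800, 10392) (by decide +kernel)
       (CovZ.n2 (-2796, 10396) (by decide +kernel)
        (CovZ.leaf K3_ok TY_l257 _)
        (CovZ.leaf K2_ok TY_l258 _))
       (CovZ.leaf K2_ok TY_l259 _))
      (CovZ.n1 (-2792, 10400) (by decide +kernel)
       (CovZ.n2 (-2788, 10396) (by decide +kernel)
        (CovZ.leaf K2_ok TY_l260 _)
        (CovZ.leaf K2_ok TY_l261 _))
       (CovZ.n1 (-2796, 10396) (by decide +kernel)
        (CovZ.leaf K2_ok TY_l262 _)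
        (CovZ.leaf K2_ok TY_l263 _))))
     (CovZ.n1 (-2808, 10392) (by decide +kernel)
      (CovZ.n2 (-2808, 10400) (by decide +kernel)
       (CovZ.n2 (-2804, 10396) (by decide +kernel)
        (CovZ.leaf K2_ok TY_l264 _)
        (CovZ.leaf K2_ok TY_l265 _))
       (CovZ.n1 (-2812, 10396) (by decide +kernel)
        (CovZ.n2 (-2812, 10400) (by decide +kernel)
         (CovZ.leaf K2_ok TY_l266 _)
         (CovZ.leaf K2_ok TY_l267 _))
        (CovZ.leaf K3_ok TY_l268 _)))
      (CovZ.n1 (-2800, 10392) (by decide +kernel)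
       (CovZ.n2 (-2804, 10388) (by decide +kernel)
        (CovZ.leaf K3_ok TY_l269 _)
        (CovZ.leaf K3_ok TY_l270 _))
       (CovZ.n1 (-2804, 10396) (by decide +kernel)
        (CovZ.leaf K2_ok TY_l271 _)
        (CovZ.n1 (-2804, 10392) (by decide +kernel)
         (CovZ.leaf K2_ok TY_l272 _)
         (CovZ.leaf K2_ok TY_l273 _))))))))

theorem TY_s1_2 : SqZ TY_M TY_L [0, 7, 4, 3] (-2816) 10304 32 1 2 :=
  SqZ.mk (a := (-2784)) (b := (-2752)) (c := 10368) (d := 10400) (by norm_num) (by norm_num) (by norm_num) (by norm_num)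
    (CovZ.topM TY_LL 5 (by decide +kernel) (CovZ.n2 (-2768, 10384) (by decide +kernel)
    (CovZ.n2 (-2752, 10384) (by decide +kernel)
     (CovZ.n2 (-2760, 10376) (by decide +kernel)
      (CovZ.n2 (-2760, 10384) (by decide +kernel)
       (CovZ.n2 (-2756, 10380) (by decide +kernel)
        (CovZ.n2 (-2760, 10380) (by decide +kernel)
         (CovZ.leaf K3_ok TY_l1237 _)
         (CovZ.leaf K2_ok TY_l1238 _))
        (CovZ.n1 (-2756, 10384) (by decide +kernel)
         (CovZ.leaf K2_ok TY_l1239 _)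
         (CovZ.n1 (-2758, 10382) (by decide +kernel)
          (CovZ.leaf K2_ok TY_l1240 _)
          (CovZ.leaf K2_ok TY_l1241 _))))
       (CovZ.n1 (-2764, 10380) (by decide +kernel)
        (CovZ.n2 (-2764, 10384) (by decide +kernel)
         (CovZ.leaf K2_ok TY_l1242 _)
         (CovZ.leaf K2_ok TY_l1243 _))
        (CovZ.leaf K3_ok TY_l1244 _)))
      (CovZ.n1 (-2752, 10376) (by decide +kernel)
       (CovZ.n2 (-2756, 10372) (by decide +kernel)
        (CovZ.n2 (-2756, 10376) (by decide +kernel)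
         (CovZ.n2 (-2754, 10374) (by decide +kernel)
          (CovZ.leaf K3_ok TY_l1245 _)
          (CovZ.n1 (-2754, 10376) (by decide +kernel)
           (CovZ.leaf K3_ok TY_l1246 _)
           (CovZ.leaf K3_ok TY_l1247 _)))
         (CovZ.n1 (-2758, 10374) (by decide +kernel)
          (CovZ.leaf K3_ok TY_l1248 _)
          (CovZ.leaf K2_ok TY_l1249 _)))
        (CovZ.n1 (-2752, 10372) (by decide +kernel)
         (CovZ.n2 (-2754, 10370) (by decide +kernel)
          (CovZ.n2 (-2754, 10372) (by decide +kernel)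
           (CovZ.n2 (-2753, 10371) (by decide +kernel)
            (CovZ.leaf K2_ok TY_l1250 _)
            (CovZ.leaf K3_ok TY_l1251 _))
           (CovZ.leaf K3_ok TY_l1252 _))
          (CovZ.badM (by decide +kernel)))
         (CovZ.n1 (-2754, 10374) (by decide +kernel)
          (CovZ.n2 (-2752, 10374) (by decide +kernel)
           (CovZ.n2 (-2753, 10373) (by decide +kernel)
            (CovZ.leaf K3_ok TY_l1253 _)
            (CovZ.leaf K3_ok TY_l1254 _))
           (CovZ.leaf K3_ok TY_l1255 _))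
          (CovZ.n1 (-2754, 10372) (by decide +kernel)
           (CovZ.leaf K3_ok TY_l1256 _)
           (CovZ.leaf K3_ok TY_l1257 _)))))
       (CovZ.n1 (-2756, 10380) (by decide +kernel)
        (CovZ.n2 (-2752, 10380) (by decide +kernel)
         (CovZ.n2 (-2754, 10378) (by decide +kernel)
          (CovZ.leaf K2_ok TY_l1258 _)
          (CovZ.leaf K3_ok TY_l1259 _))
         (CovZ.n1 (-2754, 10382) (by decide +kernel)
          (CovZ.leaf K3_ok TY_l1260 _)
          (CovZ.leaf K3_ok TY_l1261 _)))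
        (CovZ.n1 (-2756, 10376) (by decide +kernel)
         (CovZ.n2 (-2758, 10378) (by decide +kernel)
          (CovZ.leaf K3_ok TY_l1262 _)
          (CovZ.leaf K3_ok TY_l1263 _))
         (CovZ.n1 (-2754, 10378) (by decide +kernel)
          (CovZ.leaf K3_ok TY_l1264 _)
          (CovZ.leaf K3_ok TY_l1265 _))))))
     (CovZ.n1 (-2760, 10392) (by decide +kernel)
      (CovZ.n2 (-2752, 10392) (by decide +kernel)
       (CovZ.n2 (-2756, 10388) (by decide +kernel)
        (CovZ.n2 (-2756, 10392) (by decide +kernel)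
         (CovZ.leaf K2_ok TY_l1266 _)
         (CovZ.leaf K3_ok TY_l1267 _))
        (CovZ.n1 (-2752, 10388) (by decide +kernel)
         (CovZ.leaf K2_ok TY_l1268 _)
         (CovZ.leaf K3_ok TY_l1269 _)))
       (CovZ.n1 (-2756, 10396) (by decide +kernel)
        (CovZ.leaf K2_ok TY_l1270 _)
        (CovZ.n1 (-2756, 10392) (by decide +kernel)
         (CovZ.leaf K3_ok TY_l1271 _)
         (CovZ.leaf K2_ok TY_l1272 _))))
      (CovZ.n1 (-2760, 10384) (by decide +kernel)
       (CovZ.n2 (-2764, 10388) (by decide +kernel)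
        (CovZ.leaf K2_ok TY_l1273 _)
        (CovZ.n1 (-2764, 10384) (by decide +kernel)
         (CovZ.leaf K3_ok TY_l1274 _)
         (CovZ.leaf K3_ok TY_l1275 _)))
       (CovZ.n1 (-2756, 10388) (by decide +kernel)
        (CovZ.n2 (-2756, 10384) (by decide +kernel)
         (CovZ.leaf K3_ok TY_l1276 _)
         (CovZ.n1 (-2754, 10386) (by decide +kernel)
          (CovZ.leaf K2_ok TY_l1277 _)
          (CovZ.leaf K3_ok TY_l1278 _)))
        (CovZ.leaf K2_ok TY_l1279 _)))))
    (CovZ.n1 (-2768, 10368) (by decide +kernel)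
     (CovZ.n2 (-2776, 10376) (by decide +kernel)
      (CovZ.n2 (-2768, 10376) (by decide +kernel)
       (CovZ.n2 (-2772, 10372) (by decide +kernel)
        (CovZ.n2 (-2772, 10376) (by decide +kernel)
         (CovZ.leaf K2_ok TY_l1280 _)
         (CovZ.n1 (-2774, 10374) (by decide +kernel)
          (CovZ.leaf K3_ok TY_l1281 _)
          (CovZ.leaf K3_ok TY_l1282 _)))
        (CovZ.n1 (-2768, 10372) (by decide +kernel)
         (CovZ.n2 (-2770, 10370) (by decide +kernel)
          (CovZ.leaf K3_ok TY_l1283 _)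
          (CovZ.leaf K3_ok TY_l1284 _))
         (CovZ.leaf K2_ok TY_l1285 _)))
       (CovZ.n1 (-2772, 10380) (by decide +kernel)
        (CovZ.leaf K2_ok TY_l1286 _)
        (CovZ.n1 (-2772, 10376) (by decide +kernel)
         (CovZ.leaf K2_ok TY_l1287 _)
         (CovZ.leaf K3_ok TY_l1288 _))))
      (CovZ.n1 (-2776, 10368) (by decide +kernel)
       (CovZ.n2 (-2780, 10372) (by decide +kernel)
        (CovZ.leaf K3_ok TY_l1289 _)
        (CovZ.n1 (-2780, 10368) (by decide +kernel)
         (CovZ.leaf K2_ok TY_l1290 _)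
         (CovZ.leaf K2_ok TY_l1291 _)))
       (CovZ.n1 (-2772, 10372) (by decide +kernel)
        (CovZ.n2 (-2772, 10368) (by decide +kernel)
         (CovZ.leaf K3_ok TY_l1292 _)
         (CovZ.leaf K3_ok TY_l1293 _))
        (CovZ.leaf K3_ok TY_l1294 _))))
     (CovZ.n1 (-2760, 10376) (by decide +kernel)
      (CovZ.n2 (-2760, 10368) (by decide +kernel)
       (CovZ.n2 (-2764, 10372) (by decide +kernel)
        (CovZ.n2 (-2760, 10372) (by decide +kernel)
         (CovZ.n2 (-2762, 10370) (by decide +kernel)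
          (CovZ.leaf K2_ok TY_l1295 _)
          (CovZ.leaf K3_ok TY_l1296 _))
         (CovZ.n1 (-2762, 10374) (by decide +kernel)
          (CovZ.leaf K3_ok TY_l1297 _)
          (CovZ.leaf K2_ok TY_l1298 _)))
        (CovZ.n1 (-2764, 10368) (by decide +kernel)
         (CovZ.n2 (-2766, 10370) (by decide +kernel)
          (CovZ.leaf K3_ok TY_l1299 _)
          (CovZ.leaf K3_ok TY_l1300 _))
         (CovZ.n1 (-2762, 10370) (by decide +kernel)
          (CovZ.leaf K3_ok TY_l1301 _)
          (CovZ.leaf K3_ok TY_l1302 _))))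
       (CovZ.n1 (-2756, 10372) (by decide +kernel)
        (CovZ.n2 (-2756, 10368) (by decide +kernel)
         (CovZ.n2 (-2758, 10370) (by decide +kernel)
          (CovZ.n2 (-2756, 10370) (by decide +kernel)
           (CovZ.leaf K3_ok TY_l1303 _)
           (CovZ.leaf K3_ok TY_l1304 _))
          (CovZ.n1 (-2758, 10368) (by decide +kernel)
           (CovZ.leaf K3_ok TY_l1305 _)
           (CovZ.leaf K3_ok TY_l1306 _)))
         (CovZ.n1 (-2754, 10370) (by decide +kernel)
          (CovZ.badM (by decide +kernel))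
          (CovZ.leaf K3_ok TY_l1307 _)))
        (CovZ.n1 (-2760, 10372) (by decide +kernel)
         (CovZ.n2 (-2758, 10374) (by decide +kernel)
          (CovZ.n2 (-2758, 10372) (by decide +kernel)
           (CovZ.leaf K3_ok TY_l1308 _)
           (CovZ.leaf K3_ok TY_l1309 _))
          (CovZ.leaf K2_ok TY_l1310 _))
         (CovZ.n1 (-2758, 10370) (by decide +kernel)
          (CovZ.n2 (-2760, 10370) (by decide +kernel)
           (CovZ.leaf K3_ok TY_l1311 _)
           (CovZ.leaf K2_ok TY_l1312 _))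
          (CovZ.leaf K3_ok TY_l1313 _)))))
      (CovZ.n1 (-2768, 10376) (by decide +kernel)
       (CovZ.n2 (-2764, 10380) (by decide +kernel)
        (CovZ.n2 (-2764, 10376) (by decide +kernel)
         (CovZ.leaf K2_ok TY_l1314 _)
         (CovZ.n1 (-2762, 10378) (by decide +kernel)
          (CovZ.leaf K3_ok TY_l1315 _)
          (CovZ.leaf K3_ok TY_l1316 _)))
        (CovZ.leaf K2_ok TY_l1317 _))
       (CovZ.n1 (-2764, 10372) (by decide +kernel)
        (CovZ.n2 (-2768, 10372) (by decide +kernel)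
         (CovZ.leaf K2_ok TY_l1318 _)
         (CovZ.leaf K2_ok TY_l1319 _))
        (CovZ.n1 (-2764, 10376) (by decide +kernel)
         (CovZ.leaf K3_ok TY_l1320 _)
         (CovZ.n1 (-2766, 10374) (by decide +kernel)
          (CovZ.leaf K2_ok TY_l1321 _)
          (CovZ.leaf K2_ok TY_l1322 _)))))))))
    (CovZ.topM TY_LL 5 (by decide +kernel) (CovZ.n0 (-2768, 10384) (by decide +kernel)
    (CovZ.n2 (-2784, 10384) (by decide +kernel)
     (CovZ.n2 (-2776, 10392) (by decide +kernel)
      (CovZ.n2 (-2776, 10384) (by decide +kernel)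
       (CovZ.n2 (-2780, 10388) (by decide +kernel)
        (CovZ.leaf K2_ok TY_l1323 _)
        (CovZ.leaf K2_ok TY_l1324 _))
       (CovZ.n1 (-2772, 10388) (by decide +kernel)
        (CovZ.n2 (-2772, 10384) (by decide +kernel)
         (CovZ.leaf K2_ok TY_l1325 _)
         (CovZ.leaf K3_ok TY_l1326 _))
        (CovZ.leaf K2_ok TY_l1327 _)))
      (CovZ.n1 (-2784, 10392) (by decide +kernel)
       (CovZ.n2 (-2780, 10396) (by decide +kernel)
        (CovZ.leaf K3_ok TY_l1328 _)
        (CovZ.leaf K3_ok TY_l1329 _))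
       (CovZ.leaf K2_ok TY_l1330 _)))
     (CovZ.n1 (-2776, 10376) (by decide +kernel)
      (CovZ.n2 (-2784, 10376) (by decide +kernel)
       (CovZ.n2 (-2780, 10380) (by decide +kernel)
        (CovZ.leaf K3_ok TY_l1331 _)
        (CovZ.leaf K2_ok TY_l1332 _))
       (CovZ.n1 (-2780, 10372) (by decide +kernel)
        (CovZ.leaf K3_ok TY_l1333 _)
        (CovZ.n1 (-2780, 10376) (by decide +kernel)
         (CovZ.leaf K3_ok TY_l1334 _)
         (CovZ.leaf K3_ok TY_l1335 _))))
      (CovZ.n1 (-2776, 10384) (by decide +kernel)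
       (CovZ.n2 (-2772, 10380) (by decide +kernel)
        (CovZ.leaf K2_ok TY_l1336 _)
        (CovZ.n1 (-2772, 10384) (by decide +kernel)
         (CovZ.leaf K3_ok TY_l1337 _)
         (CovZ.leaf K3_ok TY_l1338 _)))
       (CovZ.n1 (-2780, 10380) (by decide +kernel)
        (CovZ.leaf K3_ok TY_l1339 _)
        (CovZ.leaf K3_ok TY_l1340 _)))))
    (CovZ.n1 (-2768, 10400) (by decide +kernel)
     (CovZ.n2 (-2760, 10392) (by decide +kernel)
      (CovZ.n2 (-2768, 10392) (by decide +kernel)
       (CovZ.n2 (-2764, 10396) (by decide +kernel)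
        (CovZ.leaf K3_ok TY_l1341 _)
        (CovZ.leaf K2_ok TY_l1342 _))
       (CovZ.n1 (-2764, 10388) (by decide +kernel)
        (CovZ.leaf K3_ok TY_l1343 _)
        (CovZ.leaf K2_ok TY_l1344 _)))
      (CovZ.n1 (-2760, 10400) (by decide +kernel)
       (CovZ.n2 (-2756, 10396) (by decide +kernel)
        (CovZ.leaf K3_ok TY_l1345 _)
        (CovZ.leaf K3_ok TY_l1346 _))
       (CovZ.n1 (-2764, 10396) (by decide +kernel)
        (CovZ.leaf K3_ok TY_l1347 _)
        (CovZ.leaf K3_ok TY_l1348 _))))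
     (CovZ.n1 (-2776, 10392) (by decide +kernel)
      (CovZ.n2 (-2776, 10400) (by decide +kernel)
       (CovZ.leaf K2_ok TY_l1349 _)
       (CovZ.n1 (-2780, 10396) (by decide +kernel)
        (CovZ.leaf K3_ok TY_l1350 _)
        (CovZ.leaf K2_ok TY_l1351 _)))
      (CovZ.n1 (-2768, 10392) (by decide +kernel)
       (CovZ.n2 (-2772, 10388) (by decide +kernel)
        (CovZ.leaf K2_ok TY_l1352 _)
        (CovZ.leaf K3_ok TY_l1353 _))
       (CovZ.leaf K2_ok TY_l1354 _))))))

theorem TY_s2_2 : SqZ TY_M TY_L [0, 7, 4, 3] (-2816) 10304 32 2 2 :=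
  SqZ.mk (a := (-2752)) (b := (-2720)) (c := 10368) (d := 10400) (by norm_num) (by norm_num) (by norm_num) (by norm_num)
    (CovZ.topM TY_LL 0 (by decide +kernel) (CovZ.badM (by decide +kernel)))
    (CovZ.topM TY_LL 5 (by decide +kernel) (CovZ.n0 (-2736, 10384) (by decide +kernel)
    TY_u2
    TY_u3))

theorem TY_s3_2 : SqZ TY_M TY_L [0, 7, 4, 3] (-2816) 10304 32 3 2 :=
  SqZ.mk (a := (-2720)) (b := (-2688)) (c := 10368) (d := 10400) (by norm_num) (by norm_num) (by norm_num) (by norm_num)
    (CovZ.topM TY_LL 0 (by decide +kernel) (CovZ.badM (by decide +kernel)))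
    (CovZ.topM TY_LL 0 (by decide +kernel) (CovZ.badM (by decide +kernel)))

theorem TY_s4_2 : SqZ TY_M TY_L [0, 7, 4, 3] (-2816) 10304 32 4 2 :=
  SqZ.mk (a := (-2688)) (b := (-2656)) (c := 10368) (d := 10400) (by norm_num) (by norm_num) (by norm_num) (by norm_num)
    (CovZ.topM TY_LL 0 (by decide +kernel) (CovZ.badM (by decide +kernel)))
    (CovZ.topM TY_LL 0 (by decide +kernel) (CovZ.badM (by decide +kernel)))

theorem TY_s5_2 : SqZ TY_M TY_L [0, 7, 4, 3] (-2816) 10304 32 5 2 :=
  SqZ.mk (a := (-2656)) (b := (-2624)) (c := 10368) (d := 10400) (by norm_num) (by norm_num) (by norm_num) (by norm_num)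
    (CovZ.topM TY_LL 0 (by decide +kernel) (CovZ.badM (by decide +kernel)))
    (CovZ.topM TY_LL 0 (by decide +kernel) (CovZ.badM (by decide +kernel)))

theorem TY_s0_3 : SqZ TY_M TY_L [0, 7, 4, 3] (-2816) 10304 32 0 3 :=
  SqZ.mk (a := (-2816)) (b := (-2784)) (c := 10400) (d := 10432) (by norm_num) (by norm_num) (by norm_num) (by norm_num)
    (CovZ.topM TY_LL 5 (by decide +kernel) (CovZ.n2 (-2800, 10416) (by decide +kernel)
    (CovZ.n2 (-2784, 10416) (by decide +kernel)
     (CovZ.n2 (-2792, 10408) (by decide +kernel)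
      (CovZ.n2 (-2792, 10416) (by decide +kernel)
       (CovZ.n2 (-2788, 10412) (by decide +kernel)
        (CovZ.leaf K2_ok TY_l274 _)
        (CovZ.n1 (-2788, 10416) (by decide +kernel)
         (CovZ.leaf K3_ok TY_l275 _)
         (CovZ.leaf K2_ok TY_l276 _)))
       (CovZ.n1 (-2796, 10412) (by decide +kernel)
        (CovZ.leaf K2_ok TY_l277 _)
        (CovZ.leaf K2_ok TY_l278 _)))
      (CovZ.n1 (-2784, 10408) (by decide +kernel)
       (CovZ.n2 (-2788, 10404) (by decide +kernel)
        (CovZ.leaf K2_ok TY_l279 _)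
        (CovZ.leaf K2_ok TY_l280 _))
       (CovZ.n1 (-2788, 10412) (by decide +kernel)
        (CovZ.leaf K2_ok TY_l281 _)
        (CovZ.leaf K2_ok TY_l282 _))))
     (CovZ.n1 (-2792, 10424) (by decide +kernel)
      (CovZ.n2 (-2784, 10424) (by decide +kernel)
       (CovZ.n2 (-2788, 10420) (by decide +kernel)
        (CovZ.leaf K2_ok TY_l283 _)
        (CovZ.leaf K2_ok TY_l284 _))
       (CovZ.n1 (-2788, 10428) (by decide +kernel)
        (CovZ.leaf K3_ok TY_l285 _)
        (CovZ.n1 (-2788, 10424) (by decide +kernel)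
         (CovZ.leaf K2_ok TY_l286 _)
         (CovZ.leaf K2_ok TY_l287 _))))
      (CovZ.n1 (-2792, 10416) (by decide +kernel)
       (CovZ.n2 (-2796, 10420) (by decide +kernel)
        (CovZ.leaf K2_ok TY_l288 _)
        (CovZ.n1 (-2796, 10416) (by decide +kernel)
         (CovZ.leaf K2_ok TY_l289 _)
         (CovZ.leaf K2_ok TY_l290 _)))
       (CovZ.n1 (-2788, 10420) (by decide +kernel)
        (CovZ.n2 (-2788, 10416) (by decide +kernel)
         (CovZ.leaf K3_ok TY_l291 _)
         (CovZ.leaf K2_ok TY_l292 _))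
        (CovZ.leaf K3_ok TY_l293 _)))))
    (CovZ.n1 (-2800, 10400) (by decide +kernel)
     (CovZ.n2 (-2808, 10408) (by decide +kernel)
      (CovZ.n2 (-2800, 10408) (by decide +kernel)
       (CovZ.n2 (-2804, 10404) (by decide +kernel)
        (CovZ.leaf K2_ok TY_l294 _)
        (CovZ.leaf K2_ok TY_l295 _))
       (CovZ.n1 (-2804, 10412) (by decide +kernel)
        (CovZ.leaf K2_ok TY_l296 _)
        (CovZ.n1 (-2804, 10408) (by decide +kernel)
         (CovZ.leaf K3_ok TY_l297 _)
         (CovZ.leaf K2_ok TY_l298 _))))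
      (CovZ.n1 (-2808, 10400) (by decide +kernel)
       (CovZ.n2 (-2812, 10404) (by decide +kernel)
        (CovZ.leaf K2_ok TY_l299 _)
        (CovZ.n1 (-2812, 10400) (by decide +kernel)
         (CovZ.leaf K2_ok TY_l300 _)
         (CovZ.leaf K2_ok TY_l301 _)))
       (CovZ.n1 (-2804, 10404) (by decide +kernel)
        (CovZ.n2 (-2804, 10400) (by decide +kernel)
         (CovZ.leaf K2_ok TY_l302 _)
         (CovZ.leaf K2_ok TY_l303 _))
        (CovZ.leaf K2_ok TY_l304 _))))
     (CovZ.n1 (-2792, 10408) (by decide +kernel)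
      (CovZ.n2 (-2792, 10400) (by decide +kernel)
       (CovZ.n2 (-2796, 10404) (by decide +kernel)
        (CovZ.leaf K2_ok TY_l305 _)
        (CovZ.n1 (-2796, 10400) (by decide +kernel)
         (CovZ.leaf K2_ok TY_l306 _)
         (CovZ.leaf K2_ok TY_l307 _)))
       (CovZ.n1 (-2788, 10404) (by decide +kernel)
        (CovZ.leaf K2_ok TY_l308 _)
        (CovZ.leaf K2_ok TY_l309 _)))
      (CovZ.n1 (-2800, 10408) (by decide +kernel)
       (CovZ.n2 (-2796, 10412) (by decide +kernel)
        (CovZ.n2 (-2796, 10408) (by decide +kernel)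
         (CovZ.leaf K2_ok TY_l310 _)
         (CovZ.leaf K2_ok TY_l311 _))
        (CovZ.n1 (-2800, 10412) (by decide +kernel)
         (CovZ.leaf K2_ok TY_l312 _)
         (CovZ.leaf K3_ok TY_l313 _)))
       (CovZ.n1 (-2796, 10404) (by decide +kernel)
        (CovZ.leaf K2_ok TY_l314 _)
        (CovZ.n1 (-2796, 10408) (by decide +kernel)
         (CovZ.leaf K2_ok TY_l315 _)
         (CovZ.leaf K2_ok TY_l316 _))))))))
    (CovZ.topM TY_LL 5 (by decide +kernel) (CovZ.n0 (-2800, 10416) (by decide +kernel)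
    (CovZ.n2 (-2816, 10416) (by decide +kernel)
     (CovZ.n2 (-2808, 10424) (by decide +kernel)
      (CovZ.n2 (-2808, 10416) (by decide +kernel)
       (CovZ.n2 (-2812, 10420) (by decide +kernel)
        (CovZ.n2 (-2808, 10420) (by decide +kernel)
         (CovZ.n2 (-2810, 10418) (by decide +kernel)
          (CovZ.leaf K2_ok TY_l317 _)
          (CovZ.leaf K2_ok TY_l318 _))
         (CovZ.leaf K2_ok TY_l319 _))
        (CovZ.n1 (-2812, 10416) (by decide +kernel)
         (CovZ.leaf K2_ok TY_l320 _)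
         (CovZ.leaf K2_ok TY_l321 _)))
       (CovZ.n1 (-2804, 10420) (by decide +kernel)
        (CovZ.n2 (-2804, 10416) (by decide +kernel)
         (CovZ.leaf K2_ok TY_l322 _)
         (CovZ.leaf K2_ok TY_l323 _))
        (CovZ.n1 (-2808, 10420) (by decide +kernel)
         (CovZ.leaf K2_ok TY_l324 _)
         (CovZ.leaf K2_ok TY_l325 _))))
      (CovZ.n1 (-2816, 10424) (by decide +kernel)
       (CovZ.n2 (-2812, 10428) (by decide +kernel)
        (CovZ.n2 (-2812, 10424) (by decide +kernel)
         (CovZ.n2 (-2814, 10426) (by decide +kernel)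
          (CovZ.leaf K3_ok TY_l326 _)
          (CovZ.leaf K2_ok TY_l327 _))
         (CovZ.n1 (-2810, 10426) (by decide +kernel)
          (CovZ.leaf K2_ok TY_l328 _)
          (CovZ.leaf K2_ok TY_l329 _)))
        (CovZ.n1 (-2816, 10428) (by decide +kernel)
         (CovZ.n2 (-2814, 10430) (by decide +kernel)
          (CovZ.leaf K2_ok TY_l330 _)
          (CovZ.leaf K2_ok TY_l331 _))
         (CovZ.leaf K3_ok TY_l332 _)))
       (CovZ.n1 (-2812, 10420) (by decide +kernel)
        (CovZ.n2 (-2816, 10420) (by decide +kernel)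
         (CovZ.leaf K3_ok TY_l333 _)
         (CovZ.leaf K3_ok TY_l334 _))
        (CovZ.n1 (-2812, 10424) (by decide +kernel)
         (CovZ.leaf K3_ok TY_l335 _)
         (CovZ.n1 (-2814, 10422) (by decide +kernel)
          (CovZ.leaf K3_ok TY_l336 _)
          (CovZ.leaf K2_ok TY_l337 _))))))
     (CovZ.n1 (-2808, 10408) (by decide +kernel)
      (CovZ.n2 (-2816, 10408) (by decide +kernel)
       (CovZ.n2 (-2812, 10412) (by decide +kernel)
        (CovZ.n2 (-2812, 10408) (by decide +kernel)
         (CovZ.leaf K2_ok TY_l338 _)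
         (CovZ.leaf K2_ok TY_l339 _))
        (CovZ.n1 (-2816, 10412) (by decide +kernel)
         (CovZ.leaf K2_ok TY_l340 _)
         (CovZ.leaf K2_ok TY_l341 _)))
       (CovZ.n1 (-2812, 10404) (by decide +kernel)
        (CovZ.leaf K2_ok TY_l342 _)
        (CovZ.n1 (-2812, 10408) (by decide +kernel)
         (CovZ.leaf K2_ok TY_l343 _)
         (CovZ.leaf K2_ok TY_l344 _))))
      (CovZ.n1 (-2808, 10416) (by decide +kernel)
       (CovZ.n2 (-2804, 10412) (by decide +kernel)
        (CovZ.leaf K2_ok TY_l345 _)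
        (CovZ.leaf K3_ok TY_l346 _))
       (CovZ.n1 (-2812, 10412) (by decide +kernel)
        (CovZ.n2 (-2812, 10416) (by decide +kernel)
         (CovZ.leaf K2_ok TY_l347 _)
         (CovZ.leaf K2_ok TY_l348 _))
        (CovZ.n1 (-2808, 10412) (by decide +kernel)
         (CovZ.leaf K2_ok TY_l349 _)
         (CovZ.leaf K2_ok TY_l350 _))))))
    (CovZ.n1 (-2800, 10432) (by decide +kernel)
     (CovZ.n2 (-2792, 10424) (by decide +kernel)
      (CovZ.n2 (-2800, 10424) (by decide +kernel)
       (CovZ.n2 (-2796, 10428) (by decide +kernel)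
        (CovZ.n2 (-2796, 10424) (by decide +kernel)
         (CovZ.leaf K3_ok TY_l351 _)
         (CovZ.leaf K2_ok TY_l352 _))
        (CovZ.n1 (-2800, 10428) (by decide +kernel)
         (CovZ.leaf K2_ok TY_l353 _)
         (CovZ.leaf K2_ok TY_l354 _)))
       (CovZ.n1 (-2796, 10420) (by decide +kernel)
        (CovZ.leaf K2_ok TY_l355 _)
        (CovZ.n1 (-2796, 10424) (by decide +kernel)
         (CovZ.leaf K2_ok TY_l356 _)
         (CovZ.leaf K2_ok TY_l357 _))))
      (CovZ.n1 (-2792, 10432) (by decide +kernel)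
       (CovZ.n2 (-2788, 10428) (by decide +kernel)
        (CovZ.n2 (-2792, 10428) (by decide +kernel)
         (CovZ.leaf K3_ok TY_l358 _)
         (CovZ.leaf K3_ok TY_l359 _))
        (CovZ.leaf K3_ok TY_l360 _))
       (CovZ.n1 (-2796, 10428) (by decide +kernel)
        (CovZ.n2 (-2796, 10432) (by decide +kernel)
         (CovZ.leaf K3_ok TY_l361 _)
         (CovZ.n1 (-2798, 10430) (by decide +kernel)
          (CovZ.leaf K3_ok TY_l362 _)
          (CovZ.leaf K2_ok TY_l363 _)))
        (CovZ.n1 (-2792, 10428) (by decide +kernel)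
         (CovZ.leaf K2_ok TY_l364 _)
         (CovZ.leaf K3_ok TY_l365 _)))))
     (CovZ.n1 (-2808, 10424) (by decide +kernel)
      (CovZ.n2 (-2808, 10432) (by decide +kernel)
       (CovZ.n2 (-2804, 10428) (by decide +kernel)
        (CovZ.n2 (-2808, 10428) (by decide +kernel)
         (CovZ.leaf K2_ok TY_l366 _)
         (CovZ.leaf K2_ok TY_l367 _))
        (CovZ.n1 (-2804, 10432) (by decide +kernel)
         (CovZ.leaf K2_ok TY_l368 _)
         (CovZ.n1 (-2806, 10430) (by decide +kernel)
          (CovZ.leaf K2_ok TY_l369 _)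
          (CovZ.leaf K2_ok TY_l370 _))))
       (CovZ.n1 (-2812, 10428) (by decide +kernel)
        (CovZ.n2 (-2812, 10432) (by decide +kernel)
         (CovZ.leaf K2_ok TY_l371 _)
         (CovZ.n1 (-2814, 10430) (by decide +kernel)
          (CovZ.leaf K3_ok TY_l372 _)
          (CovZ.leaf K3_ok TY_l373 _)))
        (CovZ.n1 (-2808, 10428) (by decide +kernel)
         (CovZ.n2 (-2810, 10426) (by decide +kernel)
          (CovZ.leaf K2_ok TY_l374 _)
          (CovZ.leaf K3_ok TY_l375 _))
         (CovZ.n1 (-2810, 10430) (by decide +kernel)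
          (CovZ.leaf K3_ok TY_l376 _)
          (CovZ.leaf K3_ok TY_l377 _)))))
      (CovZ.n1 (-2800, 10424) (by decide +kernel)
       (CovZ.n2 (-2804, 10420) (by decide +kernel)
        (CovZ.n2 (-2804, 10424) (by decide +kernel)
         (CovZ.leaf K2_ok TY_l378 _)
         (CovZ.leaf K3_ok TY_l379 _))
        (CovZ.n1 (-2800, 10420) (by decide +kernel)
         (CovZ.leaf K2_ok TY_l380 _)
         (CovZ.leaf K2_ok TY_l381 _)))
       (CovZ.n1 (-2804, 10428) (by decide +kernel)
        (CovZ.n2 (-2800, 10428) (by decide +kernel)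
         (CovZ.n2 (-2802, 10426) (by decide +kernel)
          (CovZ.leaf K3_ok TY_l382 _)
          (CovZ.leaf K3_ok TY_l383 _))
         (CovZ.leaf K3_ok TY_l384 _))
        (CovZ.n1 (-2804, 10424) (by decide +kernel)
         (CovZ.leaf K2_ok TY_l385 _)
         (CovZ.leaf K2_ok TY_l386 _))))))))

theorem TY_s1_3 : SqZ TY_M TY_L [0, 7, 4, 3] (-2816) 10304 32 1 3 :=
  SqZ.mk (a := (-2784)) (b := (-2752)) (c := 10400) (d := 10432) (by norm_num) (by norm_num) (by norm_num) (by norm_num)
    (CovZ.topM TY_LL 5 (by decide +kernel) (CovZ.n2 (-2768, 10416) (by decide +kernel)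
    (CovZ.n2 (-2752, 10416) (by decide +kernel)
     (CovZ.n2 (-2760, 10408) (by decide +kernel)
      (CovZ.n2 (-2760, 10416) (by decide +kernel)
       (CovZ.leaf K3_ok TY_l1355 _)
       (CovZ.n1 (-2764, 10412) (by decide +kernel)
        (CovZ.leaf K2_ok TY_l1356 _)
        (CovZ.leaf K3_ok TY_l1357 _)))
      (CovZ.n1 (-2752, 10408) (by decide +kernel)
       (CovZ.n2 (-2756, 10404) (by decide +kernel)
        (CovZ.leaf K3_ok TY_l1358 _)
        (CovZ.leaf K3_ok TY_l1359 _))
       (CovZ.n1 (-2756, 10412) (by decide +kernel)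
        (CovZ.leaf K3_ok TY_l1360 _)
        (CovZ.leaf K3_ok TY_l1361 _))))
     (CovZ.n1 (-2760, 10424) (by decide +kernel)
      (CovZ.n2 (-2752, 10424) (by decide +kernel)
       (CovZ.n2 (-2756, 10420) (by decide +kernel)
        (CovZ.leaf K3_ok TY_l1362 _)
        (CovZ.leaf K3_ok TY_l1363 _))
       (CovZ.n1 (-2756, 10428) (by decide +kernel)
        (CovZ.leaf K2_ok TY_l1364 _)
        (CovZ.leaf K2_ok TY_l1365 _)))
      (CovZ.n1 (-2760, 10416) (by decide +kernel)
       (CovZ.n2 (-2764, 10420) (by decide +kernel)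
        (CovZ.leaf K3_ok TY_l1366 _)
        (CovZ.leaf K2_ok TY_l1367 _))
       (CovZ.n1 (-2756, 10420) (by decide +kernel)
        (CovZ.leaf K3_ok TY_l1368 _)
        (CovZ.leaf K3_ok TY_l1369 _)))))
    (CovZ.n1 (-2768, 10400) (by decide +kernel)
     (CovZ.n2 (-2776, 10408) (by decide +kernel)
      (CovZ.n2 (-2768, 10408) (by decide +kernel)
       (CovZ.n2 (-2772, 10404) (by decide +kernel)
        (CovZ.leaf K2_ok TY_l1370 _)
        (CovZ.leaf K3_ok TY_l1371 _))
       (CovZ.n1 (-2772, 10412) (by decide +kernel)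
        (CovZ.leaf K3_ok TY_l1372 _)
        (CovZ.leaf K2_ok TY_l1373 _)))
      (CovZ.n1 (-2776, 10400) (by decide +kernel)
       (CovZ.n2 (-2780, 10404) (by decide +kernel)
        (CovZ.leaf K2_ok TY_l1374 _)
        (CovZ.n1 (-2780, 10400) (by decide +kernel)
         (CovZ.leaf K2_ok TY_l1375 _)
         (CovZ.leaf K2_ok TY_l1376 _)))
       (CovZ.n1 (-2772, 10404) (by decide +kernel)
        (CovZ.leaf K3_ok TY_l1377 _)
        (CovZ.leaf K3_ok TY_l1378 _))))
     (CovZ.n1 (-2760, 10408) (by decide +kernel)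
      (CovZ.n2 (-2760, 10400) (by decide +kernel)
       (CovZ.n2 (-2764, 10404) (by decide +kernel)
        (CovZ.leaf K2_ok TY_l1379 _)
        (CovZ.leaf K3_ok TY_l1380 _))
       (CovZ.n1 (-2756, 10404) (by decide +kernel)
        (CovZ.n2 (-2756, 10400) (by decide +kernel)
         (CovZ.leaf K3_ok TY_l1381 _)
         (CovZ.leaf K2_ok TY_l1382 _))
        (CovZ.leaf K3_ok TY_l1383 _)))
      (CovZ.n1 (-2768, 10408) (by decide +kernel)
       (CovZ.n2 (-2764, 10412) (by decide +kernel)
        (CovZ.leaf K2_ok TY_l1384 _)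
        (CovZ.leaf K2_ok TY_l1385 _))
       (CovZ.leaf K2_ok TY_l1386 _))))))
    (CovZ.topM TY_LL 5 (by decide +kernel) (CovZ.n0 (-2768, 10416) (by decide +kernel)
    (CovZ.n2 (-2784, 10416) (by decide +kernel)
     (CovZ.n2 (-2776, 10424) (by decide +kernel)
      (CovZ.n2 (-2776, 10416) (by decide +kernel)
       (CovZ.n2 (-2780, 10420) (by decide +kernel)
        (CovZ.n2 (-2776, 10420) (by decide +kernel)
         (CovZ.leaf K2_ok TY_l1387 _)
         (CovZ.leaf K2_ok TY_l1388 _))
        (CovZ.n1 (-2780, 10416) (by decide +kernel)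
         (CovZ.leaf K3_ok TY_l1389 _)
         (CovZ.leaf K2_ok TY_l1390 _)))
       (CovZ.n1 (-2772, 10420) (by decide +kernel)
        (CovZ.leaf K2_ok TY_l1391 _)
        (CovZ.leaf K3_ok TY_l1392 _)))
      (CovZ.n1 (-2784, 10424) (by decide +kernel)
       (CovZ.n2 (-2780, 10428) (by decide +kernel)
        (CovZ.n2 (-2780, 10424) (by decide +kernel)
         (CovZ.leaf K3_ok TY_l1393 _)
         (CovZ.leaf K3_ok TY_l1394 _))
        (CovZ.leaf K2_ok TY_l1395 _))
       (CovZ.n1 (-2780, 10420) (by decide +kernel)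
        (CovZ.leaf K3_ok TY_l1396 _)
        (CovZ.leaf K2_ok TY_l1397 _))))
     (CovZ.n1 (-2776, 10408) (by decide +kernel)
      (CovZ.n2 (-2784, 10408) (by decide +kernel)
       (CovZ.n2 (-2780, 10412) (by decide +kernel)
        (CovZ.n2 (-2780, 10408) (by decide +kernel)
         (CovZ.leaf K2_ok TY_l1398 _)
         (CovZ.leaf K2_ok TY_l1399 _))
        (CovZ.leaf K2_ok TY_l1400 _))
       (CovZ.n1 (-2780, 10404) (by decide +kernel)
        (CovZ.leaf K2_ok TY_l1401 _)
        (CovZ.leaf K2_ok TY_l1402 _)))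
      (CovZ.n1 (-2776, 10416) (by decide +kernel)
       (CovZ.n2 (-2772, 10412) (by decide +kernel)
        (CovZ.leaf K2_ok TY_l1403 _)
        (CovZ.leaf K2_ok TY_l1404 _))
       (CovZ.n1 (-2780, 10412) (by decide +kernel)
        (CovZ.leaf K3_ok TY_l1405 _)
        (CovZ.leaf K3_ok TY_l1406 _)))))
    (CovZ.n1 (-2768, 10432) (by decide +kernel)
     (CovZ.n2 (-2760, 10424) (by decide +kernel)
      (CovZ.n2 (-2768, 10424) (by decide +kernel)
       (CovZ.n2 (-2764, 10428) (by decide +kernel)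
        (CovZ.leaf K2_ok TY_l1407 _)
        (CovZ.leaf K3_ok TY_l1408 _))
       (CovZ.n1 (-2764, 10420) (by decide +kernel)
        (CovZ.leaf K3_ok TY_l1409 _)
        (CovZ.leaf K3_ok TY_l1410 _)))
      (CovZ.n1 (-2760, 10432) (by decide +kernel)
       (CovZ.leaf K3_ok TY_l1411 _)
       (CovZ.n1 (-2764, 10428) (by decide +kernel)
        (CovZ.leaf K3_ok TY_l1412 _)
        (CovZ.leaf K2_ok TY_l1413 _))))
     (CovZ.n1 (-2776, 10424) (by decide +kernel)
      (CovZ.n2 (-2776, 10432) (by decide +kernel)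
       (CovZ.n2 (-2772, 10428) (by decide +kernel)
        (CovZ.leaf K2_ok TY_l1414 _)
        (CovZ.leaf K2_ok TY_l1415 _))
       (CovZ.n1 (-2780, 10428) (by decide +kernel)
        (CovZ.leaf K2_ok TY_l1416 _)
        (CovZ.n1 (-2776, 10428) (by decide +kernel)
         (CovZ.leaf K3_ok TY_l1417 _)
         (CovZ.leaf K2_ok TY_l1418 _))))
      (CovZ.n1 (-2768, 10424) (by decide +kernel)
       (CovZ.n2 (-2772, 10420) (by decide +kernel)
        (CovZ.leaf K3_ok TY_l1419 _)
        (CovZ.leaf K3_ok TY_l1420 _))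
       (CovZ.n1 (-2772, 10428) (by decide +kernel)
        (CovZ.leaf K3_ok TY_l1421 _)
        (CovZ.n1 (-2772, 10424) (by decide +kernel)
         (CovZ.leaf K2_ok TY_l1422 _)
         (CovZ.leaf K3_ok TY_l1423 _))))))))

theorem TY_s2_3 : SqZ TY_M TY_L [0, 7, 4, 3] (-2816) 10304 32 2 3 :=
  SqZ.mk (a := (-2752)) (b := (-2720)) (c := 10400) (d := 10432) (by norm_num) (by norm_num) (by norm_num) (by norm_num)
    (CovZ.topM TY_LL 7 (by decide +kernel) (CovZ.n2 (-2736, 10416) (by decide +kernel)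
    (CovZ.n2 (-2720, 10416) (by decide +kernel)
     (CovZ.n2 (-2728, 10408) (by decide +kernel)
      (CovZ.n2 (-2728, 10416) (by decide +kernel)
       (CovZ.n2 (-2724, 10412) (by decide +kernel)
        (CovZ.n2 (-2728, 10412) (by decide +kernel)
         (CovZ.leaf K3_ok TY_l2399 _)
         (CovZ.leaf K3_ok TY_l2400 _))
        (CovZ.n1 (-2724, 10416) (by decide +kernel)
         (CovZ.leaf K3_ok TY_l2401 _)
         (CovZ.n1 (-2726, 10414) (by decide +kernel)
          (CovZ.leaf K3_ok TY_l2402 _)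
          (CovZ.leaf K3_ok TY_l2403 _))))
       (CovZ.n1 (-2732, 10412) (by decide +kernel)
        (CovZ.n2 (-2732, 10416) (by decide +kernel)
         (CovZ.leaf K3_ok TY_l2404 _)
         (CovZ.leaf K2_ok TY_l2405 _))
        (CovZ.n1 (-2728, 10412) (by decide +kernel)
         (CovZ.n2 (-2730, 10410) (by decide +kernel)
          (CovZ.leaf K3_ok TY_l2406 _)
          (CovZ.leaf K2_ok TY_l2407 _))
         (CovZ.leaf K2_ok TY_l2408 _))))
      (CovZ.n1 (-2720, 10408) (by decide +kernel)
       (CovZ.n2 (-2724, 10404) (by decide +kernel)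
        (CovZ.n2 (-2724, 10408) (by decide +kernel)
         (CovZ.n2 (-2722, 10406) (by decide +kernel)
          (CovZ.n2 (-2724, 10406) (by decide +kernel)
           (CovZ.leaf K2_ok TY_l2409 _)
           (CovZ.leaf K3_ok TY_l2410 _))
          (CovZ.n1 (-2722, 10408) (by decide +kernel)
           (CovZ.leaf K3_ok TY_l2411 _)
           (CovZ.leaf K2_ok TY_l2412 _)))
         (CovZ.n1 (-2726, 10406) (by decide +kernel)
          (CovZ.leaf K3_ok TY_l2413 _)
          (CovZ.n1 (-2724, 10406) (by decide +kernel)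
           (CovZ.leaf K3_ok TY_l2414 _)
           (CovZ.leaf K3_ok TY_l2415 _))))
        (CovZ.n1 (-2720, 10404) (by decide +kernel)
         (CovZ.n2 (-2722, 10402) (by decide +kernel)
          (CovZ.n2 (-2722, 10404) (by decide +kernel)
           (CovZ.n2 (-2721, 10403) (by decide +kernel)
            (CovZ.badM (by decide +kernel))
            (CovZ.n1 (-2721, 10404) (by decide +kernel)
             (CovZ.leaf K3_ok TY_l2416 _)
             (CovZ.badM (by decide +kernel))))
           (CovZ.n1 (-2723, 10403) (by decide +kernel)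
            (CovZ.leaf K3_ok TY_l2417 _)
            (CovZ.badM (by decide +kernel))))
          (CovZ.n1 (-2720, 10402) (by decide +kernel)
           (CovZ.badM (by decide +kernel))
           (CovZ.leaf K3_ok TY_l2418 _)))
         (CovZ.n1 (-2722, 10406) (by decide +kernel)
          (CovZ.n2 (-2720, 10406) (by decide +kernel)
           (CovZ.n2 (-2721, 10405) (by decide +kernel)
            (CovZ.leaf K3_ok TY_l2419 _)
            (CovZ.leaf K2_ok TY_l2420 _))
           (CovZ.leaf K3_ok TY_l2421 _))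
          (CovZ.n1 (-2722, 10404) (by decide +kernel)
           (CovZ.leaf K3_ok TY_l2422 _)
           (CovZ.n1 (-2721, 10405) (by decide +kernel)
            (CovZ.leaf K3_ok TY_l2423 _)
            (CovZ.leaf K2_ok TY_l2424 _))))))
       (CovZ.n1 (-2724, 10412) (by decide +kernel)
        (CovZ.n2 (-2720, 10412) (by decide +kernel)
         (CovZ.n2 (-2722, 10410) (by decide +kernel)
          (CovZ.leaf K3_ok TY_l2425 _)
          (CovZ.n1 (-2720, 10410) (by decide +kernel)
           (CovZ.n2 (-2721, 10409) (by decide +kernel)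
            (CovZ.leaf K3_ok TY_l2426 _)
            (CovZ.leaf K3_ok TY_l2427 _))
           (CovZ.leaf K3_ok TY_l2428 _)))
         (CovZ.n1 (-2722, 10414) (by decide +kernel)
          (CovZ.leaf K3_ok TY_l2429 _)
          (CovZ.leaf K2_ok TY_l2430 _)))
        (CovZ.n1 (-2724, 10408) (by decide +kernel)
         (CovZ.n2 (-2726, 10410) (by decide +kernel)
          (CovZ.n2 (-2724, 10410) (by decide +kernel)
           (CovZ.leaf K2_ok TY_l2431 _)
           (CovZ.leaf K3_ok TY_l2432 _))
          (CovZ.n1 (-2726, 10408) (by decide +kernel)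
           (CovZ.leaf K3_ok TY_l2433 _)
           (CovZ.leaf K3_ok TY_l2434 _)))
         (CovZ.n1 (-2722, 10410) (by decide +kernel)
          (CovZ.n2 (-2722, 10408) (by decide +kernel)
           (CovZ.leaf K2_ok TY_l2435 _)
           (CovZ.leaf K3_ok TY_l2436 _))
          (CovZ.leaf K3_ok TY_l2437 _))))))
     (CovZ.n1 (-2728, 10424) (by decide +kernel)
      (CovZ.n2 (-2720, 10424) (by decide +kernel)
       (CovZ.n2 (-2724, 10420) (by decide +kernel)
        (CovZ.n2 (-2724, 10424) (by decide +kernel)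
         (CovZ.leaf K3_ok TY_l2438 _)
         (CovZ.n1 (-2726, 10422) (by decide +kernel)
          (CovZ.leaf K3_ok TY_l2439 _)
          (CovZ.leaf K3_ok TY_l2440 _)))
        (CovZ.n1 (-2720, 10420) (by decide +kernel)
         (CovZ.n2 (-2722, 10418) (by decide +kernel)
          (CovZ.leaf K2_ok TY_l2441 _)
          (CovZ.leaf K3_ok TY_l2442 _))
         (CovZ.leaf K3_ok TY_l2443 _)))
       (CovZ.n1 (-2724, 10428) (by decide +kernel)
        (CovZ.leaf K3_ok TY_l2444 _)
        (CovZ.n1 (-2724, 10424) (by decide +kernel)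
         (CovZ.leaf K3_ok TY_l2445 _)
         (CovZ.leaf K2_ok TY_l2446 _))))
      (CovZ.n1 (-2728, 10416) (by decide +kernel)
       (CovZ.n2 (-2732, 10420) (by decide +kernel)
        (CovZ.leaf K3_ok TY_l2447 _)
        (CovZ.n1 (-2732, 10416) (by decide +kernel)
         (CovZ.leaf K3_ok TY_l2448 _)
         (CovZ.leaf K3_ok TY_l2449 _)))
       (CovZ.n1 (-2724, 10420) (by decide +kernel)
        (CovZ.n2 (-2724, 10416) (by decide +kernel)
         (CovZ.leaf K2_ok TY_l2450 _)
         (CovZ.n1 (-2722, 10418) (by decide +kernel)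
          (CovZ.leaf K3_ok TY_l2451 _)
          (CovZ.leaf K3_ok TY_l2452 _)))
        (CovZ.leaf K3_ok TY_l2453 _)))))
    (CovZ.n1 (-2736, 10400) (by decide +kernel)
     (CovZ.n2 (-2744, 10408) (by decide +kernel)
      (CovZ.n2 (-2736, 10408) (by decide +kernel)
       (CovZ.n2 (-2740, 10404) (by decide +kernel)
        (CovZ.n2 (-2740, 10408) (by decide +kernel)
         (CovZ.leaf K3_ok TY_l2454 _)
         (CovZ.leaf K3_ok TY_l2455 _))
        (CovZ.n1 (-2736, 10404) (by decide +kernel)
         (CovZ.n2 (-2738, 10402) (by decide +kernel)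
          (CovZ.leaf K2_ok TY_l2456 _)
          (CovZ.leaf K2_ok TY_l2457 _))
         (CovZ.leaf K3_ok TY_l2458 _)))
       (CovZ.n1 (-2740, 10412) (by decide +kernel)
        (CovZ.leaf K3_ok TY_l2459 _)
        (CovZ.n1 (-2740, 10408) (by decide +kernel)
         (CovZ.leaf K2_ok TY_l2460 _)
         (CovZ.leaf K3_ok TY_l2461 _))))
      (CovZ.n1 (-2744, 10400) (by decide +kernel)
       (CovZ.n2 (-2748, 10404) (by decide +kernel)
        (CovZ.leaf K2_ok TY_l2462 _)
        (CovZ.n1 (-2748, 10400) (by decide +kernel)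
         (CovZ.leaf K3_ok TY_l2463 _)
         (CovZ.leaf K2_ok TY_l2464 _)))
       (CovZ.n1 (-2740, 10404) (by decide +kernel)
        (CovZ.n2 (-2740, 10400) (by decide +kernel)
         (CovZ.leaf K3_ok TY_l2465 _)
         (CovZ.leaf K3_ok TY_l2466 _))
        (CovZ.n1 (-2744, 10404) (by decide +kernel)
         (CovZ.leaf K2_ok TY_l2467 _)
         (CovZ.leaf K2_ok TY_l2468 _)))))
     (CovZ.n1 (-2728, 10408) (by decide +kernel)
      (CovZ.n2 (-2728, 10400) (by decide +kernel)
       (CovZ.n2 (-2732, 10404) (by decide +kernel)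
        (CovZ.n2 (-2728, 10404) (by decide +kernel)
         (CovZ.n2 (-2730, 10402) (by decide +kernel)
          (CovZ.leaf K3_ok TY_l2469 _)
          (CovZ.n1 (-2728, 10402) (by decide +kernel)
           (CovZ.leaf K3_ok TY_l2470 _)
           (CovZ.leaf K3_ok TY_l2471 _)))
         (CovZ.leaf K2_ok TY_l2472 _))
        (CovZ.n1 (-2732, 10400) (by decide +kernel)
         (CovZ.leaf K3_ok TY_l2473 _)
         (CovZ.n1 (-2730, 10402) (by decide +kernel)
          (CovZ.n2 (-2730, 10400) (by decide +kernel)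
           (CovZ.leaf K3_ok TY_l2474 _)
           (CovZ.leaf K3_ok TY_l2475 _))
          (CovZ.leaf K3_ok TY_l2476 _))))
       (CovZ.n1 (-2724, 10404) (by decide +kernel)
        (CovZ.n2 (-2724, 10400) (by decide +kernel)
         (CovZ.n2 (-2726, 10402) (by decide +kernel)
          (CovZ.n2 (-2724, 10402) (by decide +kernel)
           (CovZ.n2 (-2725, 10401) (by decide +kernel)
            (CovZ.leaf K3_ok TY_l2477 _)
            (CovZ.badM (by decide +kernel)))
           (CovZ.leaf K2_ok TY_l2478 _))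
          (CovZ.n1 (-2726, 10400) (by decide +kernel)
           (CovZ.leaf K3_ok TY_l2479 _)
           (CovZ.leaf K2_ok TY_l2480 _)))
         (CovZ.n1 (-2722, 10402) (by decide +kernel)
          (CovZ.badM (by decide +kernel))
          (CovZ.n1 (-2724, 10402) (by decide +kernel)
           (CovZ.n2 (-2723, 10403) (by decide +kernel)
            (CovZ.badM (by decide +kernel))
            (CovZ.leaf K2_ok TY_l2481 _))
           (CovZ.badM (by decide +kernel)))))
        (CovZ.n1 (-2728, 10404) (by decide +kernel)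
         (CovZ.n2 (-2726, 10406) (by decide +kernel)
          (CovZ.n2 (-2726, 10404) (by decide +kernel)
           (CovZ.leaf K3_ok TY_l2482 _)
           (CovZ.leaf K3_ok TY_l2483 _))
          (CovZ.leaf K2_ok TY_l2484 _))
         (CovZ.n1 (-2726, 10402) (by decide +kernel)
          (CovZ.leaf K3_ok TY_l2485 _)
          (CovZ.leaf K2_ok TY_l2486 _)))))
      (CovZ.n1 (-2736, 10408) (by decide +kernel)
       (CovZ.n2 (-2732, 10412) (by decide +kernel)
        (CovZ.n2 (-2732, 10408) (by decide +kernel)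
         (CovZ.leaf K3_ok TY_l2487 _)
         (CovZ.n1 (-2730, 10410) (by decide +kernel)
          (CovZ.leaf K3_ok TY_l2488 _)
          (CovZ.leaf K3_ok TY_l2489 _)))
        (CovZ.leaf K3_ok TY_l2490 _))
       (CovZ.n1 (-2732, 10404) (by decide +kernel)
        (CovZ.n2 (-2736, 10404) (by decide +kernel)
         (CovZ.n2 (-2734, 10406) (by decide +kernel)
          (CovZ.leaf K3_ok TY_l2491 _)
          (CovZ.leaf K3_ok TY_l2492 _))
         (CovZ.leaf K3_ok TY_l2493 _))
        (CovZ.n1 (-2732, 10408) (by decide +kernel)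
         (CovZ.n2 (-2730, 10406) (by decide +kernel)
          (CovZ.leaf K3_ok TY_l2494 _)
          (CovZ.leaf K3_ok TY_l2495 _))
         (CovZ.n1 (-2734, 10406) (by decide +kernel)
          (CovZ.leaf K3_ok TY_l2496 _)
          (CovZ.leaf K3_ok TY_l2497 _)))))))))
    (CovZ.topM TY_LL 7 (by decide +kernel) (CovZ.n0 (-2736, 10416) (by decide +kernel)
    (CovZ.n2 (-2752, 10416) (by decide +kernel)
     (CovZ.n2 (-2744, 10424) (by decide +kernel)
      (CovZ.n2 (-2744, 10416) (by decide +kernel)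
       (CovZ.n2 (-2748, 10420) (by decide +kernel)
        (CovZ.leaf K3_ok TY_l2498 _)
        (CovZ.leaf K3_ok TY_l2499 _))
       (CovZ.n1 (-2740, 10420) (by decide +kernel)
        (CovZ.leaf K3_ok TY_l2500 _)
        (CovZ.leaf K3_ok TY_l2501 _)))
      (CovZ.n1 (-2752, 10424) (by decide +kernel)
       (CovZ.n2 (-2748, 10428) (by decide +kernel)
        (CovZ.leaf K3_ok TY_l2502 _)
        (CovZ.leaf K2_ok TY_l2503 _))
       (CovZ.leaf K2_ok TY_l2504 _)))
     (CovZ.n1 (-2744, 10408) (by decide +kernel)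
      (CovZ.n2 (-2752, 10408) (by decide +kernel)
       (CovZ.n2 (-2748, 10412) (by decide +kernel)
        (CovZ.leaf K3_ok TY_l2505 _)
        (CovZ.leaf K3_ok TY_l2506 _))
       (CovZ.n1 (-2748, 10404) (by decide +kernel)
        (CovZ.leaf K3_ok TY_l2507 _)
        (CovZ.leaf K2_ok TY_l2508 _)))
      (CovZ.n1 (-2744, 10416) (by decide +kernel)
       (CovZ.n2 (-2740, 10412) (by decide +kernel)
        (CovZ.leaf K3_ok TY_l2509 _)
        (CovZ.leaf K3_ok TY_l2510 _))
       (CovZ.n1 (-2748, 10412) (by decide +kernel)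
        (CovZ.leaf K2_ok TY_l2511 _)
        (CovZ.leaf K3_ok TY_l2512 _)))))
    (CovZ.n1 (-2736, 10432) (by decide +kernel)
     (CovZ.n2 (-2728, 10424) (by decide +kernel)
      (CovZ.n2 (-2736, 10424) (by decide +kernel)
       (CovZ.n2 (-2732, 10428) (by decide +kernel)
        (CovZ.n2 (-2732, 10424) (by decide +kernel)
         (CovZ.leaf K3_ok TY_l2513 _)
         (CovZ.leaf K2_ok TY_l2514 _))
        (CovZ.leaf K3_ok TY_l2515 _))
       (CovZ.n1 (-2732, 10420) (by decide +kernel)
        (CovZ.leaf K3_ok TY_l2516 _)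
        (CovZ.leaf K2_ok TY_l2517 _)))
      (CovZ.n1 (-2728, 10432) (by decide +kernel)
       (CovZ.n2 (-2724, 10428) (by decide +kernel)
        (CovZ.leaf K3_ok TY_l2518 _)
        (CovZ.leaf K3_ok TY_l2519 _))
       (CovZ.n1 (-2732, 10428) (by decide +kernel)
        (CovZ.leaf K3_ok TY_l2520 _)
        (CovZ.leaf K2_ok TY_l2521 _))))
     (CovZ.n1 (-2744, 10424) (by decide +kernel)
      (CovZ.n2 (-2744, 10432) (by decide +kernel)
       (CovZ.leaf K2_ok TY_l2522 _)
       (CovZ.n1 (-2748, 10428) (by decide +kernel)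
        (CovZ.leaf K3_ok TY_l2523 _)
        (CovZ.leaf K3_ok TY_l2524 _)))
      (CovZ.n1 (-2736, 10424) (by decide +kernel)
       (CovZ.n2 (-2740, 10420) (by decide +kernel)
        (CovZ.leaf K2_ok TY_l2525 _)
        (CovZ.leaf K3_ok TY_l2526 _))
       (CovZ.n1 (-2740, 10428) (by decide +kernel)
        (CovZ.leaf K2_ok TY_l2527 _)
        (CovZ.leaf K3_ok TY_l2528 _)))))))

theorem TY_s3_3 : SqZ TY_M TY_L [0, 7, 4, 3] (-2816) 10304 32 3 3 :=
  SqZ.mk (a := (-2720)) (b := (-2688)) (c := 10400) (d := 10432) (by norm_num) (by norm_num) (by norm_num) (by norm_num)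
    (CovZ.topM TY_LL 0 (by decide +kernel) (CovZ.badM (by decide +kernel)))
    (CovZ.topM TY_LL 7 (by decide +kernel) (CovZ.n0 (-2704, 10416) (by decide +kernel)
    (CovZ.n2 (-2720, 10416) (by decide +kernel)
     TY_u4
     TY_u5)
    (CovZ.n1 (-2704, 10432) (by decide +kernel)
     TY_u6
     TY_u7)))

theorem TY_s4_3 : SqZ TY_M TY_L [0, 7, 4, 3] (-2816) 10304 32 4 3 :=
  SqZ.mk (a := (-2688)) (b := (-2656)) (c := 10400) (d := 10432) (by norm_num) (by norm_num) (by norm_num) (by norm_num)
    (CovZ.topM TY_LL 0 (by decide +kernel) (CovZ.badM (by decide +kernel)))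
    (CovZ.topM TY_LL 0 (by decide +kernel) (CovZ.badM (by decide +kernel)))

theorem TY_s5_3 : SqZ TY_M TY_L [0, 7, 4, 3] (-2816) 10304 32 5 3 :=
  SqZ.mk (a := (-2656)) (b := (-2624)) (c := 10400) (d := 10432) (by norm_num) (by norm_num) (by norm_num) (by norm_num)
    (CovZ.topM TY_LL 0 (by decide +kernel) (CovZ.badM (by decide +kernel)))
    (CovZ.topM TY_LL 0 (by decide +kernel) (CovZ.badM (by decide +kernel)))

theorem TY_s0_4 : SqZ TY_M TY_L [0, 7, 4, 3] (-2816) 10304 32 0 4 :=
  SqZ.mk (a := (-2816)) (b := (-2784)) (c := 10432) (d := 10464) (by norm_num) (by norm_num) (by norm_num) (by norm_num)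
    (CovZ.topM TY_LL 5 (by decide +kernel) (CovZ.n2 (-2800, 10448) (by decide +kernel)
    (CovZ.n2 (-2784, 10448) (by decide +kernel)
     (CovZ.n2 (-2792, 10440) (by decide +kernel)
      (CovZ.n2 (-2792, 10448) (by decide +kernel)
       (CovZ.n2 (-2788, 10444) (by decide +kernel)
        (CovZ.n2 (-2792, 10444) (by decide +kernel)
         (CovZ.n2 (-2790, 10446) (by decide +kernel)
          (CovZ.leaf K3_ok TY_l387 _)
          (CovZ.leaf K2_ok TY_l388 _))
         (CovZ.leaf K3_ok TY_l389 _))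
        (CovZ.n1 (-2788, 10448) (by decide +kernel)
         (CovZ.leaf K3_ok TY_l390 _)
         (CovZ.n1 (-2790, 10446) (by decide +kernel)
          (CovZ.leaf K2_ok TY_l391 _)
          (CovZ.leaf K2_ok TY_l392 _))))
       (CovZ.n1 (-2796, 10444) (by decide +kernel)
        (CovZ.n2 (-2796, 10448) (by decide +kernel)
         (CovZ.leaf K3_ok TY_l393 _)
         (CovZ.n1 (-2798, 10446) (by decide +kernel)
          (CovZ.leaf K3_ok TY_l394 _)
          (CovZ.leaf K3_ok TY_l395 _)))
        (CovZ.n1 (-2792, 10444) (by decide +kernel)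
         (CovZ.n2 (-2794, 10442) (by decide +kernel)
          (CovZ.leaf K3_ok TY_l396 _)
          (CovZ.leaf K2_ok TY_l397 _))
         (CovZ.leaf K2_ok TY_l398 _))))
      (CovZ.n1 (-2784, 10440) (by decide +kernel)
       (CovZ.n2 (-2788, 10436) (by decide +kernel)
        (CovZ.n2 (-2788, 10440) (by decide +kernel)
         (CovZ.leaf K2_ok TY_l399 _)
         (CovZ.n1 (-2790, 10438) (by decide +kernel)
          (CovZ.leaf K3_ok TY_l400 _)
          (CovZ.leaf K3_ok TY_l401 _)))
        (CovZ.n1 (-2784, 10436) (by decide +kernel)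
         (CovZ.leaf K3_ok TY_l402 _)
         (CovZ.leaf K2_ok TY_l403 _)))
       (CovZ.n1 (-2788, 10444) (by decide +kernel)
        (CovZ.n2 (-2784, 10444) (by decide +kernel)
         (CovZ.leaf K2_ok TY_l404 _)
         (CovZ.n1 (-2786, 10446) (by decide +kernel)
          (CovZ.leaf K3_ok TY_l405 _)
          (CovZ.leaf K3_ok TY_l406 _)))
        (CovZ.n1 (-2788, 10440) (by decide +kernel)
         (CovZ.leaf K2_ok TY_l407 _)
         (CovZ.leaf K2_ok TY_l408 _)))))
     (CovZ.n1 (-2792, 10456) (by decide +kernel)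
      (CovZ.n2 (-2784, 10456) (by decide +kernel)
       (CovZ.n2 (-2788, 10452) (by decide +kernel)
        (CovZ.n2 (-2788, 10456) (by decide +kernel)
         (CovZ.leaf K2_ok TY_l409 _)
         (CovZ.n1 (-2790, 10454) (by decide +kernel)
          (CovZ.leaf K2_ok TY_l410 _)
          (CovZ.leaf K3_ok TY_l411 _)))
        (CovZ.n1 (-2784, 10452) (by decide +kernel)
         (CovZ.n2 (-2786, 10450) (by decide +kernel)
          (CovZ.leaf K2_ok TY_l412 _)
          (CovZ.leaf K2_ok TY_l413 _))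
         (CovZ.n1 (-2786, 10454) (by decide +kernel)
          (CovZ.leaf K3_ok TY_l414 _)
          (CovZ.leaf K3_ok TY_l415 _))))
       (CovZ.n1 (-2788, 10460) (by decide +kernel)
        (CovZ.n2 (-2784, 10460) (by decide +kernel)
         (CovZ.n2 (-2786, 10458) (by decide +kernel)
          (CovZ.leaf K3_ok TY_l416 _)
          (CovZ.leaf K2_ok TY_l417 _))
         (CovZ.leaf K3_ok TY_l418 _))
        (CovZ.n1 (-2788, 10456) (by decide +kernel)
         (CovZ.n2 (-2790, 10458) (by decide +kernel)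
          (CovZ.leaf K3_ok TY_l419 _)
          (CovZ.leaf K2_ok TY_l420 _))
         (CovZ.n1 (-2786, 10458) (by decide +kernel)
          (CovZ.leaf K2_ok TY_l421 _)
          (CovZ.leaf K2_ok TY_l422 _)))))
      (CovZ.n1 (-2792, 10448) (by decide +kernel)
       (CovZ.n2 (-2796, 10452) (by decide +kernel)
        (CovZ.n2 (-2792, 10452) (by decide +kernel)
         (CovZ.n2 (-2794, 10450) (by decide +kernel)
          (CovZ.leaf K3_ok TY_l423 _)
          (CovZ.leaf K2_ok TY_l424 _))
         (CovZ.n1 (-2794, 10454) (by decide +kernel)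
          (CovZ.leaf K2_ok TY_l425 _)
          (CovZ.leaf K3_ok TY_l426 _)))
        (CovZ.n1 (-2796, 10448) (by decide +kernel)
         (CovZ.n2 (-2798, 10450) (by decide +kernel)
          (CovZ.leaf K3_ok TY_l427 _)
          (CovZ.leaf K3_ok TY_l428 _))
         (CovZ.n1 (-2794, 10450) (by decide +kernel)
          (CovZ.leaf K3_ok TY_l429 _)
          (CovZ.leaf K3_ok TY_l430 _))))
       (CovZ.n1 (-2788, 10452) (by decide +kernel)
        (CovZ.n2 (-2788, 10448) (by decide +kernel)
         (CovZ.leaf K2_ok TY_l431 _)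
         (CovZ.leaf K3_ok TY_l432 _))
        (CovZ.n1 (-2792, 10452) (by decide +kernel)
         (CovZ.leaf K2_ok TY_l433 _)
         (CovZ.leaf K2_ok TY_l434 _))))))
    (CovZ.n1 (-2800, 10432) (by decide +kernel)
     (CovZ.n2 (-2808, 10440) (by decide +kernel)
      (CovZ.n2 (-2800, 10440) (by decide +kernel)
       (CovZ.n2 (-2804, 10436) (by decide +kernel)
        (CovZ.n2 (-2804, 10440) (by decide +kernel)
         (CovZ.leaf K2_ok TY_l435 _)
         (CovZ.n1 (-2806, 10438) (by decide +kernel)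
          (CovZ.leaf K2_ok TY_l436 _)
          (CovZ.leaf K3_ok TY_l437 _)))
        (CovZ.n1 (-2800, 10436) (by decide +kernel)
         (CovZ.n2 (-2802, 10434) (by decide +kernel)
          (CovZ.leaf K3_ok TY_l438 _)
          (CovZ.leaf K2_ok TY_l439 _))
         (CovZ.leaf K3_ok TY_l440 _)))
       (CovZ.n1 (-2804, 10444) (by decide +kernel)
        (CovZ.n2 (-2800, 10444) (by decide +kernel)
         (CovZ.n2 (-2802, 10442) (by decide +kernel)
          (CovZ.leaf K2_ok TY_l441 _)
          (CovZ.leaf K2_ok TY_l442 _))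
         (CovZ.leaf K2_ok TY_l443 _))
        (CovZ.n1 (-2804, 10440) (by decide +kernel)
         (CovZ.leaf K2_ok TY_l444 _)
         (CovZ.n1 (-2802, 10442) (by decide +kernel)
          (CovZ.leaf K3_ok TY_l445 _)
          (CovZ.leaf K3_ok TY_l446 _)))))
      (CovZ.n1 (-2808, 10432) (by decide +kernel)
       (CovZ.n2 (-2812, 10436) (by decide +kernel)
        (CovZ.n2 (-2808, 10436) (by decide +kernel)
         (CovZ.n2 (-2810, 10434) (by decide +kernel)
          (CovZ.leaf K2_ok TY_l447 _)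
          (CovZ.leaf K2_ok TY_l448 _))
         (CovZ.n1 (-2810, 10438) (by decide +kernel)
          (CovZ.leaf K3_ok TY_l449 _)
          (CovZ.leaf K3_ok TY_l450 _)))
        (CovZ.n1 (-2812, 10432) (by decide +kernel)
         (CovZ.leaf K2_ok TY_l451 _)
         (CovZ.n1 (-2810, 10434) (by decide +kernel)
          (CovZ.leaf K2_ok TY_l452 _)
          (CovZ.leaf K2_ok TY_l453 _))))
       (CovZ.n1 (-2804, 10436) (by decide +kernel)
        (CovZ.n2 (-2804, 10432) (by decide +kernel)
         (CovZ.leaf K3_ok TY_l454 _)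
         (CovZ.n1 (-2802, 10434) (by decide +kernel)
          (CovZ.leaf K2_ok TY_l455 _)
          (CovZ.leaf K3_ok TY_l456 _)))
        (CovZ.n1 (-2808, 10436) (by decide +kernel)
         (CovZ.leaf K2_ok TY_l457 _)
         (CovZ.leaf K2_ok TY_l458 _)))))
     (CovZ.n1 (-2792, 10440) (by decide +kernel)
      (CovZ.n2 (-2792, 10432) (by decide +kernel)
       (CovZ.n2 (-2796, 10436) (by decide +kernel)
        (CovZ.n2 (-2792, 10436) (by decide +kernel)
         (CovZ.leaf K2_ok TY_l459 _)
         (CovZ.leaf K2_ok TY_l460 _))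
        (CovZ.n1 (-2796, 10432) (by decide +kernel)
         (CovZ.leaf K2_ok TY_l461 _)
         (CovZ.leaf K3_ok TY_l462 _)))
       (CovZ.n1 (-2788, 10436) (by decide +kernel)
        (CovZ.n2 (-2788, 10432) (by decide +kernel)
         (CovZ.leaf K3_ok TY_l463 _)
         (CovZ.leaf K3_ok TY_l464 _))
        (CovZ.n1 (-2792, 10436) (by decide +kernel)
         (CovZ.leaf K2_ok TY_l465 _)
         (CovZ.leaf K2_ok TY_l466 _))))
      (CovZ.n1 (-2800, 10440) (by decide +kernel)
       (CovZ.n2 (-2796, 10444) (by decide +kernel)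
        (CovZ.n2 (-2796, 10440) (by decide +kernel)
         (CovZ.leaf K2_ok TY_l467 _)
         (CovZ.n1 (-2794, 10442) (by decide +kernel)
          (CovZ.leaf K2_ok TY_l468 _)
          (CovZ.leaf K3_ok TY_l469 _)))
        (CovZ.n1 (-2800, 10444) (by decide +kernel)
         (CovZ.n2 (-2798, 10446) (by decide +kernel)
          (CovZ.leaf K3_ok TY_l470 _)
          (CovZ.leaf K2_ok TY_l471 _))
         (CovZ.leaf K3_ok TY_l472 _)))
       (CovZ.n1 (-2796, 10436) (by decide +kernel)
        (CovZ.n2 (-2800, 10436) (by decide +kernel)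
         (CovZ.n2 (-2798, 10438) (by decide +kernel)
          (CovZ.leaf K3_ok TY_l473 _)
          (CovZ.leaf K3_ok TY_l474 _))
         (CovZ.leaf K2_ok TY_l475 _))
        (CovZ.n1 (-2796, 10440) (by decide +kernel)
         (CovZ.leaf K2_ok TY_l476 _)
         (CovZ.n1 (-2798, 10438) (by decide +kernel)
          (CovZ.leaf K3_ok TY_l477 _)
          (CovZ.leaf K2_ok TY_l478 _)))))))))
    (CovZ.topM TY_LL 5 (by decide +kernel) (CovZ.n0 (-2800, 10448) (by decide +kernel)
    TY_u8
    TY_u9))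

theorem TY_s1_4 : SqZ TY_M TY_L [0, 7, 4, 3] (-2816) 10304 32 1 4 :=
  SqZ.mk (a := (-2784)) (b := (-2752)) (c := 10432) (d := 10464) (by norm_num) (by norm_num) (by norm_num) (by norm_num)
    (CovZ.topM TY_LL 7 (by decide +kernel) (CovZ.n2 (-2768, 10448) (by decide +kernel)
    (CovZ.n2 (-2752, 10448) (by decide +kernel)
     (CovZ.n2 (-2760, 10440) (by decide +kernel)
      (CovZ.n2 (-2760, 10448) (by decide +kernel)
       (CovZ.n2 (-2756, 10444) (by decide +kernel)
        (CovZ.leaf K3_ok TY_l1424 _)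
        (CovZ.leaf K2_ok TY_l1425 _))
       (CovZ.n1 (-2764, 10444) (by decide +kernel)
        (CovZ.n2 (-2764, 10448) (by decide +kernel)
         (CovZ.leaf K2_ok TY_l1426 _)
         (CovZ.leaf K2_ok TY_l1427 _))
        (CovZ.leaf K2_ok TY_l1428 _)))
      (CovZ.n1 (-2752, 10440) (by decide +kernel)
       (CovZ.n2 (-2756, 10436) (by decide +kernel)
        (CovZ.leaf K2_ok TY_l1429 _)
        (CovZ.leaf K3_ok TY_l1430 _))
       (CovZ.n1 (-2756, 10444) (by decide +kernel)
        (CovZ.leaf K2_ok TY_l1431 _)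
        (CovZ.leaf K3_ok TY_l1432 _))))
     (CovZ.n1 (-2760, 10456) (by decide +kernel)
      (CovZ.n2 (-2752, 10456) (by decide +kernel)
       (CovZ.n2 (-2756, 10452) (by decide +kernel)
        (CovZ.n2 (-2756, 10456) (by decide +kernel)
         (CovZ.leaf K2_ok TY_l1433 _)
         (CovZ.leaf K2_ok TY_l1434 _))
        (CovZ.leaf K2_ok TY_l1435 _))
       (CovZ.n1 (-2756, 10460) (by decide +kernel)
        (CovZ.leaf K3_ok TY_l1436 _)
        (CovZ.n1 (-2756, 10456) (by decide +kernel)
         (CovZ.leaf K2_ok TY_l1437 _)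
         (CovZ.n1 (-2754, 10458) (by decide +kernel)
          (CovZ.leaf K3_ok TY_l1438 _)
          (CovZ.leaf K3_ok TY_l1439 _)))))
      (CovZ.n1 (-2760, 10448) (by decide +kernel)
       (CovZ.n2 (-2764, 10452) (by decide +kernel)
        (CovZ.leaf K3_ok TY_l1440 _)
        (CovZ.n1 (-2764, 10448) (by decide +kernel)
         (CovZ.leaf K2_ok TY_l1441 _)
         (CovZ.leaf K2_ok TY_l1442 _)))
       (CovZ.n1 (-2756, 10452) (by decide +kernel)
        (CovZ.n2 (-2756, 10448) (by decide +kernel)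
         (CovZ.leaf K3_ok TY_l1443 _)
         (CovZ.leaf K2_ok TY_l1444 _))
        (CovZ.leaf K2_ok TY_l1445 _)))))
    (CovZ.n1 (-2768, 10432) (by decide +kernel)
     (CovZ.n2 (-2776, 10440) (by decide +kernel)
      (CovZ.n2 (-2768, 10440) (by decide +kernel)
       (CovZ.n2 (-2772, 10436) (by decide +kernel)
        (CovZ.n2 (-2772, 10440) (by decide +kernel)
         (CovZ.leaf K3_ok TY_l1446 _)
         (CovZ.leaf K2_ok TY_l1447 _))
        (CovZ.leaf K2_ok TY_l1448 _))
       (CovZ.n1 (-2772, 10444) (by decide +kernel)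
        (CovZ.leaf K2_ok TY_l1449 _)
        (CovZ.n1 (-2772, 10440) (by decide +kernel)
         (CovZ.leaf K3_ok TY_l1450 _)
         (CovZ.leaf K2_ok TY_l1451 _))))
      (CovZ.n1 (-2776, 10432) (by decide +kernel)
       (CovZ.n2 (-2780, 10436) (by decide +kernel)
        (CovZ.leaf K2_ok TY_l1452 _)
        (CovZ.n1 (-2780, 10432) (by decide +kernel)
         (CovZ.leaf K2_ok TY_l1453 _)
         (CovZ.leaf K2_ok TY_l1454 _)))
       (CovZ.n1 (-2772, 10436) (by decide +kernel)
        (CovZ.n2 (-2772, 10432) (by decide +kernel)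
         (CovZ.leaf K2_ok TY_l1455 _)
         (CovZ.leaf K2_ok TY_l1456 _))
        (CovZ.leaf K2_ok TY_l1457 _))))
     (CovZ.n1 (-2760, 10440) (by decide +kernel)
      (CovZ.n2 (-2760, 10432) (by decide +kernel)
       (CovZ.n2 (-2764, 10436) (by decide +kernel)
        (CovZ.leaf K2_ok TY_l1458 _)
        (CovZ.n1 (-2764, 10432) (by decide +kernel)
         (CovZ.leaf K2_ok TY_l1459 _)
         (CovZ.leaf K3_ok TY_l1460 _)))
       (CovZ.n1 (-2756, 10436) (by decide +kernel)
        (CovZ.leaf K3_ok TY_l1461 _)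
        (CovZ.leaf K3_ok TY_l1462 _)))
      (CovZ.n1 (-2768, 10440) (by decide +kernel)
       (CovZ.n2 (-2764, 10444) (by decide +kernel)
        (CovZ.n2 (-2764, 10440) (by decide +kernel)
         (CovZ.leaf K3_ok TY_l1463 _)
         (CovZ.leaf K2_ok TY_l1464 _))
        (CovZ.leaf K3_ok TY_l1465 _))
       (CovZ.n1 (-2764, 10436) (by decide +kernel)
        (CovZ.leaf K2_ok TY_l1466 _)
        (CovZ.leaf K2_ok TY_l1467 _)))))))
    (CovZ.topM TY_LL 7 (by decide +kernel) (CovZ.n0 (-2768, 10448) (by decide +kernel)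
    (CovZ.n2 (-2784, 10448) (by decide +kernel)
     (CovZ.n2 (-2776, 10456) (by decide +kernel)
      (CovZ.n2 (-2776, 10448) (by decide +kernel)
       (CovZ.n2 (-2780, 10452) (by decide +kernel)
        (CovZ.n2 (-2776, 10452) (by decide +kernel)
         (CovZ.n2 (-2778, 10450) (by decide +kernel)
          (CovZ.leaf K2_ok TY_l1468 _)
          (CovZ.leaf K3_ok TY_l1469 _))
         (CovZ.leaf K2_ok TY_l1470 _))
        (CovZ.n1 (-2780, 10448) (by decide +kernel)
         (CovZ.leaf K2_ok TY_l1471 _)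
         (CovZ.leaf K2_ok TY_l1472 _)))
       (CovZ.n1 (-2772, 10452) (by decide +kernel)
        (CovZ.n2 (-2772, 10448) (by decide +kernel)
         (CovZ.leaf K2_ok TY_l1473 _)
         (CovZ.leaf K2_ok TY_l1474 _))
        (CovZ.n1 (-2776, 10452) (by decide +kernel)
         (CovZ.leaf K3_ok TY_l1475 _)
         (CovZ.leaf K2_ok TY_l1476 _))))
      (CovZ.n1 (-2784, 10456) (by decide +kernel)
       (CovZ.n2 (-2780, 10460) (by decide +kernel)
        (CovZ.n2 (-2780, 10456) (by decide +kernel)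
         (CovZ.leaf K3_ok TY_l1477 _)
         (CovZ.n1 (-2778, 10458) (by decide +kernel)
          (CovZ.leaf K2_ok TY_l1478 _)
          (CovZ.leaf K2_ok TY_l1479 _)))
        (CovZ.n1 (-2784, 10460) (by decide +kernel)
         (CovZ.n2 (-2782, 10462) (by decide +kernel)
          (CovZ.leaf K3_ok TY_l1480 _)
          (CovZ.leaf K3_ok TY_l1481 _))
         (CovZ.leaf K3_ok TY_l1482 _)))
       (CovZ.n1 (-2780, 10452) (by decide +kernel)
        (CovZ.n2 (-2784, 10452) (by decide +kernel)
         (CovZ.leaf K2_ok TY_l1483 _)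
         (CovZ.leaf K2_ok TY_l1484 _))
        (CovZ.n1 (-2780, 10456) (by decide +kernel)
         (CovZ.leaf K3_ok TY_l1485 _)
         (CovZ.n1 (-2782, 10454) (by decide +kernel)
          (CovZ.leaf K3_ok TY_l1486 _)
          (CovZ.leaf K2_ok TY_l1487 _))))))
     (CovZ.n1 (-2776, 10440) (by decide +kernel)
      (CovZ.n2 (-2784, 10440) (by decide +kernel)
       (CovZ.n2 (-2780, 10444) (by decide +kernel)
        (CovZ.n2 (-2780, 10440) (by decide +kernel)
         (CovZ.leaf K2_ok TY_l1488 _)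
         (CovZ.leaf K2_ok TY_l1489 _))
        (CovZ.n1 (-2784, 10444) (by decide +kernel)
         (CovZ.leaf K3_ok TY_l1490 _)
         (CovZ.leaf K2_ok TY_l1491 _)))
       (CovZ.n1 (-2780, 10436) (by decide +kernel)
        (CovZ.n2 (-2784, 10436) (by decide +kernel)
         (CovZ.leaf K2_ok TY_l1492 _)
         (CovZ.leaf K3_ok TY_l1493 _))
        (CovZ.n1 (-2780, 10440) (by decide +kernel)
         (CovZ.leaf K2_ok TY_l1494 _)
         (CovZ.n1 (-2782, 10438) (by decide +kernel)
          (CovZ.leaf K2_ok TY_l1495 _)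
          (CovZ.leaf K3_ok TY_l1496 _)))))
      (CovZ.n1 (-2776, 10448) (by decide +kernel)
       (CovZ.n2 (-2772, 10444) (by decide +kernel)
        (CovZ.n2 (-2776, 10444) (by decide +kernel)
         (CovZ.leaf K2_ok TY_l1497 _)
         (CovZ.leaf K2_ok TY_l1498 _))
        (CovZ.n1 (-2772, 10448) (by decide +kernel)
         (CovZ.leaf K2_ok TY_l1499 _)
         (CovZ.n1 (-2774, 10446) (by decide +kernel)
          (CovZ.leaf K2_ok TY_l1500 _)
          (CovZ.leaf K3_ok TY_l1501 _))))
       (CovZ.n1 (-2780, 10444) (by decide +kernel)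
        (CovZ.n2 (-2780, 10448) (by decide +kernel)
         (CovZ.leaf K2_ok TY_l1502 _)
         (CovZ.n1 (-2782, 10446) (by decide +kernel)
          (CovZ.leaf K2_ok TY_l1503 _)
          (CovZ.leaf K3_ok TY_l1504 _)))
        (CovZ.n1 (-2776, 10444) (by decide +kernel)
         (CovZ.leaf K2_ok TY_l1505 _)
         (CovZ.leaf K3_ok TY_l1506 _))))))
    (CovZ.n1 (-2768, 10464) (by decide +kernel)
     (CovZ.n2 (-2760, 10456) (by decide +kernel)
      (CovZ.n2 (-2768, 10456) (by decide +kernel)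
       (CovZ.n2 (-2764, 10460) (by decide +kernel)
        (CovZ.n2 (-2764, 10456) (by decide +kernel)
         (CovZ.leaf K2_ok TY_l1507 _)
         (CovZ.leaf K3_ok TY_l1508 _))
        (CovZ.n1 (-2768, 10460) (by decide +kernel)
         (CovZ.leaf K2_ok TY_l1509 _)
         (CovZ.leaf K2_ok TY_l1510 _)))
       (CovZ.n1 (-2764, 10452) (by decide +kernel)
        (CovZ.leaf K3_ok TY_l1511 _)
        (CovZ.n1 (-2764, 10456) (by decide +kernel)
         (CovZ.leaf K2_ok TY_l1512 _)
         (CovZ.leaf K3_ok TY_l1513 _))))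
      (CovZ.n1 (-2760, 10464) (by decide +kernel)
       (CovZ.n2 (-2756, 10460) (by decide +kernel)
        (CovZ.n2 (-2760, 10460) (by decide +kernel)
         (CovZ.leaf K3_ok TY_l1514 _)
         (CovZ.leaf K3_ok TY_l1515 _))
        (CovZ.n1 (-2756, 10464) (by decide +kernel)
         (CovZ.leaf K3_ok TY_l1516 _)
         (CovZ.leaf K3_ok TY_l1517 _)))
       (CovZ.n1 (-2764, 10460) (by decide +kernel)
        (CovZ.n2 (-2764, 10464) (by decide +kernel)
         (CovZ.leaf K2_ok TY_l1518 _)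
         (CovZ.n1 (-2766, 10462) (by decide +kernel)
          (CovZ.leaf K3_ok TY_l1519 _)
          (CovZ.leaf K2_ok TY_l1520 _)))
        (CovZ.n1 (-2760, 10460) (by decide +kernel)
         (CovZ.leaf K2_ok TY_l1521 _)
         (CovZ.leaf K3_ok TY_l1522 _)))))
     (CovZ.n1 (-2776, 10456) (by decide +kernel)
      (CovZ.n2 (-2776, 10464) (by decide +kernel)
       (CovZ.n2 (-2772, 10460) (by decide +kernel)
        (CovZ.n2 (-2776, 10460) (by decide +kernel)
         (CovZ.n2 (-2774, 10462) (by decide +kernel)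
          (CovZ.leaf K3_ok TY_l1523 _)
          (CovZ.leaf K2_ok TY_l1524 _))
         (CovZ.leaf K3_ok TY_l1525 _))
        (CovZ.n1 (-2772, 10464) (by decide +kernel)
         (CovZ.leaf K2_ok TY_l1526 _)
         (CovZ.n1 (-2774, 10462) (by decide +kernel)
          (CovZ.leaf K3_ok TY_l1527 _)
          (CovZ.leaf K2_ok TY_l1528 _))))
       (CovZ.n1 (-2780, 10460) (by decide +kernel)
        (CovZ.n2 (-2780, 10464) (by decide +kernel)
         (CovZ.n2 (-2778, 10462) (by decide +kernel)
          (CovZ.leaf K2_ok TY_l1529 _)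
          (CovZ.leaf K2_ok TY_l1530 _))
         (CovZ.n1 (-2782, 10462) (by decide +kernel)
          (CovZ.leaf K3_ok TY_l1531 _)
          (CovZ.leaf K3_ok TY_l1532 _)))
        (CovZ.n1 (-2776, 10460) (by decide +kernel)
         (CovZ.n2 (-2778, 10458) (by decide +kernel)
          (CovZ.leaf K2_ok TY_l1533 _)
          (CovZ.leaf K2_ok TY_l1534 _))
         (CovZ.n1 (-2778, 10462) (by decide +kernel)
          (CovZ.leaf K2_ok TY_l1535 _)
          (CovZ.leaf K3_ok TY_l1536 _)))))
      (CovZ.n1 (-2768, 10456) (by decide +kernel)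
       (CovZ.n2 (-2772, 10452) (by decide +kernel)
        (CovZ.n2 (-2772, 10456) (by decide +kernel)
         (CovZ.leaf K3_ok TY_l1537 _)
         (CovZ.leaf K3_ok TY_l1538 _))
        (CovZ.n1 (-2768, 10452) (by decide +kernel)
         (CovZ.leaf K3_ok TY_l1539 _)
         (CovZ.leaf K2_ok TY_l1540 _)))
       (CovZ.n1 (-2772, 10460) (by decide +kernel)
        (CovZ.n2 (-2768, 10460) (by decide +kernel)
         (CovZ.n2 (-2770, 10458) (by decide +kernel)
          (CovZ.leaf K2_ok TY_l1541 _)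
          (CovZ.leaf K3_ok TY_l1542 _))
         (CovZ.leaf K2_ok TY_l1543 _))
        (CovZ.n1 (-2772, 10456) (by decide +kernel)
         (CovZ.leaf K2_ok TY_l1544 _)
         (CovZ.leaf K3_ok TY_l1545 _))))))))

theorem TY_s2_4 : SqZ TY_M TY_L [0, 7, 4, 3] (-2816) 10304 32 2 4 :=
  SqZ.mk (a := (-2752)) (b := (-2720)) (c := 10432) (d := 10464) (by norm_num) (by norm_num) (by norm_num) (by norm_num)
    (CovZ.topM TY_LL 7 (by decide +kernel) (CovZ.n2 (-2736, 10448) (by decide +kernel)
    (CovZ.n2 (-2720, 10448) (by decide +kernel)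
     (CovZ.n2 (-2728, 10440) (by decide +kernel)
      (CovZ.n2 (-2728, 10448) (by decide +kernel)
       (CovZ.leaf K3_ok TY_l2529 _)
       (CovZ.n1 (-2732, 10444) (by decide +kernel)
        (CovZ.leaf K3_ok TY_l2530 _)
        (CovZ.leaf K3_ok TY_l2531 _)))
      (CovZ.n1 (-2720, 10440) (by decide +kernel)
       (CovZ.n2 (-2724, 10436) (by decide +kernel)
        (CovZ.leaf K2_ok TY_l2532 _)
        (CovZ.leaf K3_ok TY_l2533 _))
       (CovZ.n1 (-2724, 10444) (by decide +kernel)
        (CovZ.leaf K3_ok TY_l2534 _)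
        (CovZ.leaf K3_ok TY_l2535 _))))
     (CovZ.n1 (-2728, 10456) (by decide +kernel)
      (CovZ.n2 (-2720, 10456) (by decide +kernel)
       (CovZ.n2 (-2724, 10452) (by decide +kernel)
        (CovZ.leaf K3_ok TY_l2536 _)
        (CovZ.leaf K3_ok TY_l2537 _))
       (CovZ.n1 (-2724, 10460) (by decide +kernel)
        (CovZ.leaf K3_ok TY_l2538 _)
        (CovZ.leaf K3_ok TY_l2539 _)))
      (CovZ.n1 (-2728, 10448) (by decide +kernel)
       (CovZ.n2 (-2732, 10452) (by decide +kernel)
        (CovZ.leaf K3_ok TY_l2540 _)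
        (CovZ.leaf K3_ok TY_l2541 _))
       (CovZ.n1 (-2724, 10452) (by decide +kernel)
        (CovZ.leaf K3_ok TY_l2542 _)
        (CovZ.leaf K2_ok TY_l2543 _)))))
    (CovZ.n1 (-2736, 10432) (by decide +kernel)
     (CovZ.n2 (-2744, 10440) (by decide +kernel)
      (CovZ.n2 (-2736, 10440) (by decide +kernel)
       (CovZ.n2 (-2740, 10436) (by decide +kernel)
        (CovZ.leaf K3_ok TY_l2544 _)
        (CovZ.leaf K2_ok TY_l2545 _))
       (CovZ.n1 (-2740, 10444) (by decide +kernel)
        (CovZ.leaf K3_ok TY_l2546 _)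
        (CovZ.n1 (-2740, 10440) (by decide +kernel)
         (CovZ.leaf K3_ok TY_l2547 _)
         (CovZ.leaf K3_ok TY_l2548 _))))
      (CovZ.n1 (-2744, 10432) (by decide +kernel)
       (CovZ.n2 (-2748, 10436) (by decide +kernel)
        (CovZ.leaf K2_ok TY_l2549 _)
        (CovZ.leaf K2_ok TY_l2550 _))
       (CovZ.n1 (-2740, 10436) (by decide +kernel)
        (CovZ.leaf K3_ok TY_l2551 _)
        (CovZ.leaf K2_ok TY_l2552 _))))
     (CovZ.n1 (-2728, 10440) (by decide +kernel)
      (CovZ.n2 (-2728, 10432) (by decide +kernel)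
       (CovZ.n2 (-2732, 10436) (by decide +kernel)
        (CovZ.leaf K3_ok TY_l2553 _)
        (CovZ.leaf K2_ok TY_l2554 _))
       (CovZ.n1 (-2724, 10436) (by decide +kernel)
        (CovZ.n2 (-2724, 10432) (by decide +kernel)
         (CovZ.leaf K3_ok TY_l2555 _)
         (CovZ.leaf K3_ok TY_l2556 _))
        (CovZ.leaf K3_ok TY_l2557 _)))
      (CovZ.n1 (-2736, 10440) (by decide +kernel)
       (CovZ.n2 (-2732, 10444) (by decide +kernel)
        (CovZ.leaf K3_ok TY_l2558 _)
        (CovZ.leaf K3_ok TY_l2559 _))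
       (CovZ.leaf K3_ok TY_l2560 _))))))
    (CovZ.topM TY_LL 7 (by decide +kernel) (CovZ.n0 (-2736, 10448) (by decide +kernel)
    (CovZ.n2 (-2752, 10448) (by decide +kernel)
     (CovZ.n2 (-2744, 10456) (by decide +kernel)
      (CovZ.n2 (-2744, 10448) (by decide +kernel)
       (CovZ.n2 (-2748, 10452) (by decide +kernel)
        (CovZ.n2 (-2744, 10452) (by decide +kernel)
         (CovZ.leaf K3_ok TY_l2561 _)
         (CovZ.leaf K3_ok TY_l2562 _))
        (CovZ.n1 (-2748, 10448) (by decide +kernel)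
         (CovZ.leaf K3_ok TY_l2563 _)
         (CovZ.leaf K2_ok TY_l2564 _)))
       (CovZ.n1 (-2740, 10452) (by decide +kernel)
        (CovZ.n2 (-2740, 10448) (by decide +kernel)
         (CovZ.leaf K3_ok TY_l2565 _)
         (CovZ.leaf K3_ok TY_l2566 _))
        (CovZ.leaf K2_ok TY_l2567 _)))
      (CovZ.n1 (-2752, 10456) (by decide +kernel)
       (CovZ.n2 (-2748, 10460) (by decide +kernel)
        (CovZ.n2 (-2748, 10456) (by decide +kernel)
         (CovZ.leaf K2_ok TY_l2568 _)
         (CovZ.leaf K3_ok TY_l2569 _))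
        (CovZ.leaf K3_ok TY_l2570 _))
       (CovZ.n1 (-2748, 10452) (by decide +kernel)
        (CovZ.leaf K2_ok TY_l2571 _)
        (CovZ.n1 (-2748, 10456) (by decide +kernel)
         (CovZ.leaf K3_ok TY_l2572 _)
         (CovZ.leaf K3_ok TY_l2573 _)))))
     (CovZ.n1 (-2744, 10440) (by decide +kernel)
      (CovZ.n2 (-2752, 10440) (by decide +kernel)
       (CovZ.n2 (-2748, 10444) (by decide +kernel)
        (CovZ.n2 (-2748, 10440) (by decide +kernel)
         (CovZ.leaf K3_ok TY_l2574 _)
         (CovZ.leaf K2_ok TY_l2575 _))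
        (CovZ.leaf K3_ok TY_l2576 _))
       (CovZ.leaf K3_ok TY_l2577 _))
      (CovZ.n1 (-2744, 10448) (by decide +kernel)
       (CovZ.n2 (-2740, 10444) (by decide +kernel)
        (CovZ.leaf K3_ok TY_l2578 _)
        (CovZ.leaf K3_ok TY_l2579 _))
       (CovZ.n1 (-2748, 10444) (by decide +kernel)
        (CovZ.leaf K3_ok TY_l2580 _)
        (CovZ.leaf K3_ok TY_l2581 _)))))
    (CovZ.n1 (-2736, 10464) (by decide +kernel)
     (CovZ.n2 (-2728, 10456) (by decide +kernel)
      (CovZ.n2 (-2736, 10456) (by decide +kernel)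
       (CovZ.n2 (-2732, 10460) (by decide +kernel)
        (CovZ.leaf K3_ok TY_l2582 _)
        (CovZ.leaf K2_ok TY_l2583 _))
       (CovZ.leaf K3_ok TY_l2584 _))
      (CovZ.n1 (-2728, 10464) (by decide +kernel)
       (CovZ.n2 (-2724, 10460) (by decide +kernel)
        (CovZ.leaf K2_ok TY_l2585 _)
        (CovZ.leaf K3_ok TY_l2586 _))
       (CovZ.n1 (-2732, 10460) (by decide +kernel)
        (CovZ.leaf K3_ok TY_l2587 _)
        (CovZ.leaf K2_ok TY_l2588 _))))
     (CovZ.n1 (-2744, 10456) (by decide +kernel)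
      (CovZ.n2 (-2744, 10464) (by decide +kernel)
       (CovZ.n2 (-2740, 10460) (by decide +kernel)
        (CovZ.leaf K2_ok TY_l2589 _)
        (CovZ.leaf K3_ok TY_l2590 _))
       (CovZ.n1 (-2748, 10460) (by decide +kernel)
        (CovZ.leaf K2_ok TY_l2591 _)
        (CovZ.n1 (-2744, 10460) (by decide +kernel)
         (CovZ.leaf K2_ok TY_l2592 _)
         (CovZ.leaf K3_ok TY_l2593 _))))
      (CovZ.n1 (-2736, 10456) (by decide +kernel)
       (CovZ.n2 (-2740, 10452) (by decide +kernel)
        (CovZ.leaf K2_ok TY_l2594 _)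
        (CovZ.leaf K2_ok TY_l2595 _))
       (CovZ.n1 (-2740, 10460) (by decide +kernel)
        (CovZ.leaf K2_ok TY_l2596 _)
        (CovZ.n1 (-2740, 10456) (by decide +kernel)
         (CovZ.leaf K3_ok TY_l2597 _)
         (CovZ.leaf K2_ok TY_l2598 _))))))))

end Pool.Agent.TET
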