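import Pool.Agent.Helper38_TET.TY_M
import Pool.Agent.Helper38_TET.TY_L
import Pool.Agent.Helper38_TET.TY_6
import Pool.Agent.Helper38_TET.TY_10
import Pool.Agent.Helper38_TET.TY_11
import Pool.Agent.Helper38_TET.TY_12
import Pool.Agent.Helper38_TET.TY_13
import Pool.Agent.Helper38_TET.TY_14
import Pool.Agent.Helper38_TET.TY_15
import Pool.Agent.Helper38_TET.TY_18
import Pool.Agent.Helper38_TET.TY_19
import Pool.Agent.Helper38_TET.TY_32
import Pool.Agent.Helper38_TET.TY_33
import Pool.Agent.Helper38_TET.TY_40
import Pool.Agent.Helper38_TET.TY_41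

/-!
# MP_c7c9bf_co: certificates, family TY
-/

set_option autoImplicit false
set_option maxRecDepth 100000

namespace Pool.Agent.TET

theorem TY_u15 : CovZ TY_M (toL (selN TY_LN 7)) [0, 7, 4, 3] (-2800, 10480) (-2784, 10496) (-2816, 10496) :=
    (CovZ.n1 (-2800, 10496) (by decide +kernel)
     (CovZ.n2 (-2792, 10488) (by decide +kernel)
      (CovZ.n2 (-2800, 10488) (by decide +kernel)
       (CovZ.n2 (-2796, 10492) (by decide +kernel)
        (CovZ.n2 (-2796, 10488) (by decide +kernel)
         (CovZ.n2 (-2798, 10490) (by decide +kernel)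
          (CovZ.n2 (-2796, 10490) (by decide +kernel)
           (CovZ.n2 (-2797, 10489) (by decide +kernel)
            (CovZ.leaf K2_ok TY_l930 _)
            (CovZ.leaf K3_ok TY_l931 _))
           (CovZ.n1 (-2797, 10491) (by decide +kernel)
            (CovZ.leaf K2_ok TY_l932 _)
            (CovZ.leaf K3_ok TY_l933 _)))
          (CovZ.n1 (-2798, 10488) (by decide +kernel)
           (CovZ.leaf K3_ok TY_l934 _)
           (CovZ.leaf K3_ok TY_l935 _)))
         (CovZ.n1 (-2794, 10490) (by decide +kernel)
          (CovZ.n2 (-2794, 10488) (by decide +kernel)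
           (CovZ.leaf K3_ok TY_l936 _)
           (CovZ.n1 (-2793, 10489) (by decide +kernel)
            (CovZ.leaf K3_ok TY_l937 _)
            (CovZ.leaf K3_ok TY_l938 _)))
          (CovZ.leaf K3_ok TY_l939 _)))
        (CovZ.badM (by decide +kernel)))
       (CovZ.n1 (-2796, 10484) (by decide +kernel)
        (CovZ.n2 (-2800, 10484) (by decide +kernel)
         (CovZ.n2 (-2798, 10486) (by decide +kernel)
          (CovZ.n2 (-2798, 10484) (by decide +kernel)
           (CovZ.leaf K3_ok TY_l953 _)
           (CovZ.n1 (-2797, 10485) (by decide +kernel)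
            (CovZ.leaf K3_ok TY_l954 _)
            (CovZ.leaf K3_ok TY_l955 _)))
          (CovZ.n1 (-2800, 10486) (by decide +kernel)
           (CovZ.n2 (-2799, 10487) (by decide +kernel)
            (CovZ.leaf K3_ok TY_l956 _)
            (CovZ.leaf K3_ok TY_l957 _))
           (CovZ.leaf K3_ok TY_l958 _)))
         (CovZ.n1 (-2798, 10482) (by decide +kernel)
          (CovZ.n2 (-2800, 10482) (by decide +kernel)
           (CovZ.n2 (-2799, 10483) (by decide +kernel)
            (CovZ.n2 (-2799, 10482) (by decide +kernel)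
             (CovZ.leaf K3_ok TY_l959 _)
             (CovZ.leaf K3_ok TY_l960 _))
            (CovZ.leaf K3_ok TY_l961 _))
           (CovZ.leaf K3_ok TY_l962 _))
          (CovZ.n1 (-2798, 10484) (by decide +kernel)
           (CovZ.leaf K3_ok TY_l963 _)
           (CovZ.n1 (-2799, 10483) (by decide +kernel)
            (CovZ.leaf K3_ok TY_l964 _)
            (CovZ.leaf K3_ok TY_l965 _)))))
        (CovZ.n1 (-2796, 10488) (by decide +kernel)
         (CovZ.n2 (-2794, 10486) (by decide +kernel)
          (CovZ.n2 (-2796, 10486) (by decide +kernel)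
           (CovZ.leaf K3_ok TY_l966 _)
           (CovZ.leaf K3_ok TY_l967 _))
          (CovZ.n1 (-2794, 10488) (by decide +kernel)
           (CovZ.leaf K3_ok TY_l968 _)
           (CovZ.n1 (-2795, 10487) (by decide +kernel)
            (CovZ.leaf K3_ok TY_l969 _)
            (CovZ.leaf K3_ok TY_l970 _))))
         (CovZ.n1 (-2798, 10486) (by decide +kernel)
          (CovZ.n2 (-2798, 10488) (by decide +kernel)
           (CovZ.leaf K3_ok TY_l971 _)
           (CovZ.n1 (-2799, 10487) (by decide +kernel)
            (CovZ.leaf K3_ok TY_l972 _)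
            (CovZ.leaf K3_ok TY_l973 _)))
          (CovZ.n1 (-2796, 10486) (by decide +kernel)
           (CovZ.leaf K3_ok TY_l974 _)
           (CovZ.leaf K3_ok TY_l975 _))))))
      (CovZ.n1 (-2792, 10496) (by decide +kernel)
       (CovZ.n2 (-2788, 10492) (by decide +kernel)
        (CovZ.n2 (-2792, 10492) (by decide +kernel)
         (CovZ.n2 (-2790, 10494) (by decide +kernel)
          (CovZ.n2 (-2790, 10492) (by decide +kernel)
           (CovZ.n2 (-2791, 10493) (by decide +kernel)
            (CovZ.leaf K2_ok TY_l976 _)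
            (CovZ.leaf K3_ok TY_l977 _))
           (CovZ.n1 (-2789, 10493) (by decide +kernel)
            (CovZ.leaf K3_ok TY_l978 _)
            (CovZ.leaf K3_ok TY_l979 _)))
          (CovZ.n1 (-2792, 10494) (by decide +kernel)
           (CovZ.n2 (-2791, 10495) (by decide +kernel)
            (CovZ.leaf K3_ok TY_l980 _)
            (CovZ.leaf K3_ok TY_l981 _))
           (CovZ.leaf K2_ok TY_l982 _)))
         (CovZ.n1 (-2790, 10490) (by decide +kernel)
          (CovZ.n2 (-2792, 10490) (by decide +kernel)
           (CovZ.n2 (-2791, 10491) (by decide +kernel)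
            (CovZ.leaf K3_ok TY_l983 _)
            (CovZ.leaf K3_ok TY_l984 _))
           (CovZ.leaf K2_ok TY_l985 _))
          (CovZ.n1 (-2790, 10492) (by decide +kernel)
           (CovZ.leaf K3_ok TY_l986 _)
           (CovZ.n1 (-2791, 10491) (by decide +kernel)
            (CovZ.leaf K3_ok TY_l987 _)
            (CovZ.leaf K3_ok TY_l988 _)))))
        (CovZ.n1 (-2788, 10496) (by decide +kernel)
         (CovZ.n2 (-2786, 10494) (by decide +kernel)
          (CovZ.leaf K3_ok TY_l989 _)
          (CovZ.n1 (-2786, 10496) (by decide +kernel)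
           (CovZ.leaf K3_ok TY_l990 _)
           (CovZ.leaf K3_ok TY_l991 _)))
         (CovZ.n1 (-2790, 10494) (by decide +kernel)
          (CovZ.n2 (-2790, 10496) (by decide +kernel)
           (CovZ.n2 (-2789, 10495) (by decide +kernel)
            (CovZ.leaf K3_ok TY_l992 _)
            (CovZ.leaf K3_ok TY_l993 _))
           (CovZ.n1 (-2791, 10495) (by decide +kernel)
            (CovZ.leaf K2_ok TY_l994 _)
            (CovZ.leaf K3_ok TY_l995 _)))
          (CovZ.n1 (-2788, 10494) (by decide +kernel)
           (CovZ.n2 (-2789, 10493) (by decide +kernel)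
            (CovZ.leaf K3_ok TY_l996 _)
            (CovZ.leaf K3_ok TY_l997 _))
           (CovZ.leaf K3_ok TY_l998 _)))))
       (CovZ.n1 (-2796, 10492) (by decide +kernel)
        (CovZ.badM (by decide +kernel))
        (CovZ.n1 (-2792, 10492) (by decide +kernel)
         (CovZ.n2 (-2794, 10490) (by decide +kernel)
          (CovZ.n2 (-2794, 10492) (by decide +kernel)
           (CovZ.leaf K3_ok TY_l1013 _)
           (CovZ.leaf K3_ok TY_l1014 _))
          (CovZ.n1 (-2792, 10490) (by decide +kernel)
           (CovZ.n2 (-2793, 10489) (by decide +kernel)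
            (CovZ.leaf K3_ok TY_l1015 _)
            (CovZ.leaf K3_ok TY_l1016 _))
           (CovZ.leaf K3_ok TY_l1017 _)))
         (CovZ.n1 (-2794, 10494) (by decide +kernel)
          (CovZ.n2 (-2792, 10494) (by decide +kernel)
           (CovZ.n2 (-2793, 10493) (by decide +kernel)
            (CovZ.leaf K3_ok TY_l1018 _)
            (CovZ.n1 (-2792, 10493) (by decide +kernel)
             (CovZ.leaf K3_ok TY_l1019 _)
             (CovZ.leaf K2_ok TY_l1020 _)))
           (CovZ.leaf K3_ok TY_l1021 _))
          (CovZ.n1 (-2794, 10492) (by decide +kernel)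
           (CovZ.n2 (-2795, 10493) (by decide +kernel)
            (CovZ.leaf K3_ok TY_l1022 _)
            (CovZ.leaf K3_ok TY_l1023 _))
           (CovZ.n1 (-2793, 10493) (by decide +kernel)
            (CovZ.leaf K3_ok TY_l1024 _)
            (CovZ.leaf K3_ok TY_l1025 _))))))))
     (CovZ.n1 (-2808, 10488) (by decide +kernel)
      (CovZ.badM (by decide +kernel))
      (CovZ.n1 (-2800, 10488) (by decide +kernel)
       (CovZ.n2 (-2804, 10484) (by decide +kernel)
        (CovZ.badM (by decide +kernel))
        (CovZ.n1 (-2800, 10484) (by decide +kernel)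
         (CovZ.n2 (-2802, 10482) (by decide +kernel)
          (CovZ.n2 (-2802, 10484) (by decide +kernel)
           (CovZ.leaf K3_ok TY_l1027 _)
           (CovZ.n1 (-2803, 10483) (by decide +kernel)
            (CovZ.leaf K3_ok TY_l1028 _)
            (CovZ.leaf K2_ok TY_l1029 _)))
          (CovZ.n1 (-2800, 10482) (by decide +kernel)
           (CovZ.n2 (-2801, 10481) (by decide +kernel)
            (CovZ.leaf K3_ok TY_l1030 _)
            (CovZ.leaf K3_ok TY_l1031 _))
           (CovZ.n1 (-2801, 10483) (by decide +kernel)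
            (CovZ.n2 (-2800, 10483) (by decide +kernel)
             (CovZ.leaf K3_ok TY_l1032 _)
             (CovZ.leaf K3_ok TY_l1033 _))
            (CovZ.leaf K3_ok TY_l1034 _))))
         (CovZ.n1 (-2802, 10486) (by decide +kernel)
          (CovZ.n2 (-2800, 10486) (by decide +kernel)
           (CovZ.n2 (-2801, 10485) (by decide +kernel)
            (CovZ.leaf K2_ok TY_l1035 _)
            (CovZ.leaf K3_ok TY_l1036 _))
           (CovZ.n1 (-2801, 10487) (by decide +kernel)
            (CovZ.leaf K2_ok TY_l1037 _)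
            (CovZ.leaf K3_ok TY_l1038 _)))
          (CovZ.n1 (-2802, 10484) (by decide +kernel)
           (CovZ.n2 (-2803, 10485) (by decide +kernel)
            (CovZ.leaf K3_ok TY_l1039 _)
            (CovZ.leaf K3_ok TY_l1040 _))
           (CovZ.n1 (-2801, 10485) (by decide +kernel)
            (CovZ.leaf K3_ok TY_l1041 _)
            (CovZ.leaf K3_ok TY_l1042 _))))))
       (CovZ.badM (by decide +kernel)))))

theorem TY_u16 : CovZ TY_M (toL (selN TY_LN 7)) [0, 7, 4, 3] (-2784, 10464) (-2768, 10480) (-2784, 10496) :=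
    (CovZ.n2 (-2784, 10480) (by decide +kernel)
     (CovZ.n2 (-2776, 10488) (by decide +kernel)
      (CovZ.n2 (-2776, 10480) (by decide +kernel)
       (CovZ.n2 (-2780, 10484) (by decide +kernel)
        (CovZ.n2 (-2776, 10484) (by decide +kernel)
         (CovZ.n2 (-2778, 10482) (by decide +kernel)
          (CovZ.n2 (-2778, 10484) (by decide +kernel)
           (CovZ.leaf K2_ok TY_l1648 _)
           (CovZ.leaf K2_ok TY_l1649 _))
          (CovZ.leaf K3_ok TY_l1650 _))
         (CovZ.n1 (-2778, 10486) (by decide +kernel)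
          (CovZ.leaf K3_ok TY_l1651 _)
          (CovZ.leaf K3_ok TY_l1652 _)))
        (CovZ.n1 (-2780, 10480) (by decide +kernel)
         (CovZ.n2 (-2782, 10482) (by decide +kernel)
          (CovZ.leaf K3_ok TY_l1653 _)
          (CovZ.n1 (-2782, 10480) (by decide +kernel)
           (CovZ.leaf K2_ok TY_l1654 _)
           (CovZ.leaf K3_ok TY_l1655 _)))
         (CovZ.n1 (-2778, 10482) (by decide +kernel)
          (CovZ.leaf K3_ok TY_l1656 _)
          (CovZ.leaf K2_ok TY_l1657 _))))
       (CovZ.n1 (-2772, 10484) (by decide +kernel)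
        (CovZ.n2 (-2772, 10480) (by decide +kernel)
         (CovZ.leaf K3_ok TY_l1658 _)
         (CovZ.n1 (-2770, 10482) (by decide +kernel)
          (CovZ.leaf K3_ok TY_l1659 _)
          (CovZ.leaf K3_ok TY_l1660 _)))
        (CovZ.n1 (-2776, 10484) (by decide +kernel)
         (CovZ.n2 (-2774, 10486) (by decide +kernel)
          (CovZ.leaf K3_ok TY_l1661 _)
          (CovZ.leaf K3_ok TY_l1662 _))
         (CovZ.n1 (-2774, 10482) (by decide +kernel)
          (CovZ.leaf K3_ok TY_l1663 _)
          (CovZ.leaf K2_ok TY_l1664 _)))))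
      (CovZ.n1 (-2784, 10488) (by decide +kernel)
       (CovZ.n2 (-2780, 10492) (by decide +kernel)
        (CovZ.n2 (-2780, 10488) (by decide +kernel)
         (CovZ.n2 (-2782, 10490) (by decide +kernel)
          (CovZ.n2 (-2780, 10490) (by decide +kernel)
           (CovZ.leaf K3_ok TY_l1665 _)
           (CovZ.leaf K3_ok TY_l1666 _))
          (CovZ.n1 (-2782, 10488) (by decide +kernel)
           (CovZ.leaf K2_ok TY_l1667 _)
           (CovZ.leaf K3_ok TY_l1668 _)))
         (CovZ.n1 (-2778, 10490) (by decide +kernel)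
          (CovZ.n2 (-2778, 10488) (by decide +kernel)
           (CovZ.leaf K2_ok TY_l1669 _)
           (CovZ.leaf K3_ok TY_l1670 _))
          (CovZ.leaf K3_ok TY_l1671 _)))
        (CovZ.n1 (-2784, 10492) (by decide +kernel)
         (CovZ.n2 (-2782, 10494) (by decide +kernel)
          (CovZ.n2 (-2782, 10492) (by decide +kernel)
           (CovZ.leaf K3_ok TY_l1672 _)
           (CovZ.leaf K3_ok TY_l1673 _))
          (CovZ.n1 (-2784, 10494) (by decide +kernel)
           (CovZ.n2 (-2783, 10495) (by decide +kernel)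
            (CovZ.leaf K3_ok TY_l1674 _)
            (CovZ.leaf K3_ok TY_l1675 _))
           (CovZ.n1 (-2783, 10493) (by decide +kernel)
            (CovZ.leaf K3_ok TY_l1676 _)
            (CovZ.leaf K2_ok TY_l1677 _))))
         (CovZ.n1 (-2782, 10490) (by decide +kernel)
          (CovZ.leaf K2_ok TY_l1678 _)
          (CovZ.n1 (-2782, 10492) (by decide +kernel)
           (CovZ.leaf K3_ok TY_l1679 _)
           (CovZ.leaf K3_ok TY_l1680 _)))))
       (CovZ.n1 (-2780, 10484) (by decide +kernel)
        (CovZ.n2 (-2784, 10484) (by decide +kernel)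
         (CovZ.n2 (-2782, 10486) (by decide +kernel)
          (CovZ.n2 (-2782, 10484) (by decide +kernel)
           (CovZ.leaf K3_ok TY_l1681 _)
           (CovZ.leaf K3_ok TY_l1682 _))
          (CovZ.leaf K3_ok TY_l1683 _))
         (CovZ.n1 (-2782, 10482) (by decide +kernel)
          (CovZ.n2 (-2784, 10482) (by decide +kernel)
           (CovZ.leaf K3_ok TY_l1684 _)
           (CovZ.leaf K3_ok TY_l1685 _))
          (CovZ.leaf K2_ok TY_l1686 _)))
        (CovZ.n1 (-2780, 10488) (by decide +kernel)
         (CovZ.n2 (-2778, 10486) (by decide +kernel)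
          (CovZ.leaf K3_ok TY_l1687 _)
          (CovZ.leaf K3_ok TY_l1688 _))
         (CovZ.n1 (-2782, 10486) (by decide +kernel)
          (CovZ.leaf K3_ok TY_l1689 _)
          (CovZ.leaf K3_ok TY_l1690 _))))))
     (CovZ.n1 (-2776, 10472) (by decide +kernel)
      (CovZ.n2 (-2784, 10472) (by decide +kernel)
       (CovZ.n2 (-2780, 10476) (by decide +kernel)
        (CovZ.n2 (-2780, 10472) (by decide +kernel)
         (CovZ.n2 (-2782, 10474) (by decide +kernel)
          (CovZ.leaf K3_ok TY_l1691 _)
          (CovZ.leaf K2_ok TY_l1692 _))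
         (CovZ.n1 (-2778, 10474) (by decide +kernel)
          (CovZ.leaf K3_ok TY_l1693 _)
          (CovZ.leaf K2_ok TY_l1694 _)))
        (CovZ.n1 (-2784, 10476) (by decide +kernel)
         (CovZ.n2 (-2782, 10478) (by decide +kernel)
          (CovZ.leaf K3_ok TY_l1695 _)
          (CovZ.leaf K3_ok TY_l1696 _))
         (CovZ.leaf K2_ok TY_l1697 _)))
       (CovZ.n1 (-2780, 10468) (by decide +kernel)
        (CovZ.n2 (-2784, 10468) (by decide +kernel)
         (CovZ.n2 (-2782, 10470) (by decide +kernel)
          (CovZ.leaf K2_ok TY_l1698 _)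
          (CovZ.leaf K2_ok TY_l1699 _))
         (CovZ.n1 (-2782, 10466) (by decide +kernel)
          (CovZ.leaf K3_ok TY_l1700 _)
          (CovZ.leaf K3_ok TY_l1701 _)))
        (CovZ.n1 (-2780, 10472) (by decide +kernel)
         (CovZ.leaf K2_ok TY_l1702 _)
         (CovZ.n1 (-2782, 10470) (by decide +kernel)
          (CovZ.leaf K3_ok TY_l1703 _)
          (CovZ.leaf K3_ok TY_l1704 _)))))
      (CovZ.n1 (-2776, 10480) (by decide +kernel)
       (CovZ.n2 (-2772, 10476) (by decide +kernel)
        (CovZ.n2 (-2776, 10476) (by decide +kernel)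
         (CovZ.n2 (-2774, 10478) (by decide +kernel)
          (CovZ.leaf K2_ok TY_l1705 _)
          (CovZ.leaf K3_ok TY_l1706 _))
         (CovZ.n1 (-2774, 10474) (by decide +kernel)
          (CovZ.leaf K3_ok TY_l1707 _)
          (CovZ.leaf K2_ok TY_l1708 _)))
        (CovZ.n1 (-2772, 10480) (by decide +kernel)
         (CovZ.n2 (-2770, 10478) (by decide +kernel)
          (CovZ.leaf K2_ok TY_l1709 _)
          (CovZ.leaf K2_ok TY_l1710 _))
         (CovZ.n1 (-2774, 10478) (by decide +kernel)
          (CovZ.leaf K3_ok TY_l1711 _)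
          (CovZ.leaf K3_ok TY_l1712 _))))
       (CovZ.n1 (-2780, 10476) (by decide +kernel)
        (CovZ.n2 (-2780, 10480) (by decide +kernel)
         (CovZ.n2 (-2778, 10478) (by decide +kernel)
          (CovZ.leaf K3_ok TY_l1713 _)
          (CovZ.leaf K3_ok TY_l1714 _))
         (CovZ.n1 (-2782, 10478) (by decide +kernel)
          (CovZ.leaf K3_ok TY_l1715 _)
          (CovZ.leaf K3_ok TY_l1716 _)))
        (CovZ.n1 (-2776, 10476) (by decide +kernel)
         (CovZ.n2 (-2778, 10474) (by decide +kernel)
          (CovZ.leaf K2_ok TY_l1717 _)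
          (CovZ.leaf K2_ok TY_l1718 _))
         (CovZ.n1 (-2778, 10478) (by decide +kernel)
          (CovZ.leaf K3_ok TY_l1719 _)
          (CovZ.leaf K2_ok TY_l1720 _)))))))

theorem TY_u17 : CovZ TY_M (toL (selN TY_LN 7)) [0, 7, 4, 3] (-2768, 10480) (-2752, 10496) (-2784, 10496) :=
    (CovZ.n1 (-2768, 10496) (by decide +kernel)
     (CovZ.n2 (-2760, 10488) (by decide +kernel)
      (CovZ.n2 (-2768, 10488) (by decide +kernel)
       (CovZ.n2 (-2764, 10492) (by decide +kernel)
        (CovZ.n2 (-2764, 10488) (by decide +kernel)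
         (CovZ.n2 (-2766, 10490) (by decide +kernel)
          (CovZ.n2 (-2764, 10490) (by decide +kernel)
           (CovZ.leaf K3_ok TY_l1721 _)
           (CovZ.leaf K3_ok TY_l1722 _))
          (CovZ.leaf K3_ok TY_l1723 _))
         (CovZ.n1 (-2762, 10490) (by decide +kernel)
          (CovZ.n2 (-2762, 10488) (by decide +kernel)
           (CovZ.leaf K3_ok TY_l1724 _)
           (CovZ.leaf K3_ok TY_l1725 _))
          (CovZ.leaf K3_ok TY_l1726 _)))
        (CovZ.n1 (-2768, 10492) (by decide +kernel)
         (CovZ.n2 (-2766, 10494) (by decide +kernel)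
          (CovZ.leaf K3_ok TY_l1727 _)
          (CovZ.leaf K3_ok TY_l1728 _))
         (CovZ.leaf K3_ok TY_l1729 _)))
       (CovZ.n1 (-2764, 10484) (by decide +kernel)
        (CovZ.n2 (-2768, 10484) (by decide +kernel)
         (CovZ.n2 (-2766, 10486) (by decide +kernel)
          (CovZ.leaf K3_ok TY_l1730 _)
          (CovZ.leaf K3_ok TY_l1731 _))
         (CovZ.n1 (-2766, 10482) (by decide +kernel)
          (CovZ.leaf K3_ok TY_l1732 _)
          (CovZ.leaf K3_ok TY_l1733 _)))
        (CovZ.n1 (-2764, 10488) (by decide +kernel)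
         (CovZ.n2 (-2762, 10486) (by decide +kernel)
          (CovZ.leaf K3_ok TY_l1734 _)
          (CovZ.leaf K2_ok TY_l1735 _))
         (CovZ.n1 (-2766, 10486) (by decide +kernel)
          (CovZ.leaf K3_ok TY_l1736 _)
          (CovZ.leaf K3_ok TY_l1737 _)))))
      (CovZ.n1 (-2760, 10496) (by decide +kernel)
       (CovZ.n2 (-2756, 10492) (by decide +kernel)
        (CovZ.n2 (-2760, 10492) (by decide +kernel)
         (CovZ.n2 (-2758, 10494) (by decide +kernel)
          (CovZ.leaf K2_ok TY_l1738 _)
          (CovZ.leaf K3_ok TY_l1739 _))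
         (CovZ.leaf K3_ok TY_l1740 _))
        (CovZ.n1 (-2756, 10496) (by decide +kernel)
         (CovZ.n2 (-2754, 10494) (by decide +kernel)
          (CovZ.leaf K3_ok TY_l1741 _)
          (CovZ.leaf K3_ok TY_l1742 _))
         (CovZ.n1 (-2758, 10494) (by decide +kernel)
          (CovZ.leaf K3_ok TY_l1743 _)
          (CovZ.leaf K3_ok TY_l1744 _))))
       (CovZ.n1 (-2764, 10492) (by decide +kernel)
        (CovZ.n2 (-2764, 10496) (by decide +kernel)
         (CovZ.n2 (-2762, 10494) (by decide +kernel)
          (CovZ.leaf K3_ok TY_l1745 _)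
          (CovZ.leaf K2_ok TY_l1746 _))
         (CovZ.n1 (-2766, 10494) (by decide +kernel)
          (CovZ.leaf K2_ok TY_l1747 _)
          (CovZ.leaf K3_ok TY_l1748 _)))
        (CovZ.n1 (-2760, 10492) (by decide +kernel)
         (CovZ.n2 (-2762, 10490) (by decide +kernel)
          (CovZ.leaf K3_ok TY_l1749 _)
          (CovZ.leaf K3_ok TY_l1750 _))
         (CovZ.n1 (-2762, 10494) (by decide +kernel)
          (CovZ.leaf K3_ok TY_l1751 _)
          (CovZ.leaf K3_ok TY_l1752 _))))))
     (CovZ.n1 (-2776, 10488) (by decide +kernel)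
      (CovZ.n2 (-2776, 10496) (by decide +kernel)
       (CovZ.n2 (-2772, 10492) (by decide +kernel)
        (CovZ.n2 (-2776, 10492) (by decide +kernel)
         (CovZ.n2 (-2774, 10494) (by decide +kernel)
          (CovZ.n2 (-2774, 10492) (by decide +kernel)
           (CovZ.leaf K3_ok TY_l1753 _)
           (CovZ.leaf K3_ok TY_l1754 _))
          (CovZ.leaf K3_ok TY_l1755 _))
         (CovZ.n1 (-2774, 10490) (by decide +kernel)
          (CovZ.leaf K2_ok TY_l1756 _)
          (CovZ.leaf K3_ok TY_l1757 _)))
        (CovZ.n1 (-2772, 10496) (by decide +kernel)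
         (CovZ.n2 (-2770, 10494) (by decide +kernel)
          (CovZ.leaf K3_ok TY_l1758 _)
          (CovZ.leaf K2_ok TY_l1759 _))
         (CovZ.n1 (-2774, 10494) (by decide +kernel)
          (CovZ.leaf K3_ok TY_l1760 _)
          (CovZ.leaf K3_ok TY_l1761 _))))
       (CovZ.n1 (-2780, 10492) (by decide +kernel)
        (CovZ.n2 (-2780, 10496) (by decide +kernel)
         (CovZ.n2 (-2778, 10494) (by decide +kernel)
          (CovZ.n2 (-2780, 10494) (by decide +kernel)
           (CovZ.leaf K3_ok TY_l1762 _)
           (CovZ.leaf K3_ok TY_l1763 _))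
          (CovZ.n1 (-2778, 10496) (by decide +kernel)
           (CovZ.leaf K3_ok TY_l1764 _)
           (CovZ.leaf K3_ok TY_l1765 _)))
         (CovZ.n1 (-2782, 10494) (by decide +kernel)
          (CovZ.n2 (-2782, 10496) (by decide +kernel)
           (CovZ.leaf K3_ok TY_l1766 _)
           (CovZ.leaf K3_ok TY_l1767 _))
          (CovZ.n1 (-2780, 10494) (by decide +kernel)
           (CovZ.leaf K3_ok TY_l1768 _)
           (CovZ.leaf K2_ok TY_l1769 _))))
        (CovZ.n1 (-2776, 10492) (by decide +kernel)
         (CovZ.n2 (-2778, 10490) (by decide +kernel)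
          (CovZ.n2 (-2778, 10492) (by decide +kernel)
           (CovZ.leaf K3_ok TY_l1770 _)
           (CovZ.leaf K3_ok TY_l1771 _))
          (CovZ.leaf K3_ok TY_l1772 _))
         (CovZ.n1 (-2778, 10494) (by decide +kernel)
          (CovZ.leaf K3_ok TY_l1773 _)
          (CovZ.n1 (-2778, 10492) (by decide +kernel)
           (CovZ.leaf K3_ok TY_l1774 _)
           (CovZ.leaf K3_ok TY_l1775 _))))))
      (CovZ.n1 (-2768, 10488) (by decide +kernel)
       (CovZ.n2 (-2772, 10484) (by decide +kernel)
        (CovZ.n2 (-2772, 10488) (by decide +kernel)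
         (CovZ.n2 (-2770, 10486) (by decide +kernel)
          (CovZ.leaf K2_ok TY_l1776 _)
          (CovZ.leaf K3_ok TY_l1777 _))
         (CovZ.n1 (-2774, 10486) (by decide +kernel)
          (CovZ.n2 (-2774, 10488) (by decide +kernel)
           (CovZ.leaf K2_ok TY_l1778 _)
           (CovZ.leaf K3_ok TY_l1779 _))
          (CovZ.leaf K3_ok TY_l1780 _)))
        (CovZ.n1 (-2768, 10484) (by decide +kernel)
         (CovZ.n2 (-2770, 10482) (by decide +kernel)
          (CovZ.leaf K3_ok TY_l1781 _)
          (CovZ.leaf K2_ok TY_l1782 _))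
         (CovZ.n1 (-2770, 10486) (by decide +kernel)
          (CovZ.leaf K3_ok TY_l1783 _)
          (CovZ.leaf K3_ok TY_l1784 _))))
       (CovZ.n1 (-2772, 10492) (by decide +kernel)
        (CovZ.n2 (-2768, 10492) (by decide +kernel)
         (CovZ.n2 (-2770, 10490) (by decide +kernel)
          (CovZ.n2 (-2770, 10492) (by decide +kernel)
           (CovZ.leaf K3_ok TY_l1785 _)
           (CovZ.leaf K3_ok TY_l1786 _))
          (CovZ.leaf K2_ok TY_l1787 _))
         (CovZ.n1 (-2770, 10494) (by decide +kernel)
          (CovZ.leaf K3_ok TY_l1788 _)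
          (CovZ.leaf K3_ok TY_l1789 _)))
        (CovZ.n1 (-2772, 10488) (by decide +kernel)
         (CovZ.n2 (-2774, 10490) (by decide +kernel)
          (CovZ.leaf K3_ok TY_l1790 _)
          (CovZ.n1 (-2774, 10488) (by decide +kernel)
           (CovZ.leaf K3_ok TY_l1791 _)
           (CovZ.leaf K3_ok TY_l1792 _)))
         (CovZ.n1 (-2770, 10490) (by decide +kernel)
          (CovZ.leaf K3_ok TY_l1793 _)
          (CovZ.n1 (-2772, 10490) (by decide +kernel)
           (CovZ.leaf K3_ok TY_l1794 _)
           (CovZ.leaf K3_ok TY_l1795 _))))))))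

theorem TY_u18 : CovZ TY_M (toL (selN TY_LN 7)) [0, 7, 4, 3] (-2656, 10496) (-2672, 10480) (-2656, 10464) :=
    (CovZ.n2 (-2656, 10480) (by decide +kernel)
     (CovZ.n2 (-2664, 10472) (by decide +kernel)
      (CovZ.n2 (-2664, 10480) (by decide +kernel)
       (CovZ.n2 (-2660, 10476) (by decide +kernel)
        (CovZ.n2 (-2664, 10476) (by decide +kernel)
         (CovZ.n2 (-2662, 10478) (by decide +kernel)
          (CovZ.leaf K3_ok TY_l4921 _)
          (CovZ.leaf K3_ok TY_l4922 _))
         (CovZ.n1 (-2662, 10474) (by decide +kernel)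
          (CovZ.leaf K3_ok TY_l4923 _)
          (CovZ.leaf K3_ok TY_l4924 _)))
        (CovZ.n1 (-2660, 10480) (by decide +kernel)
         (CovZ.n2 (-2658, 10478) (by decide +kernel)
          (CovZ.leaf K3_ok TY_l4925 _)
          (CovZ.n1 (-2658, 10480) (by decide +kernel)
           (CovZ.leaf K3_ok TY_l4926 _)
           (CovZ.leaf K3_ok TY_l4927 _)))
         (CovZ.n1 (-2662, 10478) (by decide +kernel)
          (CovZ.leaf K3_ok TY_l4928 _)
          (CovZ.leaf K3_ok TY_l4929 _))))
       (CovZ.n1 (-2668, 10476) (by decide +kernel)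
        (CovZ.n2 (-2668, 10480) (by decide +kernel)
         (CovZ.leaf K3_ok TY_l4930 _)
         (CovZ.leaf K3_ok TY_l4931 _))
        (CovZ.n1 (-2664, 10476) (by decide +kernel)
         (CovZ.n2 (-2666, 10474) (by decide +kernel)
          (CovZ.leaf K3_ok TY_l4932 _)
          (CovZ.leaf K3_ok TY_l4933 _))
         (CovZ.n1 (-2666, 10478) (by decide +kernel)
          (CovZ.leaf K3_ok TY_l4934 _)
          (CovZ.leaf K3_ok TY_l4935 _)))))
      (CovZ.n1 (-2656, 10472) (by decide +kernel)
       (CovZ.n2 (-2660, 10468) (by decide +kernel)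
        (CovZ.n2 (-2660, 10472) (by decide +kernel)
         (CovZ.n2 (-2658, 10470) (by decide +kernel)
          (CovZ.leaf K3_ok TY_l4936 _)
          (CovZ.n1 (-2658, 10472) (by decide +kernel)
           (CovZ.leaf K3_ok TY_l4937 _)
           (CovZ.n1 (-2659, 10471) (by decide +kernel)
            (CovZ.leaf K2_ok TY_l4938 _)
            (CovZ.leaf K2_ok TY_l4939 _))))
         (CovZ.n1 (-2662, 10470) (by decide +kernel)
          (CovZ.n2 (-2662, 10472) (by decide +kernel)
           (CovZ.leaf K3_ok TY_l4940 _)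
           (CovZ.leaf K2_ok TY_l4941 _))
          (CovZ.leaf K3_ok TY_l4942 _)))
        (CovZ.n1 (-2656, 10468) (by decide +kernel)
         (CovZ.n2 (-2658, 10466) (by decide +kernel)
          (CovZ.n2 (-2658, 10468) (by decide +kernel)
           (CovZ.n2 (-2657, 10467) (by decide +kernel)
            (CovZ.leaf K2_ok TY_l4943 _)
            (CovZ.leaf K3_ok TY_l4944 _))
           (CovZ.n1 (-2659, 10467) (by decide +kernel)
            (CovZ.leaf K3_ok TY_l4945 _)
            (CovZ.leaf K2_ok TY_l4946 _)))
          (CovZ.badM (by decide +kernel)))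
         (CovZ.n1 (-2658, 10470) (by decide +kernel)
          (CovZ.n2 (-2656, 10470) (by decide +kernel)
           (CovZ.n2 (-2657, 10469) (by decide +kernel)
            (CovZ.leaf K2_ok TY_l4947 _)
            (CovZ.leaf K2_ok TY_l4948 _))
           (CovZ.leaf K3_ok TY_l4949 _))
          (CovZ.n1 (-2658, 10468) (by decide +kernel)
           (CovZ.n2 (-2659, 10469) (by decide +kernel)
            (CovZ.leaf K3_ok TY_l4950 _)
            (CovZ.leaf K3_ok TY_l4951 _))
           (CovZ.leaf K3_ok TY_l4952 _)))))
       (CovZ.n1 (-2660, 10476) (by decide +kernel)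
        (CovZ.n2 (-2656, 10476) (by decide +kernel)
         (CovZ.n2 (-2658, 10474) (by decide +kernel)
          (CovZ.n2 (-2658, 10476) (by decide +kernel)
           (CovZ.leaf K3_ok TY_l4953 _)
           (CovZ.leaf K3_ok TY_l4954 _))
          (CovZ.leaf K3_ok TY_l4955 _))
         (CovZ.n1 (-2658, 10478) (by decide +kernel)
          (CovZ.n2 (-2656, 10478) (by decide +kernel)
           (CovZ.leaf K3_ok TY_l4956 _)
           (CovZ.leaf K3_ok TY_l4957 _))
          (CovZ.leaf K3_ok TY_l4958 _)))
        (CovZ.n1 (-2660, 10472) (by decide +kernel)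
         (CovZ.n2 (-2662, 10474) (by decide +kernel)
          (CovZ.leaf K3_ok TY_l4959 _)
          (CovZ.n1 (-2662, 10472) (by decide +kernel)
           (CovZ.leaf K3_ok TY_l4960 _)
           (CovZ.leaf K3_ok TY_l4961 _)))
         (CovZ.n1 (-2658, 10474) (by decide +kernel)
          (CovZ.n2 (-2658, 10472) (by decide +kernel)
           (CovZ.leaf K3_ok TY_l4962 _)
           (CovZ.leaf K3_ok TY_l4963 _))
          (CovZ.leaf K3_ok TY_l4964 _))))))
     (CovZ.n1 (-2664, 10488) (by decide +kernel)
      (CovZ.n2 (-2656, 10488) (by decide +kernel)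
       (CovZ.n2 (-2660, 10484) (by decide +kernel)
        (CovZ.n2 (-2660, 10488) (by decide +kernel)
         (CovZ.leaf K3_ok TY_l4965 _)
         (CovZ.n1 (-2662, 10486) (by decide +kernel)
          (CovZ.leaf K3_ok TY_l4966 _)
          (CovZ.leaf K3_ok TY_l4967 _)))
        (CovZ.n1 (-2656, 10484) (by decide +kernel)
         (CovZ.n2 (-2658, 10482) (by decide +kernel)
          (CovZ.leaf K3_ok TY_l4968 _)
          (CovZ.leaf K3_ok TY_l4969 _))
         (CovZ.leaf K3_ok TY_l4970 _)))
       (CovZ.n1 (-2660, 10492) (by decide +kernel)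
        (CovZ.leaf K3_ok TY_l4971 _)
        (CovZ.n1 (-2660, 10488) (by decide +kernel)
         (CovZ.leaf K3_ok TY_l4972 _)
         (CovZ.leaf K3_ok TY_l4973 _))))
      (CovZ.n1 (-2664, 10480) (by decide +kernel)
       (CovZ.n2 (-2668, 10484) (by decide +kernel)
        (CovZ.leaf K2_ok TY_l4974 _)
        (CovZ.n1 (-2668, 10480) (by decide +kernel)
         (CovZ.leaf K3_ok TY_l4975 _)
         (CovZ.n1 (-2666, 10482) (by decide +kernel)
          (CovZ.leaf K3_ok TY_l4976 _)
          (CovZ.leaf K3_ok TY_l4977 _))))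
       (CovZ.n1 (-2660, 10484) (by decide +kernel)
        (CovZ.n2 (-2660, 10480) (by decide +kernel)
         (CovZ.leaf K3_ok TY_l4978 _)
         (CovZ.n1 (-2658, 10482) (by decide +kernel)
          (CovZ.leaf K3_ok TY_l4979 _)
          (CovZ.leaf K3_ok TY_l4980 _)))
        (CovZ.n1 (-2664, 10484) (by decide +kernel)
         (CovZ.n2 (-2662, 10486) (by decide +kernel)
          (CovZ.leaf K2_ok TY_l4981 _)
          (CovZ.leaf K3_ok TY_l4982 _))
         (CovZ.leaf K3_ok TY_l4983 _))))))

theorem TY_u19 : CovZ TY_M (toL (selN TY_LN 7)) [0, 7, 4, 3] (-2672, 10480) (-2688, 10464) (-2656, 10464) :=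
    (CovZ.n1 (-2672, 10464) (by decide +kernel)
     (CovZ.n2 (-2680, 10472) (by decide +kernel)
      (CovZ.n2 (-2672, 10472) (by decide +kernel)
       (CovZ.n2 (-2676, 10468) (by decide +kernel)
        (CovZ.n2 (-2676, 10472) (by decide +kernel)
         (CovZ.leaf K3_ok TY_l4984 _)
         (CovZ.leaf K3_ok TY_l4985 _))
        (CovZ.n1 (-2672, 10468) (by decide +kernel)
         (CovZ.n2 (-2674, 10466) (by decide +kernel)
          (CovZ.leaf K3_ok TY_l4986 _)
          (CovZ.leaf K3_ok TY_l4987 _))
         (CovZ.leaf K3_ok TY_l4988 _)))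
       (CovZ.n1 (-2676, 10476) (by decide +kernel)
        (CovZ.leaf K2_ok TY_l4989 _)
        (CovZ.n1 (-2676, 10472) (by decide +kernel)
         (CovZ.leaf K2_ok TY_l4990 _)
         (CovZ.n1 (-2674, 10474) (by decide +kernel)
          (CovZ.leaf K3_ok TY_l4991 _)
          (CovZ.leaf K3_ok TY_l4992 _)))))
      (CovZ.n1 (-2680, 10464) (by decide +kernel)
       (CovZ.n2 (-2684, 10468) (by decide +kernel)
        (CovZ.n2 (-2680, 10468) (by decide +kernel)
         (CovZ.leaf K2_ok TY_l4993 _)
         (CovZ.leaf K3_ok TY_l4994 _))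
        (CovZ.n1 (-2684, 10464) (by decide +kernel)
         (CovZ.leaf K3_ok TY_l4995 _)
         (CovZ.leaf K3_ok TY_l4996 _)))
       (CovZ.n1 (-2676, 10468) (by decide +kernel)
        (CovZ.n2 (-2676, 10464) (by decide +kernel)
         (CovZ.leaf K3_ok TY_l4997 _)
         (CovZ.n1 (-2674, 10466) (by decide +kernel)
          (CovZ.leaf K3_ok TY_l4998 _)
          (CovZ.leaf K2_ok TY_l4999 _)))
        (CovZ.n1 (-2680, 10468) (by decide +kernel)
         (CovZ.leaf K3_ok TY_l5000 _)
         (CovZ.leaf K3_ok TY_l5001 _)))))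
     (CovZ.n1 (-2664, 10472) (by decide +kernel)
      (CovZ.n2 (-2664, 10464) (by decide +kernel)
       (CovZ.n2 (-2668, 10468) (by decide +kernel)
        (CovZ.n2 (-2664, 10468) (by decide +kernel)
         (CovZ.n2 (-2666, 10466) (by decide +kernel)
          (CovZ.n2 (-2666, 10468) (by decide +kernel)
           (CovZ.leaf K3_ok TY_l5002 _)
           (CovZ.leaf K3_ok TY_l5003 _))
          (CovZ.leaf K3_ok TY_l5004 _))
         (CovZ.n1 (-2666, 10470) (by decide +kernel)
          (CovZ.leaf K3_ok TY_l5005 _)
          (CovZ.n1 (-2666, 10468) (by decide +kernel)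
           (CovZ.leaf K3_ok TY_l5006 _)
           (CovZ.leaf K3_ok TY_l5007 _))))
        (CovZ.n1 (-2668, 10464) (by decide +kernel)
         (CovZ.n2 (-2670, 10466) (by decide +kernel)
          (CovZ.leaf K3_ok TY_l5008 _)
          (CovZ.n1 (-2670, 10464) (by decide +kernel)
           (CovZ.leaf K3_ok TY_l5009 _)
           (CovZ.leaf K2_ok TY_l5010 _)))
         (CovZ.n1 (-2666, 10466) (by decide +kernel)
          (CovZ.n2 (-2666, 10464) (by decide +kernel)
           (CovZ.leaf K3_ok TY_l5011 _)
           (CovZ.leaf K3_ok TY_l5012 _))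
          (CovZ.leaf K3_ok TY_l5013 _))))
       (CovZ.n1 (-2660, 10468) (by decide +kernel)
        (CovZ.n2 (-2660, 10464) (by decide +kernel)
         (CovZ.n2 (-2662, 10466) (by decide +kernel)
          (CovZ.n2 (-2660, 10466) (by decide +kernel)
           (CovZ.n2 (-2661, 10465) (by decide +kernel)
            (CovZ.leaf K3_ok TY_l5014 _)
            (CovZ.leaf K3_ok TY_l5015 _))
           (CovZ.n1 (-2661, 10467) (by decide +kernel)
            (CovZ.leaf K2_ok TY_l5016 _)
            (CovZ.leaf K3_ok TY_l5017 _)))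
          (CovZ.n1 (-2662, 10464) (by decide +kernel)
           (CovZ.leaf K3_ok TY_l5018 _)
           (CovZ.leaf K2_ok TY_l5019 _)))
         (CovZ.n1 (-2658, 10466) (by decide +kernel)
          (CovZ.badM (by decide +kernel))
          (CovZ.n1 (-2660, 10466) (by decide +kernel)
           (CovZ.n2 (-2659, 10467) (by decide +kernel)
            (CovZ.n2 (-2659, 10466) (by decide +kernel)
             (CovZ.leaf K3_ok TY_l5020 _)
             (CovZ.leaf K3_ok TY_l5021 _))
            (CovZ.leaf K3_ok TY_l5022 _))
           (CovZ.leaf K3_ok TY_l5023 _))))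
        (CovZ.n1 (-2664, 10468) (by decide +kernel)
         (CovZ.n2 (-2662, 10470) (by decide +kernel)
          (CovZ.n2 (-2662, 10468) (by decide +kernel)
           (CovZ.n2 (-2663, 10469) (by decide +kernel)
            (CovZ.leaf K3_ok TY_l5024 _)
            (CovZ.leaf K3_ok TY_l5025 _))
           (CovZ.leaf K2_ok TY_l5026 _))
          (CovZ.leaf K3_ok TY_l5027 _))
         (CovZ.n1 (-2662, 10466) (by decide +kernel)
          (CovZ.n2 (-2664, 10466) (by decide +kernel)
           (CovZ.n2 (-2663, 10467) (by decide +kernel)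
            (CovZ.leaf K3_ok TY_l5028 _)
            (CovZ.leaf K3_ok TY_l5029 _))
           (CovZ.leaf K3_ok TY_l5030 _))
          (CovZ.n1 (-2662, 10468) (by decide +kernel)
           (CovZ.leaf K3_ok TY_l5031 _)
           (CovZ.n1 (-2663, 10467) (by decide +kernel)
            (CovZ.leaf K2_ok TY_l5032 _)
            (CovZ.leaf K3_ok TY_l5033 _)))))))
      (CovZ.n1 (-2672, 10472) (by decide +kernel)
       (CovZ.n2 (-2668, 10476) (by decide +kernel)
        (CovZ.n2 (-2668, 10472) (by decide +kernel)
         (CovZ.leaf K2_ok TY_l5034 _)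
         (CovZ.n1 (-2666, 10474) (by decide +kernel)
          (CovZ.leaf K3_ok TY_l5035 _)
          (CovZ.leaf K3_ok TY_l5036 _)))
        (CovZ.n1 (-2672, 10476) (by decide +kernel)
         (CovZ.leaf K3_ok TY_l5037 _)
         (CovZ.leaf K3_ok TY_l5038 _)))
       (CovZ.n1 (-2668, 10468) (by decide +kernel)
        (CovZ.n2 (-2672, 10468) (by decide +kernel)
         (CovZ.n2 (-2670, 10470) (by decide +kernel)
          (CovZ.leaf K3_ok TY_l5039 _)
          (CovZ.leaf K3_ok TY_l5040 _))
         (CovZ.leaf K2_ok TY_l5041 _))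
        (CovZ.n1 (-2668, 10472) (by decide +kernel)
         (CovZ.n2 (-2666, 10470) (by decide +kernel)
          (CovZ.leaf K3_ok TY_l5042 _)
          (CovZ.leaf K3_ok TY_l5043 _))
         (CovZ.n1 (-2670, 10470) (by decide +kernel)
          (CovZ.leaf K2_ok TY_l5044 _)
          (CovZ.leaf K3_ok TY_l5045 _)))))))

theorem TY_u20 : CovZ TY_M (toL (selN TY_LN 7)) [0, 7, 4, 3] (-2656, 10464) (-2640, 10480) (-2656, 10496) :=
    (CovZ.n2 (-2656, 10480) (by decide +kernel)
     (CovZ.n2 (-2648, 10488) (by decide +kernel)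
      (CovZ.n2 (-2648, 10480) (by decide +kernel)
       (CovZ.n2 (-2652, 10484) (by decide +kernel)
        (CovZ.n2 (-2648, 10484) (by decide +kernel)
         (CovZ.n2 (-2650, 10482) (by decide +kernel)
          (CovZ.n2 (-2650, 10484) (by decide +kernel)
           (CovZ.leaf K3_ok TY_l6005 _)
           (CovZ.leaf K3_ok TY_l6006 _))
          (CovZ.leaf K3_ok TY_l6007 _))
         (CovZ.n1 (-2650, 10486) (by decide +kernel)
          (CovZ.leaf K3_ok TY_l6008 _)
          (CovZ.n1 (-2650, 10484) (by decide +kernel)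
           (CovZ.leaf K2_ok TY_l6009 _)
           (CovZ.leaf K2_ok TY_l6010 _))))
        (CovZ.n1 (-2652, 10480) (by decide +kernel)
         (CovZ.n2 (-2654, 10482) (by decide +kernel)
          (CovZ.leaf K3_ok TY_l6011 _)
          (CovZ.n1 (-2654, 10480) (by decide +kernel)
           (CovZ.leaf K3_ok TY_l6012 _)
           (CovZ.leaf K3_ok TY_l6013 _)))
         (CovZ.n1 (-2650, 10482) (by decide +kernel)
          (CovZ.n2 (-2650, 10480) (by decide +kernel)
           (CovZ.leaf K3_ok TY_l6014 _)
           (CovZ.leaf K3_ok TY_l6015 _))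
          (CovZ.n1 (-2652, 10482) (by decide +kernel)
           (CovZ.leaf K3_ok TY_l6016 _)
           (CovZ.leaf K3_ok TY_l6017 _)))))
       (CovZ.n1 (-2644, 10484) (by decide +kernel)
        (CovZ.n2 (-2644, 10480) (by decide +kernel)
         (CovZ.n2 (-2646, 10482) (by decide +kernel)
          (CovZ.n2 (-2644, 10482) (by decide +kernel)
           (CovZ.n2 (-2645, 10481) (by decide +kernel)
            (CovZ.leaf K2_ok TY_l6018 _)
            (CovZ.badM (by decide +kernel)))
           (CovZ.leaf K3_ok TY_l6019 _))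
          (CovZ.n1 (-2646, 10480) (by decide +kernel)
           (CovZ.n2 (-2647, 10481) (by decide +kernel)
            (CovZ.leaf K3_ok TY_l6020 _)
            (CovZ.leaf K2_ok TY_l6021 _))
           (CovZ.n1 (-2645, 10481) (by decide +kernel)
            (CovZ.badM (by decide +kernel))
            (CovZ.leaf K3_ok TY_l6022 _))))
         (CovZ.n1 (-2642, 10482) (by decide +kernel)
          (CovZ.badM (by decide +kernel))
          (CovZ.n1 (-2644, 10482) (by decide +kernel)
           (CovZ.n2 (-2643, 10483) (by decide +kernel)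
            (CovZ.badM (by decide +kernel))
            (CovZ.leaf K3_ok TY_l6023 _))
           (CovZ.badM (by decide +kernel)))))
        (CovZ.n1 (-2648, 10484) (by decide +kernel)
         (CovZ.n2 (-2646, 10486) (by decide +kernel)
          (CovZ.n2 (-2646, 10484) (by decide +kernel)
           (CovZ.leaf K3_ok TY_l6024 _)
           (CovZ.leaf K3_ok TY_l6025 _))
          (CovZ.leaf K2_ok TY_l6026 _))
         (CovZ.n1 (-2646, 10482) (by decide +kernel)
          (CovZ.n2 (-2648, 10482) (by decide +kernel)
           (CovZ.leaf K3_ok TY_l6027 _)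
           (CovZ.leaf K3_ok TY_l6028 _))
          (CovZ.n1 (-2646, 10484) (by decide +kernel)
           (CovZ.leaf K3_ok TY_l6029 _)
           (CovZ.n1 (-2647, 10483) (by decide +kernel)
            (CovZ.n2 (-2647, 10484) (by decide +kernel)
             (CovZ.leaf K2_ok TY_l6030 _)
             (CovZ.leaf K2_ok TY_l6031 _))
            (CovZ.n1 (-2646, 10483) (by decide +kernel)
             (CovZ.leaf K3_ok TY_l6032 _)
             (CovZ.leaf K3_ok TY_l6033 _))))))))
      (CovZ.n1 (-2656, 10488) (by decide +kernel)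
       (CovZ.n2 (-2652, 10492) (by decide +kernel)
        (CovZ.n2 (-2652, 10488) (by decide +kernel)
         (CovZ.leaf K2_ok TY_l6034 _)
         (CovZ.n1 (-2650, 10490) (by decide +kernel)
          (CovZ.leaf K2_ok TY_l6035 _)
          (CovZ.leaf K2_ok TY_l6036 _)))
        (CovZ.n1 (-2656, 10492) (by decide +kernel)
         (CovZ.leaf K2_ok TY_l6037 _)
         (CovZ.leaf K2_ok TY_l6038 _)))
       (CovZ.n1 (-2652, 10484) (by decide +kernel)
        (CovZ.n2 (-2656, 10484) (by decide +kernel)
         (CovZ.n2 (-2654, 10486) (by decide +kernel)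
          (CovZ.leaf K3_ok TY_l6039 _)
          (CovZ.leaf K3_ok TY_l6040 _))
         (CovZ.n1 (-2654, 10482) (by decide +kernel)
          (CovZ.leaf K3_ok TY_l6041 _)
          (CovZ.leaf K2_ok TY_l6042 _)))
        (CovZ.n1 (-2652, 10488) (by decide +kernel)
         (CovZ.leaf K3_ok TY_l6043 _)
         (CovZ.n1 (-2654, 10486) (by decide +kernel)
          (CovZ.leaf K3_ok TY_l6044 _)
          (CovZ.leaf K2_ok TY_l6045 _))))))
     (CovZ.n1 (-2648, 10472) (by decide +kernel)
      (CovZ.n2 (-2656, 10472) (by decide +kernel)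
       (CovZ.n2 (-2652, 10476) (by decide +kernel)
        (CovZ.n2 (-2652, 10472) (by decide +kernel)
         (CovZ.n2 (-2654, 10474) (by decide +kernel)
          (CovZ.n2 (-2652, 10474) (by decide +kernel)
           (CovZ.n2 (-2653, 10473) (by decide +kernel)
            (CovZ.leaf K3_ok TY_l6046 _)
            (CovZ.leaf K3_ok TY_l6047 _))
           (CovZ.leaf K3_ok TY_l6048 _))
          (CovZ.n1 (-2654, 10472) (by decide +kernel)
           (CovZ.leaf K3_ok TY_l6049 _)
           (CovZ.n1 (-2653, 10473) (by decide +kernel)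
            (CovZ.leaf K3_ok TY_l6050 _)
            (CovZ.leaf K3_ok TY_l6051 _))))
         (CovZ.n1 (-2650, 10474) (by decide +kernel)
          (CovZ.badM (by decide +kernel))
          (CovZ.n1 (-2652, 10474) (by decide +kernel)
           (CovZ.leaf K3_ok TY_l6052 _)
           (CovZ.n1 (-2651, 10473) (by decide +kernel)
            (CovZ.leaf K3_ok TY_l6053 _)
            (CovZ.n1 (-2651, 10474) (by decide +kernel)
             (CovZ.badM (by decide +kernel))
             (CovZ.leaf K3_ok TY_l6054 _))))))
        (CovZ.n1 (-2656, 10476) (by decide +kernel)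
         (CovZ.n2 (-2654, 10478) (by decide +kernel)
          (CovZ.n2 (-2654, 10476) (by decide +kernel)
           (CovZ.n2 (-2655, 10477) (by decide +kernel)
            (CovZ.leaf K3_ok TY_l6055 _)
            (CovZ.leaf K3_ok TY_l6056 _))
           (CovZ.leaf K3_ok TY_l6057 _))
          (CovZ.leaf K3_ok TY_l6058 _))
         (CovZ.n1 (-2654, 10474) (by decide +kernel)
          (CovZ.n2 (-2656, 10474) (by decide +kernel)
           (CovZ.leaf K3_ok TY_l6059 _)
           (CovZ.leaf K3_ok TY_l6060 _))
          (CovZ.n1 (-2654, 10476) (by decide +kernel)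
           (CovZ.leaf K3_ok TY_l6061 _)
           (CovZ.leaf K2_ok TY_l6062 _)))))
       (CovZ.n1 (-2652, 10468) (by decide +kernel)
        (CovZ.n2 (-2656, 10468) (by decide +kernel)
         (CovZ.n2 (-2654, 10470) (by decide +kernel)
          (CovZ.badM (by decide +kernel))
          (CovZ.n1 (-2656, 10470) (by decide +kernel)
           (CovZ.leaf K3_ok TY_l6063 _)
           (CovZ.leaf K3_ok TY_l6064 _)))
         (CovZ.badM (by decide +kernel)))
        (CovZ.n1 (-2652, 10472) (by decide +kernel)
         (CovZ.badM (by decide +kernel))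
         (CovZ.n1 (-2654, 10470) (by decide +kernel)
          (CovZ.n2 (-2654, 10472) (by decide +kernel)
           (CovZ.n2 (-2653, 10471) (by decide +kernel)
            (CovZ.leaf K2_ok TY_l6065 _)
            (CovZ.n1 (-2653, 10472) (by decide +kernel)
             (CovZ.badM (by decide +kernel))
             (CovZ.leaf K3_ok TY_l6066 _)))
           (CovZ.n1 (-2655, 10471) (by decide +kernel)
            (CovZ.leaf K3_ok TY_l6067 _)
            (CovZ.leaf K3_ok TY_l6068 _)))
          (CovZ.badM (by decide +kernel))))))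
      (CovZ.n1 (-2648, 10480) (by decide +kernel)
       (CovZ.n2 (-2644, 10476) (by decide +kernel)
        (CovZ.n2 (-2648, 10476) (by decide +kernel)
         (CovZ.n2 (-2646, 10478) (by decide +kernel)
          (CovZ.badM (by decide +kernel))
          (CovZ.n1 (-2648, 10478) (by decide +kernel)
           (CovZ.leaf K3_ok TY_l6069 _)
           (CovZ.badM (by decide +kernel))))
         (CovZ.badM (by decide +kernel)))
        (CovZ.n1 (-2644, 10480) (by decide +kernel)
         (CovZ.badM (by decide +kernel))
         (CovZ.n1 (-2646, 10478) (by decide +kernel)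
          (CovZ.n2 (-2646, 10480) (by decide +kernel)
           (CovZ.badM (by decide +kernel))
           (CovZ.n1 (-2647, 10479) (by decide +kernel)
            (CovZ.leaf K3_ok TY_l6070 _)
            (CovZ.badM (by decide +kernel))))
          (CovZ.badM (by decide +kernel)))))
       (CovZ.n1 (-2652, 10476) (by decide +kernel)
        (CovZ.n2 (-2652, 10480) (by decide +kernel)
         (CovZ.n2 (-2650, 10478) (by decide +kernel)
          (CovZ.n2 (-2652, 10478) (by decide +kernel)
           (CovZ.leaf K3_ok TY_l6071 _)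
           (CovZ.leaf K3_ok TY_l6072 _))
          (CovZ.n1 (-2650, 10480) (by decide +kernel)
           (CovZ.leaf K3_ok TY_l6073 _)
           (CovZ.leaf K3_ok TY_l6074 _)))
         (CovZ.n1 (-2654, 10478) (by decide +kernel)
          (CovZ.n2 (-2654, 10480) (by decide +kernel)
           (CovZ.leaf K3_ok TY_l6075 _)
           (CovZ.leaf K2_ok TY_l6076 _))
          (CovZ.leaf K3_ok TY_l6077 _)))
        (CovZ.n1 (-2648, 10476) (by decide +kernel)
         (CovZ.n2 (-2650, 10474) (by decide +kernel)
          (CovZ.n2 (-2650, 10476) (by decide +kernel)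
           (CovZ.n2 (-2649, 10475) (by decide +kernel)
            (CovZ.leaf K3_ok TY_l6078 _)
            (CovZ.n1 (-2649, 10476) (by decide +kernel)
             (CovZ.badM (by decide +kernel))
             (CovZ.leaf K2_ok TY_l6079 _)))
           (CovZ.n1 (-2651, 10475) (by decide +kernel)
            (CovZ.leaf K3_ok TY_l6080 _)
            (CovZ.n1 (-2650, 10475) (by decide +kernel)
             (CovZ.leaf K2_ok TY_l6081 _)
             (CovZ.leaf K3_ok TY_l6082 _))))
          (CovZ.badM (by decide +kernel)))
         (CovZ.n1 (-2650, 10478) (by decide +kernel)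
          (CovZ.n2 (-2648, 10478) (by decide +kernel)
           (CovZ.n2 (-2649, 10477) (by decide +kernel)
            (CovZ.n2 (-2649, 10478) (by decide +kernel)
             (CovZ.leaf K2_ok TY_l6083 _)
             (CovZ.leaf K2_ok TY_l6084 _))
            (CovZ.leaf K3_ok TY_l6085 _))
           (CovZ.leaf K2_ok TY_l6086 _))
          (CovZ.n1 (-2650, 10476) (by decide +kernel)
           (CovZ.n2 (-2651, 10477) (by decide +kernel)
            (CovZ.leaf K2_ok TY_l6087 _)
            (CovZ.leaf K3_ok TY_l6088 _))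
           (CovZ.n1 (-2649, 10477) (by decide +kernel)
            (CovZ.leaf K2_ok TY_l6089 _)
            (CovZ.leaf K3_ok TY_l6090 _)))))))))

theorem TY_u21 : CovZ TY_M (toL (selN TY_LN 7)) [0, 7, 4, 3] (-2640, 10480) (-2624, 10496) (-2656, 10496) :=
    (CovZ.n1 (-2640, 10496) (by decide +kernel)
     (CovZ.n2 (-2632, 10488) (by decide +kernel)
      (CovZ.n2 (-2640, 10488) (by decide +kernel)
       (CovZ.n2 (-2636, 10492) (by decide +kernel)
        (CovZ.n2 (-2636, 10488) (by decide +kernel)
         (CovZ.n2 (-2638, 10490) (by decide +kernel)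
          (CovZ.n2 (-2636, 10490) (by decide +kernel)
           (CovZ.n2 (-2637, 10489) (by decide +kernel)
            (CovZ.leaf K3_ok TY_l6091 _)
            (CovZ.badM (by decide +kernel)))
           (CovZ.n1 (-2637, 10491) (by decide +kernel)
            (CovZ.leaf K2_ok TY_l6092 _)
            (CovZ.leaf K3_ok TY_l6093 _)))
          (CovZ.n1 (-2638, 10488) (by decide +kernel)
           (CovZ.n2 (-2639, 10489) (by decide +kernel)
            (CovZ.leaf K2_ok TY_l6094 _)
            (CovZ.leaf K3_ok TY_l6095 _))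
           (CovZ.n1 (-2637, 10489) (by decide +kernel)
            (CovZ.badM (by decide +kernel))
            (CovZ.leaf K2_ok TY_l6096 _))))
         (CovZ.n1 (-2634, 10490) (by decide +kernel)
          (CovZ.badM (by decide +kernel))
          (CovZ.n1 (-2636, 10490) (by decide +kernel)
           (CovZ.n2 (-2635, 10491) (by decide +kernel)
            (CovZ.badM (by decide +kernel))
            (CovZ.leaf K3_ok TY_l6097 _))
           (CovZ.badM (by decide +kernel)))))
        (CovZ.n1 (-2640, 10492) (by decide +kernel)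
         (CovZ.n2 (-2638, 10494) (by decide +kernel)
          (CovZ.n2 (-2638, 10492) (by decide +kernel)
           (CovZ.leaf K2_ok TY_l6098 _)
           (CovZ.leaf K2_ok TY_l6099 _))
          (CovZ.leaf K2_ok TY_l6100 _))
         (CovZ.n1 (-2638, 10490) (by decide +kernel)
          (CovZ.n2 (-2640, 10490) (by decide +kernel)
           (CovZ.n2 (-2639, 10491) (by decide +kernel)
            (CovZ.leaf K2_ok TY_l6101 _)
            (CovZ.leaf K3_ok TY_l6102 _))
           (CovZ.leaf K3_ok TY_l6103 _))
          (CovZ.n1 (-2638, 10492) (by decide +kernel)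
           (CovZ.leaf K3_ok TY_l6104 _)
           (CovZ.n1 (-2639, 10491) (by decide +kernel)
            (CovZ.leaf K2_ok TY_l6105 _)
            (CovZ.leaf K2_ok TY_l6106 _))))))
       (CovZ.n1 (-2636, 10484) (by decide +kernel)
        (CovZ.n2 (-2640, 10484) (by decide +kernel)
         (CovZ.n2 (-2638, 10486) (by decide +kernel)
          (CovZ.badM (by decide +kernel))
          (CovZ.n1 (-2640, 10486) (by decide +kernel)
           (CovZ.n2 (-2639, 10487) (by decide +kernel)
            (CovZ.badM (by decide +kernel))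
            (CovZ.leaf K3_ok TY_l6107 _))
           (CovZ.badM (by decide +kernel))))
         (CovZ.badM (by decide +kernel)))
        (CovZ.n1 (-2636, 10488) (by decide +kernel)
         (CovZ.badM (by decide +kernel))
         (CovZ.n1 (-2638, 10486) (by decide +kernel)
          (CovZ.n2 (-2638, 10488) (by decide +kernel)
           (CovZ.badM (by decide +kernel))
           (CovZ.n1 (-2639, 10487) (by decide +kernel)
            (CovZ.leaf K3_ok TY_l6108 _)
            (CovZ.badM (by decide +kernel))))
          (CovZ.badM (by decide +kernel))))))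
      (CovZ.n1 (-2632, 10496) (by decide +kernel)
       (CovZ.n2 (-2628, 10492) (by decide +kernel)
        (CovZ.n2 (-2632, 10492) (by decide +kernel)
         (CovZ.n2 (-2630, 10494) (by decide +kernel)
          (CovZ.badM (by decide +kernel))
          (CovZ.n1 (-2632, 10494) (by decide +kernel)
           (CovZ.n2 (-2631, 10495) (by decide +kernel)
            (CovZ.badM (by decide +kernel))
            (CovZ.leaf K2_ok TY_l6109 _))
           (CovZ.badM (by decide +kernel))))
         (CovZ.badM (by decide +kernel)))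
        (CovZ.n1 (-2628, 10496) (by decide +kernel)
         (CovZ.badM (by decide +kernel))
         (CovZ.n1 (-2630, 10494) (by decide +kernel)
          (CovZ.n2 (-2630, 10496) (by decide +kernel)
           (CovZ.badM (by decide +kernel))
           (CovZ.n1 (-2631, 10495) (by decide +kernel)
            (CovZ.leaf K2_ok TY_l6110 _)
            (CovZ.badM (by decide +kernel))))
          (CovZ.badM (by decide +kernel)))))
       (CovZ.n1 (-2636, 10492) (by decide +kernel)
        (CovZ.n2 (-2636, 10496) (by decide +kernel)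
         (CovZ.n2 (-2634, 10494) (by decide +kernel)
          (CovZ.n2 (-2636, 10494) (by decide +kernel)
           (CovZ.leaf K3_ok TY_l6111 _)
           (CovZ.leaf K3_ok TY_l6112 _))
          (CovZ.n1 (-2634, 10496) (by decide +kernel)
           (CovZ.leaf K2_ok TY_l6113 _)
           (CovZ.n1 (-2635, 10495) (by decide +kernel)
            (CovZ.leaf K3_ok TY_l6114 _)
            (CovZ.leaf K2_ok TY_l6115 _))))
         (CovZ.n1 (-2638, 10494) (by decide +kernel)
          (CovZ.n2 (-2638, 10496) (by decide +kernel)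
           (CovZ.n2 (-2637, 10495) (by decide +kernel)
            (CovZ.leaf K3_ok TY_l6116 _)
            (CovZ.leaf K2_ok TY_l6117 _))
           (CovZ.leaf K3_ok TY_l6118 _))
          (CovZ.n1 (-2636, 10494) (by decide +kernel)
           (CovZ.n2 (-2637, 10493) (by decide +kernel)
            (CovZ.leaf K2_ok TY_l6119 _)
            (CovZ.leaf K2_ok TY_l6120 _))
           (CovZ.leaf K2_ok TY_l6121 _))))
        (CovZ.n1 (-2632, 10492) (by decide +kernel)
         (CovZ.n2 (-2634, 10490) (by decide +kernel)
          (CovZ.n2 (-2634, 10492) (by decide +kernel)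
           (CovZ.badM (by decide +kernel))
           (CovZ.n1 (-2635, 10491) (by decide +kernel)
            (CovZ.n2 (-2635, 10492) (by decide +kernel)
             (CovZ.leaf K3_ok TY_l6122 _)
             (CovZ.leaf K3_ok TY_l6123 _))
            (CovZ.badM (by decide +kernel))))
          (CovZ.badM (by decide +kernel)))
         (CovZ.n1 (-2634, 10494) (by decide +kernel)
          (CovZ.n2 (-2632, 10494) (by decide +kernel)
           (CovZ.n2 (-2633, 10493) (by decide +kernel)
            (CovZ.n2 (-2633, 10494) (by decide +kernel)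
             (CovZ.leaf K2_ok TY_l6124 _)
             (CovZ.leaf K2_ok TY_l6125 _))
            (CovZ.badM (by decide +kernel)))
           (CovZ.leaf K2_ok TY_l6126 _))
          (CovZ.n1 (-2634, 10492) (by decide +kernel)
           (CovZ.n2 (-2635, 10493) (by decide +kernel)
            (CovZ.leaf K2_ok TY_l6127 _)
            (CovZ.leaf K3_ok TY_l6128 _))
           (CovZ.n1 (-2633, 10493) (by decide +kernel)
            (CovZ.badM (by decide +kernel))
            (CovZ.leaf K2_ok TY_l6129 _))))))))
     (CovZ.n1 (-2648, 10488) (by decide +kernel)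
      (CovZ.n2 (-2648, 10496) (by decide +kernel)
       (CovZ.n2 (-2644, 10492) (by decide +kernel)
        (CovZ.n2 (-2648, 10492) (by decide +kernel)
         (CovZ.n2 (-2646, 10494) (by decide +kernel)
          (CovZ.leaf K2_ok TY_l6130 _)
          (CovZ.leaf K3_ok TY_l6131 _))
         (CovZ.n1 (-2646, 10490) (by decide +kernel)
          (CovZ.leaf K3_ok TY_l6132 _)
          (CovZ.leaf K3_ok TY_l6133 _)))
        (CovZ.n1 (-2644, 10496) (by decide +kernel)
         (CovZ.n2 (-2642, 10494) (by decide +kernel)
          (CovZ.leaf K2_ok TY_l6134 _)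
          (CovZ.leaf K2_ok TY_l6135 _))
         (CovZ.n1 (-2646, 10494) (by decide +kernel)
          (CovZ.leaf K3_ok TY_l6136 _)
          (CovZ.leaf K3_ok TY_l6137 _))))
       (CovZ.n1 (-2652, 10492) (by decide +kernel)
        (CovZ.n2 (-2652, 10496) (by decide +kernel)
         (CovZ.leaf K3_ok TY_l6138 _)
         (CovZ.n1 (-2654, 10494) (by decide +kernel)
          (CovZ.leaf K3_ok TY_l6139 _)
          (CovZ.leaf K3_ok TY_l6140 _)))
        (CovZ.n1 (-2648, 10492) (by decide +kernel)
         (CovZ.n2 (-2650, 10490) (by decide +kernel)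
          (CovZ.leaf K3_ok TY_l6141 _)
          (CovZ.leaf K3_ok TY_l6142 _))
         (CovZ.n1 (-2650, 10494) (by decide +kernel)
          (CovZ.leaf K2_ok TY_l6143 _)
          (CovZ.leaf K3_ok TY_l6144 _)))))
      (CovZ.n1 (-2640, 10488) (by decide +kernel)
       (CovZ.n2 (-2644, 10484) (by decide +kernel)
        (CovZ.n2 (-2644, 10488) (by decide +kernel)
         (CovZ.n2 (-2642, 10486) (by decide +kernel)
          (CovZ.n2 (-2644, 10486) (by decide +kernel)
           (CovZ.n2 (-2643, 10487) (by decide +kernel)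
            (CovZ.n2 (-2643, 10486) (by decide +kernel)
             (CovZ.leaf K3_ok TY_l6145 _)
             (CovZ.leaf K2_ok TY_l6146 _))
            (CovZ.leaf K2_ok TY_l6147 _))
           (CovZ.n1 (-2643, 10485) (by decide +kernel)
            (CovZ.leaf K2_ok TY_l6148 _)
            (CovZ.leaf K3_ok TY_l6149 _)))
          (CovZ.n1 (-2642, 10488) (by decide +kernel)
           (CovZ.leaf K2_ok TY_l6150 _)
           (CovZ.leaf K2_ok TY_l6151 _)))
         (CovZ.n1 (-2646, 10486) (by decide +kernel)
          (CovZ.n2 (-2646, 10488) (by decide +kernel)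
           (CovZ.leaf K3_ok TY_l6152 _)
           (CovZ.leaf K2_ok TY_l6153 _))
          (CovZ.n1 (-2644, 10486) (by decide +kernel)
           (CovZ.n2 (-2645, 10485) (by decide +kernel)
            (CovZ.leaf K3_ok TY_l6154 _)
            (CovZ.leaf K2_ok TY_l6155 _))
           (CovZ.leaf K3_ok TY_l6156 _))))
        (CovZ.n1 (-2640, 10484) (by decide +kernel)
         (CovZ.n2 (-2642, 10482) (by decide +kernel)
          (CovZ.n2 (-2642, 10484) (by decide +kernel)
           (CovZ.badM (by decide +kernel))
           (CovZ.n1 (-2643, 10483) (by decide +kernel)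
            (CovZ.n2 (-2643, 10484) (by decide +kernel)
             (CovZ.leaf K2_ok TY_l6157 _)
             (CovZ.leaf K3_ok TY_l6158 _))
            (CovZ.badM (by decide +kernel))))
          (CovZ.badM (by decide +kernel)))
         (CovZ.n1 (-2642, 10486) (by decide +kernel)
          (CovZ.n2 (-2640, 10486) (by decide +kernel)
           (CovZ.n2 (-2641, 10485) (by decide +kernel)
            (CovZ.n2 (-2641, 10486) (by decide +kernel)
             (CovZ.leaf K2_ok TY_l6159 _)
             (CovZ.leaf K3_ok TY_l6160 _))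
            (CovZ.badM (by decide +kernel)))
           (CovZ.n1 (-2641, 10487) (by decide +kernel)
            (CovZ.leaf K2_ok TY_l6161 _)
            (CovZ.leaf K3_ok TY_l6162 _)))
          (CovZ.n1 (-2642, 10484) (by decide +kernel)
           (CovZ.n2 (-2643, 10485) (by decide +kernel)
            (CovZ.leaf K2_ok TY_l6163 _)
            (CovZ.n1 (-2643, 10484) (by decide +kernel)
             (CovZ.leaf K3_ok TY_l6164 _)
             (CovZ.leaf K3_ok TY_l6165 _)))
           (CovZ.n1 (-2641, 10485) (by decide +kernel)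
            (CovZ.badM (by decide +kernel))
            (CovZ.leaf K2_ok TY_l6166 _))))))
       (CovZ.n1 (-2644, 10492) (by decide +kernel)
        (CovZ.n2 (-2640, 10492) (by decide +kernel)
         (CovZ.n2 (-2642, 10490) (by decide +kernel)
          (CovZ.n2 (-2642, 10492) (by decide +kernel)
           (CovZ.leaf K3_ok TY_l6167 _)
           (CovZ.n1 (-2643, 10491) (by decide +kernel)
            (CovZ.leaf K3_ok TY_l6168 _)
            (CovZ.leaf K2_ok TY_l6169 _)))
          (CovZ.n1 (-2640, 10490) (by decide +kernel)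
           (CovZ.n2 (-2641, 10489) (by decide +kernel)
            (CovZ.leaf K3_ok TY_l6170 _)
            (CovZ.leaf K2_ok TY_l6171 _))
           (CovZ.leaf K3_ok TY_l6172 _)))
         (CovZ.n1 (-2642, 10494) (by decide +kernel)
          (CovZ.leaf K2_ok TY_l6173 _)
          (CovZ.n1 (-2642, 10492) (by decide +kernel)
           (CovZ.leaf K3_ok TY_l6174 _)
           (CovZ.n1 (-2641, 10493) (by decide +kernel)
            (CovZ.n2 (-2641, 10492) (by decide +kernel)
             (CovZ.leaf K3_ok TY_l6175 _)
             (CovZ.leaf K3_ok TY_l6176 _))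
            (CovZ.leaf K2_ok TY_l6177 _)))))
        (CovZ.n1 (-2644, 10488) (by decide +kernel)
         (CovZ.n2 (-2646, 10490) (by decide +kernel)
          (CovZ.leaf K3_ok TY_l6178 _)
          (CovZ.n1 (-2646, 10488) (by decide +kernel)
           (CovZ.leaf K3_ok TY_l6179 _)
           (CovZ.leaf K2_ok TY_l6180 _)))
         (CovZ.n1 (-2642, 10490) (by decide +kernel)
          (CovZ.n2 (-2642, 10488) (by decide +kernel)
           (CovZ.leaf K3_ok TY_l6181 _)
           (CovZ.leaf K2_ok TY_l6182 _))
          (CovZ.leaf K3_ok TY_l6183 _)))))))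

theorem TY_u22 : CovZ TY_M (toL (selN TY_LN 7)) [0, 7, 4, 3] (-2752, 10528) (-2768, 10512) (-2752, 10496) :=
    (CovZ.n2 (-2752, 10512) (by decide +kernel)
     (CovZ.n2 (-2760, 10504) (by decide +kernel)
      (CovZ.n2 (-2760, 10512) (by decide +kernel)
       (CovZ.n2 (-2756, 10508) (by decide +kernel)
        (CovZ.n2 (-2760, 10508) (by decide +kernel)
         (CovZ.n2 (-2758, 10510) (by decide +kernel)
          (CovZ.n2 (-2758, 10508) (by decide +kernel)
           (CovZ.leaf K3_ok TY_l1796 _)
           (CovZ.leaf K3_ok TY_l1797 _))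
          (CovZ.leaf K3_ok TY_l1798 _))
         (CovZ.leaf K3_ok TY_l1799 _))
        (CovZ.n1 (-2756, 10512) (by decide +kernel)
         (CovZ.n2 (-2754, 10510) (by decide +kernel)
          (CovZ.leaf K2_ok TY_l1800 _)
          (CovZ.leaf K3_ok TY_l1801 _))
         (CovZ.n1 (-2758, 10510) (by decide +kernel)
          (CovZ.n2 (-2758, 10512) (by decide +kernel)
           (CovZ.leaf K3_ok TY_l1802 _)
           (CovZ.leaf K3_ok TY_l1803 _))
          (CovZ.leaf K3_ok TY_l1804 _))))
       (CovZ.n1 (-2764, 10508) (by decide +kernel)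
        (CovZ.n2 (-2764, 10512) (by decide +kernel)
         (CovZ.n2 (-2762, 10510) (by decide +kernel)
          (CovZ.n2 (-2764, 10510) (by decide +kernel)
           (CovZ.leaf K3_ok TY_l1805 _)
           (CovZ.leaf K3_ok TY_l1806 _))
          (CovZ.n1 (-2762, 10512) (by decide +kernel)
           (CovZ.leaf K3_ok TY_l1807 _)
           (CovZ.leaf K3_ok TY_l1808 _)))
         (CovZ.n1 (-2766, 10510) (by decide +kernel)
          (CovZ.n2 (-2766, 10512) (by decide +kernel)
           (CovZ.leaf K3_ok TY_l1809 _)
           (CovZ.n1 (-2767, 10511) (by decide +kernel)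
            (CovZ.leaf K2_ok TY_l1810 _)
            (CovZ.leaf K3_ok TY_l1811 _)))
          (CovZ.n1 (-2764, 10510) (by decide +kernel)
           (CovZ.leaf K3_ok TY_l1812 _)
           (CovZ.leaf K3_ok TY_l1813 _))))
        (CovZ.n1 (-2760, 10508) (by decide +kernel)
         (CovZ.n2 (-2762, 10506) (by decide +kernel)
          (CovZ.n2 (-2762, 10508) (by decide +kernel)
           (CovZ.leaf K3_ok TY_l1814 _)
           (CovZ.n1 (-2763, 10507) (by decide +kernel)
            (CovZ.leaf K3_ok TY_l1815 _)
            (CovZ.leaf K3_ok TY_l1816 _)))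
          (CovZ.leaf K3_ok TY_l1817 _))
         (CovZ.n1 (-2762, 10510) (by decide +kernel)
          (CovZ.n2 (-2760, 10510) (by decide +kernel)
           (CovZ.n2 (-2761, 10509) (by decide +kernel)
            (CovZ.leaf K2_ok TY_l1818 _)
            (CovZ.leaf K3_ok TY_l1819 _))
           (CovZ.leaf K3_ok TY_l1820 _))
          (CovZ.n1 (-2762, 10508) (by decide +kernel)
           (CovZ.leaf K3_ok TY_l1821 _)
           (CovZ.leaf K3_ok TY_l1822 _))))))
      (CovZ.n1 (-2752, 10504) (by decide +kernel)
       (CovZ.n2 (-2756, 10500) (by decide +kernel)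
        (CovZ.n2 (-2756, 10504) (by decide +kernel)
         (CovZ.leaf K3_ok TY_l1823 _)
         (CovZ.n1 (-2758, 10502) (by decide +kernel)
          (CovZ.leaf K2_ok TY_l1824 _)
          (CovZ.leaf K3_ok TY_l1825 _)))
        (CovZ.n1 (-2752, 10500) (by decide +kernel)
         (CovZ.n2 (-2754, 10498) (by decide +kernel)
          (CovZ.leaf K3_ok TY_l1826 _)
          (CovZ.leaf K3_ok TY_l1827 _))
         (CovZ.n1 (-2754, 10502) (by decide +kernel)
          (CovZ.leaf K3_ok TY_l1828 _)
          (CovZ.leaf K3_ok TY_l1829 _))))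
       (CovZ.n1 (-2756, 10508) (by decide +kernel)
        (CovZ.n2 (-2752, 10508) (by decide +kernel)
         (CovZ.n2 (-2754, 10506) (by decide +kernel)
          (CovZ.n2 (-2754, 10508) (by decide +kernel)
           (CovZ.leaf K2_ok TY_l1830 _)
           (CovZ.leaf K2_ok TY_l1831 _))
          (CovZ.leaf K3_ok TY_l1832 _))
         (CovZ.n1 (-2754, 10510) (by decide +kernel)
          (CovZ.leaf K3_ok TY_l1833 _)
          (CovZ.n1 (-2754, 10508) (by decide +kernel)
           (CovZ.leaf K2_ok TY_l1834 _)
           (CovZ.n1 (-2753, 10509) (by decide +kernel)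
            (CovZ.leaf K3_ok TY_l1835 _)
            (CovZ.leaf K3_ok TY_l1836 _)))))
        (CovZ.n1 (-2756, 10504) (by decide +kernel)
         (CovZ.n2 (-2758, 10506) (by decide +kernel)
          (CovZ.leaf K3_ok TY_l1837 _)
          (CovZ.n1 (-2758, 10504) (by decide +kernel)
           (CovZ.leaf K3_ok TY_l1838 _)
           (CovZ.leaf K3_ok TY_l1839 _)))
         (CovZ.n1 (-2754, 10506) (by decide +kernel)
          (CovZ.leaf K2_ok TY_l1840 _)
          (CovZ.leaf K3_ok TY_l1841 _))))))
     (CovZ.n1 (-2760, 10520) (by decide +kernel)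
      (CovZ.n2 (-2752, 10520) (by decide +kernel)
       (CovZ.n2 (-2756, 10516) (by decide +kernel)
        (CovZ.n2 (-2756, 10520) (by decide +kernel)
         (CovZ.n2 (-2754, 10518) (by decide +kernel)
          (CovZ.n2 (-2756, 10518) (by decide +kernel)
           (CovZ.leaf K3_ok TY_l1842 _)
           (CovZ.leaf K3_ok TY_l1843 _))
          (CovZ.n1 (-2754, 10520) (by decide +kernel)
           (CovZ.leaf K3_ok TY_l1844 _)
           (CovZ.leaf K3_ok TY_l1845 _)))
         (CovZ.n1 (-2758, 10518) (by decide +kernel)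
          (CovZ.n2 (-2758, 10520) (by decide +kernel)
           (CovZ.leaf K3_ok TY_l1846 _)
           (CovZ.leaf K3_ok TY_l1847 _))
          (CovZ.n1 (-2756, 10518) (by decide +kernel)
           (CovZ.n2 (-2757, 10517) (by decide +kernel)
            (CovZ.leaf K3_ok TY_l1848 _)
            (CovZ.leaf K3_ok TY_l1849 _))
           (CovZ.leaf K3_ok TY_l1850 _))))
        (CovZ.n1 (-2752, 10516) (by decide +kernel)
         (CovZ.n2 (-2754, 10514) (by decide +kernel)
          (CovZ.n2 (-2754, 10516) (by decide +kernel)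
           (CovZ.leaf K2_ok TY_l1851 _)
           (CovZ.n1 (-2755, 10515) (by decide +kernel)
            (CovZ.leaf K3_ok TY_l1852 _)
            (CovZ.leaf K3_ok TY_l1853 _)))
          (CovZ.leaf K3_ok TY_l1854 _))
         (CovZ.n1 (-2754, 10518) (by decide +kernel)
          (CovZ.n2 (-2752, 10518) (by decide +kernel)
           (CovZ.leaf K2_ok TY_l1855 _)
           (CovZ.leaf K3_ok TY_l1856 _))
          (CovZ.n1 (-2754, 10516) (by decide +kernel)
           (CovZ.leaf K3_ok TY_l1857 _)
           (CovZ.leaf K3_ok TY_l1858 _)))))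
       (CovZ.n1 (-2756, 10524) (by decide +kernel)
        (CovZ.n2 (-2752, 10524) (by decide +kernel)
         (CovZ.n2 (-2754, 10522) (by decide +kernel)
          (CovZ.n2 (-2754, 10524) (by decide +kernel)
           (CovZ.leaf K3_ok TY_l1859 _)
           (CovZ.n1 (-2755, 10523) (by decide +kernel)
            (CovZ.leaf K3_ok TY_l1860 _)
            (CovZ.leaf K3_ok TY_l1861 _)))
          (CovZ.n1 (-2752, 10522) (by decide +kernel)
           (CovZ.n2 (-2753, 10521) (by decide +kernel)
            (CovZ.leaf K3_ok TY_l1862 _)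
            (CovZ.leaf K3_ok TY_l1863 _))
           (CovZ.leaf K3_ok TY_l1864 _)))
         (CovZ.n1 (-2754, 10526) (by decide +kernel)
          (CovZ.n2 (-2752, 10526) (by decide +kernel)
           (CovZ.leaf K3_ok TY_l1865 _)
           (CovZ.leaf K2_ok TY_l1866 _))
          (CovZ.n1 (-2754, 10524) (by decide +kernel)
           (CovZ.leaf K2_ok TY_l1867 _)
           (CovZ.n1 (-2753, 10525) (by decide +kernel)
            (CovZ.leaf K3_ok TY_l1868 _)
            (CovZ.leaf K3_ok TY_l1869 _)))))
        (CovZ.n1 (-2756, 10520) (by decide +kernel)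
         (CovZ.n2 (-2758, 10522) (by decide +kernel)
          (CovZ.n2 (-2756, 10522) (by decide +kernel)
           (CovZ.leaf K3_ok TY_l1870 _)
           (CovZ.leaf K3_ok TY_l1871 _))
          (CovZ.n1 (-2758, 10520) (by decide +kernel)
           (CovZ.leaf K3_ok TY_l1872 _)
           (CovZ.n1 (-2757, 10521) (by decide +kernel)
            (CovZ.leaf K2_ok TY_l1873 _)
            (CovZ.leaf K3_ok TY_l1874 _))))
         (CovZ.n1 (-2754, 10522) (by decide +kernel)
          (CovZ.n2 (-2754, 10520) (by decide +kernel)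
           (CovZ.leaf K3_ok TY_l1875 _)
           (CovZ.leaf K2_ok TY_l1876 _))
          (CovZ.n1 (-2756, 10522) (by decide +kernel)
           (CovZ.leaf K3_ok TY_l1877 _)
           (CovZ.leaf K3_ok TY_l1878 _))))))
      (CovZ.n1 (-2760, 10512) (by decide +kernel)
       (CovZ.n2 (-2764, 10516) (by decide +kernel)
        (CovZ.n2 (-2760, 10516) (by decide +kernel)
         (CovZ.n2 (-2762, 10514) (by decide +kernel)
          (CovZ.n2 (-2762, 10516) (by decide +kernel)
           (CovZ.leaf K3_ok TY_l1879 _)
           (CovZ.n1 (-2763, 10515) (by decide +kernel)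
            (CovZ.leaf K3_ok TY_l1880 _)
            (CovZ.leaf K3_ok TY_l1881 _)))
          (CovZ.leaf K3_ok TY_l1882 _))
         (CovZ.n1 (-2762, 10518) (by decide +kernel)
          (CovZ.leaf K2_ok TY_l1883 _)
          (CovZ.n1 (-2762, 10516) (by decide +kernel)
           (CovZ.leaf K2_ok TY_l1884 _)
           (CovZ.leaf K3_ok TY_l1885 _))))
        (CovZ.n1 (-2764, 10512) (by decide +kernel)
         (CovZ.n2 (-2766, 10514) (by decide +kernel)
          (CovZ.n2 (-2764, 10514) (by decide +kernel)
           (CovZ.leaf K3_ok TY_l1886 _)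
           (CovZ.leaf K3_ok TY_l1887 _))
          (CovZ.n1 (-2766, 10512) (by decide +kernel)
           (CovZ.leaf K3_ok TY_l1888 _)
           (CovZ.leaf K3_ok TY_l1889 _)))
         (CovZ.n1 (-2762, 10514) (by decide +kernel)
          (CovZ.n2 (-2762, 10512) (by decide +kernel)
           (CovZ.leaf K2_ok TY_l1890 _)
           (CovZ.leaf K3_ok TY_l1891 _))
          (CovZ.n1 (-2764, 10514) (by decide +kernel)
           (CovZ.leaf K3_ok TY_l1892 _)
           (CovZ.n1 (-2763, 10513) (by decide +kernel)
            (CovZ.leaf K3_ok TY_l1893 _)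
            (CovZ.leaf K3_ok TY_l1894 _))))))
       (CovZ.n1 (-2756, 10516) (by decide +kernel)
        (CovZ.n2 (-2756, 10512) (by decide +kernel)
         (CovZ.n2 (-2758, 10514) (by decide +kernel)
          (CovZ.n2 (-2756, 10514) (by decide +kernel)
           (CovZ.leaf K3_ok TY_l1895 _)
           (CovZ.leaf K3_ok TY_l1896 _))
          (CovZ.leaf K2_ok TY_l1897 _))
         (CovZ.n1 (-2754, 10514) (by decide +kernel)
          (CovZ.n2 (-2754, 10512) (by decide +kernel)
           (CovZ.leaf K3_ok TY_l1898 _)
           (CovZ.leaf K3_ok TY_l1899 _))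
          (CovZ.leaf K3_ok TY_l1900 _)))
        (CovZ.n1 (-2760, 10516) (by decide +kernel)
         (CovZ.n2 (-2758, 10518) (by decide +kernel)
          (CovZ.n2 (-2758, 10516) (by decide +kernel)
           (CovZ.leaf K3_ok TY_l1901 _)
           (CovZ.n1 (-2757, 10517) (by decide +kernel)
            (CovZ.leaf K2_ok TY_l1902 _)
            (CovZ.leaf K3_ok TY_l1903 _)))
          (CovZ.n1 (-2760, 10518) (by decide +kernel)
           (CovZ.n2 (-2759, 10519) (by decide +kernel)
            (CovZ.leaf K3_ok TY_l1904 _)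
            (CovZ.leaf K3_ok TY_l1905 _))
           (CovZ.leaf K3_ok TY_l1906 _)))
         (CovZ.n1 (-2758, 10514) (by decide +kernel)
          (CovZ.n2 (-2760, 10514) (by decide +kernel)
           (CovZ.leaf K3_ok TY_l1907 _)
           (CovZ.leaf K3_ok TY_l1908 _))
          (CovZ.n1 (-2758, 10516) (by decide +kernel)
           (CovZ.leaf K3_ok TY_l1909 _)
           (CovZ.leaf K3_ok TY_l1910 _))))))))

theorem TY_u23 : CovZ TY_M (toL (selN TY_LN 7)) [0, 7, 4, 3] (-2768, 10512) (-2784, 10496) (-2752, 10496) :=
    (CovZ.n1 (-2768, 10496) (by decide +kernel)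
     (CovZ.n2 (-2776, 10504) (by decide +kernel)
      (CovZ.n2 (-2768, 10504) (by decide +kernel)
       (CovZ.n2 (-2772, 10500) (by decide +kernel)
        (CovZ.n2 (-2772, 10504) (by decide +kernel)
         (CovZ.n2 (-2770, 10502) (by decide +kernel)
          (CovZ.n2 (-2772, 10502) (by decide +kernel)
           (CovZ.leaf K3_ok TY_l1911 _)
           (CovZ.leaf K3_ok TY_l1912 _))
          (CovZ.leaf K3_ok TY_l1913 _))
         (CovZ.n1 (-2774, 10502) (by decide +kernel)
          (CovZ.n2 (-2774, 10504) (by decide +kernel)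
           (CovZ.leaf K3_ok TY_l1914 _)
           (CovZ.n1 (-2775, 10503) (by decide +kernel)
            (CovZ.leaf K3_ok TY_l1915 _)
            (CovZ.leaf K3_ok TY_l1916 _)))
          (CovZ.n1 (-2772, 10502) (by decide +kernel)
           (CovZ.n2 (-2773, 10501) (by decide +kernel)
            (CovZ.leaf K3_ok TY_l1917 _)
            (CovZ.leaf K3_ok TY_l1918 _))
           (CovZ.leaf K3_ok TY_l1919 _))))
        (CovZ.n1 (-2768, 10500) (by decide +kernel)
         (CovZ.n2 (-2770, 10498) (by decide +kernel)
          (CovZ.n2 (-2770, 10500) (by decide +kernel)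
           (CovZ.leaf K3_ok TY_l1920 _)
           (CovZ.leaf K3_ok TY_l1921 _))
          (CovZ.leaf K3_ok TY_l1922 _))
         (CovZ.n1 (-2770, 10502) (by decide +kernel)
          (CovZ.leaf K3_ok TY_l1923 _)
          (CovZ.n1 (-2770, 10500) (by decide +kernel)
           (CovZ.leaf K3_ok TY_l1924 _)
           (CovZ.leaf K3_ok TY_l1925 _)))))
       (CovZ.n1 (-2772, 10508) (by decide +kernel)
        (CovZ.n2 (-2768, 10508) (by decide +kernel)
         (CovZ.n2 (-2770, 10506) (by decide +kernel)
          (CovZ.n2 (-2770, 10508) (by decide +kernel)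
           (CovZ.leaf K3_ok TY_l1926 _)
           (CovZ.n1 (-2771, 10507) (by decide +kernel)
            (CovZ.leaf K3_ok TY_l1927 _)
            (CovZ.leaf K3_ok TY_l1928 _)))
          (CovZ.n1 (-2768, 10506) (by decide +kernel)
           (CovZ.n2 (-2769, 10505) (by decide +kernel)
            (CovZ.leaf K3_ok TY_l1929 _)
            (CovZ.leaf K2_ok TY_l1930 _))
           (CovZ.leaf K2_ok TY_l1931 _)))
         (CovZ.n1 (-2770, 10510) (by decide +kernel)
          (CovZ.n2 (-2768, 10510) (by decide +kernel)
           (CovZ.n2 (-2769, 10509) (by decide +kernel)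
            (CovZ.leaf K3_ok TY_l1932 _)
            (CovZ.leaf K3_ok TY_l1933 _))
           (CovZ.leaf K3_ok TY_l1934 _))
          (CovZ.n1 (-2770, 10508) (by decide +kernel)
           (CovZ.leaf K3_ok TY_l1935 _)
           (CovZ.n1 (-2769, 10509) (by decide +kernel)
            (CovZ.leaf K2_ok TY_l1936 _)
            (CovZ.leaf K3_ok TY_l1937 _)))))
        (CovZ.n1 (-2772, 10504) (by decide +kernel)
         (CovZ.n2 (-2774, 10506) (by decide +kernel)
          (CovZ.n2 (-2772, 10506) (by decide +kernel)
           (CovZ.leaf K3_ok TY_l1938 _)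
           (CovZ.leaf K3_ok TY_l1939 _))
          (CovZ.n1 (-2774, 10504) (by decide +kernel)
           (CovZ.leaf K3_ok TY_l1940 _)
           (CovZ.leaf K3_ok TY_l1941 _)))
         (CovZ.n1 (-2770, 10506) (by decide +kernel)
          (CovZ.n2 (-2770, 10504) (by decide +kernel)
           (CovZ.leaf K3_ok TY_l1942 _)
           (CovZ.leaf K3_ok TY_l1943 _))
          (CovZ.n1 (-2772, 10506) (by decide +kernel)
           (CovZ.leaf K3_ok TY_l1944 _)
           (CovZ.n1 (-2771, 10505) (by decide +kernel)
            (CovZ.leaf K3_ok TY_l1945 _)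
            (CovZ.leaf K3_ok TY_l1946 _)))))))
      (CovZ.n1 (-2776, 10496) (by decide +kernel)
       (CovZ.n2 (-2780, 10500) (by decide +kernel)
        (CovZ.n2 (-2776, 10500) (by decide +kernel)
         (CovZ.n2 (-2778, 10498) (by decide +kernel)
          (CovZ.n2 (-2778, 10500) (by decide +kernel)
           (CovZ.leaf K3_ok TY_l1947 _)
           (CovZ.n1 (-2779, 10499) (by decide +kernel)
            (CovZ.leaf K3_ok TY_l1948 _)
            (CovZ.leaf K3_ok TY_l1949 _)))
          (CovZ.n1 (-2776, 10498) (by decide +kernel)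
           (CovZ.leaf K2_ok TY_l1950 _)
           (CovZ.leaf K2_ok TY_l1951 _)))
         (CovZ.n1 (-2778, 10502) (by decide +kernel)
          (CovZ.n2 (-2776, 10502) (by decide +kernel)
           (CovZ.n2 (-2777, 10501) (by decide +kernel)
            (CovZ.leaf K3_ok TY_l1952 _)
            (CovZ.leaf K2_ok TY_l1953 _))
           (CovZ.leaf K3_ok TY_l1954 _))
          (CovZ.n1 (-2778, 10500) (by decide +kernel)
           (CovZ.leaf K2_ok TY_l1955 _)
           (CovZ.leaf K3_ok TY_l1956 _))))
        (CovZ.n1 (-2780, 10496) (by decide +kernel)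
         (CovZ.n2 (-2782, 10498) (by decide +kernel)
          (CovZ.n2 (-2780, 10498) (by decide +kernel)
           (CovZ.leaf K3_ok TY_l1957 _)
           (CovZ.leaf K3_ok TY_l1958 _))
          (CovZ.n1 (-2782, 10496) (by decide +kernel)
           (CovZ.leaf K2_ok TY_l1959 _)
           (CovZ.n1 (-2781, 10497) (by decide +kernel)
            (CovZ.leaf K3_ok TY_l1960 _)
            (CovZ.leaf K3_ok TY_l1961 _))))
         (CovZ.n1 (-2778, 10498) (by decide +kernel)
          (CovZ.n2 (-2778, 10496) (by decide +kernel)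
           (CovZ.leaf K3_ok TY_l1962 _)
           (CovZ.leaf K3_ok TY_l1963 _))
          (CovZ.leaf K2_ok TY_l1964 _))))
       (CovZ.n1 (-2772, 10500) (by decide +kernel)
        (CovZ.n2 (-2772, 10496) (by decide +kernel)
         (CovZ.n2 (-2774, 10498) (by decide +kernel)
          (CovZ.leaf K3_ok TY_l1965 _)
          (CovZ.n1 (-2774, 10496) (by decide +kernel)
           (CovZ.leaf K3_ok TY_l1966 _)
           (CovZ.leaf K3_ok TY_l1967 _)))
         (CovZ.n1 (-2770, 10498) (by decide +kernel)
          (CovZ.n2 (-2770, 10496) (by decide +kernel)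
           (CovZ.leaf K3_ok TY_l1968 _)
           (CovZ.leaf K3_ok TY_l1969 _))
          (CovZ.leaf K3_ok TY_l1970 _)))
        (CovZ.n1 (-2776, 10500) (by decide +kernel)
         (CovZ.n2 (-2774, 10502) (by decide +kernel)
          (CovZ.n2 (-2774, 10500) (by decide +kernel)
           (CovZ.leaf K3_ok TY_l1971 _)
           (CovZ.leaf K3_ok TY_l1972 _))
          (CovZ.n1 (-2776, 10502) (by decide +kernel)
           (CovZ.leaf K3_ok TY_l1973 _)
           (CovZ.n1 (-2775, 10501) (by decide +kernel)
            (CovZ.leaf K3_ok TY_l1974 _)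
            (CovZ.leaf K3_ok TY_l1975 _))))
         (CovZ.n1 (-2774, 10498) (by decide +kernel)
          (CovZ.n2 (-2776, 10498) (by decide +kernel)
           (CovZ.leaf K3_ok TY_l1976 _)
           (CovZ.leaf K3_ok TY_l1977 _))
          (CovZ.n1 (-2774, 10500) (by decide +kernel)
           (CovZ.leaf K2_ok TY_l1978 _)
           (CovZ.leaf K3_ok TY_l1979 _)))))))
     (CovZ.n1 (-2760, 10504) (by decide +kernel)
      (CovZ.n2 (-2760, 10496) (by decide +kernel)
       (CovZ.n2 (-2764, 10500) (by decide +kernel)
        (CovZ.n2 (-2760, 10500) (by decide +kernel)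
         (CovZ.n2 (-2762, 10498) (by decide +kernel)
          (CovZ.leaf K3_ok TY_l1980 _)
          (CovZ.leaf K3_ok TY_l1981 _))
         (CovZ.n1 (-2762, 10502) (by decide +kernel)
          (CovZ.leaf K3_ok TY_l1982 _)
          (CovZ.leaf K3_ok TY_l1983 _)))
        (CovZ.n1 (-2764, 10496) (by decide +kernel)
         (CovZ.n2 (-2766, 10498) (by decide +kernel)
          (CovZ.leaf K2_ok TY_l1984 _)
          (CovZ.leaf K3_ok TY_l1985 _))
         (CovZ.n1 (-2762, 10498) (by decide +kernel)
          (CovZ.n2 (-2762, 10496) (by decide +kernel)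
           (CovZ.leaf K3_ok TY_l1986 _)
           (CovZ.leaf K3_ok TY_l1987 _))
          (CovZ.leaf K3_ok TY_l1988 _))))
       (CovZ.n1 (-2756, 10500) (by decide +kernel)
        (CovZ.n2 (-2756, 10496) (by decide +kernel)
         (CovZ.leaf K3_ok TY_l1989 _)
         (CovZ.n1 (-2754, 10498) (by decide +kernel)
          (CovZ.leaf K3_ok TY_l1990 _)
          (CovZ.leaf K3_ok TY_l1991 _)))
        (CovZ.n1 (-2760, 10500) (by decide +kernel)
         (CovZ.n2 (-2758, 10502) (by decide +kernel)
          (CovZ.leaf K3_ok TY_l1992 _)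
          (CovZ.leaf K3_ok TY_l1993 _))
         (CovZ.n1 (-2758, 10498) (by decide +kernel)
          (CovZ.leaf K3_ok TY_l1994 _)
          (CovZ.leaf K2_ok TY_l1995 _)))))
      (CovZ.n1 (-2768, 10504) (by decide +kernel)
       (CovZ.n2 (-2764, 10508) (by decide +kernel)
        (CovZ.n2 (-2764, 10504) (by decide +kernel)
         (CovZ.n2 (-2766, 10506) (by decide +kernel)
          (CovZ.n2 (-2764, 10506) (by decide +kernel)
           (CovZ.leaf K3_ok TY_l1996 _)
           (CovZ.leaf K3_ok TY_l1997 _))
          (CovZ.n1 (-2766, 10504) (by decide +kernel)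
           (CovZ.leaf K3_ok TY_l1998 _)
           (CovZ.n1 (-2765, 10505) (by decide +kernel)
            (CovZ.leaf K3_ok TY_l1999 _)
            (CovZ.leaf K3_ok TY_l2000 _))))
         (CovZ.n1 (-2762, 10506) (by decide +kernel)
          (CovZ.n2 (-2762, 10504) (by decide +kernel)
           (CovZ.leaf K3_ok TY_l2001 _)
           (CovZ.leaf K2_ok TY_l2002 _))
          (CovZ.n1 (-2764, 10506) (by decide +kernel)
           (CovZ.n2 (-2763, 10507) (by decide +kernel)
            (CovZ.leaf K3_ok TY_l2003 _)
            (CovZ.leaf K3_ok TY_l2004 _))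
           (CovZ.leaf K3_ok TY_l2005 _))))
        (CovZ.n1 (-2768, 10508) (by decide +kernel)
         (CovZ.n2 (-2766, 10510) (by decide +kernel)
          (CovZ.n2 (-2766, 10508) (by decide +kernel)
           (CovZ.leaf K3_ok TY_l2006 _)
           (CovZ.leaf K3_ok TY_l2007 _))
          (CovZ.n1 (-2768, 10510) (by decide +kernel)
           (CovZ.n2 (-2767, 10511) (by decide +kernel)
            (CovZ.leaf K3_ok TY_l2008 _)
            (CovZ.leaf K3_ok TY_l2009 _))
           (CovZ.leaf K3_ok TY_l2010 _)))
         (CovZ.n1 (-2766, 10506) (by decide +kernel)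
          (CovZ.n2 (-2768, 10506) (by decide +kernel)
           (CovZ.leaf K3_ok TY_l2011 _)
           (CovZ.leaf K3_ok TY_l2012 _))
          (CovZ.n1 (-2766, 10508) (by decide +kernel)
           (CovZ.leaf K3_ok TY_l2013 _)
           (CovZ.n1 (-2767, 10507) (by decide +kernel)
            (CovZ.leaf K3_ok TY_l2014 _)
            (CovZ.leaf K3_ok TY_l2015 _))))))
       (CovZ.n1 (-2764, 10500) (by decide +kernel)
        (CovZ.n2 (-2768, 10500) (by decide +kernel)
         (CovZ.n2 (-2766, 10502) (by decide +kernel)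
          (CovZ.n2 (-2766, 10500) (by decide +kernel)
           (CovZ.leaf K3_ok TY_l2016 _)
           (CovZ.leaf K2_ok TY_l2017 _))
          (CovZ.leaf K3_ok TY_l2018 _))
         (CovZ.leaf K3_ok TY_l2019 _))
        (CovZ.n1 (-2764, 10504) (by decide +kernel)
         (CovZ.n2 (-2762, 10502) (by decide +kernel)
          (CovZ.leaf K2_ok TY_l2020 _)
          (CovZ.n1 (-2762, 10504) (by decide +kernel)
           (CovZ.leaf K3_ok TY_l2021 _)
           (CovZ.leaf K3_ok TY_l2022 _)))
         (CovZ.n1 (-2766, 10502) (by decide +kernel)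
          (CovZ.leaf K3_ok TY_l2023 _)
          (CovZ.leaf K3_ok TY_l2024 _)))))))

theorem TY_u24 : CovZ TY_M (toL (selN TY_LN 7)) [0, 7, 4, 3] (-2784, 10528) (-2784, 10512) (-2768, 10512) :=
    (CovZ.n2 (-2776, 10520) (by decide +kernel)
      (CovZ.n2 (-2776, 10512) (by decide +kernel)
       (CovZ.n2 (-2780, 10516) (by decide +kernel)
        (CovZ.n2 (-2776, 10516) (by decide +kernel)
         (CovZ.n2 (-2778, 10514) (by decide +kernel)
          (CovZ.badM (by decide +kernel))
          (CovZ.n1 (-2776, 10514) (by decide +kernel)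
           (CovZ.n2 (-2777, 10513) (by decide +kernel)
            (CovZ.leaf K3_ok TY_l2025 _)
            (CovZ.leaf K3_ok TY_l2026 _))
           (CovZ.n1 (-2777, 10515) (by decide +kernel)
            (CovZ.n2 (-2776, 10515) (by decide +kernel)
             (CovZ.leaf K3_ok TY_l2027 _)
             (CovZ.badM (by decide +kernel)))
            (CovZ.leaf K3_ok TY_l2028 _))))
         (CovZ.badM (by decide +kernel)))
        (CovZ.n1 (-2780, 10512) (by decide +kernel)
         (CovZ.badM (by decide +kernel))
         (CovZ.n1 (-2778, 10514) (by decide +kernel)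
          (CovZ.n2 (-2778, 10512) (by decide +kernel)
           (CovZ.n2 (-2779, 10513) (by decide +kernel)
            (CovZ.leaf K3_ok TY_l2029 _)
            (CovZ.leaf K3_ok TY_l2030 _))
           (CovZ.n1 (-2777, 10513) (by decide +kernel)
            (CovZ.leaf K3_ok TY_l2031 _)
            (CovZ.leaf K3_ok TY_l2032 _)))
          (CovZ.badM (by decide +kernel)))))
       (CovZ.n1 (-2772, 10516) (by decide +kernel)
        (CovZ.n2 (-2772, 10512) (by decide +kernel)
         (CovZ.n2 (-2774, 10514) (by decide +kernel)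
          (CovZ.n2 (-2772, 10514) (by decide +kernel)
           (CovZ.n2 (-2773, 10513) (by decide +kernel)
            (CovZ.leaf K3_ok TY_l2033 _)
            (CovZ.leaf K2_ok TY_l2034 _))
           (CovZ.leaf K2_ok TY_l2035 _))
          (CovZ.n1 (-2774, 10512) (by decide +kernel)
           (CovZ.leaf K3_ok TY_l2036 _)
           (CovZ.n1 (-2773, 10513) (by decide +kernel)
            (CovZ.leaf K3_ok TY_l2037 _)
            (CovZ.leaf K3_ok TY_l2038 _))))
         (CovZ.n1 (-2770, 10514) (by decide +kernel)
          (CovZ.n2 (-2770, 10512) (by decide +kernel)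
           (CovZ.leaf K3_ok TY_l2039 _)
           (CovZ.n1 (-2769, 10513) (by decide +kernel)
            (CovZ.n2 (-2769, 10512) (by decide +kernel)
             (CovZ.leaf K3_ok TY_l2040 _)
             (CovZ.leaf K3_ok TY_l2041 _))
            (CovZ.leaf K3_ok TY_l2042 _)))
          (CovZ.n1 (-2772, 10514) (by decide +kernel)
           (CovZ.n2 (-2771, 10515) (by decide +kernel)
            (CovZ.leaf K3_ok TY_l2043 _)
            (CovZ.leaf K3_ok TY_l2044 _))
           (CovZ.leaf K3_ok TY_l2045 _))))
        (CovZ.n1 (-2776, 10516) (by decide +kernel)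
         (CovZ.n2 (-2774, 10518) (by decide +kernel)
          (CovZ.n2 (-2774, 10516) (by decide +kernel)
           (CovZ.badM (by decide +kernel))
           (CovZ.n1 (-2773, 10517) (by decide +kernel)
            (CovZ.leaf K3_ok TY_l2046 _)
            (CovZ.badM (by decide +kernel))))
          (CovZ.badM (by decide +kernel)))
         (CovZ.n1 (-2774, 10514) (by decide +kernel)
          (CovZ.n2 (-2776, 10514) (by decide +kernel)
           (CovZ.n2 (-2775, 10515) (by decide +kernel)
            (CovZ.leaf K3_ok TY_l2047 _)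
            (CovZ.n1 (-2776, 10515) (by decide +kernel)
             (CovZ.leaf K3_ok TY_l2048 _)
             (CovZ.leaf K3_ok TY_l2049 _)))
           (CovZ.leaf K3_ok TY_l2050 _))
          (CovZ.n1 (-2774, 10516) (by decide +kernel)
           (CovZ.leaf K3_ok TY_l2051 _)
           (CovZ.n1 (-2775, 10515) (by decide +kernel)
            (CovZ.leaf K3_ok TY_l2052 _)
            (CovZ.leaf K3_ok TY_l2053 _)))))))
      (CovZ.badM (by decide +kernel)))

theorem TY_u25 : CovZ TY_M (toL (selN TY_LN 7)) [0, 7, 4, 3] (-2784, 10512) (-2784, 10496) (-2768, 10512) :=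
    (CovZ.n1 (-2776, 10504) (by decide +kernel)
      (CovZ.n2 (-2784, 10504) (by decide +kernel)
       (CovZ.n2 (-2780, 10508) (by decide +kernel)
        (CovZ.n2 (-2780, 10504) (by decide +kernel)
         (CovZ.n2 (-2782, 10506) (by decide +kernel)
          (CovZ.n2 (-2780, 10506) (by decide +kernel)
           (CovZ.n2 (-2781, 10505) (by decide +kernel)
            (CovZ.leaf K3_ok TY_l2054 _)
            (CovZ.leaf K3_ok TY_l2055 _))
           (CovZ.n1 (-2781, 10507) (by decide +kernel)
            (CovZ.leaf K2_ok TY_l2056 _)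
            (CovZ.leaf K2_ok TY_l2057 _)))
          (CovZ.n1 (-2782, 10504) (by decide +kernel)
           (CovZ.leaf K3_ok TY_l2058 _)
           (CovZ.n1 (-2781, 10505) (by decide +kernel)
            (CovZ.leaf K3_ok TY_l2059 _)
            (CovZ.leaf K3_ok TY_l2060 _))))
         (CovZ.n1 (-2778, 10506) (by decide +kernel)
          (CovZ.n2 (-2778, 10504) (by decide +kernel)
           (CovZ.leaf K3_ok TY_l2061 _)
           (CovZ.leaf K3_ok TY_l2062 _))
          (CovZ.n1 (-2780, 10506) (by decide +kernel)
           (CovZ.leaf K3_ok TY_l2063 _)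
           (CovZ.n1 (-2779, 10505) (by decide +kernel)
            (CovZ.leaf K3_ok TY_l2064 _)
            (CovZ.leaf K3_ok TY_l2065 _)))))
        (CovZ.n1 (-2784, 10508) (by decide +kernel)
         (CovZ.n2 (-2782, 10510) (by decide +kernel)
          (CovZ.n2 (-2782, 10508) (by decide +kernel)
           (CovZ.n2 (-2783, 10509) (by decide +kernel)
            (CovZ.leaf K3_ok TY_l2066 _)
            (CovZ.leaf K3_ok TY_l2067 _))
           (CovZ.n1 (-2781, 10509) (by decide +kernel)
            (CovZ.leaf K3_ok TY_l2068 _)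
            (CovZ.leaf K3_ok TY_l2069 _)))
          (CovZ.badM (by decide +kernel)))
         (CovZ.n1 (-2782, 10506) (by decide +kernel)
          (CovZ.n2 (-2784, 10506) (by decide +kernel)
           (CovZ.n2 (-2783, 10507) (by decide +kernel)
            (CovZ.n2 (-2783, 10506) (by decide +kernel)
             (CovZ.leaf K3_ok TY_l2070 _)
             (CovZ.leaf K3_ok TY_l2071 _))
            (CovZ.leaf K3_ok TY_l2072 _))
           (CovZ.n1 (-2783, 10505) (by decide +kernel)
            (CovZ.leaf K3_ok TY_l2073 _)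
            (CovZ.leaf K3_ok TY_l2074 _)))
          (CovZ.n1 (-2782, 10508) (by decide +kernel)
           (CovZ.leaf K3_ok TY_l2075 _)
           (CovZ.n1 (-2783, 10507) (by decide +kernel)
            (CovZ.leaf K3_ok TY_l2076 _)
            (CovZ.leaf K3_ok TY_l2077 _))))))
       (CovZ.n1 (-2780, 10500) (by decide +kernel)
        (CovZ.n2 (-2784, 10500) (by decide +kernel)
         (CovZ.n2 (-2782, 10502) (by decide +kernel)
          (CovZ.n2 (-2782, 10500) (by decide +kernel)
           (CovZ.n2 (-2783, 10501) (by decide +kernel)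
            (CovZ.leaf K3_ok TY_l2078 _)
            (CovZ.leaf K2_ok TY_l2079 _))
           (CovZ.n1 (-2781, 10501) (by decide +kernel)
            (CovZ.leaf K3_ok TY_l2080 _)
            (CovZ.leaf K3_ok TY_l2081 _)))
          (CovZ.n1 (-2784, 10502) (by decide +kernel)
           (CovZ.n2 (-2783, 10503) (by decide +kernel)
            (CovZ.leaf K3_ok TY_l2082 _)
            (CovZ.leaf K3_ok TY_l2083 _))
           (CovZ.leaf K3_ok TY_l2084 _)))
         (CovZ.n1 (-2782, 10498) (by decide +kernel)
          (CovZ.n2 (-2784, 10498) (by decide +kernel)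
           (CovZ.n2 (-2783, 10499) (by decide +kernel)
            (CovZ.leaf K3_ok TY_l2085 _)
            (CovZ.n1 (-2784, 10499) (by decide +kernel)
             (CovZ.leaf K3_ok TY_l2086 _)
             (CovZ.leaf K3_ok TY_l2087 _)))
           (CovZ.leaf K3_ok TY_l2088 _))
          (CovZ.n1 (-2782, 10500) (by decide +kernel)
           (CovZ.leaf K3_ok TY_l2089 _)
           (CovZ.n1 (-2783, 10499) (by decide +kernel)
            (CovZ.leaf K3_ok TY_l2090 _)
            (CovZ.leaf K3_ok TY_l2091 _)))))
        (CovZ.n1 (-2780, 10504) (by decide +kernel)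
         (CovZ.n2 (-2778, 10502) (by decide +kernel)
          (CovZ.n2 (-2780, 10502) (by decide +kernel)
           (CovZ.n2 (-2779, 10503) (by decide +kernel)
            (CovZ.leaf K2_ok TY_l2092 _)
            (CovZ.leaf K3_ok TY_l2093 _))
           (CovZ.n1 (-2779, 10501) (by decide +kernel)
            (CovZ.leaf K2_ok TY_l2094 _)
            (CovZ.leaf K3_ok TY_l2095 _)))
          (CovZ.n1 (-2778, 10504) (by decide +kernel)
           (CovZ.leaf K3_ok TY_l2096 _)
           (CovZ.n1 (-2779, 10503) (by decide +kernel)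
            (CovZ.leaf K3_ok TY_l2097 _)
            (CovZ.leaf K3_ok TY_l2098 _))))
         (CovZ.n1 (-2782, 10502) (by decide +kernel)
          (CovZ.n2 (-2782, 10504) (by decide +kernel)
           (CovZ.n2 (-2781, 10503) (by decide +kernel)
            (CovZ.leaf K3_ok TY_l2099 _)
            (CovZ.leaf K3_ok TY_l2100 _))
           (CovZ.n1 (-2783, 10503) (by decide +kernel)
            (CovZ.leaf K3_ok TY_l2101 _)
            (CovZ.leaf K3_ok TY_l2102 _)))
          (CovZ.n1 (-2780, 10502) (by decide +kernel)
           (CovZ.leaf K3_ok TY_l2103 _)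
           (CovZ.n1 (-2781, 10503) (by decide +kernel)
            (CovZ.leaf K3_ok TY_l2104 _)
            (CovZ.leaf K3_ok TY_l2105 _)))))))
      (CovZ.n1 (-2776, 10512) (by decide +kernel)
       (CovZ.n2 (-2772, 10508) (by decide +kernel)
        (CovZ.n2 (-2776, 10508) (by decide +kernel)
         (CovZ.n2 (-2774, 10510) (by decide +kernel)
          (CovZ.n2 (-2774, 10508) (by decide +kernel)
           (CovZ.n2 (-2775, 10509) (by decide +kernel)
            (CovZ.leaf K2_ok TY_l2106 _)
            (CovZ.leaf K3_ok TY_l2107 _))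
           (CovZ.n1 (-2773, 10509) (by decide +kernel)
            (CovZ.leaf K3_ok TY_l2108 _)
            (CovZ.leaf K3_ok TY_l2109 _)))
          (CovZ.n1 (-2776, 10510) (by decide +kernel)
           (CovZ.n2 (-2775, 10511) (by decide +kernel)
            (CovZ.leaf K3_ok TY_l2110 _)
            (CovZ.n1 (-2776, 10511) (by decide +kernel)
             (CovZ.leaf K3_ok TY_l2111 _)
             (CovZ.leaf K2_ok TY_l2112 _)))
           (CovZ.leaf K3_ok TY_l2113 _)))
         (CovZ.n1 (-2774, 10506) (by decide +kernel)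
          (CovZ.n2 (-2776, 10506) (by decide +kernel)
           (CovZ.leaf K3_ok TY_l2114 _)
           (CovZ.leaf K3_ok TY_l2115 _))
          (CovZ.n1 (-2774, 10508) (by decide +kernel)
           (CovZ.leaf K3_ok TY_l2116 _)
           (CovZ.leaf K3_ok TY_l2117 _))))
        (CovZ.n1 (-2772, 10512) (by decide +kernel)
         (CovZ.n2 (-2770, 10510) (by decide +kernel)
          (CovZ.n2 (-2772, 10510) (by decide +kernel)
           (CovZ.n2 (-2771, 10511) (by decide +kernel)
            (CovZ.leaf K3_ok TY_l2118 _)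
            (CovZ.leaf K3_ok TY_l2119 _))
           (CovZ.leaf K3_ok TY_l2120 _))
          (CovZ.n1 (-2770, 10512) (by decide +kernel)
           (CovZ.leaf K2_ok TY_l2121 _)
           (CovZ.n1 (-2771, 10511) (by decide +kernel)
            (CovZ.leaf K3_ok TY_l2122 _)
            (CovZ.leaf K3_ok TY_l2123 _))))
         (CovZ.n1 (-2774, 10510) (by decide +kernel)
          (CovZ.n2 (-2774, 10512) (by decide +kernel)
           (CovZ.leaf K2_ok TY_l2124 _)
           (CovZ.n1 (-2775, 10511) (by decide +kernel)
            (CovZ.leaf K3_ok TY_l2125 _)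
            (CovZ.leaf K3_ok TY_l2126 _)))
          (CovZ.n1 (-2772, 10510) (by decide +kernel)
           (CovZ.n2 (-2773, 10509) (by decide +kernel)
            (CovZ.leaf K2_ok TY_l2127 _)
            (CovZ.leaf K3_ok TY_l2128 _))
           (CovZ.leaf K2_ok TY_l2129 _)))))
       (CovZ.n1 (-2780, 10508) (by decide +kernel)
        (CovZ.n2 (-2780, 10512) (by decide +kernel)
         (CovZ.n2 (-2778, 10510) (by decide +kernel)
          (CovZ.n2 (-2780, 10510) (by decide +kernel)
           (CovZ.n2 (-2779, 10511) (by decide +kernel)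
            (CovZ.leaf K3_ok TY_l2130 _)
            (CovZ.leaf K3_ok TY_l2131 _))
           (CovZ.leaf K3_ok TY_l2132 _))
          (CovZ.n1 (-2778, 10512) (by decide +kernel)
           (CovZ.leaf K2_ok TY_l2133 _)
           (CovZ.n1 (-2779, 10511) (by decide +kernel)
            (CovZ.leaf K3_ok TY_l2134 _)
            (CovZ.leaf K3_ok TY_l2135 _))))
         (CovZ.n1 (-2782, 10510) (by decide +kernel)
          (CovZ.badM (by decide +kernel))
          (CovZ.n1 (-2780, 10510) (by decide +kernel)
           (CovZ.n2 (-2781, 10509) (by decide +kernel)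
            (CovZ.leaf K2_ok TY_l2136 _)
            (CovZ.leaf K3_ok TY_l2137 _))
           (CovZ.n1 (-2781, 10511) (by decide +kernel)
            (CovZ.leaf K3_ok TY_l2138 _)
            (CovZ.leaf K3_ok TY_l2139 _)))))
        (CovZ.n1 (-2776, 10508) (by decide +kernel)
         (CovZ.n2 (-2778, 10506) (by decide +kernel)
          (CovZ.n2 (-2778, 10508) (by decide +kernel)
           (CovZ.leaf K3_ok TY_l2140 _)
           (CovZ.n1 (-2779, 10507) (by decide +kernel)
            (CovZ.leaf K3_ok TY_l2141 _)
            (CovZ.leaf K3_ok TY_l2142 _)))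
          (CovZ.n1 (-2776, 10506) (by decide +kernel)
           (CovZ.n2 (-2777, 10505) (by decide +kernel)
            (CovZ.leaf K2_ok TY_l2143 _)
            (CovZ.leaf K3_ok TY_l2144 _))
           (CovZ.leaf K3_ok TY_l2145 _)))
         (CovZ.n1 (-2778, 10510) (by decide +kernel)
          (CovZ.n2 (-2776, 10510) (by decide +kernel)
           (CovZ.n2 (-2777, 10509) (by decide +kernel)
            (CovZ.leaf K3_ok TY_l2146 _)
            (CovZ.leaf K3_ok TY_l2147 _))
           (CovZ.leaf K3_ok TY_l2148 _))
          (CovZ.n1 (-2778, 10508) (by decide +kernel)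
           (CovZ.n2 (-2779, 10509) (by decide +kernel)
            (CovZ.leaf K3_ok TY_l2149 _)
            (CovZ.leaf K3_ok TY_l2150 _))
           (CovZ.n1 (-2777, 10509) (by decide +kernel)
            (CovZ.leaf K3_ok TY_l2151 _)
            (CovZ.leaf K3_ok TY_l2152 _))))))))

theorem TY_u26 : CovZ TY_M (toL (selN TY_LN 7)) [0, 7, 4, 3] (-2752, 10528) (-2768, 10528) (-2768, 10512) :=
    (CovZ.n2 (-2760, 10520) (by decide +kernel)
      (CovZ.n2 (-2768, 10520) (by decide +kernel)
       (CovZ.n2 (-2764, 10524) (by decide +kernel)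
        (CovZ.n2 (-2764, 10520) (by decide +kernel)
         (CovZ.n2 (-2766, 10522) (by decide +kernel)
          (CovZ.n2 (-2764, 10522) (by decide +kernel)
           (CovZ.n2 (-2765, 10521) (by decide +kernel)
            (CovZ.leaf K3_ok TY_l2153 _)
            (CovZ.n1 (-2764, 10521) (by decide +kernel)
             (CovZ.leaf K3_ok TY_l2154 _)
             (CovZ.leaf K2_ok TY_l2155 _)))
           (CovZ.leaf K2_ok TY_l2156 _))
          (CovZ.n1 (-2766, 10520) (by decide +kernel)
           (CovZ.leaf K3_ok TY_l2157 _)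
           (CovZ.n1 (-2765, 10521) (by decide +kernel)
            (CovZ.leaf K3_ok TY_l2158 _)
            (CovZ.leaf K3_ok TY_l2159 _))))
         (CovZ.n1 (-2762, 10522) (by decide +kernel)
          (CovZ.n2 (-2762, 10520) (by decide +kernel)
           (CovZ.leaf K3_ok TY_l2160 _)
           (CovZ.leaf K3_ok TY_l2161 _))
          (CovZ.n1 (-2764, 10522) (by decide +kernel)
           (CovZ.leaf K3_ok TY_l2162 _)
           (CovZ.leaf K3_ok TY_l2163 _))))
        (CovZ.n1 (-2768, 10524) (by decide +kernel)
         (CovZ.n2 (-2766, 10526) (by decide +kernel)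
          (CovZ.n2 (-2766, 10524) (by decide +kernel)
           (CovZ.badM (by decide +kernel))
           (CovZ.n1 (-2765, 10525) (by decide +kernel)
            (CovZ.leaf K3_ok TY_l2164 _)
            (CovZ.badM (by decide +kernel))))
          (CovZ.badM (by decide +kernel)))
         (CovZ.n1 (-2766, 10522) (by decide +kernel)
          (CovZ.n2 (-2768, 10522) (by decide +kernel)
           (CovZ.n2 (-2767, 10523) (by decide +kernel)
            (CovZ.leaf K3_ok TY_l2165 _)
            (CovZ.badM (by decide +kernel)))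
           (CovZ.leaf K2_ok TY_l2166 _))
          (CovZ.n1 (-2766, 10524) (by decide +kernel)
           (CovZ.n2 (-2765, 10523) (by decide +kernel)
            (CovZ.leaf K2_ok TY_l2167 _)
            (CovZ.leaf K2_ok TY_l2168 _))
           (CovZ.n1 (-2767, 10523) (by decide +kernel)
            (CovZ.badM (by decide +kernel))
            (CovZ.leaf K3_ok TY_l2169 _))))))
       (CovZ.n1 (-2764, 10516) (by decide +kernel)
        (CovZ.n2 (-2768, 10516) (by decide +kernel)
         (CovZ.n2 (-2766, 10518) (by decide +kernel)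
          (CovZ.n2 (-2766, 10516) (by decide +kernel)
           (CovZ.leaf K3_ok TY_l2170 _)
           (CovZ.n1 (-2765, 10517) (by decide +kernel)
            (CovZ.leaf K3_ok TY_l2171 _)
            (CovZ.leaf K3_ok TY_l2172 _)))
          (CovZ.n1 (-2768, 10518) (by decide +kernel)
           (CovZ.n2 (-2767, 10519) (by decide +kernel)
            (CovZ.leaf K3_ok TY_l2173 _)
            (CovZ.leaf K3_ok TY_l2174 _))
           (CovZ.n1 (-2767, 10517) (by decide +kernel)
            (CovZ.leaf K3_ok TY_l2175 _)
            (CovZ.leaf K3_ok TY_l2176 _))))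
         (CovZ.n1 (-2766, 10514) (by decide +kernel)
          (CovZ.leaf K2_ok TY_l2177 _)
          (CovZ.n1 (-2766, 10516) (by decide +kernel)
           (CovZ.leaf K3_ok TY_l2178 _)
           (CovZ.n1 (-2767, 10515) (by decide +kernel)
            (CovZ.n2 (-2767, 10516) (by decide +kernel)
             (CovZ.leaf K3_ok TY_l2179 _)
             (CovZ.leaf K3_ok TY_l2180 _))
            (CovZ.leaf K3_ok TY_l2181 _)))))
        (CovZ.n1 (-2764, 10520) (by decide +kernel)
         (CovZ.n2 (-2762, 10518) (by decide +kernel)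
          (CovZ.n2 (-2764, 10518) (by decide +kernel)
           (CovZ.n2 (-2763, 10519) (by decide +kernel)
            (CovZ.leaf K2_ok TY_l2182 _)
            (CovZ.leaf K2_ok TY_l2183 _))
           (CovZ.leaf K3_ok TY_l2184 _))
          (CovZ.n1 (-2762, 10520) (by decide +kernel)
           (CovZ.leaf K3_ok TY_l2185 _)
           (CovZ.leaf K3_ok TY_l2186 _)))
         (CovZ.n1 (-2766, 10518) (by decide +kernel)
          (CovZ.n2 (-2766, 10520) (by decide +kernel)
           (CovZ.n2 (-2765, 10519) (by decide +kernel)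
            (CovZ.leaf K3_ok TY_l2187 _)
            (CovZ.leaf K2_ok TY_l2188 _))
           (CovZ.n1 (-2767, 10519) (by decide +kernel)
            (CovZ.leaf K3_ok TY_l2189 _)
            (CovZ.leaf K2_ok TY_l2190 _)))
          (CovZ.n1 (-2764, 10518) (by decide +kernel)
           (CovZ.n2 (-2765, 10517) (by decide +kernel)
            (CovZ.leaf K2_ok TY_l2191 _)
            (CovZ.leaf K2_ok TY_l2192 _))
           (CovZ.n1 (-2765, 10519) (by decide +kernel)
            (CovZ.leaf K3_ok TY_l2193 _)
            (CovZ.leaf K3_ok TY_l2194 _)))))))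
      (CovZ.n1 (-2760, 10528) (by decide +kernel)
       (CovZ.n2 (-2756, 10524) (by decide +kernel)
        (CovZ.n2 (-2760, 10524) (by decide +kernel)
         (CovZ.n2 (-2758, 10526) (by decide +kernel)
          (CovZ.n2 (-2758, 10524) (by decide +kernel)
           (CovZ.n2 (-2759, 10525) (by decide +kernel)
            (CovZ.leaf K3_ok TY_l2195 _)
            (CovZ.leaf K3_ok TY_l2196 _))
           (CovZ.n1 (-2757, 10525) (by decide +kernel)
            (CovZ.leaf K2_ok TY_l2197 _)
            (CovZ.leaf K2_ok TY_l2198 _)))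
          (CovZ.n1 (-2760, 10526) (by decide +kernel)
           (CovZ.n2 (-2759, 10527) (by decide +kernel)
            (CovZ.leaf K3_ok TY_l2199 _)
            (CovZ.leaf K3_ok TY_l2200 _))
           (CovZ.leaf K2_ok TY_l2201 _)))
         (CovZ.n1 (-2758, 10522) (by decide +kernel)
          (CovZ.n2 (-2760, 10522) (by decide +kernel)
           (CovZ.n2 (-2759, 10523) (by decide +kernel)
            (CovZ.leaf K2_ok TY_l2202 _)
            (CovZ.leaf K2_ok TY_l2203 _))
           (CovZ.leaf K3_ok TY_l2204 _))
          (CovZ.n1 (-2758, 10524) (by decide +kernel)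
           (CovZ.leaf K3_ok TY_l2205 _)
           (CovZ.n1 (-2759, 10523) (by decide +kernel)
            (CovZ.leaf K3_ok TY_l2206 _)
            (CovZ.leaf K2_ok TY_l2207 _)))))
        (CovZ.n1 (-2756, 10528) (by decide +kernel)
         (CovZ.n2 (-2754, 10526) (by decide +kernel)
          (CovZ.n2 (-2756, 10526) (by decide +kernel)
           (CovZ.leaf K2_ok TY_l2208 _)
           (CovZ.leaf K3_ok TY_l2209 _))
          (CovZ.n1 (-2754, 10528) (by decide +kernel)
           (CovZ.n2 (-2753, 10527) (by decide +kernel)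
            (CovZ.leaf K3_ok TY_l2210 _)
            (CovZ.leaf K2_ok TY_l2211 _))
           (CovZ.n1 (-2755, 10527) (by decide +kernel)
            (CovZ.leaf K3_ok TY_l2212 _)
            (CovZ.leaf K3_ok TY_l2213 _))))
         (CovZ.n1 (-2758, 10526) (by decide +kernel)
          (CovZ.n2 (-2758, 10528) (by decide +kernel)
           (CovZ.leaf K3_ok TY_l2214 _)
           (CovZ.leaf K2_ok TY_l2215 _))
          (CovZ.n1 (-2756, 10526) (by decide +kernel)
           (CovZ.n2 (-2757, 10525) (by decide +kernel)
            (CovZ.leaf K3_ok TY_l2216 _)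
            (CovZ.leaf K3_ok TY_l2217 _))
           (CovZ.n1 (-2757, 10527) (by decide +kernel)
            (CovZ.leaf K2_ok TY_l2218 _)
            (CovZ.leaf K3_ok TY_l2219 _))))))
       (CovZ.n1 (-2764, 10524) (by decide +kernel)
        (CovZ.n2 (-2764, 10528) (by decide +kernel)
         (CovZ.n2 (-2762, 10526) (by decide +kernel)
          (CovZ.n2 (-2764, 10526) (by decide +kernel)
           (CovZ.n2 (-2763, 10527) (by decide +kernel)
            (CovZ.leaf K2_ok TY_l2220 _)
            (CovZ.badM (by decide +kernel)))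
           (CovZ.n1 (-2763, 10525) (by decide +kernel)
            (CovZ.leaf K2_ok TY_l2221 _)
            (CovZ.leaf K3_ok TY_l2222 _)))
          (CovZ.n1 (-2762, 10528) (by decide +kernel)
           (CovZ.leaf K3_ok TY_l2223 _)
           (CovZ.n1 (-2763, 10527) (by decide +kernel)
            (CovZ.badM (by decide +kernel))
            (CovZ.leaf K3_ok TY_l2224 _))))
         (CovZ.n1 (-2766, 10526) (by decide +kernel)
          (CovZ.badM (by decide +kernel))
          (CovZ.n1 (-2764, 10526) (by decide +kernel)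
           (CovZ.n2 (-2765, 10525) (by decide +kernel)
            (CovZ.badM (by decide +kernel))
            (CovZ.leaf K3_ok TY_l2225 _))
           (CovZ.badM (by decide +kernel)))))
        (CovZ.n1 (-2760, 10524) (by decide +kernel)
         (CovZ.n2 (-2762, 10522) (by decide +kernel)
          (CovZ.n2 (-2762, 10524) (by decide +kernel)
           (CovZ.leaf K3_ok TY_l2226 _)
           (CovZ.n1 (-2763, 10523) (by decide +kernel)
            (CovZ.leaf K3_ok TY_l2227 _)
            (CovZ.leaf K3_ok TY_l2228 _)))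
          (CovZ.n1 (-2760, 10522) (by decide +kernel)
           (CovZ.leaf K3_ok TY_l2229 _)
           (CovZ.leaf K2_ok TY_l2230 _)))
         (CovZ.n1 (-2762, 10526) (by decide +kernel)
          (CovZ.n2 (-2760, 10526) (by decide +kernel)
           (CovZ.n2 (-2761, 10525) (by decide +kernel)
            (CovZ.leaf K2_ok TY_l2231 _)
            (CovZ.leaf K2_ok TY_l2232 _))
           (CovZ.leaf K2_ok TY_l2233 _))
          (CovZ.n1 (-2762, 10524) (by decide +kernel)
           (CovZ.leaf K2_ok TY_l2234 _)
           (CovZ.n1 (-2761, 10525) (by decide +kernel)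
            (CovZ.leaf K2_ok TY_l2235 _)
            (CovZ.leaf K3_ok TY_l2236 _))))))))

theorem TY_u27 : CovZ TY_M (toL (selN TY_LN 7)) [0, 7, 4, 3] (-2768, 10528) (-2784, 10528) (-2768, 10512) :=
    (CovZ.n1 (-2776, 10520) (by decide +kernel)
      (CovZ.badM (by decide +kernel))
      (CovZ.n1 (-2768, 10520) (by decide +kernel)
       (CovZ.n2 (-2772, 10516) (by decide +kernel)
        (CovZ.n2 (-2772, 10520) (by decide +kernel)
         (CovZ.n2 (-2770, 10518) (by decide +kernel)
          (CovZ.n2 (-2772, 10518) (by decide +kernel)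
           (CovZ.leaf K3_ok TY_l2237 _)
           (CovZ.leaf K3_ok TY_l2238 _))
          (CovZ.n1 (-2770, 10520) (by decide +kernel)
           (CovZ.leaf K3_ok TY_l2239 _)
           (CovZ.n1 (-2771, 10519) (by decide +kernel)
            (CovZ.badM (by decide +kernel))
            (CovZ.leaf K3_ok TY_l2240 _))))
         (CovZ.n1 (-2774, 10518) (by decide +kernel)
          (CovZ.badM (by decide +kernel))
          (CovZ.n1 (-2772, 10518) (by decide +kernel)
           (CovZ.n2 (-2773, 10517) (by decide +kernel)
            (CovZ.badM (by decide +kernel))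
            (CovZ.leaf K3_ok TY_l2241 _))
           (CovZ.badM (by decide +kernel)))))
        (CovZ.n1 (-2768, 10516) (by decide +kernel)
         (CovZ.n2 (-2770, 10514) (by decide +kernel)
          (CovZ.n2 (-2770, 10516) (by decide +kernel)
           (CovZ.leaf K3_ok TY_l2242 _)
           (CovZ.n1 (-2771, 10515) (by decide +kernel)
            (CovZ.leaf K3_ok TY_l2243 _)
            (CovZ.leaf K3_ok TY_l2244 _)))
          (CovZ.n1 (-2768, 10514) (by decide +kernel)
           (CovZ.n2 (-2769, 10513) (by decide +kernel)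
            (CovZ.leaf K3_ok TY_l2245 _)
            (CovZ.leaf K2_ok TY_l2246 _))
           (CovZ.n1 (-2769, 10515) (by decide +kernel)
            (CovZ.n2 (-2768, 10515) (by decide +kernel)
             (CovZ.leaf K3_ok TY_l2247 _)
             (CovZ.leaf K2_ok TY_l2248 _))
            (CovZ.leaf K2_ok TY_l2249 _))))
         (CovZ.n1 (-2770, 10518) (by decide +kernel)
          (CovZ.n2 (-2768, 10518) (by decide +kernel)
           (CovZ.n2 (-2769, 10517) (by decide +kernel)
            (CovZ.leaf K3_ok TY_l2250 _)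
            (CovZ.leaf K3_ok TY_l2251 _))
           (CovZ.leaf K3_ok TY_l2252 _))
          (CovZ.n1 (-2770, 10516) (by decide +kernel)
           (CovZ.n2 (-2771, 10517) (by decide +kernel)
            (CovZ.leaf K3_ok TY_l2253 _)
            (CovZ.leaf K3_ok TY_l2254 _))
           (CovZ.n1 (-2769, 10517) (by decide +kernel)
            (CovZ.leaf K3_ok TY_l2255 _)
            (CovZ.leaf K3_ok TY_l2256 _))))))
       (CovZ.n1 (-2772, 10524) (by decide +kernel)
        (CovZ.n2 (-2768, 10524) (by decide +kernel)
         (CovZ.n2 (-2770, 10522) (by decide +kernel)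
          (CovZ.badM (by decide +kernel))
          (CovZ.n1 (-2768, 10522) (by decide +kernel)
           (CovZ.n2 (-2769, 10521) (by decide +kernel)
            (CovZ.badM (by decide +kernel))
            (CovZ.leaf K3_ok TY_l2257 _))
           (CovZ.badM (by decide +kernel))))
         (CovZ.badM (by decide +kernel)))
        (CovZ.n1 (-2772, 10520) (by decide +kernel)
         (CovZ.badM (by decide +kernel))
         (CovZ.n1 (-2770, 10522) (by decide +kernel)
          (CovZ.n2 (-2770, 10520) (by decide +kernel)
           (CovZ.badM (by decide +kernel))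
           (CovZ.n1 (-2769, 10521) (by decide +kernel)
            (CovZ.leaf K2_ok TY_l2258 _)
            (CovZ.badM (by decide +kernel))))
          (CovZ.badM (by decide +kernel)))))))

theorem TY_u28 : CovZ TY_M (toL (selN TY_LN 7)) [0, 7, 4, 3] (-2752, 10496) (-2736, 10512) (-2752, 10528) :=
    (CovZ.n2 (-2752, 10512) (by decide +kernel)
     (CovZ.n2 (-2744, 10520) (by decide +kernel)
      (CovZ.n2 (-2744, 10512) (by decide +kernel)
       (CovZ.n2 (-2748, 10516) (by decide +kernel)
        (CovZ.n2 (-2744, 10516) (by decide +kernel)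
         (CovZ.n2 (-2746, 10514) (by decide +kernel)
          (CovZ.leaf K3_ok TY_l2840 _)
          (CovZ.n1 (-2744, 10514) (by decide +kernel)
           (CovZ.leaf K3_ok TY_l2841 _)
           (CovZ.leaf K3_ok TY_l2842 _)))
         (CovZ.n1 (-2746, 10518) (by decide +kernel)
          (CovZ.leaf K3_ok TY_l2843 _)
          (CovZ.n1 (-2746, 10516) (by decide +kernel)
           (CovZ.leaf K2_ok TY_l2844 _)
           (CovZ.leaf K3_ok TY_l2845 _))))
        (CovZ.n1 (-2748, 10512) (by decide +kernel)
         (CovZ.n2 (-2750, 10514) (by decide +kernel)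
          (CovZ.n2 (-2748, 10514) (by decide +kernel)
           (CovZ.n2 (-2749, 10513) (by decide +kernel)
            (CovZ.leaf K3_ok TY_l2846 _)
            (CovZ.leaf K3_ok TY_l2847 _))
           (CovZ.leaf K2_ok TY_l2848 _))
          (CovZ.leaf K3_ok TY_l2849 _))
         (CovZ.n1 (-2746, 10514) (by decide +kernel)
          (CovZ.n2 (-2746, 10512) (by decide +kernel)
           (CovZ.leaf K3_ok TY_l2850 _)
           (CovZ.leaf K3_ok TY_l2851 _))
          (CovZ.leaf K3_ok TY_l2852 _))))
       (CovZ.n1 (-2740, 10516) (by decide +kernel)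
        (CovZ.n2 (-2740, 10512) (by decide +kernel)
         (CovZ.n2 (-2742, 10514) (by decide +kernel)
          (CovZ.leaf K2_ok TY_l2853 _)
          (CovZ.leaf K3_ok TY_l2854 _))
         (CovZ.n1 (-2738, 10514) (by decide +kernel)
          (CovZ.leaf K3_ok TY_l2855 _)
          (CovZ.n1 (-2740, 10514) (by decide +kernel)
           (CovZ.leaf K2_ok TY_l2856 _)
           (CovZ.leaf K3_ok TY_l2857 _))))
        (CovZ.n1 (-2744, 10516) (by decide +kernel)
         (CovZ.n2 (-2742, 10518) (by decide +kernel)
          (CovZ.n2 (-2742, 10516) (by decide +kernel)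
           (CovZ.leaf K2_ok TY_l2858 _)
           (CovZ.n1 (-2741, 10517) (by decide +kernel)
            (CovZ.leaf K3_ok TY_l2859 _)
            (CovZ.leaf K2_ok TY_l2860 _)))
          (CovZ.n1 (-2744, 10518) (by decide +kernel)
           (CovZ.leaf K3_ok TY_l2861 _)
           (CovZ.leaf K3_ok TY_l2862 _)))
         (CovZ.leaf K3_ok TY_l2863 _))))
      (CovZ.n1 (-2752, 10520) (by decide +kernel)
       (CovZ.n2 (-2748, 10524) (by decide +kernel)
        (CovZ.n2 (-2748, 10520) (by decide +kernel)
         (CovZ.n2 (-2750, 10522) (by decide +kernel)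
          (CovZ.n2 (-2748, 10522) (by decide +kernel)
           (CovZ.n2 (-2749, 10521) (by decide +kernel)
            (CovZ.leaf K3_ok TY_l2864 _)
            (CovZ.leaf K3_ok TY_l2865 _))
           (CovZ.leaf K3_ok TY_l2866 _))
          (CovZ.n1 (-2750, 10520) (by decide +kernel)
           (CovZ.leaf K3_ok TY_l2867 _)
           (CovZ.leaf K2_ok TY_l2868 _)))
         (CovZ.n1 (-2746, 10522) (by decide +kernel)
          (CovZ.n2 (-2746, 10520) (by decide +kernel)
           (CovZ.leaf K3_ok TY_l2869 _)
           (CovZ.leaf K2_ok TY_l2870 _))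
          (CovZ.leaf K3_ok TY_l2871 _)))
        (CovZ.n1 (-2752, 10524) (by decide +kernel)
         (CovZ.n2 (-2750, 10526) (by decide +kernel)
          (CovZ.n2 (-2750, 10524) (by decide +kernel)
           (CovZ.leaf K3_ok TY_l2872 _)
           (CovZ.leaf K3_ok TY_l2873 _))
          (CovZ.n1 (-2752, 10526) (by decide +kernel)
           (CovZ.leaf K3_ok TY_l2874 _)
           (CovZ.leaf K3_ok TY_l2875 _)))
         (CovZ.n1 (-2750, 10522) (by decide +kernel)
          (CovZ.leaf K3_ok TY_l2876 _)
          (CovZ.n1 (-2750, 10524) (by decide +kernel)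
           (CovZ.leaf K3_ok TY_l2877 _)
           (CovZ.n1 (-2751, 10523) (by decide +kernel)
            (CovZ.leaf K2_ok TY_l2878 _)
            (CovZ.leaf K3_ok TY_l2879 _))))))
       (CovZ.n1 (-2748, 10516) (by decide +kernel)
        (CovZ.n2 (-2752, 10516) (by decide +kernel)
         (CovZ.n2 (-2750, 10518) (by decide +kernel)
          (CovZ.n2 (-2750, 10516) (by decide +kernel)
           (CovZ.leaf K2_ok TY_l2880 _)
           (CovZ.leaf K3_ok TY_l2881 _))
          (CovZ.leaf K2_ok TY_l2882 _))
         (CovZ.leaf K2_ok TY_l2883 _))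
        (CovZ.n1 (-2748, 10520) (by decide +kernel)
         (CovZ.n2 (-2746, 10518) (by decide +kernel)
          (CovZ.leaf K2_ok TY_l2884 _)
          (CovZ.leaf K2_ok TY_l2885 _))
         (CovZ.n1 (-2750, 10518) (by decide +kernel)
          (CovZ.leaf K3_ok TY_l2886 _)
          (CovZ.n1 (-2748, 10518) (by decide +kernel)
           (CovZ.leaf K2_ok TY_l2887 _)
           (CovZ.leaf K3_ok TY_l2888 _)))))))
     (CovZ.n1 (-2744, 10504) (by decide +kernel)
      (CovZ.n2 (-2752, 10504) (by decide +kernel)
       (CovZ.n2 (-2748, 10508) (by decide +kernel)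
        (CovZ.n2 (-2748, 10504) (by decide +kernel)
         (CovZ.n2 (-2750, 10506) (by decide +kernel)
          (CovZ.leaf K2_ok TY_l2889 _)
          (CovZ.n1 (-2750, 10504) (by decide +kernel)
           (CovZ.leaf K3_ok TY_l2890 _)
           (CovZ.leaf K2_ok TY_l2891 _)))
         (CovZ.n1 (-2746, 10506) (by decide +kernel)
          (CovZ.leaf K3_ok TY_l2892 _)
          (CovZ.leaf K3_ok TY_l2893 _)))
        (CovZ.n1 (-2752, 10508) (by decide +kernel)
         (CovZ.n2 (-2750, 10510) (by decide +kernel)
          (CovZ.n2 (-2750, 10508) (by decide +kernel)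
           (CovZ.leaf K2_ok TY_l2894 _)
           (CovZ.leaf K3_ok TY_l2895 _))
          (CovZ.leaf K3_ok TY_l2896 _))
         (CovZ.n1 (-2750, 10506) (by decide +kernel)
          (CovZ.leaf K3_ok TY_l2897 _)
          (CovZ.leaf K2_ok TY_l2898 _))))
       (CovZ.n1 (-2748, 10500) (by decide +kernel)
        (CovZ.n2 (-2752, 10500) (by decide +kernel)
         (CovZ.n2 (-2750, 10502) (by decide +kernel)
          (CovZ.leaf K3_ok TY_l2899 _)
          (CovZ.leaf K3_ok TY_l2900 _))
         (CovZ.n1 (-2750, 10498) (by decide +kernel)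
          (CovZ.leaf K3_ok TY_l2901 _)
          (CovZ.n1 (-2750, 10500) (by decide +kernel)
           (CovZ.leaf K2_ok TY_l2902 _)
           (CovZ.leaf K3_ok TY_l2903 _))))
        (CovZ.n1 (-2748, 10504) (by decide +kernel)
         (CovZ.leaf K2_ok TY_l2904 _)
         (CovZ.n1 (-2750, 10502) (by decide +kernel)
          (CovZ.leaf K3_ok TY_l2905 _)
          (CovZ.leaf K3_ok TY_l2906 _)))))
      (CovZ.n1 (-2744, 10512) (by decide +kernel)
       (CovZ.n2 (-2740, 10508) (by decide +kernel)
        (CovZ.n2 (-2744, 10508) (by decide +kernel)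
         (CovZ.n2 (-2742, 10510) (by decide +kernel)
          (CovZ.leaf K3_ok TY_l2907 _)
          (CovZ.leaf K3_ok TY_l2908 _))
         (CovZ.leaf K3_ok TY_l2909 _))
        (CovZ.n1 (-2740, 10512) (by decide +kernel)
         (CovZ.n2 (-2738, 10510) (by decide +kernel)
          (CovZ.leaf K3_ok TY_l2910 _)
          (CovZ.leaf K2_ok TY_l2911 _))
         (CovZ.n1 (-2742, 10510) (by decide +kernel)
          (CovZ.leaf K3_ok TY_l2912 _)
          (CovZ.leaf K2_ok TY_l2913 _))))
       (CovZ.n1 (-2748, 10508) (by decide +kernel)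
        (CovZ.n2 (-2748, 10512) (by decide +kernel)
         (CovZ.n2 (-2746, 10510) (by decide +kernel)
          (CovZ.leaf K3_ok TY_l2914 _)
          (CovZ.leaf K3_ok TY_l2915 _))
         (CovZ.n1 (-2750, 10510) (by decide +kernel)
          (CovZ.leaf K2_ok TY_l2916 _)
          (CovZ.leaf K2_ok TY_l2917 _)))
        (CovZ.n1 (-2744, 10508) (by decide +kernel)
         (CovZ.n2 (-2746, 10506) (by decide +kernel)
          (CovZ.leaf K2_ok TY_l2918 _)
          (CovZ.leaf K3_ok TY_l2919 _))
         (CovZ.n1 (-2746, 10510) (by decide +kernel)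
          (CovZ.leaf K3_ok TY_l2920 _)
          (CovZ.n1 (-2746, 10508) (by decide +kernel)
           (CovZ.leaf K2_ok TY_l2921 _)
           (CovZ.leaf K2_ok TY_l2922 _))))))))

end Pool.Agent.TET
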