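import Pool.Agent.Helper38_TET.TY_M
import Pool.Agent.Helper38_TET.TY_L
import Pool.Agent.Helper38_TET.TY_19
import Pool.Agent.Helper38_TET.TY_20
import Pool.Agent.Helper38_TET.TY_21
import Pool.Agent.Helper38_TET.TY_22
import Pool.Agent.Helper38_TET.TY_27
import Pool.Agent.Helper38_TET.TY_28
import Pool.Agent.Helper38_TET.TY_29
import Pool.Agent.Helper38_TET.TY_30
import Pool.Agent.Helper38_TET.TY_41
import Pool.Agent.Helper38_TET.TY_42

/-!
# MP_c7c9bf_co: certificates, family TY
-/

set_option autoImplicit false
set_option maxRecDepth 100000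

namespace Pool.Agent.TET

theorem TY_u29 : CovZ TY_M (toL (selN TY_LN 7)) [0, 7, 4, 3] (-2736, 10512) (-2720, 10528) (-2752, 10528) :=
    (CovZ.n1 (-2736, 10528) (by decide +kernel)
     (CovZ.n2 (-2728, 10520) (by decide +kernel)
      (CovZ.n2 (-2736, 10520) (by decide +kernel)
       (CovZ.n2 (-2732, 10524) (by decide +kernel)
        (CovZ.n2 (-2732, 10520) (by decide +kernel)
         (CovZ.n2 (-2734, 10522) (by decide +kernel)
          (CovZ.leaf K2_ok TY_l2923 _)
          (CovZ.leaf K3_ok TY_l2924 _))
         (CovZ.n1 (-2730, 10522) (by decide +kernel)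
          (CovZ.leaf K2_ok TY_l2925 _)
          (CovZ.leaf K2_ok TY_l2926 _)))
        (CovZ.n1 (-2736, 10524) (by decide +kernel)
         (CovZ.n2 (-2734, 10526) (by decide +kernel)
          (CovZ.leaf K3_ok TY_l2927 _)
          (CovZ.leaf K3_ok TY_l2928 _))
         (CovZ.n1 (-2734, 10522) (by decide +kernel)
          (CovZ.n2 (-2736, 10522) (by decide +kernel)
           (CovZ.leaf K3_ok TY_l2929 _)
           (CovZ.leaf K3_ok TY_l2930 _))
          (CovZ.n1 (-2734, 10524) (by decide +kernel)
           (CovZ.leaf K3_ok TY_l2931 _)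
           (CovZ.leaf K2_ok TY_l2932 _)))))
       (CovZ.n1 (-2732, 10516) (by decide +kernel)
        (CovZ.n2 (-2736, 10516) (by decide +kernel)
         (CovZ.n2 (-2734, 10518) (by decide +kernel)
          (CovZ.leaf K3_ok TY_l2933 _)
          (CovZ.leaf K3_ok TY_l2934 _))
         (CovZ.n1 (-2734, 10514) (by decide +kernel)
          (CovZ.leaf K3_ok TY_l2935 _)
          (CovZ.leaf K3_ok TY_l2936 _)))
        (CovZ.n1 (-2732, 10520) (by decide +kernel)
         (CovZ.leaf K2_ok TY_l2937 _)
         (CovZ.n1 (-2734, 10518) (by decide +kernel)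
          (CovZ.leaf K3_ok TY_l2938 _)
          (CovZ.leaf K3_ok TY_l2939 _)))))
      (CovZ.n1 (-2728, 10528) (by decide +kernel)
       (CovZ.n2 (-2724, 10524) (by decide +kernel)
        (CovZ.n2 (-2728, 10524) (by decide +kernel)
         (CovZ.n2 (-2726, 10526) (by decide +kernel)
          (CovZ.n2 (-2726, 10524) (by decide +kernel)
           (CovZ.leaf K3_ok TY_l2940 _)
           (CovZ.leaf K2_ok TY_l2941 _))
          (CovZ.leaf K2_ok TY_l2942 _))
         (CovZ.leaf K3_ok TY_l2943 _))
        (CovZ.n1 (-2724, 10528) (by decide +kernel)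
         (CovZ.n2 (-2722, 10526) (by decide +kernel)
          (CovZ.leaf K3_ok TY_l2944 _)
          (CovZ.leaf K3_ok TY_l2945 _))
         (CovZ.n1 (-2726, 10526) (by decide +kernel)
          (CovZ.leaf K3_ok TY_l2946 _)
          (CovZ.leaf K3_ok TY_l2947 _))))
       (CovZ.n1 (-2732, 10524) (by decide +kernel)
        (CovZ.n2 (-2732, 10528) (by decide +kernel)
         (CovZ.leaf K2_ok TY_l2948 _)
         (CovZ.n1 (-2734, 10526) (by decide +kernel)
          (CovZ.leaf K3_ok TY_l2949 _)
          (CovZ.leaf K3_ok TY_l2950 _)))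
        (CovZ.n1 (-2728, 10524) (by decide +kernel)
         (CovZ.n2 (-2730, 10522) (by decide +kernel)
          (CovZ.leaf K2_ok TY_l2951 _)
          (CovZ.leaf K3_ok TY_l2952 _))
         (CovZ.n1 (-2730, 10526) (by decide +kernel)
          (CovZ.leaf K3_ok TY_l2953 _)
          (CovZ.leaf K2_ok TY_l2954 _))))))
     (CovZ.n1 (-2744, 10520) (by decide +kernel)
      (CovZ.n2 (-2744, 10528) (by decide +kernel)
       (CovZ.n2 (-2740, 10524) (by decide +kernel)
        (CovZ.n2 (-2744, 10524) (by decide +kernel)
         (CovZ.n2 (-2742, 10526) (by decide +kernel)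
          (CovZ.n2 (-2742, 10524) (by decide +kernel)
           (CovZ.leaf K3_ok TY_l2955 _)
           (CovZ.leaf K2_ok TY_l2956 _))
          (CovZ.leaf K3_ok TY_l2957 _))
         (CovZ.n1 (-2742, 10522) (by decide +kernel)
          (CovZ.leaf K3_ok TY_l2958 _)
          (CovZ.n1 (-2742, 10524) (by decide +kernel)
           (CovZ.leaf K3_ok TY_l2959 _)
           (CovZ.leaf K2_ok TY_l2960 _))))
        (CovZ.n1 (-2740, 10528) (by decide +kernel)
         (CovZ.n2 (-2738, 10526) (by decide +kernel)
          (CovZ.n2 (-2740, 10526) (by decide +kernel)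
           (CovZ.n2 (-2739, 10527) (by decide +kernel)
            (CovZ.leaf K2_ok TY_l2961 _)
            (CovZ.leaf K3_ok TY_l2962 _))
           (CovZ.leaf K2_ok TY_l2963 _))
          (CovZ.n1 (-2738, 10528) (by decide +kernel)
           (CovZ.leaf K3_ok TY_l2964 _)
           (CovZ.n1 (-2739, 10527) (by decide +kernel)
            (CovZ.leaf K3_ok TY_l2965 _)
            (CovZ.leaf K3_ok TY_l2966 _))))
         (CovZ.n1 (-2742, 10526) (by decide +kernel)
          (CovZ.n2 (-2742, 10528) (by decide +kernel)
           (CovZ.leaf K3_ok TY_l2967 _)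
           (CovZ.leaf K2_ok TY_l2968 _))
          (CovZ.leaf K3_ok TY_l2969 _))))
       (CovZ.n1 (-2748, 10524) (by decide +kernel)
        (CovZ.n2 (-2748, 10528) (by decide +kernel)
         (CovZ.n2 (-2746, 10526) (by decide +kernel)
          (CovZ.leaf K3_ok TY_l2970 _)
          (CovZ.n1 (-2746, 10528) (by decide +kernel)
           (CovZ.leaf K3_ok TY_l2971 _)
           (CovZ.leaf K3_ok TY_l2972 _)))
         (CovZ.n1 (-2750, 10526) (by decide +kernel)
          (CovZ.n2 (-2750, 10528) (by decide +kernel)
           (CovZ.leaf K2_ok TY_l2973 _)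
           (CovZ.leaf K3_ok TY_l2974 _))
          (CovZ.n1 (-2748, 10526) (by decide +kernel)
           (CovZ.n2 (-2749, 10525) (by decide +kernel)
            (CovZ.leaf K3_ok TY_l2975 _)
            (CovZ.leaf K2_ok TY_l2976 _))
           (CovZ.leaf K3_ok TY_l2977 _))))
        (CovZ.n1 (-2744, 10524) (by decide +kernel)
         (CovZ.n2 (-2746, 10522) (by decide +kernel)
          (CovZ.n2 (-2746, 10524) (by decide +kernel)
           (CovZ.leaf K2_ok TY_l2978 _)
           (CovZ.leaf K2_ok TY_l2979 _))
          (CovZ.leaf K2_ok TY_l2980 _))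
         (CovZ.n1 (-2746, 10526) (by decide +kernel)
          (CovZ.n2 (-2744, 10526) (by decide +kernel)
           (CovZ.leaf K3_ok TY_l2981 _)
           (CovZ.leaf K3_ok TY_l2982 _))
          (CovZ.n1 (-2746, 10524) (by decide +kernel)
           (CovZ.leaf K3_ok TY_l2983 _)
           (CovZ.leaf K3_ok TY_l2984 _))))))
      (CovZ.n1 (-2736, 10520) (by decide +kernel)
       (CovZ.n2 (-2740, 10516) (by decide +kernel)
        (CovZ.n2 (-2740, 10520) (by decide +kernel)
         (CovZ.n2 (-2738, 10518) (by decide +kernel)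
          (CovZ.leaf K3_ok TY_l2985 _)
          (CovZ.leaf K3_ok TY_l2986 _))
         (CovZ.n1 (-2742, 10518) (by decide +kernel)
          (CovZ.leaf K3_ok TY_l2987 _)
          (CovZ.leaf K3_ok TY_l2988 _)))
        (CovZ.n1 (-2736, 10516) (by decide +kernel)
         (CovZ.n2 (-2738, 10514) (by decide +kernel)
          (CovZ.leaf K3_ok TY_l2989 _)
          (CovZ.leaf K2_ok TY_l2990 _))
         (CovZ.n1 (-2738, 10518) (by decide +kernel)
          (CovZ.leaf K3_ok TY_l2991 _)
          (CovZ.leaf K3_ok TY_l2992 _))))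
       (CovZ.n1 (-2740, 10524) (by decide +kernel)
        (CovZ.n2 (-2736, 10524) (by decide +kernel)
         (CovZ.n2 (-2738, 10522) (by decide +kernel)
          (CovZ.n2 (-2738, 10524) (by decide +kernel)
           (CovZ.leaf K3_ok TY_l2993 _)
           (CovZ.leaf K3_ok TY_l2994 _))
          (CovZ.n1 (-2736, 10522) (by decide +kernel)
           (CovZ.leaf K2_ok TY_l2995 _)
           (CovZ.leaf K3_ok TY_l2996 _)))
         (CovZ.n1 (-2738, 10526) (by decide +kernel)
          (CovZ.n2 (-2736, 10526) (by decide +kernel)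
           (CovZ.leaf K2_ok TY_l2997 _)
           (CovZ.leaf K2_ok TY_l2998 _))
          (CovZ.n1 (-2738, 10524) (by decide +kernel)
           (CovZ.leaf K2_ok TY_l2999 _)
           (CovZ.leaf K3_ok TY_l3000 _))))
        (CovZ.n1 (-2740, 10520) (by decide +kernel)
         (CovZ.n2 (-2742, 10522) (by decide +kernel)
          (CovZ.leaf K2_ok TY_l3001 _)
          (CovZ.n1 (-2742, 10520) (by decide +kernel)
           (CovZ.leaf K3_ok TY_l3002 _)
           (CovZ.leaf K3_ok TY_l3003 _)))
         (CovZ.n1 (-2738, 10522) (by decide +kernel)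
          (CovZ.n2 (-2738, 10520) (by decide +kernel)
           (CovZ.leaf K3_ok TY_l3004 _)
           (CovZ.leaf K3_ok TY_l3005 _))
          (CovZ.leaf K3_ok TY_l3006 _)))))))

theorem TY_u30 : CovZ TY_M (toL (selN TY_LN 7)) [0, 7, 4, 3] (-2624, 10528) (-2640, 10512) (-2624, 10496) :=
    (CovZ.n2 (-2624, 10512) (by decide +kernel)
     (CovZ.n2 (-2632, 10504) (by decide +kernel)
      (CovZ.n2 (-2632, 10512) (by decide +kernel)
       (CovZ.n2 (-2628, 10508) (by decide +kernel)
        (CovZ.n2 (-2632, 10508) (by decide +kernel)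
         (CovZ.n2 (-2630, 10510) (by decide +kernel)
          (CovZ.leaf K2_ok TY_l6184 _)
          (CovZ.leaf K3_ok TY_l6185 _))
         (CovZ.n1 (-2630, 10506) (by decide +kernel)
          (CovZ.leaf K3_ok TY_l6186 _)
          (CovZ.leaf K3_ok TY_l6187 _)))
        (CovZ.n1 (-2628, 10512) (by decide +kernel)
         (CovZ.n2 (-2626, 10510) (by decide +kernel)
          (CovZ.leaf K2_ok TY_l6188 _)
          (CovZ.n1 (-2626, 10512) (by decide +kernel)
           (CovZ.leaf K2_ok TY_l6189 _)
           (CovZ.leaf K3_ok TY_l6190 _)))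
         (CovZ.n1 (-2630, 10510) (by decide +kernel)
          (CovZ.leaf K2_ok TY_l6191 _)
          (CovZ.n1 (-2628, 10510) (by decide +kernel)
           (CovZ.leaf K3_ok TY_l6192 _)
           (CovZ.leaf K3_ok TY_l6193 _)))))
       (CovZ.n1 (-2636, 10508) (by decide +kernel)
        (CovZ.n2 (-2636, 10512) (by decide +kernel)
         (CovZ.leaf K2_ok TY_l6194 _)
         (CovZ.n1 (-2638, 10510) (by decide +kernel)
          (CovZ.leaf K2_ok TY_l6195 _)
          (CovZ.leaf K2_ok TY_l6196 _)))
        (CovZ.n1 (-2632, 10508) (by decide +kernel)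
         (CovZ.n2 (-2634, 10506) (by decide +kernel)
          (CovZ.leaf K3_ok TY_l6197 _)
          (CovZ.leaf K3_ok TY_l6198 _))
         (CovZ.leaf K2_ok TY_l6199 _))))
      (CovZ.n1 (-2624, 10504) (by decide +kernel)
       (CovZ.n2 (-2628, 10500) (by decide +kernel)
        (CovZ.n2 (-2628, 10504) (by decide +kernel)
         (CovZ.n2 (-2626, 10502) (by decide +kernel)
          (CovZ.n2 (-2628, 10502) (by decide +kernel)
           (CovZ.leaf K3_ok TY_l6200 _)
           (CovZ.leaf K2_ok TY_l6201 _))
          (CovZ.n1 (-2626, 10504) (by decide +kernel)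
           (CovZ.n2 (-2625, 10503) (by decide +kernel)
            (CovZ.leaf K2_ok TY_l6202 _)
            (CovZ.leaf K2_ok TY_l6203 _))
           (CovZ.n1 (-2627, 10503) (by decide +kernel)
            (CovZ.leaf K2_ok TY_l6204 _)
            (CovZ.leaf K2_ok TY_l6205 _))))
         (CovZ.n1 (-2630, 10502) (by decide +kernel)
          (CovZ.n2 (-2630, 10504) (by decide +kernel)
           (CovZ.leaf K3_ok TY_l6206 _)
           (CovZ.leaf K2_ok TY_l6207 _))
          (CovZ.leaf K2_ok TY_l6208 _)))
        (CovZ.n1 (-2624, 10500) (by decide +kernel)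
         (CovZ.n2 (-2626, 10498) (by decide +kernel)
          (CovZ.n2 (-2626, 10500) (by decide +kernel)
           (CovZ.badM (by decide +kernel))
           (CovZ.n1 (-2627, 10499) (by decide +kernel)
            (CovZ.n2 (-2627, 10500) (by decide +kernel)
             (CovZ.leaf K3_ok TY_l6209 _)
             (CovZ.leaf K2_ok TY_l6210 _))
            (CovZ.badM (by decide +kernel))))
          (CovZ.badM (by decide +kernel)))
         (CovZ.n1 (-2626, 10502) (by decide +kernel)
          (CovZ.n2 (-2624, 10502) (by decide +kernel)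
           (CovZ.n2 (-2625, 10501) (by decide +kernel)
            (CovZ.leaf K2_ok TY_l6211 _)
            (CovZ.badM (by decide +kernel)))
           (CovZ.n1 (-2625, 10503) (by decide +kernel)
            (CovZ.leaf K3_ok TY_l6212 _)
            (CovZ.leaf K3_ok TY_l6213 _)))
          (CovZ.n1 (-2626, 10500) (by decide +kernel)
           (CovZ.n2 (-2627, 10501) (by decide +kernel)
            (CovZ.leaf K2_ok TY_l6214 _)
            (CovZ.leaf K3_ok TY_l6215 _))
           (CovZ.n1 (-2625, 10501) (by decide +kernel)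
            (CovZ.badM (by decide +kernel))
            (CovZ.leaf K2_ok TY_l6216 _))))))
       (CovZ.n1 (-2628, 10508) (by decide +kernel)
        (CovZ.n2 (-2624, 10508) (by decide +kernel)
         (CovZ.n2 (-2626, 10506) (by decide +kernel)
          (CovZ.n2 (-2626, 10508) (by decide +kernel)
           (CovZ.leaf K3_ok TY_l6217 _)
           (CovZ.n1 (-2627, 10507) (by decide +kernel)
            (CovZ.leaf K3_ok TY_l6218 _)
            (CovZ.leaf K2_ok TY_l6219 _)))
          (CovZ.n1 (-2624, 10506) (by decide +kernel)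
           (CovZ.n2 (-2625, 10505) (by decide +kernel)
            (CovZ.leaf K2_ok TY_l6220 _)
            (CovZ.leaf K3_ok TY_l6221 _))
           (CovZ.n1 (-2625, 10507) (by decide +kernel)
            (CovZ.leaf K2_ok TY_l6222 _)
            (CovZ.leaf K2_ok TY_l6223 _))))
         (CovZ.n1 (-2626, 10510) (by decide +kernel)
          (CovZ.leaf K3_ok TY_l6224 _)
          (CovZ.n1 (-2626, 10508) (by decide +kernel)
           (CovZ.leaf K3_ok TY_l6225 _)
           (CovZ.leaf K2_ok TY_l6226 _))))
        (CovZ.n1 (-2628, 10504) (by decide +kernel)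
         (CovZ.n2 (-2630, 10506) (by decide +kernel)
          (CovZ.leaf K3_ok TY_l6227 _)
          (CovZ.n1 (-2630, 10504) (by decide +kernel)
           (CovZ.leaf K2_ok TY_l6228 _)
           (CovZ.leaf K2_ok TY_l6229 _)))
         (CovZ.n1 (-2626, 10506) (by decide +kernel)
          (CovZ.n2 (-2626, 10504) (by decide +kernel)
           (CovZ.leaf K3_ok TY_l6230 _)
           (CovZ.n1 (-2625, 10505) (by decide +kernel)
            (CovZ.leaf K2_ok TY_l6231 _)
            (CovZ.leaf K3_ok TY_l6232 _)))
          (CovZ.n1 (-2628, 10506) (by decide +kernel)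
           (CovZ.leaf K3_ok TY_l6233 _)
           (CovZ.leaf K3_ok TY_l6234 _)))))))
     (CovZ.n1 (-2632, 10520) (by decide +kernel)
      (CovZ.n2 (-2624, 10520) (by decide +kernel)
       (CovZ.n2 (-2628, 10516) (by decide +kernel)
        (CovZ.n2 (-2628, 10520) (by decide +kernel)
         (CovZ.leaf K2_ok TY_l6235 _)
         (CovZ.n1 (-2630, 10518) (by decide +kernel)
          (CovZ.leaf K2_ok TY_l6236 _)
          (CovZ.leaf K2_ok TY_l6237 _)))
        (CovZ.n1 (-2624, 10516) (by decide +kernel)
         (CovZ.n2 (-2626, 10514) (by decide +kernel)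
          (CovZ.leaf K2_ok TY_l6238 _)
          (CovZ.leaf K3_ok TY_l6239 _))
         (CovZ.leaf K2_ok TY_l6240 _)))
       (CovZ.n1 (-2628, 10524) (by decide +kernel)
        (CovZ.n2 (-2624, 10524) (by decide +kernel)
         (CovZ.n2 (-2626, 10522) (by decide +kernel)
          (CovZ.leaf K3_ok TY_l6241 _)
          (CovZ.leaf K3_ok TY_l6242 _))
         (CovZ.leaf K2_ok TY_l6243 _))
        (CovZ.n1 (-2628, 10520) (by decide +kernel)
         (CovZ.leaf K2_ok TY_l6244 _)
         (CovZ.n1 (-2626, 10522) (by decide +kernel)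
          (CovZ.leaf K3_ok TY_l6245 _)
          (CovZ.leaf K3_ok TY_l6246 _)))))
      (CovZ.n1 (-2632, 10512) (by decide +kernel)
       (CovZ.n2 (-2636, 10516) (by decide +kernel)
        (CovZ.leaf K3_ok TY_l6247 _)
        (CovZ.n1 (-2636, 10512) (by decide +kernel)
         (CovZ.leaf K3_ok TY_l6248 _)
         (CovZ.leaf K2_ok TY_l6249 _)))
       (CovZ.n1 (-2628, 10516) (by decide +kernel)
        (CovZ.n2 (-2628, 10512) (by decide +kernel)
         (CovZ.leaf K2_ok TY_l6250 _)
         (CovZ.n1 (-2626, 10514) (by decide +kernel)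
          (CovZ.leaf K2_ok TY_l6251 _)
          (CovZ.leaf K2_ok TY_l6252 _)))
        (CovZ.n1 (-2632, 10516) (by decide +kernel)
         (CovZ.leaf K2_ok TY_l6253 _)
         (CovZ.leaf K2_ok TY_l6254 _))))))

theorem TY_u31 : CovZ TY_M (toL (selN TY_LN 7)) [0, 7, 4, 3] (-2640, 10512) (-2656, 10496) (-2624, 10496) :=
    (CovZ.n1 (-2640, 10496) (by decide +kernel)
     (CovZ.n2 (-2648, 10504) (by decide +kernel)
      (CovZ.n2 (-2640, 10504) (by decide +kernel)
       (CovZ.n2 (-2644, 10500) (by decide +kernel)
        (CovZ.n2 (-2644, 10504) (by decide +kernel)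
         (CovZ.leaf K2_ok TY_l6255 _)
         (CovZ.leaf K2_ok TY_l6256 _))
        (CovZ.n1 (-2640, 10500) (by decide +kernel)
         (CovZ.n2 (-2642, 10498) (by decide +kernel)
          (CovZ.leaf K3_ok TY_l6257 _)
          (CovZ.leaf K2_ok TY_l6258 _))
         (CovZ.n1 (-2642, 10502) (by decide +kernel)
          (CovZ.leaf K3_ok TY_l6259 _)
          (CovZ.leaf K2_ok TY_l6260 _))))
       (CovZ.n1 (-2644, 10508) (by decide +kernel)
        (CovZ.n2 (-2640, 10508) (by decide +kernel)
         (CovZ.n2 (-2642, 10506) (by decide +kernel)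
          (CovZ.leaf K3_ok TY_l6261 _)
          (CovZ.leaf K3_ok TY_l6262 _))
         (CovZ.leaf K2_ok TY_l6263 _))
        (CovZ.n1 (-2644, 10504) (by decide +kernel)
         (CovZ.leaf K3_ok TY_l6264 _)
         (CovZ.leaf K2_ok TY_l6265 _))))
      (CovZ.n1 (-2648, 10496) (by decide +kernel)
       (CovZ.n2 (-2652, 10500) (by decide +kernel)
        (CovZ.leaf K3_ok TY_l6266 _)
        (CovZ.n1 (-2652, 10496) (by decide +kernel)
         (CovZ.leaf K3_ok TY_l6267 _)
         (CovZ.leaf K2_ok TY_l6268 _)))
       (CovZ.n1 (-2644, 10500) (by decide +kernel)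
        (CovZ.n2 (-2644, 10496) (by decide +kernel)
         (CovZ.leaf K3_ok TY_l6269 _)
         (CovZ.n1 (-2642, 10498) (by decide +kernel)
          (CovZ.leaf K3_ok TY_l6270 _)
          (CovZ.n1 (-2644, 10498) (by decide +kernel)
           (CovZ.leaf K3_ok TY_l6271 _)
           (CovZ.leaf K2_ok TY_l6272 _))))
        (CovZ.n1 (-2648, 10500) (by decide +kernel)
         (CovZ.leaf K2_ok TY_l6273 _)
         (CovZ.leaf K2_ok TY_l6274 _)))))
     (CovZ.n1 (-2632, 10504) (by decide +kernel)
      (CovZ.n2 (-2632, 10496) (by decide +kernel)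
       (CovZ.n2 (-2636, 10500) (by decide +kernel)
        (CovZ.n2 (-2632, 10500) (by decide +kernel)
         (CovZ.n2 (-2634, 10498) (by decide +kernel)
          (CovZ.n2 (-2634, 10500) (by decide +kernel)
           (CovZ.leaf K2_ok TY_l6275 _)
           (CovZ.leaf K2_ok TY_l6276 _))
          (CovZ.n1 (-2632, 10498) (by decide +kernel)
           (CovZ.n2 (-2633, 10497) (by decide +kernel)
            (CovZ.leaf K2_ok TY_l6277 _)
            (CovZ.leaf K2_ok TY_l6278 _))
           (CovZ.leaf K2_ok TY_l6279 _)))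
         (CovZ.n1 (-2634, 10502) (by decide +kernel)
          (CovZ.leaf K2_ok TY_l6280 _)
          (CovZ.leaf K2_ok TY_l6281 _)))
        (CovZ.n1 (-2636, 10496) (by decide +kernel)
         (CovZ.n2 (-2638, 10498) (by decide +kernel)
          (CovZ.leaf K3_ok TY_l6282 _)
          (CovZ.n1 (-2638, 10496) (by decide +kernel)
           (CovZ.leaf K3_ok TY_l6283 _)
           (CovZ.leaf K3_ok TY_l6284 _)))
         (CovZ.n1 (-2634, 10498) (by decide +kernel)
          (CovZ.n2 (-2634, 10496) (by decide +kernel)
           (CovZ.leaf K2_ok TY_l6285 _)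
           (CovZ.n1 (-2633, 10497) (by decide +kernel)
            (CovZ.leaf K3_ok TY_l6286 _)
            (CovZ.leaf K3_ok TY_l6287 _)))
          (CovZ.n1 (-2636, 10498) (by decide +kernel)
           (CovZ.leaf K2_ok TY_l6288 _)
           (CovZ.leaf K2_ok TY_l6289 _)))))
       (CovZ.n1 (-2628, 10500) (by decide +kernel)
        (CovZ.n2 (-2628, 10496) (by decide +kernel)
         (CovZ.n2 (-2630, 10498) (by decide +kernel)
          (CovZ.n2 (-2628, 10498) (by decide +kernel)
           (CovZ.n2 (-2629, 10497) (by decide +kernel)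
            (CovZ.leaf K2_ok TY_l6290 _)
            (CovZ.badM (by decide +kernel)))
           (CovZ.n1 (-2629, 10499) (by decide +kernel)
            (CovZ.leaf K2_ok TY_l6291 _)
            (CovZ.leaf K2_ok TY_l6292 _)))
          (CovZ.n1 (-2630, 10496) (by decide +kernel)
           (CovZ.leaf K3_ok TY_l6293 _)
           (CovZ.n1 (-2629, 10497) (by decide +kernel)
            (CovZ.badM (by decide +kernel))
            (CovZ.leaf K2_ok TY_l6294 _))))
         (CovZ.n1 (-2626, 10498) (by decide +kernel)
          (CovZ.badM (by decide +kernel))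
          (CovZ.n1 (-2628, 10498) (by decide +kernel)
           (CovZ.n2 (-2627, 10499) (by decide +kernel)
            (CovZ.badM (by decide +kernel))
            (CovZ.leaf K2_ok TY_l6295 _))
           (CovZ.badM (by decide +kernel)))))
        (CovZ.n1 (-2632, 10500) (by decide +kernel)
         (CovZ.n2 (-2630, 10502) (by decide +kernel)
          (CovZ.n2 (-2630, 10500) (by decide +kernel)
           (CovZ.leaf K2_ok TY_l6296 _)
           (CovZ.leaf K2_ok TY_l6297 _))
          (CovZ.leaf K3_ok TY_l6298 _))
         (CovZ.n1 (-2630, 10498) (by decide +kernel)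
          (CovZ.leaf K2_ok TY_l6299 _)
          (CovZ.n1 (-2630, 10500) (by decide +kernel)
           (CovZ.n2 (-2629, 10499) (by decide +kernel)
            (CovZ.leaf K3_ok TY_l6300 _)
            (CovZ.leaf K2_ok TY_l6301 _))
           (CovZ.n1 (-2631, 10499) (by decide +kernel)
            (CovZ.leaf K2_ok TY_l6302 _)
            (CovZ.leaf K3_ok TY_l6303 _)))))))
      (CovZ.n1 (-2640, 10504) (by decide +kernel)
       (CovZ.n2 (-2636, 10508) (by decide +kernel)
        (CovZ.n2 (-2636, 10504) (by decide +kernel)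
         (CovZ.leaf K3_ok TY_l6304 _)
         (CovZ.n1 (-2634, 10506) (by decide +kernel)
          (CovZ.leaf K3_ok TY_l6305 _)
          (CovZ.leaf K2_ok TY_l6306 _)))
        (CovZ.n1 (-2640, 10508) (by decide +kernel)
         (CovZ.leaf K2_ok TY_l6307 _)
         (CovZ.leaf K2_ok TY_l6308 _)))
       (CovZ.n1 (-2636, 10500) (by decide +kernel)
        (CovZ.n2 (-2640, 10500) (by decide +kernel)
         (CovZ.n2 (-2638, 10502) (by decide +kernel)
          (CovZ.leaf K2_ok TY_l6309 _)
          (CovZ.leaf K3_ok TY_l6310 _))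
         (CovZ.n1 (-2638, 10498) (by decide +kernel)
          (CovZ.leaf K3_ok TY_l6311 _)
          (CovZ.n1 (-2638, 10500) (by decide +kernel)
           (CovZ.leaf K2_ok TY_l6312 _)
           (CovZ.leaf K3_ok TY_l6313 _))))
        (CovZ.n1 (-2636, 10504) (by decide +kernel)
         (CovZ.n2 (-2634, 10502) (by decide +kernel)
          (CovZ.leaf K3_ok TY_l6314 _)
          (CovZ.leaf K2_ok TY_l6315 _))
         (CovZ.n1 (-2638, 10502) (by decide +kernel)
          (CovZ.leaf K2_ok TY_l6316 _)
          (CovZ.leaf K2_ok TY_l6317 _)))))))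

theorem TY_u32 : CovZ TY_M (toL (selN TY_LN 7)) [0, 7, 4, 3] (-2720, 10528) (-2720, 10544) (-2736, 10544) :=
    (CovZ.n2 (-2728, 10536) (by decide +kernel)
      (CovZ.n2 (-2728, 10544) (by decide +kernel)
       (CovZ.n2 (-2724, 10540) (by decide +kernel)
        (CovZ.n2 (-2728, 10540) (by decide +kernel)
         (CovZ.n2 (-2726, 10542) (by decide +kernel)
          (CovZ.n2 (-2726, 10540) (by decide +kernel)
           (CovZ.leaf K3_ok TY_l3007 _)
           (CovZ.leaf K3_ok TY_l3008 _))
          (CovZ.n1 (-2728, 10542) (by decide +kernel)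
           (CovZ.leaf K3_ok TY_l3009 _)
           (CovZ.leaf K3_ok TY_l3010 _)))
         (CovZ.n1 (-2726, 10538) (by decide +kernel)
          (CovZ.n2 (-2728, 10538) (by decide +kernel)
           (CovZ.leaf K3_ok TY_l3011 _)
           (CovZ.leaf K3_ok TY_l3012 _))
          (CovZ.n1 (-2726, 10540) (by decide +kernel)
           (CovZ.leaf K3_ok TY_l3013 _)
           (CovZ.leaf K3_ok TY_l3014 _))))
        (CovZ.n1 (-2724, 10544) (by decide +kernel)
         (CovZ.n2 (-2722, 10542) (by decide +kernel)
          (CovZ.n2 (-2724, 10542) (by decide +kernel)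
           (CovZ.n2 (-2723, 10543) (by decide +kernel)
            (CovZ.leaf K3_ok TY_l3015 _)
            (CovZ.leaf K3_ok TY_l3016 _))
           (CovZ.n1 (-2723, 10541) (by decide +kernel)
            (CovZ.leaf K3_ok TY_l3017 _)
            (CovZ.leaf K3_ok TY_l3018 _)))
          (CovZ.n1 (-2722, 10544) (by decide +kernel)
           (CovZ.leaf K3_ok TY_l3019 _)
           (CovZ.n1 (-2723, 10543) (by decide +kernel)
            (CovZ.leaf K3_ok TY_l3020 _)
            (CovZ.leaf K3_ok TY_l3021 _))))
         (CovZ.n1 (-2726, 10542) (by decide +kernel)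
          (CovZ.n2 (-2726, 10544) (by decide +kernel)
           (CovZ.leaf K3_ok TY_l3022 _)
           (CovZ.leaf K2_ok TY_l3023 _))
          (CovZ.n1 (-2724, 10542) (by decide +kernel)
           (CovZ.leaf K3_ok TY_l3024 _)
           (CovZ.leaf K3_ok TY_l3025 _)))))
       (CovZ.n1 (-2732, 10540) (by decide +kernel)
        (CovZ.n2 (-2732, 10544) (by decide +kernel)
         (CovZ.n2 (-2730, 10542) (by decide +kernel)
          (CovZ.n2 (-2732, 10542) (by decide +kernel)
           (CovZ.n2 (-2731, 10543) (by decide +kernel)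
            (CovZ.leaf K3_ok TY_l3026 _)
            (CovZ.leaf K2_ok TY_l3027 _))
           (CovZ.leaf K3_ok TY_l3028 _))
          (CovZ.n1 (-2730, 10544) (by decide +kernel)
           (CovZ.leaf K3_ok TY_l3029 _)
           (CovZ.n1 (-2731, 10543) (by decide +kernel)
            (CovZ.leaf K3_ok TY_l3030 _)
            (CovZ.leaf K2_ok TY_l3031 _))))
         (CovZ.n1 (-2734, 10542) (by decide +kernel)
          (CovZ.n2 (-2734, 10544) (by decide +kernel)
           (CovZ.leaf K3_ok TY_l3032 _)
           (CovZ.n1 (-2735, 10543) (by decide +kernel)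
            (CovZ.leaf K3_ok TY_l3033 _)
            (CovZ.leaf K2_ok TY_l3034 _)))
          (CovZ.n1 (-2732, 10542) (by decide +kernel)
           (CovZ.n2 (-2733, 10541) (by decide +kernel)
            (CovZ.leaf K2_ok TY_l3035 _)
            (CovZ.leaf K3_ok TY_l3036 _))
           (CovZ.leaf K3_ok TY_l3037 _))))
        (CovZ.n1 (-2728, 10540) (by decide +kernel)
         (CovZ.n2 (-2730, 10538) (by decide +kernel)
          (CovZ.n2 (-2730, 10540) (by decide +kernel)
           (CovZ.leaf K3_ok TY_l3038 _)
           (CovZ.leaf K2_ok TY_l3039 _))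
          (CovZ.leaf K3_ok TY_l3040 _))
         (CovZ.n1 (-2730, 10542) (by decide +kernel)
          (CovZ.leaf K2_ok TY_l3041 _)
          (CovZ.n1 (-2730, 10540) (by decide +kernel)
           (CovZ.leaf K3_ok TY_l3042 _)
           (CovZ.leaf K3_ok TY_l3043 _))))))
      (CovZ.n1 (-2720, 10536) (by decide +kernel)
       (CovZ.n2 (-2724, 10532) (by decide +kernel)
        (CovZ.n2 (-2724, 10536) (by decide +kernel)
         (CovZ.n2 (-2722, 10534) (by decide +kernel)
          (CovZ.leaf K3_ok TY_l3044 _)
          (CovZ.leaf K3_ok TY_l3045 _))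
         (CovZ.n1 (-2726, 10534) (by decide +kernel)
          (CovZ.n2 (-2726, 10536) (by decide +kernel)
           (CovZ.leaf K2_ok TY_l3046 _)
           (CovZ.leaf K3_ok TY_l3047 _))
          (CovZ.n1 (-2724, 10534) (by decide +kernel)
           (CovZ.leaf K3_ok TY_l3048 _)
           (CovZ.leaf K3_ok TY_l3049 _))))
        (CovZ.n1 (-2720, 10532) (by decide +kernel)
         (CovZ.n2 (-2722, 10530) (by decide +kernel)
          (CovZ.leaf K3_ok TY_l3050 _)
          (CovZ.leaf K3_ok TY_l3051 _))
         (CovZ.n1 (-2722, 10534) (by decide +kernel)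
          (CovZ.leaf K3_ok TY_l3052 _)
          (CovZ.leaf K2_ok TY_l3053 _))))
       (CovZ.n1 (-2724, 10540) (by decide +kernel)
        (CovZ.n2 (-2720, 10540) (by decide +kernel)
         (CovZ.n2 (-2722, 10538) (by decide +kernel)
          (CovZ.n2 (-2722, 10540) (by decide +kernel)
           (CovZ.leaf K3_ok TY_l3054 _)
           (CovZ.leaf K3_ok TY_l3055 _))
          (CovZ.leaf K3_ok TY_l3056 _))
         (CovZ.n1 (-2722, 10542) (by decide +kernel)
          (CovZ.n2 (-2720, 10542) (by decide +kernel)
           (CovZ.n2 (-2721, 10541) (by decide +kernel)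
            (CovZ.leaf K3_ok TY_l3057 _)
            (CovZ.leaf K3_ok TY_l3058 _))
           (CovZ.leaf K3_ok TY_l3059 _))
          (CovZ.n1 (-2722, 10540) (by decide +kernel)
           (CovZ.leaf K3_ok TY_l3060 _)
           (CovZ.leaf K2_ok TY_l3061 _))))
        (CovZ.n1 (-2724, 10536) (by decide +kernel)
         (CovZ.n2 (-2726, 10538) (by decide +kernel)
          (CovZ.leaf K3_ok TY_l3062 _)
          (CovZ.n1 (-2726, 10536) (by decide +kernel)
           (CovZ.leaf K3_ok TY_l3063 _)
           (CovZ.leaf K3_ok TY_l3064 _)))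
         (CovZ.n1 (-2722, 10538) (by decide +kernel)
          (CovZ.n2 (-2722, 10536) (by decide +kernel)
           (CovZ.leaf K3_ok TY_l3065 _)
           (CovZ.leaf K3_ok TY_l3066 _))
          (CovZ.leaf K3_ok TY_l3067 _))))))

theorem TY_u33 : CovZ TY_M (toL (selN TY_LN 7)) [0, 7, 4, 3] (-2720, 10544) (-2720, 10560) (-2736, 10544) :=
    (CovZ.n1 (-2728, 10552) (by decide +kernel)
      (CovZ.n2 (-2720, 10552) (by decide +kernel)
       (CovZ.n2 (-2724, 10548) (by decide +kernel)
        (CovZ.n2 (-2724, 10552) (by decide +kernel)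
         (CovZ.n2 (-2722, 10550) (by decide +kernel)
          (CovZ.n2 (-2724, 10550) (by decide +kernel)
           (CovZ.leaf K3_ok TY_l3068 _)
           (CovZ.leaf K3_ok TY_l3069 _))
          (CovZ.n1 (-2722, 10552) (by decide +kernel)
           (CovZ.leaf K3_ok TY_l3070 _)
           (CovZ.leaf K3_ok TY_l3071 _)))
         (CovZ.n1 (-2726, 10550) (by decide +kernel)
          (CovZ.n2 (-2726, 10552) (by decide +kernel)
           (CovZ.leaf K3_ok TY_l3072 _)
           (CovZ.n1 (-2727, 10551) (by decide +kernel)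
            (CovZ.n2 (-2727, 10552) (by decide +kernel)
             (CovZ.leaf K3_ok TY_l3073 _)
             (CovZ.leaf K3_ok TY_l3074 _))
            (CovZ.leaf K3_ok TY_l3075 _)))
          (CovZ.n1 (-2724, 10550) (by decide +kernel)
           (CovZ.leaf K3_ok TY_l3076 _)
           (CovZ.leaf K3_ok TY_l3077 _))))
        (CovZ.n1 (-2720, 10548) (by decide +kernel)
         (CovZ.n2 (-2722, 10546) (by decide +kernel)
          (CovZ.n2 (-2722, 10548) (by decide +kernel)
           (CovZ.leaf K2_ok TY_l3078 _)
           (CovZ.leaf K2_ok TY_l3079 _))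
          (CovZ.leaf K3_ok TY_l3080 _))
         (CovZ.n1 (-2722, 10550) (by decide +kernel)
          (CovZ.n2 (-2720, 10550) (by decide +kernel)
           (CovZ.leaf K3_ok TY_l3081 _)
           (CovZ.leaf K3_ok TY_l3082 _))
          (CovZ.n1 (-2722, 10548) (by decide +kernel)
           (CovZ.n2 (-2723, 10549) (by decide +kernel)
            (CovZ.leaf K3_ok TY_l3083 _)
            (CovZ.leaf K3_ok TY_l3084 _))
           (CovZ.n1 (-2721, 10549) (by decide +kernel)
            (CovZ.leaf K3_ok TY_l3085 _)
            (CovZ.leaf K3_ok TY_l3086 _))))))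
       (CovZ.n1 (-2724, 10556) (by decide +kernel)
        (CovZ.n2 (-2720, 10556) (by decide +kernel)
         (CovZ.n2 (-2722, 10554) (by decide +kernel)
          (CovZ.n2 (-2722, 10556) (by decide +kernel)
           (CovZ.n2 (-2721, 10555) (by decide +kernel)
            (CovZ.n2 (-2722, 10555) (by decide +kernel)
             (CovZ.leaf K3_ok TY_l3087 _)
             (CovZ.leaf K3_ok TY_l3088 _))
            (CovZ.leaf K3_ok TY_l3089 _))
           (CovZ.n1 (-2723, 10555) (by decide +kernel)
            (CovZ.leaf K3_ok TY_l3090 _)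
            (CovZ.leaf K3_ok TY_l3091 _)))
          (CovZ.n1 (-2720, 10554) (by decide +kernel)
           (CovZ.leaf K3_ok TY_l3092 _)
           (CovZ.n1 (-2721, 10555) (by decide +kernel)
            (CovZ.leaf K2_ok TY_l3093 _)
            (CovZ.leaf K3_ok TY_l3094 _))))
         (CovZ.n1 (-2722, 10558) (by decide +kernel)
          (CovZ.n2 (-2720, 10558) (by decide +kernel)
           (CovZ.n2 (-2721, 10557) (by decide +kernel)
            (CovZ.leaf K3_ok TY_l3095 _)
            (CovZ.leaf K3_ok TY_l3096 _))
           (CovZ.leaf K3_ok TY_l3097 _))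
          (CovZ.n1 (-2722, 10556) (by decide +kernel)
           (CovZ.n2 (-2723, 10557) (by decide +kernel)
            (CovZ.leaf K2_ok TY_l3098 _)
            (CovZ.n1 (-2723, 10556) (by decide +kernel)
             (CovZ.leaf K3_ok TY_l3099 _)
             (CovZ.leaf K3_ok TY_l3100 _)))
           (CovZ.n1 (-2721, 10557) (by decide +kernel)
            (CovZ.leaf K3_ok TY_l3101 _)
            (CovZ.n1 (-2722, 10557) (by decide +kernel)
             (CovZ.leaf K3_ok TY_l3102 _)
             (CovZ.leaf K3_ok TY_l3103 _))))))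
        (CovZ.n1 (-2724, 10552) (by decide +kernel)
         (CovZ.n2 (-2726, 10554) (by decide +kernel)
          (CovZ.n2 (-2724, 10554) (by decide +kernel)
           (CovZ.n2 (-2725, 10553) (by decide +kernel)
            (CovZ.leaf K2_ok TY_l3104 _)
            (CovZ.leaf K3_ok TY_l3105 _))
           (CovZ.n1 (-2725, 10555) (by decide +kernel)
            (CovZ.leaf K3_ok TY_l3106 _)
            (CovZ.leaf K3_ok TY_l3107 _)))
          (CovZ.n1 (-2726, 10552) (by decide +kernel)
           (CovZ.n2 (-2727, 10553) (by decide +kernel)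
            (CovZ.leaf K3_ok TY_l3108 _)
            (CovZ.leaf K3_ok TY_l3109 _))
           (CovZ.n1 (-2725, 10553) (by decide +kernel)
            (CovZ.leaf K3_ok TY_l3110 _)
            (CovZ.leaf K3_ok TY_l3111 _))))
         (CovZ.n1 (-2722, 10554) (by decide +kernel)
          (CovZ.n2 (-2722, 10552) (by decide +kernel)
           (CovZ.leaf K2_ok TY_l3112 _)
           (CovZ.n1 (-2721, 10553) (by decide +kernel)
            (CovZ.leaf K3_ok TY_l3113 _)
            (CovZ.leaf K3_ok TY_l3114 _)))
          (CovZ.n1 (-2724, 10554) (by decide +kernel)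
           (CovZ.n2 (-2723, 10555) (by decide +kernel)
            (CovZ.leaf K2_ok TY_l3115 _)
            (CovZ.leaf K3_ok TY_l3116 _))
           (CovZ.leaf K3_ok TY_l3117 _))))))
      (CovZ.n1 (-2728, 10544) (by decide +kernel)
       (CovZ.n2 (-2732, 10548) (by decide +kernel)
        (CovZ.n2 (-2728, 10548) (by decide +kernel)
         (CovZ.n2 (-2730, 10546) (by decide +kernel)
          (CovZ.n2 (-2730, 10548) (by decide +kernel)
           (CovZ.leaf K3_ok TY_l3118 _)
           (CovZ.leaf K3_ok TY_l3119 _))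
          (CovZ.n1 (-2728, 10546) (by decide +kernel)
           (CovZ.leaf K3_ok TY_l3120 _)
           (CovZ.leaf K3_ok TY_l3121 _)))
         (CovZ.n1 (-2730, 10550) (by decide +kernel)
          (CovZ.n2 (-2728, 10550) (by decide +kernel)
           (CovZ.n2 (-2729, 10549) (by decide +kernel)
            (CovZ.leaf K2_ok TY_l3122 _)
            (CovZ.leaf K3_ok TY_l3123 _))
           (CovZ.n1 (-2729, 10551) (by decide +kernel)
            (CovZ.leaf K3_ok TY_l3124 _)
            (CovZ.leaf K3_ok TY_l3125 _)))
          (CovZ.n1 (-2730, 10548) (by decide +kernel)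
           (CovZ.leaf K3_ok TY_l3126 _)
           (CovZ.n1 (-2729, 10549) (by decide +kernel)
            (CovZ.leaf K3_ok TY_l3127 _)
            (CovZ.leaf K3_ok TY_l3128 _)))))
        (CovZ.n1 (-2732, 10544) (by decide +kernel)
         (CovZ.n2 (-2734, 10546) (by decide +kernel)
          (CovZ.n2 (-2732, 10546) (by decide +kernel)
           (CovZ.n2 (-2733, 10545) (by decide +kernel)
            (CovZ.leaf K3_ok TY_l3129 _)
            (CovZ.leaf K3_ok TY_l3130 _))
           (CovZ.leaf K3_ok TY_l3131 _))
          (CovZ.n1 (-2734, 10544) (by decide +kernel)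
           (CovZ.leaf K3_ok TY_l3132 _)
           (CovZ.n1 (-2733, 10545) (by decide +kernel)
            (CovZ.leaf K3_ok TY_l3133 _)
            (CovZ.leaf K3_ok TY_l3134 _))))
         (CovZ.n1 (-2730, 10546) (by decide +kernel)
          (CovZ.n2 (-2730, 10544) (by decide +kernel)
           (CovZ.n2 (-2731, 10545) (by decide +kernel)
            (CovZ.leaf K3_ok TY_l3135 _)
            (CovZ.leaf K3_ok TY_l3136 _))
           (CovZ.n1 (-2729, 10545) (by decide +kernel)
            (CovZ.leaf K3_ok TY_l3137 _)
            (CovZ.leaf K3_ok TY_l3138 _)))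
          (CovZ.n1 (-2732, 10546) (by decide +kernel)
           (CovZ.n2 (-2731, 10547) (by decide +kernel)
            (CovZ.leaf K3_ok TY_l3139 _)
            (CovZ.leaf K3_ok TY_l3140 _))
           (CovZ.leaf K3_ok TY_l3141 _)))))
       (CovZ.n1 (-2724, 10548) (by decide +kernel)
        (CovZ.n2 (-2724, 10544) (by decide +kernel)
         (CovZ.n2 (-2726, 10546) (by decide +kernel)
          (CovZ.n2 (-2724, 10546) (by decide +kernel)
           (CovZ.n2 (-2725, 10545) (by decide +kernel)
            (CovZ.leaf K3_ok TY_l3142 _)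
            (CovZ.leaf K3_ok TY_l3143 _))
           (CovZ.leaf K2_ok TY_l3144 _))
          (CovZ.n1 (-2726, 10544) (by decide +kernel)
           (CovZ.leaf K3_ok TY_l3145 _)
           (CovZ.leaf K3_ok TY_l3146 _)))
         (CovZ.n1 (-2722, 10546) (by decide +kernel)
          (CovZ.n2 (-2722, 10544) (by decide +kernel)
           (CovZ.leaf K3_ok TY_l3147 _)
           (CovZ.leaf K2_ok TY_l3148 _))
          (CovZ.leaf K3_ok TY_l3149 _)))
        (CovZ.n1 (-2728, 10548) (by decide +kernel)
         (CovZ.n2 (-2726, 10550) (by decide +kernel)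
          (CovZ.n2 (-2726, 10548) (by decide +kernel)
           (CovZ.n2 (-2727, 10549) (by decide +kernel)
            (CovZ.leaf K2_ok TY_l3150 _)
            (CovZ.n1 (-2727, 10548) (by decide +kernel)
             (CovZ.leaf K3_ok TY_l3151 _)
             (CovZ.leaf K3_ok TY_l3152 _)))
           (CovZ.n1 (-2725, 10549) (by decide +kernel)
            (CovZ.n2 (-2725, 10548) (by decide +kernel)
             (CovZ.leaf K2_ok TY_l3153 _)
             (CovZ.leaf K3_ok TY_l3154 _))
            (CovZ.leaf K3_ok TY_l3155 _)))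
          (CovZ.n1 (-2728, 10550) (by decide +kernel)
           (CovZ.n2 (-2727, 10551) (by decide +kernel)
            (CovZ.leaf K3_ok TY_l3156 _)
            (CovZ.leaf K3_ok TY_l3157 _))
           (CovZ.leaf K3_ok TY_l3158 _)))
         (CovZ.n1 (-2726, 10546) (by decide +kernel)
          (CovZ.n2 (-2728, 10546) (by decide +kernel)
           (CovZ.n2 (-2727, 10547) (by decide +kernel)
            (CovZ.leaf K3_ok TY_l3159 _)
            (CovZ.leaf K3_ok TY_l3160 _))
           (CovZ.leaf K3_ok TY_l3161 _))
          (CovZ.n1 (-2726, 10548) (by decide +kernel)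
           (CovZ.leaf K3_ok TY_l3162 _)
           (CovZ.n1 (-2727, 10547) (by decide +kernel)
            (CovZ.leaf K3_ok TY_l3163 _)
            (CovZ.leaf K3_ok TY_l3164 _))))))))

theorem TY_u34 : CovZ TY_M (toL (selN TY_LN 7)) [0, 7, 4, 3] (-2752, 10528) (-2736, 10528) (-2736, 10544) :=
    (CovZ.n2 (-2744, 10536) (by decide +kernel)
      (CovZ.n2 (-2736, 10536) (by decide +kernel)
       (CovZ.n2 (-2740, 10532) (by decide +kernel)
        (CovZ.n2 (-2740, 10536) (by decide +kernel)
         (CovZ.n2 (-2738, 10534) (by decide +kernel)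
          (CovZ.leaf K2_ok TY_l3165 _)
          (CovZ.n1 (-2738, 10536) (by decide +kernel)
           (CovZ.leaf K3_ok TY_l3166 _)
           (CovZ.leaf K3_ok TY_l3167 _)))
         (CovZ.n1 (-2742, 10534) (by decide +kernel)
          (CovZ.n2 (-2742, 10536) (by decide +kernel)
           (CovZ.leaf K3_ok TY_l3168 _)
           (CovZ.n1 (-2743, 10535) (by decide +kernel)
            (CovZ.leaf K3_ok TY_l3169 _)
            (CovZ.leaf K3_ok TY_l3170 _)))
          (CovZ.n1 (-2740, 10534) (by decide +kernel)
           (CovZ.leaf K3_ok TY_l3171 _)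
           (CovZ.leaf K3_ok TY_l3172 _))))
        (CovZ.n1 (-2736, 10532) (by decide +kernel)
         (CovZ.n2 (-2738, 10530) (by decide +kernel)
          (CovZ.n2 (-2738, 10532) (by decide +kernel)
           (CovZ.leaf K2_ok TY_l3173 _)
           (CovZ.leaf K3_ok TY_l3174 _))
          (CovZ.leaf K2_ok TY_l3175 _))
         (CovZ.n1 (-2738, 10534) (by decide +kernel)
          (CovZ.leaf K3_ok TY_l3176 _)
          (CovZ.n1 (-2738, 10532) (by decide +kernel)
           (CovZ.n2 (-2739, 10533) (by decide +kernel)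
            (CovZ.leaf K2_ok TY_l3177 _)
            (CovZ.leaf K3_ok TY_l3178 _))
           (CovZ.n1 (-2737, 10533) (by decide +kernel)
            (CovZ.leaf K3_ok TY_l3179 _)
            (CovZ.leaf K3_ok TY_l3180 _))))))
       (CovZ.n1 (-2740, 10540) (by decide +kernel)
        (CovZ.n2 (-2736, 10540) (by decide +kernel)
         (CovZ.n2 (-2738, 10538) (by decide +kernel)
          (CovZ.n2 (-2738, 10540) (by decide +kernel)
           (CovZ.leaf K3_ok TY_l3181 _)
           (CovZ.n1 (-2739, 10539) (by decide +kernel)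
            (CovZ.leaf K3_ok TY_l3182 _)
            (CovZ.leaf K2_ok TY_l3183 _)))
          (CovZ.leaf K2_ok TY_l3184 _))
         (CovZ.n1 (-2738, 10542) (by decide +kernel)
          (CovZ.n2 (-2736, 10542) (by decide +kernel)
           (CovZ.n2 (-2737, 10541) (by decide +kernel)
            (CovZ.leaf K2_ok TY_l3185 _)
            (CovZ.leaf K3_ok TY_l3186 _))
           (CovZ.n1 (-2737, 10543) (by decide +kernel)
            (CovZ.leaf K3_ok TY_l3187 _)
            (CovZ.leaf K3_ok TY_l3188 _)))
          (CovZ.n1 (-2738, 10540) (by decide +kernel)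
           (CovZ.leaf K3_ok TY_l3189 _)
           (CovZ.n1 (-2737, 10541) (by decide +kernel)
            (CovZ.leaf K2_ok TY_l3190 _)
            (CovZ.n1 (-2738, 10541) (by decide +kernel)
             (CovZ.leaf K2_ok TY_l3191 _)
             (CovZ.leaf K2_ok TY_l3192 _))))))
        (CovZ.n1 (-2740, 10536) (by decide +kernel)
         (CovZ.n2 (-2742, 10538) (by decide +kernel)
          (CovZ.n2 (-2740, 10538) (by decide +kernel)
           (CovZ.n2 (-2741, 10537) (by decide +kernel)
            (CovZ.leaf K3_ok TY_l3193 _)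
            (CovZ.leaf K2_ok TY_l3194 _))
           (CovZ.leaf K3_ok TY_l3195 _))
          (CovZ.n1 (-2742, 10536) (by decide +kernel)
           (CovZ.leaf K2_ok TY_l3196 _)
           (CovZ.n1 (-2741, 10537) (by decide +kernel)
            (CovZ.leaf K3_ok TY_l3197 _)
            (CovZ.leaf K3_ok TY_l3198 _))))
         (CovZ.n1 (-2738, 10538) (by decide +kernel)
          (CovZ.n2 (-2738, 10536) (by decide +kernel)
           (CovZ.leaf K2_ok TY_l3199 _)
           (CovZ.leaf K3_ok TY_l3200 _))
          (CovZ.n1 (-2740, 10538) (by decide +kernel)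
           (CovZ.n2 (-2739, 10539) (by decide +kernel)
            (CovZ.leaf K3_ok TY_l3201 _)
            (CovZ.leaf K3_ok TY_l3202 _))
           (CovZ.n1 (-2739, 10537) (by decide +kernel)
            (CovZ.leaf K3_ok TY_l3203 _)
            (CovZ.leaf K3_ok TY_l3204 _)))))))
      (CovZ.n1 (-2744, 10528) (by decide +kernel)
       (CovZ.n2 (-2748, 10532) (by decide +kernel)
        (CovZ.n2 (-2744, 10532) (by decide +kernel)
         (CovZ.n2 (-2746, 10530) (by decide +kernel)
          (CovZ.n2 (-2746, 10532) (by decide +kernel)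
           (CovZ.leaf K3_ok TY_l3205 _)
           (CovZ.leaf K2_ok TY_l3206 _))
          (CovZ.n1 (-2744, 10530) (by decide +kernel)
           (CovZ.n2 (-2745, 10529) (by decide +kernel)
            (CovZ.leaf K3_ok TY_l3207 _)
            (CovZ.leaf K3_ok TY_l3208 _))
           (CovZ.leaf K3_ok TY_l3209 _)))
         (CovZ.n1 (-2746, 10534) (by decide +kernel)
          (CovZ.n2 (-2744, 10534) (by decide +kernel)
           (CovZ.leaf K3_ok TY_l3210 _)
           (CovZ.leaf K3_ok TY_l3211 _))
          (CovZ.n1 (-2746, 10532) (by decide +kernel)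
           (CovZ.leaf K2_ok TY_l3212 _)
           (CovZ.n1 (-2745, 10533) (by decide +kernel)
            (CovZ.leaf K2_ok TY_l3213 _)
            (CovZ.leaf K2_ok TY_l3214 _)))))
        (CovZ.n1 (-2748, 10528) (by decide +kernel)
         (CovZ.n2 (-2750, 10530) (by decide +kernel)
          (CovZ.n2 (-2748, 10530) (by decide +kernel)
           (CovZ.leaf K3_ok TY_l3215 _)
           (CovZ.n1 (-2749, 10531) (by decide +kernel)
            (CovZ.leaf K3_ok TY_l3216 _)
            (CovZ.leaf K3_ok TY_l3217 _)))
          (CovZ.n1 (-2750, 10528) (by decide +kernel)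
           (CovZ.leaf K2_ok TY_l3218 _)
           (CovZ.n1 (-2749, 10529) (by decide +kernel)
            (CovZ.leaf K2_ok TY_l3219 _)
            (CovZ.leaf K3_ok TY_l3220 _))))
         (CovZ.n1 (-2746, 10530) (by decide +kernel)
          (CovZ.n2 (-2746, 10528) (by decide +kernel)
           (CovZ.leaf K3_ok TY_l3221 _)
           (CovZ.leaf K3_ok TY_l3222 _))
          (CovZ.n1 (-2748, 10530) (by decide +kernel)
           (CovZ.n2 (-2747, 10531) (by decide +kernel)
            (CovZ.leaf K2_ok TY_l3223 _)
            (CovZ.leaf K2_ok TY_l3224 _))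
           (CovZ.leaf K2_ok TY_l3225 _)))))
       (CovZ.n1 (-2740, 10532) (by decide +kernel)
        (CovZ.n2 (-2740, 10528) (by decide +kernel)
         (CovZ.n2 (-2742, 10530) (by decide +kernel)
          (CovZ.n2 (-2740, 10530) (by decide +kernel)
           (CovZ.leaf K3_ok TY_l3226 _)
           (CovZ.leaf K3_ok TY_l3227 _))
          (CovZ.n1 (-2742, 10528) (by decide +kernel)
           (CovZ.leaf K3_ok TY_l3228 _)
           (CovZ.leaf K3_ok TY_l3229 _)))
         (CovZ.n1 (-2738, 10530) (by decide +kernel)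
          (CovZ.n2 (-2738, 10528) (by decide +kernel)
           (CovZ.leaf K2_ok TY_l3230 _)
           (CovZ.leaf K3_ok TY_l3231 _))
          (CovZ.n1 (-2740, 10530) (by decide +kernel)
           (CovZ.leaf K3_ok TY_l3232 _)
           (CovZ.n1 (-2739, 10529) (by decide +kernel)
            (CovZ.leaf K3_ok TY_l3233 _)
            (CovZ.leaf K3_ok TY_l3234 _)))))
        (CovZ.n1 (-2744, 10532) (by decide +kernel)
         (CovZ.n2 (-2742, 10534) (by decide +kernel)
          (CovZ.n2 (-2742, 10532) (by decide +kernel)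
           (CovZ.leaf K3_ok TY_l3235 _)
           (CovZ.leaf K3_ok TY_l3236 _))
          (CovZ.n1 (-2744, 10534) (by decide +kernel)
           (CovZ.leaf K3_ok TY_l3237 _)
           (CovZ.leaf K3_ok TY_l3238 _)))
         (CovZ.n1 (-2742, 10530) (by decide +kernel)
          (CovZ.n2 (-2744, 10530) (by decide +kernel)
           (CovZ.leaf K2_ok TY_l3239 _)
           (CovZ.leaf K3_ok TY_l3240 _))
          (CovZ.n1 (-2742, 10532) (by decide +kernel)
           (CovZ.leaf K3_ok TY_l3241 _)
           (CovZ.leaf K3_ok TY_l3242 _)))))))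

theorem TY_u35 : CovZ TY_M (toL (selN TY_LN 7)) [0, 7, 4, 3] (-2736, 10528) (-2720, 10528) (-2736, 10544) :=
    (CovZ.n1 (-2728, 10536) (by decide +kernel)
      (CovZ.n2 (-2728, 10528) (by decide +kernel)
       (CovZ.n2 (-2732, 10532) (by decide +kernel)
        (CovZ.n2 (-2728, 10532) (by decide +kernel)
         (CovZ.n2 (-2730, 10530) (by decide +kernel)
          (CovZ.n2 (-2730, 10532) (by decide +kernel)
           (CovZ.leaf K3_ok TY_l3243 _)
           (CovZ.leaf K2_ok TY_l3244 _))
          (CovZ.n1 (-2728, 10530) (by decide +kernel)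
           (CovZ.leaf K2_ok TY_l3245 _)
           (CovZ.leaf K3_ok TY_l3246 _)))
         (CovZ.n1 (-2730, 10534) (by decide +kernel)
          (CovZ.leaf K3_ok TY_l3247 _)
          (CovZ.n1 (-2730, 10532) (by decide +kernel)
           (CovZ.leaf K3_ok TY_l3248 _)
           (CovZ.leaf K2_ok TY_l3249 _))))
        (CovZ.n1 (-2732, 10528) (by decide +kernel)
         (CovZ.n2 (-2734, 10530) (by decide +kernel)
          (CovZ.n2 (-2732, 10530) (by decide +kernel)
           (CovZ.leaf K2_ok TY_l3250 _)
           (CovZ.leaf K3_ok TY_l3251 _))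
          (CovZ.n1 (-2734, 10528) (by decide +kernel)
           (CovZ.leaf K3_ok TY_l3252 _)
           (CovZ.leaf K3_ok TY_l3253 _)))
         (CovZ.n1 (-2730, 10530) (by decide +kernel)
          (CovZ.n2 (-2730, 10528) (by decide +kernel)
           (CovZ.leaf K3_ok TY_l3254 _)
           (CovZ.n1 (-2729, 10529) (by decide +kernel)
            (CovZ.leaf K2_ok TY_l3255 _)
            (CovZ.leaf K3_ok TY_l3256 _)))
          (CovZ.leaf K2_ok TY_l3257 _))))
       (CovZ.n1 (-2724, 10532) (by decide +kernel)
        (CovZ.n2 (-2724, 10528) (by decide +kernel)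
         (CovZ.n2 (-2726, 10530) (by decide +kernel)
          (CovZ.leaf K2_ok TY_l3258 _)
          (CovZ.n1 (-2726, 10528) (by decide +kernel)
           (CovZ.leaf K3_ok TY_l3259 _)
           (CovZ.n1 (-2725, 10529) (by decide +kernel)
            (CovZ.leaf K2_ok TY_l3260 _)
            (CovZ.leaf K3_ok TY_l3261 _))))
         (CovZ.n1 (-2722, 10530) (by decide +kernel)
          (CovZ.n2 (-2722, 10528) (by decide +kernel)
           (CovZ.leaf K3_ok TY_l3262 _)
           (CovZ.leaf K2_ok TY_l3263 _))
          (CovZ.leaf K3_ok TY_l3264 _)))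
        (CovZ.n1 (-2728, 10532) (by decide +kernel)
         (CovZ.n2 (-2726, 10534) (by decide +kernel)
          (CovZ.n2 (-2726, 10532) (by decide +kernel)
           (CovZ.leaf K3_ok TY_l3265 _)
           (CovZ.leaf K3_ok TY_l3266 _))
          (CovZ.leaf K3_ok TY_l3267 _))
         (CovZ.leaf K3_ok TY_l3268 _))))
      (CovZ.n1 (-2736, 10536) (by decide +kernel)
       (CovZ.n2 (-2732, 10540) (by decide +kernel)
        (CovZ.n2 (-2732, 10536) (by decide +kernel)
         (CovZ.n2 (-2734, 10538) (by decide +kernel)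
          (CovZ.n2 (-2732, 10538) (by decide +kernel)
           (CovZ.n2 (-2733, 10537) (by decide +kernel)
            (CovZ.leaf K3_ok TY_l3269 _)
            (CovZ.leaf K3_ok TY_l3270 _))
           (CovZ.leaf K3_ok TY_l3271 _))
          (CovZ.n1 (-2734, 10536) (by decide +kernel)
           (CovZ.leaf K3_ok TY_l3272 _)
           (CovZ.leaf K3_ok TY_l3273 _)))
         (CovZ.n1 (-2730, 10538) (by decide +kernel)
          (CovZ.n2 (-2730, 10536) (by decide +kernel)
           (CovZ.leaf K2_ok TY_l3274 _)
           (CovZ.n1 (-2729, 10537) (by decide +kernel)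
            (CovZ.leaf K3_ok TY_l3275 _)
            (CovZ.leaf K2_ok TY_l3276 _)))
          (CovZ.n1 (-2732, 10538) (by decide +kernel)
           (CovZ.leaf K3_ok TY_l3277 _)
           (CovZ.leaf K2_ok TY_l3278 _))))
        (CovZ.n1 (-2736, 10540) (by decide +kernel)
         (CovZ.n2 (-2734, 10542) (by decide +kernel)
          (CovZ.n2 (-2734, 10540) (by decide +kernel)
           (CovZ.leaf K3_ok TY_l3279 _)
           (CovZ.n1 (-2733, 10541) (by decide +kernel)
            (CovZ.leaf K3_ok TY_l3280 _)
            (CovZ.leaf K3_ok TY_l3281 _)))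
          (CovZ.n1 (-2736, 10542) (by decide +kernel)
           (CovZ.n2 (-2735, 10543) (by decide +kernel)
            (CovZ.leaf K3_ok TY_l3282 _)
            (CovZ.leaf K2_ok TY_l3283 _))
           (CovZ.leaf K3_ok TY_l3284 _)))
         (CovZ.n1 (-2734, 10538) (by decide +kernel)
          (CovZ.n2 (-2736, 10538) (by decide +kernel)
           (CovZ.leaf K3_ok TY_l3285 _)
           (CovZ.leaf K3_ok TY_l3286 _))
          (CovZ.n1 (-2734, 10540) (by decide +kernel)
           (CovZ.leaf K2_ok TY_l3287 _)
           (CovZ.n1 (-2735, 10539) (by decide +kernel)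
            (CovZ.leaf K3_ok TY_l3288 _)
            (CovZ.leaf K2_ok TY_l3289 _))))))
       (CovZ.n1 (-2732, 10532) (by decide +kernel)
        (CovZ.n2 (-2736, 10532) (by decide +kernel)
         (CovZ.n2 (-2734, 10534) (by decide +kernel)
          (CovZ.n2 (-2734, 10532) (by decide +kernel)
           (CovZ.leaf K3_ok TY_l3290 _)
           (CovZ.leaf K2_ok TY_l3291 _))
          (CovZ.n1 (-2736, 10534) (by decide +kernel)
           (CovZ.leaf K2_ok TY_l3292 _)
           (CovZ.leaf K2_ok TY_l3293 _)))
         (CovZ.n1 (-2734, 10530) (by decide +kernel)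
          (CovZ.n2 (-2736, 10530) (by decide +kernel)
           (CovZ.leaf K3_ok TY_l3294 _)
           (CovZ.leaf K2_ok TY_l3295 _))
          (CovZ.leaf K2_ok TY_l3296 _)))
        (CovZ.n1 (-2732, 10536) (by decide +kernel)
         (CovZ.n2 (-2730, 10534) (by decide +kernel)
          (CovZ.leaf K3_ok TY_l3297 _)
          (CovZ.n1 (-2730, 10536) (by decide +kernel)
           (CovZ.leaf K3_ok TY_l3298 _)
           (CovZ.leaf K3_ok TY_l3299 _)))
         (CovZ.n1 (-2734, 10534) (by decide +kernel)
          (CovZ.n2 (-2734, 10536) (by decide +kernel)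
           (CovZ.leaf K3_ok TY_l3300 _)
           (CovZ.leaf K2_ok TY_l3301 _))
          (CovZ.leaf K3_ok TY_l3302 _))))))

theorem TY_u36 : CovZ TY_M (toL (selN TY_LN 7)) [0, 7, 4, 3] (-2752, 10528) (-2736, 10544) (-2752, 10560) :=
    (CovZ.n2 (-2752, 10544) (by decide +kernel)
     (CovZ.n2 (-2744, 10552) (by decide +kernel)
      (CovZ.n2 (-2744, 10544) (by decide +kernel)
       (CovZ.badM (by decide +kernel))
       (CovZ.n1 (-2740, 10548) (by decide +kernel)
        (CovZ.n2 (-2740, 10544) (by decide +kernel)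
         (CovZ.n2 (-2742, 10546) (by decide +kernel)
          (CovZ.n2 (-2740, 10546) (by decide +kernel)
           (CovZ.n2 (-2741, 10545) (by decide +kernel)
            (CovZ.badM (by decide +kernel))
            (CovZ.leaf K3_ok TY_l3303 _))
           (CovZ.badM (by decide +kernel)))
          (CovZ.n1 (-2742, 10544) (by decide +kernel)
           (CovZ.badM (by decide +kernel))
           (CovZ.leaf K3_ok TY_l3304 _)))
         (CovZ.n1 (-2738, 10546) (by decide +kernel)
          (CovZ.n2 (-2738, 10544) (by decide +kernel)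
           (CovZ.leaf K3_ok TY_l3305 _)
           (CovZ.n1 (-2737, 10545) (by decide +kernel)
            (CovZ.leaf K3_ok TY_l3306 _)
            (CovZ.n1 (-2738, 10545) (by decide +kernel)
             (CovZ.leaf K3_ok TY_l3307 _)
             (CovZ.leaf K3_ok TY_l3308 _))))
          (CovZ.n1 (-2740, 10546) (by decide +kernel)
           (CovZ.n2 (-2739, 10547) (by decide +kernel)
            (CovZ.leaf K2_ok TY_l3309 _)
            (CovZ.badM (by decide +kernel)))
           (CovZ.leaf K3_ok TY_l3310 _))))
        (CovZ.badM (by decide +kernel))))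
      (CovZ.badM (by decide +kernel)))
     (CovZ.n1 (-2744, 10536) (by decide +kernel)
      (CovZ.n2 (-2752, 10536) (by decide +kernel)
       (CovZ.n2 (-2748, 10540) (by decide +kernel)
        (CovZ.n2 (-2748, 10536) (by decide +kernel)
         (CovZ.n2 (-2750, 10538) (by decide +kernel)
          (CovZ.n2 (-2748, 10538) (by decide +kernel)
           (CovZ.n2 (-2749, 10537) (by decide +kernel)
            (CovZ.leaf K2_ok TY_l3311 _)
            (CovZ.leaf K2_ok TY_l3312 _))
           (CovZ.n1 (-2749, 10539) (by decide +kernel)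
            (CovZ.leaf K3_ok TY_l3313 _)
            (CovZ.n1 (-2749, 10538) (by decide +kernel)
             (CovZ.badM (by decide +kernel))
             (CovZ.leaf K3_ok TY_l3314 _))))
          (CovZ.n1 (-2750, 10536) (by decide +kernel)
           (CovZ.n2 (-2751, 10537) (by decide +kernel)
            (CovZ.leaf K3_ok TY_l3315 _)
            (CovZ.leaf K2_ok TY_l3316 _))
           (CovZ.n1 (-2749, 10537) (by decide +kernel)
            (CovZ.leaf K3_ok TY_l3317 _)
            (CovZ.leaf K3_ok TY_l3318 _))))
         (CovZ.n1 (-2746, 10538) (by decide +kernel)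
          (CovZ.n2 (-2746, 10536) (by decide +kernel)
           (CovZ.leaf K3_ok TY_l3319 _)
           (CovZ.n1 (-2745, 10537) (by decide +kernel)
            (CovZ.leaf K3_ok TY_l3320 _)
            (CovZ.leaf K2_ok TY_l3321 _)))
          (CovZ.n1 (-2748, 10538) (by decide +kernel)
           (CovZ.n2 (-2747, 10539) (by decide +kernel)
            (CovZ.leaf K3_ok TY_l3322 _)
            (CovZ.leaf K2_ok TY_l3323 _))
           (CovZ.leaf K2_ok TY_l3324 _))))
        (CovZ.badM (by decide +kernel)))
       (CovZ.n1 (-2748, 10532) (by decide +kernel)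
        (CovZ.n2 (-2752, 10532) (by decide +kernel)
         (CovZ.n2 (-2750, 10534) (by decide +kernel)
          (CovZ.n2 (-2750, 10532) (by decide +kernel)
           (CovZ.leaf K2_ok TY_l3325 _)
           (CovZ.n1 (-2749, 10533) (by decide +kernel)
            (CovZ.leaf K3_ok TY_l3326 _)
            (CovZ.leaf K3_ok TY_l3327 _)))
          (CovZ.n1 (-2752, 10534) (by decide +kernel)
           (CovZ.n2 (-2751, 10535) (by decide +kernel)
            (CovZ.leaf K2_ok TY_l3328 _)
            (CovZ.leaf K2_ok TY_l3329 _))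
           (CovZ.leaf K3_ok TY_l3330 _)))
         (CovZ.n1 (-2750, 10530) (by decide +kernel)
          (CovZ.n2 (-2752, 10530) (by decide +kernel)
           (CovZ.n2 (-2751, 10531) (by decide +kernel)
            (CovZ.leaf K2_ok TY_l3331 _)
            (CovZ.leaf K3_ok TY_l3332 _))
           (CovZ.leaf K3_ok TY_l3333 _))
          (CovZ.n1 (-2750, 10532) (by decide +kernel)
           (CovZ.n2 (-2749, 10531) (by decide +kernel)
            (CovZ.leaf K2_ok TY_l3334 _)
            (CovZ.leaf K2_ok TY_l3335 _))
           (CovZ.leaf K2_ok TY_l3336 _))))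
        (CovZ.n1 (-2748, 10536) (by decide +kernel)
         (CovZ.n2 (-2746, 10534) (by decide +kernel)
          (CovZ.n2 (-2748, 10534) (by decide +kernel)
           (CovZ.leaf K2_ok TY_l3337 _)
           (CovZ.leaf K3_ok TY_l3338 _))
          (CovZ.n1 (-2746, 10536) (by decide +kernel)
           (CovZ.leaf K3_ok TY_l3339 _)
           (CovZ.n1 (-2747, 10535) (by decide +kernel)
            (CovZ.leaf K2_ok TY_l3340 _)
            (CovZ.leaf K3_ok TY_l3341 _))))
         (CovZ.n1 (-2750, 10534) (by decide +kernel)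
          (CovZ.n2 (-2750, 10536) (by decide +kernel)
           (CovZ.leaf K2_ok TY_l3342 _)
           (CovZ.n1 (-2751, 10535) (by decide +kernel)
            (CovZ.leaf K3_ok TY_l3343 _)
            (CovZ.leaf K3_ok TY_l3344 _)))
          (CovZ.n1 (-2748, 10534) (by decide +kernel)
           (CovZ.n2 (-2749, 10533) (by decide +kernel)
            (CovZ.leaf K2_ok TY_l3345 _)
            (CovZ.leaf K3_ok TY_l3346 _))
           (CovZ.leaf K3_ok TY_l3347 _))))))
      (CovZ.n1 (-2744, 10544) (by decide +kernel)
       (CovZ.n2 (-2740, 10540) (by decide +kernel)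
        (CovZ.n2 (-2744, 10540) (by decide +kernel)
         (CovZ.n2 (-2742, 10542) (by decide +kernel)
          (CovZ.n2 (-2742, 10540) (by decide +kernel)
           (CovZ.leaf K3_ok TY_l3348 _)
           (CovZ.n1 (-2741, 10541) (by decide +kernel)
            (CovZ.leaf K2_ok TY_l3349 _)
            (CovZ.leaf K3_ok TY_l3350 _)))
          (CovZ.n1 (-2744, 10542) (by decide +kernel)
           (CovZ.n2 (-2743, 10543) (by decide +kernel)
            (CovZ.leaf K3_ok TY_l3351 _)
            (CovZ.badM (by decide +kernel)))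
           (CovZ.leaf K3_ok TY_l3352 _)))
         (CovZ.n1 (-2742, 10538) (by decide +kernel)
          (CovZ.n2 (-2744, 10538) (by decide +kernel)
           (CovZ.n2 (-2743, 10539) (by decide +kernel)
            (CovZ.leaf K2_ok TY_l3353 _)
            (CovZ.leaf K3_ok TY_l3354 _))
           (CovZ.leaf K3_ok TY_l3355 _))
          (CovZ.n1 (-2742, 10540) (by decide +kernel)
           (CovZ.leaf K3_ok TY_l3356 _)
           (CovZ.leaf K2_ok TY_l3357 _))))
        (CovZ.n1 (-2740, 10544) (by decide +kernel)
         (CovZ.n2 (-2738, 10542) (by decide +kernel)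
          (CovZ.n2 (-2740, 10542) (by decide +kernel)
           (CovZ.n2 (-2739, 10543) (by decide +kernel)
            (CovZ.leaf K3_ok TY_l3358 _)
            (CovZ.leaf K3_ok TY_l3359 _))
           (CovZ.leaf K2_ok TY_l3360 _))
          (CovZ.n1 (-2738, 10544) (by decide +kernel)
           (CovZ.leaf K3_ok TY_l3361 _)
           (CovZ.n1 (-2739, 10543) (by decide +kernel)
            (CovZ.leaf K3_ok TY_l3362 _)
            (CovZ.leaf K3_ok TY_l3363 _))))
         (CovZ.n1 (-2742, 10542) (by decide +kernel)
          (CovZ.n2 (-2742, 10544) (by decide +kernel)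
           (CovZ.n2 (-2741, 10543) (by decide +kernel)
            (CovZ.leaf K2_ok TY_l3364 _)
            (CovZ.n1 (-2741, 10544) (by decide +kernel)
             (CovZ.leaf K3_ok TY_l3365 _)
             (CovZ.leaf K2_ok TY_l3366 _)))
           (CovZ.n1 (-2743, 10543) (by decide +kernel)
            (CovZ.badM (by decide +kernel))
            (CovZ.leaf K3_ok TY_l3367 _)))
          (CovZ.n1 (-2740, 10542) (by decide +kernel)
           (CovZ.n2 (-2741, 10541) (by decide +kernel)
            (CovZ.leaf K2_ok TY_l3368 _)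
            (CovZ.leaf K3_ok TY_l3369 _))
           (CovZ.n1 (-2741, 10543) (by decide +kernel)
            (CovZ.leaf K2_ok TY_l3370 _)
            (CovZ.leaf K2_ok TY_l3371 _))))))
       (CovZ.n1 (-2748, 10540) (by decide +kernel)
        (CovZ.badM (by decide +kernel))
        (CovZ.n1 (-2744, 10540) (by decide +kernel)
         (CovZ.n2 (-2746, 10538) (by decide +kernel)
          (CovZ.n2 (-2746, 10540) (by decide +kernel)
           (CovZ.leaf K3_ok TY_l3372 _)
           (CovZ.n1 (-2747, 10539) (by decide +kernel)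
            (CovZ.leaf K3_ok TY_l3373 _)
            (CovZ.n1 (-2746, 10539) (by decide +kernel)
             (CovZ.leaf K3_ok TY_l3374 _)
             (CovZ.leaf K3_ok TY_l3375 _))))
          (CovZ.n1 (-2744, 10538) (by decide +kernel)
           (CovZ.n2 (-2745, 10537) (by decide +kernel)
            (CovZ.leaf K3_ok TY_l3376 _)
            (CovZ.leaf K3_ok TY_l3377 _))
           (CovZ.n1 (-2745, 10539) (by decide +kernel)
            (CovZ.leaf K3_ok TY_l3378 _)
            (CovZ.leaf K3_ok TY_l3379 _))))
         (CovZ.n1 (-2746, 10542) (by decide +kernel)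
          (CovZ.n2 (-2744, 10542) (by decide +kernel)
           (CovZ.n2 (-2745, 10541) (by decide +kernel)
            (CovZ.badM (by decide +kernel))
            (CovZ.leaf K3_ok TY_l3380 _))
           (CovZ.badM (by decide +kernel)))
          (CovZ.n1 (-2746, 10540) (by decide +kernel)
           (CovZ.badM (by decide +kernel))
           (CovZ.n1 (-2745, 10541) (by decide +kernel)
            (CovZ.n2 (-2745, 10540) (by decide +kernel)
             (CovZ.leaf K3_ok TY_l3381 _)
             (CovZ.leaf K3_ok TY_l3382 _))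
            (CovZ.badM (by decide +kernel))))))))))

theorem TY_u37 : CovZ TY_M (toL (selN TY_LN 7)) [0, 7, 4, 3] (-2736, 10544) (-2720, 10560) (-2752, 10560) :=
    (CovZ.n1 (-2736, 10560) (by decide +kernel)
     (CovZ.n2 (-2728, 10552) (by decide +kernel)
      (CovZ.n2 (-2736, 10552) (by decide +kernel)
       (CovZ.n2 (-2732, 10556) (by decide +kernel)
        (CovZ.n2 (-2732, 10552) (by decide +kernel)
         (CovZ.badM (by decide +kernel))
         (CovZ.n1 (-2730, 10554) (by decide +kernel)
          (CovZ.n2 (-2730, 10552) (by decide +kernel)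
           (CovZ.leaf K3_ok TY_l3383 _)
           (CovZ.n1 (-2729, 10553) (by decide +kernel)
            (CovZ.leaf K2_ok TY_l3384 _)
            (CovZ.leaf K3_ok TY_l3385 _)))
          (CovZ.badM (by decide +kernel))))
        (CovZ.badM (by decide +kernel)))
       (CovZ.n1 (-2732, 10548) (by decide +kernel)
        (CovZ.n2 (-2736, 10548) (by decide +kernel)
         (CovZ.n2 (-2734, 10550) (by decide +kernel)
          (CovZ.n2 (-2734, 10548) (by decide +kernel)
           (CovZ.n2 (-2735, 10549) (by decide +kernel)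
            (CovZ.leaf K2_ok TY_l3386 _)
            (CovZ.leaf K2_ok TY_l3387 _))
           (CovZ.n1 (-2733, 10549) (by decide +kernel)
            (CovZ.leaf K2_ok TY_l3388 _)
            (CovZ.leaf K3_ok TY_l3389 _)))
          (CovZ.n1 (-2736, 10550) (by decide +kernel)
           (CovZ.n2 (-2735, 10551) (by decide +kernel)
            (CovZ.leaf K2_ok TY_l3390 _)
            (CovZ.badM (by decide +kernel)))
           (CovZ.leaf K3_ok TY_l3391 _)))
         (CovZ.n1 (-2734, 10546) (by decide +kernel)
          (CovZ.n2 (-2736, 10546) (by decide +kernel)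
           (CovZ.n2 (-2735, 10547) (by decide +kernel)
            (CovZ.leaf K3_ok TY_l3392 _)
            (CovZ.leaf K2_ok TY_l3393 _))
           (CovZ.leaf K2_ok TY_l3394 _))
          (CovZ.n1 (-2734, 10548) (by decide +kernel)
           (CovZ.leaf K2_ok TY_l3395 _)
           (CovZ.n1 (-2735, 10547) (by decide +kernel)
            (CovZ.leaf K2_ok TY_l3396 _)
            (CovZ.leaf K3_ok TY_l3397 _)))))
        (CovZ.n1 (-2732, 10552) (by decide +kernel)
         (CovZ.n2 (-2730, 10550) (by decide +kernel)
          (CovZ.n2 (-2732, 10550) (by decide +kernel)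
           (CovZ.leaf K2_ok TY_l3398 _)
           (CovZ.leaf K2_ok TY_l3399 _))
          (CovZ.n1 (-2730, 10552) (by decide +kernel)
           (CovZ.leaf K3_ok TY_l3400 _)
           (CovZ.n1 (-2731, 10551) (by decide +kernel)
            (CovZ.leaf K3_ok TY_l3401 _)
            (CovZ.leaf K3_ok TY_l3402 _))))
         (CovZ.n1 (-2734, 10550) (by decide +kernel)
          (CovZ.n2 (-2734, 10552) (by decide +kernel)
           (CovZ.leaf K3_ok TY_l3403 _)
           (CovZ.n1 (-2735, 10551) (by decide +kernel)
            (CovZ.badM (by decide +kernel))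
            (CovZ.leaf K2_ok TY_l3404 _)))
          (CovZ.n1 (-2732, 10550) (by decide +kernel)
           (CovZ.n2 (-2733, 10549) (by decide +kernel)
            (CovZ.leaf K3_ok TY_l3405 _)
            (CovZ.leaf K2_ok TY_l3406 _))
           (CovZ.n1 (-2733, 10551) (by decide +kernel)
            (CovZ.leaf K2_ok TY_l3407 _)
            (CovZ.leaf K2_ok TY_l3408 _)))))))
      (CovZ.n1 (-2728, 10560) (by decide +kernel)
       (CovZ.n2 (-2724, 10556) (by decide +kernel)
        (CovZ.n2 (-2728, 10556) (by decide +kernel)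
         (CovZ.n2 (-2726, 10558) (by decide +kernel)
          (CovZ.n2 (-2726, 10556) (by decide +kernel)
           (CovZ.n2 (-2727, 10557) (by decide +kernel)
            (CovZ.leaf K3_ok TY_l3409 _)
            (CovZ.leaf K3_ok TY_l3410 _))
           (CovZ.n1 (-2725, 10557) (by decide +kernel)
            (CovZ.leaf K3_ok TY_l3411 _)
            (CovZ.leaf K3_ok TY_l3412 _)))
          (CovZ.badM (by decide +kernel)))
         (CovZ.n1 (-2726, 10554) (by decide +kernel)
          (CovZ.n2 (-2728, 10554) (by decide +kernel)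
           (CovZ.n2 (-2727, 10555) (by decide +kernel)
            (CovZ.leaf K3_ok TY_l3413 _)
            (CovZ.leaf K3_ok TY_l3414 _))
           (CovZ.leaf K3_ok TY_l3415 _))
          (CovZ.n1 (-2726, 10556) (by decide +kernel)
           (CovZ.n2 (-2725, 10555) (by decide +kernel)
            (CovZ.leaf K3_ok TY_l3416 _)
            (CovZ.leaf K3_ok TY_l3417 _))
           (CovZ.n1 (-2727, 10555) (by decide +kernel)
            (CovZ.leaf K3_ok TY_l3418 _)
            (CovZ.leaf K3_ok TY_l3419 _)))))
        (CovZ.n1 (-2724, 10560) (by decide +kernel)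
         (CovZ.n2 (-2722, 10558) (by decide +kernel)
          (CovZ.n2 (-2724, 10558) (by decide +kernel)
           (CovZ.n2 (-2723, 10559) (by decide +kernel)
            (CovZ.leaf K3_ok TY_l3420 _)
            (CovZ.leaf K2_ok TY_l3421 _))
           (CovZ.n1 (-2723, 10557) (by decide +kernel)
            (CovZ.leaf K3_ok TY_l3422 _)
            (CovZ.n1 (-2723, 10558) (by decide +kernel)
             (CovZ.leaf K3_ok TY_l3423 _)
             (CovZ.leaf K3_ok TY_l3424 _))))
          (CovZ.n1 (-2722, 10560) (by decide +kernel)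
           (CovZ.leaf K3_ok TY_l3425 _)
           (CovZ.n1 (-2723, 10559) (by decide +kernel)
            (CovZ.leaf K3_ok TY_l3426 _)
            (CovZ.n1 (-2722, 10559) (by decide +kernel)
             (CovZ.leaf K3_ok TY_l3427 _)
             (CovZ.leaf K2_ok TY_l3428 _)))))
         (CovZ.n1 (-2726, 10558) (by decide +kernel)
          (CovZ.badM (by decide +kernel))
          (CovZ.n1 (-2724, 10558) (by decide +kernel)
           (CovZ.n2 (-2725, 10557) (by decide +kernel)
            (CovZ.n2 (-2725, 10558) (by decide +kernel)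
             (CovZ.leaf K3_ok TY_l3429 _)
             (CovZ.leaf K3_ok TY_l3430 _))
            (CovZ.leaf K3_ok TY_l3431 _))
           (CovZ.n1 (-2725, 10559) (by decide +kernel)
            (CovZ.leaf K2_ok TY_l3432 _)
            (CovZ.leaf K3_ok TY_l3433 _))))))
       (CovZ.n1 (-2732, 10556) (by decide +kernel)
        (CovZ.badM (by decide +kernel))
        (CovZ.n1 (-2728, 10556) (by decide +kernel)
         (CovZ.n2 (-2730, 10554) (by decide +kernel)
          (CovZ.badM (by decide +kernel))
          (CovZ.n1 (-2728, 10554) (by decide +kernel)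
           (CovZ.leaf K3_ok TY_l3434 _)
           (CovZ.leaf K3_ok TY_l3435 _)))
         (CovZ.badM (by decide +kernel))))))
     (CovZ.n1 (-2744, 10552) (by decide +kernel)
      (CovZ.badM (by decide +kernel))
      (CovZ.n1 (-2736, 10552) (by decide +kernel)
       (CovZ.n2 (-2740, 10548) (by decide +kernel)
        (CovZ.badM (by decide +kernel))
        (CovZ.n1 (-2736, 10548) (by decide +kernel)
         (CovZ.n2 (-2738, 10546) (by decide +kernel)
          (CovZ.n2 (-2738, 10548) (by decide +kernel)
           (CovZ.leaf K3_ok TY_l3436 _)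
           (CovZ.n1 (-2739, 10547) (by decide +kernel)
            (CovZ.badM (by decide +kernel))
            (CovZ.leaf K3_ok TY_l3437 _)))
          (CovZ.n1 (-2736, 10546) (by decide +kernel)
           (CovZ.n2 (-2737, 10545) (by decide +kernel)
            (CovZ.leaf K3_ok TY_l3438 _)
            (CovZ.n1 (-2736, 10545) (by decide +kernel)
             (CovZ.leaf K3_ok TY_l3439 _)
             (CovZ.leaf K2_ok TY_l3440 _)))
           (CovZ.leaf K3_ok TY_l3441 _)))
         (CovZ.n1 (-2738, 10550) (by decide +kernel)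
          (CovZ.n2 (-2736, 10550) (by decide +kernel)
           (CovZ.n2 (-2737, 10549) (by decide +kernel)
            (CovZ.badM (by decide +kernel))
            (CovZ.leaf K3_ok TY_l3442 _))
           (CovZ.badM (by decide +kernel)))
          (CovZ.n1 (-2738, 10548) (by decide +kernel)
           (CovZ.badM (by decide +kernel))
           (CovZ.n1 (-2737, 10549) (by decide +kernel)
            (CovZ.n2 (-2737, 10548) (by decide +kernel)
             (CovZ.badM (by decide +kernel))
             (CovZ.leaf K3_ok TY_l3443 _))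
            (CovZ.badM (by decide +kernel)))))))
       (CovZ.badM (by decide +kernel)))))

theorem TY_u38 : CovZ TY_M (toL (selN TY_LN 7)) [0, 7, 4, 3] (-2720, 10528) (-2704, 10544) (-2720, 10560) :=
    (CovZ.n2 (-2720, 10544) (by decide +kernel)
     (CovZ.n2 (-2712, 10552) (by decide +kernel)
      (CovZ.n2 (-2712, 10544) (by decide +kernel)
       (CovZ.n2 (-2716, 10548) (by decide +kernel)
        (CovZ.n2 (-2712, 10548) (by decide +kernel)
         (CovZ.n2 (-2714, 10546) (by decide +kernel)
          (CovZ.leaf K3_ok TY_l4153 _)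
          (CovZ.leaf K3_ok TY_l4154 _))
         (CovZ.n1 (-2714, 10550) (by decide +kernel)
          (CovZ.leaf K3_ok TY_l4155 _)
          (CovZ.n1 (-2714, 10548) (by decide +kernel)
           (CovZ.leaf K3_ok TY_l4156 _)
           (CovZ.leaf K3_ok TY_l4157 _))))
        (CovZ.n1 (-2716, 10544) (by decide +kernel)
         (CovZ.n2 (-2718, 10546) (by decide +kernel)
          (CovZ.leaf K3_ok TY_l4158 _)
          (CovZ.n1 (-2718, 10544) (by decide +kernel)
           (CovZ.leaf K3_ok TY_l4159 _)
           (CovZ.leaf K3_ok TY_l4160 _)))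
         (CovZ.n1 (-2714, 10546) (by decide +kernel)
          (CovZ.n2 (-2714, 10544) (by decide +kernel)
           (CovZ.leaf K2_ok TY_l4161 _)
           (CovZ.leaf K3_ok TY_l4162 _))
          (CovZ.n1 (-2716, 10546) (by decide +kernel)
           (CovZ.leaf K3_ok TY_l4163 _)
           (CovZ.leaf K3_ok TY_l4164 _)))))
       (CovZ.n1 (-2708, 10548) (by decide +kernel)
        (CovZ.n2 (-2708, 10544) (by decide +kernel)
         (CovZ.n2 (-2710, 10546) (by decide +kernel)
          (CovZ.leaf K3_ok TY_l4165 _)
          (CovZ.leaf K3_ok TY_l4166 _))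
         (CovZ.n1 (-2706, 10546) (by decide +kernel)
          (CovZ.leaf K3_ok TY_l4167 _)
          (CovZ.n1 (-2708, 10546) (by decide +kernel)
           (CovZ.leaf K3_ok TY_l4168 _)
           (CovZ.leaf K2_ok TY_l4169 _))))
        (CovZ.n1 (-2712, 10548) (by decide +kernel)
         (CovZ.n2 (-2710, 10550) (by decide +kernel)
          (CovZ.n2 (-2710, 10548) (by decide +kernel)
           (CovZ.leaf K3_ok TY_l4170 _)
           (CovZ.leaf K3_ok TY_l4171 _))
          (CovZ.leaf K3_ok TY_l4172 _))
         (CovZ.n1 (-2710, 10546) (by decide +kernel)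
          (CovZ.leaf K2_ok TY_l4173 _)
          (CovZ.leaf K3_ok TY_l4174 _)))))
      (CovZ.n1 (-2720, 10552) (by decide +kernel)
       (CovZ.n2 (-2716, 10556) (by decide +kernel)
        (CovZ.n2 (-2716, 10552) (by decide +kernel)
         (CovZ.n2 (-2718, 10554) (by decide +kernel)
          (CovZ.n2 (-2716, 10554) (by decide +kernel)
           (CovZ.leaf K3_ok TY_l4175 _)
           (CovZ.leaf K3_ok TY_l4176 _))
          (CovZ.n1 (-2718, 10552) (by decide +kernel)
           (CovZ.leaf K3_ok TY_l4177 _)
           (CovZ.n1 (-2717, 10553) (by decide +kernel)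
            (CovZ.leaf K2_ok TY_l4178 _)
            (CovZ.leaf K3_ok TY_l4179 _))))
         (CovZ.n1 (-2714, 10554) (by decide +kernel)
          (CovZ.n2 (-2714, 10552) (by decide +kernel)
           (CovZ.leaf K3_ok TY_l4180 _)
           (CovZ.leaf K2_ok TY_l4181 _))
          (CovZ.n1 (-2716, 10554) (by decide +kernel)
           (CovZ.leaf K3_ok TY_l4182 _)
           (CovZ.leaf K2_ok TY_l4183 _))))
        (CovZ.n1 (-2720, 10556) (by decide +kernel)
         (CovZ.n2 (-2718, 10558) (by decide +kernel)
          (CovZ.n2 (-2718, 10556) (by decide +kernel)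
           (CovZ.n2 (-2719, 10557) (by decide +kernel)
            (CovZ.leaf K2_ok TY_l4184 _)
            (CovZ.leaf K3_ok TY_l4185 _))
           (CovZ.n1 (-2717, 10557) (by decide +kernel)
            (CovZ.leaf K2_ok TY_l4186 _)
            (CovZ.leaf K3_ok TY_l4187 _)))
          (CovZ.n1 (-2720, 10558) (by decide +kernel)
           (CovZ.n2 (-2719, 10559) (by decide +kernel)
            (CovZ.leaf K3_ok TY_l4188 _)
            (CovZ.leaf K3_ok TY_l4189 _))
           (CovZ.n1 (-2719, 10557) (by decide +kernel)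
            (CovZ.leaf K3_ok TY_l4190 _)
            (CovZ.leaf K3_ok TY_l4191 _))))
         (CovZ.n1 (-2718, 10554) (by decide +kernel)
          (CovZ.n2 (-2720, 10554) (by decide +kernel)
           (CovZ.leaf K3_ok TY_l4192 _)
           (CovZ.leaf K3_ok TY_l4193 _))
          (CovZ.n1 (-2718, 10556) (by decide +kernel)
           (CovZ.n2 (-2717, 10555) (by decide +kernel)
            (CovZ.leaf K2_ok TY_l4194 _)
            (CovZ.n1 (-2717, 10556) (by decide +kernel)
             (CovZ.leaf K3_ok TY_l4195 _)
             (CovZ.leaf K3_ok TY_l4196 _)))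
           (CovZ.n1 (-2719, 10555) (by decide +kernel)
            (CovZ.leaf K3_ok TY_l4197 _)
            (CovZ.leaf K3_ok TY_l4198 _))))))
       (CovZ.n1 (-2716, 10548) (by decide +kernel)
        (CovZ.n2 (-2720, 10548) (by decide +kernel)
         (CovZ.n2 (-2718, 10550) (by decide +kernel)
          (CovZ.n2 (-2718, 10548) (by decide +kernel)
           (CovZ.leaf K3_ok TY_l4199 _)
           (CovZ.leaf K3_ok TY_l4200 _))
          (CovZ.n1 (-2720, 10550) (by decide +kernel)
           (CovZ.leaf K3_ok TY_l4201 _)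
           (CovZ.leaf K2_ok TY_l4202 _)))
         (CovZ.n1 (-2718, 10546) (by decide +kernel)
          (CovZ.n2 (-2720, 10546) (by decide +kernel)
           (CovZ.leaf K3_ok TY_l4203 _)
           (CovZ.leaf K3_ok TY_l4204 _))
          (CovZ.n1 (-2718, 10548) (by decide +kernel)
           (CovZ.leaf K3_ok TY_l4205 _)
           (CovZ.leaf K3_ok TY_l4206 _))))
        (CovZ.n1 (-2716, 10552) (by decide +kernel)
         (CovZ.n2 (-2714, 10550) (by decide +kernel)
          (CovZ.n2 (-2716, 10550) (by decide +kernel)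
           (CovZ.leaf K3_ok TY_l4207 _)
           (CovZ.leaf K2_ok TY_l4208 _))
          (CovZ.leaf K3_ok TY_l4209 _))
         (CovZ.n1 (-2718, 10550) (by decide +kernel)
          (CovZ.leaf K3_ok TY_l4210 _)
          (CovZ.leaf K3_ok TY_l4211 _))))))
     (CovZ.n1 (-2712, 10536) (by decide +kernel)
      (CovZ.n2 (-2720, 10536) (by decide +kernel)
       (CovZ.n2 (-2716, 10540) (by decide +kernel)
        (CovZ.n2 (-2716, 10536) (by decide +kernel)
         (CovZ.n2 (-2718, 10538) (by decide +kernel)
          (CovZ.n2 (-2716, 10538) (by decide +kernel)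
           (CovZ.leaf K3_ok TY_l4212 _)
           (CovZ.leaf K3_ok TY_l4213 _))
          (CovZ.leaf K3_ok TY_l4214 _))
         (CovZ.n1 (-2714, 10538) (by decide +kernel)
          (CovZ.leaf K2_ok TY_l4215 _)
          (CovZ.leaf K3_ok TY_l4216 _)))
        (CovZ.n1 (-2720, 10540) (by decide +kernel)
         (CovZ.n2 (-2718, 10542) (by decide +kernel)
          (CovZ.n2 (-2718, 10540) (by decide +kernel)
           (CovZ.leaf K3_ok TY_l4217 _)
           (CovZ.leaf K3_ok TY_l4218 _))
          (CovZ.n1 (-2720, 10542) (by decide +kernel)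
           (CovZ.leaf K3_ok TY_l4219 _)
           (CovZ.leaf K3_ok TY_l4220 _)))
         (CovZ.n1 (-2718, 10538) (by decide +kernel)
          (CovZ.n2 (-2720, 10538) (by decide +kernel)
           (CovZ.leaf K3_ok TY_l4221 _)
           (CovZ.leaf K3_ok TY_l4222 _))
          (CovZ.leaf K3_ok TY_l4223 _))))
       (CovZ.n1 (-2716, 10532) (by decide +kernel)
        (CovZ.n2 (-2720, 10532) (by decide +kernel)
         (CovZ.n2 (-2718, 10534) (by decide +kernel)
          (CovZ.n2 (-2718, 10532) (by decide +kernel)
           (CovZ.leaf K3_ok TY_l4224 _)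
           (CovZ.leaf K3_ok TY_l4225 _))
          (CovZ.leaf K3_ok TY_l4226 _))
         (CovZ.n1 (-2718, 10530) (by decide +kernel)
          (CovZ.leaf K3_ok TY_l4227 _)
          (CovZ.leaf K2_ok TY_l4228 _)))
        (CovZ.n1 (-2716, 10536) (by decide +kernel)
         (CovZ.n2 (-2714, 10534) (by decide +kernel)
          (CovZ.leaf K2_ok TY_l4229 _)
          (CovZ.leaf K3_ok TY_l4230 _))
         (CovZ.n1 (-2718, 10534) (by decide +kernel)
          (CovZ.n2 (-2718, 10536) (by decide +kernel)
           (CovZ.leaf K3_ok TY_l4231 _)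
           (CovZ.leaf K3_ok TY_l4232 _))
          (CovZ.leaf K2_ok TY_l4233 _)))))
      (CovZ.n1 (-2712, 10544) (by decide +kernel)
       (CovZ.n2 (-2708, 10540) (by decide +kernel)
        (CovZ.n2 (-2712, 10540) (by decide +kernel)
         (CovZ.n2 (-2710, 10542) (by decide +kernel)
          (CovZ.n2 (-2710, 10540) (by decide +kernel)
           (CovZ.leaf K3_ok TY_l4234 _)
           (CovZ.leaf K3_ok TY_l4235 _))
          (CovZ.leaf K3_ok TY_l4236 _))
         (CovZ.n1 (-2710, 10538) (by decide +kernel)
          (CovZ.n2 (-2712, 10538) (by decide +kernel)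
           (CovZ.leaf K3_ok TY_l4237 _)
           (CovZ.leaf K3_ok TY_l4238 _))
          (CovZ.leaf K3_ok TY_l4239 _)))
        (CovZ.n1 (-2708, 10544) (by decide +kernel)
         (CovZ.n2 (-2706, 10542) (by decide +kernel)
          (CovZ.leaf K2_ok TY_l4240 _)
          (CovZ.n1 (-2706, 10544) (by decide +kernel)
           (CovZ.leaf K2_ok TY_l4241 _)
           (CovZ.leaf K3_ok TY_l4242 _)))
         (CovZ.n1 (-2710, 10542) (by decide +kernel)
          (CovZ.leaf K3_ok TY_l4243 _)
          (CovZ.leaf K3_ok TY_l4244 _))))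
       (CovZ.n1 (-2716, 10540) (by decide +kernel)
        (CovZ.n2 (-2716, 10544) (by decide +kernel)
         (CovZ.n2 (-2714, 10542) (by decide +kernel)
          (CovZ.leaf K3_ok TY_l4245 _)
          (CovZ.leaf K3_ok TY_l4246 _))
         (CovZ.n1 (-2718, 10542) (by decide +kernel)
          (CovZ.n2 (-2718, 10544) (by decide +kernel)
           (CovZ.leaf K3_ok TY_l4247 _)
           (CovZ.leaf K3_ok TY_l4248 _))
          (CovZ.leaf K3_ok TY_l4249 _)))
        (CovZ.n1 (-2712, 10540) (by decide +kernel)
         (CovZ.n2 (-2714, 10538) (by decide +kernel)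
          (CovZ.leaf K3_ok TY_l4250 _)
          (CovZ.leaf K3_ok TY_l4251 _))
         (CovZ.n1 (-2714, 10542) (by decide +kernel)
          (CovZ.leaf K3_ok TY_l4252 _)
          (CovZ.n1 (-2714, 10540) (by decide +kernel)
           (CovZ.leaf K3_ok TY_l4253 _)
           (CovZ.leaf K3_ok TY_l4254 _))))))))

theorem TY_u39 : CovZ TY_M (toL (selN TY_LN 7)) [0, 7, 4, 3] (-2704, 10544) (-2688, 10560) (-2720, 10560) :=
    (CovZ.n1 (-2704, 10560) (by decide +kernel)
     (CovZ.n2 (-2696, 10552) (by decide +kernel)
      (CovZ.n2 (-2704, 10552) (by decide +kernel)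
       (CovZ.n2 (-2700, 10556) (by decide +kernel)
        (CovZ.n2 (-2700, 10552) (by decide +kernel)
         (CovZ.n2 (-2702, 10554) (by decide +kernel)
          (CovZ.n2 (-2700, 10554) (by decide +kernel)
           (CovZ.leaf K3_ok TY_l4255 _)
           (CovZ.leaf K3_ok TY_l4256 _))
          (CovZ.n1 (-2702, 10552) (by decide +kernel)
           (CovZ.leaf K3_ok TY_l4257 _)
           (CovZ.leaf K3_ok TY_l4258 _)))
         (CovZ.n1 (-2698, 10554) (by decide +kernel)
          (CovZ.leaf K2_ok TY_l4259 _)
          (CovZ.leaf K3_ok TY_l4260 _)))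
        (CovZ.n1 (-2704, 10556) (by decide +kernel)
         (CovZ.n2 (-2702, 10558) (by decide +kernel)
          (CovZ.leaf K2_ok TY_l4261 _)
          (CovZ.leaf K3_ok TY_l4262 _))
         (CovZ.n1 (-2702, 10554) (by decide +kernel)
          (CovZ.leaf K3_ok TY_l4263 _)
          (CovZ.leaf K3_ok TY_l4264 _))))
       (CovZ.n1 (-2700, 10548) (by decide +kernel)
        (CovZ.n2 (-2704, 10548) (by decide +kernel)
         (CovZ.n2 (-2702, 10550) (by decide +kernel)
          (CovZ.n2 (-2702, 10548) (by decide +kernel)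
           (CovZ.leaf K3_ok TY_l4265 _)
           (CovZ.leaf K3_ok TY_l4266 _))
          (CovZ.n1 (-2704, 10550) (by decide +kernel)
           (CovZ.leaf K3_ok TY_l4267 _)
           (CovZ.leaf K3_ok TY_l4268 _)))
         (CovZ.n1 (-2702, 10546) (by decide +kernel)
          (CovZ.leaf K3_ok TY_l4269 _)
          (CovZ.leaf K3_ok TY_l4270 _)))
        (CovZ.n1 (-2700, 10552) (by decide +kernel)
         (CovZ.n2 (-2698, 10550) (by decide +kernel)
          (CovZ.leaf K3_ok TY_l4271 _)
          (CovZ.leaf K3_ok TY_l4272 _))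
         (CovZ.n1 (-2702, 10550) (by decide +kernel)
          (CovZ.leaf K3_ok TY_l4273 _)
          (CovZ.n1 (-2700, 10550) (by decide +kernel)
           (CovZ.leaf K3_ok TY_l4274 _)
           (CovZ.leaf K3_ok TY_l4275 _))))))
      (CovZ.n1 (-2696, 10560) (by decide +kernel)
       (CovZ.n2 (-2692, 10556) (by decide +kernel)
        (CovZ.n2 (-2696, 10556) (by decide +kernel)
         (CovZ.n2 (-2694, 10558) (by decide +kernel)
          (CovZ.n2 (-2694, 10556) (by decide +kernel)
           (CovZ.leaf K2_ok TY_l4276 _)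
           (CovZ.leaf K3_ok TY_l4277 _))
          (CovZ.leaf K3_ok TY_l4278 _))
         (CovZ.n1 (-2694, 10554) (by decide +kernel)
          (CovZ.leaf K3_ok TY_l4279 _)
          (CovZ.leaf K2_ok TY_l4280 _)))
        (CovZ.n1 (-2692, 10560) (by decide +kernel)
         (CovZ.n2 (-2690, 10558) (by decide +kernel)
          (CovZ.leaf K3_ok TY_l4281 _)
          (CovZ.leaf K3_ok TY_l4282 _))
         (CovZ.n1 (-2694, 10558) (by decide +kernel)
          (CovZ.leaf K3_ok TY_l4283 _)
          (CovZ.leaf K2_ok TY_l4284 _))))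
       (CovZ.n1 (-2700, 10556) (by decide +kernel)
        (CovZ.n2 (-2700, 10560) (by decide +kernel)
         (CovZ.n2 (-2698, 10558) (by decide +kernel)
          (CovZ.leaf K3_ok TY_l4285 _)
          (CovZ.leaf K3_ok TY_l4286 _))
         (CovZ.n1 (-2702, 10558) (by decide +kernel)
          (CovZ.n2 (-2702, 10560) (by decide +kernel)
           (CovZ.leaf K3_ok TY_l4287 _)
           (CovZ.leaf K3_ok TY_l4288 _))
          (CovZ.leaf K3_ok TY_l4289 _)))
        (CovZ.n1 (-2696, 10556) (by decide +kernel)
         (CovZ.n2 (-2698, 10554) (by decide +kernel)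
          (CovZ.leaf K2_ok TY_l4290 _)
          (CovZ.leaf K3_ok TY_l4291 _))
         (CovZ.n1 (-2698, 10558) (by decide +kernel)
          (CovZ.leaf K3_ok TY_l4292 _)
          (CovZ.leaf K3_ok TY_l4293 _))))))
     (CovZ.n1 (-2712, 10552) (by decide +kernel)
      (CovZ.n2 (-2712, 10560) (by decide +kernel)
       (CovZ.n2 (-2708, 10556) (by decide +kernel)
        (CovZ.n2 (-2712, 10556) (by decide +kernel)
         (CovZ.n2 (-2710, 10558) (by decide +kernel)
          (CovZ.n2 (-2710, 10556) (by decide +kernel)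
           (CovZ.leaf K3_ok TY_l4294 _)
           (CovZ.n1 (-2709, 10557) (by decide +kernel)
            (CovZ.leaf K3_ok TY_l4295 _)
            (CovZ.leaf K3_ok TY_l4296 _)))
          (CovZ.n1 (-2712, 10558) (by decide +kernel)
           (CovZ.n2 (-2711, 10559) (by decide +kernel)
            (CovZ.leaf K3_ok TY_l4297 _)
            (CovZ.leaf K3_ok TY_l4298 _))
           (CovZ.leaf K3_ok TY_l4299 _)))
         (CovZ.n1 (-2710, 10554) (by decide +kernel)
          (CovZ.n2 (-2712, 10554) (by decide +kernel)
           (CovZ.n2 (-2711, 10555) (by decide +kernel)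
            (CovZ.leaf K3_ok TY_l4300 _)
            (CovZ.leaf K3_ok TY_l4301 _))
           (CovZ.leaf K3_ok TY_l4302 _))
          (CovZ.n1 (-2710, 10556) (by decide +kernel)
           (CovZ.leaf K3_ok TY_l4303 _)
           (CovZ.leaf K3_ok TY_l4304 _))))
        (CovZ.n1 (-2708, 10560) (by decide +kernel)
         (CovZ.n2 (-2706, 10558) (by decide +kernel)
          (CovZ.n2 (-2708, 10558) (by decide +kernel)
           (CovZ.leaf K3_ok TY_l4305 _)
           (CovZ.leaf K3_ok TY_l4306 _))
          (CovZ.n1 (-2706, 10560) (by decide +kernel)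
           (CovZ.leaf K2_ok TY_l4307 _)
           (CovZ.leaf K3_ok TY_l4308 _)))
         (CovZ.n1 (-2710, 10558) (by decide +kernel)
          (CovZ.n2 (-2710, 10560) (by decide +kernel)
           (CovZ.leaf K3_ok TY_l4309 _)
           (CovZ.leaf K3_ok TY_l4310 _))
          (CovZ.n1 (-2708, 10558) (by decide +kernel)
           (CovZ.leaf K3_ok TY_l4311 _)
           (CovZ.n1 (-2709, 10559) (by decide +kernel)
            (CovZ.leaf K3_ok TY_l4312 _)
            (CovZ.leaf K3_ok TY_l4313 _))))))
       (CovZ.n1 (-2716, 10556) (by decide +kernel)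
        (CovZ.n2 (-2716, 10560) (by decide +kernel)
         (CovZ.n2 (-2714, 10558) (by decide +kernel)
          (CovZ.n2 (-2716, 10558) (by decide +kernel)
           (CovZ.n2 (-2715, 10559) (by decide +kernel)
            (CovZ.leaf K3_ok TY_l4314 _)
            (CovZ.leaf K2_ok TY_l4315 _))
           (CovZ.leaf K3_ok TY_l4316 _))
          (CovZ.n1 (-2714, 10560) (by decide +kernel)
           (CovZ.leaf K2_ok TY_l4317 _)
           (CovZ.leaf K3_ok TY_l4318 _)))
         (CovZ.n1 (-2718, 10558) (by decide +kernel)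
          (CovZ.n2 (-2718, 10560) (by decide +kernel)
           (CovZ.leaf K3_ok TY_l4319 _)
           (CovZ.n1 (-2719, 10559) (by decide +kernel)
            (CovZ.leaf K3_ok TY_l4320 _)
            (CovZ.leaf K3_ok TY_l4321 _)))
          (CovZ.n1 (-2716, 10558) (by decide +kernel)
           (CovZ.n2 (-2717, 10557) (by decide +kernel)
            (CovZ.leaf K3_ok TY_l4322 _)
            (CovZ.leaf K3_ok TY_l4323 _))
           (CovZ.n1 (-2717, 10559) (by decide +kernel)
            (CovZ.leaf K3_ok TY_l4324 _)
            (CovZ.leaf K3_ok TY_l4325 _)))))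
        (CovZ.n1 (-2712, 10556) (by decide +kernel)
         (CovZ.n2 (-2714, 10554) (by decide +kernel)
          (CovZ.n2 (-2714, 10556) (by decide +kernel)
           (CovZ.leaf K3_ok TY_l4326 _)
           (CovZ.n1 (-2715, 10555) (by decide +kernel)
            (CovZ.n2 (-2715, 10556) (by decide +kernel)
             (CovZ.leaf K3_ok TY_l4327 _)
             (CovZ.leaf K3_ok TY_l4328 _))
            (CovZ.leaf K3_ok TY_l4329 _)))
          (CovZ.leaf K3_ok TY_l4330 _))
         (CovZ.n1 (-2714, 10558) (by decide +kernel)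
          (CovZ.n2 (-2712, 10558) (by decide +kernel)
           (CovZ.leaf K3_ok TY_l4331 _)
           (CovZ.leaf K3_ok TY_l4332 _))
          (CovZ.n1 (-2714, 10556) (by decide +kernel)
           (CovZ.leaf K3_ok TY_l4333 _)
           (CovZ.n1 (-2713, 10557) (by decide +kernel)
            (CovZ.leaf K3_ok TY_l4334 _)
            (CovZ.leaf K3_ok TY_l4335 _)))))))
      (CovZ.n1 (-2704, 10552) (by decide +kernel)
       (CovZ.n2 (-2708, 10548) (by decide +kernel)
        (CovZ.n2 (-2708, 10552) (by decide +kernel)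
         (CovZ.n2 (-2706, 10550) (by decide +kernel)
          (CovZ.leaf K2_ok TY_l4336 _)
          (CovZ.leaf K3_ok TY_l4337 _))
         (CovZ.n1 (-2710, 10550) (by decide +kernel)
          (CovZ.n2 (-2710, 10552) (by decide +kernel)
           (CovZ.leaf K3_ok TY_l4338 _)
           (CovZ.leaf K3_ok TY_l4339 _))
          (CovZ.leaf K3_ok TY_l4340 _)))
        (CovZ.n1 (-2704, 10548) (by decide +kernel)
         (CovZ.n2 (-2706, 10546) (by decide +kernel)
          (CovZ.n2 (-2706, 10548) (by decide +kernel)
           (CovZ.leaf K2_ok TY_l4341 _)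
           (CovZ.leaf K3_ok TY_l4342 _))
          (CovZ.leaf K2_ok TY_l4343 _))
         (CovZ.n1 (-2706, 10550) (by decide +kernel)
          (CovZ.leaf K3_ok TY_l4344 _)
          (CovZ.n1 (-2706, 10548) (by decide +kernel)
           (CovZ.leaf K3_ok TY_l4345 _)
           (CovZ.leaf K3_ok TY_l4346 _)))))
       (CovZ.n1 (-2708, 10556) (by decide +kernel)
        (CovZ.n2 (-2704, 10556) (by decide +kernel)
         (CovZ.n2 (-2706, 10554) (by decide +kernel)
          (CovZ.n2 (-2706, 10556) (by decide +kernel)
           (CovZ.leaf K3_ok TY_l4347 _)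
           (CovZ.leaf K3_ok TY_l4348 _))
          (CovZ.n1 (-2704, 10554) (by decide +kernel)
           (CovZ.leaf K3_ok TY_l4349 _)
           (CovZ.leaf K3_ok TY_l4350 _)))
         (CovZ.n1 (-2706, 10558) (by decide +kernel)
          (CovZ.n2 (-2704, 10558) (by decide +kernel)
           (CovZ.leaf K2_ok TY_l4351 _)
           (CovZ.leaf K3_ok TY_l4352 _))
          (CovZ.n1 (-2706, 10556) (by decide +kernel)
           (CovZ.leaf K3_ok TY_l4353 _)
           (CovZ.leaf K2_ok TY_l4354 _))))
        (CovZ.n1 (-2708, 10552) (by decide +kernel)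
         (CovZ.n2 (-2710, 10554) (by decide +kernel)
          (CovZ.n2 (-2708, 10554) (by decide +kernel)
           (CovZ.leaf K3_ok TY_l4355 _)
           (CovZ.leaf K3_ok TY_l4356 _))
          (CovZ.n1 (-2710, 10552) (by decide +kernel)
           (CovZ.leaf K3_ok TY_l4357 _)
           (CovZ.leaf K3_ok TY_l4358 _)))
         (CovZ.n1 (-2706, 10554) (by decide +kernel)
          (CovZ.n2 (-2706, 10552) (by decide +kernel)
           (CovZ.leaf K3_ok TY_l4359 _)
           (CovZ.leaf K3_ok TY_l4360 _))
          (CovZ.leaf K2_ok TY_l4361 _)))))))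

theorem TY_u40 : CovZ TY_M (toL (selN TY_LN 7)) [0, 7, 4, 3] (-2688, 10560) (-2688, 10576) (-2704, 10576) :=
    (CovZ.n2 (-2696, 10568) (by decide +kernel)
      (CovZ.n2 (-2696, 10576) (by decide +kernel)
       (CovZ.n2 (-2692, 10572) (by decide +kernel)
        (CovZ.n2 (-2696, 10572) (by decide +kernel)
         (CovZ.n2 (-2694, 10574) (by decide +kernel)
          (CovZ.n2 (-2694, 10572) (by decide +kernel)
           (CovZ.leaf K3_ok TY_l4362 _)
           (CovZ.leaf K2_ok TY_l4363 _))
          (CovZ.n1 (-2696, 10574) (by decide +kernel)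
           (CovZ.leaf K3_ok TY_l4364 _)
           (CovZ.leaf K2_ok TY_l4365 _)))
         (CovZ.n1 (-2694, 10570) (by decide +kernel)
          (CovZ.leaf K3_ok TY_l4366 _)
          (CovZ.n1 (-2694, 10572) (by decide +kernel)
           (CovZ.leaf K3_ok TY_l4367 _)
           (CovZ.leaf K3_ok TY_l4368 _))))
        (CovZ.n1 (-2692, 10576) (by decide +kernel)
         (CovZ.n2 (-2690, 10574) (by decide +kernel)
          (CovZ.n2 (-2692, 10574) (by decide +kernel)
           (CovZ.leaf K3_ok TY_l4369 _)
           (CovZ.leaf K3_ok TY_l4370 _))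
          (CovZ.n1 (-2690, 10576) (by decide +kernel)
           (CovZ.leaf K2_ok TY_l4371 _)
           (CovZ.n1 (-2691, 10575) (by decide +kernel)
            (CovZ.leaf K3_ok TY_l4372 _)
            (CovZ.leaf K3_ok TY_l4373 _))))
         (CovZ.n1 (-2694, 10574) (by decide +kernel)
          (CovZ.n2 (-2694, 10576) (by decide +kernel)
           (CovZ.leaf K2_ok TY_l4374 _)
           (CovZ.n1 (-2695, 10575) (by decide +kernel)
            (CovZ.n2 (-2695, 10576) (by decide +kernel)
             (CovZ.leaf K3_ok TY_l4375 _)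
             (CovZ.leaf K3_ok TY_l4376 _))
            (CovZ.leaf K3_ok TY_l4377 _)))
          (CovZ.n1 (-2692, 10574) (by decide +kernel)
           (CovZ.n2 (-2693, 10573) (by decide +kernel)
            (CovZ.leaf K3_ok TY_l4378 _)
            (CovZ.leaf K3_ok TY_l4379 _))
           (CovZ.leaf K3_ok TY_l4380 _)))))
       (CovZ.n1 (-2700, 10572) (by decide +kernel)
        (CovZ.n2 (-2700, 10576) (by decide +kernel)
         (CovZ.n2 (-2698, 10574) (by decide +kernel)
          (CovZ.n2 (-2700, 10574) (by decide +kernel)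
           (CovZ.n2 (-2699, 10575) (by decide +kernel)
            (CovZ.leaf K3_ok TY_l4381 _)
            (CovZ.leaf K3_ok TY_l4382 _))
           (CovZ.leaf K3_ok TY_l4383 _))
          (CovZ.n1 (-2698, 10576) (by decide +kernel)
           (CovZ.leaf K3_ok TY_l4384 _)
           (CovZ.n1 (-2699, 10575) (by decide +kernel)
            (CovZ.leaf K3_ok TY_l4385 _)
            (CovZ.leaf K3_ok TY_l4386 _))))
         (CovZ.n1 (-2702, 10574) (by decide +kernel)
          (CovZ.n2 (-2702, 10576) (by decide +kernel)
           (CovZ.leaf K3_ok TY_l4387 _)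
           (CovZ.n1 (-2703, 10575) (by decide +kernel)
            (CovZ.leaf K3_ok TY_l4388 _)
            (CovZ.leaf K2_ok TY_l4389 _)))
          (CovZ.n1 (-2700, 10574) (by decide +kernel)
           (CovZ.n2 (-2701, 10573) (by decide +kernel)
            (CovZ.leaf K2_ok TY_l4390 _)
            (CovZ.leaf K3_ok TY_l4391 _))
           (CovZ.leaf K3_ok TY_l4392 _))))
        (CovZ.n1 (-2696, 10572) (by decide +kernel)
         (CovZ.n2 (-2698, 10570) (by decide +kernel)
          (CovZ.n2 (-2698, 10572) (by decide +kernel)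
           (CovZ.leaf K3_ok TY_l4393 _)
           (CovZ.n1 (-2699, 10571) (by decide +kernel)
            (CovZ.leaf K3_ok TY_l4394 _)
            (CovZ.leaf K3_ok TY_l4395 _)))
          (CovZ.n1 (-2696, 10570) (by decide +kernel)
           (CovZ.n2 (-2697, 10569) (by decide +kernel)
            (CovZ.leaf K2_ok TY_l4396 _)
            (CovZ.leaf K3_ok TY_l4397 _))
           (CovZ.leaf K3_ok TY_l4398 _)))
         (CovZ.n1 (-2698, 10574) (by decide +kernel)
          (CovZ.n2 (-2696, 10574) (by decide +kernel)
           (CovZ.n2 (-2697, 10573) (by decide +kernel)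
            (CovZ.leaf K3_ok TY_l4399 _)
            (CovZ.leaf K2_ok TY_l4400 _))
           (CovZ.leaf K2_ok TY_l4401 _))
          (CovZ.n1 (-2698, 10572) (by decide +kernel)
           (CovZ.leaf K3_ok TY_l4402 _)
           (CovZ.leaf K3_ok TY_l4403 _))))))
      (CovZ.n1 (-2688, 10568) (by decide +kernel)
       (CovZ.n2 (-2692, 10564) (by decide +kernel)
        (CovZ.n2 (-2692, 10568) (by decide +kernel)
         (CovZ.leaf K3_ok TY_l4404 _)
         (CovZ.n1 (-2694, 10566) (by decide +kernel)
          (CovZ.leaf K3_ok TY_l4405 _)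
          (CovZ.leaf K3_ok TY_l4406 _)))
        (CovZ.n1 (-2688, 10564) (by decide +kernel)
         (CovZ.n2 (-2690, 10562) (by decide +kernel)
          (CovZ.n2 (-2690, 10564) (by decide +kernel)
           (CovZ.leaf K3_ok TY_l4407 _)
           (CovZ.leaf K3_ok TY_l4408 _))
          (CovZ.leaf K3_ok TY_l4409 _))
         (CovZ.n1 (-2690, 10566) (by decide +kernel)
          (CovZ.n2 (-2688, 10566) (by decide +kernel)
           (CovZ.leaf K3_ok TY_l4410 _)
           (CovZ.leaf K3_ok TY_l4411 _))
          (CovZ.n1 (-2690, 10564) (by decide +kernel)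
           (CovZ.leaf K3_ok TY_l4412 _)
           (CovZ.leaf K3_ok TY_l4413 _)))))
       (CovZ.n1 (-2692, 10572) (by decide +kernel)
        (CovZ.n2 (-2688, 10572) (by decide +kernel)
         (CovZ.n2 (-2690, 10570) (by decide +kernel)
          (CovZ.leaf K3_ok TY_l4414 _)
          (CovZ.leaf K3_ok TY_l4415 _))
         (CovZ.n1 (-2690, 10574) (by decide +kernel)
          (CovZ.n2 (-2688, 10574) (by decide +kernel)
           (CovZ.n2 (-2689, 10573) (by decide +kernel)
            (CovZ.leaf K3_ok TY_l4416 _)
            (CovZ.leaf K3_ok TY_l4417 _))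
           (CovZ.leaf K3_ok TY_l4418 _))
          (CovZ.n1 (-2690, 10572) (by decide +kernel)
           (CovZ.leaf K3_ok TY_l4419 _)
           (CovZ.leaf K3_ok TY_l4420 _))))
        (CovZ.n1 (-2692, 10568) (by decide +kernel)
         (CovZ.n2 (-2694, 10570) (by decide +kernel)
          (CovZ.n2 (-2692, 10570) (by decide +kernel)
           (CovZ.leaf K3_ok TY_l4421 _)
           (CovZ.leaf K3_ok TY_l4422 _))
          (CovZ.n1 (-2694, 10568) (by decide +kernel)
           (CovZ.leaf K3_ok TY_l4423 _)
           (CovZ.leaf K3_ok TY_l4424 _)))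
         (CovZ.n1 (-2690, 10570) (by decide +kernel)
          (CovZ.n2 (-2690, 10568) (by decide +kernel)
           (CovZ.leaf K3_ok TY_l4425 _)
           (CovZ.leaf K3_ok TY_l4426 _))
          (CovZ.leaf K3_ok TY_l4427 _))))))

theorem TY_u41 : CovZ TY_M (toL (selN TY_LN 7)) [0, 7, 4, 3] (-2688, 10576) (-2688, 10592) (-2704, 10576) :=
    (CovZ.n1 (-2696, 10584) (by decide +kernel)
      (CovZ.n2 (-2688, 10584) (by decide +kernel)
       (CovZ.n2 (-2692, 10580) (by decide +kernel)
        (CovZ.n2 (-2692, 10584) (by decide +kernel)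
         (CovZ.n2 (-2690, 10582) (by decide +kernel)
          (CovZ.n2 (-2692, 10582) (by decide +kernel)
           (CovZ.n2 (-2691, 10583) (by decide +kernel)
            (CovZ.leaf K3_ok TY_l4428 _)
            (CovZ.leaf K3_ok TY_l4429 _))
           (CovZ.leaf K3_ok TY_l4430 _))
          (CovZ.n1 (-2690, 10584) (by decide +kernel)
           (CovZ.leaf K3_ok TY_l4431 _)
           (CovZ.n1 (-2691, 10583) (by decide +kernel)
            (CovZ.leaf K3_ok TY_l4432 _)
            (CovZ.leaf K3_ok TY_l4433 _))))
         (CovZ.n1 (-2694, 10582) (by decide +kernel)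
          (CovZ.n2 (-2694, 10584) (by decide +kernel)
           (CovZ.leaf K3_ok TY_l4434 _)
           (CovZ.n1 (-2695, 10583) (by decide +kernel)
            (CovZ.leaf K3_ok TY_l4435 _)
            (CovZ.leaf K3_ok TY_l4436 _)))
          (CovZ.n1 (-2692, 10582) (by decide +kernel)
           (CovZ.n2 (-2693, 10581) (by decide +kernel)
            (CovZ.n2 (-2693, 10582) (by decide +kernel)
             (CovZ.leaf K3_ok TY_l4437 _)
             (CovZ.leaf K3_ok TY_l4438 _))
            (CovZ.leaf K2_ok TY_l4439 _))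
           (CovZ.leaf K3_ok TY_l4440 _))))
        (CovZ.n1 (-2688, 10580) (by decide +kernel)
         (CovZ.n2 (-2690, 10578) (by decide +kernel)
          (CovZ.n2 (-2690, 10580) (by decide +kernel)
           (CovZ.leaf K3_ok TY_l4441 _)
           (CovZ.n1 (-2691, 10579) (by decide +kernel)
            (CovZ.leaf K3_ok TY_l4442 _)
            (CovZ.leaf K3_ok TY_l4443 _)))
          (CovZ.n1 (-2688, 10578) (by decide +kernel)
           (CovZ.n2 (-2689, 10577) (by decide +kernel)
            (CovZ.leaf K3_ok TY_l4444 _)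
            (CovZ.n1 (-2688, 10577) (by decide +kernel)
             (CovZ.leaf K3_ok TY_l4445 _)
             (CovZ.leaf K3_ok TY_l4446 _)))
           (CovZ.leaf K3_ok TY_l4447 _)))
         (CovZ.n1 (-2690, 10582) (by decide +kernel)
          (CovZ.n2 (-2688, 10582) (by decide +kernel)
           (CovZ.n2 (-2689, 10581) (by decide +kernel)
            (CovZ.leaf K3_ok TY_l4448 _)
            (CovZ.leaf K2_ok TY_l4449 _))
           (CovZ.leaf K3_ok TY_l4450 _))
          (CovZ.n1 (-2690, 10580) (by decide +kernel)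
           (CovZ.leaf K3_ok TY_l4451 _)
           (CovZ.n1 (-2689, 10581) (by decide +kernel)
            (CovZ.leaf K3_ok TY_l4452 _)
            (CovZ.leaf K2_ok TY_l4453 _))))))
       (CovZ.n1 (-2692, 10588) (by decide +kernel)
        (CovZ.n2 (-2688, 10588) (by decide +kernel)
         (CovZ.n2 (-2690, 10586) (by decide +kernel)
          (CovZ.n2 (-2690, 10588) (by decide +kernel)
           (CovZ.n2 (-2689, 10587) (by decide +kernel)
            (CovZ.leaf K3_ok TY_l4454 _)
            (CovZ.leaf K3_ok TY_l4455 _))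
           (CovZ.n1 (-2691, 10587) (by decide +kernel)
            (CovZ.badM (by decide +kernel))
            (CovZ.leaf K3_ok TY_l4458 _)))
          (CovZ.n1 (-2688, 10586) (by decide +kernel)
           (CovZ.n2 (-2689, 10585) (by decide +kernel)
            (CovZ.leaf K3_ok TY_l4459 _)
            (CovZ.leaf K3_ok TY_l4460 _))
           (CovZ.n1 (-2689, 10587) (by decide +kernel)
            (CovZ.leaf K3_ok TY_l4461 _)
            (CovZ.leaf K3_ok TY_l4462 _))))
         (CovZ.n1 (-2690, 10590) (by decide +kernel)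
          (CovZ.n2 (-2688, 10590) (by decide +kernel)
           (CovZ.n2 (-2689, 10589) (by decide +kernel)
            (CovZ.badM (by decide +kernel))
            (CovZ.leaf K3_ok TY_l4463 _))
           (CovZ.badM (by decide +kernel)))
          (CovZ.n1 (-2690, 10588) (by decide +kernel)
           (CovZ.badM (by decide +kernel))
           (CovZ.n1 (-2689, 10589) (by decide +kernel)
            (CovZ.leaf K3_ok TY_l4464 _)
            (CovZ.badM (by decide +kernel))))))
        (CovZ.n1 (-2692, 10584) (by decide +kernel)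
         (CovZ.n2 (-2694, 10586) (by decide +kernel)
          (CovZ.n2 (-2692, 10586) (by decide +kernel)
           (CovZ.n2 (-2693, 10585) (by decide +kernel)
            (CovZ.leaf K2_ok TY_l4465 _)
            (CovZ.leaf K3_ok TY_l4466 _))
           (CovZ.leaf K3_ok TY_l4467 _))
          (CovZ.n1 (-2694, 10584) (by decide +kernel)
           (CovZ.n2 (-2695, 10585) (by decide +kernel)
            (CovZ.leaf K3_ok TY_l4468 _)
            (CovZ.leaf K2_ok TY_l4469 _))
           (CovZ.n1 (-2693, 10585) (by decide +kernel)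
            (CovZ.leaf K3_ok TY_l4470 _)
            (CovZ.leaf K3_ok TY_l4471 _))))
         (CovZ.n1 (-2690, 10586) (by decide +kernel)
          (CovZ.n2 (-2690, 10584) (by decide +kernel)
           (CovZ.leaf K3_ok TY_l4472 _)
           (CovZ.n1 (-2689, 10585) (by decide +kernel)
            (CovZ.leaf K3_ok TY_l4473 _)
            (CovZ.leaf K3_ok TY_l4474 _)))
          (CovZ.n1 (-2692, 10586) (by decide +kernel)
           (CovZ.n2 (-2691, 10587) (by decide +kernel)
            (CovZ.leaf K2_ok TY_l4475 _)
            (CovZ.leaf K3_ok TY_l4476 _))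
           (CovZ.n1 (-2691, 10585) (by decide +kernel)
            (CovZ.leaf K3_ok TY_l4477 _)
            (CovZ.leaf K3_ok TY_l4478 _)))))))
      (CovZ.n1 (-2696, 10576) (by decide +kernel)
       (CovZ.n2 (-2700, 10580) (by decide +kernel)
        (CovZ.n2 (-2696, 10580) (by decide +kernel)
         (CovZ.n2 (-2698, 10578) (by decide +kernel)
          (CovZ.n2 (-2698, 10580) (by decide +kernel)
           (CovZ.leaf K3_ok TY_l4479 _)
           (CovZ.n1 (-2699, 10579) (by decide +kernel)
            (CovZ.leaf K3_ok TY_l4480 _)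
            (CovZ.leaf K3_ok TY_l4481 _)))
          (CovZ.n1 (-2696, 10578) (by decide +kernel)
           (CovZ.n2 (-2697, 10577) (by decide +kernel)
            (CovZ.leaf K3_ok TY_l4482 _)
            (CovZ.leaf K3_ok TY_l4483 _))
           (CovZ.leaf K3_ok TY_l4484 _)))
         (CovZ.n1 (-2698, 10582) (by decide +kernel)
          (CovZ.n2 (-2696, 10582) (by decide +kernel)
           (CovZ.n2 (-2697, 10581) (by decide +kernel)
            (CovZ.leaf K3_ok TY_l4485 _)
            (CovZ.leaf K2_ok TY_l4486 _))
           (CovZ.n1 (-2697, 10583) (by decide +kernel)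
            (CovZ.leaf K3_ok TY_l4487 _)
            (CovZ.leaf K2_ok TY_l4488 _)))
          (CovZ.n1 (-2698, 10580) (by decide +kernel)
           (CovZ.n2 (-2699, 10581) (by decide +kernel)
            (CovZ.n2 (-2698, 10581) (by decide +kernel)
             (CovZ.leaf K3_ok TY_l4489 _)
             (CovZ.badM (by decide +kernel)))
            (CovZ.leaf K3_ok TY_l4491 _))
           (CovZ.n1 (-2697, 10581) (by decide +kernel)
            (CovZ.leaf K3_ok TY_l4492 _)
            (CovZ.leaf K3_ok TY_l4493 _)))))
        (CovZ.n1 (-2700, 10576) (by decide +kernel)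
         (CovZ.n2 (-2702, 10578) (by decide +kernel)
          (CovZ.n2 (-2700, 10578) (by decide +kernel)
           (CovZ.n2 (-2701, 10577) (by decide +kernel)
            (CovZ.leaf K2_ok TY_l4494 _)
            (CovZ.n1 (-2700, 10577) (by decide +kernel)
             (CovZ.leaf K3_ok TY_l4495 _)
             (CovZ.leaf K3_ok TY_l4496 _)))
           (CovZ.n1 (-2701, 10579) (by decide +kernel)
            (CovZ.leaf K3_ok TY_l4497 _)
            (CovZ.leaf K2_ok TY_l4498 _)))
          (CovZ.n1 (-2702, 10576) (by decide +kernel)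
           (CovZ.n2 (-2703, 10577) (by decide +kernel)
            (CovZ.leaf K3_ok TY_l4499 _)
            (CovZ.leaf K3_ok TY_l4500 _))
           (CovZ.n1 (-2701, 10577) (by decide +kernel)
            (CovZ.leaf K3_ok TY_l4501 _)
            (CovZ.leaf K3_ok TY_l4502 _))))
         (CovZ.n1 (-2698, 10578) (by decide +kernel)
          (CovZ.n2 (-2698, 10576) (by decide +kernel)
           (CovZ.leaf K2_ok TY_l4503 _)
           (CovZ.n1 (-2697, 10577) (by decide +kernel)
            (CovZ.leaf K3_ok TY_l4504 _)
            (CovZ.leaf K3_ok TY_l4505 _)))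
          (CovZ.n1 (-2700, 10578) (by decide +kernel)
           (CovZ.n2 (-2699, 10579) (by decide +kernel)
            (CovZ.leaf K2_ok TY_l4506 _)
            (CovZ.leaf K3_ok TY_l4507 _))
           (CovZ.leaf K3_ok TY_l4508 _)))))
       (CovZ.n1 (-2692, 10580) (by decide +kernel)
        (CovZ.n2 (-2692, 10576) (by decide +kernel)
         (CovZ.n2 (-2694, 10578) (by decide +kernel)
          (CovZ.n2 (-2692, 10578) (by decide +kernel)
           (CovZ.leaf K3_ok TY_l4509 _)
           (CovZ.leaf K3_ok TY_l4510 _))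
          (CovZ.n1 (-2694, 10576) (by decide +kernel)
           (CovZ.leaf K3_ok TY_l4511 _)
           (CovZ.n1 (-2693, 10577) (by decide +kernel)
            (CovZ.leaf K3_ok TY_l4512 _)
            (CovZ.leaf K3_ok TY_l4513 _))))
         (CovZ.n1 (-2690, 10578) (by decide +kernel)
          (CovZ.n2 (-2690, 10576) (by decide +kernel)
           (CovZ.leaf K3_ok TY_l4514 _)
           (CovZ.n1 (-2689, 10577) (by decide +kernel)
            (CovZ.leaf K3_ok TY_l4515 _)
            (CovZ.leaf K3_ok TY_l4516 _)))
          (CovZ.n1 (-2692, 10578) (by decide +kernel)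
           (CovZ.leaf K3_ok TY_l4517 _)
           (CovZ.leaf K3_ok TY_l4518 _))))
        (CovZ.n1 (-2696, 10580) (by decide +kernel)
         (CovZ.n2 (-2694, 10582) (by decide +kernel)
          (CovZ.n2 (-2694, 10580) (by decide +kernel)
           (CovZ.n2 (-2695, 10581) (by decide +kernel)
            (CovZ.leaf K3_ok TY_l4519 _)
            (CovZ.leaf K3_ok TY_l4520 _))
           (CovZ.n1 (-2693, 10581) (by decide +kernel)
            (CovZ.leaf K2_ok TY_l4521 _)
            (CovZ.leaf K3_ok TY_l4522 _)))
          (CovZ.n1 (-2696, 10582) (by decide +kernel)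
           (CovZ.n2 (-2695, 10583) (by decide +kernel)
            (CovZ.leaf K3_ok TY_l4523 _)
            (CovZ.leaf K2_ok TY_l4524 _))
           (CovZ.leaf K3_ok TY_l4525 _)))
         (CovZ.n1 (-2694, 10578) (by decide +kernel)
          (CovZ.n2 (-2696, 10578) (by decide +kernel)
           (CovZ.n2 (-2695, 10579) (by decide +kernel)
            (CovZ.leaf K3_ok TY_l4526 _)
            (CovZ.leaf K3_ok TY_l4527 _))
           (CovZ.leaf K3_ok TY_l4528 _))
          (CovZ.n1 (-2694, 10580) (by decide +kernel)
           (CovZ.n2 (-2693, 10579) (by decide +kernel)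
            (CovZ.leaf K3_ok TY_l4529 _)
            (CovZ.leaf K3_ok TY_l4530 _))
           (CovZ.n1 (-2695, 10579) (by decide +kernel)
            (CovZ.leaf K3_ok TY_l4531 _)
            (CovZ.leaf K3_ok TY_l4532 _))))))))

theorem TY_u42 : CovZ TY_M (toL (selN TY_LN 7)) [0, 7, 4, 3] (-2720, 10560) (-2704, 10560) (-2704, 10576) :=
    (CovZ.n2 (-2712, 10568) (by decide +kernel)
      (CovZ.n2 (-2704, 10568) (by decide +kernel)
       (CovZ.n2 (-2708, 10564) (by decide +kernel)
        (CovZ.n2 (-2708, 10568) (by decide +kernel)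
         (CovZ.n2 (-2706, 10566) (by decide +kernel)
          (CovZ.n2 (-2708, 10566) (by decide +kernel)
           (CovZ.n2 (-2707, 10567) (by decide +kernel)
            (CovZ.leaf K3_ok TY_l4533 _)
            (CovZ.leaf K3_ok TY_l4534 _))
           (CovZ.n1 (-2707, 10565) (by decide +kernel)
            (CovZ.leaf K3_ok TY_l4535 _)
            (CovZ.leaf K3_ok TY_l4536 _)))
          (CovZ.n1 (-2706, 10568) (by decide +kernel)
           (CovZ.n2 (-2705, 10567) (by decide +kernel)
            (CovZ.leaf K3_ok TY_l4537 _)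
            (CovZ.n1 (-2705, 10568) (by decide +kernel)
             (CovZ.leaf K3_ok TY_l4538 _)
             (CovZ.leaf K3_ok TY_l4539 _)))
           (CovZ.leaf K3_ok TY_l4540 _)))
         (CovZ.n1 (-2710, 10566) (by decide +kernel)
          (CovZ.n2 (-2710, 10568) (by decide +kernel)
           (CovZ.leaf K2_ok TY_l4541 _)
           (CovZ.n1 (-2711, 10567) (by decide +kernel)
            (CovZ.leaf K3_ok TY_l4542 _)
            (CovZ.leaf K3_ok TY_l4543 _)))
          (CovZ.n1 (-2708, 10566) (by decide +kernel)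
           (CovZ.n2 (-2709, 10565) (by decide +kernel)
            (CovZ.leaf K2_ok TY_l4544 _)
            (CovZ.leaf K3_ok TY_l4545 _))
           (CovZ.leaf K3_ok TY_l4546 _))))
        (CovZ.n1 (-2704, 10564) (by decide +kernel)
         (CovZ.n2 (-2706, 10562) (by decide +kernel)
          (CovZ.n2 (-2706, 10564) (by decide +kernel)
           (CovZ.leaf K3_ok TY_l4547 _)
           (CovZ.leaf K2_ok TY_l4548 _))
          (CovZ.leaf K3_ok TY_l4549 _))
         (CovZ.n1 (-2706, 10566) (by decide +kernel)
          (CovZ.n2 (-2704, 10566) (by decide +kernel)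
           (CovZ.n2 (-2705, 10565) (by decide +kernel)
            (CovZ.leaf K3_ok TY_l4550 _)
            (CovZ.leaf K2_ok TY_l4551 _))
           (CovZ.leaf K3_ok TY_l4552 _))
          (CovZ.n1 (-2706, 10564) (by decide +kernel)
           (CovZ.leaf K3_ok TY_l4553 _)
           (CovZ.n1 (-2705, 10565) (by decide +kernel)
            (CovZ.leaf K3_ok TY_l4554 _)
            (CovZ.leaf K3_ok TY_l4555 _))))))
       (CovZ.n1 (-2708, 10572) (by decide +kernel)
        (CovZ.n2 (-2704, 10572) (by decide +kernel)
         (CovZ.n2 (-2706, 10570) (by decide +kernel)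
          (CovZ.n2 (-2706, 10572) (by decide +kernel)
           (CovZ.leaf K3_ok TY_l4556 _)
           (CovZ.n1 (-2707, 10571) (by decide +kernel)
            (CovZ.n2 (-2707, 10572) (by decide +kernel)
             (CovZ.leaf K3_ok TY_l4557 _)
             (CovZ.leaf K3_ok TY_l4558 _))
            (CovZ.leaf K3_ok TY_l4559 _)))
          (CovZ.n1 (-2704, 10570) (by decide +kernel)
           (CovZ.n2 (-2705, 10569) (by decide +kernel)
            (CovZ.leaf K2_ok TY_l4560 _)
            (CovZ.leaf K3_ok TY_l4561 _))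
           (CovZ.leaf K3_ok TY_l4562 _)))
         (CovZ.n1 (-2706, 10574) (by decide +kernel)
          (CovZ.n2 (-2704, 10574) (by decide +kernel)
           (CovZ.n2 (-2705, 10573) (by decide +kernel)
            (CovZ.leaf K3_ok TY_l4563 _)
            (CovZ.leaf K3_ok TY_l4564 _))
           (CovZ.n1 (-2705, 10575) (by decide +kernel)
            (CovZ.leaf K3_ok TY_l4565 _)
            (CovZ.leaf K3_ok TY_l4566 _)))
          (CovZ.n1 (-2706, 10572) (by decide +kernel)
           (CovZ.n2 (-2707, 10573) (by decide +kernel)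
            (CovZ.leaf K2_ok TY_l4567 _)
            (CovZ.leaf K2_ok TY_l4568 _))
           (CovZ.n1 (-2705, 10573) (by decide +kernel)
            (CovZ.leaf K3_ok TY_l4569 _)
            (CovZ.leaf K3_ok TY_l4570 _)))))
        (CovZ.n1 (-2708, 10568) (by decide +kernel)
         (CovZ.n2 (-2710, 10570) (by decide +kernel)
          (CovZ.n2 (-2708, 10570) (by decide +kernel)
           (CovZ.n2 (-2709, 10569) (by decide +kernel)
            (CovZ.leaf K3_ok TY_l4571 _)
            (CovZ.leaf K3_ok TY_l4572 _))
           (CovZ.n1 (-2709, 10571) (by decide +kernel)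
            (CovZ.leaf K3_ok TY_l4573 _)
            (CovZ.leaf K3_ok TY_l4574 _)))
          (CovZ.n1 (-2710, 10568) (by decide +kernel)
           (CovZ.n2 (-2711, 10569) (by decide +kernel)
            (CovZ.leaf K2_ok TY_l4575 _)
            (CovZ.leaf K2_ok TY_l4576 _))
           (CovZ.n1 (-2709, 10569) (by decide +kernel)
            (CovZ.leaf K3_ok TY_l4577 _)
            (CovZ.leaf K3_ok TY_l4578 _))))
         (CovZ.n1 (-2706, 10570) (by decide +kernel)
          (CovZ.n2 (-2706, 10568) (by decide +kernel)
           (CovZ.n2 (-2707, 10569) (by decide +kernel)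
            (CovZ.leaf K3_ok TY_l4579 _)
            (CovZ.leaf K2_ok TY_l4580 _))
           (CovZ.n1 (-2705, 10569) (by decide +kernel)
            (CovZ.leaf K3_ok TY_l4581 _)
            (CovZ.leaf K3_ok TY_l4582 _)))
          (CovZ.n1 (-2708, 10570) (by decide +kernel)
           (CovZ.n2 (-2707, 10571) (by decide +kernel)
            (CovZ.leaf K3_ok TY_l4583 _)
            (CovZ.leaf K3_ok TY_l4584 _))
           (CovZ.n1 (-2707, 10569) (by decide +kernel)
            (CovZ.leaf K3_ok TY_l4585 _)
            (CovZ.leaf K3_ok TY_l4586 _)))))))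
      (CovZ.n1 (-2712, 10560) (by decide +kernel)
       (CovZ.n2 (-2716, 10564) (by decide +kernel)
        (CovZ.n2 (-2712, 10564) (by decide +kernel)
         (CovZ.n2 (-2714, 10562) (by decide +kernel)
          (CovZ.n2 (-2714, 10564) (by decide +kernel)
           (CovZ.leaf K3_ok TY_l4587 _)
           (CovZ.n1 (-2715, 10563) (by decide +kernel)
            (CovZ.leaf K2_ok TY_l4588 _)
            (CovZ.leaf K2_ok TY_l4589 _)))
          (CovZ.n1 (-2712, 10562) (by decide +kernel)
           (CovZ.n2 (-2713, 10561) (by decide +kernel)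
            (CovZ.leaf K2_ok TY_l4590 _)
            (CovZ.leaf K3_ok TY_l4591 _))
           (CovZ.leaf K3_ok TY_l4592 _)))
         (CovZ.n1 (-2714, 10566) (by decide +kernel)
          (CovZ.n2 (-2712, 10566) (by decide +kernel)
           (CovZ.n2 (-2713, 10565) (by decide +kernel)
            (CovZ.leaf K3_ok TY_l4593 _)
            (CovZ.leaf K3_ok TY_l4594 _))
           (CovZ.n1 (-2713, 10567) (by decide +kernel)
            (CovZ.leaf K3_ok TY_l4595 _)
            (CovZ.leaf K3_ok TY_l4596 _)))
          (CovZ.n1 (-2714, 10564) (by decide +kernel)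
           (CovZ.n2 (-2715, 10565) (by decide +kernel)
            (CovZ.leaf K3_ok TY_l4597 _)
            (CovZ.leaf K3_ok TY_l4598 _))
           (CovZ.n1 (-2713, 10565) (by decide +kernel)
            (CovZ.leaf K3_ok TY_l4599 _)
            (CovZ.leaf K3_ok TY_l4600 _)))))
        (CovZ.n1 (-2716, 10560) (by decide +kernel)
         (CovZ.n2 (-2718, 10562) (by decide +kernel)
          (CovZ.n2 (-2716, 10562) (by decide +kernel)
           (CovZ.n2 (-2717, 10561) (by decide +kernel)
            (CovZ.leaf K3_ok TY_l4601 _)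
            (CovZ.leaf K2_ok TY_l4602 _))
           (CovZ.n1 (-2717, 10563) (by decide +kernel)
            (CovZ.leaf K3_ok TY_l4603 _)
            (CovZ.leaf K3_ok TY_l4604 _)))
          (CovZ.n1 (-2718, 10560) (by decide +kernel)
           (CovZ.leaf K2_ok TY_l4605 _)
           (CovZ.n1 (-2717, 10561) (by decide +kernel)
            (CovZ.leaf K3_ok TY_l4606 _)
            (CovZ.leaf K3_ok TY_l4607 _))))
         (CovZ.n1 (-2714, 10562) (by decide +kernel)
          (CovZ.n2 (-2714, 10560) (by decide +kernel)
           (CovZ.leaf K3_ok TY_l4608 _)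
           (CovZ.leaf K2_ok TY_l4609 _))
          (CovZ.n1 (-2716, 10562) (by decide +kernel)
           (CovZ.n2 (-2715, 10563) (by decide +kernel)
            (CovZ.leaf K3_ok TY_l4610 _)
            (CovZ.leaf K3_ok TY_l4611 _))
           (CovZ.leaf K3_ok TY_l4612 _)))))
       (CovZ.n1 (-2708, 10564) (by decide +kernel)
        (CovZ.n2 (-2708, 10560) (by decide +kernel)
         (CovZ.n2 (-2710, 10562) (by decide +kernel)
          (CovZ.n2 (-2708, 10562) (by decide +kernel)
           (CovZ.n2 (-2709, 10561) (by decide +kernel)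
            (CovZ.leaf K3_ok TY_l4613 _)
            (CovZ.leaf K3_ok TY_l4614 _))
           (CovZ.leaf K3_ok TY_l4615 _))
          (CovZ.n1 (-2710, 10560) (by decide +kernel)
           (CovZ.leaf K3_ok TY_l4616 _)
           (CovZ.leaf K2_ok TY_l4617 _)))
         (CovZ.n1 (-2706, 10562) (by decide +kernel)
          (CovZ.n2 (-2706, 10560) (by decide +kernel)
           (CovZ.leaf K3_ok TY_l4618 _)
           (CovZ.n1 (-2705, 10561) (by decide +kernel)
            (CovZ.leaf K3_ok TY_l4619 _)
            (CovZ.leaf K3_ok TY_l4620 _)))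
          (CovZ.leaf K3_ok TY_l4621 _)))
        (CovZ.n1 (-2712, 10564) (by decide +kernel)
         (CovZ.n2 (-2710, 10566) (by decide +kernel)
          (CovZ.n2 (-2710, 10564) (by decide +kernel)
           (CovZ.n2 (-2711, 10565) (by decide +kernel)
            (CovZ.leaf K3_ok TY_l4622 _)
            (CovZ.leaf K3_ok TY_l4623 _))
           (CovZ.n1 (-2709, 10565) (by decide +kernel)
            (CovZ.n2 (-2709, 10564) (by decide +kernel)
             (CovZ.leaf K3_ok TY_l4624 _)
             (CovZ.leaf K2_ok TY_l4625 _))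
            (CovZ.leaf K3_ok TY_l4626 _)))
          (CovZ.n1 (-2712, 10566) (by decide +kernel)
           (CovZ.n2 (-2711, 10567) (by decide +kernel)
            (CovZ.n2 (-2711, 10566) (by decide +kernel)
             (CovZ.leaf K3_ok TY_l4627 _)
             (CovZ.leaf K3_ok TY_l4628 _))
            (CovZ.leaf K3_ok TY_l4629 _))
           (CovZ.leaf K3_ok TY_l4630 _)))
         (CovZ.n1 (-2710, 10562) (by decide +kernel)
          (CovZ.n2 (-2712, 10562) (by decide +kernel)
           (CovZ.leaf K3_ok TY_l4631 _)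
           (CovZ.leaf K3_ok TY_l4632 _))
          (CovZ.n1 (-2710, 10564) (by decide +kernel)
           (CovZ.n2 (-2709, 10563) (by decide +kernel)
            (CovZ.leaf K2_ok TY_l4633 _)
            (CovZ.leaf K3_ok TY_l4634 _))
           (CovZ.n1 (-2711, 10563) (by decide +kernel)
            (CovZ.leaf K3_ok TY_l4635 _)
            (CovZ.leaf K3_ok TY_l4636 _))))))))

end Pool.Agent.TET
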