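import Pool.Agent.Helper38_TET.TY_M
import Pool.Agent.Helper38_TET.TY_L
import Pool.Agent.Helper38_TET.TY_7
import Pool.Agent.Helper38_TET.TY_10
import Pool.Agent.Helper38_TET.TY_15
import Pool.Agent.Helper38_TET.TY_17
import Pool.Agent.Helper38_TET.TY_18
import Pool.Agent.Helper38_TET.TY_24
import Pool.Agent.Helper38_TET.TY_25
import Pool.Agent.Helper38_TET.TY_26
import Pool.Agent.Helper38_TET.TY_27
import Pool.Agent.Helper38_TET.TY_33
import Pool.Agent.Helper38_TET.TY_34
import Pool.Agent.Helper38_TET.TY_42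
import Pool.Agent.Helper38_TET.TY_U0
import Pool.Agent.Helper38_TET.TY_U1
import Pool.Agent.Helper38_TET.TY_U2

/-!
# MP_c7c9bf_co: certificates, family TY
-/

set_option autoImplicit false
set_option maxRecDepth 100000

namespace Pool.Agent.TET

theorem TY_s3_4 : SqZ TY_M TY_L [0, 7, 4, 3] (-2816) 10304 32 3 4 :=
  SqZ.mk (a := (-2720)) (b := (-2688)) (c := 10432) (d := 10464) (by norm_num) (by norm_num) (by norm_num) (by norm_num)
    (CovZ.topM TY_LL 7 (by decide +kernel) (CovZ.n2 (-2704, 10448) (by decide +kernel)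
    (CovZ.n2 (-2688, 10448) (by decide +kernel)
     (CovZ.n2 (-2696, 10440) (by decide +kernel)
      (CovZ.n2 (-2696, 10448) (by decide +kernel)
       (CovZ.n2 (-2692, 10444) (by decide +kernel)
        (CovZ.n2 (-2696, 10444) (by decide +kernel)
         (CovZ.n2 (-2694, 10446) (by decide +kernel)
          (CovZ.leaf K2_ok TY_l3665 _)
          (CovZ.leaf K2_ok TY_l3666 _))
         (CovZ.n1 (-2694, 10442) (by decide +kernel)
          (CovZ.leaf K2_ok TY_l3667 _)
          (CovZ.leaf K3_ok TY_l3668 _)))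
        (CovZ.n1 (-2692, 10448) (by decide +kernel)
         (CovZ.n2 (-2690, 10446) (by decide +kernel)
          (CovZ.leaf K2_ok TY_l3669 _)
          (CovZ.leaf K3_ok TY_l3670 _))
         (CovZ.n1 (-2694, 10446) (by decide +kernel)
          (CovZ.leaf K3_ok TY_l3671 _)
          (CovZ.leaf K2_ok TY_l3672 _))))
       (CovZ.n1 (-2700, 10444) (by decide +kernel)
        (CovZ.n2 (-2700, 10448) (by decide +kernel)
         (CovZ.leaf K3_ok TY_l3673 _)
         (CovZ.leaf K3_ok TY_l3674 _))
        (CovZ.n1 (-2696, 10444) (by decide +kernel)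
         (CovZ.n2 (-2698, 10442) (by decide +kernel)
          (CovZ.leaf K2_ok TY_l3675 _)
          (CovZ.leaf K2_ok TY_l3676 _))
         (CovZ.n1 (-2698, 10446) (by decide +kernel)
          (CovZ.leaf K3_ok TY_l3677 _)
          (CovZ.leaf K2_ok TY_l3678 _)))))
      (CovZ.n1 (-2688, 10440) (by decide +kernel)
       (CovZ.n2 (-2692, 10436) (by decide +kernel)
        (CovZ.n2 (-2692, 10440) (by decide +kernel)
         (CovZ.n2 (-2690, 10438) (by decide +kernel)
          (CovZ.n2 (-2692, 10438) (by decide +kernel)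
           (CovZ.leaf K3_ok TY_l3679 _)
           (CovZ.leaf K3_ok TY_l3680 _))
          (CovZ.n1 (-2690, 10440) (by decide +kernel)
           (CovZ.leaf K3_ok TY_l3681 _)
           (CovZ.leaf K3_ok TY_l3682 _)))
         (CovZ.n1 (-2694, 10438) (by decide +kernel)
          (CovZ.n2 (-2694, 10440) (by decide +kernel)
           (CovZ.leaf K3_ok TY_l3683 _)
           (CovZ.leaf K3_ok TY_l3684 _))
          (CovZ.leaf K3_ok TY_l3685 _)))
        (CovZ.n1 (-2688, 10436) (by decide +kernel)
         (CovZ.n2 (-2690, 10434) (by decide +kernel)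
          (CovZ.n2 (-2690, 10436) (by decide +kernel)
           (CovZ.leaf K3_ok TY_l3686 _)
           (CovZ.leaf K2_ok TY_l3687 _))
          (CovZ.badM (by decide +kernel)))
         (CovZ.n1 (-2690, 10438) (by decide +kernel)
          (CovZ.n2 (-2688, 10438) (by decide +kernel)
           (CovZ.n2 (-2689, 10437) (by decide +kernel)
            (CovZ.leaf K2_ok TY_l3688 _)
            (CovZ.leaf K3_ok TY_l3689 _))
           (CovZ.n1 (-2689, 10439) (by decide +kernel)
            (CovZ.leaf K3_ok TY_l3690 _)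
            (CovZ.leaf K3_ok TY_l3691 _)))
          (CovZ.n1 (-2690, 10436) (by decide +kernel)
           (CovZ.leaf K3_ok TY_l3692 _)
           (CovZ.n1 (-2689, 10437) (by decide +kernel)
            (CovZ.leaf K2_ok TY_l3693 _)
            (CovZ.leaf K2_ok TY_l3694 _))))))
       (CovZ.n1 (-2692, 10444) (by decide +kernel)
        (CovZ.n2 (-2688, 10444) (by decide +kernel)
         (CovZ.n2 (-2690, 10442) (by decide +kernel)
          (CovZ.leaf K3_ok TY_l3695 _)
          (CovZ.n1 (-2688, 10442) (by decide +kernel)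
           (CovZ.leaf K2_ok TY_l3696 _)
           (CovZ.n1 (-2689, 10443) (by decide +kernel)
            (CovZ.leaf K2_ok TY_l3697 _)
            (CovZ.leaf K2_ok TY_l3698 _))))
         (CovZ.n1 (-2690, 10446) (by decide +kernel)
          (CovZ.leaf K3_ok TY_l3699 _)
          (CovZ.leaf K3_ok TY_l3700 _)))
        (CovZ.n1 (-2692, 10440) (by decide +kernel)
         (CovZ.n2 (-2694, 10442) (by decide +kernel)
          (CovZ.leaf K3_ok TY_l3701 _)
          (CovZ.n1 (-2694, 10440) (by decide +kernel)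
           (CovZ.leaf K2_ok TY_l3702 _)
           (CovZ.leaf K3_ok TY_l3703 _)))
         (CovZ.n1 (-2690, 10442) (by decide +kernel)
          (CovZ.n2 (-2690, 10440) (by decide +kernel)
           (CovZ.leaf K3_ok TY_l3704 _)
           (CovZ.leaf K3_ok TY_l3705 _))
          (CovZ.leaf K3_ok TY_l3706 _))))))
     (CovZ.n1 (-2696, 10456) (by decide +kernel)
      (CovZ.n2 (-2688, 10456) (by decide +kernel)
       (CovZ.n2 (-2692, 10452) (by decide +kernel)
        (CovZ.n2 (-2692, 10456) (by decide +kernel)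
         (CovZ.leaf K3_ok TY_l3707 _)
         (CovZ.n1 (-2694, 10454) (by decide +kernel)
          (CovZ.leaf K3_ok TY_l3708 _)
          (CovZ.leaf K3_ok TY_l3709 _)))
        (CovZ.n1 (-2688, 10452) (by decide +kernel)
         (CovZ.n2 (-2690, 10450) (by decide +kernel)
          (CovZ.leaf K3_ok TY_l3710 _)
          (CovZ.leaf K3_ok TY_l3711 _))
         (CovZ.leaf K2_ok TY_l3712 _)))
       (CovZ.n1 (-2692, 10460) (by decide +kernel)
        (CovZ.leaf K3_ok TY_l3713 _)
        (CovZ.n1 (-2692, 10456) (by decide +kernel)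
         (CovZ.leaf K3_ok TY_l3714 _)
         (CovZ.leaf K2_ok TY_l3715 _))))
      (CovZ.n1 (-2696, 10448) (by decide +kernel)
       (CovZ.n2 (-2700, 10452) (by decide +kernel)
        (CovZ.leaf K3_ok TY_l3716 _)
        (CovZ.n1 (-2700, 10448) (by decide +kernel)
         (CovZ.leaf K2_ok TY_l3717 _)
         (CovZ.leaf K3_ok TY_l3718 _)))
       (CovZ.n1 (-2692, 10452) (by decide +kernel)
        (CovZ.n2 (-2692, 10448) (by decide +kernel)
         (CovZ.leaf K3_ok TY_l3719 _)
         (CovZ.n1 (-2690, 10450) (by decide +kernel)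
          (CovZ.leaf K3_ok TY_l3720 _)
          (CovZ.leaf K3_ok TY_l3721 _)))
        (CovZ.leaf K2_ok TY_l3722 _)))))
    (CovZ.n1 (-2704, 10432) (by decide +kernel)
     (CovZ.n2 (-2712, 10440) (by decide +kernel)
      (CovZ.n2 (-2704, 10440) (by decide +kernel)
       (CovZ.n2 (-2708, 10436) (by decide +kernel)
        (CovZ.n2 (-2708, 10440) (by decide +kernel)
         (CovZ.leaf K2_ok TY_l3723 _)
         (CovZ.leaf K3_ok TY_l3724 _))
        (CovZ.n1 (-2704, 10436) (by decide +kernel)
         (CovZ.n2 (-2706, 10434) (by decide +kernel)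
          (CovZ.leaf K2_ok TY_l3725 _)
          (CovZ.leaf K3_ok TY_l3726 _))
         (CovZ.leaf K2_ok TY_l3727 _)))
       (CovZ.n1 (-2708, 10444) (by decide +kernel)
        (CovZ.leaf K3_ok TY_l3728 _)
        (CovZ.n1 (-2708, 10440) (by decide +kernel)
         (CovZ.leaf K2_ok TY_l3729 _)
         (CovZ.leaf K3_ok TY_l3730 _))))
      (CovZ.n1 (-2712, 10432) (by decide +kernel)
       (CovZ.n2 (-2716, 10436) (by decide +kernel)
        (CovZ.leaf K3_ok TY_l3731 _)
        (CovZ.n1 (-2716, 10432) (by decide +kernel)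
         (CovZ.leaf K3_ok TY_l3732 _)
         (CovZ.leaf K2_ok TY_l3733 _)))
       (CovZ.n1 (-2708, 10436) (by decide +kernel)
        (CovZ.n2 (-2708, 10432) (by decide +kernel)
         (CovZ.leaf K2_ok TY_l3734 _)
         (CovZ.n1 (-2706, 10434) (by decide +kernel)
          (CovZ.leaf K2_ok TY_l3735 _)
          (CovZ.leaf K2_ok TY_l3736 _)))
        (CovZ.n1 (-2712, 10436) (by decide +kernel)
         (CovZ.leaf K3_ok TY_l3737 _)
         (CovZ.leaf K3_ok TY_l3738 _)))))
     (CovZ.n1 (-2696, 10440) (by decide +kernel)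
      (CovZ.n2 (-2696, 10432) (by decide +kernel)
       (CovZ.n2 (-2700, 10436) (by decide +kernel)
        (CovZ.n2 (-2696, 10436) (by decide +kernel)
         (CovZ.n2 (-2698, 10434) (by decide +kernel)
          (CovZ.n2 (-2698, 10436) (by decide +kernel)
           (CovZ.leaf K3_ok TY_l3739 _)
           (CovZ.leaf K3_ok TY_l3740 _))
          (CovZ.leaf K2_ok TY_l3741 _))
         (CovZ.n1 (-2698, 10438) (by decide +kernel)
          (CovZ.leaf K3_ok TY_l3742 _)
          (CovZ.leaf K3_ok TY_l3743 _)))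
        (CovZ.n1 (-2700, 10432) (by decide +kernel)
         (CovZ.n2 (-2702, 10434) (by decide +kernel)
          (CovZ.leaf K3_ok TY_l3744 _)
          (CovZ.leaf K3_ok TY_l3745 _))
         (CovZ.n1 (-2698, 10434) (by decide +kernel)
          (CovZ.n2 (-2698, 10432) (by decide +kernel)
           (CovZ.leaf K2_ok TY_l3746 _)
           (CovZ.leaf K2_ok TY_l3747 _))
          (CovZ.leaf K3_ok TY_l3748 _))))
       (CovZ.n1 (-2692, 10436) (by decide +kernel)
        (CovZ.n2 (-2692, 10432) (by decide +kernel)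
         (CovZ.n2 (-2694, 10434) (by decide +kernel)
          (CovZ.n2 (-2692, 10434) (by decide +kernel)
           (CovZ.n2 (-2693, 10433) (by decide +kernel)
            (CovZ.leaf K2_ok TY_l3749 _)
            (CovZ.leaf K3_ok TY_l3750 _))
           (CovZ.leaf K2_ok TY_l3751 _))
          (CovZ.n1 (-2694, 10432) (by decide +kernel)
           (CovZ.leaf K2_ok TY_l3752 _)
           (CovZ.leaf K2_ok TY_l3753 _)))
         (CovZ.n1 (-2690, 10434) (by decide +kernel)
          (CovZ.n2 (-2690, 10432) (by decide +kernel)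
           (CovZ.n2 (-2691, 10433) (by decide +kernel)
            (CovZ.badM (by decide +kernel))
            (CovZ.leaf K2_ok TY_l3754 _))
           (CovZ.badM (by decide +kernel)))
          (CovZ.n1 (-2692, 10434) (by decide +kernel)
           (CovZ.leaf K3_ok TY_l3755 _)
           (CovZ.leaf K2_ok TY_l3756 _))))
        (CovZ.n1 (-2696, 10436) (by decide +kernel)
         (CovZ.n2 (-2694, 10438) (by decide +kernel)
          (CovZ.n2 (-2694, 10436) (by decide +kernel)
           (CovZ.leaf K3_ok TY_l3757 _)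
           (CovZ.leaf K3_ok TY_l3758 _))
          (CovZ.leaf K3_ok TY_l3759 _))
         (CovZ.n1 (-2694, 10434) (by decide +kernel)
          (CovZ.leaf K2_ok TY_l3760 _)
          (CovZ.n1 (-2694, 10436) (by decide +kernel)
           (CovZ.leaf K3_ok TY_l3761 _)
           (CovZ.leaf K2_ok TY_l3762 _))))))
      (CovZ.n1 (-2704, 10440) (by decide +kernel)
       (CovZ.n2 (-2700, 10444) (by decide +kernel)
        (CovZ.n2 (-2700, 10440) (by decide +kernel)
         (CovZ.leaf K2_ok TY_l3763 _)
         (CovZ.n1 (-2698, 10442) (by decide +kernel)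
          (CovZ.leaf K3_ok TY_l3764 _)
          (CovZ.leaf K2_ok TY_l3765 _)))
        (CovZ.leaf K3_ok TY_l3766 _))
       (CovZ.n1 (-2700, 10436) (by decide +kernel)
        (CovZ.n2 (-2704, 10436) (by decide +kernel)
         (CovZ.leaf K2_ok TY_l3767 _)
         (CovZ.leaf K2_ok TY_l3768 _))
        (CovZ.n1 (-2700, 10440) (by decide +kernel)
         (CovZ.n2 (-2698, 10438) (by decide +kernel)
          (CovZ.leaf K3_ok TY_l3769 _)
          (CovZ.n1 (-2698, 10440) (by decide +kernel)
           (CovZ.leaf K3_ok TY_l3770 _)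
           (CovZ.leaf K3_ok TY_l3771 _)))
         (CovZ.n1 (-2702, 10438) (by decide +kernel)
          (CovZ.leaf K2_ok TY_l3772 _)
          (CovZ.leaf K3_ok TY_l3773 _)))))))))
    (CovZ.topM TY_LL 7 (by decide +kernel) (CovZ.n0 (-2704, 10448) (by decide +kernel)
    (CovZ.n2 (-2720, 10448) (by decide +kernel)
     (CovZ.n2 (-2712, 10456) (by decide +kernel)
      (CovZ.n2 (-2712, 10448) (by decide +kernel)
       (CovZ.leaf K3_ok TY_l3774 _)
       (CovZ.n1 (-2708, 10452) (by decide +kernel)
        (CovZ.n2 (-2708, 10448) (by decide +kernel)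
         (CovZ.leaf K2_ok TY_l3775 _)
         (CovZ.leaf K2_ok TY_l3776 _))
        (CovZ.leaf K3_ok TY_l3777 _)))
      (CovZ.n1 (-2720, 10456) (by decide +kernel)
       (CovZ.n2 (-2716, 10460) (by decide +kernel)
        (CovZ.leaf K3_ok TY_l3778 _)
        (CovZ.leaf K3_ok TY_l3779 _))
       (CovZ.n1 (-2716, 10452) (by decide +kernel)
        (CovZ.leaf K3_ok TY_l3780 _)
        (CovZ.leaf K2_ok TY_l3781 _))))
     (CovZ.n1 (-2712, 10440) (by decide +kernel)
      (CovZ.n2 (-2720, 10440) (by decide +kernel)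
       (CovZ.n2 (-2716, 10444) (by decide +kernel)
        (CovZ.leaf K3_ok TY_l3782 _)
        (CovZ.leaf K3_ok TY_l3783 _))
       (CovZ.n1 (-2716, 10436) (by decide +kernel)
        (CovZ.leaf K3_ok TY_l3784 _)
        (CovZ.n1 (-2716, 10440) (by decide +kernel)
         (CovZ.leaf K3_ok TY_l3785 _)
         (CovZ.leaf K3_ok TY_l3786 _))))
      (CovZ.n1 (-2712, 10448) (by decide +kernel)
       (CovZ.n2 (-2708, 10444) (by decide +kernel)
        (CovZ.leaf K3_ok TY_l3787 _)
        (CovZ.n1 (-2708, 10448) (by decide +kernel)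
         (CovZ.leaf K3_ok TY_l3788 _)
         (CovZ.leaf K3_ok TY_l3789 _)))
       (CovZ.n1 (-2716, 10444) (by decide +kernel)
        (CovZ.leaf K3_ok TY_l3790 _)
        (CovZ.leaf K2_ok TY_l3791 _)))))
    (CovZ.n1 (-2704, 10464) (by decide +kernel)
     (CovZ.n2 (-2696, 10456) (by decide +kernel)
      (CovZ.n2 (-2704, 10456) (by decide +kernel)
       (CovZ.n2 (-2700, 10460) (by decide +kernel)
        (CovZ.n2 (-2700, 10456) (by decide +kernel)
         (CovZ.leaf K3_ok TY_l3792 _)
         (CovZ.leaf K3_ok TY_l3793 _))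
        (CovZ.leaf K2_ok TY_l3794 _))
       (CovZ.n1 (-2700, 10452) (by decide +kernel)
        (CovZ.leaf K3_ok TY_l3795 _)
        (CovZ.leaf K3_ok TY_l3796 _)))
      (CovZ.n1 (-2696, 10464) (by decide +kernel)
       (CovZ.n2 (-2692, 10460) (by decide +kernel)
        (CovZ.leaf K2_ok TY_l3797 _)
        (CovZ.leaf K3_ok TY_l3798 _))
       (CovZ.n1 (-2700, 10460) (by decide +kernel)
        (CovZ.leaf K3_ok TY_l3799 _)
        (CovZ.leaf K2_ok TY_l3800 _))))
     (CovZ.n1 (-2712, 10456) (by decide +kernel)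
      (CovZ.n2 (-2712, 10464) (by decide +kernel)
       (CovZ.leaf K3_ok TY_l3801 _)
       (CovZ.n1 (-2716, 10460) (by decide +kernel)
        (CovZ.leaf K2_ok TY_l3802 _)
        (CovZ.n1 (-2712, 10460) (by decide +kernel)
         (CovZ.leaf K3_ok TY_l3803 _)
         (CovZ.leaf K2_ok TY_l3804 _))))
      (CovZ.n1 (-2704, 10456) (by decide +kernel)
       (CovZ.n2 (-2708, 10452) (by decide +kernel)
        (CovZ.leaf K2_ok TY_l3805 _)
        (CovZ.leaf K3_ok TY_l3806 _))
       (CovZ.n1 (-2708, 10460) (by decide +kernel)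
        (CovZ.leaf K2_ok TY_l3807 _)
        (CovZ.leaf K2_ok TY_l3808 _)))))))

theorem TY_s4_4 : SqZ TY_M TY_L [0, 7, 4, 3] (-2816) 10304 32 4 4 :=
  SqZ.mk (a := (-2688)) (b := (-2656)) (c := 10432) (d := 10464) (by norm_num) (by norm_num) (by norm_num) (by norm_num)
    (CovZ.topM TY_LL 0 (by decide +kernel) (CovZ.badM (by decide +kernel)))
    (CovZ.topM TY_LL 7 (by decide +kernel) (CovZ.n0 (-2672, 10448) (by decide +kernel)
    TY_u10
    TY_u11))

theorem TY_s5_4 : SqZ TY_M TY_L [0, 7, 4, 3] (-2816) 10304 32 5 4 :=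
  SqZ.mk (a := (-2656)) (b := (-2624)) (c := 10432) (d := 10464) (by norm_num) (by norm_num) (by norm_num) (by norm_num)
    (CovZ.topM TY_LL 0 (by decide +kernel) (CovZ.badM (by decide +kernel)))
    (CovZ.topM TY_LL 0 (by decide +kernel) (CovZ.badM (by decide +kernel)))

theorem TY_s0_5 : SqZ TY_M TY_L [0, 7, 4, 3] (-2816) 10304 32 0 5 :=
  SqZ.mk (a := (-2816)) (b := (-2784)) (c := 10464) (d := 10496) (by norm_num) (by norm_num) (by norm_num) (by norm_num)
    (CovZ.topM TY_LL 7 (by decide +kernel) (CovZ.n2 (-2800, 10480) (by decide +kernel)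
    TY_u12
    TY_u13))
    (CovZ.topM TY_LL 7 (by decide +kernel) (CovZ.n0 (-2800, 10480) (by decide +kernel)
    TY_u14
    TY_u15))

theorem TY_s1_5 : SqZ TY_M TY_L [0, 7, 4, 3] (-2816) 10304 32 1 5 :=
  SqZ.mk (a := (-2784)) (b := (-2752)) (c := 10464) (d := 10496) (by norm_num) (by norm_num) (by norm_num) (by norm_num)
    (CovZ.topM TY_LL 7 (by decide +kernel) (CovZ.n2 (-2768, 10480) (by decide +kernel)
    (CovZ.n2 (-2752, 10480) (by decide +kernel)
     (CovZ.n2 (-2760, 10472) (by decide +kernel)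
      (CovZ.n2 (-2760, 10480) (by decide +kernel)
       (CovZ.n2 (-2756, 10476) (by decide +kernel)
        (CovZ.n2 (-2760, 10476) (by decide +kernel)
         (CovZ.n2 (-2758, 10478) (by decide +kernel)
          (CovZ.leaf K3_ok TY_l1546 _)
          (CovZ.leaf K3_ok TY_l1547 _))
         (CovZ.leaf K3_ok TY_l1548 _))
        (CovZ.n1 (-2756, 10480) (by decide +kernel)
         (CovZ.leaf K3_ok TY_l1549 _)
         (CovZ.n1 (-2758, 10478) (by decide +kernel)
          (CovZ.leaf K3_ok TY_l1550 _)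
          (CovZ.leaf K3_ok TY_l1551 _))))
       (CovZ.n1 (-2764, 10476) (by decide +kernel)
        (CovZ.n2 (-2764, 10480) (by decide +kernel)
         (CovZ.leaf K3_ok TY_l1552 _)
         (CovZ.n1 (-2766, 10478) (by decide +kernel)
          (CovZ.leaf K3_ok TY_l1553 _)
          (CovZ.leaf K3_ok TY_l1554 _)))
        (CovZ.n1 (-2760, 10476) (by decide +kernel)
         (CovZ.n2 (-2762, 10474) (by decide +kernel)
          (CovZ.leaf K2_ok TY_l1555 _)
          (CovZ.leaf K3_ok TY_l1556 _))
         (CovZ.leaf K2_ok TY_l1557 _))))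
      (CovZ.n1 (-2752, 10472) (by decide +kernel)
       (CovZ.n2 (-2756, 10468) (by decide +kernel)
        (CovZ.n2 (-2756, 10472) (by decide +kernel)
         (CovZ.leaf K2_ok TY_l1558 _)
         (CovZ.leaf K3_ok TY_l1559 _))
        (CovZ.n1 (-2752, 10468) (by decide +kernel)
         (CovZ.leaf K2_ok TY_l1560 _)
         (CovZ.leaf K2_ok TY_l1561 _)))
       (CovZ.n1 (-2756, 10476) (by decide +kernel)
        (CovZ.n2 (-2752, 10476) (by decide +kernel)
         (CovZ.n2 (-2754, 10474) (by decide +kernel)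
          (CovZ.leaf K2_ok TY_l1562 _)
          (CovZ.leaf K3_ok TY_l1563 _))
         (CovZ.leaf K3_ok TY_l1564 _))
        (CovZ.n1 (-2756, 10472) (by decide +kernel)
         (CovZ.leaf K3_ok TY_l1565 _)
         (CovZ.n1 (-2754, 10474) (by decide +kernel)
          (CovZ.leaf K3_ok TY_l1566 _)
          (CovZ.leaf K3_ok TY_l1567 _))))))
     (CovZ.n1 (-2760, 10488) (by decide +kernel)
      (CovZ.n2 (-2752, 10488) (by decide +kernel)
       (CovZ.n2 (-2756, 10484) (by decide +kernel)
        (CovZ.n2 (-2756, 10488) (by decide +kernel)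
         (CovZ.leaf K3_ok TY_l1568 _)
         (CovZ.n1 (-2758, 10486) (by decide +kernel)
          (CovZ.leaf K3_ok TY_l1569 _)
          (CovZ.leaf K3_ok TY_l1570 _)))
        (CovZ.n1 (-2752, 10484) (by decide +kernel)
         (CovZ.n2 (-2754, 10482) (by decide +kernel)
          (CovZ.leaf K2_ok TY_l1571 _)
          (CovZ.leaf K3_ok TY_l1572 _))
         (CovZ.n1 (-2754, 10486) (by decide +kernel)
          (CovZ.leaf K3_ok TY_l1573 _)
          (CovZ.leaf K2_ok TY_l1574 _))))
       (CovZ.n1 (-2756, 10492) (by decide +kernel)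
        (CovZ.n2 (-2752, 10492) (by decide +kernel)
         (CovZ.n2 (-2754, 10490) (by decide +kernel)
          (CovZ.leaf K3_ok TY_l1575 _)
          (CovZ.leaf K2_ok TY_l1576 _))
         (CovZ.n1 (-2754, 10494) (by decide +kernel)
          (CovZ.leaf K3_ok TY_l1577 _)
          (CovZ.leaf K3_ok TY_l1578 _)))
        (CovZ.n1 (-2756, 10488) (by decide +kernel)
         (CovZ.n2 (-2758, 10490) (by decide +kernel)
          (CovZ.leaf K3_ok TY_l1579 _)
          (CovZ.leaf K3_ok TY_l1580 _))
         (CovZ.n1 (-2754, 10490) (by decide +kernel)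
          (CovZ.leaf K3_ok TY_l1581 _)
          (CovZ.leaf K2_ok TY_l1582 _)))))
      (CovZ.n1 (-2760, 10480) (by decide +kernel)
       (CovZ.n2 (-2764, 10484) (by decide +kernel)
        (CovZ.n2 (-2760, 10484) (by decide +kernel)
         (CovZ.n2 (-2762, 10482) (by decide +kernel)
          (CovZ.leaf K3_ok TY_l1583 _)
          (CovZ.leaf K3_ok TY_l1584 _))
         (CovZ.n1 (-2762, 10486) (by decide +kernel)
          (CovZ.leaf K3_ok TY_l1585 _)
          (CovZ.leaf K3_ok TY_l1586 _)))
        (CovZ.n1 (-2764, 10480) (by decide +kernel)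
         (CovZ.n2 (-2766, 10482) (by decide +kernel)
          (CovZ.leaf K3_ok TY_l1587 _)
          (CovZ.leaf K3_ok TY_l1588 _))
         (CovZ.n1 (-2762, 10482) (by decide +kernel)
          (CovZ.leaf K3_ok TY_l1589 _)
          (CovZ.leaf K3_ok TY_l1590 _))))
       (CovZ.n1 (-2756, 10484) (by decide +kernel)
        (CovZ.n2 (-2756, 10480) (by decide +kernel)
         (CovZ.n2 (-2758, 10482) (by decide +kernel)
          (CovZ.leaf K3_ok TY_l1591 _)
          (CovZ.leaf K3_ok TY_l1592 _))
         (CovZ.n1 (-2754, 10482) (by decide +kernel)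
          (CovZ.leaf K3_ok TY_l1593 _)
          (CovZ.leaf K3_ok TY_l1594 _)))
        (CovZ.n1 (-2760, 10484) (by decide +kernel)
         (CovZ.n2 (-2758, 10486) (by decide +kernel)
          (CovZ.leaf K3_ok TY_l1595 _)
          (CovZ.leaf K3_ok TY_l1596 _))
         (CovZ.leaf K3_ok TY_l1597 _))))))
    (CovZ.n1 (-2768, 10464) (by decide +kernel)
     (CovZ.n2 (-2776, 10472) (by decide +kernel)
      (CovZ.n2 (-2768, 10472) (by decide +kernel)
       (CovZ.n2 (-2772, 10468) (by decide +kernel)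
        (CovZ.n2 (-2772, 10472) (by decide +kernel)
         (CovZ.leaf K2_ok TY_l1598 _)
         (CovZ.n1 (-2774, 10470) (by decide +kernel)
          (CovZ.leaf K3_ok TY_l1599 _)
          (CovZ.leaf K3_ok TY_l1600 _)))
        (CovZ.n1 (-2768, 10468) (by decide +kernel)
         (CovZ.n2 (-2770, 10466) (by decide +kernel)
          (CovZ.leaf K2_ok TY_l1601 _)
          (CovZ.leaf K2_ok TY_l1602 _))
         (CovZ.leaf K3_ok TY_l1603 _)))
       (CovZ.n1 (-2772, 10476) (by decide +kernel)
        (CovZ.n2 (-2768, 10476) (by decide +kernel)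
         (CovZ.n2 (-2770, 10474) (by decide +kernel)
          (CovZ.leaf K3_ok TY_l1604 _)
          (CovZ.leaf K3_ok TY_l1605 _))
         (CovZ.n1 (-2770, 10478) (by decide +kernel)
          (CovZ.leaf K2_ok TY_l1606 _)
          (CovZ.leaf K2_ok TY_l1607 _)))
        (CovZ.n1 (-2772, 10472) (by decide +kernel)
         (CovZ.n2 (-2774, 10474) (by decide +kernel)
          (CovZ.leaf K3_ok TY_l1608 _)
          (CovZ.leaf K3_ok TY_l1609 _))
         (CovZ.n1 (-2770, 10474) (by decide +kernel)
          (CovZ.leaf K2_ok TY_l1610 _)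
          (CovZ.leaf K3_ok TY_l1611 _)))))
      (CovZ.n1 (-2776, 10464) (by decide +kernel)
       (CovZ.n2 (-2780, 10468) (by decide +kernel)
        (CovZ.n2 (-2776, 10468) (by decide +kernel)
         (CovZ.n2 (-2778, 10466) (by decide +kernel)
          (CovZ.leaf K2_ok TY_l1612 _)
          (CovZ.leaf K3_ok TY_l1613 _))
         (CovZ.leaf K2_ok TY_l1614 _))
        (CovZ.n1 (-2780, 10464) (by decide +kernel)
         (CovZ.n2 (-2782, 10466) (by decide +kernel)
          (CovZ.leaf K2_ok TY_l1615 _)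
          (CovZ.leaf K2_ok TY_l1616 _))
         (CovZ.n1 (-2778, 10466) (by decide +kernel)
          (CovZ.leaf K3_ok TY_l1617 _)
          (CovZ.leaf K2_ok TY_l1618 _))))
       (CovZ.n1 (-2772, 10468) (by decide +kernel)
        (CovZ.n2 (-2772, 10464) (by decide +kernel)
         (CovZ.leaf K3_ok TY_l1619 _)
         (CovZ.n1 (-2770, 10466) (by decide +kernel)
          (CovZ.leaf K3_ok TY_l1620 _)
          (CovZ.leaf K3_ok TY_l1621 _)))
        (CovZ.n1 (-2776, 10468) (by decide +kernel)
         (CovZ.n2 (-2774, 10470) (by decide +kernel)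
          (CovZ.leaf K2_ok TY_l1622 _)
          (CovZ.leaf K2_ok TY_l1623 _))
         (CovZ.leaf K2_ok TY_l1624 _)))))
     (CovZ.n1 (-2760, 10472) (by decide +kernel)
      (CovZ.n2 (-2760, 10464) (by decide +kernel)
       (CovZ.n2 (-2764, 10468) (by decide +kernel)
        (CovZ.n2 (-2760, 10468) (by decide +kernel)
         (CovZ.n2 (-2762, 10466) (by decide +kernel)
          (CovZ.leaf K3_ok TY_l1625 _)
          (CovZ.leaf K2_ok TY_l1626 _))
         (CovZ.leaf K2_ok TY_l1627 _))
        (CovZ.n1 (-2764, 10464) (by decide +kernel)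
         (CovZ.n2 (-2766, 10466) (by decide +kernel)
          (CovZ.leaf K2_ok TY_l1628 _)
          (CovZ.leaf K3_ok TY_l1629 _))
         (CovZ.n1 (-2762, 10466) (by decide +kernel)
          (CovZ.leaf K2_ok TY_l1630 _)
          (CovZ.leaf K3_ok TY_l1631 _))))
       (CovZ.n1 (-2756, 10468) (by decide +kernel)
        (CovZ.n2 (-2756, 10464) (by decide +kernel)
         (CovZ.leaf K2_ok TY_l1632 _)
         (CovZ.leaf K3_ok TY_l1633 _))
        (CovZ.n1 (-2760, 10468) (by decide +kernel)
         (CovZ.leaf K2_ok TY_l1634 _)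
         (CovZ.leaf K2_ok TY_l1635 _))))
      (CovZ.n1 (-2768, 10472) (by decide +kernel)
       (CovZ.n2 (-2764, 10476) (by decide +kernel)
        (CovZ.n2 (-2764, 10472) (by decide +kernel)
         (CovZ.leaf K3_ok TY_l1636 _)
         (CovZ.n1 (-2762, 10474) (by decide +kernel)
          (CovZ.leaf K2_ok TY_l1637 _)
          (CovZ.leaf K3_ok TY_l1638 _)))
        (CovZ.n1 (-2768, 10476) (by decide +kernel)
         (CovZ.n2 (-2766, 10478) (by decide +kernel)
          (CovZ.leaf K2_ok TY_l1639 _)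
          (CovZ.leaf K2_ok TY_l1640 _))
         (CovZ.leaf K2_ok TY_l1641 _)))
       (CovZ.n1 (-2764, 10468) (by decide +kernel)
        (CovZ.n2 (-2768, 10468) (by decide +kernel)
         (CovZ.n2 (-2766, 10470) (by decide +kernel)
          (CovZ.leaf K3_ok TY_l1642 _)
          (CovZ.leaf K3_ok TY_l1643 _))
         (CovZ.leaf K2_ok TY_l1644 _))
        (CovZ.n1 (-2764, 10472) (by decide +kernel)
         (CovZ.leaf K3_ok TY_l1645 _)
         (CovZ.n1 (-2766, 10470) (by decide +kernel)
          (CovZ.leaf K2_ok TY_l1646 _)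
          (CovZ.leaf K2_ok TY_l1647 _)))))))))
    (CovZ.topM TY_LL 7 (by decide +kernel) (CovZ.n0 (-2768, 10480) (by decide +kernel)
    TY_u16
    TY_u17))

theorem TY_s2_5 : SqZ TY_M TY_L [0, 7, 4, 3] (-2816) 10304 32 2 5 :=
  SqZ.mk (a := (-2752)) (b := (-2720)) (c := 10464) (d := 10496) (by norm_num) (by norm_num) (by norm_num) (by norm_num)
    (CovZ.topM TY_LL 7 (by decide +kernel) (CovZ.n2 (-2736, 10480) (by decide +kernel)
    (CovZ.n2 (-2720, 10480) (by decide +kernel)
     (CovZ.n2 (-2728, 10472) (by decide +kernel)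
      (CovZ.n2 (-2728, 10480) (by decide +kernel)
       (CovZ.n2 (-2724, 10476) (by decide +kernel)
        (CovZ.n2 (-2728, 10476) (by decide +kernel)
         (CovZ.leaf K2_ok TY_l2599 _)
         (CovZ.leaf K2_ok TY_l2600 _))
        (CovZ.n1 (-2724, 10480) (by decide +kernel)
         (CovZ.leaf K2_ok TY_l2601 _)
         (CovZ.leaf K2_ok TY_l2602 _)))
       (CovZ.n1 (-2732, 10476) (by decide +kernel)
        (CovZ.leaf K2_ok TY_l2603 _)
        (CovZ.leaf K2_ok TY_l2604 _)))
      (CovZ.n1 (-2720, 10472) (by decide +kernel)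
       (CovZ.n2 (-2724, 10468) (by decide +kernel)
        (CovZ.leaf K3_ok TY_l2605 _)
        (CovZ.leaf K3_ok TY_l2606 _))
       (CovZ.n1 (-2724, 10476) (by decide +kernel)
        (CovZ.leaf K2_ok TY_l2607 _)
        (CovZ.n1 (-2724, 10472) (by decide +kernel)
         (CovZ.leaf K3_ok TY_l2608 _)
         (CovZ.leaf K3_ok TY_l2609 _)))))
     (CovZ.n1 (-2728, 10488) (by decide +kernel)
      (CovZ.n2 (-2720, 10488) (by decide +kernel)
       (CovZ.n2 (-2724, 10484) (by decide +kernel)
        (CovZ.n2 (-2724, 10488) (by decide +kernel)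
         (CovZ.leaf K2_ok TY_l2610 _)
         (CovZ.leaf K3_ok TY_l2611 _))
        (CovZ.leaf K3_ok TY_l2612 _))
       (CovZ.n1 (-2724, 10492) (by decide +kernel)
        (CovZ.n2 (-2720, 10492) (by decide +kernel)
         (CovZ.leaf K2_ok TY_l2613 _)
         (CovZ.leaf K2_ok TY_l2614 _))
        (CovZ.n1 (-2724, 10488) (by decide +kernel)
         (CovZ.leaf K3_ok TY_l2615 _)
         (CovZ.leaf K3_ok TY_l2616 _))))
      (CovZ.n1 (-2728, 10480) (by decide +kernel)
       (CovZ.n2 (-2732, 10484) (by decide +kernel)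
        (CovZ.n2 (-2728, 10484) (by decide +kernel)
         (CovZ.leaf K2_ok TY_l2617 _)
         (CovZ.leaf K2_ok TY_l2618 _))
        (CovZ.n1 (-2732, 10480) (by decide +kernel)
         (CovZ.leaf K3_ok TY_l2619 _)
         (CovZ.leaf K3_ok TY_l2620 _)))
       (CovZ.n1 (-2724, 10484) (by decide +kernel)
        (CovZ.n2 (-2724, 10480) (by decide +kernel)
         (CovZ.leaf K2_ok TY_l2621 _)
         (CovZ.leaf K2_ok TY_l2622 _))
        (CovZ.n1 (-2728, 10484) (by decide +kernel)
         (CovZ.n2 (-2726, 10486) (by decide +kernel)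
          (CovZ.leaf K2_ok TY_l2623 _)
          (CovZ.leaf K2_ok TY_l2624 _))
         (CovZ.leaf K2_ok TY_l2625 _))))))
    (CovZ.n1 (-2736, 10464) (by decide +kernel)
     (CovZ.n2 (-2744, 10472) (by decide +kernel)
      (CovZ.n2 (-2736, 10472) (by decide +kernel)
       (CovZ.n2 (-2740, 10468) (by decide +kernel)
        (CovZ.n2 (-2740, 10472) (by decide +kernel)
         (CovZ.leaf K2_ok TY_l2626 _)
         (CovZ.leaf K2_ok TY_l2627 _))
        (CovZ.leaf K2_ok TY_l2628 _))
       (CovZ.n1 (-2740, 10476) (by decide +kernel)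
        (CovZ.n2 (-2736, 10476) (by decide +kernel)
         (CovZ.leaf K2_ok TY_l2629 _)
         (CovZ.leaf K2_ok TY_l2630 _))
        (CovZ.n1 (-2740, 10472) (by decide +kernel)
         (CovZ.leaf K3_ok TY_l2631 _)
         (CovZ.leaf K3_ok TY_l2632 _))))
      (CovZ.n1 (-2744, 10464) (by decide +kernel)
       (CovZ.n2 (-2748, 10468) (by decide +kernel)
        (CovZ.n2 (-2744, 10468) (by decide +kernel)
         (CovZ.leaf K2_ok TY_l2633 _)
         (CovZ.leaf K2_ok TY_l2634 _))
        (CovZ.n1 (-2748, 10464) (by decide +kernel)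
         (CovZ.leaf K3_ok TY_l2635 _)
         (CovZ.leaf K2_ok TY_l2636 _)))
       (CovZ.n1 (-2740, 10468) (by decide +kernel)
        (CovZ.n2 (-2740, 10464) (by decide +kernel)
         (CovZ.leaf K3_ok TY_l2637 _)
         (CovZ.leaf K2_ok TY_l2638 _))
        (CovZ.leaf K2_ok TY_l2639 _))))
     (CovZ.n1 (-2728, 10472) (by decide +kernel)
      (CovZ.n2 (-2728, 10464) (by decide +kernel)
       (CovZ.n2 (-2732, 10468) (by decide +kernel)
        (CovZ.leaf K3_ok TY_l2640 _)
        (CovZ.n1 (-2732, 10464) (by decide +kernel)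
         (CovZ.leaf K2_ok TY_l2641 _)
         (CovZ.leaf K3_ok TY_l2642 _)))
       (CovZ.n1 (-2724, 10468) (by decide +kernel)
        (CovZ.leaf K2_ok TY_l2643 _)
        (CovZ.leaf K3_ok TY_l2644 _)))
      (CovZ.n1 (-2736, 10472) (by decide +kernel)
       (CovZ.n2 (-2732, 10476) (by decide +kernel)
        (CovZ.n2 (-2732, 10472) (by decide +kernel)
         (CovZ.leaf K2_ok TY_l2645 _)
         (CovZ.leaf K3_ok TY_l2646 _))
        (CovZ.leaf K2_ok TY_l2647 _))
       (CovZ.n1 (-2732, 10468) (by decide +kernel)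
        (CovZ.leaf K2_ok TY_l2648 _)
        (CovZ.leaf K3_ok TY_l2649 _)))))))
    (CovZ.topM TY_LL 7 (by decide +kernel) (CovZ.n0 (-2736, 10480) (by decide +kernel)
    (CovZ.n2 (-2752, 10480) (by decide +kernel)
     (CovZ.n2 (-2744, 10488) (by decide +kernel)
      (CovZ.n2 (-2744, 10480) (by decide +kernel)
       (CovZ.n2 (-2748, 10484) (by decide +kernel)
        (CovZ.n2 (-2744, 10484) (by decide +kernel)
         (CovZ.n2 (-2746, 10482) (by decide +kernel)
          (CovZ.leaf K2_ok TY_l2650 _)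
          (CovZ.leaf K3_ok TY_l2651 _))
         (CovZ.leaf K3_ok TY_l2652 _))
        (CovZ.n1 (-2748, 10480) (by decide +kernel)
         (CovZ.leaf K2_ok TY_l2653 _)
         (CovZ.leaf K3_ok TY_l2654 _)))
       (CovZ.n1 (-2740, 10484) (by decide +kernel)
        (CovZ.n2 (-2740, 10480) (by decide +kernel)
         (CovZ.leaf K2_ok TY_l2655 _)
         (CovZ.leaf K3_ok TY_l2656 _))
        (CovZ.n1 (-2744, 10484) (by decide +kernel)
         (CovZ.leaf K2_ok TY_l2657 _)
         (CovZ.leaf K2_ok TY_l2658 _))))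
      (CovZ.n1 (-2752, 10488) (by decide +kernel)
       (CovZ.n2 (-2748, 10492) (by decide +kernel)
        (CovZ.n2 (-2748, 10488) (by decide +kernel)
         (CovZ.leaf K3_ok TY_l2659 _)
         (CovZ.n1 (-2746, 10490) (by decide +kernel)
          (CovZ.leaf K3_ok TY_l2660 _)
          (CovZ.leaf K2_ok TY_l2661 _)))
        (CovZ.n1 (-2752, 10492) (by decide +kernel)
         (CovZ.n2 (-2750, 10494) (by decide +kernel)
          (CovZ.leaf K2_ok TY_l2662 _)
          (CovZ.leaf K3_ok TY_l2663 _))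
         (CovZ.leaf K2_ok TY_l2664 _)))
       (CovZ.n1 (-2748, 10484) (by decide +kernel)
        (CovZ.n2 (-2752, 10484) (by decide +kernel)
         (CovZ.n2 (-2750, 10486) (by decide +kernel)
          (CovZ.leaf K2_ok TY_l2665 _)
          (CovZ.leaf K2_ok TY_l2666 _))
         (CovZ.leaf K2_ok TY_l2667 _))
        (CovZ.n1 (-2748, 10488) (by decide +kernel)
         (CovZ.leaf K2_ok TY_l2668 _)
         (CovZ.n1 (-2750, 10486) (by decide +kernel)
          (CovZ.leaf K3_ok TY_l2669 _)
          (CovZ.leaf K3_ok TY_l2670 _))))))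
     (CovZ.n1 (-2744, 10472) (by decide +kernel)
      (CovZ.n2 (-2752, 10472) (by decide +kernel)
       (CovZ.n2 (-2748, 10476) (by decide +kernel)
        (CovZ.n2 (-2748, 10472) (by decide +kernel)
         (CovZ.leaf K2_ok TY_l2671 _)
         (CovZ.leaf K3_ok TY_l2672 _))
        (CovZ.n1 (-2752, 10476) (by decide +kernel)
         (CovZ.n2 (-2750, 10478) (by decide +kernel)
          (CovZ.leaf K3_ok TY_l2673 _)
          (CovZ.leaf K3_ok TY_l2674 _))
         (CovZ.leaf K3_ok TY_l2675 _)))
       (CovZ.n1 (-2748, 10468) (by decide +kernel)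
        (CovZ.n2 (-2752, 10468) (by decide +kernel)
         (CovZ.leaf K3_ok TY_l2676 _)
         (CovZ.leaf K3_ok TY_l2677 _))
        (CovZ.n1 (-2748, 10472) (by decide +kernel)
         (CovZ.leaf K3_ok TY_l2678 _)
         (CovZ.leaf K3_ok TY_l2679 _))))
      (CovZ.n1 (-2744, 10480) (by decide +kernel)
       (CovZ.n2 (-2740, 10476) (by decide +kernel)
        (CovZ.n2 (-2744, 10476) (by decide +kernel)
         (CovZ.leaf K3_ok TY_l2680 _)
         (CovZ.leaf K3_ok TY_l2681 _))
        (CovZ.n1 (-2740, 10480) (by decide +kernel)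
         (CovZ.leaf K2_ok TY_l2682 _)
         (CovZ.n1 (-2742, 10478) (by decide +kernel)
          (CovZ.leaf K3_ok TY_l2683 _)
          (CovZ.leaf K2_ok TY_l2684 _))))
       (CovZ.n1 (-2748, 10476) (by decide +kernel)
        (CovZ.n2 (-2748, 10480) (by decide +kernel)
         (CovZ.leaf K2_ok TY_l2685 _)
         (CovZ.n1 (-2750, 10478) (by decide +kernel)
          (CovZ.leaf K2_ok TY_l2686 _)
          (CovZ.leaf K3_ok TY_l2687 _)))
        (CovZ.n1 (-2744, 10476) (by decide +kernel)
         (CovZ.leaf K2_ok TY_l2688 _)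
         (CovZ.leaf K2_ok TY_l2689 _))))))
    (CovZ.n1 (-2736, 10496) (by decide +kernel)
     (CovZ.n2 (-2728, 10488) (by decide +kernel)
      (CovZ.n2 (-2736, 10488) (by decide +kernel)
       (CovZ.n2 (-2732, 10492) (by decide +kernel)
        (CovZ.n2 (-2732, 10488) (by decide +kernel)
         (CovZ.leaf K2_ok TY_l2690 _)
         (CovZ.leaf K2_ok TY_l2691 _))
        (CovZ.n1 (-2736, 10492) (by decide +kernel)
         (CovZ.n2 (-2734, 10494) (by decide +kernel)
          (CovZ.leaf K2_ok TY_l2692 _)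
          (CovZ.leaf K2_ok TY_l2693 _))
         (CovZ.leaf K2_ok TY_l2694 _)))
       (CovZ.n1 (-2732, 10484) (by decide +kernel)
        (CovZ.n2 (-2736, 10484) (by decide +kernel)
         (CovZ.leaf K3_ok TY_l2695 _)
         (CovZ.leaf K2_ok TY_l2696 _))
        (CovZ.n1 (-2732, 10488) (by decide +kernel)
         (CovZ.leaf K2_ok TY_l2697 _)
         (CovZ.leaf K2_ok TY_l2698 _))))
      (CovZ.n1 (-2728, 10496) (by decide +kernel)
       (CovZ.n2 (-2724, 10492) (by decide +kernel)
        (CovZ.n2 (-2728, 10492) (by decide +kernel)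
         (CovZ.leaf K2_ok TY_l2699 _)
         (CovZ.leaf K2_ok TY_l2700 _))
        (CovZ.n1 (-2724, 10496) (by decide +kernel)
         (CovZ.leaf K3_ok TY_l2701 _)
         (CovZ.n1 (-2726, 10494) (by decide +kernel)
          (CovZ.leaf K3_ok TY_l2702 _)
          (CovZ.leaf K2_ok TY_l2703 _))))
       (CovZ.n1 (-2732, 10492) (by decide +kernel)
        (CovZ.n2 (-2732, 10496) (by decide +kernel)
         (CovZ.leaf K2_ok TY_l2704 _)
         (CovZ.n1 (-2734, 10494) (by decide +kernel)
          (CovZ.leaf K2_ok TY_l2705 _)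
          (CovZ.leaf K2_ok TY_l2706 _)))
        (CovZ.n1 (-2728, 10492) (by decide +kernel)
         (CovZ.leaf K2_ok TY_l2707 _)
         (CovZ.leaf K2_ok TY_l2708 _)))))
     (CovZ.n1 (-2744, 10488) (by decide +kernel)
      (CovZ.n2 (-2744, 10496) (by decide +kernel)
       (CovZ.n2 (-2740, 10492) (by decide +kernel)
        (CovZ.n2 (-2744, 10492) (by decide +kernel)
         (CovZ.n2 (-2742, 10494) (by decide +kernel)
          (CovZ.leaf K3_ok TY_l2709 _)
          (CovZ.leaf K3_ok TY_l2710 _))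
         (CovZ.leaf K2_ok TY_l2711 _))
        (CovZ.n1 (-2740, 10496) (by decide +kernel)
         (CovZ.leaf K3_ok TY_l2712 _)
         (CovZ.n1 (-2742, 10494) (by decide +kernel)
          (CovZ.leaf K3_ok TY_l2713 _)
          (CovZ.leaf K3_ok TY_l2714 _))))
       (CovZ.n1 (-2748, 10492) (by decide +kernel)
        (CovZ.n2 (-2748, 10496) (by decide +kernel)
         (CovZ.leaf K2_ok TY_l2715 _)
         (CovZ.n1 (-2750, 10494) (by decide +kernel)
          (CovZ.leaf K2_ok TY_l2716 _)
          (CovZ.leaf K3_ok TY_l2717 _)))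
        (CovZ.n1 (-2744, 10492) (by decide +kernel)
         (CovZ.n2 (-2746, 10490) (by decide +kernel)
          (CovZ.leaf K3_ok TY_l2718 _)
          (CovZ.leaf K2_ok TY_l2719 _))
         (CovZ.n1 (-2746, 10494) (by decide +kernel)
          (CovZ.leaf K2_ok TY_l2720 _)
          (CovZ.n1 (-2746, 10492) (by decide +kernel)
           (CovZ.leaf K3_ok TY_l2721 _)
           (CovZ.leaf K2_ok TY_l2722 _))))))
      (CovZ.n1 (-2736, 10488) (by decide +kernel)
       (CovZ.n2 (-2740, 10484) (by decide +kernel)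
        (CovZ.n2 (-2740, 10488) (by decide +kernel)
         (CovZ.leaf K2_ok TY_l2723 _)
         (CovZ.n1 (-2742, 10486) (by decide +kernel)
          (CovZ.leaf K2_ok TY_l2724 _)
          (CovZ.leaf K2_ok TY_l2725 _)))
        (CovZ.n1 (-2736, 10484) (by decide +kernel)
         (CovZ.leaf K2_ok TY_l2726 _)
         (CovZ.leaf K2_ok TY_l2727 _)))
       (CovZ.n1 (-2740, 10492) (by decide +kernel)
        (CovZ.n2 (-2736, 10492) (by decide +kernel)
         (CovZ.n2 (-2738, 10490) (by decide +kernel)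
          (CovZ.leaf K2_ok TY_l2728 _)
          (CovZ.leaf K2_ok TY_l2729 _))
         (CovZ.leaf K3_ok TY_l2730 _))
        (CovZ.n1 (-2740, 10488) (by decide +kernel)
         (CovZ.leaf K3_ok TY_l2731 _)
         (CovZ.leaf K2_ok TY_l2732 _))))))))

theorem TY_s3_5 : SqZ TY_M TY_L [0, 7, 4, 3] (-2816) 10304 32 3 5 :=
  SqZ.mk (a := (-2720)) (b := (-2688)) (c := 10464) (d := 10496) (by norm_num) (by norm_num) (by norm_num) (by norm_num)
    (CovZ.topM TY_LL 7 (by decide +kernel) (CovZ.n2 (-2704, 10480) (by decide +kernel)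
    (CovZ.n2 (-2688, 10480) (by decide +kernel)
     (CovZ.n2 (-2696, 10472) (by decide +kernel)
      (CovZ.n2 (-2696, 10480) (by decide +kernel)
       (CovZ.leaf K3_ok TY_l3809 _)
       (CovZ.n1 (-2700, 10476) (by decide +kernel)
        (CovZ.leaf K2_ok TY_l3810 _)
        (CovZ.leaf K3_ok TY_l3811 _)))
      (CovZ.n1 (-2688, 10472) (by decide +kernel)
       (CovZ.n2 (-2692, 10468) (by decide +kernel)
        (CovZ.leaf K3_ok TY_l3812 _)
        (CovZ.leaf K3_ok TY_l3813 _))
       (CovZ.n1 (-2692, 10476) (by decide +kernel)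
        (CovZ.leaf K3_ok TY_l3814 _)
        (CovZ.leaf K2_ok TY_l3815 _))))
     (CovZ.n1 (-2696, 10488) (by decide +kernel)
      (CovZ.n2 (-2688, 10488) (by decide +kernel)
       (CovZ.n2 (-2692, 10484) (by decide +kernel)
        (CovZ.leaf K3_ok TY_l3816 _)
        (CovZ.leaf K2_ok TY_l3817 _))
       (CovZ.n1 (-2692, 10492) (by decide +kernel)
        (CovZ.leaf K3_ok TY_l3818 _)
        (CovZ.n1 (-2692, 10488) (by decide +kernel)
         (CovZ.leaf K3_ok TY_l3819 _)
         (CovZ.leaf K3_ok TY_l3820 _))))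
      (CovZ.n1 (-2696, 10480) (by decide +kernel)
       (CovZ.n2 (-2700, 10484) (by decide +kernel)
        (CovZ.leaf K3_ok TY_l3821 _)
        (CovZ.leaf K3_ok TY_l3822 _))
       (CovZ.n1 (-2692, 10484) (by decide +kernel)
        (CovZ.leaf K2_ok TY_l3823 _)
        (CovZ.leaf K2_ok TY_l3824 _)))))
    (CovZ.n1 (-2704, 10464) (by decide +kernel)
     (CovZ.n2 (-2712, 10472) (by decide +kernel)
      (CovZ.n2 (-2704, 10472) (by decide +kernel)
       (CovZ.n2 (-2708, 10468) (by decide +kernel)
        (CovZ.leaf K2_ok TY_l3825 _)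
        (CovZ.leaf K3_ok TY_l3826 _))
       (CovZ.n1 (-2708, 10476) (by decide +kernel)
        (CovZ.leaf K2_ok TY_l3827 _)
        (CovZ.n1 (-2708, 10472) (by decide +kernel)
         (CovZ.leaf K2_ok TY_l3828 _)
         (CovZ.leaf K3_ok TY_l3829 _))))
      (CovZ.n1 (-2712, 10464) (by decide +kernel)
       (CovZ.n2 (-2716, 10468) (by decide +kernel)
        (CovZ.leaf K3_ok TY_l3830 _)
        (CovZ.leaf K2_ok TY_l3831 _))
       (CovZ.n1 (-2708, 10468) (by decide +kernel)
        (CovZ.leaf K3_ok TY_l3832 _)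
        (CovZ.leaf K3_ok TY_l3833 _))))
     (CovZ.n1 (-2696, 10472) (by decide +kernel)
      (CovZ.n2 (-2696, 10464) (by decide +kernel)
       (CovZ.n2 (-2700, 10468) (by decide +kernel)
        (CovZ.leaf K2_ok TY_l3834 _)
        (CovZ.n1 (-2700, 10464) (by decide +kernel)
         (CovZ.leaf K2_ok TY_l3835 _)
         (CovZ.leaf K3_ok TY_l3836 _)))
       (CovZ.n1 (-2692, 10468) (by decide +kernel)
        (CovZ.n2 (-2692, 10464) (by decide +kernel)
         (CovZ.leaf K2_ok TY_l3837 _)
         (CovZ.leaf K3_ok TY_l3838 _))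
        (CovZ.leaf K3_ok TY_l3839 _)))
      (CovZ.n1 (-2704, 10472) (by decide +kernel)
       (CovZ.n2 (-2700, 10476) (by decide +kernel)
        (CovZ.leaf K2_ok TY_l3840 _)
        (CovZ.leaf K3_ok TY_l3841 _))
       (CovZ.n1 (-2700, 10468) (by decide +kernel)
        (CovZ.leaf K2_ok TY_l3842 _)
        (CovZ.leaf K3_ok TY_l3843 _)))))))
    (CovZ.topM TY_LL 7 (by decide +kernel) (CovZ.n0 (-2704, 10480) (by decide +kernel)
    (CovZ.n2 (-2720, 10480) (by decide +kernel)
     (CovZ.n2 (-2712, 10488) (by decide +kernel)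
      (CovZ.n2 (-2712, 10480) (by decide +kernel)
       (CovZ.n2 (-2716, 10484) (by decide +kernel)
        (CovZ.leaf K3_ok TY_l3844 _)
        (CovZ.n1 (-2716, 10480) (by decide +kernel)
         (CovZ.leaf K3_ok TY_l3845 _)
         (CovZ.leaf K3_ok TY_l3846 _)))
       (CovZ.n1 (-2708, 10484) (by decide +kernel)
        (CovZ.n2 (-2708, 10480) (by decide +kernel)
         (CovZ.leaf K2_ok TY_l3847 _)
         (CovZ.leaf K3_ok TY_l3848 _))
        (CovZ.leaf K3_ok TY_l3849 _)))
      (CovZ.n1 (-2720, 10488) (by decide +kernel)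
       (CovZ.n2 (-2716, 10492) (by decide +kernel)
        (CovZ.n2 (-2716, 10488) (by decide +kernel)
         (CovZ.leaf K2_ok TY_l3850 _)
         (CovZ.leaf K3_ok TY_l3851 _))
        (CovZ.n1 (-2720, 10492) (by decide +kernel)
         (CovZ.leaf K2_ok TY_l3852 _)
         (CovZ.leaf K3_ok TY_l3853 _)))
       (CovZ.n1 (-2716, 10484) (by decide +kernel)
        (CovZ.leaf K2_ok TY_l3854 _)
        (CovZ.leaf K2_ok TY_l3855 _))))
     (CovZ.n1 (-2712, 10472) (by decide +kernel)
      (CovZ.n2 (-2720, 10472) (by decide +kernel)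
       (CovZ.n2 (-2716, 10476) (by decide +kernel)
        (CovZ.n2 (-2716, 10472) (by decide +kernel)
         (CovZ.leaf K2_ok TY_l3856 _)
         (CovZ.leaf K3_ok TY_l3857 _))
        (CovZ.leaf K2_ok TY_l3858 _))
       (CovZ.n1 (-2716, 10468) (by decide +kernel)
        (CovZ.leaf K3_ok TY_l3859 _)
        (CovZ.leaf K2_ok TY_l3860 _)))
      (CovZ.n1 (-2712, 10480) (by decide +kernel)
       (CovZ.n2 (-2708, 10476) (by decide +kernel)
        (CovZ.leaf K3_ok TY_l3861 _)
        (CovZ.leaf K3_ok TY_l3862 _))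
       (CovZ.n1 (-2716, 10476) (by decide +kernel)
        (CovZ.leaf K2_ok TY_l3863 _)
        (CovZ.leaf K3_ok TY_l3864 _)))))
    (CovZ.n1 (-2704, 10496) (by decide +kernel)
     (CovZ.n2 (-2696, 10488) (by decide +kernel)
      (CovZ.n2 (-2704, 10488) (by decide +kernel)
       (CovZ.n2 (-2700, 10492) (by decide +kernel)
        (CovZ.n2 (-2700, 10488) (by decide +kernel)
         (CovZ.n2 (-2702, 10490) (by decide +kernel)
          (CovZ.leaf K2_ok TY_l3865 _)
          (CovZ.leaf K3_ok TY_l3866 _))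
         (CovZ.leaf K3_ok TY_l3867 _))
        (CovZ.leaf K2_ok TY_l3868 _))
       (CovZ.n1 (-2700, 10484) (by decide +kernel)
        (CovZ.leaf K3_ok TY_l3869 _)
        (CovZ.leaf K3_ok TY_l3870 _)))
      (CovZ.n1 (-2696, 10496) (by decide +kernel)
       (CovZ.n2 (-2692, 10492) (by decide +kernel)
        (CovZ.leaf K3_ok TY_l3871 _)
        (CovZ.leaf K3_ok TY_l3872 _))
       (CovZ.n1 (-2700, 10492) (by decide +kernel)
        (CovZ.leaf K3_ok TY_l3873 _)
        (CovZ.leaf K2_ok TY_l3874 _))))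
     (CovZ.n1 (-2712, 10488) (by decide +kernel)
      (CovZ.n2 (-2712, 10496) (by decide +kernel)
       (CovZ.n2 (-2708, 10492) (by decide +kernel)
        (CovZ.leaf K3_ok TY_l3875 _)
        (CovZ.n1 (-2708, 10496) (by decide +kernel)
         (CovZ.leaf K2_ok TY_l3876 _)
         (CovZ.leaf K2_ok TY_l3877 _)))
       (CovZ.n1 (-2716, 10492) (by decide +kernel)
        (CovZ.n2 (-2716, 10496) (by decide +kernel)
         (CovZ.leaf K2_ok TY_l3878 _)
         (CovZ.n1 (-2718, 10494) (by decide +kernel)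
          (CovZ.leaf K2_ok TY_l3879 _)
          (CovZ.leaf K2_ok TY_l3880 _)))
        (CovZ.leaf K2_ok TY_l3881 _)))
      (CovZ.n1 (-2704, 10488) (by decide +kernel)
       (CovZ.n2 (-2708, 10484) (by decide +kernel)
        (CovZ.leaf K2_ok TY_l3882 _)
        (CovZ.leaf K3_ok TY_l3883 _))
       (CovZ.n1 (-2708, 10492) (by decide +kernel)
        (CovZ.leaf K2_ok TY_l3884 _)
        (CovZ.n1 (-2708, 10488) (by decide +kernel)
         (CovZ.leaf K3_ok TY_l3885 _)
         (CovZ.leaf K3_ok TY_l3886 _))))))))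

theorem TY_s4_5 : SqZ TY_M TY_L [0, 7, 4, 3] (-2816) 10304 32 4 5 :=
  SqZ.mk (a := (-2688)) (b := (-2656)) (c := 10464) (d := 10496) (by norm_num) (by norm_num) (by norm_num) (by norm_num)
    (CovZ.topM TY_LL 7 (by decide +kernel) (CovZ.n2 (-2672, 10480) (by decide +kernel)
    TY_u18
    TY_u19))
    (CovZ.topM TY_LL 7 (by decide +kernel) (CovZ.n0 (-2672, 10480) (by decide +kernel)
    (CovZ.n2 (-2688, 10480) (by decide +kernel)
     (CovZ.n2 (-2680, 10488) (by decide +kernel)
      (CovZ.n2 (-2680, 10480) (by decide +kernel)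
       (CovZ.n2 (-2684, 10484) (by decide +kernel)
        (CovZ.leaf K3_ok TY_l5046 _)
        (CovZ.n1 (-2684, 10480) (by decide +kernel)
         (CovZ.leaf K3_ok TY_l5047 _)
         (CovZ.leaf K2_ok TY_l5048 _)))
       (CovZ.n1 (-2676, 10484) (by decide +kernel)
        (CovZ.n2 (-2676, 10480) (by decide +kernel)
         (CovZ.leaf K2_ok TY_l5049 _)
         (CovZ.leaf K3_ok TY_l5050 _))
        (CovZ.leaf K3_ok TY_l5051 _)))
      (CovZ.n1 (-2688, 10488) (by decide +kernel)
       (CovZ.n2 (-2684, 10492) (by decide +kernel)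
        (CovZ.leaf K2_ok TY_l5052 _)
        (CovZ.leaf K3_ok TY_l5053 _))
       (CovZ.leaf K2_ok TY_l5054 _)))
     (CovZ.n1 (-2680, 10472) (by decide +kernel)
      (CovZ.n2 (-2688, 10472) (by decide +kernel)
       (CovZ.n2 (-2684, 10476) (by decide +kernel)
        (CovZ.n2 (-2684, 10472) (by decide +kernel)
         (CovZ.leaf K3_ok TY_l5055 _)
         (CovZ.leaf K3_ok TY_l5056 _))
        (CovZ.leaf K3_ok TY_l5057 _))
       (CovZ.n1 (-2684, 10468) (by decide +kernel)
        (CovZ.leaf K3_ok TY_l5058 _)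
        (CovZ.n1 (-2684, 10472) (by decide +kernel)
         (CovZ.leaf K3_ok TY_l5059 _)
         (CovZ.leaf K3_ok TY_l5060 _))))
      (CovZ.n1 (-2680, 10480) (by decide +kernel)
       (CovZ.n2 (-2676, 10476) (by decide +kernel)
        (CovZ.leaf K2_ok TY_l5061 _)
        (CovZ.n1 (-2676, 10480) (by decide +kernel)
         (CovZ.leaf K3_ok TY_l5062 _)
         (CovZ.leaf K3_ok TY_l5063 _)))
       (CovZ.n1 (-2684, 10476) (by decide +kernel)
        (CovZ.leaf K3_ok TY_l5064 _)
        (CovZ.leaf K3_ok TY_l5065 _)))))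
    (CovZ.n1 (-2672, 10496) (by decide +kernel)
     (CovZ.n2 (-2664, 10488) (by decide +kernel)
      (CovZ.n2 (-2672, 10488) (by decide +kernel)
       (CovZ.n2 (-2668, 10492) (by decide +kernel)
        (CovZ.n2 (-2668, 10488) (by decide +kernel)
         (CovZ.leaf K3_ok TY_l5066 _)
         (CovZ.leaf K3_ok TY_l5067 _))
        (CovZ.leaf K3_ok TY_l5068 _))
       (CovZ.n1 (-2668, 10484) (by decide +kernel)
        (CovZ.leaf K3_ok TY_l5069 _)
        (CovZ.n1 (-2668, 10488) (by decide +kernel)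
         (CovZ.leaf K3_ok TY_l5070 _)
         (CovZ.n1 (-2670, 10486) (by decide +kernel)
          (CovZ.leaf K3_ok TY_l5071 _)
          (CovZ.leaf K3_ok TY_l5072 _)))))
      (CovZ.n1 (-2664, 10496) (by decide +kernel)
       (CovZ.n2 (-2660, 10492) (by decide +kernel)
        (CovZ.leaf K3_ok TY_l5073 _)
        (CovZ.n1 (-2660, 10496) (by decide +kernel)
         (CovZ.leaf K3_ok TY_l5074 _)
         (CovZ.leaf K3_ok TY_l5075 _)))
       (CovZ.n1 (-2668, 10492) (by decide +kernel)
        (CovZ.leaf K2_ok TY_l5076 _)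
        (CovZ.leaf K3_ok TY_l5077 _))))
     (CovZ.n1 (-2680, 10488) (by decide +kernel)
      (CovZ.n2 (-2680, 10496) (by decide +kernel)
       (CovZ.n2 (-2676, 10492) (by decide +kernel)
        (CovZ.leaf K3_ok TY_l5078 _)
        (CovZ.leaf K2_ok TY_l5079 _))
       (CovZ.n1 (-2684, 10492) (by decide +kernel)
        (CovZ.leaf K3_ok TY_l5080 _)
        (CovZ.leaf K2_ok TY_l5081 _)))
      (CovZ.n1 (-2672, 10488) (by decide +kernel)
       (CovZ.n2 (-2676, 10484) (by decide +kernel)
        (CovZ.leaf K3_ok TY_l5082 _)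
        (CovZ.leaf K3_ok TY_l5083 _))
       (CovZ.n1 (-2676, 10492) (by decide +kernel)
        (CovZ.leaf K3_ok TY_l5084 _)
        (CovZ.leaf K3_ok TY_l5085 _)))))))

theorem TY_s5_5 : SqZ TY_M TY_L [0, 7, 4, 3] (-2816) 10304 32 5 5 :=
  SqZ.mk (a := (-2656)) (b := (-2624)) (c := 10464) (d := 10496) (by norm_num) (by norm_num) (by norm_num) (by norm_num)
    (CovZ.topM TY_LL 0 (by decide +kernel) (CovZ.badM (by decide +kernel)))
    (CovZ.topM TY_LL 7 (by decide +kernel) (CovZ.n0 (-2640, 10480) (by decide +kernel)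
    TY_u20
    TY_u21))

theorem TY_s0_6 : SqZ TY_M TY_L [0, 7, 4, 3] (-2816) 10304 32 0 6 :=
  SqZ.mk (a := (-2816)) (b := (-2784)) (c := 10496) (d := 10528) (by norm_num) (by norm_num) (by norm_num) (by norm_num)
    (CovZ.topM TY_LL 7 (by decide +kernel) (CovZ.n2 (-2800, 10512) (by decide +kernel)
    (CovZ.n2 (-2784, 10512) (by decide +kernel)
     (CovZ.n2 (-2792, 10504) (by decide +kernel)
      (CovZ.badM (by decide +kernel))
      (CovZ.n1 (-2784, 10504) (by decide +kernel)
       (CovZ.n2 (-2788, 10500) (by decide +kernel)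
        (CovZ.n2 (-2788, 10504) (by decide +kernel)
         (CovZ.n2 (-2786, 10502) (by decide +kernel)
          (CovZ.n2 (-2788, 10502) (by decide +kernel)
           (CovZ.n2 (-2787, 10503) (by decide +kernel)
            (CovZ.leaf K3_ok TY_l1052 _)
            (CovZ.leaf K3_ok TY_l1053 _))
           (CovZ.leaf K3_ok TY_l1054 _))
          (CovZ.n1 (-2786, 10504) (by decide +kernel)
           (CovZ.leaf K3_ok TY_l1055 _)
           (CovZ.n1 (-2787, 10503) (by decide +kernel)
            (CovZ.leaf K3_ok TY_l1056 _)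
            (CovZ.leaf K3_ok TY_l1057 _))))
         (CovZ.n1 (-2790, 10502) (by decide +kernel)
          (CovZ.n2 (-2790, 10504) (by decide +kernel)
           (CovZ.leaf K3_ok TY_l1058 _)
           (CovZ.n1 (-2791, 10503) (by decide +kernel)
            (CovZ.badM (by decide +kernel))
            (CovZ.leaf K3_ok TY_l1059 _)))
          (CovZ.n1 (-2788, 10502) (by decide +kernel)
           (CovZ.n2 (-2789, 10501) (by decide +kernel)
            (CovZ.leaf K3_ok TY_l1060 _)
            (CovZ.leaf K3_ok TY_l1061 _))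
           (CovZ.n1 (-2789, 10503) (by decide +kernel)
            (CovZ.leaf K3_ok TY_l1062 _)
            (CovZ.leaf K3_ok TY_l1063 _)))))
        (CovZ.n1 (-2784, 10500) (by decide +kernel)
         (CovZ.n2 (-2786, 10498) (by decide +kernel)
          (CovZ.n2 (-2786, 10500) (by decide +kernel)
           (CovZ.leaf K3_ok TY_l1064 _)
           (CovZ.leaf K3_ok TY_l1065 _))
          (CovZ.n1 (-2784, 10498) (by decide +kernel)
           (CovZ.leaf K3_ok TY_l1066 _)
           (CovZ.leaf K3_ok TY_l1067 _)))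
         (CovZ.n1 (-2786, 10502) (by decide +kernel)
          (CovZ.n2 (-2784, 10502) (by decide +kernel)
           (CovZ.n2 (-2785, 10501) (by decide +kernel)
            (CovZ.leaf K2_ok TY_l1068 _)
            (CovZ.leaf K3_ok TY_l1069 _))
           (CovZ.n1 (-2785, 10503) (by decide +kernel)
            (CovZ.leaf K3_ok TY_l1070 _)
            (CovZ.leaf K2_ok TY_l1071 _)))
          (CovZ.n1 (-2786, 10500) (by decide +kernel)
           (CovZ.n2 (-2787, 10501) (by decide +kernel)
            (CovZ.leaf K3_ok TY_l1072 _)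
            (CovZ.leaf K3_ok TY_l1073 _))
           (CovZ.n1 (-2785, 10501) (by decide +kernel)
            (CovZ.leaf K3_ok TY_l1074 _)
            (CovZ.leaf K3_ok TY_l1075 _))))))
       (CovZ.n1 (-2788, 10508) (by decide +kernel)
        (CovZ.n2 (-2784, 10508) (by decide +kernel)
         (CovZ.n2 (-2786, 10506) (by decide +kernel)
          (CovZ.badM (by decide +kernel))
          (CovZ.n1 (-2784, 10506) (by decide +kernel)
           (CovZ.n2 (-2785, 10505) (by decide +kernel)
            (CovZ.leaf K3_ok TY_l1076 _)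
            (CovZ.leaf K3_ok TY_l1077 _))
           (CovZ.leaf K3_ok TY_l1078 _)))
         (CovZ.badM (by decide +kernel)))
        (CovZ.n1 (-2788, 10504) (by decide +kernel)
         (CovZ.badM (by decide +kernel))
         (CovZ.n1 (-2786, 10506) (by decide +kernel)
          (CovZ.n2 (-2786, 10504) (by decide +kernel)
           (CovZ.leaf K3_ok TY_l1079 _)
           (CovZ.n1 (-2785, 10505) (by decide +kernel)
            (CovZ.leaf K3_ok TY_l1080 _)
            (CovZ.leaf K3_ok TY_l1081 _)))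
          (CovZ.badM (by decide +kernel)))))))
     (CovZ.badM (by decide +kernel)))
    (CovZ.n1 (-2800, 10496) (by decide +kernel)
     (CovZ.badM (by decide +kernel))
     (CovZ.n1 (-2792, 10504) (by decide +kernel)
      (CovZ.n2 (-2792, 10496) (by decide +kernel)
       (CovZ.n2 (-2796, 10500) (by decide +kernel)
        (CovZ.n2 (-2792, 10500) (by decide +kernel)
         (CovZ.n2 (-2794, 10498) (by decide +kernel)
          (CovZ.n2 (-2794, 10500) (by decide +kernel)
           (CovZ.n2 (-2793, 10499) (by decide +kernel)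
            (CovZ.badM (by decide +kernel))
            (CovZ.leaf K3_ok TY_l1083 _))
           (CovZ.badM (by decide +kernel)))
          (CovZ.n1 (-2792, 10498) (by decide +kernel)
           (CovZ.n2 (-2793, 10497) (by decide +kernel)
            (CovZ.leaf K3_ok TY_l1085 _)
            (CovZ.leaf K3_ok TY_l1086 _))
           (CovZ.n1 (-2793, 10499) (by decide +kernel)
            (CovZ.leaf K3_ok TY_l1087 _)
            (CovZ.n1 (-2793, 10498) (by decide +kernel)
             (CovZ.badM (by decide +kernel))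
             (CovZ.leaf K3_ok TY_l1089 _)))))
         (CovZ.n1 (-2794, 10502) (by decide +kernel)
          (CovZ.n2 (-2792, 10502) (by decide +kernel)
           (CovZ.n2 (-2793, 10501) (by decide +kernel)
            (CovZ.badM (by decide +kernel))
            (CovZ.leaf K3_ok TY_l1090 _))
           (CovZ.badM (by decide +kernel)))
          (CovZ.n1 (-2794, 10500) (by decide +kernel)
           (CovZ.badM (by decide +kernel))
           (CovZ.n1 (-2793, 10501) (by decide +kernel)
            (CovZ.leaf K3_ok TY_l1091 _)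
            (CovZ.badM (by decide +kernel))))))
        (CovZ.badM (by decide +kernel)))
       (CovZ.n1 (-2788, 10500) (by decide +kernel)
        (CovZ.n2 (-2788, 10496) (by decide +kernel)
         (CovZ.n2 (-2790, 10498) (by decide +kernel)
          (CovZ.n2 (-2788, 10498) (by decide +kernel)
           (CovZ.n2 (-2789, 10497) (by decide +kernel)
            (CovZ.leaf K3_ok TY_l1102 _)
            (CovZ.leaf K3_ok TY_l1103 _))
           (CovZ.n1 (-2789, 10499) (by decide +kernel)
            (CovZ.leaf K3_ok TY_l1104 _)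
            (CovZ.leaf K3_ok TY_l1105 _)))
          (CovZ.n1 (-2790, 10496) (by decide +kernel)
           (CovZ.leaf K3_ok TY_l1106 _)
           (CovZ.n1 (-2789, 10497) (by decide +kernel)
            (CovZ.leaf K3_ok TY_l1107 _)
            (CovZ.leaf K3_ok TY_l1108 _))))
         (CovZ.n1 (-2786, 10498) (by decide +kernel)
          (CovZ.n2 (-2786, 10496) (by decide +kernel)
           (CovZ.n2 (-2787, 10497) (by decide +kernel)
            (CovZ.leaf K3_ok TY_l1109 _)
            (CovZ.leaf K3_ok TY_l1110 _))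
           (CovZ.n1 (-2785, 10497) (by decide +kernel)
            (CovZ.leaf K3_ok TY_l1111 _)
            (CovZ.leaf K3_ok TY_l1112 _)))
          (CovZ.n1 (-2788, 10498) (by decide +kernel)
           (CovZ.leaf K3_ok TY_l1113 _)
           (CovZ.leaf K3_ok TY_l1114 _))))
        (CovZ.n1 (-2792, 10500) (by decide +kernel)
         (CovZ.n2 (-2790, 10502) (by decide +kernel)
          (CovZ.n2 (-2790, 10500) (by decide +kernel)
           (CovZ.n2 (-2791, 10501) (by decide +kernel)
            (CovZ.leaf K3_ok TY_l1115 _)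
            (CovZ.n1 (-2791, 10500) (by decide +kernel)
             (CovZ.leaf K3_ok TY_l1116 _)
             (CovZ.leaf K3_ok TY_l1117 _)))
           (CovZ.n1 (-2789, 10501) (by decide +kernel)
            (CovZ.leaf K3_ok TY_l1118 _)
            (CovZ.leaf K3_ok TY_l1119 _)))
          (CovZ.n1 (-2792, 10502) (by decide +kernel)
           (CovZ.n2 (-2791, 10503) (by decide +kernel)
            (CovZ.leaf K3_ok TY_l1120 _)
            (CovZ.badM (by decide +kernel)))
           (CovZ.n1 (-2791, 10501) (by decide +kernel)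
            (CovZ.leaf K2_ok TY_l1121 _)
            (CovZ.n1 (-2791, 10502) (by decide +kernel)
             (CovZ.leaf K3_ok TY_l1122 _)
             (CovZ.leaf K3_ok TY_l1123 _)))))
         (CovZ.n1 (-2790, 10498) (by decide +kernel)
          (CovZ.n2 (-2792, 10498) (by decide +kernel)
           (CovZ.n2 (-2791, 10499) (by decide +kernel)
            (CovZ.leaf K3_ok TY_l1124 _)
            (CovZ.leaf K3_ok TY_l1125 _))
           (CovZ.n1 (-2791, 10497) (by decide +kernel)
            (CovZ.leaf K2_ok TY_l1126 _)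
            (CovZ.leaf K3_ok TY_l1127 _)))
          (CovZ.n1 (-2790, 10500) (by decide +kernel)
           (CovZ.leaf K3_ok TY_l1128 _)
           (CovZ.n1 (-2791, 10499) (by decide +kernel)
            (CovZ.n2 (-2791, 10500) (by decide +kernel)
             (CovZ.leaf K3_ok TY_l1129 _)
             (CovZ.leaf K3_ok TY_l1130 _))
            (CovZ.leaf K2_ok TY_l1131 _)))))))
      (CovZ.badM (by decide +kernel))))))
    (CovZ.topM TY_LL 0 (by decide +kernel) (CovZ.badM (by decide +kernel)))

theorem TY_s1_6 : SqZ TY_M TY_L [0, 7, 4, 3] (-2816) 10304 32 1 6 :=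
  SqZ.mk (a := (-2784)) (b := (-2752)) (c := 10496) (d := 10528) (by norm_num) (by norm_num) (by norm_num) (by norm_num)
    (CovZ.topM TY_LL 7 (by decide +kernel) (CovZ.n2 (-2768, 10512) (by decide +kernel)
    TY_u22
    TY_u23))
    (CovZ.topM TY_LL 7 (by decide +kernel) (CovZ.n0 (-2768, 10512) (by decide +kernel)
    (CovZ.n2 (-2784, 10512) (by decide +kernel)
     TY_u24
     TY_u25)
    (CovZ.n1 (-2768, 10528) (by decide +kernel)
     TY_u26
     TY_u27)))

theorem TY_s2_6 : SqZ TY_M TY_L [0, 7, 4, 3] (-2816) 10304 32 2 6 :=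
  SqZ.mk (a := (-2752)) (b := (-2720)) (c := 10496) (d := 10528) (by norm_num) (by norm_num) (by norm_num) (by norm_num)
    (CovZ.topM TY_LL 7 (by decide +kernel) (CovZ.n2 (-2736, 10512) (by decide +kernel)
    (CovZ.n2 (-2720, 10512) (by decide +kernel)
     (CovZ.n2 (-2728, 10504) (by decide +kernel)
      (CovZ.n2 (-2728, 10512) (by decide +kernel)
       (CovZ.n2 (-2724, 10508) (by decide +kernel)
        (CovZ.n2 (-2728, 10508) (by decide +kernel)
         (CovZ.n2 (-2726, 10510) (by decide +kernel)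
          (CovZ.leaf K3_ok TY_l2733 _)
          (CovZ.leaf K2_ok TY_l2734 _))
         (CovZ.leaf K3_ok TY_l2735 _))
        (CovZ.n1 (-2724, 10512) (by decide +kernel)
         (CovZ.leaf K2_ok TY_l2736 _)
         (CovZ.n1 (-2726, 10510) (by decide +kernel)
          (CovZ.leaf K2_ok TY_l2737 _)
          (CovZ.leaf K2_ok TY_l2738 _))))
       (CovZ.n1 (-2732, 10508) (by decide +kernel)
        (CovZ.n2 (-2732, 10512) (by decide +kernel)
         (CovZ.leaf K3_ok TY_l2739 _)
         (CovZ.n1 (-2734, 10510) (by decide +kernel)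
          (CovZ.leaf K3_ok TY_l2740 _)
          (CovZ.leaf K2_ok TY_l2741 _)))
        (CovZ.n1 (-2728, 10508) (by decide +kernel)
         (CovZ.n2 (-2730, 10506) (by decide +kernel)
          (CovZ.leaf K2_ok TY_l2742 _)
          (CovZ.leaf K3_ok TY_l2743 _))
         (CovZ.leaf K2_ok TY_l2744 _))))
      (CovZ.n1 (-2720, 10504) (by decide +kernel)
       (CovZ.n2 (-2724, 10500) (by decide +kernel)
        (CovZ.n2 (-2724, 10504) (by decide +kernel)
         (CovZ.leaf K2_ok TY_l2745 _)
         (CovZ.n1 (-2726, 10502) (by decide +kernel)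
          (CovZ.leaf K2_ok TY_l2746 _)
          (CovZ.leaf K3_ok TY_l2747 _)))
        (CovZ.n1 (-2720, 10500) (by decide +kernel)
         (CovZ.leaf K3_ok TY_l2748 _)
         (CovZ.leaf K2_ok TY_l2749 _)))
       (CovZ.n1 (-2724, 10508) (by decide +kernel)
        (CovZ.n2 (-2720, 10508) (by decide +kernel)
         (CovZ.n2 (-2722, 10506) (by decide +kernel)
          (CovZ.leaf K2_ok TY_l2750 _)
          (CovZ.leaf K3_ok TY_l2751 _))
         (CovZ.leaf K2_ok TY_l2752 _))
        (CovZ.n1 (-2724, 10504) (by decide +kernel)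
         (CovZ.leaf K2_ok TY_l2753 _)
         (CovZ.n1 (-2722, 10506) (by decide +kernel)
          (CovZ.leaf K3_ok TY_l2754 _)
          (CovZ.leaf K3_ok TY_l2755 _))))))
     (CovZ.n1 (-2728, 10520) (by decide +kernel)
      (CovZ.n2 (-2720, 10520) (by decide +kernel)
       (CovZ.n2 (-2724, 10516) (by decide +kernel)
        (CovZ.n2 (-2724, 10520) (by decide +kernel)
         (CovZ.leaf K2_ok TY_l2756 _)
         (CovZ.n1 (-2726, 10518) (by decide +kernel)
          (CovZ.leaf K3_ok TY_l2757 _)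
          (CovZ.leaf K2_ok TY_l2758 _)))
        (CovZ.n1 (-2720, 10516) (by decide +kernel)
         (CovZ.n2 (-2722, 10514) (by decide +kernel)
          (CovZ.leaf K2_ok TY_l2759 _)
          (CovZ.leaf K2_ok TY_l2760 _))
         (CovZ.leaf K3_ok TY_l2761 _)))
       (CovZ.n1 (-2724, 10524) (by decide +kernel)
        (CovZ.n2 (-2720, 10524) (by decide +kernel)
         (CovZ.n2 (-2722, 10522) (by decide +kernel)
          (CovZ.leaf K2_ok TY_l2762 _)
          (CovZ.leaf K3_ok TY_l2763 _))
         (CovZ.n1 (-2722, 10526) (by decide +kernel)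
          (CovZ.leaf K3_ok TY_l2764 _)
          (CovZ.n1 (-2722, 10524) (by decide +kernel)
           (CovZ.leaf K3_ok TY_l2765 _)
           (CovZ.leaf K3_ok TY_l2766 _))))
        (CovZ.n1 (-2724, 10520) (by decide +kernel)
         (CovZ.n2 (-2726, 10522) (by decide +kernel)
          (CovZ.leaf K2_ok TY_l2767 _)
          (CovZ.leaf K2_ok TY_l2768 _))
         (CovZ.n1 (-2722, 10522) (by decide +kernel)
          (CovZ.leaf K2_ok TY_l2769 _)
          (CovZ.leaf K3_ok TY_l2770 _)))))
      (CovZ.n1 (-2728, 10512) (by decide +kernel)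
       (CovZ.n2 (-2732, 10516) (by decide +kernel)
        (CovZ.n2 (-2728, 10516) (by decide +kernel)
         (CovZ.n2 (-2730, 10514) (by decide +kernel)
          (CovZ.leaf K3_ok TY_l2771 _)
          (CovZ.leaf K3_ok TY_l2772 _))
         (CovZ.n1 (-2730, 10518) (by decide +kernel)
          (CovZ.leaf K3_ok TY_l2773 _)
          (CovZ.leaf K2_ok TY_l2774 _)))
        (CovZ.n1 (-2732, 10512) (by decide +kernel)
         (CovZ.n2 (-2734, 10514) (by decide +kernel)
          (CovZ.leaf K3_ok TY_l2775 _)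
          (CovZ.leaf K3_ok TY_l2776 _))
         (CovZ.n1 (-2730, 10514) (by decide +kernel)
          (CovZ.leaf K3_ok TY_l2777 _)
          (CovZ.leaf K3_ok TY_l2778 _))))
       (CovZ.n1 (-2724, 10516) (by decide +kernel)
        (CovZ.n2 (-2724, 10512) (by decide +kernel)
         (CovZ.leaf K3_ok TY_l2779 _)
         (CovZ.n1 (-2722, 10514) (by decide +kernel)
          (CovZ.leaf K2_ok TY_l2780 _)
          (CovZ.leaf K2_ok TY_l2781 _)))
        (CovZ.n1 (-2728, 10516) (by decide +kernel)
         (CovZ.n2 (-2726, 10518) (by decide +kernel)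
          (CovZ.leaf K2_ok TY_l2782 _)
          (CovZ.leaf K3_ok TY_l2783 _))
         (CovZ.leaf K2_ok TY_l2784 _))))))
    (CovZ.n1 (-2736, 10496) (by decide +kernel)
     (CovZ.n2 (-2744, 10504) (by decide +kernel)
      (CovZ.n2 (-2736, 10504) (by decide +kernel)
       (CovZ.n2 (-2740, 10500) (by decide +kernel)
        (CovZ.n2 (-2740, 10504) (by decide +kernel)
         (CovZ.leaf K3_ok TY_l2785 _)
         (CovZ.n1 (-2742, 10502) (by decide +kernel)
          (CovZ.leaf K3_ok TY_l2786 _)
          (CovZ.leaf K3_ok TY_l2787 _)))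
        (CovZ.n1 (-2736, 10500) (by decide +kernel)
         (CovZ.n2 (-2738, 10498) (by decide +kernel)
          (CovZ.leaf K2_ok TY_l2788 _)
          (CovZ.leaf K2_ok TY_l2789 _))
         (CovZ.leaf K2_ok TY_l2790 _)))
       (CovZ.n1 (-2740, 10508) (by decide +kernel)
        (CovZ.n2 (-2736, 10508) (by decide +kernel)
         (CovZ.n2 (-2738, 10506) (by decide +kernel)
          (CovZ.leaf K3_ok TY_l2791 _)
          (CovZ.leaf K2_ok TY_l2792 _))
         (CovZ.n1 (-2738, 10510) (by decide +kernel)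
          (CovZ.leaf K3_ok TY_l2793 _)
          (CovZ.leaf K3_ok TY_l2794 _)))
        (CovZ.n1 (-2740, 10504) (by decide +kernel)
         (CovZ.n2 (-2742, 10506) (by decide +kernel)
          (CovZ.leaf K2_ok TY_l2795 _)
          (CovZ.leaf K3_ok TY_l2796 _))
         (CovZ.n1 (-2738, 10506) (by decide +kernel)
          (CovZ.leaf K2_ok TY_l2797 _)
          (CovZ.leaf K2_ok TY_l2798 _)))))
      (CovZ.n1 (-2744, 10496) (by decide +kernel)
       (CovZ.n2 (-2748, 10500) (by decide +kernel)
        (CovZ.n2 (-2744, 10500) (by decide +kernel)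
         (CovZ.n2 (-2746, 10498) (by decide +kernel)
          (CovZ.leaf K3_ok TY_l2799 _)
          (CovZ.leaf K2_ok TY_l2800 _))
         (CovZ.n1 (-2746, 10502) (by decide +kernel)
          (CovZ.leaf K2_ok TY_l2801 _)
          (CovZ.leaf K2_ok TY_l2802 _)))
        (CovZ.n1 (-2748, 10496) (by decide +kernel)
         (CovZ.n2 (-2750, 10498) (by decide +kernel)
          (CovZ.leaf K3_ok TY_l2803 _)
          (CovZ.leaf K3_ok TY_l2804 _))
         (CovZ.n1 (-2746, 10498) (by decide +kernel)
          (CovZ.leaf K3_ok TY_l2805 _)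
          (CovZ.leaf K2_ok TY_l2806 _))))
       (CovZ.n1 (-2740, 10500) (by decide +kernel)
        (CovZ.n2 (-2740, 10496) (by decide +kernel)
         (CovZ.n2 (-2742, 10498) (by decide +kernel)
          (CovZ.leaf K3_ok TY_l2807 _)
          (CovZ.leaf K3_ok TY_l2808 _))
         (CovZ.n1 (-2738, 10498) (by decide +kernel)
          (CovZ.leaf K2_ok TY_l2809 _)
          (CovZ.leaf K2_ok TY_l2810 _)))
        (CovZ.n1 (-2744, 10500) (by decide +kernel)
         (CovZ.n2 (-2742, 10502) (by decide +kernel)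
          (CovZ.n2 (-2742, 10500) (by decide +kernel)
           (CovZ.leaf K3_ok TY_l2811 _)
           (CovZ.leaf K2_ok TY_l2812 _))
          (CovZ.leaf K2_ok TY_l2813 _))
         (CovZ.leaf K3_ok TY_l2814 _)))))
     (CovZ.n1 (-2728, 10504) (by decide +kernel)
      (CovZ.n2 (-2728, 10496) (by decide +kernel)
       (CovZ.n2 (-2732, 10500) (by decide +kernel)
        (CovZ.n2 (-2728, 10500) (by decide +kernel)
         (CovZ.n2 (-2730, 10498) (by decide +kernel)
          (CovZ.leaf K3_ok TY_l2815 _)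
          (CovZ.leaf K2_ok TY_l2816 _))
         (CovZ.leaf K3_ok TY_l2817 _))
        (CovZ.n1 (-2732, 10496) (by decide +kernel)
         (CovZ.n2 (-2734, 10498) (by decide +kernel)
          (CovZ.n2 (-2732, 10498) (by decide +kernel)
           (CovZ.leaf K3_ok TY_l2818 _)
           (CovZ.leaf K2_ok TY_l2819 _))
          (CovZ.leaf K2_ok TY_l2820 _))
         (CovZ.n1 (-2730, 10498) (by decide +kernel)
          (CovZ.leaf K2_ok TY_l2821 _)
          (CovZ.leaf K3_ok TY_l2822 _))))
       (CovZ.n1 (-2724, 10500) (by decide +kernel)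
        (CovZ.n2 (-2724, 10496) (by decide +kernel)
         (CovZ.leaf K2_ok TY_l2823 _)
         (CovZ.leaf K2_ok TY_l2824 _))
        (CovZ.n1 (-2728, 10500) (by decide +kernel)
         (CovZ.leaf K2_ok TY_l2825 _)
         (CovZ.leaf K2_ok TY_l2826 _))))
      (CovZ.n1 (-2736, 10504) (by decide +kernel)
       (CovZ.n2 (-2732, 10508) (by decide +kernel)
        (CovZ.n2 (-2732, 10504) (by decide +kernel)
         (CovZ.n2 (-2734, 10506) (by decide +kernel)
          (CovZ.leaf K3_ok TY_l2827 _)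
          (CovZ.leaf K3_ok TY_l2828 _))
         (CovZ.n1 (-2730, 10506) (by decide +kernel)
          (CovZ.leaf K3_ok TY_l2829 _)
          (CovZ.leaf K3_ok TY_l2830 _)))
        (CovZ.n1 (-2736, 10508) (by decide +kernel)
         (CovZ.n2 (-2734, 10510) (by decide +kernel)
          (CovZ.leaf K3_ok TY_l2831 _)
          (CovZ.leaf K3_ok TY_l2832 _))
         (CovZ.leaf K2_ok TY_l2833 _)))
       (CovZ.n1 (-2732, 10500) (by decide +kernel)
        (CovZ.n2 (-2736, 10500) (by decide +kernel)
         (CovZ.n2 (-2734, 10502) (by decide +kernel)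
          (CovZ.leaf K2_ok TY_l2834 _)
          (CovZ.leaf K2_ok TY_l2835 _))
         (CovZ.leaf K3_ok TY_l2836 _))
        (CovZ.n1 (-2732, 10504) (by decide +kernel)
         (CovZ.leaf K2_ok TY_l2837 _)
         (CovZ.n1 (-2734, 10502) (by decide +kernel)
          (CovZ.leaf K2_ok TY_l2838 _)
          (CovZ.leaf K3_ok TY_l2839 _)))))))))
    (CovZ.topM TY_LL 7 (by decide +kernel) (CovZ.n0 (-2736, 10512) (by decide +kernel)
    TY_u28
    TY_u29))

theorem TY_s3_6 : SqZ TY_M TY_L [0, 7, 4, 3] (-2816) 10304 32 3 6 :=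
  SqZ.mk (a := (-2720)) (b := (-2688)) (c := 10496) (d := 10528) (by norm_num) (by norm_num) (by norm_num) (by norm_num)
    (CovZ.topM TY_LL 7 (by decide +kernel) (CovZ.n2 (-2704, 10512) (by decide +kernel)
    (CovZ.n2 (-2688, 10512) (by decide +kernel)
     (CovZ.n2 (-2696, 10504) (by decide +kernel)
      (CovZ.n2 (-2696, 10512) (by decide +kernel)
       (CovZ.n2 (-2692, 10508) (by decide +kernel)
        (CovZ.n2 (-2696, 10508) (by decide +kernel)
         (CovZ.leaf K3_ok TY_l3887 _)
         (CovZ.leaf K3_ok TY_l3888 _))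
        (CovZ.leaf K3_ok TY_l3889 _))
       (CovZ.n1 (-2700, 10508) (by decide +kernel)
        (CovZ.n2 (-2700, 10512) (by decide +kernel)
         (CovZ.leaf K2_ok TY_l3890 _)
         (CovZ.n1 (-2702, 10510) (by decide +kernel)
          (CovZ.leaf K3_ok TY_l3891 _)
          (CovZ.leaf K2_ok TY_l3892 _)))
        (CovZ.leaf K3_ok TY_l3893 _)))
      (CovZ.n1 (-2688, 10504) (by decide +kernel)
       (CovZ.n2 (-2692, 10500) (by decide +kernel)
        (CovZ.leaf K2_ok TY_l3894 _)
        (CovZ.leaf K3_ok TY_l3895 _))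
       (CovZ.n1 (-2692, 10508) (by decide +kernel)
        (CovZ.leaf K3_ok TY_l3896 _)
        (CovZ.n1 (-2692, 10504) (by decide +kernel)
         (CovZ.leaf K3_ok TY_l3897 _)
         (CovZ.leaf K3_ok TY_l3898 _)))))
     (CovZ.n1 (-2696, 10520) (by decide +kernel)
      (CovZ.n2 (-2688, 10520) (by decide +kernel)
       (CovZ.n2 (-2692, 10516) (by decide +kernel)
        (CovZ.n2 (-2692, 10520) (by decide +kernel)
         (CovZ.leaf K3_ok TY_l3899 _)
         (CovZ.leaf K3_ok TY_l3900 _))
        (CovZ.n1 (-2688, 10516) (by decide +kernel)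
         (CovZ.leaf K2_ok TY_l3901 _)
         (CovZ.leaf K3_ok TY_l3902 _)))
       (CovZ.n1 (-2692, 10524) (by decide +kernel)
        (CovZ.n2 (-2688, 10524) (by decide +kernel)
         (CovZ.leaf K3_ok TY_l3903 _)
         (CovZ.leaf K3_ok TY_l3904 _))
        (CovZ.n1 (-2692, 10520) (by decide +kernel)
         (CovZ.leaf K3_ok TY_l3905 _)
         (CovZ.leaf K2_ok TY_l3906 _))))
      (CovZ.n1 (-2696, 10512) (by decide +kernel)
       (CovZ.n2 (-2700, 10516) (by decide +kernel)
        (CovZ.n2 (-2696, 10516) (by decide +kernel)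
         (CovZ.leaf K2_ok TY_l3907 _)
         (CovZ.leaf K2_ok TY_l3908 _))
        (CovZ.n1 (-2700, 10512) (by decide +kernel)
         (CovZ.leaf K2_ok TY_l3909 _)
         (CovZ.leaf K3_ok TY_l3910 _)))
       (CovZ.n1 (-2692, 10516) (by decide +kernel)
        (CovZ.n2 (-2692, 10512) (by decide +kernel)
         (CovZ.leaf K3_ok TY_l3911 _)
         (CovZ.leaf K3_ok TY_l3912 _))
        (CovZ.leaf K3_ok TY_l3913 _)))))
    (CovZ.n1 (-2704, 10496) (by decide +kernel)
     (CovZ.n2 (-2712, 10504) (by decide +kernel)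
      (CovZ.n2 (-2704, 10504) (by decide +kernel)
       (CovZ.n2 (-2708, 10500) (by decide +kernel)
        (CovZ.n2 (-2708, 10504) (by decide +kernel)
         (CovZ.leaf K3_ok TY_l3914 _)
         (CovZ.n1 (-2710, 10502) (by decide +kernel)
          (CovZ.leaf K3_ok TY_l3915 _)
          (CovZ.leaf K2_ok TY_l3916 _)))
        (CovZ.leaf K3_ok TY_l3917 _))
       (CovZ.n1 (-2708, 10508) (by decide +kernel)
        (CovZ.leaf K2_ok TY_l3918 _)
        (CovZ.n1 (-2708, 10504) (by decide +kernel)
         (CovZ.leaf K2_ok TY_l3919 _)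
         (CovZ.leaf K2_ok TY_l3920 _))))
      (CovZ.n1 (-2712, 10496) (by decide +kernel)
       (CovZ.n2 (-2716, 10500) (by decide +kernel)
        (CovZ.n2 (-2712, 10500) (by decide +kernel)
         (CovZ.leaf K3_ok TY_l3921 _)
         (CovZ.leaf K3_ok TY_l3922 _))
        (CovZ.n1 (-2716, 10496) (by decide +kernel)
         (CovZ.leaf K3_ok TY_l3923 _)
         (CovZ.n1 (-2714, 10498) (by decide +kernel)
          (CovZ.leaf K2_ok TY_l3924 _)
          (CovZ.leaf K2_ok TY_l3925 _))))
       (CovZ.n1 (-2708, 10500) (by decide +kernel)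
        (CovZ.n2 (-2708, 10496) (by decide +kernel)
         (CovZ.leaf K3_ok TY_l3926 _)
         (CovZ.leaf K2_ok TY_l3927 _))
        (CovZ.leaf K2_ok TY_l3928 _))))
     (CovZ.n1 (-2696, 10504) (by decide +kernel)
      (CovZ.n2 (-2696, 10496) (by decide +kernel)
       (CovZ.n2 (-2700, 10500) (by decide +kernel)
        (CovZ.leaf K2_ok TY_l3929 _)
        (CovZ.n1 (-2700, 10496) (by decide +kernel)
         (CovZ.leaf K3_ok TY_l3930 _)
         (CovZ.leaf K3_ok TY_l3931 _)))
       (CovZ.n1 (-2692, 10500) (by decide +kernel)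
        (CovZ.n2 (-2692, 10496) (by decide +kernel)
         (CovZ.leaf K3_ok TY_l3932 _)
         (CovZ.leaf K2_ok TY_l3933 _))
        (CovZ.leaf K3_ok TY_l3934 _)))
      (CovZ.n1 (-2704, 10504) (by decide +kernel)
       (CovZ.n2 (-2700, 10508) (by decide +kernel)
        (CovZ.n2 (-2700, 10504) (by decide +kernel)
         (CovZ.leaf K3_ok TY_l3935 _)
         (CovZ.leaf K3_ok TY_l3936 _))
        (CovZ.n1 (-2704, 10508) (by decide +kernel)
         (CovZ.n2 (-2702, 10510) (by decide +kernel)
          (CovZ.leaf K3_ok TY_l3937 _)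
          (CovZ.leaf K2_ok TY_l3938 _))
         (CovZ.leaf K3_ok TY_l3939 _)))
       (CovZ.n1 (-2700, 10500) (by decide +kernel)
        (CovZ.leaf K3_ok TY_l3940 _)
        (CovZ.leaf K3_ok TY_l3941 _)))))))
    (CovZ.topM TY_LL 7 (by decide +kernel) (CovZ.n0 (-2704, 10512) (by decide +kernel)
    (CovZ.n2 (-2720, 10512) (by decide +kernel)
     (CovZ.n2 (-2712, 10520) (by decide +kernel)
      (CovZ.n2 (-2712, 10512) (by decide +kernel)
       (CovZ.n2 (-2716, 10516) (by decide +kernel)
        (CovZ.n2 (-2712, 10516) (by decide +kernel)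
         (CovZ.n2 (-2714, 10514) (by decide +kernel)
          (CovZ.leaf K3_ok TY_l3942 _)
          (CovZ.leaf K2_ok TY_l3943 _))
         (CovZ.n1 (-2714, 10518) (by decide +kernel)
          (CovZ.leaf K2_ok TY_l3944 _)
          (CovZ.leaf K3_ok TY_l3945 _)))
        (CovZ.n1 (-2716, 10512) (by decide +kernel)
         (CovZ.n2 (-2718, 10514) (by decide +kernel)
          (CovZ.leaf K3_ok TY_l3946 _)
          (CovZ.leaf K2_ok TY_l3947 _))
         (CovZ.leaf K3_ok TY_l3948 _)))
       (CovZ.n1 (-2708, 10516) (by decide +kernel)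
        (CovZ.n2 (-2708, 10512) (by decide +kernel)
         (CovZ.n2 (-2710, 10514) (by decide +kernel)
          (CovZ.leaf K2_ok TY_l3949 _)
          (CovZ.leaf K2_ok TY_l3950 _))
         (CovZ.leaf K2_ok TY_l3951 _))
        (CovZ.n1 (-2712, 10516) (by decide +kernel)
         (CovZ.leaf K3_ok TY_l3952 _)
         (CovZ.leaf K2_ok TY_l3953 _))))
      (CovZ.n1 (-2720, 10520) (by decide +kernel)
       (CovZ.n2 (-2716, 10524) (by decide +kernel)
        (CovZ.n2 (-2716, 10520) (by decide +kernel)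
         (CovZ.leaf K3_ok TY_l3954 _)
         (CovZ.n1 (-2714, 10522) (by decide +kernel)
          (CovZ.leaf K3_ok TY_l3955 _)
          (CovZ.leaf K2_ok TY_l3956 _)))
        (CovZ.n1 (-2720, 10524) (by decide +kernel)
         (CovZ.n2 (-2718, 10526) (by decide +kernel)
          (CovZ.leaf K2_ok TY_l3957 _)
          (CovZ.leaf K2_ok TY_l3958 _))
         (CovZ.leaf K2_ok TY_l3959 _)))
       (CovZ.n1 (-2716, 10516) (by decide +kernel)
        (CovZ.n2 (-2720, 10516) (by decide +kernel)
         (CovZ.n2 (-2718, 10518) (by decide +kernel)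
          (CovZ.leaf K2_ok TY_l3960 _)
          (CovZ.leaf K2_ok TY_l3961 _))
         (CovZ.n1 (-2718, 10514) (by decide +kernel)
          (CovZ.leaf K3_ok TY_l3962 _)
          (CovZ.leaf K3_ok TY_l3963 _)))
        (CovZ.n1 (-2716, 10520) (by decide +kernel)
         (CovZ.leaf K3_ok TY_l3964 _)
         (CovZ.n1 (-2718, 10518) (by decide +kernel)
          (CovZ.leaf K2_ok TY_l3965 _)
          (CovZ.leaf K2_ok TY_l3966 _))))))
     (CovZ.n1 (-2712, 10504) (by decide +kernel)
      (CovZ.n2 (-2720, 10504) (by decide +kernel)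
       (CovZ.n2 (-2716, 10508) (by decide +kernel)
        (CovZ.n2 (-2716, 10504) (by decide +kernel)
         (CovZ.leaf K2_ok TY_l3967 _)
         (CovZ.n1 (-2714, 10506) (by decide +kernel)
          (CovZ.leaf K2_ok TY_l3968 _)
          (CovZ.leaf K3_ok TY_l3969 _)))
        (CovZ.n1 (-2720, 10508) (by decide +kernel)
         (CovZ.n2 (-2718, 10510) (by decide +kernel)
          (CovZ.leaf K2_ok TY_l3970 _)
          (CovZ.leaf K2_ok TY_l3971 _))
         (CovZ.leaf K3_ok TY_l3972 _)))
       (CovZ.n1 (-2716, 10500) (by decide +kernel)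
        (CovZ.n2 (-2720, 10500) (by decide +kernel)
         (CovZ.n2 (-2718, 10502) (by decide +kernel)
          (CovZ.leaf K2_ok TY_l3973 _)
          (CovZ.leaf K2_ok TY_l3974 _))
         (CovZ.leaf K2_ok TY_l3975 _))
        (CovZ.n1 (-2716, 10504) (by decide +kernel)
         (CovZ.leaf K3_ok TY_l3976 _)
         (CovZ.n1 (-2718, 10502) (by decide +kernel)
          (CovZ.leaf K2_ok TY_l3977 _)
          (CovZ.leaf K2_ok TY_l3978 _)))))
      (CovZ.n1 (-2712, 10512) (by decide +kernel)
       (CovZ.n2 (-2708, 10508) (by decide +kernel)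
        (CovZ.n2 (-2712, 10508) (by decide +kernel)
         (CovZ.leaf K3_ok TY_l3979 _)
         (CovZ.leaf K3_ok TY_l3980 _))
        (CovZ.n1 (-2708, 10512) (by decide +kernel)
         (CovZ.leaf K2_ok TY_l3981 _)
         (CovZ.leaf K3_ok TY_l3982 _)))
       (CovZ.n1 (-2716, 10508) (by decide +kernel)
        (CovZ.n2 (-2716, 10512) (by decide +kernel)
         (CovZ.leaf K2_ok TY_l3983 _)
         (CovZ.n1 (-2718, 10510) (by decide +kernel)
          (CovZ.leaf K3_ok TY_l3984 _)
          (CovZ.leaf K3_ok TY_l3985 _)))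
        (CovZ.n1 (-2712, 10508) (by decide +kernel)
         (CovZ.n2 (-2714, 10506) (by decide +kernel)
          (CovZ.leaf K2_ok TY_l3986 _)
          (CovZ.leaf K2_ok TY_l3987 _))
         (CovZ.leaf K3_ok TY_l3988 _))))))
    (CovZ.n1 (-2704, 10528) (by decide +kernel)
     (CovZ.n2 (-2696, 10520) (by decide +kernel)
      (CovZ.n2 (-2704, 10520) (by decide +kernel)
       (CovZ.n2 (-2700, 10524) (by decide +kernel)
        (CovZ.n2 (-2700, 10520) (by decide +kernel)
         (CovZ.leaf K3_ok TY_l3989 _)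
         (CovZ.n1 (-2698, 10522) (by decide +kernel)
          (CovZ.leaf K3_ok TY_l3990 _)
          (CovZ.leaf K3_ok TY_l3991 _)))
        (CovZ.n1 (-2704, 10524) (by decide +kernel)
         (CovZ.n2 (-2702, 10526) (by decide +kernel)
          (CovZ.leaf K2_ok TY_l3992 _)
          (CovZ.leaf K3_ok TY_l3993 _))
         (CovZ.leaf K3_ok TY_l3994 _)))
       (CovZ.n1 (-2700, 10516) (by decide +kernel)
        (CovZ.n2 (-2704, 10516) (by decide +kernel)
         (CovZ.leaf K3_ok TY_l3995 _)
         (CovZ.leaf K3_ok TY_l3996 _))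
        (CovZ.n1 (-2700, 10520) (by decide +kernel)
         (CovZ.leaf K3_ok TY_l3997 _)
         (CovZ.n1 (-2702, 10518) (by decide +kernel)
          (CovZ.leaf K2_ok TY_l3998 _)
          (CovZ.leaf K3_ok TY_l3999 _)))))
      (CovZ.n1 (-2696, 10528) (by decide +kernel)
       (CovZ.n2 (-2692, 10524) (by decide +kernel)
        (CovZ.n2 (-2696, 10524) (by decide +kernel)
         (CovZ.leaf K3_ok TY_l4000 _)
         (CovZ.leaf K3_ok TY_l4001 _))
        (CovZ.n1 (-2692, 10528) (by decide +kernel)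
         (CovZ.leaf K3_ok TY_l4002 _)
         (CovZ.leaf K3_ok TY_l4003 _)))
       (CovZ.n1 (-2700, 10524) (by decide +kernel)
        (CovZ.n2 (-2700, 10528) (by decide +kernel)
         (CovZ.leaf K3_ok TY_l4004 _)
         (CovZ.n1 (-2702, 10526) (by decide +kernel)
          (CovZ.leaf K3_ok TY_l4005 _)
          (CovZ.leaf K3_ok TY_l4006 _)))
        (CovZ.n1 (-2696, 10524) (by decide +kernel)
         (CovZ.n2 (-2698, 10522) (by decide +kernel)
          (CovZ.leaf K2_ok TY_l4007 _)
          (CovZ.leaf K3_ok TY_l4008 _))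
         (CovZ.leaf K3_ok TY_l4009 _)))))
     (CovZ.n1 (-2712, 10520) (by decide +kernel)
      (CovZ.n2 (-2712, 10528) (by decide +kernel)
       (CovZ.n2 (-2708, 10524) (by decide +kernel)
        (CovZ.n2 (-2712, 10524) (by decide +kernel)
         (CovZ.n2 (-2710, 10526) (by decide +kernel)
          (CovZ.leaf K3_ok TY_l4010 _)
          (CovZ.leaf K3_ok TY_l4011 _))
         (CovZ.leaf K3_ok TY_l4012 _))
        (CovZ.n1 (-2708, 10528) (by decide +kernel)
         (CovZ.leaf K3_ok TY_l4013 _)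
         (CovZ.n1 (-2710, 10526) (by decide +kernel)
          (CovZ.leaf K3_ok TY_l4014 _)
          (CovZ.n1 (-2708, 10526) (by decide +kernel)
           (CovZ.leaf K3_ok TY_l4015 _)
           (CovZ.leaf K3_ok TY_l4016 _)))))
       (CovZ.n1 (-2716, 10524) (by decide +kernel)
        (CovZ.n2 (-2716, 10528) (by decide +kernel)
         (CovZ.leaf K3_ok TY_l4017 _)
         (CovZ.n1 (-2718, 10526) (by decide +kernel)
          (CovZ.leaf K3_ok TY_l4018 _)
          (CovZ.leaf K2_ok TY_l4019 _)))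
        (CovZ.n1 (-2712, 10524) (by decide +kernel)
         (CovZ.n2 (-2714, 10522) (by decide +kernel)
          (CovZ.leaf K2_ok TY_l4020 _)
          (CovZ.leaf K2_ok TY_l4021 _))
         (CovZ.leaf K3_ok TY_l4022 _))))
      (CovZ.n1 (-2704, 10520) (by decide +kernel)
       (CovZ.n2 (-2708, 10516) (by decide +kernel)
        (CovZ.n2 (-2708, 10520) (by decide +kernel)
         (CovZ.leaf K2_ok TY_l4023 _)
         (CovZ.n1 (-2710, 10518) (by decide +kernel)
          (CovZ.leaf K3_ok TY_l4024 _)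
          (CovZ.leaf K3_ok TY_l4025 _)))
        (CovZ.n1 (-2704, 10516) (by decide +kernel)
         (CovZ.n2 (-2706, 10514) (by decide +kernel)
          (CovZ.leaf K2_ok TY_l4026 _)
          (CovZ.leaf K2_ok TY_l4027 _))
         (CovZ.n1 (-2706, 10518) (by decide +kernel)
          (CovZ.leaf K2_ok TY_l4028 _)
          (CovZ.leaf K3_ok TY_l4029 _))))
       (CovZ.n1 (-2708, 10524) (by decide +kernel)
        (CovZ.n2 (-2704, 10524) (by decide +kernel)
         (CovZ.n2 (-2706, 10522) (by decide +kernel)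
          (CovZ.leaf K3_ok TY_l4030 _)
          (CovZ.leaf K3_ok TY_l4031 _))
         (CovZ.leaf K2_ok TY_l4032 _))
        (CovZ.n1 (-2708, 10520) (by decide +kernel)
         (CovZ.n2 (-2710, 10522) (by decide +kernel)
          (CovZ.leaf K3_ok TY_l4033 _)
          (CovZ.leaf K2_ok TY_l4034 _))
         (CovZ.leaf K2_ok TY_l4035 _))))))))

theorem TY_s4_6 : SqZ TY_M TY_L [0, 7, 4, 3] (-2816) 10304 32 4 6 :=
  SqZ.mk (a := (-2688)) (b := (-2656)) (c := 10496) (d := 10528) (by norm_num) (by norm_num) (by norm_num) (by norm_num)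
    (CovZ.topM TY_LL 7 (by decide +kernel) (CovZ.n2 (-2672, 10512) (by decide +kernel)
    (CovZ.n2 (-2656, 10512) (by decide +kernel)
     (CovZ.n2 (-2664, 10504) (by decide +kernel)
      (CovZ.n2 (-2664, 10512) (by decide +kernel)
       (CovZ.n2 (-2660, 10508) (by decide +kernel)
        (CovZ.leaf K3_ok TY_l5086 _)
        (CovZ.leaf K2_ok TY_l5087 _))
       (CovZ.n1 (-2668, 10508) (by decide +kernel)
        (CovZ.leaf K2_ok TY_l5088 _)
        (CovZ.leaf K3_ok TY_l5089 _)))
      (CovZ.n1 (-2656, 10504) (by decide +kernel)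
       (CovZ.n2 (-2660, 10500) (by decide +kernel)
        (CovZ.leaf K2_ok TY_l5090 _)
        (CovZ.leaf K2_ok TY_l5091 _))
       (CovZ.n1 (-2660, 10508) (by decide +kernel)
        (CovZ.leaf K3_ok TY_l5092 _)
        (CovZ.leaf K3_ok TY_l5093 _))))
     (CovZ.n1 (-2664, 10520) (by decide +kernel)
      (CovZ.n2 (-2656, 10520) (by decide +kernel)
       (CovZ.n2 (-2660, 10516) (by decide +kernel)
        (CovZ.leaf K2_ok TY_l5094 _)
        (CovZ.leaf K3_ok TY_l5095 _))
       (CovZ.n1 (-2660, 10524) (by decide +kernel)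
        (CovZ.leaf K2_ok TY_l5096 _)
        (CovZ.n1 (-2660, 10520) (by decide +kernel)
         (CovZ.leaf K3_ok TY_l5097 _)
         (CovZ.leaf K3_ok TY_l5098 _))))
      (CovZ.n1 (-2664, 10512) (by decide +kernel)
       (CovZ.n2 (-2668, 10516) (by decide +kernel)
        (CovZ.leaf K2_ok TY_l5099 _)
        (CovZ.n1 (-2668, 10512) (by decide +kernel)
         (CovZ.leaf K2_ok TY_l5100 _)
         (CovZ.leaf K2_ok TY_l5101 _)))
       (CovZ.n1 (-2660, 10516) (by decide +kernel)
        (CovZ.leaf K3_ok TY_l5102 _)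
        (CovZ.leaf K3_ok TY_l5103 _)))))
    (CovZ.n1 (-2672, 10496) (by decide +kernel)
     (CovZ.n2 (-2680, 10504) (by decide +kernel)
      (CovZ.n2 (-2672, 10504) (by decide +kernel)
       (CovZ.n2 (-2676, 10500) (by decide +kernel)
        (CovZ.leaf K3_ok TY_l5104 _)
        (CovZ.leaf K3_ok TY_l5105 _))
       (CovZ.n1 (-2676, 10508) (by decide +kernel)
        (CovZ.leaf K3_ok TY_l5106 _)
        (CovZ.n1 (-2676, 10504) (by decide +kernel)
         (CovZ.leaf K3_ok TY_l5107 _)
         (CovZ.leaf K3_ok TY_l5108 _))))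
      (CovZ.n1 (-2680, 10496) (by decide +kernel)
       (CovZ.n2 (-2684, 10500) (by decide +kernel)
        (CovZ.leaf K3_ok TY_l5109 _)
        (CovZ.leaf K3_ok TY_l5110 _))
       (CovZ.n1 (-2676, 10500) (by decide +kernel)
        (CovZ.leaf K3_ok TY_l5111 _)
        (CovZ.leaf K3_ok TY_l5112 _))))
     (CovZ.n1 (-2664, 10504) (by decide +kernel)
      (CovZ.n2 (-2664, 10496) (by decide +kernel)
       (CovZ.n2 (-2668, 10500) (by decide +kernel)
        (CovZ.leaf K3_ok TY_l5113 _)
        (CovZ.leaf K3_ok TY_l5114 _))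
       (CovZ.n1 (-2660, 10500) (by decide +kernel)
        (CovZ.n2 (-2660, 10496) (by decide +kernel)
         (CovZ.leaf K3_ok TY_l5115 _)
         (CovZ.leaf K3_ok TY_l5116 _))
        (CovZ.leaf K3_ok TY_l5117 _)))
      (CovZ.n1 (-2672, 10504) (by decide +kernel)
       (CovZ.n2 (-2668, 10508) (by decide +kernel)
        (CovZ.leaf K3_ok TY_l5118 _)
        (CovZ.leaf K2_ok TY_l5119 _))
       (CovZ.leaf K2_ok TY_l5120 _))))))
    (CovZ.topM TY_LL 7 (by decide +kernel) (CovZ.n0 (-2672, 10512) (by decide +kernel)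
    (CovZ.n2 (-2688, 10512) (by decide +kernel)
     (CovZ.n2 (-2680, 10520) (by decide +kernel)
      (CovZ.n2 (-2680, 10512) (by decide +kernel)
       (CovZ.n2 (-2684, 10516) (by decide +kernel)
        (CovZ.leaf K3_ok TY_l5121 _)
        (CovZ.n1 (-2684, 10512) (by decide +kernel)
         (CovZ.leaf K2_ok TY_l5122 _)
         (CovZ.leaf K3_ok TY_l5123 _)))
       (CovZ.n1 (-2676, 10516) (by decide +kernel)
        (CovZ.n2 (-2676, 10512) (by decide +kernel)
         (CovZ.leaf K3_ok TY_l5124 _)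
         (CovZ.leaf K2_ok TY_l5125 _))
        (CovZ.leaf K3_ok TY_l5126 _)))
      (CovZ.n1 (-2688, 10520) (by decide +kernel)
       (CovZ.n2 (-2684, 10524) (by decide +kernel)
        (CovZ.n2 (-2684, 10520) (by decide +kernel)
         (CovZ.leaf K2_ok TY_l5127 _)
         (CovZ.leaf K3_ok TY_l5128 _))
        (CovZ.n1 (-2688, 10524) (by decide +kernel)
         (CovZ.leaf K3_ok TY_l5129 _)
         (CovZ.leaf K3_ok TY_l5130 _)))
       (CovZ.n1 (-2684, 10516) (by decide +kernel)
        (CovZ.leaf K3_ok TY_l5131 _)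
        (CovZ.leaf K3_ok TY_l5132 _))))
     (CovZ.n1 (-2680, 10504) (by decide +kernel)
      (CovZ.n2 (-2688, 10504) (by decide +kernel)
       (CovZ.n2 (-2684, 10508) (by decide +kernel)
        (CovZ.n2 (-2684, 10504) (by decide +kernel)
         (CovZ.leaf K3_ok TY_l5133 _)
         (CovZ.leaf K3_ok TY_l5134 _))
        (CovZ.leaf K3_ok TY_l5135 _))
       (CovZ.n1 (-2684, 10500) (by decide +kernel)
        (CovZ.leaf K3_ok TY_l5136 _)
        (CovZ.n1 (-2684, 10504) (by decide +kernel)
         (CovZ.leaf K2_ok TY_l5137 _)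
         (CovZ.leaf K3_ok TY_l5138 _))))
      (CovZ.n1 (-2680, 10512) (by decide +kernel)
       (CovZ.n2 (-2676, 10508) (by decide +kernel)
        (CovZ.leaf K3_ok TY_l5139 _)
        (CovZ.leaf K3_ok TY_l5140 _))
       (CovZ.n1 (-2684, 10508) (by decide +kernel)
        (CovZ.leaf K3_ok TY_l5141 _)
        (CovZ.leaf K3_ok TY_l5142 _)))))
    (CovZ.n1 (-2672, 10528) (by decide +kernel)
     (CovZ.n2 (-2664, 10520) (by decide +kernel)
      (CovZ.n2 (-2672, 10520) (by decide +kernel)
       (CovZ.n2 (-2668, 10524) (by decide +kernel)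
        (CovZ.n2 (-2668, 10520) (by decide +kernel)
         (CovZ.leaf K3_ok TY_l5143 _)
         (CovZ.leaf K3_ok TY_l5144 _))
        (CovZ.n1 (-2672, 10524) (by decide +kernel)
         (CovZ.leaf K2_ok TY_l5145 _)
         (CovZ.leaf K3_ok TY_l5146 _)))
       (CovZ.n1 (-2668, 10516) (by decide +kernel)
        (CovZ.leaf K2_ok TY_l5147 _)
        (CovZ.leaf K2_ok TY_l5148 _)))
      (CovZ.n1 (-2664, 10528) (by decide +kernel)
       (CovZ.n2 (-2660, 10524) (by decide +kernel)
        (CovZ.leaf K3_ok TY_l5149 _)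
        (CovZ.leaf K2_ok TY_l5150 _))
       (CovZ.n1 (-2668, 10524) (by decide +kernel)
        (CovZ.leaf K3_ok TY_l5151 _)
        (CovZ.leaf K2_ok TY_l5152 _))))
     (CovZ.n1 (-2680, 10520) (by decide +kernel)
      (CovZ.n2 (-2680, 10528) (by decide +kernel)
       (CovZ.n2 (-2676, 10524) (by decide +kernel)
        (CovZ.leaf K3_ok TY_l5153 _)
        (CovZ.leaf K3_ok TY_l5154 _))
       (CovZ.n1 (-2684, 10524) (by decide +kernel)
        (CovZ.n2 (-2684, 10528) (by decide +kernel)
         (CovZ.leaf K2_ok TY_l5155 _)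
         (CovZ.leaf K3_ok TY_l5156 _))
        (CovZ.n1 (-2680, 10524) (by decide +kernel)
         (CovZ.leaf K3_ok TY_l5157 _)
         (CovZ.leaf K3_ok TY_l5158 _))))
      (CovZ.n1 (-2672, 10520) (by decide +kernel)
       (CovZ.n2 (-2676, 10516) (by decide +kernel)
        (CovZ.n2 (-2676, 10520) (by decide +kernel)
         (CovZ.leaf K3_ok TY_l5159 _)
         (CovZ.leaf K3_ok TY_l5160 _))
        (CovZ.leaf K3_ok TY_l5161 _))
       (CovZ.n1 (-2676, 10524) (by decide +kernel)
        (CovZ.leaf K2_ok TY_l5162 _)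
        (CovZ.n1 (-2676, 10520) (by decide +kernel)
         (CovZ.leaf K3_ok TY_l5163 _)
         (CovZ.leaf K3_ok TY_l5164 _))))))))

theorem TY_s5_6 : SqZ TY_M TY_L [0, 7, 4, 3] (-2816) 10304 32 5 6 :=
  SqZ.mk (a := (-2656)) (b := (-2624)) (c := 10496) (d := 10528) (by norm_num) (by norm_num) (by norm_num) (by norm_num)
    (CovZ.topM TY_LL 7 (by decide +kernel) (CovZ.n2 (-2640, 10512) (by decide +kernel)
    TY_u30
    TY_u31))
    (CovZ.topM TY_LL 7 (by decide +kernel) (CovZ.n0 (-2640, 10512) (by decide +kernel)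
    (CovZ.n2 (-2656, 10512) (by decide +kernel)
     (CovZ.n2 (-2648, 10520) (by decide +kernel)
      (CovZ.n2 (-2648, 10512) (by decide +kernel)
       (CovZ.n2 (-2652, 10516) (by decide +kernel)
        (CovZ.leaf K3_ok TY_l6318 _)
        (CovZ.leaf K2_ok TY_l6319 _))
       (CovZ.n1 (-2644, 10516) (by decide +kernel)
        (CovZ.n2 (-2644, 10512) (by decide +kernel)
         (CovZ.leaf K3_ok TY_l6320 _)
         (CovZ.leaf K3_ok TY_l6321 _))
        (CovZ.leaf K2_ok TY_l6322 _)))
      (CovZ.n1 (-2656, 10520) (by decide +kernel)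
       (CovZ.n2 (-2652, 10524) (by decide +kernel)
        (CovZ.leaf K2_ok TY_l6323 _)
        (CovZ.leaf K3_ok TY_l6324 _))
       (CovZ.n1 (-2652, 10516) (by decide +kernel)
        (CovZ.leaf K3_ok TY_l6325 _)
        (CovZ.leaf K2_ok TY_l6326 _))))
     (CovZ.n1 (-2648, 10504) (by decide +kernel)
      (CovZ.n2 (-2656, 10504) (by decide +kernel)
       (CovZ.n2 (-2652, 10508) (by decide +kernel)
        (CovZ.n2 (-2652, 10504) (by decide +kernel)
         (CovZ.leaf K2_ok TY_l6327 _)
         (CovZ.leaf K2_ok TY_l6328 _))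
        (CovZ.leaf K3_ok TY_l6329 _))
       (CovZ.n1 (-2652, 10500) (by decide +kernel)
        (CovZ.leaf K3_ok TY_l6330 _)
        (CovZ.n1 (-2652, 10504) (by decide +kernel)
         (CovZ.leaf K2_ok TY_l6331 _)
         (CovZ.leaf K3_ok TY_l6332 _))))
      (CovZ.n1 (-2648, 10512) (by decide +kernel)
       (CovZ.n2 (-2644, 10508) (by decide +kernel)
        (CovZ.leaf K3_ok TY_l6333 _)
        (CovZ.n1 (-2644, 10512) (by decide +kernel)
         (CovZ.leaf K2_ok TY_l6334 _)
         (CovZ.leaf K2_ok TY_l6335 _)))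
       (CovZ.n1 (-2652, 10508) (by decide +kernel)
        (CovZ.leaf K2_ok TY_l6336 _)
        (CovZ.leaf K2_ok TY_l6337 _)))))
    (CovZ.n1 (-2640, 10528) (by decide +kernel)
     (CovZ.n2 (-2632, 10520) (by decide +kernel)
      (CovZ.n2 (-2640, 10520) (by decide +kernel)
       (CovZ.n2 (-2636, 10524) (by decide +kernel)
        (CovZ.n2 (-2636, 10520) (by decide +kernel)
         (CovZ.leaf K2_ok TY_l6338 _)
         (CovZ.leaf K2_ok TY_l6339 _))
        (CovZ.leaf K2_ok TY_l6340 _))
       (CovZ.n1 (-2636, 10516) (by decide +kernel)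
        (CovZ.leaf K2_ok TY_l6341 _)
        (CovZ.n1 (-2636, 10520) (by decide +kernel)
         (CovZ.leaf K3_ok TY_l6342 _)
         (CovZ.leaf K3_ok TY_l6343 _))))
      (CovZ.n1 (-2632, 10528) (by decide +kernel)
       (CovZ.n2 (-2628, 10524) (by decide +kernel)
        (CovZ.leaf K2_ok TY_l6344 _)
        (CovZ.n1 (-2628, 10528) (by decide +kernel)
         (CovZ.leaf K2_ok TY_l6345 _)
         (CovZ.leaf K3_ok TY_l6346 _)))
       (CovZ.n1 (-2636, 10524) (by decide +kernel)
        (CovZ.leaf K2_ok TY_l6347 _)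
        (CovZ.leaf K2_ok TY_l6348 _))))
     (CovZ.n1 (-2648, 10520) (by decide +kernel)
      (CovZ.n2 (-2648, 10528) (by decide +kernel)
       (CovZ.n2 (-2644, 10524) (by decide +kernel)
        (CovZ.leaf K3_ok TY_l6349 _)
        (CovZ.leaf K2_ok TY_l6350 _))
       (CovZ.n1 (-2652, 10524) (by decide +kernel)
        (CovZ.leaf K3_ok TY_l6351 _)
        (CovZ.leaf K3_ok TY_l6352 _)))
      (CovZ.n1 (-2640, 10520) (by decide +kernel)
       (CovZ.n2 (-2644, 10516) (by decide +kernel)
        (CovZ.leaf K2_ok TY_l6353 _)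
        (CovZ.leaf K2_ok TY_l6354 _))
       (CovZ.n1 (-2644, 10524) (by decide +kernel)
        (CovZ.leaf K2_ok TY_l6355 _)
        (CovZ.leaf K3_ok TY_l6356 _)))))))

theorem TY_s0_7 : SqZ TY_M TY_L [0, 7, 4, 3] (-2816) 10304 32 0 7 :=
  SqZ.mk (a := (-2816)) (b := (-2784)) (c := 10528) (d := 10560) (by norm_num) (by norm_num) (by norm_num) (by norm_num)
    (CovZ.topM TY_LL 0 (by decide +kernel) (CovZ.badM (by decide +kernel)))
    (CovZ.topM TY_LL 0 (by decide +kernel) (CovZ.badM (by decide +kernel)))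

theorem TY_s1_7 : SqZ TY_M TY_L [0, 7, 4, 3] (-2816) 10304 32 1 7 :=
  SqZ.mk (a := (-2784)) (b := (-2752)) (c := 10528) (d := 10560) (by norm_num) (by norm_num) (by norm_num) (by norm_num)
    (CovZ.topM TY_LL 7 (by decide +kernel) (CovZ.n2 (-2768, 10544) (by decide +kernel)
    (CovZ.n2 (-2752, 10544) (by decide +kernel)
     (CovZ.n2 (-2760, 10536) (by decide +kernel)
      (CovZ.badM (by decide +kernel))
      (CovZ.n1 (-2752, 10536) (by decide +kernel)
       (CovZ.n2 (-2756, 10532) (by decide +kernel)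
        (CovZ.badM (by decide +kernel))
        (CovZ.n1 (-2752, 10532) (by decide +kernel)
         (CovZ.n2 (-2754, 10530) (by decide +kernel)
          (CovZ.n2 (-2754, 10532) (by decide +kernel)
           (CovZ.leaf K3_ok TY_l2259 _)
           (CovZ.n1 (-2755, 10531) (by decide +kernel)
            (CovZ.leaf K2_ok TY_l2260 _)
            (CovZ.leaf K3_ok TY_l2261 _)))
          (CovZ.n1 (-2752, 10530) (by decide +kernel)
           (CovZ.n2 (-2753, 10529) (by decide +kernel)
            (CovZ.leaf K2_ok TY_l2262 _)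
            (CovZ.leaf K3_ok TY_l2263 _))
           (CovZ.leaf K2_ok TY_l2264 _)))
         (CovZ.n1 (-2754, 10534) (by decide +kernel)
          (CovZ.n2 (-2752, 10534) (by decide +kernel)
           (CovZ.n2 (-2753, 10533) (by decide +kernel)
            (CovZ.n2 (-2753, 10534) (by decide +kernel)
             (CovZ.leaf K3_ok TY_l2265 _)
             (CovZ.leaf K2_ok TY_l2266 _))
            (CovZ.leaf K3_ok TY_l2267 _))
           (CovZ.n1 (-2753, 10535) (by decide +kernel)
            (CovZ.leaf K3_ok TY_l2268 _)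
            (CovZ.leaf K3_ok TY_l2269 _)))
          (CovZ.n1 (-2754, 10532) (by decide +kernel)
           (CovZ.n2 (-2755, 10533) (by decide +kernel)
            (CovZ.leaf K3_ok TY_l2270 _)
            (CovZ.leaf K2_ok TY_l2271 _))
           (CovZ.n1 (-2753, 10533) (by decide +kernel)
            (CovZ.leaf K3_ok TY_l2272 _)
            (CovZ.leaf K3_ok TY_l2273 _))))))
       (CovZ.badM (by decide +kernel))))
     (CovZ.badM (by decide +kernel)))
    (CovZ.n1 (-2768, 10528) (by decide +kernel)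
     (CovZ.badM (by decide +kernel))
     (CovZ.n1 (-2760, 10536) (by decide +kernel)
      (CovZ.n2 (-2760, 10528) (by decide +kernel)
       (CovZ.badM (by decide +kernel))
       (CovZ.n1 (-2756, 10532) (by decide +kernel)
        (CovZ.n2 (-2756, 10528) (by decide +kernel)
         (CovZ.n2 (-2758, 10530) (by decide +kernel)
          (CovZ.n2 (-2756, 10530) (by decide +kernel)
           (CovZ.n2 (-2757, 10529) (by decide +kernel)
            (CovZ.leaf K3_ok TY_l2274 _)
            (CovZ.leaf K3_ok TY_l2275 _))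
           (CovZ.n1 (-2757, 10531) (by decide +kernel)
            (CovZ.leaf K3_ok TY_l2276 _)
            (CovZ.leaf K3_ok TY_l2277 _)))
          (CovZ.n1 (-2758, 10528) (by decide +kernel)
           (CovZ.n2 (-2759, 10529) (by decide +kernel)
            (CovZ.n2 (-2758, 10529) (by decide +kernel)
             (CovZ.leaf K3_ok TY_l2278 _)
             (CovZ.leaf K3_ok TY_l2279 _))
            (CovZ.leaf K3_ok TY_l2280 _))
           (CovZ.n1 (-2757, 10529) (by decide +kernel)
            (CovZ.leaf K2_ok TY_l2281 _)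
            (CovZ.leaf K3_ok TY_l2282 _))))
         (CovZ.n1 (-2754, 10530) (by decide +kernel)
          (CovZ.n2 (-2754, 10528) (by decide +kernel)
           (CovZ.n2 (-2755, 10529) (by decide +kernel)
            (CovZ.leaf K3_ok TY_l2283 _)
            (CovZ.leaf K3_ok TY_l2284 _))
           (CovZ.leaf K2_ok TY_l2285 _))
          (CovZ.n1 (-2756, 10530) (by decide +kernel)
           (CovZ.n2 (-2755, 10531) (by decide +kernel)
            (CovZ.leaf K3_ok TY_l2286 _)
            (CovZ.leaf K3_ok TY_l2287 _))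
           (CovZ.leaf K3_ok TY_l2288 _))))
        (CovZ.badM (by decide +kernel))))
      (CovZ.badM (by decide +kernel))))))
    (CovZ.topM TY_LL 0 (by decide +kernel) (CovZ.badM (by decide +kernel)))

theorem TY_s2_7 : SqZ TY_M TY_L [0, 7, 4, 3] (-2816) 10304 32 2 7 :=
  SqZ.mk (a := (-2752)) (b := (-2720)) (c := 10528) (d := 10560) (by norm_num) (by norm_num) (by norm_num) (by norm_num)
    (CovZ.topM TY_LL 7 (by decide +kernel) (CovZ.n2 (-2736, 10544) (by decide +kernel)
    (CovZ.n2 (-2720, 10544) (by decide +kernel)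
     TY_u32
     TY_u33)
    (CovZ.n1 (-2736, 10528) (by decide +kernel)
     TY_u34
     TY_u35)))
    (CovZ.topM TY_LL 7 (by decide +kernel) (CovZ.n0 (-2736, 10544) (by decide +kernel)
    TY_u36
    TY_u37))

theorem TY_s3_7 : SqZ TY_M TY_L [0, 7, 4, 3] (-2816) 10304 32 3 7 :=
  SqZ.mk (a := (-2720)) (b := (-2688)) (c := 10528) (d := 10560) (by norm_num) (by norm_num) (by norm_num) (by norm_num)
    (CovZ.topM TY_LL 7 (by decide +kernel) (CovZ.n2 (-2704, 10544) (by decide +kernel)
    (CovZ.n2 (-2688, 10544) (by decide +kernel)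
     (CovZ.n2 (-2696, 10536) (by decide +kernel)
      (CovZ.n2 (-2696, 10544) (by decide +kernel)
       (CovZ.n2 (-2692, 10540) (by decide +kernel)
        (CovZ.n2 (-2696, 10540) (by decide +kernel)
         (CovZ.n2 (-2694, 10542) (by decide +kernel)
          (CovZ.leaf K3_ok TY_l4036 _)
          (CovZ.leaf K3_ok TY_l4037 _))
         (CovZ.leaf K3_ok TY_l4038 _))
        (CovZ.n1 (-2692, 10544) (by decide +kernel)
         (CovZ.leaf K3_ok TY_l4039 _)
         (CovZ.n1 (-2694, 10542) (by decide +kernel)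
          (CovZ.leaf K3_ok TY_l4040 _)
          (CovZ.leaf K3_ok TY_l4041 _))))
       (CovZ.n1 (-2700, 10540) (by decide +kernel)
        (CovZ.n2 (-2700, 10544) (by decide +kernel)
         (CovZ.leaf K3_ok TY_l4042 _)
         (CovZ.n1 (-2702, 10542) (by decide +kernel)
          (CovZ.leaf K3_ok TY_l4043 _)
          (CovZ.leaf K3_ok TY_l4044 _)))
        (CovZ.n1 (-2696, 10540) (by decide +kernel)
         (CovZ.n2 (-2698, 10538) (by decide +kernel)
          (CovZ.leaf K3_ok TY_l4045 _)
          (CovZ.leaf K2_ok TY_l4046 _))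
         (CovZ.n1 (-2698, 10542) (by decide +kernel)
          (CovZ.leaf K3_ok TY_l4047 _)
          (CovZ.leaf K3_ok TY_l4048 _)))))
      (CovZ.n1 (-2688, 10536) (by decide +kernel)
       (CovZ.n2 (-2692, 10532) (by decide +kernel)
        (CovZ.n2 (-2692, 10536) (by decide +kernel)
         (CovZ.leaf K3_ok TY_l4049 _)
         (CovZ.n1 (-2694, 10534) (by decide +kernel)
          (CovZ.leaf K3_ok TY_l4050 _)
          (CovZ.leaf K3_ok TY_l4051 _)))
        (CovZ.n1 (-2688, 10532) (by decide +kernel)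
         (CovZ.n2 (-2690, 10530) (by decide +kernel)
          (CovZ.leaf K3_ok TY_l4052 _)
          (CovZ.leaf K3_ok TY_l4053 _))
         (CovZ.leaf K3_ok TY_l4054 _)))
       (CovZ.n1 (-2692, 10540) (by decide +kernel)
        (CovZ.n2 (-2688, 10540) (by decide +kernel)
         (CovZ.n2 (-2690, 10538) (by decide +kernel)
          (CovZ.leaf K3_ok TY_l4055 _)
          (CovZ.leaf K3_ok TY_l4056 _))
         (CovZ.n1 (-2690, 10542) (by decide +kernel)
          (CovZ.leaf K3_ok TY_l4057 _)
          (CovZ.leaf K3_ok TY_l4058 _)))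
        (CovZ.n1 (-2692, 10536) (by decide +kernel)
         (CovZ.leaf K3_ok TY_l4059 _)
         (CovZ.n1 (-2690, 10538) (by decide +kernel)
          (CovZ.leaf K3_ok TY_l4060 _)
          (CovZ.leaf K3_ok TY_l4061 _))))))
     (CovZ.n1 (-2696, 10552) (by decide +kernel)
      (CovZ.n2 (-2688, 10552) (by decide +kernel)
       (CovZ.n2 (-2692, 10548) (by decide +kernel)
        (CovZ.n2 (-2692, 10552) (by decide +kernel)
         (CovZ.leaf K3_ok TY_l4062 _)
         (CovZ.n1 (-2694, 10550) (by decide +kernel)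
          (CovZ.leaf K3_ok TY_l4063 _)
          (CovZ.leaf K3_ok TY_l4064 _)))
        (CovZ.n1 (-2688, 10548) (by decide +kernel)
         (CovZ.n2 (-2690, 10546) (by decide +kernel)
          (CovZ.leaf K3_ok TY_l4065 _)
          (CovZ.leaf K3_ok TY_l4066 _))
         (CovZ.n1 (-2690, 10550) (by decide +kernel)
          (CovZ.leaf K3_ok TY_l4067 _)
          (CovZ.leaf K3_ok TY_l4068 _))))
       (CovZ.n1 (-2692, 10556) (by decide +kernel)
        (CovZ.n2 (-2688, 10556) (by decide +kernel)
         (CovZ.n2 (-2690, 10554) (by decide +kernel)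
          (CovZ.leaf K3_ok TY_l4069 _)
          (CovZ.leaf K3_ok TY_l4070 _))
         (CovZ.n1 (-2690, 10558) (by decide +kernel)
          (CovZ.leaf K3_ok TY_l4071 _)
          (CovZ.leaf K3_ok TY_l4072 _)))
        (CovZ.n1 (-2692, 10552) (by decide +kernel)
         (CovZ.n2 (-2694, 10554) (by decide +kernel)
          (CovZ.leaf K3_ok TY_l4073 _)
          (CovZ.leaf K3_ok TY_l4074 _))
         (CovZ.n1 (-2690, 10554) (by decide +kernel)
          (CovZ.leaf K2_ok TY_l4075 _)
          (CovZ.leaf K3_ok TY_l4076 _)))))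
      (CovZ.n1 (-2696, 10544) (by decide +kernel)
       (CovZ.n2 (-2700, 10548) (by decide +kernel)
        (CovZ.n2 (-2696, 10548) (by decide +kernel)
         (CovZ.n2 (-2698, 10546) (by decide +kernel)
          (CovZ.leaf K3_ok TY_l4077 _)
          (CovZ.leaf K3_ok TY_l4078 _))
         (CovZ.n1 (-2698, 10550) (by decide +kernel)
          (CovZ.leaf K3_ok TY_l4079 _)
          (CovZ.leaf K3_ok TY_l4080 _)))
        (CovZ.n1 (-2700, 10544) (by decide +kernel)
         (CovZ.n2 (-2702, 10546) (by decide +kernel)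
          (CovZ.leaf K3_ok TY_l4081 _)
          (CovZ.n1 (-2702, 10544) (by decide +kernel)
           (CovZ.leaf K3_ok TY_l4082 _)
           (CovZ.leaf K3_ok TY_l4083 _)))
         (CovZ.n1 (-2698, 10546) (by decide +kernel)
          (CovZ.leaf K3_ok TY_l4084 _)
          (CovZ.leaf K3_ok TY_l4085 _))))
       (CovZ.n1 (-2692, 10548) (by decide +kernel)
        (CovZ.n2 (-2692, 10544) (by decide +kernel)
         (CovZ.n2 (-2694, 10546) (by decide +kernel)
          (CovZ.leaf K3_ok TY_l4086 _)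
          (CovZ.leaf K3_ok TY_l4087 _))
         (CovZ.n1 (-2690, 10546) (by decide +kernel)
          (CovZ.leaf K3_ok TY_l4088 _)
          (CovZ.leaf K2_ok TY_l4089 _)))
        (CovZ.n1 (-2696, 10548) (by decide +kernel)
         (CovZ.n2 (-2694, 10550) (by decide +kernel)
          (CovZ.leaf K3_ok TY_l4090 _)
          (CovZ.leaf K3_ok TY_l4091 _))
         (CovZ.leaf K3_ok TY_l4092 _))))))
    (CovZ.n1 (-2704, 10528) (by decide +kernel)
     (CovZ.n2 (-2712, 10536) (by decide +kernel)
      (CovZ.n2 (-2704, 10536) (by decide +kernel)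
       (CovZ.n2 (-2708, 10532) (by decide +kernel)
        (CovZ.n2 (-2708, 10536) (by decide +kernel)
         (CovZ.leaf K3_ok TY_l4093 _)
         (CovZ.n1 (-2710, 10534) (by decide +kernel)
          (CovZ.leaf K3_ok TY_l4094 _)
          (CovZ.leaf K3_ok TY_l4095 _)))
        (CovZ.n1 (-2704, 10532) (by decide +kernel)
         (CovZ.n2 (-2706, 10530) (by decide +kernel)
          (CovZ.leaf K3_ok TY_l4096 _)
          (CovZ.leaf K2_ok TY_l4097 _))
         (CovZ.leaf K3_ok TY_l4098 _)))
       (CovZ.n1 (-2708, 10540) (by decide +kernel)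
        (CovZ.n2 (-2704, 10540) (by decide +kernel)
         (CovZ.n2 (-2706, 10538) (by decide +kernel)
          (CovZ.leaf K3_ok TY_l4099 _)
          (CovZ.leaf K3_ok TY_l4100 _))
         (CovZ.n1 (-2706, 10542) (by decide +kernel)
          (CovZ.leaf K3_ok TY_l4101 _)
          (CovZ.leaf K3_ok TY_l4102 _)))
        (CovZ.n1 (-2708, 10536) (by decide +kernel)
         (CovZ.n2 (-2710, 10538) (by decide +kernel)
          (CovZ.leaf K3_ok TY_l4103 _)
          (CovZ.leaf K3_ok TY_l4104 _))
         (CovZ.n1 (-2706, 10538) (by decide +kernel)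
          (CovZ.leaf K3_ok TY_l4105 _)
          (CovZ.leaf K3_ok TY_l4106 _)))))
      (CovZ.n1 (-2712, 10528) (by decide +kernel)
       (CovZ.n2 (-2716, 10532) (by decide +kernel)
        (CovZ.n2 (-2712, 10532) (by decide +kernel)
         (CovZ.n2 (-2714, 10530) (by decide +kernel)
          (CovZ.leaf K3_ok TY_l4107 _)
          (CovZ.leaf K3_ok TY_l4108 _))
         (CovZ.n1 (-2714, 10534) (by decide +kernel)
          (CovZ.leaf K3_ok TY_l4109 _)
          (CovZ.leaf K3_ok TY_l4110 _)))
        (CovZ.n1 (-2716, 10528) (by decide +kernel)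
         (CovZ.n2 (-2718, 10530) (by decide +kernel)
          (CovZ.leaf K3_ok TY_l4111 _)
          (CovZ.n1 (-2718, 10528) (by decide +kernel)
           (CovZ.leaf K3_ok TY_l4112 _)
           (CovZ.leaf K3_ok TY_l4113 _)))
         (CovZ.n1 (-2714, 10530) (by decide +kernel)
          (CovZ.leaf K3_ok TY_l4114 _)
          (CovZ.leaf K2_ok TY_l4115 _))))
       (CovZ.n1 (-2708, 10532) (by decide +kernel)
        (CovZ.n2 (-2708, 10528) (by decide +kernel)
         (CovZ.n2 (-2710, 10530) (by decide +kernel)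
          (CovZ.leaf K3_ok TY_l4116 _)
          (CovZ.leaf K3_ok TY_l4117 _))
         (CovZ.n1 (-2706, 10530) (by decide +kernel)
          (CovZ.n2 (-2706, 10528) (by decide +kernel)
           (CovZ.leaf K3_ok TY_l4118 _)
           (CovZ.leaf K3_ok TY_l4119 _))
          (CovZ.leaf K3_ok TY_l4120 _)))
        (CovZ.n1 (-2712, 10532) (by decide +kernel)
         (CovZ.n2 (-2710, 10534) (by decide +kernel)
          (CovZ.leaf K2_ok TY_l4121 _)
          (CovZ.leaf K3_ok TY_l4122 _))
         (CovZ.leaf K2_ok TY_l4123 _)))))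
     (CovZ.n1 (-2696, 10536) (by decide +kernel)
      (CovZ.n2 (-2696, 10528) (by decide +kernel)
       (CovZ.n2 (-2700, 10532) (by decide +kernel)
        (CovZ.n2 (-2696, 10532) (by decide +kernel)
         (CovZ.n2 (-2698, 10530) (by decide +kernel)
          (CovZ.leaf K3_ok TY_l4124 _)
          (CovZ.leaf K3_ok TY_l4125 _))
         (CovZ.leaf K3_ok TY_l4126 _))
        (CovZ.n1 (-2700, 10528) (by decide +kernel)
         (CovZ.leaf K3_ok TY_l4127 _)
         (CovZ.n1 (-2698, 10530) (by decide +kernel)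
          (CovZ.leaf K3_ok TY_l4128 _)
          (CovZ.leaf K2_ok TY_l4129 _))))
       (CovZ.n1 (-2692, 10532) (by decide +kernel)
        (CovZ.n2 (-2692, 10528) (by decide +kernel)
         (CovZ.leaf K3_ok TY_l4130 _)
         (CovZ.n1 (-2690, 10530) (by decide +kernel)
          (CovZ.leaf K3_ok TY_l4131 _)
          (CovZ.leaf K3_ok TY_l4132 _)))
        (CovZ.n1 (-2696, 10532) (by decide +kernel)
         (CovZ.n2 (-2694, 10534) (by decide +kernel)
          (CovZ.leaf K3_ok TY_l4133 _)
          (CovZ.leaf K3_ok TY_l4134 _))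
         (CovZ.leaf K3_ok TY_l4135 _))))
      (CovZ.n1 (-2704, 10536) (by decide +kernel)
       (CovZ.n2 (-2700, 10540) (by decide +kernel)
        (CovZ.n2 (-2700, 10536) (by decide +kernel)
         (CovZ.n2 (-2702, 10538) (by decide +kernel)
          (CovZ.n2 (-2700, 10538) (by decide +kernel)
           (CovZ.leaf K3_ok TY_l4136 _)
           (CovZ.leaf K3_ok TY_l4137 _))
          (CovZ.leaf K3_ok TY_l4138 _))
         (CovZ.n1 (-2698, 10538) (by decide +kernel)
          (CovZ.leaf K2_ok TY_l4139 _)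
          (CovZ.leaf K3_ok TY_l4140 _)))
        (CovZ.n1 (-2704, 10540) (by decide +kernel)
         (CovZ.n2 (-2702, 10542) (by decide +kernel)
          (CovZ.n2 (-2702, 10540) (by decide +kernel)
           (CovZ.leaf K2_ok TY_l4141 _)
           (CovZ.leaf K3_ok TY_l4142 _))
          (CovZ.n1 (-2704, 10542) (by decide +kernel)
           (CovZ.leaf K3_ok TY_l4143 _)
           (CovZ.leaf K3_ok TY_l4144 _)))
         (CovZ.n1 (-2702, 10538) (by decide +kernel)
          (CovZ.leaf K3_ok TY_l4145 _)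
          (CovZ.leaf K3_ok TY_l4146 _))))
       (CovZ.n1 (-2700, 10532) (by decide +kernel)
        (CovZ.n2 (-2704, 10532) (by decide +kernel)
         (CovZ.n2 (-2702, 10534) (by decide +kernel)
          (CovZ.leaf K3_ok TY_l4147 _)
          (CovZ.leaf K3_ok TY_l4148 _))
         (CovZ.leaf K3_ok TY_l4149 _))
        (CovZ.n1 (-2700, 10536) (by decide +kernel)
         (CovZ.leaf K2_ok TY_l4150 _)
         (CovZ.n1 (-2702, 10534) (by decide +kernel)
          (CovZ.leaf K3_ok TY_l4151 _)
          (CovZ.leaf K3_ok TY_l4152 _)))))))))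
    (CovZ.topM TY_LL 7 (by decide +kernel) (CovZ.n0 (-2704, 10544) (by decide +kernel)
    TY_u38
    TY_u39))

end Pool.Agent.TET
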