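import Pool.Agent.Helper38_TET.TY_M
import Pool.Agent.Helper38_TET.TY_L
import Pool.Agent.Helper38_TET.TY_22
import Pool.Agent.Helper38_TET.TY_23
import Pool.Agent.Helper38_TET.TY_31
import Pool.Agent.Helper38_TET.TY_34
import Pool.Agent.Helper38_TET.TY_35
import Pool.Agent.Helper38_TET.TY_36
import Pool.Agent.Helper38_TET.TY_37
import Pool.Agent.Helper38_TET.TY_42
import Pool.Agent.Helper38_TET.TY_43
import Pool.Agent.Helper38_TET.TY_44
import Pool.Agent.Helper38_TET.TY_U2
import Pool.Agent.Helper38_TET.TY_U3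

/-!
# MP_c7c9bf_co: certificates, family TY
-/

set_option autoImplicit false
set_option maxRecDepth 100000

namespace Pool.Agent.TET

theorem TY_s4_7 : SqZ TY_M TY_L [0, 7, 4, 3] (-2816) 10304 32 4 7 :=
  SqZ.mk (a := (-2688)) (b := (-2656)) (c := 10528) (d := 10560) (by norm_num) (by norm_num) (by norm_num) (by norm_num)
    (CovZ.topM TY_LL 7 (by decide +kernel) (CovZ.n2 (-2672, 10544) (by decide +kernel)
    (CovZ.n2 (-2656, 10544) (by decide +kernel)
     (CovZ.n2 (-2664, 10536) (by decide +kernel)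
      (CovZ.n2 (-2664, 10544) (by decide +kernel)
       (CovZ.n2 (-2660, 10540) (by decide +kernel)
        (CovZ.leaf K3_ok TY_l5165 _)
        (CovZ.n1 (-2660, 10544) (by decide +kernel)
         (CovZ.leaf K2_ok TY_l5166 _)
         (CovZ.n1 (-2662, 10542) (by decide +kernel)
          (CovZ.leaf K3_ok TY_l5167 _)
          (CovZ.leaf K2_ok TY_l5168 _))))
       (CovZ.n1 (-2668, 10540) (by decide +kernel)
        (CovZ.n2 (-2668, 10544) (by decide +kernel)
         (CovZ.leaf K2_ok TY_l5169 _)
         (CovZ.n1 (-2670, 10542) (by decide +kernel)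
          (CovZ.leaf K3_ok TY_l5170 _)
          (CovZ.leaf K2_ok TY_l5171 _)))
        (CovZ.n1 (-2664, 10540) (by decide +kernel)
         (CovZ.leaf K3_ok TY_l5172 _)
         (CovZ.leaf K2_ok TY_l5173 _))))
      (CovZ.n1 (-2656, 10536) (by decide +kernel)
       (CovZ.n2 (-2660, 10532) (by decide +kernel)
        (CovZ.leaf K2_ok TY_l5174 _)
        (CovZ.leaf K2_ok TY_l5175 _))
       (CovZ.n1 (-2660, 10540) (by decide +kernel)
        (CovZ.n2 (-2656, 10540) (by decide +kernel)
         (CovZ.leaf K3_ok TY_l5176 _)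
         (CovZ.leaf K3_ok TY_l5177 _))
        (CovZ.n1 (-2660, 10536) (by decide +kernel)
         (CovZ.leaf K2_ok TY_l5178 _)
         (CovZ.leaf K2_ok TY_l5179 _)))))
     (CovZ.n1 (-2664, 10552) (by decide +kernel)
      (CovZ.n2 (-2656, 10552) (by decide +kernel)
       (CovZ.n2 (-2660, 10548) (by decide +kernel)
        (CovZ.n2 (-2660, 10552) (by decide +kernel)
         (CovZ.leaf K3_ok TY_l5180 _)
         (CovZ.n1 (-2662, 10550) (by decide +kernel)
          (CovZ.leaf K2_ok TY_l5181 _)
          (CovZ.leaf K3_ok TY_l5182 _)))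
        (CovZ.n1 (-2656, 10548) (by decide +kernel)
         (CovZ.leaf K2_ok TY_l5183 _)
         (CovZ.leaf K3_ok TY_l5184 _)))
       (CovZ.n1 (-2660, 10556) (by decide +kernel)
        (CovZ.n2 (-2656, 10556) (by decide +kernel)
         (CovZ.n2 (-2658, 10554) (by decide +kernel)
          (CovZ.leaf K3_ok TY_l5185 _)
          (CovZ.leaf K3_ok TY_l5186 _))
         (CovZ.n1 (-2658, 10558) (by decide +kernel)
          (CovZ.leaf K3_ok TY_l5187 _)
          (CovZ.leaf K3_ok TY_l5188 _)))
        (CovZ.n1 (-2660, 10552) (by decide +kernel)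
         (CovZ.leaf K3_ok TY_l5189 _)
         (CovZ.leaf K3_ok TY_l5190 _))))
      (CovZ.n1 (-2664, 10544) (by decide +kernel)
       (CovZ.n2 (-2668, 10548) (by decide +kernel)
        (CovZ.n2 (-2664, 10548) (by decide +kernel)
         (CovZ.n2 (-2666, 10546) (by decide +kernel)
          (CovZ.leaf K3_ok TY_l5191 _)
          (CovZ.leaf K3_ok TY_l5192 _))
         (CovZ.leaf K3_ok TY_l5193 _))
        (CovZ.n1 (-2668, 10544) (by decide +kernel)
         (CovZ.n2 (-2670, 10546) (by decide +kernel)
          (CovZ.leaf K3_ok TY_l5194 _)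
          (CovZ.leaf K3_ok TY_l5195 _))
         (CovZ.leaf K3_ok TY_l5196 _)))
       (CovZ.n1 (-2660, 10548) (by decide +kernel)
        (CovZ.n2 (-2660, 10544) (by decide +kernel)
         (CovZ.leaf K2_ok TY_l5197 _)
         (CovZ.leaf K3_ok TY_l5198 _))
        (CovZ.n1 (-2664, 10548) (by decide +kernel)
         (CovZ.leaf K3_ok TY_l5199 _)
         (CovZ.leaf K3_ok TY_l5200 _))))))
    (CovZ.n1 (-2672, 10528) (by decide +kernel)
     (CovZ.n2 (-2680, 10536) (by decide +kernel)
      (CovZ.n2 (-2672, 10536) (by decide +kernel)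
       (CovZ.n2 (-2676, 10532) (by decide +kernel)
        (CovZ.leaf K3_ok TY_l5201 _)
        (CovZ.n1 (-2672, 10532) (by decide +kernel)
         (CovZ.leaf K2_ok TY_l5202 _)
         (CovZ.leaf K3_ok TY_l5203 _)))
       (CovZ.n1 (-2676, 10540) (by decide +kernel)
        (CovZ.n2 (-2672, 10540) (by decide +kernel)
         (CovZ.n2 (-2674, 10538) (by decide +kernel)
          (CovZ.leaf K2_ok TY_l5204 _)
          (CovZ.leaf K3_ok TY_l5205 _))
         (CovZ.leaf K3_ok TY_l5206 _))
        (CovZ.n1 (-2676, 10536) (by decide +kernel)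
         (CovZ.leaf K3_ok TY_l5207 _)
         (CovZ.leaf K3_ok TY_l5208 _))))
      (CovZ.n1 (-2680, 10528) (by decide +kernel)
       (CovZ.n2 (-2684, 10532) (by decide +kernel)
        (CovZ.n2 (-2680, 10532) (by decide +kernel)
         (CovZ.n2 (-2682, 10530) (by decide +kernel)
          (CovZ.leaf K3_ok TY_l5209 _)
          (CovZ.leaf K3_ok TY_l5210 _))
         (CovZ.leaf K3_ok TY_l5211 _))
        (CovZ.n1 (-2684, 10528) (by decide +kernel)
         (CovZ.leaf K3_ok TY_l5212 _)
         (CovZ.leaf K3_ok TY_l5213 _)))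
       (CovZ.n1 (-2676, 10532) (by decide +kernel)
        (CovZ.n2 (-2676, 10528) (by decide +kernel)
         (CovZ.leaf K3_ok TY_l5214 _)
         (CovZ.leaf K3_ok TY_l5215 _))
        (CovZ.leaf K3_ok TY_l5216 _))))
     (CovZ.n1 (-2664, 10536) (by decide +kernel)
      (CovZ.n2 (-2664, 10528) (by decide +kernel)
       (CovZ.n2 (-2668, 10532) (by decide +kernel)
        (CovZ.leaf K3_ok TY_l5217 _)
        (CovZ.n1 (-2668, 10528) (by decide +kernel)
         (CovZ.leaf K3_ok TY_l5218 _)
         (CovZ.leaf K3_ok TY_l5219 _)))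
       (CovZ.n1 (-2660, 10532) (by decide +kernel)
        (CovZ.n2 (-2660, 10528) (by decide +kernel)
         (CovZ.leaf K2_ok TY_l5220 _)
         (CovZ.leaf K2_ok TY_l5221 _))
        (CovZ.leaf K2_ok TY_l5222 _)))
      (CovZ.n1 (-2672, 10536) (by decide +kernel)
       (CovZ.n2 (-2668, 10540) (by decide +kernel)
        (CovZ.n2 (-2668, 10536) (by decide +kernel)
         (CovZ.leaf K3_ok TY_l5223 _)
         (CovZ.leaf K3_ok TY_l5224 _))
        (CovZ.n1 (-2672, 10540) (by decide +kernel)
         (CovZ.leaf K3_ok TY_l5225 _)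
         (CovZ.leaf K3_ok TY_l5226 _)))
       (CovZ.n1 (-2668, 10532) (by decide +kernel)
        (CovZ.leaf K3_ok TY_l5227 _)
        (CovZ.leaf K3_ok TY_l5228 _)))))))
    (CovZ.topM TY_LL 7 (by decide +kernel) (CovZ.n0 (-2672, 10544) (by decide +kernel)
    (CovZ.n2 (-2688, 10544) (by decide +kernel)
     (CovZ.n2 (-2680, 10552) (by decide +kernel)
      (CovZ.n2 (-2680, 10544) (by decide +kernel)
       (CovZ.n2 (-2684, 10548) (by decide +kernel)
        (CovZ.n2 (-2680, 10548) (by decide +kernel)
         (CovZ.n2 (-2682, 10546) (by decide +kernel)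
          (CovZ.leaf K3_ok TY_l5229 _)
          (CovZ.leaf K3_ok TY_l5230 _))
         (CovZ.n1 (-2682, 10550) (by decide +kernel)
          (CovZ.leaf K3_ok TY_l5231 _)
          (CovZ.leaf K3_ok TY_l5232 _)))
        (CovZ.n1 (-2684, 10544) (by decide +kernel)
         (CovZ.leaf K2_ok TY_l5233 _)
         (CovZ.n1 (-2682, 10546) (by decide +kernel)
          (CovZ.leaf K3_ok TY_l5234 _)
          (CovZ.leaf K3_ok TY_l5235 _))))
       (CovZ.n1 (-2676, 10548) (by decide +kernel)
        (CovZ.n2 (-2676, 10544) (by decide +kernel)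
         (CovZ.leaf K3_ok TY_l5236 _)
         (CovZ.n1 (-2674, 10546) (by decide +kernel)
          (CovZ.leaf K2_ok TY_l5237 _)
          (CovZ.leaf K3_ok TY_l5238 _)))
        (CovZ.n1 (-2680, 10548) (by decide +kernel)
         (CovZ.n2 (-2678, 10550) (by decide +kernel)
          (CovZ.leaf K3_ok TY_l5239 _)
          (CovZ.leaf K3_ok TY_l5240 _))
         (CovZ.leaf K3_ok TY_l5241 _))))
      (CovZ.n1 (-2688, 10552) (by decide +kernel)
       (CovZ.n2 (-2684, 10556) (by decide +kernel)
        (CovZ.n2 (-2684, 10552) (by decide +kernel)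
         (CovZ.n2 (-2686, 10554) (by decide +kernel)
          (CovZ.leaf K2_ok TY_l5242 _)
          (CovZ.leaf K3_ok TY_l5243 _))
         (CovZ.n1 (-2682, 10554) (by decide +kernel)
          (CovZ.leaf K3_ok TY_l5244 _)
          (CovZ.leaf K3_ok TY_l5245 _)))
        (CovZ.n1 (-2688, 10556) (by decide +kernel)
         (CovZ.n2 (-2686, 10558) (by decide +kernel)
          (CovZ.leaf K3_ok TY_l5246 _)
          (CovZ.leaf K3_ok TY_l5247 _))
         (CovZ.leaf K2_ok TY_l5248 _)))
       (CovZ.n1 (-2684, 10548) (by decide +kernel)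
        (CovZ.n2 (-2688, 10548) (by decide +kernel)
         (CovZ.n2 (-2686, 10550) (by decide +kernel)
          (CovZ.leaf K2_ok TY_l5249 _)
          (CovZ.leaf K3_ok TY_l5250 _))
         (CovZ.leaf K2_ok TY_l5251 _))
        (CovZ.n1 (-2684, 10552) (by decide +kernel)
         (CovZ.leaf K3_ok TY_l5252 _)
         (CovZ.n1 (-2686, 10550) (by decide +kernel)
          (CovZ.leaf K3_ok TY_l5253 _)
          (CovZ.leaf K3_ok TY_l5254 _))))))
     (CovZ.n1 (-2680, 10536) (by decide +kernel)
      (CovZ.n2 (-2688, 10536) (by decide +kernel)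
       (CovZ.n2 (-2684, 10540) (by decide +kernel)
        (CovZ.n2 (-2684, 10536) (by decide +kernel)
         (CovZ.leaf K3_ok TY_l5255 _)
         (CovZ.leaf K3_ok TY_l5256 _))
        (CovZ.n1 (-2688, 10540) (by decide +kernel)
         (CovZ.n2 (-2686, 10542) (by decide +kernel)
          (CovZ.leaf K3_ok TY_l5257 _)
          (CovZ.leaf K3_ok TY_l5258 _))
         (CovZ.leaf K3_ok TY_l5259 _)))
       (CovZ.n1 (-2684, 10532) (by decide +kernel)
        (CovZ.n2 (-2688, 10532) (by decide +kernel)
         (CovZ.n2 (-2686, 10534) (by decide +kernel)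
          (CovZ.leaf K3_ok TY_l5260 _)
          (CovZ.leaf K3_ok TY_l5261 _))
         (CovZ.leaf K3_ok TY_l5262 _))
        (CovZ.n1 (-2684, 10536) (by decide +kernel)
         (CovZ.leaf K3_ok TY_l5263 _)
         (CovZ.leaf K3_ok TY_l5264 _))))
      (CovZ.n1 (-2680, 10544) (by decide +kernel)
       (CovZ.n2 (-2676, 10540) (by decide +kernel)
        (CovZ.n2 (-2680, 10540) (by decide +kernel)
         (CovZ.n2 (-2678, 10542) (by decide +kernel)
          (CovZ.leaf K3_ok TY_l5265 _)
          (CovZ.leaf K3_ok TY_l5266 _))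
         (CovZ.leaf K2_ok TY_l5267 _))
        (CovZ.n1 (-2676, 10544) (by decide +kernel)
         (CovZ.leaf K3_ok TY_l5268 _)
         (CovZ.n1 (-2678, 10542) (by decide +kernel)
          (CovZ.leaf K3_ok TY_l5269 _)
          (CovZ.leaf K3_ok TY_l5270 _))))
       (CovZ.n1 (-2684, 10540) (by decide +kernel)
        (CovZ.n2 (-2684, 10544) (by decide +kernel)
         (CovZ.leaf K3_ok TY_l5271 _)
         (CovZ.n1 (-2686, 10542) (by decide +kernel)
          (CovZ.leaf K3_ok TY_l5272 _)
          (CovZ.leaf K3_ok TY_l5273 _)))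
        (CovZ.n1 (-2680, 10540) (by decide +kernel)
         (CovZ.n2 (-2682, 10538) (by decide +kernel)
          (CovZ.leaf K3_ok TY_l5274 _)
          (CovZ.leaf K2_ok TY_l5275 _))
         (CovZ.leaf K3_ok TY_l5276 _))))))
    (CovZ.n1 (-2672, 10560) (by decide +kernel)
     (CovZ.n2 (-2664, 10552) (by decide +kernel)
      (CovZ.n2 (-2672, 10552) (by decide +kernel)
       (CovZ.n2 (-2668, 10556) (by decide +kernel)
        (CovZ.n2 (-2668, 10552) (by decide +kernel)
         (CovZ.leaf K2_ok TY_l5277 _)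
         (CovZ.n1 (-2666, 10554) (by decide +kernel)
          (CovZ.leaf K3_ok TY_l5278 _)
          (CovZ.leaf K3_ok TY_l5279 _)))
        (CovZ.n1 (-2672, 10556) (by decide +kernel)
         (CovZ.n2 (-2670, 10558) (by decide +kernel)
          (CovZ.leaf K3_ok TY_l5280 _)
          (CovZ.leaf K2_ok TY_l5281 _))
         (CovZ.leaf K3_ok TY_l5282 _)))
       (CovZ.n1 (-2668, 10548) (by decide +kernel)
        (CovZ.n2 (-2672, 10548) (by decide +kernel)
         (CovZ.n2 (-2670, 10550) (by decide +kernel)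
          (CovZ.leaf K3_ok TY_l5283 _)
          (CovZ.leaf K3_ok TY_l5284 _))
         (CovZ.leaf K3_ok TY_l5285 _))
        (CovZ.n1 (-2668, 10552) (by decide +kernel)
         (CovZ.leaf K3_ok TY_l5286 _)
         (CovZ.n1 (-2670, 10550) (by decide +kernel)
          (CovZ.leaf K3_ok TY_l5287 _)
          (CovZ.leaf K3_ok TY_l5288 _)))))
      (CovZ.n1 (-2664, 10560) (by decide +kernel)
       (CovZ.n2 (-2660, 10556) (by decide +kernel)
        (CovZ.n2 (-2664, 10556) (by decide +kernel)
         (CovZ.leaf K3_ok TY_l5289 _)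
         (CovZ.leaf K3_ok TY_l5290 _))
        (CovZ.n1 (-2660, 10560) (by decide +kernel)
         (CovZ.leaf K3_ok TY_l5291 _)
         (CovZ.n1 (-2662, 10558) (by decide +kernel)
          (CovZ.leaf K3_ok TY_l5292 _)
          (CovZ.leaf K3_ok TY_l5293 _))))
       (CovZ.n1 (-2668, 10556) (by decide +kernel)
        (CovZ.n2 (-2668, 10560) (by decide +kernel)
         (CovZ.leaf K3_ok TY_l5294 _)
         (CovZ.n1 (-2670, 10558) (by decide +kernel)
          (CovZ.leaf K3_ok TY_l5295 _)
          (CovZ.leaf K3_ok TY_l5296 _)))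
        (CovZ.n1 (-2664, 10556) (by decide +kernel)
         (CovZ.n2 (-2666, 10554) (by decide +kernel)
          (CovZ.leaf K2_ok TY_l5297 _)
          (CovZ.leaf K3_ok TY_l5298 _))
         (CovZ.leaf K3_ok TY_l5299 _)))))
     (CovZ.n1 (-2680, 10552) (by decide +kernel)
      (CovZ.n2 (-2680, 10560) (by decide +kernel)
       (CovZ.n2 (-2676, 10556) (by decide +kernel)
        (CovZ.n2 (-2680, 10556) (by decide +kernel)
         (CovZ.n2 (-2678, 10558) (by decide +kernel)
          (CovZ.leaf K3_ok TY_l5300 _)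
          (CovZ.leaf K3_ok TY_l5301 _))
         (CovZ.leaf K3_ok TY_l5302 _))
        (CovZ.n1 (-2676, 10560) (by decide +kernel)
         (CovZ.n2 (-2674, 10558) (by decide +kernel)
          (CovZ.leaf K2_ok TY_l5303 _)
          (CovZ.leaf K3_ok TY_l5304 _))
         (CovZ.n1 (-2678, 10558) (by decide +kernel)
          (CovZ.leaf K3_ok TY_l5305 _)
          (CovZ.leaf K3_ok TY_l5306 _))))
       (CovZ.n1 (-2684, 10556) (by decide +kernel)
        (CovZ.n2 (-2684, 10560) (by decide +kernel)
         (CovZ.leaf K3_ok TY_l5307 _)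
         (CovZ.n1 (-2686, 10558) (by decide +kernel)
          (CovZ.leaf K3_ok TY_l5308 _)
          (CovZ.leaf K3_ok TY_l5309 _)))
        (CovZ.n1 (-2680, 10556) (by decide +kernel)
         (CovZ.n2 (-2682, 10554) (by decide +kernel)
          (CovZ.leaf K3_ok TY_l5310 _)
          (CovZ.leaf K2_ok TY_l5311 _))
         (CovZ.leaf K3_ok TY_l5312 _))))
      (CovZ.n1 (-2672, 10552) (by decide +kernel)
       (CovZ.n2 (-2676, 10548) (by decide +kernel)
        (CovZ.n2 (-2676, 10552) (by decide +kernel)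
         (CovZ.leaf K3_ok TY_l5313 _)
         (CovZ.n1 (-2678, 10550) (by decide +kernel)
          (CovZ.leaf K3_ok TY_l5314 _)
          (CovZ.leaf K3_ok TY_l5315 _)))
        (CovZ.n1 (-2672, 10548) (by decide +kernel)
         (CovZ.n2 (-2674, 10546) (by decide +kernel)
          (CovZ.leaf K3_ok TY_l5316 _)
          (CovZ.leaf K2_ok TY_l5317 _))
         (CovZ.leaf K2_ok TY_l5318 _)))
       (CovZ.n1 (-2676, 10556) (by decide +kernel)
        (CovZ.n2 (-2672, 10556) (by decide +kernel)
         (CovZ.n2 (-2674, 10554) (by decide +kernel)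
          (CovZ.leaf K3_ok TY_l5319 _)
          (CovZ.leaf K2_ok TY_l5320 _))
         (CovZ.n1 (-2674, 10558) (by decide +kernel)
          (CovZ.leaf K3_ok TY_l5321 _)
          (CovZ.leaf K3_ok TY_l5322 _)))
        (CovZ.n1 (-2676, 10552) (by decide +kernel)
         (CovZ.n2 (-2678, 10554) (by decide +kernel)
          (CovZ.leaf K3_ok TY_l5323 _)
          (CovZ.leaf K3_ok TY_l5324 _))
         (CovZ.n1 (-2674, 10554) (by decide +kernel)
          (CovZ.leaf K2_ok TY_l5325 _)
          (CovZ.leaf K3_ok TY_l5326 _)))))))))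

theorem TY_s5_7 : SqZ TY_M TY_L [0, 7, 4, 3] (-2816) 10304 32 5 7 :=
  SqZ.mk (a := (-2656)) (b := (-2624)) (c := 10528) (d := 10560) (by norm_num) (by norm_num) (by norm_num) (by norm_num)
    (CovZ.topM TY_LL 7 (by decide +kernel) (CovZ.n2 (-2640, 10544) (by decide +kernel)
    (CovZ.n2 (-2624, 10544) (by decide +kernel)
     (CovZ.n2 (-2632, 10536) (by decide +kernel)
      (CovZ.n2 (-2632, 10544) (by decide +kernel)
       (CovZ.leaf K3_ok TY_l6357 _)
       (CovZ.n1 (-2636, 10540) (by decide +kernel)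
        (CovZ.leaf K2_ok TY_l6358 _)
        (CovZ.leaf K3_ok TY_l6359 _)))
      (CovZ.n1 (-2624, 10536) (by decide +kernel)
       (CovZ.n2 (-2628, 10532) (by decide +kernel)
        (CovZ.leaf K2_ok TY_l6360 _)
        (CovZ.leaf K3_ok TY_l6361 _))
       (CovZ.n1 (-2628, 10540) (by decide +kernel)
        (CovZ.leaf K2_ok TY_l6362 _)
        (CovZ.leaf K2_ok TY_l6363 _))))
     (CovZ.n1 (-2632, 10552) (by decide +kernel)
      (CovZ.n2 (-2624, 10552) (by decide +kernel)
       (CovZ.n2 (-2628, 10548) (by decide +kernel)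
        (CovZ.leaf K3_ok TY_l6364 _)
        (CovZ.leaf K2_ok TY_l6365 _))
       (CovZ.n1 (-2628, 10556) (by decide +kernel)
        (CovZ.leaf K3_ok TY_l6366 _)
        (CovZ.n1 (-2628, 10552) (by decide +kernel)
         (CovZ.leaf K2_ok TY_l6367 _)
         (CovZ.leaf K3_ok TY_l6368 _))))
      (CovZ.n1 (-2632, 10544) (by decide +kernel)
       (CovZ.n2 (-2636, 10548) (by decide +kernel)
        (CovZ.leaf K2_ok TY_l6369 _)
        (CovZ.n1 (-2636, 10544) (by decide +kernel)
         (CovZ.leaf K2_ok TY_l6370 _)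
         (CovZ.leaf K2_ok TY_l6371 _)))
       (CovZ.n1 (-2628, 10548) (by decide +kernel)
        (CovZ.leaf K3_ok TY_l6372 _)
        (CovZ.leaf K2_ok TY_l6373 _)))))
    (CovZ.n1 (-2640, 10528) (by decide +kernel)
     (CovZ.n2 (-2648, 10536) (by decide +kernel)
      (CovZ.n2 (-2640, 10536) (by decide +kernel)
       (CovZ.n2 (-2644, 10532) (by decide +kernel)
        (CovZ.leaf K3_ok TY_l6374 _)
        (CovZ.leaf K2_ok TY_l6375 _))
       (CovZ.n1 (-2644, 10540) (by decide +kernel)
        (CovZ.leaf K3_ok TY_l6376 _)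
        (CovZ.n1 (-2644, 10536) (by decide +kernel)
         (CovZ.leaf K3_ok TY_l6377 _)
         (CovZ.leaf K2_ok TY_l6378 _))))
      (CovZ.n1 (-2648, 10528) (by decide +kernel)
       (CovZ.n2 (-2652, 10532) (by decide +kernel)
        (CovZ.leaf K3_ok TY_l6379 _)
        (CovZ.n1 (-2652, 10528) (by decide +kernel)
         (CovZ.leaf K2_ok TY_l6380 _)
         (CovZ.leaf K2_ok TY_l6381 _)))
       (CovZ.n1 (-2644, 10532) (by decide +kernel)
        (CovZ.leaf K3_ok TY_l6382 _)
        (CovZ.leaf K2_ok TY_l6383 _))))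
     (CovZ.n1 (-2632, 10536) (by decide +kernel)
      (CovZ.n2 (-2632, 10528) (by decide +kernel)
       (CovZ.n2 (-2636, 10532) (by decide +kernel)
        (CovZ.leaf K3_ok TY_l6384 _)
        (CovZ.leaf K3_ok TY_l6385 _))
       (CovZ.n1 (-2628, 10532) (by decide +kernel)
        (CovZ.n2 (-2628, 10528) (by decide +kernel)
         (CovZ.leaf K2_ok TY_l6386 _)
         (CovZ.leaf K2_ok TY_l6387 _))
        (CovZ.leaf K2_ok TY_l6388 _)))
      (CovZ.n1 (-2640, 10536) (by decide +kernel)
       (CovZ.n2 (-2636, 10540) (by decide +kernel)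
        (CovZ.leaf K2_ok TY_l6389 _)
        (CovZ.leaf K3_ok TY_l6390 _))
       (CovZ.n1 (-2636, 10532) (by decide +kernel)
        (CovZ.leaf K3_ok TY_l6391 _)
        (CovZ.leaf K2_ok TY_l6392 _)))))))
    (CovZ.topM TY_LL 7 (by decide +kernel) (CovZ.n0 (-2640, 10544) (by decide +kernel)
    (CovZ.n2 (-2656, 10544) (by decide +kernel)
     (CovZ.n2 (-2648, 10552) (by decide +kernel)
      (CovZ.n2 (-2648, 10544) (by decide +kernel)
       (CovZ.n2 (-2652, 10548) (by decide +kernel)
        (CovZ.leaf K3_ok TY_l6393 _)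
        (CovZ.n1 (-2652, 10544) (by decide +kernel)
         (CovZ.leaf K3_ok TY_l6394 _)
         (CovZ.leaf K2_ok TY_l6395 _)))
       (CovZ.n1 (-2644, 10548) (by decide +kernel)
        (CovZ.n2 (-2644, 10544) (by decide +kernel)
         (CovZ.leaf K3_ok TY_l6396 _)
         (CovZ.leaf K2_ok TY_l6397 _))
        (CovZ.leaf K3_ok TY_l6398 _)))
      (CovZ.n1 (-2656, 10552) (by decide +kernel)
       (CovZ.n2 (-2652, 10556) (by decide +kernel)
        (CovZ.n2 (-2652, 10552) (by decide +kernel)
         (CovZ.leaf K3_ok TY_l6399 _)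
         (CovZ.leaf K3_ok TY_l6400 _))
        (CovZ.n1 (-2656, 10556) (by decide +kernel)
         (CovZ.leaf K3_ok TY_l6401 _)
         (CovZ.leaf K2_ok TY_l6402 _)))
       (CovZ.n1 (-2652, 10548) (by decide +kernel)
        (CovZ.n2 (-2656, 10548) (by decide +kernel)
         (CovZ.leaf K2_ok TY_l6403 _)
         (CovZ.leaf K2_ok TY_l6404 _))
        (CovZ.leaf K3_ok TY_l6405 _))))
     (CovZ.n1 (-2648, 10536) (by decide +kernel)
      (CovZ.n2 (-2656, 10536) (by decide +kernel)
       (CovZ.n2 (-2652, 10540) (by decide +kernel)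
        (CovZ.n2 (-2652, 10536) (by decide +kernel)
         (CovZ.leaf K2_ok TY_l6406 _)
         (CovZ.leaf K3_ok TY_l6407 _))
        (CovZ.n1 (-2656, 10540) (by decide +kernel)
         (CovZ.leaf K3_ok TY_l6408 _)
         (CovZ.leaf K3_ok TY_l6409 _)))
       (CovZ.leaf K3_ok TY_l6410 _))
      (CovZ.n1 (-2648, 10544) (by decide +kernel)
       (CovZ.n2 (-2644, 10540) (by decide +kernel)
        (CovZ.leaf K2_ok TY_l6411 _)
        (CovZ.leaf K2_ok TY_l6412 _))
       (CovZ.n1 (-2652, 10540) (by decide +kernel)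
        (CovZ.leaf K3_ok TY_l6413 _)
        (CovZ.leaf K3_ok TY_l6414 _)))))
    (CovZ.n1 (-2640, 10560) (by decide +kernel)
     (CovZ.n2 (-2632, 10552) (by decide +kernel)
      (CovZ.n2 (-2640, 10552) (by decide +kernel)
       (CovZ.n2 (-2636, 10556) (by decide +kernel)
        (CovZ.n2 (-2636, 10552) (by decide +kernel)
         (CovZ.leaf K3_ok TY_l6415 _)
         (CovZ.leaf K3_ok TY_l6416 _))
        (CovZ.n1 (-2640, 10556) (by decide +kernel)
         (CovZ.leaf K3_ok TY_l6417 _)
         (CovZ.leaf K3_ok TY_l6418 _)))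
       (CovZ.n1 (-2636, 10548) (by decide +kernel)
        (CovZ.leaf K2_ok TY_l6419 _)
        (CovZ.leaf K3_ok TY_l6420 _)))
      (CovZ.n1 (-2632, 10560) (by decide +kernel)
       (CovZ.n2 (-2628, 10556) (by decide +kernel)
        (CovZ.leaf K3_ok TY_l6421 _)
        (CovZ.leaf K3_ok TY_l6422 _))
       (CovZ.n1 (-2636, 10556) (by decide +kernel)
        (CovZ.leaf K3_ok TY_l6423 _)
        (CovZ.leaf K3_ok TY_l6424 _))))
     (CovZ.n1 (-2648, 10552) (by decide +kernel)
      (CovZ.n2 (-2648, 10560) (by decide +kernel)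
       (CovZ.n2 (-2644, 10556) (by decide +kernel)
        (CovZ.n2 (-2648, 10556) (by decide +kernel)
         (CovZ.leaf K3_ok TY_l6425 _)
         (CovZ.leaf K3_ok TY_l6426 _))
        (CovZ.leaf K3_ok TY_l6427 _))
       (CovZ.n1 (-2652, 10556) (by decide +kernel)
        (CovZ.n2 (-2652, 10560) (by decide +kernel)
         (CovZ.leaf K3_ok TY_l6428 _)
         (CovZ.leaf K3_ok TY_l6429 _))
        (CovZ.n1 (-2648, 10556) (by decide +kernel)
         (CovZ.leaf K3_ok TY_l6430 _)
         (CovZ.leaf K3_ok TY_l6431 _))))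
      (CovZ.n1 (-2640, 10552) (by decide +kernel)
       (CovZ.n2 (-2644, 10548) (by decide +kernel)
        (CovZ.leaf K2_ok TY_l6432 _)
        (CovZ.leaf K3_ok TY_l6433 _))
       (CovZ.n1 (-2644, 10556) (by decide +kernel)
        (CovZ.n2 (-2640, 10556) (by decide +kernel)
         (CovZ.leaf K2_ok TY_l6434 _)
         (CovZ.leaf K3_ok TY_l6435 _))
        (CovZ.n1 (-2644, 10552) (by decide +kernel)
         (CovZ.leaf K3_ok TY_l6436 _)
         (CovZ.leaf K2_ok TY_l6437 _))))))))

theorem TY_s0_8 : SqZ TY_M TY_L [0, 7, 4, 3] (-2816) 10304 32 0 8 :=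
  SqZ.mk (a := (-2816)) (b := (-2784)) (c := 10560) (d := 10592) (by norm_num) (by norm_num) (by norm_num) (by norm_num)
    (CovZ.topM TY_LL 0 (by decide +kernel) (CovZ.badM (by decide +kernel)))
    (CovZ.topM TY_LL 0 (by decide +kernel) (CovZ.badM (by decide +kernel)))

theorem TY_s1_8 : SqZ TY_M TY_L [0, 7, 4, 3] (-2816) 10304 32 1 8 :=
  SqZ.mk (a := (-2784)) (b := (-2752)) (c := 10560) (d := 10592) (by norm_num) (by norm_num) (by norm_num) (by norm_num)
    (CovZ.topM TY_LL 0 (by decide +kernel) (CovZ.badM (by decide +kernel)))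
    (CovZ.topM TY_LL 0 (by decide +kernel) (CovZ.badM (by decide +kernel)))

theorem TY_s2_8 : SqZ TY_M TY_L [0, 7, 4, 3] (-2816) 10304 32 2 8 :=
  SqZ.mk (a := (-2752)) (b := (-2720)) (c := 10560) (d := 10592) (by norm_num) (by norm_num) (by norm_num) (by norm_num)
    (CovZ.topM TY_LL 2 (by decide +kernel) (CovZ.n2 (-2736, 10576) (by decide +kernel)
    (CovZ.n2 (-2720, 10576) (by decide +kernel)
     (CovZ.n2 (-2728, 10568) (by decide +kernel)
      (CovZ.badM (by decide +kernel))
      (CovZ.n1 (-2720, 10568) (by decide +kernel)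
       (CovZ.n2 (-2724, 10564) (by decide +kernel)
        (CovZ.badM (by decide +kernel))
        (CovZ.n1 (-2720, 10564) (by decide +kernel)
         (CovZ.n2 (-2722, 10562) (by decide +kernel)
          (CovZ.badM (by decide +kernel))
          (CovZ.n1 (-2720, 10562) (by decide +kernel)
           (CovZ.n2 (-2721, 10561) (by decide +kernel)
            (CovZ.leaf K3_ok TY_l3444 _)
            (CovZ.leaf K3_ok TY_l3445 _))
           (CovZ.n1 (-2721, 10563) (by decide +kernel)
            (CovZ.leaf K3_ok TY_l3446 _)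
            (CovZ.leaf K3_ok TY_l3447 _))))
         (CovZ.badM (by decide +kernel))))
       (CovZ.badM (by decide +kernel))))
     (CovZ.badM (by decide +kernel)))
    (CovZ.n1 (-2736, 10560) (by decide +kernel)
     (CovZ.badM (by decide +kernel))
     (CovZ.n1 (-2728, 10568) (by decide +kernel)
      (CovZ.n2 (-2728, 10560) (by decide +kernel)
       (CovZ.badM (by decide +kernel))
       (CovZ.n1 (-2724, 10564) (by decide +kernel)
        (CovZ.n2 (-2724, 10560) (by decide +kernel)
         (CovZ.badM (by decide +kernel))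
         (CovZ.n1 (-2722, 10562) (by decide +kernel)
          (CovZ.n2 (-2722, 10560) (by decide +kernel)
           (CovZ.leaf K3_ok TY_l3448 _)
           (CovZ.n1 (-2721, 10561) (by decide +kernel)
            (CovZ.leaf K3_ok TY_l3449 _)
            (CovZ.leaf K3_ok TY_l3450 _)))
          (CovZ.badM (by decide +kernel))))
        (CovZ.badM (by decide +kernel))))
      (CovZ.badM (by decide +kernel))))))
    (CovZ.topM TY_LL 0 (by decide +kernel) (CovZ.badM (by decide +kernel)))

theorem TY_s3_8 : SqZ TY_M TY_L [0, 7, 4, 3] (-2816) 10304 32 3 8 :=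
  SqZ.mk (a := (-2720)) (b := (-2688)) (c := 10560) (d := 10592) (by norm_num) (by norm_num) (by norm_num) (by norm_num)
    (CovZ.topM TY_LL 7 (by decide +kernel) (CovZ.n2 (-2704, 10576) (by decide +kernel)
    (CovZ.n2 (-2688, 10576) (by decide +kernel)
     TY_u40
     TY_u41)
    (CovZ.n1 (-2704, 10560) (by decide +kernel)
     TY_u42
     TY_u43)))
    (CovZ.topM TY_LL 2 (by decide +kernel) (CovZ.n0 (-2704, 10576) (by decide +kernel)
    (CovZ.n2 (-2720, 10576) (by decide +kernel)
     (CovZ.badM (by decide +kernel))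
     (CovZ.n1 (-2712, 10568) (by decide +kernel)
      (CovZ.n2 (-2720, 10568) (by decide +kernel)
       (CovZ.n2 (-2716, 10572) (by decide +kernel)
        (CovZ.n2 (-2716, 10568) (by decide +kernel)
         (CovZ.badM (by decide +kernel))
         (CovZ.n1 (-2714, 10570) (by decide +kernel)
          (CovZ.n2 (-2714, 10568) (by decide +kernel)
           (CovZ.badM (by decide +kernel))
           (CovZ.n1 (-2713, 10569) (by decide +kernel)
            (CovZ.n2 (-2713, 10568) (by decide +kernel)
             (CovZ.leaf K3_ok TY_l4708 _)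
             (CovZ.leaf K3_ok TY_l4709 _))
            (CovZ.badM (by decide +kernel))))
          (CovZ.badM (by decide +kernel))))
        (CovZ.badM (by decide +kernel)))
       (CovZ.n1 (-2716, 10564) (by decide +kernel)
        (CovZ.n2 (-2720, 10564) (by decide +kernel)
         (CovZ.n2 (-2718, 10566) (by decide +kernel)
          (CovZ.n2 (-2718, 10564) (by decide +kernel)
           (CovZ.badM (by decide +kernel))
           (CovZ.n1 (-2717, 10565) (by decide +kernel)
            (CovZ.leaf K3_ok TY_l4710 _)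
            (CovZ.badM (by decide +kernel))))
          (CovZ.badM (by decide +kernel)))
         (CovZ.n1 (-2718, 10562) (by decide +kernel)
          (CovZ.n2 (-2720, 10562) (by decide +kernel)
           (CovZ.n2 (-2719, 10563) (by decide +kernel)
            (CovZ.leaf K3_ok TY_l4711 _)
            (CovZ.leaf K3_ok TY_l4712 _))
           (CovZ.n1 (-2719, 10561) (by decide +kernel)
            (CovZ.leaf K3_ok TY_l4713 _)
            (CovZ.leaf K3_ok TY_l4714 _)))
          (CovZ.n1 (-2718, 10564) (by decide +kernel)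
           (CovZ.leaf K3_ok TY_l4715 _)
           (CovZ.n1 (-2719, 10563) (by decide +kernel)
            (CovZ.badM (by decide +kernel))
            (CovZ.leaf K3_ok TY_l4716 _)))))
        (CovZ.n1 (-2716, 10568) (by decide +kernel)
         (CovZ.n2 (-2714, 10566) (by decide +kernel)
          (CovZ.n2 (-2716, 10566) (by decide +kernel)
           (CovZ.n2 (-2715, 10567) (by decide +kernel)
            (CovZ.n2 (-2715, 10566) (by decide +kernel)
             (CovZ.leaf K3_ok TY_l4717 _)
             (CovZ.leaf K3_ok TY_l4718 _))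
            (CovZ.badM (by decide +kernel)))
           (CovZ.n1 (-2715, 10565) (by decide +kernel)
            (CovZ.leaf K3_ok TY_l4719 _)
            (CovZ.leaf K3_ok TY_l4720 _)))
          (CovZ.n1 (-2714, 10568) (by decide +kernel)
           (CovZ.n2 (-2713, 10567) (by decide +kernel)
            (CovZ.leaf K3_ok TY_l4721 _)
            (CovZ.leaf K3_ok TY_l4722 _))
           (CovZ.n1 (-2715, 10567) (by decide +kernel)
            (CovZ.badM (by decide +kernel))
            (CovZ.leaf K3_ok TY_l4723 _))))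
         (CovZ.n1 (-2718, 10566) (by decide +kernel)
          (CovZ.badM (by decide +kernel))
          (CovZ.n1 (-2716, 10566) (by decide +kernel)
           (CovZ.n2 (-2717, 10565) (by decide +kernel)
            (CovZ.badM (by decide +kernel))
            (CovZ.leaf K2_ok TY_l4724 _))
           (CovZ.badM (by decide +kernel)))))))
      (CovZ.n1 (-2712, 10576) (by decide +kernel)
       (CovZ.n2 (-2708, 10572) (by decide +kernel)
        (CovZ.n2 (-2712, 10572) (by decide +kernel)
         (CovZ.n2 (-2710, 10574) (by decide +kernel)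
          (CovZ.n2 (-2710, 10572) (by decide +kernel)
           (CovZ.badM (by decide +kernel))
           (CovZ.n1 (-2709, 10573) (by decide +kernel)
            (CovZ.leaf K3_ok TY_l4725 _)
            (CovZ.badM (by decide +kernel))))
          (CovZ.badM (by decide +kernel)))
         (CovZ.n1 (-2710, 10570) (by decide +kernel)
          (CovZ.n2 (-2712, 10570) (by decide +kernel)
           (CovZ.n2 (-2711, 10571) (by decide +kernel)
            (CovZ.leaf K3_ok TY_l4726 _)
            (CovZ.badM (by decide +kernel)))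
           (CovZ.n1 (-2711, 10569) (by decide +kernel)
            (CovZ.n2 (-2712, 10569) (by decide +kernel)
             (CovZ.leaf K3_ok TY_l4727 _)
             (CovZ.leaf K3_ok TY_l4728 _))
            (CovZ.leaf K3_ok TY_l4729 _)))
          (CovZ.n1 (-2710, 10572) (by decide +kernel)
           (CovZ.leaf K3_ok TY_l4730 _)
           (CovZ.n1 (-2711, 10571) (by decide +kernel)
            (CovZ.badM (by decide +kernel))
            (CovZ.leaf K2_ok TY_l4731 _)))))
        (CovZ.n1 (-2708, 10576) (by decide +kernel)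
         (CovZ.n2 (-2706, 10574) (by decide +kernel)
          (CovZ.n2 (-2708, 10574) (by decide +kernel)
           (CovZ.leaf K3_ok TY_l4732 _)
           (CovZ.n1 (-2707, 10573) (by decide +kernel)
            (CovZ.leaf K3_ok TY_l4733 _)
            (CovZ.n1 (-2707, 10574) (by decide +kernel)
             (CovZ.leaf K3_ok TY_l4734 _)
             (CovZ.leaf K3_ok TY_l4735 _))))
          (CovZ.n1 (-2706, 10576) (by decide +kernel)
           (CovZ.leaf K3_ok TY_l4736 _)
           (CovZ.n1 (-2707, 10575) (by decide +kernel)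
            (CovZ.badM (by decide +kernel))
            (CovZ.leaf K3_ok TY_l4737 _))))
         (CovZ.n1 (-2710, 10574) (by decide +kernel)
          (CovZ.badM (by decide +kernel))
          (CovZ.n1 (-2708, 10574) (by decide +kernel)
           (CovZ.n2 (-2709, 10573) (by decide +kernel)
            (CovZ.badM (by decide +kernel))
            (CovZ.leaf K3_ok TY_l4738 _))
           (CovZ.badM (by decide +kernel))))))
       (CovZ.n1 (-2716, 10572) (by decide +kernel)
        (CovZ.badM (by decide +kernel))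
        (CovZ.n1 (-2712, 10572) (by decide +kernel)
         (CovZ.n2 (-2714, 10570) (by decide +kernel)
          (CovZ.badM (by decide +kernel))
          (CovZ.n1 (-2712, 10570) (by decide +kernel)
           (CovZ.n2 (-2713, 10569) (by decide +kernel)
            (CovZ.badM (by decide +kernel))
            (CovZ.leaf K3_ok TY_l4739 _))
           (CovZ.badM (by decide +kernel))))
         (CovZ.badM (by decide +kernel)))))))
    (CovZ.badM (by decide +kernel))))

theorem TY_s4_8 : SqZ TY_M TY_L [0, 7, 4, 3] (-2816) 10304 32 4 8 :=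
  SqZ.mk (a := (-2688)) (b := (-2656)) (c := 10560) (d := 10592) (by norm_num) (by norm_num) (by norm_num) (by norm_num)
    (CovZ.topM TY_LL 7 (by decide +kernel) (CovZ.n2 (-2672, 10576) (by decide +kernel)
    (CovZ.n2 (-2656, 10576) (by decide +kernel)
     (CovZ.n2 (-2664, 10568) (by decide +kernel)
      (CovZ.n2 (-2664, 10576) (by decide +kernel)
       (CovZ.n2 (-2660, 10572) (by decide +kernel)
        (CovZ.n2 (-2664, 10572) (by decide +kernel)
         (CovZ.n2 (-2662, 10574) (by decide +kernel)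
          (CovZ.leaf K3_ok TY_l5327 _)
          (CovZ.leaf K3_ok TY_l5328 _))
         (CovZ.leaf K3_ok TY_l5329 _))
        (CovZ.n1 (-2660, 10576) (by decide +kernel)
         (CovZ.leaf K3_ok TY_l5330 _)
         (CovZ.n1 (-2662, 10574) (by decide +kernel)
          (CovZ.leaf K3_ok TY_l5331 _)
          (CovZ.leaf K3_ok TY_l5332 _))))
       (CovZ.n1 (-2668, 10572) (by decide +kernel)
        (CovZ.n2 (-2668, 10576) (by decide +kernel)
         (CovZ.n2 (-2666, 10574) (by decide +kernel)
          (CovZ.leaf K2_ok TY_l5333 _)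
          (CovZ.leaf K3_ok TY_l5334 _))
         (CovZ.n1 (-2670, 10574) (by decide +kernel)
          (CovZ.leaf K3_ok TY_l5335 _)
          (CovZ.leaf K3_ok TY_l5336 _)))
        (CovZ.n1 (-2664, 10572) (by decide +kernel)
         (CovZ.n2 (-2666, 10570) (by decide +kernel)
          (CovZ.leaf K2_ok TY_l5337 _)
          (CovZ.leaf K3_ok TY_l5338 _))
         (CovZ.n1 (-2666, 10574) (by decide +kernel)
          (CovZ.leaf K3_ok TY_l5339 _)
          (CovZ.leaf K2_ok TY_l5340 _)))))
      (CovZ.n1 (-2656, 10568) (by decide +kernel)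
       (CovZ.n2 (-2660, 10564) (by decide +kernel)
        (CovZ.n2 (-2660, 10568) (by decide +kernel)
         (CovZ.leaf K2_ok TY_l5341 _)
         (CovZ.n1 (-2662, 10566) (by decide +kernel)
          (CovZ.leaf K2_ok TY_l5342 _)
          (CovZ.leaf K3_ok TY_l5343 _)))
        (CovZ.n1 (-2656, 10564) (by decide +kernel)
         (CovZ.n2 (-2658, 10562) (by decide +kernel)
          (CovZ.leaf K3_ok TY_l5344 _)
          (CovZ.leaf K2_ok TY_l5345 _))
         (CovZ.n1 (-2658, 10566) (by decide +kernel)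
          (CovZ.leaf K3_ok TY_l5346 _)
          (CovZ.leaf K3_ok TY_l5347 _))))
       (CovZ.n1 (-2660, 10572) (by decide +kernel)
        (CovZ.n2 (-2656, 10572) (by decide +kernel)
         (CovZ.n2 (-2658, 10570) (by decide +kernel)
          (CovZ.leaf K2_ok TY_l5348 _)
          (CovZ.leaf K3_ok TY_l5349 _))
         (CovZ.n1 (-2658, 10574) (by decide +kernel)
          (CovZ.leaf K3_ok TY_l5350 _)
          (CovZ.leaf K3_ok TY_l5351 _)))
        (CovZ.n1 (-2660, 10568) (by decide +kernel)
         (CovZ.n2 (-2662, 10570) (by decide +kernel)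
          (CovZ.leaf K3_ok TY_l5352 _)
          (CovZ.leaf K3_ok TY_l5353 _))
         (CovZ.n1 (-2658, 10570) (by decide +kernel)
          (CovZ.leaf K3_ok TY_l5354 _)
          (CovZ.leaf K2_ok TY_l5355 _))))))
     (CovZ.n1 (-2664, 10584) (by decide +kernel)
      (CovZ.n2 (-2656, 10584) (by decide +kernel)
       (CovZ.n2 (-2660, 10580) (by decide +kernel)
        (CovZ.n2 (-2660, 10584) (by decide +kernel)
         (CovZ.leaf K3_ok TY_l5356 _)
         (CovZ.n1 (-2662, 10582) (by decide +kernel)
          (CovZ.leaf K3_ok TY_l5357 _)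
          (CovZ.leaf K2_ok TY_l5358 _)))
        (CovZ.n1 (-2656, 10580) (by decide +kernel)
         (CovZ.n2 (-2658, 10578) (by decide +kernel)
          (CovZ.n2 (-2658, 10580) (by decide +kernel)
           (CovZ.leaf K3_ok TY_l5359 _)
           (CovZ.leaf K3_ok TY_l5360 _))
          (CovZ.leaf K3_ok TY_l5361 _))
         (CovZ.n1 (-2658, 10582) (by decide +kernel)
          (CovZ.leaf K2_ok TY_l5362 _)
          (CovZ.leaf K3_ok TY_l5363 _))))
       (CovZ.n1 (-2660, 10588) (by decide +kernel)
        (CovZ.n2 (-2656, 10588) (by decide +kernel)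
         (CovZ.n2 (-2658, 10586) (by decide +kernel)
          (CovZ.leaf K3_ok TY_l5364 _)
          (CovZ.leaf K2_ok TY_l5365 _))
         (CovZ.n1 (-2658, 10590) (by decide +kernel)
          (CovZ.leaf K3_ok TY_l5366 _)
          (CovZ.leaf K3_ok TY_l5367 _)))
        (CovZ.n1 (-2660, 10584) (by decide +kernel)
         (CovZ.n2 (-2662, 10586) (by decide +kernel)
          (CovZ.leaf K3_ok TY_l5368 _)
          (CovZ.leaf K3_ok TY_l5369 _))
         (CovZ.n1 (-2658, 10586) (by decide +kernel)
          (CovZ.n2 (-2658, 10584) (by decide +kernel)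
           (CovZ.leaf K3_ok TY_l5370 _)
           (CovZ.leaf K2_ok TY_l5371 _))
          (CovZ.leaf K3_ok TY_l5372 _)))))
      (CovZ.n1 (-2664, 10576) (by decide +kernel)
       (CovZ.n2 (-2668, 10580) (by decide +kernel)
        (CovZ.n2 (-2664, 10580) (by decide +kernel)
         (CovZ.n2 (-2666, 10578) (by decide +kernel)
          (CovZ.leaf K3_ok TY_l5373 _)
          (CovZ.leaf K2_ok TY_l5374 _))
         (CovZ.n1 (-2666, 10582) (by decide +kernel)
          (CovZ.leaf K3_ok TY_l5375 _)
          (CovZ.leaf K3_ok TY_l5376 _)))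
        (CovZ.n1 (-2668, 10576) (by decide +kernel)
         (CovZ.n2 (-2670, 10578) (by decide +kernel)
          (CovZ.leaf K3_ok TY_l5377 _)
          (CovZ.leaf K3_ok TY_l5378 _))
         (CovZ.n1 (-2666, 10578) (by decide +kernel)
          (CovZ.leaf K3_ok TY_l5379 _)
          (CovZ.n1 (-2668, 10578) (by decide +kernel)
           (CovZ.leaf K2_ok TY_l5380 _)
           (CovZ.leaf K3_ok TY_l5381 _)))))
       (CovZ.n1 (-2660, 10580) (by decide +kernel)
        (CovZ.n2 (-2660, 10576) (by decide +kernel)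
         (CovZ.leaf K3_ok TY_l5382 _)
         (CovZ.n1 (-2658, 10578) (by decide +kernel)
          (CovZ.n2 (-2658, 10576) (by decide +kernel)
           (CovZ.leaf K3_ok TY_l5383 _)
           (CovZ.leaf K3_ok TY_l5384 _))
          (CovZ.leaf K3_ok TY_l5385 _)))
        (CovZ.n1 (-2664, 10580) (by decide +kernel)
         (CovZ.n2 (-2662, 10582) (by decide +kernel)
          (CovZ.leaf K3_ok TY_l5386 _)
          (CovZ.leaf K3_ok TY_l5387 _))
         (CovZ.leaf K3_ok TY_l5388 _))))))
    (CovZ.n1 (-2672, 10560) (by decide +kernel)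
     (CovZ.n2 (-2680, 10568) (by decide +kernel)
      (CovZ.n2 (-2672, 10568) (by decide +kernel)
       (CovZ.n2 (-2676, 10564) (by decide +kernel)
        (CovZ.n2 (-2676, 10568) (by decide +kernel)
         (CovZ.n2 (-2674, 10566) (by decide +kernel)
          (CovZ.leaf K3_ok TY_l5389 _)
          (CovZ.leaf K3_ok TY_l5390 _))
         (CovZ.n1 (-2678, 10566) (by decide +kernel)
          (CovZ.leaf K3_ok TY_l5391 _)
          (CovZ.leaf K3_ok TY_l5392 _)))
        (CovZ.n1 (-2672, 10564) (by decide +kernel)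
         (CovZ.n2 (-2674, 10562) (by decide +kernel)
          (CovZ.leaf K3_ok TY_l5393 _)
          (CovZ.leaf K3_ok TY_l5394 _))
         (CovZ.leaf K3_ok TY_l5395 _)))
       (CovZ.n1 (-2676, 10572) (by decide +kernel)
        (CovZ.n2 (-2672, 10572) (by decide +kernel)
         (CovZ.n2 (-2674, 10570) (by decide +kernel)
          (CovZ.n2 (-2674, 10572) (by decide +kernel)
           (CovZ.leaf K3_ok TY_l5396 _)
           (CovZ.leaf K3_ok TY_l5397 _))
          (CovZ.leaf K3_ok TY_l5398 _))
         (CovZ.n1 (-2674, 10574) (by decide +kernel)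
          (CovZ.leaf K3_ok TY_l5399 _)
          (CovZ.leaf K3_ok TY_l5400 _)))
        (CovZ.n1 (-2676, 10568) (by decide +kernel)
         (CovZ.n2 (-2678, 10570) (by decide +kernel)
          (CovZ.leaf K3_ok TY_l5401 _)
          (CovZ.leaf K3_ok TY_l5402 _))
         (CovZ.n1 (-2674, 10570) (by decide +kernel)
          (CovZ.leaf K3_ok TY_l5403 _)
          (CovZ.leaf K3_ok TY_l5404 _)))))
      (CovZ.n1 (-2680, 10560) (by decide +kernel)
       (CovZ.n2 (-2684, 10564) (by decide +kernel)
        (CovZ.n2 (-2680, 10564) (by decide +kernel)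
         (CovZ.n2 (-2682, 10562) (by decide +kernel)
          (CovZ.leaf K3_ok TY_l5405 _)
          (CovZ.n1 (-2680, 10562) (by decide +kernel)
           (CovZ.leaf K3_ok TY_l5406 _)
           (CovZ.leaf K3_ok TY_l5407 _)))
         (CovZ.n1 (-2682, 10566) (by decide +kernel)
          (CovZ.leaf K3_ok TY_l5408 _)
          (CovZ.n1 (-2682, 10564) (by decide +kernel)
           (CovZ.leaf K3_ok TY_l5409 _)
           (CovZ.leaf K2_ok TY_l5410 _))))
        (CovZ.n1 (-2684, 10560) (by decide +kernel)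
         (CovZ.n2 (-2686, 10562) (by decide +kernel)
          (CovZ.leaf K3_ok TY_l5411 _)
          (CovZ.n1 (-2686, 10560) (by decide +kernel)
           (CovZ.leaf K3_ok TY_l5412 _)
           (CovZ.leaf K3_ok TY_l5413 _)))
         (CovZ.n1 (-2682, 10562) (by decide +kernel)
          (CovZ.leaf K2_ok TY_l5414 _)
          (CovZ.n1 (-2684, 10562) (by decide +kernel)
           (CovZ.leaf K2_ok TY_l5415 _)
           (CovZ.leaf K3_ok TY_l5416 _)))))
       (CovZ.n1 (-2676, 10564) (by decide +kernel)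
        (CovZ.n2 (-2676, 10560) (by decide +kernel)
         (CovZ.leaf K2_ok TY_l5417 _)
         (CovZ.n1 (-2674, 10562) (by decide +kernel)
          (CovZ.leaf K3_ok TY_l5418 _)
          (CovZ.leaf K3_ok TY_l5419 _)))
        (CovZ.n1 (-2680, 10564) (by decide +kernel)
         (CovZ.n2 (-2678, 10566) (by decide +kernel)
          (CovZ.leaf K3_ok TY_l5420 _)
          (CovZ.leaf K3_ok TY_l5421 _))
         (CovZ.leaf K3_ok TY_l5422 _)))))
     (CovZ.n1 (-2664, 10568) (by decide +kernel)
      (CovZ.n2 (-2664, 10560) (by decide +kernel)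
       (CovZ.n2 (-2668, 10564) (by decide +kernel)
        (CovZ.n2 (-2664, 10564) (by decide +kernel)
         (CovZ.n2 (-2666, 10562) (by decide +kernel)
          (CovZ.leaf K3_ok TY_l5423 _)
          (CovZ.leaf K3_ok TY_l5424 _))
         (CovZ.n1 (-2666, 10566) (by decide +kernel)
          (CovZ.leaf K3_ok TY_l5425 _)
          (CovZ.leaf K3_ok TY_l5426 _)))
        (CovZ.n1 (-2668, 10560) (by decide +kernel)
         (CovZ.n2 (-2670, 10562) (by decide +kernel)
          (CovZ.leaf K3_ok TY_l5427 _)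
          (CovZ.leaf K3_ok TY_l5428 _))
         (CovZ.n1 (-2666, 10562) (by decide +kernel)
          (CovZ.leaf K3_ok TY_l5429 _)
          (CovZ.leaf K3_ok TY_l5430 _))))
       (CovZ.n1 (-2660, 10564) (by decide +kernel)
        (CovZ.n2 (-2660, 10560) (by decide +kernel)
         (CovZ.leaf K3_ok TY_l5431 _)
         (CovZ.leaf K3_ok TY_l5432 _))
        (CovZ.n1 (-2664, 10564) (by decide +kernel)
         (CovZ.n2 (-2662, 10566) (by decide +kernel)
          (CovZ.leaf K2_ok TY_l5433 _)
          (CovZ.leaf K3_ok TY_l5434 _))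
         (CovZ.leaf K3_ok TY_l5435 _))))
      (CovZ.n1 (-2672, 10568) (by decide +kernel)
       (CovZ.n2 (-2668, 10572) (by decide +kernel)
        (CovZ.n2 (-2668, 10568) (by decide +kernel)
         (CovZ.n2 (-2670, 10570) (by decide +kernel)
          (CovZ.leaf K3_ok TY_l5436 _)
          (CovZ.leaf K3_ok TY_l5437 _))
         (CovZ.n1 (-2666, 10570) (by decide +kernel)
          (CovZ.leaf K2_ok TY_l5438 _)
          (CovZ.leaf K3_ok TY_l5439 _)))
        (CovZ.n1 (-2672, 10572) (by decide +kernel)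
         (CovZ.n2 (-2670, 10574) (by decide +kernel)
          (CovZ.leaf K3_ok TY_l5440 _)
          (CovZ.leaf K3_ok TY_l5441 _))
         (CovZ.leaf K3_ok TY_l5442 _)))
       (CovZ.n1 (-2668, 10564) (by decide +kernel)
        (CovZ.n2 (-2672, 10564) (by decide +kernel)
         (CovZ.n2 (-2670, 10566) (by decide +kernel)
          (CovZ.leaf K2_ok TY_l5443 _)
          (CovZ.leaf K3_ok TY_l5444 _))
         (CovZ.leaf K3_ok TY_l5445 _))
        (CovZ.n1 (-2668, 10568) (by decide +kernel)
         (CovZ.leaf K3_ok TY_l5446 _)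
         (CovZ.n1 (-2670, 10566) (by decide +kernel)
          (CovZ.leaf K3_ok TY_l5447 _)
          (CovZ.leaf K3_ok TY_l5448 _)))))))))
    (CovZ.topM TY_LL 7 (by decide +kernel) (CovZ.n0 (-2672, 10576) (by decide +kernel)
    (CovZ.n2 (-2688, 10576) (by decide +kernel)
     (CovZ.n2 (-2680, 10584) (by decide +kernel)
      (CovZ.n2 (-2680, 10576) (by decide +kernel)
       (CovZ.n2 (-2684, 10580) (by decide +kernel)
        (CovZ.n2 (-2680, 10580) (by decide +kernel)
         (CovZ.n2 (-2682, 10578) (by decide +kernel)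
          (CovZ.n2 (-2682, 10580) (by decide +kernel)
           (CovZ.leaf K3_ok TY_l5449 _)
           (CovZ.leaf K2_ok TY_l5450 _))
          (CovZ.n1 (-2680, 10578) (by decide +kernel)
           (CovZ.n2 (-2681, 10577) (by decide +kernel)
            (CovZ.leaf K3_ok TY_l5451 _)
            (CovZ.leaf K3_ok TY_l5452 _))
           (CovZ.leaf K3_ok TY_l5453 _)))
         (CovZ.n1 (-2682, 10582) (by decide +kernel)
          (CovZ.n2 (-2680, 10582) (by decide +kernel)
           (CovZ.leaf K3_ok TY_l5454 _)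
           (CovZ.leaf K2_ok TY_l5455 _))
          (CovZ.n1 (-2682, 10580) (by decide +kernel)
           (CovZ.leaf K3_ok TY_l5456 _)
           (CovZ.leaf K3_ok TY_l5457 _))))
        (CovZ.n1 (-2684, 10576) (by decide +kernel)
         (CovZ.n2 (-2686, 10578) (by decide +kernel)
          (CovZ.n2 (-2684, 10578) (by decide +kernel)
           (CovZ.leaf K3_ok TY_l5458 _)
           (CovZ.leaf K3_ok TY_l5459 _))
          (CovZ.n1 (-2686, 10576) (by decide +kernel)
           (CovZ.leaf K3_ok TY_l5460 _)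
           (CovZ.leaf K2_ok TY_l5461 _)))
         (CovZ.n1 (-2682, 10578) (by decide +kernel)
          (CovZ.n2 (-2682, 10576) (by decide +kernel)
           (CovZ.leaf K3_ok TY_l5462 _)
           (CovZ.leaf K3_ok TY_l5463 _))
          (CovZ.n1 (-2684, 10578) (by decide +kernel)
           (CovZ.leaf K3_ok TY_l5464 _)
           (CovZ.leaf K3_ok TY_l5465 _)))))
       (CovZ.n1 (-2676, 10580) (by decide +kernel)
        (CovZ.n2 (-2676, 10576) (by decide +kernel)
         (CovZ.n2 (-2678, 10578) (by decide +kernel)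
          (CovZ.n2 (-2676, 10578) (by decide +kernel)
           (CovZ.leaf K3_ok TY_l5466 _)
           (CovZ.leaf K3_ok TY_l5467 _))
          (CovZ.leaf K3_ok TY_l5468 _))
         (CovZ.n1 (-2674, 10578) (by decide +kernel)
          (CovZ.n2 (-2674, 10576) (by decide +kernel)
           (CovZ.leaf K3_ok TY_l5469 _)
           (CovZ.leaf K3_ok TY_l5470 _))
          (CovZ.leaf K3_ok TY_l5471 _)))
        (CovZ.n1 (-2680, 10580) (by decide +kernel)
         (CovZ.n2 (-2678, 10582) (by decide +kernel)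
          (CovZ.n2 (-2678, 10580) (by decide +kernel)
           (CovZ.leaf K3_ok TY_l5472 _)
           (CovZ.leaf K3_ok TY_l5473 _))
          (CovZ.leaf K3_ok TY_l5474 _))
         (CovZ.n1 (-2678, 10578) (by decide +kernel)
          (CovZ.n2 (-2680, 10578) (by decide +kernel)
           (CovZ.leaf K2_ok TY_l5475 _)
           (CovZ.leaf K3_ok TY_l5476 _))
          (CovZ.leaf K3_ok TY_l5477 _)))))
      (CovZ.n1 (-2688, 10584) (by decide +kernel)
       (CovZ.n2 (-2684, 10588) (by decide +kernel)
        (CovZ.n2 (-2684, 10584) (by decide +kernel)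
         (CovZ.n2 (-2686, 10586) (by decide +kernel)
          (CovZ.n2 (-2684, 10586) (by decide +kernel)
           (CovZ.leaf K3_ok TY_l5478 _)
           (CovZ.leaf K3_ok TY_l5479 _))
          (CovZ.n1 (-2686, 10584) (by decide +kernel)
           (CovZ.leaf K3_ok TY_l5480 _)
           (CovZ.n1 (-2685, 10585) (by decide +kernel)
            (CovZ.leaf K3_ok TY_l5481 _)
            (CovZ.leaf K3_ok TY_l5482 _))))
         (CovZ.n1 (-2682, 10586) (by decide +kernel)
          (CovZ.n2 (-2682, 10584) (by decide +kernel)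
           (CovZ.leaf K3_ok TY_l5483 _)
           (CovZ.leaf K3_ok TY_l5484 _))
          (CovZ.n1 (-2684, 10586) (by decide +kernel)
           (CovZ.n2 (-2683, 10587) (by decide +kernel)
            (CovZ.leaf K3_ok TY_l5485 _)
            (CovZ.leaf K3_ok TY_l5486 _))
           (CovZ.n1 (-2683, 10585) (by decide +kernel)
            (CovZ.leaf K3_ok TY_l5487 _)
            (CovZ.leaf K3_ok TY_l5488 _)))))
        (CovZ.n1 (-2688, 10588) (by decide +kernel)
         (CovZ.n2 (-2686, 10590) (by decide +kernel)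
          (CovZ.n2 (-2686, 10588) (by decide +kernel)
           (CovZ.leaf K3_ok TY_l5489 _)
           (CovZ.n1 (-2685, 10589) (by decide +kernel)
            (CovZ.leaf K3_ok TY_l5490 _)
            (CovZ.leaf K3_ok TY_l5491 _)))
          (CovZ.n1 (-2688, 10590) (by decide +kernel)
           (CovZ.n2 (-2687, 10591) (by decide +kernel)
            (CovZ.leaf K3_ok TY_l5492 _)
            (CovZ.badM (by decide +kernel)))
           (CovZ.leaf K3_ok TY_l5493 _)))
         (CovZ.n1 (-2686, 10586) (by decide +kernel)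
          (CovZ.leaf K3_ok TY_l5494 _)
          (CovZ.n1 (-2686, 10588) (by decide +kernel)
           (CovZ.leaf K3_ok TY_l5495 _)
           (CovZ.n1 (-2687, 10587) (by decide +kernel)
            (CovZ.leaf K3_ok TY_l5496 _)
            (CovZ.leaf K3_ok TY_l5497 _))))))
       (CovZ.n1 (-2684, 10580) (by decide +kernel)
        (CovZ.n2 (-2688, 10580) (by decide +kernel)
         (CovZ.n2 (-2686, 10582) (by decide +kernel)
          (CovZ.n2 (-2686, 10580) (by decide +kernel)
           (CovZ.leaf K3_ok TY_l5498 _)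
           (CovZ.leaf K3_ok TY_l5499 _))
          (CovZ.leaf K3_ok TY_l5500 _))
         (CovZ.n1 (-2686, 10578) (by decide +kernel)
          (CovZ.n2 (-2688, 10578) (by decide +kernel)
           (CovZ.n2 (-2687, 10579) (by decide +kernel)
            (CovZ.n2 (-2687, 10578) (by decide +kernel)
             (CovZ.leaf K3_ok TY_l5501 _)
             (CovZ.leaf K2_ok TY_l5502 _))
            (CovZ.leaf K3_ok TY_l5503 _))
           (CovZ.leaf K3_ok TY_l5504 _))
          (CovZ.n1 (-2686, 10580) (by decide +kernel)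
           (CovZ.leaf K3_ok TY_l5505 _)
           (CovZ.leaf K3_ok TY_l5506 _))))
        (CovZ.n1 (-2684, 10584) (by decide +kernel)
         (CovZ.n2 (-2682, 10582) (by decide +kernel)
          (CovZ.n2 (-2684, 10582) (by decide +kernel)
           (CovZ.leaf K3_ok TY_l5507 _)
           (CovZ.leaf K3_ok TY_l5508 _))
          (CovZ.n1 (-2682, 10584) (by decide +kernel)
           (CovZ.leaf K3_ok TY_l5509 _)
           (CovZ.n1 (-2683, 10583) (by decide +kernel)
            (CovZ.leaf K3_ok TY_l5510 _)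
            (CovZ.leaf K3_ok TY_l5511 _))))
         (CovZ.n1 (-2686, 10582) (by decide +kernel)
          (CovZ.n2 (-2686, 10584) (by decide +kernel)
           (CovZ.leaf K3_ok TY_l5512 _)
           (CovZ.n1 (-2687, 10583) (by decide +kernel)
            (CovZ.leaf K3_ok TY_l5513 _)
            (CovZ.leaf K3_ok TY_l5514 _)))
          (CovZ.leaf K3_ok TY_l5515 _))))))
     (CovZ.n1 (-2680, 10568) (by decide +kernel)
      (CovZ.n2 (-2688, 10568) (by decide +kernel)
       (CovZ.n2 (-2684, 10572) (by decide +kernel)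
        (CovZ.n2 (-2684, 10568) (by decide +kernel)
         (CovZ.n2 (-2686, 10570) (by decide +kernel)
          (CovZ.n2 (-2684, 10570) (by decide +kernel)
           (CovZ.leaf K3_ok TY_l5516 _)
           (CovZ.leaf K3_ok TY_l5517 _))
          (CovZ.n1 (-2686, 10568) (by decide +kernel)
           (CovZ.leaf K3_ok TY_l5518 _)
           (CovZ.leaf K3_ok TY_l5519 _)))
         (CovZ.n1 (-2682, 10570) (by decide +kernel)
          (CovZ.leaf K3_ok TY_l5520 _)
          (CovZ.leaf K3_ok TY_l5521 _)))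
        (CovZ.n1 (-2688, 10572) (by decide +kernel)
         (CovZ.n2 (-2686, 10574) (by decide +kernel)
          (CovZ.leaf K3_ok TY_l5522 _)
          (CovZ.n1 (-2688, 10574) (by decide +kernel)
           (CovZ.leaf K3_ok TY_l5523 _)
           (CovZ.leaf K3_ok TY_l5524 _)))
         (CovZ.n1 (-2686, 10570) (by decide +kernel)
          (CovZ.n2 (-2688, 10570) (by decide +kernel)
           (CovZ.leaf K2_ok TY_l5525 _)
           (CovZ.leaf K3_ok TY_l5526 _))
          (CovZ.leaf K3_ok TY_l5527 _))))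
       (CovZ.n1 (-2684, 10564) (by decide +kernel)
        (CovZ.n2 (-2688, 10564) (by decide +kernel)
         (CovZ.n2 (-2686, 10566) (by decide +kernel)
          (CovZ.leaf K3_ok TY_l5528 _)
          (CovZ.leaf K2_ok TY_l5529 _))
         (CovZ.n1 (-2686, 10562) (by decide +kernel)
          (CovZ.leaf K3_ok TY_l5530 _)
          (CovZ.leaf K3_ok TY_l5531 _)))
        (CovZ.n1 (-2684, 10568) (by decide +kernel)
         (CovZ.n2 (-2682, 10566) (by decide +kernel)
          (CovZ.leaf K3_ok TY_l5532 _)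
          (CovZ.leaf K3_ok TY_l5533 _))
         (CovZ.n1 (-2686, 10566) (by decide +kernel)
          (CovZ.leaf K3_ok TY_l5534 _)
          (CovZ.n1 (-2684, 10566) (by decide +kernel)
           (CovZ.leaf K3_ok TY_l5535 _)
           (CovZ.leaf K3_ok TY_l5536 _))))))
      (CovZ.n1 (-2680, 10576) (by decide +kernel)
       (CovZ.n2 (-2676, 10572) (by decide +kernel)
        (CovZ.n2 (-2680, 10572) (by decide +kernel)
         (CovZ.n2 (-2678, 10574) (by decide +kernel)
          (CovZ.n2 (-2678, 10572) (by decide +kernel)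
           (CovZ.leaf K3_ok TY_l5537 _)
           (CovZ.n1 (-2677, 10573) (by decide +kernel)
            (CovZ.leaf K3_ok TY_l5538 _)
            (CovZ.leaf K3_ok TY_l5539 _)))
          (CovZ.leaf K3_ok TY_l5540 _))
         (CovZ.n1 (-2678, 10570) (by decide +kernel)
          (CovZ.leaf K3_ok TY_l5541 _)
          (CovZ.leaf K2_ok TY_l5542 _)))
        (CovZ.n1 (-2676, 10576) (by decide +kernel)
         (CovZ.n2 (-2674, 10574) (by decide +kernel)
          (CovZ.leaf K3_ok TY_l5543 _)
          (CovZ.leaf K3_ok TY_l5544 _))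
         (CovZ.n1 (-2678, 10574) (by decide +kernel)
          (CovZ.leaf K3_ok TY_l5545 _)
          (CovZ.leaf K3_ok TY_l5546 _))))
       (CovZ.n1 (-2684, 10572) (by decide +kernel)
        (CovZ.n2 (-2684, 10576) (by decide +kernel)
         (CovZ.n2 (-2682, 10574) (by decide +kernel)
          (CovZ.n2 (-2684, 10574) (by decide +kernel)
           (CovZ.leaf K3_ok TY_l5547 _)
           (CovZ.leaf K3_ok TY_l5548 _))
          (CovZ.n1 (-2682, 10576) (by decide +kernel)
           (CovZ.leaf K3_ok TY_l5549 _)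
           (CovZ.leaf K2_ok TY_l5550 _)))
         (CovZ.n1 (-2686, 10574) (by decide +kernel)
          (CovZ.n2 (-2686, 10576) (by decide +kernel)
           (CovZ.leaf K3_ok TY_l5551 _)
           (CovZ.n1 (-2687, 10575) (by decide +kernel)
            (CovZ.leaf K3_ok TY_l5552 _)
            (CovZ.leaf K2_ok TY_l5553 _)))
          (CovZ.n1 (-2684, 10574) (by decide +kernel)
           (CovZ.leaf K3_ok TY_l5554 _)
           (CovZ.n1 (-2685, 10575) (by decide +kernel)
            (CovZ.leaf K3_ok TY_l5555 _)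
            (CovZ.leaf K3_ok TY_l5556 _)))))
        (CovZ.n1 (-2680, 10572) (by decide +kernel)
         (CovZ.n2 (-2682, 10570) (by decide +kernel)
          (CovZ.leaf K2_ok TY_l5557 _)
          (CovZ.leaf K3_ok TY_l5558 _))
         (CovZ.n1 (-2682, 10574) (by decide +kernel)
          (CovZ.leaf K3_ok TY_l5559 _)
          (CovZ.n1 (-2682, 10572) (by decide +kernel)
           (CovZ.leaf K3_ok TY_l5560 _)
           (CovZ.leaf K3_ok TY_l5561 _))))))))
    (CovZ.n1 (-2672, 10592) (by decide +kernel)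
     TY_u44
     TY_u45)))

theorem TY_s5_8 : SqZ TY_M TY_L [0, 7, 4, 3] (-2816) 10304 32 5 8 :=
  SqZ.mk (a := (-2656)) (b := (-2624)) (c := 10560) (d := 10592) (by norm_num) (by norm_num) (by norm_num) (by norm_num)
    (CovZ.topM TY_LL 7 (by decide +kernel) (CovZ.n2 (-2640, 10576) (by decide +kernel)
    (CovZ.n2 (-2624, 10576) (by decide +kernel)
     (CovZ.n2 (-2632, 10568) (by decide +kernel)
      (CovZ.n2 (-2632, 10576) (by decide +kernel)
       (CovZ.n2 (-2628, 10572) (by decide +kernel)
        (CovZ.n2 (-2632, 10572) (by decide +kernel)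
         (CovZ.leaf K3_ok TY_l6438 _)
         (CovZ.leaf K2_ok TY_l6439 _))
        (CovZ.leaf K3_ok TY_l6440 _))
       (CovZ.n1 (-2636, 10572) (by decide +kernel)
        (CovZ.n2 (-2636, 10576) (by decide +kernel)
         (CovZ.leaf K3_ok TY_l6441 _)
         (CovZ.n1 (-2638, 10574) (by decide +kernel)
          (CovZ.leaf K3_ok TY_l6442 _)
          (CovZ.leaf K3_ok TY_l6443 _)))
        (CovZ.n1 (-2632, 10572) (by decide +kernel)
         (CovZ.n2 (-2634, 10570) (by decide +kernel)
          (CovZ.leaf K3_ok TY_l6444 _)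
          (CovZ.leaf K2_ok TY_l6445 _))
         (CovZ.leaf K3_ok TY_l6446 _))))
      (CovZ.n1 (-2624, 10568) (by decide +kernel)
       (CovZ.n2 (-2628, 10564) (by decide +kernel)
        (CovZ.n2 (-2628, 10568) (by decide +kernel)
         (CovZ.leaf K3_ok TY_l6447 _)
         (CovZ.leaf K3_ok TY_l6448 _))
        (CovZ.leaf K2_ok TY_l6449 _))
       (CovZ.n1 (-2628, 10572) (by decide +kernel)
        (CovZ.n2 (-2624, 10572) (by decide +kernel)
         (CovZ.leaf K3_ok TY_l6450 _)
         (CovZ.leaf K3_ok TY_l6451 _))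
        (CovZ.n1 (-2628, 10568) (by decide +kernel)
         (CovZ.leaf K2_ok TY_l6452 _)
         (CovZ.leaf K2_ok TY_l6453 _)))))
     (CovZ.n1 (-2632, 10584) (by decide +kernel)
      (CovZ.n2 (-2624, 10584) (by decide +kernel)
       (CovZ.n2 (-2628, 10580) (by decide +kernel)
        (CovZ.n2 (-2628, 10584) (by decide +kernel)
         (CovZ.leaf K3_ok TY_l6454 _)
         (CovZ.n1 (-2630, 10582) (by decide +kernel)
          (CovZ.leaf K3_ok TY_l6455 _)
          (CovZ.leaf K3_ok TY_l6456 _)))
        (CovZ.n1 (-2624, 10580) (by decide +kernel)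
         (CovZ.n2 (-2626, 10578) (by decide +kernel)
          (CovZ.leaf K3_ok TY_l6457 _)
          (CovZ.leaf K3_ok TY_l6458 _))
         (CovZ.leaf K3_ok TY_l6459 _)))
       (CovZ.n1 (-2628, 10588) (by decide +kernel)
        (CovZ.n2 (-2624, 10588) (by decide +kernel)
         (CovZ.n2 (-2626, 10586) (by decide +kernel)
          (CovZ.leaf K3_ok TY_l6460 _)
          (CovZ.leaf K3_ok TY_l6461 _))
         (CovZ.leaf K3_ok TY_l6462 _))
        (CovZ.n1 (-2628, 10584) (by decide +kernel)
         (CovZ.leaf K3_ok TY_l6463 _)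
         (CovZ.leaf K3_ok TY_l6464 _))))
      (CovZ.n1 (-2632, 10576) (by decide +kernel)
       (CovZ.n2 (-2636, 10580) (by decide +kernel)
        (CovZ.n2 (-2632, 10580) (by decide +kernel)
         (CovZ.n2 (-2634, 10578) (by decide +kernel)
          (CovZ.leaf K3_ok TY_l6465 _)
          (CovZ.leaf K3_ok TY_l6466 _))
         (CovZ.leaf K3_ok TY_l6467 _))
        (CovZ.n1 (-2636, 10576) (by decide +kernel)
         (CovZ.leaf K3_ok TY_l6468 _)
         (CovZ.leaf K3_ok TY_l6469 _)))
       (CovZ.n1 (-2628, 10580) (by decide +kernel)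
        (CovZ.n2 (-2628, 10576) (by decide +kernel)
         (CovZ.leaf K3_ok TY_l6470 _)
         (CovZ.leaf K2_ok TY_l6471 _))
        (CovZ.n1 (-2632, 10580) (by decide +kernel)
         (CovZ.n2 (-2630, 10582) (by decide +kernel)
          (CovZ.leaf K3_ok TY_l6472 _)
          (CovZ.leaf K3_ok TY_l6473 _))
         (CovZ.leaf K3_ok TY_l6474 _))))))
    (CovZ.n1 (-2640, 10560) (by decide +kernel)
     (CovZ.n2 (-2648, 10568) (by decide +kernel)
      (CovZ.n2 (-2640, 10568) (by decide +kernel)
       (CovZ.n2 (-2644, 10564) (by decide +kernel)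
        (CovZ.n2 (-2644, 10568) (by decide +kernel)
         (CovZ.leaf K3_ok TY_l6475 _)
         (CovZ.leaf K3_ok TY_l6476 _))
        (CovZ.n1 (-2640, 10564) (by decide +kernel)
         (CovZ.leaf K3_ok TY_l6477 _)
         (CovZ.leaf K3_ok TY_l6478 _)))
       (CovZ.n1 (-2644, 10572) (by decide +kernel)
        (CovZ.n2 (-2640, 10572) (by decide +kernel)
         (CovZ.leaf K3_ok TY_l6479 _)
         (CovZ.leaf K3_ok TY_l6480 _))
        (CovZ.n1 (-2644, 10568) (by decide +kernel)
         (CovZ.leaf K3_ok TY_l6481 _)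
         (CovZ.leaf K3_ok TY_l6482 _))))
      (CovZ.n1 (-2648, 10560) (by decide +kernel)
       (CovZ.n2 (-2652, 10564) (by decide +kernel)
        (CovZ.n2 (-2648, 10564) (by decide +kernel)
         (CovZ.n2 (-2650, 10562) (by decide +kernel)
          (CovZ.leaf K3_ok TY_l6483 _)
          (CovZ.leaf K3_ok TY_l6484 _))
         (CovZ.n1 (-2650, 10566) (by decide +kernel)
          (CovZ.leaf K3_ok TY_l6485 _)
          (CovZ.leaf K3_ok TY_l6486 _)))
        (CovZ.n1 (-2652, 10560) (by decide +kernel)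
         (CovZ.n2 (-2654, 10562) (by decide +kernel)
          (CovZ.leaf K3_ok TY_l6487 _)
          (CovZ.leaf K3_ok TY_l6488 _))
         (CovZ.leaf K3_ok TY_l6489 _)))
       (CovZ.n1 (-2644, 10564) (by decide +kernel)
        (CovZ.n2 (-2644, 10560) (by decide +kernel)
         (CovZ.leaf K3_ok TY_l6490 _)
         (CovZ.leaf K3_ok TY_l6491 _))
        (CovZ.n1 (-2648, 10564) (by decide +kernel)
         (CovZ.leaf K3_ok TY_l6492 _)
         (CovZ.leaf K3_ok TY_l6493 _)))))
     (CovZ.n1 (-2632, 10568) (by decide +kernel)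
      (CovZ.n2 (-2632, 10560) (by decide +kernel)
       (CovZ.n2 (-2636, 10564) (by decide +kernel)
        (CovZ.leaf K3_ok TY_l6494 _)
        (CovZ.n1 (-2636, 10560) (by decide +kernel)
         (CovZ.leaf K2_ok TY_l6495 _)
         (CovZ.leaf K3_ok TY_l6496 _)))
       (CovZ.n1 (-2628, 10564) (by decide +kernel)
        (CovZ.n2 (-2628, 10560) (by decide +kernel)
         (CovZ.leaf K2_ok TY_l6497 _)
         (CovZ.leaf K2_ok TY_l6498 _))
        (CovZ.leaf K3_ok TY_l6499 _)))
      (CovZ.n1 (-2640, 10568) (by decide +kernel)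
       (CovZ.n2 (-2636, 10572) (by decide +kernel)
        (CovZ.n2 (-2636, 10568) (by decide +kernel)
         (CovZ.leaf K3_ok TY_l6500 _)
         (CovZ.leaf K3_ok TY_l6501 _))
        (CovZ.n1 (-2640, 10572) (by decide +kernel)
         (CovZ.n2 (-2638, 10574) (by decide +kernel)
          (CovZ.leaf K3_ok TY_l6502 _)
          (CovZ.leaf K3_ok TY_l6503 _))
         (CovZ.leaf K3_ok TY_l6504 _)))
       (CovZ.n1 (-2636, 10564) (by decide +kernel)
        (CovZ.n2 (-2640, 10564) (by decide +kernel)
         (CovZ.leaf K2_ok TY_l6505 _)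
         (CovZ.leaf K3_ok TY_l6506 _))
        (CovZ.leaf K3_ok TY_l6507 _)))))))
    (CovZ.topM TY_LL 7 (by decide +kernel) (CovZ.n0 (-2640, 10576) (by decide +kernel)
    (CovZ.n2 (-2656, 10576) (by decide +kernel)
     (CovZ.n2 (-2648, 10584) (by decide +kernel)
      (CovZ.n2 (-2648, 10576) (by decide +kernel)
       (CovZ.n2 (-2652, 10580) (by decide +kernel)
        (CovZ.n2 (-2648, 10580) (by decide +kernel)
         (CovZ.n2 (-2650, 10578) (by decide +kernel)
          (CovZ.leaf K3_ok TY_l6508 _)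
          (CovZ.leaf K2_ok TY_l6509 _))
         (CovZ.n1 (-2650, 10582) (by decide +kernel)
          (CovZ.leaf K3_ok TY_l6510 _)
          (CovZ.n1 (-2650, 10580) (by decide +kernel)
           (CovZ.leaf K3_ok TY_l6511 _)
           (CovZ.leaf K3_ok TY_l6512 _))))
        (CovZ.n1 (-2652, 10576) (by decide +kernel)
         (CovZ.n2 (-2654, 10578) (by decide +kernel)
          (CovZ.leaf K3_ok TY_l6513 _)
          (CovZ.leaf K3_ok TY_l6514 _))
         (CovZ.n1 (-2650, 10578) (by decide +kernel)
          (CovZ.leaf K3_ok TY_l6515 _)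
          (CovZ.leaf K3_ok TY_l6516 _))))
       (CovZ.n1 (-2644, 10580) (by decide +kernel)
        (CovZ.n2 (-2644, 10576) (by decide +kernel)
         (CovZ.leaf K2_ok TY_l6517 _)
         (CovZ.n1 (-2642, 10578) (by decide +kernel)
          (CovZ.leaf K3_ok TY_l6518 _)
          (CovZ.leaf K3_ok TY_l6519 _)))
        (CovZ.n1 (-2648, 10580) (by decide +kernel)
         (CovZ.n2 (-2646, 10582) (by decide +kernel)
          (CovZ.leaf K2_ok TY_l6520 _)
          (CovZ.leaf K3_ok TY_l6521 _))
         (CovZ.leaf K3_ok TY_l6522 _))))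
      (CovZ.n1 (-2656, 10584) (by decide +kernel)
       (CovZ.n2 (-2652, 10588) (by decide +kernel)
        (CovZ.n2 (-2652, 10584) (by decide +kernel)
         (CovZ.n2 (-2654, 10586) (by decide +kernel)
          (CovZ.n2 (-2652, 10586) (by decide +kernel)
           (CovZ.leaf K3_ok TY_l6523 _)
           (CovZ.leaf K3_ok TY_l6524 _))
          (CovZ.leaf K3_ok TY_l6525 _))
         (CovZ.n1 (-2650, 10586) (by decide +kernel)
          (CovZ.leaf K3_ok TY_l6526 _)
          (CovZ.leaf K3_ok TY_l6527 _)))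
        (CovZ.n1 (-2656, 10588) (by decide +kernel)
         (CovZ.n2 (-2654, 10590) (by decide +kernel)
          (CovZ.leaf K2_ok TY_l6528 _)
          (CovZ.leaf K3_ok TY_l6529 _))
         (CovZ.n1 (-2654, 10586) (by decide +kernel)
          (CovZ.leaf K3_ok TY_l6530 _)
          (CovZ.leaf K3_ok TY_l6531 _))))
       (CovZ.n1 (-2652, 10580) (by decide +kernel)
        (CovZ.n2 (-2656, 10580) (by decide +kernel)
         (CovZ.n2 (-2654, 10582) (by decide +kernel)
          (CovZ.leaf K3_ok TY_l6532 _)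
          (CovZ.leaf K3_ok TY_l6533 _))
         (CovZ.leaf K3_ok TY_l6534 _))
        (CovZ.n1 (-2652, 10584) (by decide +kernel)
         (CovZ.n2 (-2650, 10582) (by decide +kernel)
          (CovZ.leaf K2_ok TY_l6535 _)
          (CovZ.n1 (-2650, 10584) (by decide +kernel)
           (CovZ.leaf K3_ok TY_l6536 _)
           (CovZ.leaf K3_ok TY_l6537 _)))
         (CovZ.n1 (-2654, 10582) (by decide +kernel)
          (CovZ.leaf K3_ok TY_l6538 _)
          (CovZ.leaf K3_ok TY_l6539 _))))))
     (CovZ.n1 (-2648, 10568) (by decide +kernel)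
      (CovZ.n2 (-2656, 10568) (by decide +kernel)
       (CovZ.n2 (-2652, 10572) (by decide +kernel)
        (CovZ.n2 (-2652, 10568) (by decide +kernel)
         (CovZ.leaf K3_ok TY_l6540 _)
         (CovZ.n1 (-2650, 10570) (by decide +kernel)
          (CovZ.leaf K3_ok TY_l6541 _)
          (CovZ.leaf K3_ok TY_l6542 _)))
        (CovZ.n1 (-2656, 10572) (by decide +kernel)
         (CovZ.n2 (-2654, 10574) (by decide +kernel)
          (CovZ.leaf K3_ok TY_l6543 _)
          (CovZ.leaf K3_ok TY_l6544 _))
         (CovZ.leaf K3_ok TY_l6545 _)))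
       (CovZ.n1 (-2652, 10564) (by decide +kernel)
        (CovZ.n2 (-2656, 10564) (by decide +kernel)
         (CovZ.n2 (-2654, 10566) (by decide +kernel)
          (CovZ.leaf K3_ok TY_l6546 _)
          (CovZ.leaf K3_ok TY_l6547 _))
         (CovZ.leaf K3_ok TY_l6548 _))
        (CovZ.n1 (-2652, 10568) (by decide +kernel)
         (CovZ.leaf K3_ok TY_l6549 _)
         (CovZ.n1 (-2654, 10566) (by decide +kernel)
          (CovZ.leaf K3_ok TY_l6550 _)
          (CovZ.leaf K3_ok TY_l6551 _)))))
      (CovZ.n1 (-2648, 10576) (by decide +kernel)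
       (CovZ.n2 (-2644, 10572) (by decide +kernel)
        (CovZ.n2 (-2648, 10572) (by decide +kernel)
         (CovZ.leaf K2_ok TY_l6552 _)
         (CovZ.leaf K3_ok TY_l6553 _))
        (CovZ.n1 (-2644, 10576) (by decide +kernel)
         (CovZ.leaf K3_ok TY_l6554 _)
         (CovZ.n1 (-2646, 10574) (by decide +kernel)
          (CovZ.leaf K3_ok TY_l6555 _)
          (CovZ.leaf K3_ok TY_l6556 _))))
       (CovZ.n1 (-2652, 10572) (by decide +kernel)
        (CovZ.n2 (-2652, 10576) (by decide +kernel)
         (CovZ.leaf K2_ok TY_l6557 _)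
         (CovZ.n1 (-2654, 10574) (by decide +kernel)
          (CovZ.leaf K3_ok TY_l6558 _)
          (CovZ.leaf K3_ok TY_l6559 _)))
        (CovZ.n1 (-2648, 10572) (by decide +kernel)
         (CovZ.n2 (-2650, 10570) (by decide +kernel)
          (CovZ.leaf K3_ok TY_l6560 _)
          (CovZ.leaf K3_ok TY_l6561 _))
         (CovZ.leaf K3_ok TY_l6562 _))))))
    (CovZ.n1 (-2640, 10592) (by decide +kernel)
     (CovZ.n2 (-2632, 10584) (by decide +kernel)
      (CovZ.n2 (-2640, 10584) (by decide +kernel)
       (CovZ.n2 (-2636, 10588) (by decide +kernel)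
        (CovZ.n2 (-2636, 10584) (by decide +kernel)
         (CovZ.leaf K2_ok TY_l6563 _)
         (CovZ.n1 (-2634, 10586) (by decide +kernel)
          (CovZ.leaf K3_ok TY_l6564 _)
          (CovZ.leaf K3_ok TY_l6565 _)))
        (CovZ.n1 (-2640, 10588) (by decide +kernel)
         (CovZ.n2 (-2638, 10590) (by decide +kernel)
          (CovZ.leaf K3_ok TY_l6566 _)
          (CovZ.leaf K3_ok TY_l6567 _))
         (CovZ.leaf K2_ok TY_l6568 _)))
       (CovZ.n1 (-2636, 10580) (by decide +kernel)
        (CovZ.n2 (-2640, 10580) (by decide +kernel)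
         (CovZ.n2 (-2638, 10582) (by decide +kernel)
          (CovZ.leaf K3_ok TY_l6569 _)
          (CovZ.leaf K3_ok TY_l6570 _))
         (CovZ.leaf K3_ok TY_l6571 _))
        (CovZ.n1 (-2636, 10584) (by decide +kernel)
         (CovZ.leaf K3_ok TY_l6572 _)
         (CovZ.n1 (-2638, 10582) (by decide +kernel)
          (CovZ.leaf K3_ok TY_l6573 _)
          (CovZ.leaf K3_ok TY_l6574 _)))))
      (CovZ.n1 (-2632, 10592) (by decide +kernel)
       (CovZ.n2 (-2628, 10588) (by decide +kernel)
        (CovZ.n2 (-2632, 10588) (by decide +kernel)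
         (CovZ.n2 (-2630, 10590) (by decide +kernel)
          (CovZ.leaf K3_ok TY_l6575 _)
          (CovZ.leaf K2_ok TY_l6576 _))
         (CovZ.leaf K3_ok TY_l6577 _))
        (CovZ.n1 (-2628, 10592) (by decide +kernel)
         (CovZ.leaf K3_ok TY_l6578 _)
         (CovZ.n1 (-2630, 10590) (by decide +kernel)
          (CovZ.n2 (-2630, 10592) (by decide +kernel)
           (CovZ.leaf K3_ok TY_l6579 _)
           (CovZ.leaf K3_ok TY_l6580 _))
          (CovZ.leaf K3_ok TY_l6581 _))))
       (CovZ.n1 (-2636, 10588) (by decide +kernel)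
        (CovZ.n2 (-2636, 10592) (by decide +kernel)
         (CovZ.leaf K3_ok TY_l6582 _)
         (CovZ.n1 (-2638, 10590) (by decide +kernel)
          (CovZ.leaf K3_ok TY_l6583 _)
          (CovZ.leaf K3_ok TY_l6584 _)))
        (CovZ.n1 (-2632, 10588) (by decide +kernel)
         (CovZ.n2 (-2634, 10586) (by decide +kernel)
          (CovZ.leaf K3_ok TY_l6585 _)
          (CovZ.leaf K3_ok TY_l6586 _))
         (CovZ.leaf K3_ok TY_l6587 _)))))
     (CovZ.n1 (-2648, 10584) (by decide +kernel)
      (CovZ.n2 (-2648, 10592) (by decide +kernel)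
       (CovZ.n2 (-2644, 10588) (by decide +kernel)
        (CovZ.n2 (-2648, 10588) (by decide +kernel)
         (CovZ.n2 (-2646, 10590) (by decide +kernel)
          (CovZ.n2 (-2646, 10588) (by decide +kernel)
           (CovZ.leaf K3_ok TY_l6588 _)
           (CovZ.leaf K3_ok TY_l6589 _))
          (CovZ.leaf K3_ok TY_l6590 _))
         (CovZ.n1 (-2646, 10586) (by decide +kernel)
          (CovZ.leaf K2_ok TY_l6591 _)
          (CovZ.leaf K3_ok TY_l6592 _)))
        (CovZ.n1 (-2644, 10592) (by decide +kernel)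
         (CovZ.n2 (-2642, 10590) (by decide +kernel)
          (CovZ.leaf K3_ok TY_l6593 _)
          (CovZ.leaf K3_ok TY_l6594 _))
         (CovZ.n1 (-2646, 10590) (by decide +kernel)
          (CovZ.leaf K3_ok TY_l6595 _)
          (CovZ.leaf K3_ok TY_l6596 _))))
       (CovZ.n1 (-2652, 10588) (by decide +kernel)
        (CovZ.n2 (-2652, 10592) (by decide +kernel)
         (CovZ.leaf K3_ok TY_l6597 _)
         (CovZ.n1 (-2654, 10590) (by decide +kernel)
          (CovZ.leaf K2_ok TY_l6598 _)
          (CovZ.n1 (-2652, 10590) (by decide +kernel)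
           (CovZ.leaf K3_ok TY_l6599 _)
           (CovZ.leaf K3_ok TY_l6600 _))))
        (CovZ.n1 (-2648, 10588) (by decide +kernel)
         (CovZ.n2 (-2650, 10586) (by decide +kernel)
          (CovZ.leaf K3_ok TY_l6601 _)
          (CovZ.leaf K2_ok TY_l6602 _))
         (CovZ.n1 (-2650, 10590) (by decide +kernel)
          (CovZ.leaf K3_ok TY_l6603 _)
          (CovZ.leaf K2_ok TY_l6604 _)))))
      (CovZ.n1 (-2640, 10584) (by decide +kernel)
       (CovZ.n2 (-2644, 10580) (by decide +kernel)
        (CovZ.n2 (-2644, 10584) (by decide +kernel)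
         (CovZ.leaf K3_ok TY_l6605 _)
         (CovZ.n1 (-2646, 10582) (by decide +kernel)
          (CovZ.leaf K2_ok TY_l6606 _)
          (CovZ.leaf K3_ok TY_l6607 _)))
        (CovZ.n1 (-2640, 10580) (by decide +kernel)
         (CovZ.n2 (-2642, 10578) (by decide +kernel)
          (CovZ.leaf K3_ok TY_l6608 _)
          (CovZ.leaf K3_ok TY_l6609 _))
         (CovZ.leaf K2_ok TY_l6610 _)))
       (CovZ.n1 (-2644, 10588) (by decide +kernel)
        (CovZ.n2 (-2640, 10588) (by decide +kernel)
         (CovZ.n2 (-2642, 10586) (by decide +kernel)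
          (CovZ.leaf K3_ok TY_l6611 _)
          (CovZ.leaf K3_ok TY_l6612 _))
         (CovZ.n1 (-2642, 10590) (by decide +kernel)
          (CovZ.leaf K2_ok TY_l6613 _)
          (CovZ.leaf K3_ok TY_l6614 _)))
        (CovZ.n1 (-2644, 10584) (by decide +kernel)
         (CovZ.n2 (-2646, 10586) (by decide +kernel)
          (CovZ.leaf K3_ok TY_l6615 _)
          (CovZ.leaf K3_ok TY_l6616 _))
         (CovZ.n1 (-2642, 10586) (by decide +kernel)
          (CovZ.leaf K2_ok TY_l6617 _)
          (CovZ.leaf K2_ok TY_l6618 _)))))))))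

theorem TY_s0_9 : SqZ TY_M TY_L [0, 7, 4, 3] (-2816) 10304 32 0 9 :=
  SqZ.mk (a := (-2816)) (b := (-2784)) (c := 10592) (d := 10624) (by norm_num) (by norm_num) (by norm_num) (by norm_num)
    (CovZ.topM TY_LL 0 (by decide +kernel) (CovZ.badM (by decide +kernel)))
    (CovZ.topM TY_LL 0 (by decide +kernel) (CovZ.badM (by decide +kernel)))

theorem TY_s1_9 : SqZ TY_M TY_L [0, 7, 4, 3] (-2816) 10304 32 1 9 :=
  SqZ.mk (a := (-2784)) (b := (-2752)) (c := 10592) (d := 10624) (by norm_num) (by norm_num) (by norm_num) (by norm_num)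
    (CovZ.topM TY_LL 0 (by decide +kernel) (CovZ.badM (by decide +kernel)))
    (CovZ.topM TY_LL 0 (by decide +kernel) (CovZ.badM (by decide +kernel)))

theorem TY_s2_9 : SqZ TY_M TY_L [0, 7, 4, 3] (-2816) 10304 32 2 9 :=
  SqZ.mk (a := (-2752)) (b := (-2720)) (c := 10592) (d := 10624) (by norm_num) (by norm_num) (by norm_num) (by norm_num)
    (CovZ.topM TY_LL 0 (by decide +kernel) (CovZ.badM (by decide +kernel)))
    (CovZ.topM TY_LL 0 (by decide +kernel) (CovZ.badM (by decide +kernel)))

theorem TY_s3_9 : SqZ TY_M TY_L [0, 7, 4, 3] (-2816) 10304 32 3 9 :=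
  SqZ.mk (a := (-2720)) (b := (-2688)) (c := 10592) (d := 10624) (by norm_num) (by norm_num) (by norm_num) (by norm_num)
    (CovZ.topM TY_LL 0 (by decide +kernel) (CovZ.badM (by decide +kernel)))
    (CovZ.topM TY_LL 0 (by decide +kernel) (CovZ.badM (by decide +kernel)))

theorem TY_s4_9 : SqZ TY_M TY_L [0, 7, 4, 3] (-2816) 10304 32 4 9 :=
  SqZ.mk (a := (-2688)) (b := (-2656)) (c := 10592) (d := 10624) (by norm_num) (by norm_num) (by norm_num) (by norm_num)
    (CovZ.topM TY_LL 7 (by decide +kernel) (CovZ.n2 (-2672, 10608) (by decide +kernel)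
    (CovZ.n2 (-2656, 10608) (by decide +kernel)
     TY_u46
     TY_u47)
    (CovZ.n1 (-2672, 10592) (by decide +kernel)
     TY_u48
     TY_u49)))
    (CovZ.topM TY_LL 0 (by decide +kernel) (CovZ.badM (by decide +kernel)))

theorem TY_s5_9 : SqZ TY_M TY_L [0, 7, 4, 3] (-2816) 10304 32 5 9 :=
  SqZ.mk (a := (-2656)) (b := (-2624)) (c := 10592) (d := 10624) (by norm_num) (by norm_num) (by norm_num) (by norm_num)
    (CovZ.topM TY_LL 7 (by decide +kernel) (CovZ.n2 (-2640, 10608) (by decide +kernel)
    TY_u50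
    TY_u51))
    (CovZ.topM TY_LL 7 (by decide +kernel) (CovZ.n0 (-2640, 10608) (by decide +kernel)
    (CovZ.n2 (-2656, 10608) (by decide +kernel)
     TY_u52
     TY_u53)
    (CovZ.n1 (-2640, 10624) (by decide +kernel)
     TY_u54
     TY_u55)))

theorem TY_s0_10 : SqZ TY_M TY_L [0, 7, 4, 3] (-2816) 10304 32 0 10 :=
  SqZ.mk (a := (-2816)) (b := (-2784)) (c := 10624) (d := 10656) (by norm_num) (by norm_num) (by norm_num) (by norm_num)
    (CovZ.topM TY_LL 0 (by decide +kernel) (CovZ.badM (by decide +kernel)))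
    (CovZ.topM TY_LL 0 (by decide +kernel) (CovZ.badM (by decide +kernel)))

theorem TY_s1_10 : SqZ TY_M TY_L [0, 7, 4, 3] (-2816) 10304 32 1 10 :=
  SqZ.mk (a := (-2784)) (b := (-2752)) (c := 10624) (d := 10656) (by norm_num) (by norm_num) (by norm_num) (by norm_num)
    (CovZ.topM TY_LL 0 (by decide +kernel) (CovZ.badM (by decide +kernel)))
    (CovZ.topM TY_LL 0 (by decide +kernel) (CovZ.badM (by decide +kernel)))

theorem TY_s2_10 : SqZ TY_M TY_L [0, 7, 4, 3] (-2816) 10304 32 2 10 :=
  SqZ.mk (a := (-2752)) (b := (-2720)) (c := 10624) (d := 10656) (by norm_num) (by norm_num) (by norm_num) (by norm_num)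
    (CovZ.topM TY_LL 0 (by decide +kernel) (CovZ.badM (by decide +kernel)))
    (CovZ.topM TY_LL 0 (by decide +kernel) (CovZ.badM (by decide +kernel)))

theorem TY_s3_10 : SqZ TY_M TY_L [0, 7, 4, 3] (-2816) 10304 32 3 10 :=
  SqZ.mk (a := (-2720)) (b := (-2688)) (c := 10624) (d := 10656) (by norm_num) (by norm_num) (by norm_num) (by norm_num)
    (CovZ.topM TY_LL 0 (by decide +kernel) (CovZ.badM (by decide +kernel)))
    (CovZ.topM TY_LL 0 (by decide +kernel) (CovZ.badM (by decide +kernel)))

theorem TY_s4_10 : SqZ TY_M TY_L [0, 7, 4, 3] (-2816) 10304 32 4 10 :=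
  SqZ.mk (a := (-2688)) (b := (-2656)) (c := 10624) (d := 10656) (by norm_num) (by norm_num) (by norm_num) (by norm_num)
    (CovZ.topM TY_LL 0 (by decide +kernel) (CovZ.badM (by decide +kernel)))
    (CovZ.topM TY_LL 0 (by decide +kernel) (CovZ.badM (by decide +kernel)))

theorem TY_s5_10 : SqZ TY_M TY_L [0, 7, 4, 3] (-2816) 10304 32 5 10 :=
  SqZ.mk (a := (-2656)) (b := (-2624)) (c := 10624) (d := 10656) (by norm_num) (by norm_num) (by norm_num) (by norm_num)
    (CovZ.topM TY_LL 7 (by decide +kernel) (CovZ.n2 (-2640, 10640) (by decide +kernel)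
    TY_u56
    TY_u57))
    (CovZ.topM TY_LL 0 (by decide +kernel) (CovZ.badM (by decide +kernel)))

end Pool.Agent.TET
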