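import Pool.Agent.Helper38_TET.RegS
import Pool.Agent.Helper38_TET.TY_S0
import Pool.Agent.Helper38_TET.TY_S1
import Pool.Agent.Helper38_TET.TY_S2

/-!
# MP_c7c9bf_co: certificates, family TY
-/

set_option autoImplicit false
set_option maxRecDepth 100000

namespace Pool.Agent.TET

theorem TY_r0 : ∀ i < 6, SqZ TY_M TY_L [0, 7, 4, 3] (-2816) 10304 32 i 0
  | 0, _ => TY_s0_0
  | 1, _ => TY_s1_0
  | 2, _ => TY_s2_0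
  | 3, _ => TY_s3_0
  | 4, _ => TY_s4_0
  | 5, _ => TY_s5_0
  | n + 6, h => absurd h (by omega)

theorem TY_r1 : ∀ i < 6, SqZ TY_M TY_L [0, 7, 4, 3] (-2816) 10304 32 i 1
  | 0, _ => TY_s0_1
  | 1, _ => TY_s1_1
  | 2, _ => TY_s2_1
  | 3, _ => TY_s3_1
  | 4, _ => TY_s4_1
  | 5, _ => TY_s5_1
  | n + 6, h => absurd h (by omega)

theorem TY_r2 : ∀ i < 6, SqZ TY_M TY_L [0, 7, 4, 3] (-2816) 10304 32 i 2
  | 0, _ => TY_s0_2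
  | 1, _ => TY_s1_2
  | 2, _ => TY_s2_2
  | 3, _ => TY_s3_2
  | 4, _ => TY_s4_2
  | 5, _ => TY_s5_2
  | n + 6, h => absurd h (by omega)

theorem TY_r3 : ∀ i < 6, SqZ TY_M TY_L [0, 7, 4, 3] (-2816) 10304 32 i 3
  | 0, _ => TY_s0_3
  | 1, _ => TY_s1_3
  | 2, _ => TY_s2_3
  | 3, _ => TY_s3_3
  | 4, _ => TY_s4_3
  | 5, _ => TY_s5_3
  | n + 6, h => absurd h (by omega)

theorem TY_r4 : ∀ i < 6, SqZ TY_M TY_L [0, 7, 4, 3] (-2816) 10304 32 i 4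
  | 0, _ => TY_s0_4
  | 1, _ => TY_s1_4
  | 2, _ => TY_s2_4
  | 3, _ => TY_s3_4
  | 4, _ => TY_s4_4
  | 5, _ => TY_s5_4
  | n + 6, h => absurd h (by omega)

theorem TY_r5 : ∀ i < 6, SqZ TY_M TY_L [0, 7, 4, 3] (-2816) 10304 32 i 5
  | 0, _ => TY_s0_5
  | 1, _ => TY_s1_5
  | 2, _ => TY_s2_5
  | 3, _ => TY_s3_5
  | 4, _ => TY_s4_5
  | 5, _ => TY_s5_5
  | n + 6, h => absurd h (by omega)

theorem TY_r6 : ∀ i < 6, SqZ TY_M TY_L [0, 7, 4, 3] (-2816) 10304 32 i 6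
  | 0, _ => TY_s0_6
  | 1, _ => TY_s1_6
  | 2, _ => TY_s2_6
  | 3, _ => TY_s3_6
  | 4, _ => TY_s4_6
  | 5, _ => TY_s5_6
  | n + 6, h => absurd h (by omega)

theorem TY_r7 : ∀ i < 6, SqZ TY_M TY_L [0, 7, 4, 3] (-2816) 10304 32 i 7
  | 0, _ => TY_s0_7
  | 1, _ => TY_s1_7
  | 2, _ => TY_s2_7
  | 3, _ => TY_s3_7
  | 4, _ => TY_s4_7
  | 5, _ => TY_s5_7
  | n + 6, h => absurd h (by omega)

theorem TY_r8 : ∀ i < 6, SqZ TY_M TY_L [0, 7, 4, 3] (-2816) 10304 32 i 8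
  | 0, _ => TY_s0_8
  | 1, _ => TY_s1_8
  | 2, _ => TY_s2_8
  | 3, _ => TY_s3_8
  | 4, _ => TY_s4_8
  | 5, _ => TY_s5_8
  | n + 6, h => absurd h (by omega)

theorem TY_r9 : ∀ i < 6, SqZ TY_M TY_L [0, 7, 4, 3] (-2816) 10304 32 i 9
  | 0, _ => TY_s0_9
  | 1, _ => TY_s1_9
  | 2, _ => TY_s2_9
  | 3, _ => TY_s3_9
  | 4, _ => TY_s4_9
  | 5, _ => TY_s5_9
  | n + 6, h => absurd h (by omega)

theorem TY_r10 : ∀ i < 6, SqZ TY_M TY_L [0, 7, 4, 3] (-2816) 10304 32 i 10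
  | 0, _ => TY_s0_10
  | 1, _ => TY_s1_10
  | 2, _ => TY_s2_10
  | 3, _ => TY_s3_10
  | 4, _ => TY_s4_10
  | 5, _ => TY_s5_10
  | n + 6, h => absurd h (by omega)

theorem TY_rows : ∀ j < 11, ∀ i < 6, SqZ TY_M TY_L [0, 7, 4, 3] (-2816) 10304 32 i j
  | 0, _ => TY_r0
  | 1, _ => TY_r1
  | 2, _ => TY_r2
  | 3, _ => TY_r3
  | 4, _ => TY_r4
  | 5, _ => TY_r5
  | 6, _ => TY_r6
  | 7, _ => TY_r7
  | 8, _ => TY_r8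
  | 9, _ => TY_r9
  | 10, _ => TY_r10
  | n + 11, h => absurd h (by omega)

theorem TY_cov (X Y : ℝ) (h1 : ((-2816 : ℤ) : ℝ) ≤ X) (h2 : X ≤ (-2624 : ℤ)) (h3 : ((10304 : ℤ) : ℝ) ≤ Y)
    (h4 : Y ≤ (10656 : ℤ)) : Out TY_L X Y ∨ GoodV [0, 7, 4, 3] (TY_M.v X Y) := by
  push_cast at h1 h2 h3 h4
  refine gridZ (by norm_num) (by norm_num) (by norm_num) TY_rows ?_ ?_ ?_ ?_ <;> push_cast <;> linarith

theorem TY_sc : ∀ a : Fin 3, (![1, 1, 120] : Fin 3 → ℝ) a ≠ 0 := by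
  intro a
  fin_cases a <;> simp

theorem TY_fr (x y : ℝ) : scl ![1, 1, 120] (VV ((-7 : ℤ) : ℝ) ((0 : ℤ) : ℝ) ((20 : ℤ) : ℝ) (x / (6 : ℤ)) (y / (6 : ℤ))) =
    TY_M.v (30720 * x / (1 : ℤ)) (30720 * y / (1 : ℤ)) := by
  funext i j
  fin_cases i <;> fin_cases j <;> simp [scl, VV, FM.v, Z3.ev, TY_M] <;> ring

end Pool.Agent.TET
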