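import Pool.Agent.Helper38_TET.TY_C

/-!
# MP_c7c9bf_co: certificates, family TY
-/

set_option autoImplicit false
set_option maxRecDepth 100000

namespace Pool.Agent.TET

theorem TY_rg0 : ROK [.q ⟨-13, -7, 0, 20⟩ ⟨17342, -9394, 18732, -26680⟩, .q ⟨-13, -7, 0, 20⟩ ⟨30881, -23461, 0, -7420⟩, .q ⟨-13, -7, 0, 20⟩ ⟨-15902, 7888, -19506, 27520⟩, .q ⟨-13, -7, 0, 20⟩ ⟨-21812, 16252, 0, 5560⟩] := by
  refine rok_w (v := ⟨-13, -7, 0, 20⟩) (q := 6) (by decide) (by decide) (by decide) TY_sc (k := 1) (by decide) (Q := [(-3122, 3122, -1334), (-4343, 0, -371), (2920, -3251, 1376), (3033, 0, 278)])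
    (P := [⟨-40980480, -3122, 3122⟩, ⟨-11397120, -4343, 0⟩, ⟨42270720, 2920, -3251⟩, ⟨8540160, 3033, 0⟩]) rfl rfl
    (List.mem_of_getElem? (i := 0) rfl) TY_fr TY_cov ?_
  · intro X Y h
    simp only [List.forall_mem_cons, List.not_mem_nil, false_imp_iff, implies_true, and_true] at h
    push_cast at h ⊢
    obtain ⟨h0, h1, h2, h3⟩ := h
    refine ⟨⟨?_, ?_⟩, ?_, ?_⟩ <;> linarith

theorem TY_rg1 : ROK [.q ⟨-13, -7, 0, 20⟩ ⟨16919, -9367, 17268, -24820⟩, .q ⟨-13, -7, 0, 20⟩ ⟨30881, -23461, 0, -7420⟩, .q ⟨-13, -7, 0, 20⟩ ⟨-9768, 4674, -12786, 17880⟩, .q ⟨-13, -7, 0, 20⟩ ⟨-32211, 27657, 17574, -13020⟩] := by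
  refine rok_w (v := ⟨-13, -7, 0, 20⟩) (q := 6) (by decide) (by decide) (by decide) TY_sc (k := 1) (by decide) (Q := [(-3009, 2878, -1241), (-4343, 0, -371), (1822, -2131, 894), (3850, 2929, -651)])
    (P := [⟨-38123520, -3009, 2878⟩, ⟨-11397120, -4343, 0⟩, ⟨27463680, 1822, -2131⟩, ⟨-19998720, 3850, 2929⟩]) rfl rfl
    (List.mem_of_getElem? (i := 1) rfl) TY_fr TY_cov ?_
  · intro X Y h
    simp only [List.forall_mem_cons, List.not_mem_nil, false_imp_iff, implies_true, and_true] at h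
    push_cast at h ⊢
    obtain ⟨h0, h1, h2, h3⟩ := h
    refine ⟨⟨?_, ?_⟩, ?_, ?_⟩ <;> linarith

theorem TY_rg2 : ROK [.q ⟨-13, -7, 0, 20⟩ ⟨19601, -10705, 20724, -29620⟩, .q ⟨-13, -7, 0, 20⟩ ⟨26396, -19468, 2712, -9640⟩, .q ⟨-13, -7, 0, 20⟩ ⟨-15902, 7888, -19506, 27520⟩, .q ⟨-13, -7, 0, 20⟩ ⟨-21812, 16252, 0, 5560⟩] := by
  refine rok_w (v := ⟨-13, -7, 0, 20⟩) (q := 6) (by decide) (by decide) (by decide) TY_sc (k := 1) (by decide) (Q := [(-3512, 3454, -1481), (-3807, 452, -482), (2920, -3251, 1376), (3033, 0, 278)])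
    (P := [⟨-45496320, -3512, 3454⟩, ⟨-14807040, -3807, 452⟩, ⟨42270720, 2920, -3251⟩, ⟨8540160, 3033, 0⟩]) rfl rfl
    (List.mem_of_getElem? (i := 2) rfl) TY_fr TY_cov ?_
  · intro X Y h
    simp only [List.forall_mem_cons, List.not_mem_nil, false_imp_iff, implies_true, and_true] at h
    push_cast at h ⊢
    obtain ⟨h0, h1, h2, h3⟩ := h
    refine ⟨⟨?_, ?_⟩, ?_, ?_⟩ <;> linarith

end Pool.Agent.TET
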