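import Pool.Agent.Helper38_TET.TY_M
import Pool.Agent.Helper38_TET.TY_L
import Pool.Agent.Helper38_TET.TY_30
import Pool.Agent.Helper38_TET.TY_31
import Pool.Agent.Helper38_TET.TY_37
import Pool.Agent.Helper38_TET.TY_38
import Pool.Agent.Helper38_TET.TY_39
import Pool.Agent.Helper38_TET.TY_40
import Pool.Agent.Helper38_TET.TY_44
import Pool.Agent.Helper38_TET.TY_45
import Pool.Agent.Helper38_TET.TY_46
import Pool.Agent.Helper38_TET.TY_47
import Pool.Agent.Helper38_TET.TY_48

/-!
# MP_c7c9bf_co: certificates, family TY
-/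

set_option autoImplicit false
set_option maxRecDepth 100000

namespace Pool.Agent.TET

theorem TY_u43 : CovZ TY_M (toL (selN TY_LN 7)) [0, 7, 4, 3] (-2704, 10560) (-2688, 10560) (-2704, 10576) :=
    (CovZ.n1 (-2696, 10568) (by decide +kernel)
      (CovZ.n2 (-2696, 10560) (by decide +kernel)
       (CovZ.n2 (-2700, 10564) (by decide +kernel)
        (CovZ.n2 (-2696, 10564) (by decide +kernel)
         (CovZ.n2 (-2698, 10562) (by decide +kernel)
          (CovZ.n2 (-2698, 10564) (by decide +kernel)
           (CovZ.leaf K3_ok TY_l4637 _)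
           (CovZ.leaf K3_ok TY_l4638 _))
          (CovZ.n1 (-2696, 10562) (by decide +kernel)
           (CovZ.leaf K3_ok TY_l4639 _)
           (CovZ.leaf K3_ok TY_l4640 _)))
         (CovZ.n1 (-2698, 10566) (by decide +kernel)
          (CovZ.n2 (-2696, 10566) (by decide +kernel)
           (CovZ.leaf K3_ok TY_l4641 _)
           (CovZ.leaf K2_ok TY_l4642 _))
          (CovZ.n1 (-2698, 10564) (by decide +kernel)
           (CovZ.leaf K3_ok TY_l4643 _)
           (CovZ.leaf K3_ok TY_l4644 _))))
        (CovZ.n1 (-2700, 10560) (by decide +kernel)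
         (CovZ.n2 (-2702, 10562) (by decide +kernel)
          (CovZ.n2 (-2700, 10562) (by decide +kernel)
           (CovZ.leaf K3_ok TY_l4645 _)
           (CovZ.leaf K3_ok TY_l4646 _))
          (CovZ.n1 (-2702, 10560) (by decide +kernel)
           (CovZ.leaf K3_ok TY_l4647 _)
           (CovZ.leaf K3_ok TY_l4648 _)))
         (CovZ.n1 (-2698, 10562) (by decide +kernel)
          (CovZ.n2 (-2698, 10560) (by decide +kernel)
           (CovZ.n2 (-2699, 10561) (by decide +kernel)
            (CovZ.leaf K3_ok TY_l4649 _)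
            (CovZ.leaf K3_ok TY_l4650 _))
           (CovZ.leaf K2_ok TY_l4651 _))
          (CovZ.leaf K3_ok TY_l4652 _))))
       (CovZ.n1 (-2692, 10564) (by decide +kernel)
        (CovZ.n2 (-2692, 10560) (by decide +kernel)
         (CovZ.n2 (-2694, 10562) (by decide +kernel)
          (CovZ.n2 (-2692, 10562) (by decide +kernel)
           (CovZ.leaf K3_ok TY_l4653 _)
           (CovZ.leaf K3_ok TY_l4654 _))
          (CovZ.n1 (-2694, 10560) (by decide +kernel)
           (CovZ.leaf K3_ok TY_l4655 _)
           (CovZ.leaf K2_ok TY_l4656 _)))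
         (CovZ.n1 (-2690, 10562) (by decide +kernel)
          (CovZ.n2 (-2690, 10560) (by decide +kernel)
           (CovZ.leaf K3_ok TY_l4657 _)
           (CovZ.leaf K3_ok TY_l4658 _))
          (CovZ.n1 (-2692, 10562) (by decide +kernel)
           (CovZ.leaf K3_ok TY_l4659 _)
           (CovZ.leaf K3_ok TY_l4660 _))))
        (CovZ.n1 (-2696, 10564) (by decide +kernel)
         (CovZ.n2 (-2694, 10566) (by decide +kernel)
          (CovZ.n2 (-2694, 10564) (by decide +kernel)
           (CovZ.leaf K3_ok TY_l4661 _)
           (CovZ.leaf K3_ok TY_l4662 _))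
          (CovZ.leaf K3_ok TY_l4663 _))
         (CovZ.n1 (-2694, 10562) (by decide +kernel)
          (CovZ.leaf K3_ok TY_l4664 _)
          (CovZ.n1 (-2694, 10564) (by decide +kernel)
           (CovZ.leaf K3_ok TY_l4665 _)
           (CovZ.leaf K3_ok TY_l4666 _))))))
      (CovZ.n1 (-2704, 10568) (by decide +kernel)
       (CovZ.n2 (-2700, 10572) (by decide +kernel)
        (CovZ.n2 (-2700, 10568) (by decide +kernel)
         (CovZ.n2 (-2702, 10570) (by decide +kernel)
          (CovZ.n2 (-2700, 10570) (by decide +kernel)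
           (CovZ.n2 (-2701, 10569) (by decide +kernel)
            (CovZ.leaf K2_ok TY_l4667 _)
            (CovZ.leaf K2_ok TY_l4668 _))
           (CovZ.leaf K3_ok TY_l4669 _))
          (CovZ.n1 (-2702, 10568) (by decide +kernel)
           (CovZ.leaf K3_ok TY_l4670 _)
           (CovZ.leaf K3_ok TY_l4671 _)))
         (CovZ.n1 (-2698, 10570) (by decide +kernel)
          (CovZ.n2 (-2698, 10568) (by decide +kernel)
           (CovZ.leaf K3_ok TY_l4672 _)
           (CovZ.n1 (-2697, 10569) (by decide +kernel)
            (CovZ.leaf K3_ok TY_l4673 _)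
            (CovZ.leaf K3_ok TY_l4674 _)))
          (CovZ.n1 (-2700, 10570) (by decide +kernel)
           (CovZ.leaf K3_ok TY_l4675 _)
           (CovZ.leaf K3_ok TY_l4676 _))))
        (CovZ.n1 (-2704, 10572) (by decide +kernel)
         (CovZ.n2 (-2702, 10574) (by decide +kernel)
          (CovZ.n2 (-2702, 10572) (by decide +kernel)
           (CovZ.n2 (-2703, 10573) (by decide +kernel)
            (CovZ.leaf K2_ok TY_l4677 _)
            (CovZ.leaf K3_ok TY_l4678 _))
           (CovZ.leaf K2_ok TY_l4679 _))
          (CovZ.n1 (-2704, 10574) (by decide +kernel)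
           (CovZ.n2 (-2703, 10575) (by decide +kernel)
            (CovZ.leaf K3_ok TY_l4680 _)
            (CovZ.leaf K3_ok TY_l4681 _))
           (CovZ.leaf K3_ok TY_l4682 _)))
         (CovZ.n1 (-2702, 10570) (by decide +kernel)
          (CovZ.n2 (-2704, 10570) (by decide +kernel)
           (CovZ.n2 (-2703, 10571) (by decide +kernel)
            (CovZ.leaf K3_ok TY_l4683 _)
            (CovZ.leaf K3_ok TY_l4684 _))
           (CovZ.leaf K3_ok TY_l4685 _))
          (CovZ.n1 (-2702, 10572) (by decide +kernel)
           (CovZ.leaf K3_ok TY_l4686 _)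
           (CovZ.leaf K3_ok TY_l4687 _)))))
       (CovZ.n1 (-2700, 10564) (by decide +kernel)
        (CovZ.n2 (-2704, 10564) (by decide +kernel)
         (CovZ.n2 (-2702, 10566) (by decide +kernel)
          (CovZ.n2 (-2702, 10564) (by decide +kernel)
           (CovZ.leaf K2_ok TY_l4688 _)
           (CovZ.n1 (-2701, 10565) (by decide +kernel)
            (CovZ.leaf K3_ok TY_l4689 _)
            (CovZ.leaf K3_ok TY_l4690 _)))
          (CovZ.n1 (-2704, 10566) (by decide +kernel)
           (CovZ.n2 (-2703, 10567) (by decide +kernel)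
            (CovZ.leaf K2_ok TY_l4691 _)
            (CovZ.leaf K3_ok TY_l4692 _))
           (CovZ.leaf K3_ok TY_l4693 _)))
         (CovZ.n1 (-2702, 10562) (by decide +kernel)
          (CovZ.n2 (-2704, 10562) (by decide +kernel)
           (CovZ.n2 (-2703, 10563) (by decide +kernel)
            (CovZ.leaf K3_ok TY_l4694 _)
            (CovZ.leaf K3_ok TY_l4695 _))
           (CovZ.leaf K3_ok TY_l4696 _))
          (CovZ.n1 (-2702, 10564) (by decide +kernel)
           (CovZ.leaf K3_ok TY_l4697 _)
           (CovZ.leaf K3_ok TY_l4698 _))))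
        (CovZ.n1 (-2700, 10568) (by decide +kernel)
         (CovZ.n2 (-2698, 10566) (by decide +kernel)
          (CovZ.n2 (-2700, 10566) (by decide +kernel)
           (CovZ.leaf K3_ok TY_l4699 _)
           (CovZ.n1 (-2699, 10565) (by decide +kernel)
            (CovZ.leaf K3_ok TY_l4700 _)
            (CovZ.leaf K2_ok TY_l4701 _)))
          (CovZ.n1 (-2698, 10568) (by decide +kernel)
           (CovZ.leaf K3_ok TY_l4702 _)
           (CovZ.leaf K3_ok TY_l4703 _)))
         (CovZ.n1 (-2702, 10566) (by decide +kernel)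
          (CovZ.n2 (-2702, 10568) (by decide +kernel)
           (CovZ.leaf K2_ok TY_l4704 _)
           (CovZ.n1 (-2703, 10567) (by decide +kernel)
            (CovZ.leaf K3_ok TY_l4705 _)
            (CovZ.leaf K3_ok TY_l4706 _)))
          (CovZ.leaf K3_ok TY_l4707 _))))))

theorem TY_u44 : CovZ TY_M (toL (selN TY_LN 7)) [0, 7, 4, 3] (-2656, 10592) (-2672, 10592) (-2672, 10576) :=
    (CovZ.n2 (-2664, 10584) (by decide +kernel)
      (CovZ.n2 (-2672, 10584) (by decide +kernel)
       (CovZ.n2 (-2668, 10588) (by decide +kernel)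
        (CovZ.n2 (-2668, 10584) (by decide +kernel)
         (CovZ.n2 (-2670, 10586) (by decide +kernel)
          (CovZ.leaf K2_ok TY_l5562 _)
          (CovZ.n1 (-2670, 10584) (by decide +kernel)
           (CovZ.leaf K2_ok TY_l5563 _)
           (CovZ.leaf K3_ok TY_l5564 _)))
         (CovZ.n1 (-2666, 10586) (by decide +kernel)
          (CovZ.n2 (-2666, 10584) (by decide +kernel)
           (CovZ.leaf K3_ok TY_l5565 _)
           (CovZ.leaf K3_ok TY_l5566 _))
          (CovZ.n1 (-2668, 10586) (by decide +kernel)
           (CovZ.leaf K3_ok TY_l5567 _)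
           (CovZ.leaf K3_ok TY_l5568 _))))
        (CovZ.n1 (-2672, 10588) (by decide +kernel)
         (CovZ.n2 (-2670, 10590) (by decide +kernel)
          (CovZ.n2 (-2670, 10588) (by decide +kernel)
           (CovZ.leaf K3_ok TY_l5569 _)
           (CovZ.leaf K3_ok TY_l5570 _))
          (CovZ.n1 (-2672, 10590) (by decide +kernel)
           (CovZ.leaf K3_ok TY_l5571 _)
           (CovZ.leaf K3_ok TY_l5572 _)))
         (CovZ.n1 (-2670, 10586) (by decide +kernel)
          (CovZ.n2 (-2672, 10586) (by decide +kernel)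
           (CovZ.leaf K3_ok TY_l5573 _)
           (CovZ.leaf K3_ok TY_l5574 _))
          (CovZ.n1 (-2670, 10588) (by decide +kernel)
           (CovZ.leaf K3_ok TY_l5575 _)
           (CovZ.n1 (-2671, 10587) (by decide +kernel)
            (CovZ.leaf K3_ok TY_l5576 _)
            (CovZ.leaf K3_ok TY_l5577 _))))))
       (CovZ.n1 (-2668, 10580) (by decide +kernel)
        (CovZ.n2 (-2672, 10580) (by decide +kernel)
         (CovZ.n2 (-2670, 10582) (by decide +kernel)
          (CovZ.n2 (-2670, 10580) (by decide +kernel)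
           (CovZ.leaf K3_ok TY_l5578 _)
           (CovZ.leaf K3_ok TY_l5579 _))
          (CovZ.leaf K3_ok TY_l5580 _))
         (CovZ.n1 (-2670, 10578) (by decide +kernel)
          (CovZ.leaf K3_ok TY_l5581 _)
          (CovZ.leaf K3_ok TY_l5582 _)))
        (CovZ.n1 (-2668, 10584) (by decide +kernel)
         (CovZ.n2 (-2666, 10582) (by decide +kernel)
          (CovZ.leaf K2_ok TY_l5583 _)
          (CovZ.n1 (-2666, 10584) (by decide +kernel)
           (CovZ.leaf K3_ok TY_l5584 _)
           (CovZ.leaf K3_ok TY_l5585 _)))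
         (CovZ.n1 (-2670, 10582) (by decide +kernel)
          (CovZ.n2 (-2670, 10584) (by decide +kernel)
           (CovZ.leaf K3_ok TY_l5586 _)
           (CovZ.leaf K3_ok TY_l5587 _))
          (CovZ.n1 (-2668, 10582) (by decide +kernel)
           (CovZ.leaf K3_ok TY_l5588 _)
           (CovZ.leaf K3_ok TY_l5589 _))))))
      (CovZ.n1 (-2664, 10592) (by decide +kernel)
       (CovZ.n2 (-2660, 10588) (by decide +kernel)
        (CovZ.n2 (-2664, 10588) (by decide +kernel)
         (CovZ.n2 (-2662, 10590) (by decide +kernel)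
          (CovZ.n2 (-2662, 10588) (by decide +kernel)
           (CovZ.leaf K3_ok TY_l5590 _)
           (CovZ.leaf K3_ok TY_l5591 _))
          (CovZ.n1 (-2664, 10590) (by decide +kernel)
           (CovZ.leaf K3_ok TY_l5592 _)
           (CovZ.leaf K2_ok TY_l5593 _)))
         (CovZ.n1 (-2662, 10586) (by decide +kernel)
          (CovZ.leaf K3_ok TY_l5594 _)
          (CovZ.n1 (-2662, 10588) (by decide +kernel)
           (CovZ.leaf K3_ok TY_l5595 _)
           (CovZ.leaf K2_ok TY_l5596 _))))
        (CovZ.n1 (-2660, 10592) (by decide +kernel)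
         (CovZ.n2 (-2658, 10590) (by decide +kernel)
          (CovZ.leaf K3_ok TY_l5597 _)
          (CovZ.leaf K3_ok TY_l5598 _))
         (CovZ.n1 (-2662, 10590) (by decide +kernel)
          (CovZ.leaf K3_ok TY_l5599 _)
          (CovZ.leaf K2_ok TY_l5600 _))))
       (CovZ.n1 (-2668, 10588) (by decide +kernel)
        (CovZ.n2 (-2668, 10592) (by decide +kernel)
         (CovZ.n2 (-2666, 10590) (by decide +kernel)
          (CovZ.leaf K3_ok TY_l5601 _)
          (CovZ.n1 (-2666, 10592) (by decide +kernel)
           (CovZ.leaf K3_ok TY_l5602 _)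
           (CovZ.leaf K3_ok TY_l5603 _)))
         (CovZ.n1 (-2670, 10590) (by decide +kernel)
          (CovZ.n2 (-2670, 10592) (by decide +kernel)
           (CovZ.leaf K3_ok TY_l5604 _)
           (CovZ.leaf K3_ok TY_l5605 _))
          (CovZ.leaf K2_ok TY_l5606 _)))
        (CovZ.n1 (-2664, 10588) (by decide +kernel)
         (CovZ.n2 (-2666, 10586) (by decide +kernel)
          (CovZ.n2 (-2666, 10588) (by decide +kernel)
           (CovZ.leaf K3_ok TY_l5607 _)
           (CovZ.leaf K3_ok TY_l5608 _))
          (CovZ.leaf K3_ok TY_l5609 _))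
         (CovZ.n1 (-2666, 10590) (by decide +kernel)
          (CovZ.n2 (-2664, 10590) (by decide +kernel)
           (CovZ.leaf K3_ok TY_l5610 _)
           (CovZ.leaf K3_ok TY_l5611 _))
          (CovZ.n1 (-2666, 10588) (by decide +kernel)
           (CovZ.leaf K3_ok TY_l5612 _)
           (CovZ.leaf K3_ok TY_l5613 _)))))))

theorem TY_u45 : CovZ TY_M (toL (selN TY_LN 7)) [0, 7, 4, 3] (-2672, 10592) (-2688, 10592) (-2672, 10576) :=
    (CovZ.n1 (-2680, 10584) (by decide +kernel)
      (CovZ.n2 (-2680, 10592) (by decide +kernel)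
       (CovZ.n2 (-2676, 10588) (by decide +kernel)
        (CovZ.n2 (-2680, 10588) (by decide +kernel)
         (CovZ.n2 (-2678, 10590) (by decide +kernel)
          (CovZ.n2 (-2678, 10588) (by decide +kernel)
           (CovZ.leaf K3_ok TY_l5614 _)
           (CovZ.n1 (-2677, 10589) (by decide +kernel)
            (CovZ.leaf K3_ok TY_l5615 _)
            (CovZ.leaf K2_ok TY_l5616 _)))
          (CovZ.n1 (-2680, 10590) (by decide +kernel)
           (CovZ.n2 (-2679, 10591) (by decide +kernel)
            (CovZ.leaf K3_ok TY_l5617 _)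
            (CovZ.leaf K3_ok TY_l5618 _))
           (CovZ.leaf K3_ok TY_l5619 _)))
         (CovZ.n1 (-2678, 10586) (by decide +kernel)
          (CovZ.n2 (-2680, 10586) (by decide +kernel)
           (CovZ.leaf K3_ok TY_l5620 _)
           (CovZ.n1 (-2679, 10585) (by decide +kernel)
            (CovZ.leaf K3_ok TY_l5621 _)
            (CovZ.leaf K3_ok TY_l5622 _)))
          (CovZ.n1 (-2678, 10588) (by decide +kernel)
           (CovZ.n2 (-2677, 10587) (by decide +kernel)
            (CovZ.leaf K3_ok TY_l5623 _)
            (CovZ.leaf K3_ok TY_l5624 _))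
           (CovZ.n1 (-2679, 10587) (by decide +kernel)
            (CovZ.leaf K2_ok TY_l5625 _)
            (CovZ.leaf K3_ok TY_l5626 _)))))
        (CovZ.n1 (-2676, 10592) (by decide +kernel)
         (CovZ.n2 (-2674, 10590) (by decide +kernel)
          (CovZ.leaf K3_ok TY_l5627 _)
          (CovZ.n1 (-2674, 10592) (by decide +kernel)
           (CovZ.leaf K3_ok TY_l5628 _)
           (CovZ.leaf K2_ok TY_l5629 _)))
         (CovZ.n1 (-2678, 10590) (by decide +kernel)
          (CovZ.n2 (-2678, 10592) (by decide +kernel)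
           (CovZ.leaf K3_ok TY_l5630 _)
           (CovZ.n1 (-2679, 10591) (by decide +kernel)
            (CovZ.leaf K3_ok TY_l5631 _)
            (CovZ.leaf K3_ok TY_l5632 _)))
          (CovZ.n1 (-2676, 10590) (by decide +kernel)
           (CovZ.leaf K3_ok TY_l5633 _)
           (CovZ.leaf K3_ok TY_l5634 _)))))
       (CovZ.n1 (-2684, 10588) (by decide +kernel)
        (CovZ.n2 (-2684, 10592) (by decide +kernel)
         (CovZ.n2 (-2682, 10590) (by decide +kernel)
          (CovZ.n2 (-2684, 10590) (by decide +kernel)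
           (CovZ.leaf K3_ok TY_l5635 _)
           (CovZ.leaf K3_ok TY_l5636 _))
          (CovZ.n1 (-2682, 10592) (by decide +kernel)
           (CovZ.leaf K3_ok TY_l5637 _)
           (CovZ.n1 (-2683, 10591) (by decide +kernel)
            (CovZ.n2 (-2683, 10592) (by decide +kernel)
             (CovZ.leaf K3_ok TY_l5638 _)
             (CovZ.leaf K3_ok TY_l5639 _))
            (CovZ.leaf K2_ok TY_l5640 _))))
         (CovZ.n1 (-2686, 10590) (by decide +kernel)
          (CovZ.n2 (-2686, 10592) (by decide +kernel)
           (CovZ.n2 (-2685, 10591) (by decide +kernel)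
            (CovZ.leaf K3_ok TY_l5641 _)
            (CovZ.leaf K3_ok TY_l5642 _))
           (CovZ.n1 (-2687, 10591) (by decide +kernel)
            (CovZ.badM (by decide +kernel))
            (CovZ.leaf K3_ok TY_l5643 _)))
          (CovZ.n1 (-2684, 10590) (by decide +kernel)
           (CovZ.n2 (-2685, 10589) (by decide +kernel)
            (CovZ.leaf K3_ok TY_l5644 _)
            (CovZ.leaf K3_ok TY_l5645 _))
           (CovZ.n1 (-2685, 10591) (by decide +kernel)
            (CovZ.leaf K3_ok TY_l5646 _)
            (CovZ.leaf K3_ok TY_l5647 _)))))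
        (CovZ.n1 (-2680, 10588) (by decide +kernel)
         (CovZ.n2 (-2682, 10586) (by decide +kernel)
          (CovZ.n2 (-2682, 10588) (by decide +kernel)
           (CovZ.leaf K3_ok TY_l5648 _)
           (CovZ.n1 (-2683, 10587) (by decide +kernel)
            (CovZ.leaf K3_ok TY_l5649 _)
            (CovZ.leaf K2_ok TY_l5650 _)))
          (CovZ.n1 (-2680, 10586) (by decide +kernel)
           (CovZ.n2 (-2681, 10585) (by decide +kernel)
            (CovZ.leaf K3_ok TY_l5651 _)
            (CovZ.leaf K3_ok TY_l5652 _))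
           (CovZ.leaf K3_ok TY_l5653 _)))
         (CovZ.n1 (-2682, 10590) (by decide +kernel)
          (CovZ.n2 (-2680, 10590) (by decide +kernel)
           (CovZ.n2 (-2681, 10589) (by decide +kernel)
            (CovZ.n2 (-2681, 10590) (by decide +kernel)
             (CovZ.leaf K3_ok TY_l5654 _)
             (CovZ.leaf K2_ok TY_l5655 _))
            (CovZ.leaf K2_ok TY_l5656 _))
           (CovZ.n1 (-2681, 10591) (by decide +kernel)
            (CovZ.leaf K2_ok TY_l5657 _)
            (CovZ.leaf K2_ok TY_l5658 _)))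
          (CovZ.n1 (-2682, 10588) (by decide +kernel)
           (CovZ.n2 (-2683, 10589) (by decide +kernel)
            (CovZ.leaf K3_ok TY_l5659 _)
            (CovZ.leaf K3_ok TY_l5660 _))
           (CovZ.n1 (-2681, 10589) (by decide +kernel)
            (CovZ.leaf K3_ok TY_l5661 _)
            (CovZ.leaf K3_ok TY_l5662 _)))))))
      (CovZ.n1 (-2672, 10584) (by decide +kernel)
       (CovZ.n2 (-2676, 10580) (by decide +kernel)
        (CovZ.n2 (-2676, 10584) (by decide +kernel)
         (CovZ.n2 (-2674, 10582) (by decide +kernel)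
          (CovZ.leaf K3_ok TY_l5663 _)
          (CovZ.n1 (-2674, 10584) (by decide +kernel)
           (CovZ.leaf K3_ok TY_l5664 _)
           (CovZ.leaf K3_ok TY_l5665 _)))
         (CovZ.n1 (-2678, 10582) (by decide +kernel)
          (CovZ.n2 (-2678, 10584) (by decide +kernel)
           (CovZ.leaf K3_ok TY_l5666 _)
           (CovZ.n1 (-2679, 10583) (by decide +kernel)
            (CovZ.leaf K3_ok TY_l5667 _)
            (CovZ.leaf K3_ok TY_l5668 _)))
          (CovZ.leaf K3_ok TY_l5669 _)))
        (CovZ.n1 (-2672, 10580) (by decide +kernel)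
         (CovZ.n2 (-2674, 10578) (by decide +kernel)
          (CovZ.leaf K3_ok TY_l5670 _)
          (CovZ.n1 (-2672, 10578) (by decide +kernel)
           (CovZ.leaf K3_ok TY_l5671 _)
           (CovZ.leaf K3_ok TY_l5672 _)))
         (CovZ.n1 (-2674, 10582) (by decide +kernel)
          (CovZ.leaf K3_ok TY_l5673 _)
          (CovZ.n1 (-2674, 10580) (by decide +kernel)
           (CovZ.leaf K3_ok TY_l5674 _)
           (CovZ.leaf K2_ok TY_l5675 _)))))
       (CovZ.n1 (-2676, 10588) (by decide +kernel)
        (CovZ.n2 (-2672, 10588) (by decide +kernel)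
         (CovZ.n2 (-2674, 10586) (by decide +kernel)
          (CovZ.n2 (-2674, 10588) (by decide +kernel)
           (CovZ.leaf K3_ok TY_l5676 _)
           (CovZ.leaf K3_ok TY_l5677 _))
          (CovZ.leaf K3_ok TY_l5678 _))
         (CovZ.n1 (-2674, 10590) (by decide +kernel)
          (CovZ.n2 (-2672, 10590) (by decide +kernel)
           (CovZ.leaf K3_ok TY_l5679 _)
           (CovZ.leaf K3_ok TY_l5680 _))
          (CovZ.n1 (-2674, 10588) (by decide +kernel)
           (CovZ.leaf K3_ok TY_l5681 _)
           (CovZ.n1 (-2673, 10589) (by decide +kernel)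
            (CovZ.leaf K3_ok TY_l5682 _)
            (CovZ.leaf K3_ok TY_l5683 _)))))
        (CovZ.n1 (-2676, 10584) (by decide +kernel)
         (CovZ.n2 (-2678, 10586) (by decide +kernel)
          (CovZ.n2 (-2676, 10586) (by decide +kernel)
           (CovZ.n2 (-2677, 10585) (by decide +kernel)
            (CovZ.leaf K3_ok TY_l5684 _)
            (CovZ.leaf K3_ok TY_l5685 _))
           (CovZ.leaf K3_ok TY_l5686 _))
          (CovZ.n1 (-2678, 10584) (by decide +kernel)
           (CovZ.leaf K3_ok TY_l5687 _)
           (CovZ.leaf K3_ok TY_l5688 _)))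
         (CovZ.n1 (-2674, 10586) (by decide +kernel)
          (CovZ.n2 (-2674, 10584) (by decide +kernel)
           (CovZ.leaf K3_ok TY_l5689 _)
           (CovZ.leaf K3_ok TY_l5690 _))
          (CovZ.n1 (-2676, 10586) (by decide +kernel)
           (CovZ.n2 (-2675, 10587) (by decide +kernel)
            (CovZ.leaf K3_ok TY_l5691 _)
            (CovZ.leaf K3_ok TY_l5692 _))
           (CovZ.leaf K3_ok TY_l5693 _)))))))

theorem TY_u46 : CovZ TY_M (toL (selN TY_LN 7)) [0, 7, 4, 3] (-2656, 10592) (-2656, 10608) (-2672, 10608) :=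
    (CovZ.n2 (-2664, 10600) (by decide +kernel)
      (CovZ.n2 (-2664, 10608) (by decide +kernel)
       (CovZ.n2 (-2660, 10604) (by decide +kernel)
        (CovZ.n2 (-2664, 10604) (by decide +kernel)
         (CovZ.n2 (-2662, 10606) (by decide +kernel)
          (CovZ.n2 (-2662, 10604) (by decide +kernel)
           (CovZ.n2 (-2663, 10605) (by decide +kernel)
            (CovZ.leaf K3_ok TY_l5694 _)
            (CovZ.leaf K3_ok TY_l5695 _))
           (CovZ.leaf K3_ok TY_l5696 _))
          (CovZ.n1 (-2664, 10606) (by decide +kernel)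
           (CovZ.n2 (-2663, 10607) (by decide +kernel)
            (CovZ.leaf K3_ok TY_l5697 _)
            (CovZ.leaf K3_ok TY_l5698 _))
           (CovZ.leaf K3_ok TY_l5699 _)))
         (CovZ.n1 (-2662, 10602) (by decide +kernel)
          (CovZ.leaf K3_ok TY_l5700 _)
          (CovZ.n1 (-2662, 10604) (by decide +kernel)
           (CovZ.leaf K3_ok TY_l5701 _)
           (CovZ.n1 (-2663, 10603) (by decide +kernel)
            (CovZ.leaf K3_ok TY_l5702 _)
            (CovZ.leaf K3_ok TY_l5703 _)))))
        (CovZ.n1 (-2660, 10608) (by decide +kernel)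
         (CovZ.n2 (-2658, 10606) (by decide +kernel)
          (CovZ.n2 (-2660, 10606) (by decide +kernel)
           (CovZ.leaf K3_ok TY_l5704 _)
           (CovZ.leaf K3_ok TY_l5705 _))
          (CovZ.n1 (-2658, 10608) (by decide +kernel)
           (CovZ.leaf K3_ok TY_l5706 _)
           (CovZ.n1 (-2659, 10607) (by decide +kernel)
            (CovZ.leaf K3_ok TY_l5707 _)
            (CovZ.leaf K3_ok TY_l5708 _))))
         (CovZ.n1 (-2662, 10606) (by decide +kernel)
          (CovZ.n2 (-2662, 10608) (by decide +kernel)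
           (CovZ.leaf K3_ok TY_l5709 _)
           (CovZ.n1 (-2663, 10607) (by decide +kernel)
            (CovZ.leaf K3_ok TY_l5710 _)
            (CovZ.leaf K3_ok TY_l5711 _)))
          (CovZ.n1 (-2660, 10606) (by decide +kernel)
           (CovZ.n2 (-2661, 10605) (by decide +kernel)
            (CovZ.leaf K3_ok TY_l5712 _)
            (CovZ.leaf K3_ok TY_l5713 _))
           (CovZ.leaf K3_ok TY_l5714 _)))))
       (CovZ.n1 (-2668, 10604) (by decide +kernel)
        (CovZ.n2 (-2668, 10608) (by decide +kernel)
         (CovZ.n2 (-2666, 10606) (by decide +kernel)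
          (CovZ.n2 (-2668, 10606) (by decide +kernel)
           (CovZ.n2 (-2667, 10607) (by decide +kernel)
            (CovZ.leaf K2_ok TY_l5715 _)
            (CovZ.leaf K3_ok TY_l5716 _))
           (CovZ.leaf K3_ok TY_l5717 _))
          (CovZ.n1 (-2666, 10608) (by decide +kernel)
           (CovZ.leaf K3_ok TY_l5718 _)
           (CovZ.n1 (-2667, 10607) (by decide +kernel)
            (CovZ.leaf K3_ok TY_l5719 _)
            (CovZ.leaf K3_ok TY_l5720 _))))
         (CovZ.n1 (-2670, 10606) (by decide +kernel)
          (CovZ.badM (by decide +kernel))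
          (CovZ.n1 (-2668, 10606) (by decide +kernel)
           (CovZ.n2 (-2669, 10605) (by decide +kernel)
            (CovZ.leaf K3_ok TY_l5721 _)
            (CovZ.leaf K3_ok TY_l5722 _))
           (CovZ.leaf K3_ok TY_l5723 _))))
        (CovZ.n1 (-2664, 10604) (by decide +kernel)
         (CovZ.n2 (-2666, 10602) (by decide +kernel)
          (CovZ.n2 (-2666, 10604) (by decide +kernel)
           (CovZ.n2 (-2665, 10603) (by decide +kernel)
            (CovZ.leaf K3_ok TY_l5724 _)
            (CovZ.leaf K3_ok TY_l5725 _))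
           (CovZ.n1 (-2667, 10603) (by decide +kernel)
            (CovZ.n2 (-2667, 10604) (by decide +kernel)
             (CovZ.leaf K3_ok TY_l5726 _)
             (CovZ.leaf K3_ok TY_l5727 _))
            (CovZ.leaf K3_ok TY_l5728 _)))
          (CovZ.n1 (-2664, 10602) (by decide +kernel)
           (CovZ.leaf K3_ok TY_l5729 _)
           (CovZ.leaf K3_ok TY_l5730 _)))
         (CovZ.n1 (-2666, 10606) (by decide +kernel)
          (CovZ.n2 (-2664, 10606) (by decide +kernel)
           (CovZ.n2 (-2665, 10605) (by decide +kernel)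
            (CovZ.leaf K3_ok TY_l5731 _)
            (CovZ.leaf K3_ok TY_l5732 _))
           (CovZ.n1 (-2665, 10607) (by decide +kernel)
            (CovZ.leaf K3_ok TY_l5733 _)
            (CovZ.leaf K3_ok TY_l5734 _)))
          (CovZ.n1 (-2666, 10604) (by decide +kernel)
           (CovZ.leaf K3_ok TY_l5735 _)
           (CovZ.leaf K2_ok TY_l5736 _))))))
      (CovZ.n1 (-2656, 10600) (by decide +kernel)
       (CovZ.n2 (-2660, 10596) (by decide +kernel)
        (CovZ.n2 (-2660, 10600) (by decide +kernel)
         (CovZ.n2 (-2658, 10598) (by decide +kernel)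
          (CovZ.n2 (-2660, 10598) (by decide +kernel)
           (CovZ.leaf K3_ok TY_l5737 _)
           (CovZ.leaf K3_ok TY_l5738 _))
          (CovZ.n1 (-2658, 10600) (by decide +kernel)
           (CovZ.leaf K3_ok TY_l5739 _)
           (CovZ.leaf K2_ok TY_l5740 _)))
         (CovZ.n1 (-2662, 10598) (by decide +kernel)
          (CovZ.n2 (-2662, 10600) (by decide +kernel)
           (CovZ.leaf K3_ok TY_l5741 _)
           (CovZ.leaf K3_ok TY_l5742 _))
          (CovZ.n1 (-2660, 10598) (by decide +kernel)
           (CovZ.leaf K3_ok TY_l5743 _)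
           (CovZ.leaf K2_ok TY_l5744 _))))
        (CovZ.n1 (-2656, 10596) (by decide +kernel)
         (CovZ.n2 (-2658, 10594) (by decide +kernel)
          (CovZ.leaf K3_ok TY_l5745 _)
          (CovZ.leaf K3_ok TY_l5746 _))
         (CovZ.n1 (-2658, 10598) (by decide +kernel)
          (CovZ.n2 (-2656, 10598) (by decide +kernel)
           (CovZ.n2 (-2657, 10597) (by decide +kernel)
            (CovZ.leaf K2_ok TY_l5747 _)
            (CovZ.leaf K3_ok TY_l5748 _))
           (CovZ.leaf K3_ok TY_l5749 _))
          (CovZ.n1 (-2658, 10596) (by decide +kernel)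
           (CovZ.leaf K3_ok TY_l5750 _)
           (CovZ.n1 (-2657, 10597) (by decide +kernel)
            (CovZ.leaf K2_ok TY_l5751 _)
            (CovZ.leaf K3_ok TY_l5752 _))))))
       (CovZ.n1 (-2660, 10604) (by decide +kernel)
        (CovZ.n2 (-2656, 10604) (by decide +kernel)
         (CovZ.n2 (-2658, 10602) (by decide +kernel)
          (CovZ.n2 (-2658, 10604) (by decide +kernel)
           (CovZ.leaf K3_ok TY_l5753 _)
           (CovZ.n1 (-2659, 10603) (by decide +kernel)
            (CovZ.leaf K3_ok TY_l5754 _)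
            (CovZ.leaf K3_ok TY_l5755 _)))
          (CovZ.leaf K3_ok TY_l5756 _))
         (CovZ.n1 (-2658, 10606) (by decide +kernel)
          (CovZ.n2 (-2656, 10606) (by decide +kernel)
           (CovZ.n2 (-2657, 10605) (by decide +kernel)
            (CovZ.leaf K3_ok TY_l5757 _)
            (CovZ.leaf K3_ok TY_l5758 _))
           (CovZ.leaf K3_ok TY_l5759 _))
          (CovZ.n1 (-2658, 10604) (by decide +kernel)
           (CovZ.leaf K3_ok TY_l5760 _)
           (CovZ.leaf K3_ok TY_l5761 _))))
        (CovZ.n1 (-2660, 10600) (by decide +kernel)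
         (CovZ.n2 (-2662, 10602) (by decide +kernel)
          (CovZ.n2 (-2660, 10602) (by decide +kernel)
           (CovZ.leaf K3_ok TY_l5762 _)
           (CovZ.n1 (-2661, 10603) (by decide +kernel)
            (CovZ.leaf K3_ok TY_l5763 _)
            (CovZ.leaf K3_ok TY_l5764 _)))
          (CovZ.n1 (-2662, 10600) (by decide +kernel)
           (CovZ.leaf K3_ok TY_l5765 _)
           (CovZ.n1 (-2661, 10601) (by decide +kernel)
            (CovZ.leaf K3_ok TY_l5766 _)
            (CovZ.leaf K2_ok TY_l5767 _))))
         (CovZ.n1 (-2658, 10602) (by decide +kernel)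
          (CovZ.n2 (-2658, 10600) (by decide +kernel)
           (CovZ.leaf K3_ok TY_l5768 _)
           (CovZ.n1 (-2657, 10601) (by decide +kernel)
            (CovZ.leaf K3_ok TY_l5769 _)
            (CovZ.leaf K3_ok TY_l5770 _)))
          (CovZ.n1 (-2660, 10602) (by decide +kernel)
           (CovZ.n2 (-2659, 10603) (by decide +kernel)
            (CovZ.leaf K2_ok TY_l5771 _)
            (CovZ.leaf K3_ok TY_l5772 _))
           (CovZ.leaf K3_ok TY_l5773 _)))))))

theorem TY_u47 : CovZ TY_M (toL (selN TY_LN 7)) [0, 7, 4, 3] (-2656, 10608) (-2656, 10624) (-2672, 10608) :=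
    (CovZ.n1 (-2664, 10616) (by decide +kernel)
      (CovZ.n2 (-2656, 10616) (by decide +kernel)
       (CovZ.n2 (-2660, 10612) (by decide +kernel)
        (CovZ.n2 (-2660, 10616) (by decide +kernel)
         (CovZ.n2 (-2658, 10614) (by decide +kernel)
          (CovZ.n2 (-2660, 10614) (by decide +kernel)
           (CovZ.n2 (-2659, 10615) (by decide +kernel)
            (CovZ.leaf K3_ok TY_l5774 _)
            (CovZ.badM (by decide +kernel)))
           (CovZ.leaf K2_ok TY_l5775 _))
          (CovZ.n1 (-2658, 10616) (by decide +kernel)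
           (CovZ.leaf K3_ok TY_l5776 _)
           (CovZ.n1 (-2659, 10615) (by decide +kernel)
            (CovZ.badM (by decide +kernel))
            (CovZ.leaf K2_ok TY_l5777 _))))
         (CovZ.n1 (-2662, 10614) (by decide +kernel)
          (CovZ.badM (by decide +kernel))
          (CovZ.n1 (-2660, 10614) (by decide +kernel)
           (CovZ.n2 (-2661, 10613) (by decide +kernel)
            (CovZ.badM (by decide +kernel))
            (CovZ.n1 (-2660, 10613) (by decide +kernel)
             (CovZ.leaf K2_ok TY_l5778 _)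
             (CovZ.leaf K3_ok TY_l5779 _)))
           (CovZ.badM (by decide +kernel)))))
        (CovZ.n1 (-2656, 10612) (by decide +kernel)
         (CovZ.n2 (-2658, 10610) (by decide +kernel)
          (CovZ.n2 (-2658, 10612) (by decide +kernel)
           (CovZ.n2 (-2657, 10611) (by decide +kernel)
            (CovZ.leaf K3_ok TY_l5780 _)
            (CovZ.leaf K3_ok TY_l5781 _))
           (CovZ.n1 (-2659, 10611) (by decide +kernel)
            (CovZ.leaf K3_ok TY_l5782 _)
            (CovZ.leaf K2_ok TY_l5783 _)))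
          (CovZ.n1 (-2656, 10610) (by decide +kernel)
           (CovZ.n2 (-2657, 10609) (by decide +kernel)
            (CovZ.leaf K3_ok TY_l5784 _)
            (CovZ.leaf K3_ok TY_l5785 _))
           (CovZ.leaf K3_ok TY_l5786 _)))
         (CovZ.n1 (-2658, 10614) (by decide +kernel)
          (CovZ.n2 (-2656, 10614) (by decide +kernel)
           (CovZ.n2 (-2657, 10613) (by decide +kernel)
            (CovZ.leaf K3_ok TY_l5787 _)
            (CovZ.leaf K3_ok TY_l5788 _))
           (CovZ.leaf K3_ok TY_l5789 _))
          (CovZ.n1 (-2658, 10612) (by decide +kernel)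
           (CovZ.n2 (-2659, 10613) (by decide +kernel)
            (CovZ.leaf K3_ok TY_l5790 _)
            (CovZ.leaf K3_ok TY_l5791 _))
           (CovZ.n1 (-2657, 10613) (by decide +kernel)
            (CovZ.leaf K3_ok TY_l5792 _)
            (CovZ.n1 (-2658, 10613) (by decide +kernel)
             (CovZ.leaf K3_ok TY_l5793 _)
             (CovZ.leaf K3_ok TY_l5794 _)))))))
       (CovZ.n1 (-2660, 10620) (by decide +kernel)
        (CovZ.n2 (-2656, 10620) (by decide +kernel)
         (CovZ.n2 (-2658, 10618) (by decide +kernel)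
          (CovZ.badM (by decide +kernel))
          (CovZ.n1 (-2656, 10618) (by decide +kernel)
           (CovZ.n2 (-2657, 10617) (by decide +kernel)
            (CovZ.badM (by decide +kernel))
            (CovZ.n1 (-2656, 10617) (by decide +kernel)
             (CovZ.leaf K3_ok TY_l5795 _)
             (CovZ.badM (by decide +kernel))))
           (CovZ.badM (by decide +kernel))))
         (CovZ.badM (by decide +kernel)))
        (CovZ.n1 (-2660, 10616) (by decide +kernel)
         (CovZ.badM (by decide +kernel))
         (CovZ.n1 (-2658, 10618) (by decide +kernel)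
          (CovZ.n2 (-2658, 10616) (by decide +kernel)
           (CovZ.badM (by decide +kernel))
           (CovZ.leaf K3_ok TY_l5797 _))
          (CovZ.badM (by decide +kernel))))))
      (CovZ.n1 (-2664, 10608) (by decide +kernel)
       (CovZ.n2 (-2668, 10612) (by decide +kernel)
        (CovZ.n2 (-2664, 10612) (by decide +kernel)
         (CovZ.n2 (-2666, 10610) (by decide +kernel)
          (CovZ.badM (by decide +kernel))
          (CovZ.n1 (-2664, 10610) (by decide +kernel)
           (CovZ.n2 (-2665, 10609) (by decide +kernel)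
            (CovZ.leaf K2_ok TY_l5798 _)
            (CovZ.leaf K3_ok TY_l5799 _))
           (CovZ.badM (by decide +kernel))))
         (CovZ.badM (by decide +kernel)))
        (CovZ.n1 (-2668, 10608) (by decide +kernel)
         (CovZ.badM (by decide +kernel))
         (CovZ.n1 (-2666, 10610) (by decide +kernel)
          (CovZ.n2 (-2666, 10608) (by decide +kernel)
           (CovZ.n2 (-2667, 10609) (by decide +kernel)
            (CovZ.leaf K2_ok TY_l5802 _)
            (CovZ.leaf K3_ok TY_l5803 _))
           (CovZ.n1 (-2665, 10609) (by decide +kernel)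
            (CovZ.leaf K3_ok TY_l5804 _)
            (CovZ.leaf K3_ok TY_l5805 _)))
          (CovZ.badM (by decide +kernel)))))
       (CovZ.n1 (-2660, 10612) (by decide +kernel)
        (CovZ.n2 (-2660, 10608) (by decide +kernel)
         (CovZ.n2 (-2662, 10610) (by decide +kernel)
          (CovZ.n2 (-2660, 10610) (by decide +kernel)
           (CovZ.leaf K3_ok TY_l5806 _)
           (CovZ.leaf K3_ok TY_l5807 _))
          (CovZ.n1 (-2662, 10608) (by decide +kernel)
           (CovZ.n2 (-2663, 10609) (by decide +kernel)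
            (CovZ.leaf K3_ok TY_l5808 _)
            (CovZ.leaf K3_ok TY_l5809 _))
           (CovZ.leaf K3_ok TY_l5810 _)))
         (CovZ.n1 (-2658, 10610) (by decide +kernel)
          (CovZ.n2 (-2658, 10608) (by decide +kernel)
           (CovZ.n2 (-2659, 10609) (by decide +kernel)
            (CovZ.leaf K3_ok TY_l5811 _)
            (CovZ.leaf K3_ok TY_l5812 _))
           (CovZ.n1 (-2657, 10609) (by decide +kernel)
            (CovZ.n2 (-2657, 10608) (by decide +kernel)
             (CovZ.leaf K3_ok TY_l5813 _)
             (CovZ.leaf K3_ok TY_l5814 _))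
            (CovZ.leaf K3_ok TY_l5815 _)))
          (CovZ.n1 (-2660, 10610) (by decide +kernel)
           (CovZ.n2 (-2659, 10611) (by decide +kernel)
            (CovZ.leaf K3_ok TY_l5816 _)
            (CovZ.leaf K3_ok TY_l5817 _))
           (CovZ.leaf K3_ok TY_l5818 _))))
        (CovZ.n1 (-2664, 10612) (by decide +kernel)
         (CovZ.n2 (-2662, 10614) (by decide +kernel)
          (CovZ.n2 (-2662, 10612) (by decide +kernel)
           (CovZ.badM (by decide +kernel))
           (CovZ.n1 (-2661, 10613) (by decide +kernel)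
            (CovZ.leaf K3_ok TY_l5821 _)
            (CovZ.badM (by decide +kernel))))
          (CovZ.badM (by decide +kernel)))
         (CovZ.n1 (-2662, 10610) (by decide +kernel)
          (CovZ.n2 (-2664, 10610) (by decide +kernel)
           (CovZ.n2 (-2663, 10611) (by decide +kernel)
            (CovZ.leaf K3_ok TY_l5823 _)
            (CovZ.badM (by decide +kernel)))
           (CovZ.leaf K3_ok TY_l5825 _))
          (CovZ.n1 (-2662, 10612) (by decide +kernel)
           (CovZ.leaf K3_ok TY_l5826 _)
           (CovZ.n1 (-2663, 10611) (by decide +kernel)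
            (CovZ.badM (by decide +kernel))
            (CovZ.leaf K3_ok TY_l5828 _))))))))

theorem TY_u48 : CovZ TY_M (toL (selN TY_LN 7)) [0, 7, 4, 3] (-2688, 10592) (-2672, 10592) (-2672, 10608) :=
    (CovZ.n2 (-2680, 10600) (by decide +kernel)
      (CovZ.n2 (-2672, 10600) (by decide +kernel)
       (CovZ.n2 (-2676, 10596) (by decide +kernel)
        (CovZ.n2 (-2676, 10600) (by decide +kernel)
         (CovZ.n2 (-2674, 10598) (by decide +kernel)
          (CovZ.n2 (-2676, 10598) (by decide +kernel)
           (CovZ.n2 (-2675, 10599) (by decide +kernel)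
            (CovZ.leaf K3_ok TY_l5829 _)
            (CovZ.leaf K2_ok TY_l5830 _))
           (CovZ.n1 (-2675, 10597) (by decide +kernel)
            (CovZ.leaf K3_ok TY_l5831 _)
            (CovZ.leaf K3_ok TY_l5832 _)))
          (CovZ.n1 (-2674, 10600) (by decide +kernel)
           (CovZ.n2 (-2673, 10599) (by decide +kernel)
            (CovZ.leaf K3_ok TY_l5833 _)
            (CovZ.leaf K3_ok TY_l5834 _))
           (CovZ.n1 (-2675, 10599) (by decide +kernel)
            (CovZ.leaf K3_ok TY_l5835 _)
            (CovZ.leaf K3_ok TY_l5836 _))))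
         (CovZ.n1 (-2678, 10598) (by decide +kernel)
          (CovZ.n2 (-2678, 10600) (by decide +kernel)
           (CovZ.n2 (-2677, 10599) (by decide +kernel)
            (CovZ.leaf K3_ok TY_l5837 _)
            (CovZ.badM (by decide +kernel)))
           (CovZ.n1 (-2679, 10599) (by decide +kernel)
            (CovZ.badM (by decide +kernel))
            (CovZ.leaf K3_ok TY_l5839 _)))
          (CovZ.n1 (-2676, 10598) (by decide +kernel)
           (CovZ.n2 (-2677, 10597) (by decide +kernel)
            (CovZ.leaf K3_ok TY_l5840 _)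
            (CovZ.leaf K2_ok TY_l5841 _))
           (CovZ.leaf K2_ok TY_l5842 _))))
        (CovZ.n1 (-2672, 10596) (by decide +kernel)
         (CovZ.n2 (-2674, 10594) (by decide +kernel)
          (CovZ.n2 (-2674, 10596) (by decide +kernel)
           (CovZ.leaf K3_ok TY_l5843 _)
           (CovZ.n1 (-2675, 10595) (by decide +kernel)
            (CovZ.leaf K2_ok TY_l5844 _)
            (CovZ.leaf K3_ok TY_l5845 _)))
          (CovZ.n1 (-2672, 10594) (by decide +kernel)
           (CovZ.n2 (-2673, 10593) (by decide +kernel)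
            (CovZ.leaf K3_ok TY_l5846 _)
            (CovZ.leaf K3_ok TY_l5847 _))
           (CovZ.leaf K3_ok TY_l5848 _)))
         (CovZ.n1 (-2674, 10598) (by decide +kernel)
          (CovZ.n2 (-2672, 10598) (by decide +kernel)
           (CovZ.n2 (-2673, 10597) (by decide +kernel)
            (CovZ.leaf K3_ok TY_l5849 _)
            (CovZ.leaf K2_ok TY_l5850 _))
           (CovZ.n1 (-2673, 10599) (by decide +kernel)
            (CovZ.leaf K3_ok TY_l5851 _)
            (CovZ.leaf K3_ok TY_l5852 _)))
          (CovZ.n1 (-2674, 10596) (by decide +kernel)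
           (CovZ.n2 (-2675, 10597) (by decide +kernel)
            (CovZ.leaf K3_ok TY_l5853 _)
            (CovZ.leaf K3_ok TY_l5854 _))
           (CovZ.leaf K3_ok TY_l5855 _)))))
       (CovZ.n1 (-2676, 10604) (by decide +kernel)
        (CovZ.n2 (-2672, 10604) (by decide +kernel)
         (CovZ.n2 (-2674, 10602) (by decide +kernel)
          (CovZ.badM (by decide +kernel))
          (CovZ.n1 (-2672, 10602) (by decide +kernel)
           (CovZ.n2 (-2673, 10601) (by decide +kernel)
            (CovZ.leaf K3_ok TY_l5856 _)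
            (CovZ.leaf K3_ok TY_l5857 _))
           (CovZ.n1 (-2673, 10603) (by decide +kernel)
            (CovZ.leaf K3_ok TY_l5858 _)
            (CovZ.n1 (-2673, 10602) (by decide +kernel)
             (CovZ.leaf K3_ok TY_l5859 _)
             (CovZ.leaf K2_ok TY_l5860 _)))))
         (CovZ.badM (by decide +kernel)))
        (CovZ.n1 (-2676, 10600) (by decide +kernel)
         (CovZ.badM (by decide +kernel))
         (CovZ.n1 (-2674, 10602) (by decide +kernel)
          (CovZ.n2 (-2674, 10600) (by decide +kernel)
           (CovZ.leaf K3_ok TY_l5863 _)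
           (CovZ.n1 (-2673, 10601) (by decide +kernel)
            (CovZ.leaf K3_ok TY_l5864 _)
            (CovZ.leaf K3_ok TY_l5865 _)))
          (CovZ.badM (by decide +kernel))))))
      (CovZ.n1 (-2680, 10592) (by decide +kernel)
       (CovZ.n2 (-2684, 10596) (by decide +kernel)
        (CovZ.n2 (-2680, 10596) (by decide +kernel)
         (CovZ.n2 (-2682, 10594) (by decide +kernel)
          (CovZ.n2 (-2682, 10596) (by decide +kernel)
           (CovZ.leaf K3_ok TY_l5867 _)
           (CovZ.n1 (-2683, 10595) (by decide +kernel)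
            (CovZ.badM (by decide +kernel))
            (CovZ.leaf K3_ok TY_l5868 _)))
          (CovZ.n1 (-2680, 10594) (by decide +kernel)
           (CovZ.leaf K3_ok TY_l5869 _)
           (CovZ.n1 (-2681, 10595) (by decide +kernel)
            (CovZ.leaf K3_ok TY_l5870 _)
            (CovZ.n1 (-2681, 10594) (by decide +kernel)
             (CovZ.leaf K2_ok TY_l5871 _)
             (CovZ.leaf K3_ok TY_l5872 _)))))
         (CovZ.n1 (-2682, 10598) (by decide +kernel)
          (CovZ.n2 (-2680, 10598) (by decide +kernel)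
           (CovZ.n2 (-2681, 10597) (by decide +kernel)
            (CovZ.badM (by decide +kernel))
            (CovZ.leaf K2_ok TY_l5873 _))
           (CovZ.badM (by decide +kernel)))
          (CovZ.n1 (-2682, 10596) (by decide +kernel)
           (CovZ.badM (by decide +kernel))
           (CovZ.n1 (-2681, 10597) (by decide +kernel)
            (CovZ.leaf K3_ok TY_l5874 _)
            (CovZ.badM (by decide +kernel))))))
        (CovZ.n1 (-2684, 10592) (by decide +kernel)
         (CovZ.n2 (-2686, 10594) (by decide +kernel)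
          (CovZ.n2 (-2684, 10594) (by decide +kernel)
           (CovZ.n2 (-2685, 10593) (by decide +kernel)
            (CovZ.badM (by decide +kernel))
            (CovZ.leaf K3_ok TY_l5875 _))
           (CovZ.badM (by decide +kernel)))
          (CovZ.n1 (-2686, 10592) (by decide +kernel)
           (CovZ.badM (by decide +kernel))
           (CovZ.n1 (-2685, 10593) (by decide +kernel)
            (CovZ.leaf K3_ok TY_l5876 _)
            (CovZ.badM (by decide +kernel)))))
         (CovZ.n1 (-2682, 10594) (by decide +kernel)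
          (CovZ.n2 (-2682, 10592) (by decide +kernel)
           (CovZ.n2 (-2683, 10593) (by decide +kernel)
            (CovZ.leaf K3_ok TY_l5877 _)
            (CovZ.n1 (-2683, 10592) (by decide +kernel)
             (CovZ.leaf K3_ok TY_l5878 _)
             (CovZ.leaf K3_ok TY_l5879 _)))
           (CovZ.n1 (-2681, 10593) (by decide +kernel)
            (CovZ.leaf K3_ok TY_l5880 _)
            (CovZ.leaf K3_ok TY_l5881 _)))
          (CovZ.n1 (-2684, 10594) (by decide +kernel)
           (CovZ.n2 (-2683, 10595) (by decide +kernel)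
            (CovZ.n2 (-2683, 10594) (by decide +kernel)
             (CovZ.badM (by decide +kernel))
             (CovZ.leaf K3_ok TY_l5882 _))
            (CovZ.badM (by decide +kernel)))
           (CovZ.leaf K3_ok TY_l5883 _)))))
       (CovZ.n1 (-2676, 10596) (by decide +kernel)
        (CovZ.n2 (-2676, 10592) (by decide +kernel)
         (CovZ.n2 (-2678, 10594) (by decide +kernel)
          (CovZ.n2 (-2676, 10594) (by decide +kernel)
           (CovZ.n2 (-2677, 10593) (by decide +kernel)
            (CovZ.leaf K3_ok TY_l5884 _)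
            (CovZ.leaf K2_ok TY_l5885 _))
           (CovZ.leaf K2_ok TY_l5886 _))
          (CovZ.n1 (-2678, 10592) (by decide +kernel)
           (CovZ.n2 (-2679, 10593) (by decide +kernel)
            (CovZ.leaf K2_ok TY_l5887 _)
            (CovZ.leaf K3_ok TY_l5888 _))
           (CovZ.n1 (-2677, 10593) (by decide +kernel)
            (CovZ.leaf K3_ok TY_l5889 _)
            (CovZ.leaf K2_ok TY_l5890 _))))
         (CovZ.n1 (-2674, 10594) (by decide +kernel)
          (CovZ.n2 (-2674, 10592) (by decide +kernel)
           (CovZ.n2 (-2675, 10593) (by decide +kernel)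
            (CovZ.leaf K3_ok TY_l5891 _)
            (CovZ.leaf K2_ok TY_l5892 _))
           (CovZ.n1 (-2673, 10593) (by decide +kernel)
            (CovZ.leaf K3_ok TY_l5893 _)
            (CovZ.leaf K2_ok TY_l5894 _)))
          (CovZ.n1 (-2676, 10594) (by decide +kernel)
           (CovZ.n2 (-2675, 10595) (by decide +kernel)
            (CovZ.n2 (-2675, 10594) (by decide +kernel)
             (CovZ.leaf K3_ok TY_l5895 _)
             (CovZ.leaf K3_ok TY_l5896 _))
            (CovZ.leaf K3_ok TY_l5897 _))
           (CovZ.n1 (-2675, 10593) (by decide +kernel)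
            (CovZ.leaf K3_ok TY_l5898 _)
            (CovZ.leaf K3_ok TY_l5899 _)))))
        (CovZ.n1 (-2680, 10596) (by decide +kernel)
         (CovZ.n2 (-2678, 10598) (by decide +kernel)
          (CovZ.n2 (-2678, 10596) (by decide +kernel)
           (CovZ.n2 (-2679, 10597) (by decide +kernel)
            (CovZ.leaf K3_ok TY_l5900 _)
            (CovZ.leaf K3_ok TY_l5901 _))
           (CovZ.n1 (-2677, 10597) (by decide +kernel)
            (CovZ.leaf K3_ok TY_l5902 _)
            (CovZ.leaf K3_ok TY_l5903 _)))
          (CovZ.n1 (-2680, 10598) (by decide +kernel)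
           (CovZ.n2 (-2679, 10599) (by decide +kernel)
            (CovZ.leaf K3_ok TY_l5904 _)
            (CovZ.badM (by decide +kernel)))
           (CovZ.n1 (-2679, 10597) (by decide +kernel)
            (CovZ.leaf K3_ok TY_l5905 _)
            (CovZ.leaf K3_ok TY_l5906 _))))
         (CovZ.n1 (-2678, 10594) (by decide +kernel)
          (CovZ.n2 (-2680, 10594) (by decide +kernel)
           (CovZ.n2 (-2679, 10595) (by decide +kernel)
            (CovZ.leaf K3_ok TY_l5907 _)
            (CovZ.leaf K3_ok TY_l5908 _))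
           (CovZ.leaf K3_ok TY_l5909 _))
          (CovZ.n1 (-2678, 10596) (by decide +kernel)
           (CovZ.leaf K3_ok TY_l5910 _)
           (CovZ.n1 (-2679, 10595) (by decide +kernel)
            (CovZ.leaf K3_ok TY_l5911 _)
            (CovZ.leaf K3_ok TY_l5912 _))))))))

theorem TY_u49 : CovZ TY_M (toL (selN TY_LN 7)) [0, 7, 4, 3] (-2672, 10592) (-2656, 10592) (-2672, 10608) :=
    (CovZ.n1 (-2664, 10600) (by decide +kernel)
      (CovZ.n2 (-2664, 10592) (by decide +kernel)
       (CovZ.n2 (-2668, 10596) (by decide +kernel)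
        (CovZ.n2 (-2664, 10596) (by decide +kernel)
         (CovZ.n2 (-2666, 10594) (by decide +kernel)
          (CovZ.n2 (-2666, 10596) (by decide +kernel)
           (CovZ.leaf K2_ok TY_l5913 _)
           (CovZ.n1 (-2667, 10595) (by decide +kernel)
            (CovZ.leaf K2_ok TY_l5914 _)
            (CovZ.leaf K3_ok TY_l5915 _)))
          (CovZ.n1 (-2664, 10594) (by decide +kernel)
           (CovZ.leaf K3_ok TY_l5916 _)
           (CovZ.leaf K3_ok TY_l5917 _)))
         (CovZ.n1 (-2666, 10598) (by decide +kernel)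
          (CovZ.n2 (-2664, 10598) (by decide +kernel)
           (CovZ.n2 (-2665, 10597) (by decide +kernel)
            (CovZ.n2 (-2665, 10598) (by decide +kernel)
             (CovZ.leaf K3_ok TY_l5918 _)
             (CovZ.leaf K3_ok TY_l5919 _))
            (CovZ.leaf K3_ok TY_l5920 _))
           (CovZ.leaf K3_ok TY_l5921 _))
          (CovZ.n1 (-2666, 10596) (by decide +kernel)
           (CovZ.leaf K3_ok TY_l5922 _)
           (CovZ.n1 (-2665, 10597) (by decide +kernel)
            (CovZ.leaf K3_ok TY_l5923 _)
            (CovZ.leaf K3_ok TY_l5924 _)))))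
        (CovZ.n1 (-2668, 10592) (by decide +kernel)
         (CovZ.n2 (-2670, 10594) (by decide +kernel)
          (CovZ.n2 (-2668, 10594) (by decide +kernel)
           (CovZ.n2 (-2669, 10593) (by decide +kernel)
            (CovZ.leaf K3_ok TY_l5925 _)
            (CovZ.leaf K3_ok TY_l5926 _))
           (CovZ.n1 (-2669, 10595) (by decide +kernel)
            (CovZ.leaf K3_ok TY_l5927 _)
            (CovZ.leaf K3_ok TY_l5928 _)))
          (CovZ.n1 (-2670, 10592) (by decide +kernel)
           (CovZ.n2 (-2671, 10593) (by decide +kernel)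
            (CovZ.leaf K3_ok TY_l5929 _)
            (CovZ.leaf K2_ok TY_l5930 _))
           (CovZ.leaf K3_ok TY_l5931 _)))
         (CovZ.n1 (-2666, 10594) (by decide +kernel)
          (CovZ.n2 (-2666, 10592) (by decide +kernel)
           (CovZ.leaf K2_ok TY_l5932 _)
           (CovZ.leaf K3_ok TY_l5933 _))
          (CovZ.n1 (-2668, 10594) (by decide +kernel)
           (CovZ.leaf K3_ok TY_l5934 _)
           (CovZ.leaf K3_ok TY_l5935 _)))))
       (CovZ.n1 (-2660, 10596) (by decide +kernel)
        (CovZ.n2 (-2660, 10592) (by decide +kernel)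
         (CovZ.n2 (-2662, 10594) (by decide +kernel)
          (CovZ.n2 (-2660, 10594) (by decide +kernel)
           (CovZ.n2 (-2661, 10593) (by decide +kernel)
            (CovZ.leaf K3_ok TY_l5936 _)
            (CovZ.leaf K3_ok TY_l5937 _))
           (CovZ.leaf K3_ok TY_l5938 _))
          (CovZ.n1 (-2662, 10592) (by decide +kernel)
           (CovZ.leaf K3_ok TY_l5939 _)
           (CovZ.leaf K3_ok TY_l5940 _)))
         (CovZ.n1 (-2658, 10594) (by decide +kernel)
          (CovZ.n2 (-2658, 10592) (by decide +kernel)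
           (CovZ.leaf K3_ok TY_l5941 _)
           (CovZ.leaf K3_ok TY_l5942 _))
          (CovZ.n1 (-2660, 10594) (by decide +kernel)
           (CovZ.leaf K3_ok TY_l5943 _)
           (CovZ.leaf K3_ok TY_l5944 _))))
        (CovZ.n1 (-2664, 10596) (by decide +kernel)
         (CovZ.n2 (-2662, 10598) (by decide +kernel)
          (CovZ.n2 (-2662, 10596) (by decide +kernel)
           (CovZ.leaf K2_ok TY_l5945 _)
           (CovZ.n1 (-2661, 10597) (by decide +kernel)
            (CovZ.leaf K3_ok TY_l5946 _)
            (CovZ.leaf K3_ok TY_l5947 _)))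
          (CovZ.n1 (-2664, 10598) (by decide +kernel)
           (CovZ.leaf K3_ok TY_l5948 _)
           (CovZ.leaf K3_ok TY_l5949 _)))
         (CovZ.n1 (-2662, 10594) (by decide +kernel)
          (CovZ.n2 (-2664, 10594) (by decide +kernel)
           (CovZ.leaf K3_ok TY_l5950 _)
           (CovZ.leaf K3_ok TY_l5951 _))
          (CovZ.n1 (-2662, 10596) (by decide +kernel)
           (CovZ.leaf K3_ok TY_l5952 _)
           (CovZ.leaf K3_ok TY_l5953 _))))))
      (CovZ.n1 (-2672, 10600) (by decide +kernel)
       (CovZ.n2 (-2668, 10604) (by decide +kernel)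
        (CovZ.n2 (-2668, 10600) (by decide +kernel)
         (CovZ.n2 (-2670, 10602) (by decide +kernel)
          (CovZ.n2 (-2668, 10602) (by decide +kernel)
           (CovZ.leaf K3_ok TY_l5954 _)
           (CovZ.n1 (-2669, 10603) (by decide +kernel)
            (CovZ.leaf K3_ok TY_l5955 _)
            (CovZ.leaf K3_ok TY_l5956 _)))
          (CovZ.n1 (-2670, 10600) (by decide +kernel)
           (CovZ.n2 (-2671, 10601) (by decide +kernel)
            (CovZ.leaf K3_ok TY_l5957 _)
            (CovZ.leaf K3_ok TY_l5958 _))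
           (CovZ.n1 (-2669, 10601) (by decide +kernel)
            (CovZ.leaf K3_ok TY_l5959 _)
            (CovZ.leaf K3_ok TY_l5960 _))))
         (CovZ.n1 (-2666, 10602) (by decide +kernel)
          (CovZ.n2 (-2666, 10600) (by decide +kernel)
           (CovZ.n2 (-2667, 10601) (by decide +kernel)
            (CovZ.leaf K3_ok TY_l5961 _)
            (CovZ.leaf K3_ok TY_l5962 _))
           (CovZ.n1 (-2665, 10601) (by decide +kernel)
            (CovZ.leaf K3_ok TY_l5963 _)
            (CovZ.leaf K3_ok TY_l5964 _)))
          (CovZ.n1 (-2668, 10602) (by decide +kernel)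
           (CovZ.n2 (-2667, 10603) (by decide +kernel)
            (CovZ.leaf K3_ok TY_l5965 _)
            (CovZ.n1 (-2668, 10603) (by decide +kernel)
             (CovZ.leaf K3_ok TY_l5966 _)
             (CovZ.leaf K3_ok TY_l5967 _)))
           (CovZ.leaf K3_ok TY_l5968 _))))
        (CovZ.n1 (-2672, 10604) (by decide +kernel)
         (CovZ.n2 (-2670, 10606) (by decide +kernel)
          (CovZ.n2 (-2670, 10604) (by decide +kernel)
           (CovZ.leaf K3_ok TY_l5969 _)
           (CovZ.n1 (-2669, 10605) (by decide +kernel)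
            (CovZ.n2 (-2669, 10604) (by decide +kernel)
             (CovZ.leaf K3_ok TY_l5970 _)
             (CovZ.leaf K3_ok TY_l5971 _))
            (CovZ.leaf K3_ok TY_l5972 _)))
          (CovZ.badM (by decide +kernel)))
         (CovZ.n1 (-2670, 10602) (by decide +kernel)
          (CovZ.n2 (-2672, 10602) (by decide +kernel)
           (CovZ.n2 (-2671, 10603) (by decide +kernel)
            (CovZ.leaf K3_ok TY_l5973 _)
            (CovZ.leaf K2_ok TY_l5974 _))
           (CovZ.n1 (-2671, 10601) (by decide +kernel)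
            (CovZ.leaf K3_ok TY_l5975 _)
            (CovZ.n1 (-2671, 10602) (by decide +kernel)
             (CovZ.leaf K3_ok TY_l5976 _)
             (CovZ.leaf K3_ok TY_l5977 _))))
          (CovZ.n1 (-2670, 10604) (by decide +kernel)
           (CovZ.leaf K3_ok TY_l5978 _)
           (CovZ.n1 (-2671, 10603) (by decide +kernel)
            (CovZ.leaf K2_ok TY_l5979 _)
            (CovZ.leaf K3_ok TY_l5980 _))))))
       (CovZ.n1 (-2668, 10596) (by decide +kernel)
        (CovZ.n2 (-2672, 10596) (by decide +kernel)
         (CovZ.n2 (-2670, 10598) (by decide +kernel)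
          (CovZ.n2 (-2670, 10596) (by decide +kernel)
           (CovZ.leaf K3_ok TY_l5981 _)
           (CovZ.n1 (-2669, 10597) (by decide +kernel)
            (CovZ.leaf K3_ok TY_l5982 _)
            (CovZ.n1 (-2670, 10597) (by decide +kernel)
             (CovZ.leaf K3_ok TY_l5983 _)
             (CovZ.leaf K3_ok TY_l5984 _))))
          (CovZ.n1 (-2672, 10598) (by decide +kernel)
           (CovZ.n2 (-2671, 10599) (by decide +kernel)
            (CovZ.leaf K3_ok TY_l5985 _)
            (CovZ.leaf K3_ok TY_l5986 _))
           (CovZ.leaf K3_ok TY_l5987 _)))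
         (CovZ.n1 (-2670, 10594) (by decide +kernel)
          (CovZ.n2 (-2672, 10594) (by decide +kernel)
           (CovZ.n2 (-2671, 10595) (by decide +kernel)
            (CovZ.leaf K2_ok TY_l5988 _)
            (CovZ.leaf K3_ok TY_l5989 _))
           (CovZ.leaf K2_ok TY_l5990 _))
          (CovZ.n1 (-2670, 10596) (by decide +kernel)
           (CovZ.leaf K2_ok TY_l5991 _)
           (CovZ.leaf K2_ok TY_l5992 _))))
        (CovZ.n1 (-2668, 10600) (by decide +kernel)
         (CovZ.n2 (-2666, 10598) (by decide +kernel)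
          (CovZ.n2 (-2668, 10598) (by decide +kernel)
           (CovZ.n2 (-2667, 10599) (by decide +kernel)
            (CovZ.leaf K3_ok TY_l5993 _)
            (CovZ.leaf K2_ok TY_l5994 _))
           (CovZ.leaf K3_ok TY_l5995 _))
          (CovZ.n1 (-2666, 10600) (by decide +kernel)
           (CovZ.leaf K3_ok TY_l5996 _)
           (CovZ.n1 (-2667, 10599) (by decide +kernel)
            (CovZ.leaf K3_ok TY_l5997 _)
            (CovZ.leaf K3_ok TY_l5998 _))))
         (CovZ.n1 (-2670, 10598) (by decide +kernel)
          (CovZ.n2 (-2670, 10600) (by decide +kernel)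
           (CovZ.leaf K3_ok TY_l5999 _)
           (CovZ.n1 (-2671, 10599) (by decide +kernel)
            (CovZ.leaf K3_ok TY_l6000 _)
            (CovZ.leaf K3_ok TY_l6001 _)))
          (CovZ.n1 (-2668, 10598) (by decide +kernel)
           (CovZ.n2 (-2669, 10597) (by decide +kernel)
            (CovZ.leaf K3_ok TY_l6002 _)
            (CovZ.leaf K3_ok TY_l6003 _))
           (CovZ.leaf K3_ok TY_l6004 _)))))))

theorem TY_u50 : CovZ TY_M (toL (selN TY_LN 7)) [0, 7, 4, 3] (-2624, 10624) (-2640, 10608) (-2624, 10592) :=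
    (CovZ.n2 (-2624, 10608) (by decide +kernel)
     (CovZ.n2 (-2632, 10600) (by decide +kernel)
      (CovZ.n2 (-2632, 10608) (by decide +kernel)
       (CovZ.n2 (-2628, 10604) (by decide +kernel)
        (CovZ.n2 (-2632, 10604) (by decide +kernel)
         (CovZ.n2 (-2630, 10606) (by decide +kernel)
          (CovZ.leaf K3_ok TY_l6619 _)
          (CovZ.leaf K3_ok TY_l6620 _))
         (CovZ.n1 (-2630, 10602) (by decide +kernel)
          (CovZ.leaf K3_ok TY_l6621 _)
          (CovZ.leaf K3_ok TY_l6622 _)))
        (CovZ.n1 (-2628, 10608) (by decide +kernel)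
         (CovZ.leaf K3_ok TY_l6623 _)
         (CovZ.n1 (-2630, 10606) (by decide +kernel)
          (CovZ.leaf K3_ok TY_l6624 _)
          (CovZ.leaf K3_ok TY_l6625 _))))
       (CovZ.n1 (-2636, 10604) (by decide +kernel)
        (CovZ.n2 (-2636, 10608) (by decide +kernel)
         (CovZ.n2 (-2634, 10606) (by decide +kernel)
          (CovZ.leaf K3_ok TY_l6626 _)
          (CovZ.leaf K3_ok TY_l6627 _))
         (CovZ.n1 (-2638, 10606) (by decide +kernel)
          (CovZ.leaf K3_ok TY_l6628 _)
          (CovZ.leaf K3_ok TY_l6629 _)))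
        (CovZ.n1 (-2632, 10604) (by decide +kernel)
         (CovZ.n2 (-2634, 10602) (by decide +kernel)
          (CovZ.leaf K3_ok TY_l6630 _)
          (CovZ.leaf K3_ok TY_l6631 _))
         (CovZ.n1 (-2634, 10606) (by decide +kernel)
          (CovZ.leaf K3_ok TY_l6632 _)
          (CovZ.n1 (-2634, 10604) (by decide +kernel)
           (CovZ.leaf K3_ok TY_l6633 _)
           (CovZ.leaf K3_ok TY_l6634 _))))))
      (CovZ.n1 (-2624, 10600) (by decide +kernel)
       (CovZ.n2 (-2628, 10596) (by decide +kernel)
        (CovZ.n2 (-2628, 10600) (by decide +kernel)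
         (CovZ.n2 (-2626, 10598) (by decide +kernel)
          (CovZ.leaf K2_ok TY_l6635 _)
          (CovZ.leaf K2_ok TY_l6636 _))
         (CovZ.n1 (-2630, 10598) (by decide +kernel)
          (CovZ.leaf K3_ok TY_l6637 _)
          (CovZ.leaf K3_ok TY_l6638 _)))
        (CovZ.n1 (-2624, 10596) (by decide +kernel)
         (CovZ.n2 (-2626, 10594) (by decide +kernel)
          (CovZ.leaf K3_ok TY_l6639 _)
          (CovZ.leaf K3_ok TY_l6640 _))
         (CovZ.leaf K3_ok TY_l6641 _)))
       (CovZ.n1 (-2628, 10604) (by decide +kernel)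
        (CovZ.n2 (-2624, 10604) (by decide +kernel)
         (CovZ.n2 (-2626, 10602) (by decide +kernel)
          (CovZ.leaf K3_ok TY_l6642 _)
          (CovZ.leaf K3_ok TY_l6643 _))
         (CovZ.n1 (-2626, 10606) (by decide +kernel)
          (CovZ.leaf K3_ok TY_l6644 _)
          (CovZ.leaf K2_ok TY_l6645 _)))
        (CovZ.n1 (-2628, 10600) (by decide +kernel)
         (CovZ.n2 (-2630, 10602) (by decide +kernel)
          (CovZ.leaf K3_ok TY_l6646 _)
          (CovZ.leaf K2_ok TY_l6647 _))
         (CovZ.n1 (-2626, 10602) (by decide +kernel)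
          (CovZ.leaf K2_ok TY_l6648 _)
          (CovZ.leaf K2_ok TY_l6649 _))))))
     (CovZ.n1 (-2632, 10616) (by decide +kernel)
      (CovZ.n2 (-2624, 10616) (by decide +kernel)
       (CovZ.n2 (-2628, 10612) (by decide +kernel)
        (CovZ.n2 (-2628, 10616) (by decide +kernel)
         (CovZ.n2 (-2626, 10614) (by decide +kernel)
          (CovZ.leaf K3_ok TY_l6650 _)
          (CovZ.leaf K3_ok TY_l6651 _))
         (CovZ.n1 (-2630, 10614) (by decide +kernel)
          (CovZ.leaf K3_ok TY_l6652 _)
          (CovZ.n1 (-2628, 10614) (by decide +kernel)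
           (CovZ.leaf K3_ok TY_l6653 _)
           (CovZ.leaf K3_ok TY_l6654 _))))
        (CovZ.n1 (-2624, 10612) (by decide +kernel)
         (CovZ.n2 (-2626, 10610) (by decide +kernel)
          (CovZ.leaf K3_ok TY_l6655 _)
          (CovZ.leaf K3_ok TY_l6656 _))
         (CovZ.n1 (-2626, 10614) (by decide +kernel)
          (CovZ.leaf K3_ok TY_l6657 _)
          (CovZ.leaf K3_ok TY_l6658 _))))
       (CovZ.n1 (-2628, 10620) (by decide +kernel)
        (CovZ.n2 (-2624, 10620) (by decide +kernel)
         (CovZ.n2 (-2626, 10618) (by decide +kernel)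
          (CovZ.n2 (-2626, 10620) (by decide +kernel)
           (CovZ.leaf K2_ok TY_l6659 _)
           (CovZ.leaf K3_ok TY_l6660 _))
          (CovZ.leaf K2_ok TY_l6661 _))
         (CovZ.n1 (-2626, 10622) (by decide +kernel)
          (CovZ.leaf K3_ok TY_l6662 _)
          (CovZ.n1 (-2626, 10620) (by decide +kernel)
           (CovZ.leaf K3_ok TY_l6663 _)
           (CovZ.leaf K3_ok TY_l6664 _))))
        (CovZ.n1 (-2628, 10616) (by decide +kernel)
         (CovZ.n2 (-2630, 10618) (by decide +kernel)
          (CovZ.n2 (-2628, 10618) (by decide +kernel)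
           (CovZ.leaf K3_ok TY_l6665 _)
           (CovZ.leaf K3_ok TY_l6666 _))
          (CovZ.leaf K3_ok TY_l6667 _))
         (CovZ.n1 (-2626, 10618) (by decide +kernel)
          (CovZ.leaf K3_ok TY_l6668 _)
          (CovZ.leaf K3_ok TY_l6669 _)))))
      (CovZ.n1 (-2632, 10608) (by decide +kernel)
       (CovZ.n2 (-2636, 10612) (by decide +kernel)
        (CovZ.n2 (-2632, 10612) (by decide +kernel)
         (CovZ.n2 (-2634, 10610) (by decide +kernel)
          (CovZ.leaf K3_ok TY_l6670 _)
          (CovZ.leaf K3_ok TY_l6671 _))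
         (CovZ.n1 (-2634, 10614) (by decide +kernel)
          (CovZ.n2 (-2632, 10614) (by decide +kernel)
           (CovZ.leaf K3_ok TY_l6672 _)
           (CovZ.leaf K3_ok TY_l6673 _))
          (CovZ.n1 (-2634, 10612) (by decide +kernel)
           (CovZ.leaf K2_ok TY_l6674 _)
           (CovZ.leaf K3_ok TY_l6675 _))))
        (CovZ.n1 (-2636, 10608) (by decide +kernel)
         (CovZ.n2 (-2638, 10610) (by decide +kernel)
          (CovZ.leaf K3_ok TY_l6676 _)
          (CovZ.n1 (-2638, 10608) (by decide +kernel)
           (CovZ.leaf K3_ok TY_l6677 _)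
           (CovZ.leaf K3_ok TY_l6678 _)))
         (CovZ.n1 (-2634, 10610) (by decide +kernel)
          (CovZ.leaf K3_ok TY_l6679 _)
          (CovZ.n1 (-2636, 10610) (by decide +kernel)
           (CovZ.leaf K3_ok TY_l6680 _)
           (CovZ.leaf K3_ok TY_l6681 _)))))
       (CovZ.n1 (-2628, 10612) (by decide +kernel)
        (CovZ.n2 (-2628, 10608) (by decide +kernel)
         (CovZ.n2 (-2630, 10610) (by decide +kernel)
          (CovZ.leaf K2_ok TY_l6682 _)
          (CovZ.n1 (-2630, 10608) (by decide +kernel)
           (CovZ.leaf K3_ok TY_l6683 _)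
           (CovZ.leaf K2_ok TY_l6684 _)))
         (CovZ.n1 (-2626, 10610) (by decide +kernel)
          (CovZ.leaf K3_ok TY_l6685 _)
          (CovZ.leaf K3_ok TY_l6686 _)))
        (CovZ.n1 (-2632, 10612) (by decide +kernel)
         (CovZ.n2 (-2630, 10614) (by decide +kernel)
          (CovZ.leaf K3_ok TY_l6687 _)
          (CovZ.leaf K3_ok TY_l6688 _))
         (CovZ.n1 (-2630, 10610) (by decide +kernel)
          (CovZ.leaf K3_ok TY_l6689 _)
          (CovZ.leaf K3_ok TY_l6690 _)))))))

theorem TY_u51 : CovZ TY_M (toL (selN TY_LN 7)) [0, 7, 4, 3] (-2640, 10608) (-2656, 10592) (-2624, 10592) :=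
    (CovZ.n1 (-2640, 10592) (by decide +kernel)
     (CovZ.n2 (-2648, 10600) (by decide +kernel)
      (CovZ.n2 (-2640, 10600) (by decide +kernel)
       (CovZ.n2 (-2644, 10596) (by decide +kernel)
        (CovZ.n2 (-2644, 10600) (by decide +kernel)
         (CovZ.n2 (-2642, 10598) (by decide +kernel)
          (CovZ.leaf K3_ok TY_l6691 _)
          (CovZ.leaf K3_ok TY_l6692 _))
         (CovZ.n1 (-2646, 10598) (by decide +kernel)
          (CovZ.leaf K3_ok TY_l6693 _)
          (CovZ.leaf K3_ok TY_l6694 _)))
        (CovZ.n1 (-2640, 10596) (by decide +kernel)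
         (CovZ.n2 (-2642, 10594) (by decide +kernel)
          (CovZ.leaf K3_ok TY_l6695 _)
          (CovZ.leaf K3_ok TY_l6696 _))
         (CovZ.n1 (-2642, 10598) (by decide +kernel)
          (CovZ.leaf K3_ok TY_l6697 _)
          (CovZ.leaf K3_ok TY_l6698 _))))
       (CovZ.n1 (-2644, 10604) (by decide +kernel)
        (CovZ.n2 (-2640, 10604) (by decide +kernel)
         (CovZ.n2 (-2642, 10602) (by decide +kernel)
          (CovZ.n2 (-2642, 10604) (by decide +kernel)
           (CovZ.leaf K3_ok TY_l6699 _)
           (CovZ.leaf K3_ok TY_l6700 _))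
          (CovZ.leaf K3_ok TY_l6701 _))
         (CovZ.n1 (-2642, 10606) (by decide +kernel)
          (CovZ.leaf K3_ok TY_l6702 _)
          (CovZ.leaf K2_ok TY_l6703 _)))
        (CovZ.n1 (-2644, 10600) (by decide +kernel)
         (CovZ.n2 (-2646, 10602) (by decide +kernel)
          (CovZ.leaf K2_ok TY_l6704 _)
          (CovZ.n1 (-2646, 10600) (by decide +kernel)
           (CovZ.leaf K3_ok TY_l6705 _)
           (CovZ.leaf K3_ok TY_l6706 _)))
         (CovZ.n1 (-2642, 10602) (by decide +kernel)
          (CovZ.leaf K3_ok TY_l6707 _)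
          (CovZ.leaf K3_ok TY_l6708 _)))))
      (CovZ.n1 (-2648, 10592) (by decide +kernel)
       (CovZ.n2 (-2652, 10596) (by decide +kernel)
        (CovZ.n2 (-2648, 10596) (by decide +kernel)
         (CovZ.n2 (-2650, 10594) (by decide +kernel)
          (CovZ.leaf K2_ok TY_l6709 _)
          (CovZ.leaf K3_ok TY_l6710 _))
         (CovZ.n1 (-2650, 10598) (by decide +kernel)
          (CovZ.leaf K3_ok TY_l6711 _)
          (CovZ.leaf K3_ok TY_l6712 _)))
        (CovZ.n1 (-2652, 10592) (by decide +kernel)
         (CovZ.n2 (-2654, 10594) (by decide +kernel)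
          (CovZ.leaf K2_ok TY_l6713 _)
          (CovZ.leaf K3_ok TY_l6714 _))
         (CovZ.n1 (-2650, 10594) (by decide +kernel)
          (CovZ.leaf K3_ok TY_l6715 _)
          (CovZ.leaf K3_ok TY_l6716 _))))
       (CovZ.n1 (-2644, 10596) (by decide +kernel)
        (CovZ.n2 (-2644, 10592) (by decide +kernel)
         (CovZ.n2 (-2646, 10594) (by decide +kernel)
          (CovZ.leaf K3_ok TY_l6717 _)
          (CovZ.leaf K3_ok TY_l6718 _))
         (CovZ.n1 (-2642, 10594) (by decide +kernel)
          (CovZ.leaf K3_ok TY_l6719 _)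
          (CovZ.leaf K3_ok TY_l6720 _)))
        (CovZ.n1 (-2648, 10596) (by decide +kernel)
         (CovZ.n2 (-2646, 10598) (by decide +kernel)
          (CovZ.leaf K3_ok TY_l6721 _)
          (CovZ.leaf K3_ok TY_l6722 _))
         (CovZ.leaf K3_ok TY_l6723 _)))))
     (CovZ.n1 (-2632, 10600) (by decide +kernel)
      (CovZ.n2 (-2632, 10592) (by decide +kernel)
       (CovZ.n2 (-2636, 10596) (by decide +kernel)
        (CovZ.n2 (-2632, 10596) (by decide +kernel)
         (CovZ.n2 (-2634, 10594) (by decide +kernel)
          (CovZ.n2 (-2634, 10596) (by decide +kernel)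
           (CovZ.leaf K3_ok TY_l6724 _)
           (CovZ.leaf K2_ok TY_l6725 _))
          (CovZ.leaf K3_ok TY_l6726 _))
         (CovZ.n1 (-2634, 10598) (by decide +kernel)
          (CovZ.leaf K3_ok TY_l6727 _)
          (CovZ.leaf K2_ok TY_l6728 _)))
        (CovZ.n1 (-2636, 10592) (by decide +kernel)
         (CovZ.n2 (-2638, 10594) (by decide +kernel)
          (CovZ.leaf K3_ok TY_l6729 _)
          (CovZ.leaf K3_ok TY_l6730 _))
         (CovZ.n1 (-2634, 10594) (by decide +kernel)
          (CovZ.leaf K3_ok TY_l6731 _)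
          (CovZ.leaf K3_ok TY_l6732 _))))
       (CovZ.n1 (-2628, 10596) (by decide +kernel)
        (CovZ.n2 (-2628, 10592) (by decide +kernel)
         (CovZ.n2 (-2630, 10594) (by decide +kernel)
          (CovZ.leaf K3_ok TY_l6733 _)
          (CovZ.leaf K2_ok TY_l6734 _))
         (CovZ.n1 (-2626, 10594) (by decide +kernel)
          (CovZ.leaf K3_ok TY_l6735 _)
          (CovZ.leaf K3_ok TY_l6736 _)))
        (CovZ.n1 (-2632, 10596) (by decide +kernel)
         (CovZ.n2 (-2630, 10598) (by decide +kernel)
          (CovZ.leaf K3_ok TY_l6737 _)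
          (CovZ.leaf K3_ok TY_l6738 _))
         (CovZ.leaf K3_ok TY_l6739 _))))
      (CovZ.n1 (-2640, 10600) (by decide +kernel)
       (CovZ.n2 (-2636, 10604) (by decide +kernel)
        (CovZ.n2 (-2636, 10600) (by decide +kernel)
         (CovZ.n2 (-2638, 10602) (by decide +kernel)
          (CovZ.n2 (-2636, 10602) (by decide +kernel)
           (CovZ.leaf K3_ok TY_l6740 _)
           (CovZ.leaf K3_ok TY_l6741 _))
          (CovZ.n1 (-2638, 10600) (by decide +kernel)
           (CovZ.leaf K3_ok TY_l6742 _)
           (CovZ.leaf K2_ok TY_l6743 _)))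
         (CovZ.n1 (-2634, 10602) (by decide +kernel)
          (CovZ.leaf K2_ok TY_l6744 _)
          (CovZ.leaf K3_ok TY_l6745 _)))
        (CovZ.n1 (-2640, 10604) (by decide +kernel)
         (CovZ.n2 (-2638, 10606) (by decide +kernel)
          (CovZ.leaf K3_ok TY_l6746 _)
          (CovZ.leaf K3_ok TY_l6747 _))
         (CovZ.n1 (-2638, 10602) (by decide +kernel)
          (CovZ.leaf K3_ok TY_l6748 _)
          (CovZ.leaf K3_ok TY_l6749 _))))
       (CovZ.n1 (-2636, 10596) (by decide +kernel)
        (CovZ.n2 (-2640, 10596) (by decide +kernel)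
         (CovZ.n2 (-2638, 10598) (by decide +kernel)
          (CovZ.leaf K2_ok TY_l6750 _)
          (CovZ.leaf K3_ok TY_l6751 _))
         (CovZ.leaf K3_ok TY_l6752 _))
        (CovZ.n1 (-2636, 10600) (by decide +kernel)
         (CovZ.leaf K3_ok TY_l6753 _)
         (CovZ.n1 (-2638, 10598) (by decide +kernel)
          (CovZ.leaf K3_ok TY_l6754 _)
          (CovZ.leaf K3_ok TY_l6755 _)))))))

theorem TY_u52 : CovZ TY_M (toL (selN TY_LN 7)) [0, 7, 4, 3] (-2656, 10624) (-2656, 10608) (-2640, 10608) :=
    (CovZ.n2 (-2648, 10616) (by decide +kernel)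
      (CovZ.n2 (-2648, 10608) (by decide +kernel)
       (CovZ.n2 (-2652, 10612) (by decide +kernel)
        (CovZ.n2 (-2648, 10612) (by decide +kernel)
         (CovZ.n2 (-2650, 10610) (by decide +kernel)
          (CovZ.n2 (-2650, 10612) (by decide +kernel)
           (CovZ.leaf K2_ok TY_l6756 _)
           (CovZ.n1 (-2651, 10611) (by decide +kernel)
            (CovZ.leaf K3_ok TY_l6757 _)
            (CovZ.leaf K3_ok TY_l6758 _)))
          (CovZ.n1 (-2648, 10610) (by decide +kernel)
           (CovZ.leaf K3_ok TY_l6759 _)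
           (CovZ.leaf K3_ok TY_l6760 _)))
         (CovZ.n1 (-2650, 10614) (by decide +kernel)
          (CovZ.n2 (-2648, 10614) (by decide +kernel)
           (CovZ.leaf K3_ok TY_l6761 _)
           (CovZ.leaf K3_ok TY_l6762 _))
          (CovZ.n1 (-2650, 10612) (by decide +kernel)
           (CovZ.leaf K3_ok TY_l6763 _)
           (CovZ.n1 (-2649, 10613) (by decide +kernel)
            (CovZ.leaf K3_ok TY_l6764 _)
            (CovZ.leaf K3_ok TY_l6765 _)))))
        (CovZ.n1 (-2652, 10608) (by decide +kernel)
         (CovZ.n2 (-2654, 10610) (by decide +kernel)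
          (CovZ.n2 (-2652, 10610) (by decide +kernel)
           (CovZ.leaf K3_ok TY_l6766 _)
           (CovZ.leaf K3_ok TY_l6767 _))
          (CovZ.n1 (-2654, 10608) (by decide +kernel)
           (CovZ.leaf K3_ok TY_l6768 _)
           (CovZ.n1 (-2653, 10609) (by decide +kernel)
            (CovZ.leaf K3_ok TY_l6769 _)
            (CovZ.leaf K3_ok TY_l6770 _))))
         (CovZ.n1 (-2650, 10610) (by decide +kernel)
          (CovZ.n2 (-2650, 10608) (by decide +kernel)
           (CovZ.leaf K3_ok TY_l6771 _)
           (CovZ.n1 (-2649, 10609) (by decide +kernel)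
            (CovZ.leaf K3_ok TY_l6772 _)
            (CovZ.leaf K3_ok TY_l6773 _)))
          (CovZ.n1 (-2652, 10610) (by decide +kernel)
           (CovZ.leaf K3_ok TY_l6774 _)
           (CovZ.leaf K3_ok TY_l6775 _)))))
       (CovZ.n1 (-2644, 10612) (by decide +kernel)
        (CovZ.n2 (-2644, 10608) (by decide +kernel)
         (CovZ.n2 (-2646, 10610) (by decide +kernel)
          (CovZ.leaf K3_ok TY_l6776 _)
          (CovZ.n1 (-2646, 10608) (by decide +kernel)
           (CovZ.leaf K3_ok TY_l6777 _)
           (CovZ.leaf K2_ok TY_l6778 _)))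
         (CovZ.n1 (-2642, 10610) (by decide +kernel)
          (CovZ.n2 (-2642, 10608) (by decide +kernel)
           (CovZ.leaf K3_ok TY_l6779 _)
           (CovZ.leaf K3_ok TY_l6780 _))
          (CovZ.leaf K3_ok TY_l6781 _)))
        (CovZ.n1 (-2648, 10612) (by decide +kernel)
         (CovZ.n2 (-2646, 10614) (by decide +kernel)
          (CovZ.n2 (-2646, 10612) (by decide +kernel)
           (CovZ.leaf K3_ok TY_l6782 _)
           (CovZ.leaf K2_ok TY_l6783 _))
          (CovZ.n1 (-2648, 10614) (by decide +kernel)
           (CovZ.n2 (-2647, 10615) (by decide +kernel)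
            (CovZ.leaf K3_ok TY_l6784 _)
            (CovZ.leaf K3_ok TY_l6785 _))
           (CovZ.leaf K3_ok TY_l6786 _)))
         (CovZ.n1 (-2646, 10610) (by decide +kernel)
          (CovZ.leaf K3_ok TY_l6787 _)
          (CovZ.n1 (-2646, 10612) (by decide +kernel)
           (CovZ.leaf K3_ok TY_l6788 _)
           (CovZ.leaf K2_ok TY_l6789 _))))))
      (CovZ.n1 (-2656, 10616) (by decide +kernel)
       (CovZ.n2 (-2652, 10620) (by decide +kernel)
        (CovZ.n2 (-2652, 10616) (by decide +kernel)
         (CovZ.n2 (-2654, 10618) (by decide +kernel)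
          (CovZ.n2 (-2652, 10618) (by decide +kernel)
           (CovZ.leaf K3_ok TY_l6790 _)
           (CovZ.leaf K2_ok TY_l6791 _))
          (CovZ.n1 (-2654, 10616) (by decide +kernel)
           (CovZ.n2 (-2655, 10617) (by decide +kernel)
            (CovZ.leaf K2_ok TY_l6792 _)
            (CovZ.n1 (-2655, 10616) (by decide +kernel)
             (CovZ.leaf K3_ok TY_l6793 _)
             (CovZ.leaf K3_ok TY_l6794 _)))
           (CovZ.leaf K2_ok TY_l6795 _)))
         (CovZ.n1 (-2650, 10618) (by decide +kernel)
          (CovZ.n2 (-2650, 10616) (by decide +kernel)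
           (CovZ.leaf K3_ok TY_l6796 _)
           (CovZ.n1 (-2649, 10617) (by decide +kernel)
            (CovZ.leaf K3_ok TY_l6797 _)
            (CovZ.leaf K2_ok TY_l6798 _)))
          (CovZ.n1 (-2652, 10618) (by decide +kernel)
           (CovZ.n2 (-2651, 10619) (by decide +kernel)
            (CovZ.leaf K3_ok TY_l6799 _)
            (CovZ.leaf K3_ok TY_l6800 _))
           (CovZ.leaf K3_ok TY_l6801 _))))
        (CovZ.n1 (-2656, 10620) (by decide +kernel)
         (CovZ.n2 (-2654, 10622) (by decide +kernel)
          (CovZ.n2 (-2654, 10620) (by decide +kernel)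
           (CovZ.badM (by decide +kernel))
           (CovZ.n1 (-2653, 10621) (by decide +kernel)
            (CovZ.leaf K2_ok TY_l6802 _)
            (CovZ.badM (by decide +kernel))))
          (CovZ.badM (by decide +kernel)))
         (CovZ.n1 (-2654, 10618) (by decide +kernel)
          (CovZ.n2 (-2656, 10618) (by decide +kernel)
           (CovZ.n2 (-2655, 10619) (by decide +kernel)
            (CovZ.leaf K3_ok TY_l6803 _)
            (CovZ.badM (by decide +kernel)))
           (CovZ.n1 (-2655, 10617) (by decide +kernel)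
            (CovZ.leaf K3_ok TY_l6804 _)
            (CovZ.leaf K3_ok TY_l6805 _)))
          (CovZ.n1 (-2654, 10620) (by decide +kernel)
           (CovZ.n2 (-2653, 10619) (by decide +kernel)
            (CovZ.leaf K3_ok TY_l6806 _)
            (CovZ.leaf K3_ok TY_l6807 _))
           (CovZ.n1 (-2655, 10619) (by decide +kernel)
            (CovZ.badM (by decide +kernel))
            (CovZ.leaf K3_ok TY_l6808 _))))))
       (CovZ.n1 (-2652, 10612) (by decide +kernel)
        (CovZ.n2 (-2656, 10612) (by decide +kernel)
         (CovZ.n2 (-2654, 10614) (by decide +kernel)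
          (CovZ.n2 (-2654, 10612) (by decide +kernel)
           (CovZ.n2 (-2655, 10613) (by decide +kernel)
            (CovZ.leaf K3_ok TY_l6809 _)
            (CovZ.leaf K3_ok TY_l6810 _))
           (CovZ.n1 (-2653, 10613) (by decide +kernel)
            (CovZ.leaf K3_ok TY_l6811 _)
            (CovZ.n1 (-2654, 10613) (by decide +kernel)
             (CovZ.leaf K3_ok TY_l6812 _)
             (CovZ.leaf K3_ok TY_l6813 _))))
          (CovZ.n1 (-2656, 10614) (by decide +kernel)
           (CovZ.n2 (-2655, 10615) (by decide +kernel)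
            (CovZ.leaf K3_ok TY_l6814 _)
            (CovZ.leaf K3_ok TY_l6815 _))
           (CovZ.leaf K3_ok TY_l6816 _)))
         (CovZ.n1 (-2654, 10610) (by decide +kernel)
          (CovZ.n2 (-2656, 10610) (by decide +kernel)
           (CovZ.n2 (-2655, 10611) (by decide +kernel)
            (CovZ.leaf K3_ok TY_l6817 _)
            (CovZ.leaf K3_ok TY_l6818 _))
           (CovZ.leaf K3_ok TY_l6819 _))
          (CovZ.n1 (-2654, 10612) (by decide +kernel)
           (CovZ.leaf K3_ok TY_l6820 _)
           (CovZ.n1 (-2655, 10611) (by decide +kernel)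
            (CovZ.leaf K2_ok TY_l6821 _)
            (CovZ.leaf K3_ok TY_l6822 _)))))
        (CovZ.n1 (-2652, 10616) (by decide +kernel)
         (CovZ.n2 (-2650, 10614) (by decide +kernel)
          (CovZ.n2 (-2652, 10614) (by decide +kernel)
           (CovZ.leaf K3_ok TY_l6823 _)
           (CovZ.leaf K3_ok TY_l6824 _))
          (CovZ.n1 (-2650, 10616) (by decide +kernel)
           (CovZ.leaf K3_ok TY_l6825 _)
           (CovZ.n1 (-2651, 10615) (by decide +kernel)
            (CovZ.leaf K2_ok TY_l6826 _)
            (CovZ.leaf K3_ok TY_l6827 _))))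
         (CovZ.n1 (-2654, 10614) (by decide +kernel)
          (CovZ.n2 (-2654, 10616) (by decide +kernel)
           (CovZ.leaf K3_ok TY_l6828 _)
           (CovZ.n1 (-2655, 10615) (by decide +kernel)
            (CovZ.leaf K3_ok TY_l6829 _)
            (CovZ.n1 (-2654, 10615) (by decide +kernel)
             (CovZ.leaf K3_ok TY_l6830 _)
             (CovZ.leaf K3_ok TY_l6831 _))))
          (CovZ.n1 (-2652, 10614) (by decide +kernel)
           (CovZ.n2 (-2653, 10613) (by decide +kernel)
            (CovZ.n2 (-2653, 10614) (by decide +kernel)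
             (CovZ.leaf K3_ok TY_l6832 _)
             (CovZ.leaf K3_ok TY_l6833 _))
            (CovZ.leaf K3_ok TY_l6834 _))
           (CovZ.n1 (-2653, 10615) (by decide +kernel)
            (CovZ.leaf K2_ok TY_l6835 _)
            (CovZ.leaf K3_ok TY_l6836 _))))))))

theorem TY_u53 : CovZ TY_M (toL (selN TY_LN 7)) [0, 7, 4, 3] (-2656, 10608) (-2656, 10592) (-2640, 10608) :=
    (CovZ.n1 (-2648, 10600) (by decide +kernel)
      (CovZ.n2 (-2656, 10600) (by decide +kernel)
       (CovZ.n2 (-2652, 10604) (by decide +kernel)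
        (CovZ.n2 (-2652, 10600) (by decide +kernel)
         (CovZ.n2 (-2654, 10602) (by decide +kernel)
          (CovZ.leaf K3_ok TY_l6837 _)
          (CovZ.n1 (-2654, 10600) (by decide +kernel)
           (CovZ.leaf K3_ok TY_l6838 _)
           (CovZ.n1 (-2653, 10601) (by decide +kernel)
            (CovZ.leaf K3_ok TY_l6839 _)
            (CovZ.leaf K3_ok TY_l6840 _))))
         (CovZ.n1 (-2650, 10602) (by decide +kernel)
          (CovZ.n2 (-2650, 10600) (by decide +kernel)
           (CovZ.leaf K3_ok TY_l6841 _)
           (CovZ.leaf K3_ok TY_l6842 _))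
          (CovZ.leaf K3_ok TY_l6843 _)))
        (CovZ.n1 (-2656, 10604) (by decide +kernel)
         (CovZ.n2 (-2654, 10606) (by decide +kernel)
          (CovZ.n2 (-2654, 10604) (by decide +kernel)
           (CovZ.leaf K3_ok TY_l6844 _)
           (CovZ.leaf K2_ok TY_l6845 _))
          (CovZ.n1 (-2656, 10606) (by decide +kernel)
           (CovZ.n2 (-2655, 10607) (by decide +kernel)
            (CovZ.leaf K3_ok TY_l6846 _)
            (CovZ.leaf K3_ok TY_l6847 _))
           (CovZ.leaf K3_ok TY_l6848 _)))
         (CovZ.n1 (-2654, 10602) (by decide +kernel)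
          (CovZ.n2 (-2656, 10602) (by decide +kernel)
           (CovZ.leaf K2_ok TY_l6849 _)
           (CovZ.leaf K3_ok TY_l6850 _))
          (CovZ.n1 (-2654, 10604) (by decide +kernel)
           (CovZ.leaf K3_ok TY_l6851 _)
           (CovZ.leaf K3_ok TY_l6852 _)))))
       (CovZ.n1 (-2652, 10596) (by decide +kernel)
        (CovZ.n2 (-2656, 10596) (by decide +kernel)
         (CovZ.n2 (-2654, 10598) (by decide +kernel)
          (CovZ.n2 (-2654, 10596) (by decide +kernel)
           (CovZ.leaf K2_ok TY_l6853 _)
           (CovZ.leaf K3_ok TY_l6854 _))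
          (CovZ.leaf K3_ok TY_l6855 _))
         (CovZ.n1 (-2654, 10594) (by decide +kernel)
          (CovZ.leaf K2_ok TY_l6856 _)
          (CovZ.leaf K2_ok TY_l6857 _)))
        (CovZ.n1 (-2652, 10600) (by decide +kernel)
         (CovZ.n2 (-2650, 10598) (by decide +kernel)
          (CovZ.leaf K3_ok TY_l6858 _)
          (CovZ.leaf K2_ok TY_l6859 _))
         (CovZ.n1 (-2654, 10598) (by decide +kernel)
          (CovZ.leaf K3_ok TY_l6860 _)
          (CovZ.leaf K3_ok TY_l6861 _)))))
      (CovZ.n1 (-2648, 10608) (by decide +kernel)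
       (CovZ.n2 (-2644, 10604) (by decide +kernel)
        (CovZ.n2 (-2648, 10604) (by decide +kernel)
         (CovZ.n2 (-2646, 10606) (by decide +kernel)
          (CovZ.n2 (-2646, 10604) (by decide +kernel)
           (CovZ.leaf K3_ok TY_l6862 _)
           (CovZ.leaf K3_ok TY_l6863 _))
          (CovZ.leaf K3_ok TY_l6864 _))
         (CovZ.n1 (-2646, 10602) (by decide +kernel)
          (CovZ.leaf K3_ok TY_l6865 _)
          (CovZ.leaf K3_ok TY_l6866 _)))
        (CovZ.n1 (-2644, 10608) (by decide +kernel)
         (CovZ.n2 (-2642, 10606) (by decide +kernel)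
          (CovZ.leaf K3_ok TY_l6867 _)
          (CovZ.n1 (-2642, 10608) (by decide +kernel)
           (CovZ.leaf K3_ok TY_l6868 _)
           (CovZ.n1 (-2643, 10607) (by decide +kernel)
            (CovZ.leaf K3_ok TY_l6869 _)
            (CovZ.leaf K3_ok TY_l6870 _))))
         (CovZ.n1 (-2646, 10606) (by decide +kernel)
          (CovZ.leaf K2_ok TY_l6871 _)
          (CovZ.leaf K3_ok TY_l6872 _))))
       (CovZ.n1 (-2652, 10604) (by decide +kernel)
        (CovZ.n2 (-2652, 10608) (by decide +kernel)
         (CovZ.n2 (-2650, 10606) (by decide +kernel)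
          (CovZ.n2 (-2652, 10606) (by decide +kernel)
           (CovZ.n2 (-2651, 10607) (by decide +kernel)
            (CovZ.leaf K3_ok TY_l6873 _)
            (CovZ.leaf K3_ok TY_l6874 _))
           (CovZ.leaf K3_ok TY_l6875 _))
          (CovZ.leaf K3_ok TY_l6876 _))
         (CovZ.n1 (-2654, 10606) (by decide +kernel)
          (CovZ.n2 (-2654, 10608) (by decide +kernel)
           (CovZ.leaf K3_ok TY_l6877 _)
           (CovZ.n1 (-2655, 10607) (by decide +kernel)
            (CovZ.leaf K2_ok TY_l6878 _)
            (CovZ.leaf K2_ok TY_l6879 _)))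
          (CovZ.n1 (-2652, 10606) (by decide +kernel)
           (CovZ.n2 (-2653, 10605) (by decide +kernel)
            (CovZ.leaf K3_ok TY_l6880 _)
            (CovZ.leaf K3_ok TY_l6881 _))
           (CovZ.n1 (-2653, 10607) (by decide +kernel)
            (CovZ.leaf K3_ok TY_l6882 _)
            (CovZ.leaf K3_ok TY_l6883 _)))))
        (CovZ.n1 (-2648, 10604) (by decide +kernel)
         (CovZ.n2 (-2650, 10602) (by decide +kernel)
          (CovZ.leaf K3_ok TY_l6884 _)
          (CovZ.leaf K2_ok TY_l6885 _))
         (CovZ.n1 (-2650, 10606) (by decide +kernel)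
          (CovZ.leaf K3_ok TY_l6886 _)
          (CovZ.n1 (-2650, 10604) (by decide +kernel)
           (CovZ.leaf K3_ok TY_l6887 _)
           (CovZ.leaf K3_ok TY_l6888 _)))))))

theorem TY_u54 : CovZ TY_M (toL (selN TY_LN 7)) [0, 7, 4, 3] (-2624, 10624) (-2640, 10624) (-2640, 10608) :=
    (CovZ.n2 (-2632, 10616) (by decide +kernel)
      (CovZ.n2 (-2640, 10616) (by decide +kernel)
       (CovZ.n2 (-2636, 10620) (by decide +kernel)
        (CovZ.n2 (-2636, 10616) (by decide +kernel)
         (CovZ.n2 (-2638, 10618) (by decide +kernel)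
          (CovZ.n2 (-2636, 10618) (by decide +kernel)
           (CovZ.n2 (-2637, 10617) (by decide +kernel)
            (CovZ.leaf K3_ok TY_l6889 _)
            (CovZ.leaf K3_ok TY_l6890 _))
           (CovZ.leaf K3_ok TY_l6891 _))
          (CovZ.n1 (-2638, 10616) (by decide +kernel)
           (CovZ.leaf K3_ok TY_l6892 _)
           (CovZ.leaf K2_ok TY_l6893 _)))
         (CovZ.n1 (-2634, 10618) (by decide +kernel)
          (CovZ.n2 (-2634, 10616) (by decide +kernel)
           (CovZ.leaf K3_ok TY_l6894 _)
           (CovZ.leaf K3_ok TY_l6895 _))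
          (CovZ.n1 (-2636, 10618) (by decide +kernel)
           (CovZ.leaf K3_ok TY_l6896 _)
           (CovZ.leaf K3_ok TY_l6897 _))))
        (CovZ.n1 (-2640, 10620) (by decide +kernel)
         (CovZ.n2 (-2638, 10622) (by decide +kernel)
          (CovZ.n2 (-2638, 10620) (by decide +kernel)
           (CovZ.n2 (-2639, 10621) (by decide +kernel)
            (CovZ.leaf K3_ok TY_l6898 _)
            (CovZ.leaf K3_ok TY_l6899 _))
           (CovZ.leaf K3_ok TY_l6900 _))
          (CovZ.n1 (-2640, 10622) (by decide +kernel)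
           (CovZ.n2 (-2639, 10623) (by decide +kernel)
            (CovZ.leaf K3_ok TY_l6901 _)
            (CovZ.leaf K3_ok TY_l6902 _))
           (CovZ.leaf K3_ok TY_l6903 _)))
         (CovZ.n1 (-2638, 10618) (by decide +kernel)
          (CovZ.leaf K3_ok TY_l6904 _)
          (CovZ.n1 (-2638, 10620) (by decide +kernel)
           (CovZ.leaf K3_ok TY_l6905 _)
           (CovZ.leaf K3_ok TY_l6906 _)))))
       (CovZ.n1 (-2636, 10612) (by decide +kernel)
        (CovZ.n2 (-2640, 10612) (by decide +kernel)
         (CovZ.n2 (-2638, 10614) (by decide +kernel)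
          (CovZ.n2 (-2638, 10612) (by decide +kernel)
           (CovZ.leaf K3_ok TY_l6907 _)
           (CovZ.leaf K2_ok TY_l6908 _))
          (CovZ.leaf K3_ok TY_l6909 _))
         (CovZ.n1 (-2638, 10610) (by decide +kernel)
          (CovZ.leaf K3_ok TY_l6910 _)
          (CovZ.n1 (-2638, 10612) (by decide +kernel)
           (CovZ.leaf K3_ok TY_l6911 _)
           (CovZ.leaf K3_ok TY_l6912 _))))
        (CovZ.n1 (-2636, 10616) (by decide +kernel)
         (CovZ.n2 (-2634, 10614) (by decide +kernel)
          (CovZ.n2 (-2636, 10614) (by decide +kernel)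
           (CovZ.leaf K3_ok TY_l6913 _)
           (CovZ.leaf K3_ok TY_l6914 _))
          (CovZ.leaf K3_ok TY_l6915 _))
         (CovZ.n1 (-2638, 10614) (by decide +kernel)
          (CovZ.leaf K2_ok TY_l6916 _)
          (CovZ.n1 (-2636, 10614) (by decide +kernel)
           (CovZ.leaf K3_ok TY_l6917 _)
           (CovZ.leaf K3_ok TY_l6918 _))))))
      (CovZ.n1 (-2632, 10624) (by decide +kernel)
       (CovZ.n2 (-2628, 10620) (by decide +kernel)
        (CovZ.n2 (-2632, 10620) (by decide +kernel)
         (CovZ.n2 (-2630, 10622) (by decide +kernel)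
          (CovZ.n2 (-2630, 10620) (by decide +kernel)
           (CovZ.n2 (-2631, 10621) (by decide +kernel)
            (CovZ.leaf K3_ok TY_l6919 _)
            (CovZ.leaf K3_ok TY_l6920 _))
           (CovZ.leaf K3_ok TY_l6921 _))
          (CovZ.leaf K3_ok TY_l6922 _))
         (CovZ.n1 (-2630, 10618) (by decide +kernel)
          (CovZ.n2 (-2632, 10618) (by decide +kernel)
           (CovZ.n2 (-2631, 10619) (by decide +kernel)
            (CovZ.leaf K3_ok TY_l6923 _)
            (CovZ.leaf K3_ok TY_l6924 _))
           (CovZ.leaf K3_ok TY_l6925 _))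
          (CovZ.n1 (-2630, 10620) (by decide +kernel)
           (CovZ.leaf K2_ok TY_l6926 _)
           (CovZ.leaf K3_ok TY_l6927 _))))
        (CovZ.n1 (-2628, 10624) (by decide +kernel)
         (CovZ.n2 (-2626, 10622) (by decide +kernel)
          (CovZ.n2 (-2628, 10622) (by decide +kernel)
           (CovZ.leaf K3_ok TY_l6928 _)
           (CovZ.leaf K3_ok TY_l6929 _))
          (CovZ.leaf K3_ok TY_l6930 _))
         (CovZ.n1 (-2630, 10622) (by decide +kernel)
          (CovZ.n2 (-2630, 10624) (by decide +kernel)
           (CovZ.leaf K3_ok TY_l6931 _)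
           (CovZ.n1 (-2631, 10623) (by decide +kernel)
            (CovZ.leaf K3_ok TY_l6932 _)
            (CovZ.leaf K3_ok TY_l6933 _)))
          (CovZ.n1 (-2628, 10622) (by decide +kernel)
           (CovZ.leaf K3_ok TY_l6934 _)
           (CovZ.leaf K3_ok TY_l6935 _)))))
       (CovZ.n1 (-2636, 10620) (by decide +kernel)
        (CovZ.n2 (-2636, 10624) (by decide +kernel)
         (CovZ.n2 (-2634, 10622) (by decide +kernel)
          (CovZ.n2 (-2636, 10622) (by decide +kernel)
           (CovZ.leaf K3_ok TY_l6936 _)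
           (CovZ.leaf K3_ok TY_l6937 _))
          (CovZ.n1 (-2634, 10624) (by decide +kernel)
           (CovZ.leaf K2_ok TY_l6938 _)
           (CovZ.n1 (-2635, 10623) (by decide +kernel)
            (CovZ.leaf K3_ok TY_l6939 _)
            (CovZ.leaf K3_ok TY_l6940 _))))
         (CovZ.n1 (-2638, 10622) (by decide +kernel)
          (CovZ.n2 (-2638, 10624) (by decide +kernel)
           (CovZ.leaf K3_ok TY_l6941 _)
           (CovZ.n1 (-2639, 10623) (by decide +kernel)
            (CovZ.leaf K3_ok TY_l6942 _)
            (CovZ.leaf K3_ok TY_l6943 _)))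
          (CovZ.n1 (-2636, 10622) (by decide +kernel)
           (CovZ.n2 (-2637, 10621) (by decide +kernel)
            (CovZ.leaf K3_ok TY_l6944 _)
            (CovZ.leaf K3_ok TY_l6945 _))
           (CovZ.leaf K3_ok TY_l6946 _))))
        (CovZ.n1 (-2632, 10620) (by decide +kernel)
         (CovZ.n2 (-2634, 10618) (by decide +kernel)
          (CovZ.leaf K3_ok TY_l6947 _)
          (CovZ.n1 (-2632, 10618) (by decide +kernel)
           (CovZ.leaf K3_ok TY_l6948 _)
           (CovZ.leaf K3_ok TY_l6949 _)))
         (CovZ.n1 (-2634, 10622) (by decide +kernel)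
          (CovZ.n2 (-2632, 10622) (by decide +kernel)
           (CovZ.leaf K3_ok TY_l6950 _)
           (CovZ.n1 (-2633, 10623) (by decide +kernel)
            (CovZ.leaf K3_ok TY_l6951 _)
            (CovZ.leaf K3_ok TY_l6952 _)))
          (CovZ.n1 (-2634, 10620) (by decide +kernel)
           (CovZ.leaf K3_ok TY_l6953 _)
           (CovZ.leaf K3_ok TY_l6954 _)))))))

theorem TY_u55 : CovZ TY_M (toL (selN TY_LN 7)) [0, 7, 4, 3] (-2640, 10624) (-2656, 10624) (-2640, 10608) :=
    (CovZ.n1 (-2648, 10616) (by decide +kernel)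
      (CovZ.n2 (-2648, 10624) (by decide +kernel)
       (CovZ.n2 (-2644, 10620) (by decide +kernel)
        (CovZ.n2 (-2648, 10620) (by decide +kernel)
         (CovZ.n2 (-2646, 10622) (by decide +kernel)
          (CovZ.n2 (-2646, 10620) (by decide +kernel)
           (CovZ.leaf K3_ok TY_l6955 _)
           (CovZ.leaf K2_ok TY_l6956 _))
          (CovZ.n1 (-2648, 10622) (by decide +kernel)
           (CovZ.n2 (-2647, 10623) (by decide +kernel)
            (CovZ.leaf K3_ok TY_l6957 _)
            (CovZ.leaf K3_ok TY_l6958 _))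
           (CovZ.leaf K3_ok TY_l6959 _)))
         (CovZ.n1 (-2646, 10618) (by decide +kernel)
          (CovZ.n2 (-2648, 10618) (by decide +kernel)
           (CovZ.leaf K3_ok TY_l6960 _)
           (CovZ.leaf K2_ok TY_l6961 _))
          (CovZ.n1 (-2646, 10620) (by decide +kernel)
           (CovZ.leaf K3_ok TY_l6962 _)
           (CovZ.n1 (-2647, 10619) (by decide +kernel)
            (CovZ.leaf K2_ok TY_l6963 _)
            (CovZ.leaf K3_ok TY_l6964 _)))))
        (CovZ.n1 (-2644, 10624) (by decide +kernel)
         (CovZ.n2 (-2642, 10622) (by decide +kernel)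
          (CovZ.n2 (-2644, 10622) (by decide +kernel)
           (CovZ.n2 (-2643, 10623) (by decide +kernel)
            (CovZ.leaf K3_ok TY_l6965 _)
            (CovZ.leaf K3_ok TY_l6966 _))
           (CovZ.n1 (-2643, 10621) (by decide +kernel)
            (CovZ.n2 (-2644, 10621) (by decide +kernel)
             (CovZ.leaf K3_ok TY_l6967 _)
             (CovZ.leaf K3_ok TY_l6968 _))
            (CovZ.leaf K3_ok TY_l6969 _)))
          (CovZ.n1 (-2642, 10624) (by decide +kernel)
           (CovZ.leaf K3_ok TY_l6970 _)
           (CovZ.n1 (-2643, 10623) (by decide +kernel)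
            (CovZ.leaf K3_ok TY_l6971 _)
            (CovZ.leaf K3_ok TY_l6972 _))))
         (CovZ.n1 (-2646, 10622) (by decide +kernel)
          (CovZ.n2 (-2646, 10624) (by decide +kernel)
           (CovZ.leaf K3_ok TY_l6973 _)
           (CovZ.n1 (-2647, 10623) (by decide +kernel)
            (CovZ.leaf K3_ok TY_l6974 _)
            (CovZ.leaf K3_ok TY_l6975 _)))
          (CovZ.n1 (-2644, 10622) (by decide +kernel)
           (CovZ.n2 (-2645, 10621) (by decide +kernel)
            (CovZ.leaf K3_ok TY_l6976 _)
            (CovZ.leaf K2_ok TY_l6977 _))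
           (CovZ.n1 (-2645, 10623) (by decide +kernel)
            (CovZ.leaf K3_ok TY_l6978 _)
            (CovZ.leaf K2_ok TY_l6979 _))))))
       (CovZ.n1 (-2652, 10620) (by decide +kernel)
        (CovZ.n2 (-2652, 10624) (by decide +kernel)
         (CovZ.n2 (-2650, 10622) (by decide +kernel)
          (CovZ.n2 (-2652, 10622) (by decide +kernel)
           (CovZ.n2 (-2651, 10623) (by decide +kernel)
            (CovZ.leaf K3_ok TY_l6980 _)
            (CovZ.badM (by decide +kernel)))
           (CovZ.n1 (-2651, 10621) (by decide +kernel)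
            (CovZ.leaf K3_ok TY_l6981 _)
            (CovZ.leaf K3_ok TY_l6982 _)))
          (CovZ.n1 (-2650, 10624) (by decide +kernel)
           (CovZ.n2 (-2649, 10623) (by decide +kernel)
            (CovZ.leaf K3_ok TY_l6983 _)
            (CovZ.leaf K3_ok TY_l6984 _))
           (CovZ.n1 (-2651, 10623) (by decide +kernel)
            (CovZ.badM (by decide +kernel))
            (CovZ.leaf K3_ok TY_l6985 _))))
         (CovZ.n1 (-2654, 10622) (by decide +kernel)
          (CovZ.badM (by decide +kernel))
          (CovZ.n1 (-2652, 10622) (by decide +kernel)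
           (CovZ.n2 (-2653, 10621) (by decide +kernel)
            (CovZ.badM (by decide +kernel))
            (CovZ.leaf K3_ok TY_l6986 _))
           (CovZ.badM (by decide +kernel)))))
        (CovZ.n1 (-2648, 10620) (by decide +kernel)
         (CovZ.n2 (-2650, 10618) (by decide +kernel)
          (CovZ.n2 (-2650, 10620) (by decide +kernel)
           (CovZ.leaf K3_ok TY_l6987 _)
           (CovZ.n1 (-2651, 10619) (by decide +kernel)
            (CovZ.leaf K3_ok TY_l6988 _)
            (CovZ.leaf K3_ok TY_l6989 _)))
          (CovZ.n1 (-2648, 10618) (by decide +kernel)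
           (CovZ.n2 (-2649, 10617) (by decide +kernel)
            (CovZ.leaf K3_ok TY_l6990 _)
            (CovZ.leaf K3_ok TY_l6991 _))
           (CovZ.leaf K3_ok TY_l6992 _)))
         (CovZ.n1 (-2650, 10622) (by decide +kernel)
          (CovZ.n2 (-2648, 10622) (by decide +kernel)
           (CovZ.n2 (-2649, 10621) (by decide +kernel)
            (CovZ.leaf K3_ok TY_l6993 _)
            (CovZ.leaf K3_ok TY_l6994 _))
           (CovZ.n1 (-2649, 10623) (by decide +kernel)
            (CovZ.leaf K2_ok TY_l6995 _)
            (CovZ.leaf K3_ok TY_l6996 _)))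
          (CovZ.n1 (-2650, 10620) (by decide +kernel)
           (CovZ.n2 (-2651, 10621) (by decide +kernel)
            (CovZ.leaf K2_ok TY_l6997 _)
            (CovZ.leaf K3_ok TY_l6998 _))
           (CovZ.n1 (-2649, 10621) (by decide +kernel)
            (CovZ.leaf K3_ok TY_l6999 _)
            (CovZ.leaf K3_ok TY_l7000 _)))))))
      (CovZ.n1 (-2640, 10616) (by decide +kernel)
       (CovZ.n2 (-2644, 10612) (by decide +kernel)
        (CovZ.n2 (-2644, 10616) (by decide +kernel)
         (CovZ.n2 (-2642, 10614) (by decide +kernel)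
          (CovZ.leaf K3_ok TY_l7001 _)
          (CovZ.n1 (-2642, 10616) (by decide +kernel)
           (CovZ.leaf K3_ok TY_l7002 _)
           (CovZ.leaf K3_ok TY_l7003 _)))
         (CovZ.n1 (-2646, 10614) (by decide +kernel)
          (CovZ.n2 (-2646, 10616) (by decide +kernel)
           (CovZ.leaf K3_ok TY_l7004 _)
           (CovZ.n1 (-2647, 10615) (by decide +kernel)
            (CovZ.leaf K3_ok TY_l7005 _)
            (CovZ.leaf K3_ok TY_l7006 _)))
          (CovZ.n1 (-2644, 10614) (by decide +kernel)
           (CovZ.leaf K2_ok TY_l7007 _)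
           (CovZ.leaf K3_ok TY_l7008 _))))
        (CovZ.n1 (-2640, 10612) (by decide +kernel)
         (CovZ.n2 (-2642, 10610) (by decide +kernel)
          (CovZ.n2 (-2642, 10612) (by decide +kernel)
           (CovZ.leaf K3_ok TY_l7009 _)
           (CovZ.leaf K3_ok TY_l7010 _))
          (CovZ.leaf K3_ok TY_l7011 _))
         (CovZ.n1 (-2642, 10614) (by decide +kernel)
          (CovZ.n2 (-2640, 10614) (by decide +kernel)
           (CovZ.leaf K3_ok TY_l7012 _)
           (CovZ.leaf K3_ok TY_l7013 _))
          (CovZ.n1 (-2642, 10612) (by decide +kernel)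
           (CovZ.leaf K3_ok TY_l7014 _)
           (CovZ.leaf K3_ok TY_l7015 _)))))
       (CovZ.n1 (-2644, 10620) (by decide +kernel)
        (CovZ.n2 (-2640, 10620) (by decide +kernel)
         (CovZ.n2 (-2642, 10618) (by decide +kernel)
          (CovZ.n2 (-2642, 10620) (by decide +kernel)
           (CovZ.leaf K3_ok TY_l7016 _)
           (CovZ.n1 (-2643, 10619) (by decide +kernel)
            (CovZ.leaf K3_ok TY_l7017 _)
            (CovZ.leaf K3_ok TY_l7018 _)))
          (CovZ.n1 (-2640, 10618) (by decide +kernel)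
           (CovZ.n2 (-2641, 10617) (by decide +kernel)
            (CovZ.leaf K3_ok TY_l7019 _)
            (CovZ.leaf K3_ok TY_l7020 _))
           (CovZ.leaf K3_ok TY_l7021 _)))
         (CovZ.n1 (-2642, 10622) (by decide +kernel)
          (CovZ.n2 (-2640, 10622) (by decide +kernel)
           (CovZ.n2 (-2641, 10621) (by decide +kernel)
            (CovZ.leaf K3_ok TY_l7022 _)
            (CovZ.leaf K3_ok TY_l7023 _))
           (CovZ.leaf K3_ok TY_l7024 _))
          (CovZ.n1 (-2642, 10620) (by decide +kernel)
           (CovZ.leaf K3_ok TY_l7025 _)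
           (CovZ.n1 (-2641, 10621) (by decide +kernel)
            (CovZ.leaf K3_ok TY_l7026 _)
            (CovZ.leaf K3_ok TY_l7027 _)))))
        (CovZ.n1 (-2644, 10616) (by decide +kernel)
         (CovZ.n2 (-2646, 10618) (by decide +kernel)
          (CovZ.n2 (-2644, 10618) (by decide +kernel)
           (CovZ.n2 (-2645, 10617) (by decide +kernel)
            (CovZ.leaf K3_ok TY_l7028 _)
            (CovZ.leaf K3_ok TY_l7029 _))
           (CovZ.n1 (-2645, 10619) (by decide +kernel)
            (CovZ.leaf K3_ok TY_l7030 _)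
            (CovZ.leaf K3_ok TY_l7031 _)))
          (CovZ.n1 (-2646, 10616) (by decide +kernel)
           (CovZ.leaf K3_ok TY_l7032 _)
           (CovZ.n1 (-2645, 10617) (by decide +kernel)
            (CovZ.n2 (-2645, 10616) (by decide +kernel)
             (CovZ.leaf K2_ok TY_l7033 _)
             (CovZ.leaf K3_ok TY_l7034 _))
            (CovZ.leaf K3_ok TY_l7035 _))))
         (CovZ.n1 (-2642, 10618) (by decide +kernel)
          (CovZ.n2 (-2642, 10616) (by decide +kernel)
           (CovZ.leaf K3_ok TY_l7036 _)
           (CovZ.leaf K3_ok TY_l7037 _))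
          (CovZ.n1 (-2644, 10618) (by decide +kernel)
           (CovZ.n2 (-2643, 10619) (by decide +kernel)
            (CovZ.n2 (-2643, 10618) (by decide +kernel)
             (CovZ.leaf K3_ok TY_l7038 _)
             (CovZ.leaf K3_ok TY_l7039 _))
            (CovZ.leaf K3_ok TY_l7040 _))
           (CovZ.leaf K3_ok TY_l7041 _)))))))

theorem TY_u56 : CovZ TY_M (toL (selN TY_LN 7)) [0, 7, 4, 3] (-2624, 10656) (-2640, 10640) (-2624, 10624) :=
    (CovZ.n2 (-2624, 10640) (by decide +kernel)
     (CovZ.n2 (-2632, 10632) (by decide +kernel)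
      (CovZ.n2 (-2632, 10640) (by decide +kernel)
       (CovZ.n2 (-2628, 10636) (by decide +kernel)
        (CovZ.n2 (-2632, 10636) (by decide +kernel)
         (CovZ.n2 (-2630, 10638) (by decide +kernel)
          (CovZ.n2 (-2630, 10636) (by decide +kernel)
           (CovZ.n2 (-2631, 10637) (by decide +kernel)
            (CovZ.leaf K3_ok TY_l7042 _)
            (CovZ.leaf K3_ok TY_l7043 _))
           (CovZ.leaf K3_ok TY_l7044 _))
          (CovZ.n1 (-2632, 10638) (by decide +kernel)
           (CovZ.leaf K2_ok TY_l7045 _)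
           (CovZ.leaf K2_ok TY_l7046 _)))
         (CovZ.n1 (-2630, 10634) (by decide +kernel)
          (CovZ.n2 (-2632, 10634) (by decide +kernel)
           (CovZ.n2 (-2631, 10635) (by decide +kernel)
            (CovZ.leaf K3_ok TY_l7047 _)
            (CovZ.leaf K2_ok TY_l7048 _))
           (CovZ.leaf K3_ok TY_l7049 _))
          (CovZ.n1 (-2630, 10636) (by decide +kernel)
           (CovZ.leaf K3_ok TY_l7050 _)
           (CovZ.n1 (-2631, 10635) (by decide +kernel)
            (CovZ.leaf K2_ok TY_l7051 _)
            (CovZ.leaf K3_ok TY_l7052 _)))))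
        (CovZ.n1 (-2628, 10640) (by decide +kernel)
         (CovZ.n2 (-2626, 10638) (by decide +kernel)
          (CovZ.n2 (-2628, 10638) (by decide +kernel)
           (CovZ.n2 (-2627, 10639) (by decide +kernel)
            (CovZ.leaf K3_ok TY_l7053 _)
            (CovZ.leaf K3_ok TY_l7054 _))
           (CovZ.leaf K3_ok TY_l7055 _))
          (CovZ.n1 (-2626, 10640) (by decide +kernel)
           (CovZ.leaf K3_ok TY_l7056 _)
           (CovZ.n1 (-2627, 10639) (by decide +kernel)
            (CovZ.leaf K2_ok TY_l7057 _)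
            (CovZ.leaf K3_ok TY_l7058 _))))
         (CovZ.n1 (-2630, 10638) (by decide +kernel)
          (CovZ.n2 (-2630, 10640) (by decide +kernel)
           (CovZ.leaf K3_ok TY_l7059 _)
           (CovZ.n1 (-2631, 10639) (by decide +kernel)
            (CovZ.leaf K3_ok TY_l7060 _)
            (CovZ.leaf K2_ok TY_l7061 _)))
          (CovZ.n1 (-2628, 10638) (by decide +kernel)
           (CovZ.n2 (-2629, 10637) (by decide +kernel)
            (CovZ.leaf K2_ok TY_l7062 _)
            (CovZ.leaf K2_ok TY_l7063 _))
           (CovZ.leaf K3_ok TY_l7064 _)))))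
       (CovZ.n1 (-2636, 10636) (by decide +kernel)
        (CovZ.badM (by decide +kernel))
        (CovZ.n1 (-2632, 10636) (by decide +kernel)
         (CovZ.n2 (-2634, 10634) (by decide +kernel)
          (CovZ.n2 (-2634, 10636) (by decide +kernel)
           (CovZ.leaf K2_ok TY_l7065 _)
           (CovZ.n1 (-2635, 10635) (by decide +kernel)
            (CovZ.leaf K2_ok TY_l7066 _)
            (CovZ.leaf K3_ok TY_l7067 _)))
          (CovZ.n1 (-2632, 10634) (by decide +kernel)
           (CovZ.n2 (-2633, 10633) (by decide +kernel)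
            (CovZ.leaf K3_ok TY_l7068 _)
            (CovZ.leaf K3_ok TY_l7069 _))
           (CovZ.leaf K3_ok TY_l7070 _)))
         (CovZ.n1 (-2634, 10638) (by decide +kernel)
          (CovZ.n2 (-2632, 10638) (by decide +kernel)
           (CovZ.n2 (-2633, 10637) (by decide +kernel)
            (CovZ.leaf K3_ok TY_l7071 _)
            (CovZ.leaf K3_ok TY_l7072 _))
           (CovZ.n1 (-2633, 10639) (by decide +kernel)
            (CovZ.leaf K2_ok TY_l7073 _)
            (CovZ.leaf K2_ok TY_l7074 _)))
          (CovZ.n1 (-2634, 10636) (by decide +kernel)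
           (CovZ.n2 (-2635, 10637) (by decide +kernel)
            (CovZ.leaf K2_ok TY_l7075 _)
            (CovZ.n1 (-2635, 10636) (by decide +kernel)
             (CovZ.badM (by decide +kernel))
             (CovZ.leaf K3_ok TY_l7076 _)))
           (CovZ.leaf K3_ok TY_l7077 _))))))
      (CovZ.n1 (-2624, 10632) (by decide +kernel)
       (CovZ.n2 (-2628, 10628) (by decide +kernel)
        (CovZ.n2 (-2628, 10632) (by decide +kernel)
         (CovZ.n2 (-2626, 10630) (by decide +kernel)
          (CovZ.n2 (-2628, 10630) (by decide +kernel)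
           (CovZ.leaf K3_ok TY_l7078 _)
           (CovZ.leaf K3_ok TY_l7079 _))
          (CovZ.n1 (-2626, 10632) (by decide +kernel)
           (CovZ.leaf K3_ok TY_l7080 _)
           (CovZ.n1 (-2627, 10631) (by decide +kernel)
            (CovZ.leaf K2_ok TY_l7081 _)
            (CovZ.leaf K2_ok TY_l7082 _))))
         (CovZ.n1 (-2630, 10630) (by decide +kernel)
          (CovZ.n2 (-2630, 10632) (by decide +kernel)
           (CovZ.leaf K3_ok TY_l7083 _)
           (CovZ.leaf K3_ok TY_l7084 _))
          (CovZ.n1 (-2628, 10630) (by decide +kernel)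
           (CovZ.leaf K3_ok TY_l7085 _)
           (CovZ.leaf K3_ok TY_l7086 _))))
        (CovZ.n1 (-2624, 10628) (by decide +kernel)
         (CovZ.n2 (-2626, 10626) (by decide +kernel)
          (CovZ.leaf K3_ok TY_l7087 _)
          (CovZ.leaf K3_ok TY_l7088 _))
         (CovZ.n1 (-2626, 10630) (by decide +kernel)
          (CovZ.n2 (-2624, 10630) (by decide +kernel)
           (CovZ.leaf K2_ok TY_l7089 _)
           (CovZ.n1 (-2625, 10631) (by decide +kernel)
            (CovZ.leaf K3_ok TY_l7090 _)
            (CovZ.leaf K2_ok TY_l7091 _)))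
          (CovZ.n1 (-2626, 10628) (by decide +kernel)
           (CovZ.leaf K2_ok TY_l7092 _)
           (CovZ.leaf K3_ok TY_l7093 _)))))
       (CovZ.n1 (-2628, 10636) (by decide +kernel)
        (CovZ.n2 (-2624, 10636) (by decide +kernel)
         (CovZ.n2 (-2626, 10634) (by decide +kernel)
          (CovZ.n2 (-2626, 10636) (by decide +kernel)
           (CovZ.leaf K3_ok TY_l7094 _)
           (CovZ.n1 (-2627, 10635) (by decide +kernel)
            (CovZ.leaf K3_ok TY_l7095 _)
            (CovZ.leaf K3_ok TY_l7096 _)))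
          (CovZ.n1 (-2624, 10634) (by decide +kernel)
           (CovZ.n2 (-2625, 10633) (by decide +kernel)
            (CovZ.leaf K3_ok TY_l7097 _)
            (CovZ.leaf K3_ok TY_l7098 _))
           (CovZ.leaf K3_ok TY_l7099 _)))
         (CovZ.n1 (-2626, 10638) (by decide +kernel)
          (CovZ.n2 (-2624, 10638) (by decide +kernel)
           (CovZ.n2 (-2625, 10637) (by decide +kernel)
            (CovZ.leaf K2_ok TY_l7100 _)
            (CovZ.leaf K3_ok TY_l7101 _))
           (CovZ.n1 (-2625, 10639) (by decide +kernel)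
            (CovZ.leaf K3_ok TY_l7102 _)
            (CovZ.leaf K3_ok TY_l7103 _)))
          (CovZ.n1 (-2626, 10636) (by decide +kernel)
           (CovZ.n2 (-2627, 10637) (by decide +kernel)
            (CovZ.n2 (-2626, 10637) (by decide +kernel)
             (CovZ.leaf K2_ok TY_l7104 _)
             (CovZ.leaf K2_ok TY_l7105 _))
            (CovZ.leaf K3_ok TY_l7106 _))
           (CovZ.n1 (-2625, 10637) (by decide +kernel)
            (CovZ.n2 (-2625, 10636) (by decide +kernel)
             (CovZ.leaf K3_ok TY_l7107 _)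
             (CovZ.leaf K3_ok TY_l7108 _))
            (CovZ.leaf K3_ok TY_l7109 _)))))
        (CovZ.n1 (-2628, 10632) (by decide +kernel)
         (CovZ.n2 (-2630, 10634) (by decide +kernel)
          (CovZ.n2 (-2628, 10634) (by decide +kernel)
           (CovZ.leaf K3_ok TY_l7110 _)
           (CovZ.leaf K3_ok TY_l7111 _))
          (CovZ.n1 (-2630, 10632) (by decide +kernel)
           (CovZ.n2 (-2631, 10633) (by decide +kernel)
            (CovZ.leaf K2_ok TY_l7112 _)
            (CovZ.leaf K3_ok TY_l7113 _))
           (CovZ.n1 (-2629, 10633) (by decide +kernel)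
            (CovZ.leaf K2_ok TY_l7114 _)
            (CovZ.leaf K3_ok TY_l7115 _))))
         (CovZ.n1 (-2626, 10634) (by decide +kernel)
          (CovZ.n2 (-2626, 10632) (by decide +kernel)
           (CovZ.leaf K3_ok TY_l7116 _)
           (CovZ.n1 (-2625, 10633) (by decide +kernel)
            (CovZ.leaf K3_ok TY_l7117 _)
            (CovZ.leaf K2_ok TY_l7118 _)))
          (CovZ.n1 (-2628, 10634) (by decide +kernel)
           (CovZ.leaf K3_ok TY_l7119 _)
           (CovZ.n1 (-2627, 10633) (by decide +kernel)
            (CovZ.leaf K3_ok TY_l7120 _)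
            (CovZ.leaf K3_ok TY_l7121 _))))))))
     (CovZ.n1 (-2632, 10648) (by decide +kernel)
      (CovZ.n2 (-2624, 10648) (by decide +kernel)
       (CovZ.n2 (-2628, 10644) (by decide +kernel)
        (CovZ.badM (by decide +kernel))
        (CovZ.n1 (-2624, 10644) (by decide +kernel)
         (CovZ.n2 (-2626, 10642) (by decide +kernel)
          (CovZ.n2 (-2626, 10644) (by decide +kernel)
           (CovZ.leaf K3_ok TY_l7122 _)
           (CovZ.n1 (-2627, 10643) (by decide +kernel)
            (CovZ.badM (by decide +kernel))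
            (CovZ.leaf K3_ok TY_l7123 _)))
          (CovZ.n1 (-2624, 10642) (by decide +kernel)
           (CovZ.n2 (-2625, 10641) (by decide +kernel)
            (CovZ.leaf K3_ok TY_l7124 _)
            (CovZ.leaf K3_ok TY_l7125 _))
           (CovZ.leaf K3_ok TY_l7126 _)))
         (CovZ.n1 (-2626, 10646) (by decide +kernel)
          (CovZ.n2 (-2624, 10646) (by decide +kernel)
           (CovZ.n2 (-2625, 10645) (by decide +kernel)
            (CovZ.badM (by decide +kernel))
            (CovZ.leaf K3_ok TY_l7127 _))
           (CovZ.badM (by decide +kernel)))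
          (CovZ.n1 (-2626, 10644) (by decide +kernel)
           (CovZ.badM (by decide +kernel))
           (CovZ.n1 (-2625, 10645) (by decide +kernel)
            (CovZ.n2 (-2625, 10644) (by decide +kernel)
             (CovZ.leaf K3_ok TY_l7128 _)
             (CovZ.leaf K2_ok TY_l7129 _))
            (CovZ.badM (by decide +kernel)))))))
       (CovZ.badM (by decide +kernel)))
      (CovZ.n1 (-2632, 10640) (by decide +kernel)
       (CovZ.badM (by decide +kernel))
       (CovZ.n1 (-2628, 10644) (by decide +kernel)
        (CovZ.n2 (-2628, 10640) (by decide +kernel)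
         (CovZ.n2 (-2630, 10642) (by decide +kernel)
          (CovZ.n2 (-2628, 10642) (by decide +kernel)
           (CovZ.n2 (-2629, 10641) (by decide +kernel)
            (CovZ.leaf K3_ok TY_l7130 _)
            (CovZ.leaf K3_ok TY_l7131 _))
           (CovZ.badM (by decide +kernel)))
          (CovZ.n1 (-2630, 10640) (by decide +kernel)
           (CovZ.n2 (-2631, 10641) (by decide +kernel)
            (CovZ.leaf K2_ok TY_l7132 _)
            (CovZ.n1 (-2631, 10640) (by decide +kernel)
             (CovZ.badM (by decide +kernel))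
             (CovZ.leaf K2_ok TY_l7133 _)))
           (CovZ.n1 (-2629, 10641) (by decide +kernel)
            (CovZ.n2 (-2629, 10640) (by decide +kernel)
             (CovZ.leaf K3_ok TY_l7134 _)
             (CovZ.leaf K2_ok TY_l7135 _))
            (CovZ.leaf K3_ok TY_l7136 _))))
         (CovZ.n1 (-2626, 10642) (by decide +kernel)
          (CovZ.n2 (-2626, 10640) (by decide +kernel)
           (CovZ.n2 (-2627, 10641) (by decide +kernel)
            (CovZ.leaf K3_ok TY_l7137 _)
            (CovZ.leaf K3_ok TY_l7138 _))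
           (CovZ.n1 (-2625, 10641) (by decide +kernel)
            (CovZ.leaf K3_ok TY_l7139 _)
            (CovZ.leaf K3_ok TY_l7140 _)))
          (CovZ.n1 (-2628, 10642) (by decide +kernel)
           (CovZ.n2 (-2627, 10643) (by decide +kernel)
            (CovZ.leaf K3_ok TY_l7141 _)
            (CovZ.badM (by decide +kernel)))
           (CovZ.leaf K3_ok TY_l7142 _))))
        (CovZ.badM (by decide +kernel))))))

theorem TY_u57 : CovZ TY_M (toL (selN TY_LN 7)) [0, 7, 4, 3] (-2640, 10640) (-2656, 10624) (-2624, 10624) :=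
    (CovZ.n1 (-2640, 10624) (by decide +kernel)
     (CovZ.n2 (-2648, 10632) (by decide +kernel)
      (CovZ.n2 (-2640, 10632) (by decide +kernel)
       (CovZ.n2 (-2644, 10628) (by decide +kernel)
        (CovZ.badM (by decide +kernel))
        (CovZ.n1 (-2640, 10628) (by decide +kernel)
         (CovZ.n2 (-2642, 10626) (by decide +kernel)
          (CovZ.n2 (-2642, 10628) (by decide +kernel)
           (CovZ.n2 (-2641, 10627) (by decide +kernel)
            (CovZ.leaf K3_ok TY_l7143 _)
            (CovZ.leaf K3_ok TY_l7144 _))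
           (CovZ.n1 (-2643, 10627) (by decide +kernel)
            (CovZ.leaf K3_ok TY_l7145 _)
            (CovZ.leaf K3_ok TY_l7146 _)))
          (CovZ.n1 (-2640, 10626) (by decide +kernel)
           (CovZ.n2 (-2641, 10625) (by decide +kernel)
            (CovZ.leaf K3_ok TY_l7147 _)
            (CovZ.leaf K3_ok TY_l7148 _))
           (CovZ.leaf K3_ok TY_l7149 _)))
         (CovZ.n1 (-2642, 10630) (by decide +kernel)
          (CovZ.n2 (-2640, 10630) (by decide +kernel)
           (CovZ.n2 (-2641, 10629) (by decide +kernel)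
            (CovZ.leaf K3_ok TY_l7150 _)
            (CovZ.leaf K3_ok TY_l7151 _))
           (CovZ.n1 (-2641, 10631) (by decide +kernel)
            (CovZ.leaf K3_ok TY_l7152 _)
            (CovZ.leaf K3_ok TY_l7153 _)))
          (CovZ.n1 (-2642, 10628) (by decide +kernel)
           (CovZ.n2 (-2643, 10629) (by decide +kernel)
            (CovZ.leaf K3_ok TY_l7154 _)
            (CovZ.leaf K3_ok TY_l7155 _))
           (CovZ.n1 (-2641, 10629) (by decide +kernel)
            (CovZ.leaf K3_ok TY_l7156 _)
            (CovZ.leaf K3_ok TY_l7157 _))))))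
       (CovZ.badM (by decide +kernel)))
      (CovZ.n1 (-2648, 10624) (by decide +kernel)
       (CovZ.badM (by decide +kernel))
       (CovZ.n1 (-2644, 10628) (by decide +kernel)
        (CovZ.n2 (-2644, 10624) (by decide +kernel)
         (CovZ.n2 (-2646, 10626) (by decide +kernel)
          (CovZ.n2 (-2644, 10626) (by decide +kernel)
           (CovZ.n2 (-2645, 10625) (by decide +kernel)
            (CovZ.leaf K3_ok TY_l7160 _)
            (CovZ.leaf K3_ok TY_l7161 _))
           (CovZ.n1 (-2645, 10627) (by decide +kernel)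
            (CovZ.leaf K3_ok TY_l7162 _)
            (CovZ.leaf K3_ok TY_l7163 _)))
          (CovZ.n1 (-2646, 10624) (by decide +kernel)
           (CovZ.n2 (-2647, 10625) (by decide +kernel)
            (CovZ.leaf K2_ok TY_l7164 _)
            (CovZ.leaf K3_ok TY_l7165 _))
           (CovZ.n1 (-2645, 10625) (by decide +kernel)
            (CovZ.leaf K3_ok TY_l7166 _)
            (CovZ.leaf K3_ok TY_l7167 _))))
         (CovZ.n1 (-2642, 10626) (by decide +kernel)
          (CovZ.n2 (-2642, 10624) (by decide +kernel)
           (CovZ.n2 (-2643, 10625) (by decide +kernel)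
            (CovZ.leaf K3_ok TY_l7168 _)
            (CovZ.leaf K2_ok TY_l7169 _))
           (CovZ.n1 (-2641, 10625) (by decide +kernel)
            (CovZ.leaf K2_ok TY_l7170 _)
            (CovZ.leaf K3_ok TY_l7171 _)))
          (CovZ.n1 (-2644, 10626) (by decide +kernel)
           (CovZ.n2 (-2643, 10627) (by decide +kernel)
            (CovZ.leaf K3_ok TY_l7172 _)
            (CovZ.leaf K3_ok TY_l7173 _))
           (CovZ.leaf K3_ok TY_l7174 _))))
        (CovZ.badM (by decide +kernel)))))
     (CovZ.n1 (-2632, 10632) (by decide +kernel)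
      (CovZ.n2 (-2632, 10624) (by decide +kernel)
       (CovZ.n2 (-2636, 10628) (by decide +kernel)
        (CovZ.n2 (-2632, 10628) (by decide +kernel)
         (CovZ.n2 (-2634, 10626) (by decide +kernel)
          (CovZ.n2 (-2634, 10628) (by decide +kernel)
           (CovZ.n2 (-2633, 10627) (by decide +kernel)
            (CovZ.leaf K3_ok TY_l7178 _)
            (CovZ.leaf K3_ok TY_l7179 _))
           (CovZ.n1 (-2635, 10627) (by decide +kernel)
            (CovZ.leaf K3_ok TY_l7180 _)
            (CovZ.leaf K3_ok TY_l7181 _)))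
          (CovZ.n1 (-2632, 10626) (by decide +kernel)
           (CovZ.n2 (-2633, 10625) (by decide +kernel)
            (CovZ.leaf K3_ok TY_l7182 _)
            (CovZ.leaf K3_ok TY_l7183 _))
           (CovZ.leaf K3_ok TY_l7184 _)))
         (CovZ.n1 (-2634, 10630) (by decide +kernel)
          (CovZ.n2 (-2632, 10630) (by decide +kernel)
           (CovZ.n2 (-2633, 10629) (by decide +kernel)
            (CovZ.leaf K3_ok TY_l7185 _)
            (CovZ.leaf K3_ok TY_l7186 _))
           (CovZ.leaf K3_ok TY_l7187 _))
          (CovZ.n1 (-2634, 10628) (by decide +kernel)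
           (CovZ.leaf K3_ok TY_l7188 _)
           (CovZ.leaf K2_ok TY_l7189 _))))
        (CovZ.n1 (-2636, 10624) (by decide +kernel)
         (CovZ.n2 (-2638, 10626) (by decide +kernel)
          (CovZ.n2 (-2636, 10626) (by decide +kernel)
           (CovZ.n2 (-2637, 10625) (by decide +kernel)
            (CovZ.leaf K3_ok TY_l7190 _)
            (CovZ.leaf K3_ok TY_l7191 _))
           (CovZ.leaf K3_ok TY_l7192 _))
          (CovZ.n1 (-2638, 10624) (by decide +kernel)
           (CovZ.leaf K3_ok TY_l7193 _)
           (CovZ.leaf K3_ok TY_l7194 _)))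
         (CovZ.n1 (-2634, 10626) (by decide +kernel)
          (CovZ.n2 (-2634, 10624) (by decide +kernel)
           (CovZ.leaf K3_ok TY_l7195 _)
           (CovZ.leaf K2_ok TY_l7196 _))
          (CovZ.n1 (-2636, 10626) (by decide +kernel)
           (CovZ.n2 (-2635, 10627) (by decide +kernel)
            (CovZ.leaf K3_ok TY_l7197 _)
            (CovZ.leaf K3_ok TY_l7198 _))
           (CovZ.leaf K3_ok TY_l7199 _)))))
       (CovZ.n1 (-2628, 10628) (by decide +kernel)
        (CovZ.n2 (-2628, 10624) (by decide +kernel)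
         (CovZ.n2 (-2630, 10626) (by decide +kernel)
          (CovZ.n2 (-2628, 10626) (by decide +kernel)
           (CovZ.leaf K3_ok TY_l7200 _)
           (CovZ.leaf K3_ok TY_l7201 _))
          (CovZ.n1 (-2630, 10624) (by decide +kernel)
           (CovZ.leaf K3_ok TY_l7202 _)
           (CovZ.leaf K3_ok TY_l7203 _)))
         (CovZ.n1 (-2626, 10626) (by decide +kernel)
          (CovZ.n2 (-2626, 10624) (by decide +kernel)
           (CovZ.leaf K3_ok TY_l7204 _)
           (CovZ.leaf K2_ok TY_l7205 _))
          (CovZ.n1 (-2628, 10626) (by decide +kernel)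
           (CovZ.n2 (-2627, 10627) (by decide +kernel)
            (CovZ.leaf K2_ok TY_l7206 _)
            (CovZ.leaf K3_ok TY_l7207 _))
           (CovZ.leaf K2_ok TY_l7208 _))))
        (CovZ.n1 (-2632, 10628) (by decide +kernel)
         (CovZ.n2 (-2630, 10630) (by decide +kernel)
          (CovZ.n2 (-2630, 10628) (by decide +kernel)
           (CovZ.leaf K3_ok TY_l7209 _)
           (CovZ.leaf K2_ok TY_l7210 _))
          (CovZ.n1 (-2632, 10630) (by decide +kernel)
           (CovZ.n2 (-2631, 10631) (by decide +kernel)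
            (CovZ.leaf K3_ok TY_l7211 _)
            (CovZ.leaf K2_ok TY_l7212 _))
           (CovZ.leaf K3_ok TY_l7213 _)))
         (CovZ.n1 (-2630, 10626) (by decide +kernel)
          (CovZ.n2 (-2632, 10626) (by decide +kernel)
           (CovZ.leaf K3_ok TY_l7214 _)
           (CovZ.leaf K2_ok TY_l7215 _))
          (CovZ.n1 (-2630, 10628) (by decide +kernel)
           (CovZ.leaf K3_ok TY_l7216 _)
           (CovZ.n1 (-2631, 10627) (by decide +kernel)
            (CovZ.leaf K3_ok TY_l7217 _)
            (CovZ.leaf K3_ok TY_l7218 _)))))))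
      (CovZ.n1 (-2640, 10632) (by decide +kernel)
       (CovZ.n2 (-2636, 10636) (by decide +kernel)
        (CovZ.n2 (-2636, 10632) (by decide +kernel)
         (CovZ.n2 (-2638, 10634) (by decide +kernel)
          (CovZ.n2 (-2636, 10634) (by decide +kernel)
           (CovZ.n2 (-2637, 10633) (by decide +kernel)
            (CovZ.leaf K3_ok TY_l7219 _)
            (CovZ.leaf K3_ok TY_l7220 _))
           (CovZ.n1 (-2637, 10635) (by decide +kernel)
            (CovZ.leaf K3_ok TY_l7221 _)
            (CovZ.n1 (-2637, 10634) (by decide +kernel)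
             (CovZ.badM (by decide +kernel))
             (CovZ.leaf K3_ok TY_l7222 _))))
          (CovZ.n1 (-2638, 10632) (by decide +kernel)
           (CovZ.leaf K3_ok TY_l7223 _)
           (CovZ.n1 (-2637, 10633) (by decide +kernel)
            (CovZ.leaf K3_ok TY_l7224 _)
            (CovZ.leaf K3_ok TY_l7225 _))))
         (CovZ.n1 (-2634, 10634) (by decide +kernel)
          (CovZ.n2 (-2634, 10632) (by decide +kernel)
           (CovZ.n2 (-2635, 10633) (by decide +kernel)
            (CovZ.leaf K2_ok TY_l7226 _)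
            (CovZ.leaf K3_ok TY_l7227 _))
           (CovZ.n1 (-2633, 10633) (by decide +kernel)
            (CovZ.leaf K3_ok TY_l7228 _)
            (CovZ.leaf K2_ok TY_l7229 _)))
          (CovZ.n1 (-2636, 10634) (by decide +kernel)
           (CovZ.leaf K3_ok TY_l7230 _)
           (CovZ.leaf K3_ok TY_l7231 _))))
        (CovZ.badM (by decide +kernel)))
       (CovZ.n1 (-2636, 10628) (by decide +kernel)
        (CovZ.n2 (-2640, 10628) (by decide +kernel)
         (CovZ.n2 (-2638, 10630) (by decide +kernel)
          (CovZ.n2 (-2638, 10628) (by decide +kernel)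
           (CovZ.leaf K3_ok TY_l7232 _)
           (CovZ.n1 (-2637, 10629) (by decide +kernel)
            (CovZ.leaf K3_ok TY_l7233 _)
            (CovZ.leaf K3_ok TY_l7234 _)))
          (CovZ.n1 (-2640, 10630) (by decide +kernel)
           (CovZ.leaf K2_ok TY_l7235 _)
           (CovZ.leaf K3_ok TY_l7236 _)))
         (CovZ.n1 (-2638, 10626) (by decide +kernel)
          (CovZ.n2 (-2640, 10626) (by decide +kernel)
           (CovZ.n2 (-2639, 10627) (by decide +kernel)
            (CovZ.leaf K3_ok TY_l7237 _)
            (CovZ.leaf K2_ok TY_l7238 _))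
           (CovZ.leaf K3_ok TY_l7239 _))
          (CovZ.n1 (-2638, 10628) (by decide +kernel)
           (CovZ.leaf K3_ok TY_l7240 _)
           (CovZ.n1 (-2639, 10627) (by decide +kernel)
            (CovZ.leaf K3_ok TY_l7241 _)
            (CovZ.leaf K3_ok TY_l7242 _)))))
        (CovZ.n1 (-2636, 10632) (by decide +kernel)
         (CovZ.n2 (-2634, 10630) (by decide +kernel)
          (CovZ.n2 (-2636, 10630) (by decide +kernel)
           (CovZ.n2 (-2635, 10631) (by decide +kernel)
            (CovZ.leaf K3_ok TY_l7243 _)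
            (CovZ.leaf K3_ok TY_l7244 _))
           (CovZ.leaf K3_ok TY_l7245 _))
          (CovZ.n1 (-2634, 10632) (by decide +kernel)
           (CovZ.n2 (-2633, 10631) (by decide +kernel)
            (CovZ.leaf K3_ok TY_l7246 _)
            (CovZ.n1 (-2633, 10632) (by decide +kernel)
             (CovZ.leaf K2_ok TY_l7247 _)
             (CovZ.leaf K2_ok TY_l7248 _)))
           (CovZ.n1 (-2635, 10631) (by decide +kernel)
            (CovZ.leaf K2_ok TY_l7249 _)
            (CovZ.leaf K3_ok TY_l7250 _))))
         (CovZ.n1 (-2638, 10630) (by decide +kernel)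
          (CovZ.n2 (-2638, 10632) (by decide +kernel)
           (CovZ.leaf K3_ok TY_l7251 _)
           (CovZ.n1 (-2639, 10631) (by decide +kernel)
            (CovZ.leaf K3_ok TY_l7252 _)
            (CovZ.leaf K3_ok TY_l7253 _)))
          (CovZ.n1 (-2636, 10630) (by decide +kernel)
           (CovZ.n2 (-2637, 10629) (by decide +kernel)
            (CovZ.leaf K3_ok TY_l7254 _)
            (CovZ.leaf K3_ok TY_l7255 _))
           (CovZ.n1 (-2637, 10631) (by decide +kernel)
            (CovZ.leaf K3_ok TY_l7256 _)
            (CovZ.leaf K3_ok TY_l7257 _)))))))))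

end Pool.Agent.TET
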