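import Pool.Agent.Helper38_TET.CovZ

/-!
# MP_c7c9bf_co: packed certificates

A certificate with four tetrahedra in one natural number.
-/

set_option autoImplicit false

namespace Pool.Agent.TET

/-- a vector, three fields of `20` bits -/
def v3 (n : ℕ) : Q :=
  ⟨Nat.sub 983040 (Nat.add (Nat.mod (Nat.div n 1099511627776) 1048576)
      (Nat.add (Nat.mod (Nat.div n 1048576) 1048576) (Nat.mod n 1048576))),
    Nat.mod (Nat.div n 1099511627776) 1048576, Nat.mod (Nat.div n 1048576) 1048576,
    Nat.mod n 1048576⟩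

/-- a point, three fields of `20` bits -/
def p3 (n : ℕ) : Q :=
  ⟨Nat.sub 1013760 (Nat.add (Nat.mod (Nat.div n 1099511627776) 1048576)
      (Nat.add (Nat.mod (Nat.div n 1048576) 1048576) (Nat.mod n 1048576))),
    Nat.mod (Nat.div n 1099511627776) 1048576, Nat.mod (Nat.div n 1048576) 1048576,
    Nat.mod n 1048576⟩

/-- a functional, three fields of `15` bits -/
def f3 (n : ℕ) : Q :=
  ⟨Nat.sub 16384 (Nat.add (Nat.mod (Nat.div n 1073741824) 32768)
      (Nat.add (Nat.mod (Nat.div n 32768) 32768) (Nat.mod n 32768))),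
    Nat.mod (Nat.div n 1073741824) 32768, Nat.mod (Nat.div n 32768) 32768, Nat.mod n 32768⟩

/-- `x + v` or `x - v` -/
def sg (s x v : ℕ) : ℕ :=
  cond (Nat.beq s 0) (Nat.sub (Nat.add x v) 245760) (Nat.sub (Nat.add x 245760) v)

/-- a vertex from its coordinates -/
def q3 (b c d : ℕ) : Q := ⟨Nat.sub 1013760 (Nat.add b (Nat.add c d)), b, c, d⟩

def tr (τ : ℕ) (x v : Q) : Q :=
  q3 (sg (Nat.land τ 1) x.b v.b) (sg (Nat.land τ 2) x.c v.c) (sg (Nat.land τ 4) x.d v.d)

def bdu (e f g : Q) (τ : ℕ) (p : Q) : Bd := ⟨p, tr τ p e, tr τ p f, tr τ p g⟩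

/-- the tetrahedra of the types `ts` -/
def bls (e f g : Q) (ts : List ℕ) : ℕ → List Bd :=
  List.rec (motive := fun _ => ℕ → List Bd) (fun _ => [])
    (fun τ _ ih S => bdu e f g τ (p3 S) :: ih (Nat.div S 1152921504606846976)) ts

def cnv (e f g : Q) (ts : List ℕ) (S : ℕ) : Cn :=
  ⟨e, f, g, v3 (Nat.div S 1532495540865888858358347027150309183618739122183602176),
    v3 (Nat.div S 1766847064778384329583297500742918515827483896875618958121606201292619776),
    v3 (Nat.div S 2037035976334486086268445688409378161051468393665936250636140449354381299763336706183397376),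
    bls e f g ts (Nat.div S 2348542582773833227889480596789337027375682548908319870707290971532209025114608443463698998384768703031934976)⟩

/-- a corner -/
def cnu (ts : List ℕ) (S : ℕ) : Cn :=
  cnv (v3 S) (v3 (Nat.div S 1152921504606846976))
    (v3 (Nat.div S 1329227995784915872903807060280344576)) ts S

/-- `k` functionals -/
def dl (k : ℕ) : ℕ → List Q :=
  Nat.rec (motive := fun _ => ℕ → List Q) (fun _ => [])
    (fun _ ih S => f3 S :: ih (Nat.div S 35184372088832)) k

/-- the lists of one row -/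
def dr (cs : List ℕ) : ℕ → List (List Q) :=
  List.rec (motive := fun _ => ℕ → List (List Q)) (fun _ => [])
    (fun c _ ih S => dl c S :: ih (Nat.div S (Nat.pow 2 (Nat.mul 45 c)))) cs

def sumc (cs : List ℕ) : ℕ :=
  List.rec (motive := fun _ => ℕ) 0 (fun c _ ih => Nat.add c ih) cs

/-- all lists -/
def dF (cs : List (List ℕ)) : ℕ → List (List (List Q)) :=
  List.rec (motive := fun _ => ℕ → List (List (List Q))) (fun _ => [])
    (fun r _ ih S => dr r S :: ih (Nat.div S (Nat.pow 2 (Nat.mul 45 (sumc r))))) cs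

/-- a certificate with four tetrahedra -/
def uc (ts : List ℕ) (cs : List (List ℕ)) (S : ℕ) : Cell :=
  ⟨4, ts, [cnu ts (Nat.div S (Nat.pow 2 135)), cnu ts (Nat.div S (Nat.pow 2 735)),
      cnu ts (Nat.div S (Nat.pow 2 1335))],
    dF cs (Nat.div S (Nat.pow 2 1935)), f3 S, f3 (Nat.div S 35184372088832),
    f3 (Nat.div S 1237940039285380274899124224)⟩

end Pool.Agent.TET
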