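import Pool.Agent.Helper38_TET.PDN

/-!
# MP_c7c9bf_co: the volume of a tetrahedron
-/

set_option autoImplicit false

namespace Pool.Agent.TET

open MeasureTheory Set Filter Pool.Agent.UL3 Pool.Agent.UL3.H88
open scoped ENNReal Topology

/-- the standard simplex -/
def T0 : Set E3 := {x | (∀ i, 0 ≤ x i) ∧ x 0 + x 1 + x 2 ≤ 1}

theorem repr_b0 (x : E3) (i : Fin 3) : b0.repr x i = x i := by
  unfold b0
  simp

/-- the linear map `y ↦ (y 0, y 0 + y 1, y 0 + y 1 + y 2)` -/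
noncomputable def A0 : E3 →ₗ[ℝ] E3 :=
  Matrix.toLin b0 b0 (!![1, 0, 0; 1, 1, 0; 1, 1, 1] : Matrix (Fin 3) (Fin 3) ℝ)

theorem b0_sum (x : E3) : x = ∑ i, x i • b0 i := by
  have h := b0.sum_repr x
  simp only [repr_b0] at h
  exact h.symm

theorem toLin_apply' (M : Matrix (Fin 3) (Fin 3) ℝ) (x : E3) (i : Fin 3) :
    Matrix.toLin b0 b0 M x i = ∑ j, M i j * x j := by
  have h1 : Matrix.toLin b0 b0 M x = ∑ j, (M.mulVec (b0.repr x)) j • b0 j :=
    Matrix.toLin_apply b0 b0 M x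
  have h2 : b0.repr (Matrix.toLin b0 b0 M x) i = (M.mulVec (b0.repr x)) i := by
    rw [Matrix.repr_toLin]
  rw [← repr_b0, h2]
  unfold Matrix.mulVec dotProduct
  refine Finset.sum_congr rfl fun j _ => ?_
  rw [repr_b0]

theorem A0_apply (x : E3) : A0 x 0 = x 0 ∧ A0 x 1 = x 0 + x 1 ∧ A0 x 2 = x 0 + x 1 + x 2 := by
  unfold A0
  refine ⟨?_, ?_, ?_⟩ <;> rw [toLin_apply'] <;> simp [Fin.sum_univ_three]

theorem A0_det : LinearMap.det A0 = 1 := by
  unfold A0
  rw [LinearMap.det_toLin, Matrix.det_fin_three]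
  simp

theorem vol_A0 (S : Set E3) : (volume : Measure E3) (A0 '' S) = volume S := by
  rw [Measure.addHaar_image_linearMap, A0_det]
  norm_num

theorem vol_perm (s : Equiv.Perm (Fin 3)) (S : Set E3) :
    (volume : Measure E3) ((LinearIsometryEquiv.piLpCongrLeft 2 ℝ ℝ s) '' S) = volume S := by
  have h2 : (LinearIsometryEquiv.piLpCongrLeft 2 ℝ ℝ s) '' S =
      (LinearIsometryEquiv.piLpCongrLeft 2 ℝ ℝ s).symm ⁻¹' S := by
    ext y
    constructor
    · rintro ⟨x, hx, rfl⟩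
      show (LinearIsometryEquiv.piLpCongrLeft 2 ℝ ℝ s).symm
        (LinearIsometryEquiv.piLpCongrLeft 2 ℝ ℝ s x) ∈ S
      rwa [LinearIsometryEquiv.symm_apply_apply]
    · intro hy
      exact ⟨(LinearIsometryEquiv.piLpCongrLeft 2 ℝ ℝ s).symm y, hy,
        LinearIsometryEquiv.apply_symm_apply _ _⟩
  rw [h2]
  exact ((LinearIsometryEquiv.piLpCongrLeft 2 ℝ ℝ s).symm.measurePreserving).measure_preimage_equiv
    (f := ((LinearIsometryEquiv.piLpCongrLeft 2 ℝ ℝ s).symm.toHomeomorph).toMeasurableEquiv) S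

theorem cube_sub : ZSpan.fundamentalDomain b0 ⊆
    ⋃ s : Equiv.Perm (Fin 3), (LinearIsometryEquiv.piLpCongrLeft 2 ℝ ℝ s) '' (A0 '' T0) := by
  intro x hx
  have hx' : ∀ i, 0 ≤ x i ∧ x i < 1 := by
    intro i
    have h := ZSpan.mem_fundamentalDomain b0 |>.1 hx i
    rw [repr_b0] at h
    exact h
  have hm : Monotone ((x : Fin 3 → ℝ) ∘ (Tuple.sort (x : Fin 3 → ℝ))) := Tuple.monotone_sort _
  obtain ⟨s, hs⟩ : ∃ s : Equiv.Perm (Fin 3), s = Tuple.sort (x : Fin 3 → ℝ) := ⟨_, rfl⟩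
  rw [← hs] at hm
  refine mem_iUnion.2 ⟨s, ?_⟩
  have h01 : x (s 0) ≤ x (s 1) := hm (by decide)
  have h12 : x (s 1) ≤ x (s 2) := hm (by decide)
  refine ⟨WithLp.toLp 2 (fun i => x (s i)), ⟨WithLp.toLp 2 ![x (s 0), x (s 1) - x (s 0),
    x (s 2) - x (s 1)], ⟨?_, ?_⟩, ?_⟩, ?_⟩
  · intro i
    fin_cases i
    · exact (hx' (s 0)).1
    · exact sub_nonneg.2 h01
    · exact sub_nonneg.2 h12
  · show x (s 0) + (x (s 1) - x (s 0)) + (x (s 2) - x (s 1)) ≤ 1
    have := (hx' (s 2)).2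
    linarith
  · ext i
    obtain ⟨h0, h1, h2⟩ := A0_apply (WithLp.toLp 2 ![x (s 0), x (s 1) - x (s 0),
      x (s 2) - x (s 1)])
    fin_cases i
    · exact h0
    · refine h1.trans ?_
      show x (s 0) + (x (s 1) - x (s 0)) = x (s 1)
      ring
    · refine h2.trans ?_
      show x (s 0) + (x (s 1) - x (s 0)) + (x (s 2) - x (s 1)) = x (s 2)
      ring
  · ext i
    simp

theorem vol_T0 : ENNReal.ofReal (1 / 6) ≤ (volume : Measure E3) T0 := by
  have h1 := measure_mono (μ := (volume : Measure E3)) cube_sub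
  rw [vol_b0] at h1
  have h2 : (volume : Measure E3) (⋃ s : Equiv.Perm (Fin 3),
      (LinearIsometryEquiv.piLpCongrLeft 2 ℝ ℝ s) '' (A0 '' T0)) ≤ 6 * volume T0 := by
    refine (measure_iUnion_fintype_le _ _).trans ?_
    have h3 : ∀ s : Equiv.Perm (Fin 3), (volume : Measure E3)
        ((LinearIsometryEquiv.piLpCongrLeft 2 ℝ ℝ s) '' (A0 '' T0)) = volume T0 := by
      intro s
      rw [vol_perm, vol_A0]
    rw [Finset.sum_congr rfl fun s _ => h3 s, Finset.sum_const, Finset.card_univ,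
      Fintype.card_perm, Fintype.card_fin, nsmul_eq_mul]
    exact le_of_eq (by norm_num [Nat.factorial])
  have h4 := h1.trans h2
  have h5 : ENNReal.ofReal (1 / 6) = 1 / 6 := by
    rw [ENNReal.ofReal_div_of_pos (by norm_num)]
    norm_num
  rw [h5]
  refine ENNReal.div_le_of_le_mul' ?_
  exact h4

end Pool.Agent.TET
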